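import Pool.Agent.Lib.MP_77dff5_pr.Var

/-! Local estimates for the size of a filled core. -/

set_option autoImplicit false

namespace Pool.Agent.Lib.MP_77dff5_pr

open MeasureTheory ProbabilityTheory Filter Topology
open scoped ENNReal NNReal

variable {Ω J : Type} [Countable Ω] [MeasurableSpace Ω] [DiscreteMeasurableSpace Ω] [Fintype J]
  {ν : J → Measure Ω} {s : Ω → ℕ} {z : Ω → ℝ} {A c₀ : ℝ} {j₀ : J}

theorem kernelA_int_exp (m : ℤ) :
    ∫ t in (-Real.pi)..Real.pi, Complex.exp (Complex.I * ((t * m : ℝ) : ℂ)) =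
      if m = 0 then (2 * Real.pi : ℂ) else 0 := by
  split_ifs with hm
  · subst hm
    simp [two_mul]
  · have hc : (Complex.I * (m : ℂ)) ≠ 0 := mul_ne_zero Complex.I_ne_zero (by exact_mod_cast hm)
    have h := integral_exp_mul_complex (a := -Real.pi) (b := Real.pi) hc
    have h1 : ∀ t : ℝ, Complex.I * ((t * m : ℝ) : ℂ) = Complex.I * (m : ℂ) * (t : ℂ) := by
      intro t; push_cast; ring
    simp_rw [h1]
    rw [h]
    have h2 : Complex.exp (Complex.I * (m : ℂ) * (Real.pi : ℂ)) =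
        Complex.exp (Complex.I * (m : ℂ) * ((-Real.pi : ℝ) : ℂ)) := by
      rw [Complex.exp_eq_exp_iff_exists_int]
      exact ⟨m, by push_cast; ring⟩
    rw [h2, sub_self, zero_div]

theorem kernelA_norm_exp (x : ℝ) : ‖Complex.exp (Complex.I * (x : ℂ))‖ = 1 := by
  rw [mul_comm]; exact Complex.norm_exp_ofReal_mul_I x

theorem kernelA_norm_exp_neg (x : ℝ) : ‖Complex.exp (-(Complex.I * (x : ℂ)))‖ = 1 := by
  have := kernelA_norm_exp (-x)
  rwa [Complex.ofReal_neg, mul_neg] at this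

/-- Fourier inversion for an integer valued variable -/
theorem setIntegral_eq_fourier {X : Type} [MeasurableSpace X] (μ : Measure X) [SFinite μ] (S : X → ℕ)
    (hS : Measurable S) (F : X → ℂ) (hF : Integrable F μ) (n : ℤ) :
    ∫ ω in {ω | (S ω : ℤ) = n}, F ω ∂μ = (2 * Real.pi : ℂ)⁻¹ * ∫ t in (-Real.pi)..Real.pi,
      Complex.exp (-(Complex.I * ((t * n : ℝ) : ℂ))) *
        ∫ ω, F ω * Complex.exp (Complex.I * ((t * S ω : ℝ) : ℂ)) ∂μ := by
  have hSR : Measurable fun ω => (S ω : ℝ) := (measurable_from_top (f := fun k : ℕ => (k : ℝ))).comp hS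
  have hSZ : Measurable fun ω => (S ω : ℤ) := (measurable_from_top (f := fun k : ℕ => (k : ℤ))).comp hS
  have h1 : ∀ t : ℝ, Complex.exp (-(Complex.I * ((t * n : ℝ) : ℂ))) *
      ∫ ω, F ω * Complex.exp (Complex.I * ((t * S ω : ℝ) : ℂ)) ∂μ =
      ∫ ω, Complex.exp (Complex.I * ((t * (((S ω : ℤ) - n : ℤ) : ℝ) : ℝ) : ℂ)) * F ω ∂μ := by
    intro t
    rw [← integral_const_mul]
    refine integral_congr_ae (Eventually.of_forall fun ω => ?_)
    simp only
    rw [mul_left_comm, ← Complex.exp_add, mul_comm]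
    congr 2
    push_cast; ring
  simp_rw [h1]
  have hint : Integrable (Function.uncurry fun (t : ℝ) (ω : X) =>
      Complex.exp (Complex.I * ((t * (((S ω : ℤ) - n : ℤ) : ℝ) : ℝ) : ℂ)) * F ω)
      ((volume.restrict (Set.uIoc (-Real.pi) Real.pi)).prod μ) := by
    have hfin : IsFiniteMeasure (volume.restrict (Set.uIoc (-Real.pi) Real.pi)) := by
      rw [Set.uIoc]; infer_instance
    have hF2 : Integrable (fun p : ℝ × X => F p.2)
        ((volume.restrict (Set.uIoc (-Real.pi) Real.pi)).prod μ) := hF.comp_snd _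
    refine hF2.bdd_mul (c := 1) ?_ (Eventually.of_forall fun p => (kernelA_norm_exp _).le)
    have hm : Measurable fun ω => ((((S ω : ℤ) - n : ℤ)) : ℝ) := by
      simp only [Int.cast_sub, Int.cast_natCast]
      exact hSR.sub_const _
    have hm2 : Measurable fun p : ℝ × X => p.1 * ((((S p.2 : ℤ) - n : ℤ)) : ℝ) :=
      measurable_fst.mul (hm.comp measurable_snd)
    exact (Complex.measurable_exp.comp
      ((Complex.measurable_ofReal.comp hm2).const_mul _)).aestronglyMeasurable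
  rw [intervalIntegral_integral_swap hint]
  simp_rw [intervalIntegral.integral_mul_const, kernelA_int_exp]
  have hmeas : MeasurableSet {ω | (S ω : ℤ) = n} := hSZ (measurableSet_singleton n)
  rw [← integral_const_mul, ← integral_indicator hmeas]
  refine integral_congr_ae (Eventually.of_forall fun ω => ?_)
  have hpi : (2 * Real.pi : ℂ) ≠ 0 := by
    have := Real.pi_ne_zero
    exact mul_ne_zero two_ne_zero (by exact_mod_cast this)
  by_cases h : (S ω : ℤ) = n
  · simp only [Set.indicator, Set.mem_ofPred_eq, h, if_true, sub_self]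
    rw [← mul_assoc, inv_mul_cancel₀ hpi, one_mul]
  · simp only [Set.indicator, Set.mem_ofPred_eq, h, if_false, sub_eq_zero]
    simp

theorem kernelA_taylor (u : ℝ) :
    ‖Complex.exp (Complex.I * (u : ℂ)) - 1 - Complex.I * (u : ℂ)‖ ≤ 2 * min (u ^ 2) |u| := by
  have hn : ‖Complex.I * (u : ℂ)‖ = |u| := by simp
  rcases le_total |u| 1 with h | h
  · have h1 := Complex.norm_exp_sub_one_sub_id_le (x := Complex.I * (u : ℂ)) (by rw [hn]; exact h)
    rw [hn, sq_abs] at h1
    have h2 : u ^ 2 ≤ |u| := by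
      rw [← sq_abs]; nlinarith [abs_nonneg u]
    rw [min_eq_left h2]; nlinarith [sq_nonneg u]
  · have h2 : |u| ≤ u ^ 2 := by
      rw [← sq_abs]; nlinarith [abs_nonneg u]
    rw [min_eq_right h2]
    have h3 := Real.norm_exp_I_mul_ofReal_sub_one_le (x := u)
    rw [Real.norm_eq_abs] at h3
    calc _ ≤ ‖Complex.exp (Complex.I * (u : ℂ)) - 1‖ + ‖Complex.I * (u : ℂ)‖ := norm_sub_le _ _
      _ ≤ _ := by rw [hn]; linarith

theorem kernelA_integrable_exp (μ : Measure Ω) [IsFiniteMeasure μ] (f : Ω → ℝ) :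
    Integrable (fun ω => Complex.exp (Complex.I * ((f ω : ℝ) : ℂ))) μ :=
  (integrable_const (1 : ℝ)).mono' (measurable_of_countable _).aestronglyMeasurable
    (Eventually.of_forall fun _ => (kernelA_norm_exp _).le)

omit [Countable Ω] [DiscreteMeasurableSpace Ω] in
theorem kernelA_norm_phi_le (μ : Measure Ω) [IsProbabilityMeasure μ] (s : Ω → ℕ) (t : ℝ) :
    ‖phi μ s t‖ ≤ 1 := by
  have := norm_integral_le_of_norm_le_const (μ := μ) (C := 1)
    (f := fun ω => Complex.exp (Complex.I * ((t * s ω : ℝ) : ℂ)))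
    (Eventually.of_forall fun _ => (kernelA_norm_exp _).le)
  simpa [phi] using this

omit [Fintype J] in
/-- `T1` in terms of the frequency -/
theorem kernelA_T1 (h : Slots1 ν s z) (h1 : T1 ν s A) (j : J) {t : ℝ} (ht : |t| ≤ 1) :
    Integrable (fun ω => min ((t * s ω) ^ 2) |t * s ω|) (ν j) ∧
      ∫ ω, min ((t * s ω) ^ 2) |t * s ω| ∂ν j ≤ A * |t| ^ (3 / 2 : ℝ) := by
  constructor
  · refine ((h.int_s j).const_mul t).abs.mono' (measurable_of_countable _).aestronglyMeasurable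
      (Eventually.of_forall fun ω => ?_)
    rw [Real.norm_of_nonneg (le_min (sq_nonneg _) (abs_nonneg _))]
    exact min_le_right _ _
  · rcases eq_or_ne t 0 with rfl | ht0
    · simp
    · have hpos : 0 < |t| := abs_pos.2 ht0
      have h2 := h1 j |t|⁻¹ (one_le_inv_iff₀.2 ⟨hpos, ht⟩)
      rw [Real.inv_rpow hpos.le, ← Real.rpow_neg hpos.le, neg_neg] at h2
      refine le_of_eq_of_le (integral_congr_ae (Eventually.of_forall fun ω => ?_)) h2
      simp only
      rw [div_inv_eq_mul, ← sq_abs (t * s ω), abs_mul, Nat.abs_cast, mul_comm]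

omit [Fintype J] in
theorem norm_phi_sub_le (h : Slots1 ν s z) (h1 : T1 ν s A) (j : J) {t : ℝ} (ht : |t| ≤ 1) :
    ‖phi (ν j) s t - 1 - Complex.I * ((t * ∫ ω, (s ω : ℝ) ∂ν j : ℝ) : ℂ)‖ ≤
      2 * A * |t| ^ (3 / 2 : ℝ) := by
  have := h.prob j
  obtain ⟨hi, hle⟩ := kernelA_T1 h h1 j ht
  have hI1 := kernelA_integrable_exp (ν j) fun ω => t * s ω
  have hI2 : Integrable (fun ω => Complex.I * ((t * s ω : ℝ) : ℂ)) (ν j) :=
    (((h.int_s j).const_mul t).ofReal).const_mul _
  have heq : phi (ν j) s t - 1 - Complex.I * ((t * ∫ ω, (s ω : ℝ) ∂ν j : ℝ) : ℂ) =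
      ∫ ω, (Complex.exp (Complex.I * ((t * s ω : ℝ) : ℂ)) - 1 - Complex.I * ((t * s ω : ℝ) : ℂ))
        ∂ν j := by
    have hI3 : Integrable (fun ω => Complex.exp (Complex.I * ((t * s ω : ℝ) : ℂ)) - 1) (ν j) :=
      hI1.sub (integrable_const _)
    rw [integral_sub hI3 hI2, integral_sub hI1 (integrable_const _),
      integral_const_mul, integral_complex_ofReal, integral_const_mul]
    simp [phi]
  rw [heq]
  refine (norm_integral_le_of_norm_le (hi.const_mul 2)
    (Eventually.of_forall fun ω => kernelA_taylor _)).trans ?_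
  rw [integral_const_mul]
  linarith

/-- the basic stretched exponential integral -/
theorem kernelA_int_bound {c r : ℝ} (hc : 0 < c) (hr : 0 ≤ r) : ∃ C : ℝ, 0 ≤ C ∧ ∀ x : ℝ, 0 < x →
    ∫ t in (-Real.pi)..Real.pi, |t| ^ r * Real.exp (-(c * x * |t| ^ (3 / 2 : ℝ))) ≤
      C * x ^ (-(2 / 3 * (r + 1))) := by
  set g : ℝ → ℝ := fun u => |u| ^ r * Real.exp (-(c * |u| ^ (3 / 2 : ℝ))) with hg
  have hg0 : ∀ u, 0 ≤ g u := fun u => by positivity
  have hI : IntegrableOn g (Set.Ioi 0) := by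
    refine (integrableOn_rpow_mul_exp_neg_mul_rpow (p := 3 / 2) (s := r) (b := c) (by linarith)
      (by norm_num) hc).congr_fun (fun u hu => ?_) measurableSet_Ioi
    simp only [hg, abs_of_pos (show 0 < u from hu), neg_mul]
  have hI' : IntegrableOn g (Set.Iic 0) := by
    rw [← Measure.map_neg_eq_self (volume : Measure ℝ)]
    let m : MeasurableEmbedding fun x : ℝ => -x := (Homeomorph.neg ℝ).measurableEmbedding
    rw [m.integrableOn_map_iff]
    simp_rw [Function.comp_def, hg, abs_neg, Set.neg_preimage, Set.neg_Iic, neg_zero]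
    exact Iff.mpr integrableOn_Ici_iff_integrableOn_Ioi hI
  have hint : Integrable g := by
    rw [← integrableOn_univ, ← Set.Iic_union_Ioi (a := (0 : ℝ))]
    exact hI'.union hI
  refine ⟨∫ u, g u, integral_nonneg hg0, fun x hx => ?_⟩
  set a : ℝ := x ^ (2 / 3 : ℝ) with ha
  have ha0 : 0 < a := Real.rpow_pos_of_pos hx _
  have heq : ∀ t : ℝ, |t| ^ r * Real.exp (-(c * x * |t| ^ (3 / 2 : ℝ))) =
      x ^ (-(2 / 3 * r)) * g (a * t) := by
    intro t
    simp only [hg, abs_mul, abs_of_pos ha0]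
    rw [Real.mul_rpow ha0.le (abs_nonneg _), Real.mul_rpow ha0.le (abs_nonneg _), ha,
      ← Real.rpow_mul hx.le, ← Real.rpow_mul hx.le, ← mul_assoc, ← mul_assoc,
      ← Real.rpow_add hx]
    norm_num [mul_assoc]
  simp_rw [heq]
  rw [intervalIntegral.integral_const_mul, intervalIntegral.integral_of_le (by linarith [Real.pi_pos])]
  have h1 : ∫ t in Set.Ioc (-Real.pi) Real.pi, g (a * t) ≤ ∫ t, g (a * t) :=
    setIntegral_le_integral (hint.comp_mul_left' ha0.ne') (Eventually.of_forall fun t => hg0 _)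
  rw [Measure.integral_comp_mul_left, abs_of_pos (inv_pos.2 ha0), smul_eq_mul] at h1
  calc _ ≤ x ^ (-(2 / 3 * r)) * (a⁻¹ * ∫ u, g u) :=
        mul_le_mul_of_nonneg_left h1 (Real.rpow_nonneg hx.le _)
    _ = _ := by
        rw [ha, ← Real.rpow_neg hx.le, ← mul_assoc, ← Real.rpow_add hx, mul_comm]
        congr 2; ring

theorem kernelA_cont {c r : ℝ} (hr : 0 ≤ r) :
    Continuous fun t : ℝ => |t| ^ r * Real.exp (-(c * |t| ^ (3 / 2 : ℝ))) := by
  have h1 : Continuous fun t : ℝ => |t| ^ r := continuous_abs.rpow_const fun _ => Or.inr hr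
  have h2 : Continuous fun t : ℝ => |t| ^ (3 / 2 : ℝ) :=
    continuous_abs.rpow_const fun _ => Or.inr (by norm_num)
  exact h1.mul (Real.continuous_exp.comp (h2.const_mul c).neg)

/-- characteristic function of a sum over some independent slots -/
theorem kernelA_char {I : Type} [Fintype I] (ν : I → Measure Ω) [∀ i, IsProbabilityMeasure (ν i)]
    (s : Ω → ℕ) (K : Finset I) (t : ℝ) :
    ∫ ω, Complex.exp (Complex.I * ((t * ((∑ i ∈ K, s (ω i) : ℕ) : ℝ) : ℝ) : ℂ)) ∂Measure.pi ν =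
      ∏ i ∈ K, phi (ν i) s t := by
  classical
  have h1 : ∀ ω : I → Ω, Complex.exp (Complex.I * ((t * ((∑ i ∈ K, s (ω i) : ℕ) : ℝ) : ℝ) : ℂ)) =
      ∏ i, (fun i x => if i ∈ K then Complex.exp (Complex.I * ((t * s x : ℝ) : ℂ)) else 1) i (ω i) := by
    intro ω
    rw [← Finset.prod_filter, Finset.filter_mem_eq_inter, Finset.univ_inter, ← Complex.exp_sum]
    congr 1
    push_cast
    rw [Finset.mul_sum, Finset.mul_sum]
  simp_rw [h1]
  rw [integral_fintype_prod_eq_prod
    (fun i x => if i ∈ K then Complex.exp (Complex.I * ((t * s x : ℝ) : ℂ)) else 1)]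
  have h2 : ∀ i, ∫ x, (if i ∈ K then Complex.exp (Complex.I * ((t * s x : ℝ) : ℂ)) else 1) ∂ν i =
      if i ∈ K then phi (ν i) s t else 1 := by
    intro i
    split_ifs
    · rfl
    · simp
  simp_rw [h2]
  rw [← Finset.prod_filter, Finset.filter_mem_eq_inter, Finset.univ_inter]

/-- Fourier inversion for point masses -/
theorem kernelA_real_eq {X : Type} [MeasurableSpace X] (μ : Measure X) [IsFiniteMeasure μ]
    (S : X → ℕ) (hS : Measurable S) (n : ℤ) :
    ((μ.real {ω | (S ω : ℤ) = n} : ℝ) : ℂ) = (2 * Real.pi : ℂ)⁻¹ * ∫ t in (-Real.pi)..Real.pi,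
      Complex.exp (-(Complex.I * ((t * n : ℝ) : ℂ))) *
        ∫ ω, Complex.exp (Complex.I * ((t * S ω : ℝ) : ℂ)) ∂μ := by
  have h := setIntegral_eq_fourier μ S hS (fun _ => 1) (integrable_const _) n
  simp only [one_mul] at h
  rw [← h, setIntegral_const]
  simp

theorem kernelA_norm_inv : ‖(2 * Real.pi : ℂ)⁻¹‖ ≤ 1 := by
  rw [norm_inv, norm_mul, Complex.norm_real, Real.norm_of_nonneg Real.pi_pos.le]
  simp only [Complex.norm_ofNat]
  exact inv_le_one_of_one_le₀ (by linarith [Real.pi_gt_three])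

theorem kernelA_T4_pow {μ : Measure Ω} (h4 : T4 μ s c₀) {t : ℝ} (ht : |t| ≤ Real.pi) :
    ‖phi μ s t‖ ≤ Real.exp (-(c₀ * |t| ^ (3 / 2 : ℝ))) :=
  (h4 t ht).trans (by linarith [Real.add_one_le_exp (-(c₀ * |t| ^ (3 / 2 : ℝ)))])

theorem kernelA_abs_le {t : ℝ} (ht : t ∈ Set.Ioc (-Real.pi) Real.pi) : |t| ≤ Real.pi :=
  abs_le.2 ⟨ht.1.le, ht.2⟩

/-- concentration function of a sum of heavy slots -/
theorem conc_le (hc : 0 < c₀) : ∃ C : ℝ, ∀ (I : Type) [Fintype I] (ν : I → Measure Ω)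
    [∀ i, IsProbabilityMeasure (ν i)] (K : Finset I), (∀ i ∈ K, T4 (ν i) s c₀) → K.Nonempty →
    ∀ (K' : Finset I), K ⊆ K' → ∀ n : ℕ,
      (Measure.pi ν).real {ω | ∑ i ∈ K', s (ω i) = n} ≤ C * (K.card : ℝ) ^ (-(2 / 3) : ℝ) := by
  classical
  obtain ⟨C, -, hC⟩ := kernelA_int_bound (r := 0) hc le_rfl
  refine ⟨C, fun I _ ν _ K hK hne K' hKK' n => ?_⟩
  have hk : (0 : ℝ) < K.card := by exact_mod_cast hne.card_pos
  have h1 := kernelA_real_eq (Measure.pi ν) (fun ω => ∑ i ∈ K', s (ω i))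
    (measurable_of_countable _) n
  simp only [Nat.cast_inj] at h1
  simp_rw [kernelA_char] at h1
  have h2 := hC _ hk
  rw [show (-(2 / 3 * ((0 : ℝ) + 1))) = -(2 / 3) by norm_num] at h2
  refine le_trans ?_ h2
  have h3 : (Measure.pi ν).real {ω | ∑ i ∈ K', s (ω i) = n} =
      ‖(((Measure.pi ν).real {ω | ∑ i ∈ K', s (ω i) = n} : ℝ) : ℂ)‖ := by
    rw [Complex.norm_real, Real.norm_of_nonneg measureReal_nonneg]
  rw [h3, h1, norm_mul]
  refine (mul_le_of_le_one_left (norm_nonneg _) kernelA_norm_inv).trans ?_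
  refine intervalIntegral.norm_integral_le_of_norm_le (by linarith [Real.pi_pos])
    (Eventually.of_forall fun t ht => ?_) ((kernelA_cont le_rfl).intervalIntegrable _ _)
  rw [norm_mul, kernelA_norm_exp_neg, one_mul, Real.rpow_zero, one_mul, norm_prod,
    ← Finset.prod_sdiff hKK']
  have h5 : ∏ i ∈ K' \ K, ‖phi (ν i) s t‖ ≤ 1 :=
    Finset.prod_le_one (fun _ _ => norm_nonneg _) fun i _ => kernelA_norm_phi_le _ _ _
  have h6 : ∏ i ∈ K, ‖phi (ν i) s t‖ ≤ ∏ _i ∈ K, Real.exp (-(c₀ * |t| ^ (3 / 2 : ℝ))) :=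
    Finset.prod_le_prod (fun _ _ => norm_nonneg _) fun i hi =>
      kernelA_T4_pow (hK i hi) (kernelA_abs_le ht)
  rw [Finset.prod_const, ← Real.exp_nat_mul] at h6
  refine (mul_le_of_le_one_left (Finset.prod_nonneg fun _ _ => norm_nonneg _) h5).trans
    (h6.trans_eq ?_)
  congr 1; ring

theorem kernelA_prod_sub {ι : Type} (S : Finset ι) (a b : ι → ℂ) (ha : ∀ i, ‖a i‖ ≤ 1)
    (hb : ∀ i, ‖b i‖ ≤ 1) : ‖∏ i ∈ S, a i - ∏ i ∈ S, b i‖ ≤ ∑ i ∈ S, ‖a i - b i‖ := by
  classical
  induction S using Finset.induction_on with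
  | empty => simp
  | insert i S hi ih =>
    rw [Finset.prod_insert hi, Finset.prod_insert hi, Finset.sum_insert hi]
    have h1 : a i * ∏ j ∈ S, a j - b i * ∏ j ∈ S, b j =
        (a i - b i) * ∏ j ∈ S, a j + b i * (∏ j ∈ S, a j - ∏ j ∈ S, b j) := by ring
    have h2 : ‖∏ j ∈ S, a j‖ ≤ 1 := by
      rw [norm_prod]; exact Finset.prod_le_one (fun _ _ => norm_nonneg _) fun j _ => ha j
    rw [h1]
    refine (norm_add_le _ _).trans ?_
    rw [norm_mul, norm_mul]
    exact add_le_add (mul_le_of_le_one_right (norm_nonneg _) h2)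
      ((mul_le_of_le_one_left (norm_nonneg _) (hb i)).trans ih)

theorem kernelA_pow_sub_one {w : ℂ} (hw : ‖w‖ ≤ 1) (m : ℕ) : ‖w ^ m - 1‖ ≤ m * ‖w - 1‖ := by
  have := kernelA_prod_sub (Finset.range m) (fun _ => w) (fun _ => 1) (fun _ => hw) (by simp)
  simpa using this

theorem kernelA_pow_sub {w : ℂ} (hw : ‖w‖ ≤ 1) (a b : ℕ) :
    ‖w ^ a - w ^ b‖ ≤ |(a : ℝ) - b| * ‖w - 1‖ := by
  wlog hab : b ≤ a generalizing a b
  · rw [norm_sub_rev, abs_sub_comm]; exact this b a (le_of_not_ge hab)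
  obtain ⟨m, rfl⟩ := Nat.exists_eq_add_of_le hab
  have h1 : w ^ (b + m) - w ^ b = w ^ b * (w ^ m - 1) := by ring
  rw [h1, norm_mul, norm_pow]
  push_cast
  rw [add_sub_cancel_left, Nat.abs_cast]
  exact (mul_le_of_le_one_left (norm_nonneg _) (pow_le_one₀ (norm_nonneg _) hw)).trans
    (kernelA_pow_sub_one hw m)

/-- the centred characteristic function of one slot -/
noncomputable def kernelA_psi (μ : Measure Ω) (s : Ω → ℕ) (t : ℝ) : ℂ :=
  phi μ s t * Complex.exp (-(Complex.I * ((t * ∫ ω, (s ω : ℝ) ∂μ : ℝ) : ℂ)))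

omit [Countable Ω] [DiscreteMeasurableSpace Ω] in
theorem kernelA_norm_psi (μ : Measure Ω) (s : Ω → ℕ) (t : ℝ) :
    ‖kernelA_psi μ s t‖ = ‖phi μ s t‖ := by
  rw [kernelA_psi, norm_mul, kernelA_norm_exp_neg, mul_one]

theorem kernelA_psi_sub (h : Slots1 ν s z) (h1 : T1 ν s A) :
    ∃ C : ℝ, 0 ≤ C ∧ ∀ j t, ‖kernelA_psi (ν j) s t - 1‖ ≤ C * |t| ^ (3 / 2 : ℝ) := by
  refine ⟨2 * |A| + 2 * ∑ j, (∫ ω, (s ω : ℝ) ∂ν j) ^ 2 + 2, by positivity, fun j t => ?_⟩
  have := h.prob j
  have hs0 : 0 ≤ ∑ j, (∫ ω, (s ω : ℝ) ∂ν j) ^ 2 := by positivity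
  have hp0 : 0 ≤ |t| ^ (3 / 2 : ℝ) := by positivity
  rcases le_total |t| 1 with ht | ht
  · set m := ∫ ω, (s ω : ℝ) ∂ν j with hm
    have h2 := norm_phi_sub_le h h1 j ht
    have h3 := kernelA_taylor (t * m)
    have h4 : kernelA_psi (ν j) s t - 1 =
        ((phi (ν j) s t - 1 - Complex.I * ((t * m : ℝ) : ℂ)) -
          (Complex.exp (Complex.I * ((t * m : ℝ) : ℂ)) - 1 - Complex.I * ((t * m : ℝ) : ℂ))) *
          Complex.exp (-(Complex.I * ((t * m : ℝ) : ℂ))) := by
      have : Complex.exp (Complex.I * ((t * m : ℝ) : ℂ)) *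
          Complex.exp (-(Complex.I * ((t * m : ℝ) : ℂ))) = 1 := by
        rw [← Complex.exp_add, add_neg_cancel, Complex.exp_zero]
      rw [kernelA_psi, ← hm]
      linear_combination this
    rw [h4, norm_mul, kernelA_norm_exp_neg, mul_one]
    refine (norm_sub_le _ _).trans ?_
    have h5 : t ^ 2 ≤ |t| ^ (3 / 2 : ℝ) := by
      rw [← sq_abs, ← Real.rpow_two]
      exact Real.rpow_le_rpow_of_exponent_ge' (abs_nonneg _) ht (by norm_num) (by norm_num)
    have h6 : m ^ 2 ≤ ∑ j, (∫ ω, (s ω : ℝ) ∂ν j) ^ 2 :=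
      Finset.single_le_sum (f := fun j => (∫ ω, (s ω : ℝ) ∂ν j) ^ 2) (fun _ _ => sq_nonneg _)
        (Finset.mem_univ j)
    have h7 : min ((t * m) ^ 2) |t * m| ≤ (∑ j, (∫ ω, (s ω : ℝ) ∂ν j) ^ 2) * |t| ^ (3 / 2 : ℝ) := by
      refine (min_le_left _ _).trans ?_
      rw [mul_pow, mul_comm]
      exact mul_le_mul h6 h5 (sq_nonneg _) hs0
    have h8 := mul_le_mul_of_nonneg_right (le_abs_self A) hp0
    nlinarith
  · have h2 : 1 ≤ |t| ^ (3 / 2 : ℝ) := Real.one_le_rpow ht (by norm_num)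
    have h3 : ‖kernelA_psi (ν j) s t - 1‖ ≤ 2 := by
      refine (norm_sub_le _ _).trans ?_
      rw [kernelA_norm_psi, norm_one]
      linarith [kernelA_norm_phi_le (ν j) s t]
    have h4 := mul_nonneg (abs_nonneg A) hp0
    have h5 := mul_nonneg hs0 hp0
    nlinarith

omit [Countable Ω] [MeasurableSpace Ω] [DiscreteMeasurableSpace Ω] in
theorem kernelA_prod_cls (c : Core Ω J) (f : J → ℂ) : ∏ i, f (c.cls i) = ∏ j, f j ^ c.cnt j := by
  classical
  rw [← Finset.prod_fiberwise' Finset.univ c.cls f]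
  refine Finset.prod_congr rfl fun j _ => ?_
  rw [Finset.prod_const, Core.cnt, Nat.card_eq_fintype_card, Fintype.card_subtype]

/-- Fourier formula for the local kernel -/
theorem kernelA_kap (h : Slots1 ν s z) (c : Core Ω J) (n : ℤ) :
    ((c.kap ν s n : ℝ) : ℂ) = (2 * Real.pi : ℂ)⁻¹ * ∫ t in (-Real.pi)..Real.pi,
      Complex.exp (-(Complex.I * ((t * (n - c.mean ν s) : ℝ) : ℂ))) *
        ∏ j, kernelA_psi (ν j) s t ^ c.cnt j := by
  have := h.prob
  have := Core.isProb h.prob c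
  rw [Core.kap, kernelA_real_eq (c.P ν) (c.S s) (measurable_of_countable _) n]
  congr 1
  refine intervalIntegral.integral_congr fun t _ => ?_
  have h1 : ∀ ω : c.I → Ω, Complex.exp (Complex.I * ((t * c.S s ω : ℝ) : ℂ)) =
      Complex.exp (Complex.I * ((t * c.s0 : ℝ) : ℂ)) *
        Complex.exp (Complex.I * ((t * ((∑ i, s (ω i) : ℕ) : ℝ) : ℝ) : ℂ)) := by
    intro ω
    rw [← Complex.exp_add, Core.S]
    congr 1
    push_cast; ring
  simp_rw [h1]
  rw [integral_const_mul, Core.P, kernelA_char, ← kernelA_prod_cls c fun j => kernelA_psi (ν j) s t]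
  simp only [kernelA_psi]
  rw [Finset.prod_mul_distrib, ← Complex.exp_sum, ← mul_assoc, ← Complex.exp_add, mul_left_comm,
    ← Complex.exp_add, mul_comm]
  congr 2
  rw [Core.mean]
  push_cast
  rw [Finset.sum_neg_distrib, ← Finset.mul_sum, ← Finset.mul_sum]
  ring

theorem kernelA_cont_phi (μ : Measure Ω) [IsFiniteMeasure μ] (s : Ω → ℕ) :
    Continuous (phi μ s) := by
  refine continuous_of_dominated (bound := fun _ => 1)
    (fun _ => (measurable_of_countable _).aestronglyMeasurable)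
    (fun _ => Eventually.of_forall fun _ => (kernelA_norm_exp _).le) (integrable_const _)
    (Eventually.of_forall fun ω => by fun_prop)

theorem kap_sub_le (h : Slots1 ν s z) (h1 : T1 ν s A) (hc : 0 < c₀) (h4 : T4 (ν j₀) s c₀) :
    ∃ C : ℝ, ∀ c c' : Core Ω J, ∀ x : ℝ, 1 ≤ x → x ≤ c.cnt j₀ → x ≤ c'.cnt j₀ → ∀ n n' : ℤ,
      |c.kap ν s n - c'.kap ν s n'| ≤ C * ((∑ j, |(c.cnt j : ℝ) - c'.cnt j|) * x ^ (-(5 / 3) : ℝ) +
        |(n - c.mean ν s) - (n' - c'.mean ν s)| * x ^ (-(4 / 3) : ℝ)) := by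
  classical
  have := h.prob
  obtain ⟨C1, hC1, hI1⟩ := kernelA_int_bound (r := 3 / 2) hc (by norm_num)
  obtain ⟨C2, hC2, hI2⟩ := kernelA_int_bound (r := 1) hc (by norm_num)
  obtain ⟨C3, hC3, hψ⟩ := kernelA_psi_sub h h1
  refine ⟨C3 * C1 + C2, fun c c' x hx hxc hxc' n n' => ?_⟩
  have hx0 : 0 < x := by linarith
  set D := ∑ j, |(c.cnt j : ℝ) - c'.cnt j| with hD
  have hD0 : 0 ≤ D := by positivity
  set d : ℝ := n - c.mean ν s with hd
  set d' : ℝ := n' - c'.mean ν s with hd'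
  have hψ1 : ∀ j t, ‖kernelA_psi (ν j) s t‖ ≤ 1 := fun j t => by
    rw [kernelA_norm_psi]; exact kernelA_norm_phi_le _ _ _
  have hcont : ∀ (e : ℝ) (k : J → ℕ), Continuous fun t : ℝ =>
      Complex.exp (-(Complex.I * ((t * e : ℝ) : ℂ))) * ∏ j, kernelA_psi (ν j) s t ^ k j := by
    intro e k
    refine Continuous.mul (by fun_prop) (continuous_finsetProd _ fun j _ => Continuous.pow ?_ _)
    exact (kernelA_cont_phi _ _).mul (by fun_prop)
  rw [← Real.norm_eq_abs, ← Complex.norm_real, Complex.ofReal_sub, kernelA_kap h, kernelA_kap h,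
    ← mul_sub, ← intervalIntegral.integral_sub ((hcont _ _).intervalIntegrable _ _)
      ((hcont _ _).intervalIntegrable _ _), norm_mul]
  refine (mul_le_of_le_one_left (norm_nonneg _) kernelA_norm_inv).trans ?_
  have hb1 := (kernelA_cont (c := c₀ * x) (r := 3 / 2) (by norm_num)).intervalIntegrable
    (μ := volume) (-Real.pi) Real.pi
  have hb2 := (kernelA_cont (c := c₀ * x) (r := 1) (by norm_num)).intervalIntegrable
    (μ := volume) (-Real.pi) Real.pi
  refine (intervalIntegral.norm_integral_le_of_norm_le (by linarith [Real.pi_pos])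
    (Eventually.of_forall fun t ht => ?_)
    ((hb1.const_mul (D * C3)).add (hb2.const_mul |d - d'|))).trans ?_
  · set m := min (c.cnt j₀) (c'.cnt j₀) with hm
    have hxm : x ≤ m := by
      rw [hm]; push_cast; exact le_min hxc hxc'
    have hsplit : ∀ k : J → ℕ, m ≤ k j₀ → ∏ j, kernelA_psi (ν j) s t ^ k j =
        kernelA_psi (ν j₀) s t ^ m *
          ∏ j, kernelA_psi (ν j) s t ^ (k j - if j = j₀ then m else 0) := by
      intro k hk
      have e1 : kernelA_psi (ν j₀) s t ^ m =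
          ∏ j, kernelA_psi (ν j) s t ^ (if j = j₀ then m else 0) := by
        rw [Finset.prod_eq_single j₀ (fun j _ hj => by simp [hj]) (by simp)]
        simp
      rw [e1, ← Finset.prod_mul_distrib]
      refine Finset.prod_congr rfl fun j _ => ?_
      rw [← pow_add]
      congr 1
      split_ifs with hj
      · subst hj; omega
      · simp
    have hE : ‖kernelA_psi (ν j₀) s t ^ m‖ ≤ Real.exp (-(c₀ * x * |t| ^ (3 / 2 : ℝ))) := by
      rw [norm_pow, kernelA_norm_psi]
      refine (pow_le_pow_left₀ (norm_nonneg _) (kernelA_T4_pow h4 (kernelA_abs_le ht)) m).trans ?_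
      rw [← Real.exp_nat_mul]
      refine Real.exp_le_exp.2 ?_
      have : 0 ≤ c₀ * |t| ^ (3 / 2 : ℝ) := by positivity
      nlinarith
    rw [hsplit c.cnt (min_le_left _ _), hsplit c'.cnt (min_le_right _ _)]
    set P := ∏ j, kernelA_psi (ν j) s t ^ (c.cnt j - if j = j₀ then m else 0) with hP
    set P' := ∏ j, kernelA_psi (ν j) s t ^ (c'.cnt j - if j = j₀ then m else 0) with hP'
    have hP1 : ‖P‖ ≤ 1 := by
      rw [hP, norm_prod]
      exact Finset.prod_le_one (fun _ _ => norm_nonneg _) fun j _ => by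
        rw [norm_pow]; exact pow_le_one₀ (norm_nonneg _) (hψ1 j t)
    have hPP : ‖P - P'‖ ≤ D * (C3 * |t| ^ (3 / 2 : ℝ)) := by
      refine (kernelA_prod_sub _ _ _
        (fun j => by rw [norm_pow]; exact pow_le_one₀ (norm_nonneg _) (hψ1 j t))
        (fun j => by rw [norm_pow]; exact pow_le_one₀ (norm_nonneg _) (hψ1 j t))).trans ?_
      rw [hD, Finset.sum_mul]
      refine Finset.sum_le_sum fun j _ => (kernelA_pow_sub (hψ1 j t) _ _).trans ?_
      refine mul_le_mul (le_of_eq ?_) (hψ j t) (norm_nonneg _) (abs_nonneg _)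
      have e1 : (if j = j₀ then m else 0) ≤ c.cnt j := by
        split_ifs with hj
        · subst hj; exact min_le_left _ _
        · exact Nat.zero_le _
      have e2 : (if j = j₀ then m else 0) ≤ c'.cnt j := by
        split_ifs with hj
        · subst hj; exact min_le_right _ _
        · exact Nat.zero_le _
      rw [Nat.cast_sub e1, Nat.cast_sub e2]
      congr 1; ring
    have hee : ‖Complex.exp (-(Complex.I * ((t * d : ℝ) : ℂ))) -
        Complex.exp (-(Complex.I * ((t * d' : ℝ) : ℂ)))‖ ≤ |d - d'| * |t| := by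
      have e1 : Complex.exp (-(Complex.I * ((t * d : ℝ) : ℂ))) -
          Complex.exp (-(Complex.I * ((t * d' : ℝ) : ℂ))) =
          Complex.exp (-(Complex.I * ((t * d' : ℝ) : ℂ))) *
            (Complex.exp (Complex.I * ((t * (d' - d) : ℝ) : ℂ)) - 1) := by
        rw [mul_sub (Complex.exp _), ← Complex.exp_add, mul_one]
        congr 2
        push_cast; ring
      rw [e1, norm_mul, kernelA_norm_exp_neg, one_mul]
      refine Real.norm_exp_I_mul_ofReal_sub_one_le.trans_eq ?_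
      rw [Real.norm_eq_abs, abs_mul, abs_sub_comm, mul_comm]
    have e3 : Complex.exp (-(Complex.I * ((t * d : ℝ) : ℂ))) * (kernelA_psi (ν j₀) s t ^ m * P) -
        Complex.exp (-(Complex.I * ((t * d' : ℝ) : ℂ))) * (kernelA_psi (ν j₀) s t ^ m * P') =
        kernelA_psi (ν j₀) s t ^ m * (Complex.exp (-(Complex.I * ((t * d' : ℝ) : ℂ))) * (P - P') +
          (Complex.exp (-(Complex.I * ((t * d : ℝ) : ℂ))) -
            Complex.exp (-(Complex.I * ((t * d' : ℝ) : ℂ)))) * P) := by ring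
    rw [e3, norm_mul]
    have e4 : ‖Complex.exp (-(Complex.I * ((t * d' : ℝ) : ℂ))) * (P - P') +
          (Complex.exp (-(Complex.I * ((t * d : ℝ) : ℂ))) -
            Complex.exp (-(Complex.I * ((t * d' : ℝ) : ℂ)))) * P‖ ≤
        D * (C3 * |t| ^ (3 / 2 : ℝ)) + |d - d'| * |t| := by
      refine (norm_add_le _ _).trans (add_le_add ?_ ?_)
      · rw [norm_mul, kernelA_norm_exp_neg, one_mul]; exact hPP
      · rw [norm_mul]
        exact (mul_le_of_le_one_right (norm_nonneg _) hP1).trans hee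
    refine (mul_le_mul hE e4 (norm_nonneg _) (Real.exp_pos _).le).trans_eq ?_
    rw [Real.rpow_one]
    ring
  · rw [intervalIntegral.integral_add (hb1.const_mul _) (hb2.const_mul _),
      intervalIntegral.integral_const_mul, intervalIntegral.integral_const_mul]
    have e1 := hI1 x hx0
    have e2 := hI2 x hx0
    rw [show (-(2 / 3 * ((3 / 2 : ℝ) + 1))) = -(5 / 3) by norm_num] at e1
    rw [show (-(2 / 3 * ((1 : ℝ) + 1))) = -(4 / 3) by norm_num] at e2
    have p1 : 0 ≤ x ^ (-(5 / 3) : ℝ) := Real.rpow_nonneg hx0.le _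
    have p2 : 0 ≤ x ^ (-(4 / 3) : ℝ) := Real.rpow_nonneg hx0.le _
    have e3 := mul_le_mul_of_nonneg_left e1 (mul_nonneg hD0 hC3)
    have e4 := mul_le_mul_of_nonneg_left e2 (abs_nonneg (d - d'))
    have p3 := mul_nonneg (mul_nonneg hD0 p1) hC2
    have p4 := mul_nonneg (mul_nonneg (abs_nonneg (d - d')) p2) (mul_nonneg hC3 hC1)
    nlinarith

theorem kernelA_cos (u β : ℝ) :
    1 - Real.cos u ≤ 2 * (1 - Real.cos (β + u)) + 2 * (1 - Real.cos β) := by
  have h1 : Real.cos u = Real.cos (β + u) * Real.cos β + Real.sin (β + u) * Real.sin β := by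
    rw [← Real.cos_sub]; congr 1; ring
  nlinarith [sq_nonneg (Real.cos (β + u) + Real.cos β - 2), sq_nonneg (Real.sin (β + u) + Real.sin β),
    Real.sin_sq_add_cos_sq (β + u), Real.sin_sq_add_cos_sq β]

/-- anticoncentration from a lower bound near zero and two atoms -/
theorem exists_T4 (μ : Measure Ω) [IsProbabilityMeasure μ] (s : Ω → ℕ) (h0 : μ {ω | s ω = 0} ≠ 0)
    (h1 : μ {ω | s ω = 1} ≠ 0) {c : ℝ} (hc : 0 < c)
    (h : ∀ᶠ t : ℝ in 𝓝 0, c * |t| ^ (3 / 2 : ℝ) ≤ 1 - (phi μ s t).re) :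
    ∃ c' : ℝ, 0 < c' ∧ T4 μ s c' := by
  set p0 := μ.real {ω | s ω = 0} with hp0
  set p1 := μ.real {ω | s ω = 1} with hp1
  have hp0' : 0 < p0 := ENNReal.toReal_pos h0 (measure_ne_top _ _)
  have hp1' : 0 < p1 := ENNReal.toReal_pos h1 (measure_ne_top _ _)
  have hcos : ∀ f : Ω → ℝ, Integrable (fun ω => Real.cos (f ω)) μ := fun f =>
    (integrable_const (1 : ℝ)).mono' (measurable_of_countable _).aestronglyMeasurable
      (Eventually.of_forall fun _ => Real.abs_cos_le_one _)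
  have hre : ∀ t β : ℝ, (Complex.exp (Complex.I * (β : ℂ)) * phi μ s t).re =
      ∫ ω, Real.cos (β + t * s ω) ∂μ := by
    intro t β
    rw [phi, ← integral_const_mul]
    have e1 : ∀ ω, Complex.exp (Complex.I * (β : ℂ)) * Complex.exp (Complex.I * ((t * s ω : ℝ) : ℂ))
        = Complex.exp (Complex.I * ((β + t * s ω : ℝ) : ℂ)) := by
      intro ω
      rw [← Complex.exp_add]; congr 1; push_cast; ring
    simp_rw [e1]
    have e2 := integral_re (kernelA_integrable_exp μ fun ω => β + t * s ω)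
    simp only [RCLike.re_to_complex] at e2
    rw [← e2]
    refine integral_congr_ae (Eventually.of_forall fun ω => ?_)
    simp only
    rw [mul_comm, Complex.exp_ofReal_mul_I_re]
  have key : ∀ t : ℝ, 1 - (phi μ s t).re ≤ (2 + 2 / p0) * (1 - ‖phi μ s t‖) ∧
      1 - Real.cos t ≤ (2 / p1 + 2 / p0) * (1 - ‖phi μ s t‖) := by
    intro t
    set β := -Complex.arg (phi μ s t) with hβ
    have e1 : ‖phi μ s t‖ = ∫ ω, Real.cos (β + t * s ω) ∂μ := by
      rw [← hre]
      have := Complex.norm_mul_exp_arg_mul_I (phi μ s t)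
      have e2 : Complex.exp (Complex.I * (β : ℂ)) * phi μ s t = (‖phi μ s t‖ : ℂ) := by
        conv_lhs => rw [← this]
        rw [mul_left_comm, ← Complex.exp_add, hβ]
        simp [mul_comm]
      rw [e2, Complex.ofReal_re]
    have e2 : (phi μ s t).re = ∫ ω, Real.cos (t * s ω) ∂μ := by
      have := hre t 0
      simpa using this
    have e3 : 1 - ‖phi μ s t‖ = ∫ ω, (1 - Real.cos (β + t * s ω)) ∂μ := by
      rw [integral_sub (integrable_const _) (hcos _), e1]; simp
    have hatom : ∀ k : ℕ, μ.real {ω | s ω = k} * (1 - Real.cos (β + t * k)) ≤ 1 - ‖phi μ s t‖ := by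
      intro k
      rw [e3]
      calc _ = ∫ ω in {ω | s ω = k}, (1 - Real.cos (β + t * k)) ∂μ := by
            rw [setIntegral_const, smul_eq_mul]
        _ = ∫ ω in {ω | s ω = k}, (1 - Real.cos (β + t * s ω)) ∂μ :=
            setIntegral_congr_fun (MeasurableSet.of_discrete) fun ω hω => by
              simp only [Set.mem_ofPred_eq] at hω; simp only [hω]
        _ ≤ _ := setIntegral_le_integral ((integrable_const _).sub (hcos _))
            (Eventually.of_forall fun ω => sub_nonneg.2 (Real.cos_le_one _))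
    have a0 := hatom 0
    have a1 := hatom 1
    simp only [Nat.cast_zero, mul_zero, add_zero, Nat.cast_one, mul_one] at a0 a1
    have b0 : 1 - Real.cos β ≤ (1 - ‖phi μ s t‖) / p0 := by
      rw [le_div_iff₀ hp0', mul_comm]; exact a0
    have b1 : 1 - Real.cos (β + t) ≤ (1 - ‖phi μ s t‖) / p1 := by
      rw [le_div_iff₀ hp1', mul_comm]; exact a1
    constructor
    · have e4 : 1 - (phi μ s t).re = ∫ ω, (1 - Real.cos (t * s ω)) ∂μ := by
        rw [integral_sub (integrable_const _) (hcos _), e2]; simp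
      have e5 : ∫ ω, (1 - Real.cos (t * s ω)) ∂μ ≤
          ∫ ω, (2 * (1 - Real.cos (β + t * s ω)) + 2 * (1 - Real.cos β)) ∂μ :=
        integral_mono ((integrable_const _).sub (hcos _))
          ((((integrable_const _).sub (hcos _)).const_mul _).add (integrable_const _))
          fun ω => kernelA_cos _ _
      have e6 : Integrable (fun ω => 2 * (1 - Real.cos (β + t * s ω))) μ :=
        ((integrable_const _).sub (hcos _)).const_mul _
      rw [integral_add e6 (integrable_const _), integral_const_mul, ← e3] at e5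
      simp only [integral_const, probReal_univ, smul_eq_mul, one_mul] at e5
      rw [e4]
      calc _ ≤ 2 * (1 - ‖phi μ s t‖) + 2 * ((1 - ‖phi μ s t‖) / p0) := by linarith
        _ = _ := by ring
    · calc _ ≤ 2 * ((1 - ‖phi μ s t‖) / p1) + 2 * ((1 - ‖phi μ s t‖) / p0) := by
            linarith [kernelA_cos t β]
        _ = _ := by ring
  obtain ⟨δ, hδ, hnear⟩ := Metric.eventually_nhds_iff.1 h
  set c1 := c / (2 + 2 / p0) with hc1
  set c2 := 2 / Real.pi ^ 2 * δ ^ (1 / 2 : ℝ) / (2 / p1 + 2 / p0) with hc2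
  have hpi := Real.pi_pos
  refine ⟨min c1 c2, lt_min (by positivity) (by positivity), fun t ht => ?_⟩
  have hp : 0 ≤ |t| ^ (3 / 2 : ℝ) := by positivity
  obtain ⟨k1, k2⟩ := key t
  rcases lt_or_ge |t| δ with hlt | hge
  · have e1 := hnear (y := t) (by simpa using hlt)
    have e2 : c1 * |t| ^ (3 / 2 : ℝ) ≤ 1 - ‖phi μ s t‖ := by
      rw [hc1, div_mul_eq_mul_div, div_le_iff₀ (by positivity)]
      linarith
    have e3 := mul_le_mul_of_nonneg_right (min_le_left c1 c2) hp
    linarith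
  · have e1 := Real.cos_le_one_sub_mul_cos_sq ht
    have e2 : δ ^ (1 / 2 : ℝ) * |t| ^ (3 / 2 : ℝ) ≤ t ^ 2 := by
      calc _ ≤ |t| ^ (1 / 2 : ℝ) * |t| ^ (3 / 2 : ℝ) :=
            mul_le_mul_of_nonneg_right (Real.rpow_le_rpow hδ.le hge (by norm_num)) hp
        _ = _ := by
            rw [← Real.rpow_add (hδ.trans_le hge), ← sq_abs, ← Real.rpow_two]; norm_num
    have e3 : c2 * |t| ^ (3 / 2 : ℝ) ≤ 1 - ‖phi μ s t‖ := by
      rw [hc2, div_mul_eq_mul_div, div_le_iff₀ (by positivity)]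
      have := mul_le_mul_of_nonneg_left e2 (show 0 ≤ 2 / Real.pi ^ 2 by positivity)
      linarith
    have e4 := mul_le_mul_of_nonneg_right (min_le_right c1 c2) hp
    linarith

end Pool.Agent.Lib.MP_77dff5_pr
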