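import Pool.Agent.Lib.MP_77dff5_pr.FamA
import Pool.Agent.Lib.MP_77dff5_pr.KernelA

/-! From weighted sums to measures; global estimates for families of cores. -/

set_option autoImplicit false
set_option linter.unusedSectionVars false

namespace Pool.Agent.Lib.MP_77dff5_pr

open MeasureTheory ProbabilityTheory Filter Topology
open scoped ENNReal NNReal

open Asymptotics in
/-- dominated convergence for little-o estimates -/
theorem famB_littleO_tsum {T α : Type} {l : Filter α} (e : T → α → ℂ) (g : α → ℝ) {bd : T → ℝ}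
    (hs : Summable bd) (h0 : ∀ u, 0 ≤ bd u) (he : ∀ u, e u =o[l] g)
    (hb : ∀ᶠ t in l, ∀ u, ‖e u t‖ ≤ bd u * ‖g t‖) : (fun t => ∑' u, e u t) =o[l] g := by
  have hb' : ∀ᶠ t in l, ∀ u, ‖‖e u t‖ / ‖g t‖‖ ≤ bd u := by
    filter_upwards [hb] with t ht u
    rw [Real.norm_of_nonneg (by positivity)]
    exact div_le_of_le_mul₀ (norm_nonneg _) (h0 u) (ht u)
  have h1 := tendsto_tsum_of_dominated_convergence (f := fun t u => ‖e u t‖ / ‖g t‖)
    (g := fun _ => 0) hs (fun u => (he u).norm_norm.tendsto_div_nhds_zero) hb'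
  rw [tsum_zero] at h1
  refine isLittleO_iff.mpr fun c hc => ?_
  filter_upwards [hb, h1.eventually (ge_mem_nhds hc)] with t ht hle
  have hsum : Summable fun u => ‖e u t‖ :=
    (hs.mul_right ‖g t‖).of_nonneg_of_le (fun _ => norm_nonneg _) ht
  refine (norm_tsum_le_tsum_norm hsum).trans ?_
  rcases (norm_nonneg (g t)).eq_or_lt with hg | hg
  · have : ∀ u, ‖e u t‖ = 0 := fun u =>
      le_antisymm (by simpa only [← hg, mul_zero] using ht u) (norm_nonneg _)
    simp only [this, tsum_zero, ← hg, mul_zero, le_refl]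
  · rwa [tsum_div_const, div_le_iff₀ hg] at hle

theorem famB_small : ∀ᶠ t : ℝ in 𝓝 0, |t| ≤ 1 := by
  have : Tendsto (fun t : ℝ => |t|) (𝓝 0) (𝓝 0) := by
    simpa using continuous_abs.tendsto (0 : ℝ)
  exact this.eventually (ge_mem_nhds one_pos)

open Asymptotics in
theorem famB_prod_littleO {ι α : Type} {l : Filter α} {g : α → ℝ} (a b ρ : ι → α → ℂ)
    (ha : ∀ i, Tendsto (a i) l (𝓝 1)) (hb : ∀ i, Tendsto (b i) l (𝓝 1))
    (hρ : ∀ i, ρ i =O[l] g) (hd : ∀ i, (fun t => b i t - a i t - ρ i t) =o[l] g) (S : Finset ι) :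
    (fun t => ∏ i ∈ S, b i t - ∏ i ∈ S, a i t - ∑ i ∈ S, ρ i t) =o[l] g := by
  classical
  induction S using Finset.induction_on with
  | empty => simp
  | insert j S hj ih =>
    have hA : Tendsto (fun t => ∏ i ∈ S, a i t) l (𝓝 1) := by
      simpa using tendsto_finsetProd S fun i _ => ha i
    have hA1 : (fun t => ∏ i ∈ S, a i t - 1) =o[l] (fun _ => (1 : ℝ)) :=
      (isLittleO_one_iff ℝ).mpr (by simpa using hA.sub_const 1)
    have hB1 : (fun t => b j t - 1) =o[l] (fun _ => (1 : ℝ)) :=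
      (isLittleO_one_iff ℝ).mpr (by simpa using (hb j).sub_const 1)
    have t1 := ((hb j).isBigO_one ℝ).mul_isLittleO ih
    have t2 := hB1.mul_isBigO (IsBigO.sum fun i (_ : i ∈ S) => hρ i)
    have t3 := (hA.isBigO_one ℝ).mul_isLittleO (hd j)
    have t4 := hA1.mul_isBigO (hρ j)
    simp only [one_mul, Finset.sum_apply] at t1 t2 t3 t4
    refine (((t1.add t2).add t3).add t4).congr_left fun t => ?_
    rw [Finset.prod_insert hj, Finset.prod_insert hj, Finset.sum_insert hj]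
    ring

theorem famB_prod_le {ι : Type} (a b : ι → ℝ) (h0 : ∀ i, 0 ≤ a i) (hab : ∀ i, a i ≤ b i)
    (h1 : ∀ i, b i ≤ 1) (S : Finset ι) :
    ∏ i ∈ S, b i ≤ ∏ i ∈ S, a i + ∑ i ∈ S, (b i - a i) := by
  classical
  induction S using Finset.induction_on with
  | empty => simp
  | insert j S hj ih =>
    rw [Finset.prod_insert hj, Finset.prod_insert hj, Finset.sum_insert hj]
    have hA : ∏ i ∈ S, a i ≤ 1 :=
      Finset.prod_le_one (fun i _ => h0 i) fun i _ => (hab i).trans (h1 i)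
    have hS : 0 ≤ ∑ i ∈ S, (b i - a i) := Finset.sum_nonneg fun i _ => sub_nonneg.mpr (hab i)
    have e1 := mul_le_mul_of_nonneg_left ih ((h0 j).trans (hab j))
    have e2 := mul_le_of_le_one_left hS (h1 j)
    have e3 := mul_le_of_le_one_right (sub_nonneg.mpr (hab j)) hA
    linarith

theorem famB_sq_le {t : ℝ} (ht : |t| ≤ 1) : t ^ 2 ≤ |t| ^ (3 / 2 : ℝ) := by
  rw [← sq_abs, ← Real.rpow_two]
  exact Real.rpow_le_rpow_of_exponent_ge' (abs_nonneg t) ht (by norm_num) (by norm_num)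

open Asymptotics in
theorem famB_sq_littleO : (fun t : ℝ => t ^ 2) =o[𝓝 0] fun t : ℝ => |t| ^ (3 / 2 : ℝ) := by
  have h1 : Tendsto (fun t : ℝ => |t| ^ (1 / 2 : ℝ)) (𝓝 0) (𝓝 0) := by
    have := (continuous_abs.rpow_const (p := (1 / 2 : ℝ))
      fun _ => Or.inr (by norm_num)).tendsto (0 : ℝ)
    simpa using this
  have h2 := ((isLittleO_one_iff ℝ).mpr h1).mul_isBigO
    (isBigO_refl (fun t : ℝ => |t| ^ (3 / 2 : ℝ)) (𝓝 0))
  simp only [one_mul] at h2
  refine h2.congr_left fun t => ?_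
  rw [← Real.rpow_add' (abs_nonneg t) (by norm_num), ← sq_abs, ← Real.rpow_two]
  norm_num

theorem famB_exp_le {x : ℝ} (hx : 0 ≤ x) :
    0 ≤ Real.exp (-x) - 1 + x ∧ Real.exp (-x) - 1 + x ≤ x :=
  ⟨by linarith [Real.add_one_le_exp (-x)],
    by linarith [Real.exp_le_one_iff.mpr (neg_nonpos.mpr hx)]⟩

variable {Ω J : Type} [Countable Ω] [MeasurableSpace Ω] [DiscreteMeasurableSpace Ω]

theorem famB_RF_map (μ : Measure Ω) [IsProbabilityMeasure μ] {s : Ω → ℕ} (z : Ω → ℝ)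
    (hs : Integrable (fun ω => (s ω : ℝ)) μ) (t : ℝ) :
    RF (slaw μ s z) t = phi μ s t - 1 - Complex.I * ((t * ∫ ω, (s ω : ℝ) ∂μ : ℝ) : ℂ) := by
  have hI1 := kernelA_integrable_exp μ fun ω => t * s ω
  have hI2 : Integrable (fun ω => Complex.I * ((t * s ω : ℝ) : ℂ)) μ :=
    ((hs.const_mul t).ofReal).const_mul _
  have hI3 : Integrable (fun ω => Complex.exp (Complex.I * ((t * s ω : ℝ) : ℂ)) - 1) μ :=
    hI1.sub (integrable_const _)
  rw [RF, slaw, integral_map (measurable_of_countable _).aemeasurable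
    (Continuous.aestronglyMeasurable (by fun_prop)), integral_sub hI3 hI2,
    integral_sub hI1 (integrable_const _), integral_const_mul, integral_complex_ofReal,
    integral_const_mul]
  simp [phi]

theorem famB_int_exp (μ : Measure Ω) [IsProbabilityMeasure μ] (s : Ω → ℕ) {l : ℝ} (hl : 0 ≤ l) :
    Integrable (fun ω => Real.exp (-(l * s ω))) μ ∧ ∫ ω, Real.exp (-(l * s ω)) ∂μ ≤ 1 := by
  have hb : ∀ ω, ‖Real.exp (-(l * s ω))‖ ≤ 1 := fun ω => by
    rw [Real.norm_of_nonneg (Real.exp_pos _).le, Real.exp_le_one_iff, neg_nonpos]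
    positivity
  refine ⟨Integrable.of_bound (measurable_of_countable _).aestronglyMeasurable 1
    (Eventually.of_forall hb), (le_abs_self _).trans ?_⟩
  simpa using norm_integral_le_of_norm_le_const (μ := μ) (Eventually.of_forall hb)

theorem famB_RL_int (μ : Measure Ω) [IsProbabilityMeasure μ] {s : Ω → ℕ}
    (hs : Integrable (fun ω => (s ω : ℝ)) μ) {l : ℝ} (hl : 0 ≤ l) :
    ∫ ω, (Real.exp (-(l * s ω)) - 1 + l * s ω) ∂μ =
      ∫ ω, Real.exp (-(l * s ω)) ∂μ - 1 + l * ∫ ω, (s ω : ℝ) ∂μ := by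
  have hI1 := (famB_int_exp μ s hl).1
  have hI3 : Integrable (fun ω => Real.exp (-(l * s ω)) - 1) μ := hI1.sub (integrable_const _)
  rw [integral_add hI3 (hs.const_mul l), integral_sub hI1 (integrable_const _),
    integral_const_mul]
  simp

theorem famB_RL_map (μ : Measure Ω) (s : Ω → ℕ) (z : Ω → ℝ) (l : ℝ) :
    RL (slaw μ s z) l = ∫ ω, (Real.exp (-(l * s ω)) - 1 + l * s ω) ∂μ := by
  rw [RL, slaw, integral_map (measurable_of_countable _).aemeasurable
    (Continuous.aestronglyMeasurable (by fun_prop))]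

theorem famB_phi_core {ν : J → Measure Ω} (hν : ∀ j, IsProbabilityMeasure (ν j)) (s : Ω → ℕ)
    (c : Core Ω J) (t : ℝ) : phi (c.P ν) (c.S s) t =
      Complex.exp (Complex.I * ((t * c.s0 : ℝ) : ℂ)) * ∏ i, phi (ν (c.cls i)) s t := by
  rw [← kernelA_char (fun i => ν (c.cls i)) s Finset.univ t, ← integral_const_mul]
  refine integral_congr_ae (Eventually.of_forall fun ω => ?_)
  simp only [Core.S]
  rw [← Complex.exp_add]
  congr 1
  push_cast
  ring

theorem famB_lap_core {ν : J → Measure Ω} (hν : ∀ j, IsProbabilityMeasure (ν j)) (s : Ω → ℕ)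
    (c : Core Ω J) (l : ℝ) : ∫ ω, Real.exp (-(l * c.S s ω)) ∂c.P ν =
      Real.exp (-(l * c.s0)) * ∏ i, ∫ ω, Real.exp (-(l * s ω)) ∂ν (c.cls i) := by
  rw [← integral_fintype_prod_eq_prod (fun (_ : c.I) ω => Real.exp (-(l * s ω))),
    ← integral_const_mul]
  refine integral_congr_ae (Eventually.of_forall fun ω => ?_)
  simp only [Core.S]
  rw [← Real.exp_sum, ← Real.exp_add]
  congr 1
  push_cast
  rw [mul_add, Finset.mul_sum, Finset.sum_neg_distrib]
  ring

/-- the error term of one core -/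
noncomputable def famB_err (ν : J → Measure Ω) (s : Ω → ℕ) (z : Ω → ℝ) (c : Core Ω J) (t : ℝ) :
    ℂ :=
  Complex.exp (Complex.I * ((t * c.s0 : ℝ) : ℂ)) * (∏ i, phi (ν (c.cls i)) s t -
    ∏ i, Complex.exp (Complex.I * ((t * ∫ ω, (s ω : ℝ) ∂ν (c.cls i) : ℝ) : ℂ))) -
    ∑ i, RF (slaw (ν (c.cls i)) s z) t

theorem famB_err_eq {ν : J → Measure Ω} {s : Ω → ℕ} {z : Ω → ℝ} (h : Slots1 ν s z)
    (c : Core Ω J) (t : ℝ) : famB_err ν s z c t = RF (c.law ν s z) t -
      ∑ i, RF (slaw (ν (c.cls i)) s z) t -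
      (Complex.exp (Complex.I * ((t * c.mean ν s : ℝ) : ℂ)) - 1 -
        Complex.I * ((t * c.mean ν s : ℝ) : ℂ)) := by
  have := Core.isProb h.prob c
  have e1 := famB_RF_map (c.P ν) (c.Z z) (Core.integral_S h c).1 t
  rw [(Core.integral_S h c).2, famB_phi_core h.prob] at e1
  have e2 : Complex.exp (Complex.I * ((t * c.mean ν s : ℝ) : ℂ)) =
      Complex.exp (Complex.I * ((t * c.s0 : ℝ) : ℂ)) *
        ∏ i, Complex.exp (Complex.I * ((t * ∫ ω, (s ω : ℝ) ∂ν (c.cls i) : ℝ) : ℂ)) := by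
    rw [← Complex.exp_sum, ← Complex.exp_add, Core.mean]
    congr 1
    push_cast
    rw [mul_add, mul_add, Finset.mul_sum, Finset.mul_sum]
  have e3 : RF (c.law ν s z) t = RF (slaw (c.P ν) (c.S s) (c.Z z)) t := rfl
  rw [famB_err, e3, e1, e2]
  ring

theorem famB_rho {ν : J → Measure Ω} {s : Ω → ℕ} {z : Ω → ℝ} (h : Slots1 ν s z) {A : ℝ}
    (h1 : T1 ν s A) (j : J) {t : ℝ} (ht : |t| ≤ 1) :
    ‖RF (slaw (ν j) s z) t‖ ≤ 2 * |A| * |t| ^ (3 / 2 : ℝ) := by
  have := h.prob j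
  rw [famB_RF_map _ z (h.int_s j)]
  refine (norm_phi_sub_le h h1 j ht).trans ?_
  gcongr
  exact le_abs_self A

theorem famB_diff {ν : J → Measure Ω} {s : Ω → ℕ} {z : Ω → ℝ} (h : Slots1 ν s z) (j : J)
    (t : ℝ) : ‖phi (ν j) s t - Complex.exp (Complex.I * ((t * ∫ ω, (s ω : ℝ) ∂ν j : ℝ) : ℂ)) -
      RF (slaw (ν j) s z) t‖ ≤ 2 * (∫ ω, (s ω : ℝ) ∂ν j) ^ 2 * t ^ 2 := by
  have := h.prob j
  rw [famB_RF_map _ z (h.int_s j), ← norm_neg]
  have h2 := (kernelA_taylor (t * ∫ ω, (s ω : ℝ) ∂ν j)).trans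
    (mul_le_mul_of_nonneg_left (min_le_left _ _) (by norm_num))
  refine le_trans (le_of_eq ?_) (h2.trans (le_of_eq (by ring)))
  congr 1
  ring

open Asymptotics in
theorem famB_err_littleO {ν : J → Measure Ω} {s : Ω → ℕ} {z : Ω → ℝ} (h : Slots1 ν s z) {A : ℝ}
    (h1 : T1 ν s A) (c : Core Ω J) :
    famB_err ν s z c =o[𝓝 0] fun t : ℝ => |t| ^ (3 / 2 : ℝ) := by
  have hsm := famB_small
  have hexp : ∀ m : ℝ, Tendsto (fun t : ℝ => Complex.exp (Complex.I * ((t * m : ℝ) : ℂ)))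
      (𝓝 0) (𝓝 1) := fun m => by
    have : Continuous fun t : ℝ => Complex.exp (Complex.I * ((t * m : ℝ) : ℂ)) := by fun_prop
    simpa using this.tendsto 0
  have hρ : ∀ j, RF (slaw (ν j) s z) =O[𝓝 0] fun t : ℝ => |t| ^ (3 / 2 : ℝ) := fun j =>
    IsBigO.of_bound (2 * |A|) (hsm.mono fun t ht => by
      rw [Real.norm_of_nonneg (by positivity)]
      exact famB_rho h h1 j ht)
  have hP := famB_prod_littleO (l := 𝓝 0) (g := fun t : ℝ => |t| ^ (3 / 2 : ℝ))
    (fun (i : c.I) (t : ℝ) =>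
      Complex.exp (Complex.I * ((t * ∫ ω, (s ω : ℝ) ∂ν (c.cls i) : ℝ) : ℂ)))
    (fun i => phi (ν (c.cls i)) s) (fun i => RF (slaw (ν (c.cls i)) s z)) (fun i => hexp _)
    (fun i => by
      have := h.prob (c.cls i)
      have := (kernelA_cont_phi (ν (c.cls i)) s).tendsto 0
      simpa [phi] using this)
    (fun i => hρ _)
    (fun i => (IsBigO.of_bound (2 * (∫ ω, (s ω : ℝ) ∂ν (c.cls i)) ^ 2)
      (Eventually.of_forall fun t => by
        rw [Real.norm_of_nonneg (sq_nonneg t)]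
        exact famB_diff h _ t)).trans_isLittleO famB_sq_littleO) Finset.univ
  have hE : (fun t : ℝ => Complex.exp (Complex.I * ((t * c.s0 : ℝ) : ℂ)) - 1) =o[𝓝 0]
      (fun _ => (1 : ℝ)) := (isLittleO_one_iff ℝ).mpr (by simpa using (hexp c.s0).sub_const 1)
  have t1 := ((hexp c.s0).isBigO_one ℝ).mul_isLittleO hP
  have t2 := hE.mul_isBigO (IsBigO.sum fun i (_ : i ∈ Finset.univ) => hρ (c.cls i))
  simp only [one_mul, Finset.sum_apply] at t1 t2
  refine (t1.add t2).congr_left fun t => ?_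
  rw [famB_err]
  ring

variable [Fintype J] {ν : J → Measure Ω} {s : Ω → ℕ} {z : Ω → ℝ} {F : Fam Ω J} {Δ : ℕ} {B : ℝ}

theorem famB_err_le (h : Slots1 ν s z) {A : ℝ} (h1 : T1 ν s A) : ∃ C : ℝ, 0 ≤ C ∧
    ∀ (c : Core Ω J) (t : ℝ), |t| ≤ 1 →
      ‖famB_err ν s z c t‖ ≤ C * (c.k + 1) * |t| ^ (3 / 2 : ℝ) := by
  set M := ∑ j, (∫ ω, (s ω : ℝ) ∂ν j) ^ 2 with hM
  have hM0 : 0 ≤ M := Finset.sum_nonneg fun _ _ => sq_nonneg _
  refine ⟨4 * |A| + 2 * M, by positivity, fun c t ht => ?_⟩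
  have hg : 0 ≤ |t| ^ (3 / 2 : ℝ) := by positivity
  have a1 : ∀ j, ‖phi (ν j) s t -
      Complex.exp (Complex.I * ((t * ∫ ω, (s ω : ℝ) ∂ν j : ℝ) : ℂ))‖ ≤
        (2 * |A| + 2 * M) * |t| ^ (3 / 2 : ℝ) := by
    intro j
    have b1 := famB_rho h h1 j ht
    have b2 := famB_diff h j t
    have b3 : (∫ ω, (s ω : ℝ) ∂ν j) ^ 2 ≤ M :=
      Finset.single_le_sum (f := fun j => (∫ ω, (s ω : ℝ) ∂ν j) ^ 2)
        (fun _ _ => sq_nonneg _) (Finset.mem_univ j)
    have b4 := mul_le_mul b3 (famB_sq_le ht) (sq_nonneg _) hM0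
    have b5 := norm_add_le (phi (ν j) s t -
      Complex.exp (Complex.I * ((t * ∫ ω, (s ω : ℝ) ∂ν j : ℝ) : ℂ)) - RF (slaw (ν j) s z) t)
      (RF (slaw (ν j) s z) t)
    rw [sub_add_cancel] at b5
    linarith
  have a2 := (kernelA_prod_sub Finset.univ (fun i => phi (ν (c.cls i)) s t)
    (fun i => Complex.exp (Complex.I * ((t * ∫ ω, (s ω : ℝ) ∂ν (c.cls i) : ℝ) : ℂ)))
    (fun i => by
      have := h.prob (c.cls i)
      exact kernelA_norm_phi_le _ s t) fun i => (kernelA_norm_exp _).le).trans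
    (Finset.sum_le_card_nsmul _ _ _ fun i _ => a1 (c.cls i))
  have a3 := (norm_sum_le Finset.univ fun i => RF (slaw (ν (c.cls i)) s z) t).trans
    (Finset.sum_le_card_nsmul _ _ _ fun i _ => famB_rho h h1 (c.cls i) ht)
  rw [Finset.card_univ, nsmul_eq_mul] at a2 a3
  rw [famB_err]
  refine (norm_sub_le _ _).trans ?_
  rw [norm_mul, kernelA_norm_exp, one_mul, Core.k]
  have a4 : 0 ≤ (4 * |A| + 2 * M) * |t| ^ (3 / 2 : ℝ) := by positivity
  linarith

theorem famB_hasSum_RF (h : Slots1 ν s z) (hF : F.Good Δ B) (t : ℝ) :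
    HasSum (fun u => ((F.w u : ℝ) : ℂ) * RF ((F.core u).law ν s z) t) (RF (F.law ν s z) t) := by
  have hfin := Fam.isFinite_law (s := s) (z := z) h.prob hF
  have hint : Integrable (fun p : ℕ × ℝ => Complex.exp (Complex.I * ((t * p.1 : ℝ) : ℂ)) - 1 -
      Complex.I * ((t * p.1 : ℝ) : ℂ)) (F.law ν s z) := by
    refine Integrable.sub (Integrable.sub ?_ (integrable_const _))
      ((((Fam.integral_law h hF).1.const_mul t).ofReal).const_mul _)
    exact Integrable.of_bound (Continuous.aestronglyMeasurable (by fun_prop)) 1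
      (Eventually.of_forall fun p => (kernelA_norm_exp _).le)
  have h1 := hasSum_integral_measure hint
  simp only [integral_smul_measure, ENNReal.coe_toReal, Complex.real_smul] at h1
  exact h1

omit [Countable Ω] [MeasurableSpace Ω] [DiscreteMeasurableSpace Ω] in
theorem famB_hasSum_lin (hF : F.Good Δ B) (m : J → ℂ) :
    HasSum (fun u => ((F.w u : ℝ) : ℂ) * ∑ i, m ((F.core u).cls i))
      (∑ j, (F.acoef j : ℂ) * m j) := by
  classical
  have h1 : ∀ u, ∑ i, m ((F.core u).cls i) = ∑ j, (((F.core u).cnt j : ℝ) : ℂ) * m j := by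
    intro u
    simp only [famA_cnt, Complex.ofReal_sum, Finset.sum_mul]
    rw [Finset.sum_comm]
    simp [apply_ite ((↑) : ℝ → ℂ)]
  have h2 : ∀ j, HasSum (fun u => (((F.w u : ℝ) * (F.core u).cnt j : ℝ) : ℂ) * m j)
      ((F.acoef j : ℂ) * m j) := fun j =>
    (Complex.hasSum_ofReal.mpr
      (famA_summable hF fun u => famA_cnt_le _ j).hasSum).mul_right _
  have h3 := hasSum_sum fun j (_ : j ∈ Finset.univ) => h2 j
  simp only [h1, Finset.mul_sum, ← mul_assoc, ← Complex.ofReal_mul]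
  exact h3

theorem Fam.RF_law (h : Slots1 ν s z) {A : ℝ} (h1 : T1 ν s A) (hF : F.Good Δ B) :
    (fun t : ℝ => RF (F.law ν s z) t - ∑ j, (F.acoef j : ℂ) * RF (slaw (ν j) s z) t -
      ∑' u, ((F.w u : ℝ) : ℂ) * (Complex.exp (Complex.I * ((t * (F.core u).mean ν s : ℝ) : ℂ)) -
        1 - Complex.I * ((t * (F.core u).mean ν s : ℝ) : ℂ)))
      =o[𝓝 0] fun t : ℝ => |t| ^ (3 / 2 : ℝ) := by
  obtain ⟨C, hC, hle⟩ := famB_err_le h h1
  have hsm := famB_small
  have hbd : ∀ t : ℝ, |t| ≤ 1 → ∀ u, ‖((F.w u : ℝ) : ℂ) * famB_err ν s z (F.core u) t‖ ≤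
      C * ((F.w u : ℝ) * ((F.core u).k + 1)) * ‖|t| ^ (3 / 2 : ℝ)‖ := by
    intro t ht u
    rw [norm_mul, Complex.norm_real, Real.norm_of_nonneg (F.w u).coe_nonneg,
      Real.norm_of_nonneg (by positivity)]
    exact (mul_le_mul_of_nonneg_left (hle _ t ht) (F.w u).coe_nonneg).trans (le_of_eq (by ring))
  have key := famB_littleO_tsum (fun u t => ((F.w u : ℝ) : ℂ) * famB_err ν s z (F.core u) t)
    (fun t : ℝ => |t| ^ (3 / 2 : ℝ)) (hF.sum1.mul_left C) (fun u => by positivity)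
    (fun u => (famB_err_littleO h h1 (F.core u)).const_mul_left _) (hsm.mono hbd)
  refine key.congr' (hsm.mono fun t ht => ?_) EventuallyEq.rfl
  have s0 : Summable fun u => ((F.w u : ℝ) : ℂ) * famB_err ν s z (F.core u) t :=
    Summable.of_norm_bounded ((hF.sum1.mul_left C).mul_right _) (hbd t ht)
  have s1 := ((famB_hasSum_RF h hF t).sub
    (famB_hasSum_lin hF fun j => RF (slaw (ν j) s z) t)).sub s0.hasSum
  have s2 : ∀ u, ((F.w u : ℝ) : ℂ) *
      (Complex.exp (Complex.I * ((t * (F.core u).mean ν s : ℝ) : ℂ)) - 1 -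
        Complex.I * ((t * (F.core u).mean ν s : ℝ) : ℂ)) =
      ((F.w u : ℝ) : ℂ) * RF ((F.core u).law ν s z) t -
        ((F.w u : ℝ) : ℂ) * ∑ i, RF (slaw (ν ((F.core u).cls i)) s z) t -
        ((F.w u : ℝ) : ℂ) * famB_err ν s z (F.core u) t := fun u => by
    rw [famB_err_eq h]
    ring
  simp only [s2, s1.tsum_eq]
  ring

omit [Fintype J] in
theorem famB_RL_core (h : Slots1 ν s z) (c : Core Ω J) {l : ℝ} (hl : 0 ≤ l)
    (hl1 : ∀ j, l * ∫ ω, (s ω : ℝ) ∂ν j ≤ 1) :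
    ∫ ω, (Real.exp (-(l * c.S s ω)) - 1 + l * c.S s ω) ∂c.P ν ≤
      Real.exp (-(l * c.mean ν s)) - 1 + l * c.mean ν s + ∑ i, RL (slaw (ν (c.cls i)) s z) l := by
  have := Core.isProb h.prob c
  have hp := h.prob
  have hR : ∀ j, RL (slaw (ν j) s z) l =
      ∫ ω, Real.exp (-(l * s ω)) ∂ν j - (1 - l * ∫ ω, (s ω : ℝ) ∂ν j) := fun j => by
    rw [famB_RL_map, famB_RL_int _ (h.int_s j) hl]
    ring
  have hR0 : ∀ j, 0 ≤ RL (slaw (ν j) s z) l := fun j => by
    rw [famB_RL_map]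
    exact integral_nonneg fun ω => (famB_exp_le (by positivity)).1
  have a1 := famB_prod_le (fun i => 1 - l * ∫ ω, (s ω : ℝ) ∂ν (c.cls i))
    (fun i => ∫ ω, Real.exp (-(l * s ω)) ∂ν (c.cls i)) (fun i => sub_nonneg.mpr (hl1 _))
    (fun i => sub_nonneg.mp (hR _ ▸ hR0 (c.cls i))) (fun i => (famB_int_exp _ s hl).2) Finset.univ
  have a2 : ∏ i, (1 - l * ∫ ω, (s ω : ℝ) ∂ν (c.cls i)) ≤
      ∏ i, Real.exp (-(l * ∫ ω, (s ω : ℝ) ∂ν (c.cls i))) :=
    Finset.prod_le_prod (fun i _ => sub_nonneg.mpr (hl1 _)) fun i _ => Real.one_sub_le_exp_neg _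
  have a3 : Real.exp (-(l * c.mean ν s)) = Real.exp (-(l * c.s0)) *
      ∏ i, Real.exp (-(l * ∫ ω, (s ω : ℝ) ∂ν (c.cls i))) := by
    rw [← Real.exp_sum, ← Real.exp_add, Core.mean, mul_add, Finset.mul_sum,
      Finset.sum_neg_distrib, neg_add]
  have a4 : Real.exp (-(l * c.s0)) ≤ 1 := by
    rw [Real.exp_le_one_iff, neg_nonpos]
    positivity
  have a5 := mul_le_of_le_one_left
    (Finset.sum_nonneg fun i (_ : i ∈ Finset.univ) => hR0 (c.cls i)) a4
  simp only [← hR] at a1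
  have a6 := mul_le_mul_of_nonneg_left (a1.trans (add_le_add_left a2 _))
    (Real.exp_pos (-(l * c.s0))).le
  rw [famB_RL_int _ (Core.integral_S h c).1 hl, (Core.integral_S h c).2, famB_lap_core hp, a3]
  linarith

theorem Fam.RL_law (h : Slots1 ν s z) (hF : F.Good Δ B) :
    ∀ᶠ l : ℝ in 𝓝[>] 0, RL (F.law ν s z) l ≤ ∑ j, F.acoef j * RL (slaw (ν j) s z) l +
      ∑' t, (F.w t : ℝ) * (Real.exp (-(l * (F.core t).mean ν s)) - 1 + l * (F.core t).mean ν s) := by
  obtain ⟨C, hC⟩ := Core.abs_L_le h Δ B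
  have e1 : ∀ᶠ l : ℝ in 𝓝[>] 0, ∀ j, l * ∫ ω, (s ω : ℝ) ∂ν j ≤ 1 := by
    refine eventually_all.mpr fun j => nhdsWithin_le_nhds ?_
    have : Continuous fun l : ℝ => l * ∫ ω, (s ω : ℝ) ∂ν j := by fun_prop
    exact (this.tendsto 0).eventually (ge_mem_nhds (by simp))
  filter_upwards [e1, self_mem_nhdsWithin] with l hl1 hl
  have hl0 : 0 ≤ l := le_of_lt hl
  have hm : ∀ t, l * (F.core t).mean ν s ≤ l * C * ((F.core t).k + 1) := fun t => by
    rw [mul_assoc]
    exact mul_le_mul_of_nonneg_left (hC _ (hF.good t)).2 hl0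
  have hm0 : ∀ t, 0 ≤ l * (F.core t).mean ν s := fun t => by
    rw [← (Core.integral_S h _).2]
    exact mul_nonneg hl0 (integral_nonneg fun ω => Nat.cast_nonneg _)
  have hi : ∀ t, Integrable (fun ω => Real.exp (-(l * (F.core t).S s ω)) - 1 +
      l * (F.core t).S s ω) ((F.core t).P ν) := fun t => by
    have := Core.isProb h.prob (F.core t)
    exact ((famB_int_exp _ _ hl0).1.sub (integrable_const _)).add
      ((Core.integral_S h _).1.const_mul l)
  have hb0 : ∀ t, ∫ ω, (Real.exp (-(l * (F.core t).S s ω)) - 1 + l * (F.core t).S s ω)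
      ∂(F.core t).P ν ≤ l * C * ((F.core t).k + 1) := fun t => by
    refine le_trans ?_ (hm t)
    rw [← (Core.integral_S h _).2, ← integral_const_mul]
    exact integral_mono (hi t) ((Core.integral_S h _).1.const_mul l)
      fun ω => (famB_exp_le (by positivity)).2
  have hI := (famA_integral (ν := ν) (s := s) (z := z) hF
    (f := fun p => Real.exp (-(l * p.1)) - 1 + l * p.1) (by fun_prop) (C := l * C) hi
    (fun t => by
      refine le_trans (le_of_eq ?_) (hb0 t)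
      exact integral_congr_ae (Eventually.of_forall fun ω =>
        abs_of_nonneg (famB_exp_le (by positivity)).1))).2
  have ha : ∀ t, |Real.exp (-(l * (F.core t).mean ν s)) - 1 + l * (F.core t).mean ν s| ≤
      l * C * ((F.core t).k + 1) := fun t => by
    rw [abs_of_nonneg (famB_exp_le (hm0 t)).1]
    exact (famB_exp_le (hm0 t)).2.trans (hm t)
  rw [add_comm, ← famA_tsum_lin hF ha fun j => RL (slaw (ν j) s z) l, RL, hI]
  refine Summable.tsum_le_tsum (fun t => mul_le_mul_of_nonneg_left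
    (famB_RL_core h _ hl0 hl1) (F.w t).coe_nonneg) (famA_summable hF (C := l * C) fun t => ?_) ?_
  · rw [abs_of_nonneg (integral_nonneg fun ω => (famB_exp_le (by positivity)).1)]
    exact hb0 t
  · simp only [mul_add (F.w _ : ℝ) (Real.exp _ - 1 + _)]
    refine (famA_summable hF ha).add ?_
    have := (famB_hasSum_lin hF fun j => (RL (slaw (ν j) s z) l : ℂ)).summable
    simp only [← Complex.ofReal_sum, ← Complex.ofReal_mul] at this
    exact Complex.summable_ofReal.mp this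

end Pool.Agent.Lib.MP_77dff5_pr
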