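import Pool.Agent.Lib.MP_77dff5_pr.FamA

/-! From weighted sums to measures; global estimates for families of cores. -/

set_option autoImplicit false

namespace Pool.Agent.Lib.MP_77dff5_pr

open MeasureTheory ProbabilityTheory Filter Topology
open scoped ENNReal NNReal

variable {Ω J : Type} [Countable Ω] [MeasurableSpace Ω] [DiscreteMeasurableSpace Ω]

variable [Fintype J] {ν : J → Measure Ω} {s : Ω → ℕ} {z : Ω → ℝ} {F : Fam Ω J} {Δ : ℕ} {B : ℝ}

lemma famC_exp2 {a b : ℝ} (ha : 0 ≤ a) (hb : 0 ≤ b) :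
    1 - Real.exp (-(a + b)) ≤ (1 - Real.exp (-a)) + (1 - Real.exp (-b)) := by
  have h1 : Real.exp (-a) ≤ 1 := Real.exp_le_one_iff.2 (by linarith)
  have h2 : Real.exp (-b) ≤ 1 := Real.exp_le_one_iff.2 (by linarith)
  rw [neg_add, Real.exp_add]
  nlinarith [mul_nonneg (sub_nonneg.2 h1) (sub_nonneg.2 h2)]

lemma famC_exp_sum {I : Type} (K : Finset I) (x : I → ℝ) (hx : ∀ i, 0 ≤ x i) :
    1 - Real.exp (-(∑ i ∈ K, x i)) ≤ ∑ i ∈ K, (1 - Real.exp (-x i)) := by
  classical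
  induction K using Finset.induction_on with
  | empty => simp
  | insert i K hi ih =>
    rw [Finset.sum_insert hi, Finset.sum_insert hi]
    have := famC_exp2 (hx i) (Finset.sum_nonneg fun j (_ : j ∈ K) => hx j)
    linarith

lemma famC_u_nonneg {x : ℝ} (hx : 0 ≤ x) : 0 ≤ 1 - Real.exp (-x) :=
  sub_nonneg.2 (Real.exp_le_one_iff.2 (by linarith))

lemma famC_u_le_one (x : ℝ) : 1 - Real.exp (-x) ≤ 1 := by linarith [Real.exp_pos (-x)]

lemma famC_u_le (x : ℝ) : 1 - Real.exp (-x) ≤ x := by linarith [Real.add_one_le_exp (-x)]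

lemma famC_sq_add {η : ℝ} (hη : 0 < η) (a b : ℝ) :
    (a + b) ^ 2 ≤ (1 + η) * a ^ 2 + (1 + η⁻¹) * b ^ 2 := by
  have h : 0 ≤ η⁻¹ * (η * a - b) ^ 2 := by positivity
  have e : η⁻¹ * (η * a - b) ^ 2 = η * a ^ 2 - 2 * a * b + η⁻¹ * b ^ 2 := by
    field_simp
    ring
  nlinarith

lemma famC_congr {T : Type} {f g : T → ℝ} {a : ℝ} (h : HasSum f a) (e : ∀ t, g t = f t) :
    HasSum g a := by
  rw [show g = f from funext e]
  exact h

lemma famC_int_comp {α β : Type} [MeasurableSpace α] [MeasurableSpace β]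
    [DiscreteMeasurableSpace β] {μ : Measure α} {μ' : Measure β} {φ : α → β}
    (h : MeasurePreserving φ μ μ') (f : β → ℝ) : ∫ x, f (φ x) ∂μ = ∫ y, f y ∂μ' := by
  rw [← h.map_eq, integral_map h.aemeasurable Measurable.of_discrete.aestronglyMeasurable]

lemma famC_lint_le {α : Type} [MeasurableSpace α] {μ : Measure α} {f g : α → ℝ}
    (hg : Integrable g μ) (hg0 : ∀ x, 0 ≤ g x) (h : ∀ x, f x ≤ g x) :
    ∫⁻ x, ENNReal.ofReal (f x) ∂μ ≤ ENNReal.ofReal (∫ x, g x ∂μ) := by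
  rw [ofReal_integral_eq_lintegral_ofReal hg (Eventually.of_forall hg0)]
  exact lintegral_mono fun x => ENNReal.ofReal_le_ofReal (h x)

omit [Countable Ω] [MeasurableSpace Ω] [DiscreteMeasurableSpace Ω] [Fintype J] in
lemma Core.Good.famC_B {c : Core Ω J} (hc : c.Good Δ B) : 0 ≤ B := by
  have h := (abs_nonneg _).trans hc.z0_le
  exact nonneg_of_mul_nonneg_left h (by positivity)

omit [Countable Ω] [MeasurableSpace Ω] [DiscreteMeasurableSpace Ω] [Fintype J] in
lemma Core.Good.famC_g {c : Core Ω J} (hc : c.Good Δ B) (ω : c.I → Ω) (i : c.I) (η : Ω) :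
    |∑ v, c.g v ω - ∑ v, c.g v (Function.update ω i η)| ≤ 2 * Δ * B := by
  classical
  have hB := hc.famC_B
  rw [← Finset.sum_sub_distrib,
    ← Finset.sum_filter_of_ne (p := fun v => i ∈ c.dep v) (fun v _ hv => by
      by_contra h
      refine hv (sub_eq_zero.2 (c.g_dep v _ _ fun j hj => ?_))
      rw [Function.update_of_ne (fun h' : j = i => h (h' ▸ hj))])]
  refine (Finset.abs_sum_le_sum_abs _ _).trans ?_
  have h1 : ∀ v ∈ Finset.univ.filter (fun v => i ∈ c.dep v),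
      |c.g v ω - c.g v (Function.update ω i η)| ≤ 2 * B := fun v _ => by
    have := abs_sub (c.g v ω) (c.g v (Function.update ω i η))
    linarith [hc.bd v ω, hc.bd v (Function.update ω i η)]
  refine (Finset.sum_le_card_nsmul _ _ _ h1).trans ?_
  have h2 : (Finset.univ.filter (fun v => i ∈ c.dep v)).card ≤ Δ := by
    have := hc.dep_mult i
    rwa [Nat.card_eq_fintype_card, Fintype.card_subtype] at this
  have h3 : ((Finset.univ.filter (fun v => i ∈ c.dep v)).card : ℝ) ≤ Δ := by exact_mod_cast h2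
  rw [nsmul_eq_mul]
  nlinarith

omit [Countable Ω] [MeasurableSpace Ω] [DiscreteMeasurableSpace Ω] [Fintype J] in
lemma Core.Good.famC_upd {c : Core Ω J} (hc : c.Good Δ B) (z : Ω → ℝ) (ω : c.I → Ω) (i : c.I)
    (η : Ω) : (c.Z z (Function.update ω i η) - z η) ^ 2
      ≤ 3 * (c.Z z ω ^ 2 + z (ω i) ^ 2 + (2 * Δ * B) ^ 2) := by
  have h1 : ∑ j, z (Function.update ω i η j) = ∑ j, z (ω j) - z (ω i) + z η := by
    rw [← Finset.add_sum_erase _ _ (Finset.mem_univ i),
      ← Finset.add_sum_erase _ (fun j => z (ω j)) (Finset.mem_univ i), Function.update_self,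
      Finset.sum_congr rfl fun j hj => by rw [Function.update_of_ne (Finset.ne_of_mem_erase hj)]]
    ring
  have h2 := hc.famC_g ω i η
  have h3 : (∑ v, c.g v ω - ∑ v, c.g v (Function.update ω i η)) ^ 2 ≤ (2 * Δ * B) ^ 2 :=
    sq_le_sq' (abs_le.1 h2).1 (abs_le.1 h2).2
  have e : c.Z z (Function.update ω i η) - z η = c.Z z ω - z (ω i)
      - (∑ v, c.g v ω - ∑ v, c.g v (Function.update ω i η)) := by
    unfold Core.Z
    rw [h1]
    ring
  rw [e]
  generalize (∑ v, c.g v ω - ∑ v, c.g v (Function.update ω i η)) = d at h3 ⊢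
  nlinarith [sq_nonneg (c.Z z ω + z (ω i)), sq_nonneg (c.Z z ω + d), sq_nonneg (z (ω i) - d)]

omit [Countable Ω] [MeasurableSpace Ω] [DiscreteMeasurableSpace Ω] in
lemma Core.famC_sum_cls (c : Core Ω J) (r : J → ℝ) :
    ∑ i, r (c.cls i) = ∑ j, (c.cnt j : ℝ) * r j := by
  classical
  rw [← Finset.sum_fiberwise Finset.univ c.cls]
  refine Finset.sum_congr rfl fun j _ => ?_
  rw [Finset.sum_congr rfl fun i hi => by rw [(Finset.mem_filter.1 hi).2], Finset.sum_const,
    nsmul_eq_mul, Core.cnt, Nat.card_eq_fintype_card, Fintype.card_subtype]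

omit [Countable Ω] [MeasurableSpace Ω] [DiscreteMeasurableSpace Ω] in
lemma Fam.Good.famC_hasSum (hF : F.Good Δ B) (r : J → ℝ) :
    HasSum (fun t => (F.w t : ℝ) * ∑ i, r ((F.core t).cls i)) (∑ j, F.acoef j * r j) := by
  have h1 : ∀ j, Summable fun t => (F.w t : ℝ) * (F.core t).cnt j := by
    intro j
    refine Summable.of_nonneg_of_le (fun t => by positivity) (fun t => ?_) hF.sum1
    have h2 : (F.core t).cnt j ≤ (F.core t).k := by
      unfold Core.cnt Core.k
      rw [← Nat.card_eq_fintype_card]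
      exact Finite.card_subtype_le _
    have h3 : ((F.core t).cnt j : ℝ) ≤ (F.core t).k := by exact_mod_cast h2
    gcongr
    linarith
  have h2 := hasSum_sum (s := Finset.univ) fun j _ => (h1 j).hasSum.mul_right (r j)
  refine famC_congr h2 (fun t => ?_)
  rw [Core.famC_sum_cls, Finset.mul_sum]
  exact Finset.sum_congr rfl fun j _ => by ring

omit [Fintype J] in
lemma Fam.famC_lint (ψ : ℕ × ℝ → ℝ≥0∞) (hψ : Measurable ψ) :
    ∫⁻ p, ψ p ∂F.law ν s z =
      ∑' t, F.w t * ∫⁻ ω, ψ ((F.core t).S s ω, (F.core t).Z z ω) ∂(F.core t).P ν := by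
  unfold Fam.law
  rw [lintegral_sum_measure]
  refine tsum_congr fun t => ?_
  rw [lintegral_smul_measure, Core.law, lintegral_map hψ Measurable.of_discrete, smul_eq_mul]

omit [Countable Ω] [MeasurableSpace Ω] [DiscreteMeasurableSpace Ω] [Fintype J] in
lemma Fam.famC_tsum (b : F.T → ℝ) (hb : ∀ t, 0 ≤ b t) (hs : Summable fun t => (F.w t : ℝ) * b t) :
    ∑' t, (F.w t : ℝ≥0∞) * ENNReal.ofReal (b t) = ENNReal.ofReal (∑' t, (F.w t : ℝ) * b t) := by
  rw [ENNReal.ofReal_tsum_of_nonneg (fun t => mul_nonneg (F.w t).coe_nonneg (hb t)) hs]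
  refine tsum_congr fun t => ?_
  rw [ENNReal.ofReal_mul (F.w t).coe_nonneg, ENNReal.ofReal_coe_nnreal]

omit [Countable Ω] [DiscreteMeasurableSpace Ω] [Fintype J] in
lemma Core.famC_eval (hν : ∀ j, IsProbabilityMeasure (ν j)) (c : Core Ω J) (i : c.I) :
    MeasurePreserving (fun ω : c.I → Ω => ω i) (c.P ν) (ν (c.cls i)) :=
  measurePreserving_eval (fun i => ν (c.cls i)) i

/-- second moment of a core -/
lemma Core.famC_sq (h : Slots ν s z) (Δ : ℕ) (B : ℝ) : ∃ a : ℝ, 0 ≤ a ∧ ∀ c : Core Ω J,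
    c.Good Δ B → ∫ ω, c.Z z ω ^ 2 ∂c.P ν ≤ a * (c.L ν z ^ 2 + c.k + 1) := by
  obtain ⟨C, hC⟩ := Core.Q_le h Δ B
  refine ⟨|C| + 1, by positivity, fun c hc => ?_⟩
  have := c.isProb h.prob
  have h1 := variance_eq_sub (Core.memLp_Z h hc)
  have h2 := hC c hc
  have h3 : C * c.k ≤ |C| * c.k := by gcongr; exact le_abs_self C
  have h4 : ∫ ω, c.Z z ω ^ 2 ∂c.P ν = c.Q ν z + c.L ν z ^ 2 := by
    unfold Core.Q Core.L
    rw [h1]
    simp only [Pi.pow_apply]
    ring
  have h5 : 0 ≤ |C| * (c.L ν z ^ 2 + 1) := by positivity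
  have h6 : (0 : ℝ) ≤ c.k := by positivity
  nlinarith

omit [Countable Ω] [Fintype J] in
lemma famC_R2_eq (j : J) (l : ℝ) : R2 (slaw (ν j) s z) l =
    ∫ ω, z ω ^ 2 * (1 - Real.exp (-(l * s ω))) ∂ν j := by
  unfold R2 slaw
  rw [integral_map Measurable.of_discrete.aemeasurable (Measurable.aestronglyMeasurable (by
    fun_prop))]

omit [Fintype J] in
lemma Core.famC_cross (h : Slots ν s z) {c : Core Ω J} (hc : c.Good Δ B) (i : c.I) {l : ℝ}
    (hl : 0 < l) : ∫ ω, (c.Z z ω - z (ω i)) ^ 2 * (1 - Real.exp (-(l * s (ω i)))) ∂c.P ν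
      ≤ (l * ∫ ω, (s ω : ℝ) ∂ν (c.cls i)) *
        (3 * (∫ ω, c.Z z ω ^ 2 ∂c.P ν + ∫ ω, z ω ^ 2 ∂ν (c.cls i) + (2 * Δ * B) ^ 2)) := by
  have := h.prob
  have := c.isProb h.prob
  have hZ := (Core.memLp_Z h hc).integrable_sq
  have hz : Integrable (fun ω : c.I → Ω => z (ω i) ^ 2) (c.P ν) :=
    (c.famC_eval h.prob i).integrable_comp_of_integrable (h.mem_z _).integrable_sq
  have hG : Integrable (fun ω : c.I → Ω =>
      3 * (c.Z z ω ^ 2 + z (ω i) ^ 2 + (2 * Δ * B) ^ 2)) (c.P ν) :=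
    ((hZ.add hz).add (integrable_const _)).const_mul 3
  have hm : MeasurePreserving (fun p : Ω × (c.I → Ω) => Function.update p.2 i p.1)
      ((ν (c.cls i)).prod (c.P ν)) (c.P ν) := measurePreserving_update (fun i => ν (c.cls i)) i
  rw [← famC_int_comp hm]
  refine (integral_mono_of_nonneg (Eventually.of_forall fun p => ?_)
    (((h.int_s (c.cls i)).const_mul l).mul_prod hG) (Eventually.of_forall fun p => ?_)).trans_eq ?_
  · exact mul_nonneg (sq_nonneg _) (famC_u_nonneg (by positivity))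
  · simp only [Function.update_self]
    rw [mul_comm]
    exact mul_le_mul (famC_u_le _) (hc.famC_upd z p.2 i p.1) (sq_nonneg _) (by positivity)
  · rw [integral_prod_mul (fun η => l * (s η : ℝ))
      (fun ω : c.I → Ω => 3 * (c.Z z ω ^ 2 + z (ω i) ^ 2 + (2 * Δ * B) ^ 2)),
      integral_const_mul, integral_const_mul, integral_add (hZ.fun_add hz) (integrable_const _),
      integral_add hZ hz, famC_int_comp (c.famC_eval h.prob i) (fun η => z η ^ 2)]
    simp

lemma Core.famC_R2 (h : Slots ν s z) (Δ : ℕ) (B : ℝ) {η : ℝ} (hη : 0 < η) :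
    ∃ C : ℝ, 0 ≤ C ∧ ∀ c : Core Ω J, c.Good Δ B → ∀ l : ℝ, 0 < l →
      ∫ ω, c.Z z ω ^ 2 * (1 - Real.exp (-(l * c.S s ω))) ∂c.P ν ≤
        (1 + η) * ∑ i, R2 (slaw (ν (c.cls i)) s z) l +
          C * ((c.L ν z ^ 2 + c.k + 1) * min 1 ((c.k + 1) * l)) := by
  obtain ⟨a, ha, hsq⟩ := Core.famC_sq h Δ B
  set M1 : ℝ := ∑ j, ∫ ω, (s ω : ℝ) ∂ν j with hM1
  set M2 : ℝ := ∑ j, ∫ ω, z ω ^ 2 ∂ν j with hM2
  have n1 : ∀ j, 0 ≤ ∫ ω, (s ω : ℝ) ∂ν j := fun j => integral_nonneg fun ω => by positivity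
  have n2 : ∀ j, 0 ≤ ∫ ω, z ω ^ 2 ∂ν j := fun j => integral_nonneg fun ω => by positivity
  have m1 : ∀ j, ∫ ω, (s ω : ℝ) ∂ν j ≤ M1 := fun j =>
    Finset.single_le_sum (fun j _ => n1 j) (Finset.mem_univ j)
  have m2 : ∀ j, ∫ ω, z ω ^ 2 ∂ν j ≤ M2 := fun j =>
    Finset.single_le_sum (fun j _ => n2 j) (Finset.mem_univ j)
  have M10 : 0 ≤ M1 := Finset.sum_nonneg fun j _ => n1 j
  have M20 : 0 ≤ M2 := Finset.sum_nonneg fun j _ => n2 j
  set H : ℝ := a + M2 + (2 * Δ * B) ^ 2 with hH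
  have H0 : 0 ≤ H := by positivity
  refine ⟨a + Δ * a + (1 + η⁻¹) * (M1 * (3 * H)), by positivity, fun c hc l hl => ?_⟩
  have := h.prob
  have := c.isProb h.prob
  set D : ℝ := c.L ν z ^ 2 + c.k + 1 with hD
  have D1 : 1 ≤ D := by
    have : (0 : ℝ) ≤ c.L ν z ^ 2 + c.k := by positivity
    linarith
  have hZ := (Core.memLp_Z h hc).integrable_sq
  have hr : 0 ≤ (1 + η) * ∑ i, R2 (slaw (ν (c.cls i)) s z) l := by
    refine mul_nonneg (by positivity) (Finset.sum_nonneg fun i _ => ?_)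
    rw [famC_R2_eq]
    exact integral_nonneg fun ω => mul_nonneg (sq_nonneg _) (famC_u_nonneg (by positivity))
  have hnn : 0 ≤ᵐ[c.P ν] fun ω => c.Z z ω ^ 2 * (1 - Real.exp (-(l * c.S s ω))) :=
    Eventually.of_forall fun ω => mul_nonneg (sq_nonneg _) (famC_u_nonneg (by positivity))
  have hs := hsq c hc
  rcases le_total 1 ((c.k + 1) * l) with h1 | h1
  · rw [min_eq_left h1, mul_one]
    have h2 : ∫ ω, c.Z z ω ^ 2 * (1 - Real.exp (-(l * c.S s ω))) ∂c.P ν ≤ a * D :=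
      (integral_mono_of_nonneg hnn hZ (Eventually.of_forall fun ω =>
        mul_le_of_le_one_right (sq_nonneg _) (famC_u_le_one _))).trans hs
    have h3 : 0 ≤ (Δ * a + (1 + η⁻¹) * (M1 * (3 * H))) * D := by positivity
    nlinarith
  · rw [min_eq_right h1]
    have hub : ∀ i : c.I, ∀ f : (c.I → Ω) → ℝ, Integrable f (c.P ν) →
        Integrable (fun ω => f ω * (1 - Real.exp (-(l * s (ω i))))) (c.P ν) := by
      intro i f hf
      refine hf.mul_bdd (c := 1) Measurable.of_discrete.aestronglyMeasurable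
        (Eventually.of_forall fun ω => ?_)
      rw [Real.norm_eq_abs, abs_of_nonneg (famC_u_nonneg (by positivity))]
      exact famC_u_le_one _
    have hz2 : ∀ i : c.I, MemLp (fun ω : c.I → Ω => z (ω i)) 2 (c.P ν) := fun i =>
      (h.mem_z _).comp_measurePreserving (c.famC_eval h.prob i)
    have i1 : ∀ i : c.I, Integrable
        (fun ω : c.I → Ω => z (ω i) ^ 2 * (1 - Real.exp (-(l * s (ω i))))) (c.P ν) := fun i =>
      hub i _ (hz2 i).integrable_sq
    have i2 : ∀ i : c.I, Integrable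
        (fun ω : c.I → Ω => (c.Z z ω - z (ω i)) ^ 2 * (1 - Real.exp (-(l * s (ω i))))) (c.P ν) :=
      fun i => hub i _ ((Core.memLp_Z h hc).sub (hz2 i)).integrable_sq
    have i3 : ∀ i : c.I, Integrable (fun ω : c.I → Ω =>
        (1 + η) * (z (ω i) ^ 2 * (1 - Real.exp (-(l * s (ω i))))) +
        (1 + η⁻¹) * ((c.Z z ω - z (ω i)) ^ 2 * (1 - Real.exp (-(l * s (ω i)))))) (c.P ν) :=
      fun i => ((i1 i).const_mul _).add ((i2 i).const_mul _)
    have i4 := integrable_finsetSum Finset.univ fun i _ => i3 i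
    have h2 := integral_mono_of_nonneg hnn ((hZ.const_mul (l * c.s0)).add i4)
      (Eventually.of_forall fun ω => by
        have e : l * c.S s ω = l * c.s0 + ∑ i, l * s (ω i) := by
          unfold Core.S
          push_cast
          rw [mul_add, Finset.mul_sum]
        have h3 := famC_exp2 (a := l * c.s0) (b := ∑ i, l * s (ω i)) (by positivity)
          (by positivity)
        have h4 := famC_exp_sum Finset.univ (fun i => l * s (ω i)) fun i => by positivity
        have h5 := famC_u_le (l * c.s0)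
        have h6 : 1 - Real.exp (-(l * c.S s ω)) ≤
            l * c.s0 + ∑ i, (1 - Real.exp (-(l * s (ω i)))) := by
          rw [e]
          linarith
        simp only [Pi.add_apply]
        refine (mul_le_mul_of_nonneg_left h6 (sq_nonneg _)).trans ?_
        rw [mul_add, mul_comm, Finset.mul_sum]
        refine add_le_add le_rfl (Finset.sum_le_sum fun i _ => ?_)
        have h7 := famC_sq_add hη (z (ω i)) (c.Z z ω - z (ω i))
        rw [add_sub_cancel] at h7
        refine (mul_le_mul_of_nonneg_right h7 (famC_u_nonneg (by positivity))).trans_eq ?_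
        ring)
    refine h2.trans ?_
    have h3 : ∀ i : c.I, ∫ ω, ((1 + η) * (z (ω i) ^ 2 * (1 - Real.exp (-(l * s (ω i))))) +
        (1 + η⁻¹) * ((c.Z z ω - z (ω i)) ^ 2 * (1 - Real.exp (-(l * s (ω i)))))) ∂c.P ν
        ≤ (1 + η) * R2 (slaw (ν (c.cls i)) s z) l + (1 + η⁻¹) * ((l * M1) * (3 * (H * D))) := by
      intro i
      rw [integral_add ((i1 i).const_mul _) ((i2 i).const_mul _), integral_const_mul,
        integral_const_mul, famC_R2_eq, famC_int_comp (c.famC_eval h.prob i)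
          (fun η => z η ^ 2 * (1 - Real.exp (-(l * s η))))]
      refine add_le_add le_rfl (mul_le_mul_of_nonneg_left
        ((Core.famC_cross h hc i hl).trans ?_) (by positivity))
      have h4 : ∫ ω, c.Z z ω ^ 2 ∂c.P ν + ∫ ω, z ω ^ 2 ∂ν (c.cls i) + (2 * Δ * B) ^ 2
          ≤ H * D := by
        have h5 := m2 (c.cls i)
        have h6 : M2 + (2 * Δ * B) ^ 2 ≤ (M2 + (2 * Δ * B) ^ 2) * D :=
          le_mul_of_one_le_right (by positivity) D1
        rw [hH]
        linarith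
      have h5 : 0 ≤ ∫ ω, c.Z z ω ^ 2 ∂c.P ν := integral_nonneg fun ω => sq_nonneg _
      have h6 := n2 (c.cls i)
      gcongr
      exact m1 _
    have h4 := Finset.sum_le_sum fun i (_ : i ∈ Finset.univ) => h3 i
    rw [Finset.sum_add_distrib, ← Finset.mul_sum, Finset.sum_const, Finset.card_univ,
      nsmul_eq_mul] at h4
    simp only [Pi.add_apply]
    rw [integral_add (hZ.const_mul _) i4, integral_const_mul,
      integral_finsetSum _ fun i _ => i3 i]
    have h5 : (c.s0 : ℝ) ≤ Δ * (c.k + 1) := by exact_mod_cast hc.s0_le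
    have h6 : l * c.s0 * ∫ ω, c.Z z ω ^ 2 ∂c.P ν ≤ l * (Δ * (c.k + 1)) * (a * D) := by
      have h5 : 0 ≤ ∫ ω, c.Z z ω ^ 2 ∂c.P ν := integral_nonneg fun ω => sq_nonneg _
      gcongr
    have h7 : (Fintype.card c.I : ℝ) * ((1 + η⁻¹) * ((l * M1) * (3 * (H * D))))
        ≤ (c.k + 1) * ((1 + η⁻¹) * ((l * M1) * (3 * (H * D)))) := by
      have : (Fintype.card c.I : ℝ) ≤ c.k + 1 := by
        unfold Core.k
        linarith
      gcongr
    have h8 : 0 ≤ a * (D * ((c.k + 1) * l)) := by positivity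
    have e : (a + Δ * a + (1 + η⁻¹) * (M1 * (3 * H))) * (D * ((c.k + 1) * l))
        = a * (D * ((c.k + 1) * l)) + l * (Δ * (c.k + 1)) * (a * D)
          + (c.k + 1) * ((1 + η⁻¹) * ((l * M1) * (3 * (H * D)))) := by ring
    rw [e]
    linarith

theorem Fam.R2_law (h : Slots ν s z) (hF : F.Good Δ B)
    (hL : Summable fun t => (F.w t : ℝ) * (F.core t).L ν z ^ 2) {η : ℝ} (hη : 0 < η) :
    MemLp (fun p => p.2) 2 (F.law ν s z) ∧ ∃ C : ℝ, ∀ l : ℝ, 0 < l →
      R2 (F.law ν s z) l ≤ (1 + η) * ∑ j, F.acoef j * R2 (slaw (ν j) s z) l +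
        C * ∑' t, (F.w t : ℝ) * ((F.core t).L ν z ^ 2 + (F.core t).k + 1) *
          min 1 (((F.core t).k + 1) * l) := by
  have hD : Summable fun t => (F.w t : ℝ) * ((F.core t).L ν z ^ 2 + (F.core t).k + 1) :=
    (hL.add hF.sum1).congr fun t => by ring
  constructor
  · obtain ⟨a, ha, hsq⟩ := Core.famC_sq h Δ B
    rw [memLp_two_iff_integrable_sq measurable_snd.aestronglyMeasurable]
    refine ⟨(measurable_snd.pow_const 2).aestronglyMeasurable, ?_⟩
    rw [hasFiniteIntegral_iff_ofReal (Eventually.of_forall fun p => sq_nonneg _),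
      Fam.famC_lint _ (by fun_prop)]
    refine lt_of_le_of_lt (ENNReal.tsum_le_tsum (g := fun t => (F.w t : ℝ≥0∞) *
      ENNReal.ofReal (a * ((F.core t).L ν z ^ 2 + (F.core t).k + 1))) fun t => ?_) ?_
    · gcongr
      exact (famC_lint_le (Core.memLp_Z h (hF.good t)).integrable_sq (fun ω => sq_nonneg _)
        fun ω => le_rfl).trans (ENNReal.ofReal_le_ofReal (hsq _ (hF.good t)))
    · rw [Fam.famC_tsum _ (fun t => by positivity) ((hD.mul_left a).congr fun t => by ring)]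
      exact ENNReal.ofReal_lt_top
  · obtain ⟨C, hC, hR⟩ := Core.famC_R2 h Δ B hη
    refine ⟨C, fun l hl => ?_⟩
    have hr0 : ∀ j, 0 ≤ R2 (slaw (ν j) s z) l := fun j => by
      rw [famC_R2_eq]
      exact integral_nonneg fun ω => mul_nonneg (sq_nonneg _) (famC_u_nonneg (by positivity))
    have s1 := (hF.famC_hasSum fun j => R2 (slaw (ν j) s z) l).mul_left (1 + η)
    have s2 : Summable fun t => (F.w t : ℝ) * ((F.core t).L ν z ^ 2 + (F.core t).k + 1) *
        min 1 (((F.core t).k + 1) * l) :=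
      Summable.of_nonneg_of_le (fun t => by positivity)
        (fun t => mul_le_of_le_one_right (by positivity) (min_le_left _ _)) hD
    have s3 : HasSum (fun t => (F.w t : ℝ) *
        ((1 + η) * ∑ i, R2 (slaw (ν ((F.core t).cls i)) s z) l +
          C * (((F.core t).L ν z ^ 2 + (F.core t).k + 1) * min 1 (((F.core t).k + 1) * l)))) _ :=
      famC_congr (s1.add (s2.hasSum.mul_left C)) fun t => by ring
    have hb0 : ∀ t, 0 ≤ (1 + η) * ∑ i, R2 (slaw (ν ((F.core t).cls i)) s z) l +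
        C * (((F.core t).L ν z ^ 2 + (F.core t).k + 1) * min 1 (((F.core t).k + 1) * l)) :=
      fun t => add_nonneg (mul_nonneg (by positivity) (Finset.sum_nonneg fun i _ => hr0 _))
        (by positivity)
    rw [← s3.tsum_eq, R2, integral_eq_lintegral_of_nonneg_ae
      (Eventually.of_forall fun p => mul_nonneg (sq_nonneg _) (famC_u_nonneg (by positivity)))
      (Measurable.aestronglyMeasurable (by fun_prop)), Fam.famC_lint _ (by fun_prop)]
    refine ENNReal.toReal_le_of_le_ofReal (tsum_nonneg fun t => mul_nonneg (F.w t).coe_nonneg (hb0 t)) ?_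
    rw [← Fam.famC_tsum _ hb0 s3.summable]
    refine ENNReal.tsum_le_tsum fun t => ?_
    gcongr
    refine (famC_lint_le ?_ (fun ω => mul_nonneg (sq_nonneg _) (famC_u_nonneg (by positivity)))
      fun ω => le_rfl).trans (ENNReal.ofReal_le_ofReal (hR _ (hF.good t) l hl))
    refine (Core.memLp_Z h (hF.good t)).integrable_sq.mul_bdd (c := 1)
      Measurable.of_discrete.aestronglyMeasurable (Eventually.of_forall fun ω => ?_)
    rw [Real.norm_eq_abs, abs_of_nonneg (famC_u_nonneg (by positivity))]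
    exact famC_u_le_one _

omit [Fintype J] in
lemma Core.famC_var (h : Slots ν s z) {c : Core Ω J} (hc : c.Good Δ B) {η : ℝ} (hη : 0 < η) :
    c.Q ν z ≤ (1 + η) * ∑ i, ∫ ω, z ω ^ 2 ∂ν (c.cls i) +
      (1 + η⁻¹) * (c.k * (2 * Δ * B) ^ 2 / 2) := by
  have := h.prob
  have := c.isProb h.prob
  obtain ⟨g1, g2, -⟩ := variance_le_of_bdd_diff (fun i => ν (c.cls i)) (fun ω => ∑ v, c.g v ω)
    (2 * Δ * B) hc.famC_g
  have hG : MemLp (fun ω => ∑ v, c.g v ω) 2 (c.P ν) := g1.mono_exponent (by norm_num)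
  have hX : MemLp (fun ω : c.I → Ω => ∑ i, z (ω i)) 2 (c.P ν) :=
    memLp_finsetSum _ fun i _ => (h.mem_z _).comp_measurePreserving (c.famC_eval h.prob i)
  have v1 : Var[fun ω : c.I → Ω => ∑ i, z (ω i); c.P ν] ≤ ∑ i, ∫ ω, z ω ^ 2 ∂ν (c.cls i) := by
    have e : (fun ω : c.I → Ω => ∑ i, z (ω i)) = ∑ i, fun ω : c.I → Ω => z (ω i) := by
      funext ω
      simp
    rw [e, Core.P, variance_sum_pi (X := fun _ => z) fun i => h.mem_z (c.cls i)]
    exact Finset.sum_le_sum fun i _ => variance_le_expectation_sq (h.mem_z _).1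
  have v2 : c.Q ν z ≤ (1 + η) * Var[fun ω : c.I → Ω => ∑ i, z (ω i); c.P ν] +
      (1 + η⁻¹) * Var[fun ω => ∑ v, c.g v ω; c.P ν] := by
    have e : c.Z z = fun ω => c.z0 + (∑ i, z (ω i) + ∑ v, c.g v ω) := by
      funext ω
      rw [Core.Z, add_assoc]
    have i1 := (hX.sub (memLp_const (∫ ω, ∑ i, z (ω i) ∂c.P ν))).integrable_sq
    have i2 := (hG.sub (memLp_const (∫ ω, ∑ v, c.g v ω ∂c.P ν))).integrable_sq
    simp only [Pi.sub_apply] at i1 i2
    rw [Core.Q, e, variance_const_add Measurable.of_discrete.aestronglyMeasurable,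
      variance_eq_integral Measurable.of_discrete.aemeasurable,
      variance_eq_integral Measurable.of_discrete.aemeasurable,
      variance_eq_integral Measurable.of_discrete.aemeasurable, ← integral_const_mul,
      ← integral_const_mul, ← integral_add (i1.const_mul _) (i2.const_mul _),
      integral_add (hX.integrable one_le_two) (hG.integrable one_le_two)]
    refine integral_mono_of_nonneg (Eventually.of_forall fun ω => sq_nonneg _)
      ((i1.const_mul _).add (i2.const_mul _)) (Eventually.of_forall fun ω => ?_)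
    refine le_trans (le_of_eq ?_) (famC_sq_add hη _ _)
    ring
  refine v2.trans (add_le_add (mul_le_mul_of_nonneg_left v1 (by positivity))
    (mul_le_mul_of_nonneg_left g2 (by positivity)))

omit [Fintype J] in
lemma Core.famC_trunc (h : Slots1 ν s z) {A : ℝ} (hz : ∀ j, ∀ᵐ ω ∂ν j, |z ω| ≤ A * (s ω + 1))
    {c : Core Ω J} (hc : c.Good Δ B) {η : ℝ} (hη : 0 < η) (N : ℕ) {τ : ℝ}
    (hτ : ∀ j, ∫ ω in {ω | N < s ω}, |z ω| ∂ν j ≤ τ) :
    ∫⁻ ω, {p : ℕ × ℝ | p.1 ≤ N}.indicator (fun p => ENNReal.ofReal (p.2 ^ 2))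
        (c.S s ω, c.Z z ω) ∂c.P ν ≤
      ENNReal.ofReal ((1 + η) * ∑ i, ∫ ω in {ω | s ω ≤ N}, z ω ^ 2 ∂ν (c.cls i)) +
        ENNReal.ofReal ((2 + (1 + η⁻¹) * (2 * Δ * B) ^ 2) *
          (c.L ν z ^ 2 + c.k + 1 + (c.k * τ) ^ 2)) := by
  have := h.prob
  have := c.isProb h.prob
  set z' : Ω → ℝ := {ω | s ω ≤ N}.indicator z with hz'
  have hm : ∀ j, MemLp z' 2 (ν j) := by
    intro j
    refine MemLp.of_bound Measurable.of_discrete.aestronglyMeasurable (|A| * (N + 1)) ?_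
    filter_upwards [hz j] with ω hω
    by_cases h1 : s ω ≤ N
    · rw [hz', Set.indicator_of_mem (show ω ∈ {ω | s ω ≤ N} from h1), Real.norm_eq_abs]
      refine hω.trans ?_
      have : (s ω : ℝ) ≤ N := by exact_mod_cast h1
      gcongr
      exact le_abs_self A
    · rw [hz', Set.indicator_of_notMem (show ω ∉ {ω | s ω ≤ N} from h1), norm_zero]
      positivity
  have h' : Slots ν s z' := ⟨⟨h.prob, h.int_s, fun j => (hm j).integrable one_le_two⟩, hm⟩
  have e2 : ∀ j, ∫ ω, z' ω ^ 2 ∂ν j = ∫ ω in {ω | s ω ≤ N}, z ω ^ 2 ∂ν j := by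
    intro j
    rw [← integral_indicator MeasurableSet.of_discrete]
    refine integral_congr_ae (Eventually.of_forall fun ω => ?_)
    by_cases h1 : ω ∈ {ω | s ω ≤ N} <;> simp only [hz', Set.indicator, h1, if_true, if_false]
    simp
  have e1 : ∀ j, |∫ ω, z ω ∂ν j - ∫ ω, z' ω ∂ν j| ≤ τ := by
    intro j
    rw [hz', integral_indicator MeasurableSet.of_discrete,
      ← integral_add_compl (s := {ω | s ω ≤ N}) MeasurableSet.of_discrete (h.int_z j),
      add_sub_cancel_left]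
    refine abs_integral_le_integral_abs.trans ?_
    have : {ω | s ω ≤ N}ᶜ = {ω | N < s ω} := by
      ext ω
      simp
    rw [this]
    exact hτ j
  have hL : |c.L ν z - c.L ν z'| ≤ c.k * τ := by
    rw [Core.L_eq h hc, Core.L_eq h'.toSlots1 hc, add_sub_add_right_eq_sub, add_sub_add_left_eq_sub,
      ← Finset.sum_sub_distrib]
    refine (Finset.abs_sum_le_sum_abs _ _).trans ?_
    refine (Finset.sum_le_card_nsmul _ _ τ fun i _ => e1 _).trans_eq ?_
    rw [nsmul_eq_mul, Finset.card_univ, Core.k]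
  have hL2 : c.L ν z' ^ 2 ≤ 2 * c.L ν z ^ 2 + 2 * (c.k * τ) ^ 2 := by
    have h1 : (c.L ν z - c.L ν z') ^ 2 ≤ (c.k * τ) ^ 2 :=
      sq_le_sq' (abs_le.1 hL).1 (abs_le.1 hL).2
    nlinarith [sq_nonneg (2 * c.L ν z - c.L ν z')]
  have hQ := Core.famC_var h' hc hη
  simp only [e2] at hQ
  have h4 : ∫ ω, c.Z z' ω ^ 2 ∂c.P ν = c.Q ν z' + c.L ν z' ^ 2 := by
    unfold Core.Q Core.L
    rw [variance_eq_sub (Core.memLp_Z h' hc)]
    simp only [Pi.pow_apply]
    ring
  have hn : 0 ≤ (1 + η) * ∑ i, ∫ ω in {ω | s ω ≤ N}, z ω ^ 2 ∂ν (c.cls i) :=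
    mul_nonneg (by positivity) (Finset.sum_nonneg fun i _ => integral_nonneg fun ω => sq_nonneg _)
  rw [← ENNReal.ofReal_add hn (by positivity)]
  refine le_trans (lintegral_mono fun ω => ?_)
    ((famC_lint_le (Core.memLp_Z h' hc).integrable_sq (fun ω => sq_nonneg _)
      fun ω => le_rfl).trans (ENNReal.ofReal_le_ofReal ?_))
  · by_cases h1 : c.S s ω ≤ N
    · rw [Set.indicator_of_mem (show (c.S s ω, c.Z z ω) ∈ {p : ℕ × ℝ | p.1 ≤ N} from h1)]
      have h2 : ∀ i, z' (ω i) = z (ω i) := fun i => by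
        refine Set.indicator_of_mem (s := {ω | s ω ≤ N}) (show s (ω i) ≤ N from le_trans ?_ h1) z
        exact (Finset.single_le_sum (f := fun i => s (ω i)) (fun _ _ => Nat.zero_le _)
          (Finset.mem_univ i)).trans (Nat.le_add_left _ _)
      simp only [Core.Z, h2, le_refl]
    · rw [Set.indicator_of_notMem (show (c.S s ω, c.Z z ω) ∉ {p : ℕ × ℝ | p.1 ≤ N} from h1)]
      exact zero_le
  · rw [h4]
    have h5 : 0 ≤ (1 + η⁻¹) * (2 * Δ * B) ^ 2 := by positivity
    have h6 : (0 : ℝ) ≤ c.k := by positivity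
    have e : (1 + η⁻¹) * (c.k * (2 * Δ * B) ^ 2 / 2) = (1 + η⁻¹) * (2 * Δ * B) ^ 2 * c.k / 2 := by
      ring
    rw [e] at hQ
    generalize (1 + η⁻¹) * (2 * Δ * B) ^ 2 = Γ at h5 hQ ⊢
    have h7 : 0 ≤ Γ * (c.L ν z ^ 2 + 1 + (c.k * τ) ^ 2) := by positivity
    have h8 : 0 ≤ Γ * c.k := by positivity
    nlinarith

/-- truncated second moments -/
theorem Fam.sq_law (h : Slots1 ν s z) {A : ℝ} (hz : ∀ j, ∀ᵐ ω ∂ν j, |z ω| ≤ A * (s ω + 1))
    (hF : F.Good Δ B) {η : ℝ} (hη : 0 < η) :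
    ∃ C : ℝ, ∀ N : ℕ, ∀ τ : ℝ, (∀ j, ∫ ω in {ω | N < s ω}, |z ω| ∂ν j ≤ τ) →
      ∫⁻ p in {p | p.1 ≤ N}, ENNReal.ofReal (p.2 ^ 2) ∂F.law ν s z ≤
        ENNReal.ofReal ((1 + η) * ∑ j, F.acoef j * ∫ ω in {ω | s ω ≤ N}, z ω ^ 2 ∂ν j) +
        ∑' t : {t // (F.core t).P ν {ω | (F.core t).S s ω ≤ N} ≠ 0}, F.w t * ENNReal.ofReal
          (C * ((F.core t).L ν z ^ 2 + (F.core t).k + 1 + ((F.core t).k * τ) ^ 2)) := by
  refine ⟨2 + (1 + η⁻¹) * (2 * Δ * B) ^ 2, fun N τ hτ => ?_⟩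
  have hm : MeasurableSet {p : ℕ × ℝ | p.1 ≤ N} := measurableSet_le measurable_fst measurable_const
  have s1 := (hF.famC_hasSum fun j => ∫ ω in {ω | s ω ≤ N}, z ω ^ 2 ∂ν j).mul_left (1 + η)
  have s2 : HasSum (fun t => (F.w t : ℝ) *
      ((1 + η) * ∑ i, ∫ ω in {ω | s ω ≤ N}, z ω ^ 2 ∂ν ((F.core t).cls i))) _ :=
    famC_congr s1 fun t => by ring
  rw [← lintegral_indicator hm, Fam.famC_lint _ (Measurable.indicator (by fun_prop) hm),
    ← s2.tsum_eq, ← Fam.famC_tsum _ (fun t => mul_nonneg (by positivity)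
      (Finset.sum_nonneg fun i _ => integral_nonneg fun ω => sq_nonneg _)) s2.summable]
  have e := tsum_subtype {t | (F.core t).P ν {ω | (F.core t).S s ω ≤ N} ≠ 0}
    fun t => (F.w t : ℝ≥0∞) * ENNReal.ofReal ((2 + (1 + η⁻¹) * (2 * Δ * B) ^ 2) *
      ((F.core t).L ν z ^ 2 + (F.core t).k + 1 + ((F.core t).k * τ) ^ 2))
  refine le_trans ?_ (add_le_add le_rfl e.ge)
  rw [← ENNReal.tsum_add]
  refine ENNReal.tsum_le_tsum fun t => ?_
  by_cases ht : (F.core t).P ν {ω | (F.core t).S s ω ≤ N} = 0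
  · have : ∫⁻ ω, {p : ℕ × ℝ | p.1 ≤ N}.indicator (fun p => ENNReal.ofReal (p.2 ^ 2))
        ((F.core t).S s ω, (F.core t).Z z ω) ∂(F.core t).P ν = 0 := by
      refine lintegral_eq_zero_of_ae_eq_zero ?_
      filter_upwards [compl_mem_ae_iff.2 ht] with ω hω
      exact Set.indicator_of_notMem (s := {p : ℕ × ℝ | p.1 ≤ N})
        (a := ((F.core t).S s ω, (F.core t).Z z ω)) hω _
    rw [this, mul_zero]
    exact zero_le
  · rw [Set.indicator_of_mem (show t ∈ {t | (F.core t).P ν {ω | (F.core t).S s ω ≤ N} ≠ 0}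
      from ht), ← mul_add]
    gcongr
    exact Core.famC_trunc h hz (hF.good t) hη N hτ

end Pool.Agent.Lib.MP_77dff5_pr
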