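import Pool.Agent.Lib.MP_77dff5_pr.FamA

/-! One big jump: cores with few slots. -/

set_option autoImplicit false

namespace Pool.Agent.Lib.MP_77dff5_pr

open MeasureTheory ProbabilityTheory Filter Topology
open scoped ENNReal NNReal

theorem jumpC_sum_le {Ω J : Type} {F : Fam Ω J}
    (h6 : Summable fun t => (F.w t : ℝ) * ((F.core t).k : ℝ) ^ 6) (A : Set F.T)
    (a : A → ℝ≥0∞) {D : ℝ} (hD : 0 ≤ D)
    (h : ∀ t : A, a t ≤ ENNReal.ofReal (D * ((F.core t).k : ℝ) ^ 6)) :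
    ∑' t : A, (F.w t : ℝ≥0∞) * a t ≤
      ENNReal.ofReal (D * ∑' t, (F.w t : ℝ) * ((F.core t).k : ℝ) ^ 6) := by
  rw [← tsum_mul_left, ENNReal.ofReal_tsum_of_nonneg (fun t => by positivity) (h6.mul_left D)]
  refine le_trans (ENNReal.tsum_le_tsum fun t => ?_) (ENNReal.tsum_comp_le_tsum_of_injective
    Subtype.val_injective fun t => ENNReal.ofReal (D * ((F.w t : ℝ) * ((F.core t).k : ℝ) ^ 6)))
  rw [mul_left_comm, ENNReal.ofReal_mul (NNReal.coe_nonneg _), ENNReal.ofReal_coe_nnreal]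
  exact mul_le_mul_right (h t) _

theorem jumpC_pow {n k : ℕ} (hn : 1 ≤ n) (h : ¬k ^ 10 ≤ n ^ 9) : 1 ≤ k ∧ n ^ 3 ≤ k ^ 4 := by
  push Not at h
  constructor
  · by_contra h0
    obtain rfl : k = 0 := by omega
    simp at h
  · by_contra h0
    push Not at h0
    have h1 : (k ^ 4) ^ 5 < (n ^ 3) ^ 5 := Nat.pow_lt_pow_left h0 (by norm_num)
    have h2 : (n ^ 9) ^ 2 < (k ^ 10) ^ 2 := Nat.pow_lt_pow_left h (by norm_num)
    have h3 : n ^ 15 ≤ n ^ 18 := Nat.pow_le_pow_right hn (by norm_num)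
    rw [← pow_mul, ← pow_mul] at h1 h2
    exact absurd ((h1.trans_le h3).trans h2) (lt_irrefl _)

theorem jumpC_ev (C : ℝ) {ε : ℝ} (hε : 0 < ε) :
    ∀ᶠ n : ℕ in atTop, C / (n : ℝ) ^ 3 ≤ ε * (n : ℝ) ^ (-(5 / 2) : ℝ) := by
  have h1 : Tendsto (fun n : ℕ => C * (n : ℝ) ^ (-(1 / 2) : ℝ)) atTop (𝓝 (C * 0)) :=
    ((tendsto_rpow_neg_atTop (by norm_num)).comp tendsto_natCast_atTop_atTop).const_mul C
  rw [mul_zero] at h1
  filter_upwards [h1.eventually (gt_mem_nhds hε), eventually_ge_atTop 1] with n h2 hn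
  have h3 : (0 : ℝ) < n := by exact_mod_cast hn
  have e : C / (n : ℝ) ^ 3 = C * (n : ℝ) ^ (-(1 / 2) : ℝ) * (n : ℝ) ^ (-(5 / 2) : ℝ) := by
    rw [mul_assoc, ← Real.rpow_add h3, div_eq_mul_inv, ← Real.rpow_natCast, ← Real.rpow_neg h3.le]
    norm_num
  rw [e]
  exact mul_le_mul_of_nonneg_right h2.le (by positivity)

variable {Ω J : Type} [Countable Ω] [MeasurableSpace Ω] [DiscreteMeasurableSpace Ω] [Fintype J]
  {ν : J → Measure Ω} {s : Ω → ℕ} {z : Ω → ℝ} {F : Fam Ω J} {Δ : ℕ} {B : ℝ}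

theorem jumpC_sq (h : Slots ν s z) (Δ : ℕ) (B : ℝ) :
    ∃ C : ℝ, 0 ≤ C ∧ ∀ c : Core Ω J, c.Good Δ B → 1 ≤ c.k →
      ∫⁻ ω, ENNReal.ofReal (c.Z z ω ^ 2) ∂c.P ν ≤ ENNReal.ofReal (C * (c.k : ℝ) ^ 2) := by
  obtain ⟨C1, h1⟩ := Core.abs_L_le h.toSlots1 Δ B
  obtain ⟨C2, h2⟩ := Core.Q_le h Δ B
  refine ⟨4 * C1 ^ 2 + |C2|, by positivity, fun c hc hk => ?_⟩
  have := Core.isProb h.prob c
  have hm := Core.memLp_Z h hc
  rw [← ofReal_integral_eq_lintegral_ofReal hm.integrable_sq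
    (Eventually.of_forall fun ω => sq_nonneg _)]
  refine ENNReal.ofReal_le_ofReal ?_
  have e : c.Q ν z = ∫ ω, c.Z z ω ^ 2 ∂c.P ν - c.L ν z ^ 2 := variance_eq_sub hm
  have hk' : (1 : ℝ) ≤ c.k := by exact_mod_cast hk
  have a1 : c.L ν z ^ 2 ≤ (C1 * (c.k + 1)) ^ 2 :=
    sq_le_sq' (abs_le.1 (h1 c hc).1).1 (abs_le.1 (h1 c hc).1).2
  have a2 : (C1 * (c.k + 1)) ^ 2 ≤ 4 * C1 ^ 2 * (c.k : ℝ) ^ 2 := by
    have : ((c.k : ℝ) + 1) ^ 2 ≤ 4 * (c.k : ℝ) ^ 2 := by nlinarith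
    nlinarith [sq_nonneg C1]
  have a3 : C2 * c.k ≤ |C2| * (c.k : ℝ) ^ 2 :=
    mul_le_mul (le_abs_self _) (by nlinarith) (by positivity) (abs_nonneg _)
  linarith [h2 c hc]

/-- for light families the cores with many slots are negligible -/
theorem Fam.large_light (h : Slots ν s z) (hF : F.Good Δ B)
    (h6 : Summable fun t => (F.w t : ℝ) * ((F.core t).k : ℝ) ^ 6) {ε : ℝ} (hε : 0 < ε) :
    ∀ᶠ n : ℕ in atTop,
      (F.lawOn (F.small n)ᶜ ν s z).real Set.univ ≤ ε * (n : ℝ) ^ (-(5 / 2) : ℝ) ∧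
      m2 (F.lawOn (F.small n)ᶜ ν s z) n 0 ≤ ENNReal.ofReal (ε * (n : ℝ) ^ (-(5 / 2) : ℝ)) := by
  obtain ⟨C, hC, h2⟩ := jumpC_sq h Δ B
  filter_upwards [jumpC_ev (∑' t, (F.w t : ℝ) * ((F.core t).k : ℝ) ^ 6) hε,
    jumpC_ev (C * ∑' t, (F.w t : ℝ) * ((F.core t).k : ℝ) ^ 6) hε, eventually_ge_atTop 1]
    with n a1 a2 hn
  have hn' : (1 : ℝ) ≤ n := by exact_mod_cast hn
  have hk : ∀ t : ((F.small n)ᶜ : Set F.T), 1 ≤ (F.core t).k ∧
      (1 : ℝ) ≤ (F.core t).k ∧ (n : ℝ) ^ 3 ≤ ((F.core t).k : ℝ) ^ 4 := by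
    intro t
    obtain ⟨b1, b2⟩ := jumpC_pow hn t.2
    exact ⟨b1, by exact_mod_cast b1, by exact_mod_cast b2⟩
  constructor
  · refine ENNReal.toReal_le_of_le_ofReal (by positivity) ?_
    rw [← lintegral_one, Fam.lintegral_lawOn _ _ measurable_const]
    refine (jumpC_sum_le h6 _ _ (D := 1 / (n : ℝ) ^ 3) (by positivity) fun t => ?_).trans
      (ENNReal.ofReal_le_ofReal (by rwa [one_div_mul_eq_div]))
    have := Core.isProb h.prob (F.core t)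
    rw [lintegral_one, measure_univ, ENNReal.one_le_ofReal, one_div_mul_eq_div,
      one_le_div (by positivity)]
    exact (hk t).2.2.trans (pow_le_pow_right₀ (hk t).2.1 (by norm_num))
  · have b1 : m2 (F.lawOn (F.small n)ᶜ ν s z) n 0 ≤
        ∫⁻ p, ENNReal.ofReal (p.2 ^ 2) ∂F.lawOn (F.small n)ᶜ ν s z := by
      refine (setLIntegral_le_lintegral _ _).trans (lintegral_mono fun p => ?_)
      refine ENNReal.ofReal_le_ofReal ?_
      rw [psi, sub_zero, max_eq_left (abs_nonneg _), sq_abs, div_pow, Real.sq_sqrt (by positivity)]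
      exact div_le_self (sq_nonneg _) hn'
    refine b1.trans ?_
    rw [Fam.lintegral_lawOn _ _ (by fun_prop)]
    refine (jumpC_sum_le h6 _ _ (D := C / (n : ℝ) ^ 3) (by positivity) fun t => ?_).trans
      (ENNReal.ofReal_le_ofReal (by rwa [div_mul_eq_mul_div]))
    refine (h2 _ (hF.good t) (hk t).1).trans (ENNReal.ofReal_le_ofReal ?_)
    rw [div_mul_eq_mul_div, le_div_iff₀ (by positivity)]
    calc C * ((F.core t).k : ℝ) ^ 2 * (n : ℝ) ^ 3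
        ≤ C * ((F.core t).k : ℝ) ^ 2 * ((F.core t).k : ℝ) ^ 4 :=
          mul_le_mul_of_nonneg_left (hk t).2.2 (by positivity)
      _ = _ := by ring

theorem Fam.light_hyp (h : Slots1 ν s z) (hF : F.Good Δ B)
    (h6 : Summable fun t => (F.w t : ℝ) * ((F.core t).k : ℝ) ^ 6) :
    ∃ A : ℝ, ∀ M : ℕ, 1 ≤ M → ∑' t : {t // (F.core t).k ≤ M}, (F.w t : ℝ≥0∞) * ENNReal.ofReal
      ((F.core t).k * ((F.core t).L ν z ^ 2 + (F.core t).k)) ≤ ENNReal.ofReal (A * M) := by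
  obtain ⟨C, h1⟩ := Core.abs_L_le h Δ B
  refine ⟨(4 * C ^ 2 + 1) * ∑' t, (F.w t : ℝ) * ((F.core t).k : ℝ) ^ 6, fun M hM => ?_⟩
  have hM' : (1 : ℝ) ≤ M := by exact_mod_cast hM
  refine (jumpC_sum_le h6 {t | (F.core t).k ≤ M} _ (D := 4 * C ^ 2 + 1) (by positivity)
    fun t => ENNReal.ofReal_le_ofReal ?_).trans (ENNReal.ofReal_le_ofReal
      (le_mul_of_one_le_right (mul_nonneg (by positivity) (tsum_nonneg fun t => by positivity)) hM'))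
  have a0 := (h1 _ (hF.good t)).1
  generalize (F.core t).L ν z = L at *
  generalize (F.core t).k = k at *
  rcases Nat.eq_zero_or_pos k with rfl | hk
  · simp
  have hk' : (1 : ℝ) ≤ k := by exact_mod_cast hk
  have a1 : L ^ 2 ≤ (C * (k + 1)) ^ 2 := sq_le_sq' (abs_le.1 a0).1 (abs_le.1 a0).2
  have a2 : (C * (k + 1)) ^ 2 ≤ 4 * C ^ 2 * (k : ℝ) ^ 5 := by
    have b1 : ((k : ℝ) + 1) ^ 2 ≤ 4 * (k : ℝ) ^ 2 := by nlinarith
    have b2 : (k : ℝ) ^ 2 ≤ (k : ℝ) ^ 5 := pow_le_pow_right₀ hk' (by norm_num)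
    nlinarith [sq_nonneg C]
  have a3 : (k : ℝ) ≤ (k : ℝ) ^ 5 := le_self_pow₀ hk' (by norm_num)
  calc (k : ℝ) * (L ^ 2 + k) ≤ k * (4 * C ^ 2 * (k : ℝ) ^ 5 + (k : ℝ) ^ 5) := by
        gcongr
        exact a1.trans a2
    _ = _ := by ring

end Pool.Agent.Lib.MP_77dff5_pr
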