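import Pool.Agent.Lib.MP_77dff5_pr.KernelA

/-! Local estimates for the size of a filled core. -/

set_option autoImplicit false

namespace Pool.Agent.Lib.MP_77dff5_pr

open MeasureTheory ProbabilityTheory Filter Topology
open scoped ENNReal NNReal

variable {Ω J : Type} [Countable Ω] [MeasurableSpace Ω] [DiscreteMeasurableSpace Ω] [Fintype J]
  {ν : J → Measure Ω} {s : Ω → ℕ} {z : Ω → ℝ} {A c₀ : ℝ} {j₀ : J}

theorem kernelB_prod_le {X Y : Type} [MeasurableSpace X] [MeasurableSpace Y] (μ : Measure X)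
    (ρ : Measure Y) [IsFiniteMeasure μ] [IsFiniteMeasure ρ] {D : Set X} (hD : MeasurableSet D)
    {E : Set (X × Y)} (hE : MeasurableSet E) {b : ℝ} (hb : 0 ≤ b) (h1 : ∀ p ∈ E, p.1 ∈ D)
    (h2 : ∀ x, ρ.real (Prod.mk x ⁻¹' E) ≤ b) : (μ.prod ρ).real E ≤ μ.real D * b := by
  have h3 : (μ.prod ρ) E ≤ μ D * ENNReal.ofReal b := by
    rw [Measure.prod_apply hE, mul_comm, ← lintegral_indicator_const hD]
    refine lintegral_mono fun x => ?_
    by_cases hx : x ∈ D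
    · rw [Set.indicator_of_mem hx, ← ofReal_measureReal]
      exact ENNReal.ofReal_le_ofReal (h2 x)
    · have : Prod.mk x ⁻¹' E = ∅ := Set.eq_empty_of_forall_notMem fun y hy => hx (h1 _ hy)
      simp [this]
  have h4 := ENNReal.toReal_mono
    (ENNReal.mul_ne_top (measure_ne_top _ _) ENNReal.ofReal_ne_top) h3
  rwa [ENNReal.toReal_mul, ENNReal.toReal_ofReal hb] at h4

theorem kernelB_rpow {k M N : ℝ} (hk : 0 < k) (hM : 1 ≤ M) (h : k ≤ M * N) :
    N ^ (-(2 / 3) : ℝ) ≤ M * k ^ (-(2 / 3) : ℝ) := by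
  have hM0 : 0 < M := by linarith
  have h1 : k / M ≤ N := by rw [div_le_iff₀ hM0, mul_comm]; exact h
  refine (Real.rpow_le_rpow_of_nonpos (div_pos hk hM0) h1 (by norm_num)).trans ?_
  rw [Real.div_rpow hk.le hM0.le, Real.rpow_neg hM0.le, div_inv_eq_mul, mul_comm]
  refine mul_le_mul_of_nonneg_right ?_ (Real.rpow_nonneg hk.le _)
  exact Real.rpow_le_self_of_one_le hM (by norm_num)

/-- deviations of the size of a group of slots -/
theorem kernelB_dev (h : Slots1 ν s z) (h1 : T1 ν s A) : ∃ C : ℝ, 0 ≤ C ∧ ∀ (c : Core Ω J)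
    (K : Finset c.I) (x : ℝ), 1 ≤ x → (c.P ν).real {ω | x ≤ |((∑ i ∈ K, s (ω i) : ℕ) : ℝ) -
      ∑ i ∈ K, ∫ ω, (s ω : ℝ) ∂ν (c.cls i)|} ≤ C * c.k * x ^ (-(3 / 2) : ℝ) := by
  obtain ⟨C, hC⟩ := Core.dev_le h h1
  refine ⟨|C|, abs_nonneg _, fun c K x hx => ?_⟩
  have := h.prob
  obtain ⟨p, hp⟩ : ∃ p : c.I → Prop, ∀ i, i ∈ K ↔ p i := ⟨_, fun _ => Iff.rfl⟩
  classical
  have h2 : (Measure.pi fun i : Subtype p => ν (c.cls i)).real {ω | x ≤ |((0 + ∑ i, s (ω i) : ℕ) : ℝ) -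
      (((0 : ℕ) : ℝ) + ∑ i : Subtype p, ∫ ω, (s ω : ℝ) ∂ν (c.cls i))|} ≤
      C * (Fintype.card (Subtype p) : ℕ) * x ^ (-(3 / 2) : ℝ) :=
    hC (Core.free (Subtype p) (fun i => c.cls i) 0 0) x hx
  have hmp : MeasurePreserving (fun (ω : c.I → Ω) (i : Subtype p) => ω i) (c.P ν)
      (Measure.pi fun i : Subtype p => ν (c.cls i)) :=
    measurePreserving_fst.comp (measurePreserving_piEquivPiSubtypeProd (fun i => ν (c.cls i)) p)
  rw [← hmp.measureReal_preimage (MeasurableSet.of_discrete).nullMeasurableSet] at h2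
  have hk : ((Fintype.card (Subtype p) : ℕ) : ℝ) ≤ c.k := by
    have : Fintype.card (Subtype p) ≤ Fintype.card c.I := Fintype.card_subtype_le _
    exact_mod_cast this
  refine le_trans (le_of_eq ?_) (h2.trans ?_)
  · congr 1
    ext ω
    simp only [Set.mem_ofPred_eq, Set.mem_preimage, zero_add, Nat.cast_zero]
    rw [Finset.sum_subtype K hp fun i => s (ω i),
      Finset.sum_subtype K hp fun i => ∫ ω, (s ω : ℝ) ∂ν (c.cls i)]
  · refine mul_le_mul_of_nonneg_right ?_ (Real.rpow_nonneg (by linarith) _)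
    exact mul_le_mul (le_abs_self C) hk (Nat.cast_nonneg _) (abs_nonneg C)

omit [Fintype J] in
/-- one group deviates, the other one is spread -/
theorem kernelB_split (h : Slots1 ν s z) (c : Core Ω J) (K : Finset c.I) (D : Set ℕ) {b : ℝ}
    (hb : ∀ m : ℕ, (c.P ν).real {ω | ∑ i ∈ Kᶜ, s (ω i) = m} ≤ b) (n : ℤ) :
    (c.P ν).real {ω | (c.S s ω : ℤ) = n ∧ ∑ i ∈ K, s (ω i) ∈ D} ≤
      (c.P ν).real {ω | ∑ i ∈ K, s (ω i) ∈ D} * b := by
  have := h.prob
  have := Core.isProb h.prob c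
  have hmp : MeasurePreserving (fun p : (c.I → Ω) × (c.I → Ω) => K.piecewise p.1 p.2)
      ((c.P ν).prod (c.P ν)) (c.P ν) := measurePreserving_piecewise (fun i => ν (c.cls i)) K
  rw [← hmp.measureReal_preimage (MeasurableSet.of_discrete).nullMeasurableSet]
  have e1 : ∀ ω ω' : c.I → Ω, ∑ i ∈ K, s (K.piecewise ω ω' i) = ∑ i ∈ K, s (ω i) := fun ω ω' =>
    Finset.sum_congr rfl fun i hi => by rw [Finset.piecewise_eq_of_mem _ _ _ hi]
  have e2 : ∀ ω ω' : c.I → Ω, ∑ i ∈ Kᶜ, s (K.piecewise ω ω' i) = ∑ i ∈ Kᶜ, s (ω' i) := fun ω ω' =>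
    Finset.sum_congr rfl fun i hi => by
      rw [Finset.piecewise_eq_of_notMem _ _ _ (Finset.mem_compl.1 hi)]
  refine kernelB_prod_le _ _ MeasurableSet.of_discrete MeasurableSet.of_discrete
    (measureReal_nonneg.trans (hb 0)) (fun p hp => ?_) fun ω => ?_
  · have := hp.2
    rwa [e1] at this
  · refine le_trans (measureReal_mono ?_) (hb (n - c.s0 - (∑ i ∈ K, s (ω i) : ℕ)).toNat)
    intro ω' hω'
    have h3 : ((c.s0 + ∑ i, s (K.piecewise ω ω' i) : ℕ) : ℤ) = n := hω'.1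
    rw [← Finset.sum_add_sum_compl K, e1, e2] at h3
    simp only [Set.mem_ofPred_eq]
    omega

theorem kap_le (h : Slots1 ν s z) (h1 : T1 ν s A) (hc : 0 < c₀) (h4 : T4 (ν j₀) s c₀) (Δ : ℕ) :
    ∃ C : ℝ, ∀ c : Core Ω J, 1 ≤ c.k → c.k ≤ Δ * c.cnt j₀ → ∀ n : ℤ,
      c.kap ν s n ≤ C * (c.k : ℝ) ^ (-(2 / 3) : ℝ) *
        (1 + |n - c.mean ν s| / (c.k : ℝ) ^ (2 / 3 : ℝ)) ^ (-(3 / 2) : ℝ) := by
  classical
  have := h.prob
  obtain ⟨Cd, hCd, hdev⟩ := kernelB_dev h h1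
  obtain ⟨Cc', hconc'⟩ := conc_le (Ω := Ω) (s := s) hc
  set Cc := |Cc'| with hCc
  have hCc0 : 0 ≤ Cc := abs_nonneg _
  refine ⟨9 * Δ * Cc + 4 * (Cd * Δ + 24 * Δ * Cd * Cc), fun c hk1 hkΔ n => ?_⟩
  have := Core.isProb h.prob c
  set F : Finset c.I := Finset.univ.filter fun i => c.cls i = j₀ with hF
  have hFc : F.card = c.cnt j₀ := by
    rw [Core.cnt, Nat.card_eq_fintype_card, Fintype.card_subtype]
  have hN1 : 1 ≤ c.cnt j₀ := by
    by_contra hh
    have : c.cnt j₀ = 0 := by omega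
    rw [this] at hkΔ; omega
  have hΔ1 : 1 ≤ Δ := by
    by_contra hh
    have : Δ = 0 := by omega
    rw [this] at hkΔ; omega
  have hΔ1' : (1 : ℝ) ≤ Δ := by exact_mod_cast hΔ1
  have hk1' : (1 : ℝ) ≤ c.k := by exact_mod_cast hk1
  have hk0 : (0 : ℝ) < c.k := by linarith
  have hconc : ∀ (K K' : Finset c.I) (M : ℕ), K ⊆ F → K ⊆ K' → 1 ≤ M → c.k ≤ M * K.card →
      ∀ m : ℕ, (c.P ν).real {ω | ∑ i ∈ K', s (ω i) = m} ≤ Cc * (M * (c.k : ℝ) ^ (-(2 / 3) : ℝ)) := by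
    intro K K' M hKF hKK' hM hkM m
    have hne : K.Nonempty := by
      rw [← Finset.card_pos]
      by_contra hh
      have : K.card = 0 := by omega
      rw [this] at hkM; omega
    have h2 := hconc' c.I (fun i => ν (c.cls i)) K
      (fun i hi => by rw [(Finset.mem_filter.1 (hKF hi)).2]; exact h4) hne K' hKK' m
    refine h2.trans (mul_le_mul (le_abs_self _) ?_ (by positivity) hCc0)
    exact kernelB_rpow hk0 (by exact_mod_cast hM) (by exact_mod_cast hkM)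
  set d : ℝ := |n - c.mean ν s| with hd
  set y : ℝ := (c.k : ℝ) ^ (2 / 3 : ℝ) with hy
  set κ : ℝ := (c.k : ℝ) ^ (-(2 / 3) : ℝ) with hκ
  have hy1 : 1 ≤ y := Real.one_le_rpow hk1' (by norm_num)
  have hy0 : 0 < y := by linarith
  have hκ0 : 0 < κ := Real.rpow_pos_of_pos hk0 _
  have hd0 : 0 ≤ d := abs_nonneg _
  have hT0 : 0 ≤ (1 + d / y) ^ (-(3 / 2) : ℝ) := by positivity
  have hA0 : 0 ≤ 9 * Δ * Cc := by positivity
  have hB0 : 0 ≤ Cd * Δ + 24 * Δ * Cd * Cc := by positivity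
  rcases le_total (d / y) 2 with hu | hu
  · have e1 : c.kap ν s n ≤ Cc * (Δ * κ) := by
      refine le_trans (measureReal_mono ?_)
        (hconc F Finset.univ Δ subset_rfl (Finset.subset_univ _) hΔ1 (hFc ▸ hkΔ) (n - c.s0).toNat)
      intro ω hω
      have h3 : ((c.s0 + ∑ i, s (ω i) : ℕ) : ℤ) = n := hω
      simp only [Set.mem_ofPred_eq]
      omega
    have e2 : (1 / 9 : ℝ) ≤ (1 + d / y) ^ (-(3 / 2) : ℝ) := by
      calc (1 / 9 : ℝ) = 3 ^ (-2 : ℝ) := by rw [Real.rpow_neg (by norm_num), Real.rpow_two]; norm_num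
        _ ≤ 3 ^ (-(3 / 2) : ℝ) := Real.rpow_le_rpow_of_exponent_le (by norm_num) (by norm_num)
        _ ≤ _ := Real.rpow_le_rpow_of_nonpos (by positivity) (by linarith) (by norm_num)
    have e3 := mul_le_mul_of_nonneg_left e2 (mul_nonneg hA0 hκ0.le)
    have e4 := mul_nonneg (mul_nonneg hB0 hκ0.le) hT0
    nlinarith
  · have hdy : 2 * y ≤ d := by rwa [le_div_iff₀ hy0] at hu
    have hd2 : 2 ≤ d := by linarith
    have hdp : 0 < d := by linarith
    set δ : ℝ := d ^ (-(3 / 2) : ℝ) with hδ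
    have hδ0 : 0 < δ := Real.rpow_pos_of_pos hdp _
    have h2pow : (2 : ℝ) ^ (3 / 2 : ℝ) ≤ 4 := by
      calc (2 : ℝ) ^ (3 / 2 : ℝ) ≤ 2 ^ (2 : ℝ) :=
            Real.rpow_le_rpow_of_exponent_le (by norm_num) (by norm_num)
        _ = 4 := by rw [Real.rpow_two]; norm_num
    have e1 : c.k * δ ≤ 4 * (1 + d / y) ^ (-(3 / 2) : ℝ) := by
      have a1 : (2 * (d / y)) ^ (-(3 / 2) : ℝ) ≤ (1 + d / y) ^ (-(3 / 2) : ℝ) :=
        Real.rpow_le_rpow_of_nonpos (by positivity) (by linarith) (by norm_num)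
      have a2 : (2 * (d / y)) ^ (-(3 / 2) : ℝ) = ((2 : ℝ) ^ (3 / 2 : ℝ))⁻¹ * (c.k * δ) := by
        rw [Real.mul_rpow (by norm_num) (by positivity), Real.div_rpow hd0 hy0.le,
          Real.rpow_neg (by norm_num : (0 : ℝ) ≤ 2), hy, ← Real.rpow_mul hk0.le,
          show (2 / 3 * -(3 / 2) : ℝ) = -1 by norm_num, Real.rpow_neg_one, div_inv_eq_mul,
          mul_comm δ]
      have a3 : (4 : ℝ)⁻¹ ≤ ((2 : ℝ) ^ (3 / 2 : ℝ))⁻¹ := inv_anti₀ (by positivity) h2pow
      have a4 := mul_le_mul_of_nonneg_right a3 (mul_nonneg hk0.le hδ0.le)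
      linarith
    have e2 : c.kap ν s n ≤ (Cd * Δ + 24 * Δ * Cd * Cc) * (κ * (c.k * δ)) := by
      have p1 : 0 ≤ κ * (c.k * δ) := by positivity
      have hsum : ∀ (K : Finset c.I) (ω : c.I → Ω), (c.S s ω : ℝ) - c.mean ν s =
          (((∑ i ∈ K, s (ω i) : ℕ) : ℝ) - ∑ i ∈ K, ∫ ω, (s ω : ℝ) ∂ν (c.cls i)) +
          (((∑ i ∈ Kᶜ, s (ω i) : ℕ) : ℝ) - ∑ i ∈ Kᶜ, ∫ ω, (s ω : ℝ) ∂ν (c.cls i)) := by
        intro K ω
        rw [Core.S, Core.mean, ← Finset.sum_add_sum_compl K, ← Finset.sum_add_sum_compl K]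
        push_cast; ring
      have hS : ∀ ω, (c.S s ω : ℤ) = n → d = |(c.S s ω : ℝ) - c.mean ν s| := by
        intro ω hω
        rw [hd, ← hω]; norm_cast
      rcases Nat.lt_or_ge (c.cnt j₀) 2 with hN | hN
      · have hkΔ' : (c.k : ℝ) ≤ Δ := by
          have : c.cnt j₀ = 1 := by omega
          rw [this, mul_one] at hkΔ
          exact_mod_cast hkΔ
        have a1 : c.kap ν s n ≤ Cd * c.k * δ := by
          refine le_trans (measureReal_mono ?_) (hdev c Finset.univ d (by linarith))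
          intro ω hω
          have h3 := hS ω hω
          rw [hsum Finset.univ] at h3
          simp only [Finset.compl_univ, Finset.sum_empty, Nat.cast_zero, sub_zero, add_zero] at h3
          exact h3.le
        have a2 : 1 ≤ Δ * κ := by
          have := kernelB_rpow (N := 1) hk0 hΔ1' (by linarith)
          rwa [Real.one_rpow] at this
        have a3 := mul_le_mul_of_nonneg_left a2 (show 0 ≤ Cd * c.k * δ by positivity)
        have a4 : 0 ≤ 24 * Δ * Cd * Cc * (κ * (c.k * δ)) := by positivity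
        nlinarith
      · obtain ⟨K, hKF, hKc⟩ := Finset.exists_subset_card_eq
          (show c.cnt j₀ / 2 ≤ F.card by rw [hFc]; omega)
        have hx : (1 : ℝ) ≤ d / 2 := by linarith
        have hx2 : (d / 2) ^ (-(3 / 2) : ℝ) ≤ 4 * δ := by
          rw [Real.div_rpow hd0 (by norm_num), Real.rpow_neg (by norm_num : (0 : ℝ) ≤ 2),
            div_inv_eq_mul, mul_comm]
          exact mul_le_mul_of_nonneg_right h2pow hδ0.le
        have hone : ∀ K1 K2 : Finset c.I, K2 ⊆ F → K2 ⊆ K1ᶜ → c.cnt j₀ ≤ 3 * K2.card →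
            (c.P ν).real {ω | (c.S s ω : ℤ) = n ∧ ∑ i ∈ K1, s (ω i) ∈
              {m : ℕ | d / 2 ≤ |(m : ℝ) - ∑ i ∈ K1, ∫ ω, (s ω : ℝ) ∂ν (c.cls i)|}} ≤
              12 * Δ * Cd * Cc * (κ * (c.k * δ)) := by
          intro K1 K2 hK2 hK2' hcard
          have b1 := hconc K2 K1ᶜ (3 * Δ) hK2 hK2' (by omega)
            (hkΔ.trans ((Nat.mul_le_mul_left Δ hcard).trans_eq (by ring)))
          refine (kernelB_split h c K1 _ b1 n).trans ?_
          have b2 := (hdev c K1 (d / 2) hx).trans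
            (mul_le_mul_of_nonneg_left hx2 (by positivity))
          refine (mul_le_mul_of_nonneg_right b2 (by positivity)).trans_eq ?_
          push_cast; ring
        have a1 := hone K (F \ K) Finset.sdiff_subset
          (fun i hi => Finset.mem_compl.2 (Finset.mem_sdiff.1 hi).2)
          (by rw [Finset.card_sdiff_of_subset hKF, hFc, hKc]; omega)
        have a2 := hone Kᶜ K hKF (by rw [compl_compl]) (by rw [hKc]; omega)
        have a3 : c.kap ν s n ≤ _ := (measureReal_mono ?_).trans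
          ((measureReal_union_le _ _).trans (add_le_add a1 a2))
        · have a4 : 0 ≤ Cd * Δ * (κ * (c.k * δ)) := by positivity
          nlinarith
        · intro ω hω
          have h3 := hS ω hω
          rw [hsum K] at h3
          by_contra hh
          simp only [Set.mem_union, Set.mem_ofPred_eq, not_or, not_and, not_le] at hh
          have b1 := hh.1 hω
          have b2 := hh.2 hω
          have := abs_add_le (((∑ i ∈ K, s (ω i) : ℕ) : ℝ) - ∑ i ∈ K, ∫ ω, (s ω : ℝ) ∂ν (c.cls i))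
            (((∑ i ∈ Kᶜ, s (ω i) : ℕ) : ℝ) - ∑ i ∈ Kᶜ, ∫ ω, (s ω : ℝ) ∂ν (c.cls i))
          linarith
    have e3 := mul_le_mul_of_nonneg_left e1 (mul_nonneg hB0 hκ0.le)
    have e4 := mul_nonneg (mul_nonneg hA0 hκ0.le) hT0
    nlinarith

end Pool.Agent.Lib.MP_77dff5_pr
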