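import Pool.Agent.Lib.MP_77dff5_pr.KernelCAux1

/-! The analytic part of the stable local limit theorem. -/

set_option autoImplicit false

namespace Pool.Agent.Lib.MP_77dff5_pr

open MeasureTheory ProbabilityTheory Filter Topology Set
open scoped ENNReal NNReal

theorem kernelC_int_exp {b : ℝ} (hb : 0 < b) :
    Integrable fun ξ : ℝ => Real.exp (-(b * |ξ| ^ (3 / 2 : ℝ))) := by
  have h1 : IntegrableOn (fun ξ : ℝ => Real.exp (-(b * |ξ| ^ (3 / 2 : ℝ)))) (Ioi 0) := by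
    refine (integrableOn_rpow_mul_exp_neg_mul_rpow (s := 0) (p := 3 / 2) (by norm_num)
      (by norm_num) hb).congr_fun (fun x hx => ?_) measurableSet_Ioi
    simp only [Real.rpow_zero, one_mul, abs_of_pos (show 0 < x from hx), neg_mul]
  have h2 : IntegrableOn (fun ξ : ℝ => Real.exp (-(b * |ξ| ^ (3 / 2 : ℝ)))) (Iio 0) := by
    have := IntegrableOn.comp_neg_Iio (c := 0) (f := fun ξ : ℝ => Real.exp (-(b * |ξ| ^ (3 / 2 : ℝ))))
      (μ := volume) (by simpa using h1)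
    simpa using this
  rw [← integrableOn_univ, ← Iio_union_Ici (a := (0 : ℝ)), integrableOn_union,
    integrableOn_Ici_iff_integrableOn_Ioi]
  exact ⟨h2, h1⟩

theorem kernelC_psi_cont (γ₁ γ₂ : ℝ) : Continuous (psiS γ₁ γ₂) := by
  have h1 : Continuous fun ξ : ℝ => |ξ| ^ (3 / 2 : ℝ) :=
    continuous_abs.rpow_const fun _ => Or.inr (by norm_num)
  have h2 : Continuous fun ξ : ℝ => |ξ| ^ (1 / 2 : ℝ) :=
    continuous_abs.rpow_const fun _ => Or.inr (by norm_num)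
  unfold psiS
  fun_prop

theorem kernelC_norm_exp_psi (γ₁ γ₂ ξ : ℝ) :
    ‖Complex.exp (-psiS γ₁ γ₂ ξ)‖ = Real.exp (-(γ₁ * |ξ| ^ (3 / 2 : ℝ))) := by
  rw [Complex.norm_exp]
  simp only [psiS, Complex.neg_re, Complex.add_re, Complex.ofReal_re, Complex.mul_re, Complex.I_re,
    Complex.I_im, Complex.ofReal_im, zero_mul, mul_zero, sub_zero, add_zero]

theorem kernelC_abs_scale {k : ℝ} (hk : 0 < k) (ξ : ℝ) :
    k * |ξ / k ^ (2 / 3 : ℝ)| ^ (3 / 2 : ℝ) = |ξ| ^ (3 / 2 : ℝ) := by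
  have ha : 0 < k ^ (2 / 3 : ℝ) := Real.rpow_pos_of_pos hk _
  rw [abs_div, abs_of_pos ha, Real.div_rpow (abs_nonneg _) ha.le, ← Real.rpow_mul hk.le]
  norm_num
  field_simp

theorem kernelC_psi_scale (γ₁ γ₂ : ℝ) {k : ℝ} (hk : 0 < k) (ξ : ℝ) :
    (k : ℂ) * psiS γ₁ γ₂ (ξ / k ^ (2 / 3 : ℝ)) = psiS γ₁ γ₂ ξ := by
  have ha : 0 < k ^ (2 / 3 : ℝ) := Real.rpow_pos_of_pos hk _
  have h1 := kernelC_abs_scale hk ξ
  have h2 : k * (ξ / k ^ (2 / 3 : ℝ) * |ξ / k ^ (2 / 3 : ℝ)| ^ (1 / 2 : ℝ)) =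
      ξ * |ξ| ^ (1 / 2 : ℝ) := by
    rw [abs_div, abs_of_pos ha, Real.div_rpow (abs_nonneg _) ha.le, ← Real.rpow_mul hk.le]
    have h3 : k ^ (2 / 3 : ℝ) * k ^ (2 / 3 * (1 / 2) : ℝ) = k := by
      rw [← Real.rpow_add hk]; norm_num
    have h4 : 0 < k ^ (2 / 3 * (1 / 2) : ℝ) := Real.rpow_pos_of_pos hk _
    rw [div_mul_div_comm, h3]
    field_simp
  unfold psiS
  rw [← h1, mul_assoc γ₂ ξ, ← h2]
  push_cast
  ring

theorem kernelC_tendsto_a : Tendsto (fun k : ℕ => (k : ℝ) ^ (2 / 3 : ℝ)) atTop atTop :=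
  (tendsto_rpow_atTop (by norm_num)).comp tendsto_natCast_atTop_atTop

theorem kernelC_pointwise {ψ : ℝ → ℂ} {γ₁ γ₂ : ℝ}
    (he : (fun t : ℝ => ψ t - 1 + psiS γ₁ γ₂ t) =o[𝓝 0] fun t : ℝ => |t| ^ (3 / 2 : ℝ)) (ξ : ℝ) :
    Tendsto (fun k : ℕ => ψ (ξ / (k : ℝ) ^ (2 / 3 : ℝ)) ^ k) atTop
      (𝓝 (Complex.exp (-psiS γ₁ γ₂ ξ))) := by
  have t0 : Tendsto (fun k : ℕ => ξ / (k : ℝ) ^ (2 / 3 : ℝ)) atTop (𝓝 0) :=
    tendsto_const_nhds.div_atTop kernelC_tendsto_a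
  have t1 : Tendsto (fun k : ℕ => (k : ℂ) * (ψ (ξ / (k : ℝ) ^ (2 / 3 : ℝ)) - 1 +
      psiS γ₁ γ₂ (ξ / (k : ℝ) ^ (2 / 3 : ℝ)))) atTop (𝓝 0) := by
    have h1 := (Asymptotics.isBigO_refl (fun k : ℕ => (k : ℝ)) atTop).mul_isLittleO
      (he.comp_tendsto t0).norm_left
    have h2 : (fun k : ℕ => (k : ℝ) * ((fun t : ℝ => |t| ^ (3 / 2 : ℝ)) ∘
        fun k : ℕ => ξ / (k : ℝ) ^ (2 / 3 : ℝ)) k) =O[atTop] fun _ : ℕ => (1 : ℝ) := by
      refine (Asymptotics.isBigO_const_const (|ξ| ^ (3 / 2 : ℝ)) one_ne_zero atTop).congr' ?_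
        EventuallyEq.rfl
      filter_upwards [eventually_gt_atTop 0] with k hk
      exact (kernelC_abs_scale (by exact_mod_cast hk) ξ).symm
    have h3 := (Asymptotics.isLittleO_one_iff ℝ).1 (h1.trans_isBigO h2)
    rw [tendsto_zero_iff_norm_tendsto_zero]
    refine h3.congr fun k => ?_
    simp only [norm_mul, Complex.norm_natCast, Function.comp_apply]
  have t2 : Tendsto (fun k : ℕ => (k : ℂ) * (ψ (ξ / (k : ℝ) ^ (2 / 3 : ℝ)) - 1)) atTop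
      (𝓝 (-psiS γ₁ γ₂ ξ)) := by
    have := t1.sub_const (psiS γ₁ γ₂ ξ)
    rw [zero_sub] at this
    refine this.congr' ?_
    filter_upwards [eventually_gt_atTop 0] with k hk
    have h1 := kernelC_psi_scale γ₁ γ₂ (k := k) (by exact_mod_cast hk) ξ
    rw [Complex.ofReal_natCast] at h1
    rw [← h1]; ring
  simpa using Complex.tendsto_one_add_pow_exp_of_tendsto t2

/-- the rescaled characteristic function -/
noncomputable def kernelC_f (ψ : ℝ → ℂ) (k : ℕ) : ℝ → ℂ :=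
  (Ioc (-Real.pi * (k : ℝ) ^ (2 / 3 : ℝ)) (Real.pi * (k : ℝ) ^ (2 / 3 : ℝ))).indicator
    fun ξ => ψ (ξ / (k : ℝ) ^ (2 / 3 : ℝ)) ^ k

theorem kernelC_f_meas {ψ : ℝ → ℂ} (hψ : Continuous ψ) (k : ℕ) : Measurable (kernelC_f ψ k) :=
  Measurable.indicator ((hψ.comp (continuous_id.div_const _)).pow k).measurable measurableSet_Ioc

theorem kernelC_f_le {ψ : ℝ → ℂ} {c₀ : ℝ}
    (h4 : ∀ t : ℝ, |t| ≤ Real.pi → ‖ψ t‖ ≤ 1 - c₀ * |t| ^ (3 / 2 : ℝ)) {k : ℕ} (hk : 0 < k)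
    (ξ : ℝ) : ‖kernelC_f ψ k ξ‖ ≤ Real.exp (-(c₀ * |ξ| ^ (3 / 2 : ℝ))) := by
  have hk' : (0 : ℝ) < k := by exact_mod_cast hk
  have ha : 0 < (k : ℝ) ^ (2 / 3 : ℝ) := Real.rpow_pos_of_pos hk' _
  unfold kernelC_f
  by_cases hξ : ξ ∈ Ioc (-Real.pi * (k : ℝ) ^ (2 / 3 : ℝ)) (Real.pi * (k : ℝ) ^ (2 / 3 : ℝ))
  · rw [indicator_of_mem hξ, norm_pow, ← kernelC_abs_scale hk' ξ]
    have h1 : |ξ / (k : ℝ) ^ (2 / 3 : ℝ)| ≤ Real.pi := by
      rw [abs_le, le_div_iff₀ ha, div_le_iff₀ ha]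
      exact ⟨hξ.1.le, hξ.2⟩
    have h2 := (h4 _ h1).trans (Real.one_sub_le_exp_neg _)
    calc _ ≤ Real.exp (-(c₀ * |ξ / (k : ℝ) ^ (2 / 3 : ℝ)| ^ (3 / 2 : ℝ))) ^ k :=
          pow_le_pow_left₀ (norm_nonneg _) h2 k
      _ = _ := by rw [← Real.exp_nat_mul]; congr 1; ring
  · rw [indicator_of_notMem hξ, norm_zero]
    exact (Real.exp_pos _).le

theorem kernelC_D {ψ : ℝ → ℂ} (hψ : Continuous ψ) {c₀ γ₁ γ₂ : ℝ} (hc : 0 < c₀) (hγ : 0 < γ₁)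
    (h4 : ∀ t : ℝ, |t| ≤ Real.pi → ‖ψ t‖ ≤ 1 - c₀ * |t| ^ (3 / 2 : ℝ))
    (he : (fun t : ℝ => ψ t - 1 + psiS γ₁ γ₂ t) =o[𝓝 0] fun t : ℝ => |t| ^ (3 / 2 : ℝ)) :
    Tendsto (fun k : ℕ => ∫ ξ : ℝ, ‖kernelC_f ψ k ξ - Complex.exp (-psiS γ₁ γ₂ ξ)‖) atTop
      (𝓝 0) := by
  have h0 : (0 : ℝ) = ∫ _ : ℝ, (0 : ℝ) := by simp
  rw [h0]
  refine tendsto_integral_filter_of_dominated_convergence (fun ξ =>
    Real.exp (-(c₀ * |ξ| ^ (3 / 2 : ℝ))) + Real.exp (-(γ₁ * |ξ| ^ (3 / 2 : ℝ)))) ?_ ?_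
    ((kernelC_int_exp hc).add (kernelC_int_exp hγ)) ?_
  · refine Eventually.of_forall fun k => Measurable.aestronglyMeasurable ?_
    exact ((kernelC_f_meas hψ k).sub (kernelC_psi_cont γ₁ γ₂).neg.cexp.measurable).norm
  · filter_upwards [eventually_gt_atTop 0] with k hk
    refine Eventually.of_forall fun ξ => ?_
    rw [norm_norm, ← kernelC_norm_exp_psi γ₁ γ₂]
    exact (norm_sub_le _ _).trans (add_le_add_left (kernelC_f_le h4 hk ξ) _)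
  · refine Eventually.of_forall fun ξ => ?_
    rw [← tendsto_iff_norm_sub_tendsto_zero]
    refine (kernelC_pointwise he ξ).congr' ?_
    filter_upwards [kernelC_tendsto_a.eventually_gt_atTop |ξ|] with k hk
    have h1 := abs_nonneg ξ
    have h2 := Real.pi_gt_three
    have h3 := abs_le.1 hk.le
    unfold kernelC_f
    rw [indicator_of_mem]
    constructor <;> nlinarith [h3.1, h3.2, abs_lt.1 hk]

theorem kernelC_main {ψ : ℝ → ℂ} (hψ : Continuous ψ) {c₀ γ₁ γ₂ : ℝ} (hc : 0 < c₀) (hγ : 0 < γ₁)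
    (h4 : ∀ t : ℝ, |t| ≤ Real.pi → ‖ψ t‖ ≤ 1 - c₀ * |t| ^ (3 / 2 : ℝ)) {k : ℕ} (hk : 0 < k)
    (x : ℝ) :
    ‖(((k : ℝ) ^ (2 / 3 : ℝ) : ℝ) : ℂ) * ((2 * Real.pi : ℂ)⁻¹ * ∫ t in (-Real.pi)..Real.pi,
        Complex.exp (-(Complex.I * ((t * x : ℝ) : ℂ))) * ψ t ^ k) -
      aS γ₁ γ₂ (x / (k : ℝ) ^ (2 / 3 : ℝ))‖ ≤
      ∫ ξ : ℝ, ‖kernelC_f ψ k ξ - Complex.exp (-psiS γ₁ γ₂ ξ)‖ := by
  have hk' : (0 : ℝ) < k := by exact_mod_cast hk
  have ha : 0 < (k : ℝ) ^ (2 / 3 : ℝ) := Real.rpow_pos_of_pos hk' _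
  set a : ℝ := (k : ℝ) ^ (2 / 3 : ℝ) with ha'
  set E : ℝ → ℂ := fun ξ => Complex.exp (-(Complex.I * ((x / a * ξ : ℝ) : ℂ))) with hE
  have nE : ∀ ξ, ‖E ξ‖ = 1 := fun ξ => by
    simp only [hE]
    rw [← mul_neg, ← Complex.ofReal_neg, Complex.norm_exp_I_mul_ofReal]
  have cE : Continuous E := by simp only [hE]; fun_prop
  have e1 : (a : ℂ) * ∫ t in (-Real.pi)..Real.pi,
      Complex.exp (-(Complex.I * ((t * x : ℝ) : ℂ))) * ψ t ^ k =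
      ∫ ξ : ℝ, E ξ * kernelC_f ψ k ξ := by
    have h1 := intervalIntegral.integral_comp_div (a := -Real.pi * a) (b := Real.pi * a)
      (fun t : ℝ => Complex.exp (-(Complex.I * ((t * x : ℝ) : ℂ))) * ψ t ^ k) ha.ne'
    rw [mul_div_cancel_right₀ _ ha.ne', mul_div_cancel_right₀ _ ha.ne', Complex.real_smul] at h1
    rw [← h1, intervalIntegral.integral_of_le (by nlinarith [Real.pi_pos]),
      ← integral_indicator measurableSet_Ioc]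
    refine integral_congr_ae (Eventually.of_forall fun ξ => ?_)
    simp only [kernelC_f, hE, ← ha']
    by_cases hξ : ξ ∈ Ioc (-Real.pi * a) (Real.pi * a)
    · rw [indicator_of_mem hξ, indicator_of_mem hξ, show ξ / a * x = x / a * ξ by ring]
    · rw [indicator_of_notMem hξ, indicator_of_notMem hξ, mul_zero]
  have i1 : Integrable fun ξ : ℝ => E ξ * kernelC_f ψ k ξ := by
    refine Integrable.mono' (kernelC_int_exp hc)
      (cE.measurable.mul (kernelC_f_meas hψ k)).aestronglyMeasurable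
      (Eventually.of_forall fun ξ => ?_)
    rw [norm_mul, nE, one_mul]
    exact kernelC_f_le h4 hk ξ
  have i2 : Integrable fun ξ : ℝ => E ξ * Complex.exp (-psiS γ₁ γ₂ ξ) := by
    refine Integrable.mono' (kernelC_int_exp hγ)
      (cE.mul (kernelC_psi_cont γ₁ γ₂).neg.cexp).aestronglyMeasurable
      (Eventually.of_forall fun ξ => ?_)
    rw [norm_mul, nE, one_mul, kernelC_norm_exp_psi]
  rw [mul_left_comm, e1, aS, ← mul_sub, ← integral_sub i1 i2, norm_mul]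
  have h2 : ‖(2 * Real.pi : ℂ)⁻¹‖ ≤ 1 := by
    rw [norm_inv]
    refine inv_le_one_of_one_le₀ ?_
    rw [norm_mul, Complex.norm_real, Real.norm_of_nonneg Real.pi_pos.le, Complex.norm_two]
    linarith [Real.pi_gt_three]
  refine (mul_le_of_le_one_left (norm_nonneg _) h2).trans ((norm_integral_le_integral_norm _).trans
    (le_of_eq (integral_congr_ae (Eventually.of_forall fun ξ => ?_))))
  simp only
  rw [← mul_sub, norm_mul, nE, one_mul]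

end Pool.Agent.Lib.MP_77dff5_pr
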