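import Pool.Agent.Lib.MP_77dff5_pr.KernelA
import Pool.Agent.Lib.MP_77dff5_pr.KernelCAux2

/-! Local estimates for the size of a filled core. -/

set_option autoImplicit false

namespace Pool.Agent.Lib.MP_77dff5_pr

open MeasureTheory ProbabilityTheory Filter Topology
open scoped ENNReal NNReal

variable {Ω J : Type} [Countable Ω] [MeasurableSpace Ω] [DiscreteMeasurableSpace Ω] [Fintype J]
  {ν : J → Measure Ω} {s : Ω → ℕ} {z : Ω → ℝ} {A c₀ : ℝ} {j₀ : J}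

omit [Countable Ω] in
theorem kernelC_phi_cont (μ : Measure Ω) [IsProbabilityMeasure μ] (s : Ω → ℕ) :
    Continuous (phi μ s) := by
  unfold phi
  refine continuous_of_dominated (bound := fun _ => 1) (fun t => ?_) (fun t => ?_)
    (integrable_const 1) ?_
  · exact (Measurable.of_discrete).aestronglyMeasurable
  · exact Eventually.of_forall fun ω => (Complex.norm_exp_I_mul_ofReal _).le
  · exact Eventually.of_forall fun ω => by fun_prop

omit [Countable Ω] [DiscreteMeasurableSpace Ω] in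
theorem kernelC_triv {μ : Measure Ω} [IsProbabilityMeasure μ] (h : μ {ω | s ω ≠ 0} = 0) (t : ℝ) :
    phi μ s t = 1 ∧ ∫ ω, (s ω : ℝ) ∂μ = 0 := by
  have h1 : ∀ᵐ ω ∂μ, s ω = 0 := h
  constructor
  · have : phi μ s t = ∫ _, (1 : ℂ) ∂μ := by
      refine integral_congr_ae ?_
      filter_upwards [h1] with ω hω
      simp [hω]
    rw [this]; simp
  · refine integral_eq_zero_of_ae ?_
    filter_upwards [h1] with ω hω
    simp [hω]

omit [Countable Ω] [MeasurableSpace Ω] [DiscreteMeasurableSpace Ω] [Fintype J] in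
open Classical in
theorem kernelC_cnt (c : Core Ω J) (j : J) :
    c.cnt j = (Finset.univ.filter fun i => c.cls i = j).card := by
  rw [Core.cnt, Nat.card_eq_fintype_card, Fintype.card_subtype]

omit [Countable Ω] [DiscreteMeasurableSpace Ω] [Fintype J] in
theorem kernelC_char (h : Slots1 ν s z) (c : Core Ω J)
    (htr : ∀ i, c.cls i ≠ j₀ → ν (c.cls i) {ω | s ω ≠ 0} = 0) (t : ℝ) :
    ∫ ω, Complex.exp (Complex.I * ((t * c.S s ω : ℝ) : ℂ)) ∂c.P ν =
      Complex.exp (Complex.I * ((t * c.s0 : ℝ) : ℂ)) * phi (ν j₀) s t ^ c.cnt j₀ ∧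
    c.mean ν s = c.s0 + c.cnt j₀ * ∫ ω, (s ω : ℝ) ∂ν j₀ := by
  classical
  have := h.prob
  constructor
  · have e1 : ∀ ω : c.I → Ω, Complex.exp (Complex.I * ((t * c.S s ω : ℝ) : ℂ)) =
        Complex.exp (Complex.I * ((t * c.s0 : ℝ) : ℂ)) *
          ∏ i, Complex.exp (Complex.I * ((t * s (ω i) : ℝ) : ℂ)) := by
      intro ω
      rw [← Complex.exp_sum, ← Complex.exp_add, Core.S]
      congr 1
      push_cast
      rw [mul_add, mul_add, Finset.mul_sum, Finset.mul_sum]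
    simp only [e1]
    rw [integral_const_mul, Core.P, integral_fintype_prod_eq_prod
      (f := fun (_ : c.I) (ω : Ω) => Complex.exp (Complex.I * ((t * s ω : ℝ) : ℂ))), kernelC_cnt,
      ← Finset.prod_const, Finset.prod_filter]
    congr 1
    refine Finset.prod_congr rfl fun i _ => ?_
    split_ifs with hi
    · rw [hi]; rfl
    · exact (kernelC_triv (htr i hi) t).1
  · rw [Core.mean, kernelC_cnt, ← nsmul_eq_mul, ← Finset.sum_const, Finset.sum_filter]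
    congr 1
    refine Finset.sum_congr rfl fun i _ => ?_
    split_ifs with hi
    · rw [hi]
    · exact (kernelC_triv (htr i hi) 0).2

theorem kernelC_centre {φ : ℝ → ℂ} {m γ₁ γ₂ : ℝ}
    (he : (fun t : ℝ => φ t - 1 - Complex.I * ((t * m : ℝ) : ℂ) + psiS γ₁ γ₂ t) =o[𝓝 0]
      fun t : ℝ => |t| ^ (3 / 2 : ℝ)) :
    (fun t : ℝ => φ t * Complex.exp (-(Complex.I * ((t * m : ℝ) : ℂ))) - 1 + psiS γ₁ γ₂ t) =o[𝓝 0]
      fun t : ℝ => |t| ^ (3 / 2 : ℝ) := by
  set E : ℝ → ℂ := fun t => Complex.exp (-(Complex.I * ((t * m : ℝ) : ℂ))) with hE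
  have nE : ∀ t, ‖E t‖ = 1 := fun t => by
    simp only [hE]
    rw [← mul_neg, ← Complex.ofReal_neg, Complex.norm_exp_I_mul_ofReal]
  have bE : E =O[𝓝 0] fun _ => (1 : ℝ) :=
    Asymptotics.IsBigO.of_bound 1 (Eventually.of_forall fun t => by simp [nE])
  have cE : (fun t => 1 - E t) =o[𝓝 0] fun _ => (1 : ℝ) := by
    rw [Asymptotics.isLittleO_one_iff]
    have : Continuous fun t => 1 - E t := by simp only [hE]; fun_prop
    simpa [hE] using this.tendsto 0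
  have bP : psiS γ₁ γ₂ =O[𝓝 0] fun t : ℝ => |t| ^ (3 / 2 : ℝ) := by
    refine Asymptotics.IsBigO.of_bound (|γ₁| + |γ₂|) (Eventually.of_forall fun t => ?_)
    have h1 : |t| ^ (3 / 2 : ℝ) = |t| * |t| ^ (1 / 2 : ℝ) := by
      rw [← Real.rpow_one_add' (abs_nonneg t) (by norm_num)]; norm_num
    have h2 : 0 ≤ |t| ^ (3 / 2 : ℝ) := Real.rpow_nonneg (abs_nonneg t) _
    have h3 : 0 ≤ |t| ^ (1 / 2 : ℝ) := Real.rpow_nonneg (abs_nonneg t) _
    refine (norm_add_le _ _).trans (le_of_eq ?_)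
    rw [norm_mul, Complex.norm_I, one_mul, Complex.norm_real, Complex.norm_real, Real.norm_eq_abs,
      Real.norm_eq_abs, Real.norm_eq_abs, abs_mul, abs_mul, abs_mul, abs_of_nonneg h2,
      abs_of_nonneg h3, h1]
    ring
  have bG : (fun t : ℝ => kernelC_G (t * m)) =o[𝓝 0] fun t : ℝ => |t| ^ (3 / 2 : ℝ) := by
    have h1 : (fun t : ℝ => kernelC_G (t * m)) =O[𝓝 0]
        fun t : ℝ => |t| ^ (1 / 2 : ℝ) * |t| ^ (3 / 2 : ℝ) := by
      refine Asymptotics.IsBigO.of_bound (2 * m ^ 2) (Eventually.of_forall fun t => ?_)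
      rw [← Real.rpow_add' (abs_nonneg t) (by norm_num), show (1 / 2 + 3 / 2 : ℝ) = 2 by norm_num,
        Real.rpow_two, sq_abs, Real.norm_of_nonneg (sq_nonneg t)]
      refine (kernelC_G_le_sq _).trans (le_of_eq ?_)
      ring
    have h2 : (fun t : ℝ => |t| ^ (1 / 2 : ℝ)) =o[𝓝 0] fun _ => (1 : ℝ) := by
      rw [Asymptotics.isLittleO_one_iff]
      have : Continuous fun t : ℝ => |t| ^ (1 / 2 : ℝ) :=
        continuous_abs.rpow_const fun _ => Or.inr (by norm_num)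
      simpa using this.tendsto 0
    refine h1.trans_isLittleO ?_
    simpa using h2.mul_isBigO (Asymptotics.isBigO_refl (fun t : ℝ => |t| ^ (3 / 2 : ℝ)) (𝓝 0))
  have k1 := (he.sub bG).mul_isBigO bE
  have k2 := bP.mul_isLittleO cE
  simp only [mul_one] at k1 k2
  refine (k1.add k2).congr_left fun t => ?_
  have h1 : Complex.exp (Complex.I * ((t * m : ℝ) : ℂ)) * E t = 1 := by
    simp only [hE]
    rw [← Complex.exp_add, add_neg_cancel, Complex.exp_zero]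
  change _ = φ t * E t - 1 + psiS γ₁ γ₂ t
  unfold kernelC_G
  linear_combination (-1 : ℂ) * h1

omit [Fintype J] in
/-- stable local limit theorem -/
theorem kap_llt (h : Slots1 ν s z) (hc : 0 < c₀) (h4 : T4 (ν j₀) s c₀) {γ₁ γ₂ : ℝ} (hγ : 0 < γ₁)
    (he : (fun t : ℝ => phi (ν j₀) s t - 1 - Complex.I * ((t * ∫ ω, (s ω : ℝ) ∂ν j₀ : ℝ) : ℂ) +
      psiS γ₁ γ₂ t) =o[𝓝 0] fun t : ℝ => |t| ^ (3 / 2 : ℝ)) {ε : ℝ} (hε : 0 < ε) :
    ∃ k0 : ℕ, ∀ c : Core Ω J, k0 ≤ c.cnt j₀ → (∀ i, c.cls i ≠ j₀ → ν (c.cls i) {ω | s ω ≠ 0} = 0) →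
      ∀ n : ℤ, ‖(((c.cnt j₀ : ℝ) ^ (2 / 3 : ℝ) * c.kap ν s n : ℝ) : ℂ) -
        aS γ₁ γ₂ ((n - c.mean ν s) / (c.cnt j₀ : ℝ) ^ (2 / 3 : ℝ))‖ ≤ ε := by
  have := h.prob
  set m : ℝ := ∫ ω, (s ω : ℝ) ∂ν j₀ with hm
  set ψ : ℝ → ℂ := fun t => phi (ν j₀) s t * Complex.exp (-(Complex.I * ((t * m : ℝ) : ℂ)))
    with hψ
  have cψ : Continuous ψ := (kernelC_phi_cont (ν j₀) s).mul (by fun_prop)
  have bψ : ∀ t : ℝ, |t| ≤ Real.pi → ‖ψ t‖ ≤ 1 - c₀ * |t| ^ (3 / 2 : ℝ) := fun t ht => by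
    simp only [hψ]
    rw [norm_mul, ← mul_neg, ← Complex.ofReal_neg, Complex.norm_exp_I_mul_ofReal, mul_one]
    exact h4 t ht
  obtain ⟨k0, hk0⟩ := eventually_atTop.1
    ((kernelC_D cψ hc hγ bψ (kernelC_centre he)).eventually (ge_mem_nhds hε))
  refine ⟨max k0 1, fun c hk htr n => ?_⟩
  have := Core.isProb h.prob c
  refine le_trans (le_of_eq ?_) ((kernelC_main cψ hc hγ bψ (le_of_max_le_right hk)
    (n - c.mean ν s)).trans (hk0 _ (le_of_max_le_left hk)))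
  have e1 := setIntegral_eq_fourier (c.P ν) (c.S s) Measurable.of_discrete (fun _ => 1)
    (integrable_const 1) n
  rw [setIntegral_const, Complex.real_smul, mul_one] at e1
  rw [Complex.ofReal_mul, Core.kap, e1]
  congr 4
  refine intervalIntegral.integral_congr fun t _ => ?_
  simp only [one_mul, hψ]
  rw [(kernelC_char h c htr t).1, (kernelC_char h c htr t).2, ← hm, mul_pow, ← Complex.exp_nat_mul,
    ← mul_assoc, ← Complex.exp_add, mul_comm (phi _ _ _ ^ _), ← mul_assoc, ← Complex.exp_add]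
  congr 2
  push_cast
  ring

/-- singular expansion from local asymptotics -/
theorem RF_expansion : ∃ γ₁ γ₂ : ℝ, 0 < γ₁ ∧ ∀ (μ : Measure (ℕ × ℝ)) [IsFiniteMeasure μ] (c : ℝ),
    Tendsto (fun n : ℕ => (n : ℝ) ^ (5 / 2 : ℝ) * pm μ n) atTop (𝓝 c) →
      (fun t : ℝ => RF μ t + c * psiS γ₁ γ₂ t) =o[𝓝 0] fun t : ℝ => |t| ^ (3 / 2 : ℝ) :=
  ⟨-kernelC_I.re, -kernelC_I.im, kernelC_I_re, fun μ _ c h => kernelC_RF_expansion μ c h⟩

end Pool.Agent.Lib.MP_77dff5_pr
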