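import Pool.Agent.Lib.MP_77dff5_pr.Var

/-! Local estimates for the size of a filled core. -/

set_option autoImplicit false

namespace Pool.Agent.Lib.MP_77dff5_pr

open MeasureTheory ProbabilityTheory Filter Topology
open scoped ENNReal NNReal

variable {Ω J : Type} [Countable Ω] [MeasurableSpace Ω] [DiscreteMeasurableSpace Ω] [Fintype J]
  {ν : J → Measure Ω} {s : Ω → ℕ} {z : Ω → ℝ} {A c₀ : ℝ} {j₀ : J}

private theorem kernelD_rpow {y : ℝ} (hy : 0 ≤ y) (k : ℕ) :
    y ^ (-((k : ℝ) / 2)) = (√y ^ k)⁻¹ := by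
  rw [Real.rpow_neg hy, Real.sqrt_eq_rpow, ← Real.rpow_natCast, ← Real.rpow_mul hy]
  congr 2
  ring

private theorem kernelD_exp1 (u : ℝ) :
    min (u ^ 2) u ≤ 4 * (Real.exp (-u) - 1 + u) := by
  rcases le_total u 2 with h | h
  · have h1 : 1 - u / 2 ≤ Real.exp (-(u / 2)) := by
      have := Real.add_one_le_exp (-(u / 2))
      linarith
    have h2 : Real.exp (-u) = Real.exp (-(u / 2)) ^ 2 := by
      rw [← Real.exp_nat_mul]
      congr 1
      push_cast
      ring
    have h3 : (1 - u / 2) ^ 2 ≤ Real.exp (-(u / 2)) ^ 2 :=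
      pow_le_pow_left₀ (by linarith) h1 2
    have := min_le_left (u ^ 2) u
    nlinarith
  · have := min_le_right (u ^ 2) u
    have := Real.exp_pos (-u)
    linarith

private theorem kernelD_exp2 {u : ℝ} (hu : 0 ≤ u) : min 1 u ≤ 2 * (1 - Real.exp (-u)) := by
  have h1 : Real.exp (-u) * (1 + u) ≤ 1 := by
    have := Real.add_one_le_exp u
    have h2 : Real.exp (-u) * Real.exp u = 1 := by rw [← Real.exp_add]; simp
    nlinarith [Real.exp_pos (-u)]
  have h0 := Real.exp_pos (-u)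
  rcases le_total u 1 with h | h
  · rw [min_eq_right h]
    nlinarith
  · rw [min_eq_left h]
    nlinarith

private theorem kernelD_ext (F : J → ℝ → ℝ) {e : ℝ} (he : 0 ≤ e) (M : J → ℝ)
    (hM : ∀ j x, 1 ≤ x → F j x ≤ M j) (K : J → ℝ)
    (h : ∀ j, ∀ᶠ x : ℝ in atTop, F j x ≤ K j * x ^ (-e)) :
    ∃ A : ℝ, ∀ j, ∀ x : ℝ, 1 ≤ x → F j x ≤ A * x ^ (-e) := by
  have h1 : ∀ j, ∃ A : ℝ, ∀ x : ℝ, 1 ≤ x → F j x ≤ A * x ^ (-e) := by
    intro j
    obtain ⟨x0, hx0⟩ := eventually_atTop.1 (h j)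
    refine ⟨max (K j) (|M j| * (max x0 1) ^ e), fun x hx => ?_⟩
    have hx' : 0 < x := by linarith
    have hp : 0 < x ^ (-e) := Real.rpow_pos_of_pos hx' _
    rcases le_total x0 x with h0 | h0
    · exact (hx0 x h0).trans (mul_le_mul_of_nonneg_right (le_max_left _ _) hp.le)
    · refine (hM j x hx).trans ((le_abs_self _).trans ?_)
      refine le_trans ?_ (mul_le_mul_of_nonneg_right (le_max_right _ _) hp.le)
      have h2 : x ^ e ≤ (max x0 1) ^ e :=
        Real.rpow_le_rpow hx'.le (h0.trans (le_max_left _ _)) he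
      have h3 : x ^ e * x ^ (-e) = 1 := by rw [← Real.rpow_add hx']; simp
      have h4 : 1 ≤ (max x0 1) ^ e * x ^ (-e) :=
        h3.symm.le.trans (mul_le_mul_of_nonneg_right h2 hp.le)
      rw [mul_assoc]
      exact le_mul_of_one_le_right (abs_nonneg _) h4
  choose B hB using h1
  obtain ⟨A, hA⟩ := Finite.exists_le B
  refine ⟨A, fun j x hx => (hB j x hx).trans ?_⟩
  exact mul_le_mul_of_nonneg_right (hA j) (Real.rpow_nonneg (by linarith) _)

/-- the telescoping bound -/
private theorem kernelD_tele {r : ℝ} (hr : 0 < r) (n : ℕ) :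
    (√((n + 1 : ℕ) : ℝ) ^ 3)⁻¹ * min 1 (((n + 1 : ℕ) : ℝ) / r ^ 2) ≤
      8 / r * (√((n + 1 : ℕ) : ℝ) / (√((n + 1 : ℕ) : ℝ) + r) - √(n : ℝ) / (√(n : ℝ) + r)) := by
  set a := √((n + 1 : ℕ) : ℝ) with ha
  set b := √(n : ℝ) with hb
  have ha0 : 0 < a := Real.sqrt_pos.2 (by positivity)
  have hb0 : 0 ≤ b := Real.sqrt_nonneg _
  have ha2 : a ^ 2 = (n : ℝ) + 1 := by
    rw [ha, Real.sq_sqrt (by positivity)]
    push_cast
    ring
  have hb2 : b ^ 2 = (n : ℝ) := Real.sq_sqrt (by positivity)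
  have hba : b ≤ a := Real.sqrt_le_sqrt (by push_cast; linarith)
  have hn : ((n + 1 : ℕ) : ℝ) = a ^ 2 := by rw [ha2]; push_cast; ring
  have h1 : 1 ≤ 2 * a * (a - b) := by nlinarith
  have h2 : 8 / r * (a / (a + r) - b / (b + r)) = 8 * (a - b) / ((a + r) * (b + r)) := by
    field_simp
    ring
  rw [hn, h2, le_div_iff₀ (by positivity)]
  have h3 : (a + r) * (b + r) ≤ (a + r) ^ 2 := by nlinarith
  rcases le_total a r with h | h
  · have h4 : (a ^ 3)⁻¹ * min 1 (a ^ 2 / r ^ 2) ≤ (a * r ^ 2)⁻¹ := by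
      refine (mul_le_mul_of_nonneg_left (min_le_right _ _) (by positivity)).trans (le_of_eq ?_)
      field_simp
    have h5 : (a + r) * (b + r) ≤ 4 * r ^ 2 := by nlinarith
    refine (mul_le_mul h4 h5 (by positivity) (by positivity)).trans ?_
    have h6 : (a * r ^ 2)⁻¹ * (4 * r ^ 2) = 4 / a := by field_simp
    rw [h6, div_le_iff₀ ha0]
    nlinarith
  · have h4 : (a ^ 3)⁻¹ * min 1 (a ^ 2 / r ^ 2) ≤ (a ^ 3)⁻¹ :=
      mul_le_of_le_one_right (by positivity) (min_le_left _ _)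
    have h5 : (a + r) * (b + r) ≤ 4 * a ^ 2 := by nlinarith
    refine (mul_le_mul h4 h5 (by positivity) (by positivity)).trans ?_
    have h6 : (a ^ 3)⁻¹ * (4 * a ^ 2) = 4 / a := by field_simp
    rw [h6, div_le_iff₀ ha0]
    nlinarith

omit [Countable Ω] in
private theorem kernelD_sum (μ : Measure Ω) (s : Ω → ℕ) (f : Ω → ℝ) (hf : ∀ ω, 0 ≤ f ω)
    (h0 : ∀ ω, s ω = 0 → f ω = 0) {C r : ℝ} (hC : 0 ≤ C) (hr : 0 < r)
    (h : ∀ n : ℕ, ∫⁻ ω in {ω | s ω = n + 1}, ENNReal.ofReal (f ω) ∂μ ≤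
      ENNReal.ofReal (C * ((√((n + 1 : ℕ) : ℝ) ^ 3)⁻¹ * min 1 (((n + 1 : ℕ) : ℝ) / r ^ 2)))) :
    ∫ ω, f ω ∂μ ≤ 8 * C / r := by
  rw [integral_eq_lintegral_of_nonneg_ae (Eventually.of_forall hf)
    (Measurable.of_discrete (f := f)).aestronglyMeasurable]
  refine ENNReal.toReal_le_of_le_ofReal (by positivity) ?_
  have hU : (⋃ n : ℕ, {ω | s ω = n}) = Set.univ := by
    ext ω
    simp
  have hsplit : ∫⁻ ω, ENNReal.ofReal (f ω) ∂μ =
      ∑' n : ℕ, ∫⁻ ω in {ω | s ω = n}, ENNReal.ofReal (f ω) ∂μ := by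
    rw [← lintegral_iUnion (fun n => MeasurableSet.of_discrete), hU, Measure.restrict_univ]
    intro m n hmn
    exact Set.disjoint_left.2 fun ω h1 h2 => hmn (h1.symm.trans h2)
  rw [hsplit]
  have hz : ∫⁻ ω in {ω | s ω = 0}, ENNReal.ofReal (f ω) ∂μ = 0 := by
    rw [setLIntegral_congr_fun MeasurableSet.of_discrete (g := fun _ => 0)]
    · simp
    · intro ω hω
      simp [h0 ω hω]
  have key : ∀ N : ℕ, ∑ n ∈ Finset.range (N + 1),
      ∫⁻ ω in {ω | s ω = n}, ENNReal.ofReal (f ω) ∂μ ≤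
        ENNReal.ofReal (C * (8 / r * (√(N : ℝ) / (√(N : ℝ) + r)))) := by
    intro N
    induction N with
    | zero => simp [hz]
    | succ N ih =>
      rw [Finset.sum_range_succ]
      refine (add_le_add ih (h N)).trans ?_
      rw [← ENNReal.ofReal_add (by positivity) (by positivity)]
      refine ENNReal.ofReal_le_ofReal ?_
      have := mul_le_mul_of_nonneg_left (kernelD_tele hr N) hC
      linarith
  refine ENNReal.tsum_le_of_sum_range_le fun N => ?_
  refine (Finset.sum_le_sum_of_subset (Finset.range_subset_range.2 (Nat.le_succ N))).trans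
    ((key N).trans (ENNReal.ofReal_le_ofReal ?_))
  have h1 : √(N : ℝ) / (√(N : ℝ) + r) ≤ 1 := by
    rw [div_le_one (by positivity)]
    linarith
  calc C * (8 / r * (√(N : ℝ) / (√(N : ℝ) + r))) ≤ C * (8 / r * 1) := by gcongr
    _ = 8 * C / r := by ring

omit [Countable Ω] in
private theorem kernelD_pm (μ : Measure Ω) [IsFiniteMeasure μ] (s : Ω → ℕ) (z : Ω → ℝ) (n : ℕ) :
    μ {ω | s ω = n} = ENNReal.ofReal (pm (slaw μ s z) n) := by
  unfold pm slaw
  have hm : MeasurableSet {p : ℕ × ℝ | p.1 = n} := measurable_fst (measurableSet_singleton n)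
  rw [Measure.real, Measure.map_apply Measurable.of_discrete hm,
    ENNReal.ofReal_toReal (measure_ne_top _ _)]
  rfl

omit [Countable Ω] in
private theorem kernelD_m2 (μ : Measure Ω) (s : Ω → ℕ) (z : Ω → ℝ) {n : ℕ} (hn : 1 ≤ n) :
    ∫⁻ ω in {ω | s ω = n}, ENNReal.ofReal (z ω ^ 2) ∂μ =
      ENNReal.ofReal n * m2 (slaw μ s z) n 0 := by
  unfold m2 slaw
  have hm : MeasurableSet {p : ℕ × ℝ | p.1 = n} := measurable_fst (measurableSet_singleton n)
  have hn' : (0 : ℝ) < n := by exact_mod_cast hn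
  rw [setLIntegral_map hm (by unfold psi; fun_prop) Measurable.of_discrete,
    ← lintegral_const_mul _ Measurable.of_discrete]
  refine lintegral_congr fun ω => ?_
  rw [← ENNReal.ofReal_mul hn'.le]
  congr 1
  unfold psi
  rw [sub_zero, max_eq_left (abs_nonneg _), sq_abs, div_pow, Real.sq_sqrt hn'.le]
  field_simp

/-- tail bounds from local bounds -/
theorem T1_T2_of_local (h : Slots ν s z) {K : ℝ}
    (h1 : ∀ j, ∀ n : ℕ, 1 ≤ n → pm (slaw (ν j) s z) n ≤ K * (n : ℝ) ^ (-(5 / 2) : ℝ))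
    (h2 : ∀ j, ∀ n : ℕ, 1 ≤ n →
      m2 (slaw (ν j) s z) n 0 ≤ ENNReal.ofReal (K * (n : ℝ) ^ (-(5 / 2) : ℝ))) :
    ∃ A : ℝ, T1 ν s A ∧ T2 ν s z A := by
  have hK : ∀ _ : J, 0 ≤ K := fun j => by
    have := h1 j 1 le_rfl
    rw [Nat.cast_one, Real.one_rpow, mul_one] at this
    exact le_trans measureReal_nonneg this
  have e5 : ∀ y : ℝ, 0 ≤ y → y ^ (-(5 / 2) : ℝ) = (√y ^ 5)⁻¹ := fun y hy => by
    simpa using kernelD_rpow hy 5
  have e3 : ∀ y : ℝ, 0 ≤ y → y ^ (-(3 / 2) : ℝ) = (√y ^ 3)⁻¹ := fun y hy => by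
    simpa using kernelD_rpow hy 3
  have e1 : ∀ y : ℝ, 0 ≤ y → y ^ (-(1 / 2) : ℝ) = (√y)⁻¹ := fun y hy => by
    simpa using kernelD_rpow hy 1
  refine ⟨16 * K, fun j x hx => ?_, fun j x hx => ?_⟩
  · have := h.prob j
    have hx0 : 0 < x := by linarith
    have hr : 0 < √x := Real.sqrt_pos.2 hx0
    have hK := hK j
    refine (kernelD_sum (ν j) s _ (fun ω => by positivity) (fun ω hω => by simp [hω])
      (C := K / x) (by positivity) hr fun n => ?_).trans ?_
    · rw [setLIntegral_congr_fun MeasurableSet.of_discrete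
        (g := fun _ => ENNReal.ofReal (min ((((n + 1 : ℕ) : ℝ) / x) ^ 2) (((n + 1 : ℕ) : ℝ) / x)))
        (fun ω hω => by rw [show s ω = n + 1 from hω]), setLIntegral_const,
        kernelD_pm (ν j) s z, ← ENNReal.ofReal_mul (by positivity)]
      refine ENNReal.ofReal_le_ofReal ?_
      refine (mul_le_mul_of_nonneg_left (h1 j (n + 1) (by omega)) (by positivity)).trans
        (le_of_eq ?_)
      have hn0 : (0 : ℝ) < ((n + 1 : ℕ) : ℝ) := by positivity
      rw [e5 _ hn0.le, Real.sq_sqrt hx0.le]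
      generalize ((n + 1 : ℕ) : ℝ) = y at hn0 ⊢
      have hy : y = √y ^ 2 := (Real.sq_sqrt hn0.le).symm
      have ha : 0 < √y := Real.sqrt_pos.2 hn0
      have hm : min ((y / x) ^ 2) (y / x) = y / x * min 1 (y / x) := by
        rw [mul_min_of_nonneg _ _ (by positivity), mul_one, pow_two, min_comm]
      rw [hm]
      generalize min 1 (y / x) = m
      generalize √y = a at hy ha
      subst hy
      field_simp
    · rw [e3 _ hx0.le]
      have hy : x = √x ^ 2 := (Real.sq_sqrt hx0.le).symm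
      generalize √x = a at hy hr
      subst hy
      have : 8 * (K / a ^ 2) / a = 8 * K * (a ^ 3)⁻¹ := by field_simp
      rw [this]
      gcongr
      norm_num
  · have := h.prob j
    have hx0 : 0 < x := by linarith
    have hr : 0 < √x := Real.sqrt_pos.2 hx0
    have hK := hK j
    refine (kernelD_sum (ν j) s _ (fun ω => by positivity) (fun ω hω => by simp [hω])
      (C := 2 * K) (by positivity) hr fun n => ?_).trans ?_
    · have hn0 : (0 : ℝ) < ((n + 1 : ℕ) : ℝ) := by positivity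
      have hn1 : (1 : ℝ) ≤ ((n + 1 : ℕ) : ℝ) := by exact_mod_cast Nat.succ_pos n
      rw [setLIntegral_congr_fun MeasurableSet.of_discrete
        (g := fun ω => ENNReal.ofReal (min 1 (((n + 1 : ℕ) : ℝ) / x)) *
          (1 + ENNReal.ofReal (z ω ^ 2)))
        (fun ω hω => by
          rw [show s ω = n + 1 from hω, mul_comm, ENNReal.ofReal_mul (by positivity),
            ENNReal.ofReal_add (by positivity) (by positivity), ENNReal.ofReal_one]),
        lintegral_const_mul _ Measurable.of_discrete, lintegral_add_left measurable_const,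
        setLIntegral_const, one_mul, kernelD_pm (ν j) s z, kernelD_m2 (ν j) s z (Nat.succ_pos n)]
      refine (mul_le_mul_right (add_le_add (ENNReal.ofReal_le_ofReal (h1 j (n + 1) (by omega)))
        (mul_le_mul_right (h2 j (n + 1) (by omega)) _)) _).trans ?_
      rw [e5 _ hn0.le, Real.sq_sqrt hx0.le, ← ENNReal.ofReal_mul hn0.le,
        ← ENNReal.ofReal_add (by positivity) (by positivity),
        ← ENNReal.ofReal_mul (by positivity)]
      refine ENNReal.ofReal_le_ofReal ?_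
      have hm0 : 0 ≤ min 1 (((n + 1 : ℕ) : ℝ) / x) := by positivity
      generalize min 1 (((n + 1 : ℕ) : ℝ) / x) = m at hm0 ⊢
      generalize ((n + 1 : ℕ) : ℝ) = y at hn0 hn1 ⊢
      have hy : y = √y ^ 2 := (Real.sq_sqrt hn0.le).symm
      have ha : 0 < √y := Real.sqrt_pos.2 hn0
      generalize √y = a at hy ha
      subst hy
      have h3 : K * (a ^ 5)⁻¹ ≤ a ^ 2 * (K * (a ^ 5)⁻¹) :=
        le_mul_of_one_le_left (by positivity) hn1
      have h4 : a ^ 2 * (K * (a ^ 5)⁻¹) = K * (a ^ 3)⁻¹ := by field_simp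
      calc m * (K * (a ^ 5)⁻¹ + a ^ 2 * (K * (a ^ 5)⁻¹))
          ≤ m * (K * (a ^ 3)⁻¹ + K * (a ^ 3)⁻¹) := by
            refine mul_le_mul_of_nonneg_left ?_ hm0
            linarith
        _ = 2 * K * ((a ^ 3)⁻¹ * m) := by ring
    · rw [e1 _ hx0.le]
      exact le_of_eq (by ring)

/-- tail bounds from Laplace transforms -/
theorem T1_of_RL (h : Slots1 ν s z) {K : ℝ}
    (h1 : ∀ j, ∀ᶠ l : ℝ in 𝓝[>] 0, RL (slaw (ν j) s z) l ≤ K * l ^ (3 / 2 : ℝ)) :
    ∃ A : ℝ, T1 ν s A := by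
  have hint : ∀ j (x : ℝ), 0 < x →
      Integrable (fun ω => min (((s ω : ℝ) / x) ^ 2) (s ω / x)) (ν j) := fun j x hx => by
    refine ((h.int_s j).div_const x).mono' Measurable.of_discrete.aestronglyMeasurable
      (Eventually.of_forall fun ω => ?_)
    rw [Real.norm_of_nonneg (by positivity)]
    exact min_le_right _ _
  refine kernelD_ext (fun j x => ∫ ω, min (((s ω : ℝ) / x) ^ 2) (s ω / x) ∂ν j) (by norm_num)
    (fun j => ∫ ω, (s ω : ℝ) ∂ν j) (fun j x hx => ?_) (fun _ => 4 * K) fun j => ?_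
  · refine integral_mono (hint j x (by linarith)) (h.int_s j) fun ω => ?_
    exact (min_le_right _ _).trans (div_le_self (by positivity) hx)
  · have := h.prob j
    filter_upwards [tendsto_inv_atTop_nhdsGT_zero.eventually (h1 j), eventually_gt_atTop 0]
      with x hx hx0
    have hE : RL (slaw (ν j) s z) x⁻¹ =
        ∫ ω, (Real.exp (-(x⁻¹ * s ω)) - 1 + x⁻¹ * s ω) ∂ν j := by
      unfold RL slaw
      rw [integral_map Measurable.of_discrete.aemeasurable
        (Measurable.aestronglyMeasurable (by fun_prop))]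
    have hI : Integrable (fun ω => Real.exp (-(x⁻¹ * s ω)) - 1 + x⁻¹ * s ω) (ν j) := by
      refine Integrable.add (Integrable.sub ?_ (integrable_const _)) ((h.int_s j).const_mul _)
      refine (integrable_const (1 : ℝ)).mono' Measurable.of_discrete.aestronglyMeasurable
        (Eventually.of_forall fun ω => ?_)
      rw [Real.norm_of_nonneg (Real.exp_pos _).le]
      exact Real.exp_le_one_iff.2 (neg_nonpos.2 (by positivity))
    rw [Real.inv_rpow hx0.le, ← Real.rpow_neg hx0.le, hE] at hx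
    refine (integral_mono (hint j x hx0) (hI.const_mul 4) fun ω => ?_).trans ?_
    · have := kernelD_exp1 (x⁻¹ * s ω)
      rw [div_eq_inv_mul]
      exact this
    · rw [integral_const_mul]
      linarith

theorem T2_of_R2 (h : Slots ν s z) {K : ℝ}
    (h2 : ∀ j, ∀ᶠ l : ℝ in 𝓝[>] 0, R2 (slaw (ν j) s z) l ≤ K * l ^ (1 / 2 : ℝ)) :
    ∃ A : ℝ, T2 ν s z A := by
  have hz : ∀ j, Integrable (fun ω => z ω ^ 2) (ν j) := fun j => (h.mem_z j).integrable_sq
  have hz1 : ∀ j, Integrable (fun ω => 1 + z ω ^ 2) (ν j) := fun j =>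
    have := h.prob j
    (integrable_const _).add (hz j)
  have hint : ∀ j (x : ℝ), 0 < x →
      Integrable (fun ω => (1 + z ω ^ 2) * min 1 ((s ω : ℝ) / x)) (ν j) := fun j x hx => by
    refine (hz1 j).mono' Measurable.of_discrete.aestronglyMeasurable
      (Eventually.of_forall fun ω => ?_)
    rw [Real.norm_of_nonneg (by positivity)]
    exact mul_le_of_le_one_right (by positivity) (min_le_left _ _)
  refine kernelD_ext (fun j x => ∫ ω, (1 + z ω ^ 2) * min 1 ((s ω : ℝ) / x) ∂ν j) (by norm_num)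
    (fun j => ∫ ω, (1 + z ω ^ 2) ∂ν j) (fun j x hx => ?_)
    (fun j => ∫ ω, (s ω : ℝ) ∂ν j + 2 * K) fun j => ?_
  · refine integral_mono (hint j x (by linarith)) (hz1 j) fun ω => ?_
    exact mul_le_of_le_one_right (by positivity) (min_le_left _ _)
  · have := h.prob j
    filter_upwards [tendsto_inv_atTop_nhdsGT_zero.eventually (h2 j), eventually_ge_atTop 1]
      with x hx hx1
    have hx0 : 0 < x := by linarith
    have hE : R2 (slaw (ν j) s z) x⁻¹ =
        ∫ ω, z ω ^ 2 * (1 - Real.exp (-(x⁻¹ * s ω))) ∂ν j := by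
      unfold R2 slaw
      rw [integral_map Measurable.of_discrete.aemeasurable
        (Measurable.aestronglyMeasurable (by fun_prop))]
    have hI : Integrable (fun ω => z ω ^ 2 * (1 - Real.exp (-(x⁻¹ * s ω)))) (ν j) := by
      refine (hz j).mono' Measurable.of_discrete.aestronglyMeasurable
        (Eventually.of_forall fun ω => ?_)
      have h3 : Real.exp (-(x⁻¹ * s ω)) ≤ 1 :=
        Real.exp_le_one_iff.2 (neg_nonpos.2 (by positivity))
      have h4 := Real.exp_pos (-(x⁻¹ * s ω))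
      rw [Real.norm_of_nonneg (mul_nonneg (by positivity) (by linarith))]
      exact mul_le_of_le_one_right (by positivity) (by linarith)
    rw [Real.inv_rpow hx0.le, ← Real.rpow_neg hx0.le, hE] at hx
    have hp : x⁻¹ ≤ x ^ (-(1 / 2) : ℝ) := by
      rw [← Real.rpow_neg_one]
      exact Real.rpow_le_rpow_of_exponent_le hx1 (by norm_num)
    refine (integral_mono (hint j x hx0)
      (((h.int_s j).mul_const (x ^ (-(1 / 2) : ℝ))).add (hI.const_mul 2)) fun ω => ?_).trans ?_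
    · have h3 := kernelD_exp2 (u := x⁻¹ * s ω) (by positivity)
      have h4 : min 1 (x⁻¹ * s ω) ≤ s ω * x ^ (-(1 / 2) : ℝ) :=
        (min_le_right _ _).trans (by rw [mul_comm]; gcongr)
      have h5 := mul_le_mul_of_nonneg_left h3 (sq_nonneg (z ω))
      show (1 + z ω ^ 2) * min 1 ((s ω : ℝ) / x) ≤
        s ω * x ^ (-(1 / 2) : ℝ) + 2 * (z ω ^ 2 * (1 - Real.exp (-(x⁻¹ * s ω))))
      rw [div_eq_inv_mul]
      linarith
    · rw [integral_add' ((h.int_s j).mul_const _) (hI.const_mul 2), integral_const_mul,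
        integral_mul_const]
      linarith

end Pool.Agent.Lib.MP_77dff5_pr
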