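import Pool.Agent.Lib.MP_77dff5_pr.PDefs

/-! Linear systems with a Lyapunov vector. -/

set_option autoImplicit false

namespace Pool.Agent.Lib.MP_77dff5_pr

open Filter Topology

variable {ι : Type} [Fintype ι] [DecidableEq ι]

omit [DecidableEq ι] in
theorem linA_gap (A : ι → ι → ℝ) (m : ι → ℝ) (hm : ∀ i, 0 < m i)
    (h : ∀ i, ∑ j, A i j * m j < m i) :
    ∃ ε c M : ℝ, 0 < ε ∧ ε < 1 ∧ 0 < c ∧ 0 < M ∧ (∀ i, c ≤ m i) ∧ (∀ i, m i ≤ M) ∧
      ∀ i, (1 + ε) * ∑ j, (A i j + ε) * m j + ε * M ≤ (1 - ε) * m i := by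
  obtain ⟨M, hM0, hM⟩ : ∃ M : ℝ, 0 < M ∧ ∀ i, m i ≤ M := by
    refine ⟨∑ j, m j + 1, ?_, fun i => ?_⟩
    · have := Finset.sum_nonneg (s := Finset.univ) (fun j _ => (hm j).le)
      linarith
    · have := Finset.single_le_sum (s := Finset.univ) (fun j _ => (hm j).le) (Finset.mem_univ i)
      linarith
  have h1 : ∀ᶠ c : ℝ in 𝓝 0, ∀ i, c < m i :=
    eventually_all.2 fun i => eventually_lt_nhds (hm i)
  have h2 : ∀ᶠ ε : ℝ in 𝓝 0, ∀ i,
      (1 + ε) * ∑ j, (A i j + ε) * m j + ε * M < (1 - ε) * m i := by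
    refine eventually_all.2 fun i => ?_
    have hc1 : Continuous fun ε : ℝ => (1 + ε) * ∑ j, (A i j + ε) * m j + ε * M := by fun_prop
    have hc2 : Continuous fun ε : ℝ => (1 - ε) * m i := by fun_prop
    refine hc1.continuousAt.eventually_lt hc2.continuousAt ?_
    simpa using h i
  have h3 : ∀ᶠ ε : ℝ in 𝓝 0, ε < 1 := eventually_lt_nhds one_pos
  have h4 : ∀ᶠ ε : ℝ in 𝓝[>] 0, 0 < ε := self_mem_nhdsWithin
  obtain ⟨ε, ⟨⟨hc, hε⟩, hε1⟩, hε0⟩ :=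
    ((((h1.and h2).and h3).filter_mono nhdsWithin_le_nhds).and h4).exists
  exact ⟨ε, ε, M, hε0, hε1, hε0, hM0, fun i => (hc i).le, hM, fun i => (hε i).le⟩

omit [DecidableEq ι] in
theorem linA_contr (A : ι → ι → ℝ) (hA : ∀ i j, 0 ≤ A i j) (m : ι → ℝ) (hm : ∀ i, 0 < m i)
    (h : ∀ i, ∑ j, A i j * m j < m i) :
    ∃ ε C : ℝ, 0 < ε ∧ 0 ≤ C ∧ ∀ (u : ι → ℝ) (b : ℝ), 0 ≤ b →
      (∀ i, u i ≤ ∑ j, (A i j + ε) * max (u j) 0 + b) → ∀ i, u i ≤ C * b := by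
  obtain ⟨ε, c, M, hε, hε1, hc, hM, hcm, hmM, hgap⟩ := linA_gap A m hm h
  refine ⟨ε, M / (ε * c), hε, by positivity, fun u b hb hu i => ?_⟩
  have : Nonempty ι := ⟨i⟩
  obtain ⟨i0, hi0⟩ := Finite.exists_max fun j => max (u j) 0 / m j
  set ρ := max (u i0) 0 / m i0 with hρ
  have hρ0 : 0 ≤ ρ := div_nonneg (le_max_right _ _) (hm i0).le
  have h1 : ∀ j, max (u j) 0 ≤ ρ * m j := fun j => (div_le_iff₀ (hm j)).1 (hi0 j)
  have hS : 0 ≤ ∑ j, (A i0 j + ε) * m j :=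
    Finset.sum_nonneg fun j _ => mul_nonneg (add_nonneg (hA _ _) hε.le) (hm j).le
  have h2 : ∑ j, (A i0 j + ε) * max (u j) 0 ≤ ρ * ∑ j, (A i0 j + ε) * m j := by
    rw [Finset.mul_sum]
    refine Finset.sum_le_sum fun j _ => ?_
    have := mul_le_mul_of_nonneg_left (h1 j) (add_nonneg (hA i0 j) hε.le)
    linarith
  have h3 : ∑ j, (A i0 j + ε) * m j ≤ (1 - ε) * m i0 := by
    have := hgap i0
    nlinarith [mul_nonneg hε.le hS, mul_pos hε hM]
  have h4 : max (u i0) 0 ≤ ρ * ((1 - ε) * m i0) + b := by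
    have h5 := mul_le_mul_of_nonneg_left h3 hρ0
    refine max_le ((hu i0).trans (by linarith)) ?_
    have := mul_nonneg hρ0 hS
    linarith
  have h5 : max (u i0) 0 = ρ * m i0 := by
    rw [hρ, div_mul_cancel₀ _ (hm i0).ne']
  have h6 : ρ * (ε * c) ≤ b := by
    have := mul_le_mul_of_nonneg_left (hcm i0) (mul_nonneg hρ0 hε.le)
    nlinarith
  have h7 : ρ ≤ b / (ε * c) := (le_div_iff₀ (by positivity)).2 h6
  calc u i ≤ max (u i) 0 := le_max_left _ _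
    _ ≤ ρ * m i := h1 i
    _ ≤ b / (ε * c) * M := mul_le_mul h7 (hmM i) (hm i).le (by positivity)
    _ = M / (ε * c) * b := by ring

theorem contr_bound (A : ι → ι → ℝ) (hA : ∀ i j, 0 ≤ A i j) (m : ι → ℝ) (hm : ∀ i, 0 < m i)
    (h : ∀ i, ∑ j, A i j * m j < m i) :
    ∃ ε C : ℝ, 0 < ε ∧ 0 ≤ C ∧ ∀ (u : ι → ℝ) (b : ℝ), 0 ≤ b →
      (∀ i, u i ≤ ∑ j, (A i j + ε) * max (u j) 0 + b) → ∀ i, u i ≤ C * b :=
  linA_contr A hA m hm h

theorem linA_FF (θ : ℝ) :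
    Tendsto (fun p : ℕ × ℝ => (p.1, p.2 * √p.1)) (FF θ) (atTop ×ˢ 𝓝 θ) := tendsto_comap

theorem linA_FF_fst (θ : ℝ) : Tendsto (fun p : ℕ × ℝ => p.1) (FF θ) atTop :=
  (linA_FF θ).fst

theorem linA_FF_snd (θ : ℝ) : Tendsto (fun p : ℕ × ℝ => p.2 * √p.1) (FF θ) (𝓝 θ) :=
  (linA_FF θ).snd

theorem linA_tendsto_FF {X : Type} {l : Filter X} {n : X → ℕ} {t : X → ℝ} {θ : ℝ}
    (hn : Tendsto n l atTop) (ht : Tendsto (fun x => t x * √(n x)) l (𝓝 θ)) :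
    Tendsto (fun x => (n x, t x)) l (FF θ) :=
  tendsto_comap_iff.2 (hn.prodMk ht)

theorem linA_ratio (l : ℕ) :
    Tendsto (fun n : ℕ => ((n - l : ℕ) : ℝ) / n) atTop (𝓝 1) := by
  have h1 : Tendsto (fun n : ℕ => 1 - (l : ℝ) / n) atTop (𝓝 (1 - 0)) :=
    tendsto_const_nhds.sub (tendsto_const_div_atTop_nhds_zero_nat _)
  rw [sub_zero] at h1
  refine h1.congr' ?_
  filter_upwards [eventually_ge_atTop (l + 1)] with n hn
  have h2 : (n : ℝ) ≠ 0 := by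
    have : n ≠ 0 := by omega
    exact_mod_cast this
  rw [Nat.cast_sub (by omega)]
  field_simp

theorem FF_shift (θ : ℝ) (l : ℕ) : Tendsto (fun p : ℕ × ℝ => (p.1 - l, p.2)) (FF θ) (FF θ) := by
  refine linA_tendsto_FF (n := fun p : ℕ × ℝ => p.1 - l) (t := fun p : ℕ × ℝ => p.2)
    ((tendsto_sub_atTop_nat l).comp (linA_FF_fst θ)) ?_
  have h1 : Tendsto (fun p : ℕ × ℝ => √(((p.1 - l : ℕ) : ℝ) / p.1)) (FF θ) (𝓝 (√1)) :=
    ((linA_ratio l).comp (linA_FF_fst θ)).sqrt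
  have h2 := (linA_FF_snd θ).mul h1
  rw [Real.sqrt_one, mul_one] at h2
  refine h2.congr' ?_
  filter_upwards [(linA_FF_fst θ).eventually (eventually_ge_atTop 1)] with p hp
  have h3 : (0 : ℝ) < p.1 := by exact_mod_cast hp
  have h4 : √(p.1 : ℝ) ≠ 0 := (Real.sqrt_pos.2 h3).ne'
  rw [Real.sqrt_div (Nat.cast_nonneg _)]
  field_simp

theorem FF_fst (θ : ℝ) : Tendsto (fun p : ℕ × ℝ => p.1) (FF θ) atTop :=
  linA_FF_fst θ

theorem FF_bound (θ : ℝ) : ∀ᶠ p : ℕ × ℝ in FF θ, |p.2| ≤ (|θ| + 1) / √p.1 := by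
  have h1 : ∀ᶠ p : ℕ × ℝ in FF θ, |p.2 * √p.1| < |θ| + 1 :=
    (linA_FF_snd θ).abs.eventually (eventually_lt_nhds (lt_add_one _))
  filter_upwards [h1, (linA_FF_fst θ).eventually (eventually_ge_atTop 1)] with p hp hp1
  have h3 : (0 : ℝ) < p.1 := by exact_mod_cast hp1
  have h4 : 0 < √(p.1 : ℝ) := Real.sqrt_pos.2 h3
  rw [abs_mul, abs_of_pos h4] at hp
  exact (le_div_iff₀ h4).2 hp.le

theorem FF_neBot (θ : ℝ) : (FF θ).NeBot := by
  have h1 : Tendsto (fun n : ℕ => (n, θ / √n)) atTop (FF θ) := by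
    refine linA_tendsto_FF (n := fun n : ℕ => n) (t := fun n : ℕ => θ / √n) tendsto_id ?_
    refine (tendsto_const_nhds (x := θ)).congr' ?_
    filter_upwards [eventually_ge_atTop 1] with n hn
    have h3 : (0 : ℝ) < n := by exact_mod_cast hn
    have h4 : √(n : ℝ) ≠ 0 := (Real.sqrt_pos.2 h3).ne'
    field_simp
  exact h1.neBot

theorem FF_countablyGenerated (θ : ℝ) : (FF θ).IsCountablyGenerated := by
  unfold FF
  infer_instance

theorem tendsto_FF {X : Type} {l : Filter X} {n : X → ℕ} {t : X → ℝ} {θ : ℝ}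
    (hn : Tendsto n l atTop) (ht : Tendsto (fun x => t x * √(n x)) l (𝓝 θ)) :
    Tendsto (fun x => (n x, t x)) l (FF θ) :=
  linA_tendsto_FF hn ht

omit [Fintype ι] [DecidableEq ι] in
/-- convolution against a summable kernel keeps the bound -/
theorem conv_le {a : ℕ → ℝ} {α : ℝ} (h0 : ∀ l, 0 ≤ a l) (ha : HasSum a α) {ε : ℝ} (hε : 0 < ε) :
    ∀ᶠ n : ℕ in atTop, ∑ l ∈ Finset.range ((n + 1) / 2), a l * ((n - l : ℕ) : ℝ) ^ (-(5 / 2) : ℝ) ≤
      (α + ε) * (n : ℝ) ^ (-(5 / 2) : ℝ) := by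
  set f : ℕ → ℕ → ℝ := fun n l =>
    if l < (n + 1) / 2 then a l * (((n - l : ℕ) : ℝ) / n) ^ (-(5 / 2) : ℝ) else 0 with hf
  have h1 : Tendsto (fun n => ∑' l, f n l) atTop (𝓝 (∑' l, a l)) := by
    refine tendsto_tsum_of_dominated_convergence (bound := fun l => a l * 8)
      (ha.summable.mul_right 8) (fun l => ?_) (Eventually.of_forall fun n l => ?_)
    · have h2 : Tendsto (fun n : ℕ => a l * (((n - l : ℕ) : ℝ) / n) ^ (-(5 / 2) : ℝ)) atTop
          (𝓝 (a l * (1 : ℝ) ^ (-(5 / 2) : ℝ))) :=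
        ((linA_ratio l).rpow_const (Or.inl one_ne_zero)).const_mul _
      rw [Real.one_rpow, mul_one] at h2
      refine h2.congr' ?_
      filter_upwards [eventually_ge_atTop (2 * l + 1)] with n hn
      have : l < (n + 1) / 2 := by omega
      simp only [hf, if_pos this]
    · simp only [hf]
      split_ifs with hl
      · have h3 : (0 : ℝ) < n := by
          have : 0 < n := by omega
          exact_mod_cast this
        have h4 : (1 / 2 : ℝ) ≤ ((n - l : ℕ) : ℝ) / n := by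
          rw [le_div_iff₀ h3]
          have : n ≤ 2 * (n - l) := by omega
          have h5 : (n : ℝ) ≤ 2 * ((n - l : ℕ) : ℝ) := by exact_mod_cast this
          linarith
        have h5 : (((n - l : ℕ) : ℝ) / n) ^ (-(5 / 2) : ℝ) ≤ 8 := by
          calc (((n - l : ℕ) : ℝ) / n) ^ (-(5 / 2) : ℝ) ≤ (1 / 2 : ℝ) ^ (-(5 / 2) : ℝ) :=
                Real.rpow_le_rpow_of_nonpos (by norm_num) h4 (by norm_num)
            _ ≤ (1 / 2 : ℝ) ^ (-(3 : ℝ)) :=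
                Real.rpow_le_rpow_of_exponent_ge (by norm_num) (by norm_num) (by norm_num)
            _ = 8 := by
                rw [Real.rpow_neg (by norm_num), show (3 : ℝ) = ((3 : ℕ) : ℝ) by norm_num,
                  Real.rpow_natCast]
                norm_num
        have h6 : 0 ≤ (((n - l : ℕ) : ℝ) / n) ^ (-(5 / 2) : ℝ) := by positivity
        rw [Real.norm_of_nonneg (mul_nonneg (h0 l) h6)]
        exact mul_le_mul_of_nonneg_left h5 (h0 l)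
      · rw [norm_zero]
        exact mul_nonneg (h0 l) (by norm_num)
  rw [ha.tsum_eq] at h1
  filter_upwards [h1.eventually (eventually_lt_nhds (lt_add_of_pos_right α hε)),
    eventually_ge_atTop 1] with n hn hn1
  have h3 : (0 : ℝ) < n := by exact_mod_cast hn1
  have h4 : ∑' l, f n l = ∑ l ∈ Finset.range ((n + 1) / 2), f n l :=
    tsum_eq_sum fun l hl => by
      simp only [hf, if_neg (fun h => hl (Finset.mem_range.2 h))]
  have h5 : ∑ l ∈ Finset.range ((n + 1) / 2), a l * ((n - l : ℕ) : ℝ) ^ (-(5 / 2) : ℝ) =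
      (∑ l ∈ Finset.range ((n + 1) / 2), f n l) * (n : ℝ) ^ (-(5 / 2) : ℝ) := by
    rw [Finset.sum_mul]
    refine Finset.sum_congr rfl fun l hl => ?_
    simp only [hf, if_pos (Finset.mem_range.1 hl)]
    have h6 : (n : ℝ) ^ (-(5 / 2) : ℝ) ≠ 0 := (Real.rpow_pos_of_pos h3 _).ne'
    rw [Real.div_rpow (Nat.cast_nonneg _) h3.le]
    field_simp
  rw [h5, ← h4]
  exact mul_le_mul_of_nonneg_right hn.le (by positivity)

omit [DecidableEq ι] in
theorem linA_step {A : ι → ι → ℝ} {a : ι → ι → ℕ → ℝ} (ha0 : ∀ i j l, 0 ≤ a i j l)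
    {m : ι → ℝ} (hm : ∀ i, 0 < m i) {ε ρ : ℝ} (hρ : 0 ≤ ρ) {u : ι → ℕ → ℝ} {n : ℕ}
    (hc : ∀ i j, ∑ l ∈ Finset.range ((n + 1) / 2),
      a i j l * ((n - l : ℕ) : ℝ) ^ (-(5 / 2) : ℝ) ≤ (A i j + ε) * (n : ℝ) ^ (-(5 / 2) : ℝ))
    (hu : ∀ j l, l < (n + 1) / 2 → u j (n - l) ≤ ρ * m j * ((n - l : ℕ) : ℝ) ^ (-(5 / 2) : ℝ))
    (i : ι) :
    ∑ j, ∑ l ∈ Finset.range ((n + 1) / 2), a i j l * u j (n - l) ≤
      ρ * (∑ j, (A i j + ε) * m j) * (n : ℝ) ^ (-(5 / 2) : ℝ) := by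
  rw [Finset.mul_sum, Finset.sum_mul]
  refine Finset.sum_le_sum fun j _ => ?_
  calc ∑ l ∈ Finset.range ((n + 1) / 2), a i j l * u j (n - l)
      ≤ ∑ l ∈ Finset.range ((n + 1) / 2),
          ρ * m j * (a i j l * ((n - l : ℕ) : ℝ) ^ (-(5 / 2) : ℝ)) := by
        refine Finset.sum_le_sum fun l hl => ?_
        have := mul_le_mul_of_nonneg_left (hu j l (Finset.mem_range.1 hl)) (ha0 i j l)
        linarith
    _ = ρ * m j * ∑ l ∈ Finset.range ((n + 1) / 2),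
          a i j l * ((n - l : ℕ) : ℝ) ^ (-(5 / 2) : ℝ) := by rw [Finset.mul_sum]
    _ ≤ ρ * m j * ((A i j + ε) * (n : ℝ) ^ (-(5 / 2) : ℝ)) :=
        mul_le_mul_of_nonneg_left (hc i j) (mul_nonneg hρ (hm j).le)
    _ = ρ * ((A i j + ε) * m j) * (n : ℝ) ^ (-(5 / 2) : ℝ) := by ring

omit [DecidableEq ι] in
theorem linA_conv_all {A : ι → ι → ℝ} {a : ι → ι → ℕ → ℝ} (ha0 : ∀ i j l, 0 ≤ a i j l)
    (ha : ∀ i j, HasSum (a i j) (A i j)) {ε : ℝ} (hε : 0 < ε) :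
    ∀ᶠ n : ℕ in atTop, ∀ i j, ∑ l ∈ Finset.range ((n + 1) / 2),
      a i j l * ((n - l : ℕ) : ℝ) ^ (-(5 / 2) : ℝ) ≤ (A i j + ε) * (n : ℝ) ^ (-(5 / 2) : ℝ) :=
  eventually_all.2 fun i => eventually_all.2 fun j => conv_le (ha0 i j) (ha i j) hε

theorem linA_cancel {n : ℕ} (hn : 1 ≤ n) :
    (n : ℝ) ^ (5 / 2 : ℝ) * (n : ℝ) ^ (-(5 / 2) : ℝ) = 1 := by
  have h3 : (0 : ℝ) < n := by exact_mod_cast hn
  rw [← Real.rpow_add h3]
  simp

/-- a priori bound by induction on the size -/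
theorem lin_bound (A : ι → ι → ℝ) (a : ι → ι → ℕ → ℝ) (ha0 : ∀ i j l, 0 ≤ a i j l)
    (ha : ∀ i j, HasSum (a i j) (A i j)) (m : ι → ℝ) (hm : ∀ i, 0 < m i)
    (h : ∀ i, ∑ j, A i j * m j < m i) :
    ∃ ε : ℝ, 0 < ε ∧ ∀ (u : ι → ℕ → ℝ) (b : ℝ), (∀ i n, 0 ≤ u i n) →
      (∀ᶠ n : ℕ in atTop, ∀ K : ℝ, 0 ≤ K →
        (∀ j, ∀ l : ℕ, 1 ≤ l → l ≤ n → u j l ≤ K * (l : ℝ) ^ (-(5 / 2) : ℝ)) →
        ∀ i, u i n ≤ (1 + ε) * ∑ j, ∑ l ∈ Finset.range ((n + 1) / 2), a i j l * u j (n - l) +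
          (b + ε * K) * (n : ℝ) ^ (-(5 / 2) : ℝ)) →
      ∃ K : ℝ, ∀ i, ∀ n : ℕ, 1 ≤ n → u i n ≤ K * (n : ℝ) ^ (-(5 / 2) : ℝ) := by
  obtain ⟨ε, c, M, hε, hε1, hc, hM, hcm, hmM, hgap⟩ := linA_gap A m hm h
  refine ⟨ε, hε, fun u b hu0 hev => ?_⟩
  obtain ⟨N, hN⟩ := eventually_atTop.1 (hev.and (linA_conv_all ha0 ha hε))
  set v : ι → ℕ → ℝ := fun j l => u j l * (l : ℝ) ^ (5 / 2 : ℝ) / m j with hv
  have hv0 : ∀ j l, 0 ≤ v j l := fun j l =>
    div_nonneg (mul_nonneg (hu0 j l) (by positivity)) (hm j).le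
  have huv : ∀ j l, 1 ≤ l → u j l = v j l * m j * (l : ℝ) ^ (-(5 / 2) : ℝ) := by
    intro j l hl
    simp only [hv]
    rw [div_mul_cancel₀ _ (hm j).ne', mul_assoc, linA_cancel hl, mul_one]
  have hle : ∀ j l ρ, 1 ≤ l → v j l ≤ ρ → u j l ≤ ρ * m j * (l : ℝ) ^ (-(5 / 2) : ℝ) := by
    intro j l ρ hl hρ
    rw [huv j l hl]
    exact mul_le_mul_of_nonneg_right (mul_le_mul_of_nonneg_right hρ (hm j).le) (by positivity)
  set K0 : ℝ := ∑ j, ∑ l ∈ Finset.range (N + 1), v j l + |b| / (ε * c) with hK0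
  have hS0 : 0 ≤ ∑ j, ∑ l ∈ Finset.range (N + 1), v j l :=
    Finset.sum_nonneg fun j _ => Finset.sum_nonneg fun l _ => hv0 j l
  have hb0 : 0 ≤ |b| / (ε * c) := by positivity
  have hK00 : 0 ≤ K0 := add_nonneg hS0 hb0
  have hsmall : ∀ j l, l ≤ N → v j l ≤ K0 := by
    intro j l hl
    have h1 : v j l ≤ ∑ l ∈ Finset.range (N + 1), v j l :=
      Finset.single_le_sum (fun l _ => hv0 j l) (Finset.mem_range.2 (by omega))
    have h2 : ∑ l ∈ Finset.range (N + 1), v j l ≤ ∑ j, ∑ l ∈ Finset.range (N + 1), v j l :=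
      Finset.single_le_sum (f := fun j => ∑ l ∈ Finset.range (N + 1), v j l)
        (fun j _ => Finset.sum_nonneg fun l _ => hv0 j l) (Finset.mem_univ j)
    linarith
  have key : ∀ n j, v j n ≤ K0 := by
    intro n
    induction n using Nat.strong_induction_on with
    | _ n ih =>
      intro j
      by_cases hn : n ≤ N
      · exact hsmall j n hn
      have : Nonempty ι := ⟨j⟩
      obtain ⟨i0, hi0⟩ := Finite.exists_max fun j => v j n
      by_contra hcon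
      have hρK : K0 < v i0 n := (not_le.1 hcon).trans_le (hi0 j)
      set ρ := v i0 n with hρ
      have hρ0 : 0 ≤ ρ := hv0 i0 n
      have hall : ∀ j l, l ≤ n → v j l ≤ ρ := by
        intro j l hl
        rcases hl.lt_or_eq with h1 | h1
        · exact (ih l h1 j).trans hρK.le
        · rw [h1]; exact hi0 j
      have hn1 : 1 ≤ n := by omega
      obtain ⟨hN1, hN2⟩ := hN n (by omega)
      have h1 := hN1 (ρ * M) (by positivity) (fun j l hl1 hl2 => by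
        refine (hle j l ρ hl1 (hall j l hl2)).trans ?_
        exact mul_le_mul_of_nonneg_right (mul_le_mul_of_nonneg_left (hmM j) hρ0)
          (by positivity)) i0
      have h2 := linA_step ha0 hm hρ0 hN2 (u := u)
        (fun j l hl => hle j (n - l) ρ (by omega) (hall j (n - l) (by omega))) i0
      have h3 : (0 : ℝ) < (n : ℝ) ^ (-(5 / 2) : ℝ) :=
        Real.rpow_pos_of_pos (by exact_mod_cast hn1) _
      have h4 : ρ * m i0 * (n : ℝ) ^ (-(5 / 2) : ℝ) ≤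
          ((1 + ε) * (ρ * ∑ j, (A i0 j + ε) * m j) + (b + ε * (ρ * M))) *
            (n : ℝ) ^ (-(5 / 2) : ℝ) := by
        rw [← huv i0 n hn1]
        have := mul_le_mul_of_nonneg_left h2 (show 0 ≤ 1 + ε by linarith)
        linarith
      have h5 := le_of_mul_le_mul_right h4 h3
      have h6 := mul_le_mul_of_nonneg_left (hgap i0) hρ0
      have h7 : ρ * (ε * c) ≤ |b| := by
        have h8 := mul_le_mul_of_nonneg_left (hcm i0) (mul_nonneg hρ0 hε.le)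
        have h9 := le_abs_self b
        nlinarith
      have h8 : ρ ≤ |b| / (ε * c) := (le_div_iff₀ (by positivity)).2 h7
      linarith
  refine ⟨K0 * M, fun i n hn => (hle i n K0 hn (key n i)).trans ?_⟩
  exact mul_le_mul_of_nonneg_right (mul_le_mul_of_nonneg_left (hmM i) hK00) (by positivity)

/-- asymptotic bound -/
theorem lin_limsup (A : ι → ι → ℝ) (a : ι → ι → ℕ → ℝ) (ha0 : ∀ i j l, 0 ≤ a i j l)
    (ha : ∀ i j, HasSum (a i j) (A i j)) (m : ι → ℝ) (hm : ∀ i, 0 < m i)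
    (h : ∀ i, ∑ j, A i j * m j < m i) :
    ∃ ε C : ℝ, 0 < ε ∧ ∀ (u : ι → ℕ → ℝ) (K b : ℝ), 0 < b → (∀ i n, 0 ≤ u i n) →
      (∀ i, ∀ n : ℕ, 1 ≤ n → u i n ≤ K * (n : ℝ) ^ (-(5 / 2) : ℝ)) →
      (∀ᶠ n : ℕ in atTop, ∀ i,
        u i n ≤ (1 + ε) * ∑ j, ∑ l ∈ Finset.range ((n + 1) / 2), a i j l * u j (n - l) +
          b * (n : ℝ) ^ (-(5 / 2) : ℝ)) →
      ∀ᶠ n : ℕ in atTop, ∀ i, u i n ≤ C * b * (n : ℝ) ^ (-(5 / 2) : ℝ) := by
  obtain ⟨ε, c, M, hε, hε1, hc, hM, hcm, hmM, hgap⟩ := linA_gap A m hm h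
  refine ⟨ε, 2 * M / (ε * c), hε, fun u K b hb hu0 hK hev => ?_⟩
  have hstep : ∀ ρ : ℝ, 0 ≤ ρ →
      (∀ᶠ n : ℕ in atTop, ∀ i, u i n ≤ ρ * m i * (n : ℝ) ^ (-(5 / 2) : ℝ)) →
      ∀ᶠ n : ℕ in atTop, ∀ i,
        u i n ≤ ((1 - ε) * ρ + b / c) * m i * (n : ℝ) ^ (-(5 / 2) : ℝ) := by
    intro ρ hρ hQ
    obtain ⟨N, hN⟩ := eventually_atTop.1 hQ
    filter_upwards [hev, linA_conv_all ha0 ha hε, eventually_ge_atTop (2 * N)] with n h1 h2 h3 i
    have h4 := linA_step ha0 hm hρ h2 (u := u) (fun j l hl => hN (n - l) (by omega) j) i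
    have h5 : (0 : ℝ) ≤ (n : ℝ) ^ (-(5 / 2) : ℝ) := by positivity
    have h6 : (1 + ε) * (ρ * ∑ j, (A i j + ε) * m j) + b ≤ ((1 - ε) * ρ + b / c) * m i := by
      have h7 := mul_le_mul_of_nonneg_left (hgap i) hρ
      have h8 : b ≤ b / c * m i := by
        rw [div_mul_eq_mul_div, le_div_iff₀ hc]
        exact mul_le_mul_of_nonneg_left (hcm i) hb.le
      have h9 : 0 ≤ ρ * (ε * M) := by positivity
      nlinarith
    have h7 := mul_le_mul_of_nonneg_right h6 h5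
    have h8 := mul_le_mul_of_nonneg_left h4 (show 0 ≤ 1 + ε by linarith)
    have h9 := h1 i
    linarith
  set ρ0 : ℝ := |K| / c with hρ0
  have hρ00 : 0 ≤ ρ0 := by positivity
  have hiter : ∀ k : ℕ, ∀ᶠ n : ℕ in atTop, ∀ i,
      u i n ≤ ((1 - ε) ^ k * ρ0 + b / (ε * c)) * m i * (n : ℝ) ^ (-(5 / 2) : ℝ) := by
    intro k
    induction k with
    | zero =>
      filter_upwards [eventually_ge_atTop 1] with n hn i
      refine (hK i n hn).trans (mul_le_mul_of_nonneg_right ?_ (by positivity))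
      have h1 : |K| ≤ ρ0 * m i := by
        rw [hρ0, div_mul_eq_mul_div, le_div_iff₀ hc]
        exact mul_le_mul_of_nonneg_left (hcm i) (abs_nonneg K)
      have h2 : 0 ≤ b / (ε * c) * m i := mul_nonneg (by positivity) (hm i).le
      have h3 := le_abs_self K
      rw [pow_zero, one_mul]
      linarith
    | succ k ih =>
      have h0 : 0 ≤ 1 - ε := by linarith
      have h1 := hstep _ (by positivity) ih
      have h2 : (1 - ε) * ((1 - ε) ^ k * ρ0 + b / (ε * c)) + b / c =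
          (1 - ε) ^ (k + 1) * ρ0 + b / (ε * c) := by
        field_simp
        ring
      rwa [h2] at h1
  have hlim : Tendsto (fun k : ℕ => (1 - ε) ^ k * ρ0) atTop (𝓝 (0 * ρ0)) :=
    (tendsto_pow_atTop_nhds_zero_of_lt_one (by linarith) (by linarith)).mul_const _
  rw [zero_mul] at hlim
  obtain ⟨k, hk⟩ := (hlim.eventually
    (eventually_lt_nhds (show (0 : ℝ) < b / (ε * c) by positivity))).exists
  filter_upwards [hiter k] with n hn i
  refine (hn i).trans (mul_le_mul_of_nonneg_right ?_ (by positivity))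
  calc ((1 - ε) ^ k * ρ0 + b / (ε * c)) * m i ≤ (2 * (b / (ε * c))) * M :=
        mul_le_mul (by linarith) (hmM i) (hm i).le (by positivity)
    _ = 2 * M / (ε * c) * b := by ring

end Pool.Agent.Lib.MP_77dff5_pr
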