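import Pool.Agent.Lib.MP_77dff5_pr.WinA

/-! Cores with many slots: the window where the mean size is close to the size. -/

set_option autoImplicit false

namespace Pool.Agent.Lib.MP_77dff5_pr

open MeasureTheory ProbabilityTheory Filter Topology
open scoped ENNReal NNReal

section aux

variable {T : Type} {pos : T → ℝ}

theorem winH_ofReal_mono {a a' x : ℝ} (h : a ≤ a') (hx : 0 ≤ x) :
    ENNReal.ofReal (a * x) ≤ ENNReal.ofReal (a' * x) :=
  ENNReal.ofReal_le_ofReal (mul_le_mul_of_nonneg_right h hx)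

theorem winH_mono {c c' : T → ℝ≥0∞} {e K : ℝ} (hK : 0 ≤ K) (h : DyB pos c e)
    (hc : ∀ t, c' t ≤ ENNReal.ofReal K * c t) : DyB pos c' e := by
  obtain ⟨A, hA⟩ := h
  refine ⟨K * A, fun y hy => ?_⟩
  calc ∑' t : {t // y ≤ pos t ∧ pos t ≤ 2 * y}, c' t
      ≤ ∑' t : {t // y ≤ pos t ∧ pos t ≤ 2 * y}, ENNReal.ofReal K * c t :=
        ENNReal.tsum_le_tsum fun t => hc t
    _ = ENNReal.ofReal K * ∑' t : {t // y ≤ pos t ∧ pos t ≤ 2 * y}, c t := ENNReal.tsum_mul_left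
    _ ≤ ENNReal.ofReal K * ENNReal.ofReal (A * y ^ e) := mul_le_mul_right (hA y hy) _
    _ = ENNReal.ofReal (K * A * y ^ e) := by rw [← ENNReal.ofReal_mul hK, mul_assoc]

theorem winH_add {c c' : T → ℝ≥0∞} {e : ℝ} (h : DyB pos c e) (h' : DyB pos c' e) :
    DyB pos (fun t => c t + c' t) e := by
  obtain ⟨A, hA⟩ := h
  obtain ⟨A', hA'⟩ := h'
  refine ⟨|A| + |A'|, fun y hy => ?_⟩
  have hy0 : 0 ≤ y ^ e := Real.rpow_nonneg (by linarith) _
  rw [ENNReal.tsum_add, add_mul, ENNReal.ofReal_add (by positivity) (by positivity)]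
  exact add_le_add ((hA y hy).trans (winH_ofReal_mono (le_abs_self _) hy0))
    ((hA' y hy).trans (winH_ofReal_mono (le_abs_self _) hy0))

theorem winH_tsum_split (f : T → ℝ≥0∞) (p q : T → Prop) (hpq : ∀ t, p t ∨ q t) :
    ∑' t, f t ≤ ∑' t : {t // p t}, f t + ∑' t : {t // q t}, f t := by
  have e1 : ∑' t : {t // p t}, f t = ∑' t, ({t | p t} : Set T).indicator f t :=
    tsum_subtype ({t | p t} : Set T) f
  have e2 : ∑' t : {t // q t}, f t = ∑' t, ({t | q t} : Set T).indicator f t :=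
    tsum_subtype ({t | q t} : Set T) f
  rw [e1, e2, ← ENNReal.tsum_add]
  refine ENNReal.tsum_le_tsum fun t => ?_
  rcases hpq t with h | h
  · rw [Set.indicator_of_mem (show t ∈ ({t | p t} : Set T) from h)]
    exact le_self_add
  · rw [Set.indicator_of_mem (show t ∈ ({t | q t} : Set T) from h)]
    exact le_add_self

theorem winH_tsum_sub (f : T → ℝ≥0∞) (p q : T → Prop) (hpq : ∀ t, p t → q t) :
    ∑' t : {t // p t}, f t ≤ ∑' t : {t // q t}, f t :=
  ENNReal.tsum_comp_le_tsum_of_injective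
    (f := fun t : {t // p t} => (⟨t.1, hpq t.1 t.2⟩ : {t // q t}))
    (fun _ _ h => Subtype.ext (congrArg (Subtype.val : {t // q t} → T) h))
    (fun t : {t // q t} => f t)

theorem winH_real_le {f : T → ℝ} {a : ℝ} (hf : ∀ t, 0 ≤ f t) (ha : 0 ≤ a)
    (h : ∑' t, ENNReal.ofReal (f t) ≤ ENNReal.ofReal a) : ∑' t, f t ≤ a := by
  by_cases hs : Summable f
  · rw [← ENNReal.ofReal_tsum_of_nonneg hf hs] at h
    exact (ENNReal.ofReal_le_ofReal_iff ha).1 h
  · rw [tsum_eq_zero_of_not_summable hs]; exact ha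

/-- split at `pos = 1 / l` -/
theorem winH_split {c c' : T → ℝ≥0∞} (h1 : ∀ t, 1 ≤ pos t) (hc : DyB pos c (-(1 / 2)))
    (hc' : DyB pos c' (1 / 2)) :
    ∃ A : ℝ, 0 ≤ A ∧ ∀ l : ℝ, 0 < l → l ≤ 1 → ∀ (f : T → ℝ) (a : ℝ), 0 ≤ a → (∀ t, 0 ≤ f t) →
      (∀ t, ENNReal.ofReal (f t) ≤ ENNReal.ofReal a * c t) →
      (∀ t, ENNReal.ofReal (f t) ≤ ENNReal.ofReal (a * l) * c' t) →
      ∑' t, f t ≤ A * (a * l ^ (1 / 2 : ℝ)) := by
  obtain ⟨A, hA⟩ := hc.tail (by norm_num)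
  obtain ⟨A', hA'⟩ := hc'.head (by norm_num)
  refine ⟨|A| + |A'|, by positivity, fun l hl hl1 f a ha hf hf1 hf2 => ?_⟩
  have hy : 1 ≤ l⁻¹ := (one_le_inv₀ hl).2 hl1
  have hl2 : 0 ≤ l ^ (1 / 2 : ℝ) := Real.rpow_nonneg hl.le _
  refine winH_real_le hf (by positivity) ?_
  have e1 : (l⁻¹) ^ (-(1 / 2) : ℝ) = l ^ (1 / 2 : ℝ) := by
    rw [Real.inv_rpow hl.le, Real.rpow_neg hl.le, inv_inv]
  have e2 : l * (l⁻¹) ^ (1 / 2 : ℝ) = l ^ (1 / 2 : ℝ) := by
    rw [Real.inv_rpow hl.le, ← Real.rpow_neg hl.le]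
    nth_rewrite 1 [← Real.rpow_one l]
    rw [← Real.rpow_add hl]
    norm_num
  have t1 : ∑' t : {t // l⁻¹ ≤ pos t}, ENNReal.ofReal (f t) ≤
      ENNReal.ofReal (|A| * (a * l ^ (1 / 2 : ℝ))) := by
    calc ∑' t : {t // l⁻¹ ≤ pos t}, ENNReal.ofReal (f t)
        ≤ ∑' t : {t // l⁻¹ ≤ pos t}, ENNReal.ofReal a * c t := ENNReal.tsum_le_tsum fun t => hf1 t
      _ = ENNReal.ofReal a * ∑' t : {t // l⁻¹ ≤ pos t}, c t := ENNReal.tsum_mul_left
      _ ≤ ENNReal.ofReal a * ENNReal.ofReal (A * (l⁻¹) ^ (-(1 / 2) : ℝ)) :=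
          mul_le_mul_right (hA _ hy) _
      _ = ENNReal.ofReal (A * (a * l ^ (1 / 2 : ℝ))) := by
          rw [← ENNReal.ofReal_mul ha, e1]; congr 1; ring
      _ ≤ _ := winH_ofReal_mono (le_abs_self _) (by positivity)
  have t2 : ∑' t : {t // 1 ≤ pos t ∧ pos t ≤ l⁻¹}, ENNReal.ofReal (f t) ≤
      ENNReal.ofReal (|A'| * (a * l ^ (1 / 2 : ℝ))) := by
    calc ∑' t : {t // 1 ≤ pos t ∧ pos t ≤ l⁻¹}, ENNReal.ofReal (f t)
        ≤ ∑' t : {t // 1 ≤ pos t ∧ pos t ≤ l⁻¹}, ENNReal.ofReal (a * l) * c' t :=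
          ENNReal.tsum_le_tsum fun t => hf2 t
      _ = ENNReal.ofReal (a * l) * ∑' t : {t // 1 ≤ pos t ∧ pos t ≤ l⁻¹}, c' t :=
          ENNReal.tsum_mul_left
      _ ≤ ENNReal.ofReal (a * l) * ENNReal.ofReal (A' * (l⁻¹) ^ (1 / 2 : ℝ)) :=
          mul_le_mul_right (hA' _ hy) _
      _ = ENNReal.ofReal (A' * (a * l ^ (1 / 2 : ℝ))) := by
          rw [← ENNReal.ofReal_mul (by positivity)]; congr 1
          calc a * l * (A' * l⁻¹ ^ (1 / 2 : ℝ)) = A' * (a * (l * l⁻¹ ^ (1 / 2 : ℝ))) := by ring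
            _ = _ := by rw [e2]
      _ ≤ _ := winH_ofReal_mono (le_abs_self _) (by positivity)
  refine (winH_tsum_split _ (fun t => l⁻¹ ≤ pos t) (fun t => 1 ≤ pos t ∧ pos t ≤ l⁻¹)
    (fun t => ?_)).trans ?_
  · rcases le_total (l⁻¹) (pos t) with h | h
    · exact Or.inl h
    · exact Or.inr ⟨h1 t, h⟩
  · rw [add_mul, ENNReal.ofReal_add (by positivity) (by positivity)]
    exact add_le_add t1 t2

/-- head sums over `k ≤ M` -/
theorem winH_head {c : T → ℝ≥0∞} {k : T → ℕ} {C : ℝ} (h1 : ∀ t, 1 ≤ pos t) (hC : 1 ≤ C)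
    (hk : ∀ t, pos t ≤ C * k t) (hc : DyB pos c (1 / 2)) :
    ∃ A : ℝ, 0 ≤ A ∧ ∀ M : ℕ, 1 ≤ M →
      ∑' t : {t // k t ≤ M}, c t ≤ ENNReal.ofReal (A * (M : ℝ) ^ (1 / 2 : ℝ)) := by
  obtain ⟨A, hA⟩ := hc.head (by norm_num)
  have hC0 : 0 ≤ C := by linarith
  refine ⟨|A| * C ^ (1 / 2 : ℝ), by positivity, fun M hM => ?_⟩
  have hM1 : (1 : ℝ) ≤ M := by exact_mod_cast hM
  have hy : 1 ≤ C * M := by nlinarith
  refine (winH_tsum_sub c (fun t => k t ≤ M) (fun t => 1 ≤ pos t ∧ pos t ≤ C * M)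
    (fun t ht => ⟨h1 t, (hk t).trans ?_⟩)).trans ((hA _ hy).trans ?_)
  · exact mul_le_mul_of_nonneg_left (by exact_mod_cast ht) hC0
  · rw [Real.mul_rpow hC0 (by positivity), mul_assoc]
    exact winH_ofReal_mono (le_abs_self _) (by positivity)

theorem winH_mul_pos {c : T → ℝ≥0∞} {e e' : ℝ} (h : DyB pos c e) (he : e + 1 = e') :
    DyB pos (fun t => c t * ENNReal.ofReal (pos t)) e' := by
  have := h.mul_rpow 1
  simp only [Real.rpow_one] at this
  rwa [he] at this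

theorem winH_exp_le {u : ℝ} (hu : 0 ≤ u) :
    0 ≤ Real.exp (-u) - 1 + u ∧ Real.exp (-u) - 1 + u ≤ u ∧ Real.exp (-u) - 1 + u ≤ u ^ 2 := by
  have h1 := Real.add_one_le_exp (-u)
  have h2 : Real.exp (-u) ≤ 1 := Real.exp_le_one_iff.2 (by linarith)
  refine ⟨by linarith, by linarith, ?_⟩
  have h3 := Real.add_one_le_exp u
  have h4 : Real.exp (-u) * Real.exp u = 1 := by rw [← Real.exp_add]; simp
  have h5 : 0 < Real.exp (-u) := Real.exp_pos _
  have h6 : Real.exp (-u) * (u + 1) ≤ 1 := by nlinarith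
  have h7 : Real.exp (-u) * (u + 1) ≤ (1 - u + u ^ 2) * (u + 1) := by nlinarith [pow_nonneg hu 3]
  have h8 := le_of_mul_le_mul_right h7 (by linarith : 0 < u + 1)
  linarith

end aux

variable {Ω J : Type} [MeasurableSpace Ω]

section aux2

variable [Fintype J] {ν : J → Measure Ω} {s : Ω → ℕ} {F : Fam Ω J} {Δ : ℕ} {B : ℝ} {j₀ : J}

theorem winH_pos_le (hF : F.Heavy ν s j₀ Δ B) :
    ∃ C : ℝ, 1 ≤ C ∧ ∀ t, F.pos ν s t ≤ C * (F.core t).k := by
  have hm : ∀ j, 0 ≤ ∫ ω, (s ω : ℝ) ∂ν j := fun j => integral_nonneg fun ω => by positivity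
  have hm' : 0 ≤ ∑ j, ∫ ω, (s ω : ℝ) ∂ν j := Finset.sum_nonneg fun j _ => hm j
  refine ⟨1 + 2 * Δ + ∑ j, ∫ ω, (s ω : ℝ) ∂ν j, by
    have : (0 : ℝ) ≤ Δ := by positivity
    linarith, fun t => ?_⟩
  have h1 : ((F.core t).s0 : ℝ) ≤ Δ * ((F.core t).k + 1) := by
    exact_mod_cast (hF.good t).s0_le
  have h2 : (1 : ℝ) ≤ (F.core t).k := by exact_mod_cast hF.k_pos t
  have h3 : ∑ i, ∫ ω, (s ω : ℝ) ∂ν ((F.core t).cls i) ≤
      (F.core t).k * ∑ j, ∫ ω, (s ω : ℝ) ∂ν j := by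
    have := Finset.sum_le_card_nsmul (Finset.univ : Finset (F.core t).I)
      (fun i => ∫ ω, (s ω : ℝ) ∂ν ((F.core t).cls i)) (∑ j, ∫ ω, (s ω : ℝ) ∂ν j)
      (fun i _ => Finset.single_le_sum (f := fun j => ∫ ω, (s ω : ℝ) ∂ν j)
        (fun j _ => hm j) (Finset.mem_univ _))
    rwa [nsmul_eq_mul, Finset.card_univ] at this
  have h4 : (0 : ℝ) ≤ Δ := by positivity
  unfold Fam.pos Core.mean
  nlinarith

omit [Fintype J] in
theorem winH_k_le (hF : F.Heavy ν s j₀ Δ B) (t : F.T) :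
    ((F.core t).k : ℝ) ≤ |B| * F.pos ν s t :=
  (hF.k_le t).trans (mul_le_mul_of_nonneg_right (le_abs_self _)
    (le_trans zero_le_one (hF.one_le t)))

omit [Fintype J] in
theorem winH_dy_w (hw : WinB (F.pos ν s) (fun t => F.w t) (-(11 / 6))) :
    DyB (F.pos ν s) (fun t => F.w t * ENNReal.ofReal (F.pos ν s t)) (-(1 / 2)) :=
  winH_mul_pos hw.dyB (by norm_num)

end aux2

variable [Countable Ω] [DiscreteMeasurableSpace Ω] [Fintype J]
  {ν : J → Measure Ω} {s : Ω → ℕ} {z : Ω → ℝ} {F : Fam Ω J} {Δ : ℕ} {B A c₀ : ℝ} {j₀ : J}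

/-- the hypotheses of the global and of the big jump estimates -/
theorem Fam.heavy_sums (h : Slots1 ν s z) (hF : F.Heavy ν s j₀ Δ B)
    (hw : WinB (F.pos ν s) (fun t => F.w t) (-(11 / 6)))
    (h4 : WinB (F.pos ν s) (fun t => F.w t * ENNReal.ofReal ((F.core t).L ν z ^ 4)) (1 / 6)) :
    (Summable fun t => (F.w t : ℝ) * (F.core t).L ν z ^ 2) ∧
    (∃ A : ℝ, ∀ M : ℕ, 1 ≤ M → ∑' t : {t // (F.core t).k ≤ M}, (F.w t : ℝ≥0∞) * ENNReal.ofReal
      ((F.core t).k * ((F.core t).L ν z ^ 2 + (F.core t).k)) ≤ ENNReal.ofReal (A * M)) ∧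
    (∃ A : ℝ, ∀ l : ℝ, 0 < l → l ≤ 1 →
      ∑' t, (F.w t : ℝ) * ((F.core t).L ν z ^ 2 + (F.core t).k + 1) *
        min 1 (((F.core t).k + 1) * l) ≤ A * l ^ (1 / 2 : ℝ)) := by
  have hp1 : ∀ t, 1 ≤ F.pos ν s t := hF.one_le
  have hk := winH_k_le hF
  have d1 := winH_dy_w hw
  have d2 : DyB (F.pos ν s) (fun t => F.w t * ENNReal.ofReal ((F.core t).L ν z ^ 4) *
      ENNReal.ofReal (F.pos ν s t ^ (-1 : ℝ))) (-(1 / 2)) := by
    have := h4.dyB.mul_rpow (-1)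
    rwa [show (1 / 6 + 1 / 3 + -1 : ℝ) = -(1 / 2) by norm_num] at this
  -- the basic weight
  have d3 : DyB (F.pos ν s) (fun t => F.w t *
      ENNReal.ofReal ((F.core t).L ν z ^ 2 + (F.core t).k + 1)) (-(1 / 2)) := by
    refine winH_mono (K := |B| + 2) (by positivity) (winH_add d1 d2) fun t => ?_
    have hp := hp1 t
    have hp0 : 0 < F.pos ν s t := by linarith
    rw [mul_assoc, ← mul_add, ← ENNReal.ofReal_mul (by positivity),
      ← ENNReal.ofReal_add hp0.le (by positivity), mul_left_comm,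
      ← ENNReal.ofReal_mul (by positivity)]
    refine mul_le_mul_right (ENNReal.ofReal_le_ofReal ?_) _
    rw [Real.rpow_neg_one]
    set L := (F.core t).L ν z
    set p := F.pos ν s t
    have e1 : L ^ 2 ≤ p + L ^ 4 * p⁻¹ := by
      have : L ^ 2 * p ≤ (p + L ^ 4 * p⁻¹) * p := by
        have e : (p + L ^ 4 * p⁻¹) * p = p ^ 2 + L ^ 4 := by field_simp
        rw [e]
        nlinarith [sq_nonneg (p - L ^ 2), mul_nonneg (sq_nonneg L) hp0.le]
      exact le_of_mul_le_mul_right this hp0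
    have e2 : 0 ≤ L ^ 4 * p⁻¹ := by positivity
    have e3 := hk t
    have e4 : 0 ≤ |B| * (L ^ 4 * p⁻¹) := by positivity
    nlinarith
  have d4 := winH_mul_pos d3 (show (-(1 / 2) + 1 : ℝ) = 1 / 2 by norm_num)
  refine ⟨?_, ?_, ?_⟩
  · obtain ⟨A, hA⟩ := d3.tail (by norm_num)
    have h1 := hA 1 le_rfl
    have h2 : ∑' t, ENNReal.ofReal ((F.w t : ℝ) * (F.core t).L ν z ^ 2) ≠ ⊤ := by
      refine ne_top_of_le_ne_top ENNReal.ofReal_ne_top (le_trans ?_ h1)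
      refine le_trans (ENNReal.tsum_le_tsum fun t => ?_)
        (ENNReal.tsum_comp_le_tsum_of_injective
          (f := fun t : F.T => (⟨t, hp1 t⟩ : {t // 1 ≤ F.pos ν s t}))
          (fun _ _ h => congrArg Subtype.val h) _)
      rw [ENNReal.ofReal_mul (by positivity), ENNReal.ofReal_coe_nnreal]
      refine mul_le_mul_right (ENNReal.ofReal_le_ofReal ?_) _
      have : (0 : ℝ) ≤ (F.core t).k := by positivity
      linarith
    have h3 := ENNReal.summable_toReal h2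
    refine h3.congr fun t => ?_
    exact ENNReal.toReal_ofReal (by positivity)
  · obtain ⟨C, hC, hkC⟩ := winH_pos_le hF
    have d5 : DyB (F.pos ν s) (fun t => (F.w t : ℝ≥0∞) * ENNReal.ofReal
        ((F.core t).k * ((F.core t).L ν z ^ 2 + (F.core t).k))) (1 / 2) := by
      refine winH_mono (K := |B|) (abs_nonneg _) d4 fun t => ?_
      rw [mul_assoc, ← ENNReal.ofReal_mul (by positivity), mul_left_comm,
        ← ENNReal.ofReal_mul (abs_nonneg _)]
      refine mul_le_mul_right (ENNReal.ofReal_le_ofReal ?_) _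
      have e1 := hk t
      have e2 : (0 : ℝ) ≤ (F.core t).k := by positivity
      have e3 : 0 ≤ (F.core t).L ν z ^ 2 + (F.core t).k := by positivity
      nlinarith [mul_le_mul_of_nonneg_right e1 e3]
    obtain ⟨A, hA0, hA⟩ := winH_head (k := fun t => (F.core t).k) hp1 hC hkC d5
    refine ⟨A, fun M hM => (hA M hM).trans (ENNReal.ofReal_le_ofReal ?_)⟩
    refine mul_le_mul_of_nonneg_left ?_ hA0
    have hM1 : (1 : ℝ) ≤ M := by exact_mod_cast hM
    calc (M : ℝ) ^ (1 / 2 : ℝ) ≤ (M : ℝ) ^ (1 : ℝ) :=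
          Real.rpow_le_rpow_of_exponent_le hM1 (by norm_num)
      _ = M := Real.rpow_one _
  · have d5 : DyB (F.pos ν s) (fun t => (F.w t : ℝ≥0∞) * ENNReal.ofReal
        (((F.core t).L ν z ^ 2 + (F.core t).k + 1) * ((F.core t).k + 1))) (1 / 2) := by
      refine winH_mono (K := |B| + 1) (by positivity) d4 fun t => ?_
      rw [mul_assoc, ← ENNReal.ofReal_mul (by positivity), mul_left_comm,
        ← ENNReal.ofReal_mul (by positivity)]
      refine mul_le_mul_right (ENNReal.ofReal_le_ofReal ?_) _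
      have e1 : ((F.core t).k : ℝ) + 1 ≤ (|B| + 1) * F.pos ν s t := by
        have := hk t
        have := hp1 t
        linarith
      have e3 : 0 ≤ (F.core t).L ν z ^ 2 + (F.core t).k + 1 := by positivity
      nlinarith [mul_le_mul_of_nonneg_right e1 e3]
    obtain ⟨A, -, hA⟩ := winH_split hp1 d3 d5
    refine ⟨A, fun l hl hl1 => ?_⟩
    have := hA l hl hl1 (fun t => (F.w t : ℝ) * ((F.core t).L ν z ^ 2 + (F.core t).k + 1) *
        min 1 (((F.core t).k + 1) * l)) 1 zero_le_one (fun t => by positivity) (fun t => ?_)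
        (fun t => ?_)
    · rwa [one_mul] at this
    · rw [ENNReal.ofReal_one, one_mul, mul_assoc, ENNReal.ofReal_mul (by positivity),
        ENNReal.ofReal_coe_nnreal]
      refine mul_le_mul_right (ENNReal.ofReal_le_ofReal ?_) _
      exact mul_le_of_le_one_right (by positivity) (min_le_left _ _)
    · rw [one_mul, mul_assoc, ENNReal.ofReal_mul (by positivity), ENNReal.ofReal_coe_nnreal,
        mul_left_comm, ← ENNReal.ofReal_mul hl.le]
      refine mul_le_mul_right (ENNReal.ofReal_le_ofReal ?_) _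
      have e3 : 0 ≤ (F.core t).L ν z ^ 2 + (F.core t).k + 1 := by positivity
      nlinarith [mul_le_mul_of_nonneg_left
        (min_le_right (1 : ℝ) ((((F.core t).k : ℝ) + 1) * l)) e3]

theorem Fam.heavy_RL (h : Slots1 ν s z) (hF : F.Heavy ν s j₀ Δ B)
    (hw : WinB (F.pos ν s) (fun t => F.w t) (-(11 / 6))) :
    (∃ A : ℝ, ∀ l : ℝ, 0 < l → l ≤ 1 → ∑' t, (F.w t : ℝ) *
      (Real.exp (-(l * (F.core t).mean ν s)) - 1 + l * (F.core t).mean ν s) ≤
        A * l ^ (3 / 2 : ℝ)) ∧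
    ∃ A : ℝ, ∀ M : ℕ, 1 ≤ M → ∑' t : {t // (F.core t).k ≤ M}, (F.w t : ℝ≥0∞) *
      ENNReal.ofReal (((F.core t).k : ℝ) ^ 2) ≤ ENNReal.ofReal (A * (M : ℝ) ^ (1 / 2 : ℝ)) := by
  have hp1 : ∀ t, 1 ≤ F.pos ν s t := hF.one_le
  have hk := winH_k_le hF
  have d1 := winH_dy_w hw
  have d2 := winH_mul_pos d1 (show (-(1 / 2) + 1 : ℝ) = 1 / 2 by norm_num)
  refine ⟨?_, ?_⟩
  · obtain ⟨A, -, hA⟩ := winH_split hp1 d1 d2
    refine ⟨A, fun l hl hl1 => ?_⟩
    have hu : ∀ t, 0 ≤ l * F.pos ν s t := fun t => mul_nonneg hl.le (by linarith [hp1 t])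
    have := hA l hl hl1 (fun t => (F.w t : ℝ) *
      (Real.exp (-(l * F.pos ν s t)) - 1 + l * F.pos ν s t)) l hl.le
      (fun t => mul_nonneg (by positivity) (winH_exp_le (hu t)).1) (fun t => ?_) (fun t => ?_)
    · have e : l * l ^ (1 / 2 : ℝ) = l ^ (3 / 2 : ℝ) := by
        nth_rewrite 1 [← Real.rpow_one l]
        rw [← Real.rpow_add hl]
        norm_num
      rw [e] at this
      exact this
    · rw [ENNReal.ofReal_mul (by positivity), ENNReal.ofReal_coe_nnreal, mul_left_comm,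
        ← ENNReal.ofReal_mul hl.le]
      exact mul_le_mul_right (ENNReal.ofReal_le_ofReal (winH_exp_le (hu t)).2.1) _
    · have hp0 : 0 ≤ F.pos ν s t := by linarith [hp1 t]
      rw [ENNReal.ofReal_mul (by positivity), ENNReal.ofReal_coe_nnreal, mul_assoc,
        ← ENNReal.ofReal_mul hp0, mul_left_comm, ← ENNReal.ofReal_mul (by positivity)]
      refine mul_le_mul_right (ENNReal.ofReal_le_ofReal ?_) _
      refine (winH_exp_le (hu t)).2.2.trans (le_of_eq ?_)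
      ring
  · obtain ⟨C, hC, hkC⟩ := winH_pos_le hF
    have d5 : DyB (F.pos ν s) (fun t => (F.w t : ℝ≥0∞) *
        ENNReal.ofReal (((F.core t).k : ℝ) ^ 2)) (1 / 2) := by
      refine winH_mono (K := |B| ^ 2) (by positivity) d2 fun t => ?_
      have hp0 : 0 ≤ F.pos ν s t := by linarith [hp1 t]
      rw [mul_assoc, ← ENNReal.ofReal_mul hp0, mul_left_comm,
        ← ENNReal.ofReal_mul (by positivity)]
      refine mul_le_mul_right (ENNReal.ofReal_le_ofReal ?_) _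
      have e1 := hk t
      have e2 : (0 : ℝ) ≤ (F.core t).k := by positivity
      nlinarith [mul_self_le_mul_self e2 e1]
    obtain ⟨A, -, hA⟩ := winH_head (k := fun t => (F.core t).k) hp1 hC hkC d5
    exact ⟨A, hA⟩

section large
variable (h : Slots ν s z) (h1 : T1 ν s A) (hc : 0 < c₀) (h4 : T4 (ν j₀) s c₀)
  (hF : F.Heavy ν s j₀ Δ B) (hw : WinB (F.pos ν s) (fun t => F.w t) (-(11 / 6)))
include h h1 hc h4 hF hw

end large

end Pool.Agent.Lib.MP_77dff5_pr
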