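import Pool.Agent.Lib.MP_77dff5_pr.UDefs
import Pool.Agent.Lib.MP_77dff5_pr.Family
import Pool.Agent.Lib.MP_77dff5_pr.WinH
import Pool.Agent.Lib.MP_77dff5_pr.JumpC
import Pool.Agent.Lib.MP_77dff5_pr.KernelA
import Pool.Agent.Lib.MP_77dff5_pr.KernelD
import Pool.Agent.Lib.MP_77dff5_pr.LinA

/-! Systems: tails of the second moment, anticoncentration. -/

set_option autoImplicit false

namespace Pool.Agent.Lib.MP_77dff5_pr

open MeasureTheory ProbabilityTheory Filter Topology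
open scoped ENNReal NNReal

variable {Ω J K : Type} [Countable Ω] [MeasurableSpace Ω] [DiscreteMeasurableSpace Ω] [Fintype J]
  [Fintype K] {ν : J → Measure Ω} {s : Ω → ℕ} {z : Ω → ℝ} {F : K → Fam Ω J} {c : J → K → ℝ≥0}
  {k₀ : K} {j₀ : J} {Δ : ℕ} {B A c₀ : ℝ}

/-- decomposition of an integral according to the size -/
theorem sysB_lint (μ : Measure (ℕ × ℝ)) (φ : ℕ × ℝ → ℝ≥0∞) :
    ∫⁻ p, φ p ∂μ = ∑' n : ℕ, ∫⁻ p in {p | p.1 = n}, φ p ∂μ := by
  rw [← lintegral_iUnion (fun n => measurableSet_eq_fun measurable_fst measurable_const)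
    (fun a b hab => Set.disjoint_left.2 fun p h1 h2 => hab (h1.symm.trans h2))]
  have : (⋃ n : ℕ, {p : ℕ × ℝ | p.1 = n}) = Set.univ :=
    Set.eq_univ_of_forall fun p => Set.mem_iUnion.2 ⟨p.1, rfl⟩
  rw [this, Measure.restrict_univ]

/-- global form of the domination -/
theorem sysB_dom {lam mu : Measure (ℕ × ℝ)} (h : Dom lam mu) :
    ∃ B : ℝ, ∀ ε : ℝ, 0 < ε → ∃ n0 : ℕ, ∀ φ φ' χ : ℕ × ℝ → ℝ≥0∞, Measurable φ → Measurable φ' →
      (∀ (n : ℕ) (u b : ℝ), |b| ≤ B → φ (n, u + b) ≤ φ' (n, u)) →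
      (∀ p : ℕ × ℝ, p.1 ≤ n0 → φ p ≤ χ p) →
      ∫⁻ p, φ p ∂lam ≤ ∫⁻ p, χ p ∂lam + ENNReal.ofReal (1 + ε) * ∫⁻ p, φ' p ∂mu := by
  obtain ⟨B, hB⟩ := h
  refine ⟨B, fun ε hε => ?_⟩
  obtain ⟨n0, hn0⟩ := eventually_atTop.1 (hB ε hε)
  refine ⟨n0, fun φ φ' χ hφ hφ' hle hχ => ?_⟩
  rw [sysB_lint lam φ, sysB_lint lam χ, sysB_lint mu φ', ← ENNReal.tsum_mul_left,
    ← ENNReal.tsum_add]
  refine ENNReal.tsum_le_tsum fun n => ?_
  have hm : MeasurableSet {p : ℕ × ℝ | p.1 = n} :=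
    measurableSet_eq_fun measurable_fst measurable_const
  rcases le_total n n0 with hn | hn
  · refine le_trans ?_ le_self_add
    exact setLIntegral_mono' hm fun p hp => hχ p (le_of_eq_of_le hp hn)
  · refine le_trans ?_ le_add_self
    have h1 := hn0 n hn (fun u => φ (n, u)) (fun u => φ' (n, u))
      (hφ.comp measurable_prodMk_left) (hφ'.comp measurable_prodMk_left) (hle n)
    have h2 : ∀ (ψ : ℕ × ℝ → ℝ≥0∞) (μ : Measure (ℕ × ℝ)),
        ∫⁻ p in {p | p.1 = n}, ψ (n, p.2) ∂μ = ∫⁻ p in {p | p.1 = n}, ψ p ∂μ := fun ψ μ =>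
      setLIntegral_congr_fun hm fun p hp => by
        have : p.1 = n := hp
        simp only [← this]
    rwa [h2 φ lam, h2 φ' mu] at h1

theorem sysB_R2_int {μ : Measure (ℕ × ℝ)} (h2 : Integrable (fun p => p.2 ^ 2) μ) {l : ℝ}
    (hl : 0 ≤ l) : Integrable (fun p : ℕ × ℝ => p.2 ^ 2 * (1 - Real.exp (-(l * p.1)))) μ := by
  refine h2.mono' (Continuous.aestronglyMeasurable (by fun_prop)) (Eventually.of_forall fun p => ?_)
  have h1 := famC_u_nonneg (show 0 ≤ l * p.1 by positivity)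
  rw [Real.norm_of_nonneg (mul_nonneg (sq_nonneg _) h1)]
  exact mul_le_of_le_one_right (sq_nonneg _) (famC_u_le_one _)

theorem sysB_R2_nonneg (μ : Measure (ℕ × ℝ)) {l : ℝ} (hl : 0 ≤ l) : 0 ≤ R2 μ l :=
  integral_nonneg fun p => mul_nonneg (sq_nonneg _) (famC_u_nonneg (by positivity))

theorem sysB_R2_dom {lam mu : Measure (ℕ × ℝ)} (h : Dom lam mu)
    (h2 : Integrable (fun p => p.2 ^ 2) lam) (h2' : Integrable (fun p => p.2 ^ 2) mu)
    (h1' : Integrable (fun p => (p.1 : ℝ)) mu) {η : ℝ} (hη : 0 < η) :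
    ∃ C : ℝ, 0 ≤ C ∧ ∀ l : ℝ, 0 < l → R2 lam l ≤ (1 + η) ^ 2 * R2 mu l + C * l := by
  obtain ⟨B, hB⟩ := sysB_dom h
  obtain ⟨n0, hn0⟩ := hB η hη
  have hI2 : 0 ≤ ∫ p, p.2 ^ 2 ∂lam := integral_nonneg fun p => sq_nonneg _
  have hI1 : 0 ≤ ∫ p, (p.1 : ℝ) ∂mu := integral_nonneg fun p => Nat.cast_nonneg _
  refine ⟨n0 * ∫ p, p.2 ^ 2 ∂lam + (1 + η) * ((1 + η⁻¹) * B ^ 2 * ∫ p, (p.1 : ℝ) ∂mu),
    by positivity, fun l hl => ?_⟩
  have hu : ∀ n : ℕ, 0 ≤ 1 - Real.exp (-(l * n)) := fun n => famC_u_nonneg (by positivity)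
  have k1 := hn0 (fun p => ENNReal.ofReal (p.2 ^ 2 * (1 - Real.exp (-(l * p.1)))))
    (fun p => ENNReal.ofReal ((1 + η) * (p.2 ^ 2 * (1 - Real.exp (-(l * p.1)))) +
      (1 + η⁻¹) * B ^ 2 * l * p.1))
    (fun p => ENNReal.ofReal (l * n0 * p.2 ^ 2))
    (Continuous.measurable (by fun_prop)).ennreal_ofReal
    (Continuous.measurable (by fun_prop)).ennreal_ofReal
    (fun n u b hb => ENNReal.ofReal_le_ofReal (by
      have a1 := mul_le_mul_of_nonneg_right (famC_sq_add hη u b) (hu n)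
      have a2 : b ^ 2 ≤ B ^ 2 := sq_le_sq' (abs_le.1 hb).1 (abs_le.1 hb).2
      have a3 : b ^ 2 * (1 - Real.exp (-(l * n))) ≤ B ^ 2 * (l * n) :=
        mul_le_mul a2 (famC_u_le _) (hu n) (sq_nonneg _)
      have a4 := mul_le_mul_of_nonneg_left a3 (show 0 ≤ 1 + η⁻¹ by positivity)
      dsimp only
      linarith))
    (fun p hp => ENNReal.ofReal_le_ofReal (by
      have a1 : (p.1 : ℝ) ≤ n0 := by exact_mod_cast hp
      have a2 : 1 - Real.exp (-(l * p.1)) ≤ l * n0 :=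
        (famC_u_le _).trans (mul_le_mul_of_nonneg_left a1 hl.le)
      have a3 := mul_le_mul_of_nonneg_left a2 (sq_nonneg p.2)
      linarith))
  have i1 := sysB_R2_int h2 hl.le
  have i2 := (sysB_R2_int h2' hl.le).const_mul (1 + η)
  have i3 := h1'.const_mul ((1 + η⁻¹) * B ^ 2 * l)
  have i4 := h2.const_mul (l * n0)
  have i5 : Integrable (fun p : ℕ × ℝ => (1 + η) * (p.2 ^ 2 * (1 - Real.exp (-(l * p.1)))) +
      (1 + η⁻¹) * B ^ 2 * l * p.1) mu := i2.add i3
  rw [← ofReal_integral_eq_lintegral_ofReal i1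
      (Eventually.of_forall fun p => mul_nonneg (sq_nonneg _) (hu _)),
    ← ofReal_integral_eq_lintegral_ofReal i4 (Eventually.of_forall fun p => by positivity),
    ← ofReal_integral_eq_lintegral_ofReal i5 (Eventually.of_forall fun p =>
      add_nonneg (mul_nonneg (by positivity) (mul_nonneg (sq_nonneg _) (hu _))) (by positivity)),
    integral_add i2 i3, integral_const_mul, integral_const_mul, integral_const_mul] at k1
  have r0 := sysB_R2_nonneg mu hl.le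
  change ENNReal.ofReal (R2 lam l) ≤ _ + _ * ENNReal.ofReal ((1 + η) * R2 mu l + _) at k1
  rw [← ENNReal.ofReal_mul (by positivity), ← ENNReal.ofReal_add (by positivity) (by positivity),
    ENNReal.ofReal_le_ofReal_iff (by positivity)] at k1
  refine k1.trans (le_of_eq ?_)
  ring

omit [Countable Ω] [DiscreteMeasurableSpace Ω] [Fintype J] in
theorem sysB_src_int {E : Type} [NormedAddCommGroup E] [NormedSpace ℝ E] {f : ℕ × ℝ → E}
    (hf : ∀ k, Integrable f ((F k).law ν s z)) (j : J) :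
    Integrable f (src F c ν s z j) ∧
      ∫ p, f p ∂src F c ν s z j = ∑ k, (c j k : ℝ) • ∫ p, f p ∂(F k).law ν s z := by
  have h1 : ∀ k ∈ Finset.univ, Integrable f (c j k • (F k).law ν s z) := fun k _ =>
    (hf k).smul_measure_nnreal
  refine ⟨integrable_finsetSum_measure.2 h1, ?_⟩
  rw [src, integral_finsetSum_measure h1]
  exact Finset.sum_congr rfl fun k _ => by rw [integral_smul_nnreal_measure]; rfl

omit [Fintype K] in
/-- error terms of light families -/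
theorem sysB_light {F : Fam Ω J} (h : Slots1 ν s z) (hF : F.Good Δ B)
    (h6 : Summable fun t => (F.w t : ℝ) * ((F.core t).k : ℝ) ^ 6) :
    (Summable fun t => (F.w t : ℝ) * (F.core t).L ν z ^ 2) ∧
    ∃ A : ℝ, ∀ l : ℝ, 0 < l → l ≤ 1 →
      ∑' t, (F.w t : ℝ) * ((F.core t).L ν z ^ 2 + (F.core t).k + 1) *
        min 1 (((F.core t).k + 1) * l) ≤ A * l ^ (1 / 2 : ℝ) := by
  obtain ⟨C, h1⟩ := Core.abs_L_le h Δ B
  have hs := (h6.mul_left 8).add hF.sum1
  have key : ∀ t, ((F.core t).L ν z ^ 2 + (F.core t).k + 1) * ((F.core t).k + 1) ≤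
      (C ^ 2 + 1) * (8 * ((F.core t).k : ℝ) ^ 6 + ((F.core t).k + 1)) := by
    intro t
    have a0 := (h1 _ (hF.good t)).1
    generalize (F.core t).L ν z = L at *
    generalize (F.core t).k = k at *
    have a1 : L ^ 2 ≤ (C * (k + 1)) ^ 2 := sq_le_sq' (abs_le.1 a0).1 (abs_le.1 a0).2
    have hk0 : (0 : ℝ) ≤ k := Nat.cast_nonneg k
    have a2 : ((k : ℝ) + 1) ^ 3 ≤ 8 * (k : ℝ) ^ 6 + (k + 1) := by
      rcases Nat.eq_zero_or_pos k with rfl | hk
      · simp
      have hk' : (1 : ℝ) ≤ k := by exact_mod_cast hk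
      have b1 : ((k : ℝ) + 1) ^ 3 ≤ (2 * k) ^ 3 := pow_le_pow_left₀ (by positivity) (by linarith) 3
      have b2 : (k : ℝ) ^ 3 ≤ (k : ℝ) ^ 6 := pow_le_pow_right₀ hk' (by norm_num)
      nlinarith
    have a3 : (L ^ 2 + k + 1) * (k + 1) ≤ (C ^ 2 + 1) * ((k : ℝ) + 1) ^ 3 := by
      have b1 : L ^ 2 + k + 1 ≤ (C ^ 2 + 1) * ((k : ℝ) + 1) ^ 2 := by nlinarith
      calc (L ^ 2 + k + 1) * (k + 1) ≤ (C ^ 2 + 1) * ((k : ℝ) + 1) ^ 2 * (k + 1) :=
            mul_le_mul_of_nonneg_right b1 (by positivity)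
        _ = _ := by ring
    exact a3.trans (mul_le_mul_of_nonneg_left a2 (by positivity))
  have hb : ∀ t, (F.w t : ℝ) * (((F.core t).L ν z ^ 2 + (F.core t).k + 1) * ((F.core t).k + 1)) ≤
      (C ^ 2 + 1) * (8 * ((F.w t : ℝ) * ((F.core t).k : ℝ) ^ 6) +
        (F.w t : ℝ) * ((F.core t).k + 1)) := fun t =>
    (mul_le_mul_of_nonneg_left (key t) (F.w t).coe_nonneg).trans (le_of_eq (by ring))
  refine ⟨Summable.of_nonneg_of_le (fun t => by positivity) (fun t => le_trans ?_ (hb t))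
    (hs.mul_left _), (C ^ 2 + 1) * ∑' t, (8 * ((F.w t : ℝ) * ((F.core t).k : ℝ) ^ 6) +
        (F.w t : ℝ) * ((F.core t).k + 1)), fun l hl hl1 => ?_⟩
  · refine mul_le_mul_of_nonneg_left ?_ (F.w t).coe_nonneg
    have hk0 : (0 : ℝ) ≤ (F.core t).k := Nat.cast_nonneg _
    nlinarith [sq_nonneg ((F.core t).L ν z)]
  · have hl2 : l ≤ l ^ (1 / 2 : ℝ) := by
      have := Real.rpow_le_rpow_of_exponent_ge hl hl1 (show (1 / 2 : ℝ) ≤ 1 by norm_num)
      rwa [Real.rpow_one] at this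
    have hle : ∀ t, (F.w t : ℝ) * ((F.core t).L ν z ^ 2 + (F.core t).k + 1) *
        min 1 (((F.core t).k + 1) * l) ≤
        (C ^ 2 + 1) * (8 * ((F.w t : ℝ) * ((F.core t).k : ℝ) ^ 6) +
          (F.w t : ℝ) * ((F.core t).k + 1)) * l ^ (1 / 2 : ℝ) := fun t => by
      have a1 : min 1 ((((F.core t).k : ℝ) + 1) * l) ≤ ((F.core t).k + 1) * l ^ (1 / 2 : ℝ) :=
        (min_le_right _ _).trans (mul_le_mul_of_nonneg_left hl2 (by positivity))
      refine (mul_le_mul_of_nonneg_left a1 (by positivity)).trans ?_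
      refine le_trans (le_of_eq ?_) (mul_le_mul_of_nonneg_right (hb t) (by positivity))
      ring
    have hs2 := (hs.mul_left (C ^ 2 + 1)).mul_right (l ^ (1 / 2 : ℝ))
    rw [← tsum_mul_left, ← tsum_mul_right]
    exact Summable.tsum_le_tsum hle (Summable.of_nonneg_of_le (fun t => by positivity) hle hs2) hs2

theorem sysB_re (x : ℝ) :
    (Complex.exp (Complex.I * (x : ℂ)) - 1 - Complex.I * (x : ℂ)).re = Real.cos x - 1 := by
  rw [mul_comm Complex.I, Complex.sub_re, Complex.sub_re, Complex.exp_ofReal_mul_I_re]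
  simp

theorem sysB_RF_re (μ : Measure (ℕ × ℝ)) (t : ℝ) : (RF μ t).re ≤ 0 := by
  unfold RF
  by_cases hI : Integrable (fun p : ℕ × ℝ => Complex.exp (Complex.I * ((t * p.1 : ℝ) : ℂ)) - 1 -
      Complex.I * ((t * p.1 : ℝ) : ℂ)) μ
  · have h1 := (integral_re hI).symm
    simp only [RCLike.re_to_complex] at h1
    rw [h1]
    refine integral_nonpos fun p => ?_
    have := Real.cos_le_one (t * p.1)
    simp only [sysB_re, Pi.zero_apply]
    linarith
  · rw [integral_undef hI]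
    simp

omit [Countable Ω] [DiscreteMeasurableSpace Ω] [Fintype J] in
theorem T1.mono {A' : ℝ} (h : T1 ν s A) (hA : A ≤ A') : T1 ν s A' := fun j x hx =>
  (h j x hx).trans (mul_le_mul_of_nonneg_right hA (by positivity))

omit [Countable Ω] [DiscreteMeasurableSpace Ω] [Fintype J] in
theorem T2.mono {A' : ℝ} (h : T2 ν s z A) (hA : A ≤ A') : T2 ν s z A' := fun j x hx =>
  (h j x hx).trans (mul_le_mul_of_nonneg_right hA (by positivity))

theorem SysOK.t2 (H : SysOK ν s z F c k₀ j₀ Δ B) (h : Slots ν s z)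
    (hD : ∀ j, Dom (slaw (ν j) s z) (src F c ν s z j))
    (h4 : WinB ((F k₀).pos ν s)
      (fun t => (F k₀).w t * ENNReal.ofReal (((F k₀).core t).L ν z ^ 4)) (1 / 6)) :
    ∃ A : ℝ, T2 ν s z A := by
  classical
  have hfam : ∀ k, (Summable fun t => ((F k).w t : ℝ) * ((F k).core t).L ν z ^ 2) ∧
      ∃ A : ℝ, ∀ l : ℝ, 0 < l → l ≤ 1 →
        ∑' t, ((F k).w t : ℝ) * (((F k).core t).L ν z ^ 2 + ((F k).core t).k + 1) *
          min 1 ((((F k).core t).k + 1) * l) ≤ A * l ^ (1 / 2 : ℝ) := by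
    intro k
    by_cases hk : k = k₀
    · subst hk
      obtain ⟨a, -, b⟩ := Fam.heavy_sums H.slots H.heavy H.win h4
      exact ⟨a, b⟩
    · exact sysB_light H.slots (H.good k) (H.light k hk)
  have hac : ∀ k j, 0 ≤ (F k).acoef j := fun k j => tsum_nonneg fun t => by positivity
  have hA0 : ∀ i j, 0 ≤ sysA F c i j := fun i j =>
    Finset.sum_nonneg fun k _ => mul_nonneg (c i k).coe_nonneg (hac k j)
  obtain ⟨m, hm, hlyap⟩ := H.lyap
  obtain ⟨ε, C0, hε, hC0, hcon⟩ := contr_bound (sysA F c) hA0 m hm hlyap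
  obtain ⟨η, hη, hη2⟩ : ∃ η : ℝ, 0 < η ∧ ∀ i j, (1 + η) ^ 3 * sysA F c i j ≤ sysA F c i j + ε := by
    have h1 : ∀ᶠ η : ℝ in 𝓝 0, ∀ i j, (1 + η) ^ 3 * sysA F c i j < sysA F c i j + ε := by
      refine eventually_all.2 fun i => eventually_all.2 fun j => ?_
      have hc1 : Continuous fun η : ℝ => (1 + η) ^ 3 * sysA F c i j := by fun_prop
      refine hc1.continuousAt.eventually_lt continuousAt_const ?_
      simpa using hε
    have h2 : ∀ᶠ η : ℝ in 𝓝[>] 0, 0 < η := self_mem_nhdsWithin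
    obtain ⟨η, h3, h4⟩ := ((h1.filter_mono nhdsWithin_le_nhds).and h2).exists
    exact ⟨η, h4, fun i j => (h3 i j).le⟩
  have hlaw : ∀ k, Integrable (fun p => p.2 ^ 2) ((F k).law ν s z) ∧ ∃ D : ℝ, 0 ≤ D ∧
      ∀ l : ℝ, 0 < l → l ≤ 1 → R2 ((F k).law ν s z) l ≤
        (1 + η) * ∑ j, (F k).acoef j * R2 (slaw (ν j) s z) l + D * l ^ (1 / 2 : ℝ) := by
    intro k
    obtain ⟨a, A, b⟩ := hfam k
    obtain ⟨a1, C, a2⟩ := Fam.R2_law h (H.good k) a hη
    refine ⟨a1.integrable_sq, |C| * |A|, by positivity, fun l hl hl1 => (a2 l hl).trans ?_⟩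
    have b0 : 0 ≤ ∑' t, ((F k).w t : ℝ) * (((F k).core t).L ν z ^ 2 + ((F k).core t).k + 1) *
        min 1 ((((F k).core t).k + 1) * l) := tsum_nonneg fun t => by positivity
    have b1 := (b l hl hl1).trans
      (mul_le_mul_of_nonneg_right (le_abs_self A) (by positivity))
    have b2 := mul_le_mul (le_abs_self C) b1 b0 (abs_nonneg C)
    linarith
  choose hI2 D hD0 hDle using hlaw
  have hsl : ∀ j, Integrable (fun p => p.2 ^ 2) (slaw (ν j) s z) := fun j => by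
    rw [slaw, integrable_map_measure (Continuous.aestronglyMeasurable (by fun_prop))
      (measurable_of_countable _).aemeasurable]
    exact (h.mem_z j).integrable_sq
  have hdom : ∀ i, ∃ C : ℝ, 0 ≤ C ∧ ∀ l : ℝ, 0 < l →
      R2 (slaw (ν i) s z) l ≤ (1 + η) ^ 2 * R2 (src F c ν s z i) l + C * l := fun i =>
    sysB_R2_dom (hD i) (hsl i) (sysB_src_int hI2 i).1
      (sysB_src_int (fun k => (Fam.integral_law H.slots (H.good k)).1) i).1 hη
  choose C hC hCle using hdom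
  set b : J → ℝ := fun i => (1 + η) ^ 2 * ∑ k, (c i k : ℝ) * D k + C i with hb
  have hb0 : ∀ i, 0 ≤ b i := fun i =>
    add_nonneg (mul_nonneg (by positivity)
      (Finset.sum_nonneg fun k _ => mul_nonneg (c i k).coe_nonneg (hD0 k))) (hC i)
  have hbs : 0 ≤ ∑ i, b i := Finset.sum_nonneg fun i _ => hb0 i
  refine T2_of_R2 h (K := C0 * ∑ i, b i) fun j => ?_
  filter_upwards [Ioc_mem_nhdsGT (show (0 : ℝ) < 1 by norm_num)] with l hl
  have hl2 : l ≤ l ^ (1 / 2 : ℝ) := by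
    have := Real.rpow_le_rpow_of_exponent_ge hl.1 hl.2 (show (1 / 2 : ℝ) ≤ 1 by norm_num)
    rwa [Real.rpow_one] at this
  have hl0 : 0 ≤ l ^ (1 / 2 : ℝ) := hl.1.le.trans hl2
  have hR0 : ∀ j, 0 ≤ R2 (slaw (ν j) s z) l := fun j => sysB_R2_nonneg _ hl.1.le
  rw [mul_assoc]
  refine hcon (fun i => R2 (slaw (ν i) s z) l) _ (mul_nonneg hbs hl0) (fun i => ?_) j
  have e1 : R2 (src F c ν s z i) l = ∑ k, (c i k : ℝ) * R2 ((F k).law ν s z) l :=
    (sysB_src_int (fun k => sysB_R2_int (hI2 k) hl.1.le) i).2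
  have e2 : ∑ k, (c i k : ℝ) * R2 ((F k).law ν s z) l ≤
      (1 + η) * ∑ j, sysA F c i j * R2 (slaw (ν j) s z) l +
        (∑ k, (c i k : ℝ) * D k) * l ^ (1 / 2 : ℝ) := by
    refine (Finset.sum_le_sum fun k _ =>
      mul_le_mul_of_nonneg_left (hDle k l hl.1 hl.2) (c i k).coe_nonneg).trans (le_of_eq ?_)
    simp only [sysA, Finset.sum_mul, Finset.mul_sum, mul_add, Finset.sum_add_distrib]
    congr 1
    · rw [Finset.sum_comm]
      refine Finset.sum_congr rfl fun j _ => Finset.sum_congr rfl fun k _ => ?_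
      ring
    · exact Finset.sum_congr rfl fun k _ => by ring
  have e3 : (1 + η) ^ 2 * ((1 + η) * ∑ j, sysA F c i j * R2 (slaw (ν j) s z) l) ≤
      ∑ j, (sysA F c i j + ε) * max (R2 (slaw (ν j) s z) l) 0 := by
    rw [← mul_assoc, Finset.mul_sum]
    refine Finset.sum_le_sum fun j _ => ?_
    rw [max_eq_left (hR0 j), ← mul_assoc, ← pow_succ]
    exact mul_le_mul_of_nonneg_right (hη2 i j) (hR0 j)
  have e4 : b i * l ^ (1 / 2 : ℝ) ≤ (∑ i, b i) * l ^ (1 / 2 : ℝ) :=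
    mul_le_mul_of_nonneg_right (Finset.single_le_sum (fun i _ => hb0 i) (Finset.mem_univ i)) hl0
  have e5 := hCle i l hl.1
  have e6 := mul_le_mul_of_nonneg_left e2 (show 0 ≤ (1 + η) ^ 2 by positivity)
  have e7 := mul_le_mul_of_nonneg_left hl2 (hC i)
  rw [e1] at e5
  simp only [hb] at e4
  linarith

theorem SysOK.t4 (H : SysOK ν s z F c k₀ j₀ Δ B) (h1 : T1 ν s A)
    (he : slaw (ν j₀) s z = src F c ν s z j₀) (hc : c j₀ k₀ ≠ 0) {c' : ℝ} (hc' : 0 < c')
    (hl : ∀ᶠ y : ℝ in atTop, ENNReal.ofReal (c' * y ^ (-(3 / 2) : ℝ)) ≤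
      ∑' t : {t // y ≤ (F k₀).pos ν s t ∧ (F k₀).pos ν s t ≤ 2 * y}, ((F k₀).w t : ℝ≥0∞))
    (a0 : ν j₀ {ω | s ω = 0} ≠ 0) (a1 : ν j₀ {ω | s ω = 1} ≠ 0) :
    ∃ c₀ : ℝ, 0 < c₀ ∧ T4 (ν j₀) s c₀ := by
  have := H.slots.prob j₀
  have hc0 : (0 : ℝ) < c j₀ k₀ := NNReal.coe_pos.2 (pos_iff_ne_zero.2 hc)
  refine exists_T4 (ν j₀) s a0 a1 (c := c j₀ k₀ * (2 / 9 * c')) (by positivity) ?_
  have hint : ∀ (t : ℝ) k, Integrable (fun p : ℕ × ℝ =>
      Complex.exp (Complex.I * ((t * p.1 : ℝ) : ℂ)) - 1 -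
        Complex.I * ((t * p.1 : ℝ) : ℂ)) ((F k).law ν s z) := fun t k => by
    have hfin := Fam.isFinite_law (s := s) (z := z) H.slots.prob (H.good k)
    refine Integrable.sub (Integrable.sub ?_ (integrable_const _))
      ((((Fam.integral_law H.slots (H.good k)).1.const_mul t).ofReal).const_mul _)
    exact Integrable.of_bound (Continuous.aestronglyMeasurable (by fun_prop)) 1
      (Eventually.of_forall fun p => (kernelA_norm_exp _).le)
  have hstep1 : ∀ t : ℝ, (c j₀ k₀ : ℝ) * -(RF ((F k₀).law ν s z) t).re ≤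
      1 - (phi (ν j₀) s t).re := by
    intro t
    have e1 := famB_RF_map (ν j₀) z (H.slots.int_s j₀) t
    have e2 : (RF (slaw (ν j₀) s z) t).re = (phi (ν j₀) s t).re - 1 := by
      rw [e1]
      simp
    have e3 : RF (slaw (ν j₀) s z) t = ∑ k, (c j₀ k : ℝ) • RF ((F k).law ν s z) t := by
      rw [he]
      exact (sysB_src_int (hint t) j₀).2
    have e4 : (RF (slaw (ν j₀) s z) t).re =
        ∑ k, (c j₀ k : ℝ) * (RF ((F k).law ν s z) t).re := by
      rw [e3, Complex.re_sum]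
      simp
    have e5 : (c j₀ k₀ : ℝ) * -(RF ((F k₀).law ν s z) t).re ≤
        ∑ k, (c j₀ k : ℝ) * -(RF ((F k).law ν s z) t).re :=
      Finset.single_le_sum (f := fun k => (c j₀ k : ℝ) * -(RF ((F k).law ν s z) t).re)
        (fun k _ => mul_nonneg (c j₀ k).coe_nonneg (neg_nonneg.2 (sysB_RF_re _ _)))
        (Finset.mem_univ k₀)
    simp only [mul_neg, Finset.sum_neg_distrib] at e5 ⊢
    linarith
  obtain ⟨C, hC⟩ := Core.abs_L_le H.slots Δ B
  have hsum : ∀ t : ℝ, Summable fun u => (((F k₀).w u : ℝ) : ℂ) *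
      (Complex.exp (Complex.I * ((t * ((F k₀).core u).mean ν s : ℝ) : ℂ)) -
        1 - Complex.I * ((t * ((F k₀).core u).mean ν s : ℝ) : ℂ)) := fun t => by
    refine Summable.of_norm_bounded ((H.good k₀).sum1.mul_left (2 + |t| * C)) fun u => ?_
    rw [norm_mul, Complex.norm_real, Real.norm_of_nonneg ((F k₀).w u).coe_nonneg, mul_left_comm]
    refine mul_le_mul_of_nonneg_left ?_ ((F k₀).w u).coe_nonneg
    have b1 := (hC _ ((H.good k₀).good u)).2
    have b2 := H.heavy.one_le u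
    have b3 : (0 : ℝ) ≤ ((F k₀).core u).k := Nat.cast_nonneg _
    refine (norm_sub_le _ _).trans ?_
    have b4 := norm_sub_le
      (Complex.exp (Complex.I * ((t * ((F k₀).core u).mean ν s : ℝ) : ℂ))) 1
    rw [kernelA_norm_exp, norm_one] at b4
    rw [norm_mul, Complex.norm_I, one_mul, Complex.norm_real, Real.norm_eq_abs, abs_mul,
      abs_of_nonneg (show 0 ≤ ((F k₀).core u).mean ν s by linarith)]
    have b5 := mul_le_mul_of_nonneg_left b1 (abs_nonneg t)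
    nlinarith
  have hlow : ∀ᶠ t : ℝ in 𝓝 0, 4 / 9 * c' * |t| ^ (3 / 2 : ℝ) ≤
      ∑' u, ((F k₀).w u : ℝ) * (1 - Real.cos (t * ((F k₀).core u).mean ν s)) := by
    have hT : Tendsto (fun t : ℝ => |t|⁻¹) (𝓝[≠] 0) atTop :=
      tendsto_inv_nhdsGT_zero.comp tendsto_abs_nhdsNE_zero
    filter_upwards [eventually_nhdsWithin_iff.1 (hT.eventually hl)] with t ht
    have hn : ∀ u, 0 ≤ 1 - Real.cos (t * ((F k₀).core u).mean ν s) := fun u =>
      sub_nonneg.2 (Real.cos_le_one _)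
    by_cases h0 : t = 0
    · subst h0
      simp
    have ht1 := ht h0
    have hpos : 0 < |t| := abs_pos.2 h0
    rw [Real.inv_rpow hpos.le, Real.rpow_neg hpos.le, inv_inv] at ht1
    have hs : Summable fun u =>
        ((F k₀).w u : ℝ) * (1 - Real.cos (t * ((F k₀).core u).mean ν s)) :=
      famA_summable (H.good k₀) (C := 2) fun u => by
        have b3 : (0 : ℝ) ≤ ((F k₀).core u).k := Nat.cast_nonneg _
        have b4 := Real.neg_one_le_cos (t * ((F k₀).core u).mean ν s)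
        rw [abs_of_nonneg (hn u)]
        linarith
    rw [← ENNReal.ofReal_le_ofReal_iff
      (tsum_nonneg fun u => mul_nonneg ((F k₀).w u).coe_nonneg (hn u)),
      ← Fam.famC_tsum _ hn hs, mul_assoc, ENNReal.ofReal_mul (by norm_num)]
    refine (mul_le_mul_right ht1 _).trans ?_
    rw [← ENNReal.tsum_mul_left]
    refine le_trans (ENNReal.tsum_le_tsum fun u => ?_)
      (ENNReal.tsum_comp_le_tsum_of_injective Subtype.val_injective fun u =>
        ((F k₀).w u : ℝ≥0∞) *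
          ENNReal.ofReal (1 - Real.cos (t * ((F k₀).core u).mean ν s)))
    rw [mul_comm]
    refine mul_le_mul_right (ENNReal.ofReal_le_ofReal ?_) _
    obtain ⟨u, hu1, hu2⟩ := u
    have b0 : 0 ≤ ((F k₀).core u).mean ν s := zero_le_one.trans (H.heavy.one_le u)
    have b1 : 1 ≤ |t| * ((F k₀).core u).mean ν s := by
      have := mul_le_mul_of_nonneg_left hu1 hpos.le
      rwa [mul_inv_cancel₀ hpos.ne'] at this
    have b2 : |t| * ((F k₀).core u).mean ν s ≤ 2 := by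
      have := mul_le_mul_of_nonneg_left hu2 hpos.le
      rwa [mul_left_comm, mul_inv_cancel₀ hpos.ne', mul_one] at this
    have b3 : Real.cos (t * ((F k₀).core u).mean ν s) =
        Real.cos (|t| * ((F k₀).core u).mean ν s) := by
      rw [← Real.cos_abs (t * _), abs_mul, abs_of_nonneg b0]
    have b4 := Real.cos_le_cos_of_nonneg_of_le_pi zero_le_one
      (b2.trans Real.two_le_pi) b1
    have b5 := Real.cos_one_le
    dsimp only
    linarith
  have hsmall := (Fam.RF_law H.slots h1 (H.good k₀)).def (show 0 < 2 / 9 * c' by positivity)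
  filter_upwards [hlow, hsmall] with t ht1 ht2
  refine le_trans ?_ (hstep1 t)
  rw [mul_assoc]
  refine mul_le_mul_of_nonneg_left ?_ hc0.le
  have d1 := (Complex.re_le_norm _).trans ht2
  rw [Real.norm_of_nonneg (by positivity), Complex.sub_re, Complex.sub_re,
    Complex.re_tsum (hsum t), Complex.re_sum] at d1
  have d2 : ∑ j, (((F k₀).acoef j : ℂ) * RF (slaw (ν j) s z) t).re ≤ 0 :=
    Finset.sum_nonpos fun j _ => by
      rw [Complex.re_ofReal_mul]
      exact mul_nonpos_of_nonneg_of_nonpos (tsum_nonneg fun u => by positivity) (sysB_RF_re _ _)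
  have d3 : ∑' u, ((((F k₀).w u : ℝ) : ℂ) *
      (Complex.exp (Complex.I * ((t * ((F k₀).core u).mean ν s : ℝ) : ℂ)) -
        1 - Complex.I * ((t * ((F k₀).core u).mean ν s : ℝ) : ℂ))).re =
      -∑' u, ((F k₀).w u : ℝ) * (1 - Real.cos (t * ((F k₀).core u).mean ν s)) := by
    rw [← tsum_neg]
    refine tsum_congr fun u => ?_
    rw [Complex.re_ofReal_mul, sysB_re]
    ring
  rw [d3] at d1
  linarith

end Pool.Agent.Lib.MP_77dff5_pr
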