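import Pool.Agent.Lib.MP_77dff5_pr.Var

/-! From weighted sums to measures; global estimates for families of cores. -/

set_option autoImplicit false

namespace Pool.Agent.Lib.MP_77dff5_pr

open MeasureTheory ProbabilityTheory Filter Topology
open scoped ENNReal NNReal

variable {Ω J : Type} [Countable Ω] [MeasurableSpace Ω] [DiscreteMeasurableSpace Ω]

omit [Countable Ω] in
theorem lintegral_meas (w ψ : Ω → ℝ≥0∞) : ∫⁻ ω, ψ ω ∂meas w = ∑' ω, w ω * ψ ω := by
  unfold meas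
  rw [lintegral_sum_measure]
  simp only [lintegral_smul_measure, lintegral_dirac, smul_eq_mul]

omit [Countable Ω] in
theorem meas_add (w w' : Ω → ℝ≥0∞) : meas (w + w') = meas w + meas w' := by
  unfold meas
  rw [Measure.sum_add_sum]
  simp only [Pi.add_apply, add_smul]

omit [Countable Ω] in
theorem famA_meas_univ (w : Ω → ℝ≥0∞) : meas w Set.univ = ∑' ω, w ω := by
  rw [← lintegral_one, lintegral_meas]
  simp only [mul_one]

omit [Countable Ω] in
theorem famA_meas_singleton (w : Ω → ℝ≥0∞) (a : Ω) : meas w {a} = w a := by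
  rw [← lintegral_indicator_one (measurableSet_singleton a), lintegral_meas, tsum_eq_single a]
  · simp
  · intro b hb
    simp [Set.indicator_of_notMem, hb]

omit [Countable Ω] in
theorem isProb_nrm {w : Ω → ℝ≥0∞} (h0 : ∑' ω, w ω ≠ 0) (h1 : ∑' ω, w ω ≠ ⊤) :
    IsProbabilityMeasure (nrm w) := by
  refine ⟨?_⟩
  rw [nrm, Measure.smul_apply, famA_meas_univ, smul_eq_mul, ENNReal.inv_mul_cancel h0 h1]

omit [Countable Ω] in
theorem meas_eq_smul_nrm {w : Ω → ℝ≥0∞} (h0 : ∑' ω, w ω ≠ 0) (h1 : ∑' ω, w ω ≠ ⊤) :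
    meas w = (∑' ω, w ω) • nrm w := by
  rw [nrm, smul_smul, ENNReal.mul_inv_cancel h0 h1, one_smul]

theorem famA_tsum_fin {Ω : Type} (n : ℕ) (F : Fin n → Ω → ℝ≥0∞) :
    ∑' ω : Fin n → Ω, ∏ i, F i (ω i) = ∏ i, ∑' ω, F i ω := by
  induction n with
  | zero => simp
  | succ n ih =>
    rw [← (Fin.consEquiv fun _ : Fin (n + 1) => Ω).tsum_eq, ENNReal.tsum_prod',
      Fin.prod_univ_succ, ← ih, ← ENNReal.tsum_mul_right]
    refine tsum_congr fun a => ?_
    rw [← ENNReal.tsum_mul_left]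
    refine tsum_congr fun b => ?_
    simp [Fin.prod_univ_succ, Fin.consEquiv]

omit [Countable Ω] [MeasurableSpace Ω] [DiscreteMeasurableSpace Ω] in
theorem tsum_pi_prod {I : Type} [Fintype I] (F : I → Ω → ℝ≥0∞) :
    ∑' ω : I → Ω, ∏ i, F i (ω i) = ∏ i, ∑' ω, F i ω := by
  let e := Fintype.equivFin I
  rw [← (e.symm.arrowCongr (Equiv.refl Ω)).tsum_eq, ← e.symm.prod_comp,
    ← famA_tsum_fin _ fun i => F (e.symm i)]
  refine tsum_congr fun ω => ?_
  rw [← e.symm.prod_comp]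
  simp [Equiv.arrowCongr]

omit [Countable Ω] [MeasurableSpace Ω] [DiscreteMeasurableSpace Ω] in
theorem UFam.Eqn.mass {U : UFam Ω J} {wX : Ω → ℝ≥0∞} {wg : J → Ω → ℝ≥0∞} {s : Ω → ℕ} {z : Ω → ℝ}
    (h : U.Eqn wX wg s z) :
    ∑' ω, wX ω = ∑' t, U.w t * ∏ i, ∑' ω, wg ((U.core t).cls i) ω := by
  have h1 := h fun _ => 1
  simp only [mul_one, Core.tlaw] at h1
  rw [h1]
  refine tsum_congr fun t => ?_
  rw [tsum_pi_prod fun i => wg ((U.core t).cls i)]

theorem famA_tsum_slot {Ω I : Type} [Fintype I] [DecidableEq I] (F : I → Ω → ℝ≥0∞)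
    (φ : Ω → ℝ≥0∞) (i : I) :
    ∑' ω : I → Ω, (∏ i', F i' (ω i')) * φ (ω i) =
      (∑' ω, F i ω * φ ω) * ∏ i' ∈ Finset.univ.erase i, ∑' ω, F i' ω := by
  have h1 := tsum_pi_prod (Function.update F i fun ω => F i ω * φ ω)
  rw [← Finset.mul_prod_erase Finset.univ _ (Finset.mem_univ i), Function.update_self] at h1
  rw [Finset.prod_congr rfl fun i' hi' => by
    rw [Function.update_of_ne (Finset.ne_of_mem_erase hi')]] at h1
  rw [← h1]
  refine tsum_congr fun ω => ?_
  rw [← Finset.mul_prod_erase Finset.univ _ (Finset.mem_univ i),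
    ← Finset.mul_prod_erase Finset.univ _ (Finset.mem_univ i), Function.update_self,
    mul_right_comm]
  congr 1
  exact Finset.prod_congr rfl fun i' hi' => by
    rw [Function.update_of_ne (Finset.ne_of_mem_erase hi')]

omit [Countable Ω] [MeasurableSpace Ω] [DiscreteMeasurableSpace Ω] in
/-- truncated first moments, without any finiteness assumption -/
theorem UFam.Eqn.mean_le {U : UFam Ω J} {wX : Ω → ℝ≥0∞} {wg : J → Ω → ℝ≥0∞} {s : Ω → ℕ}
    {z : Ω → ℝ} (h : U.Eqn wX wg s z) (wg' : J → Ω → ℝ≥0∞) (N : ℕ)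
    (hw : ∀ j ω, s ω ≤ N → wg j ω ≤ wg' j ω) :
    ∑' ω, wX ω * (if s ω ≤ N then (s ω : ℝ≥0∞) else 0) ≤
      ∑' t, U.w t * ((U.core t).s0 * ∏ i, ∑' ω, wg' ((U.core t).cls i) ω +
        ∑ i, (∑' ω, wg' ((U.core t).cls i) ω * (if s ω ≤ N then (s ω : ℝ≥0∞) else 0)) *
          ∏ i' ∈ Finset.univ.erase i, ∑' ω, wg' ((U.core t).cls i') ω) := by
  have h1 := h fun p => if p.1 ≤ N then (p.1 : ℝ≥0∞) else 0
  simp only at h1
  rw [h1]
  refine ENNReal.tsum_le_tsum fun t => mul_le_mul_right ?_ _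
  set c := U.core t
  rw [← tsum_pi_prod fun i => wg' (c.cls i), ← ENNReal.tsum_mul_left]
  rw [Finset.sum_congr rfl fun i _ => (famA_tsum_slot (fun i => wg' (c.cls i))
    (fun ω => if s ω ≤ N then (s ω : ℝ≥0∞) else 0) i).symm]
  rw [← Summable.tsum_finsetSum fun _ _ => ENNReal.summable, ← ENNReal.tsum_add]
  refine ENNReal.tsum_le_tsum fun ω => ?_
  simp only
  split_ifs with hS
  · have h2 : ∀ i, s (ω i) ≤ N := fun i =>
      ((Finset.single_le_sum (f := fun i => s (ω i)) (fun _ _ => Nat.zero_le _)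
        (Finset.mem_univ i)).trans (Nat.le_add_left _ _)).trans hS
    simp only [h2, if_true]
    rw [← Finset.mul_sum, mul_comm (c.s0 : ℝ≥0∞), ← mul_add]
    refine mul_le_mul' (Finset.prod_le_prod' fun i _ => hw _ _ (h2 i)) (le_of_eq ?_)
    simp [Core.S]
  · simp

theorem Core.tlaw_eq (c : Core Ω J) {wg : J → Ω → ℝ≥0∞} (h0 : ∀ j, ∑' ω, wg j ω ≠ 0)
    (h1 : ∀ j, ∑' ω, wg j ω ≠ ⊤) (F : (c.I → Ω) → ℝ≥0∞) :
    ∑' ω : c.I → Ω, (∏ i, wg (c.cls i) (ω i)) * F ω =
      (∏ i, ∑' ω, wg (c.cls i) ω) * ∫⁻ ω, F ω ∂c.P fun j => nrm (wg j) := by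
  have hp : ∀ j, IsProbabilityMeasure (nrm (wg j)) := fun j => isProb_nrm (h0 j) (h1 j)
  rw [lintegral_countable', ← ENNReal.tsum_mul_left]
  refine tsum_congr fun ω => ?_
  rw [Core.P, Measure.pi_singleton, mul_left_comm, ← Finset.prod_mul_distrib, mul_comm]
  congr 1
  refine Finset.prod_congr rfl fun i _ => ?_
  rw [nrm, Measure.smul_apply, famA_meas_singleton, smul_eq_mul, ← mul_assoc,
    ENNReal.mul_inv_cancel (h0 _) (h1 _), one_mul]

theorem famA_meas_SZ (c : Core Ω J) (s : Ω → ℕ) (z : Ω → ℝ) :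
    Measurable fun ω : c.I → Ω => (c.S s ω, c.Z z ω) := measurable_of_countable _

theorem UFam.Eqn.law {U : UFam Ω J} {wX : Ω → ℝ≥0∞} {wg : J → Ω → ℝ≥0∞} {s : Ω → ℕ} {z : Ω → ℝ}
    (h : U.Eqn wX wg s z) (h0 : ∀ j, ∑' ω, wg j ω ≠ 0) (h1 : ∀ j, ∑' ω, wg j ω ≠ ⊤)
    (hX : ∑' ω, wX ω ≠ ⊤) :
    slaw (meas wX) s z = (U.toFam wg).law (fun j => nrm (wg j)) s z := by
  ext A hA
  have hfin : ∀ t, U.w t * ∏ i, ∑' ω, wg ((U.core t).cls i) ω ≠ ⊤ := fun t =>
    ENNReal.ne_top_of_tsum_ne_top (h.mass ▸ hX) t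
  rw [← lintegral_indicator_one hA, slaw,
    lintegral_map (measurable_one.indicator hA) (measurable_of_countable _), lintegral_meas,
    h (A.indicator 1), Fam.law, Measure.sum_apply _ hA]
  refine tsum_congr fun t => ?_
  rw [Core.tlaw, Core.tlaw_eq _ h0 h1, Measure.smul_apply, smul_eq_mul, ← mul_assoc]
  congr 1
  · exact (ENNReal.coe_toNNReal (hfin t)).symm
  · rw [← lintegral_indicator_one hA, Core.law,
      lintegral_map (measurable_one.indicator hA) (famA_meas_SZ _ s z)]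
    rfl

variable [Fintype J] {ν : J → Measure Ω} {s : Ω → ℕ} {z : Ω → ℝ} {F : Fam Ω J} {Δ : ℕ} {B : ℝ}

omit [Fintype J] in
theorem Fam.law_split (hν : ∀ j, IsProbabilityMeasure (ν j)) (A : Set F.T) :
    F.law ν s z = F.lawOn A ν s z + F.lawOn Aᶜ ν s z :=
  (Measure.sum_add_sum_compl A fun t => (F.w t : ℝ≥0∞) • (F.core t).law ν s z).symm

omit [Fintype J] in
theorem famA_isProb_law (hν : ∀ j, IsProbabilityMeasure (ν j)) (c : Core Ω J) :
    IsProbabilityMeasure (c.law ν s z) := by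
  have := Core.isProb hν c
  exact Measure.isProbabilityMeasure_map (famA_meas_SZ c s z).aemeasurable

omit [Countable Ω] [MeasurableSpace Ω] [DiscreteMeasurableSpace Ω] [Fintype J] in
theorem famA_summable (hF : F.Good Δ B) {a : F.T → ℝ} {C : ℝ}
    (ha : ∀ t, |a t| ≤ C * ((F.core t).k + 1)) : Summable fun t => (F.w t : ℝ) * a t := by
  refine Summable.of_norm_bounded (hF.sum1.mul_left C) fun t => ?_
  rw [norm_mul, Real.norm_of_nonneg (F.w t).coe_nonneg, Real.norm_eq_abs, mul_left_comm]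
  exact mul_le_mul_of_nonneg_left (ha t) (F.w t).coe_nonneg

omit [Countable Ω] [MeasurableSpace Ω] [DiscreteMeasurableSpace Ω] [Fintype J] in
theorem famA_tsum_w (hF : F.Good Δ B) : ∑' t, (F.w t : ℝ≥0∞) ≠ ⊤ := by
  rw [ENNReal.tsum_coe_ne_top_iff_summable_coe]
  have := famA_summable hF (a := fun _ => 1) (C := 1) fun t => by
    have : (0 : ℝ) ≤ (F.core t).k := Nat.cast_nonneg _
    rw [abs_one]
    linarith
  simpa using this

omit [Fintype J] in
theorem Fam.isFinite_law (hν : ∀ j, IsProbabilityMeasure (ν j)) (hF : F.Good Δ B) :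
    IsFiniteMeasure (F.law ν s z) := by
  refine ⟨?_⟩
  have := fun t => famA_isProb_law (s := s) (z := z) hν (F.core t)
  rw [Fam.law, Measure.sum_apply _ MeasurableSet.univ]
  simp only [Measure.smul_apply, measure_univ, smul_eq_mul, mul_one]
  exact (famA_tsum_w hF).lt_top

omit [Fintype J] in
theorem Fam.isFinite_lawOn (hν : ∀ j, IsProbabilityMeasure (ν j)) (hF : F.Good Δ B) (A : Set F.T) :
    IsFiniteMeasure (F.lawOn A ν s z) := by
  have := Fam.isFinite_law (s := s) (z := z) hν hF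
  refine isFiniteMeasure_of_le (F.law ν s z) ?_
  rw [Fam.law_split hν A]
  exact Measure.le_add_right le_rfl

omit [Fintype J] in
theorem Fam.lintegral_lawOn (A : Set F.T) (ψ : ℕ × ℝ → ℝ≥0∞) (hψ : Measurable ψ) :
    ∫⁻ p, ψ p ∂F.lawOn A ν s z =
      ∑' t : A, F.w t * ∫⁻ ω, ψ ((F.core t).S s ω, (F.core t).Z z ω) ∂(F.core t).P ν := by
  rw [Fam.lawOn, lintegral_sum_measure]
  refine tsum_congr fun t => ?_
  rw [lintegral_smul_measure, Core.law, lintegral_map hψ (famA_meas_SZ _ s z), smul_eq_mul]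

omit [Fintype J] in
theorem Fam.ch_lawOn (hν : ∀ j, IsProbabilityMeasure (ν j)) (hF : F.Good Δ B) (A : Set F.T)
    (n : ℕ) (θ : ℝ) :
    HasSum (fun t : A => ((F.w t : ℝ) : ℂ) * ch ((F.core t).law ν s z) n θ)
      (ch (F.lawOn A ν s z) n θ) := by
  have hfin := Fam.isFinite_lawOn (s := s) (z := z) hν hF A
  have hint : Integrable (fun p : ℕ × ℝ => Complex.exp (Complex.I * ((θ * p.2 : ℝ) : ℂ)))
      ((F.lawOn A ν s z).restrict {p | p.1 = n}) := by
    refine Integrable.of_bound (Continuous.aestronglyMeasurable (by fun_prop)) 1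
      (Eventually.of_forall fun p => ?_)
    rw [mul_comm, Complex.norm_exp_ofReal_mul_I]
  unfold ch
  rw [Fam.lawOn, Measure.restrict_sum_of_countable] at hint ⊢
  have h1 := hasSum_integral_measure hint
  simp only [Measure.restrict_smul, integral_smul_measure, ENNReal.coe_toReal,
    Complex.real_smul] at h1 ⊢
  exact h1

omit [Countable Ω] [MeasurableSpace Ω] [DiscreteMeasurableSpace Ω] [Fintype J] in
open Classical in
theorem famA_cnt (c : Core Ω J) (j : J) :
    (c.cnt j : ℝ) = ∑ i, if c.cls i = j then (1 : ℝ) else 0 := by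
  rw [Core.cnt, Nat.card_eq_fintype_card, Fintype.card_subtype]
  simp

omit [Countable Ω] [MeasurableSpace Ω] [DiscreteMeasurableSpace Ω] [Fintype J] in
theorem famA_cnt_le (c : Core Ω J) (j : J) : |(c.cnt j : ℝ)| ≤ 1 * ((c.k : ℝ) + 1) := by
  classical
  have h1 : c.cnt j ≤ c.k := by
    rw [Core.cnt, Nat.card_eq_fintype_card]
    exact Fintype.card_subtype_le _
  have h2 : (c.cnt j : ℝ) ≤ c.k := by exact_mod_cast h1
  rw [abs_of_nonneg (Nat.cast_nonneg _)]
  linarith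

theorem famA_hasSum_fib {X : Type} [Countable X] [MeasurableSpace X] [DiscreteMeasurableSpace X]
    (μ : Measure X) [IsProbabilityMeasure μ] (f : X → ℕ) :
    HasSum (fun l => μ.real {ω | f ω = l}) 1 := by
  have h1 : ∑' l, μ {ω | f ω = l} = 1 := by
    rw [← measure_iUnion _ fun _ => MeasurableSet.of_discrete]
    · have : (⋃ l, {ω | f ω = l}) = Set.univ := by
        ext ω
        simp
      rw [this, measure_univ]
    · intro a b hab
      exact Set.disjoint_left.2 fun ω h1 h2 => hab (h1.symm.trans h2)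
  have h2 := ENNReal.hasSum_toReal (f := fun l => μ {ω | f ω = l}) (by rw [h1]; simp)
  rw [← ENNReal.tsum_toReal_eq fun _ => measure_ne_top _ _, h1] at h2
  exact h2

theorem famA_fubini {T : Type} (f : T → ℕ → ℝ) (g : T → ℝ) (hf0 : ∀ t l, 0 ≤ f t l)
    (hrow : ∀ t, HasSum (f t) (g t)) (hsum : Summable g) :
    HasSum (fun l => ∑' t, f t l) (∑' t, g t) := by
  have hf : Summable fun q : T × ℕ => f q.1 q.2 :=
    (summable_prod_of_nonneg fun q => hf0 q.1 q.2).2
      ⟨fun t => (hrow t).summable, hsum.congr fun t => (hrow t).tsum_eq.symm⟩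
  have htot : HasSum (fun q : T × ℕ => f q.1 q.2) (∑' t, g t) := by
    rw [(hf.hasSum.prod_fiberwise hrow).tsum_eq]
    exact hf.hasSum
  have hswap : HasSum (fun q : ℕ × T => f q.2 q.1) (∑' t, g t) :=
    (Equiv.prodComm ℕ T).hasSum_iff.2 htot
  exact hswap.prod_fiberwise fun l => (hswap.summable.prod_factor l).hasSum

omit [Fintype J] in
theorem Fam.hasSum_aa (hν : ∀ j, IsProbabilityMeasure (ν j)) (hF : F.Good Δ B) (j : J) :
    (∀ l, 0 ≤ F.aa ν s j l) ∧ HasSum (F.aa ν s j) (F.acoef j) := by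
  classical
  have hf0 : ∀ (t : F.T) (l : ℕ), 0 ≤ (F.w t : ℝ) * ∑ i : (F.core t).I,
      if (F.core t).cls i = j then ((F.core t).P ν).real {ω | (F.core t).Sx s i ω = l} else 0 :=
    fun t l => mul_nonneg (F.w t).coe_nonneg (Finset.sum_nonneg fun i _ => by
      split_ifs
      · exact measureReal_nonneg
      · exact le_rfl)
  refine ⟨fun l => tsum_nonneg fun t => hf0 t l, famA_fubini _ _ hf0 (fun t => ?_)
    (famA_summable hF fun t => famA_cnt_le _ j)⟩
  have hP := Core.isProb hν (F.core t)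
  rw [famA_cnt]
  refine HasSum.mul_left _ (hasSum_sum fun i _ => ?_)
  by_cases hi : (F.core t).cls i = j
  · simp only [if_pos hi]
    exact famA_hasSum_fib ((F.core t).P ν) ((F.core t).Sx s i)
  · simp only [if_neg hi]
    exact hasSum_zero

omit [Fintype J] in
theorem famA_integral (hF : F.Good Δ B) {f : ℕ × ℝ → ℝ} (hf : Measurable f) {C : ℝ}
    (hi : ∀ t, Integrable (fun ω => f ((F.core t).S s ω, (F.core t).Z z ω)) ((F.core t).P ν))
    (hb : ∀ t, ∫ ω, |f ((F.core t).S s ω, (F.core t).Z z ω)| ∂(F.core t).P ν ≤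
      C * ((F.core t).k + 1)) :
    Integrable f (F.law ν s z) ∧ ∫ p, f p ∂F.law ν s z =
      ∑' t, (F.w t : ℝ) * ∫ ω, f ((F.core t).S s ω, (F.core t).Z z ω) ∂(F.core t).P ν := by
  have h1 : ∀ (g : ℕ × ℝ → ℝ), Measurable g → ∀ t,
      ∫ p, g p ∂((F.w t : ℝ≥0∞) • (F.core t).law ν s z) =
        (F.w t : ℝ) * ∫ ω, g ((F.core t).S s ω, (F.core t).Z z ω) ∂(F.core t).P ν := by
    intro g hg t
    rw [integral_smul_measure, Core.law,
      integral_map (famA_meas_SZ _ s z).aemeasurable hg.aestronglyMeasurable]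
    simp
  have h2 : Integrable f (F.law ν s z) := by
    refine integrable_sum_measure (fun t => Integrable.smul_measure ?_ ENNReal.coe_ne_top) ?_
    · exact (integrable_map_measure hf.aestronglyMeasurable
        (famA_meas_SZ _ s z).aemeasurable).2 (hi t)
    · simp only [h1 _ hf.norm]
      refine famA_summable hF (C := C) fun t => ?_
      rw [abs_of_nonneg (integral_nonneg fun _ => norm_nonneg _)]
      exact hb t
  refine ⟨h2, ?_⟩
  rw [Fam.law, ← (hasSum_integral_measure h2).tsum_eq]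
  exact tsum_congr (h1 f hf)

omit [Countable Ω] [MeasurableSpace Ω] [DiscreteMeasurableSpace Ω] in
theorem famA_tsum_lin (hF : F.Good Δ B) {a : F.T → ℝ} {C : ℝ}
    (ha : ∀ t, |a t| ≤ C * ((F.core t).k + 1)) (m : J → ℝ) :
    ∑' t, (F.w t : ℝ) * (a t + ∑ i, m ((F.core t).cls i)) =
      ∑' t, (F.w t : ℝ) * a t + ∑ j, F.acoef j * m j := by
  classical
  have h1 : ∀ t, ∑ i, m ((F.core t).cls i) = ∑ j, ((F.core t).cnt j : ℝ) * m j := by
    intro t
    simp only [famA_cnt, Finset.sum_mul]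
    rw [Finset.sum_comm]
    simp
  have h2 : ∀ j, HasSum (fun t => (F.w t : ℝ) * (F.core t).cnt j * m j) (F.acoef j * m j) :=
    fun j => (famA_summable hF fun t => famA_cnt_le _ j).hasSum.mul_right _
  have h3 := (famA_summable hF ha).hasSum.add (hasSum_sum fun j (_ : j ∈ Finset.univ) => h2 j)
  rw [← h3.tsum_eq]
  refine tsum_congr fun t => ?_
  rw [h1, mul_add, Finset.mul_sum]
  simp only [mul_assoc]

theorem famA_abs_Z (h : Slots1 ν s z) {c : Core Ω J} (hc : c.Good Δ B) :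
    ∫ ω, |c.Z z ω| ∂c.P ν ≤ (B + ∑ j, ∫ ω, |z ω| ∂ν j + Δ * B) * (c.k + 1) := by
  have hp := h.prob
  have hP := Core.isProb h.prob c
  have hk : (0 : ℝ) ≤ c.k := Nat.cast_nonneg _
  have hB : 0 ≤ B := by
    by_contra hB
    have := (abs_nonneg _).trans hc.z0_le
    nlinarith
  have hW : (Fintype.card c.W : ℝ) ≤ Δ * (c.k + 1) := by exact_mod_cast hc.W_card
  have hint : ∀ i : c.I, Integrable (fun ω : c.I → Ω => |z (ω i)|) (c.P ν) := fun i =>
    integrable_comp_eval (μ := fun i => ν (c.cls i)) (f := fun ω => |z ω|) (h.int_z _).abs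
  have hM0 : ∀ j, 0 ≤ ∫ ω, |z ω| ∂ν j := fun j => integral_nonneg fun _ => abs_nonneg _
  have hM : ∀ i : c.I, ∫ ω, |z (ω i)| ∂c.P ν ≤ ∑ j, ∫ ω, |z ω| ∂ν j := fun i => by
    rw [Core.P, integral_comp_eval (μ := fun i => ν (c.cls i)) (f := fun ω => |z ω|)
      (h.int_z _).abs.aestronglyMeasurable]
    exact Finset.single_le_sum (f := fun j => ∫ ω, |z ω| ∂ν j) (fun j _ => hM0 j)
      (Finset.mem_univ _)
  have hM1 : 0 ≤ ∑ j, ∫ ω, |z ω| ∂ν j := Finset.sum_nonneg fun j _ => hM0 j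
  have h1 : ∀ ω, |c.Z z ω| ≤ (B + Δ * B) * (c.k + 1) + ∑ i, |z (ω i)| := by
    intro ω
    have a1 : |∑ v, c.g v ω| ≤ Fintype.card c.W * B := by
      refine (Finset.abs_sum_le_sum_abs _ _).trans ?_
      refine (Finset.sum_le_sum fun v _ => hc.bd v ω).trans ?_
      simp
    have a2 := Finset.abs_sum_le_sum_abs (fun i => z (ω i)) Finset.univ
    have a3 := abs_add_three c.z0 (∑ i, z (ω i)) (∑ v, c.g v ω)
    have a4 := mul_le_mul_of_nonneg_right hW hB
    have a5 := hc.z0_le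
    unfold Core.Z
    nlinarith
  have hsum : Integrable (fun ω : c.I → Ω => ∑ i, |z (ω i)|) (c.P ν) :=
    integrable_finsetSum _ fun i _ => hint i
  refine (integral_mono (Core.integrable_Z h hc).abs ((integrable_const _).add hsum) h1).trans ?_
  simp only [Pi.add_apply]
  rw [integral_add (integrable_const _) hsum, integral_finsetSum _ fun i _ => hint i]
  have h2 : ∑ i, ∫ ω, |z (ω i)| ∂c.P ν ≤ c.k * ∑ j, ∫ ω, |z ω| ∂ν j := by
    refine (Finset.sum_le_sum fun i _ => hM i).trans ?_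
    simp [Core.k]
  simp only [integral_const, probReal_univ, one_smul]
  nlinarith

/-- first moments -/
theorem Fam.integral_law (h : Slots1 ν s z) (hF : F.Good Δ B) :
    Integrable (fun p => (p.1 : ℝ)) (F.law ν s z) ∧ Integrable (fun p => p.2) (F.law ν s z) ∧
    ∫ p, (p.1 : ℝ) ∂F.law ν s z =
      ∑' t, (F.w t : ℝ) * (F.core t).s0 + ∑ j, F.acoef j * ∫ ω, (s ω : ℝ) ∂ν j ∧
    ((∀ t v ω, (F.core t).g v ω = 0) → ∫ p, p.2 ∂F.law ν s z =
      ∑' t, (F.w t : ℝ) * (F.core t).z0 + ∑ j, F.acoef j * ∫ ω, z ω ∂ν j) := by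
  obtain ⟨C, hC⟩ := Core.abs_L_le h Δ B
  have h1 := famA_integral (ν := ν) (s := s) (z := z) hF (f := fun p => (p.1 : ℝ))
    (measurable_from_top.comp measurable_fst) (C := C) (fun t => (Core.integral_S h _).1)
    (fun t => by
      simp only [Nat.abs_cast]
      rw [(Core.integral_S h _).2]
      exact (hC _ (hF.good t)).2)
  have h2 := famA_integral (ν := ν) (s := s) (z := z) hF (f := fun p => p.2) measurable_snd
    (fun t => Core.integrable_Z h (hF.good t)) (fun t => famA_abs_Z h (hF.good t))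
  refine ⟨h1.1, h2.1, ?_, fun hg => ?_⟩
  · rw [h1.2, ← famA_tsum_lin hF (C := Δ) (fun t => by
      rw [Nat.abs_cast]
      exact_mod_cast (hF.good t).s0_le)]
    refine tsum_congr fun t => ?_
    rw [(Core.integral_S h _).2, Core.mean]
  · rw [h2.2, ← famA_tsum_lin hF (fun t => (hF.good t).z0_le)]
    refine tsum_congr fun t => ?_
    have h3 := Core.L_eq h (hF.good t)
    simp only [hg, integral_zero, Finset.sum_const_zero, add_zero] at h3
    rw [← h3, Core.L]

end Pool.Agent.Lib.MP_77dff5_pr
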