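import Pool.Agent.Lib.MP_77dff5_pr.LLTA

/-! Moment bounds for conditioned sums with exponential moments. -/

set_option autoImplicit false

namespace Pool.Agent.Lib.MP_77dff5_pr

open MeasureTheory ProbabilityTheory Filter Topology
open scoped ENNReal NNReal

variable {Γ : Type} [Countable Γ] [MeasurableSpace Γ] [DiscreteMeasurableSpace Γ]
  {p h : Measure Γ} {ρ N : Γ → ℕ}

theorem lltB_point {lam x : ℝ} (hl : 0 < lam) (y : ℝ) (hy : 0 ≤ y) :
    y + x ^ 6 ≤ (y + 720 / lam ^ 6) * (Real.exp (lam * x) + Real.exp (-lam * x)) := by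
  have h1 := Real.pow_div_factorial_le_exp |lam * x| (abs_nonneg _) 6
  have h2 : Real.exp |lam * x| ≤ Real.exp (lam * x) + Real.exp (-lam * x) := by
    have h3 := Real.exp_pos (lam * x)
    have h4 := Real.exp_pos (-lam * x)
    rcases abs_cases (lam * x) with h | h
    · rw [h.1]; linarith
    · rw [h.1, ← neg_mul]; linarith
  have h5 : 1 ≤ Real.exp |lam * x| := Real.one_le_exp (abs_nonneg _)
  have h6 : |lam * x| ^ 6 = lam ^ 6 * x ^ 6 := by
    rw [show 6 = 2 * 3 from rfl, pow_mul, sq_abs]; ring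
  have h7 : ((Nat.factorial 6 : ℕ) : ℝ) = 720 := by simp [Nat.factorial]
  rw [h6, h7] at h1
  have h8 : x ^ 6 ≤ 720 / lam ^ 6 * Real.exp |lam * x| := by
    have h9 : 0 < lam ^ 6 := by positivity
    rw [div_mul_eq_mul_div, le_div_iff₀ h9]
    linarith
  have h10 : 0 ≤ 720 / lam ^ 6 := by positivity
  have h11 := mul_le_mul_of_nonneg_left h2 (add_nonneg hy h10)
  nlinarith

theorem Steps.lltB_exp (H : Steps p h ρ N) (F : Γ → ℝ) (B : ℝ) (hF : ∀ γ, |F γ| ≤ B * N γ) :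
    ∃ η C : ℝ, 0 < η ∧ 0 ≤ C ∧ ∀ n : ℕ, 1 ≤ n → ∀ a : ℝ, |a| ≤ η / √n →
      Integrable (fun x => Real.exp (a * x)) (brid p h ρ F (∫ γ, F γ ∂p) n) ∧
      ∫ x, Real.exp (a * x) ∂brid p h ρ F (∫ γ, F γ ∂p) n ≤ C / √n := by
  have hp1 := H.prob
  have hh1 := H.fin
  obtain ⟨η, hη, hh, hp, hG, -⟩ := H.lltA_data F B hF
  set mu := ∫ γ, F γ ∂p
  obtain ⟨c, C, hc, hC, hdom⟩ := lltPsi_dom H.at0 H.at1 hη hp hG
  set M := lltM h F (fun γ => (ρ γ : ℝ) + 1) η
  have hM : 0 ≤ M := integral_nonneg fun γ => (Real.exp_pos _).le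
  have hpi := Real.pi_pos
  refine ⟨η / 2, (2 * Real.pi)⁻¹ * (M * Real.exp (C * (η / 2) ^ 2) * √(Real.pi / c)), half_pos hη,
    by positivity, fun n hn a ha => ?_⟩
  have hn1 : (1 : ℝ) ≤ n := by exact_mod_cast hn
  have hs1 : 1 ≤ √(n : ℝ) := Real.one_le_sqrt.2 hn1
  have ha1 : |a| ≤ η / 2 := ha.trans (div_le_self (half_pos hη).le hs1)
  have hna : ‖(a : ℂ)‖ = |a| := by simp
  obtain ⟨h1, h2⟩ := lltA_brid hp1 hh1 hη hh hp (a := a) (by rw [hna]; linarith) hn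
  have e1 : ∀ x : ℝ, Complex.exp (a * x) = ((Real.exp (a * x) : ℝ) : ℂ) := fun x => by
    push_cast; rfl
  simp_rw [e1] at h1 h2
  refine ⟨by simpa only [RCLike.re_to_complex, Complex.ofReal_re] using h1.re, ?_⟩
  rw [integral_complex_ofReal] at h2
  have h3 := congrArg norm h2
  rw [Complex.norm_real, Real.norm_eq_abs, norm_mul] at h3
  have h4 : ‖(2 * Real.pi : ℂ)⁻¹‖ = (2 * Real.pi)⁻¹ := by
    rw [norm_inv, norm_mul, Complex.norm_real, Real.norm_eq_abs, abs_of_pos hpi]; simp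
  have hcn : 0 < c * n := by positivity
  have hg := (integrable_exp_neg_mul_sq hcn).const_mul (M * Real.exp (C * (η / 2) ^ 2))
  have h5 : ‖∫ t in (-Real.pi)..Real.pi, lltPsi h F (fun γ => (ρ γ : ℝ) + 1) a t *
      lltPsi p (fun γ => F γ - mu) (fun γ => (ρ γ : ℝ) - 1) a t ^ n‖ ≤
      ∫ t in (-Real.pi)..Real.pi, M * Real.exp (C * (η / 2) ^ 2) * Real.exp (-(c * n) * t ^ 2) := by
    refine intervalIntegral.norm_integral_le_of_norm_le (by linarith)
      (Eventually.of_forall fun t ht => ?_) hg.intervalIntegrable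
    have ht' : |t| ≤ Real.pi := abs_le.2 ⟨ht.1.le, ht.2⟩
    have h6 := pow_le_pow_left₀ (norm_nonneg _) (hdom a (by rw [hna]; exact ha1) t ht') n
    rw [← Real.exp_nat_mul, hna] at h6
    rw [norm_mul, norm_pow, mul_assoc]
    refine mul_le_mul (lltPsi_norm_le hη hh (by rw [hna]; linarith) t) (h6.trans ?_)
      (by positivity) hM
    rw [← Real.exp_add, Real.exp_le_exp]
    have h7 : |a| * √n ≤ η / 2 := by rwa [le_div_iff₀ (by linarith)] at ha
    have h8 := pow_le_pow_left₀ (by positivity) h7 2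
    rw [mul_pow, Real.sq_sqrt (Nat.cast_nonneg _)] at h8
    have h9 := mul_le_mul_of_nonneg_left h8 hC
    nlinarith
  have h6 : ∫ t in (-Real.pi)..Real.pi, M * Real.exp (C * (η / 2) ^ 2) *
      Real.exp (-(c * n) * t ^ 2) ≤
      ∫ t, M * Real.exp (C * (η / 2) ^ 2) * Real.exp (-(c * n) * t ^ 2) := by
    rw [intervalIntegral.integral_of_le (by linarith)]
    exact setIntegral_le_integral hg (Eventually.of_forall fun t => by positivity)
  rw [integral_const_mul, integral_gaussian, ← div_div, Real.sqrt_div' _ (Nat.cast_nonneg n)] at h6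
  refine (le_abs_self _).trans ?_
  rw [h3, h4]
  refine (mul_le_mul_of_nonneg_left (h5.trans h6) (by positivity)).trans (le_of_eq ?_)
  ring

theorem Steps.six (H : Steps p h ρ N) (F : Γ → ℝ) (B : ℝ) (hF : ∀ γ, |F γ| ≤ B * N γ) :
    ∃ C : ℝ, ∀ n : ℕ, 1 ≤ n →
      ∫⁻ x, ENNReal.ofReal ((n : ℝ) ^ 3 + x ^ 6) ∂brid p h ρ F (∫ γ, F γ ∂p) n ≤
        ENNReal.ofReal (C * (n : ℝ) ^ (5 / 2 : ℝ)) := by
  obtain ⟨η, C, hη, hC, hb⟩ := H.lltB_exp F B hF
  refine ⟨(1 + 720 / η ^ 6) * (2 * C), fun n hn => ?_⟩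
  have hn1 : (1 : ℝ) ≤ n := by exact_mod_cast hn
  have hs0 : 0 < √(n : ℝ) := Real.sqrt_pos.2 (by linarith)
  have hl : 0 < η / √n := div_pos hη hs0
  obtain ⟨i1, b1⟩ := hb n hn (η / √n) (by rw [abs_of_pos hl])
  obtain ⟨i2, b2⟩ := hb n hn (-(η / √n)) (by rw [abs_neg, abs_of_pos hl])
  have hK : 0 ≤ (n : ℝ) ^ 3 + 720 / (η / √n) ^ 6 := by positivity
  have i3 : Integrable (fun x => ((n : ℝ) ^ 3 + 720 / (η / √n) ^ 6) *
      (Real.exp (η / √n * x) + Real.exp (-(η / √n) * x))) (brid p h ρ F (∫ γ, F γ ∂p) n) :=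
    (i1.add i2).const_mul _
  refine (lintegral_mono fun x => ENNReal.ofReal_le_ofReal
    (lltB_point (x := x) hl ((n : ℝ) ^ 3) (by positivity))).trans ?_
  rw [← ofReal_integral_eq_lintegral_ofReal i3 (Eventually.of_forall fun x => by positivity),
    integral_const_mul, integral_add i1 i2]
  refine ENNReal.ofReal_le_ofReal ((mul_le_mul_of_nonneg_left (add_le_add b1 b2) hK).trans
    (le_of_eq ?_))
  have hsq : √(n : ℝ) ^ 2 = n := Real.sq_sqrt (Nat.cast_nonneg _)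
  have e1 : (n : ℝ) ^ (5 / 2 : ℝ) = √(n : ℝ) ^ 5 := by
    rw [Real.sqrt_eq_rpow, ← Real.rpow_natCast, ← Real.rpow_mul (Nat.cast_nonneg _)]
    norm_num
  have e2 : (n : ℝ) ^ 3 = √(n : ℝ) ^ 6 := by
    rw [show 6 = 2 * 3 from rfl, pow_mul, hsq]
  rw [e1, e2]
  field_simp
  ring

end Pool.Agent.Lib.MP_77dff5_pr
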