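import Pool.Agent.Lib.MP_77dff5_pr.Tree3A

/-! The step law at the critical point. -/

set_option autoImplicit false

namespace Pool.Agent.Lib.MP_77dff5_pr

open scoped ENNReal NNReal Topology
open Filter

section alg
variable {R : Type} [CommSemiring R]

/-- the algebraic preorder of a semiring -/
def t3bLe (a b : R) : Prop := ∃ d, b = a + d

theorem t3b_refl (a : R) : t3bLe a a := ⟨0, (add_zero a).symm⟩

theorem t3b_zero (a : R) : t3bLe 0 a := ⟨a, (zero_add a).symm⟩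

theorem t3b_trans {a b c : R} (h : t3bLe a b) (h' : t3bLe b c) : t3bLe a c := by
  obtain ⟨d, rfl⟩ := h
  obtain ⟨e, rfl⟩ := h'
  exact ⟨d + e, add_assoc _ _ _⟩

theorem t3b_add {a b c d : R} (h : t3bLe a b) (h' : t3bLe c d) : t3bLe (a + c) (b + d) := by
  obtain ⟨e, rfl⟩ := h
  obtain ⟨f, rfl⟩ := h'
  exact ⟨e + f, by ring⟩

theorem t3b_mul {a b c d : R} (h : t3bLe a b) (h' : t3bLe c d) : t3bLe (a * c) (b * d) := by
  obtain ⟨e, rfl⟩ := h
  obtain ⟨f, rfl⟩ := h'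
  exact ⟨a * f + e * c + e * f, by ring⟩

theorem t3b_pow {a b : R} (h : t3bLe a b) (n : ℕ) : t3bLe (a ^ n) (b ^ n) := by
  induction n with
  | zero => simpa using t3b_refl (1 : R)
  | succ n ih => simpa only [pow_succ] using t3b_mul ih h

theorem t3b_sum {f g : ℕ → R} {s t : Finset ℕ} (hst : s ⊆ t) (h : ∀ k, t3bLe (f k) (g k)) :
    t3bLe (∑ k ∈ s, f k) (∑ k ∈ t, g k) := by
  choose d hd using h
  refine ⟨∑ k ∈ s, d k + ∑ k ∈ t \ s, g k, ?_⟩
  rw [← Finset.sum_sdiff hst, ← add_assoc, ← Finset.sum_add_distrib, add_comm]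
  simp only [hd]

theorem t3b_mot (r : R) {s s' : R} (h : t3bLe s s') (l : ℕ) :
    ∀ m, t3bLe (mot r s l m) (mot r s' l m) := by
  induction l with
  | zero => exact fun _ => t3b_refl _
  | succ l ih =>
    exact fun m => t3b_add (t3b_add (ih _) (t3b_mul h (ih _))) (t3b_mul (t3b_refl r) (ih _))

theorem t3b_Aj (g : ℕ → R) {K K' : ℕ} (hK : K ≤ K') (r : R) {s s' : R} (h : t3bLe s s') (m : ℤ) :
    t3bLe (Aj g K r s m) (Aj g K' r s' m) :=
  t3b_sum (Finset.range_subset_range.2 hK) fun k => t3b_mul (t3b_refl _) (t3b_mot r h k m)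

theorem t3b_sigIt (g : ℕ → R) {K K' : ℕ} (hK : K ≤ K') (y r : R) (j : ℕ) :
    ∀ j', j ≤ j' → t3bLe (sigIt g K y r j) (sigIt g K' y r j') := by
  induction j with
  | zero => exact fun _ _ => t3b_zero _
  | succ j ih =>
    intro j' hj
    obtain ⟨j', rfl⟩ : ∃ n, j' = n + 1 := ⟨j' - 1, by omega⟩
    exact t3b_mul (t3b_refl y) (t3b_Aj g hK r (ih j' (by omega)) 0)

theorem t3b_phiIt (g : ℕ → R) {K K' : ℕ} (hK : K ≤ K') (y r : R) {j j' : ℕ} (hj : j ≤ j') :
    t3bLe (phiIt g K y r j) (phiIt g K' y r j') :=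
  t3b_sum (Finset.range_subset_range.2 (by omega)) fun i =>
    t3b_pow (t3b_mul (t3b_refl y) (t3b_Aj g hK r (t3b_sigIt g hK y r j j' hj) 1)) i

end alg

theorem t3b_le_iff {a b : ℝ≥0} : t3bLe a b ↔ a ≤ b := le_iff_exists_add.symm

theorem t3b_coef_add (P Q : PR) (γ : Gam) : coef (P + Q) γ = coef P γ + coef Q γ := by
  simp [coef]

theorem t3b_coef_le {P Q : PR} (h : t3bLe P Q) (γ : Gam) : coef P γ ≤ coef Q γ := by
  obtain ⟨d, rfl⟩ := h
  rw [t3b_coef_add]
  exact le_self_add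

theorem t3b_hP {j j' : ℕ} (h : j ≤ j') : t3bLe (hP j) (hP j') := by
  obtain ⟨d, hd⟩ := t3b_add (t3b_pow (t3b_sigIt gP h yP Polynomial.X j j' h) 2)
    (t3b_refl (2 * Polynomial.X))
  exact ⟨Polynomial.derivative d, by rw [hP, hP, sigP, sigP, hd, Polynomial.derivative_add]⟩

/-- evaluation of the inner variables -/
noncomputable def t3bIn (y x : ℝ≥0) : Polynomial (MvPolynomial ℕ ℝ≥0) →+* ℝ≥0 :=
  Polynomial.eval₂RingHom (MvPolynomial.eval fun _ => x) y

/-- evaluation of all variables -/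
noncomputable def t3bEv (r y x : ℝ≥0) : PR →+* ℝ≥0 := Polynomial.eval₂RingHom (t3bIn y x) r

theorem t3b_tsum (r y x : ℝ≥0) (P : PR) :
    ∑' γ, (coef P γ : ℝ≥0∞) * ev r y x γ = t3bEv r y x P := by
  induction P using Polynomial.induction_on' with
  | add P Q hP hQ =>
    simp only [t3b_coef_add, ENNReal.coe_add, add_mul, ENNReal.tsum_add, hP, hQ, map_add]
  | monomial n a =>
    induction a using Polynomial.induction_on' with
    | add P Q hP hQ =>
      simp only [t3b_coef_add, ENNReal.coe_add, add_mul, ENNReal.tsum_add, hP, hQ, map_add]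
    | monomial m b =>
      induction b using MvPolynomial.induction_on' with
      | add P Q hP hQ =>
        simp only [t3b_coef_add, ENNReal.coe_add, add_mul, ENNReal.tsum_add, hP, hQ, map_add]
      | monomial u c =>
        rw [tsum_eq_single (n, m, u)]
        · simp only [coef, Polynomial.coeff_monomial_same, MvPolynomial.coeff_monomial, if_true,
            t3bEv, t3bIn, Polynomial.coe_eval₂RingHom, Polynomial.eval₂_monomial,
            MvPolynomial.eval_monomial, ev]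
          rw [← NNReal.coe_pow, ← NNReal.coe_pow, ← NNReal.coe_pow, ← NNReal.coe_mul,
            ← NNReal.coe_mul, ENNReal.ofReal_coe_nnreal, ← ENNReal.coe_mul, Finsupp.prod,
            Finset.prod_pow_eq_pow_sum, Finsupp.sum]
          congr 1
          ring
        · rintro ⟨n', m', u'⟩ h
          have : coef (Polynomial.monomial n (Polynomial.monomial m (MvPolynomial.monomial u c)))
              (n', m', u') = 0 := by
            simp only [coef, Polynomial.coeff_monomial]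
            split_ifs with h1
            · rw [Polynomial.coeff_monomial]
              split_ifs with h2
              · rw [MvPolynomial.coeff_monomial, if_neg]
                rintro rfl
                exact h (by rw [h1, h2])
              · simp
            · simp
          rw [this, ENNReal.coe_zero, zero_mul]

theorem t3b_tsum_iSup (r y x : ℝ≥0) (P : ℕ → PR) (h : ∀ j j', j ≤ j' → t3bLe (P j) (P j')) :
    ∑' γ, (⨆ j, (coef (P j) γ : ℝ≥0∞)) * ev r y x γ = ⨆ j, (t3bEv r y x (P j) : ℝ≥0∞) := by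
  simp only [← t3b_tsum, ENNReal.tsum_eq_iSup_sum, ENNReal.iSup_mul]
  rw [iSup_comm]
  refine iSup_congr fun s => ENNReal.finsetSum_iSup_of_monotone fun γ j j' hj => ?_
  exact mul_le_mul_left (ENNReal.coe_le_coe.2 (t3b_coef_le (h j j' hj) γ)) _

theorem t3bEv_gP (r y x : ℝ≥0) (k : ℕ) : t3bEv r y x (gP k) = x := by simp [t3bEv, t3bIn, gP]

theorem t3bEv_yP (r y x : ℝ≥0) : t3bEv r y x yP = y := by simp [t3bEv, t3bIn, yP]

theorem t3bEv_X (r y x : ℝ≥0) : t3bEv r y x Polynomial.X = r := by simp [t3bEv]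

theorem t3bEv_sigP (r y x : ℝ≥0) (j : ℕ) :
    t3bEv r y x (sigP j) = sigIt (fun _ => x) j y r j := by
  refine (map_sigIt (t3bEv r y x) gP j yP Polynomial.X j).trans ?_
  simp only [t3bEv_gP, t3bEv_yP, t3bEv_X]

theorem t3bEv_phiP (r y x : ℝ≥0) (j : ℕ) :
    t3bEv r y x (phiP j) = phiIt (fun _ => x) j y r j := by
  refine (map_phiIt (t3bEv r y x) gP j yP Polynomial.X j).trans ?_
  simp only [t3bEv_gP, t3bEv_yP, t3bEv_X]

theorem t3bEv_deriv (r d y x : ℝ≥0) (P : PR) :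
    t3bEv r y x (Polynomial.derivative P) * d ≤ t3bEv (r + d) y x P := by
  obtain ⟨c, hc⟩ := (P.map (t3bIn y x)).exists_mul_sq_add_linear_part_eq_eval_add r d
  simp only [t3bEv, Polynomial.coe_eval₂RingHom, ← Polynomial.eval_map]
  rw [← hc, Polynomial.derivative_map]
  exact le_add_self.trans le_self_add

theorem t3b_lim (f : ℕ → ℝ≥0 → ℝ≥0) (hc : ∀ k, Continuous (f k)) (hm : ∀ k, Monotone (f k))
    {s : ℕ → ℝ≥0} {σ S : ℝ≥0} (hs : Tendsto s atTop (𝓝 σ)) (hle : ∀ j, s j ≤ σ)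
    (hS : HasSum (fun k => f k σ) S) {K : ℕ → ℕ} (hK : ∀ j, j ≤ K j) :
    Tendsto (fun j => ∑ k ∈ Finset.range (K j), f k (s j)) atTop (𝓝 S) := by
  refine tendsto_order.2 ⟨fun a ha => ?_, fun a ha => Eventually.of_forall fun j => ?_⟩
  · obtain ⟨K0, h0⟩ := (hS.tendsto_sum_nat.eventually (lt_mem_nhds ha)).exists
    have h1 : Tendsto (fun j => ∑ k ∈ Finset.range K0, f k (s j)) atTop
        (𝓝 (∑ k ∈ Finset.range K0, f k σ)) :=
      tendsto_finsetSum _ fun k _ => ((hc k).tendsto σ).comp hs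
    filter_upwards [h1.eventually (lt_mem_nhds h0), eventually_ge_atTop K0] with j h2 h3
    exact h2.trans_le (Finset.sum_le_sum_of_subset (Finset.range_subset_range.2 (h3.trans (hK j))))
  · exact ((Finset.sum_le_sum fun k _ => hm k (hle j)).trans
      (sum_le_hasSum _ (fun _ _ => zero_le) hS)).trans_lt ha

theorem t3b_mot_cont (r : ℝ≥0) (l : ℕ) : ∀ m, Continuous fun s : ℝ≥0 => mot r s l m := by
  induction l with
  | zero => exact fun _ => continuous_const
  | succ l ih =>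
    exact fun m => ((ih _).add (continuous_id.mul (ih _))).add (continuous_const.mul (ih _))

theorem t3b_mot_mono (r : ℝ≥0) (l : ℕ) (m : ℤ) : Monotone fun s : ℝ≥0 => mot r s l m :=
  fun _ _ h => t3b_le_iff.1 (t3b_mot r (t3b_le_iff.2 h) l m)

theorem t3b_hasSum {r s : ℝ≥0} {q : ℝ} (hq : 0 ≤ q) (h : s + 2 * q < 1)
    (hr : (r : ℝ) = q * (1 - s - q)) (m : ℕ) :
    ∃ S : ℝ≥0, HasSum (fun l => mot r s l m) S ∧
      (S : ℝ) = ((1 - s - q) ^ m * (1 - s - 2 * q))⁻¹ := by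
  have h1 : 0 < 1 - s - 2 * q := by linarith
  have h2 : 0 < 1 - s - q := by linarith
  refine ⟨⟨_, by positivity⟩, NNReal.hasSum_coe.1 ?_, rfl⟩
  have := (hasSum_mot s.coe_nonneg hq h m).2
  rw [← hr] at this
  have e : (fun l => ((mot r s l m : ℝ≥0) : ℝ)) = fun l => mot (r : ℝ) s l m :=
    funext fun l => map_mot NNReal.toRealHom r s l m
  rw [e]
  exact this

theorem t3b_Aj_eq (x y r s : ℝ≥0) (K : ℕ) (m : ℤ) :
    y * Aj (fun _ => x) K r s m = x * y * ∑ k ∈ Finset.range K, mot r s k m := by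
  rw [Aj, ← Finset.mul_sum]
  ring

theorem t3b_poly {p s r : ℝ} (hs : 0 ≤ s) (hsp : s < p) (hp : 2 * p < 1)
    (h2 : p * (1 - p) < (1 - p) ^ 2 - 4 * r) :
    s ^ 2 * ((1 - s) ^ 2 - 4 * r) < p ^ 2 * ((1 - p) ^ 2 - 4 * r) := by
  have e : p ^ 2 * ((1 - p) ^ 2 - 4 * r) - s ^ 2 * ((1 - s) ^ 2 - 4 * r) =
      (p - s) * ((p + s) * ((1 - p) ^ 2 - 4 * r - p * (1 - p)) +
        (p - s) * (s + (p + s) * (1 - (p + s)))) := by ring
  have h3 : 0 < (p + s) * ((1 - p) ^ 2 - 4 * r - p * (1 - p)) :=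
    mul_pos (by linarith) (by linarith)
  have h4 : 0 ≤ (p - s) * (s + (p + s) * (1 - (p + s))) :=
    mul_nonneg (by linarith) (add_nonneg hs (mul_nonneg (by linarith) (by linarith)))
  have h5 := mul_pos (sub_pos.2 hsp) (add_pos_of_pos_of_nonneg h3 h4)
  linarith

section
variable {p x y r : ℝ≥0} {q : ℝ}

theorem t3b_sig_le (hq : 0 < q) (h1 : p + 2 * q < 1) (hr : (r : ℝ) = q * (1 - p - q))
    (hxy : (x : ℝ) * y = p * (1 - p - 2 * q)) (K j : ℕ) : sigIt (fun _ => x) K y r j ≤ p := by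
  obtain ⟨S, hS, hS'⟩ := t3b_hasSum hq.le h1 hr 0
  have h0 : 0 < 1 - p - 2 * q := by linarith
  have e : x * y * S = p := NNReal.eq (by
    push_cast
    rw [hS', hxy]
    field_simp)
  induction j with
  | zero => exact zero_le
  | succ j ih =>
    rw [sigIt, t3b_Aj_eq, ← e]
    exact mul_le_mul_right ((Finset.sum_le_sum fun k _ => t3b_mot_mono r k 0 ih).trans
      (sum_le_hasSum _ (fun _ _ => zero_le) hS)) _

theorem t3b_sig_lim (hq : 0 < q) (h1 : p + 2 * q < 1)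
    (h2 : (p : ℝ) * (1 - p) < (1 - p - 2 * q) ^ 2) (h3 : 2 * p + q < 1)
    (hr : (r : ℝ) = q * (1 - p - q)) (hxy : (x : ℝ) * y = p * (1 - p - 2 * q)) :
    Tendsto (fun j => sigIt (fun _ => x) j y r j) atTop (𝓝 p) := by
  have hle := t3b_sig_le hq h1 hr hxy
  have hm : Monotone fun j => sigIt (fun _ => x) j y r j := fun j j' h =>
    t3b_le_iff.1 (t3b_sigIt _ h y r j j' h)
  have hb : BddAbove (Set.range fun j => sigIt (fun _ => x) j y r j) :=
    ⟨p, by rintro _ ⟨j, rfl⟩; exact hle j j⟩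
  have ht := tendsto_atTop_ciSup hm hb
  have h4 := fun j => le_ciSup hb j
  have h5 : ⨆ j, sigIt (fun _ => x) j y r j ≤ p := ciSup_le fun j => hle j j
  generalize ⨆ j, sigIt (fun _ => x) j y r j = σ at ht h4 h5
  obtain rfl | hlt := h5.eq_or_lt
  · exact ht
  exfalso
  have hσ : (σ : ℝ) < p := hlt
  have hσ0 := σ.coe_nonneg
  have h0 : 0 < 1 - p - 2 * q := by linarith
  have e1 : (1 - p - 2 * q) ^ 2 = (1 - p) ^ 2 - 4 * r := by rw [hr]; ring
  have hD : 0 < (1 - σ : ℝ) ^ 2 - 4 * r := by nlinarith [pow_pos h0 2]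
  obtain ⟨w, hw0, hw⟩ : ∃ w : ℝ, 0 < w ∧ w ^ 2 = (1 - σ : ℝ) ^ 2 - 4 * r :=
    ⟨√_, Real.sqrt_pos.2 hD, Real.sq_sqrt hD.le⟩
  have hw1 : w ≤ 1 - σ := by
    refine le_of_sq_le_sq ?_ (by linarith)
    have := r.coe_nonneg
    linarith
  obtain ⟨S, hS, hS'⟩ := t3b_hasSum (r := r) (s := σ) (q := (1 - σ - w) / 2) (by linarith)
    (by linarith) (by linarith) 0
  have h6 := (t3b_lim (fun k s => mot r s k (0 : ℕ)) (fun k => t3b_mot_cont r k _)
    (fun k => t3b_mot_mono r k _) ht h4 hS (K := id) fun _ => le_rfl).const_mul (x * y)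
  have h7 : x * y * S ≤ σ := by
    refine le_of_tendsto' h6 fun j => le_trans ?_ (h4 (j + 1))
    refine (t3b_Aj_eq x y r _ j 0).symm.trans_le (t3b_le_iff.1 ?_)
    exact t3b_mul (t3b_refl y) (t3b_Aj _ j.le_succ r (t3b_sigIt _ j.le_succ y r j j le_rfl) 0)
  have h8 : (x : ℝ) * y * S ≤ σ := by exact_mod_cast h7
  rw [hS', hxy, pow_zero, one_mul, show 1 - σ - 2 * ((1 - σ - w) / 2) = w by ring,
    mul_inv_le_iff₀ hw0] at h8
  have h9 := pow_le_pow_left₀ (mul_nonneg p.coe_nonneg h0.le) h8 2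
  rw [mul_pow, mul_pow, hw, e1] at h9
  exact h9.not_gt (t3b_poly hσ0 hσ (by linarith) (e1 ▸ h2))

theorem t3b_phi_lim (hq : 0 < q) (h1 : p + 2 * q < 1)
    (h2 : (p : ℝ) * (1 - p) < (1 - p - 2 * q) ^ 2) (h3 : 2 * p + q < 1)
    (hr : (r : ℝ) = q * (1 - p - q)) (hxy : (x : ℝ) * y = p * (1 - p - 2 * q)) :
    ∃ L : ℝ≥0, (L : ℝ) = (1 - p - q) / (1 - 2 * p - q) ∧
      Tendsto (fun j => phiIt (fun _ => x) j y r j) atTop (𝓝 L) := by
  obtain ⟨S, hS, hS'⟩ := t3b_hasSum hq.le h1 hr 1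
  have hle := fun j => t3b_sig_le hq h1 hr hxy j j
  have h0 : 0 < 1 - p - 2 * q := by linarith
  have h0' : 0 < 1 - p - q := by linarith
  have h0'' : 0 < 1 - 2 * p - q := by linarith
  have ha : ((x * y * S : ℝ≥0) : ℝ) = p / (1 - p - q) := by
    push_cast
    rw [hS', hxy]
    field_simp
  have ha1 : x * y * S < 1 := by
    rw [← NNReal.coe_lt_coe, ha, NNReal.coe_one, div_lt_one h0']
    linarith
  have h6 := (t3b_lim (fun k s => mot r s k (1 : ℕ)) (fun k => t3b_mot_cont r k _)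
    (fun k => t3b_mot_mono r k _) (t3b_sig_lim hq h1 h2 h3 hr hxy) hle hS (K := id)
    fun _ => le_rfl).const_mul (x * y)
  have h7 := t3b_lim (fun i u => u ^ i) (fun i => continuous_pow i)
    (fun i _ _ h => pow_le_pow_left' h i) h6
    (fun j => mul_le_mul_right ((Finset.sum_le_sum fun k _ => t3b_mot_mono r k _ (hle j)).trans
      (sum_le_hasSum _ (fun _ _ => zero_le) hS)) _)
    (NNReal.hasSum_geometric ha1) (K := fun j => j + 1) fun j => j.le_succ
  refine ⟨_, ?_, h7.congr fun j => ?_⟩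
  · rw [NNReal.coe_inv, NNReal.coe_sub ha1.le, ha, NNReal.coe_one, one_sub_div h0'.ne', inv_div]
    congr 1
    ring
  · simp only [phiIt, t3b_Aj_eq, id, Nat.cast_one]

end

/-- evaluation of the step weights at a subcritical point of the first equation -/
theorem eval_pW {p q x y : ℝ} (hp : 0 < p) (hq : 0 < q) (hy : 0 < y) (h1 : p + 2 * q < 1)
    (h2 : p * (1 - p) < (1 - p - 2 * q) ^ 2) (h3 : 2 * p + q < 1)
    (hxy : x * y = p * (1 - p - 2 * q)) :
    ∑' γ, pW γ * ev (q * (1 - p - q)) y x γ = ENNReal.ofReal ((1 - p - q) / (1 - 2 * p - q)) ∧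
      ∀ r : ℝ, 0 ≤ r → r < q * (1 - p - q) → ∑' γ, hW γ * ev r y x γ ≠ ⊤ := by
  have hx : 0 < x := (mul_pos_iff_of_pos_right hy).1 (hxy ▸ mul_pos hp (by linarith))
  lift p to ℝ≥0 using hp.le
  lift x to ℝ≥0 using hx.le
  lift y to ℝ≥0 using hy.le
  obtain ⟨r1, hr⟩ : ∃ r1 : ℝ≥0, (r1 : ℝ) = q * (1 - p - q) :=
    ⟨⟨_, mul_nonneg hq.le (by linarith)⟩, rfl⟩
  rw [← hr]
  refine ⟨?_, fun r hr0 hr1 => ?_⟩
  · obtain ⟨L, hL, ht⟩ := t3b_phi_lim hq h1 h2 h3 hr hxy
    rw [← hL, ENNReal.ofReal_coe_nnreal]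
    refine (t3b_tsum_iSup r1 y x phiP fun j j' h => t3b_phiIt gP h yP _ h).trans ?_
    simp only [t3bEv_phiP]
    exact iSup_eq_of_tendsto
      (fun j j' h => ENNReal.coe_le_coe.2 (t3b_le_iff.1 (t3b_phiIt _ h y r1 h)))
      (ENNReal.tendsto_coe.2 ht)
  · lift r to ℝ≥0 using hr0
    have hlt : r < r1 := hr1
    obtain ⟨d, rfl⟩ := exists_add_of_le hlt.le
    have hd : 0 < d := (lt_add_iff_pos_right r).1 hlt
    refine ne_top_of_le_ne_top (ENNReal.coe_ne_top (r := (p ^ 2 + 2 * (r + d)) / d)) ?_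
    refine (t3b_tsum_iSup r y x hP fun j j' h => t3b_hP h).trans_le (iSup_le fun j => ?_)
    rw [ENNReal.coe_le_coe, le_div_iff₀ hd]
    refine (t3bEv_deriv r d y x _).trans ?_
    rw [map_add, map_pow, map_mul, t3bEv_sigP, t3bEv_X, map_ofNat]
    exact add_le_add_left (pow_le_pow_left' (t3b_sig_le hq h1 hr hxy j j) 2) _

theorem atoms_W : hW 0 ≠ 0 ∧ pW 0 ≠ 0 ∧ ∃ γ : Gam, γ.1 = 1 ∧ pW γ ≠ 0 := by
  refine ⟨fun h => ?_, fun h => ?_, (1, 1, Finsupp.single 4 1), rfl, fun h => ?_⟩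
  · have := ENNReal.iSup_eq_zero.1 h 0
    simp [coef, hP, sigP, sigIt, ← map_ofNat MvPolynomial.C 2] at this
  · have := ENNReal.iSup_eq_zero.1 h 0
    simp [coef, phiP, phiIt] at this
  · have h1 := ENNReal.coe_eq_zero.1 (ENNReal.iSup_eq_zero.1 h 4)
    have h2 : t3bLe (yP * (gP 4 * Polynomial.X)) (phiP 4) := by
      have a1 : t3bLe Polynomial.X (mot (Polynomial.X : PR) 0 3 1) :=
        ⟨2 * Polynomial.X, by simp [mot]; ring⟩
      have a2 : t3bLe (∑ k ∈ {3}, gP (k + 1) * mot (Polynomial.X : PR) 0 k 1)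
          (Aj gP 4 Polynomial.X (sigP 4) 1) :=
        t3b_sum (by decide) fun k => t3b_mul (t3b_refl _) (t3b_mot _ (t3b_zero _) k 1)
      have a3 : t3bLe (∑ i ∈ {1}, (yP * Aj gP 4 Polynomial.X (sigP 4) 1) ^ i) (phiP 4) :=
        t3b_sum (t := Finset.range 5) (by decide) fun k => t3b_refl _
      rw [Finset.sum_singleton] at a2 a3
      rw [pow_one] at a3
      exact t3b_trans (t3b_mul (t3b_refl _) (t3b_trans (t3b_mul (t3b_refl _) a1) a2)) a3
    have h3 := t3b_coef_le h2 (1, 1, Finsupp.single 4 1)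
    rw [h1] at h3
    simp [coef, yP, gP, MvPolynomial.coeff_X] at h3

end Pool.Agent.Lib.MP_77dff5_pr
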