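import Pool.Agent.Lib.MP_77dff5_pr.Tree3B

/-! The step law at the critical point. -/

set_option autoImplicit false

namespace Pool.Agent.Lib.MP_77dff5_pr

open scoped ENNReal
open Filter Topology

theorem tree3c_ev_mono {r r' y x x' : ℝ} (hr : 0 ≤ r) (hy : 0 ≤ y) (hx : 0 ≤ x) (h1 : r ≤ r')
    (h2 : x ≤ x') (γ : Gam) : ev r y x γ ≤ ev r' y x' γ := by
  unfold ev
  refine ENNReal.ofReal_le_ofReal ?_
  have := hr.trans h1
  gcongr

theorem tree3c_bern {r ρ : ℝ} (hr : 0 < r) (hρ : 0 ≤ ρ) (n : ℕ) :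
    r ^ n + r ^ n * n * (ρ / r) ≤ ρ ^ n + r ^ n * n := by
  have h0 : 0 ≤ ρ / r := by positivity
  have h1 := one_add_mul_le_pow (a := ρ / r - 1) (by linarith) n
  rw [add_sub_cancel, div_pow, le_div_iff₀ (by positivity)] at h1
  linarith

theorem tree3c_ev_tan {r ρ y x : ℝ} (hr : 0 < r) (hρ : 0 ≤ ρ) (hy : 0 ≤ y) (hx : 0 ≤ x) (γ : Gam) :
    ev r y x γ + ev r y x γ * γ.1 * ENNReal.ofReal (ρ / r) ≤ ev ρ y x γ + ev r y x γ * γ.1 := by
  unfold ev
  have h1 := tree3c_bern hr hρ γ.1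
  generalize γ.1 = n at *
  generalize hc : γ.2.2.sum (fun _ k => k) = k
  have h2 : 0 ≤ y ^ γ.2.1 * x ^ k := by positivity
  rw [← ENNReal.ofReal_natCast n, ← ENNReal.ofReal_mul (by positivity),
    ← ENNReal.ofReal_mul (by positivity), ← ENNReal.ofReal_add (by positivity) (by positivity),
    ← ENNReal.ofReal_add (by positivity) (by positivity)]
  refine ENNReal.ofReal_le_ofReal ?_
  nlinarith [mul_le_mul_of_nonneg_right h1 h2]

theorem tree3c_tan {r ρ y x : ℝ} (hr : 0 < r) (hρ : 0 ≤ ρ) (hy : 0 ≤ y) (hx : 0 ≤ x) :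
    ∑' γ, pW γ * ev r y x γ + (∑' γ, pW γ * ev r y x γ * γ.1) * ENNReal.ofReal (ρ / r) ≤
      ∑' γ, pW γ * ev ρ y x γ + ∑' γ, pW γ * ev r y x γ * γ.1 := by
  rw [← ENNReal.tsum_mul_right, ← ENNReal.tsum_add, ← ENNReal.tsum_add]
  refine ENNReal.tsum_le_tsum fun γ => ?_
  calc _ = pW γ * (ev r y x γ + ev r y x γ * γ.1 * ENNReal.ofReal (ρ / r)) := by ring
    _ ≤ pW γ * (ev ρ y x γ + ev r y x γ * γ.1) :=
        mul_le_mul_right (tree3c_ev_tan hr hρ hy hx γ) _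
    _ = _ := by ring

theorem tree3c_fin {r ρ y x : ℝ} (hr : 0 < r) (hρ : r < ρ) (hy : 0 ≤ y) (hx : 0 ≤ x)
    (h : ∑' γ, pW γ * ev ρ y x γ ≠ ⊤) : ∑' γ, pW γ * ev r y x γ * γ.1 ≠ ⊤ := by
  have h0 : 0 < ρ / r - 1 := sub_pos.2 ((one_lt_div hr).2 hρ)
  have h1 : (∑' γ, pW γ * ev r y x γ * γ.1) * ENNReal.ofReal (ρ / r - 1) ≤
      ∑' γ, pW γ * ev ρ y x γ := by
    rw [← ENNReal.tsum_mul_right]
    refine ENNReal.tsum_le_tsum fun γ => ?_
    rw [mul_assoc, mul_assoc]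
    gcongr
    unfold ev
    have h1 := tree3c_bern hr (hr.trans hρ).le γ.1
    generalize γ.1 = n at *
    generalize hc : γ.2.2.sum (fun _ k => k) = k
    have h2 : 0 ≤ y ^ γ.2.1 * x ^ k := by positivity
    have h3 : 0 ≤ r ^ n := by positivity
    rw [← ENNReal.ofReal_natCast n, ← ENNReal.ofReal_mul (by positivity),
      ← ENNReal.ofReal_mul (by positivity)]
    refine ENNReal.ofReal_le_ofReal ?_
    nlinarith [mul_le_mul_of_nonneg_right h1 h2, mul_nonneg h3 h2]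
  intro htop
  rw [htop, ENNReal.top_mul (ENNReal.ofReal_pos.2 h0).ne'] at h1
  exact h (top_le_iff.1 h1)

/-- the open conditions of `eval_pW` -/
def tree3cOk (p q : ℝ) : Prop :=
  0 < p ∧ 0 < q ∧ p + 2 * q < 1 ∧ p * (1 - p) < (1 - p - 2 * q) ^ 2 ∧ 2 * p + q < 1

theorem tree3c_ok_ev {α : Type} {l : Filter α} {f g : α → ℝ} {p q : ℝ} (h : tree3cOk p q)
    (hf : Tendsto f l (𝓝 p)) (hg : Tendsto g l (𝓝 q)) : ∀ᶠ t in l, tree3cOk (f t) (g t) := by
  obtain ⟨h1, h2, h3, h4, h5⟩ := h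
  have c : ∀ a : ℝ, Tendsto (fun _ : α => a) l (𝓝 a) := fun a => tendsto_const_nhds
  filter_upwards [(c 0).eventually_lt hf h1, (c 0).eventually_lt hg h2,
    (hf.add (hg.const_mul 2)).eventually_lt (c 1) h3,
    (hf.mul ((c 1).sub hf)).eventually_lt ((((c 1).sub hf).sub (hg.const_mul 2)).pow 2) h4,
    ((hf.const_mul 2).add hg).eventually_lt (c 1) h5] with t a1 a2 a3 a4 a5
  exact ⟨a1, a2, a3, a4, a5⟩

theorem tree3c_eval {p q x y : ℝ} (h : tree3cOk p q) (hy : 0 < y)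
    (hxy : x * y = p * (1 - p - 2 * q)) :
    ∑' γ, pW γ * ev (q * (1 - p - q)) y x γ = ENNReal.ofReal ((1 - p - q) / (1 - 2 * p - q)) ∧
      ∀ r : ℝ, 0 ≤ r → r < q * (1 - p - q) → ∑' γ, hW γ * ev r y x γ ≠ ⊤ :=
  eval_pW h.1 h.2.1 hy h.2.2.1 h.2.2.2.1 h.2.2.2.2 hxy

theorem step_law {w : ℝ} (hw : 0 < w) :
    ∑' γ, pW γ * ev (rw' w) (yw w) (xw w) γ = ENNReal.ofReal (rw' w / yw w) ∧
    ∑' γ, pW γ * ev (rw' w) (yw w) (xw w) γ * γ.1 = ENNReal.ofReal (rw' w / yw w) ∧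
    (∃ δ : ℝ, 0 < δ ∧
      ∑' γ, pW γ * ev (rw' w * Real.exp δ) (yw w) (xw w * Real.exp δ) γ ≠ ⊤ ∧
      ∑' γ, hW γ * ev (rw' w * Real.exp δ) (yw w) (xw w * Real.exp δ) γ ≠ ⊤) ∧
    hW 0 ≠ 0 ∧ pW 0 ≠ 0 ∧ ∃ γ : Gam, γ.1 = 1 ∧ pW γ ≠ 0 := by
  have hp : 0 < pw w := by
    unfold pw
    positivity
  have hx : 0 < xw w := by
    unfold xw
    positivity
  have hone : 1 = 2 * (1 + w + w ^ 2) * pw w := by
    unfold pw
    field_simp
  have hxy0 : xw w * yw w = (2 * w + 1) * pw w ^ 2 := by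
    unfold xw yw
    field_simp
  have ey : yw w = pw w ^ 2 * w ^ 3 * (w + 2) := rfl
  have er : rw' w = w ^ 2 * pw w * (1 - pw w - w ^ 2 * pw w) := rfl
  generalize pw w = p at *
  generalize xw w = x at *
  generalize yw w = y at *
  generalize rw' w = r at *
  have hy : 0 < y := by
    rw [ey]
    positivity
  have e1 : 1 - p - w ^ 2 * p = (1 + w) ^ 2 * p := by linear_combination hone
  have e2 : 1 - p - 2 * (w ^ 2 * p) = (1 + 2 * w) * p := by linear_combination hone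
  have e3 : 1 - 2 * p - w ^ 2 * p = w * (w + 2) * p := by linear_combination hone
  have e4 : 1 - p = (1 + 2 * w + 2 * w ^ 2) * p := by linear_combination hone
  have hr : 0 < r := by
    rw [er, e1]
    positivity
  have ok : tree3cOk p (w ^ 2 * p) := by
    refine ⟨hp, by positivity, ?_, ?_, ?_⟩
    · have : 0 < (1 + 2 * w) * p := by positivity
      linarith
    · have : 0 < (w + w ^ 2) * p ^ 2 := by positivity
      rw [e2, e4]
      nlinarith
    · have : 0 < w * (w + 2) * p := by positivity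
      linarith
  have hxy : x * y = p * (1 - p - 2 * (w ^ 2 * p)) := by
    rw [hxy0, e2]
    ring
  have hq : (1 - p - w ^ 2 * p) / (1 - 2 * p - w ^ 2 * p) = r / y := by
    rw [er, ey, e1, e3]
    field_simp
  have mass : ∑' γ, pW γ * ev r y x γ = ENNReal.ofReal (r / y) := by
    have k := (tree3c_eval ok hy hxy).1
    rwa [← er, hq] at k
  have expo : ∃ δ : ℝ, 0 < δ ∧ ∑' γ, pW γ * ev (r * Real.exp δ) y (x * Real.exp δ) γ ≠ ⊤ ∧
      ∑' γ, hW γ * ev (r * Real.exp δ) y (x * Real.exp δ) γ ≠ ⊤ := by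
    have t0 : Tendsto (fun t : ℝ => t) (𝓝[>] 0) (𝓝 0) := nhdsWithin_le_nhds
    have c : ∀ a : ℝ, Tendsto (fun _ : ℝ => a) (𝓝[>] 0) (𝓝 a) := fun a => tendsto_const_nhds
    have k1 := tree3c_ok_ev (f := fun t : ℝ => p + t) (g := fun t : ℝ => w ^ 2 * p + w / 2 * t) ok
      (by simpa using (c p).add t0) (by simpa using (c (w ^ 2 * p)).add (t0.const_mul (w / 2)))
    have k2 := (t0.const_mul (w / 2 * (1 + w / 2))).eventually_lt (c (w / 2 * p))
      (by rw [mul_zero]; positivity)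
    have k3 := (t0.const_mul (1 + w)).eventually_lt (c (w * p)) (by rw [mul_zero]; positivity)
    obtain ⟨t, ⟨⟨a1, a2⟩, a3⟩, a4⟩ := (((k1.and k2).and k3).and self_mem_nhdsWithin).exists
    have ht : 0 < t := a4
    obtain ⟨b1, b2⟩ := tree3c_eval a1 hy
      (x := (p + t) * (1 - (p + t) - 2 * (w ^ 2 * p + w / 2 * t)) / y) (by field_simp)
    have c1 : r < (w ^ 2 * p + w / 2 * t) * (1 - (p + t) - (w ^ 2 * p + w / 2 * t)) := by
      have e : (w ^ 2 * p + w / 2 * t) * (1 - (p + t) - (w ^ 2 * p + w / 2 * t))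
          = r + t * (w / 2 * p - w / 2 * (1 + w / 2) * t) := by
        rw [er]
        linear_combination (w / 2 * t) * hone
      rw [e]
      exact lt_add_of_pos_right _ (mul_pos ht (sub_pos.2 a2))
    have c2 : x < (p + t) * (1 - (p + t) - 2 * (w ^ 2 * p + w / 2 * t)) / y := by
      have e : (p + t) * (1 - (p + t) - 2 * (w ^ 2 * p + w / 2 * t))
          = x * y + t * (w * p - (1 + w) * t) := by
        rw [hxy]
        linear_combination t * hone
      rw [lt_div_iff₀ hy, e]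
      exact lt_add_of_pos_right _ (mul_pos ht (sub_pos.2 a3))
    generalize (w ^ 2 * p + w / 2 * t) * (1 - (p + t) - (w ^ 2 * p + w / 2 * t)) = r' at *
    generalize (p + t) * (1 - (p + t) - 2 * (w ^ 2 * p + w / 2 * t)) / y = x' at *
    have t1 : Tendsto (fun δ : ℝ => Real.exp δ) (𝓝[>] 0) (𝓝 1) := by
      rw [← Real.exp_zero]
      exact (Real.continuous_exp.tendsto 0).comp t0
    have k4 := (t1.const_mul r).eventually_lt (c r') (by rwa [mul_one])
    have k5 := (t1.const_mul x).eventually_lt (c x') (by rwa [mul_one])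
    obtain ⟨δ, ⟨d1, d2⟩, d3⟩ := ((k4.and k5).and self_mem_nhdsWithin).exists
    refine ⟨δ, d3, ne_top_of_le_ne_top (b1.trans_ne ENNReal.ofReal_ne_top) ?_,
      ne_top_of_le_ne_top (b2 (r * Real.exp δ) (by positivity) d1) ?_⟩
    · refine ENNReal.tsum_le_tsum fun γ => ?_
      gcongr
      exact tree3c_ev_mono (by positivity) hy.le (by positivity) d1.le d2.le γ
    · refine ENNReal.tsum_le_tsum fun γ => ?_
      gcongr
      exact tree3c_ev_mono (by positivity) hy.le (by positivity) le_rfl d2.le γ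
  refine ⟨mass, ?_, expo, atoms_W⟩
  have hfin : ∑' γ, pW γ * ev r y x γ * γ.1 ≠ ⊤ := by
    obtain ⟨δ, d1, d2, -⟩ := expo
    have d3 : 1 < Real.exp δ := Real.one_lt_exp_iff.2 d1
    refine tree3c_fin hr (lt_mul_of_one_lt_right hr d3) hy.le hx.le (ne_top_of_le_ne_top d2 ?_)
    refine ENNReal.tsum_le_tsum fun γ => ?_
    gcongr
    exact tree3c_ev_mono (by positivity) hy.le hx.le le_rfl (le_mul_of_one_le_right hx.le d3.le) γ
  obtain ⟨μ, hμ, eμ⟩ : ∃ μ : ℝ, 0 ≤ μ ∧ ∑' γ, pW γ * ev r y x γ * γ.1 = ENNReal.ofReal μ :=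
    ⟨_, ENNReal.toReal_nonneg, (ENNReal.ofReal_toReal hfin).symm⟩
  rw [eμ]
  congr 1
  obtain ⟨Q, hQ⟩ : ∃ Q : ℝ → ℝ, Q = fun s => (1 - s - x * y * s⁻¹) / 2 := ⟨_, rfl⟩
  have hQp : Q p = w ^ 2 * p := by
    rw [hQ]
    simp only
    rw [hxy0, e4]
    field_simp
    ring
  have hQd : HasDerivAt Q w p := by
    have k := ((((hasDerivAt_id' p).const_sub 1).fun_sub
      ((hasDerivAt_inv hp.ne').const_mul (x * y))).div_const 2)
    rw [hQ]
    refine k.congr_deriv ?_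
    rw [hxy0]
    field_simp
    ring
  have hA : HasDerivAt (fun s => 1 - s - Q s) (-1 - w) p :=
    ((hasDerivAt_id' p).const_sub 1).fun_sub hQd
  have hB : HasDerivAt (fun s => 1 - 2 * s - Q s) (-(2 * 1) - w) p :=
    (((hasDerivAt_id' p).const_mul 2).const_sub 1).fun_sub hQd
  have hB0 : 1 - 2 * p - Q p ≠ 0 := by
    rw [hQp, e3]
    positivity
  have hG := (hA.fun_div hB hB0).fun_sub (((hQd.fun_mul hA).div_const r).const_mul μ)
  have hmin : IsLocalMin (fun s => (1 - s - Q s) / (1 - 2 * s - Q s) -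
      μ * (Q s * (1 - s - Q s) / r)) p := by
    have k1 := tree3c_ok_ev (l := 𝓝 p) (f := fun s => s) (g := Q) ok tendsto_id
      (by rw [← hQp]; exact hQd.continuousAt)
    filter_upwards [k1] with s hs
    have a1 : 0 < 1 - s - Q s := by linarith [hs.1, hs.2.1, hs.2.2.1]
    have a2 : 0 < 1 - 2 * s - Q s := by linarith [hs.2.2.2.2]
    have a3 := hs.2.1
    have b1 := (tree3c_eval hs hy (x := x) (by
      have := hs.1.ne'
      rw [hQ]
      field_simp
      ring)).1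
    have b2 := tree3c_tan (ρ := Q s * (1 - s - Q s)) hr (by positivity) hy.le hx.le
    rw [mass, eμ, b1, ← ENNReal.ofReal_mul hμ,
      ← ENNReal.ofReal_add (by positivity) (by positivity),
      ← ENNReal.ofReal_add (by positivity) hμ, ENNReal.ofReal_le_ofReal_iff (by positivity)] at b2
    rw [hQp, hq, ← er, div_self hr.ne']
    linarith
  have key := hmin.hasDerivAt_eq_zero hG
  rw [hQp, e1, e3, sub_eq_zero] at key
  have k2 : (w * ((1 + w) ^ 2 * p) + w ^ 2 * p * (-1 - w)) / r = w * (1 + w) * p / r := by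
    congr 1
    ring
  rw [k2, ← mul_div_assoc, div_eq_div_iff (by positivity) hr.ne'] at key
  rw [eq_div_iff hy.ne', ey]
  have k3 : (1 + w) * (w + 2) * p ≠ 0 := by positivity
  refine mul_left_cancel₀ k3 ?_
  linear_combination -key

end Pool.Agent.Lib.MP_77dff5_pr
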