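import Pool.Agent.Lib.MP_77dff5_pr.Tree2
import Pool.Agent.Lib.MP_77dff5_pr.Tree3
import Pool.Agent.Lib.MP_77dff5_pr.LLTB
import Pool.Agent.Lib.MP_77dff5_pr.FamA
import Pool.Agent.Lib.MP_77dff5_pr.MDefsEq

/-! Local central limit theorem for degree statistics of planar maps counted by faces. -/

set_option autoImplicit false

namespace Pool.Agent.Lib.MP_77dff5_pr

open MeasureTheory Filter Topology
open scoped ENNReal

/-- number of vertices -/
noncomputable def tree5N : (ℕ →₀ ℕ) →+ ℕ := Finsupp.weight fun _ => 1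

/-- degree statistic -/
noncomputable def tree5F (f : ℕ → ℝ) : (ℕ →₀ ℕ) →+ ℝ := Finsupp.weight f

theorem tree5N_eq (ζ : ℕ →₀ ℕ) : (ζ.sum fun _ k => k) = tree5N ζ := by
  simp [tree5N, Finsupp.weight_apply]

theorem tree5N_single (k : ℕ) : tree5N (Finsupp.single k 1) = 1 := by
  simp [tree5N, Finsupp.weight_single]

theorem tree5F_single (f : ℕ → ℝ) (k : ℕ) : tree5F f (Finsupp.single k 1) = f k := by
  simp [tree5F, Finsupp.weight_single]

theorem tree5F_le {f : ℕ → ℝ} {B : ℝ} (hB : ∀ k, |f k| ≤ B) (ζ : ℕ →₀ ℕ) :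
    |tree5F f ζ| ≤ B * tree5N ζ := by
  rw [← tree5N_eq, tree5F, Finsupp.weight_apply, Finsupp.sum, Finsupp.sum, Nat.cast_sum,
    Finset.mul_sum]
  refine (Finset.abs_sum_le_sum_abs _ _).trans (Finset.sum_le_sum fun k _ => ?_)
  rw [nsmul_eq_mul, abs_mul, Nat.abs_cast, mul_comm]
  exact mul_le_mul_of_nonneg_right (hB k) (Nat.cast_nonneg _)

theorem tree5_bdd {f : ℕ → ℝ} {k0 : ℕ} (h : EvC f k0) : ∃ B, 0 ≤ B ∧ ∀ k, |f k| ≤ B := by
  refine ⟨∑ d ∈ Finset.range (k0 + 2), |f d|, Finset.sum_nonneg fun _ _ => abs_nonneg _, fun k => ?_⟩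
  by_cases hk : k0 < k
  · rw [h k hk]
    exact Finset.single_le_sum (f := fun d => |f d|) (fun _ _ => abs_nonneg _)
      (Finset.mem_range.mpr (by omega))
  · exact Finset.single_le_sum (f := fun d => |f d|) (fun _ _ => abs_nonneg _)
      (Finset.mem_range.mpr (by omega))

theorem tree5_ev {r y x : ℝ} (hr : 0 ≤ r) (hy : 0 ≤ y) (hx : 0 ≤ x) (γ : Gam) :
    ev r y x γ = ENNReal.ofReal r ^ γ.1 * ENNReal.ofReal y ^ γ.2.1 *
      ENNReal.ofReal x ^ tree5N γ.2.2 := by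
  rw [ev, tree5N_eq, ENNReal.ofReal_mul (by positivity), ENNReal.ofReal_mul (by positivity),
    ENNReal.ofReal_pow hr, ENNReal.ofReal_pow hy, ENNReal.ofReal_pow hx]

theorem tree5_ev_exp {r y x : ℝ} (hr : 0 ≤ r) (hy : 0 ≤ y) (hx : 0 ≤ x) (δ : ℝ) (γ : Gam) :
    ev r y x γ * ENNReal.ofReal (Real.exp (δ * (γ.1 + tree5N γ.2.2))) =
      ev (r * Real.exp δ) y (x * Real.exp δ) γ := by
  rw [ev, ev, tree5N_eq, ← ENNReal.ofReal_mul (by positivity)]
  congr 1
  rw [mul_add, Real.exp_add, mul_comm δ, mul_comm δ, Real.exp_nat_mul, Real.exp_nat_mul, mul_pow,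
    mul_pow]
  ring

theorem tree5_ind_pos {p : Prop} (h : p) : ind p = 1 := if_pos h

theorem tree5_ind_neg {p : Prop} (h : ¬p) : ind p = 0 := if_neg h

theorem tree5_onR (w : RG → ℝ≥0∞) (G : Om → ℝ≥0∞) :
    ∑' ω, onR w ω * G ω = ∑' R, w R * G (.inl R) := by
  refine (Sum.inl_injective.tsum_eq (f := fun ω => onR w ω * G ω) ?_).symm
  rintro (R | ω) h
  · exact ⟨R, rfl⟩
  · exact (h (zero_mul _)).elim

theorem tree5_xpos {w : ℝ} (hw : 0 < w) : 0 < xw w := by unfold xw; positivity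

theorem tree5_ypos {w : ℝ} (hw : 0 < w) : 0 < yw w := by unfold yw pw; positivity

theorem tree5_rpos {w : ℝ} (hw : 0 < w) : 0 < rw' w := by
  have h : 1 - pw w - qw w = (1 + w) ^ 2 * pw w := by
    unfold qw pw
    field_simp
    ring
  unfold rw'
  rw [h]
  unfold qw pw
  positivity

section
variable [MeasurableSpace Gam] [DiscreteMeasurableSpace Gam]

/-- the step law -/
noncomputable def tree5p (w : ℝ) : Measure Gam := nrm fun γ => pW γ * ev (rw' w) (yw w) (xw w) γ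

/-- the initial law -/
noncomputable def tree5h (w : ℝ) : Measure Gam := meas fun γ => hW γ * ev (rw' w) (yw w) (xw w) γ

theorem tree5_meas_ne {u : Gam → ℝ≥0∞} {γ : Gam} (h : u γ ≠ 0) {s : Set Gam} (hs : γ ∈ s) :
    meas u s ≠ 0 := by
  rw [← lintegral_indicator_one .of_discrete, lintegral_meas]
  refine fun h0 => h ?_
  have := ENNReal.tsum_eq_zero.mp h0 γ
  rwa [Set.indicator_of_mem hs, Pi.one_apply, mul_one] at this

theorem tree5_steps {w : ℝ} (hw : 0 < w) :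
    Steps (tree5p w) (tree5h w) (fun γ => γ.1) fun γ => tree5N γ.2.2 := by
  obtain ⟨h1, h2, ⟨δ, hδ, h3, h4⟩, h5, h6, γ1, h7, h8⟩ := step_law hw
  have hx := tree5_xpos hw
  have hy := tree5_ypos hw
  have hr := tree5_rpos hw
  have ha0 : ENNReal.ofReal (rw' w / yw w) ≠ 0 := (ENNReal.ofReal_pos.mpr (by positivity)).ne'
  have hev : ∀ γ, ev (rw' w) (yw w) (xw w) γ ≠ 0 := fun γ =>
    (ENNReal.ofReal_pos.mpr (by positivity)).ne'
  have hp : ∀ ψ : Gam → ℝ≥0∞, ∫⁻ γ, ψ γ ∂tree5p w =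
      (ENNReal.ofReal (rw' w / yw w))⁻¹ * ∑' γ, pW γ * ev (rw' w) (yw w) (xw w) γ * ψ γ := by
    intro ψ
    rw [tree5p, nrm, lintegral_smul_measure, lintegral_meas, h1, smul_eq_mul]
  have hexp : ∀ u : Gam → ℝ≥0∞, ∑' γ, u γ * ev (rw' w) (yw w) (xw w) γ *
      ‖Real.exp (δ * (γ.1 + tree5N γ.2.2))‖ₑ =
      ∑' γ, u γ * ev (rw' w * Real.exp δ) (yw w) (xw w * Real.exp δ) γ := by
    intro u
    refine tsum_congr fun γ => ?_
    rw [Real.enorm_eq_ofReal (Real.exp_pos _).le, mul_assoc, tree5_ev_exp hr.le hy.le hx.le]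
  have hih : Integrable (fun γ : Gam => Real.exp (δ * (γ.1 + tree5N γ.2.2))) (tree5h w) := by
    refine ⟨Measurable.of_discrete.aestronglyMeasurable, ?_⟩
    rw [HasFiniteIntegral, tree5h, lintegral_meas, hexp]
    exact h4.lt_top
  refine ⟨isProb_nrm (h1 ▸ ha0) (h1 ▸ ENNReal.ofReal_ne_top), ⟨?_⟩, ?_, ⟨δ, hδ, ?_, hih⟩, ?_, ?_, ?_⟩
  · refine lt_of_le_of_lt ?_ hih.2
    rw [← lintegral_one]
    refine lintegral_mono fun γ => ?_
    rw [Real.enorm_eq_ofReal (Real.exp_pos _).le]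
    exact ENNReal.one_le_ofReal.mpr (Real.one_le_exp (by positivity))
  · intro h0
    refine tree5_meas_ne (u := fun γ => hW γ * ev (rw' w) (yw w) (xw w) γ)
      (mul_ne_zero h5 (hev 0)) (Set.mem_univ _) ?_
    exact congrArg (fun μ : Measure Gam => μ Set.univ) h0
  · refine ⟨Measurable.of_discrete.aestronglyMeasurable, ?_⟩
    rw [HasFiniteIntegral, hp, hexp]
    exact ENNReal.mul_lt_top (ENNReal.inv_lt_top.mpr ha0.bot_lt) h3.lt_top
  · rw [integral_eq_lintegral_of_nonneg_ae (.of_forall fun _ => Nat.cast_nonneg _)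
      Measurable.of_discrete.aestronglyMeasurable, hp]
    simp only [ENNReal.ofReal_natCast]
    rw [h2, ENNReal.inv_mul_cancel ha0 ENNReal.ofReal_ne_top, ENNReal.toReal_one]
  · rw [tree5p, nrm, Measure.smul_apply, h1, smul_eq_mul]
    exact mul_ne_zero (ENNReal.inv_ne_zero.mpr ENNReal.ofReal_ne_top)
      (tree5_meas_ne (γ := 0) (mul_ne_zero h6 (hev 0)) rfl)
  · rw [tree5p, nrm, Measure.smul_apply, h1, smul_eq_mul]
    exact mul_ne_zero (ENNReal.inv_ne_zero.mpr ENNReal.ofReal_ne_top)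
      (tree5_meas_ne (γ := γ1) (mul_ne_zero h8 (hev γ1)) h7)

theorem tree5_brid {u v : Gam → ℝ≥0∞} (h0 : ∑' γ, u γ ≠ 0) (h1 : ∑' γ, u γ ≠ ⊤) (ρ : Gam → ℕ)
    (F : Gam → ℝ) (mu : ℝ) (n : ℕ) (Φ : ℝ → ℝ≥0∞) (hΦ : Measurable Φ) :
    (∑' γ, u γ) ^ n * ∫⁻ x, Φ x ∂brid (nrm u) (meas v) ρ F mu n =
      ∑' γ₀ : Gam, ∑' γ : Fin n → Gam, v γ₀ * (∏ i, u (γ i)) *
        (ind (ρ γ₀ + ∑ i, ρ (γ i) = n - 1) * Φ (F γ₀ + ∑ i, F (γ i) - mu * n)) := by
  have := isProb_nrm h0 h1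
  rw [brid, lintegral_map hΦ .of_discrete, ← lintegral_indicator .of_discrete,
    lintegral_prod _ Measurable.of_discrete.aemeasurable, lintegral_meas, ← ENNReal.tsum_mul_left]
  refine tsum_congr fun γ₀ => ?_
  have h := Core.tlaw_eq (Core.free (Ω := Gam) (Fin n) (fun _ => ()) 0 0) (wg := fun _ => u)
    (fun _ => h0) (fun _ => h1)
    (fun γ => ind (ρ γ₀ + ∑ i, ρ (γ i) = n - 1) * Φ (F γ₀ + ∑ i, F (γ i) - mu * n))
  simp only [mul_assoc (v γ₀)]
  rw [ENNReal.tsum_mul_left, mul_left_comm]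
  congr 1
  refine Eq.trans ?_ h.symm
  congr 1
  · exact ((Finset.prod_const _).trans (by rw [Finset.card_univ]; exact congrArg _ (Fintype.card_fin n))).symm
  · refine lintegral_congr fun γ => ?_
    by_cases hγ : ρ γ₀ + ∑ i, ρ (γ i) = n - 1
    · rw [Set.indicator_of_mem (by exact hγ)]
      exact (by rw [tree5_ind_pos hγ, one_mul] :
        Φ (F γ₀ + ∑ i, F (γ i) - mu * n) = ind (ρ γ₀ + ∑ i, ρ (γ i) = n - 1) * _)
    · rw [Set.indicator_of_notMem (by exact hγ)]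
      exact (by rw [tree5_ind_neg hγ, zero_mul] :
        0 = ind (ρ γ₀ + ∑ i, ρ (γ i) = n - 1) * Φ (F γ₀ + ∑ i, F (γ i) - mu * n))

theorem tree5_id {w : ℝ} (hw : 0 < w) (f : ℕ → ℝ) (mu : ℝ) {n : ℕ} (hn : 1 ≤ n) (Φ : ℝ → ℝ≥0∞)
    (hΦ : Measurable Φ) :
    (((n + 1) * n : ℕ) : ℝ≥0∞) * ENNReal.ofReal (xw w) *
        ∑' ω, onR (wM (ENNReal.ofReal (xw w)) (ENNReal.ofReal (yw w))) ω *
          (ind (sA ω = n) * Φ (zz sA f 0 mu ω + f (cO ω))) + ind (n = 1) * 2 * Φ (-(mu * n)) =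
      ENNReal.ofReal (rw' w / yw w) *
        ∫⁻ x, Φ x ∂brid (tree5p w) (tree5h w) (fun γ => γ.1) (fun γ => tree5F f γ.2.2) mu n := by
  have h1 := (step_law hw).1
  have hx := tree5_xpos hw
  have hy := tree5_ypos hw
  have hr := tree5_rpos hw
  set a := ENNReal.ofReal (rw' w / yw w) with ha
  set X := ENNReal.ofReal (xw w) with hX
  set Y := ENNReal.ofReal (yw w) with hY
  have ha0 : a ≠ 0 := (ENNReal.ofReal_pos.mpr (by positivity)).ne'
  have haY : ENNReal.ofReal (rw' w) = a * Y := by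
    rw [ha, hY, ← ENNReal.ofReal_mul (by positivity), div_mul_cancel₀ _ hy.ne']
  have hb := tree5_brid (u := fun γ => pW γ * ev (rw' w) (yw w) (xw w) γ)
    (v := fun γ => hW γ * ev (rw' w) (yw w) (xw w) γ) (h1 ▸ ha0) (h1 ▸ ENNReal.ofReal_ne_top)
    (fun γ => γ.1) (fun γ => tree5F f γ.2.2) mu n Φ hΦ
  have ht := tree_id n hn fun q => Y ^ q.1 * X ^ tree5N q.2 * Φ (tree5F f q.2 - mu * n)
  rw [h1] at hb
  have hpow : a ^ (n - 1) ≠ 0 := pow_ne_zero _ ha0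
  have hpow' : a ^ (n - 1) ≠ ⊤ := ENNReal.pow_ne_top ENNReal.ofReal_ne_top
  refine (ENNReal.mul_right_inj hpow hpow').mp ?_
  rw [← mul_assoc (a ^ (n - 1)), ← pow_succ, Nat.sub_add_cancel hn]
  refine Eq.trans ?_ hb.symm
  have e1 : (((n + 1) * n : ℕ) : ℝ≥0∞) * X *
        ∑' ω, onR (wM X Y) ω * (ind (sA ω = n) * Φ (zz sA f 0 mu ω + f (cO ω))) =
      ∑' R : RG, w0 R * ind (R.1 - R.2.1 = n) * (((n + 1) * n : ℕ) : ℝ≥0∞) *
        (Y ^ R.1 * X ^ tree5N (zeta R.2.2 + Finsupp.single (deg R.2.2 none) 1) *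
          Φ (tree5F f (zeta R.2.2 + Finsupp.single (deg R.2.2 none) 1) - mu * n)) := by
    rw [tree5_onR, ← ENNReal.tsum_mul_left]
    refine tsum_congr fun R => ?_
    have e2 : tree5N (zeta R.2.2 + Finsupp.single (deg R.2.2 none) 1) = R.2.1 + 1 := by
      simp [zeta, map_sum, tree5N_single]
    have e3 : tree5F f (zeta R.2.2 + Finsupp.single (deg R.2.2 none) 1) =
        rF f R + f (cO (.inl R)) := by
      simp [zeta, map_sum, tree5F_single, rF, cO, rc]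
    rw [e2, e3]
    change _ * (wM X Y R * (ind (R.1 - R.2.1 = n) * _)) = _
    by_cases hR : R.1 - R.2.1 = n
    · have e4 : zz sA f 0 mu (.inl R) + f (cO (.inl R)) = rF f R + f (cO (.inl R)) - mu * n := by
        rw [← hR]
        simp only [zz, FO, sA]
        ring
      rw [e4, wM]
      ring
    · simp only [tree5_ind_neg hR, zero_mul, mul_zero]
  have e5 : Φ (-(mu * n)) = Y ^ (0 : ℕ) * X ^ tree5N 0 * Φ (tree5F f 0 - mu * n) := by simp
  rw [e1, e5, ht, ← ENNReal.tsum_mul_left]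
  refine tsum_congr fun γ₀ => ?_
  rw [← ENNReal.tsum_mul_left]
  refine tsum_congr fun γ => ?_
  by_cases hγ : γ₀.1 + ∑ i, (γ i).1 = n - 1
  · simp only [tree5_ev hr.le hy.le hx.le, Finset.prod_mul_distrib, Finset.prod_pow_eq_pow_sum,
      map_add, map_sum, haY, ← hX, ← hY]
    rw [← hγ]
    simp only [mul_pow, pow_add]
    ring
  · simp only [tree5_ind_neg hγ, zero_mul, mul_zero]

end

/-- maps with `n` inner faces -/
noncomputable def tree5M (w : ℝ) (n : ℕ) : Measure Om :=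
  (meas (onR (wM (ENNReal.ofReal (xw w)) (ENNReal.ofReal (yw w))))).restrict {ω | sA ω = n}

theorem tree5_lintegral (w : ℝ) (n : ℕ) (G : Om → ℝ≥0∞) :
    ∫⁻ ω, G ω ∂tree5M w n =
      ∑' ω, onR (wM (ENNReal.ofReal (xw w)) (ENNReal.ofReal (yw w))) ω * (ind (sA ω = n) * G ω) := by
  rw [tree5M, ← lintegral_indicator .of_discrete, lintegral_meas]
  refine tsum_congr fun ω => ?_
  by_cases h : sA ω = n
  · rw [Set.indicator_of_mem (by exact h), tree5_ind_pos h, one_mul]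
  · rw [Set.indicator_of_notMem (by exact h), tree5_ind_neg h, zero_mul]

theorem tree5_ch (w : ℝ) (z : Om → ℝ) (n : ℕ) (θ : ℝ) :
    ch (slaw (meas (onR (wM (ENNReal.ofReal (xw w)) (ENNReal.ofReal (yw w))))) sA z) n θ =
      ∫ ω, Complex.exp (Complex.I * ((θ * z ω : ℝ) : ℂ)) ∂tree5M w n := by
  have hm : MeasurableSet {p : ℕ × ℝ | p.1 = n} := measurable_fst (measurableSet_singleton n)
  rw [ch, slaw, setIntegral_map hm (Continuous.aestronglyMeasurable (by fun_prop))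
    Measurable.of_discrete.aemeasurable]
  rfl

theorem tree5_six_le {n : ℕ} (hn : 1 ≤ n) {B a b : ℝ} (hb : |b| ≤ B) :
    (n : ℝ) ^ 3 + a ^ 6 ≤ (32 + 32 * B ^ 6) * ((n : ℝ) ^ 3 + (a + b) ^ 6) := by
  have h1 : (1 : ℝ) ≤ (n : ℝ) ^ 3 := one_le_pow₀ (by exact_mod_cast hn)
  have h2 : a ^ 6 ≤ 2 ^ (6 - 1) * ((a + b) ^ 6 + (-b) ^ 6) := by
    have := Even.add_pow_le (a := a + b) (b := -b) (n := 6) (by decide)
    simpa using this
  have h3 : (-b) ^ 6 ≤ B ^ 6 := by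
    rw [Even.neg_pow (by decide), ← Even.pow_abs (by decide)]
    exact pow_le_pow_left₀ (abs_nonneg _) hb 6
  have h4 : 0 ≤ (a + b) ^ 6 := by positivity
  have h5 : 0 ≤ B ^ 6 := Even.pow_nonneg (by decide) _
  have h6 : (2 : ℝ) ^ (6 - 1) = 32 := by norm_num
  rw [h6] at h2
  have h7 := mul_nonneg h5 h4
  have h8 := mul_le_mul_of_nonneg_left h1 h5
  linarith

theorem tree5_norm_le {μ : Measure Om} [IsFiniteMeasure μ] (z g : Om → ℝ) {B : ℝ}
    (hg : ∀ ω, |g ω| ≤ B) (θ : ℝ) :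
    ‖∫ ω, Complex.exp (Complex.I * ((θ * z ω : ℝ) : ℂ)) ∂μ -
      ∫ ω, Complex.exp (Complex.I * ((θ * (z ω + g ω) : ℝ) : ℂ)) ∂μ‖ ≤
      |θ| * B * μ.real Set.univ := by
  have hi : ∀ u : Om → ℝ, Integrable (fun ω => Complex.exp (Complex.I * ((u ω : ℝ) : ℂ))) μ :=
    fun u => Integrable.of_bound Measurable.of_discrete.aestronglyMeasurable 1
      (.of_forall fun ω => (Complex.norm_exp_I_mul_ofReal _).le)
  rw [← integral_sub (hi _) (hi _)]
  refine norm_integral_le_of_norm_le_const (.of_forall fun ω => ?_)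
  have e : Complex.exp (Complex.I * ((θ * z ω : ℝ) : ℂ)) -
      Complex.exp (Complex.I * ((θ * (z ω + g ω) : ℝ) : ℂ)) =
      -(Complex.exp (Complex.I * ((θ * z ω : ℝ) : ℂ)) *
        (Complex.exp (Complex.I * ((θ * g ω : ℝ) : ℂ)) - 1)) := by
    rw [mul_add θ, Complex.ofReal_add, mul_add, Complex.exp_add]
    ring
  rw [e, norm_neg, norm_mul, Complex.norm_exp_I_mul_ofReal, one_mul]
  refine Real.norm_exp_I_mul_ofReal_sub_one_le.trans ?_
  rw [Real.norm_eq_abs, abs_mul]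
  exact mul_le_mul_of_nonneg_left (hg ω) (abs_nonneg _)

theorem tree5_rpow {n : ℕ} (hn : 1 ≤ n) :
    (n : ℝ) ^ (5 / 2 : ℝ) = (n : ℝ) ^ 2 * √n ∧ (n : ℝ) ^ (1 / 2 : ℝ) = √n := by
  have h0 : (0 : ℝ) < n := by exact_mod_cast hn
  refine ⟨?_, (Real.sqrt_eq_rpow _).symm⟩
  rw [Real.sqrt_eq_rpow, ← Real.rpow_natCast, ← Real.rpow_add h0]
  norm_num

theorem maps_clt {w : ℝ} (hw : 0 < w) : ∃ cM : ℝ, 0 < cM ∧ ∀ (f : ℕ → ℝ) (k0 : ℕ), EvC f k0 →
    ∃ mu σ2 C : ℝ,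
      (∀ θ : ℝ, Tendsto (fun p : ℕ × ℝ => (((p.1 : ℝ) ^ (5 / 2 : ℝ) : ℝ) : ℂ) *
          ch (slaw (meas (onR (wM (ENNReal.ofReal (xw w)) (ENNReal.ofReal (yw w))))) sA
            (zz sA f 0 mu)) p.1 p.2)
        (FF θ) (𝓝 ((cM * Real.exp (-(σ2 * θ ^ 2 / 2)) : ℝ) : ℂ))) ∧
      ∀ n : ℕ, 1 ≤ n →
        ∑' ω, onR (wM (ENNReal.ofReal (xw w)) (ENNReal.ofReal (yw w))) ω * ind (sA ω = n) *
            ENNReal.ofReal ((n : ℝ) ^ 3 + zz sA f 0 mu ω ^ 6) ≤
          ENNReal.ofReal (C * (n : ℝ) ^ (1 / 2 : ℝ)) := by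
  let _ : MeasurableSpace Gam := ⊤
  have : DiscreteMeasurableSpace Gam := ⟨fun _ => trivial⟩
  have H := tree5_steps hw
  have hx := tree5_xpos hw
  have hy := tree5_ypos hw
  have hr := tree5_rpos hw
  obtain ⟨c, hc, hllt⟩ := H.llt
  set κ := rw' w / yw w / xw w with hκ
  have hκ0 : 0 < κ := by positivity
  refine ⟨κ * c, by positivity, fun f k0 hf => ?_⟩
  obtain ⟨B, hB0, hB⟩ := tree5_bdd hf
  obtain ⟨σ2, hσ⟩ := hllt (fun γ => tree5F f γ.2.2) B fun γ => tree5F_le hB _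
  obtain ⟨C, hC⟩ := H.six (fun γ => tree5F f γ.2.2) B fun γ => tree5F_le hB _
  set mu := ∫ γ, tree5F f γ.2.2 ∂tree5p w with hmu
  have hpos : ∀ n : ℕ, 1 ≤ n → (0 : ℝ) < (n + 1) * n * xw w := fun n hn => by
    have : (0 : ℝ) < n := by exact_mod_cast hn
    positivity
  have hcast : ∀ n : ℕ, (((n + 1) * n : ℕ) : ℝ≥0∞) * ENNReal.ofReal (xw w) =
      ENNReal.ofReal ((n + 1) * n * xw w) := fun n => by
    rw [ENNReal.ofReal_mul (by positivity), ← ENNReal.ofReal_natCast]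
    push_cast
    rfl
  have hsix : ∀ n : ℕ, 1 ≤ n →
      ∫⁻ ω, ENNReal.ofReal ((n : ℝ) ^ 3 + (zz sA f 0 mu ω + f (cO ω)) ^ 6) ∂tree5M w n ≤
        ENNReal.ofReal (κ * |C| * √n) := by
    intro n hn
    have hn0 : (0 : ℝ) < n := by exact_mod_cast hn
    have h1 := tree5_id hw f mu hn (fun u => ENNReal.ofReal ((n : ℝ) ^ 3 + u ^ 6)) (by fun_prop)
    rw [← tree5_lintegral, hcast] at h1
    have h2 := (le_self_add.trans h1.le).trans (mul_le_mul_right (hC n hn) _)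
    refine (ENNReal.mul_le_mul_iff_right (ENNReal.ofReal_pos.mpr (hpos n hn)).ne'
      ENNReal.ofReal_ne_top).mp (h2.trans ?_)
    rw [← ENNReal.ofReal_mul (by positivity), ← ENNReal.ofReal_mul (hpos n hn).le]
    refine ENNReal.ofReal_le_ofReal ?_
    have e : (n + 1) * n * xw w * (κ * |C| * √n) =
        rw' w / yw w * (|C| * ((n + 1) * n * √n)) := by
      rw [hκ]
      field_simp
    rw [e, (tree5_rpow hn).1]
    refine mul_le_mul_of_nonneg_left ?_ (by positivity)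
    refine mul_le_mul (le_abs_self C) ?_ (by positivity) (abs_nonneg _)
    exact mul_le_mul_of_nonneg_right (by nlinarith) (Real.sqrt_nonneg _)
  have hmass : ∀ n : ℕ, 1 ≤ n → IsFiniteMeasure (tree5M w n) ∧
      (n : ℝ) ^ 2 * √n * (tree5M w n).real Set.univ ≤ κ * |C| := by
    intro n hn
    have hn0 : (0 : ℝ) < n := by exact_mod_cast hn
    have h1 : ENNReal.ofReal ((n : ℝ) ^ 3) * tree5M w n Set.univ ≤ ENNReal.ofReal (κ * |C| * √n) := by
      rw [← lintegral_const]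
      refine (lintegral_mono fun ω => ENNReal.ofReal_le_ofReal ?_).trans (hsix n hn)
      exact le_add_of_nonneg_right (by positivity)
    have h2 : tree5M w n Set.univ ≠ ⊤ := by
      intro h
      rw [h, ENNReal.mul_top (ENNReal.ofReal_pos.mpr (by positivity)).ne'] at h1
      exact ENNReal.ofReal_ne_top (top_le_iff.mp h1)
    refine ⟨⟨h2.lt_top⟩, ?_⟩
    have h3 := ENNReal.toReal_mono ENNReal.ofReal_ne_top h1
    rw [ENNReal.toReal_mul, ENNReal.toReal_ofReal (by positivity),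
      ENNReal.toReal_ofReal (by positivity)] at h3
    have hs : 0 < √(n : ℝ) := Real.sqrt_pos.mpr hn0
    refine le_of_mul_le_mul_right ?_ hs
    have e : (n : ℝ) ^ 2 * √n * (tree5M w n).real Set.univ * √n =
        (n : ℝ) ^ 3 * (tree5M w n Set.univ).toReal := by
      rw [mul_right_comm, mul_assoc ((n : ℝ) ^ 2), Real.mul_self_sqrt hn0.le]
      rfl
    rw [e]
    exact h3
  have hint : ∀ n : ℕ, 2 ≤ n → ∀ θ : ℝ,
      ∫ ω, Complex.exp (Complex.I * ((θ * (zz sA f 0 mu ω + f (cO ω)) : ℝ) : ℂ)) ∂tree5M w n =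
        ((κ / ((n + 1) * n) : ℝ) : ℂ) * ∫ x, Complex.exp (Complex.I * ((θ * x : ℝ) : ℂ))
          ∂brid (tree5p w) (tree5h w) (fun γ => γ.1) (fun γ => tree5F f γ.2.2) mu n := by
    intro n hn θ
    have hn0 : (0 : ℝ) < n := by exact_mod_cast (by omega : 0 < n)
    have h1 : (tree5M w n).map (fun ω => zz sA f 0 mu ω + f (cO ω)) =
        ENNReal.ofReal (κ / ((n + 1) * n)) •
          brid (tree5p w) (tree5h w) (fun γ => γ.1) (fun γ => tree5F f γ.2.2) mu n := by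
      refine Measure.ext_of_lintegral _ fun Φ hΦ => ?_
      have h2 := tree5_id hw f mu (n := n) (by omega) Φ hΦ
      rw [← tree5_lintegral, hcast, tree5_ind_neg (by omega), zero_mul, zero_mul, add_zero] at h2
      rw [lintegral_map hΦ .of_discrete, lintegral_smul_measure, smul_eq_mul]
      refine (ENNReal.mul_right_inj (ENNReal.ofReal_pos.mpr (hpos n (by omega))).ne'
        ENNReal.ofReal_ne_top).mp ?_
      rw [h2, ← mul_assoc, ← ENNReal.ofReal_mul (hpos n (by omega)).le]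
      congr 2
      rw [hκ]
      field_simp
    have h3 := integral_map (μ := tree5M w n) (φ := fun ω => zz sA f 0 mu ω + f (cO ω))
      Measurable.of_discrete.aemeasurable
      (f := fun x : ℝ => Complex.exp (Complex.I * ((θ * x : ℝ) : ℂ)))
      (Continuous.aestronglyMeasurable (by fun_prop))
    rw [← h3, h1, integral_smul_measure, ENNReal.toReal_ofReal (by positivity), Complex.real_smul]
  refine ⟨mu, σ2, (32 + 32 * B ^ 6) * (κ * |C|), fun θ => ?_, fun n hn => ?_⟩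
  · have t1 : Tendsto (fun p : ℕ × ℝ => (((p.1 : ℝ) / (p.1 + 1) : ℝ) : ℂ)) (FF θ) (𝓝 ((1 : ℝ) : ℂ)) :=
      (Complex.continuous_ofReal.tendsto _).comp
        ((tendsto_natCast_div_add_atTop (1 : ℝ)).comp (FF_fst θ))
    have t2 := (t1.const_mul (κ : ℂ)).mul (hσ θ)
    have t3 : Tendsto (fun p : ℕ × ℝ => (|θ| + 1) / √p.1 * (B * (κ * |C|))) (FF θ)
        (𝓝 (0 * (B * (κ * |C|)))) :=
      (tendsto_const_nhds.div_atTop (Real.tendsto_sqrt_atTop.comp
        (tendsto_natCast_atTop_atTop.comp (FF_fst θ)))).mul_const _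
    rw [zero_mul] at t3
    have e : (κ : ℂ) * ((1 : ℝ) : ℂ) * ((c * Real.exp (-(σ2 * θ ^ 2 / 2)) : ℝ) : ℂ) =
        ((κ * c * Real.exp (-(σ2 * θ ^ 2 / 2)) : ℝ) : ℂ) := by
      push_cast
      ring
    rw [e] at t2
    refine t2.congr_dist (squeeze_zero' (.of_forall fun _ => dist_nonneg) ?_ t3)
    filter_upwards [(FF_fst θ).eventually_ge_atTop 2, FF_bound θ] with p hp hb
    obtain ⟨hfin, hm⟩ := hmass p.1 (by omega)
    have hn0 : (0 : ℝ) < p.1 := by exact_mod_cast (by omega : 0 < p.1)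
    have e2 : (κ : ℂ) * (((p.1 : ℝ) / (p.1 + 1) : ℝ) : ℂ) * (((√p.1 : ℝ) : ℂ) *
        ∫ x, Complex.exp (Complex.I * ((p.2 * x : ℝ) : ℂ))
          ∂brid (tree5p w) (tree5h w) (fun γ => γ.1) (fun γ => tree5F f γ.2.2) mu p.1) =
        (((p.1 : ℝ) ^ 2 * √p.1 : ℝ) : ℂ) *
          ∫ ω, Complex.exp (Complex.I * ((p.2 * (zz sA f 0 mu ω + f (cO ω)) : ℝ) : ℂ))
            ∂tree5M w p.1 := by
      rw [hint p.1 hp, ← mul_assoc, ← mul_assoc]
      congr 1
      rw [← Complex.ofReal_mul, ← Complex.ofReal_mul, ← Complex.ofReal_mul]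
      congr 1
      field_simp
    rw [e2, tree5_ch, (tree5_rpow (n := p.1) (by omega)).1, dist_comm, dist_eq_norm, ← mul_sub,
      norm_mul, Complex.norm_real, Real.norm_of_nonneg (by positivity)]
    have h4 := tree5_norm_le (μ := tree5M w p.1) (zz sA f 0 mu) (fun ω => f (cO ω))
      (fun ω => hB _) p.2
    calc _ ≤ (p.1 : ℝ) ^ 2 * √p.1 * (|p.2| * B * (tree5M w p.1).real Set.univ) :=
          mul_le_mul_of_nonneg_left h4 (by positivity)
      _ = |p.2| * (B * ((p.1 : ℝ) ^ 2 * √p.1 * (tree5M w p.1).real Set.univ)) := by ring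
      _ ≤ _ := mul_le_mul hb (mul_le_mul_of_nonneg_left hm hB0) (by positivity) (by positivity)
  · simp only [mul_assoc (onR _ _)]
    rw [← tree5_lintegral, (tree5_rpow hn).2, mul_assoc, ENNReal.ofReal_mul (by positivity)]
    refine le_trans ?_ (mul_le_mul_right (hsix n hn) _)
    rw [← lintegral_const_mul _ .of_discrete]
    refine lintegral_mono fun ω => ?_
    rw [← ENNReal.ofReal_mul (by positivity)]
    exact ENNReal.ofReal_le_ofReal (tree5_six_le hn (hB _))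

end Pool.Agent.Lib.MP_77dff5_pr
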