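import Pool.Agent.Lib.MP_77dff5_pr.AMass
import Pool.Agent.Lib.MP_77dff5_pr.Tree5
import Pool.Agent.Lib.MP_77dff5_pr.Kernel
import Pool.Agent.Lib.MP_77dff5_pr.Family
import Pool.Agent.Lib.MP_77dff5_pr.JumpC
import Pool.Agent.Lib.MP_77dff5_pr.SysB

/-! Model A: moments and tails of all classes from those of maps. -/

set_option autoImplicit false

namespace Pool.Agent.Lib.MP_77dff5_pr

open MeasureTheory ProbabilityTheory Filter Topology
open scoped ENNReal NNReal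

variable {w mu c σ2 : ℝ} {f : ℕ → ℝ} {k0 : ℕ}

/-- the sixth moment at size `n` -/
noncomputable def aBaseI (W : Om → ℝ≥0∞) (z : Om → ℝ) (m n : ℕ) : ℝ≥0∞ :=
  ∑' ω, W ω * (ind (sA ω = n) * ENNReal.ofReal ((m : ℝ) ^ 3 + z ω ^ 6))

theorem aBase_lint (W : Om → ℝ≥0∞) (z : Om → ℝ) (n : ℕ) (G : ℕ × ℝ → ℝ≥0∞) (hG : Measurable G) :
    ∫⁻ p in {p | p.1 = n}, G p ∂slaw (meas W) sA z =
      ∑' ω, W ω * (ind (sA ω = n) * G (sA ω, z ω)) := by
  have hm : MeasurableSet {p : ℕ × ℝ | p.1 = n} := measurable_fst (measurableSet_singleton n)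
  rw [← lintegral_indicator hm, slaw, lintegral_map (hG.indicator hm) .of_discrete, lintegral_meas]
  refine tsum_congr fun ω => ?_
  by_cases h : sA ω = n
  · rw [Set.indicator_of_mem (by exact h), tree5_ind_pos h, one_mul]
  · rw [Set.indicator_of_notMem (by exact h), tree5_ind_neg h, zero_mul]

theorem aBase_six_iff (W : Om → ℝ≥0∞) (z : Om → ℝ) : SixB (slaw (meas W) sA z) ↔
    ∃ C : ℝ, ∀ n : ℕ, 1 ≤ n → aBaseI W z n n ≤ ENNReal.ofReal (C * (n : ℝ) ^ (1 / 2 : ℝ)) := by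
  refine exists_congr fun C => forall_congr' fun n => forall_congr' fun _ => ?_
  rw [aBase_lint W z n (fun p => ENNReal.ofReal ((n : ℝ) ^ 3 + p.2 ^ 6)) (by fun_prop)]
  rfl

theorem aBase_const {a : ℝ≥0∞} (ha : a ≠ ⊤) (C t : ℝ) (ht : 0 ≤ t) :
    a * ENNReal.ofReal (C * t) ≤ ENNReal.ofReal ((a.toReal * |C|) * t) := by
  rw [mul_assoc, ENNReal.ofReal_mul ENNReal.toReal_nonneg, ENNReal.ofReal_toReal ha]
  exact mul_le_mul_right (ENNReal.ofReal_le_ofReal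
    (mul_le_mul_of_nonneg_right (le_abs_self C) ht)) a

theorem aBase_six_smul {μ : Measure (ℕ × ℝ)} (h : SixB μ) {a : ℝ≥0∞} (ha : a ≠ ⊤) :
    SixB (a • μ) := by
  obtain ⟨C, hC⟩ := h
  refine ⟨a.toReal * |C|, fun n hn => ?_⟩
  rw [Measure.restrict_smul, lintegral_smul_measure, smul_eq_mul]
  exact (mul_le_mul_right (hC n hn) a).trans (aBase_const ha C _ (by positivity))

theorem aBase_six_nrm {W : Om → ℝ≥0∞} {z : Om → ℝ} (h0 : ∑' ω, W ω ≠ 0)
    (h : SixB (slaw (meas W) sA z)) : SixB (slaw (nrm W) sA z) := by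
  have : slaw (nrm W) sA z = (∑' ω, W ω)⁻¹ • slaw (meas W) sA z := by
    rw [slaw, slaw, nrm, Measure.map_smul]
  rw [this]
  exact aBase_six_smul h (ENNReal.inv_ne_top.mpr h0)

/-- a bound `a n ^ 6 pm n ≤ C n ^ (1/2)` is not compatible with the local limit -/
theorem aBase_centre {W : Om → ℝ≥0∞} {z z' : Om → ℝ} (hc : 0 < c)
    (hl : Lim (slaw (meas W) sA z) c σ2) (h6 : SixB (slaw (meas W) sA z')) {δ : ℝ} (hδ : 0 < δ)
    (hz : ∀ ω, δ * sA ω ≤ |z' ω|) : False := by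
  obtain ⟨C, hC⟩ := (aBase_six_iff W z').mp h6
  have h0 : Tendsto (fun n : ℕ => (n, (0 : ℝ))) atTop (FF 0) :=
    linA_tendsto_FF (n := fun n : ℕ => n) (t := fun _ => 0) tendsto_id (by simp)
  have h1 := ((hl 0).comp h0).norm
  have hP : ∀ n : ℕ, (slaw (meas W) sA z) {p | p.1 = n} = ∑' ω, W ω * ind (sA ω = n) := by
    intro n
    rw [← setLIntegral_one, aBase_lint W z n (fun _ => 1) measurable_const]
    simp only [mul_one]
  have h2 : Tendsto (fun n : ℕ => (n : ℝ) ^ (5 / 2 : ℝ) *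
      (∑' ω, W ω * ind (sA ω = n)).toReal) atTop (𝓝 c) := by
    have e : ‖((c * Real.exp (-(σ2 * 0 ^ 2 / 2)) : ℝ) : ℂ)‖ = c := by
      rw [Complex.norm_real, Real.norm_eq_abs]
      simp [abs_of_pos hc]
    rw [e] at h1
    refine h1.congr fun n => ?_
    simp only [Function.comp_apply, ch, zero_mul, Complex.ofReal_zero, mul_zero, Complex.exp_zero,
      integral_const, Measure.real, Measure.restrict_apply_univ, hP, norm_mul, Complex.norm_real,
      Complex.real_smul, mul_one, Real.norm_eq_abs]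
    rw [abs_of_nonneg (by positivity), abs_of_nonneg ENNReal.toReal_nonneg]
  have h3 : ∀ n : ℕ, 1 ≤ n → δ ^ 6 * (n : ℝ) ^ 3 * ((n : ℝ) ^ (5 / 2 : ℝ) *
      (∑' ω, W ω * ind (sA ω = n)).toReal) ≤ |C| := by
    intro n hn
    have hn0 : (0 : ℝ) < n := by exact_mod_cast hn
    have h4 : ENNReal.ofReal ((δ * n) ^ 6) * ∑' ω, W ω * ind (sA ω = n) ≤
        ENNReal.ofReal (|C| * (n : ℝ) ^ (1 / 2 : ℝ)) := by
      refine le_trans ?_ ((hC n hn).trans (ENNReal.ofReal_le_ofReal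
        (mul_le_mul_of_nonneg_right (le_abs_self C) (by positivity))))
      rw [← ENNReal.tsum_mul_left, aBaseI]
      refine ENNReal.tsum_le_tsum fun ω => ?_
      by_cases h : sA ω = n
      · rw [tree5_ind_pos h, mul_one, one_mul, mul_comm]
        refine mul_le_mul_right (ENNReal.ofReal_le_ofReal ?_) _
        have h5 := hz ω
        rw [h] at h5
        have h6 : (δ * n) ^ 6 ≤ z' ω ^ 6 := by
          rw [← Even.pow_abs (a := z' ω) (by decide)]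
          exact pow_le_pow_left₀ (by positivity) h5 6
        have : (0 : ℝ) ≤ (n : ℝ) ^ 3 := by positivity
        linarith
      · simp [tree5_ind_neg h]
    have h5 := ENNReal.toReal_mono ENNReal.ofReal_ne_top h4
    rw [ENNReal.toReal_mul, ENNReal.toReal_ofReal (by positivity),
      ENNReal.toReal_ofReal (by positivity), (tree5_rpow hn).2] at h5
    rw [(tree5_rpow hn).1]
    have hs : 0 < √(n : ℝ) := Real.sqrt_pos.mpr hn0
    have hs2 : √(n : ℝ) * √(n : ℝ) = n := Real.mul_self_sqrt hn0.le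
    refine le_of_mul_le_mul_right ?_ hs
    calc _ = δ ^ 6 * (n : ℝ) ^ 5 * (√(n : ℝ) * √(n : ℝ)) *
          (∑' ω, W ω * ind (sA ω = n)).toReal := by ring
      _ = (δ * n) ^ 6 * (∑' ω, W ω * ind (sA ω = n)).toReal := by rw [hs2]; ring
      _ ≤ _ := h5
  have h4 : Tendsto (fun n : ℕ => δ ^ 6 * (n : ℝ) ^ 3) atTop atTop :=
    Tendsto.const_mul_atTop (by positivity)
      ((tendsto_pow_atTop (by norm_num)).comp tendsto_natCast_atTop_atTop)
  have h5 := h4.atTop_mul_pos hc h2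
  obtain ⟨n, hn1, hn2⟩ := ((h5.eventually (eventually_gt_atTop |C|)).and
    (eventually_ge_atTop 1)).exists
  exact absurd (h3 n hn2) (not_le.mpr hn1)

theorem aBase_six_comb {W : Om → ℝ≥0∞} {z z' : Om → ℝ} (h : SixB (slaw (meas W) sA z))
    (h' : SixB (slaw (meas W) sA z')) (a b : ℝ) :
    SixB (slaw (meas W) sA fun ω => a * z ω + b * z' ω) := by
  rw [aBase_six_iff] at h h' ⊢
  obtain ⟨C, hC⟩ := h
  obtain ⟨C', hC'⟩ := h'
  set K : ℝ := 1 + 32 * a ^ 6 + 32 * b ^ 6 with hK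
  have hK0 : 0 ≤ K := by positivity
  refine ⟨K * (|C| + |C'|), fun n hn => ?_⟩
  have h1 : aBaseI W (fun ω => a * z ω + b * z' ω) n n ≤
      ENNReal.ofReal K * (aBaseI W z n n + aBaseI W z' n n) := by
    unfold aBaseI
    rw [← ENNReal.tsum_add, ← ENNReal.tsum_mul_left]
    refine ENNReal.tsum_le_tsum fun ω => ?_
    rw [← mul_add, ← mul_add, mul_left_comm (ENNReal.ofReal K), mul_left_comm (ENNReal.ofReal K),
      ← ENNReal.ofReal_add (by positivity) (by positivity), ← ENNReal.ofReal_mul hK0]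
    refine mul_le_mul_right (mul_le_mul_right (ENNReal.ofReal_le_ofReal ?_) _) _
    have h2 : (a * z ω + b * z' ω) ^ 6 ≤ 2 ^ (6 - 1) * ((a * z ω) ^ 6 + (b * z' ω) ^ 6) :=
      Even.add_pow_le (by decide)
    have h3 : (0 : ℝ) ≤ (n : ℝ) ^ 3 := by positivity
    have h4 : 0 ≤ z ω ^ 6 := by positivity
    have h5 : 0 ≤ z' ω ^ 6 := by positivity
    have h6 : 0 ≤ a ^ 6 := by positivity
    have h7 : 0 ≤ b ^ 6 := by positivity
    rw [mul_pow, mul_pow] at h2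
    norm_num at h2
    rw [hK]
    nlinarith [mul_nonneg h6 h3, mul_nonneg h7 h3, mul_nonneg h6 h5, mul_nonneg h7 h4]
  refine h1.trans ?_
  have ht : (0 : ℝ) ≤ (n : ℝ) ^ (1 / 2 : ℝ) := by positivity
  rw [mul_assoc, ENNReal.ofReal_mul hK0, add_mul |C|,
    ENNReal.ofReal_add (p := |C| * _) (by positivity) (by positivity)]
  exact mul_le_mul_right (add_le_add
    ((hC n hn).trans (ENNReal.ofReal_le_ofReal (mul_le_mul_of_nonneg_right (le_abs_self C) ht)))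
    ((hC' n hn).trans (ENNReal.ofReal_le_ofReal (mul_le_mul_of_nonneg_right (le_abs_self C') ht)))) _

theorem aBase_FO_add (f : ℕ → ℝ) (β : ℝ) (ω : Om) :
    FO (fun d => f d + β) ω = FO f ω + β * FO (fun _ => 1) ω := by
  rcases ω with R | D | ν <;>
    simp only [FO, rF, Finset.sum_add_distrib, mul_add, Finset.mul_sum, mul_one]
  ring

theorem mdata (hw : 0 < w) : ∃ mu : (ℕ → ℝ) → ℝ, 0 ≤ mu (fun _ => 1) ∧
    (∀ (f : ℕ → ℝ) (k0 : ℕ), EvC f k0 → ∀ β : ℝ,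
      mu (fun d => f d + β) = mu f + β * mu (fun _ => 1)) ∧
    ∀ (f : ℕ → ℝ) (k0 : ℕ), EvC f k0 → ∃ c σ2 : ℝ, MData w f (mu f) c σ2 := by
  obtain ⟨cM, hcM, H⟩ := maps_clt hw
  have H1 : ∀ f : ℕ → ℝ, ∃ mu : ℝ, ∀ k0, EvC f k0 → ∃ c σ2 : ℝ, MData w f mu c σ2 := by
    intro f
    by_cases hf : ∃ k0, EvC f k0
    · obtain ⟨k0, hk⟩ := hf
      obtain ⟨mu, σ2, C, h1, h2⟩ := H f k0 hk
      refine ⟨mu, fun _ _ => ⟨cM, σ2, hcM, h1, (aBase_six_iff _ _).mpr ⟨C, fun n hn => ?_⟩⟩⟩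
      refine le_trans (le_of_eq (tsum_congr fun ω => ?_)) (h2 n hn)
      rw [mul_assoc]
      rfl
    · exact ⟨0, fun k0 hk => absurd ⟨k0, hk⟩ hf⟩
  choose mu hmu using H1
  obtain ⟨c1, σ1, h1⟩ := hmu (fun _ => 1) 0 (fun _ _ => rfl)
  refine ⟨mu, ?_, fun f k0 hf β => ?_, hmu⟩
  · by_contra hneg
    rw [not_le] at hneg
    refine aBase_centre h1.pos h1.lim h1.six (δ := -mu fun _ => 1) (by linarith) fun ω => ?_
    refine le_trans ?_ (le_abs_self _)
    have : (0 : ℝ) ≤ nv ω := Nat.cast_nonneg _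
    rw [zz, FO_const]
    linarith
  · obtain ⟨c2, σ2, h2⟩ := hmu f k0 hf
    obtain ⟨c3, σ3, h3⟩ := hmu (fun d => f d + β) k0 (fun d hd => by simp only [hf d hd])
    by_contra hne
    have h4 := aBase_six_comb (aBase_six_comb h2.six h1.six 1 β) h3.six 1 (-1)
    refine aBase_centre h1.pos h1.lim h4
      (δ := |mu (fun d => f d + β) - (mu f + β * mu fun _ => 1)|)
      (abs_pos.mpr (sub_ne_zero.mpr hne)) fun ω => le_of_eq ?_
    rw [← Nat.abs_cast (R := ℝ) (sA ω), ← abs_mul]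
    congr 1
    simp only [zz, aBase_FO_add]
    ring

theorem aBase_rpow {n : ℕ} (hn : 1 ≤ n) :
    (n : ℝ) ^ (1 / 2 : ℝ) = (n : ℝ) ^ 3 * (n : ℝ) ^ (-(5 / 2) : ℝ) := by
  have h0 : (0 : ℝ) < n := by exact_mod_cast hn
  rw [← Real.rpow_natCast, ← Real.rpow_add h0]
  norm_num

theorem aBase_sq {N u : ℝ} (hN : 0 < N) : u ^ 2 / N ≤ (N ^ 3)⁻¹ * (N ^ 3 + u ^ 6) := by
  have h1 : 0 ≤ u ^ 2 / N := by positivity
  have h2 : (N ^ 3)⁻¹ * (N ^ 3 + u ^ 6) = 1 + (u ^ 2 / N) ^ 3 := by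
    field_simp
  rw [h2]
  generalize u ^ 2 / N = v at h1
  nlinarith [mul_nonneg h1 (sq_nonneg (v - 1)), sq_nonneg (v - 1), sq_nonneg v]

theorem SixB.pmB {μ : Measure (ℕ × ℝ)} (h : SixB μ) : PmB μ ∧ M2B μ := by
  obtain ⟨C, hC⟩ := h
  have key : ∀ n : ℕ, 1 ≤ n → ∀ G : ℕ × ℝ → ℝ≥0∞,
      (∀ p, G p ≤ ENNReal.ofReal ((((n : ℝ) ^ 3)⁻¹) * ((n : ℝ) ^ 3 + p.2 ^ 6))) →
      ∫⁻ p in {p | p.1 = n}, G p ∂μ ≤ ENNReal.ofReal (|C| * (n : ℝ) ^ (-(5 / 2) : ℝ)) := by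
    intro n hn G hG
    have h0 : (0 : ℝ) < n := by exact_mod_cast hn
    refine (lintegral_mono hG).trans ?_
    simp only [ENNReal.ofReal_mul (show (0 : ℝ) ≤ ((n : ℝ) ^ 3)⁻¹ by positivity)]
    rw [lintegral_const_mul' _ _ ENNReal.ofReal_ne_top]
    refine (mul_le_mul_right (hC n hn) _).trans ?_
    rw [← ENNReal.ofReal_mul (by positivity), aBase_rpow hn]
    refine ENNReal.ofReal_le_ofReal ?_
    have e : ((n : ℝ) ^ 3)⁻¹ * (C * ((n : ℝ) ^ 3 * (n : ℝ) ^ (-(5 / 2) : ℝ))) =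
        C * (n : ℝ) ^ (-(5 / 2) : ℝ) := by field_simp
    rw [e]
    exact mul_le_mul_of_nonneg_right (le_abs_self C) (by positivity)
  refine ⟨⟨|C|, fun n hn => ?_⟩, ⟨|C|, fun n hn => ?_⟩⟩
  · have h0 : (0 : ℝ) < n := by exact_mod_cast hn
    have h1 := key n hn (fun _ => 1) fun p => by
      rw [← ENNReal.ofReal_one]
      refine ENNReal.ofReal_le_ofReal ?_
      rw [mul_add, inv_mul_cancel₀ (by positivity)]
      have : 0 ≤ ((n : ℝ) ^ 3)⁻¹ * p.2 ^ 6 := by positivity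
      linarith
    rw [setLIntegral_one] at h1
    exact ENNReal.toReal_le_of_le_ofReal (by positivity) h1
  · have h0 : (0 : ℝ) < n := by exact_mod_cast hn
    refine key n hn _ fun p => ENNReal.ofReal_le_ofReal ?_
    rw [psi, sub_zero, max_eq_left (abs_nonneg _), sq_abs, div_pow, Real.sq_sqrt h0.le]
    exact aBase_sq h0

/-- sixth moment bound at all sizes -/
def aBaseS (W : Om → ℝ≥0∞) (z : Om → ℝ) : Prop :=
  ∃ C : ℝ, ∀ n : ℕ, aBaseI W z (n + 1) n ≤ ENNReal.ofReal (C * ((n + 1 : ℕ) : ℝ) ^ (1 / 2 : ℝ))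

theorem aBaseS.mono {W W' : Om → ℝ≥0∞} {z : Om → ℝ} (h : aBaseS W z) {a : ℝ≥0∞} (ha : a ≠ ⊤)
    (hW : ∀ ω, W' ω ≤ a * W ω) : aBaseS W' z := by
  obtain ⟨C, hC⟩ := h
  refine ⟨a.toReal * |C|, fun n => ?_⟩
  refine le_trans ?_ ((mul_le_mul_right (hC n) a).trans (aBase_const ha C _ (by positivity)))
  unfold aBaseI
  rw [← ENNReal.tsum_mul_left]
  refine ENNReal.tsum_le_tsum fun ω => ?_
  rw [← mul_assoc a]
  exact mul_le_mul_left (hW ω) _

theorem aBaseS.six {W : Om → ℝ≥0∞} {z : Om → ℝ} (h : aBaseS W z) : SixB (slaw (meas W) sA z) := by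
  obtain ⟨C, hC⟩ := h
  refine (aBase_six_iff W z).mpr ⟨|C| * 2, fun n hn => ?_⟩
  have h1 : (1 : ℝ) ≤ n := by exact_mod_cast hn
  refine le_trans ?_ ((hC n).trans (ENNReal.ofReal_le_ofReal ?_))
  · refine ENNReal.tsum_le_tsum fun ω => mul_le_mul_right (mul_le_mul_right
      (ENNReal.ofReal_le_ofReal ?_) _) _
    have : (n : ℝ) ^ 3 ≤ ((n + 1 : ℕ) : ℝ) ^ 3 :=
      pow_le_pow_left₀ (by positivity) (by push_cast; linarith) 3
    linarith
  · rw [(tree5_rpow hn).2, (tree5_rpow (n := n + 1) (by omega)).2, mul_assoc]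
    refine (mul_le_mul_of_nonneg_right (le_abs_self C) (by positivity)).trans
      (mul_le_mul_of_nonneg_left ?_ (abs_nonneg C))
    rw [Real.sqrt_le_left (by positivity), mul_pow, Real.sq_sqrt (by positivity)]
    push_cast
    linarith

theorem aBaseS.of_dom {W W' : Om → ℝ≥0∞} {z : Om → ℝ} (h : SixB (slaw (meas W) sA z))
    {a : ℝ≥0∞} (ha : a ≠ 0) (ha' : a ≠ ⊤) {b : Om → ℝ} {B : ℝ} (hb : ∀ ω, |b ω| ≤ B)
    (hd : ∀ ψ : ℕ × ℝ → ℝ≥0∞,
      a * ∑' ω, W' ω * ψ (sA ω + 1, z ω + b ω) ≤ ∑' ω, W ω * ψ (sA ω, z ω)) : aBaseS W' z := by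
  obtain ⟨C, hC⟩ := (aBase_six_iff W z).mp h
  set K : ℝ := 32 + 32 * B ^ 6 with hK
  have hK0 : 0 ≤ K := by positivity
  refine ⟨(ENNReal.ofReal K * a⁻¹).toReal * |C|, fun n => ?_⟩
  refine le_trans ?_ (aBase_const (ENNReal.mul_ne_top ENNReal.ofReal_ne_top
    (ENNReal.inv_ne_top.mpr ha)) C _ (by positivity))
  have h1 := (hd fun p => ind (p.1 = n + 1) *
    ENNReal.ofReal (((n + 1 : ℕ) : ℝ) ^ 3 + p.2 ^ 6)).trans (hC (n + 1) (by omega))
  rw [mul_assoc]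
  refine le_trans ?_ (mul_le_mul_right (mul_le_mul_right h1 a⁻¹) _)
  rw [← mul_assoc a⁻¹, ENNReal.inv_mul_cancel ha ha', one_mul, ← ENNReal.tsum_mul_left]
  refine ENNReal.tsum_le_tsum fun ω => ?_
  simp only [Nat.add_right_cancel_iff]
  rw [mul_left_comm (ENNReal.ofReal K), mul_left_comm (ENNReal.ofReal K),
    ← ENNReal.ofReal_mul hK0]
  exact mul_le_mul_right (mul_le_mul_right
    (ENNReal.ofReal_le_ofReal (tree5_six_le (by omega) (hb ω))) _) _

theorem aBaseS.fin {W : Om → ℝ≥0∞} {z : Om → ℝ} (h : aBaseS W z) :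
    ∑' ω, W ω * ENNReal.ofReal ((sA ω : ℝ) + z ω ^ 2) ≠ ⊤ := by
  obtain ⟨C, hC⟩ := h
  have h1 : ∑' ω, W ω * ENNReal.ofReal ((sA ω : ℝ) + z ω ^ 2) =
      ∑' n : ℕ, ∑' ω, W ω * (ind (sA ω = n) * ENNReal.ofReal ((sA ω : ℝ) + z ω ^ 2)) := by
    rw [ENNReal.tsum_comm]
    refine tsum_congr fun ω => ?_
    rw [tsum_eq_single (sA ω), tree5_ind_pos rfl, one_mul]
    intro n hn
    rw [tree5_ind_neg (fun h => hn h.symm), zero_mul, mul_zero]
  have h2 : ∀ n : ℕ, ∑' ω, W ω * (ind (sA ω = n) * ENNReal.ofReal ((sA ω : ℝ) + z ω ^ 2)) ≤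
      ENNReal.ofReal (2 * |C| * ((n + 1 : ℕ) : ℝ) ^ (-(3 / 2) : ℝ)) := by
    intro n
    have h0 : (0 : ℝ) < ((n + 1 : ℕ) : ℝ) := by positivity
    have h3 := mul_le_mul_right (hC n) (ENNReal.ofReal (2 * (((n + 1 : ℕ) : ℝ) ^ 2)⁻¹))
    refine le_trans ?_ (h3.trans ?_)
    · unfold aBaseI
      rw [← ENNReal.tsum_mul_left]
      refine ENNReal.tsum_le_tsum fun ω => ?_
      by_cases hs : sA ω = n
      · rw [mul_left_comm (ENNReal.ofReal _), mul_left_comm (ENNReal.ofReal _),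
          ← ENNReal.ofReal_mul (by positivity)]
        refine mul_le_mul_right (mul_le_mul_right (ENNReal.ofReal_le_ofReal ?_) _) _
        have h4 := mul_le_mul_of_nonneg_left (aBase_sq (u := z ω) h0) h0.le
        have h5 : (n : ℝ) ≤ ((n + 1 : ℕ) : ℝ) := by push_cast; linarith
        rw [hs]
        generalize ((n + 1 : ℕ) : ℝ) = N at h0 h4 h5
        have e1 : N * (z ω ^ 2 / N) = z ω ^ 2 := by field_simp
        have e2 : N * ((N ^ 3)⁻¹ * (N ^ 3 + z ω ^ 6)) = N + (N ^ 2)⁻¹ * z ω ^ 6 := by field_simp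
        have e3 : 2 * (N ^ 2)⁻¹ * (N ^ 3 + z ω ^ 6) = 2 * (N + (N ^ 2)⁻¹ * z ω ^ 6) := by
          field_simp
        have e4 : 0 ≤ (N ^ 2)⁻¹ * z ω ^ 6 := by positivity
        rw [e1, e2] at h4
        rw [e3]
        linarith
      · simp [tree5_ind_neg hs]
    · rw [← ENNReal.ofReal_mul (by positivity)]
      refine ENNReal.ofReal_le_ofReal ?_
      have e : ((n + 1 : ℕ) : ℝ) ^ (1 / 2 : ℝ) =
          ((n + 1 : ℕ) : ℝ) ^ 2 * ((n + 1 : ℕ) : ℝ) ^ (-(3 / 2) : ℝ) := by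
        rw [← Real.rpow_natCast, ← Real.rpow_add h0]
        norm_num
      rw [e]
      have h6 : 0 ≤ ((n + 1 : ℕ) : ℝ) ^ (-(3 / 2) : ℝ) := by positivity
      generalize ((n + 1 : ℕ) : ℝ) ^ (-(3 / 2) : ℝ) = t at h6
      generalize ((n + 1 : ℕ) : ℝ) = N at h0
      have e2 : 2 * (N ^ 2)⁻¹ * (C * (N ^ 2 * t)) = 2 * C * t := by field_simp
      rw [e2]
      have := mul_le_mul_of_nonneg_right (le_abs_self C) h6
      linarith
  have h3 : Summable fun n : ℕ => 2 * |C| * ((n + 1 : ℕ) : ℝ) ^ (-(3 / 2) : ℝ) :=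
    ((summable_nat_add_iff (f := fun n : ℕ => (n : ℝ) ^ (-(3 / 2) : ℝ)) 1).mpr
      (Real.summable_nat_rpow.mpr (by norm_num))).mul_left _
  rw [h1]
  refine ne_top_of_le_ne_top ?_ (ENNReal.tsum_le_tsum h2)
  rw [← ENNReal.ofReal_tsum_of_nonneg (fun n => by positivity) h3]
  exact ENNReal.ofReal_ne_top

theorem aBase_zz_triv (f : ℕ → ℝ) (lam mu : ℝ) : zz sA f lam mu (.inl triv) = 0 := by
  have e1 : FO f (.inl triv) = 0 := rF_triv f
  have e2 : ne (.inl triv) = 0 := rfl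
  have e3 : sA (.inl triv) = 0 := rfl
  simp [zz, e1, e2, e3]

theorem aBase_domM (x y : ℝ≥0∞) (f : ℕ → ℝ) (mu : ℝ) (ψ : ℕ × ℝ → ℝ≥0∞) :
    y * ∑' ω, wgA x y .M ω * ψ (sA ω + 1, zz sA f 0 mu ω + -mu) ≤
      ∑' ω, wgA x y .M ω * ψ (sA ω, zz sA f 0 mu ω) := by
  have h := eqnA_M x y f 0 0 mu ψ
  refine le_trans ?_ (le_of_eq h.symm)
  refine le_trans ?_ (ENNReal.le_tsum (1 : Fin 4))
  refine mul_le_mul_right ?_ y
  have hi : Function.Injective fun ω : Om => (![ω, .inl triv] : Fin 2 → Om) := fun a b hab =>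
    congrFun hab 0
  refine le_trans (le_of_eq (tsum_congr fun ω => ?_)) (ENNReal.tsum_comp_le_tsum_of_injective hi _)
  change _ = (∏ i : Fin 2, wgA x y (![JA.M, JA.M] i) (![ω, .inl triv] i)) *
    ψ (1 + ∑ i : Fin 2, sA (![ω, .inl triv] i),
      (0 - mu) + ∑ i : Fin 2, zz sA f 0 mu (![ω, .inl triv] i) + ∑ _v : Unit, (0 : ℝ))
  have e1 : wgA x y .M (.inl triv) = 1 := wM_triv
  have e2 : sA (.inl triv) = 0 := rfl
  simp only [Fin.prod_univ_two, Fin.sum_univ_two, Matrix.cons_val_zero, Matrix.cons_val_one, e1, e2,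
    aBase_zz_triv, mul_one, add_zero, Finset.sum_const_zero, zero_sub]
  rw [add_comm 1, add_comm (-mu)]

theorem aBase_domD (x y : ℝ≥0∞) (f : ℕ → ℝ) (mu : ℝ) (ψ : ℕ × ℝ → ℝ≥0∞) :
    x * y * ∑' ω, wgA x y .D ω * ψ (sA ω + 1, zz sA f 0 mu ω + (f (1 + bO ω) - mu)) ≤
      ∑' ω, wgA x y .M ω * ψ (sA ω, zz sA f 0 mu ω) := by
  have h := eqnA_M x y f 0 0 mu ψ
  refine le_trans ?_ (le_of_eq h.symm)
  refine le_trans ?_ (ENNReal.le_tsum (3 : Fin 4))
  refine mul_le_mul_right ?_ (x * y)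
  have hi : Function.Injective fun ω : Om => (![ω, .inl triv, .inl triv] : Fin 3 → Om) :=
    fun a b hab => congrFun hab 0
  refine le_trans (le_of_eq (tsum_congr fun ω => ?_)) (ENNReal.tsum_comp_le_tsum_of_injective hi _)
  change _ = (∏ i : Fin 3, wgA x y (![JA.D, JA.M, JA.M] i) (![ω, .inl triv, .inl triv] i)) *
    ψ (1 + ∑ i : Fin 3, sA (![ω, .inl triv, .inl triv] i),
      (0 - mu) + ∑ i : Fin 3, zz sA f 0 mu (![ω, .inl triv, .inl triv] i) +
        ∑ _v : Unit, f (1 + bO ω + rc triv))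
  have e1 : wgA x y .M (.inl triv) = 1 := wM_triv
  have e2 : sA (.inl triv) = 0 := rfl
  simp only [Fin.prod_univ_three, Fin.sum_univ_three, Matrix.cons_val_zero, Matrix.cons_val_one,
    Matrix.cons_val, e1, e2, aBase_zz_triv, mul_one, add_zero, zero_sub, rc_triv,
    Finset.univ_unique, Finset.sum_singleton]
  rw [add_comm 1 (sA ω)]
  congr 3
  ring

theorem aBase_cls_le (x y : ℝ≥0∞) (P : NG → Prop) (ω : Om) :
    clsA x y P ω ≤ 1 * clsA x y (fun _ => True) ω := by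
  rw [one_mul]
  rcases ω with R | D | ν
  · exact le_rfl
  · refine mul_le_mul_left (mul_le_mul_left (mul_le_mul_left (mul_le_mul_left
      (mul_le_mul_right ?_ _) _) _) _) _
    by_cases h : IsNet D.1.2.2 ∧ P D.1
    · rw [tree5_ind_pos h, tree5_ind_pos ⟨h.1, trivial⟩]
    · rw [tree5_ind_neg h]
      exact zero_le
  · exact le_rfl

theorem aBase_V_le (x y : ℝ≥0∞) (ω : Om) : wgA x y .V ω ≤ x * wgA x y .M ω := by
  rcases ω with R | ω
  · change wTriv x R ≤ x * wM x y R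
    by_cases h : R = triv
    · rw [h, wM_triv, wTriv, tree5_ind_pos rfl, one_mul, mul_one]
    · rw [wTriv, tree5_ind_neg h, zero_mul]
      exact zero_le
  · exact zero_le

theorem aBase_all (hw : 0 < w) (hf : EvC f k0) (h : MData w f mu c σ2) :
    (∀ j, aBaseS (wA w j) (zz sA f 0 mu)) ∧ ∀ P : NG → Prop,
      aBaseS (clsA (ENNReal.ofReal (xw w)) (ENNReal.ofReal (yw w)) P) (zz sA f 0 mu) := by
  obtain ⟨B, _, hB⟩ := tree5_bdd hf
  have hx : ENNReal.ofReal (xw w) ≠ 0 := (ENNReal.ofReal_pos.mpr (tree5_xpos hw)).ne'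
  have hy : ENNReal.ofReal (yw w) ≠ 0 := (ENNReal.ofReal_pos.mpr (tree5_ypos hw)).ne'
  have hM : aBaseS (wA w .M) (zz sA f 0 mu) :=
    aBaseS.of_dom h.six hy ENNReal.ofReal_ne_top (b := fun _ => -mu) (fun _ => le_rfl)
      (aBase_domM _ _ f mu)
  have hD : aBaseS (wA w .D) (zz sA f 0 mu) :=
    aBaseS.of_dom h.six (mul_ne_zero hx hy)
      (ENNReal.mul_ne_top ENNReal.ofReal_ne_top ENNReal.ofReal_ne_top)
      (b := fun ω => f (1 + bO ω) - mu) (B := B + |mu|)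
      (fun ω => (abs_sub _ _).trans (add_le_add (hB _) le_rfl)) (aBase_domD _ _ f mu)
  have hP : ∀ P : NG → Prop,
      aBaseS (clsA (ENNReal.ofReal (xw w)) (ENNReal.ofReal (yw w)) P) (zz sA f 0 mu) :=
    fun P => hD.mono ENNReal.one_ne_top (aBase_cls_le _ _ P)
  refine ⟨fun j => ?_, hP⟩
  cases j
  · exact hM
  · exact hD
  · exact hP _
  · exact hP _
  · exact hM.mono ENNReal.ofReal_ne_top (aBase_V_le _ _)

theorem MData.sixA (hw : 0 < w) (hf : EvC f k0) (h : MData w f mu c σ2) :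
    (∀ j, SixB (slaw (nuA w j) sA (zz sA f 0 mu))) ∧
      SixB ((FA w f k0 0 mu .H).law (nuA w) sA (zz sA f 0 mu)) := by
  obtain ⟨h1, h2⟩ := aBase_all hw hf h
  refine ⟨fun j => aBase_six_nrm (massA_ne hw j).1 (h1 j).six, ?_⟩
  rw [← lawA_fam hw hf 0 mu .H]
  exact (h2 _).six

theorem aBase_int {W : Om → ℝ≥0∞} {z : Om → ℝ} (h0 : ∑' ω, W ω ≠ 0) (h : aBaseS W z) :
    Integrable (fun ω => (sA ω : ℝ) + z ω ^ 2) (nrm W) := by
  refine ⟨Measurable.of_discrete.aestronglyMeasurable, ?_⟩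
  rw [hasFiniteIntegral_iff_ofReal (ae_of_all _ fun ω => by positivity), nrm,
    lintegral_smul_measure, lintegral_meas, smul_eq_mul]
  exact ENNReal.mul_lt_top (ENNReal.inv_ne_top.mpr h0).lt_top h.fin.lt_top

theorem MData.slots (hw : 0 < w) (hf : EvC f k0) (h : MData w f mu c σ2) :
    Slots (nuA w) sA (zz sA f 0 mu) ∧ ∃ A : ℝ, T1 (nuA w) sA A ∧ T2 (nuA w) sA (zz sA f 0 mu) A := by
  have hp : ∀ j, IsProbabilityMeasure (nuA w j) := fun j =>
    isProb_nrm (massA_ne hw j).1 (massA_ne hw j).2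
  have hi : ∀ j, Integrable (fun ω => (sA ω : ℝ) + zz sA f 0 mu ω ^ 2) (nuA w j) := fun j =>
    aBase_int (massA_ne hw j).1 ((aBase_all hw hf h).1 j)
  have hm : ∀ j, MemLp (zz sA f 0 mu) 2 (nuA w j) := fun j => by
    rw [memLp_two_iff_integrable_sq Measurable.of_discrete.aestronglyMeasurable]
    refine (hi j).mono' Measurable.of_discrete.aestronglyMeasurable (ae_of_all _ fun ω => ?_)
    rw [Real.norm_eq_abs, abs_of_nonneg (sq_nonneg _)]
    have : (0 : ℝ) ≤ sA ω := Nat.cast_nonneg _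
    linarith
  have hS : Slots (nuA w) sA (zz sA f 0 mu) := by
    refine ⟨⟨hp, fun j => ?_, fun j => ?_⟩, hm⟩
    · refine (hi j).mono' Measurable.of_discrete.aestronglyMeasurable (ae_of_all _ fun ω => ?_)
      rw [Real.norm_eq_abs, Nat.abs_cast]
      have := sq_nonneg (zz sA f 0 mu ω)
      linarith
    · have := hp j
      exact (hm j).integrable one_le_two
  refine ⟨hS, ?_⟩
  choose K1 hK1 using fun j => ((h.sixA hw hf).1 j).pmB.1
  choose K2 hK2 using fun j => ((h.sixA hw hf).1 j).pmB.2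
  have hs1 : ∀ (K : JA → ℝ) (j : JA), K j ≤ ∑ i, |K i| := fun K j =>
    (le_abs_self _).trans (Finset.single_le_sum (f := fun i => |K i|) (fun _ _ => abs_nonneg _)
      (Finset.mem_univ j))
  have hs0 : ∀ K : JA → ℝ, 0 ≤ ∑ i, |K i| := fun K => Finset.sum_nonneg fun _ _ => abs_nonneg _
  refine T1_T2_of_local hS (K := ∑ i, |K1 i| + ∑ i, |K2 i|) (fun j n hn => (hK1 j n hn).trans ?_)
    (fun j n hn => (hK2 j n hn).trans (ENNReal.ofReal_le_ofReal ?_))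
  · exact mul_le_mul_of_nonneg_right (by linarith [hs1 K1 j, hs0 K2]) (by positivity)
  · exact mul_le_mul_of_nonneg_right (by linarith [hs1 K2 j, hs0 K1]) (by positivity)

theorem aBase_supp (x y : ℝ≥0∞) (j : JA) (ω : Om) (h : wgA x y j ω ≠ 0) :
    ne ω ≤ sA ω + nv ω + 1 := by
  cases j
  · exact (suppM h).le.trans (Nat.le_succ _)
  · exact (suppA h).2.2.1.le
  · exact (suppA h).2.2.1.le
  · exact (suppA h).2.2.1.le
  · rcases ω with R | ω
    · change R.1 ≤ R.1 - R.2.1 + R.2.1 + 1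
      omega
    · exact absurd rfl h

/-- the number of edges has finite mean -/
theorem slots1_A (hw : 0 < w) (hf : EvC f k0) (lam mu : ℝ) :
    Slots1 (nuA w) sA (zz sA f lam mu) := by
  obtain ⟨m, _, _, hm⟩ := mdata hw
  obtain ⟨c1, σ1, h1⟩ := hm (fun _ => 1) 0 (fun _ _ => rfl)
  have hS := (h1.slots (k0 := 0) hw (fun _ _ => rfl)).1
  obtain ⟨B, _, hB⟩ := tree5_bdd hf
  refine ⟨hS.prob, hS.int_s, fun j => ?_⟩
  have := hS.prob j
  have hv : Integrable (fun ω => (nv ω : ℝ)) (nuA w j) := by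
    refine ((hS.int_z j).add ((hS.int_s j).const_mul (m fun _ => 1))).congr
      (ae_of_all _ fun ω => ?_)
    simp only [Pi.add_apply, zz, FO_const]
    ring
  have he : Integrable (fun ω => (ne ω : ℝ)) (nuA w j) := by
    refine (((hS.int_s j).add hv).add (integrable_const (1 : ℝ))).mono'
      Measurable.of_discrete.aestronglyMeasurable (ae_nrm fun ω hω => ?_)
    rw [Real.norm_eq_abs, Nat.abs_cast]
    simp only [Pi.add_apply]
    exact_mod_cast aBase_supp _ _ j ω hω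
  have hF : Integrable (FO f) (nuA w j) :=
    (hv.const_mul B).mono' Measurable.of_discrete.aestronglyMeasurable
      (ae_of_all _ fun ω => abs_FO_le hB ω)
  exact (hF.add (he.const_mul lam)).sub ((hS.int_s j).const_mul mu)

end Pool.Agent.Lib.MP_77dff5_pr
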