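import Pool.Agent.Lib.MP_77dff5_pr.ASys
import Pool.Agent.Lib.MP_77dff5_pr.LinA

/-! Model A: the size of a network is in the domain of attraction of a stable law. -/

set_option autoImplicit false

namespace Pool.Agent.Lib.MP_77dff5_pr

open MeasureTheory ProbabilityTheory Filter Topology Asymptotics
open scoped ENNReal NNReal

variable {w : ℝ}

theorem aStable_ch_zero (μ : Measure (ℕ × ℝ)) (n : ℕ) : ch μ n 0 = ((pm μ n : ℝ) : ℂ) := by
  simp [ch, pm]

theorem aStable_lim {μ : Measure (ℕ × ℝ)} {c σ2 : ℝ} (h : Lim μ c σ2) :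
    Tendsto (fun n : ℕ => (n : ℝ) ^ (5 / 2 : ℝ) * pm μ n) atTop (𝓝 c) := by
  have h1 : Tendsto (fun n : ℕ => (n, (0 : ℝ))) atTop (FF 0) :=
    tendsto_FF (n := fun n : ℕ => n) (t := fun _ => 0) tendsto_id (by simp)
  have h2 := (Complex.continuous_re.tendsto _).comp ((h 0).comp h1)
  simp only [Function.comp_def, aStable_ch_zero, ← Complex.ofReal_mul, Complex.ofReal_re] at h2
  simpa using h2

theorem aStable_psiS (κ γ₁ γ₂ t : ℝ) : psiS (κ * γ₁) (κ * γ₂) t = κ * psiS γ₁ γ₂ t := by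
  simp only [psiS]
  push_cast
  ring

theorem aStable_RF_smul (a : ℝ≥0∞) (μ : Measure (ℕ × ℝ)) (t : ℝ) :
    RF (a • μ) t = (a.toReal : ℂ) * RF μ t := by
  rw [RF, RF, integral_smul_measure, Complex.real_smul]

theorem aStable_quad (m : ℝ) :
    (fun t : ℝ => Complex.exp (Complex.I * ((t * m : ℝ) : ℂ)) - 1 - Complex.I * ((t * m : ℝ) : ℂ))
      =o[𝓝 0] fun t : ℝ => |t| ^ (3 / 2 : ℝ) := by
  have h1 : (fun t : ℝ => Complex.exp (Complex.I * ((t * m : ℝ) : ℂ)) - 1 -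
      Complex.I * ((t * m : ℝ) : ℂ)) =O[𝓝 0] fun t : ℝ => t ^ 2 := by
    refine IsBigO.of_bound (2 * m ^ 2) (Eventually.of_forall fun t => ?_)
    have h2 := (kernelA_taylor (t * m)).trans
      (mul_le_mul_of_nonneg_left (min_le_left _ _) (by norm_num))
    rw [Real.norm_of_nonneg (sq_nonneg t)]
    exact h2.trans (le_of_eq (by ring))
  exact h1.trans_isLittleO famB_sq_littleO

/-- numbers of slots of the four cores of the family of maps -/
theorem aStable_cnt (f : ℕ → ℝ) (k0 : ℕ) (lam mu : ℝ) (j : JA) :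
    (((FA w f k0 lam mu .M).core (0 : Fin 4)).cnt j : ℝ) = 0 ∧
    (((FA w f k0 lam mu .M).core (1 : Fin 4)).cnt j : ℝ) = (if j = .M then 2 else 0) ∧
    (((FA w f k0 lam mu .M).core (2 : Fin 4)).cnt j : ℝ) = (if j = .M then 2 else 0) ∧
    (((FA w f k0 lam mu .M).core (3 : Fin 4)).cnt j : ℝ) =
      (if j = .M then 2 else if j = .D then 1 else 0) := by
  simp only [famA_cnt]
  refine ⟨?_, ?_, ?_, ?_⟩
  · change ∑ i : Empty, _ = _
    simp
  · change ∑ i : Fin 2, @ite ℝ ((![JA.M, JA.M] : Fin 2 → JA) i = j)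
      (Classical.propDecidable _) 1 0 = _
    cases j <;> simp [Fin.sum_univ_succ] <;> norm_num
  · change ∑ i : Fin 2, @ite ℝ ((![JA.M, JA.M] : Fin 2 → JA) i = j)
      (Classical.propDecidable _) 1 0 = _
    cases j <;> simp [Fin.sum_univ_succ] <;> norm_num
  · change ∑ i : Fin 3, @ite ℝ ((![JA.D, JA.M, JA.M] : Fin 3 → JA) i = j)
      (Classical.propDecidable _) 1 0 = _
    rw [Fin.sum_univ_three]
    cases j <;> simp <;> norm_num

theorem aStable_w (hw : 0 < w) (f : ℕ → ℝ) (k0 : ℕ) (lam mu : ℝ) :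
    ((FA w f k0 lam mu .M).w (0 : Fin 4) : ℝ) = 1 ∧
      0 < ((FA w f k0 lam mu .M).w (3 : Fin 4) : ℝ) := by
  constructor
  · change (((1 : ℝ≥0∞) * ∏ i : Empty, ∑' ω, wA w (Empty.elim i) ω).toNNReal : ℝ) = 1
    simp
  · change 0 < (((ENNReal.ofReal (xw w) * ENNReal.ofReal (yw w) *
      ∏ i : Fin 3, ∑' ω, wA w ((![JA.D, JA.M, JA.M] : Fin 3 → JA) i) ω).toNNReal : ℝ≥0) : ℝ)
    obtain ⟨hx, hy, -⟩ := crit_pos hw
    refine NNReal.coe_pos.2 (ENNReal.toNNReal_pos ?_ ?_)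
    · refine mul_ne_zero (mul_ne_zero ?_ ?_) (Finset.prod_ne_zero_iff.2 fun i _ =>
        (massA_ne hw _).1)
      · simpa using hx
      · simpa using hy
    · exact ENNReal.mul_ne_top (ENNReal.mul_ne_top ENNReal.ofReal_ne_top ENNReal.ofReal_ne_top)
        (ENNReal.prod_ne_top fun i _ => (massA_ne hw _).2)

/-- the mean numbers of slots in the family of maps -/
theorem aStable_acoef (hw : 0 < w) (f : ℕ → ℝ) (k0 : ℕ) (lam mu : ℝ) :
    (FA w f k0 lam mu .M).acoef .M =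
      2 * (∑ t : Fin 4, ((FA w f k0 lam mu .M).w t : ℝ) - 1) ∧
    0 < (FA w f k0 lam mu .M).acoef .D ∧ (FA w f k0 lam mu .M).acoef .nS = 0 ∧
    (FA w f k0 lam mu .M).acoef .nP = 0 ∧ (FA w f k0 lam mu .M).acoef .V = 0 := by
  have h : ∀ j, (FA w f k0 lam mu .M).acoef j = ∑ t : Fin 4, ((FA w f k0 lam mu .M).w t : ℝ) *
      (((FA w f k0 lam mu .M).core t).cnt j : ℝ) := fun j =>
    tsum_fintype (β := Fin 4) (L := SummationFilter.unconditional (Fin 4)) _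
  obtain ⟨h0, h3⟩ := aStable_w hw f k0 lam mu
  simp only [h, Fin.sum_univ_four, (aStable_cnt f k0 lam mu _).1, (aStable_cnt f k0 lam mu _).2.1,
    (aStable_cnt f k0 lam mu _).2.2.1, (aStable_cnt f k0 lam mu _).2.2.2, h0]
  refine ⟨?_, ?_, ?_, ?_, ?_⟩
  · simp only [if_true]
    ring
  · simpa using h3
  · simp
  · simp
  · simp

theorem aStable_mass (hw : 0 < w) {f : ℕ → ℝ} {k0 : ℕ} (hf : EvC f k0) (lam mu : ℝ) :
    ∑ t : Fin 4, ((FA w f k0 lam mu .M).w t : ℝ) = Mw w := by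
  have hp : ∀ j, IsProbabilityMeasure (nuA w j) := (slots1_A hw hf lam mu).prob
  have h1 := congrArg (fun μ : Measure (ℕ × ℝ) => μ Set.univ) (lawA_fam hw hf lam mu .M)
  have h2 := fun t => famA_isProb_law (s := sA) (z := zz sA f lam mu) hp
    ((FA w f k0 lam mu .M).core t)
  rw [slaw, Measure.map_apply (measurable_of_countable _) MeasurableSet.univ, Set.preimage_univ,
    famA_meas_univ, Fam.law, Measure.sum_apply _ MeasurableSet.univ] at h1
  simp only [Measure.smul_apply, measure_univ, smul_eq_mul, mul_one] at h1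
  have h3 : ENNReal.ofReal (Mw w) = ∑ t : Fin 4, ((FA w f k0 lam mu .M).w t : ℝ≥0∞) := by
    rw [← (massA hw).1, ← tsum_fintype (L := SummationFilter.unconditional _)]
    exact h1
  have hM : 0 ≤ Mw w := by
    have := (crit_pos hw).2.2.2.2.2.2.1
    linarith
  rw [← ENNReal.toReal_ofReal hM, h3, ENNReal.toReal_sum fun _ _ => ENNReal.coe_ne_top]
  rfl

theorem aStable_exp (hw : 0 < w) : ∃ γ₁ γ₂ : ℝ, 0 < γ₁ ∧ (fun t : ℝ => phi (nuA w .D) sA t - 1 -
      Complex.I * ((t * ∫ ω, (sA ω : ℝ) ∂nuA w .D : ℝ) : ℂ) + psiS γ₁ γ₂ t)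
        =o[𝓝 0] fun t : ℝ => |t| ^ (3 / 2 : ℝ) := by
  have hf : EvC (fun _ => (0 : ℝ)) 0 := fun _ _ => rfl
  obtain ⟨mu', -, -, hmu⟩ := mdata hw
  obtain ⟨c, σ2, hD⟩ := hmu _ 0 hf
  set mu := mu' fun _ => (0 : ℝ)
  set z := zz sA (fun _ => (0 : ℝ)) 0 mu with hz
  obtain ⟨hS, A, h1, -⟩ := hD.slots hw hf
  obtain ⟨Δ, B, hG, -⟩ := goodA hw hf 0 mu
  obtain ⟨γ₁, γ₂, hγ, hRF⟩ := RF_expansion
  set F := FA w (fun _ => (0 : ℝ)) 0 0 mu .M with hF
  have hlaw : slaw (meas (wA w .M)) sA z = F.law (nuA w) sA z := lawA_fam hw hf 0 mu .M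
  have hfin : IsFiniteMeasure (slaw (meas (wA w .M)) sA z) := by
    rw [hlaw]
    exact Fam.isFinite_law hS.prob (hG .M)
  have e1 := hRF _ c (aStable_lim hD.lim)
  have e2 := Fam.RF_law hS.toSlots1 h1 (hG .M)
  obtain ⟨aM, aD, a1, a2, a3⟩ := aStable_acoef hw (fun _ => (0 : ℝ)) 0 0 mu
  rw [aStable_mass hw hf] at aM
  obtain ⟨-, -, -, -, -, -, hM1, hM2, -⟩ := crit_pos hw
  have hsm : ∀ t, RF (slaw (meas (wA w .M)) sA z) t = (Mw w : ℂ) * RF (slaw (nuA w .M) sA z) t := by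
    intro t
    rw [meas_eq_smul_nrm (massA_ne hw _).1 (massA_ne hw _).2, slaw, Measure.map_smul,
      aStable_RF_smul, (massA hw).1, ENNReal.toReal_ofReal (by linarith)]
    rfl
  have e3 : (fun t : ℝ => ∑' u, ((F.w u : ℝ) : ℂ) *
      (Complex.exp (Complex.I * ((t * (F.core u).mean (nuA w) sA : ℝ) : ℂ)) - 1 -
        Complex.I * ((t * (F.core u).mean (nuA w) sA : ℝ) : ℂ)))
      =o[𝓝 0] fun t : ℝ => |t| ^ (3 / 2 : ℝ) := by
    have h := IsLittleO.sum (s := (Finset.univ : Finset (Fin 4))) fun u _ =>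
      (aStable_quad ((F.core u).mean (nuA w) sA)).const_mul_left ((F.w u : ℝ) : ℂ)
    refine h.congr_left fun t => ?_
    rw [Finset.sum_apply]
    exact (tsum_fintype (β := Fin 4) (L := SummationFilter.unconditional (Fin 4)) _).symm
  have hsum : ∀ t, ∑ j, (F.acoef j : ℂ) * RF (slaw (nuA w j) sA z) t =
      ((2 * (Mw w - 1) : ℝ) : ℂ) * RF (slaw (nuA w .M) sA z) t +
        (F.acoef .D : ℂ) * RF (slaw (nuA w .D) sA z) t := by
    intro t
    have hu : (Finset.univ : Finset JA) = {.M, .D, .nS, .nP, .V} := by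
      ext j
      cases j <;> simp
    rw [hu, Finset.sum_insert (by simp), Finset.sum_insert (by simp), Finset.sum_insert (by simp),
      Finset.sum_insert (by simp), Finset.sum_singleton, aM, a1, a2, a3]
    simp
  set a := F.acoef .D with ha
  have ha0 : (a : ℂ) ≠ 0 := by exact_mod_cast aD.ne'
  have hM0 : (Mw w : ℂ) ≠ 0 := by exact_mod_cast (show Mw w ≠ 0 by linarith)
  set κ : ℝ := (2 - Mw w) * c / (Mw w * a) with hκ
  have hκ0 : 0 < κ := div_pos (mul_pos (by linarith) hD.pos) (mul_pos (by linarith) aD)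
  refine ⟨κ * γ₁, κ * γ₂, mul_pos hκ0 hγ, ?_⟩
  have e4 := (e1.const_mul_left ((2 - Mw w) / (Mw w * a) : ℂ)).sub
    ((e2.add e3).const_mul_left (a : ℂ)⁻¹)
  refine e4.congr_left fun t => ?_
  have := hS.prob .D
  rw [← famB_RF_map _ z (hS.int_s .D), aStable_psiS, hsum, ← hlaw, hsm, hκ]
  push_cast
  field_simp
  ring

theorem stableA (hw : 0 < w) : (∃ c₀ : ℝ, 0 < c₀ ∧ T4 (nuA w .D) sA c₀) ∧
    ∃ γ₁ γ₂ : ℝ, 0 < γ₁ ∧ (fun t : ℝ => phi (nuA w .D) sA t - 1 -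
      Complex.I * ((t * ∫ ω, (sA ω : ℝ) ∂nuA w .D : ℝ) : ℂ) + psiS γ₁ γ₂ t)
        =o[𝓝 0] fun t : ℝ => |t| ^ (3 / 2 : ℝ) := by
  refine ⟨?_, aStable_exp hw⟩
  obtain ⟨γ₁, γ₂, hγ, h⟩ := aStable_exp hw
  have hp : IsProbabilityMeasure (nuA w .D) := isProb_nrm (massA_ne hw _).1 (massA_ne hw _).2
  have hy : ENNReal.ofReal (yw w) ≠ 0 := by simpa using (crit_pos hw).2.1
  have hle : ∀ k ω, incA .D k = true →
      lhsA (ENNReal.ofReal (xw w)) (ENNReal.ofReal (yw w)) k ω ≠ 0 → wA w .D ω ≠ 0 := by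
    intro k ω hk hω h0
    rw [wA, partA .D (by simp), Finset.sum_eq_zero_iff] at h0
    have := h0 k (Finset.mem_univ _)
    rw [if_pos hk] at this
    exact hω this
  obtain ⟨ω0, h0, -, -, -, h0'⟩ := atomA_E (x := ENNReal.ofReal (xw w)) hy
  obtain ⟨ω1, h1, h1'⟩ := atomA_P (x := ENNReal.ofReal (xw w)) hy
  refine exists_T4 _ sA (nrm_ne_zero (massA_ne hw _).2 (hle _ ω0 rfl h0) h0')
    (nrm_ne_zero (massA_ne hw _).2 (hle _ ω1 rfl h1) h1') (half_pos hγ) ?_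
  filter_upwards [isLittleO_iff.1 h (half_pos hγ)] with t ht
  have h2 := (Complex.re_le_norm _).trans ht
  rw [Real.norm_of_nonneg (by positivity)] at h2
  simp only [psiS, Complex.add_re, Complex.sub_re, Complex.one_re, Complex.mul_re, Complex.I_re,
    Complex.I_im, Complex.ofReal_re, Complex.ofReal_im, zero_mul, mul_zero, sub_zero,
    add_zero] at h2
  linarith

end Pool.Agent.Lib.MP_77dff5_pr
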