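import Pool.Agent.Lib.MP_77dff5_pr.JumpBAux2

/-! One big jump, second moments: the bound for one core. -/

set_option autoImplicit false

namespace Pool.Agent.Lib.MP_77dff5_pr

open MeasureTheory ProbabilityTheory Filter Topology
open scoped ENNReal NNReal

variable {Ω J : Type} [Countable Ω] [MeasurableSpace Ω] [DiscreteMeasurableSpace Ω] [Fintype J]
  {ν : J → Measure Ω} {s : Ω → ℕ} {z : Ω → ℝ} {Δ : ℕ} {B : ℝ}

/-- the part of the value that does not depend on slot `i` -/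
def jumpB_R {Ω J : Type} (c : Core Ω J) (z : Ω → ℝ) (i : c.I) (ω : c.I → Ω) : ℝ :=
  c.z0 + ∑ i' ∈ Finset.univ.erase i, z (ω i') +
    ∑ v ∈ Finset.univ.filter (fun v => ¬ i ∈ c.dep v), c.g v ω

omit [Countable Ω] [MeasurableSpace Ω] [DiscreteMeasurableSpace Ω] [Fintype J] in
theorem jumpB_R_update (c : Core Ω J) (i : c.I) (ω : c.I → Ω) (η : Ω) :
    jumpB_R c z i (Function.update ω i η) = jumpB_R c z i ω := by
  unfold jumpB_R
  rw [jumpB_sum_update c z]
  congr 1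
  refine Finset.sum_congr rfl fun v hv => c.g_dep v _ _ fun i' hi' => ?_
  rw [Function.update_of_ne]
  rintro rfl
  exact (Finset.mem_filter.1 hv).2 hi'

omit [Countable Ω] [MeasurableSpace Ω] [DiscreteMeasurableSpace Ω] [Fintype J] in
theorem jumpB_R_diff {c : Core Ω J} (hc : c.Good Δ B) (i : c.I) (ω : c.I → Ω) :
    (c.Z z ω - z (ω i) - jumpB_R c z i ω) ^ 2 ≤ (Δ * B) ^ 2 := by
  have hB := jumpB_B_nonneg hc
  have h1 : c.Z z ω - z (ω i) - jumpB_R c z i ω =
      ∑ v ∈ Finset.univ.filter (fun v => i ∈ c.dep v), c.g v ω := by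
    unfold Core.Z jumpB_R
    rw [← Finset.sum_erase_add _ _ (Finset.mem_univ i),
      ← Finset.sum_filter_add_sum_filter_not Finset.univ (fun v => i ∈ c.dep v)]
    ring
  rw [h1, ← sq_abs]
  refine pow_le_pow_left₀ (abs_nonneg _) ?_ 2
  refine (Finset.abs_sum_le_sum_abs _ _).trans ((Finset.sum_le_sum fun v _ => hc.bd v ω).trans ?_)
  rw [Finset.sum_const, nsmul_eq_mul]
  gcongr
  have := hc.dep_mult i
  rw [Nat.card_eq_fintype_card, Fintype.card_subtype] at this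
  exact_mod_cast this

theorem jumpB_G_le (h : Slots ν s z) (Δ : ℕ) (B : ℝ) : ∃ C : ℝ, 0 ≤ C ∧
    ∀ c : Core Ω J, c.Good Δ B → ∀ i : c.I,
      ∫⁻ ω, ENNReal.ofReal (2 * jumpB_R c z i ω ^ 2 + 2 * (Δ * B) ^ 2) ∂c.P ν ≤
        ENNReal.ofReal (C * (c.L ν z ^ 2 + c.k)) := by
  obtain ⟨C, hQ⟩ := Core.Q_le h Δ B
  obtain ⟨M, hM, hz⟩ := jumpB_M2 h
  refine ⟨6 + 6 * |C| + 6 * M + 8 * (Δ * B) ^ 2, by positivity, fun c hc i => ?_⟩
  have := h.prob
  have := Core.isProb h.prob c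
  have hk : (1 : ℝ) ≤ c.k := by
    have : 0 < c.k := Fintype.card_pos_iff.2 ⟨i⟩
    exact_mod_cast this
  have hpt : ∀ ω, ENNReal.ofReal (2 * jumpB_R c z i ω ^ 2 + 2 * (Δ * B) ^ 2) ≤
      ENNReal.ofReal 6 * ENNReal.ofReal (c.Z z ω ^ 2) +
        ENNReal.ofReal 6 * ENNReal.ofReal (z (ω i) ^ 2) + ENNReal.ofReal (8 * (Δ * B) ^ 2) := by
    intro ω
    rw [← ENNReal.ofReal_mul (by norm_num), ← ENNReal.ofReal_mul (by norm_num),
      ← ENNReal.ofReal_add (by positivity) (by positivity),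
      ← ENNReal.ofReal_add (by positivity) (by positivity)]
    refine ENNReal.ofReal_le_ofReal ?_
    have h1 := jumpB_R_diff (z := z) hc i ω
    generalize jumpB_R c z i ω = r at *
    generalize c.Z z ω = x at *
    generalize z (ω i) = y at *
    generalize ((Δ : ℝ) * B) ^ 2 = d at *
    nlinarith [sq_nonneg (x + y), sq_nonneg (x + (x - y - r)), sq_nonneg (y - (x - y - r))]
  have hZ : ∫⁻ ω, ENNReal.ofReal (c.Z z ω ^ 2) ∂c.P ν ≤
      ENNReal.ofReal (c.L ν z ^ 2 + |C| * c.k) := by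
    have h1 := Core.memLp_Z h hc
    rw [← ofReal_integral_eq_lintegral_ofReal h1.integrable_sq
      (Eventually.of_forall fun η => sq_nonneg _)]
    refine ENNReal.ofReal_le_ofReal ?_
    have h2 := variance_eq_sub h1
    have h3 := hQ c hc
    unfold Core.Q at h3
    unfold Core.L
    have h4 : C * c.k ≤ |C| * c.k := by gcongr; exact le_abs_self C
    have h5 : ∫ ω, c.Z z ω ^ 2 ∂c.P ν = ∫ ω, (c.Z z ^ 2) ω ∂c.P ν := rfl
    linarith
  have hzi : ∫⁻ ω, ENNReal.ofReal (z (ω i) ^ 2) ∂c.P ν ≤ ENNReal.ofReal M := by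
    rw [jumpB_cond h.prob c i (fun _ η => ENNReal.ofReal (z η ^ 2)) fun _ _ => rfl]
    simpa using hz _
  refine (lintegral_mono hpt).trans ?_
  rw [lintegral_add_left Measurable.of_discrete, lintegral_add_left Measurable.of_discrete,
    lintegral_const_mul _ Measurable.of_discrete, lintegral_const_mul _ Measurable.of_discrete,
    lintegral_const, measure_univ, mul_one]
  calc _ ≤ ENNReal.ofReal 6 * ENNReal.ofReal (c.L ν z ^ 2 + |C| * c.k) +
        ENNReal.ofReal 6 * ENNReal.ofReal M + ENNReal.ofReal (8 * (Δ * B) ^ 2) := by gcongr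
    _ ≤ _ := by
      rw [← ENNReal.ofReal_mul (by norm_num), ← ENNReal.ofReal_mul (by norm_num),
        ← ENNReal.ofReal_add (by positivity) (by positivity),
        ← ENNReal.ofReal_add (by positivity) (by positivity)]
      refine ENNReal.ofReal_le_ofReal ?_
      have h1 : 0 ≤ ((Δ : ℝ) * B) ^ 2 := sq_nonneg _
      have h2 := sq_nonneg (c.L ν z)
      have h3 := abs_nonneg C
      generalize ((Δ : ℝ) * B) ^ 2 = d at *
      generalize c.L ν z ^ 2 = x at *
      nlinarith [mul_nonneg h2 h3, mul_nonneg h2 hM, mul_nonneg h2 h1, mul_nonneg hM (sub_nonneg.2 hk),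
        mul_nonneg h1 (sub_nonneg.2 hk)]

theorem jumpB_markov (h : Slots1 ν s z) (Δ : ℕ) (B : ℝ) : ∃ C : ℝ, 0 ≤ C ∧
    ∀ c : Core Ω J, c.Good Δ B → ∀ n : ℕ, 1 ≤ n →
      c.P ν {ω | n ≤ 2 * c.S s ω} ≤ ENNReal.ofReal (C * (c.k + 1) / n) := by
  obtain ⟨C, hC⟩ := Core.abs_L_le h Δ B
  refine ⟨2 * |C|, by positivity, fun c hc n hn => ?_⟩
  have := Core.isProb h.prob c
  have hn' : (0 : ℝ) < n := Nat.cast_pos.2 hn
  obtain ⟨h1, h2⟩ := Core.integral_S h c
  have h3 := mul_meas_ge_le_integral_of_nonneg (μ := c.P ν) (f := fun ω => (c.S s ω : ℝ))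
    (Eventually.of_forall fun ω => Nat.cast_nonneg _) h1 (n / 2)
  have h4 : {ω : c.I → Ω | n ≤ 2 * c.S s ω} = {ω | (n : ℝ) / 2 ≤ c.S s ω} := by
    ext ω
    simp only [Set.mem_ofPred_eq]
    rw [div_le_iff₀ two_pos, mul_comm _ (2 : ℝ)]
    norm_cast
  rw [h4, ← ENNReal.ofReal_toReal (measure_ne_top (c.P ν) _)]
  refine ENNReal.ofReal_le_ofReal ?_
  rw [le_div_iff₀ hn']
  have h5 := (hC c hc).2
  have h6 : C * (c.k + 1) ≤ |C| * (c.k + 1) := by gcongr; exact le_abs_self C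
  rw [h2] at h3
  unfold Measure.real at h3
  linarith

omit [Countable Ω] [MeasurableSpace Ω] [DiscreteMeasurableSpace Ω] [Fintype J] in
theorem jumpB_pt {c : Core Ω J} (hc : c.Good Δ B) {ε : ℝ} (hε : 0 < ε) {κ : ℝ} (hκ : 0 ≤ κ)
    {n : ℕ} (hn : 1 ≤ n) (ω : c.I → Ω) :
    (if c.S s ω = n then ENNReal.ofReal (psi κ (c.Z z ω / √n)) else 0) ≤
      ∑ i, (ENNReal.ofReal (1 + ε) * (if c.S s ω = n ∧ 2 * c.Sx s i ω < n then
          ENNReal.ofReal (psi κ (z (ω i) / √n)) else 0) +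
        ENNReal.ofReal 2 * (if c.S s ω = n ∧ n ≤ 2 * c.Sx s i ω ∧ n < 100 * s (ω i) then
          ENNReal.ofReal ((z (ω i) / √n) ^ 2) else 0) +
        ENNReal.ofReal ((2 + 1 / ε) / n) * (if c.S s ω = n ∧ n < 100 * s (ω i) then
          ENNReal.ofReal (2 * jumpB_R c z i ω ^ 2 + 2 * (Δ * B) ^ 2) else 0)) +
      ENNReal.ofReal (1 / n) * (if c.S s ω = n ∧ ∀ i, 100 * s (ω i) ≤ n then
        ENNReal.ofReal (c.Z z ω ^ 2) else 0) := by
  have hn' : (0 : ℝ) < n := Nat.cast_pos.2 hn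
  have hsq : ∀ x : ℝ, (x / √n) ^ 2 = x ^ 2 / n := fun x => by rw [div_pow, Real.sq_sqrt hn'.le]
  have hR : ∀ i, ((c.Z z ω - z (ω i)) / √n) ^ 2 ≤
      (2 * jumpB_R c z i ω ^ 2 + 2 * (Δ * B) ^ 2) / n := by
    intro i
    rw [hsq]
    refine div_le_div_of_nonneg_right ?_ hn'.le
    have h1 := jumpB_R_diff (z := z) hc i ω
    generalize jumpB_R c z i ω = r at *
    generalize c.Z z ω - z (ω i) = x at *
    nlinarith [sq_nonneg (x - 2 * r)]
  have hsplit : ∀ i, c.Z z ω / √n = z (ω i) / √n + (c.Z z ω - z (ω i)) / √n := fun i => by ring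
  have he : 0 < 1 / ε := by positivity
  split_ifs with hS hall
  · refine le_add_left ?_
    rw [← ENNReal.ofReal_mul (by positivity)]
    refine ENNReal.ofReal_le_ofReal ((jumpB_psi_le_sq hκ _).trans (le_of_eq ?_))
    rw [hsq]
    ring
  · have hex : ∃ i, n < 100 * s (ω i) := by
      by_contra h1
      exact hall ⟨hS, fun i => not_lt.1 fun h2 => h1 ⟨i, h2⟩⟩
    refine le_add_right ?_
    by_cases h1 : ∃ i, 2 * c.Sx s i ω < n
    · obtain ⟨i, hi⟩ := h1
      refine le_trans ?_ (Finset.single_le_sum (fun _ _ => zero_le) (Finset.mem_univ i))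
      have h2 : n < 100 * s (ω i) := by
        have := jumpB_S_eq (s := s) c i ω
        omega
      rw [if_pos ⟨hS, hi⟩, if_neg (by omega), if_pos ⟨hS, h2⟩, mul_zero, add_zero,
        ← ENNReal.ofReal_mul (by positivity), ← ENNReal.ofReal_mul (by positivity),
        ← ENNReal.ofReal_add (mul_nonneg (by positivity) (jumpB_psi_nonneg _ _)) (by positivity)]
      refine ENNReal.ofReal_le_ofReal ?_
      rw [hsplit i]
      refine (jumpB_psi_add hε κ _ _).trans (add_le_add le_rfl ?_)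
      calc (1 + 1 / ε) * ((c.Z z ω - z (ω i)) / √n) ^ 2
          ≤ (2 + 1 / ε) * ((2 * jumpB_R c z i ω ^ 2 + 2 * (Δ * B) ^ 2) / n) := by
            gcongr
            · norm_num
            · exact hR i
        _ = _ := by ring
    · obtain ⟨i, hi⟩ := hex
      refine le_trans ?_ (Finset.single_le_sum (fun _ _ => zero_le) (Finset.mem_univ i))
      have h2 : n ≤ 2 * c.Sx s i ω := not_lt.1 fun h3 => h1 ⟨i, h3⟩
      rw [if_neg (by omega), if_pos ⟨hS, h2, hi⟩, if_pos ⟨hS, hi⟩, mul_zero, zero_add,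
        ← ENNReal.ofReal_mul (by positivity), ← ENNReal.ofReal_mul (by positivity),
        ← ENNReal.ofReal_add (by positivity) (by positivity)]
      refine ENNReal.ofReal_le_ofReal ((jumpB_psi_le_sq hκ _).trans ?_)
      rw [hsplit i]
      have h3 : 2 * ((c.Z z ω - z (ω i)) / √n) ^ 2 ≤
          (2 + 1 / ε) / n * (2 * jumpB_R c z i ω ^ 2 + 2 * (Δ * B) ^ 2) := by
        calc 2 * ((c.Z z ω - z (ω i)) / √n) ^ 2
            ≤ (2 + 1 / ε) * ((2 * jumpB_R c z i ω ^ 2 + 2 * (Δ * B) ^ 2) / n) := by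
              gcongr
              · linarith
              · exact hR i
          _ = _ := by ring
      nlinarith [sq_nonneg (z (ω i) / √n - (c.Z z ω - z (ω i)) / √n)]
  · exact zero_le
  · exact zero_le

/-- the bound for one core with few slots -/
theorem jumpB_core (h : Slots ν s z) (Δ : ℕ) (B : ℝ) {ε : ℝ} (hε : 0 < ε) : ∃ C : ℝ, 0 ≤ C ∧
    ∀ n : ℕ, 1 ≤ n → ∀ a b : ℝ, 0 ≤ a → 0 ≤ b →
      (∀ j l, n < 100 * l → l ≤ n → ν j {η | s η = l} ≤ ENNReal.ofReal a) →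
      (∀ j l, n < 100 * l → l ≤ n → ∫⁻ η, (if s η = l then ENNReal.ofReal ((z η / √n) ^ 2) else 0)
        ∂ν j ≤ ENNReal.ofReal b) → ∀ κ : ℝ, 0 ≤ κ →
      ∀ c : Core Ω J, c.Good Δ B → c.k ^ 10 ≤ n ^ 9 → 100 * c.s0 ≤ n →
        ∫⁻ ω, (if c.S s ω = n then ENNReal.ofReal (psi κ (c.Z z ω / √n)) else 0) ∂c.P ν ≤
          ENNReal.ofReal (1 + ε) * ∑ i, ∑ l ∈ Finset.range ((n + 1) / 2),
            c.P ν {ω | c.Sx s i ω = l} * m2 (slaw (ν (c.cls i)) s z) (n - l) κ +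
          ENNReal.ofReal (C * a / n) * ENNReal.ofReal (c.k * (c.L ν z ^ 2 + c.k)) +
          ENNReal.ofReal (C * (b * (n : ℝ) ^ (-(1 / 10) : ℝ) + (n : ℝ) ^ (-3 : ℝ))) *
            ENNReal.ofReal (c.k + 1) := by
  obtain ⟨C1, hC1, h1⟩ := jumpB_G_le h Δ B
  obtain ⟨C2, hC2, h2⟩ := jumpB_markov h.toSlots1 Δ B
  obtain ⟨C3, hC3, h3⟩ := jumpB_T4 h Δ B
  have he : 0 < 1 / ε := by positivity
  refine ⟨(2 + 1 / ε) * C1 + 2 * C2 + 2 * C3, by positivity,
    fun n hn a b ha0 hb0 ha hb κ hκ c hc hk hs => ?_⟩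
  have hn' : (0 : ℝ) < n := Nat.cast_pos.2 hn
  have hn1 : (1 : ℝ) ≤ n := by exact_mod_cast hn
  refine (lintegral_mono (jumpB_pt hc hε hκ hn)).trans ?_
  rw [lintegral_add_left Measurable.of_discrete, lintegral_finsetSum _ fun _ _ => Measurable.of_discrete,
    lintegral_const_mul _ Measurable.of_discrete]
  simp only [lintegral_add_left Measurable.of_discrete, lintegral_const_mul _ Measurable.of_discrete]
  have hk1 := jumpB_k_le hk
  have hk2 : (c.k : ℝ) / n ≤ (n : ℝ) ^ (-(1 / 10) : ℝ) := by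
    rw [div_le_iff₀ hn', ← Real.rpow_add_one hn'.ne']
    norm_num
    exact hk1
  have hk3 : ((c.k : ℝ) + 1) / n ≤ 2 := by
    rw [div_le_iff₀ hn']
    have : (n : ℝ) ^ (9 / 10 : ℝ) ≤ n := Real.rpow_le_self_of_one_le hn1 (by norm_num)
    linarith
  have hL : 0 ≤ c.L ν z ^ 2 + c.k := by positivity
  have hr1 : 0 ≤ (n : ℝ) ^ (-(1 / 10) : ℝ) := by positivity
  have hr3 : 0 ≤ (n : ℝ) ^ (-3 : ℝ) := by positivity
  calc _ ≤ ∑ i, (ENNReal.ofReal (1 + ε) * (∑ l ∈ Finset.range ((n + 1) / 2),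
            c.P ν {ω | c.Sx s i ω = l} * m2 (slaw (ν (c.cls i)) s z) (n - l) κ) +
          ENNReal.ofReal 2 * (ENNReal.ofReal b * ENNReal.ofReal (C2 * (c.k + 1) / n)) +
          ENNReal.ofReal ((2 + 1 / ε) / n) * (ENNReal.ofReal a *
            ENNReal.ofReal (C1 * (c.L ν z ^ 2 + c.k)))) +
        ENNReal.ofReal (1 / n) * ENNReal.ofReal (C3 * (c.k + 1) ^ 2 * (n : ℝ) ^ (-3 : ℝ)) := by
        gcongr with i
        · exact jumpB_T1 h.prob c i n κ
        · refine (jumpB_T2 h.prob c i n _ (fun η => ENNReal.ofReal ((z η / √n) ^ 2))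
            (hb _)).trans ?_
          gcongr
          exact h2 c hc n hn
        · refine (jumpB_T3 h.prob c i n _ _ (fun ω η => by rw [jumpB_R_update]) (ha _)).trans ?_
          gcongr
          exact h1 c hc i
        · exact h3 n hn c hc hk hs
    _ ≤ _ := by
        rw [Finset.sum_add_distrib, Finset.sum_add_distrib, ← Finset.mul_sum, add_assoc, add_assoc,
          add_assoc]
        refine add_le_add le_rfl ?_
        simp only [Finset.sum_const, Finset.card_univ, nsmul_eq_mul]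
        rw [show (Fintype.card c.I : ℝ≥0∞) = ENNReal.ofReal c.k from (ENNReal.ofReal_natCast _).symm,
          ← ENNReal.ofReal_mul hb0, ← ENNReal.ofReal_mul ha0, ← ENNReal.ofReal_mul (by positivity),
          ← ENNReal.ofReal_mul (by positivity), ← ENNReal.ofReal_mul (by positivity),
          ← ENNReal.ofReal_mul (by positivity), ← ENNReal.ofReal_mul (by positivity),
          ← ENNReal.ofReal_mul (by positivity), ← ENNReal.ofReal_mul (by positivity),
          ← ENNReal.ofReal_add (by positivity) (by positivity),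
          ← ENNReal.ofReal_add (by positivity) (by positivity),
          ← ENNReal.ofReal_add (by positivity) (by positivity)]
        refine ENNReal.ofReal_le_ofReal ?_
        have e1 : (c.k : ℝ) * (2 * (b * (C2 * (c.k + 1) / n))) ≤
            2 * C2 * (b * (n : ℝ) ^ (-(1 / 10) : ℝ)) * (c.k + 1) := by
          calc _ = 2 * C2 * (b * (c.k / n)) * (c.k + 1) := by ring
            _ ≤ _ := by gcongr
        have e2 : 1 / n * (C3 * (c.k + 1) ^ 2 * (n : ℝ) ^ (-3 : ℝ)) ≤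
            2 * C3 * (n : ℝ) ^ (-3 : ℝ) * (c.k + 1) := by
          calc _ = (c.k + 1) / n * C3 * (n : ℝ) ^ (-3 : ℝ) * (c.k + 1) := by ring
            _ ≤ _ := by gcongr
        have e3 : (c.k : ℝ) * ((2 + 1 / ε) / n * (a * (C1 * (c.L ν z ^ 2 + c.k)))) ≤
            ((2 + 1 / ε) * C1 + 2 * C2 + 2 * C3) * a / n * (c.k * (c.L ν z ^ 2 + c.k)) := by
          calc _ = ((2 + 1 / ε) * C1) * a / n * (c.k * (c.L ν z ^ 2 + c.k)) := by ring
            _ ≤ _ := by gcongr; linarith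
        have e4 : 2 * C2 * (b * (n : ℝ) ^ (-(1 / 10) : ℝ)) * (c.k + 1) +
            2 * C3 * (n : ℝ) ^ (-3 : ℝ) * (c.k + 1) ≤ ((2 + 1 / ε) * C1 + 2 * C2 + 2 * C3) *
              (b * (n : ℝ) ^ (-(1 / 10) : ℝ) + (n : ℝ) ^ (-3 : ℝ)) * (c.k + 1) := by
          rw [← add_mul, mul_add ((2 + 1 / ε) * C1 + 2 * C2 + 2 * C3)]
          have : 0 ≤ (2 + 1 / ε) * C1 := by positivity
          gcongr <;> linarith
        linarith

end Pool.Agent.Lib.MP_77dff5_pr
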