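import Pool.Agent.Lib.MP_77dff5_pr.JumpA
import Pool.Agent.Lib.MP_77dff5_pr.JumpBAux3

/-! One big jump: cores with few slots. -/

set_option autoImplicit false

namespace Pool.Agent.Lib.MP_77dff5_pr

open MeasureTheory ProbabilityTheory Filter Topology
open scoped ENNReal NNReal

variable {Ω J : Type} [Countable Ω] [MeasurableSpace Ω] [DiscreteMeasurableSpace Ω] [Fintype J]
  {ν : J → Measure Ω} {s : Ω → ℕ} {z : Ω → ℝ} {F : Fam Ω J} {Δ : ℕ} {B : ℝ}

open Classical in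
omit [Countable Ω] [DiscreteMeasurableSpace Ω] [Fintype J] in
theorem jumpB_aa (hν : ∀ j, IsProbabilityMeasure (ν j)) (hF : F.Good Δ B) (j : J) (l : ℕ) :
    ENNReal.ofReal (F.aa ν s j l) = ∑' t, (F.w t : ℝ≥0∞) * ∑ i : (F.core t).I,
      if (F.core t).cls i = j then (F.core t).P ν {ω | (F.core t).Sx s i ω = l} else 0 := by
  have hP : ∀ t, IsProbabilityMeasure ((F.core t).P ν) := fun t => by
    unfold Core.P
    infer_instance
  have h0 : ∀ t (i : (F.core t).I), 0 ≤ if (F.core t).cls i = j then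
      ((F.core t).P ν).real {ω | (F.core t).Sx s i ω = l} else 0 := fun t i => by
    split_ifs
    · exact measureReal_nonneg
    · exact le_rfl
  have h1 : ∀ t (i : (F.core t).I), (if (F.core t).cls i = j then
      ((F.core t).P ν).real {ω | (F.core t).Sx s i ω = l} else 0) ≤ 1 := fun t i => by
    split_ifs
    · exact measureReal_le_one
    · exact zero_le_one
  have h2 : ∀ t, 0 ≤ (F.w t : ℝ) * ∑ i : (F.core t).I, if (F.core t).cls i = j then
      ((F.core t).P ν).real {ω | (F.core t).Sx s i ω = l} else 0 := fun t =>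
    mul_nonneg (F.w t).2 (Finset.sum_nonneg fun i _ => h0 t i)
  unfold Fam.aa
  rw [ENNReal.ofReal_tsum_of_nonneg h2]
  · refine tsum_congr fun t => ?_
    rw [ENNReal.ofReal_mul (NNReal.coe_nonneg _), ENNReal.ofReal_coe_nnreal,
      ENNReal.ofReal_sum_of_nonneg fun i _ => h0 t i]
    congr 1
    refine Finset.sum_congr rfl fun i _ => ?_
    split_ifs
    · exact ofReal_measureReal
    · exact ENNReal.ofReal_zero
  · refine Summable.of_nonneg_of_le h2 (fun t => ?_) hF.sum1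
    refine mul_le_mul_of_nonneg_left ?_ (F.w t).2
    refine (Finset.sum_le_sum fun i _ => h1 t i).trans ?_
    simp [Core.k]

omit [Countable Ω] [DiscreteMeasurableSpace Ω] in
theorem jumpB_main_sum (hν : ∀ j, IsProbabilityMeasure (ν j)) (hF : F.Good Δ B) (A : Set F.T)
    (R : Finset ℕ) (f : J → ℕ → ℝ≥0∞) :
    ∑' t : A, (F.w t : ℝ≥0∞) * ∑ i, ∑ l ∈ R,
        (F.core t).P ν {ω | (F.core t).Sx s i ω = l} * f ((F.core t).cls i) l ≤
      ∑ j, ∑ l ∈ R, ENNReal.ofReal (F.aa ν s j l) * f j l := by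
  classical
  refine (ENNReal.tsum_comp_le_tsum_of_injective Subtype.val_injective (fun t => (F.w t : ℝ≥0∞) *
    ∑ i, ∑ l ∈ R, (F.core t).P ν {ω | (F.core t).Sx s i ω = l} * f ((F.core t).cls i) l)).trans
    (le_of_eq ?_)
  simp only [jumpB_aa hν hF, ← ENNReal.tsum_mul_right]
  simp only [← Summable.tsum_finsetSum fun _ _ => ENNReal.summable]
  refine tsum_congr fun t => ?_
  simp only [mul_assoc, ← Finset.mul_sum]
  congr 1
  simp only [Finset.sum_mul, ite_mul, zero_mul]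
  rw [Finset.sum_comm]
  conv_rhs => rw [Finset.sum_comm]
  refine Finset.sum_congr rfl fun l _ => ?_
  rw [Finset.sum_comm]
  refine Finset.sum_congr rfl fun i _ => ?_
  rw [Finset.sum_ite_eq]
  simp

theorem jumpB_pow_le {n l : ℕ} (hn : 1 ≤ n) (h : n < 100 * l) :
    (l : ℝ) ^ (-(5 / 2) : ℝ) ≤ 10 ^ 5 * (n : ℝ) ^ (-(5 / 2) : ℝ) := by
  have hn' : (0 : ℝ) < n := Nat.cast_pos.2 hn
  have h1 : (n : ℝ) / 100 ≤ l := by
    have : (n : ℝ) < 100 * l := by exact_mod_cast h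
    linarith
  refine (Real.rpow_le_rpow_of_nonpos (by positivity) h1 (by norm_num)).trans (le_of_eq ?_)
  rw [Real.div_rpow hn'.le (by norm_num), Real.rpow_neg (by norm_num : (0 : ℝ) ≤ 100),
    show (100 : ℝ) = 10 ^ (2 : ℝ) by norm_num, ← Real.rpow_mul (by norm_num)]
  norm_num
  ring

theorem jumpB_ev (D : ℝ) {ε : ℝ} (hε : 0 < ε) :
    ∀ᶠ n : ℕ in atTop, D * (n : ℝ) ^ (-(1 / 10) : ℝ) ≤ ε := by
  have h1 : Tendsto (fun n : ℕ => D * (n : ℝ) ^ (-(1 / 10) : ℝ)) atTop (𝓝 (D * 0)) :=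
    ((tendsto_rpow_neg_atTop (by norm_num)).comp tendsto_natCast_atTop_atTop).const_mul D
  rw [mul_zero] at h1
  exact h1.eventually (ge_mem_nhds hε)

theorem Fam.jump_m2 (h : Slots ν s z) (hF : F.Good Δ B) {A : ℝ}
    (hA : ∀ M : ℕ, 1 ≤ M → ∑' t : {t // (F.core t).k ≤ M}, (F.w t : ℝ≥0∞) * ENNReal.ofReal
      ((F.core t).k * ((F.core t).L ν z ^ 2 + (F.core t).k)) ≤ ENNReal.ofReal (A * M))
    {ε : ℝ} (hε : 0 < ε) :
    ∀ᶠ n : ℕ in atTop, ∀ K : ℝ, 0 ≤ K →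
      (∀ j, ∀ l : ℕ, 1 ≤ l → l ≤ n → pm (slaw (ν j) s z) l ≤ K * (l : ℝ) ^ (-(5 / 2) : ℝ)) →
      ∀ K₂ : ℝ, 0 ≤ K₂ → (∀ j, ∀ l : ℕ, 1 ≤ l → l ≤ n →
        m2 (slaw (ν j) s z) l 0 ≤ ENNReal.ofReal (K₂ * (l : ℝ) ^ (-(5 / 2) : ℝ))) →
      ∀ κ : ℝ, 0 ≤ κ → m2 (F.lawOn (F.small n) ν s z) n κ ≤
        ENNReal.ofReal (1 + ε) * ∑ j, ∑ l ∈ Finset.range ((n + 1) / 2),
          ENNReal.ofReal (F.aa ν s j l) * m2 (slaw (ν j) s z) (n - l) κ +
        ENNReal.ofReal (ε * (1 + K + K₂) * (n : ℝ) ^ (-(5 / 2) : ℝ)) := by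
  obtain ⟨C, hC, hcore⟩ := jumpB_core h Δ B hε
  set W : ℝ := ∑' t, (F.w t : ℝ) * ((F.core t).k + 1) with hW
  have hW0 : 0 ≤ W := tsum_nonneg fun t => by positivity
  filter_upwards [eventually_ge_atTop 1, jumpB_ev (200 * Δ) one_pos,
    jumpB_ev (C * 10 ^ 5 * (|A| + W)) hε] with n hn hΔ hD K hK hpm K₂ hK₂ hm2 κ hκ
  have := h.prob
  have hn' : (0 : ℝ) < n := Nat.cast_pos.2 hn
  have hn1 : (1 : ℝ) ≤ n := by exact_mod_cast hn
  have hr : (n : ℝ) ^ (9 / 10 : ℝ) = (n : ℝ) ^ (-(1 / 10) : ℝ) * n := by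
    rw [← Real.rpow_add_one hn'.ne']
    norm_num
  have hr1 : 1 ≤ (n : ℝ) ^ (9 / 10 : ℝ) := Real.one_le_rpow hn1 (by norm_num)
  have hs0 : ∀ t : F.small n, 100 * (F.core t).s0 ≤ n := by
    intro t
    have h1 := jumpB_k_le t.2
    have h2 : ((F.core t).s0 : ℝ) ≤ Δ * ((F.core t).k + 1) := by exact_mod_cast (hF.good t).s0_le
    have h3 : (Δ : ℝ) * ((F.core t).k + 1) ≤ Δ * (2 * (n : ℝ) ^ (9 / 10 : ℝ)) := by
      gcongr
      linarith
    have h4 : 200 * Δ * (n : ℝ) ^ (-(1 / 10) : ℝ) * n ≤ 1 * n := by gcongr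
    have h5 : (100 * (F.core t).s0 : ℝ) ≤ n := by
      rw [hr] at h3
      linarith
    exact_mod_cast h5
  set p : ℝ := (n : ℝ) ^ (-(5 / 2) : ℝ) with hp
  have hp0 : 0 ≤ p := by positivity
  have ha : ∀ j l, n < 100 * l → l ≤ n → ν j {η | s η = l} ≤ ENNReal.ofReal (K * (10 ^ 5 * p)) := by
    intro j l h1 h2
    rw [← ofReal_measureReal (μ := ν j), ← jumpB_pm_slaw (z := z)]
    refine ENNReal.ofReal_le_ofReal ((hpm j l (by omega) h2).trans ?_)
    gcongr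
    exact jumpB_pow_le hn h1
  have hb : ∀ j l, n < 100 * l → l ≤ n →
      ∫⁻ η, (if s η = l then ENNReal.ofReal ((z η / √n) ^ 2) else 0) ∂ν j ≤
        ENNReal.ofReal (K₂ * (10 ^ 5 * p)) := by
    intro j l h1 h2
    refine le_trans ?_ ((hm2 j l (by omega) h2).trans (ENNReal.ofReal_le_ofReal ?_))
    · rw [jumpB_m2_slaw]
      refine lintegral_mono fun η => ?_
      split_ifs
      · rw [← jumpB_psi_zero]
        refine ENNReal.ofReal_le_ofReal (jumpB_psi_mono ?_)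
        rw [abs_div, abs_div, abs_of_nonneg (Real.sqrt_nonneg _),
          abs_of_nonneg (Real.sqrt_nonneg _)]
        refine div_le_div_of_nonneg_left (abs_nonneg _) (Real.sqrt_pos.2 ?_)
          (Real.sqrt_le_sqrt (Nat.cast_le.2 h2))
        exact Nat.cast_pos.2 (by omega)
      · exact le_rfl
    · gcongr
      exact jumpB_pow_le hn h1
  have hmeas : MeasurableSet {q : ℕ × ℝ | q.1 = n} := measurable_fst (measurableSet_singleton n)
  have hpsi : Measurable fun q : ℕ × ℝ => ENNReal.ofReal (psi κ (q.2 / √n)) := by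
    unfold psi
    fun_prop
  have e1 : m2 (F.lawOn (F.small n) ν s z) n κ = ∑' t : F.small n, (F.w t : ℝ≥0∞) *
      ∫⁻ ω, (if (F.core t).S s ω = n then ENNReal.ofReal (psi κ ((F.core t).Z z ω / √n)) else 0)
        ∂(F.core t).P ν := by
    unfold m2
    rw [← lintegral_indicator hmeas, Fam.lintegral_lawOn _ _ (hpsi.indicator hmeas)]
    simp [Set.indicator_apply]
  have e2 : ∑' t : F.small n, (F.w t : ℝ≥0∞) * ENNReal.ofReal
      ((F.core t).k * ((F.core t).L ν z ^ 2 + (F.core t).k)) ≤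
        ENNReal.ofReal (|A| * (n : ℝ) ^ (9 / 10 : ℝ)) := by
    refine le_trans ?_ ((hA ⌊(n : ℝ) ^ (9 / 10 : ℝ)⌋₊ (Nat.le_floor (by exact_mod_cast hr1))).trans
      (ENNReal.ofReal_le_ofReal ?_))
    · exact ENNReal.tsum_mono_subtype (fun t => (F.w t : ℝ≥0∞) * ENNReal.ofReal
        ((F.core t).k * ((F.core t).L ν z ^ 2 + (F.core t).k)))
        (s := F.small n) (t := {t | (F.core t).k ≤ ⌊(n : ℝ) ^ (9 / 10 : ℝ)⌋₊})
        fun t ht => Nat.le_floor (jumpB_k_le ht)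
    · exact mul_le_mul (le_abs_self A) (Nat.floor_le (by positivity)) (Nat.cast_nonneg _)
        (abs_nonneg A)
  have e3 : ∑' t : F.small n, (F.w t : ℝ≥0∞) * ENNReal.ofReal ((F.core t).k + 1) ≤
      ENNReal.ofReal W := by
    refine (ENNReal.tsum_comp_le_tsum_of_injective Subtype.val_injective
      (fun t => (F.w t : ℝ≥0∞) * ENNReal.ofReal ((F.core t).k + 1))).trans (le_of_eq ?_)
    rw [hW, ENNReal.ofReal_tsum_of_nonneg (fun t => by positivity) hF.sum1]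
    refine tsum_congr fun t => ?_
    rw [ENNReal.ofReal_mul (NNReal.coe_nonneg _), ENNReal.ofReal_coe_nnreal]
  rw [e1]
  refine (ENNReal.tsum_le_tsum fun t : F.small n => mul_le_mul_right (hcore n hn _ _ (by positivity)
    (by positivity) ha hb κ hκ (F.core t) (hF.good t) t.2 (hs0 t)) _).trans ?_
  simp only [mul_add (F.w _ : ℝ≥0∞), ENNReal.tsum_add, mul_left_comm (F.w _ : ℝ≥0∞),
    ENNReal.tsum_mul_left]
  rw [add_assoc]
  refine add_le_add (mul_le_mul_right (jumpB_main_sum h.prob hF (F.small n) _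
    fun j l => m2 (slaw (ν j) s z) (n - l) κ) _) ?_
  refine (add_le_add (mul_le_mul_right e2 _) (mul_le_mul_right e3 _)).trans ?_
  set q : ℝ := (n : ℝ) ^ (-(1 / 10) : ℝ) with hq
  have hq0 : 0 ≤ q := by positivity
  have h3 : (n : ℝ) ^ (-3 : ℝ) ≤ p * q := by
    rw [hp, hq, ← Real.rpow_add hn']
    exact Real.rpow_le_rpow_of_exponent_le hn1 (by norm_num)
  have h30 : 0 ≤ (n : ℝ) ^ (-3 : ℝ) := by positivity
  rw [← ENNReal.ofReal_mul (by positivity), ← ENNReal.ofReal_mul (by positivity),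
    ← ENNReal.ofReal_add (by positivity) (by positivity)]
  refine ENNReal.ofReal_le_ofReal ?_
  have hA0 := abs_nonneg A
  have f1 : C * (K * (10 ^ 5 * p)) / n * (|A| * (n : ℝ) ^ (9 / 10 : ℝ)) =
      C * 10 ^ 5 * |A| * q * K * p := by
    rw [hr]
    field_simp
  have f2 : C * (n : ℝ) ^ (-3 : ℝ) * W ≤ C * W * (p * q) := by
    rw [mul_right_comm]
    gcongr
  have f3 : C * 10 ^ 5 * (|A| + W) * q * ((1 + K + K₂) * p) ≤ ε * ((1 + K + K₂) * p) := by gcongr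
  rw [f1]
  have g1 : 0 ≤ C * W * (p * q) := by positivity
  have g2 : 0 ≤ C * |A| * (p * q) := by positivity
  have g3 : 0 ≤ C * W * K * (p * q) := by positivity
  have g4 : 0 ≤ C * |A| * K₂ * (p * q) := by positivity
  nlinarith

end Pool.Agent.Lib.MP_77dff5_pr
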