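import Pool.Agent.Lib.MP_77dff5_pr.LinA

/-! Linear systems with a Lyapunov vector. -/

set_option autoImplicit false

namespace Pool.Agent.Lib.MP_77dff5_pr

open Filter Topology

variable {ι : Type} [Fintype ι] [DecidableEq ι]

omit [Fintype ι] [DecidableEq ι] in
theorem linB_conv {X : Type} {F : Filter X} {a : ℕ → ℝ} {α : ℝ} (h0 : ∀ l, 0 ≤ a l)
    (ha : HasSum a α) (x : ℕ → X → ℂ) {E M : ℝ} (hE0 : 0 ≤ E)
    (hE : ∀ l η, 0 < η → ∀ᶠ p in F, ‖x l p‖ ≤ E + η) (hM : ∀ᶠ p in F, ∀ l, ‖x l p‖ ≤ M)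
    {η : ℝ} (hη : 0 < η) : ∀ᶠ p in F, ‖∑' l, (a l : ℂ) * x l p‖ ≤ α * E + η := by
  have hb : ∀ᶠ p in F, ∀ l, ‖a l * max (‖x l p‖ - E) 0‖ ≤ a l * M := by
    filter_upwards [hM] with p hp l
    rw [Real.norm_of_nonneg (mul_nonneg (h0 l) (le_max_right _ _))]
    exact mul_le_mul_of_nonneg_left
      (max_le (by linarith [hp l]) ((norm_nonneg _).trans (hp l))) (h0 l)
  have h1 := tendsto_tsum_of_dominated_convergence (𝓕 := F) (g := fun _ => (0 : ℝ))
    (f := fun p l => a l * max (‖x l p‖ - E) 0) (ha.summable.mul_right M) (fun l => by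
      refine (Tendsto.const_mul (a l) (a := 0) ?_).trans_eq (congrArg _ (mul_zero _))
      refine (tendsto_order.2 ⟨fun c hc => Eventually.of_forall fun p =>
        hc.trans_le (le_max_right _ _), fun c hc => ?_⟩)
      filter_upwards [hE l (c / 2) (by linarith)] with p hp
      exact max_lt (by linarith) hc) hb
  rw [tsum_zero] at h1
  filter_upwards [h1.eventually (gt_mem_nhds hη), hb] with p h2 h3
  have h4 := (ha.mul_right E).add (Summable.of_norm_bounded (ha.summable.mul_right M) h3).hasSum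
  refine (tsum_of_norm_bounded h4 fun l => ?_).trans (by linarith)
  rw [norm_mul, Complex.norm_real, Real.norm_of_nonneg (h0 l), ← mul_add]
  exact mul_le_mul_of_nonneg_left (by linarith [le_max_left (‖x l p‖ - E) 0]) (h0 l)

theorem linB_slow {θ : ℝ} {g : ℕ × ℝ → ℂ}
    (h : Tendsto (fun p : ℕ × ℝ => g (p.1 - 1, p.2) - g p) (FF θ) (𝓝 0)) (l : ℕ) :
    Tendsto (fun p : ℕ × ℝ => g (p.1 - l, p.2) - g p) (FF θ) (𝓝 0) := by
  induction l with
  | zero => simpa using tendsto_const_nhds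
  | succ l ih =>
    have := (h.comp (FF_shift θ l)).add ih
    rw [add_zero] at this
    refine this.congr fun p => ?_
    simp only [Function.comp, Nat.sub_sub, sub_add_sub_cancel]

theorem linB_ratio (l : ℕ) :
    Tendsto (fun n : ℕ => ((n : ℝ) / ((n - l : ℕ) : ℝ)) ^ (5 / 2 : ℝ)) atTop (𝓝 1) := by
  have h1 : Tendsto (fun n : ℕ => (n : ℝ) / ((n - l : ℕ) : ℝ)) atTop (𝓝 1) := by
    rw [← tendsto_add_atTop_iff_nat l]
    have := (tendsto_natCast_div_add_atTop (l : ℝ)).inv₀ one_ne_zero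
    rw [inv_one] at this
    refine this.congr fun n => ?_
    rw [inv_div, Nat.add_sub_cancel, Nat.cast_add]
  simpa using h1.rpow_const (p := 5 / 2) (Or.inl one_ne_zero)

theorem linB_step {θ K E M α : ℝ} {a : ℕ → ℝ} (h0 : ∀ l, 0 ≤ a l) (ha : HasSum a α)
    {u G : ℕ × ℝ → ℂ} (hu : ∀ p : ℕ × ℝ, 1 ≤ p.1 → ‖u p‖ ≤ K * (p.1 : ℝ) ^ (-(5 / 2) : ℝ))
    (hG : ∀ᶠ p in FF θ, ‖G p‖ ≤ M)
    (hs : Tendsto (fun p : ℕ × ℝ => G (p.1 - 1, p.2) - G p) (FF θ) (𝓝 0)) (hE0 : 0 ≤ E)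
    (hE : ∀ η, 0 < η → ∀ᶠ p in FF θ,
      ‖(((p.1 : ℝ) ^ (5 / 2 : ℝ) : ℝ) : ℂ) * u p - G p‖ ≤ E + η) {η : ℝ} (hη : 0 < η) :
    ∀ᶠ p in FF θ, ‖(((p.1 : ℝ) ^ (5 / 2 : ℝ) : ℝ) : ℂ) *
      ∑ l ∈ Finset.range ((p.1 + 1) / 2), (a l : ℂ) * u (p.1 - l, p.2) - α * G p‖ ≤ α * E + η := by
  set v : ℕ × ℝ → ℂ := fun p => (((p.1 : ℝ) ^ (5 / 2 : ℝ) : ℝ) : ℂ) * u p with hv
  have hv1 : ∀ p : ℕ × ℝ, 1 ≤ p.1 → ‖v p‖ ≤ K := fun p hp => by
    have h1 : (0 : ℝ) < p.1 := by exact_mod_cast hp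
    have h2 := Real.rpow_pos_of_pos h1 (5 / 2)
    rw [hv, norm_mul, Complex.norm_real, Real.norm_of_nonneg h2.le]
    refine (mul_le_mul_of_nonneg_left (hu p hp) h2.le).trans_eq ?_
    rw [Real.rpow_neg h1.le]
    field_simp
  have hK : 0 ≤ K := (norm_nonneg _).trans (hv1 (1, 0) le_rfl)
  have hv2 : ∀ (p : ℕ × ℝ) (l : ℕ), l < (p.1 + 1) / 2 →
      (((p.1 : ℝ) ^ (5 / 2 : ℝ) : ℝ) : ℂ) * u (p.1 - l, p.2) =
        ((((p.1 : ℝ) / ((p.1 - l : ℕ) : ℝ)) ^ (5 / 2 : ℝ) : ℝ) : ℂ) * v (p.1 - l, p.2) := by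
    intro p l hl
    have h1 : (0 : ℝ) < (p.1 - l : ℕ) := by exact_mod_cast (by omega : 0 < p.1 - l)
    rw [hv, ← mul_assoc, ← Complex.ofReal_mul, Real.div_rpow (Nat.cast_nonneg _) h1.le,
      div_mul_cancel₀ _ (Real.rpow_pos_of_pos h1 _).ne']
  refine (linB_conv h0 ha (fun l p => (if l < (p.1 + 1) / 2 then
    (((p.1 : ℝ) ^ (5 / 2 : ℝ) : ℝ) : ℂ) * u (p.1 - l, p.2) else 0) - G p)
    (M := 2 ^ (5 / 2 : ℝ) * K + M) hE0 (fun l η hη => ?_) ?_ hη).mono fun p hp => ?_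
  · have h1 := (((linB_ratio l).comp (FF_fst θ)).sub_const 1).abs.mul_const K
    rw [sub_self, abs_zero, zero_mul] at h1
    filter_upwards [(FF_shift θ l).eventually (hE (η / 3) (by linarith)),
      h1.eventually (gt_mem_nhds (by linarith : 0 < η / 3)),
      (tendsto_zero_iff_norm_tendsto_zero.1 (linB_slow hs l)).eventually
        (gt_mem_nhds (by linarith : 0 < η / 3)),
      (FF_fst θ).eventually (eventually_ge_atTop (2 * l + 1))] with p a1 a2 a3 a4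
    have a5 : l < (p.1 + 1) / 2 := by omega
    rw [if_pos a5, hv2 p l a5]
    dsimp only [Function.comp] at a2
    generalize ((p.1 : ℝ) / ((p.1 - l : ℕ) : ℝ)) ^ (5 / 2 : ℝ) = ρ at a2
    have a6 : ‖((ρ - 1 : ℝ) : ℂ) * v (p.1 - l, p.2)‖ ≤ |ρ - 1| * K := by
      rw [norm_mul, Complex.norm_real, Real.norm_eq_abs]
      exact mul_le_mul_of_nonneg_left (hv1 _ (by dsimp only; omega)) (abs_nonneg _)
    have e : ρ * v (p.1 - l, p.2) - G p = ((ρ - 1 : ℝ) : ℂ) * v (p.1 - l, p.2) +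
        (v (p.1 - l, p.2) - G (p.1 - l, p.2)) + (G (p.1 - l, p.2) - G p) := by
      push_cast
      ring
    rw [e]
    refine norm_add₃_le.trans ?_
    have a7 : ‖v (p.1 - l, p.2) - G (p.1 - l, p.2)‖ ≤ E + η / 3 := a1
    linarith
  · filter_upwards [hG] with p hp l
    refine (norm_sub_le _ _).trans (add_le_add ?_ hp)
    split_ifs with hl
    · have h1 : (0 : ℝ) < (p.1 - l : ℕ) := by exact_mod_cast (by omega : 0 < p.1 - l)
      have h2 : (p.1 : ℝ) ≤ 2 * (p.1 - l : ℕ) := by exact_mod_cast (by omega : p.1 ≤ 2 * (p.1 - l))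
      rw [hv2 p l hl, norm_mul, Complex.norm_real, Real.norm_of_nonneg (by positivity)]
      exact mul_le_mul (Real.rpow_le_rpow (by positivity) ((div_le_iff₀ h1).2 h2) (by norm_num))
        (hv1 _ (by dsimp only; omega)) (norm_nonneg _) (by positivity)
    · rw [norm_zero]
      positivity
  · refine le_of_eq_of_le (congrArg _ (HasSum.tsum_eq ?_).symm) hp
    simp only [mul_sub]
    refine HasSum.sub ?_ ((Complex.hasSum_ofReal.2 ha).mul_right _)
    rw [Finset.mul_sum, Finset.sum_congr rfl fun l hl => ?_]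
    · exact hasSum_sum_of_ne_finset_zero fun l hl => by
        rw [if_neg (mt Finset.mem_range.2 hl), mul_zero]
    · rw [if_pos (Finset.mem_range.1 hl), mul_left_comm]

/-- renewal systems driven by a slowly varying term -/
theorem lin_limit (A : ι → ι → ℝ) (a : ι → ι → ℕ → ℝ) (ha0 : ∀ i j l, 0 ≤ a i j l)
    (ha : ∀ i j, HasSum (a i j) (A i j)) (m : ι → ℝ) (hm : ∀ i, 0 < m i)
    (h : ∀ i, ∑ j, A i j * m j < m i) :
    ∃ Bm : ι → ι → ℝ, (∀ i k, Bm i k = ∑ j, A i j * Bm j k + if i = k then 1 else 0) ∧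
      ∀ (θ K : ℝ) (u g : ι → ℕ × ℝ → ℂ),
        (∀ i (p : ℕ × ℝ), 1 ≤ p.1 → ‖u i p‖ ≤ K * (p.1 : ℝ) ^ (-(5 / 2) : ℝ)) →
        (∀ i, ∀ᶠ p in FF θ, ‖g i p‖ ≤ K) →
        (∀ i, Tendsto (fun p : ℕ × ℝ => g i (p.1 - 1, p.2) - g i p) (FF θ) (𝓝 0)) →
        (∀ i, Tendsto (fun p : ℕ × ℝ => (((p.1 : ℝ) ^ (5 / 2 : ℝ) : ℝ) : ℂ) * (u i p -
          ∑ j, ∑ l ∈ Finset.range ((p.1 + 1) / 2), (a i j l : ℂ) * u j (p.1 - l, p.2)) - g i p)
          (FF θ) (𝓝 0)) →
        ∀ i, Tendsto (fun p : ℕ × ℝ => (((p.1 : ℝ) ^ (5 / 2 : ℝ) : ℝ) : ℂ) * u i p -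
          ∑ k, (Bm i k : ℂ) * g k p) (FF θ) (𝓝 0) := by
  have hA : ∀ i j, 0 ≤ A i j := fun i j => (ha i j).nonneg (ha0 i j)
  obtain ⟨ε, C, hε, -, hC⟩ := contr_bound A hA m hm h
  have key : ∀ E : ι → ℝ, (∀ i, E i ≤ ∑ j, A i j * E j) → ∀ i, E i ≤ 0 := fun E hE i => by
    refine (hC E 0 le_rfl (fun i => (hE i).trans ?_) i).trans_eq (mul_zero _)
    rw [add_zero]
    exact Finset.sum_le_sum fun j _ => (mul_le_mul_of_nonneg_left (le_max_left _ _) (hA i j)).trans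
      (mul_le_mul_of_nonneg_right (by linarith) (le_max_right _ _))
  have hU : IsUnit (1 - Matrix.of A) := by
    rw [← Matrix.mulVec_injective_iff_isUnit]
    refine (injective_iff_map_eq_zero (Matrix.mulVecLin (1 - Matrix.of A))).2 fun x hx => ?_
    rw [Matrix.mulVecLin_apply, Matrix.sub_mulVec, Matrix.one_mulVec, sub_eq_zero] at hx
    funext i
    refine abs_nonpos_iff.1 (key (fun i => |x i|) (fun i => ?_) i)
    rw [congrFun hx i]
    refine (Finset.abs_sum_le_sum_abs _ _).trans_eq (Finset.sum_congr rfl fun j _ => ?_)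
    exact (abs_mul (A i j) (x j)).trans (by rw [abs_of_nonneg (hA i j)])
  obtain ⟨B, hB⟩ := hU.exists_right_inv
  have hB' : ∀ i k, B i k = ∑ j, A i j * B j k + if i = k then 1 else 0 := fun i k => by
    rw [sub_mul, one_mul, sub_eq_iff_eq_add'] at hB
    rw [congrFun (congrFun hB i) k, Matrix.add_apply, Matrix.one_apply, Matrix.mul_apply]
    rfl
  refine ⟨B, hB', fun θ K u g hu hg hs hr => ?_⟩
  have := FF_neBot θ
  set G : ι → ℕ × ℝ → ℂ := fun i p => ∑ k, (B i k : ℂ) * g k p with hG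
  have hG1 : ∀ i, ∀ᶠ p in FF θ, ‖G i p‖ ≤ ∑ k, |B i k| * K := fun i => by
    filter_upwards [eventually_all.2 hg] with p hp
    refine norm_sum_le_of_le _ fun k _ => ?_
    rw [norm_mul, Complex.norm_real, Real.norm_eq_abs]
    exact mul_le_mul_of_nonneg_left (hp k) (abs_nonneg _)
  have hG2 : ∀ i, Tendsto (fun p : ℕ × ℝ => G i (p.1 - 1, p.2) - G i p) (FF θ) (𝓝 0) := fun i => by
    have := tendsto_finsetSum Finset.univ fun k _ => (hs k).const_mul (B i k : ℂ)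
    simpa only [mul_zero, Finset.sum_const_zero, mul_sub, Finset.sum_sub_distrib] using this
  have hG3 : ∀ i p, G i p = ∑ j, A i j * G j p + g i p := fun i p => by
    simp only [hG, Finset.mul_sum]
    rw [Finset.sum_comm, Finset.sum_congr rfl fun k _ => by rw [hB' i k]]
    simp [add_mul, Finset.sum_add_distrib, Finset.sum_mul, mul_assoc, apply_ite Complex.ofReal]
  set w : ι → ℕ × ℝ → ℝ := fun i p =>
    ‖(((p.1 : ℝ) ^ (5 / 2 : ℝ) : ℝ) : ℂ) * u i p - G i p‖ with hw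
  have hw1 : ∀ i, IsBoundedUnder (· ≤ ·) (FF θ) (w i) := fun i => by
    refine isBoundedUnder_of_eventually_le (a := K + ∑ k, |B i k| * K) ?_
    filter_upwards [hG1 i, (FF_fst θ).eventually (eventually_ge_atTop 1)] with p a1 hp
    refine (norm_sub_le _ _).trans (add_le_add ?_ a1)
    have h1 : (0 : ℝ) < p.1 := by exact_mod_cast hp
    have h2 := Real.rpow_pos_of_pos h1 (5 / 2)
    rw [norm_mul, Complex.norm_real, Real.norm_of_nonneg h2.le]
    refine (mul_le_mul_of_nonneg_left (hu i p hp) h2.le).trans_eq ?_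
    rw [Real.rpow_neg h1.le]
    field_simp
  have hw2 : ∀ i, IsCoboundedUnder (· ≤ ·) (FF θ) (w i) := fun i =>
    isCoboundedUnder_le_of_le (FF θ) (x := 0) fun p => norm_nonneg _
  have hw3 : ∀ i η, 0 < η → ∀ᶠ p in FF θ, w i p ≤ limsup (w i) (FF θ) + η := fun i η hη =>
    (eventually_lt_of_limsup_lt (lt_add_of_pos_right _ hη) (hw1 i)).mono fun _ => le_of_lt
  have hw4 : ∀ i, 0 ≤ limsup (w i) (FF θ) := fun i =>
    le_limsup_of_frequently_le (Frequently.of_forall fun p => norm_nonneg _) (hw1 i)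
  have hw5 := key (fun i => limsup (w i) (FF θ)) fun i => by
    refine le_of_forall_pos_le_add fun η hη => limsup_le_of_le (hw2 i) ?_
    have hc : (0 : ℝ) < Fintype.card ι + 1 := by positivity
    have hη' := div_pos hη hc
    filter_upwards [eventually_all.2 fun j => linB_step (ha0 i j) (ha i j) (hu j) (hG1 j) (hG2 j)
      (hw4 j) (hw3 j) hη', (tendsto_zero_iff_norm_tendsto_zero.1 (hr i)).eventually
      (gt_mem_nhds hη')] with p a1 a2
    have a3 := norm_sum_le_of_le Finset.univ fun j _ => a1 j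
    rw [Finset.sum_add_distrib, Finset.sum_const, Finset.card_univ, nsmul_eq_mul,
      Finset.sum_sub_distrib, ← Finset.mul_sum] at a3
    have a4 := norm_add_le_of_le a2.le a3
    have e : η / (Fintype.card ι + 1) + Fintype.card ι * (η / (Fintype.card ι + 1)) = η := by
      field_simp
      ring
    rw [add_left_comm, e] at a4
    refine le_of_eq_of_le (congrArg norm ?_) a4
    rw [hG3 i p]
    ring
  intro i
  refine tendsto_zero_iff_norm_tendsto_zero.2 (tendsto_order.2 ⟨fun c hc =>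
    Eventually.of_forall fun p => hc.trans_le (norm_nonneg _), fun c hc => ?_⟩)
  filter_upwards [hw3 i (c / 2) (by linarith)] with p hp
  exact hp.trans_lt (by linarith [hw5 i])

end Pool.Agent.Lib.MP_77dff5_pr
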