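import Pool.Agent.Lib.MP_77dff5_pr.KernelA

/-! Local second moment bounds for a filled core. -/

set_option autoImplicit false

namespace Pool.Agent.Lib.MP_77dff5_pr

open MeasureTheory ProbabilityTheory Filter Topology
open scoped ENNReal NNReal

theorem local2B_psi_nonneg (K u : ℝ) : 0 ≤ psi K u := sq_nonneg _

theorem local2B_psi_le_sq {K : ℝ} (hK : 0 ≤ K) (u : ℝ) : psi K u ≤ u ^ 2 := by
  rw [psi, ← sq_abs u]
  exact pow_le_pow_left₀ (le_max_right _ _) (max_le (by linarith) (abs_nonneg u)) 2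

theorem local2B_psi_sum {m : ℕ} (K : ℝ) (u : Fin m → ℝ) :
    psi (m * K) (∑ a, u a) ≤ m * ∑ a, psi K (u a) := by
  have h1 : max (|∑ a, u a| - m * K) 0 ≤ ∑ a, max (|u a| - K) 0 := by
    refine max_le ?_ (Finset.sum_nonneg fun a _ => le_max_right _ _)
    calc |∑ a, u a| - m * K ≤ ∑ a, |u a| - m * K := by
          gcongr
          exact Finset.abs_sum_le_sum_abs _ _
      _ = ∑ a, (|u a| - K) := by simp [Finset.sum_sub_distrib]
      _ ≤ _ := Finset.sum_le_sum fun a _ => le_max_left _ _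
  calc psi (m * K) (∑ a, u a) ≤ (∑ a, max (|u a| - K) 0) ^ 2 :=
        pow_le_pow_left₀ (le_max_right _ _) h1 2
    _ ≤ _ := by
        have := sq_sum_le_card_mul_sum_sq (s := Finset.univ) (f := fun a => max (|u a| - K) 0)
        simpa [psi] using this

/-- a set with fewer than `m` elements misses one of `m` disjoint groups -/
theorem local2B_avoid {I : Type} {m r : ℕ} (f : Fin m × Fin r ↪ I) (D : Finset I)
    (hD : D.card < m) : ∃ a, ∀ j, f (a, j) ∉ D := by
  by_contra hn
  push Not at hn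
  choose j hj using hn
  have := Finset.card_le_card_of_injOn (s := Finset.univ) (t := D) (fun a => f (a, j a))
    (fun a _ => hj a) fun a _ b _ hab => (Prod.ext_iff.1 (f.injective hab)).1
  simp at this
  omega

section
variable {Ω I : Type} [Countable Ω] [MeasurableSpace Ω] [DiscreteMeasurableSpace Ω] [Fintype I]
  [DecidableEq I]

/-- a function that does not depend on the slots in `G`, integrated over a level set of the size -/
theorem local2B_indep (μ : I → Measure Ω) [∀ i, IsProbabilityMeasure (μ i)] (s : Ω → ℕ)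
    (G : Finset I) (F : (I → Ω) → ℝ) (hF0 : ∀ ω, 0 ≤ F ω) (hF : Integrable F (Measure.pi μ))
    (hG : ∀ ω' ω, F (G.piecewise ω' ω) = F ω) {q : ℝ}
    (hq : ∀ n : ℕ, (Measure.pi μ).real {ω | ∑ i ∈ G, s (ω i) = n} ≤ q) (s0 n : ℕ) :
    ∫ ω in {ω | s0 + ∑ i, s (ω i) = n}, F ω ∂Measure.pi μ ≤ q * ∫ ω, F ω ∂Measure.pi μ := by
  have hm := measurePreserving_piecewise μ G
  set T : Set (I → Ω) := {ω | s0 + ∑ i, s (ω i) = n} with hT
  have hTm : MeasurableSet T := MeasurableSet.of_discrete
  have hi : Integrable (T.indicator F) (Measure.pi μ) := hF.indicator hTm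
  have hi2 : Integrable (fun p : (I → Ω) × (I → Ω) => T.indicator F (G.piecewise p.1 p.2))
      ((Measure.pi μ).prod (Measure.pi μ)) := (hm.integrable_comp hi.aestronglyMeasurable).2 hi
  rw [← integral_indicator hTm, ← hm.map_eq, integral_map hm.measurable.aemeasurable
    (by rw [hm.map_eq]; exact hi.aestronglyMeasurable), integral_prod_symm _ hi2, hm.map_eq,
    ← integral_const_mul]
  refine integral_mono hi2.integral_prod_right (hF.const_mul q) fun ω => ?_
  have e : ∀ ω', T.indicator F (G.piecewise ω' ω) =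
      {ω' | G.piecewise ω' ω ∈ T}.indicator (fun _ => F ω) ω' := fun ω' => by
    by_cases h : G.piecewise ω' ω ∈ T
    · rw [Set.indicator_of_mem h, Set.indicator_of_mem (by exact h), hG]
    · rw [Set.indicator_of_notMem h, Set.indicator_of_notMem (by exact h)]
  simp only [e]
  rw [integral_indicator MeasurableSet.of_discrete, setIntegral_const, smul_eq_mul]
  refine mul_le_mul_of_nonneg_right ?_ (hF0 ω)
  refine le_trans (measureReal_mono fun ω' h => ?_) (hq (n - s0 - ∑ i ∈ Gᶜ, s (ω i)))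
  have h' : s0 + ∑ i, s (G.piecewise ω' ω i) = n := h
  rw [← Finset.sum_add_sum_compl G,
    Finset.sum_congr rfl fun i hi => congrArg s (Finset.piecewise_eq_of_mem G ω' ω hi),
    Finset.sum_congr (s₁ := Gᶜ) rfl fun i hi =>
      congrArg s (Finset.piecewise_eq_of_notMem G ω' ω (Finset.mem_compl.1 hi))] at h'
  change ∑ i ∈ G, s (ω' i) = _
  omega

end

variable {Ω J : Type} [Countable Ω] [MeasurableSpace Ω] [DiscreteMeasurableSpace Ω] [Fintype J]
  {ν : J → Measure Ω} {s : Ω → ℕ} {z : Ω → ℝ} {A c₀ : ℝ} {j₀ : J}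

theorem local_psi (h : Slots ν s z) (hc : 0 < c₀) (h4 : T4 (ν j₀) s c₀) (Δ : ℕ) (B : ℝ) {ε : ℝ}
    (hε : 0 < ε) :
    ∃ (K : ℝ) (k0 : ℕ), ∀ c : Core Ω J, c.Good Δ B → c.k ≤ Δ * c.cnt j₀ → k0 ≤ c.k → ∀ n : ℕ,
      ∫ ω in {ω | c.S s ω = n}, psi K ((c.Z z ω - c.L ν z) / √c.k) ∂c.P ν ≤
        ε * (c.k : ℝ) ^ (-(2 / 3) : ℝ) := by
  classical
  obtain ⟨C, hC⟩ := conc_le (s := s) hc
  obtain ⟨CV, hCV⟩ := Core.var_Y_le h Δ B
  obtain ⟨m, hm⟩ : ∃ m, m = Δ + 2 := ⟨_, rfl⟩
  have hm0 : (0 : ℝ) < m := by rw [hm]; positivity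
  set D : ℝ := 2 * m * (Δ + 1) with hD
  have hD0 : 0 < D := by positivity
  set C' : ℝ := (|C| + 1) * D ^ (2 / 3 : ℝ) with hC'
  have hC'0 : 0 < C' := by positivity
  obtain ⟨K, hK0, hK⟩ := Core.psi_Y_le h Δ B (ε := ε / (m * m * C')) (by positivity)
  refine ⟨m * K, Δ * m + 1, fun c hg hk hk0 n => ?_⟩
  have := h.prob
  have := Core.isProb h.prob c
  have hcm : m ≤ c.cnt j₀ := by
    by_contra hn
    have := Nat.mul_le_mul_left Δ (not_le.1 hn).le
    omega
  obtain ⟨r, hr⟩ : ∃ r, r = c.cnt j₀ / m := ⟨_, rfl⟩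
  have hr1 : 1 ≤ r := by rw [hr]; exact Nat.div_pos hcm (by omega)
  have hmr : m * r ≤ c.cnt j₀ := by rw [hr]; exact Nat.mul_div_le _ _
  have hmr' : c.cnt j₀ ≤ 2 * m * r := by
    have h1 : c.cnt j₀ < m * (r + 1) := by rw [hr]; exact Nat.lt_mul_div_succ _ (by omega)
    nlinarith
  obtain ⟨f₀⟩ : Nonempty (Fin m × Fin r ↪ {i // c.cls i = j₀}) := by
    apply Function.Embedding.nonempty_of_card_le
    rw [Fintype.card_prod, Fintype.card_fin, Fintype.card_fin, Fintype.card_eq_nat_card]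
    exact hmr
  set f : Fin m × Fin r ↪ c.I := f₀.trans (Function.Embedding.subtype _) with hf
  choose α hα using fun i : c.I => local2B_avoid f {i} (by simp; omega)
  choose β hβ using fun v : c.W => local2B_avoid f (c.dep v) (by have := hg.dep_card v; omega)
  set Y : Fin m → (c.I → Ω) → ℝ := fun a =>
    c.Y z (Finset.univ.filter fun i => α i = a) (Finset.univ.filter fun v => β v = a) with hY
  have hZ : ∀ ω, c.Z z ω = c.z0 + ∑ a, Y a ω := fun ω => by
    simp only [hY, Core.Y, Core.Z, Finset.sum_add_distrib, Finset.sum_fiberwise, add_assoc]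
  have hY2 : ∀ a, MemLp (Y a) 2 (c.P ν) := fun a => (hCV c hg _ _).1
  have hYi : ∀ a, Integrable (Y a) (c.P ν) := fun a => (hY2 a).integrable one_le_two
  have hL : c.L ν z = c.z0 + ∑ a, ∫ ω, Y a ω ∂c.P ν := by
    simp only [Core.L, hZ]
    rw [integral_add (integrable_const _) (integrable_finsetSum _ fun a _ => hYi a),
      integral_finsetSum _ fun a _ => hYi a]
    simp
  set F : Fin m → (c.I → Ω) → ℝ := fun a ω => psi K ((Y a ω - ∫ ω', Y a ω' ∂c.P ν) / √c.k)
    with hF
  have hFi : ∀ a, Integrable (F a) (c.P ν) := fun a => by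
    have h2 : MemLp (fun ω => (Y a ω - ∫ ω', Y a ω' ∂c.P ν) / √c.k) 2 (c.P ν) := by
      simp only [div_eq_mul_inv]
      exact ((hY2 a).sub (memLp_const _)).mul_const _
    refine h2.integrable_sq.mono' (Measurable.of_discrete).aestronglyMeasurable
      (Eventually.of_forall fun ω => ?_)
    rw [Real.norm_of_nonneg (local2B_psi_nonneg _ _)]
    exact local2B_psi_le_sq hK0 _
  have hpt : ∀ ω, psi (m * K) ((c.Z z ω - c.L ν z) / √c.k) ≤ m * ∑ a, F a ω := fun ω => by
    have : (c.Z z ω - c.L ν z) / √c.k = ∑ a, (Y a ω - ∫ ω', Y a ω' ∂c.P ν) / √c.k := by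
      rw [hZ, hL, ← Finset.sum_div, Finset.sum_sub_distrib]
      ring
    rw [this]
    exact local2B_psi_sum K _
  have hk1 : (0 : ℝ) < c.k := by exact_mod_cast (by omega : 0 < c.k)
  have hrk : (r : ℝ) ^ (-(2 / 3) : ℝ) ≤ D ^ (2 / 3 : ℝ) * (c.k : ℝ) ^ (-(2 / 3) : ℝ) := by
    have h1 : (c.k : ℝ) / D ≤ r := by
      rw [div_le_iff₀ hD0, hD]
      have : c.k ≤ r * (2 * m * (Δ + 1)) := by nlinarith
      exact_mod_cast this
    refine (Real.rpow_le_rpow_of_nonpos (by positivity) h1 (by norm_num)).trans (le_of_eq ?_)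
    rw [Real.div_rpow hk1.le hD0.le, Real.rpow_neg hD0.le]
    field_simp
  have hone : ∀ a, ∫ ω in {ω | c.S s ω = n}, F a ω ∂c.P ν ≤
      C' * (c.k : ℝ) ^ (-(2 / 3) : ℝ) * (ε / (m * m * C')) := fun a => by
    set G : Finset c.I := Finset.univ.image fun j => f (a, j) with hG
    have hGc : G.card = r := by
      rw [hG, Finset.card_image_of_injective _ fun j j' hj => (Prod.ext_iff.1 (f.injective hj)).2]
      simp
    have hq : ∀ n : ℕ, (Measure.pi fun i => ν (c.cls i)).real {ω | ∑ i ∈ G, s (ω i) = n} ≤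
        C' * (c.k : ℝ) ^ (-(2 / 3) : ℝ) := fun n => by
      refine (hC c.I (fun i => ν (c.cls i)) G (fun i hi => ?_)
        (Finset.card_pos.1 (by omega)) G subset_rfl n).trans ?_
      · obtain ⟨j, -, rfl⟩ := Finset.mem_image.1 hi
        have : c.cls (f (a, j)) = j₀ := (f₀ (a, j)).2
        rw [this]
        exact h4
      · rw [hGc, hC', mul_assoc]
        have := le_abs_self C
        gcongr
        linarith
    have hind : ∀ ω' ω, F a (G.piecewise ω' ω) = F a ω := fun ω' ω => by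
      have : Y a (G.piecewise ω' ω) = Y a ω := by
        simp only [hY, Core.Y]
        congr 1
        · refine Finset.sum_congr rfl fun i hi => ?_
          rw [Finset.piecewise_eq_of_notMem]
          intro hiG
          obtain ⟨j, -, hj⟩ := Finset.mem_image.1 hiG
          obtain rfl := (Finset.mem_filter.1 hi).2
          exact hα i j (Finset.mem_singleton.2 hj)
        · refine Finset.sum_congr rfl fun v hv => c.g_dep _ _ _ fun i hi => ?_
          rw [Finset.piecewise_eq_of_notMem]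
          intro hiG
          obtain ⟨j, -, rfl⟩ := Finset.mem_image.1 hiG
          obtain rfl := (Finset.mem_filter.1 hv).2
          exact hβ v j hi
      simp only [hF, this]
    refine (local2B_indep (fun i => ν (c.cls i)) s G (F a) (fun ω => local2B_psi_nonneg _ _)
      (hFi a) hind hq c.s0 n).trans ?_
    exact mul_le_mul_of_nonneg_left (hK c hg _ _ _ le_rfl) (by positivity)
  calc _ ≤ ∫ ω in {ω | c.S s ω = n}, m * ∑ a, F a ω ∂c.P ν :=
        integral_mono_of_nonneg (Eventually.of_forall fun ω => local2B_psi_nonneg _ _)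
          ((integrable_finsetSum _ fun a _ => hFi a).const_mul _).integrableOn
          (Eventually.of_forall hpt)
    _ = m * ∑ a, ∫ ω in {ω | c.S s ω = n}, F a ω ∂c.P ν := by
        rw [integral_const_mul, integral_finsetSum _ fun a _ => (hFi a).integrableOn]
    _ ≤ m * ∑ _a : Fin m, C' * (c.k : ℝ) ^ (-(2 / 3) : ℝ) * (ε / (m * m * C')) := by
        gcongr with a
        exact hone a
    _ = _ := by
        simp only [Finset.sum_const, Finset.card_univ, Fintype.card_fin, nsmul_eq_mul]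
        field_simp

end Pool.Agent.Lib.MP_77dff5_pr
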