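import Pool.Agent.Lib.MP_77dff5_pr.WinCAux1

/-! Real inequalities for the estimates of the large part. -/

set_option autoImplicit false

namespace Pool.Agent.Lib.MP_77dff5_pr

open MeasureTheory Filter Topology
open scoped ENNReal NNReal

theorem winC_psi_nonneg (K u : ℝ) : 0 ≤ psi K u := sq_nonneg _

theorem winC_psi_continuous (K : ℝ) : Continuous (psi K) := by
  unfold psi
  fun_prop

theorem winC_psi_le_sq {K : ℝ} (hK : 0 ≤ K) (u : ℝ) : psi K u ≤ u ^ 2 := by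
  unfold psi
  rw [← sq_abs u]
  exact pow_le_pow_left₀ (le_max_right _ _) (max_le (by linarith) (abs_nonneg u)) 2

theorem winC_psi_le_abs (K u : ℝ) : psi K u ≤ 2 * u ^ 2 + 2 * K ^ 2 := by
  unfold psi
  rw [← sq_abs u]
  rcases le_total (|u| - K) 0 with h | h
  · rw [max_eq_right h]
    nlinarith [sq_nonneg |u|, sq_nonneg K]
  · rw [max_eq_left h]
    nlinarith [sq_nonneg (|u| + K)]

theorem winC_psi_le_four {K : ℝ} (hK : 0 < K) (u : ℝ) : psi K u ≤ u ^ 4 / K ^ 2 := by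
  unfold psi
  have h4 : u ^ 4 = (|u| ^ 2) ^ 2 := by rw [sq_abs]; ring
  rw [h4, ← div_pow]
  refine pow_le_pow_left₀ (le_max_right _ _) (max_le ?_ (by positivity)) 2
  rw [le_div_iff₀ hK]
  nlinarith [sq_nonneg (|u| - K), abs_nonneg u]

theorem winC_psi_add (K a b : ℝ) : psi K (a + b) ≤ 2 * psi (K / 2) a + 2 * psi (K / 2) b := by
  unfold psi
  have h1 : max (|a + b| - K) 0 ≤ max (|a| - K / 2) 0 + max (|b| - K / 2) 0 := by
    refine max_le ?_ (add_nonneg (le_max_right _ _) (le_max_right _ _))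
    have := abs_add_le a b
    have := le_max_left (|a| - K / 2) 0
    have := le_max_left (|b| - K / 2) 0
    linarith
  have h2 := pow_le_pow_left₀ (le_max_right _ _) h1 2
  nlinarith [sq_nonneg (max (|a| - K / 2) 0 - max (|b| - K / 2) 0)]

theorem winC_psi_anti {K K' : ℝ} (h : K ≤ K') (u : ℝ) : psi K' u ≤ psi K u := by
  unfold psi
  exact pow_le_pow_left₀ (le_max_right _ _) (max_le_max (by linarith) le_rfl) 2

theorem winC_psi_zero_le {K : ℝ} (hK : 0 ≤ K) (u : ℝ) : psi 0 u ≤ 2 * psi K u + 2 * K ^ 2 := by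
  unfold psi
  have h1 : max (|u| - 0) 0 ≤ max (|u| - K) 0 + K := by
    refine max_le ?_ (add_nonneg (le_max_right _ _) hK)
    have := le_max_left (|u| - K) 0
    linarith
  have h2 := pow_le_pow_left₀ (le_max_right _ _) h1 2
  nlinarith [sq_nonneg (max (|u| - K) 0 - K)]

theorem winC_psi_scale {K κ E k x : ℝ} (hk : 0 < k) (hx : 0 < x) (hE : 0 ≤ E) (hkx : k ≤ E * x)
    (hκ : √E * K ≤ κ) (v : ℝ) : psi κ (v / √x) ≤ E * psi K (v / √k) := by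
  unfold psi
  have hsx : 0 < √x := Real.sqrt_pos.2 hx
  have hsk : 0 < √k := Real.sqrt_pos.2 hk
  have h0 : √k ≤ √E * √x := by
    rw [← Real.sqrt_mul hE]
    exact Real.sqrt_le_sqrt hkx
  have h1 : |v / √x| ≤ √E * |v / √k| := by
    rw [abs_div, abs_div, abs_of_pos hsx, abs_of_pos hsk, ← mul_div_assoc, div_le_div_iff₀ hsx hsk]
    have := mul_le_mul_of_nonneg_left h0 (abs_nonneg v)
    linarith
  have h2 : max (|v / √x| - κ) 0 ≤ √E * max (|v / √k| - K) 0 := by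
    refine max_le ?_ (mul_nonneg (Real.sqrt_nonneg _) (le_max_right _ _))
    have := mul_le_mul_of_nonneg_left (le_max_left (|v / √k| - K) 0) (Real.sqrt_nonneg E)
    linarith
  have h3 := pow_le_pow_left₀ (le_max_right _ _) h2 2
  rwa [mul_pow, Real.sq_sqrt hE] at h3

theorem winC_b_eq1 (η C x p : ℝ) : winC_b (-(11 / 6)) η C x p =
    η * (x ^ (-(2 / 3) : ℝ) * winC_gm x p) + C * (x ^ (-(12 / 5) : ℝ) * p ^ (4 / 3 : ℝ)) := by
  unfold winC_b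
  have e1 : (-(5 / 2) - -(11 / 6) : ℝ) = -(2 / 3) := by norm_num
  have e2 : (-(1 / 2) - -(11 / 6) : ℝ) = 4 / 3 := by norm_num
  rw [e1, e2]
  ring

theorem winC_b_eq2 (η C x p : ℝ) : winC_b (1 / 6) η C x p =
    η * (x ^ (-(8 / 3) : ℝ) * winC_gm x p) + C * (x ^ (-(12 / 5) : ℝ) * p ^ (-(2 / 3) : ℝ)) := by
  unfold winC_b
  have e1 : (-(5 / 2) - 1 / 6 : ℝ) = -(8 / 3) := by norm_num
  have e2 : (-(1 / 2) - 1 / 6 : ℝ) = -(2 / 3) := by norm_num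
  rw [e1, e2]
  ring

/-- the setting of the pointwise estimates -/
structure winC_Set (D x k y : ℝ) : Prop where
  hD : 1 ≤ D
  hx : 2 ≤ x
  hk : 1 ≤ k
  hy : 1 ≤ y
  ky : k ≤ D * y
  yk : y ≤ D * k
  lg : x ^ (9 / 10 : ℝ) ≤ k

/-- the local profile at scale `k ^ (2 / 3)` -/
noncomputable def winC_G1 (x k y : ℝ) : ℝ := (1 + |x - y| / k ^ (2 / 3 : ℝ)) ^ (-(3 / 2) : ℝ)

/-- the slowly decaying profile -/
noncomputable def winC_G2 (x y : ℝ) : ℝ := (1 + |x - y|) ^ (-(1 / 2) : ℝ)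

variable {D x k y : ℝ}

theorem winC_out_dist (hx : 0 ≤ x) (hm : ¬(x / 2 ≤ y ∧ y ≤ 2 * x)) : x / 2 ≤ |x - y| := by
  rw [not_and_or, not_le, not_le] at hm
  rcases hm with h | h
  · exact le_trans (by linarith) (le_abs_self _)
  · exact le_trans (by linarith) (neg_le_abs _)

theorem winC_two_rpow_le {a : ℝ} (ha : a ≤ 2) : (2 : ℝ) ^ a ≤ 4 := by
  calc (2 : ℝ) ^ a ≤ (2 : ℝ) ^ (2 : ℝ) := Real.rpow_le_rpow_of_exponent_le (by norm_num) ha
    _ = 4 := by norm_num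

theorem winC_Set.out_G1 (h : winC_Set D x k y) (hm : ¬(x / 2 ≤ y ∧ y ≤ 2 * x)) :
    winC_G1 x k y ≤ 4 * k * x ^ (-(3 / 2) : ℝ) := by
  have hx : 0 < x := by linarith [h.hx]
  have hk : 0 < k := by linarith [h.hk]
  have hd := winC_out_dist hx.le hm
  have hk23 : 0 < k ^ (2 / 3 : ℝ) := by positivity
  have h1 : x / 2 / k ^ (2 / 3 : ℝ) ≤ 1 + |x - y| / k ^ (2 / 3 : ℝ) := by
    have : x / 2 / k ^ (2 / 3 : ℝ) ≤ |x - y| / k ^ (2 / 3 : ℝ) := by gcongr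
    linarith
  refine le_trans (Real.rpow_le_rpow_of_nonpos (by positivity) h1 (by norm_num)) ?_
  rw [Real.div_rpow (by positivity) hk23.le, Real.div_rpow hx.le (by norm_num),
    ← Real.rpow_mul hk.le, Real.rpow_neg (by norm_num : (0 : ℝ) ≤ 2), div_inv_eq_mul]
  have e1 : (2 / 3 * -(3 / 2) : ℝ) = -1 := by norm_num
  rw [e1, Real.rpow_neg_one, div_inv_eq_mul]
  have := winC_two_rpow_le (a := 3 / 2) (by norm_num)
  have h2 : 0 ≤ x ^ (-(3 / 2) : ℝ) * k := by positivity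
  nlinarith

theorem winC_Set.out_G2 (h : winC_Set D x k y) (hm : ¬(x / 2 ≤ y ∧ y ≤ 2 * x)) :
    winC_G2 x y ≤ 4 * x ^ (-(1 / 2) : ℝ) := by
  have hx : 0 < x := by linarith [h.hx]
  have hd := winC_out_dist hx.le hm
  refine le_trans (Real.rpow_le_rpow_of_nonpos (by positivity : 0 < x / 2) (by linarith)
    (by norm_num)) ?_
  rw [Real.div_rpow hx.le (by norm_num), Real.rpow_neg (by norm_num : (0 : ℝ) ≤ 2), div_inv_eq_mul]
  have := winC_two_rpow_le (a := 1 / 2) (by norm_num)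
  have h2 : 0 ≤ x ^ (-(1 / 2) : ℝ) := by positivity
  nlinarith

theorem winC_rpow_le_sq (hD : 1 ≤ D) {a : ℝ} (ha : a ≤ 2) : D ^ a ≤ D ^ 2 := by
  rw [← Real.rpow_natCast]
  exact Real.rpow_le_rpow_of_exponent_le hD (by simpa using ha)

theorem winC_rpow_le_self (hD : 1 ≤ D) {a : ℝ} (ha : a ≤ 1) : D ^ a ≤ D := by
  simpa using Real.rpow_le_rpow_of_exponent_le hD ha

theorem winC_Set.k43 (h : winC_Set D x k y) : k ^ (4 / 3 : ℝ) ≤ D ^ 2 * y ^ (4 / 3 : ℝ) := by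
  have hk : 0 < k := by linarith [h.hk]
  have hy : 0 < y := by linarith [h.hy]
  have hD : 0 < D := by linarith [h.hD]
  refine le_trans (Real.rpow_le_rpow hk.le h.ky (by norm_num)) ?_
  rw [Real.mul_rpow hD.le hy.le]
  gcongr
  exact winC_rpow_le_sq h.hD (by norm_num)

theorem winC_Set.k13 (h : winC_Set D x k y) : k ^ (1 / 3 : ℝ) ≤ D * y ^ (1 / 3 : ℝ) := by
  have hk : 0 < k := by linarith [h.hk]
  have hy : 0 < y := by linarith [h.hy]
  have hD : 0 < D := by linarith [h.hD]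
  refine le_trans (Real.rpow_le_rpow hk.le h.ky (by norm_num)) ?_
  rw [Real.mul_rpow hD.le hy.le]
  gcongr
  exact winC_rpow_le_self h.hD (by norm_num)

theorem winC_Set.x52 (h : winC_Set D x k y) : x ^ (-(5 / 2) : ℝ) ≤ x ^ (-(12 / 5) : ℝ) :=
  Real.rpow_le_rpow_of_exponent_le (by linarith [h.hx]) (by norm_num)

theorem winC_Set.out3 (h : winC_Set D x k y) :
    k ^ (1 / 3 : ℝ) * x ^ (-(3 / 2) : ℝ) ≤ D ^ 2 * (x ^ (-(12 / 5) : ℝ) * y ^ (4 / 3 : ℝ)) := by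
  have hx : 0 < x := by linarith [h.hx]
  have hk : 0 < k := by linarith [h.hk]
  have e1 : x ^ (-(3 / 2) : ℝ) = x ^ (-(12 / 5) : ℝ) * x ^ (9 / 10 : ℝ) := by
    rw [← Real.rpow_add hx]
    norm_num
  have e2 : k ^ (4 / 3 : ℝ) = k ^ (1 / 3 : ℝ) * k := by
    rw [← Real.rpow_add_one hk.ne']
    norm_num
  calc k ^ (1 / 3 : ℝ) * x ^ (-(3 / 2) : ℝ)
      = k ^ (1 / 3 : ℝ) * (x ^ (-(12 / 5) : ℝ) * x ^ (9 / 10 : ℝ)) := by rw [e1]
    _ ≤ k ^ (1 / 3 : ℝ) * (x ^ (-(12 / 5) : ℝ) * k) := by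
        gcongr
        exact h.lg
    _ = x ^ (-(12 / 5) : ℝ) * k ^ (4 / 3 : ℝ) := by rw [e2]; ring
    _ ≤ x ^ (-(12 / 5) : ℝ) * (D ^ 2 * y ^ (4 / 3 : ℝ)) := by
        gcongr
        exact h.k43
    _ = _ := by ring

theorem winC_Set.mid_kx (h : winC_Set D x k y) (hm : x / 2 ≤ y ∧ y ≤ 2 * x) : k ≤ 2 * D * x := by
  have := h.ky
  have := mul_le_mul_of_nonneg_left hm.2 (by linarith [h.hD] : 0 ≤ D)
  linarith

theorem winC_Set.mid_xk (h : winC_Set D x k y) (hm : x / 2 ≤ y ∧ y ≤ 2 * x) : x ≤ 2 * D * k := by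
  have := h.yk
  linarith [hm.1]

theorem winC_Set.mid_k23 (h : winC_Set D x k y) (hm : x / 2 ≤ y ∧ y ≤ 2 * x) :
    k ^ (-(2 / 3) : ℝ) ≤ 2 * D * x ^ (-(2 / 3) : ℝ) := by
  have hx : 0 < x := by linarith [h.hx]
  have hD : 0 < 2 * D := by linarith [h.hD]
  have h1 : x / (2 * D) ≤ k := by
    rw [div_le_iff₀ hD, mul_comm]
    exact h.mid_xk hm
  refine le_trans (Real.rpow_le_rpow_of_nonpos (by positivity) h1 (by norm_num)) ?_
  rw [Real.div_rpow hx.le hD.le, Real.rpow_neg hD.le, div_inv_eq_mul, mul_comm]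
  gcongr
  exact winC_rpow_le_self (by linarith [h.hD]) (by norm_num)

theorem winC_Set.mid_k13 (h : winC_Set D x k y) (hm : x / 2 ≤ y ∧ y ≤ 2 * x) :
    k ^ (1 / 3 : ℝ) ≤ 2 * D * x ^ (1 / 3 : ℝ) := by
  have hx : 0 < x := by linarith [h.hx]
  have hk : 0 < k := by linarith [h.hk]
  have hD : 0 < 2 * D := by linarith [h.hD]
  refine le_trans (Real.rpow_le_rpow hk.le (h.mid_kx hm) (by norm_num)) ?_
  rw [Real.mul_rpow hD.le hx.le]
  gcongr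
  exact winC_rpow_le_self (by linarith [h.hD]) (by norm_num)

theorem winC_Set.mid_G1 (h : winC_Set D x k y) (hm : x / 2 ≤ y ∧ y ≤ 2 * x) :
    winC_G1 x k y ≤ 2 * D * (1 + |x - y| / x ^ (2 / 3 : ℝ)) ^ (-(3 / 2) : ℝ) := by
  have hx : 0 < x := by linarith [h.hx]
  have hk : 0 < k := by linarith [h.hk]
  have hD1 : 1 ≤ 2 * D := by linarith [h.hD]
  have hD : 0 < 2 * D := by linarith
  have hE : 1 ≤ (2 * D) ^ (2 / 3 : ℝ) := Real.one_le_rpow hD1 (by norm_num)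
  have h0 : k ^ (2 / 3 : ℝ) ≤ x ^ (2 / 3 : ℝ) * (2 * D) ^ (2 / 3 : ℝ) := by
    rw [← Real.mul_rpow hx.le hD.le, mul_comm]
    exact Real.rpow_le_rpow hk.le (h.mid_kx hm) (by norm_num)
  have h1 : (1 + |x - y| / x ^ (2 / 3 : ℝ)) / (2 * D) ^ (2 / 3 : ℝ) ≤
      1 + |x - y| / k ^ (2 / 3 : ℝ) := by
    rw [add_div, div_div]
    refine add_le_add (div_le_one_of_le₀ hE (by positivity)) ?_
    gcongr
  refine le_trans (Real.rpow_le_rpow_of_nonpos (by positivity) h1 (by norm_num)) ?_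
  rw [Real.div_rpow (by positivity) (by positivity), ← Real.rpow_mul hD.le]
  have e1 : (2 / 3 * -(3 / 2) : ℝ) = -1 := by norm_num
  rw [e1, Real.rpow_neg_one, div_inv_eq_mul, mul_comm]

theorem winC_gm_far (hx : 0 < x) (hm : x / 2 ≤ y ∧ y ≤ 2 * x) {R : ℝ} (hR : 0 ≤ R)
    (hu : R ≤ |x - y| / x ^ (2 / 3 : ℝ)) :
    (1 + |x - y| / x ^ (2 / 3 : ℝ)) ^ (-(3 / 2) : ℝ) ≤ (1 + R) ^ (-(1 / 4) : ℝ) * winC_gm x y := by
  unfold winC_gm
  rw [if_pos hm]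
  have h0 : 0 < 1 + |x - y| / x ^ (2 / 3 : ℝ) := by positivity
  have e1 : (1 + |x - y| / x ^ (2 / 3 : ℝ)) ^ (-(3 / 2) : ℝ) =
      (1 + |x - y| / x ^ (2 / 3 : ℝ)) ^ (-(1 / 4) : ℝ) *
        (1 + |x - y| / x ^ (2 / 3 : ℝ)) ^ (-(5 / 4) : ℝ) := by
    rw [← Real.rpow_add h0]
    norm_num
  rw [e1]
  gcongr ?_ * _
  exact Real.rpow_le_rpow_of_nonpos (by positivity) (by linarith) (by norm_num)

theorem winC_gm_near (hx : 0 < x) (hm : x / 2 ≤ y ∧ y ≤ 2 * x) {R : ℝ}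
    (hu : |x - y| / x ^ (2 / 3 : ℝ) ≤ R) : 1 ≤ (1 + R) ^ (5 / 4 : ℝ) * winC_gm x y := by
  unfold winC_gm
  rw [if_pos hm]
  have h0 : 0 < 1 + |x - y| / x ^ (2 / 3 : ℝ) := by positivity
  rw [Real.rpow_neg h0.le, ← div_eq_mul_inv, one_le_div (by positivity)]
  exact Real.rpow_le_rpow h0.le (by linarith) (by norm_num)

theorem winC_gm_G2 (hx : 0 < x) (hm : x / 2 ≤ y ∧ y ≤ 2 * x)
    (hu : 1 ≤ |x - y| / x ^ (2 / 3 : ℝ)) :
    winC_G2 x y ≤ 4 * x ^ (-(1 / 12) : ℝ) * winC_gm x y := by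
  unfold winC_gm winC_G2
  rw [if_pos hm]
  have hx23 : 0 < x ^ (2 / 3 : ℝ) := by positivity
  set u := |x - y| / x ^ (2 / 3 : ℝ) with hudef
  have hu0 : 0 < u := by linarith
  have hd : |x - y| = u * x ^ (2 / 3 : ℝ) := by rw [hudef]; field_simp
  have hdx : |x - y| ≤ x := abs_le.2 ⟨by linarith [hm.2], by linarith [hm.1]⟩
  have hux : u ≤ x ^ (1 / 3 : ℝ) := by
    rw [hudef, div_le_iff₀ hx23, ← Real.rpow_add hx]
    norm_num
    exact hdx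
  have h1 : (1 + |x - y|) ^ (-(1 / 2) : ℝ) ≤ u ^ (-(1 / 2) : ℝ) * x ^ (-(1 / 3) : ℝ) := by
    refine le_trans (Real.rpow_le_rpow_of_nonpos (x := u * x ^ (2 / 3 : ℝ)) (by positivity)
      (by linarith) (by norm_num)) (le_of_eq ?_)
    rw [Real.mul_rpow hu0.le hx23.le, ← Real.rpow_mul hx.le]
    norm_num
  have h2 : (2 * u) ^ (-(5 / 4) : ℝ) ≤ (1 + u) ^ (-(5 / 4) : ℝ) :=
    Real.rpow_le_rpow_of_nonpos (by positivity) (by linarith) (by norm_num)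
  have h3 : x ^ (-(1 / 4) : ℝ) ≤ u ^ (-(3 / 4) : ℝ) := by
    refine le_trans (le_of_eq ?_) (Real.rpow_le_rpow_of_nonpos hu0 hux (by norm_num))
    rw [← Real.rpow_mul hx.le]
    norm_num
  have h4 : 1 ≤ 4 * (2 : ℝ) ^ (-(5 / 4) : ℝ) := by
    rw [Real.rpow_neg (by norm_num), ← div_eq_mul_inv, one_le_div (by positivity)]
    exact winC_two_rpow_le (by norm_num)
  have e1 : x ^ (-(1 / 3) : ℝ) = x ^ (-(1 / 12) : ℝ) * x ^ (-(1 / 4) : ℝ) := by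
    rw [← Real.rpow_add hx]
    norm_num
  have e2 : u ^ (-(5 / 4) : ℝ) = u ^ (-(1 / 2) : ℝ) * u ^ (-(3 / 4) : ℝ) := by
    rw [← Real.rpow_add hu0]
    norm_num
  rw [Real.mul_rpow (by norm_num) hu0.le, e2] at h2
  refine h1.trans ?_
  calc u ^ (-(1 / 2) : ℝ) * x ^ (-(1 / 3) : ℝ)
      = 1 * (x ^ (-(1 / 12) : ℝ) * (u ^ (-(1 / 2) : ℝ) * x ^ (-(1 / 4) : ℝ))) := by rw [e1]; ring
    _ ≤ (4 * (2 : ℝ) ^ (-(5 / 4) : ℝ)) *
        (x ^ (-(1 / 12) : ℝ) * (u ^ (-(1 / 2) : ℝ) * u ^ (-(3 / 4) : ℝ))) := by gcongr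
    _ = 4 * x ^ (-(1 / 12) : ℝ) *
        ((2 : ℝ) ^ (-(5 / 4) : ℝ) * (u ^ (-(1 / 2) : ℝ) * u ^ (-(3 / 4) : ℝ))) := by ring
    _ ≤ _ := by gcongr

theorem winC_Set.mid_kap (h : winC_Set D x k y) (hm : x / 2 ≤ y ∧ y ≤ 2 * x) :
    k ^ (-(2 / 3) : ℝ) * winC_G1 x k y ≤ 4 * D ^ 2 * (x ^ (-(2 / 3) : ℝ) * winC_gm x y) := by
  have hx : 0 < x := by linarith [h.hx]
  have hk : 0 < k := by linarith [h.hk]
  have hD : 0 < D := by linarith [h.hD]
  have h1 := winC_gm_far hx hm le_rfl (by positivity)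
  simp only [add_zero, Real.one_rpow, one_mul] at h1
  have h2 : winC_G1 x k y ≤ 2 * D * winC_gm x y :=
    (h.mid_G1 hm).trans (mul_le_mul_of_nonneg_left h1 (by positivity))
  have h3 : 0 ≤ winC_G1 x k y := by unfold winC_G1; positivity
  calc k ^ (-(2 / 3) : ℝ) * winC_G1 x k y
      ≤ (2 * D * x ^ (-(2 / 3) : ℝ)) * (2 * D * winC_gm x y) :=
        mul_le_mul (h.mid_k23 hm) h2 h3 (by positivity)
    _ = _ := by ring

theorem winC_Set.out_kap (h : winC_Set D x k y) (hm : ¬(x / 2 ≤ y ∧ y ≤ 2 * x)) :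
    k ^ (-(2 / 3) : ℝ) * winC_G1 x k y ≤ 4 * (k ^ (1 / 3 : ℝ) * x ^ (-(3 / 2) : ℝ)) := by
  have hk : 0 < k := by linarith [h.hk]
  have e2 : k ^ (1 / 3 : ℝ) = k ^ (-(2 / 3) : ℝ) * k := by
    rw [← Real.rpow_add_one hk.ne']
    norm_num
  calc k ^ (-(2 / 3) : ℝ) * winC_G1 x k y
      ≤ k ^ (-(2 / 3) : ℝ) * (4 * k * x ^ (-(3 / 2) : ℝ)) :=
        mul_le_mul_of_nonneg_left (h.out_G1 hm) (by positivity)
    _ = _ := by rw [e2]; ring

/-- the bound for the local kernel -/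
theorem winC_Set.kap (h : winC_Set D x k y) {C : ℝ} (hC : 0 ≤ C) :
    C * (k ^ (-(2 / 3) : ℝ) * winC_G1 x k y) ≤
      winC_b (-(11 / 6)) (4 * D ^ 2 * C) (4 * D ^ 2 * C) x y := by
  have hx : 0 < x := by linarith [h.hx]
  have hy : 0 < y := by linarith [h.hy]
  have hg := winC_gm_nonneg hx.le y
  rw [winC_b_eq1]
  have p1 : 0 ≤ 4 * D ^ 2 * C * (x ^ (-(2 / 3) : ℝ) * winC_gm x y) := by positivity
  have p2 : 0 ≤ 4 * D ^ 2 * C * (x ^ (-(12 / 5) : ℝ) * y ^ (4 / 3 : ℝ)) := by positivity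
  by_cases hm : x / 2 ≤ y ∧ y ≤ 2 * x
  · have := mul_le_mul_of_nonneg_left (h.mid_kap hm) hC
    linarith
  · have h1 := mul_le_mul_of_nonneg_left (h.out_kap hm) hC
    have h2 := mul_le_mul_of_nonneg_left h.out3 hC
    linarith

/-- the bound for the mean value -/
theorem winC_Set.mean (h : winC_Set D x k y) {C η κ : ℝ} (hC : 0 ≤ C) (hη : 0 < η)
    (hκ : 1 + 4 * D ^ 2 * C / η ≤ κ) (L : ℝ) :
    psi κ (L / √x) * (C * (k ^ (-(2 / 3) : ℝ) * winC_G1 x k y)) ≤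
      winC_b (-(11 / 6)) 0 (4 * D * C) x y + L ^ 4 * winC_b (1 / 6) η (4 * D * C) x y := by
  have hx : 0 < x := by linarith [h.hx]
  have hy : 0 < y := by linarith [h.hy]
  have hk : 0 < k := by linarith [h.hk]
  have hD : 0 < D := by linarith [h.hD]
  have hg := winC_gm_nonneg hx.le y
  have hq : 0 ≤ 4 * D ^ 2 * C / η := by positivity
  have hκ1 : 1 ≤ κ := by linarith
  have hL4 : 0 ≤ L ^ 4 := by positivity
  have hG : 0 ≤ winC_G1 x k y := by unfold winC_G1; positivity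
  rw [winC_b_eq1, winC_b_eq2, zero_mul, zero_add, mul_add]
  have p1 : 0 ≤ L ^ 4 * (η * (x ^ (-(8 / 3) : ℝ) * winC_gm x y)) := by positivity
  have p2 : 0 ≤ 4 * D * C * (x ^ (-(12 / 5) : ℝ) * y ^ (4 / 3 : ℝ)) := by positivity
  have p3 : 0 ≤ L ^ 4 * (4 * D * C * (x ^ (-(12 / 5) : ℝ) * y ^ (-(2 / 3) : ℝ))) := by positivity
  by_cases hm : x / 2 ≤ y ∧ y ≤ 2 * x
  · have h1 : psi κ (L / √x) ≤ L ^ 4 / x ^ 2 / κ ^ 2 := by
      refine (winC_psi_le_four (by linarith) _).trans (le_of_eq ?_)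
      rw [div_pow, show (√x) ^ 4 = ((√x) ^ 2) ^ 2 by ring, Real.sq_sqrt hx.le]
    have h2 : 4 * D ^ 2 * C / κ ^ 2 ≤ η := by
      rw [div_le_iff₀ (by positivity)]
      have : 4 * D ^ 2 * C / η ≤ κ ^ 2 := by nlinarith
      rw [div_le_iff₀ hη] at this
      linarith
    have e1 : x ^ (-(8 / 3) : ℝ) = x ^ (-(2 / 3) : ℝ) / x ^ 2 := by
      rw [← Real.rpow_natCast, ← Real.rpow_sub hx]
      norm_num
    have h3 : psi κ (L / √x) * (C * (k ^ (-(2 / 3) : ℝ) * winC_G1 x k y)) ≤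
        L ^ 4 * (η * (x ^ (-(8 / 3) : ℝ) * winC_gm x y)) := by
      calc psi κ (L / √x) * (C * (k ^ (-(2 / 3) : ℝ) * winC_G1 x k y))
          ≤ (L ^ 4 / x ^ 2 / κ ^ 2) * (C * (4 * D ^ 2 * (x ^ (-(2 / 3) : ℝ) * winC_gm x y))) :=
            mul_le_mul h1 (mul_le_mul_of_nonneg_left (h.mid_kap hm) hC) (by positivity)
              (by positivity)
        _ = L ^ 4 * ((4 * D ^ 2 * C / κ ^ 2) * (x ^ (-(8 / 3) : ℝ) * winC_gm x y)) := by
            rw [e1]; ring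
        _ ≤ _ := by gcongr
    linarith
  · have h1 : psi κ (L / √x) ≤ (y + L ^ 4 / y) / x := by
      refine (winC_psi_le_sq (by linarith) _).trans ?_
      rw [div_pow, Real.sq_sqrt hx.le]
      gcongr
      rw [← sub_le_iff_le_add', le_div_iff₀ hy]
      nlinarith [sq_nonneg (L ^ 2 - y), sq_nonneg y, sq_nonneg (L ^ 2)]
    have e1 : x ^ (-(5 / 2) : ℝ) = x ^ (-(3 / 2) : ℝ) / x := by
      rw [← Real.rpow_sub_one hx.ne']
      norm_num
    have e2 : y ^ (4 / 3 : ℝ) = y ^ (1 / 3 : ℝ) * y := by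
      rw [← Real.rpow_add_one hy.ne']
      norm_num
    have e3 : y ^ (-(2 / 3) : ℝ) = y ^ (1 / 3 : ℝ) / y := by
      rw [← Real.rpow_sub_one hy.ne']
      norm_num
    have h3 : psi κ (L / √x) * (C * (k ^ (-(2 / 3) : ℝ) * winC_G1 x k y)) ≤
        4 * D * C * (x ^ (-(12 / 5) : ℝ) * y ^ (4 / 3 : ℝ)) +
          L ^ 4 * (4 * D * C * (x ^ (-(12 / 5) : ℝ) * y ^ (-(2 / 3) : ℝ))) := by
      calc psi κ (L / √x) * (C * (k ^ (-(2 / 3) : ℝ) * winC_G1 x k y))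
          ≤ ((y + L ^ 4 / y) / x) * (C * (4 * (k ^ (1 / 3 : ℝ) * x ^ (-(3 / 2) : ℝ)))) :=
            mul_le_mul h1 (mul_le_mul_of_nonneg_left (h.out_kap hm) hC) (by positivity)
              (by positivity)
        _ = 4 * C * (y + L ^ 4 / y) * k ^ (1 / 3 : ℝ) * x ^ (-(5 / 2) : ℝ) := by rw [e1]; ring
        _ ≤ 4 * C * (y + L ^ 4 / y) * (D * y ^ (1 / 3 : ℝ)) * x ^ (-(12 / 5) : ℝ) := by
            gcongr 4 * C * (y + L ^ 4 / y) * ?_ * ?_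
            · exact h.k13
            · exact h.x52
        _ = _ := by rw [e2, e3]; ring
    linarith

/-- the bound for the fluctuations -/
theorem winC_fluct (hD : 1 ≤ D) {C η : ℝ} (hC : 0 ≤ C) (hη : 0 < η) :
    ∃ ε : ℝ, 0 < ε ∧ ∀ᶠ x : ℝ in atTop, ∀ k y T : ℝ, winC_Set D x k y →
      T ≤ C * k ^ (1 / 3 : ℝ) * (winC_G1 x k y + winC_G2 x y) / x →
      (k ≤ 2 * D * x → T ≤ 2 * D * (ε * k ^ (-(2 / 3) : ℝ))) →
      T ≤ winC_b (-(11 / 6)) η (8 * D ^ 2 * C) x y := by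
  have hD0 : 0 < D := by linarith
  have t1 : Tendsto (fun R : ℝ => 4 * D ^ 2 * C * (1 + R) ^ (-(1 / 4) : ℝ)) atTop (𝓝 0) := by
    have := ((tendsto_rpow_neg_atTop (by norm_num : (0 : ℝ) < 1 / 4)).comp
      (tendsto_atTop_add_const_left atTop (1 : ℝ) tendsto_id)).const_mul (4 * D ^ 2 * C)
    simpa using this
  obtain ⟨R, hR1, hR2⟩ := ((eventually_ge_atTop (1 : ℝ)).and
    (t1.eventually (ge_mem_nhds (half_pos hη)))).exists
  have t2 : Tendsto (fun x : ℝ => 8 * D * C * x ^ (-(1 / 12) : ℝ)) atTop (𝓝 0) := by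
    have := (tendsto_rpow_neg_atTop (by norm_num : (0 : ℝ) < 1 / 12)).const_mul (8 * D * C)
    simpa using this
  have hR5 : 0 < (1 + R) ^ (5 / 4 : ℝ) := by positivity
  refine ⟨η / (4 * D ^ 2 * (1 + R) ^ (5 / 4 : ℝ)), by positivity, ?_⟩
  filter_upwards [t2.eventually (ge_mem_nhds (half_pos hη))] with x hx2 k y T h hT1 hT2
  have hx : 0 < x := by linarith [h.hx]
  have hy : 0 < y := by linarith [h.hy]
  have hk : 0 < k := by linarith [h.hk]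
  have hg := winC_gm_nonneg hx.le y
  rw [winC_b_eq1]
  have p1 : 0 ≤ η * (x ^ (-(2 / 3) : ℝ) * winC_gm x y) := by positivity
  have p2 : 0 ≤ 8 * D ^ 2 * C * (x ^ (-(12 / 5) : ℝ) * y ^ (4 / 3 : ℝ)) := by positivity
  by_cases hm : x / 2 ≤ y ∧ y ≤ 2 * x
  · rcases le_total (|x - y| / x ^ (2 / 3 : ℝ)) R with hu | hu
    · have h1 := winC_gm_near hx hm hu
      have h2 : T ≤ η * (x ^ (-(2 / 3) : ℝ) * winC_gm x y) := by
        calc T ≤ 2 * D * (η / (4 * D ^ 2 * (1 + R) ^ (5 / 4 : ℝ)) * k ^ (-(2 / 3) : ℝ)) :=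
              hT2 (h.mid_kx hm)
          _ ≤ 2 * D * (η / (4 * D ^ 2 * (1 + R) ^ (5 / 4 : ℝ)) * (2 * D * x ^ (-(2 / 3) : ℝ))) := by
              gcongr
              exact h.mid_k23 hm
          _ = η / (1 + R) ^ (5 / 4 : ℝ) * x ^ (-(2 / 3) : ℝ) * 1 := by field_simp; norm_num
          _ ≤ η / (1 + R) ^ (5 / 4 : ℝ) * x ^ (-(2 / 3) : ℝ) *
              ((1 + R) ^ (5 / 4 : ℝ) * winC_gm x y) := by gcongr
          _ = _ := by field_simp
      linarith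
    · have h1 : winC_G1 x k y ≤ 2 * D * ((1 + R) ^ (-(1 / 4) : ℝ) * winC_gm x y) :=
        (h.mid_G1 hm).trans
          (mul_le_mul_of_nonneg_left (winC_gm_far hx hm (by linarith) hu) (by positivity))
      have h2 := winC_gm_G2 hx hm (hR1.trans hu)
      have e1 : x ^ (-(2 / 3) : ℝ) = x ^ (1 / 3 : ℝ) / x := by
        rw [← Real.rpow_sub_one hx.ne']
        norm_num
      have hG1 : 0 ≤ winC_G1 x k y := by unfold winC_G1; positivity
      have hG2 : 0 ≤ winC_G2 x y := by unfold winC_G2; positivity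
      have h3 : T ≤ η * (x ^ (-(2 / 3) : ℝ) * winC_gm x y) := by
        calc T ≤ C * k ^ (1 / 3 : ℝ) * (winC_G1 x k y + winC_G2 x y) / x := hT1
          _ ≤ C * (2 * D * x ^ (1 / 3 : ℝ)) * (2 * D * ((1 + R) ^ (-(1 / 4) : ℝ) * winC_gm x y) +
              4 * x ^ (-(1 / 12) : ℝ) * winC_gm x y) / x := by
              gcongr
              exact h.mid_k13 hm
          _ = (4 * D ^ 2 * C * (1 + R) ^ (-(1 / 4) : ℝ) + 8 * D * C * x ^ (-(1 / 12) : ℝ)) *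
              (x ^ (-(2 / 3) : ℝ) * winC_gm x y) := by rw [e1]; ring
          _ ≤ (η / 2 + η / 2) * (x ^ (-(2 / 3) : ℝ) * winC_gm x y) := by gcongr
          _ = _ := by ring
      linarith
  · have e1 : x ^ (-(5 / 2) : ℝ) = x ^ (-(3 / 2) : ℝ) / x := by
      rw [← Real.rpow_sub_one hx.ne']
      norm_num
    have e2 : x ^ (-(3 / 2) : ℝ) = x ^ (-(1 / 2) : ℝ) / x := by
      rw [← Real.rpow_sub_one hx.ne']
      norm_num
    have e3 : k ^ (4 / 3 : ℝ) = k ^ (1 / 3 : ℝ) * k := by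
      rw [← Real.rpow_add_one hk.ne']
      norm_num
    have h3 : T ≤ 8 * D ^ 2 * C * (x ^ (-(12 / 5) : ℝ) * y ^ (4 / 3 : ℝ)) := by
      calc T ≤ C * k ^ (1 / 3 : ℝ) * (winC_G1 x k y + winC_G2 x y) / x := hT1
        _ ≤ C * k ^ (1 / 3 : ℝ) * (4 * k * x ^ (-(3 / 2) : ℝ) + 4 * x ^ (-(1 / 2) : ℝ)) / x := by
            gcongr
            · exact h.out_G1 hm
            · exact h.out_G2 hm
        _ = 4 * C * (k ^ (4 / 3 : ℝ) * (x ^ (-(3 / 2) : ℝ) / x) +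
            k ^ (1 / 3 : ℝ) * (x ^ (-(1 / 2) : ℝ) / x)) := by rw [e3]; ring
        _ = 4 * C * (k ^ (4 / 3 : ℝ) * x ^ (-(5 / 2) : ℝ) +
            k ^ (1 / 3 : ℝ) * x ^ (-(3 / 2) : ℝ)) := by rw [← e1, ← e2]
        _ ≤ 4 * C * ((D ^ 2 * y ^ (4 / 3 : ℝ)) * x ^ (-(12 / 5) : ℝ) +
            D ^ 2 * (x ^ (-(12 / 5) : ℝ) * y ^ (4 / 3 : ℝ))) := by
            gcongr 4 * C * (?_ * ?_ + ?_)
            · exact h.k43
            · exact h.x52
            · exact h.out3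
        _ = _ := by ring
    linarith

end Pool.Agent.Lib.MP_77dff5_pr
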