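import Pool.Agent.Lib.MP_77dff5_pr.WinA
import Pool.Agent.Lib.MP_77dff5_pr.Kernel
import Pool.Agent.Lib.MP_77dff5_pr.Local2
import Pool.Agent.Lib.MP_77dff5_pr.WinCAux2

/-! Cores with many slots: the window where the mean size is close to the size. -/

set_option autoImplicit false

namespace Pool.Agent.Lib.MP_77dff5_pr

open MeasureTheory ProbabilityTheory Filter Topology
open scoped ENNReal NNReal

variable {Ω J : Type} [MeasurableSpace Ω]

variable [Countable Ω] [DiscreteMeasurableSpace Ω] [Fintype J]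
  {ν : J → Measure Ω} {s : Ω → ℕ} {z : Ω → ℝ} {F : Fam Ω J} {Δ : ℕ} {B A c₀ : ℝ} {j₀ : J}

theorem winC_all_of_eventually (f : ℕ → ℝ) {C : ℝ}
    (h : ∀ᶠ n : ℕ in atTop, f n ≤ C * (n : ℝ) ^ (-(5 / 2) : ℝ)) :
    ∃ C' : ℝ, ∀ n : ℕ, 1 ≤ n → f n ≤ C' * (n : ℝ) ^ (-(5 / 2) : ℝ) := by
  obtain ⟨N, hN⟩ := eventually_atTop.1 h
  refine ⟨max C (∑ m ∈ Finset.range N, |f m| * (m : ℝ) ^ (5 / 2 : ℝ)), fun n hn => ?_⟩
  have hn0 : (0 : ℝ) < n := by exact_mod_cast hn
  have hp : 0 < (n : ℝ) ^ (-(5 / 2) : ℝ) := by positivity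
  rcases le_or_gt N n with h1 | h1
  · exact (hN n h1).trans (mul_le_mul_of_nonneg_right (le_max_left _ _) hp.le)
  · have h2 : |f n| * (n : ℝ) ^ (5 / 2 : ℝ) ≤
        ∑ m ∈ Finset.range N, |f m| * (m : ℝ) ^ (5 / 2 : ℝ) :=
      Finset.single_le_sum (f := fun m => |f m| * (m : ℝ) ^ (5 / 2 : ℝ))
        (fun m _ => by positivity) (Finset.mem_range.2 h1)
    have h3 : |f n| = |f n| * (n : ℝ) ^ (5 / 2 : ℝ) * (n : ℝ) ^ (-(5 / 2) : ℝ) := by
      rw [mul_assoc, ← Real.rpow_add hn0]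
      norm_num
    refine (le_abs_self _).trans ?_
    rw [h3]
    exact mul_le_mul_of_nonneg_right (h2.trans (le_max_right _ _)) hp.le

theorem winC_set (h : Slots1 ν s z) (hF : F.Heavy ν s j₀ Δ B) :
    ∃ D : ℝ, 1 ≤ D ∧ ∀ n : ℕ, 2 ≤ n → ∀ t ∈ (F.small n)ᶜ,
      winC_Set D n (F.core t).k (F.pos ν s t) := by
  obtain ⟨C, hC⟩ := Core.abs_L_le h Δ B
  refine ⟨max 1 (max B (2 * |C|)), le_max_left _ _, fun n hn t ht => ?_⟩
  have hk : (1 : ℝ) ≤ (F.core t).k := by exact_mod_cast hF.k_pos t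
  have hy : 1 ≤ F.pos ν s t := hF.one_le t
  refine ⟨le_max_left _ _, by exact_mod_cast hn, hk, hy, ?_, ?_, ?_⟩
  · refine (hF.k_le t).trans (mul_le_mul_of_nonneg_right ?_ (by linarith [hF.one_le t]))
    exact (le_max_left _ _).trans (le_max_right _ _)
  · have h1 := (hC (F.core t) (hF.good t)).2
    have h2 : C * (((F.core t).k : ℝ) + 1) ≤ 2 * |C| * (F.core t).k := by
      have := le_abs_self C
      have := abs_nonneg C
      nlinarith
    refine (h1.trans h2).trans (mul_le_mul_of_nonneg_right ?_ (by linarith))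
    exact (le_max_right _ _).trans (le_max_right _ _)
  · have h1 : n ^ 9 ≤ (F.core t).k ^ 10 :=
      (not_le.1 (show ¬(F.core t).k ^ 10 ≤ n ^ 9 from ht)).le
    have h2 : (n : ℝ) ^ 9 ≤ ((F.core t).k : ℝ) ^ 10 := by exact_mod_cast h1
    have h3 := Real.rpow_le_rpow (by positivity) h2 (by norm_num : (0 : ℝ) ≤ 1 / 10)
    rw [← Real.rpow_natCast, ← Real.rpow_natCast, ← Real.rpow_mul (by positivity),
      ← Real.rpow_mul (by positivity)] at h3
    norm_num at h3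
    exact h3

omit [Countable Ω] [DiscreteMeasurableSpace Ω] [Fintype J] in
theorem winC_kap_eq (c : Core Ω J) (n : ℕ) :
    c.kap ν s n = (c.P ν).real {ω | c.S s ω = n} := by
  simp [Core.kap]

omit [Fintype J] in
theorem winC_setLIntegral (S : Set F.T) (n : ℕ) (ψ : ℝ → ℝ≥0∞) (hψ : Measurable ψ) :
    ∫⁻ p in {p : ℕ × ℝ | p.1 = n}, ψ p.2 ∂F.lawOn S ν s z = ∑' t : S, F.w t *
      ∫⁻ ω in {ω | (F.core t).S s ω = n}, ψ ((F.core t).Z z ω) ∂(F.core t).P ν := by
  have hm : MeasurableSet {p : ℕ × ℝ | p.1 = n} := measurable_fst (measurableSet_singleton n)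
  have hψ' : Measurable fun p : ℕ × ℝ => ψ p.2 := hψ.comp measurable_snd
  rw [← lintegral_indicator hm, Fam.lintegral_lawOn S _ (hψ'.indicator hm)]
  refine tsum_congr fun t => ?_
  rw [← lintegral_indicator MeasurableSet.of_discrete]
  rfl

omit [Fintype J] in
theorem winC_mass_eq (hν : ∀ j, IsProbabilityMeasure (ν j)) (S : Set F.T) (n : ℕ) :
    F.lawOn S ν s z {p : ℕ × ℝ | p.1 = n} =
      ∑' t : S, F.w t * ENNReal.ofReal ((F.core t).kap ν s n) := by
  have := winC_setLIntegral (ν := ν) (s := s) (z := z) S n (fun _ => 1) measurable_const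
  simp only [lintegral_const, one_mul, Measure.restrict_apply MeasurableSet.univ,
    Set.univ_inter] at this
  rw [this]
  refine tsum_congr fun t => ?_
  have := Core.isProb hν (F.core t)
  rw [winC_kap_eq, ofReal_measureReal]

omit [Fintype J] in
theorem winC_int_sq (h : Slots ν s z) {c : Core Ω J} (hc : c.Good Δ B) :
    Integrable (fun ω => (c.Z z ω - c.L ν z) ^ 2) (c.P ν) := by
  have := Core.isProb h.prob c
  exact ((Core.memLp_Z h hc).sub (memLp_const _)).integrable_sq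

omit [Fintype J] in
theorem winC_int_psi (h : Slots ν s z) {c : Core Ω J} (hc : c.Good Δ B) (K r : ℝ) :
    Integrable (fun ω => psi K ((c.Z z ω - c.L ν z) / r)) (c.P ν) := by
  have := Core.isProb h.prob c
  refine Integrable.mono' ((((winC_int_sq h hc).div_const (r ^ 2)).const_mul 2).add
    (integrable_const (2 * K ^ 2))) Measurable.of_discrete.aestronglyMeasurable
    (Eventually.of_forall fun ω => ?_)
  rw [Real.norm_of_nonneg (winC_psi_nonneg _ _)]
  have := winC_psi_le_abs K ((c.Z z ω - c.L ν z) / r)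
  rw [div_pow] at this
  exact this

omit [Fintype J] in
theorem winC_core_le (h : Slots ν s z) {c : Core Ω J} (hc : c.Good Δ B) (κ : ℝ) (n : ℕ) :
    ∫⁻ ω in {ω | c.S s ω = n}, ENNReal.ofReal (psi κ (c.Z z ω / √n)) ∂c.P ν ≤
      ENNReal.ofReal (2 * (∫ ω in {ω | c.S s ω = n},
        psi (κ / 2) ((c.Z z ω - c.L ν z) / √n) ∂c.P ν) +
          2 * (psi (κ / 2) (c.L ν z / √n) * c.kap ν s n)) := by
  have := Core.isProb h.prob c
  have hi := (winC_int_psi h hc (κ / 2) √n).restrict (s := {ω | c.S s ω = n})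
  have hi2 : Integrable (fun ω => 2 * psi (κ / 2) ((c.Z z ω - c.L ν z) / √n) +
      2 * psi (κ / 2) (c.L ν z / √n)) ((c.P ν).restrict {ω | c.S s ω = n}) :=
    (hi.const_mul 2).add (integrable_const _)
  have e1 : ∫ ω in {ω | c.S s ω = n}, (2 * psi (κ / 2) ((c.Z z ω - c.L ν z) / √n) +
      2 * psi (κ / 2) (c.L ν z / √n)) ∂c.P ν = 2 * (∫ ω in {ω | c.S s ω = n},
        psi (κ / 2) ((c.Z z ω - c.L ν z) / √n) ∂c.P ν) +
          2 * (psi (κ / 2) (c.L ν z / √n) * c.kap ν s n) := by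
    rw [integral_add (hi.const_mul 2) (integrable_const _), integral_const_mul, setIntegral_const,
      winC_kap_eq, smul_eq_mul]
    ring
  rw [← e1, ofReal_integral_eq_lintegral_ofReal hi2 (Eventually.of_forall fun ω => by
    have := winC_psi_nonneg (κ / 2) ((c.Z z ω - c.L ν z) / √n)
    have := winC_psi_nonneg (κ / 2) (c.L ν z / √n)
    simp only [Pi.zero_apply]
    positivity)]
  refine lintegral_mono fun ω => ENNReal.ofReal_le_ofReal ?_
  have e2 : c.Z z ω / √n = (c.Z z ω - c.L ν z) / √n + c.L ν z / √n := by ring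
  rw [e2]
  exact winC_psi_add _ _ _

section large
variable (h : Slots ν s z) (h1 : T1 ν s A) (hc : 0 < c₀) (h4 : T4 (ν j₀) s c₀)
  (hF : F.Heavy ν s j₀ Δ B) (hw : WinB (F.pos ν s) (fun t => F.w t) (-(11 / 6)))
include h h1 hc h4 hF

theorem winC_kap_le : ∃ C : ℝ, 0 ≤ C ∧ ∀ (t : F.T) (n : ℕ), (F.core t).kap ν s n ≤
    C * (((F.core t).k : ℝ) ^ (-(2 / 3) : ℝ) * winC_G1 n (F.core t).k (F.pos ν s t)) := by
  obtain ⟨C, hC⟩ := kap_le h.toSlots1 h1 hc h4 Δ
  refine ⟨max C 0, le_max_right _ _, fun t n => ?_⟩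
  have h2 := hC (F.core t) (hF.k_pos t) (hF.frac t) n
  rw [Int.cast_natCast, mul_assoc] at h2
  refine h2.trans (mul_le_mul_of_nonneg_right (le_max_left _ _) ?_)
  positivity

include hw

theorem winC_mass_le : ∃ C : ℝ, 0 ≤ C ∧ ∀ᶠ n : ℕ in atTop,
    F.lawOn (F.small n)ᶜ ν s z {p : ℕ × ℝ | p.1 = n} ≤
      ENNReal.ofReal (C * (n : ℝ) ^ (-(5 / 2) : ℝ)) := by
  obtain ⟨D, hD, hS⟩ := winC_set h.toSlots1 hF
  obtain ⟨C, hC0, hC⟩ := winC_kap_le h h1 hc h4 hF
  obtain ⟨A1, hA0, hA⟩ := winC_sum_b hw (by linarith : 0 < D)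
  have hη : 0 ≤ 4 * D ^ 2 * C := by positivity
  refine ⟨4 * D ^ 2 * C * A1 + 1, by positivity, ?_⟩
  filter_upwards [hA (4 * D ^ 2 * C) 1 hη one_pos, eventually_ge_atTop 2] with n hn hn2
  rw [winC_mass_eq h.prob]
  refine le_trans (ENNReal.tsum_le_tsum fun t => ?_) (hn _ hη (F.small n)ᶜ
    fun t ht => (hS n hn2 t ht).lg.trans (hS n hn2 t ht).ky)
  exact mul_le_mul_right (ENNReal.ofReal_le_ofReal ((hC t n).trans ((hS n hn2 t t.2).kap hC0))) _

theorem Fam.large_pm :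
    ∃ C : ℝ, ∀ n : ℕ, 1 ≤ n → pm (F.lawOn (F.small n)ᶜ ν s z) n ≤ C * (n : ℝ) ^ (-(5 / 2) : ℝ) := by
  obtain ⟨C, hC0, hC⟩ := winC_mass_le h h1 hc h4 hF hw
  refine winC_all_of_eventually _ (C := C) ?_
  filter_upwards [hC] with n hn
  exact ENNReal.toReal_le_of_le_ofReal (by positivity) hn

theorem winC_m2_small (h2 : T2 ν s z A)
    (hL : WinB (F.pos ν s) (fun t => F.w t * ENNReal.ofReal ((F.core t).L ν z ^ 4)) (1 / 6))
    {ε : ℝ} (hε : 0 < ε) : ∃ κ : ℝ, 0 ≤ κ ∧ ∀ᶠ n : ℕ in atTop,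
      m2 (F.lawOn (F.small n)ᶜ ν s z) n κ ≤ ENNReal.ofReal (ε * (n : ℝ) ^ (-(5 / 2) : ℝ)) := by
  obtain ⟨D, hD, hS⟩ := winC_set h.toSlots1 hF
  have hD0 : 0 < D := by linarith
  obtain ⟨C, hC0, hC⟩ := winC_kap_le h h1 hc h4 hF
  obtain ⟨A1, hA10, hA1⟩ := winC_sum_b hw hD0
  obtain ⟨A2, hA20, hA2⟩ := winC_sum_b hL hD0
  obtain ⟨C1, k1, hC1⟩ := local_sq h h1 h2 hc h4 Δ B
  set η : ℝ := ε / (4 * (A1 + A2 + 1)) with hηdef
  have hη : 0 < η := by positivity
  have hδ : 0 < ε / 12 := by positivity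
  obtain ⟨ε', hε', hfl⟩ := winC_fluct hD (le_max_right C1 0) hη
  obtain ⟨K, k2, hK⟩ := local_psi h hc h4 Δ B hε'
  set κ2 : ℝ := max (1 + 4 * D ^ 2 * C / η) (√(2 * D) * K) with hκ2
  have hκ20 : 0 ≤ κ2 := le_trans (by positivity) (le_max_left _ _)
  refine ⟨2 * κ2, by positivity, ?_⟩
  have ht : Tendsto (fun n : ℕ => (n : ℝ) ^ (9 / 10 : ℝ)) atTop atTop :=
    (tendsto_rpow_atTop (by norm_num)).comp tendsto_natCast_atTop_atTop
  have hc1 : 0 ≤ 8 * D ^ 2 * max C1 0 := by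
    have := le_max_right C1 0
    positivity
  have hc2 : 0 ≤ 4 * D * C := by positivity
  filter_upwards [hA1 _ _ hc1 hδ, hA1 _ _ hc2 hδ, hA2 _ _ hc2 hδ, eventually_ge_atTop 2,
    tendsto_natCast_atTop_atTop.eventually hfl, ht.eventually_ge_atTop (k1 : ℝ),
    ht.eventually_ge_atTop (k2 : ℝ)] with n hn1 hn2 hn3 hn4 hn5 hn6 hn7
  have hlg : ∀ t ∈ (F.small n)ᶜ, (n : ℝ) ^ (9 / 10 : ℝ) ≤ D * F.pos ν s t :=
    fun t ht => (hS n hn4 t ht).lg.trans (hS n hn4 t ht).ky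
  have hx : (0 : ℝ) < n := by exact_mod_cast (by omega : 0 < n)
  unfold m2
  rw [winC_setLIntegral (F.small n)ᶜ n (fun u => ENNReal.ofReal (psi (2 * κ2) (u / √n)))
    (ENNReal.measurable_ofReal.comp
      ((winC_psi_continuous _).measurable.comp (measurable_id.div_const _)))]
  have key : ∀ t : ((F.small n)ᶜ : Set F.T), (F.w t : ℝ≥0∞) *
      ∫⁻ ω in {ω | (F.core t).S s ω = n},
        ENNReal.ofReal (psi (2 * κ2) ((F.core t).Z z ω / √n)) ∂(F.core t).P ν ≤
      2 * (F.w t * ENNReal.ofReal (winC_b (-(11 / 6)) η (8 * D ^ 2 * max C1 0) n (F.pos ν s t))) +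
      2 * (F.w t * ENNReal.ofReal (winC_b (-(11 / 6)) 0 (4 * D * C) n (F.pos ν s t))) +
      2 * (F.w t * ENNReal.ofReal ((F.core t).L ν z ^ 4) *
        ENNReal.ofReal (winC_b (1 / 6) η (4 * D * C) n (F.pos ν s t))) := by
    intro t
    have hs := hS n hn4 t t.2
    have hg := hF.good t
    set c := F.core t with hcdef
    have hk0 : (0 : ℝ) < c.k := by linarith [hs.hk]
    have hy0 : 0 ≤ F.pos ν s t := by linarith [hs.hy]
    have hk1 : k1 ≤ c.k := by exact_mod_cast hn6.trans hs.lg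
    have hk2 : k2 ≤ c.k := by exact_mod_cast hn7.trans hs.lg
    have e0 : 2 * κ2 / 2 = κ2 := by ring
    have b1 : ∫ ω in {ω | c.S s ω = n}, psi κ2 ((c.Z z ω - c.L ν z) / √n) ∂c.P ν ≤
        winC_b (-(11 / 6)) η (8 * D ^ 2 * max C1 0) n (F.pos ν s t) := by
      refine hn5 c.k (F.pos ν s t) _ hs ?_ ?_
      · have h5 := hC1 c hg (hF.frac t) hk1 n
        have h6 : ∫ ω in {ω | c.S s ω = n}, psi κ2 ((c.Z z ω - c.L ν z) / √n) ∂c.P ν ≤
            ∫ ω in {ω | c.S s ω = n}, (c.Z z ω - c.L ν z) ^ 2 / n ∂c.P ν := by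
          refine integral_mono (winC_int_psi h hg _ _).restrict
            ((winC_int_sq h hg).div_const _).restrict fun ω => ?_
          have := winC_psi_le_sq hκ20 ((c.Z z ω - c.L ν z) / √n)
          rwa [div_pow, Real.sq_sqrt hx.le] at this
        rw [integral_div] at h6
        refine h6.trans (div_le_div_of_nonneg_right (h5.trans ?_) hx.le)
        have hG : 0 ≤ winC_G1 n c.k (F.pos ν s t) + winC_G2 n (F.pos ν s t) := by
          unfold winC_G1 winC_G2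
          positivity
        exact mul_le_mul_of_nonneg_right
          (mul_le_mul_of_nonneg_right (le_max_left _ _) (by positivity)) hG
      · intro hkx
        have h5 := hK c hg (hF.frac t) hk2 n
        have h6 : ∫ ω in {ω | c.S s ω = n}, psi κ2 ((c.Z z ω - c.L ν z) / √n) ∂c.P ν ≤
            ∫ ω in {ω | c.S s ω = n}, 2 * D * psi K ((c.Z z ω - c.L ν z) / √c.k) ∂c.P ν := by
          refine integral_mono (winC_int_psi h hg _ _).restrict
            ((winC_int_psi h hg _ _).const_mul _).restrict fun ω => ?_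
          exact winC_psi_scale hk0 hx (by positivity) hkx (le_max_right _ _) _
        rw [integral_const_mul] at h6
        exact h6.trans (mul_le_mul_of_nonneg_left h5 (by positivity))
    have b2 : psi κ2 (c.L ν z / √n) * c.kap ν s n ≤
        winC_b (-(11 / 6)) 0 (4 * D * C) n (F.pos ν s t) +
          c.L ν z ^ 4 * winC_b (1 / 6) η (4 * D * C) n (F.pos ν s t) :=
      (mul_le_mul_of_nonneg_left (hC t n) (winC_psi_nonneg _ _)).trans
        (hs.mean hC0 hη (le_max_left _ _) _)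
    have p1 := winC_b_nonneg (e := -(11 / 6)) hη.le hc1 hx.le hy0
    have p2 := winC_b_nonneg (e := -(11 / 6)) le_rfl hc2 hx.le hy0
    have p3 := winC_b_nonneg (e := 1 / 6) hη.le hc2 hx.le hy0
    have p4 : 0 ≤ c.L ν z ^ 4 := by positivity
    have b3 := winC_core_le h hg (2 * κ2) n
    rw [e0] at b3
    have b4 := b3.trans (ENNReal.ofReal_le_ofReal (add_le_add
      (mul_le_mul_of_nonneg_left b1 (by norm_num)) (mul_le_mul_of_nonneg_left b2 (by norm_num))))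
    rw [ENNReal.ofReal_add (by positivity) (by positivity), ENNReal.ofReal_mul (by norm_num),
      ENNReal.ofReal_mul (by norm_num), ENNReal.ofReal_add p2 (by positivity),
      ENNReal.ofReal_mul p4, ENNReal.ofReal_ofNat] at b4
    refine (mul_le_mul_right b4 _).trans (le_of_eq ?_)
    ring
  refine (ENNReal.tsum_le_tsum key).trans ?_
  rw [ENNReal.tsum_add, ENNReal.tsum_add, ENNReal.tsum_mul_left, ENNReal.tsum_mul_left,
    ENNReal.tsum_mul_left]
  refine le_trans (add_le_add (add_le_add (mul_le_mul_right (hn1 η hη.le _ hlg) _)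
    (mul_le_mul_right (hn2 0 le_rfl _ hlg) _)) (mul_le_mul_right (hn3 η hη.le _ hlg) _)) ?_
  have hp : 0 ≤ (n : ℝ) ^ (-(5 / 2) : ℝ) := by positivity
  rw [← mul_add, ← mul_add, ← ENNReal.ofReal_add (by positivity) (by positivity),
    ← ENNReal.ofReal_add (by positivity) (by positivity), ← ENNReal.ofReal_ofNat,
    ← ENNReal.ofReal_mul (by norm_num)]
  refine ENNReal.ofReal_le_ofReal ?_
  have e1 : η * (A1 + A2 + 1) = ε / 4 := by
    rw [hηdef]
    field_simp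
  have e2 : 2 * (η * A1 + ε / 12 + (0 * A1 + ε / 12) + (η * A2 + ε / 12)) ≤ ε := by nlinarith
  have := mul_le_mul_of_nonneg_right e2 hp
  linarith

theorem Fam.large_m2 (h2 : T2 ν s z A)
    (hL : WinB (F.pos ν s) (fun t => F.w t * ENNReal.ofReal ((F.core t).L ν z ^ 4)) (1 / 6)) :
    (∃ C : ℝ, ∀ᶠ n : ℕ in atTop,
      m2 (F.lawOn (F.small n)ᶜ ν s z) n 0 ≤ ENNReal.ofReal (C * (n : ℝ) ^ (-(5 / 2) : ℝ))) ∧
    ∀ ε : ℝ, 0 < ε → ∃ κ : ℝ, 0 ≤ κ ∧ ∀ κ' : ℝ, κ ≤ κ' → ∀ᶠ n : ℕ in atTop,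
      m2 (F.lawOn (F.small n)ᶜ ν s z) n κ' ≤ ENNReal.ofReal (ε * (n : ℝ) ^ (-(5 / 2) : ℝ)) := by
  constructor
  · obtain ⟨κ, hκ, h5⟩ := winC_m2_small h h1 hc h4 hF hw h2 hL one_pos
    obtain ⟨C, hC0, hC⟩ := winC_mass_le h h1 hc h4 hF hw
    refine ⟨2 + 2 * κ ^ 2 * C, ?_⟩
    filter_upwards [h5, hC] with n hn1 hn2
    have h6 : m2 (F.lawOn (F.small n)ᶜ ν s z) n 0 ≤ 2 * m2 (F.lawOn (F.small n)ᶜ ν s z) n κ +
        ENNReal.ofReal (2 * κ ^ 2) * F.lawOn (F.small n)ᶜ ν s z {p : ℕ × ℝ | p.1 = n} := by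
      unfold m2
      rw [← lintegral_const_mul' _ _ (by norm_num), ← setLIntegral_const,
        ← lintegral_add_right _ measurable_const]
      refine lintegral_mono fun p => ?_
      have := winC_psi_nonneg κ (p.2 / √n)
      rw [← ENNReal.ofReal_ofNat, ← ENNReal.ofReal_mul (by norm_num),
        ← ENNReal.ofReal_add (by positivity) (by positivity)]
      exact ENNReal.ofReal_le_ofReal (winC_psi_zero_le hκ _)
    refine h6.trans (le_trans (add_le_add (mul_le_mul_right hn1 _) (mul_le_mul_right hn2 _)) ?_)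
    have hp : 0 ≤ (n : ℝ) ^ (-(5 / 2) : ℝ) := by positivity
    rw [← ENNReal.ofReal_ofNat, ← ENNReal.ofReal_mul (by norm_num),
      ← ENNReal.ofReal_mul (by positivity), ← ENNReal.ofReal_add (by positivity) (by positivity)]
    exact ENNReal.ofReal_le_ofReal (le_of_eq (by ring))
  · intro ε hε
    obtain ⟨κ, hκ, h5⟩ := winC_m2_small h h1 hc h4 hF hw h2 hL hε
    refine ⟨κ, hκ, fun κ' hκ' => ?_⟩
    filter_upwards [h5] with n hn
    refine le_trans ?_ hn
    exact lintegral_mono fun p => ENNReal.ofReal_le_ofReal (winC_psi_anti hκ' _)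

end large

end Pool.Agent.Lib.MP_77dff5_pr
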