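import Pool.Agent.Lib.MP_77dff5_pr.LocalBAux1

/-! Stein identity for sums of bounded local terms. -/

set_option autoImplicit false

namespace Pool.Agent.Lib.MP_77dff5_pr

open MeasureTheory ProbabilityTheory Filter Topology
open scoped ENNReal NNReal

section general
variable {Ω I W : Type} [Countable Ω] [MeasurableSpace Ω] [DiscreteMeasurableSpace Ω] [Fintype I]
  [DecidableEq I] [Fintype W] (ν : I → Measure Ω) [∀ i, IsProbabilityMeasure (ν i)]

omit [DecidableEq I] in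
theorem localB_int_bdd {E : Type} [NormedAddCommGroup E] (f : (I → Ω) → E) (C : ℝ)
    (h : ∀ ω, ‖f ω‖ ≤ C) : Integrable f (Measure.pi ν) :=
  Integrable.of_bound AEStronglyMeasurable.of_discrete C (Eventually.of_forall h)

omit [Countable Ω] [MeasurableSpace Ω] [DiscreteMeasurableSpace Ω] [Fintype I] [DecidableEq I]
  [Fintype W] in
theorem localB_sum_bdd (ξ : W → (I → Ω) → ℝ) {B : ℝ} (hB0 : 0 ≤ B) (hB : ∀ a ω, |ξ a ω| ≤ B)
    (U : Finset W) {n : ℕ} (hU : U.card ≤ n) (ω : I → Ω) : |∑ b ∈ U, ξ b ω| ≤ n * B := by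
  refine (Finset.abs_sum_le_sum_abs _ _).trans ?_
  refine (Finset.sum_le_card_nsmul _ _ B fun b _ => hB b ω).trans ?_
  rw [nsmul_eq_mul]
  exact mul_le_mul_of_nonneg_right (by exact_mod_cast hU) hB0

omit [Countable Ω] [MeasurableSpace Ω] [DiscreteMeasurableSpace Ω] [Fintype I] in
theorem localB_far (ξ : W → (I → Ω) → ℝ) (dep : W → Finset I)
    (hdep : ∀ a ω ω', (∀ i ∈ dep a, ω i = ω' i) → ξ a ω = ξ a ω') (a : W) (ω ω' : I → Ω)
    (h : ∀ i ∉ dep a, ω i = ω' i) :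
    ∑ b, ξ b ω - ∑ b ∈ localB_N dep a, ξ b ω = ∑ b, ξ b ω' - ∑ b ∈ localB_N dep a, ξ b ω' := by
  classical
  rw [← Finset.sum_sdiff_eq_sub (Finset.subset_univ _),
    ← Finset.sum_sdiff_eq_sub (Finset.subset_univ _)]
  refine Finset.sum_congr rfl fun b hb => hdep b _ _ fun i hi => h i fun hi' => ?_
  simp only [localB_N, Finset.mem_sdiff, Finset.mem_filter, Finset.mem_univ, true_and,
    not_not] at hb
  exact Finset.disjoint_left.1 hb hi' hi

omit [Countable Ω] [MeasurableSpace Ω] [DiscreteMeasurableSpace Ω] [Fintype I] in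
theorem localB_V_diff (ξ : W → (I → Ω) → ℝ) (dep : W → Finset I)
    (hdep : ∀ a ω ω', (∀ i ∈ dep a, ω i = ω' i) → ξ a ω = ξ a ω') {B : ℝ} {D : ℕ} (hB0 : 0 ≤ B)
    (hB : ∀ a ω, |ξ a ω| ≤ B) (hc : ∀ a, (dep a).card ≤ D)
    (hm : ∀ i, (Finset.univ.filter fun a => i ∈ dep a).card ≤ D) (ω : I → Ω) (j : I) (η : Ω) :
    |∑ a, ξ a ω * ∑ b ∈ localB_N dep a, ξ b ω -
      ∑ a, ξ a (Function.update ω j η) * ∑ b ∈ localB_N dep a, ξ b (Function.update ω j η)| ≤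
      4 * (D : ℝ) ^ 3 * B ^ 2 := by
  classical
  set ω' := Function.update ω j η with hω'
  have hsame : ∀ a, j ∉ dep a → ξ a ω = ξ a ω' := fun a ha =>
    hdep a _ _ fun i hi => (Function.update_of_ne (fun e : i = j => ha (e ▸ hi)) _ _).symm
  let χ : W → ℝ := fun a => if j ∈ dep a then 1 else 0
  have hχ0 : ∀ a, 0 ≤ χ a := fun a => by simp only [χ]; split <;> norm_num
  have hχ : ∑ a, χ a ≤ D := by
    simp only [χ]
    rw [Finset.sum_boole]
    exact_mod_cast hm j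
  have h1 : ∀ a b, |ξ a ω * ξ b ω - ξ a ω' * ξ b ω'| ≤ 2 * B ^ 2 * (χ a + χ b) := by
    intro a b
    have g : ∀ x, |ξ a x * ξ b x| ≤ B ^ 2 := fun x => by
      rw [abs_mul, sq]; exact mul_le_mul (hB a x) (hB b x) (abs_nonneg _) hB0
    have g2 : |ξ a ω * ξ b ω - ξ a ω' * ξ b ω'| ≤ 2 * B ^ 2 := by
      have := abs_sub (ξ a ω * ξ b ω) (ξ a ω' * ξ b ω')
      linarith [g ω, g ω']
    by_cases ha : j ∈ dep a
    · have : χ a = 1 := if_pos ha
      nlinarith [hχ0 b, sq_nonneg B]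
    by_cases hb : j ∈ dep b
    · have : χ b = 1 := if_pos hb
      nlinarith [hχ0 a, sq_nonneg B]
    rw [hsame a ha, hsame b hb, sub_self, abs_zero]
    have := hχ0 a
    have := hχ0 b
    positivity
  have h2 : ∑ a, ∑ _b ∈ localB_N dep a, χ a ≤ (D * D : ℕ) * (D : ℝ) := by
    refine le_trans (Finset.sum_le_sum fun a _ => ?_)
      (le_trans (Finset.mul_sum _ _ _).symm.le (mul_le_mul_of_nonneg_left hχ (Nat.cast_nonneg _)))
    rw [Finset.sum_const, nsmul_eq_mul]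
    exact mul_le_mul_of_nonneg_right (by exact_mod_cast localB_N_card dep hc hm a) (hχ0 a)
  have h3 : ∑ a, ∑ b ∈ localB_N dep a, χ b = ∑ a, ∑ _b ∈ localB_N dep a, χ a :=
    Finset.sum_comm' fun a b => by simp [localB_N_symm dep a b]
  rw [← Finset.sum_sub_distrib]
  refine (Finset.abs_sum_le_sum_abs _ _).trans ?_
  have h4 : ∀ a, |ξ a ω * ∑ b ∈ localB_N dep a, ξ b ω - ξ a ω' * ∑ b ∈ localB_N dep a, ξ b ω'| ≤
      2 * B ^ 2 * (∑ _b ∈ localB_N dep a, χ a + ∑ b ∈ localB_N dep a, χ b) := by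
    intro a
    rw [Finset.mul_sum, Finset.mul_sum, ← Finset.sum_sub_distrib, ← Finset.sum_add_distrib,
      Finset.mul_sum]
    exact (Finset.abs_sum_le_sum_abs _ _).trans (Finset.sum_le_sum fun b _ => h1 a b)
  refine (Finset.sum_le_sum fun a _ => h4 a).trans ?_
  rw [← Finset.mul_sum, Finset.sum_add_distrib, h3]
  push_cast at h2
  nlinarith [sq_nonneg B]

theorem localB_V_mean (ξ : W → (I → Ω) → ℝ) (dep : W → Finset I)
    (hdep : ∀ a ω ω', (∀ i ∈ dep a, ω i = ω' i) → ξ a ω = ξ a ω') {B : ℝ} (hB0 : 0 ≤ B)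
    (hB : ∀ a ω, |ξ a ω| ≤ B) (h0 : ∀ a, ∫ ω, ξ a ω ∂Measure.pi ν = 0) :
    ∫ ω, ∑ a, ξ a ω * ∑ b ∈ localB_N dep a, ξ b ω ∂Measure.pi ν =
      ∫ ω, (∑ a, ξ a ω) ^ 2 ∂Measure.pi ν := by
  have hint : ∀ (a : W) (U : Finset W),
      Integrable (fun ω => ξ a ω * ∑ b ∈ U, ξ b ω) (Measure.pi ν) := fun a U =>
    localB_int_bdd ν _ (B * (U.card * B)) fun ω => by
      rw [Real.norm_eq_abs, abs_mul]
      exact mul_le_mul (hB a ω) (localB_sum_bdd ξ hB0 hB U le_rfl ω) (abs_nonneg _) hB0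
  have e : ∀ ω, (∑ a, ξ a ω) ^ 2 = ∑ a, ξ a ω * ∑ b, ξ b ω := fun ω => by
    rw [sq, Finset.sum_mul]
  simp only [e]
  rw [integral_finsetSum _ fun a _ => hint a _, integral_finsetSum _ fun a _ => hint a _]
  refine Finset.sum_congr rfl fun a _ => ?_
  have h1 := localB_indep ν (dep a) (fun ω => (ξ a ω : ℂ))
    (fun ω => ((∑ b, ξ b ω - ∑ b ∈ localB_N dep a, ξ b ω : ℝ) : ℂ))
    (fun ω ω' h => by rw [hdep a ω ω' h]) (fun ω ω' h => by rw [localB_far ξ dep hdep a ω ω' h])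
  rw [integral_complex_ofReal, h0 a] at h1
  simp only [← Complex.ofReal_mul] at h1
  rw [integral_complex_ofReal] at h1
  have h2 : ∫ ω, ξ a ω * (∑ b, ξ b ω - ∑ b ∈ localB_N dep a, ξ b ω) ∂Measure.pi ν = 0 := by
    simpa using h1
  simp only [mul_sub] at h2
  rw [integral_sub (hint a _) (hint a _)] at h2
  linarith

theorem localB_term (ξ : W → (I → Ω) → ℝ) (dep : W → Finset I)
    (hdep : ∀ a ω ω', (∀ i ∈ dep a, ω i = ω' i) → ξ a ω = ξ a ω') {B m : ℝ} {D : ℕ} (hB0 : 0 ≤ B)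
    (hB : ∀ a ω, |ξ a ω| ≤ B) (h0 : ∀ a, ∫ ω, ξ a ω ∂Measure.pi ν = 0)
    (hc : ∀ a, (dep a).card ≤ D) (hm : ∀ i, (Finset.univ.filter fun a => i ∈ dep a).card ≤ D)
    (σ : Ω → ℝ) (hσ : ∀ i, Integrable σ (ν i)) (hm0 : 0 ≤ m) (hσm : ∀ i, ∫ x, |σ x| ∂ν i ≤ m)
    (θ t0 : ℝ) (a : W) :
    ‖∫ ω, ((ξ a ω : ℂ) *
        Complex.exp (Complex.I * ((θ * ∑ b, ξ b ω + (t0 + ∑ i, σ (ω i)) : ℝ) : ℂ)) -
      Complex.I * ((ξ a ω * (θ * ∑ b ∈ localB_N dep a, ξ b ω) : ℝ) : ℂ) *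
        Complex.exp (Complex.I * ((θ * ∑ b, ξ b ω + (t0 + ∑ i, σ (ω i)) : ℝ) : ℂ)))
        ∂Measure.pi ν‖ ≤ B * (2 * (θ * ((D * D : ℕ) * B)) ^ 2 + D * m) := by
  set F : (I → Ω) → ℂ := fun ω => Complex.exp (Complex.I *
    ((θ * ∑ b, ξ b ω + (t0 + ∑ i, σ (ω i)) - θ * ∑ b ∈ localB_N dep a, ξ b ω -
      ∑ i ∈ dep a, σ (ω i) : ℝ) : ℂ)) with hF
  have h1 := localB_indep ν (dep a) (fun ω => (ξ a ω : ℂ)) F
    (fun ω ω' h => by rw [hdep a ω ω' h]) (fun ω ω' h => by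
      have e1 := localB_far ξ dep hdep a ω ω' h
      have e2 : ∑ i, σ (ω i) - ∑ i ∈ dep a, σ (ω i) = ∑ i, σ (ω' i) - ∑ i ∈ dep a, σ (ω' i) := by
        rw [← Finset.sum_sdiff_eq_sub (Finset.subset_univ _),
          ← Finset.sum_sdiff_eq_sub (Finset.subset_univ _)]
        exact Finset.sum_congr rfl fun i hi => by rw [h i (Finset.mem_sdiff.1 hi).2]
      simp only [hF]
      congr 3
      linear_combination θ * e1 + e2)
  rw [integral_complex_ofReal, h0 a] at h1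
  have hN := localB_sum_bdd ξ hB0 hB _ (localB_N_card dep hc hm a)
  have hθ : ∀ ω, (θ * ∑ b ∈ localB_N dep a, ξ b ω) ^ 2 ≤ (θ * ((D * D : ℕ) * B)) ^ 2 := by
    intro ω
    rw [mul_pow, mul_pow θ]
    refine mul_le_mul_of_nonneg_left ?_ (sq_nonneg _)
    exact sq_le_sq' (neg_le_of_abs_le (hN ω)) (le_of_abs_le (hN ω))
  have i1 : Integrable (fun ω => (ξ a ω : ℂ) * F ω) (Measure.pi ν) :=
    localB_int_bdd ν _ B fun ω => by
      rw [norm_mul, localB_norm_exp, mul_one, Complex.norm_real]; exact hB a ω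
  have i2 : Integrable (fun ω => (ξ a ω : ℂ) *
        Complex.exp (Complex.I * ((θ * ∑ b, ξ b ω + (t0 + ∑ i, σ (ω i)) : ℝ) : ℂ)) -
      Complex.I * ((ξ a ω * (θ * ∑ b ∈ localB_N dep a, ξ b ω) : ℝ) : ℂ) *
        Complex.exp (Complex.I * ((θ * ∑ b, ξ b ω + (t0 + ∑ i, σ (ω i)) : ℝ) : ℂ)))
      (Measure.pi ν) := by
    refine Integrable.sub (localB_int_bdd ν _ B fun ω => ?_)
      (localB_int_bdd ν _ (B * (|θ| * ((D * D : ℕ) * B))) fun ω => ?_)
    · rw [norm_mul, localB_norm_exp, mul_one, Complex.norm_real]; exact hB a ω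
    · rw [norm_mul, norm_mul, localB_norm_exp, mul_one, Complex.norm_I, one_mul,
        Complex.norm_real, Real.norm_eq_abs, abs_mul, abs_mul]
      exact mul_le_mul (hB a ω) (mul_le_mul_of_nonneg_left (hN ω) (abs_nonneg _))
        (by positivity) hB0
  have i3 : ∀ i, Integrable (fun ω : I → Ω => |σ (ω i)|) (Measure.pi ν) := fun i =>
    integrable_comp_eval (μ := ν) (i := i) (f := fun x => |σ x|) (hσ i).abs
  have i4 : Integrable (fun ω : I → Ω => ∑ i ∈ dep a, |σ (ω i)|) (Measure.pi ν) :=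
    integrable_finsetSum _ fun i _ => i3 i
  have h2 := integral_sub i2 i1
  rw [h1] at h2
  simp only [Complex.ofReal_zero, zero_mul, sub_zero] at h2
  rw [← h2]
  have h3 := norm_integral_le_of_norm_le (μ := Measure.pi ν)
    (f := fun ω => ((ξ a ω : ℂ) *
        Complex.exp (Complex.I * ((θ * ∑ b, ξ b ω + (t0 + ∑ i, σ (ω i)) : ℝ) : ℂ)) -
      Complex.I * ((ξ a ω * (θ * ∑ b ∈ localB_N dep a, ξ b ω) : ℝ) : ℂ) *
        Complex.exp (Complex.I * ((θ * ∑ b, ξ b ω + (t0 + ∑ i, σ (ω i)) : ℝ) : ℂ))) -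
        (ξ a ω : ℂ) * F ω)
    (g := fun ω => B * (2 * (θ * ((D * D : ℕ) * B)) ^ 2 + ∑ i ∈ dep a, |σ (ω i)|))
    (((integrable_const _).add i4).const_mul B) (Eventually.of_forall fun ω => by
      refine (localB_point _ _ _ _).trans (mul_le_mul (hB a ω) ?_ (by positivity) hB0)
      have := Finset.abs_sum_le_sum_abs (fun i => σ (ω i)) (dep a)
      linarith [hθ ω])
  refine h3.trans ?_
  rw [integral_const_mul, integral_add (integrable_const _) i4, integral_const,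
    integral_finsetSum _ fun i _ => i3 i]
  refine mul_le_mul_of_nonneg_left ?_ hB0
  have h4 : ∑ i ∈ dep a, ∫ ω : I → Ω, |σ (ω i)| ∂Measure.pi ν ≤ D * m := by
    refine (Finset.sum_le_card_nsmul _ _ m fun i _ => ?_).trans ?_
    · rw [integral_comp_eval (μ := ν) (i := i) (f := fun x => |σ x|)
        AEStronglyMeasurable.of_discrete]
      exact hσm i
    · rw [nsmul_eq_mul]
      exact mul_le_mul_of_nonneg_right (by exact_mod_cast hc a) hm0
  simpa using h4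

/-- Stein identity with a local dependence structure -/
theorem localB_stein (ξ : W → (I → Ω) → ℝ) (dep : W → Finset I)
    (hdep : ∀ a ω ω', (∀ i ∈ dep a, ω i = ω' i) → ξ a ω = ξ a ω') {B m : ℝ} {D : ℕ} (hB0 : 0 ≤ B)
    (hB : ∀ a ω, |ξ a ω| ≤ B) (h0 : ∀ a, ∫ ω, ξ a ω ∂Measure.pi ν = 0)
    (hc : ∀ a, (dep a).card ≤ D) (hm : ∀ i, (Finset.univ.filter fun a => i ∈ dep a).card ≤ D)
    (σ : Ω → ℝ) (hσ : ∀ i, Integrable σ (ν i)) (hm0 : 0 ≤ m) (hσm : ∀ i, ∫ x, |σ x| ∂ν i ≤ m)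
    (θ t0 : ℝ) :
    ‖∫ ω, ((∑ b, ξ b ω : ℝ) : ℂ) *
        Complex.exp (Complex.I * ((θ * ∑ b, ξ b ω + (t0 + ∑ i, σ (ω i)) : ℝ) : ℂ)) ∂Measure.pi ν -
      Complex.I * ((θ * ∫ ω, (∑ a, ξ a ω) ^ 2 ∂Measure.pi ν : ℝ) : ℂ) *
        ∫ ω, Complex.exp (Complex.I * ((θ * ∑ b, ξ b ω + (t0 + ∑ i, σ (ω i)) : ℝ) : ℂ))
          ∂Measure.pi ν‖ ≤
      Fintype.card W * (B * (2 * (θ * ((D * D : ℕ) * B)) ^ 2 + D * m)) +
        (1 + θ ^ 2 * (Fintype.card I * (4 * (D : ℝ) ^ 3 * B ^ 2) ^ 2 / 2)) / 2 := by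
  set e : (I → Ω) → ℂ := fun ω =>
    Complex.exp (Complex.I * ((θ * ∑ b, ξ b ω + (t0 + ∑ i, σ (ω i)) : ℝ) : ℂ)) with he
  have hen : ∀ ω, ‖e ω‖ = 1 := fun ω => localB_norm_exp _
  set V : (I → Ω) → ℝ := fun ω => ∑ a, ξ a ω * ∑ b ∈ localB_N dep a, ξ b ω with hV
  obtain ⟨v1, v2, -⟩ := variance_le_of_bdd_diff ν V _ (localB_V_diff ξ dep hdep hB0 hB hc hm)
  have v3 : MemLp V 2 (Measure.pi ν) := v1.mono_exponent (by norm_num)
  rw [← localB_V_mean ν ξ dep hdep hB0 hB h0]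
  set Q : ℝ := ∫ ω, V ω ∂Measure.pi ν with hQ
  have ie : Integrable e (Measure.pi ν) := localB_int_bdd ν _ 1 fun ω => (hen ω).le
  have imul : ∀ G : (I → Ω) → ℝ, Integrable G (Measure.pi ν) →
      Integrable (fun ω => (G ω : ℂ) * e ω) (Measure.pi ν) := fun G hG =>
    hG.norm.mono' AEStronglyMeasurable.of_discrete (Eventually.of_forall fun ω => by
      rw [norm_mul, hen, mul_one, Complex.norm_real])
  have iξ : ∀ a, Integrable (ξ a) (Measure.pi ν) := fun a => localB_int_bdd ν _ B (hB a)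
  have iξ2 : ∀ a, Integrable (fun ω => ξ a ω * (θ * ∑ b ∈ localB_N dep a, ξ b ω))
      (Measure.pi ν) := fun a =>
    localB_int_bdd ν _ (B * (|θ| * ((localB_N dep a).card * B))) fun ω => by
      rw [Real.norm_eq_abs, abs_mul, abs_mul]
      exact mul_le_mul (hB a ω) (mul_le_mul_of_nonneg_left (localB_sum_bdd ξ hB0 hB _ le_rfl ω)
        (abs_nonneg _)) (by positivity) hB0
  have iV : Integrable V (Measure.pi ν) := v3.integrable (by norm_num)
  have iT : ∀ a, Integrable (fun ω => (ξ a ω : ℂ) * e ω -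
      Complex.I * ((ξ a ω * (θ * ∑ b ∈ localB_N dep a, ξ b ω) : ℝ) : ℂ) * e ω) (Measure.pi ν) :=
    fun a => (imul _ (iξ a)).sub (by
      simp only [mul_assoc Complex.I]
      exact (imul _ (iξ2 a)).const_mul _)
  have iR : Integrable (fun ω => Complex.I * (((θ * (V ω - Q) : ℝ) : ℂ) * e ω)) (Measure.pi ν) :=
    (imul _ ((iV.sub (integrable_const Q)).const_mul θ)).const_mul _
  have key : ∫ ω, ((∑ b, ξ b ω : ℝ) : ℂ) * e ω ∂Measure.pi ν -
      Complex.I * ((θ * Q : ℝ) : ℂ) * ∫ ω, e ω ∂Measure.pi ν =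
      ∑ a, ∫ ω, ((ξ a ω : ℂ) * e ω -
        Complex.I * ((ξ a ω * (θ * ∑ b ∈ localB_N dep a, ξ b ω) : ℝ) : ℂ) * e ω) ∂Measure.pi ν +
      ∫ ω, Complex.I * (((θ * (V ω - Q) : ℝ) : ℂ) * e ω) ∂Measure.pi ν := by
    rw [← integral_finsetSum _ fun a _ => iT a, ← integral_add
      (integrable_finsetSum _ fun a _ => iT a) iR, ← integral_const_mul,
      ← integral_sub (imul _ (integrable_finsetSum _ fun a _ => iξ a)) (ie.const_mul _)]
    refine integral_congr_ae (Eventually.of_forall fun ω => ?_)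
    have e1 : (θ * (V ω - Q) : ℝ) =
        ∑ a, ξ a ω * (θ * ∑ b ∈ localB_N dep a, ξ b ω) - θ * Q := by
      rw [mul_sub, hV]
      simp only
      rw [Finset.mul_sum]
      congr 1
      exact Finset.sum_congr rfl fun a _ => by ring
    simp only
    rw [e1, Finset.sum_sub_distrib, ← Finset.sum_mul, ← Finset.sum_mul, ← Finset.mul_sum,
      Complex.ofReal_sub, ← Complex.ofReal_sum, ← Complex.ofReal_sum]
    ring
  rw [key]
  refine (norm_add_le _ _).trans (add_le_add ?_ ?_)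
  · refine (norm_sum_le _ _).trans ?_
    refine (Finset.sum_le_card_nsmul _ _ _ fun a _ =>
      localB_term ν ξ dep hdep hB0 hB h0 hc hm σ hσ hm0 hσm θ t0 a).trans ?_
    rw [nsmul_eq_mul, Finset.card_univ]
  · have i5 : Integrable (fun ω => (V ω - Q) ^ 2) (Measure.pi ν) :=
      (v3.sub (memLp_const Q)).integrable_sq
    have h3 := norm_integral_le_of_norm_le (μ := Measure.pi ν)
      (f := fun ω => Complex.I * (((θ * (V ω - Q) : ℝ) : ℂ) * e ω))
      (g := fun ω => (1 + θ ^ 2 * (V ω - Q) ^ 2) / 2)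
      (((integrable_const _).add (i5.const_mul _)).div_const 2) (Eventually.of_forall fun ω => by
        rw [norm_mul, norm_mul, hen, Complex.norm_I, Complex.norm_real, Real.norm_eq_abs,
          ← mul_pow, ← sq_abs (θ * _)]
        nlinarith [sq_nonneg (|θ * (V ω - Q)| - 1)])
    refine h3.trans ?_
    rw [integral_div, integral_add (integrable_const _) (i5.const_mul _), integral_const_mul,
      ← variance_eq_integral v3.aemeasurable]
    have := mul_le_mul_of_nonneg_left v2 (sq_nonneg θ)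
    simp only [integral_const, probReal_univ, smul_eq_mul, mul_one]
    linarith

end general

end Pool.Agent.Lib.MP_77dff5_pr
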