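import Pool.Agent.Lib.MP_77dff5_pr.KernelA
import Pool.Agent.Lib.MP_77dff5_pr.LocalBAux2

/-! The conditional local central limit theorem for a filled core. -/

set_option autoImplicit false

namespace Pool.Agent.Lib.MP_77dff5_pr

open MeasureTheory ProbabilityTheory Filter Topology
open scoped ENNReal NNReal

variable {Ω J : Type} [Countable Ω] [MeasurableSpace Ω] [DiscreteMeasurableSpace Ω] [Fintype J]
  {ν : J → Measure Ω} {s : Ω → ℕ} {z : Ω → ℝ} {A c₀ : ℝ} {j₀ : J}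

theorem localB_exp_neg {x y : ℝ} (hx : 0 ≤ x) (hy : 0 ≤ y) :
    |Real.exp (-x) - Real.exp (-y)| ≤ |x - y| := by
  have key : ∀ a b : ℝ, 0 ≤ a → Real.exp (-a) - Real.exp (-b) ≤ |a - b| := by
    intro a b ha
    have h1 : Real.exp (-a) ≤ 1 := Real.exp_le_one_iff.2 (by linarith)
    have h2 : Real.exp (-b) = Real.exp (-a) * Real.exp (a - b) := by
      rw [← Real.exp_add]; congr 1; ring
    have h3 := Real.add_one_le_exp (a - b)
    have h4 := neg_abs_le (a - b)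
    have h5 := Real.exp_pos (-a)
    have h6 := abs_nonneg (a - b)
    nlinarith
  rw [abs_le]
  have := key y x hy
  rw [abs_sub_comm] at this
  exact ⟨by linarith, key x y hx⟩

theorem localB_trunc {α : Type} [MeasurableSpace α] (P : Measure α) [IsProbabilityMeasure P]
    (a b T : α → ℝ) (ha : MemLp a 2 P) (hb : MemLp b 2 P) (hT : AEMeasurable T P) (θ : ℝ) {δ : ℝ}
    (hδ : 0 < δ) :
    ‖∫ ω, Complex.exp (Complex.I * ((θ * a ω + T ω : ℝ) : ℂ)) ∂P -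
      ∫ ω, Complex.exp (Complex.I * ((θ * (a ω - b ω) + T ω : ℝ) : ℂ)) ∂P‖ ≤
        (δ + θ ^ 2 * (∫ ω, b ω ^ 2 ∂P) / δ) / 2 ∧
    |Real.exp (-(θ ^ 2 * (∫ ω, a ω ^ 2 ∂P) / 2)) -
      Real.exp (-(θ ^ 2 * (∫ ω, (a ω - b ω) ^ 2 ∂P) / 2))| ≤
        θ ^ 2 / 2 * (δ * (∫ ω, a ω ^ 2 ∂P) + (1 + 1 / δ) * ∫ ω, b ω ^ 2 ∂P) := by
  have ma := ha.aemeasurable
  have mb := hb.aemeasurable
  have ia := ha.integrable_sq
  have ib := hb.integrable_sq
  have iab : Integrable (fun ω => (a ω - b ω) ^ 2) P := (ha.sub hb).integrable_sq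
  constructor
  · rw [← integral_sub
      (Integrable.of_bound (AEMeasurable.aestronglyMeasurable (by fun_prop)) 1
        (Eventually.of_forall fun ω => (localB_norm_exp _).le))
      (Integrable.of_bound (AEMeasurable.aestronglyMeasurable (by fun_prop)) 1
        (Eventually.of_forall fun ω => (localB_norm_exp _).le))]
    refine (norm_integral_le_of_norm_le (g := fun ω => (δ + θ ^ 2 * b ω ^ 2 / δ) / 2)
      (((integrable_const _).add ((ib.const_mul _).div_const _)).div_const 2)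
      (Eventually.of_forall fun ω => ?_)).trans (le_of_eq ?_)
    · have e : Complex.exp (Complex.I * ((θ * a ω + T ω : ℝ) : ℂ)) -
          Complex.exp (Complex.I * ((θ * (a ω - b ω) + T ω : ℝ) : ℂ)) =
          Complex.exp (Complex.I * ((θ * (a ω - b ω) + T ω : ℝ) : ℂ)) *
            (Complex.exp (Complex.I * ((θ * b ω : ℝ) : ℂ)) - 1) := by
        rw [mul_sub (Complex.exp _), ← Complex.exp_add, mul_one]
        congr 2; push_cast; ring
      rw [e, norm_mul, localB_norm_exp, one_mul]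
      refine (localB_exp_one _).trans ?_
      rw [← mul_pow, ← sq_abs (θ * b ω), le_div_iff₀ (by norm_num : (0 : ℝ) < 2),
        ← sub_le_iff_le_add', le_div_iff₀ hδ]
      nlinarith [sq_nonneg (|θ * b ω| - δ)]
    · rw [integral_div, integral_add (integrable_const _) ((ib.const_mul _).div_const _),
        integral_div, integral_const_mul]
      simp
  · have p1 : 0 ≤ ∫ ω, a ω ^ 2 ∂P := integral_nonneg fun ω => sq_nonneg _
    have p2 : 0 ≤ ∫ ω, (a ω - b ω) ^ 2 ∂P := integral_nonneg fun ω => sq_nonneg _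
    refine (localB_exp_neg (by positivity) (by positivity)).trans ?_
    have e : θ ^ 2 * (∫ ω, a ω ^ 2 ∂P) / 2 - θ ^ 2 * (∫ ω, (a ω - b ω) ^ 2 ∂P) / 2 =
        θ ^ 2 / 2 * ∫ ω, (a ω ^ 2 - (a ω - b ω) ^ 2) ∂P := by
      rw [integral_sub ia iab]; ring
    rw [e, abs_mul, abs_of_nonneg (by positivity : 0 ≤ θ ^ 2 / 2)]
    refine mul_le_mul_of_nonneg_left ?_ (by positivity)
    rw [← integral_const_mul, ← integral_const_mul,
      ← integral_add (ia.const_mul _) (ib.const_mul _), ← Real.norm_eq_abs]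
    refine norm_integral_le_of_norm_le ((ia.const_mul _).add (ib.const_mul _))
      (Eventually.of_forall fun ω => ?_)
    have h1 : 0 ≤ δ * (a ω - b ω / δ) ^ 2 := by positivity
    have h2 : 0 ≤ δ * (a ω + b ω / δ) ^ 2 := by positivity
    have e1 : δ * (a ω - b ω / δ) ^ 2 = δ * a ω ^ 2 - 2 * a ω * b ω + 1 / δ * b ω ^ 2 := by
      field_simp; ring
    have e2 : δ * (a ω + b ω / δ) ^ 2 = δ * a ω ^ 2 + 2 * a ω * b ω + 1 / δ * b ω ^ 2 := by
      field_simp; ring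
    rw [Real.norm_eq_abs, abs_le]
    constructor <;> nlinarith [sq_nonneg (b ω)]

omit [Fintype J] in
/-- the case of a bounded value -/
theorem localB_bdd (h : Slots ν s z) {Δ : ℕ} {B M m : ℝ} (hM0 : 0 ≤ M) (hM : ∀ x, |z x| ≤ M)
    (hm0 : 0 ≤ m) (hm : ∀ j, ∫ x, (s x : ℝ) ∂ν j ≤ m) (c : Core Ω J) (hc : c.Good Δ B)
    (hk : 1 ≤ c.k) {θ t Θ2 : ℝ} (hθ : θ ^ 2 * c.k ≤ Θ2) :
    ‖∫ ω, Complex.exp (Complex.I * ((θ * (c.Z z ω - c.L ν z) + t * c.S s ω : ℝ) : ℂ)) ∂c.P ν -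
      ((Real.exp (-(θ ^ 2 * c.Q ν z / 2)) : ℝ) : ℂ) *
        ∫ ω, Complex.exp (Complex.I * ((t * c.S s ω : ℝ) : ℂ)) ∂c.P ν‖ ≤
      ((1 + 2 * Δ) * (2 * (M + |B|)) * (2 * Θ2 * (((Δ + 1) * (Δ + 1) : ℕ) * (2 * (M + |B|))) ^ 2 +
        (Δ + 1 : ℕ) * m * (c.k * |t|)) +
        (1 + Θ2 * (4 * ((Δ + 1 : ℕ) : ℝ) ^ 3 * (2 * (M + |B|)) ^ 2) ^ 2 / 2) / 2) * |θ| := by
  classical
  have := h.prob
  have hP : c.P ν = Measure.pi fun i => ν (c.cls i) := rfl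
  have hB0 : 0 ≤ 2 * (M + |B|) := by positivity
  have hcen : ∀ {α : Type} [MeasurableSpace α] (μ : Measure α) [IsProbabilityMeasure μ]
      (f : α → ℝ) (K : ℝ), (∀ x, |f x| ≤ K) → ∀ x, |f x - ∫ y, f y ∂μ| ≤ 2 * K := by
    intro α _ μ _ f K hf x
    have h1 : ‖∫ y, f y ∂μ‖ ≤ K * μ.real Set.univ :=
      norm_integral_le_of_norm_le_const (Eventually.of_forall hf)
    rw [probReal_univ, mul_one, Real.norm_eq_abs] at h1
    have := abs_sub (f x) (∫ y, f y ∂μ)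
    linarith [hf x]
  let ξ : c.I ⊕ c.W → (c.I → Ω) → ℝ := Sum.elim
    (fun i ω => z (ω i) - ∫ x, z x ∂ν (c.cls i)) (fun v ω => c.g v ω - ∫ x, c.g v x ∂c.P ν)
  let dep : c.I ⊕ c.W → Finset c.I := Sum.elim (fun i => {i}) c.dep
  have hdep : ∀ a ω ω', (∀ i ∈ dep a, ω i = ω' i) → ξ a ω = ξ a ω' := by
    rintro (i | v) ω ω' hh
    · simp only [ξ, Sum.elim_inl]
      rw [hh i (Finset.mem_singleton_self i)]
    · simp only [ξ, Sum.elim_inr]
      rw [c.g_dep v ω ω' hh]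
  have hB : ∀ a ω, |ξ a ω| ≤ 2 * (M + |B|) := by
    rintro (i | v) ω
    · exact hcen _ z _ (fun x => (hM x).trans (by linarith [abs_nonneg B])) _
    · have := c.isProb h.prob
      exact hcen _ (c.g v) _ (fun x => (hc.bd v x).trans (by linarith [le_abs_self B])) _
  have h0 : ∀ a, ∫ ω, ξ a ω ∂(Measure.pi fun i => ν (c.cls i)) = 0 := by
    rintro (i | v)
    · simp only [ξ, Sum.elim_inl]
      rw [integral_sub (integrable_comp_eval (μ := fun i => ν (c.cls i)) (h.int_z _))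
        (integrable_const _), integral_comp_eval (μ := fun i => ν (c.cls i))
          AEStronglyMeasurable.of_discrete]
      simp
    · simp only [ξ, Sum.elim_inr]
      rw [integral_sub (localB_int_bdd _ _ B (hc.bd v)) (integrable_const _), hP]
      simp
  have hcard : ∀ a, (dep a).card ≤ Δ + 1 := by
    rintro (i | v)
    · simp [dep]
    · exact (hc.dep_card v).trans (Nat.le_succ _)
  have hmult : ∀ i, (Finset.univ.filter fun a => i ∈ dep a).card ≤ Δ + 1 := by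
    intro i
    have h1 := hc.dep_mult i
    rw [Nat.card_eq_fintype_card, Fintype.card_subtype, Finset.card_filter] at h1
    rw [Finset.card_filter, Fintype.sum_sum_type, add_comm]
    refine add_le_add h1 (le_of_eq ?_)
    simp [dep]
  have hX : ∀ ω, ∑ a, ξ a ω = c.Z z ω - c.L ν z := by
    intro ω
    rw [Fintype.sum_sum_type, Core.L_eq h.toSlots1 hc]
    simp only [ξ, Sum.elim_inl, Sum.elim_inr, Finset.sum_sub_distrib, Core.Z]
    ring
  have hQ : ∫ ω, (∑ a, ξ a ω) ^ 2 ∂(Measure.pi fun i => ν (c.cls i)) = c.Q ν z := by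
    simp only [hX]
    exact (variance_eq_integral Measurable.of_discrete.aemeasurable).symm
  have hT : ∀ ω, t * c.s0 + ∑ i, t * (s (ω i) : ℝ) = t * c.S s ω := by
    intro ω
    rw [Core.S]; push_cast
    rw [mul_add, Finset.mul_sum]
  have hW : (Fintype.card (c.I ⊕ c.W) : ℝ) ≤ (1 + 2 * Δ) * c.k := by
    have h1 := hc.W_card
    have h2 : Fintype.card (c.I ⊕ c.W) ≤ (1 + 2 * Δ) * c.k := by
      rw [Fintype.card_sum]
      have h3 : Δ ≤ Δ * c.k := Nat.le_mul_of_pos_right _ hk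
      have e : Fintype.card c.I = c.k := rfl
      nlinarith
    exact_mod_cast h2
  have := c.isProb h.prob
  refine localB_ode (c.P ν) (fun ω => c.Z z ω - c.L ν z) (fun ω => t * c.S s ω)
    Measurable.of_discrete Measurable.of_discrete
    (K := (Finset.univ : Finset (c.I ⊕ c.W)).card * (2 * (M + |B|)))
    (fun ω => by rw [← hX]; exact localB_sum_bdd ξ hB0 hB _ le_rfl ω)
    (variance_nonneg _ _) fun u hu => ?_
  have hs := localB_stein (fun i => ν (c.cls i)) ξ dep hdep (m := |t| * m) hB0 hB h0 hcard hmult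
    (fun x => t * (s x : ℝ)) (fun i => (h.int_s _).const_mul t) (by positivity)
    (fun i => by
      simp only [abs_mul, Nat.abs_cast]
      rw [integral_const_mul]
      exact mul_le_mul_of_nonneg_left (hm _) (abs_nonneg t)) u (t * c.s0)
  rw [hQ] at hs
  simp only [hX, hT] at hs
  refine hs.trans ?_
  have hu2 : u ^ 2 * c.k ≤ Θ2 :=
    le_trans (mul_le_mul_of_nonneg_right (sq_le_sq.2 hu) (Nat.cast_nonneg _)) hθ
  have e : (Fintype.card c.I : ℝ) = c.k := rfl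
  rw [e]
  set B' := 2 * (M + |B|)
  set x : ℝ := ((Δ + 1) * (Δ + 1) : ℕ) * B'
  set y : ℝ := 4 * ((Δ + 1 : ℕ) : ℝ) ^ 3 * B' ^ 2
  refine add_le_add ((mul_le_mul_of_nonneg_right hW (by positivity)).trans ?_) ?_
  · have e1 : (1 + 2 * (Δ : ℝ)) * c.k * (B' * (2 * (u * x) ^ 2 + (Δ + 1 : ℕ) * (|t| * m))) =
        (1 + 2 * Δ) * B' * (2 * (u ^ 2 * c.k) * x ^ 2 + (Δ + 1 : ℕ) * m * (c.k * |t|)) := by ring
    rw [e1]
    gcongr
  · have e1 : u ^ 2 * (c.k * y ^ 2 / 2) = (u ^ 2 * c.k) * y ^ 2 / 2 := by ring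
    rw [e1]
    gcongr

omit [Countable Ω] in
theorem localB_tail (h : Slots ν s z) {η : ℝ} (hη : 0 < η) :
    ∃ M : ℝ, 0 ≤ M ∧ ∀ j, ∫ x, (z x - if |z x| ≤ M then z x else 0) ^ 2 ∂ν j ≤ η := by
  have key : ∀ j, ∀ᶠ M : ℝ in atTop, ∫ x, (z x - if |z x| ≤ M then z x else 0) ^ 2 ∂ν j ≤ η := by
    intro j
    have ht : Tendsto (fun M : ℝ => ∫ x, (z x - if |z x| ≤ M then z x else 0) ^ 2 ∂ν j) atTop
        (𝓝 (∫ _x, (0 : ℝ) ∂ν j)) := by
      refine tendsto_integral_filter_of_dominated_convergence (fun x => z x ^ 2)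
        (Eventually.of_forall fun M => Measurable.of_discrete.aestronglyMeasurable)
        (Eventually.of_forall fun M => Eventually.of_forall fun x => ?_)
        (h.mem_z j).integrable_sq (Eventually.of_forall fun x => ?_)
      · split <;> simp [sq_nonneg]
      · refine tendsto_const_nhds.congr' ?_
        filter_upwards [eventually_ge_atTop |z x|] with M hM
        simp [hM]
    rw [integral_zero] at ht
    exact ht.eventually (eventually_le_nhds hη)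
  obtain ⟨M, h1, h2⟩ := ((eventually_ge_atTop (0 : ℝ)).and (eventually_all.2 key)).exists
  exact ⟨M, h1, h2⟩

theorem localB_small (K₁ K₂ : ℝ) {ε : ℝ} (hε : 0 < ε) :
    ∃ k0 : ℕ, 1 ≤ k0 ∧ ∀ k : ℕ, k0 ≤ k →
      (K₁ + K₂ * (k * (k : ℝ) ^ (-(2 / 3) : ℝ))) / √k ≤ ε := by
  have h1 : Tendsto (fun x : ℝ => K₁ * x ^ (-(1 / 2) : ℝ) + K₂ * x ^ (-(1 / 6) : ℝ)) atTop
      (𝓝 (K₁ * 0 + K₂ * 0)) :=
    ((tendsto_rpow_neg_atTop (by norm_num)).const_mul K₁).add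
      ((tendsto_rpow_neg_atTop (by norm_num)).const_mul K₂)
  rw [mul_zero, mul_zero, add_zero] at h1
  obtain ⟨k0, hk0⟩ := eventually_atTop.1
    ((h1.comp tendsto_natCast_atTop_atTop).eventually (eventually_le_nhds hε))
  refine ⟨max k0 1, le_max_right _ _, fun k hk => ?_⟩
  have hk1 : (0 : ℝ) < k := by exact_mod_cast lt_of_lt_of_le Nat.one_pos ((le_max_right _ _).trans hk)
  refine le_trans (le_of_eq ?_) (hk0 k ((le_max_left _ _).trans hk))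
  have e1 : (k : ℝ) ^ (-(1 / 6) : ℝ) =
      k * (k : ℝ) ^ (-(2 / 3) : ℝ) * (k : ℝ) ^ (-(1 / 2) : ℝ) := by
    rw [mul_assoc, ← Real.rpow_add hk1, ← Real.rpow_one_add' hk1.le (by norm_num)]
    norm_num
  simp only [Function.comp]
  rw [e1, Real.sqrt_eq_rpow, div_eq_mul_inv, ← Real.rpow_neg hk1.le]
  ring

/-- asymptotic independence of the value and the size -/
theorem joint_small (h : Slots ν s z) (h1 : T1 ν s A) (Δ : ℕ) (B Θ R : ℝ) {ε : ℝ} (hε : 0 < ε) :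
    ∃ k0 : ℕ, ∀ c : Core Ω J, c.Good Δ B → k0 ≤ c.k →
      ∀ θ t : ℝ, |θ| ≤ Θ / √c.k → |t| ≤ R * (c.k : ℝ) ^ (-(2 / 3) : ℝ) →
        ‖∫ ω, Complex.exp (Complex.I * ((θ * c.Z z ω + t * c.S s ω : ℝ) : ℂ)) ∂c.P ν -
          Complex.exp (Complex.I * ((θ * c.L ν z : ℝ) : ℂ)) *
            ((Real.exp (-(θ ^ 2 * c.Q ν z / 2)) : ℝ) : ℂ) *
              ∫ ω, Complex.exp (Complex.I * ((t * c.S s ω : ℝ) : ℂ)) ∂c.P ν‖ ≤ ε := by
  have _h1 := h1
  have := h.prob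
  obtain ⟨C, hC⟩ := Core.Q_le h Δ B
  obtain ⟨m, hm0, hm⟩ : ∃ m : ℝ, 0 ≤ m ∧ ∀ j, ∫ x, (s x : ℝ) ∂ν j ≤ m :=
    ⟨∑ j, ∫ x, (s x : ℝ) ∂ν j,
      Finset.sum_nonneg fun j _ => integral_nonneg fun x => Nat.cast_nonneg _,
      fun j => Finset.single_le_sum (f := fun j => ∫ x, (s x : ℝ) ∂ν j)
        (fun j _ => integral_nonneg fun x => Nat.cast_nonneg _) (Finset.mem_univ j)⟩
  obtain ⟨δ, hδ, hδ2⟩ : ∃ δ : ℝ, 0 < δ ∧ δ * (1 + Θ ^ 2 * |C|) = ε / 2 :=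
    ⟨ε / 2 / (1 + Θ ^ 2 * |C|), by positivity, by field_simp⟩
  obtain ⟨η, hη, hη2⟩ : ∃ η : ℝ, 0 < η ∧ η * (1 + Θ ^ 2 * (1 + 2 / δ)) = ε / 2 :=
    ⟨ε / 2 / (1 + Θ ^ 2 * (1 + 2 / δ)), by positivity, by field_simp⟩
  obtain ⟨M, hM0, hM⟩ := localB_tail h hη
  set z₁ : Ω → ℝ := fun x => if |z x| ≤ M then z x else 0 with hz₁
  have hz₁M : ∀ x, |z₁ x| ≤ M := fun x => by
    simp only [hz₁]; split
    · assumption
    · simpa using hM0
  have hL₁ : ∀ j, MemLp z₁ 2 (ν j) := fun j =>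
    MemLp.of_bound AEStronglyMeasurable.of_discrete M (Eventually.of_forall hz₁M)
  have h₁ : Slots ν s z₁ :=
    ⟨⟨h.prob, h.int_s, fun j => (hL₁ j).integrable (by norm_num)⟩, hL₁⟩
  set a₁ : ℝ := (1 + 2 * Δ) * (2 * (M + |B|)) with ha₁
  set a₂ : ℝ := 2 * Θ ^ 2 * (((Δ + 1) * (Δ + 1) : ℕ) * (2 * (M + |B|))) ^ 2 with ha₂
  set a₃ : ℝ := (Δ + 1 : ℕ) * m with ha₃
  set a₄ : ℝ := (1 + Θ ^ 2 * (4 * ((Δ + 1 : ℕ) : ℝ) ^ 3 * (2 * (M + |B|)) ^ 2) ^ 2 / 2) / 2 with ha₄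
  obtain ⟨k0, hk1, hk0⟩ := localB_small ((a₁ * a₂ + a₄) * Θ) (a₁ * a₃ * R * Θ) (half_pos hε)
  refine ⟨k0, fun c hc hk θ t hθ ht => ?_⟩
  have hkp : (0 : ℝ) < c.k := by exact_mod_cast lt_of_lt_of_le Nat.one_pos (hk1.trans hk)
  have hθ2 : θ ^ 2 * c.k ≤ Θ ^ 2 := by
    have h2 : θ ^ 2 ≤ (Θ / √c.k) ^ 2 := by
      rw [← sq_abs θ]; exact pow_le_pow_left₀ (abs_nonneg _) hθ 2
    rw [div_pow, Real.sq_sqrt hkp.le, le_div_iff₀ hkp] at h2
    exact h2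
  have := c.isProb h.prob
  have b1 := localB_bdd h₁ hM0 hz₁M hm0 hm c hc (hk1.trans hk) (t := t) hθ2
  have b2 : (a₁ * (a₂ + a₃ * (c.k * |t|)) + a₄) * |θ| ≤ ε / 2 := by
    refine le_trans ?_ (hk0 c.k hk)
    have e : ((a₁ * a₂ + a₄) * Θ + a₁ * a₃ * R * Θ * (c.k * (c.k : ℝ) ^ (-(2 / 3) : ℝ))) / √c.k =
        (a₁ * (a₂ + a₃ * (c.k * (R * (c.k : ℝ) ^ (-(2 / 3) : ℝ)))) + a₄) * (Θ / √c.k) := by ring
    rw [e]
    have p1 : 0 ≤ a₁ := by positivity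
    have p2 : 0 ≤ a₂ := by positivity
    have p3 : 0 ≤ a₃ := by positivity
    have p4 : 0 ≤ a₄ := by positivity
    have p5 : 0 ≤ R * (c.k : ℝ) ^ (-(2 / 3) : ℝ) := (abs_nonneg t).trans ht
    gcongr
  have mZ := Core.memLp_Z h hc
  have mZ₁ := Core.memLp_Z h₁ hc
  set a : (c.I → Ω) → ℝ := fun ω => c.Z z ω - c.L ν z with ha
  set b : (c.I → Ω) → ℝ := fun ω => (c.Z z ω - c.Z z₁ ω) - (c.L ν z - c.L ν z₁) with hb
  have hab : ∀ ω, a ω - b ω = c.Z z₁ ω - c.L ν z₁ := fun ω => by simp only [ha, hb]; ring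
  have qa : ∫ ω, a ω ^ 2 ∂c.P ν = c.Q ν z := (variance_eq_integral mZ.aemeasurable).symm
  have qab : ∫ ω, (c.Z z₁ ω - c.L ν z₁) ^ 2 ∂c.P ν = c.Q ν z₁ :=
    (variance_eq_integral mZ₁.aemeasurable).symm
  have qb : ∫ ω, b ω ^ 2 ∂c.P ν ≤ c.k * η := by
    have e1 : (fun ω => c.Z z ω - c.Z z₁ ω) = ∑ i : c.I, fun ω : c.I → Ω => z (ω i) - z₁ (ω i) := by
      funext ω
      simp only [Core.Z, Finset.sum_apply, Finset.sum_sub_distrib]
      ring
    have e2 : c.L ν z - c.L ν z₁ = ∫ ω, (c.Z z ω - c.Z z₁ ω) ∂c.P ν :=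
      (integral_sub (mZ.integrable (by norm_num)) (mZ₁.integrable (by norm_num))).symm
    have e3 : ∫ ω, b ω ^ 2 ∂c.P ν = Var[fun ω => c.Z z ω - c.Z z₁ ω; c.P ν] := by
      rw [variance_eq_integral Measurable.of_discrete.aemeasurable, ← e2]
    rw [e3, e1]
    have e4 := variance_sum_pi (μ := fun i : c.I => ν (c.cls i)) (X := fun _ x => z x - z₁ x)
      (fun i => (h.mem_z _).sub (hL₁ _))
    refine le_trans (le_of_eq e4) ?_
    refine (Finset.sum_le_card_nsmul _ _ η fun i _ => ?_).trans ?_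
    · exact (variance_le_expectation_sq AEStronglyMeasurable.of_discrete).trans (hM _)
    · rw [nsmul_eq_mul]; exact le_rfl
  obtain ⟨t1, t2⟩ := localB_trunc (c.P ν) a b (fun ω => t * c.S s ω) (mZ.sub (memLp_const _))
    ((mZ.sub mZ₁).sub (memLp_const _)) Measurable.of_discrete.aemeasurable θ hδ
  simp only [hab] at t1 t2
  rw [qa, qab] at t2
  have qb0 : 0 ≤ ∫ ω, b ω ^ 2 ∂c.P ν := integral_nonneg fun ω => sq_nonneg _
  have c1 : θ ^ 2 * ∫ ω, b ω ^ 2 ∂c.P ν ≤ Θ ^ 2 * η := by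
    have := mul_le_mul_of_nonneg_left qb (sq_nonneg θ)
    have := mul_le_mul_of_nonneg_right hθ2 hη.le
    linarith
  have c2 : θ ^ 2 * c.Q ν z ≤ Θ ^ 2 * |C| := by
    have h2 : c.Q ν z ≤ |C| * c.k :=
      (hC c hc).trans (mul_le_mul_of_nonneg_right (le_abs_self C) hkp.le)
    have := mul_le_mul_of_nonneg_left h2 (sq_nonneg θ)
    have := mul_le_mul_of_nonneg_right hθ2 (abs_nonneg C)
    linarith
  have c3 : (δ + θ ^ 2 * (∫ ω, b ω ^ 2 ∂c.P ν) / δ) / 2 +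
      θ ^ 2 / 2 * (δ * c.Q ν z + (1 + 1 / δ) * ∫ ω, b ω ^ 2 ∂c.P ν) ≤ ε / 2 := by
    have e : (δ + θ ^ 2 * (∫ ω, b ω ^ 2 ∂c.P ν) / δ) / 2 +
        θ ^ 2 / 2 * (δ * c.Q ν z + (1 + 1 / δ) * ∫ ω, b ω ^ 2 ∂c.P ν) =
        (δ * (1 + θ ^ 2 * c.Q ν z) + (θ ^ 2 * ∫ ω, b ω ^ 2 ∂c.P ν) * (1 + 2 / δ)) / 2 := by ring
    have d1 : δ * (1 + θ ^ 2 * c.Q ν z) ≤ δ * (1 + Θ ^ 2 * |C|) :=
      mul_le_mul_of_nonneg_left (by linarith) hδ.le
    have d2 : (θ ^ 2 * ∫ ω, b ω ^ 2 ∂c.P ν) * (1 + 2 / δ) ≤ Θ ^ 2 * η * (1 + 2 / δ) :=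
      mul_le_mul_of_nonneg_right c1 (by positivity)
    rw [e]
    nlinarith
  have n1 : ‖∫ ω, Complex.exp (Complex.I * ((t * c.S s ω : ℝ) : ℂ)) ∂c.P ν‖ ≤ 1 := by
    have := norm_integral_le_of_norm_le_const (μ := c.P ν) (C := 1)
      (f := fun ω => Complex.exp (Complex.I * ((t * c.S s ω : ℝ) : ℂ)))
      (Eventually.of_forall fun ω => (localB_norm_exp _).le)
    simpa using this
  have e5 : ∫ ω, Complex.exp (Complex.I * ((θ * c.Z z ω + t * c.S s ω : ℝ) : ℂ)) ∂c.P ν =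
      Complex.exp (Complex.I * ((θ * c.L ν z : ℝ) : ℂ)) *
        ∫ ω, Complex.exp (Complex.I * ((θ * a ω + t * c.S s ω : ℝ) : ℂ)) ∂c.P ν := by
    rw [← integral_const_mul]
    refine integral_congr_ae (Eventually.of_forall fun ω => ?_)
    simp only [ha]
    rw [← Complex.exp_add]
    congr 1; push_cast; ring
  rw [e5, mul_assoc, ← mul_sub, norm_mul, localB_norm_exp, one_mul]
  set F := ∫ ω, Complex.exp (Complex.I * ((θ * a ω + t * c.S s ω : ℝ) : ℂ)) ∂c.P ν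
  set F₁ := ∫ ω, Complex.exp (Complex.I *
    ((θ * (c.Z z₁ ω - c.L ν z₁) + t * c.S s ω : ℝ) : ℂ)) ∂c.P ν
  set G := ∫ ω, Complex.exp (Complex.I * ((t * c.S s ω : ℝ) : ℂ)) ∂c.P ν
  set x := Real.exp (-(θ ^ 2 * c.Q ν z / 2))
  set x₁ := Real.exp (-(θ ^ 2 * c.Q ν z₁ / 2))
  have e6 : F - x * G = (F - F₁) + (F₁ - x₁ * G) - ((x - x₁ : ℝ) : ℂ) * G := by
    push_cast; ring
  have n2 : ‖((x - x₁ : ℝ) : ℂ) * G‖ ≤ |x - x₁| := by
    rw [norm_mul, Complex.norm_real, Real.norm_eq_abs]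
    exact mul_le_of_le_one_right (abs_nonneg _) n1
  have n3 := norm_sub_le ((F - F₁) + (F₁ - x₁ * G)) (((x - x₁ : ℝ) : ℂ) * G)
  have n4 := norm_add_le (F - F₁) (F₁ - x₁ * G)
  have n5 := b1.trans b2
  rw [e6]
  linarith

end Pool.Agent.Lib.MP_77dff5_pr
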