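import Pool.Agent.Lib.MP_77dff5_pr.LocalA
import Pool.Agent.Lib.MP_77dff5_pr.LocalB

/-! The conditional local central limit theorem for a filled core. -/

set_option autoImplicit false

namespace Pool.Agent.Lib.MP_77dff5_pr

open MeasureTheory ProbabilityTheory Filter Topology
open scoped ENNReal NNReal

theorem local_tail {C c' η : ℝ} (hc' : 0 < c') (hη : 0 < η) : ∃ R : ℝ, 0 < R ∧ ∀ u : ℝ, R ≤ u →
    2 * C * Real.exp (-(c' * u ^ (3 / 2 : ℝ))) ≤ η * (1 + u ^ 2)⁻¹ := by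
  refine ⟨max 1 (24 * |C| / (c' ^ 3 * η)), lt_max_of_lt_left one_pos, fun u hu => ?_⟩
  have hu1 : 1 ≤ u := le_of_max_le_left hu
  have hu0 : 0 < u := by linarith
  have hu2 : 24 * |C| / (c' ^ 3 * η) ≤ u := le_of_max_le_right hu
  rw [div_le_iff₀ (by positivity)] at hu2
  have h1 : u ≤ u ^ (3 / 2 : ℝ) := by
    calc u = u ^ (1 : ℝ) := (Real.rpow_one u).symm
      _ ≤ _ := Real.rpow_le_rpow_of_exponent_le hu1 (by norm_num)
  have h2 : (c' * u) ^ 3 / 6 ≤ Real.exp (c' * u ^ (3 / 2 : ℝ)) := by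
    have := Real.pow_div_factorial_le_exp (c' * u) (by positivity) 3
    have e : ((Nat.factorial 3 : ℕ) : ℝ) = 6 := by norm_num [Nat.factorial]
    rw [e] at this
    exact this.trans (Real.exp_le_exp.2 (mul_le_mul_of_nonneg_left h1 hc'.le))
  rw [Real.exp_neg, ← div_eq_mul_inv, ← div_eq_mul_inv,
    div_le_div_iff₀ (Real.exp_pos _) (by positivity)]
  have h3 : 1 + u ^ 2 ≤ 2 * u ^ 2 := by nlinarith
  calc 2 * C * (1 + u ^ 2) ≤ 2 * |C| * (2 * u ^ 2) :=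
        mul_le_mul (by linarith [le_abs_self C]) h3 (by positivity) (by positivity)
    _ = 24 * |C| * u ^ 2 / 6 := by ring
    _ ≤ u * (c' ^ 3 * η) * u ^ 2 / 6 := by gcongr
    _ = η * ((c' * u) ^ 3 / 6) := by ring
    _ ≤ _ := mul_le_mul_of_nonneg_left h2 hη.le

theorem local_int {a η : ℝ} (ha : 0 < a) (hη : 0 ≤ η) :
    ∫ t in (-Real.pi)..Real.pi, η * (1 + (a * t) ^ 2)⁻¹ ≤ η * Real.pi * a⁻¹ := by
  rw [intervalIntegral.integral_const_mul,
    intervalIntegral.integral_comp_mul_left (fun x : ℝ => (1 + x ^ 2)⁻¹) ha.ne',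
    integral_inv_one_add_sq, smul_eq_mul, mul_assoc, mul_comm Real.pi]
  have h1 := Real.arctan_lt_pi_div_two (a * Real.pi)
  have h2 := Real.neg_pi_div_two_lt_arctan (a * -Real.pi)
  gcongr
  linarith

theorem local_norm_exp (x : ℝ) : ‖Complex.exp (Complex.I * (x : ℂ))‖ = 1 := by
  rw [mul_comm, Complex.norm_exp_ofReal_mul_I]

variable {Ω J : Type} [Countable Ω] [MeasurableSpace Ω] [DiscreteMeasurableSpace Ω] [Fintype J]
  {ν : J → Measure Ω} {s : Ω → ℕ} {z : Ω → ℝ} {A c₀ : ℝ} {j₀ : J}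

omit [Fintype J] in
theorem local_fourier (h : Slots ν s z) (c : Core Ω J) (θ : ℝ) (κ : ℂ) (n : ℕ) :
    ch (c.law ν s z) n θ - κ * ((c.kap ν s n : ℝ) : ℂ) =
      (2 * Real.pi : ℂ)⁻¹ * ∫ t in (-Real.pi)..Real.pi,
        Complex.exp (-(Complex.I * ((t * (n : ℤ) : ℝ) : ℂ))) *
          (∫ ω, Complex.exp (Complex.I * ((θ * c.Z z ω + t * c.S s ω : ℝ) : ℂ)) ∂c.P ν -
            κ * ∫ ω, Complex.exp (Complex.I * ((t * c.S s ω : ℝ) : ℂ)) ∂c.P ν) := by
  have := h.prob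
  have hP : IsProbabilityMeasure (c.P ν) := by unfold Core.P; infer_instance
  have hint : ∀ f : (c.I → Ω) → ℝ,
      Integrable (fun ω => Complex.exp (Complex.I * ((f ω : ℝ) : ℂ))) (c.P ν) := fun f =>
    Integrable.of_bound (Measurable.of_discrete.aestronglyMeasurable) 1
      (Eventually.of_forall fun ω => (local_norm_exp _).le)
  have hF : Integrable (fun ω => Complex.exp (Complex.I * ((θ * c.Z z ω : ℝ) : ℂ)) - κ) (c.P ν) :=
    (hint _).sub (integrable_const κ)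
  have key := setIntegral_eq_fourier (c.P ν) (c.S s) Measurable.of_discrete _ hF (n : ℤ)
  have e1 : ch (c.law ν s z) n θ =
      ∫ ω in {ω | (c.S s ω : ℤ) = n}, Complex.exp (Complex.I * ((θ * c.Z z ω : ℝ) : ℂ)) ∂c.P ν := by
    unfold ch Core.law
    have hs : MeasurableSet {p : ℕ × ℝ | p.1 = n} :=
      measurable_fst (MeasurableSet.singleton n)
    rw [setIntegral_map hs (Measurable.aestronglyMeasurable (by fun_prop))
      Measurable.of_discrete.aemeasurable]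
    have : (fun ω => (c.S s ω, c.Z z ω)) ⁻¹' {p : ℕ × ℝ | p.1 = n} =
        {ω | (c.S s ω : ℤ) = n} := by
      ext ω
      simp
    rw [this]
  have e2 : κ * ((c.kap ν s n : ℝ) : ℂ) = ∫ _ω in {ω | (c.S s ω : ℤ) = n}, κ ∂c.P ν := by
    rw [setIntegral_const, Complex.real_smul, mul_comm]
    rfl
  rw [e1, e2, ← integral_sub (hint _).integrableOn (integrable_const κ).integrableOn, key]
  congr 1
  refine intervalIntegral.integral_congr fun t _ => ?_
  congr 1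
  rw [← integral_const_mul, ← integral_sub (hint _) ((hint _).const_mul κ)]
  refine integral_congr_ae (Eventually.of_forall fun ω => ?_)
  simp only
  rw [sub_mul, ← Complex.exp_add]
  push_cast
  ring_nf

theorem local_clt (h : Slots ν s z) (h1 : T1 ν s A) (hc : 0 < c₀) (h4 : T4 (ν j₀) s c₀) (Δ : ℕ)
    (B Θ : ℝ) {ε : ℝ} (hε : 0 < ε) :
    ∃ k0 : ℕ, ∀ c : Core Ω J, c.Good Δ B → c.k ≤ Δ * c.cnt j₀ → k0 ≤ c.k →
      ∀ θ : ℝ, |θ| ≤ Θ / √c.k → ∀ n : ℕ,
        ‖ch (c.law ν s z) n θ - Complex.exp (Complex.I * ((θ * c.L ν z : ℝ) : ℂ)) *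
          ((Real.exp (-(θ ^ 2 * c.Q ν z / 2)) * c.kap ν s n : ℝ) : ℂ)‖ ≤
          ε * (c.k : ℝ) ^ (-(2 / 3) : ℝ) := by
  obtain ⟨C, c', hc', hb⟩ := joint_bound h h1 hc h4 Δ B Θ
  obtain ⟨R, hR, hRt⟩ := local_tail (C := C) hc' hε
  obtain ⟨k0, hk0⟩ := joint_small h h1 Δ B Θ R (ε := ε * (1 + R ^ 2)⁻¹) (by positivity)
  refine ⟨max k0 1, fun c hg hk hkk θ hθ n => ?_⟩
  have hk1 : (1 : ℝ) ≤ c.k := by exact_mod_cast le_of_max_le_right hkk
  have hkp : (0 : ℝ) < c.k := by linarith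
  set a : ℝ := (c.k : ℝ) ^ (2 / 3 : ℝ) with ha
  have ha0 : 0 < a := Real.rpow_pos_of_pos hkp _
  have hai : (c.k : ℝ) ^ (-(2 / 3) : ℝ) = a⁻¹ := Real.rpow_neg hkp.le _
  set κ : ℂ := Complex.exp (Complex.I * ((θ * c.L ν z : ℝ) : ℂ)) *
    ((Real.exp (-(θ ^ 2 * c.Q ν z / 2)) : ℝ) : ℂ) with hκ
  have hκ1 : ‖κ‖ ≤ 1 := by
    rw [hκ, norm_mul, local_norm_exp, one_mul, Complex.norm_real, Real.norm_eq_abs,
      abs_of_pos (Real.exp_pos _), Real.exp_le_one_iff, neg_nonpos]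
    have : 0 ≤ c.Q ν z := variance_nonneg _ _
    positivity
  have e : Complex.exp (Complex.I * ((θ * c.L ν z : ℝ) : ℂ)) *
      ((Real.exp (-(θ ^ 2 * c.Q ν z / 2)) * c.kap ν s n : ℝ) : ℂ) =
      κ * ((c.kap ν s n : ℝ) : ℂ) := by
    rw [hκ, mul_assoc, ← Complex.ofReal_mul]
  rw [e, local_fourier h c θ κ n, hai, norm_mul]
  have hbd : ∀ t : ℝ, t ∈ Set.Ioc (-Real.pi) Real.pi →
      ‖Complex.exp (-(Complex.I * ((t * (n : ℤ) : ℝ) : ℂ))) *
          (∫ ω, Complex.exp (Complex.I * ((θ * c.Z z ω + t * c.S s ω : ℝ) : ℂ)) ∂c.P ν -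
            κ * ∫ ω, Complex.exp (Complex.I * ((t * c.S s ω : ℝ) : ℂ)) ∂c.P ν)‖ ≤
        ε * (1 + (a * t) ^ 2)⁻¹ := by
    intro t ht
    have htπ : |t| ≤ Real.pi := abs_le.2 ⟨ht.1.le, ht.2⟩
    have hn : ‖Complex.exp (-(Complex.I * ((t * (n : ℤ) : ℝ) : ℂ)))‖ = 1 := by
      rw [Complex.exp_neg, norm_inv, local_norm_exp, inv_one]
    rw [norm_mul, hn, one_mul]
    have hsq : (a * t) ^ 2 = (a * |t|) ^ 2 := by rw [mul_pow, mul_pow, sq_abs]
    rcases le_total (a * |t|) R with hle | hle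
    · have h2 : |t| ≤ R * (c.k : ℝ) ^ (-(2 / 3) : ℝ) := by
        rw [hai, ← div_eq_mul_inv, le_div_iff₀ ha0, mul_comm]
        exact hle
      refine (hk0 c hg (le_of_max_le_left hkk) θ t hθ h2).trans ?_
      rw [hsq]
      gcongr
    · have h0 : |(0 : ℝ)| ≤ Θ / √c.k := by rw [abs_zero]; exact (abs_nonneg θ).trans hθ
      have h2 := hb c hg hk θ t hθ htπ
      have h3 := hb c hg hk 0 t h0 htπ
      simp only [zero_mul, zero_add] at h3
      have h5 : c' * c.k * |t| ^ (3 / 2 : ℝ) = c' * (a * |t|) ^ (3 / 2 : ℝ) := by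
        rw [Real.mul_rpow ha0.le (abs_nonneg t), ha, ← Real.rpow_mul hkp.le]
        norm_num
        ring
      rw [h5] at h2 h3
      refine (norm_sub_le _ _).trans ?_
      rw [norm_mul, hsq]
      refine le_trans ?_ (hRt _ hle)
      have h6 := mul_le_mul hκ1 h3 (norm_nonneg _) zero_le_one
      linarith
  have hI := intervalIntegral.norm_integral_le_of_norm_le (μ := volume)
    (by linarith [Real.pi_pos] : -Real.pi ≤ Real.pi) (Eventually.of_forall hbd)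
    (Continuous.intervalIntegrable (by
      refine continuous_const.mul (Continuous.inv₀ (by fun_prop) fun t => ?_)
      positivity) _ _)
  have hI2 := hI.trans (local_int ha0 hε.le)
  have hn2 : ‖(2 * Real.pi : ℂ)⁻¹‖ = (2 * Real.pi)⁻¹ := by
    rw [norm_inv, norm_mul, Complex.norm_real, Real.norm_eq_abs, abs_of_pos Real.pi_pos]
    norm_num
  rw [hn2]
  have hπ := Real.pi_pos
  calc (2 * Real.pi)⁻¹ * _ ≤ (2 * Real.pi)⁻¹ * (ε * Real.pi * a⁻¹) := by gcongr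
    _ = ε * a⁻¹ / 2 := by field_simp
    _ ≤ ε * a⁻¹ := by
      have : 0 ≤ ε * a⁻¹ := by positivity
      linarith

end Pool.Agent.Lib.MP_77dff5_pr
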