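import Pool.Agent.Lib.MP_77dff5_pr.SumsA

/-! Summation lemmas for the window estimates. -/

set_option autoImplicit false

namespace Pool.Agent.Lib.MP_77dff5_pr

open MeasureTheory Filter Topology
open scoped ENNReal NNReal

variable {T : Type}

theorem winD_sub (p : T → Prop) [DecidablePred p] (c : T → ℝ≥0∞) :
    ∑' t : {t // p t}, c t = ∑' t, if p t then c t else 0 := by
  refine (tsum_subtype {t | p t} c).trans (tsum_congr fun t => ?_)
  simp [Set.indicator_apply]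

theorem winD_mono {p p' : T → Prop} (c : T → ℝ≥0∞) (h : ∀ t, p t → p' t) :
    ∑' t : {t // p t}, c t ≤ ∑' t : {t // p' t}, c t := by
  classical
  rw [winD_sub, winD_sub]
  refine ENNReal.tsum_le_tsum fun t => ?_
  by_cases a : p t
  · simp [a, h t a]
  · simp [a]

theorem winD_norm_le {f : T → ℂ} {a : ℂ} (hf : HasSum f a) {b : T → ℝ≥0∞}
    (hb : ∀ t, ENNReal.ofReal ‖f t‖ ≤ b t) {r : ℝ} (hr : 0 ≤ r)
    (hs : ∑' t, b t ≤ ENNReal.ofReal r) : ‖a‖ ≤ r := by
  rw [← ENNReal.ofReal_le_ofReal_iff hr, ofReal_norm, ← hf.tsum_eq]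
  refine enorm_tsum_le_tsum_enorm.trans (le_trans (ENNReal.tsum_le_tsum fun t => ?_) hs)
  rw [← ofReal_norm]
  exact hb t

theorem winD_rpow_neg {a b M e : ℝ} (ha : 0 < a) (hM : 0 < M) (h : a ≤ M * b) (he : 0 ≤ e) :
    b ^ (-e) ≤ M ^ e * a ^ (-e) := by
  have h1 : a / M ≤ b := by rwa [div_le_iff₀' hM]
  calc b ^ (-e) ≤ (a / M) ^ (-e) :=
        Real.rpow_le_rpow_of_nonpos (div_pos ha hM) h1 (by linarith)
    _ = M ^ e * a ^ (-e) := by
        rw [Real.div_rpow ha.le hM.le, Real.rpow_neg hM.le, div_inv_eq_mul, mul_comm]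

theorem winD_rpow_pos {a b M e : ℝ} (ha : 0 ≤ a) (hb : 0 ≤ b) (hM : 0 ≤ M) (h : a ≤ M * b)
    (he : 0 ≤ e) : a ^ e ≤ M ^ e * b ^ e := by
  rw [← Real.mul_rpow hM hb]
  exact Real.rpow_le_rpow ha h he

/-- a linear bound for the mass near a point controls the sum against `d ^ (-3/2)` -/
theorem winD_dyadic (c : T → ℝ≥0∞) (d : T → ℝ) {M x : ℝ} (hM : 0 ≤ M) (hx : 0 < x)
    (h : ∀ y, x ≤ y → ∑' t : {t // d t ≤ y}, c t ≤ ENNReal.ofReal (M * y)) :
    ∑' t : {t // x < d t}, c t * ENNReal.ofReal (d t ^ (-(3 / 2) : ℝ)) ≤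
      ENNReal.ofReal (8 * M * x ^ (-(1 / 2) : ℝ)) := by
  classical
  rw [winD_sub (fun t => x < d t) fun t => c t * ENNReal.ofReal (d t ^ (-(3 / 2) : ℝ))]
  have h1 : ∀ t, (if x < d t then c t * ENNReal.ofReal (d t ^ (-(3 / 2) : ℝ)) else 0) ≤
      ∑' j : ℕ, ENNReal.ofReal ((4 ^ j * x) ^ (-(3 / 2) : ℝ)) *
        if d t ≤ 4 ^ (j + 1) * x then c t else 0 := by
    intro t
    split_ifs with a
    · obtain ⟨j, j1, j2⟩ := exists_nat_pow_near (x := d t / x) (y := 4)
        (by rw [le_div_iff₀ hx]; linarith) (by norm_num)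
      rw [le_div_iff₀ hx] at j1
      rw [div_lt_iff₀ hx] at j2
      refine le_trans ?_ (ENNReal.le_tsum j)
      rw [if_pos j2.le, mul_comm]
      exact mul_le_mul_left (ENNReal.ofReal_le_ofReal
        (Real.rpow_le_rpow_of_nonpos (by positivity) j1 (by norm_num))) _
    · exact zero_le
  refine (ENNReal.tsum_le_tsum h1).trans ?_
  rw [ENNReal.tsum_comm]
  have h2 : ∀ j : ℕ, ∑' t, ENNReal.ofReal ((4 ^ j * x) ^ (-(3 / 2) : ℝ)) *
      (if d t ≤ 4 ^ (j + 1) * x then c t else 0) ≤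
        ENNReal.ofReal (4 * M * x ^ (-(1 / 2) : ℝ) * (1 / 2) ^ j) := by
    intro j
    rw [ENNReal.tsum_mul_left, ← winD_sub (fun t => d t ≤ 4 ^ (j + 1) * x) c]
    have a : x ≤ 4 ^ (j + 1) * x := le_mul_of_one_le_left hx.le (one_le_pow₀ (by norm_num))
    refine (mul_le_mul_right (h _ a) _).trans ?_
    rw [← ENNReal.ofReal_mul (by positivity)]
    refine ENNReal.ofReal_le_ofReal (le_of_eq ?_)
    have e1 : ((4 : ℝ) ^ j) ^ (-(3 / 2) : ℝ) = (1 / 8) ^ j := by
      rw [← Real.rpow_natCast, ← Real.rpow_mul (by norm_num), mul_comm, Real.rpow_mul (by norm_num),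
        Real.rpow_natCast]
      congr 1
      rw [show (4 : ℝ) = 2 ^ (2 : ℝ) by norm_num, ← Real.rpow_mul (by norm_num)]
      norm_num
    have e2 : x ^ (-(1 / 2) : ℝ) = x ^ (-(3 / 2) : ℝ) * x := by
      rw [← Real.rpow_add_one hx.ne']
      norm_num
    have e3 : ((1 : ℝ) / 2) ^ j = (1 / 8) ^ j * 4 ^ j := by
      rw [← mul_pow]
      norm_num
    rw [Real.mul_rpow (by positivity) hx.le, e1, e2, e3]
    ring
  refine (ENNReal.tsum_le_tsum h2).trans (le_of_eq ?_)
  rw [← ENNReal.ofReal_tsum_of_nonneg (fun j => by positivity)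
    (summable_geometric_two.mul_left _), tsum_mul_left, tsum_geometric_two]
  congr 1
  ring

variable {pos : T → ℝ}

theorem winD_near {c : T → ℝ≥0∞} {e : ℝ} (h : WinB pos c e) :
    ∃ A : ℝ, 0 ≤ A ∧ ∀ y : ℝ, 2 ≤ y → ∀ x : ℝ, 0 ≤ x →
      ∑' t : {t // |y - pos t| ≤ x ∧ y / 2 ≤ pos t ∧ pos t ≤ 2 * y}, c t ≤
        ENNReal.ofReal (A * y ^ e * (1 + 2 * x / y ^ (2 / 3 : ℝ))) := by
  obtain ⟨A, hA⟩ := h.near
  refine ⟨max A 0, le_max_right _ _, fun y hy x hx => ?_⟩
  have y0 : 0 < y := by linarith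
  refine (winD_mono c ?_).trans ((hA y hy (max (y / 2) (y - x)) (min (2 * y) (y + x))
    (le_max_left _ _) (le_trans (max_le (by linarith) (by linarith))
      (le_min (by linarith : y ≤ 2 * y) (by linarith))) (min_le_left _ _)).trans ?_)
  · rintro t ⟨a, b, c⟩
    rw [abs_le] at a
    exact ⟨max_le b (by linarith), le_min c (by linarith)⟩
  · refine ENNReal.ofReal_le_ofReal ?_
    have a1 := min_le_right (2 * y) (y + x)
    have a2 := le_max_right (y / 2) (y - x)
    have a3 : max (y / 2) (y - x) ≤ min (2 * y) (y + x) := le_trans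
      (max_le (by linarith) (by linarith)) (le_min (by linarith : y ≤ 2 * y) (by linarith))
    have a4 : 0 ≤ min (2 * y) (y + x) - max (y / 2) (y - x) := by linarith
    have a5 : min (2 * y) (y + x) - max (y / 2) (y - x) ≤ 2 * x := by linarith
    gcongr
    exact le_max_left _ _

theorem winD_tail {c : T → ℝ≥0∞} {e : ℝ} (h : DyB pos c e) (he : e < 0) :
    ∃ A : ℝ, 0 ≤ A ∧ ∀ y : ℝ, 1 ≤ y →
      ∑' t : {t // y ≤ pos t}, c t ≤ ENNReal.ofReal (A * y ^ e) := by
  obtain ⟨A, hA⟩ := h.tail he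
  refine ⟨max A 0, le_max_right _ _, fun y hy => (hA y hy).trans (ENNReal.ofReal_le_ofReal ?_)⟩
  have y0 : 0 < y := by linarith
  gcongr
  exact le_max_left _ _

theorem winD_small (R : ℝ) {a b η : ℝ} (hab : a < b) (hη : 0 < η) :
    ∀ᶠ y : ℝ in atTop, R * y ^ a ≤ η * y ^ b := by
  have := (tendsto_rpow_neg_atTop (y := b - a) (by linarith)).const_mul R
  rw [mul_zero] at this
  filter_upwards [this.eventually (gt_mem_nhds hη), eventually_gt_atTop 0] with y h1 h2
  have : y ^ a = y ^ (-(b - a)) * y ^ b := by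
    rw [← Real.rpow_add h2]
    congr 1
    ring
  rw [this, ← mul_assoc]
  exact mul_le_mul_of_nonneg_right h1.le (by positivity)

/-- the law of large numbers in longer windows -/
theorem winD_lln {w : T → ℝ≥0∞} {X : T → ℝ} {e : ℝ} (h : WinLLN pos w X e) {R ε δ : ℝ}
    (hR : 0 ≤ R) (hε : 0 < ε) (hδ : 0 < δ) : ∀ᶠ y : ℝ in atTop,
      ∑' t : {t // |y - pos t| ≤ R * y ^ (2 / 3 : ℝ) ∧ ε * y < |X t - e * pos t|}, w t ≤
        ENNReal.ofReal (δ * y ^ (-(11 / 6) : ℝ)) := by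
  classical
  obtain ⟨N, hN⟩ := exists_nat_gt (4 * R)
  have N0 : (0 : ℝ) < N := by linarith
  obtain ⟨y0, hy0⟩ := eventually_atTop.1 (h (ε / 2) (δ / (4 * N)) (by positivity) (by positivity))
  filter_upwards [eventually_ge_atTop (2 * y0), eventually_gt_atTop 0,
    winD_small R (a := 2 / 3) (b := 1) (η := 1 / 2) (by norm_num) (by norm_num),
    winD_small N (a := 2 / 3) (b := 1) (η := 1) (by norm_num) (by norm_num)] with y h1 h2 h3 h4
  rw [Real.rpow_one] at h3 h4
  set u := y ^ (2 / 3 : ℝ) with hu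
  have u0 : 0 < u := by positivity
  rw [winD_sub (fun t => |y - pos t| ≤ R * u ∧ ε * y < |X t - e * pos t|) w]
  let Y : ℕ → ℝ := fun j => y - R * u + j * (u / 2)
  have Y1 : ∀ j, y / 2 ≤ Y j := fun j => by
    have : 0 ≤ j * (u / 2) := by positivity
    simp only [Y]
    linarith
  have Y2 : ∀ j < N, Y j ≤ 2 * y := fun j hj => by
    have : (j : ℝ) ≤ N := by exact_mod_cast hj.le
    have : j * (u / 2) ≤ N * u := by nlinarith
    have : 0 ≤ R * u := by positivity
    simp only [Y]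
    linarith
  have key : ∀ t, (if |y - pos t| ≤ R * u ∧ ε * y < |X t - e * pos t| then w t else 0) ≤
      ∑ j ∈ Finset.range N, if Y j ≤ pos t ∧ pos t ≤ Y j + Y j ^ (2 / 3 : ℝ) ∧
        ε / 2 * Y j < |X t - e * pos t| then w t else 0 := by
    intro t
    split_ifs with a
    · obtain ⟨a1, a2⟩ := a
      rw [abs_le] at a1
      have b0 : 0 ≤ (pos t - (y - R * u)) / (u / 2) := div_nonneg (by linarith) (by positivity)
      have b1 := Nat.floor_le b0
      have b2 := Nat.lt_floor_add_one ((pos t - (y - R * u)) / (u / 2))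
      set j := ⌊(pos t - (y - R * u)) / (u / 2)⌋₊
      rw [le_div_iff₀ (by positivity)] at b1
      rw [div_lt_iff₀ (by positivity)] at b2
      have jN : j < N := by
        have : (j : ℝ) < N := by
          by_contra c
          have := not_lt.1 c
          nlinarith
        exact_mod_cast this
      refine le_trans ?_ (Finset.single_le_sum (fun _ _ => zero_le) (Finset.mem_range.2 jN))
      have b3 : u ≤ 2 ^ (2 / 3 : ℝ) * Y j ^ (2 / 3 : ℝ) :=
        winD_rpow_pos h2.le (by linarith [Y1 j]) (by norm_num) (by linarith [Y1 j]) (by norm_num)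
      have b4 : (2 : ℝ) ^ (2 / 3 : ℝ) ≤ 2 := by
        simpa using Real.rpow_le_rpow_of_exponent_le (x := 2) (by norm_num)
          (show (2 / 3 : ℝ) ≤ 1 by norm_num)
      have b5 : 0 ≤ Y j ^ (2 / 3 : ℝ) := Real.rpow_nonneg (by linarith [Y1 j]) _
      rw [if_pos]
      refine ⟨by simp only [Y]; linarith, ?_, ?_⟩
      · have : pos t ≤ Y j + u / 2 := by simp only [Y]; linarith
        nlinarith
      · have := Y2 j jN
        nlinarith
    · exact zero_le
  refine (ENNReal.tsum_le_tsum key).trans ?_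
  rw [Summable.tsum_finsetSum fun _ _ => ENNReal.summable]
  have b : ∀ j ∈ Finset.range N, (∑' t, if Y j ≤ pos t ∧ pos t ≤ Y j + Y j ^ (2 / 3 : ℝ) ∧
      ε / 2 * Y j < |X t - e * pos t| then w t else 0) ≤
        ENNReal.ofReal (δ / N * y ^ (-(11 / 6) : ℝ)) := by
    intro j _
    rw [← winD_sub (fun t => Y j ≤ pos t ∧ pos t ≤ Y j + Y j ^ (2 / 3 : ℝ) ∧
      ε / 2 * Y j < |X t - e * pos t|) w]
    refine (hy0 (Y j) (by linarith [Y1 j])).trans (ENNReal.ofReal_le_ofReal ?_)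
    have b3 : Y j ^ (-(11 / 6) : ℝ) ≤ 2 ^ (11 / 6 : ℝ) * y ^ (-(11 / 6) : ℝ) :=
      winD_rpow_neg h2 (by norm_num) (by linarith [Y1 j]) (by norm_num)
    have b4 : (2 : ℝ) ^ (11 / 6 : ℝ) ≤ 4 := by
      have := Real.rpow_le_rpow_of_exponent_le (x := 2) (by norm_num)
          (show (11 / 6 : ℝ) ≤ 2 by norm_num)
      norm_num at this
      exact this
    calc δ / (4 * N) * Y j ^ (-(11 / 6) : ℝ) ≤ δ / (4 * N) * (4 * y ^ (-(11 / 6) : ℝ)) := by
          refine mul_le_mul_of_nonneg_left (b3.trans ?_) (by positivity)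
          gcongr
      _ = δ / N * y ^ (-(11 / 6) : ℝ) := by field_simp
  refine (Finset.sum_le_sum b).trans (le_of_eq ?_)
  rw [Finset.sum_const, Finset.card_range, nsmul_eq_mul, ← ENNReal.ofReal_natCast,
    ← ENNReal.ofReal_mul N0.le]
  congr 1
  field_simp

end Pool.Agent.Lib.MP_77dff5_pr
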