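import Pool.Agent.Lib.MP_77dff5_pr.WinA
import Pool.Agent.Lib.MP_77dff5_pr.Kernel
import Pool.Agent.Lib.MP_77dff5_pr.WinDAux1

/-! Kernel bounds in terms of the mean size, and the tail estimate. -/

set_option autoImplicit false

namespace Pool.Agent.Lib.MP_77dff5_pr

open MeasureTheory ProbabilityTheory Filter Topology
open scoped ENNReal NNReal

variable {Ω J : Type} [MeasurableSpace Ω]

theorem winD_kap_nonneg (c : Core Ω J) (ν : J → Measure Ω) (s : Ω → ℕ) (n : ℤ) :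
    0 ≤ c.kap ν s n := measureReal_nonneg

variable [Countable Ω] [DiscreteMeasurableSpace Ω]
  {ν : J → Measure Ω} {s : Ω → ℕ} {z : Ω → ℝ} {F : Fam Ω J} {Δ : ℕ} {B A c₀ : ℝ} {j₀ : J}

theorem winD_kap_le_one (hν : ∀ j, IsProbabilityMeasure (ν j)) (c : Core Ω J) (n : ℤ) :
    c.kap ν s n ≤ 1 := by
  have := Core.isProb hν c
  exact measureReal_le_one

theorem winD_ch_le (hν : ∀ j, IsProbabilityMeasure (ν j)) (c : Core Ω J) (n : ℕ) (θ : ℝ) :
    ‖ch (c.law ν s z) n θ‖ ≤ c.kap ν s n := by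
  have := Core.isProb hν c
  have hm : MeasurableSet {p : ℕ × ℝ | p.1 = n} := measurable_fst (measurableSet_singleton n)
  have hf : Measurable fun ω => (c.S s ω, c.Z z ω) := Measurable.of_discrete
  have : IsFiniteMeasure (c.law ν s z) := by
    unfold Core.law
    infer_instance
  refine (norm_setIntegral_le_of_norm_le_const (C := 1) (measure_lt_top _ _) fun p _ => ?_).trans ?_
  · rw [mul_comm, Complex.norm_exp_ofReal_mul_I]
  · rw [one_mul, Core.law, map_measureReal_apply hf hm, Core.kap]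
    simp

variable [Fintype J]

section large
variable (h : Slots ν s z) (h1 : T1 ν s A) (hc : 0 < c₀) (h4 : T4 (ν j₀) s c₀)
  (hF : F.Heavy ν s j₀ Δ B)
include h h1 hc h4 hF

/-- bounds for the local kernel in terms of the mean size -/
theorem Fam.kap_facts : ∃ C : ℝ, 1 ≤ C ∧ ∀ t, ((F.core t).k : ℝ) ≤ C * F.pos ν s t ∧
    F.pos ν s t ≤ C * (F.core t).k ∧
    (∀ n : ℤ, (F.core t).kap ν s n ≤ C * F.pos ν s t ^ (-(2 / 3) : ℝ)) ∧
    (∀ (n : ℤ) (d : ℝ), 0 < d → d ≤ |n - F.pos ν s t| →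
      (F.core t).kap ν s n ≤ C * F.pos ν s t ^ (1 / 3 : ℝ) * d ^ (-(3 / 2) : ℝ)) ∧
    ∀ n : ℤ, |(F.core t).kap ν s (n - 1) - (F.core t).kap ν s n| ≤
      C * F.pos ν s t ^ (-(4 / 3) : ℝ) := by
  obtain ⟨C1, hC1⟩ := Core.abs_L_le h.toSlots1 Δ B
  obtain ⟨C2, hC2⟩ := kap_le h.toSlots1 h1 hc h4 Δ
  obtain ⟨C3, hC3⟩ := kap_sub_le h.toSlots1 h1 hc h4
  set M : ℝ := 1 + |B| + 2 * |C1| with hM
  have M1 : 1 ≤ M := by have := abs_nonneg B; have := abs_nonneg C1; linarith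
  have M0 : 0 < M := by linarith
  have a1 : 0 ≤ |C2| * M ^ (2 / 3 : ℝ) := by positivity
  have a2 : 0 ≤ |C2| * M ^ (1 / 3 : ℝ) := by positivity
  have a3 : 0 ≤ |C3| * (M * (Δ + 1)) ^ (4 / 3 : ℝ) := by positivity
  refine ⟨M + |C2| * M ^ (2 / 3 : ℝ) + |C2| * M ^ (1 / 3 : ℝ) + |C3| * (M * (Δ + 1)) ^ (4 / 3 : ℝ),
    by linarith, fun t => ?_⟩
  have p1 : 1 ≤ F.pos ν s t := hF.one_le t
  have p0 : 0 < F.pos ν s t := by linarith
  have k1 : (1 : ℝ) ≤ (F.core t).k := by exact_mod_cast hF.k_pos t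
  have k0 : (0 : ℝ) < (F.core t).k := by linarith
  have b1 : ((F.core t).k : ℝ) ≤ M * F.pos ν s t :=
    (hF.k_le t).trans (mul_le_mul_of_nonneg_right
      (by have := le_abs_self B; have := abs_nonneg C1; linarith) p0.le)
  have b2 : F.pos ν s t ≤ M * (F.core t).k := by
    refine (hC1 _ (hF.good t)).2.trans ?_
    have := le_abs_self C1
    have := abs_nonneg C1
    have := abs_nonneg B
    nlinarith
  have b3 := hC2 (F.core t) (hF.k_pos t) (hF.frac t)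
  refine ⟨b1.trans (mul_le_mul_of_nonneg_right (by linarith) p0.le),
    b2.trans (mul_le_mul_of_nonneg_right (by linarith) k0.le), fun n => ?_,
    fun n d d0 hd => ?_, fun n => ?_⟩
  · have c1 := winD_rpow_neg p0 M0 b2 (e := 2 / 3) (by norm_num)
    have c2 : (1 + |n - (F.core t).mean ν s| / ((F.core t).k : ℝ) ^ (2 / 3 : ℝ)) ^ (-(3 / 2) : ℝ)
        ≤ 1 := Real.rpow_le_one_of_one_le_of_nonpos (le_add_of_nonneg_right (by positivity))
          (by norm_num)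
    calc _ ≤ _ := b3 n
      _ ≤ |C2| * (M ^ (2 / 3 : ℝ) * F.pos ν s t ^ (-(2 / 3) : ℝ)) * 1 := by
          gcongr
          exact le_abs_self _
      _ = |C2| * M ^ (2 / 3 : ℝ) * F.pos ν s t ^ (-(2 / 3) : ℝ) := by ring
      _ ≤ _ := mul_le_mul_of_nonneg_right (by linarith) (by positivity)
  · have c1 := winD_rpow_pos k0.le p0.le M0.le b1 (e := 1 / 3) (by norm_num)
    have c2 : (1 + |n - (F.core t).mean ν s| / ((F.core t).k : ℝ) ^ (2 / 3 : ℝ)) ^ (-(3 / 2) : ℝ)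
        ≤ (((F.core t).k : ℝ) ^ (2 / 3 : ℝ)) ^ (3 / 2 : ℝ) * d ^ (-(3 / 2) : ℝ) := by
      refine winD_rpow_neg d0 (by positivity) ?_ (by norm_num)
      rw [mul_add, mul_div_cancel₀ _ (by positivity)]
      exact hd.trans (le_add_of_nonneg_left (by positivity))
    rw [← Real.rpow_mul k0.le] at c2
    have c3 : ((F.core t).k : ℝ) ^ (-(2 / 3) : ℝ) * ((F.core t).k : ℝ) ^ (2 / 3 * (3 / 2) : ℝ) =
        ((F.core t).k : ℝ) ^ (1 / 3 : ℝ) := by
      rw [← Real.rpow_add k0]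
      norm_num
    calc _ ≤ _ := b3 n
      _ ≤ |C2| * ((F.core t).k : ℝ) ^ (-(2 / 3) : ℝ) *
            (((F.core t).k : ℝ) ^ (2 / 3 * (3 / 2) : ℝ) * d ^ (-(3 / 2) : ℝ)) := by
          gcongr
          exact le_abs_self _
      _ = |C2| * ((F.core t).k : ℝ) ^ (1 / 3 : ℝ) * d ^ (-(3 / 2) : ℝ) := by rw [← c3]; ring
      _ ≤ |C2| * (M ^ (1 / 3 : ℝ) * F.pos ν s t ^ (1 / 3 : ℝ)) * d ^ (-(3 / 2) : ℝ) := by gcongr
      _ = |C2| * M ^ (1 / 3 : ℝ) * (F.pos ν s t ^ (1 / 3 : ℝ) * d ^ (-(3 / 2) : ℝ)) := by ring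
      _ ≤ _ := by
          rw [mul_assoc _ (F.pos ν s t ^ (1 / 3 : ℝ))]
          exact mul_le_mul_of_nonneg_right (by linarith) (by positivity)
  · have c0 : ((F.core t).k : ℝ) ≤ Δ * (F.core t).cnt j₀ := by exact_mod_cast hF.frac t
    have c1 : (1 : ℝ) ≤ (F.core t).cnt j₀ := by
      have := hF.frac t
      have := hF.k_pos t
      have : (F.core t).cnt j₀ ≠ 0 := fun e => by simp_all
      exact_mod_cast Nat.one_le_iff_ne_zero.2 this
    have c2 := hC3 (F.core t) (F.core t) _ c1 le_rfl le_rfl (n - 1) n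
    have c3 : ((F.core t).cnt j₀ : ℝ) ^ (-(4 / 3) : ℝ) ≤
        (M * (Δ + 1)) ^ (4 / 3 : ℝ) * F.pos ν s t ^ (-(4 / 3) : ℝ) :=
      winD_rpow_neg p0 (by positivity) (by nlinarith) (by norm_num)
    simp only [sub_self, abs_zero, Finset.sum_const_zero, zero_mul, zero_add, Int.cast_sub,
      Int.cast_one, sub_sub_sub_cancel_right, sub_sub_cancel_left, abs_neg, abs_one,
      one_mul] at c2
    calc _ ≤ _ := c2
      _ ≤ |C3| * ((M * (Δ + 1)) ^ (4 / 3 : ℝ) * F.pos ν s t ^ (-(4 / 3) : ℝ)) := by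
          gcongr
          exact le_abs_self _
      _ = |C3| * (M * (Δ + 1)) ^ (4 / 3 : ℝ) * F.pos ν s t ^ (-(4 / 3) : ℝ) := by ring
      _ ≤ _ := mul_le_mul_of_nonneg_right (by linarith) (by positivity)

/-- cores whose mean size is far from `n` are negligible -/
theorem Fam.large_tail (hw : WinB (F.pos ν s) (fun t => F.w t) (-(11 / 6))) {ε : ℝ} (hε : 0 < ε) :
    ∃ R : ℝ, 1 ≤ R ∧ ∀ᶠ n : ℕ in atTop,
      ∑' t : {t // t ∉ F.small n ∧ R * (n : ℝ) ^ (2 / 3 : ℝ) < |n - F.pos ν s t|},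
        (F.w t : ℝ≥0∞) * ENNReal.ofReal ((F.core t).kap ν s n) ≤
          ENNReal.ofReal (ε * (n : ℝ) ^ (-(5 / 2) : ℝ)) := by
  classical
  obtain ⟨C, C1, hC⟩ := Fam.kap_facts h h1 hc h4 hF
  have C0 : 0 < C := by linarith
  obtain ⟨A1, A10, hA1⟩ := winD_tail (hw.dyB.mul_rpow (1 / 3)) (by norm_num)
  obtain ⟨A2, A20, hA2⟩ := winD_near hw
  obtain ⟨R, R1, hR⟩ := ((eventually_ge_atTop 1).and (winD_small (C * 2 ^ (1 / 3 : ℝ) * (24 * A2))
    (a := -(1 / 2)) (b := 0) (η := ε / 2) (by norm_num) (by positivity))).exists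
  rw [Real.rpow_zero, mul_one] at hR
  have R0 : 0 < R := by linarith
  refine ⟨R, R1, ?_⟩
  filter_upwards [tendsto_natCast_atTop_atTop.eventually (eventually_ge_atTop (2 : ℝ)),
    tendsto_natCast_atTop_atTop.eventually
      (winD_small C (a := 0) (b := 9 / 10) (η := 1) (by norm_num) one_pos),
    tendsto_natCast_atTop_atTop.eventually
      (winD_small (C * 2 ^ (3 / 2 : ℝ) * (A1 * C ^ (7 / 6 : ℝ))) (a := -(51 / 20)) (b := -(5 / 2))
        (η := ε / 2) (by norm_num) (by positivity))] with n n2 n3 n4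
  have n0 : (0 : ℝ) < n := by linarith
  rw [Real.rpow_zero, mul_one, one_mul] at n3
  set u := (n : ℝ) ^ (2 / 3 : ℝ) with hu
  have u0 : 0 < u := by positivity
  set y := (n : ℝ) ^ (9 / 10 : ℝ) / C with hy
  have y1 : 1 ≤ y := by rwa [hy, le_div_iff₀ C0, one_mul]
  let c' : F.T → ℝ≥0∞ := fun t =>
    if (n : ℝ) / 2 ≤ F.pos ν s t ∧ F.pos ν s t ≤ 2 * n then F.w t else 0
  have key : ∀ t, (if t ∉ F.small n ∧ R * u < |n - F.pos ν s t| then
      (F.w t : ℝ≥0∞) * ENNReal.ofReal ((F.core t).kap ν s n) else 0) ≤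
      ENNReal.ofReal (C * ((n : ℝ) / 2) ^ (-(3 / 2) : ℝ)) * (if y ≤ F.pos ν s t then
        (F.w t : ℝ≥0∞) * ENNReal.ofReal (F.pos ν s t ^ (1 / 3 : ℝ)) else 0) +
      ENNReal.ofReal (C * (2 * (n : ℝ)) ^ (1 / 3 : ℝ)) * (if R * u < |n - F.pos ν s t| then
        c' t * ENNReal.ofReal (|n - F.pos ν s t| ^ (-(3 / 2) : ℝ)) else 0) := by
    intro t
    obtain ⟨f1, -, -, f4, -⟩ := hC t
    have p0 : 0 < F.pos ν s t := lt_of_lt_of_le one_pos (hF.one_le t)
    by_cases a : t ∉ F.small n ∧ R * u < |n - F.pos ν s t|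
    swap
    · rw [if_neg a]; exact zero_le
    rw [if_pos a]
    rcases le_or_gt ((n : ℝ) / 2) |n - F.pos ν s t| with b | b
    · refine le_trans ?_ le_self_add
      have b1 : (n : ℝ) ^ 9 ≤ ((F.core t).k : ℝ) ^ 10 := by
        have := a.1
        simp only [Fam.small, Set.mem_ofPred_eq, not_le] at this
        exact_mod_cast this.le
      have b2 : (n : ℝ) ^ (9 / 10 : ℝ) ≤ (F.core t).k := by
        refine le_of_pow_le_pow_left₀ (n := 10) (by norm_num) (Nat.cast_nonneg _) ?_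
        rw [← Real.rpow_natCast, ← Real.rpow_mul n0.le]
        norm_num
        exact_mod_cast b1
      rw [if_pos (by rw [hy, div_le_iff₀' C0]; exact b2.trans f1), mul_left_comm,
        ← ENNReal.ofReal_mul (by positivity)]
      refine mul_le_mul_right (ENNReal.ofReal_le_ofReal ?_) _
      refine (f4 n (n / 2) (by positivity) (by simpa using b)).trans (le_of_eq ?_)
      ring
    · refine le_trans ?_ le_add_self
      have b' := abs_lt.1 b
      have d0 : 0 < |n - F.pos ν s t| := lt_trans (by positivity) a.2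
      rw [if_pos a.2]
      simp only [c']
      rw [if_pos ⟨by linarith, by linarith⟩, mul_left_comm, ← ENNReal.ofReal_mul (by positivity)]
      refine mul_le_mul_right (ENNReal.ofReal_le_ofReal ?_) _
      refine (f4 n _ d0 (by simp)).trans ?_
      gcongr
      linarith
  have s1 := hA1 y y1
  have s2 := winD_dyadic c' (fun t => |n - F.pos ν s t|) (M := 3 * A2 * (n : ℝ) ^ (-(5 / 2) : ℝ))
    (x := R * u) (by positivity) (by positivity) fun x hx => by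
      have x1 : u ≤ x := le_trans (le_mul_of_one_le_left u0.le R1) hx
      refine le_trans (le_of_eq ?_) ((hA2 n n2 x (by linarith)).trans
        (ENNReal.ofReal_le_ofReal ?_))
      · rw [winD_sub (fun t => |n - F.pos ν s t| ≤ x) c', winD_sub (fun t =>
          |n - F.pos ν s t| ≤ x ∧ (n : ℝ) / 2 ≤ F.pos ν s t ∧ F.pos ν s t ≤ 2 * n)
          fun t => (F.w t : ℝ≥0∞)]
        refine tsum_congr fun t => ?_
        simp only [c', ite_and]
      · have e : (n : ℝ) ^ (-(11 / 6) : ℝ) = (n : ℝ) ^ (-(5 / 2) : ℝ) * u := by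
          rw [hu, ← Real.rpow_add n0]
          norm_num
        rw [e, ← hu, mul_assoc, mul_assoc, mul_add, mul_div_cancel₀ _ u0.ne']
        have : 0 ≤ A2 * (n : ℝ) ^ (-(5 / 2) : ℝ) := by positivity
        nlinarith
  rw [winD_sub (fun t => y ≤ F.pos ν s t)
    fun t => (F.w t : ℝ≥0∞) * ENNReal.ofReal (F.pos ν s t ^ (1 / 3 : ℝ))] at s1
  rw [winD_sub (fun t => R * u < |n - F.pos ν s t|)
    fun t => c' t * ENNReal.ofReal (|n - F.pos ν s t| ^ (-(3 / 2) : ℝ))] at s2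
  rw [winD_sub (fun t => t ∉ F.small n ∧ R * u < |n - F.pos ν s t|)
    fun t => (F.w t : ℝ≥0∞) * ENNReal.ofReal ((F.core t).kap ν s n)]
  refine (ENNReal.tsum_le_tsum key).trans ?_
  rw [ENNReal.tsum_add, ENNReal.tsum_mul_left, ENNReal.tsum_mul_left]
  refine (add_le_add (mul_le_mul_right s1 _) (mul_le_mul_right s2 _)).trans ?_
  rw [← ENNReal.ofReal_mul (by positivity), ← ENNReal.ofReal_mul (by positivity),
    ← ENNReal.ofReal_add (by positivity) (by positivity)]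
  refine ENNReal.ofReal_le_ofReal ?_
  have e1 : C * ((n : ℝ) / 2) ^ (-(3 / 2) : ℝ) * (A1 * y ^ (-(11 / 6) + 1 / 3 + 1 / 3 : ℝ)) =
      C * 2 ^ (3 / 2 : ℝ) * (A1 * C ^ (7 / 6 : ℝ)) * (n : ℝ) ^ (-(51 / 20) : ℝ) := by
    have : (n : ℝ) ^ (-(51 / 20) : ℝ) =
        (n : ℝ) ^ (-(3 / 2) : ℝ) * ((n : ℝ) ^ (9 / 10 : ℝ)) ^ (-(7 / 6) : ℝ) := by
      rw [← Real.rpow_mul n0.le, ← Real.rpow_add n0]
      norm_num
    rw [this, show (-(11 / 6) + 1 / 3 + 1 / 3 : ℝ) = -(7 / 6) by norm_num, hy,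
      Real.div_rpow n0.le (by norm_num), Real.div_rpow (by positivity) C0.le,
      Real.rpow_neg C0.le, Real.rpow_neg (show (0 : ℝ) ≤ 2 by norm_num)]
    field_simp
  have e2 : C * (2 * (n : ℝ)) ^ (1 / 3 : ℝ) *
      (8 * (3 * A2 * (n : ℝ) ^ (-(5 / 2) : ℝ)) * (R * u) ^ (-(1 / 2) : ℝ)) =
      C * 2 ^ (1 / 3 : ℝ) * (24 * A2) * R ^ (-(1 / 2) : ℝ) * (n : ℝ) ^ (-(5 / 2) : ℝ) := by
    have : (n : ℝ) ^ (1 / 3 : ℝ) * u ^ (-(1 / 2) : ℝ) = 1 := by
      rw [hu, ← Real.rpow_mul n0.le, ← Real.rpow_add n0]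
      norm_num
    rw [Real.mul_rpow (by norm_num) n0.le, Real.mul_rpow R0.le u0.le]
    linear_combination
      (C * 2 ^ (1 / 3 : ℝ) * (24 * A2) * R ^ (-(1 / 2) : ℝ) * (n : ℝ) ^ (-(5 / 2) : ℝ)) * this
  rw [e1, e2]
  have := mul_le_mul_of_nonneg_right hR (show 0 ≤ (n : ℝ) ^ (-(5 / 2) : ℝ) by positivity)
  linarith

end large

end Pool.Agent.Lib.MP_77dff5_pr
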