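import Pool.Agent.Lib.MP_77dff5_pr.WinA
import Pool.Agent.Lib.MP_77dff5_pr.Kernel
import Pool.Agent.Lib.MP_77dff5_pr.Local
import Pool.Agent.Lib.MP_77dff5_pr.LinA
import Pool.Agent.Lib.MP_77dff5_pr.WinDAux2

/-! Cores with many slots: the window where the mean size is close to the size. -/

set_option autoImplicit false

namespace Pool.Agent.Lib.MP_77dff5_pr

open MeasureTheory ProbabilityTheory Filter Topology
open scoped ENNReal NNReal

variable {Ω J : Type} [MeasurableSpace Ω]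

variable [Countable Ω] [DiscreteMeasurableSpace Ω] [Fintype J]
  {ν : J → Measure Ω} {s : Ω → ℕ} {z : Ω → ℝ} {F : Fam Ω J} {Δ : ℕ} {B A c₀ : ℝ} {j₀ : J}

omit [Fintype J] in
open Classical in
theorem winD_hasSum (hν : ∀ j, IsProbabilityMeasure (ν j)) (hF : F.Good Δ B) (p : F.T → Prop)
    (θ : ℝ) (n : ℤ) :
    HasSum (fun t => if p t then ((F.w t : ℝ) : ℂ) *
        Complex.exp (Complex.I * ((θ * (F.core t).L ν z : ℝ) : ℂ)) *
          (((F.core t).kap ν s n : ℝ) : ℂ) else 0)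
      (∑' t : {t // p t}, ((F.w t : ℝ) : ℂ) *
        Complex.exp (Complex.I * ((θ * (F.core t).L ν z : ℝ) : ℂ)) *
          (((F.core t).kap ν s n : ℝ) : ℂ)) := by
  have h1 : Summable fun t => ((F.w t : ℝ) : ℂ) *
      Complex.exp (Complex.I * ((θ * (F.core t).L ν z : ℝ) : ℂ)) *
        (((F.core t).kap ν s n : ℝ) : ℂ) := by
    refine Summable.of_norm_bounded hF.sum1 fun t => ?_
    rw [norm_mul, norm_mul, mul_comm Complex.I, Complex.norm_exp_ofReal_mul_I, mul_one,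
      Complex.norm_real, Complex.norm_real, Real.norm_of_nonneg (F.w t).coe_nonneg,
      Real.norm_of_nonneg (winD_kap_nonneg _ _ _ _)]
    exact mul_le_mul_of_nonneg_left ((winD_kap_le_one hν _ _).trans
      (le_add_of_nonneg_left (Nat.cast_nonneg _))) (F.w t).coe_nonneg
  have h2 := (hasSum_subtype_iff_indicator (s := {t | p t})).1 (h1.subtype {t | p t}).hasSum
  refine h2.congr_fun fun t => ?_
  rw [Set.indicator_apply]
  rfl

section large
variable (h : Slots ν s z) (h1 : T1 ν s A) (hc : 0 < c₀) (h4 : T4 (ν j₀) s c₀)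
  (hF : F.Heavy ν s j₀ Δ B) (hw : WinB (F.pos ν s) (fun t => F.w t) (-(11 / 6)))
include h h1 hc h4 hF hw

/-- the characteristic function of the large part, with the conditional variance replaced by its
limit -/
theorem Fam.large_ch {q : ℝ} (hQ : WinLLN (F.pos ν s) (fun t => F.w t) (fun t => (F.core t).Q ν z) q)
    (θ : ℝ) :
    Tendsto (fun p : ℕ × ℝ => (((p.1 : ℝ) ^ (5 / 2 : ℝ) : ℝ) : ℂ) *
      (ch (F.lawOn (F.small p.1)ᶜ ν s z) p.1 p.2 - ((Real.exp (-(q * θ ^ 2 / 2)) : ℝ) : ℂ) *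
        ∑' t : {t // (p.1 : ℝ) / 2 ≤ F.pos ν s t ∧ F.pos ν s t ≤ 2 * p.1}, ((F.w t : ℝ) : ℂ) *
          Complex.exp (Complex.I * ((p.2 * (F.core t).L ν z : ℝ) : ℂ)) *
            (((F.core t).kap ν s p.1 : ℝ) : ℂ))) (FF θ) (𝓝 0) := by
  classical
  obtain ⟨C, C1, hC⟩ := Fam.kap_facts h h1 hc h4 hF
  have C0 : 0 < C := by linarith
  obtain ⟨A2, A20, hA2⟩ := winD_near hw
  set E := Real.exp (-(q * θ ^ 2 / 2)) with hE
  have E0 : 0 < E := Real.exp_pos _
  rw [Metric.tendsto_nhds]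
  intro ε hε
  obtain ⟨R, R1, hR⟩ := Fam.large_tail h h1 hc h4 hF hw (ε := ε / (4 * (1 + E))) (by positivity)
  have R0 : 0 < R := by linarith
  set K1 := (2 * C) ^ (2 / 3 : ℝ) with hK1
  set K2 := C * 2 ^ (2 / 3 : ℝ) with hK2
  have K10 : 0 < K1 := by positivity
  have K20 : 0 < K2 := by positivity
  set η := ε / (4 * ((K1 + K2) * A2 * (1 + 2 * R) + 1)) with hη
  have η0 : 0 < η := by positivity
  obtain ⟨k0, hk0⟩ := local_clt h h1 hc h4 Δ B ((|θ| + 1) * √(2 * C)) η0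
  obtain ⟨δ, δ0, hδ⟩ := Metric.continuousAt_iff.1
    ((by fun_prop : Continuous fun x : ℝ × ℝ => Real.exp (-(x.2 * x.1 ^ 2 / 2))).continuousAt
      (x := (θ, q))) η η0
  have hn : Tendsto (fun p : ℕ × ℝ => (p.1 : ℝ)) (FF θ) atTop :=
    tendsto_natCast_atTop_atTop.comp (FF_fst θ)
  have hθ : Tendsto (fun p : ℕ × ℝ => p.2 * √p.1) (FF θ) (𝓝 θ) := tendsto_snd.comp tendsto_comap
  filter_upwards [(FF_fst θ).eventually hR, FF_bound θ, Metric.tendsto_nhds.1 hθ δ δ0,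
    hn.eventually (eventually_ge_atTop 2), hn.eventually (eventually_gt_atTop ((2 * C) ^ 10)),
    hn.eventually (eventually_ge_atTop (2 * C * k0)),
    hn.eventually (winD_small R (a := 2 / 3) (b := 1) (η := 1 / 2) (by norm_num) (by norm_num)),
    hn.eventually (winD_small (|q| * R) (a := 2 / 3) (b := 1) (η := δ / 4) (by norm_num)
      (by positivity)),
    hn.eventually (winD_lln hQ R0.le (ε := δ / 4) (δ := ε / (4 * (K2 * (1 + E)))) (by positivity)
      (by positivity))] with p s1 p2 p3 n2 n3 n4 n5 n6 s3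
  obtain ⟨n, θ'⟩ := p
  simp only [Real.rpow_one] at s1 p2 p3 n2 n3 n4 n5 n6 s3 ⊢
  have n0 : (0 : ℝ) < n := by linarith
  set u := (n : ℝ) ^ (2 / 3 : ℝ) with hu
  have u0 : 0 < u := by positivity
  set v := (n : ℝ) ^ (-(2 / 3) : ℝ) with hv
  have v0 : 0 < v := by positivity
  have s2 := hA2 n n2 (R * u) (by positivity)
  have wl : ∀ t, (n : ℝ) / 2 ≤ F.pos ν s t → t ∉ F.small n := by
    intro t a b
    have b1 : ((F.core t).k : ℝ) ^ 10 ≤ (n : ℝ) ^ 9 := by exact_mod_cast b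
    have b2 : (n : ℝ) ^ 10 ≤ (2 * C * (F.core t).k) ^ 10 :=
      pow_le_pow_left₀ n0.le (by linarith [(hC t).2.1]) _
    rw [mul_pow] at b2
    have b3 : (2 * C) ^ 10 * ((F.core t).k : ℝ) ^ 10 ≤ (2 * C) ^ 10 * (n : ℝ) ^ 9 := by gcongr
    have b4 : (2 * C) ^ 10 * (n : ℝ) ^ 9 < n * (n : ℝ) ^ 9 := by gcongr
    have b5 : (n : ℝ) * (n : ℝ) ^ 9 = (n : ℝ) ^ 10 := by ring
    linarith
  have H1 := hasSum_subtype_iff_indicator
    (f := fun t => ((F.w t : ℝ) : ℂ) * ch ((F.core t).law ν s z) n θ').1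
    (Fam.ch_lawOn (s := s) (z := z) h.prob hF.toGood (F.small n)ᶜ n θ')
  have H2 := winD_hasSum (s := s) (z := z) h.prob hF.toGood
    (fun t => (n : ℝ) / 2 ≤ F.pos ν s t ∧ F.pos ν s t ≤ 2 * n) θ' n
  have key := winD_norm_le (H1.sub (H2.mul_left (E : ℂ)))
    (b := fun t => ENNReal.ofReal (1 + E) * (if t ∉ F.small n ∧ R * u < |n - F.pos ν s t| then
        (F.w t : ℝ≥0∞) * ENNReal.ofReal ((F.core t).kap ν s n) else 0) +
      ENNReal.ofReal (η * (K1 + K2) * v) * (if |n - F.pos ν s t| ≤ R * u ∧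
        (n : ℝ) / 2 ≤ F.pos ν s t ∧ F.pos ν s t ≤ 2 * n then (F.w t : ℝ≥0∞) else 0) +
      ENNReal.ofReal (K2 * (1 + E) * v) * (if |n - F.pos ν s t| ≤ R * u ∧
        δ / 4 * n < |(F.core t).Q ν z - q * F.pos ν s t| then (F.w t : ℝ≥0∞) else 0))
    (r := 3 / 4 * ε * (n : ℝ) ^ (-(5 / 2) : ℝ)) ?_ (by positivity) ?_
  · rw [dist_zero_right, norm_mul, Complex.norm_real, Real.norm_of_nonneg (by positivity)]
    refine (mul_le_mul_of_nonneg_left key (by positivity)).trans_lt ?_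
    rw [mul_left_comm, Real.rpow_neg n0.le, mul_inv_cancel₀ (by positivity)]
    linarith
  · intro t
    obtain ⟨f1, f2, f3, -, -⟩ := hC t
    have w0 : (0 : ℝ) ≤ F.w t := (F.w t).2
    have κ0 := winD_kap_nonneg (F.core t) ν s n
    have p0 : 0 < F.pos ν s t := lt_of_lt_of_le one_pos (hF.one_le t)
    have ne : ‖Complex.exp (Complex.I * ((θ' * (F.core t).L ν z : ℝ) : ℂ))‖ = 1 := by
      rw [mul_comm Complex.I, Complex.norm_exp_ofReal_mul_I]
    have nw : ‖((F.w t : ℝ) : ℂ)‖ = F.w t := by rw [Complex.norm_real, Real.norm_of_nonneg w0]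
    have nκ : ‖(((F.core t).kap ν s n : ℝ) : ℂ)‖ = (F.core t).kap ν s n := by
      rw [Complex.norm_real, Real.norm_of_nonneg κ0]
    rcases lt_or_ge (R * u) |n - F.pos ν s t| with a | a
    · refine le_trans ?_ (le_self_add.trans le_self_add)
      by_cases b : t ∈ F.small n
      · rw [Set.indicator_of_notMem (by simpa using b), if_neg fun c => wl t c.1 b]
        simp
      · rw [Set.indicator_of_mem (by simpa using b), if_pos (And.intro b a),
          ← ENNReal.ofReal_coe_nnreal,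
          ← ENNReal.ofReal_mul w0, ← ENNReal.ofReal_mul (by positivity)]
        refine ENNReal.ofReal_le_ofReal ((norm_sub_le _ _).trans ?_)
        rw [add_mul, one_mul, norm_mul, norm_mul, nw, Complex.norm_real, Real.norm_of_nonneg E0.le]
        refine add_le_add (mul_le_mul_of_nonneg_left (winD_ch_le h.prob _ _ _) w0)
          (mul_le_mul_of_nonneg_left ?_ E0.le)
        split_ifs
        · rw [norm_mul, norm_mul, nw, ne, nκ, mul_one]
        · rw [norm_zero]; positivity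
    · have a' := abs_le.1 a
      have c1 : (n : ℝ) / 2 ≤ F.pos ν s t := by linarith
      have c2 : F.pos ν s t ≤ 2 * n := by linarith
      have k1 : (0 : ℝ) < (F.core t).k := by exact_mod_cast hF.k_pos t
      have c3 : (n : ℝ) ≤ 2 * C * (F.core t).k := by linarith
      have c4 : k0 ≤ (F.core t).k := by
        have : (k0 : ℝ) ≤ (F.core t).k := le_of_mul_le_mul_left (n4.trans c3) (by positivity)
        exact_mod_cast this
      have c5 : |θ'| ≤ (|θ| + 1) * √(2 * C) / √(F.core t).k := by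
        refine p2.trans ?_
        rw [div_le_div_iff₀ (by positivity) (by positivity), mul_assoc,
          ← Real.sqrt_mul (by positivity)]
        refine mul_le_mul_of_nonneg_left (Real.sqrt_le_sqrt ?_) (by positivity)
        nlinarith
      have c6 := hk0 (F.core t) (hF.good t) (hF.frac t) c4 θ' c5 n
      have c7 : ((F.core t).k : ℝ) ^ (-(2 / 3) : ℝ) ≤ K1 * v :=
        winD_rpow_neg n0 (by positivity) c3 (by norm_num)
      have c8 : (F.core t).kap ν s n ≤ K2 * v := by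
        refine (f3 n).trans ?_
        rw [hK2, mul_assoc]
        exact mul_le_mul_of_nonneg_left
          (winD_rpow_neg n0 (by norm_num) (by linarith) (by norm_num)) C0.le
      set G := Real.exp (-(θ' ^ 2 * (F.core t).Q ν z / 2)) with hG
      have main : ‖((F.w t : ℝ) : ℂ) * ch ((F.core t).law ν s z) n θ' - (E : ℂ) *
          (((F.w t : ℝ) : ℂ) * Complex.exp (Complex.I * ((θ' * (F.core t).L ν z : ℝ) : ℂ)) *
            (((F.core t).kap ν s n : ℝ) : ℂ))‖ ≤ (η * (K1 * v) + |G - E| * (K2 * v)) * F.w t := by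
        have e : ((F.w t : ℝ) : ℂ) * ch ((F.core t).law ν s z) n θ' - (E : ℂ) *
            (((F.w t : ℝ) : ℂ) * Complex.exp (Complex.I * ((θ' * (F.core t).L ν z : ℝ) : ℂ)) *
              (((F.core t).kap ν s n : ℝ) : ℂ)) =
            ((ch ((F.core t).law ν s z) n θ' -
              Complex.exp (Complex.I * ((θ' * (F.core t).L ν z : ℝ) : ℂ)) *
                ((G * (F.core t).kap ν s n : ℝ) : ℂ)) + ((G - E : ℝ) : ℂ) *
              (Complex.exp (Complex.I * ((θ' * (F.core t).L ν z : ℝ) : ℂ)) *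
                (((F.core t).kap ν s n : ℝ) : ℂ))) * ((F.w t : ℝ) : ℂ) := by
          rw [Complex.ofReal_mul G, Complex.ofReal_sub]
          ring
        rw [e, norm_mul, nw]
        refine mul_le_mul_of_nonneg_right ((norm_add_le _ _).trans (add_le_add
          (c6.trans (mul_le_mul_of_nonneg_left c7 η0.le)) ?_)) w0
        rw [norm_mul, norm_mul, ne, nκ, one_mul, Complex.norm_real, Real.norm_eq_abs]
        exact mul_le_mul_of_nonneg_left c8 (abs_nonneg _)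
      rw [Set.indicator_of_mem (by simpa using wl t c1), if_pos (And.intro c1 c2), add_assoc]
      refine (ENNReal.ofReal_le_ofReal main).trans (le_trans ?_ le_add_self)
      rw [if_pos (And.intro a (And.intro c1 c2))]
      by_cases b : δ / 4 * n < |(F.core t).Q ν z - q * F.pos ν s t|
      · rw [if_pos (And.intro a b), ← add_mul, ← ENNReal.ofReal_add (by positivity) (by positivity),
          ← ENNReal.ofReal_coe_nnreal, ← ENNReal.ofReal_mul (by positivity)]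
        refine ENNReal.ofReal_le_ofReal (mul_le_mul_of_nonneg_right ?_ w0)
        have G0 : 0 < G := Real.exp_pos _
        have G1 : G ≤ 1 := by
          have : 0 ≤ (F.core t).Q ν z := variance_nonneg _ _
          rw [hG, Real.exp_le_one_iff, neg_nonpos]
          positivity
        have G2 : |G - E| ≤ 1 + E := abs_le.2 ⟨by linarith, by linarith⟩
        have := mul_le_mul_of_nonneg_right G2 (show 0 ≤ K2 * v by positivity)
        have : 0 ≤ η * K2 * v := by positivity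
        linarith
      · refine le_trans ?_ le_self_add
        rw [← ENNReal.ofReal_coe_nnreal, ← ENNReal.ofReal_mul (by positivity)]
        refine ENNReal.ofReal_le_ofReal (mul_le_mul_of_nonneg_right ?_ w0)
        have d1 : |(F.core t).Q ν z / n - q| < δ := by
          have e : (F.core t).Q ν z / n - q =
              ((F.core t).Q ν z - q * F.pos ν s t - q * (n - F.pos ν s t)) / n := by
            field_simp
            ring
          rw [e, abs_div, abs_of_pos n0, div_lt_iff₀ n0]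
          refine (abs_sub _ _).trans_lt ?_
          rw [abs_mul]
          have := mul_le_mul_of_nonneg_left a (abs_nonneg q)
          have := mul_pos δ0 n0
          linarith [not_lt.1 b]
        have d2 := hδ (x := (θ' * √n, (F.core t).Q ν z / n)) (by
          rw [Prod.dist_eq, max_lt_iff]
          exact ⟨p3, d1⟩)
        have e : (F.core t).Q ν z / n * (θ' * √n) ^ 2 = θ' ^ 2 * (F.core t).Q ν z := by
          rw [mul_pow, Real.sq_sqrt n0.le]
          field_simp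
        simp only [e, Real.dist_eq] at d2
        have := mul_le_mul_of_nonneg_right d2.le (show 0 ≤ K2 * v by positivity)
        linarith
  · rw [winD_sub (fun t => t ∉ F.small n ∧ R * u < |n - F.pos ν s t|)
      fun t => (F.w t : ℝ≥0∞) * ENNReal.ofReal ((F.core t).kap ν s n)] at s1
    rw [winD_sub (fun t => |n - F.pos ν s t| ≤ R * u ∧
      (n : ℝ) / 2 ≤ F.pos ν s t ∧ F.pos ν s t ≤ 2 * n) fun t => (F.w t : ℝ≥0∞)] at s2
    rw [winD_sub (fun t => |n - F.pos ν s t| ≤ R * u ∧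
      δ / 4 * n < |(F.core t).Q ν z - q * F.pos ν s t|) fun t => (F.w t : ℝ≥0∞)] at s3
    rw [ENNReal.tsum_add, ENNReal.tsum_add, ENNReal.tsum_mul_left, ENNReal.tsum_mul_left,
      ENNReal.tsum_mul_left]
    refine (add_le_add (add_le_add (mul_le_mul_right s1 _) (mul_le_mul_right s2 _))
      (mul_le_mul_right s3 _)).trans ?_
    rw [← ENNReal.ofReal_mul (by positivity), ← ENNReal.ofReal_mul (by positivity),
      ← ENNReal.ofReal_mul (by positivity), ← ENNReal.ofReal_add (by positivity) (by positivity),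
      ← ENNReal.ofReal_add (by positivity) (by positivity)]
    refine ENNReal.ofReal_le_ofReal ?_
    have e : (n : ℝ) ^ (-(5 / 2) : ℝ) = v * (n : ℝ) ^ (-(11 / 6) : ℝ) := by
      rw [hv, ← Real.rpow_add n0]
      norm_num
    have e1 : (1 + E) * (ε / (4 * (1 + E)) * (n : ℝ) ^ (-(5 / 2) : ℝ)) =
        ε / 4 * (n : ℝ) ^ (-(5 / 2) : ℝ) := by field_simp
    have e3 : K2 * (1 + E) * v * (ε / (4 * (K2 * (1 + E))) * (n : ℝ) ^ (-(11 / 6) : ℝ)) =
        ε / 4 * (n : ℝ) ^ (-(5 / 2) : ℝ) := by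
      rw [e]
      field_simp
    have e2 : η * (K1 + K2) * v * (A2 * (n : ℝ) ^ (-(11 / 6) : ℝ) * (1 + 2 * (R * u) / u)) =
        η * ((K1 + K2) * A2 * (1 + 2 * R)) * (n : ℝ) ^ (-(5 / 2) : ℝ) := by
      rw [e]
      field_simp
    have e4 : η * ((K1 + K2) * A2 * (1 + 2 * R)) ≤ ε / 4 := by
      have : η * ((K1 + K2) * A2 * (1 + 2 * R) + 1) = ε / 4 := by
        rw [hη]
        field_simp
      linarith
    rw [e1, ← hu, e2, e3]
    have := mul_le_mul_of_nonneg_right e4 (show 0 ≤ (n : ℝ) ^ (-(5 / 2) : ℝ) by positivity)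
    linarith

omit hw in
/-- the local kernel varies slowly -/
theorem Fam.kap_slow : ∃ K : ℝ, 0 ≤ K ∧ ∀ m : ℕ, 8 ≤ m → ∀ t,
    |(m : ℝ) ^ (5 / 2 : ℝ) * (if (m : ℝ) / 2 ≤ F.pos ν s t ∧ F.pos ν s t ≤ 2 * m then
        (F.core t).kap ν s m else 0) - ((m + 1 : ℕ) : ℝ) ^ (5 / 2 : ℝ) *
      (if ((m + 1 : ℕ) : ℝ) / 2 ≤ F.pos ν s t ∧ F.pos ν s t ≤ 2 * ((m + 1 : ℕ) : ℝ) then
        (F.core t).kap ν s (m + 1 : ℕ) else 0)| ≤ K * ((m + 1 : ℕ) : ℝ) ^ (4 / 3 : ℝ) := by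
  obtain ⟨C, C1, hC⟩ := Fam.kap_facts h h1 hc h4 hF
  have C0 : 0 < C := by linarith
  refine ⟨C * 2 ^ (4 / 3 : ℝ) + 5 / 2 * (C * 2 ^ (2 / 3 : ℝ)) +
    2 * (C * 2 ^ (1 / 3 : ℝ) * 8 ^ (3 / 2 : ℝ)), by positivity, fun m hm t => ?_⟩
  obtain ⟨-, -, f3, f4, f5⟩ := hC t
  have p0 : 0 < F.pos ν s t := lt_of_lt_of_le one_pos (hF.one_le t)
  have m8 : (8 : ℝ) ≤ m := by exact_mod_cast hm
  obtain ⟨n, hn⟩ : ∃ n : ℝ, n = ((m + 1 : ℕ) : ℝ) := ⟨_, rfl⟩
  rw [← hn]
  have nm : n = m + 1 := by rw [hn]; push_cast; rfl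
  have n0 : 0 < n := by linarith
  have mn : (m : ℝ) ^ (5 / 2 : ℝ) ≤ n ^ (5 / 2 : ℝ) :=
    Real.rpow_le_rpow (by linarith) (by linarith) (by norm_num)
  have m0 : 0 ≤ (m : ℝ) ^ (5 / 2 : ℝ) := by positivity
  have N0 : 0 < n ^ (4 / 3 : ℝ) := by positivity
  have κ0 := winD_kap_nonneg (F.core t) ν s (m + 1 : ℕ)
  have κ1 := winD_kap_nonneg (F.core t) ν s m
  rcases le_or_gt |n - F.pos ν s t| (n / 4) with a | a
  · have a' := abs_le.1 a
    rw [if_pos (And.intro (by linarith) (by linarith)),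
      if_pos (And.intro (by linarith) (by linarith))]
    have b1 := f5 (m + 1 : ℕ)
    rw [show ((m + 1 : ℕ) : ℤ) - 1 = m by push_cast; ring] at b1
    have b2 : F.pos ν s t ^ (-(4 / 3) : ℝ) ≤ 2 ^ (4 / 3 : ℝ) * n ^ (-(4 / 3) : ℝ) :=
      winD_rpow_neg n0 (by norm_num) (by linarith) (by norm_num)
    have b3 : F.pos ν s t ^ (-(2 / 3) : ℝ) ≤ 2 ^ (2 / 3 : ℝ) * n ^ (-(2 / 3) : ℝ) :=
      winD_rpow_neg n0 (by norm_num) (by linarith) (by norm_num)
    have b4 : n ^ (5 / 2 : ℝ) - (m : ℝ) ^ (5 / 2 : ℝ) ≤ 5 / 2 * n ^ (3 / 2 : ℝ) := by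
      have c1 := one_add_mul_self_le_rpow_one_add (s := -(1 / n)) (p := 5 / 2)
        (by rw [neg_le_neg_iff, div_le_one n0]; linarith) (by norm_num)
      have c2 : (m : ℝ) = n * (1 + -(1 / n)) := by
        field_simp
        linarith
      have c3 : n ^ (5 / 2 : ℝ) = n ^ (3 / 2 : ℝ) * n := by
        rw [← Real.rpow_add_one n0.ne']
        norm_num
      have c4 := mul_le_mul_of_nonneg_left c1 (show 0 ≤ n ^ (5 / 2 : ℝ) by positivity)
      rw [← Real.mul_rpow n0.le (by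
        rw [← sub_eq_add_neg, sub_nonneg, div_le_one n0]; linarith), ← c2] at c4
      have c5 : n ^ (5 / 2 : ℝ) * (1 + 5 / 2 * -(1 / n)) =
          n ^ (5 / 2 : ℝ) - 5 / 2 * n ^ (3 / 2 : ℝ) := by
        rw [c3]
        field_simp
        ring
      linarith
    have b5 : n ^ (5 / 2 : ℝ) * n ^ (-(4 / 3) : ℝ) ≤ n ^ (4 / 3 : ℝ) := by
      rw [← Real.rpow_add n0]
      exact Real.rpow_le_rpow_of_exponent_le (by linarith) (by norm_num)
    have b6 : n ^ (3 / 2 : ℝ) * n ^ (-(2 / 3) : ℝ) ≤ n ^ (4 / 3 : ℝ) := by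
      rw [← Real.rpow_add n0]
      exact Real.rpow_le_rpow_of_exponent_le (by linarith) (by norm_num)
    have e : (m : ℝ) ^ (5 / 2 : ℝ) * (F.core t).kap ν s m -
        n ^ (5 / 2 : ℝ) * (F.core t).kap ν s (m + 1 : ℕ) =
        (m : ℝ) ^ (5 / 2 : ℝ) * ((F.core t).kap ν s m - (F.core t).kap ν s (m + 1 : ℕ)) -
          (n ^ (5 / 2 : ℝ) - (m : ℝ) ^ (5 / 2 : ℝ)) * (F.core t).kap ν s (m + 1 : ℕ) := by ring
    rw [e]
    refine (abs_sub _ _).trans ?_
    rw [abs_mul, abs_mul, abs_of_nonneg m0, abs_of_nonneg κ0, abs_of_nonneg (sub_nonneg.2 mn)]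
    have d1 : (m : ℝ) ^ (5 / 2 : ℝ) * |(F.core t).kap ν s m - (F.core t).kap ν s (m + 1 : ℕ)| ≤
        C * 2 ^ (4 / 3 : ℝ) * n ^ (4 / 3 : ℝ) :=
      calc _ ≤ n ^ (5 / 2 : ℝ) * (C * (2 ^ (4 / 3 : ℝ) * n ^ (-(4 / 3) : ℝ))) :=
            mul_le_mul mn (b1.trans (mul_le_mul_of_nonneg_left b2 C0.le)) (abs_nonneg _)
              (by positivity)
        _ = C * 2 ^ (4 / 3 : ℝ) * (n ^ (5 / 2 : ℝ) * n ^ (-(4 / 3) : ℝ)) := by ring
        _ ≤ _ := by gcongr
    have d2 : (n ^ (5 / 2 : ℝ) - (m : ℝ) ^ (5 / 2 : ℝ)) * (F.core t).kap ν s (m + 1 : ℕ) ≤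
        5 / 2 * (C * 2 ^ (2 / 3 : ℝ)) * n ^ (4 / 3 : ℝ) :=
      calc _ ≤ 5 / 2 * n ^ (3 / 2 : ℝ) * (C * (2 ^ (2 / 3 : ℝ) * n ^ (-(2 / 3) : ℝ))) :=
            mul_le_mul b4 ((f3 _).trans (mul_le_mul_of_nonneg_left b3 C0.le)) κ0 (by positivity)
        _ = 5 / 2 * (C * 2 ^ (2 / 3 : ℝ)) * (n ^ (3 / 2 : ℝ) * n ^ (-(2 / 3) : ℝ)) := by ring
        _ ≤ _ := by gcongr
    have : 0 ≤ 2 * (C * 2 ^ (1 / 3 : ℝ) * 8 ^ (3 / 2 : ℝ)) * n ^ (4 / 3 : ℝ) := by positivity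
    linarith
  · have far : ∀ j : ℤ, n / 8 ≤ |j - F.pos ν s t| → F.pos ν s t ≤ 2 * n →
        n ^ (5 / 2 : ℝ) * (F.core t).kap ν s j ≤
          C * 2 ^ (1 / 3 : ℝ) * 8 ^ (3 / 2 : ℝ) * n ^ (4 / 3 : ℝ) := by
      intro j j1 j2
      have c1 := f4 j (n / 8) (by positivity) j1
      have c2 : F.pos ν s t ^ (1 / 3 : ℝ) ≤ 2 ^ (1 / 3 : ℝ) * n ^ (1 / 3 : ℝ) :=
        winD_rpow_pos p0.le n0.le (by norm_num) j2 (by norm_num)
      have c3 : (n / 8) ^ (-(3 / 2) : ℝ) ≤ 8 ^ (3 / 2 : ℝ) * n ^ (-(3 / 2) : ℝ) :=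
        winD_rpow_neg n0 (by norm_num) (by linarith) (by norm_num)
      have c4 : n ^ (4 / 3 : ℝ) = n ^ (5 / 2 : ℝ) * n ^ (1 / 3 : ℝ) * n ^ (-(3 / 2) : ℝ) := by
        rw [← Real.rpow_add n0, ← Real.rpow_add n0]
        norm_num
      calc _ ≤ n ^ (5 / 2 : ℝ) * (C * (2 ^ (1 / 3 : ℝ) * n ^ (1 / 3 : ℝ)) *
            (8 ^ (3 / 2 : ℝ) * n ^ (-(3 / 2) : ℝ))) := by
            refine mul_le_mul_of_nonneg_left (c1.trans ?_) (by positivity)
            gcongr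
        _ = _ := by rw [c4]; ring
    have K0 : 0 ≤ C * 2 ^ (1 / 3 : ℝ) * 8 ^ (3 / 2 : ℝ) * n ^ (4 / 3 : ℝ) := by positivity
    have d1 : |(m : ℝ) ^ (5 / 2 : ℝ) * (if (m : ℝ) / 2 ≤ F.pos ν s t ∧ F.pos ν s t ≤ 2 * m then
        (F.core t).kap ν s m else 0)| ≤
        C * 2 ^ (1 / 3 : ℝ) * 8 ^ (3 / 2 : ℝ) * n ^ (4 / 3 : ℝ) := by
      split_ifs with b
      · rw [abs_of_nonneg (mul_nonneg m0 κ1)]
        refine (mul_le_mul_of_nonneg_right mn κ1).trans (far m ?_ (by linarith [b.2]))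
        have := abs_sub_abs_le_abs_sub (n - F.pos ν s t) (m - F.pos ν s t)
        rw [show n - F.pos ν s t - (m - F.pos ν s t) = 1 by linarith, abs_one] at this
        push_cast
        linarith
      · simpa using K0
    have d2 : |n ^ (5 / 2 : ℝ) * (if n / 2 ≤ F.pos ν s t ∧ F.pos ν s t ≤ 2 * n then
        (F.core t).kap ν s (m + 1 : ℕ) else 0)| ≤
        C * 2 ^ (1 / 3 : ℝ) * 8 ^ (3 / 2 : ℝ) * n ^ (4 / 3 : ℝ) := by
      split_ifs with b
      · rw [abs_of_nonneg (mul_nonneg (by positivity) κ0)]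
        refine far (m + 1 : ℕ) ?_ b.2
        rw [Int.cast_natCast, ← hn]
        linarith
      · simpa using K0
    refine (abs_sub _ _).trans ?_
    have : 0 ≤ (C * 2 ^ (4 / 3 : ℝ) + 5 / 2 * (C * 2 ^ (2 / 3 : ℝ))) * n ^ (4 / 3 : ℝ) := by
      positivity
    linarith

/-- slow variation of the large part -/
theorem Fam.large_slow {q : ℝ}
    (hQ : WinLLN (F.pos ν s) (fun t => F.w t) (fun t => (F.core t).Q ν z) q) (θ : ℝ) :
    Tendsto (fun p : ℕ × ℝ => ((((p.1 - 1 : ℕ) : ℝ) ^ (5 / 2 : ℝ) : ℝ) : ℂ) *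
        ch (F.lawOn (F.small (p.1 - 1))ᶜ ν s z) (p.1 - 1) p.2 -
      (((p.1 : ℝ) ^ (5 / 2 : ℝ) : ℝ) : ℂ) * ch (F.lawOn (F.small p.1)ᶜ ν s z) p.1 p.2)
      (FF θ) (𝓝 0) := by
  classical
  have X := Fam.large_ch h h1 hc h4 hF hw hQ θ
  have X' := X.comp (FF_shift θ 1)
  obtain ⟨K, K0, hK⟩ := Fam.kap_slow h h1 hc h4 hF
  obtain ⟨A1, A10, hA1⟩ := winD_tail hw.dyB (by norm_num)
  have Y : Tendsto (fun p : ℕ × ℝ => ((((p.1 - 1 : ℕ) : ℝ) ^ (5 / 2 : ℝ) : ℝ) : ℂ) *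
      (∑' t : {t // ((p.1 - 1 : ℕ) : ℝ) / 2 ≤ F.pos ν s t ∧ F.pos ν s t ≤ 2 * ((p.1 - 1 : ℕ) : ℝ)},
        ((F.w t : ℝ) : ℂ) * Complex.exp (Complex.I * ((p.2 * (F.core t).L ν z : ℝ) : ℂ)) *
          (((F.core t).kap ν s (p.1 - 1 : ℕ) : ℝ) : ℂ)) - (((p.1 : ℝ) ^ (5 / 2 : ℝ) : ℝ) : ℂ) *
      ∑' t : {t // (p.1 : ℝ) / 2 ≤ F.pos ν s t ∧ F.pos ν s t ≤ 2 * p.1}, ((F.w t : ℝ) : ℂ) *
        Complex.exp (Complex.I * ((p.2 * (F.core t).L ν z : ℝ) : ℂ)) *
          (((F.core t).kap ν s p.1 : ℝ) : ℂ)) (FF θ) (𝓝 0) := by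
    have hn : Tendsto (fun p : ℕ × ℝ => (p.1 : ℝ)) (FF θ) atTop :=
      tendsto_natCast_atTop_atTop.comp (FF_fst θ)
    have lim := ((tendsto_rpow_neg_atTop (y := 1 / 6) (by norm_num)).comp hn).const_mul
      (K * (A1 * 4 ^ (3 / 2 : ℝ)))
    rw [mul_zero] at lim
    refine squeeze_zero_norm' ?_ lim
    filter_upwards [(FF_fst θ).eventually (eventually_ge_atTop 9)] with p hp
    obtain ⟨n, θ'⟩ := p
    obtain ⟨m, rfl⟩ : ∃ m, n = m + 1 := ⟨n - 1, by simp only at hp; omega⟩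
    have hm : 8 ≤ m := by simp only at hp; omega
    simp only [Nat.add_sub_cancel, Function.comp_apply]
    have m8 : (8 : ℝ) ≤ m := by exact_mod_cast hm
    have nm : ((m + 1 : ℕ) : ℝ) = m + 1 := by push_cast; rfl
    have n0 : (0 : ℝ) < ((m + 1 : ℕ) : ℝ) := by linarith
    have H1 := winD_hasSum (s := s) (z := z) h.prob hF.toGood
      (fun t => (m : ℝ) / 2 ≤ F.pos ν s t ∧ F.pos ν s t ≤ 2 * m) θ' m
    have H2 := winD_hasSum (s := s) (z := z) h.prob hF.toGood (fun t =>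
      ((m + 1 : ℕ) : ℝ) / 2 ≤ F.pos ν s t ∧ F.pos ν s t ≤ 2 * ((m + 1 : ℕ) : ℝ)) θ' (m + 1 : ℕ)
    refine winD_norm_le ((H1.mul_left _).sub (H2.mul_left _))
      (b := fun t => ENNReal.ofReal (K * ((m + 1 : ℕ) : ℝ) ^ (4 / 3 : ℝ)) *
        if ((m + 1 : ℕ) : ℝ) / 4 ≤ F.pos ν s t then (F.w t : ℝ≥0∞) else 0)
      (fun t => ?_) (by positivity) ?_
    · have w0 : (0 : ℝ) ≤ F.w t := (F.w t).coe_nonneg
      by_cases a : ((m + 1 : ℕ) : ℝ) / 4 ≤ F.pos ν s t
      · rw [if_pos a, ← ENNReal.ofReal_coe_nnreal, ← ENNReal.ofReal_mul (by positivity)]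
        refine ENNReal.ofReal_le_ofReal (le_trans (le_of_eq ?_)
          (mul_le_mul_of_nonneg_right (hK m hm t) w0))
        have nm' : ∀ x y : ℝ, ‖(x : ℂ) * (((F.w t : ℝ) : ℂ) *
            Complex.exp (Complex.I * (y : ℂ)))‖ = |x| * F.w t := fun x y => by
          rw [norm_mul, norm_mul, mul_comm Complex.I, Complex.norm_exp_ofReal_mul_I, mul_one,
            Complex.norm_real, Complex.norm_real, Real.norm_of_nonneg w0, Real.norm_eq_abs]
        rw [← nm' _ (θ' * (F.core t).L ν z)]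
        congr 1
        rw [Complex.ofReal_sub, Complex.ofReal_mul (_ ^ _), Complex.ofReal_mul (_ ^ _)]
        split_ifs <;> (try simp only [Complex.ofReal_zero]) <;> ring
      · rw [if_neg fun b => a (by linarith [b.1]), if_neg fun b => a (by linarith [b.1])]
        simp
    · have s1 := hA1 (((m + 1 : ℕ) : ℝ) / 4) (by linarith)
      rw [winD_sub (fun t => ((m + 1 : ℕ) : ℝ) / 4 ≤ F.pos ν s t) fun t => (F.w t : ℝ≥0∞)] at s1
      rw [ENNReal.tsum_mul_left]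
      refine (mul_le_mul_right s1 _).trans ?_
      rw [← ENNReal.ofReal_mul (by positivity)]
      refine ENNReal.ofReal_le_ofReal ?_
      have c3 : (((m + 1 : ℕ) : ℝ) / 4) ^ (-(3 / 2) : ℝ) ≤
          4 ^ (3 / 2 : ℝ) * ((m + 1 : ℕ) : ℝ) ^ (-(3 / 2) : ℝ) :=
        winD_rpow_neg n0 (by norm_num) (by linarith) (by norm_num)
      have c4 : ((m + 1 : ℕ) : ℝ) ^ (-(1 / 6) : ℝ) =
          ((m + 1 : ℕ) : ℝ) ^ (4 / 3 : ℝ) * ((m + 1 : ℕ) : ℝ) ^ (-(3 / 2) : ℝ) := by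
        rw [← Real.rpow_add n0]
        norm_num
      rw [show (-(11 / 6) + 1 / 3 : ℝ) = -(3 / 2) by norm_num, c4]
      calc _ ≤ K * ((m + 1 : ℕ) : ℝ) ^ (4 / 3 : ℝ) *
            (A1 * (4 ^ (3 / 2 : ℝ) * ((m + 1 : ℕ) : ℝ) ^ (-(3 / 2) : ℝ))) := by gcongr
        _ = _ := by ring
  have := (X'.sub X).add (Y.const_mul ((Real.exp (-(q * θ ^ 2 / 2)) : ℝ) : ℂ))
  rw [sub_zero, mul_zero, add_zero] at this
  refine this.congr fun p => ?_
  simp only [Function.comp_apply]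
  ring

end large

end Pool.Agent.Lib.MP_77dff5_pr
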