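import Pool.Agent.Lib.MP_77dff5_pr.UDefs
import Pool.Agent.Lib.MP_77dff5_pr.Jump
import Pool.Agent.Lib.MP_77dff5_pr.WinC
import Pool.Agent.Lib.MP_77dff5_pr.WinD
import Pool.Agent.Lib.MP_77dff5_pr.Lin

/-! Systems: all local characteristic functions are proportional to that of the large cores. -/

set_option autoImplicit false

namespace Pool.Agent.Lib.MP_77dff5_pr

open MeasureTheory ProbabilityTheory Filter Topology
open scoped ENNReal NNReal

theorem sysE_int (μ : Measure (ℕ × ℝ)) [IsFiniteMeasure μ] (θ : ℝ) :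
    Integrable (fun p : ℕ × ℝ => Complex.exp (Complex.I * ((θ * p.2 : ℝ) : ℂ))) μ := by
  refine (integrable_const (1 : ℝ)).mono' (Continuous.aestronglyMeasurable (by fun_prop))
    (Eventually.of_forall fun p => ?_)
  rw [Complex.norm_exp_I_mul_ofReal]

theorem sysE_norm_ch (μ : Measure (ℕ × ℝ)) [IsFiniteMeasure μ] (n : ℕ) (θ : ℝ) :
    ‖ch μ n θ‖ ≤ pm μ n := by
  have h := norm_setIntegral_le_of_norm_le_const (μ := μ) (s := {p : ℕ × ℝ | p.1 = n})
    (f := fun p : ℕ × ℝ => Complex.exp (Complex.I * ((θ * p.2 : ℝ) : ℂ))) (C := 1)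
    (measure_lt_top _ _) fun p _ => (Complex.norm_exp_I_mul_ofReal _).le
  rwa [one_mul] at h

theorem sysE_ch_add (μ μ' : Measure (ℕ × ℝ)) [IsFiniteMeasure μ] [IsFiniteMeasure μ'] (n : ℕ)
    (θ : ℝ) : ch (μ + μ') n θ = ch μ n θ + ch μ' n θ := by
  unfold ch
  rw [Measure.restrict_add, integral_add_measure (sysE_int _ θ) (sysE_int _ θ)]

theorem sysE_ch_sum {K : Type} (S : Finset K) (c : K → ℝ≥0) (μ : K → Measure (ℕ × ℝ))
    [∀ k, IsFiniteMeasure (μ k)] (n : ℕ) (θ : ℝ) :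
    ch (∑ k ∈ S, c k • μ k) n θ = ∑ k ∈ S, ((c k : ℝ) : ℂ) * ch (μ k) n θ := by
  classical
  induction S using Finset.induction_on with
  | empty => simp [ch]
  | insert a S ha ih =>
    rw [Finset.sum_insert ha, Finset.sum_insert ha, sysE_ch_add, ih]
    congr 1
    unfold ch
    rw [Measure.restrict_smul, integral_smul_nnreal_measure, NNReal.smul_def, Complex.real_smul]

theorem sysE_norm_mul {n : ℕ} (hn : 1 ≤ n) {x : ℂ} {e : ℝ}
    (h : ‖x‖ ≤ e * (n : ℝ) ^ (-(5 / 2) : ℝ)) : ‖(((n : ℝ) ^ (5 / 2 : ℝ) : ℝ) : ℂ) * x‖ ≤ e := by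
  rw [norm_mul, Complex.norm_real, Real.norm_of_nonneg (by positivity)]
  refine (mul_le_mul_of_nonneg_left h (by positivity)).trans (le_of_eq ?_)
  rw [mul_left_comm, linA_cancel hn, mul_one]

theorem sysE_tendsto {X : Type} {l : Filter X} {f : X → ℂ} {C : ℝ} (hC : 0 ≤ C)
    (h : ∀ ε : ℝ, 0 < ε → ∀ᶠ x in l, ‖f x‖ ≤ ε * C) : Tendsto f l (𝓝 0) := by
  rw [NormedAddGroup.tendsto_nhds_zero]
  intro ε hε
  filter_upwards [h (ε / (C + 1)) (by positivity)] with x hx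
  refine hx.trans_lt ?_
  rw [div_mul_eq_mul_div, div_lt_iff₀ (by positivity)]
  nlinarith

variable {Ω J K : Type} [Countable Ω] [MeasurableSpace Ω] [DiscreteMeasurableSpace Ω] [Fintype J]
  [Fintype K] {ν : J → Measure Ω} {s : Ω → ℕ} {z : Ω → ℝ} {F : K → Fam Ω J} {c : J → K → ℝ≥0}
  {k₀ : K} {j₀ : J} {Δ : ℕ} {B A c₀ : ℝ}

omit [Fintype K] in
theorem sysE_small {G : Fam Ω J} (h : Slots1 ν s z) (hG : G.Good Δ B) {K0 : ℝ} (hK0 : 0 ≤ K0)
    (hp : ∀ j, ∀ l : ℕ, 1 ≤ l → pm (slaw (ν j) s z) l ≤ K0 * (l : ℝ) ^ (-(5 / 2) : ℝ)) (θ : ℝ) :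
    Tendsto (fun p : ℕ × ℝ => (((p.1 : ℝ) ^ (5 / 2 : ℝ) : ℝ) : ℂ) * (ch (G.law ν s z) p.1 p.2 -
      ∑ j, ∑ l ∈ Finset.range ((p.1 + 1) / 2), (G.aa ν s j l : ℂ) *
        ch (slaw (ν j) s z) (p.1 - l) p.2) - (((p.1 : ℝ) ^ (5 / 2 : ℝ) : ℝ) : ℂ) *
          ch (G.lawOn (G.small p.1)ᶜ ν s z) p.1 p.2) (FF θ) (𝓝 0) := by
  refine sysE_tendsto (C := 1 + K0) (by positivity) fun ε hε => ?_
  filter_upwards [(FF_fst θ).eventually (Fam.jump_ch h hG (|θ| + 1) hε), FF_bound θ,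
    (FF_fst θ).eventually (eventually_ge_atTop 1)] with p h1 h2 h3
  have h4 := h1 K0 hK0 (fun j l hl _ => hp j l hl) p.2 h2
  have := Fam.isFinite_lawOn (s := s) (z := z) h.prob hG (G.small p.1)
  have := Fam.isFinite_lawOn (s := s) (z := z) h.prob hG (G.small p.1)ᶜ
  rw [Fam.law_split h.prob (G.small p.1), sysE_ch_add, ← mul_sub, add_sub_right_comm,
    add_sub_cancel_right]
  exact sysE_norm_mul h3 h4

omit [Fintype K] in
theorem sysE_light {G : Fam Ω J} (h : Slots ν s z) (hG : G.Good Δ B)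
    (h6 : Summable fun t => (G.w t : ℝ) * ((G.core t).k : ℝ) ^ 6) (θ : ℝ) :
    Tendsto (fun p : ℕ × ℝ => (((p.1 : ℝ) ^ (5 / 2 : ℝ) : ℝ) : ℂ) *
      ch (G.lawOn (G.small p.1)ᶜ ν s z) p.1 p.2) (FF θ) (𝓝 0) := by
  refine sysE_tendsto (C := 1) zero_le_one fun ε hε => ?_
  filter_upwards [(FF_fst θ).eventually (Fam.large_light h hG h6 hε),
    (FF_fst θ).eventually (eventually_ge_atTop 1)] with p h1 h3
  have := Fam.isFinite_lawOn (s := s) (z := z) h.prob hG (G.small p.1)ᶜ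
  rw [mul_one]
  exact sysE_norm_mul h3 ((sysE_norm_ch _ _ _).trans
    ((measureReal_mono (Set.subset_univ _)).trans h1.1))

open Classical in
theorem SysOK.lim (H : SysOK ν s z F c k₀ j₀ Δ B) (h : Slots ν s z)
    (hD : ∀ j, Asym (slaw (ν j) s z) (src F c ν s z j)) (hp : ∀ j, PmB (slaw (ν j) s z))
    (h1 : T1 ν s A) (hc : 0 < c₀) (h4 : T4 (ν j₀) s c₀) {q : ℝ}
    (hQ : WinLLN ((F k₀).pos ν s) (fun t => (F k₀).w t) (fun t => ((F k₀).core t).Q ν z) q) :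
    ∃ β : J → ℝ, (∀ i, 0 ≤ β i) ∧ (∀ i, β i = ∑ j, sysA F c i j * β j + c i k₀) ∧ ∀ θ : ℝ,
      (∀ i, Tendsto (fun p : ℕ × ℝ => (((p.1 : ℝ) ^ (5 / 2 : ℝ) : ℝ) : ℂ) *
        (ch (slaw (ν i) s z) p.1 p.2 -
          (β i : ℂ) * ch ((F k₀).lawOn ((F k₀).small p.1)ᶜ ν s z) p.1 p.2)) (FF θ) (𝓝 0)) ∧
      ∀ k, Tendsto (fun p : ℕ × ℝ => (((p.1 : ℝ) ^ (5 / 2 : ℝ) : ℝ) : ℂ) *
        (ch ((F k).law ν s z) p.1 p.2 -
          ((∑ j, (F k).acoef j * β j + if k = k₀ then 1 else 0 : ℝ) : ℂ) *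
            ch ((F k₀).lawOn ((F k₀).small p.1)ᶜ ν s z) p.1 p.2)) (FF θ) (𝓝 0) := by
  have hν := h.prob
  have : ∀ k, IsFiniteMeasure ((F k).law ν s z) := fun k => Fam.isFinite_law hν (H.good k)
  have : ∀ j, IsFiniteMeasure (slaw (ν j) s z) := fun j => by
    have := hν j
    unfold slaw
    infer_instance
  obtain ⟨K0, hK0, hpK⟩ : ∃ K0 : ℝ, 0 ≤ K0 ∧ ∀ j, ∀ l : ℕ, 1 ≤ l →
      pm (slaw (ν j) s z) l ≤ K0 * (l : ℝ) ^ (-(5 / 2) : ℝ) := by
    choose Kf hKf using hp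
    refine ⟨∑ j, |Kf j|, Finset.sum_nonneg fun j _ => abs_nonneg _, fun j l hl =>
      (hKf j l hl).trans (mul_le_mul_of_nonneg_right ((le_abs_self _).trans ?_) (by positivity))⟩
    exact Finset.single_le_sum (f := fun j => |Kf j|) (fun j _ => abs_nonneg _) (Finset.mem_univ j)
  obtain ⟨C, hC⟩ := Fam.large_pm h h1 hc h4 H.heavy H.win
  obtain ⟨m, hm, hlyap⟩ := H.lyap
  have haa := fun k j => Fam.hasSum_aa (s := s) hν (H.good k) j
  have ha0 : ∀ i j l, 0 ≤ ∑ k, (c i k : ℝ) * (F k).aa ν s j l := fun i j l =>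
    Finset.sum_nonneg fun k _ => mul_nonneg (c i k).2 ((haa k j).1 l)
  have ha : ∀ i j, HasSum (fun l => ∑ k, (c i k : ℝ) * (F k).aa ν s j l) (sysA F c i j) :=
    fun i j => hasSum_sum fun k _ => (haa k j).2.mul_left _
  obtain ⟨Bm, hBm, hlim⟩ := lin_limit (sysA F c) _ ha0 ha m hm hlyap
  have hβ : ∀ i, ∑ i', Bm i i' * c i' k₀ =
      ∑ j, sysA F c i j * (∑ i', Bm j i' * c i' k₀) + c i k₀ := by
    intro i
    rw [Finset.sum_congr rfl fun i' _ => by rw [hBm i i']]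
    simp only [add_mul, Finset.sum_add_distrib, ite_mul, one_mul, zero_mul, Finset.sum_ite_eq,
      Finset.mem_univ, if_true, Finset.sum_mul, Finset.mul_sum, mul_assoc]
    rw [Finset.sum_comm]
  refine ⟨fun i => ∑ i', Bm i i' * c i' k₀, fun i => ?_, hβ, fun θ => ?_⟩
  · have hA : ∀ i j, 0 ≤ sysA F c i j := fun i j => (ha i j).nonneg (ha0 i j)
    obtain ⟨ε, C', hε, -, hb⟩ := contr_bound (sysA F c) hA m hm hlyap
    have h2 := hb (fun i => -∑ i', Bm i i' * c i' k₀) 0 le_rfl (fun i => by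
      rw [hβ i, neg_add, ← Finset.sum_neg_distrib]
      refine add_le_add (Finset.sum_le_sum fun j _ => ?_) (neg_nonpos.2 (c i k₀).2)
      rw [← mul_neg]
      exact (mul_le_mul_of_nonneg_left (le_max_left _ _) (hA i j)).trans
        (mul_le_mul_of_nonneg_right (le_add_of_nonneg_right hε.le) (le_max_right _ _))) i
    rw [mul_zero] at h2
    exact neg_nonpos.1 h2
  set G : ℕ × ℝ → ℂ := fun p => (((p.1 : ℝ) ^ (5 / 2 : ℝ) : ℝ) : ℂ) *
    ch ((F k₀).lawOn ((F k₀).small p.1)ᶜ ν s z) p.1 p.2 with hG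
  have hGb : ∀ᶠ p in FF θ, ‖G p‖ ≤ C := by
    filter_upwards [(FF_fst θ).eventually (eventually_ge_atTop 1)] with p h3
    have := Fam.isFinite_lawOn (s := s) (z := z) hν (H.good k₀) ((F k₀).small p.1)ᶜ
    exact sysE_norm_mul h3 ((sysE_norm_ch _ _ _).trans (hC _ h3))
  have hGs : Tendsto (fun p : ℕ × ℝ => G (p.1 - 1, p.2) - G p) (FF θ) (𝓝 0) :=
    Fam.large_slow h h1 hc h4 H.heavy H.win hQ θ
  have hGb' : ∀ x : ℝ, ∀ᶠ p in FF θ, ‖(x : ℂ) * G p‖ ≤ |x| * C := fun x => by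
    filter_upwards [hGb] with p h3
    rw [norm_mul, Complex.norm_real, Real.norm_eq_abs]
    exact mul_le_mul_of_nonneg_left h3 (abs_nonneg _)
  have hGs' : ∀ x : ℝ, Tendsto (fun p : ℕ × ℝ => (x : ℂ) * G (p.1 - 1, p.2) - (x : ℂ) * G p)
      (FF θ) (𝓝 0) := fun x => by
    simpa only [mul_zero, mul_sub] using hGs.const_mul (x : ℂ)
  have hu : ∀ j (p : ℕ × ℝ), 1 ≤ p.1 →
      ‖ch (slaw (ν j) s z) p.1 p.2‖ ≤ K0 * (p.1 : ℝ) ^ (-(5 / 2) : ℝ) := fun j p h3 =>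
    (sysE_norm_ch _ _ _).trans (hpK j _ h3)
  have hfam : ∀ k, Tendsto (fun p : ℕ × ℝ => (((p.1 : ℝ) ^ (5 / 2 : ℝ) : ℝ) : ℂ) *
      (ch ((F k).law ν s z) p.1 p.2 - ∑ j, ∑ l ∈ Finset.range ((p.1 + 1) / 2),
        ((F k).aa ν s j l : ℂ) * ch (slaw (ν j) s z) (p.1 - l) p.2) -
          (if k = k₀ then 1 else 0) * G p) (FF θ) (𝓝 0) := by
    intro k
    have h2 := sysE_small H.slots (H.good k) hK0 hpK θ
    split_ifs with hk
    · subst hk
      simpa only [one_mul] using h2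
    · have h3 := h2.add (sysE_light h (H.good k) (H.light k hk) θ)
      simpa only [zero_mul, sub_zero, sub_add_cancel, add_zero] using h3
  have hcls : ∀ i, Tendsto (fun p : ℕ × ℝ => (((p.1 : ℝ) ^ (5 / 2 : ℝ) : ℝ) : ℂ) *
      ch (slaw (ν i) s z) p.1 p.2 - ((∑ i', Bm i i' * c i' k₀ : ℝ) : ℂ) * G p) (FF θ) (𝓝 0) := by
    intro i
    have h2 := hlim θ (K0 + ∑ i', |(c i' k₀ : ℝ)| * |C|) (fun j p => ch (slaw (ν j) s z) p.1 p.2)
      (fun i' p => ((c i' k₀ : ℝ) : ℂ) * G p)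
      (fun j p h3 => (hu j p h3).trans (mul_le_mul_of_nonneg_right
        (le_add_of_nonneg_right (by positivity)) (by positivity)))
      (fun i' => by
        filter_upwards [hGb' (c i' k₀)] with p h3
        refine h3.trans (le_add_of_nonneg_of_le hK0 ((mul_le_mul_of_nonneg_left (le_abs_self C)
          (abs_nonneg _)).trans ?_))
        exact Finset.single_le_sum (f := fun i' => |(c i' k₀ : ℝ)| * |C|)
          (fun _ _ => by positivity) (Finset.mem_univ i'))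
      (fun i' => hGs' _)
      (fun i' => by
        have h3 := (hD i' θ).add (tendsto_finsetSum Finset.univ fun k _ =>
          (hfam k).const_mul ((c i' k : ℝ) : ℂ))
        simp only [mul_zero, Finset.sum_const_zero, add_zero] at h3
        refine h3.congr fun p => ?_
        rw [src, sysE_ch_sum]
        simp only [mul_sub, Finset.sum_sub_distrib, ite_mul, one_mul, zero_mul, mul_ite, mul_zero,
          Finset.sum_ite_eq', Finset.mem_univ, if_true, Complex.ofReal_sum, Complex.ofReal_mul,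
          Finset.sum_mul, Finset.mul_sum]
        have e1 : ∑ k, ((c i' k : ℝ) : ℂ) * ((((p.1 : ℝ) ^ (5 / 2 : ℝ) : ℝ) : ℂ) *
            ch ((F k).law ν s z) p.1 p.2) = ∑ k, (((p.1 : ℝ) ^ (5 / 2 : ℝ) : ℝ) : ℂ) *
              (((c i' k : ℝ) : ℂ) * ch ((F k).law ν s z) p.1 p.2) :=
          Finset.sum_congr rfl fun k _ => by ring
        have e2 : ∑ k, ∑ j, ∑ l ∈ Finset.range ((p.1 + 1) / 2), ((c i' k : ℝ) : ℂ) *
            ((((p.1 : ℝ) ^ (5 / 2 : ℝ) : ℝ) : ℂ) * (((F k).aa ν s j l : ℂ) *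
              ch (slaw (ν j) s z) (p.1 - l) p.2)) =
            ∑ j, ∑ l ∈ Finset.range ((p.1 + 1) / 2), ∑ k, (((p.1 : ℝ) ^ (5 / 2 : ℝ) : ℝ) : ℂ) *
              (((c i' k : ℝ) : ℂ) * ((F k).aa ν s j l : ℂ) *
                ch (slaw (ν j) s z) (p.1 - l) p.2) := by
          rw [Finset.sum_comm]
          refine Finset.sum_congr rfl fun j _ => ?_
          rw [Finset.sum_comm]
          exact Finset.sum_congr rfl fun l _ => Finset.sum_congr rfl fun k _ => by ring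
        rw [e1, e2]
        ring) i
    refine h2.congr fun p => ?_
    simp only [Complex.ofReal_sum, Complex.ofReal_mul, Finset.sum_mul, mul_assoc]
  refine ⟨fun i => (hcls i).congr fun p => by simp only [hG]; ring, fun k => ?_⟩
  have h2 : ∀ j, Tendsto (fun p : ℕ × ℝ => (((p.1 : ℝ) ^ (5 / 2 : ℝ) : ℝ) : ℂ) *
      ∑ l ∈ Finset.range ((p.1 + 1) / 2), ((F k).aa ν s j l : ℂ) *
        ch (slaw (ν j) s z) (p.1 - l) p.2 - ((F k).acoef j : ℂ) *
          (((∑ i', Bm j i' * c i' k₀ : ℝ) : ℂ) * G p)) (FF θ) (𝓝 0) := by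
    intro j
    refine sysE_tendsto (C := 1) zero_le_one fun ε hε => ?_
    have h3 := linB_step (u := fun p => ch (slaw (ν j) s z) p.1 p.2)
      (G := fun p => ((∑ i', Bm j i' * c i' k₀ : ℝ) : ℂ) * G p) (E := 0) (haa k j).1 (haa k j).2
      (hu j) (hGb' _) (hGs' _) le_rfl (fun η hη => by
        filter_upwards [NormedAddGroup.tendsto_nhds_zero.1 (hcls j) η hη] with p h4
        rw [zero_add]
        exact h4.le) hε
    simpa only [mul_zero, zero_add, mul_one] using h3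
  have h3 := (hfam k).add (tendsto_finsetSum Finset.univ fun j _ => h2 j)
  simp only [Finset.sum_const_zero, add_zero] at h3
  refine h3.congr fun p => ?_
  rw [Finset.sum_sub_distrib, ← Finset.mul_sum, Complex.ofReal_add, Complex.ofReal_sum]
  simp only [← mul_assoc, ← Finset.sum_mul, Complex.ofReal_mul, apply_ite Complex.ofReal,
    Complex.ofReal_one, Complex.ofReal_zero, hG]
  ring

end Pool.Agent.Lib.MP_77dff5_pr
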