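import Pool.Agent.Lib.MP_77dff5_pr.TCoreA

/-! The core of a graph: conditional variance. -/

set_option autoImplicit false

namespace Pool.Agent.Lib.MP_77dff5_pr

open MeasureTheory ProbabilityTheory Filter Topology
open scoped ENNReal NNReal

section general

variable {Ω : Type} [Countable Ω] [MeasurableSpace Ω] [DiscreteMeasurableSpace Ω]

/-- a family of distinct coordinates, each transported by a measure preserving map -/
theorem tcoreB_mp {I K : Type} [Fintype I] [Fintype K] (ν : I → Measure Ω) (μ : K → Measure Ω)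
    [∀ i, IsProbabilityMeasure (ν i)] [∀ k, IsProbabilityMeasure (μ k)] (ι : K → I)
    (hι : Function.Injective ι) (τ : K → Ω → Ω) (hτ : ∀ k, (ν (ι k)).map (τ k) = μ k) :
    (Measure.pi ν).map (fun (ω : I → Ω) (k : K) => τ k (ω (ι k))) = Measure.pi μ := by
  have h0 : iIndepFun (fun i (ω : I → Ω) => ω i) (Measure.pi ν) :=
    iIndepFun_pi (X := fun _ => id) fun _ => aemeasurable_id
  have h1 := (h0.precomp hι).comp τ fun _ => Measurable.of_discrete
  have h2 := (iIndepFun_iff_map_fun_eq_pi_map fun _ => Measurable.of_discrete.aemeasurable).1 h1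
  refine h2.trans ?_
  congr 1
  funext k
  rw [← hτ k, ← (measurePreserving_eval ν (ι k)).map_eq,
    Measure.map_map Measurable.of_discrete Measurable.of_discrete]

theorem tcoreB_cov_model {I K : Type} [Fintype I] [Fintype K] (ν : I → Measure Ω)
    (μ : K → Measure Ω) [∀ i, IsProbabilityMeasure (ν i)] [∀ k, IsProbabilityMeasure (μ k)]
    (ι : K → I) (hι : Function.Injective ι) (τ : K → Ω → Ω) (hτ : ∀ k, (ν (ι k)).map (τ k) = μ k)
    (F G : (K → Ω) → ℝ) (F' G' : (I → Ω) → ℝ) (hF : ∀ ω, F' ω = F fun k => τ k (ω (ι k)))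
    (hG : ∀ ω, G' ω = G fun k => τ k (ω (ι k))) :
    cov[F', G'; Measure.pi ν] = cov[F, G; Measure.pi μ] := by
  rw [← tcoreB_mp ν μ ι hι τ hτ, covariance_map_fun Measurable.of_discrete.aestronglyMeasurable
    Measurable.of_discrete.aestronglyMeasurable Measurable.of_discrete.aemeasurable,
    funext hF, funext hG]

/-- functions of disjoint sets of coordinates are uncorrelated -/
theorem tcoreB_cov_zero {I : Type} [Fintype I] (ν : I → Measure Ω)
    [∀ i, IsProbabilityMeasure (ν i)] (A : I → Prop) {F G : (I → Ω) → ℝ}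
    (hF2 : MemLp F 2 (Measure.pi ν)) (hG2 : MemLp G 2 (Measure.pi ν))
    (hF : ∀ ω ω', (∀ i, A i → ω i = ω' i) → F ω = F ω')
    (hG : ∀ ω ω', (∀ i, ¬A i → ω i = ω' i) → G ω = G ω') : cov[F, G; Measure.pi ν] = 0 := by
  classical
  have hmp := measurePreserving_piecewise ν (Finset.univ.filter A)
  rw [← covariance_fst_snd_prod hF2 hG2]
  conv_lhs => rw [← hmp.map_eq]
  rw [covariance_map_fun Measurable.of_discrete.aestronglyMeasurable
    Measurable.of_discrete.aestronglyMeasurable hmp.measurable.aemeasurable]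
  congr 1
  · funext p
    exact hF _ _ fun i hi => Finset.piecewise_eq_of_mem _ _ _ (by simpa using hi)
  · funext p
    exact hG _ _ fun i hi => Finset.piecewise_eq_of_notMem _ _ _ (by simpa using hi)

omit [Countable Ω] in
/-- two atoms give a lower bound of the variance -/
theorem tcoreB_var_atoms {μ : Measure Ω} [IsProbabilityMeasure μ] {φ : Ω → ℝ} (hφ : MemLp φ 2 μ)
    {η η' : Ω} (hne : η ≠ η') :
    min (μ.real {η}) (μ.real {η'}) * (φ η - φ η') ^ 2 / 2 ≤ Var[φ; μ] := by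
  rw [variance_eq_integral hφ.aestronglyMeasurable.aemeasurable]
  set m := ∫ ω, φ ω ∂μ
  have hi : Integrable (fun ω => (φ ω - m) ^ 2) μ := (hφ.sub (memLp_const m)).integrable_sq
  have h1 : ∫ ω in ({η, η'} : Set Ω), (φ ω - m) ^ 2 ∂μ ≤ ∫ ω, (φ ω - m) ^ 2 ∂μ :=
    setIntegral_le_integral hi (Eventually.of_forall fun ω => sq_nonneg _)
  refine le_trans ?_ h1
  rw [Set.insert_eq, setIntegral_union (Set.disjoint_singleton.2 hne) MeasurableSet.of_discrete
    hi.integrableOn hi.integrableOn, integral_singleton, integral_singleton, smul_eq_mul,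
    smul_eq_mul]
  have h2 := min_le_left (μ.real {η}) (μ.real {η'})
  have h3 := min_le_right (μ.real {η}) (μ.real {η'})
  have h4 : 0 ≤ min (μ.real {η}) (μ.real {η'}) := le_min measureReal_nonneg measureReal_nonneg
  set p := min (μ.real {η}) (μ.real {η'})
  have h5 : (φ η - φ η') ^ 2 / 2 ≤ (φ η - m) ^ 2 + (φ η' - m) ^ 2 := by
    nlinarith [sq_nonneg (φ η + φ η' - 2 * m)]
  calc p * (φ η - φ η') ^ 2 / 2 = p * ((φ η - φ η') ^ 2 / 2) := by ring
    _ ≤ p * ((φ η - m) ^ 2 + (φ η' - m) ^ 2) := mul_le_mul_of_nonneg_left h5 h4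
    _ ≤ _ := by
      rw [mul_add]
      exact add_le_add (mul_le_mul_of_nonneg_right h2 (sq_nonneg _))
        (mul_le_mul_of_nonneg_right h3 (sq_nonneg _))

end general

theorem tcoreB_equiv {S : Type} [Fintype S] (x0 : S) :
    ∃ ε : Option (Fin (Nat.card S - 1)) ≃ S, ε none = x0 := by
  classical
  have h1 : 0 < Nat.card S := Nat.card_pos_iff.2 ⟨⟨x0⟩, inferInstance⟩
  have h2 : Fintype.card (Option (Fin (Nat.card S - 1))) = Fintype.card S := by
    rw [Fintype.card_option, Fintype.card_fin, ← Nat.card_eq_fintype_card]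
    omega
  let ε := Fintype.equivOfCardEq h2
  exact ⟨(Equiv.swap none (ε.symm x0)).trans ε, by simp⟩

theorem tcoreB_fst_inj {K E : Type} (d : K → E × Bool) (h1 : Function.Injective d)
    (h2 : ∀ k k', d k' ≠ flp E (d k)) : Function.Injective fun k => (d k).1 := by
  intro k k' h
  by_cases hb : (d k).2 = (d k').2
  · exact h1 (Prod.ext h hb)
  · refine absurd (show d k' = ((d k).1, !(d k).2) from Prod.ext h.symm ?_) (h2 k k')
    show (d k').2 = !(d k).2
    revert hb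
    cases (d k).2 <;> cases (d k').2 <;> simp

/-- the filling of an edge slot seen from the dart `x` -/
def tcoreBsd {Ω E : Type} (sw : Ω → Ω) (x : E × Bool) (η : Ω) : Ω := if x.2 then η else sw η

/-- edge slots and vertex slots -/
noncomputable def tcoreBP {Ω J : Type} [MeasurableSpace Ω] (ν : J → Measure Ω) (jD jV : J)
    (A B : Type) [Fintype A] [Fintype B] : Measure (A ⊕ B → Ω) :=
  Measure.pi fun i => ν (Sum.elim (fun _ => jD) (fun _ => jV) i)

/-- contribution of an inner vertex -/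
noncomputable def tcoreBY {Ω : Type} (a b c : Ω → ℕ) (z : Ω → ℝ) (f : ℕ → ℝ) (k0 : ℕ) (t : NG)
    (v : Fin t.2.1) (ω : Fin t.1 ⊕ Fin t.2.1 → Ω) : ℝ :=
  z (ω (.inr v)) + if deg t.2.2 (.inr v) ≤ k0 then f (c (ω (.inr v)) + poleSum a b t ω (.inr v))
    else f (k0 + 1)

/-- model for one vertex of degree `d` -/
noncomputable def tcoreBM {Ω : Type} (a c : Ω → ℕ) (z : Ω → ℝ) (f : ℕ → ℝ) (k0 d : ℕ)
    (p : Fin d ⊕ Unit → Ω) : ℝ :=
  z (p (.inr ())) + if d ≤ k0 then f (c (p (.inr ())) + ∑ i, a (p (.inl i))) else f (k0 + 1)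

/-- model for two adjacent vertices, first vertex -/
noncomputable def tcoreBM1 {Ω : Type} (a c : Ω → ℕ) (z : Ω → ℝ) (f : ℕ → ℝ) (p q : ℕ)
    (r : Option (Fin p ⊕ Fin q) ⊕ Bool → Ω) : ℝ :=
  z (r (.inr true)) + f (c (r (.inr true)) + (a (r (.inl none)) + ∑ i, a (r (.inl (some (.inl i))))))

/-- model for two adjacent vertices, second vertex -/
noncomputable def tcoreBM2 {Ω : Type} (a b c : Ω → ℕ) (z : Ω → ℝ) (f : ℕ → ℝ) (p q : ℕ)
    (r : Option (Fin p ⊕ Fin q) ⊕ Bool → Ω) : ℝ :=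
  z (r (.inr false)) +
    f (c (r (.inr false)) + (b (r (.inl none)) + ∑ i, a (r (.inl (some (.inr i))))))

variable {Ω J : Type} [Countable Ω] [MeasurableSpace Ω] [DiscreteMeasurableSpace Ω]
  {ν : J → Measure Ω} {s a b c : Ω → ℕ} {z : Ω → ℝ} {jD jV : J} {f : ℕ → ℝ} {k0 : ℕ}

omit [Countable Ω] [MeasurableSpace Ω] [DiscreteMeasurableSpace Ω] in
theorem tcoreB_poleSum {sw : Ω → Ω} (ha : ∀ ω, a (sw ω) = b ω) (t : NG)
    (ω : Fin t.1 ⊕ Fin t.2.1 → Ω) (u : Bool ⊕ Fin t.2.1) {K : Type} [Fintype K]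
    (ε : K ≃ {x // t.2.2 x = u}) :
    poleSum a b t ω u = ∑ k, a (tcoreBsd sw (ε k).1 (ω (.inl (ε k).1.1))) := by
  rw [Equiv.sum_comp ε fun x => a (tcoreBsd sw x.1 (ω (.inl x.1.1))), poleSum,
    ← Finset.sum_filter,
    ← Finset.sum_subtype (Finset.univ.filter fun x => t.2.2 x = u) (by simp)
      fun x => a (tcoreBsd sw x (ω (.inl x.1)))]
  refine Finset.sum_congr rfl fun x _ => ?_
  unfold tcoreBsd
  split_ifs
  · rfl
  · exact (ha _).symm

theorem tcoreB_cov_dart (hν : ∀ j, IsProbabilityMeasure (ν j)) {sw : Ω → Ω}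
    (hsw : (ν jD).map sw = ν jD) {E V A B : Type} [Fintype E] [Fintype V] [Fintype A] [Fintype B]
    (d : A → E × Bool) (hd : Function.Injective fun k => (d k).1) (w : B → V)
    (hw : Function.Injective w) (F G : (A ⊕ B → Ω) → ℝ) (F' G' : (E ⊕ V → Ω) → ℝ)
    (hF : ∀ ω, F' ω = F (Sum.elim (fun k => tcoreBsd sw (d k) (ω (.inl (d k).1)))
      fun k => ω (.inr (w k))))
    (hG : ∀ ω, G' ω = G (Sum.elim (fun k => tcoreBsd sw (d k) (ω (.inl (d k).1)))
      fun k => ω (.inr (w k)))) :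
    cov[F', G'; tcoreBP ν jD jV E V] = cov[F, G; tcoreBP ν jD jV A B] := by
  refine tcoreB_cov_model _ _ (Sum.map (fun k => (d k).1) w) (hd.sumMap hw)
    (Sum.elim (fun k => tcoreBsd sw (d k)) fun _ => id) ?_ F G F' G' (fun ω => ?_) fun ω => ?_
  · rintro (k | k)
    · show (ν jD).map (tcoreBsd sw (d k)) = ν jD
      unfold tcoreBsd
      cases (d k).2
      · simpa using hsw
      · simp
    · exact Measure.map_id
  · rw [hF]
    congr 1
    funext k
    rcases k with k | k <;> rfl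
  · rw [hG]
    congr 1
    funext k
    rcases k with k | k <;> rfl

omit [Countable Ω] [DiscreteMeasurableSpace Ω] in
theorem tcoreB_memLp_z (h : Slots ν s z) {A B : Type} [Fintype A] [Fintype B] (i : A ⊕ B) :
    MemLp (fun ω : A ⊕ B → Ω => z (ω i)) 2 (tcoreBP ν jD jV A B) := by
  have := h.prob
  exact (h.mem_z _).comp_measurePreserving
    (measurePreserving_eval (fun i => ν (Sum.elim (fun _ => jD) (fun _ => jV) i)) i)

theorem tcoreB_memLp_Y (h : Slots ν s z) (hf : EvC f k0) (t : NG) (v : Fin t.2.1) :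
    MemLp (tcoreBY a b c z f k0 t v) 2 (tcoreBP ν jD jV (Fin t.1) (Fin t.2.1)) := by
  have := h.prob
  obtain ⟨B, hB⟩ := hf.bdd
  have : IsProbabilityMeasure (tcoreBP ν jD jV (Fin t.1) (Fin t.2.1)) := by
    unfold tcoreBP
    infer_instance
  refine (tcoreB_memLp_z h (.inr v)).add (MemLp.of_bound
    Measurable.of_discrete.aestronglyMeasurable B (Eventually.of_forall fun ω => ?_))
  split_ifs
  · exact hB _
  · exact hB _

omit [Countable Ω] [MeasurableSpace Ω] [DiscreteMeasurableSpace Ω] in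
theorem tcoreB_Y_dep (t : NG) (v : Fin t.2.1) (ω ω' : Fin t.1 ⊕ Fin t.2.1 → Ω)
    (h1 : ω (.inr v) = ω' (.inr v))
    (h2 : deg t.2.2 (.inr v) ≤ k0 → ∀ x, t.2.2 x = .inr v → ω (.inl x.1) = ω' (.inl x.1)) :
    tcoreBY a b c z f k0 t v ω = tcoreBY a b c z f k0 t v ω' := by
  unfold tcoreBY
  rw [h1]
  split_ifs with hv
  · congr 3
    refine Finset.sum_congr rfl fun x _ => ?_
    split_ifs with h3 h4
    · rw [h2 hv x h3]
    · rw [h2 hv x h3]
    · rfl
  · rfl

/-- the model of one vertex -/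
theorem tcoreB_one (h : Slots ν s z) (hf : EvC f k0) {sw : Ω → Ω} (hsw : (ν jD).map sw = ν jD)
    (ha : ∀ ω, a (sw ω) = b ω) (hz : ∀ ω, z (sw ω) = z ω) (t : NG)
    (ht : ∀ x, t.2.2 (flp _ x) ≠ t.2.2 x) (v : Fin t.2.1) :
    cov[tcoreBY a b c z f k0 t v, tcoreBY a b c z f k0 t v; tcoreBP ν jD jV (Fin t.1) (Fin t.2.1)] =
      cov[tcoreBM a c z f k0 (deg t.2.2 (.inr v)), tcoreBM a c z f k0 (deg t.2.2 (.inr v));
        tcoreBP ν jD jV (Fin (deg t.2.2 (.inr v))) Unit] ∧
    cov[fun ω => ∑ e, z (ω (.inl e)), tcoreBY a b c z f k0 t v;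
        tcoreBP ν jD jV (Fin t.1) (Fin t.2.1)] =
      cov[fun p => ∑ i, z (p (.inl i)), tcoreBM a c z f k0 (deg t.2.2 (.inr v));
        tcoreBP ν jD jV (Fin (deg t.2.2 (.inr v))) Unit] := by
  have := h.prob
  have hP : IsProbabilityMeasure (tcoreBP ν jD jV (Fin t.1) (Fin t.2.1)) := by
    unfold tcoreBP
    infer_instance
  let ε : Fin (deg t.2.2 (.inr v)) ≃ {x // t.2.2 x = .inr v} := (Finite.equivFin _).symm
  have hd : Function.Injective fun k => (ε k).1.1 :=
    tcoreB_fst_inj (fun k => (ε k).1) (Subtype.val_injective.comp ε.injective) fun k k' hk =>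
      ht (ε k).1 (by rw [← hk, (ε k).2, (ε k').2])
  have hw : Function.Injective fun _ : Unit => v := fun _ _ _ => rfl
  have hY : ∀ ω, tcoreBY a b c z f k0 t v ω = tcoreBM a c z f k0 (deg t.2.2 (.inr v))
      (Sum.elim (fun k => tcoreBsd sw (ε k).1 (ω (.inl (ε k).1.1))) fun _ => ω (.inr v)) := by
    intro ω
    unfold tcoreBY tcoreBM
    rw [tcoreB_poleSum ha t ω _ ε]
    rfl
  refine ⟨tcoreB_cov_dart h.prob hsw _ hd _ hw _ _ _ _ hY hY, ?_⟩
  rw [← tcoreB_cov_dart h.prob hsw _ hd _ hw (fun p => ∑ i, z (p (.inl i))) _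
    (fun ω => ∑ k, z (ω (.inl (ε k).1.1))) _ (fun ω => Finset.sum_congr rfl fun k _ => ?_) hY]
  · rw [covariance_fun_sum_left (fun e => tcoreB_memLp_z h _) (tcoreB_memLp_Y h hf t v),
      covariance_fun_sum_left (fun e => tcoreB_memLp_z h _) (tcoreB_memLp_Y h hf t v)]
    refine (Fintype.sum_of_injective _ hd _ _ (fun e he => ?_) fun _ => rfl).symm
    refine tcoreB_cov_zero _ (fun i => i = .inl e) (tcoreB_memLp_z h _) (tcoreB_memLp_Y h hf t v)
      (fun ω ω' hω => by rw [hω _ rfl]) fun ω ω' hω => ?_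
    refine tcoreB_Y_dep t v ω ω' (hω _ (by simp)) fun _ x hx => hω _ fun hx' => he ?_
    exact ⟨ε.symm ⟨x, hx⟩, by simpa using hx'⟩
  · show z _ = z (tcoreBsd sw _ _)
    unfold tcoreBsd
    split_ifs
    · rfl
    · exact (hz _).symm

/-- vertices of large degree -/
theorem tcoreB_large (h : Slots ν s z) {d : ℕ} (hd : k0 < d) :
    cov[tcoreBM a c z f k0 d, tcoreBM a c z f k0 d; tcoreBP ν jD jV (Fin d) Unit] =
      cov[fun p => z (p (.inr ())) + f (k0 + 1), fun p => z (p (.inr ())) + f (k0 + 1);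
        tcoreBP ν jD jV Empty Unit] ∧
    cov[fun p => ∑ i, z (p (.inl i)), tcoreBM a c z f k0 d; tcoreBP ν jD jV (Fin d) Unit] = 0 := by
  have := h.prob
  have hP : IsProbabilityMeasure (tcoreBP ν jD jV (Fin d) Unit) := by
    unfold tcoreBP
    infer_instance
  have hM : tcoreBM a c z f k0 d = fun p => z (p (.inr ())) + f (k0 + 1) := by
    funext p
    rw [tcoreBM, if_neg (not_le.2 hd)]
  rw [hM]
  constructor
  · exact tcoreB_cov_dart (sw := id) h.prob Measure.map_id Empty.elim (fun k => k.elim) id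
      Function.injective_id _ _ _ _ (fun _ => rfl) fun _ => rfl
  · refine tcoreB_cov_zero _ (fun i => i ≠ .inr ())
      (memLp_finsetSum _ fun i _ => tcoreB_memLp_z h _)
      ((tcoreB_memLp_z h _).add (memLp_const _)) (fun ω ω' hω => ?_) fun ω ω' hω => ?_
    · exact Finset.sum_congr rfl fun i _ => by rw [hω _ (by simp)]
    · rw [hω _ (by simp)]

/-- non adjacent vertices, or one of large degree -/
theorem tcoreB_two_zero (h : Slots ν s z) (hf : EvC f k0) (t : NG) {v v' : Fin t.2.1} (hv : v ≠ v')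
    (H : deg t.2.2 (.inr v) ≤ k0 → deg t.2.2 (.inr v') ≤ k0 → ∀ x y, t.2.2 x = .inr v →
      t.2.2 y = .inr v' → x.1 ≠ y.1) :
    cov[tcoreBY a b c z f k0 t v, tcoreBY a b c z f k0 t v';
      tcoreBP ν jD jV (Fin t.1) (Fin t.2.1)] = 0 := by
  have := h.prob
  refine tcoreB_cov_zero _ (fun i => i = .inr v ∨
      (deg t.2.2 (.inr v) ≤ k0 ∧ ∃ x, t.2.2 x = .inr v ∧ i = .inl x.1))
    (tcoreB_memLp_Y h hf t v) (tcoreB_memLp_Y h hf t v') (fun ω ω' hω => ?_) fun ω ω' hω => ?_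
  · exact tcoreB_Y_dep t v ω ω' (hω _ (.inl rfl)) fun h1 x hx => hω _ (.inr ⟨h1, x, hx, rfl⟩)
  · refine tcoreB_Y_dep t v' ω ω' (hω _ ?_) fun h1 y hy => hω _ ?_
    · rintro (h1 | ⟨-, x, -, h1⟩)
      · exact hv (Sum.inr_injective h1).symm
      · exact Sum.inr_ne_inl h1
    · rintro (h2 | ⟨h2, x, hx, h3⟩)
      · exact Sum.inl_ne_inr h2
      · exact H h2 h1 x y hx hy (Sum.inl_injective h3).symm

theorem tcoreB_flp_flp {E : Type} (x : E × Bool) : flp E (flp E x) = x := by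
  obtain ⟨e, b⟩ := x
  cases b <;> rfl

/-- the model of two adjacent vertices -/
theorem tcoreB_two (h : Slots ν s z) {sw : Ω → Ω} (hsw : (ν jD).map sw = ν jD)
    (ha : ∀ ω, a (sw ω) = b ω) (hb : ∀ ω, b (sw ω) = a ω) (t : NG) (ht : Simple t.2.2)
    {v v' : Fin t.2.1} (x0 : Fin t.1 × Bool) (h1 : t.2.2 x0 = .inr v)
    (h2 : t.2.2 (flp _ x0) = .inr v') (hp : deg t.2.2 (.inr v) ≤ k0)
    (hq : deg t.2.2 (.inr v') ≤ k0) :
    cov[tcoreBY a b c z f k0 t v, tcoreBY a b c z f k0 t v';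
      tcoreBP ν jD jV (Fin t.1) (Fin t.2.1)] =
      cov[tcoreBM1 a c z f (deg t.2.2 (.inr v) - 1) (deg t.2.2 (.inr v') - 1),
        tcoreBM2 a b c z f (deg t.2.2 (.inr v) - 1) (deg t.2.2 (.inr v') - 1);
        tcoreBP ν jD jV (Option (Fin (deg t.2.2 (.inr v) - 1) ⊕ Fin (deg t.2.2 (.inr v') - 1)))
          Bool] := by
  have hv : v ≠ v' := fun hv => ht.1 x0 (by rw [h1, h2, hv])
  obtain ⟨ε, hε⟩ := tcoreB_equiv (S := {x // t.2.2 x = .inr v}) ⟨x0, h1⟩
  obtain ⟨ε', hε'⟩ := tcoreB_equiv (S := {x // t.2.2 x = .inr v'}) ⟨flp _ x0, h2⟩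
  let d : Option (Fin (deg t.2.2 (.inr v) - 1) ⊕ Fin (deg t.2.2 (.inr v') - 1)) → Fin t.1 × Bool :=
    fun o => o.elim x0 (Sum.elim (fun i => (ε (some i)).1) fun j => (ε' (some j)).1)
  have e1 : ∀ i, (ε (some i)).1 ≠ x0 := fun i hi =>
    Option.some_ne_none i (ε.injective (by rw [hε]; exact Subtype.ext hi))
  have e2 : ∀ j, (ε' (some j)).1 ≠ flp _ x0 := fun j hj =>
    Option.some_ne_none j (ε'.injective (by rw [hε']; exact Subtype.ext hj))
  have e3 : ∀ x y, t.2.2 x = .inr v → t.2.2 y = .inr v' → x ≠ y := fun x y hx hy hxy =>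
    hv (Sum.inr_injective (by rw [← hx, ← hy, hxy]))
  have e4 : ∀ k, t.2.2 (d k) = .inr v ∨ (t.2.2 (d k) = .inr v' ∧ d k ≠ flp _ x0) := by
    rintro (_ | i | j)
    · exact .inl h1
    · exact .inl (ε (some i)).2
    · exact .inr ⟨(ε' (some j)).2, e2 j⟩
  have e5 : ∀ x y, t.2.2 x = .inr v → t.2.2 y = .inr v' → y = flp _ x → y = flp _ x0 := by
    rintro x y hx hy rfl
    rw [ht.2 x x0 (hx.trans h1.symm) (hy.trans h2.symm)]
  have hd : Function.Injective fun k => (d k).1 := by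
    refine tcoreB_fst_inj d ?_ fun k k' hk => ?_
    · rintro (_ | i | j) (_ | i' | j') hk
      · rfl
      · exact absurd hk.symm (e1 i')
      · exact absurd hk (e3 _ _ h1 (ε' (some j')).2)
      · exact absurd hk (e1 i)
      · rw [Option.some_injective _ (ε.injective (Subtype.ext hk))]
      · exact absurd hk (e3 _ _ (ε (some i)).2 (ε' (some j')).2)
      · exact absurd hk.symm (e3 _ _ h1 (ε' (some j)).2)
      · exact absurd hk.symm (e3 _ _ (ε (some i')).2 (ε' (some j)).2)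
      · rw [Option.some_injective _ (ε'.injective (Subtype.ext hk))]
    · rcases e4 k with h3 | ⟨h3, h4⟩ <;> rcases e4 k' with h5 | ⟨h5, h6⟩
      · exact ht.1 (d k) (by rw [← hk, h3, h5])
      · exact h6 (e5 _ _ h3 h5 hk)
      · exact h4 (e5 _ _ h5 h3 (by rw [hk, tcoreB_flp_flp]))
      · exact ht.1 (d k) (by rw [← hk, h3, h5])
  have hw : Function.Injective fun β : Bool => if β then v else v' := by
    rintro (_ | _) (_ | _) hβ
    · rfl
    · exact absurd hβ.symm hv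
    · exact absurd hβ hv
    · rfl
  refine tcoreB_cov_dart h.prob hsw d hd _ hw _ _ _ _ (fun ω => ?_) fun ω => ?_
  · unfold tcoreBY tcoreBM1
    rw [if_pos hp, tcoreB_poleSum ha t ω _ ε, Fintype.sum_option, hε]
    rfl
  · unfold tcoreBY tcoreBM2
    rw [if_pos hq, tcoreB_poleSum ha t ω _ ε', Fintype.sum_option, hε']
    have : a (tcoreBsd sw (flp _ x0) (ω (.inl (flp _ x0).1))) =
        b (tcoreBsd sw x0 (ω (.inl x0.1))) := by
      obtain ⟨e, β⟩ := x0
      cases β
      · exact (hb _).symm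
      · exact ha _
    rw [this]
    rfl

open Classical in
theorem tcoreB_Epq (p q : ℕ) (t : NG) : (Epq p q t : ℝ) = ∑ x, if ∃ v v', t.2.2 x = .inr v ∧
    t.2.2 (flp _ x) = .inr v' ∧ deg t.2.2 (.inr v) = p ∧ deg t.2.2 (.inr v') = q then 1 else 0 := by
  rw [Epq, Nat.card_eq_fintype_card, Fintype.card_subtype, Finset.card_filter]
  push_cast
  rfl

/-- ordered adjacent pairs of inner vertices are darts -/
theorem tcoreB_pairs (t : NG) (ht : Simple t.2.2) (C : Fin t.2.1 → Fin t.2.1 → ℝ) (cc : ℕ → ℕ → ℝ)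
    (k0 : ℕ) (h0 : ∀ v v', v ≠ v' → (deg t.2.2 (.inr v) ≤ k0 → deg t.2.2 (.inr v') ≤ k0 →
      ∀ x y, t.2.2 x = .inr v → t.2.2 y = .inr v' → x.1 ≠ y.1) → C v v' = 0)
    (h1 : ∀ v v' x, t.2.2 x = .inr v → t.2.2 (flp _ x) = .inr v' → deg t.2.2 (.inr v) ≤ k0 →
      deg t.2.2 (.inr v') ≤ k0 → C v v' = cc (deg t.2.2 (.inr v)) (deg t.2.2 (.inr v'))) :
    ∑ v, ∑ v', C v v' = ∑ v, C v v +
      ∑ p ∈ Finset.range (k0 + 1), ∑ q ∈ Finset.range (k0 + 1), cc p q * Epq p q t := by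
  classical
  let W : (Bool ⊕ Fin t.2.1) × (Bool ⊕ Fin t.2.1) → ℝ := fun u =>
    u.1.elim (fun _ => 0) fun v => u.2.elim (fun _ => 0) fun v' => if v = v' then 0 else C v v'
  have e1 : ∑ v, ∑ v', C v v' = ∑ v, C v v + ∑ u, W u := by
    simp only [W, Fintype.sum_prod_type, Fintype.sum_sum_type, Sum.elim_inl, Sum.elim_inr,
      Finset.sum_const_zero, zero_add, add_zero]
    rw [← Finset.sum_add_distrib]
    refine Finset.sum_congr rfl fun v _ => ?_
    have : ∀ v', C v v' = (if v = v' then C v v' else 0) + if v = v' then 0 else C v v' := by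
      intro v'
      split_ifs <;> simp
    rw [Finset.sum_congr rfl fun v' _ => this v', Finset.sum_add_distrib, Finset.sum_ite_eq,
      if_pos (Finset.mem_univ _)]
  have e2 : ∑ x, W (t.2.2 x, t.2.2 (flp _ x)) = ∑ u, W u := by
    refine Fintype.sum_of_injective (fun x => (t.2.2 x, t.2.2 (flp _ x)))
      (fun x y hxy => ht.2 x y (congrArg Prod.fst hxy) (congrArg Prod.snd hxy)) _ _ ?_ fun _ => rfl
    rintro ⟨u | v, u' | v'⟩ hu
    · rfl
    · rfl
    · rfl
    · show (if v = v' then 0 else C v v') = 0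
      split_ifs with hv
      · rfl
      · refine h0 v v' hv fun _ _ x y hx hy hxy => hu ⟨x, ?_⟩
        have h2 : y = flp _ x := by
          obtain ⟨e, β⟩ := x
          obtain ⟨e', β'⟩ := y
          obtain rfl : e = e' := hxy
          cases β <;> cases β'
          · exact absurd (Sum.inr_injective (hx.symm.trans hy)) hv
          · rfl
          · rfl
          · exact absurd (Sum.inr_injective (hx.symm.trans hy)) hv
        show (t.2.2 x, t.2.2 (flp _ x)) = _
        rw [← h2, hx, hy]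
  rw [e1, ← e2]
  congr 1
  simp only [tcoreB_Epq, Finset.mul_sum]
  rw [Finset.sum_congr rfl fun p _ => Finset.sum_comm, Finset.sum_comm]
  refine Finset.sum_congr rfl fun x _ => ?_
  rcases hx : t.2.2 x with u | v
  · simp [W]
  rcases hy : t.2.2 (flp _ x) with u' | v'
  · simp [W]
  have hv : v ≠ v' := fun hv => ht.1 x (by rw [hx, hy, hv])
  have e3 : ∀ p q, (∃ w w', (Sum.inr v : Bool ⊕ Fin t.2.1) = .inr w ∧
      (Sum.inr v' : Bool ⊕ Fin t.2.1) = .inr w' ∧ deg t.2.2 (.inr w) = p ∧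
      deg t.2.2 (.inr w') = q) ↔ deg t.2.2 (.inr v) = p ∧ deg t.2.2 (.inr v') = q := by
    intro p q
    constructor
    · rintro ⟨w, w', h2, h3, h4⟩
      rwa [← h2, ← h3] at h4
    · exact fun h2 => ⟨v, v', rfl, rfl, h2⟩
  simp only [e3, W, Sum.elim_inr, if_neg hv, mul_ite, mul_one, mul_zero, ite_and,
    Finset.sum_ite_irrel, Finset.sum_const_zero, Finset.sum_ite_eq, Finset.mem_range,
    Nat.lt_succ_iff]
  split_ifs with h2 h3
  · exact h1 v v' x hx hy h2 h3
  · exact h0 v v' hv fun _ h4 => absurd h4 h3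
  · exact h0 v v' hv fun h4 => absurd h4 h2

theorem tcore_Q (h : Slots ν s z) (hf : EvC f k0) (hs : SymD (ν jD) a b z) :
    ∃ (vD : ℝ) (γ : ℕ → ℝ) (cc : ℕ → ℕ → ℝ), EvC γ k0 ∧ ∀ t : NG, Simple t.2.2 → ∀ (s0 : ℕ) (z0 : ℝ),
      (Tcore a b c jD jV f k0 t s0 z0).Q ν z = vD * t.1 + Fl γ t +
        ∑ p ∈ Finset.range (k0 + 1), ∑ q ∈ Finset.range (k0 + 1), cc p q * Epq p q t := by
  have := h.prob
  obtain ⟨sw, hsw, ha, hb, hz⟩ := hs
  refine ⟨Var[z; ν jD], fun d =>
    cov[tcoreBM a c z f k0 d, tcoreBM a c z f k0 d; tcoreBP ν jD jV (Fin d) Unit] +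
      2 * cov[fun p => ∑ i, z (p (.inl i)), tcoreBM a c z f k0 d; tcoreBP ν jD jV (Fin d) Unit],
    fun p q => cov[tcoreBM1 a c z f (p - 1) (q - 1), tcoreBM2 a b c z f (p - 1) (q - 1);
      tcoreBP ν jD jV (Option (Fin (p - 1) ⊕ Fin (q - 1))) Bool], fun d hd => ?_,
    fun t ht s0 z0 => ?_⟩
  · simp only [(tcoreB_large h hd).1, (tcoreB_large h hd).2,
      (tcoreB_large h (Nat.lt_succ_self k0)).1, (tcoreB_large h (Nat.lt_succ_self k0)).2]
  have hP : IsProbabilityMeasure (tcoreBP ν jD jV (Fin t.1) (Fin t.2.1)) := by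
    unfold tcoreBP
    infer_instance
  have hX : MemLp (fun ω : Fin t.1 ⊕ Fin t.2.1 → Ω => ∑ e, z (ω (.inl e))) 2
      (tcoreBP ν jD jV (Fin t.1) (Fin t.2.1)) := memLp_finsetSum _ fun e _ => tcoreB_memLp_z h _
  have hY := tcoreB_memLp_Y (a := a) (b := b) (c := c) (jD := jD) (jV := jV) h hf t
  have e0 : (Tcore a b c jD jV f k0 t s0 z0).Q ν z = Var[fun ω => z0 + (∑ e, z (ω (.inl e)) +
      ∑ v, tcoreBY a b c z f k0 t v ω); tcoreBP ν jD jV (Fin t.1) (Fin t.2.1)] := by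
    unfold Core.Q
    congr 1
    funext ω
    show z0 + ∑ i : Fin t.1 ⊕ Fin t.2.1, z (ω i) + ∑ v : Fin t.2.1, (if deg t.2.2 (.inr v) ≤ k0 then
      f (c (ω (.inr v)) + poleSum a b t ω (.inr v)) else f (k0 + 1)) = _
    simp only [Fintype.sum_sum_type, tcoreBY, Finset.sum_add_distrib]
    ring
  have e1 : Var[fun ω : Fin t.1 ⊕ Fin t.2.1 → Ω => ∑ e, z (ω (.inl e));
      tcoreBP ν jD jV (Fin t.1) (Fin t.2.1)] = Var[z; ν jD] * t.1 := by
    rw [variance_fun_sum fun e => tcoreB_memLp_z h _]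
    have : ∀ e : Fin t.1, ∑ e' : Fin t.1, cov[fun ω => z (ω (.inl e)), fun ω => z (ω (.inl e'));
        tcoreBP ν jD jV (Fin t.1) (Fin t.2.1)] = Var[z; ν jD] := by
      intro e
      rw [Finset.sum_eq_single e (fun e' _ he => ?_) fun he => absurd (Finset.mem_univ e) he,
        covariance_self Measurable.of_discrete.aemeasurable]
      · exact (measurePreserving_eval (fun i : Fin t.1 ⊕ Fin t.2.1 =>
          ν (Sum.elim (fun _ => jD) (fun _ => jV) i)) (.inl e)).variance_fun_comp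
          Measurable.of_discrete.aemeasurable
      · exact tcoreB_cov_zero _ (fun i => i = .inl e) (tcoreB_memLp_z h _) (tcoreB_memLp_z h _)
          (fun ω ω' hω => by rw [hω _ rfl]) fun ω ω' hω => by rw [hω _ (by simpa using he)]
    rw [Finset.sum_congr rfl fun e _ => this e, Finset.sum_const, Finset.card_univ,
      Fintype.card_fin, nsmul_eq_mul, mul_comm]
  rw [e0, variance_const_add Measurable.of_discrete.aestronglyMeasurable,
    variance_fun_add hX (memLp_finsetSum _ fun v _ => hY v), e1, variance_fun_sum hY,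
    covariance_fun_sum_right hY hX,
    tcoreB_pairs t ht _ (fun p q => cov[tcoreBM1 a c z f (p - 1) (q - 1),
      tcoreBM2 a b c z f (p - 1) (q - 1);
      tcoreBP ν jD jV (Option (Fin (p - 1) ⊕ Fin (q - 1))) Bool]) k0
      (fun v v' hv H => tcoreB_two_zero h hf t hv H)
      fun v v' x h1 h2 hp hq => tcoreB_two h hsw ha hb t ht x h1 h2 hp hq,
    Finset.sum_congr rfl fun v _ => (tcoreB_one h hf hsw ha hz t ht.1 v).1,
    Finset.sum_congr rfl fun v _ => (tcoreB_one h hf hsw ha hz t ht.1 v).2]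
  simp only [Fl, Finset.sum_add_distrib, ← Finset.mul_sum]
  ring

omit [Countable Ω] in
theorem tcoreB_slot (h : Slots ν s z) {C : Core Ω J} {Δ : ℕ} {B : ℝ} (hg : C.Good Δ B) (i : C.I)
    (ω : C.I → Ω) {η η' : Ω} (hne : η ≠ η')
    (e2 : ∀ v, C.g v (Function.update ω i η) = C.g v (Function.update ω i η')) :
    min ((ν (C.cls i)).real {η}) ((ν (C.cls i)).real {η'}) * (z η - z η') ^ 2 / 2 ≤
      Var[fun ξ => C.Z z (Function.update ω i ξ); ν (C.cls i)] := by
  have := h.prob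
  have e : ∀ ξ, C.Z z (Function.update ω i ξ) = z ξ + (C.z0 + ∑ j, z (ω j) - z (ω i) +
      ∑ v, C.g v (Function.update ω i ξ)) := by
    intro ξ
    have := varB_sum_update z Finset.univ ω i ξ
    rw [if_pos (Finset.mem_univ _)] at this
    simp only [Core.Z]
    linarith
  have hm : MemLp (fun ξ => C.Z z (Function.update ω i ξ)) 2 (ν (C.cls i)) := by
    rw [funext e]
    have h0 : MemLp (fun _ : Ω => C.z0 + ∑ j, z (ω j) - z (ω i)) 2 (ν (C.cls i)) := memLp_const _
    have h2 : MemLp (fun ξ : Ω => ∑ v, C.g v (Function.update ω i ξ)) 2 (ν (C.cls i)) :=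
      memLp_finsetSum _ fun v _ => MemLp.of_bound Measurable.of_discrete.aestronglyMeasurable B
        (Eventually.of_forall fun ξ => hg.bd v _)
    exact (h.mem_z _).add (h0.add h2)
  have h3 := tcoreB_var_atoms hm hne
  rwa [e η, e η', Finset.sum_congr rfl fun v _ => e2 v, add_sub_add_right_eq_sub] at h3

omit [Countable Ω] [MeasurableSpace Ω] [DiscreteMeasurableSpace Ω] in
theorem tcoreB_dep (t : NG) (s0 : ℕ) (z0 : ℝ) (v w : Fin t.2.1)
    (hw : Sum.inr w ∈ (Tcore a b c jD jV f k0 t s0 z0).dep v) : w = v := by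
  classical
  by_cases hv : deg t.2.2 (.inr v) ≤ k0
  · simp only [Tcore, if_pos hv] at hw
    exact (@Finset.mem_filter _ _ (_) _ _).1 hw |>.2
  · simp only [Tcore, if_neg hv] at hw
    exact absurd hw (Finset.notMem_empty _)

omit [Countable Ω] [MeasurableSpace Ω] [DiscreteMeasurableSpace Ω] in
theorem tcoreB_g_update (t : NG) (s0 : ℕ) (z0 : ℝ) {η η' : Ω} (hc : c η = c η')
    (ω : Fin t.1 ⊕ Fin t.2.1 → Ω) (u v : Fin t.2.1) :
    (Tcore a b c jD jV f k0 t s0 z0).g v (Function.update ω (.inr u) η) =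
      (Tcore a b c jD jV f k0 t s0 z0).g v (Function.update ω (.inr u) η') := by
  have e3 : ∀ ξ w, poleSum a b t (Function.update ω (.inr u) ξ) w = poleSum a b t ω w := by
    intro ξ w
    refine Finset.sum_congr rfl fun x _ => ?_
    rw [Function.update_of_ne Sum.inl_ne_inr]
  show (if deg t.2.2 (.inr v) ≤ k0 then f (c (Function.update ω (.inr u) η (.inr v)) +
    poleSum a b t (Function.update ω (.inr u) η) (.inr v)) else f (k0 + 1)) =
    if deg t.2.2 (.inr v) ≤ k0 then f (c (Function.update ω (.inr u) η' (.inr v)) +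
    poleSum a b t (Function.update ω (.inr u) η') (.inr v)) else f (k0 + 1)
  rw [e3, e3]
  by_cases hv : v = u
  · rw [hv, Function.update_self, Function.update_self, hc]
  · have : (Sum.inr v : Fin t.1 ⊕ Fin t.2.1) ≠ .inr u := fun h => hv (Sum.inr_injective h)
    rw [Function.update_of_ne this, Function.update_of_ne this]

theorem tcore_le_Q (h : Slots ν s z) (hf : EvC f k0) {η η' : Ω} (h1 : ν jV {η} ≠ 0)
    (h2 : ν jV {η'} ≠ 0) (hc : c η = c η') (hz : z η ≠ z η') :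
    ∃ v0 : ℝ, 0 < v0 ∧ ∀ (t : NG) (s0 : ℕ) (z0 : ℝ),
      t.2.1 * v0 ≤ (Tcore a b c jD jV f k0 t s0 z0).Q ν z := by
  have := h.prob
  obtain ⟨B, hB⟩ := hf.bdd
  have hne : η ≠ η' := fun he => hz (by rw [he])
  refine ⟨min ((ν jV).real {η}) ((ν jV).real {η'}) * (z η - z η') ^ 2 / 2, ?_, fun t s0 z0 => ?_⟩
  · have h3 : 0 < (ν jV).real {η} := ENNReal.toReal_pos h1 (measure_ne_top _ _)
    have h4 : 0 < (ν jV).real {η'} := ENNReal.toReal_pos h2 (measure_ne_top _ _)
    have h5 : 0 < (z η - z η') ^ 2 := sq_pos_of_ne_zero (sub_ne_zero.2 hz)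
    have h6 := lt_min h3 h4
    positivity
  have hg : (Tcore a b c jD jV f k0 t s0 z0).Good (k0 + 2 + s0) (max B |z0|) := by
    refine tcore_good (fun d => (hB d).trans (le_max_left _ _)) (Nat.le_add_right _ _) t ?_ ?_
    · exact (Nat.le_add_left _ _).trans (Nat.le_mul_of_pos_right _ (Nat.succ_pos _))
    · refine (le_max_right B _).trans (le_mul_of_one_le_right
        ((abs_nonneg _).trans (le_max_right B _)) ?_)
      have : (0 : ℝ) ≤ t.1 + t.2.1 := by positivity
      linarith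
  have key := Core.le_Q h hg
    (Finset.univ.map ⟨(Sum.inr : Fin t.2.1 → Fin t.1 ⊕ Fin t.2.1), Sum.inr_injective⟩) ?_
    (min ((ν jV).real {η}) ((ν jV).real {η'}) * (z η - z η') ^ 2 / 2) ?_
  · rwa [Finset.card_map, Finset.card_univ, Fintype.card_fin] at key
  · intro v i hi i' hi' h3 h4
    obtain ⟨u, -, rfl⟩ := Finset.mem_map.1 hi
    obtain ⟨u', -, rfl⟩ := Finset.mem_map.1 hi'
    exact congrArg Sum.inr ((tcoreB_dep t s0 z0 v u h3).trans (tcoreB_dep t s0 z0 v u' h4).symm)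
  · intro i hi ω
    obtain ⟨u, -, rfl⟩ := Finset.mem_map.1 hi
    exact tcoreB_slot h hg _ ω hne fun v => tcoreB_g_update t s0 z0 hc ω u v

end Pool.Agent.Lib.MP_77dff5_pr
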