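import Pool.Agent.Lib.MP_77dff5_pr.TaubA

/-! A tauberian theorem for the stable density, and averages against Lipschitz profiles. -/

set_option autoImplicit false

namespace Pool.Agent.Lib.MP_77dff5_pr

open MeasureTheory Filter Topology

theorem taubB_conv {γ₁ γ₂ δ : ℝ} (hγ : 0 < γ₁) (hδ : 0 < δ) (x y : ℝ) :
    ∫ s, taubB δ (-γ₁) (-γ₂) (y - s) * aS γ₁ γ₂ (s - x) = taubB δ 0 0 (y - x) := by
  have h0 := taubOk_zero hγ
  have h1 := taubOk_pos hδ (-γ₁)
  have ik : Integrable fun s => taubB δ (-γ₁) (-γ₂) (y - s) := (taubB_int h1 _).comp_sub_left y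
  have iE := (taubE_decay h0 γ₂).1
  have ip : Integrable (Function.uncurry fun s ξ : ℝ =>
      taubCh (s - x) ξ * (taubB δ (-γ₁) (-γ₂) (y - s) * taubE 0 γ₁ γ₂ ξ)) (volume.prod volume) := by
    refine (ik.mul_prod iE).bdd_mul (c := 1) ?_ (Eventually.of_forall fun p => (taubCh_norm _ _).le)
    exact (taubCh_cont.comp ((continuous_fst.sub continuous_const).prodMk
      continuous_snd)).aestronglyMeasurable
  have sw := integral_integral_swap ip
  have e1 : ∀ s, taubB δ (-γ₁) (-γ₂) (y - s) * aS γ₁ γ₂ (s - x) = (2 * Real.pi : ℂ)⁻¹ *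
      ∫ ξ, taubCh (s - x) ξ * (taubB δ (-γ₁) (-γ₂) (y - s) * taubE 0 γ₁ γ₂ ξ) := by
    intro s
    rw [aS_eq_taubB]
    conv_lhs => rw [taubB.eq_1 0, mul_left_comm, ← integral_const_mul]
    congr 2
    ext ξ
    ring
  have e2 : ∀ ξ, ∫ s, taubCh (s - x) ξ * (taubB δ (-γ₁) (-γ₂) (y - s) * taubE 0 γ₁ γ₂ ξ) =
      taubCh (y - x) ξ * taubE δ 0 0 ξ := by
    intro ξ
    have e3 : taubE δ 0 0 ξ = taubE δ (-γ₁) (-γ₂) ξ * taubE 0 γ₁ γ₂ ξ := by
      unfold taubE psiS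
      rw [← Complex.exp_add]
      congr 1
      push_cast
      ring
    rw [e3, ← taubB_inv h1, ← integral_sub_left_eq_self _ volume y, ← integral_mul_const,
      ← integral_const_mul]
    congr 1
    ext v
    have e4 : taubCh (y - v - x) ξ = taubCh (y - x) ξ * taubCh v (-ξ) := by
      unfold taubCh
      rw [← Complex.exp_add]
      congr 1
      push_cast
      ring
    simp only [sub_sub_cancel]
    rw [e4]
    ring
  simp_rw [e1]
  rw [integral_const_mul, sw]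
  simp_rw [e2]
  rfl

theorem taubB_scale {h : ℝ} (hh : 0 < h) (y : ℝ) :
    (h : ℂ) * taubB (h ^ 2) 0 0 (h * y) = taubB 1 0 0 y := by
  unfold taubB
  have e := Measure.integral_comp_mul_left (fun ξ => taubCh y ξ * taubE 1 0 0 ξ) h
  rw [abs_of_pos (inv_pos.mpr hh)] at e
  have e2 : ∫ ξ, taubCh (h * y) ξ * taubE (h ^ 2) 0 0 ξ =
      ∫ ξ, taubCh y (h * ξ) * taubE 1 0 0 (h * ξ) := by
    congr 1
    ext ξ
    unfold taubCh taubE psiS
    congr 2
    · push_cast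
      ring
    · push_cast
      ring
  rw [e2, e, Complex.real_smul]
  have : (h : ℂ) ≠ 0 := by exact_mod_cast hh.ne'
  push_cast
  field_simp

theorem taubB_smooth {h : ℝ} (hh : 0 < h) (φ : ℝ → ℝ) (x : ℝ) :
    ∫ s, (φ s : ℂ) * taubB (h ^ 2) 0 0 (s - x) = ∫ y, taubB 1 0 0 y * (φ (x + h * y) : ℂ) := by
  rw [← integral_add_left_eq_self _ x]
  have e := Measure.integral_comp_mul_left
    (fun s => (φ (x + s) : ℂ) * taubB (h ^ 2) 0 0 (x + s - x)) h
  rw [abs_of_pos (inv_pos.mpr hh)] at e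
  have hc : (h : ℂ) ≠ 0 := by exact_mod_cast hh.ne'
  have e2 : ∫ y, taubB 1 0 0 y * (φ (x + h * y) : ℂ) =
      (h : ℂ) * ∫ y, (φ (x + h * y) : ℂ) * taubB (h ^ 2) 0 0 (x + h * y - x) := by
    rw [← integral_const_mul]
    congr 1
    ext y
    rw [← taubB_scale hh y, add_sub_cancel_left]
    ring
  rw [e2, e, Complex.real_smul]
  push_cast
  field_simp

theorem taubB_supp {φ : ℝ → ℝ} (h2 : HasCompactSupport φ) :
    ∃ R : ℝ, 0 ≤ R ∧ ∀ x, R < |x| → φ x = 0 := by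
  obtain ⟨R, hR⟩ := h2.isCompact.isBounded.subset_closedBall 0
  refine ⟨max R 0, le_max_right _ _, fun x hx => ?_⟩
  by_contra hne
  have := hR (subset_tsupport _ hne)
  rw [mem_closedBall_zero_iff, Real.norm_eq_abs] at this
  linarith [le_max_left R 0]

theorem taubB_dom {φ : ℝ → ℝ} (h1 : Continuous φ) (h2 : HasCompactSupport φ) :
    ∃ M : ℝ, 0 ≤ M ∧ ∀ x, |φ x| ≤ M * (1 + |x|) ^ (-(3 / 2) : ℝ) := by
  obtain ⟨R, hR0, hR⟩ := taubB_supp h2
  obtain ⟨M, hM⟩ := h1.bounded_above_of_compact_support h2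
  have hM0 : 0 ≤ M := (norm_nonneg _).trans (hM 0)
  have hm : 0 < (1 + R) ^ (-(3 / 2) : ℝ) := Real.rpow_pos_of_pos (by positivity) _
  refine ⟨M / (1 + R) ^ (-(3 / 2) : ℝ), by positivity, fun x => ?_⟩
  by_cases hx : |x| ≤ R
  · have h3 : (1 + R) ^ (-(3 / 2) : ℝ) ≤ (1 + |x|) ^ (-(3 / 2) : ℝ) :=
      Real.rpow_le_rpow_of_nonpos (by positivity) (by linarith) (by norm_num)
    refine (hM x).trans ?_
    rw [div_mul_eq_mul_div, le_div_iff₀ hm]
    exact mul_le_mul_of_nonneg_left h3 hM0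
  · rw [hR x (lt_of_not_ge hx), abs_zero]
    exact mul_nonneg (by positivity) (taub_w_pos _ _).le

theorem taubB_mod {φ : ℝ → ℝ} (h1 : Continuous φ) (h2 : HasCompactSupport φ) {ε : ℝ} (hε : 0 < ε) :
    ∃ d : ℝ, 0 < d ∧ ∀ z, |z| ≤ d → ∀ x,
      |φ (x + z) - φ x| ≤ ε * (1 + |x|) ^ (-(3 / 2) : ℝ) := by
  obtain ⟨R, hR0, hR⟩ := taubB_supp h2
  have hm : 0 < (2 + R) ^ (-(3 / 2) : ℝ) := Real.rpow_pos_of_pos (by positivity) _
  obtain ⟨d, hd, hd'⟩ := Metric.uniformContinuous_iff_le.mp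
    (h2.uniformContinuous_of_continuous h1) _ (mul_pos hε hm)
  refine ⟨min d 1, lt_min hd one_pos, fun z hz x => ?_⟩
  by_cases hx : |x| ≤ R + 1
  · have h3 : (2 + R) ^ (-(3 / 2) : ℝ) ≤ (1 + |x|) ^ (-(3 / 2) : ℝ) :=
      Real.rpow_le_rpow_of_nonpos (by positivity) (by linarith) (by norm_num)
    refine le_trans ?_ (mul_le_mul_of_nonneg_left h3 hε.le)
    rw [← Real.dist_eq]
    refine hd' ?_
    rw [Real.dist_eq, add_sub_cancel_left]
    exact hz.trans (min_le_left _ _)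
  · have h3 : |x| ≤ |x + z| + |z| := by simpa using abs_sub (x + z) z
    have h4 := hz.trans (min_le_right _ _)
    push Not at hx
    rw [hR x (by linarith), hR (x + z) (by linarith), sub_self, abs_zero]
    exact mul_nonneg hε.le (taub_w_pos _ _).le

theorem taubB_err {φ : ℝ → ℝ} (h1 : Continuous φ) (h2 : HasCompactSupport φ) (A : ℝ) {ε : ℝ}
    (hε : 0 < ε) : ∃ h : ℝ, 0 < h ∧ ∀ (T : Type) (u : T → ℝ) (c : T → ℂ),
      Summable (fun t => ‖c t‖) → (∀ y : ℝ, ∑' t : {t // y ≤ u t ∧ u t ≤ y + 1}, ‖c t‖ ≤ A) →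
      ‖∑' t, c t * (∫ s, (φ s : ℂ) * taubB (h ^ 2) 0 0 (s - u t)) - ∑' t, c t * (φ (u t) : ℂ)‖ ≤
        ε := by
  obtain ⟨C₀, -, hC₀⟩ := taub_sum_bound (p := 3 / 2) (by norm_num)
  obtain ⟨M, hM0, hM⟩ := taubB_dom h1 h2
  have hM' : ∀ x, ‖(φ x : ℂ)‖ ≤ M := fun x => by
    rw [Complex.norm_real]
    exact (hM x).trans (mul_le_of_le_one_right hM0 (taub_w_le_one (by norm_num) _))
  have ok := taubOk_pos one_pos 0
  have iK := taubB_int ok 0
  set B : ℝ := |C₀ * A| with hB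
  set N : ℝ := ∫ y, ‖taubB 1 0 0 y‖ with hN
  have hN0 : 0 ≤ N := integral_nonneg fun _ => norm_nonneg _
  have hB0 : 0 ≤ B := abs_nonneg _
  set η : ℝ := ε / 2 / (N * B + 1) with hη
  have hη0 : 0 < η := by positivity
  obtain ⟨d, hd, hmod⟩ := taubB_mod h1 h2 hη0
  have m0 : ∀ z : ℝ, 0 ≤ min 1 (|z| / d) := fun z => le_min zero_le_one (by positivity)
  have iF : ∀ h : ℝ, Integrable fun y => ‖taubB 1 0 0 y‖ * min 1 (|h * y| / d) := fun h =>
    iK.norm.mul_bdd (c := 1) (Continuous.aestronglyMeasurable (by fun_prop))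
      (Eventually.of_forall fun y => by
        rw [Real.norm_of_nonneg (m0 _)]
        exact min_le_left _ _)
  have cF : Continuous fun h : ℝ => ∫ y, ‖taubB 1 0 0 y‖ * min 1 (|h * y| / d) := by
    refine continuous_of_dominated (bound := fun y => ‖taubB 1 0 0 y‖)
      (fun h => (iF h).aestronglyMeasurable) (fun h => Eventually.of_forall fun y => ?_) iK.norm
      (Eventually.of_forall fun y => by fun_prop)
    rw [Real.norm_of_nonneg (mul_nonneg (norm_nonneg _) (m0 _))]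
    exact mul_le_of_le_one_right (norm_nonneg _) (min_le_left _ _)
  have tF : Tendsto (fun h : ℝ => 2 * M * B * ∫ y, ‖taubB 1 0 0 y‖ * min 1 (|h * y| / d))
      (𝓝[>] 0) (𝓝 0) := by
    have := ((cF.tendsto 0).mono_left (nhdsWithin_le_nhds (s := Set.Ioi 0))).const_mul (2 * M * B)
    simpa using this
  obtain ⟨h, hh1, hh⟩ := ((tF.eventually_lt_const (half_pos hε)).and self_mem_nhdsWithin).exists
  have hh0 : 0 < h := hh
  refine ⟨h, hh0, fun T u c hc hA => ?_⟩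
  have hS : ∀ s : ℝ, ∑' t, ‖c t‖ * (1 + |s - u t|) ^ (-(3 / 2) : ℝ) ≤ B := fun s =>
    (hC₀ T u c A hc hA s).trans (le_abs_self _)
  have cφ : ∀ x : ℝ, Continuous fun y : ℝ => (φ (x + h * y) : ℂ) := fun x => by fun_prop
  have iT : ∀ t, Integrable fun y => taubB 1 0 0 y * (φ (u t + h * y) : ℂ) := fun t =>
    iK.mul_bdd (c := M) (cφ _).aestronglyMeasurable (Eventually.of_forall fun y => hM' _)
  have bT : ∀ t, ∫ y, ‖taubB 1 0 0 y * (φ (u t + h * y) : ℂ)‖ ≤ ∫ y, ‖taubB 1 0 0 y‖ * M := by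
    intro t
    refine integral_mono (iT t).norm (iK.norm.mul_const M) fun y => ?_
    simp only [norm_mul]
    exact mul_le_mul_of_nonneg_left (hM' _) (norm_nonneg _)
  have bz : ∀ z t, ‖(φ (u t + z) : ℂ)‖ ≤ M * (1 + |-z - u t|) ^ (-(3 / 2) : ℝ) := by
    intro z t
    rw [Complex.norm_real, show -z - u t = -(u t + z) by ring, abs_neg]
    exact hM _
  have sz : ∀ z, Summable fun t => c t * (φ (u t + z) : ℂ) := fun z =>
    taub_summable (p := 3 / 2) (by norm_num) hc (bz z)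
  have nz : ∀ z, ‖∑' t, c t * (φ (u t + z) : ℂ)‖ ≤ M * B := fun z =>
    taub_norm_le (p := 3 / 2) (by norm_num) hc hM0 (bz z) (hS _)
  have dz : ∀ z, ‖∑' t, c t * (φ (u t + z) : ℂ) - ∑' t, c t * (φ (u t) : ℂ)‖ ≤
      η * B + 2 * M * B * min 1 (|z| / d) := by
    intro z
    by_cases hz : |z| ≤ d
    · have s0 := sz 0
      simp only [add_zero] at s0
      rw [← (sz z).tsum_sub s0]
      simp_rw [← mul_sub]
      have := taub_norm_le (p := 3 / 2) (by norm_num) hc hη0.le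
        (g := fun t => (φ (u t + z) : ℂ) - φ (u t)) (v := fun t => 0 - u t) (fun t => ?_) (hS 0)
      · have h3 : 0 ≤ 2 * M * B * min 1 (|z| / d) := mul_nonneg (by positivity) (m0 z)
        linarith
      · rw [← Complex.ofReal_sub, Complex.norm_real, zero_sub, abs_neg]
        exact hmod z hz _
    · have n0 := nz 0
      simp only [add_zero] at n0
      rw [min_eq_left ((one_le_div hd).mpr (le_of_not_ge hz))]
      have := (norm_sub_le _ _).trans (add_le_add (nz z) n0)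
      nlinarith [mul_nonneg hη0.le hB0]
  simp_rw [taubB_smooth hh0]
  rw [taub_swap hc iT bT]
  have e1 : ∀ y, ∑' t, c t * (taubB 1 0 0 y * (φ (u t + h * y) : ℂ)) =
      taubB 1 0 0 y * ∑' t, c t * (φ (u t + h * y) : ℂ) := by
    intro y
    rw [← tsum_mul_left]
    congr 1
    ext t
    ring
  simp_rw [e1]
  have cS : Continuous fun y => ∑' t, c t * (φ (u t + h * y) : ℂ) := by
    refine continuous_tsum (fun t => continuous_const.mul (cφ _)) (hc.mul_right M) fun t y => ?_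
    rw [norm_mul]
    exact mul_le_mul_of_nonneg_left (hM' _) (norm_nonneg _)
  have iS : Integrable fun y => taubB 1 0 0 y * ∑' t, c t * (φ (u t + h * y) : ℂ) :=
    iK.mul_bdd cS.aestronglyMeasurable (Eventually.of_forall fun y => nz _)
  have e2 : ∑' t, c t * (φ (u t) : ℂ) = ∫ y, taubB 1 0 0 y * ∑' t, c t * (φ (u t) : ℂ) := by
    rw [integral_mul_const, taubB_integral ok, one_mul]
  rw [e2, ← integral_sub iS (iK.mul_const _)]
  refine (norm_integral_le_of_norm_le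
    ((iK.norm.mul_const (η * B)).add ((iF h).const_mul (2 * M * B)))
    (Eventually.of_forall fun y => ?_)).trans ?_
  · rw [← mul_sub, norm_mul]
    refine (mul_le_mul_of_nonneg_left (dz _) (norm_nonneg _)).trans (le_of_eq ?_)
    simp only [Pi.add_apply]
    ring
  · simp only [Pi.add_apply]
    rw [integral_add (iK.norm.mul_const _) ((iF h).const_mul _), integral_mul_const,
      integral_const_mul]
    have h3 : η * (N * B + 1) = ε / 2 := div_mul_cancel₀ _ (by positivity)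
    nlinarith

theorem tauberian {γ₁ γ₂ : ℝ} (hγ : 0 < γ₁) {ι T : Type} {l : Filter ι} [l.IsCountablyGenerated]
    (u : ι → T → ℝ) (c : ι → T → ℂ) (hc : ∀ i, Summable fun t => ‖c i t‖) {A : ℝ}
    (hA : ∀ᶠ i in l, ∀ y : ℝ, ∑' t : {t // y ≤ u i t ∧ u i t ≤ y + 1}, ‖c i t‖ ≤ A) {L : ℂ}
    (h : ∀ s : ℝ, Tendsto (fun i => ∑' t, c i t * aS γ₁ γ₂ (s - u i t)) l (𝓝 L))
    (φ : ℝ → ℝ) (h1 : Continuous φ) (h2 : HasCompactSupport φ) :
    Tendsto (fun i => ∑' t, c i t * (φ (u i t) : ℂ)) l (𝓝 (L * ((∫ x, φ x : ℝ) : ℂ))) := by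
  have ok := taubOk_zero hγ
  have gauss : ∀ δ : ℝ, 0 < δ → ∀ y : ℝ,
      Tendsto (fun i => ∑' t, c i t * taubB δ 0 0 (y - u i t)) l (𝓝 L) := by
    intro δ hδ y
    obtain ⟨C, hC0, hC⟩ := taubB_bound ok γ₂
    rw [← aS_eq_taubB] at hC
    have := taub_mix u c hc hA (by rw [aS_eq_taubB]; exact taubB_cont ok γ₂) hC0 hC h
      ((taubB_int (taubOk_pos hδ (-γ₁)) (-γ₂)).comp_sub_left y)
    simp_rw [taubB_conv hγ hδ] at this
    rwa [integral_sub_left_eq_self _ volume y, taubB_integral (taubOk_pos hδ _), mul_one] at this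
  rw [Metric.tendsto_nhds]
  intro ε hε
  obtain ⟨r, hr, herr⟩ := taubB_err h1 h2 A (half_pos hε)
  have hδ : 0 < r ^ 2 := by positivity
  obtain ⟨C, hC0, hC⟩ := taubB_bound (taubOk_pos hδ 0) 0
  have := taub_mix u c hc hA (taubB_cont (taubOk_pos hδ 0) 0) hC0 hC (gauss _ hδ)
    (h1.integrable_of_hasCompactSupport h2).ofReal
  rw [integral_ofReal, Metric.tendsto_nhds] at this
  filter_upwards [this _ (half_pos hε), hA] with i hi hi'
  have h3 := herr T (u i) (c i) (hc i) hi'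
  rw [← dist_eq_norm, dist_comm] at h3
  have h4 := dist_triangle (∑' t, c i t * (φ (u i t) : ℂ))
    (∑' t, c i t * ∫ s, (φ s : ℂ) * taubB (r ^ 2) 0 0 (s - u i t)) (L * ((∫ x, φ x : ℝ) : ℂ))
  have h5 : dist (∑' t, c i t * ∫ s, (φ s : ℂ) * taubB (r ^ 2) 0 0 (s - u i t))
    (L * ((∫ x, φ x : ℝ) : ℂ)) < ε / 2 := hi
  linarith

end Pool.Agent.Lib.MP_77dff5_pr
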