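import Pool.Agent.Lib.MP_77dff5_pr.TaubAAux2

/-! A tauberian theorem for the stable density, and averages against Lipschitz profiles. -/

set_option autoImplicit false

namespace Pool.Agent.Lib.MP_77dff5_pr

open MeasureTheory Filter Topology

theorem aS_facts {γ₁ γ₂ : ℝ} (hγ : 0 < γ₁) :
    UniformContinuous (aS γ₁ γ₂) ∧ (∃ C : ℝ, ∀ u, ‖aS γ₁ γ₂ u‖ ≤ C * (1 + |u|) ^ (-(3 / 2) : ℝ)) ∧
      ∫ u, aS γ₁ γ₂ u = 1 := by
  rw [aS_eq_taubB]
  have h := taubOk_zero hγ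
  obtain ⟨C, hC0, hC⟩ := taubB_bound h γ₂
  refine ⟨?_, ⟨C, hC⟩, taubB_integral h γ₂⟩
  refine (taubB_cont h γ₂).uniformContinuous_of_tendsto_cocompact (x := 0) ?_
  refine squeeze_zero_norm hC ?_
  have h1 : Tendsto (fun u : ℝ => 1 + |u|) (cocompact ℝ) atTop :=
    tendsto_atTop_add_const_left _ _ (tendsto_norm_cocompact_atTop (E := ℝ))
  have h2 := ((tendsto_rpow_neg_atTop (y := 3 / 2) (by norm_num)).comp h1).const_mul C
  simpa using h2

theorem taubA_approx {η B : ℝ} (hη : 0 < η) (hB : 0 ≤ B) :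
    ∃ (n : ℕ) (x : Fin n → ℝ) (τ : Fin n → ℝ → ℝ) (ε : ℝ), 0 < ε ∧ (∀ j, Continuous (τ j)) ∧
      (∀ j, HasCompactSupport (τ j)) ∧ ∀ G : ℝ → ℝ,
        (∀ y, |G y| ≤ B * (1 + |y|) ^ (-(3 / 2) : ℝ)) → (∀ y z, |G y - G z| ≤ B * |y - z| + ε) →
        ∀ y, |G y - ∑ j, G (x j) * τ j y| ≤ η * (1 + |y|) ^ (-(5 / 4) : ℝ) := by
  obtain ⟨R, hR0, hR⟩ : ∃ R : ℝ, 0 ≤ R ∧ ∀ y : ℝ, R ≤ |y| →
      B * (1 + |y|) ^ (-(3 / 2) : ℝ) ≤ η / 2 * (1 + |y|) ^ (-(5 / 4) : ℝ) := by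
    have h1 : Tendsto (fun r : ℝ => B * (1 + r) ^ (-(1 / 4) : ℝ)) atTop (𝓝 0) := by
      have := ((tendsto_rpow_neg_atTop (y := 1 / 4) (by norm_num)).comp
        (tendsto_atTop_add_const_left _ 1 tendsto_id)).const_mul B
      simpa using this
    obtain ⟨R, hR⟩ := eventually_atTop.mp (h1.eventually_le_const (half_pos hη))
    refine ⟨max R 0, le_max_right _ _, fun y hy => ?_⟩
    have h2 := hR |y| ((le_max_left _ _).trans hy)
    rw [show (-(3 / 2) : ℝ) = -(1 / 4) + -(5 / 4) by norm_num, Real.rpow_add (by positivity),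
      ← mul_assoc]
    exact mul_le_mul_of_nonneg_right h2 (taub_w_pos _ _).le
  set m : ℝ := (2 + R) ^ (-(5 / 4) : ℝ) with hm
  have hm0 : 0 < m := Real.rpow_pos_of_pos (by positivity) _
  set h : ℝ := η * m / 4 / (B + 1) with hh
  have hh0 : 0 < h := by positivity
  have hBh : B * h ≤ η * m / 4 := by
    rw [hh, mul_div_assoc', div_le_iff₀ (by positivity)]
    nlinarith [mul_pos hη hm0]
  obtain ⟨t, -, htf, ht⟩ :=
    finite_cover_balls_of_compact (isCompact_Icc (a := -(R + 1)) (b := R + 1)) hh0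
  obtain ⟨n, x, -, rfl⟩ := htf.fin_param
  obtain ⟨f, hf1, hf2, hf3, hf4⟩ := exists_continuous_sum_one_of_isOpen_isCompact
    (s := fun j : Fin n => Metric.ball (x j) h) (fun j => Metric.isOpen_ball)
    (isCompact_Icc (a := -(R + 1)) (b := R + 1)) (by simpa using ht)
  let χ : ℝ → ℝ := fun y => max 0 (min 1 (R + 1 - |y|))
  have χ0 : ∀ y, 0 ≤ χ y := fun y => le_max_left _ _
  have χ1 : ∀ y, χ y ≤ 1 := fun y => max_le zero_le_one (min_le_left _ _)
  have χa : ∀ y, |y| ≤ R → χ y = 1 := fun y hy => by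
    simp only [χ]
    rw [min_eq_left (by linarith), max_eq_right zero_le_one]
  have χb : ∀ y, R + 1 ≤ |y| → χ y = 0 := fun y hy => by
    simp only [χ]
    exact max_eq_left ((min_le_right _ _).trans (by linarith))
  have hsum : ∀ y, ∑ j, χ y * f j y = χ y := by
    intro y
    rw [← Finset.mul_sum]
    by_cases hy : |y| ≤ R + 1
    · have := hf2 (show y ∈ Set.Icc (-(R + 1)) (R + 1) from abs_le.mp hy)
      simp only [ContinuousMap.coe_sum, Finset.sum_apply, Pi.one_apply] at this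
      rw [this, mul_one]
    · rw [χb y (le_of_not_ge hy), zero_mul]
  refine ⟨n, x, fun j y => χ y * f j y, η * m / 4, by positivity, fun j => ?_,
    fun j => (hf4 j).mul_left, fun G hG hL y => ?_⟩
  · have : Continuous χ := by fun_prop
    exact this.mul (f j).continuous
  have e : G y - ∑ j, G (x j) * (χ y * f j y) =
      (1 - χ y) * G y + ∑ j, χ y * f j y * (G y - G (x j)) := by
    simp_rw [mul_sub]
    rw [Finset.sum_sub_distrib, ← Finset.sum_mul, hsum]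
    simp_rw [mul_comm (G (x _))]
    ring
  have b1 : |(1 - χ y) * G y| ≤ η / 2 * (1 + |y|) ^ (-(5 / 4) : ℝ) := by
    by_cases hy : |y| ≤ R
    · rw [χa y hy]
      simp only [sub_self, zero_mul, abs_zero]
      exact mul_nonneg (by positivity) (taub_w_pos _ _).le
    · rw [abs_mul, abs_of_nonneg (by linarith [χ1 y])]
      refine le_trans ?_ ((hG y).trans (hR y (le_of_not_ge hy)))
      exact mul_le_of_le_one_left (abs_nonneg _) (by linarith [χ0 y])
  have b2 : |∑ j, χ y * f j y * (G y - G (x j))| ≤ χ y * (η * m / 2) := by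
    refine (Finset.abs_sum_le_sum_abs _ _).trans ?_
    conv_rhs => rw [← hsum y, Finset.sum_mul]
    refine Finset.sum_le_sum fun j _ => ?_
    have hnn : 0 ≤ χ y * f j y := mul_nonneg (χ0 y) (hf3 j y).1
    rw [abs_mul, abs_of_nonneg hnn]
    by_cases hz : f j y = 0
    · simp [hz]
    refine mul_le_mul_of_nonneg_left ((hL _ _).trans ?_) hnn
    have h1 := hf1 j (subset_tsupport _ hz)
    rw [Metric.mem_ball, Real.dist_eq] at h1
    have := mul_le_mul_of_nonneg_left h1.le hB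
    linarith
  have b3 : χ y * (η * m / 2) ≤ η / 2 * (1 + |y|) ^ (-(5 / 4) : ℝ) := by
    by_cases hy : |y| ≤ R + 1
    · have h1 : m ≤ (1 + |y|) ^ (-(5 / 4) : ℝ) :=
        Real.rpow_le_rpow_of_nonpos (by positivity) (by linarith) (by norm_num)
      have h2 : χ y * (η * m / 2) ≤ η * m / 2 := mul_le_of_le_one_left (by positivity) (χ1 y)
      nlinarith
    · rw [χb y (le_of_not_ge hy), zero_mul]
      exact mul_nonneg (by positivity) (taub_w_pos _ _).le
  rw [e]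
  linarith [abs_add_le ((1 - χ y) * G y) (∑ j, χ y * f j y * (G y - G (x j)))]

theorem profile {ι T : Type} {l : Filter ι} (u : ι → T → ℝ) (c : ι → T → ℂ)
    (hc : ∀ i, Summable fun t => ‖c i t‖) {A : ℝ}
    (hA : ∀ᶠ i in l, ∀ y : ℝ, ∑' t : {t // y ≤ u i t ∧ u i t ≤ y + 1}, ‖c i t‖ ≤ A) {L : ℂ}
    (h : ∀ φ : ℝ → ℝ, Continuous φ → HasCompactSupport φ →
      Tendsto (fun i => ∑' t, c i t * (φ (u i t) : ℂ)) l (𝓝 (L * ((∫ x, φ x : ℝ) : ℂ))))
    (G : ι → ℝ → ℝ) {C : ℝ} (hG : ∀ᶠ i in l, ∀ x, |G i x| ≤ C * (1 + |x|) ^ (-(3 / 2) : ℝ))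
    (hL : ∀ ε : ℝ, 0 < ε → ∀ᶠ i in l, ∀ x y, |G i x - G i y| ≤ C * |x - y| + ε)
    (hI : ∀ᶠ i in l, Integrable (G i) ∧ ∫ x, G i x = 1) :
    Tendsto (fun i => ∑' t, c i t * (G i (u i t) : ℂ)) l (𝓝 L) := by
  obtain ⟨C₀, -, hC₀⟩ := taub_sum_bound (p := 5 / 4) (by norm_num)
  have hw := taub_weight_int (p := 5 / 4) (by norm_num)
  set I₀ : ℝ := ∫ x : ℝ, (1 + |x|) ^ (-(5 / 4) : ℝ) with hI₀
  have hI0 : 0 ≤ I₀ := integral_nonneg fun x => (taub_w_pos _ _).le
  rw [Metric.tendsto_nhds]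
  intro ε hε
  set K : ℝ := |C₀ * A| + ‖L‖ * I₀ + 1 with hK
  have hK0 : 0 < K := by positivity
  have hη : 0 < ε / 2 / K := by positivity
  obtain ⟨n, x, τ, ε', hε', hτ1, hτ2, hap⟩ := taubA_approx hη (abs_nonneg C)
  let D : ι → Fin n → ℂ := fun i j => ∑' t, c i t * (τ j (u i t) : ℂ) - L * ((∫ y, τ j y : ℝ) : ℂ)
  have hD : Tendsto (fun i => |C| * ∑ j, ‖D i j‖) l (𝓝 0) := by
    have h1 : ∀ j, Tendsto (fun i => ‖D i j‖) l (𝓝 0) := fun j =>
      tendsto_iff_norm_sub_tendsto_zero.mp (h (τ j) (hτ1 j) (hτ2 j))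
    have := (tendsto_finsetSum Finset.univ fun j _ => h1 j).const_mul |C|
    simpa using this
  filter_upwards [hA, hG, hL ε' hε', hI, hD.eventually_lt_const (half_pos hε)] with i h1 h2 h3 h4 h5
  have h2' : ∀ y, |G i y| ≤ |C| * (1 + |y|) ^ (-(3 / 2) : ℝ) := fun y =>
    (h2 y).trans (mul_le_mul_of_nonneg_right (le_abs_self C) (taub_w_pos _ _).le)
  have h3' : ∀ y z, |G i y - G i z| ≤ |C| * |y - z| + ε' := fun y z =>
    (h3 y z).trans (by linarith [mul_le_mul_of_nonneg_right (le_abs_self C) (abs_nonneg (y - z))])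
  have h6 := hap (G i) h2' h3'
  let P : ℝ → ℝ := fun y => ∑ j, G i (x j) * τ j y
  have iτ : ∀ j, Integrable (τ j) := fun j => (hτ1 j).integrable_of_hasCompactSupport (hτ2 j)
  have iP : Integrable P := integrable_finsetSum _ fun j _ => (iτ j).const_mul _
  have eP : ∫ y, P y = ∑ j, G i (x j) * ∫ y, τ j y := by
    simp only [P]
    rw [integral_finsetSum _ fun j _ => (iτ j).const_mul _]
    simp_rw [integral_const_mul]
  have hb : ∀ t, ‖((G i (u i t) - P (u i t) : ℝ) : ℂ)‖ ≤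
      ε / 2 / K * (1 + |0 - u i t|) ^ (-(5 / 4) : ℝ) := by
    intro t
    rw [Complex.norm_real, Real.norm_eq_abs, zero_sub, abs_neg]
    exact h6 _
  have s1 := taub_summable (p := 5 / 4) (by norm_num) (hc i) hb
  have n1 := taub_norm_le (p := 5 / 4) (by norm_num) (hc i) hη.le hb (hC₀ T _ _ A (hc i) h1 0)
  have s2 : ∀ j, Summable fun t => c i t * (τ j (u i t) : ℂ) := by
    intro j
    obtain ⟨M, hM⟩ := (hτ1 j).bounded_above_of_compact_support (hτ2 j)
    refine ((hc i).mul_right M).of_norm_bounded fun t => ?_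
    rw [norm_mul, Complex.norm_real]
    exact mul_le_mul_of_nonneg_left (hM _) (norm_nonneg _)
  have e1 : ∑' t, c i t * (G i (u i t) : ℂ) =
      ∑' t, c i t * ((G i (u i t) - P (u i t) : ℝ) : ℂ) +
        ∑ j, (G i (x j) : ℂ) * ∑' t, c i t * (τ j (u i t) : ℂ) := by
    simp_rw [← tsum_mul_left]
    rw [← Summable.tsum_finsetSum fun j _ => (s2 j).mul_left _,
      ← s1.tsum_add (summable_sum fun j _ => (s2 j).mul_left _)]
    congr 1
    ext t
    simp only [P]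
    push_cast
    rw [mul_sub, Finset.mul_sum]
    simp_rw [mul_left_comm (c i t)]
    ring
  have n2 : ‖L * ((∫ y, (G i y - P y) : ℝ) : ℂ)‖ ≤ ‖L‖ * (ε / 2 / K * I₀) := by
    rw [norm_mul, Complex.norm_real]
    refine mul_le_mul_of_nonneg_left ?_ (norm_nonneg _)
    rw [hI₀, ← integral_const_mul]
    exact norm_integral_le_of_norm_le (hw.const_mul _) (Eventually.of_forall h6)
  have n3 : ‖∑ j, (G i (x j) : ℂ) * D i j‖ ≤ |C| * ∑ j, ‖D i j‖ := by
    rw [Finset.mul_sum]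
    refine norm_sum_le_of_le _ fun j _ => ?_
    rw [norm_mul, Complex.norm_real]
    refine mul_le_mul_of_nonneg_right ((h2' _).trans ?_) (norm_nonneg _)
    exact mul_le_of_le_one_right (abs_nonneg _) (taub_w_le_one (by norm_num) _)
  have e2 : ∑' t, c i t * (G i (u i t) : ℂ) - L =
      ∑' t, c i t * ((G i (u i t) - P (u i t) : ℝ) : ℂ) + ∑ j, (G i (x j) : ℂ) * D i j -
        L * ((∫ y, (G i y - P y) : ℝ) : ℂ) := by
    rw [e1, integral_sub h4.1 iP, h4.2, eP]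
    simp only [D]
    push_cast
    simp_rw [mul_sub]
    rw [Finset.sum_sub_distrib, Finset.mul_sum]
    simp_rw [mul_left_comm L]
    ring
  rw [dist_eq_norm, e2]
  have n4 := (norm_sub_le _ _).trans (add_le_add ((norm_add_le _ _).trans (add_le_add n1 n3)) n2)
  refine n4.trans_lt ?_
  have n5 : ε / 2 / K * (C₀ * A) + ‖L‖ * (ε / 2 / K * I₀) ≤ ε / 2 := by
    have : ε / 2 / K * K = ε / 2 := div_mul_cancel₀ _ hK0.ne'
    have h7 : C₀ * A + ‖L‖ * I₀ ≤ K := by linarith [le_abs_self (C₀ * A)]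
    nlinarith [mul_le_mul_of_nonneg_left h7 hη.le]
  linarith

end Pool.Agent.Lib.MP_77dff5_pr
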