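import Pool.Agent.Lib.MP_77dff5_pr.SumsA

/-! Covering estimates for weighted points. -/

set_option autoImplicit false

namespace Pool.Agent.Lib.MP_77dff5_pr

open MeasureTheory Filter Topology
open scoped ENNReal NNReal

variable {T : Type}

theorem winF_cover {κ : Type} (S : κ → T → Prop) (b : κ → ℝ≥0∞) (c g : T → ℝ≥0∞)
    (h : ∀ t, g t ≠ 0 → ∃ j, S j t ∧ g t ≤ b j) :
    ∑' t, c t * g t ≤ ∑' j, (∑' t : {t // S j t}, c t) * b j := by
  have e : ∀ j, (∑' t : {t // S j t}, c t) * b j =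
      ∑' t, Set.indicator {t | S j t} c t * b j := fun j => by
    rw [ENNReal.tsum_mul_right]
    congr 1
    exact tsum_subtype {t | S j t} c
  simp only [e]
  rw [ENNReal.tsum_comm]
  refine ENNReal.tsum_le_tsum fun t => ?_
  by_cases h0 : g t = 0
  · simp [h0]
  obtain ⟨j, h1, h2⟩ := h t h0
  refine le_trans ?_ (ENNReal.le_tsum j)
  rw [Set.indicator_of_mem (by exact h1)]
  gcongr

/-- sums against an integrable profile -/
theorem winF_profile : ∃ K : ℝ, 0 ≤ K ∧ ∀ (T : Type) (P : T → Prop) [DecidablePred P]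
    (u : T → ℝ) (c : T → ℝ≥0∞) (A : ℝ), 0 ≤ A →
    (∀ a : ℝ, ∑' t : {t // P t ∧ a ≤ u t ∧ u t ≤ a + 1}, c t ≤ ENNReal.ofReal A) →
    ∑' t, c t * (if P t then ENNReal.ofReal ((1 + |u t|) ^ (-(5 / 4) : ℝ)) else 0) ≤
      ENNReal.ofReal (A * K) := by
  have hs : Summable fun j : ℤ => 1 / |(j : ℝ) + 1 / 2| ^ (5 / 4 : ℝ) :=
    (Real.summable_one_div_int_add_rpow _ _).2 (by norm_num)
  refine ⟨∑' j : ℤ, 1 / |(j : ℝ) + 1 / 2| ^ (5 / 4 : ℝ), tsum_nonneg fun j => by positivity,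
    fun T P _ u c A hA h => ?_⟩
  refine (winF_cover (fun (j : ℤ) t => P t ∧ (j : ℝ) ≤ u t ∧ u t ≤ j + 1)
    (fun j => ENNReal.ofReal (1 / |(j : ℝ) + 1 / 2| ^ (5 / 4 : ℝ))) c _ fun t ht => ?_).trans ?_
  · by_cases hP : P t
    · refine ⟨⌊u t⌋, ⟨hP, Int.floor_le _, (Int.lt_floor_add_one _).le⟩, ?_⟩
      rw [if_pos hP]
      refine ENNReal.ofReal_le_ofReal ?_
      have a1 := Int.floor_le (u t)
      have a2 := Int.lt_floor_add_one (u t)
      have p : 0 < |(⌊u t⌋ : ℝ) + 1 / 2| := by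
        rw [abs_pos]
        intro e
        have : (2 * ⌊u t⌋ + 1 : ℤ) = 0 := by
          have : (2 * (⌊u t⌋ : ℝ) + 1) = 0 := by linarith
          exact_mod_cast this
        omega
      have q : |(⌊u t⌋ : ℝ) + 1 / 2| ≤ 1 + |u t| := by
        rw [abs_le]
        constructor <;> linarith [le_abs_self (u t), neg_abs_le (u t)]
      rw [one_div, ← Real.rpow_neg p.le]
      exact Real.rpow_le_rpow_of_nonpos p q (by norm_num)
    · exact absurd (if_neg hP) ht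
  · rw [ENNReal.ofReal_mul hA, ENNReal.ofReal_tsum_of_nonneg (fun j => by positivity) hs,
      ← ENNReal.tsum_mul_left]
    refine ENNReal.tsum_le_tsum fun j => ?_
    gcongr
    exact h j

theorem winF_small (ρ δ : ℝ) (hδ : 0 < δ) :
    ∀ᶠ y : ℝ in atTop, ρ * y ^ (2 / 3 : ℝ) ≤ δ * y := by
  have t : Tendsto (fun y : ℝ => ρ * y ^ (-(1 / 3) : ℝ)) atTop (𝓝 (ρ * 0)) :=
    (tendsto_rpow_neg_atTop (by norm_num)).const_mul ρ
  rw [mul_zero] at t
  filter_upwards [t.eventually (ge_mem_nhds hδ), eventually_gt_atTop 0] with y h1 h2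
  have e : y ^ (2 / 3 : ℝ) = y ^ (-(1 / 3) : ℝ) * y := by
    rw [← Real.rpow_add_one h2.ne']; norm_num
  rw [e, ← mul_assoc]
  gcongr

/-- all windows of length `ρ y ^ (2/3)` above `y / 4` -/
theorem winF_window {pos : T → ℝ} {w : T → ℝ≥0∞} (hw : WinB pos w (-(11 / 6))) {ρ : ℝ}
    (hρ : 0 < ρ) : ∃ A : ℝ, 0 ≤ A ∧ ∀ᶠ y : ℝ in atTop, ∀ a : ℝ,
      ∑' t : {t // y / 4 ≤ pos t ∧ a ≤ pos t ∧ pos t ≤ a + ρ * y ^ (2 / 3 : ℝ)}, w t ≤
        ENNReal.ofReal (A * y ^ (-(11 / 6) : ℝ)) := by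
  obtain ⟨A0, hA⟩ := hw.near
  refine ⟨max A0 0 * (1 / 4) ^ (-(11 / 6) : ℝ) * (1 + ρ / (1 / 4) ^ (2 / 3 : ℝ)),
    by positivity, ?_⟩
  filter_upwards [winF_small ρ (1 / 4) (by norm_num), eventually_ge_atTop 8] with y h1 h2 a
  set a' := max a (y / 4) with ha'
  have b1 : y / 4 ≤ a' := le_max_right _ _
  have b2 : a ≤ a' := le_max_left _ _
  have y0 : 0 < y := by linarith
  have p0 : 0 < ρ * y ^ (2 / 3 : ℝ) := by positivity
  have k := hA a' (by linarith) a' (a' + ρ * y ^ (2 / 3 : ℝ)) (by linarith) (by linarith)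
    (by linarith)
  refine le_trans (ENNReal.tsum_mono_subtype w
    (s := {t | y / 4 ≤ pos t ∧ a ≤ pos t ∧ pos t ≤ a + ρ * y ^ (2 / 3 : ℝ)})
    (t := {t | a' ≤ pos t ∧ pos t ≤ a' + ρ * y ^ (2 / 3 : ℝ)})
    fun t ht => ⟨max_le ht.2.1 ht.1, by linarith [ht.2.2]⟩) (k.trans ?_)
  refine ENNReal.ofReal_le_ofReal ?_
  have c1 : a' ^ (-(11 / 6) : ℝ) ≤ (1 / 4) ^ (-(11 / 6) : ℝ) * y ^ (-(11 / 6) : ℝ) := by
    rw [← Real.mul_rpow (by norm_num) y0.le]
    exact Real.rpow_le_rpow_of_nonpos (by positivity) (by linarith) (by norm_num)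
  have c2 : (1 / 4) ^ (2 / 3 : ℝ) * y ^ (2 / 3 : ℝ) ≤ a' ^ (2 / 3 : ℝ) := by
    rw [← Real.mul_rpow (by norm_num) y0.le]
    exact Real.rpow_le_rpow (by positivity) (by linarith) (by norm_num)
  have c3 : (a' + ρ * y ^ (2 / 3 : ℝ) - a') / a' ^ (2 / 3 : ℝ) ≤ ρ / (1 / 4) ^ (2 / 3 : ℝ) := by
    rw [add_sub_cancel_left]
    calc ρ * y ^ (2 / 3 : ℝ) / a' ^ (2 / 3 : ℝ)
        ≤ ρ * y ^ (2 / 3 : ℝ) / ((1 / 4) ^ (2 / 3 : ℝ) * y ^ (2 / 3 : ℝ)) := by gcongr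
      _ = ρ / (1 / 4) ^ (2 / 3 : ℝ) := by field_simp
  have a0 : 0 < a' := by linarith
  have c4 : 0 ≤ (a' + ρ * y ^ (2 / 3 : ℝ) - a') / a' ^ (2 / 3 : ℝ) := by
    rw [add_sub_cancel_left]; positivity
  calc A0 * a' ^ (-(11 / 6) : ℝ) * (1 + (a' + ρ * y ^ (2 / 3 : ℝ) - a') / a' ^ (2 / 3 : ℝ))
      ≤ max A0 0 * ((1 / 4) ^ (-(11 / 6) : ℝ) * y ^ (-(11 / 6) : ℝ)) *
        (1 + ρ / (1 / 4) ^ (2 / 3 : ℝ)) := by
        refine le_trans (b := max A0 0 * a' ^ (-(11 / 6) : ℝ) *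
          (1 + (a' + ρ * y ^ (2 / 3 : ℝ) - a') / a' ^ (2 / 3 : ℝ))) ?_ ?_
        · gcongr; exact le_max_left _ _
        · gcongr
    _ = _ := by ring

/-- the law of large numbers on long windows -/
theorem winF_lln {pos X : T → ℝ} {w : T → ℝ≥0∞} {e : ℝ} (h : WinLLN pos w X e) (R : ℝ)
    {ε δ : ℝ} (hε : 0 < ε) (hδ : 0 < δ) : ∀ᶠ y : ℝ in atTop,
      ∑' t : {t // |pos t - y| ≤ R * y ^ (2 / 3 : ℝ) ∧ ε * y < |X t - e * pos t|}, w t ≤
        ENNReal.ofReal (δ * y ^ (-(11 / 6) : ℝ)) := by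
  classical
  set β : ℝ := (1 / 2) ^ (2 / 3 : ℝ) with hβ
  have β0 : 0 < β := by positivity
  set N : ℕ := ⌊2 * R / β⌋₊ + 1 with hN
  have N0 : (0 : ℝ) < N := by positivity
  set δ' : ℝ := δ / (N * (1 / 2) ^ (-(11 / 6) : ℝ)) with hδ'
  obtain ⟨Y, hY⟩ := eventually_atTop.1 (h (ε / 2) δ' (by positivity) (by positivity))
  filter_upwards [winF_small R (1 / 2) (by norm_num), eventually_ge_atTop (2 * Y),
    eventually_gt_atTop 0] with y h1 h2 y0
  set Λ : ℝ := y ^ (2 / 3 : ℝ) with hΛ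
  have Λ0 : 0 < Λ := by positivity
  set p : Fin N → ℝ := fun j => y - R * Λ + (j : ℕ) * (β * Λ) with hp
  have p1 : ∀ j, y / 2 ≤ p j := fun j => by
    have : 0 ≤ ((j : ℕ) : ℝ) * (β * Λ) := by positivity
    simp only [hp]; linarith
  have k := winF_cover (fun (j : Fin N) t => p j ≤ pos t ∧ pos t ≤ p j + p j ^ (2 / 3 : ℝ) ∧
      ε / 2 * p j < |X t - e * pos t|) (fun _ => 1) w
    (fun t => if |pos t - y| ≤ R * Λ ∧ ε * y < |X t - e * pos t| then 1 else 0) (fun t ht => by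
      have ht' : |pos t - y| ≤ R * Λ ∧ ε * y < |X t - e * pos t| := by
        by_contra hc
        exact ht (if_neg hc)
      obtain ⟨a1, a2⟩ := abs_le.1 ht'.1
      set x := (pos t - (y - R * Λ)) / (β * Λ) with hx
      have x0 : 0 ≤ x := div_nonneg (by linarith) (by positivity)
      have x1 : x ≤ 2 * R / β := by
        rw [hx, div_le_div_iff₀ (by positivity) β0]
        nlinarith
      have x2 : pos t = y - R * Λ + x * (β * Λ) := by
        rw [hx]; field_simp; ring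
      have j1 : ⌊x⌋₊ < N := Nat.lt_succ_of_le (Nat.floor_le_floor x1)
      have f1 := Nat.floor_le x0
      have f2 := Nat.lt_floor_add_one x
      have bl : 0 < β * Λ := by positivity
      have q1 : p ⟨_, j1⟩ ≤ pos t := by
        rw [x2]; simp only [hp]; nlinarith
      refine ⟨⟨_, j1⟩, ⟨q1, ?_, ?_⟩, by rw [if_pos ht']⟩
      · have : β * Λ ≤ p ⟨_, j1⟩ ^ (2 / 3 : ℝ) := by
          rw [hβ, hΛ, ← Real.mul_rpow (by norm_num) y0.le]
          exact Real.rpow_le_rpow (by positivity) (by linarith [p1 ⟨_, j1⟩]) (by norm_num)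
        have e2 : pos t ≤ p ⟨_, j1⟩ + β * Λ := by
          rw [x2]; simp only [hp]; nlinarith
        linarith
      · refine lt_of_le_of_lt ?_ ht'.2
        have : p ⟨_, j1⟩ ≤ 2 * y := by linarith
        nlinarith)
  have e1 : ∑' t : {t // |pos t - y| ≤ R * Λ ∧ ε * y < |X t - e * pos t|}, w t =
      ∑' t, w t * (if |pos t - y| ≤ R * Λ ∧ ε * y < |X t - e * pos t| then 1 else 0) := by
    refine (tsum_subtype {t | |pos t - y| ≤ R * Λ ∧ ε * y < |X t - e * pos t|} w).trans ?_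
    refine tsum_congr fun t => ?_
    by_cases hc : |pos t - y| ≤ R * Λ ∧ ε * y < |X t - e * pos t|
    · rw [if_pos hc, mul_one, Set.indicator_of_mem (by exact hc)]
    · rw [if_neg hc, mul_zero, Set.indicator_of_notMem (by exact hc)]
  rw [e1]
  refine k.trans ?_
  rw [tsum_fintype]
  refine (Finset.sum_le_card_nsmul _ _
    (ENNReal.ofReal (δ' * ((1 / 2) ^ (-(11 / 6) : ℝ) * y ^ (-(11 / 6) : ℝ)))) fun j _ => ?_).trans ?_
  · rw [mul_one]
    refine (hY (p j) (by linarith [p1 j])).trans (ENNReal.ofReal_le_ofReal ?_)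
    gcongr
    rw [← Real.mul_rpow (by norm_num) y0.le]
    exact Real.rpow_le_rpow_of_nonpos (by positivity) (by linarith [p1 j]) (by norm_num)
  · rw [Finset.card_univ, Fintype.card_fin, nsmul_eq_mul, ← ENNReal.ofReal_natCast,
      ← ENNReal.ofReal_mul N0.le]
    refine le_of_eq (congrArg _ ?_)
    rw [hδ']
    field_simp

theorem winF_rpow_le {u X D : ℝ} (hX : 0 ≤ X) (hD : 0 < D) (h : 1 + |u| ≤ D * (1 + X)) :
    (1 + X) ^ (-(3 / 2) : ℝ) ≤ D ^ (3 / 2 : ℝ) * (1 + |u|) ^ (-(3 / 2) : ℝ) := by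
  have a : (D * (1 + X)) ^ (-(3 / 2) : ℝ) ≤ (1 + |u|) ^ (-(3 / 2) : ℝ) :=
    Real.rpow_le_rpow_of_nonpos (by positivity) h (by norm_num)
  rw [Real.mul_rpow hD.le (by positivity), Real.rpow_neg hD.le] at a
  have p : 0 < D ^ (3 / 2 : ℝ) := by positivity
  rwa [inv_mul_le_iff₀ p] at a

end Pool.Agent.Lib.MP_77dff5_pr
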