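import Pool.Agent.Lib.MP_77dff5_pr.WinA
import Pool.Agent.Lib.MP_77dff5_pr.Kernel
import Pool.Agent.Lib.MP_77dff5_pr.TaubA
import Pool.Agent.Lib.MP_77dff5_pr.WinFAux1

/-! Comparison of the local kernels with the stable density. -/

set_option autoImplicit false

namespace Pool.Agent.Lib.MP_77dff5_pr

open MeasureTheory ProbabilityTheory Filter Topology
open scoped ENNReal NNReal

/-- the scale -/
noncomputable def winFM (r y : ℝ) : ℝ := (r * y) ^ (2 / 3 : ℝ)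

/-- the size at height `a` in the window at `y` -/
noncomputable def winFn (r a y : ℝ) : ℕ := ⌊y + a * winFM r y⌋₊

theorem winFM_eq {r y : ℝ} (hr : 0 < r) (hy : 0 < y) :
    winFM r y = r ^ (2 / 3 : ℝ) * y ^ (2 / 3 : ℝ) := Real.mul_rpow hr.le hy.le

theorem winF_basic {r : ℝ} (hr : 0 < r) (a : ℝ) {δ : ℝ} (hδ : 0 < δ) :
    ∀ᶠ y : ℝ in atTop, 0 < y ∧ 0 < winFM r y ∧ 1 ≤ δ * winFM r y ∧ winFM r y ≤ δ * y ∧
      |(winFn r a y : ℝ) - (y + a * winFM r y)| ≤ 1 := by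
  have t : Tendsto (fun y : ℝ => δ * winFM r y) atTop atTop :=
    ((tendsto_rpow_atTop (by norm_num)).comp (tendsto_id.const_mul_atTop hr)).const_mul_atTop hδ
  filter_upwards [t.eventually_ge_atTop 1, eventually_gt_atTop 0,
    winF_small (r ^ (2 / 3 : ℝ)) δ hδ, winF_small (|a| * r ^ (2 / 3 : ℝ)) 1 one_pos]
    with y h1 h2 h3 h4
  have e := winFM_eq hr h2
  have M0 : 0 < winFM r y := by rw [e]; positivity
  refine ⟨h2, M0, h1, by rwa [e], ?_⟩
  have p : 0 ≤ y + a * winFM r y := by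
    have : |a| * winFM r y ≤ y := by rw [e, ← mul_assoc]; linarith
    have : -|a| * winFM r y ≤ a * winFM r y := by gcongr; exact neg_abs_le a
    linarith
  have f1 := Nat.floor_le p
  have f2 := Nat.lt_floor_add_one (y + a * winFM r y)
  rw [abs_le, winFn]
  constructor <;> linarith

theorem winF_near {r : ℝ} (hr : 0 < r) (a : ℝ) {δ : ℝ} (hδ : 0 < δ) :
    ∀ᶠ y : ℝ in atTop, |(winFn r a y : ℝ) - y| ≤ (|a| + 1) * winFM r y ∧
      |(winFn r a y : ℝ) - y| ≤ δ * y := by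
  filter_upwards [winF_basic hr a one_pos, winF_basic hr a (δ := δ / (|a| + 1)) (by positivity)]
    with y h1 h2
  obtain ⟨y0, M0, b1, -, b2⟩ := h1
  have k : |(winFn r a y : ℝ) - y| ≤ (|a| + 1) * winFM r y := by
    have e : (winFn r a y : ℝ) - y = ((winFn r a y : ℝ) - (y + a * winFM r y)) + a * winFM r y := by
      ring
    rw [e]
    refine (abs_add_le _ _).trans ?_
    rw [abs_mul, abs_of_pos M0]
    linarith
  refine ⟨k, k.trans ?_⟩
  calc (|a| + 1) * winFM r y ≤ (|a| + 1) * (δ / (|a| + 1) * y) := by gcongr; exact h2.2.2.2.1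
    _ = δ * y := by field_simp

theorem winFn_div {r : ℝ} (hr : 0 < r) (a : ℝ) :
    Tendsto (fun y : ℝ => (winFn r a y : ℝ) / y) atTop (𝓝 1) := by
  refine Metric.tendsto_nhds.2 fun ε hε => ?_
  filter_upwards [winF_near hr a (half_pos hε), eventually_gt_atTop 0] with y h y0
  have e : (winFn r a y : ℝ) / y - 1 = ((winFn r a y : ℝ) - y) / y := by field_simp
  rw [Real.dist_eq, e, abs_div, abs_of_pos y0, div_lt_iff₀ y0]
  nlinarith [h.2]

theorem winFn_top {r : ℝ} (hr : 0 < r) (a : ℝ) : Tendsto (winFn r a) atTop atTop := by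
  rw [← tendsto_natCast_atTop_iff (R := ℝ)]
  refine tendsto_atTop_mono' _ ?_ (tendsto_id.atTop_div_const (two_pos (α := ℝ)))
  filter_upwards [winF_near hr a (half_pos one_pos)] with y h
  have := (abs_le.1 h.2).1
  simp only [id]
  linarith

variable {Ω J : Type} [MeasurableSpace Ω]

open Classical in
/-- the difference of the normalised kernel and the stable density -/
noncomputable def Fam.winFD (F : Fam Ω J) (ν : J → Measure Ω) (s : Ω → ℕ) (γ₁ γ₂ r a y : ℝ)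
    (t : F.T) : ℂ :=
  (if (winFn r a y : ℝ) / 2 ≤ F.pos ν s t ∧ F.pos ν s t ≤ 2 * (winFn r a y : ℝ) then
    ((winFM r y * (F.core t).kap ν s (winFn r a y) : ℝ) : ℂ) else 0) -
  (if y / 2 ≤ F.pos ν s t ∧ F.pos ν s t ≤ 2 * y then
    aS γ₁ γ₂ (a - (F.pos ν s t - y) / winFM r y) else 0)

variable [Countable Ω] [DiscreteMeasurableSpace Ω] [Fintype J]
  {ν : J → Measure Ω} {s : Ω → ℕ} {z : Ω → ℝ} {F : Fam Ω J} {Δ : ℕ} {B A c₀ : ℝ} {j₀ : J}

theorem winF_kap_bound (h : Slots ν s z) (h1 : T1 ν s A) (hc : 0 < c₀) (h4 : T4 (ν j₀) s c₀)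
    (hF : F.Heavy ν s j₀ Δ B) {r : ℝ} (hr : 0 < r) (a : ℝ) :
    ∃ C : ℝ, 0 ≤ C ∧ ∀ᶠ y : ℝ in atTop, ∀ t, y / 4 ≤ F.pos ν s t → F.pos ν s t ≤ 4 * y →
      winFM r y * (F.core t).kap ν s (winFn r a y) ≤
        C * (1 + |(F.pos ν s t - y) / winFM r y|) ^ (-(3 / 2) : ℝ) := by
  obtain ⟨C1, hC1⟩ := kap_le h.toSlots1 h1 hc h4 Δ
  obtain ⟨C2, hC2⟩ := Core.abs_L_le h.toSlots1 Δ B
  set α : ℝ := r * (8 * max C2 1) with hα
  set β : ℝ := 4 * max B 1 / r with hβ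
  have α0 : 0 < α := by positivity
  have β0 : 0 < β := by positivity
  refine ⟨max C1 0 * α ^ (2 / 3 : ℝ) * (2 + |a| + β ^ (2 / 3 : ℝ)) ^ (3 / 2 : ℝ), by positivity, ?_⟩
  filter_upwards [winF_basic hr a one_pos, winF_near hr a one_pos] with y hb hn t p1 p2
  obtain ⟨y0, M0, -, -, -⟩ := hb
  set k : ℝ := (((F.core t).k : ℕ) : ℝ) with hk
  set x := F.pos ν s t with hx
  have k1 : (1 : ℝ) ≤ k := by rw [hk]; exact_mod_cast hF.k_pos t
  have k0 : 0 < k := by linarith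
  have x1 : 1 ≤ x := hF.one_le t
  have q1 : x ≤ max C2 1 * (2 * k) := by
    refine (hC2 _ (hF.good t)).2.trans ?_
    rw [← hk]
    exact mul_le_mul (le_max_left _ _) (by linarith) (by linarith) (by positivity)
  have q2 : k ≤ max B 1 * x := by
    refine (hF.k_le t).trans ?_
    exact mul_le_mul_of_nonneg_right (le_max_left _ _) (by linarith : (0 : ℝ) ≤ x)
  have r1 : winFM r y ≤ α ^ (2 / 3 : ℝ) * k ^ (2 / 3 : ℝ) := by
    rw [← Real.mul_rpow α0.le k0.le]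
    refine Real.rpow_le_rpow (by positivity) ?_ (by norm_num)
    rw [hα, mul_assoc]
    gcongr
    linarith
  have r2 : k ^ (2 / 3 : ℝ) ≤ β ^ (2 / 3 : ℝ) * winFM r y := by
    rw [winFM, ← Real.mul_rpow β0.le (by positivity)]
    refine Real.rpow_le_rpow k0.le ?_ (by norm_num)
    have e : β * (r * y) = max B 1 * (4 * y) := by rw [hβ]; field_simp
    rw [e]
    exact q2.trans (by gcongr)
  have kp : 0 < k ^ (2 / 3 : ℝ) := by positivity
  set X := |((winFn r a y : ℕ) : ℝ) - x| / k ^ (2 / 3 : ℝ) with hX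
  have X0 : 0 ≤ X := by positivity
  have b1 : (F.core t).kap ν s (winFn r a y) ≤
      max C1 0 * k ^ (-(2 / 3) : ℝ) * (1 + X) ^ (-(3 / 2) : ℝ) := by
    have := hC1 (F.core t) (hF.k_pos t) (hF.frac t) (winFn r a y)
    rw [Int.cast_natCast] at this
    refine this.trans ?_
    change C1 * k ^ (-(2 / 3) : ℝ) * (1 + X) ^ (-(3 / 2) : ℝ) ≤ _
    gcongr
    exact le_max_left _ _
  have b2 : 1 + |(x - y) / winFM r y| ≤ (2 + |a| + β ^ (2 / 3 : ℝ)) * (1 + X) := by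
    have c1 : |(x - y) / winFM r y| ≤ β ^ (2 / 3 : ℝ) * X + (|a| + 1) := by
      rw [abs_div, abs_of_pos M0, div_le_iff₀ M0]
      have c2 : |x - y| ≤ |((winFn r a y : ℕ) : ℝ) - x| + |((winFn r a y : ℕ) : ℝ) - y| := by
        rw [abs_sub_comm _ x]
        exact abs_sub_le _ _ _
      have c3 : |((winFn r a y : ℕ) : ℝ) - x| = X * k ^ (2 / 3 : ℝ) := by
        rw [hX]; field_simp
      have c4 : X * k ^ (2 / 3 : ℝ) ≤ X * (β ^ (2 / 3 : ℝ) * winFM r y) := by gcongr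
      nlinarith [hn.1]
    have : 0 ≤ β ^ (2 / 3 : ℝ) := by positivity
    nlinarith [abs_nonneg a]
  have b3 := winF_rpow_le X0 (by positivity) b2
  have b4 : winFM r y * k ^ (-(2 / 3) : ℝ) ≤ α ^ (2 / 3 : ℝ) := by
    rw [Real.rpow_neg k0.le, ← div_eq_mul_inv, div_le_iff₀ kp]
    exact r1
  calc winFM r y * (F.core t).kap ν s (winFn r a y)
      ≤ winFM r y * (max C1 0 * k ^ (-(2 / 3) : ℝ) * (1 + X) ^ (-(3 / 2) : ℝ)) := by gcongr
    _ = max C1 0 * (winFM r y * k ^ (-(2 / 3) : ℝ)) * (1 + X) ^ (-(3 / 2) : ℝ) := by ring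
    _ ≤ max C1 0 * α ^ (2 / 3 : ℝ) * ((2 + |a| + β ^ (2 / 3 : ℝ)) ^ (3 / 2 : ℝ) *
        (1 + |(x - y) / winFM r y|) ^ (-(3 / 2) : ℝ)) := by gcongr
    _ = _ := by ring

theorem winF_D_bound (h : Slots ν s z) (h1 : T1 ν s A) (hc : 0 < c₀) (h4 : T4 (ν j₀) s c₀)
    (hF : F.Heavy ν s j₀ Δ B) {γ₁ : ℝ} (γ₂ : ℝ) (hγ : 0 < γ₁) {r : ℝ} (hr : 0 < r) (a : ℝ) :
    ∃ C : ℝ, 0 ≤ C ∧ ∀ᶠ y : ℝ in atTop, ∀ t,
      ‖F.winFD ν s γ₁ γ₂ r a y t‖ ≤ C * (1 + |(F.pos ν s t - y) / winFM r y|) ^ (-(3 / 2) : ℝ) ∧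
      (F.pos ν s t < y / 4 → F.winFD ν s γ₁ γ₂ r a y t = 0) := by
  obtain ⟨C1, C10, hC1⟩ := winF_kap_bound h h1 hc h4 hF hr a
  obtain ⟨-, ⟨C2, hC2⟩, -⟩ := aS_facts (γ₂ := γ₂) hγ
  refine ⟨C1 + max C2 0 * (1 + |a|) ^ (3 / 2 : ℝ), by positivity, ?_⟩
  filter_upwards [hC1, winF_basic hr a one_pos, winF_near hr a (half_pos one_pos)]
    with y hk hb hn t
  obtain ⟨y0, M0, -, -, -⟩ := hb
  obtain ⟨n1, n2⟩ := abs_le.1 hn.2
  constructor
  · set u := (F.pos ν s t - y) / winFM r y with hu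
    have p : 0 ≤ (1 + |u|) ^ (-(3 / 2) : ℝ) := by positivity
    refine (norm_sub_le _ _).trans ?_
    rw [add_mul]
    refine add_le_add ?_ ?_
    · split_ifs with hh
      · have k0 : 0 ≤ (F.core t).kap ν s (winFn r a y) := measureReal_nonneg
        rw [Complex.norm_real, Real.norm_eq_abs, abs_of_nonneg (mul_nonneg M0.le k0)]
        exact hk t (by linarith [hh.1]) (by linarith [hh.2])
      · rw [norm_zero]; positivity
    · split_ifs with hh
      · refine (hC2 _).trans ?_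
        have b : 1 + |u| ≤ (1 + |a|) * (1 + |a - u|) := by
          have : |u| ≤ |a| + |a - u| := by
            have := abs_sub a (a - u)
            rwa [sub_sub_cancel] at this
          nlinarith [mul_nonneg (abs_nonneg a) (abs_nonneg (a - u))]
        have b3 := winF_rpow_le (abs_nonneg (a - u)) (by positivity) b
        rw [mul_assoc]
        exact mul_le_mul (le_max_left _ _) b3 (by positivity) (by positivity)
      · rw [norm_zero]; positivity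
  · intro hl
    rw [Fam.winFD, if_neg fun hh => by linarith [hh.1], if_neg fun hh => by linarith [hh.1],
      sub_zero]

omit [Fintype J] in
theorem winF_D_good (h : Slots ν s z) (hc : 0 < c₀) (h4 : T4 (ν j₀) s c₀) {γ₁ γ₂ : ℝ}
    (hγ : 0 < γ₁)
    (he : (fun t : ℝ => phi (ν j₀) s t - 1 - Complex.I * ((t * ∫ ω, (s ω : ℝ) ∂ν j₀ : ℝ) : ℂ) +
      psiS γ₁ γ₂ t) =o[𝓝 0] fun t : ℝ => |t| ^ (3 / 2 : ℝ))
    (htr : ∀ t i, (F.core t).cls i ≠ j₀ → ν ((F.core t).cls i) {ω | s ω ≠ 0} = 0)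
    {r : ℝ} (hr : 0 < r) (a : ℝ) {R ε : ℝ} (hR : 0 ≤ R) (hε : 0 < ε) :
    ∃ η : ℝ, 0 < η ∧ ∀ᶠ y : ℝ in atTop, ∀ t, |(F.pos ν s t - y) / winFM r y| ≤ R →
      |((F.core t).cnt j₀ : ℝ) - r * F.pos ν s t| ≤ η * y → ‖F.winFD ν s γ₁ γ₂ r a y t‖ ≤ ε := by
  obtain ⟨hu, ⟨C2, hC2⟩, -⟩ := aS_facts (γ₂ := γ₂) hγ
  have hb : ∀ x, ‖aS γ₁ γ₂ x‖ ≤ max C2 0 := fun x => by
    refine (hC2 x).trans ?_
    have : (1 + |x|) ^ (-(3 / 2) : ℝ) ≤ 1 :=
      Real.rpow_le_one_of_one_le_of_nonpos (by linarith [abs_nonneg x]) (by norm_num)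
    calc C2 * (1 + |x|) ^ (-(3 / 2) : ℝ) ≤ max C2 0 * (1 + |x|) ^ (-(3 / 2) : ℝ) := by
          gcongr; exact le_max_left _ _
      _ ≤ max C2 0 * 1 := by gcongr
      _ = _ := mul_one _
  set C := max C2 0 with hC
  have C0 : 0 ≤ C := le_max_right _ _
  obtain ⟨δ1, δ10, hδ1⟩ := Metric.uniformContinuous_iff.1 hu (ε / 4) (by positivity)
  obtain ⟨k0, hk0⟩ := kap_llt h.toSlots1 hc h4 hγ he (ε := ε / 4) (by positivity)
  set ε2 : ℝ := min 1 (min (ε / (4 * (C + 1))) (δ1 / (4 * (|a| + R + 1)))) with hε2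
  have ε20 : 0 < ε2 := by positivity
  have ct : ContinuousAt (fun x : ℝ => (x ^ (2 / 3 : ℝ))⁻¹) 1 :=
    (Real.continuousAt_rpow_const _ _ (Or.inl one_ne_zero)).inv₀ (by simp)
  obtain ⟨η1, η10, hη1⟩ := Metric.continuousAt_iff.1 ct ε2 ε20
  set η2 := min η1 (1 / 2) with hη2
  have η20 : 0 < η2 := by positivity
  refine ⟨r * η2 / 4, by positivity, ?_⟩
  filter_upwards [winF_basic hr a (δ := δ1 / 4) (by positivity),
    winF_basic hr a (δ := η2 / (4 * (R + 1))) (by positivity),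
    winF_near hr a (δ := 1 / 4) (by norm_num), eventually_ge_atTop (2 * k0 / r)]
    with y hb1 hb2 hn hy t hu' hm
  obtain ⟨y0, M0, M1, -, n0⟩ := hb1
  obtain ⟨n1, n2⟩ := abs_le.1 hn.2
  set M := winFM r y with hM
  set x := F.pos ν s t with hx
  set m : ℝ := (((F.core t).cnt j₀ : ℕ) : ℝ) with hm'
  set u := (x - y) / M with hu2
  have xy : |x - y| ≤ η2 / 4 * y := by
    have e : x - y = u * M := by rw [hu2]; field_simp
    rw [e, abs_mul, abs_of_pos M0]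
    calc |u| * M ≤ (R + 1) * (η2 / (4 * (R + 1)) * y) :=
          mul_le_mul (by linarith) hb2.2.2.2.1 M0.le (by positivity)
      _ = η2 / 4 * y := by field_simp
  have η2l : η2 ≤ 1 / 2 := min_le_right _ _
  have xy' : |x - y| ≤ y / 8 := xy.trans (by nlinarith)
  obtain ⟨x1, x2⟩ := abs_le.1 xy'
  have ry : 0 < r * y := by positivity
  have my : |m - r * y| ≤ η2 / 2 * (r * y) := by
    have e : m - r * y = (m - r * x) + r * (x - y) := by ring
    rw [e]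
    refine (abs_add_le _ _).trans ?_
    rw [abs_mul, abs_of_pos hr]
    have : r * |x - y| ≤ r * (η2 / 4 * y) := by gcongr
    linarith
  have m1 : r * y / 2 ≤ m := by
    have := (abs_le.1 my).1
    nlinarith
  have m0 : 0 < m := by linarith
  have mk : k0 ≤ (F.core t).cnt j₀ := by
    rw [div_le_iff₀ hr] at hy
    have : (k0 : ℝ) ≤ m := by linarith
    rw [hm'] at this
    exact_mod_cast this
  have mp : 0 < m ^ (2 / 3 : ℝ) := by positivity
  set ρ := M / m ^ (2 / 3 : ℝ) with hρ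
  have hρ1 : |ρ - 1| ≤ ε2 := by
    have d : dist (m / (r * y)) 1 < η1 := by
      have e : m / (r * y) - 1 = (m - r * y) / (r * y) := by field_simp
      rw [Real.dist_eq, e, abs_div, abs_of_pos ry, div_lt_iff₀ ry]
      have : η2 ≤ η1 := min_le_left _ _
      nlinarith
    have := (hη1 d).le
    rwa [Real.dist_eq, Real.one_rpow, inv_one, Real.div_rpow m0.le ry.le, inv_div] at this
  have ε21 : ε2 ≤ 1 := min_le_left _ _
  have ε22 : ε2 ≤ ε / (4 * (C + 1)) := (min_le_right _ _).trans (min_le_left _ _)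
  have ε23 : ε2 ≤ δ1 / (4 * (|a| + R + 1)) := (min_le_right _ _).trans (min_le_right _ _)
  have ρ0 : 0 < ρ := by positivity
  have ρ2 : ρ ≤ 2 := by linarith [(abs_le.1 hρ1).2]
  have k := hk0 (F.core t) mk (htr t) (winFn r a y)
  rw [Int.cast_natCast] at k
  set κ := (F.core t).kap ν s (winFn r a y) with hκ
  set ξ := (((winFn r a y : ℕ) : ℝ) - x) / m ^ (2 / 3 : ℝ) with hξ
  change ‖((m ^ (2 / 3 : ℝ) * κ : ℝ) : ℂ) - aS γ₁ γ₂ ξ‖ ≤ ε / 4 at k
  have d2 : dist ξ (a - u) < δ1 := by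
    set e := ((winFn r a y : ℕ) : ℝ) - (y + a * M) with he'
    have e1 : ξ - (a - u) = (ρ - 1) * (a - u) + ρ * (e / M) := by
      rw [hξ, hρ, hu2, he']; field_simp; ring
    rw [Real.dist_eq, e1]
    refine (abs_add_le _ _).trans_lt ?_
    rw [abs_mul, abs_mul, abs_of_pos ρ0, abs_div, abs_of_pos M0]
    have f1 : |a - u| ≤ |a| + R + 1 := by linarith [abs_sub a u]
    have f2 : |ρ - 1| * |a - u| ≤ δ1 / (4 * (|a| + R + 1)) * (|a| + R + 1) :=
      mul_le_mul (hρ1.trans ε23) f1 (abs_nonneg _) (by positivity)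
    have f3 : δ1 / (4 * (|a| + R + 1)) * (|a| + R + 1) = δ1 / 4 := by field_simp
    have f4 : |e| / M ≤ δ1 / 4 := by
      rw [div_le_iff₀ M0]; linarith
    have f5 : ρ * (|e| / M) ≤ 2 * (δ1 / 4) := mul_le_mul ρ2 f4 (by positivity) (by norm_num)
    linarith
  have d3 := (hδ1 d2).le
  rw [dist_eq_norm] at d3
  rw [Fam.winFD, if_pos ⟨by linarith, by linarith⟩, if_pos ⟨by linarith, by linarith⟩]
  have e2 : ((M * κ : ℝ) : ℂ) - aS γ₁ γ₂ (a - u) =
      (ρ : ℂ) * (((m ^ (2 / 3 : ℝ) * κ : ℝ) : ℂ) - aS γ₁ γ₂ ξ) + ((ρ - 1 : ℝ) : ℂ) * aS γ₁ γ₂ ξ +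
        (aS γ₁ γ₂ ξ - aS γ₁ γ₂ (a - u)) := by
    have : M * κ = ρ * (m ^ (2 / 3 : ℝ) * κ) := by rw [hρ]; field_simp
    rw [this, Complex.ofReal_mul ρ, Complex.ofReal_sub, Complex.ofReal_one]
    ring
  change ‖((M * κ : ℝ) : ℂ) - aS γ₁ γ₂ (a - u)‖ ≤ ε
  rw [e2]
  refine (norm_add₃_le).trans ?_
  rw [norm_mul, norm_mul, Complex.norm_real, Complex.norm_real, Real.norm_eq_abs, Real.norm_eq_abs,
    abs_of_pos ρ0]
  have g1 := mul_le_mul ρ2 k (norm_nonneg _) (by norm_num)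
  have g2 : |ρ - 1| * ‖aS γ₁ γ₂ ξ‖ ≤ ε / (4 * (C + 1)) * (C + 1) :=
    mul_le_mul (hρ1.trans ε22) (by linarith [hb ξ]) (norm_nonneg _) (by positivity)
  have g3 : ε / (4 * (C + 1)) * (C + 1) = ε / 4 := by field_simp
  linarith

theorem winF_D_sum (h : Slots ν s z) (h1 : T1 ν s A) (hc : 0 < c₀) (h4 : T4 (ν j₀) s c₀)
    (hF : F.Heavy ν s j₀ Δ B) (hw : WinB (F.pos ν s) (fun t => F.w t) (-(11 / 6))) {γ₁ γ₂ : ℝ}
    (hγ : 0 < γ₁)
    (he : (fun t : ℝ => phi (ν j₀) s t - 1 - Complex.I * ((t * ∫ ω, (s ω : ℝ) ∂ν j₀ : ℝ) : ℂ) +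
      psiS γ₁ γ₂ t) =o[𝓝 0] fun t : ℝ => |t| ^ (3 / 2 : ℝ))
    (htr : ∀ t i, (F.core t).cls i ≠ j₀ → ν ((F.core t).cls i) {ω | s ω ≠ 0} = 0) {r : ℝ}
    (hr : WinLLN (F.pos ν s) (fun t => F.w t) (fun t => (F.core t).cnt j₀) r) (hr0 : 0 < r)
    (a : ℝ) {ε : ℝ} (hε : 0 < ε) :
    ∀ᶠ y : ℝ in atTop, ∑' t, (F.w t : ℝ≥0∞) * ‖F.winFD ν s γ₁ γ₂ r a y t‖ₑ ≤
      ENNReal.ofReal (ε * y ^ (-(11 / 6) : ℝ)) := by
  classical
  obtain ⟨K, K0, hK⟩ := winF_profile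
  obtain ⟨A0, A00, hA0⟩ := winF_window hw (ρ := r ^ (2 / 3 : ℝ)) (by positivity)
  obtain ⟨C, C0, hC⟩ := winF_D_bound h h1 hc h4 hF γ₂ hγ hr0 a
  set η : ℝ := ε / (2 * (A0 * K + 1)) with hη
  have η0 : 0 < η := by positivity
  have t1 : Tendsto (fun R : ℝ => C * (1 + R) ^ (-(1 / 4) : ℝ)) atTop (𝓝 (C * 0)) :=
    ((tendsto_rpow_neg_atTop (by norm_num)).comp
      (tendsto_atTop_add_const_left _ 1 tendsto_id)).const_mul C
  rw [mul_zero] at t1
  obtain ⟨R, hR1, hR0⟩ := ((t1.eventually (ge_mem_nhds η0)).and (eventually_ge_atTop 0)).exists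
  obtain ⟨η1, η10, hg⟩ := winF_D_good h hc h4 hγ he htr hr0 a hR0
    (ε := η * (1 + R) ^ (-(5 / 4) : ℝ)) (by positivity)
  filter_upwards [hA0, hC, hg, winF_basic hr0 a one_pos,
    winF_lln hr (R * r ^ (2 / 3 : ℝ)) η10 (δ := ε / (2 * (C + 1))) (by positivity)]
    with y a1 a2 a3 a4 a5
  obtain ⟨y0, M0, -, -, -⟩ := a4
  have eM := winFM_eq hr0 y0
  set u : F.T → ℝ := fun t => (F.pos ν s t - y) / winFM r y with hu
  set Q : F.T → Prop := fun t => |F.pos ν s t - y| ≤ R * r ^ (2 / 3 : ℝ) * y ^ (2 / 3 : ℝ) ∧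
    η1 * y < |((F.core t).cnt j₀ : ℝ) - r * F.pos ν s t| with hQ
  have pw : ∀ t, ‖F.winFD ν s γ₁ γ₂ r a y t‖ₑ ≤ ENNReal.ofReal η *
      (if y / 4 ≤ F.pos ν s t then ENNReal.ofReal ((1 + |u t|) ^ (-(5 / 4) : ℝ)) else 0) +
      ENNReal.ofReal C * (if Q t then 1 else 0) := by
    intro t
    by_cases p : y / 4 ≤ F.pos ν s t
    swap
    · rw [(a2 t).2 (not_le.1 p), enorm_zero]; exact zero_le
    rw [if_pos p, ← ofReal_norm]
    have u1 : 1 ≤ 1 + |u t| := by linarith [abs_nonneg (u t)]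
    by_cases q : Q t
    · rw [if_pos q, mul_one]
      refine le_add_left (ENNReal.ofReal_le_ofReal ((a2 t).1.trans ?_))
      have : (1 + |u t|) ^ (-(3 / 2) : ℝ) ≤ 1 :=
        Real.rpow_le_one_of_one_le_of_nonpos u1 (by norm_num)
      exact (mul_le_mul_of_nonneg_left this C0).trans (mul_one _).le
    refine le_add_right ?_
    rw [← ENNReal.ofReal_mul η0.le]
    refine ENNReal.ofReal_le_ofReal ?_
    by_cases hu' : |u t| ≤ R
    · have q1 : |F.pos ν s t - y| ≤ R * r ^ (2 / 3 : ℝ) * y ^ (2 / 3 : ℝ) := by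
        have := hu'
        simp only [hu] at this
        rwa [abs_div, abs_of_pos M0, div_le_iff₀ M0, eM, ← mul_assoc] at this
      refine (a3 t hu' (not_lt.1 fun q2 => q ⟨q1, q2⟩)).trans ?_
      gcongr η * ?_
      exact Real.rpow_le_rpow_of_nonpos (by linarith) (by linarith) (by norm_num)
    · refine (a2 t).1.trans ?_
      have e : (1 + |u t|) ^ (-(3 / 2) : ℝ) =
          (1 + |u t|) ^ (-(1 / 4) : ℝ) * (1 + |u t|) ^ (-(5 / 4) : ℝ) := by
        rw [← Real.rpow_add (by linarith)]; norm_num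
      change C * (1 + |u t|) ^ (-(3 / 2) : ℝ) ≤ _
      rw [e, ← mul_assoc]
      gcongr
      refine le_trans ?_ hR1
      gcongr C * ?_
      exact Real.rpow_le_rpow_of_nonpos (by linarith) (by linarith [not_le.1 hu']) (by norm_num)
  have s1 := hK F.T (fun t => y / 4 ≤ F.pos ν s t) u (fun t => F.w t) (A0 * y ^ (-(11 / 6) : ℝ))
    (by positivity) fun b => by
      refine le_trans (ENNReal.tsum_mono_subtype (fun t => (F.w t : ℝ≥0∞))
        (s := {t | y / 4 ≤ F.pos ν s t ∧ b ≤ u t ∧ u t ≤ b + 1})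
        (t := {t | y / 4 ≤ F.pos ν s t ∧ y + b * winFM r y ≤ F.pos ν s t ∧
          F.pos ν s t ≤ y + b * winFM r y + r ^ (2 / 3 : ℝ) * y ^ (2 / 3 : ℝ)})
        fun t ht => ⟨ht.1, ?_, ?_⟩) (a1 _)
      · have := ht.2.1
        simp only [hu] at this
        rw [le_div_iff₀ M0] at this
        linarith
      · have := ht.2.2
        simp only [hu] at this
        rw [div_le_iff₀ M0] at this
        rw [← eM]
        linarith
  have s2 : ∑' t, (F.w t : ℝ≥0∞) * (if Q t then 1 else 0) ≤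
      ENNReal.ofReal (ε / (2 * (C + 1)) * y ^ (-(11 / 6) : ℝ)) := by
    refine le_trans (le_of_eq ?_) a5
    refine Eq.symm ((tsum_subtype {t | Q t} fun t => (F.w t : ℝ≥0∞)).trans ?_)
    refine tsum_congr fun t => ?_
    by_cases q : Q t
    · rw [if_pos q, mul_one, Set.indicator_of_mem (by exact q)]
    · rw [if_neg q, mul_zero, Set.indicator_of_notMem (by exact q)]
  refine (ENNReal.tsum_le_tsum fun t => mul_le_mul_right (pw t) _).trans ?_
  simp only [mul_add, mul_left_comm (F.w _ : ℝ≥0∞)]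
  rw [ENNReal.tsum_add, ENNReal.tsum_mul_left, ENNReal.tsum_mul_left]
  refine (add_le_add (mul_le_mul_right s1 _) (mul_le_mul_right s2 _)).trans ?_
  have yp : 0 < y ^ (-(11 / 6) : ℝ) := by positivity
  rw [← ENNReal.ofReal_mul η0.le, ← ENNReal.ofReal_mul C0,
    ← ENNReal.ofReal_add (by positivity) (by positivity)]
  refine ENNReal.ofReal_le_ofReal ?_
  have f1 : η * (A0 * K) ≤ ε / 2 := by
    calc η * (A0 * K) ≤ η * (A0 * K + 1) := by gcongr; linarith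
      _ = ε / 2 := by rw [hη]; field_simp
  have f2 : C * (ε / (2 * (C + 1))) ≤ ε / 2 := by
    calc C * (ε / (2 * (C + 1))) ≤ (C + 1) * (ε / (2 * (C + 1))) := by gcongr; linarith
      _ = ε / 2 := by field_simp
  nlinarith

end Pool.Agent.Lib.MP_77dff5_pr
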