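import Pool.Agent.Lib.MP_77dff5_pr.WinD
import Pool.Agent.Lib.MP_77dff5_pr.Taub
import Pool.Agent.Lib.MP_77dff5_pr.WinFAux2

/-! Cores with many slots: the window where the mean size is close to the size. -/

set_option autoImplicit false

namespace Pool.Agent.Lib.MP_77dff5_pr

open MeasureTheory ProbabilityTheory Filter Topology
open scoped ENNReal NNReal

variable {Ω J : Type} [MeasurableSpace Ω]

open Classical in
/-- the coefficients fed to the tauberian theorem -/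
noncomputable def Fam.winFc (F : Fam Ω J) (ν : J → Measure Ω) (s : Ω → ℕ) (z : Ω → ℝ) (r : ℝ)
    (p : ℝ × ℝ) (t : F.T) : ℂ :=
  if p.1 / 2 ≤ F.pos ν s t ∧ F.pos ν s t ≤ 2 * p.1 then
    ((p.1 ^ (5 / 2 : ℝ) / winFM r p.1 : ℝ) : ℂ) * (((F.w t : ℝ) : ℂ) *
      Complex.exp (Complex.I * ((p.2 * (F.core t).L ν z / √p.1 : ℝ) : ℂ))) else 0

theorem winF_norm_exp (x : ℝ) : ‖Complex.exp (Complex.I * (x : ℂ))‖ = 1 := by
  rw [mul_comm, Complex.norm_exp_ofReal_mul_I]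

theorem winF_scale {r y : ℝ} (hr : 0 < r) (hy : 0 < y) :
    y ^ (5 / 2 : ℝ) / winFM r y = (r ^ (2 / 3 : ℝ))⁻¹ * y ^ (11 / 6 : ℝ) := by
  have e : y ^ (5 / 2 : ℝ) = y ^ (11 / 6 : ℝ) * y ^ (2 / 3 : ℝ) := by
    rw [← Real.rpow_add hy]; norm_num
  have p : 0 < y ^ (2 / 3 : ℝ) := by positivity
  have q : 0 < r ^ (2 / 3 : ℝ) := by positivity
  rw [winFM_eq hr hy, e]
  field_simp

theorem winF_cancel {y : ℝ} (hy : 0 < y) : y ^ (11 / 6 : ℝ) * y ^ (-(11 / 6) : ℝ) = 1 := by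
  rw [← Real.rpow_add hy]; norm_num

omit [MeasurableSpace Ω] in
theorem winF_summable {F : Fam Ω J} {Δ : ℕ} {B : ℝ} (hF : F.Good Δ B) :
    Summable fun t => (F.w t : ℝ) := by
  refine hF.sum1.of_nonneg_of_le (fun t => NNReal.coe_nonneg _) fun t => ?_
  have : (0 : ℝ) ≤ (F.w t : ℝ) * (F.core t).k := by positivity
  linarith

theorem winFc_norm (F : Fam Ω J) (ν : J → Measure Ω) (s : Ω → ℕ) (z : Ω → ℝ) (r : ℝ)
    (p : ℝ × ℝ) (t : F.T) :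
    ‖F.winFc ν s z r p t‖ ≤ |p.1 ^ (5 / 2 : ℝ) / winFM r p.1| * (F.w t : ℝ) ∧
      (F.pos ν s t < p.1 / 2 → F.winFc ν s z r p t = 0) := by
  constructor
  · rw [Fam.winFc]
    split_ifs
    · rw [norm_mul, norm_mul, winF_norm_exp, Complex.norm_real, Complex.norm_real, mul_one,
        Real.norm_eq_abs, Real.norm_eq_abs, NNReal.abs_eq]
    · rw [norm_zero]; positivity
  · intro hl
    rw [Fam.winFc, if_neg fun hh => by linarith [hh.1]]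

variable [Countable Ω] [DiscreteMeasurableSpace Ω] [Fintype J]
  {ν : J → Measure Ω} {s : Ω → ℕ} {z : Ω → ℝ} {F : Fam Ω J} {Δ : ℕ} {B A c₀ : ℝ} {j₀ : J}

omit [Countable Ω] [DiscreteMeasurableSpace Ω] [Fintype J] in
theorem winF_hA (hF : F.Heavy ν s j₀ Δ B) (hw : WinB (F.pos ν s) (fun t => F.w t) (-(11 / 6)))
    {r : ℝ} (hr : 0 < r) : ∃ A : ℝ, ∀ᶠ y : ℝ in atTop, ∀ θ b : ℝ,
      ∑' t : {t // b ≤ (F.pos ν s t - y) / winFM r y ∧ (F.pos ν s t - y) / winFM r y ≤ b + 1},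
        ‖F.winFc ν s z r (y, θ) t‖ ≤ A := by
  classical
  obtain ⟨A0, A00, hA0⟩ := winF_window hw (ρ := r ^ (2 / 3 : ℝ)) (by positivity)
  refine ⟨(r ^ (2 / 3 : ℝ))⁻¹ * A0, ?_⟩
  filter_upwards [hA0, winF_basic hr 0 one_pos] with y a1 a4 θ b
  obtain ⟨y0, M0, -, -, -⟩ := a4
  have eM := winFM_eq hr y0
  set S : Set F.T := {t | b ≤ (F.pos ν s t - y) / winFM r y ∧
    (F.pos ν s t - y) / winFM r y ≤ b + 1} with hS
  set S' : Set F.T := {t | y / 4 ≤ F.pos ν s t ∧ y + b * winFM r y ≤ F.pos ν s t ∧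
    F.pos ν s t ≤ y + b * winFM r y + r ^ (2 / 3 : ℝ) * y ^ (2 / 3 : ℝ)} with hS'
  set κ := y ^ (5 / 2 : ℝ) / winFM r y with hκ
  have κ0 : 0 ≤ κ := by positivity
  have sm : Summable fun t => ‖F.winFc ν s z r (y, θ) t‖ :=
    ((winF_summable hF.toGood).mul_left _).of_nonneg_of_le (fun t => norm_nonneg _)
      fun t => (winFc_norm F ν s z r (y, θ) t).1
  rw [← ENNReal.ofReal_le_ofReal_iff (by positivity),
    ENNReal.ofReal_tsum_of_nonneg (fun t => norm_nonneg _) (sm.subtype _)]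
  have e1 := tsum_subtype S fun t => ENNReal.ofReal ‖F.winFc ν s z r (y, θ) t‖
  have e2 := tsum_subtype S' fun t => (F.w t : ℝ≥0∞)
  refine e1.le.trans ?_
  refine le_trans (b := ∑' t, ENNReal.ofReal κ * S'.indicator (fun t => (F.w t : ℝ≥0∞)) t)
    (ENNReal.tsum_le_tsum fun t => ?_) ?_
  · by_cases ht : t ∈ S
    swap
    · rw [Set.indicator_of_notMem ht]; exact zero_le
    rw [Set.indicator_of_mem ht]
    by_cases hp : F.pos ν s t < y / 2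
    · rw [(winFc_norm F ν s z r (y, θ) t).2 hp, norm_zero, ENNReal.ofReal_zero]; exact zero_le
    have ht' : t ∈ S' := by
      obtain ⟨b1, b2⟩ := ht
      rw [le_div_iff₀ M0] at b1
      rw [div_le_iff₀ M0] at b2
      refine ⟨by linarith [not_lt.1 hp], by linarith, ?_⟩
      rw [← eM]
      linarith
    rw [Set.indicator_of_mem ht', ← ENNReal.ofReal_coe_nnreal, ← ENNReal.ofReal_mul κ0]
    refine ENNReal.ofReal_le_ofReal ((winFc_norm F ν s z r (y, θ) t).1.trans ?_)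
    rw [abs_of_nonneg κ0]
  · rw [ENNReal.tsum_mul_left, ← e2]
    refine (mul_le_mul_right (a1 _) _).trans ?_
    rw [← ENNReal.ofReal_mul κ0, hκ, winF_scale hr y0]
    refine le_of_eq (congrArg _ ?_)
    rw [mul_assoc, mul_left_comm (y ^ _), winF_cancel y0, mul_one]

section large
variable (h : Slots ν s z) (h1 : T1 ν s A) (hc : 0 < c₀) (h4 : T4 (ν j₀) s c₀)
  (hF : F.Heavy ν s j₀ Δ B) (hw : WinB (F.pos ν s) (fun t => F.w t) (-(11 / 6)))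
include h h1 hc h4 hF hw

theorem winF_main {q c σ2 r : ℝ}
    (hQ : WinLLN (F.pos ν s) (fun t => F.w t) (fun t => (F.core t).Q ν z) q) (hr0 : 0 < r)
    (hlim : ∀ θ : ℝ, Tendsto (fun p : ℕ × ℝ => (((p.1 : ℝ) ^ (5 / 2 : ℝ) : ℝ) : ℂ) *
      ch (F.lawOn (F.small p.1)ᶜ ν s z) p.1 p.2) (FF θ)
      (𝓝 ((c * Real.exp (-(σ2 * θ ^ 2 / 2)) : ℝ) : ℂ))) (θ a : ℝ) :
    Tendsto (fun p : ℝ × ℝ => ((p.1 ^ (5 / 2 : ℝ) : ℝ) : ℂ) *
      ∑' t : {t // (winFn r a p.1 : ℝ) / 2 ≤ F.pos ν s t ∧ F.pos ν s t ≤ 2 * (winFn r a p.1 : ℝ)},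
        ((F.w t : ℝ) : ℂ) * Complex.exp (Complex.I * ((p.2 / √p.1 * (F.core t).L ν z : ℝ) : ℂ)) *
          (((F.core t).kap ν s (winFn r a p.1) : ℝ) : ℂ)) (atTop ×ˢ 𝓝 θ)
      (𝓝 ((c * Real.exp (-((σ2 - q) * θ ^ 2 / 2)) : ℝ) : ℂ)) := by
  have d : Tendsto (fun p : ℝ × ℝ => (winFn r a p.1 : ℝ) / p.1) (atTop ×ˢ 𝓝 θ) (𝓝 1) :=
    (winFn_div hr0 a).comp tendsto_fst
  have y0 : ∀ᶠ p : ℝ × ℝ in atTop ×ˢ 𝓝 θ, 0 < p.1 :=
    tendsto_fst.eventually (eventually_gt_atTop 0)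
  have nt : Tendsto (fun p : ℝ × ℝ => winFn r a p.1) (atTop ×ˢ 𝓝 θ) atTop :=
    (winFn_top hr0 a).comp tendsto_fst
  have ff : Tendsto (fun p : ℝ × ℝ => (winFn r a p.1, p.2 / √p.1)) (atTop ×ˢ 𝓝 θ) (FF θ) := by
    refine tendsto_FF nt ?_
    have t := (tendsto_snd (f := (atTop : Filter ℝ)) (g := 𝓝 θ)).mul d.sqrt
    rw [Real.sqrt_one, mul_one] at t
    refine t.congr' ?_
    filter_upwards [y0] with p hp
    rw [Real.sqrt_div (Nat.cast_nonneg _)]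
    ring
  have t1 := (hlim θ).comp ff
  have t2 := (Fam.large_ch h h1 hc h4 hF hw hQ θ).comp ff
  have t3 : Tendsto (fun p : ℝ × ℝ => ((Real.exp (q * θ ^ 2 / 2) *
      (((winFn r a p.1 : ℝ) / p.1) ^ (5 / 2 : ℝ))⁻¹ : ℝ) : ℂ)) (atTop ×ˢ 𝓝 θ)
      (𝓝 ((Real.exp (q * θ ^ 2 / 2) * ((1 : ℝ) ^ (5 / 2 : ℝ))⁻¹ : ℝ) : ℂ)) :=
    (Complex.continuous_ofReal.tendsto _).comp
      (((d.rpow_const (Or.inl one_ne_zero)).inv₀ (by simp)).const_mul _)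
  have t4 := t3.mul (t1.sub t2)
  have e : ((Real.exp (q * θ ^ 2 / 2) * ((1 : ℝ) ^ (5 / 2 : ℝ))⁻¹ : ℝ) : ℂ) *
      (((c * Real.exp (-(σ2 * θ ^ 2 / 2)) : ℝ) : ℂ) - 0) =
      ((c * Real.exp (-((σ2 - q) * θ ^ 2 / 2)) : ℝ) : ℂ) := by
    rw [sub_zero, ← Complex.ofReal_mul, Real.one_rpow, inv_one, mul_one, mul_left_comm,
      ← Real.exp_add]
    congr 3
    ring
  rw [e] at t4
  refine t4.congr' ?_
  filter_upwards [y0, nt.eventually (eventually_gt_atTop 0)] with p hp hn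
  have n0 : (0 : ℝ) < winFn r a p.1 := by exact_mod_cast hn
  have e2 : p.1 ^ (5 / 2 : ℝ) = Real.exp (q * θ ^ 2 / 2) *
      (((winFn r a p.1 : ℝ) / p.1) ^ (5 / 2 : ℝ))⁻¹ *
        ((winFn r a p.1 : ℝ) ^ (5 / 2 : ℝ) * Real.exp (-(q * θ ^ 2 / 2))) := by
    have : (0 : ℝ) < (winFn r a p.1 : ℝ) ^ (5 / 2 : ℝ) := by positivity
    rw [Real.div_rpow n0.le hp.le, Real.exp_neg]
    field_simp
  simp only [Function.comp_apply]
  rw [e2, Complex.ofReal_mul (Real.exp _ * _), Complex.ofReal_mul ((winFn r a p.1 : ℝ) ^ _)]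
  ring

theorem winF_conv {q c σ2 γ₁ γ₂ r : ℝ} (hγ : 0 < γ₁)
    (he : (fun t : ℝ => phi (ν j₀) s t - 1 - Complex.I * ((t * ∫ ω, (s ω : ℝ) ∂ν j₀ : ℝ) : ℂ) +
      psiS γ₁ γ₂ t) =o[𝓝 0] fun t : ℝ => |t| ^ (3 / 2 : ℝ))
    (htr : ∀ t i, (F.core t).cls i ≠ j₀ → ν ((F.core t).cls i) {ω | s ω ≠ 0} = 0)
    (hQ : WinLLN (F.pos ν s) (fun t => F.w t) (fun t => (F.core t).Q ν z) q)
    (hr : WinLLN (F.pos ν s) (fun t => F.w t) (fun t => (F.core t).cnt j₀) r) (hr0 : 0 < r)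
    (hlim : ∀ θ : ℝ, Tendsto (fun p : ℕ × ℝ => (((p.1 : ℝ) ^ (5 / 2 : ℝ) : ℝ) : ℂ) *
      ch (F.lawOn (F.small p.1)ᶜ ν s z) p.1 p.2) (FF θ)
      (𝓝 ((c * Real.exp (-(σ2 * θ ^ 2 / 2)) : ℝ) : ℂ))) (θ a : ℝ) :
    Tendsto (fun p : ℝ × ℝ => ∑' t, F.winFc ν s z r p t *
      aS γ₁ γ₂ (a - (F.pos ν s t - p.1) / winFM r p.1)) (atTop ×ˢ 𝓝 θ)
      (𝓝 ((c * Real.exp (-((σ2 - q) * θ ^ 2 / 2)) : ℝ) : ℂ)) := by
  classical
  have t1 := winF_main h h1 hc h4 hF hw hQ hr0 hlim θ a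
  have t2 : Tendsto (fun p : ℝ × ℝ => ((p.1 ^ (5 / 2 : ℝ) / winFM r p.1 : ℝ) : ℂ) *
      ∑' t, ((F.w t : ℝ) : ℂ) *
        Complex.exp (Complex.I * ((p.2 * (F.core t).L ν z / √p.1 : ℝ) : ℂ)) *
          F.winFD ν s γ₁ γ₂ r a p.1 t) (atTop ×ˢ 𝓝 θ) (𝓝 0) := by
    refine NormedAddGroup.tendsto_nhds_zero.2 fun ε hε => ?_
    have rp : 0 < r ^ (2 / 3 : ℝ) := by positivity
    filter_upwards [tendsto_fst.eventually (winF_D_sum h h1 hc h4 hF hw hγ he htr hr hr0 a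
      (ε := ε / 2 * r ^ (2 / 3 : ℝ)) (by positivity)),
      tendsto_fst.eventually (eventually_gt_atTop 0)] with p a1 y0
    have b : ‖∑' t, ((F.w t : ℝ) : ℂ) *
        Complex.exp (Complex.I * ((p.2 * (F.core t).L ν z / √p.1 : ℝ) : ℂ)) *
          F.winFD ν s γ₁ γ₂ r a p.1 t‖ ≤ ε / 2 * r ^ (2 / 3 : ℝ) * p.1 ^ (-(11 / 6) : ℝ) := by
      rw [← ENNReal.ofReal_le_ofReal_iff (by positivity), ofReal_norm]
      refine enorm_tsum_le_tsum_enorm.trans (le_trans (le_of_eq (tsum_congr fun t => ?_)) a1)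
      rw [enorm_mul, ← ofReal_norm (_ * _), norm_mul, winF_norm_exp, mul_one, Complex.norm_real,
        Real.norm_eq_abs, NNReal.abs_eq, ENNReal.ofReal_coe_nnreal]
    rw [norm_mul, Complex.norm_real, Real.norm_eq_abs, winF_scale hr0 y0,
      abs_of_nonneg (by positivity)]
    refine (mul_le_mul_of_nonneg_left b (by positivity)).trans_lt ?_
    have e : (r ^ (2 / 3 : ℝ))⁻¹ * p.1 ^ (11 / 6 : ℝ) *
        (ε / 2 * r ^ (2 / 3 : ℝ) * p.1 ^ (-(11 / 6) : ℝ)) =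
        ε / 2 * (p.1 ^ (11 / 6 : ℝ) * p.1 ^ (-(11 / 6) : ℝ)) := by field_simp
    rw [e, winF_cancel y0]
    linarith
  have t3 := t1.sub t2
  rw [sub_zero] at t3
  refine t3.congr' ?_
  obtain ⟨C, C0, hC⟩ := winF_D_bound h h1 hc h4 hF γ₂ hγ hr0 a
  filter_upwards [tendsto_fst.eventually hC, tendsto_fst.eventually (winF_basic hr0 a one_pos)]
    with p a1 a2
  obtain ⟨y0, M0, -, -, -⟩ := a2
  have sw := winF_summable hF.toGood
  set n := winFn r a p.1 with hn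
  set E : F.T → ℂ := fun t => ((F.w t : ℝ) : ℂ) *
    Complex.exp (Complex.I * ((p.2 * (F.core t).L ν z / √p.1 : ℝ) : ℂ)) with hE
  have nE : ∀ t, ‖E t‖ = F.w t := fun t => by
    simp only [hE]
    rw [norm_mul, winF_norm_exp, mul_one, Complex.norm_real, Real.norm_eq_abs, NNReal.abs_eq]
  set S : Set F.T := {t | (n : ℝ) / 2 ≤ F.pos ν s t ∧ F.pos ν s t ≤ 2 * (n : ℝ)} with hS
  have e1 := tsum_subtype S fun t => ((F.w t : ℝ) : ℂ) *
    Complex.exp (Complex.I * ((p.2 / √p.1 * (F.core t).L ν z : ℝ) : ℂ)) *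
      (((F.core t).kap ν s n : ℝ) : ℂ)
  have e2 : ∀ t, S.indicator (fun t => ((F.w t : ℝ) : ℂ) *
      Complex.exp (Complex.I * ((p.2 / √p.1 * (F.core t).L ν z : ℝ) : ℂ)) *
        (((F.core t).kap ν s n : ℝ) : ℂ)) t =
      E t * if t ∈ S then (((F.core t).kap ν s n : ℝ) : ℂ) else 0 := fun t => by
    by_cases ht : t ∈ S
    · rw [Set.indicator_of_mem ht, if_pos ht, div_mul_eq_mul_div]
    · rw [Set.indicator_of_notMem ht, if_neg ht, mul_zero]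
  simp only [e2] at e1
  have s1 : Summable fun t => E t * if t ∈ S then (((F.core t).kap ν s n : ℝ) : ℂ) else 0 := by
    refine Summable.of_norm_bounded sw fun t => ?_
    rw [norm_mul, nE]
    refine mul_le_of_le_one_right (NNReal.coe_nonneg _) ?_
    split_ifs
    · have := Core.isProb h.prob (F.core t)
      have k0 : 0 ≤ (F.core t).kap ν s n := measureReal_nonneg
      rw [Complex.norm_real, Real.norm_eq_abs, abs_of_nonneg k0]
      exact measureReal_le_one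
    · simp
  have s2 : Summable fun t => E t * F.winFD ν s γ₁ γ₂ r a p.1 t := by
    refine Summable.of_norm_bounded (sw.mul_right C) fun t => ?_
    rw [norm_mul, nE]
    refine mul_le_mul_of_nonneg_left ((a1 t).1.trans ?_) (NNReal.coe_nonneg _)
    exact mul_le_of_le_one_right C0 (Real.rpow_le_one_of_one_le_of_nonpos
      (le_add_of_nonneg_right (abs_nonneg _)) (by norm_num))
  refine Eq.trans (congrArg₂ (fun u v => ((p.1 ^ (5 / 2 : ℝ) : ℝ) : ℂ) * u - v) e1 rfl) ?_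
  change _ * _ - _ * ∑' t, E t * F.winFD ν s γ₁ γ₂ r a p.1 t = _
  rw [← tsum_mul_left, ← tsum_mul_left, ← (s1.mul_left _).tsum_sub (s2.mul_left _)]
  refine tsum_congr fun t => ?_
  have Mc : ((winFM r p.1 : ℝ) : ℂ) ≠ 0 := Complex.ofReal_ne_zero.2 M0.ne'
  rw [Fam.winFD, Fam.winFc]
  change _ = (if _ then _ * E t else 0) * _
  rw [Complex.ofReal_div, Complex.ofReal_mul]
  by_cases q1 : t ∈ S
  · rw [if_pos q1, if_pos (by exact q1)]
    split_ifs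
    · field_simp; ring
    · field_simp; ring
  · rw [if_neg q1, if_neg (by exact q1)]
    split_ifs
    · ring
    · ring

/-- backward transfer: from local asymptotics to window averages -/
theorem Fam.backward {q c σ2 γ₁ γ₂ r : ℝ} (hγ : 0 < γ₁)
    (he : (fun t : ℝ => phi (ν j₀) s t - 1 - Complex.I * ((t * ∫ ω, (s ω : ℝ) ∂ν j₀ : ℝ) : ℂ) +
      psiS γ₁ γ₂ t) =o[𝓝 0] fun t : ℝ => |t| ^ (3 / 2 : ℝ))
    (htr : ∀ t i, (F.core t).cls i ≠ j₀ → ν ((F.core t).cls i) {ω | s ω ≠ 0} = 0)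
    (hQ : WinLLN (F.pos ν s) (fun t => F.w t) (fun t => (F.core t).Q ν z) q)
    (hr : WinLLN (F.pos ν s) (fun t => F.w t) (fun t => (F.core t).cnt j₀) r) (hr0 : 0 < r)
    (hlim : ∀ θ : ℝ, Tendsto (fun p : ℕ × ℝ => (((p.1 : ℝ) ^ (5 / 2 : ℝ) : ℝ) : ℂ) *
      ch (F.lawOn (F.small p.1)ᶜ ν s z) p.1 p.2) (FF θ)
      (𝓝 ((c * Real.exp (-(σ2 * θ ^ 2 / 2)) : ℝ) : ℂ))) :
    WinCLT (F.pos ν s) F.w (fun t => (F.core t).L ν z) c (σ2 - q) := by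
  intro φ φ1 φ2 θ
  have rp : 0 < r ^ (2 / 3 : ℝ) := by positivity
  obtain ⟨A0, hA0⟩ := winF_hA (z := z) hF hw hr0
  have t1 := tauberian (γ₂ := γ₂) hγ (l := (atTop : Filter ℝ) ×ˢ 𝓝 θ)
    (fun p t => (F.pos ν s t - p.1) / winFM r p.1) (F.winFc ν s z r)
    (fun p => ((winF_summable hF.toGood).mul_left _).of_nonneg_of_le (fun t => norm_nonneg _)
      fun t => (winFc_norm F ν s z r p t).1) (A := A0)
    ((tendsto_fst.eventually hA0).mono fun p hp b => hp p.2 b)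
    (winF_conv h h1 hc h4 hF hw hγ he htr hQ hr hr0 hlim θ)
    (fun u => φ (r ^ (2 / 3 : ℝ) * u)) (by fun_prop)
    (φ2.comp_smul (c := r ^ (2 / 3 : ℝ)) rp.ne')
  have t2 := t1.const_mul ((r ^ (2 / 3 : ℝ) : ℝ) : ℂ)
  have e : ((r ^ (2 / 3 : ℝ) : ℝ) : ℂ) * (((c * Real.exp (-((σ2 - q) * θ ^ 2 / 2)) : ℝ) : ℂ) *
      ((∫ x, φ (r ^ (2 / 3 : ℝ) * x) : ℝ) : ℂ)) =
      ((c * Real.exp (-((σ2 - q) * θ ^ 2 / 2)) * ∫ u, φ u : ℝ) : ℂ) := by
    rw [← Complex.ofReal_mul, ← Complex.ofReal_mul, Measure.integral_comp_mul_left,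
      abs_of_pos (inv_pos.2 rp), smul_eq_mul]
    congr 1
    field_simp
  rw [e] at t2
  refine t2.congr' ?_
  obtain ⟨R, hR⟩ := φ2.isCompact.isBounded.subset_closedBall 0
  filter_upwards [tendsto_fst.eventually (winF_small R (1 / 2) (by norm_num)),
    tendsto_fst.eventually (eventually_gt_atTop 0)] with p a1 y0
  rw [← tsum_mul_left, ← tsum_mul_left]
  refine tsum_congr fun t => ?_
  have yp : 0 < p.1 ^ (2 / 3 : ℝ) := by positivity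
  have e1 : r ^ (2 / 3 : ℝ) * ((F.pos ν s t - p.1) / winFM r p.1) =
      (F.pos ν s t - p.1) / p.1 ^ (2 / 3 : ℝ) := by
    rw [winFM_eq hr0 y0]; field_simp
  simp only [e1]
  rw [Fam.winFc]
  split_ifs with hh
  · have rc : ((r ^ (2 / 3 : ℝ) : ℝ) : ℂ) ≠ 0 := Complex.ofReal_ne_zero.2 rp.ne'
    rw [winF_scale hr0 y0, Complex.ofReal_mul, Complex.ofReal_inv]
    field_simp
  · have : φ ((F.pos ν s t - p.1) / p.1 ^ (2 / 3 : ℝ)) = 0 := by
      by_contra hne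
      have b := hR (subset_tsupport _ hne)
      rw [mem_closedBall_zero_iff, Real.norm_eq_abs, abs_div, abs_of_pos yp, div_le_iff₀ yp] at b
      obtain ⟨b1, b2⟩ := abs_le.1 (b.trans a1)
      exact hh ⟨by linarith, by linarith⟩
    rw [this]
    simp

end large

end Pool.Agent.Lib.MP_77dff5_pr
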