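import Pool.Agent.Lib.MP_77dff5_pr.PairE
import Pool.Agent.Lib.MP_77dff5_pr.AStable
import Pool.Agent.Lib.MP_77dff5_pr.TCoreB
import Pool.Agent.Lib.MP_77dff5_pr.SysE
import Pool.Agent.Lib.MP_77dff5_pr.WinF

/-! The central limit theorem for degree statistics of 3-connected cores. -/

set_option autoImplicit false

namespace Pool.Agent.Lib.MP_77dff5_pr

open MeasureTheory ProbabilityTheory Filter Topology
open scoped ENNReal NNReal

/-- the vertex slots of model A have size zero -/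
theorem aCLT_V (w : ℝ) : nuA w .V {ω | sA ω ≠ 0} = 0 := by
  have h : meas (wA w .V) {ω | sA ω ≠ 0} = 0 := by
    rw [← lintegral_indicator_one MeasurableSet.of_discrete, lintegral_meas, ENNReal.tsum_eq_zero]
    intro ω
    by_cases hω : sA ω = 0
    · rw [Set.indicator_of_notMem (by simpa using hω), mul_zero]
    · rw [mul_eq_zero]
      left
      rcases ω with R | D
      · have hR : R ≠ triv := by
          rintro rfl
          exact hω rfl
        simp [wA, wgA, onR, wTriv, ind, hR]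
      · rfl
  rw [nuA, nrm, Measure.smul_apply, h, smul_zero]

theorem aCLT_asym {w : ℝ} (hw : 0 < w) {f : ℕ → ℝ} {k0 : ℕ} (hf : EvC f k0) (lam mu : ℝ) (j : JA) :
    Asym (slaw (nuA w j) sA (zz sA f lam mu))
      (src (FA w f k0 lam mu) (cA w) (nuA w) sA (zz sA f lam mu) j) := by
  intro θ
  by_cases hj : j = .V
  · subst hj
    have h0 : src (FA w f k0 lam mu) (cA w) (nuA w) sA (zz sA f lam mu) .V = 0 := by
      refine Finset.sum_eq_zero fun k _ => ?_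
      have : cA w .V k = 0 := by cases k <;> simp [cA, incA]
      rw [this, zero_smul]
    have hev : ∀ᶠ p : ℕ × ℝ in FF θ, 1 ≤ p.1 := by
      have h0 : Tendsto (fun p : ℕ × ℝ => (p.1, p.2 * √p.1)) (FF θ) (atTop ×ˢ 𝓝 θ) := tendsto_comap
      exact h0.fst.eventually (eventually_ge_atTop 1)
    refine tendsto_const_nhds.congr' (hev.mono fun p hp => ?_)
    have hm : MeasurableSet {q : ℕ × ℝ | q.1 = p.1} := measurable_fst (MeasurableSet.singleton p.1)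
    have h2 : slaw (nuA w .V) sA (zz sA f lam mu) {q : ℕ × ℝ | q.1 = p.1} = 0 := by
      rw [slaw, Measure.map_apply Measurable.of_discrete hm]
      refine measure_mono_null (fun ω hω => ?_) (aCLT_V w)
      have : sA ω = p.1 := hω
      change sA ω ≠ 0
      omega
    simp only [h0, ch, Measure.restrict_eq_zero.2 h2, Measure.restrict_zero, integral_zero_measure,
      sub_self, mul_zero]
  · rw [← lawA hw hf lam mu j hj]
    simp only [sub_self, mul_zero]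
    exact tendsto_const_nhds

/-- law of large numbers for the conditional variance -/
theorem aCLT_Q {w mu : ℝ} (hw : 0 < w) {f : ℕ → ℝ} {k0 : ℕ} (hf : EvC f k0)
    (hS : Slots (nuA w) sA (zz sA f 0 mu)) : ∃ q : ℝ, WinLLN posm (fun t => wTw w t)
      (fun t : TT => ((FA w f k0 0 mu .H).core t).Q (nuA w) (zz sA f 0 mu)) q := by
  obtain ⟨vD, γ, cc, hγ, hQ⟩ := tcore_Q (a := aO) (b := bO) (c := cO) (jD := JA.D) (jV := JA.V)
    hS hf (symD_A f 0 mu)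
  obtain ⟨e1, he1⟩ := winA_stat hw hγ
  choose e2 he2 using pair_lln hw
  have h3 : ∀ p, WinLLN posm (fun t => wTw w t)
      (fun t : TT => ∑ q ∈ Finset.range (k0 + 1), cc p q * (Epq p q t.1 : ℝ))
      (∑ q ∈ Finset.range (k0 + 1), cc p q * e2 p q) := fun p =>
    WinLLN.sum _ (X := fun q (t : TT) => (Epq p q t.1 : ℝ)) (cc p) fun q _ => he2 p q
  have h4 := WinLLN.sum (Finset.range (k0 + 1)) (fun _ => 1) fun p _ => h3 p
  have h5 := ((WinLLN.self (pos := posm) fun t => (wTw w t : ℝ≥0∞)).add he1 vD 1).add h4 1 1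
  refine ⟨_, h5.of_close (C := 0) fun t => ?_⟩
  have := hQ t.1 (TT_facts t).1 (t.1.1 - t.1.2.1 - 1) (-(mu * (t.1.1 - t.1.2.1 - 1 : ℕ)))
  change |_ - (Tcore aO bO cO JA.D JA.V f k0 t.1 (t.1.1 - t.1.2.1 - 1)
    (-(mu * (t.1.1 - t.1.2.1 - 1 : ℕ)))).Q (nuA w) (zz sA f 0 mu)| ≤ 0
  rw [this]
  simp [posm]

/-- division of a limit -/
theorem aCLT_div {X Y : ℝ → ℕ × ℝ → ℂ} {b c σ2 : ℝ} (hb : 0 ≤ b) (hc : 0 < c)
    (h1 : ∀ θ : ℝ, Tendsto (fun p : ℕ × ℝ => (((p.1 : ℝ) ^ (5 / 2 : ℝ) : ℝ) : ℂ) * Y θ p) (FF θ)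
      (𝓝 ((c * Real.exp (-(σ2 * θ ^ 2 / 2)) : ℝ) : ℂ)))
    (h2 : ∀ θ : ℝ, Tendsto (fun p : ℕ × ℝ => (((p.1 : ℝ) ^ (5 / 2 : ℝ) : ℝ) : ℂ) *
      (Y θ p - (b : ℂ) * X θ p)) (FF θ) (𝓝 0)) :
    0 < b ∧ ∀ θ : ℝ, Tendsto (fun p : ℕ × ℝ => (((p.1 : ℝ) ^ (5 / 2 : ℝ) : ℝ) : ℂ) * X θ p) (FF θ)
      (𝓝 ((c / b * Real.exp (-(σ2 * θ ^ 2 / 2)) : ℝ) : ℂ)) := by
  have hb0 : b ≠ 0 := by
    rintro rfl
    have := FF_neBot 0
    have h3 := h2 0
    simp only [Complex.ofReal_zero, zero_mul, sub_zero] at h3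
    have h4 := tendsto_nhds_unique (h1 0) h3
    have h5 : c * Real.exp (-(σ2 * (0 : ℝ) ^ 2 / 2)) = 0 := by exact_mod_cast h4
    exact absurd h5 (by positivity)
  refine ⟨lt_of_le_of_ne hb hb0.symm, fun θ => ?_⟩
  have hbc : (b : ℂ) ≠ 0 := by exact_mod_cast hb0
  have h3 := ((h1 θ).sub (h2 θ)).const_mul ((b : ℂ)⁻¹)
  have e1 : (b : ℂ)⁻¹ * (((c * Real.exp (-(σ2 * θ ^ 2 / 2)) : ℝ) : ℂ) - 0) =
      ((c / b * Real.exp (-(σ2 * θ ^ 2 / 2)) : ℝ) : ℂ) := by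
    push_cast
    field_simp
    ring
  rw [e1] at h3
  refine h3.congr fun p => ?_
  field_simp
  ring

theorem coreT {w : ℝ} (hw : 0 < w) : CT (xw w).toNNReal (tauw w).toNNReal := by
  obtain ⟨U, α, C, S1, S2⟩ := scaleA hw
  refine ⟨S2.hw, pair_lln hw, fun l k0 hl => ?_⟩
  obtain ⟨f, mu, c, σ2, cen, hf, hM, hL, -⟩ := exists_repr hw hl
  obtain ⟨Δ, B, H⟩ := hM.sysOK hw hf
  obtain ⟨hS, A, h1, -⟩ := hM.slots hw hf
  obtain ⟨h6, C6, h6H⟩ := hM.sixA hw hf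
  obtain ⟨⟨c₀, hc₀, h4⟩, γ₁, γ₂, hγ, he⟩ := stableA hw
  obtain ⟨q, hq⟩ := aCLT_Q (k0 := k0) hw hf hS
  have hpos := pos_FA hw f k0 0 mu
  have hFw : ∀ t : TT, (FA w f k0 0 mu .H).w t = 2 * wTw w t := FA_H_w hw f k0 0 mu
  have lift : ∀ {X : TT → ℝ} {e : ℝ}, WinLLN posm (fun t => wTw w t) X e →
      WinLLN ((FA w f k0 0 mu .H).pos (nuA w) sA) (fun t => (FA w f k0 0 mu .H).w t) X (e / α) := by
    intro X e h
    rw [hpos]
    refine (WinLLN.scale S2.hα S2.h1 S2.h2 S2.h3 S2.h4 S2.hw S2.hU h).mono 2 fun t => ?_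
    rw [hFw t]
    push_cast
    exact le_rfl
  have hQ := lift hq
  have hr : WinLLN ((FA w f k0 0 mu .H).pos (nuA w) sA) (fun t => (FA w f k0 0 mu .H).w t)
      (fun t => ((FA w f k0 0 mu .H).core t).cnt .D) (1 / α) := by
    refine (lift (WinLLN.self _)).of_close (C := 0) fun t => ?_
    have := (tcore_cnt (a := aO) (b := bO) (c := cO) (jD := JA.D) (jV := JA.V) (f := f) (k0 := k0)
      (by decide) t.1 (t.1.1 - t.1.2.1 - 1) (-(mu * (t.1.1 - t.1.2.1 - 1 : ℕ)))).1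
    change |_ - ((Tcore aO bO cO JA.D JA.V f k0 t.1 (t.1.1 - t.1.2.1 - 1)
      (-(mu * (t.1.1 - t.1.2.1 - 1 : ℕ)))).cnt .D : ℝ)| ≤ 0
    rw [this]
    simp [posm]
  obtain ⟨β, hβ, -, hlim⟩ := H.lim hS (aCLT_asym hw hf 0 mu) (fun j => (h6 j).pmB.1) h1 hc₀ h4 hQ
  have hlawM := lawA_fam hw hf 0 mu .M (k0 := k0)
  have hb : 0 ≤ ∑ j, (FA w f k0 0 mu .M).acoef j * β j + if KA.M = KA.H then 1 else 0 := by
    rw [if_neg (by decide), add_zero]
    exact Finset.sum_nonneg fun j _ => mul_nonneg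
      (tsum_nonneg fun t => mul_nonneg (NNReal.coe_nonneg _) (Nat.cast_nonneg _)) (hβ j)
  obtain ⟨hb', hlarge⟩ := aCLT_div (σ2 := σ2)
    (X := fun _ p => ch ((FA w f k0 0 mu .H).lawOn ((FA w f k0 0 mu .H).small p.1)ᶜ (nuA w) sA
      (zz sA f 0 mu)) p.1 p.2)
    (Y := fun _ p => ch ((FA w f k0 0 mu .M).law (nuA w) sA (zz sA f 0 mu)) p.1 p.2) hb hM.pos
    (fun θ => by rw [← hlawM]; exact hM.lim θ) (fun θ => by convert (hlim θ).2 .M)
  have htr : ∀ t i, ((FA w f k0 0 mu .H).core t).cls i ≠ .D →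
      nuA w (((FA w f k0 0 mu .H).core t).cls i) {ω | sA ω ≠ 0} = 0 := by
    rintro t (i | i) hi
    · exact absurd rfl hi
    · exact aCLT_V w
  have hα := S2.hα
  have hclt := Fam.backward hS h1 hc₀ h4 H.heavy H.win hγ he htr hQ hr (by positivity) hlarge
  obtain ⟨-, w4, d6⟩ := Fam.winB_of_local hS h1 H.heavy h6H
  rw [hpos] at hclt w4 d6
  have hclt2 := hclt.const_mul (1 / 2)
  have e : (fun t : TT => (1 / 2 : ℝ≥0) * (FA w f k0 0 mu .H).w t) = wTw w := by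
    funext t
    rw [hFw t, ← mul_assoc]
    norm_num
  erw [e] at hclt2
  have hclt3 := WinCLT.scale S1.hα S1.h1 S1.h2 S1.h3 S1.h4 S1.hw S1.hU hclt2
  have hle : ∀ (t : TT) (x : ℝ≥0∞), (wTw w t : ℝ≥0∞) * x ≤
      (1 : ℝ≥0) * (((FA w f k0 0 mu .H).w t : ℝ≥0∞) * x) := by
    intro t x
    rw [hFw t]
    push_cast
    rw [one_mul]
    gcongr
    exact le_mul_of_one_le_left zero_le (by norm_num)
  have w4' := w4.mono 1 (fun t => hle t _) le_rfl
  have d6' := d6.mono 1 (fun t => hle t _) le_rfl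
  have w4'' := WinB.scale4 S1.hα S1.h1 S1.h2 S1.h3 S1.h4 S1.hw S1.hU w4' d6'
  have d6'' := d6'.of_comparable S1.h1 S1.h2 S1.h3
  have hclose : ∀ t : TT, |Fl l t.1 - cen * posm t -
      (1 * ((FA w f k0 0 mu .H).core t).L (nuA w) (zz sA f 0 mu) +
        0 * ((FA w f k0 0 mu .H).core t).L (nuA w) (zz sA f 0 mu))| ≤ |mu| := by
    intro t
    rw [hL t, ← abs_neg]
    apply le_of_eq
    congr 1
    ring
  refine ⟨cen, _, _, ?_, WinB.four_comb S2.hw w4'' w4'' hclose,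
    DyB.six_comb S2.hw d6'' d6'' hclose, hclt3.of_close S2.hw (C := |mu|) fun t => ?_⟩
  · have := hM.pos
    have := S1.hα
    push_cast
    positivity
  · rw [hL t]
    apply le_of_eq
    congr 1
    ring

end Pool.Agent.Lib.MP_77dff5_pr
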