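import Pool.Agent.Lib.MP_77dff5_pr.LabelBAux1

/-! Labelled products: sums over glued structures as sums over structures on fixed labels. -/

set_option autoImplicit false

namespace Pool.Agent.Lib.MP_77dff5_pr

open scoped ENNReal Classical

/-- the vertices of a glued graph on fixed labels -/
noncomputable def labelB_vert {I V : Type} (g : V → Option I) :
    ({v // g v = none} ⊕ Σ i, {v // g v = some i}) ≃ V :=
  Equiv.ofBijective (Sum.elim Subtype.val fun s => s.2.1) (by
    constructor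
    · rintro (⟨a, ha⟩ | ⟨i, a, ha⟩) (⟨b, hb⟩ | ⟨j, b, hb⟩) h
      · obtain rfl : a = b := h
        rfl
      · obtain rfl : a = b := h
        exact absurd (ha.symm.trans hb) (by simp)
      · obtain rfl : a = b := h
        exact absurd (ha.symm.trans hb) (by simp)
      · obtain rfl : a = b := h
        obtain rfl : i = j := Option.some.inj (ha.symm.trans hb)
        rfl
    · intro v
      rcases h : g v with _ | i
      · exact ⟨Sum.inl ⟨v, h⟩, rfl⟩
      · exact ⟨Sum.inr ⟨i, v, h⟩, rfl⟩)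

/-- Substitution of networks for the edges `I` of a core. -/
theorem glue_LP (I : Type) [Fintype I] (Ψ : NFun) (hΨ : NInv Ψ)
    (Θ : ∀ (W : Type) (E V : I → Type), (I × Bool → Bool ⊕ W) →
      (∀ i, E i × Bool → Bool ⊕ V i) → ℝ≥0∞)
    (hΘ : ∀ (W W' : Type) (E V E' V' : I → Type) (w : W ≃ W') (e : ∀ i, E i ≃ E' i)
      (v : ∀ i, V i ≃ V' i) (t : I × Bool → Bool ⊕ W) (N : ∀ i, E i × Bool → Bool ⊕ V i)
      (N' : ∀ i, E' i × Bool → Bool ⊕ V' i),
      (∀ i x, N' i (e i x.1, x.2) = (N i x).map id (v i)) →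
      Θ W' E' V' (fun x => (t x).map id w) N' = Θ W E V t N) :
    ∑' n : ℕ, ((n.factorial : ℕ) : ℝ≥0∞)⁻¹ * ∑ t : I × Bool → Bool ⊕ Fin n, ∑' N : I → NG,
        (∏ i, wt (N i).1 (N i).2.1) * Θ _ _ _ t (fun i => (N i).2.2) *
          Ψ _ _ (glue t fun i => (N i).2.2) =
      ∑' G : NG, wt G.1 G.2.1 * Ψ _ _ G.2.2 *
        ∑ fE : Fin G.1 → I, ∑ fV : Fin G.2.1 → Option I,
          ∑ t : I × Bool → Bool ⊕ {v // fV v = none},
            ∑ N : ∀ i, {e // fE e = i} × Bool → Bool ⊕ {v // fV v = some i},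
              Θ _ _ _ t N * ind (glueF fE fV t N = G.2.2) := by
  have key := lab_expIO (I := I) (fun W Y Z => ∑' t : I × Bool → Bool ⊕ W,
      ∑' N : ∀ i, Y i × Bool → Bool ⊕ Z i, Θ W Y Z t N * labN Ψ _ _ (glue t N)) (by
    intro W W' Y Y' Z Z' w u v
    refine lab_tsum (Equiv.piCongrRight fun _ => (Equiv.refl Bool).sumCongr w) fun t => ?_
    refine lab_tsum (Equiv.piCongrRight fun i => labT (u i) ((Equiv.refl Bool).sumCongr (v i)))
      fun N => ?_
    have h : ∀ i x b, labT (u i) ((Equiv.refl Bool).sumCongr (v i)) (N i) (u i x, b) =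
        (N i (x, b)).map id (v i) := fun i x b => labT_apply _ _ _ _ _
    congr 1
    · exact (hΘ W W' Y Z Y' Z' w u v t N _ fun i x => h i x.1 x.2).symm
    · refine labN_congr hΨ (Equiv.sigmaCongrRight u) (w.sumCongr (Equiv.sigmaCongrRight v)) ?_
      rintro ⟨i, x⟩ b
      change Sum.elim _ _ (labT (u i) ((Equiv.refl Bool).sumCongr (v i)) (N i) (u i x, b)) =
        Sum.map _ _ (Sum.elim _ _ (N i (x, b)))
      rw [h]
      rcases N i (x, b) with c | z
      · change Sum.map _ _ (Sum.map _ _ (t (i, c))) = Sum.map _ _ (Sum.map _ _ (t (i, c)))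
        rcases t (i, c) with d | d <;> rfl
      · rfl)
  simp only [lab_fin, labN_eq Ψ, lab_w1]
  rw [lab_sig]
  simp only [lab_sw, lab_ind]
  refine Eq.trans ?_ (key.trans ?_)
  · refine tsum_congr fun n => ?_
    simp only [lab_pi (I := I) (T := fun m n => Fin m × Bool → Bool ⊕ Fin n),
      ← ENNReal.tsum_mul_left, mul_assoc]
    rw [ENNReal.tsum_comm]
    exact tsum_congr fun l => ENNReal.tsum_comm
  · simp only [← ENNReal.tsum_mul_left]
    refine tsum_congr fun m => tsum_congr fun p => tsum_congr fun f => tsum_congr fun g =>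
      tsum_congr fun t => tsum_congr fun N => ?_
    rw [mul_comm (Θ _ _ _ t N), ← mul_assoc]
    congr 2
    refine labN_congr hΨ (Equiv.sigmaFiberEquiv f) (labelB_vert g) ?_
    rintro ⟨i, x, rfl⟩ b
    change Sum.elim _ _ (N (f x) (⟨x, rfl⟩, b)) = Sum.map _ _ (Sum.elim _ _ (N (f x) (⟨x, rfl⟩, b)))
    rcases N (f x) (⟨x, rfl⟩, b) with c | z
    · change Sum.map _ _ (t (f x, c)) = Sum.map _ _ (Sum.map _ _ (t (f x, c)))
      rcases t (f x, c) with d | d <;> rfl
    · rfl

end Pool.Agent.Lib.MP_77dff5_pr
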