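import Pool.Agent.Lib.MP_77dff5_pr.Net
import Pool.Agent.Lib.MP_77dff5_pr.LabelB

/-! Tutte's decomposition of networks as identities between labelled sums. -/

set_option autoImplicit false

namespace Pool.Agent.Lib.MP_77dff5_pr

open scoped ENNReal Classical

/-- two edges share an inner vertex -/
def netP_adj {E V : Type} (G : E × Bool → Bool ⊕ V) (e e' : E) : Prop :=
  ∃ b b' v, G (e, b) = Sum.inr v ∧ G (e', b') = Sum.inr v

/-- the labelling `f` of the edges numbers the classes of edges joined through inner vertices -/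
def netP_good {E V I : Type} (G : E × Bool → Bool ⊕ V) (f : E → I) : Prop :=
  Function.Surjective f ∧ ∀ e e', f e = f e' ↔ Relation.EqvGen (netP_adj G) e e'

/-- the condition on the core and on the parts -/
def netP_cond {I : Type} (W : Type) (E V : I → Type) (t : I × Bool → Bool ⊕ W)
    (N : ∀ i, E i × Bool → Bool ⊕ V i) : Prop :=
  (∀ x, t x = Sum.inl x.2) ∧ IsEmpty W ∧ (∀ i, Finite (E i)) ∧ (∀ i, Finite (V i)) ∧
    ∀ i, IsNet (N i) ∧ ¬IsP (N i)

lemma netP_ind_congr {p q : Prop} (h : p ↔ q) : ind p = ind q := by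
  rw [propext h]

lemma netP_ind_mul (p q : Prop) : ind p * ind q = ind (p ∧ q) := by
  unfold ind
  by_cases hp : p <;> by_cases hq : q <;> simp [hp, hq]

lemma netP_sum_ind {X : Type} (P : X → Prop) (h : ∀ x y, P x → P y → x = y) :
    ∑' x, ind (P x) = ind (∃ x, P x) := by
  by_cases hx : ∃ x, P x
  · obtain ⟨x, hx⟩ := hx
    rw [tsum_eq_single x]
    · unfold ind
      rw [if_pos hx, if_pos ⟨x, hx⟩]
    · intro y hy
      unfold ind
      rw [if_neg fun hP => hy (h y x hP hx)]
  · have : ∀ x, ind (P x) = 0 := fun x => by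
      unfold ind
      rw [if_neg fun hP => hx ⟨x, hP⟩]
    simp only [this, tsum_zero]
    unfold ind
    rw [if_neg hx]

lemma netP_bd_compl {E V : Type} (ν : E × Bool → V) (X : Set E) : bd ν Xᶜ = bd ν X := by
  ext v
  simp only [bd, Set.mem_ofPred_eq, Set.mem_compl_iff, not_not]
  exact and_comm

/-- a set of edges whose boundary lies in the poles is a union of classes -/
lemma netP_closed {E V : Type} {G : E × Bool → Bool ⊕ V} {X : Set E}
    (hX : bd (clo G) (some '' X) ⊆ Set.range Sum.inl) {a b : E}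
    (h : Relation.EqvGen (netP_adj G) a b) : a ∈ X ↔ b ∈ X := by
  have key : ∀ a b, netP_adj G a b → a ∈ X → b ∈ X := by
    rintro a b ⟨c, c', v, h1, h2⟩ ha
    by_contra hb
    have : (Sum.inr v : Bool ⊕ V) ∈ bd (clo G) (some '' X) := by
      refine ⟨⟨(some a, c), ⟨a, ha, rfl⟩, h1⟩, ⟨(some b, c'), ?_, h2⟩⟩
      rintro ⟨b', hb', he⟩
      exact hb (Option.some_injective _ he ▸ hb')
    obtain ⟨z, hz⟩ := hX this
    exact Sum.inl_ne_inr hz
  induction h with
  | rel a b h =>
    refine ⟨key a b h, key b a ?_⟩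
    obtain ⟨c, c', v, h1, h2⟩ := h
    exact ⟨c', c, v, h2, h1⟩
  | refl a => exact Iff.rfl
  | symm a b _ ih => exact ih.symm
  | trans a b c _ _ ih1 ih2 => exact ih1.trans ih2

/-- a set of edges closed under sharing inner vertices has its boundary in the poles -/
lemma netP_bd_sub {E V : Type} {G : E × Bool → Bool ⊕ V} {X : Set E}
    (hX : ∀ a b, netP_adj G a b → a ∈ X → b ∈ X) :
    bd (clo G) (some '' X) ⊆ Set.range Sum.inl := by
  rintro w ⟨⟨⟨x, c⟩, ⟨a, ha, rfl⟩, h1⟩, ⟨⟨y, c'⟩, hy, h2⟩⟩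
  cases w with
  | inl z => exact ⟨z, rfl⟩
  | inr v =>
    exfalso
    cases y with
    | none => exact Sum.inl_ne_inr h2
    | some b => exact hy ⟨b, hX a b ⟨c, c', v, h1, h2⟩ ha, rfl⟩

lemma netP_isP_iff {E V : Type} (G : E × Bool → Bool ⊕ V) :
    IsP G ↔ ∃ a b, ¬Relation.EqvGen (netP_adj G) a b := by
  constructor
  · rintro ⟨X, ⟨a, ha⟩, ⟨b, hb⟩, hX⟩
    exact ⟨a, b, fun h => hb ((netP_closed hX h).1 ha)⟩
  · rintro ⟨a, b, h⟩
    refine ⟨{x | Relation.EqvGen (netP_adj G) a x}, ⟨a, Relation.EqvGen.refl a⟩, ⟨b, h⟩,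
      netP_bd_sub fun x y hxy hx => ?_⟩
    exact Relation.EqvGen.trans _ _ _ hx (Relation.EqvGen.rel _ _ hxy)

section fixed
variable {I E V : Type} {fE : E → I} {fV : V → Option I}
  {t : I × Bool → Bool ⊕ {v // fV v = none}}
  {N : ∀ i, {e // fE e = i} × Bool → Bool ⊕ {v // fV v = some i}}

lemma netP_glueF (ht : ∀ x, t x = Sum.inl x.2) (i : I) (x : {e // fE e = i} × Bool) :
    glueF fE fV t N (x.1.1, x.2) = (N i x).map id Subtype.val := by
  obtain ⟨⟨e, rfl⟩, b⟩ := x
  unfold glueF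
  dsimp only
  cases N (fE e) (⟨e, rfl⟩, b) with
  | inl c => simp [ht]
  | inr v => rfl

lemma netP_map_inj {A : Type} {p : A → Prop} :
    Function.Injective (Sum.map id Subtype.val : Bool ⊕ {a // p a} → Bool ⊕ A) :=
  Sum.map_injective.2 ⟨Function.injective_id, Subtype.val_injective⟩

lemma netP_fV (ht : ∀ x, t x = Sum.inl x.2) {e : E} {b : Bool} {v : V}
    (h : glueF fE fV t N (e, b) = Sum.inr v) : fV v = some (fE e) := by
  have h1 := netP_glueF (N := N) ht (fE e) (⟨e, rfl⟩, b)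
  rw [h] at h1
  cases h2 : N (fE e) (⟨e, rfl⟩, b) with
  | inl c => rw [h2] at h1; exact absurd h1 Sum.inr_ne_inl
  | inr w =>
    rw [h2] at h1
    have : v = w.1 := Sum.inr_injective h1
    rw [this]
    exact w.2

lemma netP_good_of [Finite E] [Finite V] (h : netP_cond _ _ _ t N) :
    netP_good (glueF fE fV t N) fE := by
  obtain ⟨ht, -, -, -, hN⟩ := h
  refine ⟨fun i => ?_, fun e e' => ⟨fun he => ?_, fun he => ?_⟩⟩
  · obtain ⟨e, he⟩ := (hN i).1.1
    exact ⟨e, he⟩
  · by_contra hne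
    refine (hN (fE e)).2 ⟨{x | Relation.EqvGen (netP_adj (glueF fE fV t N)) e x.1},
      ⟨⟨e, rfl⟩, Relation.EqvGen.refl e⟩, ⟨⟨e', he.symm⟩, hne⟩, netP_bd_sub ?_⟩
    rintro a b ⟨c, c', v, h1, h2⟩ ha
    refine Relation.EqvGen.trans _ _ _ ha (Relation.EqvGen.rel _ _ ⟨c, c', v.1, ?_, ?_⟩)
    · rw [netP_glueF ht (fE e) (a, c), h1]; rfl
    · rw [netP_glueF ht (fE e) (b, c'), h2]; rfl
  · induction he with
    | rel a b h =>
      obtain ⟨c, c', v, h1, h2⟩ := h
      exact Option.some_injective _ ((netP_fV ht h1).symm.trans (netP_fV ht h2))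
    | refl a => rfl
    | symm a b _ ih => exact ih.symm
    | trans a b c _ _ ih1 ih2 => exact ih1.trans ih2

end fixed

lemma netP_isNet_core {j : ℕ} (hj : 1 ≤ j) {W : Type} [IsEmpty W]
    {t : Fin j × Bool → Bool ⊕ W} (ht : ∀ x, t x = Sum.inl x.2) : IsNet t := by
  refine (isNet_congr (N := bond j) ⟨Equiv.refl _, fun _ => rfl⟩ (Equiv.equivEmpty W).symm
    fun x => ?_).2 (isNet_bond hj)
  exact ht x

lemma netP_isNet_of {I : Type} [Finite I]
    (hI : ∀ (W : Type) [IsEmpty W] (t : I × Bool → Bool ⊕ W), (∀ x, t x = Sum.inl x.2) → IsNet t)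
    {E V : Type} [Finite E] [Finite V] {fE : E → I}
    {fV : V → Option I} {t : I × Bool → Bool ⊕ {v // fV v = none}}
    {N : ∀ i, {e // fE e = i} × Bool → Bool ⊕ {v // fV v = some i}}
    (h : netP_cond _ _ _ t N) : IsNet (glueF fE fV t N) := by
  obtain ⟨ht, hW, -, -, hN⟩ := h
  have hg : IsNet (glue t N) := isNet_glue (hI _ t ht) fun i => (hN i).1
  let φ : {v // fV v = none} ⊕ (Σ i, {v // fV v = some i}) → V :=
    Sum.elim Subtype.val fun p => p.2.1
  have hφ : Function.Bijective φ := by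
    constructor
    · rintro (a | ⟨i, a, ha⟩) (b | ⟨i', b, hb⟩) hab
      · exact hW.elim a
      · exact hW.elim a
      · exact hW.elim b
      · have hab' : a = b := hab
        subst hab'
        have : i = i' := Option.some_injective _ (ha.symm.trans hb)
        subst this
        rfl
    · intro v
      cases hv : fV v with
      | none => exact ⟨Sum.inl ⟨v, hv⟩, rfl⟩
      | some i => exact ⟨Sum.inr ⟨i, v, hv⟩, rfl⟩
  refine (isNet_congr (N := glue t N)
    ⟨(Equiv.sigmaFiberEquiv fE).prodCongr (Equiv.refl _), fun _ => rfl⟩ (Equiv.ofBijective φ hφ)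
    fun x => ?_).2 hg
  obtain ⟨⟨i, e⟩, b⟩ := x
  have := netP_glueF (N := N) ht i (e, b)
  change glueF fE fV t N (e.1, b) = _
  rw [this]
  unfold glue
  dsimp only
  cases N i (e, b) with
  | inl c => simp [ht]
  | inr v => rfl

lemma netP_exists {I E V : Type} [Finite E] [Finite V] {G : E × Bool → Bool ⊕ V} (hG : IsNet G)
    {fE : E → I} (hf : netP_good G fE) :
    ∃ (fV : V → Option I) (t : I × Bool → Bool ⊕ {v // fV v = none})
      (N : ∀ i, {e // fE e = i} × Bool → Bool ⊕ {v // fV v = some i}),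
      netP_cond _ _ _ t N ∧ glueF fE fV t N = G := by
  have hv : ∀ v : V, ∃ e b, G (e, b) = Sum.inr v := by
    intro v
    obtain ⟨⟨o, b⟩, h⟩ := hG.2.1 (Sum.inr v)
    cases o with
    | none => exact absurd h Sum.inl_ne_inr
    | some e => exact ⟨e, b, h⟩
  choose ev bv hev using hv
  let fV : V → Option I := fun v => some (fE (ev v))
  have hfV : ∀ e b v, G (e, b) = Sum.inr v → fV v = some (fE e) := by
    intro e b v h
    exact congrArg some ((hf.2 _ _).2 (Relation.EqvGen.rel _ _ ⟨bv v, b, v, hev v, h⟩))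
  have hex : ∀ (i : I) (x : {e // fE e = i} × Bool), ∃ y : Bool ⊕ {v // fV v = some i},
      y.map id Subtype.val = G (x.1.1, x.2) := by
    intro i x
    cases h : G (x.1.1, x.2) with
    | inl c => exact ⟨Sum.inl c, rfl⟩
    | inr v => exact ⟨Sum.inr ⟨v, (hfV _ _ _ h).trans (congrArg some x.1.2)⟩, rfl⟩
  choose N hN using hex
  have hW : IsEmpty {v // fV v = none} := ⟨fun v => Option.some_ne_none _ v.2⟩
  refine ⟨fV, fun x => Sum.inl x.2, N, ⟨fun _ => rfl, hW, fun _ => inferInstance,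
    fun _ => inferInstance, fun i => ⟨⟨?_, ?_, ?_⟩, ?_⟩⟩, ?_⟩
  · obtain ⟨e, he⟩ := hf.1 i
    exact ⟨⟨e, he⟩⟩
  · rintro (c | ⟨v, hv⟩)
    · exact ⟨(none, c), rfl⟩
    · refine ⟨(some ⟨ev v, Option.some_injective _ hv⟩, bv v), netP_map_inj ?_⟩
      exact (hN i (⟨ev v, Option.some_injective _ hv⟩, bv v)).trans (hev v)
  · have key : ∀ X : Set (Option {e // fE e = i}), none ∉ X → X.Nonempty →
        2 ≤ (bd (clo (N i)) X).ncard := by
      intro X hn hX
      let X' : Set (Option E) := {o | ∃ x : {e // fE e = i}, some x ∈ X ∧ o = some x.1}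
      have h2 : 2 ≤ (bd (clo G) X').ncard := by
        refine hG.2.2 X' ?_ ⟨none, ?_⟩
        · obtain ⟨o, ho⟩ := hX
          cases o with
          | none => exact absurd ho hn
          | some x => exact ⟨some x.1, x, ho, rfl⟩
        · rintro ⟨x, -, hx⟩
          exact Option.some_ne_none _ hx.symm
      have hsub : bd (clo G) X' ⊆ Sum.map id Subtype.val '' bd (clo (N i)) X := by
        rintro w ⟨⟨⟨o, c⟩, ⟨x, hx, rfl⟩, h1⟩, ⟨⟨y, c'⟩, hy, h2⟩⟩
        have h1' : G (x.1, c) = w := h1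
        refine ⟨N i (x, c), ⟨⟨(some x, c), hx, rfl⟩, ?_⟩, (hN i (x, c)).trans h1'⟩
        cases w with
        | inl z =>
          refine ⟨(none, z), hn, netP_map_inj ?_⟩
          exact ((hN i (x, c)).trans h1').symm
        | inr v =>
          cases y with
          | none => exact absurd h2 Sum.inl_ne_inr
          | some e2 =>
            have h2' : G (e2, c') = Sum.inr v := h2
            have he2 : fE e2 = i := by
              have := (hfV _ _ _ h2').symm.trans (hfV _ _ _ h1')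
              exact (Option.some_injective _ this).trans x.2
            refine ⟨(some ⟨e2, he2⟩, c'), fun hm => hy ⟨⟨e2, he2⟩, hm, rfl⟩, netP_map_inj ?_⟩
            exact ((hN i (⟨e2, he2⟩, c')).trans h2').trans ((hN i (x, c)).trans h1').symm
      exact h2.trans ((Set.ncard_le_ncard hsub (Set.toFinite _)).trans
        (Set.ncard_image_le (Set.toFinite _)))
    intro X hX hXc
    by_cases hn : none ∈ X
    · rw [← netP_bd_compl]
      exact key Xᶜ (fun h => h hn) hXc
    · exact key X hn hX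
  · rintro ⟨X, ⟨a, ha⟩, ⟨b, hb⟩, hX⟩
    have hab : Relation.EqvGen (netP_adj G) a.1 b.1 := (hf.2 _ _).1 (a.2.trans b.2.symm)
    have hcl : ∀ a b, netP_adj G a b → a ∈ Subtype.val '' X → b ∈ Subtype.val '' X := by
      rintro _ e2 ⟨c, c', v, h1, h2⟩ ⟨x, hx, rfl⟩
      have he2 : fE e2 = i := by
        have := (hfV _ _ _ h2).symm.trans (hfV _ _ _ h1)
        exact (Option.some_injective _ this).trans x.2
      have hv : fV v = some i := (hfV _ _ _ h2).trans (congrArg some he2)
      refine ⟨⟨e2, he2⟩, (netP_closed hX (Relation.EqvGen.rel _ _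
        ⟨c, c', ⟨v, hv⟩, netP_map_inj ?_, netP_map_inj ?_⟩)).1 hx, rfl⟩
      · exact (hN i (x, c)).trans h1
      · exact (hN i (⟨e2, he2⟩, c')).trans h2
    obtain ⟨b', hb', he⟩ := (netP_closed (netP_bd_sub hcl) hab).1 ⟨a, ha, rfl⟩
    exact hb (Subtype.val_injective he ▸ hb')
  · funext x
    exact (netP_glueF (t := fun x => Sum.inl x.2) (fun _ => rfl) (fE x.1)
      (⟨x.1, rfl⟩, x.2)).trans (hN _ _)

/-- The decompositions of a fixed graph with a fixed labelling of the edges. -/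
lemma netP_count {I : Type} [Finite I]
    (hI : ∀ (W : Type) [IsEmpty W] (t : I × Bool → Bool ⊕ W), (∀ x, t x = Sum.inl x.2) → IsNet t)
    {E V : Type} [Finite E] [Finite V] (G : E × Bool → Bool ⊕ V) (fE : E → I) :
    ∑' fV : V → Option I, ∑' t : I × Bool → Bool ⊕ {v // fV v = none},
      ∑' N : ∀ i, {e // fE e = i} × Bool → Bool ⊕ {v // fV v = some i},
        ind (netP_cond _ _ _ t N) * ind (glueF fE fV t N = G) =
      ind (IsNet G ∧ netP_good G fE) := by
  simp only [netP_ind_mul]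
  have h1 : ∀ (fV : V → Option I) (t : I × Bool → Bool ⊕ {v // fV v = none}),
      ∑' N : ∀ i, {e // fE e = i} × Bool → Bool ⊕ {v // fV v = some i},
        ind (netP_cond _ _ _ t N ∧ glueF fE fV t N = G) =
      ind (∃ N : ∀ i, {e // fE e = i} × Bool → Bool ⊕ {v // fV v = some i},
        netP_cond _ _ _ t N ∧ glueF fE fV t N = G) := by
    intro fV t
    refine netP_sum_ind _ fun N N' hN hN' => ?_
    funext i x
    refine netP_map_inj ?_
    rw [← netP_glueF hN.1.1, ← netP_glueF hN'.1.1, hN.2, hN'.2]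
  simp only [h1]
  have h2 : ∀ fV : V → Option I, ∑' t : I × Bool → Bool ⊕ {v // fV v = none},
      ind (∃ N : ∀ i, {e // fE e = i} × Bool → Bool ⊕ {v // fV v = some i},
        netP_cond _ _ _ t N ∧ glueF fE fV t N = G) =
      ind (∃ (t : I × Bool → Bool ⊕ {v // fV v = none})
        (N : ∀ i, {e // fE e = i} × Bool → Bool ⊕ {v // fV v = some i}),
        netP_cond _ _ _ t N ∧ glueF fE fV t N = G) := by
    intro fV
    refine netP_sum_ind _ ?_
    rintro t t' ⟨N, hN, -⟩ ⟨N', hN', -⟩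
    funext x
    rw [hN.1, hN'.1]
  simp only [h2]
  rw [netP_sum_ind]
  · refine netP_ind_congr ⟨?_, fun h => netP_exists h.1 h.2⟩
    rintro ⟨fV, t, N, hN, rfl⟩
    exact ⟨netP_isNet_of hI hN, netP_good_of hN⟩
  · rintro fV fV' ⟨t, N, hN, hG⟩ ⟨t', N', hN', hG'⟩
    funext v
    cases hv : fV v with
    | none => exact hN.2.1.elim ⟨v, hv⟩
    | some i =>
      obtain ⟨⟨o, b⟩, h⟩ := (hN.2.2.2.2 i).1.2.1 (Sum.inr ⟨v, hv⟩)
      cases o with
      | none => exact absurd h Sum.inl_ne_inr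
      | some e =>
        have h' : N i (e, b) = Sum.inr ⟨v, hv⟩ := h
        have h3 : glueF fE fV' t' N' (e.1, b) = Sum.inr v := by
          rw [hG', ← hG, netP_glueF hN.1 i (e, b), h']
          rfl
        rw [netP_fV hN'.1 h3, e.2]

/-- The good labellings are the numberings of the classes. -/
lemma netP_count_good {E V : Type} [Fintype E] (G : E × Bool → Bool ⊕ V) (m : ℕ) :
    ∑' fE : E → Fin m, ind (netP_good G fE) =
      if Nat.card (Quotient (Relation.EqvGen.setoid (netP_adj G))) = m then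
        ((m.factorial : ℕ) : ℝ≥0∞) else 0 := by
  have h1 : ∑' fE : E → Fin m, ind (netP_good G fE) =
      ((Nat.card {fE : E → Fin m // netP_good G fE} : ℕ) : ℝ≥0∞) := by
    unfold ind
    rw [tsum_fintype, Finset.sum_boole, Nat.card_eq_fintype_card, Fintype.card_subtype]
  let φ : (Quotient (Relation.EqvGen.setoid (netP_adj G)) ≃ Fin m) →
      {fE : E → Fin m // netP_good G fE} := fun u =>
    ⟨fun e => u (Quotient.mk _ e), u.surjective.comp Quotient.mk_surjective, fun e e' => by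
      rw [u.apply_eq_iff_eq, Quotient.eq]
      exact Iff.rfl⟩
  have hφ : Function.Bijective φ := by
    constructor
    · intro u u' h
      ext q
      obtain ⟨e, rfl⟩ := Quotient.mk_surjective q
      exact congrArg Fin.val (congrFun (congrArg Subtype.val h) e)
    · rintro ⟨f, hs, hf⟩
      let g : Quotient (Relation.EqvGen.setoid (netP_adj G)) → Fin m :=
        Quotient.lift f fun a b h => (hf a b).2 h
      have hg : Function.Bijective g := by
        constructor
        · intro q q' h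
          obtain ⟨e, rfl⟩ := Quotient.mk_surjective q
          obtain ⟨e', rfl⟩ := Quotient.mk_surjective q'
          exact Quotient.sound ((hf e e').1 h)
        · intro i
          obtain ⟨e, he⟩ := hs i
          exact ⟨Quotient.mk _ e, he⟩
      exact ⟨Equiv.ofBijective g hg, rfl⟩
  rw [h1, ← Nat.card_congr (Equiv.ofBijective φ hφ)]
  split_ifs with h
  · have : Fintype (Quotient (Relation.EqvGen.setoid (netP_adj G))) := Fintype.ofFinite _
    have hc : Fintype.card (Quotient (Relation.EqvGen.setoid (netP_adj G))) = m := by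
      rw [← Nat.card_eq_fintype_card, h]
    rw [Nat.card_eq_fintype_card, Fintype.card_equiv (Fintype.equivFinOfCardEq hc), hc]
  · have : IsEmpty (Quotient (Relation.EqvGen.setoid (netP_adj G)) ≃ Fin m) :=
      ⟨fun u => h (by rw [Nat.card_congr u, Nat.card_eq_fintype_card, Fintype.card_fin])⟩
    rw [Nat.card_of_isEmpty, Nat.cast_zero]

lemma netP_total {E V : Type} [Fintype E] (G : E × Bool → Bool ⊕ V) :
    ∑' j : ℕ, (((j + 2).factorial : ℕ) : ℝ≥0∞)⁻¹ *
      ∑' fE : E → Fin (j + 2), ind (IsNet G ∧ netP_good G fE) = ind (IsNet G ∧ IsP G) := by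
  simp only [← netP_ind_mul, ENNReal.tsum_mul_left, netP_count_good]
  set k := Nat.card (Quotient (Relation.EqvGen.setoid (netP_adj G))) with hk
  have hP : IsP G ↔ 2 ≤ k := by
    rw [netP_isP_iff, hk, ← Nat.lt_iff_add_one_le, Finite.one_lt_card_iff_nontrivial]
    constructor
    · rintro ⟨a, b, h⟩
      exact ⟨⟨Quotient.mk _ a, Quotient.mk _ b, fun he => h (Quotient.exact he)⟩⟩
    · rintro ⟨⟨q, q', h⟩⟩
      obtain ⟨a, rfl⟩ := Quotient.mk_surjective q
      obtain ⟨b, rfl⟩ := Quotient.mk_surjective q'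
      exact ⟨a, b, fun he => h (Quotient.sound he)⟩
  by_cases h2 : 2 ≤ k
  · rw [tsum_eq_single (k - 2)]
    · rw [if_pos (by omega), mul_left_comm, ENNReal.inv_mul_cancel]
      · congr 1
        unfold ind
        rw [if_pos (hP.2 h2)]
      · exact_mod_cast (Nat.factorial_pos _).ne'
      · exact ENNReal.natCast_ne_top _
    · intro j hj
      rw [if_neg (by omega), mul_zero, mul_zero]
  · have : ∀ j : ℕ, ¬k = j + 2 := fun j => by omega
    simp only [this, if_false, mul_zero, tsum_zero]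
    have : ind (IsP G) = 0 := by
      unfold ind
      rw [if_neg fun h => h2 (hP.1 h)]
    rw [this, mul_zero]

lemma netP_cond_inv {I : Type} (W W' : Type) (E V E' V' : I → Type) (w : W ≃ W')
    (e : ∀ i, E i ≃ E' i) (v : ∀ i, V i ≃ V' i) (t : I × Bool → Bool ⊕ W)
    (N : ∀ i, E i × Bool → Bool ⊕ V i) (N' : ∀ i, E' i × Bool → Bool ⊕ V' i)
    (h : ∀ i x, N' i (e i x.1, x.2) = (N i x).map id (v i)) :
    netP_cond W' E' V' (fun x => (t x).map id w) N' ↔ netP_cond W E V t N := by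
  unfold netP_cond
  have h1 : (∀ x, (t x).map id w = Sum.inl x.2) ↔ ∀ x, t x = Sum.inl x.2 := by
    refine forall_congr' fun x => ?_
    cases t x with
    | inl c => simp
    | inr a => simp
  rw [h1, ← w.isEmpty_congr, ← forall_congr' fun i => (e i).finite_iff,
    ← forall_congr' fun i => (v i).finite_iff]
  refine and_congr_right fun _ => and_congr_right fun _ => and_congr_right fun hE =>
    and_congr_right fun hV => forall_congr' fun i => ?_
  rw [isNet_congr (N := N i) (N' := N' i) ⟨(e i).prodCongr (Equiv.refl _), fun _ => rfl⟩ (v i)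
      (h i),
    isP_congr (N := N i) (N' := N' i) ⟨(e i).prodCongr (Equiv.refl _), fun _ => rfl⟩ (v i) (h i)]

lemma netP_left (Ψ : NFun) (hΨ : NInv Ψ) (j : ℕ) :
    ∑' n : ℕ, ((n.factorial : ℕ) : ℝ≥0∞)⁻¹ * ∑' t : Fin j × Bool → Bool ⊕ Fin n,
        ∑' N : Fin j → NG, (∏ i, wt (N i).1 (N i).2.1) *
          ind (netP_cond _ _ _ t fun i => (N i).2.2) * Ψ _ _ (glue t fun i => (N i).2.2) =
      ∑' N : Fin j → NG, (∏ i, wt (N i).1 (N i).2.1) *
        ind (∀ i, IsNet (N i).2.2 ∧ ¬IsP (N i).2.2) *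
          Ψ _ _ (glue (bond j) fun i => (N i).2.2) := by
  rw [tsum_eq_single 0]
  · rw [tsum_eq_single (fun x => Sum.inl x.2)]
    · rw [Nat.factorial_zero, Nat.cast_one, inv_one, one_mul]
      refine tsum_congr fun N => ?_
      congr 1
      · congr 1
        exact netP_ind_congr ⟨fun h => h.2.2.2.2, fun h =>
          ⟨fun _ => rfl, inferInstance, fun _ => inferInstance, fun _ => inferInstance, h⟩⟩
      · refine hΨ _ _ _ _ ⟨Equiv.refl _, fun _ => rfl⟩
          (Equiv.sumCongr (Equiv.equivEmpty (Fin 0)).symm (Equiv.refl _)) _ _ fun x => ?_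
        change glue _ _ x = _
        unfold glue
        dsimp only
        cases (N x.1.1).2.2 (x.1.2, x.2) with
        | inl c => rfl
        | inr a => rfl
    · intro t ht
      refine ENNReal.tsum_eq_zero.2 fun N => ?_
      have : ind (netP_cond _ _ _ t fun i => (N i).2.2) = 0 := by
        unfold ind
        rw [if_neg fun h => ht (funext h.1)]
      rw [this, mul_zero, zero_mul]
  · intro n hn
    refine mul_eq_zero_of_right _ (ENNReal.tsum_eq_zero.2 fun t => ENNReal.tsum_eq_zero.2 fun N => ?_)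
    have : ind (netP_cond _ _ _ t fun i => (N i).2.2) = 0 := by
      unfold ind
      rw [if_neg fun h => h.2.1.elim ⟨0, Nat.pos_of_ne_zero hn⟩]
    rw [this, mul_zero, zero_mul]

lemma netP_right (I : Type) [Fintype I]
    (hI : ∀ (W : Type) [IsEmpty W] (t : I × Bool → Bool ⊕ W), (∀ x, t x = Sum.inl x.2) → IsNet t)
    (Ψ : NFun) (hΨ : NInv Ψ) :
    ∑' n : ℕ, ((n.factorial : ℕ) : ℝ≥0∞)⁻¹ * ∑' t : I × Bool → Bool ⊕ Fin n,
        ∑' N : I → NG, (∏ i, wt (N i).1 (N i).2.1) *
          ind (netP_cond _ _ _ t fun i => (N i).2.2) * Ψ _ _ (glue t fun i => (N i).2.2) =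
      ∑' G : NG, wt G.1 G.2.1 * Ψ _ _ G.2.2 *
        ∑' fE : Fin G.1 → I, ind (IsNet G.2.2 ∧ netP_good G.2.2 fE) := by
  have h := glue_LP I Ψ hΨ (fun W E V t N => ind (netP_cond W E V t N))
    fun W W' E V E' V' w e v t N N' h =>
      netP_ind_congr (netP_cond_inv W W' E V E' V' w e v t N N' h)
  refine Eq.trans (tsum_congr fun n => ?_) (h.trans (tsum_congr fun G => ?_))
  · rw [tsum_fintype]
  · congr 1
    rw [tsum_fintype]
    refine Finset.sum_congr rfl fun fE _ => ?_
    rw [← netP_count hI, tsum_fintype]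
    refine Finset.sum_congr rfl fun fV _ => ?_
    rw [tsum_fintype]
    refine Finset.sum_congr rfl fun t _ => ?_
    exact (tsum_fintype _).symm

theorem net_P (Ψ : NFun) (hΨ : NInv Ψ) :
    ∑' G : NG, wt G.1 G.2.1 * ind (IsNet G.2.2 ∧ IsP G.2.2) * Ψ _ _ G.2.2 =
      ∑' j : ℕ, (((j + 2).factorial : ℕ) : ℝ≥0∞)⁻¹ * ∑' N : Fin (j + 2) → NG,
        (∏ i, wt (N i).1 (N i).2.1) * ind (∀ i, IsNet (N i).2.2 ∧ ¬IsP (N i).2.2) *
          Ψ _ _ (glue (bond (j + 2)) fun i => (N i).2.2) := by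
  have h1 : ∀ j : ℕ, ∑' N : Fin (j + 2) → NG,
        (∏ i, wt (N i).1 (N i).2.1) * ind (∀ i, IsNet (N i).2.2 ∧ ¬IsP (N i).2.2) *
          Ψ _ _ (glue (bond (j + 2)) fun i => (N i).2.2) =
      ∑' G : NG, wt G.1 G.2.1 * Ψ _ _ G.2.2 *
        ∑' fE : Fin G.1 → Fin (j + 2), ind (IsNet G.2.2 ∧ netP_good G.2.2 fE) := by
    intro j
    rw [← netP_left Ψ hΨ (j + 2)]
    exact netP_right (Fin (j + 2)) (fun W _ t ht => netP_isNet_core (by omega) ht) Ψ hΨ
  calc _ = ∑' G : NG, ∑' j : ℕ, (((j + 2).factorial : ℕ) : ℝ≥0∞)⁻¹ * (wt G.1 G.2.1 * Ψ _ _ G.2.2 *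
        ∑' fE : Fin G.1 → Fin (j + 2), ind (IsNet G.2.2 ∧ netP_good G.2.2 fE)) := by
        refine tsum_congr fun G => ?_
        rw [← netP_total G.2.2, mul_right_comm, ← ENNReal.tsum_mul_left]
        refine tsum_congr fun j => ?_
        rw [mul_left_comm]
    _ = _ := by
        rw [ENNReal.tsum_comm]
        refine tsum_congr fun j => ?_
        rw [h1, ENNReal.tsum_mul_left]

end Pool.Agent.Lib.MP_77dff5_pr
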