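import Pool.Agent.Lib.MP_77dff5_pr.NetTAux3

/-! Counting the decompositions of a network along a 3-connected core. -/

set_option autoImplicit false

namespace Pool.Agent.Lib.MP_77dff5_pr

open scoped ENNReal Classical

section
variable {I E V : Type} {fE : E → I}

theorem netT_exists {G : E × Bool → Bool ⊕ V} (hG : IsNet G) (s : I × Bool → Bool ⊕ V)
    (hb : ∀ i, netTb G (fE ⁻¹' {i}) = Set.range fun c => s (i, c)) :
    ∃ (fV : V → Option I) (t : I × Bool → Bool ⊕ {v // fV v = none})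
      (N : ∀ i, {e // fE e = i} × Bool → Bool ⊕ {v // fV v = some i}),
      (∀ x, (t x).map id Subtype.val = s x) ∧ glueF fE fV t N = G ∧
        ∀ w : {v // fV v = none}, ∃ x, t x = Sum.inr w := by
  have hg : ∀ v : V, ∃ e b, G (e, b) = Sum.inr v := by
    intro v
    obtain ⟨⟨o, b⟩, h⟩ := hG.2.1 (Sum.inr v)
    cases o with
    | none => simp [clo] at h
    | some e => exact ⟨e, b, h⟩
  choose g gb hg using hg
  let fV : V → Option I := fun v => if Sum.inr v ∈ Set.range s then none else some (fE (g v))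
  have hnone : ∀ v, fV v = none ↔ Sum.inr v ∈ Set.range s := by
    intro v
    by_cases h : Sum.inr v ∈ Set.range s
    · simp only [fV, if_pos h, h]
    · simp only [fV, if_neg h, h]
      simp
  have hsome : ∀ e b v, G (e, b) = Sum.inr v → (∀ c, s (fE e, c) ≠ Sum.inr v) →
      fV v = some (fE e) := by
    intro e b v h1 h2
    have h3 : ∀ e' b', G (e', b') = Sum.inr v → fE e' = fE e := by
      intro e' b' h3
      by_contra hne
      have : Sum.inr v ∈ netTb G (fE ⁻¹' {fE e}) :=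
        netT_mem_b.2 ⟨⟨e, rfl, b, h1⟩, Or.inr ⟨e', hne, b', h3⟩⟩
      rw [hb] at this
      obtain ⟨c, hc⟩ := this
      exact h2 c hc
    have h4 : Sum.inr v ∉ Set.range s := by
      rintro ⟨⟨j, c⟩, hj⟩
      have : Sum.inr v ∈ netTb G (fE ⁻¹' {j}) := by
        rw [hb]
        exact ⟨c, hj⟩
      obtain ⟨⟨e', he', b', h5⟩, -⟩ := netT_mem_b.1 this
      have h6 : fE e' = j := he'
      rw [← h6, h3 e' b' h5] at hj
      exact h2 c hj
    simp only [fV, if_neg h4]
    rw [h3 _ _ (hg v)]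
  have ht : ∀ x, ∃ y : Bool ⊕ {v // fV v = none}, y.map id Subtype.val = s x := by
    intro x
    cases h : s x with
    | inl c => exact ⟨Sum.inl c, rfl⟩
    | inr v => exact ⟨Sum.inr ⟨v, (hnone v).2 ⟨x, h⟩⟩, rfl⟩
  choose t ht using ht
  have hN : ∀ i (x : {e // fE e = i} × Bool), ∃ y : Bool ⊕ {v // fV v = some i},
      netTtau t i y = G (x.1.1, x.2) := by
    rintro i ⟨⟨e, rfl⟩, b⟩
    by_cases h : ∃ c, s (fE e, c) = G (e, b)
    · obtain ⟨c, hc⟩ := h
      exact ⟨Sum.inl c, (ht _).trans hc⟩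
    · push Not at h
      cases h1 : G (e, b) with
      | inl d =>
        have : G (e, b) ∈ netTb G (fE ⁻¹' {fE e}) :=
          netT_mem_b.2 ⟨⟨e, rfl, b, rfl⟩, Or.inl ⟨d, h1⟩⟩
        rw [hb] at this
        obtain ⟨c, hc⟩ := this
        exact absurd hc (h c)
      | inr v => exact ⟨Sum.inr ⟨v, hsome e b v h1 (by rw [← h1]; exact h)⟩, rfl⟩
  choose N hN using hN
  refine ⟨fV, t, N, ht, ?_, fun w => ?_⟩
  · funext ⟨e, b⟩
    exact (netT_glueF_apply (⟨e, rfl⟩ : {e' // fE e' = fE e}) b).trans (hN _ _)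
  · obtain ⟨x, hx⟩ := (hnone w.1).1 w.2
    exact ⟨x, netT_val_inj ((ht x).trans hx)⟩

theorem netT_none_of {fV fV' : V → Option I} {t : I × Bool → Bool ⊕ {v // fV v = none}}
    {t' : I × Bool → Bool ⊕ {v // fV' v = none}} (ht : IsNet t)
    (h : ∀ x, (t x).map id Subtype.val = (t' x).map id Subtype.val) {v : V} (hv : fV v = none) :
    fV' v = none := by
  obtain ⟨⟨o, c⟩, h1⟩ := ht.2.1 (Sum.inr ⟨v, hv⟩)
  cases o with
  | none => simp [clo] at h1
  | some i =>
    have h2 := h (i, c)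
    rw [show t (i, c) = Sum.inr ⟨v, hv⟩ from h1] at h2
    cases h3 : t' (i, c) with
    | inl d => rw [h3] at h2; simp at h2
    | inr w =>
      rw [h3] at h2
      have h4 : v = w.1 := by simpa using h2
      rw [h4]
      exact w.2

theorem netT_fV_eq {fV fV' : V → Option I} {t : I × Bool → Bool ⊕ {v // fV v = none}}
    {t' : I × Bool → Bool ⊕ {v // fV' v = none}}
    {N : ∀ i, {e // fE e = i} × Bool → Bool ⊕ {v // fV v = some i}}
    {N' : ∀ i, {e // fE e = i} × Bool → Bool ⊕ {v // fV' v = some i}} (ht : IsNet t)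
    (ht' : IsNet t') (hN : ∀ i, IsNet (N i))
    (h : ∀ x, (t x).map id Subtype.val = (t' x).map id Subtype.val)
    (hg : glueF fE fV t N = glueF fE fV' t' N') : fV = fV' := by
  funext v
  cases hv : fV v with
  | none => exact (netT_none_of ht h hv).symm
  | some i =>
    cases hv' : fV' v with
    | none =>
      rw [netT_none_of ht' (fun x => (h x).symm) hv'] at hv
      exact hv.symm
    | some j =>
      obtain ⟨⟨o, b⟩, h1⟩ := (hN i).2.1 (Sum.inr ⟨v, hv⟩)
      cases o with
      | none => simp [clo] at h1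
      | some e =>
        have h2 := netT_glueF_apply (t := t) (N := N) e b
        rw [show N i (e, b) = Sum.inr ⟨v, hv⟩ from h1, hg] at h2
        obtain ⟨h3, -⟩ := netT_inner (w := ⟨v, hv'⟩) h2
        rw [← h3, e.2]

/-- decomposition data with given parts -/
abbrev NetTDec (V : Type) (fE : E → I) : Type :=
  Σ fV : V → Option I, (I × Bool → Bool ⊕ {v // fV v = none}) ×
    ∀ i, {e // fE e = i} × Bool → Bool ⊕ {v // fV v = some i}

variable [Finite I] [Finite E] [Finite V]

theorem netT_card_dec (G : E × Bool → Bool ⊕ V) (fE : E → I) :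
    Nat.card {a : NetTDec V fE //
        (Core3 a.2.1 ∧ ∀ i, IsNet (a.2.2 i)) ∧ glueF fE a.1 a.2.1 a.2.2 = G} =
      Nat.card {s : I × Bool → Bool ⊕ V // ((IsNet G ∧ IsT G) ∧ ∀ i, netTMax G (fE ⁻¹' {i})) ∧
        ∀ i, netTb G (fE ⁻¹' {i}) = Set.range fun c => s (i, c)} := by
  refine Nat.card_congr (Equiv.ofBijective (fun a => ⟨fun x => (a.1.2.1 x).map id Subtype.val,
    ?_⟩) ⟨?_, ?_⟩)
  · obtain ⟨⟨fV, t, N⟩, ⟨ht, hN⟩, rfl⟩ := a
    have hG := netT_isNet_glueF ht.1 hN
    refine ⟨⟨⟨hG, netT_isT_glueF ht hN⟩, netT_fibre_max ht hN⟩, fun i => ?_⟩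
    exact Set.eq_of_subset_of_ncard_le (netT_b_fibre_sub i)
      ((netT_range_bool_le _).trans (netT_two_le hG (netT_fibre_max ht hN i).1))
  · rintro ⟨⟨fV, t, N⟩, ⟨ht, hN⟩, hg⟩ ⟨⟨fV', t', N'⟩, ⟨ht', hN'⟩, hg'⟩ h
    have h1 : ∀ x, (t x).map id Subtype.val = (t' x).map id Subtype.val :=
      fun x => congrFun (congrArg Subtype.val h) x
    dsimp only at ht hN hg ht' hN' hg'
    obtain rfl : fV = fV' := netT_fV_eq ht.1 ht'.1 hN h1 (hg.trans hg'.symm)
    obtain rfl : t = t' := funext fun x => netT_val_inj (h1 x)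
    obtain rfl : N = N' := by
      funext i ⟨e, b⟩
      apply netT_tau_inj (netT_ends_ne ht.1 i)
      rw [← netT_glueF_apply, ← netT_glueF_apply, hg, hg']
    rfl
  · rintro ⟨s, ⟨⟨hG, hT⟩, hmax⟩, hb⟩
    obtain ⟨fV, t, N, h1, rfl, h3⟩ := netT_exists hG s hb
    exact ⟨⟨⟨fV, t, N⟩, netT_good_of hG hT hmax h3, rfl⟩, Subtype.ext (funext h1)⟩

theorem netT_card_orient {α : Type} {S : Set α} (hS : S.ncard = 2) :
    Nat.card {p : Bool → α // S = Set.range p} = 2 := by
  obtain ⟨a, b, hab, rfl⟩ := Set.ncard_eq_two.1 hS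
  have h1 : {p : Bool → α | ({a, b} : Set α) = Set.range p} =
      {fun c => cond c a b, fun c => cond c b a} := by
    ext p
    have hr : Set.range p = {p true, p false} := by
      ext x
      simp [or_comm]
    simp only [Set.mem_ofPred_eq, hr, Set.pair_eq_pair_iff, Set.mem_insert_iff,
      Set.mem_singleton_iff, funext_iff, Bool.forall_bool, cond_true, cond_false]
    constructor
    · rintro (⟨rfl, rfl⟩ | ⟨rfl, rfl⟩) <;> simp
    · rintro (⟨h1, h2⟩ | ⟨h1, h2⟩) <;> simp [h1, h2]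
  have h2 := congrArg Set.ncard h1
  rw [Set.ncard_pair (fun h => hab (congrFun h true))] at h2
  exact h2

omit [Finite E] [Finite V] in
theorem netT_card_s {G : E × Bool → Bool ⊕ V} (hG : IsNet G)
    (hmax : ∀ i, netTMax G (fE ⁻¹' {i})) :
    Nat.card {s : I × Bool → Bool ⊕ V //
      ∀ i, netTb G (fE ⁻¹' {i}) = Set.range fun c => s (i, c)} = 2 ^ Nat.card I := by
  have := Fintype.ofFinite I
  have e : {s : I × Bool → Bool ⊕ V //
      ∀ i, netTb G (fE ⁻¹' {i}) = Set.range fun c => s (i, c)} ≃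
      ∀ i, {p : Bool → Bool ⊕ V // netTb G (fE ⁻¹' {i}) = Set.range p} :=
    { toFun := fun s i => ⟨fun c => s.1 (i, c), s.2 i⟩
      invFun := fun p => ⟨fun x => (p x.1).1 x.2, fun i => (p i).2⟩
      left_inv := fun _ => rfl
      right_inv := fun _ => rfl }
  rw [Nat.card_congr e, Nat.card_pi, Finset.prod_congr rfl fun i _ =>
    netT_card_orient (le_antisymm (hmax i).2.1 (netT_two_le hG (hmax i).1))]
  simp

omit [Finite I] in
theorem netT_card_fE {G : E × Bool → Bool ⊕ V} (hG : IsNet G) (hT : IsT G) :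
    Nat.card {fE : E → I // ∀ i, netTMax G (fE ⁻¹' {i})} =
      Nat.card ({X : Set E // netTMax G X} ≃ I) := by
  choose p hp hp' using netT_max_exists hT
  let q : E → {X : Set E // netTMax G X} := fun e => ⟨p e, hp e⟩
  have hq : ∀ e (X : {X : Set E // netTMax G X}), q e = X ↔ e ∈ X.1 := by
    intro e X
    constructor
    · rintro rfl
      exact hp' e
    · intro h
      exact Subtype.ext (netT_max_unique hG hT (hp e) X.2 ⟨e, hp' e, h⟩)
  symm
  refine Nat.card_congr (Equiv.ofBijective (fun g => ⟨fun e => g (q e), fun i => ?_⟩) ⟨?_, ?_⟩)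
  · have : (fun e => g (q e)) ⁻¹' {i} = (g.symm i).1 := by
      ext e
      rw [← hq, Set.mem_preimage, Set.mem_singleton_iff, Equiv.eq_symm_apply]
    rw [this]
    exact (g.symm i).2
  · intro g g' h
    ext X
    obtain ⟨e, he⟩ := X.2.1
    rw [← (hq e X).2 he]
    exact congrFun (congrArg Subtype.val h) e
  · rintro ⟨fE, hf⟩
    let r : I → {X : Set E // netTMax G X} := fun i => ⟨fE ⁻¹' {i}, hf i⟩
    have hr : Function.Bijective r := by
      constructor
      · intro i j h
        obtain ⟨e, he⟩ := (hf i).1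
        have h1 : e ∈ (r j).1 := by rw [← h]; exact he
        exact (show fE e = i from he).symm.trans h1
      · intro X
        obtain ⟨e, he⟩ := X.2.1
        exact ⟨fE e, Subtype.ext (netT_max_unique hG hT (hf _) X.2 ⟨e, rfl, he⟩)⟩
    refine ⟨(Equiv.ofBijective r hr).symm, Subtype.ext (funext fun e => ?_)⟩
    show (Equiv.ofBijective r hr).symm (q e) = fE e
    rw [Equiv.symm_apply_eq]
    exact (hq e _).2 rfl

end

end Pool.Agent.Lib.MP_77dff5_pr
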