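import Pool.Agent.Lib.MP_77dff5_pr.Net
import Pool.Agent.Lib.MP_77dff5_pr.LabelB
import Pool.Agent.Lib.MP_77dff5_pr.NetTAux4

/-! Tutte's decomposition of networks as identities between labelled sums. -/

set_option autoImplicit false

namespace Pool.Agent.Lib.MP_77dff5_pr

open scoped ENNReal Classical

theorem netT_ind_mul (p q : Prop) : ind p * ind q = ind (p ∧ q) := by
  unfold ind
  by_cases hp : p <;> by_cases hq : q <;> simp [hp, hq]

theorem netT_tsum_ind {A : Type} [Finite A] (P : A → Prop) :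
    ∑' a, ind (P a) = (Nat.card {a // P a} : ℝ≥0∞) := by
  have := Fintype.ofFinite A
  rw [tsum_fintype, Nat.card_eq_fintype_card, Fintype.card_subtype, Finset.card_filter]
  simp [ind]

/-- the indicator of a good decomposition, with finiteness of the labels -/
noncomputable def netTTheta (I : Type) (W : Type) (E V : I → Type) (t : I × Bool → Bool ⊕ W)
    (N : ∀ i, E i × Bool → Bool ⊕ V i) : ℝ≥0∞ :=
  ind ((Finite W ∧ ∀ i, Finite (E i) ∧ Finite (V i)) ∧ Core3 t ∧ ∀ i, IsNet (N i))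

theorem netT_theta_eq {I W : Type} {E V : I → Type} [Finite W] [∀ i, Finite (E i)]
    [∀ i, Finite (V i)] (t : I × Bool → Bool ⊕ W) (N : ∀ i, E i × Bool → Bool ⊕ V i) :
    netTTheta I W E V t N = ind (Core3 t ∧ ∀ i, IsNet (N i)) := by
  unfold netTTheta
  rw [and_iff_right ⟨inferInstance, fun i => ⟨inferInstance, inferInstance⟩⟩]

theorem netT_theta_inv (I : Type) [Finite I] (W W' : Type) (E V E' V' : I → Type) (w : W ≃ W')
    (e : ∀ i, E i ≃ E' i) (v : ∀ i, V i ≃ V' i) (t : I × Bool → Bool ⊕ W)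
    (N : ∀ i, E i × Bool → Bool ⊕ V i) (N' : ∀ i, E' i × Bool → Bool ⊕ V' i)
    (h : ∀ i x, N' i (e i x.1, x.2) = (N i x).map id (v i)) :
    netTTheta I W' E' V' (fun x => (t x).map id w) N' = netTTheta I W E V t N := by
  unfold netTTheta
  have h1 : (Finite W' ∧ ∀ i, Finite (E' i) ∧ Finite (V' i)) ↔
      (Finite W ∧ ∀ i, Finite (E i) ∧ Finite (V i)) :=
    and_congr w.finite_iff.symm
      (forall_congr' fun i => and_congr (e i).finite_iff.symm (v i).finite_iff.symm)
  rw [h1]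
  refine congrArg ind (propext (and_congr_right fun hf => ?_))
  have := hf.1
  have := fun i => (hf.2 i).1
  have := fun i => (hf.2 i).2
  refine and_congr ?_ (forall_congr' fun i => ?_)
  · exact core3_congr ⟨Equiv.refl _, fun _ => rfl⟩ w fun _ => rfl
  · exact isNet_congr ⟨Equiv.prodCongr (e i) (Equiv.refl Bool), fun _ => rfl⟩ (v i) (h i)

theorem netT_inner_sum {I E V : Type} [Finite I] [Finite E] [Finite V] (G : E × Bool → Bool ⊕ V)
    (fE : E → I) :
    ∑' fV : V → Option I, ∑' t : I × Bool → Bool ⊕ {v // fV v = none},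
      ∑' N : ∀ i, {e // fE e = i} × Bool → Bool ⊕ {v // fV v = some i},
        netTTheta I _ _ _ t N * ind (glueF fE fV t N = G) =
      ind (IsNet G ∧ IsT G) * (ind (∀ i, netTMax G (fE ⁻¹' {i})) * 2 ^ Nat.card I) := by
  have h1 : ∑' a : NetTDec V fE, ind ((Core3 a.2.1 ∧ ∀ i, IsNet (a.2.2 i)) ∧
      glueF fE a.1 a.2.1 a.2.2 = G) = ∑' fV : V → Option I,
      ∑' t : I × Bool → Bool ⊕ {v // fV v = none},
      ∑' N : ∀ i, {e // fE e = i} × Bool → Bool ⊕ {v // fV v = some i},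
        netTTheta I _ _ _ t N * ind (glueF fE fV t N = G) := by
    rw [ENNReal.tsum_sigma']
    refine tsum_congr fun fV => ?_
    rw [ENNReal.tsum_prod']
    refine tsum_congr fun t => tsum_congr fun N => ?_
    rw [netT_theta_eq, netT_ind_mul]
  rw [← h1, netT_tsum_ind, netT_card_dec, ← mul_assoc, netT_ind_mul]
  by_cases h : (IsNet G ∧ IsT G) ∧ ∀ i, netTMax G (fE ⁻¹' {i})
  · simp only [h, true_and, and_self, implies_true]
    rw [netT_card_s h.1.1 h.2]
    simp [ind]
  · simp only [h, false_and]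
    simp [ind]

theorem netT_count {E V : Type} [Finite E] [Finite V] (G : E × Bool → Bool ⊕ V) :
    ∑' m : ℕ, ((m.factorial * 2 ^ m : ℕ) : ℝ≥0∞)⁻¹ * ∑' fE : E → Fin m,
      ∑' fV : V → Option (Fin m), ∑' t : Fin m × Bool → Bool ⊕ {v // fV v = none},
      ∑' N : ∀ i, {e // fE e = i} × Bool → Bool ⊕ {v // fV v = some i},
        netTTheta (Fin m) _ _ _ t N * ind (glueF fE fV t N = G) = ind (IsNet G ∧ IsT G) := by
  simp only [netT_inner_sum, ENNReal.tsum_mul_left, ENNReal.tsum_mul_right]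
  by_cases h : IsNet G ∧ IsT G
  · have := Fintype.ofFinite {X : Set E // netTMax G X}
    simp only [netT_tsum_ind, netT_card_fE h.1 h.2]
    rw [tsum_eq_single (Fintype.card {X : Set E // netTMax G X})]
    · rw [Nat.card_eq_fintype_card, Fintype.card_equiv (Fintype.equivFin _), Nat.card_fin]
      have h2 : ind (IsNet G ∧ IsT G) = 1 := if_pos h
      rw [h2, one_mul]
      have h3 : ((Fintype.card {X : Set E // netTMax G X}).factorial : ℝ≥0∞) *
          2 ^ Fintype.card {X : Set E // netTMax G X} =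
          (((Fintype.card {X : Set E // netTMax G X}).factorial *
          2 ^ Fintype.card {X : Set E // netTMax G X} : ℕ) : ℝ≥0∞) := by
        push_cast
        rfl
      rw [h3]
      exact ENNReal.inv_mul_cancel (Nat.cast_ne_zero.2 (by positivity)) (ENNReal.natCast_ne_top _)
    · intro m hm
      have : IsEmpty ({X : Set E // netTMax G X} ≃ Fin m) :=
        ⟨fun e => hm (by rw [Fintype.card_congr e, Fintype.card_fin])⟩
      rw [Nat.card_of_isEmpty]
      simp
  · have h2 : ind (IsNet G ∧ IsT G) = 0 := if_neg h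
    simp [h2]

theorem netT_wt (m n : ℕ) :
    wt m n = ((m.factorial * 2 ^ m : ℕ) : ℝ≥0∞)⁻¹ * ((n.factorial : ℕ) : ℝ≥0∞)⁻¹ := by
  unfold wt
  rw [Nat.cast_mul, ENNReal.mul_inv (Or.inr (ENNReal.natCast_ne_top _))
    (Or.inl (ENNReal.natCast_ne_top _))]

theorem netT_LP (I : Type) [Fintype I] (Ψ : NFun) (hΨ : NInv Ψ) :
    ∑' n : ℕ, ((n.factorial : ℕ) : ℝ≥0∞)⁻¹ * ∑' t : I × Bool → Bool ⊕ Fin n, ∑' N : I → NG,
        (∏ i, wt (N i).1 (N i).2.1) * netTTheta I _ _ _ t (fun i => (N i).2.2) *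
          Ψ _ _ (glue t fun i => (N i).2.2) =
      ∑' G : NG, wt G.1 G.2.1 * Ψ _ _ G.2.2 *
        ∑' fE : Fin G.1 → I, ∑' fV : Fin G.2.1 → Option I,
          ∑' t : I × Bool → Bool ⊕ {v // fV v = none},
            ∑' N : ∀ i, {e // fE e = i} × Bool → Bool ⊕ {v // fV v = some i},
              netTTheta I _ _ _ t N * ind (glueF fE fV t N = G.2.2) := by
  simp only [tsum_fintype]
  exact glue_LP I Ψ hΨ (netTTheta I) (netT_theta_inv I)

theorem net_T (Ψ : NFun) (hΨ : NInv Ψ) :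
    ∑' G : NG, wt G.1 G.2.1 * ind (IsNet G.2.2 ∧ IsT G.2.2) * Ψ _ _ G.2.2 =
      ∑' t : NG, wt t.1 t.2.1 * ind (Core3 t.2.2) * ∑' N : Fin t.1 → NG,
        (∏ i, wt (N i).1 (N i).2.1) * ind (∀ i, IsNet (N i).2.2) *
          Ψ _ _ (glue t.2.2 fun i => (N i).2.2) := by
  have h1 : ∑' t : NG, wt t.1 t.2.1 * ind (Core3 t.2.2) * ∑' N : Fin t.1 → NG,
        (∏ i, wt (N i).1 (N i).2.1) * ind (∀ i, IsNet (N i).2.2) *
          Ψ _ _ (glue t.2.2 fun i => (N i).2.2) =
      ∑' m : ℕ, ((m.factorial * 2 ^ m : ℕ) : ℝ≥0∞)⁻¹ *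
        ∑' n : ℕ, ((n.factorial : ℕ) : ℝ≥0∞)⁻¹ * ∑' t : Fin m × Bool → Bool ⊕ Fin n,
          ∑' N : Fin m → NG, (∏ i, wt (N i).1 (N i).2.1) *
            netTTheta (Fin m) _ _ _ t (fun i => (N i).2.2) *
              Ψ _ _ (glue t fun i => (N i).2.2) := by
    rw [ENNReal.tsum_sigma']
    refine tsum_congr fun m => ?_
    rw [ENNReal.tsum_sigma', ← ENNReal.tsum_mul_left]
    refine tsum_congr fun n => ?_
    rw [← ENNReal.tsum_mul_left, ← ENNReal.tsum_mul_left]
    refine tsum_congr fun t => ?_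
    dsimp only
    rw [netT_wt, mul_assoc, mul_assoc, ← ENNReal.tsum_mul_left (a := ind (Core3 t))]
    refine congrArg _ (congrArg _ (tsum_congr fun N => ?_))
    rw [netT_theta_eq, ← netT_ind_mul]
    ring
  rw [h1]
  refine Eq.trans ?_ (tsum_congr fun m => by
    rw [netT_LP (Fin m) Ψ hΨ, ← ENNReal.tsum_mul_left]).symm
  rw [ENNReal.tsum_comm]
  refine tsum_congr fun G => ?_
  rw [← netT_count G.2.2, mul_right_comm, ← ENNReal.tsum_mul_left]
  refine tsum_congr fun m => ?_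
  ring

end Pool.Agent.Lib.MP_77dff5_pr
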