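import Pool.Agent.Lib.MP_77dff5_pr.MDefs
import Pool.Agent.Lib.MP_77dff5_pr.NetSum

/-! Tutte decomposition of decorated networks. -/

set_option autoImplicit false
set_option linter.unusedSectionVars false

namespace Pool.Agent.Lib.MP_77dff5_pr

open scoped ENNReal NNReal Classical

/-- functionals of decorated graphs with two poles -/
abbrev DecF : Type 1 := ∀ (E V : Type) [Fintype E] [Fintype V],
  (E × Bool → Bool ⊕ V) → (E × Bool → RG) → (V → RG) → ℝ≥0∞

def DecInv (Φ : DecF) : Prop :=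
  ∀ (E V E' V' : Type) [Fintype E] [Fintype V] [Fintype E'] [Fintype V'] (u : DIso E E')
    (e : V ≃ V') (N : E × Bool → Bool ⊕ V) (N' : E' × Bool → Bool ⊕ V') (a' : E' × Bool → RG)
    (b' : V' → RG), (∀ x, N' (u.1 x) = (N x).map id e) →
      Φ E' V' N' a' b' = Φ E V N (fun x => a' (u.1 x)) fun v => b' (e v)

/-- decorations of the darts of a glued network -/
def glueD {I : Type} (Ds : I → DG) : (Σ i, Fin (Ds i).1.1) × Bool → RG :=
  fun x => (Ds x.1.1).2.1 (x.1.2, x.2)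

/-- decorations of the inner vertices of a glued network -/
def glueV {I W : Type} (b : W → RG) (Ds : I → DG) : W ⊕ (Σ i, Fin (Ds i).1.2.1) → RG :=
  Sum.elim b fun v => (Ds v.1).2.2 v.2

/-- labelled decorated networks with property `P` -/
noncomputable def wDP (wd wv : RG → ℝ≥0∞) (P : NG → Prop) : DG → ℝ≥0∞ :=
  wDec (fun N => wt N.1 N.2.1 * ind (IsNet N.2.2 ∧ P N)) wd wv

/-- final degree of a vertex, for arbitrary label types -/
noncomputable def gDeg {E V : Type} [Fintype E] (N : E × Bool → Bool ⊕ V) (a : E × Bool → RG)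
    (b : V → RG) (u : Bool ⊕ V) : ℕ :=
  (∑ x, if N x = u then 1 + rc (a x) else 0) + u.elim (fun _ => 0) fun v => rc (b v)

/-- edges, vertices other than the poles, degree statistic -/
noncomputable def gStat (f : ℕ → ℝ) {E V : Type} [Fintype E] [Fintype V] (N : E × Bool → Bool ⊕ V)
    (a : E × Bool → RG) (b : V → RG) : ℕ × ℕ × ℝ :=
  (Fintype.card E + ∑ x, (a x).1 + ∑ v, (b v).1, Fintype.card V + ∑ x, (a x).2.1 + ∑ v, (b v).2.1,
    ∑ v, f (gDeg N a b (.inr v)) + ∑ x, rF f (a x) + ∑ v, rF f (b v))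

theorem dec_ite {α : Type} {p q : Prop} {hp : Decidable p} {hq : Decidable q} {a b : α}
    (h : p ↔ q) : @ite α p hp a b = @ite α q hq a b := by
  obtain rfl := propext h
  congr

theorem gDeg_eq (D : DG) (u : Bool ⊕ Fin D.1.2.1) : gDeg D.1.2.2 D.2.1 D.2.2 u = dDeg D u := by
  unfold gDeg dDeg
  congr 1
  exact Finset.sum_congr rfl fun x _ => by split_ifs <;> rfl

theorem gStat_eq (f : ℕ → ℝ) (D : DG) : gStat f D.1.2.2 D.2.1 D.2.2 =
    (ne (.inr (.inl D)), nv (.inr (.inl D)), FO f (.inr (.inl D))) := by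
  simp only [gStat, ne, nv, FO, Fintype.card_fin, gDeg_eq]

theorem gDeg_congr {E V E' V' : Type} [Fintype E] [Fintype E'] (u : DIso E E') (e : V ≃ V')
    {N : E × Bool → Bool ⊕ V} {N' : E' × Bool → Bool ⊕ V'} (a' : E' × Bool → RG) (b' : V' → RG)
    (h : ∀ x, N' (u.1 x) = (N x).map id e) (v : Bool ⊕ V) :
    gDeg N' a' b' (v.map id e) = gDeg N (fun x => a' (u.1 x)) (fun v => b' (e v)) v := by
  unfold gDeg
  congr 1
  · rw [← Equiv.sum_comp u.1]
    refine Finset.sum_congr rfl fun x _ => ?_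
    have hi : Function.Injective (Sum.map id e : Bool ⊕ V → Bool ⊕ V') :=
      Sum.map_injective.mpr ⟨Function.injective_id, e.injective⟩
    rw [h]
    exact if_congr hi.eq_iff rfl rfl
  · cases v <;> rfl

theorem dec_card {E E' : Type} [Fintype E] [Fintype E'] (u : DIso E E') :
    Fintype.card E' = Fintype.card E := by
  have h := Fintype.card_congr u.1
  simp only [Fintype.card_prod, Fintype.card_bool] at h
  omega

theorem decInv_gStat (f : ℕ → ℝ) (θ : NFun) (hθ : NInv θ) (ψ : ℕ × ℕ × ℝ → ℝ≥0∞) :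
    DecInv fun _ _ _ _ N a b => θ _ _ N * ψ (gStat f N a b) := by
  intro E V E' V' _ _ _ _ u e N N' a' b' h
  dsimp only
  rw [hθ _ _ _ _ u e N N' h]
  congr 2
  unfold gStat
  have h1 : ∀ v, gDeg N' a' b' (.inr (e v)) =
      gDeg N (fun x => a' (u.1 x)) (fun v => b' (e v)) (.inr v) :=
    fun v => gDeg_congr u e a' b' h (.inr v)
  rw [dec_card u, ← Fintype.card_congr e, ← Equiv.sum_comp u.1 fun x => (a' x).1,
    ← Equiv.sum_comp e fun v => (b' v).1, ← Equiv.sum_comp u.1 fun x => (a' x).2.1,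
    ← Equiv.sum_comp e fun v => (b' v).2.1, ← Equiv.sum_comp u.1 fun x => rF f (a' x),
    ← Equiv.sum_comp e fun v => rF f (b' v),
    ← Equiv.sum_comp e fun v => f (gDeg N' a' b' (.inr v))]
  simp only [h1]

theorem dec_sum_darts {M I : Type} [AddCommMonoid M] [Fintype I] {E : I → Type}
    [∀ i, Fintype (E i)] (g : (Σ i, E i) × Bool → M) :
    ∑ x, g x = ∑ i, ∑ x : E i × Bool, g (⟨i, x.1⟩, x.2) := by
  rw [Fintype.sum_prod_type, Fintype.sum_sigma]
  exact Finset.sum_congr rfl fun i _ =>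
    (Fintype.sum_prod_type fun x : E i × Bool => g (⟨i, x.1⟩, x.2)).symm

theorem dec_prod_darts {M I : Type} [CommMonoid M] [Fintype I] {E : I → Type}
    [∀ i, Fintype (E i)] (g : (Σ i, E i) × Bool → M) :
    ∏ x, g x = ∏ i, ∏ x : E i × Bool, g (⟨i, x.1⟩, x.2) := by
  rw [Fintype.prod_prod_type, Fintype.prod_sigma]
  exact Finset.prod_congr rfl fun i _ =>
    (Fintype.prod_prod_type fun x : E i × Bool => g (⟨i, x.1⟩, x.2)).symm

section glue
variable {I W : Type} [Fintype I] [Fintype W] (t : I × Bool → Bool ⊕ W) (Ds : I → DG) (b : W → RG)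

theorem gDeg_glue_inner (v : Σ i, Fin (Ds i).1.2.1) :
    gDeg (glue t fun i => (Ds i).1.2.2) (glueD Ds) (glueV b Ds) (.inr (.inr v)) =
      dDeg (Ds v.1) (.inr v.2) := by
  obtain ⟨j, v⟩ := v
  unfold gDeg dDeg
  congr 1
  rw [dec_sum_darts, Finset.sum_eq_single j]
  · refine Finset.sum_congr rfl fun x _ => dec_ite ?_
    rw [netC_glue]
    rcases (Ds j).1.2.2 x with c | w
    · exact iff_of_false (netC_iota_ne _ _) Sum.inl_ne_inr
    · refine ⟨fun h => ?_, fun h => by rw [h]; rfl⟩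
      have h' : (⟨j, w⟩ : Σ i, Fin (Ds i).1.2.1) = ⟨j, v⟩ := Sum.inr.inj (Sum.inr.inj h)
      rw [sigma_mk_injective h']
  · intro i _ hij
    refine Finset.sum_eq_zero fun x _ => if_neg ?_
    rw [netC_glue]
    rcases (Ds i).1.2.2 x with c | w
    · exact netC_iota_ne _ _
    · exact fun h => hij (congrArg Sigma.fst (Sum.inr.inj (Sum.inr.inj h)))
  · exact fun h => absurd (Finset.mem_univ j) h

theorem gDeg_glue_core (u : Bool ⊕ W) :
    gDeg (glue t fun i => (Ds i).1.2.2) (glueD Ds) (glueV b Ds) (u.map id Sum.inl) =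
      (∑ x, if t x = u then dDeg (Ds x.1) (.inl x.2) else 0) +
        u.elim (fun _ => 0) fun v => rc (b v) := by
  unfold gDeg
  congr 1
  · rw [dec_sum_darts, Fintype.sum_prod_type]
    refine Finset.sum_congr rfl fun i _ => ?_
    have h1 : ∀ c : Bool, (if t (i, c) = u then dDeg (Ds i) (.inl c) else 0) =
        ∑ x, if (Ds i).1.2.2 x = .inl c ∧ t (i, c) = u then 1 + rc ((Ds i).2.1 x) else 0 := by
      intro c
      by_cases h : t (i, c) = u
      · simp only [h, and_true, if_true, dDeg, Sum.elim_inl, add_zero]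
      · simp only [h, and_false, if_false, Finset.sum_const_zero]
    rw [Finset.sum_congr rfl fun c _ => h1 c, Finset.sum_comm]
    refine Finset.sum_congr rfl fun x _ => ?_
    rw [netC_glue]
    rcases (Ds i).1.2.2 x with c | w
    · rw [Finset.sum_eq_single c]
      · exact dec_ite (netC_iota_inj.eq_iff.trans (by simp))
      · intro d _ hd
        exact if_neg fun h => hd (Sum.inl.inj h.1).symm
      · exact fun h => absurd (Finset.mem_univ c) h
    · rw [if_neg (show ¬netC_phi (fun i => Fin (Ds i).1.2.1) t i (Sum.inr w) =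
        Sum.map id Sum.inl u from fun h => netC_iota_ne _ _ (Eq.symm h))]
      exact (Finset.sum_eq_zero fun d _ => if_neg fun h => Sum.inr_ne_inl h.1).symm
  · cases u <;> rfl

theorem gStat_glue (f : ℕ → ℝ) :
    gStat f (glue t fun i => (Ds i).1.2.2) (glueD Ds) (glueV b Ds) =
      (∑ i, ne (.inr (.inl (Ds i))) + ∑ v, (b v).1,
        Fintype.card W + ∑ i, nv (.inr (.inl (Ds i))) + ∑ v, (b v).2.1,
        ∑ v, f ((∑ x, if t x = .inr v then dDeg (Ds x.1) (.inl x.2) else 0) + rc (b v)) +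
          ∑ i, FO f (.inr (.inl (Ds i))) + ∑ v, rF f (b v)) := by
  have h1 : ∀ v : W, gDeg (glue t fun i => (Ds i).1.2.2) (glueD Ds) (glueV b Ds) (.inr (.inl v)) =
      (∑ x, if t x = .inr v then dDeg (Ds x.1) (.inl x.2) else 0) + rc (b v) :=
    fun v => gDeg_glue_core t Ds b (.inr v)
  unfold gStat
  refine Prod.ext ?_ (Prod.ext ?_ ?_)
  · dsimp only
    rw [dec_sum_darts fun x => (glueD Ds x).1]
    simp only [Fintype.sum_sum_type, Fintype.sum_sigma,
      Fintype.card_sigma, Fintype.card_fin, ne, Finset.sum_add_distrib, glueD, glueV,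
      Sum.elim_inl, Sum.elim_inr, Prod.mk.eta]
    omega
  · dsimp only
    rw [show ∑ x, (glueD Ds x).2.1 = ∑ i, ∑ x, ((Ds i).2.1 x).2.1 from
      dec_sum_darts fun x => (glueD Ds x).2.1]
    simp only [Fintype.sum_sum_type, Fintype.sum_sigma,
      Fintype.card_sigma, Fintype.card_sum, Fintype.card_fin, nv, Finset.sum_add_distrib,
      glueV, Sum.elim_inl, Sum.elim_inr]
    omega
  · dsimp only
    rw [dec_sum_darts fun x => rF f (glueD Ds x), Fintype.sum_sum_type, Fintype.sum_sum_type,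
      Fintype.sum_sigma, Fintype.sum_sigma]
    simp only [h1, gDeg_glue_inner]
    simp only [FO, Finset.sum_add_distrib, glueD, glueV, Sum.elim_inl, Sum.elim_inr]
    ring

end glue

/-- sum over the decorations -/
noncomputable def decPsi (wd wv : RG → ℝ≥0∞) (Φ : DecF) : NFun := fun E V _ _ N =>
  ∑' p : (E × Bool → RG) × (V → RG), (∏ x, wd (p.1 x)) * (∏ v, wv (p.2 v)) * Φ E V N p.1 p.2

theorem decPsi_inv (wd wv : RG → ℝ≥0∞) {Φ : DecF} (hΦ : DecInv Φ) : NInv (decPsi wd wv Φ) := by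
  intro E V E' V' _ _ _ _ u e N N' h
  unfold decPsi
  rw [← (Equiv.prodCongr (Equiv.arrowCongr u.1.symm (Equiv.refl RG))
    (Equiv.arrowCongr e.symm (Equiv.refl RG))).tsum_eq]
  refine tsum_congr fun p => ?_
  rw [hΦ _ _ _ _ u e N N' _ _ h, ← Equiv.prod_comp u.1 fun x => wd (p.1 x),
    ← Equiv.prod_comp e fun v => wv (p.2 v)]
  rfl

theorem dec_left (wd wv : RG → ℝ≥0∞) (Φ : DecF) (w : NG → ℝ≥0∞) :
    ∑' D : DG, wDec w wd wv D * Φ _ _ D.1.2.2 D.2.1 D.2.2 =
      ∑' G : NG, w G * decPsi wd wv Φ _ _ G.2.2 := by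
  rw [ENNReal.tsum_sigma']
  refine tsum_congr fun G => ?_
  unfold decPsi
  rw [← ENNReal.tsum_mul_left]
  refine tsum_congr fun p => ?_
  simp only [wDec, mul_assoc]

/-- decorations of a glued network -/
def decEquiv (I W : Type) : (I → DG) × (W → RG) ≃
    Σ N : I → NG, ((Σ i, Fin (N i).1) × Bool → RG) × (W ⊕ (Σ i, Fin (N i).2.1) → RG) where
  toFun p := ⟨fun i => (p.1 i).1, glueD p.1, glueV p.2 p.1⟩
  invFun q := (fun i => ⟨q.1 i, fun x => q.2.1 (⟨i, x.1⟩, x.2), fun v => q.2.2 (.inr ⟨i, v⟩)⟩,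
    fun w => q.2.2 (.inl w))
  left_inv _ := rfl
  right_inv q := by
    obtain ⟨N, a, c⟩ := q
    refine congrArg (Sigma.mk N) (Prod.ext rfl (funext fun v => ?_))
    cases v <;> rfl

theorem dec_glue (wd wv : RG → ℝ≥0∞) (Φ : DecF) {I W : Type} [Fintype I] [Fintype W]
    (t : I × Bool → Bool ⊕ W) (w : I → NG → ℝ≥0∞) :
    ∑' N : I → NG, (∏ i, w i (N i)) * decPsi wd wv Φ _ _ (glue t fun i => (N i).2.2) =
      ∑' Ds : I → DG, ∑' b : W → RG, (∏ i, wDec (w i) wd wv (Ds i)) * (∏ v, wv (b v)) *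
        Φ _ _ (glue t fun i => (Ds i).1.2.2) (glueD Ds) (glueV b Ds) := by
  unfold decPsi
  simp only [← ENNReal.tsum_mul_left]
  rw [← ENNReal.tsum_sigma, ← (decEquiv I W).tsum_eq, ENNReal.tsum_prod']
  refine tsum_congr fun Ds => tsum_congr fun b => ?_
  change (∏ i, w i (Ds i).1) * ((∏ x, wd (glueD Ds x)) * (∏ v, wv (glueV b Ds v)) *
    Φ _ _ (glue t fun i => (Ds i).1.2.2) (glueD Ds) (glueV b Ds)) = _
  rw [dec_prod_darts, Fintype.prod_sum_type, Fintype.prod_sigma]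
  simp only [wDec, Finset.prod_mul_distrib, glueD, glueV, Sum.elim_inl, Sum.elim_inr]
  ring

theorem dec_ind_forall {I : Type} [Fintype I] (p : I → Prop) :
    ind (∀ i, p i) = ∏ i, ind (p i) := by
  unfold ind
  by_cases h : ∀ i, p i
  · simp [h]
  · rw [if_neg h]
    obtain ⟨i, hi⟩ := not_forall.mp h
    exact (Finset.prod_eq_zero (Finset.mem_univ i) (if_neg hi)).symm

variable (wd wv : RG → ℝ≥0∞) (Φ : DecF) (hΦ : DecInv Φ)
include hΦ

theorem dec_E : ∑' D : DG, wDP wd wv (fun N => IsE N.2.2) D * Φ _ _ D.1.2.2 D.2.1 D.2.2 =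
    ∑' a : Fin 1 × Bool → RG, (∏ x, wd (a x)) * Φ _ _ edgeN a Fin.elim0 := by
  unfold wDP
  rw [dec_left, net_E _ (decPsi_inv wd wv hΦ)]
  unfold decPsi
  rw [ENNReal.tsum_prod']
  refine tsum_congr fun a => ?_
  rw [tsum_eq_single Fin.elim0 fun b hb => absurd (Subsingleton.elim _ _) hb]
  simp

theorem dec_S : ∑' D : DG, wDP wd wv (fun N => IsS N.2.2) D * Φ _ _ D.1.2.2 D.2.1 D.2.2 =
    ∑' Ds : Fin 2 → DG, ∑' b : Unit → RG,
      wDP wd wv (fun N => ¬IsS N.2.2) (Ds 0) * wDP wd wv (fun _ => True) (Ds 1) * wv (b ()) *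
        Φ _ _ (glue tri fun i => (Ds i).1.2.2) (glueD Ds) (glueV b Ds) := by
  have h := dec_glue wd wv Φ tri ![fun N => wt N.1 N.2.1 * ind (IsNet N.2.2 ∧ ¬IsS N.2.2),
    fun N => wt N.1 N.2.1 * ind (IsNet N.2.2 ∧ True)]
  unfold wDP
  rw [dec_left, net_S _ (decPsi_inv wd wv hΦ)]
  refine Eq.trans (tsum_congr fun N => ?_)
    (h.trans (tsum_congr fun Ds => tsum_congr fun b => ?_))
  · congr 1
    have h2 : ind ((IsNet (N 0).2.2 ∧ ¬IsS (N 0).2.2) ∧ IsNet (N 1).2.2) =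
        ind (IsNet (N 0).2.2 ∧ ¬IsS (N 0).2.2) * ind (IsNet (N 1).2.2 ∧ True) := by
      unfold ind
      rw [ite_zero_mul_ite_zero, and_true, one_mul]
      congr
    rw [h2, Fin.prod_univ_two, Fin.prod_univ_two]
    exact mul_mul_mul_comm _ _ _ _
  · rw [Fin.prod_univ_two, Fintype.prod_unique]
    rfl

theorem dec_P : ∑' D : DG, wDP wd wv (fun N => IsP N.2.2) D * Φ _ _ D.1.2.2 D.2.1 D.2.2 =
    ∑' j : ℕ, (((j + 2).factorial : ℕ) : ℝ≥0∞)⁻¹ * ∑' Ds : Fin (j + 2) → DG,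
      (∏ i, wDP wd wv (fun N => ¬IsP N.2.2) (Ds i)) *
        Φ _ _ (glue (bond (j + 2)) fun i => (Ds i).1.2.2) (glueD Ds) (glueV Empty.elim Ds) := by
  unfold wDP
  rw [dec_left, net_P _ (decPsi_inv wd wv hΦ)]
  refine tsum_congr fun j => ?_
  congr 1
  have h := dec_glue wd wv Φ (bond (j + 2))
    fun _ N => wt N.1 N.2.1 * ind (IsNet N.2.2 ∧ ¬IsP N.2.2)
  refine Eq.trans (tsum_congr fun N => ?_) (h.trans (tsum_congr fun Ds => ?_))
  · rw [dec_ind_forall, Finset.prod_mul_distrib]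
  · rw [tsum_eq_single Empty.elim fun b hb => absurd (Subsingleton.elim _ _) hb]
    simp

theorem dec_T : ∑' D : DG, wDP wd wv (fun N => IsT N.2.2) D * Φ _ _ D.1.2.2 D.2.1 D.2.2 =
    ∑' t : NG, wt t.1 t.2.1 * ind (Core3 t.2.2) * ∑' Ds : Fin t.1 → DG, ∑' b : Fin t.2.1 → RG,
      (∏ i, wDP wd wv (fun _ => True) (Ds i)) * (∏ v, wv (b v)) *
        Φ _ _ (glue t.2.2 fun i => (Ds i).1.2.2) (glueD Ds) (glueV b Ds) := by
  unfold wDP
  rw [dec_left, net_T _ (decPsi_inv wd wv hΦ)]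
  refine tsum_congr fun t => ?_
  congr 1
  have h := dec_glue wd wv Φ t.2.2 fun _ N => wt N.1 N.2.1 * ind (IsNet N.2.2 ∧ True)
  refine Eq.trans (tsum_congr fun N => ?_) h
  rw [dec_ind_forall, Finset.prod_mul_distrib]
  simp only [and_true]

end Pool.Agent.Lib.MP_77dff5_pr
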