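import Pool.Agent.Lib.MP_77dff5_pr.PartA
import Pool.Agent.Lib.MP_77dff5_pr.Dec

/-! Small elements of the classes. -/

set_option autoImplicit false

namespace Pool.Agent.Lib.MP_77dff5_pr

open scoped ENNReal NNReal Classical

variable {x y : ℝ≥0∞} {wv : RG → ℝ≥0∞}

theorem atoms_wt_ne (m n : ℕ) : wt m n ≠ 0 :=
  ENNReal.inv_ne_zero.2 (ENNReal.natCast_ne_top _)

theorem atoms_ind {p : Prop} (h : p) : ind p = 1 := if_pos h

theorem atoms_deg {D V : Type} [Fintype D] [DecidableEq V] (ν : D → V) (v : V) :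
    deg ν v = ∑ x, if ν x = v then 1 else 0 := by
  rw [deg, Nat.card_eq_fintype_card, Fintype.card_subtype, Finset.card_filter]

theorem atoms_rc_triv : rc triv = 0 := by
  rw [rc, atoms_deg]
  exact Finset.sum_eq_zero fun x _ => x.1.elim0

theorem wM_triv : wM x y triv = 1 := by
  rw [wM, w0, rconn_triv.2.1, atoms_ind rconn_triv.1]
  simp [wt, triv]

theorem wC_triv : wC x triv = x := by
  rw [wC, atoms_ind ⟨rconn_triv.1, rconn_triv.2.2, by rw [rconn_triv.2.1]; exact one_ne_zero⟩]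
  simp [wt, triv]

/-- the empty graph -/
theorem atom_G : ∃ ν : UG, wG x ν = 1 ∧ ν.2.1 = 0 ∧ ∀ ν' : UG, ν'.2.1 = 0 → ν' = ν := by
  refine ⟨⟨0, 0, fun x => x.1.elim0⟩, ?_, rfl, ?_⟩
  · have h1 : Simple (fun x : Fin 0 × Bool => (x.1.elim0 : Fin 0)) :=
      ⟨fun x => x.1.elim0, fun x => x.1.elim0⟩
    have h2 : PlanarU (fun x : Fin 0 × Bool => (x.1.elim0 : Fin 0)) := by
      refine ⟨1, fun x => x.1.elim0, ?_⟩
      have e1 : ncyc (1 * flp (Fin 0)) = 0 := by
        rw [one_mul, ncyc_flp]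
        simp
      have e2 : comps (fun x : Fin 0 × Bool => (x.1.elim0 : Fin 0)) = 0 := by
        unfold comps
        have : IsEmpty (Quot fun u v : Fin 0 => ∃ x : Fin 0 × Bool, (x.1.elim0 : Fin 0) = u ∧
            ((flp (Fin 0) x).1.elim0 : Fin 0) = v) := ⟨fun q => by
          induction q using Quot.ind with
          | mk a => exact a.elim0⟩
        exact Nat.card_of_isEmpty
      rw [e1, e2, Set.eq_empty_of_isEmpty (Set.range _)ᶜ]
      simp
    rw [wG, atoms_ind ⟨h1, h2⟩]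
    simp [wt]
  · rintro ⟨m, n, ν⟩ hn
    obtain rfl : n = 0 := hn
    obtain rfl : m = 0 := by
      by_contra hm
      exact (ν (⟨0, Nat.pos_of_ne_zero hm⟩, true)).elim0
    congr
    funext x
    exact x.1.elim0

/-- a network with trivial decorations -/
def atoms_dec (N : NG) : DG := ⟨N, fun _ => triv, fun _ => triv⟩

theorem atoms_ne (N : NG) : ne (.inr (.inl (atoms_dec N))) = N.1 := by
  simp [ne, atoms_dec, triv]

theorem atoms_nv (N : NG) : nv (.inr (.inl (atoms_dec N))) = N.2.1 := by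
  simp [nv, atoms_dec, triv]

theorem atoms_clsA (hy : y ≠ 0) {P : NG → Prop} {m : ℕ} {N : Fin m × Bool → Bool ⊕ Fin 0}
    (h1 : IsNet N) (h2 : P ⟨m, 0, N⟩) (h3 : emb (clo N) (flp _) ≠ 0) :
    clsA x y P (.inr (.inl (atoms_dec ⟨m, 0, N⟩))) ≠ 0 := by
  change wNA y P ⟨m, 0, N⟩ * (∏ _x : Fin m × Bool, wM x y triv) *
    (∏ _v : Fin 0, wTriv x triv) ≠ 0
  rw [wM_triv, wNA, atoms_ind ⟨h1, h2⟩]
  simp only [Finset.prod_const_one, Finset.univ_eq_empty, Finset.prod_empty, mul_one]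
  exact mul_ne_zero (mul_ne_zero (atoms_wt_ne _ _) (by exact_mod_cast h3)) (pow_ne_zero _ hy)

theorem atoms_clsB {P : NG → Prop} {N : NG} (h : N.2.1 = 0 ∨ wv triv ≠ 0)
    (h1 : IsNet N.2.2) (h2 : P N) (h3 : Simple N.2.2) (h4 : emb (clo N.2.2) (flp _) ≠ 0) :
    clsB wv P (.inr (.inl (atoms_dec N))) ≠ 0 := by
  change wNB P N * (∏ _x : Fin N.1 × Bool, wTriv 1 triv) * (∏ _v : Fin N.2.1, wv triv) ≠ 0
  rw [wNB, atoms_ind ⟨h1, h2, h3, h4⟩, wTriv, atoms_ind rfl]
  simp only [Finset.prod_const_one, mul_one, Finset.prod_const, Finset.card_univ,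
    Fintype.card_fin]
  refine mul_ne_zero (atoms_wt_ne _ _) ?_
  rcases h with h | h
  · rw [h, pow_zero]
    exact one_ne_zero
  · exact pow_ne_zero _ h

theorem atoms_edge_deg (b : Bool) : dDeg (atoms_dec ⟨1, 0, edgeN⟩) (.inl b) = 1 := by
  change (∑ x : Fin 1 × Bool, if edgeN x = Sum.inl b then 1 + rc triv else 0) + 0 = 1
  rw [atoms_rc_triv, Fintype.sum_prod_type, Fin.sum_univ_one, Fintype.sum_bool]
  cases b <;> simp [edgeN]

/-- the single edge with trivial corners -/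
theorem atomA_E (hy : y ≠ 0) : ∃ ω, lhsA x y .E ω ≠ 0 ∧ aO ω = 1 ∧ bO ω = 1 ∧ dirO ω = 1 ∧
    sA ω = 0 := by
  refine ⟨.inr (.inl (atoms_dec ⟨1, 0, edgeN⟩)), ?_, atoms_edge_deg true, atoms_edge_deg false,
    ?_, ?_⟩
  · exact atoms_clsA hy isNet_edgeN.1 isNet_edgeN.2.1 (by rw [emb_edgeN]; exact one_ne_zero)
  · change Nat.card {x : Fin 1 × Bool // edgeN x = .inl true ∧
      edgeN (flp _ x) = .inl false} = 1
    rw [Nat.card_eq_one_iff_exists]
    refine ⟨⟨(0, true), rfl, rfl⟩, ?_⟩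
    rintro ⟨⟨e, b⟩, h1, h2⟩
    obtain rfl : b = true := Sum.inl.inj h1
    obtain rfl : e = 0 := Subsingleton.elim _ _
    rfl
  · change ne _ - nv _ - 1 = 0
    rw [atoms_ne, atoms_nv]
    rfl

/-- the double edge with trivial corners -/
theorem atomA_P (hy : y ≠ 0) : ∃ ω, lhsA x y .P ω ≠ 0 ∧ sA ω = 1 := by
  let N : Fin 2 × Bool → Bool ⊕ Fin 0 := fun x => Sum.inl x.2
  have h : ∀ x, N ((labelA_refl (Fin 2)).1 x) =
      (bond 2 x).map id (Equiv.equivOfIsEmpty Empty (Fin 0)) := fun _ => rfl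
  refine ⟨.inr (.inl (atoms_dec ⟨2, 0, N⟩)), ?_, ?_⟩
  · refine atoms_clsA hy ((isNet_congr _ _ h).2 (isNet_bond (by norm_num))) ?_ ?_
    · refine ⟨{0}, ⟨0, rfl⟩, ⟨1, by simp⟩, ?_⟩
      rintro (b | v) _
      · exact ⟨b, rfl⟩
      · exact v.elim0
    · rw [emb_clo_congr _ _ h, emb_bond]
      exact Nat.factorial_ne_zero _
  · change ne _ - nv _ - 1 = 1
    rw [atoms_ne, atoms_nv]
    rfl

theorem atomB_E : ∃ ω, lhsB wv x .E ω ≠ 0 ∧ aO ω = 1 ∧ bO ω = 1 ∧ sB ω = 0 := by
  refine ⟨.inr (.inl (atoms_dec ⟨1, 0, edgeN⟩)), ?_, atoms_edge_deg true, atoms_edge_deg false,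
    atoms_nv _⟩
  exact atoms_clsB (Or.inl rfl) isNet_edgeN.1 isNet_edgeN.2.1 isNet_edgeN.2.2
    (by rw [emb_edgeN]; exact one_ne_zero)

/-- the path with two edges -/
theorem atomB_S (h : wv triv ≠ 0) : ∃ ω, lhsB wv x .S ω ≠ 0 ∧ sB ω = 1 := by
  let e : Unit ≃ Fin 1 := Equiv.ofUnique _ _
  let N : Fin 2 × Bool → Bool ⊕ Fin 1 := fun x => (tri x).map id e
  have hN : ∀ x, N ((labelA_refl (Fin 2)).1 x) = (tri x).map id e := fun _ => rfl
  refine ⟨.inr (.inl (atoms_dec ⟨2, 1, N⟩)), ?_, atoms_nv _⟩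
  refine atoms_clsB (Or.inr h) ((isNet_congr _ _ hN).2 isNet_tri) ?_ ?_ ?_
  · refine (isS_congr _ _ hN).2 ⟨{0}, ?_, ?_, ?_⟩
    · have : ∀ x, tri x = Sum.inl true → x.1 = 0 := by decide
      exact this
    · have : ∀ x, tri x = Sum.inl false → ¬x.1 = 0 := by decide
      exact this
    · have hs : bd (clo tri) (some '' ({0} : Set (Fin 2))) ⊆ {Sum.inl true, Sum.inr ()} := by
        rintro v ⟨⟨⟨_, b⟩, ⟨i, rfl, rfl⟩, rfl⟩, -⟩
        cases b
        · exact Or.inr rfl
        · exact Or.inl rfl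
      exact (Set.ncard_le_ncard hs (Set.toFinite _)).trans (Set.ncard_pair (by simp)).le
  · have hs : Simple tri := ⟨by decide, by decide⟩
    exact (simple_congr (labelA_refl (Fin 2)) ((Equiv.refl Bool).sumCongr e) hN).2 hs
  · rw [emb_clo_congr _ _ hN, emb_tri]
    exact one_ne_zero

/-- the tree with parent function `p` -/
def atoms_T {n : ℕ} (p : Fin n → Option (Fin n)) : Fin n × Bool → Option (Fin n) :=
  fun x => if x.2 then p x.1 else some x.1

theorem atoms_T_conn {n : ℕ} {p : Fin n → Option (Fin n)} (hp : ∀ e v, p e = some v → v < e) :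
    RConn (atoms_T p) := by
  refine ⟨?_, ?_⟩
  · rintro (_ | v)
    · exact ⟨none, rfl⟩
    · exact ⟨some (v, false), rfl⟩
  · have key : ∀ (k : ℕ) (e : Fin n), e.1 = k → ∀ b : Bool, Relation.EqvGen
        (fun a b => stem (atoms_T p) a = stem (atoms_T p) b ∨
          b = (flp (Fin n)).optionCongr a) (some (e, b)) none := by
      intro k
      induction k using Nat.strong_induction_on with
      | _ k ih =>
        intro e he
        have h1 : Relation.EqvGen (fun a b => stem (atoms_T p) a = stem (atoms_T p) b ∨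
            b = (flp (Fin n)).optionCongr a) (some (e, true)) none := by
          rcases hq : p e with _ | v
          · exact .rel _ _ (Or.inl hq)
          · refine .trans _ (some (v, false)) _ (.rel _ _ (Or.inl hq)) ?_
            exact ih v.1 (he ▸ hp e v hq) v rfl false
        intro b
        cases b
        · exact .trans _ (some (e, true)) _ (.rel _ _ (Or.inr rfl)) h1
        · exact h1
    have key2 : ∀ a, Relation.EqvGen (fun a b => stem (atoms_T p) a = stem (atoms_T p) b ∨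
        b = (flp (Fin n)).optionCongr a) a none := by
      rintro (_ | ⟨e, b⟩)
      · exact .refl _
      · exact key _ e rfl b
    exact fun a b => .trans _ _ _ (key2 a) (key2 b).symm

theorem atoms_T_simple {n : ℕ} {p : Fin n → Option (Fin n)} (hp : ∀ e v, p e = some v → v < e) :
    Simple (atoms_T p) := by
  refine ⟨?_, ?_⟩
  · rintro ⟨e, _ | _⟩ h
    · exact lt_irrefl _ (hp e e h)
    · exact lt_irrefl _ (hp e e h.symm)
  · rintro ⟨e, _ | _⟩ ⟨e', _ | _⟩ h1 h2
    · rw [show e = e' from Option.some.inj h1]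
    · exact absurd (hp e' e h1.symm) (not_lt.2 (hp e e' h2).le)
    · exact absurd (hp e e' h1) (not_lt.2 (hp e' e h2.symm).le)
    · rw [show e = e' from Option.some.inj h2]

theorem atoms_T_w (hx : x ≠ 0) {n : ℕ} {p : Fin n → Option (Fin n)}
    (hp : ∀ e v, p e = some v → v < e) : wC x ⟨n, n, atoms_T p⟩ ≠ 0 := by
  rw [wC, atoms_ind ⟨atoms_T_conn hp, atoms_T_simple hp, (atoms_T_conn hp).embS_ne_zero rfl⟩,
    mul_one]
  exact mul_ne_zero (atoms_wt_ne _ _) (pow_ne_zero _ hx)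

theorem atoms_T_deg {n : ℕ} (p : Fin n → Option (Fin n)) (o : Option (Fin n)) :
    deg (atoms_T p) o = (∑ e, if p e = o then 1 else 0) + ∑ e, if some e = o then 1 else 0 := by
  rw [atoms_deg, Fintype.sum_prod_type, ← Finset.sum_add_distrib]
  refine Finset.sum_congr rfl fun e _ => ?_
  rw [Fintype.sum_bool]
  rfl

/-- root, centre and `a` leaves -/
def atoms_star (a : ℕ) : Fin (a + 1) → Option (Fin (a + 1)) := Fin.cases none fun _ => some 0

/-- a path -/
def atoms_path (a : ℕ) : Fin (a + 1) → Option (Fin (a + 1)) :=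
  Fin.cases none fun i => some i.castSucc

theorem atoms_star_lt (a : ℕ) : ∀ e v, atoms_star a e = some v → v < e := by
  intro e v
  refine Fin.cases ?_ (fun i => ?_) e
  · intro h
    simp [atoms_star] at h
  · intro h
    obtain rfl : 0 = v := by simpa [atoms_star] using h
    exact Fin.succ_pos i

theorem atoms_path_lt (a : ℕ) : ∀ e v, atoms_path a e = some v → v < e := by
  intro e v
  refine Fin.cases ?_ (fun i => ?_) e
  · intro h
    simp [atoms_path] at h
  · intro h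
    obtain rfl : i.castSucc = v := by simpa [atoms_path] using h
    exact Fin.castSucc_lt_succ

theorem atoms_star_rF (a : ℕ) (f : ℕ → ℝ) :
    rF f ⟨a + 1, a + 1, atoms_T (atoms_star a)⟩ = f (a + 1) + a * f 1 := by
  have h0 : deg (atoms_T (atoms_star a)) (some 0) = a + 1 := by
    rw [atoms_T_deg, Fin.sum_univ_succ]
    simp [atoms_star]
  have h1 : ∀ i : Fin a, deg (atoms_T (atoms_star a)) (some i.succ) = 1 := by
    intro i
    rw [atoms_T_deg, Fin.sum_univ_succ]
    simp [atoms_star, (Fin.succ_ne_zero i).symm]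
  change ∑ v : Fin (a + 1), f (deg (atoms_T (atoms_star a)) (some v)) = _
  rw [Fin.sum_univ_succ, h0]
  simp [h1]

theorem atoms_path_rF (a : ℕ) (f : ℕ → ℝ) :
    rF f ⟨a + 1, a + 1, atoms_T (atoms_path a)⟩ = a * f 2 + f 1 := by
  have h0 : deg (atoms_T (atoms_path a)) (some (Fin.last a)) = 1 := by
    rw [atoms_T_deg, Fin.sum_univ_succ]
    simp [atoms_path]
  have h1 : ∀ i : Fin a, deg (atoms_T (atoms_path a)) (some i.castSucc) = 2 := by
    intro i
    rw [atoms_T_deg, Fin.sum_univ_succ]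
    simp [atoms_path]
  change ∑ v : Fin (a + 1), f (deg (atoms_T (atoms_path a)) (some v)) = _
  rw [Fin.sum_univ_castSucc, h0]
  simp [h1]

/-- a star and a path -/
theorem atoms_tree (hx : x ≠ 0) {k : ℕ} (hk : 1 ≤ k) : ∃ R R' : RG, wC x R ≠ 0 ∧ wC x R' ≠ 0 ∧
    rc R = rc R' ∧ R.1 = R'.1 ∧ R.2.1 = R'.2.1 ∧
    rF (fun d => if d = k then 1 else 0) R ≠ rF (fun d => if d = k then 1 else 0) R' := by
  refine ⟨⟨max (k - 1) 2 + 1, max (k - 1) 2 + 1, atoms_T (atoms_star _)⟩,
    ⟨max (k - 1) 2 + 1, max (k - 1) 2 + 1, atoms_T (atoms_path _)⟩,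
    atoms_T_w hx (atoms_star_lt _), atoms_T_w hx (atoms_path_lt _), ?_, rfl, rfl, ?_⟩
  · change deg (atoms_T (atoms_star _)) none = deg (atoms_T (atoms_path _)) none
    rw [atoms_T_deg, atoms_T_deg, Fin.sum_univ_succ, Fin.sum_univ_succ (f := fun e =>
      if atoms_path _ e = none then 1 else 0)]
    simp [atoms_star, atoms_path]
  · rw [atoms_star_rF, atoms_path_rF]
    obtain rfl | rfl | h3 : k = 1 ∨ k = 2 ∨ 3 ≤ k := by omega
    · norm_num
    · norm_num
    · have e1 : max (k - 1) 2 + 1 = k := by omega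
      rw [if_pos e1, if_neg (by omega), if_neg (by omega)]
      norm_num

end Pool.Agent.Lib.MP_77dff5_pr
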