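import Pool.Agent.Lib.MP_77dff5_pr.EmbBAux1

/-! The number of planar rotation systems of a two-sum. -/

set_option autoImplicit false

namespace Pool.Agent.Lib.MP_77dff5_pr

open Equiv Sum
open scoped Classical

section darts
variable {A B V : Type}

/-- planar rotation systems with two marked corners on one face -/
def EmbBData (ν : A → V) (α : Perm A) (u : Bool → V) : Type :=
  {p : Perm A × (Bool → A) // IsRot ν p.1 ∧ (∀ c, ν (p.2 c) = u c) ∧ Gen0 p.1 α ∧
    (p.1 * α).SameCycle (α⁻¹ (p.2 true)) (α⁻¹ (p.2 false))}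

variable [Finite A] [Finite B] {νA : A → V} {νB : B → V} {u : Bool → V} {αA : Perm A} {αB : Perm B}

lemma embB_count (hu : u true ≠ u false) (sep : ∀ a b, νA a = νB b → ∃ c, νA a = u c)
    (metA : ∀ c, ∃ a, νA a = u c) (metB : ∀ c, ∃ b, νB b = u c)
    (cA : Conn νA αA) (cB : Conn νB αB)
    (huniq : ∀ σ : Perm (A ⊕ B), IsRot (Sum.elim νA νB) σ → Gen0 σ (Perm.sumCongr αA αB) →
      (∀ a a' b b', νA a = νA a' → σ (inl a) = inr b → σ (inl a') = inr b' → a = a') ∨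
      ∀ b b' a a', νB b = νB b' → σ (inr b) = inl a → σ (inr b') = inl a' → b = b') :
    emb (Sum.elim νA νB) (Perm.sumCongr αA αB) =
      Nat.card (EmbBData νA αA u) * Nat.card (EmbBData νB αB u) := by
  have hg : ∀ {γA : Perm A} {lA : Bool → A} {γB : Perm B} {lB : Bool → B}, IsRot νA γA →
      IsRot νB γB → (∀ c, νA (lA c) = u c) →
      (Gen0 (embBJoin γA lA γB lB) (Perm.sumCongr αA αB) ↔
      (Gen0 γA αA ∧ (γA * αA).SameCycle (αA⁻¹ (lA true)) (αA⁻¹ (lA false))) ∧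
      (Gen0 γB αB ∧ (γB * αB).SameCycle (αB⁻¹ (lB true)) (αB⁻¹ (lB false)))) := by
    intro γA lA γB lB rA rB hlA
    refine embBJoin_gen0 ?_ ((conn_iff_trans2 rA _).1 cA) ((conn_iff_trans2 rB _).1 cB)
    rw [rA, hlA, hlA]
    exact hu
  rw [← Nat.card_prod]
  symm
  refine Nat.card_congr (Equiv.ofBijective
    (fun p => ⟨embBJoin p.1.1.1 p.1.1.2 p.2.1.1 p.2.1.2,
      embBJoin_isRot hu sep p.1.2.1 p.2.2.1 p.1.2.2.1 p.2.2.2.1,
      (hg p.1.2.1 p.2.2.1 p.1.2.2.1).2 ⟨p.1.2.2.2, p.2.2.2.2⟩⟩) ⟨?_, ?_⟩)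
  · intro p q hpq
    have h := embBJoin_inj hu p.1.2.2.1 p.2.2.2.1 q.1.2.2.1 q.2.2.2.1 (congrArg Subtype.val hpq)
    exact Prod.ext (Subtype.ext h.1) (Subtype.ext h.2)
  · rintro ⟨σ, hσ, h0⟩
    obtain ⟨γA, lA, γB, lB, rA, rB, hlA, hlB, rfl⟩ :=
      embBJoin_surj hu sep metA metB hσ (huniq σ hσ h0)
    obtain ⟨h1, h2⟩ := (hg rA rB hlA).1 h0
    exact ⟨(⟨(γA, lA), rA, hlA, h1⟩, ⟨(γB, lB), rB, hlB, h2⟩), rfl⟩

lemma embB_card_edge (hu : u true ≠ u false) :
    Nat.card (EmbBData u (swap true false) u) = 1 := by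
  rw [Nat.card_eq_one_iff_unique]
  constructor
  · refine ⟨fun p q => Subtype.ext ?_⟩
    have h : ∀ p : EmbBData u (swap true false) u, p.1 = (1, id) := by
      rintro ⟨⟨γ, l⟩, h1, h2, -⟩
      refine Prod.ext (Equiv.ext fun x => embB_pole_eq hu (h1.embB_apply x)) ?_
      funext c
      exact embB_pole_eq hu (h2 c)
    rw [h p, h q]
  · refine ⟨⟨(1, id), fun x y => ?_, fun c => rfl, ?_, ?_⟩⟩
    · rw [Perm.sameCycle_one]
      exact ⟨fun h => by rw [h], embB_pole_eq hu⟩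
    · have h1 := ncyc_mul_swap_of_not (1 : Perm Bool) (a := true) (b := false)
        (by rw [Perm.sameCycle_one]; simp)
      rw [ncyc_one, one_mul] at h1
      unfold Gen0
      simp only [one_mul, ncyc_one]
      have h2 : Nat.card Bool = 2 := by simp
      have h3 : ncyc (swap true false) = 1 := by
        convert (by omega : ncyc (@swap Bool _ true false) = 1) using 1
      omega
    · refine ⟨1, ?_⟩
      simp

/-- adding the root edge -/
lemma embB_root (hu : u true ≠ u false) (metA : ∀ c, ∃ a, νA a = u c) (cA : Conn νA αA) :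
    emb (Sum.elim νA u) (Perm.sumCongr αA (swap true false)) = Nat.card (EmbBData νA αA u) := by
  rw [embB_count hu (fun a b h => ⟨b, h⟩) metA (fun c => ⟨c, rfl⟩) cA, embB_card_edge hu, mul_one]
  · intro x y
    cases x <;> cases y
    · exact Relation.EqvGen.refl _
    · exact Relation.EqvGen.rel _ _ (Or.inr (by simp))
    · exact Relation.EqvGen.rel _ _ (Or.inr (by simp))
    · exact Relation.EqvGen.refl _
  · intro σ _ _
    exact Or.inr fun b b' _ _ h _ _ => embB_pole_eq hu h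

/-- all darts are linked through the vertices of `U` -/
def EmbBLink (ν : A → V) (α : Perm A) (U : Set V) : Prop :=
  ∀ x y, Relation.EqvGen (fun a b => b = α a ∨ (ν a = ν b ∧ ν a ∈ U)) x y

omit [Finite A] in
lemma EmbBLink.conn {U : Set V} (h : EmbBLink νA αA U) : Conn νA αA := by
  intro x y
  refine Relation.EqvGen.mono ?_ _ _ (h x y)
  rintro a b (h | h)
  · exact Or.inr h
  · exact Or.inl h.1

omit [Finite A] in
lemma EmbBLink.lk {D : Type} {ν : D → V} {α : Perm D} {U : Set V} (h : EmbBLink νA αA U)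
    (j : A → D) (hν : ∀ a, ν (j a) = νA a) (hα : ∀ a, α (j a) = j (αA a)) (x y : A) :
    Lk ν α (Set.range j) (U ∩ Set.range νA) (j x) (j y) := by
  induction h x y with
  | rel a b hab =>
    refine Relation.EqvGen.rel _ _ ⟨⟨a, rfl⟩, ⟨b, rfl⟩, ?_⟩
    rcases hab with rfl | ⟨h1, h2⟩
    · exact Or.inl (hα a).symm
    · exact Or.inr ⟨by rw [hν, hν, h1], by rw [hν]; exact ⟨h2, a, rfl⟩⟩
  | refl a => exact Relation.EqvGen.refl _
  | symm a b _ ih => exact Relation.EqvGen.symm _ _ ih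
  | trans a b c _ _ ih ih' => exact Relation.EqvGen.trans _ _ _ ih ih'

omit [Finite A] [Finite B] in
lemma embB_unique_exit {D : Type} [Finite D] {ν : D → V} {α σ : Perm D}
    (hα : Function.Involutive α) (hσ : IsRot ν σ) (hc : Conn ν α) (h0 : Gen0 σ α)
    (jA : A → D) (jB : B → D) (inj : Function.Injective jA)
    (disj : Disjoint (Set.range jA) (Set.range jB))
    (hνA : ∀ a, ν (jA a) = νA a) (hαA : ∀ a, α (jA a) = jA (αA a))
    (hνB : ∀ b, ν (jB b) = νB b) (hαB : ∀ b, α (jB b) = jB (αB b))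
    (sep : ∀ a b, νA a = νB b → ∃ c, νA a = u c)
    (lA : EmbBLink νA αA {v | ∀ c, v ≠ u c}) (lB : ∀ c, EmbBLink νB αB {v | v ≠ u c})
    (a a' : A) (b b' : B) (h : νA a = νA a') (h1 : σ (jA a) = jB b) (h2 : σ (jA a') = jB b') :
    a = a' := by
  by_contra hne
  have h3 : νA a = νB b := by rw [← hνA, ← hνB, ← h1, hσ.embB_apply]
  obtain ⟨c, hc'⟩ := sep a b h3
  refine crossing hα hσ hc h0 disj (U := {v | ∀ c, v ≠ u c} ∩ Set.range νA)
    (U' := {v | v ≠ u c} ∩ Set.range νB) ?_ (inj.ne hne) (by rw [hνA, hνA, h]) ?_ ?_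
    (lA.lk jA hνA hαA a a') ?_
  · rw [Set.disjoint_left]
    rintro v ⟨h4, x, rfl⟩ ⟨-, y, hy⟩
    obtain ⟨c', h5⟩ := sep x y hy.symm
    exact h4 c' h5
  · rw [hνA]
    exact fun h4 => h4.1 c hc'
  · rw [hνA]
    exact fun h4 => h4.1 hc'
  · rw [h1, h2]
    exact (lB c).lk jB hνB hαB b b'

/-- two-sum on darts -/
lemma embB_two_sum (hαA : Function.Involutive αA) (hαB : Function.Involutive αB)
    (hu : u true ≠ u false) (sep : ∀ a b, νA a = νB b → ∃ c, νA a = u c)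
    (metA : ∀ c, ∃ a, νA a = u c) (metB : ∀ c, ∃ b, νB b = u c)
    (lA : ∀ c, EmbBLink νA αA {v | v ≠ u c}) (lB : ∀ c, EmbBLink νB αB {v | v ≠ u c})
    (h : EmbBLink νA αA {v | ∀ c, v ≠ u c} ∨ EmbBLink νB αB {v | ∀ c, v ≠ u c}) :
    emb (Sum.elim νA νB) (Perm.sumCongr αA αB) =
      emb (Sum.elim νA u) (Perm.sumCongr αA (swap true false)) *
        emb (Sum.elim νB u) (Perm.sumCongr αB (swap true false)) := by
  have cA := (lA true).conn
  have cB := (lB true).conn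
  rw [embB_root hu metA cA, embB_root hu metB cB]
  refine embB_count hu sep metA metB cA cB fun σ hσ h0 => ?_
  have hα : Function.Involutive (Perm.sumCongr αA αB) := by
    rintro (a | b)
    · exact congrArg inl (hαA a)
    · exact congrArg inr (hαB b)
  have hc : Conn (Sum.elim νA νB) (Perm.sumCongr αA αB) := by
    have m : ∀ {U : Set V} {S : Set (A ⊕ B)} {x y : A ⊕ B},
        Lk (Sum.elim νA νB) (Perm.sumCongr αA αB) S U x y →
        Relation.EqvGen (fun a b => Sum.elim νA νB a = Sum.elim νA νB b ∨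
          b = Perm.sumCongr αA αB a) x y := by
      intro U S x y h
      refine Relation.EqvGen.mono ?_ _ _ h
      rintro a b ⟨-, -, h | h⟩
      · exact Or.inr h
      · exact Or.inl h.1
    obtain ⟨a0, ha0⟩ := metA true
    obtain ⟨b0, hb0⟩ := metB true
    have h1 : ∀ x, Relation.EqvGen (fun a b => Sum.elim νA νB a = Sum.elim νA νB b ∨
        b = Perm.sumCongr αA αB a) x (inl a0) := by
      rintro (a | b)
      · exact m ((lA true).lk inl (fun _ => rfl) (fun _ => rfl) a a0)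
      · exact Relation.EqvGen.trans _ _ _ (m ((lB true).lk inr (fun _ => rfl) (fun _ => rfl) b b0))
          (Relation.EqvGen.rel _ _ (Or.inl (hb0.trans ha0.symm)))
    exact fun x y => Relation.EqvGen.trans _ _ _ (h1 x) (Relation.EqvGen.symm _ _ (h1 y))
  have disj : Disjoint (Set.range (inl : A → A ⊕ B)) (Set.range inr) :=
    Set.isCompl_range_inl_range_inr.disjoint
  rcases h with h | h
  · exact Or.inl (embB_unique_exit hα hσ hc h0 inl inr inl_injective disj (fun _ => rfl)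
      (fun _ => rfl) (fun _ => rfl) (fun _ => rfl) sep h lB)
  · refine Or.inr (embB_unique_exit hα hσ hc h0 inr inl inr_injective disj.symm (fun _ => rfl)
      (fun _ => rfl) (fun _ => rfl) (fun _ => rfl) (fun b a hba => ?_) h lA)
    obtain ⟨c, hc'⟩ := sep a b hba.symm
    exact ⟨c, hba.trans hc'⟩

end darts

section edges
variable {E V : Type} [Finite E]

omit [Finite E] in
lemma embB_flp (x : E × Bool) : flp E x = (x.1, !x.2) := rfl

omit [Finite E] in
lemma embB_flp_inv : Function.Involutive (flp E) := fun x => by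
  simp [embB_flp]

/-- number of planar embeddings of the subgraph with edge set `S` -/
noncomputable def embBOn (ω : E × Bool → V) (S : Set E) : ℕ :=
  emb (fun x : S × Bool => ω (x.1.1, x.2)) (flp S)

lemma embBOn_eq {D V' : Type} (ω : E × Bool → V) (S : Set E) {ν : D → V'} {α : Perm D}
    (g : D → E × Bool) (inj : Function.Injective g) (hS : ∀ x, x.1 ∈ S ↔ x ∈ Set.range g)
    (hα : ∀ x, g (α x) = flp E (g x)) (hν : ∀ x y, ω (g x) = ω (g y) ↔ ν x = ν y) :
    embBOn ω S = emb ν α := by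
  have : Finite D := Finite.of_injective g inj
  refine emb_congr (Equiv.ofBijective
    (fun x => ((⟨(g x).1, (hS _).2 ⟨x, rfl⟩⟩ : S), (g x).2)) ⟨?_, ?_⟩) ?_ hν
  · intro x y hxy
    simp only [Prod.mk.injEq, Subtype.mk.injEq] at hxy
    exact inj (Prod.ext hxy.1 hxy.2)
  · rintro ⟨⟨e, he⟩, c⟩
    obtain ⟨x, hx⟩ := (hS (e, c)).1 he
    exact ⟨x, by simp [hx]⟩
  · intro x
    have h1 : (g (α x)).1 = (g x).1 := by rw [hα]; rfl
    have h2 : (g (α x)).2 = !(g x).2 := by rw [hα]; rfl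
    exact Prod.ext (Subtype.ext h1) h2

/-- the edges of `S` are linked through the vertices of `U` -/
def EmbBLinkS (ω : E × Bool → V) (S : Set E) (U : Set V) : Prop :=
  ∀ Y ⊆ S, Y.Nonempty →
    (∀ x y : E × Bool, x.1 ∈ Y → y.1 ∈ S → ω x = ω y → ω x ∈ U → y.1 ∈ Y) → Y = S

omit [Finite E] in
lemma EmbBLinkS.link {ω : E × Bool → V} {S : Set E} {U : Set V} (h : EmbBLinkS ω S U) :
    EmbBLink (fun x : S × Bool => ω (x.1.1, x.2)) (flp S) U := by
  intro x y
  set R := Relation.EqvGen (fun a b : S × Bool => b = flp S a ∨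
    (ω (a.1.1, a.2) = ω (b.1.1, b.2) ∧ ω (a.1.1, a.2) ∈ U)) with hR
  have hf : ∀ (e : S) (c c' : Bool), R (e, c) (e, c') := by
    intro e c c'
    cases c <;> cases c'
    · exact Relation.EqvGen.refl _
    · exact Relation.EqvGen.rel _ _ (Or.inl rfl)
    · exact Relation.EqvGen.rel _ _ (Or.inl rfl)
    · exact Relation.EqvGen.refl _
  have h1 := h {e | ∃ he : e ∈ S, R x (⟨e, he⟩, true)} (fun e he => he.1)
    ⟨x.1.1, x.1.2, hf x.1 x.2 true⟩ (by
      rintro ⟨e, c⟩ ⟨e', c'⟩ ⟨he, h1⟩ he' h2 h3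
      refine ⟨he', Relation.EqvGen.trans _ _ _ h1 (Relation.EqvGen.trans _ _ _ (hf _ true c)
        (Relation.EqvGen.trans _ (⟨e', he'⟩, c') _ ?_ (hf _ c' true)))⟩
      exact Relation.EqvGen.rel _ _ (Or.inr ⟨h2, h3⟩))
  have h2 : y.1.1 ∈ {e | ∃ he : e ∈ S, R x (⟨e, he⟩, true)} := by
    rw [h1]
    exact y.1.2
  exact Relation.EqvGen.trans _ _ _ h2.2 (hf y.1 true y.2)

lemma embBOn_insert (ω : E × Bool → V) {S : Set E} {r : E} (hr : r ∉ S) :
    embBOn ω (insert r S) = emb (Sum.elim (fun x : S × Bool => ω (x.1.1, x.2)) fun c => ω (r, c))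
      (Perm.sumCongr (flp S) (swap true false)) := by
  refine embBOn_eq ω _ (Sum.elim (fun x : S × Bool => (x.1.1, x.2)) fun c => (r, c)) ?_ ?_ ?_ ?_
  · rintro (⟨e, c⟩ | c) (⟨e', c'⟩ | c') h
    · simp only [elim_inl, Prod.mk.injEq] at h
      rw [Subtype.ext h.1, h.2]
    · simp only [elim_inl, elim_inr, Prod.mk.injEq] at h
      exact absurd (h.1 ▸ e.2) hr
    · simp only [elim_inl, elim_inr, Prod.mk.injEq] at h
      exact absurd (h.1 ▸ e'.2) hr
    · simp only [elim_inr, Prod.mk.injEq, true_and] at h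
      rw [h]
  · rintro ⟨e, c⟩
    constructor
    · rintro (rfl | he)
      · exact ⟨inr c, rfl⟩
      · exact ⟨inl (⟨e, he⟩, c), rfl⟩
    · rintro ⟨⟨e', c'⟩ | c', h⟩
      · exact Or.inr ((congrArg Prod.fst h : _ = e) ▸ e'.2)
      · exact Or.inl (congrArg Prod.fst h).symm
  · rintro (⟨e, c⟩ | c)
    · rfl
    · cases c <;> rfl
  · rintro (x | x) (y | y) <;> rfl

/-- two-sum on edge sets -/
lemma embBOn_two_sum (ω : E × Bool → V) {SA SB : Set E} {r : E} (hAB : Disjoint SA SB)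
    (hrA : r ∉ SA) (hrB : r ∉ SB) (hu : ω (r, true) ≠ ω (r, false))
    (sep : ∀ x y : E × Bool, x.1 ∈ SA → y.1 ∈ SB → ω x = ω y → ∃ c, ω x = ω (r, c))
    (metA : ∀ c, ∃ x : E × Bool, x.1 ∈ SA ∧ ω x = ω (r, c))
    (metB : ∀ c, ∃ x : E × Bool, x.1 ∈ SB ∧ ω x = ω (r, c))
    (lA : ∀ c, EmbBLinkS ω SA {v | v ≠ ω (r, c)}) (lB : ∀ c, EmbBLinkS ω SB {v | v ≠ ω (r, c)})
    (h : EmbBLinkS ω SA {v | ∀ c, v ≠ ω (r, c)} ∨ EmbBLinkS ω SB {v | ∀ c, v ≠ ω (r, c)}) :
    embBOn ω (SA ∪ SB) = embBOn ω (insert r SA) * embBOn ω (insert r SB) := by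
  rw [embBOn_insert ω hrA, embBOn_insert ω hrB,
    ← embB_two_sum (u := fun c => ω (r, c)) embB_flp_inv embB_flp_inv hu
      (fun a b => sep (a.1.1, a.2) (b.1.1, b.2) a.1.2 b.1.2)
      (fun c => by obtain ⟨x, hx, h⟩ := metA c; exact ⟨(⟨x.1, hx⟩, x.2), h⟩)
      (fun c => by obtain ⟨x, hx, h⟩ := metB c; exact ⟨(⟨x.1, hx⟩, x.2), h⟩)
      (fun c => (lA c).link) (fun c => (lB c).link) (h.imp EmbBLinkS.link EmbBLinkS.link)]
  refine embBOn_eq ω _ (Sum.elim (fun x : SA × Bool => (x.1.1, x.2))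
    fun x : SB × Bool => (x.1.1, x.2)) ?_ ?_ ?_ ?_
  · rintro (⟨e, c⟩ | ⟨e, c⟩) (⟨e', c'⟩ | ⟨e', c'⟩) h <;>
      simp only [elim_inl, elim_inr, Prod.mk.injEq] at h
    · rw [Subtype.ext h.1, h.2]
    · exact absurd (h.1 ▸ e'.2) (Set.disjoint_left.1 hAB e.2)
    · exact absurd (h.1 ▸ e.2) (Set.disjoint_left.1 hAB e'.2)
    · rw [Subtype.ext h.1, h.2]
  · rintro ⟨e, c⟩
    constructor
    · rintro (he | he)
      · exact ⟨inl (⟨e, he⟩, c), rfl⟩
      · exact ⟨inr (⟨e, he⟩, c), rfl⟩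
    · rintro ⟨⟨e', c'⟩ | ⟨e', c'⟩, h⟩
      · exact Or.inl ((congrArg Prod.fst h : _ = e) ▸ e'.2)
      · exact Or.inr ((congrArg Prod.fst h : _ = e) ▸ e'.2)
  · rintro (⟨e, c⟩ | ⟨e, c⟩) <;> rfl
  · rintro (x | x) (y | y) <;> rfl

omit [Finite E] in
/-- In a nonseparable graph the edges other than `r` are linked off one end of `r`. -/
lemma Nonsep.embB_link [Finite V] {μ : E × Bool → V} (h : Nonsep μ) (r : E) (c : Bool) :
    EmbBLinkS μ {r}ᶜ {v | v ≠ μ (r, c)} := by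
  have key : ∀ Z : Set E, Z ⊆ {r}ᶜ → Z.Nonempty →
      (∀ x y : E × Bool, x.1 ∈ Z → y.1 ∈ ({r}ᶜ : Set E) → μ x = μ y → μ x ≠ μ (r, c) → y.1 ∈ Z) →
      ∃ x : E × Bool, x.1 ∈ Z ∧ μ x = μ (r, !c) ∧ μ x ≠ μ (r, c) := by
    intro Z hZ hne hcl
    by_contra hc
    push Not at hc
    have h1 := h Z hne ⟨r, fun hr => hZ hr rfl⟩
    have h2 : bd μ Z ⊆ {μ (r, c)} := by
      rintro v ⟨⟨x, hx, rfl⟩, y, hy, hxy⟩
      by_contra h3
      by_cases h4 : y.1 = r
      · have h5 : y = (r, c) ∨ y = (r, !c) := by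
          obtain ⟨e, c'⟩ := y
          obtain rfl : e = r := h4
          cases c <;> cases c' <;> simp
        rcases h5 with rfl | rfl
        · exact h3 hxy.symm
        · exact h3 (hc x hx hxy.symm)
      · exact hy (hcl x y hx h4 hxy.symm h3)
    have h3 := Set.ncard_le_ncard h2 (Set.finite_singleton _)
    rw [Set.ncard_singleton] at h3
    omega
  intro Y hY hne hcl
  by_contra hYS
  obtain ⟨x, hx, hx1, hx2⟩ := key Y hY hne hcl
  obtain ⟨y, hy, hy1, -⟩ := key ({r}ᶜ \ Y) Set.sdiff_subset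
    (Set.sdiff_nonempty.2 fun h => hYS (hY.antisymm h)) (by
      intro a b ha hb hab h1
      exact ⟨hb, fun h2 => ha.2 (hcl b a h2 ha.1 hab.symm (hab ▸ h1))⟩)
  exact hy.2 (hcl x y hx hy.1 (hx1.trans hy1.symm) hx2)

end edges

end Pool.Agent.Lib.MP_77dff5_pr
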