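import Pool.Agent.Lib.MP_77dff5_pr.PermB

/-! Cycles of permutations, Euler's inequality, a combinatorial Jordan curve theorem. -/

set_option autoImplicit false

namespace Pool.Agent.Lib.MP_77dff5_pr

open Equiv

section
variable {D D' V : Type} [Finite D]

/-- The lift of a permutation to the double cover. -/
def permCLift (π : Perm D) (c : D → ZMod 2) : Perm (D × ZMod 2) :=
  prodShear π fun x => Equiv.addRight (c x)

omit [Finite D] in
theorem permC_lift_apply (π : Perm D) (c : D → ZMod 2) (x : D) (e : ZMod 2) :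
    permCLift π c (x, e) = (π x, e + c x) := rfl

omit [Finite D] in
theorem permC_pot [Fintype D] (π : Perm D) (c : D → ZMod 2)
    (h : ∀ f : D → ZMod 2, (∀ x, f (π x) = f x) → ∑ x, f x * c x = 0) :
    ∃ p : D → ZMod 2, ∀ x, p (π x) = p x + c x := by
  classical
  let δ : (D → ZMod 2) →ₗ[ZMod 2] (D → ZMod 2) := LinearMap.funLeft _ _ π - LinearMap.id
  by_cases hc : c ∈ LinearMap.range δ
  · obtain ⟨p, hp⟩ := hc
    refine ⟨p, fun x => ?_⟩
    rw [← hp]
    simp [δ]
  obtain ⟨φ, h1, h2⟩ := Submodule.exists_le_ker_of_notMem hc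
  refine absurd ?_ h1
  rw [LinearMap.pi_apply_eq_sum_univ]
  refine Eq.trans ?_ (h (fun i => φ fun j => if i = j then 1 else 0) fun x => ?_)
  · exact Finset.sum_congr rfl fun i _ => by rw [smul_eq_mul, mul_comm]
  · have h3 := h2 (LinearMap.mem_range_self δ fun j => if π x = j then 1 else 0)
    rw [LinearMap.mem_ker, LinearMap.sub_apply, map_sub, sub_eq_zero] at h3
    refine h3.symm.trans (congrArg φ (funext fun j => ?_))
    simp

theorem permC_ncyc {π : Perm D} {c p : D → ZMod 2} (hp : ∀ x, p (π x) = p x + c x) :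
    2 * ncyc π ≤ ncyc (permCLift π c) := by
  have e : Nat.card (Quotient (Perm.SameCycle.setoid π) × ZMod 2) = 2 * ncyc π := by
    rw [Nat.card_prod, Nat.card_zmod, mul_comm]; rfl
  rw [← e]
  refine Nat.card_le_card_of_surjective
    (Quotient.lift (fun z : D × ZMod 2 => (Quotient.mk _ z.1, z.2 - p z.1)) ?_) ?_
  · intro a b hab
    refine permB_sc (π := permCLift π c) hab (fun z => ((Quotient.mk _ a.1, a.2 - p a.1) :
      Quotient (Perm.SameCycle.setoid π) × ZMod 2) = (Quotient.mk _ z.1, z.2 - p z.1)) rfl ?_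
    rintro ⟨x, e⟩ h
    rw [h, permC_lift_apply]
    exact Prod.ext (Quotient.sound Perm.SameCycle.rfl.apply_right) (by simp [hp])
  · rintro ⟨q, e⟩
    obtain ⟨x, rfl⟩ := Quotient.exists_rep q
    exact ⟨Quotient.mk _ (x, e + p x), by simp⟩

omit [Finite D] in
theorem permC_jordan [Fintype D] {σ α : Perm D} (hα : Function.Involutive α) (hc : Trans2 σ α)
    (h0 : Gen0 σ α) (c : D → ZMod 2) (h1 : ∀ x, c (α x) = c x) (h2 : ∀ x, α x = x → c x = 0)
    (h3 : ∀ f : D → ZMod 2, (∀ x, f (σ x) = f x) → ∑ x, f x * c x = 0) :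
    ∃ χ : D → ZMod 2, (∀ x, χ (σ x) = χ x + c x) ∧ ∀ x, χ (α x) = χ x + c x := by
  obtain ⟨p, hp⟩ := permC_pot σ c h3
  obtain ⟨q, hq⟩ := permC_pot α c fun f hf => Finset.sum_involution (fun x _ => α x)
    (fun x _ => by rw [hf, h1, CharTwo.add_self_eq_zero])
    (fun x _ hx e => hx (by rw [h2 x e, mul_zero])) (fun _ _ => Finset.mem_univ _)
    fun x _ => hα x
  have e1 := permC_ncyc hp
  have e2 := permC_ncyc hq
  have e3 := permC_ncyc (π := σ * α) (c := 0) (p := 0) fun _ => by simp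
  have e4 : permCLift σ c * permCLift α c = permCLift (σ * α) 0 := by
    refine Equiv.ext fun ⟨x, e⟩ => ?_
    rw [Perm.mul_apply, permC_lift_apply, permC_lift_apply, permC_lift_apply, h1, add_assoc,
      CharTwo.add_self_eq_zero]
    rfl
  have hn : ¬Trans2 (permCLift σ c) (permCLift α c) := by
    intro ht
    have e5 := euler_le_of_trans2 ht
    rw [e4, Nat.card_prod, Nat.card_zmod] at e5
    unfold Gen0 at h0
    omega
  set R := Relation.EqvGen fun a b => b = permCLift σ c a ∨ b = permCLift α c a with hR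
  have hA : ∀ (t : ZMod 2) (a b : D × ZMod 2), R a b → R (a.1, a.2 + t) (b.1, b.2 + t) := by
    intro t a b h
    induction h with
    | refl => exact .refl _
    | symm _ _ _ ih => exact ih.symm
    | trans _ _ _ _ _ i1 i2 => exact .trans _ _ _ i1 i2
    | rel a b h =>
      obtain ⟨x, e⟩ := a
      rcases h with rfl | rfl
      · exact .rel _ _ (Or.inl (by simp only [permC_lift_apply, add_right_comm]))
      · exact .rel _ _ (Or.inr (by simp only [permC_lift_apply, add_right_comm]))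
  have hB : ∀ x y, ∃ t, ∀ e, R (x, e) (y, e + t) := by
    intro x y
    induction hc x y with
    | refl => exact ⟨0, fun e => by rw [add_zero]; exact .refl _⟩
    | symm _ _ _ ih =>
      obtain ⟨t, ht⟩ := ih
      refine ⟨-t, fun e => ?_⟩
      have := ht (e + -t)
      rw [neg_add_cancel_right] at this
      exact this.symm
    | trans _ _ _ _ _ i1 i2 =>
      obtain ⟨t, ht⟩ := i1
      obtain ⟨s, hs⟩ := i2
      exact ⟨t + s, fun e => by rw [← add_assoc]; exact .trans _ _ _ (ht e) (hs _)⟩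
    | rel x y h =>
      rcases h with rfl | rfl
      · exact ⟨c x, fun e => .rel _ _ (Or.inl rfl)⟩
      · exact ⟨c x, fun e => .rel _ _ (Or.inr rfl)⟩
  have hz : ∀ e e' : ZMod 2, e' = e ∨ e' = e + 1 := by decide
  have hU : ∀ x e e', R (x, e) (x, e') → e = e' := by
    intro x e e' h
    rcases hz e e' with rfl | rfl
    · rfl
    refine absurd (fun a b => ?_) hn
    obtain ⟨t, ht⟩ := hB a.1 x
    obtain ⟨s, hs⟩ := hB b.1 x
    refine .trans _ _ _ (ht a.2) (.trans _ _ _ ?_ (hs b.2).symm)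
    rcases hz (a.2 + t) (b.2 + s) with h' | h' <;> rw [h']
    · exact .refl _
    · have := hA (a.2 + t - e) _ _ h
      rwa [add_sub_cancel, add_right_comm, add_sub_cancel] at this
  rcases isEmpty_or_nonempty D with hD | ⟨⟨x0⟩⟩
  · exact ⟨0, fun x => hD.elim x, fun x => hD.elim x⟩
  choose χ hχ using hB x0
  have hχ' : ∀ x, R (x0, 0) (x, χ x) := fun x => by simpa using hχ x 0
  exact ⟨χ, fun x => hU (σ x) _ _
      (.trans _ _ _ (hχ' _).symm (.trans _ _ _ (hχ' x) (.rel _ _ (Or.inl rfl)))),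
    fun x => hU (α x) _ _
      (.trans _ _ _ (hχ' _).symm (.trans _ _ _ (hχ' x) (.rel _ _ (Or.inr rfl))))⟩

/-- Every cycle of a planar map bounds: the faces can be coloured so that the colour changes
exactly across the darts of `c`. -/
theorem jordan {σ α : Perm D} (hα : Function.Involutive α) (hc : Trans2 σ α) (h0 : Gen0 σ α)
    (c : D → ZMod 2) (h1 : ∀ x, c (α x) = c x) (h2 : ∀ x, α x = x → c x = 0)
    (h3 : ∀ x, ∑ᶠ y ∈ {y | σ.SameCycle x y}, c y = 0) :
    ∃ χ : D → ZMod 2, (∀ x, χ (σ x) = χ x + c x) ∧ ∀ x, χ (α x) = χ x + c x := by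
  classical
  have := Fintype.ofFinite D
  have := Fintype.ofFinite (Quotient (Perm.SameCycle.setoid σ))
  refine permC_jordan hα hc h0 c h1 h2 fun f hf => ?_
  rw [← Finset.sum_fiberwise Finset.univ (Quotient.mk (Perm.SameCycle.setoid σ))]
  refine Finset.sum_eq_zero fun q _ => ?_
  obtain ⟨x, rfl⟩ := Quotient.exists_rep q
  have e : {y | σ.SameCycle x y} = (Finset.univ.filter fun y =>
      Quotient.mk (Perm.SameCycle.setoid σ) y = Quotient.mk _ x : Finset D) := by
    ext y
    simp only [Set.mem_ofPred_eq, Finset.coe_filter, Finset.mem_univ, true_and, Quotient.eq]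
    exact Perm.sameCycle_comm
  have h4 := h3 x
  rw [e, finsum_mem_coe_finset] at h4
  rw [Finset.sum_congr rfl (g := fun y => f x * c y), ← Finset.mul_sum, h4, mul_zero]
  intro y hy
  have hy' : σ.SameCycle y x := Quotient.exact (Finset.mem_filter.1 hy).2
  rw [permB_sc hy' (fun z => f y = f z) rfl fun z hz => hz.trans (hf z).symm]

/-- linked by a walk with darts in `A` and inner vertices in `U` -/
def Lk (ν : D → V) (α : Perm D) (A : Set D) (U : Set V) : D → D → Prop :=
  Relation.EqvGen fun a b => a ∈ A ∧ b ∈ A ∧ (b = α a ∨ (ν a = ν b ∧ ν a ∈ U))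

omit [Finite D] in
theorem permC_chain [Fintype D] [DecidableEq D] {ν : D → V} {α : Perm D}
    (hα : Function.Involutive α) {A : Set D} {U : Set V} {a b : D} (h : Lk ν α A U a b) :
    ∃ c : D → ZMod 2, (∀ x, x ∉ A → c x = 0) ∧ (∀ x, c (α x) = c x) ∧ (∀ x, α x = x → c x = 0) ∧
      (∀ f : D → ZMod 2, (∀ x y, ν x = ν y → f x = f y) → ∑ x, f x * c x = f a + f b) ∧
      ∀ x, ν x ∉ U → c x = (if x = a then 1 else 0) + if x = b then 1 else 0 := by
  induction h with
  | refl a =>
    exact ⟨0, fun _ _ => rfl, fun _ => rfl, fun _ _ => rfl,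
      fun f _ => by simp [CharTwo.add_self_eq_zero], fun x _ => (CharTwo.add_self_eq_zero _).symm⟩
  | symm a b _ ih =>
    obtain ⟨c, c1, c2, c3, c4, c5⟩ := ih
    exact ⟨c, c1, c2, c3, fun f hf => (c4 f hf).trans (add_comm _ _),
      fun x hx => (c5 x hx).trans (add_comm _ _)⟩
  | trans a b d _ _ i1 i2 =>
    obtain ⟨c, c1, c2, c3, c4, c5⟩ := i1
    obtain ⟨c', d1, d2, d3, d4, d5⟩ := i2
    have key : ∀ u v w : ZMod 2, u + v + (v + w) = u + w := by decide
    refine ⟨c + c', fun x hx => by rw [Pi.add_apply, c1 x hx, d1 x hx, add_zero],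
      fun x => by rw [Pi.add_apply, Pi.add_apply, c2, d2],
      fun x hx => by rw [Pi.add_apply, c3 x hx, d3 x hx, add_zero], fun f hf => ?_,
      fun x hx => by rw [Pi.add_apply, c5 x hx, d5 x hx, key]⟩
    simp only [Pi.add_apply, mul_add]
    rw [Finset.sum_add_distrib, c4 f hf, d4 f hf, key]
  | rel a b h =>
    obtain ⟨ha, hb, rfl | ⟨e, hU⟩⟩ := h
    · refine ⟨fun x => (if x = a then 1 else 0) + if x = α a then 1 else 0, fun x hx => ?_,
        fun x => ?_, fun x hx => ?_, fun f _ => ?_, fun _ _ => rfl⟩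
      · have e1 : x ≠ a := fun e => hx (e ▸ ha)
        have e2 : x ≠ α a := fun e => hx (e ▸ hb)
        simp [e1, e2]
      · simp only [hα.eq_iff, hα a, add_comm]
      · have : x = a ↔ x = α a := by
          rw [← hα.eq_iff, hx, eq_comm]
        simp only [this, CharTwo.add_self_eq_zero]
      · simp [mul_add, Finset.sum_add_distrib]
    · refine ⟨0, fun _ _ => rfl, fun _ => rfl, fun _ _ => rfl, fun f hf => ?_, fun x hx => ?_⟩
      · simp [hf a b e, CharTwo.add_self_eq_zero]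
      · have e1 : x ≠ a := fun h => hx (h ▸ hU)
        have e2 : x ≠ b := fun h => hx (h ▸ e ▸ hU)
        simp [e1, e2]

theorem chain_colouring {ν : D → V} {σ α : Perm D} (hα : Function.Involutive α) (hσ : IsRot ν σ)
    (hc : Conn ν α) (h0 : Gen0 σ α) {A : Set D} {U : Set V} {a b : D} (hab : a ≠ b)
    (hp : ν a = ν b) (hU : ν a ∉ U) (h : Lk ν α A U a b) :
    ∃ c χ : D → ZMod 2, (∀ x, c x ≠ 0 → x ∈ A) ∧ c a = 1 ∧ c b = 1 ∧
      (∀ x, ν x ∉ U → x ≠ a → x ≠ b → c x = 0) ∧
      (∀ x, χ (σ x) = χ x + c x) ∧ ∀ x, χ (α x) = χ x + c x := by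
  classical
  have := Fintype.ofFinite D
  obtain ⟨c, c1, c2, c3, c4, c5⟩ := permC_chain hα h
  obtain ⟨χ, h1, h2⟩ := permC_jordan hα ((conn_iff_trans2 hσ α).1 hc) h0 c c2 c3 fun f hf => by
    have hf' : ∀ x y, ν x = ν y → f x = f y := fun x y e =>
      permB_sc ((hσ x y).2 e) (fun z => f x = f z) rfl fun z hz => hz.trans (hf z).symm
    rw [c4 f hf', hf' a b hp, CharTwo.add_self_eq_zero]
  refine ⟨c, χ, fun x hx => by_contra fun hA => hx (c1 x hA), ?_, ?_, fun x hx e1 e2 => ?_, h1, h2⟩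
  · rw [c5 a hU, if_pos rfl, if_neg hab, add_zero]
  · rw [c5 b (hp ▸ hU), if_pos rfl, if_neg hab.symm, zero_add]
  · rw [c5 x hx, if_neg e1, if_neg e2, add_zero]

/-- Two closed walks through a vertex that are otherwise disjoint do not cross. -/
theorem crossing {ν : D → V} {σ α : Perm D} (hα : Function.Involutive α) (hσ : IsRot ν σ)
    (hc : Conn ν α) (h0 : Gen0 σ α) {A A' : Set D} (hA : Disjoint A A') {U U' : Set V}
    (hU : Disjoint U U') {a b : D} (hab : a ≠ b) (hp : ν a = ν b) (h1 : ν a ∉ U) (h2 : ν a ∉ U')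
    (h : Lk ν α A U a b) : ¬Lk ν α A' U' (σ a) (σ b) := by
  classical
  obtain ⟨c, χ, c1, -, c3, c4, c5, c6⟩ := chain_colouring hα hσ hc h0 hab hp h1 h
  have k1 : ∀ x y, Lk ν α A' U' x y → χ x = χ y := by
    intro x y hxy
    induction hxy with
    | refl => rfl
    | symm _ _ _ ih => exact ih.symm
    | trans _ _ _ _ _ i1 i2 => exact i1.trans i2
    | rel x y hxy =>
      obtain ⟨hx, -, rfl | ⟨e, hv⟩⟩ := hxy
      · have : c x = 0 := by_contra fun h' => Set.disjoint_left.1 hA (c1 x h') hx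
        rw [c6, this, add_zero]
      · refine (permB_sc ((hσ x y).2 e) (fun z => ν z = ν x ∧ χ x = χ z) ⟨rfl, rfl⟩ ?_).2
        rintro z ⟨z1, z2⟩
        refine ⟨((hσ _ _).1 Perm.SameCycle.rfl.apply_left).trans z1, ?_⟩
        rw [c5, c4 z (fun h' => Set.disjoint_left.1 hU h' (z1 ▸ hv))
          (fun h' => h2 (h' ▸ z1 ▸ hv)) (fun h' => h2 (hp ▸ h' ▸ z1 ▸ hv)), add_zero, z2]
  have hn := not_sameCycle_mul_swap σ ((hσ a b).2 hp) hab
  have s1 : (σ * swap a b) b = σ a := by rw [Perm.mul_apply, swap_apply_right]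
  have hs : ν (σ a) = ν a := (hσ _ _).1 Perm.SameCycle.rfl.apply_left
  have k2 : χ b = χ (σ a) := by
    refine (permB_sc (π := σ * swap a b) (a := (σ * swap a b) b) (b := b)
      Perm.SameCycle.rfl.apply_left
      (fun z => (σ * swap a b).SameCycle b z ∧ ν z = ν a ∧ χ z = χ (σ a))
      ⟨Perm.SameCycle.rfl.apply_right, by rw [s1, hs], by rw [s1]⟩ ?_).2.2
    rintro z ⟨z1, z2, z3⟩
    refine ⟨z1.apply_right, ?_⟩
    rcases eq_or_ne z b with rfl | e2
    · rw [s1]
      exact ⟨hs, rfl⟩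
    have e1 : z ≠ a := fun e => hn (e ▸ z1).symm
    rw [Perm.mul_apply, swap_apply_of_ne_of_ne e1 e2, c5, c4 z (z2 ▸ h1) e1 e2, add_zero]
    exact ⟨((hσ _ _).1 Perm.SameCycle.rfl.apply_left).trans z2, z3⟩
  intro hl
  have := k1 _ _ hl
  rw [c5 b, c3, k2] at this
  simp at this

end

end Pool.Agent.Lib.MP_77dff5_pr
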