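import Pool.Agent.Lib.MP_77dff5_pr.EmbA
import Pool.Agent.Lib.MP_77dff5_pr.PermC
import Pool.Agent.Lib.MP_77dff5_pr.EmbBAux2

/-! The number of planar embeddings is multiplicative along Tutte's decomposition. -/

set_option autoImplicit false

namespace Pool.Agent.Lib.MP_77dff5_pr

open Sum

lemma Nonsep.embB_met {E V : Type} {μ : E × Bool → V} (h : Nonsep μ) {r : E}
    (hne : ({r}ᶜ : Set E).Nonempty) (c : Bool) : ∃ x : E × Bool, x.1 ≠ r ∧ μ x = μ (r, c) := by
  by_contra hc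
  push Not at hc
  have h1 := h {r} ⟨r, rfl⟩ hne
  have h2 : bd μ {r} ⊆ {μ (r, !c)} := by
    rintro v ⟨⟨⟨e, c'⟩, hx, rfl⟩, y, hy, hxy⟩
    obtain rfl : e = r := hx
    by_cases h3 : c' = c
    · exact absurd (h3 ▸ hxy) (hc y hy)
    · have : c' = !c := by cases c <;> cases c' <;> simp_all
      rw [this]
      rfl
  have h3 := Set.ncard_le_ncard h2 (Set.finite_singleton _)
  rw [Set.ncard_singleton] at h3
  omega

lemma embB_link_notP {E V : Type} {N : E × Bool → Bool ⊕ V} (h : ¬IsP N) :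
    EmbBLinkS (clo N) {none}ᶜ {v | ∀ c, v ≠ inl c} := by
  intro Z hZ hne hcl
  by_contra hc
  have e : some '' {e | some e ∈ Z} = Z := by
    ext o
    constructor
    · rintro ⟨e, he, rfl⟩
      exact he
    · intro ho
      cases o with
      | none => exact absurd rfl (hZ ho)
      | some e => exact ⟨e, ho, rfl⟩
  refine h ⟨{e | some e ∈ Z}, ?_, ?_, ?_⟩
  · rw [← e] at hne
    exact hne.of_image
  · by_contra h1
    refine hc (hZ.antisymm fun o ho => ?_)
    cases o with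
    | none => exact absurd rfl ho
    | some e =>
      by_contra h2
      exact h1 ⟨e, h2⟩
  · rw [e]
    rintro v ⟨⟨x, hx, rfl⟩, ⟨o, c⟩, hy, hxy⟩
    cases o with
    | none => exact ⟨c, hxy⟩
    | some e' =>
      by_contra h1
      exact hy (hcl x (some e', c) hx (by simp) hxy.symm fun c' h2 => h1 ⟨c', h2.symm⟩)

lemma embB_link_bridge {I W : Type} {t : I × Bool → Bool ⊕ W} {i : I} (h : OneBridge t i) :
    EmbBLinkS (clo t) {some i}ᶜ {w | ∀ c, w ≠ t (i, c)} := by
  intro X hX hne hcl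
  refine h X hne (fun h1 => hX h1 rfl) ?_
  rintro v ⟨⟨x, hx, rfl⟩, ⟨o, c⟩, hy, hxy⟩
  have key : ∀ c, clo t x = t (i, c) → clo t x ∈ ({t (i, true), t (i, false)} : Set (Bool ⊕ W)) := by
    intro c hc
    cases c
    · exact Or.inr hc
    · exact Or.inl hc
  by_cases h1 : o = some i
  · subst h1
    exact key c hxy.symm
  · by_contra h2
    exact hy (hcl x (o, c) hx h1 hxy.symm fun c' h3 => h2 (key c' h3))

section concrete
variable {I W : Type} {E V : I → Type}

/-- the core and the parts on one vertex set -/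
def embBω (t : I × Bool → Bool ⊕ W) (N : ∀ i, E i × Bool → Bool ⊕ V i) :
    (Option I ⊕ Σ i, E i) × Bool → Bool ⊕ (W ⊕ Σ i, V i) :=
  fun x => x.1.elim (fun o => (clo t (o, x.2)).map id inl) fun e => glue t N (e, x.2)

/-- the vertices of a part -/
def embBφ (t : I × Bool → Bool ⊕ W) (V : I → Type) (i : I) :
    Bool ⊕ V i → Bool ⊕ (W ⊕ Σ i, V i) :=
  Sum.elim (fun c => (t (i, c)).map id inl) fun v => inr (inr ⟨i, v⟩)

/-- the edges present when the parts in `J` have been substituted -/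
def embBS (E : I → Type) (J : Finset I) : Set (Option I ⊕ Σ i, E i) :=
  {x | x.elim (fun o => ∀ i ∈ J, o ≠ some i) fun e => e.1 ∈ J}

/-- the core edge of an edge -/
def embBPar (E : I → Type) : (Option I ⊕ Σ i, E i) → Option I := Sum.elim id fun e => some e.1

variable {t : I × Bool → Bool ⊕ W} {N : ∀ i, E i × Bool → Bool ⊕ V i}

lemma embBω_inl (o : Option I) (c : Bool) :
    embBω t N (inl o, c) = (clo t (o, c)).map id inl := rfl

lemma embBω_inr (i : I) (e : E i) (c : Bool) :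
    embBω t N (inr ⟨i, e⟩, c) = embBφ t V i (N i (e, c)) := rfl

lemma embB_map_inj {Y : Type} :
    Function.Injective (Sum.map id inl : Bool ⊕ W → Bool ⊕ (W ⊕ Y)) :=
  Function.injective_id.sumMap inl_injective

lemma embB_map_ne {Y : Type} (w : Bool ⊕ W) (y : Y) :
    (Sum.map id inl w : Bool ⊕ (W ⊕ Y)) ≠ inr (inr y) := by
  rcases w with c | w <;> simp

lemma embBφ_inj {i : I} (h : t (i, true) ≠ t (i, false)) : Function.Injective (embBφ t V i) := by
  rintro (c | v) (c' | v') hxy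
  · rw [embB_pole_eq (u := fun c => t (i, c)) h (embB_map_inj hxy)]
  · exact absurd hxy (embB_map_ne _ _)
  · exact absurd hxy.symm (embB_map_ne _ _)
  · simpa [embBφ] using hxy

lemma embB_link_part (i : I) {U : Set (Bool ⊕ (W ⊕ Σ i, V i))} {U' : Set (Bool ⊕ V i)}
    (hU : ∀ v ∈ U', embBφ t V i v ∈ U) (h : EmbBLinkS (clo (N i)) {none}ᶜ U')
    {S Y : Set (Option I ⊕ Σ i, E i)} (hS : ∀ e, inr ⟨i, e⟩ ∈ S)
    (hcl : ∀ x y : (Option I ⊕ Σ i, E i) × Bool, x.1 ∈ Y → y.1 ∈ S → embBω t N x = embBω t N y →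
      embBω t N x ∈ U → y.1 ∈ Y) (e e' : E i) (he : inr ⟨i, e⟩ ∈ Y) : inr ⟨i, e'⟩ ∈ Y := by
  have h1 := h (some '' {e : E i | (inr ⟨i, e⟩ : Option I ⊕ Σ i, E i) ∈ Y})
    (by rintro _ ⟨a, -, rfl⟩; simp) ⟨_, e, he, rfl⟩ (by
    rintro ⟨_, c⟩ ⟨o, c'⟩ ⟨a, ha, rfl⟩ ho h1 h2
    cases o with
    | none => exact absurd rfl ho
    | some b =>
      exact ⟨b, hcl (inr ⟨i, a⟩, c) (inr ⟨i, b⟩, c') ha (hS b) (congrArg (embBφ t V i) h1)
        (hU _ h2), rfl⟩)
  have h2 : some e' ∈ some '' {e : E i | (inr ⟨i, e⟩ : Option I ⊕ Σ i, E i) ∈ Y} := by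
    rw [h1]
    simp
  obtain ⟨a, ha, h3⟩ := h2
  obtain rfl := Option.some_injective _ h3
  exact ha

lemma embB_link_one (i : I) {U : Set (Bool ⊕ (W ⊕ Σ i, V i))} {U' : Set (Bool ⊕ V i)}
    (hU : ∀ v ∈ U', embBφ t V i v ∈ U) (h : EmbBLinkS (clo (N i)) {none}ᶜ U') :
    EmbBLinkS (embBω t N) (Set.range fun e : E i => inr ⟨i, e⟩) U := by
  rintro Y hY ⟨x, hx⟩ hcl
  obtain ⟨e, rfl⟩ := hY hx
  refine hY.antisymm ?_
  rintro _ ⟨e', rfl⟩
  exact embB_link_part i hU h (fun e => Set.mem_range_self e) hcl e e' hx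

lemma embB_met_part (hN : ∀ i, IsNet (N i)) (i : I) (c : Bool) :
    ∃ x : E i × Bool, N i x = inl c := by
  obtain ⟨e0⟩ := (hN i).1
  obtain ⟨⟨o, c'⟩, h1, h2⟩ := (hN i).2.2.embB_met (r := none) ⟨some e0, by simp⟩ c
  cases o with
  | none => exact absurd rfl h1
  | some e => exact ⟨(e, c'), h2⟩

lemma embB_rep (hN : ∀ i, IsNet (N i)) (J : Finset I) (x : Option I × Bool) :
    ∃ z : (Option I ⊕ Σ i, E i) × Bool, z.1 ∈ embBS E J ∧
      embBω t N z = (clo t x).map id inl ∧ embBPar E z.1 = x.1 := by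
  obtain ⟨o, c⟩ := x
  by_cases h : ∀ i ∈ J, o ≠ some i
  · exact ⟨(inl o, c), h, rfl, rfl⟩
  · push Not at h
    obtain ⟨i, hi, rfl⟩ := h
    obtain ⟨⟨e, c'⟩, he⟩ := embB_met_part hN i c
    refine ⟨(inr ⟨i, e⟩, c'), hi, ?_, rfl⟩
    rw [embBω_inr, he]
    rfl

lemma embB_par_ne {J : Finset I} {i : I} (hi : i ∉ J) {a : Option I ⊕ Σ i, E i}
    (ha : a ∈ embBS E J) : a ≠ inl (some i) ↔ embBPar E a ≠ some i := by
  rcases a with o | e
  · simp [embBPar]
  · have : e.1 ≠ i := fun h => hi (h ▸ ha)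
    simp [embBPar, this]

lemma embB_link_rest [∀ i, Finite (V i)] (hN : ∀ i, IsNet (N i)) {J : Finset I} {i : I}
    (hi : i ∉ J) {U : Set (Bool ⊕ (W ⊕ Σ i, V i))} {Uc : Set (Bool ⊕ W)}
    (hUc : ∀ w ∈ Uc, w.map id inl ∈ U) (hin : ∀ v, inr (inr v) ∈ U)
    (hpole : ∀ j, j ≠ i → ∃ c, t (j, c) ∈ Uc) (hcore : EmbBLinkS (clo t) {some i}ᶜ Uc) :
    EmbBLinkS (embBω t N) (embBS E J \ {inl (some i)}) U := by
  intro Y hY hne hcl
  have hall : ∀ a ∈ Y, ∀ b ∈ embBS E J, embBPar E a = embBPar E b → b ∈ Y := by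
    rintro (o | ⟨j, e⟩) ha (o' | ⟨j', e'⟩) hb hab
    · obtain rfl : o = o' := hab
      exact ha
    · exact absurd hab ((hY ha).1 j' hb)
    · exact absurd hab.symm (hb j (hY ha).1)
    · obtain rfl : j = j' := Option.some_injective _ hab
      have hj : j ∈ J := hb
      obtain ⟨c, hc⟩ := hpole j fun h => hi (h ▸ hj)
      refine embB_link_part j (U := U) (S := embBS E J \ {inl (some i)}) ?_
        ((hN j).2.2.embB_link none (!c)) (fun e => ⟨hj, by simp⟩) hcl e e' ha
      rintro (c' | v) hv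
      · have : c' = c := by
          by_contra h
          refine hv (congrArg inl ?_)
          cases c <;> cases c' <;> simp_all
        subst this
        exact hUc _ hc
      · exact hin _
  have h1 := hcore (embBPar E '' Y)
    (by
      rintro _ ⟨a, ha, rfl⟩
      exact (embB_par_ne hi (hY ha).1).1 (hY ha).2)
    (hne.image _)
    (by
      rintro x y ⟨a, ha, hax⟩ hy hxy hU
      obtain ⟨z, hz1, hz2, hz3⟩ := embB_rep (t := t) hN J x
      obtain ⟨z', hz1', hz2', hz3'⟩ := embB_rep (t := t) hN J y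
      refine ⟨z'.1, hcl z z' (hall a ha z.1 hz1 (hax.trans hz3.symm))
        ⟨hz1', (embB_par_ne hi hz1').2 (hz3' ▸ hy)⟩ (by rw [hz2, hz2', hxy]) ?_, hz3'⟩
      rw [hz2]
      exact hUc _ hU)
  refine hY.antisymm fun b hb => ?_
  have h2 : embBPar E b ∈ embBPar E '' Y := by
    rw [h1]
    exact (embB_par_ne hi hb.1).1 hb.2
  obtain ⟨a, ha, hab⟩ := h2
  exact hall a ha b hb.1 hab

variable [Finite I] [Finite W] [∀ i, Finite (E i)] [∀ i, Finite (V i)]

omit [∀ i, Finite (E i)] [∀ i, Finite (V i)] in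
lemma embB_poles (ht : IsNet t) (i : I) : t (i, true) ≠ t (i, false) :=
  ht.no_loop (some i, false)

omit [∀ i, Finite (V i)] in
lemma embB_part (ht : IsNet t) (i : I) :
    embBOn (embBω t N) (insert (inl (some i)) (Set.range fun e : E i => inr ⟨i, e⟩)) =
      emb (clo (N i)) (flp _) := by
  refine embBOn_eq _ _ (fun x : Option (E i) × Bool =>
    (x.1.elim (inl (some i)) fun e => inr ⟨i, e⟩, x.2)) ?_ ?_ (fun x => rfl) ?_
  · rintro ⟨_ | e, c⟩ ⟨_ | e', c'⟩ h <;> simp_all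
  · rintro ⟨a, c⟩
    constructor
    · rintro (rfl | ⟨e, rfl⟩)
      · exact ⟨(none, c), rfl⟩
      · exact ⟨(some e, c), rfl⟩
    · rintro ⟨⟨_ | e, c'⟩, h⟩
      · exact Or.inl (congrArg Prod.fst h).symm
      · exact Or.inr ⟨e, congrArg Prod.fst h⟩
  · have h : ∀ x : Option (E i) × Bool,
        embBω t N (x.1.elim (inl (some i)) fun e => inr ⟨i, e⟩, x.2)
          = embBφ t V i (clo (N i) x) := by
      rintro ⟨_ | e, c⟩ <;> rfl
    intro x y
    rw [h, h, (embBφ_inj (embB_poles ht i)).eq_iff]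

lemma embB_step [DecidableEq I] (ht : IsNet t) (hN : ∀ i, IsNet (N i)) {J : Finset I} {i : I}
    (hi : i ∉ J) (hb : ¬IsP (N i) ∨ OneBridge t i) :
    embBOn (embBω t N) (embBS E (insert i J)) =
      emb (clo (N i)) (flp _) * embBOn (embBω t N) (embBS E J) := by
  have hφ := embBφ_inj (V := V) (embB_poles ht i)
  have e1 : embBS E (insert i J) =
      (Set.range fun e : E i => inr ⟨i, e⟩) ∪ (embBS E J \ {inl (some i)}) := by
    ext (o | ⟨j, e⟩)
    · simp [embBS, and_comm]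
    · by_cases h : j = i
      · subst h
        simp [embBS]
      · have : ∀ e' : E i, (⟨i, e'⟩ : Σ i, E i) ≠ ⟨j, e⟩ := fun e' h' =>
          h (congrArg Sigma.fst h').symm
        simp [embBS, h, this]
  have hr : inl (some i) ∈ embBS E J := fun j hj h => hi (Option.some_injective _ h ▸ hj)
  have e2 : embBS E J = insert (inl (some i)) (embBS E J \ {inl (some i)}) := by
    rw [Set.insert_sdiff_singleton, Set.insert_eq_of_mem hr]
  rw [e1, ← embB_part ht i]
  conv_rhs => rw [e2]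
  refine embBOn_two_sum _ ?_ (by simp) (by simp) (embB_map_inj.ne (embB_poles ht i)) ?_ ?_ ?_ ?_ ?_
    ?_
  · rw [Set.disjoint_left]
    rintro _ ⟨e, rfl⟩ h
    exact hi h.1
  · rintro ⟨_, c⟩ ⟨b, c'⟩ ⟨e, rfl⟩ hy h
    rw [embBω_inr] at h ⊢
    rcases h1 : N i (e, c) with c'' | v
    · exact ⟨c'', rfl⟩
    · rw [h1] at h
      rcases b with o | ⟨j, e'⟩
      · exact absurd h.symm (embB_map_ne _ _)
      · rw [embBω_inr] at h
        rcases h2 : N j (e', c') with c'' | v'
        · rw [h2] at h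
          exact absurd h.symm (embB_map_ne _ _)
        · rw [h2] at h
          have h3 : i = j := congrArg Sigma.fst (inr_injective (inr_injective h))
          exact absurd (h3 ▸ hy.1) hi
  · intro c
    obtain ⟨⟨e, c'⟩, he⟩ := embB_met_part hN i c
    refine ⟨(inr ⟨i, e⟩, c'), ⟨e, rfl⟩, ?_⟩
    rw [embBω_inr, he]
    rfl
  · intro c
    obtain ⟨x, h1, h2⟩ := ht.2.2.embB_met (r := some i) ⟨none, by simp⟩ c
    obtain ⟨z, hz1, hz2, hz3⟩ := embB_rep (t := t) hN J x
    exact ⟨z, ⟨hz1, (embB_par_ne hi hz1).2 (hz3 ▸ h1)⟩, by rw [hz2, h2]; rfl⟩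
  · intro c
    refine embB_link_one i ?_ ((hN i).2.2.embB_link none c)
    exact fun v hv => hφ.ne (a₂ := inl c) hv
  · intro c
    refine embB_link_rest hN hi (fun w hw => embB_map_inj.ne hw)
      (fun v => (embB_map_ne _ _).symm) (fun j _ => ?_) (ht.2.2.embB_link (some i) c)
    by_cases h : t (j, true) = t (i, c)
    · exact ⟨false, fun h' => embB_poles ht j (h.trans h'.symm)⟩
    · exact ⟨true, h⟩
  · refine hb.imp (fun h => ?_) fun h => ?_
    · refine embB_link_one i ?_ (embB_link_notP h)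
      exact fun v hv c => hφ.ne (hv c)
    · refine embB_link_rest (Uc := {w | ∀ c, w ≠ t (i, c)}) hN hi
        (fun w hw c => embB_map_inj.ne (hw c))
        (fun v c => (embB_map_ne _ _).symm) (fun j hj => ?_) (embB_link_bridge h)
      by_contra hc
      have h1 := h {some j} ⟨_, rfl⟩ (fun h' => hj (Option.some_injective _ h').symm) (by
        rintro v ⟨⟨⟨o, c⟩, hx, rfl⟩, -⟩
        obtain rfl : o = some j := hx
        by_contra h2
        refine hc ⟨c, fun c' h3 => h2 ?_⟩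
        cases c'
        · exact Or.inr h3
        · exact Or.inl h3)
      have h2 : (none : Option I) ∈ ({some j} : Set (Option I)) := by
        rw [h1]
        simp
      simp at h2

omit [Finite W] [∀ i, Finite (V i)] in
lemma embB_empty : embBOn (embBω t N) (embBS E ∅) = emb (clo t) (flp _) := by
  refine embBOn_eq _ _ (fun x : Option I × Bool => (inl x.1, x.2)) ?_ ?_ (fun x => rfl)
    fun x y => embB_map_inj.eq_iff
  · rintro ⟨o, c⟩ ⟨o', c'⟩ h
    simpa using h
  · rintro ⟨o | e, c⟩ <;> simp [embBS]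

end concrete

theorem emb_glue {I W : Type} {E V : I → Type} [Fintype I] [Finite W] [∀ i, Finite (E i)]
    [∀ i, Finite (V i)] {t : I × Bool → Bool ⊕ W} {N : ∀ i, E i × Bool → Bool ⊕ V i}
    (ht : IsNet t) (hN : ∀ i, IsNet (N i)) (hb : ∀ i, ¬IsP (N i) ∨ OneBridge t i) :
    emb (clo (glue t N)) (flp _) = emb (clo t) (flp _) * ∏ i, emb (clo (N i)) (flp _) := by
  classical
  have h : ∀ J : Finset I, embBOn (embBω t N) (embBS E J) =
      emb (clo t) (flp _) * ∏ i ∈ J, emb (clo (N i)) (flp _) := by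
    intro J
    induction J using Finset.induction_on with
    | empty => rw [embB_empty, Finset.prod_empty, mul_one]
    | insert i J hi ih => rw [embB_step ht hN hi (hb i), ih, Finset.prod_insert hi, mul_left_comm]
  rw [← h]
  symm
  refine embBOn_eq _ _ (fun x : Option (Σ i, E i) × Bool => (x.1.elim (inl none) inr, x.2)) ?_ ?_
    (fun x => rfl) ?_
  · rintro ⟨_ | e, c⟩ ⟨_ | e', c'⟩ h <;> simp_all
  · rintro ⟨a, c⟩
    constructor
    · intro ha
      rcases a with (_ | i) | e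
      · exact ⟨(none, c), rfl⟩
      · exact absurd rfl (ha i (Finset.mem_univ i))
      · exact ⟨(some e, c), rfl⟩
    · rintro ⟨⟨_ | e, c'⟩, h⟩
      · obtain rfl : inl none = a := congrArg Prod.fst h
        exact fun i _ => by simp
      · obtain rfl : inr e = a := congrArg Prod.fst h
        exact Finset.mem_univ e.1
  · rintro ⟨_ | e, c⟩ ⟨_ | e', c'⟩ <;> rfl

end Pool.Agent.Lib.MP_77dff5_pr
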