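import Pool.Agent.Lib.MP_77dff5_pr.GDefs

/-! Cycles of permutations, Euler's inequality, a combinatorial Jordan curve theorem. -/

set_option autoImplicit false
set_option linter.unusedSectionVars false

namespace Pool.Agent.Lib.MP_77dff5_pr

open Equiv

section aux
variable {D D' Q : Type}

/-- a function that is invariant under `π` is constant on cycles -/
theorem permA_inv {π : Perm D} (f : D → Q) (h : ∀ x, f (π x) = f x) {x y : D}
    (hxy : π.SameCycle x y) : f x = f y := by
  obtain ⟨i, rfl⟩ := hxy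
  induction i using Int.induction_on generalizing x with
  | zero => rfl
  | succ i ih => rw [zpow_add_one, Perm.mul_apply, ← ih, h]
  | pred i ih =>
    rw [zpow_sub_one, Perm.mul_apply, ← ih, ← h (π⁻¹ x)]
    simp

/-- a predicate that is preserved by `π` is preserved along cycles -/
theorem permA_ind [Finite D] {π : Perm D} (P : D → Prop) (h : ∀ x, P x → P (π x)) {x y : D}
    (hxy : π.SameCycle x y) (hx : P x) : P y := by
  obtain ⟨i, rfl⟩ := hxy.exists_nat_pow_eq
  clear hxy
  induction i with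
  | zero => exact hx
  | succ i ih => rw [pow_succ', Perm.mul_apply]; exact h _ ih

/-- equivariant maps send cycles into cycles -/
theorem permA_map {π : Perm D} {π' : Perm D'} (u : D → D') (h : ∀ x, u (π x) = π' (u x)) {x y : D}
    (hxy : π.SameCycle x y) : π'.SameCycle (u x) (u y) := by
  have := permA_inv (fun y => π'.SameCycle (u x) (u y))
    (fun y => by rw [h, Perm.sameCycle_apply_right]) hxy
  exact this ▸ Perm.SameCycle.rfl

theorem permA_map_iff {π : Perm D} {π' : Perm D'} (u : D ≃ D') (h : ∀ x, u (π x) = π' (u x))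
    (x y : D) : π'.SameCycle (u x) (u y) ↔ π.SameCycle x y := by
  refine ⟨fun hxy => ?_, permA_map u h⟩
  have := permA_map (π' := π) u.symm (fun z => by
    obtain ⟨z, rfl⟩ := u.surjective z
    rw [← h, symm_apply_apply, symm_apply_apply]) hxy
  rwa [symm_apply_apply, symm_apply_apply] at this

/-- counting cycles through a complete invariant -/
theorem permA_ncyc_eq {π : Perm D} (f : D → Q) (hs : Function.Surjective f)
    (h : ∀ x y, π.SameCycle x y ↔ f x = f y) : ncyc π = Nat.card Q := by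
  refine Nat.card_eq_of_bijective (Quotient.lift f fun x y hxy => (h x y).mp hxy) ⟨?_, ?_⟩
  · rintro ⟨x⟩ ⟨y⟩ hxy
    exact Quotient.sound ((h x y).mpr hxy)
  · intro q
    obtain ⟨x, rfl⟩ := hs q
    exact ⟨Quotient.mk _ x, rfl⟩

theorem permA_mk_eq {π : Perm D} {x y : D} :
    Quotient.mk (Perm.SameCycle.setoid π) x = Quotient.mk _ y ↔ π.SameCycle x y :=
  Quotient.eq

theorem permA_ncyc_congr {π : Perm D} {π' : Perm D'} (u : D ≃ D') (h : ∀ x, u (π x) = π' (u x)) :
    ncyc π = ncyc π' :=
  permA_ncyc_eq (fun x => Quotient.mk (Perm.SameCycle.setoid π') (u x))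
    (Quotient.mk_surjective.comp u.surjective) fun x y => by rw [permA_mk_eq, permA_map_iff u h]

theorem permA_eqv {r : D → D → Prop} {s : D' → D' → Prop} (u : D → D')
    (h : ∀ a b, r a b → Relation.EqvGen s (u a) (u b)) {x y : D} (hxy : Relation.EqvGen r x y) :
    Relation.EqvGen s (u x) (u y) := by
  induction hxy with
  | rel a b hab => exact h a b hab
  | refl a => exact .refl _
  | symm a b _ ih => exact ih.symm _ _
  | trans a b c _ _ ih1 ih2 => exact ih1.trans _ _ _ ih2

end aux

section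
variable {D D' V : Type} [Finite D]

theorem permA_sameCycle_swap [DecidableEq D] (π : Perm D) {a b : D} (h : ¬π.SameCycle a b) :
    (π * swap a b).SameCycle b a := by
  have e : (π * swap a b) b = π a := by simp
  have := permA_ind (π := π) (x := π a) (y := a)
    (fun z => π.SameCycle a z ∧ ((π * swap a b).SameCycle b z ∨ (π * swap a b).SameCycle b a))
    (fun z hz => ⟨hz.1.apply_right, by
      by_cases h1 : z = a
      · subst h1
        exact Or.inr (hz.2.elim id id)
      · have h2 : z ≠ b := fun h2 => h (h2 ▸ hz.1)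
        have e2 : (π * swap a b) z = π z := by rw [Perm.mul_apply, swap_apply_of_ne_of_ne h1 h2]
        exact hz.2.imp_left fun h3 => e2 ▸ h3.apply_right⟩)
    (Perm.SameCycle.refl π a).apply_left
    ⟨(Perm.SameCycle.refl π a).apply_right, Or.inl (e ▸ (Perm.SameCycle.refl _ b).apply_right)⟩
  exact this.2.elim id id

theorem sameCycle_mul_swap_of_not [DecidableEq D] (π : Perm D) {a b : D} (h : ¬π.SameCycle a b)
    (x y : D) : (π * swap a b).SameCycle x y ↔ π.SameCycle x y ∨
      (π.SameCycle x a ∧ π.SameCycle y b) ∨ (π.SameCycle x b ∧ π.SameCycle y a) := by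
  have ea : (π * swap a b) a = π b := by simp
  have eb : (π * swap a b) b = π a := by simp
  have hba := permA_sameCycle_swap π h
  have key : ∀ x y, π.SameCycle x y → (π * swap a b).SameCycle x y := fun x y hxy =>
    permA_ind (fun z => (π * swap a b).SameCycle x z) (fun z hz => by
      by_cases h1 : z = a
      · subst h1
        exact eb ▸ (hz.trans hba.symm).apply_right
      by_cases h2 : z = b
      · subst h2
        exact ea ▸ (hz.trans hba).apply_right
      · have e2 : (π * swap a b) z = π z := by rw [Perm.mul_apply, swap_apply_of_ne_of_ne h1 h2]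
        exact e2 ▸ hz.apply_right) hxy Perm.SameCycle.rfl
  constructor
  · intro hxy
    refine permA_ind (fun y => π.SameCycle x y ∨ (π.SameCycle x a ∧ π.SameCycle y b) ∨
      (π.SameCycle x b ∧ π.SameCycle y a)) (fun z hz => ?_) hxy (Or.inl Perm.SameCycle.rfl)
    by_cases h1 : z = a
    · subst h1
      rw [ea]
      simp only [Perm.sameCycle_apply_left, Perm.sameCycle_apply_right, Perm.SameCycle.rfl,
        and_true] at hz ⊢
      tauto
    by_cases h2 : z = b
    · subst h2
      rw [eb]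
      simp only [Perm.sameCycle_apply_left, Perm.sameCycle_apply_right, Perm.SameCycle.rfl,
        and_true] at hz ⊢
      tauto
    · rw [Perm.mul_apply, swap_apply_of_ne_of_ne h1 h2]
      simpa only [Perm.sameCycle_apply_left, Perm.sameCycle_apply_right] using hz
  · rintro (h1 | ⟨h1, h2⟩ | ⟨h1, h2⟩)
    · exact key _ _ h1
    · exact ((key _ _ h1).trans hba.symm).trans (key _ _ h2).symm
    · exact ((key _ _ h1).trans hba).trans (key _ _ h2).symm

theorem ncyc_mul_swap_of_not [DecidableEq D] (π : Perm D) {a b : D} (h : ¬π.SameCycle a b) :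
    ncyc (π * swap a b) + 1 = ncyc π := by
  classical
  have e := (Nat.card_congr (optionSubtypeNe (Quotient.mk (Perm.SameCycle.setoid π) b))).symm
  rw [Finite.card_option] at e
  rw [ncyc.eq_1 π, e]
  congr 1
  refine permA_ncyc_eq (fun x => if hx : π.SameCycle x b then
    ⟨Quotient.mk _ a, fun h' => h (permA_mk_eq.mp h')⟩ else
    ⟨Quotient.mk _ x, fun h' => hx (permA_mk_eq.mp h')⟩) ?_ fun x y => ?_
  · rintro ⟨⟨x⟩, hx⟩
    exact ⟨x, dif_neg fun h' => hx (permA_mk_eq.mpr h')⟩
  · rw [sameCycle_mul_swap_of_not π h]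
    by_cases hx : π.SameCycle x b <;> by_cases hy : π.SameCycle y b <;>
      simp only [hx, hy, dif_pos, dif_neg, not_false_eq_true, Subtype.mk.injEq, permA_mk_eq,
        and_true, true_and, and_false, false_and, or_false, false_or, iff_true]
    · exact Or.inl (hx.trans hy.symm)
    · exact ⟨fun h' => h'.elim (fun h1 => absurd (h1.symm.trans hx) hy) (·.symm),
        fun h' => Or.inr h'.symm⟩
    · exact ⟨fun h' => h'.elim (fun h1 => absurd (h1.trans hy) hx) id, Or.inr⟩

theorem not_sameCycle_mul_swap [DecidableEq D] (π : Perm D) {a b : D} (h : π.SameCycle a b)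
    (hab : a ≠ b) : ¬(π * swap a b).SameCycle a b := by
  classical
  intro hρ
  have hex := h.exists_nat_pow_eq
  have hk := Nat.find_spec hex
  have hmin : ∀ j < Nat.find hex, (π ^ j) a ≠ b := fun j hj => Nat.find_min hex hj
  generalize Nat.find hex = k at hk hmin
  have hk0 : 1 ≤ k := Nat.pos_of_ne_zero fun h0 => hab (by simpa [h0] using hk)
  have hna : ∀ i, 1 ≤ i → i ≤ k → (π ^ i) a ≠ a := fun i h1 h2 h3 =>
    hmin (k - i) (by omega) (by
      rw [← h3, ← Perm.mul_apply, ← pow_add, Nat.sub_add_cancel h2, hk])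
  obtain ⟨i, h1, h2, h3⟩ := permA_ind (fun z => ∃ i, 1 ≤ i ∧ i ≤ k ∧ (π ^ i) a = z)
    (fun z ⟨i, h1, h2, h3⟩ => by
      rcases h2.lt_or_eq with h2 | rfl
      · refine ⟨i + 1, by omega, h2, ?_⟩
        rw [Perm.mul_apply, swap_apply_of_ne_of_ne (h3 ▸ hna i h1 h2.le) (h3 ▸ hmin i h2), ← h3,
          pow_succ', Perm.mul_apply]
      · exact ⟨1, le_rfl, hk0, by rw [← h3, hk]; simp⟩) hρ.symm ⟨k, hk0, le_rfl, hk⟩
  exact hna i h1 h2 h3

theorem ncyc_mul_swap_of_same [DecidableEq D] (π : Perm D) {a b : D} (h : π.SameCycle a b)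
    (hab : a ≠ b) : ncyc (π * swap a b) = ncyc π + 1 := by
  have := ncyc_mul_swap_of_not _ (not_sameCycle_mul_swap π h hab)
  rw [mul_assoc, swap_mul_self, mul_one] at this
  exact this.symm

omit [Finite D] in
theorem ncyc_permCongr (e : D ≃ D') (π : Perm D) : ncyc (e.permCongr π) = ncyc π :=
  (permA_ncyc_congr e fun x => by simp).symm

omit [Finite D] in
theorem ncyc_inv (π : Perm D) : ncyc π⁻¹ = ncyc π :=
  permA_ncyc_eq (Quotient.mk (Perm.SameCycle.setoid π)) Quotient.mk_surjective fun x y => by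
    rw [permA_mk_eq, Perm.sameCycle_inv]

omit [Finite D] in
theorem ncyc_mul_comm (π ρ : Perm D) : ncyc (π * ρ) = ncyc (ρ * π) :=
  permA_ncyc_congr ρ fun _ => rfl

omit [Finite D] in
theorem ncyc_one : ncyc (1 : Perm D) = Nat.card D :=
  permA_ncyc_eq id Function.surjective_id fun _ _ => Perm.sameCycle_one

theorem ncyc_pos [Nonempty D] (π : Perm D) : 1 ≤ ncyc π := by
  have : Nonempty (Quotient (Perm.SameCycle.setoid π)) :=
    ⟨Quotient.mk _ (Classical.arbitrary D)⟩
  exact Nat.card_pos

theorem ncyc_parity (σ α : Perm D) :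
    (ncyc σ + ncyc α + ncyc (σ * α)) % 2 = Nat.card D % 2 := by
  classical
  have step : ∀ (π : Perm D) (x y : D), x ≠ y →
      ncyc (π * swap x y) + 1 = ncyc π ∨ ncyc (π * swap x y) = ncyc π + 1 := fun π x y hxy =>
    (em (π.SameCycle x y)).symm.imp (ncyc_mul_swap_of_not π)
      fun h => ncyc_mul_swap_of_same π h hxy
  induction α using Perm.swap_induction_on' with
  | one => rw [mul_one, ncyc_one]; omega
  | mul_swap f x y hxy ih =>
    have h1 := step f x y hxy
    have h2 := step (σ * f) x y hxy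
    rw [← mul_assoc]
    omega

theorem ncyc_sumCongr [Finite D'] (π : Perm D) (ρ : Perm D') :
    ncyc (Perm.sumCongr π ρ) = ncyc π + ncyc ρ := by
  rw [ncyc.eq_1 π, ncyc.eq_1 ρ, ← Nat.card_sum]
  refine permA_ncyc_eq (Sum.map (Quotient.mk _) (Quotient.mk _))
    (Quotient.mk_surjective.sumMap Quotient.mk_surjective) fun x y => ⟨permA_inv _ ?_, ?_⟩
  · rintro (z | z)
    · exact congrArg Sum.inl (permA_mk_eq.mpr (Perm.SameCycle.refl π z).apply_left)
    · exact congrArg Sum.inr (permA_mk_eq.mpr (Perm.SameCycle.refl ρ z).apply_left)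
  · rcases x with x | x <;> rcases y with y | y <;> intro h
    · exact permA_map Sum.inl (fun _ => rfl) (permA_mk_eq.mp (Sum.inl.inj h))
    · exact absurd h Sum.inl_ne_inr
    · exact absurd h Sum.inr_ne_inl
    · exact permA_map Sum.inr (fun _ => rfl) (permA_mk_eq.mp (Sum.inr.inj h))

theorem ncyc_sigmaCongrRight {I : Type} [Fintype I] {Y : I → Type} [∀ i, Finite (Y i)]
    (π : ∀ i, Perm (Y i)) : ncyc (Perm.sigmaCongrRight π) = ∑ i, ncyc (π i) := by
  simp only [ncyc.eq_1 (π _)]
  rw [← Nat.card_sigma]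
  refine permA_ncyc_eq (fun x => ⟨x.1, Quotient.mk _ x.2⟩) ?_ fun x y =>
    ⟨permA_inv (fun x : Σ i, Y i => (⟨x.1, Quotient.mk _ x.2⟩ :
      Σ i, Quotient (Perm.SameCycle.setoid (π i)))) ?_, ?_⟩
  · rintro ⟨i, ⟨x⟩⟩
    exact ⟨⟨i, x⟩, rfl⟩
  · rintro ⟨i, z⟩
    exact congrArg (Sigma.mk i) (permA_mk_eq.mpr (Perm.SameCycle.refl (π i) z).apply_left)
  · obtain ⟨i, x⟩ := x
    obtain ⟨j, y⟩ := y
    intro h
    obtain rfl : i = j := congrArg Sigma.fst h
    exact permA_map (Sigma.mk i) (fun _ => rfl)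
      (permA_mk_eq.mp (eq_of_heq (Sigma.mk.inj h).2))

theorem ncyc_optionCongr (π : Perm D) : ncyc (π.optionCongr : Perm (Option D)) = ncyc π + 1 := by
  rw [ncyc.eq_1 π, ← Finite.card_option]
  refine permA_ncyc_eq (Option.map (Quotient.mk _)) ?_ fun x y => ⟨permA_inv _ ?_, ?_⟩
  · rintro (_ | ⟨⟨x⟩⟩)
    · exact ⟨none, rfl⟩
    · exact ⟨some x, rfl⟩
  · rintro (_ | z)
    · rfl
    · exact congrArg some (permA_mk_eq.mpr (Perm.SameCycle.refl π z).apply_left)
  · rcases x with _ | x <;> rcases y with _ | y <;> intro h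
    · exact Perm.SameCycle.rfl
    · exact absurd h (by simp)
    · exact absurd h (by simp)
    · exact permA_map some (fun _ => rfl) (permA_mk_eq.mp (Option.some.inj h))

theorem ncyc_flp : ncyc (flp D) = Nat.card D := by
  refine permA_ncyc_eq Prod.fst Prod.fst_surjective fun x y => ⟨permA_inv _ fun _ => rfl, ?_⟩
  obtain ⟨x, b⟩ := x
  obtain ⟨y, c⟩ := y
  rintro (rfl : x = y)
  by_cases h : b = c
  · rw [h]
  · have : (x, c) = flp D (x, b) := by
      cases b <;> cases c <;> first | rfl | exact absurd rfl h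
    exact this ▸ (Perm.SameCycle.refl _ _).apply_right

theorem ncyc_of_isRot {ν : D → V} {σ : Perm D} (h : IsRot ν σ) :
    ncyc σ = (Set.range ν).ncard :=
  permA_ncyc_eq (Set.rangeFactorization ν) Set.rangeFactorization_surjective fun x y => by
    rw [h x y, Subtype.ext_iff]
    rfl

theorem exists_isRot (ν : D → V) : ∃ σ, IsRot ν σ := by
  classical
  have h : ∀ v, ∃ τ : Perm {x // ν x = v}, ∀ x y, τ.SameCycle x y := fun v => by
    obtain ⟨τ, hτ, _⟩ := (Set.to_countable (Set.univ : Set {x // ν x = v})).exists_cycleOn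
    exact ⟨τ, fun x y => hτ.2 (Set.mem_univ x) (Set.mem_univ y)⟩
  choose τ hτ using h
  refine ⟨(sigmaFiberEquiv ν).permCongr (Perm.sigmaCongrRight τ), fun x y =>
    ⟨permA_inv _ fun z => (τ (ν z) ⟨z, rfl⟩).2, fun hxy => ?_⟩⟩
  exact permA_map (π := τ (ν y)) Subtype.val (by rintro ⟨z, hz⟩; generalize ν y = v at *; subst hz; rfl)
    (hτ (ν y) ⟨x, hxy⟩ ⟨y, rfl⟩)

theorem conn_iff_trans2 {ν : D → V} {σ : Perm D} (h : IsRot ν σ) (α : Perm D) :
    Conn ν α ↔ Trans2 σ α := by
  refine forall₂_congr fun x y => ⟨permA_eqv id ?_, permA_eqv id ?_⟩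
  · rintro a b (hab | hab)
    · exact permA_ind (fun z => Relation.EqvGen (fun a b => b = σ a ∨ b = α a) a z)
        (fun z hz => hz.trans _ _ _ (.rel _ _ (Or.inl rfl))) ((h a b).mpr hab) (.refl _)
    · exact .rel _ _ (Or.inr hab)
  · rintro a b (hab | hab)
    · exact .rel _ _ (Or.inl ((h a b).mp (hab ▸ (Perm.SameCycle.refl σ a).apply_right)))
    · exact .rel _ _ (Or.inr hab)

/-- `emb` is invariant under isomorphisms. -/
theorem emb_congr {V' : Type} {ν : D → V} {ν' : D' → V'} {α : Perm D} {α' : Perm D'} (u : D ≃ D')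
    (hu : ∀ x, u (α x) = α' (u x)) (h : ∀ x y, ν' (u x) = ν' (u y) ↔ ν x = ν y) :
    emb ν' α' = emb ν α := by
  refine (Nat.card_congr (subtypeEquiv u.permCongr fun σ => and_congr ?_ ?_)).symm
  · have e := permA_map_iff (π := σ) (π' := u.permCongr σ) u fun x => by simp
    refine ⟨fun h1 x y => ?_, fun h1 x y => by rw [← e, h1, h]⟩
    obtain ⟨x, rfl⟩ := u.surjective x
    obtain ⟨y, rfl⟩ := u.surjective y
    rw [e, h, h1]
  · unfold Gen0
    rw [ncyc_permCongr, permA_ncyc_congr u hu, Nat.card_congr u,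
      permA_ncyc_congr (π := σ * α) (π' := u.permCongr σ * α') u fun x => by simp [← hu]]

omit [Finite D] in
theorem conn_congr {V' : Type} {ν : D → V} {ν' : D' → V'} {α : Perm D} {α' : Perm D'} (u : D ≃ D')
    (hu : ∀ x, u (α x) = α' (u x)) (h : ∀ x y, ν' (u x) = ν' (u y) ↔ ν x = ν y) :
    Conn ν' α' ↔ Conn ν α := by
  constructor
  · intro hc x y
    have := permA_eqv (s := fun a b => ν a = ν b ∨ b = α a) u.symm (fun a b hab => by
      obtain ⟨a, rfl⟩ := u.surjective a
      obtain ⟨b, rfl⟩ := u.surjective b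
      rw [h, ← hu, u.apply_eq_iff_eq] at hab
      rw [symm_apply_apply, symm_apply_apply]
      exact .rel _ _ hab) (hc (u x) (u y))
    rwa [symm_apply_apply, symm_apply_apply] at this
  · intro hc x y
    obtain ⟨x, rfl⟩ := u.surjective x
    obtain ⟨y, rfl⟩ := u.surjective y
    exact permA_eqv u (fun a b hab => .rel _ _ (by rwa [h, ← hu, u.apply_eq_iff_eq])) (hc x y)

end

end Pool.Agent.Lib.MP_77dff5_pr
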