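import Pool.Agent.Lib.MP_77dff5_pr.LDefs
import Pool.Agent.Lib.MP_77dff5_pr.PermA

/-! Tutte's decomposition of networks: graph theory on fixed labels. -/

set_option autoImplicit false
set_option linter.unusedSectionVars false

namespace Pool.Agent.Lib.MP_77dff5_pr

open scoped ENNReal Classical

section transport
variable {E V E' V' : Type}

theorem netB_flp (a : E) (b : Bool) : flp E (a, b) = (a, !b) := rfl

theorem netB_fst_flp (x : E × Bool) : (flp E x).1 = x.1 := rfl

/-- the inverse isomorphism -/
def DIso.symm (u : DIso E E') : DIso E' E :=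
  ⟨u.1.symm, fun x => u.1.injective (by rw [u.2, Equiv.apply_symm_apply, Equiv.apply_symm_apply])⟩

theorem DIso.fst_eq (u : DIso E E') (x : E × Bool) : (u.1 x).1 = (u.1 (x.1, true)).1 := by
  obtain ⟨a, b⟩ := x
  cases b
  · exact (congrArg Prod.fst (u.2 (a, true))).trans rfl
  · rfl

/-- the bijection of edges induced by a bijection of darts -/
def DIso.edge (u : DIso E E') : E ≃ E' where
  toFun a := (u.1 (a, true)).1
  invFun a := (u.1.symm (a, true)).1
  left_inv a := by
    have := u.symm.fst_eq (u.1 (a, true))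
    exact this.symm.trans (congrArg Prod.fst (u.1.symm_apply_apply _))
  right_inv a := by
    have := u.fst_eq (u.1.symm (a, true))
    exact this.symm.trans (congrArg Prod.fst (u.1.apply_symm_apply _))

theorem DIso.edge_fst (u : DIso E E') (x : E × Bool) : u.edge x.1 = (u.1 x).1 :=
  (u.fst_eq x).symm

/-- extension of a map of darts to the root edge -/
def netBOpt (f : E × Bool → E' × Bool) : Option E × Bool → Option E' × Bool
  | (none, b) => (none, b)
  | (some a, b) => (some (f (a, b)).1, (f (a, b)).2)

/-- extension of an isomorphism to the root edge -/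
def DIso.opt (u : DIso E E') : DIso (Option E) (Option E') :=
  ⟨{ toFun := netBOpt u.1
     invFun := netBOpt u.1.symm
     left_inv := by rintro ⟨_ | a, b⟩ <;> simp [netBOpt]
     right_inv := by rintro ⟨_ | a, b⟩ <;> simp [netBOpt] }, by
    rintro ⟨_ | a, b⟩
    · rfl
    · have := u.2 (a, b)
      show (some (u.1 (flp E (a, b))).1, (u.1 (flp E (a, b))).2) = _
      rw [this]
      rfl⟩

theorem DIso.opt_preimage (u : DIso E E') (X : Set E') :
    u.opt.edge ⁻¹' (some '' X) = some '' (u.edge ⁻¹' X) := by
  ext a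
  cases a with
  | none =>
    have : u.opt.edge none = none := rfl
    simp [this]
  | some a =>
    have : u.opt.edge (some a) = some (u.edge a) := rfl
    simp [this]

theorem netB_ncard {A B : Type} (e : A ≃ B) (s : Set B) : (e ⁻¹' s).ncard = s.ncard :=
  Set.ncard_preimage_of_injective_subset_range e.injective (by simp)

theorem netB_clo (u : DIso E E') (e : V ≃ V') {N : E × Bool → Bool ⊕ V}
    {N' : E' × Bool → Bool ⊕ V'} (h : ∀ x, N' (u.1 x) = (N x).map id e) (x : Option E × Bool) :
    clo N' (u.opt.1 x) = (Equiv.refl Bool).sumCongr e (clo N x) := by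
  obtain ⟨_ | a, b⟩ := x
  · rfl
  · exact h (a, b)

theorem netB_inl (u : DIso E E') (e : V ≃ V') {N : E × Bool → Bool ⊕ V}
    {N' : E' × Bool → Bool ⊕ V'} (h : ∀ x, N' (u.1 x) = (N x).map id e) (x : E × Bool)
    (b : Bool) : N' (u.1 x) = Sum.inl b ↔ N x = Sum.inl b := by
  rw [h]
  cases N x <;> simp

variable (u : DIso E E') (e : V ≃ V') {ν : E × Bool → V} {ν' : E' × Bool → V'}
  (h : ∀ x, ν' (u.1 x) = e (ν x))
include h

theorem netB_bd (X : Set E') : bd ν (u.edge ⁻¹' X) = e ⁻¹' bd ν' X := by
  ext v
  simp only [bd, Set.mem_ofPred_eq, Set.mem_preimage, u.1.surjective.exists, h, u.edge_fst,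
    e.apply_eq_iff_eq]

theorem netB_bd_ncard (X : Set E') : (bd ν (u.edge ⁻¹' X)).ncard = (bd ν' X).ncard := by
  rw [netB_bd u e h, netB_ncard]

theorem netB_nonsep : Nonsep ν' ↔ Nonsep ν := by
  rw [Nonsep, Nonsep, (Set.preimage_surjective.2 u.edge.injective).forall]
  refine forall_congr' fun X => ?_
  rw [← Set.preimage_compl, u.edge.surjective.nonempty_preimage,
    u.edge.surjective.nonempty_preimage, netB_bd_ncard u e h]

theorem netB_surj : Function.Surjective ν' ↔ Function.Surjective ν := by
  have : ν' ∘ u.1 = e ∘ ν := funext h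
  rw [← u.1.surjective_comp ν', this, e.comp_surjective]

theorem netB_eq (x y : E × Bool) : ν' (u.1 x) = ν' (u.1 y) ↔ ν x = ν y := by
  rw [h, h, e.apply_eq_iff_eq]

theorem netB_comps : comps ν' = comps ν := by
  refine Nat.card_congr (Quot.congr e fun a b => ?_).symm
  simp only [u.1.surjective.exists, ← u.2, h, e.apply_eq_iff_eq]

theorem netB_planarU (hp : PlanarU ν) : PlanarU ν' := by
  obtain ⟨σ, h1, h2⟩ := hp
  refine ⟨u.1.permCongr σ, fun x y => ?_, ?_⟩
  · obtain ⟨x, rfl⟩ := u.1.surjective x
    obtain ⟨y, rfl⟩ := u.1.surjective y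
    rw [netB_eq u e h, ← h1]
    refine exists_congr fun n => ?_
    have := map_zpow u.1.permCongrHom σ n
    rw [Equiv.permCongrHom_coe] at this
    rw [← this, Equiv.permCongr_apply, Equiv.symm_apply_apply, Equiv.apply_eq_iff_eq]
  · have e1 : u.1.permCongr σ * flp E' = u.1.permCongr (σ * flp E) := by
      refine Equiv.ext fun x => ?_
      obtain ⟨x, rfl⟩ := u.1.surjective x
      simp [← u.2]
    have e2 : Set.range ν = e ⁻¹' Set.range ν' := by
      ext v
      simp only [Set.mem_range, Set.mem_preimage, u.1.surjective.exists, h, e.apply_eq_iff_eq]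
    rw [e1, ncyc_permCongr, netB_comps u e h, ← Nat.card_congr e, ← Nat.card_congr u.edge,
      ← netB_ncard e, Set.preimage_compl, ← e2]
    exact h2

end transport

section basic
variable {E V : Type} [Finite E] [Finite V]

end basic

section invariance
variable {E V E' V' : Type} [Finite E] [Finite V] (u : DIso E E') (e : V ≃ V')
  {N : E × Bool → Bool ⊕ V} {N' : E' × Bool → Bool ⊕ V'} (h : ∀ x, N' (u.1 x) = (N x).map id e)
include h

omit [Finite E] [Finite V] in
theorem netB_isNet : IsNet N' ↔ IsNet N := by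
  rw [IsNet, IsNet, u.edge.nonempty_congr, netB_surj u.opt _ (netB_clo u e h),
    netB_nonsep u.opt _ (netB_clo u e h)]

theorem isNet_congr : IsNet N' ↔ IsNet N := netB_isNet u e h

theorem isBlock_congr : IsBlock N' ↔ IsBlock N := by
  rw [IsBlock, IsBlock, u.edge.isEmpty_congr, e.isEmpty_congr, netB_isNet u e h]

theorem isE_congr : IsE N' ↔ IsE N := by
  rw [IsE, IsE, Nat.card_congr u.edge]

theorem isP_congr : IsP N' ↔ IsP N := by
  rw [IsP, IsP, (Set.preimage_surjective.2 u.edge.injective).exists]
  refine exists_congr fun X => ?_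
  have e1 : (Set.range Sum.inl : Set (Bool ⊕ V)) =
      (Equiv.refl Bool).sumCongr e ⁻¹' Set.range Sum.inl := by
    ext v
    cases v <;> simp
  rw [← Set.preimage_compl, u.edge.surjective.nonempty_preimage,
    u.edge.surjective.nonempty_preimage, ← u.opt_preimage, netB_bd u.opt _ (netB_clo u e h), e1,
    Equiv.preimage_subset]

theorem isS_congr : IsS N' ↔ IsS N := by
  rw [IsS, IsS, (Set.preimage_surjective.2 u.edge.injective).exists]
  refine exists_congr fun X => ?_
  rw [← u.opt_preimage, netB_bd_ncard u.opt _ (netB_clo u e h)]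
  simp only [u.1.surjective.forall, netB_inl u e h, Set.mem_preimage, u.edge_fst]

theorem noDir_congr : NoDir N' ↔ NoDir N := by
  simp only [NoDir, u.1.surjective.forall, ← u.2, netB_inl u e h]

theorem core3_congr : Core3 N' ↔ Core3 N := by
  rw [Core3, Core3, netB_isNet u e h, Nat.card_congr u.edge,
    (Set.preimage_surjective.2 u.opt.edge.injective).forall]
  refine and_congr_right' (and_congr_right' (forall_congr' fun X => ?_))
  rw [← Set.preimage_compl, netB_ncard, netB_ncard, netB_bd_ncard u.opt _ (netB_clo u e h)]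

theorem sconn_clo_congr : SConn (clo N') ↔ SConn (clo N) := by
  rw [SConn, SConn, netB_surj u.opt _ (netB_clo u e h),
    conn_congr u.opt.1 u.opt.2 (netB_eq u.opt _ (netB_clo u e h))]

theorem emb_clo_congr : emb (clo N') (flp _) = emb (clo N) (flp _) :=
  emb_congr u.opt.1 u.opt.2 (netB_eq u.opt _ (netB_clo u e h))

end invariance

section invariance2
variable {E V E' V' : Type} [Finite E] (u : DIso E E') (e : V ≃ V')
  {ν : E × Bool → V} {ν' : E' × Bool → V'} (h : ∀ x, ν' (u.1 x) = e (ν x))
include h

theorem simple_congr : Simple ν' ↔ Simple ν := by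
  simp only [Simple, u.1.surjective.forall, ← u.2, ne_eq, netB_eq u e h, u.1.apply_eq_iff_eq]

theorem sconn_congr : SConn ν' ↔ SConn ν := by
  rw [SConn, SConn, netB_surj u e h, conn_congr u.1 u.2 (netB_eq u e h)]

theorem emb_flp_congr : emb ν' (flp _) = emb ν (flp _) :=
  emb_congr u.1 u.2 (netB_eq u e h)

theorem deg_congr (v : V) : deg ν' (e v) = deg ν v :=
  Nat.card_congr (u.1.subtypeEquiv fun x => by rw [h, e.apply_eq_iff_eq]).symm

theorem planarU_congr : PlanarU ν' ↔ PlanarU ν :=
  ⟨netB_planarU u.symm e.symm fun x => by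
    rw [Equiv.eq_symm_apply, ← h]
    exact congrArg ν' (u.1.apply_symm_apply x), netB_planarU u e h⟩

theorem pairC_congr (d : V → ℕ) (d' : V' → ℕ) (hd : ∀ v, d' (e v) = d v) (i j : ℕ) :
    pairC ν' d' i j = pairC ν d i j :=
  Nat.card_congr (u.1.subtypeEquiv fun x => by
    rw [← u.2, h, h, hd, hd, ne_eq, ne_eq, e.apply_eq_iff_eq]).symm

end invariance2

section invariance3
variable {E V E' V' : Type} [Finite E] (u : DIso E E') (e : V ≃ V')
  {R : E × Bool → Option V} {R' : E' × Bool → Option V'} (h : ∀ x, R' (u.1 x) = (R x).map e)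
include h

omit [Finite E] in
theorem netB_stem (x : Option (E × Bool)) :
    stem R' (u.1.optionCongr x) = e.optionCongr (stem R x) := by
  cases x with
  | none => rfl
  | some x => exact h x

omit [Finite E] h in
theorem netB_stem_flp (x : Option (E × Bool)) :
    u.1.optionCongr ((flp E).optionCongr x) = (flp E').optionCongr (u.1.optionCongr x) := by
  cases x with
  | none => rfl
  | some x => exact congrArg some (u.2 x)

omit [Finite E] in
theorem netB_stem_eq (x y : Option (E × Bool)) :
    stem R' (u.1.optionCongr x) = stem R' (u.1.optionCongr y) ↔ stem R x = stem R y := by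
  rw [netB_stem u e h, netB_stem u e h, Equiv.apply_eq_iff_eq]

theorem rconn_congr : RConn R' ↔ RConn R := by
  have e1 : stem R' ∘ u.1.optionCongr = e.optionCongr ∘ stem R := funext (netB_stem u e h)
  rw [RConn, RConn, ← u.1.optionCongr.surjective_comp (stem R'), e1, Equiv.comp_surjective,
    conn_congr u.1.optionCongr (netB_stem_flp u) (netB_stem_eq u e h)]

theorem embS_congr : embS R' = embS R :=
  emb_congr u.1.optionCongr (netB_stem_flp u) (netB_stem_eq u e h)

end invariance3

section gluing
variable {I W : Type} {E V : I → Type} [Finite I] [Finite W] [∀ i, Finite (E i)]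
  [∀ i, Finite (V i)] {t : I × Bool → Bool ⊕ W} {N : ∀ i, E i × Bool → Bool ⊕ V i}

end gluing

end Pool.Agent.Lib.MP_77dff5_pr
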