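import Pool.Agent.Lib.MP_77dff5_pr.NetA

/-! Tutte's decomposition of networks: graph theory on fixed labels. -/

set_option autoImplicit false
set_option linter.unusedSectionVars false

namespace Pool.Agent.Lib.MP_77dff5_pr

open scoped ENNReal Classical

section aux
variable {I W : Type} {E V : I → Type} {t : I × Bool → Bool ⊕ W}
  {N : ∀ i, E i × Bool → Bool ⊕ V i}

/-- the vertices of the part `i` inside the glued graph -/
def netC_phi (V : I → Type) (t : I × Bool → Bool ⊕ W) (i : I) (a : Bool ⊕ V i) :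
    Bool ⊕ (W ⊕ Σ i, V i) :=
  a.elim (fun c => (t (i, c)).map id Sum.inl) fun v => Sum.inr (Sum.inr ⟨i, v⟩)

theorem netC_glue (i : I) (x : E i × Bool) :
    glue t N (⟨i, x.1⟩, x.2) = netC_phi V t i (N i x) := rfl

theorem netC_iota_inj {U : Type} :
    Function.Injective (Sum.map id Sum.inl : Bool ⊕ W → Bool ⊕ (W ⊕ U)) :=
  Sum.map_injective.mpr ⟨Function.injective_id, Sum.inl_injective⟩

theorem netC_iota_ne {U : Type} (u : Bool ⊕ W) (v : U) :
    (Sum.map id Sum.inl u : Bool ⊕ (W ⊕ U)) ≠ Sum.inr (Sum.inr v) := by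
  cases u <;> simp

theorem netC_phi_inj (ht : ∀ x, t (flp I x) ≠ t x) (i : I) :
    Function.Injective (netC_phi V t i) := by
  rintro (c | v) (c' | v') h
  · have h' := netC_iota_inj h
    cases c <;> cases c'
    · rfl
    · exact absurd h'.symm (ht (i, false))
    · exact absurd h'.symm (ht (i, true))
    · rfl
  · exact absurd h (netC_iota_ne _ _)
  · exact absurd h.symm (netC_iota_ne _ _)
  · have h' : (⟨i, v⟩ : Σ i, V i) = ⟨i, v'⟩ := Sum.inr.inj (Sum.inr.inj h)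
    rw [sigma_mk_injective h']

theorem netC_phi_ne {i j : I} (hij : i ≠ j) {a : Bool ⊕ V i} {b : Bool ⊕ V j}
    (h : netC_phi V t i a = netC_phi V t j b) :
    ∃ c d, a = Sum.inl c ∧ b = Sum.inl d ∧ t (i, c) = t (j, d) := by
  rcases a with c | v <;> rcases b with d | v'
  · exact ⟨c, d, rfl, rfl, netC_iota_inj h⟩
  · exact absurd h (netC_iota_ne _ _)
  · exact absurd h.symm (netC_iota_ne _ _)
  · have h' : (⟨i, v⟩ : Σ i, V i) = ⟨j, v'⟩ := Sum.inr.inj (Sum.inr.inj h)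
    exact absurd (congrArg Sigma.fst h') hij

theorem netC_phi_inl {i : I} {a : Bool ⊕ V i} {b : Bool}
    (h : netC_phi V t i a = Sum.inl b) : ∃ c, a = Sum.inl c ∧ t (i, c) = Sum.inl b := by
  rcases a with c | v
  · exact ⟨c, rfl, netC_iota_inj (U := Σ i, V i) h⟩
  · exact absurd h (by simp [netC_phi])

theorem netC_simple_part (h : Simple (glue t N)) (i : I) : Simple (N i) := by
  refine ⟨fun x hx => h.1 (⟨i, x.1⟩, x.2) (congrArg (netC_phi V t i) hx), fun x y p q => ?_⟩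
  have := h.2 (⟨i, x.1⟩, x.2) (⟨i, y.1⟩, y.2) (congrArg (netC_phi V t i) p)
    (congrArg (netC_phi V t i) q)
  exact Prod.ext (sigma_mk_injective (congrArg Prod.fst this)) (Prod.mk.inj this).2

theorem netC_bool_ne {c d : Bool} (h : d ≠ c) : d = !c := by
  revert h
  cases c <;> cases d <;> simp

theorem netC_simple_of (ht : ∀ x, t (flp I x) ≠ t x) (hN : ∀ i, Simple (N i))
    (hp : ∀ i j, i ≠ j → ∀ (x : E i × Bool) (y : E j × Bool) (c d : Bool), N i x = Sum.inl c →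
      N i (flp _ x) = Sum.inl (!c) → N j y = Sum.inl d → N j (flp _ y) = Sum.inl (!d) →
      t (i, c) = t (j, d) → t (i, !c) = t (j, !d) → False) : Simple (glue t N) := by
  refine ⟨?_, ?_⟩
  · rintro ⟨⟨i, e⟩, b⟩ h
    exact (hN i).1 (e, b) (netC_phi_inj ht i h)
  · rintro ⟨⟨i, e⟩, b⟩ ⟨⟨j, e'⟩, b'⟩ p q
    by_cases hij : i = j
    · subst hij
      have := (hN i).2 (e, b) (e', b') (netC_phi_inj ht i p) (netC_phi_inj ht i q)
      simp only [Prod.mk.injEq] at this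
      rw [this.1, this.2]
    · obtain ⟨c, d, h1, h2, h3⟩ := netC_phi_ne (a := N i (e, b)) (b := N j (e', b')) hij p
      obtain ⟨c', d', h4, h5, h6⟩ :=
        netC_phi_ne (a := N i (flp _ (e, b))) (b := N j (flp _ (e', b'))) hij q
      obtain rfl : c' = !c := netC_bool_ne fun h => (hN i).1 (e, b) (by rw [h4, h1, h])
      obtain rfl : d' = !d := netC_bool_ne fun h => (hN j).1 (e', b') (by rw [h5, h2, h])
      exact (hp i j hij _ _ c d h1 h4 h2 h5 h3 h6).elim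

theorem netC_dir {E V : Type} {N : E × Bool → Bool ⊕ V} {x : E × Bool} {c : Bool}
    (p : N x = Sum.inl c) (q : N (flp _ x) = Sum.inl (!c)) : ¬NoDir N := by
  intro h
  cases c
  · exact h (flp _ x) ⟨q, by rw [netA_flp_flp]; exact p⟩
  · exact h x ⟨p, q⟩

theorem netC_nonsep_of_bool {E V : Type} [Finite V] {ν : E × Bool → V}
    (h : ∀ f : E → Bool, (∃ a, f a = true) → (∃ b, f b = false) → ∃ u v, u ≠ v ∧
      ((∃ x, f x.1 = true ∧ ν x = u) ∧ ∃ x, f x.1 = false ∧ ν x = u) ∧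
      ((∃ x, f x.1 = true ∧ ν x = v) ∧ ∃ x, f x.1 = false ∧ ν x = v)) : Nonsep ν := by
  refine netA_nonsep_of_two fun X ⟨a, ha⟩ ⟨b, hb⟩ => ?_
  obtain ⟨u, v, huv, h1, h2⟩ := h (fun e => decide (e ∈ X)) ⟨a, by simpa using ha⟩
    ⟨b, by simpa using hb⟩
  simp only [decide_eq_true_eq, decide_eq_false_iff_not] at h1 h2
  exact ⟨u, h1, v, h2, huv⟩

theorem netC_bd_glue [Finite W] [∀ i, Finite (V i)] (ht : IsNet t) (hN : ∀ i, IsNet (N i))
    {X : Set (Σ i, E i)} (hX : X.Nonempty) :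
    ∃ a ∈ bd (clo (glue t N)) (some '' X), ∃ b ∈ bd (clo (glue t N)) (some '' X), a ≠ b := by
  have inner : ∀ (j : I) (v : V j), Sum.inr v ∈ bd (clo (N j)) (some '' {e | ⟨j, e⟩ ∈ X}) →
      Sum.inr (Sum.inr ⟨j, v⟩) ∈ bd (clo (glue t N)) (some '' X) := by
    intro j v hv
    obtain ⟨⟨x, hx, hx'⟩, h | ⟨y, hy, hy'⟩⟩ := netA_mem_bd_clo.mp hv
    · simp at h
    · exact netA_mem_bd_clo.mpr ⟨⟨(⟨j, x.1⟩, x.2), hx, by rw [netC_glue, hx']; rfl⟩,
        Or.inr ⟨(⟨j, y.1⟩, y.2), hy, by rw [netC_glue, hy']; rfl⟩⟩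
  have core : ∀ u ∈ bd (clo t) (some '' {j | ∃ e, (⟨j, e⟩ : Σ i, E i) ∈ X}),
      Sum.map id Sum.inl u ∈ bd (clo (glue t N)) (some '' X) ∨
        ∃ j c, t (j, c) = u ∧ (∃ e, (⟨j, e⟩ : Σ i, E i) ∈ X) ∧
          Sum.inl c ∉ bd (clo (N j)) (some '' {e | ⟨j, e⟩ ∈ X}) := by
    intro u hu
    obtain ⟨⟨⟨j, c⟩, hj, hc⟩, h2⟩ := netA_mem_bd_clo.mp hu
    by_cases h : Sum.inl c ∈ bd (clo (N j)) (some '' {e | ⟨j, e⟩ ∈ X})
    · left
      obtain ⟨x, hx, hx'⟩ := (netA_mem_bd_clo.mp h).1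
      refine netA_mem_bd_clo.mpr ⟨⟨(⟨j, x.1⟩, x.2), hx, by rw [netC_glue, hx', ← hc]; rfl⟩, ?_⟩
      rcases h2 with ⟨b, rfl⟩ | ⟨⟨k, d⟩, hk, hd⟩
      · exact Or.inl ⟨b, rfl⟩
      · obtain ⟨y, hy⟩ := netA_pole (hN k) d
        exact Or.inr ⟨(⟨k, y.1⟩, y.2), fun h' => hk ⟨_, h'⟩, by rw [netC_glue, hy, ← hd]; rfl⟩
    · exact Or.inr ⟨j, c, hc, hj, h⟩
  have one : ∀ j c, (∃ e, (⟨j, e⟩ : Σ i, E i) ∈ X) →
      Sum.inl c ∉ bd (clo (N j)) (some '' {e | ⟨j, e⟩ ∈ X}) →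
      ∃ v : V j, Sum.inr (Sum.inr ⟨j, v⟩) ∈ bd (clo (glue t N)) (some '' X) := by
    intro j c hj hc
    obtain ⟨a, ha, hne⟩ := netA_exists_ne (hN j).2.2
      ((show Set.Nonempty {e | (⟨j, e⟩ : Σ i, E i) ∈ X} from hj).image some) ⟨none, by simp⟩
      (Sum.inl (!c))
    rcases a with d | v
    · have : d = c := by
        revert hne
        cases c <;> cases d <;> simp
      exact absurd (this ▸ ha) hc
    · exact ⟨v, inner j v ha⟩
  obtain ⟨⟨i, e⟩, he⟩ := hX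
  obtain ⟨u, hu, u', hu', hne⟩ :=
    netA_two_bd ht (X := {j | ∃ e, (⟨j, e⟩ : Σ i, E i) ∈ X}) ⟨i, e, he⟩
  rcases core u hu with h | ⟨j, c, h1, h2, h3⟩ <;> rcases core u' hu' with h' | ⟨j', c', h4, h5, h6⟩
  · exact ⟨_, h, _, h', fun h'' => hne (netC_iota_inj h'')⟩
  · obtain ⟨v, hv⟩ := one j' c' h5 h6
    exact ⟨_, h, _, hv, netC_iota_ne _ _⟩
  · obtain ⟨v, hv⟩ := one j c h2 h3
    exact ⟨_, h', _, hv, netC_iota_ne _ _⟩
  · by_cases hj : j = j'
    · subst hj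
      obtain rfl : c' = !c := netC_bool_ne fun h => hne (by rw [← h1, ← h4, h])
      have all : ∀ d, Sum.inl d ∉ bd (clo (N j)) (some '' {e | ⟨j, e⟩ ∈ X}) := by
        intro d
        by_cases hd : d = c
        · exact hd ▸ h3
        · exact netC_bool_ne hd ▸ h6
      obtain ⟨a, ha, b, hb, hab⟩ := netA_two_bd (hN j) (X := {e | (⟨j, e⟩ : Σ i, E i) ∈ X}) h2
      rcases a with d | v
      · exact absurd ha (all d)
      rcases b with d | v'
      · exact absurd hb (all d)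
      refine ⟨_, inner j v ha, _, inner j v' hb, fun h => hab ?_⟩
      have h' : (⟨j, v⟩ : Σ i, V i) = ⟨j, v'⟩ := Sum.inr.inj (Sum.inr.inj h)
      rw [sigma_mk_injective h']
    · obtain ⟨v, hv⟩ := one j c h2 h3
      obtain ⟨v', hv'⟩ := one j' c' h5 h6
      refine ⟨_, hv, _, hv', fun h => hj ?_⟩
      have h' : (⟨j, v⟩ : Σ i, V i) = ⟨j', v'⟩ := Sum.inr.inj (Sum.inr.inj h)
      exact congrArg Sigma.fst h'

theorem netC_eq_image {E : Type} {X : Set (Option E)} (h : none ∉ X) :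
    X = some '' {e | some e ∈ X} := by
  ext o
  cases o with
  | none => simpa using h
  | some e => simp

end aux

section gluing
variable {I W : Type} {E V : I → Type} [Finite I] [Finite W] [∀ i, Finite (E i)]
  [∀ i, Finite (V i)] {t : I × Bool → Bool ⊕ W} {N : ∀ i, E i × Bool → Bool ⊕ V i}

theorem isNet_glue (ht : IsNet t) (hN : ∀ i, IsNet (N i)) : IsNet (glue t N) := by
  refine ⟨?_, ?_, netA_nonsep_of_two fun X h1 h2 => ?_⟩
  · obtain ⟨i⟩ := ht.1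
    obtain ⟨e⟩ := (hN i).1
    exact ⟨⟨i, e⟩⟩
  · rintro (b | w | ⟨i, v⟩)
    · exact ⟨(none, b), rfl⟩
    · obtain ⟨⟨_ | i, c⟩, h⟩ := ht.2.1 (Sum.inr w)
      · exact absurd h (by simp [clo])
      · obtain ⟨x, hx⟩ := netA_pole (hN i) c
        have h' : t (i, c) = Sum.inr w := h
        refine ⟨(some ⟨i, x.1⟩, x.2), (netC_glue i x).trans ?_⟩
        rw [hx]
        simp [netC_phi, h']
    · obtain ⟨⟨_ | e, c⟩, h⟩ := (hN i).2.1 (Sum.inr v)
      · exact absurd h (by simp [clo])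
      · have h' : N i (e, c) = Sum.inr v := h
        refine ⟨(some ⟨i, e⟩, c), (netC_glue i (e, c)).trans ?_⟩
        rw [h']
        rfl
  · have key : ∀ X : Set (Option (Σ i, E i)), X.Nonempty → none ∉ X →
        ∃ a ∈ bd (clo (glue t N)) X, ∃ b ∈ bd (clo (glue t N)) X, a ≠ b := by
      intro X hX hn
      rw [netC_eq_image hn] at hX ⊢
      exact netC_bd_glue ht hN (Set.image_nonempty.mp hX)
    by_cases hn : none ∈ X
    · rw [← netA_bd_compl]
      exact key _ h2 (not_not.mpr hn)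
    · exact key _ h1 hn

theorem simple_glue (ht : Simple t) (hN : ∀ i, IsNet (N i)) :
    Simple (glue t N) ↔ ∀ i, Simple (N i) := by
  have _ := hN
  refine ⟨netC_simple_part, fun h => netC_simple_of ht.1 h ?_⟩
  intro i j hij _ _ c d _ _ _ _ p q
  exact hij (congrArg Prod.fst (ht.2 (i, c) (j, d) p q))

theorem noDir_glue (ht : NoDir t) (ht' : IsNet t) : NoDir (glue t N) := by
  have _ := ht'
  rintro ⟨⟨i, e⟩, b⟩ ⟨p, q⟩
  obtain ⟨c, -, h1⟩ := netC_phi_inl (a := N i (e, b)) p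
  obtain ⟨d, -, h2⟩ := netC_phi_inl (a := N i (flp _ (e, b))) q
  obtain rfl : d = !c := netC_bool_ne fun h => by
    rw [h, h1] at h2
    simp at h2
  exact ht (i, c) ⟨h1, h2⟩

end gluing

theorem simple_glue_bond {j : ℕ} {E V : Fin j → Type} [∀ i, Finite (E i)] [∀ i, Finite (V i)]
    {N : ∀ i, E i × Bool → Bool ⊕ V i} (hN : ∀ i, IsNet (N i) ∧ ¬IsP (N i)) :
    Simple (glue (bond j) N) ↔ (∀ i, Simple (N i)) ∧ ∀ i i', IsE (N i) → IsE (N i') → i = i' := by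
  have hE : ∀ i, IsE (N i) ↔ ¬NoDir (N i) := fun i => by
    rw [(hN i).1.noDir_iff (hN i).2, not_not]
  constructor
  · refine fun h => ⟨netC_simple_part h, fun i i' h1 h2 => ?_⟩
    obtain ⟨x, hx⟩ := not_forall.mp ((hE i).mp h1)
    obtain ⟨y, hy⟩ := not_forall.mp ((hE i').mp h2)
    rw [not_not] at hx hy
    have := h.2 (⟨i, x.1⟩, x.2) (⟨i', y.1⟩, y.2)
      ((netC_glue i x).trans (Eq.trans (by rw [hx.1, hy.1]; rfl) (netC_glue i' y).symm))
      ((netC_glue i (flp _ x)).trans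
        (Eq.trans (by rw [hx.2, hy.2]; rfl) (netC_glue i' (flp _ y)).symm))
    exact congrArg (fun z => z.1.1) this
  · rintro ⟨h1, h2⟩
    refine netC_simple_of ?_ h1 fun i i' hii x y c d p q p' q' _ _ =>
      hii (h2 i i' ((hE i).mpr (netC_dir p q)) ((hE i').mpr (netC_dir p' q')))
    rintro ⟨i, b⟩
    cases b <;> simp [bond, netA_flp_mk]

theorem noDir_glue_bond {j : ℕ} {E V : Fin j → Type} [∀ i, Finite (E i)] [∀ i, Finite (V i)]
    {N : ∀ i, E i × Bool → Bool ⊕ V i} (hN : ∀ i, IsNet (N i) ∧ ¬IsP (N i)) :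
    NoDir (glue (bond j) N) ↔ ∀ i, ¬IsE (N i) := by
  constructor
  · intro h i
    rw [← (hN i).1.noDir_iff (hN i).2]
    rintro x ⟨p, q⟩
    exact h (⟨i, x.1⟩, x.2) ⟨by rw [netC_glue, p]; rfl,
      (netC_glue i (flp _ x)).trans (by rw [q]; rfl)⟩
  · rintro h ⟨⟨i, e⟩, b⟩ ⟨p, q⟩
    obtain ⟨c, h1, h2⟩ := netC_phi_inl (a := N i (e, b)) p
    obtain ⟨d, h3, h4⟩ := netC_phi_inl (a := N i (flp _ (e, b))) q
    exact ((hN i).1.noDir_iff (hN i).2).mpr (h i) (e, b)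
      ⟨h1.trans (show Sum.inl c = Sum.inl true from congrArg _ (Sum.inl.inj h2)),
        h3.trans (show Sum.inl d = Sum.inl false from congrArg _ (Sum.inl.inj h4))⟩

set_option synthInstance.maxSize 4096 in
theorem isNet_tri : IsNet tri :=
  ⟨inferInstance, by decide, netC_nonsep_of_bool (by decide)⟩

theorem simple_clo_tri : Simple (clo tri) := ⟨by decide, by decide⟩

theorem isNet_bond {j : ℕ} (hj : 1 ≤ j) : IsNet (bond j) := by
  have hc : ∀ (o : Option (Fin j)) (b : Bool), clo (bond j) (o, b) = Sum.inl b := by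
    rintro (_ | e) b <;> rfl
  refine ⟨⟨⟨0, hj⟩⟩, ?_, netA_nonsep_of_two fun X ⟨a, ha⟩ ⟨b, hb⟩ => ?_⟩
  · rintro (b | v)
    · exact ⟨(none, b), rfl⟩
    · exact v.elim
  · exact ⟨Sum.inl true, ⟨⟨(a, true), ha, hc _ _⟩, (b, true), hb, hc _ _⟩, Sum.inl false,
      ⟨⟨(a, false), ha, hc _ _⟩, (b, false), hb, hc _ _⟩, by simp⟩

set_option synthInstance.maxSize 4096 in
theorem isNet_edgeN : IsNet edgeN ∧ IsE edgeN ∧ Simple edgeN :=
  ⟨⟨inferInstance, by decide, netC_nonsep_of_bool (by decide)⟩, by simp [IsE],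
    by decide, by decide⟩

end Pool.Agent.Lib.MP_77dff5_pr
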