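import Pool.Agent.Lib.MP_77dff5_pr.PermA

/-! Cycles of permutations, Euler's inequality, a combinatorial Jordan curve theorem. -/

set_option autoImplicit false

namespace Pool.Agent.Lib.MP_77dff5_pr

open Equiv

section
variable {D D' V : Type} [Finite D]

/-- A property preserved by `π` propagates along cycles. -/
theorem permB_sc {π : Perm D} {a b : D} (h : π.SameCycle a b) (S : D → Prop) (ha : S a)
    (hS : ∀ x, S x → S (π x)) : S b := by
  obtain ⟨n, rfl⟩ := h.exists_nat_pow_eq
  induction n with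
  | zero => exact ha
  | succ n ih =>
    rw [pow_succ', Perm.mul_apply]
    exact hS _ (ih (Perm.SameCycle.rfl.pow_right))

theorem permB_ncyc_le (π : Perm D) : ncyc π ≤ Nat.card D :=
  Nat.card_le_card_of_surjective _ Quotient.mk_surjective

/-- Induction by removing one point from a cycle. -/
theorem permB_ind [DecidableEq D] {P : Perm D → Prop} (h1 : P 1)
    (hs : ∀ (β : Perm D) (a b : D), a ≠ b → β b = a → P (β * swap a b) → P β) (β : Perm D) :
    P β := by
  induction hk : Nat.card D - ncyc β using Nat.strong_induction_on generalizing β with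
  | _ k ih =>
    by_cases hβ : β = 1
    · rw [hβ]; exact h1
    obtain ⟨b, hb⟩ : ∃ b, β b ≠ b := by
      by_contra hc
      push Not at hc
      exact hβ (Equiv.ext hc)
    refine hs β (β b) b hb rfl (ih _ ?_ _ rfl)
    have e := ncyc_mul_swap_of_same β (a := β b) (b := b) Perm.SameCycle.rfl.apply_left hb
    have := permB_ncyc_le (β * swap (β b) b)
    omega

theorem permB_sub1 (β γ : Perm D) {u y : D} (hu : ∀ z, γ.SameCycle u z → β z ≠ z → z = u)
    (h : γ.SameCycle u y) : (β * γ).SameCycle u y := by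
  refine (permB_sc h (fun y => γ.SameCycle u y ∧ (β * γ).SameCycle u y)
    ⟨Perm.SameCycle.rfl, Perm.SameCycle.rfl⟩ ?_).2
  rintro x ⟨h1, h2⟩
  refine ⟨h1.apply_right, ?_⟩
  by_cases hx : β (γ x) = γ x
  · rw [← hx]
    exact h2.apply_right
  · rw [hu _ h1.apply_right hx]

theorem permB_sub2 (β γ : Perm D) (h : ∀ x y, γ.SameCycle x y → β x ≠ x → β y ≠ y → x = y)
    {x y : D} (hxy : γ.SameCycle x y) : (β * γ).SameCycle x y := by
  by_cases hx : ∃ u, γ.SameCycle x u ∧ β u ≠ u
  · obtain ⟨u, h1, h2⟩ := hx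
    have hu : ∀ z, γ.SameCycle u z → β z ≠ z → z = u := fun z a b => (h u z a h2 b).symm
    exact (permB_sub1 β γ hu h1.symm).symm.trans (permB_sub1 β γ hu (h1.symm.trans hxy))
  · exact permB_sub1 β γ (fun z a b => absurd ⟨z, a, b⟩ hx) hxy

/-- Products in which every cycle of `γ` meets the support of `β` at most once. -/
theorem prod_sameCycle (β γ : Perm D)
    (h : ∀ x y, γ.SameCycle x y → β x ≠ x → β y ≠ y → x = y) (x y : D) :
    (β * γ).SameCycle x y ↔
      ∃ u u', γ.SameCycle x u ∧ β.SameCycle u u' ∧ γ.SameCycle u' y := by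
  constructor
  · intro hxy
    refine permB_sc hxy (fun y => ∃ u u', γ.SameCycle x u ∧ β.SameCycle u u' ∧ γ.SameCycle u' y)
      ⟨x, x, Perm.SameCycle.rfl, Perm.SameCycle.rfl, Perm.SameCycle.rfl⟩ ?_
    rintro z ⟨u, u', h1, h2, h3⟩
    rw [Perm.mul_apply]
    by_cases hz : β (γ z) = γ z
    · rw [hz]
      exact ⟨u, u', h1, h2, h3.apply_right⟩
    by_cases hu : β u' = u'
    · obtain rfl := h2.eq_of_right hu
      exact ⟨γ z, β (γ z), h1.trans h3.apply_right, Perm.SameCycle.rfl.apply_right,
        Perm.SameCycle.rfl⟩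
    · rw [← h _ _ h3.apply_right hu hz]
      exact ⟨u, β u', h1, h2.apply_right, Perm.SameCycle.rfl⟩
  · rintro ⟨u, u', h1, h2, h3⟩
    refine ((permB_sub2 β γ h h1).trans ?_).trans (permB_sub2 β γ h h3)
    refine permB_sc h2 (fun z => (β * γ).SameCycle u z) Perm.SameCycle.rfl fun z hz => ?_
    have h4 : (β * γ).SameCycle z (γ.symm z) :=
      permB_sub2 β γ h Perm.SameCycle.rfl.symm_apply_right
    have h5 := (hz.trans h4).apply_right
    rwa [Perm.mul_apply, apply_symm_apply] at h5

omit [Finite D] in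
theorem permB_supp [DecidableEq D] {β : Perm D} {a b x : D} (hab : a ≠ b) (hb : β b = a)
    (hx : (β * swap a b) x ≠ x) : β x ≠ x ∧ x ≠ a := by
  have h1 : x ≠ a := by
    rintro rfl
    exact hx (by rw [Perm.mul_apply, swap_apply_left, hb])
  refine ⟨fun e => ?_, h1⟩
  have h2 : x ≠ b := by
    rintro rfl
    exact hab (hb.symm.trans e)
  exact hx (by rw [Perm.mul_apply, swap_apply_of_ne_of_ne h1 h2, e])

theorem prod_ncyc (β γ : Perm D) (h : ∀ x y, γ.SameCycle x y → β x ≠ x → β y ≠ y → x = y) :
    ncyc (β * γ) + Nat.card D = ncyc β + ncyc γ := by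
  classical
  revert h
  refine permB_ind (P := fun β => (∀ x y, γ.SameCycle x y → β x ≠ x → β y ≠ y → x = y) →
    ncyc (β * γ) + Nat.card D = ncyc β + ncyc γ) ?_ ?_ β
  · intro _
    rw [one_mul, ncyc_one, add_comm]
  · intro β a b hab hb ih h
    have ha : β a ≠ a := fun e => hab (β.injective (e.trans hb.symm))
    have hb' : β b ≠ b := fun e => hab (hb.symm.trans e)
    have e1 := ih fun x y hxy hx hy => h x y hxy (permB_supp hab hb hx).1 (permB_supp hab hb hy).1
    have e2 := ncyc_mul_swap_of_same β (a := a) (b := b)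
      (hb ▸ Perm.SameCycle.rfl.apply_left) hab
    have e3 := ncyc_mul_swap_of_not (γ * (β * swap a b)) (a := a) (b := b) fun hc => by
      refine hab (h a b (permB_sc hc (fun z => γ.SameCycle a z) Perm.SameCycle.rfl ?_) ha hb')
      intro z hz
      have : (β * swap a b) z = z := by
        by_contra hc
        exact (permB_supp hab hb hc).2 (h a z hz ha (permB_supp hab hb hc).1).symm
      rw [Perm.mul_apply, this]
      exact hz.apply_right
    rw [mul_assoc, mul_swap_mul_self, ncyc_mul_comm γ, ncyc_mul_comm γ] at e3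
    omega

omit [Finite D] in
theorem permB_ncomp_comm (σ α : Perm D) : ncomp σ α = ncomp α σ := by
  unfold ncomp
  simp only [or_comm]

theorem permB_ncomp_le {σ α σ' α' : Perm D}
    (h1 : ∀ x, Relation.EqvGen (fun a b => b = σ' a ∨ b = α' a) x (σ x))
    (h2 : ∀ x, Relation.EqvGen (fun a b => b = σ' a ∨ b = α' a) x (α x)) :
    ncomp σ' α' ≤ ncomp σ α := by
  refine Nat.card_le_card_of_surjective
    (Quot.lift (Quot.mk fun a b => b = σ' a ∨ b = α' a) ?_) ?_
  · rintro a _ (rfl | rfl)
    · exact Quot.eqvGen_sound (h1 a)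
    · exact Quot.eqvGen_sound (h2 a)
  · rintro ⟨x⟩
    exact ⟨Quot.mk _ x, rfl⟩

theorem permB_ncomp_swap [DecidableEq D] (σ α : Perm D) (a b : D) :
    ncomp σ α ≤ ncomp σ (α * swap a b) + 1 := by
  classical
  let q : D → Quot fun a b => b = σ a ∨ b = α a := Quot.mk _
  have q1 : ∀ x, q (σ x) = q x := fun x =>
    Eq.symm (Quot.sound (r := fun a b => b = σ a ∨ b = α a) (a := x) (Or.inl rfl))
  have q2 : ∀ x, q (α x) = q x := fun x =>
    Eq.symm (Quot.sound (r := fun a b => b = σ a ∨ b = α a) (a := x) (Or.inr rfl))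
  let g : D → Quot fun a b => b = σ a ∨ b = α a := fun x => if q x = q b then q a else q x
  have hg : ∀ x y, (y = σ x ∨ y = (α * swap a b) x) → g x = g y := by
    rintro x _ (rfl | rfl)
    · simp only [g, q1]
    · simp only [g, Perm.mul_apply, q2]
      rcases eq_or_ne x a with rfl | h1
      · simp
      rcases eq_or_ne x b with rfl | h2
      · simp
      · rw [swap_apply_of_ne_of_ne h1 h2]
  unfold ncomp
  rw [← Finite.card_option]
  refine Nat.card_le_card_of_surjective (fun o => o.elim (q b) (Quot.lift g hg)) ?_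
  rintro ⟨x⟩
  by_cases hx : q x = q b
  · exact ⟨none, hx.symm⟩
  · exact ⟨some (Quot.mk _ x), if_neg hx⟩

/-- Joining two cycles of `α` does not decrease the defect in Euler's inequality. -/
theorem euler_step [DecidableEq D] (σ α : Perm D) {a b : D} (h : ¬α.SameCycle a b) :
    ncyc (α * swap a b) + ncyc (σ * (α * swap a b)) + 2 * ncomp σ α ≤
      ncyc α + ncyc (σ * α) + 2 * ncomp σ (α * swap a b) := by
  have hab : a ≠ b := fun e => h (e.sameCycle α)
  have e1 := ncyc_mul_swap_of_not α h
  rw [← mul_assoc]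
  by_cases hc : (σ * α).SameCycle a b
  · have e2 := ncyc_mul_swap_of_same _ hc hab
    have hab' : Relation.EqvGen (fun a b => b = σ a ∨ b = α a) a b :=
      permB_sc hc (fun z => Relation.EqvGen (fun a b => b = σ a ∨ b = α a) a z) (.refl _)
        fun z hz => .trans _ _ _ hz (.trans _ _ _ (.rel _ _ (Or.inr rfl)) (.rel _ _ (Or.inl rfl)))
    have e3 : ncomp σ α ≤ ncomp σ (α * swap a b) := by
      refine permB_ncomp_le (fun x => .rel _ _ (Or.inl rfl)) fun x => ?_
      refine .trans _ (swap a b x) _ ?_ (.rel _ _ (Or.inr rfl))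
      rcases eq_or_ne x a with rfl | h1
      · rwa [swap_apply_left]
      rcases eq_or_ne x b with rfl | h2
      · rw [swap_apply_right]
        exact hab'.symm
      · rw [swap_apply_of_ne_of_ne h1 h2]
        exact .refl _
    omega
  · have e2 := ncyc_mul_swap_of_not _ hc
    have e3 := permB_ncomp_swap σ α a b
    omega

omit [Finite D] in
theorem permB_not_same [DecidableEq D] {β : Perm D} {a b : D} (hab : a ≠ b) (hb : β b = a) :
    ¬(β * swap a b).SameCycle a b := fun h =>
  hab (h.eq_of_left (by rw [Function.IsFixedPt, Perm.mul_apply, swap_apply_left, hb]))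

/-- Euler's inequality. -/
theorem euler_le (σ α : Perm D) :
    ncyc σ + ncyc α + ncyc (σ * α) ≤ Nat.card D + 2 * ncomp σ α := by
  classical
  refine permB_ind (P := fun α =>
    ncyc σ + ncyc α + ncyc (σ * α) ≤ Nat.card D + 2 * ncomp σ α) ?_ ?_ α
  · have : ncyc σ ≤ ncomp σ 1 := by
      refine Nat.card_le_card_of_surjective
        (Quot.lift (Quotient.mk (Perm.SameCycle.setoid σ)) ?_) ?_
      · rintro a _ (rfl | rfl)
        · exact Quotient.sound Perm.SameCycle.rfl.apply_right
        · rfl
      · rintro ⟨x⟩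
        exact ⟨Quot.mk _ x, rfl⟩
    rw [mul_one, ncyc_one]
    omega
  · intro β a b hab hb ih
    have := euler_step σ _ (permB_not_same hab hb)
    rw [mul_swap_mul_self] at this
    omega

theorem euler_le_of_trans2 {σ α : Perm D} (h : Trans2 σ α) :
    ncyc σ + ncyc α + ncyc (σ * α) ≤ Nat.card D + 2 := by
  have h1 : ncomp σ α ≤ 1 := by
    refine Finite.card_le_one_iff_subsingleton.2 ⟨?_⟩
    rintro ⟨x⟩ ⟨y⟩
    exact Quot.eqvGen_sound (h x y)
  have := euler_le σ α
  omega

/-- Splitting a vertex along two corners of one face disconnects a planar map. -/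
theorem split_disconnect [DecidableEq D] {σ α : Perm D} (hc : Trans2 σ α) (h0 : Gen0 σ α)
    {a b : D} (hab : a ≠ b) (h1 : σ.SameCycle a b) (h2 : (σ * α).SameCycle (α⁻¹ a) (α⁻¹ b)) :
    ¬Relation.EqvGen (fun x y => y = (σ * swap a b) x ∨ y = α x) a b := by
  intro h
  have ht : Trans2 (σ * swap a b) α := by
    intro x y
    induction hc x y with
    | refl => exact .refl _
    | symm _ _ _ ih => exact ih.symm
    | trans _ _ _ _ _ i1 i2 => exact .trans _ _ _ i1 i2
    | rel x y hxy =>
      rcases hxy with rfl | rfl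
      · refine .trans _ (swap a b x) _ ?_ (.rel _ _ (Or.inl (by simp)))
        rcases eq_or_ne x a with rfl | h1
        · rwa [swap_apply_left]
        rcases eq_or_ne x b with rfl | h2
        · rw [swap_apply_right]
          exact h.symm
        · rw [swap_apply_of_ne_of_ne h1 h2]
          exact .refl _
      · exact .rel _ _ (Or.inr rfl)
  have e := euler_le_of_trans2 ht
  rw [mul_assoc, swap_mul_eq_mul_swap, ← mul_assoc, ncyc_mul_swap_of_same _ h1 hab,
    ncyc_mul_swap_of_same _ h2 (α⁻¹.injective.ne hab)] at e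
  unfold Gen0 at h0
  omega

end

end Pool.Agent.Lib.MP_77dff5_pr
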