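import Pool.Agent.Lib.MP_77dff5_pr.Net
import Pool.Agent.Lib.MP_77dff5_pr.PermB

/-! Rooted maps: stems, root loops, contraction of the root edge, Tutte's recursion. -/

set_option autoImplicit false

namespace Pool.Agent.Lib.MP_77dff5_pr

open scoped ENNReal Classical

section perm
open Equiv

variable {D : Type}

theorem rootA_eqv_map {A B : Type} {r : A → A → Prop} {s : B → B → Prop} (f : A → B)
    (h : ∀ a b, r a b → Relation.EqvGen s (f a) (f b)) {a b : A} (hab : Relation.EqvGen r a b) :
    Relation.EqvGen s (f a) (f b) := by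
  induction hab with
  | rel a b hab => exact h a b hab
  | refl a => exact .refl _
  | symm a b _ ih => exact ih.symm _ _
  | trans a b c _ _ ih1 ih2 => exact ih1.trans _ _ _ ih2

theorem rootA_eqv_inv {A : Type} {r : A → A → Prop} (P : A → Prop)
    (h : ∀ a b, r a b → (P a ↔ P b)) {a b : A} (hab : Relation.EqvGen r a b) : P a ↔ P b := by
  induction hab with
  | rel a b hab => exact h a b hab
  | refl a => exact Iff.rfl
  | symm a b _ ih => exact ih.symm
  | trans a b c _ _ ih1 ih2 => exact ih1.trans ih2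

theorem rootA_opt_mul (σ τ : Perm D) :
    ((σ * τ).optionCongr : Perm (Option D)) = σ.optionCongr * τ.optionCongr := by
  refine Equiv.ext fun o => ?_
  cases o <;> simp

theorem rootA_opt_pow (σ : Perm D) (n : ℕ) (o : Option D) :
    ((σ.optionCongr : Perm (Option D)) ^ n) o = o.map (σ ^ n) := by
  induction n with
  | zero => cases o <;> simp
  | succ n ih =>
    rw [pow_succ', pow_succ', Perm.mul_apply, ih]
    cases o <;> simp

variable [Finite D]

theorem rootA_sc_some (σ : Perm D) (a b : D) :
    Perm.SameCycle (σ.optionCongr : Perm (Option D)) (some a) (some b) ↔ σ.SameCycle a b := by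
  constructor
  · intro h
    obtain ⟨n, hn⟩ := h.exists_nat_pow_eq
    rw [rootA_opt_pow, Option.map_some, Option.some_inj] at hn
    exact ⟨n, by rw [zpow_natCast, hn]⟩
  · intro h
    obtain ⟨n, hn⟩ := h.exists_nat_pow_eq
    exact ⟨n, by rw [zpow_natCast, rootA_opt_pow, Option.map_some, hn]⟩

theorem rootA_sc_none (σ : Perm D) (b : D) :
    ¬Perm.SameCycle (σ.optionCongr : Perm (Option D)) none (some b) := by
  intro h
  obtain ⟨n, hn⟩ := h.exists_nat_pow_eq
  rw [rootA_opt_pow] at hn
  cases hn

theorem rootA_sc_none' (σ : Perm D) (b : D) :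
    ¬Perm.SameCycle (σ.optionCongr : Perm (Option D)) (some b) none :=
  fun h => rootA_sc_none σ b h.symm

/-- insert the stem after the dart `x` -/
noncomputable def rootAIns (σ : Perm D) (x : D) : Perm (Option D) :=
  (σ.optionCongr : Perm (Option D)) * swap none (some x)

theorem rootA_ins_sc (σ : Perm D) (x : D) (a b : Option D) :
    (rootAIns σ x).SameCycle a b ↔ σ.SameCycle (a.getD x) (b.getD x) := by
  rw [rootAIns, sameCycle_mul_swap_of_not _ (rootA_sc_none σ x)]
  cases a with
  | none =>
    cases b with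
    | none => simp [Perm.SameCycle.refl]
    | some b =>
      simp only [rootA_sc_none, rootA_sc_some, Perm.SameCycle.refl, false_and, or_false, false_or,
        true_and, Option.getD_none, Option.getD_some]
      exact Perm.sameCycle_comm
  | some a =>
    cases b with
    | none =>
      simp only [rootA_sc_none', rootA_sc_some, Perm.SameCycle.refl, false_and, false_or,
        and_true, Option.getD_none, Option.getD_some]
    | some b =>
      simp only [rootA_sc_none', rootA_sc_some, false_and, and_false, or_false, Option.getD_some]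

theorem rootA_ins_ncyc (σ : Perm D) (x : D) : ncyc (rootAIns σ x) = ncyc σ := by
  have h := ncyc_mul_swap_of_not _ (rootA_sc_none σ x)
  rw [ncyc_optionCongr] at h
  exact Nat.add_right_cancel h

omit [Finite D] in
theorem rootA_ins_mul (σ α : Perm D) (x : D) :
    rootAIns σ x * α.optionCongr = rootAIns (σ * α) (α⁻¹ x) := by
  rw [rootAIns, rootAIns, rootA_opt_mul, mul_assoc, mul_assoc, mul_swap_eq_swap_mul]
  simp

omit [Finite D] in
theorem rootA_ins_surj (τ : Perm (Option D)) {x : D} (hx : τ (some x) = none) :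
    ∃ σ, rootAIns σ x = τ := by
  refine ⟨removeNone (τ * swap none (some x)), ?_⟩
  rw [rootAIns, map_equiv_removeNone, Perm.mul_apply, swap_apply_left, hx, swap_self, mul_assoc,
    mul_assoc, swap_mul_self, mul_one]
  rfl

theorem rootA_ins_gen0 (σ α : Perm D) (x : D) :
    Gen0 (rootAIns σ x) α.optionCongr ↔ Gen0 σ α := by
  unfold Gen0
  rw [rootA_ins_mul, rootA_ins_ncyc, rootA_ins_ncyc, ncyc_optionCongr, Finite.card_option]
  omega

theorem rootA_three (π : Perm D) (h1 : ∀ x, π x ≠ x) (h2 : ∀ x, π (π x) ≠ x) :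
    3 * ncyc π ≤ Nat.card D := by
  let f : Fin 3 × Quotient (Perm.SameCycle.setoid π) → D := fun p => (π ^ p.1.val) p.2.out
  have hf : Function.Injective f := by
    rintro ⟨i, q⟩ ⟨j, q'⟩ h
    have e : q = q' := by
      rw [← Quotient.out_eq q, ← Quotient.out_eq q']
      refine Quotient.sound ?_
      have a : π.SameCycle q.out ((π ^ i.val) q.out) := ⟨i.val, by rw [zpow_natCast]⟩
      have b : π.SameCycle q'.out ((π ^ j.val) q'.out) := ⟨j.val, by rw [zpow_natCast]⟩
      have c : (π ^ i.val) q.out = (π ^ j.val) q'.out := h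
      rw [c] at a
      exact a.trans b.symm
    subst e
    have c : (π ^ i.val) q.out = (π ^ j.val) q.out := h
    have k1 := h1 q.out
    have k2 := h2 q.out
    have k3 := h1 (π q.out)
    congr 1
    fin_cases i <;> fin_cases j <;> simp [pow_two] at c ⊢ <;>
      first | exact k1 c | exact k1 c.symm | exact k2 c | exact k2 c.symm
  have := Nat.card_le_card_of_injective f hf
  rwa [Nat.card_prod, Nat.card_eq_fintype_card, Fintype.card_fin] at this

end perm

theorem rootA_flp_flp {E : Type} (x : E × Bool) : flp E (flp E x) = x := by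
  obtain ⟨e, b⟩ := x
  simp [flp]

theorem rootA_flp_fst {E : Type} (x : E × Bool) : (flp E x).1 = x.1 := rfl

theorem rootA_card_dart (E : Type) : Nat.card (E × Bool) = 2 * Nat.card E := by
  rw [Nat.card_prod, Nat.card_eq_fintype_card (α := Bool), Fintype.card_bool, mul_comm]

section
variable {E V : Type} [Finite E] [Finite V]

omit [Finite E] [Finite V] in
theorem rootA_exists {R : E × Bool → Option V} (h : 1 ≤ deg R none) : ∃ x, R x = none := by
  obtain ⟨x, hx⟩ := (Nat.card_pos_iff.1 h).1
  exact ⟨x, hx⟩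

omit [Finite E] [Finite V] in
theorem rootA_stem {R : E × Bool → Option V} {x : E × Bool} (hx : R x = none)
    (o : Option (E × Bool)) : stem R o = R (o.getD x) := by
  cases o with
  | none => exact hx.symm
  | some y => rfl

theorem rconn_iff {R : E × Bool → Option V} (h : 1 ≤ deg R none) : RConn R ↔ SConn R := by
  obtain ⟨x, hx⟩ := rootA_exists h
  constructor
  · rintro ⟨h1, h2⟩
    refine ⟨fun v => ?_, fun a b => ?_⟩
    · obtain ⟨o, ho⟩ := h1 v
      exact ⟨o.getD x, by rw [← rootA_stem hx, ho]⟩
    · refine rootA_eqv_map (fun o => o.getD x) (fun a b hab => ?_) (h2 (some a) (some b))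
      rcases hab with hab | hab
      · exact .rel _ _ (Or.inl (by rwa [rootA_stem hx, rootA_stem hx] at hab))
      · subst hab
        cases a with
        | none => exact .refl _
        | some a => exact .rel _ _ (Or.inr rfl)
  · rintro ⟨h1, h2⟩
    refine ⟨fun v => ?_, fun a b => ?_⟩
    · obtain ⟨y, hy⟩ := h1 v
      exact ⟨some y, hy⟩
    · have k : ∀ o : Option (E × Bool), Relation.EqvGen
          (fun a b => stem R a = stem R b ∨ b = (flp E).optionCongr a) o (some (o.getD x)) :=
        fun o => .rel _ _ (Or.inl (rootA_stem hx o))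
      refine (k a).trans _ _ _ (.trans _ _ _ ?_ ((k b).symm _ _))
      refine rootA_eqv_map some (fun a b hab => .rel _ _ ?_) (h2 _ _)
      rcases hab with hab | hab
      · exact Or.inl hab
      · exact Or.inr (by rw [hab]; rfl)

omit [Finite V] in
theorem rootA_ins_rot {R : E × Bool → Option V} {x : E × Bool} (hx : R x = none)
    (σ : Equiv.Perm (E × Bool)) : IsRot (stem R) (rootAIns σ x) ↔ IsRot R σ := by
  constructor
  · intro h a b
    have k := h (some a) (some b)
    rwa [rootA_ins_sc] at k
  · intro h a b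
    rw [rootA_ins_sc, rootA_stem hx, rootA_stem hx]
    exact h _ _

theorem embS_eq {R : E × Bool → Option V} (h : 1 ≤ deg R none) :
    embS R = deg R none * emb R (flp E) := by
  obtain ⟨x0, hx0⟩ := rootA_exists h
  unfold embS emb deg
  rw [← Nat.card_prod]
  symm
  refine Nat.card_eq_of_bijective (fun p => ⟨rootAIns p.2.1 p.1.1,
    (rootA_ins_rot p.1.2 _).2 p.2.2.1, (rootA_ins_gen0 _ _ _).2 p.2.2.2⟩) ⟨?_, ?_⟩
  · rintro ⟨⟨x, hx⟩, ⟨σ, hσ⟩⟩ ⟨⟨y, hy⟩, ⟨τ, hτ⟩⟩ hxy
    have e : rootAIns σ x = rootAIns τ y := congrArg Subtype.val hxy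
    have e1 : x = y := by
      have a : rootAIns σ x (some x) = none := by simp [rootAIns]
      have b : rootAIns τ y (some y) = none := by simp [rootAIns]
      rw [← e, ← a] at b
      exact (Option.some_inj.1 ((rootAIns σ x).injective b)).symm
    subst e1
    have e2 : σ = τ := Equiv.optionCongr_injective (mul_right_cancel e)
    subst e2
    rfl
  · rintro ⟨τ, h1, h2⟩
    obtain ⟨x, hx⟩ : ∃ x, τ (some x) = none := by
      cases ho : τ.symm none with
      | some x => exact ⟨x, by rw [← ho, Equiv.apply_symm_apply]⟩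
      | none =>
        have a : τ none = none := by
          nth_rewrite 1 [← ho]
          rw [Equiv.apply_symm_apply]
        exact absurd (((h1 none (some x0)).2 hx0.symm).eq_of_left a) (by simp)
    have hR : R x = none := (h1 (some x) none).1 ⟨1, by rw [zpow_one, hx]⟩
    obtain ⟨σ, e⟩ := rootA_ins_surj τ hx
    rw [← e] at h1 h2
    exact ⟨⟨⟨x, hR⟩, ⟨_, (rootA_ins_rot hR _).1 h1, (rootA_ins_gen0 _ _ _).1 h2⟩⟩, Subtype.ext e⟩

theorem RConn.isEmpty {R : E × Bool → Option V} (h : RConn R) (h0 : deg R none = 0) :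
    IsEmpty E ∧ IsEmpty V := by
  have h1 : ∀ x, R x ≠ none := fun x hx =>
    (Nat.card_pos_iff.2 ⟨⟨⟨x, hx⟩⟩, inferInstance⟩ : 0 < deg R none).ne' h0
  have h2 : ∀ x : E × Bool, False := by
    intro x
    have k := rootA_eqv_inv (fun o => o = none) (fun a b hab => ?_) (h.2 none (some x))
    · simp at k
    · rcases hab with hab | hab
      · cases a with
        | none =>
          cases b with
          | none => rfl
          | some b => exact absurd hab.symm (h1 b)
        | some a =>
          cases b with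
          | none => exact absurd hab (h1 a)
          | some b => simp
      · subst hab
        cases a <;> simp
  refine ⟨⟨fun e => h2 (e, true)⟩, ⟨fun v => ?_⟩⟩
  obtain ⟨o, ho⟩ := h.1 (some v)
  cases o with
  | none => cases ho
  | some x => exact h2 x

theorem rootA_euler {R : E × Bool → Option V} (h : RConn R) :
    ∃ σ, IsRot (stem R) σ ∧ ncyc σ = Nat.card V + 1 ∧ 1 ≤ ncyc (σ * (flp E).optionCongr) ∧
      Nat.card V + ncyc (σ * (flp E).optionCongr) ≤ Nat.card E + 1 := by
  obtain ⟨σ, hσ⟩ := exists_isRot (stem R)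
  have h1 := ncyc_of_isRot hσ
  rw [h.1.range_eq, Set.ncard_univ, Finite.card_option] at h1
  have h2 := euler_le_of_trans2 ((conn_iff_trans2 hσ _).1 h.2)
  rw [h1, ncyc_optionCongr, ncyc_flp, Finite.card_option, rootA_card_dart] at h2
  exact ⟨σ, hσ, h1, ncyc_pos _, by omega⟩

theorem RConn.card_le {R : E × Bool → Option V} (h : RConn R) : Nat.card V ≤ Nat.card E := by
  obtain ⟨σ, -, -, h1, h2⟩ := rootA_euler h
  omega

theorem SConn.card_le {ν : E × Bool → V} (h : SConn ν) : Nat.card V ≤ Nat.card E + 1 := by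
  rcases isEmpty_or_nonempty (E × Bool) with hE | hE
  · have : IsEmpty V := ⟨fun v => by
      obtain ⟨x, -⟩ := h.1 v
      exact hE.false x⟩
    simp
  · obtain ⟨σ, hσ⟩ := exists_isRot ν
    have h1 := ncyc_of_isRot hσ
    rw [h.1.range_eq, Set.ncard_univ] at h1
    have h2 := euler_le_of_trans2 ((conn_iff_trans2 hσ _).1 h.2)
    have h3 := ncyc_pos (σ * flp E)
    rw [h1, ncyc_flp, rootA_card_dart] at h2
    omega

/-- trees are planar -/
theorem RConn.embS_ne_zero {R : E × Bool → Option V} (h : RConn R)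
    (hc : Nat.card E = Nat.card V) : embS R ≠ 0 := by
  obtain ⟨σ, hσ, h0, h1, h2⟩ := rootA_euler h
  refine (Nat.card_pos_iff.2 ⟨⟨⟨σ, hσ, ?_⟩⟩, inferInstance⟩).ne'
  unfold Gen0
  rw [h0, ncyc_optionCongr, ncyc_flp, Finite.card_option, rootA_card_dart]
  omega

/-- simple planar graphs are sparse -/
theorem card_le_three_mul {ν : E × Bool → V} (h : SConn ν) (hs : Simple ν)
    (hp : emb ν (flp E) ≠ 0) : Nat.card E ≤ 3 * Nat.card V := by
  obtain ⟨σ, hσ, h0⟩ := (Nat.card_pos_iff.1 (Nat.pos_of_ne_zero hp)).1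
  have hν : ∀ x, ν (σ x) = ν x := fun x => ((hσ x (σ x)).1 ⟨1, by rw [zpow_one]⟩).symm
  by_cases h2 : ∀ x, (σ * flp E) ((σ * flp E) x) ≠ x
  · have h1 : ∀ x, (σ * flp E) x ≠ x := fun x hx => h2 x (by rw [hx, hx])
    have h3 := rootA_three _ h1 h2
    have h4 := ncyc_of_isRot hσ
    rw [h.1.range_eq, Set.ncard_univ] at h4
    unfold Gen0 at h0
    rw [h4, ncyc_flp, rootA_card_dart] at h0
    rw [rootA_card_dart] at h3
    omega
  · push Not at h2
    obtain ⟨x, hx⟩ := h2
    simp only [Equiv.Perm.mul_apply] at hx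
    have a1 : x = flp E (σ (flp E x)) := by
      refine hs.2 _ _ ?_ ?_
      · rw [← hν (flp E (σ (flp E x))), hx]
      · rw [rootA_flp_flp, hν]
    have a2 : σ x = x := by rwa [← a1] at hx
    have a3 : σ (flp E x) = flp E x := by
      rw [← rootA_flp_flp (σ (flp E x)), ← a1]
    have a4 : ∀ y : E × Bool, y.1 = x.1 → (σ y).1 = x.1 := by
      intro y hy
      have : y = x ∨ y = flp E x := by
        obtain ⟨e, b⟩ := y
        obtain ⟨e', b'⟩ := x
        cases hy
        cases b <;> cases b' <;> simp [flp]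
      rcases this with rfl | rfl
      · rw [a2]
      · rw [a3]
        rfl
    have a5 : ∀ y : E × Bool, y.1 = x.1 := by
      intro y
      refine (rootA_eqv_inv (fun y : E × Bool => y.1 = x.1) (fun a b hab => ?_)
        ((conn_iff_trans2 hσ _).1 h.2 x y)).1 rfl
      rcases hab with rfl | rfl
      · refine ⟨a4 a, fun hb => ?_⟩
        have : σ a = x ∨ σ a = flp E x := by
          obtain ⟨e', b'⟩ := x
          generalize σ a = y at *
          obtain ⟨e, b⟩ := y
          cases hb
          cases b <;> cases b' <;> simp [flp]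
        rcases this with k | k
        · rw [σ.injective (k.trans a2.symm)]
        · rw [σ.injective (k.trans a3.symm)]
          rfl
      · exact Iff.rfl
    have a6 : Subsingleton E := ⟨fun e e' => (a5 (e, true)).trans (a5 (e', true)).symm⟩
    have a7 : Nat.card E ≤ 1 := Finite.card_le_one_iff_subsingleton.2 a6
    have a8 : 0 < Nat.card V := Nat.card_pos_iff.2 ⟨⟨ν x⟩, inferInstance⟩
    omega

theorem sum_deg [Fintype V] (ν : E × Bool → V) : ∑ v, deg ν v = 2 * Nat.card E := by
  rw [← rootA_card_dart, ← Nat.card_congr (Equiv.sigmaFiberEquiv ν), Nat.card_sigma]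
  rfl

end

theorem rconn_triv : RConn triv.2.2 ∧ embS triv.2.2 = 1 ∧ Simple triv.2.2 := by
  have hE : ∀ x : Fin triv.1 × Bool, False := fun x => x.1.elim0
  have hs : ∀ o : Option (Fin triv.1 × Bool), o = none := fun o => by
    cases o with
    | none => rfl
    | some x => exact (hE x).elim
  have h : RConn triv.2.2 := by
    refine ⟨fun v => ⟨none, ?_⟩, fun a b => ?_⟩
    · cases v with
      | none => rfl
      | some v => exact v.elim0
    · rw [hs a, hs b]
      exact .refl _
  refine ⟨h, le_antisymm ?_ (Nat.pos_of_ne_zero (h.embS_ne_zero rfl)),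
    fun x => (hE x).elim, fun x => (hE x).elim⟩
  exact Finite.card_le_one_iff_subsingleton.2
    ⟨fun σ τ => Subtype.ext (Equiv.ext fun o => (hs _).trans (hs _).symm)⟩

theorem eq_triv {R : RG} (h : RConn R.2.2) (h0 : deg R.2.2 none = 0) : R = triv := by
  obtain ⟨m, n, R⟩ := R
  obtain ⟨h1, h2⟩ := h.isEmpty h0
  obtain rfl : m = 0 := by
    by_contra hm
    exact h1.false ⟨0, Nat.pos_of_ne_zero hm⟩
  obtain rfl : n = 0 := by
    by_contra hn
    exact h2.false ⟨0, Nat.pos_of_ne_zero hn⟩
  have e : R = fun x => x.1.elim0 := funext fun x => x.1.elim0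
  rw [e]
  rfl

end Pool.Agent.Lib.MP_77dff5_pr
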