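import Pool.Agent.Lib.MP_77dff5_pr.EqOm
import Pool.Agent.Lib.MP_77dff5_pr.Net
import Pool.Agent.Lib.MP_77dff5_pr.Emb
import Pool.Agent.Lib.MP_77dff5_pr.RootA
import Pool.Agent.Lib.MP_77dff5_pr.MDefsEq

/-! Partition of the classes, symmetry, supports. -/

set_option autoImplicit false

namespace Pool.Agent.Lib.MP_77dff5_pr

open scoped ENNReal NNReal Classical

variable {x y : ℝ≥0∞} {wv : RG → ℝ≥0∞}

theorem partA_sumKA (F : KA → ℝ≥0∞) : ∑ k, F k = F .M + F .E + F .S + F .P + F .H := by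
  have : (Finset.univ : Finset KA) = {.M, .E, .S, .P, .H} := by
    ext k
    cases k <;> simp
  rw [this]
  simp [add_assoc]

theorem partA_sumKB (F : KB → ℝ≥0∞) :
    ∑ k, F k = F .E + F .S + F .P0 + F .P1 + F .H + F .R + F .G := by
  have : (Finset.univ : Finset KB) = {.E, .S, .P0, .P1, .H, .R, .G} := by
    ext k
    cases k <;> simp
  rw [this]
  simp [add_assoc]

theorem partA_clsA (P : NG → Prop) (D : DG) : clsA x y P (.inr (.inl D)) =
    ind (IsNet D.1.2.2 ∧ P D.1) * (wt D.1.1 D.1.2.1 * emb (clo D.1.2.2) (flp _) * y ^ D.1.1 *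
      (∏ a, wM x y (D.2.1 a)) * ∏ v, wTriv x (D.2.2 v)) := by
  simp only [clsA, onD, wDec, wNA]
  ring

theorem partA_clsB (P : NG → Prop) (D : DG) : clsB wv P (.inr (.inl D)) =
    ind (IsNet D.1.2.2 ∧ P D.1) * (ind (Simple D.1.2.2 ∧ emb (clo D.1.2.2) (flp _) ≠ 0) *
      wt D.1.1 D.1.2.1 * (∏ a, wTriv 1 (D.2.1 a)) * ∏ v, wv (D.2.2 v)) := by
  have : ind (IsNet D.1.2.2 ∧ P D.1 ∧ Simple D.1.2.2 ∧ emb (clo D.1.2.2) (flp _) ≠ 0) =
      ind (IsNet D.1.2.2 ∧ P D.1) * ind (Simple D.1.2.2 ∧ emb (clo D.1.2.2) (flp _) ≠ 0) := by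
    rw [← and_assoc]
    by_cases h1 : IsNet D.1.2.2 ∧ P D.1 <;>
      by_cases h2 : Simple D.1.2.2 ∧ emb (clo D.1.2.2) (flp _) ≠ 0 <;>
      simp only [ind, h1, h2, and_self, and_true, and_false, if_true, if_false, mul_one, mul_zero,
        not_false_eq_true, ne_eq]
  simp only [clsB, onD, wDec, wNB, this]
  ring

/-- the five kinds of networks -/
theorem partA_cases {E V : Type} [Finite E] [Finite V] {N : E × Bool → Bool ⊕ V} (h : IsNet N) :
    (IsE N ∧ ¬IsS N ∧ ¬IsP N ∧ ¬NoDir N) ∨ (¬IsE N ∧ IsS N ∧ ¬IsP N ∧ NoDir N) ∨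
    (¬IsE N ∧ ¬IsS N ∧ IsP N ∧ NoDir N) ∨ (¬IsE N ∧ ¬IsS N ∧ IsP N ∧ ¬NoDir N) ∨
    (¬IsE N ∧ ¬IsS N ∧ ¬IsP N ∧ NoDir N) := by
  have h1 := h.not_S_and_P
  have h2 := h.not_S_of_E
  have h3 := h.not_P_of_E
  have h4 := h.noDir_iff
  tauto

theorem partA (j : JA) (hj : j ≠ .V) (ω : Om) :
    wgA x y j ω = ∑ k, if incA j k then lhsA x y k ω else 0 := by
  rw [partA_sumKA]
  rcases ω with R | D | ν
  · cases j <;> simp [wgA, incA, lhsA, clsA, onD] at hj ⊢
  · cases j
    · simp [wgA, incA, lhsA]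
    all_goals
      simp only [wgA, incA, lhsA, partA_clsA, if_true, Bool.false_eq_true, if_false, add_zero,
        zero_add, ← add_mul, IsT]
    all_goals first | exact absurd rfl hj | skip
    all_goals
      congr 1
      by_cases h : IsNet D.1.2.2
      · rcases partA_cases h with h' | h' | h' | h' | h' <;> simp [ind, h, h']
      · simp [ind, h]
  · cases j <;> simp [wgA, incA, lhsA, clsA, onD, onR] at hj ⊢

theorem partB (j : JB) (h1 : j ≠ .C) (h2 : j ≠ .G) (ω : Om) :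
    wgB wv x j ω = ∑ k, if incB j k then lhsB wv x k ω else 0 := by
  rw [partA_sumKB]
  rcases ω with R | D | ν
  · cases j <;> simp [wgB, incB, lhsB, clsB, onD] at h1 h2 ⊢
  · cases j
    all_goals first | exact absurd rfl h1 | exact absurd rfl h2 | skip
    all_goals
      simp only [wgB, incB, lhsB, partA_clsB, if_true, Bool.false_eq_true, if_false, add_zero,
        zero_add, ← add_mul, IsT]
      congr 1
      by_cases h : IsNet D.1.2.2
      · rcases partA_cases h with h' | h' | h' | h' | h' <;> simp [ind, h, h']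
      · simp [ind, h]
  · cases j <;> simp [wgB, incB, lhsB, clsB, onD] at h1 h2 ⊢

theorem swapO_swapO (ω : Om) : swapO (swapO ω) = ω := by
  rcases ω with R | ⟨⟨m, n, N⟩, d⟩ | ν
  · rfl
  · exact congrArg (fun N' => (.inr (.inl ⟨⟨m, n, N'⟩, d⟩) : Om)) (netA_swapP_swapP N)
  · rfl

theorem partA_swap_inl {E V : Type} (N : E × Bool → Bool ⊕ V) (a : E × Bool) (b : Bool) :
    swapP N a = .inl b ↔ N a = .inl (!b) := by
  simp only [swapP]
  rcases N a with c | v
  · cases b <;> cases c <;> simp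
  · simp

theorem partA_swap_inr {E V : Type} (N : E × Bool → Bool ⊕ V) (a : E × Bool) (v : V) :
    swapP N a = .inr v ↔ N a = .inr v := by
  simp only [swapP]
  rcases N a with c | v <;> simp

theorem partA_simple_swap {E V : Type} (N : E × Bool → Bool ⊕ V) :
    Simple (swapP N) ↔ Simple N := by
  have hi : Function.Injective (Sum.map not id : Bool ⊕ V → Bool ⊕ V) :=
    Function.Injective.sumMap Bool.involutive_not.injective Function.injective_id
  simp only [Simple, swapP, ne_eq, hi.eq_iff]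

theorem swapO_stat (f : ℕ → ℝ) (ω : Om) : aO (swapO ω) = bO ω ∧ bO (swapO ω) = aO ω ∧
    ne (swapO ω) = ne ω ∧ nv (swapO ω) = nv ω ∧ FO f (swapO ω) = FO f ω ∧
    sA (swapO ω) = sA ω ∧ sB (swapO ω) = sB ω ∧ dirO (swapO ω) = dirO ω := by
  rcases ω with R | ⟨⟨m, n, N⟩, d⟩ | ν
  · exact ⟨rfl, rfl, rfl, rfl, rfl, rfl, rfl, rfl⟩
  · refine ⟨?_, ?_, rfl, rfl, ?_, rfl, rfl, ?_⟩
    · simp only [swapO, aO, bO, dDeg, partA_swap_inl, Bool.not_true, Sum.elim_inl]
    · simp only [swapO, aO, bO, dDeg, partA_swap_inl, Bool.not_false, Sum.elim_inl]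
    · simp only [swapO, FO, dDeg, partA_swap_inr]
    · simp only [swapO, dirO, partA_swap_inl, Bool.not_true, Bool.not_false]
      refine Nat.card_congr ((flp (Fin m)).subtypeEquiv fun a => ?_)
      rw [netA_flp_flp, and_comm]
  · exact ⟨rfl, rfl, rfl, rfl, rfl, rfl, rfl, rfl⟩

theorem wgA_swapO (ω : Om) : wgA x y .D (swapO ω) = wgA x y .D ω := by
  rcases ω with R | ⟨⟨m, n, N⟩, d⟩ | ν
  · rfl
  · simp only [swapO, wgA, partA_clsA, isNet_swapP, emb_swapP]
  · rfl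

theorem wgB_swapO (ω : Om) : wgB wv x .D (swapO ω) = wgB wv x .D ω := by
  rcases ω with R | ⟨⟨m, n, N⟩, d⟩ | ν
  · rfl
  · simp only [swapO, wgB, partA_clsB, isNet_swapP, emb_swapP, partA_simple_swap]
  · rfl

theorem map_nrm_swapO {w : Om → ℝ≥0∞} (h : ∀ ω, w (swapO ω) = w ω) :
    (nrm w).map swapO = nrm w := by
  have hi : Function.Involutive swapO := swapO_swapO
  rw [nrm, MeasureTheory.Measure.map_smul]
  congr 1
  refine MeasureTheory.Measure.ext_of_lintegral _ fun ψ hψ => ?_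
  rw [MeasureTheory.lintegral_map hψ (measurable_of_countable _), lintegral_meas, lintegral_meas,
    ← hi.toPerm.tsum_eq fun ω => w ω * ψ ω]
  exact tsum_congr fun ω => by rw [Function.Involutive.coe_toPerm, h]

theorem symD_A (f : ℕ → ℝ) (lam mu : ℝ) : SymD (nrm (wgA x y .D)) aO bO (zz sA f lam mu) := by
  refine ⟨swapO, map_nrm_swapO wgA_swapO, fun ω => (swapO_stat f ω).1,
    fun ω => (swapO_stat f ω).2.1, fun ω => ?_⟩
  obtain ⟨-, -, h1, -, h2, h3, -⟩ := swapO_stat f ω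
  rw [zz, zz, h1, h2, h3]

theorem symD_B (f : ℕ → ℝ) (lam mu : ℝ) : SymD (nrm (wgB wv x .D)) aO bO (zz sB f lam mu) := by
  refine ⟨swapO, map_nrm_swapO wgB_swapO, fun ω => (swapO_stat f ω).1,
    fun ω => (swapO_stat f ω).2.1, fun ω => ?_⟩
  obtain ⟨-, -, h1, -, h2, -, h3, -⟩ := swapO_stat f ω
  rw [zz, zz, h1, h2, h3]

theorem ae_nrm {w : Om → ℝ≥0∞} {p : Om → Prop} (h : ∀ ω, w ω ≠ 0 → p ω) : ∀ᵐ ω ∂nrm w, p ω := by
  refine MeasureTheory.Measure.ae_smul_measure ?_ _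
  rw [MeasureTheory.ae_iff, ← MeasureTheory.lintegral_indicator_one MeasurableSet.of_discrete,
    lintegral_meas]
  refine ENNReal.tsum_eq_zero.2 fun ω => ?_
  by_cases hω : w ω = 0
  · rw [hω, zero_mul]
  · rw [Set.indicator_of_notMem (by simpa using h ω hω), mul_zero]

theorem nrm_ne_zero {w : Om → ℝ≥0∞} (h : ∑' ω, w ω ≠ ⊤) {ω : Om} (hω : w ω ≠ 0) {A : Set Om}
    (hA : ω ∈ A) : nrm w A ≠ 0 := by
  rw [nrm, MeasureTheory.Measure.smul_apply, smul_eq_mul]
  refine mul_ne_zero (ENNReal.inv_ne_zero.2 h) fun h0 => hω ?_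
  rw [← famA_meas_singleton w ω]
  exact MeasureTheory.measure_mono_null (Set.singleton_subset_iff.2 hA) h0

theorem partA_ind {p : Prop} (h : ind p ≠ 0) : p := by
  by_contra hp
  exact h (if_neg hp)

theorem partA_pole {D : DG} (h : IsNet D.1.2.2) (b : Bool) : 1 ≤ dDeg D (.inl b) := by
  obtain ⟨a, ha⟩ := netA_pole h b
  have := Finset.single_le_sum
    (f := fun a => if D.1.2.2 a = .inl b then 1 + rc (D.2.1 a) else 0)
    (fun _ _ => Nat.zero_le _) (Finset.mem_univ a)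
  rw [if_pos ha] at this
  unfold dDeg
  omega

theorem partA_wM {R : RG} (h : wM x y R ≠ 0) : R.2.1 ≤ R.1 := by
  have h1 : RConn R.2.2 := partA_ind fun h0 => h (by rw [wM, w0, h0]; simp)
  simpa using h1.card_le

theorem partA_wTriv {c : ℝ≥0∞} {R : RG} (h : wTriv c R ≠ 0) : R = triv :=
  partA_ind fun h0 => h (by rw [wTriv, h0, zero_mul])

theorem partA_dir {E V : Type} [Finite E] (N : E × Bool → Bool ⊕ V) :
    Nat.card {a // N a = .inl true ∧ N (flp _ a) = .inl false} ≤ Nat.card E := by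
  refine Nat.card_le_card_of_injective (fun a => a.1.1) ?_
  rintro ⟨a, ha⟩ ⟨b, hb⟩ hab
  rcases netA_eq_or_flp (x := a) (y := b) hab.symm with rfl | rfl
  · rfl
  · exact absurd (hb.1.symm.trans ha.2) (by simp)

theorem suppA {P : NG → Prop} {ω : Om} (h : clsA x y P ω ≠ 0) :
    1 ≤ aO ω ∧ 1 ≤ bO ω ∧ ne ω = sA ω + nv ω + 1 ∧ dirO ω ≤ ne ω := by
  rcases ω with R | D | ν
  · exact absurd rfl h
  · rw [partA_clsA] at h
    have hN := (partA_ind (left_ne_zero_of_mul h)).1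
    have h' := right_ne_zero_of_mul h
    have h1 := Finset.prod_ne_zero_iff.1 (right_ne_zero_of_mul h')
    have h2 := Finset.prod_ne_zero_iff.1 (right_ne_zero_of_mul (left_ne_zero_of_mul h'))
    have h3 : ∑ a, (D.2.1 a).2.1 ≤ ∑ a, (D.2.1 a).1 :=
      Finset.sum_le_sum fun a ha => partA_wM (h2 a ha)
    have h4 : ∑ v, (D.2.2 v).2.1 ≤ ∑ v, (D.2.2 v).1 :=
      Finset.sum_le_sum fun v hv => by rw [partA_wTriv (h1 v hv)]; rfl
    have h5 : D.1.2.1 < D.1.1 := by simpa using hN.card_lt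
    have h6 := partA_dir D.1.2.2
    rw [Nat.card_fin] at h6
    refine ⟨partA_pole hN true, partA_pole hN false, ?_, ?_⟩
    · simp only [sA, ne, nv]
      omega
    · simp only [dirO, ne]
      omega
  · exact absurd rfl h

theorem suppM {ω : Om} (h : wgA x y .M ω ≠ 0) : ne ω = sA ω + nv ω := by
  rcases ω with R | D | ν
  · have := partA_wM (R := R) h
    simp only [sA, ne, nv]
    omega
  · exact absurd rfl h
  · exact absurd rfl h

theorem suppB {P : NG → Prop} {ω : Om} (h : clsB wv P ω ≠ 0) :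
    1 ≤ aO ω ∧ 1 ≤ bO ω ∧ 1 ≤ ne ω := by
  rcases ω with R | D | ν
  · exact absurd rfl h
  · rw [partA_clsB] at h
    have hN := (partA_ind (left_ne_zero_of_mul h)).1
    have h5 : D.1.2.1 < D.1.1 := by simpa using hN.card_lt
    refine ⟨partA_pole hN true, partA_pole hN false, ?_⟩
    simp only [ne]
    omega
  · exact absurd rfl h

theorem FO_const (c : ℝ) (ω : Om) : FO (fun _ => c) ω = c * nv ω := by
  rcases ω with R | D | ν
  · simp [FO, rF, nv, mul_comm]
  · simp only [FO, rF, nv, Finset.sum_const, Finset.card_univ, Fintype.card_fin, nsmul_eq_mul,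
      Nat.cast_add, Nat.cast_sum, ← Finset.sum_mul]
    ring
  · simp [FO, nv, mul_comm]

theorem partA_mono {f g : ℕ → ℝ} (h : ∀ d, f d ≤ g d) (ω : Om) : FO f ω ≤ FO g ω := by
  have hr : ∀ R, rF f R ≤ rF g R := fun R => Finset.sum_le_sum fun _ _ => h _
  rcases ω with R | D | ν
  · exact hr R
  · exact add_le_add (add_le_add (Finset.sum_le_sum fun _ _ => h _)
      (Finset.sum_le_sum fun _ _ => hr _)) (Finset.sum_le_sum fun _ _ => hr _)
  · exact Finset.sum_le_sum fun _ _ => h _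

theorem abs_FO_le {f : ℕ → ℝ} {B : ℝ} (h : ∀ d, |f d| ≤ B) (ω : Om) : |FO f ω| ≤ B * nv ω := by
  have h1 := partA_mono (g := fun _ => B) (fun d => (abs_le.1 (h d)).2) ω
  have h2 := partA_mono (f := fun _ => -B) (fun d => (abs_le.1 (h d)).1) ω
  rw [FO_const] at h1 h2
  exact abs_le.2 ⟨by linarith, h1⟩

theorem partA_deg_clo {E V : Type} [Fintype E] (N : E × Bool → Bool ⊕ V) (b : Bool) :
    deg (clo N) (Sum.inl b) = deg N (Sum.inl b) + 1 := by
  simp only [deg, Nat.card_eq_fintype_card, Fintype.card_subtype, Finset.card_filter,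
    Fintype.sum_prod_type, Fintype.sum_option, clo, Fintype.sum_bool, Option.elim]
  cases b <;> simp [add_comm]

/-- facts on 3-connected planar cores -/
theorem TT_facts (t : TT) : Simple t.1.2.2 ∧ 3 * t.1.2.1 + 4 ≤ 2 * t.1.1 ∧ t.1.1 ≤ 3 * t.1.2.1 + 6 ∧
    1 ≤ t.1.2.1 ∧ ∀ b, 2 ≤ deg t.1.2.2 (.inl b) := by
  obtain ⟨⟨m, n, N⟩, h, hp⟩ := t
  have hs := simple_clo_iff.1 h.simple
  have h1 : 3 * n + 4 ≤ 2 * m := by simpa using h.card_le
  have h2 : m + 1 ≤ 3 * (2 + n) := by simpa using card_le_three_mul h.1.sconn h.simple hp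
  refine ⟨hs.1, h1, by dsimp only; omega, ?_, fun b => ?_⟩
  · obtain ⟨a, ha⟩ := netA_pole h.1 true
    have h3 := hs.2 a
    have h4 := hs.1.1 a
    dsimp only at ha h3 h4 ⊢
    rcases hv : N (flp _ a) with c | v
    · cases c
      · exact absurd ⟨ha, hv⟩ h3
      · exact absurd (hv.trans ha.symm) h4
    · exact v.pos
  · have h3 := h.three_le_deg (.inl b)
    rw [partA_deg_clo] at h3
    exact Nat.le_of_succ_le_succ h3

end Pool.Agent.Lib.MP_77dff5_pr
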