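import Pool.Agent.Lib.MP_77dff5_pr.LabelBAux1

/-! Labelled products: sums over glued structures as sums over structures on fixed labels. -/

set_option autoImplicit false

namespace Pool.Agent.Lib.MP_77dff5_pr

open scoped ENNReal Classical

theorem merge_LP (Ψ : RFun) (hΨ : RInv Ψ) (Ξ : RFun) (hΞ : RInv Ξ) :
    ∑' R₁ : RG, ∑' R₂ : RG, wt R₁.1 R₁.2.1 * Ξ _ _ R₁.2.2 * (wt R₂.1 R₂.2.1 * Ξ _ _ R₂.2.2) *
        Ψ _ _ (merge R₁.2.2 R₂.2.2) =
      ∑' G : RG, wt G.1 G.2.1 * Ψ _ _ G.2.2 *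
        ∑ pE : Fin G.1 → Bool, ∑ pV : Fin G.2.1 → Bool,
          ∑ R₁ : {e // pE e = true} × Bool → Option {v // pV v = true},
            ∑ R₂ : {e // ¬pE e = true} × Bool → Option {v // ¬pV v = true},
              Ξ _ _ R₁ * Ξ _ _ R₂ * ind (mergeF pE pV R₁ R₂ = G.2.2) := by
  have key := lab_exp22 (fun A C B D => ∑' R₁ : A × Bool → Option C, ∑' R₂ : B × Bool → Option D,
      labR Ξ _ _ R₁ * labR Ξ _ _ R₂ * labR Ψ _ _ (merge R₁ R₂)) (by
    intro A A' C C' B B' D D' a c b d
    refine lab_tsum (labT a c.optionCongr) fun R₁ => lab_tsum (labT b d.optionCongr) fun R₂ => ?_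
    have h1 : ∀ x s, labT a c.optionCongr R₁ (a x, s) = (R₁ (x, s)).map c :=
      fun x s => labT_apply _ _ _ _ _
    have h2 : ∀ x s, labT b d.optionCongr R₂ (b x, s) = (R₂ (x, s)).map d :=
      fun x s => labT_apply _ _ _ _ _
    rw [labR_congr hΞ a c h1, labR_congr hΞ b d h2]
    congr 1
    refine labR_congr hΨ (a.sumCongr b) (c.sumCongr d) ?_
    rintro (x | x) s
    · change (labT a c.optionCongr R₁ (a x, s)).map _ = ((R₁ (x, s)).map _).map _
      rw [h1]
      rcases R₁ (x, s) with _ | z <;> rfl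
    · change (labT b d.optionCongr R₂ (b x, s)).map _ = ((R₂ (x, s)).map _).map _
      rw [h2]
      rcases R₂ (x, s) with _ | z <;> rfl)
  simp only [lab_fin, labR_eq Ψ, labR_eq Ξ]
  rw [lab_sig (T := fun m n => Fin m × Bool → Option (Fin n)),
    lab_sig (T := fun m n => Fin m × Bool → Option (Fin n))]
  simp only [lab_sw, lab_ind]
  refine Eq.trans ?_ (key.trans ?_)
  · refine tsum_congr fun a => tsum_congr fun c => ?_
    simp only [lab_sig (T := fun m n => Fin m × Bool → Option (Fin n)), ← ENNReal.tsum_mul_left]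
    rw [ENNReal.tsum_comm]
    refine tsum_congr fun b => ?_
    rw [ENNReal.tsum_comm]
    refine tsum_congr fun d => tsum_congr fun R₁ => tsum_congr fun R₂ => ?_
    ring
  · simp only [← ENNReal.tsum_mul_left]
    refine tsum_congr fun m => tsum_congr fun p => tsum_congr fun f => tsum_congr fun g =>
      tsum_congr fun R₁ => tsum_congr fun R₂ => ?_
    rw [mul_comm (labR Ξ _ _ R₁ * _), ← mul_assoc]
    congr 2
    refine labR_congr hΨ (Equiv.sumCompl fun e => f e = true) (Equiv.sumCompl fun e => g e = true) ?_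
    rintro (⟨x, hx⟩ | ⟨x, hx⟩) s
    · change mergeF f g R₁ R₂ (x, s) = ((R₁ (⟨x, hx⟩, s)).map _).map _
      rw [mergeF, dif_pos hx]
      rcases R₁ (⟨x, hx⟩, s) with _ | z <;> rfl
    · change mergeF f g R₁ R₂ (x, s) = ((R₂ (⟨x, hx⟩, s)).map _).map _
      rw [mergeF, dif_neg hx]
      rcases R₂ (⟨x, hx⟩, s) with _ | z <;> rfl

theorem union_LP (Ψ : RFun) (hΨ : RInv Ψ) (Ξ : RFun) (hΞ : RInv Ξ) :
    ∑' R : RG, ∑' ν : UG, wt R.1 R.2.1 * Ξ _ _ R.2.2 * wt ν.1 ν.2.1 * Ψ _ _ (union R.2.2 ν.2.2) =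
      ∑' G : RG, wt G.1 G.2.1 * Ψ _ _ G.2.2 *
        ∑ pE : Fin G.1 → Bool, ∑ pV : Fin G.2.1 → Bool,
          ∑ R : {e // pE e = true} × Bool → Option {v // pV v = true},
            ∑ ν : {e // ¬pE e = true} × Bool → {v // ¬pV v = true},
              Ξ _ _ R * ind (unionF pE pV R ν = G.2.2) := by
  have key := lab_exp22 (fun A C B D => ∑' R : A × Bool → Option C, ∑' ν : B × Bool → D,
      labR Ξ _ _ R * labR Ψ _ _ (union R ν)) (by
    intro A A' C C' B B' D D' a c b d
    refine lab_tsum (labT a c.optionCongr) fun R => lab_tsum (labT b d) fun ν => ?_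
    have h1 : ∀ x s, labT a c.optionCongr R (a x, s) = (R (x, s)).map c :=
      fun x s => labT_apply _ _ _ _ _
    rw [labR_congr hΞ a c h1]
    congr 1
    refine labR_congr hΨ (a.sumCongr b) (c.sumCongr d) ?_
    rintro (x | x) s
    · change (labT a c.optionCongr R (a x, s)).map _ = ((R (x, s)).map _).map _
      rw [h1]
      rcases R (x, s) with _ | z <;> rfl
    · change some (Sum.inr (labT b d ν (b x, s))) = _
      rw [labT_apply]
      rfl)
  simp only [lab_fin, labR_eq Ψ, labR_eq Ξ]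
  rw [lab_sig (T := fun m n => Fin m × Bool → Option (Fin n)),
    lab_sig (T := fun m n => Fin m × Bool → Option (Fin n))]
  simp only [lab_sw, lab_ind]
  refine Eq.trans ?_ (key.trans ?_)
  · refine tsum_congr fun a => tsum_congr fun c => ?_
    simp only [lab_sig (T := fun m n => Fin m × Bool → Fin n), ← ENNReal.tsum_mul_left]
    rw [ENNReal.tsum_comm]
    refine tsum_congr fun b => ?_
    rw [ENNReal.tsum_comm]
    refine tsum_congr fun d => tsum_congr fun R => tsum_congr fun ν => ?_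
    ring
  · simp only [← ENNReal.tsum_mul_left]
    refine tsum_congr fun m => tsum_congr fun p => tsum_congr fun f => tsum_congr fun g =>
      tsum_congr fun R => tsum_congr fun ν => ?_
    rw [mul_comm (labR Ξ _ _ R), ← mul_assoc]
    congr 2
    refine labR_congr hΨ (Equiv.sumCompl fun e => f e = true) (Equiv.sumCompl fun e => g e = true) ?_
    rintro (⟨x, hx⟩ | ⟨x, hx⟩) s
    · change unionF f g R ν (x, s) = ((R (⟨x, hx⟩, s)).map _).map _
      rw [unionF, dif_pos hx]
      rcases R (⟨x, hx⟩, s) with _ | z <;> rfl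
    · change unionF f g R ν (x, s) = _
      rw [unionF, dif_neg hx]
      rfl

end Pool.Agent.Lib.MP_77dff5_pr
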