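import Pool.Agent.Lib.MP_77dff5_pr.GDefs

/-! Gluing operations on fixed label sets. -/

set_option autoImplicit false

namespace Pool.Agent.Lib.MP_77dff5_pr

/-- `glue` on fixed label sets -/
def glueF {I E V : Type} (fE : E → I) (fV : V → Option I)
    (t : I × Bool → Bool ⊕ {v // fV v = none})
    (N : ∀ i, {e // fE e = i} × Bool → Bool ⊕ {v // fV v = some i}) : E × Bool → Bool ⊕ V :=
  fun x => (N (fE x.1) (⟨x.1, rfl⟩, x.2)).elim (fun c => (t (fE x.1, c)).map id Subtype.val)
    fun v => Sum.inr v.1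

/-- `attach` on fixed label sets -/
def attachF {I E V : Type} (pE : E → Bool) (pV : V → Bool)
    (N : {e // pE e = true} × Bool → Bool ⊕ {v // pV v = true})
    (pos : I → Bool ⊕ {v // pV v = true})
    (fE : {e // ¬pE e = true} → I) (fV : {v // ¬pV v = true} → I)
    (R : ∀ i, {e // fE e = i} × Bool → Option {v // fV v = i}) : E × Bool → Bool ⊕ V :=
  fun x => if h : pE x.1 = true then (N (⟨x.1, h⟩, x.2)).map id Subtype.val else
    (R (fE ⟨x.1, h⟩) (⟨⟨x.1, h⟩, rfl⟩, x.2)).elim ((pos (fE ⟨x.1, h⟩)).map id Subtype.val)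
      fun v => Sum.inr v.1.1

/-- `merge` on fixed label sets -/
def mergeF {E V : Type} (pE : E → Bool) (pV : V → Bool)
    (R₁ : {e // pE e = true} × Bool → Option {v // pV v = true})
    (R₂ : {e // ¬pE e = true} × Bool → Option {v // ¬pV v = true}) : E × Bool → Option V :=
  fun x => if h : pE x.1 = true then (R₁ (⟨x.1, h⟩, x.2)).map Subtype.val else
    (R₂ (⟨x.1, h⟩, x.2)).map Subtype.val

/-- `union` on fixed label sets -/
def unionF {E V : Type} (pE : E → Bool) (pV : V → Bool)
    (R : {e // pE e = true} × Bool → Option {v // pV v = true})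
    (ν : {e // ¬pE e = true} × Bool → {v // ¬pV v = true}) : E × Bool → Option V :=
  fun x => if h : pE x.1 = true then (R (⟨x.1, h⟩, x.2)).map Subtype.val else
    some (ν (⟨x.1, h⟩, x.2)).1

end Pool.Agent.Lib.MP_77dff5_pr
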