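import Pool.Agent.Lib.MP_77dff5_pr.RootBAux1
import Pool.Agent.Lib.MP_77dff5_pr.LDefs

/-! Splitting a rooted map along a root loop, on fixed labels. -/

set_option autoImplicit false

namespace Pool.Agent.Lib.MP_77dff5_pr

open Equiv Sum

section
variable {E V : Type}

/-- the side of a dart -/
def rootB_side (pE : E → Bool) : Option E × Bool → Bool := fun x => x.1.elim x.2 pE

/-- the darts of the two sides -/
def rootB_u (pE : E → Bool) :
    Option ({e // pE e = true} × Bool) ⊕ Option ({e // ¬pE e = true} × Bool) ≃ Option E × Bool where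
  toFun := Sum.elim (fun o => o.elim (none, true) fun x => (some x.1.1, x.2))
    fun o => o.elim (none, false) fun x => (some x.1.1, x.2)
  invFun x := match x with
    | (none, true) => inl none
    | (none, false) => inr none
    | (some e, b) => if h : pE e = true then inl (some (⟨e, h⟩, b)) else inr (some (⟨e, h⟩, b))
  left_inv := by
    rintro ((_ | ⟨⟨e, he⟩, b⟩) | (_ | ⟨⟨e, he⟩, b⟩))
    · rfl
    · simp [he]
    · rfl
    · simp [he]
  right_inv := by
    rintro ⟨_ | e, b⟩
    · cases b <;> rfl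
    · by_cases h : pE e = true <;> simp [h]

@[simp] theorem rootB_u_ln (pE : E → Bool) : rootB_u pE (inl none) = (none, true) := rfl
@[simp] theorem rootB_u_rn (pE : E → Bool) : rootB_u pE (inr none) = (none, false) := rfl
@[simp] theorem rootB_u_ls (pE : E → Bool) (x : {e // pE e = true} × Bool) :
    rootB_u pE (inl (some x)) = (some x.1.1, x.2) := rfl
@[simp] theorem rootB_u_rs (pE : E → Bool) (x : {e // ¬pE e = true} × Bool) :
    rootB_u pE (inr (some x)) = (some x.1.1, x.2) := rfl

theorem rootB_side_u (pE : E → Bool) (y) : rootB_side pE (rootB_u pE y) = y.isLeft := by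
  rcases y with (_ | ⟨⟨e, he⟩, b⟩) | (_ | ⟨⟨e, he⟩, b⟩)
  · rfl
  · simpa [rootB_side] using he
  · rfl
  · simpa [rootB_side] using he

theorem rootB_isLeft (pE : E → Bool) (x : Option E × Bool) :
    ((rootB_u pE).symm x).isLeft = rootB_side pE x := by
  rw [← rootB_side_u, Equiv.apply_symm_apply]

theorem rootB_flp_apply (x : E × Bool) : flp E x = (x.1, !x.2) := rfl

theorem rootB_flp [DecidableEq E] (pE : E → Bool) :
    rootB_join (rootB_u pE) none none (flp _).optionCongr (flp _).optionCongr = flp (Option E) := by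
  ext1 x
  obtain ⟨y, rfl⟩ := (rootB_u pE).surjective x
  unfold rootB_join
  rw [Perm.mul_apply]
  rcases y with (_ | ⟨⟨e, he⟩, b⟩) | (_ | ⟨⟨e, he⟩, b⟩)
  · rw [swap_apply_left]
    simp only [Equiv.permCongr_apply, Equiv.symm_apply_apply]
    simp [rootB_flp_apply]
  · rw [swap_apply_of_ne_of_ne (by simp) (by simp)]
    simp only [Equiv.permCongr_apply, Equiv.symm_apply_apply]
    simp [rootB_flp_apply]
  · rw [swap_apply_right]
    simp only [Equiv.permCongr_apply, Equiv.symm_apply_apply]
    simp [rootB_flp_apply]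
  · rw [swap_apply_of_ne_of_ne (by simp) (by simp)]
    simp only [Equiv.permCongr_apply, Equiv.symm_apply_apply]
    simp [rootB_flp_apply]

variable {pE : E → Bool} {pV : V → Bool}
  {R₁ : {e // pE e = true} × Bool → Option {v // pV v = true}}
  {R₂ : {e // ¬pE e = true} × Bool → Option {v // ¬pV v = true}}

theorem rootB_merge_l (o : Option ({e // pE e = true} × Bool)) :
    cloL (mergeF pE pV R₁ R₂) (rootB_u pE (inl o)) = (stem R₁ o).map Subtype.val := by
  rcases o with _ | ⟨⟨e, he⟩, b⟩
  · rfl
  · simp [cloL, mergeF, stem, he]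

theorem rootB_merge_r (o : Option ({e // ¬pE e = true} × Bool)) :
    cloL (mergeF pE pV R₁ R₂) (rootB_u pE (inr o)) = (stem R₂ o).map Subtype.val := by
  rcases o with _ | ⟨⟨e, he⟩, b⟩
  · rfl
  · simp [cloL, mergeF, stem, he]

theorem rootB_h11 (x y) : cloL (mergeF pE pV R₁ R₂) (rootB_u pE (inl x)) =
    cloL (mergeF pE pV R₁ R₂) (rootB_u pE (inl y)) ↔ stem R₁ x = stem R₁ y := by
  rw [rootB_merge_l, rootB_merge_l]
  exact (Option.map_injective Subtype.val_injective).eq_iff

theorem rootB_h22 (x y) : cloL (mergeF pE pV R₁ R₂) (rootB_u pE (inr x)) =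
    cloL (mergeF pE pV R₁ R₂) (rootB_u pE (inr y)) ↔ stem R₂ x = stem R₂ y := by
  rw [rootB_merge_r, rootB_merge_r]
  exact (Option.map_injective Subtype.val_injective).eq_iff

theorem rootB_h12 (x y) : cloL (mergeF pE pV R₁ R₂) (rootB_u pE (inl x)) =
    cloL (mergeF pE pV R₁ R₂) (rootB_u pE (inr y)) ↔
      stem R₁ x = stem R₁ none ∧ stem R₂ y = stem R₂ none := by
  rw [rootB_merge_l, rootB_merge_r]
  have h1 : stem R₁ none = none := rfl
  have h2 : stem R₂ none = none := rfl
  rw [h1, h2]
  rcases stem R₁ x with _ | ⟨v, hv⟩ <;> rcases stem R₂ y with _ | ⟨w, hw⟩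
  · simp
  · simp
  · simp
  · simp only [Option.map_some, Option.some.injEq, reduceCtorEq, and_self, iff_false]
    rintro rfl
    exact hw hv

/-- exchange of the two root darts -/
abbrev rootB_sw (E : Type) [DecidableEq E] : Perm (Option E × Bool) :=
  swap (none, true) (none, false)

/-- the rotation `σ` keeps the two sides apart -/
def rootB_pres [DecidableEq E] (pE : E → Bool) (σ : Perm (Option E × Bool)) : Prop :=
  ∀ x, rootB_side pE ((σ * rootB_sw E) x) = rootB_side pE x

theorem rootB_embS_mul [Finite E] [DecidableEq E] (c₁ : RConn R₁) (c₂ : RConn R₂) :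
    embS R₁ * embS R₂ = Nat.card {σ : Perm (Option E × Bool) //
      (IsRot (cloL (mergeF pE pV R₁ R₂)) σ ∧ Gen0 σ (flp _)) ∧ rootB_pres pE σ} := by
  have h := rootB_count (rootB_u pE) none none (ν := cloL (mergeF pE pV R₁ R₂))
    (α₁ := (flp _).optionCongr) (α₂ := (flp _).optionCongr) rootB_h11 rootB_h22 rootB_h12
    rfl rfl c₁.2 c₂.2
  rw [rootB_flp] at h
  simp only [rootB_isLeft, rootB_u_ln, rootB_u_rn] at h
  exact h

theorem rootB_sconn (c₁ : RConn R₁) (c₂ : RConn R₂) : SConn (cloL (mergeF pE pV R₁ R₂)) := by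
  constructor
  · rintro (_ | v)
    · exact ⟨(none, true), rfl⟩
    · by_cases h : pV v = true
      · obtain ⟨x, hx⟩ := c₁.1 (some ⟨v, h⟩)
        exact ⟨_, by rw [rootB_merge_l, hx]; rfl⟩
      · obtain ⟨x, hx⟩ := c₂.1 (some ⟨v, h⟩)
        exact ⟨_, by rw [rootB_merge_r, hx]; rfl⟩
  · have h1 : ∀ x y, Relation.EqvGen (fun a b => stem R₁ a = stem R₁ b ∨
        b = (flp _).optionCongr a) x y → Relation.EqvGen (fun a b =>
          cloL (mergeF pE pV R₁ R₂) a = cloL (mergeF pE pV R₁ R₂) b ∨ b = flp _ a)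
          (rootB_u pE (inl x)) (rootB_u pE (inl y)) := by
      intro x y h
      induction h with
      | rel a b h =>
        rcases h with h | h
        · exact .rel _ _ (Or.inl ((rootB_h11 _ _).2 h))
        · subst h
          rcases a with _ | a
          · exact .refl _
          · exact .rel _ _ (Or.inr rfl)
      | refl a => exact .refl _
      | symm a b _ ih => exact ih.symm _ _
      | trans a b c _ _ ih1 ih2 => exact ih1.trans _ _ _ ih2
    have h2 : ∀ x y, Relation.EqvGen (fun a b => stem R₂ a = stem R₂ b ∨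
        b = (flp _).optionCongr a) x y → Relation.EqvGen (fun a b =>
          cloL (mergeF pE pV R₁ R₂) a = cloL (mergeF pE pV R₁ R₂) b ∨ b = flp _ a)
          (rootB_u pE (inr x)) (rootB_u pE (inr y)) := by
      intro x y h
      induction h with
      | rel a b h =>
        rcases h with h | h
        · exact .rel _ _ (Or.inl ((rootB_h22 _ _).2 h))
        · subst h
          rcases a with _ | a
          · exact .refl _
          · exact .rel _ _ (Or.inr rfl)
      | refl a => exact .refl _
      | symm a b _ ih => exact ih.symm _ _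
      | trans a b c _ _ ih1 ih2 => exact ih1.trans _ _ _ ih2
    have h3 : ∀ x, Relation.EqvGen (fun a b =>
        cloL (mergeF pE pV R₁ R₂) a = cloL (mergeF pE pV R₁ R₂) b ∨ b = flp _ a)
          x (none, true) := by
      intro x
      obtain ⟨y, rfl⟩ := (rootB_u pE).surjective x
      rcases y with y | y
      · exact h1 _ _ (c₁.2 y none)
      · exact (h2 _ _ (c₂.2 y none)).trans _ _ _ (.rel _ _ (Or.inl rfl))
    intro x y
    exact (h3 x).trans _ _ _ ((h3 y).symm _ _)

theorem rootB_pE_unique [Finite E] [DecidableEq E] {R : E × Bool → Option V}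
    {σ : Perm (Option E × Bool)} (hσ : IsRot (cloL R) σ) (hc : Conn (cloL R) (flp _))
    {pE pE' : E → Bool} (h : rootB_pres pE σ) (h' : rootB_pres pE' σ) : pE = pE' := by
  have ht := (conn_iff_trans2 hσ _).1 hc
  have hs : ∀ x, (rootB_side pE (swap (none, true) (none, false) x) =
      rootB_side pE' (swap (none, true) (none, false) x)) ↔
        rootB_side pE x = rootB_side pE' x := by
    rintro ⟨_ | e, b⟩
    · cases b <;> simp [rootB_side]
    · rw [swap_apply_of_ne_of_ne (by simp) (by simp)]
  have key : ∀ x y, Relation.EqvGen (fun a b => b = σ a ∨ b = flp _ a) x y →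
      (rootB_side pE x = rootB_side pE' x ↔ rootB_side pE y = rootB_side pE' y) := by
    intro x y hxy
    induction hxy with
    | rel a b hab =>
      rcases hab with rfl | rfl
      · have e : σ a = (σ * rootB_sw E) (swap (none, true) (none, false) a) := by simp
        rw [e, h, h', hs]
      · rcases a with ⟨_ | e, b⟩ <;> simp [rootB_side, rootB_flp_apply]
    | refl a => rfl
    | symm a b _ ih => exact ih.symm
    | trans a b c _ _ ih1 ih2 => exact ih1.trans ih2
  funext e
  exact (key _ _ (ht (none, true) (some e, true))).1 rfl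

theorem rootB_pV_iff (c₁ : RConn R₁) (v : V) :
    pV v = true ↔ ∃ x : E × Bool, pE x.1 = true ∧ mergeF pE pV R₁ R₂ x = some v := by
  constructor
  · intro h
    obtain ⟨x, hx⟩ := c₁.1 (some ⟨v, h⟩)
    rcases x with _ | ⟨⟨e, he⟩, b⟩
    · exact absurd hx (by simp [stem])
    · refine ⟨(e, b), he, ?_⟩
      have hx' : R₁ (⟨e, he⟩, b) = some ⟨v, h⟩ := hx
      simp [mergeF, he, hx']
  · rintro ⟨⟨e, b⟩, he, hx⟩
    have he' : pE e = true := he
    simp only [mergeF, he', dite_true, Option.map_eq_some_iff] at hx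
    obtain ⟨w, _, rfl⟩ := hx
    exact w.2

theorem rootB_R_unique {R₁' : {e // pE e = true} × Bool → Option {v // pV v = true}}
    {R₂' : {e // ¬pE e = true} × Bool → Option {v // ¬pV v = true}}
    (h : mergeF pE pV R₁ R₂ = mergeF pE pV R₁' R₂') : R₁ = R₁' ∧ R₂ = R₂' := by
  constructor
  · funext x
    have h1 := rootB_merge_l (R₁ := R₁) (R₂ := R₂) (some x)
    rw [h, rootB_merge_l] at h1
    exact (Option.map_injective Subtype.val_injective h1).symm
  · funext x
    have h1 := rootB_merge_r (R₁ := R₁) (R₂ := R₂) (some x)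
    rw [h, rootB_merge_r] at h1
    exact (Option.map_injective Subtype.val_injective h1).symm

theorem rootB_conn_sub {D D₁ W W₁ : Type} {γ β : Perm D} {ν : D → W} {ν₁ : D₁ → W₁}
    {α₁ : Perm D₁} (j : D₁ → D) (hj : Function.Injective j) (s : D₁)
    (hr : ∀ x, x ∈ Set.range j ↔ Relation.EqvGen (fun a b => b = γ a ∨ b = β a) x (j s))
    (hα : ∀ x, j (α₁ x) = β (j x)) (hν : ∀ x y, ν (j x) = ν (j y) → ν₁ x = ν₁ y)
    (hγ : ∀ x, ν (γ x) = ν x) : Conn ν₁ α₁ := by
  have key : ∀ x y, Relation.EqvGen (fun a b => b = γ a ∨ b = β a) x y →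
      ∀ x' y', j x' = x → j y' = y →
        Relation.EqvGen (fun a b => ν₁ a = ν₁ b ∨ b = α₁ a) x' y' := by
    intro x y h
    induction h with
    | rel a b h =>
      rintro x' y' rfl rfl
      rcases h with h | h
      · exact .rel _ _ (Or.inl (hν _ _ (by rw [h, hγ])))
      · exact .rel _ _ (Or.inr (hj (by rw [h, hα])))
    | refl a =>
      rintro x' y' rfl h
      rw [hj h]
      exact .refl _
    | symm a b _ ih => exact fun x' y' h1 h2 => (ih y' x' h2 h1).symm _ _
    | trans a b c h1 _ ih1 ih2 =>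
      rintro x' z' rfl rfl
      obtain ⟨y', rfl⟩ := (hr b).2 ((h1.symm _ _).trans _ _ _ ((hr _).1 ⟨x', rfl⟩))
      exact (ih1 x' y' rfl rfl).trans _ _ _ (ih2 y' z' rfl rfl)
  intro x y
  exact key _ _ (((hr _).1 ⟨x, rfl⟩).trans _ _ _ (((hr _).1 ⟨y, rfl⟩).symm _ _)) x y rfl rfl

theorem rootB_exists [Finite E] [DecidableEq E] {R : E × Bool → Option V}
    {σ : Perm (Option E × Bool)} (hσ : IsRot (cloL R) σ) (h0 : Gen0 σ (flp _))
    (hc : SConn (cloL R)) :
    ∃ (pE : E → Bool) (pV : V → Bool)
      (R₁ : {e // pE e = true} × Bool → Option {v // pV v = true})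
      (R₂ : {e // ¬pE e = true} × Bool → Option {v // ¬pV v = true}),
      RConn R₁ ∧ RConn R₂ ∧ mergeF pE pV R₁ R₂ = R ∧ rootB_pres pE σ := by
  classical
  have ht := (conn_iff_trans2 hσ _).1 hc.2
  set γ : Perm (Option E × Bool) := σ * rootB_sw E with hγ
  set β : Perm (Option E × Bool) := flp _ * rootB_sw E with hβ
  have hne : ((none, true) : Option E × Bool) ≠ (none, false) := by simp
  have hβn : ∀ b, β (none, b) = (none, b) := by
    intro b; cases b <;> simp [hβ, rootB_flp_apply]
  have hβs : ∀ e b, β (some e, b) = (some e, !b) := by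
    intro e b
    rw [hβ, Perm.mul_apply, swap_apply_of_ne_of_ne (by simp) (by simp)]; rfl
  have hsw : ∀ x, cloL R (rootB_sw E x) = cloL R x := by
    rintro ⟨_ | e, b⟩
    · cases b <;> simp [cloL]
    · rw [swap_apply_of_ne_of_ne (by simp) (by simp)]
  have hνγ : ∀ x, cloL R (γ x) = cloL R x := by
    intro x
    rw [hγ, Perm.mul_apply, ← hsw x]
    exact ((hσ _ _).1 (Perm.sameCycle_apply_right.2 (Perm.SameCycle.refl _ _))).symm
  have hσγ : ∀ x, σ x = γ (rootB_sw E x) := by intro x; simp [hγ]
  have hαβ : ∀ x, flp _ x = β (rootB_sw E x) := by intro x; simp [hβ]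
  let r : Option E × Bool → Option E × Bool → Prop :=
    Relation.EqvGen fun a b => b = γ a ∨ b = β a
  have rγ : ∀ x, r x (γ x) := fun x => .rel _ _ (Or.inl rfl)
  have rβ : ∀ x, r x (β x) := fun x => .rel _ _ (Or.inr rfl)
  have rsymm : ∀ {x y}, r x y → r y x := fun h => h.symm _ _
  have rtrans : ∀ {x y z}, r x y → r y z → r x z := fun h h' => h.trans _ _ _ h'
  have rrefl : ∀ x, r x x := fun x => .refl _
  have hall : ∀ x, r x (none, true) ∨ r x (none, false) := by
    have hs : ∀ x, (r (rootB_sw E x) (none, true) ∨ r (rootB_sw E x) (none, false)) ↔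
        (r x (none, true) ∨ r x (none, false)) := by
      rintro ⟨_ | e, b⟩
      · cases b <;> simp [rrefl]
      · rw [swap_apply_of_ne_of_ne (by simp) (by simp)]
    have hrr : ∀ {x y}, r x y → ((r x (none, true) ∨ r x (none, false)) ↔
        (r y (none, true) ∨ r y (none, false))) := fun h =>
      ⟨fun h' => h'.imp (rtrans (rsymm h)) (rtrans (rsymm h)),
        fun h' => h'.imp (rtrans h) (rtrans h)⟩
    have key : ∀ x y, Relation.EqvGen (fun a b => b = σ a ∨ b = flp _ a) x y →
        ((r x (none, true) ∨ r x (none, false)) ↔ (r y (none, true) ∨ r y (none, false))) := by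
      intro x y h
      induction h with
      | rel a b h =>
        rcases h with rfl | rfl
        · rw [hσγ, ← hrr (rγ _), hs]
        · rw [hαβ, ← hrr (rβ _), hs]
      | refl a => rfl
      | symm a b _ ih => exact ih.symm
      | trans a b c _ _ ih1 ih2 => exact ih1.trans ih2
    intro x
    exact (key _ _ (ht (none, true) x)).1 (Or.inl (rrefl _))
  have hnot : ¬r (none, true) (none, false) := by
    intro h
    have h1 : ∀ x, r x (none, true) := fun x => (hall x).elim id fun h' => rtrans h' (rsymm h)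
    have h2 : Trans2 γ β := fun x y => rtrans (h1 x) (rsymm (h1 y))
    have h3 := euler_le_of_trans2 h2
    have h4 : ncyc γ = ncyc σ + 1 := ncyc_mul_swap_of_same σ ((hσ _ _).2 rfl) hne
    have h5 : ncyc β = ncyc (flp (Option E)) + 1 := ncyc_mul_swap_of_same _
      (Perm.sameCycle_apply_right.1 (Perm.SameCycle.refl _ _)) hne
    have h6 : γ * β = σ * flp _ := by
      have h7 : β = rootB_sw E * flp _ := by
        rw [hβ, Equiv.mul_swap_eq_swap_mul, swap_comm]; rfl
      rw [hγ, h7, mul_assoc, ← mul_assoc (rootB_sw E), swap_mul_self, one_mul]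
    rw [h6] at h3
    unfold Gen0 at h0
    omega
  have hvert : ∀ x y v, cloL R x = some v → cloL R y = some v → r x y := by
    intro x y v hx hy
    have h1 : σ.SameCycle x y := (hσ _ _).2 (hx.trans hy.symm)
    obtain ⟨k, rfl⟩ := h1.exists_nat_pow_eq
    have h2 : ∀ k : ℕ, cloL R ((σ ^ k) x) = some v ∧ r x ((σ ^ k) x) := by
      intro k
      induction k with
      | zero => exact ⟨hx, rrefl _⟩
      | succ k ih =>
        rw [pow_succ', Perm.mul_apply]
        have h3 : rootB_sw E ((σ ^ k) x) = (σ ^ k) x := by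
          refine swap_apply_of_ne_of_ne ?_ ?_ <;> intro h <;> rw [h] at ih <;> simp [cloL] at ih
        rw [hσγ, h3, hνγ]
        exact ⟨ih.1, rtrans ih.2 (rγ _)⟩
    exact (h2 k).2
  let pE : E → Bool := fun e => decide (r (some e, true) (none, true))
  let pV : V → Bool := fun v => decide (∃ x, cloL R x = some v ∧ r x (none, true))
  have hside : ∀ x, rootB_side pE x = true ↔ r x (none, true) := by
    rintro ⟨_ | e, b⟩
    · cases b
      · simp only [rootB_side, Option.elim_none, Bool.false_eq_true, false_iff]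
        exact fun h => hnot (rsymm h)
      · simp [rootB_side, rrefl]
    · simp only [rootB_side, Option.elim_some, pE, decide_eq_true_eq]
      cases b
      · have h1 := rβ (some e, true)
        rw [hβs] at h1
        exact ⟨rtrans (rsymm h1), rtrans h1⟩
      · rfl
  have hpV : ∀ x v, cloL R x = some v → (pV v = true ↔ rootB_side pE x = true) := by
    intro x v hx
    rw [hside]
    simp only [pV, decide_eq_true_eq]
    exact ⟨fun ⟨y, hy, h⟩ => rtrans (hvert _ _ _ hx hy) h, fun h => ⟨x, hx, h⟩⟩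
  have e1 : ∀ x : {e // pE e = true} × Bool, ∃ o : Option {v // pV v = true},
      o.map Subtype.val = R (x.1.1, x.2) := by
    rintro ⟨⟨e, he⟩, b⟩
    rcases h : R (e, b) with _ | v
    · exact ⟨none, rfl⟩
    · exact ⟨some ⟨v, (hpV (some e, b) v h).2 he⟩, rfl⟩
  have e2 : ∀ x : {e // ¬pE e = true} × Bool, ∃ o : Option {v // ¬pV v = true},
      o.map Subtype.val = R (x.1.1, x.2) := by
    rintro ⟨⟨e, he⟩, b⟩
    rcases h : R (e, b) with _ | v
    · exact ⟨none, rfl⟩
    · exact ⟨some ⟨v, fun h' => he ((hpV (some e, b) v h).1 h')⟩, rfl⟩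
  choose R₁ hR₁ using e1
  choose R₂ hR₂ using e2
  have hm : mergeF pE pV R₁ R₂ = R := by
    funext ⟨e, b⟩
    unfold mergeF
    split_ifs with h
    · exact hR₁ (⟨e, h⟩, b)
    · exact hR₂ (⟨e, h⟩, b)
  refine ⟨pE, pV, R₁, R₂, ⟨?_, ?_⟩, ⟨?_, ?_⟩, hm, ?_⟩
  · rintro (_ | ⟨v, hv⟩)
    · exact ⟨none, rfl⟩
    · obtain ⟨x, hx⟩ := hc.1 (some v)
      have h1 := (hpV x v hx).1 hv
      obtain ⟨y, rfl⟩ := (rootB_u pE).surjective x
      rw [rootB_side_u, Sum.isLeft_iff] at h1
      obtain ⟨y, rfl⟩ := h1
      rw [← hm, rootB_merge_l] at hx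
      exact ⟨y, Option.map_injective Subtype.val_injective hx⟩
  · refine rootB_conn_sub (γ := γ) (β := β) (ν := cloL R) (fun o => rootB_u pE (inl o))
      ((rootB_u pE).injective.comp Sum.inl_injective) none (fun x => ?_) ?_ ?_ hνγ
    · obtain ⟨y, rfl⟩ := (rootB_u pE).surjective x
      refine Iff.trans ?_ (hside _)
      rw [rootB_side_u, Sum.isLeft_iff]
      exact ⟨fun ⟨z, hz⟩ => ⟨z, ((rootB_u pE).injective hz).symm⟩, fun ⟨z, hz⟩ => ⟨z, by rw [hz]⟩⟩
    · rintro (_ | x)
      · exact (hβn true).symm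
      · exact (hβs _ _).symm
    · intro x y h
      rw [← hm] at h
      exact (rootB_h11 _ _).1 h
  · rintro (_ | ⟨v, hv⟩)
    · exact ⟨none, rfl⟩
    · obtain ⟨x, hx⟩ := hc.1 (some v)
      have h1 := fun h => hv ((hpV x v hx).2 h)
      obtain ⟨y, rfl⟩ := (rootB_u pE).surjective x
      rw [rootB_side_u] at h1
      rcases y with y | y
      · exact absurd rfl h1
      rw [← hm, rootB_merge_r] at hx
      exact ⟨y, Option.map_injective Subtype.val_injective hx⟩
  · refine rootB_conn_sub (γ := γ) (β := β) (ν := cloL R) (fun o => rootB_u pE (inr o))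
      ((rootB_u pE).injective.comp Sum.inr_injective) none (fun x => ?_) ?_ ?_ hνγ
    · obtain ⟨y, rfl⟩ := (rootB_u pE).surjective x
      have h1 := hside (rootB_u pE y)
      rw [rootB_side_u] at h1
      rcases y with y | y
      · refine iff_of_false ?_ fun h => hnot (rtrans (rsymm (h1.1 rfl)) h)
        rintro ⟨z, hz⟩
        exact absurd ((rootB_u pE).injective hz) (by simp)
      · refine iff_of_true ⟨y, rfl⟩ ((hall _).resolve_left fun h => ?_)
        exact absurd (h1.2 h) (by simp)
    · rintro (_ | x)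
      · exact (hβn false).symm
      · exact (hβs _ _).symm
    · intro x y h
      rw [← hm] at h
      exact (rootB_h22 _ _).1 h
  · intro x
    rw [Bool.eq_iff_iff, hside, hside]
    exact ⟨rtrans (rγ x), rtrans (rsymm (rγ x))⟩

end

end Pool.Agent.Lib.MP_77dff5_pr
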