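import Pool.Agent.Lib.MP_77dff5_pr.RootA
import Pool.Agent.Lib.MP_77dff5_pr.PermC
import Pool.Agent.Lib.MP_77dff5_pr.LabelD
import Pool.Agent.Lib.MP_77dff5_pr.RootBAux2

/-! Rooted maps: stems, root loops, contraction of the root edge, Tutte's recursion. -/

set_option autoImplicit false

namespace Pool.Agent.Lib.MP_77dff5_pr

open scoped ENNReal Classical

section
variable {E V : Type} [Finite E] [Finite V]

end

theorem rootB_card_eq_sum {X : Type} [Fintype X] (p : X → Prop) :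
    ((Nat.card {x // p x} : ℕ) : ℝ≥0∞) = ∑ x, ind (p x) := by
  rw [Nat.card_eq_fintype_card, Fintype.card_subtype, Finset.card_filter]
  push_cast
  rfl

theorem rootB_ind_and (p q : Prop) : ind (p ∧ q) = ind p * ind q := by
  unfold ind
  by_cases hp : p <;> by_cases hq : q <;> simp [hp, hq]

theorem rootB_ind_pos {p : Prop} (h : p) : ind p = 1 := if_pos h

theorem rootB_ind_neg {p : Prop} (h : ¬p) : ind p = 0 := if_neg h

theorem rootB_fixed {m n : ℕ} (R : Fin m × Bool → Option (Fin n)) :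
    ∑ pE : Fin m → Bool, ∑ pV : Fin n → Bool,
      ∑ R₁ : {e // pE e = true} × Bool → Option {v // pV v = true},
        ∑ R₂ : {e // ¬pE e = true} × Bool → Option {v // ¬pV v = true},
          ind (RConn R₁) * embS R₁ * (ind (RConn R₂) * embS R₂) * ind (mergeF pE pV R₁ R₂ = R) =
      ind (SConn (cloL R)) * emb (cloL R) (flp _) := by
  have h1 : ∀ (pE : Fin m → Bool) (pV : Fin n → Bool)
      (R₁ : {e // pE e = true} × Bool → Option {v // pV v = true})
      (R₂ : {e // ¬pE e = true} × Bool → Option {v // ¬pV v = true}),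
      ind (RConn R₁) * embS R₁ * (ind (RConn R₂) * embS R₂) * ind (mergeF pE pV R₁ R₂ = R) =
        ∑ σ : Equiv.Perm (Option (Fin m) × Bool), ind (IsRot (cloL R) σ ∧ Gen0 σ (flp _)) *
          ind (RConn R₁ ∧ RConn R₂ ∧ mergeF pE pV R₁ R₂ = R ∧ rootB_pres pE σ) := by
    intro pE pV R₁ R₂
    by_cases c₁ : RConn R₁
    swap
    · simp [rootB_ind_and, rootB_ind_neg c₁]
    by_cases c₂ : RConn R₂
    swap
    · simp [rootB_ind_and, rootB_ind_neg c₂]
    by_cases hm : mergeF pE pV R₁ R₂ = R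
    swap
    · simp [rootB_ind_and, rootB_ind_neg hm]
    subst hm
    rw [rootB_ind_pos c₁, rootB_ind_pos c₂, rootB_ind_pos rfl, one_mul, one_mul, mul_one,
      ← Nat.cast_mul, rootB_embS_mul c₁ c₂, rootB_card_eq_sum]
    refine Finset.sum_congr rfl fun σ _ => ?_
    simp only [rootB_ind_and, rootB_ind_pos c₁, rootB_ind_pos c₂, rootB_ind_pos trivial, one_mul]
  simp only [h1]
  have h2 : ∀ σ : Equiv.Perm (Option (Fin m) × Bool), IsRot (cloL R) σ ∧ Gen0 σ (flp _) →
      ∑ pE : Fin m → Bool, ∑ pV : Fin n → Bool,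
        ∑ R₁ : {e // pE e = true} × Bool → Option {v // pV v = true},
          ∑ R₂ : {e // ¬pE e = true} × Bool → Option {v // ¬pV v = true},
            ind (RConn R₁ ∧ RConn R₂ ∧ mergeF pE pV R₁ R₂ = R ∧ rootB_pres pE σ) =
        ind (SConn (cloL R)) := by
    rintro σ ⟨hσ, h0⟩
    by_cases hc : SConn (cloL R)
    swap
    · rw [rootB_ind_neg hc]
      refine Finset.sum_eq_zero fun pE _ => Finset.sum_eq_zero fun pV _ =>
        Finset.sum_eq_zero fun R₁ _ => Finset.sum_eq_zero fun R₂ _ => rootB_ind_neg ?_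
      rintro ⟨c₁, c₂, rfl, _⟩
      exact hc (rootB_sconn c₁ c₂)
    obtain ⟨pE, pV, R₁, R₂, c₁, c₂, hm, hp⟩ := rootB_exists hσ h0 hc
    rw [rootB_ind_pos hc, Finset.sum_eq_single pE, Finset.sum_eq_single pV,
      Finset.sum_eq_single R₁, Finset.sum_eq_single R₂, rootB_ind_pos ⟨c₁, c₂, hm, hp⟩]
    · intro R₂' _ hne
      refine rootB_ind_neg ?_
      rintro ⟨_, _, hm', _⟩
      exact hne (rootB_R_unique (hm'.trans hm.symm)).2
    · simp
    · intro R₁' _ hne
      refine Finset.sum_eq_zero fun R₂' _ => rootB_ind_neg ?_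
      rintro ⟨_, _, hm', _⟩
      exact hne (rootB_R_unique (hm'.trans hm.symm)).1
    · simp
    · intro pV' _ hne
      refine Finset.sum_eq_zero fun R₁' _ => Finset.sum_eq_zero fun R₂' _ => rootB_ind_neg ?_
      rintro ⟨c₁', _, hm', _⟩
      refine hne (funext fun v => ?_)
      rw [Bool.eq_iff_iff, rootB_pV_iff (R₂ := R₂') c₁', rootB_pV_iff (R₂ := R₂) c₁, hm, hm']
    · simp
    · intro pE' _ hne
      refine Finset.sum_eq_zero fun pV' _ => Finset.sum_eq_zero fun R₁' _ =>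
        Finset.sum_eq_zero fun R₂' _ => rootB_ind_neg ?_
      rintro ⟨_, _, _, hp'⟩
      exact hne (rootB_pE_unique hσ hc.2 hp' hp)
    · simp
  unfold emb
  rw [rootB_card_eq_sum, Finset.mul_sum]
  simp only [Finset.sum_comm (α := Equiv.Perm (Option (Fin m) × Bool)) (t := Finset.univ)]
  refine Finset.sum_congr rfl fun σ _ => ?_
  simp only [← Finset.mul_sum]
  by_cases hσ : IsRot (cloL R) σ ∧ Gen0 σ (flp _)
  · rw [h2 σ hσ, mul_comm]
  · simp [rootB_ind_neg hσ]

theorem loop_split (Ψ : RFun) (hΨ : RInv Ψ) :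
    ∑' R : RG, wt R.1 R.2.1 * ind (SConn (cloL R.2.2)) * emb (cloL R.2.2) (flp _) * Ψ _ _ R.2.2 =
      ∑' R₁ : RG, ∑' R₂ : RG, w0 R₁ * w0 R₂ * Ψ _ _ (merge R₁.2.2 R₂.2.2) := by
  have hΞ : RInv fun _ _ _ _ R => ind (RConn R) * embS R := by
    intro E V E' V' _ _ _ _ u e N N' h
    simp only [rconn_congr u e h, embS_congr u e h]
  have h := merge_LP Ψ hΨ _ hΞ
  simp only [rootB_fixed] at h
  simp only [w0, mul_assoc] at h ⊢
  rw [h]
  refine tsum_congr fun R => ?_
  ring

end Pool.Agent.Lib.MP_77dff5_pr
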