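import Pool.Agent.Lib.MP_77dff5_pr.LDefs

/-! Labelled products: sums over glued structures as sums over structures on fixed labels. -/

set_option autoImplicit false

namespace Pool.Agent.Lib.MP_77dff5_pr

open scoped ENNReal Classical

/-- gluing fibrewise bijections -/
def labelA_asm {I X : Type} (Y : I → Type) (p : Σ f : X → I, ∀ i, Y i ≃ {x // f x = i}) :
    (Σ i, Y i) ≃ X :=
  (Equiv.sigmaCongrRight p.2).trans (Equiv.sigmaFiberEquiv p.1)

theorem labelA_asm_bij {I X : Type} (Y : I → Type) :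
    Function.Bijective (labelA_asm (X := X) Y) := by
  constructor
  · rintro ⟨f, u⟩ ⟨f', u'⟩ h
    have key : ∀ i (y : Y i), (u i y).1 = (u' i y).1 := fun i y => by
      have := congrArg (fun e : (Σ i, Y i) ≃ X => e ⟨i, y⟩) h
      simpa [labelA_asm] using this
    have hf : f = f' := by
      funext x
      obtain ⟨y, hy⟩ := (u (f x)).surjective ⟨x, rfl⟩
      have h1 := key (f x) y
      rw [hy] at h1
      have h2 := (u' (f x) y).2
      rw [← h1] at h2
      exact h2.symm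
    subst hf
    have : u = u' := by
      funext i
      ext y
      exact key i y
    rw [this]
  · intro e
    refine ⟨⟨fun x => (e.symm x).1, fun i => Equiv.ofBijective
      (fun y => ⟨e ⟨i, y⟩, by simp⟩) ⟨?_, ?_⟩⟩, ?_⟩
    · intro y y' h
      have := e.injective (congrArg Subtype.val h)
      exact eq_of_heq (Sigma.mk.inj_iff.1 this).2
    · rintro ⟨x, rfl⟩
      exact ⟨(e.symm x).2, Subtype.ext (by simp)⟩
    · ext ⟨i, y⟩
      rfl

theorem labelA_fact_mul (n : ℕ) :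
    ((n.factorial : ℕ) : ℝ≥0∞)⁻¹ * ((n.factorial : ℕ) : ℝ≥0∞) = 1 :=
  ENNReal.inv_mul_cancel (by exact_mod_cast n.factorial_ne_zero) (ENNReal.natCast_ne_top _)

theorem labelA_card_equiv (n : ℕ) (X : Type) [Fintype X] [Fintype (Fin n ≃ X)] :
    Fintype.card (Fin n ≃ X) = if n = Fintype.card X then n.factorial else 0 := by
  split_ifs with h
  · have e : Fin n ≃ X := Fintype.equivOfCardEq (by simpa using h)
    have := Fintype.card_equiv e
    simp only [Fintype.card_fin] at this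
    convert this
  · rw [Fintype.card_eq_zero_iff]
    exact ⟨fun e => h (by simpa using Fintype.card_congr e)⟩

theorem LP {I X : Type} [Fintype I] [Fintype X]
    (Φ : ∀ (Y : I → Type) [∀ i, Fintype (Y i)], ((Σ i, Y i) ≃ X) → ℝ≥0∞)
    (hΦ : ∀ (Y Y' : I → Type) [∀ i, Fintype (Y i)] [∀ i, Fintype (Y' i)] (u : ∀ i, Y i ≃ Y' i)
      (e : (Σ i, Y' i) ≃ X), Φ Y ((Equiv.sigmaCongrRight u).trans e) = Φ Y' e) :
    ∑' l : I → ℕ, (∏ i, (((l i).factorial : ℕ) : ℝ≥0∞)⁻¹) *
        ∑ e : (Σ i, Fin (l i)) ≃ X, Φ (fun i => Fin (l i)) e =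
      ∑ f : X → I, Φ (fun i => {x // f x = i}) (Equiv.sigmaFiberEquiv f) := by
  have h1 : ∀ l : I → ℕ, ∑ e : (Σ i, Fin (l i)) ≃ X, Φ (fun i => Fin (l i)) e =
      ∑ f : X → I, (∏ i, ((if l i = Fintype.card {x // f x = i} then (l i).factorial else 0 : ℕ) :
        ℝ≥0∞)) * Φ (fun i => {x // f x = i}) (Equiv.sigmaFiberEquiv f) := by
    intro l
    rw [← (labelA_asm_bij (X := X) fun i => Fin (l i)).sum_comp, Fintype.sum_sigma]
    refine Finset.sum_congr rfl fun f _ => ?_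
    simp only [labelA_asm, hΦ]
    rw [Finset.sum_const, Finset.card_univ, Fintype.card_pi, nsmul_eq_mul, Nat.cast_prod]
    simp only [labelA_card_equiv]
  simp only [h1, Finset.mul_sum]
  rw [Summable.tsum_finsetSum fun _ _ => ENNReal.summable]
  refine Finset.sum_congr rfl fun f _ => ?_
  rw [tsum_eq_single fun i => Fintype.card {x // f x = i}]
  · rw [← mul_assoc, ← Finset.prod_mul_distrib]
    simp only [if_true, labelA_fact_mul, Finset.prod_const_one, one_mul]
  · intro l hl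
    obtain ⟨i, hi⟩ := Function.ne_iff.1 hl
    have h0 : (∏ i, ((if l i = Fintype.card {x // f x = i} then (l i).factorial else 0 : ℕ) :
        ℝ≥0∞)) = 0 := Finset.prod_eq_zero (Finset.mem_univ i) (by rw [if_neg hi]; simp)
    rw [h0]
    simp

theorem labelA_fib {I X : Type} [Fintype I] [Fintype X] (F : (I → Type) → ℝ≥0∞)
    (hF : ∀ Y Y' : I → Type, (∀ i, Y i ≃ Y' i) → F Y = F Y') :
    ∑' f : X → I, (F fun i => {x // f x = i}) =
      ∑' l : I → ℕ, (∏ i, (((l i).factorial : ℕ) : ℝ≥0∞)⁻¹) *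
        (((if Fintype.card X = ∑ i, l i then (Fintype.card X).factorial else 0 : ℕ) : ℝ≥0∞) *
          F fun i => Fin (l i)) := by
  rw [tsum_fintype, ← LP (X := X) (fun Y _ _ => F Y) (fun Y Y' _ _ u _ => hF Y Y' u)]
  refine tsum_congr fun l => ?_
  have e : ((Σ i, Fin (l i)) ≃ X) ≃ (Fin (Fintype.card X) ≃ (Σ i, Fin (l i))) :=
    ⟨fun e => (Fintype.equivFin X).symm.trans e.symm, fun e => e.symm.trans (Fintype.equivFin X).symm,
      fun _ => by ext; simp, fun _ => by ext1; simp⟩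
  rw [Finset.sum_const, Finset.card_univ, nsmul_eq_mul, Fintype.card_congr e, labelA_card_equiv]
  simp

/-- the labelled product formula -/
theorem labelA_egf {I : Type} [Fintype I] (F : (I → Type) → ℝ≥0∞)
    (hF : ∀ Y Y' : I → Type, (∀ i, Y i ≃ Y' i) → F Y = F Y') :
    ∑' l : I → ℕ, (∏ i, (((l i).factorial : ℕ) : ℝ≥0∞)⁻¹) * F (fun i => Fin (l i)) =
      ∑' n : ℕ, ((n.factorial : ℕ) : ℝ≥0∞)⁻¹ * ∑' f : Fin n → I, F fun i => {x // f x = i} := by
  have h1 : ∀ n : ℕ, ∑' f : Fin n → I, (F fun i => {x // f x = i}) =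
      ∑' l : I → ℕ, (∏ i, (((l i).factorial : ℕ) : ℝ≥0∞)⁻¹) *
        (((if n = ∑ i, l i then n.factorial else 0 : ℕ) : ℝ≥0∞) * F fun i => Fin (l i)) := by
    intro n
    rw [labelA_fib F hF, Fintype.card_fin]
  simp only [h1, ← ENNReal.tsum_mul_left]
  rw [ENNReal.tsum_comm]
  refine tsum_congr fun l => ?_
  rw [tsum_eq_single (∑ i, l i)]
  · rw [if_pos rfl, mul_left_comm, ← mul_assoc (_⁻¹), labelA_fact_mul, one_mul]
  · intro n hn
    simp [hn]

/-- the labelled product formula for two factors -/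
theorem labelA_egf2 (F : Type → Type → ℝ≥0∞)
    (hF : ∀ A A' B B' : Type, (A ≃ A') → (B ≃ B') → F A B = F A' B') :
    ∑' a : ℕ, ∑' b : ℕ, ((a.factorial : ℕ) : ℝ≥0∞)⁻¹ * ((b.factorial : ℕ) : ℝ≥0∞)⁻¹ *
        F (Fin a) (Fin b) =
      ∑' n : ℕ, ((n.factorial : ℕ) : ℝ≥0∞)⁻¹ *
        ∑' p : Fin n → Bool, F {x // p x = true} {x // ¬p x = true} := by
  have h := labelA_egf (I := Bool) (fun Y => F (Y true) (Y false))
    fun Y Y' u => hF _ _ _ _ (u true) (u false)
  rw [← (Equiv.boolArrowEquivProd ℕ).symm.tsum_eq, ENNReal.tsum_prod', ENNReal.tsum_comm] at h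
  have h2 : ∀ (n : ℕ) (p : Fin n → Bool), F {x // p x = true} {x // p x = false} =
      F {x // p x = true} {x // ¬p x = true} := fun n p =>
    hF _ _ _ _ (Equiv.refl _) (Equiv.subtypeEquivRight fun x => by simp)
  simp only [h2] at h
  rw [← h]
  refine tsum_congr fun a => tsum_congr fun b => ?_
  simp [Equiv.boolArrowEquivProd]

/-- the labelled product formula for the index set `Option I` -/
theorem labelA_egfO {I : Type} [Fintype I] (F : Type → (I → Type) → ℝ≥0∞)
    (hF : ∀ (W W' : Type) (Y Y' : I → Type), (W ≃ W') → (∀ i, Y i ≃ Y' i) → F W Y = F W' Y') :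
    ∑' a : ℕ, ∑' l : I → ℕ, ((a.factorial : ℕ) : ℝ≥0∞)⁻¹ *
        (∏ i, (((l i).factorial : ℕ) : ℝ≥0∞)⁻¹) * F (Fin a) (fun i => Fin (l i)) =
      ∑' n : ℕ, ((n.factorial : ℕ) : ℝ≥0∞)⁻¹ *
        ∑' f : Fin n → Option I, F {x // f x = none} fun i => {x // f x = some i} := by
  have h := labelA_egf (I := Option I) (fun Y => F (Y none) fun i => Y (some i))
    fun Y Y' u => hF _ _ _ _ (u none) fun i => u (some i)
  rw [← (Equiv.piOptionEquivProd (β := fun _ => ℕ)).symm.tsum_eq, ENNReal.tsum_prod'] at h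
  rw [← h]
  refine tsum_congr fun a => tsum_congr fun l => ?_
  simp [Equiv.piOptionEquivProd, Fintype.prod_option]

/-- pointing -/
theorem labelA_point (F : ∀ V : Type, V → ℝ≥0∞)
    (hF : ∀ (V V' : Type) (e : V ≃ V') (v : V), F V' (e v) = F V v) :
    ∑' n : ℕ, ((n.factorial : ℕ) : ℝ≥0∞)⁻¹ * ∑' v : Fin n, F (Fin n) v =
      ∑' n : ℕ, ((n.factorial : ℕ) : ℝ≥0∞)⁻¹ * F (Option (Fin n)) none := by
  rw [tsum_eq_zero_add' ENNReal.summable]
  simp only [tsum_empty, mul_zero, zero_add]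
  refine tsum_congr fun n => ?_
  have h1 : ∀ v : Fin (n + 1), F (Fin (n + 1)) v = F (Option (Fin n)) none := fun v => by
    rw [← hF _ _ (finSuccEquiv' v) v, finSuccEquiv'_at]
  simp only [h1, tsum_fintype, Finset.sum_const, Finset.card_univ, Fintype.card_fin, nsmul_eq_mul]
  rw [← mul_assoc, Nat.factorial_succ, Nat.cast_mul, ENNReal.mul_inv (by simp) (by simp),
    mul_right_comm _ _ ((n + 1 : ℕ) : ℝ≥0∞),
    ENNReal.inv_mul_cancel (by simp) (ENNReal.natCast_ne_top _), one_mul]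

/-! Instance free versions of functionals. -/

/-- the identity as a dart bijection -/
def labelA_refl (E : Type) : DIso E E := ⟨Equiv.refl _, fun _ => rfl⟩

/-- the dart bijection induced by an edge bijection -/
def labelA_ofEquiv {E E' : Type} (e : E ≃ E') : DIso E E' :=
  ⟨Equiv.prodCongr e (Equiv.refl Bool), fun _ => rfl⟩

/-- reversal of all edges -/
def labelA_flip (E : Type) : DIso E E := ⟨flp E, fun _ => rfl⟩

@[simp] theorem labelA_refl_apply {E : Type} (x : E × Bool) : (labelA_refl E).1 x = x := rfl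

@[simp] theorem labelA_ofEquiv_apply {E E' : Type} (e : E ≃ E') (x : E × Bool) :
    (labelA_ofEquiv e).1 x = (e x.1, x.2) := rfl

@[simp] theorem labelA_flip_apply {E : Type} (x : E × Bool) : (labelA_flip E).1 x = (x.1, !x.2) := rfl

theorem labelA_finite_iff {E E' : Type} (u : DIso E E') : Finite E ↔ Finite E' := by
  constructor
  · intro h
    have : Finite (E' × Bool) := Finite.of_equiv _ u.1
    exact Finite.of_injective (fun e : E' => (e, true)) fun _ _ h => congrArg Prod.fst h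
  · intro h
    have : Finite (E × Bool) := Finite.of_equiv _ u.1.symm
    exact Finite.of_injective (fun e : E => (e, true)) fun _ _ h => congrArg Prod.fst h

/-- instance free version -/
noncomputable def NFun.tot (Ψ : NFun) (E V : Type) (N : E × Bool → Bool ⊕ V) : ℝ≥0∞ :=
  if h : Finite E ∧ Finite V then
    @Ψ E V (@Fintype.ofFinite E h.1) (@Fintype.ofFinite V h.2) N else 0

/-- instance free version -/
noncomputable def RFun.tot (Ψ : RFun) (E V : Type) (N : E × Bool → Option V) : ℝ≥0∞ :=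
  if h : Finite E ∧ Finite V then
    @Ψ E V (@Fintype.ofFinite E h.1) (@Fintype.ofFinite V h.2) N else 0

/-- instance free version -/
noncomputable def VFun.tot (Ψ : VFun) (E V : Type) (N : E × Bool → V) (v : V) : ℝ≥0∞ :=
  if h : Finite E ∧ Finite V then
    @Ψ E V (@Fintype.ofFinite E h.1) (@Fintype.ofFinite V h.2) N v else 0

/-- instance free version -/
noncomputable def DFun.tot (Ψ : DFun) (E V : Type) (N : E × Bool → V) (y : E × Bool) : ℝ≥0∞ :=
  if h : Finite E ∧ Finite V then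
    @Ψ E V (@Fintype.ofFinite E h.1) (@Fintype.ofFinite V h.2) N y else 0

theorem NFun.eq_tot (Ψ : NFun) (E V : Type) [Fintype E] [Fintype V] (N : E × Bool → Bool ⊕ V) :
    Ψ E V N = Ψ.tot E V N := by
  unfold NFun.tot
  rw [dif_pos ⟨inferInstance, inferInstance⟩]
  congr <;> exact Subsingleton.elim _ _

theorem RFun.eq_tot (Ψ : RFun) (E V : Type) [Fintype E] [Fintype V] (N : E × Bool → Option V) :
    Ψ E V N = Ψ.tot E V N := by
  unfold RFun.tot
  rw [dif_pos ⟨inferInstance, inferInstance⟩]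
  congr <;> exact Subsingleton.elim _ _

theorem VFun.eq_tot (Ψ : VFun) (E V : Type) [Fintype E] [Fintype V] (N : E × Bool → V) (v : V) :
    Ψ E V N v = Ψ.tot E V N v := by
  unfold VFun.tot
  rw [dif_pos ⟨inferInstance, inferInstance⟩]
  congr <;> exact Subsingleton.elim _ _

theorem DFun.eq_tot (Ψ : DFun) (E V : Type) [Fintype E] [Fintype V] (N : E × Bool → V)
    (y : E × Bool) : Ψ E V N y = Ψ.tot E V N y := by
  unfold DFun.tot
  rw [dif_pos ⟨inferInstance, inferInstance⟩]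
  congr <;> exact Subsingleton.elim _ _

theorem NInv.tot {Ψ : NFun} (hΨ : NInv Ψ) {E V E' V' : Type} (u : DIso E E') (e : V ≃ V')
    (N : E × Bool → Bool ⊕ V) (N' : E' × Bool → Bool ⊕ V')
    (h : ∀ x, N' (u.1 x) = (N x).map id e) : Ψ.tot E' V' N' = Ψ.tot E V N := by
  unfold NFun.tot
  by_cases hf : Finite E ∧ Finite V
  · rw [dif_pos hf, dif_pos ⟨(labelA_finite_iff u).1 hf.1, e.finite_iff.1 hf.2⟩]
    exact @hΨ _ _ _ _ (_) (_) (_) (_) u e N N' h
  · rw [dif_neg hf, dif_neg fun h' => hf ⟨(labelA_finite_iff u).2 h'.1, e.finite_iff.2 h'.2⟩]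

theorem RInv.tot {Ψ : RFun} (hΨ : RInv Ψ) {E V E' V' : Type} (u : DIso E E') (e : V ≃ V')
    (N : E × Bool → Option V) (N' : E' × Bool → Option V')
    (h : ∀ x, N' (u.1 x) = (N x).map e) : Ψ.tot E' V' N' = Ψ.tot E V N := by
  unfold RFun.tot
  by_cases hf : Finite E ∧ Finite V
  · rw [dif_pos hf, dif_pos ⟨(labelA_finite_iff u).1 hf.1, e.finite_iff.1 hf.2⟩]
    exact @hΨ _ _ _ _ (_) (_) (_) (_) u e N N' h
  · rw [dif_neg hf, dif_neg fun h' => hf ⟨(labelA_finite_iff u).2 h'.1, e.finite_iff.2 h'.2⟩]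

theorem VInv.tot {Ψ : VFun} (hΨ : VInv Ψ) {E V E' V' : Type} (u : DIso E E') (e : V ≃ V')
    (N : E × Bool → V) (N' : E' × Bool → V') (v : V)
    (h : ∀ x, N' (u.1 x) = e (N x)) : Ψ.tot E' V' N' (e v) = Ψ.tot E V N v := by
  unfold VFun.tot
  by_cases hf : Finite E ∧ Finite V
  · rw [dif_pos hf, dif_pos ⟨(labelA_finite_iff u).1 hf.1, e.finite_iff.1 hf.2⟩]
    exact @hΨ _ _ _ _ (_) (_) (_) (_) u e N N' v h
  · rw [dif_neg hf, dif_neg fun h' => hf ⟨(labelA_finite_iff u).2 h'.1, e.finite_iff.2 h'.2⟩]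

theorem DInv.tot {Ψ : DFun} (hΨ : DInv Ψ) {E V E' V' : Type} (u : DIso E E') (e : V ≃ V')
    (N : E × Bool → V) (N' : E' × Bool → V') (y : E × Bool)
    (h : ∀ x, N' (u.1 x) = e (N x)) : Ψ.tot E' V' N' (u.1 y) = Ψ.tot E V N y := by
  unfold DFun.tot
  by_cases hf : Finite E ∧ Finite V
  · rw [dif_pos hf, dif_pos ⟨(labelA_finite_iff u).1 hf.1, e.finite_iff.1 hf.2⟩]
    exact @hΨ _ _ _ _ (_) (_) (_) (_) u e N N' y h
  · rw [dif_neg hf, dif_neg fun h' => hf ⟨(labelA_finite_iff u).2 h'.1, e.finite_iff.2 h'.2⟩]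

theorem labelA_wt (m n : ℕ) :
    wt m n = ((m.factorial : ℕ) : ℝ≥0∞)⁻¹ * (2⁻¹ ^ m * ((n.factorial : ℕ) : ℝ≥0∞)⁻¹) := by
  unfold wt
  rw [Nat.cast_mul, Nat.cast_mul, ENNReal.mul_inv (Or.inr (ENNReal.natCast_ne_top _))
    (Or.inl (ENNReal.mul_ne_top (ENNReal.natCast_ne_top _) (ENNReal.natCast_ne_top _))),
    ENNReal.mul_inv (Or.inr (ENNReal.natCast_ne_top _)) (Or.inl (ENNReal.natCast_ne_top _)),
    Nat.cast_pow, Nat.cast_ofNat, ENNReal.inv_pow, mul_assoc]

/-- a labelled sum as an iterated sum -/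
theorem labelA_tsum (S : ℕ → ℕ → Type) (T : ∀ m n, S m n → ℝ≥0∞) :
    ∑' G : Σ m, Σ n, S m n, wt G.1 G.2.1 * T G.1 G.2.1 G.2.2 =
      ∑' m : ℕ, ((m.factorial : ℕ) : ℝ≥0∞)⁻¹ * (2⁻¹ ^ m *
        ∑' n : ℕ, ((n.factorial : ℕ) : ℝ≥0∞)⁻¹ * ∑' g : S m n, T m n g) := by
  rw [ENNReal.tsum_sigma']
  refine tsum_congr fun m => ?_
  rw [ENNReal.tsum_sigma', ← ENNReal.tsum_mul_left, ← ENNReal.tsum_mul_left]
  refine tsum_congr fun n => ?_
  simp only [ENNReal.tsum_mul_left, labelA_wt, mul_assoc]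

/-- Marking a vertex. -/
theorem mark_vertex (Θ : VFun) (hΘ : VInv Θ) :
    ∑' ν : UG, wt ν.1 ν.2.1 * ∑ v, Θ _ _ ν.2.2 v = ∑' R : RG, wt R.1 R.2.1 * Θ _ _ R.2.2 none := by
  rw [labelA_tsum (fun m n => Fin m × Bool → Fin n) fun m n ν => ∑ v, Θ _ _ ν v,
    labelA_tsum (fun m n => Fin m × Bool → Option (Fin n)) fun m n R => Θ _ _ R none]
  refine tsum_congr fun m => ?_
  congr 2
  have h := labelA_point (fun V v => ∑' ν : Fin m × Bool → V, Θ.tot _ _ ν v) fun V V' e v => by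
    rw [← (Equiv.arrowCongr (Equiv.refl (Fin m × Bool)) e).tsum_eq]
    exact tsum_congr fun ν => hΘ.tot (labelA_refl _) e _ _ v fun x => rfl
  simp only [VFun.eq_tot Θ]
  rw [← h]
  refine tsum_congr fun n => ?_
  rw [ENNReal.tsum_comm]
  simp only [tsum_fintype]

/-- functions on the darts with one more edge -/
def labelA_split (E V : Type) : (Option E × Bool → V) ≃ V × V × (E × Bool → V) where
  toFun ν := (ν (none, true), ν (none, false), fun x => ν (some x.1, x.2))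
  invFun p x := x.1.elim (if x.2 then p.1 else p.2.1) fun e => p.2.2 (e, x.2)
  left_inv ν := by
    funext ⟨e, b⟩
    cases e <;> cases b <;> simp
  right_inv p := by simp

/-- two marked points -/
def labelA_two (V : Type) : Option (Option V) ≃ Bool ⊕ V where
  toFun o := o.elim (Sum.inl true) fun o' => o'.elim (Sum.inl false) Sum.inr
  invFun s := s.elim (fun b => if b then none else some none) fun v => some (some v)
  left_inv o := by
    rcases o with _ | _ | v <;> simp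
  right_inv s := by
    rcases s with (_ | _) | v <;> simp

theorem labelA_dart_vertex (Θ : DFun) (hΘ : DInv Θ) (E : Type) :
    ∑' n : ℕ, ((n.factorial : ℕ) : ℝ≥0∞)⁻¹ *
        ∑' ν : Option E × Bool → Fin n, Θ.tot _ _ ν (none, true) =
      ∑' n : ℕ, ((n.factorial : ℕ) : ℝ≥0∞)⁻¹ *
          ∑' G : E × Bool → Bool ⊕ Fin n, Θ.tot _ _ (clo G) (none, true) +
        ∑' n : ℕ, ((n.factorial : ℕ) : ℝ≥0∞)⁻¹ *
          ∑' R : E × Bool → Option (Fin n), Θ.tot _ _ (cloL R) (none, true) := by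
  obtain ⟨A, hA⟩ : ∃ A : ∀ V : Type, V → V → ℝ≥0∞, A = fun V a b =>
      ∑' g : E × Bool → V, Θ.tot _ _ ((labelA_split E V).symm (a, b, g)) (none, true) := ⟨_, rfl⟩
  have hinv : ∀ (V V' : Type) (e : V ≃ V') (a b : V), A V' (e a) (e b) = A V a b := by
    intro V V' e a b
    subst hA
    simp only
    rw [← (Equiv.arrowCongr (Equiv.refl (E × Bool)) e).tsum_eq]
    refine tsum_congr fun g => hΘ.tot (labelA_refl _) e _ _ (none, true) ?_
    rintro ⟨_ | x, _ | _⟩ <;> simp [labelA_split]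
  have h1 : ∀ V : Type, ∑' ν : Option E × Bool → V, Θ.tot _ _ ν (none, true) =
      ∑' a, ∑' b, A V a b := by
    intro V
    rw [← (labelA_split E V).symm.tsum_eq, ENNReal.tsum_prod']
    refine tsum_congr fun a => ?_
    rw [ENNReal.tsum_prod', hA]
  simp only [h1]
  rw [labelA_point (fun V a => ∑' b, A V a b) fun V V' e a => by
    rw [← e.tsum_eq]
    exact tsum_congr fun b => hinv _ _ e a b]
  have h2 : ∀ n : ℕ, ∑' b, A (Option (Fin n)) none b =
      ∑' b : Fin n, A (Option (Fin n)) none (some b) + A (Option (Fin n)) none none := by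
    intro n
    rw [tsum_fintype, tsum_fintype, Fintype.sum_option, add_comm]
  simp only [h2, mul_add]
  rw [ENNReal.tsum_add, labelA_point (fun V b => A (Option V) none (some b)) fun V V' e b =>
    hinv _ _ e.optionCongr none (some b)]
  congr 1
  · refine tsum_congr fun n => ?_
    rw [← hinv _ _ (labelA_two (Fin n)), hA]
    congr 1
    refine tsum_congr fun g => ?_
    congr 1
    funext ⟨e, b⟩
    cases e <;> cases b <;> simp [labelA_split, labelA_two, clo]
  · refine tsum_congr fun n => ?_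
    rw [hA]
    congr 1
    refine tsum_congr fun g => ?_
    congr 1
    funext ⟨e, b⟩
    cases e <;> cases b <;> simp [labelA_split, cloL]

theorem labelA_dart_edge (Θ : DFun) (hΘ : DInv Θ) (V : Type) :
    ∑' m : ℕ, ((m.factorial : ℕ) : ℝ≥0∞)⁻¹ * (2⁻¹ ^ m *
        ∑' ν : Fin m × Bool → V, ∑' x, Θ.tot _ _ ν x) =
      ∑' m : ℕ, ((m.factorial : ℕ) : ℝ≥0∞)⁻¹ * (2⁻¹ ^ m *
        ∑' ν : Option (Fin m) × Bool → V, Θ.tot _ _ ν (none, true)) := by
  have h := labelA_point (fun E e => 2⁻¹ ^ Nat.card E *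
      ∑' ν : E × Bool → V, ∑' b : Bool, Θ.tot _ _ ν (e, b)) fun E E' u e => by
    rw [Nat.card_congr u.symm,
      ← (Equiv.arrowCongr (Equiv.prodCongr u (Equiv.refl Bool)) (Equiv.refl V)).tsum_eq]
    congr 1
    refine tsum_congr fun ν => tsum_congr fun b => ?_
    exact hΘ.tot (labelA_ofEquiv u) (Equiv.refl V) _ _ (e, b) fun x => by simp
  refine Eq.trans ?_ (h.trans ?_)
  · refine tsum_congr fun m => ?_
    simp only [ENNReal.tsum_mul_left, ENNReal.tsum_prod', Nat.card_eq_fintype_card,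
      Fintype.card_fin]
    rw [ENNReal.tsum_comm]
  · refine tsum_congr fun m => ?_
    have h2 : ∑' ν : Option (Fin m) × Bool → V, Θ.tot _ _ ν (none, false) =
        ∑' ν : Option (Fin m) × Bool → V, Θ.tot _ _ ν (none, true) := by
      rw [← (Equiv.arrowCongr (flp (Option (Fin m))) (Equiv.refl V)).tsum_eq]
      refine tsum_congr fun ν => ?_
      exact hΘ.tot (labelA_flip _) (Equiv.refl V) _ _ (none, true) fun x => by simp [flp]
    simp only [tsum_bool, ENNReal.tsum_add, h2, Nat.card_eq_fintype_card, Fintype.card_option,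
      Fintype.card_fin]
    rw [← two_mul, pow_succ, mul_assoc, ← mul_assoc 2⁻¹,
      ENNReal.inv_mul_cancel (by simp) (by simp), one_mul]

/-- Marking a dart: its edge is a link or a loop. -/
theorem mark_dart (Θ : DFun) (hΘ : DInv Θ) :
    ∑' ν : UG, wt ν.1 ν.2.1 * ∑ x, Θ _ _ ν.2.2 x =
      ∑' G : NG, wt G.1 G.2.1 * Θ _ _ (clo G.2.2) (none, true) +
        ∑' R : RG, wt R.1 R.2.1 * Θ _ _ (cloL R.2.2) (none, true) := by
  rw [labelA_tsum (fun m n => Fin m × Bool → Fin n) fun m n ν => ∑ x, Θ _ _ ν x,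
    labelA_tsum (fun m n => Fin m × Bool → Option (Fin n))
      fun m n R => Θ _ _ (cloL R) (none, true),
    labelA_tsum (fun m n => Fin m × Bool → Bool ⊕ Fin n) fun m n G => Θ _ _ (clo G) (none, true),
    ← ENNReal.tsum_add]
  simp only [DFun.eq_tot Θ, ← mul_add, ← labelA_dart_vertex Θ hΘ]
  have swap : ∀ T : ℕ → ℕ → ℝ≥0∞, ∑' m : ℕ, ((m.factorial : ℕ) : ℝ≥0∞)⁻¹ * (2⁻¹ ^ m *
      ∑' n : ℕ, ((n.factorial : ℕ) : ℝ≥0∞)⁻¹ * T m n) =
      ∑' n : ℕ, ((n.factorial : ℕ) : ℝ≥0∞)⁻¹ *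
        ∑' m : ℕ, ((m.factorial : ℕ) : ℝ≥0∞)⁻¹ * (2⁻¹ ^ m * T m n) := by
    intro T
    simp only [← ENNReal.tsum_mul_left]
    rw [ENNReal.tsum_comm]
    exact tsum_congr fun n => tsum_congr fun m => by ring
  rw [swap, swap]
  refine tsum_congr fun n => ?_
  rw [← labelA_dart_edge Θ hΘ]
  simp only [tsum_fintype]

end Pool.Agent.Lib.MP_77dff5_pr
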