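import Pool.Agent.Lib.MP_77dff5_pr.PermA

/-! Inserting a stem and splitting the root vertex. -/

set_option autoImplicit false
set_option linter.unusedSectionVars false

namespace Pool.Agent.Lib.MP_77dff5_pr

open Equiv

section
variable {X W : Type} [Finite X] [DecidableEq X]

theorem rootC_some (τ : Perm X) (y z : X) :
    Perm.SameCycle τ.optionCongr (some y) (some z) ↔ τ.SameCycle y z := by
  refine ⟨fun h => ?_, permA_map some fun _ => rfl⟩
  obtain ⟨w, hw, h⟩ := permA_ind (fun o => ∃ w, o = some w ∧ τ.SameCycle y w)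
    (by rintro _ ⟨w, rfl, h⟩; exact ⟨τ w, rfl, h.apply_right⟩) h ⟨y, rfl, Perm.SameCycle.rfl⟩
  exact Option.some.inj hw ▸ h

theorem rootC_none (τ : Perm X) (z : X) : ¬Perm.SameCycle τ.optionCongr none (some z) :=
  fun h => by simpa using h.eq_of_left rfl

theorem rootC_none' (τ : Perm X) (z : X) : ¬Perm.SameCycle τ.optionCongr (some z) none :=
  fun h => rootC_none τ z h.symm

/-- inserting a stem after `x` -/
theorem rootC_stem (μ : X → W) (τ : Perm X) (x : X) :
    IsRot (fun o : Option X => o.elim (μ x) μ) (τ.optionCongr * swap none (some x)) ↔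
      IsRot μ τ := by
  have e := sameCycle_mul_swap_of_not _ (rootC_none τ x)
  constructor
  · intro h y z
    have := h (some y) (some z)
    rw [e] at this
    simpa only [rootC_some, rootC_none', false_and, and_false, or_false, Option.elim_some]
      using this
  · rintro h (_ | y) (_ | z) <;> rw [e] <;>
      simp only [rootC_some, rootC_none, rootC_none', false_and, and_false, or_false, false_or,
        Option.elim_some, Option.elim_none, Perm.SameCycle.rfl, true_and, and_true, h _ _]
    exact eq_comm

theorem rootC_ncyc (τ : Perm X) (x : X) :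
    ncyc (τ.optionCongr * swap none (some x)) = ncyc τ := by
  have := ncyc_mul_swap_of_not _ (rootC_none τ x)
  rw [ncyc_optionCongr] at this
  omega

theorem rootC_exists (ρ : Perm (Option X)) {s : X} (h : ρ.SameCycle none (some s)) :
    ∃ (τ : Perm X) (x : X), ρ = τ.optionCongr * swap none (some x) := by
  obtain ⟨x', hx⟩ := ρ.surjective none
  rcases x' with _ | x
  · simpa using h.eq_of_left hx
  refine ⟨removeNone (ρ * swap none (some x)), x, ?_⟩
  rw [map_equiv_removeNone, Perm.mul_apply, swap_apply_left, hx, swap_self, ← Perm.one_def,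
    one_mul, mul_assoc, swap_mul_self, mul_one]

theorem rootC_inj {τ τ' : Perm X} {x x' : X}
    (h : τ.optionCongr * swap none (some x) = τ'.optionCongr * swap none (some x')) : τ = τ' := by
  obtain rfl : x = x' := by
    by_contra hx
    have := DFunLike.congr_fun h (some x)
    rw [Perm.mul_apply, Perm.mul_apply, swap_apply_right,
      swap_apply_of_ne_of_ne (by simp) (by simpa using hx)] at this
    simp at this
  exact optionCongr_injective (mul_right_cancel h)

theorem rootC_gen0 (τ α : Perm X) {s x : X} (h : τ.SameCycle s x) :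
    Gen0 (τ.optionCongr * swap none (some x) * swap none (some s))
      (swap none (some s) * α.optionCongr) ↔ Gen0 τ α := by
  have h1 : Perm.SameCycle (τ.optionCongr * swap none (some x)) none (some s) := by
    rw [sameCycle_mul_swap_of_not _ (rootC_none τ x)]
    exact Or.inr (Or.inl ⟨Perm.SameCycle.rfl, (rootC_some τ _ _).mpr h⟩)
  have h2 := ncyc_mul_swap_of_same _ h1 (by simp)
  have h3 : ncyc (swap none (some s) * α.optionCongr) = ncyc α := by
    rw [ncyc_mul_comm, rootC_ncyc]
  have h4 : τ.optionCongr * swap none (some x) * swap none (some s) *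
      (swap none (some s) * α.optionCongr) =
      (τ * α).optionCongr * swap none (some (α⁻¹ x)) := by
    rw [mul_assoc, swap_mul_self_mul, mul_assoc, swap_mul_eq_mul_swap, ← mul_assoc]
    congr 1
    ext (_ | y) <;> simp
  unfold Gen0
  rw [h2, h3, h4, rootC_ncyc, rootC_ncyc, Finite.card_option]
  omega

open Classical in
/-- the vertex map after splitting the root -/
noncomputable def rootC_split {Y V : Type} (μ : Y → Option V) (σ : Perm Y) (a : Y) :
    Y → Bool ⊕ V :=
  fun y => (μ y).elim (if σ.SameCycle a y then Sum.inl true else Sum.inl false) Sum.inr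

theorem rootC_split_rot {V : Type} {μ : X → Option V} {ρ : Perm X} (h : IsRot μ ρ) {a b : X}
    (hab : a ≠ b) (ha : μ a = none) (hb : μ b = none) :
    IsRot (rootC_split μ (ρ * swap a b) a) (ρ * swap a b) := by
  have h1 := not_sameCycle_mul_swap ρ ((h a b).mpr (ha.trans hb.symm)) hab
  have h2 := sameCycle_mul_swap_of_not _ h1
  rw [mul_assoc, swap_mul_self, mul_one] at h2
  generalize ρ * swap a b = σ at h1 h2
  have h3 : ∀ x y, μ x = μ y ↔ σ.SameCycle x y ∨ (σ.SameCycle x a ∧ σ.SameCycle y b) ∨
      (σ.SameCycle x b ∧ σ.SameCycle y a) := fun x y => by rw [← h x y, h2]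
  have h4 : ∀ y, μ y = none ↔ σ.SameCycle a y ∨ σ.SameCycle b y := fun y => by
    rw [← ha, eq_comm, h3]
    simp only [Perm.SameCycle.rfl, true_and, h1, false_and, or_false, Perm.sameCycle_comm (x := y)]
  intro x y
  unfold rootC_split
  cases hx : μ x with
  | some v =>
    have h5 : ¬σ.SameCycle x a := fun h' => by simpa [hx] using (h4 x).mpr (Or.inl h'.symm)
    have h6 : ¬σ.SameCycle x b := fun h' => by simpa [hx] using (h4 x).mpr (Or.inr h'.symm)
    have h7 := h3 x y
    simp only [h5, h6, false_and, or_false, hx] at h7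
    rw [← h7]
    cases μ y with
    | some w => simp
    | none => simp only [Option.elim_some, Option.elim_none]; split_ifs <;> simp
  | none =>
    cases hy : μ y with
    | some w =>
      have h7 : ¬σ.SameCycle x y := fun h' => by simpa [hx, hy] using (h3 x y).mpr (Or.inl h')
      simp only [Option.elim_some, Option.elim_none, h7]
      split_ifs <;> simp
    | none =>
      simp only [Option.elim_none]
      have h8 := (h4 x).mp hx
      have h9 := (h4 y).mp hy
      split_ifs with c1 c2 c2
      · simpa using c1.symm.trans c2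
      · simpa using fun h' => c2 (c1.trans h')
      · simpa using fun h' => c1 (c2.trans h'.symm)
      · simpa using (h8.resolve_left c1).symm.trans (h9.resolve_left c2)

theorem rootC_merge {V : Type} {ν : X → Bool ⊕ V} {σ : Perm X} (h : IsRot ν σ) {a b : X}
    (ha : ν a = Sum.inl true) (hb : ν b = Sum.inl false) :
    IsRot (fun x => (ν x).elim (fun _ => none) some) (σ * swap a b) := by
  intro x y
  rw [sameCycle_mul_swap_of_not _ (by rw [h a b, ha, hb]; simp), h, h, h, h, h, ha, hb]
  beta_reduce
  rcases ν x with (_ | _) | v <;> rcases ν y with (_ | _) | w <;> simp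

theorem rootC_unique {V : Type} {ν : X → Bool ⊕ V} {σ : Perm X} (h : IsRot ν σ) {a : X}
    (ha : ν a = Sum.inl true) (y : X) :
    rootC_split (fun x => (ν x).elim (fun _ => none) some) σ a y = ν y := by
  unfold rootC_split
  rw [h a y, ha]
  beta_reduce
  rcases ν y with (_ | _) | v <;> simp

theorem rootC_cycle (τ : Perm X) {s : X} {L i : ℕ} (hi : i < L)
    (hL : ∀ j k, (τ ^ j) s = (τ ^ k) s ↔ j ≡ k [MOD L]) (z : X) :
    Perm.SameCycle (τ.optionCongr * swap none (some ((τ ^ i) s)) * swap none (some s)) none
      (some z) ↔ ∃ j, 1 ≤ j ∧ j ≤ i ∧ (τ ^ j) s = z := by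
  have inj : ∀ j k, j < L → k < L → (τ ^ j) s = (τ ^ k) s → j = k := fun j k hj hk h =>
    ((hL j k).mp h).eq_of_lt_of_lt hj hk
  set σ := τ.optionCongr * swap none (some ((τ ^ i) s)) * swap none (some s) with hσ
  have e0 : ∀ j, j < i → (τ.optionCongr * swap none (some ((τ ^ i) s))) (some ((τ ^ j) s)) =
      some ((τ ^ (j + 1)) s) := fun j hj => by
    rw [Perm.mul_apply, swap_apply_of_ne_of_ne (by simp)
      (fun h => by have := inj _ _ (by omega) hi (Option.some.inj h); omega), pow_succ']
    rfl
  have e1 : (τ.optionCongr * swap none (some ((τ ^ i) s))) (some ((τ ^ i) s)) = none := by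
    rw [Perm.mul_apply, swap_apply_right]
    rfl
  have e2 : σ none = (τ.optionCongr * swap none (some ((τ ^ i) s))) (some ((τ ^ 0) s)) := by
    rw [hσ, Perm.mul_apply, swap_apply_left]
    rfl
  have e3 : ∀ j, 1 ≤ j → j ≤ i → σ (some ((τ ^ j) s)) =
      (τ.optionCongr * swap none (some ((τ ^ i) s))) (some ((τ ^ j) s)) := fun j h1 h2 => by
    rw [hσ, Perm.mul_apply, swap_apply_of_ne_of_ne (by simp)
      (fun h => by have := inj j 0 (by omega) (by omega) (Option.some.inj h); omega)]
  constructor
  · intro h
    have := permA_ind (fun o => o = none ∨ ∃ j, 1 ≤ j ∧ j ≤ i ∧ some ((τ ^ j) s) = o) (by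
      rintro _ (rfl | ⟨j, h1, h2, rfl⟩)
      · rw [e2]
        rcases Nat.eq_zero_or_pos i with rfl | h0
        · exact Or.inl e1
        · exact Or.inr ⟨1, le_rfl, h0, (e0 0 h0).symm⟩
      · rw [e3 j h1 h2]
        rcases h2.lt_or_eq with h2 | rfl
        · exact Or.inr ⟨j + 1, by omega, h2, (e0 j h2).symm⟩
        · exact Or.inl e1) h (Or.inl rfl)
    simpa using this
  · rintro ⟨j, h1, h2, rfl⟩
    induction j, h1 using Nat.le_induction with
    | base =>
      rw [← e0 0 h2, ← e2]
      exact (Perm.SameCycle.refl _ _).apply_right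
    | succ j h1 ih =>
      rw [← e0 j h2, ← e3 j h1 (by omega)]
      exact (ih (by omega)).apply_right

end

end Pool.Agent.Lib.MP_77dff5_pr
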