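import Pool.Agent.Lib.MP_77dff5_pr.RootA
import Pool.Agent.Lib.MP_77dff5_pr.PermC
import Pool.Agent.Lib.MP_77dff5_pr.LabelA
import Pool.Agent.Lib.MP_77dff5_pr.RootCAux1

/-! Rooted maps: stems, root loops, contraction of the root edge, Tutte's recursion. -/

set_option autoImplicit false
set_option linter.unusedSectionVars false

namespace Pool.Agent.Lib.MP_77dff5_pr

open scoped ENNReal

section
open Equiv Finset
variable {E V : Type} [Fintype E] [Fintype V] [DecidableEq E] [DecidableEq V]

/-- `clo` with the root darts written as two stems -/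
def rootC_nu (G : E × Bool → Bool ⊕ V) : Option (Option (E × Bool)) → Bool ⊕ V :=
  fun o => o.elim (Sum.inl true) fun o' => o'.elim (Sum.inl false) G

/-- the darts of `clo` -/
def rootC_u (E : Type) : Option (Option (E × Bool)) ≃ Option E × Bool where
  toFun o := o.elim (none, true) fun o' => o'.elim (none, false) fun d => (some d.1, d.2)
  invFun x := x.1.elim (cond x.2 none (some none)) fun e => some (some (e, x.2))
  left_inv := by rintro (_ | _ | ⟨e, b⟩) <;> rfl
  right_inv := by rintro ⟨_ | e, _ | _⟩ <;> rfl

theorem rootC_emb (G : E × Bool → Bool ⊕ V) : emb (clo G) (flp (Option E)) =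
    emb (rootC_nu G) (swap none (some none) * (flp E).optionCongr.optionCongr) := by
  have e : ∀ x, clo G (rootC_u E x) = rootC_nu G x := by rintro (_ | _ | ⟨e, b⟩) <;> rfl
  refine emb_congr (rootC_u E) ?_ fun x y => by rw [e, e]
  rintro (_ | _ | ⟨e, b⟩)
  · rfl
  · rfl
  · rw [Perm.mul_apply, swap_apply_of_ne_of_ne (by simp) (by simp)]
    rfl

theorem rootC_conn (G : E × Bool → Bool ⊕ V) : SConn (clo G) ↔ RConn (contract G) := by
  refine and_congr ⟨fun h => ?_, fun h => ?_⟩ ⟨fun h => ?_, fun h => ?_⟩
  · rintro (_ | v)
    · exact ⟨none, rfl⟩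
    · obtain ⟨⟨_ | e, b⟩, hx⟩ := h (Sum.inr v)
      · exact absurd hx Sum.inl_ne_inr
      · refine ⟨some (e, b), ?_⟩
        show (G (e, b)).elim _ _ = _
        rw [show G (e, b) = Sum.inr v from hx]
        rfl
  · rintro (c | v)
    · exact ⟨(none, c), rfl⟩
    · obtain ⟨_ | ⟨e, b⟩, hx⟩ := h (some v)
      · exact absurd hx (by simp [stem])
      · refine ⟨(some e, b), ?_⟩
        show G (e, b) = _
        have hx' : (G (e, b)).elim (fun _ => none) some = some v := hx
        revert hx'
        rcases G (e, b) with c | w <;> simp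
  · have key := fun x y => permA_eqv
      (s := fun a b => stem (contract G) a = stem (contract G) b ∨ b = (flp E).optionCongr a)
      (fun x : Option E × Bool => x.1.map fun e => (e, x.2)) (fun a b hab => by
        have e : ∀ a : Option E × Bool, stem (contract G) (a.1.map fun e => (e, a.2)) =
            (clo G a).elim (fun _ => none) some := by rintro ⟨_ | e, b⟩ <;> rfl
        rcases hab with hab | rfl
        · exact .rel _ _ (Or.inl (by rw [e, e, hab]))
        · rcases a with ⟨_ | e, b⟩
          · exact .refl _
          · exact .rel _ _ (Or.inr rfl)) (h x y)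
    rintro (_ | ⟨e, b⟩) (_ | ⟨e', b'⟩)
    · exact .refl _
    · exact key (none, true) (some e', b')
    · exact key (some e, b) (none, true)
    · exact key (some e, b) (some e', b')
  · have r0 : ∀ x, (clo G x).elim (fun _ => none) some = none → Relation.EqvGen
        (fun a b => clo G a = clo G b ∨ b = flp (Option E) a) (none, true) x := fun x hx => by
      obtain h1 | h1 : clo G (none, true) = clo G x ∨ clo G (none, false) = clo G x := by
        revert hx
        rcases clo G x with (_ | _) | v <;> simp [clo]
      · exact .rel _ _ (Or.inl h1)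
      · exact .trans _ (none, false) _ (.rel _ _ (Or.inr rfl)) (.rel _ _ (Or.inl h1))
    have key := fun x => permA_eqv (s := fun a b => clo G a = clo G b ∨ b = flp (Option E) a)
      (fun o : Option (E × Bool) => o.elim ((none, true) : Option E × Bool)
        fun d => (some d.1, d.2)) (fun a b hab => by
        have e : ∀ a : Option (E × Bool), stem (contract G) a = (clo G (a.elim (none, true)
            fun d => (some d.1, d.2))).elim (fun _ => none) some := by rintro (_ | e) <;> rfl
        rcases hab with hab | rfl
        · rw [e, e] at hab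
          by_cases h0 : (clo G (b.elim (none, true) fun d => (some d.1, d.2))).elim
              (fun _ => none) some = none
          · exact .trans _ _ _ (.symm _ _ (r0 _ (hab.trans h0))) (r0 _ h0)
          · refine .rel _ _ (Or.inl ?_)
            revert hab h0
            rcases clo G (a.elim (none, true) fun d => (some d.1, d.2)) with c | v <;>
              rcases clo G (b.elim (none, true) fun d => (some d.1, d.2)) with c' | v' <;> simp
        · rcases a with _ | ⟨e, b⟩
          · exact .refl _
          · exact .rel _ _ (Or.inr rfl)) (h none x)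
    have key2 : ∀ x, Relation.EqvGen (fun a b => clo G a = clo G b ∨ b = flp (Option E) a)
        (none, true) x := by
      rintro ⟨_ | e, b⟩
      · exact r0 _ rfl
      · exact key (some (e, b))
    exact fun x y => .trans _ _ _ (.symm _ _ (key2 x)) (key2 y)

theorem rootC_deg {D W : Type} [Fintype D] [DecidableEq W] (ν : D → W) (v : W) :
    deg ν v = #(univ.filter fun x => ν x = v) := by
  rw [deg, Nat.card_eq_fintype_card, Fintype.card_subtype]

theorem rootC_period {R : E × Bool → Option V} {τ : Perm (Option (E × Bool))}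
    (h : IsRot (stem R) τ) :
    (∀ j k, (τ ^ j) none = (τ ^ k) none ↔ j ≡ k [MOD (deg R none + 1)]) ∧
      ∀ x, stem R x = none → ∃ i < deg R none + 1, (τ ^ i) none = x := by
  have hc : τ.IsCycleOn (univ.filter fun x => stem R x = none : Finset _) := by
    refine ⟨τ.bijOn fun x => ?_, fun x hx y hy => (h x y).mpr ?_⟩
    · simp only [coe_filter, mem_univ, true_and, Set.mem_ofPred_eq]
      rw [← (h x (τ x)).mp (Perm.SameCycle.refl _ _).apply_right]
    · simp only [coe_filter, mem_univ, true_and, Set.mem_ofPred_eq] at hx hy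
      rw [hx, hy]
  have hcard : #(univ.filter fun x => stem R x = none) = deg R none + 1 := by
    rw [rootC_deg, card_filter, card_filter, Fintype.sum_option, add_comm]
    rfl
  have h0 : none ∈ univ.filter fun x => stem R x = none := mem_filter.mpr ⟨mem_univ _, rfl⟩
  rw [← hcard]
  exact ⟨fun j k => hc.pow_apply_eq_pow_apply h0, fun x hx =>
    hc.exists_pow_eq h0 (mem_filter.mpr ⟨mem_univ _, hx⟩)⟩

/-- the rotation system after inserting a second stem and splitting the root -/
def rootC_sig (τ : Perm (Option (E × Bool))) (i : ℕ) : Perm (Option (Option (E × Bool))) :=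
  τ.optionCongr * swap none (some ((τ ^ i) none)) * swap none (some none)

/-- the graph after splitting the root -/
noncomputable def rootC_G (R : E × Bool → Option V) (σ : Perm (Option (Option (E × Bool)))) :
    E × Bool → Bool ⊕ V :=
  fun d => rootC_split (fun o => o.elim none (stem R)) σ none (some (some d))

theorem rootC_contract (R : E × Bool → Option V) (σ : Perm (Option (Option (E × Bool)))) :
    contract (rootC_G R σ) = R := by
  funext d
  show (rootC_split _ σ none (some (some d))).elim _ _ = R d
  unfold rootC_split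
  show Sum.elim _ _ ((R d).elim _ _) = R d
  rcases R d with _ | v
  · simp only [Option.elim_none]
    split_ifs <;> rfl
  · rfl

theorem rootC_fwd {R : E × Bool → Option V} {τ : Perm (Option (E × Bool))}
    (h : IsRot (stem R) τ) {i : ℕ} (hi : i < deg R none + 1) :
    IsRot (rootC_nu (rootC_G R (rootC_sig τ i))) (rootC_sig τ i) ∧
      deg (rootC_G R (rootC_sig τ i)) (Sum.inl true) = i := by
  have hx : ∀ j, stem R ((τ ^ j) none) = none := fun j =>
    ((h none _).mp (Perm.sameCycle_pow_right.mpr Perm.SameCycle.rfl)).symm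
  have h1 := (rootC_stem (stem R) τ ((τ ^ i) none)).mpr h
  rw [hx] at h1
  have h2 := rootC_split_rot h1 (a := none) (b := some none) (by simp) rfl rfl
  have h3 := rootC_cycle τ hi (rootC_period h).1
  have inj : ∀ j k, j ≤ i → k ≤ i → (τ ^ j) none = (τ ^ k) none → j = k := fun j k hj hk h' =>
    (((rootC_period h).1 j k).mp h').eq_of_lt_of_lt (by omega) (by omega)
  constructor
  · have e : rootC_nu (rootC_G R (rootC_sig τ i)) =
        rootC_split (fun o => o.elim none (stem R)) (rootC_sig τ i) none := by
      funext o
      rcases o with _ | _ | d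
      · exact (if_pos Perm.SameCycle.rfl).symm
      · refine (if_neg fun h' => ?_).symm
        obtain ⟨j, j1, j2, j3⟩ := (h3 none).mp h'
        have := inj j 0 j2 (by omega) j3
        omega
      · rfl
    rw [e]
    exact h2
  · rw [rootC_deg, ← card_image_of_injective _ (Option.some_injective _)]
    have e : (univ.filter fun d => rootC_G R (rootC_sig τ i) d = Sum.inl true).image some =
        (Icc 1 i).image fun j => (τ ^ j) none := by
      ext z
      simp only [mem_image, mem_filter, mem_univ, true_and, mem_Icc, and_assoc]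
      rw [← h3]
      constructor
      · rintro ⟨d, hd, rfl⟩
        by_contra hc
        have hd' : (R d).elim (if (rootC_sig τ i).SameCycle none (some (some d)) then
          Sum.inl true else Sum.inl false) Sum.inr = (Sum.inl true : Bool ⊕ V) := by
          convert hd using 1
          unfold rootC_G rootC_split
          congr
        rw [if_neg (show ¬(rootC_sig τ i).SameCycle none (some (some d)) from hc)] at hd'
        revert hd'
        rcases R d with _ | v <;> simp
      · intro hz
        obtain ⟨j, j1, j2, j3⟩ := (h3 z).mp hz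
        rcases z with _ | d
        · have := inj j 0 j2 (by omega) j3
          omega
        · refine ⟨d, ?_, rfl⟩
          have h4 := hx j
          rw [j3] at h4
          unfold rootC_G rootC_split
          show (stem R (some d)).elim _ _ = _
          rw [h4]
          exact if_pos hz
    rw [e, card_image_of_injOn fun j hj k hk h' =>
      inj j k (mem_Icc.mp hj).2 (mem_Icc.mp hk).2 h']
    simp

theorem rootC_bwd {G : E × Bool → Bool ⊕ V} {σ : Perm (Option (Option (E × Bool)))}
    (h : IsRot (rootC_nu G) σ) : ∃ τ, IsRot (stem (contract G)) τ ∧ ∃ i < deg (contract G) none + 1,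
      rootC_sig τ i = σ ∧ rootC_G (contract G) σ = G := by
  have e : (fun x => (rootC_nu G x).elim (fun _ => none) some) =
      fun o => o.elim none (stem (contract G)) := by
    funext o
    rcases o with _ | _ | d <;> rfl
  have h1 := rootC_merge h (a := none) (b := some none) rfl rfl
  rw [e] at h1
  obtain ⟨τ, x, h2⟩ := rootC_exists _ ((h1 none (some none)).mpr rfl)
  have hx : stem (contract G) x = none := by
    refine ((h1 none (some x)).mp ?_).symm
    rw [h2, sameCycle_mul_swap_of_not _ (rootC_none τ x)]
    exact Or.inr (Or.inl ⟨Perm.SameCycle.rfl, Perm.SameCycle.rfl⟩)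
  rw [h2, ← hx, rootC_stem] at h1
  obtain ⟨i, hi, rfl⟩ := (rootC_period h1).2 x hx
  refine ⟨τ, h1, i, hi, ?_, funext fun d => ?_⟩
  · rw [rootC_sig, ← h2, mul_assoc, swap_mul_self, mul_one]
  · have := rootC_unique h (a := none) rfl (some (some d))
    rwa [e] at this

open Classical in
theorem rootC_ind {D W : Type} [Fintype D] [DecidableEq D] (p : Prop) (ν : D → W) (α : Perm D)
    (c : ℝ≥0∞) : ind p * emb ν α * c =
      ∑ _σ ∈ univ.filter fun σ => p ∧ IsRot ν σ ∧ Gen0 σ α, c := by
  by_cases hp : p
  · simp only [ind, hp, if_true, one_mul, true_and, sum_const, nsmul_eq_mul, emb,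
      Nat.card_eq_fintype_card, Fintype.card_subtype]
  · simp [ind, hp]

theorem rootC_fin (ψ : ℕ → (E × Bool → Option V) → ℝ≥0∞) :
    ∑ G : E × Bool → Bool ⊕ V, ind (SConn (clo G)) * emb (clo G) (flp _) *
        ψ (deg G (Sum.inl true)) (contract G) =
      ∑ R : E × Bool → Option V, ind (RConn R) * embS R *
        ∑ i ∈ range (deg R none + 1), ψ i R := by
  classical
  simp only [rootC_emb, embS, rootC_ind, ← sum_product', sum_sigma']
  symm
  refine sum_nbij (fun q => ⟨rootC_G q.1 (rootC_sig q.2.1 q.2.2), rootC_sig q.2.1 q.2.2⟩)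
    ?_ ?_ ?_ ?_
  · rintro ⟨R, τ, i⟩ hq
    simp only [mem_sigma, mem_univ, true_and, mem_product, mem_filter, mem_range] at hq ⊢
    obtain ⟨⟨h1, h2, h3⟩, h4⟩ := hq
    refine ⟨by rwa [rootC_conn, rootC_contract], (rootC_fwd h2 h4).1, ?_⟩
    exact (rootC_gen0 _ _ (Perm.sameCycle_pow_right.mpr Perm.SameCycle.rfl)).mpr h3
  · rintro ⟨R, τ, i⟩ hq ⟨R', τ', i'⟩ hq' he
    simp only [coe_sigma, Set.mem_sigma_iff, coe_univ, Set.mem_univ, true_and, mem_coe,
      mem_product, mem_filter, mem_univ, mem_range] at hq hq'
    obtain ⟨e1, e2⟩ := Sigma.mk.inj he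
    have e3 := congrArg contract e1
    rw [rootC_contract, rootC_contract] at e3
    have e4 := (rootC_fwd hq.1.2.1 hq.2).2
    rw [e1, (rootC_fwd hq'.1.2.1 hq'.2).2] at e4
    have e5 : τ = τ' := rootC_inj (mul_right_cancel (eq_of_heq e2))
    subst e3 e4 e5
    rfl
  · rintro ⟨G, σ⟩ hp
    simp only [coe_sigma, Set.mem_sigma_iff, coe_univ, Set.mem_univ, true_and, mem_coe,
      mem_filter, mem_univ] at hp
    obtain ⟨τ, h1, i, hi, rfl, h2⟩ := rootC_bwd hp.2.1
    refine ⟨⟨contract G, τ, i⟩, ?_, by simp only [h2]⟩
    simp only [coe_sigma, Set.mem_sigma_iff, coe_univ, Set.mem_univ, true_and, mem_coe,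
      mem_product, mem_filter, mem_univ, mem_range]
    exact ⟨⟨(rootC_conn G).mp hp.1, h1,
      (rootC_gen0 _ _ (Perm.sameCycle_pow_right.mpr Perm.SameCycle.rfl)).mp hp.2.2⟩, hi⟩
  · rintro ⟨R, τ, i⟩ hq
    simp only [mem_sigma, mem_univ, true_and, mem_product, mem_filter, mem_range] at hq
    simp only [rootC_contract, (rootC_fwd hq.1.2.1 hq.2).2]

end

open scoped Classical

theorem contract_sum (Ψ : ℕ → RFun) (hΨ : ∀ i, RInv (Ψ i)) :
    ∑' G : NG, wt G.1 G.2.1 * ind (SConn (clo G.2.2)) * emb (clo G.2.2) (flp _) *
        Ψ (deg G.2.2 (Sum.inl true)) _ _ (contract G.2.2) =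
      ∑' R : RG, w0 R * ∑ i ∈ Finset.range (deg R.2.2 none + 1), Ψ i _ _ R.2.2 := by
  have _ := hΨ
  rw [ENNReal.tsum_sigma', ENNReal.tsum_sigma']
  refine tsum_congr fun m => ?_
  rw [ENNReal.tsum_sigma', ENNReal.tsum_sigma']
  refine tsum_congr fun n => ?_
  rw [tsum_fintype, tsum_fintype]
  simp only [w0, mul_assoc, ← Finset.mul_sum]
  congr 1
  simpa only [mul_assoc] using rootC_fin (E := Fin m) (V := Fin n) fun i R => Ψ i _ _ R

end Pool.Agent.Lib.MP_77dff5_pr
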