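import Pool.Agent.Lib.MP_77dff5_pr.RootB
import Pool.Agent.Lib.MP_77dff5_pr.RootC

/-! Rooted maps: stems, root loops, contraction of the root edge, Tutte's recursion. -/

set_option autoImplicit false

namespace Pool.Agent.Lib.MP_77dff5_pr

open scoped ENNReal Classical

section
variable {E V : Type} [Finite E] [Finite V]

end

/-- indicator of a proposition -/
noncomputable def rootD_i (p : Prop) : ℕ := if p then 1 else 0

theorem rootD_i_true : rootD_i True = 1 := if_pos trivial

theorem rootD_i_false : rootD_i False = 0 := if_neg id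

theorem rootD_deg_eq {D V : Type} [Fintype D] (ν : D → V) (v : V) :
    deg ν v = ∑ x, rootD_i (ν x = v) := by
  rw [deg, Nat.card_eq_fintype_card, Fintype.card_subtype, Finset.card_filter]
  rfl

theorem rootD_sum_deg {D V : Type} [Fintype D] [Fintype V] (ν : D → V) (g : V → ℝ≥0∞) :
    ∑ v, (deg ν v : ℝ≥0∞) * g v = ∑ x, g (ν x) := by
  simp only [rootD_deg_eq, Nat.cast_sum, Finset.sum_mul]
  rw [Finset.sum_comm]
  refine Finset.sum_congr rfl fun x _ => ?_
  simp [rootD_i]

theorem rootD_card {E E' : Type} (u : DIso E E') : Nat.card E' = Nat.card E := by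
  have h := Nat.card_congr u.1
  simp only [Nat.card_prod, Nat.card_eq_fintype_card, Fintype.card_bool] at h
  omega

theorem rootD_deg_triv : deg triv.2.2 none = 0 := by
  rw [rootD_deg_eq]
  exact Finset.sum_eq_zero fun x _ => x.1.elim0

theorem rootD_w0_triv : w0 triv = 1 := by
  rw [w0, rconn_triv.2.1, ind, if_pos rconn_triv.1]
  simp [wt, triv]

/-- degree counts of the vertices other than `v` -/
noncomputable def rootD_zv {E V : Type} [Fintype V] (ν : E × Bool → V) (v : V) : ℕ →₀ ℕ :=
  ∑ u, if u = v then 0 else Finsupp.single (deg ν u) 1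

theorem rootD_zv_none {E V : Type} [Fintype V] (R : E × Bool → Option V) :
    rootD_zv R none = zeta R := by
  simp [rootD_zv, zeta, Fintype.sum_option]

theorem rootD_zv_congr {E V E' V' : Type} [Finite E] [Fintype V] [Fintype V'] (u : DIso E E')
    (e : V ≃ V') {ν : E × Bool → V} {ν' : E' × Bool → V'} (h : ∀ x, ν' (u.1 x) = e (ν x))
    (v : V) : rootD_zv ν' (e v) = rootD_zv ν v := by
  rw [rootD_zv, rootD_zv, ← e.sum_comp]
  refine Finset.sum_congr rfl fun w _ => ?_
  rw [deg_congr u e h]
  simp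

theorem rootD_rinv {E V E' V' : Type} [Finite E] [Fintype V] [Fintype V'] (u : DIso E E')
    (e : V ≃ V') {N : E × Bool → Option V} {N' : E' × Bool → Option V'}
    (h : ∀ x, N' (u.1 x) = (N x).map e) : deg N' none = deg N none ∧ zeta N' = zeta N := by
  have h' : ∀ x, N' (u.1 x) = e.optionCongr (N x) := fun x => by rw [h]; rfl
  refine ⟨deg_congr u e.optionCongr h' none, ?_⟩
  rw [← rootD_zv_none, ← rootD_zv_none]
  exact rootD_zv_congr u e.optionCongr h' none

section degs
variable {E V : Type} [Fintype E]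

theorem rootD_deg_cloL_none (R : E × Bool → Option V) : deg (cloL R) none = deg R none + 2 := by
  simp [rootD_deg_eq, Fintype.sum_prod_type, Fintype.sum_option, cloL, rootD_i_true, add_comm]

theorem rootD_deg_cloL_some (R : E × Bool → Option V) (v : V) :
    deg (cloL R) (some v) = deg R (some v) := by
  simp [rootD_deg_eq, Fintype.sum_prod_type, Fintype.sum_option, cloL, rootD_i_false]

theorem rootD_deg_clo_inl (N : E × Bool → Bool ⊕ V) (b : Bool) :
    deg (clo N) (Sum.inl b) = deg N (Sum.inl b) + 1 := by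
  cases b <;> simp [rootD_deg_eq, Fintype.sum_prod_type, Fintype.sum_option, clo, rootD_i_true,
    rootD_i_false, add_comm]

theorem rootD_deg_clo_inr (N : E × Bool → Bool ⊕ V) (v : V) :
    deg (clo N) (Sum.inr v) = deg N (Sum.inr v) := by
  simp [rootD_deg_eq, Fintype.sum_prod_type, Fintype.sum_option, clo, rootD_i_false]

theorem rootD_deg_contract_none (N : E × Bool → Bool ⊕ V) :
    deg (contract N) none = deg N (Sum.inl true) + deg N (Sum.inl false) := by
  simp only [rootD_deg_eq, ← Finset.sum_add_distrib, contract]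
  refine Finset.sum_congr rfl fun x _ => ?_
  rcases N x with b | v
  · cases b <;> simp [rootD_i_true, rootD_i_false]
  · simp [rootD_i_false]

theorem rootD_deg_contract_some (N : E × Bool → Bool ⊕ V) (v : V) :
    deg (contract N) (some v) = deg N (Sum.inr v) := by
  simp only [rootD_deg_eq, contract]
  refine Finset.sum_congr rfl fun x _ => ?_
  rcases N x with b | w <;> simp [rootD_i_false]

variable {E₂ V₂ : Type} [Fintype E₂]

theorem rootD_deg_merge_none (R₁ : E × Bool → Option V) (R₂ : E₂ × Bool → Option V₂) :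
    deg (merge R₁ R₂) none = deg R₁ none + deg R₂ none := by
  simp [rootD_deg_eq, Fintype.sum_prod_type, Fintype.sum_sum_type, merge]

theorem rootD_deg_merge_inl (R₁ : E × Bool → Option V) (R₂ : E₂ × Bool → Option V₂) (v : V) :
    deg (merge R₁ R₂) (some (Sum.inl v)) = deg R₁ (some v) := by
  simp [rootD_deg_eq, Fintype.sum_prod_type, Fintype.sum_sum_type, merge, rootD_i_false]

theorem rootD_deg_merge_inr (R₁ : E × Bool → Option V) (R₂ : E₂ × Bool → Option V₂) (v : V₂) :
    deg (merge R₁ R₂) (some (Sum.inr v)) = deg R₂ (some v) := by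
  simp [rootD_deg_eq, Fintype.sum_prod_type, Fintype.sum_sum_type, merge, rootD_i_false]

variable [Fintype V] [Fintype V₂]

theorem rootD_zeta_merge (R₁ : E × Bool → Option V) (R₂ : E₂ × Bool → Option V₂) :
    zeta (merge R₁ R₂) = zeta R₁ + zeta R₂ := by
  simp only [zeta, Fintype.sum_sum_type, rootD_deg_merge_inl, rootD_deg_merge_inr]

theorem rootD_zeta_cloL (R : E × Bool → Option V) : zeta (cloL R) = zeta R := by
  simp only [zeta, rootD_deg_cloL_some]

theorem rootD_zv_clo (N : E × Bool → Bool ⊕ V) :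
    rootD_zv (clo N) (Sum.inl true) = zeta (contract N) +
      Finsupp.single (deg (contract N) none - deg N (Sum.inl true) + 1) 1 := by
  rw [rootD_deg_contract_none, Nat.add_sub_cancel_left]
  simp [rootD_zv, zeta, Fintype.sum_sum_type, rootD_deg_clo_inl, rootD_deg_clo_inr,
    rootD_deg_contract_some, add_comm]

end degs

/-- a rooted map is trivial, or a map with a marked dart at the root -/
theorem root_sum (Θ : VFun) (hΘ : VInv Θ) :
    ∑' R : RG, w0 R * Θ _ _ R.2.2 none =
      Θ _ _ triv.2.2 none + ∑' ν : UG, wt ν.1 ν.2.1 * ind (SConn ν.2.2) * emb ν.2.2 (flp _) *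
        ∑ x, Θ _ _ ν.2.2 (ν.2.2 x) := by
  have hinv : VInv (fun E V _ _ ν v =>
      ind (SConn ν) * emb ν (flp E) * ((deg ν v : ℝ≥0∞) * Θ E V ν v)) := by
    intro E V E' V' _ _ _ _ u e N N' v h
    simp only [sconn_congr u e h, emb_flp_congr u e h, deg_congr u e h,
      hΘ E V E' V' u e N N' v h]
  have hm := mark_vertex _ hinv
  simp only [← Finset.mul_sum, rootD_sum_deg] at hm
  simp only [← mul_assoc] at hm
  rw [hm]
  have h0 : Θ _ _ triv.2.2 none =
      ∑' R : RG, if R = triv then Θ _ _ triv.2.2 none else 0 := by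
    rw [tsum_ite_eq]
  rw [h0, ← ENNReal.tsum_add]
  refine tsum_congr fun R => ?_
  rcases Nat.eq_zero_or_pos (deg R.2.2 none) with hd | hd
  · rw [hd, Nat.cast_zero, mul_zero, zero_mul, add_zero]
    by_cases hc : RConn R.2.2
    · obtain rfl := eq_triv hc hd
      rw [rootD_w0_triv, one_mul, if_pos rfl]
    · have hne : R ≠ triv := by
        rintro rfl
        exact hc rconn_triv.1
      rw [if_neg hne, w0, ind, if_neg hc, mul_zero, zero_mul, zero_mul]
  · have hne : R ≠ triv := by
      rintro rfl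
      rw [rootD_deg_triv] at hd
      exact lt_irrefl _ hd
    rw [if_neg hne, zero_add, w0, rconn_iff hd, embS_eq hd]
    push_cast
    ring

/-- Tutte's recursion for (edges, root degree, degree counts). -/
theorem tutte (ψ : ℕ × ℕ × (ℕ →₀ ℕ) → ℝ≥0∞) :
    ∑' R : RG, w0 R * ψ (R.1, deg R.2.2 none, zeta R.2.2) =
      ψ (0, 0, 0) +
        ∑' R₁ : RG, ∑' R₂ : RG, w0 R₁ * w0 R₂ * ψ (R₁.1 + R₂.1 + 1,
          deg R₁.2.2 none + deg R₂.2.2 none + 2, zeta R₁.2.2 + zeta R₂.2.2) +
        ∑' R : RG, w0 R * ∑ i ∈ Finset.range (deg R.2.2 none + 1),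
          ψ (R.1 + 1, i + 1, zeta R.2.2 + Finsupp.single (deg R.2.2 none - i + 1) 1) := by
  have h1 : VInv (fun E V _ _ ν v => ψ (Nat.card E, deg ν v, rootD_zv ν v)) := by
    intro E V E' V' _ _ _ _ u e N N' v h
    simp only [rootD_card u, deg_congr u e h, rootD_zv_congr u e h]
  have h2 : DInv (fun E V _ _ ν x =>
      ind (SConn ν) * emb ν (flp E) * ψ (Nat.card E, deg ν (ν x), rootD_zv ν (ν x))) := by
    intro E V E' V' _ _ _ _ u e N N' y h
    simp only [sconn_congr u e h, emb_flp_congr u e h, h y, rootD_card u, deg_congr u e h,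
      rootD_zv_congr u e h]
  have h3 : RInv (fun E V _ _ R => ψ (Nat.card E + 1, deg R none + 2, zeta R)) := by
    intro E V E' V' _ _ _ _ u e N N' h
    simp only [rootD_card u, (rootD_rinv u e h).1, (rootD_rinv u e h).2]
  have h4 : ∀ i : ℕ, RInv (fun E V _ _ R => ψ (Nat.card E + 1, i + 1,
      zeta R + Finsupp.single (deg R none - i + 1) 1)) := by
    intro i E V E' V' _ _ _ _ u e N N' h
    simp only [rootD_card u, (rootD_rinv u e h).1, (rootD_rinv u e h).2]
  have k1 := root_sum _ h1
  have k2 := mark_dart _ h2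
  have k3 := loop_split _ h3
  have k4 := contract_sum _ h4
  have e1 : ∀ {E V : Type} (N : E × Bool → Bool ⊕ V), clo N (none, true) = Sum.inl true :=
    fun _ => rfl
  have e2 : ∀ {E V : Type} (R : E × Bool → Option V), cloL R (none, true) = none := fun _ => rfl
  have e3 : zeta triv.2.2 = 0 := Finset.sum_eq_zero fun v _ => v.elim0
  have e4 : triv.1 = 0 := rfl
  simp only [← Finset.mul_sum, ← mul_assoc, e1, e2, rootD_zv_none, rootD_zv_clo, rootD_zeta_cloL,
    rootD_deg_cloL_none, rootD_deg_clo_inl, rootD_deg_merge_none, rootD_zeta_merge,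
    rootD_deg_triv, e3, Nat.card_eq_fintype_card, Fintype.card_option, Fintype.card_fin,
    Fintype.card_sum] at k1 k2 k3 k4
  rw [k1, k2, k3, k4, e4, add_assoc, add_comm (∑' R : RG, w0 R * _)]

end Pool.Agent.Lib.MP_77dff5_pr
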