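import Mathlib

/-! Abstract probabilistic framework: cores with independent slots, families of cores. -/

set_option autoImplicit false

namespace Pool.Agent.Lib.MP_77dff5_pr

open MeasureTheory ProbabilityTheory Filter Topology
open scoped ENNReal NNReal

/-- A core: finitely many slots `I` with classes in `J`, a deterministic size `s0` and value `z0`,
and local terms `g v` depending only on the slots in `dep v`. -/
structure Core (Ω J : Type) where
  I : Type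
  [fI : Fintype I]
  [dI : DecidableEq I]
  cls : I → J
  s0 : ℕ
  z0 : ℝ
  W : Type
  [fW : Fintype W]
  g : W → (I → Ω) → ℝ
  dep : W → Finset I
  g_dep : ∀ v ω ω', (∀ i ∈ dep v, ω i = ω' i) → g v ω = g v ω'

attribute [instance] Core.fI Core.dI Core.fW

/-- `psi K u = (|u| - K)₊ ^ 2`. -/
noncomputable def psi (K u : ℝ) : ℝ := (max (|u| - K) 0) ^ 2

namespace Core

variable {Ω J : Type} (c : Core Ω J)

/-- number of slots -/
def k : ℕ := Fintype.card c.I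

/-- number of slots of class `j` -/
noncomputable def cnt (j : J) : ℕ := Nat.card {i // c.cls i = j}

structure Good (Δ : ℕ) (B : ℝ) : Prop where
  bd : ∀ v ω, |c.g v ω| ≤ B
  dep_card : ∀ v, (c.dep v).card ≤ Δ
  dep_mult : ∀ i, Nat.card {v // i ∈ c.dep v} ≤ Δ
  W_card : Fintype.card c.W ≤ Δ * (c.k + 1)
  s0_le : c.s0 ≤ Δ * (c.k + 1)
  z0_le : |c.z0| ≤ B * (c.k + 1)

/-- total size -/
def S (s : Ω → ℕ) (ω : c.I → Ω) : ℕ := c.s0 + ∑ i, s (ω i)

/-- total size without slot `i` -/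
def Sx (s : Ω → ℕ) (i : c.I) (ω : c.I → Ω) : ℕ := c.s0 + ∑ i' ∈ Finset.univ.erase i, s (ω i')

/-- total value -/
def Z (z : Ω → ℝ) (ω : c.I → Ω) : ℝ := c.z0 + ∑ i, z (ω i) + ∑ v, c.g v ω

/-- unnormalised law, as a sum over all fillings of the slots -/
noncomputable def tlaw (wg : J → Ω → ℝ≥0∞) (s : Ω → ℕ) (z : Ω → ℝ) (ψ : ℕ × ℝ → ℝ≥0∞) : ℝ≥0∞ :=
  ∑' ω : c.I → Ω, (∏ i, wg (c.cls i) (ω i)) * ψ (c.S s ω, c.Z z ω)

variable [MeasurableSpace Ω]

/-- independent slots -/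
noncomputable def P (ν : J → Measure Ω) : Measure (c.I → Ω) := Measure.pi fun i => ν (c.cls i)

/-- mean size -/
noncomputable def mean (ν : J → Measure Ω) (s : Ω → ℕ) : ℝ :=
  c.s0 + ∑ i, ∫ ω, (s ω : ℝ) ∂ν (c.cls i)

/-- mean value -/
noncomputable def L (ν : J → Measure Ω) (z : Ω → ℝ) : ℝ := ∫ ω, c.Z z ω ∂c.P ν

/-- variance of the value -/
noncomputable def Q (ν : J → Measure Ω) (z : Ω → ℝ) : ℝ := Var[c.Z z; c.P ν]

/-- local kernel -/
noncomputable def kap (ν : J → Measure Ω) (s : Ω → ℕ) (n : ℤ) : ℝ :=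
  (c.P ν).real {ω | (c.S s ω : ℤ) = n}

/-- joint law of size and value -/
noncomputable def law (ν : J → Measure Ω) (s : Ω → ℕ) (z : Ω → ℝ) : Measure (ℕ × ℝ) :=
  (c.P ν).map fun ω => (c.S s ω, c.Z z ω)

end Core

/-- A core with `r` slots and one local term depending on all of them. -/
def Core.small {Ω J : Type} (r : ℕ) (cls : Fin r → J) (s0 : ℕ) (z0 : ℝ)
    (g : (Fin r → Ω) → ℝ) : Core Ω J where
  I := Fin r
  cls := cls
  s0 := s0
  z0 := z0
  W := Unit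
  g := fun _ => g
  dep := fun _ => Finset.univ
  g_dep := fun _ ω ω' h => by rw [show ω = ω' from funext fun i => h i (Finset.mem_univ i)]

/-- A core without local terms. -/
def Core.free {Ω J : Type} (I : Type) [Fintype I] [DecidableEq I] (cls : I → J) (s0 : ℕ)
    (z0 : ℝ) : Core Ω J where
  I := I
  cls := cls
  s0 := s0
  z0 := z0
  W := Empty
  g := fun v => v.elim
  dep := fun v => v.elim
  g_dep := fun v => v.elim

/-- A countable weighted family of cores. -/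
structure Fam (Ω J : Type) where
  T : Type
  [cT : Countable T]
  core : T → Core Ω J
  w : T → ℝ≥0

attribute [instance] Fam.cT

namespace Fam

variable {Ω J : Type} (F : Fam Ω J)

/-- all cores are good and the mean number of slots is finite -/
structure Good (Δ : ℕ) (B : ℝ) : Prop where
  good : ∀ t, (F.core t).Good Δ B
  sum1 : Summable fun t => (F.w t : ℝ) * ((F.core t).k + 1)

/-- mean number of slots of class `j` -/
noncomputable def acoef (j : J) : ℝ := ∑' t, (F.w t : ℝ) * (F.core t).cnt j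

variable [MeasurableSpace Ω]

/-- the law of (size, value), summed over the cores in `A` -/
noncomputable def lawOn (A : Set F.T) (ν : J → Measure Ω) (s : Ω → ℕ) (z : Ω → ℝ) :
    Measure (ℕ × ℝ) :=
  Measure.sum fun t : A => (F.w t : ℝ≥0∞) • (F.core t).law ν s z

/-- the law of (size, value) -/
noncomputable def law (ν : J → Measure Ω) (s : Ω → ℕ) (z : Ω → ℝ) : Measure (ℕ × ℝ) :=
  Measure.sum fun t => (F.w t : ℝ≥0∞) • (F.core t).law ν s z

/-- cores with at most `n ^ (9/10)` slots -/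
def small (n : ℕ) : Set F.T := {t | (F.core t).k ^ 10 ≤ n ^ 9}

open Classical in
/-- weight of: a slot of class `j` is removed and the remaining size is `l` -/
noncomputable def aa (ν : J → Measure Ω) (s : Ω → ℕ) (j : J) (l : ℕ) : ℝ :=
  ∑' t, (F.w t : ℝ) * ∑ i : (F.core t).I,
    if (F.core t).cls i = j then ((F.core t).P ν).real {ω | (F.core t).Sx s i ω = l} else 0

end Fam

/-- mass at size `n` -/
noncomputable def pm (μ : Measure (ℕ × ℝ)) (n : ℕ) : ℝ := μ.real {p | p.1 = n}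

/-- characteristic function at size `n` -/
noncomputable def ch (μ : Measure (ℕ × ℝ)) (n : ℕ) (θ : ℝ) : ℂ :=
  ∫ p in {p | p.1 = n}, Complex.exp (Complex.I * ((θ * p.2 : ℝ) : ℂ)) ∂μ

/-- truncated normalised second moment at size `n` -/
noncomputable def m2 (μ : Measure (ℕ × ℝ)) (n : ℕ) (K : ℝ) : ℝ≥0∞ :=
  ∫⁻ p in {p | p.1 = n}, ENNReal.ofReal (psi K (p.2 / √n)) ∂μ

/-- singular part of the characteristic function of the size -/
noncomputable def RF (μ : Measure (ℕ × ℝ)) (t : ℝ) : ℂ :=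
  ∫ p, (Complex.exp (Complex.I * ((t * p.1 : ℝ) : ℂ)) - 1 - Complex.I * ((t * p.1 : ℝ) : ℂ)) ∂μ

/-- singular part of the Laplace transform of the size -/
noncomputable def RL (μ : Measure (ℕ × ℝ)) (l : ℝ) : ℝ :=
  ∫ p, (Real.exp (-(l * p.1)) - 1 + l * p.1) ∂μ

/-- second moment against `1 - exp (-l s)` -/
noncomputable def R2 (μ : Measure (ℕ × ℝ)) (l : ℝ) : ℝ :=
  ∫ p, p.2 ^ 2 * (1 - Real.exp (-(l * p.1))) ∂μ

/-- The filter `n → ∞`, `θ' √n → θ`. -/
noncomputable def FF (θ : ℝ) : Filter (ℕ × ℝ) :=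
  Filter.comap (fun p : ℕ × ℝ => (p.1, p.2 * √p.1)) (atTop ×ˢ 𝓝 θ)

/-- the stable exponent -/
noncomputable def psiS (γ₁ γ₂ ξ : ℝ) : ℂ :=
  ((γ₁ * |ξ| ^ (3 / 2 : ℝ) : ℝ) : ℂ) + Complex.I * ((γ₂ * ξ * |ξ| ^ (1 / 2 : ℝ) : ℝ) : ℂ)

/-- the stable density -/
noncomputable def aS (γ₁ γ₂ u : ℝ) : ℂ :=
  (2 * Real.pi : ℂ)⁻¹ *
    ∫ ξ : ℝ, Complex.exp (-(Complex.I * ((u * ξ : ℝ) : ℂ))) * Complex.exp (-psiS γ₁ γ₂ ξ)

section slots

variable {Ω J : Type} [MeasurableSpace Ω]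

/-- law of (size, value) of one slot -/
noncomputable def slaw (μ : Measure Ω) (s : Ω → ℕ) (z : Ω → ℝ) : Measure (ℕ × ℝ) :=
  μ.map fun ω => (s ω, z ω)

/-- characteristic function of the size of one slot -/
noncomputable def phi (μ : Measure Ω) (s : Ω → ℕ) (t : ℝ) : ℂ :=
  ∫ ω, Complex.exp (Complex.I * ((t * s ω : ℝ) : ℂ)) ∂μ

/-- probability laws, integrable size and value -/
structure Slots1 (ν : J → Measure Ω) (s : Ω → ℕ) (z : Ω → ℝ) : Prop where
  prob : ∀ j, IsProbabilityMeasure (ν j)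
  int_s : ∀ j, Integrable (fun ω => (s ω : ℝ)) (ν j)
  int_z : ∀ j, Integrable z (ν j)

/-- probability laws, integrable size, square integrable value -/
structure Slots (ν : J → Measure Ω) (s : Ω → ℕ) (z : Ω → ℝ) : Prop extends Slots1 ν s z where
  mem_z : ∀ j, MemLp z 2 (ν j)

/-- tails of the size -/
def T1 (ν : J → Measure Ω) (s : Ω → ℕ) (A : ℝ) : Prop :=
  ∀ j, ∀ x : ℝ, 1 ≤ x → ∫ ω, min ((s ω / x) ^ 2) (s ω / x) ∂ν j ≤ A * x ^ (-(3 / 2) : ℝ)

/-- tails of the second moment -/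
def T2 (ν : J → Measure Ω) (s : Ω → ℕ) (z : Ω → ℝ) (A : ℝ) : Prop :=
  ∀ j, ∀ x : ℝ, 1 ≤ x → ∫ ω, (1 + z ω ^ 2) * min 1 (s ω / x) ∂ν j ≤ A * x ^ (-(1 / 2) : ℝ)

/-- anticoncentration of the size -/
def T4 (μ : Measure Ω) (s : Ω → ℕ) (c : ℝ) : Prop :=
  ∀ t : ℝ, |t| ≤ Real.pi → ‖phi μ s t‖ ≤ 1 - c * |t| ^ (3 / 2 : ℝ)

/-- the measure with point masses `w` -/
noncomputable def meas (w : Ω → ℝ≥0∞) : Measure Ω := Measure.sum fun ω => w ω • Measure.dirac ω

/-- the normalised measure with point masses proportional to `w` -/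
noncomputable def nrm (w : Ω → ℝ≥0∞) : Measure Ω := (∑' ω, w ω)⁻¹ • meas w

end slots

/-- A countable family of cores with combinatorial weights. -/
structure UFam (Ω J : Type) where
  T : Type
  [cT : Countable T]
  core : T → Core Ω J
  w : T → ℝ≥0∞

attribute [instance] UFam.cT

/-- The class with weights `wX` is obtained by filling the slots of the cores of `U`. -/
def UFam.Eqn {Ω J : Type} (U : UFam Ω J) (wX : Ω → ℝ≥0∞) (wg : J → Ω → ℝ≥0∞) (s : Ω → ℕ)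
    (z : Ω → ℝ) : Prop :=
  ∀ ψ : ℕ × ℝ → ℝ≥0∞, ∑' ω, wX ω * ψ (s ω, z ω) = ∑' t, U.w t * (U.core t).tlaw wg s z ψ

/-- the family for normalised slot laws -/
noncomputable def UFam.toFam {Ω J : Type} (U : UFam Ω J) (wg : J → Ω → ℝ≥0∞) : Fam Ω J where
  T := U.T
  core := U.core
  w := fun t => (U.w t * ∏ i, ∑' ω, wg ((U.core t).cls i) ω).toNNReal

/-- the weighted points `(pos t, c t)` have mass at most `A y ^ e` in `[y, y + y ^ (2/3)]` -/
def WinB {T : Type} (pos : T → ℝ) (c : T → ℝ≥0∞) (e : ℝ) : Prop :=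
  ∃ A : ℝ, ∀ y : ℝ, 1 ≤ y →
    ∑' t : {t // y ≤ pos t ∧ pos t ≤ y + y ^ (2 / 3 : ℝ)}, c t ≤ ENNReal.ofReal (A * y ^ e)

/-- the weighted points `(pos t, c t)` have mass at most `A y ^ e` in `[y, 2 y]` -/
def DyB {T : Type} (pos : T → ℝ) (c : T → ℝ≥0∞) (e : ℝ) : Prop :=
  ∃ A : ℝ, ∀ y : ℝ, 1 ≤ y →
    ∑' t : {t // y ≤ pos t ∧ pos t ≤ 2 * y}, c t ≤ ENNReal.ofReal (A * y ^ e)

/-- law of large numbers `X t ≈ e * pos t` in windows -/
def WinLLN {T : Type} (pos : T → ℝ) (w : T → ℝ≥0∞) (X : T → ℝ) (e : ℝ) : Prop :=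
  ∀ ε δ : ℝ, 0 < ε → 0 < δ → ∀ᶠ y : ℝ in atTop,
    ∑' t : {t // y ≤ pos t ∧ pos t ≤ y + y ^ (2 / 3 : ℝ) ∧ ε * y < |X t - e * pos t|}, w t
      ≤ ENNReal.ofReal (δ * y ^ (-(11 / 6) : ℝ))

/-- central limit theorem for `X` averaged over windows -/
def WinCLT {T : Type} (pos : T → ℝ) (w : T → ℝ≥0) (X : T → ℝ) (c σ2 : ℝ) : Prop :=
  ∀ φ : ℝ → ℝ, Continuous φ → HasCompactSupport φ → ∀ θ : ℝ,
    Tendsto (fun p : ℝ × ℝ => ((p.1 ^ (11 / 6 : ℝ) : ℝ) : ℂ) *
        ∑' t, ((w t : ℝ) : ℂ) * Complex.exp (Complex.I * ((p.2 * X t / √p.1 : ℝ) : ℂ)) *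
          ((φ ((pos t - p.1) / p.1 ^ (2 / 3 : ℝ)) : ℝ) : ℂ))
      (atTop ×ˢ 𝓝 θ) (𝓝 ((c * Real.exp (-(σ2 * θ ^ 2 / 2)) * ∫ u, φ u : ℝ) : ℂ))

/-- `f` is constant beyond `k0` -/
def EvC (f : ℕ → ℝ) (k0 : ℕ) : Prop := ∀ d, k0 < d → f d = f (k0 + 1)

end Pool.Agent.Lib.MP_77dff5_pr
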