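import Pool.Agent.Lib.MP_77dff5_pr.GDefs
import Pool.Agent.Lib.MP_77dff5_pr.PDefs

/-! The two models: planar maps (A) and planar graphs (B), decorated networks, families. -/

set_option autoImplicit false

namespace Pool.Agent.Lib.MP_77dff5_pr

open scoped ENNReal NNReal

/-- decorated networks: a rooted graph at every dart and at every inner vertex -/
abbrev DG : Type := Σ N : NG, (Fin N.1 × Bool → RG) × (Fin N.2.1 → RG)

/-- the common space of slot fillings -/
abbrev Om : Type := RG ⊕ DG ⊕ UG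

instance : MeasurableSpace Om := ⊤

instance : DiscreteMeasurableSpace Om := ⟨fun _ => trivial⟩

/-- root degree -/
noncomputable def rc (R : RG) : ℕ := deg R.2.2 none

/-- degree statistic of the non-root vertices -/
noncomputable def rF (f : ℕ → ℝ) (R : RG) : ℝ := ∑ v, f (deg R.2.2 (some v))

/-- final degree of a vertex of a decorated network -/
noncomputable def dDeg (D : DG) (u : Bool ⊕ Fin D.1.2.1) : ℕ :=
  (∑ x, if D.1.2.2 x = u then 1 + rc (D.2.1 x) else 0) + u.elim (fun _ => 0) fun v => rc (D.2.2 v)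

/-- number of edges -/
def ne : Om → ℕ
  | .inl R => R.1
  | .inr (.inl D) => D.1.1 + ∑ x, (D.2.1 x).1 + ∑ v, (D.2.2 v).1
  | .inr (.inr ν) => ν.1

/-- number of vertices other than the root and the poles -/
def nv : Om → ℕ
  | .inl R => R.2.1
  | .inr (.inl D) => D.1.2.1 + ∑ x, (D.2.1 x).2.1 + ∑ v, (D.2.2 v).2.1
  | .inr (.inr ν) => ν.2.1

/-- root degree -/
noncomputable def cO : Om → ℕ
  | .inl R => rc R
  | .inr _ => 0

/-- degree of the first pole -/
noncomputable def aO : Om → ℕ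
  | .inr (.inl D) => dDeg D (.inl true)
  | _ => 0

/-- degree of the second pole -/
noncomputable def bO : Om → ℕ
  | .inr (.inl D) => dDeg D (.inl false)
  | _ => 0

/-- degree statistic of the vertices other than the root and the poles -/
noncomputable def FO (f : ℕ → ℝ) : Om → ℝ
  | .inl R => rF f R
  | .inr (.inl D) => ∑ v, f (dDeg D (.inr v)) + ∑ x, rF f (D.2.1 x) + ∑ v, rF f (D.2.2 v)
  | .inr (.inr ν) => ∑ v, f (deg ν.2.2 v)

/-- size in model A: number of inner faces -/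
def sA : Om → ℕ
  | .inl R => R.1 - R.2.1
  | ω => ne ω - nv ω - 1

/-- size in model B: number of vertices other than the poles -/
def sB : Om → ℕ
  | .inl R => R.2.1 + 1
  | ω => nv ω

/-- the centred statistic -/
noncomputable def zz (s : Om → ℕ) (f : ℕ → ℝ) (lam mu : ℝ) (ω : Om) : ℝ :=
  FO f ω + lam * ne ω - mu * s ω

/-- exchange of the poles -/
def swapO : Om → Om
  | .inr (.inl D) => .inr (.inl ⟨⟨D.1.1, D.1.2.1, swapP D.1.2.2⟩, D.2⟩)
  | ω => ω

def onR (w : RG → ℝ≥0∞) : Om → ℝ≥0∞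
  | .inl R => w R
  | _ => 0

def onD (w : DG → ℝ≥0∞) : Om → ℝ≥0∞
  | .inr (.inl D) => w D
  | _ => 0

def onU (w : UG → ℝ≥0∞) : Om → ℝ≥0∞
  | .inr (.inr ν) => w ν
  | _ => 0

/-- rooted planar maps, weight `x` per non-root vertex and `y` per edge -/
noncomputable def wM (x y : ℝ≥0∞) (R : RG) : ℝ≥0∞ := w0 R * x ^ R.2.1 * y ^ R.1

/-- rooted connected planar graphs, weight `x` per vertex -/
noncomputable def wC (x : ℝ≥0∞) (R : RG) : ℝ≥0∞ :=
  wt R.1 R.2.1 * ind (RConn R.2.2 ∧ Simple R.2.2 ∧ embS R.2.2 ≠ 0) * x ^ (R.2.1 + 1)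

/-- the trivial decoration -/
noncomputable def wTriv (c : ℝ≥0∞) (R : RG) : ℝ≥0∞ := ind (R = triv) * c

/-- weight of a decorated network -/
noncomputable def wDec (wN : NG → ℝ≥0∞) (wd wv : RG → ℝ≥0∞) (D : DG) : ℝ≥0∞ :=
  wN D.1 * (∏ x, wd (D.2.1 x)) * ∏ v, wv (D.2.2 v)

/-- embedded networks with property `P` -/
noncomputable def wNA (y : ℝ≥0∞) (P : NG → Prop) (N : NG) : ℝ≥0∞ :=
  wt N.1 N.2.1 * ind (IsNet N.2.2 ∧ P N) * emb (clo N.2.2) (flp _) * y ^ N.1

/-- simple planar networks with property `P` -/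
noncomputable def wNB (P : NG → Prop) (N : NG) : ℝ≥0∞ :=
  wt N.1 N.2.1 * ind (IsNet N.2.2 ∧ P N ∧ Simple N.2.2 ∧ emb (clo N.2.2) (flp _) ≠ 0)

/-- connected simple planar graphs with at least one edge -/
noncomputable def wU (x : ℝ≥0∞) (ν : UG) : ℝ≥0∞ :=
  wt ν.1 ν.2.1 * ind (SConn ν.2.2 ∧ Simple ν.2.2 ∧ emb ν.2.2 (flp _) ≠ 0) * x ^ ν.2.1

/-- simple planar graphs -/
noncomputable def wG (x : ℝ≥0∞) (ν : UG) : ℝ≥0∞ :=
  wt ν.1 ν.2.1 * ind (Simple ν.2.2 ∧ PlanarU ν.2.2) * x ^ ν.2.1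

/-- decorated networks of model A -/
noncomputable def clsA (x y : ℝ≥0∞) (P : NG → Prop) : Om → ℝ≥0∞ :=
  onD (wDec (wNA y P) (wM x y) (wTriv x))

/-- decorated networks of model B -/
noncomputable def clsB (wv : RG → ℝ≥0∞) (P : NG → Prop) : Om → ℝ≥0∞ :=
  onD (wDec (wNB P) (wTriv 1) wv)

/-- slot classes of model A -/
inductive JA | M | D | nS | nP | V
  deriving DecidableEq, Fintype

/-- slot classes of model B -/
inductive JB | C | D | nS | J | Dt | G
  deriving DecidableEq, Fintype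

noncomputable def wgA (x y : ℝ≥0∞) : JA → Om → ℝ≥0∞
  | .M => onR (wM x y)
  | .D => clsA x y fun _ => True
  | .nS => clsA x y fun N => ¬IsS N.2.2
  | .nP => clsA x y fun N => ¬IsP N.2.2
  | .V => onR (wTriv x)

noncomputable def wgB (wv : RG → ℝ≥0∞) (x : ℝ≥0∞) : JB → Om → ℝ≥0∞
  | .C => onR wv
  | .D => clsB wv fun _ => True
  | .nS => clsB wv fun N => ¬IsS N.2.2
  | .J => clsB wv fun N => ¬IsP N.2.2 ∧ ¬IsE N.2.2
  | .Dt => clsB wv fun N => NoDir N.2.2
  | .G => onU (wG x)

/-- sum of the pole degrees of the edge slots at the vertex `u` of `t` -/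
def poleSum {Ω : Type} (a b : Ω → ℕ) (t : NG) (ω : Fin t.1 ⊕ Fin t.2.1 → Ω)
    (u : Bool ⊕ Fin t.2.1) : ℕ :=
  ∑ x, if t.2.2 x = u then (if x.2 then a (ω (.inl x.1)) else b (ω (.inl x.1))) else 0

open Classical in
/-- The core of a graph `t`: one slot per edge and one slot per inner vertex. -/
noncomputable def Tcore {Ω J : Type} (a b c : Ω → ℕ) (jD jV : J) (f : ℕ → ℝ) (k0 : ℕ) (t : NG)
    (s0 : ℕ) (z0 : ℝ) : Core Ω J where
  I := Fin t.1 ⊕ Fin t.2.1
  dI := instDecidableEqSum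
  cls := Sum.elim (fun _ => jD) fun _ => jV
  s0 := s0
  z0 := z0
  W := Fin t.2.1
  g := fun v ω => if deg t.2.2 (.inr v) ≤ k0 then f (c (ω (.inr v)) + poleSum a b t ω (.inr v))
    else f (k0 + 1)
  dep := fun v => if deg t.2.2 (.inr v) ≤ k0 then
    Finset.univ.filter fun i => i.elim (fun e => ∃ d, t.2.2 (e, d) = .inr v) fun u => u = v
    else ∅
  g_dep := fun v ω ω' h => by
    split_ifs at h ⊢ with hv
    · rw [h (.inr v) (by simp)]
      congr 2
      refine Finset.sum_congr rfl fun x _ => ?_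
      split_ifs with h1 h2
      · rw [h (.inl x.1) (Finset.mem_filter.2 ⟨Finset.mem_univ _, x.2, h1⟩)]
      · rw [h (.inl x.1) (Finset.mem_filter.2 ⟨Finset.mem_univ _, x.2, h1⟩)]
      · rfl
    · rfl

/-- 3-connected planar cores -/
abbrev TT : Type := {t : NG // Core3 t.2.2 ∧ emb (clo t.2.2) (flp _) ≠ 0}

/-- weight of a core, `x` per inner vertex and `τ` per non-root edge -/
noncomputable def wT (x τ : ℝ≥0) (t : TT) : ℝ≥0 :=
  (wt t.1.1 t.1.2.1).toNNReal * x ^ t.1.2.1 * τ ^ t.1.1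

/-- degree statistic of a core -/
noncomputable def Fl (l : ℕ → ℝ) (t : NG) : ℝ := ∑ v, l (deg t.2.2 (.inr v))

/-- number of darts of a core from an inner vertex of degree `p` to one of degree `q` -/
noncomputable def Epq (p q : ℕ) (t : NG) : ℕ :=
  Nat.card {x // ∃ v v', t.2.2 x = .inr v ∧ t.2.2 (flp _ x) = .inr v' ∧
    deg t.2.2 (.inr v) = p ∧ deg t.2.2 (.inr v') = q}

section families

variable (f : ℕ → ℝ) (k0 : ℕ) (lam mu : ℝ)

/-- maps: vertex map, root loop, root bridge, root edge in a larger block -/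
noncomputable def famAM (x y : ℝ≥0∞) : UFam Om JA where
  T := Fin 4
  core := ![Core.free Empty Empty.elim 0 0,
    Core.small 2 ![.M, .M] 1 (lam - mu) fun _ => 0,
    Core.small 2 ![.M, .M] 0 lam fun ω => f (1 + cO (ω 1)),
    Core.small 3 ![.D, .M, .M] 1 (lam - mu) fun ω => f (1 + bO (ω 0) + cO (ω 2))]
  w := ![1, y, x * y, x * y]

/-- single edge with two corners -/
noncomputable def famAE (y : ℝ≥0∞) : UFam Om JA where
  T := Unit
  core := fun _ => Core.small 2 ![.M, .M] 0 lam fun _ => 0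
  w := fun _ => y

/-- series networks -/
noncomputable def famS {J : Type} (jK jD jV : J) : UFam Om J where
  T := Unit
  core := fun _ => Core.small 3 ![jK, jD, jV] 0 0 fun ω => f (cO (ω 2) + bO (ω 0) + aO (ω 1))
  w := fun _ => 1

/-- parallel networks, model A -/
noncomputable def famAP : UFam Om JA where
  T := ℕ
  core := fun j => Core.free (Fin (j + 2)) (fun _ => .nP) (j + 1) (-(mu * (j + 1)))
  w := fun _ => 1

/-- networks with a 3-connected core, model A -/
noncomputable def famAH : UFam Om JA where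
  T := TT
  core := fun t => Tcore aO bO cO .D .V f k0 t.1 (t.1.1 - t.1.2.1 - 1)
    (-(mu * (t.1.1 - t.1.2.1 - 1 : ℕ)))
  w := fun t => 2 * wt t.1.1 t.1.2.1

/-- single edge, model B -/
noncomputable def famBE : UFam Om JB where
  T := Unit
  core := fun _ => Core.free Empty Empty.elim 0 lam
  w := fun _ => 1

/-- parallel networks without an edge between the poles, model B -/
noncomputable def famBP0 : UFam Om JB where
  T := ℕ
  core := fun j => Core.free (Fin (j + 2)) (fun _ => .J) 0 0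
  w := fun j => (((j + 2).factorial : ℕ) : ℝ≥0∞)⁻¹

/-- parallel networks with an edge between the poles, model B -/
noncomputable def famBP1 : UFam Om JB where
  T := ℕ
  core := fun j => Core.free (Fin (j + 1)) (fun _ => .J) 0 lam
  w := fun j => (((j + 1).factorial : ℕ) : ℝ≥0∞)⁻¹

/-- networks with a 3-connected core, model B -/
noncomputable def famBH : UFam Om JB where
  T := TT
  core := fun t => Tcore aO bO cO .D .C f k0 t.1 0 0
  w := fun t => wt t.1.1 t.1.2.1

/-- connected graphs rooted at a dart -/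
noncomputable def famBR : UFam Om JB where
  T := Fin 2
  core := ![Core.small 2 ![.C, .C] 0 lam fun ω => f (1 + cO (ω 0)) + f (1 + cO (ω 1)),
    Core.small 3 ![.Dt, .C, .C] 0 lam fun ω =>
      f (1 + aO (ω 0) + cO (ω 1)) + f (1 + bO (ω 0) + cO (ω 2))]
  w := fun _ => 1

/-- graphs rooted at a vertex -/
noncomputable def famBG : UFam Om JB where
  T := Unit
  core := fun _ => Core.small 2 ![.C, .G] 0 0 fun ω => f (cO (ω 0))
  w := fun _ => 1

end families

/-- pair count of a rooted graph whose root is given the degree `d` -/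
noncomputable def rpair (i j : ℕ) (R : RG) (d : ℕ) : ℕ :=
  pairC R.2.2 (fun o => o.elim d fun v => deg R.2.2 (some v)) i j

/-- final degrees when the poles are given the degrees `d`, `d'` -/
noncomputable def dDeg' (D : DG) (d d' : ℕ) (u : Bool ⊕ Fin D.1.2.1) : ℕ :=
  u.elim (fun b => if b then d else d') fun v => dDeg D (.inr v)

/-- pair count of a decorated network whose poles are given the degrees `d`, `d'` -/
noncomputable def epsO (i j : ℕ) : Om → ℕ → ℕ → ℕ
  | .inr (.inl D), d, d' => pairC D.1.2.2 (dDeg' D d d') i j +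
      ∑ x, rpair i j (D.2.1 x) (dDeg' D d d' (D.1.2.2 x)) +
      ∑ v, rpair i j (D.2.2 v) (dDeg' D d d' (.inr v))
  | _, _, _ => 0

/-- number of edges between the poles -/
noncomputable def dirO : Om → ℕ
  | .inr (.inl D) => Nat.card {x // D.1.2.2 x = .inl true ∧ D.1.2.2 (flp _ x) = .inl false}
  | _ => 0

/-- final degree of a vertex of the core, root edge included -/
def hatDeg {Ω : Type} (a b : Ω → ℕ) (t : NG) (ω : Fin t.1 ⊕ Fin t.2.1 → Ω)
    (u : Bool ⊕ Fin t.2.1) : ℕ :=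
  poleSum a b t ω u + u.elim (fun _ => 1) fun _ => 0

/-- pair count of the map with core `t`, without the root edge -/
def Xhat {Ω : Type} (a b : Ω → ℕ) (eps : Ω → ℕ → ℕ → ℕ) (t : NG)
    (ω : Fin t.1 ⊕ Fin t.2.1 → Ω) : ℕ :=
  ∑ e, eps (ω (.inl e)) (hatDeg a b t ω (t.2.2 (e, true))) (hatDeg a b t ω (t.2.2 (e, false)))

/-! The critical curve. -/

noncomputable def pw (w : ℝ) : ℝ := 1 / (2 * (1 + w + w ^ 2))
noncomputable def qw (w : ℝ) : ℝ := w ^ 2 * pw w
noncomputable def xw (w : ℝ) : ℝ := (2 * w + 1) / (w ^ 3 * (w + 2))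
noncomputable def yw (w : ℝ) : ℝ := pw w ^ 2 * w ^ 3 * (w + 2)
noncomputable def rw' (w : ℝ) : ℝ := qw w * (1 - pw w - qw w)
noncomputable def Mw (w : ℝ) : ℝ := 4 * (1 + w + w ^ 2) / ((2 + w) * (2 * w + 1))
noncomputable def tauw (w : ℝ) : ℝ := 3 * w ^ 2 / (4 * (2 * w + 1))
noncomputable def Ew (w : ℝ) : ℝ := 4 * w ^ 3 / ((2 + w) * (2 * w + 1) ^ 2)
noncomputable def Sw (w : ℝ) : ℝ := xw w * tauw w ^ 2 / (1 + xw w * tauw w)
noncomputable def Tw (w : ℝ) : ℝ := (tauw w / (1 + tauw w) - Ew w - Sw w) / 2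

end Pool.Agent.Lib.MP_77dff5_pr
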