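import Pool.Agent.Lib.MP_77dff5_pr.Root
import Pool.Agent.Lib.MP_77dff5_pr.MDefs

/-! Tutte's recursion for the weights of maps with given root degree and number of edges. -/

set_option autoImplicit false

namespace Pool.Agent.Lib.MP_77dff5_pr

open scoped ENNReal NNReal

/-- weight of the maps with root degree `l` and `e` edges -/
noncomputable def tree4_a (X : ℝ≥0∞) (l e : ℕ) : ℝ≥0∞ :=
  ∑' R : RG, w0 R * (if R.1 = e ∧ deg R.2.2 none = l then X ^ R.2.1 else 0)

/-- weight of the maps with `e` edges -/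
noncomputable def tree4_m (X : ℝ≥0∞) (e : ℕ) : ℝ≥0∞ :=
  ∑' R : RG, w0 R * (if R.1 = e then X ^ R.2.1 else 0)

/-- total mass of a degree count -/
def tree4_sz (ζ : ℕ →₀ ℕ) : ℕ := ζ.sum fun _ k => k

theorem tree4_sz_add (a b : ℕ →₀ ℕ) : tree4_sz (a + b) = tree4_sz a + tree4_sz b :=
  Finsupp.sum_add_index' (fun _ => rfl) fun _ _ _ => rfl

theorem tree4_sz_single (k : ℕ) : tree4_sz (Finsupp.single k 1) = 1 :=
  Finsupp.sum_single_index rfl

theorem tree4_sz_zeta (R : RG) : tree4_sz (zeta R.2.2) = R.2.1 := by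
  have : ∀ s : Finset (Fin R.2.1),
      tree4_sz (∑ v ∈ s, Finsupp.single (deg R.2.2 (some v)) 1) = s.card := by
    intro s
    induction s using Finset.induction_on with
    | empty => simp [tree4_sz]
    | insert a s ha ih =>
      rw [Finset.sum_insert ha, tree4_sz_add, tree4_sz_single, ih, Finset.card_insert_of_notMem ha,
        add_comm]
  rw [zeta, this]
  simp

theorem tree4_deg_le (R : RG) : deg R.2.2 none ≤ 2 * R.1 := by
  have := Finite.card_subtype_le fun x : Fin R.1 × Bool => R.2.2 x = none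
  simpa [deg, mul_comm] using this

theorem tree4_tutte (X : ℝ≥0∞) (l e : ℕ) :
    tree4_a X l e = (if 0 = e ∧ 0 = l then 1 else 0) +
      ∑' R₁ : RG, ∑' R₂ : RG, w0 R₁ * w0 R₂ *
        (if R₁.1 + R₂.1 + 1 = e ∧ deg R₁.2.2 none + deg R₂.2.2 none + 2 = l then
          X ^ R₁.2.1 * X ^ R₂.2.1 else 0) +
      ∑' R : RG, w0 R * ∑ i ∈ Finset.range (deg R.2.2 none + 1),
        (if R.1 + 1 = e ∧ i + 1 = l then X * X ^ R.2.1 else 0) := by
  have h := tutte fun γ => if γ.1 = e ∧ γ.2.1 = l then X ^ tree4_sz γ.2.2 else 0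
  simp only [tree4_sz_add, tree4_sz_zeta, tree4_sz_single, pow_add, pow_one] at h
  rw [tree4_a, h]
  simp only [tree4_sz, Finsupp.sum_zero_index, pow_zero, mul_comm X]

theorem tree4_a_zero (X : ℝ≥0∞) (e : ℕ) : tree4_a X 0 e = if e = 0 then 1 else 0 := by
  rw [tree4_tutte]
  simp [eq_comm]

theorem tree4_a_succ_zero (X : ℝ≥0∞) (l : ℕ) : tree4_a X (l + 1) 0 = 0 := by
  rw [tree4_tutte]
  simp

theorem tree4_ind2 (a b : ℝ≥0∞) (e₁ e₂ d₁ d₂ l e : ℕ) :
    (if e₁ + e₂ + 1 = e + 1 ∧ d₁ + d₂ + 2 = l + 1 then a * b else 0) =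
      ∑ i ∈ Finset.range l, ∑ p ∈ Finset.HasAntidiagonal.antidiagonal e,
        (if e₁ = p.1 ∧ d₁ = i then a else 0) * (if e₂ = p.2 ∧ d₂ = l - 1 - i then b else 0) := by
  split_ifs with h
  · rw [Finset.sum_eq_single d₁, Finset.sum_eq_single (e₁, e₂)]
    · rw [if_pos ⟨rfl, rfl⟩, if_pos ⟨rfl, by omega⟩]
    · rintro ⟨p, q⟩ _ hp
      by_cases h1 : e₁ = p
      · rw [if_neg (c := e₂ = _ ∧ _), mul_zero]
        rintro ⟨h2, -⟩
        exact hp (by rw [h1, h2])
      · rw [if_neg fun h' => h1 h'.1, zero_mul]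
    · intro hn
      exact absurd (Finset.HasAntidiagonal.mem_antidiagonal.2 (by omega)) hn
    · intro i _ hi
      refine Finset.sum_eq_zero fun p _ => ?_
      rw [if_neg fun h' => hi h'.2.symm, zero_mul]
    · intro hn
      exact absurd (Finset.mem_range.2 (by omega)) hn
  · refine (Finset.sum_eq_zero fun i hi => Finset.sum_eq_zero fun p hp => ?_).symm
    rw [Finset.mem_range] at hi
    rw [Finset.HasAntidiagonal.mem_antidiagonal] at hp
    dsimp only
    split_ifs with h1 h2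
    · exact absurd ⟨by omega, by omega⟩ h
    · simp
    · simp
    · simp

theorem tree4_ind3 (a : ℝ≥0∞) (E d l e K : ℕ) (hd : d ≤ 2 * E) (hK : 2 * e < K) :
    (∑ i ∈ Finset.range (d + 1), if E + 1 = e + 1 ∧ i + 1 = l + 1 then a else 0) =
      ∑ k ∈ Finset.range K, if E = e ∧ d = l + k then a else 0 := by
  by_cases h : E = e ∧ l ≤ d
  · rw [Finset.sum_eq_single l, Finset.sum_eq_single (d - l)]
    · rw [if_pos ⟨by omega, rfl⟩, if_pos ⟨h.1, by omega⟩]
    · intro k _ hk
      exact if_neg (by omega)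
    · intro hn
      exact absurd (Finset.mem_range.2 (by omega)) hn
    · intro k _ hk
      exact if_neg (by omega)
    · intro hn
      exact absurd (Finset.mem_range.2 (by omega)) hn
  · rw [Finset.sum_eq_zero, Finset.sum_eq_zero]
    · intro k _
      exact if_neg (by omega)
    · intro k hk
      rw [Finset.mem_range] at hk
      exact if_neg (by omega)

theorem tree4_tsum_sum {α β : Type} (s : Finset β) (f : β → α → ℝ≥0∞) :
    ∑' a, ∑ b ∈ s, f b a = ∑ b ∈ s, ∑' a, f b a :=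
  Summable.tsum_finsetSum fun _ _ => ENNReal.summable

theorem tree4_a_succ (X : ℝ≥0∞) (l e K : ℕ) (hK : 2 * e < K) :
    tree4_a X (l + 1) (e + 1) =
      ∑ i ∈ Finset.range l, ∑ p ∈ Finset.HasAntidiagonal.antidiagonal e,
        tree4_a X i p.1 * tree4_a X (l - 1 - i) p.2 +
      ∑ k ∈ Finset.range K, X * tree4_a X (l + k) e := by
  rw [tree4_tutte, if_neg (by omega), zero_add]
  congr 1
  · simp only [tree4_ind2, Finset.mul_sum, tree4_tsum_sum, tree4_a]
    refine Finset.sum_congr rfl fun i _ => Finset.sum_congr rfl fun p _ => ?_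
    rw [← ENNReal.tsum_mul_right]
    refine tsum_congr fun R₁ => ?_
    rw [← ENNReal.tsum_mul_left]
    refine tsum_congr fun R₂ => ?_
    ring
  · have : ∀ R : RG, (w0 R * ∑ i ∈ Finset.range (deg R.2.2 none + 1),
        (if R.1 + 1 = e + 1 ∧ i + 1 = l + 1 then X * X ^ R.2.1 else 0)) =
        ∑ k ∈ Finset.range K, X * (w0 R *
          if R.1 = e ∧ deg R.2.2 none = l + k then X ^ R.2.1 else 0) := fun R => by
      rw [tree4_ind3 _ _ _ _ _ K (tree4_deg_le R) hK, Finset.mul_sum]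
      refine Finset.sum_congr rfl fun k _ => ?_
      split_ifs
      · ring
      · simp
    simp only [this, tree4_tsum_sum, ENNReal.tsum_mul_left, tree4_a]

theorem tree4_a_ne_top {X : ℝ≥0∞} (hX : X ≠ ∞) (e : ℕ) : ∀ l, tree4_a X l e ≠ ∞ := by
  induction e using Nat.strong_induction_on with
  | _ e ih =>
    intro l
    rcases l with _ | l
    · rw [tree4_a_zero]
      split_ifs <;> simp
    rcases e with _ | e
    · rw [tree4_a_succ_zero]
      simp
    rw [tree4_a_succ X l e (2 * e + 1) (by omega)]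
    refine ENNReal.add_ne_top.2
      ⟨ENNReal.sum_ne_top.2 fun i _ => ENNReal.sum_ne_top.2 fun p hp => ?_, ENNReal.sum_ne_top.2 fun k _ => ENNReal.mul_ne_top hX (ih e (by omega) _)⟩
    rw [Finset.HasAntidiagonal.mem_antidiagonal] at hp
    exact ENNReal.mul_ne_top (ih _ (by omega) _) (ih _ (by omega) _)

theorem tree4_m_eq (X : ℝ≥0∞) (e K : ℕ) (hK : 2 * e < K) :
    tree4_m X e = ∑ k ∈ Finset.range K, tree4_a X k e := by
  simp only [tree4_m, tree4_a, ← tree4_tsum_sum, ← Finset.mul_sum]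
  refine tsum_congr fun R => ?_
  congr 1
  have hd := tree4_deg_le R
  by_cases h : R.1 = e
  · rw [if_pos h, Finset.sum_eq_single (deg R.2.2 none), if_pos ⟨h, rfl⟩]
    · intro k _ hk
      exact if_neg fun h' => hk h'.2.symm
    · intro hn
      exact absurd (Finset.mem_range.2 (by omega)) hn
  · rw [if_neg h, Finset.sum_eq_zero]
    intro k _
    exact if_neg fun h' => h h'.1

theorem tree4_m_ne_top {X : ℝ≥0∞} (hX : X ≠ ∞) (e : ℕ) : tree4_m X e ≠ ∞ := by
  rw [tree4_m_eq X e (2 * e + 1) (by omega)]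
  exact ENNReal.sum_ne_top.2 fun k _ => tree4_a_ne_top hX e k

theorem tree4_total (X Y : ℝ≥0∞) : ∑' R, wM X Y R = ∑' e, tree4_m X e * Y ^ e := by
  simp only [tree4_m, ← ENNReal.tsum_mul_right]
  rw [ENNReal.tsum_comm]
  refine tsum_congr fun R => ?_
  rw [tsum_eq_single R.1]
  · simp [wM]
  · intro e he
    rw [if_neg fun h => he h.symm]
    simp

end Pool.Agent.Lib.MP_77dff5_pr
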