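import Pool.Agent.Lib.MP_77dff5_pr.Tree4AuxA
import Pool.Agent.Lib.MP_77dff5_pr.Tree4AuxB

/-! The parametrisation of the generating function of maps, as power series with nonnegative
coefficients, and its evaluation. -/

set_option autoImplicit false

namespace Pool.Agent.Lib.MP_77dff5_pr

open scoped ENNReal NNReal
open PowerSeries

/-- coefficients of the solution of `P = x + X (P P + 2 P Q)`, `Q = 1 + X (Q Q + 2 P Q)` -/
noncomputable def tree4_c (x : ℝ≥0) : ℕ → ℝ≥0 × ℝ≥0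
  | 0 => (x, 1)
  | n + 1 => (∑ i : Fin (n + 1), ((tree4_c x i).1 * (tree4_c x (n - i)).1 +
        2 * ((tree4_c x i).1 * (tree4_c x (n - i)).2)),
      ∑ i : Fin (n + 1), ((tree4_c x i).2 * (tree4_c x (n - i)).2 +
        2 * ((tree4_c x i).1 * (tree4_c x (n - i)).2)))
  decreasing_by all_goals omega

noncomputable def tree4_P (x : ℝ≥0) : PowerSeries ℝ≥0 := PowerSeries.mk fun n => (tree4_c x n).1

noncomputable def tree4_Q (x : ℝ≥0) : PowerSeries ℝ≥0 := PowerSeries.mk fun n => (tree4_c x n).2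

theorem tree4_coeff_mul (F G : PowerSeries ℝ≥0) (n : ℕ) :
    coeff n (F * G) = ∑ i : Fin (n + 1), coeff i F * coeff (n - i) G := by
  rw [coeff_mul, Finset.Nat.sum_antidiagonal_eq_sum_range_succ_mk, Finset.sum_range]

theorem tree4_P_eq (x : ℝ≥0) : tree4_P x =
    C x + X * (tree4_P x * tree4_P x + 2 * (tree4_P x * tree4_Q x)) := by
  ext n
  rcases n with _ | n
  · simp [tree4_P, tree4_c]
  · rw [map_add, coeff_succ_X_mul, two_mul, map_add, map_add, tree4_coeff_mul, tree4_coeff_mul]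
    simp only [tree4_P, tree4_Q, coeff_mk, tree4_c, coeff_succ_C, zero_add, two_mul,
      Finset.sum_add_distrib]

theorem tree4_Q_eq (x : ℝ≥0) : tree4_Q x =
    1 + X * (tree4_Q x * tree4_Q x + 2 * (tree4_P x * tree4_Q x)) := by
  ext n
  rcases n with _ | n
  · simp [tree4_Q, tree4_c]
  · rw [map_add, coeff_succ_X_mul, two_mul, map_add, map_add, tree4_coeff_mul, tree4_coeff_mul]
    simp only [tree4_P, tree4_Q, coeff_mk, tree4_c, coeff_one, zero_add, two_mul,
      Finset.sum_add_distrib, Nat.succ_ne_zero, if_false]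

/-- reduction modulo `X ^ N` -/
noncomputable def tree4_th (N : ℕ) :
    PowerSeries ℝ≥0 →+* PowerSeries ℝ ⧸ Ideal.span {(X : PowerSeries ℝ) ^ N} :=
  (Ideal.Quotient.mk _).comp (PowerSeries.map NNReal.toRealHom)

theorem tree4_th_eq {N : ℕ} {F G : PowerSeries ℝ≥0} :
    tree4_th N F = tree4_th N G ↔ ∀ n < N, coeff n F = coeff n G := by
  rw [tree4_th, RingHom.comp_apply, RingHom.comp_apply, Ideal.Quotient.eq,
    Ideal.mem_span_singleton, X_pow_dvd_iff]
  refine forall₂_congr fun n _ => ?_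
  rw [map_sub, coeff_map, coeff_map, sub_eq_zero]
  exact NNReal.coe_inj

theorem tree4_th_X (N : ℕ) : tree4_th N X ^ N = 0 := by
  rw [← map_pow, ← map_zero (tree4_th N), tree4_th_eq]
  intro n hn
  rw [coeff_X_pow, if_neg hn.ne, map_zero]

noncomputable def tree4_W (x : ℝ≥0) (l : ℕ) : PowerSeries ℝ≥0 :=
  PowerSeries.mk fun e => (tree4_a x l e).toNNReal

noncomputable def tree4_M (x : ℝ≥0) : PowerSeries ℝ≥0 :=
  PowerSeries.mk fun e => (tree4_m x e).toNNReal

theorem tree4_coeff_W (x : ℝ≥0) (l e : ℕ) :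
    ((coeff e (tree4_W x l) : ℝ≥0) : ℝ≥0∞) = tree4_a x l e := by
  rw [tree4_W, coeff_mk, ENNReal.coe_toNNReal (tree4_a_ne_top ENNReal.coe_ne_top _ _)]

theorem tree4_coeff_M (x : ℝ≥0) (e : ℕ) :
    ((coeff e (tree4_M x) : ℝ≥0) : ℝ≥0∞) = tree4_m x e := by
  rw [tree4_M, coeff_mk, ENNReal.coe_toNNReal (tree4_m_ne_top ENNReal.coe_ne_top _)]

theorem tree4_tutteEq (x : ℝ≥0) (N : ℕ) :
    TutteEq (fun _ => tree4_th N (C x)) (2 * N) (tree4_th N X) 1
      fun l => tree4_th N (tree4_W x l) := by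
  constructor
  · rw [← map_one (tree4_th N), tree4_th_eq]
    intro n _
    apply ENNReal.coe_injective
    rw [tree4_coeff_W, tree4_a_zero, coeff_one]
    split_ifs <;> simp
  · intro l
    simp only [← map_mul, ← map_sum, ← map_add]
    rw [tree4_th_eq]
    intro n hn
    apply ENNReal.coe_injective
    rw [tree4_coeff_W]
    rcases n with _ | n
    · rw [tree4_a_succ_zero, coeff_zero_X_mul, ENNReal.coe_zero]
    · rw [tree4_a_succ _ _ _ (2 * N) (by omega), coeff_succ_X_mul]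
      simp only [map_add, map_sum, coeff_C_mul]
      simp only [coeff_mul, ENNReal.coe_add, ENNReal.ofNNReal_finsetSum, ENNReal.coe_mul,
        tree4_coeff_W]

theorem tree4_formal (x : ℝ≥0) :
    C x * X * X * tree4_M x + 2 * (X * tree4_P x * (X * tree4_P x * (X * tree4_Q x))) +
      2 * (X * tree4_Q x * (X * tree4_P x * (X * tree4_Q x))) =
      X * tree4_P x * (X * tree4_Q x) := by
  ext n
  set N := n + 1 with hN
  refine congrArg _ (tree4_th_eq.1 (?_ : tree4_th N _ = tree4_th N _) n (by omega))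
  have hM : tree4_th N (tree4_M x) =
      ∑ k ∈ Finset.range (2 * N + 1), tree4_th N (tree4_W x k) := by
    rw [← map_sum, tree4_th_eq]
    intro e he
    apply ENNReal.coe_injective
    rw [tree4_coeff_M, tree4_m_eq _ _ (2 * N + 1) (by omega)]
    simp only [map_sum, ENNReal.ofNNReal_finsetSum, tree4_coeff_W]
  have hP := congrArg (tree4_th N) (tree4_P_eq x)
  have hQ := congrArg (tree4_th N) (tree4_Q_eq x)
  simp only [map_add, map_mul, map_one, map_ofNat] at hP hQ ⊢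
  rw [hM]
  exact tree4_alg (tree4_th_X N) le_rfl (dvd_mul_right _ _) (dvd_mul_right _ _)
    (by linear_combination tree4_th N X * hP) (by linear_combination tree4_th N X * hQ)
    (tree4_tutteEq x N)

/-- evaluation -/
noncomputable def tree4_ev (Y : ℝ≥0∞) (F : PowerSeries ℝ≥0) : ℝ≥0∞ :=
  ∑' n, ((coeff n F : ℝ≥0) : ℝ≥0∞) * Y ^ n

theorem tree4_ev_add (Y : ℝ≥0∞) (F G : PowerSeries ℝ≥0) :
    tree4_ev Y (F + G) = tree4_ev Y F + tree4_ev Y G := by
  simp only [tree4_ev, map_add, ENNReal.coe_add, add_mul, ENNReal.tsum_add]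

theorem tree4_ev_mul (Y : ℝ≥0∞) (F G : PowerSeries ℝ≥0) :
    tree4_ev Y (F * G) = tree4_ev Y F * tree4_ev Y G := by
  simp only [tree4_ev, ← ENNReal.tsum_mul_right]
  simp only [← ENNReal.tsum_mul_left]
  rw [← ENNReal.tsum_prod, ← Finset.HasAntidiagonal.sigmaAntidiagonalEquivProd.tsum_eq,
    ENNReal.tsum_sigma']
  refine tsum_congr fun n => ?_
  rw [coeff_mul, ENNReal.ofNNReal_finsetSum, Finset.sum_mul, ← Finset.sum_finset_coe,
    tsum_fintype]
  refine Finset.sum_congr rfl fun p _ => ?_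
  have hp : (p : ℕ × ℕ).1 + (p : ℕ × ℕ).2 = n := Finset.HasAntidiagonal.mem_antidiagonal.1 p.2
  simp only [Finset.HasAntidiagonal.sigmaAntidiagonalEquivProd_apply, ENNReal.coe_mul]
  rw [show Y ^ n = Y ^ (p : ℕ × ℕ).1 * Y ^ (p : ℕ × ℕ).2 by rw [← pow_add, hp]]
  ring

theorem tree4_ev_C (Y : ℝ≥0∞) (x : ℝ≥0) : tree4_ev Y (C x) = x := by
  rw [tree4_ev, tsum_eq_single 0]
  · simp
  · intro n hn
    simp [coeff_C, hn]

theorem tree4_ev_X (Y : ℝ≥0∞) : tree4_ev Y X = Y := by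
  rw [tree4_ev, tsum_eq_single 1]
  · simp
  · intro n hn
    simp [coeff_X, hn]

theorem tree4_ev_one (Y : ℝ≥0∞) : tree4_ev Y 1 = 1 := by
  simpa using tree4_ev_C Y 1

theorem tree4_ev_two (Y : ℝ≥0∞) (F : PowerSeries ℝ≥0) : tree4_ev Y (2 * F) = 2 * tree4_ev Y F := by
  rw [two_mul, two_mul, tree4_ev_add]

/-- partial sums -/
noncomputable def tree4_S (Y : ℝ≥0∞) (N : ℕ) (F : PowerSeries ℝ≥0) : ℝ≥0∞ :=
  ∑ n ∈ Finset.range N, ((coeff n F : ℝ≥0) : ℝ≥0∞) * Y ^ n

theorem tree4_S_trunc (Y : ℝ≥0∞) (N : ℕ) (F : PowerSeries ℝ≥0) :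
    tree4_ev Y (trunc N F : PowerSeries ℝ≥0) = tree4_S Y N F := by
  rw [tree4_ev, tsum_eq_sum (s := Finset.range N), tree4_S]
  · refine Finset.sum_congr rfl fun n hn => ?_
    rw [Polynomial.coeff_coe, coeff_trunc, if_pos (Finset.mem_range.1 hn)]
  · intro n hn
    rw [Polynomial.coeff_coe, coeff_trunc, if_neg fun h => hn (Finset.mem_range.2 h)]
    simp

theorem tree4_S_mul (Y : ℝ≥0∞) (N : ℕ) (F G : PowerSeries ℝ≥0) :
    tree4_S Y N (F * G) ≤ tree4_S Y N F * tree4_S Y N G := by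
  rw [← tree4_S_trunc Y N F, ← tree4_S_trunc Y N G, ← tree4_ev_mul]
  refine le_trans (le_of_eq ?_) (ENNReal.sum_le_tsum (Finset.range N))
  refine Finset.sum_congr rfl fun n hn => ?_
  rw [coeff_mul_eq_coeff_trunc_mul_trunc F G (Finset.mem_range.1 hn)]

theorem tree4_S_add (Y : ℝ≥0∞) (N : ℕ) (F G : PowerSeries ℝ≥0) :
    tree4_S Y N (F + G) = tree4_S Y N F + tree4_S Y N G := by
  simp only [tree4_S, map_add, ENNReal.coe_add, add_mul, Finset.sum_add_distrib]

theorem tree4_S_succ (Y : ℝ≥0∞) (N : ℕ) (c : ℝ≥0) (F : PowerSeries ℝ≥0) :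
    tree4_S Y (N + 1) (C c + X * F) = c + Y * tree4_S Y N F := by
  rw [tree4_S, Finset.sum_range_succ', tree4_S, Finset.mul_sum, add_comm]
  congr 1
  · simp
  · refine Finset.sum_congr rfl fun n _ => ?_
    rw [map_add, coeff_succ_X_mul, coeff_succ_C, zero_add, pow_succ]
    ring

theorem tree4_ev_le (x : ℝ≥0) {Y p q : ℝ≥0∞} (hp : x + Y * (p * p + 2 * (p * q)) ≤ p)
    (hq : 1 + Y * (q * q + 2 * (p * q)) ≤ q) :
    tree4_ev Y (tree4_P x) ≤ p ∧ tree4_ev Y (tree4_Q x) ≤ q := by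
  have key : ∀ N, tree4_S Y N (tree4_P x) ≤ p ∧ tree4_S Y N (tree4_Q x) ≤ q := by
    intro N
    induction N with
    | zero => simp [tree4_S]
    | succ N ih =>
      have hPQ : tree4_S Y N (tree4_P x * tree4_Q x) ≤ p * q :=
        (tree4_S_mul _ _ _ _).trans (mul_le_mul' ih.1 ih.2)
      constructor
      · rw [tree4_P_eq, tree4_S_succ, tree4_S_add, two_mul, tree4_S_add, ← two_mul]
        refine le_trans ?_ hp
        have := (tree4_S_mul Y N _ _).trans (mul_le_mul' ih.1 ih.1)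
        gcongr
      · rw [tree4_Q_eq, ← map_one C, tree4_S_succ, tree4_S_add, two_mul, tree4_S_add, ← two_mul]
        refine le_trans ?_ hq
        have := (tree4_S_mul Y N _ _).trans (mul_le_mul' ih.2 ih.2)
        rw [ENNReal.coe_one]
        gcongr
  simp only [tree4_ev, ENNReal.tsum_eq_iSup_nat]
  exact ⟨iSup_le fun N => (key N).1, iSup_le fun N => (key N).2⟩

theorem tree4_ev_M (x : ℝ≥0) (Y : ℝ≥0∞) : tree4_ev Y (tree4_M x) = ∑' R, wM x Y R := by
  simp only [tree4_total, tree4_ev, tree4_coeff_M]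

end Pool.Agent.Lib.MP_77dff5_pr
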