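import Pool.Agent.Lib.MP_77dff5_pr.Tree3A
import Pool.Agent.Lib.MP_77dff5_pr.Root
import Pool.Agent.Lib.MP_77dff5_pr.Tree4AuxC

/-! The total weight of planar maps at the critical point. -/

set_option autoImplicit false

namespace Pool.Agent.Lib.MP_77dff5_pr

open scoped ENNReal

/-- the critical point is the least solution of the system -/
theorem tree4_fix_unique {w p q u v p' q' : ℝ} (hw : 0 < w) (h1 : w * (1 - 2 * p - 2 * q) = 2 * q)
    (h2 : 1 - 2 * p - 2 * q = 2 * p * w) (hp : p = u + p * p + 2 * (p * q))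
    (hq : q = v + q * q + 2 * (p * q)) (hp' : p' = u + p' * p' + 2 * (p' * q'))
    (hq' : q' = v + q' * q' + 2 * (p' * q')) (lp : p' ≤ p) (lq : q' ≤ q) : p' = p ∧ q' = q := by
  obtain ⟨d, rfl⟩ : ∃ d, p' = p - d := ⟨p - p', by ring⟩
  obtain ⟨e, rfl⟩ : ∃ e, q' = q - e := ⟨q - q', by ring⟩
  have hd : 0 ≤ d := by linarith
  have he : 0 ≤ e := by linarith
  have key : w * d ^ 2 + 2 * (w + 1) * (d * e) + e ^ 2 = 0 := by
    linear_combination w * hp - w * hp' + hq - hq' - d * h1 - e * h2
  have a1 : 0 ≤ w * d ^ 2 := by positivity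
  have a2 : 0 ≤ 2 * (w + 1) * (d * e) := by positivity
  have a3 : 0 ≤ e ^ 2 := by positivity
  have d0 : d = 0 := by
    have : w * d ^ 2 = 0 := by linarith
    exact pow_eq_zero_iff (two_ne_zero) |>.1 ((mul_eq_zero.1 this).resolve_left hw.ne')
  have e0 : e = 0 := by
    have : e ^ 2 = 0 := by linarith
    exact pow_eq_zero_iff (two_ne_zero) |>.1 this
  simp [d0, e0]

theorem mass_M {w : ℝ} (hw : 0 < w) :
    ∑' R, wM (ENNReal.ofReal (xw w)) (ENNReal.ofReal (yw w)) R = ENNReal.ofReal (Mw w) := by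
  have hs : 0 < 1 + w + w ^ 2 := by positivity
  have hp0 : 0 < pw w := by unfold pw; positivity
  have hq0 : 0 < qw w := by unfold qw; positivity
  have hx0 : 0 < xw w := by unfold xw; positivity
  have hy0 : 0 < yw w := by unfold yw; positivity
  have h1 : w * (1 - 2 * pw w - 2 * qw w) = 2 * qw w := by unfold qw pw; field_simp; ring
  have h2 : 1 - 2 * pw w - 2 * qw w = 2 * pw w * w := by unfold qw pw; field_simp; ring
  have hp : pw w = xw w * yw w + pw w * pw w + 2 * (pw w * qw w) := by
    unfold xw yw qw pw; field_simp; ring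
  have hq : qw w = yw w + qw w * qw w + 2 * (pw w * qw w) := by
    unfold yw qw pw; field_simp; ring
  have hM : xw w * yw w * yw w * Mw w + 2 * (pw w * (pw w * qw w)) + 2 * (qw w * (pw w * qw w)) =
      pw w * qw w := by
    unfold Mw xw yw qw pw; field_simp; ring
  generalize pw w = p, qw w = q, xw w = x, yw w = y, Mw w = M at *
  lift p to NNReal using hp0.le
  lift q to NNReal using hq0.le
  lift x to NNReal using hx0.le
  lift y to NNReal using hy0.le
  simp only [ENNReal.ofReal_coe_nnreal]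
  rw [← tree4_ev_M]
  have hy : y ≠ 0 := by exact_mod_cast hy0.ne'
  obtain ⟨lP, lQ⟩ := tree4_ev_le x (Y := y) (p := (p / y : NNReal)) (q := (q / y : NNReal))
    (by
      norm_cast
      rw [← NNReal.coe_le_coe]
      push_cast
      apply le_of_eq
      field_simp
      linear_combination (-1 : ℝ) * hp)
    (by
      norm_cast
      rw [← NNReal.coe_le_coe]
      push_cast
      apply le_of_eq
      field_simp
      linear_combination (-1 : ℝ) * hq)
  have eP := congrArg (tree4_ev y) (tree4_P_eq x)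
  have eQ := congrArg (tree4_ev y) (tree4_Q_eq x)
  have eM := congrArg (tree4_ev y) (tree4_formal x)
  simp only [tree4_ev_add, tree4_ev_two] at eP eQ eM
  simp only [tree4_ev_add, tree4_ev_two, tree4_ev_mul _ PowerSeries.X] at eP eQ
  simp only [tree4_ev_mul, tree4_ev_X, tree4_ev_C, tree4_ev_one] at eP eQ eM
  generalize tree4_ev y (tree4_P x) = a, tree4_ev y (tree4_Q x) = b,
    tree4_ev y (tree4_M x) = m at *
  lift a to NNReal using ne_top_of_le_ne_top ENNReal.coe_ne_top lP
  lift b to NNReal using ne_top_of_le_ne_top ENNReal.coe_ne_top lQ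
  have hx : x ≠ 0 := by exact_mod_cast hx0.ne'
  have hm : m ≠ ∞ := by
    rintro rfl
    rw [ENNReal.mul_top (by simp [hx, hy]), top_add, top_add] at eM
    exact absurd eM.symm (by finiteness)
  lift m to NNReal using hm
  have eP' : (a : ℝ) = x + y * (a * a + 2 * (a * b)) := by exact_mod_cast eP
  have eQ' : (b : ℝ) = 1 + y * (b * b + 2 * (a * b)) := by exact_mod_cast eQ
  have eM' : (x : ℝ) * y * y * m + 2 * (y * a * (y * a * (y * b))) +
      2 * (y * b * (y * a * (y * b))) = y * a * (y * b) := by exact_mod_cast eM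
  have lP' : (a : ℝ) ≤ p / y := by exact_mod_cast lP
  have lQ' : (b : ℝ) ≤ q / y := by exact_mod_cast lQ
  rw [le_div_iff₀' hy0] at lP' lQ'
  obtain ⟨ea, eb⟩ := tree4_fix_unique hw h1 h2 hp hq (p' := y * a) (q' := y * b)
    (by linear_combination (y : ℝ) * eP') (by linear_combination (y : ℝ) * eQ') lP' lQ'
  rw [ea, eb] at eM'
  have : (m : ℝ) = M := by
    have h0 : (x : ℝ) * y * y ≠ 0 := by positivity
    apply mul_left_cancel₀ h0
    linear_combination eM' - hM
  rw [← this, ENNReal.ofReal_coe_nnreal]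

end Pool.Agent.Lib.MP_77dff5_pr
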