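import Pool.Agent.Lib.MP_77dff5_pr.EqA
import Pool.Agent.Lib.MP_77dff5_pr.PartA
import Pool.Agent.Lib.MP_77dff5_pr.Atoms
import Pool.Agent.Lib.MP_77dff5_pr.FamA
import Pool.Agent.Lib.MP_77dff5_pr.Tree4

/-! Masses of the classes of model A at the critical point. -/

set_option autoImplicit false

namespace Pool.Agent.Lib.MP_77dff5_pr

open MeasureTheory ProbabilityTheory Filter Topology
open scoped ENNReal NNReal

variable {w : ℝ}

theorem crit_pos (hw : 0 < w) : 0 < xw w ∧ 0 < yw w ∧ yw w < 1 ∧ 0 < tauw w ∧ 0 < Sw w ∧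
    Sw w < tauw w ∧ 1 < Mw w ∧ Mw w < 2 ∧ yw w * Mw w ^ 2 = Ew w := by
  have hs : 0 < 1 + w + w ^ 2 := by positivity
  have hp0 : 0 < pw w := by unfold pw; positivity
  have hx0 : 0 < xw w := by unfold xw; positivity
  have hy0 : 0 < yw w := by unfold yw; positivity
  have ht0 : 0 < tauw w := by unfold tauw; positivity
  have hd : 0 < (2 + w) * (2 * w + 1) := by positivity
  refine ⟨hx0, hy0, ?_, ht0, by unfold Sw; positivity, ?_, ?_, ?_, ?_⟩
  · have h1 : yw w = w ^ 3 * (w + 2) / (4 * (1 + w + w ^ 2) ^ 2) := by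
      unfold yw pw
      field_simp
      ring
    rw [h1, div_lt_one (by positivity)]
    have h2 : 4 * (1 + w + w ^ 2) ^ 2 - w ^ 3 * (w + 2) =
        4 + 8 * w + 12 * w ^ 2 + 6 * w ^ 3 + 3 * w ^ 4 := by ring
    have h3 : 0 < 4 + 8 * w + 12 * w ^ 2 + 6 * w ^ 3 + 3 * w ^ 4 := by positivity
    linarith
  · unfold Sw
    rw [div_lt_iff₀ (by positivity)]
    nlinarith
  · unfold Mw
    rw [one_lt_div hd]
    nlinarith [sq_nonneg (w - 1), sq_nonneg w]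
  · unfold Mw
    rw [div_lt_iff₀ hd]
    nlinarith
  · unfold yw pw Mw Ew
    field_simp
    ring

theorem aMass_id (hw : 0 < w) : Mw w = 1 + yw w * Mw w ^ 2 + xw w * yw w * Mw w ^ 2 +
    xw w * yw w * (tauw w * Mw w ^ 2) := by
  have hs : 0 < 1 + w + w ^ 2 := by positivity
  unfold yw pw Mw xw tauw
  field_simp
  ring

theorem aMass_evC : EvC (fun _ => 0) 0 := fun _ _ => rfl

theorem aMass_onR (v : RG → ℝ≥0∞) : ∑' ω, onR v ω = ∑' R, v R := by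
  simpa using tsum_onR v fun _ => 1

theorem aMass_V (x y : ℝ≥0∞) : ∑' ω, wgA x y .V ω = x := by
  have h := tsum_wTriv x fun _ => 1
  simp only [mul_one] at h
  exact (aMass_onR _).trans h

theorem aMass_part (x y : ℝ≥0∞) (j : JA) (hj : j ≠ .V) :
    ∑' ω, wgA x y j ω = ∑ k, if incA j k then ∑' ω, lhsA x y k ω else 0 := by
  simp_rw [partA j hj]
  rw [Summable.tsum_finsetSum fun _ _ => ENNReal.summable]
  refine Finset.sum_congr rfl fun k _ => ?_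
  split_ifs <;> simp

theorem aMass_univ : (Finset.univ : Finset KA) = {.M, .E, .S, .P, .H} := by
  ext k
  cases k <;> simp

theorem aMass_sum (F : KA → ℝ≥0∞) : ∑ k, F k = F .M + F .E + F .S + F .P + F .H := by
  rw [aMass_univ]
  simp [add_assoc]

theorem aMass_eqM (x y : ℝ≥0∞) : ∑' ω, wgA x y .M ω =
    1 + y * (∑' ω, wgA x y .M ω) ^ 2 + x * y * (∑' ω, wgA x y .M ω) ^ 2 +
      x * y * ((∑' ω, wgA x y .D ω) * (∑' ω, wgA x y .M ω) ^ 2) := by
  have h := (eqnA x y (fun _ => 0) 0 0 0 aMass_evC .M).mass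
  change ∑' ω, wgA x y .M ω = ∑' t : Fin 4, (famAM (fun _ => 0) 0 0 x y).w t *
    ∏ i, ∑' ω, wgA x y (((famAM (fun _ => 0) 0 0 x y).core t).cls i) ω at h
  replace h := h.trans ((tsum_fintype _).trans (Fin.sum_univ_four _))
  have h0 : ∏ i, ∑' ω, wgA x y (((famAM (fun _ => 0) 0 0 x y).core (0 : Fin 4)).cls i) ω = 1 :=
    Finset.prod_of_isEmpty (ι := Empty) _
  have h1 : ∏ i, ∑' ω, wgA x y (((famAM (fun _ => 0) 0 0 x y).core (1 : Fin 4)).cls i) ω =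
      (∑' ω, wgA x y .M ω) ^ 2 := by
    change ∏ i : Fin 2, ∑' ω, wgA x y (![JA.M, JA.M] i) ω = _
    rw [Fin.prod_univ_two, sq]
    rfl
  have h2 : ∏ i, ∑' ω, wgA x y (((famAM (fun _ => 0) 0 0 x y).core (2 : Fin 4)).cls i) ω =
      (∑' ω, wgA x y .M ω) ^ 2 := by
    change ∏ i : Fin 2, ∑' ω, wgA x y (![JA.M, JA.M] i) ω = _
    rw [Fin.prod_univ_two, sq]
    rfl
  have h3 : ∏ i, ∑' ω, wgA x y (((famAM (fun _ => 0) 0 0 x y).core (3 : Fin 4)).cls i) ω =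
      (∑' ω, wgA x y .D ω) * (∑' ω, wgA x y .M ω) ^ 2 := by
    change ∏ i : Fin 3, ∑' ω, wgA x y (![JA.D, JA.M, JA.M] i) ω = _
    rw [Fin.prod_univ_three, sq, mul_assoc]
    rfl
  rw [h0, h1, h2, h3] at h
  refine h.trans ?_
  change 1 * 1 + y * _ + x * y * _ + x * y * _ = _
  rw [mul_one]

theorem aMass_eqE (x y : ℝ≥0∞) : ∑' ω, lhsA x y .E ω = y * (∑' ω, wgA x y .M ω) ^ 2 := by
  have h := (eqnA x y (fun _ => 0) 0 0 0 aMass_evC .E).mass
  change _ = ∑' _ : Unit, y * ∏ i : Fin 2, ∑' ω, wgA x y (![JA.M, JA.M] i) ω at h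
  rw [h, tsum_fintype, Fintype.sum_unique, Fin.prod_univ_two, sq]
  rfl

theorem aMass_eqS (x y : ℝ≥0∞) :
    ∑' ω, lhsA x y .S ω = (∑' ω, wgA x y .nS ω) * (∑' ω, wgA x y .D ω) * x := by
  have h := (eqnA x y (fun _ => 0) 0 0 0 aMass_evC .S).mass
  change _ = ∑' _ : Unit, 1 * ∏ i : Fin 3, ∑' ω, wgA x y (![JA.nS, JA.D, JA.V] i) ω at h
  rw [h, tsum_fintype, Fintype.sum_unique, Fin.prod_univ_three, one_mul]
  change (∑' ω, wgA x y .nS ω) * (∑' ω, wgA x y .D ω) * (∑' ω, wgA x y .V ω) = _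
  rw [aMass_V]

theorem aMass_eqP (x y : ℝ≥0∞) : ∑' ω, lhsA x y .P ω =
    (∑' ω, wgA x y .nP ω) ^ 2 + (∑' ω, wgA x y .nP ω) * ∑' ω, lhsA x y .P ω := by
  have h := (eqnA x y (fun _ => 0) 0 0 0 aMass_evC .P).mass
  change _ = ∑' j : ℕ, 1 * ∏ _i : Fin (j + 2), ∑' ω, wgA x y .nP ω at h
  simp only [one_mul, Finset.prod_const, Finset.card_univ, Fintype.card_fin] at h
  rw [h, ← ENNReal.tsum_mul_left]
  rw [tsum_eq_zero_add' ENNReal.summable]
  congr 1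
  exact tsum_congr fun j => by ring

theorem aMass_prodH (x y : ℝ≥0∞) (f : ℕ → ℝ) (k0 : ℕ) (lam mu : ℝ) (t : TT) :
    (ufA x y f k0 lam mu .H).w t * ∏ i, ∑' ω, wgA x y (((ufA x y f k0 lam mu .H).core t).cls i) ω =
      2 * (wt t.1.1 t.1.2.1 * x ^ t.1.2.1 * (∑' ω, wgA x y .D ω) ^ t.1.1) := by
  change 2 * wt t.1.1 t.1.2.1 * ∏ i : Fin t.1.1 ⊕ Fin t.1.2.1,
    ∑' ω, wgA x y (Sum.elim (fun _ => JA.D) (fun _ => JA.V) i) ω = _
  rw [Fintype.prod_sum_type]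
  simp only [Sum.elim_inl, Sum.elim_inr, Finset.prod_const, Finset.card_univ, Fintype.card_fin,
    aMass_V]
  ring

theorem aMass_eqH (x y : ℝ≥0∞) : ∑' ω, lhsA x y .H ω =
    2 * ∑' t : TT, wt t.1.1 t.1.2.1 * x ^ t.1.2.1 * (∑' ω, wgA x y .D ω) ^ t.1.1 := by
  rw [(eqnA x y (fun _ => 0) 0 0 0 aMass_evC .H).mass, ← ENNReal.tsum_mul_left]
  exact tsum_congr fun t => aMass_prodH x y _ _ _ _ t

theorem aMass_partD (x y : ℝ≥0∞) : ∑' ω, wgA x y .D ω = ∑' ω, lhsA x y .E ω +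
    ∑' ω, lhsA x y .S ω + ∑' ω, lhsA x y .P ω + ∑' ω, lhsA x y .H ω := by
  rw [aMass_part x y .D (by decide), aMass_sum]
  simp [incA]

theorem aMass_partS (x y : ℝ≥0∞) : ∑' ω, wgA x y .nS ω = ∑' ω, lhsA x y .E ω +
    ∑' ω, lhsA x y .P ω + ∑' ω, lhsA x y .H ω := by
  rw [aMass_part x y .nS (by decide), aMass_sum]
  simp [incA]

theorem aMass_partP (x y : ℝ≥0∞) : ∑' ω, wgA x y .nP ω = ∑' ω, lhsA x y .E ω +
    ∑' ω, lhsA x y .S ω + ∑' ω, lhsA x y .H ω := by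
  rw [aMass_part x y .nP (by decide), aMass_sum]
  simp [incA]

theorem aMass_wt (m n : ℕ) : wt m n ≠ ⊤ := by
  unfold wt
  rw [ENNReal.inv_ne_top, Nat.cast_ne_zero]
  positivity

theorem aMass_wTw (w : ℝ) (t : TT) : (wTw w t : ℝ≥0∞) =
    wt t.1.1 t.1.2.1 * ENNReal.ofReal (xw w) ^ t.1.2.1 * ENNReal.ofReal (tauw w) ^ t.1.1 := by
  rw [wTw, wT, ENNReal.coe_mul, ENNReal.coe_mul, ENNReal.coe_pow, ENNReal.coe_pow,
    ENNReal.coe_toNNReal (aMass_wt _ _)]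
  rfl

theorem aMass_M (hw : 0 < w) : ∑' ω, wA w .M ω = ENNReal.ofReal (Mw w) :=
  (aMass_onR _).trans (mass_M hw)

theorem aMass_D (hw : 0 < w) : ∑' ω, wA w .D ω = ENNReal.ofReal (tauw w) := by
  obtain ⟨hx, hy, -, ht, -, -, hM1, -, -⟩ := crit_pos hw
  have hM0 : 0 < Mw w := by linarith
  have h := aMass_eqM (ENNReal.ofReal (xw w)) (ENNReal.ofReal (yw w))
  change ∑' ω, wA w .M ω = 1 + _ * (∑' ω, wA w .M ω) ^ 2 + _ * (∑' ω, wA w .M ω) ^ 2 +
    _ * ((∑' ω, wA w .D ω) * (∑' ω, wA w .M ω) ^ 2) at h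
  rw [aMass_M hw] at h
  have h' : ENNReal.ofReal (Mw w) = 1 + ENNReal.ofReal (yw w) * ENNReal.ofReal (Mw w) ^ 2 +
      ENNReal.ofReal (xw w) * ENNReal.ofReal (yw w) * ENNReal.ofReal (Mw w) ^ 2 +
      ENNReal.ofReal (xw w) * ENNReal.ofReal (yw w) *
        (ENNReal.ofReal (tauw w) * ENNReal.ofReal (Mw w) ^ 2) := by
    rw [← ENNReal.ofReal_pow hM0.le, ← ENNReal.ofReal_mul ht.le, ← ENNReal.ofReal_mul hx.le,
      ← ENNReal.ofReal_mul hy.le, ← ENNReal.ofReal_mul (mul_pos hx hy).le,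
      ← ENNReal.ofReal_mul (mul_pos hx hy).le, ← ENNReal.ofReal_one,
      ← ENNReal.ofReal_add (by positivity) (by positivity),
      ← ENNReal.ofReal_add (by positivity) (by positivity),
      ← ENNReal.ofReal_add (by positivity) (by positivity), ← aMass_id hw]
  have h2 := h.symm.trans h'
  have hx' : ENNReal.ofReal (xw w) ≠ 0 := (ENNReal.ofReal_pos.2 hx).ne'
  have hy' : ENNReal.ofReal (yw w) ≠ 0 := (ENNReal.ofReal_pos.2 hy).ne'
  have hM' : ENNReal.ofReal (Mw w) ≠ 0 := (ENNReal.ofReal_pos.2 hM0).ne'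
  rw [ENNReal.add_right_inj (by finiteness),
    ENNReal.mul_right_inj (mul_ne_zero hx' hy') (by finiteness),
    ENNReal.mul_left_inj (pow_ne_zero _ hM') (by finiteness)] at h2
  exact h2

theorem aMass_lhs_ne (hw : 0 < w) (k : KA) :
    ∑' ω, lhsA (ENNReal.ofReal (xw w)) (ENNReal.ofReal (yw w)) k ω ≠ ⊤ := by
  have hD := aMass_partD (ENNReal.ofReal (xw w)) (ENNReal.ofReal (yw w))
  have h1 : ∑' ω, wgA (ENNReal.ofReal (xw w)) (ENNReal.ofReal (yw w)) .D ω ≠ ⊤ := by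
    change ∑' ω, wA w .D ω ≠ ⊤
    rw [aMass_D hw]
    exact ENNReal.ofReal_ne_top
  rw [hD, ENNReal.add_ne_top, ENNReal.add_ne_top, ENNReal.add_ne_top] at h1
  cases k
  · change ∑' ω, wA w .M ω ≠ ⊤
    rw [aMass_M hw]
    exact ENNReal.ofReal_ne_top
  · exact h1.1.1.1
  · exact h1.1.1.2
  · exact h1.1.2
  · exact h1.2

theorem massA (hw : 0 < w) :
    ∑' ω, wA w .M ω = ENNReal.ofReal (Mw w) ∧ ∑' ω, wA w .D ω = ENNReal.ofReal (tauw w) ∧
    ∑' ω, wA w .nS ω = ENNReal.ofReal (tauw w - Sw w) ∧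
    ∑' ω, wA w .nP ω = ENNReal.ofReal (tauw w / (1 + tauw w)) ∧
    ∑' ω, wA w .V ω = ENNReal.ofReal (xw w) ∧ HasSum (fun t => (wTw w t : ℝ)) (Tw w) := by
  obtain ⟨hx, hy, -, ht, -, -, hM1, -, hE⟩ := crit_pos hw
  have hM0 : 0 < Mw w := by linarith
  have hM := aMass_M hw
  have hD := aMass_D hw
  have e1 := aMass_eqE (ENNReal.ofReal (xw w)) (ENNReal.ofReal (yw w))
  have e2 := aMass_eqS (ENNReal.ofReal (xw w)) (ENNReal.ofReal (yw w))
  have e3 := aMass_eqP (ENNReal.ofReal (xw w)) (ENNReal.ofReal (yw w))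
  have e4 := aMass_eqH (ENNReal.ofReal (xw w)) (ENNReal.ofReal (yw w))
  have p1 := aMass_partD (ENNReal.ofReal (xw w)) (ENNReal.ofReal (yw w))
  have p2 := aMass_partS (ENNReal.ofReal (xw w)) (ENNReal.ofReal (yw w))
  have p3 := aMass_partP (ENNReal.ofReal (xw w)) (ENNReal.ofReal (yw w))
  have f1 := aMass_lhs_ne hw .E
  have f2 := aMass_lhs_ne hw .S
  have f3 := aMass_lhs_ne hw .P
  have f4 := aMass_lhs_ne hw .H
  unfold wA at hM hD ⊢
  rw [hM] at e1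
  rw [hD] at e2 e4 p1
  simp_rw [← aMass_wTw] at e4
  have f5 : ∑' t, (wTw w t : ℝ≥0∞) ≠ ⊤ := by
    intro h
    rw [h] at e4
    exact f4 (by rw [e4]; simp)
  obtain ⟨T, hT⟩ : ∃ T : ℝ≥0, ∑' t, (wTw w t : ℝ≥0∞) = T := ⟨_, (ENNReal.coe_toNNReal f5).symm⟩
  have hsum : HasSum (fun t => (wTw w t : ℝ)) (T : ℝ) := by
    have h1 := ENNReal.hasSum_toReal f5
    have h2 := ENNReal.tsum_toReal_eq (f := fun t => (wTw w t : ℝ≥0∞)) fun _ => ENNReal.coe_ne_top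
    rw [← h2, hT] at h1
    simpa using h1
  rw [hT] at e4
  generalize ∑' ω, lhsA (ENNReal.ofReal (xw w)) (ENNReal.ofReal (yw w)) .E ω = lE at *
  generalize ∑' ω, lhsA (ENNReal.ofReal (xw w)) (ENNReal.ofReal (yw w)) .S ω = lS at *
  generalize ∑' ω, lhsA (ENNReal.ofReal (xw w)) (ENNReal.ofReal (yw w)) .P ω = lP at *
  generalize ∑' ω, lhsA (ENNReal.ofReal (xw w)) (ENNReal.ofReal (yw w)) .H ω = lH at *
  generalize ∑' ω, wgA (ENNReal.ofReal (xw w)) (ENNReal.ofReal (yw w)) .nS ω = nS at *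
  generalize ∑' ω, wgA (ENNReal.ofReal (xw w)) (ENNReal.ofReal (yw w)) .nP ω = nP at *
  have f6 : nS ≠ ⊤ := by rw [p2]; finiteness
  have f7 : nP ≠ ⊤ := by rw [p3]; finiteness
  lift lE to ℝ≥0 using f1
  lift lS to ℝ≥0 using f2
  lift lP to ℝ≥0 using f3
  lift lH to ℝ≥0 using f4
  lift nS to ℝ≥0 using f6
  lift nP to ℝ≥0 using f7
  have r1 : (lE : ℝ) = yw w * Mw w ^ 2 := by
    simpa [ENNReal.toReal_ofReal hy.le, ENNReal.toReal_ofReal hM0.le] using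
      congrArg ENNReal.toReal e1
  have r2 : (lS : ℝ) = nS * tauw w * xw w := by
    simpa [ENNReal.toReal_ofReal hx.le, ENNReal.toReal_ofReal ht.le] using
      congrArg ENNReal.toReal e2
  have r3 : (lP : ℝ) = nP ^ 2 + nP * lP := by exact_mod_cast e3
  have r4 : (lH : ℝ) = 2 * T := by exact_mod_cast e4
  have q1 : tauw w = lE + lS + lP + lH := by
    have h1 := congrArg ENNReal.toReal p1
    rw [ENNReal.toReal_ofReal ht.le] at h1
    rw [h1]
    norm_cast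
  have q2 : (nS : ℝ) = lE + lP + lH := by exact_mod_cast p2
  have q3 : (nP : ℝ) = lE + lS + lH := by exact_mod_cast p3
  have hden : 0 < 1 + xw w * tauw w := by positivity
  have s1 : (lS : ℝ) = Sw w := by
    rw [Sw, eq_div_iff hden.ne']
    have h1 : (nS : ℝ) = tauw w - lS := by linarith
    rw [h1] at r2
    linear_combination r2
  have s2 : (nS : ℝ) = tauw w - Sw w := by linarith
  have s3 : (nP : ℝ) = tauw w / (1 + tauw w) := by
    rw [eq_div_iff (by positivity)]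
    have h1 : (lP : ℝ) = tauw w - nP := by linarith
    rw [h1] at r3
    linear_combination -r3
  have s4 : (T : ℝ) = Tw w := by
    rw [Tw, ← s3, ← hE, ← r1, ← s1]
    linarith
  refine ⟨hM, hD, ?_, ?_, aMass_V _ _, s4 ▸ hsum⟩
  · rw [← s2, ENNReal.ofReal_coe_nnreal]
  · rw [← s3, ENNReal.ofReal_coe_nnreal]

theorem massA_ne (hw : 0 < w) (j : JA) : ∑' ω, wA w j ω ≠ 0 ∧ ∑' ω, wA w j ω ≠ ⊤ := by
  obtain ⟨hx, -, -, ht, -, hS, hM1, -, -⟩ := crit_pos hw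
  obtain ⟨h1, h2, h3, h4, h5, -⟩ := massA hw
  have key : ∀ {a : ℝ≥0∞} {b : ℝ}, a = ENNReal.ofReal b → 0 < b → a ≠ 0 ∧ a ≠ ⊤ := by
    rintro a b rfl hb
    exact ⟨(ENNReal.ofReal_pos.2 hb).ne', ENNReal.ofReal_ne_top⟩
  cases j
  · exact key h1 (by linarith)
  · exact key h2 ht
  · exact key h3 (by linarith)
  · exact key h4 (by positivity)
  · exact key h5 hx

theorem FA_H_w (hw : 0 < w) (f : ℕ → ℝ) (k0 : ℕ) (lam mu : ℝ) (t : TT) :
    (FA w f k0 lam mu .H).w t = 2 * wTw w t := by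
  have h := aMass_prodH (ENNReal.ofReal (xw w)) (ENNReal.ofReal (yw w)) f k0 lam mu t
  have hD := aMass_D hw
  unfold wA at hD
  rw [hD, ← aMass_wTw] at h
  refine (congrArg ENNReal.toNNReal h).trans ?_
  rw [ENNReal.toNNReal_mul, ENNReal.toNNReal_coe]
  rfl

theorem lawA_fam (hw : 0 < w) {f : ℕ → ℝ} {k0 : ℕ} (hf : EvC f k0) (lam mu : ℝ) (k : KA) :
    slaw (meas (lhsA (ENNReal.ofReal (xw w)) (ENNReal.ofReal (yw w)) k)) sA (zz sA f lam mu) =
      (FA w f k0 lam mu k).law (nuA w) sA (zz sA f lam mu) :=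
  (eqnA _ _ f k0 lam mu hf k).law (fun j => (massA_ne hw j).1) (fun j => (massA_ne hw j).2)
    (aMass_lhs_ne hw k)

theorem aMass_meas (x y : ℝ≥0∞) (j : JA) (hj : j ≠ .V) :
    meas (wgA x y j) = ∑ k, if incA j k then meas (lhsA x y k) else 0 := by
  ext A hA
  rw [← lintegral_indicator_one hA, lintegral_meas, Measure.finsetSum_apply]
  simp_rw [partA j hj, Finset.sum_mul]
  rw [Summable.tsum_finsetSum fun _ _ => ENNReal.summable]
  refine Finset.sum_congr rfl fun k _ => ?_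
  split_ifs
  · rw [← lintegral_indicator_one hA, lintegral_meas]
  · simp

theorem lawA (hw : 0 < w) {f : ℕ → ℝ} {k0 : ℕ} (hf : EvC f k0) (lam mu : ℝ) (j : JA) (hj : j ≠ .V) :
    slaw (nuA w j) sA (zz sA f lam mu) =
      src (FA w f k0 lam mu) (cA w) (nuA w) sA (zz sA f lam mu) j := by
  have h0 := (massA_ne hw j).1
  have hm : meas (wA w j) = _ := aMass_meas _ _ j hj
  rw [slaw, nuA, nrm, Measure.map_smul, hm,
    Measure.map_finset_sum' (measurable_of_countable _).aemeasurable, src, Finset.smul_sum]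
  refine Finset.sum_congr rfl fun k _ => ?_
  rw [← lawA_fam hw hf, cA]
  split_ifs
  · rw [ENNReal.smul_def, ENNReal.coe_toNNReal (ENNReal.inv_ne_top.2 h0)]
    rfl
  · simp

end Pool.Agent.Lib.MP_77dff5_pr
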