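import Pool.Agent.Lib.MP_77dff5_pr.LDefs

/-! Tutte's decomposition of networks: graph theory on fixed labels. -/

set_option autoImplicit false
set_option linter.unusedSectionVars false

namespace Pool.Agent.Lib.MP_77dff5_pr

open scoped ENNReal Classical

theorem netA_flp_mk {E : Type} (e : E) (b : Bool) : flp E (e, b) = (e, !b) := rfl

theorem netA_flp_fst {E : Type} (x : E × Bool) : (flp E x).1 = x.1 := rfl

theorem netA_flp_flp {E : Type} (x : E × Bool) : flp E (flp E x) = x := by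
  obtain ⟨e, b⟩ := x
  simp only [netA_flp_mk, Bool.not_not]

theorem netA_eq_or_flp {E : Type} {x y : E × Bool} (h : y.1 = x.1) : y = x ∨ y = flp E x := by
  obtain ⟨e, b⟩ := x
  obtain ⟨e', b'⟩ := y
  obtain rfl : e' = e := h
  cases b <;> cases b' <;> simp [netA_flp_mk]

theorem netA_bd_compl {E V : Type} (ν : E × Bool → V) (X : Set E) : bd ν Xᶜ = bd ν X := by
  ext v
  simp only [bd, Set.mem_compl_iff, not_not, Set.mem_ofPred_eq]
  exact and_comm

theorem netA_exists_two {E V : Type} [Finite V] {ν : E × Bool → V} (h : Nonsep ν) {X : Set E}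
    (h1 : X.Nonempty) (h2 : Xᶜ.Nonempty) : ∃ a ∈ bd ν X, ∃ b ∈ bd ν X, a ≠ b :=
  (Set.one_lt_ncard (Set.toFinite _)).mp (h X h1 h2)

theorem netA_exists_ne {E V : Type} [Finite V] {ν : E × Bool → V} (h : Nonsep ν) {X : Set E}
    (h1 : X.Nonempty) (h2 : Xᶜ.Nonempty) (c : V) : ∃ a ∈ bd ν X, a ≠ c := by
  obtain ⟨a, ha, b, hb, hab⟩ := netA_exists_two h h1 h2
  by_cases hc : a = c
  · exact ⟨b, hb, fun h' => hab (hc.trans h'.symm)⟩
  · exact ⟨a, ha, hc⟩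

theorem netA_nonsep_of_two {E V : Type} [Finite V] {ν : E × Bool → V}
    (h : ∀ X : Set E, X.Nonempty → Xᶜ.Nonempty → ∃ a ∈ bd ν X, ∃ b ∈ bd ν X, a ≠ b) :
    Nonsep ν := fun X h1 h2 => (Set.one_lt_ncard (Set.toFinite _)).mpr (h X h1 h2)

theorem netA_other {E V : Type} [Finite V] [Nontrivial E] {ν : E × Bool → V} (h : Nonsep ν)
    (x : E × Bool) : ν (flp E x) ≠ ν x ∧ ∃ y, y.1 ≠ x.1 ∧ ν y = ν x := by
  obtain ⟨e, he⟩ := exists_ne x.1
  obtain ⟨a, ⟨⟨y, hy, rfl⟩, ha⟩, hne⟩ :=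
    netA_exists_ne h (X := {x.1}) ⟨_, rfl⟩ ⟨e, he⟩ (ν (flp E x))
  rcases netA_eq_or_flp hy with rfl | rfl
  · exact ⟨hne.symm, ha⟩
  · exact absurd rfl hne

theorem netA_handshake {D V : Type} [Finite D] [Finite V] (ν : D → V) {k : ℕ}
    (h : ∀ v, k ≤ deg ν v) : k * Nat.card V ≤ Nat.card D := by
  have := Fintype.ofFinite V
  rw [← Nat.card_congr (Equiv.sigmaFiberEquiv ν), Nat.card_sigma, Nat.card_eq_fintype_card,
    mul_comm, ← smul_eq_mul, ← Finset.card_univ]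
  exact Finset.card_nsmul_le_sum _ _ _ fun v _ => h v

theorem netA_card_darts (E : Type) [Finite E] :
    Nat.card (Option E × Bool) = 2 * Nat.card E + 2 := by
  have := Fintype.ofFinite E
  simp only [Nat.card_eq_fintype_card, Fintype.card_prod, Fintype.card_option, Fintype.card_bool]
  ring

theorem netA_card_verts (V : Type) [Finite V] : Nat.card (Bool ⊕ V) = Nat.card V + 2 := by
  have := Fintype.ofFinite V
  simp only [Nat.card_eq_fintype_card, Fintype.card_sum, Fintype.card_bool]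
  ring

theorem netA_mem_bd_clo {E V : Type} {N : E × Bool → Bool ⊕ V} {X : Set E} {v : Bool ⊕ V} :
    v ∈ bd (clo N) (some '' X) ↔
      (∃ x, x.1 ∈ X ∧ N x = v) ∧ (v ∈ Set.range Sum.inl ∨ ∃ x, x.1 ∉ X ∧ N x = v) := by
  constructor
  · rintro ⟨⟨⟨_, b⟩, ⟨e, he, rfl⟩, h1⟩, ⟨o, c⟩, h2, h3⟩
    refine ⟨⟨(e, b), he, h1⟩, ?_⟩
    cases o with
    | none => exact Or.inl ⟨c, h3⟩
    | some e' => exact Or.inr ⟨(e', c), fun h => h2 ⟨e', h, rfl⟩, h3⟩
  · rintro ⟨⟨x, h1, h2⟩, ⟨c, h3⟩ | ⟨y, h3, h4⟩⟩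
    · exact ⟨⟨(some x.1, x.2), ⟨x.1, h1, rfl⟩, h2⟩, (none, c), by simp, h3⟩
    · exact ⟨⟨(some x.1, x.2), ⟨x.1, h1, rfl⟩, h2⟩, (some y.1, y.2), by simpa using h3, h4⟩

theorem netA_two_bd {E V : Type} [Finite V] {N : E × Bool → Bool ⊕ V} (h : IsNet N) {X : Set E}
    (hX : X.Nonempty) : ∃ a ∈ bd (clo N) (some '' X), ∃ b ∈ bd (clo N) (some '' X), a ≠ b :=
  netA_exists_two h.2.2 (hX.image _) ⟨none, by simp⟩

theorem netA_pole {E V : Type} [Finite V] {N : E × Bool → Bool ⊕ V} (h : IsNet N) (b : Bool) :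
    ∃ x, N x = Sum.inl b := by
  have := h.1
  obtain ⟨⟨o, c⟩, h1, h2⟩ := (netA_other h.2.2 (none, b)).2
  cases o with
  | none => exact absurd rfl h1
  | some e => exact ⟨(e, c), h2⟩

/-- a parallel set meets both poles -/
theorem netA_par_touch {E V : Type} [Finite V] {N : E × Bool → Bool ⊕ V} (h : IsNet N)
    {Y : Set E} (hY : Y.Nonempty) (hb : bd (clo N) (some '' Y) ⊆ Set.range Sum.inl) (b : Bool) :
    ∃ x, x.1 ∈ Y ∧ N x = Sum.inl b := by
  obtain ⟨a, ha, hne⟩ := netA_exists_ne h.2.2 (hY.image some) ⟨none, by simp⟩ (Sum.inl (!b))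
  obtain ⟨c, rfl⟩ := hb ha
  have : c = b := by
    revert hne
    cases c <;> cases b <;> simp
  exact this ▸ (netA_mem_bd_clo.mp ha).1

theorem netA_par_compl {E V : Type} {N : E × Bool → Bool ⊕ V} {Y : Set E}
    (hb : bd (clo N) (some '' Y) ⊆ Set.range Sum.inl) :
    bd (clo N) (some '' Yᶜ) ⊆ Set.range Sum.inl := by
  intro v hv
  obtain ⟨h1, h2 | ⟨x, h2, h3⟩⟩ := netA_mem_bd_clo.mp hv
  · exact h2
  · exact hb (netA_mem_bd_clo.mpr ⟨⟨x, not_not.mp h2, h3⟩, Or.inr h1⟩)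

theorem netA_ser_par {E V : Type} [Finite V] {N : E × Bool → Bool ⊕ V} (h : IsNet N)
    {X Y : Set E} (h1 : ∀ x, N x = Sum.inl true → x.1 ∈ X)
    (h2 : ∀ x, N x = Sum.inl false → x.1 ∉ X) (hY : Y.Nonempty)
    (hb : bd (clo N) (some '' Y) ⊆ Set.range Sum.inl) :
    ∃ c ∈ bd (clo N) (some '' X), c ∉ Set.range Sum.inl ∧ ∃ x, x.1 ∈ Y ∧ N x = c := by
  obtain ⟨x, hx, hx'⟩ := netA_par_touch h hY hb true
  obtain ⟨c, hc, hne⟩ := netA_exists_ne h.2.2
    ((show (X ∩ Y).Nonempty from ⟨x.1, h1 x hx', hx⟩).image some) ⟨none, by simp⟩ (Sum.inl true)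
  obtain ⟨⟨y, ⟨hyX, hyY⟩, hy⟩, hc2⟩ := netA_mem_bd_clo.mp hc
  have hin : c ∉ Set.range Sum.inl := by
    rintro ⟨b, rfl⟩
    cases b
    · exact h2 y hy hyX
    · exact hne rfl
  obtain ⟨z, hz, hz'⟩ := hc2.resolve_left hin
  refine ⟨c, netA_mem_bd_clo.mpr ⟨⟨y, hyX, hy⟩, Or.inr ⟨z, fun hzX => ?_, hz'⟩⟩, hin, y, hyY, hy⟩
  exact hin (hb (netA_mem_bd_clo.mpr ⟨⟨y, hyY, hy⟩, Or.inr ⟨z, fun hzY => hz ⟨hzX, hzY⟩, hz'⟩⟩))

theorem netA_swapP_swapP {E V : Type} (N : E × Bool → Bool ⊕ V) : swapP (swapP N) = N := by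
  funext x
  simp only [swapP]
  cases N x <;> simp

theorem netA_clo_swapP {E V : Type} (N : E × Bool → Bool ⊕ V) (x : Option E × Bool) :
    ∃ y : Option E × Bool, y.1 = x.1 ∧ clo (swapP N) y = (clo N x).map not id := by
  obtain ⟨o, b⟩ := x
  cases o with
  | none => exact ⟨(none, !b), rfl, rfl⟩
  | some e => exact ⟨(some e, b), rfl, rfl⟩

theorem netA_isNet_swapP {E V : Type} [Finite V] {N : E × Bool → Bool ⊕ V} (h : IsNet N) :
    IsNet (swapP N) := by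
  have inv : ∀ v : Bool ⊕ V, (v.map not id).map not id = v := fun v => by cases v <;> simp
  refine ⟨h.1, fun v => ?_, netA_nonsep_of_two fun X h1 h2 => ?_⟩
  · obtain ⟨x, hx⟩ := h.2.1 (v.map not id)
    obtain ⟨y, -, hy⟩ := netA_clo_swapP N x
    exact ⟨y, by rw [hy, hx, inv]⟩
  · have key : ∀ v ∈ bd (clo N) X, v.map not id ∈ bd (clo (swapP N)) X := by
      rintro v ⟨⟨x, hx, hx'⟩, z, hz, hz'⟩
      obtain ⟨y, hy, hy'⟩ := netA_clo_swapP N x
      obtain ⟨w, hw, hw'⟩ := netA_clo_swapP N z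
      exact ⟨⟨y, hy ▸ hx, by rw [hy', hx']⟩, w, hw ▸ hz, by rw [hw', hz']⟩
    obtain ⟨a, ha, b, hb, hab⟩ := netA_exists_two h.2.2 h1 h2
    exact ⟨_, key a ha, _, key b hb, fun h' => hab (by rw [← inv a, h', inv])⟩

theorem netA_three {E V : Type} [Finite E] [Finite V] {t : E × Bool → Bool ⊕ V} (h : Core3 t)
    {a b : Option E} (hab : a ≠ b) (u v : Bool ⊕ V) : ¬bd (clo t) {a, b} ⊆ {u, v} := by
  intro hs
  have h1 : ({a, b} : Set (Option E)).ncard = 2 := Set.ncard_pair hab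
  have h2 := Set.ncard_add_ncard_compl ({a, b} : Set (Option E))
  have h3 : Nat.card (Option E) = Nat.card E + 1 := Finite.card_option
  have h4 := h.2.2 {a, b} h1.ge (by have := h.2.1; omega)
  have h5 := Set.ncard_le_ncard hs
  have h6 : ({u, v} : Set (Bool ⊕ V)).ncard ≤ 2 :=
    (Set.ncard_insert_le _ _).trans (by rw [Set.ncard_singleton])
  omega

section basic
variable {E V : Type} [Finite E] [Finite V]

theorem bd_submod (ν : E × Bool → V) (X Y : Set E) :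
    (bd ν (X ∪ Y)).ncard + (bd ν (X ∩ Y)).ncard ≤ (bd ν X).ncard + (bd ν Y).ncard := by
  rw [← Set.ncard_union_add_ncard_inter (bd ν (X ∪ Y)), ← Set.ncard_union_add_ncard_inter (bd ν X)]
  refine Nat.add_le_add (Set.ncard_le_ncard ?_) (Set.ncard_le_ncard ?_)
  · rintro v (⟨⟨x, hx | hx, h1⟩, y, hy, h2⟩ | ⟨⟨x, hx, h1⟩, y, hy, h2⟩)
    · exact Or.inl ⟨⟨x, hx, h1⟩, y, fun h => hy (Or.inl h), h2⟩
    · exact Or.inr ⟨⟨x, hx, h1⟩, y, fun h => hy (Or.inr h), h2⟩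
    · by_cases hyX : y.1 ∈ X
      · exact Or.inr ⟨⟨x, hx.2, h1⟩, y, fun h => hy ⟨hyX, h⟩, h2⟩
      · exact Or.inl ⟨⟨x, hx.1, h1⟩, y, hyX, h2⟩
  · rintro v ⟨⟨-, y, hy, h2⟩, ⟨x, hx, h1⟩, -⟩
    exact ⟨⟨⟨x, hx.1, h1⟩, y, fun h => hy (Or.inl h), h2⟩,
      ⟨x, hx.2, h1⟩, y, fun h => hy (Or.inr h), h2⟩

theorem IsNet.sconn {N : E × Bool → Bool ⊕ V} (h : IsNet N) : SConn (clo N) := by
  refine ⟨h.2.1, fun x y => ?_⟩
  have key : ∀ z : Option E × Bool, Relation.EqvGen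
      (fun a b => clo N a = clo N b ∨ b = flp (Option E) a) z (z.1, true) := by
    intro z
    rcases netA_eq_or_flp (x := z) (y := (z.1, true)) rfl with h' | h'
    · rw [h']; exact Relation.EqvGen.refl _
    · exact Relation.EqvGen.rel _ _ (Or.inr h')
  by_contra hxy
  obtain ⟨a, ⟨⟨p, hp, hp'⟩, q, hq, hq'⟩, -⟩ := netA_exists_two h.2.2
    (X := {e | Relation.EqvGen (fun a b => clo N a = clo N b ∨ b = flp (Option E) a) x (e, true)})
    ⟨x.1, key x⟩ ⟨y.1, fun h' => hxy (Relation.EqvGen.trans _ _ _ h' (key y).symm)⟩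
  refine hq (Relation.EqvGen.trans _ _ _ hp (Relation.EqvGen.trans _ _ _ (key p).symm
    (Relation.EqvGen.trans _ _ _ (Relation.EqvGen.rel _ _ (Or.inl ?_)) (key q))))
  rw [hp', hq']

theorem IsNet.not_S_and_P {N : E × Bool → Bool ⊕ V} (h : IsNet N) : ¬(IsS N ∧ IsP N) := by
  rintro ⟨⟨X, h1, h2, h3⟩, Y, hY, hY', hb⟩
  obtain ⟨c, hc, hin, x, hx, hx'⟩ := netA_ser_par h h1 h2 hY hb
  obtain ⟨c', hc', hin', y, hy, hy'⟩ := netA_ser_par h h1 h2 hY' (netA_par_compl hb)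
  obtain ⟨z, hz⟩ := netA_pole h true
  have ht : Sum.inl true ∈ bd (clo N) (some '' X) :=
    netA_mem_bd_clo.mpr ⟨⟨z, h1 z hz, hz⟩, Or.inl ⟨_, rfl⟩⟩
  have hcc : c = c' := by
    by_contra hne
    have := (Set.two_lt_ncard (Set.toFinite _)).mpr ⟨_, ht, c, hc, c', hc',
      fun h' => hin ⟨_, h'⟩, fun h' => hin' ⟨_, h'⟩, hne⟩
    omega
  exact hin (hb (netA_mem_bd_clo.mpr ⟨⟨x, hx, hx'⟩, Or.inr ⟨y, hy, hcc ▸ hy'⟩⟩))

theorem IsNet.not_S_of_E {N : E × Bool → Bool ⊕ V} (h : IsNet N) (hE : IsE N) : ¬IsS N := by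
  rintro ⟨X, h1, h2, -⟩
  have := (Nat.card_eq_one_iff_unique.mp hE).1
  obtain ⟨x, hx⟩ := netA_pole h true
  obtain ⟨y, hy⟩ := netA_pole h false
  exact h2 y hy (Subsingleton.elim x.1 y.1 ▸ h1 x hx)

theorem IsNet.not_P_of_E {N : E × Bool → Bool ⊕ V} (h : IsNet N) (hE : IsE N) : ¬IsP N := by
  have _ := h
  rintro ⟨X, ⟨a, ha⟩, ⟨b, hb⟩, -⟩
  have := (Nat.card_eq_one_iff_unique.mp hE).1
  exact hb (Subsingleton.elim a b ▸ ha)

/-- a network that is not parallel has an edge between the poles iff it is a single edge -/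
theorem IsNet.noDir_iff {N : E × Bool → Bool ⊕ V} (h : IsNet N) (hP : ¬IsP N) :
    NoDir N ↔ ¬IsE N := by
  constructor
  · intro hD hE
    have := (Nat.card_eq_one_iff_unique.mp hE).1
    obtain ⟨x, hx⟩ := netA_pole h true
    obtain ⟨y, hy⟩ := netA_pole h false
    rcases netA_eq_or_flp (Subsingleton.elim y.1 x.1) with rfl | rfl
    · rw [hx] at hy
      simp at hy
    · exact hD x ⟨hx, hy⟩
  · rintro hE x ⟨h1, h2⟩
    refine hP ⟨{x.1}, ⟨_, rfl⟩, ?_, fun v hv => ?_⟩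
    · by_contra hc
      refine hE (Nat.card_eq_one_iff_exists.mpr ⟨x.1, fun e => ?_⟩)
      by_contra he
      exact hc ⟨e, he⟩
    · obtain ⟨y, hy, rfl⟩ := (netA_mem_bd_clo.mp hv).1
      rcases netA_eq_or_flp hy with rfl | rfl
      · exact ⟨_, h1.symm⟩
      · exact ⟨_, h2.symm⟩

theorem IsNet.deg_pole {N : E × Bool → Bool ⊕ V} (h : IsNet N) (b : Bool) :
    1 ≤ deg N (Sum.inl b) := by
  obtain ⟨x, hx⟩ := netA_pole h b
  have : Nonempty {x // N x = Sum.inl b} := ⟨⟨x, hx⟩⟩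
  exact Nat.card_pos

theorem IsNet.no_loop {N : E × Bool → Bool ⊕ V} (h : IsNet N) (x : Option E × Bool) :
    clo N (flp _ x) ≠ clo N x := by
  have := h.1
  exact (netA_other h.2.2 x).1

theorem IsNet.card_lt {N : E × Bool → Bool ⊕ V} (h : IsNet N) : Nat.card V < Nat.card E := by
  have := h.1
  have h1 := netA_handshake (clo N) (k := 2) fun v => by
    obtain ⟨x, rfl⟩ := h.2.1 v
    obtain ⟨y, hy, hy'⟩ := (netA_other h.2.2 x).2
    have : Nontrivial {z // clo N z = clo N x} :=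
      ⟨⟨⟨y, hy'⟩, ⟨x, rfl⟩, fun h' => hy (congrArg (fun z => z.1.1) h')⟩⟩
    exact Finite.one_lt_card
  rw [netA_card_darts, netA_card_verts] at h1
  omega

theorem isNet_swapP (N : E × Bool → Bool ⊕ V) : IsNet (swapP N) ↔ IsNet N :=
  ⟨fun h => netA_swapP_swapP N ▸ netA_isNet_swapP h, netA_isNet_swapP⟩

theorem simple_clo_iff {N : E × Bool → Bool ⊕ V} : Simple (clo N) ↔ Simple N ∧ NoDir N := by
  constructor
  · rintro ⟨h1, h2⟩
    refine ⟨⟨fun x => h1 (some x.1, x.2), fun x y a b => ?_⟩, fun x hx => ?_⟩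
    · have := h2 (some x.1, x.2) (some y.1, y.2) a b
      simp only [Prod.mk.injEq, Option.some.injEq] at this
      exact Prod.ext this.1 this.2
    · have := h2 (some x.1, x.2) (none, true) hx.1 hx.2
      simp at this
  · rintro ⟨⟨h1, h2⟩, h3⟩
    have key : ∀ (e : E) (b c : Bool), N (e, b) = Sum.inl c → N (e, !b) = Sum.inl (!c) → False := by
      intro e b c p q
      cases c
      · exact h3 (e, !b) ⟨q, by rw [netA_flp_mk, Bool.not_not]; exact p⟩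
      · exact h3 (e, b) ⟨p, q⟩
    refine ⟨?_, ?_⟩
    · rintro ⟨_ | e, b⟩
      · cases b <;> simp [netA_flp_mk, clo]
      · exact h1 (e, b)
    · rintro ⟨_ | e, b⟩ ⟨_ | e', b'⟩ p q
      · exact Prod.ext rfl (Sum.inl.inj p)
      · exact (key e' b' b p.symm q.symm).elim
      · exact (key e b b' p q).elim
      · have := h2 (e, b) (e', b') p q
        simp only [Prod.mk.injEq] at this
        rw [this.1, this.2]

theorem Core3.simple {t : E × Bool → Bool ⊕ V} (h : Core3 t) : Simple (clo t) := by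
  refine ⟨h.1.no_loop, fun x y p q => ?_⟩
  by_cases hxy : y.1 = x.1
  · rcases netA_eq_or_flp hxy with rfl | rfl
    · rfl
    · exact absurd p.symm (h.1.no_loop x)
  · refine (netA_three h hxy (clo t x) (clo t (flp _ x)) ?_).elim
    rintro v ⟨⟨z, hz | hz, rfl⟩, -⟩
    · rcases netA_eq_or_flp hz with rfl | rfl
      · exact Or.inl p.symm
      · exact Or.inr q.symm
    · rcases netA_eq_or_flp hz with rfl | rfl
      · exact Or.inl rfl
      · exact Or.inr rfl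

theorem Core3.three_le_deg {t : E × Bool → Bool ⊕ V} (h : Core3 t) (v : Bool ⊕ V) :
    3 ≤ deg (clo t) v := by
  have := h.1.1
  obtain ⟨x, rfl⟩ := h.1.2.1 v
  obtain ⟨y, hy, hy'⟩ := (netA_other h.1.2.2 x).2
  obtain ⟨z, hz, hz'⟩ : ∃ z : Option E × Bool, z.1 ∉ ({y.1, x.1} : Set (Option E)) ∧
      clo t z = clo t x := by
    by_contra hc
    refine netA_three h hy (clo t (flp _ y)) (clo t (flp _ x)) ?_
    rintro v ⟨⟨w, hw | hw, rfl⟩, w', h1, h2⟩
    · rcases netA_eq_or_flp hw with rfl | rfl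
      · exact (hc ⟨w', h1, h2.trans hy'⟩).elim
      · exact Or.inl rfl
    · rcases netA_eq_or_flp hw with rfl | rfl
      · exact (hc ⟨w', h1, h2⟩).elim
      · exact Or.inr rfl
  have e : deg (clo t) (clo t x) = {w | clo t w = clo t x}.ncard := rfl
  rw [e]
  refine (Set.two_lt_ncard (Set.toFinite _)).mpr ⟨x, rfl, y, hy', z, hz', ?_, ?_, ?_⟩
  · rintro rfl
    exact hy rfl
  · rintro rfl
    exact hz (Or.inr rfl)
  · rintro rfl
    exact hz (Or.inl rfl)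

theorem Core3.card_le {t : E × Bool → Bool ⊕ V} (h : Core3 t) :
    3 * Nat.card V + 4 ≤ 2 * Nat.card E := by
  have h1 := netA_handshake (clo t) h.three_le_deg
  rw [netA_card_darts, netA_card_verts] at h1
  omega

end basic

end Pool.Agent.Lib.MP_77dff5_pr
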