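import Pool.Agent.Lib.MP_77dff5_pr.VarA

/-! Variance tools on finite products: averages, Efron-Stein, uniform integrability. -/

set_option autoImplicit false

namespace Pool.Agent.Lib.MP_77dff5_pr

open MeasureTheory ProbabilityTheory Filter Topology
open scoped ENNReal NNReal

section general
variable {Ω I : Type} [Countable Ω] [MeasurableSpace Ω] [DiscreteMeasurableSpace Ω] [Fintype I]
  [DecidableEq I] (ν : I → Measure Ω) [∀ i, IsProbabilityMeasure (ν i)]

end general

section comb

variable {Ω J : Type} {Δ : ℕ} {B : ℝ}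

theorem varB_B_nonneg {c : Core Ω J} (hc : c.Good Δ B) : 0 ≤ B := by
  have h1 := (abs_nonneg _).trans hc.z0_le
  have h2 : (0 : ℝ) < c.k + 1 := by positivity
  exact nonneg_of_mul_nonneg_left h1 h2

theorem varB_mult {c : Core Ω J} (hc : c.Good Δ B) (i : c.I) :
    (Finset.univ.filter fun v => i ∈ c.dep v).card ≤ Δ := by
  have := hc.dep_mult i
  rwa [Nat.card_eq_fintype_card, Fintype.card_subtype] at this

theorem varB_g_update {c : Core Ω J} {v : c.W} {i : c.I} (hi : i ∉ c.dep v) (ω : c.I → Ω)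
    (η : Ω) : c.g v (Function.update ω i η) = c.g v ω :=
  c.g_dep v _ _ fun j hj => Function.update_of_ne (by rintro rfl; exact hi hj) _ _

theorem varB_g_diff {c : Core Ω J} (hc : c.Good Δ B) (U : Finset c.W) (ω : c.I → Ω) (i : c.I)
    (η : Ω) : |∑ v ∈ U, c.g v ω - ∑ v ∈ U, c.g v (Function.update ω i η)| ≤ 2 * Δ * B := by
  have hB := varB_B_nonneg hc
  rw [← Finset.sum_sub_distrib]
  refine (Finset.abs_sum_le_sum_abs _ _).trans ?_
  calc ∑ v ∈ U, |c.g v ω - c.g v (Function.update ω i η)|
      ≤ ∑ v, |c.g v ω - c.g v (Function.update ω i η)| :=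
        Finset.sum_le_sum_of_subset_of_nonneg (Finset.subset_univ _) fun _ _ _ => abs_nonneg _
    _ ≤ ∑ v, if i ∈ c.dep v then 2 * B else 0 := by
        refine Finset.sum_le_sum fun v _ => ?_
        split_ifs with hi
        · refine (abs_sub _ _).trans ?_
          linarith [hc.bd v ω, hc.bd v (Function.update ω i η)]
        · rw [varB_g_update hi, sub_self, abs_zero]
    _ = (Finset.univ.filter fun v => i ∈ c.dep v).card * (2 * B) := by
        rw [← Finset.sum_filter, Finset.sum_const, nsmul_eq_mul]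
    _ ≤ Δ * (2 * B) := by
        refine mul_le_mul_of_nonneg_right ?_ (by linarith)
        exact_mod_cast varB_mult hc i
    _ = 2 * Δ * B := by ring

theorem varB_sum_update {I : Type} [DecidableEq I] (z : Ω → ℝ) (K : Finset I) (ω : I → Ω) (i : I)
    (η : Ω) : ∑ j ∈ K, z (ω j) - ∑ j ∈ K, z (Function.update ω i η j) =
      if i ∈ K then z (ω i) - z η else 0 := by
  rw [← Finset.sum_sub_distrib]
  have : ∀ j ∈ K, z (ω j) - z (Function.update ω i η j) = if i = j then z (ω i) - z η else 0 := by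
    intro j _
    split_ifs with h
    · subst h
      rw [Function.update_self]
    · rw [Function.update_of_ne (Ne.symm h), sub_self]
  rw [Finset.sum_congr rfl this, Finset.sum_ite_eq]

theorem varB_additive (c : Core Ω J) (z : Ω → ℝ) (K : Finset c.I)
    (hK : ∀ v, ∀ i ∈ K, ∀ i' ∈ K, i ∈ c.dep v → i' ∈ c.dep v → i = i') (a b : c.I → Ω) :
    c.Z z (K.piecewise a b) =
      c.Z z b + ∑ i ∈ K, (c.Z z (Function.update b i (a i)) - c.Z z b) := by
  have h1 : ∀ i, c.Z z (Function.update b i (a i)) - c.Z z b =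
      (z (a i) - z (b i)) + ∑ v, (c.g v (Function.update b i (a i)) - c.g v b) := by
    intro i
    have := varB_sum_update z Finset.univ b i (a i)
    rw [if_pos (Finset.mem_univ i)] at this
    simp only [Core.Z, Finset.sum_sub_distrib]
    linarith
  have h2 : ∑ j, z (K.piecewise a b j) = ∑ j, z (b j) + ∑ i ∈ K, (z (a i) - z (b i)) := by
    have : ∀ j, z (K.piecewise a b j) = z (b j) + if j ∈ K then z (a j) - z (b j) else 0 := by
      intro j
      by_cases hj : j ∈ K
      · rw [Finset.piecewise_eq_of_mem _ _ _ hj, if_pos hj]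
        ring
      · rw [Finset.piecewise_eq_of_notMem _ _ _ hj, if_neg hj, add_zero]
    simp only [this, Finset.sum_add_distrib, Finset.sum_ite_mem, Finset.univ_inter]
  have h3 : ∀ v, c.g v (K.piecewise a b) =
      c.g v b + ∑ i ∈ K, (c.g v (Function.update b i (a i)) - c.g v b) := by
    intro v
    by_cases hv : ∃ i0 ∈ K, i0 ∈ c.dep v
    · obtain ⟨i0, h0, h0'⟩ := hv
      rw [Finset.sum_eq_single_of_mem i0 h0 fun i hi hne => by
        rw [varB_g_update fun hi' => hne (hK v i hi i0 h0 hi' h0'), sub_self], add_sub_cancel]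
      refine c.g_dep v _ _ fun j hj => ?_
      by_cases hj0 : j = i0
      · subst hj0
        rw [Finset.piecewise_eq_of_mem _ _ _ h0, Function.update_self]
      · rw [Function.update_of_ne hj0, Finset.piecewise_eq_of_notMem]
        exact fun hjK => hj0 (hK v j hjK i0 h0 hj h0')
    · push Not at hv
      rw [Finset.sum_eq_zero fun i hi => by rw [varB_g_update (hv i hi), sub_self], add_zero]
      exact c.g_dep v _ _ fun j hj => Finset.piecewise_eq_of_notMem _ _ _ fun hjK => hv j hjK hj
  simp only [h1, Finset.sum_add_distrib]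
  rw [Finset.sum_comm]
  simp only [Core.Z, h2, h3, Finset.sum_add_distrib]
  ring

end comb

variable {Ω J : Type} [Countable Ω] [MeasurableSpace Ω] [DiscreteMeasurableSpace Ω] [Fintype J]
  {ν : J → Measure Ω} {s : Ω → ℕ} {z : Ω → ℝ} {Δ : ℕ} {B : ℝ}

omit [Fintype J] in
theorem Core.isProb (hν : ∀ j, IsProbabilityMeasure (ν j)) (c : Core Ω J) :
    IsProbabilityMeasure (c.P ν) := by
  unfold Core.P
  infer_instance

omit [Fintype J] [Countable Ω] [DiscreteMeasurableSpace Ω] in
theorem varB_eval (hν : ∀ j, IsProbabilityMeasure (ν j)) (c : Core Ω J) (i : c.I) :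
    MeasurePreserving (fun ω : c.I → Ω => ω i) (c.P ν) (ν (c.cls i)) :=
  measurePreserving_eval (fun i => ν (c.cls i)) i

omit [Fintype J] in
theorem varB_memLp_g (hν : ∀ j, IsProbabilityMeasure (ν j)) {c : Core Ω J} (hc : c.Good Δ B)
    (v : c.W) (p : ℝ≥0∞) : MemLp (c.g v) p (c.P ν) := by
  have := c.isProb hν
  exact MemLp.of_bound Measurable.of_discrete.aestronglyMeasurable B
    (Eventually.of_forall fun ω => hc.bd v ω)

omit [Fintype J] [Countable Ω] in
theorem varB_integral_eval (hν : ∀ j, IsProbabilityMeasure (ν j)) (c : Core Ω J) (i : c.I)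
    (f : Ω → ℝ) : ∫ ω, f (ω i) ∂c.P ν = ∫ ω, f ω ∂ν (c.cls i) := by
  have h := varB_eval hν c i
  rw [← h.map_eq, integral_map h.measurable.aemeasurable
    (Measurable.of_discrete.aestronglyMeasurable)]

omit [Fintype J] in
theorem Core.integrable_Z (h : Slots1 ν s z) {c : Core Ω J} (hc : c.Good Δ B) :
    Integrable (c.Z z) (c.P ν) := by
  have := c.isProb h.prob
  unfold Core.Z
  refine ((integrable_const _).add (integrable_finsetSum _ fun i _ => ?_)).add
    (integrable_finsetSum _ fun v _ => ?_)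
  · exact (varB_eval h.prob c i).integrable_comp_of_integrable (h.int_z _)
  · exact memLp_one_iff_integrable.1 (varB_memLp_g h.prob hc v 1)

omit [Fintype J] in
theorem Core.memLp_Z (h : Slots ν s z) {c : Core Ω J} (hc : c.Good Δ B) :
    MemLp (c.Z z) 2 (c.P ν) := by
  have := c.isProb h.prob
  have h0 : MemLp (fun _ : c.I → Ω => c.z0) 2 (c.P ν) := memLp_const _
  have h1 : MemLp (fun ω : c.I → Ω => ∑ i, z (ω i)) 2 (c.P ν) :=
    memLp_finsetSum _ fun i _ => (h.mem_z _).comp_measurePreserving (varB_eval h.prob c i)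
  have h2 : MemLp (fun ω : c.I → Ω => ∑ v, c.g v ω) 2 (c.P ν) :=
    memLp_finsetSum _ fun v _ => varB_memLp_g h.prob hc v 2
  exact (h0.add h1).add h2

omit [Fintype J] in
theorem Core.integral_S (h : Slots1 ν s z) (c : Core Ω J) :
    Integrable (fun ω => (c.S s ω : ℝ)) (c.P ν) ∧ ∫ ω, (c.S s ω : ℝ) ∂c.P ν = c.mean ν s := by
  have := c.isProb h.prob
  have h1 : ∀ i, Integrable (fun ω : c.I → Ω => (s (ω i) : ℝ)) (c.P ν) := fun i =>
    (varB_eval h.prob c i).integrable_comp_of_integrable (h.int_s _)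
  have h2 := integrable_finsetSum Finset.univ fun i _ => h1 i
  simp only [Core.S, Nat.cast_add, Nat.cast_sum]
  refine ⟨(integrable_const _).add h2, ?_⟩
  rw [integral_add (integrable_const _) h2, integral_finsetSum _ fun i _ => h1 i, integral_const,
    probReal_univ, one_smul, Core.mean]
  congr 1
  exact Finset.sum_congr rfl fun i _ => varB_integral_eval h.prob c i fun ω => (s ω : ℝ)

omit [Fintype J] in
theorem Core.L_eq (h : Slots1 ν s z) {c : Core Ω J} (hc : c.Good Δ B) :
    c.L ν z = c.z0 + ∑ i, ∫ ω, z ω ∂ν (c.cls i) + ∑ v, ∫ ω, c.g v ω ∂c.P ν := by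
  have := c.isProb h.prob
  have h1 : ∀ i, Integrable (fun ω : c.I → Ω => z (ω i)) (c.P ν) := fun i =>
    (varB_eval h.prob c i).integrable_comp_of_integrable (h.int_z _)
  have h2 := integrable_finsetSum Finset.univ fun i _ => h1 i
  have h3 : ∀ v, Integrable (c.g v) (c.P ν) := fun v =>
    memLp_one_iff_integrable.1 (varB_memLp_g h.prob hc v 1)
  have h4 := integrable_finsetSum Finset.univ fun v _ => h3 v
  have h5 : Integrable (fun ω : c.I → Ω => c.z0 + ∑ i, z (ω i)) (c.P ν) :=
    (integrable_const _).add h2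
  simp only [Core.L, Core.Z]
  rw [integral_add h5 h4, integral_add (integrable_const _) h2,
    integral_finsetSum _ fun i _ => h1 i, integral_finsetSum _ fun v _ => h3 v, integral_const,
    probReal_univ, one_smul]
  congr 2
  exact Finset.sum_congr rfl fun i _ => varB_integral_eval h.prob c i z

theorem Core.abs_L_le (h : Slots1 ν s z) (Δ : ℕ) (B : ℝ) :
    ∃ C : ℝ, ∀ c : Core Ω J, c.Good Δ B → |c.L ν z| ≤ C * (c.k + 1) ∧
      c.mean ν s ≤ C * (c.k + 1) := by
  set M : ℝ := ∑ j, |∫ ω, z ω ∂ν j| with hM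
  set M' : ℝ := ∑ j, |∫ ω, (s ω : ℝ) ∂ν j| with hM'
  have M0 : 0 ≤ M := Finset.sum_nonneg fun _ _ => abs_nonneg _
  have M0' : 0 ≤ M' := Finset.sum_nonneg fun _ _ => abs_nonneg _
  refine ⟨B + M + Δ * B + Δ + M', fun c hc => ?_⟩
  have := c.isProb h.prob
  have hB := varB_B_nonneg hc
  have hk : (0 : ℝ) ≤ c.k := Nat.cast_nonneg _
  have hΔ : (0 : ℝ) ≤ Δ := Nat.cast_nonneg _
  have h1 : |∑ i, ∫ ω, z ω ∂ν (c.cls i)| ≤ c.k * M := by
    refine (Finset.abs_sum_le_sum_abs _ _).trans ((Finset.sum_le_card_nsmul _ _ M fun i _ => ?_).trans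
      (le_of_eq ?_))
    · exact Finset.single_le_sum (f := fun j => |∫ ω, z ω ∂ν j|) (fun _ _ => abs_nonneg _)
        (Finset.mem_univ _)
    · rw [nsmul_eq_mul, Finset.card_univ, Core.k]
  have h2 : ∑ i, ∫ ω, (s ω : ℝ) ∂ν (c.cls i) ≤ c.k * M' := by
    refine (Finset.sum_le_card_nsmul _ _ M' fun i _ => (le_abs_self _).trans ?_).trans
      (le_of_eq ?_)
    · exact Finset.single_le_sum (f := fun j => |∫ ω, (s ω : ℝ) ∂ν j|) (fun _ _ => abs_nonneg _)
        (Finset.mem_univ _)
    · rw [nsmul_eq_mul, Finset.card_univ, Core.k]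
  have h3 : |∑ v, ∫ ω, c.g v ω ∂c.P ν| ≤ Δ * (c.k + 1) * B := by
    refine (Finset.abs_sum_le_sum_abs _ _).trans ((Finset.sum_le_card_nsmul _ _ B fun v _ => ?_).trans
      ?_)
    · have := norm_integral_le_of_norm_le_const (μ := c.P ν) (f := c.g v) (C := B)
        (Eventually.of_forall fun ω => hc.bd v ω)
      rwa [probReal_univ, mul_one] at this
    · rw [nsmul_eq_mul, Finset.card_univ]
      refine mul_le_mul_of_nonneg_right ?_ hB
      exact_mod_cast hc.W_card
  have h4 : (c.s0 : ℝ) ≤ Δ * (c.k + 1) := by exact_mod_cast hc.s0_le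
  have h5 := hc.z0_le
  have hΔB : 0 ≤ Δ * B := mul_nonneg hΔ hB
  constructor
  · rw [Core.L_eq h hc]
    refine (abs_add_le _ _).trans ((add_le_add_left (abs_add_le _ _) _).trans ?_)
    nlinarith [mul_nonneg hΔ hk, mul_nonneg M0' hk]
  · rw [Core.mean]
    nlinarith [mul_nonneg hB hk, mul_nonneg M0 hk, mul_nonneg hΔB hk]

/-- a part of the total value -/
def Core.Y {Ω J : Type} (c : Core Ω J) (z : Ω → ℝ) (K : Finset c.I) (U : Finset c.W)
    (ω : c.I → Ω) : ℝ := ∑ i ∈ K, z (ω i) + ∑ v ∈ U, c.g v ω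

theorem Core.var_Y_le (h : Slots ν s z) (Δ : ℕ) (B : ℝ) :
    ∃ C : ℝ, ∀ c : Core Ω J, c.Good Δ B → ∀ K U,
      MemLp (c.Y z K U) 2 (c.P ν) ∧ Var[c.Y z K U; c.P ν] ≤ C * c.k := by
  set M : ℝ := ∑ j, ∫ ω, z ω ^ 2 ∂ν j with hM
  have hsq : ∀ j, Integrable (fun ω => z ω ^ 2) (ν j) := fun j => (h.mem_z j).integrable_sq
  have hMj : ∀ j, ∫ ω, z ω ^ 2 ∂ν j ≤ M := fun j =>
    Finset.single_le_sum (f := fun j => ∫ ω, z ω ^ 2 ∂ν j)
      (fun _ _ => integral_nonneg fun _ => sq_nonneg _) (Finset.mem_univ j)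
  set D : ℝ := 3 * (2 * Δ * B) ^ 2 with hD
  refine ⟨(6 * M + D) / 2, fun c hc K U => ?_⟩
  have hP := c.isProb h.prob
  have hp := h.prob
  have hY : MemLp (c.Y z K U) 2 (c.P ν) := by
    unfold Core.Y
    refine (memLp_finsetSum _ fun i _ => ?_).add (memLp_finsetSum _ fun v _ => ?_)
    · exact (h.mem_z _).comp_measurePreserving (varB_eval h.prob c i)
    · exact varB_memLp_g h.prob hc v 2
  refine ⟨hY, (efron_stein (fun i => ν (c.cls i)) _ hY).trans ?_⟩
  have key : ∀ i, ∫ ω, ∫ η, (c.Y z K U ω - c.Y z K U (Function.update ω i η)) ^ 2 ∂ν (c.cls i)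
      ∂c.P ν ≤ 6 * M + D := by
    intro i
    have hpt : ∀ ω η, (c.Y z K U ω - c.Y z K U (Function.update ω i η)) ^ 2 ≤
        3 * z (ω i) ^ 2 + D + 3 * z η ^ 2 := by
      intro ω η
      have e1 := varB_sum_update z K ω i η
      have e2 := varB_g_diff hc U ω i η
      set G := ∑ v ∈ U, c.g v ω - ∑ v ∈ U, c.g v (Function.update ω i η) with hG
      have e3 : G ^ 2 ≤ (2 * Δ * B) ^ 2 := sq_le_sq' (abs_le.1 e2).1 (abs_le.1 e2).2
      have e4 : c.Y z K U ω - c.Y z K U (Function.update ω i η) =
          (if i ∈ K then z (ω i) - z η else 0) + G := by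
        rw [← e1, hG]
        unfold Core.Y
        ring
      rw [e4, hD]
      split_ifs
      · nlinarith [sq_nonneg (z (ω i) + z η), sq_nonneg (z (ω i) - G), sq_nonneg (z η + G)]
      · nlinarith [sq_nonneg (z (ω i)), sq_nonneg (z η), sq_nonneg G]
    have hin : ∀ ω, ∫ η, (c.Y z K U ω - c.Y z K U (Function.update ω i η)) ^ 2 ∂ν (c.cls i) ≤
        3 * z (ω i) ^ 2 + (D + 3 * M) := by
      intro ω
      refine (integral_mono_of_nonneg (Eventually.of_forall fun _ => sq_nonneg _)
        ((integrable_const _).add ((hsq _).const_mul 3))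
        (Eventually.of_forall fun η => hpt ω η)).trans ?_
      simp only [Pi.add_apply]
      rw [integral_add (integrable_const _) ((hsq _).const_mul 3), integral_const, probReal_univ,
        one_smul, integral_const_mul]
      linarith [hMj (c.cls i)]
    have hi : Integrable (fun ω : c.I → Ω => z (ω i) ^ 2) (c.P ν) :=
      (varB_eval h.prob c i).integrable_comp_of_integrable (hsq _)
    refine (integral_mono_of_nonneg
      (Eventually.of_forall fun _ => integral_nonneg fun _ => sq_nonneg _)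
      ((hi.const_mul 3).add (integrable_const (D + 3 * M))) (Eventually.of_forall hin)).trans ?_
    simp only [Pi.add_apply]
    rw [integral_add (hi.const_mul 3) (integrable_const _), integral_const, probReal_univ,
      one_smul, integral_const_mul, varB_integral_eval h.prob c i fun ω => z ω ^ 2]
    linarith [hMj (c.cls i)]
  have := Finset.sum_le_card_nsmul Finset.univ _ _ fun i _ => key i
  rw [nsmul_eq_mul, Finset.card_univ] at this
  change 1 / 2 * ∑ i, ∫ ω, ∫ η, (c.Y z K U ω - c.Y z K U (Function.update ω i η)) ^ 2 ∂ν (c.cls i)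
    ∂c.P ν ≤ (6 * M + D) / 2 * (Fintype.card c.I : ℝ)
  linarith

theorem Core.Q_le (h : Slots ν s z) (Δ : ℕ) (B : ℝ) :
    ∃ C : ℝ, ∀ c : Core Ω J, c.Good Δ B → c.Q ν z ≤ C * c.k := by
  obtain ⟨C, hC⟩ := Core.var_Y_le h Δ B
  refine ⟨C, fun c hc => ?_⟩
  have := c.isProb h.prob
  obtain ⟨h1, h2⟩ := hC c hc Finset.univ Finset.univ
  have e : c.Z z = fun ω => c.z0 + c.Y z Finset.univ Finset.univ ω :=
    funext fun ω => add_assoc _ _ _
  rw [Core.Q, e, variance_const_add h1.aestronglyMeasurable]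
  exact h2

omit [Fintype J] in
/-- lower bound of the variance from slots that do not interact -/
theorem Core.le_Q (h : Slots ν s z) {c : Core Ω J} (hc : c.Good Δ B) (K : Finset c.I)
    (hK : ∀ v, ∀ i ∈ K, ∀ i' ∈ K, i ∈ c.dep v → i' ∈ c.dep v → i = i') (v0 : ℝ)
    (hv : ∀ i ∈ K, ∀ ω, v0 ≤ Var[fun η => c.Z z (Function.update ω i η); ν (c.cls i)]) :
    K.card * v0 ≤ c.Q ν z := by
  have hP := c.isProb h.prob
  have hp := h.prob
  have hZ := Core.memLp_Z h hc
  have hmp : MeasurePreserving (fun p : (c.I → Ω) × (c.I → Ω) => K.piecewise p.1 p.2)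
      ((c.P ν).prod (c.P ν)) (c.P ν) := measurePreserving_piecewise (fun i => ν (c.cls i)) K
  set L := ∫ ω, c.Z z ω ∂c.P ν with hL
  have hsq : Integrable (fun ω => (c.Z z ω - L) ^ 2) (c.P ν) :=
    (hZ.sub (memLp_const L)).integrable_sq
  have hsq2 : Integrable (fun p : (c.I → Ω) × (c.I → Ω) => (c.Z z (K.piecewise p.1 p.2) - L) ^ 2)
      ((c.P ν).prod (c.P ν)) := hmp.integrable_comp_of_integrable hsq
  have e1 : c.Q ν z = ∫ b, ∫ a, (c.Z z (K.piecewise a b) - L) ^ 2 ∂c.P ν ∂c.P ν := by
    rw [Core.Q, variance_eq_integral hZ.aestronglyMeasurable.aemeasurable,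
      ← integral_prod_symm _ hsq2, ← hL]
    conv_lhs => rw [← hmp.map_eq]
    rw [integral_map hmp.measurable.aemeasurable Measurable.of_discrete.aestronglyMeasurable]
  have hupd : ∀ b i, MemLp (fun η => c.Z z (Function.update b i η)) 2 (ν (c.cls i)) := by
    intro b i
    have e : (fun η => c.Z z (Function.update b i η)) = fun η => z η +
        (c.z0 + ∑ j, z (b j) - z (b i) + ∑ v, c.g v (Function.update b i η)) := by
      funext η
      have := varB_sum_update z Finset.univ b i η
      rw [if_pos (Finset.mem_univ i)] at this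
      simp only [Core.Z]
      linarith
    rw [e]
    have h0 : MemLp (fun _ : Ω => c.z0 + ∑ j, z (b j) - z (b i)) 2 (ν (c.cls i)) := memLp_const _
    have h2 : MemLp (fun η : Ω => ∑ v, c.g v (Function.update b i η)) 2 (ν (c.cls i)) :=
      memLp_finsetSum _ fun v _ => MemLp.of_bound Measurable.of_discrete.aestronglyMeasurable B
        (Eventually.of_forall fun η => hc.bd v _)
    exact (h.mem_z _).add (h0.add h2)
  have key : ∀ b, K.card * v0 ≤ ∫ a, (c.Z z (K.piecewise a b) - L) ^ 2 ∂c.P ν := by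
    intro b
    set X : c.I → Ω → ℝ := fun i η =>
      if i ∈ K then c.Z z (Function.update b i η) - c.Z z b else 0 with hX
    have hXm : ∀ i, MemLp (X i) 2 (ν (c.cls i)) := fun i => by
      by_cases hi : i ∈ K
      · simp only [hX, if_pos hi]
        exact (hupd b i).sub (memLp_const _)
      · simp only [hX, if_neg hi]
        exact memLp_const _
    have h1 := variance_sum_pi (μ := fun i => ν (c.cls i)) hXm
    have h2 : (fun a => c.Z z (K.piecewise a b) - L) =
        fun a => (c.Z z b - L) + (∑ i, fun ω : c.I → Ω => X i (ω i)) a := by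
      funext a
      rw [varB_additive c z K hK a b, Finset.sum_apply]
      simp only [hX, Finset.sum_ite_mem, Finset.univ_inter]
      ring
    have h3 := variance_le_expectation_sq (μ := c.P ν) (X := fun a => c.Z z (K.piecewise a b) - L)
      Measurable.of_discrete.aestronglyMeasurable
    refine le_trans ?_ h3
    rw [h2, variance_const_add Measurable.of_discrete.aestronglyMeasurable]
    refine le_trans ?_ h1.ge
    refine le_trans ?_ (Finset.sum_le_sum_of_subset_of_nonneg (Finset.subset_univ K)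
      fun i _ _ => variance_nonneg _ _)
    rw [← nsmul_eq_mul]
    refine Finset.card_nsmul_le_sum _ _ _ fun i hi => ?_
    simp only [hX, if_pos hi]
    rw [variance_sub_const Measurable.of_discrete.aestronglyMeasurable]
    exact hv i hi b
  rw [e1]
  have := integral_mono (integrable_const (K.card * v0 : ℝ)) hsq2.integral_prod_right key
  rwa [integral_const, probReal_univ, one_smul] at this

omit [Countable Ω] [MeasurableSpace Ω] [DiscreteMeasurableSpace Ω] [Fintype J] in
/-- a colouring in which slots of one colour do not interact -/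
theorem Core.exists_colouring {c : Core Ω J} (hc : c.Good Δ B) :
    ∃ col : c.I → Fin (Δ * Δ + 1),
      ∀ v, ∀ i ∈ c.dep v, ∀ i' ∈ c.dep v, col i = col i' → i = i' := by
  have key : ∀ S : Finset c.I, ∃ col : c.I → Fin (Δ * Δ + 1),
      ∀ v, ∀ i ∈ c.dep v, ∀ i' ∈ c.dep v, i ∈ S → i' ∈ S → col i = col i' → i = i' := by
    intro S
    induction S using Finset.induction_on with
    | empty => exact ⟨fun _ => 0, fun _ _ _ _ _ hi => absurd hi (Finset.notMem_empty _)⟩
    | insert a S ha ih =>
      obtain ⟨col, hcol⟩ := ih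
      set N := (Finset.univ.filter fun v => a ∈ c.dep v).biUnion c.dep with hN
      have h1 : N.card ≤ Δ * Δ := by
        refine Finset.card_biUnion_le.trans ((Finset.sum_le_card_nsmul _ _ Δ
          fun v _ => hc.dep_card v).trans ?_)
        rw [smul_eq_mul]
        exact Nat.mul_le_mul_right _ (varB_mult hc a)
      obtain ⟨x, -, hx⟩ := Finset.exists_mem_notMem_of_card_lt_card
        (s := N.image col) (t := Finset.univ) (by
          rw [Finset.card_univ, Fintype.card_fin]
          exact Nat.lt_succ_of_le (Finset.card_image_le.trans h1))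
      have h2 : ∀ v, a ∈ c.dep v → ∀ i ∈ c.dep v, col i ≠ x := fun v hv i hi e =>
        hx (Finset.mem_image.2 ⟨i, Finset.mem_biUnion.2
          ⟨v, Finset.mem_filter.2 ⟨Finset.mem_univ _, hv⟩, hi⟩, e⟩)
      refine ⟨Function.update col a x, fun v i hi i' hi' h3 h4 e => ?_⟩
      by_cases e1 : i = a <;> by_cases e2 : i' = a
      · rw [e1, e2]
      · subst e1
        rw [Function.update_self, Function.update_of_ne e2] at e
        exact absurd e.symm (h2 v hi i' hi')
      · subst e2
        rw [Function.update_self, Function.update_of_ne e1] at e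
        exact absurd e (h2 v hi' i hi)
      · rw [Function.update_of_ne e1, Function.update_of_ne e2] at e
        exact hcol v i hi i' hi' ((Finset.mem_insert.1 h3).resolve_left e1)
          ((Finset.mem_insert.1 h4).resolve_left e2) e
  obtain ⟨col, hcol⟩ := key Finset.univ
  exact ⟨col, fun v i hi i' hi' => hcol v i hi i' hi' (Finset.mem_univ _) (Finset.mem_univ _)⟩

end Pool.Agent.Lib.MP_77dff5_pr
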