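import Pool.Agent.Lib.MP_77dff5_pr.UDefs
import Pool.Agent.Lib.MP_77dff5_pr.VarB
import Pool.Agent.Lib.MP_77dff5_pr.NetA

/-! The core of a graph: size, mean value, solvability. -/

set_option autoImplicit false

namespace Pool.Agent.Lib.MP_77dff5_pr

open MeasureTheory ProbabilityTheory Filter Topology
open scoped ENNReal NNReal

variable {Ω J : Type} [Countable Ω] [MeasurableSpace Ω] [DiscreteMeasurableSpace Ω]
  {ν : J → Measure Ω} {s a b c : Ω → ℕ} {z : Ω → ℝ} {jD jV : J} {f : ℕ → ℝ} {k0 : ℕ}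

omit [Countable Ω] in
/-- distinct coordinates, each transformed by its own map, are independent -/
theorem tcoreA_map_pi {I K : Type} [Fintype I] [Fintype K] (μ : I → Measure Ω)
    [∀ i, IsProbabilityMeasure (μ i)] {φ : K → I} (hφ : Function.Injective φ) (T : K → Ω → Ω) :
    (Measure.pi μ).map (fun ω k => T k (ω (φ k))) = Measure.pi fun k => (μ (φ k)).map (T k) := by
  have h1 : iIndepFun (fun i (ω : I → Ω) => ω i) (Measure.pi μ) :=
    iIndepFun_pi (X := fun _ => id) fun _ => aemeasurable_id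
  have hT : ∀ k, Measurable (T k) := fun k => Measurable.of_discrete
  have h2 : iIndepFun (fun k (ω : I → Ω) => T k (ω (φ k))) (Measure.pi μ) :=
    (h1.precomp hφ).comp T hT
  refine (h2.map_fun_eq_pi_map fun k =>
    ((hT k).comp (measurable_pi_apply _)).aemeasurable).trans ?_
  congr 1
  funext k
  rw [← (measurePreserving_eval μ (φ k)).map_eq, Measure.map_map (hT k) (measurable_pi_apply _)]

/-- the same with one distinguished coordinate -/
theorem tcoreA_map_prod {I K : Type} [Fintype I] [Fintype K] (μ : I → Measure Ω)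
    [∀ i, IsProbabilityMeasure (μ i)] (i0 : I) {φ : K → I} (hφ : Function.Injective φ)
    (h0 : ∀ k, φ k ≠ i0) (T : K → Ω → Ω) :
    (Measure.pi μ).map (fun ω => (ω i0, fun k => T k (ω (φ k)))) =
      (μ i0).prod (Measure.pi fun k => (μ (φ k)).map (T k)) := by
  have hφ' : Function.Injective fun o : Option K => o.elim i0 φ := by
    rintro (_ | k) (_ | k') h
    · rfl
    · exact absurd h.symm (h0 k')
    · exact absurd h (h0 k)
    · exact congrArg some (hφ h)
  have h := tcoreA_map_pi μ hφ' fun o : Option K => o.elim id T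
  refine Measure.ext_of_singleton fun p => ?_
  obtain ⟨x, y⟩ := p
  have h1 := congrArg (fun m : Measure (Option K → Ω) => m {fun o => o.elim x y}) h
  simp only [Measure.pi_singleton, Fintype.prod_option, Option.elim, Measure.map_id] at h1
  rw [← Set.singleton_prod_singleton, Measure.prod_prod, Measure.pi_singleton, ← h1,
    Measure.map_apply Measurable.of_discrete MeasurableSet.of_discrete,
    Measure.map_apply Measurable.of_discrete MeasurableSet.of_discrete]
  congr 1
  ext ω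
  simp only [Set.mem_preimage, Set.mem_prod, Set.mem_singleton_iff, funext_iff, Option.forall]
  rfl

omit [Countable Ω] [MeasurableSpace Ω] [DiscreteMeasurableSpace Ω] in
theorem tcore_k (t : NG) (s0 : ℕ) (z0 : ℝ) : (Tcore a b c jD jV f k0 t s0 z0).k = t.1 + t.2.1 := by
  have h : (Tcore a b c jD jV f k0 t s0 z0).k = Fintype.card (Fin t.1 ⊕ Fin t.2.1) := rfl
  rw [h, Fintype.card_sum, Fintype.card_fin, Fintype.card_fin]

omit [Countable Ω] [MeasurableSpace Ω] [DiscreteMeasurableSpace Ω] in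
theorem tcoreA_mem_dep (t : NG) (s0 : ℕ) (z0 : ℝ) (v : Fin t.2.1) (i : Fin t.1 ⊕ Fin t.2.1) :
    i ∈ (Tcore a b c jD jV f k0 t s0 z0).dep v ↔ deg t.2.2 (.inr v) ≤ k0 ∧
      i.elim (fun e => ∃ d, t.2.2 (e, d) = .inr v) fun u => u = v := by
  classical
  by_cases hv : deg t.2.2 (.inr v) ≤ k0
  · simp only [Tcore, hv, if_true, true_and]
    exact ⟨fun h => (Finset.mem_filter.1 h).2, fun h => Finset.mem_filter.2 ⟨Finset.mem_univ _, h⟩⟩
  · simp only [Tcore, hv, if_false, false_and, iff_false]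
    exact Finset.notMem_empty _

omit [Countable Ω] [MeasurableSpace Ω] [DiscreteMeasurableSpace Ω] in
theorem tcoreA_g (t : NG) (s0 : ℕ) (z0 : ℝ) (v : Fin t.2.1) (ω : Fin t.1 ⊕ Fin t.2.1 → Ω) :
    (Tcore a b c jD jV f k0 t s0 z0).g v ω =
      if deg t.2.2 (.inr v) ≤ k0 then f (c (ω (.inr v)) + poleSum a b t ω (.inr v))
      else f (k0 + 1) := rfl

omit [Countable Ω] [MeasurableSpace Ω] [DiscreteMeasurableSpace Ω] in
theorem tcoreA_g_bd {B : ℝ} (hf : ∀ d, |f d| ≤ B) (t : NG) (s0 : ℕ) (z0 : ℝ) (v : Fin t.2.1)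
    (ω : Fin t.1 ⊕ Fin t.2.1 → Ω) : |(Tcore a b c jD jV f k0 t s0 z0).g v ω| ≤ B := by
  rw [tcoreA_g]
  split_ifs <;> exact hf _

omit [Countable Ω] [MeasurableSpace Ω] [DiscreteMeasurableSpace Ω] in
theorem tcore_good {Δ : ℕ} {B : ℝ} (hf : ∀ d, |f d| ≤ B) (hΔ : k0 + 2 ≤ Δ) (t : NG) {s0 : ℕ}
    {z0 : ℝ} (hs : s0 ≤ Δ * (t.1 + t.2.1 + 1)) (hz : |z0| ≤ B * (t.1 + t.2.1 + 1)) :
    (Tcore a b c jD jV f k0 t s0 z0).Good Δ B := by
  classical
  refine ⟨fun v ω => tcoreA_g_bd hf t s0 z0 v ω, fun v => ?_, fun i => ?_, ?_, ?_, ?_⟩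
  · by_cases hv : deg t.2.2 (.inr v) ≤ k0
    · have h1 : (Tcore a b c jD jV f k0 t s0 z0).dep v ⊆
          insert (Sum.inr v) ((Finset.univ.filter fun x => t.2.2 x = .inr v).image
            fun x => (Sum.inl x.1 : Fin t.1 ⊕ Fin t.2.1)) := by
        intro i hi
        have h2 := ((tcoreA_mem_dep t s0 z0 v i).1 hi).2
        rcases i with e | u
        · obtain ⟨d, hd⟩ := h2
          exact Finset.mem_insert_of_mem
            (Finset.mem_image.2 ⟨(e, d), Finset.mem_filter.2 ⟨Finset.mem_univ _, hd⟩, rfl⟩)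
        · obtain rfl : u = v := h2
          exact Finset.mem_insert_self _ _
      have h3 : (Finset.univ.filter fun x => t.2.2 x = .inr v).card = deg t.2.2 (.inr v) := by
        rw [deg, Nat.card_eq_fintype_card, Fintype.card_subtype]
      have h4 := (Finset.card_le_card h1).trans (Finset.card_insert_le _ _)
      have h5 := h4.trans (Nat.add_le_add_right Finset.card_image_le 1)
      omega
    · have h1 : (Tcore a b c jD jV f k0 t s0 z0).dep v = ∅ :=
        Finset.eq_empty_of_forall_notMem fun i hi => hv ((tcoreA_mem_dep t s0 z0 v i).1 hi).1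
      rw [h1, Finset.card_empty]
      exact Nat.zero_le _
  · refine le_trans ?_ (show 2 ≤ Δ by omega)
    rcases i with e | u
    · have h1 : ∀ v : {v // Sum.inl e ∈ (Tcore a b c jD jV f k0 t s0 z0).dep v},
          ∃ d, t.2.2 (e, d) = .inr v.1 := fun v => ((tcoreA_mem_dep t s0 z0 v.1 _).1 v.2).2
      choose d hd using h1
      have h2 : Function.Injective d := fun v v' h => by
        have h3 := hd v
        rw [h, hd v'] at h3
        exact Subtype.ext (Sum.inr.inj h3).symm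
      have h4 := Nat.card_le_card_of_injective d h2
      rwa [Nat.card_eq_fintype_card (α := Bool), Fintype.card_bool] at h4
    · have h1 : ∀ v : {v // Sum.inr u ∈ (Tcore a b c jD jV f k0 t s0 z0).dep v}, u = v.1 :=
        fun v => ((tcoreA_mem_dep t s0 z0 v.1 _).1 v.2).2
      have h2 : Function.Injective
          fun _ : {v // Sum.inr u ∈ (Tcore a b c jD jV f k0 t s0 z0).dep v} => true :=
        fun v v' _ => Subtype.ext ((h1 v).symm.trans (h1 v'))
      have h4 := Nat.card_le_card_of_injective _ h2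
      rwa [Nat.card_eq_fintype_card (α := Bool), Fintype.card_bool] at h4
  · have h1 : Fintype.card (Tcore a b c jD jV f k0 t s0 z0).W = t.2.1 := Fintype.card_fin _
    rw [h1, tcore_k]
    calc t.2.1 ≤ 1 * (t.1 + t.2.1 + 1) := by omega
      _ ≤ Δ * (t.1 + t.2.1 + 1) := Nat.mul_le_mul_right _ (by omega)
  · rw [tcore_k]
    exact hs
  · rw [tcore_k, Nat.cast_add]
    exact hz

omit [Countable Ω] [MeasurableSpace Ω] [DiscreteMeasurableSpace Ω] in
theorem tcoreA_cnt [DecidableEq J] (t : NG) (s0 : ℕ) (z0 : ℝ) (j : J) :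
    (Tcore a b c jD jV f k0 t s0 z0).cnt j =
      (if jD = j then t.1 else 0) + if jV = j then t.2.1 else 0 := by
  have h : (Tcore a b c jD jV f k0 t s0 z0).cnt j =
      Nat.card {i : Fin t.1 ⊕ Fin t.2.1 // Sum.elim (fun _ => jD) (fun _ => jV) i = j} := rfl
  rw [h, Nat.card_eq_fintype_card, Fintype.card_subtype, Finset.card_filter, Fintype.sum_sum_type]
  by_cases h1 : jD = j <;> by_cases h2 : jV = j <;> simp [h1, h2]

omit [Countable Ω] [MeasurableSpace Ω] [DiscreteMeasurableSpace Ω] in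
theorem tcore_cnt (h : jD ≠ jV) (t : NG) (s0 : ℕ) (z0 : ℝ) :
    (Tcore a b c jD jV f k0 t s0 z0).cnt jD = t.1 ∧ (Tcore a b c jD jV f k0 t s0 z0).cnt jV = t.2.1 ∧
      ∀ j, j ≠ jD → j ≠ jV → (Tcore a b c jD jV f k0 t s0 z0).cnt j = 0 := by
  classical
  refine ⟨?_, ?_, fun j h1 h2 => ?_⟩
  · rw [tcoreA_cnt, if_pos rfl, if_neg h.symm, add_zero]
  · rw [tcoreA_cnt, if_neg h, if_pos rfl, zero_add]
  · rw [tcoreA_cnt, if_neg h1.symm, if_neg h2.symm]

omit [Countable Ω] [MeasurableSpace Ω] [DiscreteMeasurableSpace Ω] in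
theorem tcoreA_sum_cls (t : NG) (s0 : ℕ) (z0 : ℝ) (φ : J → ℝ) :
    ∑ i, φ ((Tcore a b c jD jV f k0 t s0 z0).cls i) = t.1 * φ jD + t.2.1 * φ jV := by
  have h : ∑ i, φ ((Tcore a b c jD jV f k0 t s0 z0).cls i) =
      ∑ i : Fin t.1 ⊕ Fin t.2.1, φ (Sum.elim (fun _ => jD) (fun _ => jV) i) := rfl
  rw [h, Fintype.sum_sum_type]
  simp

omit [Countable Ω] [DiscreteMeasurableSpace Ω] in
theorem tcore_mean (t : NG) (s0 : ℕ) (z0 : ℝ) : (Tcore a b c jD jV f k0 t s0 z0).mean ν s =
    s0 + t.1 * ∫ ω, (s ω : ℝ) ∂ν jD + t.2.1 * ∫ ω, (s ω : ℝ) ∂ν jV := by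
  rw [Core.mean, tcoreA_sum_cls t s0 z0 fun j => ∫ ω, (s ω : ℝ) ∂ν j, add_assoc]
  rfl

omit [Countable Ω] [MeasurableSpace Ω] [DiscreteMeasurableSpace Ω] in
theorem EvC.bdd (hf : EvC f k0) : ∃ B : ℝ, ∀ d, |f d| ≤ B := by
  refine ⟨∑ d ∈ Finset.range (k0 + 2), |f d|, fun d => ?_⟩
  have h : ∀ d ∈ Finset.range (k0 + 2), |f d| ≤ ∑ d ∈ Finset.range (k0 + 2), |f d| :=
    fun d hd => Finset.single_le_sum (f := fun d => |f d|) (fun _ _ => abs_nonneg _) hd
  by_cases hd : k0 < d
  · rw [hf d hd]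
    exact h _ (Finset.mem_range.2 (by omega))
  · exact h _ (Finset.mem_range.2 (by omega))

/-- bounded functions are integrable -/
theorem tcoreA_integrable {X : Type} [MeasurableSpace X] [DiscreteMeasurableSpace X]
    (μ : Measure X) [IsFiniteMeasure μ] {g : X → ℝ} {B : ℝ} (hg : ∀ x, |g x| ≤ B) :
    Integrable g μ :=
  Integrable.of_bound Measurable.of_discrete.aestronglyMeasurable B (ae_of_all _ hg)

/-- the mean of the local term at an inner vertex depends on its degree only -/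
theorem tcoreA_integral_g (hν : ∀ j, IsProbabilityMeasure (ν j)) (hs : SymD (ν jD) a b z) (t : NG)
    (ht : ∀ x, t.2.2 (flp _ x) ≠ t.2.2 x) (s0 : ℕ) (z0 : ℝ) (v : Fin t.2.1) :
    ∫ ω, (Tcore a b c jD jV f k0 t s0 z0).g v ω ∂(Tcore a b c jD jV f k0 t s0 z0).P ν =
      ell (ν jD) (ν jV) a c f k0 (deg t.2.2 (.inr v)) := by
  classical
  obtain ⟨sw, h1, h2, -, -⟩ := hs
  let μ : Fin t.1 ⊕ Fin t.2.1 → Measure Ω := fun i => ν (Sum.elim (fun _ => jD) (fun _ => jV) i)
  have : ∀ i, IsProbabilityMeasure (μ i) := fun i => hν _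
  change ∫ ω : Fin t.1 ⊕ Fin t.2.1 → Ω, (if deg t.2.2 (.inr v) ≤ k0 then
    f (c (ω (.inr v)) + poleSum a b t ω (.inr v)) else f (k0 + 1)) ∂Measure.pi μ = _
  rw [ell]
  by_cases hv : deg t.2.2 (.inr v) ≤ k0
  · simp only [if_pos hv]
    let e : Fin (deg t.2.2 (.inr v)) ≃ {x // t.2.2 x = .inr v} := (Finite.equivFin _).symm
    let φ : Fin (deg t.2.2 (.inr v)) → Fin t.1 ⊕ Fin t.2.1 := fun k => .inl (e k).1.1
    let T : Fin (deg t.2.2 (.inr v)) → Ω → Ω := fun k => if (e k).1.2 then id else sw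
    have hφ : Function.Injective φ := fun k k' hk => by
      rcases netA_eq_or_flp (Sum.inl.inj hk) with h3 | h3
      · exact e.injective (Subtype.ext h3)
      · exact absurd (by rw [← h3, (e k).2, (e k').2]) (ht (e k').1)
    have hm := tcoreA_map_prod μ (.inr v) hφ (fun k => Sum.inl_ne_inr) T
    have hT : (fun k => (μ (φ k)).map (T k)) = fun _ => ν jD := by
      funext k
      by_cases hk : (e k).1.2 = true
      · simp only [T, hk, if_true, Measure.map_id]
        rfl
      · simp only [T, hk]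
        exact h1
    rw [hT] at hm
    have hm' : (ν jV).prod (Measure.pi fun _ : Fin (deg t.2.2 (.inr v)) => ν jD) =
        (Measure.pi μ).map fun ω => (ω (.inr v), fun k => T k (ω (φ k))) := hm.symm
    rw [hm', integral_map Measurable.of_discrete.aemeasurable
      Measurable.of_discrete.aestronglyMeasurable]
    refine integral_congr_ae (ae_of_all _ fun ω => ?_)
    have h4 : poleSum a b t ω (.inr v) = ∑ k, a (T k (ω (φ k))) := by
      unfold poleSum
      rw [← Finset.sum_filter, Finset.sum_subtype (p := fun x => t.2.2 x = .inr v) _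
        (fun x => by simp), ← e.sum_comp]
      refine Finset.sum_congr rfl fun k _ => ?_
      by_cases hk : (e k).1.2 = true
      · simp only [T, φ, hk, if_true, id]
      · simp only [T, φ, if_neg hk, h2]
    simp only [h4]
  · simp only [if_neg hv]
    rw [integral_const, probReal_univ, one_smul]

theorem tcore_L (h : Slots1 ν s z) (hf : EvC f k0) (hs : SymD (ν jD) a b z) (t : NG)
    (ht : ∀ x, t.2.2 (flp _ x) ≠ t.2.2 x) (s0 : ℕ) (z0 : ℝ) :
    (Tcore a b c jD jV f k0 t s0 z0).L ν z = z0 + t.1 * ∫ ω, z ω ∂ν jD + t.2.1 * ∫ ω, z ω ∂ν jV +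
      Fl (ell (ν jD) (ν jV) a c f k0) t := by
  obtain ⟨B, hB⟩ := hf.bdd
  have := h.prob
  set C := Tcore a b c jD jV f k0 t s0 z0 with hC
  have : IsProbabilityMeasure (C.P ν) := by unfold Core.P; infer_instance
  have hz : ∀ i : C.I, MeasurePreserving (fun ω : C.I → Ω => ω i) (C.P ν) (ν (C.cls i)) :=
    fun i => measurePreserving_eval (fun i => ν (C.cls i)) i
  have h1 : ∀ i : C.I, Integrable (fun ω : C.I → Ω => z (ω i)) (C.P ν) :=
    fun i => (hz i).integrable_comp_of_integrable (h.int_z _)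
  have h2 : ∀ v : C.W, Integrable (C.g v) (C.P ν) := fun v =>
    tcoreA_integrable _ fun ω => tcoreA_g_bd hB t s0 z0 v ω
  have h3 : ∀ i : C.I, ∫ ω, z (ω i) ∂C.P ν = ∫ ω, z ω ∂ν (C.cls i) := fun i => by
    rw [← (hz i).map_eq, integral_map (hz i).aemeasurable
      Measurable.of_discrete.aestronglyMeasurable]
  have h4 : Integrable (fun ω : C.I → Ω => ∑ i, z (ω i)) (C.P ν) :=
    integrable_finsetSum _ fun i _ => h1 i
  have h5 : Integrable (fun ω : C.I → Ω => ∑ v, C.g v ω) (C.P ν) :=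
    integrable_finsetSum _ fun v _ => h2 v
  have h6 : Integrable (fun ω : C.I → Ω => C.z0 + ∑ i, z (ω i)) (C.P ν) :=
    (integrable_const _).add h4
  unfold Core.L Core.Z
  rw [integral_add h6 h5, integral_add (integrable_const _) h4, integral_const, probReal_univ,
    one_smul, integral_finsetSum _ fun i _ => h1 i, integral_finsetSum _ fun v _ => h2 v,
    Finset.sum_congr rfl fun i _ => h3 i, tcoreA_sum_cls t s0 z0 fun j => ∫ ω, z ω ∂ν j,
    ← add_assoc]
  congr 1
  exact Finset.sum_congr rfl fun v _ => tcoreA_integral_g h.prob hs t ht s0 z0 v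

omit [Countable Ω] [MeasurableSpace Ω] [DiscreteMeasurableSpace Ω] in
theorem Fl_add_const (l : ℕ → ℝ) (β : ℝ) (t : NG) :
    Fl (fun d => l d + β) t = Fl l t + β * t.2.1 := by
  simp only [Fl, Finset.sum_add_distrib, Finset.sum_const, Finset.card_univ, Fintype.card_fin,
    nsmul_eq_mul, mul_comm]

omit [Countable Ω] [DiscreteMeasurableSpace Ω] in
theorem evC_ell (μD μV : Measure Ω) : EvC (ell μD μV a c f k0) k0 := fun d hd => by
  rw [ell, ell, if_neg (by omega), if_neg (by omega)]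

theorem ell_add_const {μD μV : Measure Ω} [IsProbabilityMeasure μD] [IsProbabilityMeasure μV]
    (hf : EvC f k0) (β : ℝ) (d : ℕ) :
    ell μD μV a c (fun d => f d + β) k0 d = ell μD μV a c f k0 d + β := by
  obtain ⟨B, hB⟩ := hf.bdd
  unfold ell
  split_ifs
  · rw [integral_add (tcoreA_integrable _ fun _ => hB _) (integrable_const _), integral_const,
      probReal_univ, one_smul]
  · rfl

/-- changing `f` at one point -/
theorem tcoreA_ell_single {μD μV : Measure Ω} [IsProbabilityMeasure μD] [IsProbabilityMeasure μV]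
    (hf : EvC f k0) (j : ℕ) (δ : ℝ) {d : ℕ} (hd : d ≤ k0) :
    ell μD μV a c (fun n => f n + if n = j then δ else 0) k0 d = ell μD μV a c f k0 d +
      (μV.prod (Measure.pi fun _ : Fin d => μD)).real {p | c p.1 + ∑ i, a (p.2 i) = j} * δ := by
  obtain ⟨B, hB⟩ := hf.bdd
  have h1 : (fun p : Ω × (Fin d → Ω) => if c p.1 + ∑ i, a (p.2 i) = j then δ else 0) =
      Set.indicator {p | c p.1 + ∑ i, a (p.2 i) = j} fun _ => δ := by
    funext p
    simp only [Set.indicator, Set.mem_ofPred_eq]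
  rw [ell, ell, if_pos hd, if_pos hd, integral_add (tcoreA_integrable _ fun _ => hB _)
    (tcoreA_integrable _ (B := |δ|) fun _ => by split_ifs <;> simp), h1,
    integral_indicator_const _ MeasurableSet.of_discrete, smul_eq_mul]

/-- triangular solvability -/
theorem exists_ell_eq {μD μV : Measure Ω} [IsProbabilityMeasure μD] [IsProbabilityMeasure μV]
    (h1 : ∀ᵐ ω ∂μD, 1 ≤ a ω) (h2 : μD {ω | a ω = 1} ≠ 0) (h3 : μV {ω | c ω = 0} ≠ 0) {l : ℕ → ℝ}
    (hl : EvC l k0) : ∃ f : ℕ → ℝ, EvC f k0 ∧ ell μD μV a c f k0 = l := by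
  have hlow : ∀ j d : ℕ, j < d →
      (μV.prod (Measure.pi fun _ : Fin d => μD)).real {p | c p.1 + ∑ i, a (p.2 i) = j} = 0 := by
    intro j d hjd
    have h4 : ∀ᵐ y ∂(Measure.pi fun _ : Fin d => μD), ∀ i, 1 ≤ a (y i) :=
      ae_all_iff.2 fun i =>
        (measurePreserving_eval (fun _ : Fin d => μD) i).quasiMeasurePreserving.ae h1
    have h5 : ∀ᵐ p ∂μV.prod (Measure.pi fun _ : Fin d => μD), ∀ i, 1 ≤ a (p.2 i) :=
      Measure.quasiMeasurePreserving_snd.ae h4
    rw [measureReal_eq_zero_iff]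
    refine measure_mono_null ?_ (ae_iff.1 h5)
    intro p hp hp'
    have h6 : ∑ _i : Fin d, 1 ≤ ∑ i, a (p.2 i) := Finset.sum_le_sum fun i _ => hp' i
    have h7 : c p.1 + ∑ i, a (p.2 i) = j := hp
    simp only [Finset.sum_const, Finset.card_univ, Fintype.card_fin, smul_eq_mul, mul_one] at h6
    omega
  have hpos : ∀ d : ℕ,
      (μV.prod (Measure.pi fun _ : Fin d => μD)).real {p | c p.1 + ∑ i, a (p.2 i) = d} ≠ 0 := by
    intro d hd
    rw [measureReal_eq_zero_iff] at hd
    have h4 : {ω | c ω = 0} ×ˢ (Set.univ.pi fun _ : Fin d => {ω | a ω = 1}) ⊆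
        {p : Ω × (Fin d → Ω) | c p.1 + ∑ i, a (p.2 i) = d} := by
      rintro p ⟨hp1, hp2⟩
      have h5 : c p.1 = 0 := hp1
      have h6 : ∀ i, a (p.2 i) = 1 := fun i => hp2 i (Set.mem_univ i)
      simp [h5, h6]
    have h7 := measure_mono_null h4 hd
    rw [Measure.prod_prod, Measure.pi_pi] at h7
    exact mul_ne_zero h3 (Finset.prod_ne_zero_iff.2 fun _ _ => h2) h7
  have key : ∀ n j : ℕ, j + n = k0 + 1 →
      ∃ f : ℕ → ℝ, EvC f k0 ∧ ∀ d, j ≤ d → ell μD μV a c f k0 d = l d := by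
    intro n
    induction n with
    | zero =>
      intro j hj
      refine ⟨fun _ => l (k0 + 1), fun _ _ => rfl, fun d hd => ?_⟩
      rw [ell, if_neg (by omega), hl d (by omega)]
    | succ n ih =>
      intro j hj
      obtain ⟨g, hg, hg'⟩ := ih (j + 1) (by omega)
      refine ⟨fun n => g n + if n = j then (l j - ell μD μV a c g k0 j) /
        (μV.prod (Measure.pi fun _ : Fin j => μD)).real {p | c p.1 + ∑ i, a (p.2 i) = j} else 0,
        fun d hd => ?_, fun d hd => ?_⟩
      · simp only [if_neg (show d ≠ j by omega), if_neg (show k0 + 1 ≠ j by omega), hg d hd]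
      · by_cases hdk : d ≤ k0
        · rw [tcoreA_ell_single hg j _ hdk]
          rcases hd.eq_or_lt with rfl | hlt
          · rw [mul_div_cancel₀ _ (hpos j)]
            ring
          · rw [hlow j d hlt, zero_mul, add_zero]
            exact hg' d hlt
        · have h8 := hg' d (by omega)
          rw [ell, if_neg hdk] at h8 ⊢
          simp only [if_neg (show k0 + 1 ≠ j by omega), add_zero]
          exact h8
  obtain ⟨g, hg, hg'⟩ := key (k0 + 1) 0 (by omega)
  exact ⟨g, hg, funext fun d => hg' d (Nat.zero_le d)⟩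

end Pool.Agent.Lib.MP_77dff5_pr
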