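import Pool.Agent.Lib.MP_77dff5_pr.ABase
import Pool.Agent.Lib.MP_77dff5_pr.TCoreA

/-! Model A: real weights of the families, goodness. -/

set_option autoImplicit false

namespace Pool.Agent.Lib.MP_77dff5_pr

open MeasureTheory ProbabilityTheory Filter Topology
open scoped ENNReal NNReal

variable {w : ℝ} {f : ℕ → ℝ} {k0 : ℕ}

/-- the masses of the slot classes -/
noncomputable def asysMass (w : ℝ) : JA → ℝ
  | .M => Mw w
  | .D => tauw w
  | .nS => tauw w - Sw w
  | .nP => tauw w / (1 + tauw w)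
  | .V => xw w

theorem asys_mass (hw : 0 < w) (j : JA) : ∑' ω, wA w j ω = ENNReal.ofReal (asysMass w j) := by
  obtain ⟨h1, h2, h3, h4, h5, -⟩ := massA hw
  cases j
  exacts [h1, h2, h3, h4, h5]

theorem asys_mass_pos (hw : 0 < w) (j : JA) : 0 < asysMass w j := by
  obtain ⟨h1, -, -, h4, -, h6, h7, -, -⟩ := crit_pos hw
  cases j
  · show 0 < Mw w
    linarith
  · exact h4
  · show 0 < tauw w - Sw w
    linarith
  · show 0 < tauw w / (1 + tauw w)
    positivity
  · exact h1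

theorem asys_w (hw : 0 < w) (f : ℕ → ℝ) (k0 : ℕ) (lam mu : ℝ) (k : KA)
    (t : (FA w f k0 lam mu k).T) : ((FA w f k0 lam mu k).w t : ℝ) =
      ((ufA (ENNReal.ofReal (xw w)) (ENNReal.ofReal (yw w)) f k0 lam mu k).w t).toReal *
        ∏ i, asysMass w (((FA w f k0 lam mu k).core t).cls i) := by
  show ENNReal.toReal (_ * _) = _
  rw [ENNReal.toReal_mul, ENNReal.toReal_prod]
  congr 1
  refine Finset.prod_congr rfl fun i _ => ?_
  rw [asys_mass hw, ENNReal.toReal_ofReal (asys_mass_pos hw _).le]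
  rfl

theorem asys_c (hw : 0 < w) (j : JA) (k : KA) :
    (cA w j k : ℝ) = if incA j k then (asysMass w j)⁻¹ else 0 := by
  unfold cA
  split_ifs
  · show ENNReal.toReal _ = _
    rw [ENNReal.toReal_inv, asys_mass hw, ENNReal.toReal_ofReal (asys_mass_pos hw _).le]
  · rfl

theorem asys_wP (hw : 0 < w) (f : ℕ → ℝ) (k0 : ℕ) (lam mu : ℝ) (j : ℕ) :
    ((FA w f k0 lam mu .P).w j : ℝ) = (tauw w / (1 + tauw w)) ^ (j + 2) := by
  rw [asys_w hw]
  show ENNReal.toReal 1 * ∏ _i : Fin (j + 2), asysMass w .nP = _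
  rw [Finset.prod_const, Finset.card_univ, Fintype.card_fin, ENNReal.toReal_one, one_mul]
  rfl

theorem asys_r (hw : 0 < w) : 0 < tauw w / (1 + tauw w) ∧ tauw w / (1 + tauw w) < 1 := by
  obtain ⟨-, -, -, h4, -⟩ := crit_pos hw
  exact ⟨by positivity, (div_lt_one (by linarith)).2 (by linarith)⟩

theorem asys_geom {r : ℝ} (h0 : 0 < r) (h1 : r < 1) (a : ℕ) :
    Summable fun j : ℕ => r ^ (j + 2) * ((j + 2 : ℕ) : ℝ) ^ a := by
  have h := summable_pow_mul_geometric_of_norm_lt_one (R := ℝ) a (r := r)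
    (by rw [Real.norm_of_nonneg h0.le]; exact h1)
  have h2 := (summable_nat_add_iff 2).2 h
  exact h2.congr fun j => mul_comm _ _

theorem asys_evC0 : EvC (fun _ => (0 : ℝ)) 0 := fun _ _ => rfl

theorem asys_s0 (t : TT) : t.1.1 ≤ 3 * (t.1.1 - t.1.2.1 - 1) ∧ t.1.2.1 ≤ t.1.1 ∧
    1 ≤ t.1.1 - t.1.2.1 - 1 := by
  obtain ⟨-, h1, -, h2, -⟩ := TT_facts t
  omega

/-- the mean number of edges of a core is finite -/
theorem asys_sum1 (hw : 0 < w) : Summable fun t => (wTw w t : ℝ) * posm t := by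
  have hE := eqnA (ENNReal.ofReal (xw w)) (ENNReal.ofReal (yw w)) (fun _ => 0) 0 0 0 asys_evC0 .H
    fun p => (p.1 : ℝ≥0∞)
  have hint := (slots1_A hw asys_evC0 0 0).int_s .D
  have h1 : ∑' ω, wA w .D ω * (sA ω : ℝ≥0∞) ≠ ⊤ := by
    rw [← lintegral_meas, meas_eq_smul_nrm (massA_ne hw .D).1 (massA_ne hw .D).2,
      lintegral_smul_measure, smul_eq_mul]
    refine ENNReal.mul_ne_top (massA_ne hw .D).2 ?_
    have h2 := hint.2
    rw [hasFiniteIntegral_iff_ofReal (ae_of_all _ fun ω => Nat.cast_nonneg _)] at h2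
    simp only [ENNReal.ofReal_natCast] at h2
    exact h2.ne
  have h3 : ∑' ω, lhsA (ENNReal.ofReal (xw w)) (ENNReal.ofReal (yw w)) .H ω * (sA ω : ℝ≥0∞) ≤
      ∑' ω, wA w .D ω * (sA ω : ℝ≥0∞) := by
    refine ENNReal.tsum_le_tsum fun ω => ?_
    gcongr
    rw [wA, partA .D (by decide) ω]
    have := Finset.single_le_sum (f := fun k => if incA .D k then
      lhsA (ENNReal.ofReal (xw w)) (ENNReal.ofReal (yw w)) k ω else 0)
      (fun _ _ => zero_le) (Finset.mem_univ KA.H)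
    simpa [incA] using this
  have h4 : ∑' t : TT, ((2 * wTw w t * (t.1.1 - t.1.2.1 - 1 : ℕ) : ℝ≥0) : ℝ≥0∞) ≤
      ∑' ω, wA w .D ω * (sA ω : ℝ≥0∞) := by
    refine le_trans ?_ h3
    rw [hE]
    refine ENNReal.tsum_le_tsum fun t => ?_
    rw [← FA_H_w hw (fun _ => 0) 0 0 0 t, ENNReal.coe_mul]
    have hfin : (ufA (ENNReal.ofReal (xw w)) (ENNReal.ofReal (yw w)) (fun _ => 0) 0 0 0 .H).w t *
        ∏ i, ∑' ω, wA w (((ufA (ENNReal.ofReal (xw w)) (ENNReal.ofReal (yw w))
          (fun _ => 0) 0 0 0 .H).core t).cls i) ω ≠ ⊤ := by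
      refine ENNReal.mul_ne_top ?_ (ENNReal.prod_ne_top fun i _ => (massA_ne hw _).2)
      refine ENNReal.mul_ne_top (by norm_num) ?_
      refine ENNReal.inv_ne_top.2 ?_
      rw [Nat.cast_ne_zero]
      positivity
    have h5 : (((FA w (fun _ => 0) 0 0 0 .H).w t : ℝ≥0) : ℝ≥0∞) = _ := ENNReal.coe_toNNReal hfin
    rw [h5, mul_assoc]
    gcongr
    rw [← tsum_pi_prod, ← ENNReal.tsum_mul_right]
    refine ENNReal.tsum_le_tsum fun ω => ?_
    refine mul_le_mul' le_rfl ?_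
    rw [ENNReal.coe_natCast]
    exact Nat.cast_le.2 (Nat.le_add_right _ _)
  have h6 := ENNReal.tsum_coe_ne_top_iff_summable_coe.1 (ne_top_of_le_ne_top h1 h4)
  refine (h6.mul_left (3 / 2)).of_nonneg_of_le
    (fun t => mul_nonneg (wTw w t).coe_nonneg (Nat.cast_nonneg _)) fun t => ?_
  have h7 : (t.1.1 : ℝ) ≤ 3 * ((t.1.1 - t.1.2.1 - 1 : ℕ) : ℝ) := by
    exact_mod_cast (asys_s0 t).1
  have h8 := (wTw w t).coe_nonneg
  simp only [posm, NNReal.coe_mul, NNReal.coe_natCast, NNReal.coe_ofNat]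
  nlinarith

theorem asys_small {r Δ : ℕ} {B : ℝ} (cls : Fin r → JA) {s0 : ℕ} {z0 : ℝ}
    {g : (Fin r → Om) → ℝ} (hg : ∀ ω, |g ω| ≤ B) (hr : r ≤ Δ) (h1 : 1 ≤ Δ) (hs : s0 ≤ 1)
    (hz : |z0| ≤ B) : (Core.small r cls s0 z0 g).Good Δ B := by
  have hB : 0 ≤ B := (abs_nonneg _).trans hz
  refine ⟨fun _ ω => hg ω, fun _ => ?_, fun i => ?_, ?_, ?_, ?_⟩
  · show (Finset.univ : Finset (Fin r)).card ≤ Δ
    simpa using hr
  · refine le_trans ?_ h1
    refine (Finite.card_subtype_le _).trans ?_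
    show Nat.card Unit ≤ 1
    simp
  · show Fintype.card Unit ≤ _
    rw [Fintype.card_unit]
    nlinarith
  · show s0 ≤ _
    nlinarith
  · show |z0| ≤ _
    have : (0 : ℝ) ≤ (Core.small r cls s0 z0 g).k := Nat.cast_nonneg _
    nlinarith

theorem asys_free {Δ : ℕ} {B : ℝ} (I : Type) [Fintype I] [DecidableEq I] (cls : I → JA) {s0 : ℕ}
    {z0 : ℝ} (hs : s0 ≤ Δ * (Fintype.card I + 1)) (hz : |z0| ≤ B * (Fintype.card I + 1)) :
    (Core.free (Ω := Om) I cls s0 z0).Good Δ B := by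
  refine ⟨fun v => v.elim, fun v => v.elim, fun i => ?_, ?_, hs, hz⟩
  · refine le_trans (Finite.card_subtype_le _) ?_
    show Nat.card Empty ≤ _
    simp
  · show Fintype.card Empty ≤ _
    simp

theorem asys_good (hw : 0 < w) {B : ℝ} (hf : ∀ d, |f d| ≤ B) {lam mu : ℝ}
    (hB : |lam| + |mu| ≤ B) (k : KA) : (FA w f k0 lam mu k).Good (k0 + 3) B := by
  have hl := abs_nonneg lam
  have hm := abs_nonneg mu
  have hB0 : 0 ≤ B := by linarith
  have hlm : |lam - mu| ≤ B := (abs_sub lam mu).trans hB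
  have h0 : |(0 : ℝ)| ≤ B := by simpa using hB0
  cases k
  · refine ⟨fun t => ?_, ?_⟩
    · change Fin 4 at t
      fin_cases t
      · exact asys_free Empty _ (by simp) (by simpa using hB0)
      · exact asys_small _ (fun _ => h0) (by omega) (by omega) le_rfl hlm
      · exact asys_small _ (fun _ => hf _) (by omega) (by omega) (by omega) (by linarith)
      · exact asys_small _ (fun _ => hf _) (by omega) (by omega) le_rfl hlm
    · have : Finite (FA w f k0 lam mu .M).T := inferInstanceAs (Finite (Fin 4))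
      exact Summable.of_finite
  · refine ⟨fun t => ?_, ?_⟩
    · exact asys_small _ (fun _ => h0) (by omega) (by omega) (by omega) (by linarith)
    · have : Finite (FA w f k0 lam mu .E).T := inferInstanceAs (Finite Unit)
      exact Summable.of_finite
  · refine ⟨fun t => ?_, ?_⟩
    · exact asys_small _ (fun _ => hf _) (by omega) (by omega) (by omega) h0
    · have : Finite (FA w f k0 lam mu .S).T := inferInstanceAs (Finite Unit)
      exact Summable.of_finite
  · refine ⟨fun t => ?_, ?_⟩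
    · change ℕ at t
      refine asys_free (Fin (t + 2)) _ ?_ ?_
      · rw [Fintype.card_fin]
        nlinarith
      · rw [Fintype.card_fin, abs_neg, abs_mul, abs_of_nonneg (a := (t : ℝ) + 1) (by positivity)]
        push_cast
        have : (0 : ℝ) ≤ t := Nat.cast_nonneg _
        nlinarith
    · obtain ⟨hr0, hr1⟩ := asys_r hw
      refine ((asys_geom hr0 hr1 1).add (asys_geom hr0 hr1 0)).congr fun j => ?_
      rw [asys_wP hw]
      have : ((FA w f k0 lam mu .P).core j).k = j + 2 := Fintype.card_fin _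
      rw [this]
      ring
  · refine ⟨fun t => ?_, ?_⟩
    · change TT at t
      refine tcore_good hf (by omega) t.1 ?_ ?_
      · have : t.1.1 - t.1.2.1 - 1 ≤ t.1.1 + t.1.2.1 + 1 := by omega
        nlinarith
      · rw [abs_neg, abs_mul, Nat.abs_cast]
        have h1 : ((t.1.1 - t.1.2.1 - 1 : ℕ) : ℝ) ≤ (t.1.1 : ℝ) + t.1.2.1 + 1 := by
          have : t.1.1 - t.1.2.1 - 1 ≤ t.1.1 + t.1.2.1 + 1 := by omega
          exact_mod_cast this
        gcongr
        linarith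
    · refine ((asys_sum1 hw).mul_left 6).of_nonneg_of_le (fun t => by positivity) fun t => ?_
      change TT at t
      have h1 : ((FA w f k0 lam mu .H).core t).k = t.1.1 + t.1.2.1 := tcore_k t.1 _ _
      rw [FA_H_w hw, h1]
      obtain ⟨h2, h3, h4⟩ := asys_s0 t
      have h5 : ((t.1.1 + t.1.2.1 : ℕ) : ℝ) + 1 ≤ 3 * (t.1.1 : ℝ) := by
        have : t.1.1 + t.1.2.1 + 1 ≤ 3 * t.1.1 := by omega
        exact_mod_cast this
      have h8 := (wTw w t).coe_nonneg
      simp only [posm, NNReal.coe_mul, NNReal.coe_ofNat]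
      nlinarith

theorem asys_light (hw : 0 < w) (lam mu : ℝ) (k : KA) (hk : k ≠ .H) : Summable fun t =>
    ((FA w f k0 lam mu k).w t : ℝ) * (((FA w f k0 lam mu k).core t).k : ℝ) ^ 6 := by
  cases k
  · have : Finite (FA w f k0 lam mu .M).T := inferInstanceAs (Finite (Fin 4))
    exact Summable.of_finite
  · have : Finite (FA w f k0 lam mu .E).T := inferInstanceAs (Finite Unit)
    exact Summable.of_finite
  · have : Finite (FA w f k0 lam mu .S).T := inferInstanceAs (Finite Unit)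
    exact Summable.of_finite
  · obtain ⟨hr0, hr1⟩ := asys_r hw
    refine (asys_geom hr0 hr1 6).congr fun j => ?_
    rw [asys_wP hw]
    have : ((FA w f k0 lam mu .P).core j).k = j + 2 := Fintype.card_fin _
    rw [this]
  · exact absurd rfl hk

theorem asys_heavy (hw : 0 < w) {B : ℝ} (hf : ∀ d, |f d| ≤ B) {lam mu : ℝ}
    (hB : |lam| + |mu| ≤ B) (h6 : 6 ≤ B) :
    (FA w f k0 lam mu .H).Heavy (nuA w) sA .D (k0 + 3) B := by
  have hk : ∀ t : TT, ((FA w f k0 lam mu .H).core t).k = t.1.1 + t.1.2.1 := fun t => tcore_k t.1 _ _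
  have hm : ∀ t : TT, ((t.1.1 - t.1.2.1 - 1 : ℕ) : ℝ) ≤
      ((FA w f k0 lam mu .H).core t).mean (nuA w) sA := fun t =>
    le_add_of_nonneg_right (Finset.sum_nonneg fun i _ => integral_nonneg fun ω => Nat.cast_nonneg _)
  refine ⟨asys_good hw hf hB .H, fun t => ?_, fun t => ?_, fun t => ?_, fun t => ?_⟩
  · change TT at t
    have h1 : ((FA w f k0 lam mu .H).core t).cnt .D = t.1.1 := (tcore_cnt (by decide) t.1 _ _).1
    rw [hk, h1]
    obtain ⟨h2, h3, h4⟩ := asys_s0 t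
    nlinarith
  · change TT at t
    refine le_trans ?_ (hm t)
    exact_mod_cast (asys_s0 t).2.2
  · change TT at t
    rw [hk]
    obtain ⟨h2, h3, h4⟩ := asys_s0 t
    omega
  · change TT at t
    rw [hk]
    obtain ⟨h2, h3, h4⟩ := asys_s0 t
    have h5 : ((t.1.1 + t.1.2.1 : ℕ) : ℝ) ≤ 6 * ((t.1.1 - t.1.2.1 - 1 : ℕ) : ℝ) := by
      have : t.1.1 + t.1.2.1 ≤ 6 * (t.1.1 - t.1.2.1 - 1) := by omega
      exact_mod_cast this
    have h7 := hm t
    have h8 : (0 : ℝ) ≤ ((t.1.1 - t.1.2.1 - 1 : ℕ) : ℝ) := Nat.cast_nonneg _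
    nlinarith

end Pool.Agent.Lib.MP_77dff5_pr
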