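import Pool.Agent.Lib.MP_77dff5_pr.ABase
import Pool.Agent.Lib.MP_77dff5_pr.TCoreA
import Pool.Agent.Lib.MP_77dff5_pr.ASysAux1

/-! Model A is a subcritical system. -/

set_option autoImplicit false

namespace Pool.Agent.Lib.MP_77dff5_pr

open MeasureTheory ProbabilityTheory Filter Topology
open scoped ENNReal NNReal

variable {w mu c σ2 : ℝ} {f : ℕ → ℝ} {k0 : ℕ}

theorem goodA (hw : 0 < w) (hf : EvC f k0) (lam mu : ℝ) : ∃ (Δ : ℕ) (B : ℝ),
    (∀ k, (FA w f k0 lam mu k).Good Δ B) ∧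
    (∀ k, k ≠ .H → Summable fun t =>
      ((FA w f k0 lam mu k).w t : ℝ) * (((FA w f k0 lam mu k).core t).k : ℝ) ^ 6) ∧
    (FA w f k0 lam mu .H).Heavy (nuA w) sA .D Δ B := by
  obtain ⟨B, hB⟩ := hf.bdd
  have h0 : 0 ≤ B := (abs_nonneg _).trans (hB 0)
  have hl := abs_nonneg lam
  have hm := abs_nonneg mu
  have h1 : ∀ d, |f d| ≤ B + |lam| + |mu| + 6 := fun d => by linarith [hB d]
  have h2 : |lam| + |mu| ≤ B + |lam| + |mu| + 6 := by linarith
  exact ⟨k0 + 3, B + |lam| + |mu| + 6, asys_good hw h1 h2, asys_light hw lam mu,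
    asys_heavy hw h1 h2 (by linarith)⟩

/-- the families that count edges -/
noncomputable abbrev asysF (w : ℝ) (k : KA) : Fam Om JA := FA w (fun _ => 0) 0 1 0 k

/-- mean number of edges of a slot -/
noncomputable def asysE (w : ℝ) (j : JA) : ℝ := ∫ ω, zz sA (fun _ => 0) 1 0 ω ∂nuA w j

/-- total number of edges of a family -/
noncomputable def asysD (w : ℝ) (k : KA) : ℝ :=
  ∫ p, p.2 ∂(asysF w k).law (nuA w) sA (zz sA (fun _ => 0) 1 0)

theorem asysE_nonneg (j : JA) : 0 ≤ asysE w j :=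
  integral_nonneg fun ω => by simp [zz, FO_const]

theorem asys_g (k : KA) (t : (asysF w k).T) (v : ((asysF w k).core t).W)
    (ω : ((asysF w k).core t).I → Om) : ((asysF w k).core t).g v ω = 0 := by
  cases k
  · change Fin 4 at t
    fin_cases t
    · exact v.elim
    · rfl
    · rfl
    · rfl
  · rfl
  · rfl
  · exact v.elim
  · exact ite_self _

theorem asys_good0 (hw : 0 < w) (k : KA) : (asysF w k).Good (0 + 3) 1 :=
  asys_good hw (fun _ => by simp) (by simp) k

theorem asysD_eq (hw : 0 < w) (k : KA) : asysD w k =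
    ∑' t, ((asysF w k).w t : ℝ) * ((asysF w k).core t).z0 +
      ∑ j, (asysF w k).acoef j * asysE w j :=
  (Fam.integral_law (slots1_A hw asys_evC0 1 0) (asys_good0 hw k)).2.2.2 (asys_g k)

theorem asysD_eq' (hw : 0 < w) (k : KA) : asysD w k =
    ∑' t, ((asysF w k).w t : ℝ) *
      (((asysF w k).core t).z0 + ∑ i, asysE w (((asysF w k).core t).cls i)) := by
  rw [asysD_eq hw, famA_tsum_lin (asys_good0 hw k) fun t => ((asys_good0 hw k).good t).z0_le]

theorem asysE_eq (hw : 0 < w) (j : JA) (hj : j ≠ .V) :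
    asysE w j = ∑ k, (cA w j k : ℝ) * asysD w k := by
  have h1 : asysE w j = ∫ p, p.2 ∂slaw (nuA w j) sA (zz sA (fun _ => 0) 1 0) := by
    rw [slaw, integral_map (measurable_from_top).aemeasurable measurable_snd.aestronglyMeasurable]
    rfl
  rw [h1, lawA hw asys_evC0 1 0 j hj, src, integral_finsetSum_measure fun k _ =>
    (Fam.integral_law (slots1_A hw asys_evC0 1 0) (asys_good0 hw k)).2.1.smul_measure_nnreal]
  refine Finset.sum_congr rfl fun k _ => ?_
  rw [integral_smul_nnreal_measure]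
  rfl

theorem asys_z0 (k : KA) (t : (asysF w k).T) : 0 ≤ ((asysF w k).core t).z0 := by
  cases k
  · change Fin 4 at t
    fin_cases t
    · exact le_rfl
    · show (0 : ℝ) ≤ 1 - 0
      norm_num
    · show (0 : ℝ) ≤ 1
      norm_num
    · show (0 : ℝ) ≤ 1 - 0
      norm_num
  · show (0 : ℝ) ≤ 1
    norm_num
  · exact le_rfl
  · show (0 : ℝ) ≤ -(0 * _)
    simp
  · show (0 : ℝ) ≤ -(0 * _)
    simp

theorem asys_Z_nonneg (k : KA) :
    0 ≤ ∑' t, ((asysF w k).w t : ℝ) * ((asysF w k).core t).z0 :=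
  tsum_nonneg fun t => mul_nonneg (NNReal.coe_nonneg _) (asys_z0 k t)

theorem asys_Z_pos (hw : 0 < w) (k : KA) (t : (asysF w k).T)
    (h1 : (ufA (ENNReal.ofReal (xw w)) (ENNReal.ofReal (yw w)) (fun _ => 0) 0 1 0 k).w t =
      ENNReal.ofReal (yw w)) (h2 : 0 < ((asysF w k).core t).z0) :
    0 < ∑' t, ((asysF w k).w t : ℝ) * ((asysF w k).core t).z0 := by
  refine (famA_summable (asys_good0 hw k) fun t => ((asys_good0 hw k).good t).z0_le).tsum_pos
    (fun t => mul_nonneg (NNReal.coe_nonneg _) (asys_z0 k t)) t (mul_pos ?_ h2)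
  obtain ⟨-, hy, -⟩ := crit_pos hw
  rw [asys_w hw, h1, ENNReal.toReal_ofReal hy.le]
  exact mul_pos hy (Finset.prod_pos fun i _ => asys_mass_pos hw _)

theorem asys_Z_M (hw : 0 < w) :
    0 < ∑' t, ((asysF w .M).w t : ℝ) * ((asysF w .M).core t).z0 :=
  asys_Z_pos hw .M (1 : Fin 4) rfl (show (0 : ℝ) < 1 - 0 by norm_num)

theorem asys_Z_E (hw : 0 < w) :
    0 < ∑' t, ((asysF w .E).w t : ℝ) * ((asysF w .E).core t).z0 :=
  asys_Z_pos hw .E () rfl (show (0 : ℝ) < 1 by norm_num)

theorem asys_acoef (f : ℕ → ℝ) (k0 : ℕ) (lam mu : ℝ) (k : KA) (j : JA) :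
    (FA w f k0 lam mu k).acoef j = (asysF w k).acoef j := by
  cases k
  · refine tsum_congr fun t => ?_
    change Fin 4 at t
    fin_cases t <;> rfl
  · rfl
  · rfl
  · rfl
  · rfl

theorem asys_acoef_nonneg (k : KA) (j : JA) : 0 ≤ (asysF w k).acoef j :=
  tsum_nonneg fun _ => mul_nonneg (NNReal.coe_nonneg _) (Nat.cast_nonneg _)

theorem asys_row (hw : 0 < w) (i : JA) (hi : i ≠ .V) :
    ∑ j, sysA (asysF w) (cA w) i j * asysE w j < asysE w i := by
  have h1 : ∑ j, sysA (asysF w) (cA w) i j * asysE w j =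
      ∑ k, (cA w i k : ℝ) * ∑ j, (asysF w k).acoef j * asysE w j := by
    simp only [sysA, Finset.sum_mul, Finset.mul_sum, mul_assoc]
    exact Finset.sum_comm
  rw [h1, asysE_eq hw i hi]
  have h2 : ∃ k, incA i k = true ∧
      0 < ∑' t, ((asysF w k).w t : ℝ) * ((asysF w k).core t).z0 := by
    cases i
    · exact ⟨.M, rfl, asys_Z_M hw⟩
    · exact ⟨.E, rfl, asys_Z_E hw⟩
    · exact ⟨.E, rfl, asys_Z_E hw⟩
    · exact ⟨.E, rfl, asys_Z_E hw⟩
    · exact absurd rfl hi
  obtain ⟨k, hk, hk'⟩ := h2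
  refine Finset.sum_lt_sum (fun k _ => ?_) ⟨k, Finset.mem_univ _, ?_⟩
  · rw [asysD_eq hw]
    exact mul_le_mul_of_nonneg_left (le_add_of_nonneg_left (asys_Z_nonneg k)) (NNReal.coe_nonneg _)
  · rw [asysD_eq hw, asys_c hw, if_pos hk]
    exact mul_lt_mul_of_pos_left (lt_add_of_pos_left _ hk') (inv_pos.2 (asys_mass_pos hw i))

theorem lyapA (hw : 0 < w) (f : ℕ → ℝ) (k0 : ℕ) (lam mu : ℝ) : ∃ m : JA → ℝ, (∀ i, 0 < m i) ∧
    ∀ i, ∑ j, sysA (FA w f k0 lam mu) (cA w) i j * m j < m i := by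
  have h0 : ∀ i j, sysA (FA w f k0 lam mu) (cA w) i j = sysA (asysF w) (cA w) i j := fun i j =>
    Finset.sum_congr rfl fun k _ => by rw [asys_acoef]
  simp only [h0]
  have hA : ∀ i j, 0 ≤ sysA (asysF w) (cA w) i j := fun i j =>
    Finset.sum_nonneg fun k _ => mul_nonneg (NNReal.coe_nonneg _) (asys_acoef_nonneg k j)
  have hV : ∀ j, sysA (asysF w) (cA w) .V j = 0 := fun j =>
    Finset.sum_eq_zero fun k _ => by
      rw [asys_c hw, if_neg (by cases k <;> decide), zero_mul]
  have hev : ∀ᶠ ε : ℝ in 𝓝[>] 0, ∀ i, i ≠ JA.V →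
      ∑ j, sysA (asysF w) (cA w) i j * asysE w j + sysA (asysF w) (cA w) i .V * ε < asysE w i := by
    refine eventually_all.2 fun i => ?_
    by_cases hi : i = .V
    · exact Eventually.of_forall fun _ h => absurd hi h
    · have hc : Continuous fun ε : ℝ =>
          ∑ j, sysA (asysF w) (cA w) i j * asysE w j + sysA (asysF w) (cA w) i .V * ε := by
        fun_prop
      have h3 := (hc.tendsto 0).eventually (gt_mem_nhds (a := asysE w i)
        (by simpa using asys_row hw i hi))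
      exact (h3.filter_mono nhdsWithin_le_nhds).mono fun _ h _ => h
  obtain ⟨ε, hε, hε0⟩ := (hev.and self_mem_nhdsWithin).exists
  have hε1 : 0 < ε := hε0
  have hsum : ∀ i, ∑ j, sysA (asysF w) (cA w) i j * (asysE w j + if j = .V then ε else 0) =
      ∑ j, sysA (asysF w) (cA w) i j * asysE w j + sysA (asysF w) (cA w) i .V * ε := by
    intro i
    simp only [mul_add, Finset.sum_add_distrib, mul_ite, mul_zero, Finset.sum_ite_eq',
      Finset.mem_univ, if_true]
  refine ⟨fun j => asysE w j + if j = .V then ε else 0, fun i => ?_, fun i => ?_⟩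
  · by_cases hi : i = .V
    · simp only [if_pos hi]
      linarith [asysE_nonneg (w := w) i]
    · simp only [if_neg hi, add_zero]
      exact lt_of_le_of_lt (Finset.sum_nonneg fun j _ => mul_nonneg (hA i j) (asysE_nonneg j))
        (asys_row hw i hi)
  · by_cases hi : i = .V
    · subst hi
      simp only [hV, zero_mul, Finset.sum_const_zero, if_true]
      linarith [asysE_nonneg (w := w) .V]
    · rw [hsum]
      simp only [if_neg hi, add_zero]
      exact hε i hi

theorem MData.sysOK (hw : 0 < w) (hf : EvC f k0) (h : MData w f mu c σ2) : ∃ (Δ : ℕ) (B : ℝ),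
    SysOK (nuA w) sA (zz sA f 0 mu) (FA w f k0 0 mu) (cA w) .H .D Δ B := by
  obtain ⟨Δ, B, h1, h2, h3⟩ := goodA hw hf 0 mu
  obtain ⟨h4, A, h5, -⟩ := h.slots hw hf
  obtain ⟨C, h6⟩ := (h.sixA hw hf).2
  exact ⟨Δ, B, h4.toSlots1, h1, h2, h3, (Fam.winB_of_local h4 h5 h3 h6).1, lyapA hw f k0 0 mu⟩

theorem asysD_E (hw : 0 < w) : 0 < asysD w .E := by
  rw [asysD_eq hw]
  exact add_pos_of_pos_of_nonneg (asys_Z_E hw)
    (Finset.sum_nonneg fun j _ => mul_nonneg (asys_acoef_nonneg _ j) (asysE_nonneg j))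

theorem asysD_S (hw : 0 < w) : asysD w .S =
    (tauw w - Sw w) * tauw w * xw w * (asysE w .nS + asysE w .D + asysE w .V) := by
  rw [asysD_eq' hw]
  have h1 := tsum_fintype (L := SummationFilter.unconditional Unit) fun t : Unit =>
    ((asysF w .S).w t : ℝ) *
      (((asysF w .S).core t).z0 + ∑ i, asysE w (((asysF w .S).core t).cls i))
  refine h1.trans ?_
  rw [Fintype.sum_unique, asys_w hw]
  show ENNReal.toReal 1 * (∏ i : Fin 3, asysMass w (![JA.nS, .D, .V] i)) *
    (0 + ∑ i : Fin 3, asysE w (![JA.nS, .D, .V] i)) = _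
  rw [Fin.prod_univ_three, Fin.sum_univ_three]
  simp [asysMass]

theorem asysD_P (hw : 0 < w) :
    asysD w .P = (tauw w * (1 + tauw w) - tauw w / (1 + tauw w)) * asysE w .nP := by
  obtain ⟨hr0, hr1⟩ := asys_r hw
  obtain ⟨-, -, -, h4, -⟩ := crit_pos hw
  have h1 := hasSum_coe_mul_geometric_of_norm_lt_one (r := tauw w / (1 + tauw w))
    (by rw [Real.norm_of_nonneg hr0.le]; exact hr1)
  have h2 := ((hasSum_nat_add_iff' 2).2 h1).mul_right (asysE w .nP)
  rw [asysD_eq' hw]
  refine (tsum_congr (β := ℕ) fun j => ?_).trans (h2.tsum_eq.trans ?_)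
  · rw [asys_wP hw]
    show _ * (-(0 * _) + ∑ _i : Fin (j + 2), asysE w .nP) = _
    rw [Finset.sum_const, Finset.card_univ, Fintype.card_fin, nsmul_eq_mul]
    ring
  · congr 1
    simp only [Finset.sum_range_succ, Finset.sum_range_zero]
    field_simp
    ring

theorem asysD_H (hw : 0 < w) :
    2 * (∑' t, (wTw w t : ℝ) * posm t) * asysE w .D ≤ asysD w .H := by
  have hg := asys_good0 hw .H
  rw [asysD_eq hw]
  refine le_trans ?_ (le_add_of_nonneg_left (asys_Z_nonneg _))
  refine le_trans (le_of_eq ?_) (Finset.single_le_sum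
    (fun j _ => mul_nonneg (asys_acoef_nonneg (w := w) .H j) (asysE_nonneg (w := w) j))
    (Finset.mem_univ JA.D))
  congr 1
  rw [← tsum_mul_left]
  refine tsum_congr (β := TT) fun t => ?_
  have h1 : ((asysF w .H).core t).cnt .D = t.1.1 := (tcore_cnt (by decide) t.1 _ _).1
  rw [h1, FA_H_w hw]
  simp only [posm, NNReal.coe_mul, NNReal.coe_ofNat]
  ring

theorem asys_sumK (g : KA → ℝ) : ∑ k, g k = g .M + g .E + g .S + g .P + g .H := by
  have : (Finset.univ : Finset KA) = {.M, .E, .S, .P, .H} := by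
    ext k
    cases k <;> simp
  rw [this]
  simp only [Finset.mem_insert, Finset.mem_singleton, reduceCtorEq, or_self, not_false_eq_true,
    Finset.sum_insert, Finset.sum_singleton]
  ring

theorem tfacts (hw : 0 < w) : TFacts w := by
  refine ⟨(massA hw).2.2.2.2.2, asys_sum1 hw, ?_⟩
  obtain ⟨hx, -, -, hτ, hS, hSτ, -⟩ := crit_pos hw
  have e1 := asysE_eq hw .D (by decide)
  have e2 := asysE_eq hw .nS (by decide)
  have e3 := asysE_eq hw .nP (by decide)
  simp only [asys_sumK, asys_c hw, incA, asysMass, if_true, Bool.false_eq_true, if_false, zero_mul,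
    zero_add, add_zero] at e1 e2 e3
  have hE := asysD_E hw
  have hS' := asysD_S hw
  have hP := asysD_P hw
  have hH := asysD_H hw
  have nD := asysE_nonneg (w := w) .D
  have nS := asysE_nonneg (w := w) .nS
  have nP := asysE_nonneg (w := w) .nP
  have nV := asysE_nonneg (w := w) .V
  have hm : 0 ≤ ∑' t, (wTw w t : ℝ) * posm t :=
    tsum_nonneg fun t => mul_nonneg (NNReal.coe_nonneg _) (Nat.cast_nonneg _)
  have hSw : tauw w - Sw w = tauw w / (1 + xw w * tauw w) := by
    rw [Sw]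
    field_simp
    ring
  rw [hSw] at e2 hS'
  generalize asysD w .E = dE at *
  generalize asysD w .S = dS at *
  generalize asysD w .P = dP at *
  generalize asysD w .H = dH at *
  generalize asysE w .D = eD at *
  generalize asysE w .nS = eS at *
  generalize asysE w .nP = eP at *
  generalize asysE w .V = eV at *
  generalize (∑' t, (wTw w t : ℝ) * posm t) = m at *
  generalize tauw w = τ at *
  generalize xw w = x at *
  have hxτ : 0 < 1 + x * τ := by positivity
  have f1 : τ * eD = dE + dS + dP + dH := by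
    rw [e1]
    field_simp
  have f2 : τ / (1 + x * τ) * eS = dE + dP + dH := by
    rw [e2]
    field_simp
  have f3 : τ / (1 + τ) * eP = dE + dS + dH := by
    rw [e3]
    field_simp
  have f4 : eD = (1 + τ) * eP := by
    have : τ * eD = τ * ((1 + τ) * eP) := by
      rw [f1]
      linear_combination hP - f3
    exact mul_left_cancel₀ hτ.ne' this
  have f5 : (2 * x * τ + x ^ 2 * τ ^ 2) / (1 + x * τ) ^ 2 * (τ * eD) ≤ dS := by
    have g1 : dS * (1 + x * τ) = x * τ * (τ * eD) + τ / (1 + x * τ) * τ * x * (eD + eV) := by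
      linear_combination hS' + x * τ * f2 - x * τ * f1
    have g2 : 0 ≤ τ / (1 + x * τ) * τ * x * eV := by positivity
    have g3 : (2 * x * τ + x ^ 2 * τ ^ 2) / (1 + x * τ) ^ 2 * (τ * eD) * (1 + x * τ) =
        x * τ * (τ * eD) + τ / (1 + x * τ) * τ * x * eD := by
      field_simp
      ring
    refine le_of_mul_le_mul_right ?_ hxτ
    rw [g3, g1]
    linarith
  have f6 : 2 * (m / τ) * (τ * eD) ≤ dH := by
    have : 2 * (m / τ) * (τ * eD) = 2 * m * eD := by field_simp
    linarith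
  have f7 : τ * eD = (1 + τ) ^ 2 * (dE + dS + dH) := by
    rw [← f3, f4]
    field_simp
  have f8 : 0 < (1 + τ) ^ 2 := by positivity
  have f9 : 0 ≤ (2 * x * τ + x ^ 2 * τ ^ 2) / (1 + x * τ) ^ 2 * (τ * eD) := by positivity
  have f10 : 0 ≤ 2 * (m / τ) * (τ * eD) := by positivity
  have f11 : 0 < τ * eD := by
    rw [f7]
    exact mul_pos f8 (by linarith)
  refine lt_of_mul_lt_mul_right ?_ f11.le
  calc _ = (1 + τ) ^ 2 * ((2 * x * τ + x ^ 2 * τ ^ 2) / (1 + x * τ) ^ 2 * (τ * eD) +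
        2 * (m / τ) * (τ * eD)) := by ring
    _ < (1 + τ) ^ 2 * (dE + dS + dH) := mul_lt_mul_of_pos_left (by linarith) f8
    _ = _ := by rw [← f7, one_mul]

end Pool.Agent.Lib.MP_77dff5_pr
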