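import Pool.Agent.Lib.MP_77dff5_pr.SumsBAux1

/-! Sums over weighted points controlled in windows; change of scale. -/

set_option autoImplicit false

namespace Pool.Agent.Lib.MP_77dff5_pr

open MeasureTheory Filter Topology
open scoped ENNReal NNReal

variable {T : Type} {pos pos' : T → ℝ}

theorem sumsB_C {U : T → ℝ} {α C : ℝ} (h1 : ∀ t, 1 ≤ pos t) (h2 : ∀ t, pos t ≤ C * pos' t)
    (h4 : ∀ t, |pos' t - α * pos t| ≤ C * (|U t| + 1)) :
    ∃ D : ℝ, 1 ≤ D ∧ (∀ t, pos t ≤ D * pos' t) ∧ ∀ t, |pos' t - α * pos t| ≤ D * (|U t| + 1) := by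
  refine ⟨max C 1, le_max_right _ _, fun t => ?_, fun t => (h4 t).trans
    (mul_le_mul_of_nonneg_right (le_max_left _ _) (by positivity))⟩
  have a : 0 ≤ C := nonneg_of_mul_nonneg_left ((abs_nonneg _).trans (h4 t)) (by positivity)
  have b : 0 ≤ pos' t := by
    by_contra c
    nlinarith [h1 t, h2 t]
  exact (h2 t).trans (mul_le_mul_of_nonneg_right (le_max_left _ _) b)

theorem sumsB_two {c : T → ℝ≥0∞} {s a b : Set T} {x y : ℝ≥0∞} (ha : ∑' t : a, c t ≤ x)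
    (hb : ∑' t : b, c t ≤ y) (h : ∀ t ∈ s, t ∈ a ∨ t ∈ b) : ∑' t : s, c t ≤ x + y :=
  (ENNReal.tsum_mono_subtype c (t := a ∪ b) h).trans
    ((ENNReal.tsum_union_le _ _ _).trans (add_le_add ha hb))

theorem sumsB_four (x : ℝ) {s : ℝ} (hs : 0 < s) : x ^ 4 ≤ s ^ 4 + (s ^ 2)⁻¹ * x ^ 6 := by
  by_cases c : x ^ 2 ≤ s ^ 2
  · have : (x ^ 2) ^ 2 ≤ (s ^ 2) ^ 2 := pow_le_pow_left₀ (sq_nonneg _) c 2
    have : 0 ≤ (s ^ 2)⁻¹ * x ^ 6 := by positivity
    nlinarith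
  · have : x ^ 4 ≤ (s ^ 2)⁻¹ * x ^ 6 := by
      rw [← div_eq_inv_mul, le_div_iff₀ (by positivity)]
      have : 0 ≤ x ^ 4 := by positivity
      nlinarith
    have : 0 ≤ s ^ 4 := by positivity
    linarith

theorem sumsB_split {U : T → ℝ} {α D y : ℝ} (hD : 1 ≤ D) (h2 : ∀ t, pos t ≤ D * pos' t)
    (h4 : ∀ t, |pos' t - α * pos t| ≤ D * (|U t| + 1)) (hy : 1 ≤ y) {t : T} (a : y ≤ pos' t)
    (b : pos' t ≤ y + y ^ (2 / 3 : ℝ)) :
    (|α * pos t - y| ≤ (1 + 2 * D) * y ^ (2 / 3 : ℝ) ∧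
      |pos' t - α * pos t| ≤ 2 * D * y ^ (2 / 3 : ℝ)) ∨
      (pos t ≤ 2 * D * y ∧ 1 * y ^ (2 / 3 : ℝ) < |U t|) := by
  have s1 : 1 ≤ y ^ (2 / 3 : ℝ) := Real.one_le_rpow hy (by norm_num)
  have s2 : y ^ (2 / 3 : ℝ) ≤ y := by
    simpa using Real.rpow_le_rpow_of_exponent_le hy (by norm_num : (2 / 3 : ℝ) ≤ 1)
  by_cases c : 1 * y ^ (2 / 3 : ℝ) < |U t|
  · exact Or.inr ⟨(h2 t).trans (by nlinarith), c⟩
  · have d : |pos' t - α * pos t| ≤ 2 * D * y ^ (2 / 3 : ℝ) := (h4 t).trans (by nlinarith)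
    have d' := abs_le.1 d
    exact Or.inl ⟨abs_le.2 ⟨by linarith [d'.2], by linarith [d'.1]⟩, d⟩

theorem sumsB_diff {w : T → ℝ≥0} {U : T → ℝ} {α C : ℝ} (hα : 0 < α) (h1 : ∀ t, 1 ≤ pos t)
    (h2 : ∀ t, pos t ≤ C * pos' t) (h4 : ∀ t, |pos' t - α * pos t| ≤ C * (|U t| + 1))
    (hw : WinB pos (fun t => w t) (-(11 / 6)))
    (hU : DyB pos (fun t => w t * ENNReal.ofReal (U t ^ 6)) (3 / 2))
    {φ : ℝ → ℝ} (hφ : Continuous φ) (hc : HasCompactSupport φ) {ε : ℝ} (hε : 0 < ε) :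
    ∀ᶠ y : ℝ in atTop, ∑' t, (w t : ℝ≥0∞) * ‖φ ((pos' t - y) / y ^ (2 / 3 : ℝ)) -
      φ ((α * pos t - y) / y ^ (2 / 3 : ℝ))‖ₑ ≤ ENNReal.ofReal (ε * y ^ (-(11 / 6) : ℝ)) := by
  obtain ⟨D, hD, g2, g4⟩ := sumsB_C h1 h2 h4
  obtain ⟨R, hR, hR0⟩ := hc.exists_pos_le_norm
  obtain ⟨M, hM⟩ := hφ.bounded_above_of_compact_support hc
  have hM0 : 0 ≤ M := (norm_nonneg _).trans (hM 0)
  obtain ⟨A, hA0, hA⟩ := sumsB_good hw hα (K := R + 1) (by linarith)
  obtain ⟨ρ, hρ, hu⟩ := Metric.uniformContinuous_iff.1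
    (hφ.uniformContinuous_of_tendsto_cocompact hc.is_zero_at_infty) (ε / 2 / (A + 1))
    (by positivity)
  obtain ⟨r, hr⟩ : ∃ r, r = min ρ 1 := ⟨_, rfl⟩
  have hr0 : 0 < r := hr ▸ lt_min hρ one_pos
  have hr1 : r ≤ ρ := hr ▸ min_le_left _ _
  have hr2 : r ≤ 1 := hr ▸ min_le_right _ _
  have hαi : 0 < 2 / α := by positivity
  obtain ⟨B, hB0, hB⟩ := sumsB_bad h1 hU (K := 2 * D + 2 / α) (δ := r / (4 * D)) (by linarith)
    (by positivity)
  filter_upwards [hA, eventually_ge_atTop 1, sumsB_ev (4 * D / r) (a := 2 / 3) (by norm_num),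
    sumsB_ev3 R one_pos, sumsB_ev2 (2 * M * B) (δ := ε / 2) (a := -(5 / 2)) (b := -(11 / 6))
      (by positivity) (by norm_num)] with y k1 hy k2 k3 k4
  have hy0 : 0 < y := by linarith
  have hs : 0 < y ^ (2 / 3 : ℝ) := Real.rpow_pos_of_pos hy0 _
  have hout : ∀ x : ℝ, φ ((x - y) / y ^ (2 / 3 : ℝ)) ≠ 0 → |x - y| ≤ R * y ^ (2 / 3 : ℝ) := by
    intro x hx
    have : ‖(x - y) / y ^ (2 / 3 : ℝ)‖ < R := lt_of_not_ge fun a => hx (hR0 _ a)
    rw [Real.norm_eq_abs, abs_div, abs_of_pos hs, div_lt_iff₀ hs] at this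
    exact this.le
  have key : ∀ t, (w t : ℝ≥0∞) * ‖φ ((pos' t - y) / y ^ (2 / 3 : ℝ)) -
      φ ((α * pos t - y) / y ^ (2 / 3 : ℝ))‖ₑ ≤
      ENNReal.ofReal (ε / 2 / (A + 1)) * Set.indicator
        {t | |α * pos t - y| ≤ (R + 1) * y ^ (2 / 3 : ℝ)} (fun t => (w t : ℝ≥0∞)) t +
      ENNReal.ofReal (2 * M) * Set.indicator
        {t | pos t ≤ (2 * D + 2 / α) * y ∧ r / (4 * D) * y ^ (2 / 3 : ℝ) < |U t|}
        (fun t => (w t : ℝ≥0∞)) t := by
    intro t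
    by_cases z : φ ((pos' t - y) / y ^ (2 / 3 : ℝ)) = 0 ∧
        φ ((α * pos t - y) / y ^ (2 / 3 : ℝ)) = 0
    · simp [z.1, z.2]
    have z' := not_and_or.1 z
    rw [← ofReal_norm, mul_comm]
    by_cases c : r / (4 * D) * y ^ (2 / 3 : ℝ) < |U t|
    · refine le_add_left ?_
      have m : pos t ≤ (2 * D + 2 / α) * y := by
        rcases z' with z' | z'
        · have := (abs_le.1 (hout _ z')).2
          have := g2 t
          nlinarith [mul_pos hαi hy0]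
        · have a1 := (abs_le.1 (hout _ z')).2
          have a2 : pos t ≤ 2 / α * y := by
            rw [div_mul_eq_mul_div, le_div_iff₀ hα]
            linarith
          nlinarith
      rw [Set.indicator_of_mem (by exact ⟨m, c⟩)]
      gcongr
      linarith [norm_sub_le (φ ((pos' t - y) / y ^ (2 / 3 : ℝ)))
        (φ ((α * pos t - y) / y ^ (2 / 3 : ℝ))), hM ((pos' t - y) / y ^ (2 / 3 : ℝ)),
        hM ((α * pos t - y) / y ^ (2 / 3 : ℝ))]
    · refine le_add_right ?_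
      have d : |pos' t - α * pos t| ≤ r / 2 * y ^ (2 / 3 : ℝ) := by
        rw [div_le_iff₀ hr0] at k2
        have a1 : D * |U t| ≤ D * (r / (4 * D) * y ^ (2 / 3 : ℝ)) :=
          mul_le_mul_of_nonneg_left (not_lt.1 c) (by linarith)
        have a2 : D * (r / (4 * D) * y ^ (2 / 3 : ℝ)) = r / 4 * y ^ (2 / 3 : ℝ) := by
          field_simp
        linarith [g4 t]
      have d' := abs_le.1 d
      have rs : r * y ^ (2 / 3 : ℝ) ≤ y ^ (2 / 3 : ℝ) := mul_le_of_le_one_left hs.le hr2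
      have m : |α * pos t - y| ≤ (R + 1) * y ^ (2 / 3 : ℝ) := by
        rcases z' with z' | z'
        · have := abs_le.1 (hout _ z')
          exact abs_le.2 ⟨by linarith [this.1, d'.2], by linarith [this.2, d'.1]⟩
        · linarith [hout _ z']
      rw [Set.indicator_of_mem (by exact m)]
      gcongr
      rw [← dist_eq_norm]
      refine (hu ?_).le
      rw [Real.dist_eq, ← sub_div, sub_sub_sub_cancel_right, abs_div, abs_of_pos hs,
        div_lt_iff₀ hs]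
      nlinarith
  refine (ENNReal.tsum_le_tsum key).trans ?_
  rw [ENNReal.tsum_add, ENNReal.tsum_mul_left, ENNReal.tsum_mul_left, ← tsum_subtype,
    ← tsum_subtype]
  have hp : 0 < y ^ (-(11 / 6) : ℝ) := Real.rpow_pos_of_pos hy0 _
  have hp' : 0 < y ^ (-(5 / 2) : ℝ) := Real.rpow_pos_of_pos hy0 _
  refine (add_le_add (mul_le_mul_right k1 _) (mul_le_mul_right (hB y hy) _)).trans ?_
  rw [← ENNReal.ofReal_mul (by positivity), ← ENNReal.ofReal_mul (by positivity),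
    ← ENNReal.ofReal_add (by positivity) (by positivity)]
  refine ENNReal.ofReal_le_ofReal ?_
  have a1 : ε / 2 / (A + 1) * A ≤ ε / 2 := by
    rw [div_mul_eq_mul_div, div_le_iff₀ (by positivity)]
    nlinarith
  nlinarith

section scale
variable {w : T → ℝ≥0} {U : T → ℝ} {α C : ℝ} (hα : 0 < α) (h1 : ∀ t, 1 ≤ pos t)
  (h2 : ∀ t, pos t ≤ C * pos' t) (h3 : ∀ t, pos' t ≤ C * pos t)
  (h4 : ∀ t, |pos' t - α * pos t| ≤ C * (|U t| + 1))
  (hw : WinB pos (fun t => w t) (-(11 / 6)))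
  (hU : DyB pos (fun t => w t * ENNReal.ofReal (U t ^ 6)) (3 / 2))
include hα h1 h2 h3 h4 hw hU

theorem WinB.scale : WinB pos' (fun t => w t) (-(11 / 6)) := by
  obtain ⟨D, hD, g2, g4⟩ := sumsB_C h1 h2 h4
  obtain ⟨A, hA0, hA⟩ := sumsB_good hw hα (K := 1 + 2 * D) (by linarith)
  obtain ⟨B, hB0, hB⟩ := sumsB_bad h1 hU (K := 2 * D) (δ := 1) (by linarith) one_pos
  refine sumsB_of_ev (A := A + B) (hw.dyB.of_comparable h1 h2 h3) ?_
  filter_upwards [hA, eventually_ge_atTop 1] with y k1 hy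
  refine (sumsB_two (c := fun t => (w t : ℝ≥0∞)) k1 (hB y hy) fun t ht =>
    (sumsB_split hD g2 g4 hy ht.1 ht.2).imp_left And.left).trans ?_
  rw [← ENNReal.ofReal_add (by positivity) (by positivity), add_mul]
  exact ENNReal.ofReal_le_ofReal (add_le_add le_rfl (mul_le_mul_of_nonneg_left
    (Real.rpow_le_rpow_of_exponent_le hy (by norm_num)) hB0))

theorem WinB.scale4 {X : T → ℝ} (hX : WinB pos (fun t => w t * ENNReal.ofReal (X t ^ 4)) (1 / 6))
    (hX6 : DyB pos (fun t => w t * ENNReal.ofReal (X t ^ 6)) (3 / 2)) :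
    WinB pos' (fun t => w t * ENNReal.ofReal (X t ^ 4)) (1 / 6) := by
  obtain ⟨D, hD, g2, g4⟩ := sumsB_C h1 h2 h4
  obtain ⟨A, hA0, hA⟩ := sumsB_good hX hα (K := 1 + 2 * D) (by linarith)
  obtain ⟨B, hB0, hB⟩ := sumsB_bad h1 hU (K := 2 * D) (δ := 1) (by linarith) one_pos
  obtain ⟨B', hB0', hB'⟩ := hX6.head (by norm_num) |>.imp fun B' h =>
    (⟨abs_nonneg B', fun y hy => (h y hy).trans (ENNReal.ofReal_le_ofReal
      (mul_le_mul_of_nonneg_right (le_abs_self B') (by positivity)))⟩ : 0 ≤ |B'| ∧ ∀ y : ℝ, 1 ≤ y →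
        ∑' t : {t // 1 ≤ pos t ∧ pos t ≤ y}, (w t : ℝ≥0∞) * ENNReal.ofReal (X t ^ 6) ≤
          ENNReal.ofReal (|B'| * y ^ (3 / 2 : ℝ)))
  refine sumsB_of_ev (A := A + (B + |B'| * (2 * D) ^ (3 / 2 : ℝ)))
    (hX.dyB.of_comparable h1 h2 h3) ?_
  filter_upwards [hA, eventually_ge_atTop 1] with y k1 hy
  have hy0 : 0 < y := by linarith
  have hs : 0 < y ^ (2 / 3 : ℝ) := Real.rpow_pos_of_pos hy0 _
  have k2 : ∑' t : {t | pos t ≤ 2 * D * y ∧ 1 * y ^ (2 / 3 : ℝ) < |U t|},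
      (w t : ℝ≥0∞) * ENNReal.ofReal (X t ^ 4) ≤
      ENNReal.ofReal ((B + |B'| * (2 * D) ^ (3 / 2 : ℝ)) * y ^ (1 / 6 : ℝ)) := by
    calc _ ≤ ∑' t : {t | pos t ≤ 2 * D * y ∧ 1 * y ^ (2 / 3 : ℝ) < |U t|},
          (ENNReal.ofReal ((y ^ (2 / 3 : ℝ)) ^ 4) * w t +
            ENNReal.ofReal (((y ^ (2 / 3 : ℝ)) ^ 2)⁻¹) * (w t * ENNReal.ofReal (X t ^ 6))) := by
          refine ENNReal.tsum_le_tsum fun t => ?_
          rw [mul_left_comm, mul_comm _ (w t : ℝ≥0∞), ← mul_add,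
            ← ENNReal.ofReal_mul (by positivity), ← ENNReal.ofReal_add (by positivity)
              (by positivity)]
          gcongr
          exact sumsB_four _ hs
      _ ≤ ENNReal.ofReal ((y ^ (2 / 3 : ℝ)) ^ 4) * ENNReal.ofReal (B * y ^ (-(5 / 2) : ℝ)) +
            ENNReal.ofReal (((y ^ (2 / 3 : ℝ)) ^ 2)⁻¹) *
              ENNReal.ofReal (|B'| * (2 * D * y) ^ (3 / 2 : ℝ)) := by
          rw [ENNReal.tsum_add, ENNReal.tsum_mul_left, ENNReal.tsum_mul_left]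
          refine add_le_add (mul_le_mul_right (hB y hy) _) (mul_le_mul_right ?_ _)
          exact le_trans (ENNReal.tsum_mono_subtype
            (fun t => (w t : ℝ≥0∞) * ENNReal.ofReal (X t ^ 6))
            (t := {t | 1 ≤ pos t ∧ pos t ≤ 2 * D * y}) fun t ht => ⟨h1 t, ht.1⟩)
            (hB' _ (by nlinarith))
      _ = _ := by
          rw [← ENNReal.ofReal_mul (by positivity), ← ENNReal.ofReal_mul (by positivity),
            ← ENNReal.ofReal_add (by positivity) (by positivity)]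
          congr 1
          have e1 : y ^ (1 / 6 : ℝ) = (y ^ (2 / 3 : ℝ)) ^ 4 * y ^ (-(5 / 2) : ℝ) := by
            rw [sumsB_pow y hy0.le, ← Real.rpow_add hy0]
            norm_num
          have e2 : y ^ (1 / 6 : ℝ) = y ^ (3 / 2 : ℝ) / (y ^ (2 / 3 : ℝ)) ^ 2 := by
            rw [sumsB_pow y hy0.le, ← Real.rpow_sub hy0]
            norm_num
          rw [add_mul, Real.mul_rpow (by linarith) hy0.le]
          congr 1
          · rw [e1]; ring
          · rw [e2]; ring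
  refine (sumsB_two (c := fun t => (w t : ℝ≥0∞) * ENNReal.ofReal (X t ^ 4)) k1 k2 fun t ht =>
    (sumsB_split hD g2 g4 hy ht.1 ht.2).imp_left And.left).trans (le_of_eq ?_)
  rw [← ENNReal.ofReal_add (by positivity) (by positivity), ← add_mul]

theorem WinLLN.scale {X : T → ℝ} {e : ℝ} (hX : WinLLN pos (fun t => w t) X e) :
    WinLLN pos' (fun t => w t) X (e / α) := by
  obtain ⟨D, hD, g2, g4⟩ := sumsB_C h1 h2 h4
  obtain ⟨B, hB0, hB⟩ := sumsB_bad h1 hU (K := 2 * D) (δ := 1) (by linarith) one_pos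
  intro ε δ hε hδ
  filter_upwards [sumsB_goodLLN hX hα (K := 1 + 2 * D) (ε := ε / 2) (δ := δ / 2) (by linarith)
    (by positivity) (by positivity), eventually_ge_atTop 1,
    sumsB_ev3 (|e / α| * (2 * D)) (δ := ε / 2) (by positivity),
    sumsB_ev2 B (δ := δ / 2) (a := -(5 / 2)) (b := -(11 / 6)) (by positivity) (by norm_num)]
    with y k1 hy k2 k3
  refine (sumsB_two (c := fun t => (w t : ℝ≥0∞))
    (s := {t | y ≤ pos' t ∧ pos' t ≤ y + y ^ (2 / 3 : ℝ) ∧ ε * y < |X t - e / α * pos' t|})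
    k1 (hB y hy) fun t ht =>
    (sumsB_split hD g2 g4 hy ht.1 ht.2.1).imp_left fun a => ?_).trans ?_
  · refine ⟨a.1, ?_⟩
    have e1 : X t - e / α * pos' t = (X t - e * pos t) - e / α * (pos' t - α * pos t) := by
      field_simp
      ring
    have a1 := ht.2.2
    rw [e1] at a1
    have a2 := abs_sub (X t - e * pos t) (e / α * (pos' t - α * pos t))
    rw [abs_mul] at a2
    have a3 := mul_le_mul_of_nonneg_left a.2 (abs_nonneg (e / α))
    linarith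
  · rw [← ENNReal.ofReal_add (by positivity) (by positivity)]
    exact ENNReal.ofReal_le_ofReal (by linarith)

theorem WinCLT.scale {X : T → ℝ} {c σ2 : ℝ} (hX : WinCLT pos w X c σ2) :
    WinCLT pos' w X (c * α ^ (3 / 2 : ℝ)) (σ2 / α) := by
  intro φ hφ hc θ
  have hβ : 0 < α ^ (1 / 3 : ℝ) := Real.rpow_pos_of_pos hα _
  have hsα : 0 < √α := Real.sqrt_pos.2 hα
  have hs : Summable fun t => (w t : ℝ) := by
    obtain ⟨A, hA⟩ := hw.dyB.tail (by norm_num)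
    have a : ∑' t, (w t : ℝ≥0∞) ≤ ∑' t : {t // 1 ≤ pos t}, (w t : ℝ≥0∞) :=
      ENNReal.tsum_comp_le_tsum_of_injective (f := fun t => (⟨t, h1 t⟩ : {t // 1 ≤ pos t}))
        (fun a b h => congrArg Subtype.val h) (fun t => (w t : ℝ≥0∞))
    exact NNReal.summable_coe.2 (ENNReal.tsum_coe_ne_top_iff_summable.1
      (ne_top_of_le_ne_top ENNReal.ofReal_ne_top (a.trans (hA 1 le_rfl))))
  obtain ⟨M, hM⟩ := hφ.bounded_above_of_compact_support hc
  have hsum : ∀ (a : T → ℝ) (u : T → ℝ), Summable fun t => ((w t : ℝ) : ℂ) *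
      Complex.exp (Complex.I * ((a t : ℝ) : ℂ)) * ((φ (u t) : ℝ) : ℂ) := by
    intro a u
    refine (hs.mul_right M).of_norm_bounded fun t => ?_
    rw [norm_mul, norm_mul, Complex.norm_exp_I_mul_ofReal, mul_one, Complex.norm_real,
      Complex.norm_real, NNReal.norm_eq]
    exact mul_le_mul_of_nonneg_left (hM _) (w t).2
  have t1 : Tendsto (fun p : ℝ × ℝ => (p.1 / α, p.2 / √α)) (atTop ×ˢ 𝓝 θ)
      (atTop ×ˢ 𝓝 (θ / √α)) :=
    (tendsto_fst.atTop_div_const hα).prodMk (tendsto_snd.div_const _)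
  have t2 := ((hX (fun u => φ (α ^ (1 / 3 : ℝ) * u)) (by fun_prop) (hc.comp_smul hβ.ne')
    (θ / √α)).comp t1).const_mul ((α ^ (11 / 6 : ℝ) : ℝ) : ℂ)
  have t3 : Tendsto (fun p : ℝ × ℝ => ((p.1 ^ (11 / 6 : ℝ) : ℝ) : ℂ) *
      ∑' t, ((w t : ℝ) : ℂ) * Complex.exp (Complex.I * ((p.2 * X t / √p.1 : ℝ) : ℂ)) *
        ((φ ((α * pos t - p.1) / p.1 ^ (2 / 3 : ℝ)) : ℝ) : ℂ)) (atTop ×ˢ 𝓝 θ)
      (𝓝 ((c * α ^ (3 / 2 : ℝ) * Real.exp (-(σ2 / α * θ ^ 2 / 2)) * ∫ u, φ u : ℝ) : ℂ)) := by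
    convert t2.congr' ?_ using 2
    · rw [← Complex.ofReal_mul, Measure.integral_comp_mul_left, abs_of_pos (inv_pos.2 hβ),
        div_pow, Real.sq_sqrt hα.le, smul_eq_mul]
      congr 1
      have e1 : α ^ (11 / 6 : ℝ) = α ^ (3 / 2 : ℝ) * α ^ (1 / 3 : ℝ) := by
        rw [← Real.rpow_add hα]; norm_num
      have e2 : σ2 / α * θ ^ 2 / 2 = σ2 * (θ ^ 2 / α) / 2 := by ring
      rw [e1, e2]
      field_simp
    · filter_upwards [tendsto_fst.eventually (eventually_gt_atTop (0 : ℝ))] with p hp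
      simp only [Function.comp_apply]
      rw [← mul_assoc, ← Complex.ofReal_mul, ← Real.mul_rpow hα.le (by positivity),
        mul_div_cancel₀ _ hα.ne']
      congr 1
      refine tsum_congr fun t => ?_
      have e1 : p.2 / √α * X t / √(p.1 / α) = p.2 * X t / √p.1 := by
        rw [Real.sqrt_div hp.le]
        field_simp
      have e2 : α ^ (1 / 3 : ℝ) * ((pos t - p.1 / α) / (p.1 / α) ^ (2 / 3 : ℝ)) =
          (α * pos t - p.1) / p.1 ^ (2 / 3 : ℝ) := by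
        have e3 : α ^ (1 / 3 : ℝ) * α ^ (2 / 3 : ℝ) = α := by
          rw [← Real.rpow_add hα]; norm_num
        have e4 : 0 < α ^ (2 / 3 : ℝ) := Real.rpow_pos_of_pos hα _
        have e5 : 0 < p.1 ^ (2 / 3 : ℝ) := Real.rpow_pos_of_pos hp _
        rw [Real.div_rpow hp.le hα.le]
        calc _ = α ^ (1 / 3 : ℝ) * α ^ (2 / 3 : ℝ) * (pos t - p.1 / α) / p.1 ^ (2 / 3 : ℝ) := by
              field_simp
          _ = _ := by rw [e3, mul_sub, mul_div_cancel₀ _ hα.ne']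
      rw [e1, e2]
  refine t3.congr_dist (Metric.tendsto_nhds.2 fun ε hε => ?_)
  filter_upwards [tendsto_fst.eventually (eventually_gt_atTop (0 : ℝ)), tendsto_fst.eventually
    (sumsB_diff hα h1 h2 h4 hw hU hφ hc (half_pos hε))] with p hp hd
  have hp1 : 0 < p.1 ^ (11 / 6 : ℝ) := Real.rpow_pos_of_pos hp _
  rw [Real.dist_0_eq_abs, abs_of_nonneg dist_nonneg, dist_comm, dist_eq_norm, ← mul_sub,
    ← (hsum _ _).tsum_sub (hsum _ _), norm_mul, Complex.norm_real, Real.norm_of_nonneg hp1.le]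
  have k := (enorm_tsum_le_tsum_enorm (f := fun t => ((w t : ℝ) : ℂ) *
      Complex.exp (Complex.I * ((p.2 * X t / √p.1 : ℝ) : ℂ)) *
        ((φ ((pos' t - p.1) / p.1 ^ (2 / 3 : ℝ)) : ℝ) : ℂ) - ((w t : ℝ) : ℂ) *
      Complex.exp (Complex.I * ((p.2 * X t / √p.1 : ℝ) : ℂ)) *
        ((φ ((α * pos t - p.1) / p.1 ^ (2 / 3 : ℝ)) : ℝ) : ℂ))).trans
    ((ENNReal.tsum_le_tsum fun t => le_of_eq (by
      rw [← mul_sub, ← Complex.ofReal_sub, ← ofReal_norm, ← ofReal_norm,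
        norm_mul, norm_mul, Complex.norm_exp_I_mul_ofReal, mul_one, Complex.norm_real,
        Complex.norm_real, NNReal.norm_eq, ENNReal.ofReal_mul (NNReal.coe_nonneg _),
        ENNReal.ofReal_coe_nnreal])).trans hd)
  rw [← ofReal_norm, ENNReal.ofReal_le_ofReal_iff (by positivity), Real.rpow_neg hp.le,
    ← div_eq_mul_inv, le_div_iff₀ hp1] at k
  linarith

end scale

end Pool.Agent.Lib.MP_77dff5_pr
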