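import Pool.Agent.Lib.MP_77dff5_pr.SumsA

/-! Monotonicity and perturbation of window estimates. -/

set_option autoImplicit false

namespace Pool.Agent.Lib.MP_77dff5_pr

open MeasureTheory Filter Topology
open scoped ENNReal NNReal

variable {T : Type} {pos : T → ℝ}

theorem sumsC_mono {c c' : T → ℝ≥0∞} {p : T → Prop} {A y e e' : ℝ} (C : ℝ≥0) (hA : 0 ≤ A)
    (hy : 1 ≤ y) (hc : ∀ t, c' t ≤ C * c t) (he : e ≤ e')
    (h : ∑' t : {t // p t}, c t ≤ ENNReal.ofReal (A * y ^ e)) :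
    ∑' t : {t // p t}, c' t ≤ ENNReal.ofReal (C * A * y ^ e') := by
  refine (sumsA_le_mul (k := C) fun t _ => hc t).trans ?_
  rw [mul_assoc, ENNReal.ofReal_mul C.coe_nonneg, ENNReal.ofReal_coe_nnreal]
  gcongr
  refine h.trans (ENNReal.ofReal_le_ofReal ?_)
  exact mul_le_mul_of_nonneg_left (Real.rpow_le_rpow_of_exponent_le hy he) hA

theorem sumsC_add {c c' : T → ℝ≥0∞} {p : T → Prop} {A A' y e : ℝ} (hA : 0 ≤ A) (hA' : 0 ≤ A')
    (hy : 1 ≤ y) (h : ∑' t : {t // p t}, c t ≤ ENNReal.ofReal (A * y ^ e))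
    (h' : ∑' t : {t // p t}, c' t ≤ ENNReal.ofReal (A' * y ^ e)) :
    ∑' t : {t // p t}, (c t + c' t) ≤ ENNReal.ofReal ((A + A') * y ^ e) := by
  have hy0 : 0 ≤ y ^ e := Real.rpow_nonneg (by linarith) _
  rw [ENNReal.tsum_add, add_mul, ENNReal.ofReal_add (by positivity) (by positivity)]
  exact add_le_add h h'

theorem WinB.mono {c c' : T → ℝ≥0∞} {e e' : ℝ} (h : WinB pos c e) (C : ℝ≥0)
    (hc : ∀ t, c' t ≤ C * c t) (he : e ≤ e') : WinB pos c' e' := by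
  obtain ⟨A, hA0, hA⟩ := sumsA_winB h
  exact ⟨C * A, fun y hy => sumsC_mono C hA0 hy hc he (hA y hy)⟩

theorem DyB.mono {c c' : T → ℝ≥0∞} {e e' : ℝ} (h : DyB pos c e) (C : ℝ≥0)
    (hc : ∀ t, c' t ≤ C * c t) (he : e ≤ e') : DyB pos c' e' := by
  obtain ⟨A, hA0, hA⟩ := sumsA_dyB h
  exact ⟨C * A, fun y hy => sumsC_mono C hA0 hy hc he (hA y hy)⟩

theorem WinB.add {c c' : T → ℝ≥0∞} {e : ℝ} (h : WinB pos c e) (h' : WinB pos c' e) :
    WinB pos (fun t => c t + c' t) e := by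
  obtain ⟨A, hA0, hA⟩ := sumsA_winB h
  obtain ⟨A', hA0', hA'⟩ := sumsA_winB h'
  exact ⟨A + A', fun y hy => sumsC_add hA0 hA0' hy (hA y hy) (hA' y hy)⟩

theorem DyB.add {c c' : T → ℝ≥0∞} {e : ℝ} (h : DyB pos c e) (h' : DyB pos c' e) :
    DyB pos (fun t => c t + c' t) e := by
  obtain ⟨A, hA0, hA⟩ := sumsA_dyB h
  obtain ⟨A', hA0', hA'⟩ := sumsA_dyB h'
  exact ⟨A + A', fun y hy => sumsC_add hA0 hA0' hy (hA y hy) (hA' y hy)⟩

theorem WinLLN.mono {w w' : T → ℝ≥0∞} {X : T → ℝ} {e : ℝ} (h : WinLLN pos w X e) (C : ℝ≥0)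
    (hc : ∀ t, w' t ≤ C * w t) : WinLLN pos w' X e := by
  intro ε δ hε hδ
  have hC : (0 : ℝ) < C + 1 := by positivity
  filter_upwards [h ε (δ / (C + 1)) hε (by positivity), eventually_ge_atTop 1] with y g1 hy
  refine (sumsC_mono C (by positivity) hy hc le_rfl g1).trans (ENNReal.ofReal_le_ofReal ?_)
  refine mul_le_mul_of_nonneg_right ?_ (Real.rpow_nonneg (by linarith) _)
  rw [← mul_div_assoc, div_le_iff₀ hC]
  nlinarith

theorem sumsC_pow {n : ℕ} (hn : Even n) {x y z a b C : ℝ} (h : |z - (a * x + b * y)| ≤ C) :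
    z ^ n ≤ (|a| + |b| + |C|) ^ n * (x ^ n + y ^ n + 1) := by
  obtain ⟨M, h1, h2, h3, h4⟩ : ∃ M : ℝ, |x| ≤ M ∧ |y| ≤ M ∧ 1 ≤ M ∧
      M ^ n ≤ x ^ n + y ^ n + 1 := by
    have p1 : 0 ≤ x ^ n := hn.pow_nonneg x
    have p2 : 0 ≤ y ^ n := hn.pow_nonneg y
    refine ⟨max (max |x| |y|) 1, (le_max_left _ _).trans (le_max_left _ _),
      (le_max_right _ _).trans (le_max_left _ _), le_max_right _ _, ?_⟩
    rcases max_choice (max |x| |y|) 1 with e | e
    · rw [e]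
      rcases max_choice |x| |y| with e' | e'
      · rw [e', hn.pow_abs]
        linarith
      · rw [e', hn.pow_abs]
        linarith
    · rw [e, one_pow]
      linarith
  have k1 : |z| ≤ (|a| + |b| + |C|) * M := by
    have k2 := abs_sub_abs_le_abs_sub z (a * x + b * y)
    have k3 := abs_add_le (a * x) (b * y)
    rw [abs_mul, abs_mul] at k3
    have k4 := mul_le_mul_of_nonneg_left h1 (abs_nonneg a)
    have k5 := mul_le_mul_of_nonneg_left h2 (abs_nonneg b)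
    have k6 := mul_le_mul_of_nonneg_left h3 (abs_nonneg C)
    have k7 := le_abs_self C
    linarith
  calc z ^ n = |z| ^ n := (hn.pow_abs z).symm
    _ ≤ ((|a| + |b| + |C|) * M) ^ n := pow_le_pow_left₀ (abs_nonneg z) k1 n
    _ = (|a| + |b| + |C|) ^ n * M ^ n := mul_pow _ _ _
    _ ≤ _ := mul_le_mul_of_nonneg_left h4 (by positivity)

theorem sumsC_comb {n : ℕ} (hn : Even n) (w : ℝ≥0∞) {x y z a b C : ℝ}
    (h : |z - (a * x + b * y)| ≤ C) :
    w * ENNReal.ofReal (z ^ n) ≤ (((|a| + |b| + |C|) ^ n).toNNReal : ℝ≥0) *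
      (w * ENNReal.ofReal (x ^ n) + w * ENNReal.ofReal (y ^ n) + w) := by
  have p1 : 0 ≤ x ^ n := hn.pow_nonneg x
  have p2 : 0 ≤ y ^ n := hn.pow_nonneg y
  have k := ENNReal.ofReal_le_ofReal (sumsC_pow hn h)
  rw [ENNReal.ofReal_mul (by positivity), ENNReal.ofReal_add (by positivity) zero_le_one,
    ENNReal.ofReal_add p1 p2, ENNReal.ofReal_one] at k
  calc w * ENNReal.ofReal (z ^ n) ≤ w * (ENNReal.ofReal ((|a| + |b| + |C|) ^ n) *
        (ENNReal.ofReal (x ^ n) + ENNReal.ofReal (y ^ n) + 1)) := by gcongr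
    _ = ENNReal.ofReal ((|a| + |b| + |C|) ^ n) *
        (w * ENNReal.ofReal (x ^ n) + w * ENNReal.ofReal (y ^ n) + w) := by ring
    _ = _ := rfl

/-- fourth moments of `a X + b Y + O(1)` -/
theorem WinB.four_comb {w : T → ℝ≥0∞} {X Y Z : T → ℝ} {a b C : ℝ} (hw : WinB pos w (-(11 / 6)))
    (hX : WinB pos (fun t => w t * ENNReal.ofReal (X t ^ 4)) (1 / 6))
    (hY : WinB pos (fun t => w t * ENNReal.ofReal (Y t ^ 4)) (1 / 6))
    (h : ∀ t, |Z t - (a * X t + b * Y t)| ≤ C) :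
    WinB pos (fun t => w t * ENNReal.ofReal (Z t ^ 4)) (1 / 6) := by
  have hw' : WinB pos w (1 / 6) := hw.mono 1 (fun t => by simp) (by norm_num)
  exact ((hX.add hY).add hw').mono _ (fun t => sumsC_comb (by decide) (w t) (h t)) le_rfl

/-- sixth moments of `a X + b Y + O(1)` -/
theorem DyB.six_comb {w : T → ℝ≥0∞} {X Y Z : T → ℝ} {a b C : ℝ} (hw : WinB pos w (-(11 / 6)))
    (hX : DyB pos (fun t => w t * ENNReal.ofReal (X t ^ 6)) (3 / 2))
    (hY : DyB pos (fun t => w t * ENNReal.ofReal (Y t ^ 6)) (3 / 2))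
    (h : ∀ t, |Z t - (a * X t + b * Y t)| ≤ C) :
    DyB pos (fun t => w t * ENNReal.ofReal (Z t ^ 6)) (3 / 2) := by
  have hw' : DyB pos w (3 / 2) := hw.dyB.mono 1 (fun t => by simp) (by norm_num)
  exact ((hX.add hY).add hw').mono _ (fun t => sumsC_comb (by decide) (w t) (h t)) le_rfl

theorem WinLLN.sum {ι : Type} (I : Finset ι) {w : T → ℝ≥0∞} {X : ι → T → ℝ} {e : ι → ℝ}
    (a : ι → ℝ) (h : ∀ i ∈ I, WinLLN pos w (X i) (e i)) :
    WinLLN pos w (fun t => ∑ i ∈ I, a i * X i t) (∑ i ∈ I, a i * e i) := by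
  classical
  induction I using Finset.induction_on with
  | empty => simpa using (WinLLN.self (pos := pos) w).add (WinLLN.self w) 0 0
  | insert i I hi ih =>
    have k := (h i (Finset.mem_insert_self i I)).add
      (ih fun j hj => h j (Finset.mem_insert_of_mem hj)) (a i) 1
    simp only [one_mul] at k
    simp only [Finset.sum_insert hi]
    exact k

theorem WinLLN.unique {w : T → ℝ≥0∞} {X : T → ℝ} {e e' c' : ℝ} (h : WinLLN pos w X e)
    (h' : WinLLN pos w X e') (hc : 0 < c')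
    (hl : ∀ᶠ y : ℝ in atTop, ENNReal.ofReal (c' * y ^ (-(11 / 6) : ℝ)) ≤
      ∑' t : {t // y ≤ pos t ∧ pos t ≤ y + y ^ (2 / 3 : ℝ)}, w t) : e = e' := by
  have k1 := (h.add h' 1 (-1)).le_of_le (b := 0) (C := 0) hc hl fun t => by simp
  have k2 := (h'.add h 1 (-1)).le_of_le (b := 0) (C := 0) hc hl fun t => by simp
  linarith

theorem WinCLT.const_mul {w : T → ℝ≥0} {X : T → ℝ} {c σ2 : ℝ} (h : WinCLT pos w X c σ2) (a : ℝ≥0) :
    WinCLT pos (fun t => a * w t) X (a * c) σ2 := by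
  intro φ hφ hc θ
  have k := (h φ hφ hc θ).const_mul ((a : ℝ) : ℂ)
  have e : (((a : ℝ) * c * Real.exp (-(σ2 * θ ^ 2 / 2)) * ∫ u, φ u : ℝ) : ℂ) =
      ((a : ℝ) : ℂ) * ((c * Real.exp (-(σ2 * θ ^ 2 / 2)) * ∫ u, φ u : ℝ) : ℂ) := by
    rw [← Complex.ofReal_mul]
    congr 1
    ring
  rw [e]
  refine k.congr fun p => ?_
  rw [mul_left_comm, ← tsum_mul_left]
  congr 1
  refine tsum_congr fun t => ?_
  rw [NNReal.coe_mul, Complex.ofReal_mul]
  ring

theorem sumsC_real {w : T → ℝ≥0} {p : T → Prop} {b : ℝ} (hb : 0 ≤ b)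
    (h : ∑' t : {t // p t}, (w t : ℝ≥0∞) ≤ ENNReal.ofReal b) :
    Summable (Set.indicator {t | p t} fun t => (w t : ℝ)) ∧
      ∑' t, Set.indicator {t | p t} (fun t => (w t : ℝ)) t ≤ b := by
  have h1 : ∑' t : {t // p t}, (w t : ℝ≥0∞) ≠ ⊤ := ne_top_of_le_ne_top ENNReal.ofReal_ne_top h
  have h2 : Summable fun t : {t // p t} => w t := ENNReal.tsum_coe_ne_top_iff_summable.1 h1
  have h3 : Summable fun t : {t // p t} => (w t : ℝ) := NNReal.summable_coe.2 h2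
  refine ⟨(summable_subtype_iff_indicator (f := fun t => (w t : ℝ)) (s := {t | p t})).1 h3, ?_⟩
  rw [← tsum_subtype {t | p t} fun t => (w t : ℝ)]
  rw [← ENNReal.coe_tsum h2, ← ENNReal.ofReal_coe_nnreal, ENNReal.ofReal_le_ofReal_iff hb,
    NNReal.coe_tsum] at h
  exact h

theorem sumsC_exp (u v : ℝ) :
    ‖Complex.exp (Complex.I * (u : ℂ)) - Complex.exp (Complex.I * (v : ℂ))‖ ≤ |u - v| := by
  have e : Complex.exp (Complex.I * (u : ℂ)) - Complex.exp (Complex.I * (v : ℂ)) =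
      Complex.exp (Complex.I * (v : ℂ)) * (Complex.exp (Complex.I * ((u - v : ℝ) : ℂ)) - 1) := by
    rw [mul_sub, ← Complex.exp_add, mul_one]
    congr 2
    push_cast
    ring
  rw [e, norm_mul, Complex.norm_exp_I_mul_ofReal, one_mul]
  exact Real.norm_exp_I_mul_ofReal_sub_one_le

theorem WinCLT.of_close {w : T → ℝ≥0} {X Y : T → ℝ} {c σ2 C : ℝ} (h : WinCLT pos w X c σ2)
    (hw : WinB pos (fun t => w t) (-(11 / 6))) (h' : ∀ t, |X t - Y t| ≤ C) :
    WinCLT pos w Y c σ2 := by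
  intro φ hφ hc θ
  obtain ⟨A, hA⟩ := hw.near
  obtain ⟨M, hM⟩ := hφ.bounded_above_of_compact_support hc
  obtain ⟨R, hR0, hR⟩ : ∃ R : ℝ, 0 < R ∧ ∀ u, φ u ≠ 0 → |u| ≤ R := by
    obtain ⟨R, hR0, hR⟩ := hc.isCompact.isBounded.exists_pos_norm_le
    exact ⟨R, hR0, fun u hu => hR u (subset_tsupport φ hu)⟩
  have hM0 : 0 ≤ M := (norm_nonneg _).trans (hM 0)
  have hlim : Tendsto (fun p : ℝ × ℝ => |A| * (1 + 2 * R) * M * |C| * (|p.2| * (√p.1)⁻¹))
      (atTop ×ˢ 𝓝 θ) (𝓝 0) := by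
    have a1 : Tendsto (fun p : ℝ × ℝ => |p.2|) (atTop ×ˢ 𝓝 θ) (𝓝 |θ|) := tendsto_snd.abs
    have a2 : Tendsto (fun p : ℝ × ℝ => (√p.1)⁻¹) (atTop ×ˢ 𝓝 θ) (𝓝 0) :=
      (Real.tendsto_sqrt_atTop.comp tendsto_fst).inv_tendsto_atTop
    simpa using (a1.mul a2).const_mul (|A| * (1 + 2 * R) * M * |C|)
  have hev : ∀ᶠ y : ℝ in atTop, 2 ≤ y ∧ R * y ^ (2 / 3 : ℝ) ≤ y / 2 := by
    filter_upwards [eventually_ge_atTop 2,
      (tendsto_rpow_atTop (show (0 : ℝ) < 1 / 3 by norm_num)).eventually_ge_atTop (2 * R)]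
      with y h1 h2
    have hy : 0 < y := by linarith
    have e : y ^ (1 / 3 : ℝ) * y ^ (2 / 3 : ℝ) = y := by
      rw [← Real.rpow_add hy]
      norm_num
    have := mul_le_mul_of_nonneg_right h2 (Real.rpow_nonneg hy.le (2 / 3 : ℝ))
    exact ⟨h1, by linarith⟩
  refine (h φ hφ hc θ).congr_dist (squeeze_zero' (Eventually.of_forall fun _ => dist_nonneg) ?_
    hlim)
  filter_upwards [tendsto_fst.eventually hev] with p hp
  obtain ⟨y, τ⟩ := p
  obtain ⟨hy2, hyR⟩ := hp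
  simp only at hy2 hyR ⊢
  have hy : 0 < y := by linarith
  set s : ℝ := y ^ (2 / 3 : ℝ) with hs
  have hs0 : 0 < s := Real.rpow_pos_of_pos hy _
  have hRs : 0 ≤ R * s := by positivity
  have hy6 : 0 < y ^ (-(11 / 6) : ℝ) := Real.rpow_pos_of_pos hy _
  have k1 := hA y hy2 (y - R * s) (y + R * s) (by linarith) (by linarith) (by linarith)
  have k2 : A * y ^ (-(11 / 6) : ℝ) * (1 + (y + R * s - (y - R * s)) / s) ≤
      |A| * (1 + 2 * R) * y ^ (-(11 / 6) : ℝ) := by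
    have e : (y + R * s - (y - R * s)) / s = 2 * R := by
      field_simp
      ring
    rw [e, mul_right_comm]
    gcongr
    exact le_abs_self A
  obtain ⟨k3, k4⟩ := sumsC_real (w := w) (by positivity) (k1.trans (ENNReal.ofReal_le_ofReal k2))
  set g : T → ℝ := Set.indicator {t | y - R * s ≤ pos t ∧ pos t ≤ y + R * s}
    fun t => (w t : ℝ) with hg
  have k5 : ∀ t, (w t : ℝ) * ‖φ ((pos t - y) / s)‖ ≤ g t * M := by
    intro t
    by_cases h0 : φ ((pos t - y) / s) = 0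
    · rw [h0, norm_zero, mul_zero]
      exact mul_nonneg (Set.indicator_nonneg (fun t _ => (w t).coe_nonneg) t) hM0
    · have a1 := hR _ h0
      rw [abs_div, abs_of_pos hs0, div_le_iff₀ hs0, abs_le] at a1
      rw [hg, Set.indicator_of_mem (show t ∈ {t | y - R * s ≤ pos t ∧ pos t ≤ y + R * s} from
        ⟨by linarith [a1.1], by linarith [a1.2]⟩)]
      exact mul_le_mul_of_nonneg_left (hM _) (w t).coe_nonneg
  have k6 : ∀ Z : T → ℝ, Summable fun t => ((w t : ℝ) : ℂ) *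
      Complex.exp (Complex.I * ((τ * Z t / √y : ℝ) : ℂ)) * ((φ ((pos t - y) / s) : ℝ) : ℂ) := by
    intro Z
    refine Summable.of_norm_bounded (k3.mul_right M) fun t => ?_
    rw [norm_mul, norm_mul, Complex.norm_exp_I_mul_ofReal, mul_one, Complex.norm_real,
      Complex.norm_real, Real.norm_of_nonneg (w t).coe_nonneg]
    exact k5 t
  have hsq : 0 < √y := Real.sqrt_pos.2 hy
  set K : ℝ := M * |C| * (|τ| * (√y)⁻¹) with hK
  have hK0 : 0 ≤ K := by positivity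
  have k7 : ‖∑' t, (((w t : ℝ) : ℂ) * Complex.exp (Complex.I * ((τ * X t / √y : ℝ) : ℂ)) *
        ((φ ((pos t - y) / s) : ℝ) : ℂ) - ((w t : ℝ) : ℂ) *
        Complex.exp (Complex.I * ((τ * Y t / √y : ℝ) : ℂ)) * ((φ ((pos t - y) / s) : ℝ) : ℂ))‖ ≤
      (∑' t, g t) * K := by
    refine tsum_of_norm_bounded (k3.hasSum.mul_right K) fun t => ?_
    rw [← sub_mul, ← mul_sub, norm_mul, norm_mul, Complex.norm_real, Complex.norm_real,
      Real.norm_of_nonneg (w t).coe_nonneg, mul_right_comm]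
    have a1 := sumsC_exp (τ * X t / √y) (τ * Y t / √y)
    have a2 : |τ * X t / √y - τ * Y t / √y| ≤ |C| * (|τ| * (√y)⁻¹) := by
      rw [← sub_div, ← mul_sub, abs_div, abs_mul, abs_of_pos hsq, div_eq_mul_inv, mul_comm |τ|,
        mul_assoc]
      exact mul_le_mul_of_nonneg_right ((h' t).trans (le_abs_self C)) (by positivity)
    calc _ ≤ g t * M * (|C| * (|τ| * (√y)⁻¹)) :=
          mul_le_mul (k5 t) (a1.trans a2) (norm_nonneg _)
            ((mul_nonneg (w t).coe_nonneg (norm_nonneg _)).trans (k5 t))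
      _ = g t * K := by rw [hK]; ring
  rw [dist_eq_norm, ← mul_sub, ← (k6 X).tsum_sub (k6 Y), norm_mul, Complex.norm_real,
    Real.norm_of_nonneg (Real.rpow_nonneg hy.le _)]
  have e : y ^ (11 / 6 : ℝ) * y ^ (-(11 / 6) : ℝ) = 1 := by
    rw [← Real.rpow_add hy]
    norm_num
  calc _ ≤ y ^ (11 / 6 : ℝ) * (|A| * (1 + 2 * R) * y ^ (-(11 / 6) : ℝ) * K) :=
        mul_le_mul_of_nonneg_left (k7.trans (mul_le_mul_of_nonneg_right k4 hK0))
          (Real.rpow_nonneg hy.le _)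
    _ = (y ^ (11 / 6 : ℝ) * y ^ (-(11 / 6) : ℝ)) * (|A| * (1 + 2 * R) * K) := by ring
    _ = _ := by rw [e, hK]; ring

end Pool.Agent.Lib.MP_77dff5_pr
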