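import Pool.Agent.Lib.MP_77dff5_pr.ASys
import Pool.Agent.Lib.MP_77dff5_pr.SumsB
import Pool.Agent.Lib.MP_77dff5_pr.SumsC

/-! Model A: window bounds for the statistics of cores. -/

set_option autoImplicit false

namespace Pool.Agent.Lib.MP_77dff5_pr

open MeasureTheory ProbabilityTheory Filter Topology
open scoped ENNReal NNReal

variable {w : ℝ}

/-- mean size of a filled core in model A -/
noncomputable def posA (w : ℝ) (t : TT) : ℝ :=
  (t.1.1 - t.1.2.1 - 1 : ℕ) + t.1.1 * ∫ ω, (sA ω : ℝ) ∂nuA w .D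

theorem aWin_V (w : ℝ) : ∀ᵐ ω ∂nuA w .V, ω = .inl triv := by
  refine ae_nrm fun ω hω => ?_
  rcases ω with R | ω
  · have h : wTriv (ENNReal.ofReal (xw w)) R ≠ 0 := hω
    by_contra hR
    apply h
    have : R ≠ triv := fun e => hR (by rw [e])
    simp [wTriv, ind, this]
  · exact absurd rfl hω

theorem aWin_int_V (w : ℝ) (g : Om → ℝ) (hg : g (.inl triv) = 0) : ∫ ω, g ω ∂nuA w .V = 0 := by
  rw [integral_congr_ae (g := fun _ => 0) ((aWin_V w).mono fun ω hω => by rw [hω]; exact hg)]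
  simp

theorem pos_FA (hw : 0 < w) (f : ℕ → ℝ) (k0 : ℕ) (lam mu : ℝ) :
    (FA w f k0 lam mu .H).pos (nuA w) sA = posA w := by
  have _ := hw
  funext t
  have h := tcore_mean (ν := nuA w) (s := sA) (a := aO) (b := bO) (c := cO) (jD := JA.D)
    (jV := JA.V) (f := f) (k0 := k0) t.1 (t.1.1 - t.1.2.1 - 1)
    (-(mu * (t.1.1 - t.1.2.1 - 1 : ℕ)))
  rw [aWin_int_V w (fun ω => (sA ω : ℝ)) (by simp [sA, triv]), mul_zero, add_zero] at h
  exact h

theorem aWin_cast (t : TT) : ((t.1.1 - t.1.2.1 - 1 : ℕ) : ℝ) = t.1.1 - t.1.2.1 - 1 := by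
  have h := (TT_facts t).2.1
  rw [Nat.cast_sub (by omega), Nat.cast_sub (by omega), Nat.cast_one]

theorem aWin_L (hw : 0 < w) {f : ℕ → ℝ} {k0 : ℕ} (hf : EvC f k0) (mu : ℝ) (t : TT) :
    ((FA w f k0 0 mu .H).core t).L (nuA w) (zz sA f 0 mu) =
      Fl (fun d => ell (nuA w .D) (nuA w .V) aO cO f k0 d + mu) t.1 -
        (mu - ∫ ω, zz sA f 0 mu ω ∂nuA w .D) * posm t + mu := by
  have h := tcore_L (ν := nuA w) (s := sA) (a := aO) (b := bO) (c := cO) (jD := JA.D)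
    (jV := JA.V) (slots1_A hw hf 0 mu) hf (symD_A f 0 mu) t.1 (TT_facts t).1.1
    (t.1.1 - t.1.2.1 - 1) (-(mu * (t.1.1 - t.1.2.1 - 1 : ℕ)))
  have h0 : zz sA f 0 mu (.inl triv) = 0 := by
    have e : rF f triv = 0 := Finset.sum_eq_zero fun v _ => v.elim0
    simp only [zz, FO, e, sA]
    simp [triv]
  rw [aWin_int_V w (zz sA f 0 mu) h0, mul_zero, add_zero] at h
  refine h.trans ?_
  rw [Fl_add_const, aWin_cast, posm]
  ring

theorem aWin_ell (hw : 0 < w) {l : ℕ → ℝ} {k0 : ℕ} (hl : EvC l k0) :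
    ∃ f : ℕ → ℝ, EvC f k0 ∧ ell (nuA w .D) (nuA w .V) aO cO f k0 = l ∧
      (l = (fun _ => 1) → f = fun _ => 1) := by
  have hp := (slots1_A hw hl 0 0).prob
  have := hp .D
  have := hp .V
  by_cases h1 : l = fun _ => 1
  · refine ⟨fun _ => 1, fun _ _ => rfl, ?_, fun _ => rfl⟩
    rw [h1]
    funext d
    unfold ell
    split_ifs <;> simp
  obtain ⟨hx, hy, -⟩ := crit_pos hw
  refine (exists_ell_eq (μD := nuA w .D) (μV := nuA w .V) (a := aO) (c := cO)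
    (ae_nrm fun ω hω => (suppA hω).1) ?_ ?_ hl).imp fun f hf => ⟨hf.1, hf.2, fun h => absurd h h1⟩
  · obtain ⟨ω, h2, h3, -⟩ := atomA_E (x := ENNReal.ofReal (xw w))
      (ENNReal.ofReal_pos.2 hy).ne'
    refine nrm_ne_zero (massA_ne hw .D).2 (ω := ω) ?_ h3
    intro h0
    have h4 := partA (x := ENNReal.ofReal (xw w)) (y := ENNReal.ofReal (yw w)) .D (by decide) ω
    have h5 : wgA (ENNReal.ofReal (xw w)) (ENNReal.ofReal (yw w)) .D ω = 0 := h0
    rw [h5] at h4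
    have h6 := (Finset.sum_eq_zero_iff.1 h4.symm) .E (Finset.mem_univ _)
    exact h2 (by simpa [incA] using h6)
  · refine nrm_ne_zero (massA_ne hw .V).2 (ω := .inl triv) ?_ ?_
    · show wTriv (ENNReal.ofReal (xw w)) triv ≠ 0
      simpa [wTriv, ind] using hx
    · show deg triv.2.2 none = 0
      simp [deg, triv]

/-- every eventually constant statistic of the core is the mean of a statistic of the map -/
theorem exists_repr (hw : 0 < w) {l : ℕ → ℝ} {k0 : ℕ} (hl : EvC l k0) :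
    ∃ (f : ℕ → ℝ) (mu c σ2 cen : ℝ), EvC f k0 ∧ MData w f mu c σ2 ∧
      (∀ t : TT, ((FA w f k0 0 mu .H).core t).L (nuA w) (zz sA f 0 mu) =
        Fl l t.1 - cen * posm t + mu) ∧
      (l = (fun _ => 1) → cen < 1 + ∫ ω, (sA ω : ℝ) ∂nuA w .D) := by
  obtain ⟨mu, m0, madd, md⟩ := mdata hw
  obtain ⟨f0, hf0, he, h1⟩ := aWin_ell hw hl
  obtain ⟨κ, hκ⟩ : ∃ κ : ℝ, κ = -(mu f0) / (1 + mu fun _ => 1) := ⟨_, rfl⟩
  have hpos : 0 < 1 + mu fun _ => 1 := by linarith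
  have hf : EvC (fun d => f0 d + κ) k0 := fun d hd => by simp only [hf0 d hd]
  have hm : mu (fun d => f0 d + κ) = -κ := by
    rw [madd f0 k0 hf0, hκ]
    field_simp
    ring
  obtain ⟨c, σ2, hd⟩ := md _ k0 hf
  have hs := slots1_A hw hf 0 (mu fun d => f0 d + κ)
  have := hs.prob .D
  have := hs.prob .V
  refine ⟨_, _, c, σ2, mu (fun d => f0 d + κ) -
    ∫ ω, zz sA (fun d => f0 d + κ) 0 (mu fun d => f0 d + κ) ω ∂nuA w .D, hf, hd,
    fun t => (aWin_L hw hf _ t).trans ?_, fun h => ?_⟩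
  · congr 3
    funext d
    rw [ell_add_const hf0, he, hm]
    ring
  · have e1 := h1 h
    subst e1
    have k1 : -κ < 1 := by
      rw [hκ, neg_div, neg_neg, div_lt_one hpos]
      linarith
    have k2 : 0 ≤ ∫ ω, (sA ω : ℝ) ∂nuA w .D := integral_nonneg fun ω => by positivity
    have k3 : ∫ ω, κ * (sA ω : ℝ) ∂nuA w .D ≤
        ∫ ω, zz sA (fun _ => 1 + κ) 0 (mu fun _ => 1 + κ) ω ∂nuA w .D := by
      refine integral_mono ((hs.int_s .D).const_mul κ) (hs.int_z .D) fun ω => ?_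
      simp only [zz, FO_const, hm]
      have : 0 ≤ (1 + κ) * (nv ω : ℝ) := mul_nonneg (by linarith) (Nat.cast_nonneg _)
      linarith
    rw [integral_const_mul] at k3
    rw [hm] at k3 ⊢
    nlinarith

/-- the two scales are asymptotically proportional -/
structure Scale (w : TT → ℝ≥0) (pos pos' U : TT → ℝ) (α C : ℝ) : Prop where
  hα : 0 < α
  h1 : ∀ t, 1 ≤ pos t
  h2 : ∀ t, pos t ≤ C * pos' t
  h3 : ∀ t, pos' t ≤ C * pos t
  h4 : ∀ t, |pos' t - α * pos t| ≤ C * (|U t| + 1)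
  hw : WinB pos (fun t => w t) (-(11 / 6))
  hU : DyB pos (fun t => w t * ENNReal.ofReal (U t ^ 6)) (3 / 2)

theorem aWin_bounds (hw : 0 < w) {l : ℕ → ℝ} {k0 : ℕ} (hl : EvC l k0) : ∃ cen : ℝ,
    WinB (posA w) (fun t => wTw w t) (-(11 / 6)) ∧
    WinB (posA w) (fun t => wTw w t * ENNReal.ofReal ((Fl l t.1 - cen * posm t) ^ 4)) (1 / 6) ∧
    DyB (posA w) (fun t => wTw w t * ENNReal.ofReal ((Fl l t.1 - cen * posm t) ^ 6)) (3 / 2) ∧
    (l = (fun _ => 1) → cen < 1 + ∫ ω, (sA ω : ℝ) ∂nuA w .D) := by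
  obtain ⟨f, mu, c, σ2, cen, hf, hd, hL, hc⟩ := exists_repr hw hl
  obtain ⟨Δ, B, -, -, hH⟩ := goodA hw hf 0 mu
  obtain ⟨hs, A, h1, -⟩ := hd.slots hw hf
  obtain ⟨C, hC⟩ := (hd.sixA hw hf).2
  obtain ⟨a1, a2, a3⟩ := Fam.winB_of_local hs h1 hH hC
  rw [pos_FA hw] at a1 a2 a3
  have hle : ∀ t : TT, (wTw w t : ℝ≥0∞) ≤ ((FA w f k0 0 mu .H).w t : ℝ≥0∞) := fun t => by
    rw [FA_H_w hw, ENNReal.coe_le_coe, two_mul]
    exact le_self_add
  have b1 : WinB (posA w) (fun t => wTw w t) (-(11 / 6)) :=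
    WinB.mono (T := TT) a1 1 (fun t => by simpa using hle t) le_rfl
  have b2 : WinB (posA w) (fun t => wTw w t *
      ENNReal.ofReal ((Fl l t.1 - cen * posm t + mu) ^ 4)) (1 / 6) :=
    WinB.mono (T := TT) a2 1 (fun t => by
      rw [hL t, ENNReal.coe_one, one_mul]
      exact mul_le_mul_left (hle t) _) le_rfl
  have b3 : DyB (posA w) (fun t => wTw w t *
      ENNReal.ofReal ((Fl l t.1 - cen * posm t + mu) ^ 6)) (3 / 2) :=
    DyB.mono (T := TT) a3 1 (fun t => by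
      rw [hL t, ENNReal.coe_one, one_mul]
      exact mul_le_mul_left (hle t) _) le_rfl
  refine ⟨cen, b1, WinB.four_comb (a := 1) (b := 0) (C := |mu|) b1 b2 b2 fun t => ?_,
    DyB.six_comb (a := 1) (b := 0) (C := |mu|) b1 b3 b3 fun t => ?_, hc⟩ <;>
  · rw [← abs_neg mu]
    apply le_of_eq
    congr 1
    ring

theorem scaleA (hw : 0 < w) : ∃ (U : TT → ℝ) (α C : ℝ),
    Scale (wTw w) (posA w) posm U α⁻¹ C ∧ Scale (wTw w) posm (posA w) U α C := by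
  obtain ⟨cen, b1, -, b3, hc⟩ := aWin_bounds hw (l := fun _ => 1) (k0 := 0) fun _ _ => rfl
  have hc' := hc rfl
  obtain ⟨μ, hμ⟩ : ∃ μ, μ = ∫ ω, (sA ω : ℝ) ∂nuA w .D := ⟨_, rfl⟩
  have k2 : 0 ≤ μ := hμ ▸ integral_nonneg fun ω => by positivity
  rw [← hμ] at hc'
  obtain ⟨α, hα⟩ : ∃ α, α = 1 + μ - cen := ⟨_, rfl⟩
  have hα0 : 0 < α := by linarith
  have hαi : 0 < α⁻¹ := inv_pos.2 hα0
  have hA : ∀ t : TT, posA w t = t.1.1 - t.1.2.1 - 1 + t.1.1 * μ := fun t => by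
    rw [posA, aWin_cast, hμ]
  have hF : ∀ t : TT, Fl (fun _ => 1) t.1 = t.1.2.1 := fun t => by simp [Fl]
  have hE : ∀ t : TT, posA w t - α * posm t = -(Fl (fun _ => 1) t.1 - cen * posm t + 1) := fun t => by
    rw [hA, hF, hα, posm]
    ring
  have hn : ∀ t : TT, 3 * (t.1.2.1 : ℝ) + 4 ≤ 2 * t.1.1 ∧ (1 : ℝ) ≤ t.1.2.1 := fun t =>
    ⟨by exact_mod_cast (TT_facts t).2.1, by exact_mod_cast (TT_facts t).2.2.2.1⟩
  have g1 : ∀ t : TT, 1 ≤ posA w t := fun t => by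
    have := hn t
    have : 0 ≤ (t.1.1 : ℝ) * μ := by positivity
    rw [hA]
    linarith [(hn t).1, (hn t).2]
  have g2 : ∀ t : TT, posA w t ≤ (3 + μ + α⁻¹) * posm t := fun t => by
    have h0 : (0 : ℝ) ≤ t.1.1 := Nat.cast_nonneg _
    rw [hA, posm]
    nlinarith [(hn t).2, mul_nonneg hαi.le h0]
  have g3 : ∀ t : TT, posm t ≤ (3 + μ + α⁻¹) * posA w t := fun t => by
    have h0 : 0 ≤ (t.1.1 : ℝ) * μ := by positivity
    have h1 : posm t ≤ 3 * posA w t := by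
      rw [hA, posm]
      linarith [(hn t).1]
    nlinarith [g1 t]
  have g4 : ∀ t : TT, |posA w t - α * posm t| ≤ |Fl (fun _ => 1) t.1 - cen * posm t| + 1 := fun t => by
    rw [hE, abs_neg]
    simpa using abs_add_le (Fl (fun _ => 1) t.1 - cen * posm t) 1
  have g5 : ∀ t : TT, |posm t - α⁻¹ * posA w t| ≤
      (3 + μ + α⁻¹) * (|Fl (fun _ => 1) t.1 - cen * posm t| + 1) := fun t => by
    have e : posm t - α⁻¹ * posA w t = -(α⁻¹ * (posA w t - α * posm t)) := by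
      field_simp
      ring
    rw [e, abs_neg, abs_mul, abs_of_pos hαi]
    exact mul_le_mul (by linarith) (g4 t) (abs_nonneg _) (by linarith)
  refine ⟨fun t => Fl (fun _ => 1) t.1 - cen * posm t, α, 3 + μ + α⁻¹,
    ⟨hαi, g1, g2, g3, g5, b1, b3⟩, hα0, fun t => ?_, g3, g2, fun t => (g4 t).trans ?_,
    WinB.scale hαi g1 g2 g3 g5 b1 b3, b3.of_comparable g1 g2 g3⟩
  · rw [posm]
    linarith [(hn t).1, (hn t).2]
  · exact le_mul_of_one_le_left (by positivity) (by linarith)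

theorem winA_stat (hw : 0 < w) {l : ℕ → ℝ} {k0 : ℕ} (hl : EvC l k0) :
    ∃ e : ℝ, WinLLN posm (fun t => wTw w t) (fun t => Fl l t.1) e := by
  obtain ⟨cen, -, b2, b3, -⟩ := aWin_bounds hw hl
  obtain ⟨U, α, C, h, -⟩ := scaleA hw
  exact ⟨cen, WinLLN.of_four (WinB.scale4 h.hα h.h1 h.h2 h.h3 h.h4 h.hw h.hU b2 b3)⟩

end Pool.Agent.Lib.MP_77dff5_pr
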