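import Pool.Agent.Lib.MP_77dff5_pr.PDefs

/-! Sums over weighted points controlled in windows; change of scale. -/

set_option autoImplicit false

namespace Pool.Agent.Lib.MP_77dff5_pr

open MeasureTheory Filter Topology
open scoped ENNReal NNReal

variable {T : Type} {pos pos' : T → ℝ}

theorem sumsA_eq (c : T → ℝ≥0∞) (p : T → Prop) :
    ∑' t : {t // p t}, c t = ∑' t, Set.indicator {t | p t} c t :=
  tsum_subtype {t | p t} c

theorem sumsA_mono (c : T → ℝ≥0∞) {p q : T → Prop} (h : ∀ t, p t → q t) :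
    ∑' t : {t // p t}, c t ≤ ∑' t : {t // q t}, c t :=
  ENNReal.tsum_mono_subtype c (s := {t | p t}) (t := {t | q t}) h

theorem sumsA_cover_nat (c : T → ℝ≥0∞) {p : T → Prop} (q : ℕ → T → Prop)
    (h : ∀ t, p t → ∃ i, q i t) :
    ∑' t : {t // p t}, c t ≤ ∑' i, ∑' t : {t // q i t}, c t := by
  simp only [sumsA_eq]
  rw [ENNReal.tsum_comm]
  refine ENNReal.tsum_le_tsum fun t => ?_
  by_cases hp : p t
  · obtain ⟨i, hi⟩ := h t hp
    refine le_trans ?_ (ENNReal.le_tsum i)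
    rw [Set.indicator_of_mem (s := {t | p t}) hp, Set.indicator_of_mem (s := {t | q i t}) hi]
  · rw [Set.indicator_of_notMem (s := {t | p t}) hp]
    exact zero_le

theorem sumsA_cover_fin (c : T → ℝ≥0∞) {p : T → Prop} (q : ℕ → T → Prop) (N : ℕ)
    (h : ∀ t, p t → ∃ i, i < N ∧ q i t) :
    ∑' t : {t // p t}, c t ≤ ∑ i ∈ Finset.range N, ∑' t : {t // q i t}, c t := by
  simp only [sumsA_eq]
  rw [← Summable.tsum_finsetSum (fun _ _ => ENNReal.summable)]
  refine ENNReal.tsum_le_tsum fun t => ?_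
  by_cases hp : p t
  · obtain ⟨i, hi, hq⟩ := h t hp
    refine le_trans ?_ (Finset.single_le_sum (f := fun i => Set.indicator {t | q i t} c t)
      (fun _ _ => zero_le) (Finset.mem_range.mpr hi))
    rw [Set.indicator_of_mem (s := {t | p t}) hp]
    exact (Set.indicator_of_mem (s := {t | q i t}) hq c).ge
  · rw [Set.indicator_of_notMem (s := {t | p t}) hp]
    exact zero_le

theorem sumsA_cover_two (c : T → ℝ≥0∞) {p q r : T → Prop} (h : ∀ t, p t → q t ∨ r t) :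
    ∑' t : {t // p t}, c t ≤ (∑' t : {t // q t}, c t) + ∑' t : {t // r t}, c t := by
  simp only [sumsA_eq]
  rw [← ENNReal.tsum_add]
  refine ENNReal.tsum_le_tsum fun t => ?_
  by_cases hp : p t
  · rw [Set.indicator_of_mem (s := {t | p t}) hp]
    rcases h t hp with h | h
    · rw [Set.indicator_of_mem (s := {t | q t}) h]
      exact le_self_add
    · rw [Set.indicator_of_mem (s := {t | r t}) h]
      exact le_add_self
  · rw [Set.indicator_of_notMem (s := {t | p t}) hp]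
    exact zero_le

theorem sumsA_disj (c : T → ℝ≥0∞) {p : T → Prop} (q : ℕ → T → Prop) (N : ℕ)
    (h : ∀ t i, i < N → q i t → p t) (hd : ∀ t i j, q i t → q j t → i = j) :
    ∑ i ∈ Finset.range N, ∑' t : {t // q i t}, c t ≤ ∑' t : {t // p t}, c t := by
  simp only [sumsA_eq]
  rw [← Summable.tsum_finsetSum (fun _ _ => ENNReal.summable)]
  refine ENNReal.tsum_le_tsum fun t => ?_
  by_cases hq : ∃ i, i < N ∧ q i t
  · obtain ⟨i, hi, hq⟩ := hq
    rw [Finset.sum_eq_single i, Set.indicator_of_mem (s := {t | q i t}) hq,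
      Set.indicator_of_mem (s := {t | p t}) (h t i hi hq)]
    · intro j _ hj
      exact Set.indicator_of_notMem (s := {t | q j t}) (fun hh => hj (hd t j i hh hq)) c
    · intro hh
      exact absurd (Finset.mem_range.mpr hi) hh
  · rw [Finset.sum_eq_zero]
    · exact zero_le
    · intro i hi
      exact Set.indicator_of_notMem (s := {t | q i t})
        (fun hh => hq ⟨i, Finset.mem_range.mp hi, hh⟩) c

theorem sumsA_le_mul {c c' : T → ℝ≥0∞} {p : T → Prop} {k : ℝ≥0∞} (h : ∀ t, p t → c t ≤ k * c' t) :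
    ∑' t : {t // p t}, c t ≤ k * ∑' t : {t // p t}, c' t := by
  rw [← ENNReal.tsum_mul_left]
  exact ENNReal.tsum_le_tsum fun t => h t.1 t.2

theorem sumsA_rpow {x y K : ℝ} (e : ℝ) (hx : 0 < x) (hy : 0 < y) (hK : 0 < K) (h1 : x ≤ K * y)
    (h2 : y ≤ K * x) : x ^ e ≤ K ^ |e| * y ^ e := by
  rcases le_total 0 e with he | he
  · rw [abs_of_nonneg he, ← Real.mul_rpow hK.le hy.le]
    exact Real.rpow_le_rpow hx.le h1 he
  · have h3 : y / K ≤ x := by rwa [div_le_iff₀ hK, mul_comm]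
    have h4 := Real.rpow_le_rpow_of_nonpos (div_pos hy hK) h3 he
    rw [Real.div_rpow hy.le hK.le] at h4
    rw [abs_of_nonpos he, Real.rpow_neg hK.le, mul_comm]
    exact h4

theorem sumsA_winB {c : T → ℝ≥0∞} {e : ℝ} (h : WinB pos c e) :
    ∃ A : ℝ, 0 ≤ A ∧ ∀ y : ℝ, 1 ≤ y →
      ∑' t : {t // y ≤ pos t ∧ pos t ≤ y + y ^ (2 / 3 : ℝ)}, c t ≤ ENNReal.ofReal (A * y ^ e) := by
  obtain ⟨A, hA⟩ := h
  refine ⟨max A 0, le_max_right _ _, fun y hy => (hA y hy).trans (ENNReal.ofReal_le_ofReal ?_)⟩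
  exact mul_le_mul_of_nonneg_right (le_max_left _ _) (Real.rpow_nonneg (by linarith) _)

theorem sumsA_dyB {c : T → ℝ≥0∞} {e : ℝ} (h : DyB pos c e) :
    ∃ A : ℝ, 0 ≤ A ∧ ∀ y : ℝ, 1 ≤ y →
      ∑' t : {t // y ≤ pos t ∧ pos t ≤ 2 * y}, c t ≤ ENNReal.ofReal (A * y ^ e) := by
  obtain ⟨A, hA⟩ := h
  refine ⟨max A 0, le_max_right _ _, fun y hy => (hA y hy).trans (ENNReal.ofReal_le_ofReal ?_)⟩
  exact mul_le_mul_of_nonneg_right (le_max_left _ _) (Real.rpow_nonneg (by linarith) _)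

theorem sumsA_sum_le {N : ℕ} {f : ℕ → ℝ≥0∞} {b : ℝ} (h : ∀ i, i < N → f i ≤ ENNReal.ofReal b) :
    ∑ i ∈ Finset.range N, f i ≤ ENNReal.ofReal (N * b) := by
  refine (Finset.sum_le_card_nsmul _ _ _ fun i hi => h i (Finset.mem_range.mp hi)).trans ?_
  rw [Finset.card_range, nsmul_eq_mul, ENNReal.ofReal_mul (Nat.cast_nonneg N),
    ENNReal.ofReal_natCast]

theorem sumsA_cover {c : T → ℝ≥0∞} {e : ℝ} (h : WinB pos c e) :
    ∃ A : ℝ, 0 ≤ A ∧ ∀ y : ℝ, 1 ≤ y → ∀ a b : ℝ, y ≤ a → a ≤ b → b ≤ 4 * y →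
      ∑' t : {t // a ≤ pos t ∧ pos t ≤ b}, c t ≤
        ENNReal.ofReal (A * y ^ e * (1 + (b - a) / y ^ (2 / 3 : ℝ))) := by
  obtain ⟨A, hA0, hA⟩ := sumsA_winB h
  refine ⟨A * 4 ^ |e|, by positivity, fun y hy a b hya hab hb => ?_⟩
  have hy0 : 0 < y := by linarith
  set s : ℝ := y ^ (2 / 3 : ℝ) with hs
  have hs0 : 0 < s := Real.rpow_pos_of_pos hy0 _
  have hq : 0 ≤ (b - a) / s := div_nonneg (by linarith) hs0.le
  refine (sumsA_cover_fin c (fun i t => a + i * s ≤ pos t ∧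
    pos t ≤ a + i * s + (a + i * s) ^ (2 / 3 : ℝ)) (⌊(b - a) / s⌋₊ + 1) ?_).trans ?_
  · rintro t ⟨h1, h2⟩
    have hq' : 0 ≤ (pos t - a) / s := div_nonneg (by linarith) hs0.le
    refine ⟨⌊(pos t - a) / s⌋₊, Nat.lt_succ_of_le (Nat.floor_le_floor ?_), ?_, ?_⟩
    · exact div_le_div_of_nonneg_right (by linarith) hs0.le
    · have := Nat.floor_le hq'
      rw [le_div_iff₀ hs0] at this
      linarith
    · have h3 := Nat.lt_floor_add_one ((pos t - a) / s)
      rw [div_lt_iff₀ hs0] at h3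
      have h4 : s ≤ (a + ⌊(pos t - a) / s⌋₊ * s) ^ (2 / 3 : ℝ) := by
        refine Real.rpow_le_rpow hy0.le ?_ (by norm_num)
        have : 0 ≤ (⌊(pos t - a) / s⌋₊ : ℝ) * s := by positivity
        linarith
      linarith
  · refine (sumsA_sum_le (b := A * 4 ^ |e| * y ^ e) fun i hi => ?_).trans
      (ENNReal.ofReal_le_ofReal ?_)
    · have h1 : (i : ℝ) ≤ (b - a) / s :=
        (Nat.cast_le.mpr (Nat.lt_succ_iff.mp hi)).trans (Nat.floor_le hq)
      rw [le_div_iff₀ hs0] at h1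
      have h2 : 0 ≤ (i : ℝ) * s := by positivity
      refine (hA _ (by linarith)).trans (ENNReal.ofReal_le_ofReal ?_)
      rw [mul_assoc]
      exact mul_le_mul_of_nonneg_left
        (sumsA_rpow e (by linarith) hy0 (by norm_num) (by linarith) (by linarith)) hA0
    · rw [mul_comm]
      refine mul_le_mul_of_nonneg_left ?_ (by positivity)
      push_cast
      have := Nat.floor_le hq
      linarith

theorem WinB.dyB {c : T → ℝ≥0∞} {e : ℝ} (h : WinB pos c e) : DyB pos c (e + 1 / 3) := by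
  obtain ⟨A, hA0, hA⟩ := sumsA_cover h
  refine ⟨2 * A, fun y hy => ?_⟩
  have hy0 : 0 < y := by linarith
  refine (hA y hy y (2 * y) le_rfl (by linarith) (by linarith)).trans (ENNReal.ofReal_le_ofReal ?_)
  have h1 : (2 * y - y) / y ^ (2 / 3 : ℝ) = y ^ (1 / 3 : ℝ) := by
    rw [div_eq_iff (Real.rpow_pos_of_pos hy0 _).ne', ← Real.rpow_add hy0]
    norm_num
    ring
  have h2 : 1 ≤ y ^ (1 / 3 : ℝ) := Real.one_le_rpow hy (by norm_num)
  rw [h1, Real.rpow_add hy0]
  have h3 : 0 ≤ A * y ^ e := by positivity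
  nlinarith

/-- longer and shifted windows -/
theorem WinB.near {c : T → ℝ≥0∞} {e : ℝ} (h : WinB pos c e) :
    ∃ A : ℝ, ∀ y : ℝ, 2 ≤ y → ∀ a b : ℝ, y / 2 ≤ a → a ≤ b → b ≤ 2 * y →
      ∑' t : {t // a ≤ pos t ∧ pos t ≤ b}, c t ≤
        ENNReal.ofReal (A * y ^ e * (1 + (b - a) / y ^ (2 / 3 : ℝ))) := by
  obtain ⟨A, hA0, hA⟩ := sumsA_cover h
  refine ⟨A * 2 ^ |e| * 2, fun y hy a b ha hab hb => ?_⟩
  have hy0 : 0 < y := by linarith
  refine (hA (y / 2) (by linarith) a b ha hab (by linarith)).trans (ENNReal.ofReal_le_ofReal ?_)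
  have h1 : (y / 2) ^ e ≤ 2 ^ |e| * y ^ e :=
    sumsA_rpow e (by linarith) hy0 (by norm_num) (by linarith) (by linarith)
  have hs : 0 < y ^ (2 / 3 : ℝ) := Real.rpow_pos_of_pos hy0 _
  have h2 : y ^ (2 / 3 : ℝ) / 2 ≤ (y / 2) ^ (2 / 3 : ℝ) := by
    rw [Real.div_rpow hy0.le (by norm_num)]
    refine div_le_div_of_nonneg_left hs.le (by positivity) ?_
    calc (2 : ℝ) ^ (2 / 3 : ℝ) ≤ 2 ^ (1 : ℝ) :=
          Real.rpow_le_rpow_of_exponent_le (by norm_num) (by norm_num)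
      _ = 2 := Real.rpow_one 2
  have h3 : (b - a) / (y / 2) ^ (2 / 3 : ℝ) ≤ 2 * ((b - a) / y ^ (2 / 3 : ℝ)) := by
    refine (div_le_div_of_nonneg_left (by linarith) (by positivity) h2).trans (le_of_eq ?_)
    field_simp
  have h4 : 0 ≤ (b - a) / y ^ (2 / 3 : ℝ) := div_nonneg (by linarith) hs.le
  have h5 : 0 ≤ (b - a) / (y / 2) ^ (2 / 3 : ℝ) := div_nonneg (by linarith) (by positivity)
  calc A * (y / 2) ^ e * (1 + (b - a) / (y / 2) ^ (2 / 3 : ℝ))
      ≤ A * (2 ^ |e| * y ^ e) * (2 * (1 + (b - a) / y ^ (2 / 3 : ℝ))) := by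
        gcongr
        linarith
    _ = _ := by ring

theorem DyB.mul_rpow {c : T → ℝ≥0∞} {e : ℝ} (h : DyB pos c e) (a : ℝ) :
    DyB pos (fun t => c t * ENNReal.ofReal (pos t ^ a)) (e + a) := by
  obtain ⟨A, hA⟩ := h
  refine ⟨2 ^ |a| * A, fun y hy => ?_⟩
  have hy0 : 0 < y := by linarith
  refine (sumsA_le_mul (c := fun t => c t * ENNReal.ofReal (pos t ^ a)) (c' := c)
    (k := ENNReal.ofReal (2 ^ |a| * y ^ a)) ?_).trans ?_
  · rintro t ⟨h1, h2⟩
    rw [mul_comm]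
    exact mul_le_mul_left (ENNReal.ofReal_le_ofReal
      (sumsA_rpow a (by linarith) hy0 (by norm_num) h2 (by linarith))) _
  · refine (mul_le_mul_right (hA y hy) _).trans (le_of_eq ?_)
    rw [← ENNReal.ofReal_mul (by positivity), Real.rpow_add hy0]
    congr 1
    ring

theorem sumsA_pow_rpow (i : ℕ) (e : ℝ) : ((2 : ℝ) ^ i) ^ e = ((2 : ℝ) ^ e) ^ i := by
  rw [← Real.rpow_natCast, ← Real.rpow_mul (by norm_num), mul_comm, Real.rpow_mul (by norm_num),
    Real.rpow_natCast]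

theorem DyB.tail {c : T → ℝ≥0∞} {e : ℝ} (h : DyB pos c e) (he : e < 0) :
    ∃ A : ℝ, ∀ y : ℝ, 1 ≤ y → ∑' t : {t // y ≤ pos t}, c t ≤ ENNReal.ofReal (A * y ^ e) := by
  obtain ⟨A, hA0, hA⟩ := sumsA_dyB h
  set r : ℝ := 2 ^ e with hr
  have hr0 : 0 ≤ r := by positivity
  have hr1 : r < 1 := Real.rpow_lt_one_of_one_lt_of_neg (by norm_num) he
  refine ⟨A * (1 - r)⁻¹, fun y hy => ?_⟩
  have hy0 : 0 < y := by linarith
  refine (sumsA_cover_nat c (fun i t => 2 ^ i * y ≤ pos t ∧ pos t ≤ 2 * (2 ^ i * y)) ?_).trans ?_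
  · intro t ht
    obtain ⟨i, h1, h2⟩ := exists_nat_pow_near ((one_le_div hy0).mpr ht) (one_lt_two (α := ℝ))
    rw [le_div_iff₀ hy0] at h1
    rw [div_lt_iff₀ hy0, pow_succ] at h2
    exact ⟨i, h1, by linarith⟩
  · have hs : HasSum (fun i : ℕ => A * y ^ e * r ^ i) (A * y ^ e * (1 - r)⁻¹) :=
      (hasSum_geometric_of_lt_one hr0 hr1).mul_left _
    calc ∑' i : ℕ, ∑' t : {t // 2 ^ i * y ≤ pos t ∧ pos t ≤ 2 * (2 ^ i * y)}, c t
        ≤ ∑' i : ℕ, ENNReal.ofReal (A * y ^ e * r ^ i) := by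
          refine ENNReal.tsum_le_tsum fun i => ?_
          have h1 : (1 : ℝ) ≤ 2 ^ i := one_le_pow₀ (by norm_num)
          refine (hA _ (by nlinarith)).trans (le_of_eq ?_)
          rw [Real.mul_rpow (by positivity) hy0.le, sumsA_pow_rpow]
          congr 1
          ring
      _ = ENNReal.ofReal (A * (1 - r)⁻¹ * y ^ e) := by
          rw [← ENNReal.ofReal_tsum_of_nonneg (fun i => by positivity) hs.summable, hs.tsum_eq]
          congr 1
          ring

theorem DyB.head {c : T → ℝ≥0∞} {e : ℝ} (h : DyB pos c e) (he : 0 < e) :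
    ∃ A : ℝ, ∀ y : ℝ, 1 ≤ y →
      ∑' t : {t // 1 ≤ pos t ∧ pos t ≤ y}, c t ≤ ENNReal.ofReal (A * y ^ e) := by
  obtain ⟨A, hA0, hA⟩ := sumsA_dyB h
  set r : ℝ := 2 ^ e with hr
  have hr1 : 1 < r := Real.one_lt_rpow (by norm_num) he
  refine ⟨A * (r / (r - 1)), fun y hy => ?_⟩
  have hy0 : 0 < y := by linarith
  obtain ⟨n, hn1, hn2⟩ := exists_nat_pow_near hy (one_lt_two (α := ℝ))
  refine (sumsA_cover_fin c (fun i t => 2 ^ i ≤ pos t ∧ pos t ≤ 2 * 2 ^ i) (n + 1) ?_).trans ?_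
  · rintro t ⟨ht1, ht2⟩
    obtain ⟨i, h1, h2⟩ := exists_nat_pow_near ht1 (one_lt_two (α := ℝ))
    refine ⟨i, ?_, h1, ?_⟩
    · exact (pow_lt_pow_iff_right₀ (one_lt_two (α := ℝ))).mp (by linarith)
    · rw [pow_succ] at h2
      linarith
  · calc ∑ i ∈ Finset.range (n + 1), ∑' t : {t // 2 ^ i ≤ pos t ∧ pos t ≤ 2 * 2 ^ i}, c t
        ≤ ∑ i ∈ Finset.range (n + 1), ENNReal.ofReal (A * r ^ i) := by
          refine Finset.sum_le_sum fun i _ => ?_
          refine (hA _ (one_le_pow₀ (by norm_num))).trans (le_of_eq ?_)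
          rw [sumsA_pow_rpow]
      _ = ENNReal.ofReal (∑ i ∈ Finset.range (n + 1), A * r ^ i) :=
          (ENNReal.ofReal_sum_of_nonneg fun i _ => by positivity).symm
      _ ≤ _ := by
          refine ENNReal.ofReal_le_ofReal ?_
          rw [← Finset.mul_sum, geom_sum_eq hr1.ne', mul_assoc]
          refine mul_le_mul_of_nonneg_left ?_ hA0
          have h1 : r ^ n ≤ y ^ e := by
            rw [hr, ← sumsA_pow_rpow]
            exact Real.rpow_le_rpow (by positivity) hn1 he.le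
          rw [div_mul_eq_mul_div]
          refine div_le_div_of_nonneg_right ?_ (by linarith)
          rw [pow_succ]
          nlinarith

/-- comparable positions give the same dyadic bounds -/
theorem DyB.of_comparable {c : T → ℝ≥0∞} {e C : ℝ} (h : DyB pos c e) (h1 : ∀ t, 1 ≤ pos t)
    (h2 : ∀ t, pos t ≤ C * pos' t) (h3 : ∀ t, pos' t ≤ C * pos t) : DyB pos' c e := by
  obtain ⟨A, hA0, hA⟩ := sumsA_dyB h
  set K : ℝ := max C 1 with hK
  have hK1 : 1 ≤ K := le_max_right _ _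
  have hCK : C ≤ K := le_max_left _ _
  obtain ⟨N, hN⟩ := pow_unbounded_of_one_lt (2 * K ^ 2) (one_lt_two (α := ℝ))
  refine ⟨N * (A * (2 ^ N) ^ |e|), fun y hy => ?_⟩
  have hy0 : 0 < y := by linarith
  set a : ℝ := max 1 (y / K) with ha
  have ha1 : 1 ≤ a := le_max_left _ _
  have ha2 : y ≤ K * a := by
    have : y / K ≤ a := le_max_right _ _
    rwa [div_le_iff₀ (by linarith), mul_comm] at this
  have ha3 : a ≤ y := max_le hy (div_le_self hy0.le hK1)
  refine (sumsA_cover_fin c (fun i t => 2 ^ i * a ≤ pos t ∧ pos t ≤ 2 * (2 ^ i * a)) N ?_).trans ?_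
  · rintro t ⟨ht1, ht2⟩
    have e1 := h1 t
    have e2 : pos t ≤ K * (2 * y) := (h2 t).trans (by
      have : 0 ≤ pos' t := by linarith
      gcongr)
    have e3 : y ≤ K * pos t := ht1.trans ((h3 t).trans (by gcongr))
    have e4 : a ≤ pos t := max_le e1 (by rwa [div_le_iff₀ (by linarith), mul_comm])
    obtain ⟨i, g1, g2⟩ := exists_nat_pow_near ((one_le_div (by linarith)).mpr e4)
      (one_lt_two (α := ℝ))
    rw [le_div_iff₀ (by linarith)] at g1
    rw [div_lt_iff₀ (by linarith), pow_succ] at g2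
    refine ⟨i, ?_, g1, by linarith⟩
    refine (pow_lt_pow_iff_right₀ (one_lt_two (α := ℝ))).mp (lt_of_le_of_lt ?_ hN)
    refine le_of_mul_le_mul_right ?_ (show 0 < a by linarith)
    calc 2 ^ i * a ≤ K * (2 * y) := g1.trans e2
      _ ≤ K * (2 * (K * a)) := by gcongr
      _ = _ := by ring
  · refine (sumsA_sum_le (b := A * (2 ^ N) ^ |e| * y ^ e) fun i hi => ?_).trans
      (le_of_eq (by rw [mul_assoc (N : ℝ)]))
    have g1 : (1 : ℝ) ≤ 2 ^ i := one_le_pow₀ (by norm_num)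
    have g2 : (2 : ℝ) ^ i ≤ 2 ^ N := pow_le_pow_right₀ (by norm_num) hi.le
    refine (hA _ (by nlinarith)).trans (ENNReal.ofReal_le_ofReal ?_)
    rw [mul_assoc]
    refine mul_le_mul_of_nonneg_left
      (sumsA_rpow e (by positivity) hy0 (by positivity) (by gcongr) ?_) hA0
    have g3 : K ≤ 2 ^ N := by nlinarith
    calc y ≤ K * a := ha2
      _ ≤ 2 ^ N * (1 * a) := by rw [one_mul]; gcongr
      _ ≤ _ := by gcongr

section scale
variable {w : T → ℝ≥0} {U : T → ℝ} {α C : ℝ} (hα : 0 < α) (h1 : ∀ t, 1 ≤ pos t)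
  (h2 : ∀ t, pos t ≤ C * pos' t) (h3 : ∀ t, pos' t ≤ C * pos t)
  (h4 : ∀ t, |pos' t - α * pos t| ≤ C * (|U t| + 1))
  (hw : WinB pos (fun t => w t) (-(11 / 6)))
  (hU : DyB pos (fun t => w t * ENNReal.ofReal (U t ^ 6)) (3 / 2))
include hα h1 h2 h3 h4 hw hU

end scale

/-- a fourth moment bound gives the law of large numbers -/
theorem WinLLN.of_four {w : T → ℝ≥0∞} {X : T → ℝ} {e : ℝ}
    (h : WinB pos (fun t => w t * ENNReal.ofReal ((X t - e * pos t) ^ 4)) (1 / 6)) :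
    WinLLN pos w X e := by
  obtain ⟨A, hA0, hA⟩ := sumsA_winB h
  intro ε δ hε hδ
  filter_upwards [eventually_ge_atTop 1, eventually_ge_atTop (A / (ε ^ 4 * δ))] with y hy hy'
  have hy0 : 0 < y := by linarith
  have hp : 0 < (ε * y) ^ 4 := by positivity
  refine (sumsA_le_mul (c := w)
    (c' := fun t => w t * ENNReal.ofReal ((X t - e * pos t) ^ 4))
    (k := ENNReal.ofReal ((ε * y) ^ 4)⁻¹) ?_).trans ?_
  · rintro t ⟨-, -, ht⟩
    rw [mul_left_comm, ← ENNReal.ofReal_mul (by positivity)]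
    refine le_mul_of_one_le_right' (ENNReal.one_le_ofReal.mpr ?_)
    rw [← div_eq_inv_mul, one_le_div hp, ← Even.pow_abs (by decide) (X t - e * pos t)]
    exact pow_le_pow_left₀ (by positivity) ht.le 4
  · refine (mul_le_mul_right ((sumsA_mono
      (fun t => w t * ENNReal.ofReal ((X t - e * pos t) ^ 4))
      (q := fun t => y ≤ pos t ∧ pos t ≤ y + y ^ (2 / 3 : ℝ))
      fun t ht => ⟨ht.1, ht.2.1⟩).trans (hA y hy)) _).trans ?_
    rw [← ENNReal.ofReal_mul (by positivity)]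
    refine ENNReal.ofReal_le_ofReal ?_
    have e1 : y ^ (1 / 6 : ℝ) = y ^ 2 * y ^ (-(11 / 6) : ℝ) := by
      rw [← Real.rpow_natCast, ← Real.rpow_add hy0]
      norm_num
    have e2 : 0 < y ^ (-(11 / 6) : ℝ) := Real.rpow_pos_of_pos hy0 _
    rw [e1, ← div_eq_inv_mul, div_le_iff₀ hp]
    rw [div_le_iff₀ (by positivity)] at hy'
    have e3 : A ≤ y ^ 2 * (ε ^ 4 * δ) := hy'.trans (by
      gcongr
      nlinarith)
    calc A * (y ^ 2 * y ^ (-(11 / 6) : ℝ))
        ≤ y ^ 2 * (ε ^ 4 * δ) * (y ^ 2 * y ^ (-(11 / 6) : ℝ)) := by gcongr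
      _ = _ := by ring

theorem WinLLN.add {w : T → ℝ≥0∞} {X Y : T → ℝ} {e e' : ℝ} (h : WinLLN pos w X e)
    (h' : WinLLN pos w Y e') (a b : ℝ) :
    WinLLN pos w (fun t => a * X t + b * Y t) (a * e + b * e') := by
  intro ε δ hε hδ
  have hs : 0 < |a| + |b| + 1 := by positivity
  filter_upwards [h (ε / (|a| + |b| + 1)) (δ / 2) (by positivity) (by positivity),
    h' (ε / (|a| + |b| + 1)) (δ / 2) (by positivity) (by positivity),
    eventually_gt_atTop 0] with y g1 g2 hy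
  refine (sumsA_cover_two w ?_).trans ((add_le_add g1 g2).trans (le_of_eq ?_))
  · rintro t ⟨t1, t2, t3⟩
    by_contra hcon
    rw [not_or] at hcon
    have k1 : |X t - e * pos t| ≤ ε / (|a| + |b| + 1) * y :=
      not_lt.mp fun hh => hcon.1 ⟨t1, t2, hh⟩
    have k2 : |Y t - e' * pos t| ≤ ε / (|a| + |b| + 1) * y :=
      not_lt.mp fun hh => hcon.2 ⟨t1, t2, hh⟩
    have k3 : a * X t + b * Y t - (a * e + b * e') * pos t =
        a * (X t - e * pos t) + b * (Y t - e' * pos t) := by ring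
    rw [k3] at t3
    have k4 := abs_add_le (a * (X t - e * pos t)) (b * (Y t - e' * pos t))
    rw [abs_mul, abs_mul] at k4
    set u : ℝ := ε / (|a| + |b| + 1) * y with hu
    have k5 : ε * y = (|a| + |b| + 1) * u := by
      rw [hu]
      field_simp
    have k6 : 0 < u := by positivity
    have k7 := mul_le_mul_of_nonneg_left k1 (abs_nonneg a)
    have k8 := mul_le_mul_of_nonneg_left k2 (abs_nonneg b)
    linarith
  · rw [← ENNReal.ofReal_add (by positivity) (by positivity)]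
    congr 1
    ring

theorem WinLLN.of_close {w : T → ℝ≥0∞} {X Y : T → ℝ} {e C : ℝ} (h : WinLLN pos w X e)
    (h' : ∀ t, |X t - Y t| ≤ C) : WinLLN pos w Y e := by
  intro ε δ hε hδ
  filter_upwards [h (ε / 2) δ (by positivity) hδ, eventually_ge_atTop (C / (ε / 2))] with y g1 g2
  refine (sumsA_mono w ?_).trans g1
  rintro t ⟨t1, t2, t3⟩
  refine ⟨t1, t2, ?_⟩
  rw [div_le_iff₀ (by positivity)] at g2
  have k1 := abs_sub_le (Y t) (X t) (e * pos t)
  rw [abs_sub_comm (Y t) (X t)] at k1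
  have k2 := h' t
  linarith

theorem WinLLN.self (w : T → ℝ≥0∞) : WinLLN pos w pos 1 := by
  intro ε δ hε hδ
  filter_upwards [eventually_gt_atTop 0] with y hy
  have : IsEmpty {t // y ≤ pos t ∧ pos t ≤ y + y ^ (2 / 3 : ℝ) ∧ ε * y < |pos t - 1 * pos t|} := by
    refine ⟨fun t => ?_⟩
    have h1 := t.2.2.2
    rw [one_mul, sub_self, abs_zero] at h1
    exact absurd h1 (not_lt.mpr (by positivity))
  rw [tsum_empty]
  exact zero_le

/-- the tent function -/
noncomputable def sumsATent (u : ℝ) : ℝ := max 0 (min u (1 - u))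

theorem sumsA_tent_cont : Continuous sumsATent := by
  unfold sumsATent
  fun_prop

theorem sumsA_tent_nonneg (u : ℝ) : 0 ≤ sumsATent u := le_max_left _ _

theorem sumsA_tent_le (u : ℝ) : sumsATent u ≤ 1 := by
  refine max_le zero_le_one ?_
  rcases le_total u 1 with h | h
  · exact (min_le_left _ _).trans h
  · exact (min_le_right _ _).trans (by linarith)

theorem sumsA_tent_ne {u : ℝ} (h : sumsATent u ≠ 0) : 0 < u ∧ u < 1 := by
  have h1 : 0 < min u (1 - u) := by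
    by_contra hh
    exact h (max_eq_left (not_lt.mp hh))
  rw [lt_min_iff] at h1
  exact ⟨h1.1, by linarith [h1.2]⟩

theorem sumsA_tent_supp : HasCompactSupport sumsATent := by
  refine HasCompactSupport.intro (isCompact_Icc (a := (0 : ℝ)) (b := 1)) fun u hu => ?_
  by_contra hh
  exact hu ⟨(sumsA_tent_ne hh).1.le, (sumsA_tent_ne hh).2.le⟩

theorem sumsA_tent_int : 0 < ∫ u, sumsATent u := by
  refine sumsA_tent_cont.integral_pos_of_hasCompactSupport_nonneg_nonzero (x := 1 / 2)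
    sumsA_tent_supp sumsA_tent_nonneg ?_
  unfold sumsATent
  norm_num

/-- from short open windows to dyadic blocks -/
theorem sumsA_lower_dy (w : T → ℝ≥0∞) {c1 y : ℝ} (hc : 0 < c1) (hy : 8 ≤ y)
    (h : ∀ x, y ≤ x → ENNReal.ofReal (c1 * x ^ (-(11 / 6) : ℝ)) ≤
      ∑' t : {t // x < pos t ∧ pos t < x + x ^ (2 / 3 : ℝ)}, w t) :
    ENNReal.ofReal (c1 / 16 * y ^ (-(3 / 2) : ℝ)) ≤
      ∑' t : {t // y ≤ pos t ∧ pos t ≤ 2 * y}, w t := by
  have hy0 : 0 < y := by linarith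
  set s : ℝ := y ^ (2 / 3 : ℝ) with hs
  set u : ℝ := y ^ (1 / 3 : ℝ) with hu
  have hs0 : 0 < s := Real.rpow_pos_of_pos hy0 _
  have hsu : u * s = y := by
    rw [hs, hu, ← Real.rpow_add hy0]
    norm_num
  have hu2 : 2 ≤ u := by
    have e1 : (2 : ℝ) = (8 : ℝ) ^ (1 / 3 : ℝ) := by
      rw [show (8 : ℝ) = 2 ^ (3 : ℝ) by norm_num, ← Real.rpow_mul (by norm_num)]
      norm_num
    rw [e1]
    exact Real.rpow_le_rpow (by norm_num) hy (by norm_num)
  set N : ℕ := ⌊u / 2⌋₊ with hN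
  have hN1 : (N : ℝ) ≤ u / 2 := Nat.floor_le (by linarith)
  have hN2 : u / 4 ≤ N := by
    have e1 : u / 2 < N + 1 := Nat.lt_floor_add_one _
    have e2 : (1 : ℝ) ≤ N := by
      exact_mod_cast Nat.le_floor (show ((1 : ℕ) : ℝ) ≤ u / 2 by push_cast; linarith)
    linarith
  have hb : ∀ i : ℕ, i < N → y + (i + 1) * (2 * s) ≤ 2 * y := by
    intro i hi
    have e1 : (i : ℝ) + 1 ≤ N := by exact_mod_cast hi
    nlinarith
  have hwin : ∀ i : ℕ, i < N → (y + i * (2 * s)) ^ (2 / 3 : ℝ) ≤ 2 * s := by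
    intro i hi
    have e1 := hb i hi
    have e2 : 0 ≤ (i : ℝ) * (2 * s) := by positivity
    have e3 := sumsA_rpow (x := y + i * (2 * s)) (y := y) (K := 2) (2 / 3) (by linarith) hy0
      (by norm_num) (by linarith) (by linarith)
    refine e3.trans (mul_le_mul_of_nonneg_right ?_ hs0.le)
    calc (2 : ℝ) ^ |(2 / 3 : ℝ)| ≤ 2 ^ (1 : ℝ) :=
          Real.rpow_le_rpow_of_exponent_le (by norm_num) (by rw [abs_of_pos] <;> norm_num)
      _ = 2 := Real.rpow_one 2
  refine le_trans ?_ (sumsA_disj w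
    (fun i t => y + i * (2 * s) < pos t ∧ pos t < y + (i + 1) * (2 * s)) N ?_ ?_)
  · have e0 : 0 < y ^ (-(11 / 6) : ℝ) := Real.rpow_pos_of_pos hy0 _
    calc ENNReal.ofReal (c1 / 16 * y ^ (-(3 / 2) : ℝ))
        ≤ ENNReal.ofReal (N * (c1 / 4 * y ^ (-(11 / 6) : ℝ))) := by
          refine ENNReal.ofReal_le_ofReal ?_
          have e1 : y ^ (-(3 / 2) : ℝ) = u * y ^ (-(11 / 6) : ℝ) := by
            rw [hu, ← Real.rpow_add hy0]
            norm_num
          rw [e1]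
          calc c1 / 16 * (u * y ^ (-(11 / 6) : ℝ)) = u / 4 * (c1 / 4 * y ^ (-(11 / 6) : ℝ)) := by
                ring
            _ ≤ _ := by gcongr
      _ = ∑ i ∈ Finset.range N, ENNReal.ofReal (c1 / 4 * y ^ (-(11 / 6) : ℝ)) := by
          rw [Finset.sum_const, Finset.card_range, nsmul_eq_mul,
            ENNReal.ofReal_mul (Nat.cast_nonneg N), ENNReal.ofReal_natCast]
      _ ≤ _ := by
          refine Finset.sum_le_sum fun i hi => ?_
          have hi' := Finset.mem_range.mp hi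
          have e1 := hb i hi'
          have e2 : 0 ≤ (i : ℝ) * (2 * s) := by positivity
          refine le_trans (ENNReal.ofReal_le_ofReal ?_) ((h (y + i * (2 * s)) (by linarith)).trans
            (sumsA_mono w fun t ht => ⟨ht.1, by linarith [ht.2, hwin i hi']⟩))
          have e3 := sumsA_rpow (x := y) (y := y + i * (2 * s)) (K := 2) (-(11 / 6)) hy0
            (by linarith) (by norm_num) (by linarith) (by linarith)
          have e4 : (2 : ℝ) ^ |(-(11 / 6) : ℝ)| ≤ 4 := by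
            calc (2 : ℝ) ^ |(-(11 / 6) : ℝ)| ≤ 2 ^ (2 : ℝ) :=
                  Real.rpow_le_rpow_of_exponent_le (by norm_num)
                    (by rw [abs_of_neg] <;> norm_num)
              _ = 4 := by norm_num
          have e5 : 0 < (y + i * (2 * s)) ^ (-(11 / 6) : ℝ) :=
            Real.rpow_pos_of_pos (by linarith) _
          have e6 := e3.trans (mul_le_mul_of_nonneg_right e4 e5.le)
          nlinarith
  · rintro t i hi ⟨t1, t2⟩
    have e2 : 0 ≤ (i : ℝ) * (2 * s) := by positivity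
    exact ⟨by linarith, by linarith [hb i hi]⟩
  · rintro t i j ⟨a1, a2⟩ ⟨b1, b2⟩
    have e1 : (i : ℝ) < j + 1 := lt_of_mul_lt_mul_right (by linarith) (show 0 ≤ 2 * s by linarith)
    have e2 : (j : ℝ) < i + 1 := lt_of_mul_lt_mul_right (by linarith) (show 0 ≤ 2 * s by linarith)
    have e3 : i < j + 1 := by exact_mod_cast e1
    have e4 : j < i + 1 := by exact_mod_cast e2
    omega

/-- windows carry mass -/
theorem WinCLT.lower {w : T → ℝ≥0} {X : T → ℝ} {c σ2 : ℝ} (h : WinCLT pos w X c σ2) (hc : 0 < c)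
    (hs : Summable fun t => (w t : ℝ)) :
    0 ≤ σ2 ∧ ∃ c' : ℝ, 0 < c' ∧ ∀ᶠ y : ℝ in atTop,
      ENNReal.ofReal (c' * y ^ (-(11 / 6) : ℝ)) ≤
        ∑' t : {t // y ≤ pos t ∧ pos t ≤ y + y ^ (2 / 3 : ℝ)}, (w t : ℝ≥0∞) ∧
      ENNReal.ofReal (c' * y ^ (-(3 / 2) : ℝ)) ≤
        ∑' t : {t // y ≤ pos t ∧ pos t ≤ 2 * y}, (w t : ℝ≥0∞) := by
  set I0 : ℝ := ∫ u, sumsATent u with hI0
  have hI : 0 < I0 := sumsA_tent_int
  set f : ℝ → T → ℝ := fun y t => (w t : ℝ) * sumsATent ((pos t - y) / y ^ (2 / 3 : ℝ)) with hf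
  have hf0 : ∀ y t, 0 ≤ f y t := fun y t => mul_nonneg (w t).2 (sumsA_tent_nonneg _)
  have hfs : ∀ y, Summable (f y) := fun y =>
    hs.of_nonneg_of_le (hf0 y) fun t => mul_le_of_le_one_right (w t).2 (sumsA_tent_le _)
  have hl : ∀ θ : ℝ, Tendsto (fun y : ℝ => (y, θ)) atTop (atTop ×ˢ 𝓝 θ) := fun θ =>
    tendsto_id.prodMk tendsto_const_nhds
  have hg : Tendsto (fun y : ℝ => y ^ (11 / 6 : ℝ) * ∑' t, f y t) atTop (𝓝 (c * I0)) := by
    have h1 := (h sumsATent sumsA_tent_cont sumsA_tent_supp 0).comp (hl 0)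
    rw [← Filter.tendsto_ofReal_iff]
    simp only [Function.comp_def, zero_mul, zero_div, Complex.ofReal_zero, mul_zero,
      Complex.exp_zero, mul_one, ne_eq, OfNat.ofNat_ne_zero, not_false_eq_true, zero_pow,
      neg_zero, Real.exp_zero] at h1
    refine h1.congr fun y => ?_
    rw [Complex.ofReal_mul, Complex.ofReal_tsum]
    simp only [hf, Complex.ofReal_mul]
  refine ⟨?_, c * I0 / 2 / 16, by positivity, ?_⟩
  · have h1 := ((h sumsATent sumsA_tent_cont sumsA_tent_supp 1).comp (hl 1)).norm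
    have h2 := le_of_tendsto_of_tendsto h1 hg (by
      filter_upwards [eventually_ge_atTop 0] with y hy
      simp only [Function.comp_def]
      rw [norm_mul, Complex.norm_real, Real.norm_of_nonneg (Real.rpow_nonneg hy _)]
      refine mul_le_mul_of_nonneg_left ?_ (Real.rpow_nonneg hy _)
      refine tsum_of_norm_bounded (hfs y).hasSum fun t => le_of_eq ?_
      rw [norm_mul, norm_mul, mul_comm Complex.I, Complex.norm_exp_ofReal_mul_I, mul_one,
        Complex.norm_real, Complex.norm_real, Real.norm_of_nonneg (w t).coe_nonneg,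
        Real.norm_of_nonneg (sumsA_tent_nonneg _)])
    rw [Complex.norm_real, Real.norm_of_nonneg (by positivity)] at h2
    have h3 : Real.exp (-(σ2 * 1 ^ 2 / 2)) ≤ 1 := by
      have h4 : c * I0 * Real.exp (-(σ2 * 1 ^ 2 / 2)) ≤ c * I0 * 1 := by linarith
      exact le_of_mul_le_mul_left h4 (by positivity)
    rw [Real.exp_le_one_iff] at h3
    linarith
  · have h1 : ∀ᶠ y : ℝ in atTop, ENNReal.ofReal (c * I0 / 2 * y ^ (-(11 / 6) : ℝ)) ≤
        ∑' t : {t // y < pos t ∧ pos t < y + y ^ (2 / 3 : ℝ)}, (w t : ℝ≥0∞) := by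
      filter_upwards [hg.eventually (lt_mem_nhds (show c * I0 / 2 < c * I0 by
        linarith [mul_pos hc hI])), eventually_gt_atTop 0] with y g1 hy
      have hp : 0 < y ^ (11 / 6 : ℝ) := Real.rpow_pos_of_pos hy _
      have hq : 0 < y ^ (2 / 3 : ℝ) := Real.rpow_pos_of_pos hy _
      have g2 : c * I0 / 2 * y ^ (-(11 / 6) : ℝ) ≤ ∑' t, f y t := by
        rw [Real.rpow_neg hy.le, ← div_eq_mul_inv, div_le_iff₀ hp, mul_comm _ (y ^ (11 / 6 : ℝ))]
        exact g1.le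
      refine (ENNReal.ofReal_le_ofReal g2).trans ?_
      rw [ENNReal.ofReal_tsum_of_nonneg (hf0 y) (hfs y), sumsA_eq (fun t => (w t : ℝ≥0∞))]
      refine ENNReal.tsum_le_tsum fun t => ?_
      by_cases ht : sumsATent ((pos t - y) / y ^ (2 / 3 : ℝ)) = 0
      · simp [hf, ht]
      · obtain ⟨k1, k2⟩ := sumsA_tent_ne ht
        rw [lt_div_iff₀ hq, zero_mul] at k1
        rw [div_lt_one hq] at k2
        rw [Set.indicator_of_mem (s := {t | y < pos t ∧ pos t < y + y ^ (2 / 3 : ℝ)})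
          ⟨by linarith, by linarith⟩, ← ENNReal.ofReal_coe_nnreal]
        exact ENNReal.ofReal_le_ofReal (mul_le_of_le_one_right (w t).2 (sumsA_tent_le _))
    filter_upwards [h1, eventually_forall_ge_atTop.mpr h1, eventually_ge_atTop 8] with y g1 g2 hy
    refine ⟨le_trans (ENNReal.ofReal_le_ofReal ?_) (g1.trans
      (sumsA_mono (fun t => (w t : ℝ≥0∞)) fun t ht => ⟨ht.1.le, ht.2.le⟩)),
      sumsA_lower_dy (fun t => (w t : ℝ≥0∞)) (by positivity) hy g2⟩
    refine mul_le_mul_of_nonneg_right ?_ (Real.rpow_nonneg (by linarith) _)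
    linarith [mul_pos hc hI]

/-- a bound that holds for all points passes to the limit in the law of large numbers -/
theorem WinLLN.le_of_le {w : T → ℝ≥0∞} {X : T → ℝ} {e c' b C : ℝ} (h : WinLLN pos w X e)
    (hc : 0 < c') (hl : ∀ᶠ y : ℝ in atTop, ENNReal.ofReal (c' * y ^ (-(11 / 6) : ℝ)) ≤
      ∑' t : {t // y ≤ pos t ∧ pos t ≤ y + y ^ (2 / 3 : ℝ)}, w t)
    (hb : ∀ t, b * pos t - C ≤ X t) : b ≤ e := by
  by_contra hcon
  have hε : 0 < (b - e) / 2 := by linarith [not_le.mp hcon]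
  obtain ⟨y, g1, g2, g3, hy⟩ := ((h ((b - e) / 2) (c' / 2) hε (by positivity)).and (hl.and
    ((eventually_gt_atTop (C / ((b - e) / 2))).and (eventually_gt_atTop 0)))).exists
  rw [div_lt_iff₀ hε] at g3
  have g4 := g2.trans ((sumsA_mono w ?_).trans g1)
  · have hp : 0 < y ^ (-(11 / 6) : ℝ) := Real.rpow_pos_of_pos hy _
    rw [ENNReal.ofReal_le_ofReal_iff (by positivity)] at g4
    nlinarith [mul_pos hc hp]
  · rintro t ⟨t1, t2⟩
    refine ⟨t1, t2, lt_of_lt_of_le ?_ (le_abs_self _)⟩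
    have k1 := hb t
    have k2 := mul_le_mul_of_nonneg_left t1 hε.le
    linarith

end Pool.Agent.Lib.MP_77dff5_pr
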