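import Pool.Agent.Lib.MP_77dff5_pr.FamA
import Pool.Agent.Lib.MP_77dff5_pr.SumsA

/-! Cores with many slots: the window where the mean size is close to the size. -/

set_option autoImplicit false

namespace Pool.Agent.Lib.MP_77dff5_pr

open MeasureTheory ProbabilityTheory Filter Topology
open scoped ENNReal NNReal

variable {Ω J : Type} [MeasurableSpace Ω]

/-- a heavy family: a positive fraction of the slots is of class `j₀`, the number of slots is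
comparable to the mean size -/
structure Fam.Heavy (F : Fam Ω J) (ν : J → Measure Ω) (s : Ω → ℕ) (j₀ : J) (Δ : ℕ) (B : ℝ) :
    Prop extends F.Good Δ B where
  frac : ∀ t, (F.core t).k ≤ Δ * (F.core t).cnt j₀
  one_le : ∀ t, 1 ≤ (F.core t).mean ν s
  k_pos : ∀ t, 1 ≤ (F.core t).k
  k_le : ∀ t, ((F.core t).k : ℝ) ≤ B * (F.core t).mean ν s

/-- mean sizes of the cores -/
noncomputable def Fam.pos (F : Fam Ω J) (ν : J → Measure Ω) (s : Ω → ℕ) (t : F.T) : ℝ :=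
  (F.core t).mean ν s

variable [Countable Ω] [DiscreteMeasurableSpace Ω] [Fintype J]
  {ν : J → Measure Ω} {s : Ω → ℕ} {z : Ω → ℝ} {F : Fam Ω J} {Δ : ℕ} {B A c₀ : ℝ} {j₀ : J}

theorem winA_half {X : Type} [MeasurableSpace X] (P : Measure X) [IsProbabilityMeasure P]
    {U V : Set X} (hU : P.real U ≤ 1 / 4) (hV : P.real V ≤ 1 / 4) : 1 ≤ 2 * P (U ∪ V)ᶜ := by
  have h1 : P.real Set.univ ≤ P.real (U ∪ V) + P.real (U ∪ V)ᶜ := by
    rw [← Set.union_compl_self (U ∪ V)]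
    exact measureReal_union_le _ _
  have h2 := measureReal_union_le (μ := P) U V
  rw [probReal_univ] at h1
  have h3 : ENNReal.ofReal 1 ≤ ENNReal.ofReal (2 * P.real (U ∪ V)ᶜ) :=
    ENNReal.ofReal_le_ofReal (by linarith)
  rwa [ENNReal.ofReal_mul (by norm_num), ofReal_measureReal, ENNReal.ofReal_one,
    ENNReal.ofReal_ofNat] at h3

theorem winA_range {u v : ℝ} (hu : 0 ≤ u) (huv : u ≤ v) :
    ∃ N : Finset ℕ, (N.card : ℝ) ≤ v - u + 1 ∧ ∀ n : ℕ, n ∈ N ↔ u ≤ n ∧ (n : ℝ) ≤ v := by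
  refine ⟨Finset.Icc ⌈u⌉₊ ⌊v⌋₊, ?_, fun n => ?_⟩
  · rw [Nat.card_Icc]
    rcases le_total ⌈u⌉₊ (⌊v⌋₊ + 1) with h | h
    · rw [Nat.cast_sub h]
      push_cast
      have := Nat.le_ceil u
      have := Nat.floor_le (hu.trans huv)
      linarith
    · rw [Nat.sub_eq_zero_of_le h]
      push_cast
      linarith
  · rw [Finset.mem_Icc, Nat.ceil_le, Nat.le_floor_iff (hu.trans huv)]

omit [Fintype J] in
theorem winA_transfer (p : F.T → Prop) (c : F.T → ℝ≥0∞) (G : ∀ t, Set ((F.core t).I → Ω))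
    (N : Finset ℕ) (φ : ∀ t, ℕ → ((F.core t).I → Ω) → ℝ≥0∞)
    (hG : ∀ t, p t → 1 ≤ 2 * (F.core t).P ν (G t))
    (hN : ∀ t, p t → ∀ ω ∈ G t, (F.core t).S s ω ∈ N ∧ c t ≤ φ t ((F.core t).S s ω) ω) :
    ∑' t : {t // p t}, (F.w t : ℝ≥0∞) * c t ≤
      2 * ∑ n ∈ N, ∑' t, (F.w t : ℝ≥0∞) *
        ∫⁻ ω in {ω | (F.core t).S s ω = n}, φ t n ω ∂(F.core t).P ν := by
  have key : ∀ t, p t → c t ≤
      2 * ∑ n ∈ N, ∫⁻ ω in {ω | (F.core t).S s ω = n}, φ t n ω ∂(F.core t).P ν := by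
    intro t ht
    have h1 : c t * (F.core t).P ν (G t) ≤
        ∑ n ∈ N, ∫⁻ ω in {ω | (F.core t).S s ω = n}, φ t n ω ∂(F.core t).P ν := by
      simp only [← lintegral_indicator (MeasurableSet.of_discrete)]
      rw [← lintegral_finsetSum _ fun _ _ => Measurable.of_discrete,
        ← lintegral_indicator_const MeasurableSet.of_discrete]
      refine lintegral_mono fun ω => ?_
      by_cases hω : ω ∈ G t
      · rw [Set.indicator_of_mem hω]
        refine le_trans ?_ (Finset.single_le_sum (f := fun n =>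
          {ω | (F.core t).S s ω = n}.indicator (φ t n) ω) (fun _ _ => zero_le) (hN t ht ω hω).1)
        rw [Set.indicator_of_mem (by simp)]
        exact (hN t ht ω hω).2
      · rw [Set.indicator_of_notMem hω]
        exact zero_le
    calc c t = c t * 1 := (mul_one _).symm
      _ ≤ c t * (2 * (F.core t).P ν (G t)) := by gcongr; exact hG t ht
      _ = 2 * (c t * (F.core t).P ν (G t)) := by ring
      _ ≤ _ := by gcongr
  rw [← Summable.tsum_finsetSum fun _ _ => ENNReal.summable, ← ENNReal.tsum_mul_left]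
  refine le_trans (ENNReal.tsum_le_tsum fun t => ?_) (ENNReal.tsum_comp_le_tsum_of_injective
    (Subtype.val_injective (p := p)) _)
  rw [← Finset.mul_sum, mul_left_comm]
  gcongr
  exact key t t.2

omit [Fintype J] in
theorem winA_law (ψ : ℕ × ℝ → ℝ≥0∞) (hψ : Measurable ψ) (n : ℕ) :
    ∫⁻ p in {p | p.1 = n}, ψ p ∂F.law ν s z = ∑' t, (F.w t : ℝ≥0∞) *
      ∫⁻ ω in {ω | (F.core t).S s ω = n}, ψ (n, (F.core t).Z z ω) ∂(F.core t).P ν := by
  have hm : MeasurableSet {p : ℕ × ℝ | p.1 = n} := measurable_fst (MeasurableSet.singleton n)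
  rw [Fam.law, Measure.restrict_sum _ hm, lintegral_sum_measure]
  refine tsum_congr fun t => ?_
  rw [Measure.restrict_smul, lintegral_smul_measure, Core.law,
    setLIntegral_map hm hψ Measurable.of_discrete, smul_eq_mul]
  congr 1
  refine setLIntegral_congr_fun MeasurableSet.of_discrete fun ω hω => ?_
  have : (F.core t).S s ω = n := hω
  simp only [this]

omit [Countable Ω] [DiscreteMeasurableSpace Ω] [Fintype J] in
theorem winA_k_le (hF : F.Heavy ν s j₀ Δ B) (t : F.T) {y : ℝ} (hy : F.pos ν s t ≤ 2 * y) :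
    ((F.core t).k : ℝ) ≤ 2 * |B| * y := by
  have h1 := hF.one_le t
  have h2 := hF.k_le t
  have h3 : (F.core t).mean ν s ≤ 2 * y := hy
  have h4 := le_abs_self B
  have h5 := abs_nonneg B
  nlinarith

theorem winA_dev (h : Slots1 ν s z) (h1 : T1 ν s A) (hF : F.Heavy ν s j₀ Δ B) :
    ∃ R : ℝ, 1 ≤ R ∧ ∀ t, ∀ y : ℝ, 1 ≤ y → F.pos ν s t ≤ 2 * y →
      ((F.core t).P ν).real
        {ω | R * y ^ (2 / 3 : ℝ) ≤ |((F.core t).S s ω : ℝ) - F.pos ν s t|} ≤ 1 / 4 := by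
  obtain ⟨C, hC⟩ := Core.dev_le h h1
  refine ⟨max 1 (8 * |C| * |B|), le_max_left _ _, fun t y hy ht => ?_⟩
  obtain ⟨R, hR⟩ : ∃ R, R = max 1 (8 * |C| * |B|) := ⟨_, rfl⟩
  rw [← hR]
  have hR1 : 1 ≤ R := hR ▸ le_max_left _ _
  have hR2 : 8 * |C| * |B| ≤ R := hR ▸ le_max_right _ _
  have hy0 : 0 < y := by linarith
  have hy1 : 1 ≤ y ^ (2 / 3 : ℝ) := Real.one_le_rpow hy (by norm_num)
  refine (hC (F.core t) _ (by nlinarith)).trans ?_
  rw [Real.mul_rpow (by linarith) (by linarith), ← Real.rpow_mul hy0.le]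
  have e1 : (2 / 3 * -(3 / 2) : ℝ) = -1 := by norm_num
  rw [e1, Real.rpow_neg_one]
  have e2 : R ^ (-(3 / 2) : ℝ) ≤ R⁻¹ := by
    rw [← Real.rpow_neg_one]
    exact Real.rpow_le_rpow_of_exponent_le hR1 (by norm_num)
  have hk := winA_k_le hF t ht
  calc C * (F.core t).k * (R ^ (-(3 / 2) : ℝ) * y⁻¹)
      ≤ |C| * (2 * |B| * y) * (R⁻¹ * y⁻¹) := by
        gcongr
        exact le_abs_self C
    _ = 8 * |C| * |B| / R / 4 := by field_simp; ring
    _ ≤ 1 / 4 := by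
        gcongr
        exact (div_le_one (by linarith)).2 hR2

theorem winA_cheb (h : Slots ν s z) (hF : F.Heavy ν s j₀ Δ B) :
    ∃ K : ℝ, 1 ≤ K ∧ ∀ t, ∀ y : ℝ, 1 ≤ y → F.pos ν s t ≤ 2 * y →
      ((F.core t).P ν).real {ω | K * y ≤ ((F.core t).Z z ω - (F.core t).L ν z) ^ 2} ≤ 1 / 4 := by
  obtain ⟨C, hC⟩ := Core.Q_le h Δ B
  refine ⟨max 1 (8 * |C| * |B|), le_max_left _ _, fun t y hy ht => ?_⟩
  obtain ⟨K, hK⟩ : ∃ K, K = max 1 (8 * |C| * |B|) := ⟨_, rfl⟩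
  rw [← hK]
  have hK1 : 1 ≤ K := hK ▸ le_max_left _ _
  have hK2 : 8 * |C| * |B| ≤ K := hK ▸ le_max_right _ _
  have := Core.isProb h.prob (F.core t)
  have hm := Core.memLp_Z h (hF.good t)
  have hi : Integrable (fun ω => ((F.core t).Z z ω - (F.core t).L ν z) ^ 2) ((F.core t).P ν) :=
    (hm.sub (memLp_const _)).integrable_sq
  have h2 := mul_meas_ge_le_integral_of_nonneg (ae_of_all _ fun ω => sq_nonneg _) hi (K * y)
  have h3 := hC _ (hF.good t)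
  rw [Core.Q, variance_eq_integral hm.aemeasurable] at h3
  have hk := winA_k_le hF t ht
  have h4 : C * (F.core t).k ≤ |C| * (2 * |B| * y) := by
    gcongr
    exact le_abs_self C
  have h5 : K * y * ((F.core t).P ν).real
      {ω | K * y ≤ ((F.core t).Z z ω - (F.core t).L ν z) ^ 2} ≤ K * y * (1 / 4) := by
    refine h2.trans (h3.trans (h4.trans ?_))
    nlinarith
  exact le_of_mul_le_mul_left h5 (by positivity)

theorem winA_eventually (a : ℝ) : ∀ᶠ y : ℝ in atTop, a * y ^ (2 / 3 : ℝ) ≤ y := by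
  filter_upwards [(tendsto_rpow_atTop (by norm_num : (0 : ℝ) < 1 / 3)).eventually_ge_atTop a,
    eventually_gt_atTop 0] with y h1 h2
  have : y = y ^ (1 / 3 : ℝ) * y ^ (2 / 3 : ℝ) := by
    rw [← Real.rpow_add h2]
    norm_num
  have h3 : 0 ≤ y ^ (2 / 3 : ℝ) := by positivity
  nlinarith

theorem winA_main (h : Slots ν s z) (h1 : T1 ν s A) (hF : F.Heavy ν s j₀ Δ B) {C : ℝ}
    (hl : ∀ n : ℕ, 1 ≤ n → ∫⁻ p in {p | p.1 = n}, ENNReal.ofReal ((n : ℝ) ^ 3 + p.2 ^ 6)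
      ∂F.law ν s z ≤ ENNReal.ofReal (C * (n : ℝ) ^ (1 / 2 : ℝ))) :
    ∃ K M : ℝ, 1 ≤ K ∧ 0 ≤ M ∧ ∀ᶠ y : ℝ in atTop, ∀ b : ℝ, y ≤ b → b ≤ 2 * y → ∀ D : ℝ, 0 ≤ D →
      ∀ c : F.T → ℝ, (∀ t (x ζ : ℝ), y / 2 ≤ x → (ζ - (F.core t).L ν z) ^ 2 ≤ K * y →
        c t ≤ D * (x ^ 3 + ζ ^ 6)) →
      ∑' t : {t // y ≤ F.pos ν s t ∧ F.pos ν s t ≤ b}, (F.w t : ℝ≥0∞) * ENNReal.ofReal (c t) ≤
        ENNReal.ofReal (D * M * (b - y + y ^ (2 / 3 : ℝ)) * y ^ (1 / 2 : ℝ)) := by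
  obtain ⟨R, hR, hdev⟩ := winA_dev h.toSlots1 h1 hF
  obtain ⟨K, hK, hch⟩ := winA_cheb h hF
  refine ⟨K, 4 * (2 * R + 1) * |C|, hK, by positivity, ?_⟩
  filter_upwards [winA_eventually (2 * R), eventually_ge_atTop 2] with y hy1 hy2 b hb1 hb2 D hD c hc
  have hy3 : 1 ≤ y ^ (2 / 3 : ℝ) := Real.one_le_rpow (by linarith) (by norm_num)
  obtain ⟨N, hN1, hN2⟩ := winA_range (u := y - R * y ^ (2 / 3 : ℝ)) (v := b + R * y ^ (2 / 3 : ℝ))
    (by linarith) (by nlinarith)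
  refine (winA_transfer (ν := ν) (s := s) _ (fun t => ENNReal.ofReal (c t))
    (fun t => ({ω | R * y ^ (2 / 3 : ℝ) ≤ |((F.core t).S s ω : ℝ) - F.pos ν s t|} ∪
      {ω | K * y ≤ ((F.core t).Z z ω - (F.core t).L ν z) ^ 2})ᶜ) N
    (fun t n ω => ENNReal.ofReal D * ENNReal.ofReal ((n : ℝ) ^ 3 + (F.core t).Z z ω ^ 6))
    (fun t ht => ?_) (fun t ht ω hω => ?_)).trans ?_
  · have := Core.isProb h.prob (F.core t)
    exact winA_half _ (hdev t y (by linarith) (ht.2.trans hb2))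
      (hch t y (by linarith) (ht.2.trans hb2))
  · simp only [Set.mem_compl_iff, Set.mem_union, Set.mem_ofPred_eq, not_or, not_le] at hω
    obtain ⟨h2, h3⟩ := abs_lt.1 hω.1
    refine ⟨(hN2 _).2 ⟨by linarith [ht.1], by linarith [ht.2]⟩, ?_⟩
    rw [← ENNReal.ofReal_mul hD]
    exact ENNReal.ofReal_le_ofReal (hc t _ _ (by linarith [ht.1]) hω.2.le)
  · have h2 : ∀ n ∈ N, ∑' t, (F.w t : ℝ≥0∞) * ∫⁻ ω in {ω | (F.core t).S s ω = n},
        ENNReal.ofReal D * ENNReal.ofReal ((n : ℝ) ^ 3 + (F.core t).Z z ω ^ 6) ∂(F.core t).P ν ≤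
        ENNReal.ofReal (D * (|C| * (2 * y ^ (1 / 2 : ℝ)))) := by
      intro n hn
      obtain ⟨hn1, hn2⟩ := (hN2 n).1 hn
      have hn3 : 1 ≤ n := by
        have : (1 : ℝ) ≤ n := by linarith
        exact_mod_cast this
      have h3 := hl n hn3
      rw [winA_law (fun p => ENNReal.ofReal ((n : ℝ) ^ 3 + p.2 ^ 6)) (by fun_prop)] at h3
      simp only [lintegral_const_mul' _ _ ENNReal.ofReal_ne_top, mul_left_comm _ (ENNReal.ofReal D),
        ENNReal.tsum_mul_left]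
      rw [ENNReal.ofReal_mul hD]
      gcongr
      refine h3.trans (ENNReal.ofReal_le_ofReal ?_)
      have h4 : (n : ℝ) ^ (1 / 2 : ℝ) ≤ 2 * y ^ (1 / 2 : ℝ) := by
        have h5 : (2 : ℝ) = 4 ^ (1 / 2 : ℝ) := by
          rw [show (4 : ℝ) = 2 ^ (2 : ℝ) by norm_num, ← Real.rpow_mul (by norm_num)]
          norm_num
        calc (n : ℝ) ^ (1 / 2 : ℝ) ≤ (4 * y) ^ (1 / 2 : ℝ) :=
              Real.rpow_le_rpow (by positivity) (by linarith) (by norm_num)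
          _ = _ := by rw [Real.mul_rpow (by norm_num) (by linarith), ← h5]
      gcongr
      exact le_abs_self C
    refine (mul_le_mul_right (Finset.sum_le_card_nsmul _ _ _ h2) _).trans ?_
    rw [nsmul_eq_mul, ← ENNReal.ofReal_natCast, ← ENNReal.ofReal_mul (by positivity),
      ← ENNReal.ofReal_ofNat, ← ENNReal.ofReal_mul (by positivity)]
    refine ENNReal.ofReal_le_ofReal ?_
    have h3 : (N.card : ℝ) ≤ (2 * R + 1) * (b - y + y ^ (2 / 3 : ℝ)) := by nlinarith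
    calc 2 * (N.card * (D * (|C| * (2 * y ^ (1 / 2 : ℝ)))))
        ≤ 2 * ((2 * R + 1) * (b - y + y ^ (2 / 3 : ℝ)) * (D * (|C| * (2 * y ^ (1 / 2 : ℝ))))) := by
          gcongr
      _ = _ := by ring

omit [Countable Ω] [DiscreteMeasurableSpace Ω] [Fintype J] in
theorem winA_combine (hF : F.Heavy ν s j₀ Δ B) (p : ℝ → F.T → Prop) (c : F.T → ℝ) {e : ℝ}
    (he : -2 ≤ e) (hp : ∀ y t, 1 ≤ y → p y t → F.pos ν s t ≤ 2 * y)
    (hc : ∀ x : ℝ, ∃ M : ℝ, ∀ t, F.pos ν s t ≤ 2 * x → c t ≤ M) {A' : ℝ}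
    (hA : ∀ᶠ y : ℝ in atTop, ∑' t : {t // p y t}, (F.w t : ℝ≥0∞) * ENNReal.ofReal (c t) ≤
      ENNReal.ofReal (A' * y ^ e)) :
    ∃ A'' : ℝ, ∀ y : ℝ, 1 ≤ y → ∑' t : {t // p y t}, (F.w t : ℝ≥0∞) * ENNReal.ofReal (c t) ≤
      ENNReal.ofReal (A'' * y ^ e) := by
  obtain ⟨y0, hy0⟩ := eventually_atTop.1 hA
  obtain ⟨M, hM⟩ := hc y0
  have hs : Summable fun t => (F.w t : ℝ) :=
    hF.sum1.of_nonneg_of_le (fun t => by positivity) fun t =>
      le_mul_of_one_le_right (by positivity) (by simp)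
  obtain ⟨W, hW⟩ : ∃ W : ℝ, W = ∑' t, (F.w t : ℝ) := ⟨_, rfl⟩
  have hW0 : 0 ≤ W := hW ▸ tsum_nonneg fun t => by positivity
  have hW1 : ∑' t, (F.w t : ℝ≥0∞) = ENNReal.ofReal W := by
    rw [hW, ENNReal.ofReal_tsum_of_nonneg (fun t => by positivity) hs]
    simp
  refine ⟨max A' (W * |M| * y0 ^ 2), fun y hy => ?_⟩
  have hye : 0 ≤ y ^ e := by positivity
  rcases le_total y0 y with h | h
  · refine (hy0 y h).trans (ENNReal.ofReal_le_ofReal ?_)
    gcongr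
    exact le_max_left _ _
  · calc ∑' t : {t // p y t}, (F.w t : ℝ≥0∞) * ENNReal.ofReal (c t)
        ≤ ∑' t : {t // p y t}, (F.w t : ℝ≥0∞) * ENNReal.ofReal |M| := by
          refine ENNReal.tsum_le_tsum fun t => ?_
          gcongr
          exact (hM t ((hp y t hy t.2).trans (by linarith))).trans (le_abs_self M)
      _ ≤ ∑' t, (F.w t : ℝ≥0∞) * ENNReal.ofReal |M| :=
          ENNReal.tsum_comp_le_tsum_of_injective (Subtype.val_injective (p := p y))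
            fun t => (F.w t : ℝ≥0∞) * ENNReal.ofReal |M|
      _ = ENNReal.ofReal (W * |M|) := by
          rw [ENNReal.tsum_mul_right, hW1, ENNReal.ofReal_mul hW0]
      _ ≤ _ := by
          refine ENNReal.ofReal_le_ofReal ?_
          have h2 : y ^ (-2 : ℝ) ≤ y ^ e := Real.rpow_le_rpow_of_exponent_le hy he
          have h3 : 1 ≤ y0 ^ 2 * y ^ (-2 : ℝ) := by
            rw [Real.rpow_neg (by linarith), Real.rpow_two, ← div_eq_mul_inv,
              one_le_div (by positivity)]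
            gcongr
          calc W * |M| = W * |M| * 1 := (mul_one _).symm
            _ ≤ W * |M| * (y0 ^ 2 * y ^ e) := by
                gcongr
                exact h3.trans (by gcongr)
            _ = W * |M| * y0 ^ 2 * y ^ e := by ring
            _ ≤ _ := by
                gcongr
                exact le_max_right _ _

theorem winA_four {x ζ L K y : ℝ} (hy : 0 < y) (hK : 1 ≤ K) (hx : y / 2 ≤ x)
    (hL : (ζ - L) ^ 2 ≤ K * y) : L ^ 4 ≤ (64 * K ^ 2 + 64) * y⁻¹ * (x ^ 3 + ζ ^ 6) := by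
  have h1 : L ^ 2 ≤ 2 * ζ ^ 2 + 2 * (K * y) := by nlinarith [sq_nonneg (2 * ζ - L)]
  have h2 : L ^ 4 ≤ 8 * ζ ^ 4 + 8 * (K * y) ^ 2 := by
    have : (L ^ 2) ^ 2 ≤ (2 * ζ ^ 2 + 2 * (K * y)) ^ 2 := by gcongr
    nlinarith [sq_nonneg (ζ ^ 2 - K * y)]
  have h3 : y ^ 3 ≤ 8 * x ^ 3 := by
    have : (y / 2) ^ 3 ≤ x ^ 3 := by gcongr
    nlinarith
  have h4 : ζ ^ 4 * y ≤ y ^ 3 + ζ ^ 6 := by
    rcases le_total (ζ ^ 2) y with h | h
    · have : (ζ ^ 2) ^ 2 ≤ y ^ 2 := by gcongr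
      have h6 : 0 ≤ ζ ^ 6 := by positivity
      nlinarith
    · have h4 : 0 ≤ ζ ^ 4 := by positivity
      have h6 : 0 ≤ y ^ 3 := by positivity
      nlinarith
  rw [mul_right_comm, ← div_eq_mul_inv, le_div_iff₀ hy]
  have h5 : 0 ≤ ζ ^ 6 := by positivity
  have h6 : K ^ 2 * y ^ 3 ≤ K ^ 2 * (8 * x ^ 3) := by gcongr
  have h7 : 0 ≤ K ^ 2 * ζ ^ 6 := by positivity
  have h8 : L ^ 4 * y ≤ (8 * ζ ^ 4 + 8 * (K * y) ^ 2) * y := by gcongr
  nlinarith

theorem winA_six {x ζ L K y : ℝ} (hy : 0 < y) (hK : 1 ≤ K) (hx : y / 2 ≤ x)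
    (hL : (ζ - L) ^ 2 ≤ K * y) : L ^ 6 ≤ (256 * K ^ 3) * (x ^ 3 + ζ ^ 6) := by
  have h1 : L ^ 2 ≤ 2 * ζ ^ 2 + 2 * (K * y) := by nlinarith [sq_nonneg (2 * ζ - L)]
  have h2 : L ^ 6 ≤ 32 * ζ ^ 6 + 32 * (K * y) ^ 3 := by
    have h2 : (L ^ 2) ^ 3 ≤ (2 * ζ ^ 2 + 2 * (K * y)) ^ 3 := by gcongr
    have h3 : 0 ≤ (ζ ^ 2 + K * y) * (ζ ^ 2 - K * y) ^ 2 := by positivity
    nlinarith
  have h3 : y ^ 3 ≤ 8 * x ^ 3 := by
    have : (y / 2) ^ 3 ≤ x ^ 3 := by gcongr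
    nlinarith
  have h5 : 0 ≤ ζ ^ 6 := by positivity
  have h6 : K ^ 3 * y ^ 3 ≤ K ^ 3 * (8 * x ^ 3) := by gcongr
  have h7 : 1 * ζ ^ 6 ≤ K ^ 3 * ζ ^ 6 := by
    gcongr
    exact one_le_pow₀ hK
  nlinarith

theorem winA_L_bdd (h : Slots1 ν s z) (hF : F.Heavy ν s j₀ Δ B) (m : ℕ) (x : ℝ) :
    ∃ M : ℝ, ∀ t, F.pos ν s t ≤ 2 * x → (F.core t).L ν z ^ m ≤ M := by
  obtain ⟨C, hC⟩ := Core.abs_L_le h Δ B
  refine ⟨(|C| * (2 * |B| * x + 1)) ^ m, fun t ht => ?_⟩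
  refine (le_abs_self _).trans ?_
  rw [abs_pow]
  gcongr
  refine (hC _ (hF.good t)).1.trans ?_
  have := winA_k_le hF t ht
  gcongr
  exact le_abs_self C

theorem winA_le_two {y : ℝ} (hy : 1 ≤ y) : y + y ^ (2 / 3 : ℝ) ≤ 2 * y := by
  have : y ^ (2 / 3 : ℝ) ≤ y ^ (1 : ℝ) := Real.rpow_le_rpow_of_exponent_le hy (by norm_num)
  rw [Real.rpow_one] at this
  linarith

/-- window bounds from local bounds for the composite class -/
theorem Fam.winB_of_local (h : Slots ν s z) (h1 : T1 ν s A) (hF : F.Heavy ν s j₀ Δ B) {C : ℝ}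
    (hl : ∀ n : ℕ, 1 ≤ n → ∫⁻ p in {p | p.1 = n}, ENNReal.ofReal ((n : ℝ) ^ 3 + p.2 ^ 6)
      ∂F.law ν s z ≤ ENNReal.ofReal (C * (n : ℝ) ^ (1 / 2 : ℝ))) :
    WinB (F.pos ν s) (fun t => F.w t) (-(11 / 6)) ∧
    WinB (F.pos ν s) (fun t => F.w t * ENNReal.ofReal ((F.core t).L ν z ^ 4)) (1 / 6) ∧
    DyB (F.pos ν s) (fun t => F.w t * ENNReal.ofReal ((F.core t).L ν z ^ 6)) (3 / 2) := by
  obtain ⟨K, M, hK, hM, hmain⟩ := winA_main h h1 hF hl
  refine ⟨?_, ?_, ?_⟩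
  · have := winA_combine hF (fun y t => y ≤ F.pos ν s t ∧ F.pos ν s t ≤ y + y ^ (2 / 3 : ℝ))
      (fun _ => 1) (e := -(11 / 6)) (by norm_num) (fun y t hy ht => ht.2.trans (winA_le_two hy))
      (fun _ => ⟨1, fun _ _ => le_rfl⟩) (A' := 16 * M) ?_
    · simp only [ENNReal.ofReal_one, mul_one] at this
      exact this
    filter_upwards [hmain, eventually_ge_atTop 1] with y hy hy1
    have hy0 : 0 < y := by linarith
    refine (hy _ (by have := Real.rpow_nonneg hy0.le (2 / 3); linarith) (winA_le_two hy1)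
      (8 * (y ^ 3)⁻¹) (by positivity) (fun _ => 1) fun t x ζ hx _ => ?_).trans (le_of_eq ?_)
    · rw [mul_right_comm, ← div_eq_mul_inv, le_div_iff₀ (by positivity)]
      have h3 : (y / 2) ^ 3 ≤ x ^ 3 := by gcongr
      have h5 : 0 ≤ ζ ^ 6 := by positivity
      nlinarith
    · congr 1
      have e1 : y ^ (-(11 / 6) : ℝ) = (y ^ 3)⁻¹ * y ^ (2 / 3 : ℝ) * y ^ (1 / 2 : ℝ) := by
        rw [← Real.rpow_natCast, ← Real.rpow_neg hy0.le, ← Real.rpow_add hy0, ← Real.rpow_add hy0]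
        norm_num
      rw [e1]
      ring
  · refine winA_combine hF (fun y t => y ≤ F.pos ν s t ∧ F.pos ν s t ≤ y + y ^ (2 / 3 : ℝ))
      (fun t => (F.core t).L ν z ^ 4) (e := 1 / 6) (by norm_num)
      (fun y t hy ht => ht.2.trans (winA_le_two hy)) (winA_L_bdd h.toSlots1 hF 4)
      (A' := 2 * (64 * K ^ 2 + 64) * M) ?_
    filter_upwards [hmain, eventually_ge_atTop 1] with y hy hy1
    have hy0 : 0 < y := by linarith
    refine (hy _ (by have := Real.rpow_nonneg hy0.le (2 / 3); linarith) (winA_le_two hy1)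
      ((64 * K ^ 2 + 64) * y⁻¹) (by positivity) _ fun t x ζ hx hζ =>
        winA_four hy0 hK hx hζ).trans (le_of_eq ?_)
    congr 1
    have e1 : y ^ (1 / 6 : ℝ) = y⁻¹ * y ^ (2 / 3 : ℝ) * y ^ (1 / 2 : ℝ) := by
      rw [← Real.rpow_neg_one, ← Real.rpow_add hy0, ← Real.rpow_add hy0]
      norm_num
    rw [e1]
    ring
  · refine winA_combine hF (fun y t => y ≤ F.pos ν s t ∧ F.pos ν s t ≤ 2 * y)
      (fun t => (F.core t).L ν z ^ 6) (e := 3 / 2) (by norm_num)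
      (fun y t _ ht => ht.2) (winA_L_bdd h.toSlots1 hF 6) (A' := 2 * (256 * K ^ 3) * M) ?_
    filter_upwards [hmain, eventually_ge_atTop 1] with y hy hy1
    have hy0 : 0 < y := by linarith
    refine (hy _ (by linarith) le_rfl (256 * K ^ 3) (by positivity) _ fun t x ζ hx hζ =>
        winA_six hy0 hK hx hζ).trans (ENNReal.ofReal_le_ofReal ?_)
    have e1 : y ^ (3 / 2 : ℝ) = y * y ^ (1 / 2 : ℝ) := by
      rw [← Real.rpow_one_add' hy0.le (by norm_num)]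
      norm_num
    have e2 : 2 * y - y + y ^ (2 / 3 : ℝ) ≤ 2 * y := by linarith [winA_le_two hy1]
    calc 256 * K ^ 3 * M * (2 * y - y + y ^ (2 / 3 : ℝ)) * y ^ (1 / 2 : ℝ)
        ≤ 256 * K ^ 3 * M * (2 * y) * y ^ (1 / 2 : ℝ) := by gcongr
      _ = _ := by rw [e1]; ring

/-- law of large numbers in windows from a local law of large numbers -/
theorem Fam.winLLN_of_local (h : Slots1 ν s z) (h1 : T1 ν s A) (hF : F.Heavy ν s j₀ Δ B)
    (hw : WinB (F.pos ν s) (fun t => F.w t) (-(11 / 6)))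
    (X : ∀ t, ((F.core t).I → Ω) → ℝ) (E : F.T → ℝ) (ξ : ℝ)
    (hE : ∀ ε : ℝ, 0 < ε → ∃ k0 : ℕ, ∀ t, k0 ≤ (F.core t).k →
      ((F.core t).P ν).real {ω | ε * (F.core t).k < |X t ω - E t|} ≤ ε)
    (hX : ∀ ε δ : ℝ, 0 < ε → 0 < δ → ∀ᶠ n : ℕ in atTop,
      ∑' t, (F.w t : ℝ≥0∞) * (F.core t).P ν {ω | (F.core t).S s ω = n ∧ ε * n < |X t ω - ξ * n|} ≤
        ENNReal.ofReal (δ * (n : ℝ) ^ (-(5 / 2) : ℝ))) :
    WinLLN (F.pos ν s) (fun t => F.w t) E ξ := by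
  have _ := hw
  intro ε δ hε hδ
  obtain ⟨R, hR, hdev⟩ := winA_dev h h1 hF
  obtain ⟨C, hC⟩ := Core.abs_L_le h Δ B
  obtain ⟨ε', hε1, hε2, hε3⟩ : ∃ ε' : ℝ, 0 < ε' ∧ ε' ≤ 1 / 4 ∧ ε' * (2 * |B|) ≤ ε / 4 := by
    refine ⟨min (1 / 4) (ε / (8 * |B| + 1)), by positivity, min_le_left _ _, ?_⟩
    have h2 : min (1 / 4) (ε / (8 * |B| + 1)) * (8 * |B| + 1) ≤ ε := by
      rw [← le_div_iff₀ (by positivity)]
      exact min_le_right _ _
    have h3 : 0 ≤ min (1 / 4) (ε / (8 * |B| + 1)) := by positivity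
    nlinarith
  obtain ⟨k0, hk0⟩ := hE ε' hε1
  obtain ⟨δ', hδ1, hδ2⟩ : ∃ δ' : ℝ, 0 < δ' ∧ 16 * (2 * R + 2) * δ' = δ :=
    ⟨δ / (16 * (2 * R + 2)), by positivity, by field_simp⟩
  obtain ⟨n0, hn0⟩ := eventually_atTop.1 (hX (ε / 6) δ' (by positivity) hδ1)
  filter_upwards [winA_eventually (2 * R), winA_eventually (4 * |ξ| * R / ε), eventually_ge_atTop 2,
    eventually_ge_atTop (2 * (n0 : ℝ)), eventually_gt_atTop (|C| * k0)] with y hy1 hy2 hy3 hy4 hy5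
  have hy0 : 0 < y := by linarith
  have hy6 : 1 ≤ y ^ (2 / 3 : ℝ) := Real.one_le_rpow (by linarith) (by norm_num)
  have hy7 := winA_le_two (y := y) (by linarith)
  have hy8 : |ξ| * (R * y ^ (2 / 3 : ℝ)) ≤ ε / 4 * y := by
    rw [div_mul_eq_mul_div, div_le_iff₀ hε] at hy2
    linarith
  obtain ⟨N, hN1, hN2⟩ := winA_range (u := y - R * y ^ (2 / 3 : ℝ))
    (v := y + y ^ (2 / 3 : ℝ) + R * y ^ (2 / 3 : ℝ)) (by linarith) (by nlinarith)
  have hmain := winA_transfer (ν := ν) (s := s) (fun t => y ≤ F.pos ν s t ∧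
    F.pos ν s t ≤ y + y ^ (2 / 3 : ℝ) ∧ ε * y < |E t - ξ * F.pos ν s t|) (fun _ => 1)
    (fun t => ({ω | R * y ^ (2 / 3 : ℝ) ≤ |((F.core t).S s ω : ℝ) - F.pos ν s t|} ∪
      {ω | ε' * (F.core t).k < |X t ω - E t|})ᶜ) N
    (fun t n => {ω | ε / 6 * n < |X t ω - ξ * n|}.indicator 1)
    (fun t ht => ?_) (fun t ht ω hω => ?_)
  · simp only [mul_one] at hmain
    refine hmain.trans ?_
    have h2 : ∀ n ∈ N, ∑' t, (F.w t : ℝ≥0∞) * ∫⁻ ω in {ω | (F.core t).S s ω = n},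
        {ω | ε / 6 * n < |X t ω - ξ * n|}.indicator 1 ω ∂(F.core t).P ν ≤
        ENNReal.ofReal (δ' * (8 * y ^ (-(5 / 2) : ℝ))) := by
      intro n hn
      obtain ⟨hn1, hn2⟩ := (hN2 n).1 hn
      have hn3 : n0 ≤ n := by
        have : (n0 : ℝ) ≤ n := by linarith
        exact_mod_cast this
      refine le_trans (le_of_eq (tsum_congr fun t => ?_)) ((hn0 n hn3).trans
        (ENNReal.ofReal_le_ofReal ?_))
      · rw [lintegral_indicator_one MeasurableSet.of_discrete,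
          Measure.restrict_apply MeasurableSet.of_discrete, Set.inter_comm]
        rfl
      · gcongr
        have h3 : (n : ℝ) ^ (-(5 / 2) : ℝ) ≤ (y / 2) ^ (-(5 / 2) : ℝ) :=
          Real.rpow_le_rpow_of_nonpos (by positivity) (by linarith) (by norm_num)
        have h4 : ((2 : ℝ)⁻¹) ^ (-(5 / 2) : ℝ) ≤ 8 := by
          rw [Real.inv_rpow (by norm_num), ← Real.rpow_neg (by norm_num),
            show (8 : ℝ) = 2 ^ (3 : ℝ) by norm_num]
          exact Real.rpow_le_rpow_of_exponent_le (by norm_num) (by norm_num)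
        rw [div_eq_mul_inv y, Real.mul_rpow hy0.le (by norm_num), mul_comm] at h3
        refine h3.trans ?_
        gcongr
    refine (mul_le_mul_right (Finset.sum_le_card_nsmul _ _ _ h2) _).trans ?_
    rw [nsmul_eq_mul, ← ENNReal.ofReal_natCast, ← ENNReal.ofReal_mul (by positivity),
      ← ENNReal.ofReal_ofNat, ← ENNReal.ofReal_mul (by positivity)]
    refine ENNReal.ofReal_le_ofReal ?_
    have h3 : (N.card : ℝ) ≤ (2 * R + 2) * y ^ (2 / 3 : ℝ) := by nlinarith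
    have e1 : y ^ (-(11 / 6) : ℝ) = y ^ (2 / 3 : ℝ) * y ^ (-(5 / 2) : ℝ) := by
      rw [← Real.rpow_add hy0]
      norm_num
    calc 2 * (N.card * (δ' * (8 * y ^ (-(5 / 2) : ℝ))))
        ≤ 2 * ((2 * R + 2) * y ^ (2 / 3 : ℝ) * (δ' * (8 * y ^ (-(5 / 2) : ℝ)))) := by gcongr
      _ = _ := by rw [e1, ← hδ2]; ring
  · have := Core.isProb h.prob (F.core t)
    refine winA_half _ (hdev t y (by linarith) (ht.2.1.trans hy7)) ((hk0 t ?_).trans hε2)
    by_contra hlt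
    have h2 : ((F.core t).k : ℝ) + 1 ≤ k0 := by exact_mod_cast not_le.1 hlt
    have h3 : (F.core t).mean ν s ≤ |C| * k0 := by
      refine (hC _ (hF.good t)).2.trans ?_
      gcongr
      exact le_abs_self C
    have h4 : y ≤ (F.core t).mean ν s := ht.1
    linarith
  · simp only [Set.mem_compl_iff, Set.mem_union, Set.mem_ofPred_eq, not_or, not_le, not_lt] at hω
    obtain ⟨h2, h3⟩ := abs_lt.1 hω.1
    refine ⟨(hN2 _).2 ⟨by linarith [ht.1], by linarith [ht.2.1]⟩, ?_⟩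
    rw [Set.indicator_of_mem]
    · exact le_rfl
    have h4 : ε' * (F.core t).k ≤ ε / 4 * y := by
      have := winA_k_le hF t (ht.2.1.trans hy7)
      calc ε' * (F.core t).k ≤ ε' * (2 * |B| * y) := by gcongr
        _ = ε' * (2 * |B|) * y := by ring
        _ ≤ _ := by gcongr
    have h5 : |ξ * (((F.core t).S s ω : ℝ) - F.pos ν s t)| ≤ ε / 4 * y := by
      rw [abs_mul]
      refine le_trans ?_ hy8
      gcongr
      exact hω.1.le
    have h6 : E t - ξ * F.pos ν s t = (X t ω - ξ * (F.core t).S s ω) - (X t ω - E t) +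
        ξ * (((F.core t).S s ω : ℝ) - F.pos ν s t) := by ring
    have h7 := ht.2.2
    rw [h6] at h7
    have h8 := abs_add_le ((X t ω - ξ * (F.core t).S s ω) - (X t ω - E t))
      (ξ * (((F.core t).S s ω : ℝ) - F.pos ν s t))
    have h9 := abs_sub (X t ω - ξ * (F.core t).S s ω) (X t ω - E t)
    have h10 : ((F.core t).S s ω : ℝ) ≤ 3 * y := by linarith [ht.2.1]
    have h11 : ε / 6 * ((F.core t).S s ω : ℝ) ≤ ε / 6 * (3 * y) := by gcongr
    show ε / 6 * ((F.core t).S s ω : ℝ) < |X t ω - ξ * (F.core t).S s ω|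
    linarith [hω.2]

section large
variable (h : Slots ν s z) (h1 : T1 ν s A) (hc : 0 < c₀) (h4 : T4 (ν j₀) s c₀)
  (hF : F.Heavy ν s j₀ Δ B) (hw : WinB (F.pos ν s) (fun t => F.w t) (-(11 / 6)))
include h h1 hc h4 hF hw

end large

end Pool.Agent.Lib.MP_77dff5_pr
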