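import Pool.Agent.Lib.MP_77dff5_pr.WinEAux1
import Pool.Agent.Lib.MP_77dff5_pr.WinA
import Pool.Agent.Lib.MP_77dff5_pr.Kernel

/-! Rescaled local kernels. -/

set_option autoImplicit false

namespace Pool.Agent.Lib.MP_77dff5_pr

open MeasureTheory ProbabilityTheory Filter Topology Set
open scoped ENNReal NNReal

variable {Ω J : Type}

theorem winE_cnt_le (c : Core Ω J) (j : J) : c.cnt j ≤ c.k := by
  rw [Core.cnt, Core.k, ← Nat.card_eq_fintype_card]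
  exact Finite.card_subtype_le _

open Classical in
/-- the reference core with `N j` slots of class `j` -/
noncomputable def winE_ref (Ω : Type) [Fintype J] (N : J → ℕ) : Core Ω J :=
  Core.free (Σ j, Fin (N j)) Sigma.fst 0 0

theorem winE_ref_k [Fintype J] (N : J → ℕ) : (winE_ref Ω N).k = ∑ j, N j := by
  rw [Core.k, ← Nat.card_eq_fintype_card]
  change Nat.card (Σ j, Fin (N j)) = _
  simp

theorem winE_ref_cnt [Fintype J] (N : J → ℕ) (j : J) : (winE_ref Ω N).cnt j = N j := by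
  have e : {i : (Σ j, Fin (N j)) // i.1 = j} ≃ Fin (N j) :=
    Equiv.sigmaSubtype (β := fun j => Fin (N j)) j
  exact (Nat.card_congr e).trans (by simp)

theorem winE_floor {X r p n : ℝ} (hX : 0 ≤ X) (hp : 0 ≤ p) (hn : 0 ≤ n) :
    |X - ⌊r * n⌋₊| ≤ |X - r * p| + |r| * |p - n| + 1 := by
  have h0 : 0 ≤ |r| * |p - n| := by positivity
  rcases le_total 0 r with hr | hr
  · have h1 := Nat.floor_le (mul_nonneg hr hn)
    have h2 := Nat.lt_floor_add_one (r * n)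
    have h3 : |r * (p - n)| = |r| * |p - n| := abs_mul _ _
    rw [abs_le]
    constructor <;>
      nlinarith [le_abs_self (X - r * p), neg_abs_le (X - r * p), le_abs_self (r * (p - n)),
        neg_abs_le (r * (p - n))]
  · rw [Nat.floor_of_nonpos (mul_nonpos_of_nonpos_of_nonneg hr hn), Nat.cast_zero, sub_zero,
      abs_of_nonneg hX]
    nlinarith [le_abs_self (X - r * p), mul_nonneg (neg_nonneg.2 hr) hp]

variable [MeasurableSpace Ω] [Countable Ω] [DiscreteMeasurableSpace Ω] [Fintype J]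
  {ν : J → Measure Ω} {s : Ω → ℕ} {z : Ω → ℝ} {F : Fam Ω J} {Δ : ℕ} {B A c₀ : ℝ} {j₀ : J}

theorem winE_decay (h : Slots1 ν s z) (h1 : T1 ν s A) (hc : 0 < c₀) (h4 : T4 (ν j₀) s c₀)
    {κ κ₂ : ℝ} (hκ : 0 < κ) (hκ₂ : 0 < κ₂) : ∃ K : ℝ, 0 ≤ K ∧ ∀ n : ℝ, 1 ≤ n → 1 ≤ κ * n →
      ∀ c : Core Ω J, κ * n ≤ c.cnt j₀ → c.k ≤ κ₂ * n → ∀ (m : ℤ) (x : ℝ),
        |m - c.mean ν s + x * n ^ (2 / 3 : ℝ)| ≤ 1 →
        n ^ (2 / 3 : ℝ) * c.kap ν s m ≤ K * (1 + |x|) ^ (-(3 / 2) : ℝ) := by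
  obtain ⟨C, hC⟩ := kap_le h h1 hc h4 ⌈κ₂ / κ⌉₊
  set b : ℝ := κ₂ ^ (2 / 3 : ℝ) with hb
  have hb0 : 0 < b := Real.rpow_pos_of_pos hκ₂ _
  refine ⟨|C| * κ ^ (-(2 / 3) : ℝ) * (2 + b) ^ (3 / 2 : ℝ), by positivity,
    fun n hn hκn c hc1 hc2 m x hx => ?_⟩
  have hn0 : 0 < n := by linarith
  have hk : κ * n ≤ c.k := hc1.trans (by exact_mod_cast winE_cnt_le c j₀)
  have hk0 : (0 : ℝ) < c.k := by linarith
  set a : ℝ := n ^ (2 / 3 : ℝ) with ha
  have ha1 : 1 ≤ a := Real.one_le_rpow hn (by norm_num)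
  have hfr : c.k ≤ ⌈κ₂ / κ⌉₊ * c.cnt j₀ := by
    have : (c.k : ℝ) ≤ ⌈κ₂ / κ⌉₊ * c.cnt j₀ :=
      calc (c.k : ℝ) ≤ κ₂ / κ * (κ * n) := by rw [← mul_assoc, div_mul_cancel₀ _ hκ.ne']; exact hc2
        _ ≤ _ := mul_le_mul (Nat.le_ceil _) hc1 (by positivity) (by positivity)
    exact_mod_cast this
  have key := hC c (by exact_mod_cast hκn.trans hk) hfr m
  set d : ℝ := |m - c.mean ν s| with hd
  have hd0 : 0 ≤ d := abs_nonneg _
  have e1 : (c.k : ℝ) ^ (-(2 / 3) : ℝ) ≤ κ ^ (-(2 / 3) : ℝ) * a⁻¹ := by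
    rw [ha, ← Real.rpow_neg hn0.le, ← Real.mul_rpow hκ.le hn0.le]
    exact Real.rpow_le_rpow_of_nonpos (by positivity) hk (by norm_num)
  have e2 : (c.k : ℝ) ^ (2 / 3 : ℝ) ≤ b * a := by
    rw [hb, ha, ← Real.mul_rpow hκ₂.le hn0.le]
    exact Real.rpow_le_rpow hk0.le hc2 (by norm_num)
  have e3 : |x| * a ≤ d + 1 := by
    have : |x * a| ≤ |m - c.mean ν s + x * a| + |m - c.mean ν s| := by
      have := abs_sub (m - c.mean ν s + x * a) (m - c.mean ν s)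
      rwa [add_sub_cancel_left] at this
    rw [abs_mul, abs_of_pos (by linarith : 0 < a)] at this
    linarith
  have e4 : (1 + |x|) / (2 + b) ≤ 1 + d / (c.k : ℝ) ^ (2 / 3 : ℝ) := by
    have f1 : d / (b * a) ≤ d / (c.k : ℝ) ^ (2 / 3 : ℝ) :=
      div_le_div_of_nonneg_left hd0 (Real.rpow_pos_of_pos hk0 _) e2
    have f2 : |x| ≤ b * (d / (b * a)) + 1 := by
      rw [show b * (d / (b * a)) = d / a by field_simp, div_add_one (by positivity),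
        le_div_iff₀ (by positivity)]
      linarith
    have f3 : 0 ≤ d / (b * a) := by positivity
    rw [div_le_iff₀ (by positivity)]
    nlinarith
  have e5 : (1 + d / (c.k : ℝ) ^ (2 / 3 : ℝ)) ^ (-(3 / 2) : ℝ) ≤
      (2 + b) ^ (3 / 2 : ℝ) * (1 + |x|) ^ (-(3 / 2) : ℝ) := by
    refine (Real.rpow_le_rpow_of_nonpos (by positivity) e4 (by norm_num)).trans (le_of_eq ?_)
    rw [Real.div_rpow (by positivity) (by positivity), Real.rpow_neg (x := 2 + b) (by positivity)]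
    field_simp
  calc a * c.kap ν s m ≤ a * (|C| * (κ ^ (-(2 / 3) : ℝ) * a⁻¹) *
        ((2 + b) ^ (3 / 2 : ℝ) * (1 + |x|) ^ (-(3 / 2) : ℝ))) := by
        refine mul_le_mul_of_nonneg_left (key.trans ?_) (by positivity)
        gcongr
        exact le_abs_self C
    _ = _ := by field_simp

theorem winE_diff (h : Slots1 ν s z) (h1 : T1 ν s A) (hc : 0 < c₀) (h4 : T4 (ν j₀) s c₀)
    {κ : ℝ} (hκ : 0 < κ) : ∃ K : ℝ, 0 ≤ K ∧ ∀ n : ℝ, 0 < n → 1 ≤ κ * n →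
      ∀ c c' : Core Ω J, κ * n ≤ c.cnt j₀ → κ * n ≤ c'.cnt j₀ → ∀ m m' : ℤ,
        |n ^ (2 / 3 : ℝ) * c.kap ν s m - n ^ (2 / 3 : ℝ) * c'.kap ν s m'| ≤
          K * ((∑ j, |(c.cnt j : ℝ) - c'.cnt j|) / n +
            |(m - c.mean ν s) - (m' - c'.mean ν s)| / n ^ (2 / 3 : ℝ)) := by
  obtain ⟨C, hC⟩ := kap_sub_le h h1 hc h4
  refine ⟨|C| * (κ ^ (-(5 / 3) : ℝ) + κ ^ (-(4 / 3) : ℝ)), by positivity,
    fun n hn hκn c c' hc1 hc2 m m' => ?_⟩
  have key := hC c c' (κ * n) hκn hc1 hc2 m m'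
  have ha : 0 < n ^ (2 / 3 : ℝ) := Real.rpow_pos_of_pos hn _
  have e1 : n ^ (2 / 3 : ℝ) * (κ * n) ^ (-(5 / 3) : ℝ) = κ ^ (-(5 / 3) : ℝ) * n⁻¹ := by
    rw [Real.mul_rpow hκ.le hn.le, mul_left_comm, ← Real.rpow_add hn, ← Real.rpow_neg_one]
    norm_num
  have e2 : n ^ (2 / 3 : ℝ) * (κ * n) ^ (-(4 / 3) : ℝ) = κ ^ (-(4 / 3) : ℝ) * (n ^ (2 / 3 : ℝ))⁻¹ := by
    rw [Real.mul_rpow hκ.le hn.le, mul_left_comm, ← Real.rpow_add hn, ← Real.rpow_neg hn.le]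
    norm_num
  set U : ℝ := ∑ j, |(c.cnt j : ℝ) - c'.cnt j| with hU
  set V : ℝ := |(m - c.mean ν s) - (m' - c'.mean ν s)| with hV
  have hU0 : 0 ≤ U := Finset.sum_nonneg fun _ _ => abs_nonneg _
  have hV0 : 0 ≤ V := abs_nonneg _
  have p1 : 0 ≤ κ ^ (-(5 / 3) : ℝ) := by positivity
  have p2 : 0 ≤ κ ^ (-(4 / 3) : ℝ) := by positivity
  have p3 : 0 ≤ U / n := by positivity
  have p4 : 0 ≤ V / n ^ (2 / 3 : ℝ) := by positivity
  rw [← mul_sub, abs_mul, abs_of_pos ha]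
  calc _ ≤ n ^ (2 / 3 : ℝ) * (|C| * (U * (κ * n) ^ (-(5 / 3) : ℝ) + V * (κ * n) ^ (-(4 / 3) : ℝ))) := by
        refine mul_le_mul_of_nonneg_left (key.trans ?_) ha.le
        exact mul_le_mul_of_nonneg_right (le_abs_self C) (by positivity)
    _ = |C| * (κ ^ (-(5 / 3) : ℝ) * (U / n) + κ ^ (-(4 / 3) : ℝ) * (V / n ^ (2 / 3 : ℝ))) := by
        rw [div_eq_mul_inv U, div_eq_mul_inv V]
        linear_combination (|C| * U) * e1 + (|C| * V) * e2
    _ ≤ _ := by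
        rw [mul_assoc]
        refine mul_le_mul_of_nonneg_left ?_ (abs_nonneg C)
        nlinarith [mul_nonneg p1 p4, mul_nonneg p2 p3]

theorem winE_mid (h : Slots1 ν s z) (hF : F.Heavy ν s j₀ Δ B) (r : J → ℝ) (hr0 : 0 < r j₀) :
    ∃ κ κ₂ : ℝ, 0 < κ ∧ 0 < κ₂ ∧ ∀ᶠ n : ℝ in atTop, 1 ≤ κ * n ∧
      (κ * n ≤ (winE_ref Ω fun j => ⌊r j * n⌋₊).cnt j₀ ∧
        (winE_ref Ω fun j => ⌊r j * n⌋₊).k ≤ κ₂ * n) ∧
      ∀ t, n / 2 ≤ F.pos ν s t → F.pos ν s t ≤ 2 * n →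
        κ * n ≤ (F.core t).cnt j₀ ∧ (F.core t).k ≤ κ₂ * n := by
  obtain ⟨C, hC⟩ := Core.abs_L_le h Δ B
  set M : ℝ := 4 * (|C| + 1) * (Δ + 1) with hM
  have hM0 : 0 < M := by positivity
  have hS : 0 ≤ ∑ j, |r j| := Finset.sum_nonneg fun _ _ => abs_nonneg _
  refine ⟨min (r j₀ / 2) M⁻¹, ∑ j, |r j| + 2 * |B| + 1, by positivity, by positivity, ?_⟩
  have t1 : Tendsto (fun n : ℝ => min (r j₀ / 2) M⁻¹ * n) atTop atTop :=
    tendsto_id.const_mul_atTop (by positivity)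
  filter_upwards [t1.eventually_ge_atTop 1, eventually_gt_atTop 0] with n h1 hn
  have h2 : min (r j₀ / 2) M⁻¹ * n ≤ r j₀ / 2 * n := mul_le_mul_of_nonneg_right (min_le_left _ _) hn.le
  have h3 : min (r j₀ / 2) M⁻¹ * n ≤ M⁻¹ * n := mul_le_mul_of_nonneg_right (min_le_right _ _) hn.le
  refine ⟨h1, ⟨?_, ?_⟩, fun t p1 p2 => ⟨h3.trans ?_, ?_⟩⟩
  · rw [winE_ref_cnt]
    have := Nat.lt_floor_add_one (r j₀ * n)
    linarith
  · rw [winE_ref_k, Nat.cast_sum]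
    calc _ ≤ ∑ j, |r j| * n := Finset.sum_le_sum fun j _ => by
          refine le_trans (Nat.cast_le.2 (Nat.floor_le_floor
            (mul_le_mul_of_nonneg_right (le_abs_self (r j)) hn.le))) (Nat.floor_le (by positivity))
      _ ≤ _ := by
          rw [← Finset.sum_mul]
          exact mul_le_mul_of_nonneg_right (by linarith [abs_nonneg B]) hn.le
  · have q1 : (1 : ℝ) ≤ (F.core t).k := by exact_mod_cast hF.k_pos t
    have q2 : ((F.core t).k : ℝ) ≤ Δ * (F.core t).cnt j₀ := by exact_mod_cast hF.frac t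
    have q3 : F.pos ν s t ≤ |C| * ((F.core t).k + 1) :=
      (hC _ (hF.good t)).2.trans (mul_le_mul_of_nonneg_right (le_abs_self C) (by positivity))
    have q4 : (0 : ℝ) ≤ (F.core t).cnt j₀ := Nat.cast_nonneg _
    have q5 : n ≤ 4 * (|C| + 1) * (F.core t).k := by nlinarith [abs_nonneg C]
    rw [inv_mul_le_iff₀ hM0, hM, mul_assoc]
    refine q5.trans (mul_le_mul_of_nonneg_left (by linarith) (by positivity))
  · have q1 : ((F.core t).k : ℝ) ≤ |B| * F.pos ν s t :=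
      (hF.k_le t).trans (mul_le_mul_of_nonneg_right (le_abs_self B) (by linarith [hF.one_le t]))
    have q2 : |B| * F.pos ν s t ≤ |B| * (2 * n) := mul_le_mul_of_nonneg_left p2 (abs_nonneg B)
    nlinarith

/-- the reference profile -/
noncomputable def winE_G (ν : J → Measure Ω) (s : Ω → ℕ) (r : J → ℝ) (n x : ℝ) : ℝ :=
  n ^ (2 / 3 : ℝ) * (winE_ref Ω fun j => ⌊r j * n⌋₊).kap ν s
    ⌊(winE_ref Ω fun j => ⌊r j * n⌋₊).mean ν s - x * n ^ (2 / 3 : ℝ)⌋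

theorem winE_floor_le (m y : ℝ) : |(⌊m - y⌋ : ℝ) - m + y| ≤ 1 := by
  have h1 := Int.floor_le (m - y)
  have h2 := Int.lt_floor_add_one (m - y)
  rw [abs_le]; constructor <;> linarith

theorem winE_tendsto_inv : Tendsto (fun n : ℝ => (n ^ (2 / 3 : ℝ))⁻¹) atTop (𝓝 0) :=
  (tendsto_rpow_atTop (by norm_num)).inv_tendsto_atTop

theorem winE_tendsto_ratio : Tendsto (fun n : ℝ => n ^ (2 / 3 : ℝ) / n) atTop (𝓝 0) := by
  refine (tendsto_rpow_neg_atTop (y := 1 / 3) (by norm_num)).congr' ?_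
  filter_upwards [eventually_gt_atTop 0] with n hn
  rw [← Real.rpow_sub_one hn.ne']
  norm_num

theorem winE_profile (h : Slots1 ν s z) (h1 : T1 ν s A) (hc : 0 < c₀) (h4 : T4 (ν j₀) s c₀)
    (hF : F.Heavy ν s j₀ Δ B) (r : J → ℝ) (hr0 : 0 < r j₀) : ∃ K : ℝ, 0 ≤ K ∧
    (∀ᶠ n : ℝ in atTop, ∀ x, |winE_G ν s r n x| ≤ K * (1 + |x|) ^ (-(3 / 2) : ℝ)) ∧
    (∀ ε : ℝ, 0 < ε → ∀ᶠ n : ℝ in atTop, ∀ x y,
      |winE_G ν s r n x - winE_G ν s r n y| ≤ K * |x - y| + ε) ∧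
    (∀ᶠ n : ℝ in atTop, ∀ t, n / 2 ≤ F.pos ν s t → F.pos ν s t ≤ 2 * n → ∀ m : ℤ, (m : ℝ) = n →
      |n ^ (2 / 3 : ℝ) * (F.core t).kap ν s m -
        winE_G ν s r n ((F.pos ν s t - n) / n ^ (2 / 3 : ℝ))| ≤
        K * (1 + |(F.pos ν s t - n) / n ^ (2 / 3 : ℝ)|) ^ (-(3 / 2) : ℝ)) ∧
    ∀ ε₀ : ℝ, 0 < ε₀ → ∃ ε : ℝ, 0 < ε ∧ ∀ᶠ n : ℝ in atTop, ∀ t, n / 2 ≤ F.pos ν s t →
      F.pos ν s t ≤ 2 * n → (∀ j, |(F.core t).cnt j - r j * F.pos ν s t| ≤ ε * n) →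
      ∀ m : ℤ, (m : ℝ) = n → |n ^ (2 / 3 : ℝ) * (F.core t).kap ν s m -
        winE_G ν s r n ((F.pos ν s t - n) / n ^ (2 / 3 : ℝ))| ≤
        ε₀ * (1 + |(F.pos ν s t - n) / n ^ (2 / 3 : ℝ)|) := by
  obtain ⟨κ, κ₂, hκ, hκ₂, hmid⟩ := winE_mid h hF r hr0
  obtain ⟨K₁, hK₁, hdec⟩ := winE_decay h h1 hc h4 hκ hκ₂
  obtain ⟨K₂, hK₂, hdif⟩ := winE_diff h h1 hc h4 hκ
  have hG : ∀ᶠ n : ℝ in atTop, ∀ x, 0 ≤ winE_G ν s r n x ∧
      winE_G ν s r n x ≤ K₁ * (1 + |x|) ^ (-(3 / 2) : ℝ) := by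
    filter_upwards [hmid, eventually_ge_atTop 1] with n hn hn1 x
    exact ⟨mul_nonneg (by positivity) measureReal_nonneg,
      hdec n hn1 hn.1 _ hn.2.1.1 hn.2.1.2 _ x (winE_floor_le _ _)⟩
  refine ⟨K₁ + K₂, by positivity, ?_, fun ε hε => ?_, ?_, fun ε₀ hε₀ => ?_⟩
  · filter_upwards [hG] with n hn x
    rw [abs_of_nonneg (hn x).1]
    exact (hn x).2.trans (mul_le_mul_of_nonneg_right (by linarith) (by positivity))
  · have t1 := winE_tendsto_inv.const_mul (K₂ * 2)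
    rw [mul_zero] at t1
    filter_upwards [hmid, eventually_gt_atTop 0, t1.eventually (ge_mem_nhds hε)] with n hn hn0 h5 x y
    have ha : 0 < n ^ (2 / 3 : ℝ) := Real.rpow_pos_of_pos hn0 _
    refine (hdif n hn0 hn.1 _ _ hn.2.1.1 hn.2.1.1 _ _).trans ?_
    simp only [sub_self, abs_zero, Finset.sum_const_zero, zero_div, zero_add]
    set M := (winE_ref Ω fun j => ⌊r j * n⌋₊).mean ν s
    set a := n ^ (2 / 3 : ℝ)
    have e1 := abs_le.1 (winE_floor_le M (x * a))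
    have e2 := abs_le.1 (winE_floor_le M (y * a))
    have e3 : |(⌊M - x * a⌋ : ℝ) - M - (⌊M - y * a⌋ - M)| ≤ |x - y| * a + 2 := by
      have f1 := mul_le_mul_of_nonneg_right (le_abs_self (x - y)) ha.le
      have f2 := mul_le_mul_of_nonneg_right (neg_abs_le (x - y)) ha.le
      rw [abs_le]; constructor <;> linarith
    calc _ ≤ K₂ * ((|x - y| * a + 2) / a) := by gcongr
      _ = K₂ * |x - y| + K₂ * 2 * a⁻¹ := by field_simp
      _ ≤ _ := add_le_add (mul_le_mul_of_nonneg_right (by linarith) (abs_nonneg _)) h5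
  · filter_upwards [hG, hmid, eventually_ge_atTop 1] with n hn hm hn1 t p1 p2 m hmn
    have ha : 0 < n ^ (2 / 3 : ℝ) := Real.rpow_pos_of_pos (by linarith) _
    have e1 := hdec n hn1 hm.1 _ (hm.2.2 t p1 p2).1 (hm.2.2 t p1 p2).2 m
      ((F.pos ν s t - n) / n ^ (2 / 3 : ℝ)) (by
        rw [div_mul_cancel₀ _ ha.ne', hmn, Fam.pos]; simp)
    have e2 : 0 ≤ n ^ (2 / 3 : ℝ) * (F.core t).kap ν s m := mul_nonneg ha.le measureReal_nonneg
    have e3 := hn ((F.pos ν s t - n) / n ^ (2 / 3 : ℝ))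
    have e4 : 0 ≤ K₂ * (1 + |(F.pos ν s t - n) / n ^ (2 / 3 : ℝ)|) ^ (-(3 / 2) : ℝ) := by positivity
    rw [abs_le, add_mul]
    constructor <;> linarith [e3.1, e3.2]
  · set N : ℝ := (Fintype.card J : ℝ) with hN
    have hN0 : 0 ≤ N := Nat.cast_nonneg _
    set ρ : ℝ := ∑ j, |r j| with hρ
    have hρ0 : 0 ≤ ρ := Finset.sum_nonneg fun _ _ => abs_nonneg _
    have t1 := (((tendsto_inv_atTop_zero (𝕜 := ℝ)).const_mul N).add
      ((winE_tendsto_ratio.const_mul ρ).add winE_tendsto_inv)).const_mul K₂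
    simp only [mul_zero, add_zero] at t1
    refine ⟨ε₀ / (2 * (K₂ * N + 1)), by positivity, ?_⟩
    filter_upwards [hmid, eventually_gt_atTop 0, t1.eventually (ge_mem_nhds (half_pos hε₀))]
      with n hm hn0 h5 t p1 p2 hgood m hmn
    have ha : 0 < n ^ (2 / 3 : ℝ) := Real.rpow_pos_of_pos hn0 _
    refine (hdif n hn0 hm.1 _ _ (hm.2.2 t p1 p2).1 hm.2.1.1 _ _).trans ?_
    set M := (winE_ref Ω fun j => ⌊r j * n⌋₊).mean ν s
    set a := n ^ (2 / 3 : ℝ)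
    set u := (F.pos ν s t - n) / a with hu
    set ε := ε₀ / (2 * (K₂ * N + 1)) with hε
    have hua : F.pos ν s t - n = u * a := by rw [hu, div_mul_cancel₀ _ ha.ne']
    have e1 : |(m : ℝ) - (F.core t).mean ν s - (⌊M - u * a⌋ - M)| ≤ 1 := by
      have := winE_floor_le M (u * a)
      rw [← hua, Fam.pos] at this
      rw [← hua, Fam.pos, hmn, ← abs_neg]
      convert this using 2
      ring
    have e2 : ∑ j, |((F.core t).cnt j : ℝ) - (winE_ref Ω fun j => ⌊r j * n⌋₊).cnt j| ≤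
        N * (ε * n + 1) + ρ * (|u| * a) := by
      calc _ ≤ ∑ j, ((ε * n + 1) + |r j| * (|u| * a)) := Finset.sum_le_sum fun j _ => by
            rw [winE_ref_cnt]
            have := winE_floor (X := (F.core t).cnt j) (r := r j) (p := F.pos ν s t) (n := n)
              (Nat.cast_nonneg _) (by linarith) hn0.le
            rw [hua, abs_mul u, abs_of_pos ha] at this
            linarith [hgood j]
        _ = _ := by
            rw [Finset.sum_add_distrib, ← Finset.sum_mul, Finset.sum_const, Finset.card_univ,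
              nsmul_eq_mul]
    have e3 : K₂ * N * ε ≤ ε₀ / 2 := by
      rw [hε, ← mul_div_assoc, div_le_div_iff₀ (by positivity) (by norm_num)]
      nlinarith [mul_nonneg hK₂ hN0]
    have hu0 := abs_nonneg u
    have q1 : 0 ≤ K₂ * (N * n⁻¹) := by positivity
    have q2 : 0 ≤ K₂ * (ρ * (a / n)) := by positivity
    have q3 : 0 ≤ K₂ * a⁻¹ := by positivity
    calc _ ≤ K₂ * ((N * (ε * n + 1) + ρ * (|u| * a)) / n + 1 / a) := by gcongr
      _ = K₂ * N * ε + (K₂ * (N * n⁻¹) + K₂ * (ρ * (a / n)) * |u| + K₂ * a⁻¹) := by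
          field_simp
          ring
      _ ≤ _ := by
          rw [mul_add, mul_add] at h5
          nlinarith

end Pool.Agent.Lib.MP_77dff5_pr
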