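import Pool.Agent.Lib.MP_77dff5_pr.WinD
import Pool.Agent.Lib.MP_77dff5_pr.TaubA
import Pool.Agent.Lib.MP_77dff5_pr.WinEAux2

/-! Cores with many slots: the window where the mean size is close to the size. -/

set_option autoImplicit false

namespace Pool.Agent.Lib.MP_77dff5_pr

open MeasureTheory ProbabilityTheory Filter Topology
open scoped ENNReal NNReal

/-- the rescaled weights -/
noncomputable def winE_c {T : Type} (pos : T → ℝ) (w : T → ℝ≥0) (X : T → ℝ) (n θ : ℝ) (t : T) : ℂ :=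
  {t | n / 2 ≤ pos t ∧ pos t ≤ 2 * n}.indicator (fun t => ((n ^ (11 / 6 : ℝ) : ℝ) : ℂ) *
    (((w t : ℝ) : ℂ) * Complex.exp (Complex.I * ((θ * X t : ℝ) : ℂ)))) t

section
variable {T : Type} {pos : T → ℝ} {w : T → ℝ≥0} {X : T → ℝ} {n θ : ℝ}

theorem winE_c_norm (hn : 0 ≤ n) (t : T) : ‖winE_c pos w X n θ t‖ =
    {t | n / 2 ≤ pos t ∧ pos t ≤ 2 * n}.indicator (fun t => n ^ (11 / 6 : ℝ) * w t) t := by
  rw [winE_c, norm_indicator_eq_indicator_norm]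
  congr 1
  ext t
  rw [norm_mul, norm_mul, Complex.norm_exp_I_mul_ofReal, mul_one, Complex.norm_real,
    Complex.norm_real, Real.norm_of_nonneg (by positivity), Real.norm_of_nonneg (NNReal.coe_nonneg _)]

theorem winE_c_enorm (hn : 0 ≤ n) (t : T) : ‖winE_c pos w X n θ t‖ₑ =
    {t | n / 2 ≤ pos t ∧ pos t ≤ 2 * n}.indicator
      (fun t => ENNReal.ofReal (n ^ (11 / 6 : ℝ)) * (w t : ℝ≥0∞)) t := by
  rw [← ofReal_norm_eq_enorm, winE_c_norm hn]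
  by_cases ht : t ∈ {t | n / 2 ≤ pos t ∧ pos t ≤ 2 * n}
  · rw [Set.indicator_of_mem ht, Set.indicator_of_mem ht, ENNReal.ofReal_mul (by positivity),
      ENNReal.ofReal_coe_nnreal]
  · rw [Set.indicator_of_notMem ht, Set.indicator_of_notMem ht, ENNReal.ofReal_zero]

theorem winE_c_summable (hn : 0 ≤ n) (hs : Summable fun t => (w t : ℝ)) :
    Summable fun t => ‖winE_c pos w X n θ t‖ := by
  simp only [winE_c_norm hn]
  exact (hs.mul_left _).indicator _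

theorem winE_win (hn : 0 < n) (V : Set T) {A : ℝ} (y : ℝ)
    (h : ∑' t : {t | t ∈ V ∧ (n + y * n ^ (2 / 3 : ℝ) ≤ pos t ∧
      pos t ≤ n + y * n ^ (2 / 3 : ℝ) + n ^ (2 / 3 : ℝ))}, (w t : ℝ≥0∞) ≤
        ENNReal.ofReal (A * n ^ (-(11 / 6) : ℝ))) :
    ∑' t : {t // y ≤ (pos t - n) / n ^ (2 / 3 : ℝ) ∧ (pos t - n) / n ^ (2 / 3 : ℝ) ≤ y + 1},
      V.indicator (fun t => ENNReal.ofReal (n ^ (11 / 6 : ℝ)) * (w t : ℝ≥0∞)) t ≤
        ENNReal.ofReal A := by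
  have ha : 0 < n ^ (2 / 3 : ℝ) := Real.rpow_pos_of_pos hn _
  have e1 := tsum_subtype
    {t | y ≤ (pos t - n) / n ^ (2 / 3 : ℝ) ∧ (pos t - n) / n ^ (2 / 3 : ℝ) ≤ y + 1}
    (V.indicator fun t => ENNReal.ofReal (n ^ (11 / 6 : ℝ)) * (w t : ℝ≥0∞))
  have e2 : {t | y ≤ (pos t - n) / n ^ (2 / 3 : ℝ) ∧ (pos t - n) / n ^ (2 / 3 : ℝ) ≤ y + 1} ∩ V =
      {t | t ∈ V ∧ (n + y * n ^ (2 / 3 : ℝ) ≤ pos t ∧
        pos t ≤ n + y * n ^ (2 / 3 : ℝ) + n ^ (2 / 3 : ℝ))} := by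
    ext t
    simp only [Set.mem_inter_iff, Set.mem_setOf_eq, le_div_iff₀ ha, div_le_iff₀ ha]
    constructor
    · rintro ⟨⟨h1, h2⟩, h3⟩
      exact ⟨h3, by linarith, by linarith⟩
    · rintro ⟨h3, h1, h2⟩
      exact ⟨⟨by linarith, by linarith⟩, h3⟩
  rw [Set.indicator_indicator, e2, ← tsum_subtype, ENNReal.tsum_mul_left] at e1
  refine (le_of_eq e1).trans ((mul_le_mul_right h _).trans (le_of_eq ?_))
  rw [← ENNReal.ofReal_mul (by positivity), mul_left_comm, ← Real.rpow_add hn]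
  simp

theorem winE_c_win (hw : WinB pos (fun t => w t) (-(11 / 6))) : ∃ A : ℝ, 0 ≤ A ∧ ∀ n : ℝ, 2 ≤ n →
    ∀ θ y : ℝ, ∑' t : {t // y ≤ (pos t - n) / n ^ (2 / 3 : ℝ) ∧
      (pos t - n) / n ^ (2 / 3 : ℝ) ≤ y + 1}, ‖winE_c pos w X n θ t‖ₑ ≤ ENNReal.ofReal A := by
  obtain ⟨A, hA0, hA⟩ := winE_near hw
  refine ⟨A, hA0, fun n hn θ y => ?_⟩
  have hn0 : 0 < n := by linarith
  simp only [winE_c_enorm hn0.le]
  exact winE_win hn0 _ y (hA n hn _)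

theorem winE_c_lim {c σ2 : ℝ} (hclt : WinCLT pos w X c σ2) (θ : ℝ) (φ : ℝ → ℝ)
    (h1 : Continuous φ) (h2 : HasCompactSupport φ) :
    Tendsto (fun p : ℕ × ℝ => ∑' t, winE_c pos w X p.1 p.2 t *
      (φ ((pos t - p.1) / (p.1 : ℝ) ^ (2 / 3 : ℝ)) : ℂ)) (FF θ)
      (𝓝 (((c * Real.exp (-(σ2 * θ ^ 2 / 2)) : ℝ) : ℂ) * ((∫ x, φ x : ℝ) : ℂ))) := by
  have t0 : Tendsto (fun p : ℕ × ℝ => (p.1 : ℝ)) (FF θ) atTop :=
    tendsto_natCast_atTop_atTop.comp (FF_fst θ)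
  have t1 : Tendsto (fun p : ℕ × ℝ => ((p.1 : ℝ), p.2 * √p.1)) (FF θ) (atTop ×ˢ 𝓝 θ) :=
    t0.prodMk (tendsto_snd.comp (tendsto_comap (f := fun p : ℕ × ℝ => (p.1, p.2 * √p.1))))
  have t2 := (hclt φ h1 h2 θ).comp t1
  rw [Complex.ofReal_mul] at t2
  obtain ⟨R, hR⟩ := h2.isCompact.isBounded.subset_closedBall 0
  have t3 := winE_tendsto_ratio.const_mul |R|
  rw [mul_zero] at t3
  refine t2.congr' ?_
  filter_upwards [t0.eventually_gt_atTop 0,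
    t0.eventually (t3.eventually (ge_mem_nhds (by norm_num : (0 : ℝ) < 1 / 2)))] with p hp h3
  have ha : 0 < (p.1 : ℝ) ^ (2 / 3 : ℝ) := Real.rpow_pos_of_pos hp _
  simp only [Function.comp_apply]
  rw [← tsum_mul_left]
  refine tsum_congr fun t => ?_
  by_cases h0 : φ ((pos t - p.1) / (p.1 : ℝ) ^ (2 / 3 : ℝ)) = 0
  · simp [h0]
  · have h4 := hR (subset_tsupport φ h0)
    rw [Metric.mem_closedBall, dist_zero_right, Real.norm_eq_abs, abs_div, abs_of_pos ha,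
      div_le_iff₀ ha] at h4
    rw [← mul_div_assoc, div_le_iff₀ hp] at h3
    have h5 := abs_le.1 (h4.trans ((mul_le_mul_of_nonneg_right (le_abs_self R) ha.le).trans h3))
    have h6 : p.2 * √p.1 * X t / √p.1 = p.2 * X t := by
      have : √(p.1 : ℝ) ≠ 0 := (Real.sqrt_pos.2 hp).ne'
      field_simp
    rw [winE_c, Set.indicator_of_mem (show t ∈ {t | (p.1 : ℝ) / 2 ≤ pos t ∧ pos t ≤ 2 * p.1} from
      ⟨by linarith [h5.1], by linarith [h5.2]⟩), h6]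
    ring

end

variable {Ω J : Type} [MeasurableSpace Ω]

variable [Countable Ω] [DiscreteMeasurableSpace Ω] [Fintype J]
  {ν : J → Measure Ω} {s : Ω → ℕ} {z : Ω → ℝ} {F : Fam Ω J} {Δ : ℕ} {B A c₀ : ℝ} {j₀ : J}

section large
variable (h : Slots ν s z) (h1 : T1 ν s A) (hc : 0 < c₀) (h4 : T4 (ν j₀) s c₀)
  (hF : F.Heavy ν s j₀ Δ B) (hw : WinB (F.pos ν s) (fun t => F.w t) (-(11 / 6)))
include h h1 hc h4 hF hw

omit h h1 hc h4 hF in
theorem winE_err (r : J → ℝ)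
    (hr : ∀ j, WinLLN (F.pos ν s) (fun t => F.w t) (fun t => (F.core t).cnt j) (r j))
    (X : F.T → ℝ) (D : ℕ → F.T → ℝ) {K : ℝ} (hK : 0 ≤ K)
    (hD1 : ∀ᶠ n : ℕ in atTop, ∀ t, (n : ℝ) / 2 ≤ F.pos ν s t → F.pos ν s t ≤ 2 * n →
      |D n t| ≤ K * (1 + |(F.pos ν s t - n) / (n : ℝ) ^ (2 / 3 : ℝ)|) ^ (-(3 / 2) : ℝ))
    (hD2 : ∀ ε₀ : ℝ, 0 < ε₀ → ∃ ε : ℝ, 0 < ε ∧ ∀ᶠ n : ℕ in atTop, ∀ t, (n : ℝ) / 2 ≤ F.pos ν s t →
      F.pos ν s t ≤ 2 * n → (∀ j, |(F.core t).cnt j - r j * F.pos ν s t| ≤ ε * n) →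
      |D n t| ≤ ε₀ * (1 + |(F.pos ν s t - n) / (n : ℝ) ^ (2 / 3 : ℝ)|)) (θ : ℝ) :
    Tendsto (fun p : ℕ × ℝ => ∑' t, winE_c (F.pos ν s) F.w X p.1 p.2 t * (D p.1 t : ℂ)) (FF θ)
      (𝓝 0) := by
  obtain ⟨S, hS, hsum⟩ := winE_sum
  obtain ⟨A, hA0, hA⟩ := winE_c_win (X := X) hw
  set C : ℝ≥0∞ := ENNReal.ofReal A * S + ENNReal.ofReal K * (Fintype.card J * S) with hC
  have hC' : C ≠ ⊤ := by finiteness
  have key : ∀ δ : ℝ, 0 < δ → ∀ᶠ n : ℕ in atTop, ∀ θ' : ℝ,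
      ‖∑' t, winE_c (F.pos ν s) F.w X n θ' t * (D n t : ℂ)‖ₑ ≤ ENNReal.ofReal δ * C := by
    intro δ hδ
    obtain ⟨ε₀, hε₀, hmin⟩ := winE_min (K := K) hδ
    obtain ⟨ε, hε, hD2'⟩ := hD2 ε₀ hε₀
    have hl := tendsto_natCast_atTop_atTop.eventually
      (eventually_all.2 fun j => winE_lln (hr j) hε hδ)
    filter_upwards [hD1, hD2', hl, eventually_ge_atTop 2] with n e1 e2 e3 hn θ'
    have hn2 : (2 : ℝ) ≤ n := by exact_mod_cast hn
    have hn0 : (0 : ℝ) < n := by linarith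
    set u : F.T → ℝ := fun t => (F.pos ν s t - n) / (n : ℝ) ^ (2 / 3 : ℝ) with hu
    set V : Set F.T := {t | ((n : ℝ) / 2 ≤ F.pos ν s t ∧ F.pos ν s t ≤ 2 * n) ∧
      ∃ j, ε * n < |(F.core t).cnt j - r j * F.pos ν s t|} with hV
    set m : F.T → ℝ≥0∞ :=
      V.indicator fun t => ENNReal.ofReal ((n : ℝ) ^ (11 / 6 : ℝ)) * (F.w t : ℝ≥0∞) with hm
    have s1 := hsum F.T u (fun t => ‖winE_c (F.pos ν s) F.w X n θ' t‖ₑ) _ (hA n hn2 θ')
    have s2 := hsum F.T u m (ENNReal.ofReal (Fintype.card J * δ)) fun y => by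
      refine winE_win hn0 V y ?_
      have q1 := (ENNReal.tsum_iUnion_le (fun t => (F.w t : ℝ≥0∞)) _).trans
        (Finset.sum_le_sum fun j _ => e3 j (n + y * (n : ℝ) ^ (2 / 3 : ℝ)))
      refine le_trans (ENNReal.tsum_mono_subtype (fun t => (F.w t : ℝ≥0∞)) fun t ht => ?_)
        (q1.trans (le_of_eq ?_))
      · obtain ⟨⟨p1, j, p2⟩, p3⟩ := ht
        exact Set.mem_iUnion.2 ⟨j, p1, p3, p2⟩
      · rw [Finset.sum_const, Finset.card_univ, nsmul_eq_mul, mul_assoc,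
          ENNReal.ofReal_mul (Nat.cast_nonneg _), ENNReal.ofReal_natCast]
    have pt : ∀ t, ‖winE_c (F.pos ν s) F.w X n θ' t * (D n t : ℂ)‖ₑ ≤
        ENNReal.ofReal δ * (‖winE_c (F.pos ν s) F.w X n θ' t‖ₑ *
          ENNReal.ofReal ((1 + |u t|) ^ (-(5 / 4) : ℝ))) +
        ENNReal.ofReal K * (m t * ENNReal.ofReal ((1 + |u t|) ^ (-(5 / 4) : ℝ))) := by
      intro t
      have hv : 1 ≤ 1 + |u t| := by linarith [abs_nonneg (u t)]
      have hD : ‖(D n t : ℂ)‖ₑ = ENNReal.ofReal |D n t| := by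
        rw [← ofReal_norm_eq_enorm, Complex.norm_real, Real.norm_eq_abs]
      rw [enorm_mul, hD]
      by_cases hW : (n : ℝ) / 2 ≤ F.pos ν s t ∧ F.pos ν s t ≤ 2 * n
      · by_cases hb : ∃ j, ε * n < |(F.core t).cnt j - r j * F.pos ν s t|
        · refine le_add_left ?_
          have : m t = ‖winE_c (F.pos ν s) F.w X n θ' t‖ₑ := by
            rw [winE_c_enorm hn0.le, hm, Set.indicator_of_mem (show t ∈ V from ⟨hW, hb⟩),
              Set.indicator_of_mem (show t ∈ {t | (n : ℝ) / 2 ≤ F.pos ν s t ∧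
                F.pos ν s t ≤ 2 * n} from hW)]
          rw [this, mul_left_comm, ← ENNReal.ofReal_mul hK]
          refine mul_le_mul_right (ENNReal.ofReal_le_ofReal ((e1 t hW.1 hW.2).trans ?_)) _
          exact mul_le_mul_of_nonneg_left (Real.rpow_le_rpow_of_exponent_le hv (by norm_num)) hK
        · refine le_add_right ?_
          push Not at hb
          rw [mul_left_comm, ← ENNReal.ofReal_mul hδ.le]
          exact mul_le_mul_right (ENNReal.ofReal_le_ofReal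
            (hmin _ _ hv (e2 t hW.1 hW.2 hb) (e1 t hW.1 hW.2))) _
      · rw [winE_c, Set.indicator_of_notMem (show t ∉ {t | (n : ℝ) / 2 ≤ F.pos ν s t ∧
          F.pos ν s t ≤ 2 * n} from hW), enorm_zero, zero_mul]
        exact zero_le
    refine enorm_tsum_le_tsum_enorm.trans ((ENNReal.tsum_le_tsum pt).trans ?_)
    rw [ENNReal.tsum_add, ENNReal.tsum_mul_left, ENNReal.tsum_mul_left, hC, mul_add]
    refine add_le_add (mul_le_mul_right s1 _) ((mul_le_mul_right s2 _).trans (le_of_eq ?_))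
    rw [ENNReal.ofReal_mul (Nat.cast_nonneg _), ENNReal.ofReal_natCast]
    ring
  rw [NormedAddGroup.tendsto_nhds_zero]
  intro η hη
  have hC0 : 0 ≤ C.toReal := ENNReal.toReal_nonneg
  filter_upwards [(FF_fst θ).eventually (key (η / (C.toReal + 1)) (by positivity))] with p hp
  have h1 := ENNReal.toReal_mono (by finiteness) (hp p.2)
  rw [toReal_enorm, ENNReal.toReal_mul, ENNReal.toReal_ofReal (by positivity)] at h1
  refine h1.trans_lt ?_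
  rw [div_mul_eq_mul_div, div_lt_iff₀ (by positivity)]
  nlinarith

/-- forward transfer: from window averages to local asymptotics -/
theorem Fam.forward {q c σ2 : ℝ}
    (hQ : WinLLN (F.pos ν s) (fun t => F.w t) (fun t => (F.core t).Q ν z) q)
    (hclt : WinCLT (F.pos ν s) F.w (fun t => (F.core t).L ν z) c σ2) (r : J → ℝ)
    (hr : ∀ j, WinLLN (F.pos ν s) (fun t => F.w t) (fun t => (F.core t).cnt j) (r j))
    (hr0 : 0 < r j₀) (θ : ℝ) :
    Tendsto (fun p : ℕ × ℝ => (((p.1 : ℝ) ^ (5 / 2 : ℝ) : ℝ) : ℂ) *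
      ch (F.lawOn (F.small p.1)ᶜ ν s z) p.1 p.2) (FF θ)
      (𝓝 ((c * Real.exp (-((σ2 + q) * θ ^ 2 / 2)) : ℝ) : ℂ)) := by
  have hs : Summable fun t => (F.w t : ℝ) :=
    Summable.of_nonneg_of_le (fun t => (F.w t).2) (fun t => le_mul_of_one_le_right (F.w t).2
      (by linarith [(Nat.cast_nonneg (F.core t).k : (0 : ℝ) ≤ _)])) hF.sum1
  have t0 : Tendsto (fun p : ℕ × ℝ => (p.1 : ℝ)) (FF θ) atTop :=
    tendsto_natCast_atTop_atTop.comp (FF_fst θ)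
  obtain ⟨K, hK, hG, hL, hD1, hD2⟩ := winE_profile h.toSlots1 h1 hc h4 hF r hr0
  set L : F.T → ℝ := fun t => (F.core t).L ν z with hLdef
  obtain ⟨A', hA0, hA⟩ := winE_c_win (X := L) hw
  have hcs : ∀ p : ℕ × ℝ, Summable fun t => ‖winE_c (F.pos ν s) F.w L p.1 p.2 t‖ := fun p =>
    winE_c_summable (Nat.cast_nonneg _) hs
  have main := profile (l := FF θ)
    (fun p t => (F.pos ν s t - p.1) / (p.1 : ℝ) ^ (2 / 3 : ℝ))
    (fun p t => winE_c (F.pos ν s) F.w L p.1 p.2 t) hcs (A := A') (by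
      filter_upwards [t0.eventually_ge_atTop 2] with p hp y
      have := hA p.1 hp p.2 y
      simp only [← ofReal_norm_eq_enorm] at this
      rwa [← ENNReal.ofReal_tsum_of_nonneg (fun _ => norm_nonneg _) ((hcs p).subtype _),
        ENNReal.ofReal_le_ofReal_iff hA0] at this)
    (winE_c_lim hclt θ) (fun p => winE_G ν s r p.1) (t0.eventually hG)
    (fun ε hε => t0.eventually (hL ε hε)) (by
      filter_upwards [t0.eventually_gt_atTop 0] with p hp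
      have := Core.isProb h.prob (winE_ref Ω fun j => ⌊r j * p.1⌋₊)
      exact winE_int ((winE_ref Ω fun j => ⌊r j * p.1⌋₊).P ν) _ Measurable.of_discrete _
        (Real.rpow_pos_of_pos hp _))
  have err := winE_err hw r hr L (fun n t => (n : ℝ) ^ (2 / 3 : ℝ) * (F.core t).kap ν s n -
      winE_G ν s r n ((F.pos ν s t - n) / (n : ℝ) ^ (2 / 3 : ℝ))) hK
    ((tendsto_natCast_atTop_atTop.eventually hD1).mono fun n hn t p1 p2 =>
      hn t p1 p2 n (Int.cast_natCast n))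
    (fun ε₀ hε₀ => (hD2 ε₀ hε₀).imp fun ε hε => ⟨hε.1,
      (tendsto_natCast_atTop_atTop.eventually hε.2).mono fun n hn t p1 p2 p3 =>
        hn t p1 p2 p3 n (Int.cast_natCast n)⟩) θ
  have t1 := (Fam.large_ch h h1 hc h4 hF hw hQ θ).add
    ((main.add err).const_mul ((Real.exp (-(q * θ ^ 2 / 2)) : ℝ) : ℂ))
  have e0 : (0 : ℂ) + ((Real.exp (-(q * θ ^ 2 / 2)) : ℝ) : ℂ) *
      (((c * Real.exp (-(σ2 * θ ^ 2 / 2)) : ℝ) : ℂ) + 0) =
      ((c * Real.exp (-((σ2 + q) * θ ^ 2 / 2)) : ℝ) : ℂ) := by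
    rw [zero_add, add_zero, ← Complex.ofReal_mul, mul_left_comm, ← Real.exp_add]
    congr 3
    ring
  rw [e0] at t1
  refine t1.congr' ?_
  filter_upwards [t0.eventually_gt_atTop 0] with p hp
  have ha : 0 < (p.1 : ℝ) ^ (2 / 3 : ℝ) := Real.rpow_pos_of_pos hp _
  have hk : ∀ (c : Core Ω J) (m : ℤ), |(p.1 : ℝ) ^ (2 / 3 : ℝ) * c.kap ν s m| ≤
      (p.1 : ℝ) ^ (2 / 3 : ℝ) := fun c m => by
    have := Core.isProb h.prob c
    rw [Core.kap, abs_of_nonneg (mul_nonneg ha.le measureReal_nonneg)]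
    exact mul_le_of_le_one_right ha.le measureReal_le_one
  have sm : ∀ (g : F.T → ℝ) (M : ℝ), (∀ t, |g t| ≤ M) →
      Summable fun t => winE_c (F.pos ν s) F.w L p.1 p.2 t * (g t : ℂ) := fun g M hg => by
    refine Summable.of_norm_bounded ((hcs p).mul_right M) fun t => ?_
    rw [norm_mul, Complex.norm_real]
    exact mul_le_mul_of_nonneg_left (hg t) (norm_nonneg _)
  have hk' : ∀ x, |winE_G ν s r p.1 x| ≤ (p.1 : ℝ) ^ (2 / 3 : ℝ) := fun x => hk _ _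
  rw [← Summable.tsum_add (sm _ _ fun t => hk' _) (sm _ _ fun t =>
    (abs_sub _ _).trans (add_le_add (hk _ _) (hk' _)))]
  have e1 : (((p.1 : ℝ) ^ (5 / 2 : ℝ) : ℝ) : ℂ) *
      ∑' t : {t // (p.1 : ℝ) / 2 ≤ F.pos ν s t ∧ F.pos ν s t ≤ 2 * p.1}, ((F.w t : ℝ) : ℂ) *
        Complex.exp (Complex.I * ((p.2 * (F.core t).L ν z : ℝ) : ℂ)) *
          (((F.core t).kap ν s p.1 : ℝ) : ℂ) =
      ∑' t, winE_c (F.pos ν s) F.w L p.1 p.2 t *
        (((p.1 : ℝ) ^ (2 / 3 : ℝ) * (F.core t).kap ν s p.1 : ℝ) : ℂ) := by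
    rw [← tsum_mul_left]
    refine (tsum_subtype {t | (p.1 : ℝ) / 2 ≤ F.pos ν s t ∧ F.pos ν s t ≤ 2 * p.1}
      (fun t => (((p.1 : ℝ) ^ (5 / 2 : ℝ) : ℝ) : ℂ) * (((F.w t : ℝ) : ℂ) *
        Complex.exp (Complex.I * ((p.2 * (F.core t).L ν z : ℝ) : ℂ)) *
          (((F.core t).kap ν s p.1 : ℝ) : ℂ)))).trans (tsum_congr fun t => ?_)
    rw [winE_c]
    by_cases ht : t ∈ {t | (p.1 : ℝ) / 2 ≤ F.pos ν s t ∧ F.pos ν s t ≤ 2 * p.1}
    · rw [Set.indicator_of_mem ht, Set.indicator_of_mem ht,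
        show (5 / 2 : ℝ) = 11 / 6 + 2 / 3 by norm_num, Real.rpow_add hp]
      simp only [Complex.ofReal_mul, hLdef]
      ring
    · rw [Set.indicator_of_notMem ht, Set.indicator_of_notMem ht, zero_mul]
  simp only [← mul_add, ← Complex.ofReal_add, add_sub_cancel]
  rw [← e1]
  ring

end large

end Pool.Agent.Lib.MP_77dff5_pr
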