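import Pool.Agent.Lib.MP_77dff5_pr.BPrior
import Pool.Agent.Lib.MP_77dff5_pr.SysE
import Pool.Agent.Lib.MP_77dff5_pr.WinE

/-! The local central limit theorem for planar graphs. -/

set_option autoImplicit false

namespace Pool.Agent.Lib.MP_77dff5_pr

open MeasureTheory ProbabilityTheory Filter Topology
open scoped ENNReal NNReal

variable {w x : ℝ}

/-- the conditional variance of the cores is linear with a positive slope -/
theorem bclt_q_pos (h : BCrit w x) (hT : TFacts w) (hC : CT (xw w).toNNReal (tauw w).toNNReal)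
    {k : ℕ} (hk : 1 ≤ k) {f : ℕ → ℝ} (hfk : f = fun d => if d = k then 1 else 0) (hf : EvC f k)
    {mu q c' : ℝ} (hs : Slots (nuB x) sB (zz sB f 0 mu))
    (hQ : WinLLN ((FB x f k 0 .H).pos (nuB x) sB) (fun t => (FB x f k 0 .H).w t)
      (fun t => ((FB x f k 0 .H).core t).Q (nuB x) (zz sB f 0 mu)) q) (hc' : 0 < c')
    (hl : ∀ᶠ y : ℝ in atTop, ENNReal.ofReal (c' * y ^ (-(11 / 6) : ℝ)) ≤
      ∑' t : {t // y ≤ (FB x f k 0 .H).pos (nuB x) sB t ∧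
        (FB x f k 0 .H).pos (nuB x) sB t ≤ y + y ^ (2 / 3 : ℝ)}, ((FB x f k 0 .H).w t : ℝ≥0∞)) :
    0 < q := by
  obtain ⟨-, -, b, C, hb, hbC⟩ := h.win hT hC f k 0
  obtain ⟨R, R', hR, hR', e1, e2, e3, e4⟩ :=
    atoms_tree (x := ENNReal.ofReal x) (by simpa using h.pos) hk
  have a1 : nuB x .C {(Sum.inl R : Om)} ≠ 0 :=
    nrm_ne_zero (h.mass_ne .C).2 (ω := .inl R) hR (Set.mem_singleton _)
  have a2 : nuB x .C {(Sum.inl R' : Om)} ≠ 0 :=
    nrm_ne_zero (h.mass_ne .C).2 (ω := .inl R') hR' (Set.mem_singleton _)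
  have a3 : zz sB f 0 mu (.inl R) ≠ zz sB f 0 mu (.inl R') := by
    intro hz
    apply e4
    simp only [zz, FO, sB, e3, zero_mul, add_zero, sub_left_inj] at hz
    rw [← hfk]
    exact hz
  obtain ⟨v0, hv0, hle⟩ := tcore_le_Q (a := aO) (b := bO) (c := cO) (jD := JB.D) (jV := JB.C)
    hs hf a1 a2 e1 a3
  have hq : v0 * b ≤ q := by
    refine hQ.le_of_le (C := v0 * C) hc' hl fun t => ?_
    have k1 := hle (t : TT).1 0 0
    have k2 := mul_le_mul_of_nonneg_left (hbC t) hv0.le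
    change _ ≤ (Tcore aO bO cO JB.D JB.C f k (t : TT).1 0 0).Q (nuB x) (zz sB f 0 mu)
    linarith
  exact lt_of_lt_of_le (mul_pos hv0 hb) hq

theorem BCrit.clt (h : BCrit w x) (hT : TFacts w) (hC : CT (xw w).toNNReal (tauw w).toNNReal)
    {k : ℕ} (hk : 1 ≤ k) : ∃ mu c σ2 : ℝ, 0 < c ∧ 0 < σ2 ∧
      Lim (slaw (meas (lhsB (wC (ENNReal.ofReal x)) (ENNReal.ofReal x) .G)) sB
        (zz sB (fun d => if d = k then 1 else 0) 0 mu)) c σ2 ∧
      UIB (slaw (meas (lhsB (wC (ENNReal.ofReal x)) (ENNReal.ofReal x) .G)) sB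
        (zz sB (fun d => if d = k then 1 else 0) 0 mu)) := by
  generalize hfk : (fun d => if d = k then 1 else 0 : ℕ → ℝ) = f
  have hf : EvC f k := by
    intro d hd
    rw [← hfk]
    simp [hd.ne']
  have hf0 : EvC (0 : ℕ → ℝ) 0 := fun _ _ => rfl
  obtain ⟨mu, P⟩ := h.prior hT hC hf 0
  obtain ⟨κ, P0⟩ := h.prior hT hC hf0 1
  have hm : (1 : ℝ) ≤ max κ 1 := le_max_right _ _
  have hρ0 : 0 < (2 * max κ 1)⁻¹.toNNReal := Real.toNNReal_pos.2 (by positivity)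
  have hρ1 : (2 * max κ 1)⁻¹.toNNReal ≤ 1 / 2 := by
    rw [Real.toNNReal_le_iff_le_coe]
    push_cast
    rw [one_div]
    exact inv_anti₀ (by norm_num) (by linarith)
  obtain ⟨η₀, -, hly⟩ := h.lyap hT
  obtain ⟨Δ, B, hg, hl, hH⟩ := h.good hT hf 0
  obtain ⟨hw, ⟨r, hr0, hr⟩, -⟩ := h.win hT hC f k 0
  have H : SysOK (nuB x) sB (zz sB f 0 mu) (FB x f k 0) (cB x (2 * max κ 1)⁻¹.toNNReal 0)
      .H .D Δ B := ⟨P.slots.toSlots1, hg, hl, hH, hw, hly f k 0 _ 0 hρ1 zero_le⟩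
  obtain ⟨A, h1⟩ := P.t1
  obtain ⟨c₀, hc₀, h4⟩ := P.t4
  obtain ⟨q, hQ⟩ := h.q_lln hT hC hf 0 mu P.slots
  obtain ⟨c, σ2, hc, hclt⟩ := P.clt
  obtain ⟨β, hβ0, hβ, hlim⟩ := H.lim P.slots
    (h.asym hT hf mu (P0.pmK .R) (P0.m2K .R) (P0.pmK .G)) P.pmJ h1 hc₀ h4 hQ
  have hb := h.beta_pos hT f k 0 hρ0 hβ0 hβ
  have hs : Summable fun t => ((FB x f k 0 .H).w t : ℝ) := by
    rw [h.H_w hT]
    exact hT.mass.summable
  obtain ⟨hσ, c', hc', hlow⟩ := hclt.lower hc hs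
  have hq : 0 < q := bclt_q_pos h hT hC hk hfk.symm hf P.slots hQ hc' (hlow.mono fun _ g => g.1)
  refine ⟨mu, (∑ j, (FB x f k 0 .G).acoef j * β j) * c, σ2 + q, mul_pos hb hc, by linarith, ?_, ?_⟩
  · rw [h.law_fam hT hf 0 mu .G]
    intro θ
    have t1 := (hlim θ).2 .G
    rw [if_neg (by decide), add_zero] at t1
    have t2 := Fam.forward P.slots h1 hc₀ h4 hH hw hQ hclt r hr hr0 θ
    have t3 := t1.add (t2.const_mul ((∑ j, (FB x f k 0 .G).acoef j * β j : ℝ) : ℂ))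
    rw [zero_add, ← Complex.ofReal_mul, ← mul_assoc] at t3
    refine t3.congr fun p => ?_
    ring
  · rw [h.law_fam hT hf 0 mu .G]
    exact P.uiK .G

end Pool.Agent.Lib.MP_77dff5_pr
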