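import Pool.Agent.Lib.MP_77dff5_pr.BSys

/-! Model B: unrooting. -/

set_option autoImplicit false

namespace Pool.Agent.Lib.MP_77dff5_pr

open MeasureTheory ProbabilityTheory Filter Topology
open scoped ENNReal NNReal

variable {w x : ℝ} {f : ℕ → ℝ} {k0 : ℕ}

theorem bdom_mset (n : ℕ) : MeasurableSet {p : ℕ × ℝ | p.1 = n} :=
  measurable_fst (measurableSet_singleton n)

theorem bdom_norm_ch (μ : Measure (ℕ × ℝ)) (n : ℕ) (θ : ℝ) : ‖ch μ n θ‖ ≤ pm μ n := by
  refine (norm_integral_le_lintegral_norm _).trans (le_of_eq ?_)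
  simp only [Complex.norm_exp_I_mul_ofReal, ENNReal.ofReal_one]
  rw [setLIntegral_one]
  rfl

theorem bdom_ch_add (μ ν : Measure (ℕ × ℝ)) [IsFiniteMeasure μ] [IsFiniteMeasure ν] (n : ℕ)
    (θ : ℝ) : ch (μ + ν) n θ = ch μ n θ + ch ν n θ := by
  have hi : ∀ (ρ : Measure (ℕ × ℝ)) [IsFiniteMeasure ρ],
      Integrable (fun p : ℕ × ℝ => Complex.exp (Complex.I * ((θ * p.2 : ℝ) : ℂ))) ρ := fun ρ _ =>
    Integrable.of_bound (Continuous.aestronglyMeasurable (by fun_prop)) 1
      (Eventually.of_forall fun p => (Complex.norm_exp_I_mul_ofReal _).le)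
  unfold ch
  rw [Measure.restrict_add, integral_add_measure (hi _) (hi _)]

theorem bdom_ch_smul (c : ℝ≥0∞) (μ : Measure (ℕ × ℝ)) (n : ℕ) (θ : ℝ) :
    ch (c • μ) n θ = (c.toReal : ℂ) * ch μ n θ := by
  unfold ch
  rw [Measure.restrict_smul, integral_smul_measure, Complex.real_smul]

theorem bdom_ch_congr {μ ν : Measure (ℕ × ℝ)} {n : ℕ}
    (h : ∀ ψ : ℝ → ℝ≥0∞, Measurable ψ →
      ∫⁻ p in {p | p.1 = n}, ψ p.2 ∂μ = ∫⁻ p in {p | p.1 = n}, ψ p.2 ∂ν) (θ : ℝ) :
    ch μ n θ = ch ν n θ := by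
  have e : (μ.restrict {p | p.1 = n}).map Prod.snd = (ν.restrict {p | p.1 = n}).map Prod.snd := by
    ext A hA
    rw [← lintegral_indicator_one hA, ← lintegral_indicator_one hA,
      lintegral_map (measurable_one.indicator hA) measurable_snd,
      lintegral_map (measurable_one.indicator hA) measurable_snd]
    exact h _ (measurable_one.indicator hA)
  have g : ∀ ρ : Measure (ℕ × ℝ), ch ρ n θ = ∫ u, Complex.exp (Complex.I * ((θ * u : ℝ) : ℂ))
      ∂(ρ.restrict {p | p.1 = n}).map Prod.snd := fun ρ => by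
    rw [integral_map measurable_snd.aemeasurable (Continuous.aestronglyMeasurable (by fun_prop))]
    rfl
  rw [g, g, e]

theorem bdom_asym {lam mu : Measure (ℕ × ℝ)} (C : ℝ)
    (h : ∀ᶠ n : ℕ in atTop, ∀ t : ℝ, ‖ch lam n t - ch mu n t‖ ≤
      C * (|t| + 1 / √n) * (n : ℝ) ^ (-(5 / 2) : ℝ)) : Asym lam mu := by
  intro θ
  have h0 : Tendsto (fun p : ℕ × ℝ => |C| * (|θ| + 2) / √(p.1 : ℝ)) (FF θ) (𝓝 0) :=
    tendsto_const_nhds.div_atTop
      ((Real.tendsto_sqrt_atTop.comp tendsto_natCast_atTop_atTop).comp (FF_fst θ))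
  refine squeeze_zero_norm' ?_ h0
  filter_upwards [(FF_fst θ).eventually h, FF_bound θ,
    (FF_fst θ).eventually (eventually_ge_atTop 1)] with p hp hb h1
  have h3 : (0 : ℝ) < p.1 := by exact_mod_cast h1
  have h4 : 0 < √(p.1 : ℝ) := Real.sqrt_pos.2 h3
  have h5 : (p.1 : ℝ) ^ (5 / 2 : ℝ) * (p.1 : ℝ) ^ (-(5 / 2) : ℝ) = 1 := by
    rw [← Real.rpow_add h3]
    simp
  have h6 : (0 : ℝ) < (p.1 : ℝ) ^ (5 / 2 : ℝ) := Real.rpow_pos_of_pos h3 _
  rw [norm_mul, Complex.norm_real, Real.norm_of_nonneg h6.le]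
  calc _ ≤ (p.1 : ℝ) ^ (5 / 2 : ℝ) * (C * (|p.2| + 1 / √p.1) * (p.1 : ℝ) ^ (-(5 / 2) : ℝ)) :=
        mul_le_mul_of_nonneg_left (hp p.2) h6.le
    _ = C * (|p.2| + 1 / √p.1) * ((p.1 : ℝ) ^ (5 / 2 : ℝ) * (p.1 : ℝ) ^ (-(5 / 2) : ℝ)) := by ring
    _ = C * (|p.2| + 1 / √p.1) := by rw [h5, mul_one]
    _ ≤ |C| * (|p.2| + 1 / √p.1) := by gcongr; exact le_abs_self C
    _ ≤ |C| * ((|θ| + 1) / √p.1 + 1 / √p.1) := by gcongr
    _ = |C| * (|θ| + 2) / √(p.1 : ℝ) := by ring

section generic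

variable {Ω : Type} [Countable Ω] [MeasurableSpace Ω] [DiscreteMeasurableSpace Ω]

theorem bdom_lint (v : Ω → ℝ≥0∞) (s : Ω → ℕ) (z : Ω → ℝ) (n : ℕ) {ψ : ℝ → ℝ≥0∞}
    (hψ : Measurable ψ) : ∫⁻ p in {p | p.1 = n}, ψ p.2 ∂slaw (meas v) s z =
      ∑' ω, v ω * (if s ω = n then ψ (z ω) else 0) := by
  have hm : Measurable fun p : ℕ × ℝ => ψ p.2 := hψ.comp measurable_snd
  rw [← lintegral_indicator (bdom_mset n), slaw,
    lintegral_map (hm.indicator (bdom_mset n)) (measurable_of_countable _), lintegral_meas]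
  refine tsum_congr fun ω => ?_
  simp [Set.indicator]

theorem bdom_pm (v : Ω → ℝ≥0∞) (s : Ω → ℕ) (z : Ω → ℝ) (n : ℕ) :
    pm (slaw (meas v) s z) n = (∑' ω, v ω * (if s ω = n then 1 else 0)).toReal := by
  rw [← bdom_lint v s z n (ψ := fun _ => 1) measurable_const, setLIntegral_one]
  rfl

omit [Countable Ω] in
theorem bdom_meas_smul (c : ℝ≥0∞) (v : Ω → ℝ≥0∞) : c • meas v = meas fun ω => c * v ω := by
  ext A hA
  rw [Measure.smul_apply, ← lintegral_indicator_one hA, ← lintegral_indicator_one hA,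
    lintegral_meas, lintegral_meas, smul_eq_mul, ← ENNReal.tsum_mul_left]
  simp only [mul_assoc]

omit [Countable Ω] in
theorem bdom_fin {v : Ω → ℝ≥0∞} (hv : ∑' ω, v ω ≠ ⊤) : IsFiniteMeasure (meas v) :=
  ⟨by rw [famA_meas_univ]; exact hv.lt_top⟩

omit [Countable Ω] [MeasurableSpace Ω] [DiscreteMeasurableSpace Ω] in
theorem bdom_loc_ne {v : Ω → ℝ≥0∞} (hv : ∑' ω, v ω ≠ ⊤) (s : Ω → ℕ) (n : ℕ) :
    ∑' ω, v ω * (if s ω = n then 1 else 0) ≠ ⊤ := by
  refine ne_top_of_le_ne_top hv (ENNReal.tsum_le_tsum fun ω => ?_)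
  split_ifs <;> simp

theorem bdom_ch_diff {v v' : Ω → ℝ≥0∞} (hv : ∑' ω, v ω ≠ ⊤) (hv' : ∑' ω, v' ω ≠ ⊤) (s : Ω → ℕ)
    (z : Ω → ℝ) (n : ℕ) (θ : ℝ) :
    ‖ch (slaw (meas v) s z) n θ - ch (slaw (meas v') s z) n θ‖ ≤
      pm (slaw (meas (v - v')) s z) n + pm (slaw (meas (v' - v)) s z) n := by
  have key : ∀ a b : Ω → ℝ≥0∞, ∑' ω, a ω ≠ ⊤ → ch (slaw (meas a) s z) n θ =
      ch (slaw (meas (a ⊓ b)) s z) n θ + ch (slaw (meas (a - b)) s z) n θ := by
    intro a b ha
    have h1 := bdom_fin (v := a ⊓ b)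
      (ne_top_of_le_ne_top ha (ENNReal.tsum_le_tsum fun ω => inf_le_left))
    have h2 := bdom_fin (v := a - b)
      (ne_top_of_le_ne_top ha (ENNReal.tsum_le_tsum fun ω => tsub_le_self))
    have e : a = a ⊓ b + (a - b) := by
      funext ω
      simp only [Pi.add_apply, Pi.inf_apply, Pi.sub_apply]
      rcases le_total (a ω) (b ω) with h | h
      · rw [inf_eq_left.2 h, tsub_eq_zero_of_le h, add_zero]
      · rw [inf_eq_right.2 h, add_tsub_cancel_of_le h]
    have h3 : IsFiniteMeasure (slaw (meas (a ⊓ b)) s z) := by unfold slaw; infer_instance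
    have h4 : IsFiniteMeasure (slaw (meas (a - b)) s z) := by unfold slaw; infer_instance
    rw [← bdom_ch_add]
    congr 1
    conv_lhs => rw [e, meas_add]
    exact Measure.map_add _ _ (measurable_of_countable _)
  rw [key v v' hv, key v' v hv', inf_comm v' v, add_sub_add_left_eq_sub]
  exact (norm_sub_le _ _).trans (add_le_add (bdom_norm_ch _ _ _) (bdom_norm_ch _ _ _))

theorem bdom_ch_shift (μ : Measure Ω) [IsFiniteMeasure μ] (s : Ω → ℕ) {z z' : Ω → ℝ} {B : ℝ}
    (h : ∀ ω, |z ω - z' ω| ≤ B) (n : ℕ) (θ : ℝ) :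
    ‖ch (slaw μ s z) n θ - ch (slaw μ s z') n θ‖ ≤ |θ| * B * pm (slaw μ s z') n := by
  have g : ∀ y : Ω → ℝ, ch (slaw μ s y) n θ =
      ∫ ω in {ω | s ω = n}, Complex.exp (Complex.I * ((θ * y ω : ℝ) : ℂ)) ∂μ := fun y => by
    unfold ch slaw
    rw [setIntegral_map (bdom_mset n) (Continuous.aestronglyMeasurable (by fun_prop))
      (measurable_of_countable _).aemeasurable]
    rfl
  have hi : ∀ y : Ω → ℝ, Integrable (fun ω => Complex.exp (Complex.I * ((θ * y ω : ℝ) : ℂ)))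
      (μ.restrict {ω | s ω = n}) := fun y =>
    Integrable.of_bound (measurable_of_countable _).aestronglyMeasurable 1
      (Eventually.of_forall fun p => (Complex.norm_exp_I_mul_ofReal _).le)
  have hp : pm (slaw μ s z') n = μ.real {ω | s ω = n} := by
    unfold pm slaw
    rw [map_measureReal_apply (measurable_of_countable _) (bdom_mset n)]
    rfl
  rw [g, g, ← integral_sub (hi z) (hi z'), hp]
  refine norm_setIntegral_le_of_norm_le_const (measure_lt_top _ _) fun ω _ => ?_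
  have e : Complex.exp (Complex.I * ((θ * z ω : ℝ) : ℂ)) -
      Complex.exp (Complex.I * ((θ * z' ω : ℝ) : ℂ)) =
      Complex.exp (Complex.I * ((θ * z' ω : ℝ) : ℂ)) *
        (Complex.exp (Complex.I * ((θ * (z ω - z' ω) : ℝ) : ℂ)) - 1) := by
    rw [mul_sub, ← Complex.exp_add, mul_one]
    congr 2
    push_cast
    ring
  rw [e, norm_mul, Complex.norm_exp_I_mul_ofReal, one_mul]
  refine Real.norm_exp_I_mul_ofReal_sub_one_le.trans ?_
  rw [Real.norm_eq_abs, abs_mul]
  exact mul_le_mul_of_nonneg_left (h ω) (abs_nonneg θ)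

end generic

theorem dom_self (μ : Measure (ℕ × ℝ)) : Dom μ μ := by
  refine ⟨0, fun ε hε => Eventually.of_forall fun n ψ ψ' _ _ h => ?_⟩
  calc _ ≤ ∫⁻ p in {p | p.1 = n}, ψ' p.2 ∂μ :=
        lintegral_mono fun p => by simpa using h p.2 0 (by simp)
    _ ≤ _ := le_mul_of_one_le_left (zero_le) (ENNReal.one_le_ofReal.2 (by linarith))

theorem asym_self (μ : Measure (ℕ × ℝ)) : Asym μ μ := by
  intro θ
  simp only [sub_self, mul_zero]
  exact tendsto_const_nhds

/-- connected graphs with a marked vertex -/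
noncomputable def bdom_wV (X : ℝ≥0∞) : Om → ℝ≥0∞ := onU fun ν => wU X ν * (ν.2.1 : ℝ≥0∞)

theorem bdom_unroot (X : ℝ≥0∞) (f : ℕ → ℝ) (lam mu : ℝ) {n : ℕ} (hn : 2 ≤ n) (ψ : ℝ → ℝ≥0∞) :
    ∑' ω, onR (wC X) ω * (if sB ω = n then ψ (zz sB f lam mu ω + f (cO ω)) else 0) =
      ∑' ω, bdom_wV X ω * (if sB ω = n then ψ (zz sB f lam mu ω) else 0) := by
  have h := unroot_C X f fun q => if q.2.1 = n then ψ (q.2.2 + lam * q.1 - mu * q.2.1) else 0
  rw [if_neg (show ¬(1 = n) by omega), mul_zero, zero_add] at h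
  rw [tsum_onR, bdom_wV, tsum_onU]
  refine Eq.trans ?_ (h.trans ?_)
  · refine tsum_congr fun R => ?_
    have e : zz sB f lam mu (.inl R) + f (cO (.inl R)) =
        rF f R + f (rc R) + lam * R.1 - mu * ((R.2.1 + 1 : ℕ) : ℝ) := by
      simp only [zz, FO, ne, sB, cO]
      ring
    rw [e]
    rfl
  · rfl

theorem bdom_wV_fin (h : BCrit w x) : ∑' ω, bdom_wV (ENNReal.ofReal x) ω ≠ ⊤ := by
  have h1 := unroot_C (ENNReal.ofReal x) 0 fun _ => 1
  have h2 := tsum_onU (fun ν => wU (ENNReal.ofReal x) ν * (ν.2.1 : ℝ≥0∞)) fun _ => 1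
  simp only [mul_one] at h1 h2
  rw [bdom_wV, h2]
  refine ne_top_of_le_ne_top (b := ENNReal.ofReal (xw w)) ENNReal.ofReal_ne_top ?_
  rw [← h.massC, h1]
  exact le_add_self

theorem bdom_wR_fin (h : BCrit w x) :
    ∑' ω, lhsB (wC (ENNReal.ofReal x)) (ENNReal.ofReal x) .R ω ≠ ⊤ := by
  refine ne_top_of_le_ne_top (ENNReal.mul_ne_top (a := 6) (by simp) (bdom_wV_fin h)) ?_
  rw [← ENNReal.tsum_mul_left]
  refine ENNReal.tsum_le_tsum fun ω => ?_
  rcases ω with R | D | ν
  · simp [lhsB, onU]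
  · simp [lhsB, onU]
  · simp only [lhsB, onU, bdom_wV]
    by_cases h0 : wU (ENNReal.ofReal x) ν = 0
    · simp [h0]
    · have h3 := (wU_supp _ h0).2.2
      rw [mul_left_comm]
      gcongr
      exact_mod_cast (show 2 * ν.1 ≤ 6 * ν.2.1 by omega)

theorem bdom_slaw_nu (x : ℝ) (j : JB) (z : Om → ℝ) :
    slaw (nuB x j) sB z = (∑' ω, wB x j ω)⁻¹ • slaw (meas (wB x j)) sB z := by
  unfold nuB nrm slaw
  rw [Measure.map_smul]

theorem bdom_src_C (h : BCrit w x) (hT : TFacts w) (hf : EvC f k0) (lam mu : ℝ) (ρ η : ℝ≥0) :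
    src (FB x f k0 lam) (cB x ρ η) (nuB x) sB (zz sB f lam mu) .C =
      (∑' ω, wB x .C ω)⁻¹ • slaw (meas fun ω => (ρ : ℝ≥0∞) *
        lhsB (wC (ENNReal.ofReal x)) (ENNReal.ofReal x) .R ω) sB (zz sB f lam mu) := by
  unfold src
  rw [Finset.sum_eq_single KB.R, ← h.law_fam hT hf, ← bdom_meas_smul]
  · unfold slaw
    rw [Measure.map_smul, smul_smul, ENNReal.smul_def]
    congr 1
    simp only [cB, incB]
    rw [if_neg (by simp), if_pos (by simp), ENNReal.coe_mul,
      ENNReal.coe_toNNReal (ENNReal.inv_ne_top.2 (h.mass_ne .C).1), mul_comm]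
  · intro k _ hk
    have : cB x ρ η .C k = 0 := by
      cases k <;> simp [cB, incB] at hk ⊢
    rw [this, zero_smul]
  · simp

theorem bdom_src_G (h : BCrit w x) (hT : TFacts w) (hf : EvC f k0) (lam mu : ℝ) (ρ η : ℝ≥0) :
    src (FB x f k0 lam) (cB x ρ η) (nuB x) sB (zz sB f lam mu) .G =
      (∑' ω, wB x .G ω)⁻¹ • slaw (meas fun ω => (η : ℝ≥0∞) *
        lhsB (wC (ENNReal.ofReal x)) (ENNReal.ofReal x) .G ω) sB (zz sB f lam mu) := by
  unfold src
  rw [Finset.sum_eq_single KB.G, ← h.law_fam hT hf, ← bdom_meas_smul]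
  · unfold slaw
    rw [Measure.map_smul, smul_smul, ENNReal.smul_def]
    congr 1
    simp only [cB, incB]
    rw [if_neg (by simp), if_neg (by simp), if_pos (by simp), ENNReal.coe_mul,
      ENNReal.coe_toNNReal (ENNReal.inv_ne_top.2 (h.mass_ne .G).1), mul_comm]
  · intro k _ hk
    have : cB x ρ η .G k = 0 := by
      cases k <;> simp [cB, incB] at hk ⊢
    rw [this, zero_smul]
  · simp

theorem bdom_dom_smul {lam mu : Measure (ℕ × ℝ)} (h : Dom lam mu) (c : ℝ≥0∞) :
    Dom (c • lam) (c • mu) := by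
  obtain ⟨B, hB⟩ := h
  refine ⟨B, fun ε hε => (hB ε hε).mono fun n hn ψ ψ' h1 h2 h3 => ?_⟩
  rw [Measure.restrict_smul, Measure.restrict_smul, lintegral_smul_measure,
    lintegral_smul_measure, smul_eq_mul, smul_eq_mul, mul_left_comm]
  gcongr
  exact hn ψ ψ' h1 h2 h3

theorem bdom_asym_smul {lam mu : Measure (ℕ × ℝ)} (h : Asym lam mu) (c : ℝ≥0∞) :
    Asym (c • lam) (c • mu) := by
  intro θ
  have := (h θ).const_mul (c.toReal : ℂ)
  rw [mul_zero] at this
  refine this.congr fun p => ?_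
  rw [bdom_ch_smul, bdom_ch_smul]
  ring

theorem BCrit.dom (h : BCrit w x) (hT : TFacts w) (hf : EvC f k0) (lam mu : ℝ) {η : ℝ≥0}
    (hη : 0 < η) (j : JB) : Dom (slaw (nuB x j) sB (zz sB f lam mu))
      (src (FB x f k0 lam) (cB x (1 / 2) η) (nuB x) sB (zz sB f lam mu) j) := by
  by_cases hC : j = .C
  · subst hC
    rw [bdom_slaw_nu, bdom_src_C h hT hf]
    refine bdom_dom_smul ?_ _
    obtain ⟨B, hB⟩ := hf.bdd
    refine ⟨B, fun ε hε => ?_⟩
    filter_upwards [eventually_ge_atTop 2,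
      (tendsto_natCast_atTop_atTop (R := ℝ)).eventually_ge_atTop (1 / ε + 1)]
      with n hn hn' ψ ψ' h1 h2 h3
    rw [bdom_lint _ _ _ _ h1, bdom_lint _ _ _ _ h2, ← ENNReal.tsum_mul_left]
    calc _ ≤ ∑' ω, onR (wC (ENNReal.ofReal x)) ω *
          (if sB ω = n then ψ' (zz sB f lam mu ω + f (cO ω)) else 0) := by
          refine ENNReal.tsum_le_tsum fun ω => ?_
          refine mul_le_mul' le_rfl ?_
          split_ifs
          · have := h3 (zz sB f lam mu ω + f (cO ω)) (-f (cO ω)) (by rw [abs_neg]; exact hB _)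
            rwa [add_neg_cancel_right] at this
          · exact le_rfl
      _ = _ := bdom_unroot _ f lam mu hn ψ'
      _ ≤ _ := by
          refine ENNReal.tsum_le_tsum fun ω => ?_
          rcases ω with R | D | ν
          · simp [bdom_wV, onU]
          · simp [bdom_wV, onU]
          · by_cases hs : sB (.inr (.inr ν)) = n
            · rw [← mul_assoc]
              refine mul_le_mul' ?_ le_rfl
              simp only [lhsB, onU, bdom_wV]
              by_cases h0 : wU (ENNReal.ofReal x) ν = 0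
              · simp [h0]
              · have h4 := (wU_supp _ h0).2.1
                have h5 : ν.2.1 = n := hs
                rw [h5] at h4 ⊢
                have e : ((1 / 2 : ℝ≥0) : ℝ≥0∞) * ((2 * ν.1 : ℕ) : ℝ≥0∞) =
                    ENNReal.ofReal ν.1 := by
                  rw [← ENNReal.coe_natCast, ← ENNReal.coe_mul, ENNReal.ofReal_natCast,
                    ← ENNReal.coe_natCast]
                  congr 1
                  push_cast
                  field_simp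
                rw [mul_left_comm ((1 / 2 : ℝ≥0) : ℝ≥0∞), e, mul_left_comm,
                  ← ENNReal.ofReal_mul (by linarith), ← ENNReal.ofReal_natCast]
                refine mul_le_mul' le_rfl (ENNReal.ofReal_le_ofReal ?_)
                have h6 : (n : ℝ) ≤ ν.1 + 1 := by exact_mod_cast h4
                have h7 : 1 / ε ≤ ν.1 := by linarith
                rw [div_le_iff₀ hε] at h7
                linarith
            · simp [hs]
  by_cases hG : j = .G
  · subst hG
    rw [bdom_slaw_nu, bdom_src_G h hT hf]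
    refine bdom_dom_smul ?_ _
    refine ⟨0, fun ε hε => ?_⟩
    filter_upwards [(tendsto_natCast_atTop_atTop (R := ℝ)).eventually_ge_atTop (1 / η)]
      with n hn ψ ψ' h1 h2 h3
    rw [bdom_lint _ _ _ _ h1, bdom_lint _ _ _ _ h2, ← ENNReal.tsum_mul_left]
    refine ENNReal.tsum_le_tsum fun ω => ?_
    rcases ω with R | D | ν
    · simp [wB, wgB, onU]
    · simp [wB, wgB, onU]
    · by_cases hs : sB (.inr (.inr ν)) = n
      · rw [← mul_assoc, if_pos hs, if_pos hs]
        refine mul_le_mul' ?_ (by simpa using h3 _ 0 (by simp))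
        simp only [lhsB, onU, wB, wgB]
        have h5 : ν.2.1 = n := hs
        have hη' : (0 : ℝ) < η := hη
        rw [div_le_iff₀ hη'] at hn
        have h6 : (1 : ℝ≥0∞) ≤ (η : ℝ≥0∞) * (n : ℝ≥0∞) := by
          rw [← ENNReal.coe_natCast, ← ENNReal.coe_mul, ENNReal.one_le_coe_iff, mul_comm]
          exact_mod_cast hn
        rw [h5, mul_left_comm (η : ℝ≥0∞)]
        refine le_trans ?_ (le_mul_of_one_le_left (zero_le)
          (ENNReal.one_le_ofReal.2 (by linarith)))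
        exact le_mul_of_one_le_right (zero_le) h6
      · simp [hs]
  · rw [← h.law hT hf lam mu _ _ j hC hG]
    exact dom_self _

theorem bdom_real {κ : ℝ} {n m : ℕ} (h2 : 2 ≤ n) (h : n ≤ m + 1) :
    |(n : ℝ) - (2 * max κ 1)⁻¹ * (2 * m)| ≤
      2 * m * (2 / √n * (1 + psi 0 ((m - κ * n) / √n))) := by
  have hn : (2 : ℝ) ≤ n := by exact_mod_cast h2
  have hm : (n : ℝ) ≤ m + 1 := by exact_mod_cast h
  have hk : 1 ≤ max κ 1 := le_max_right _ _
  have hs : 1 ≤ √(n : ℝ) := Real.one_le_sqrt.2 (by linarith)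
  have hss : √(n : ℝ) * √(n : ℝ) = n := Real.mul_self_sqrt (by linarith)
  have e1 : psi 0 ((m - κ * n) / √n) = ((m - κ * n) / √n) ^ 2 := by
    rw [psi, sub_zero, max_eq_left (abs_nonneg _), sq_abs]
  have a1 : |(n : ℝ) - (2 * max κ 1)⁻¹ * (2 * m)| ≤ |max κ 1 * n - m| := by
    have : (n : ℝ) - (2 * max κ 1)⁻¹ * (2 * m) = (max κ 1 * n - m) / max κ 1 := by
      field_simp
    rw [this, abs_div, abs_of_pos (by linarith : 0 < max κ 1)]
    exact div_le_self (abs_nonneg _) hk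
  have a2 : |max κ 1 * n - m| ≤ |m - κ * n| + 1 := by
    rcases le_total κ 1 with hκ | hκ
    · rw [max_eq_right hκ, abs_le]
      have h3 := le_abs_self ((m : ℝ) - κ * n)
      have h4 := abs_nonneg ((m : ℝ) - κ * n)
      constructor <;> nlinarith
    · rw [max_eq_left hκ, abs_sub_comm]
      linarith
  rw [e1]
  set u := (m - κ * n) / √n with hu
  have e2 : (m : ℝ) - κ * n = u * √n := by
    rw [hu]
    field_simp
  have a3 : |(m : ℝ) - κ * n| ≤ √n * (1 + u ^ 2) / 2 := by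
    rw [e2, abs_mul, abs_of_pos (by linarith : 0 < √(n : ℝ))]
    have : |u| ≤ (1 + u ^ 2) / 2 := by nlinarith [sq_nonneg (|u| - 1), sq_abs u]
    nlinarith
  have e3 : 2 / √(n : ℝ) = 2 * √n / n := by
    field_simp
    nlinarith
  have a4 : 2 * √(n : ℝ) * (1 + u ^ 2) ≤ 2 * m * (2 / √n * (1 + u ^ 2)) := by
    rw [e3, show 2 * (m : ℝ) * (2 * √n / n * (1 + u ^ 2)) =
      2 * m / n * (2 * √n * (1 + u ^ 2)) by ring]
    refine le_mul_of_one_le_left (by positivity) ?_
    rw [le_div_iff₀ (by linarith)]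
    linarith
  nlinarith [sq_nonneg u]

/-- unrooting, given the law of large numbers for the number of edges -/
theorem BCrit.asym (h : BCrit w x) (hT : TFacts w) (hf : EvC f k0) (mu : ℝ) {κ : ℝ}
    (h1 : PmB ((FB x 0 0 1 .R).law (nuB x) sB (zz sB 0 1 κ)))
    (h2 : M2B ((FB x 0 0 1 .R).law (nuB x) sB (zz sB 0 1 κ)))
    (h3 : PmB ((FB x 0 0 1 .G).law (nuB x) sB (zz sB 0 1 κ))) (j : JB) :
    Asym (slaw (nuB x j) sB (zz sB f 0 mu))
      (src (FB x f k0 0) (cB x (2 * max κ 1)⁻¹.toNNReal 0) (nuB x) sB (zz sB f 0 mu) j) := by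
  have hf0 : EvC (0 : ℕ → ℝ) 0 := fun _ _ => rfl
  rw [← h.law_fam hT hf0] at h1 h2 h3
  by_cases hC : j = .C
  · subst hC
    rw [bdom_slaw_nu, bdom_src_C h hT hf]
    refine bdom_asym_smul ?_ _
    obtain ⟨B, hB⟩ := hf.bdd
    obtain ⟨K1, hK1⟩ := h1
    obtain ⟨K2, hK2⟩ := h2
    have hB0 : 0 ≤ B := (abs_nonneg _).trans (hB 0)
    set X := ENNReal.ofReal x with hX
    set ρ : ℝ≥0 := (2 * max κ 1)⁻¹.toNNReal with hρ
    have fR := bdom_wR_fin h
    have fV := bdom_wV_fin h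
    have fC : IsFiniteMeasure (meas (wB x .C)) := bdom_fin (h.mass_ne .C).2
    have fρ : ∑' ω, (ρ : ℝ≥0∞) * lhsB (wC X) X .R ω ≠ ⊤ := by
      rw [ENNReal.tsum_mul_left]
      exact ENNReal.mul_ne_top ENNReal.coe_ne_top fR
    refine bdom_asym ((B + 4) * (|K1| + |K2|)) ?_
    filter_upwards [eventually_ge_atTop 2] with n hn t
    have hn0 : (0 : ℝ) < n := by exact_mod_cast (show 0 < n by omega)
    have hs0 : 0 < √(n : ℝ) := Real.sqrt_pos.2 hn0
    have hr : (0 : ℝ) < (n : ℝ) ^ (-(5 / 2) : ℝ) := Real.rpow_pos_of_pos hn0 _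
    set r := (n : ℝ) ^ (-(5 / 2) : ℝ) with hrdef
    have p1 := hK1 n (by omega)
    have p2 := hK2 n (by omega)
    rw [bdom_pm] at p1
    rw [m2, bdom_lint _ _ _ _ (ψ := fun u => ENNReal.ofReal (psi 0 (u / √n)))
      (by unfold psi; fun_prop)] at p2
    have p1' : ∑' ω, lhsB (wC X) X .R ω * (if sB ω = n then 1 else 0) ≤
        ENNReal.ofReal (|K1| * r) := by
      rw [ENNReal.le_ofReal_iff_toReal_le (bdom_loc_ne fR sB n) (by positivity)]
      exact p1.trans (by gcongr; exact le_abs_self K1)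
    have p2' := p2.trans (ENNReal.ofReal_le_ofReal
      (show K2 * r ≤ |K2| * r by gcongr; exact le_abs_self K2))
    have s1 := bdom_ch_shift (meas (wB x .C)) sB (z := zz sB f 0 mu)
      (z' := fun ω => zz sB f 0 mu ω + f (cO ω)) (B := B)
      (fun ω => by rw [sub_add_cancel_left, abs_neg]; exact hB _) n t
    have s2 : ch (slaw (meas (wB x .C)) sB fun ω => zz sB f 0 mu ω + f (cO ω)) n t =
        ch (slaw (meas (bdom_wV X)) sB (zz sB f 0 mu)) n t :=
      bdom_ch_congr (fun ψ hψ => by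
        rw [bdom_lint _ _ _ _ hψ, bdom_lint _ _ _ _ hψ]
        exact bdom_unroot X f 0 mu hn ψ) t
    have s3 : pm (slaw (meas (wB x .C)) sB fun ω => zz sB f 0 mu ω + f (cO ω)) n ≤ |K1| * r := by
      rw [bdom_pm]
      refine ENNReal.toReal_le_of_le_ofReal (by positivity) (le_trans ?_ p1')
      refine le_of_eq_of_le (bdom_unroot X f 0 mu hn fun _ => 1) ?_
      refine ENNReal.tsum_le_tsum fun ω => mul_le_mul' ?_ le_rfl
      rcases ω with R | D | ν
      · simp [bdom_wV, onU]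
      · simp [bdom_wV, onU]
      · simp only [lhsB, onU, bdom_wV]
        by_cases h0 : wU X ν = 0
        · simp [h0]
        · have h4 := wU_supp _ h0
          gcongr
          omega
    have s4 := bdom_ch_diff fV fρ sB (zz sB f 0 mu) n t
    have s5 : ∀ v : Om → ℝ≥0∞, (∀ R, v (.inl R) = 0) → (∀ D, v (.inr (.inl D)) = 0) →
        (∀ ν : UG, v (.inr (.inr ν)) ≤ wU X ν *
          ENNReal.ofReal |(ν.2.1 : ℝ) - (2 * max κ 1)⁻¹ * (2 * ν.1)|) →
        pm (slaw (meas v) sB (zz sB f 0 mu)) n ≤ 2 / √n * (|K1| * r + |K2| * r) := by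
      intro v v1 v2 v3
      rw [bdom_pm]
      refine ENNReal.toReal_le_of_le_ofReal (by positivity) ?_
      rw [ENNReal.ofReal_mul (by positivity), ENNReal.ofReal_add (by positivity) (by positivity)]
      refine le_trans ?_ (mul_le_mul' le_rfl (add_le_add p1' p2'))
      rw [← ENNReal.tsum_add, ← ENNReal.tsum_mul_left]
      refine ENNReal.tsum_le_tsum fun ω => ?_
      rcases ω with R | D | ν
      · simp [v1]
      · simp [v2]
      · by_cases hs : sB (.inr (.inr ν)) = n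
        · rw [if_pos hs, if_pos hs, mul_one, ← mul_add]
          refine (v3 ν).trans ?_
          by_cases h0 : wU X ν = 0
          · simp [h0]
          · have h4 := wU_supp _ h0
            have h5 : ν.2.1 = n := hs
            have e : zz sB 0 1 κ (.inr (.inr ν)) = ν.1 - κ * n := by
              simp [zz, FO, ne, hs]
            have hpsi : 0 ≤ psi 0 (((ν.1 : ℝ) - κ * n) / √n) := sq_nonneg _
            rw [e, h5]
            simp only [lhsB, onU]
            rw [mul_assoc (wU X ν), mul_left_comm _ (wU X ν)]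
            refine mul_le_mul' le_rfl ?_
            rw [mul_left_comm (ENNReal.ofReal (2 / √n)), ← ENNReal.ofReal_one, ← ENNReal.ofReal_add zero_le_one hpsi,
              ← ENNReal.ofReal_mul (by positivity), ← ENNReal.ofReal_natCast,
              ← ENNReal.ofReal_mul (by positivity)]
            refine ENNReal.ofReal_le_ofReal ?_
            push_cast
            exact bdom_real hn (h5 ▸ h4.2.1)
        · simp [hs]
    have eρ : ∀ ν : UG, (ρ : ℝ≥0∞) * lhsB (wC X) X .R (.inr (.inr ν)) =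
        wU X ν * ENNReal.ofReal ((2 * max κ 1)⁻¹ * (2 * ν.1)) := fun ν => by
      simp only [lhsB, onU]
      have hk : 0 < max κ 1 := lt_of_lt_of_le one_pos (le_max_right _ _)
      rw [mul_left_comm, ENNReal.ofReal_mul (by positivity), ← ENNReal.ofReal_natCast]
      push_cast
      rfl
    have eV : ∀ ν : UG, bdom_wV X (.inr (.inr ν)) = wU X ν * ENNReal.ofReal ν.2.1 := fun ν => by
      rw [ENNReal.ofReal_natCast]
      rfl
    have sub_le : ∀ (c : ℝ≥0∞) (a b : ℝ), c * ENNReal.ofReal a - c * ENNReal.ofReal b ≤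
        c * ENNReal.ofReal |a - b| := fun c a b => by
      rw [tsub_le_iff_right, ← mul_add]
      refine mul_le_mul' le_rfl (le_trans (ENNReal.ofReal_le_ofReal ?_) ENNReal.ofReal_add_le)
      linarith [le_abs_self (a - b)]
    have s6 := s5 (bdom_wV X - fun ω => (ρ : ℝ≥0∞) * lhsB (wC X) X .R ω)
      (fun R => by simp [bdom_wV, onU]) (fun D => by simp [bdom_wV, onU])
      (fun ν => by rw [Pi.sub_apply, eρ, eV]; exact sub_le _ _ _)
    have s7 := s5 ((fun ω => (ρ : ℝ≥0∞) * lhsB (wC X) X .R ω) - bdom_wV X)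
      (fun R => by simp [lhsB, onU]) (fun D => by simp [lhsB, onU])
      (fun ν => by rw [Pi.sub_apply, eρ, eV, abs_sub_comm]; exact sub_le _ _ _)
    rw [s2] at s1
    refine (norm_sub_le_norm_sub_add_norm_sub _ _ _).trans ((add_le_add s1 s4).trans ?_)
    have s8 : |t| * B * pm (slaw (meas (wB x .C)) sB fun ω => zz sB f 0 mu ω + f (cO ω)) n ≤
        |t| * B * (|K1| * r) := mul_le_mul_of_nonneg_left s3 (by positivity)
    have e4 : 2 / √(n : ℝ) = 2 * (1 / √n) := by ring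
    rw [e4] at s6 s7
    have q0 : 0 < 1 / √(n : ℝ) := by positivity
    generalize 1 / √(n : ℝ) = q at s6 s7 q0 ⊢
    have ht := abs_nonneg t
    have hk1 := abs_nonneg K1
    have hk2 := abs_nonneg K2
    have e5 : (B + 4) * (|K1| + |K2|) * (|t| + q) * r =
        |t| * B * (|K1| * r) + (2 * q * (|K1| * r + |K2| * r) + 2 * q * (|K1| * r + |K2| * r)) +
          (B * |K2| * |t| + B * (|K1| + |K2|) * q + 4 * (|K1| + |K2|) * |t|) * r := by ring
    have e6 : 0 ≤ (B * |K2| * |t| + B * (|K1| + |K2|) * q + 4 * (|K1| + |K2|) * |t|) * r := by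
      positivity
    linarith
  by_cases hG : j = .G
  · subst hG
    rw [bdom_slaw_nu, bdom_src_G h hT hf]
    refine bdom_asym_smul ?_ _
    obtain ⟨K, hK⟩ := h3
    have fG : ∑' ω, lhsB (wC (ENNReal.ofReal x)) (ENNReal.ofReal x) .G ω ≠ ⊤ := by
      refine ne_top_of_le_ne_top (h.fin .G) (ENNReal.tsum_le_tsum fun ω => ?_)
      rcases ω with R | D | ν
      · simp [lhsB, onU]
      · simp [lhsB, onU]
      · simp only [lhsB, onU, wB, wgB]
        exact mul_le_mul' le_rfl le_self_add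
    refine bdom_asym |K| ?_
    filter_upwards [eventually_ge_atTop 1] with n hn t
    have hn1 : (1 : ℝ) ≤ n := by exact_mod_cast hn
    have hs1 : 1 ≤ √(n : ℝ) := Real.one_le_sqrt.2 hn1
    have hr : (0 : ℝ) < (n : ℝ) ^ (-(5 / 2) : ℝ) := Real.rpow_pos_of_pos (by linarith) _
    have p1 := hK n hn
    rw [bdom_pm] at p1
    set r := (n : ℝ) ^ (-(5 / 2) : ℝ) with hrdef
    have p1' : ∑' ω, lhsB (wC (ENNReal.ofReal x)) (ENNReal.ofReal x) .G ω *
        (if sB ω = n then 1 else 0) ≤ ENNReal.ofReal (|K| * r) := by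
      rw [ENNReal.le_ofReal_iff_toReal_le (bdom_loc_ne fG sB n) (by positivity)]
      exact p1.trans (by gcongr; exact le_abs_self K)
    have z0 : ch (slaw (meas fun ω => ((0 : ℝ≥0) : ℝ≥0∞) *
        lhsB (wC (ENNReal.ofReal x)) (ENNReal.ofReal x) .G ω) sB (zz sB f 0 mu)) n t = 0 := by
      rw [← bdom_meas_smul]
      simp [slaw, ch]
    rw [z0, sub_zero]
    refine (bdom_norm_ch _ _ _).trans ?_
    rw [bdom_pm]
    refine le_trans (b := 1 / √n * (|K| * r)) ?_ ?_
    · refine ENNReal.toReal_le_of_le_ofReal (by positivity) ?_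
      rw [ENNReal.ofReal_mul (by positivity)]
      refine le_trans ?_ (mul_le_mul' le_rfl p1')
      rw [← ENNReal.tsum_mul_left]
      refine ENNReal.tsum_le_tsum fun ω => ?_
      rcases ω with R | D | ν
      · simp [wB, wgB, onU]
      · simp [wB, wgB, onU]
      · by_cases hs : sB (.inr (.inr ν)) = n
        · rw [if_pos hs, mul_one, mul_one]
          simp only [lhsB, onU, wB, wgB]
          have h5 : ν.2.1 = n := hs
          rw [h5, mul_left_comm, ← ENNReal.ofReal_natCast, ← ENNReal.ofReal_mul (by positivity)]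
          refine le_mul_of_one_le_right (zero_le) (ENNReal.one_le_ofReal.2 ?_)
          rw [one_div, inv_mul_eq_div, Real.div_sqrt]
          exact hs1
        · simp [hs]
    · have : 0 ≤ |K| * |t| * r := by positivity
      nlinarith
  · rw [← h.law hT hf 0 mu _ _ j hC hG]
    exact asym_self _

end Pool.Agent.Lib.MP_77dff5_pr
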