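import Pool.Agent.Lib.MP_77dff5_pr.BSys

/-! Model B: Lyapunov vector. -/

set_option autoImplicit false

namespace Pool.Agent.Lib.MP_77dff5_pr

open MeasureTheory ProbabilityTheory Filter Topology
open scoped ENNReal NNReal

variable {w x : ℝ} {f : ℕ → ℝ} {k0 : ℕ}

/-- real masses of the classes of model B -/
noncomputable def bLyapM (x : ℝ) (j : JB) : ℝ := (∑' ω, wB x j ω).toReal

theorem bLyap_pos (h : BCrit w x) (j : JB) : 0 < bLyapM x j :=
  ENNReal.toReal_pos (h.mass_ne j).1 (h.mass_ne j).2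

theorem bLyap_c (x : ℝ) (ρ η : ℝ≥0) (j : JB) (k : KB) : (cB x ρ η j k : ℝ) =
    (if incB j k then 1 else if j = .C ∧ k = .R then (ρ : ℝ) else
      if j = .G ∧ k = .G then (η : ℝ) else 0) * (bLyapM x j)⁻¹ := by
  unfold cB bLyapM
  rw [NNReal.coe_mul, ← ENNReal.toReal_inv]
  congr 1
  split_ifs <;> rfl

theorem bLyap_w (x : ℝ) (f : ℕ → ℝ) (k0 : ℕ) (lam : ℝ) (k : KB) (t : (ufB f k0 lam k).T) :
    ((FB x f k0 lam k).w t : ℝ) = ((ufB f k0 lam k).w t).toReal *
      ∏ i, bLyapM x (((ufB f k0 lam k).core t).cls i) := by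
  change ENNReal.toReal (_ * _) = _
  rw [ENNReal.toReal_mul, ENNReal.toReal_prod]
  rfl

theorem bLyap_acoef_nonneg {Ω J : Type} (F : Fam Ω J) (j : J) : 0 ≤ F.acoef j :=
  tsum_nonneg fun t => mul_nonneg (F.w t).coe_nonneg (Nat.cast_nonneg _)

theorem bLyap_lin {Ω J : Type} [Fintype J] (F : Fam Ω J)
    (hs : Summable fun t => (F.w t : ℝ) * (F.core t).k) (m : J → ℝ) :
    HasSum (fun t => (F.w t : ℝ) * ∑ i, m ((F.core t).cls i)) (∑ j, F.acoef j * m j) := by
  have h1 : ∀ j, Summable fun t => (F.w t : ℝ) * (F.core t).cnt j := by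
    intro j
    refine Summable.of_nonneg_of_le (fun t => by positivity) (fun t => ?_) hs
    have h2 : (F.core t).cnt j ≤ (F.core t).k := by
      unfold Core.cnt Core.k
      rw [← Nat.card_eq_fintype_card]
      exact Finite.card_subtype_le _
    have h3 : ((F.core t).cnt j : ℝ) ≤ (F.core t).k := by exact_mod_cast h2
    gcongr
  have h2 := hasSum_sum (s := Finset.univ) fun j _ => (h1 j).hasSum.mul_right (m j)
  refine famC_congr h2 fun t => ?_
  rw [Core.famC_sum_cls, Finset.mul_sum]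
  exact Finset.sum_congr rfl fun j _ => by ring

theorem bLyap_fin {Ω J : Type} [Fintype J] (F : Fam Ω J) [Fintype F.T] (m : J → ℝ) :
    ∑ j, F.acoef j * m j = ∑ t, (F.w t : ℝ) * ∑ i, m ((F.core t).cls i) :=
  (bLyap_lin F Summable.of_finite m).unique (hasSum_fintype _)

theorem bLyap_E (lam : ℝ) (m : JB → ℝ) : ∑ j, (FB x f k0 lam .E).acoef j * m j = 0 := by
  let _ : Fintype (FB x f k0 lam .E).T := inferInstanceAs (Fintype Unit)
  rw [bLyap_fin]
  refine Finset.sum_eq_zero fun t _ => ?_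
  have : ∑ i, m (((FB x f k0 lam .E).core t).cls i) = 0 :=
    Finset.sum_eq_zero fun i _ => Empty.elim i
  rw [this, mul_zero]

theorem bLyap_S (lam : ℝ) (m : JB → ℝ) : ∑ j, (FB x f k0 lam .S).acoef j * m j =
    bLyapM x .nS * bLyapM x .D * bLyapM x .C * (m .nS + m .D + m .C) := by
  let _ : Fintype (FB x f k0 lam .S).T := inferInstanceAs (Fintype Unit)
  rw [bLyap_fin]
  change ∑ t : Unit, _ = _
  rw [Fintype.sum_unique, bLyap_w]
  change ENNReal.toReal 1 * (∏ i : Fin 3, bLyapM x (![JB.nS, JB.D, JB.C] i)) *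
    ∑ i : Fin 3, m (![JB.nS, JB.D, JB.C] i) = _
  simp [Fin.prod_univ_three, Fin.sum_univ_three]

theorem bLyap_G (lam : ℝ) (m : JB → ℝ) : ∑ j, (FB x f k0 lam .G).acoef j * m j =
    bLyapM x .C * bLyapM x .G * (m .C + m .G) := by
  let _ : Fintype (FB x f k0 lam .G).T := inferInstanceAs (Fintype Unit)
  rw [bLyap_fin]
  change ∑ t : Unit, _ = _
  rw [Fintype.sum_unique, bLyap_w]
  change ENNReal.toReal 1 * (∏ i : Fin 2, bLyapM x (![JB.C, JB.G] i)) *
    ∑ i : Fin 2, m (![JB.C, JB.G] i) = _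
  simp

theorem bLyap_R (lam : ℝ) (m : JB → ℝ) : ∑ j, (FB x f k0 lam .R).acoef j * m j =
    bLyapM x .C * bLyapM x .C * (m .C + m .C) +
      bLyapM x .Dt * bLyapM x .C * bLyapM x .C * (m .Dt + m .C + m .C) := by
  let _ : Fintype (FB x f k0 lam .R).T := inferInstanceAs (Fintype (Fin 2))
  rw [bLyap_fin]
  change ∑ t : Fin 2, _ = _
  rw [Fin.sum_univ_two, bLyap_w, bLyap_w]
  change ENNReal.toReal 1 * (∏ i : Fin 2, bLyapM x (![JB.C, JB.C] i)) *
    ∑ i : Fin 2, m (![JB.C, JB.C] i) +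
    ENNReal.toReal 1 * (∏ i : Fin 3, bLyapM x (![JB.Dt, JB.C, JB.C] i)) *
    ∑ i : Fin 3, m (![JB.Dt, JB.C, JB.C] i) = _
  simp [Fin.prod_univ_three, Fin.sum_univ_three]

theorem bLyap_exp (a : ℝ) : HasSum (fun n : ℕ => a ^ n / n.factorial) (Real.exp a) := by
  rw [Real.exp_eq_exp_ℝ]
  exact NormedSpace.expSeries_div_hasSum_exp a

theorem bLyap_P1 (lam : ℝ) (m : JB → ℝ) : ∑ j, (FB x f k0 lam .P1).acoef j * m j =
    bLyapM x .J * Real.exp (bLyapM x .J) * m .J := by
  have hw : ∀ t : ℕ, ((FB x f k0 lam .P1).w t : ℝ) * ((t + 1 : ℕ) : ℝ) =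
      bLyapM x .J * (bLyapM x .J ^ t / t.factorial) := by
    intro t
    rw [bLyap_w]
    change ENNReal.toReal (((t + 1).factorial : ℕ) : ℝ≥0∞)⁻¹ * (∏ _i : Fin (t + 1), bLyapM x .J) *
      _ = _
    rw [ENNReal.toReal_inv, ENNReal.toReal_natCast, Finset.prod_const, Finset.card_univ,
      Fintype.card_fin, Nat.factorial_succ]
    push_cast
    field_simp
    ring
  have h1 : HasSum (fun t : ℕ => ((FB x f k0 lam .P1).w t : ℝ) * ((t + 1 : ℕ) : ℝ))
      (bLyapM x .J * Real.exp (bLyapM x .J)) := by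
    simp only [hw]
    exact (bLyap_exp _).mul_left _
  refine (bLyap_lin _ (h1.summable.congr fun t => ?_) m).unique ?_
  · change _ = _ * ((Fintype.card (Fin (t + 1)) : ℕ) : ℝ)
    rw [Fintype.card_fin]
  · refine famC_congr (h1.mul_right (m .J)) fun t : ℕ => ?_
    change _ * ∑ _i : Fin (t + 1), m .J = _
    rw [Finset.sum_const, Finset.card_univ, Fintype.card_fin, nsmul_eq_mul, mul_assoc]

theorem bLyap_P0 (lam : ℝ) (m : JB → ℝ) : ∑ j, (FB x f k0 lam .P0).acoef j * m j =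
    bLyapM x .J * (Real.exp (bLyapM x .J) - 1) * m .J := by
  have hw : ∀ t : ℕ, ((FB x f k0 lam .P0).w t : ℝ) * ((t + 2 : ℕ) : ℝ) =
      bLyapM x .J * (bLyapM x .J ^ (t + 1) / (t + 1).factorial) := by
    intro t
    rw [bLyap_w]
    change ENNReal.toReal (((t + 2).factorial : ℕ) : ℝ≥0∞)⁻¹ * (∏ _i : Fin (t + 2), bLyapM x .J) *
      _ = _
    rw [ENNReal.toReal_inv, ENNReal.toReal_natCast, Finset.prod_const, Finset.card_univ,
      Fintype.card_fin, Nat.factorial_succ (t + 1)]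
    push_cast
    field_simp
    ring
  have h1 : HasSum (fun t : ℕ => ((FB x f k0 lam .P0).w t : ℝ) * ((t + 2 : ℕ) : ℝ))
      (bLyapM x .J * (Real.exp (bLyapM x .J) - 1)) := by
    simp only [hw]
    have h2 := (hasSum_nat_add_iff' 1).2 (bLyap_exp (bLyapM x .J))
    simp only [Finset.range_one, Finset.sum_singleton, pow_zero, Nat.factorial_zero, Nat.cast_one,
      div_one] at h2
    exact h2.mul_left _
  refine (bLyap_lin _ (h1.summable.congr fun t => ?_) m).unique ?_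
  · change _ = _ * ((Fintype.card (Fin (t + 2)) : ℕ) : ℝ)
    rw [Fintype.card_fin]
  · refine famC_congr (h1.mul_right (m .J)) fun t : ℕ => ?_
    change _ * ∑ _i : Fin (t + 2), m .J = _
    rw [Finset.sum_const, Finset.card_univ, Fintype.card_fin, nsmul_eq_mul, mul_assoc]

theorem bLyap_nm (t : TT) : (t.1.2.1 : ℝ) ≤ posm t := by
  have h1 := t.2.1.card_le
  rw [Nat.card_eq_fintype_card, Nat.card_eq_fintype_card, Fintype.card_fin, Fintype.card_fin] at h1
  have h2 : t.1.2.1 ≤ t.1.1 := by omega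
  unfold posm
  exact_mod_cast h2

theorem bLyap_sumn (hT : TFacts w) : Summable fun t : TT => (wTw w t : ℝ) * (t.1.2.1 : ℝ) :=
  Summable.of_nonneg_of_le (fun t => by positivity)
    (fun t => mul_le_mul_of_nonneg_left (bLyap_nm t) (wTw w t).coe_nonneg) hT.sum1

theorem bLyap_H (h : BCrit w x) (hT : TFacts w) (lam : ℝ) (m : JB → ℝ) :
    ∑ j, (FB x f k0 lam .H).acoef j * m j = (∑' t, (wTw w t : ℝ) * posm t) * m .D +
      (∑' t : TT, (wTw w t : ℝ) * (t.1.2.1 : ℝ)) * m .C := by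
  have hw : ∀ t : TT, ((FB x f k0 lam .H).w t : ℝ) = wTw w t := fun t => by
    rw [h.H_w hT]
  refine (bLyap_lin _ ((hT.sum1.add (bLyap_sumn hT)).congr fun t => ?_) m).unique ?_
  · rw [hw]
    change _ = _ * ((Fintype.card (Fin t.1.1 ⊕ Fin t.1.2.1) : ℕ) : ℝ)
    rw [Fintype.card_sum, Fintype.card_fin, Fintype.card_fin, Nat.cast_add, mul_add]
    rfl
  · refine famC_congr ((hT.sum1.hasSum.mul_right (m .D)).add
      ((bLyap_sumn hT).hasSum.mul_right (m .C))) fun t : TT => ?_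
    rw [hw]
    change _ * ∑ i : Fin t.1.1 ⊕ Fin t.1.2.1, m (Sum.elim (fun _ => JB.D) (fun _ => JB.C) i) = _
    rw [Fintype.sum_sum_type]
    simp only [Sum.elim_inl, Sum.elim_inr, Finset.sum_const, Finset.card_univ, Fintype.card_fin,
      nsmul_eq_mul, posm]
    ring

theorem bLyap_univ : (Finset.univ : Finset KB) = {.E, .S, .P0, .P1, .H, .R, .G} := by
  ext k
  cases k <;> simp

theorem bLyap_row (lam : ℝ) (ρ η : ℝ≥0) (m : JB → ℝ) (i : JB) :
    ∑ j, sysA (FB x f k0 lam) (cB x ρ η) i j * m j =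
      ∑ k, (cB x ρ η i k : ℝ) * ∑ j, (FB x f k0 lam k).acoef j * m j := by
  simp only [sysA, Finset.sum_mul, Finset.mul_sum, mul_assoc]
  exact Finset.sum_comm

theorem bLyap_sumK (g : KB → ℝ) :
    ∑ k, g k = g .E + g .S + g .P0 + g .P1 + g .H + g .R + g .G := by
  rw [bLyap_univ]
  simp [Finset.sum_insert]
  ring

theorem bLyap_mass (h : BCrit w x) (hT : TFacts w) :
    bLyapM x .C = xw w ∧ bLyapM x .D = tauw w ∧
      bLyapM x .nS = tauw w / (1 + xw w * tauw w) ∧ Real.exp (bLyapM x .J) = (1 + tauw w) / 2 ∧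
      bLyapM x .Dt = (1 + tauw w) / 2 - 1 := by
  have hT0 : 0 ≤ Tw w := hT.mass.nonneg fun t => (wTw w t).coe_nonneg
  obtain ⟨f1, f2, f3, f4, f5⟩ := h.crit.facts hT0
  obtain ⟨m1, m2, m3, m4⟩ := massB_eq (x := ENNReal.ofReal x) h.crit hT h.massC
  have m0 : ∑' ω, wB x .C ω = ENNReal.ofReal (xw w) := by
    have := tsum_onR (wC (ENNReal.ofReal x)) fun _ => 1
    simp only [mul_one] at this
    rw [← h.massC, ← this]
    rfl
  unfold bLyapM
  refine ⟨by rw [m0, ENNReal.toReal_ofReal f3.le], ?_, ?_, ?_, ?_⟩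
  · rw [wB, m1, ENNReal.toReal_ofReal (by linarith)]
  · rw [wB, m2, f5, ENNReal.toReal_ofReal (by positivity)]
  · rw [wB, m3, ENNReal.toReal_ofReal (by linarith), h.crit.2]
  · rw [wB, m4, ENNReal.toReal_ofReal (by linarith)]

theorem BCrit.lyap (h : BCrit w x) (hT : TFacts w) : ∃ η₀ : ℝ≥0, 0 < η₀ ∧
    ∀ (f : ℕ → ℝ) (k0 : ℕ) (lam : ℝ) (ρ η : ℝ≥0), ρ ≤ 1 / 2 → η ≤ η₀ →
      ∃ m : JB → ℝ, (∀ i, 0 < m i) ∧ ∀ i, ∑ j, sysA (FB x f k0 lam) (cB x ρ η) i j * m j < m i := by
  refine ⟨1, one_pos, fun f k0 lam ρ η hρ hη => ?_⟩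
  have hρ' : (ρ : ℝ) ≤ 1 / 2 := by exact_mod_cast hρ
  have hη' : (η : ℝ) ≤ 1 := by exact_mod_cast hη
  have hρ0 : (0 : ℝ) ≤ ρ := ρ.coe_nonneg
  have hη0 : (0 : ℝ) ≤ η := η.coe_nonneg
  have hT0 : 0 ≤ Tw w := hT.mass.nonneg fun t => (wTw w t).coe_nonneg
  obtain ⟨f1, f2, f3, -, -⟩ := h.crit.facts hT0
  obtain ⟨m0, m1, m2, m3, m4⟩ := bLyap_mass h hT
  have pJ := bLyap_pos h .J
  have pG := bLyap_pos h .G
  have pDt := bLyap_pos h .Dt
  have hsub := hT.sub
  set Am := ∑' t, (wTw w t : ℝ) * posm t with hAm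
  set An := ∑' t : TT, (wTw w t : ℝ) * (t.1.2.1 : ℝ) with hAn
  have hAn0 : 0 ≤ An := tsum_nonneg fun t => by positivity
  have hle : An ≤ Am := (bLyap_sumn hT).tsum_le_tsum
    (fun t => mul_le_mul_of_nonneg_left (bLyap_nm t) (wTw w t).coe_nonneg) hT.sum1
  set X := xw w
  set τ := tauw w
  have hτ : 0 < τ := by linarith
  obtain ⟨c, d, ns, j, dt, s, hh, pc, pd, pns, pj, pdt, es, eh, i1, i2, i3, i4, i5⟩ :=
    lyapB_real (x := X) (τ := τ) (Tz := Am / τ) (Tx := An / X) f3 f1 f2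
      (div_nonneg (hAn0.trans hle) hτ.le) (div_nonneg hAn0 f3.le)
      (by rw [mul_div_cancel₀ _ f3.ne', mul_div_cancel₀ _ hτ.ne']; exact hle) hsub
  have hN : 0 < τ / (1 + X * τ) := by positivity
  let m : JB → ℝ := fun i => match i with
    | .C => c / X
    | .D => d / τ
    | .nS => ns / (τ / (1 + X * τ))
    | .J => j / bLyapM x .J
    | .Dt => dt / bLyapM x .Dt
    | .G => c / X
  have LS : ∑ i, (FB x f k0 lam .S).acoef i * m i = s := by
    rw [bLyap_S, m0, m1, m2, es]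
    simp only [m]
    field_simp
  have LP0 : ∑ i, (FB x f k0 lam .P0).acoef i * m i = ((1 + τ) / 2 - 1) * j := by
    rw [bLyap_P0, m3]
    simp only [m]
    field_simp
  have LP1 : ∑ i, (FB x f k0 lam .P1).acoef i * m i = (1 + τ) / 2 * j := by
    rw [bLyap_P1, m3]
    simp only [m]
    field_simp
  have LH : ∑ i, (FB x f k0 lam .H).acoef i * m i = hh := by
    rw [bLyap_H h hT, eh]
    simp only [m]
    ring
  have LR : ∑ i, (FB x f k0 lam .R).acoef i * m i = X * (1 + τ) * c + X ^ 2 * dt := by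
    rw [bLyap_R, m0]
    simp only [m]
    have e1 : bLyapM x .Dt * X * X * (dt / bLyapM x .Dt + c / X + c / X) =
        X ^ 2 * dt + 2 * bLyapM x .Dt * X * c := by
      field_simp
      ring
    rw [e1, m4]
    field_simp
    ring
  have LG : ∑ i, (FB x f k0 lam .G).acoef i * m i = 2 * bLyapM x .G * c := by
    rw [bLyap_G, m0]
    simp only [m]
    field_simp
    ring
  refine ⟨m, fun i => ?_, fun i => ?_⟩
  · cases i <;> simp only [m] <;> positivity
  · rw [bLyap_row, bLyap_sumK, bLyap_E, LS, LP0, LP1, LH, LR, LG]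
    simp only [bLyap_c]
    cases i
    · simp only [incB, m, m0]
      simp only [Bool.false_eq_true, if_false, reduceCtorEq, and_false, and_true,
        if_true, zero_mul, zero_add, add_zero]
      rw [lt_div_iff₀ f3]
      have e1 : ρ * X⁻¹ * (X * (1 + τ) * c + X ^ 2 * dt) * X =
          ρ * (X * (1 + τ) * c + X ^ 2 * dt) := by field_simp
      have e2 : 0 ≤ X * (1 + τ) * c + X ^ 2 * dt := by positivity
      rw [e1]
      nlinarith
    · simp only [incB, m, m1]
      simp only [Bool.false_eq_true, if_false, reduceCtorEq, and_false, false_and,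
        if_true, zero_mul, zero_add, add_zero, one_mul, mul_zero]
      rw [lt_div_iff₀ hτ]
      field_simp
      linarith
    · simp only [incB, m, m2]
      simp only [Bool.false_eq_true, if_false, reduceCtorEq, and_false, false_and,
        if_true, zero_mul, zero_add, add_zero, one_mul, mul_zero]
      rw [div_eq_inv_mul ns, ← mul_add, ← mul_add]
      exact mul_lt_mul_of_pos_left (by linarith) (inv_pos.2 hN)
    · simp only [incB, m]
      simp only [Bool.false_eq_true, if_false, reduceCtorEq, and_false, false_and,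
        if_true, zero_mul, zero_add, add_zero, one_mul, mul_zero]
      rw [div_eq_inv_mul j, ← mul_add]
      exact mul_lt_mul_of_pos_left (by linarith) (inv_pos.2 pJ)
    · simp only [incB, m]
      simp only [Bool.false_eq_true, if_false, reduceCtorEq, and_false, false_and,
        if_true, zero_mul, zero_add, add_zero, one_mul, mul_zero]
      rw [div_eq_inv_mul dt, ← mul_add, ← mul_add]
      exact mul_lt_mul_of_pos_left (by linarith) (inv_pos.2 pDt)
    · simp only [incB, m]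
      simp only [Bool.false_eq_true, if_false, reduceCtorEq, and_false, and_true,
        if_true, zero_mul, zero_add, add_zero]
      rw [lt_div_iff₀ f3]
      have e1 : η * (bLyapM x .G)⁻¹ * (2 * bLyapM x .G * c) * X = η * (2 * X) * c := by field_simp
      have e2 : X ≤ 1 / 4 := by nlinarith
      have e3 : η * (2 * X) < 1 := by nlinarith
      rw [e1]
      nlinarith

/-- positivity is transmitted from the cores to all graphs -/
theorem BCrit.beta_pos (h : BCrit w x) (hT : TFacts w) (f : ℕ → ℝ) (k0 : ℕ) (lam : ℝ) {ρ η : ℝ≥0}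
    (hρ : 0 < ρ) {β : JB → ℝ} (h0 : ∀ i, 0 ≤ β i)
    (hβ : ∀ i, β i = ∑ j, sysA (FB x f k0 lam) (cB x ρ η) i j * β j + cB x ρ η i .H) :
    0 < ∑ j, (FB x f k0 lam .G).acoef j * β j := by
  have pC := bLyap_pos h .C
  have pG := bLyap_pos h .G
  have pDt := bLyap_pos h .Dt
  have hL : ∀ i k, 0 ≤ (cB x ρ η i k : ℝ) * ∑ j, (FB x f k0 lam k).acoef j * β j := fun i k =>
    mul_nonneg (cB x ρ η i k).coe_nonneg
      (Finset.sum_nonneg fun j _ => mul_nonneg (bLyap_acoef_nonneg _ j) (h0 j))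
  have h1 : 0 < β .Dt := by
    rw [hβ, bLyap_row]
    refine add_pos_of_nonneg_of_pos (Finset.sum_nonneg fun k _ => hL _ k) ?_
    rw [bLyap_c]
    simp only [incB, if_true, one_mul]
    exact inv_pos.2 pDt
  have h2 : 0 < β .C := by
    rw [hβ, bLyap_row]
    refine add_pos_of_pos_of_nonneg (lt_of_lt_of_le ?_
      (Finset.single_le_sum (fun k _ => hL .C k) (Finset.mem_univ KB.R)))
      (cB x ρ η .C .H).coe_nonneg
    have h3 : (0 : ℝ) < ρ := hρ
    have h4 := h0 .C
    rw [bLyap_R, bLyap_c]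
    simp only [incB, Bool.false_eq_true, if_false, and_self, if_true]
    positivity
  have h5 := h0 .G
  rw [bLyap_G]
  positivity

end Pool.Agent.Lib.MP_77dff5_pr
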