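import Pool.Agent.Lib.MP_77dff5_pr.UDefs

/-! The critical point of planar graphs: real analysis and algebra. -/

set_option autoImplicit false

namespace Pool.Agent.Lib.MP_77dff5_pr

open MeasureTheory ProbabilityTheory Filter Topology
open scoped ENNReal NNReal

theorem crit1_cont : ContinuousOn (fun w => (1 + tauw w) / 2 - Real.exp (Sw w + Tw w))
    (Set.Icc (1 : ℝ) 20) := by
  have hx : ContinuousOn xw (Set.Icc (1 : ℝ) 20) := by
    unfold xw
    refine ContinuousOn.div (by fun_prop) (by fun_prop) fun w hw => ?_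
    have := hw.1
    positivity
  have ht : ContinuousOn tauw (Set.Icc (1 : ℝ) 20) := by
    unfold tauw
    refine ContinuousOn.div (by fun_prop) (by fun_prop) fun w hw => ?_
    have := hw.1
    positivity
  have hE : ContinuousOn Ew (Set.Icc (1 : ℝ) 20) := by
    unfold Ew
    refine ContinuousOn.div (by fun_prop) (by fun_prop) fun w hw => ?_
    have := hw.1
    positivity
  have hx0 : ∀ w ∈ Set.Icc (1 : ℝ) 20, 0 < xw w := fun w hw => by
    have := hw.1
    unfold xw; positivity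
  have ht0 : ∀ w ∈ Set.Icc (1 : ℝ) 20, 0 < tauw w := fun w hw => by
    have := hw.1
    unfold tauw; positivity
  have hS : ContinuousOn Sw (Set.Icc (1 : ℝ) 20) := by
    unfold Sw
    refine ContinuousOn.div (hx.mul (ht.pow 2)) (continuousOn_const.add (hx.mul ht)) fun w hw => ?_
    have := hx0 w hw
    have := ht0 w hw
    positivity
  have hT : ContinuousOn Tw (Set.Icc (1 : ℝ) 20) := by
    unfold Tw
    refine ContinuousOn.div_const (((ContinuousOn.div ht (continuousOn_const.add ht)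
      fun w hw => ?_).sub hE).sub hS) 2
    have := ht0 w hw
    show (1 : ℝ) + tauw w ≠ 0
    positivity
  exact ((continuousOn_const.add ht).div_const 2).sub
    (Real.continuous_exp.comp_continuousOn (hS.add hT))

theorem exists_wcrit : ∃ w, Wcrit w := by
  have h1 : (1 + tauw 1) / 2 - Real.exp (Sw 1 + Tw 1) ≤ 0 := by
    have e : 0 ≤ Sw 1 + Tw 1 := by unfold Tw Sw Ew xw tauw; norm_num
    have := Real.add_one_le_exp (Sw 1 + Tw 1)
    have e2 : (1 + tauw 1) / 2 = 5 / 8 := by unfold tauw; norm_num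
    linarith
  have h2 : 0 ≤ (1 + tauw 20) / 2 - Real.exp (Sw 20 + Tw 20) := by
    have e : Sw 20 + Tw 20 ≤ 1 := by unfold Tw Sw Ew xw tauw; norm_num
    have := Real.exp_le_exp.2 e
    have e3 := Real.exp_one_lt_d9
    have e2 : 3 ≤ (1 + tauw 20) / 2 := by unfold tauw; norm_num
    linarith
  obtain ⟨w, hw, hw0⟩ := intermediate_value_Icc (by norm_num : (1 : ℝ) ≤ 20) crit1_cont ⟨h1, h2⟩
  exact ⟨w, hw.1, by simpa [sub_eq_zero] using hw0⟩

theorem Wcrit.facts {w : ℝ} (h : Wcrit w) (hT : 0 ≤ Tw w) :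
    1 ≤ tauw w ∧ xw w * tauw w ≤ 1 / 4 ∧ 0 < xw w ∧ 0 < Sw w ∧
      tauw w - Sw w = tauw w / (1 + xw w * tauw w) := by
  obtain ⟨hw, he⟩ := h
  have hw0 : 0 < w := by linarith
  have hx : 0 < xw w := by unfold xw; positivity
  have ht : 0 < tauw w := by unfold tauw; positivity
  have hS : 0 < Sw w := by unfold Sw; positivity
  refine ⟨?_, ?_, hx, hS, ?_⟩
  · have := Real.add_one_le_exp (Sw w + Tw w)
    linarith
  · have e : xw w * tauw w = 3 / (4 * (w * (w + 2))) := by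
      unfold xw tauw; field_simp
    rw [e, div_le_div_iff₀ (by positivity) (by norm_num)]
    nlinarith
  · unfold Sw
    field_simp
    ring

/-- a Lyapunov vector for the linearised system -/
theorem lyapB_real {x τ Tz Tx : ℝ} (hx : 0 < x) (hτ : 1 ≤ τ) (hxτ : x * τ ≤ 1 / 4) (hz : 0 ≤ Tz)
    (hTx : 0 ≤ Tx) (h1 : x * Tx ≤ τ * Tz)
    (h2 : (1 + τ) ^ 2 * ((2 * x * τ + x ^ 2 * τ ^ 2) / (1 + x * τ) ^ 2 + 2 * Tz) < 1) :
    ∃ c d ns j dt s h : ℝ, 0 < c ∧ 0 < d ∧ 0 < ns ∧ 0 < j ∧ 0 < dt ∧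
      s = x * τ * ns + x * (τ / (1 + x * τ)) * d + τ / (1 + x * τ) * τ * c ∧ h = Tz * d + Tx * c ∧
      x * ((1 + τ) / 2) * c + x ^ 2 * dt / 2 < c ∧ s + τ * j + h < d ∧ τ * j + h < ns ∧
      s + h < j ∧ s + ((1 + τ) / 2 - 1) * j + h < dt := by
  have hτ0 : 0 < τ := by linarith
  have hq : 0 < 1 + x * τ := by positivity
  set SD := (2 * x * τ + x ^ 2 * τ ^ 2) / (1 + x * τ) ^ 2 with hSD
  have hSD0 : 0 ≤ SD := by positivity
  have hSx : τ ^ 2 * x / (1 + x * τ) ^ 2 ≤ τ * SD := by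
    rw [hSD, ← mul_div_assoc]
    refine div_le_div_of_nonneg_right ?_ (by positivity)
    have : 0 ≤ τ * (x * τ) := by positivity
    have : 0 ≤ τ * (x ^ 2 * τ ^ 2) := by positivity
    nlinarith
  have hsh : SD * (1 + τ) + τ ^ 2 * x / (1 + x * τ) ^ 2 + (Tz * (1 + τ) + Tx * x) < 1 := by
    have a1 : 0 ≤ τ ^ 2 * (SD + 2 * Tz) := by positivity
    have a2 : 0 ≤ τ * Tz := by positivity
    nlinarith
  have hh : 0 ≤ Tz * (1 + τ) + Tx * x := by positivity
  refine ⟨x, 1 + τ, 1 + τ - (SD * (1 + τ) + τ ^ 2 * x / (1 + x * τ) ^ 2), 1, (1 + τ) / 2,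
    SD * (1 + τ) + τ ^ 2 * x / (1 + x * τ) ^ 2, Tz * (1 + τ) + Tx * x, hx, by linarith,
    by linarith, one_pos, by linarith, ?_, rfl, ?_, by linarith, by linarith, hsh, by linarith⟩
  · rw [hSD]
    field_simp
    ring
  · have : x ≤ x * τ := le_mul_of_one_le_right hx.le hτ
    nlinarith

theorem crit1_pow {y z : ℝ} (hy : 0 ≤ y) (hyz : y ≤ z) (n : ℕ) :
    y * (z ^ n - y ^ n) ≤ n * z ^ n * (z - y) := by
  have hz : 0 ≤ z := hy.trans hyz
  induction n with
  | zero => simp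
  | succ n ih =>
    have h1 : y ^ (n + 1) ≤ z ^ (n + 1) := pow_le_pow_left₀ hy hyz _
    have h2 := mul_le_mul_of_nonneg_left ih hz
    have h3 := mul_le_mul_of_nonneg_right h1 (sub_nonneg.2 hyz)
    push_cast
    calc y * (z ^ (n + 1) - y ^ (n + 1))
        = z * (y * (z ^ n - y ^ n)) + y ^ (n + 1) * (z - y) := by ring
      _ ≤ z * (n * z ^ n * (z - y)) + z ^ (n + 1) * (z - y) := add_le_add h2 h3
      _ = (n + 1) * z ^ (n + 1) * (z - y) := by ring

/-- continuation of a power series with nonnegative coefficients along a differential inequality -/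
theorem exists_level (c : ℕ → ℝ≥0∞) (hc : ∀ n, c n ≠ ⊤) (h0 : c 0 = 0) (h1 : 1 ≤ c 1) {a K : ℝ}
    (ha : 0 < a) (hs : ∃ x : ℝ, 0 < x ∧ ∑' n, c n * ENNReal.ofReal x ^ n ≤ ENNReal.ofReal a)
    (hK : ∀ x : ℝ, 0 < x → ∀ N : ℕ,
      ∑ n ∈ Finset.range (N + 1), c n * ENNReal.ofReal x ^ n ≤ ENNReal.ofReal a →
      ∑ n ∈ Finset.range (N + 1), c n * ENNReal.ofReal x ^ n * n ≤ ENNReal.ofReal K) :
    ∃ x : ℝ, 0 < x ∧ ∑' n, c n * ENNReal.ofReal x ^ n = ENNReal.ofReal a := by
  set p : ℕ → ℝ → ℝ := fun N x => ∑ n ∈ Finset.range (N + 1), (c n).toReal * x ^ n with hp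
  have hterm : ∀ x : ℝ, 0 ≤ x → ∀ n, c n * ENNReal.ofReal x ^ n =
      ENNReal.ofReal ((c n).toReal * x ^ n) := fun x hx n => by
    rw [ENNReal.ofReal_mul ENNReal.toReal_nonneg, ENNReal.ofReal_toReal (hc n),
      ENNReal.ofReal_pow hx]
  have hpe : ∀ x : ℝ, 0 ≤ x → ∀ N, ∑ n ∈ Finset.range (N + 1), c n * ENNReal.ofReal x ^ n =
      ENNReal.ofReal (p N x) := fun x hx N => by
    rw [hp, ENNReal.ofReal_sum_of_nonneg fun n _ => by positivity]
    exact Finset.sum_congr rfl fun n _ => hterm x hx n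
  have hle : ∀ x b : ℝ, 0 ≤ x → 0 ≤ b →
      (∑' n, c n * ENNReal.ofReal x ^ n ≤ ENNReal.ofReal b ↔ ∀ N, p N x ≤ b) := by
    intro x b hx hb
    constructor
    · intro h N
      rw [← ENNReal.ofReal_le_ofReal_iff hb, ← hpe x hx]
      exact (ENNReal.sum_le_tsum _).trans h
    · intro h
      rw [ENNReal.tsum_eq_iSup_nat]
      refine iSup_le fun N => ?_
      refine le_trans (Finset.sum_le_sum_of_subset (Finset.range_subset_range.2 (Nat.le_succ N))) ?_
      rw [hpe x hx]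
      exact ENNReal.ofReal_le_ofReal (h N)
  have hmono : ∀ N, ∀ x y : ℝ, 0 ≤ x → x ≤ y → p N x ≤ p N y := fun N x y hx hxy =>
    Finset.sum_le_sum fun n _ =>
      mul_le_mul_of_nonneg_left (pow_le_pow_left₀ hx hxy n) ENNReal.toReal_nonneg
  have hcont : ∀ N, Continuous (p N) := fun N => by
    rw [hp]; fun_prop
  set X : Set ℝ := {x | 0 < x ∧ ∀ N, p N x ≤ a} with hX
  obtain ⟨x1, hx1, hx1a⟩ := hs
  have hx1X : x1 ∈ X := ⟨hx1, (hle x1 a hx1.le ha.le).1 hx1a⟩
  have hbdd : BddAbove X := by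
    refine ⟨a, fun x hx => ?_⟩
    have h2 := hx.2 1
    have h3 : (1 : ℝ) ≤ (c 1).toReal := by
      have := ENNReal.toReal_mono (hc 1) h1
      simpa using this
    simp only [hp, Finset.sum_range_succ, Finset.range_zero, Finset.sum_empty, h0,
      ENNReal.toReal_zero, zero_mul, zero_add, pow_one] at h2
    nlinarith [hx.1]
  set x0 := sSup X with hx0
  have hx0pos : 0 < x0 := hx1.trans_le (le_csSup hbdd hx1X)
  have hx0a : ∀ N, p N x0 ≤ a := by
    intro N
    have hcl : x0 ∈ closure X := csSup_mem_closure ⟨x1, hx1X⟩ hbdd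
    have hsub : X ⊆ {x | p N x ≤ a} := fun x hx => hx.2 N
    exact (isClosed_le (hcont N) continuous_const).closure_subset_iff.2 hsub hcl
  refine ⟨x0, hx0pos, le_antisymm ((hle x0 a hx0pos.le ha.le).2 hx0a) ?_⟩
  by_contra hlt
  rw [not_le] at hlt
  set F := ∑' n, c n * ENNReal.ofReal x0 ^ n with hF
  have hFt : F ≠ ⊤ := ne_top_of_lt hlt
  set b := F.toReal with hb
  have hb0 : 0 ≤ b := ENNReal.toReal_nonneg
  have hba : b < a := by
    rw [← ENNReal.ofReal_toReal hFt] at hlt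
    exact (ENNReal.ofReal_lt_ofReal_iff ha).1 hlt
  have hpb : ∀ N, p N x0 ≤ b :=
    (hle x0 b hx0pos.le hb0).1 (le_of_eq (ENNReal.ofReal_toReal hFt).symm)
  set δ := x0 * (a - b) / (|K| + 1) with hδ
  have hK1 : 0 < |K| + 1 := by positivity
  have hδ0 : 0 < δ := div_pos (mul_pos hx0pos (sub_pos.2 hba)) hK1
  have hmem : x0 + δ ∈ X := by
    refine ⟨by linarith, fun N => ?_⟩
    by_contra hgt
    rw [not_le] at hgt
    obtain ⟨y, hy, hya⟩ := intermediate_value_Icc (by linarith : x0 ≤ x0 + δ)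
      (hcont N).continuousOn (⟨by linarith [hpb N], hgt.le⟩ : a ∈ Set.Icc (p N x0) (p N (x0 + δ)))
    have hy0 : 0 < y := hx0pos.trans_le hy.1
    have hKy := hK y hy0 N (by rw [hpe y hy0.le, hya])
    have hKe : ∑ n ∈ Finset.range (N + 1), c n * ENNReal.ofReal y ^ n * n =
        ENNReal.ofReal (∑ n ∈ Finset.range (N + 1), (c n).toReal * y ^ n * n) := by
      rw [ENNReal.ofReal_sum_of_nonneg fun n _ => by positivity]
      refine Finset.sum_congr rfl fun n _ => ?_
      rw [hterm y hy0.le n, ENNReal.ofReal_mul (p := (c n).toReal * y ^ n) (by positivity),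
        ENNReal.ofReal_natCast]
    rw [hKe] at hKy
    have hK2 : ∑ n ∈ Finset.range (N + 1), (c n).toReal * y ^ n * n ≤ |K| :=
      (ENNReal.ofReal_le_ofReal_iff (abs_nonneg K)).1
        (hKy.trans (ENNReal.ofReal_le_ofReal (le_abs_self K)))
    have hdiff : x0 * (p N y - p N x0) ≤
        (∑ n ∈ Finset.range (N + 1), (c n).toReal * y ^ n * n) * (y - x0) := by
      simp only [hp]
      rw [← Finset.sum_sub_distrib, Finset.mul_sum, Finset.sum_mul]
      refine Finset.sum_le_sum fun n _ => ?_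
      have := mul_le_mul_of_nonneg_left (crit1_pow hx0pos.le hy.1 n)
        (ENNReal.toReal_nonneg (a := c n))
      calc x0 * ((c n).toReal * y ^ n - (c n).toReal * x0 ^ n)
          = (c n).toReal * (x0 * (y ^ n - x0 ^ n)) := by ring
        _ ≤ (c n).toReal * (n * y ^ n * (y - x0)) := this
        _ = (c n).toReal * y ^ n * n * (y - x0) := by ring
    have hyx : y - x0 ≤ δ := by linarith [hy.2]
    have hyx0 : 0 ≤ y - x0 := by linarith [hy.1]
    have e1 : x0 * (a - b) ≤ x0 * (p N y - p N x0) :=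
      mul_le_mul_of_nonneg_left (by rw [hya]; linarith [hpb N]) hx0pos.le
    have e2 : (∑ n ∈ Finset.range (N + 1), (c n).toReal * y ^ n * n) * (y - x0) ≤ |K| * δ :=
      mul_le_mul hK2 hyx hyx0 (abs_nonneg K)
    have e3 : x0 * (a - b) = (|K| + 1) * δ := by rw [hδ]; field_simp
    nlinarith
  have := le_csSup hbdd hmem
  linarith

end Pool.Agent.Lib.MP_77dff5_pr
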