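import Pool.Agent.Lib.MP_77dff5_pr.EqB
import Pool.Agent.Lib.MP_77dff5_pr.PartA
import Pool.Agent.Lib.MP_77dff5_pr.Atoms
import Pool.Agent.Lib.MP_77dff5_pr.FamA
import Pool.Agent.Lib.MP_77dff5_pr.Crit1

/-! Masses of the network classes of model B. -/

set_option autoImplicit false

namespace Pool.Agent.Lib.MP_77dff5_pr

open MeasureTheory ProbabilityTheory Filter Topology
open scoped ENNReal NNReal

variable {w : ℝ} {wv : RG → ℝ≥0∞} {x : ℝ≥0∞}

/-- the right-hand side of the mass equation of a family -/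
noncomputable def bMassR (k : KB) (M : JB → ℝ≥0∞) : ℝ≥0∞ :=
  ∑' t, (ufB (fun _ => 0) 0 1 k).w t * ∏ i, M (((ufB (fun _ => 0) 0 1 k).core t).cls i)

theorem bMassR_E (M : JB → ℝ≥0∞) : bMassR .E M = 1 := by
  change ∑' _ : Unit, (1 : ℝ≥0∞) * ∏ i : Empty, M i.elim = 1
  simp

theorem bMassR_S (M : JB → ℝ≥0∞) : bMassR .S M = M .nS * M .D * M .C := by
  change ∑' _ : Unit, (1 : ℝ≥0∞) * ∏ i : Fin 3, M (![JB.nS, JB.D, JB.C] i) = _
  simp [Fin.prod_univ_three]

theorem bMassR_P0 (M : JB → ℝ≥0∞) :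
    bMassR .P0 M = ∑' j : ℕ, (((j + 2).factorial : ℕ) : ℝ≥0∞)⁻¹ * M .J ^ (j + 2) := by
  change ∑' j : ℕ, (((j + 2).factorial : ℕ) : ℝ≥0∞)⁻¹ * ∏ _i : Fin (j + 2), M .J = _
  simp

theorem bMassR_P1 (M : JB → ℝ≥0∞) :
    bMassR .P1 M = ∑' j : ℕ, (((j + 1).factorial : ℕ) : ℝ≥0∞)⁻¹ * M .J ^ (j + 1) := by
  change ∑' j : ℕ, (((j + 1).factorial : ℕ) : ℝ≥0∞)⁻¹ * ∏ _i : Fin (j + 1), M .J = _
  simp

theorem bMassR_H (M : JB → ℝ≥0∞) :
    bMassR .H M = ∑' t : TT, wt t.1.1 t.1.2.1 * (M .D ^ t.1.1 * M .C ^ t.1.2.1) := by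
  change ∑' t : TT, wt t.1.1 t.1.2.1 * ∏ i : Fin t.1.1 ⊕ Fin t.1.2.1,
    M (Sum.elim (fun _ => JB.D) (fun _ => JB.C) i) = _
  simp [Fintype.prod_sum_type]

theorem bMass_exp (k : ℕ) {a : ℝ} (ha : 0 ≤ a) :
    ∑' j : ℕ, (((j + k).factorial : ℕ) : ℝ≥0∞)⁻¹ * ENNReal.ofReal a ^ (j + k) =
      ENNReal.ofReal (Real.exp a - ∑ i ∈ Finset.range k, a ^ i / i.factorial) := by
  have h0 : HasSum (fun n : ℕ => a ^ n / n.factorial) (Real.exp a) := by
    rw [Real.exp_eq_exp_ℝ]
    exact NormedSpace.expSeries_div_hasSum_exp a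
  have h1 := (hasSum_nat_add_iff' k).2 h0
  rw [← h1.tsum_eq, ENNReal.ofReal_tsum_of_nonneg (fun n => by positivity) h1.summable]
  refine tsum_congr fun j => ?_
  rw [ENNReal.ofReal_div_of_pos (by positivity), ENNReal.ofReal_pow ha, ENNReal.ofReal_natCast,
    div_eq_mul_inv, mul_comm]

theorem bMass_wt_ne (m n : ℕ) : wt m n ≠ ⊤ := by
  unfold wt
  rw [ENNReal.inv_ne_top, Nat.cast_ne_zero]
  positivity

theorem bMass_wT (t : TT) (c d : ℝ) :
    wt t.1.1 t.1.2.1 * (ENNReal.ofReal d ^ t.1.1 * ENNReal.ofReal c ^ t.1.2.1) =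
      ENNReal.ofReal (wT c.toNNReal d.toNNReal t : ℝ) := by
  rw [ENNReal.ofReal_coe_nnreal, wT]
  push_cast
  rw [ENNReal.coe_toNNReal (bMass_wt_ne _ _)]
  simp only [ENNReal.ofReal]
  ring

theorem bMass_evc : EvC (fun _ => 0) 0 := fun _ _ => rfl

theorem bMass_zz (ω : Om) : zz sB (fun _ => 0) 1 0 ω = ne ω := by
  have := FO_const 0 ω
  simp only [zz, this]
  ring

/-- truncated weights -/
noncomputable def bMassT (wv : RG → ℝ≥0∞) (x : ℝ≥0∞) (N : ℕ) (j : JB) (ω : Om) : ℝ≥0∞ :=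
  if j = .C ∨ ne ω ≤ N then wgB wv x j ω else 0

theorem bMass_one_le {j : JB} (h1 : j ≠ .C) (h2 : j ≠ .G) {ω : Om} (h : wgB wv x j ω ≠ 0) :
    1 ≤ ne ω := by
  cases j
  · exact absurd rfl h1
  · exact (suppB h).2.2
  · exact (suppB h).2.2
  · exact (suppB h).2.2
  · exact (suppB h).2.2
  · exact absurd rfl h2

theorem bMass_slot (k : KB) (h1 : k ≠ .R) (h2 : k ≠ .G) (N : ℕ)
    (t : (ufB (fun _ => 0) 0 1 k).T) (ω : ((ufB (fun _ => 0) 0 1 k).core t).I → Om)
    (h0 : ∀ i, wgB wv x (((ufB (fun _ => 0) 0 1 k).core t).cls i) (ω i) ≠ 0)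
    (hZ : ((ufB (fun _ => 0) 0 1 k).core t).Z (zz sB (fun _ => 0) 1 0) ω ≤ (N + 1 : ℕ))
    (i : ((ufB (fun _ => 0) 0 1 k).core t).I) :
    ((ufB (fun _ => 0) 0 1 k).core t).cls i = .C ∨ ne (ω i) ≤ N := by
  have key : ∀ {I : Type} [Fintype I] [DecidableEq I] (ω : I → Om) (i i' : I), i ≠ i' →
      1 ≤ ne (ω i') → ∑ i, ne (ω i) ≤ N + 1 → ne (ω i) ≤ N := by
    intro I _ _ ω i i' hi h1 hs
    have := Finset.add_le_sum (f := fun i => ne (ω i)) (s := Finset.univ)
      (fun _ _ => Nat.zero_le _) (Finset.mem_univ i) (Finset.mem_univ i') hi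
    omega
  cases k
  · exact i.elim
  · have hs : ∑ i, ne (ω i) ≤ N + 1 := by
      simp only [Core.Z, bMass_zz, ufB, famS, Core.small] at hZ
      simp only [Finset.sum_const_zero, add_zero, zero_add] at hZ
      exact_mod_cast hZ
    have a0 : 1 ≤ ne (ω (0 : Fin 3)) := bMass_one_le (j := .nS) (by decide) (by decide) (h0 (0 : Fin 3))
    have a1 : 1 ≤ ne (ω (1 : Fin 3)) := bMass_one_le (j := .D) (by decide) (by decide) (h0 (1 : Fin 3))
    by_cases hi : i = (0 : Fin 3)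
    · right
      exact key ω i (1 : Fin 3) (by rw [hi]; exact (by decide : (0 : Fin 3) ≠ 1)) a1 hs
    · right
      exact key ω i (0 : Fin 3) hi a0 hs
  · have hs : ∑ i, ne (ω i) ≤ N + 1 := by
      have h4 : ∑ v, ((ufB (fun _ => 0) 0 1 .P0).core t).g v ω = 0 :=
        Finset.sum_eq_zero fun v _ => v.elim
      simp only [Core.Z, bMass_zz, h4] at hZ
      simp only [ufB, famBP0, Core.free, add_zero, zero_add] at hZ
      exact_mod_cast hZ
    right
    obtain ⟨i', hi'⟩ := exists_ne (α := Fin ((show ℕ from t) + 2)) i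
    exact key ω i i' hi'.symm (bMass_one_le (j := .J) (by decide) (by decide) (h0 i')) hs
  · have hs : 1 + ∑ i, ne (ω i) ≤ N + 1 := by
      have h4 : ∑ v, ((ufB (fun _ => 0) 0 1 .P1).core t).g v ω = 0 :=
        Finset.sum_eq_zero fun v _ => v.elim
      simp only [Core.Z, bMass_zz, h4] at hZ
      simp only [ufB, famBP1, Core.free, add_zero] at hZ
      exact_mod_cast hZ
    right
    have := Finset.single_le_sum (f := fun i => ne (ω i)) (s := Finset.univ)
      (fun _ _ => Nat.zero_le _) (Finset.mem_univ i)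
    omega
  · have hs : ∑ i, ne (ω i) ≤ N + 1 := by
      simp only [Core.Z, bMass_zz, ufB, famBH, Tcore] at hZ
      simp only [ite_self, Finset.sum_const_zero, add_zero, zero_add] at hZ
      exact_mod_cast hZ
    right
    have h3 : 3 ≤ t.1.1 := by simpa using t.2.1.2.1
    have : Nontrivial (Fin t.1.1) := Fin.nontrivial_iff_two_le.2 (by omega)
    have : ∃ e : Fin t.1.1, i ≠ Sum.inl e := by
      rcases i with e | v
      · obtain ⟨e', he'⟩ := exists_ne e
        exact ⟨e', fun h => he' (Sum.inl_injective h).symm⟩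
      · exact ⟨⟨0, by omega⟩, Sum.inr_ne_inl⟩
    obtain ⟨e, he⟩ := this
    exact key ω i (Sum.inl e) he (bMass_one_le (j := .D) (by decide) (by decide) (h0 (Sum.inl e))) hs
  · exact absurd rfl h1
  · exact absurd rfl h2

theorem bMass_step (k : KB) (h1 : k ≠ .R) (h2 : k ≠ .G) (N : ℕ) :
    ∑' ω, lhsB wv x k ω * (if ne ω ≤ N + 1 then 1 else 0) ≤
      bMassR k fun j => ∑' ω, bMassT wv x N j ω := by
  have h := eqnB_net wv x (fun _ => 0) 0 1 0 bMass_evc k h1 h2
    fun p => if p.2 ≤ (N + 1 : ℕ) then 1 else 0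
  simp only [bMass_zz, Nat.cast_le] at h
  rw [h]
  refine ENNReal.tsum_le_tsum fun t => mul_le_mul_right ?_ _
  rw [← tsum_pi_prod fun i => bMassT wv x N (((ufB (fun _ => 0) 0 1 k).core t).cls i)]
  refine ENNReal.tsum_le_tsum fun ω => ?_
  dsimp only
  split_ifs with hZ
  · rw [mul_one]
    by_cases h0 : ∀ i, wgB wv x (((ufB (fun _ => 0) 0 1 k).core t).cls i) (ω i) ≠ 0
    · refine le_of_eq (Finset.prod_congr rfl fun i _ => ?_)
      rw [bMassT, if_pos (bMass_slot k h1 h2 N t ω h0 hZ i)]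
    · push Not at h0
      obtain ⟨i, hi⟩ := h0
      rw [Finset.prod_eq_zero (Finset.mem_univ i) hi]
      exact zero_le
  · simp

theorem bMass_part (j : JB) (h1 : j ≠ .C) (h2 : j ≠ .G) (φ : Om → ℝ≥0∞) :
    ∑' ω, wgB wv x j ω * φ ω = ∑ k, if incB j k then ∑' ω, lhsB wv x k ω * φ ω else 0 := by
  simp only [partB j h1 h2, Finset.sum_mul]
  rw [Summable.tsum_finsetSum fun _ _ => ENNReal.summable]
  refine Finset.sum_congr rfl fun k _ => ?_
  split_ifs <;> simp

theorem bMass_univ (F : KB → ℝ≥0∞) :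
    ∑ k, F k = F .E + F .S + F .P0 + F .P1 + F .H + F .R + F .G := by
  have : (Finset.univ : Finset KB) = {.E, .S, .P0, .P1, .H, .R, .G} := by decide
  rw [this]
  simp [add_assoc]

theorem bMass_C : ∑' ω, wgB wv x .C ω = ∑' R, wv R := by
  have := tsum_onR wv fun _ => 1
  simp only [mul_one] at this
  exact this

theorem bMass_facts (hw : Wcrit w) (hT : TFacts w) : 0 ≤ Tw w ∧ 1 ≤ tauw w ∧ 0 < xw w ∧ 0 < Sw w ∧
    0 ≤ tauw w - Sw w ∧ (tauw w - Sw w) * tauw w * xw w = Sw w := by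
  have h0 : 0 ≤ Tw w := hT.mass.nonneg fun t => NNReal.coe_nonneg _
  obtain ⟨a1, -, a3, a4, a5⟩ := hw.facts h0
  refine ⟨h0, a1, a3, a4, ?_, ?_⟩
  · rw [a5]; positivity
  · rw [a5, Sw]; ring

/-- the bounds on the families given the bounds on the slots -/
theorem bMass_fam (hw : Wcrit w) (hT : TFacts w) {M : JB → ℝ≥0∞}
    (hC : M .C ≤ ENNReal.ofReal (xw w)) (hD : M .D ≤ ENNReal.ofReal (tauw w))
    (hS : M .nS ≤ ENNReal.ofReal (tauw w - Sw w)) (hJ : M .J ≤ ENNReal.ofReal (Sw w + Tw w)) :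
    bMassR .S M ≤ ENNReal.ofReal (Sw w) ∧
    bMassR .P0 M ≤ ENNReal.ofReal ((1 + tauw w) / 2 - 1 - (Sw w + Tw w)) ∧
    bMassR .P1 M ≤ ENNReal.ofReal ((1 + tauw w) / 2 - 1) ∧
    bMassR .H M ≤ ENNReal.ofReal (Tw w) := by
  obtain ⟨a0, a1, a2, a3, a4, a5⟩ := bMass_facts hw hT
  refine ⟨?_, ?_, ?_, ?_⟩
  · rw [bMassR_S, ← a5, ENNReal.ofReal_mul (by positivity), ENNReal.ofReal_mul a4]
    gcongr
  · rw [bMassR_P0]
    refine le_trans (ENNReal.tsum_le_tsum fun j => ?_) ((bMass_exp 2 (a := Sw w + Tw w)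
      (by positivity)).trans_le (le_of_eq ?_))
    · gcongr
    · rw [hw.2]; congr 1; simp [Finset.sum_range_succ]; ring
  · rw [bMassR_P1]
    refine le_trans (ENNReal.tsum_le_tsum fun j => ?_) ((bMass_exp 1 (a := Sw w + Tw w)
      (by positivity)).trans_le (le_of_eq ?_))
    · gcongr
    · rw [hw.2]; congr 1; simp
  · rw [bMassR_H, ← hT.mass.tsum_eq,
      ENNReal.ofReal_tsum_of_nonneg (fun t => NNReal.coe_nonneg _) hT.mass.summable]
    refine ENNReal.tsum_le_tsum fun t => ?_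
    rw [wTw, ← bMass_wT t]
    gcongr

theorem bMass_ind (hw : Wcrit w) (hT : TFacts w) (hv : ∑' R, wv R ≤ ENNReal.ofReal (xw w)) (N : ℕ) :
    ∑' ω, wgB wv x .D ω * (if ne ω ≤ N then 1 else 0) ≤ ENNReal.ofReal (tauw w) ∧
    ∑' ω, wgB wv x .nS ω * (if ne ω ≤ N then 1 else 0) ≤ ENNReal.ofReal (tauw w - Sw w) ∧
    ∑' ω, wgB wv x .J ω * (if ne ω ≤ N then 1 else 0) ≤ ENNReal.ofReal (Sw w + Tw w) ∧
    ∑' ω, wgB wv x .Dt ω * (if ne ω ≤ N then 1 else 0) ≤
      ENNReal.ofReal ((1 + tauw w) / 2 - 1) := by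
  obtain ⟨a0, a1, a2, a3, a4, a5⟩ := bMass_facts hw hT
  induction N with
  | zero =>
    have h : ∀ j : JB, j ≠ .C → j ≠ .G →
        ∑' ω, wgB wv x j ω * (if ne ω ≤ 0 then 1 else 0) = 0 := by
      intro j h1 h2
      refine ENNReal.tsum_eq_zero.2 fun ω => ?_
      by_cases h0 : wgB wv x j ω = 0
      · rw [h0, zero_mul]
      · have := bMass_one_le h1 h2 h0
        rw [if_neg (by omega), mul_zero]
    rw [h .D (by decide) (by decide), h .nS (by decide) (by decide), h .J (by decide) (by decide),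
      h .Dt (by decide) (by decide)]
    exact ⟨zero_le, zero_le, zero_le, zero_le⟩
  | succ N ih =>
    have hT' : ∀ j : JB, j ≠ .C → ∑' ω, bMassT wv x N j ω =
        ∑' ω, wgB wv x j ω * (if ne ω ≤ N then 1 else 0) := by
      intro j hj
      refine tsum_congr fun ω => ?_
      simp only [bMassT, hj, false_or]
      split_ifs <;> simp
    have hC : ∑' ω, bMassT wv x N .C ω ≤ ENNReal.ofReal (xw w) := by
      simp only [bMassT, true_or, if_true]
      rw [bMass_C]; exact hv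
    obtain ⟨b1, b2, b3, b4⟩ := bMass_fam hw hT (M := fun j => ∑' ω, bMassT wv x N j ω) hC
      ((hT' _ (by decide)).trans_le ih.1)
      ((hT' _ (by decide)).trans_le ih.2.1)
      ((hT' _ (by decide)).trans_le ih.2.2.1)
    have cE := (bMass_step (wv := wv) (x := x) .E (by decide) (by decide) N).trans_eq
      ((bMassR_E _).trans ENNReal.ofReal_one.symm)
    have cS := (bMass_step (wv := wv) (x := x) .S (by decide) (by decide) N).trans b1
    have cP0 := (bMass_step (wv := wv) (x := x) .P0 (by decide) (by decide) N).trans b2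
    have cP1 := (bMass_step (wv := wv) (x := x) .P1 (by decide) (by decide) N).trans b3
    have cH := (bMass_step (wv := wv) (x := x) .H (by decide) (by decide) N).trans b4
    have e1 : 0 ≤ (1 + tauw w) / 2 - 1 - (Sw w + Tw w) := by
      rw [hw.2]; linarith [Real.add_one_le_exp (Sw w + Tw w)]
    have e2 : 0 ≤ (1 + tauw w) / 2 - 1 := by linarith
    refine ⟨?_, ?_, ?_, ?_⟩
    · rw [bMass_part .D (by decide) (by decide), bMass_univ]
      simp only [incB, if_true, Bool.false_eq_true, if_false, add_zero]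
      refine (add_le_add (add_le_add (add_le_add (add_le_add cE cS) cP0) cP1) cH).trans (le_of_eq ?_)
      rw [← ENNReal.ofReal_add (by positivity) (by positivity),
        ← ENNReal.ofReal_add (by positivity) e1, ← ENNReal.ofReal_add (by positivity) e2,
        ← ENNReal.ofReal_add (by positivity) a0]
      congr 1; ring
    · rw [bMass_part .nS (by decide) (by decide), bMass_univ]
      simp only [incB, if_true, Bool.false_eq_true, if_false, add_zero]
      refine (add_le_add (add_le_add (add_le_add cE cP0) cP1) cH).trans (le_of_eq ?_)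
      rw [← ENNReal.ofReal_add (by positivity) e1, ← ENNReal.ofReal_add (by positivity) e2,
        ← ENNReal.ofReal_add (by positivity) a0]
      congr 1; ring
    · rw [bMass_part .J (by decide) (by decide), bMass_univ]
      simp only [incB, if_true, Bool.false_eq_true, if_false, add_zero, zero_add]
      refine (add_le_add cS cH).trans (le_of_eq ?_)
      rw [← ENNReal.ofReal_add (by positivity) a0]
    · rw [bMass_part .Dt (by decide) (by decide), bMass_univ]
      simp only [incB, if_true, Bool.false_eq_true, if_false, add_zero, zero_add]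
      refine (add_le_add (add_le_add cS cP0) cH).trans (le_of_eq ?_)
      rw [← ENNReal.ofReal_add (by positivity) e1, ← ENNReal.ofReal_add (by positivity) a0]
      congr 1; ring

theorem bMass_lim {W : Om → ℝ≥0∞} {c : ℝ≥0∞}
    (h : ∀ N : ℕ, ∑' ω, W ω * (if ne ω ≤ N then 1 else 0) ≤ c) : ∑' ω, W ω ≤ c := by
  rw [ENNReal.tsum_eq_iSup_sum]
  refine iSup_le fun s => le_trans ?_ (h (s.sup ne))
  refine le_trans (le_of_eq (Finset.sum_congr rfl fun ω hω => ?_)) (ENNReal.sum_le_tsum s)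
  rw [if_pos (Finset.le_sup hω), mul_one]

theorem massB_le (hw : Wcrit w) (hT : TFacts w) (hv : ∑' R, wv R ≤ ENNReal.ofReal (xw w)) :
    ∑' ω, wgB wv x .D ω ≤ ENNReal.ofReal (tauw w) ∧
    ∑' ω, wgB wv x .nS ω ≤ ENNReal.ofReal (tauw w - Sw w) ∧
    ∑' ω, wgB wv x .J ω ≤ ENNReal.ofReal (Sw w + Tw w) ∧
    ∑' ω, wgB wv x .Dt ω ≤ ENNReal.ofReal ((1 + tauw w) / 2 - 1) :=
  ⟨bMass_lim fun N => (bMass_ind hw hT hv N).1, bMass_lim fun N => (bMass_ind hw hT hv N).2.1,
    bMass_lim fun N => (bMass_ind hw hT hv N).2.2.1,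
    bMass_lim fun N => (bMass_ind hw hT hv N).2.2.2⟩

/-- the real-variable uniqueness argument -/
theorem bMass_real {c τ S T Tz d ns j h : ℝ} (hc : 0 < c) (hτ : 1 ≤ τ) (hd0 : 0 ≤ d) (hd : d ≤ τ)
    (hS : S = c * τ ^ 2 / (1 + c * τ)) (hTz : 0 ≤ Tz) (hcrit : (1 + τ) / 2 = Real.exp (S + T))
    (hsub : (1 + τ) ^ 2 * ((2 * c * τ + c ^ 2 * τ ^ 2) / (1 + c * τ) ^ 2 + 2 * Tz) < 1)
    (hh : T - h ≤ Tz * (τ - d))
    (e1 : d = 1 + ns * d * c + (Real.exp j - (1 + j)) + (Real.exp j - 1) + h)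
    (e2 : ns = 1 + (Real.exp j - (1 + j)) + (Real.exp j - 1) + h) (e3 : j = ns * d * c + h) :
    d = τ ∧ ns = τ - S ∧ j = S + T := by
  have p1 : 0 < 1 + c * d := by positivity
  have p2 : 0 < 1 + c * τ := by positivity
  have hns : ns = d / (1 + c * d) := by
    rw [eq_div_iff p1.ne']; linarith
  have hs : ns * d * c = c * d ^ 2 / (1 + c * d) := by rw [hns]; ring
  have hde : d = 2 * Real.exp j - 1 := by linarith
  set SD := (2 * c * τ + c ^ 2 * τ ^ 2) / (1 + c * τ) ^ 2 with hSD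
  have hSD0 : 0 ≤ SD := by positivity
  have q1 : S - ns * d * c ≤ SD * (τ - d) := by
    rw [hs, hS, hSD, div_sub_div _ _ p2.ne' p1.ne', div_mul_eq_mul_div,
      div_le_div_iff₀ (by positivity) (by positivity)]
    have : (2 * c * τ + c ^ 2 * τ ^ 2) * (τ - d) * ((1 + c * τ) * (1 + c * d)) -
        (c * τ ^ 2 * (1 + c * d) - (1 + c * τ) * (c * d ^ 2)) * (1 + c * τ) ^ 2 =
        c * (τ - d) ^ 2 * (1 + c * τ) := by ring
    have h2 : 0 ≤ c * (τ - d) ^ 2 * (1 + c * τ) := by positivity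
    linarith
  have q2 : Real.exp (S + T) - Real.exp j ≤ Real.exp (S + T) * (S + T - j) := by
    have h1 := Real.add_one_le_exp (j - (S + T))
    have h2 : Real.exp j = Real.exp (S + T) * Real.exp (j - (S + T)) := by
      rw [← Real.exp_add]; congr 1; ring
    have h3 := mul_le_mul_of_nonneg_left h1 (Real.exp_pos (S + T)).le
    linarith
  have q3 : τ - d ≤ (1 + τ) * ((SD + Tz) * (τ - d)) := by
    have h1 : S + T - j ≤ (SD + Tz) * (τ - d) := by linarith
    have h2 := mul_le_mul_of_nonneg_left h1 (show 0 ≤ 1 + τ by linarith)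
    rw [← hcrit] at q2
    linarith
  have q4 : (1 + τ) * (SD + Tz) < 1 := by
    refine lt_of_le_of_lt ?_ hsub
    have h1 : (1 + τ) ≤ (1 + τ) ^ 2 := by nlinarith
    gcongr
    linarith
  have hdτ : d = τ := by
    by_contra hne
    have hlt : 0 < τ - d := sub_pos.2 (lt_of_le_of_ne hd hne)
    have := mul_lt_mul_of_pos_right q4 hlt
    linarith
  have hj' : j = S + T := by
    apply Real.exp_injective
    rw [← hcrit]; linarith
  refine ⟨hdτ, ?_, hj'⟩
  rw [hns, hdτ, hS]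
  field_simp
  ring

theorem massB_eq (hw : Wcrit w) (hT : TFacts w) (hv : ∑' R, wv R = ENNReal.ofReal (xw w)) :
    ∑' ω, wgB wv x .D ω = ENNReal.ofReal (tauw w) ∧
    ∑' ω, wgB wv x .nS ω = ENNReal.ofReal (tauw w - Sw w) ∧
    ∑' ω, wgB wv x .J ω = ENNReal.ofReal (Sw w + Tw w) ∧
    ∑' ω, wgB wv x .Dt ω = ENNReal.ofReal ((1 + tauw w) / 2 - 1) := by
  obtain ⟨a0, a1, a2, a3, a4, a5⟩ := bMass_facts hw hT
  obtain ⟨b1, b2, b3, b4⟩ := massB_le (x := x) hw hT hv.le
  set M : JB → ℝ≥0∞ := fun j => ∑' ω, wgB wv x j ω with hM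
  have hC : M .C = ENNReal.ofReal (xw w) := bMass_C.trans hv
  obtain ⟨d, hd0, hd⟩ : ∃ d : ℝ, 0 ≤ d ∧ M .D = ENNReal.ofReal d :=
    ⟨_, ENNReal.toReal_nonneg, (ENNReal.ofReal_toReal (ne_top_of_le_ne_top ENNReal.ofReal_ne_top b1)).symm⟩
  obtain ⟨ns, hns0, hns⟩ : ∃ d : ℝ, 0 ≤ d ∧ M .nS = ENNReal.ofReal d :=
    ⟨_, ENNReal.toReal_nonneg, (ENNReal.ofReal_toReal (ne_top_of_le_ne_top ENNReal.ofReal_ne_top b2)).symm⟩
  obtain ⟨j, hj0, hj⟩ : ∃ d : ℝ, 0 ≤ d ∧ M .J = ENNReal.ofReal d :=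
    ⟨_, ENNReal.toReal_nonneg, (ENNReal.ofReal_toReal (ne_top_of_le_ne_top ENNReal.ofReal_ne_top b3)).symm⟩
  have hdτ : d ≤ tauw w := by
    have : ENNReal.ofReal d ≤ ENNReal.ofReal (tauw w) := hd ▸ b1
    exact (ENNReal.ofReal_le_ofReal_iff (by linarith)).1 this
  have hτ : 0 < tauw w := by linarith
  -- the cores
  have hw1 : ∀ t : TT, (wT (xw w).toNNReal d.toNNReal t : ℝ) =
      (wTw w t : ℝ) * (d / tauw w) ^ t.1.1 := by
    intro t
    simp only [wTw, wT]
    push_cast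
    rw [Real.coe_toNNReal _ hd0, Real.coe_toNNReal _ hτ.le, div_pow]
    field_simp
  have hr0 : 0 ≤ d / tauw w := by positivity
  have hr1 : d / tauw w ≤ 1 := (div_le_one hτ).2 hdτ
  have hsum : Summable fun t : TT => (wTw w t : ℝ) * (d / tauw w) ^ t.1.1 :=
    Summable.of_nonneg_of_le (fun t => by positivity)
      (fun t => mul_le_of_le_one_right (NNReal.coe_nonneg _) (pow_le_one₀ hr0 hr1))
      hT.mass.summable
  set h : ℝ := ∑' t : TT, (wTw w t : ℝ) * (d / tauw w) ^ t.1.1 with hh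
  have hh0 : 0 ≤ h := tsum_nonneg fun t => by positivity
  have hTh : Tw w - h ≤ (∑' t, (wTw w t : ℝ) * posm t) / tauw w * (tauw w - d) := by
    have e : (∑' t, (wTw w t : ℝ) * posm t) / tauw w * (tauw w - d) =
        ∑' t, (wTw w t : ℝ) * posm t * (1 - d / tauw w) := by
      rw [tsum_mul_right]; field_simp
    rw [e, ← hT.mass.tsum_eq, hh, ← hT.mass.summable.tsum_sub hsum]
    refine (hT.mass.summable.sub hsum).tsum_le_tsum (fun t => ?_) (hT.sum1.mul_right _)
    have hb := one_add_mul_le_pow (a := d / tauw w - 1) (by linarith) t.1.1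
    rw [show 1 + (d / tauw w - 1) = d / tauw w by ring] at hb
    have := mul_le_mul_of_nonneg_left hb (NNReal.coe_nonneg (wTw w t))
    simp only [posm]
    linarith
  -- masses of the families
  have fam : ∀ k : KB, k ≠ .R → k ≠ .G → ∑' ω, lhsB wv x k ω * 1 = bMassR k M := by
    intro k h1 h2
    simp only [mul_one]
    exact (eqnB_net wv x (fun _ => 0) 0 1 0 bMass_evc k h1 h2).mass
  have cE : ∑' ω, lhsB wv x .E ω * 1 = ENNReal.ofReal 1 := by
    rw [fam .E (by decide) (by decide), bMassR_E, ENNReal.ofReal_one]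
  have cS : ∑' ω, lhsB wv x .S ω * 1 = ENNReal.ofReal (ns * d * xw w) := by
    rw [fam .S (by decide) (by decide), bMassR_S, hns, hd, hC, ENNReal.ofReal_mul (by positivity),
      ENNReal.ofReal_mul hns0]
  have cP0 : ∑' ω, lhsB wv x .P0 ω * 1 = ENNReal.ofReal (Real.exp j - (1 + j)) := by
    rw [fam .P0 (by decide) (by decide), bMassR_P0, hj, bMass_exp 2 hj0]
    congr 1; simp [Finset.sum_range_succ]
  have cP1 : ∑' ω, lhsB wv x .P1 ω * 1 = ENNReal.ofReal (Real.exp j - 1) := by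
    rw [fam .P1 (by decide) (by decide), bMassR_P1, hj, bMass_exp 1 hj0]
    congr 1; simp
  have cH : ∑' ω, lhsB wv x .H ω * 1 = ENNReal.ofReal h := by
    rw [fam .H (by decide) (by decide), bMassR_H, hd, hC, hh,
      ENNReal.ofReal_tsum_of_nonneg (fun t => by positivity) hsum]
    refine tsum_congr fun t => ?_
    rw [bMass_wT t, hw1]
  have e1 : 0 ≤ Real.exp j - (1 + j) := by linarith [Real.add_one_le_exp j]
  have e2 : 0 ≤ Real.exp j - 1 := by linarith
  have part : ∀ i : JB, i ≠ .C → i ≠ .G →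
      M i = ∑ k, if incB i k then ∑' ω, lhsB wv x k ω * 1 else 0 := by
    intro i h1 h2
    rw [← bMass_part i h1 h2]
    simp only [hM, mul_one]
  have dD := part .D (by decide) (by decide)
  have dS := part .nS (by decide) (by decide)
  have dJ := part .J (by decide) (by decide)
  have dT := part .Dt (by decide) (by decide)
  rw [bMass_univ] at dD dS dJ dT
  simp only [incB, if_true, Bool.false_eq_true, if_false, add_zero, zero_add, cE, cS, cP0, cP1,
    cH] at dD dS dJ dT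
  rw [hd, ← ENNReal.ofReal_add (by positivity) (by positivity),
    ← ENNReal.ofReal_add (by positivity) e1, ← ENNReal.ofReal_add (by positivity) e2,
    ← ENNReal.ofReal_add (by positivity) hh0,
    ENNReal.ofReal_eq_ofReal_iff hd0 (by positivity)] at dD
  rw [hns, ← ENNReal.ofReal_add (by positivity) e1, ← ENNReal.ofReal_add (by positivity) e2,
    ← ENNReal.ofReal_add (by positivity) hh0,
    ENNReal.ofReal_eq_ofReal_iff hns0 (by positivity)] at dS
  rw [hj, ← ENNReal.ofReal_add (by positivity) hh0,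
    ENNReal.ofReal_eq_ofReal_iff hj0 (by positivity)] at dJ
  rw [← ENNReal.ofReal_add (by positivity) e1, ← ENNReal.ofReal_add (by positivity) hh0] at dT
  obtain ⟨r1, r2, r3⟩ := bMass_real a2 a1 hd0 hdτ rfl
    (div_nonneg (tsum_nonneg fun t => mul_nonneg (NNReal.coe_nonneg _) (Nat.cast_nonneg _)) hτ.le)
    hw.2 hT.sub hTh dD dS dJ
  refine ⟨hd.trans (by rw [r1]), hns.trans (by rw [r2]; rfl), hj.trans (by rw [r3]; rfl),
    dT.trans ?_⟩
  congr 1
  rw [hw.2]
  have r3' : j = Sw w + Tw w := r3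
  rw [← r3']
  linarith

end Pool.Agent.Lib.MP_77dff5_pr
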