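import Pool.Agent.Lib.MP_77dff5_pr.UDefs
import Pool.Agent.Lib.MP_77dff5_pr.Family
import Pool.Agent.Lib.MP_77dff5_pr.WinH
import Pool.Agent.Lib.MP_77dff5_pr.JumpC
import Pool.Agent.Lib.MP_77dff5_pr.KernelD
import Pool.Agent.Lib.MP_77dff5_pr.LinA

/-! Systems: tails of the size and square integrability. -/

set_option autoImplicit false
set_option linter.unusedSectionVars false

namespace Pool.Agent.Lib.MP_77dff5_pr

open MeasureTheory ProbabilityTheory Filter Topology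
open scoped ENNReal NNReal

theorem sysA_meas (q : ℕ → Prop) : MeasurableSet {p : ℕ × ℝ | q p.1} :=
  measurable_fst (t := {n | q n}) MeasurableSet.of_discrete

/-- domination summed over all sizes -/
theorem sysA_dom {ι : Type} [Fintype ι] {lam mu : ι → Measure (ℕ × ℝ)}
    (h : ∀ i, Dom (lam i) (mu i)) : ∃ b : ℝ, ∀ ε : ℝ, 0 < ε → ∃ n0 : ℕ,
      ∀ Ψ Ψ' : ℕ × ℝ → ℝ≥0∞, Measurable Ψ → Measurable Ψ' →
        (∀ (n : ℕ) (u v : ℝ), |v| ≤ b → Ψ (n, u + v) ≤ Ψ' (n, u)) → ∀ i,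
        ∫⁻ p, Ψ p ∂lam i ≤ ∫⁻ p in {p | p.1 < n0}, Ψ p ∂lam i +
          ENNReal.ofReal (1 + ε) * ∫⁻ p, Ψ' p ∂mu i := by
  choose b hb using h
  refine ⟨∑ i, |b i|, fun ε hε => ?_⟩
  obtain ⟨n0, hn0⟩ := eventually_atTop.mp (eventually_all.mpr fun i => hb i ε hε)
  refine ⟨n0, fun Ψ Ψ' hΨ hΨ' hle i => ?_⟩
  have hm : ∀ n : ℕ, MeasurableSet {p : ℕ × ℝ | p.1 = n} := fun n =>
    measurable_fst (measurableSet_singleton n)
  have hlt : MeasurableSet {p : ℕ × ℝ | p.1 < n0} := sysA_meas (· < n0)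
  have hU : {p : ℕ × ℝ | p.1 < n0}ᶜ = ⋃ n : ℕ, {p : ℕ × ℝ | p.1 = n + n0} := by
    ext p
    simp only [Set.mem_compl_iff, Set.mem_ofPred_eq, not_lt, Set.mem_iUnion]
    exact ⟨fun h => ⟨p.1 - n0, by omega⟩, fun ⟨n, h⟩ => by omega⟩
  have hd : Pairwise (Function.onFun Disjoint fun n : ℕ => {p : ℕ × ℝ | p.1 = n + n0}) := by
    intro n m hnm
    refine Set.disjoint_left.mpr fun p h1 h2 => hnm ?_
    simp only [Set.mem_ofPred_eq] at h1 h2
    omega
  have hc : ∀ (μ : Measure (ℕ × ℝ)) (Φ : ℕ × ℝ → ℝ≥0∞) (n : ℕ),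
      ∫⁻ p in {p | p.1 = n}, Φ p ∂μ = ∫⁻ p in {p | p.1 = n}, Φ (n, p.2) ∂μ := fun μ Φ n =>
    setLIntegral_congr_fun (hm n) fun p hp => by
      have hp' : p.1 = n := hp
      simp only [← hp']
  rw [← lintegral_add_compl Ψ hlt]
  refine add_le_add le_rfl ?_
  refine le_trans ?_ (mul_le_mul_right (setLIntegral_le_lintegral {p : ℕ × ℝ | p.1 < n0}ᶜ Ψ') _)
  rw [hU, lintegral_iUnion (fun n => hm _) hd, lintegral_iUnion (fun n => hm _) hd,
    ← ENNReal.tsum_mul_left]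
  refine ENNReal.tsum_le_tsum fun n => ?_
  rw [hc (lam i), hc (mu i)]
  exact hn0 (n + n0) (by omega) i (fun u => Ψ (n + n0, u)) (fun u => Ψ' (n + n0, u))
    (hΨ.comp measurable_prodMk_left) (hΨ'.comp measurable_prodMk_left) fun u v hv =>
      hle _ u v (hv.trans ((le_abs_self _).trans
        (Finset.single_le_sum (f := fun i => |b i|) (fun _ _ => abs_nonneg _) (Finset.mem_univ i))))

theorem sysA_pow {x : ℝ} {k : ℕ} (hx : x = k) : (x + 1) ^ 2 ≤ (x + 1) + 4 * x ^ 6 := by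
  rcases Nat.eq_zero_or_pos k with rfl | hk
  · simp [hx]
  · have h1 : (1 : ℝ) ≤ x := by
      rw [hx]
      exact_mod_cast hk
    have h2 : x ^ 2 ≤ x ^ 6 := pow_le_pow_right₀ h1 (by norm_num)
    nlinarith

variable {Ω J K : Type} [Countable Ω] [MeasurableSpace Ω] [DiscreteMeasurableSpace Ω] [Fintype J]
  [Fintype K] {ν : J → Measure Ω} {s : Ω → ℕ} {z : Ω → ℝ} {F : K → Fam Ω J} {c : J → K → ℝ≥0}
  {k₀ : K} {j₀ : J} {Δ : ℕ} {B A c₀ : ℝ}

theorem sysA_acoef (G : Fam Ω J) (j : J) : 0 ≤ G.acoef j :=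
  tsum_nonneg fun t => mul_nonneg (G.w t).coe_nonneg (Nat.cast_nonneg _)

theorem sysA_src (Ψ : ℕ × ℝ → ℝ≥0∞) (i : J) :
    ∫⁻ p, Ψ p ∂src F c ν s z i = ∑ k, (c i k : ℝ≥0∞) * ∫⁻ p, Ψ p ∂(F k).law ν s z := by
  rw [src, lintegral_finsetSum_measure]
  exact Finset.sum_congr rfl fun k _ => lintegral_smul_measure _ _

/-- the contraction argument -/
theorem sysA_close (H : SysOK ν s z F c k₀ j₀ Δ B) : ∃ ε C : ℝ, 0 < ε ∧
    ∀ (u : J → ℝ) (X : K → ℝ≥0∞) (e : ℝ), 0 ≤ e → (∀ j, 0 ≤ u j) →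
      (∀ k, X k ≤ ENNReal.ofReal ((1 + ε) ^ 2 * ∑ j, (F k).acoef j * u j + e)) →
      (∀ i, ENNReal.ofReal (u i) ≤
        ENNReal.ofReal e + ENNReal.ofReal (1 + ε) * ∑ k, (c i k : ℝ≥0∞) * X k) →
      ∀ i, u i ≤ C * e := by
  classical
  obtain ⟨m, hm, hl⟩ := H.lyap
  have hA : ∀ i j, 0 ≤ sysA F c i j := fun i j =>
    Finset.sum_nonneg fun k _ => mul_nonneg (c i k).coe_nonneg (sysA_acoef _ j)
  obtain ⟨ε, C, hε, hC, hcon⟩ := contr_bound (sysA F c) hA m hm hl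
  set T := ∑ i, ∑ j, sysA F c i j with hT
  have hT0 : 0 ≤ T := Finset.sum_nonneg fun i _ => Finset.sum_nonneg fun j _ => hA i j
  have hAT : ∀ i j, sysA F c i j ≤ T := fun i j =>
    (Finset.single_le_sum (fun j _ => hA i j) (Finset.mem_univ j)).trans
      (Finset.single_le_sum (f := fun i => ∑ j, sysA F c i j)
        (fun i _ => Finset.sum_nonneg fun j _ => hA i j) (Finset.mem_univ i))
  set U := ∑ i, ∑ k, (c i k : ℝ) with hU
  have hU0 : 0 ≤ U := Finset.sum_nonneg fun i _ => Finset.sum_nonneg fun k _ => (c i k).coe_nonneg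
  have hcU : ∀ i, ∑ k, (c i k : ℝ) ≤ U := fun i =>
    Finset.single_le_sum (f := fun i => ∑ k, (c i k : ℝ))
      (fun i _ => Finset.sum_nonneg fun k _ => (c i k).coe_nonneg) (Finset.mem_univ i)
  set δ := min 1 (ε / (7 * (T + 1))) with hδ
  have hδ0 : 0 < δ := lt_min one_pos (by positivity)
  have hδ1 : δ ≤ 1 := min_le_left _ _
  have hδ2 : δ * (7 * (T + 1)) ≤ ε := (le_div_iff₀ (by positivity)).mp (min_le_right _ _)
  have hδ3 : (1 + δ) ^ 3 ≤ 1 + 7 * δ := by nlinarith [mul_le_mul hδ1 hδ1 hδ0.le zero_le_one]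
  refine ⟨δ, C * (1 + 2 * U), hδ0, fun u X e he hu hX hi i => ?_⟩
  rw [mul_assoc]
  refine hcon u _ (by positivity) (fun i => ?_) i
  have hv : ∀ k, 0 ≤ (1 + δ) ^ 2 * ∑ j, (F k).acoef j * u j + e := fun k =>
    add_nonneg (mul_nonneg (by positivity)
      (Finset.sum_nonneg fun j _ => mul_nonneg (sysA_acoef _ j) (hu j))) he
  have hs0 : 0 ≤ ∑ k, (c i k : ℝ) * ((1 + δ) ^ 2 * ∑ j, (F k).acoef j * u j + e) :=
    Finset.sum_nonneg fun k _ => mul_nonneg (c i k).coe_nonneg (hv k)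
  have h1 : ENNReal.ofReal (u i) ≤ ENNReal.ofReal
      (e + (1 + δ) * ∑ k, (c i k : ℝ) * ((1 + δ) ^ 2 * ∑ j, (F k).acoef j * u j + e)) := by
    rw [ENNReal.ofReal_add he (by positivity), ENNReal.ofReal_mul (by positivity),
      ENNReal.ofReal_sum_of_nonneg fun k _ => mul_nonneg (c i k).coe_nonneg (hv k)]
    refine (hi i).trans (add_le_add le_rfl (mul_le_mul_right (Finset.sum_le_sum fun k _ => ?_) _))
    rw [ENNReal.ofReal_mul (c i k).coe_nonneg, ENNReal.ofReal_coe_nnreal]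
    exact mul_le_mul_right (hX k) _
  have h2 := (ENNReal.ofReal_le_ofReal_iff (by positivity)).mp h1
  have h3 : (1 + δ) * ∑ k, (c i k : ℝ) * ((1 + δ) ^ 2 * ∑ j, (F k).acoef j * u j + e) =
      ∑ j, (1 + δ) ^ 3 * sysA F c i j * u j + (1 + δ) * (∑ k, (c i k : ℝ)) * e := by
    simp only [sysA, mul_add, Finset.sum_add_distrib, Finset.mul_sum, Finset.sum_mul]
    rw [Finset.sum_comm]
    congr 1
    · exact Finset.sum_congr rfl fun j _ => Finset.sum_congr rfl fun k _ => by ring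
    · exact Finset.sum_congr rfl fun k _ => by ring
  have h4 : ∑ j, (1 + δ) ^ 3 * sysA F c i j * u j ≤ ∑ j, (sysA F c i j + ε) * max (u j) 0 := by
    refine Finset.sum_le_sum fun j _ => ?_
    rw [max_eq_left (hu j)]
    refine mul_le_mul_of_nonneg_right ?_ (hu j)
    have := mul_le_mul_of_nonneg_right hδ3 (hA i j)
    have := mul_le_mul_of_nonneg_left (hAT i j) hδ0.le
    nlinarith
  have h5 : (1 + δ) * (∑ k, (c i k : ℝ)) * e ≤ 2 * U * e :=
    mul_le_mul_of_nonneg_right (mul_le_mul (by linarith) (hcU i)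
      (Finset.sum_nonneg fun k _ => (c i k).coe_nonneg) (by norm_num)) he
  linarith

theorem sysA_mean (G : Core Ω J) : 0 ≤ G.mean ν s :=
  add_nonneg (Nat.cast_nonneg _)
    (Finset.sum_nonneg fun _ _ => integral_nonneg fun _ => Nat.cast_nonneg _)

theorem sysA_light {G : Fam Ω J} (hG : G.Good Δ B)
    (h6 : Summable fun t => (G.w t : ℝ) * ((G.core t).k : ℝ) ^ 6) :
    Summable fun t => (G.w t : ℝ) * (((G.core t).k : ℝ) + 1) ^ 2 := by
  refine (hG.sum1.add (h6.mul_left 4)).of_nonneg_of_le (fun t => by positivity) fun t => ?_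
  have := mul_le_mul_of_nonneg_left (sysA_pow (rfl : ((G.core t).k : ℝ) = _)) (G.w t).coe_nonneg
  linarith

/-- the deterministic terms of the Laplace transforms -/
theorem sysA_err1 (H : SysOK ν s z F c k₀ j₀ Δ B) : ∃ E : ℝ, 0 ≤ E ∧ ∀ l : ℝ, 0 < l → l ≤ 1 →
    ∀ k, ∑' t, ((F k).w t : ℝ) * (Real.exp (-(l * ((F k).core t).mean ν s)) - 1 +
      l * ((F k).core t).mean ν s) ≤ E * l ^ (3 / 2 : ℝ) := by
  have h1 : ∀ k, ∃ E : ℝ, ∀ l : ℝ, 0 < l → l ≤ 1 →
      ∑' t, ((F k).w t : ℝ) * (Real.exp (-(l * ((F k).core t).mean ν s)) - 1 +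
        l * ((F k).core t).mean ν s) ≤ E * l ^ (3 / 2 : ℝ) := by
    intro k
    by_cases hk : k = k₀
    · subst hk
      exact (Fam.heavy_RL H.slots H.heavy H.win).1
    · obtain ⟨C, hC⟩ := Core.abs_L_le H.slots Δ B
      have hs := sysA_light (H.good k) (H.light k hk)
      refine ⟨C ^ 2 * ∑' t, ((F k).w t : ℝ) * ((((F k).core t).k : ℝ) + 1) ^ 2,
        fun l hl hl1 => ?_⟩
      have hl2 : l ^ 2 ≤ l ^ (3 / 2 : ℝ) := by
        have := famB_sq_le (t := l) (by rwa [abs_of_pos hl])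
        rwa [abs_of_pos hl] at this
      rw [← tsum_mul_left, ← tsum_mul_right]
      refine Real.tsum_le_of_sum_le (fun t => mul_nonneg ((F k).w t).coe_nonneg
        (winH_exp_le (mul_nonneg hl.le (sysA_mean _))).1) fun S => ?_
      refine le_trans (Finset.sum_le_sum fun t _ => ?_) (((hs.mul_left _).mul_right _).sum_le_tsum
        S fun t _ => by positivity)
      have a1 := (winH_exp_le (mul_nonneg hl.le (sysA_mean (ν := ν) (s := s) ((F k).core t)))).2.2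
      have a2 := pow_le_pow_left₀ (sysA_mean _) (hC _ ((H.good k).good t)).2 2
      have a3 := mul_le_mul hl2 a2 (sq_nonneg _) (by positivity)
      have a4 := mul_le_mul_of_nonneg_left (a1.trans ((mul_pow _ _ _).le.trans a3))
        ((F k).w t).coe_nonneg
      exact a4.trans (le_of_eq (by ring))
  choose E hE using h1
  refine ⟨∑ k, |E k|, Finset.sum_nonneg fun _ _ => abs_nonneg _, fun l hl hl1 k => ?_⟩
  refine (hE k l hl hl1).trans (mul_le_mul_of_nonneg_right ((le_abs_self _).trans ?_)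
    (by positivity))
  exact Finset.single_le_sum (f := fun k => |E k|) (fun _ _ => abs_nonneg _) (Finset.mem_univ k)

theorem sysA_RL (μ : Measure (ℕ × ℝ)) (hi : Integrable (fun p => (p.1 : ℝ)) μ) {l : ℝ}
    (hl : 0 ≤ l) : 0 ≤ RL μ l ∧ ENNReal.ofReal (RL μ l) =
      ∫⁻ p, ENNReal.ofReal (Real.exp (-(l * p.1)) - 1 + l * p.1) ∂μ := by
  have h0 : ∀ p : ℕ × ℝ, 0 ≤ Real.exp (-(l * p.1)) - 1 + l * p.1 := fun p =>
    (famB_exp_le (by positivity)).1
  refine ⟨integral_nonneg h0, ofReal_integral_eq_lintegral_ofReal ?_ (Eventually.of_forall h0)⟩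
  refine (hi.const_mul l).mono' (Continuous.aestronglyMeasurable (by fun_prop))
    (Eventually.of_forall fun p => ?_)
  rw [Real.norm_of_nonneg (h0 p)]
  exact (famB_exp_le (by positivity)).2

theorem sysA_low (μ : Measure Ω) [IsProbabilityMeasure μ] {Ψ : ℕ × ℝ → ℝ≥0∞} (hΨ : Measurable Ψ)
    (n0 : ℕ) {e : ℝ≥0∞} (h : ∀ᵐ ω ∂μ, s ω < n0 → Ψ (s ω, z ω) ≤ e) :
    ∫⁻ p in {p | p.1 < n0}, Ψ p ∂slaw μ s z ≤ e := by
  have hlt : MeasurableSet {p : ℕ × ℝ | p.1 < n0} := sysA_meas (· < n0)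
  rw [slaw, setLIntegral_map hlt hΨ (measurable_of_countable _)]
  refine (setLIntegral_mono_ae (g := fun _ => e) aemeasurable_const h).trans ?_
  rw [setLIntegral_const]
  exact mul_le_of_le_one_right' prob_le_one

theorem SysOK.t1 (H : SysOK ν s z F c k₀ j₀ Δ B)
    (hD : ∀ j, Dom (slaw (ν j) s z) (src F c ν s z j)) : ∃ A : ℝ, T1 ν s A := by
  obtain ⟨ε, C, hε, hcl⟩ := sysA_close H
  obtain ⟨b, hb⟩ := sysA_dom hD
  obtain ⟨n0, hn0⟩ := hb ε hε
  obtain ⟨E, hE0, hE⟩ := sysA_err1 H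
  refine T1_of_RL H.slots (K := C * (E + n0 ^ 2)) fun j => ?_
  have e1 : ∀ᶠ l : ℝ in 𝓝[>] 0, l ≤ 1 := nhdsWithin_le_nhds (ge_mem_nhds one_pos)
  filter_upwards [eventually_all.mpr fun k => Fam.RL_law H.slots (H.good k), e1,
    self_mem_nhdsWithin] with l hk hl1 hl
  have hl0 : 0 < l := hl
  have hg : 0 ≤ l ^ (3 / 2 : ℝ) := by positivity
  have hi : ∀ i, Integrable (fun p : ℕ × ℝ => (p.1 : ℝ)) (slaw (ν i) s z) := fun i =>
    (integrable_map_measure (Continuous.aestronglyMeasurable (by fun_prop))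
      (measurable_of_countable _).aemeasurable).mpr (H.slots.int_s i)
  have hm : Measurable fun p : ℕ × ℝ => ENNReal.ofReal (Real.exp (-(l * p.1)) - 1 + l * p.1) :=
    (Continuous.measurable (by fun_prop)).ennreal_ofReal
  have hu : ∀ i, 0 ≤ RL (slaw (ν i) s z) l := fun i => (sysA_RL _ (hi i) hl0.le).1
  rw [mul_assoc]
  refine hcl (fun i => RL (slaw (ν i) s z) l) (fun k => ENNReal.ofReal (RL ((F k).law ν s z) l)) _
    (by positivity) hu (fun k => ENNReal.ofReal_le_ofReal ((hk k).trans ?_)) (fun i => ?_) j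
  · have a1 : 0 ≤ ∑ j, (F k).acoef j * RL (slaw (ν j) s z) l :=
      Finset.sum_nonneg fun j _ => mul_nonneg (sysA_acoef _ j) (hu j)
    have a2 := le_mul_of_one_le_left a1 (one_le_pow₀ (n := 2) (by linarith : 1 ≤ 1 + ε))
    have a3 := hE l hl0 hl1 k
    have a4 : 0 ≤ (n0 : ℝ) ^ 2 * l ^ (3 / 2 : ℝ) := by positivity
    linarith
  · have := H.slots.prob i
    have a1 := hn0 _ _ hm hm (fun _ _ _ _ => le_rfl) i
    rw [sysA_src] at a1
    simp only [fun k => (sysA_RL _ (Fam.integral_law H.slots (H.good k)).1 hl0.le).2]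
    rw [(sysA_RL _ (hi i) hl0.le).2]
    refine a1.trans (add_le_add (sysA_low _ hm n0 (Eventually.of_forall fun ω hω => ?_)) le_rfl)
    refine ENNReal.ofReal_le_ofReal ((winH_exp_le (by positivity)).2.2.trans ?_)
    have b1 : l ^ 2 ≤ l ^ (3 / 2 : ℝ) := by
      have := famB_sq_le (t := l) (by rwa [abs_of_pos hl0])
      rwa [abs_of_pos hl0] at this
    have b2 : (s ω : ℝ) ^ 2 ≤ (n0 : ℝ) ^ 2 :=
      pow_le_pow_left₀ (Nat.cast_nonneg _) (by exact_mod_cast hω.le) 2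
    have b3 := mul_le_mul b1 b2 (sq_nonneg _) hg
    have b4 := mul_nonneg hE0 hg
    nlinarith

theorem sysA_tau (h : Slots1 ν s z) (h1 : T1 ν s A)
    (hz : ∀ j, ∀ᵐ ω ∂ν j, |z ω| ≤ A * (s ω + 1)) {N : ℕ} (hN : 1 ≤ N) (j : J) :
    ∫ ω in {ω | N < s ω}, |z ω| ∂ν j ≤ 2 * A ^ 2 * (N : ℝ) ^ (-(1 / 2) : ℝ) := by
  have hN1 : (1 : ℝ) ≤ N := by exact_mod_cast hN
  have hN0 : (0 : ℝ) < N := by linarith
  have h0 : ∀ ω, 0 ≤ min (((s ω : ℝ) / N) ^ 2) (s ω / N) := fun ω =>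
    le_min (sq_nonneg _) (by positivity)
  have hi : Integrable (fun ω => min (((s ω : ℝ) / N) ^ 2) (s ω / N)) (ν j) :=
    ((h.int_s j).div_const N).mono' (measurable_of_countable _).aestronglyMeasurable
      (Eventually.of_forall fun ω => by
        rw [Real.norm_of_nonneg (h0 ω)]
        exact min_le_right _ _)
  have a1 : ∫ ω in {ω | N < s ω}, |z ω| ∂ν j ≤
      ∫ ω, 2 * |A| * N * min (((s ω : ℝ) / N) ^ 2) (s ω / N) ∂ν j := by
    rw [← integral_indicator MeasurableSet.of_discrete]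
    refine integral_mono_of_nonneg (Eventually.of_forall fun ω =>
      Set.indicator_nonneg (fun _ _ => abs_nonneg _) ω) (hi.const_mul _) ?_
    filter_upwards [hz j] with ω hω
    by_cases hs : N < s ω
    · have b1 : (N : ℝ) ≤ s ω := by exact_mod_cast hs.le
      have b2 : 1 ≤ (s ω : ℝ) / N := (one_le_div hN0).mpr b1
      have b3 : (s ω : ℝ) / N ≤ ((s ω : ℝ) / N) ^ 2 := by nlinarith
      have b4 : A * (s ω + 1) ≤ |A| * (2 * s ω) :=
        mul_le_mul (le_abs_self A) (by linarith) (by positivity) (abs_nonneg A)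
      rw [Set.indicator_of_mem (s := {ω | N < s ω}) hs, min_eq_right b3]
      refine (hω.trans b4).trans (le_of_eq ?_)
      field_simp
    · rw [Set.indicator_of_notMem (s := {ω | N < s ω}) hs]
      exact mul_nonneg (by positivity) (h0 ω)
  have a2 : (N : ℝ) * (N : ℝ) ^ (-(3 / 2) : ℝ) = (N : ℝ) ^ (-(1 / 2) : ℝ) := by
    rw [← Real.rpow_one_add' hN0.le (by norm_num)]
    norm_num
  have a3 : |A| * A ≤ A ^ 2 := by
    rw [← sq_abs, sq]
    exact mul_le_mul_of_nonneg_left (le_abs_self A) (abs_nonneg A)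
  rw [integral_const_mul] at a1
  refine (a1.trans (mul_le_mul_of_nonneg_left (h1 j N hN1) (by positivity))).trans ?_
  have a4 := mul_le_mul_of_nonneg_right a3 (Real.rpow_nonneg hN0.le (-(1 / 2)))
  rw [← a2] at a4 ⊢
  linarith

theorem sysA_sub_le {G : Fam Ω J} (q : G.T → Prop) (a : G.T → ℝ≥0∞) {b : G.T → ℝ}
    (hb : ∀ t, 0 ≤ b t) (hs : Summable fun t => (G.w t : ℝ) * b t)
    (h : ∀ t, a t ≤ ENNReal.ofReal (b t)) : ∑' t : {t // q t}, (G.w t : ℝ≥0∞) * a t ≤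
      ENNReal.ofReal (∑' t, (G.w t : ℝ) * b t) := by
  rw [← Fam.famC_tsum b hb hs]
  exact (ENNReal.tsum_comp_le_tsum_of_injective Subtype.val_injective
    fun t => (G.w t : ℝ≥0∞) * a t).trans (ENNReal.tsum_le_tsum fun t => mul_le_mul_right (h t) _)

/-- the deterministic terms of the truncated second moments -/
theorem sysA_err2 (H : SysOK ν s z F c k₀ j₀ Δ B)
    (h4 : WinB ((F k₀).pos ν s)
      (fun t => (F k₀).w t * ENNReal.ofReal (((F k₀).core t).L ν z ^ 4)) (1 / 6))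
    (hk : ∀ t (N : ℕ), ((F k₀).core t).P ν {ω | ((F k₀).core t).S s ω ≤ N} ≠ 0 →
      (((F k₀).core t).k : ℝ) ≤ A * (N + 1)) (T : ℝ) :
    ∃ D : ℝ, 0 ≤ D ∧ ∀ N : ℕ, 1 ≤ N → ∀ τ : ℝ, τ ^ 2 * N ≤ T → ∀ k,
      ∑' t : {t // ((F k).core t).P ν {ω | ((F k).core t).S s ω ≤ N} ≠ 0},
        ((F k).w t : ℝ≥0∞) * ENNReal.ofReal (((F k).core t).L ν z ^ 2 + ((F k).core t).k + 1 +
          (((F k).core t).k * τ) ^ 2) ≤ ENNReal.ofReal D := by
  have h1 : ∀ k, ∃ D : ℝ, ∀ N : ℕ, 1 ≤ N → ∀ τ : ℝ, τ ^ 2 * N ≤ T →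
      ∑' t : {t // ((F k).core t).P ν {ω | ((F k).core t).S s ω ≤ N} ≠ 0},
        ((F k).w t : ℝ≥0∞) * ENNReal.ofReal (((F k).core t).L ν z ^ 2 + ((F k).core t).k + 1 +
          (((F k).core t).k * τ) ^ 2) ≤ ENNReal.ofReal D := by
    intro k
    by_cases hkk : k = k₀
    · subst hkk
      obtain ⟨A', hA'⟩ := (Fam.heavy_RL H.slots H.heavy H.win).2
      have hs : Summable fun t => ((F k).w t : ℝ) *
          (((F k).core t).L ν z ^ 2 + (((F k).core t).k + 1)) := by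
        simp only [mul_add ((F k).w _ : ℝ) (_ ^ 2)]
        exact (Fam.heavy_sums H.slots H.heavy H.win h4).1.add (H.good k).sum1
      refine ⟨|∑' t, ((F k).w t : ℝ) * (((F k).core t).L ν z ^ 2 + (((F k).core t).k + 1))| +
        |A'| * (2 * |A| + 2) * |T|, fun N hN τ hτ => ?_⟩
      have hN1 : (1 : ℝ) ≤ N := by exact_mod_cast hN
      set M := ⌈A * (N + 1)⌉₊ + 1 with hM
      have hM1 : (1 : ℝ) ≤ M := by exact_mod_cast Nat.le_add_left 1 _
      have hM2 : (M : ℝ) ≤ (2 * |A| + 2) * N := by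
        have b1 : A * (N + 1) ≤ |A| * (N + 1) :=
          mul_le_mul_of_nonneg_right (le_abs_self A) (by positivity)
        have b2 : (⌈A * (N + 1)⌉₊ : ℝ) ≤ ⌈|A| * (N + 1)⌉₊ := by exact_mod_cast Nat.ceil_mono b1
        have b3 := Nat.ceil_lt_add_one (a := |A| * (N + 1)) (by positivity)
        have b4 := mul_le_mul_of_nonneg_left hN1 (abs_nonneg A)
        rw [hM]
        push_cast
        linarith
      have a1 := sysA_sub_le (fun t => ((F k).core t).P ν {ω | ((F k).core t).S s ω ≤ N} ≠ 0) _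
        (fun t => by positivity) hs fun t => le_rfl
      have a2 := (winH_tsum_sub (fun t => ((F k).w t : ℝ≥0∞) *
        ENNReal.ofReal ((((F k).core t).k : ℝ) ^ 2))
        (fun t => ((F k).core t).P ν {ω | ((F k).core t).S s ω ≤ N} ≠ 0)
        (fun t => ((F k).core t).k ≤ M) fun t ht => by
          have := (hk t N ht).trans (Nat.le_ceil _)
          exact Nat.le_succ_of_le (by exact_mod_cast this)).trans (hA' M (Nat.le_add_left 1 _))
      have a3 : τ ^ 2 * (A' * (M : ℝ) ^ (1 / 2 : ℝ)) ≤ |A'| * (2 * |A| + 2) * |T| := by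
        have b1 : (M : ℝ) ^ (1 / 2 : ℝ) ≤ M := Real.rpow_le_self_of_one_le hM1 (by norm_num)
        have b2 := mul_le_mul (le_abs_self A') (b1.trans hM2) (by positivity) (abs_nonneg _)
        have b3 := mul_le_mul_of_nonneg_left (hτ.trans (le_abs_self T))
          (by positivity : 0 ≤ |A'| * (2 * |A| + 2))
        have b4 := mul_le_mul_of_nonneg_left b2 (sq_nonneg τ)
        linarith
      rw [ENNReal.ofReal_add (abs_nonneg _) (by positivity)]
      refine le_trans ?_ (add_le_add (a1.trans (ENNReal.ofReal_le_ofReal (le_abs_self _)))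
        ((mul_le_mul_right a2 (ENNReal.ofReal (τ ^ 2))).trans ?_))
      · rw [← ENNReal.tsum_mul_left, ← ENNReal.tsum_add]
        refine ENNReal.tsum_le_tsum fun t => le_of_eq ?_
        rw [ENNReal.ofReal_add (by positivity) (sq_nonneg _), mul_pow,
          ENNReal.ofReal_mul (sq_nonneg _), add_assoc]
        ring
      · rw [← ENNReal.ofReal_mul (sq_nonneg _)]
        exact ENNReal.ofReal_le_ofReal a3
    · obtain ⟨C, hC⟩ := Core.abs_L_le H.slots Δ B
      have hs : Summable fun t => ((F k).w t : ℝ) *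
          ((C ^ 2 + 1 + |T|) * ((((F k).core t).k : ℝ) + 1) ^ 2) := by
        simp only [mul_left_comm ((F k).w _ : ℝ)]
        exact (sysA_light (H.good k) (H.light k hkk)).mul_left _
      refine ⟨_, fun N hN τ hτ => sysA_sub_le
        (fun t => ((F k).core t).P ν {ω | ((F k).core t).S s ω ≤ N} ≠ 0)
        (fun t => ENNReal.ofReal (((F k).core t).L ν z ^ 2 + ((F k).core t).k + 1 +
          (((F k).core t).k * τ) ^ 2)) (fun t => by positivity) hs fun t =>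
        ENNReal.ofReal_le_ofReal ?_⟩
      have hN1 : (1 : ℝ) ≤ N := by exact_mod_cast hN
      have b1 := pow_le_pow_left₀ (abs_nonneg _) (hC _ ((H.good k).good t)).1 2
      have b2 : τ ^ 2 ≤ |T| :=
        (le_mul_of_one_le_right (sq_nonneg τ) hN1).trans (hτ.trans (le_abs_self T))
      have b0 : (0 : ℝ) ≤ ((F k).core t).k := Nat.cast_nonneg _
      have b3 := mul_le_mul b2 (pow_le_pow_left₀ b0 (le_add_of_nonneg_right zero_le_one) 2)
        (sq_nonneg _) (abs_nonneg T)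
      rw [sq_abs] at b1
      nlinarith
  choose D hD using h1
  refine ⟨∑ k, |D k|, Finset.sum_nonneg fun _ _ => abs_nonneg _, fun N hN τ hτ k => ?_⟩
  refine (hD k N hN τ hτ).trans (ENNReal.ofReal_le_ofReal ((le_abs_self _).trans ?_))
  exact Finset.single_le_sum (f := fun k => |D k|) (fun _ _ => abs_nonneg _) (Finset.mem_univ k)

theorem sysA_memLp {μ : Measure Ω} {D : ℝ} (h : ∀ N : ℕ, 1 ≤ N →
    ∫⁻ ω in {ω | s ω ≤ N}, ENNReal.ofReal (z ω ^ 2) ∂μ ≤ ENNReal.ofReal D) : MemLp z 2 μ := by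
  refine (memLp_two_iff_integrable_sq (measurable_of_countable _).aestronglyMeasurable).mpr
    ⟨(measurable_of_countable _).aestronglyMeasurable,
      (hasFiniteIntegral_iff_ofReal (Eventually.of_forall fun ω => sq_nonneg _)).mpr ?_⟩
  have hU : (⋃ N : ℕ, {ω | s ω ≤ N + 1}) = Set.univ :=
    Set.eq_univ_of_forall fun ω => Set.mem_iUnion.mpr ⟨s ω, Nat.le_succ _⟩
  rw [← setLIntegral_univ, ← hU, setLIntegral_iUnion_of_directed _ (s := fun N : ℕ => {ω | s ω ≤ N + 1})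
    (Monotone.directed_le fun N N' hN ω (hω : s ω ≤ N + 1) => hω.trans (Nat.succ_le_succ hN))]
  exact lt_of_le_of_lt (iSup_le fun N => h (N + 1) (Nat.le_add_left 1 N)) ENNReal.ofReal_lt_top

theorem sysA_sq_le {ω : Ω} (h : |z ω| ≤ A * (s ω + 1)) {n : ℕ} (hn : s ω < n) :
    z ω ^ 2 ≤ A ^ 2 * (n : ℝ) ^ 2 := by
  have h1 := pow_le_pow_left₀ (abs_nonneg _) h 2
  have h2 : (s ω : ℝ) + 1 ≤ n := by exact_mod_cast hn
  rw [sq_abs, mul_pow] at h1
  exact h1.trans (mul_le_mul_of_nonneg_left (pow_le_pow_left₀ (by positivity) h2 2) (sq_nonneg A))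

theorem SysOK.slots2 (H : SysOK ν s z F c k₀ j₀ Δ B)
    (hD : ∀ j, Dom (slaw (ν j) s z) (src F c ν s z j)) (h1 : T1 ν s A)
    (hz : ∀ j, ∀ᵐ ω ∂ν j, |z ω| ≤ A * (s ω + 1))
    (h4 : WinB ((F k₀).pos ν s)
      (fun t => (F k₀).w t * ENNReal.ofReal (((F k₀).core t).L ν z ^ 4)) (1 / 6))
    (hk : ∀ t (N : ℕ), ((F k₀).core t).P ν {ω | ((F k₀).core t).S s ω ≤ N} ≠ 0 →
      (((F k₀).core t).k : ℝ) ≤ A * (N + 1)) : Slots ν s z := by
  obtain ⟨ε, C, hε, hcl⟩ := sysA_close H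
  obtain ⟨b, hb⟩ := sysA_dom hD
  obtain ⟨n0, hn0⟩ := hb ε hε
  obtain ⟨D, hD0, hDe⟩ := sysA_err2 H h4 hk (4 * A ^ 4)
  choose C' hC' using fun k => Fam.sq_law H.slots hz (H.good k) hε
  set Cm := ∑ k, |C' k| with hCm
  set Mm := ∑ k, ((F k).law ν s z).real Set.univ with hMm
  have hCm0 : 0 ≤ Cm := Finset.sum_nonneg fun _ _ => abs_nonneg _
  have hMm0 : 0 ≤ Mm := Finset.sum_nonneg fun _ _ => measureReal_nonneg
  refine ⟨H.slots, fun j => sysA_memLp (s := s)
    (D := C * ((1 + ε) * (Cm * D) + (1 + ε⁻¹) * b ^ 2 * Mm + A ^ 2 * (n0 : ℝ) ^ 2)) fun N hN => ?_⟩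
  have hN0 : (0 : ℝ) < N := by exact_mod_cast hN
  have hu : ∀ i, 0 ≤ ∫ ω in {ω | s ω ≤ N}, z ω ^ 2 ∂ν i := fun i =>
    integral_nonneg fun ω => sq_nonneg _
  have hu' : ∀ i, ENNReal.ofReal (∫ ω in {ω | s ω ≤ N}, z ω ^ 2 ∂ν i) =
      ∫⁻ ω in {ω | s ω ≤ N}, ENNReal.ofReal (z ω ^ 2) ∂ν i := fun i => by
    have := H.slots.prob i
    refine ofReal_integral_eq_lintegral_ofReal (Integrable.of_bound
      (measurable_of_countable _).aestronglyMeasurable (A ^ 2 * ((N + 1 : ℕ) : ℝ) ^ 2) ?_)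
      (Eventually.of_forall fun ω => sq_nonneg _)
    refine (ae_restrict_iff' MeasurableSet.of_discrete).mpr ((hz i).mono fun ω hω hs => ?_)
    rw [Real.norm_of_nonneg (sq_nonneg _)]
    exact sysA_sq_le hω (Nat.lt_succ_of_le hs)
  have hτ : (2 * A ^ 2 * (N : ℝ) ^ (-(1 / 2) : ℝ)) ^ 2 * N ≤ 4 * A ^ 4 := by
    have : ((N : ℝ) ^ (-(1 / 2) : ℝ)) ^ 2 * N = 1 := by
      rw [← Real.rpow_natCast, ← Real.rpow_mul hN0.le, ← Real.rpow_add_one hN0.ne']
      norm_num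
    rw [mul_pow, mul_assoc, this]
    exact le_of_eq (by ring)
  have hsq : Measurable fun p : ℕ × ℝ => ENNReal.ofReal (p.2 ^ 2) :=
    (measurable_snd.pow_const 2).ennreal_ofReal
  have hS := sysA_meas (· ≤ N)
  set Ψ : ℕ × ℝ → ℝ≥0∞ := {p : ℕ × ℝ | p.1 ≤ N}.indicator fun p => ENNReal.ofReal (p.2 ^ 2)
    with hΨ
  have hm : Measurable Ψ := hsq.indicator hS
  rw [← hu']
  refine ENNReal.ofReal_le_ofReal (hcl (fun i => ∫ ω in {ω | s ω ≤ N}, z ω ^ 2 ∂ν i)
    (fun k => ∫⁻ p, ENNReal.ofReal (1 + ε) * Ψ p + ENNReal.ofReal ((1 + ε⁻¹) * b ^ 2)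
      ∂(F k).law ν s z) _ (by positivity) hu (fun k => ?_) (fun i => ?_) j)
  · have := Fam.isFinite_law (s := s) (z := z) H.slots.prob (H.good k)
    have a0 : 0 ≤ ∑ j, (F k).acoef j * ∫ ω in {ω | s ω ≤ N}, z ω ^ 2 ∂ν j :=
      Finset.sum_nonneg fun j _ => mul_nonneg (sysA_acoef _ j) (hu j)
    have a1 := hC' k N _ (sysA_tau H.slots h1 hz hN)
    have a2 := mul_le_mul_right (hDe N hN _ hτ k) (ENNReal.ofReal Cm)
    rw [← ENNReal.tsum_mul_left, ← ENNReal.ofReal_mul hCm0] at a2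
    have a3 := a1.trans (add_le_add le_rfl (le_trans (ENNReal.tsum_le_tsum fun t => by
      rw [mul_left_comm (ENNReal.ofReal Cm), ← ENNReal.ofReal_mul hCm0]
      refine mul_le_mul_right (ENNReal.ofReal_le_ofReal (mul_le_mul_of_nonneg_right
        ((le_abs_self _).trans ?_) (by positivity))) _
      exact Finset.single_le_sum (f := fun k => |C' k|) (fun _ _ => abs_nonneg _)
        (Finset.mem_univ k)) a2))
    have a4 : (F k).law ν s z Set.univ ≤ ENNReal.ofReal Mm := by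
      rw [← ofReal_measureReal (measure_ne_top _ _)]
      exact ENNReal.ofReal_le_ofReal (Finset.single_le_sum
        (f := fun k => ((F k).law ν s z).real Set.univ) (fun _ _ => measureReal_nonneg)
        (Finset.mem_univ k))
    rw [lintegral_add_right _ measurable_const, lintegral_const_mul _ hm, lintegral_const, hΨ,
      lintegral_indicator hS]
    refine (add_le_add (mul_le_mul_right a3 _) (mul_le_mul_right a4 _)).trans ?_
    rw [← ENNReal.ofReal_add (by positivity) (by positivity), ← ENNReal.ofReal_mul (by positivity),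
      ← ENNReal.ofReal_mul (by positivity), ← ENNReal.ofReal_add (by positivity) (by positivity)]
    refine ENNReal.ofReal_le_ofReal ?_
    have a5 : 0 ≤ A ^ 2 * (n0 : ℝ) ^ 2 := by positivity
    linarith
  · have := H.slots.prob i
    have a1 := hn0 Ψ (fun p => ENNReal.ofReal (1 + ε) * Ψ p + ENNReal.ofReal ((1 + ε⁻¹) * b ^ 2))
      hm ((hm.const_mul _).add_const _) (fun n u v hv => by
        by_cases hn : n ≤ N
        · rw [hΨ, Set.indicator_of_mem (s := {p : ℕ × ℝ | p.1 ≤ N}) (a := (n, u + v)) hn,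
            Set.indicator_of_mem (s := {p : ℕ × ℝ | p.1 ≤ N}) (a := (n, u)) hn,
            ← ENNReal.ofReal_mul (by positivity),
            ← ENNReal.ofReal_add (by positivity) (by positivity)]
          refine ENNReal.ofReal_le_ofReal ((famC_sq_add hε u v).trans (add_le_add le_rfl ?_))
          have := pow_le_pow_left₀ (abs_nonneg v) hv 2
          rw [sq_abs] at this
          exact mul_le_mul_of_nonneg_left this (by positivity)
        · rw [hΨ, Set.indicator_of_notMem (s := {p : ℕ × ℝ | p.1 ≤ N}) (a := (n, u + v)) hn]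
          exact zero_le) i
    rw [sysA_src] at a1
    have a2 : ∫⁻ p, Ψ p ∂slaw (ν i) s z =
        ∫⁻ ω in {ω | s ω ≤ N}, ENNReal.ofReal (z ω ^ 2) ∂ν i := by
      rw [hΨ, lintegral_indicator hS, slaw, setLIntegral_map hS hsq (measurable_of_countable _)]
      rfl
    rw [hu', ← a2]
    refine a1.trans (add_le_add (sysA_low _ hm n0 ((hz i).mono fun ω hω hs => ?_)) le_rfl)
    refine (Set.indicator_le_self _ _ _).trans (ENNReal.ofReal_le_ofReal
      ((sysA_sq_le hω hs).trans (le_add_of_nonneg_left (by positivity))))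

end Pool.Agent.Lib.MP_77dff5_pr
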