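import Pool.Agent.Lib.MP_77dff5_pr.SysC

/-! Systems: local uniform integrability. -/

set_option autoImplicit false

namespace Pool.Agent.Lib.MP_77dff5_pr

open MeasureTheory ProbabilityTheory Filter Topology
open scoped ENNReal NNReal

theorem sysD_psi_add {η : ℝ} (hη : 0 < η) (κ a b : ℝ) :
    psi κ (a + b) ≤ (1 + η) * psi κ a + (1 + 1 / η) * b ^ 2 := by
  have h1 : max (|a + b| - κ) 0 ≤ max (|a| - κ) 0 + |b| :=
    max_le (by linarith [abs_add_le a b, le_max_left (|a| - κ) 0])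
      (add_nonneg (le_max_right _ _) (abs_nonneg _))
  refine (pow_le_pow_left₀ (le_max_right _ _) h1 2).trans ?_
  rw [psi, ← sq_abs b]
  set p := max (|a| - κ) 0
  set q := |b|
  have e : (1 + η) * p ^ 2 + (1 + 1 / η) * q ^ 2 - (p + q) ^ 2 = (η * p - q) ^ 2 / η := by
    field_simp; ring
  have : 0 ≤ (η * p - q) ^ 2 / η := by positivity
  linarith

theorem sysD_m2_anti (μ : Measure (ℕ × ℝ)) (n : ℕ) {κ κ' : ℝ} (h : κ ≤ κ') :
    m2 μ n κ' ≤ m2 μ n κ := by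
  refine lintegral_mono fun p => ENNReal.ofReal_le_ofReal ?_
  exact pow_le_pow_left₀ (le_max_right _ _) (max_le_max (by linarith) le_rfl) 2

theorem sysD_psi_meas (κ r : ℝ) : Measurable fun u : ℝ => ENNReal.ofReal (psi κ (u / r)) := by
  unfold psi
  fun_prop

theorem sysD_unif {J : Type} [Fintype J] {P : J → ℝ → Prop}
    (hm : ∀ j x y, x ≤ y → P j x → P j y) (h : ∀ j, ∃ x, P j x) : ∃ x, 0 ≤ x ∧ ∀ j, P j x := by
  choose x hx using h
  refine ⟨∑ j, |x j|, Finset.sum_nonneg fun j _ => abs_nonneg _, fun j => hm j _ _ ?_ (hx j)⟩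
  exact (le_abs_self _).trans
    (Finset.single_le_sum (f := fun j => |x j|) (fun j _ => abs_nonneg _) (Finset.mem_univ j))

theorem sysD_pmB {J : Type} [Fintype J] {μ : J → Measure (ℕ × ℝ)} (h : ∀ j, PmB (μ j)) :
    ∃ K : ℝ, 0 ≤ K ∧ ∀ j, ∀ n : ℕ, 1 ≤ n → pm (μ j) n ≤ K * (n : ℝ) ^ (-(5 / 2) : ℝ) :=
  sysD_unif (P := fun j K => ∀ n : ℕ, 1 ≤ n → pm (μ j) n ≤ K * (n : ℝ) ^ (-(5 / 2) : ℝ))
    (fun _ _ _ hxy hx n hn => (hx n hn).trans (by gcongr)) h

theorem sysD_m2B {J : Type} [Fintype J] {μ : J → Measure (ℕ × ℝ)} (h : ∀ j, M2B (μ j)) :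
    ∃ K : ℝ, 0 ≤ K ∧ ∀ j, ∀ n : ℕ, 1 ≤ n →
      m2 (μ j) n 0 ≤ ENNReal.ofReal (K * (n : ℝ) ^ (-(5 / 2) : ℝ)) :=
  sysD_unif (P := fun j K => ∀ n : ℕ, 1 ≤ n →
      m2 (μ j) n 0 ≤ ENNReal.ofReal (K * (n : ℝ) ^ (-(5 / 2) : ℝ)))
    (fun _ _ _ hxy hx n hn => (hx n hn).trans (ENNReal.ofReal_le_ofReal (by gcongr))) h

/-- domination for the truncated second moments -/
theorem sysD_dom {lam mu : Measure (ℕ × ℝ)} (h : Dom lam mu) {η : ℝ} (hη : 0 < η) :
    ∃ D : ℝ, 0 ≤ D ∧ ∀ᶠ n : ℕ in atTop, ∀ κ : ℝ, m2 lam n κ ≤ ENNReal.ofReal (1 + η) *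
      (ENNReal.ofReal (1 + η) * m2 mu n κ + ENNReal.ofReal (D / n) * mu {p | p.1 = n}) := by
  obtain ⟨B, hB⟩ := h
  refine ⟨(1 + 1 / η) * B ^ 2, by positivity, ?_⟩
  filter_upwards [hB η hη] with n hn κ
  have k := hn (fun u => ENNReal.ofReal (psi κ (u / √n)))
    (fun u => ENNReal.ofReal (1 + η) * ENNReal.ofReal (psi κ (u / √n)) +
      ENNReal.ofReal ((1 + 1 / η) * B ^ 2 / n)) (sysD_psi_meas _ _)
    (((sysD_psi_meas _ _).const_mul _).add_const _) fun u b hb => by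
      have p0 : 0 ≤ psi κ (u / √n) := sq_nonneg _
      rw [← ENNReal.ofReal_mul (by positivity), ← ENNReal.ofReal_add (by positivity) (by positivity),
        add_div]
      refine ENNReal.ofReal_le_ofReal ((sysD_psi_add hη _ _ _).trans ?_)
      have : b ^ 2 ≤ B ^ 2 := by
        rw [← sq_abs b]; exact pow_le_pow_left₀ (abs_nonneg _) hb 2
      rw [div_pow, Real.sq_sqrt (Nat.cast_nonneg _), mul_div_assoc]
      gcongr
  refine k.trans (le_of_eq ?_)
  congr 1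
  rw [lintegral_add_right _ measurable_const, lintegral_const_mul' _ _ ENNReal.ofReal_ne_top,
    setLIntegral_const]
  rfl

variable {Ω J K : Type} [Countable Ω] [MeasurableSpace Ω] [DiscreteMeasurableSpace Ω] [Fintype J]
  [Fintype K] {ν : J → Measure Ω} {s : Ω → ℕ} {z : Ω → ℝ} {F : K → Fam Ω J} {c : J → K → ℝ≥0}
  {k₀ : K} {j₀ : J} {Δ : ℕ} {B A c₀ : ℝ}

omit [Countable Ω] [DiscreteMeasurableSpace Ω] [Fintype J] in
theorem sysD_src (i : J) (n : ℕ) (κ : ℝ) :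
    m2 (src F c ν s z i) n κ = ∑ k, c i k * m2 ((F k).law ν s z) n κ ∧
    src F c ν s z i {p | p.1 = n} = ∑ k, c i k * (F k).law ν s z {p | p.1 = n} := by
  constructor
  · have hm : MeasurableSet {p : ℕ × ℝ | p.1 = n} := measurable_fst (measurableSet_singleton n)
    simp only [m2, src]
    rw [← lintegral_indicator hm, lintegral_finsetSum_measure]
    refine Finset.sum_congr rfl fun k _ => ?_
    rw [lintegral_smul_measure, lintegral_indicator hm]
    rfl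
  · simp only [src, Measure.coe_finsetSum, Finset.sum_apply]
    rfl

theorem sysD_fam (H : SysOK ν s z F c k₀ j₀ Δ B) (h : Slots ν s z)
    (hD : ∀ j, Dom (slaw (ν j) s z) (src F c ν s z j)) (h1 : T1 ν s A) (h2 : T2 ν s z A)
    (hc : 0 < c₀) (h4 : T4 (ν j₀) s c₀)
    (hL : WinB ((F k₀).pos ν s)
      (fun t => (F k₀).w t * ENNReal.ofReal (((F k₀).core t).L ν z ^ 4)) (1 / 6))
    {η : ℝ} (hη : 0 < η) : ∃ κ0 : ℝ, 0 ≤ κ0 ∧ ∀ k, ∀ κ : ℝ, κ0 ≤ κ → ∀ᶠ n : ℕ in atTop,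
      m2 ((F k).law ν s z) n κ ≤ ENNReal.ofReal ((1 + η) * ∑ j, ∑ l ∈ Finset.range ((n + 1) / 2),
        (F k).aa ν s j l * (m2 (slaw (ν j) s z) (n - l) κ).toReal +
          η * (n : ℝ) ^ (-(5 / 2) : ℝ)) := by
  obtain ⟨K1, K10, hK1⟩ := sysD_pmB (H.pmB h hD h1 hc h4).1
  obtain ⟨K2, K20, hK2⟩ := sysD_m2B (H.m2B h hD h1 h2 hc h4 hL).1
  obtain ⟨κ0, κ00, hκ0⟩ :=
    (Fam.large_m2 h h1 hc h4 H.heavy H.win h2 hL).2 (η / 2) (half_pos hη)
  refine ⟨κ0, κ00, fun k κ hκ => ?_⟩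
  have κ0' : 0 ≤ κ := κ00.trans hκ
  have hA : ∃ A : ℝ, ∀ M : ℕ, 1 ≤ M → ∑' t : {t // ((F k).core t).k ≤ M}, ((F k).w t : ℝ≥0∞) *
      ENNReal.ofReal (((F k).core t).k * (((F k).core t).L ν z ^ 2 + ((F k).core t).k)) ≤
        ENNReal.ofReal (A * M) := by
    by_cases hk : k = k₀
    · subst hk
      exact (Fam.heavy_sums H.slots H.heavy H.win hL).2.1
    · exact Fam.light_hyp H.slots (H.good k) (H.light k hk)
  obtain ⟨A', hA⟩ := hA
  have hl : ∀ᶠ n : ℕ in atTop, m2 ((F k).lawOn ((F k).small n)ᶜ ν s z) n κ ≤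
      ENNReal.ofReal (η / 2 * (n : ℝ) ^ (-(5 / 2) : ℝ)) := by
    by_cases hk : k = k₀
    · subst hk
      exact hκ0 κ hκ
    · filter_upwards [Fam.large_light h (H.good k) (H.light k hk) (half_pos hη)] with n hn
      exact (sysD_m2_anti _ _ κ0').trans hn.2
  set ε := η / (2 * (1 + K1 + K2)) with hε
  have ε0 : 0 < ε := by positivity
  have ε1 : ε * (1 + K1 + K2) = η / 2 := by rw [hε]; field_simp
  have ε2 : ε ≤ η := by nlinarith
  filter_upwards [hl, Fam.jump_m2 h (H.good k) hA ε0, eventually_ge_atTop 1] with n a1 a2 n1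
  have a3 := a2 K1 K10 (fun j l l1 _ => hK1 j l l1) K2 K20 (fun j l l1 _ => hK2 j l l1) κ κ0'
  have sp : m2 ((F k).law ν s z) n κ = m2 ((F k).lawOn ((F k).small n) ν s z) n κ +
      m2 ((F k).lawOn ((F k).small n)ᶜ ν s z) n κ := by
    rw [m2, Fam.law_split H.slots.prob ((F k).small n), Measure.restrict_add, lintegral_add_measure]
    rfl
  have aa0 : ∀ j l, 0 ≤ (F k).aa ν s j l := fun j => (Fam.hasSum_aa H.slots.prob (H.good k) j).1
  have e : ∑ j, ∑ l ∈ Finset.range ((n + 1) / 2),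
      ENNReal.ofReal ((F k).aa ν s j l) * m2 (slaw (ν j) s z) (n - l) κ =
      ENNReal.ofReal (∑ j, ∑ l ∈ Finset.range ((n + 1) / 2),
        (F k).aa ν s j l * (m2 (slaw (ν j) s z) (n - l) κ).toReal) := by
    rw [ENNReal.ofReal_sum_of_nonneg fun j _ => Finset.sum_nonneg fun l _ =>
      mul_nonneg (aa0 j l) ENNReal.toReal_nonneg]
    refine Finset.sum_congr rfl fun j _ => ?_
    rw [ENNReal.ofReal_sum_of_nonneg fun l _ => mul_nonneg (aa0 j l) ENNReal.toReal_nonneg]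
    refine Finset.sum_congr rfl fun l hl => ?_
    have l1 : 1 ≤ n - l := by
      have := Finset.mem_range.1 hl
      omega
    rw [ENNReal.ofReal_mul (aa0 j l), ENNReal.ofReal_toReal]
    exact ne_top_of_le_ne_top ENNReal.ofReal_ne_top ((sysD_m2_anti _ _ κ0').trans (hK2 j _ l1))
  set X := ∑ j, ∑ l ∈ Finset.range ((n + 1) / 2),
    (F k).aa ν s j l * (m2 (slaw (ν j) s z) (n - l) κ).toReal with hX
  have X0 : 0 ≤ X := Finset.sum_nonneg fun j _ => Finset.sum_nonneg fun l _ =>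
    mul_nonneg (aa0 j l) ENNReal.toReal_nonneg
  rw [e, ε1] at a3
  rw [sp]
  refine (add_le_add a3 a1).trans ?_
  rw [← ENNReal.ofReal_mul (by positivity), ← ENNReal.ofReal_add (by positivity) (by positivity),
    ← ENNReal.ofReal_add (by positivity) (by positivity)]
  refine ENNReal.ofReal_le_ofReal ?_
  nlinarith

theorem sysD_slot (H : SysOK ν s z F c k₀ j₀ Δ B) (h : Slots ν s z)
    (hD : ∀ j, Dom (slaw (ν j) s z) (src F c ν s z j)) (h1 : T1 ν s A) (h2 : T2 ν s z A)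
    (hc : 0 < c₀) (h4 : T4 (ν j₀) s c₀)
    (hL : WinB ((F k₀).pos ν s)
      (fun t => (F k₀).w t * ENNReal.ofReal (((F k₀).core t).L ν z ^ 4)) (1 / 6))
    {ε b : ℝ} (hε : 0 < ε) (hb : 0 < b) : ∃ κ0 : ℝ, 0 ≤ κ0 ∧ ∀ κ : ℝ, κ0 ≤ κ →
      ∀ᶠ n : ℕ in atTop, ∀ i, (m2 (slaw (ν i) s z) n κ).toReal ≤
        (1 + ε) * ∑ j, ∑ l ∈ Finset.range ((n + 1) / 2),
          (∑ k, (c i k : ℝ) * (F k).aa ν s j l) * (m2 (slaw (ν j) s z) (n - l) κ).toReal +
            b * (n : ℝ) ^ (-(5 / 2) : ℝ) := by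
  obtain ⟨K3, K30, hK3⟩ := sysD_pmB (H.pmB h hD h1 hc h4).2
  set S : ℝ := ∑ i, ∑ k, (c i k : ℝ) with hS
  have S0 : 0 ≤ S := by positivity
  have hcS : ∀ i, ∑ k, (c i k : ℝ) ≤ S := fun i =>
    Finset.single_le_sum (f := fun i => ∑ k, (c i k : ℝ)) (fun i _ => by positivity)
      (Finset.mem_univ i)
  set η : ℝ := min 1 (min (ε / 7) (b / (8 * (S + 1)))) with hη
  have η0 : 0 < η := by positivity
  have η1 : η ≤ 1 := min_le_left _ _
  have η2 : η ≤ ε / 7 := (min_le_right _ _).trans (min_le_left _ _)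
  have η3 : η ≤ b / (8 * (S + 1)) := (min_le_right _ _).trans (min_le_right _ _)
  have η4 : (1 + η) ^ 3 ≤ 1 + ε := by nlinarith [mul_pos η0 η0]
  have η5 : S * η ≤ b / 8 := by
    calc S * η ≤ (S + 1) * (b / (8 * (S + 1))) := by gcongr; linarith
      _ = b / 8 := by field_simp
  obtain ⟨κ0, κ00, hκ0⟩ := sysD_fam H h hD h1 h2 hc h4 hL η0
  refine ⟨κ0, κ00, fun κ hκ => ?_⟩
  rw [Filter.eventually_all]
  intro i
  obtain ⟨D, D0, hD'⟩ := sysD_dom (hD i) η0
  have t : Tendsto (fun n : ℕ => D / n * (S * K3)) atTop (𝓝 (0 * (S * K3))) :=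
    (tendsto_const_div_atTop_nhds_zero_nat D).mul_const _
  rw [zero_mul] at t
  filter_upwards [hD', Filter.eventually_all.2 fun k => hκ0 k κ hκ, eventually_ge_atTop 1,
    t.eventually (ge_mem_nhds (show 0 < b / 4 by positivity))] with n a1 a2 n1 a4
  have aa0 : ∀ k j l, 0 ≤ (F k).aa ν s j l := fun k j =>
    (Fam.hasSum_aa H.slots.prob (H.good k) j).1
  set r : ℝ := (n : ℝ) ^ (-(5 / 2) : ℝ) with hr
  have r0 : 0 ≤ r := by positivity
  set X : K → ℝ := fun k => ∑ j, ∑ l ∈ Finset.range ((n + 1) / 2),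
    (F k).aa ν s j l * (m2 (slaw (ν j) s z) (n - l) κ).toReal with hX
  have X0 : ∀ k, 0 ≤ X k := fun k => Finset.sum_nonneg fun j _ => Finset.sum_nonneg fun l _ =>
    mul_nonneg (aa0 k j l) ENNReal.toReal_nonneg
  have e : ∑ j, ∑ l ∈ Finset.range ((n + 1) / 2),
      (∑ k, (c i k : ℝ) * (F k).aa ν s j l) * (m2 (slaw (ν j) s z) (n - l) κ).toReal =
      ∑ k, (c i k : ℝ) * X k := by
    simp only [hX, Finset.mul_sum, Finset.sum_mul, mul_assoc]
    rw [Finset.sum_comm (s := (Finset.univ : Finset K))]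
    exact Finset.sum_congr rfl fun j _ => Finset.sum_comm
  have b1 : m2 (src F c ν s z i) n κ ≤
      ENNReal.ofReal (∑ k, (c i k : ℝ) * ((1 + η) * X k + η * r)) := by
    rw [(sysD_src i n κ).1, ENNReal.ofReal_sum_of_nonneg fun k _ => by have := X0 k; positivity]
    refine Finset.sum_le_sum fun k _ => ?_
    rw [ENNReal.ofReal_mul (NNReal.coe_nonneg _), ENNReal.ofReal_coe_nnreal]
    exact mul_le_mul_right (a2 k) _
  have b2 : src F c ν s z i {p | p.1 = n} ≤ ENNReal.ofReal (∑ k, (c i k : ℝ) * (K3 * r)) := by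
    rw [(sysD_src i n κ).2, ENNReal.ofReal_sum_of_nonneg fun k _ => by positivity]
    refine Finset.sum_le_sum fun k _ => ?_
    rw [ENNReal.ofReal_mul (NNReal.coe_nonneg _), ENNReal.ofReal_coe_nnreal]
    refine mul_le_mul_right ?_ _
    have := Fam.isFinite_law (s := s) (z := z) H.slots.prob (H.good k)
    rw [← ofReal_measureReal]
    exact ENNReal.ofReal_le_ofReal (hK3 k n n1)
  have Y0 : 0 ≤ ∑ k, (c i k : ℝ) * X k := Finset.sum_nonneg fun k _ => by
    have := X0 k; positivity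
  have e1 : ∑ k, (c i k : ℝ) * ((1 + η) * X k + η * r) =
      (1 + η) * ∑ k, (c i k : ℝ) * X k + (∑ k, (c i k : ℝ)) * (η * r) := by
    rw [Finset.mul_sum, Finset.sum_mul, ← Finset.sum_add_distrib]
    exact Finset.sum_congr rfl fun k _ => by ring
  rw [e1] at b1
  rw [← Finset.sum_mul] at b2
  rw [e]
  set Y := ∑ k, (c i k : ℝ) * X k
  have c1 := hcS i
  have c0 : 0 ≤ ∑ k, (c i k : ℝ) := by positivity
  set C := ∑ k, (c i k : ℝ)
  refine ENNReal.toReal_le_of_le_ofReal (by positivity) ((a1 κ).trans ?_)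
  refine (mul_le_mul_right (add_le_add (mul_le_mul_right b1 _) (mul_le_mul_right b2 _)) _).trans ?_
  rw [← ENNReal.ofReal_mul (by positivity), ← ENNReal.ofReal_mul (by positivity),
    ← ENNReal.ofReal_add (by positivity) (by positivity), ← ENNReal.ofReal_mul (by positivity)]
  refine ENNReal.ofReal_le_ofReal ?_
  have d1 : C * (η * r) ≤ b / 8 * r := by
    calc C * (η * r) ≤ S * (η * r) := by gcongr
      _ = S * η * r := by ring
      _ ≤ b / 8 * r := by gcongr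
  have d2 : D / n * (C * (K3 * r)) ≤ b / 4 * r := by
    calc D / n * (C * (K3 * r)) ≤ D / n * (S * (K3 * r)) := by gcongr
      _ = D / n * (S * K3) * r := by ring
      _ ≤ b / 4 * r := by gcongr
  calc (1 + η) * ((1 + η) * ((1 + η) * Y + C * (η * r)) + D / n * (C * (K3 * r)))
      = (1 + η) ^ 3 * Y + (1 + η) * ((1 + η) * (C * (η * r)) + D / n * (C * (K3 * r))) := by ring
    _ ≤ (1 + ε) * Y + 2 * (2 * (b / 8 * r) + b / 4 * r) := by gcongr <;> linarith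
    _ = _ := by ring

theorem SysOK.uiB (H : SysOK ν s z F c k₀ j₀ Δ B) (h : Slots ν s z)
    (hD : ∀ j, Dom (slaw (ν j) s z) (src F c ν s z j)) (h1 : T1 ν s A) (h2 : T2 ν s z A)
    (hc : 0 < c₀) (h4 : T4 (ν j₀) s c₀)
    (hL : WinB ((F k₀).pos ν s)
      (fun t => (F k₀).w t * ENNReal.ofReal (((F k₀).core t).L ν z ^ 4)) (1 / 6)) :
    (∀ j, UIB (slaw (ν j) s z)) ∧ ∀ k, UIB ((F k).law ν s z) := by
  classical
  obtain ⟨K2, K20, hK2⟩ := sysD_m2B (H.m2B h hD h1 h2 hc h4 hL).1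
  obtain ⟨m, hm0, hm⟩ := H.lyap
  have hs := fun k j => Fam.hasSum_aa (s := s) H.slots.prob (H.good k) j
  obtain ⟨ε0, C, ε00, hC⟩ := lin_limsup (sysA F c)
    (fun i j l => ∑ k, (c i k : ℝ) * (F k).aa ν s j l)
    (fun i j l => Finset.sum_nonneg fun k _ => mul_nonneg (NNReal.coe_nonneg _) ((hs k j).1 l))
    (fun i j => hasSum_sum fun k _ => (hs k j).2.mul_left _) m hm0 hm
  have key : ∀ ε : ℝ, 0 < ε → ∃ κ0 : ℝ, 0 ≤ κ0 ∧ ∀ κ : ℝ, κ0 ≤ κ → ∀ᶠ n : ℕ in atTop, ∀ i,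
      (m2 (slaw (ν i) s z) n κ).toReal ≤ ε * (n : ℝ) ^ (-(5 / 2) : ℝ) := by
    intro ε hε
    obtain ⟨κ0, κ00, hκ0⟩ := sysD_slot H h hD h1 h2 hc h4 hL ε00 (b := ε / (|C| + 1))
      (by positivity)
    refine ⟨κ0, κ00, fun κ hκ => ?_⟩
    filter_upwards [hC (fun i n => (m2 (slaw (ν i) s z) n κ).toReal) K2 (ε / (|C| + 1))
      (by positivity) (fun i n => ENNReal.toReal_nonneg) (fun i n hn =>
        ENNReal.toReal_le_of_le_ofReal (by positivity)
          ((sysD_m2_anti _ _ (κ00.trans hκ)).trans (hK2 i n hn))) (hκ0 κ hκ)] with n hn i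
    refine (hn i).trans ?_
    gcongr
    calc C * (ε / (|C| + 1)) ≤ (|C| + 1) * (ε / (|C| + 1)) := by
          gcongr; linarith [le_abs_self C]
      _ = ε := by field_simp
  constructor
  · intro j ε hε
    obtain ⟨κ, κ0, hκ⟩ := key ε hε
    refine ⟨κ, κ0, ?_⟩
    filter_upwards [hκ κ le_rfl, eventually_ge_atTop 1] with n hn n1
    rw [← ENNReal.ofReal_toReal (ne_top_of_le_ne_top ENNReal.ofReal_ne_top
      ((sysD_m2_anti _ _ κ0).trans (hK2 j n n1)))]
    exact ENNReal.ofReal_le_ofReal (hn j)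
  · intro k ε hε
    set S : ℝ := ∑ j, ((F k).acoef j + 1) with hS
    have S0 : 0 ≤ S := Finset.sum_nonneg fun j _ => by
      have := (hs k j).2.nonneg (hs k j).1
      linarith
    obtain ⟨κ1, κ10, hκ1⟩ := key (ε / (4 * (S + 1))) (by positivity)
    obtain ⟨κ2, κ20, hκ2⟩ := sysD_fam H h hD h1 h2 hc h4 hL (η := min 1 (ε / 2)) (by positivity)
    refine ⟨max κ1 κ2, le_max_of_le_left κ10, ?_⟩
    obtain ⟨N, hN⟩ := eventually_atTop.1 (hκ1 _ (le_max_left κ1 κ2))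
    filter_upwards [hκ2 k _ (le_max_right κ1 κ2), eventually_ge_atTop (2 * N),
      Filter.eventually_all.2 fun j => conv_le (hs k j).1 (hs k j).2 one_pos] with n a1 a2 a3
    refine a1.trans (ENNReal.ofReal_le_ofReal ?_)
    set r : ℝ := (n : ℝ) ^ (-(5 / 2) : ℝ) with hr
    have r0 : 0 ≤ r := by positivity
    have b : ∑ j, ∑ l ∈ Finset.range ((n + 1) / 2),
        (F k).aa ν s j l * (m2 (slaw (ν j) s z) (n - l) (max κ1 κ2)).toReal ≤
        ε / (4 * (S + 1)) * (S * r) := by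
      rw [hS, Finset.sum_mul, Finset.mul_sum]
      refine Finset.sum_le_sum fun j _ => ?_
      refine le_trans ?_ (mul_le_mul_of_nonneg_left (a3 j) (by positivity))
      rw [Finset.mul_sum]
      refine Finset.sum_le_sum fun l hl => ?_
      have l1 : N ≤ n - l := by
        have := Finset.mem_range.1 hl
        omega
      rw [mul_left_comm]
      exact mul_le_mul_of_nonneg_left (hN _ l1 j) ((hs k j).1 l)
    have b2 : ε / (4 * (S + 1)) * (S * r) ≤ ε / 4 * r := by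
      calc ε / (4 * (S + 1)) * (S * r) ≤ ε / (4 * (S + 1)) * ((S + 1) * r) := by
            gcongr; linarith
        _ = ε / 4 * r := by field_simp
    have m1 : min 1 (ε / 2) ≤ 1 := min_le_left _ _
    have m2' : min 1 (ε / 2) ≤ ε / 2 := min_le_right _ _
    have m3 : 0 < min 1 (ε / 2) := by positivity
    calc _ ≤ 2 * (ε / 4 * r) + ε / 2 * r := by
          refine add_le_add ?_ (by gcongr)
          refine (mul_le_mul_of_nonneg_left (b.trans b2) (by positivity)).trans ?_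
          gcongr
          linarith
      _ = ε * r := by ring

end Pool.Agent.Lib.MP_77dff5_pr
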