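import Pool.Agent.Lib.MP_77dff5_pr.BWin
import Pool.Agent.Lib.MP_77dff5_pr.BDom
import Pool.Agent.Lib.MP_77dff5_pr.BLyap
import Pool.Agent.Lib.MP_77dff5_pr.SysA
import Pool.Agent.Lib.MP_77dff5_pr.SysB
import Pool.Agent.Lib.MP_77dff5_pr.SysD

/-! Model B: a priori estimates. -/

set_option autoImplicit false

namespace Pool.Agent.Lib.MP_77dff5_pr

open MeasureTheory ProbabilityTheory Filter Topology
open scoped ENNReal NNReal

variable {w x : ℝ} {f : ℕ → ℝ} {k0 : ℕ}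

/-- all a priori estimates for a centred statistic -/
structure Prior (x : ℝ) (f : ℕ → ℝ) (k0 : ℕ) (lam mu : ℝ) : Prop where
  slots : Slots (nuB x) sB (zz sB f lam mu)
  t1 : ∃ A : ℝ, T1 (nuB x) sB A
  t4 : ∃ c₀ : ℝ, 0 < c₀ ∧ T4 (nuB x .D) sB c₀
  pmJ : ∀ j, PmB (slaw (nuB x j) sB (zz sB f lam mu))
  pmK : ∀ k, PmB ((FB x f k0 lam k).law (nuB x) sB (zz sB f lam mu))
  m2K : ∀ k, M2B ((FB x f k0 lam k).law (nuB x) sB (zz sB f lam mu))
  uiK : ∀ k, UIB ((FB x f k0 lam k).law (nuB x) sB (zz sB f lam mu))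
  clt : ∃ c σ2 : ℝ, 0 < c ∧ WinCLT ((FB x f k0 lam .H).pos (nuB x) sB) (FB x f k0 lam .H).w
    (fun t => ((FB x f k0 lam .H).core t).L (nuB x) (zz sB f lam mu)) c σ2

theorem bPrior_D_ne {k : KB} (hk : incB .D k = true) {ω : Om}
    (hω : lhsB (wC (ENNReal.ofReal x)) (ENNReal.ofReal x) k ω ≠ 0) : wB x .D ω ≠ 0 := by
  intro h0
  have e := partB (wv := wC (ENNReal.ofReal x)) (x := ENNReal.ofReal x) .D (by decide) (by decide) ω
  have h1 : (∑ k, if incB .D k then lhsB (wC (ENNReal.ofReal x)) (ENNReal.ofReal x) k ω else 0)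
      = 0 := by
    rw [← e]; exact h0
  have h2 := (Finset.sum_eq_zero_iff.1 h1) k (Finset.mem_univ _)
  rw [if_pos hk] at h2
  exact hω h2

theorem BCrit.prior (h : BCrit w x) (hT : TFacts w) (hC : CT (xw w).toNNReal (tauw w).toNNReal)
    (hf : EvC f k0) (lam : ℝ) : ∃ mu : ℝ, Prior x f k0 lam mu := by
  obtain ⟨mu, c, σ2, hc, hL, hclt⟩ := h.centre hT hC hf lam
  obtain ⟨η₀, hη₀, hly⟩ := h.lyap hT
  obtain ⟨Δ, B, hgood, hlight, hheavy⟩ := h.good hT hf lam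
  obtain ⟨hwin, -, -⟩ := h.win hT hC f k0 lam
  have H : SysOK (nuB x) sB (zz sB f lam mu) (FB x f k0 lam) (cB x (1 / 2) η₀) .H .D Δ B :=
    ⟨h.slots1 hf lam mu, hgood, hlight, hheavy, hwin, hly f k0 lam (1 / 2) η₀ le_rfl le_rfl⟩
  have hD : ∀ j, Dom (slaw (nuB x j) sB (zz sB f lam mu))
      (src (FB x f k0 lam) (cB x (1 / 2) η₀) (nuB x) sB (zz sB f lam mu) j) :=
    fun j => h.dom hT hf lam mu hη₀ j
  obtain ⟨A1, h1⟩ := H.t1 hD
  obtain ⟨A2, h2⟩ := h.lin_bd hf lam mu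
  have hS : Slots (nuB x) sB (zz sB f lam mu) := by
    refine H.slots2 (A := max A1 (max A2 6)) hD (h1.mono (le_max_left _ _)) (fun j => ?_) hL
      (fun t N hN => ?_)
    · filter_upwards [h2 j] with ω hω
      refine hω.trans (mul_le_mul_of_nonneg_right
        ((le_max_left _ _).trans (le_max_right _ _)) (by positivity))
    · refine (h.k_le f k0 lam t N hN).trans (mul_le_mul_of_nonneg_right
        ((le_max_right _ _).trans (le_max_right _ _)) (by positivity))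
  obtain ⟨A3, h3⟩ := H.t2 hS hD hL
  have hsum : Summable fun t => ((FB x f k0 lam .H).w t : ℝ) := by
    rw [h.H_w hT f k0 lam]
    exact hT.mass.summable
  obtain ⟨-, c', hc', hlow⟩ := WinCLT.lower hclt hc hsum
  have hcne : cB x (1 / 2) η₀ .D .H ≠ 0 := by
    obtain ⟨m0, m1⟩ := h.mass_ne .D
    have e : cB x (1 / 2) η₀ .D .H = (∑' ω, wB x .D ω)⁻¹.toNNReal := by
      simp [cB, incB]
    rw [e]
    exact ENNReal.toNNReal_ne_zero.2 ⟨ENNReal.inv_ne_zero.2 m1, ENNReal.inv_ne_top.2 m0⟩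
  have hx : ENNReal.ofReal x ≠ 0 := by
    simpa using h.pos
  have a0 : nuB x .D {ω | sB ω = 0} ≠ 0 := by
    obtain ⟨ω, hω, -, -, hs⟩ := atomB_E (wv := wC (ENNReal.ofReal x)) (x := ENNReal.ofReal x)
    exact nrm_ne_zero (h.mass_ne .D).2 (bPrior_D_ne (k := .E) rfl hω) hs
  have a1 : nuB x .D {ω | sB ω = 1} ≠ 0 := by
    obtain ⟨ω, hω, hs⟩ := atomB_S (wv := wC (ENNReal.ofReal x)) (x := ENNReal.ofReal x)
      (by rw [wC_triv]; exact hx)
    exact nrm_ne_zero (h.mass_ne .D).2 (bPrior_D_ne (k := .S) rfl hω) hs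
  obtain ⟨c₀, hc₀, h4⟩ := H.t4 h1 (h.law hT hf lam mu (1 / 2) η₀ .D (by decide) (by decide)) hcne hc'
    (hlow.mono fun y hy => hy.2) a0 a1
  have h1' : T1 (nuB x) sB (max A1 A3) := h1.mono (le_max_left _ _)
  have h3' : T2 (nuB x) sB (zz sB f lam mu) (max A1 A3) := h3.mono (le_max_right _ _)
  obtain ⟨pJ, pK⟩ := H.pmB hS hD h1 hc₀ h4
  obtain ⟨-, mK⟩ := H.m2B hS hD h1' h3' hc₀ h4 hL
  obtain ⟨-, uK⟩ := H.uiB hS hD h1' h3' hc₀ h4 hL
  exact ⟨mu, hS, ⟨A1, h1⟩, ⟨c₀, hc₀, h4⟩, pJ, pK, mK, uK, c, σ2, hc, hclt⟩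

end Pool.Agent.Lib.MP_77dff5_pr
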