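import Pool.Agent.Lib.MP_77dff5_pr.Crit2
import Pool.Agent.Lib.MP_77dff5_pr.TCoreA
import Pool.Agent.Lib.MP_77dff5_pr.Family

/-! Model B: laws, good families, Lyapunov vector. -/

set_option autoImplicit false

namespace Pool.Agent.Lib.MP_77dff5_pr

open MeasureTheory ProbabilityTheory Filter Topology
open scoped ENNReal NNReal

variable {w x : ℝ} {f : ℕ → ℝ} {k0 : ℕ}

theorem bSys_le {wv : RG → ℝ≥0∞} {y : ℝ≥0∞} (j : JB) (h1 : j ≠ .C) (h2 : j ≠ .G) (k : KB)
    (hk : incB j k = true) (ω : Om) : lhsB wv y k ω ≤ wgB wv y j ω := by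
  rw [partB j h1 h2 ω]
  have := Finset.single_le_sum (f := fun k => if incB j k then lhsB wv y k ω else 0)
    (fun _ _ => zero_le) (Finset.mem_univ k)
  simpa [hk] using this

theorem bSys_ne {W : Om → ℝ≥0∞} {ω : Om} (h : W ω ≠ 0) : ∑' ω, W ω ≠ 0 := fun h0 =>
  h (ENNReal.tsum_eq_zero.1 h0 ω)

theorem BCrit.mass_ne (h : BCrit w x) (j : JB) : ∑' ω, wB x j ω ≠ 0 ∧ ∑' ω, wB x j ω ≠ ⊤ := by
  have hx : ENNReal.ofReal x ≠ 0 := (ENNReal.ofReal_pos.2 h.pos).ne'
  have ht : wC (ENNReal.ofReal x) triv ≠ 0 := by rw [wC_triv]; exact hx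
  refine ⟨?_, ne_top_of_le_ne_top (h.fin j) (ENNReal.tsum_le_tsum fun ω => ?_)⟩
  · obtain ⟨e, he, -⟩ := atomB_E (wv := wC (ENNReal.ofReal x)) (x := ENNReal.ofReal x)
    obtain ⟨p, hp, -⟩ := atomB_S (wv := wC (ENNReal.ofReal x)) (x := ENNReal.ofReal x) ht
    obtain ⟨g, hg, -⟩ := atom_G (x := ENNReal.ofReal x)
    cases j
    · exact bSys_ne (ω := .inl triv) ht
    · exact bSys_ne (ω := e) fun h0 =>
        he (le_zero_iff.1 ((bSys_le .D (by decide) (by decide) .E rfl e).trans h0.le))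
    · exact bSys_ne (ω := e) fun h0 =>
        he (le_zero_iff.1 ((bSys_le .nS (by decide) (by decide) .E rfl e).trans h0.le))
    · exact bSys_ne (ω := p) fun h0 =>
        hp (le_zero_iff.1 ((bSys_le .J (by decide) (by decide) .S rfl p).trans h0.le))
    · exact bSys_ne (ω := p) fun h0 =>
        hp (le_zero_iff.1 ((bSys_le .Dt (by decide) (by decide) .S rfl p).trans h0.le))
    · refine bSys_ne (ω := .inr (.inr g)) ?_
      change wG (ENNReal.ofReal x) g ≠ 0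
      rw [hg]
      exact one_ne_zero
  · exact le_mul_of_one_le_right' le_add_self

theorem BCrit.lin_bd (h : BCrit w x) (hf : EvC f k0) (lam mu : ℝ) :
    ∃ A : ℝ, ∀ j, ∀ᵐ ω ∂nuB x j, |zz sB f lam mu ω| ≤ A * (sB ω + 1) := by
  obtain ⟨B, hB⟩ := hf.bdd
  have h0 : 0 ≤ B := (abs_nonneg _).trans (hB 0)
  refine ⟨B + 6 * |lam| + |mu|, fun j => ae_nrm fun ω hω => ?_⟩
  obtain ⟨h1, h2⟩ := ne_le_B j hω
  have h3 := abs_FO_le hB ω
  have h4 : (ne ω : ℝ) ≤ 6 * (sB ω + 1) := by exact_mod_cast h1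
  have h5 : (nv ω : ℝ) ≤ sB ω := by exact_mod_cast h2
  have h6 : (0 : ℝ) ≤ sB ω := Nat.cast_nonneg _
  have hl := abs_nonneg lam
  have hm := abs_nonneg mu
  have h7 : |zz sB f lam mu ω| ≤ |FO f ω| + |lam| * ne ω + |mu| * sB ω := by
    unfold zz
    refine (abs_sub _ _).trans ?_
    rw [abs_mul mu, Nat.abs_cast]
    gcongr
    refine (abs_add_le _ _).trans ?_
    rw [abs_mul, Nat.abs_cast]
  have h8 : |lam| * ne ω ≤ |lam| * (6 * (sB ω + 1)) := mul_le_mul_of_nonneg_left h4 hl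
  have h9 : B * nv ω ≤ B * sB ω := mul_le_mul_of_nonneg_left h5 h0
  nlinarith

theorem bSys_prob (h : BCrit w x) (j : JB) : IsProbabilityMeasure (nuB x j) :=
  isProb_nrm (h.mass_ne j).1 (h.mass_ne j).2

theorem bSys_int (h : BCrit w x) (j : JB) : Integrable (fun ω => (sB ω : ℝ)) (nuB x j) := by
  refine ⟨(measurable_of_countable _).aestronglyMeasurable, ?_⟩
  rw [hasFiniteIntegral_iff_ofReal (ae_of_all _ fun ω => Nat.cast_nonneg _)]
  simp only [ENNReal.ofReal_natCast]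
  rw [nuB, nrm, lintegral_smul_measure, lintegral_meas, smul_eq_mul]
  refine ENNReal.mul_lt_top (ENNReal.inv_lt_top.2 (pos_iff_ne_zero.2 (h.mass_ne j).1)) ?_
  refine lt_of_le_of_lt (ENNReal.tsum_le_tsum fun ω => ?_) (h.fin j).lt_top
  gcongr
  exact le_self_add

theorem BCrit.slots1 (h : BCrit w x) (hf : EvC f k0) (lam mu : ℝ) :
    Slots1 (nuB x) sB (zz sB f lam mu) := by
  obtain ⟨A, hA⟩ := h.lin_bd hf lam mu
  refine ⟨bSys_prob h, bSys_int h, fun j => ?_⟩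
  have := bSys_prob h j
  exact Integrable.mono' (((bSys_int h j).add (integrable_const 1)).const_mul A)
    (measurable_of_countable _).aestronglyMeasurable (hA j)

theorem bSys_C (h : BCrit w x) : ∑' ω, wB x .C ω = ENNReal.ofReal (xw w) :=
  bMass_C.trans h.massC

theorem BCrit.H_w (h : BCrit w x) (hT : TFacts w) (f : ℕ → ℝ) (k0 : ℕ) (lam : ℝ) :
    (FB x f k0 lam .H).w = wTw w := by
  funext t
  change TT at t
  have hD : ∑' ω, wB x .D ω = ENNReal.ofReal (tauw w) := (massB_eq h.crit hT h.massC).1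
  change (wt t.1.1 t.1.2.1 * ∏ i : Fin t.1.1 ⊕ Fin t.1.2.1,
    ∑' ω, wB x (Sum.elim (fun _ => JB.D) (fun _ => JB.C) i) ω).toNNReal = _
  rw [Fintype.prod_sum_type]
  simp only [Sum.elim_inl, Sum.elim_inr, Finset.prod_const, Finset.card_univ, Fintype.card_fin]
  rw [hD, bSys_C h, bMass_wT, ENNReal.ofReal_coe_nnreal, ENNReal.toNNReal_coe]
  rfl

theorem bSys_lhs_ne (h : BCrit w x) (k : KB) :
    ∑' ω, lhsB (wC (ENNReal.ofReal x)) (ENNReal.ofReal x) k ω ≠ ⊤ := by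
  have h1 : ∀ k, incB .D k = true →
      ∑' ω, lhsB (wC (ENNReal.ofReal x)) (ENNReal.ofReal x) k ω ≠ ⊤ := fun k hk =>
    ne_top_of_le_ne_top (h.mass_ne .D).2
      (ENNReal.tsum_le_tsum (bSys_le .D (by decide) (by decide) k hk))
  have h2 : ∀ k, ∀ _ : Fintype (ufB (fun _ => 0) 0 0 k).T,
      (∀ t, (ufB (fun _ => 0) 0 0 k).w t = 1) →
      ∑' ω, lhsB (wC (ENNReal.ofReal x)) (ENNReal.ofReal x) k ω ≠ ⊤ := fun k _ hk => by
    rw [(eqnB (ENNReal.ofReal x) (fun _ => 0) 0 0 0 bMass_evc k).mass, tsum_fintype]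
    refine ENNReal.sum_ne_top.2 fun t _ => ?_
    rw [hk, one_mul]
    exact ENNReal.prod_ne_top fun i _ => (h.mass_ne _).2
  cases k
  · exact h1 _ rfl
  · exact h1 _ rfl
  · exact h1 _ rfl
  · exact h1 _ rfl
  · exact h1 _ rfl
  · exact h2 _ (inferInstanceAs (Fintype (Fin 2))) fun _ => rfl
  · exact h2 _ (inferInstanceAs (Fintype Unit)) fun _ => rfl

theorem BCrit.law_fam (h : BCrit w x) (hT : TFacts w) (hf : EvC f k0) (lam mu : ℝ) (k : KB) :
    slaw (meas (lhsB (wC (ENNReal.ofReal x)) (ENNReal.ofReal x) k)) sB (zz sB f lam mu) =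
      (FB x f k0 lam k).law (nuB x) sB (zz sB f lam mu) :=
  (eqnB _ f k0 lam mu hf k).law (fun j => (h.mass_ne j).1) (fun j => (h.mass_ne j).2)
    (bSys_lhs_ne h k)

theorem bSys_meas (wv : RG → ℝ≥0∞) (y : ℝ≥0∞) (j : JB) (h1 : j ≠ .C) (h2 : j ≠ .G) :
    meas (wgB wv y j) = ∑ k, if incB j k then meas (lhsB wv y k) else 0 := by
  ext A hA
  rw [← lintegral_indicator_one hA, lintegral_meas, Measure.finsetSum_apply, bMass_part j h1 h2]
  refine Finset.sum_congr rfl fun k _ => ?_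
  split_ifs
  · rw [← lintegral_indicator_one hA, lintegral_meas]
  · simp

theorem BCrit.law (h : BCrit w x) (hT : TFacts w) (hf : EvC f k0) (lam mu : ℝ) (ρ η : ℝ≥0) (j : JB)
    (h1 : j ≠ .C) (h2 : j ≠ .G) : slaw (nuB x j) sB (zz sB f lam mu) =
      src (FB x f k0 lam) (cB x ρ η) (nuB x) sB (zz sB f lam mu) j := by
  have h0 := (h.mass_ne j).1
  have hm : meas (wB x j) = _ := bSys_meas _ _ j h1 h2
  rw [slaw, nuB, nrm, Measure.map_smul, hm,
    Measure.map_finset_sum' (measurable_of_countable _).aemeasurable, src, Finset.smul_sum]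
  refine Finset.sum_congr rfl fun k _ => ?_
  rw [← h.law_fam hT hf, cB]
  by_cases hk : incB j k = true
  · rw [if_pos hk, if_pos hk, one_mul, ENNReal.smul_def,
      ENNReal.coe_toNNReal (ENNReal.inv_ne_top.2 h0)]
    rfl
  · rw [if_neg hk, if_neg hk, if_neg fun hh => h1 hh.1, if_neg fun hh => h2 hh.1]
    simp

theorem bSys_small {r Δ : ℕ} {B : ℝ} (cls : Fin r → JB) {z0 : ℝ}
    {g : (Fin r → Om) → ℝ} (hg : ∀ ω, |g ω| ≤ B) (hr : r ≤ Δ) (h1 : 1 ≤ Δ)
    (hz : |z0| ≤ B) : (Core.small r cls 0 z0 g).Good Δ B := by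
  have hB : 0 ≤ B := (abs_nonneg _).trans hz
  refine ⟨fun _ ω => hg ω, fun _ => ?_, fun i => ?_, ?_, ?_, ?_⟩
  · show (Finset.univ : Finset (Fin r)).card ≤ Δ
    simpa using hr
  · refine le_trans ?_ h1
    refine (Finite.card_subtype_le _).trans ?_
    show Nat.card Unit ≤ 1
    simp
  · show Fintype.card Unit ≤ _
    rw [Fintype.card_unit]
    nlinarith
  · exact Nat.zero_le _
  · show |z0| ≤ _
    have : (0 : ℝ) ≤ (Core.small r cls 0 z0 g).k := Nat.cast_nonneg _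
    nlinarith

theorem bSys_free {Δ : ℕ} {B : ℝ} (I : Type) [Fintype I] [DecidableEq I] (cls : I → JB)
    {z0 : ℝ} (hz : |z0| ≤ B) : (Core.free (Ω := Om) I cls 0 z0).Good Δ B := by
  have hB : 0 ≤ B := (abs_nonneg _).trans hz
  refine ⟨fun v => v.elim, fun v => v.elim, fun i => ?_, ?_, Nat.zero_le _, ?_⟩
  · refine le_trans (Finite.card_subtype_le _) ?_
    show Nat.card Empty ≤ _
    simp
  · show Fintype.card Empty ≤ _
    simp
  · show |z0| ≤ _
    have : (0 : ℝ) ≤ (Core.free (Ω := Om) I cls 0 z0).k := Nat.cast_nonneg _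
    nlinarith

theorem bSys_exp (r : ℝ) (hr : 0 ≤ r) (a c : ℕ) :
    Summable fun j : ℕ => r ^ (j + c) / ((j + c).factorial : ℝ) * ((j + c : ℕ) : ℝ) ^ a := by
  have h1 : Summable fun n : ℕ => r ^ n / (n.factorial : ℝ) * (n : ℝ) ^ a := by
    refine (Real.summable_pow_div_factorial (r * 2 ^ a)).of_nonneg_of_le
      (fun n => by positivity) fun n => ?_
    have h2 : (n : ℝ) ^ a ≤ (2 ^ a) ^ n := by
      rw [← pow_mul, mul_comm, pow_mul]
      gcongr
      exact_mod_cast (Nat.lt_two_pow_self (n := n)).le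
    rw [mul_pow, mul_div_right_comm]
    gcongr
  exact (summable_nat_add_iff c).2 h1

theorem bSys_wP (x : ℝ) (c : ℕ) :
    (((((c.factorial : ℕ) : ℝ≥0∞)⁻¹ * ∏ _i : Fin c, ∑' ω, wB x .J ω).toNNReal : ℝ≥0) : ℝ) =
      (∑' ω, wB x .J ω).toReal ^ c / (c.factorial : ℝ) := by
  show ENNReal.toReal _ = _
  rw [ENNReal.toReal_mul, Finset.prod_const, Finset.card_univ, Fintype.card_fin, ENNReal.toReal_pow,
    ENNReal.toReal_inv, ENNReal.toReal_natCast]
  ring

theorem bSys_P0 (x : ℝ) (f : ℕ → ℝ) (k0 : ℕ) (lam : ℝ) (a : ℕ) : Summable fun t =>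
    ((FB x f k0 lam .P0).w t : ℝ) * (((FB x f k0 lam .P0).core t).k : ℝ) ^ a := by
  refine (bSys_exp (∑' ω, wB x .J ω).toReal ENNReal.toReal_nonneg a 2).congr fun j => ?_
  have h1 : ((FB x f k0 lam .P0).core j).k = j + 2 := Fintype.card_fin _
  rw [h1, ← bSys_wP]
  rfl

theorem bSys_P1 (x : ℝ) (f : ℕ → ℝ) (k0 : ℕ) (lam : ℝ) (a : ℕ) : Summable fun t =>
    ((FB x f k0 lam .P1).w t : ℝ) * (((FB x f k0 lam .P1).core t).k : ℝ) ^ a := by
  refine (bSys_exp (∑' ω, wB x .J ω).toReal ENNReal.toReal_nonneg a 1).congr fun j => ?_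
  have h1 : ((FB x f k0 lam .P1).core j).k = j + 1 := Fintype.card_fin _
  rw [h1, ← bSys_wP]
  rfl

theorem bSys_light (x : ℝ) (f : ℕ → ℝ) (k0 : ℕ) (lam : ℝ) (a : ℕ) (k : KB) (hk : k ≠ .H) :
    Summable fun t => ((FB x f k0 lam k).w t : ℝ) * (((FB x f k0 lam k).core t).k : ℝ) ^ a := by
  cases k
  · have : Finite (FB x f k0 lam .E).T := inferInstanceAs (Finite Unit)
    exact Summable.of_finite
  · have : Finite (FB x f k0 lam .S).T := inferInstanceAs (Finite Unit)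
    exact Summable.of_finite
  · exact bSys_P0 x f k0 lam a
  · exact bSys_P1 x f k0 lam a
  · exact absurd rfl hk
  · have : Finite (FB x f k0 lam .R).T := inferInstanceAs (Finite (Fin 2))
    exact Summable.of_finite
  · have : Finite (FB x f k0 lam .G).T := inferInstanceAs (Finite Unit)
    exact Summable.of_finite

theorem bSys_k (x : ℝ) (f : ℕ → ℝ) (k0 : ℕ) (lam : ℝ) (t : TT) :
    ((FB x f k0 lam .H).core t).k = t.1.1 + t.1.2.1 := tcore_k t.1 _ _

theorem bSys_good (h : BCrit w x) (hT : TFacts w) {B B' : ℝ} (hf : ∀ d, |f d| ≤ B) {lam : ℝ}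
    (hB : 2 * B + |lam| ≤ B') (k : KB) : (FB x f k0 lam k).Good (k0 + 3) B' := by
  have hl := abs_nonneg lam
  have hB0 : 0 ≤ B := (abs_nonneg _).trans (hf 0)
  have hf' : ∀ d, |f d| ≤ B' := fun d => by linarith [hf d]
  have hf2 : ∀ d d', |f d + f d'| ≤ B' := fun d d' => by
    linarith [abs_add_le (f d) (f d'), hf d, hf d']
  have hlm : |lam| ≤ B' := by linarith
  have h0 : |(0 : ℝ)| ≤ B' := by rw [abs_zero]; linarith
  refine ⟨fun t => ?_, ?_⟩
  · cases k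
    · exact bSys_free Empty _ hlm
    · exact bSys_small _ (fun _ => hf' _) (by omega) (by omega) h0
    · exact bSys_free _ _ h0
    · exact bSys_free _ _ hlm
    · change TT at t
      refine tcore_good hf' (by omega) t.1 (Nat.zero_le _) ?_
      rw [abs_zero] at h0 ⊢
      positivity
    · change Fin 2 at t
      fin_cases t
      · exact bSys_small _ (fun _ => hf2 _ _) (by omega) (by omega) hlm
      · exact bSys_small _ (fun _ => hf2 _ _) (by omega) (by omega) hlm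
    · exact bSys_small _ (fun _ => hf' _) (by omega) (by omega) h0
  · by_cases hk : k = .H
    · subst hk
      refine (hT.sum1.mul_left 3).of_nonneg_of_le (fun t => by positivity) fun t => ?_
      change TT at t
      rw [h.H_w hT, bSys_k]
      obtain ⟨-, h2, -, h3, -⟩ := TT_facts t
      have h5 : ((t.1.1 + t.1.2.1 : ℕ) : ℝ) + 1 ≤ 3 * (t.1.1 : ℝ) := by
        have : t.1.1 + t.1.2.1 + 1 ≤ 3 * t.1.1 := by omega
        exact_mod_cast this
      have h8 := (wTw w t).coe_nonneg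
      simp only [posm]
      nlinarith
    · refine ((bSys_light x f k0 lam 1 k hk).add (bSys_light x f k0 lam 0 k hk)).congr fun t => ?_
      ring

theorem bSys_one_le (x : ℝ) : ∀ᵐ ω ∂nuB x .C, 1 ≤ sB ω := by
  refine ae_nrm fun ω hω => ?_
  rcases ω with R | ω
  · exact Nat.le_add_left _ _
  · exact absurd rfl hω

theorem bSys_mean (h : BCrit w x) (f : ℕ → ℝ) (k0 : ℕ) (lam : ℝ) (t : TT) :
    (t.1.2.1 : ℝ) ≤ ((FB x f k0 lam .H).core t).mean (nuB x) sB := by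
  have h1 : ((FB x f k0 lam .H).core t).mean (nuB x) sB = _ := tcore_mean t.1 _ _
  have := bSys_prob h .C
  have h2 : 1 ≤ ∫ ω, (sB ω : ℝ) ∂nuB x .C := by
    have h3 := integral_mono_ae (integrable_const (1 : ℝ)) (bSys_int h .C)
      ((bSys_one_le x).mono fun ω hω => show (1 : ℝ) ≤ (sB ω : ℝ) by exact_mod_cast hω)
    simpa using h3
  have h4 : 0 ≤ ∫ ω, (sB ω : ℝ) ∂nuB x .D := integral_nonneg fun ω => Nat.cast_nonneg _
  have h5 : (0 : ℝ) ≤ t.1.1 := Nat.cast_nonneg _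
  have h6 : (0 : ℝ) ≤ t.1.2.1 := Nat.cast_nonneg _
  rw [h1, Nat.cast_zero]
  nlinarith

theorem BCrit.good (h : BCrit w x) (hT : TFacts w) (hf : EvC f k0) (lam : ℝ) : ∃ (Δ : ℕ) (B : ℝ),
    (∀ k, (FB x f k0 lam k).Good Δ B) ∧
    (∀ k, k ≠ .H → Summable fun t =>
      ((FB x f k0 lam k).w t : ℝ) * (((FB x f k0 lam k).core t).k : ℝ) ^ 6) ∧
    (FB x f k0 lam .H).Heavy (nuB x) sB .D Δ B := by
  obtain ⟨B, hB⟩ := hf.bdd
  have h0 : 0 ≤ B := (abs_nonneg _).trans (hB 0)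
  have hl := abs_nonneg lam
  have h1 : 2 * B + |lam| ≤ 2 * B + |lam| + 10 := by linarith
  refine ⟨k0 + 3, 2 * B + |lam| + 10, bSys_good h hT hB h1, bSys_light x f k0 lam 6,
    bSys_good h hT hB h1 .H, fun t => ?_, fun t => ?_, fun t => ?_, fun t => ?_⟩
  · change TT at t
    have h2 : ((FB x f k0 lam .H).core t).cnt .D = t.1.1 := (tcore_cnt (by decide) t.1 _ _).1
    rw [bSys_k, h2]
    obtain ⟨-, h3, -, h4, -⟩ := TT_facts t
    have : t.1.2.1 ≤ t.1.1 := by omega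
    nlinarith
  · change TT at t
    refine le_trans ?_ (bSys_mean h f k0 lam t)
    exact_mod_cast (TT_facts t).2.2.2.1
  · change TT at t
    rw [bSys_k]
    obtain ⟨-, h3, -, h4, -⟩ := TT_facts t
    omega
  · change TT at t
    rw [bSys_k]
    obtain ⟨-, -, h3, h4, -⟩ := TT_facts t
    have h5 : ((t.1.1 + t.1.2.1 : ℕ) : ℝ) ≤ 10 * (t.1.2.1 : ℝ) := by
      have : t.1.1 + t.1.2.1 ≤ 10 * t.1.2.1 := by omega
      exact_mod_cast this
    have h6 := bSys_mean h f k0 lam t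
    have h7 : (0 : ℝ) ≤ t.1.2.1 := Nat.cast_nonneg _
    nlinarith

theorem BCrit.k_le (h : BCrit w x) (f : ℕ → ℝ) (k0 : ℕ) (lam : ℝ) (t : TT) (N : ℕ)
    (hN : ((FB x f k0 lam .H).core t).P (nuB x) {ω | ((FB x f k0 lam .H).core t).S sB ω ≤ N} ≠ 0) :
    (((FB x f k0 lam .H).core t).k : ℝ) ≤ 6 * (N + 1) := by
  have hp := bSys_prob h
  have h1 : ∀ᵐ ω ∂((FB x f k0 lam .H).core t).P (nuB x), ∀ v : Fin t.1.2.1,
      1 ≤ sB (ω (Sum.inr v)) := by
    refine ae_all_iff.2 fun v => ?_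
    exact (measurePreserving_eval (fun i => nuB x (((FB x f k0 lam .H).core t).cls i))
      (Sum.inr v)).quasiMeasurePreserving.ae (bSys_one_le x)
  have h2 : t.1.2.1 ≤ N := by
    by_contra hlt
    refine hN (measure_mono_null (fun ω hω => ?_) (ae_iff.1 h1))
    intro hall
    have h3 : ((FB x f k0 lam .H).core t).S sB ω ≤ N := hω
    have h4 : ((FB x f k0 lam .H).core t).S sB ω =
        0 + ∑ i : Fin t.1.1 ⊕ Fin t.1.2.1, sB (ω i) := rfl
    rw [h4, Fintype.sum_sum_type] at h3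
    have h5 : ∑ _v : Fin t.1.2.1, 1 ≤ ∑ v : Fin t.1.2.1, sB (ω (Sum.inr v)) :=
      Finset.sum_le_sum fun v _ => hall v
    rw [Finset.sum_const, Finset.card_univ, Fintype.card_fin, smul_eq_mul, mul_one] at h5
    omega
  rw [bSys_k]
  obtain ⟨-, -, h3, -, -⟩ := TT_facts t
  have : t.1.1 + t.1.2.1 ≤ 6 * (N + 1) := by omega
  exact_mod_cast this

end Pool.Agent.Lib.MP_77dff5_pr
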