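import Pool.Agent.Lib.MP_77dff5_pr.UDefs
import Pool.Agent.Lib.MP_77dff5_pr.SumsC
import Pool.Agent.Lib.MP_77dff5_pr.TCoreA

/-! The centring is affine. -/

set_option autoImplicit false

namespace Pool.Agent.Lib.MP_77dff5_pr

open MeasureTheory ProbabilityTheory Filter Topology
open scoped ENNReal NNReal

theorem ctlin_nonneg {T : Type} {pos : T → ℝ} {w : T → ℝ≥0∞} {X : T → ℝ} {e c' : ℝ}
    (h : WinLLN pos w X e) (hX : ∀ t, 0 ≤ X t) (hc : 0 < c')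
    (hl : ∀ᶠ y : ℝ in atTop, ENNReal.ofReal (c' * y ^ (-(11 / 6) : ℝ)) ≤
      ∑' t : {t // y ≤ pos t ∧ pos t ≤ y + y ^ (2 / 3 : ℝ)}, w t) : 0 ≤ e := by
  by_contra he
  have he' : 0 < -e := by linarith
  obtain ⟨y, h1, h2, h3⟩ :=
    (hl.and ((h (-e / 2) (c' / 2) (half_pos he') (half_pos hc)).and (eventually_gt_atTop 0))).exists
  have h4 := (h1.trans (sumsA_mono w (q := fun t => y ≤ pos t ∧ pos t ≤ y + y ^ (2 / 3 : ℝ) ∧
    -e / 2 * y < |X t - e * pos t|) fun t ht => ⟨ht.1, ht.2, ?_⟩)).trans h2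
  · have h5 : 0 < y ^ (-(11 / 6) : ℝ) := Real.rpow_pos_of_pos h3 _
    rw [ENNReal.ofReal_le_ofReal_iff (by positivity)] at h4
    nlinarith [mul_pos hc h5]
  · refine lt_of_lt_of_le ?_ (le_abs_self _)
    nlinarith [hX t, mul_pos he' h3, mul_le_mul_of_nonneg_left ht.1 he'.le]

theorem CT.lin {x τ : ℝ≥0} (h : CT x τ) (hs : Summable fun t => (wT x τ t : ℝ)) :
    ∃ (ν : ℝ) (cen : (ℕ → ℝ) → ℝ), 0 ≤ ν ∧
      DyB posm (fun t => wT x τ t * ENNReal.ofReal (((t.1.2.1 : ℝ) - ν * posm t) ^ 6)) (3 / 2) ∧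
      WinLLN posm (fun t => wT x τ t) (fun t => t.1.2.1) ν ∧
      ∀ (l : ℕ → ℝ) (k0 : ℕ), EvC l k0 → WinLLN posm (fun t => wT x τ t) (fun t => Fl l t.1) (cen l) ∧
        ∀ β : ℝ, ∃ c σ2 : ℝ, 0 < c ∧
          WinB posm (fun t => wT x τ t * ENNReal.ofReal
            ((Fl l t.1 + β * t.1.2.1 - (cen l + β * ν) * posm t) ^ 4)) (1 / 6) ∧
          DyB posm (fun t => wT x τ t * ENNReal.ofReal
            ((Fl l t.1 + β * t.1.2.1 - (cen l + β * ν) * posm t) ^ 6)) (3 / 2) ∧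
          WinCLT posm (wT x τ) (fun t => Fl l t.1 + β * t.1.2.1 - (cen l + β * ν) * posm t) c σ2 := by
  classical
  obtain ⟨ν, c, σ2, hc, h4, h6, hclt⟩ := h.clt (fun _ => 1) 0 fun _ _ => rfl
  obtain ⟨-, c', hc', hlow⟩ := hclt.lower hc hs
  have hl := hlow.mono fun y hy => hy.1
  have h1 : ∀ t : TT, Fl (fun _ => 1) t.1 = t.1.2.1 := fun t => by simp [Fl]
  simp only [h1] at h4 h6
  have hν : WinLLN posm (fun t => wT x τ t) (fun t => t.1.2.1) ν := WinLLN.of_four h4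
  refine ⟨ν, fun l => Classical.epsilon (WinLLN posm (fun t => wT x τ t) fun t => Fl l t.1),
    ctlin_nonneg hν (fun t => Nat.cast_nonneg _) hc' hl, h6, hν, fun l k0 hev => ?_⟩
  have hcen := Classical.epsilon_spec (p := WinLLN posm (fun t => wT x τ t) fun t => Fl l t.1)
    ((h.clt l k0 hev).imp fun e ⟨_, _, _, g, _⟩ => WinLLN.of_four g)
  refine ⟨hcen, fun β => ?_⟩
  obtain ⟨e, c, σ2, hc, g4, g6, gclt⟩ := h.clt (fun d => l d + β) k0 fun d hd => by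
    simp only [hev d hd]
  simp only [Fl_add_const] at g4 g6 gclt
  have h2 := hcen.add hν 1 β
  simp only [one_mul] at h2
  obtain rfl := (WinLLN.of_four g4).unique h2 hc' hl
  exact ⟨c, σ2, hc, g4, g6, gclt⟩

end Pool.Agent.Lib.MP_77dff5_pr
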