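import Pool.Agent.Lib.MP_77dff5_pr.BSys
import Pool.Agent.Lib.MP_77dff5_pr.CTlin
import Pool.Agent.Lib.MP_77dff5_pr.TCoreB
import Pool.Agent.Lib.MP_77dff5_pr.SumsB
import Pool.Agent.Lib.MP_77dff5_pr.AWin

/-! Model B: the cores in the scale of the number of vertices. -/

set_option autoImplicit false

namespace Pool.Agent.Lib.MP_77dff5_pr

open MeasureTheory ProbabilityTheory Filter Topology
open scoped ENNReal NNReal

variable {w x : ℝ} {f : ℕ → ℝ} {k0 : ℕ}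

/-- mean size of a slot of model B -/
noncomputable def bWinM (x : ℝ) (j : JB) : ℝ := ∫ ω, (sB ω : ℝ) ∂nuB x j

/-- mean size of a filled core in model B -/
noncomputable def bWinPos (x : ℝ) (t : TT) : ℝ := t.1.1 * bWinM x .D + t.1.2.1 * bWinM x .C

theorem bWin_pos (x : ℝ) (f : ℕ → ℝ) (k0 : ℕ) (lam : ℝ) :
    (FB x f k0 lam .H).pos (nuB x) sB = bWinPos x := by
  funext t
  have e := tcore_mean (ν := nuB x) (s := sB) (a := aO) (b := bO) (c := cO) (jD := JB.D)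
    (jV := JB.C) (f := f) (k0 := k0) (show TT from t).1 0 0
  rw [Nat.cast_zero, zero_add] at e
  exact e

theorem bWin_evC0 : EvC (fun _ => (0 : ℝ)) 0 := fun _ _ => rfl

theorem bWin_M_nonneg (x : ℝ) (j : JB) : 0 ≤ bWinM x j :=
  integral_nonneg fun _ => Nat.cast_nonneg _

theorem bWin_MD_pos (h : BCrit w x) : 0 < bWinM x .D := by
  have hs := h.slots1 bWin_evC0 0 0
  have hx : ENNReal.ofReal x ≠ 0 := by simpa using h.pos
  obtain ⟨ω, h1, h2⟩ := atomB_S (x := ENNReal.ofReal x) (wv := wC (ENNReal.ofReal x))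
    (by rw [wC_triv]; exact hx)
  have h3 : wB x .D ω ≠ 0 := by
    intro h0
    have e := partB (wv := wC (ENNReal.ofReal x)) (x := ENNReal.ofReal x) .D (by decide)
      (by decide) ω
    rw [show wgB (wC (ENNReal.ofReal x)) (ENNReal.ofReal x) .D ω = 0 from h0, eq_comm,
      Finset.sum_eq_zero_iff] at e
    exact h1 (by simpa [incB] using e .S (Finset.mem_univ _))
  refine (integral_pos_iff_support_of_nonneg (fun _ => Nat.cast_nonneg _) (hs.int_s .D)).2 ?_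
  refine pos_iff_ne_zero.2 (nrm_ne_zero (h.mass_ne .D).2 h3 ?_)
  simp [h2]

theorem bWin_scale (h : BCrit w x) (hC : CT (xw w).toNNReal (tauw w).toNNReal) {ν : ℝ} (hν : 0 ≤ ν)
    (hU : DyB posm (fun t => wT (xw w).toNNReal (tauw w).toNNReal t *
      ENNReal.ofReal (((t.1.2.1 : ℝ) - ν * posm t) ^ 6)) (3 / 2)) :
    ∃ C : ℝ, Scale (wTw w) posm (bWinPos x) (fun t => (t.1.2.1 : ℝ) - ν * posm t)
      (bWinM x .D + ν * bWinM x .C) C := by
  have hD := bWin_MD_pos h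
  have hV := bWin_M_nonneg x .C
  have hi : 0 < (bWinM x .D)⁻¹ := inv_pos.2 hD
  refine ⟨(bWinM x .D)⁻¹ + bWinM x .D + bWinM x .C, by positivity, fun t => ?_, fun t => ?_,
    fun t => ?_, fun t => ?_, hC.win, hU⟩
  · have a := (TT_facts t).2.1
    have : 1 ≤ t.1.1 := by omega
    unfold posm
    exact_mod_cast this
  · have a : (0 : ℝ) ≤ t.1.1 := Nat.cast_nonneg _
    have b : (0 : ℝ) ≤ t.1.2.1 := Nat.cast_nonneg _
    have c : 0 ≤ bWinPos x t := by unfold bWinPos; positivity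
    have d : posm t ≤ (bWinM x .D)⁻¹ * bWinPos x t := by
      rw [← div_eq_inv_mul, le_div_iff₀ hD]
      unfold posm bWinPos
      nlinarith [mul_nonneg b hV]
    nlinarith [mul_nonneg (add_nonneg hD.le hV) c]
  · have a : (0 : ℝ) ≤ t.1.1 := Nat.cast_nonneg _
    have b : (t.1.2.1 : ℝ) ≤ t.1.1 := by
      have a := (TT_facts t).2.1
      have : t.1.2.1 ≤ t.1.1 := by omega
      exact_mod_cast this
    unfold posm bWinPos
    nlinarith [mul_le_mul_of_nonneg_right b hV, mul_nonneg hi.le a]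
  · have e : bWinPos x t - (bWinM x .D + ν * bWinM x .C) * posm t =
        bWinM x .C * ((t.1.2.1 : ℝ) - ν * posm t) := by
      unfold posm bWinPos
      ring
    rw [e, abs_mul, abs_of_nonneg hV]
    have := abs_nonneg ((t.1.2.1 : ℝ) - ν * posm t)
    nlinarith [mul_nonneg (add_nonneg hi.le hD.le) this]

theorem BCrit.win (h : BCrit w x) (hT : TFacts w) (hC : CT (xw w).toNNReal (tauw w).toNNReal)
    (f : ℕ → ℝ) (k0 : ℕ) (lam : ℝ) :
    WinB ((FB x f k0 lam .H).pos (nuB x) sB) (fun t => (FB x f k0 lam .H).w t) (-(11 / 6)) ∧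
    (∃ r : JB → ℝ, 0 < r .D ∧ ∀ j, WinLLN ((FB x f k0 lam .H).pos (nuB x) sB)
      (fun t => (FB x f k0 lam .H).w t) (fun t => ((FB x f k0 lam .H).core t).cnt j) (r j)) ∧
    ∃ b C : ℝ, 0 < b ∧ ∀ t : TT, b * (FB x f k0 lam .H).pos (nuB x) sB t - C ≤ t.1.2.1 := by
  obtain ⟨ν, cen, hν, hU, hn, -⟩ := hC.lin hT.mass.summable
  obtain ⟨C, S⟩ := bWin_scale h hC hν hU
  have hD := bWin_MD_pos h
  have hV := bWin_M_nonneg x .C
  rw [bWin_pos, h.H_w hT]
  have hc : ∀ t : TT, ((FB x f k0 lam .H).core t).cnt .D = t.1.1 ∧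
      ((FB x f k0 lam .H).core t).cnt .C = t.1.2.1 ∧
      ∀ j, j ≠ .D → j ≠ .C → ((FB x f k0 lam .H).core t).cnt j = 0 := fun t =>
    tcore_cnt (a := aO) (b := bO) (c := cO) (jD := JB.D) (jV := JB.C) (f := f) (k0 := k0)
      (by decide) t.1 0 0
  refine ⟨WinB.scale S.hα S.h1 S.h2 S.h3 S.h4 S.hw S.hU, ?_, ?_⟩
  · refine ⟨fun j => (if j = .D then 1 else if j = .C then ν else 0) /
      (bWinM x .D + ν * bWinM x .C), by simpa using S.hα, fun j => ?_⟩
    refine WinLLN.scale (T := TT) S.hα S.h1 S.h2 S.h3 S.h4 S.hw S.hU ?_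
    by_cases h1 : j = .D
    · subst h1
      rw [if_pos rfl]
      refine (WinLLN.self (pos := posm) _).of_close (C := 0) fun t => ?_
      rw [(hc t).1]
      simp [posm]
    by_cases h2 : j = .C
    · subst h2
      rw [if_neg h1, if_pos rfl]
      refine hn.of_close (C := 0) fun t => ?_
      rw [(hc t).2.1]
      simp
    · rw [if_neg h1, if_neg h2]
      have := (hn.add hn 0 0).of_close (C := 0)
        (Y := fun t : TT => (((FB x f k0 lam .H).core t).cnt j : ℝ)) fun t => by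
          rw [(hc t).2.2 j h1 h2]
          simp
      rw [zero_mul, add_zero] at this
      exact this
  · have hp : 0 < 3 * bWinM x .D + bWinM x .C := by positivity
    refine ⟨(3 * bWinM x .D + bWinM x .C)⁻¹, (3 * bWinM x .D + bWinM x .C)⁻¹ * (6 * bWinM x .D),
      inv_pos.2 hp, fun t => ?_⟩
    have b : (t.1.1 : ℝ) ≤ 3 * t.1.2.1 + 6 := by exact_mod_cast (TT_facts t).2.2.1
    rw [← mul_sub, ← div_eq_inv_mul, div_le_iff₀ hp]
    unfold bWinPos
    nlinarith [mul_le_mul_of_nonneg_right b hD.le]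

theorem bWin_int (h : BCrit w x) (hf : EvC f k0) (lam mu : ℝ) (j : JB) :
    ∫ ω, zz sB f lam mu ω ∂nuB x j = ∫ ω, zz sB f lam 0 ω ∂nuB x j - mu * bWinM x j := by
  have hs := h.slots1 hf lam 0
  unfold bWinM
  rw [← integral_const_mul, ← integral_sub (hs.int_z j) ((hs.int_s j).const_mul mu)]
  refine integral_congr_ae (Eventually.of_forall fun ω => ?_)
  simp [zz]

/-- centring -/
theorem BCrit.centre (h : BCrit w x) (hT : TFacts w) (hC : CT (xw w).toNNReal (tauw w).toNNReal)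
    (hf : EvC f k0) (lam : ℝ) : ∃ mu c σ2 : ℝ, 0 < c ∧
    WinB ((FB x f k0 lam .H).pos (nuB x) sB) (fun t => (FB x f k0 lam .H).w t *
      ENNReal.ofReal (((FB x f k0 lam .H).core t).L (nuB x) (zz sB f lam mu) ^ 4)) (1 / 6) ∧
    WinCLT ((FB x f k0 lam .H).pos (nuB x) sB) (FB x f k0 lam .H).w
      (fun t => ((FB x f k0 lam .H).core t).L (nuB x) (zz sB f lam mu)) c σ2 := by
  obtain ⟨ν, cen, hν, hU, -, hl⟩ := hC.lin hT.mass.summable
  obtain ⟨C, S⟩ := bWin_scale h hC hν hU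
  obtain ⟨l, hl'⟩ : ∃ l, l = ell (nuB x .D) (nuB x .C) aO cO f k0 := ⟨_, rfl⟩
  obtain ⟨aD, haD⟩ : ∃ a, a = ∫ ω, zz sB f lam 0 ω ∂nuB x .D := ⟨_, rfl⟩
  obtain ⟨aC, haC⟩ : ∃ a, a = ∫ ω, zz sB f lam 0 ω ∂nuB x .C := ⟨_, rfl⟩
  obtain ⟨mu, hmu⟩ : ∃ mu, mu * (bWinM x .D + ν * bWinM x .C) = cen l + aC * ν + aD :=
    ⟨_, div_mul_cancel₀ _ S.hα.ne'⟩
  obtain ⟨c, σ2, hc, h4, h6, hclt⟩ := (hl l k0 (hl' ▸ evC_ell _ _)).2 (aC - mu * bWinM x .C)
  have hL0 : ∀ t : TT, ((FB x f k0 lam .H).core t).L (nuB x) (zz sB f lam mu) =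
      Fl l t.1 + (aC - mu * bWinM x .C) * t.1.2.1 -
        (cen l + (aC - mu * bWinM x .C) * ν) * posm t := fun t => by
    have e := tcore_L (ν := nuB x) (s := sB) (a := aO) (b := bO) (c := cO) (jD := JB.D)
      (jV := JB.C) (h.slots1 hf lam mu) hf (symD_B f lam mu) t.1 (TT_facts t).1.1 0 0
    rw [bWin_int h hf lam mu .D, bWin_int h hf lam mu .C, ← haD, ← haC, ← hl'] at e
    refine e.trans ?_
    unfold posm
    linear_combination (-((t.1.1 : ℕ) : ℝ)) * hmu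
  have hL : (fun t => ((FB x f k0 lam .H).core t).L (nuB x) (zz sB f lam mu)) = fun t : TT =>
      Fl l t.1 + (aC - mu * bWinM x .C) * t.1.2.1 -
        (cen l + (aC - mu * bWinM x .C) * ν) * posm t := funext hL0
  refine ⟨mu, c * (bWinM x .D + ν * bWinM x .C) ^ (3 / 2 : ℝ),
    σ2 / (bWinM x .D + ν * bWinM x .C), mul_pos hc (Real.rpow_pos_of_pos S.hα _), ?_, ?_⟩
  · have := WinB.scale4 (T := TT) S.hα S.h1 S.h2 S.h3 S.h4 S.hw S.hU h4 h6
    rw [bWin_pos, h.H_w hT]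
    simp only [fun t => congrFun hL t]
    exact this
  · rw [bWin_pos, h.H_w hT, hL]
    exact WinCLT.scale (T := TT) S.hα S.h1 S.h2 S.h3 S.h4 S.hw S.hU hclt

theorem BCrit.q_lln (h : BCrit w x) (hT : TFacts w) (hC : CT (xw w).toNNReal (tauw w).toNNReal)
    (hf : EvC f k0) (lam mu : ℝ) (hs : Slots (nuB x) sB (zz sB f lam mu)) : ∃ q : ℝ,
    WinLLN ((FB x f k0 lam .H).pos (nuB x) sB) (fun t => (FB x f k0 lam .H).w t)
      (fun t => ((FB x f k0 lam .H).core t).Q (nuB x) (zz sB f lam mu)) q := by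
  obtain ⟨ν, cen, hν, hU, -, hl⟩ := hC.lin hT.mass.summable
  obtain ⟨C, S⟩ := bWin_scale h hC hν hU
  obtain ⟨vD, γ, cc, hγ, hQ⟩ := tcore_Q (ν := nuB x) (s := sB) (a := aO) (b := bO) (c := cO)
    (jD := JB.D) (jV := JB.C) hs hf (symD_B f lam mu)
  choose e he using hC.lln
  have h1 := WinLLN.sum (Finset.range (k0 + 1)) (fun _ => (1 : ℝ)) fun p _ =>
    WinLLN.sum (Finset.range (k0 + 1)) (cc p) fun q _ => he p q
  have h2 := (((WinLLN.self (pos := posm) _).add (hl γ k0 hγ).1 vD 1).add h1 1 1).of_close (C := 0)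
    (Y := fun t : TT => ((FB x f k0 lam .H).core t).Q (nuB x) (zz sB f lam mu)) fun t => by
      rw [show ((FB x f k0 lam .H).core t).Q (nuB x) (zz sB f lam mu) = _ from
        hQ t.1 (TT_facts t).1 0 0]
      simp [posm]
  rw [bWin_pos, h.H_w hT]
  exact ⟨_, WinLLN.scale (T := TT) S.hα S.h1 S.h2 S.h3 S.h4 S.hw S.hU h2⟩

end Pool.Agent.Lib.MP_77dff5_pr
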