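import Pool.Agent.Lib.MP_77dff5_pr.BlockDAux3

/-! Decompositions on fixed labels and valid assignments of darts to corners. -/

set_option autoImplicit false

namespace Pool.Agent.Lib.MP_77dff5_pr

open Equiv Relation

section
variable {E V : Type} {G : E × Bool → Bool ⊕ V} {pE : E → Bool} {pV : V → Bool}
  {N : {e // pE e = true} × Bool → Bool ⊕ {v // pV v = true}}

/-- the corner of a dart -/
def blockD_f (fE : {e // ¬pE e = true} → Option {e // pE e = true} × Bool) :
    Option E × Bool → Option {e // pE e = true} × Bool :=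
  fun x => x.1.elim (none, x.2) fun e => if h : pE e = true then (some ⟨e, h⟩, x.2) else fE ⟨e, h⟩

theorem blockD_f_j (fE : {e // ¬pE e = true} → Option {e // pE e = true} × Bool)
    (i : Option {e // pE e = true} × Bool) : blockD_f fE (blockD_j pE i) = i := by
  obtain ⟨_ | ⟨e, h⟩, b⟩ := i
  · rfl
  · exact dif_pos h

theorem blockD_f_out (fE : {e // ¬pE e = true} → Option {e // pE e = true} × Bool)
    (e : {e // ¬pE e = true}) (b : Bool) : blockD_f fE (some e.1, b) = fE e := dif_neg e.2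

theorem blockD_f_inj : Function.Injective (blockD_f (pE := pE)) := by
  intro fE fE' h
  funext e
  rw [← blockD_f_out fE e true, h, blockD_f_out]

theorem blockD_aX_out (e : {e // ¬pE e = true}) (b : Bool) :
    blockD_aX pE (some e.1, b) = (some e.1, !b) := by
  simp [blockD_aX_apply, e.2]

theorem BValid.exists_fE {f : Option E × Bool → Option {e // pE e = true} × Bool}
    (hf : BValid (clo G) (blockD_aX pE) (blockD_j pE) f) : ∃ fE, blockD_f fE = f := by
  refine ⟨fun e => f (some e.1, true), funext fun x => ?_⟩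
  by_cases hx : x ∈ Set.range (blockD_j pE)
  · obtain ⟨i, rfl⟩ := hx
    rw [blockD_f_j, hf.retr]
  · rw [blockD_mem_j] at hx
    obtain ⟨_ | e, b⟩ := x
    · exact absurd rfl hx
    · rw [blockD_f_out _ ⟨e, hx⟩]
      cases b
      · rw [← hf.inv, blockD_aX_out ⟨e, hx⟩]
        rfl
      · rfl

/-- the darts of the stemmed pendant parts -/
def blockD_u0 (fE : {e // ¬pE e = true} → Option {e // pE e = true} × Bool) :
    (Σ i, Option ({e // fE e = i} × Bool)) → Option E × Bool :=
  fun p => p.2.elim (blockD_j pE p.1) fun z => (some z.1.1.1, z.2)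

theorem blockD_f_u0 (fE : {e // ¬pE e = true} → Option {e // pE e = true} × Bool)
    (p : Σ i, Option ({e // fE e = i} × Bool)) : blockD_f fE (blockD_u0 fE p) = p.1 := by
  obtain ⟨i, _ | z⟩ := p
  · exact blockD_f_j fE i
  · exact (blockD_f_out fE z.1.1 z.2).trans z.1.2

theorem blockD_u0_bij (fE : {e // ¬pE e = true} → Option {e // pE e = true} × Bool) :
    Function.Bijective (blockD_u0 fE) := by
  constructor
  · rintro ⟨i, y⟩ ⟨i', y'⟩ h
    have h1 := congrArg (blockD_f fE) h
    rw [blockD_f_u0, blockD_f_u0] at h1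
    obtain rfl : i = i' := h1
    have key : ∀ z : {e // fE e = i} × Bool, blockD_j pE i ≠ (some z.1.1.1, z.2) := by
      intro z hz
      exact z.1.1.2 ((blockD_mem_j pE _).1 ⟨i, hz⟩)
    obtain _ | z := y <;> obtain _ | z' := y'
    · rfl
    · exact absurd h (key z')
    · exact absurd h.symm (key z)
    · simp only [blockD_u0, Option.elim, Prod.mk.injEq, Option.some.injEq] at h
      rw [Prod.ext (Subtype.ext (Subtype.ext h.1)) h.2]
  · intro x
    by_cases hx : x ∈ Set.range (blockD_j pE)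
    · obtain ⟨i, rfl⟩ := hx
      exact ⟨⟨i, none⟩, rfl⟩
    · rw [blockD_mem_j] at hx
      obtain ⟨_ | e, b⟩ := x
      · exact absurd rfl hx
      · exact ⟨⟨fE ⟨e, hx⟩, some (⟨⟨e, hx⟩, rfl⟩, b)⟩, rfl⟩

/-- the darts of the stemmed pendant parts -/
noncomputable def blockD_u (fE : {e // ¬pE e = true} → Option {e // pE e = true} × Bool) :
    (Σ i, Option ({e // fE e = i} × Bool)) ≃ Option E × Bool :=
  Equiv.ofBijective _ (blockD_u0_bij fE)

theorem blockD_u_aX (fE : {e // ¬pE e = true} → Option {e // pE e = true} × Bool)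
    (i : Option {e // pE e = true} × Bool) (y : Option ({e // fE e = i} × Bool)) :
    blockD_u fE ⟨i, (flp _).optionCongr y⟩ = blockD_aX pE (blockD_u fE ⟨i, y⟩) := by
  obtain _ | z := y
  · exact (blockD_aX_j pE i).symm
  · exact (blockD_aX_out z.1.1 z.2).symm

/-- vertices of a pendant part as vertices of the whole graph -/
def blockD_v (N : {e // pE e = true} × Bool → Bool ⊕ {v // pV v = true})
    (fV : {v // ¬pV v = true} → Option {e // pE e = true} × Bool)
    (i : Option {e // pE e = true} × Bool) : Option {v // fV v = i} → Bool ⊕ V :=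
  fun o => o.elim ((clo N i).map id Subtype.val) fun v => Sum.inr v.1.1

theorem blockD_map_ne (w : Bool ⊕ {v // pV v = true}) (v : {v // ¬pV v = true}) :
    w.map id Subtype.val ≠ Sum.inr v.1 := by
  obtain c | w := w
  · simp
  · intro h
    have h1 : w.1 = v.1 := Sum.inr_injective h
    exact v.2 (h1 ▸ w.2)

theorem blockD_v_inj (fV : {v // ¬pV v = true} → Option {e // pE e = true} × Bool)
    (i : Option {e // pE e = true} × Bool) : Function.Injective (blockD_v N fV i) := by
  rintro (_ | v) (_ | v') h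
  · rfl
  · exact absurd h (blockD_map_ne _ _)
  · exact absurd h.symm (blockD_map_ne _ _)
  · rw [Subtype.ext (Subtype.ext (Sum.inr_injective h))]

variable {fE : {e // ¬pE e = true} → Option {e // pE e = true} × Bool}
  {fV : {v // ¬pV v = true} → Option {e // pE e = true} × Bool}
  {R : ∀ i, {e // fE e = i} × Bool → Option {v // fV v = i}}

theorem blockD_attach_iff : attachF pE pV N (clo N) fE fV R = G ↔
    (∀ x, G (x.1.1, x.2) = (N x).map id Subtype.val) ∧
      ∀ i z, G (z.1.1.1, z.2) = blockD_v N fV i (R i z) := by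
  constructor
  · rintro rfl
    refine ⟨fun x => dif_pos x.1.2, ?_⟩
    rintro _ ⟨⟨e, rfl⟩, b⟩
    exact dif_neg e.2
  · rintro ⟨h1, h2⟩
    funext x
    by_cases h : pE x.1 = true
    · exact (dif_pos h).trans (h1 (⟨x.1, h⟩, x.2)).symm
    · exact (dif_neg h).trans (h2 _ (⟨⟨x.1, h⟩, rfl⟩, x.2)).symm

theorem blockD_clo_u (h : attachF pE pV N (clo N) fE fV R = G) (i : Option {e // pE e = true} × Bool)
    (y : Option ({e // fE e = i} × Bool)) :
    clo G (blockD_u fE ⟨i, y⟩) = blockD_v N fV i (stem (R i) y) := by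
  rw [blockD_attach_iff] at h
  obtain _ | z := y
  · exact blockD_clo_j h.1 i
  · exact h.2 i z

theorem blockD_stem_iff (h : attachF pE pV N (clo N) fE fV R = G)
    (i : Option {e // pE e = true} × Bool) (a b : Option ({e // fE e = i} × Bool)) :
    stem (R i) a = stem (R i) b ↔ clo G (blockD_u fE ⟨i, a⟩) = clo G (blockD_u fE ⟨i, b⟩) := by
  rw [blockD_clo_u h, blockD_clo_u h, (blockD_v_inj fV i).eq_iff]

theorem blockD_conn (h : attachF pE pV N (clo N) fE fV R = G) :
    (∀ i, Conn (stem (R i)) (flp _).optionCongr) ↔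
      ∀ x, EqvGen (fun a b => (blockD_f fE a = blockD_f fE b ∧ clo G a = clo G b) ∨
        b = blockD_aX pE a) x (blockD_j pE (blockD_f fE x)) :=
  blockD_conn_iff (blockD_u fE) (fun i y => blockD_f_u0 fE ⟨i, y⟩) (blockD_stem_iff h)
    (blockD_u_aX fE) (fun _ => none) fun _ => rfl

theorem blockD_valid (h : attachF pE pV N (clo N) fE fV R = G) (hR : ∀ i, RConn (R i)) :
    BValid (clo G) (blockD_aX pE) (blockD_j pE) (blockD_f fE) := by
  have hN := (blockD_attach_iff.1 h).1
  have hf : ∀ i y, blockD_f fE (blockD_u fE ⟨i, y⟩) = i := fun i y => blockD_f_u0 fE ⟨i, y⟩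
  refine ⟨blockD_f_j fE, fun x => ?_, fun x k hk => ?_, fun x y hxy hb => ?_,
    (blockD_conn h).1 fun i => (hR i).2⟩
  · obtain ⟨⟨i, y⟩, rfl⟩ := (blockD_u fE).surjective x
    rw [← blockD_u_aX, hf, hf]
  · obtain ⟨⟨i, y⟩, rfl⟩ := (blockD_u fE).surjective x
    rw [hf, blockD_clo_j hN]
    rw [blockD_clo_u h] at hk ⊢
    rcases hs : stem (R i) y with _ | v
    · rfl
    · rw [hs, blockD_clo_j hN] at hk
      exact absurd hk.symm (blockD_map_ne _ _)
  · obtain ⟨⟨i, a⟩, rfl⟩ := (blockD_u fE).surjective x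
    obtain ⟨⟨i', b⟩, rfl⟩ := (blockD_u fE).surjective y
    have h1 := hb i
    have h2 := hb i'
    rw [hxy] at h2
    rw [blockD_clo_u h, blockD_clo_j hN] at h1 h2
    rw [blockD_clo_u h, blockD_clo_u h] at hxy
    rw [hf, hf]
    rcases hs : stem (R i) a with _ | v
    · rw [hs] at h1
      exact absurd rfl h1
    · rcases hs' : stem (R i') b with _ | v'
      · rw [hs'] at h2
        exact absurd rfl h2
      · rw [hs, hs'] at hxy
        rw [← v.2, ← v'.2, Subtype.ext (Sum.inr_injective hxy)]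

theorem blockD_cardG_eq [Finite E] [Fintype (Option {e // pE e = true} × Bool)]
    (h : attachF pE pV N (clo N) fE fV R = G) (hR : ∀ i, RConn (R i)) :
    Nat.card {γ // BGoodG (clo G) (blockD_aX pE) (blockD_f fE) γ} = ∏ i, embS (R i) :=
  blockD_cardG (blockD_u fE) (fun i y => blockD_f_u0 fE ⟨i, y⟩) (blockD_stem_iff h)
    (blockD_u_aX fE) fun i => (hR i).2

theorem blockD_touch (h : attachF pE pV N (clo N) fE fV R = G) (hR : ∀ i, RConn (R i))
    (v : {v // ¬pV v = true}) : ∃ y, clo G (blockD_u fE ⟨fV v, y⟩) = Sum.inr v.1 := by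
  obtain ⟨y, hy⟩ := (hR (fV v)).1 (some ⟨v, rfl⟩)
  exact ⟨y, by rw [blockD_clo_u h, hy]; rfl⟩

theorem blockD_fV_unique {fV' : {v // ¬pV v = true} → Option {e // pE e = true} × Bool}
    {R' : ∀ i, {e // fE e = i} × Bool → Option {v // fV' v = i}}
    (h : attachF pE pV N (clo N) fE fV R = G) (hR : ∀ i, RConn (R i))
    (h' : attachF pE pV N (clo N) fE fV' R' = G) : fV = fV' := by
  funext v
  obtain ⟨y, hy⟩ := blockD_touch h hR v
  rw [blockD_clo_u h'] at hy
  rcases hs : stem (R' (fV v)) y with _ | v'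
  · rw [hs] at hy
    exact absurd hy (blockD_map_ne _ _)
  · rw [hs] at hy
    rw [← v'.2, Subtype.ext (Sum.inr_injective hy)]

theorem blockD_R_unique {R' : ∀ i, {e // fE e = i} × Bool → Option {v // fV v = i}}
    (h : attachF pE pV N (clo N) fE fV R = G) (h' : attachF pE pV N (clo N) fE fV R' = G) :
    R = R' := by
  funext i z
  apply blockD_v_inj (N := N)
  rw [← (blockD_attach_iff.1 h).2, ← (blockD_attach_iff.1 h').2]

theorem blockD_exists_R (hd : BData G pE pV N) (hs : Function.Surjective (clo G))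
    (hf : BValid (clo G) (blockD_aX pE) (blockD_j pE) (blockD_f fE)) :
    ∃ (fV : {v // ¬pV v = true} → Option {e // pE e = true} × Bool)
      (R : ∀ i, {e // fE e = i} × Bool → Option {v // fV v = i}),
      attachF pE pV N (clo N) fE fV R = G ∧ ∀ i, RConn (R i) := by
  choose g hg using hs
  let fV : {v // ¬pV v = true} → Option {e // pE e = true} × Bool :=
    fun v => blockD_f fE (g (Sum.inr v.1))
  have hfV : ∀ x (v : {v // ¬pV v = true}), clo G x = Sum.inr v.1 → fV v = blockD_f fE x := by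
    intro x v hx
    refine hf.out _ _ ((hg _).trans hx.symm) fun k hk => ?_
    rw [hg, blockD_clo_j hd.hN] at hk
    exact blockD_map_ne _ _ hk.symm
  have hex : ∀ i (z : {e // fE e = i} × Bool), ∃ o : Option {v // fV v = i},
      G (z.1.1.1, z.2) = blockD_v N fV i o := by
    intro i z
    have h1 : blockD_f fE (some z.1.1.1, z.2) = i := (blockD_f_out fE z.1.1 z.2).trans z.1.2
    by_cases hb : ∃ k, clo G (some z.1.1.1, z.2) = clo G (blockD_j pE k)
    · obtain ⟨k, hk⟩ := hb
      have h2 := hf.blk _ k hk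
      rw [h1, blockD_clo_j hd.hN] at h2
      exact ⟨none, h2⟩
    · rcases h2 : G (z.1.1.1, z.2) with c | v
      · exact absurd ⟨(none, c), h2⟩ hb
      · have hv : ¬pV v = true := by
          intro hv
          obtain ⟨x, h3, h4⟩ := (hd.hV v).1 hv
          exact hb ⟨(some ⟨x.1, h3⟩, x.2), h2.trans h4.symm⟩
        exact ⟨some ⟨⟨v, hv⟩, (hfV (some z.1.1.1, z.2) ⟨v, hv⟩ h2).trans h1⟩, rfl⟩
  choose R hR using hex
  have h : attachF pE pV N (clo N) fE fV R = G := blockD_attach_iff.2 ⟨hd.hN, hR⟩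
  refine ⟨fV, R, h, fun i => ⟨?_, (blockD_conn h).2 hf.conn i⟩⟩
  rintro (_ | ⟨v, rfl⟩)
  · exact ⟨none, rfl⟩
  · obtain ⟨⟨k, y⟩, hy⟩ := (blockD_u fE).surjective (g (Sum.inr v.1))
    have h1 : fV v = k := by
      rw [hfV _ v (hg _), ← hy]
      exact blockD_f_u0 fE ⟨k, y⟩
    subst h1
    refine ⟨y, blockD_v_inj (N := N) fV _ ?_⟩
    rw [← blockD_clo_u h, hy, hg]
    rfl

theorem blockD_sconn_of_isBlock [Finite E] [Finite V] (hN : IsBlock N) : SConn (clo N) := by
  rcases hN with ⟨h1, h2⟩ | hN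
  · constructor
    · rintro (c | v)
      · exact ⟨(none, c), rfl⟩
      · exact h2.elim v
    · rintro ⟨_ | e, b⟩ ⟨_ | e', b'⟩
      · by_cases h : b = b'
        · rw [h]
          exact EqvGen.refl _
        · refine EqvGen.rel _ _ (Or.inr ?_)
          rw [blockD_flp_apply]
          revert h
          cases b <;> cases b' <;> simp
      · exact h1.elim e'
      · exact h1.elim e
      · exact h1.elim e
  · exact hN.sconn

theorem blockD_sconn [Finite E] [Finite V] (hN : IsBlock N)
    (h : attachF pE pV N (clo N) fE fV R = G) (hR : ∀ i, RConn (R i)) : SConn (clo G) := by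
  have hs := blockD_sconn_of_isBlock hN
  have hN' := (blockD_attach_iff.1 h).1
  have hf := blockD_valid h hR
  constructor
  · rintro (c | v)
    · exact ⟨(none, c), rfl⟩
    · by_cases hv : pV v = true
      · obtain ⟨i, hi⟩ := hs.1 (Sum.inr ⟨v, hv⟩)
        exact ⟨blockD_j pE i, by rw [blockD_clo_j hN', hi]; rfl⟩
      · obtain ⟨y, hy⟩ := blockD_touch h hR ⟨v, hv⟩
        exact ⟨_, hy⟩
  · have k1 : ∀ x, EqvGen (fun a b => clo G a = clo G b ∨ b = flp _ a) x
        (blockD_j pE (blockD_f fE x)) := by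
      intro x
      refine blockD_eqv_mono ?_ (hf.conn x)
      rintro a b (hab | rfl)
      · exact Or.inl hab.2
      · rw [blockD_aX_apply, blockD_flp_apply]
        generalize a.1.elim true pE = c
        cases c <;> simp
    intro x y
    refine EqvGen.trans _ _ _ (k1 x) (EqvGen.trans _ _ _ ?_ (EqvGen.symm _ _ (k1 y)))
    refine blockD_eqv_map (blockD_j pE) ?_ (hs.2 _ _)
    rintro a b (hab | rfl)
    · exact EqvGen.rel _ _ (Or.inl (by rw [blockD_clo_j hN', blockD_clo_j hN', hab]))
    · exact EqvGen.rel _ _ (Or.inr rfl)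

theorem blockD_data [Finite V] (hN : IsBlock N) (h : attachF pE pV N (clo N) fE fV R = G) :
    BData G pE pV N := by
  have hN' := (blockD_attach_iff.1 h).1
  refine ⟨fun e => ⟨fun he => ?_, fun he => ?_⟩, fun v => ⟨fun hv => ?_, ?_⟩, hN'⟩
  · rintro ⟨X, hX, heX⟩
    rcases hN with ⟨h1, -⟩ | hN
    · exact h1.elim ⟨e, he⟩
    · have h1 := hN.2.2 (Option.map Subtype.val ⁻¹' X) ⟨some ⟨e, he⟩, heX⟩ ⟨none, hX.1⟩
      have h2 : (bd (clo N) (Option.map Subtype.val ⁻¹' X)).Subsingleton := by
        have key : ∀ v ∈ bd (clo N) (Option.map Subtype.val ⁻¹' X),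
            v.map id Subtype.val ∈ bd (clo G) X := by
          rintro v ⟨⟨a, ha, rfl⟩, b, hb, hab⟩
          exact ⟨⟨blockD_j pE a, ha, blockD_clo_j hN' a⟩, blockD_j pE b, hb,
            hab ▸ blockD_clo_j hN' b⟩
        exact fun v hv w hw => blockD_map_inj (hX.2 (key v hv) (key w hw))
      rw [← Set.ncard_le_one_iff_subsingleton] at h2
      omega
  · by_contra hp
    refine he ⟨{o | ∃ z : {e' // fE e' = fE ⟨e, hp⟩}, o = some z.1.1}, ⟨by simp, ?_⟩,
      ⟨⟨e, hp⟩, rfl⟩, rfl⟩
    refine Set.subsingleton_of_forall_eq ((clo N (fE ⟨e, hp⟩)).map id Subtype.val) ?_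
    rintro v ⟨⟨⟨_, b⟩, ⟨z, rfl⟩, rfl⟩, y, hy, hxy⟩
    have h1 := blockD_clo_u h _ (some (z, b))
    refine h1.trans ?_
    rcases hs : stem (R _) (some (z, b)) with _ | w
    · rfl
    · exfalso
      rw [hs] at h1
      obtain ⟨⟨k, y⟩, rfl⟩ := (blockD_u fE).surjective y
      rw [blockD_clo_u h] at hxy
      have h2 := hxy.trans h1
      rcases hs' : stem (R k) y with _ | w'
      · rw [hs'] at h2
        exact blockD_map_ne _ _ h2
      · rw [hs'] at h2
        have h3 : k = fE ⟨e, hp⟩ := by rw [← w'.2, ← w.2, Subtype.ext (Sum.inr_injective h2)]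
        subst h3
        obtain _ | y := y
        · simp [stem] at hs'
        · exact hy ⟨y.1, rfl⟩
  · rcases hN with ⟨-, h1⟩ | hN
    · exact h1.elim ⟨v, hv⟩
    · obtain ⟨⟨_ | e, b⟩, hi⟩ := hN.2.1 (Sum.inr ⟨v, hv⟩)
      · exact absurd hi (by simp [clo])
      · refine ⟨(e.1, b), e.2, (hN' (e, b)).trans ?_⟩
        rw [show N (e, b) = Sum.inr ⟨v, hv⟩ from hi]
        rfl
  · rintro ⟨x, hx, hv⟩
    by_contra hp
    exact blockD_map_ne _ ⟨v, hp⟩ ((hN' (⟨x.1, hx⟩, x.2)).symm.trans hv)

end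

end Pool.Agent.Lib.MP_77dff5_pr
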