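import Pool.Agent.Lib.MP_77dff5_pr.LabelBAux1

/-! Labelled products: sums over glued structures as sums over structures on fixed labels. -/

set_option autoImplicit false

namespace Pool.Agent.Lib.MP_77dff5_pr

open scoped ENNReal Classical

/-- the sum over the attached graphs on given label sets -/
noncomputable def labelC_L (Ψ : NFun) (Ξ : RFun) {A C I : Type} (N : A × Bool → Bool ⊕ C)
    (pos : I → Bool ⊕ C) (Y Z : I → Type) : ℝ≥0∞ :=
  ∑' R : ∀ i, Y i × Bool → Option (Z i), (∏ᶠ i, labR Ξ _ _ (R i)) * labN Ψ _ _ (attach N pos R)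

theorem labelC_L_congr {Ψ : NFun} (hΨ : NInv Ψ) {Ξ : RFun} (hΞ : RInv Ξ) {A C I A' C' I' : Type}
    (a : A ≃ A') (c : C ≃ C') (ι : I ≃ I') {N : A × Bool → Bool ⊕ C} {N' : A' × Bool → Bool ⊕ C'}
    (hN : ∀ x s, N' (a x, s) = (N (x, s)).map id c) {pos : I → Bool ⊕ C} {pos' : I' → Bool ⊕ C'}
    (hp : ∀ i, pos' (ι i) = (pos i).map id c) {Y Z : I → Type} {Y' Z' : I' → Type}
    (y : ∀ i, Y i ≃ Y' (ι i)) (z : ∀ i, Z i ≃ Z' (ι i)) :
    labelC_L Ψ Ξ N pos Y Z = labelC_L Ψ Ξ N' pos' Y' Z' := by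
  refine lab_tsum (Equiv.piCongr (Z := fun i => Y' i × Bool → Option (Z' i)) ι
    fun i => labT (y i) (z i).optionCongr) fun R => ?_
  have h : ∀ i x s, Equiv.piCongr (Z := fun i => Y' i × Bool → Option (Z' i)) ι
      (fun i => labT (y i) (z i).optionCongr) R (ι i) (y i x, s) = (R i (x, s)).map (z i) := by
    intro i x s
    rw [Equiv.piCongr_apply_apply]
    exact labT_apply _ _ _ _ _
  generalize Equiv.piCongr (Z := fun i => Y' i × Bool → Option (Z' i)) ι
      (fun i => labT (y i) (z i).optionCongr) R = R' at h ⊢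
  congr 1
  · rw [← finprod_comp_equiv ι]
    exact finprod_congr fun i => labR_congr hΞ (y i) (z i) (h i)
  · refine labN_congr hΨ (a.sumCongr (Equiv.sigmaCongr ι y)) (c.sumCongr (Equiv.sigmaCongr ι z)) ?_
    rintro (x | ⟨i, x⟩) s
    · change Sum.map _ _ (N' (a x, s)) = Sum.map _ _ (Sum.map _ _ (N (x, s)))
      rw [hN]
      rcases N (x, s) with d | d <;> rfl
    · change Option.elim (R' (ι i) (y i x, s)) (Sum.map _ _ (pos' (ι i))) _ =
        Sum.map _ _ (Option.elim (R i (x, s)) _ _)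
      rw [h, hp]
      rcases R i (x, s) with _ | w
      · change Sum.map _ _ (Sum.map _ _ (pos i)) = Sum.map _ _ (Sum.map _ _ (pos i))
        rcases pos i with d | d <;> rfl
      · rfl

theorem labelC_gen {Ψ : NFun} (hΨ : NInv Ψ) {Θ : NFun} (hΘ : NInv Θ) {Ξ : RFun} (hΞ : RInv Ξ)
    (I : Type → Type → Type) (pos : ∀ A C : Type, (A × Bool → Bool ⊕ C) → I A C → Bool ⊕ C)
    (ι : ∀ A A' C C' : Type, A ≃ A' → C ≃ C' → I A C ≃ I A' C')
    (hp : ∀ (A A' C C' : Type) (a : A ≃ A') (c : C ≃ C') (N : A × Bool → Bool ⊕ C)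
      (N' : A' × Bool → Bool ⊕ C'), (∀ x s, N' (a x, s) = (N (x, s)).map id c) →
      ∀ i, pos A' C' N' (ι A A' C C' a c i) = (pos A C N i).map id c)
    (hI : ∀ m n, Finite (I (Fin m) (Fin n))) :
    ∑' N : NG, wt N.1 N.2.1 * labN Θ _ _ N.2.2 * ∑' R : I (Fin N.1) (Fin N.2.1) → RG,
        (∏ᶠ i, wt (R i).1 (R i).2.1 * labR Ξ _ _ (R i).2.2) *
          labN Ψ _ _ (attach N.2.2 (pos _ _ N.2.2) fun i => (R i).2.2) =
      ∑' G : NG, wt G.1 G.2.1 * labN Ψ _ _ G.2.2 *
        ∑' pE : Fin G.1 → Bool, ∑' pV : Fin G.2.1 → Bool,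
          ∑' N : {e // pE e = true} × Bool → Bool ⊕ {v // pV v = true},
            ∑' fE : {e // ¬pE e = true} → I {e // pE e = true} {v // pV v = true},
              ∑' fV : {v // ¬pV v = true} → I {e // pE e = true} {v // pV v = true},
                ∑' R : ∀ i, {e // fE e = i} × Bool → Option {v // fV v = i},
                  labN Θ _ _ N * (∏ᶠ i, labR Ξ _ _ (R i)) *
                    ind (attachF pE pV N (pos _ _ N) fE fV R = G.2.2) := by
  have key := lab_exp22 (fun A C B D => ∑' N : A × Bool → Bool ⊕ C, ∑' f : B → I A C,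
      ∑' g : D → I A C, labN Θ _ _ N *
        labelC_L Ψ Ξ N (pos _ _ N) (fun i => {e // f e = i}) fun i => {v // g v = i}) (by
    intro A A' C C' B B' D D' a c b d
    refine lab_tsum (labT a ((Equiv.refl Bool).sumCongr c)) fun N => ?_
    refine lab_tsum (b.arrowCongr (ι A A' C C' a c)) fun f => ?_
    refine lab_tsum (d.arrowCongr (ι A A' C C' a c)) fun g => ?_
    have h : ∀ x s, labT a ((Equiv.refl Bool).sumCongr c) N (a x, s) = (N (x, s)).map id c :=
      fun x s => labT_apply _ _ _ _ _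
    rw [labN_congr hΘ a c h]
    congr 1
    exact labelC_L_congr hΨ hΞ a c (ι A A' C C' a c) h (hp _ _ _ _ a c N _ h)
      (fun i => b.subtypeEquiv fun x => by simp) fun i => d.subtypeEquiv fun x => by simp)
  rw [lab_sig (T := fun m n => Fin m × Bool → Bool ⊕ Fin n),
    lab_sig (T := fun m n => Fin m × Bool → Bool ⊕ Fin n)]
  simp only [lab_sw, lab_ind]
  refine Eq.trans ?_ (key.trans ?_)
  · refine tsum_congr fun a => tsum_congr fun c => ?_
    have := hI a c
    have := Fintype.ofFinite (I (Fin a) (Fin c))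
    have h : ∀ N : Fin a × Bool → Bool ⊕ Fin c, ∑' R : I (Fin a) (Fin c) → RG,
        (∏ᶠ i, wt (R i).1 (R i).2.1 * labR Ξ _ _ (R i).2.2) *
          labN Ψ _ _ (attach N (pos _ _ N) fun i => (R i).2.2) =
        ∑' b : ℕ, ∑' d : ℕ, ∑' f : Fin b → I (Fin a) (Fin c), ∑' g : Fin d → I (Fin a) (Fin c),
          wt b d *
            labelC_L Ψ Ξ N (pos _ _ N) (fun i => {e // f e = i}) fun i => {v // g v = i} := by
      intro N
      rw [← lab_expII (labelC_L Ψ Ξ N (pos _ _ N)) fun Y Y' Z Z' y z =>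
        labelC_L_congr hΨ hΞ (Equiv.refl _) (Equiv.refl _) (Equiv.refl _) (fun x s => by simp)
          (fun i => by simp) y z, lab_pi (T := fun m n => Fin m × Bool → Option (Fin n))]
      simp only [labelC_L, finprod_eq_prod_of_fintype, Finset.prod_mul_distrib,
        ← ENNReal.tsum_mul_left, mul_assoc]
    rw [ENNReal.tsum_comm]
    simp only [ENNReal.tsum_mul_left, h]
    simp only [← ENNReal.tsum_mul_left]
    rw [ENNReal.tsum_comm]
    refine tsum_congr fun b => ?_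
    rw [ENNReal.tsum_comm]
    refine tsum_congr fun d => tsum_congr fun N => tsum_congr fun f => tsum_congr fun g => ?_
    ring
  · simp only [labelC_L, ← ENNReal.tsum_mul_left]
    refine tsum_congr fun m => tsum_congr fun p => tsum_congr fun pE => tsum_congr fun pV =>
      tsum_congr fun N => tsum_congr fun f => tsum_congr fun g => tsum_congr fun R => ?_
    rw [← mul_assoc (labN Θ _ _ N), mul_comm (labN Θ _ _ N * _), ← mul_assoc]
    congr 2
    refine labN_congr hΨ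
      (((Equiv.refl _).sumCongr (Equiv.sigmaFiberEquiv f)).trans (Equiv.sumCompl fun e => pE e = true))
      (((Equiv.refl _).sumCongr (Equiv.sigmaFiberEquiv g)).trans (Equiv.sumCompl fun e => pV e = true))
      ?_
    rintro (⟨x, hx⟩ | ⟨i, ⟨x, hx⟩, rfl⟩) s
    · change attachF pE pV N (pos _ _ N) f g R (x, s) = Sum.map _ _ (Sum.map _ _ (N (⟨x, hx⟩, s)))
      rw [attachF, dif_pos hx]
      rcases N (⟨x, hx⟩, s) with d | d <;> rfl
    · change attachF pE pV N (pos _ _ N) f g R (x, s) =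
        Sum.map _ _ (Option.elim (R (f ⟨x, hx⟩) (⟨⟨x, hx⟩, rfl⟩, s)) _ _)
      rw [attachF, dif_neg hx]
      rcases R (f ⟨x, hx⟩) (⟨⟨x, hx⟩, rfl⟩, s) with _ | w
      · change Sum.map _ _ (pos _ _ N (f ⟨x, hx⟩)) = Sum.map _ _ (Sum.map _ _ (pos _ _ N (f ⟨x, hx⟩)))
        rcases pos _ _ N (f ⟨x, hx⟩) with d | d <;> rfl
      · rfl

/-- Attaching rooted graphs at the vertices. -/
theorem attach_LP_V (Ψ : NFun) (hΨ : NInv Ψ) (Θ : NFun) (hΘ : NInv Θ) (Ξ : RFun) (hΞ : RInv Ξ) :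
    ∑' N : NG, wt N.1 N.2.1 * Θ _ _ N.2.2 * ∑' R : Bool ⊕ Fin N.2.1 → RG,
        (∏ i, wt (R i).1 (R i).2.1 * Ξ _ _ (R i).2.2) *
          Ψ _ _ (attach N.2.2 id fun i => (R i).2.2) =
      ∑' G : NG, wt G.1 G.2.1 * Ψ _ _ G.2.2 *
        ∑ pE : Fin G.1 → Bool, ∑ pV : Fin G.2.1 → Bool,
          ∑ N : {e // pE e = true} × Bool → Bool ⊕ {v // pV v = true},
            ∑ fE : {e // ¬pE e = true} → Bool ⊕ {v // pV v = true},
              ∑ fV : {v // ¬pV v = true} → Bool ⊕ {v // pV v = true},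
                ∑ R : ∀ i, {e // fE e = i} × Bool → Option {v // fV v = i},
                  Θ _ _ N * (∏ i, Ξ _ _ (R i)) * ind (attachF pE pV N id fE fV R = G.2.2) := by
  simp only [lab_fin, labN_eq Ψ, labN_eq Θ, labR_eq Ξ, ← finprod_eq_prod_of_fintype]
  exact labelC_gen hΨ hΘ hΞ (fun _ C => Bool ⊕ C) (fun _ _ _ => id)
    (fun _ _ _ _ _ c => (Equiv.refl Bool).sumCongr c) (fun _ _ _ _ _ _ _ _ _ _ => rfl)
    fun _ _ => inferInstance

/-- Attaching rooted graphs at the darts. -/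
theorem attach_LP_D (Ψ : NFun) (hΨ : NInv Ψ) (Θ : NFun) (hΘ : NInv Θ) (Ξ : RFun) (hΞ : RInv Ξ) :
    ∑' N : NG, wt N.1 N.2.1 * Θ _ _ N.2.2 * ∑' R : Option (Fin N.1) × Bool → RG,
        (∏ i, wt (R i).1 (R i).2.1 * Ξ _ _ (R i).2.2) *
          Ψ _ _ (attach N.2.2 (clo N.2.2) fun i => (R i).2.2) =
      ∑' G : NG, wt G.1 G.2.1 * Ψ _ _ G.2.2 *
        ∑ pE : Fin G.1 → Bool, ∑ pV : Fin G.2.1 → Bool,
          ∑ N : {e // pE e = true} × Bool → Bool ⊕ {v // pV v = true},
            ∑ fE : {e // ¬pE e = true} → Option {e // pE e = true} × Bool,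
              ∑ fV : {v // ¬pV v = true} → Option {e // pE e = true} × Bool,
                ∑ R : ∀ i, {e // fE e = i} × Bool → Option {v // fV v = i},
                  Θ _ _ N * (∏ i, Ξ _ _ (R i)) *
                    ind (attachF pE pV N (clo N) fE fV R = G.2.2) := by
  simp only [lab_fin, labN_eq Ψ, labN_eq Θ, labR_eq Ξ, ← finprod_eq_prod_of_fintype]
  refine labelC_gen hΨ hΘ hΞ (fun A _ => Option A × Bool) (fun _ _ N => clo N)
    (fun _ _ _ _ a _ => a.optionCongr.prodCongr (Equiv.refl Bool)) ?_ fun _ _ => inferInstance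
  rintro A A' C C' a c N N' h ⟨_ | x, s⟩
  · rfl
  · exact h x s

end Pool.Agent.Lib.MP_77dff5_pr
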