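import Pool.Agent.Lib.MP_77dff5_pr.PermB

/-! Deleting edges and stems keeps planarity. -/

set_option autoImplicit false

namespace Pool.Agent.Lib.MP_77dff5_pr

open Equiv

variable {D D' V V' : Type} [Finite D]

theorem ncomp_eq_one_iff (σ α : Perm D) : ncomp σ α = 1 ↔ Nonempty D ∧ Trans2 σ α := by
  unfold ncomp
  rw [Nat.card_eq_one_iff_unique]
  constructor
  · rintro ⟨h1, ⟨⟨x⟩⟩⟩
    exact ⟨⟨x⟩, fun a b => Quot.eqvGen_exact (Subsingleton.elim _ _)⟩
  · rintro ⟨⟨x⟩, h⟩
    refine ⟨⟨?_⟩, ⟨Quot.mk _ x⟩⟩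
    rintro ⟨a⟩ ⟨b⟩
    exact Quot.eqvGen_sound (h a b)

/-- Removing cycles of `α` does not increase the defect. -/
theorem permD_disj (σ α β : Perm D) (h : ∀ x, α x = x ∨ β x = x) :
    ncyc (α * β) + ncyc (σ * (α * β)) + 2 * ncomp σ α ≤
      ncyc α + ncyc (σ * α) + 2 * ncomp σ (α * β) := by
  classical
  revert h
  refine permB_ind (P := fun β => (∀ x, α x = x ∨ β x = x) →
    ncyc (α * β) + ncyc (σ * (α * β)) + 2 * ncomp σ α ≤
      ncyc α + ncyc (σ * α) + 2 * ncomp σ (α * β)) ?_ ?_ β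
  · intro _
    rw [mul_one]
  · intro β a b hab hb ih h
    have ha : β a ≠ a := fun e => hab (β.injective (e.trans hb.symm))
    have e1 := ih fun x => (h x).imp id fun hx => by
      by_contra hc
      exact (permB_supp hab hb hc).1 hx
    have e2 := euler_step σ (α * (β * swap a b)) (a := a) (b := b) fun hc =>
      hab (hc.eq_of_left (by
        rw [Function.IsFixedPt, Perm.mul_apply, Perm.mul_apply, swap_apply_left, hb,
          (h a).resolve_right ha]))
    rw [mul_assoc, mul_swap_mul_self] at e2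
    omega

/-- Splitting off the darts outside `S` from their vertices. -/
theorem permD_iso (S : Set D) (α σ : Perm D)
    (h0 : ncyc σ + ncyc α + ncyc (σ * α) = Nat.card D + 2 * ncomp σ α) :
    ∃ τ : Perm D, ncyc τ + ncyc α + ncyc (τ * α) = Nat.card D + 2 * ncomp τ α ∧
      (∀ y, y ∉ S → τ y = y) ∧ ∀ x ∈ S, ∀ y ∈ S, τ.SameCycle x y ↔ σ.SameCycle x y := by
  classical
  induction hk : Nat.card D - ncyc σ using Nat.strong_induction_on generalizing σ with
  | _ k ih =>
    by_cases hσ : ∀ y, y ∉ S → σ y = y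
    · exact ⟨σ, h0, hσ, fun _ _ _ _ => Iff.rfl⟩
    push Not at hσ
    obtain ⟨a, haS, ha⟩ := hσ
    have hb : σ (σ.symm a) = a := σ.apply_symm_apply a
    generalize σ.symm a = b at hb
    have hab : a ≠ b := fun e => ha (by rw [e] at hb ⊢; exact hb)
    have hn := permB_not_same hab hb
    have e1 := ncyc_mul_swap_of_not _ hn
    have e2 := euler_step α _ hn
    have e3 := euler_le (σ * swap a b) α
    have e4 := permB_ncyc_le (σ * swap a b)
    have e5 := sameCycle_mul_swap_of_not _ hn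
    rw [mul_swap_mul_self] at e1 e2 e5
    rw [ncyc_mul_comm α, ncyc_mul_comm α, permB_ncomp_comm α, permB_ncomp_comm α] at e2
    obtain ⟨τ, t0, t1, t2⟩ := ih _ (by omega) (σ * swap a b) (by omega) rfl
    refine ⟨τ, t0, t1, fun x hx y hy => ?_⟩
    have hf : ∀ z ∈ S, ¬(σ * swap a b).SameCycle z a := fun z hz hc =>
      haS (hc.eq_of_right (by rw [Function.IsFixedPt, Perm.mul_apply, swap_apply_left, hb]) ▸ hz)
    rw [t2 x hx y hy, e5]
    simp [hf x hx, hf y hy]

theorem permD_ncyc (j : D' ↪ D) {π : Perm D} {π' : Perm D'} (h1 : ∀ x, π (j x) = j (π' x))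
    (h2 : ∀ y, y ∉ Set.range j → π y = y) :
    ncyc π = ncyc π' + Nat.card {y // y ∉ Set.range j} := by
  classical
  have := Finite.of_injective j j.injective
  let e : D' ⊕ {y // y ∉ Set.range j} ≃ D :=
    ((ofInjective j j.injective).sumCongr (Equiv.refl _)).trans (sumCompl (· ∈ Set.range j))
  have : π = e.permCongr (Perm.sumCongr π' 1) := by
    ext x
    obtain ⟨x, rfl⟩ := e.surjective x
    rw [permCongr_apply, symm_apply_apply]
    rcases x with x | x
    · exact h1 x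
    · exact h2 _ x.2
  rw [this, ncyc_permCongr, ncyc_sumCongr, ncyc_one]

theorem permD_same (j : D' ↪ D) {π : Perm D} {π' : Perm D'} (h1 : ∀ x, π (j x) = j (π' x))
    (x y : D') : π'.SameCycle x y ↔ π.SameCycle (j x) (j y) := by
  have := Finite.of_injective j j.injective
  constructor
  · intro h
    exact permB_sc h (fun z => π.SameCycle (j x) (j z)) Perm.SameCycle.rfl
      fun z hz => h1 z ▸ hz.apply_right
  · intro h
    obtain ⟨z, hz, e⟩ := permB_sc h (fun w => ∃ z, π'.SameCycle x z ∧ j z = w)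
      ⟨x, Perm.SameCycle.rfl, rfl⟩ (by
        rintro _ ⟨z, hz, rfl⟩
        exact ⟨π' z, hz.apply_right, (h1 z).symm⟩)
    exact j.injective e ▸ hz

theorem permD_ncomp (j : D' ↪ D) {σ α : Perm D} {σ' α' : Perm D'} (h1 : ∀ x, σ (j x) = j (σ' x))
    (h2 : ∀ y, y ∉ Set.range j → σ y = y) (h3 : ∀ x, α (j x) = j (α' x))
    (h4 : ∀ y, y ∉ Set.range j → α y = y) :
    ncomp σ' α' + Nat.card {y // y ∉ Set.range j} ≤ ncomp σ α := by
  classical
  have := Finite.of_injective j j.injective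
  let e : D' ⊕ {y // y ∉ Set.range j} ≃ D :=
    ((ofInjective j j.injective).sumCongr (Equiv.refl _)).trans (sumCompl (· ∈ Set.range j))
  have he : ∀ x, e.symm (j x) = Sum.inl x := fun x => e.symm_apply_eq.2 rfl
  unfold ncomp
  rw [← Nat.card_sum]
  refine Nat.card_le_card_of_surjective
    (Quot.lift (fun y => (e.symm y).map (Quot.mk fun a b => b = σ' a ∨ b = α' a) id) ?_) ?_
  · intro a b hab
    by_cases ha : a ∈ Set.range j
    · obtain ⟨x, rfl⟩ := ha
      rcases hab with rfl | rfl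
      · rw [h1, he, he]
        exact congrArg Sum.inl (Quot.sound (Or.inl rfl))
      · rw [h3, he, he]
        exact congrArg Sum.inl (Quot.sound (Or.inr rfl))
    · rcases hab with rfl | rfl
      · rw [h2 a ha]
      · rw [h4 a ha]
  · rintro (x | y)
    · obtain ⟨x, rfl⟩ := Quot.exists_rep x
      exact ⟨Quot.mk _ (e (Sum.inl x)), by simp⟩
    · exact ⟨Quot.mk _ (e (Sum.inr y)), by simp⟩

theorem sub_planar {ν : D → V} {ν' : D' → V'} {σ α : Perm D} {α' : Perm D'}
    (hα : Function.Involutive α) (hα' : Function.Involutive α') (j : D' ↪ D)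
    (hj : ∀ x, α' x = x ∨ j (α' x) = α (j x)) (hν : ∀ x y, ν' x = ν' y ↔ ν (j x) = ν (j y))
    (hσ : IsRot ν σ) (h0 : ncyc σ + ncyc α + ncyc (σ * α) = Nat.card D + 2 * ncomp σ α) :
    ∃ σ', IsRot ν' σ' ∧ ncyc σ' + ncyc α' + ncyc (σ' * α') = Nat.card D' + 2 * ncomp σ' α' := by
  have := Finite.of_injective j j.injective
  have a1 : ∀ x, α'.viaEmbedding j (j x) = j (α' x) := Perm.viaEmbedding_apply α' j
  have a2 : ∀ y, y ∉ Set.range j → α'.viaEmbedding j y = y :=
    Perm.viaEmbedding_apply_of_notMem α' j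
  generalize α'.viaEmbedding j = γ at a1 a2
  have e1 := permD_disj σ γ (γ⁻¹ * α) fun y => by
    by_cases hy : y ∈ Set.range j
    · obtain ⟨x, rfl⟩ := hy
      refine (hj x).imp (fun h => by rw [a1, h]) fun h => ?_
      rw [Perm.mul_apply, ← h, ← a1, Perm.inv_eq_iff_eq]
    · exact Or.inl (a2 y hy)
  rw [mul_inv_cancel_left] at e1
  have e2 := euler_le σ γ
  obtain ⟨τ, t0, t1, t2⟩ := permD_iso (Set.range j) γ σ (by omega)
  have t3 : ∀ y, τ y ∈ Set.range j ↔ y ∈ Set.range j := by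
    intro y
    constructor
    · intro h
      by_contra hc
      exact hc (t1 y hc ▸ h)
    · intro h
      by_contra hc
      exact hc ((τ.injective (t1 _ hc)).symm ▸ h)
  let σ' : Perm D' := (ofInjective j j.injective).symm.permCongr (τ.subtypePerm t3)
  have s1 : ∀ x, τ (j x) = j (σ' x) := fun x =>
    (apply_ofInjective_symm j.injective (τ.subtypePerm t3 (ofInjective j j.injective x))).symm
  refine ⟨σ', fun x y => ?_, ?_⟩
  · rw [permD_same j s1, t2 _ ⟨x, rfl⟩ _ ⟨y, rfl⟩, hσ, hν]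
  · have c1 := permD_ncyc j s1 t1
    have c2 := permD_ncyc j a1 a2
    have c3 := permD_ncyc j (π := τ * γ) (π' := σ' * α')
      (fun x => by rw [Perm.mul_apply, a1, s1]; rfl) fun y hy => by
        rw [Perm.mul_apply, a2 y hy, t1 y hy]
    have c4 := permD_ncyc j (π := 1) (π' := 1) (fun _ => rfl) fun _ _ => rfl
    rw [ncyc_one, ncyc_one] at c4
    have c5 := permD_ncomp j s1 t1 a1 a2
    have c6 := euler_le σ' α'
    omega

theorem emb_ne_zero_of_sub {ν : D → V} {ν' : D' → V'} {α : Perm D} {α' : Perm D'}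
    (hα : Function.Involutive α) (hα' : Function.Involutive α') (j : D' ↪ D)
    (hj : ∀ x, α' x = x ∨ j (α' x) = α (j x)) (hν : ∀ x y, ν' x = ν' y ↔ ν (j x) = ν (j y))
    (hc : Conn ν α) (hc' : Conn ν' α') [Nonempty D'] (h : emb ν α ≠ 0) : emb ν' α' ≠ 0 := by
  have := Finite.of_injective j j.injective
  obtain ⟨⟨σ, hσ, h0⟩⟩ := (Nat.card_ne_zero.1 h).1
  have h1 := (ncomp_eq_one_iff σ α).2 ⟨Nonempty.map j inferInstance, (conn_iff_trans2 hσ α).1 hc⟩
  obtain ⟨σ', hσ', h2⟩ := sub_planar hα hα' j hj hν hσ (by rw [h1]; exact h0)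
  rw [(ncomp_eq_one_iff σ' α').2 ⟨inferInstance, (conn_iff_trans2 hσ' α').1 hc'⟩] at h2
  exact Nat.card_ne_zero.2 ⟨⟨σ', hσ', h2⟩, inferInstance⟩

end Pool.Agent.Lib.MP_77dff5_pr
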