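import Pool.Agent.Lib.MP_77dff5_pr.BlockV
import Pool.Agent.Lib.MP_77dff5_pr.Perm
import Pool.Agent.Lib.MP_77dff5_pr.LabelC
import Pool.Agent.Lib.MP_77dff5_pr.BlockDAux4

/-! The block of the root edge, for graphs and for maps. -/

set_option autoImplicit false

namespace Pool.Agent.Lib.MP_77dff5_pr

open scoped ENNReal Classical

theorem blockD_ind_pos {p : Prop} (h : p) : ind p = 1 := if_pos h

theorem blockD_ind_neg {p : Prop} (h : ¬p) : ind p = 0 := if_neg h

section
variable {m n : ℕ} {G : Fin m × Bool → Bool ⊕ Fin n}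

theorem blockD_term {pE : Fin m → Bool} {pV : Fin n → Bool}
    {N : {e // pE e = true} × Bool → Bool ⊕ {v // pV v = true}}
    {fE : {e // ¬pE e = true} → Option {e // pE e = true} × Bool}
    {fV : {v // ¬pV v = true} → Option {e // pE e = true} × Bool}
    {R : ∀ i, {e // fE e = i} × Bool → Option {v // fV v = i}}
    (h : ind (IsBlock N) * emb (clo N) (flp _) * (∏ i, ind (RConn (R i)) * embS (R i)) *
      ind (attachF pE pV N (clo N) fE fV R = G) ≠ 0) :
    IsBlock N ∧ attachF pE pV N (clo N) fE fV R = G ∧ ∀ i, RConn (R i) := by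
  refine ⟨by_contra fun h1 => h ?_, by_contra fun h1 => h ?_, fun i => by_contra fun h1 => h ?_⟩
  · simp [blockD_ind_neg h1]
  · simp [blockD_ind_neg h1]
  · rw [Finset.prod_eq_zero (Finset.mem_univ i) (by rw [blockD_ind_neg h1, zero_mul])]
    simp

theorem blockD_inner {pE : Fin m → Bool} {pV : Fin n → Bool}
    {N : {e // pE e = true} × Bool → Bool ⊕ {v // pV v = true}} (hd : BData G pE pV N)
    (hs : SConn (clo G)) :
    ∑ fE : {e // ¬pE e = true} → Option {e // pE e = true} × Bool,
      ∑ fV : {v // ¬pV v = true} → Option {e // pE e = true} × Bool,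
        ∑ R : ∀ i, {e // fE e = i} × Bool → Option {v // fV v = i},
          ind (IsBlock N) * emb (clo N) (flp _) * (∏ i, ind (RConn (R i)) * embS (R i)) *
            ind (attachF pE pV N (clo N) fE fV R = G) = emb (clo G) (flp _) := by
  rw [hd.emb_eq hs.2, Nat.card_sigma, Nat.cast_mul, Nat.cast_sum,
    ← Finset.sum_subtype (Finset.univ.filter
      (BValid (clo G) (blockD_aX pE) (blockD_j pE))) (by simp)
      (fun f => (Nat.card {γ // BGoodG (clo G) (blockD_aX pE) f γ} : ℝ≥0∞)),
    Finset.sum_filter, Finset.mul_sum]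
  refine Fintype.sum_of_injective _ blockD_f_inj _ _ (fun f hf => ?_) fun fE => ?_
  · rw [if_neg fun h => hf h.exists_fE, mul_zero]
  · by_cases hf : BValid (clo G) (blockD_aX pE) (blockD_j pE) (blockD_f fE)
    · obtain ⟨fV, R, h, hR⟩ := blockD_exists_R hd hs.1 hf
      rw [if_pos hf, Finset.sum_eq_single fV, Finset.sum_eq_single R, blockD_ind_pos h,
        blockD_ind_pos hd.isBlock, blockD_cardG_eq h hR]
      · simp [blockD_ind_pos (hR _)]
      · intro R' _ hne
        by_contra h0
        exact hne (blockD_R_unique (blockD_term h0).2.1 h)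
      · simp
      · intro fV' _ hne
        refine Finset.sum_eq_zero fun R' _ => by_contra fun h0 => ?_
        exact hne (blockD_fV_unique (blockD_term h0).2.1 (blockD_term h0).2.2 h)
      · simp
    · rw [if_neg hf, mul_zero]
      refine Finset.sum_eq_zero fun fV _ => Finset.sum_eq_zero fun R _ => by_contra fun h0 => ?_
      exact hf (blockD_valid (blockD_term h0).2.1 (blockD_term h0).2.2)

theorem blockD_point :
    ∑ pE : Fin m → Bool, ∑ pV : Fin n → Bool,
      ∑ N : {e // pE e = true} × Bool → Bool ⊕ {v // pV v = true},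
        ∑ fE : {e // ¬pE e = true} → Option {e // pE e = true} × Bool,
          ∑ fV : {v // ¬pV v = true} → Option {e // pE e = true} × Bool,
            ∑ R : ∀ i, {e // fE e = i} × Bool → Option {v // fV v = i},
              ind (IsBlock N) * emb (clo N) (flp _) * (∏ i, ind (RConn (R i)) * embS (R i)) *
                ind (attachF pE pV N (clo N) fE fV R = G) =
      ind (SConn (clo G)) * emb (clo G) (flp _) := by
  by_cases hs : SConn (clo G)
  · obtain ⟨pE, pV, N, hd⟩ := blockD_exists_data G
    rw [blockD_ind_pos hs, one_mul, Finset.sum_eq_single pE, Finset.sum_eq_single pV,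
      Finset.sum_eq_single N, blockD_inner hd hs]
    · intro N' _ hne
      refine Finset.sum_eq_zero fun fE _ => Finset.sum_eq_zero fun fV _ =>
        Finset.sum_eq_zero fun R _ => by_contra fun h0 => hne ?_
      have hd' := blockD_data (blockD_term h0).1 (blockD_term h0).2.1
      funext x
      exact blockD_map_inj ((hd'.hN x).symm.trans (hd.hN x))
    · simp
    · intro pV' _ hne
      refine Finset.sum_eq_zero fun N' _ => Finset.sum_eq_zero fun fE _ =>
        Finset.sum_eq_zero fun fV _ => Finset.sum_eq_zero fun R _ => by_contra fun h0 => hne ?_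
      have hd' := blockD_data (blockD_term h0).1 (blockD_term h0).2.1
      funext v
      rw [Bool.eq_iff_iff, hd'.hV, hd.hV]
    · simp
    · intro pE' _ hne
      refine Finset.sum_eq_zero fun pV' _ => Finset.sum_eq_zero fun N' _ =>
        Finset.sum_eq_zero fun fE _ => Finset.sum_eq_zero fun fV _ =>
          Finset.sum_eq_zero fun R _ => by_contra fun h0 => hne ?_
      have hd' := blockD_data (blockD_term h0).1 (blockD_term h0).2.1
      funext e
      rw [Bool.eq_iff_iff, hd'.hE, hd.hE]
    · simp
  · rw [blockD_ind_neg hs, zero_mul]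
    refine Finset.sum_eq_zero fun pE _ => Finset.sum_eq_zero fun pV _ =>
      Finset.sum_eq_zero fun N _ => Finset.sum_eq_zero fun fE _ => Finset.sum_eq_zero fun fV _ =>
        Finset.sum_eq_zero fun R _ => by_contra fun h0 => hs ?_
    exact blockD_sconn (blockD_term h0).1 (blockD_term h0).2.1 (blockD_term h0).2.2

end

theorem block_D (Ψ : NFun) (hΨ : NInv Ψ) :
    ∑' G : NG, wt G.1 G.2.1 * ind (SConn (clo G.2.2)) * emb (clo G.2.2) (flp _) * Ψ _ _ G.2.2 =
      ∑' N : NG, wt N.1 N.2.1 * ind (IsBlock N.2.2) * emb (clo N.2.2) (flp _) *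
        ∑' R : Option (Fin N.1) × Bool → RG, (∏ i, w0 (R i)) *
          Ψ _ _ (attach N.2.2 (clo N.2.2) fun i => (R i).2.2) := by
  have h := attach_LP_D Ψ hΨ (fun _ _ _ _ N => ind (IsBlock N) * emb (clo N) (flp _))
    (fun E V E' V' _ _ _ _ u e N N' h => by
      simp only [isBlock_congr u e h, emb_clo_congr u e h])
    (fun _ _ _ _ R => ind (RConn R) * embS R)
    (fun E V E' V' _ _ _ _ u e N N' h => by
      simp only [rconn_congr u e h, embS_congr u e h])
  simp only [blockD_point] at h
  simp only [w0, mul_assoc] at h ⊢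
  rw [h]
  exact tsum_congr fun G => by ring

section
variable {E₀ V₀ : Type} {E V : Bool ⊕ V₀ → Type} [Finite E₀] [Finite V₀] [∀ i, Finite (E i)]
  [∀ i, Finite (V i)] {N : E₀ × Bool → Bool ⊕ V₀} {R : ∀ i, E i × Bool → Option (V i)}

end

end Pool.Agent.Lib.MP_77dff5_pr
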