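import Pool.Agent.Lib.MP_77dff5_pr.Net

/-! Pendant sets, block edges and the decomposition at the block of the root edge. -/

set_option autoImplicit false

namespace Pool.Agent.Lib.MP_77dff5_pr

open scoped Classical

section general
variable {D W : Type} (ν : D × Bool → W) (r : D)

/-- a set of edges avoiding the root edge with at most one boundary vertex -/
def BPend (X : Set D) : Prop := r ∉ X ∧ (bd ν X).Subsingleton

/-- edges of the block of the root edge -/
def BEdge (e : D) : Prop := ∀ X, BPend ν r X → e ∉ X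

/-- vertices of the block of the root edge -/
def BVert (w : W) : Prop := ∃ x, BEdge ν r x.1 ∧ ν x = w

/-- the edge `e` hangs at the block vertex `w` -/
def BAtt (e : D) (w : W) : Prop :=
  BVert ν r w ∧ ∃ X, BPend ν r X ∧ e ∈ X ∧ ∃ x, x.1 ∈ X ∧ ν x = w

variable {ν r}

theorem blockV_flp (x : D × Bool) : flp D x = (x.1, !x.2) := rfl

theorem blockV_bEdge_root : BEdge ν r r := fun _ hX => hX.1

theorem blockV_conn_iff {D' W' : Type} {μ : D' → W'} {α : Equiv.Perm D'} (hc : Conn μ α)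
    (p : D' → Prop) (h1 : ∀ a b, μ a = μ b → p a → p b) (h2 : ∀ a, p a ↔ p (α a)) (x y : D') :
    p x ↔ p y := by
  induction hc x y with
  | rel a b hab =>
    rcases hab with hab | rfl
    · exact ⟨h1 a b hab, h1 b a hab.symm⟩
    · exact h2 a
  | refl => rfl
  | symm a b _ ih => exact ih.symm
  | trans a b c _ _ ih1 ih2 => exact ih1.trans ih2

theorem blockV_bd_nonempty (hc : Conn ν (flp D)) {X : Set D} {a b : D} (ha : a ∈ X) (hb : b ∉ X) :
    (bd ν X).Nonempty := by
  by_contra hne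
  have := blockV_conn_iff hc (fun x => x.1 ∈ X) (fun x y hxy hx => ?_) (fun _ => Iff.rfl)
    (a, true) (b, true)
  · exact hb (this.mp ha)
  · by_contra hy
    exact hne ⟨ν x, ⟨x, hx, rfl⟩, ⟨y, hy, hxy.symm⟩⟩

theorem blockV_bd_compl (X : Set D) : bd ν Xᶜ = bd ν X := by
  ext v
  simp only [bd, Set.mem_ofPred_eq, Set.mem_compl_iff, not_not]
  exact and_comm

theorem blockV_pend_union (hc : Conn ν (flp D)) {X Y : Set D} (hX : BPend ν r X)
    (hY : BPend ν r Y) {x y : D × Bool} (hx : x.1 ∈ X) (hy : y.1 ∈ Y) (h : ν x = ν y) :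
    BPend ν r (X ∪ Y) := by
  refine ⟨fun h => h.elim hX.1 hY.1, ?_⟩
  have hsub : ∀ a ∈ bd ν (X ∪ Y), a ∈ bd ν X ∨ a ∈ bd ν Y := by
    rintro a ⟨⟨p, hp, rfl⟩, q, hq, hq'⟩
    rcases hp with hp | hp
    · exact Or.inl ⟨⟨p, hp, rfl⟩, q, fun h => hq (Or.inl h), hq'⟩
    · exact Or.inr ⟨⟨p, hp, rfl⟩, q, fun h => hq (Or.inr h), hq'⟩
  have key : ∀ c, c ∈ bd ν X → c ∈ bd ν Y → (bd ν (X ∪ Y)).Subsingleton := by
    intro c hcX hcY a ha b hb
    have e1 : a = c := (hsub a ha).elim (fun h => hX.2 h hcX) fun h => hY.2 h hcY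
    have e2 : b = c := (hsub b hb).elim (fun h => hX.2 h hcX) fun h => hY.2 h hcY
    rw [e1, e2]
  by_cases hI : (X ∩ Y).Nonempty
  · obtain ⟨e, he⟩ := hI
    obtain ⟨c, ⟨p, hp, rfl⟩, q, hq, hq'⟩ := blockV_bd_nonempty hc he (fun h => hX.1 h.1)
    by_cases hcX : ν p ∈ bd ν X
    · by_cases hcY : ν p ∈ bd ν Y
      · exact key _ hcX hcY
      · have hout : ∀ a ∈ bd ν (X ∪ Y), a ∈ bd ν Y := by
          intro a ha
          refine (hsub a ha).resolve_left fun haX => hcY ?_
          obtain ⟨-, q', hq1, hq2⟩ := ha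
          exact ⟨⟨p, hp.2, rfl⟩, q', fun h => hq1 (Or.inr h), hq2.trans (hX.2 haX hcX)⟩
        exact fun a ha b hb => hY.2 (hout a ha) (hout b hb)
    · have hcY : ν p ∈ bd ν Y := by
        refine ⟨⟨p, hp.2, rfl⟩, q, fun h => hcX ⟨⟨p, hp.1, rfl⟩, q, fun h' => hq ⟨h', h⟩, hq'⟩, hq'⟩
      have hout : ∀ a ∈ bd ν (X ∪ Y), a ∈ bd ν X := by
        intro a ha
        refine (hsub a ha).resolve_right fun haY => hcX ?_
        obtain ⟨-, q', hq1, hq2⟩ := ha
        exact ⟨⟨p, hp.1, rfl⟩, q', fun h => hq1 (Or.inl h), hq2.trans (hY.2 haY hcY)⟩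
      exact fun a ha b hb => hX.2 (hout a ha) (hout b hb)
  · refine key (ν x) ⟨⟨x, hx, rfl⟩, y, fun h' => hI ⟨_, h', hy⟩, h.symm⟩
      ⟨⟨y, hy, h.symm⟩, x, fun h' => hI ⟨_, hx, h'⟩, rfl⟩

theorem blockV_mem_bd {X : Set D} (hX : BPend ν r X) {w : W} (hw : BVert ν r w) {x : D × Bool}
    (hx : x.1 ∈ X) (hxw : ν x = w) : w ∈ bd ν X := by
  obtain ⟨y, hy, hyw⟩ := hw
  exact ⟨⟨x, hx, hxw⟩, y, hy X hX, hyw⟩

theorem blockV_att_unique (hc : Conn ν (flp D)) {e : D} {w w' : W} (h : BAtt ν r e w)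
    (h' : BAtt ν r e w') : w = w' := by
  obtain ⟨hw, X, hX, he, x, hx, hxw⟩ := h
  obtain ⟨hw', Y, hY, he', y, hy, hyw⟩ := h'
  have hU := blockV_pend_union hc hX hY (x := (e, true)) (y := (e, true)) he he' rfl
  exact hU.2 (blockV_mem_bd hU hw (Or.inl hx) hxw) (blockV_mem_bd hU hw' (Or.inr hy) hyw)

theorem blockV_exists_pend {e : D} (he : ¬BEdge ν r e) : ∃ X, BPend ν r X ∧ e ∈ X := by
  by_contra h
  exact he fun X hX heX => h ⟨X, hX, heX⟩

theorem blockV_att_exists [Finite D] (hc : Conn ν (flp D)) {e : D} (he : ¬BEdge ν r e) :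
    ∃ w, BAtt ν r e w := by
  obtain ⟨X0, hX0, he0⟩ := blockV_exists_pend he
  obtain ⟨X, hle, hX⟩ := Finite.exists_le_maximal (p := BPend ν r) hX0
  obtain ⟨w, ⟨x, hx, hxw⟩, y, hy, hyw⟩ := blockV_bd_nonempty hc (hle he0) hX.prop.1
  refine ⟨w, ⟨y, fun Y hY hyY => hy ?_, hyw⟩, X, hX.prop, hle he0, x, hx, hxw⟩
  have hU := blockV_pend_union hc hX.prop hY hx hyY (hxw.trans hyw.symm)
  exact hX.le_of_ge hU Set.subset_union_left (Or.inr hyY)

theorem blockV_att_self {x : D × Bool} (hx : ¬BEdge ν r x.1) (hw : BVert ν r (ν x)) :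
    BAtt ν r x.1 (ν x) := by
  obtain ⟨X, hX, he⟩ := blockV_exists_pend hx
  exact ⟨hw, X, hX, he, x, he, rfl⟩

theorem blockV_att_congr (hc : Conn ν (flp D)) {x y : D × Bool} (hy : ¬BEdge ν r y.1)
    (hxy : ν x = ν y) {w : W} (h : BAtt ν r x.1 w) : BAtt ν r y.1 w := by
  obtain ⟨hw, X, hX, he, z, hz, hzw⟩ := h
  obtain ⟨Y, hY, he'⟩ := blockV_exists_pend hy
  exact ⟨hw, X ∪ Y, blockV_pend_union hc hX hY he he' hxy, Or.inr he', z, Or.inl hz, hzw⟩

end general

section fixed
variable {I E V : Type} {pE : E → Bool} {pV : V → Bool}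
  {N : {e // pE e = true} × Bool → Bool ⊕ {v // pV v = true}}
  {pos : I → Bool ⊕ {v // pV v = true}}
  {fE : {e // ¬pE e = true} → I} {fV : {v // ¬pV v = true} → I}
  {R : ∀ i, {e // fE e = i} × Bool → Option {v // fV v = i}} {G : E × Bool → Bool ⊕ V}

theorem blockV_attachF_iff : attachF pE pV N pos fE fV R = G ↔
    (∀ x, (N x).map id Subtype.val = G (x.1.1, x.2)) ∧
      ∀ i (x : {e // fE e = i} × Bool),
        (R i x).elim ((pos i).map id Subtype.val) (fun v => Sum.inr v.1.1) = G (x.1.1.1, x.2) := by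
  constructor
  · rintro rfl
    refine ⟨fun x => ?_, fun i x => ?_⟩
    · obtain ⟨⟨e, he⟩, b⟩ := x
      simp only [attachF, he, dite_true]
    · obtain ⟨⟨⟨e, he⟩, rfl⟩, b⟩ := x
      simp only [attachF, dif_neg he]
  · rintro ⟨h1, h2⟩
    funext x
    by_cases h : pE x.1 = true
    · simp only [attachF, dif_pos h]
      exact h1 (⟨x.1, h⟩, x.2)
    · simp only [attachF, dif_neg h]
      exact h2 _ (⟨⟨x.1, h⟩, rfl⟩, x.2)

theorem blockV_map_inj : Function.Injective
    (Sum.map id Subtype.val : Bool ⊕ {v // pV v = true} → Bool ⊕ V) :=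
  Sum.map_injective.mpr ⟨Function.injective_id, Subtype.val_injective⟩

theorem blockV_map_ne (w : Bool ⊕ {v // pV v = true}) {v : V} (hv : ¬pV v = true) :
    w.map id Subtype.val ≠ Sum.inr v := by
  rcases w with b | w
  · simp
  · intro h
    have : w.1 = v := by simpa using h
    exact hv (this ▸ w.2)

theorem blockV_clo_map (h : attachF pE pV N pos fE fV R = G)
    (x : Option {e // pE e = true} × Bool) :
    (clo N x).map id Subtype.val = clo G (x.1.map Subtype.val, x.2) := by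
  obtain ⟨_ | e, b⟩ := x
  · rfl
  · exact (blockV_attachF_iff.mp h).1 (e, b)

/-- the two kinds of pendant darts -/
theorem blockV_pend_cases (h : attachF pE pV N pos fE fV R = G) {i : I}
    (x : {e // fE e = i} × Bool) :
    (R i x = none ∧ G (x.1.1.1, x.2) = (pos i).map id Subtype.val) ∨
      ∃ v, R i x = some v ∧ G (x.1.1.1, x.2) = Sum.inr v.1.1 := by
  have h2 := (blockV_attachF_iff.mp h).2 i x
  cases hx : R i x with
  | none => rw [hx] at h2; exact Or.inl ⟨rfl, h2.symm⟩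
  | some v => rw [hx] at h2; exact Or.inr ⟨v, rfl, h2.symm⟩

theorem blockV_R_none (h : attachF pE pV N pos fE fV R = G) {i : I}
    (x : {e // fE e = i} × Bool) {w : Bool ⊕ {v // pV v = true}}
    (hw : G (x.1.1.1, x.2) = w.map id Subtype.val) : R i x = none ∧ pos i = w := by
  rcases blockV_pend_cases h x with ⟨h1, h2⟩ | ⟨v, -, h2⟩
  · exact ⟨h1, blockV_map_inj (h2.symm.trans hw)⟩
  · exact absurd (hw.symm.trans h2) (blockV_map_ne w v.1.2)

theorem blockV_R_some (h : attachF pE pV N pos fE fV R = G) {i : I}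
    (x : {e // fE e = i} × Bool) {v : {v // ¬pV v = true}}
    (hv : G (x.1.1.1, x.2) = Sum.inr v.1) : ∃ hi : fV v = i, R i x = some ⟨v, hi⟩ := by
  rcases blockV_pend_cases h x with ⟨-, h2⟩ | ⟨v', h1, h2⟩
  · exact absurd (h2.symm.trans hv) (blockV_map_ne _ v.2)
  · have : v'.1 = v := Subtype.ext (Sum.inr.inj (h2.symm.trans hv))
    obtain ⟨v', hv'⟩ := v'
    subst this
    exact ⟨hv', h1⟩

theorem blockV_surj_block (hN : IsBlock N) : Function.Surjective (clo N) := by
  rcases hN with ⟨-, hV⟩ | hN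
  · rintro (b | v)
    · exact ⟨(none, b), rfl⟩
    · exact hV.elim v
  · exact hN.2.1

theorem blockV_conn_block [Finite E] [Finite V] (hN : IsBlock N) : Conn (clo N) (flp _) := by
  rcases hN with ⟨hE, -⟩ | hN
  · have key : ∀ x : Option {e // pE e = true} × Bool,
        Relation.EqvGen (fun a b => clo N a = clo N b ∨ b = flp _ a) (none, true) x := by
      rintro ⟨_ | e, b⟩
      · cases b
        · exact .rel _ _ (Or.inr rfl)
        · exact .refl _
      · exact hE.elim e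
    exact fun x y => .trans _ _ _ (.symm _ _ (key x)) (key y)
  · exact hN.sconn.2

/-- The block edges are forced. -/
theorem blockV_pE_iff [Finite E] [Finite V] (hN : IsBlock N)
    (h : attachF pE pV N pos fE fV R = G) (e : E) :
    pE e = true ↔ BEdge (clo G) none (some e) := by
  constructor
  · intro he X hX heX
    rcases hN with ⟨hE, -⟩ | hN
    · exact hE.elim ⟨e, he⟩
    have h2 := hN.2.2 {o | o.map Subtype.val ∈ X} ⟨some ⟨e, he⟩, heX⟩ ⟨none, hX.1⟩
    have h3 : (bd (clo N) {o | o.map Subtype.val ∈ X}).Subsingleton := by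
      have h4 : ∀ a ∈ bd (clo N) {o | o.map Subtype.val ∈ X},
          a.map id Subtype.val ∈ bd (clo G) X := by
        rintro a ⟨⟨p, hp, rfl⟩, q, hq, hq'⟩
        exact ⟨⟨(p.1.map Subtype.val, p.2), hp, (blockV_clo_map h p).symm⟩,
          (q.1.map Subtype.val, q.2), hq, by rw [← blockV_clo_map h q, hq']⟩
      exact fun a ha b hb => blockV_map_inj (hX.2 (h4 a ha) (h4 b hb))
    have := Set.ncard_le_one_iff_subsingleton.mpr h3
    omega
  · intro hB
    by_contra he
    refine hB {o | ∃ e' : {e // ¬pE e = true}, o = some e'.1 ∧ fE e' = fE ⟨e, he⟩} ⟨?_, ?_⟩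
      ⟨⟨e, he⟩, rfl, rfl⟩
    · rintro ⟨e', h1, -⟩
      cases h1
    · have h4 : ∀ a ∈ bd (clo G)
          {o | ∃ e' : {e // ¬pE e = true}, o = some e'.1 ∧ fE e' = fE ⟨e, he⟩},
          a = (pos (fE ⟨e, he⟩)).map id Subtype.val := by
        rintro a ⟨⟨⟨_, b⟩, ⟨e', rfl, he'⟩, rfl⟩, ⟨o, b'⟩, hq, hq'⟩
        rcases blockV_pend_cases h (i := fE ⟨e, he⟩) (⟨e', he'⟩, b) with ⟨-, h2⟩ | ⟨v, -, h2⟩
        · exact h2
        · exfalso
          have h3 : clo G (o, b') = Sum.inr v.1.1 := hq'.trans h2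
          rcases o with _ | e''
          · cases h3
          · by_cases he'' : pE e'' = true
            · exact blockV_map_ne _ v.1.2
                (((blockV_attachF_iff.mp h).1 (⟨e'', he''⟩, b')).trans h3)
            · obtain ⟨hi, -⟩ := blockV_R_some h (i := fE ⟨e'', he''⟩) (⟨⟨e'', he''⟩, rfl⟩, b') h3
              exact hq ⟨⟨e'', he''⟩, rfl, hi.symm.trans v.2⟩
      exact fun a ha b hb => (h4 a ha).trans (h4 b hb).symm

/-- The block vertices are forced. -/
theorem blockV_pV_iff [Finite E] [Finite V] (hN : IsBlock N)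
    (h : attachF pE pV N pos fE fV R = G) (v : V) :
    pV v = true ↔ BVert (clo G) none (Sum.inr v) := by
  constructor
  · intro hv
    obtain ⟨⟨o, b⟩, hx⟩ := blockV_surj_block hN (Sum.inr ⟨v, hv⟩)
    refine ⟨(o.map Subtype.val, b), ?_, by rw [← blockV_clo_map h (o, b), hx]; rfl⟩
    rcases o with _ | e
    · exact blockV_bEdge_root
    · exact (blockV_pE_iff hN h e.1).mp e.2
  · rintro ⟨⟨_ | e, b⟩, hx, hxv⟩
    · cases hxv
    · by_contra hv
      have he := (blockV_pE_iff hN h e).mpr hx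
      exact blockV_map_ne _ hv (((blockV_attachF_iff.mp h).1 (⟨e, he⟩, b)).trans hxv)

/-- An attachment of connected rooted graphs to a block is connected. -/
theorem blockV_sconn [Finite E] [Finite V] (hN : IsBlock N) (hR : ∀ i, RConn (R i))
    (h : attachF pE pV N pos fE fV R = G) : SConn (clo G) := by
  refine ⟨?_, ?_⟩
  · rintro (b | v)
    · exact ⟨(none, b), rfl⟩
    · by_cases hv : pV v = true
      · obtain ⟨x, hx⟩ := blockV_surj_block hN (Sum.inr ⟨v, hv⟩)
        exact ⟨_, by rw [← blockV_clo_map h x, hx]; rfl⟩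
      · obtain ⟨o, ho⟩ := (hR (fV ⟨v, hv⟩)).1 (some ⟨⟨v, hv⟩, rfl⟩)
        rcases o with _ | x
        · cases ho
        · refine ⟨(some x.1.1.1, x.2), ?_⟩
          have h2 := (blockV_attachF_iff.mp h).2 _ x
          have ho' : R _ x = some ⟨⟨v, hv⟩, rfl⟩ := ho
          rw [ho'] at h2
          exact h2.symm
  · let P : Option E × Bool → Prop := fun x =>
      Relation.EqvGen (fun a b => clo G a = clo G b ∨ b = flp _ a) (none, true) x
    have P1 : ∀ a b, clo G a = clo G b → P a → P b := fun a b hab ha =>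
      .trans _ _ _ ha (.rel _ _ (Or.inl hab))
    have P2 : ∀ a, P a ↔ P (flp _ a) := fun a =>
      ⟨fun ha => .trans _ _ _ ha (.rel _ _ (Or.inr rfl)),
        fun ha => .trans _ _ _ ha (.symm _ _ (.rel _ _ (Or.inr rfl)))⟩
    have hb : ∀ x : Option {e // pE e = true} × Bool, P (x.1.map Subtype.val, x.2) := by
      intro x
      refine (blockV_conn_iff (blockV_conn_block hN) (fun x => P (x.1.map Subtype.val, x.2))
        (fun a b hab => P1 _ _ ?_) (fun a => P2 _) (none, true) x).mp (.refl _)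
      rw [← blockV_clo_map h, ← blockV_clo_map h, hab]
    have hall : ∀ x, P x := by
      rintro ⟨_ | e, b⟩
      · exact hb (none, b)
      by_cases he : pE e = true
      · exact hb (some ⟨e, he⟩, b)
      have hnone : ∀ x : {e' // fE e' = fE ⟨e, he⟩} × Bool, R _ x = none →
          P (some x.1.1.1, x.2) := by
        intro x hx
        obtain ⟨y, hy⟩ := blockV_surj_block hN (pos (fE ⟨e, he⟩))
        refine P1 _ _ ?_ (hb y)
        have h2 := (blockV_attachF_iff.mp h).2 _ x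
        rw [hx] at h2
        rw [← blockV_clo_map h, hy]
        exact h2
      refine (blockV_conn_iff (hR (fE ⟨e, he⟩)).2
        (fun o => o.elim True fun x => P (some x.1.1.1, x.2)) ?_ ?_ none
        (some (⟨⟨e, he⟩, rfl⟩, b))).mp trivial
      · rintro (_ | x) (_ | y) hxy hx
        · trivial
        · exact hnone y hxy.symm
        · trivial
        · refine P1 (some x.1.1.1, x.2) _ ?_ hx
          have h2 := (blockV_attachF_iff.mp h).2 _ x
          have h3 := (blockV_attachF_iff.mp h).2 _ y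
          have hxy' : R _ x = R _ y := hxy
          rw [hxy'] at h2
          exact h2.symm.trans h3
      · rintro (_ | x)
        · rfl
        · exact P2 (some x.1.1.1, x.2)
    exact fun x y => .trans _ _ _ (.symm _ _ (hall x)) (hall y)

/-- The block is forced. -/
theorem blockV_N_eq {I' : Type} {N' : {e // pE e = true} × Bool → Bool ⊕ {v // pV v = true}}
    {pos' : I' → Bool ⊕ {v // pV v = true}} {fE' : {e // ¬pE e = true} → I'}
    {fV' : {v // ¬pV v = true} → I'} {R' : ∀ i, {e // fE' e = i} × Bool → Option {v // fV' v = i}}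
    (h : attachF pE pV N pos fE fV R = G) (h' : attachF pE pV N' pos' fE' fV' R' = G) : N = N' :=
  funext fun x => blockV_map_inj
    (((blockV_attachF_iff.mp h).1 x).trans ((blockV_attachF_iff.mp h').1 x).symm)

/-- The attachment vertex of a pendant edge is forced. -/
theorem blockV_pos_eq {I' : Type} {N' : {e // pE e = true} × Bool → Bool ⊕ {v // pV v = true}}
    {pos' : I' → Bool ⊕ {v // pV v = true}} {fE' : {e // ¬pE e = true} → I'}
    {fV' : {v // ¬pV v = true} → I'} {R' : ∀ i, {e // fE' e = i} × Bool → Option {v // fV' v = i}}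
    (hR : ∀ i, RConn (R i)) (h : attachF pE pV N pos fE fV R = G)
    (h' : attachF pE pV N' pos' fE' fV' R' = G) (e : {e // ¬pE e = true}) :
    pos' (fE' e) = pos (fE e) := by
  have hnone : ∀ x : {e' // fE e' = fE e} × Bool, R _ x = none →
      pos' (fE' x.1.1) = pos (fE e) := by
    intro x hx
    have h2 := (blockV_attachF_iff.mp h).2 _ x
    rw [hx] at h2
    exact (blockV_R_none h' (i := fE' x.1.1) (⟨x.1.1, rfl⟩, x.2) h2.symm).2
  refine (blockV_conn_iff (hR (fE e)).2
    (fun o => o.elim True fun x => pos' (fE' x.1.1) = pos (fE e)) ?_ ?_ none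
    (some (⟨e, rfl⟩, true))).mp trivial
  · rintro (_ | x) (_ | y) hxy hx
    · trivial
    · exact hnone y hxy.symm
    · trivial
    · have hxy' : R _ x = R _ y := hxy
      rcases blockV_pend_cases h y with ⟨h1, -⟩ | ⟨v, h1, h2⟩
      · exact hnone y h1
      · have h3 := (blockV_attachF_iff.mp h).2 _ x
        rw [hxy', h1] at h3
        obtain ⟨e1, -⟩ := blockV_R_some h' (i := fE' x.1.1) (⟨x.1.1, rfl⟩, x.2) h3.symm
        obtain ⟨e2, -⟩ := blockV_R_some h' (i := fE' y.1.1) (⟨y.1.1, rfl⟩, y.2) h2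
        exact (congrArg pos' (e2.symm.trans e1)).trans hx
  · rintro (_ | x)
    · rfl
    · rfl

/-- The assignment of the pendant vertices is forced by that of the edges. -/
theorem blockV_fV_eq {N' : {e // pE e = true} × Bool → Bool ⊕ {v // pV v = true}}
    {pos' : I → Bool ⊕ {v // pV v = true}}
    {fV' : {v // ¬pV v = true} → I} {R' : ∀ i, {e // fE e = i} × Bool → Option {v // fV' v = i}}
    (hR : ∀ i, RConn (R i)) (h : attachF pE pV N pos fE fV R = G)
    (h' : attachF pE pV N' pos' fE fV' R' = G) : fV = fV' := by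
  funext v
  obtain ⟨o, ho⟩ := (hR (fV v)).1 (some ⟨v, rfl⟩)
  rcases o with _ | x
  · cases ho
  · have h2 := (blockV_attachF_iff.mp h).2 _ x
    have ho' : R _ x = some ⟨v, rfl⟩ := ho
    rw [ho'] at h2
    obtain ⟨hi, -⟩ := blockV_R_some h' x h2.symm
    exact hi.symm

/-- The pendant graphs are forced by the assignments. -/
theorem blockV_R_eq {N' : {e // pE e = true} × Bool → Bool ⊕ {v // pV v = true}}
    {pos' : I → Bool ⊕ {v // pV v = true}}
    {R' : ∀ i, {e // fE e = i} × Bool → Option {v // fV v = i}}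
    (h : attachF pE pV N pos fE fV R = G) (h' : attachF pE pV N' pos' fE fV R' = G) : R = R' := by
  funext i x
  rcases blockV_pend_cases h x with ⟨h1, h2⟩ | ⟨v, h1, h2⟩
  · rw [h1, (blockV_R_none h' x h2).1]
  · obtain ⟨hi, h3⟩ := blockV_R_some h' x h2
    rw [h1, h3]

end fixed

section exist
variable {E V : Type} {pE : E → Bool} {pV : V → Bool}
  {N : {e // pE e = true} × Bool → Bool ⊕ {v // pV v = true}}
  {fE : {e // ¬pE e = true} → Bool ⊕ {v // pV v = true}}
  {fV : {v // ¬pV v = true} → Bool ⊕ {v // pV v = true}}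
  {R : ∀ i, {e // fE e = i} × Bool → Option {v // fV v = i}} {G : E × Bool → Bool ⊕ V}

theorem blockV_rconn (hG : SConn (clo G)) (h : attachF pE pV N id fE fV R = G)
    (hV : ∀ v, ∃ (e : {e // ¬pE e = true}) (b : Bool), G (e.1, b) = Sum.inr v.1 ∧ fE e = fV v)
    (i : Bool ⊕ {v // pV v = true}) : RConn (R i) := by
  refine ⟨?_, ?_⟩
  · rintro (_ | ⟨v, rfl⟩)
    · exact ⟨none, rfl⟩
    · obtain ⟨e, b, h1, h2⟩ := hV v
      obtain ⟨hi, h3⟩ := blockV_R_some h (i := fV v) (⟨e, h2⟩, b) h1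
      exact ⟨some (⟨e, h2⟩, b), h3⟩
  · let P : Option ({e // fE e = i} × Bool) → Prop := fun x =>
      Relation.EqvGen (fun a b => stem (R i) a = stem (R i) b ∨ b = (flp _).optionCongr a) none x
    have P1 : ∀ a b, stem (R i) a = stem (R i) b → P a → P b := fun a b hab ha =>
      .trans _ _ _ ha (.rel _ _ (Or.inl hab))
    have P2 : ∀ a, P (some a) ↔ P (some (flp _ a)) := fun a =>
      ⟨fun ha => .trans _ _ _ ha (.rel _ _ (Or.inr rfl)),
        fun ha => .trans _ _ _ ha (.symm _ _ (.rel _ _ (Or.inr rfl)))⟩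
    have hall : ∀ x, P x := by
      rintro (_ | x)
      · exact .refl _
      have key := (blockV_conn_iff hG.2
        (fun y => ∀ e : {e // fE e = i}, y.1 = some e.1.1 → P (some (e, y.2))) ?_ ?_ (none, true)
        (some x.1.1.1, x.2)).mp (fun e he => by cases he)
      · exact key x.1 rfl
      · rintro ⟨o, b⟩ ⟨_, b'⟩ hxy hx e rfl
        rcases blockV_pend_cases h (e, b') with ⟨h1, -⟩ | ⟨v, h1, h2⟩
        · exact P1 none _ h1.symm (.refl _)
        · have h3 : clo G (o, b) = Sum.inr v.1.1 := hxy.trans h2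
          rcases o with _ | e'
          · cases h3
          by_cases he' : pE e' = true
          · exact absurd (((blockV_attachF_iff.mp h).1 (⟨e', he'⟩, b)).trans h3)
              (blockV_map_ne _ v.1.2)
          · obtain ⟨hi, -⟩ := blockV_R_some h (i := fE ⟨e', he'⟩) (⟨⟨e', he'⟩, rfl⟩, b) h3
            have hi' : fE ⟨e', he'⟩ = i := hi.symm.trans v.2
            obtain ⟨hi2, h4⟩ := blockV_R_some h (i := i) (⟨⟨e', he'⟩, hi'⟩, b) h3
            exact P1 (some (⟨⟨e', he'⟩, hi'⟩, b)) _ (h4.trans h1.symm) (hx ⟨⟨e', he'⟩, hi'⟩ rfl)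
      · rintro ⟨o, b⟩
        exact ⟨fun hx e he => (P2 (e, b)).mp (hx e he), fun hx e he => (P2 (e, b)).mpr (hx e he)⟩
    exact fun x y => .trans _ _ _ (.symm _ _ (hall x)) (hall y)

theorem blockV_isBlock [Finite E] [Finite V] (h : attachF pE pV N id fE fV R = G)
    (hE : ∀ e, pE e = true → BEdge (clo G) none (some e))
    (hV : ∀ v, pV v = true → ∃ e b, pE e = true ∧ G (e, b) = Sum.inr v) : IsBlock N := by
  by_cases hne : Nonempty {e // pE e = true}
  swap
  · refine Or.inl ⟨not_nonempty_iff.mp hne, ⟨fun v => ?_⟩⟩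
    obtain ⟨e, b, he, -⟩ := hV v.1 v.2
    exact hne ⟨⟨e, he⟩⟩
  refine Or.inr ⟨hne, ?_, ?_⟩
  · rintro (b | v)
    · exact ⟨(none, b), rfl⟩
    · obtain ⟨e, b, he, h1⟩ := hV v.1 v.2
      exact ⟨(some ⟨e, he⟩, b),
        blockV_map_inj (((blockV_attachF_iff.mp h).1 (⟨e, he⟩, b)).trans h1)⟩
  have key : ∀ X : Set (Option {e // pE e = true}), X.Nonempty → none ∉ X →
      2 ≤ (bd (clo N) X).ncard := by
    intro X hX hn
    by_contra hlt
    have hs : (bd (clo N) X).Subsingleton := Set.ncard_le_one_iff_subsingleton.mp (by omega)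
    obtain ⟨_ | e0, he0⟩ := hX
    · exact hn he0
    refine hE e0.1 e0.2 {o | (∃ e, some e ∈ X ∧ o = some e.1) ∨
      ∃ e : {e // ¬pE e = true}, o = some e.1 ∧ ∃ x, x.1 ∈ X ∧ clo N x = fE e} ⟨?_, ?_⟩
      (Or.inl ⟨e0, he0, rfl⟩)
    · rintro (⟨e, -, h1⟩ | ⟨e, h1, -⟩) <;> cases h1
    have h4 : ∀ a ∈ bd (clo G) {o | (∃ e, some e ∈ X ∧ o = some e.1) ∨
        ∃ e : {e // ¬pE e = true}, o = some e.1 ∧ ∃ x, x.1 ∈ X ∧ clo N x = fE e},
        ∃ a' ∈ bd (clo N) X, a = a'.map id Subtype.val := by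
      rintro a ⟨⟨⟨o, b⟩, hp, hpa⟩, ⟨o', b'⟩, hq, hqa⟩
      have hblock : ∀ a' : Bool ⊕ {v // pV v = true}, a = a'.map id Subtype.val →
          (∃ x, x.1 ∈ X ∧ clo N x = a') → a' ∈ bd (clo N) X := by
        intro a' ha' hx
        refine ⟨hx, ?_⟩
        rcases o' with _ | e'
        · exact ⟨(none, b'), hn, blockV_map_inj (hqa.trans ha')⟩
        by_cases he' : pE e' = true
        · refine ⟨(some ⟨e', he'⟩, b'), fun hin => hq (Or.inl ⟨_, hin, rfl⟩), blockV_map_inj ?_⟩
          exact ((blockV_attachF_iff.mp h).1 (⟨e', he'⟩, b')).trans (hqa.trans ha')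
        · have h5 := (blockV_R_none h (i := fE ⟨e', he'⟩) (⟨⟨e', he'⟩, rfl⟩, b')
            (hqa.trans ha')).2
          obtain ⟨x, hx1, hx2⟩ := hx
          exact (hq (Or.inr ⟨⟨e', he'⟩, rfl, x, hx1, hx2.trans h5.symm⟩)).elim
      rcases hp with ⟨e, he, rfl⟩ | ⟨e, rfl, x, hx1, hx2⟩
      · have h5 : a = (N (e, b)).map id Subtype.val :=
          hpa.symm.trans ((blockV_attachF_iff.mp h).1 (e, b)).symm
        exact ⟨_, hblock _ h5 ⟨(some e, b), he, rfl⟩, h5⟩
      · rcases blockV_pend_cases h (i := fE e) (⟨e, rfl⟩, b) with ⟨-, h2⟩ | ⟨v, -, h2⟩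
        · exact ⟨_, hblock _ (hpa.symm.trans h2) ⟨x, hx1, hx2⟩, hpa.symm.trans h2⟩
        · exfalso
          have h3 : clo G (o', b') = Sum.inr v.1.1 := hqa.trans (hpa.symm.trans h2)
          rcases o' with _ | e'
          · cases h3
          by_cases he' : pE e' = true
          · exact blockV_map_ne _ v.1.2 (((blockV_attachF_iff.mp h).1 (⟨e', he'⟩, b')).trans h3)
          · obtain ⟨hi, -⟩ := blockV_R_some h (i := fE ⟨e', he'⟩) (⟨⟨e', he'⟩, rfl⟩, b') h3
            exact hq (Or.inr ⟨⟨e', he'⟩, rfl, x, hx1, hx2.trans (v.2.symm.trans hi)⟩)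
    intro a ha b hb
    obtain ⟨a', ha', rfl⟩ := h4 a ha
    obtain ⟨b', hb', rfl⟩ := h4 b hb
    rw [hs ha' hb']
  intro X hX hX'
  by_cases hn : none ∈ X
  · rw [← blockV_bd_compl]
    exact key _ hX' fun h => h hn
  · exact key _ hX hn

end exist

/-- Existence of the decomposition. -/
theorem blockV_exists {E V : Type} [Finite E] [Finite V] {G : E × Bool → Bool ⊕ V}
    (hG : SConn (clo G)) :
    ∃ (pE : E → Bool) (pV : V → Bool) (N : {e // pE e = true} × Bool → Bool ⊕ {v // pV v = true})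
      (fE : {e // ¬pE e = true} → Bool ⊕ {v // pV v = true})
      (fV : {v // ¬pV v = true} → Bool ⊕ {v // pV v = true})
      (R : ∀ i, {e // fE e = i} × Bool → Option {v // fV v = i}),
      IsBlock N ∧ (∀ i, RConn (R i)) ∧ attachF pE pV N id fE fV R = G := by
  have hc := hG.2
  let pE : E → Bool := fun e => decide (BEdge (clo G) none (some e))
  let pV : V → Bool := fun v => decide (BVert (clo G) none (Sum.inr v))
  have hpE : ∀ e, pE e = true ↔ BEdge (clo G) none (some e) := fun e => decide_eq_true_iff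
  have hpV : ∀ v, pV v = true ↔ BVert (clo G) none (Sum.inr v) := fun v => decide_eq_true_iff
  have hlift : ∀ w, BVert (clo G) none w →
      ∃ w' : Bool ⊕ {v // pV v = true}, w'.map id Subtype.val = w := by
    rintro (b | v) hw
    · exact ⟨Sum.inl b, rfl⟩
    · exact ⟨Sum.inr ⟨v, (hpV v).mpr hw⟩, rfl⟩
  have hN : ∀ x : {e // pE e = true} × Bool, ∃ w' : Bool ⊕ {v // pV v = true},
      w'.map id Subtype.val = G (x.1.1, x.2) := fun x =>
    hlift _ ⟨(some x.1.1, x.2), (hpE _).mp x.1.2, rfl⟩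
  choose N hN using hN
  have hnb : ∀ e : {e // ¬pE e = true}, ¬BEdge (clo G) none (some e.1) := fun e h =>
    e.2 ((hpE _).mpr h)
  have hfE : ∀ e : {e // ¬pE e = true}, ∃ w' : Bool ⊕ {v // pV v = true},
      BAtt (clo G) none (some e.1) (w'.map id Subtype.val) := by
    intro e
    obtain ⟨w, hw⟩ := blockV_att_exists hc (hnb e)
    obtain ⟨w', rfl⟩ := hlift w hw.1
    exact ⟨w', hw⟩
  choose fE hfE using hfE
  have hfV : ∀ v : {v // ¬pV v = true}, ∃ i, ∃ (e : {e // ¬pE e = true}) (b : Bool),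
      G (e.1, b) = Sum.inr v.1 ∧ fE e = i := by
    intro v
    obtain ⟨⟨_ | e, b⟩, hx⟩ := hG.1 (Sum.inr v.1)
    · cases hx
    · exact ⟨_, ⟨e, fun he => v.2 ((hpV _).mpr ⟨(some e, b), (hpE _).mp he, hx⟩)⟩, b, hx, rfl⟩
  choose fV hfV using hfV
  have hR : ∀ i (x : {e // fE e = i} × Bool), ∃ o : Option {v // fV v = i},
      o.elim ((id i).map id Subtype.val) (fun v => Sum.inr v.1.1) = G (x.1.1.1, x.2) := by
    rintro _ ⟨⟨e, rfl⟩, b⟩
    by_cases hw : BVert (clo G) none (G (e.1, b))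
    · exact ⟨none, blockV_att_unique hc (hfE e) (blockV_att_self (x := (some e.1, b)) (hnb e) hw)⟩
    · cases hx : G (e.1, b) with
      | inl c => exact (hw ⟨(none, c), blockV_bEdge_root, hx.symm⟩).elim
      | inr v =>
        have hv : ¬pV v = true := fun h => hw (hx ▸ (hpV v).mp h)
        obtain ⟨e', b', h1, h2⟩ := hfV ⟨v, hv⟩
        have h3 := blockV_att_congr hc (x := (some e'.1, b')) (y := (some e.1, b)) (hnb e)
          (h1.trans hx.symm) (hfE e')
        have h4 := blockV_map_inj (blockV_att_unique hc h3 (hfE e))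
        exact ⟨some ⟨⟨v, hv⟩, h2.symm.trans h4⟩, rfl⟩
  choose R hR using hR
  have h : attachF pE pV N id fE fV R = G := blockV_attachF_iff.mpr ⟨hN, hR⟩
  refine ⟨pE, pV, N, fE, fV, R, blockV_isBlock h (fun e => (hpE e).mp) fun v hv => ?_,
    blockV_rconn hG h hfV, h⟩
  obtain ⟨⟨_ | e, b⟩, h1, h2⟩ := (hpV v).mp hv
  · cases h2
  · exact ⟨e, b, (hpE e).mpr h1, h2⟩

end Pool.Agent.Lib.MP_77dff5_pr
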