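import Pool.Agent.Lib.MP_77dff5_pr.Net
import Pool.Agent.Lib.MP_77dff5_pr.LabelC
import Pool.Agent.Lib.MP_77dff5_pr.BlockVAux1

/-! The block of the root edge, for graphs and for maps. -/

set_option autoImplicit false

namespace Pool.Agent.Lib.MP_77dff5_pr

open scoped ENNReal Classical

theorem blockV_ind_pos {p : Prop} (h : p) : ind p = 1 := if_pos h

theorem blockV_ind_neg {p : Prop} (h : ¬p) : ind p = 0 := if_neg h

theorem blockV_ind_and {I : Type} [Fintype I] (p q : Prop) (r : I → Prop) :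
    ind p * (∏ i, ind (r i)) * ind q = ind (p ∧ (∀ i, r i) ∧ q) := by
  by_cases h : p ∧ (∀ i, r i) ∧ q
  · rw [blockV_ind_pos h, blockV_ind_pos h.1, blockV_ind_pos h.2.2,
      Finset.prod_eq_one fun i _ => blockV_ind_pos (h.2.1 i), mul_one, mul_one]
  · rw [blockV_ind_neg h]
    by_cases hp : p
    · by_cases hq : q
      · obtain ⟨i, hi⟩ := not_forall.mp fun hr => h ⟨hp, hr, hq⟩
        rw [Finset.prod_eq_zero (Finset.mem_univ i) (blockV_ind_neg hi), mul_zero, zero_mul]
      · rw [blockV_ind_neg hq, mul_zero]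
    · rw [blockV_ind_neg hp, zero_mul, zero_mul]

theorem blockV_count {E V : Type} [Fintype E] [Fintype V] [DecidableEq E] [DecidableEq V]
    (G : E × Bool → Bool ⊕ V) :
    ∑ pE : E → Bool, ∑ pV : V → Bool,
      ∑ N : {e // pE e = true} × Bool → Bool ⊕ {v // pV v = true},
        ∑ fE : {e // ¬pE e = true} → Bool ⊕ {v // pV v = true},
          ∑ fV : {v // ¬pV v = true} → Bool ⊕ {v // pV v = true},
            ∑ R : ∀ i, {e // fE e = i} × Bool → Option {v // fV v = i},
              ind (IsBlock N) * (∏ i, ind (RConn (R i))) * ind (attachF pE pV N id fE fV R = G) =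
      ind (SConn (clo G)) := by
  simp only [blockV_ind_and]
  by_cases hG : SConn (clo G)
  swap
  · rw [blockV_ind_neg hG]
    refine Finset.sum_eq_zero fun pE _ => Finset.sum_eq_zero fun pV _ =>
      Finset.sum_eq_zero fun N _ => Finset.sum_eq_zero fun fE _ => Finset.sum_eq_zero fun fV _ =>
      Finset.sum_eq_zero fun R _ => blockV_ind_neg fun h => hG (blockV_sconn h.1 h.2.1 h.2.2)
  obtain ⟨pE, pV, N, fE, fV, R, hN, hR, h⟩ := blockV_exists hG
  rw [blockV_ind_pos hG, Fintype.sum_eq_single pE, Fintype.sum_eq_single pV,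
    Fintype.sum_eq_single N, Fintype.sum_eq_single fE, Fintype.sum_eq_single fV,
    Fintype.sum_eq_single R, blockV_ind_pos ⟨hN, hR, h⟩]
  · intro R' hne
    exact blockV_ind_neg fun h' => hne (blockV_R_eq h'.2.2 h)
  · intro fV' hne
    exact Finset.sum_eq_zero fun R' _ => blockV_ind_neg fun h' => hne (blockV_fV_eq h'.2.1 h'.2.2 h)
  · intro fE' hne
    exact Finset.sum_eq_zero fun fV' _ => Finset.sum_eq_zero fun R' _ =>
      blockV_ind_neg fun h' => hne (funext fun e => blockV_pos_eq hR h h'.2.2 e)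
  · intro N' hne
    exact Finset.sum_eq_zero fun fE' _ => Finset.sum_eq_zero fun fV' _ =>
      Finset.sum_eq_zero fun R' _ => blockV_ind_neg fun h' => hne (blockV_N_eq h'.2.2 h)
  · intro pV' hne
    refine Finset.sum_eq_zero fun N' _ => Finset.sum_eq_zero fun fE' _ =>
      Finset.sum_eq_zero fun fV' _ => Finset.sum_eq_zero fun R' _ =>
      blockV_ind_neg fun h' => hne (funext fun v => ?_)
    exact Bool.eq_iff_iff.mpr ((blockV_pV_iff h'.1 h'.2.2 v).trans (blockV_pV_iff hN h v).symm)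
  · intro pE' hne
    refine Finset.sum_eq_zero fun pV' _ => Finset.sum_eq_zero fun N' _ =>
      Finset.sum_eq_zero fun fE' _ => Finset.sum_eq_zero fun fV' _ => Finset.sum_eq_zero fun R' _ =>
      blockV_ind_neg fun h' => hne (funext fun e => ?_)
    exact Bool.eq_iff_iff.mpr ((blockV_pE_iff h'.1 h'.2.2 e).trans (blockV_pE_iff hN h e).symm)

theorem block_V (Ψ : NFun) (hΨ : NInv Ψ) :
    ∑' G : NG, wt G.1 G.2.1 * ind (SConn (clo G.2.2)) * Ψ _ _ G.2.2 =
      ∑' N : NG, wt N.1 N.2.1 * ind (IsBlock N.2.2) * ∑' R : Bool ⊕ Fin N.2.1 → RG,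
        (∏ i, wt (R i).1 (R i).2.1 * ind (RConn (R i).2.2)) *
          Ψ _ _ (attach N.2.2 id fun i => (R i).2.2) := by
  have h := attach_LP_V Ψ hΨ (fun _ _ _ _ N => ind (IsBlock N))
    (fun E V E' V' _ _ _ _ u e N N' h => congrArg ind (propext (isBlock_congr u e h)))
    (fun _ _ _ _ R => ind (RConn R))
    (fun E V E' V' _ _ _ _ u e N N' h => congrArg ind (propext (rconn_congr u e h)))
  refine Eq.trans ?_ h.symm
  refine tsum_congr fun G => ?_
  rw [mul_right_comm]
  congr 1
  convert (blockV_count G.2.2).symm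

section
variable {E₀ V₀ : Type} {E V : Bool ⊕ V₀ → Type} [Finite E₀] [Finite V₀] [∀ i, Finite (E i)]
  [∀ i, Finite (V i)] {N : E₀ × Bool → Bool ⊕ V₀} {R : ∀ i, E i × Bool → Option (V i)}

/-- the image of a vertex of a pendant graph -/
def blockVg (V : Bool ⊕ V₀ → Type) (i : Bool ⊕ V₀) (o : Option (V i)) :
    Bool ⊕ (V₀ ⊕ Σ i, V i) :=
  o.elim (i.map id Sum.inl) fun v => Sum.inr (Sum.inr ⟨i, v⟩)

omit [Finite V₀] [∀ i, Finite (V i)] in
theorem blockV_inl_inj : Function.Injective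
    (Sum.map id Sum.inl : Bool ⊕ V₀ → Bool ⊕ (V₀ ⊕ Σ i, V i)) :=
  Sum.map_injective.mpr ⟨Function.injective_id, Sum.inl_injective⟩

omit [Finite V₀] [∀ i, Finite (V i)] in
theorem blockV_inl_ne (w : Bool ⊕ V₀) (z : Σ i, V i) :
    (w.map id Sum.inl : Bool ⊕ (V₀ ⊕ Σ i, V i)) ≠ Sum.inr (Sum.inr z) := by
  cases w <;> simp

omit [Finite V₀] [∀ i, Finite (V i)] in
theorem blockV_g_none {i w : Bool ⊕ V₀} {o : Option (V i)}
    (h : w.map id Sum.inl = blockVg V i o) : o = none := by
  cases o with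
  | none => rfl
  | some v => exact absurd h (blockV_inl_ne w _)

omit [Finite V₀] [∀ i, Finite (V i)] in
theorem blockV_g_idx {i j : Bool ⊕ V₀} {o : Option (V i)} {o' : Option (V j)}
    (h : blockVg V i o = blockVg V j o') : i = j := by
  cases o with
  | none =>
    cases blockV_g_none h
    exact blockV_inl_inj h
  | some v =>
    cases o' with
    | none => exact absurd h.symm (blockV_inl_ne _ _)
    | some v' => exact congrArg Sigma.fst (Sum.inr.inj (Sum.inr.inj h))

omit [Finite V₀] [∀ i, Finite (V i)] in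
theorem blockV_g_inj {i : Bool ⊕ V₀} {o o' : Option (V i)}
    (h : blockVg V i o = blockVg V i o') : o = o' := by
  cases o with
  | none => exact (blockV_g_none h).symm
  | some v =>
    cases o' with
    | none => exact absurd h.symm (blockV_inl_ne _ _)
    | some v' => rw [eq_of_heq (Sigma.mk.inj (Sum.inr.inj (Sum.inr.inj h))).2]

theorem simple_attach : Simple (clo (attach N id R)) ↔ Simple (clo N) ∧ ∀ i, Simple (R i) := by
  have h0 : ∀ (o : Option E₀) (b : Bool),
      clo (attach N id R) (o.map Sum.inl, b) = (clo N (o, b)).map id Sum.inl := by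
    rintro (_ | e) b <;> rfl
  have h1 : ∀ i (e : E i) (b : Bool),
      clo (attach N id R) (some (Sum.inr ⟨i, e⟩), b) = blockVg V i (R i (e, b)) :=
    fun _ _ _ => rfl
  constructor
  · rintro ⟨hl, hp⟩
    refine ⟨⟨fun x hx => hl (x.1.map Sum.inl, x.2) ?_, fun x y hx hy => ?_⟩,
      fun i => ⟨fun x hx => hl (some (Sum.inr ⟨i, x.1⟩), x.2) ?_, fun x y hx hy => ?_⟩⟩
    · rw [blockV_flp, h0, h0]
      exact congrArg _ hx
    · have := hp (x.1.map Sum.inl, x.2) (y.1.map Sum.inl, y.2)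
        (by rw [h0, h0]; exact congrArg _ hx)
        (by rw [blockV_flp, blockV_flp, h0, h0]; exact congrArg _ hy)
      obtain ⟨e1, e2⟩ := Prod.mk.inj this
      exact Prod.ext (Option.map_injective Sum.inl_injective e1) e2
    · rw [blockV_flp, h1, h1]
      exact congrArg _ hx
    · have := hp (some (Sum.inr ⟨i, x.1⟩), x.2) (some (Sum.inr ⟨i, y.1⟩), y.2)
        (by rw [h1, h1]; exact congrArg _ hx)
        (by rw [blockV_flp, blockV_flp, h1, h1]; exact congrArg _ hy)
      obtain ⟨e1, e2⟩ := Prod.mk.inj this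
      exact Prod.ext (eq_of_heq (Sigma.mk.inj (Sum.inr.inj (Option.some.inj e1))).2) e2
  · rintro ⟨hN, hR⟩
    have hcases : ∀ o : Option (E₀ ⊕ Σ i, E i),
        (∃ o' : Option E₀, o = o'.map Sum.inl) ∨ ∃ i e, o = some (Sum.inr ⟨i, e⟩) := by
      rintro (_ | e | ⟨i, e⟩)
      · exact Or.inl ⟨none, rfl⟩
      · exact Or.inl ⟨some e, rfl⟩
      · exact Or.inr ⟨i, e, rfl⟩
    refine ⟨?_, ?_⟩
    · rintro ⟨o, b⟩ hx
      rw [blockV_flp] at hx
      rcases hcases o with ⟨o, rfl⟩ | ⟨i, e, rfl⟩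
      · rw [h0, h0] at hx
        exact hN.1 (o, b) (blockV_inl_inj hx)
      · rw [h1, h1] at hx
        exact (hR i).1 (e, b) (blockV_g_inj hx)
    · rintro ⟨o, b⟩ ⟨o', b'⟩ hx hy
      rw [blockV_flp, blockV_flp] at hy
      rcases hcases o with ⟨o, rfl⟩ | ⟨i, e, rfl⟩ <;>
        rcases hcases o' with ⟨o', rfl⟩ | ⟨i', e', rfl⟩
      · rw [h0, h0] at hx hy
        obtain ⟨rfl, rfl⟩ := Prod.mk.inj
          (hN.2 (o, b) (o', b') (blockV_inl_inj hx) (blockV_inl_inj hy))
        rfl
      · rw [h0, h1] at hx hy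
        exact absurd ((blockV_g_none hy).trans (blockV_g_none hx).symm) ((hR i').1 (e', b'))
      · rw [h1, h0] at hx hy
        exact absurd ((blockV_g_none hy.symm).trans (blockV_g_none hx.symm).symm) ((hR i).1 (e, b))
      · rw [h1, h1] at hx hy
        obtain rfl := blockV_g_idx hx
        obtain ⟨rfl, rfl⟩ := Prod.mk.inj
          ((hR i).2 (e, b) (e', b') (blockV_g_inj hx) (blockV_g_inj hy))
        rfl

end

end Pool.Agent.Lib.MP_77dff5_pr
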