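import Pool.Agent.Lib.MP_77dff5_pr.Net
import Pool.Agent.Lib.MP_77dff5_pr.Perm
import Pool.Agent.Lib.MP_77dff5_pr.BlockV

/-! The block of the root edge, for graphs and for maps. -/

set_option autoImplicit false

namespace Pool.Agent.Lib.MP_77dff5_pr

open scoped ENNReal Classical

open Equiv

theorem blockP_inv {D W : Type} [Finite D] {π : Perm D} (f : D → W) (h : ∀ x, f (π x) = f x)
    {x y : D} (hxy : π.SameCycle x y) : f x = f y := by
  obtain ⟨n, -, hn⟩ := hxy.exists_pow_eq'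
  rw [← hn]
  clear hn
  induction n with
  | zero => rfl
  | succ n ih => rw [pow_succ', Perm.mul_apply, h, ih]

theorem blockP_sc_inl {A B : Type} {π : Perm A} (ρ : Perm B) {x y : A} (h : π.SameCycle x y) :
    (Perm.sumCongr π ρ).SameCycle (Sum.inl x) (Sum.inl y) := by
  obtain ⟨n, rfl⟩ := h
  refine ⟨n, ?_⟩
  have := map_zpow (Perm.sumCongrHom A B) (π, ρ) n
  rw [Perm.sumCongrHom_apply, Perm.sumCongrHom_apply] at this
  rw [← this]
  rfl

theorem blockP_sc_inr {A I : Type} {Y : I → Type} (π : Perm A) {ρ : ∀ i, Perm (Y i)} {i : I}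
    {x y : Y i} (h : (ρ i).SameCycle x y) :
    (Perm.sumCongr π (Perm.sigmaCongrRight ρ)).SameCycle (Sum.inr ⟨i, x⟩) (Sum.inr ⟨i, y⟩) := by
  obtain ⟨n, rfl⟩ := h
  refine ⟨n, ?_⟩
  have h1 := map_zpow (Perm.sumCongrHom A (Σ i, Y i)) (π, Perm.sigmaCongrRight ρ) n
  rw [Perm.sumCongrHom_apply, Perm.sumCongrHom_apply] at h1
  have h2 := map_zpow (Perm.sigmaCongrRightHom Y) ρ n
  rw [Perm.sigmaCongrRightHom_apply, Perm.sigmaCongrRightHom_apply] at h2
  rw [← h1, Prod.pow_snd, ← h2]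
  rfl

theorem blockP_swaps {D I : Type} [Finite D] (a b : I → D) (ha : Function.Injective a)
    (hb : Function.Injective b) (hab : ∀ i j, a i ≠ b j) :
    ∃ β : Perm D, (∀ i, β (a i) = b i) ∧ (∀ i, β (b i) = a i) ∧
      (∀ x, β x ≠ x → ∃ i, x = a i ∨ x = b i) ∧ ncyc β + Nat.card I = Nat.card D := by
  let f : D → D := fun x => if h : ∃ i, a i = x then b h.choose else
    if h : ∃ i, b i = x then a h.choose else x
  have f1 : ∀ i, f (a i) = b i := by
    intro i
    have h : ∃ j, a j = a i := ⟨i, rfl⟩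
    simp only [f, dif_pos h]
    rw [ha h.choose_spec]
  have f2 : ∀ i, f (b i) = a i := by
    intro i
    have h' : ¬∃ j, a j = b i := fun ⟨j, hj⟩ => hab j i hj
    have h : ∃ j, b j = b i := ⟨i, rfl⟩
    simp only [f, dif_neg h', dif_pos h]
    rw [hb h.choose_spec]
  have f3 : ∀ x, (¬∃ i, a i = x) → (¬∃ i, b i = x) → f x = x := by
    intro x h1 h2
    simp only [f, dif_neg h1, dif_neg h2]
  have hinv : Function.Involutive f := by
    intro x
    by_cases h1 : ∃ i, a i = x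
    · obtain ⟨i, rfl⟩ := h1
      rw [f1, f2]
    by_cases h2 : ∃ i, b i = x
    · obtain ⟨i, rfl⟩ := h2
      rw [f2, f1]
    rw [f3 x h1 h2, f3 x h1 h2]
  refine ⟨hinv.toPerm, f1, f2, fun x hx => ?_, ?_⟩
  · by_contra hne
    exact hx (f3 x (fun ⟨i, hi⟩ => hne ⟨i, Or.inl hi.symm⟩) fun ⟨i, hi⟩ => hne ⟨i, Or.inr hi.symm⟩)
  let m : D → D := fun x => if ∃ i, b i = x then f x else x
  have m1 : ∀ i, m (b i) = a i := fun i => by
    simp only [m, if_pos (⟨i, rfl⟩ : ∃ j, b j = b i), f2]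
  have m2 : ∀ x, (¬∃ i, b i = x) → m x = x := fun x hx => by simp only [m, if_neg hx]
  have m3 : ∀ i, m (a i) = a i := fun i => m2 _ fun ⟨j, hj⟩ => hab i j hj.symm
  have hsc : ∀ x, (hinv.toPerm).SameCycle x (m x) := by
    intro x
    by_cases h2 : ∃ i, b i = x
    · obtain ⟨i, rfl⟩ := h2
      exact ⟨1, by rw [m1, zpow_one]; exact f2 i⟩
    · rw [m2 x h2]
  have hrot : IsRot m hinv.toPerm := by
    intro x y
    refine ⟨blockP_inv m fun x => ?_, fun h => (hsc x).trans (h ▸ (hsc y).symm)⟩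
    change m (f x) = m x
    by_cases h1 : ∃ i, a i = x
    · obtain ⟨i, rfl⟩ := h1
      rw [f1, m1, m3]
    by_cases h2 : ∃ i, b i = x
    · obtain ⟨i, rfl⟩ := h2
      rw [f2, m1, m3]
    rw [f3 x h1 h2]
  have hrange : Set.range m = (Set.range b)ᶜ := by
    ext x
    constructor
    · rintro ⟨y, rfl⟩ ⟨j, hj⟩
      by_cases h2 : ∃ i, b i = y
      · obtain ⟨i, rfl⟩ := h2
        exact hab i j ((m1 i).symm.trans hj.symm)
      · exact h2 ⟨j, hj.trans (m2 y h2)⟩
    · exact fun hx => ⟨x, m2 x hx⟩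
  rw [ncyc_of_isRot hrot, hrange, ← Set.ncard_range_of_injective hb, add_comm,
    Set.ncard_add_ncard_compl]

/-- Gluing planar maps at vertices. -/
theorem blockP_glue {T I W : Type} {Y Z : I → Type} [Finite T] [Finite I] [∀ i, Finite (Y i)]
    {ν : T → I} (hν : Function.Surjective ν) {τ α₀ : Perm T} (hτ : IsRot ν τ) (h0 : Gen0 τ α₀)
    (s : ∀ i, Y i) {μ : ∀ i, Y i → Z i} {ρ α : ∀ i, Perm (Y i)} (hρ : ∀ i, IsRot (μ i) (ρ i))
    (h1 : ∀ i, Gen0 (ρ i) (α i)) (g : ∀ i, Z i → W) (hg : ∀ i, Function.Injective (g i))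
    (hg' : ∀ i j x y, g i x = g j y → i = j) :
    ∃ σ, IsRot (Sum.elim (fun t => g (ν t) (μ _ (s _))) fun y : Σ i, Y i => g y.1 (μ _ y.2)) σ ∧
      Gen0 σ (Perm.sumCongr α₀ (Perm.sigmaCongrRight α)) := by
  have := Fintype.ofFinite I
  choose d hd using hν
  have hdi : Function.Injective d := fun i j h => by rw [← hd i, h, hd]
  obtain ⟨β, b1, b2, b3, b4⟩ := blockP_swaps (D := T ⊕ Σ i, Y i) (fun i => Sum.inl (d i))
    (fun i => Sum.inr ⟨i, s i⟩) (fun i j h => hdi (Sum.inl.inj h))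
    (fun i j h => congrArg Sigma.fst (Sum.inr.inj h)) (fun _ _ h => by cases h)
  let σ₀ : Perm (T ⊕ Σ i, Y i) := Perm.sumCongr τ (Perm.sigmaCongrRight ρ)
  have hc1 : ∀ x y, σ₀.SameCycle x y → β x ≠ x → β y ≠ y → x = y := by
    intro x y hxy hx hy
    have h := blockP_inv (Sum.map ν Sigma.fst) (fun x => ?_) hxy
    · obtain ⟨i, rfl | rfl⟩ := b3 x hx <;> obtain ⟨j, rfl | rfl⟩ := b3 y hy
      · have : ν (d i) = ν (d j) := Sum.inl.inj h
        rw [hd, hd] at this
        rw [this]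
      · cases h
      · cases h
      · obtain rfl : i = j := Sum.inr.inj h
        rfl
    · rcases x with t | y
      · exact congrArg Sum.inl ((hτ _ _).mp (Perm.SameCycle.refl τ t).apply_left)
      · rfl
  refine ⟨β * σ₀, fun x y => ⟨blockP_inv _ fun x => ?_, fun h => ?_⟩, ?_⟩
  · have e1 : ∀ x, Sum.elim (fun t => g (ν t) (μ _ (s _))) (fun y : Σ i, Y i => g y.1 (μ _ y.2))
        (β x) = Sum.elim (fun t => g (ν t) (μ _ (s _))) (fun y : Σ i, Y i => g y.1 (μ _ y.2)) x := by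
      intro x
      by_cases hx : β x = x
      · rw [hx]
      have e2 : ∀ i, g (ν (d i)) (μ _ (s _)) = g i (μ _ (s _)) := fun i => by rw [hd]
      obtain ⟨i, rfl | rfl⟩ := b3 x hx
      · rw [b1]; exact (e2 i).symm
      · rw [b2]; exact e2 i
    rw [Perm.mul_apply, e1]
    rcases x with t | ⟨i, y⟩
    · have e3 : ν (τ t) = ν t := (hτ _ _).mp (Perm.SameCycle.refl τ t).apply_left
      change g (ν (τ t)) (μ _ (s _)) = g (ν t) (μ _ (s _))
      rw [e3]
    · exact congrArg (g i) ((hρ i _ _).mp (Perm.SameCycle.refl (ρ i) y).apply_left)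
  · rw [prod_sameCycle β σ₀ hc1]
    rcases x with t | ⟨i, y₁⟩ <;> rcases y with t' | ⟨j, y₂⟩
    · exact ⟨_, _, blockP_sc_inl _ ((hτ t t').mpr (hg' _ _ _ _ h)), .refl _ _, .refl _ _⟩
    · obtain rfl : ν t = j := hg' _ _ _ _ h
      exact ⟨Sum.inl (d (ν t)), Sum.inr ⟨ν t, s _⟩, blockP_sc_inl _ ((hτ _ _).mpr (hd _).symm),
        ⟨1, by rw [zpow_one, b1]⟩, blockP_sc_inr _ ((hρ _ _ _).mpr (hg _ h))⟩
    · obtain rfl : i = ν t' := hg' _ _ _ _ h
      exact ⟨Sum.inr ⟨ν t', s _⟩, Sum.inl (d (ν t')), blockP_sc_inr _ ((hρ _ _ _).mpr (hg _ h)),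
        ⟨1, by rw [zpow_one, b2]⟩, blockP_sc_inl _ ((hτ _ _).mpr (hd _))⟩
    · obtain rfl : i = j := hg' _ _ _ _ h
      exact ⟨_, _, blockP_sc_inr _ ((hρ _ _ _).mpr (hg _ h)), .refl _ _, .refl _ _⟩
  · let φ : Perm (T ⊕ Σ i, Y i) := Perm.sumCongr (τ * α₀) 1
    let ψ : Perm (T ⊕ Σ i, Y i) := Perm.sumCongr 1 (Perm.sigmaCongrRight fun i => ρ i * α i)
    have hface : β * σ₀ * Perm.sumCongr α₀ (Perm.sigmaCongrRight α) = β * φ * ψ := by
      rw [mul_assoc, mul_assoc]
      congr 1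
      ext x : 1
      rcases x with t | y <;> rfl
    have hc2 : ∀ x y, ψ.SameCycle x y → (β * φ) x ≠ x → (β * φ) y ≠ y → x = y := by
      intro x y hxy hx hy
      have h := blockP_inv (Sum.map id Sigma.fst) (fun x => by rcases x with t | y <;> rfl) hxy
      rcases x with t | x <;> rcases y with t' | y
      · exact congrArg Sum.inl (Sum.inl.inj h)
      · cases h
      · cases h
      · obtain ⟨i, hi | hi⟩ := b3 (Sum.inr x) hx
        · cases hi
        obtain ⟨j, hj | hj⟩ := b3 (Sum.inr y) hy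
        · cases hj
        cases hi
        cases hj
        obtain rfl : i = j := Sum.inr.inj h
        rfl
    have hc3 : ∀ x y, β.SameCycle x y → φ x ≠ x → φ y ≠ y → x = y := by
      intro x y hxy hx hy
      have h := blockP_inv (Sum.elim id fun y : Σ i, Y i => d y.1) (fun x => ?_) hxy
      · rcases x with t | x
        · rcases y with t' | y
          · exact congrArg Sum.inl h
          · exact (hy rfl).elim
        · exact (hx rfl).elim
      · by_cases hx : β x = x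
        · rw [hx]
        obtain ⟨i, rfl | rfl⟩ := b3 x hx
        · rw [b1]; rfl
        · rw [b2]; rfl
    have e1 := prod_ncyc β σ₀ hc1
    have e2 := prod_ncyc (β * φ) ψ hc2
    have e3 := prod_ncyc φ β hc3
    rw [ncyc_mul_comm] at e3
    have e4 : ncyc σ₀ = ncyc τ + ∑ i, ncyc (ρ i) := by
      rw [ncyc_sumCongr, ncyc_sigmaCongrRight]
    have e5 : ncyc φ = ncyc (τ * α₀) + Nat.card (Σ i, Y i) := by rw [ncyc_sumCongr, ncyc_one]
    have e6 : ncyc ψ = Nat.card T + ∑ i, ncyc (ρ i * α i) := by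
      rw [ncyc_sumCongr, ncyc_one, ncyc_sigmaCongrRight]
    have e7 : ncyc (Perm.sumCongr α₀ (Perm.sigmaCongrRight α)) = ncyc α₀ + ∑ i, ncyc (α i) := by
      rw [ncyc_sumCongr, ncyc_sigmaCongrRight]
    have e8 : ∑ i, ncyc (ρ i) + ∑ i, ncyc (α i) + ∑ i, ncyc (ρ i * α i) =
        Nat.card (Σ i, Y i) + 2 * Nat.card I := by
      rw [← Finset.sum_add_distrib, ← Finset.sum_add_distrib,
        Finset.sum_congr rfl fun i _ => h1 i, Finset.sum_add_distrib, Nat.card_sigma,
        Finset.sum_const, Finset.card_univ, Nat.card_eq_fintype_card, smul_eq_mul, mul_comm]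
    have e9 : Nat.card (T ⊕ Σ i, Y i) = Nat.card T + Nat.card (Σ i, Y i) := Nat.card_sum
    unfold Gen0 at h0 ⊢
    rw [hface]
    omega

theorem blockP_emb_iff {D W : Type} [Finite D] (ν : D → W) (α : Perm D) :
    emb ν α ≠ 0 ↔ ∃ σ, IsRot ν σ ∧ Gen0 σ α := by
  unfold emb
  rw [Nat.card_ne_zero]
  exact ⟨fun ⟨⟨σ⟩, _⟩ => ⟨σ.1, σ.2⟩, fun ⟨σ, h⟩ => ⟨⟨⟨σ, h⟩⟩, inferInstance⟩⟩

theorem blockP_flp_inv (D : Type) : Function.Involutive (flp D) := by
  rintro ⟨e, b⟩
  cases b <;> rfl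

theorem blockP_opt_inv (D : Type) : Function.Involutive (flp D).optionCongr := by
  rintro (_ | ⟨e, b⟩)
  · rfl
  · cases b <;> rfl

section
variable {E₀ V₀ : Type} {E V : Bool ⊕ V₀ → Type} [Finite E₀] [Finite V₀] [∀ i, Finite (E i)]
  [∀ i, Finite (V i)] {N : E₀ × Bool → Bool ⊕ V₀} {R : ∀ i, E i × Bool → Option (V i)}

omit [Finite E₀] [Finite V₀] in
theorem blockP_surj (hN : IsBlock N) : Function.Surjective (clo N) := by
  rcases hN with ⟨-, hV⟩ | hN
  · rintro (b | v)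
    · exact ⟨(none, b), rfl⟩
    · exact hV.elim v
  · exact hN.2.1

theorem blockP_conn (hN : IsBlock N) : Conn (clo N) (flp _) := by
  rcases hN with ⟨hE, -⟩ | hN
  · have key : ∀ x : Option E₀ × Bool,
        Relation.EqvGen (fun a b => clo N a = clo N b ∨ b = flp _ a) (none, true) x := by
      rintro ⟨_ | e, b⟩
      · cases b
        · exact .rel _ _ (Or.inr rfl)
        · exact .refl _
      · exact hE.elim e
    exact fun x y => .trans _ _ _ (.symm _ _ (key x)) (key y)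
  · exact hN.sconn.2

/-- connectivity of a gluing at vertices, for any dart set -/
theorem blockP_conn_glue {D : Type} {ν : D → Bool ⊕ (V₀ ⊕ Σ i, V i)} {α : Perm D} (hN : IsBlock N)
    (hR : ∀ i, RConn (R i)) (j₀ : Option E₀ × Bool → D) (j : ∀ i, Option (E i × Bool) → D)
    (h0 : ∀ x, ν (j₀ x) = blockVg V (clo N x) none)
    (h1 : ∀ i x, ν (j i x) = blockVg V i (stem (R i) x)) (a0 : ∀ x, j₀ (flp _ x) = α (j₀ x))
    (a1 : ∀ i x, j i (some (flp _ x)) = α (j i (some x)))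
    (hs : ∀ x, (∃ y, x = j₀ y) ∨ ∃ i y, x = j i y) : Conn ν α := by
  let P : D → Prop := fun x => Relation.EqvGen (fun a b => ν a = ν b ∨ b = α a) (j₀ (none, true)) x
  have P1 : ∀ a b, ν a = ν b → P a → P b := fun a b hab ha =>
    .trans _ _ _ ha (.rel _ _ (Or.inl hab))
  have P2 : ∀ a, P a ↔ P (α a) := fun a =>
    ⟨fun ha => .trans _ _ _ ha (.rel _ _ (Or.inr rfl)),
      fun ha => .trans _ _ _ ha (.symm _ _ (.rel _ _ (Or.inr rfl)))⟩
  have hb : ∀ x, P (j₀ x) := by
    intro x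
    refine (blockV_conn_iff (blockP_conn hN) (fun x => P (j₀ x))
      (fun a b hab => P1 _ _ ?_) (fun a => ?_) (none, true) x).mp (.refl _)
    · rw [h0, h0, hab]
    · rw [a0]; exact P2 _
  have hall : ∀ x, P x := by
    intro x
    rcases hs x with ⟨y, rfl⟩ | ⟨i, y, rfl⟩
    · exact hb y
    refine (blockV_conn_iff (hR i).2 (fun o => P (j i o)) (fun a b hab => P1 _ _ ?_) ?_ none y).mp ?_
    · rw [h1, h1, hab]
    · rintro (_ | x)
      · rfl
      · change _ ↔ P (j i (some (flp _ x)))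
        rw [a1]; exact P2 _
    · obtain ⟨z, rfl⟩ := blockP_surj hN i
      exact P1 _ _ ((h0 z).trans (h1 _ none).symm) (hb z)
  exact fun x y => .trans _ _ _ (.symm _ _ (hall x)) (hall y)

theorem planar_attach (hN : IsBlock N) (hR : ∀ i, RConn (R i)) :
    emb (clo (attach N id R)) (flp _) ≠ 0 ↔ emb (clo N) (flp _) ≠ 0 ∧ ∀ i, embS (R i) ≠ 0 := by
  have h0 : ∀ x : Option E₀ × Bool,
      clo (attach N id R) (x.1.map Sum.inl, x.2) = blockVg V (clo N x) none := by
    rintro ⟨_ | e, b⟩ <;> rfl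
  choose d hd using blockP_surj hN
  let j : ∀ i, Option (E i × Bool) → Option (E₀ ⊕ Σ i, E i) × Bool := fun i o =>
    o.elim ((d i).1.map Sum.inl, (d i).2) fun x => (some (Sum.inr ⟨i, x.1⟩), x.2)
  have h1 : ∀ i x, clo (attach N id R) (j i x) = blockVg V i (stem (R i) x) := by
    rintro i (_ | x)
    · exact (h0 (d i)).trans (by rw [hd]; rfl)
    · rfl
  have hconn : Conn (clo (attach N id R)) (flp _) := by
    refine blockP_conn_glue hN hR (fun x => (x.1.map Sum.inl, x.2)) j h0 h1 (fun _ => rfl)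
      (fun _ _ => rfl) ?_
    rintro ⟨_ | e | ⟨i, e⟩, b⟩
    · exact Or.inl ⟨(none, b), rfl⟩
    · exact Or.inl ⟨(some e, b), rfl⟩
    · exact Or.inr ⟨i, some (e, b), rfl⟩
  constructor
  · intro h
    refine ⟨?_, fun i => ?_⟩
    · refine emb_ne_zero_of_sub (blockP_flp_inv _) (blockP_flp_inv _)
        ⟨fun x => (x.1.map Sum.inl, x.2), fun x y hxy => ?_⟩ (fun _ => Or.inr rfl)
        (fun x y => ?_) hconn (blockP_conn hN) h
      · obtain ⟨e1, e2⟩ := Prod.mk.inj hxy
        exact Prod.ext (Option.map_injective Sum.inl_injective e1) e2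
      · change _ ↔ clo (attach N id R) (x.1.map Sum.inl, x.2) =
          clo (attach N id R) (y.1.map Sum.inl, y.2)
        rw [h0, h0]
        exact ⟨fun h => by rw [h], blockV_g_idx⟩
    · refine emb_ne_zero_of_sub (blockP_flp_inv _) (blockP_opt_inv _) ⟨j i, ?_⟩ ?_
        (fun x y => ?_) hconn (hR i).2 h
      · have hne : ∀ x : E i × Bool, j i none ≠ j i (some x) := by
          intro x hx
          have := (Prod.mk.inj hx).1
          cases hdi : (d i).1 with
          | none => rw [hdi] at this; cases this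
          | some e => rw [hdi] at this; cases this
        rintro (_ | x) (_ | y) hxy
        · rfl
        · exact (hne y hxy).elim
        · exact (hne x hxy.symm).elim
        · obtain ⟨e1, e2⟩ := Prod.mk.inj hxy
          exact congrArg some
            (Prod.ext (eq_of_heq (Sigma.mk.inj (Sum.inr.inj (Option.some.inj e1))).2) e2)
      · rintro (_ | x)
        · exact Or.inl rfl
        · exact Or.inr rfl
      · change _ ↔ clo (attach N id R) (j i x) = clo (attach N id R) (j i y)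
        rw [h1, h1]
        exact ⟨fun h => by rw [h], blockV_g_inj⟩
  · rintro ⟨hp, hq⟩
    obtain ⟨τ, hτ, hτ0⟩ := (blockP_emb_iff _ _).mp hp
    choose ρ hρ hρ0 using fun i => (blockP_emb_iff _ _).mp (hq i)
    have hg := (blockP_emb_iff _ _).mpr (blockP_glue (blockP_surj hN) hτ hτ0 (fun _ => none) hρ hρ0
      (blockVg V) (fun _ _ _ => blockV_g_inj) fun _ _ _ _ => blockV_g_idx)
    let k : Option (E₀ ⊕ Σ i, E i) × Bool → (Option E₀ × Bool) ⊕ Σ i, Option (E i × Bool) :=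
      fun x => x.1.elim (Sum.inl (none, x.2)) fun e =>
        e.elim (fun e => Sum.inl (some e, x.2)) fun e => Sum.inr ⟨e.1, some (e.2, x.2)⟩
    let k' : (Option E₀ × Bool) ⊕ (Σ i, Option (E i × Bool)) → Option (E₀ ⊕ Σ i, E i) × Bool :=
      Sum.elim (fun x => (x.1.map Sum.inl, x.2)) fun y => j y.1 y.2
    have hk : Function.LeftInverse k' k := by
      rintro ⟨_ | e | ⟨i, e⟩, b⟩ <;> rfl
    refine emb_ne_zero_of_sub ?_ (blockP_flp_inv _) ⟨k, hk.injective⟩ (fun x => Or.inr ?_)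
      (fun x y => ?_) ?_ hconn hg
    · rintro (x | ⟨i, x⟩)
      · exact congrArg Sum.inl (blockP_flp_inv _ x)
      · exact congrArg (fun z => Sum.inr (Sigma.mk i z)) (blockP_opt_inv _ x)
    · obtain ⟨_ | e | ⟨i, e⟩, b⟩ := x <;> rfl
    · have hv : ∀ x, clo (attach N id R) x =
          Sum.elim (fun t => blockVg V (clo N t) (stem (R _) none))
            (fun y : Σ i, Option (E i × Bool) => blockVg V y.1 (stem (R _) y.2)) (k x) := by
        rintro ⟨_ | e | ⟨i, e⟩, b⟩ <;> rfl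
      rw [hv x, hv y]
      rfl
    · refine blockP_conn_glue hN hR Sum.inl (fun i y => Sum.inr ⟨i, y⟩) (fun _ => rfl)
        (fun _ _ => rfl) (fun _ => rfl) (fun _ _ => rfl) ?_
      rintro (x | ⟨i, y⟩)
      · exact Or.inl ⟨x, rfl⟩
      · exact Or.inr ⟨i, y, rfl⟩

end

end Pool.Agent.Lib.MP_77dff5_pr
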