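import Pool.Agent.Lib.MP_77dff5_pr.Perm

/-! Cutting a rotation system at the darts of the block: permutation level. -/

set_option autoImplicit false

namespace Pool.Agent.Lib.MP_77dff5_pr

open Equiv Relation

section
variable {D W I : Type} [Finite D]

theorem blockD_cyc_ind {π : Perm D} {P : D → Prop} {x y : D} (h : π.SameCycle x y) (hx : P x)
    (hs : ∀ z, π.SameCycle x z → P z → P (π z)) : P y := by
  obtain ⟨k, -, rfl⟩ := h.exists_pow_eq'
  have : ∀ k : ℕ, P ((π ^ k) x) := by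
    intro k
    induction k with
    | zero => simpa using hx
    | succ k ih =>
      rw [pow_succ', Perm.mul_apply]
      exact hs _ ⟨k, by simp⟩ ih
  exact this k

omit [Finite D] in
theorem blockD_eqv_inv {r : D → D → Prop} {X : Type} (g : D → X) (h : ∀ a b, r a b → g a = g b)
    {x y : D} (hxy : EqvGen r x y) : g x = g y := by
  induction hxy with
  | rel a b hab => exact h a b hab
  | refl a => rfl
  | symm a b _ ih => exact ih.symm
  | trans a b c _ _ ih1 ih2 => exact ih1.trans ih2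

omit [Finite D] in
theorem blockD_eqv_map {D' : Type} {r : D → D → Prop} {s : D' → D' → Prop} (g : D → D')
    (h : ∀ a b, r a b → EqvGen s (g a) (g b)) {x y : D} (hxy : EqvGen r x y) :
    EqvGen s (g x) (g y) := by
  induction hxy with
  | rel a b hab => exact h a b hab
  | refl a => exact EqvGen.refl _
  | symm a b _ ih => exact EqvGen.symm _ _ ih
  | trans a b c _ _ ih1 ih2 => exact EqvGen.trans _ _ _ ih1 ih2

omit [Finite D] in
theorem blockD_eqv_mono {r s : D → D → Prop} (h : ∀ a b, r a b → s a b) {x y : D}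
    (hxy : EqvGen r x y) : EqvGen s x y :=
  blockD_eqv_map id (fun a b hab => EqvGen.rel _ _ (h a b hab)) hxy

theorem blockD_eqv_of_cyc {π : Perm D} {r : D → D → Prop} (h : ∀ a, r a (π a)) {x y : D}
    (hxy : π.SameCycle x y) : EqvGen r x y :=
  blockD_cyc_ind (P := fun z => EqvGen r x z) hxy (EqvGen.refl _) fun z _ hz =>
    EqvGen.trans _ _ _ hz (EqvGen.rel _ _ (h z))

omit [Finite D] in
theorem blockD_mem_of_fix {T : Set D} {β : Perm D} (hβ : ∀ x, x ∉ T → β x = x) {x : D}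
    (hx : x ∈ T) : β x ∈ T := by
  by_contra h
  have h1 := β.injective (hβ _ h)
  exact h (h1.symm ▸ hx)

omit [Finite D] in
theorem blockD_cyc_of_fix {T : Set D} {β : Perm D} (hβ : ∀ x, x ∉ T → β x = x) {x y : D}
    (h : β.SameCycle x y) (hxy : x ≠ y) : x ∈ T ∧ y ∈ T := by
  constructor
  · by_contra hx
    exact hxy (h.eq_of_left (hβ _ hx))
  · by_contra hy
    exact hxy (h.eq_of_right (hβ _ hy))

theorem blockD_exists_dec (σ : Perm D) (T : Set D) :
    ∃ β γ : Perm D, (∀ x, x ∉ T → β x = x) ∧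
      (∀ x y, γ.SameCycle x y → x ∈ T → y ∈ T → x = y) ∧ β * γ = σ := by
  classical
  obtain ⟨p, ⟨hp1, hp2⟩, hmax⟩ := Set.exists_max_image
    {p : Perm D × Perm D | (∀ x, x ∉ T → p.1 x = x) ∧ p.1 * p.2 = σ} (fun p => ncyc p.2)
    (Set.toFinite _) ⟨(1, σ), fun _ _ => rfl, one_mul _⟩
  refine ⟨p.1, p.2, hp1, fun a b hab ha hb => ?_, hp2⟩
  by_contra hne
  have h1 := hmax (p.1 * swap a b, swap a b * p.2) ⟨fun x hx => ?_, ?_⟩
  · simp only at h1
    rw [ncyc_mul_comm, ncyc_mul_swap_of_same _ hab hne] at h1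
    omega
  · simp only [Perm.mul_apply]
    rw [swap_apply_of_ne_of_ne (by rintro rfl; exact hx ha) (by rintro rfl; exact hx hb), hp1 x hx]
  · simp only
    rw [mul_assoc, ← mul_assoc (swap a b), swap_mul_self, one_mul, hp2]

theorem blockD_dec_unique {T : Set D} {β γ β' γ' : Perm D} (hβ : ∀ x, x ∉ T → β x = x)
    (hγ : ∀ x y, γ.SameCycle x y → x ∈ T → y ∈ T → x = y) (hβ' : ∀ x, x ∉ T → β' x = x)
    (hγ' : ∀ x y, γ'.SameCycle x y → x ∈ T → y ∈ T → x = y) (h : β * γ = β' * γ') : β = β' := by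
  have hδ : ∀ x, x ∉ T → (β'⁻¹ * β) x = x := by
    intro x hx
    rw [Perm.mul_apply, hβ x hx, Perm.inv_eq_iff_eq, hβ' x hx]
  have h1 : γ' = β'⁻¹ * β * γ := by rw [mul_assoc, h, inv_mul_cancel_left]
  have h2 : β'⁻¹ * β = 1 := by
    ext t
    by_contra hne
    have ht : t ∈ T := by
      by_contra ht
      exact hne (hδ t ht)
    have h3 : γ'.SameCycle t ((β'⁻¹ * β) t) := by
      rw [h1, prod_sameCycle]
      · exact ⟨t, _, Perm.SameCycle.refl _ _, Perm.sameCycle_apply_right.2 (Perm.SameCycle.refl _ _),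
          Perm.SameCycle.refl _ _⟩
      · intro x y hxy hx hy
        exact hγ x y hxy (by_contra fun h => hx (hδ x h)) (by_contra fun h => hy (hδ y h))
    exact hne (hγ' _ _ h3 ht (blockD_mem_of_fix hδ ht)).symm
  exact (inv_mul_eq_one.1 h2).symm

/-- valid assignments of the darts to the corners of the block -/
structure BValid (ν : D → W) (aX : Perm D) (j : I → D) (f : D → I) : Prop where
  retr : ∀ i, f (j i) = i
  inv : ∀ x, f (aX x) = f x
  blk : ∀ x i, ν x = ν (j i) → ν x = ν (j (f x))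
  out : ∀ x y, ν x = ν y → (∀ i, ν x ≠ ν (j i)) → f x = f y
  conn : ∀ x, EqvGen (fun a b => (f a = f b ∧ ν a = ν b) ∨ b = aX a) x (j (f x))

/-- planar rotation of the block, extended by the identity -/
def BGoodB (ν : D → W) (aT : Perm D) (j : I → D) (β : Perm D) : Prop :=
  (∀ x, x ∉ Set.range j → β x = x) ∧ (∀ i i', β.SameCycle (j i) (j i') ↔ ν (j i) = ν (j i')) ∧
    ncyc β + ncyc aT + ncyc (β * aT) + 2 * Nat.card I = 3 * Nat.card D + 2

/-- planar rotations of all the pendant parts -/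
def BGoodG (ν : D → W) (aX : Perm D) (f : D → I) (γ : Perm D) : Prop :=
  (∀ x y, γ.SameCycle x y ↔ f x = f y ∧ ν x = ν y) ∧
    ncyc γ + ncyc aX + ncyc (γ * aX) = Nat.card D + 2 * Nat.card I

/-- additivity of the Euler sum -/
theorem blockD_euler_add {j : I → D} {aT aX β γ : Perm D} {f : D → I} (hf : ∀ i, f (j i) = i)
    (hT : ∀ x, x ∉ Set.range j → aT x = x)
    (hβ : ∀ x, x ∉ Set.range j → β x = x) (hγ : ∀ x, f (γ x) = f x) (ha : ∀ x, f (aX x) = f x) :
    ncyc (β * γ) + ncyc (aX * aT) + ncyc (β * γ * (aX * aT)) + 3 * Nat.card D =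
      (ncyc β + ncyc aT + ncyc (β * aT)) + (ncyc γ + ncyc aX + ncyc (γ * aX)) := by
  have key : ∀ δ π : Perm D, (∀ x, x ∉ Set.range j → δ x = x) → (∀ x, f (π x) = f x) →
      ncyc (δ * π) + Nat.card D = ncyc δ + ncyc π := by
    intro δ π hδ hπ
    refine prod_ncyc δ π fun x y hxy hx hy => ?_
    obtain ⟨i, rfl⟩ : x ∈ Set.range j := by_contra fun h => hx (hδ x h)
    obtain ⟨i', rfl⟩ : y ∈ Set.range j := by_contra fun h => hy (hδ y h)
    have : f (j i') = f (j i) :=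
      blockD_cyc_ind (P := fun z => f z = f (j i)) hxy rfl fun z _ hz => (hπ z).trans hz
    rw [hf, hf] at this
    rw [this]
  have h1 := key β γ hβ hγ
  have h2 := key aT aX hT ha
  have h3 := key (aT * β) (γ * aX) (fun x hx => by rw [Perm.mul_apply, hβ x hx, hT x hx])
    (fun x => by rw [Perm.mul_apply, hγ, ha])
  have h4 : ncyc (β * γ * (aX * aT)) = ncyc (aT * β * (γ * aX)) := by
    rw [← mul_assoc, ncyc_mul_comm]
    simp only [mul_assoc]
  rw [h4, ncyc_mul_comm aX aT, ncyc_mul_comm β aT]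
  omega

/-- from the pieces to the whole map -/
theorem blockD_glue {ν : D → W} {j : I → D} {aT aX β γ : Perm D} {f : D → I}
    (hT : ∀ x, x ∉ Set.range j → aT x = x)
    (hf : BValid ν aX j f) (hβ : BGoodB ν aT j β) (hγ : BGoodG ν aX f γ) :
    IsRot ν (β * γ) ∧ Gen0 (β * γ) (aX * aT) := by
  have hγ1 : ∀ x, f (γ x) = f x := fun x =>
    ((hγ.1 x (γ x)).1 (Perm.sameCycle_apply_right.2 (Perm.SameCycle.refl _ _))).1.symm
  constructor
  · intro x y
    rw [prod_sameCycle]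
    · constructor
      · rintro ⟨u, u', h1, h2, h3⟩
        have h4 : ν u = ν u' := by
          by_cases huu : u = u'
          · rw [huu]
          · obtain ⟨⟨i, rfl⟩, ⟨i', rfl⟩⟩ := blockD_cyc_of_fix hβ.1 h2 huu
            exact (hβ.2.1 i i').1 h2
        rw [((hγ.1 _ _).1 h1).2, h4, ((hγ.1 _ _).1 h3).2]
      · intro hxy
        by_cases hb : ∃ i, ν x = ν (j i)
        · obtain ⟨i, hi⟩ := hb
          have h1 := hf.blk x i hi
          have h2 := hf.blk y i (hxy ▸ hi)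
          exact ⟨j (f x), j (f y), (hγ.1 _ _).2 ⟨(hf.retr _).symm, h1⟩,
            (hβ.2.1 _ _).2 (by rw [← h1, ← h2, hxy]), (hγ.1 _ _).2 ⟨hf.retr _, h2.symm⟩⟩
        · push Not at hb
          exact ⟨y, y, (hγ.1 _ _).2 ⟨hf.out x y hxy hb, hxy⟩, Perm.SameCycle.refl _ _,
            Perm.SameCycle.refl _ _⟩
    · intro x y hxy hx hy
      obtain ⟨i, rfl⟩ : x ∈ Set.range j := by_contra fun h => hx (hβ.1 x h)
      obtain ⟨i', rfl⟩ : y ∈ Set.range j := by_contra fun h => hy (hβ.1 y h)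
      have := ((hγ.1 _ _).1 hxy).1
      rw [hf.retr, hf.retr] at this
      rw [this]
  · have h1 := blockD_euler_add hf.retr hT hβ.1 hγ1 hf.inv
    have h2 := hβ.2.2
    have h3 := hγ.2
    unfold Gen0
    omega

theorem blockD_inj {ν : D → W} {j : I → D} {aT aX β γ β' γ' : Perm D} {f f' : D → I}
    (hf : BValid ν aX j f) (hβ : BGoodB ν aT j β) (hγ : BGoodG ν aX f γ)
    (hf' : BValid ν aX j f') (hβ' : BGoodB ν aT j β') (hγ' : BGoodG ν aX f' γ')
    (h : β * γ = β' * γ') : β = β' ∧ γ = γ' ∧ f = f' := by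
  have key : ∀ {f : D → I} {γ : Perm D}, BValid ν aX j f → BGoodG ν aX f γ →
      ∀ x y, γ.SameCycle x y → x ∈ Set.range j → y ∈ Set.range j → x = y := by
    rintro f γ hf hγ _ _ hxy ⟨i, rfl⟩ ⟨i', rfl⟩
    have := ((hγ.1 _ _).1 hxy).1
    rw [hf.retr, hf.retr] at this
    rw [this]
  have h1 := blockD_dec_unique hβ.1 (key hf hγ) hβ'.1 (key hf' hγ') h
  subst h1
  have h2 := mul_left_cancel h
  subst h2
  refine ⟨rfl, rfl, funext fun x => ?_⟩
  have h3 : f' x = f' (j (f x)) := by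
    refine blockD_eqv_inv f' ?_ (hf.conn x)
    rintro a b (hab | rfl)
    · exact ((hγ'.1 _ _).1 ((hγ.1 _ _).2 hab)).1
    · exact (hf'.inv a).symm
  rw [h3, hf'.retr]

/-- two darts of the block are not linked through the pendant parts -/
theorem blockD_uniq {ν : D → W} {j : I → D} (hj : Function.Injective j) {aT aX β γ : Perm D}
    (hT : ∀ x, x ∉ Set.range j → aT x = x) (hX : ∀ i, aX (j i) = j i)
    (hα : Function.Involutive (aX * aT : Perm D)) (hc : Conn ν (aX * aT))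
    (hblock : ∀ i i', i ≠ i' → ν (j i) = ν (j i') →
      Lk ν (aX * aT) (Set.range j) {ν (j i)}ᶜ (j i) (j i'))
    (hpend : ∀ i i', EqvGen (fun a b => ν a = ν b ∨ b = aX a) (j i) (j i') → ν (j i) = ν (j i'))
    (hβ : ∀ x, x ∉ Set.range j → β x = x)
    (hγ : ∀ x y, γ.SameCycle x y → x ∈ Set.range j → y ∈ Set.range j → x = y)
    (hγν : ∀ x, ν x = ν (γ x))
    (hσ : IsRot ν (β * γ)) (h0 : Gen0 (β * γ) (aX * aT)) {i i' : I}
    (h : EqvGen (fun a b => b = γ a ∨ b = aX a) (j i) (j i')) : i = i' := by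
  by_contra hne
  have hp : ν (j i) = ν (j i') := by
    refine hpend i i' (blockD_eqv_mono ?_ h)
    rintro a b (rfl | rfl)
    · exact Or.inl (hγν a)
    · exact Or.inr rfl
  obtain ⟨c, χ, c1, c2, c3, c4, c5, c6⟩ := chain_colouring hα hσ hc h0 (fun h => hne (hj h)) hp
    (by simp) (hblock i i' hne hp)
  have c0 : ∀ x, x ∉ Set.range j → c x = 0 := fun x hx => by_contra fun h => hx (c1 x h)
  have e1 : ∀ x, χ ((β * γ) (aX x)) = χ ((β * γ) x) := by
    intro x
    by_cases hx : x ∈ Set.range j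
    · obtain ⟨k, rfl⟩ := hx
      rw [hX]
    · have h1 : aX x ∉ Set.range j := by
        rintro ⟨k, hk⟩
        exact hx ⟨k, aX.injective ((hX k).trans hk)⟩
      have h2 := c6 x
      rw [Perm.mul_apply, hT x hx] at h2
      rw [c5, c5, c0 _ h1, h2, add_zero]
  have e2 : ∀ z, γ z ∉ Set.range j → χ ((β * γ) (γ z)) = χ ((β * γ) z) := by
    intro z hz
    rw [c5, c0 _ hz, add_zero, Perm.mul_apply, hβ _ hz]
  have e3 : ∀ z, χ ((β * γ) z) = χ ((β * γ) (γ z)) := by
    intro z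
    by_cases hz : γ z ∈ Set.range j
    · refine blockD_cyc_ind (P := fun w => χ ((β * γ) w) = χ ((β * γ) (γ z))) (x := γ z) (π := γ)
        (Perm.sameCycle_apply_left.2 (Perm.SameCycle.refl _ _)) rfl fun w hw hw' => ?_
      by_cases h1 : γ w ∈ Set.range j
      · rw [← hγ _ _ (Perm.sameCycle_apply_right.2 hw) hz h1]
      · rw [e2 w h1, hw']
    · exact (e2 z hz).symm
  have e4 : χ ((β * γ) (j i)) = χ ((β * γ) (j i')) := by
    refine blockD_eqv_inv (fun x => χ ((β * γ) x)) ?_ h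
    rintro a b (rfl | rfl)
    · exact e3 a
    · exact (e1 a).symm
  rw [c5, c5, c2, c3, add_left_inj] at e4
  have e5 : χ (j i) = χ (j i) + 1 := by
    refine blockD_cyc_ind (P := fun w => χ w = χ (j i) + 1) (x := (β * γ) (j i)) (π := β * γ)
      (Perm.sameCycle_apply_left.2 (Perm.SameCycle.refl _ _)) (by rw [c5, c2]) fun w hw hw' => ?_
    have h1 : w ≠ j i := by
      rintro rfl
      simp at hw'
    have h2 : w ≠ j i' := by
      rintro rfl
      rw [e4] at hw'
      simp at hw'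
    have h3 : ν w = ν (j i) := ((hσ _ _).1 (Perm.sameCycle_apply_left.1 hw)).symm
    rw [c5, c4 w (by simp [h3]) h1 h2, add_zero, hw']
  simp at e5

/-- from the whole map to the pieces -/
theorem blockD_cut {ν : D → W} {j : I → D} (hj : Function.Injective j) [Nonempty I]
    {aT aX σ : Perm D} (hT : ∀ x, x ∉ Set.range j → aT x = x) (hX : ∀ i, aX (j i) = j i)
    (hα : Function.Involutive (aX * aT : Perm D)) (hc : Conn ν (aX * aT))
    (hblock : ∀ i i', i ≠ i' → ν (j i) = ν (j i') →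
      Lk ν (aX * aT) (Set.range j) {ν (j i)}ᶜ (j i) (j i'))
    (hpend : ∀ i i', EqvGen (fun a b => ν a = ν b ∨ b = aX a) (j i) (j i') → ν (j i) = ν (j i'))
    (hσ : IsRot ν σ) (h0 : Gen0 σ (aX * aT)) :
    ∃ β γ f, BValid ν aX j f ∧ BGoodB ν aT j β ∧ BGoodG ν aX f γ ∧ β * γ = σ := by
  classical
  obtain ⟨β, γ, hβ, hγ, rfl⟩ := blockD_exists_dec σ (Set.range j)
  have hps := prod_sameCycle β γ fun x y hxy hx hy =>
    hγ x y hxy (by_contra fun h => hx (hβ x h)) (by_contra fun h => hy (hβ y h))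
  have hγν : ∀ x y, γ.SameCycle x y → ν x = ν y := fun x y hxy =>
    (hσ x y).1 ((hps x y).2 ⟨y, y, hxy, Perm.SameCycle.refl _ _, Perm.SameCycle.refl _ _⟩)
  have hγν' : ∀ x, ν x = ν (γ x) := fun x =>
    hγν _ _ (Perm.sameCycle_apply_right.2 (Perm.SameCycle.refl _ _))
  set r : D → D → Prop := fun a b => b = γ a ∨ b = aX a with hr
  have huniq : ∀ i i', EqvGen r (j i) (j i') → i = i' := fun i i' h =>
    blockD_uniq hj hT hX hα hc hblock hpend hβ hγ hγν' hσ h0 h
  have hαT : ∀ i, (aX * aT) (j i) = aT (j i) := by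
    intro i
    obtain ⟨k, hk⟩ := blockD_mem_of_fix hT ⟨i, rfl⟩
    rw [Perm.mul_apply, ← hk, hX]
  have hαX : ∀ x, x ∉ Set.range j → (aX * aT) x = aX x := fun x hx => by
    rw [Perm.mul_apply, hT x hx]
  have hex : ∀ x, ∃ i, EqvGen r x (j i) := by
    intro x
    obtain ⟨i0⟩ := ‹Nonempty I›
    have hmem : ∀ x, x ∈ Set.range j → ∃ i, EqvGen r x (j i) := by
      rintro _ ⟨i, rfl⟩
      exact ⟨i, EqvGen.refl _⟩
    have hstep : ∀ a b, r a b → ((∃ i, EqvGen r a (j i)) ↔ ∃ i, EqvGen r b (j i)) := by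
      intro a b hab
      exact ⟨fun ⟨i, hi⟩ => ⟨i, EqvGen.trans _ _ _ (EqvGen.symm _ _ (EqvGen.rel _ _ hab)) hi⟩,
        fun ⟨i, hi⟩ => ⟨i, EqvGen.trans _ _ _ (EqvGen.rel _ _ hab) hi⟩⟩
    have h1 := blockD_eqv_inv (fun x => ∃ i, EqvGen r x (j i)) ?_
      ((conn_iff_trans2 hσ _).1 hc x (j i0))
    · exact h1.mpr (hmem _ ⟨i0, rfl⟩)
    · rintro a b (rfl | rfl)
      · by_cases h : γ a ∈ Set.range j
        · exact propext (iff_of_true ((hstep a _ (Or.inl rfl)).2 (hmem _ h))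
            (hmem _ (blockD_mem_of_fix hβ h)))
        · rw [Perm.mul_apply, hβ _ h]
          exact propext (hstep a _ (Or.inl rfl))
      · by_cases h : a ∈ Set.range j
        · obtain ⟨i, rfl⟩ := h
          rw [hαT]
          exact propext (iff_of_true (hmem _ ⟨i, rfl⟩) (hmem _ (blockD_mem_of_fix hT ⟨i, rfl⟩)))
        · rw [hαX a h]
          exact propext (hstep a _ (Or.inr rfl))
  choose f hf using hex
  have hfe : ∀ x y, EqvGen r x y → f x = f y := fun x y hxy =>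
    huniq _ _ (EqvGen.trans _ _ _ (EqvGen.symm _ _ (hf x)) (EqvGen.trans _ _ _ hxy (hf y)))
  have hretr : ∀ i, f (j i) = i := fun i => (huniq _ _ (hf (j i))).symm
  have hfγ : ∀ x y, γ.SameCycle x y → f x = f y := fun x y hxy =>
    hfe x y (blockD_eqv_of_cyc (r := r) (fun a => Or.inl rfl) hxy)
  have hval : BValid ν aX j f := by
    refine ⟨hretr, fun x => (hfe _ _ (EqvGen.rel _ _ (Or.inr rfl))).symm, fun x i hi => ?_,
      fun x y hxy hb => ?_, fun x => blockD_eqv_mono ?_ (hf x)⟩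
    · rw [hi]
      refine hpend _ _ (EqvGen.trans _ _ _ (EqvGen.rel _ _ (Or.inl hi.symm)) (blockD_eqv_mono ?_ (hf x)))
      rintro a b (rfl | rfl)
      · exact Or.inl (hγν' a)
      · exact Or.inr rfl
    · obtain ⟨u, u', h1, h2, h3⟩ := (hps x y).1 ((hσ x y).2 hxy)
      by_cases huu : u = u'
      · subst huu
        exact hfγ _ _ (h1.trans h3)
      · obtain ⟨⟨i, rfl⟩, -⟩ := blockD_cyc_of_fix hβ h2 huu
        exact absurd (hγν _ _ h1) (hb i)
    · rintro a b (rfl | rfl)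
      · exact Or.inl ⟨hfe _ _ (EqvGen.rel _ _ (Or.inl rfl)), hγν' a⟩
      · exact Or.inr rfl
  have hG : ∀ x y, γ.SameCycle x y ↔ f x = f y ∧ ν x = ν y := by
    refine fun x y => ⟨fun h => ⟨hfγ x y h, hγν x y h⟩, fun ⟨h1, h2⟩ => ?_⟩
    obtain ⟨u, u', h3, h4, h5⟩ := (hps x y).1 ((hσ x y).2 h2)
    by_cases huu : u = u'
    · subst huu
      exact h3.trans h5
    · obtain ⟨⟨i, rfl⟩, ⟨i', rfl⟩⟩ := blockD_cyc_of_fix hβ h4 huu
      have h6 := hfγ _ _ h3
      have h7 := hfγ _ _ h5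
      rw [hretr] at h6 h7
      exact absurd (by rw [← h6, h7, h1]) huu
  have hB : ∀ i i', β.SameCycle (j i) (j i') ↔ ν (j i) = ν (j i') := by
    refine fun i i' => ⟨fun h => (hσ _ _).1 ((hps _ _).2
      ⟨_, _, Perm.SameCycle.refl _ _, h, Perm.SameCycle.refl _ _⟩), fun h => ?_⟩
    obtain ⟨u, u', h3, h4, h5⟩ := (hps _ _).1 ((hσ _ _).2 h)
    by_cases huu : u = u'
    · subst huu
      rw [hγ _ _ (h3.trans h5) ⟨i, rfl⟩ ⟨i', rfl⟩]
    · obtain ⟨h6, h7⟩ := blockD_cyc_of_fix hβ h4 huu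
      rw [hγ _ _ h3 ⟨i, rfl⟩ h6, ← hγ _ _ h5 h7 ⟨i', rfl⟩]
      exact h4
  have : Finite I := Finite.of_injective j hj
  have n1 : ncomp γ aX ≤ Nat.card I := by
    refine Nat.card_le_card_of_surjective (fun i => Quot.mk _ (j i)) ?_
    rintro ⟨x⟩
    exact ⟨f x, (Quot.eqvGen_sound (hf x)).symm⟩
  have n2 : ncomp β aT + Nat.card I ≤ Nat.card D + 1 := by
    obtain ⟨i0⟩ := ‹Nonempty I›
    have h1 : ∀ i, (Quot.mk (fun a b : D => b = β a ∨ b = aT a) (j i)) = Quot.mk _ (j i0) := by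
      intro i
      have h2 := blockD_eqv_inv (fun x => Quot.mk (fun a b : D => b = β a ∨ b = aT a) (j (f x))) ?_
        (hc (j i) (j i0))
      · simpa only [hretr] using h2
      · rintro a b (hab | rfl)
        · by_cases hb : ∃ k, ν a = ν (j k)
          · obtain ⟨k, hk⟩ := hb
            refine Quot.eqvGen_sound (blockD_eqv_of_cyc (π := β) (fun a => Or.inl rfl) ((hB _ _).2 ?_))
            rw [← hval.blk a k hk, ← hval.blk b k (hab ▸ hk), hab]
          · push Not at hb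
            simp only [hval.out a b hab hb]
        · by_cases h : a ∈ Set.range j
          · obtain ⟨k, rfl⟩ := h
            obtain ⟨k', hk'⟩ := blockD_mem_of_fix hT ⟨k, rfl⟩
            simp only [hαT, ← hk', hretr]
            exact Quot.sound (Or.inr hk')
          · simp only [hαX a h, hval.inv]
    have h2 : ncomp β aT ≤ Nat.card (Option ((Set.range j)ᶜ : Set D)) := by
      refine Nat.card_le_card_of_surjective
        (fun o => o.elim (Quot.mk _ (j i0)) fun x => Quot.mk _ x.1) ?_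
      rintro ⟨x⟩
      by_cases hx : x ∈ Set.range j
      · obtain ⟨i, rfl⟩ := hx
        exact ⟨none, (h1 i).symm⟩
      · exact ⟨some ⟨x, hx⟩, rfl⟩
    rw [Finite.card_option] at h2
    have h3 : Nat.card (Set.range j) + Nat.card ((Set.range j)ᶜ : Set D) = Nat.card D := by
      rw [← Nat.card_sum]
      exact Nat.card_congr (Equiv.Set.sumCompl _)
    rw [Nat.card_range_of_injective hj] at h3
    omega
  have h1 := blockD_euler_add hretr hT hβ
    (fun x => (hfγ _ _ (Perm.sameCycle_apply_right.2 (Perm.SameCycle.refl _ _))).symm) hval.inv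
  have h2 := euler_le β aT
  have h3 := euler_le γ aX
  unfold Gen0 at h0
  exact ⟨β, γ, f, hval, ⟨hβ, hB, by omega⟩, ⟨hG, by omega⟩, rfl⟩

/-- planar rotations of the whole map are counted by their pieces -/
theorem blockD_count {ν : D → W} {j : I → D} (hj : Function.Injective j) [Nonempty I]
    {aT aX : Perm D} (hT : ∀ x, x ∉ Set.range j → aT x = x) (hX : ∀ i, aX (j i) = j i)
    (hα : Function.Involutive (aX * aT : Perm D)) (hc : Conn ν (aX * aT))
    (hblock : ∀ i i', i ≠ i' → ν (j i) = ν (j i') →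
      Lk ν (aX * aT) (Set.range j) {ν (j i)}ᶜ (j i) (j i'))
    (hpend : ∀ i i', EqvGen (fun a b => ν a = ν b ∨ b = aX a) (j i) (j i') → ν (j i) = ν (j i')) :
    emb ν (aX * aT) = Nat.card {β // BGoodB ν aT j β} *
      Nat.card (Σ f : {f // BValid ν aX j f}, {γ // BGoodG ν aX f.1 γ}) := by
  rw [← Nat.card_prod]
  symm
  refine Nat.card_eq_of_bijective
    (fun p => ⟨p.1.1 * p.2.2.1, blockD_glue hT p.2.1.2 p.1.2 p.2.2.2⟩) ⟨?_, ?_⟩
  · rintro ⟨⟨β, hβ⟩, ⟨f, hf⟩, ⟨γ, hγ⟩⟩ ⟨⟨β', hβ'⟩, ⟨f', hf'⟩, ⟨γ', hγ'⟩⟩ h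
    obtain ⟨rfl, rfl, rfl⟩ := blockD_inj hf hβ hγ hf' hβ' hγ' (congrArg Subtype.val h)
    rfl
  · rintro ⟨σ, hσ, h0⟩
    obtain ⟨β, γ, f, hf, hβ, hγ, rfl⟩ := blockD_cut hj hT hX hα hc hblock hpend hσ h0
    exact ⟨⟨⟨β, hβ⟩, ⟨f, hf⟩, ⟨γ, hγ⟩⟩, rfl⟩

end

end Pool.Agent.Lib.MP_77dff5_pr
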