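import Pool.Agent.Lib.MP_77dff5_pr.BlockDAux1

/-! Counting the rotation systems of the pieces. -/

set_option autoImplicit false

namespace Pool.Agent.Lib.MP_77dff5_pr

open Equiv Relation

section
variable {D W I : Type} [Finite D]

theorem blockD_ncyc_ext {p : D → Prop} [DecidablePred p] (e : I ≃ Subtype p) (τ : Perm I) :
    ncyc (τ.extendDomain e) + Nat.card I = ncyc τ + Nat.card D := by
  have h1 : τ.extendDomain e =
      (Equiv.sumCompl p).permCongr (Perm.sumCongr (e.permCongr τ) (1 : Perm {x // ¬p x})) := rfl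
  rw [h1, ncyc_permCongr, ncyc_sumCongr, ncyc_permCongr, ncyc_one, Nat.card_congr e,
    ← Nat.card_congr (Equiv.sumCompl p), Nat.card_sum, add_assoc, add_comm (Nat.card {x // ¬p x})]

theorem blockD_cardB {W' : Type} {ν : D → W} {j : I → D} (hj : Function.Injective j)
    {aT : Perm D} (hT : ∀ x, x ∉ Set.range j → aT x = x) {νI : I → W'} {aI : Perm I}
    (h1 : ∀ a b, νI a = νI b ↔ ν (j a) = ν (j b)) (h2 : ∀ i, j (aI i) = aT (j i)) :
    Nat.card {β // BGoodB ν aT j β} = emb νI aI := by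
  classical
  set e := Equiv.ofInjective j hj with he
  have hej : ∀ i, (e i).1 = j i := fun i => rfl
  have happ : ∀ (τ : Perm I) i, τ.extendDomain e (j i) = j (τ i) := fun τ i =>
    Perm.extendDomain_apply_image τ e i
  have hout : ∀ (τ : Perm I) x, x ∉ Set.range j → τ.extendDomain e x = x := fun τ x hx =>
    Perm.extendDomain_apply_not_subtype τ e hx
  have ha : aI.extendDomain e = aT := by
    ext x
    by_cases hx : x ∈ Set.range j
    · obtain ⟨i, rfl⟩ := hx
      rw [happ, h2]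
    · rw [hout _ _ hx, hT _ hx]
  have hgood : ∀ τ : Perm I, BGoodB ν aT j (τ.extendDomain e) ↔ IsRot νI τ ∧ Gen0 τ aI := by
    intro τ
    have c1 := blockD_ncyc_ext e τ
    have c2 := blockD_ncyc_ext e aI
    have c3 := blockD_ncyc_ext e (τ * aI)
    rw [← Perm.extendDomain_mul, ha] at c3
    rw [ha] at c2
    have c4 : ∀ i i', (τ.extendDomain e).SameCycle (j i) (j i') ↔ τ.SameCycle i i' := fun i i' =>
      Perm.sameCycle_extendDomain (f := e)
    unfold BGoodB IsRot Gen0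
    simp only [c4, h1]
    constructor
    · rintro ⟨-, h3, h4⟩
      exact ⟨h3, by omega⟩
    · rintro ⟨h3, h4⟩
      exact ⟨hout τ, h3, by omega⟩
  symm
  refine Nat.card_eq_of_bijective (fun τ => ⟨τ.1.extendDomain e, (hgood _).2 τ.2⟩) ⟨?_, ?_⟩
  · rintro ⟨τ, hτ⟩ ⟨τ', hτ'⟩ h
    exact Subtype.ext (Perm.extendDomainHom_injective e (congrArg Subtype.val h))
  · rintro ⟨β, hβ⟩
    have hm : ∀ x, β x ∈ Set.range j ↔ x ∈ Set.range j := by
      refine fun x => ⟨fun h => by_contra fun hx => hx ?_, blockD_mem_of_fix hβ.1⟩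
      rwa [hβ.1 x hx] at h
    have h3 : (e.symm.permCongr (β.subtypePerm hm)).extendDomain e = β := by
      ext x
      by_cases hx : x ∈ Set.range j
      · obtain ⟨i, rfl⟩ := hx
        rw [happ, ← hej]
        simp [hej]
      · rw [hout _ _ hx, hβ.1 _ hx]
    exact ⟨⟨_, (hgood _).1 (h3.symm ▸ hβ)⟩, Subtype.ext h3⟩

omit [Finite D] in
theorem blockD_cyc_congr {D' : Type} (u : D' ≃ D) (π : Perm D') (x y : D') :
    (u.permCongr π).SameCycle (u x) (u y) ↔ π.SameCycle x y := by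
  refine exists_congr fun k => ?_
  have : (u.permCongr π) ^ k = u.permCongr (π ^ k) := (map_zpow u.permCongrHom π k).symm
  rw [this]
  simp

theorem blockD_cyc_sigma {Y : I → Type} (ρ : ∀ i, Perm (Y i)) (i : I) (a b : Y i) :
    (Perm.sigmaCongrRight ρ).SameCycle ⟨i, a⟩ ⟨i, b⟩ ↔ (ρ i).SameCycle a b := by
  refine exists_congr fun k => ?_
  have : (Perm.sigmaCongrRight ρ) ^ k = Perm.sigmaCongrRight (ρ ^ k) :=
    (map_zpow (Perm.sigmaCongrRightHom Y) ρ k).symm
  rw [this]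
  simp

theorem blockD_cyc_sigma_fst {Y : I → Type} (ρ : ∀ i, Perm (Y i)) (x y : Σ i, Y i)
    (h : (Perm.sigmaCongrRight ρ).SameCycle x y) : x.1 = y.1 := by
  obtain ⟨k, rfl⟩ := h
  have : (Perm.sigmaCongrRight ρ) ^ k = Perm.sigmaCongrRight (ρ ^ k) :=
    (map_zpow (Perm.sigmaCongrRightHom Y) ρ k).symm
  rw [this]
  rfl

theorem blockD_sigma_surj {Y : I → Type} (γ : Perm (Σ i, Y i)) (h : ∀ x, (γ x).1 = x.1) :
    ∃ ρ : ∀ i, Perm (Y i), Perm.sigmaCongrRight ρ = γ := by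
  have key : ∀ (γ : Perm (Σ i, Y i)), (∀ x, (γ x).1 = x.1) →
      ∃ g : ∀ i, Y i → Y i, ∀ i y, γ ⟨i, y⟩ = ⟨i, g i y⟩ := by
    intro γ h
    have : ∀ i (y : Y i), ∃ z : Y i, γ ⟨i, y⟩ = ⟨i, z⟩ := by
      intro i y
      have h1 := h ⟨i, y⟩
      generalize γ ⟨i, y⟩ = p at h1
      obtain ⟨k, z⟩ := p
      obtain rfl : k = i := h1
      exact ⟨z, rfl⟩
    choose g hg using this
    exact ⟨g, hg⟩
  obtain ⟨g, hg⟩ := key γ h
  obtain ⟨g', hg'⟩ := key γ.symm fun x => by rw [← h (γ.symm x), Equiv.apply_symm_apply]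
  refine ⟨fun i => ⟨g i, g' i, fun y => ?_, fun y => ?_⟩, ?_⟩
  · have := hg' i (g i y)
    rw [← hg, Equiv.symm_apply_apply] at this
    exact (eq_of_heq (Sigma.mk.inj this).2).symm
  · have := hg i (g' i y)
    rw [← hg', Equiv.apply_symm_apply] at this
    exact (eq_of_heq (Sigma.mk.inj this).2).symm
  · ext1 ⟨i, y⟩
    rw [hg]
    rfl

theorem blockD_cardG [Fintype I] {Y Wi : I → Type} (u : (Σ i, Y i) ≃ D) {ν : D → W} {aX : Perm D}
    {f : D → I} (hf : ∀ i y, f (u ⟨i, y⟩) = i) {νY : ∀ i, Y i → Wi i} {aY : ∀ i, Perm (Y i)}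
    (h1 : ∀ i a b, νY i a = νY i b ↔ ν (u ⟨i, a⟩) = ν (u ⟨i, b⟩))
    (h2 : ∀ i y, u ⟨i, aY i y⟩ = aX (u ⟨i, y⟩)) (hc : ∀ i, Conn (νY i) (aY i)) :
    Nat.card {γ // BGoodG ν aX f γ} = ∏ i, emb (νY i) (aY i) := by
  classical
  have : Finite (Σ i, Y i) := Finite.of_equiv _ u.symm
  have : ∀ i, Finite (Y i) := fun i =>
    Finite.of_injective (fun y => (⟨i, y⟩ : Σ i, Y i)) sigma_mk_injective
  have ha : u.permCongr (Perm.sigmaCongrRight aY) = aX := by
    ext x
    obtain ⟨⟨i, y⟩, rfl⟩ := u.surjective x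
    rw [← h2]
    simp
  have hgood : ∀ ρ : ∀ i, Perm (Y i), BGoodG ν aX f (u.permCongr (Perm.sigmaCongrRight ρ)) ↔
      ∀ i, IsRot (νY i) (ρ i) ∧ Gen0 (ρ i) (aY i) := by
    intro ρ
    have c1 : (∀ x y, (u.permCongr (Perm.sigmaCongrRight ρ)).SameCycle x y ↔
        f x = f y ∧ ν x = ν y) ↔ ∀ i, IsRot (νY i) (ρ i) := by
      constructor
      · intro h i a b
        rw [← blockD_cyc_sigma, ← blockD_cyc_congr u, h, hf, hf, h1]
        simp
      · intro h x y
        obtain ⟨⟨i, a⟩, rfl⟩ := u.surjective x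
        obtain ⟨⟨i', b⟩, rfl⟩ := u.surjective y
        rw [blockD_cyc_congr, hf, hf]
        constructor
        · intro h3
          obtain rfl : i = i' := blockD_cyc_sigma_fst _ _ _ h3
          rw [blockD_cyc_sigma, h i, h1] at h3
          exact ⟨rfl, h3⟩
        · rintro ⟨rfl, h3⟩
          rw [blockD_cyc_sigma, h i, h1]
          exact h3
    have c2 : ncyc (u.permCongr (Perm.sigmaCongrRight ρ)) + ncyc aX +
        ncyc (u.permCongr (Perm.sigmaCongrRight ρ) * aX) =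
        ∑ i, (ncyc (ρ i) + ncyc (aY i) + ncyc (ρ i * aY i)) := by
      rw [← ha, ← Equiv.permCongr_mul, Perm.sigmaCongrRight_mul]
      simp only [ncyc_permCongr, ncyc_sigmaCongrRight, Finset.sum_add_distrib, Pi.mul_apply]
    have c3 : Nat.card D + 2 * Nat.card I = ∑ i, (Nat.card (Y i) + 2) := by
      rw [← Nat.card_congr u, Nat.card_sigma, Finset.sum_add_distrib]
      simp [mul_comm]
    unfold BGoodG
    rw [c1, c2, c3]
    constructor
    · rintro ⟨h3, h4⟩ i
      refine ⟨h3 i, ?_⟩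
      exact (Finset.sum_eq_sum_iff_of_le fun i _ =>
        euler_le_of_trans2 ((conn_iff_trans2 (h3 i) _).1 (hc i))).1 h4 i (Finset.mem_univ _)
    · intro h
      exact ⟨fun i => (h i).1, Finset.sum_congr rfl fun i _ => (h i).2⟩
  unfold emb
  rw [← Nat.card_pi]
  symm
  refine Nat.card_eq_of_bijective (fun ρ => ⟨u.permCongr (Perm.sigmaCongrRight fun i => (ρ i).1),
    (hgood _).2 fun i => (ρ i).2⟩) ⟨?_, ?_⟩
  · intro ρ ρ' h
    have h3 := Perm.sigmaCongrRightHom_injective (u.permCongr.injective (congrArg Subtype.val h))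
    exact funext fun i => Subtype.ext (congrFun h3 i)
  · rintro ⟨γ, hγ⟩
    obtain ⟨ρ, hρ⟩ := blockD_sigma_surj (u.symm.permCongr γ) fun x => by
      have h3 := ((hγ.1 (u x) (γ (u x))).1
        (Perm.sameCycle_apply_right.2 (Perm.SameCycle.refl _ _))).1
      have h4 : ∀ p, f (u p) = p.1 := fun p => hf p.1 p.2
      rw [← h4, ← h4]
      simpa using h3.symm
    have h3 : u.permCongr (Perm.sigmaCongrRight ρ) = γ := by
      rw [hρ]
      ext x
      simp
    exact ⟨fun i => ⟨ρ i, (hgood ρ).1 (h3.symm ▸ hγ) i⟩, Subtype.ext h3⟩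

omit [Finite D] in
theorem blockD_conn_iff {Y Wi : I → Type} (u : (Σ i, Y i) ≃ D) {ν : D → W} {aX : Perm D}
    {f : D → I} (hf : ∀ i y, f (u ⟨i, y⟩) = i) {νY : ∀ i, Y i → Wi i} {aY : ∀ i, Perm (Y i)}
    (h1 : ∀ i a b, νY i a = νY i b ↔ ν (u ⟨i, a⟩) = ν (u ⟨i, b⟩))
    (h2 : ∀ i y, u ⟨i, aY i y⟩ = aX (u ⟨i, y⟩)) (y0 : ∀ i, Y i) {j : I → D}
    (hj : ∀ i, u ⟨i, y0 i⟩ = j i) :
    (∀ i, Conn (νY i) (aY i)) ↔
      ∀ x, EqvGen (fun a b => (f a = f b ∧ ν a = ν b) ∨ b = aX a) x (j (f x)) := by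
  classical
  constructor
  · intro h x
    obtain ⟨⟨i, y⟩, rfl⟩ := u.surjective x
    rw [hf, ← hj]
    refine blockD_eqv_map (fun y => u ⟨i, y⟩) ?_ (h i y (y0 i))
    rintro a b (hab | rfl)
    · exact EqvGen.rel _ _ (Or.inl ⟨by rw [hf, hf], (h1 _ _ _).1 hab⟩)
    · exact EqvGen.rel _ _ (Or.inr (h2 _ _))
  · intro h i
    have key : ∀ y, EqvGen (fun a b => νY i a = νY i b ∨ b = aY i a) y (y0 i) := by
      intro y
      let g : (Σ i, Y i) → Y i := fun p => if h : p.1 = i then h ▸ p.2 else y0 i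
      have g1 : ∀ y, g ⟨i, y⟩ = y := fun y => dif_pos rfl
      have g2 : ∀ k y, k ≠ i → g ⟨k, y⟩ = y0 i := fun k y hk => dif_neg hk
      have h3 := h (u ⟨i, y⟩)
      rw [hf, ← hj] at h3
      have h4 := blockD_eqv_map (s := fun a b => νY i a = νY i b ∨ b = aY i a)
        (fun x => g (u.symm x)) ?_ h3
      · simpa only [Equiv.symm_apply_apply, g1] using h4
      · intro a b hab
        obtain ⟨⟨k, a⟩, rfl⟩ := u.surjective a
        obtain ⟨⟨k', b⟩, rfl⟩ := u.surjective b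
        have hk : k = k' := by
          rcases hab with hab | hab
          · simpa only [hf] using hab.1
          · rw [← h2] at hab
            exact (Sigma.mk.inj (u.injective hab)).1.symm
        subst hk
        simp only [Equiv.symm_apply_apply]
        by_cases hk : k = i
        · subst hk
          rw [g1, g1]
          refine EqvGen.rel _ _ (hab.imp (fun h => (h1 _ _ _).2 h.2) fun h => ?_)
          rw [← h2] at h
          exact eq_of_heq (Sigma.mk.inj (u.injective h)).2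
        · rw [g2 _ _ hk, g2 _ _ hk]
          exact EqvGen.refl _
    exact fun x y => EqvGen.trans _ _ _ (key x) (EqvGen.symm _ _ (key y))

end

end Pool.Agent.Lib.MP_77dff5_pr
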