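import Pool.Agent.Lib.MP_77dff5_pr.BlockDAux2
import Pool.Agent.Lib.MP_77dff5_pr.Net

/-! The block of the root edge on fixed labels. -/

set_option autoImplicit false

namespace Pool.Agent.Lib.MP_77dff5_pr

open Equiv Relation

section
variable {E V : Type}

/-- darts of the block inside the darts of the whole graph -/
def blockD_j (pE : E → Bool) : Option {e // pE e = true} × Bool → Option E × Bool :=
  fun i => (i.1.map Subtype.val, i.2)

theorem blockD_j_inj (pE : E → Bool) : Function.Injective (blockD_j pE) := by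
  rintro ⟨a, b⟩ ⟨a', b'⟩ h
  simp only [blockD_j, Prod.mk.injEq] at h
  rw [Option.map_injective Subtype.val_injective h.1, h.2]

theorem blockD_mem_j (pE : E → Bool) (x : Option E × Bool) :
    x ∈ Set.range (blockD_j pE) ↔ x.1.elim true pE = true := by
  constructor
  · rintro ⟨⟨_ | a, b⟩, rfl⟩
    · rfl
    · exact a.2
  · obtain ⟨_ | e, b⟩ := x
    · exact fun _ => ⟨(none, b), rfl⟩
    · exact fun h => ⟨(some ⟨e, h⟩, b), rfl⟩

/-- reversal of the block darts -/
def blockD_aT (pE : E → Bool) : Perm (Option E × Bool) :=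
  Function.Involutive.toPerm (fun x => (x.1, xor (x.1.elim true pE) x.2)) fun x => by simp

/-- reversal of the pendant darts -/
def blockD_aX (pE : E → Bool) : Perm (Option E × Bool) :=
  Function.Involutive.toPerm (fun x => (x.1, xor (!x.1.elim true pE) x.2)) fun x => by simp

theorem blockD_aT_apply (pE : E → Bool) (x : Option E × Bool) :
    blockD_aT pE x = (x.1, xor (x.1.elim true pE) x.2) := rfl

theorem blockD_aX_apply (pE : E → Bool) (x : Option E × Bool) :
    blockD_aX pE x = (x.1, xor (!x.1.elim true pE) x.2) := rfl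

theorem blockD_flp_apply (x : E × Bool) : flp E x = (x.1, !x.2) := rfl

theorem blockD_flp_invol : Function.Involutive (flp E) := fun x => by
  simp [blockD_flp_apply]

theorem blockD_aX_mul_aT (pE : E → Bool) : blockD_aX pE * blockD_aT pE = flp (Option E) := by
  ext1 x
  rw [Perm.mul_apply, blockD_aX_apply, blockD_aT_apply, blockD_flp_apply]
  generalize x.1.elim true pE = c
  cases c <;> simp

theorem blockD_aT_out (pE : E → Bool) (x : Option E × Bool) (hx : x ∉ Set.range (blockD_j pE)) :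
    blockD_aT pE x = x := by
  rw [blockD_mem_j] at hx
  simp [blockD_aT_apply, hx]

theorem blockD_aX_j (pE : E → Bool) (i : Option {e // pE e = true} × Bool) :
    blockD_aX pE (blockD_j pE i) = blockD_j pE i := by
  have := (blockD_mem_j pE _).1 ⟨i, rfl⟩
  simp [blockD_aX_apply, this]

theorem blockD_j_flp (pE : E → Bool) (i : Option {e // pE e = true} × Bool) :
    blockD_j pE (flp _ i) = blockD_aT pE (blockD_j pE i) := by
  have := (blockD_mem_j pE _).1 ⟨i, rfl⟩
  rw [blockD_aT_apply, this]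
  simp [blockD_j, blockD_flp_apply]

theorem blockD_j_flp' (pE : E → Bool) (i : Option {e // pE e = true} × Bool) :
    blockD_j pE (flp _ i) = flp _ (blockD_j pE i) := rfl

/-- pendant sets of edges -/
def BPendD (G : E × Bool → Bool ⊕ V) (X : Set (Option E)) : Prop :=
  none ∉ X ∧ (bd (clo G) X).Subsingleton

/-- `N` is the block of the root edge of `G` -/
structure BData (G : E × Bool → Bool ⊕ V) (pE : E → Bool) (pV : V → Bool)
    (N : {e // pE e = true} × Bool → Bool ⊕ {v // pV v = true}) : Prop where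
  hE : ∀ e, pE e = true ↔ ¬∃ X, BPendD G X ∧ some e ∈ X
  hV : ∀ v, pV v = true ↔ ∃ x, pE x.1 = true ∧ G x = Sum.inr v
  hN : ∀ x, G (x.1.1, x.2) = (N x).map id Subtype.val

theorem blockD_map_inj {pV : V → Bool} :
    Function.Injective (Sum.map id Subtype.val : Bool ⊕ {v // pV v = true} → Bool ⊕ V) :=
  Sum.map_injective.2 ⟨Function.injective_id, Subtype.val_injective⟩

theorem blockD_clo_j {G : E × Bool → Bool ⊕ V} {pE : E → Bool} {pV : V → Bool}
    {N : {e // pE e = true} × Bool → Bool ⊕ {v // pV v = true}}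
    (hN : ∀ x, G (x.1.1, x.2) = (N x).map id Subtype.val) (i : Option {e // pE e = true} × Bool) :
    clo G (blockD_j pE i) = (clo N i).map id Subtype.val := by
  obtain ⟨_ | e, b⟩ := i
  · rfl
  · exact hN (e, b)

theorem blockD_exists_data (G : E × Bool → Bool ⊕ V) : ∃ pE pV N, BData G pE pV N := by
  classical
  let pE : E → Bool := fun e => decide (¬∃ X, BPendD G X ∧ some e ∈ X)
  let pV : V → Bool := fun v => decide (∃ x, pE x.1 = true ∧ G x = Sum.inr v)
  have : ∀ x : {e // pE e = true} × Bool, ∃ w : Bool ⊕ {v // pV v = true},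
      G (x.1.1, x.2) = w.map id Subtype.val := by
    intro x
    rcases h : G (x.1.1, x.2) with c | v
    · exact ⟨Sum.inl c, rfl⟩
    · exact ⟨Sum.inr ⟨v, decide_eq_true ⟨_, x.1.2, h⟩⟩, rfl⟩
  choose N hN using this
  exact ⟨pE, pV, N, fun e => decide_eq_true_iff, fun v => decide_eq_true_iff, hN⟩

variable {G : E × Bool → Bool ⊕ V} {pE : E → Bool} {pV : V → Bool}
  {N : {e // pE e = true} × Bool → Bool ⊕ {v // pV v = true}}

theorem BData.mem (h : BData G pE pV N) (x : Option E × Bool) :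
    x ∈ Set.range (blockD_j pE) ↔ ¬∃ X, BPendD G X ∧ x.1 ∈ X := by
  rw [blockD_mem_j]
  obtain ⟨_ | e, b⟩ := x
  · exact iff_of_true rfl fun ⟨X, hX, h0⟩ => hX.1 h0
  · exact h.hE e

/-- a set of block edges with at most one boundary vertex in the block -/
theorem BData.sep (h : BData G pE pV N) {Y : Set (Option E)} (h0 : none ∉ Y) (w : Bool ⊕ V)
    (hY : ∀ x y, x.1 ∈ Y → y ∈ Set.range (blockD_j pE) → y.1 ∉ Y → clo G x = clo G y →
      clo G x = w) (hB : ∀ x, x.1 ∈ Y → x ∈ Set.range (blockD_j pE)) : Y = ∅ := by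
  by_contra hne
  obtain ⟨e, he⟩ := Set.nonempty_iff_ne_empty.2 hne
  refine (h.mem _).1 (hB (e, true) he)
    ⟨Y ∪ {o | ∃ X, BPendD G X ∧ o ∈ X ∧ ∃ x y, x.1 ∈ X ∧ y.1 ∈ Y ∧ clo G x = clo G y}, ⟨?_, ?_⟩,
      Or.inl he⟩
  · rintro (h1 | ⟨X, hX, h1, -⟩)
    · exact h0 h1
    · exact hX.1 h1
  · refine Set.subsingleton_of_forall_eq w ?_
    rintro v ⟨⟨x, hx, rfl⟩, y, hy, hxy⟩
    have hy1 : y.1 ∉ Y := fun h => hy (Or.inl h)
    have key : ∀ x', x'.1 ∈ Y → clo G x' = clo G x → clo G x = w := by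
      intro x' hx' h1
      by_cases hyB : y ∈ Set.range (blockD_j pE)
      · rw [← h1]
        exact hY x' y hx' hyB hy1 (h1.trans hxy.symm)
      · rw [h.mem, not_not] at hyB
        obtain ⟨X, hX, h2⟩ := hyB
        exact absurd (Or.inr ⟨X, hX, h2, y, x', h2, hx', hxy.trans h1.symm⟩) hy
    rcases hx with hx | ⟨X, hX, hx, x', y', h1, h2, h3⟩
    · exact key x hx rfl
    · refine key y' h2 (hX.2 ⟨⟨x', h1, h3⟩, y', fun h4 => ?_, rfl⟩ ⟨⟨x, hx, rfl⟩, y, fun h4 => ?_, hxy⟩)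
      · exact (h.mem _).1 (hB y' h2) ⟨X, hX, h4⟩
      · exact hy (Or.inr ⟨X, hX, h4, x', y', h1, h2, h3⟩)

theorem BData.sep' (h : BData G pE pV N) {Y : Set (Option E)} (w : Bool ⊕ V)
    (hY : ∀ x y, x ∈ Set.range (blockD_j pE) → x.1 ∈ Y → y ∈ Set.range (blockD_j pE) → y.1 ∉ Y →
      clo G x = clo G y → clo G x = w) {a b : Option E × Bool} (ha : a ∈ Set.range (blockD_j pE))
    (hb : b ∈ Set.range (blockD_j pE)) (haY : a.1 ∈ Y) : b.1 ∈ Y := by
  by_contra hbY
  by_cases h0 : none ∈ Y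
  · have := h.sep (Y := {o | o.elim true pE = true ∧ o ∉ Y}) (fun h => h.2 h0) w ?_ ?_
    · exact Set.eq_empty_iff_forall_notMem.1 this b.1 ⟨(blockD_mem_j _ _).1 hb, hbY⟩
    · intro x y hx hy hy' hxy
      rw [hxy]
      refine hY y x hy (by_contra fun h => hy' ⟨(blockD_mem_j _ _).1 hy, h⟩)
        ((blockD_mem_j _ _).2 hx.1) hx.2 hxy.symm
    · exact fun x hx => (blockD_mem_j _ _).2 hx.1
  · have := h.sep (Y := {o | o.elim true pE = true ∧ o ∈ Y}) (fun h => h0 h.2) w ?_ ?_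
    · exact Set.eq_empty_iff_forall_notMem.1 this a.1 ⟨(blockD_mem_j _ _).1 ha, haY⟩
    · intro x y hx hy hy' hxy
      exact hY x y ((blockD_mem_j _ _).2 hx.1) hx.2 hy
        (fun h => hy' ⟨(blockD_mem_j _ _).1 hy, h⟩) hxy
    · exact fun x hx => (blockD_mem_j _ _).2 hx.1

theorem BData.isBlock [Finite V] (h : BData G pE pV N) : IsBlock N := by
  by_cases hne : Nonempty {e // pE e = true}
  · refine Or.inr ⟨hne, ?_, fun X hX hX' => ?_⟩
    · rintro (c | v)
      · exact ⟨(none, c), rfl⟩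
      · obtain ⟨x, h1, h2⟩ := (h.hV v.1).1 v.2
        refine ⟨(some ⟨x.1, h1⟩, x.2), blockD_map_inj ?_⟩
        rw [← blockD_clo_j h.hN]
        exact h2
    · by_contra hlt
      have hs : (bd (clo N) X).Subsingleton := by
        rw [← Set.ncard_le_one_iff_subsingleton]
        omega
      obtain ⟨a, ha⟩ := hX
      obtain ⟨b, hb⟩ := hX'
      obtain ⟨w, hw⟩ : ∃ w, ∀ v ∈ bd (clo N) X, v = w := by
        rcases hs.eq_empty_or_singleton with h1 | ⟨w, h1⟩
        · exact ⟨Sum.inl true, by simp [h1]⟩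
        · exact ⟨w, by simp [h1]⟩
      have hm : ∀ i, (blockD_j pE i).1 ∈ Option.map Subtype.val '' X ↔ i.1 ∈ X := fun i =>
        (Option.map_injective Subtype.val_injective).mem_set_image
      refine hb ((hm (b, true)).1 (h.sep' (Y := Option.map Subtype.val '' X) (w.map id Subtype.val)
        ?_ ⟨(a, true), rfl⟩ ⟨(b, true), rfl⟩ ((hm (a, true)).2 ha)))
      rintro _ _ ⟨i, rfl⟩ hi ⟨i', rfl⟩ hi' hii
      rw [hm] at hi hi'
      rw [blockD_clo_j h.hN, blockD_clo_j h.hN] at hii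
      rw [blockD_clo_j h.hN, hw (clo N i) ⟨⟨i, hi, rfl⟩, i', hi', (blockD_map_inj hii).symm⟩]
  · refine Or.inl ⟨not_nonempty_iff.1 hne, ⟨fun v => ?_⟩⟩
    obtain ⟨x, h1, -⟩ := (h.hV v.1).1 v.2
    exact hne ⟨⟨x.1, h1⟩⟩

theorem BData.block (h : BData G pE pV N) (i i' : Option {e // pE e = true} × Bool) :
    Lk (clo G) (flp _) (Set.range (blockD_j pE)) {clo G (blockD_j pE i)}ᶜ (blockD_j pE i)
      (blockD_j pE i') := by
  set L := Lk (clo G) (flp _) (Set.range (blockD_j pE)) {clo G (blockD_j pE i)}ᶜ with hL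
  have key : ∀ x, x ∈ Set.range (blockD_j pE) → ∀ c, L (blockD_j pE i) (x.1, c) →
      L (blockD_j pE i) x := by
    intro x hx c hc
    by_cases h1 : c = x.2
    · rwa [h1] at hc
    · refine EqvGen.trans _ _ _ hc (EqvGen.rel _ _ ⟨?_, hx, Or.inl ?_⟩)
      · rw [blockD_mem_j] at hx ⊢
        exact hx
      · rw [blockD_flp_apply]
        revert h1
        obtain ⟨o, b⟩ := x
        cases c <;> cases b <;> simp
  have h2 := h.sep' (Y := {o | ∃ c, L (blockD_j pE i) (o, c)}) (clo G (blockD_j pE i)) ?_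
    ⟨i, rfl⟩ ⟨i', rfl⟩ ⟨_, EqvGen.refl _⟩
  · obtain ⟨c, hc⟩ := h2
    exact key _ ⟨i', rfl⟩ c hc
  · rintro x y hx ⟨c, hc⟩ hy hy' hxy
    by_contra hne
    exact hy' ⟨y.2, EqvGen.trans _ _ _ (key x hx c hc) (EqvGen.rel _ _ ⟨hx, hy, Or.inr ⟨hxy, hne⟩⟩)⟩

theorem BData.pend (h : BData G pE pV N) (i i' : Option {e // pE e = true} × Bool)
    (hi : EqvGen (fun a b => clo G a = clo G b ∨ b = blockD_aX pE a) (blockD_j pE i)
      (blockD_j pE i')) : clo G (blockD_j pE i) = clo G (blockD_j pE i') := by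
  set v := clo G (blockD_j pE i) with hv
  let P : Option E × Bool → Prop := fun x =>
    clo G x = v ∨ ∃ X, BPendD G X ∧ x.1 ∈ X ∧ ∃ y, y.1 ∈ X ∧ clo G y = v
  have k1 : ∀ a b, clo G a = clo G b → P a → P b := by
    rintro a b hab (ha | ⟨X, hX, ha, y, hy, hy'⟩)
    · exact Or.inl (hab ▸ ha)
    · by_cases hb : b.1 ∈ X
      · exact Or.inr ⟨X, hX, hb, y, hy, hy'⟩
      · refine Or.inl (hX.2 ⟨⟨a, ha, hab⟩, b, hb, rfl⟩ ⟨⟨y, hy, hy'⟩, _, fun h1 => ?_, hv.symm⟩)
        exact (h.mem _).1 ⟨i, rfl⟩ ⟨X, hX, h1⟩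
  have k2 : ∀ a, P a → P (blockD_aX pE a) := by
    intro a ha
    by_cases h1 : a ∈ Set.range (blockD_j pE)
    · obtain ⟨k, rfl⟩ := h1
      rwa [blockD_aX_j]
    · rw [h.mem, not_not] at h1
      rcases ha with ha | ha
      · obtain ⟨X, hX, h2⟩ := h1
        exact Or.inr ⟨X, hX, h2, a, h2, ha⟩
      · exact Or.inr ha
  have k3 := blockD_eqv_inv P ?_ hi
  · rcases k3.mp (Or.inl rfl) with h1 | ⟨X, hX, h1, -⟩
    · exact h1.symm
    · exact absurd ⟨X, hX, h1⟩ ((h.mem _).1 ⟨i', rfl⟩)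
  · rintro a b (hab | rfl)
    · exact propext ⟨k1 a b hab, k1 b a hab.symm⟩
    · refine propext ⟨k2 a, fun h1 => ?_⟩
      have := k2 _ h1
      rwa [show blockD_aX pE (blockD_aX pE a) = a by simp [blockD_aX_apply]] at this

/-- the embeddings of `G` are counted by those of the pieces -/
theorem BData.emb_eq [Finite E] (h : BData G pE pV N) (hc : Conn (clo G) (flp _)) :
    emb (clo G) (flp _) = emb (clo N) (flp _) *
      Nat.card (Σ f : {f // BValid (clo G) (blockD_aX pE) (blockD_j pE) f},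
        {γ // BGoodG (clo G) (blockD_aX pE) f.1 γ}) := by
  rw [← blockD_cardB (ν := clo G) (νI := clo N) (blockD_j_inj pE) (blockD_aT_out pE)
    (fun a b => by rw [blockD_clo_j h.hN, blockD_clo_j h.hN, blockD_map_inj.eq_iff])
    (blockD_j_flp pE), ← blockD_aX_mul_aT pE]
  refine blockD_count (blockD_j_inj pE) (blockD_aT_out pE) (blockD_aX_j pE) ?_ ?_ ?_ h.pend
  · rw [blockD_aX_mul_aT]
    exact blockD_flp_invol
  · rwa [blockD_aX_mul_aT]
  · rw [blockD_aX_mul_aT]
    exact fun i i' _ _ => h.block i i'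

end

end Pool.Agent.Lib.MP_77dff5_pr
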