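import Pool.Agent.Lib.MP_77dff5_pr.PlE

/-! The uniform law on drawable graphs and the finite averages. -/

set_option autoImplicit false

namespace Pool.Agent.Lib.MP_77dff5_pr

open MeasureTheory ProbabilityTheory Filter Topology

theorem bridge_discrete (n : ℕ) : DiscreteMeasurableSpace (SimpleGraph (Fin n)) :=
  ⟨measurableSet_graphs⟩

theorem bridge_set (n : ℕ) : {G : SimpleGraph (Fin n) | Drawable G} = {G | IsPlanar G} :=
  Set.ext fun _ => drawable_iff_isPlanar

theorem bridge_real (n : ℕ) (s : Set (SimpleGraph (Fin n))) :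
    (planarLaw n).real s =
      ({G : PlanarGraph n | G.1 ∈ s}.ncard : ℝ) / Nat.card (PlanarGraph n) := by
  have := bridge_discrete n
  have e1 : {G : PlanarGraph n | G.1 ∈ s}.ncard = ({G | IsPlanar G} ∩ s).ncard := by
    rw [← Set.ncard_image_of_injective _ Subtype.val_injective]
    congr 1
    ext G
    constructor
    · rintro ⟨H, hH, rfl⟩
      exact ⟨H.2, hH⟩
    · rintro ⟨h1, h2⟩
      exact ⟨⟨G, h1⟩, h2, rfl⟩
  have e2 : Nat.card (PlanarGraph n) = {G : SimpleGraph (Fin n) | IsPlanar G}.ncard := rfl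
  rw [e1, e2, planarLaw, bridge_set, Measure.real, uniformOn, cond_apply MeasurableSet.of_discrete,
    Measure.count_apply_finite _ (Set.toFinite _), Measure.count_apply_finite _ (Set.toFinite _),
    Set.ncard_eq_toFinset_card _ (Set.toFinite _), Set.ncard_eq_toFinset_card _ (Set.toFinite _)]
  simp [div_eq_inv_mul]

theorem bridge_integral (n : ℕ) (X : SimpleGraph (Fin n) → ℝ) :
    ∫ G, X G ∂planarLaw n = avg n fun G => X G.1 := by
  classical
  have := bridge_discrete n
  have : Fintype (SimpleGraph (Fin n)) := Fintype.ofFinite _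
  rw [integral_fintype Integrable.of_finite, avg, finsum_eq_sum_of_fintype, Finset.sum_div]
  rw [← Finset.sum_filter_add_sum_filter_not Finset.univ IsPlanar]
  rw [Finset.sum_eq_zero (s := Finset.univ.filter fun G => ¬IsPlanar G), add_zero]
  · rw [Finset.sum_subtype (p := IsPlanar) _ (by simp)]
    refine Finset.sum_congr rfl fun G _ => ?_
    rw [bridge_real]
    have : {H : PlanarGraph n | H.1 ∈ ({G.1} : Set _)} = {G} := by
      ext H
      simp [Subtype.ext_iff]
    rw [this, Set.ncard_singleton]
    simp [div_eq_inv_mul]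
  · intro G hG
    rw [bridge_real]
    have : {H : PlanarGraph n | H.1 ∈ ({G} : Set _)} = ∅ := by
      ext H
      simp only [Set.mem_singleton_iff, Set.mem_ofPred_eq, Set.mem_empty_iff_false, iff_false]
      rintro rfl
      exact (Finset.mem_filter.1 hG).2 H.2
    rw [this]
    simp

theorem bridge_mean (k n : ℕ) : ∫ G, degNum k n G ∂planarLaw n = meanX k n :=
  bridge_integral n _

theorem bridge_var (k n : ℕ) : Var[degNum k n; planarLaw n] = varX k n := by
  have := bridge_discrete n
  rw [variance_eq_integral Measurable.of_discrete.aemeasurable, bridge_integral, bridge_mean]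
  rfl

/-- convergence of distribution functions gives weak convergence -/
theorem bridge_weak {μ : ℕ → ProbabilityMeasure ℝ} {ν : ProbabilityMeasure ℝ}
    (h : ∀ a, Tendsto (fun n => cdf (μ n : Measure ℝ) a) atTop (𝓝 (cdf (ν : Measure ℝ) a))) :
    Tendsto μ atTop (𝓝 ν) := by
  have key : ∀ (ρ : ProbabilityMeasure ℝ) (a b : ℝ), a < b →
      ((ρ (Set.Ioc a b) : NNReal) : ℝ) = cdf (ρ : Measure ℝ) b - cdf (ρ : Measure ℝ) a := by
    intro ρ a b hab
    have h1 := (cdf (ρ : Measure ℝ)).measure_Ioc a b
    rw [measure_cdf] at h1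
    have h2 : ((ρ (Set.Ioc a b) : NNReal) : ℝ) = ((ρ : Measure ℝ) (Set.Ioc a b)).toReal := rfl
    rw [h2, h1, ENNReal.toReal_ofReal (sub_nonneg.2 ((monotone_cdf _) hab.le))]
  refine IsPiSystem.tendsto_probabilityMeasure_of_tendsto_of_mem
    (S := {S | ∃ a b : ℝ, a < b ∧ Set.Ioc a b = S}) (isPiSystem_Ioc id id) ?_ ?_ ?_
  · rintro _ ⟨a, b, -, rfl⟩
    exact measurableSet_Ioc
  · intro u hu x hx
    obtain ⟨ε, hε, hsub⟩ := Metric.isOpen_iff.1 hu x hx
    refine ⟨Set.Ioc (x - ε / 2) (x + ε / 2), ⟨_, _, by linarith, rfl⟩,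
      Ioc_mem_nhds (by linarith) (by linarith), fun y hy => hsub ?_⟩
    rw [Metric.mem_ball, Real.dist_eq, abs_lt]
    constructor <;> linarith [hy.1, hy.2]
  · rintro _ ⟨a, b, hab, rfl⟩
    rw [← NNReal.tendsto_coe]
    simp only [key _ a b hab]
    exact (h b).sub (h a)

theorem bridge_final (k : ℕ) {σ2 : ℝ} (hσ : 0 < σ2)
    (h1 : Tendsto (fun n : ℕ => varX k n / n) atTop (𝓝 σ2))
    (h2 : ∀ a : ℝ, Tendsto (fun n => cdfX k n a) atTop (𝓝 (cdf (gaussianReal 0 1) a))) :
    (∀ᶠ n in atTop, 0 < Var[degNum k n; planarLaw n]) ∧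
      TendstoInDistribution
        (fun n G => (degNum k n G - ∫ H, degNum k n H ∂planarLaw n) /
          √(Var[degNum k n; planarLaw n]))
        atTop id planarLaw (gaussianReal 0 1) := by
  constructor
  · filter_upwards [h1.eventually (lt_mem_nhds hσ)] with n hn
    rw [bridge_var]
    exact (div_pos_iff_of_pos_right (by
      rcases Nat.eq_zero_or_pos n with rfl | h
      · simp at hn
      · exact_mod_cast h)).1 hn
  · have hm : ∀ n, Measurable fun G => (degNum k n G - ∫ H, degNum k n H ∂planarLaw n) /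
        √(Var[degNum k n; planarLaw n]) := fun n => by
      have := bridge_discrete n
      exact Measurable.of_discrete
    refine ⟨fun n => (hm n).aemeasurable, measurable_id.aemeasurable, bridge_weak fun a => ?_⟩
    simp only [ProbabilityMeasure.coe_mk, Measure.map_id]
    refine (h2 a).congr fun n => ?_
    have : IsProbabilityMeasure ((planarLaw n).map fun G =>
        (degNum k n G - ∫ H, degNum k n H ∂planarLaw n) / √(Var[degNum k n; planarLaw n])) :=
      Measure.isProbabilityMeasure_map (hm n).aemeasurable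
    rw [cdf_eq_real, map_measureReal_apply (hm n) measurableSet_Iic, bridge_real, bridge_mean,
      bridge_var]
    rfl

end Pool.Agent.Lib.MP_77dff5_pr
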