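import Pool.Agent.Lib.MP_77dff5_pr.RootA
import Pool.Agent.Lib.MP_77dff5_pr.PermD
import Pool.Agent.Lib.MP_77dff5_pr.LabelD

/-! The component of the root, and the passage to labelled simple graphs. -/

set_option autoImplicit false

namespace Pool.Agent.Lib.MP_77dff5_pr

open scoped ENNReal Classical

section
variable {E V : Type}

theorem topA_flp_flp (x : E × Bool) : flp E (flp E x) = x := by
  obtain ⟨a, b⟩ := x
  cases b <;> rfl

/-- vertices in the component of the root -/
def TopAReach (G : E × Bool → Option V) : Option V → Prop :=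
  Relation.EqvGen (fun u v => ∃ x, G x = u ∧ G (flp E x) = v) none

variable {pE : E → Bool} {pV : V → Bool}
  {R R' : {e // pE e = true} × Bool → Option {v // pV v = true}}
  {ν ν' : {e // ¬pE e = true} × Bool → {v // ¬pV v = true}}

theorem topA_pos (R : {e // pE e = true} × Bool → Option {v // pV v = true})
    (ν : {e // ¬pE e = true} × Bool → {v // ¬pV v = true}) (x : {e // pE e = true} × Bool) :
    unionF pE pV R ν (x.1.1, x.2) = (R x).map Subtype.val := dif_pos x.1.2

theorem topA_neg (R : {e // pE e = true} × Bool → Option {v // pV v = true})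
    (ν : {e // ¬pE e = true} × Bool → {v // ¬pV v = true}) (x : {e // ¬pE e = true} × Bool) :
    unionF pE pV R ν (x.1.1, x.2) = some (ν x).1 := dif_neg x.1.2

theorem topA_inj (h : unionF pE pV R ν = unionF pE pV R' ν') : R = R' ∧ ν = ν' := by
  refine ⟨funext fun x => Option.map_injective Subtype.val_injective ?_,
    funext fun x => Subtype.ext (Option.some_injective _ ?_)⟩
  · rw [← topA_pos R ν, h, topA_pos]
  · rw [← topA_neg R ν, h, topA_neg]

theorem topA_in (x : E × Bool) :
    (∀ v, unionF pE pV R ν x = some v → pV v = true) ↔ pE x.1 = true := by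
  by_cases h : pE x.1 = true
  · rw [topA_pos R ν (⟨x.1, h⟩, x.2)]
    refine iff_of_true (fun v hv => ?_) h
    obtain ⟨w, -, rfl⟩ := Option.map_eq_some_iff.1 hv
    exact w.2
  · rw [topA_neg R ν (⟨x.1, h⟩, x.2)]
    exact iff_of_false (fun hv => (ν _).2 (hv _ rfl)) h

theorem topA_reach (h : RConn R) (o : Option V) :
    TopAReach (unionF pE pV R ν) o ↔ ∀ v, o = some v → pV v = true := by
  constructor
  · intro ho
    have key : ∀ a b, Relation.EqvGen (fun u v => ∃ x, unionF pE pV R ν x = u ∧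
        unionF pE pV R ν (flp E x) = v) a b →
        ((∀ v, a = some v → pV v = true) ↔ ∀ v, b = some v → pV v = true) := by
      intro a b hab
      induction hab with
      | refl => rfl
      | symm _ _ _ ih => exact ih.symm
      | trans _ _ _ _ _ i1 i2 => exact i1.trans i2
      | rel a b hab =>
        obtain ⟨x, rfl, rfl⟩ := hab
        rw [topA_in, topA_in]
        rfl
    exact (key _ _ ho).1 (by simp)
  · intro ho
    obtain ⟨o', rfl⟩ : ∃ o' : Option {v // pV v = true}, o'.map Subtype.val = o := by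
      cases o with
      | none => exact ⟨none, rfl⟩
      | some v => exact ⟨some ⟨v, ho v rfl⟩, rfl⟩
    obtain ⟨a, rfl⟩ := h.1 o'
    have key : ∀ a b, Relation.EqvGen (fun a b => stem R a = stem R b ∨
        b = (flp _).optionCongr a) a b → Relation.EqvGen (fun u v => ∃ x, unionF pE pV R ν x = u ∧
        unionF pE pV R ν (flp E x) = v) ((stem R a).map Subtype.val)
        ((stem R b).map Subtype.val) := by
      intro a b hab
      induction hab with
      | refl => exact .refl _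
      | symm _ _ _ ih => exact ih.symm
      | trans _ _ _ _ _ i1 i2 => exact .trans _ _ _ i1 i2
      | rel a b hab =>
        rcases hab with e | rfl
        · rw [e]
          exact .refl _
        · cases a with
          | none => exact .refl _
          | some x => exact .rel _ _ ⟨(x.1.1, x.2), topA_pos R ν x, topA_pos R ν (flp _ x)⟩
    exact key none a (h.2 _ _)

theorem topA_exists (G : E × Bool → Option V) : ∃ (pE : E → Bool) (pV : V → Bool)
    (R : {e // pE e = true} × Bool → Option {v // pV v = true})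
    (ν : {e // ¬pE e = true} × Bool → {v // ¬pV v = true}), RConn R ∧ unionF pE pV R ν = G := by
  let pE : E → Bool := fun e => decide (TopAReach G (G (e, true)))
  let pV : V → Bool := fun v => decide (TopAReach G (some v))
  have hE : ∀ x : E × Bool, pE x.1 = true ↔ TopAReach G (G x) := by
    rintro ⟨e, _ | _⟩
    · rw [decide_eq_true_iff]
      exact ⟨fun h => .trans _ _ _ h (.rel _ _ ⟨(e, true), rfl, rfl⟩),
        fun h => .trans _ _ _ h (.rel _ _ ⟨(e, false), rfl, rfl⟩)⟩
    · exact decide_eq_true_iff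
  have h1 : ∀ x : {e // pE e = true} × Bool, ∃ o : Option {v // pV v = true},
      o.map Subtype.val = G (x.1.1, x.2) := by
    intro x
    have := (hE (x.1.1, x.2)).1 x.1.2
    cases hx : G (x.1.1, x.2) with
    | none => exact ⟨none, rfl⟩
    | some v => exact ⟨some ⟨v, decide_eq_true (hx ▸ this)⟩, rfl⟩
  have h2 : ∀ x : {e // ¬pE e = true} × Bool, ∃ w : {v // ¬pV v = true},
      some w.1 = G (x.1.1, x.2) := by
    intro x
    have := mt (hE (x.1.1, x.2)).2 x.1.2
    cases hx : G (x.1.1, x.2) with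
    | none => exact absurd (hx ▸ .refl _) this
    | some v => exact ⟨⟨v, fun h => this (hx ▸ of_decide_eq_true h)⟩, rfl⟩
  choose R hR using h1
  choose ν hν using h2
  refine ⟨pE, pV, R, ν, ?_, funext fun x => ?_⟩
  · have hr : ∀ a, TopAReach G ((stem R a).map Subtype.val) := by
      intro a
      cases stem R a with
      | none => exact .refl _
      | some v => exact of_decide_eq_true v.2
    set C := Relation.EqvGen fun a b => stem R a = stem R b ∨ b = (flp _).optionCongr a
    have step : ∀ x, (∃ a, (stem R a).map Subtype.val = G x ∧ C none a) →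
        ∃ a, (stem R a).map Subtype.val = G (flp E x) ∧ C none a := by
      rintro x ⟨a, ha, hc⟩
      have hx := (hE x).2 (ha ▸ hr a)
      refine ⟨some (flp _ (⟨x.1, hx⟩, x.2)), hR _, .trans _ _ _ hc
        (.trans _ (some (⟨x.1, hx⟩, x.2)) _ (.rel _ _ (Or.inl ?_)) (.rel _ _ (Or.inr rfl)))⟩
      exact Option.map_injective Subtype.val_injective (ha.trans (hR (⟨x.1, hx⟩, x.2)).symm)
    have key : ∀ u w, Relation.EqvGen (fun u v => ∃ x, G x = u ∧ G (flp E x) = v) u w →
        ((∃ a, (stem R a).map Subtype.val = u ∧ C none a) ↔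
          ∃ a, (stem R a).map Subtype.val = w ∧ C none a) := by
      intro u w huw
      induction huw with
      | refl => rfl
      | symm _ _ _ ih => exact ih.symm
      | trans _ _ _ _ _ i1 i2 => exact i1.trans i2
      | rel u w huw =>
        obtain ⟨x, rfl, rfl⟩ := huw
        refine ⟨step x, fun h => ?_⟩
        have := step _ h
        rwa [topA_flp_flp] at this
    have key' : ∀ o, TopAReach G o → ∃ a, (stem R a).map Subtype.val = o ∧ C none a :=
      fun o ho => (key _ _ ho).1 ⟨none, rfl, .refl _⟩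
    have hC : ∀ a, C none a := fun a => by
      obtain ⟨b, hb, hc⟩ := key' _ (hr a)
      exact .trans _ _ _ hc (.rel _ _ (Or.inl (Option.map_injective Subtype.val_injective hb)))
    refine ⟨fun o => ?_, fun a b => .trans _ _ _ (hC a).symm (hC b)⟩
    cases o with
    | none => exact ⟨none, rfl⟩
    | some v =>
      obtain ⟨a, ha, -⟩ := key' (some v.1) (of_decide_eq_true v.2)
      exact ⟨a, Option.map_injective Subtype.val_injective ha⟩
  · by_cases h : pE x.1 = true
    · exact (topA_pos R ν (⟨x.1, h⟩, x.2)).trans (hR _)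
    · exact (topA_neg R ν (⟨x.1, h⟩, x.2)).trans (hν _)

theorem topA_unique {qE : E → Bool} {qV : V → Bool}
    {S : {e // qE e = true} × Bool → Option {v // qV v = true}}
    {μ : {e // ¬qE e = true} × Bool → {v // ¬qV v = true}} (h : RConn R) (h' : RConn S)
    (e : unionF pE pV R ν = unionF qE qV S μ) : pE = qE ∧ pV = qV := by
  refine ⟨funext fun a => Bool.eq_iff_iff.2 ?_, funext fun v => Bool.eq_iff_iff.2 ?_⟩
  · rw [← topA_in (R := R) (ν := ν) (a, true), ← topA_in (R := S) (ν := μ) (a, true),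
      ← topA_reach (ν := ν) h, ← topA_reach (ν := μ) h', e]
  · have h1 := topA_reach (ν := ν) h (some v)
    have h2 := topA_reach (ν := μ) h' (some v)
    rw [e, h2] at h1
    simpa using h1.symm

theorem topA_one [Fintype E] [Fintype V] [DecidableEq E] [DecidableEq V]
    (G : E × Bool → Option V) :
    ∑ pE : E → Bool, ∑ pV : V → Bool,
      ∑ R : {e // pE e = true} × Bool → Option {v // pV v = true},
        ∑ ν : {e // ¬pE e = true} × Bool → {v // ¬pV v = true},
          ind (RConn R) * ind (unionF pE pV R ν = G) = 1 := by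
  obtain ⟨pE, pV, R, ν, h, rfl⟩ := topA_exists G
  have z : ∀ p q : Prop, ¬(p ∧ q) → ind p * ind q = 0 := by
    intro p q hpq
    by_cases hp : p
    · rw [ind.eq_1 q, if_neg fun hq => hpq ⟨hp, hq⟩, mul_zero]
    · rw [ind.eq_1 p, if_neg hp, zero_mul]
  rw [Finset.sum_eq_single_of_mem pE (Finset.mem_univ _) fun qE _ hq =>
      Finset.sum_eq_zero fun _ _ => Finset.sum_eq_zero fun _ _ => Finset.sum_eq_zero fun _ _ =>
        z _ _ fun h' => hq (topA_unique h'.1 h h'.2).1,
    Finset.sum_eq_single_of_mem pV (Finset.mem_univ _) fun qV _ hq =>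
      Finset.sum_eq_zero fun _ _ => Finset.sum_eq_zero fun _ _ =>
        z _ _ fun h' => hq (topA_unique h'.1 h h'.2).2,
    Finset.sum_eq_single_of_mem R (Finset.mem_univ _) fun S _ hq =>
      Finset.sum_eq_zero fun _ _ => z _ _ fun h' => hq (topA_inj h'.2).1,
    Finset.sum_eq_single_of_mem ν (Finset.mem_univ _) fun μ _ hq =>
      z _ _ fun h' => hq (topA_inj h'.2).2]
  simp [ind, h]

theorem topA_comps [Finite E] [Finite V] {μ : E × Bool → V} {σ : Equiv.Perm (E × Bool)}
    (h : IsRot μ σ) : comps μ = ncomp σ (flp E) + (Set.range μ)ᶜ.ncard := by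
  have e : ncomp σ (flp E) + (Set.range μ)ᶜ.ncard = Nat.card
      ((Quot fun a b => b = σ a ∨ b = flp E a) ⊕ {v // v ∉ Set.range μ}) := by
    rw [Nat.card_sum]; rfl
  rw [e]
  apply le_antisymm
  · refine Nat.card_le_card_of_surjective (Sum.elim (Quot.lift
      (fun x => Quot.mk (fun u v => ∃ x, μ x = u ∧ μ (flp E x) = v) (μ x)) ?_)
        fun v => Quot.mk _ v.1) ?_
    · rintro a _ (rfl | rfl)
      · rw [(h _ _).1 Equiv.Perm.SameCycle.rfl.apply_right]
      · exact Quot.sound ⟨a, rfl, rfl⟩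
    · rintro ⟨v⟩
      by_cases hv : v ∈ Set.range μ
      · obtain ⟨x, rfl⟩ := hv
        exact ⟨Sum.inl (Quot.mk _ x), rfl⟩
      · exact ⟨Sum.inr ⟨v, hv⟩, rfl⟩
  · let g : V → (Quot fun a b => b = σ a ∨ b = flp E a) ⊕ {v // v ∉ Set.range μ} := fun v =>
      if hv : v ∈ Set.range μ then Sum.inl (Quot.mk _ hv.choose) else Sum.inr ⟨v, hv⟩
    have hg : ∀ x, g (μ x) = Sum.inl (Quot.mk _ x) := fun x => by
      have hx : μ x ∈ Set.range μ := ⟨x, rfl⟩
      refine (dif_pos hx).trans (congrArg Sum.inl ?_)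
      exact permB_sc ((h _ _).2 hx.choose_spec) (fun z => Quot.mk _ hx.choose = Quot.mk _ z) rfl
        fun z hz => hz.trans (Quot.sound (Or.inl rfl))
    refine Nat.card_le_card_of_surjective (Quot.lift g ?_) ?_
    · rintro _ _ ⟨x, rfl, rfl⟩
      rw [hg, hg]
      exact congrArg Sum.inl (Quot.sound (Or.inr rfl))
    · rintro (x | v)
      · obtain ⟨x, rfl⟩ := Quot.exists_rep x
        exact ⟨Quot.mk _ (μ x), hg x⟩
      · exact ⟨Quot.mk _ v.1, dif_neg v.2⟩

theorem topA_planarU [Finite E] [Finite V] (μ : E × Bool → V) : PlanarU μ ↔ ∃ σ, IsRot μ σ ∧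
    ncyc σ + ncyc (flp E) + ncyc (σ * flp E) = Nat.card (E × Bool) + 2 * ncomp σ (flp E) := by
  refine exists_congr fun σ => and_congr_right fun h => ?_
  have e1 := Set.ncard_add_ncard_compl (Set.range μ)
  have e2 : Nat.card (E × Bool) = Nat.card E * 2 := by simp
  rw [topA_comps h, ncyc_of_isRot h, ncyc_flp, e2]
  omega

end

theorem comp_sum (Ψ : RFun) (hΨ : RInv Ψ) :
    ∑' G : RG, wt G.1 G.2.1 * Ψ _ _ G.2.2 =
      ∑' R : RG, ∑' ν : UG, wt R.1 R.2.1 * ind (RConn R.2.2) * wt ν.1 ν.2.1 *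
        Ψ _ _ (union R.2.2 ν.2.2) := by
  refine Eq.trans ?_ (union_LP Ψ hΨ (fun _ _ _ _ R => ind (RConn R))
    fun _ _ _ _ _ _ _ _ u e _ _ h => congrArg ind (propext (rconn_congr u e h))).symm
  refine tsum_congr fun G => ?_
  rw [topA_one, mul_one]

section
variable {E₁ V₁ E₂ V₂ : Type} [Finite E₁] [Finite V₁] [Finite E₂] [Finite V₂]
  {R : E₁ × Bool → Option V₁} {ν : E₂ × Bool → V₂}

omit [Finite E₁] [Finite V₁] [Finite E₂] [Finite V₂] in
theorem topA_l (x y : E₁ × Bool) :
    R x = R y ↔ union R ν (Sum.inl x.1, x.2) = union R ν (Sum.inl y.1, y.2) :=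
  (Option.map_injective Sum.inl_injective).eq_iff.symm

omit [Finite E₁] [Finite V₁] [Finite E₂] [Finite V₂] in
theorem topA_r (x y : E₂ × Bool) :
    ν x = ν y ↔ union R ν (Sum.inr x.1, x.2) = union R ν (Sum.inr y.1, y.2) :=
  ((Option.some_injective _).comp Sum.inr_injective).eq_iff.symm

omit [Finite E₁] [Finite V₁] [Finite E₂] [Finite V₂] in
theorem topA_lr (x : E₁ × Bool) (y : E₂ × Bool) :
    union R ν (Sum.inl x.1, x.2) ≠ union R ν (Sum.inr y.1, y.2) := by
  change (R x).map Sum.inl ≠ some (Sum.inr (ν y))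
  cases R x <;> simp

theorem topA_embS (h : RConn R) : embS R ≠ 0 ↔ PlanarU R := by
  rw [topA_planarU]
  constructor
  · intro h0
    obtain ⟨⟨σ, hσ, h1⟩⟩ := (Nat.card_ne_zero.1 h0).1
    refine sub_planar (ν := stem R) (σ := σ) (α := (flp E₁).optionCongr) ?_ topA_flp_flp
      Function.Embedding.some (fun _ => Or.inr rfl) (fun _ _ => Iff.rfl) hσ ?_
    · rintro (_ | x)
      · rfl
      · exact congrArg some (topA_flp_flp x)
    · rw [(ncomp_eq_one_iff _ _).2 ⟨inferInstance, (conn_iff_trans2 hσ _).1 h.2⟩]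
      exact h1
  · rintro ⟨σ, hσ, h1⟩
    rcases Nat.eq_zero_or_pos (deg R none) with h0 | h0
    · obtain ⟨i1, i2⟩ := h.isEmpty h0
      exact ne_of_eq_of_ne ((embS_congr (E := Fin 0) (V := Fin 0) (R := triv.2.2)
        ⟨Equiv.equivOfIsEmpty _ _, fun x => x.1.elim0⟩ (Equiv.equivOfIsEmpty _ _)
        fun x => x.1.elim0).trans rconn_triv.2.1) one_ne_zero
    · rw [embS_eq h0]
      refine mul_ne_zero h0.ne' (Nat.card_ne_zero.2 ⟨⟨σ, hσ, ?_⟩, inferInstance⟩)
      obtain ⟨⟨x, -⟩⟩ := (Nat.card_ne_zero.1 h0.ne').1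
      rw [(ncomp_eq_one_iff _ _).2 ⟨⟨x⟩, (conn_iff_trans2 hσ _).1 ((rconn_iff h0).1 h).2⟩] at h1
      exact h1

theorem planarU_union (h : RConn R) : PlanarU (union R ν) ↔ embS R ≠ 0 ∧ PlanarU ν := by
  rw [topA_embS h, topA_planarU, topA_planarU, topA_planarU]
  let e := (Equiv.sumProdDistrib E₁ E₂ Bool).symm
  let j₁ : E₁ × Bool ↪ (E₁ ⊕ E₂) × Bool := Function.Embedding.inl.trans e.toEmbedding
  let j₂ : E₂ × Bool ↪ (E₁ ⊕ E₂) × Bool := Function.Embedding.inr.trans e.toEmbedding
  constructor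
  · rintro ⟨σ, hσ, h0⟩
    exact ⟨sub_planar topA_flp_flp topA_flp_flp j₁ (fun _ => Or.inr rfl) topA_l hσ h0,
      sub_planar topA_flp_flp topA_flp_flp j₂ (fun _ => Or.inr rfl) topA_r hσ h0⟩
  · rintro ⟨⟨σ₁, h₁, e₁⟩, σ₂, h₂, e₂⟩
    have hf : flp (E₁ ⊕ E₂) = e.permCongr (Equiv.Perm.sumCongr (flp E₁) (flp E₂)) := by
      refine Equiv.ext ?_
      rintro ⟨a | a, b⟩ <;> rfl
    set σ := e.permCongr (Equiv.Perm.sumCongr σ₁ σ₂) with hσ
    have s1 : ∀ x, σ (j₁ x) = j₁ (σ₁ x) := fun _ => rfl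
    have s2 : ∀ x, σ (j₂ x) = j₂ (σ₂ x) := fun _ => rfl
    have s3 : ∀ x y, ¬σ.SameCycle (j₁ x) (j₂ y) := fun x y hc => by
      obtain ⟨z, hz⟩ := permB_sc hc (fun w => ∃ z, j₁ z = w) ⟨x, rfl⟩ (by
        rintro _ ⟨z, rfl⟩
        exact ⟨σ₁ z, rfl⟩)
      exact Sum.inl_ne_inr (congrArg Prod.fst hz)
    refine ⟨σ, ?_, le_antisymm (euler_le _ _) ?_⟩
    · rintro ⟨a | a, b⟩ ⟨a' | a', b'⟩
      · exact (permD_same j₁ s1 (a, b) (a', b')).symm.trans ((h₁ _ _).trans (topA_l _ _))
      · exact iff_of_false (s3 (a, b) (a', b')) (topA_lr (a, b) (a', b'))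
      · exact iff_of_false (fun hc => s3 (a', b') (a, b) hc.symm) (topA_lr (a', b') (a, b)).symm
      · exact (permD_same j₂ s2 (a, b) (a', b')).symm.trans ((h₂ _ _).trans (topA_r _ _))
    · have c1 : ncomp σ (flp _) ≤ ncomp σ₁ (flp _) + ncomp σ₂ (flp _) := by
        unfold ncomp
        rw [← Nat.card_sum]
        refine Nat.card_le_card_of_surjective
          (Sum.elim (Quot.map j₁ ?_) (Quot.map j₂ ?_)) ?_
        · rintro a _ (rfl | rfl)
          · exact Or.inl rfl
          · exact Or.inr rfl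
        · rintro a _ (rfl | rfl)
          · exact Or.inl rfl
          · exact Or.inr rfl
        · rintro ⟨a | a, b⟩
          · exact ⟨Sum.inl (Quot.mk _ (a, b)), rfl⟩
          · exact ⟨Sum.inr (Quot.mk _ (a, b)), rfl⟩
      have c2 : σ * flp _ = e.permCongr (Equiv.Perm.sumCongr (σ₁ * flp _) (σ₂ * flp _)) := by
        refine Equiv.ext ?_
        rintro ⟨a | a, b⟩ <;> rfl
      have c3 : ncyc (flp (E₁ ⊕ E₂)) = ncyc (flp E₁) + ncyc (flp E₂) := by
        rw [hf, ncyc_permCongr, ncyc_sumCongr]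
      rw [c2, c3, hσ, ncyc_permCongr, ncyc_permCongr, ncyc_sumCongr, ncyc_sumCongr,
        ← Nat.card_congr e, Nat.card_sum]
      rw [hσ] at c1
      omega

theorem simple_union : Simple (union R ν) ↔ Simple R ∧ Simple ν := by
  constructor
  · rintro ⟨h1, h2⟩
    refine ⟨⟨fun x e => h1 (Sum.inl x.1, x.2) ((topA_l _ _).1 e), fun x y e e' => ?_⟩,
      fun x e => h1 (Sum.inr x.1, x.2) ((topA_r _ _).1 e), fun x y e e' => ?_⟩
    · have := h2 (Sum.inl x.1, x.2) (Sum.inl y.1, y.2) ((topA_l _ _).1 e) ((topA_l _ _).1 e')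
      exact Prod.ext (Sum.inl_injective (congrArg Prod.fst this)) (Prod.ext_iff.1 this).2
    · have := h2 (Sum.inr x.1, x.2) (Sum.inr y.1, y.2) ((topA_r _ _).1 e) ((topA_r _ _).1 e')
      exact Prod.ext (Sum.inr_injective (congrArg Prod.fst this)) (Prod.ext_iff.1 this).2
  · rintro ⟨⟨h1, h2⟩, h3, h4⟩
    constructor
    · rintro ⟨a | a, b⟩ e
      · exact h1 (a, b) ((topA_l (flp _ (a, b)) (a, b)).2 e)
      · exact h3 (a, b) ((topA_r (flp _ (a, b)) (a, b)).2 e)
    · rintro ⟨a | a, b⟩ ⟨a' | a', b'⟩ e e'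
      · obtain ⟨rfl, rfl⟩ := Prod.ext_iff.1 (h2 (a, b) (a', b') ((topA_l _ _).2 e)
          ((topA_l (flp _ (a, b)) (flp _ (a', b'))).2 e'))
        rfl
      · exact absurd e (topA_lr (a, b) (a', b'))
      · exact absurd e (topA_lr (a', b') (a, b)).symm
      · obtain ⟨rfl, rfl⟩ := Prod.ext_iff.1 (h4 (a, b) (a', b') ((topA_r _ _).2 e)
          ((topA_r (flp _ (a, b)) (flp _ (a', b'))).2 e'))
        rfl

end

end Pool.Agent.Lib.MP_77dff5_pr
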