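import Pool.Agent.Lib.MP_77dff5_pr.PartA
import Pool.Agent.Lib.MP_77dff5_pr.PermD
import Pool.Agent.Lib.MP_77dff5_pr.TopA

/-! Planar graphs are sparse. -/

set_option autoImplicit false

namespace Pool.Agent.Lib.MP_77dff5_pr

open scoped ENNReal NNReal Classical

variable {x : ℝ≥0∞}

/-- cycles have length at least three unless the square fixes their points -/
theorem partB_three {D : Type} [Finite D] (π : Equiv.Perm D) :
    3 * ncyc π ≤ Nat.card D + 3 * Nat.card {z // π (π z) = z} := by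
  let f : Fin 3 × Quotient (Equiv.Perm.SameCycle.setoid π) → D ⊕ Fin 3 × {z // π (π z) = z} :=
    fun p => if h : π (π p.2.out) = p.2.out then Sum.inr (p.1, ⟨p.2.out, h⟩)
      else Sum.inl ((π ^ p.1.val) p.2.out)
  have hf : Function.Injective f := by
    rintro ⟨i, a⟩ ⟨j, b⟩ e
    simp only [f] at e
    by_cases ha : π (π a.out) = a.out <;> by_cases hb : π (π b.out) = b.out
    · rw [dif_pos ha, dif_pos hb] at e
      have e1 := Sum.inr_injective e
      have e2 : a.out = b.out := congrArg (fun p : Fin 3 × {z // π (π z) = z} => p.2.1) e1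
      exact Prod.ext (Prod.ext_iff.1 e1).1 (Quotient.out_injective e2)
    · rw [dif_pos ha, dif_neg hb] at e
      exact absurd e Sum.inr_ne_inl
    · rw [dif_neg ha, dif_pos hb] at e
      exact absurd e Sum.inl_ne_inr
    · rw [dif_neg ha, dif_neg hb] at e
      have e1 := Sum.inl_injective e
      have hab : a = b := by
        rw [← a.out_eq, ← b.out_eq]
        refine Quotient.sound ?_
        have h1 : π.SameCycle a.out ((π ^ i.val) a.out) := ⟨(i.val : ℤ), by rw [zpow_natCast]⟩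
        have h2 : π.SameCycle b.out ((π ^ j.val) b.out) := ⟨(j.val : ℤ), by rw [zpow_natCast]⟩
        rw [← e1] at h2
        exact h1.trans h2.symm
      subst hab
      have h1 : π a.out ≠ a.out := fun h => ha (by rw [h, h])
      have h2 : π (π a.out) ≠ π a.out := fun h => h1 (π.injective h)
      refine Prod.ext ?_ rfl
      fin_cases i <;> fin_cases j <;>
        simp only [pow_succ, pow_zero, Equiv.Perm.mul_apply, Equiv.Perm.one_apply] at e1 <;>
        first
          | rfl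
          | exact absurd e1 ha
          | exact absurd e1.symm ha
          | exact absurd e1 h1
          | exact absurd e1.symm h1
          | exact absurd e1 h2
          | exact absurd e1.symm h2
  have h := Nat.card_le_card_of_injective f hf
  rw [Nat.card_prod, Nat.card_sum, Nat.card_prod, Nat.card_fin] at h
  exact h

theorem partB_card {E V : Type} [Finite E] [Finite V] {ν : E × Bool → V} (hs : Simple ν)
    {σ : Equiv.Perm (E × Bool)} (hσ : IsRot ν σ)
    (h0 : ncyc σ + ncyc (flp E) + ncyc (σ * flp E) = Nat.card (E × Bool) + 2 * ncomp σ (flp E)) :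
    Nat.card E ≤ 3 * Nat.card V := by
  have hν : ∀ z, ν (σ z) = ν z := fun z => ((hσ z (σ z)).1 ⟨1, by rw [zpow_one]⟩).symm
  have key : ∀ z, (σ * flp E) ((σ * flp E) z) = z → σ z = z ∧ σ (flp E z) = flp E z := by
    intro z hz
    simp only [Equiv.Perm.mul_apply] at hz
    have a1 : z = flp E (σ (flp E z)) := by
      refine hs.2 _ _ ?_ ?_
      · rw [← hν (flp E (σ (flp E z))), hz]
      · rw [rootA_flp_flp, hν]
    refine ⟨by rwa [← a1] at hz, ?_⟩
    rw [← rootA_flp_flp (σ (flp E z)), ← a1]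
  have h1 : Nat.card {z // (σ * flp E) ((σ * flp E) z) = z} ≤ ncomp σ (flp E) * 2 := by
    have hc : Nat.card ((Quot fun a b : E × Bool => b = σ a ∨ b = flp E a) × Bool) =
        ncomp σ (flp E) * 2 := by
      rw [Nat.card_prod, Nat.card_eq_fintype_card (α := Bool), Fintype.card_bool]
      rfl
    rw [← hc]
    refine Nat.card_le_card_of_injective (fun z => (Quot.mk _ z.1, z.1.2)) ?_
    rintro ⟨a, ha⟩ ⟨b, hb⟩ e
    obtain ⟨a2, a3⟩ := key a ha
    have e1 := Quot.eqvGen_exact (congrArg Prod.fst e)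
    have e2 : a.2 = b.2 := (Prod.ext_iff.1 e).2
    have a4 : ∀ y : E × Bool, y.1 = a.1 → σ y = y := fun y hy => by
      rcases netA_eq_or_flp hy with rfl | rfl
      · exact a2
      · exact a3
    have e3 : b.1 = a.1 := by
      refine (rootA_eqv_inv (fun y : E × Bool => y.1 = a.1) (fun u v huv => ?_) e1).1 rfl
      rcases huv with rfl | rfl
      · refine ⟨fun hu => by rw [a4 u hu, hu], fun hu => ?_⟩
        rw [← σ.injective (a4 _ hu), hu]
      · exact Iff.rfl
    exact Subtype.ext (Prod.ext e3.symm e2)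
  have h2 := partB_three (σ * flp E)
  have h3 := ncyc_of_isRot hσ
  have h4 : (Set.range ν).ncard ≤ Nat.card V := Set.ncard_le_card _
  rw [ncyc_flp] at h0
  rw [rootA_card_dart] at h0 h2
  omega

theorem PlanarU.card_le {E V : Type} [Finite E] [Finite V] {ν : E × Bool → V} (hs : Simple ν)
    (hp : PlanarU ν) : Nat.card E ≤ 3 * Nat.card V := by
  obtain ⟨σ, hσ, h0⟩ := (topA_planarU ν).1 hp
  exact partB_card hs hσ h0

theorem partB_ind {p : Prop} (h : ind p ≠ 0) : p := by
  by_contra hp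
  exact h (if_neg hp)

theorem partB_rooted {R : RG} (h : RConn R.2.2 ∧ Simple R.2.2 ∧ embS R.2.2 ≠ 0) :
    R.1 ≤ 3 * (R.2.1 + 1) := by
  have h1 := PlanarU.card_le h.2.1 ((topA_embS h.1).1 h.2.2)
  rwa [Finite.card_option, Nat.card_fin, Nat.card_fin] at h1

theorem wC_supp {R : RG} (h : wC x R ≠ 0) : R.1 ≤ 3 * (R.2.1 + 1) :=
  partB_rooted (partB_ind (right_ne_zero_of_mul (left_ne_zero_of_mul h)))

theorem partB_net {E V : Type} [Finite E] [Finite V] {N : E × Bool → Bool ⊕ V} (h : IsNet N)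
    (hs : Simple N) (hp : emb (clo N) (flp _) ≠ 0) : Nat.card E ≤ 3 * (Nat.card V + 2) := by
  obtain ⟨⟨σ, hσ, h0⟩⟩ := (Nat.card_ne_zero.1 hp).1
  have h1 := (ncomp_eq_one_iff σ (flp _)).2 ⟨inferInstance, (conn_iff_trans2 hσ _).1 h.sconn.2⟩
  obtain ⟨τ, hτ, h2⟩ := sub_planar (ν := clo N) (ν' := N) (α := flp _) (α' := flp E)
    rootA_flp_flp rootA_flp_flp
    (Function.Embedding.some.prodMap (Function.Embedding.refl Bool)) (fun _ => Or.inr rfl)
    (fun _ _ => Iff.rfl) hσ (by rw [h1]; exact h0)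
  have h3 := partB_card hs hτ h2
  rwa [netA_card_verts] at h3

theorem partB_cls {P : NG → Prop} {ω : Om} (h : clsB (wC x) P ω ≠ 0) :
    ne ω ≤ 6 * (sB ω + 1) ∧ nv ω ≤ sB ω := by
  rcases ω with R | D | ν
  · exact absurd rfl h
  · refine ⟨?_, le_rfl⟩
    change wNB P D.1 * (∏ z, wTriv 1 (D.2.1 z)) * ∏ v, wC x (D.2.2 v) ≠ 0 at h
    have h1 := partB_ind (right_ne_zero_of_mul (left_ne_zero_of_mul (left_ne_zero_of_mul h)))
    have h2 : ∀ z, D.2.1 z = triv := fun z => partB_ind (left_ne_zero_of_mul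
      (Finset.prod_ne_zero_iff.1 (right_ne_zero_of_mul (left_ne_zero_of_mul h)) z
        (Finset.mem_univ _)))
    have h3 : ∀ v, (D.2.2 v).1 ≤ 3 * ((D.2.2 v).2.1 + 1) := fun v =>
      wC_supp (Finset.prod_ne_zero_iff.1 (right_ne_zero_of_mul h) v (Finset.mem_univ _))
    have h4 := partB_net h1.1 h1.2.2.1 h1.2.2.2
    rw [Nat.card_fin, Nat.card_fin] at h4
    have h5 : ∑ z, (D.2.1 z).1 = 0 := Finset.sum_eq_zero fun z _ => by rw [h2 z]; rfl
    have h6 : ∑ v, (D.2.2 v).1 ≤ 3 * (∑ v, (D.2.2 v).2.1 + D.1.2.1) := by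
      refine (Finset.sum_le_sum fun v _ => h3 v).trans (le_of_eq ?_)
      rw [← Finset.mul_sum, Finset.sum_add_distrib]
      simp
    change D.1.1 + ∑ z, (D.2.1 z).1 + ∑ v, (D.2.2 v).1 ≤
      6 * (D.1.2.1 + ∑ z, (D.2.1 z).2.1 + ∑ v, (D.2.2 v).2.1 + 1)
    omega
  · exact absurd rfl h

theorem ne_le_B (j : JB) {ω : Om} (h : wgB (wC x) x j ω ≠ 0) :
    ne ω ≤ 6 * (sB ω + 1) ∧ nv ω ≤ sB ω := by
  cases j with
  | C =>
    rcases ω with R | D | ν
    · have h1 : R.1 ≤ 3 * (R.2.1 + 1) := wC_supp h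
      change R.1 ≤ 6 * (R.2.1 + 1 + 1) ∧ R.2.1 ≤ R.2.1 + 1
      omega
    · exact absurd rfl h
    · exact absurd rfl h
  | D => exact partB_cls h
  | nS => exact partB_cls h
  | J => exact partB_cls h
  | Dt => exact partB_cls h
  | G =>
    rcases ω with R | D | ν
    · exact absurd rfl h
    · exact absurd rfl h
    · change wG x ν ≠ 0 at h
      have h1 := partB_ind (right_ne_zero_of_mul (left_ne_zero_of_mul h))
      have h2 := PlanarU.card_le h1.1 h1.2
      rw [Nat.card_fin, Nat.card_fin] at h2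
      change ν.1 ≤ 6 * (ν.2.1 + 1) ∧ ν.2.1 ≤ ν.2.1
      omega

theorem wC_le_wM (x y : ℝ≥0∞) (hy : y ≤ 1) (R : RG) :
    wC (x * y ^ 3) R ≤ x * wM x y R := by
  by_cases h : RConn R.2.2 ∧ Simple R.2.2 ∧ embS R.2.2 ≠ 0
  · have h1 : y ^ (3 * (R.2.1 + 1)) ≤ y ^ R.1 := pow_le_pow_of_le_one zero_le hy (partB_rooted h)
    have h2 : (1 : ℝ≥0∞) ≤ embS R.2.2 := by exact_mod_cast Nat.one_le_iff_ne_zero.2 h.2.2
    unfold wC wM w0 ind
    rw [if_pos h, if_pos h.1, mul_pow, ← pow_mul]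
    calc wt R.1 R.2.1 * 1 * (x ^ (R.2.1 + 1) * y ^ (3 * (R.2.1 + 1)))
        = x * (wt R.1 R.2.1 * 1 * 1 * x ^ R.2.1 * y ^ (3 * (R.2.1 + 1))) := by ring
      _ ≤ x * (wt R.1 R.2.1 * 1 * embS R.2.2 * x ^ R.2.1 * y ^ R.1) := by gcongr
  · unfold wC ind
    rw [if_neg h, mul_zero, zero_mul]
    exact zero_le

end Pool.Agent.Lib.MP_77dff5_pr
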