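import Pool.Agent.Lib.MP_77dff5_pr.BMass
import Pool.Agent.Lib.MP_77dff5_pr.PartB
import Pool.Agent.Lib.MP_77dff5_pr.LinA
import Pool.Agent.Lib.MP_77dff5_pr.AMass

/-! The critical weight per vertex for planar graphs. -/

set_option autoImplicit false

namespace Pool.Agent.Lib.MP_77dff5_pr

open MeasureTheory ProbabilityTheory Filter Topology
open scoped ENNReal NNReal

variable {w : ℝ}

/-- rooted connected graphs with at most `N` vertices -/
noncomputable def wCN (x : ℝ) (N : ℕ) (R : RG) : ℝ≥0∞ :=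
  wC (ENNReal.ofReal x) R * ind (R.2.1 + 1 ≤ N)

theorem crit2_pos {p : Prop} (h : p) : ind p = 1 := if_pos h

theorem crit2_neg {p : Prop} (h : ¬p) : ind p = 0 := if_neg h

theorem crit2_real {x τ Tz Tx : ℝ} (hx : 0 < x) (hτ : 1 ≤ τ) (hxτ : x * τ ≤ 1 / 4) (hz : 0 ≤ Tz)
    (hTx : 0 ≤ Tx) (h1 : x * Tx ≤ τ * Tz)
    (h2 : (1 + τ) ^ 2 * ((2 * x * τ + x ^ 2 * τ ^ 2) / (1 + x * τ) ^ 2 + 2 * Tz) < 1) :
    ∃ K : ℝ, ∀ uC uD uS uJ uT sU hU : ℝ,
      sU = x * τ * uS + x * (τ / (1 + x * τ)) * uD + τ / (1 + x * τ) * τ * uC →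
      hU = Tz * uD + Tx * uC →
      uC ≤ x + (x * ((1 + τ) / 2) * uC + x ^ 2 * uT / 2) → uD ≤ sU + τ * uJ + hU →
      uS ≤ τ * uJ + hU → uJ ≤ sU + hU → uT ≤ sU + ((1 + τ) / 2 - 1) * uJ + hU →
      uC ≤ K ∧ uD ≤ K ∧ uS ≤ K ∧ uJ ≤ K ∧ uT ≤ K := by
  obtain ⟨c, d, ns, j, dt, s, h, hc, hd, hns, hj, hdt, hs, hh, g1, g2, g3, g4, g5⟩ :=
    lyapB_real hx hτ hxτ hz hTx h1 h2
  have hγ : 0 < c - (x * ((1 + τ) / 2) * c + x ^ 2 * dt / 2) := by linarith
  refine ⟨x / (c - (x * ((1 + τ) / 2) * c + x ^ 2 * dt / 2)) * (c + d + ns + j + dt), ?_⟩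
  intro uC uD uS uJ uT sU hU es eh i1 i2 i3 i4 i5
  obtain ⟨l, l1, l2, l3, l4, l5, l6⟩ : ∃ l : ℝ, uC ≤ l * c ∧ uD ≤ l * d ∧ uS ≤ l * ns ∧
      uJ ≤ l * j ∧ uT ≤ l * dt ∧
      (uC = l * c ∨ uD = l * d ∨ uS = l * ns ∨ uJ = l * j ∨ uT = l * dt) := by
    refine ⟨max (uC / c) (max (uD / d) (max (uS / ns) (max (uJ / j) (uT / dt)))),
      (div_le_iff₀ hc).1 (le_max_left _ _),
      (div_le_iff₀ hd).1 (le_max_of_le_right (le_max_left _ _)),
      (div_le_iff₀ hns).1 (le_max_of_le_right (le_max_of_le_right (le_max_left _ _))),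
      (div_le_iff₀ hj).1
        (le_max_of_le_right (le_max_of_le_right (le_max_of_le_right (le_max_left _ _)))),
      (div_le_iff₀ hdt).1
        (le_max_of_le_right (le_max_of_le_right (le_max_of_le_right (le_max_right _ _)))), ?_⟩
    rcases max_choice (uC / c) (max (uD / d) (max (uS / ns) (max (uJ / j) (uT / dt)))) with e | e
    · left; rw [e, div_mul_cancel₀ _ hc.ne']
    right; rw [e]
    rcases max_choice (uD / d) (max (uS / ns) (max (uJ / j) (uT / dt))) with e | e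
    · left; rw [e, div_mul_cancel₀ _ hd.ne']
    right; rw [e]
    rcases max_choice (uS / ns) (max (uJ / j) (uT / dt)) with e | e
    · left; rw [e, div_mul_cancel₀ _ hns.ne']
    right; rw [e]
    rcases max_choice (uJ / j) (uT / dt) with e | e
    · left; rw [e, div_mul_cancel₀ _ hj.ne']
    · right; rw [e, div_mul_cancel₀ _ hdt.ne']
  have hτ0 : 0 ≤ τ := by linarith
  have hq : 0 ≤ τ / (1 + x * τ) := by positivity
  have a1 : sU ≤ l * s := by
    rw [es, hs]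
    have b1 := mul_le_mul_of_nonneg_left l3 (mul_nonneg hx.le hτ0)
    have b2 := mul_le_mul_of_nonneg_left l2 (mul_nonneg hx.le hq)
    have b3 := mul_le_mul_of_nonneg_left l1 (mul_nonneg hq hτ0)
    linarith
  have a2 : hU ≤ l * h := by
    rw [eh, hh]
    have b1 := mul_le_mul_of_nonneg_left l2 hz
    have b2 := mul_le_mul_of_nonneg_left l1 hTx
    linarith
  have a3 := mul_le_mul_of_nonneg_left l4 hτ0
  have a4 := mul_le_mul_of_nonneg_left l4 (show 0 ≤ (1 + τ) / 2 - 1 by linarith)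
  have a5 := mul_le_mul_of_nonneg_left l1 (show 0 ≤ x * ((1 + τ) / 2) by positivity)
  have a6 := mul_le_mul_of_nonneg_left l5 (sq_nonneg x)
  have hK0 : 0 ≤ x / (c - (x * ((1 + τ) / 2) * c + x ^ 2 * dt / 2)) := (div_pos hx hγ).le
  have key : l ≤ x / (c - (x * ((1 + τ) / 2) * c + x ^ 2 * dt / 2)) := by
    by_cases hl : l ≤ 0
    · exact hl.trans hK0
    have hl := not_le.1 hl
    rcases l6 with e | e | e | e | e
    · rw [le_div_iff₀ hγ]; linarith
    · have := mul_lt_mul_of_pos_left g2 hl; exfalso; linarith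
    · have := mul_lt_mul_of_pos_left g3 hl; exfalso; linarith
    · have := mul_lt_mul_of_pos_left g4 hl; exfalso; linarith
    · have := mul_lt_mul_of_pos_left g5 hl; exfalso; linarith
  have fin : ∀ u m : ℝ, 0 < m → m ≤ c + d + ns + j + dt → u ≤ l * m →
      u ≤ x / (c - (x * ((1 + τ) / 2) * c + x ^ 2 * dt / 2)) * (c + d + ns + j + dt) :=
    fun u m hm hm' hu => hu.trans (mul_le_mul key hm' hm.le hK0)
  exact ⟨fin _ _ hc (by linarith) l1, fin _ _ hd (by linarith) l2, fin _ _ hns (by linarith) l3,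
    fin _ _ hj (by linarith) l4, fin _ _ hdt (by linarith) l5⟩

/-- truncated size -/
noncomputable def crit2_tr (N : ℕ) (ω : Om) : ℝ≥0∞ := if sB ω ≤ N then (sB ω : ℝ≥0∞) else 0

theorem crit2_mean_le {U : UFam Om JB} {wX : Om → ℝ≥0∞} {wg : JB → Om → ℝ≥0∞} {z : Om → ℝ}
    (h : U.Eqn wX wg sB z) (wg' : JB → Om → ℝ≥0∞) (N : ℕ)
    (hw : ∀ j ω, sB ω ≤ N → wg j ω ≤ wg' j ω) (M u : JB → ℝ≥0∞)
    (hM : ∀ j, ∑' ω, wg' j ω ≤ M j) (hu : ∀ j, ∑' ω, wg' j ω * crit2_tr N ω ≤ u j)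
    (h0 : ∀ t, (U.core t).s0 = 0) :
    ∑' ω, wX ω * crit2_tr N ω ≤ ∑' t, U.w t * ∑ i, u ((U.core t).cls i) *
      ∏ i' ∈ Finset.univ.erase i, M ((U.core t).cls i') := by
  refine (h.mean_le wg' N hw).trans (ENNReal.tsum_le_tsum fun t => mul_le_mul_right ?_ _)
  rw [h0 t, Nat.cast_zero, zero_mul, zero_add]
  exact Finset.sum_le_sum fun i _ => mul_le_mul' (hu _) (Finset.prod_le_prod' fun i' _ => hM _)

theorem crit2_unit (F : Unit → ℝ≥0∞) : ∑' t, F t = F () := by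
  rw [tsum_fintype, Fintype.sum_unique]

theorem crit2_two (F : Fin 2 → ℝ≥0∞) : ∑' t, F t = F 0 + F 1 := by
  rw [tsum_fintype, Fin.sum_univ_two]

theorem crit2_fin2 (a b : Fin 2 → ℝ≥0∞) :
    ∑ i, a i * ∏ i' ∈ Finset.univ.erase i, b i' = a 0 * b 1 + a 1 * b 0 := by
  rw [Fin.sum_univ_two, show Finset.univ.erase (0 : Fin 2) = {1} by decide,
    show Finset.univ.erase (1 : Fin 2) = {0} by decide]
  simp

theorem crit2_fin3 (a b : Fin 3 → ℝ≥0∞) :
    ∑ i, a i * ∏ i' ∈ Finset.univ.erase i, b i' =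
      a 0 * (b 1 * b 2) + a 1 * (b 0 * b 2) + a 2 * (b 0 * b 1) := by
  rw [Fin.sum_univ_three, show Finset.univ.erase (0 : Fin 3) = {1, 2} by decide,
    show Finset.univ.erase (1 : Fin 3) = {0, 2} by decide,
    show Finset.univ.erase (2 : Fin 3) = {0, 1} by decide,
    Finset.prod_pair (by decide), Finset.prod_pair (by decide), Finset.prod_pair (by decide)]

theorem crit2_free (k : ℕ) (a b : ℝ≥0∞) :
    ∑ i : Fin (k + 1), a * ∏ _i' ∈ Finset.univ.erase i, b = (k + 1 : ℕ) * (a * b ^ k) := by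
  simp [Finset.card_erase_of_mem]

theorem crit2_exp_term (k : ℕ) {a b : ℝ} (ha : 0 ≤ a) (hb : 0 ≤ b) :
    (((k + 1).factorial : ℕ) : ℝ≥0∞)⁻¹ *
      ((k + 1 : ℕ) * (ENNReal.ofReal a * ENNReal.ofReal b ^ k)) =
      ENNReal.ofReal (a * (b ^ k / k.factorial)) := by
  have h1 : (0 : ℝ) < ((k + 1).factorial : ℕ) := by exact_mod_cast Nat.factorial_pos _
  have h2 : (0 : ℝ) < (k.factorial : ℕ) := by exact_mod_cast Nat.factorial_pos _
  rw [← ENNReal.ofReal_natCast (k + 1).factorial, ← ENNReal.ofReal_natCast (k + 1),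
    ← ENNReal.ofReal_inv_of_pos h1, ← ENNReal.ofReal_pow hb, ← ENNReal.ofReal_mul ha,
    ← ENNReal.ofReal_mul (Nat.cast_nonneg _), ← ENNReal.ofReal_mul (inv_nonneg.2 h1.le)]
  congr 1
  rw [Nat.factorial_succ]
  push_cast
  field_simp

theorem crit2_hasSum_exp (b : ℝ) : HasSum (fun k : ℕ => b ^ k / k.factorial) (Real.exp b) := by
  rw [Real.exp_eq_exp_ℝ]
  exact NormedSpace.expSeries_div_hasSum_exp b

theorem crit2_tsum_ofReal {T : Type} {f : T → ℝ} {a : ℝ} (h0 : ∀ t, 0 ≤ f t) (h : HasSum f a) :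
    ∑' t, ENNReal.ofReal (f t) = ENNReal.ofReal a := by
  rw [← ENNReal.ofReal_tsum_of_nonneg h0 h.summable, h.tsum_eq]

theorem crit2_erase {I : Type} [Fintype I] [DecidableEq I] (b : I → ℝ≥0∞) (i : I) (h0 : b i ≠ 0)
    (h1 : b i ≠ ⊤) : ∏ i' ∈ Finset.univ.erase i, b i' = (b i)⁻¹ * ∏ i', b i' := by
  rw [← Finset.mul_prod_erase Finset.univ b (Finset.mem_univ i), ← mul_assoc,
    ENNReal.inv_mul_cancel h0 h1, one_mul]

theorem crit2_core (m n : ℕ) (a a' b b' : ℝ≥0∞) (h0 : b ≠ 0) (h1 : b ≠ ⊤) (h0' : b' ≠ 0)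
    (h1' : b' ≠ ⊤) :
    ∑ i : Fin m ⊕ Fin n, Sum.elim (fun _ => a) (fun _ => a') i *
      ∏ i' ∈ Finset.univ.erase i, Sum.elim (fun _ => b) (fun _ => b') i' =
      b' ^ n * b ^ m * (m * (a * b⁻¹) + n * (a' * b'⁻¹)) := by
  rw [Finset.sum_congr rfl fun i _ => by
    rw [crit2_erase _ i (by cases i <;> assumption) (by cases i <;> assumption)]]
  simp only [Fintype.sum_sum_type, Fintype.prod_sum_type, Sum.elim_inl, Sum.elim_inr,
    Finset.prod_const, Finset.sum_const, Finset.card_univ, Fintype.card_fin, nsmul_eq_mul]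
  ring

section fam

variable {wv : RG → ℝ≥0∞} {X : ℝ≥0∞} {N : ℕ} {M u : JB → ℝ≥0∞}

theorem crit2_evc : EvC (fun _ => (0 : ℝ)) 0 := fun _ _ => rfl

theorem crit2_E (hM : ∀ j, ∑' ω, wgB wv X j ω ≤ M j)
    (hu : ∀ j, ∑' ω, wgB wv X j ω * crit2_tr N ω ≤ u j) :
    ∑' ω, lhsB wv X .E ω * crit2_tr N ω ≤ 0 := by
  refine (crit2_mean_le (eqnB_E wv X (fun _ => 0) 0 0 0) _ N (fun _ _ _ => le_rfl) M u hM hu
    fun _ => rfl).trans (le_of_eq ?_)
  refine ENNReal.tsum_eq_zero.2 fun t => ?_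
  exact mul_eq_zero_of_right _ (Finset.sum_of_isEmpty (ι := Empty) _)

theorem crit2_S (hM : ∀ j, ∑' ω, wgB wv X j ω ≤ M j)
    (hu : ∀ j, ∑' ω, wgB wv X j ω * crit2_tr N ω ≤ u j) :
    ∑' ω, lhsB wv X .S ω * crit2_tr N ω ≤
      u .nS * (M .D * M .C) + u .D * (M .nS * M .C) + u .C * (M .nS * M .D) := by
  refine (crit2_mean_le (eqnB_S wv X (fun _ => 0) 0 0 0) _ N (fun _ _ _ => le_rfl) M u hM hu
    fun _ => rfl).trans (le_of_eq ?_)
  refine (crit2_unit _).trans ?_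
  exact (one_mul _).trans
    (crit2_fin3 (fun i => u (![JB.nS, JB.D, JB.C] i)) fun i => M (![JB.nS, JB.D, JB.C] i))

theorem crit2_P0 (hM : ∀ j, ∑' ω, wgB wv X j ω ≤ M j)
    (hu : ∀ j, ∑' ω, wgB wv X j ω * crit2_tr N ω ≤ u j) {a b : ℝ} (ha : 0 ≤ a) (hb : 0 ≤ b)
    (ea : u .J = ENNReal.ofReal a) (eb : M .J = ENNReal.ofReal b) :
    ∑' ω, lhsB wv X .P0 ω * crit2_tr N ω ≤ ENNReal.ofReal (a * (Real.exp b - 1)) := by
  refine (crit2_mean_le (eqnB_P0 wv X (fun _ => 0) 0 0 0) _ N (fun _ _ _ => le_rfl) M u hM hu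
    fun _ => rfl).trans (le_of_eq ?_)
  have h1 : HasSum (fun k : ℕ => b ^ (k + 1) / (k + 1).factorial) (Real.exp b - 1) := by
    simpa using (hasSum_nat_add_iff' 1).2 (crit2_hasSum_exp b)
  rw [← crit2_tsum_ofReal (fun k => by positivity) (h1.mul_left a)]
  refine tsum_congr fun (k : ℕ) => ?_
  rw [← crit2_exp_term (k + 1) ha hb, ← ea, ← eb, ← crit2_free]
  rfl

theorem crit2_P1 (hM : ∀ j, ∑' ω, wgB wv X j ω ≤ M j)
    (hu : ∀ j, ∑' ω, wgB wv X j ω * crit2_tr N ω ≤ u j) {a b : ℝ} (ha : 0 ≤ a) (hb : 0 ≤ b)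
    (ea : u .J = ENNReal.ofReal a) (eb : M .J = ENNReal.ofReal b) :
    ∑' ω, lhsB wv X .P1 ω * crit2_tr N ω ≤ ENNReal.ofReal (a * Real.exp b) := by
  refine (crit2_mean_le (eqnB_P1 wv X (fun _ => 0) 0 0 0) _ N (fun _ _ _ => le_rfl) M u hM hu
    fun _ => rfl).trans (le_of_eq ?_)
  rw [← crit2_tsum_ofReal (fun k => by positivity) ((crit2_hasSum_exp b).mul_left a)]
  refine tsum_congr fun (k : ℕ) => ?_
  rw [← crit2_exp_term k ha hb, ← ea, ← eb, ← crit2_free]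
  rfl

theorem crit2_H (hT : TFacts w) (hx : 0 < xw w) (hτ : 0 < tauw w)
    (hM : ∀ j, ∑' ω, wgB wv X j ω ≤ M j)
    (hu : ∀ j, ∑' ω, wgB wv X j ω * crit2_tr N ω ≤ u j) {a a' : ℝ} (ha : 0 ≤ a) (ha' : 0 ≤ a')
    (ea : u .D = ENNReal.ofReal a) (ea' : u .C = ENNReal.ofReal a')
    (eb : M .D = ENNReal.ofReal (tauw w)) (eb' : M .C = ENNReal.ofReal (xw w)) :
    ∑' ω, lhsB wv X .H ω * crit2_tr N ω ≤ ENNReal.ofReal
      ((∑' t, (wTw w t : ℝ) * posm t) / tauw w * a + (∑' t, (wTw w t : ℝ) * posm t) / xw w * a') := by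
  refine (crit2_mean_le (eqnB_H wv X (fun _ => 0) 0 0 0 crit2_evc) _ N (fun _ _ _ => le_rfl) M u hM
    hu fun _ => rfl).trans ?_
  have hp : ∀ t : TT, 0 ≤ posm t := fun t => Nat.cast_nonneg _
  have h1 := hT.sum1.hasSum.mul_right (a / tauw w + a' / xw w)
  rw [show (∑' t, (wTw w t : ℝ) * posm t) / tauw w * a + (∑' t, (wTw w t : ℝ) * posm t) / xw w * a'
      = (∑' t, (wTw w t : ℝ) * posm t) * (a / tauw w + a' / xw w) by ring,
    ← crit2_tsum_ofReal (fun t => by have := hp t; positivity) h1]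
  refine ENNReal.tsum_le_tsum fun (t : TT) => ?_
  have hb0 : M .D ≠ 0 := by rw [eb]; simpa using hτ
  have hb1 : M .D ≠ ⊤ := by rw [eb]; exact ENNReal.ofReal_ne_top
  have hc0 : M .C ≠ 0 := by rw [eb']; simpa using hx
  have hc1 : M .C ≠ ⊤ := by rw [eb']; exact ENNReal.ofReal_ne_top
  have h2 := crit2_core t.1.1 t.1.2.1 (u .D) (u .C) (M .D) (M .C) hb0 hb1 hc0 hc1
  have h3 : ∑ i : Fin t.1.1 ⊕ Fin t.1.2.1, u (Sum.elim (fun _ => JB.D) (fun _ => JB.C) i) *
      ∏ i' ∈ Finset.univ.erase i, M (Sum.elim (fun _ => JB.D) (fun _ => JB.C) i') =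
      M .C ^ t.1.2.1 * M .D ^ t.1.1 *
        (t.1.1 * (u .D * (M .D)⁻¹) + t.1.2.1 * (u .C * (M .C)⁻¹)) := by
    rw [← h2]
    refine Finset.sum_congr rfl fun i _ => ?_
    congr 1
    · cases i <;> rfl
    · exact Finset.prod_congr rfl fun i' _ => by cases i' <;> rfl
  have h4 : (wTw w t : ℝ≥0∞) = wt t.1.1 t.1.2.1 * (M .C ^ t.1.2.1 * M .D ^ t.1.1) := by
    have hwt : wt t.1.1 t.1.2.1 ≠ ⊤ := by
      unfold wt
      refine ENNReal.inv_ne_top.2 (Nat.cast_ne_zero.2 ?_)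
      positivity
    rw [eb, eb', wTw, wT, ← mul_assoc]
    push_cast
    rw [ENNReal.coe_toNNReal hwt]
    rfl
  have h5 : (t.1.2.1 : ℝ≥0∞) ≤ t.1.1 := by
    have := TT_facts t
    exact Nat.cast_le.2 (by omega)
  calc _ = wt t.1.1 t.1.2.1 * (M .C ^ t.1.2.1 * M .D ^ t.1.1 *
        (t.1.1 * (u .D * (M .D)⁻¹) + t.1.2.1 * (u .C * (M .C)⁻¹))) := by rw [← h3]; rfl
    _ ≤ wt t.1.1 t.1.2.1 * (M .C ^ t.1.2.1 * M .D ^ t.1.1 *
        (t.1.1 * (u .D * (M .D)⁻¹) + t.1.1 * (u .C * (M .C)⁻¹))) := by gcongr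
    _ = wTw w t * t.1.1 * (u .D * (M .D)⁻¹ + u .C * (M .C)⁻¹) := by rw [h4]; ring
    _ = _ := by
      rw [ea, ea', eb, eb', ENNReal.ofReal_mul (mul_nonneg NNReal.zero_le_coe (hp t)),
        ENNReal.ofReal_mul NNReal.zero_le_coe, ENNReal.ofReal_coe_nnreal, posm,
        ENNReal.ofReal_natCast, ENNReal.ofReal_add (by positivity) (by positivity),
        ENNReal.ofReal_div_of_pos hτ, ENNReal.ofReal_div_of_pos hx, div_eq_mul_inv, div_eq_mul_inv]

end fam

theorem crit2_wCN_le (x : ℝ) (N : ℕ) (j : JB) (ω : Om) (h : sB ω ≤ N) :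
    wB x j ω ≤ wgB (wCN x N) (ENNReal.ofReal x) j ω := by
  have hD : ∀ P : NG → Prop, clsB (wC (ENNReal.ofReal x)) P ω ≤ clsB (wCN x N) P ω := by
    intro P
    rcases ω with R | D | ν
    · exact le_rfl
    · refine mul_le_mul_right (Finset.prod_le_prod' fun v _ => le_of_eq ?_) _
      have h1 : (D.2.2 v).2.1 ≤ ∑ v, (D.2.2 v).2.1 :=
        Finset.single_le_sum (f := fun v => (D.2.2 v).2.1) (fun _ _ => Nat.zero_le _)
          (Finset.mem_univ v)
      have h2 := v.pos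
      have h3 : D.1.2.1 + ∑ x, (D.2.1 x).2.1 + ∑ v, (D.2.2 v).2.1 ≤ N := h
      rw [wCN, crit2_pos (by omega), mul_one]
    · exact le_rfl
  cases j
  · rcases ω with R | D | ν
    · exact le_of_eq (by change _ = wCN x N R; rw [wCN, crit2_pos (p := R.2.1 + 1 ≤ N) h, mul_one]; rfl)
    · exact le_rfl
    · exact le_rfl
  · exact hD _
  · exact hD _
  · exact hD _
  · exact hD _
  · exact le_rfl

theorem crit2_R {x : ℝ} {N : ℕ} {M u : JB → ℝ≥0∞}
    (hM : ∀ j, ∑' ω, wgB (wCN x N) (ENNReal.ofReal x) j ω ≤ M j)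
    (hu : ∀ j, ∑' ω, wgB (wCN x N) (ENNReal.ofReal x) j ω * crit2_tr N ω ≤ u j) :
    ∑' ω, lhsB (wC (ENNReal.ofReal x)) (ENNReal.ofReal x) .R ω * crit2_tr N ω ≤
      (u .C * M .C + u .C * M .C) +
        (u .Dt * (M .C * M .C) + u .C * (M .Dt * M .C) + u .C * (M .Dt * M .C)) := by
  refine (crit2_mean_le (eqnB_R (ENNReal.ofReal x) (fun _ => 0) 0 0 0) _ N (crit2_wCN_le x N) M u
    hM hu fun (t : Fin 2) => by fin_cases t <;> rfl).trans (le_of_eq ?_)
  refine (crit2_two _).trans ?_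
  congr 1
  · exact (one_mul _).trans (crit2_fin2 (fun i => u (![JB.C, JB.C] i)) fun i => M (![JB.C, JB.C] i))
  · exact (one_mul _).trans
      (crit2_fin3 (fun i => u (![JB.Dt, JB.C, JB.C] i)) fun i => M (![JB.Dt, JB.C, JB.C] i))

theorem crit2_C (x : ℝ) (N : ℕ) :
    2 * ∑' ω, wgB (wCN x N) (ENNReal.ofReal x) .C ω * crit2_tr N ω ≤ 2 * ∑' R, wCN x N R +
      ∑' ω, lhsB (wC (ENNReal.ofReal x)) (ENNReal.ofReal x) .R ω * crit2_tr N ω := by
  have h1 := unroot_C (ENNReal.ofReal x) (fun _ => 0)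
    fun p => if p.2.1 ≤ N then (p.2.1 : ℝ≥0∞) else 0
  have h2 := unroot_C (ENNReal.ofReal x) (fun _ => 0) fun p => ind (p.2.1 ≤ N)
  simp only at h1 h2
  have h3 : ∑' ω, wgB (wCN x N) (ENNReal.ofReal x) .C ω * crit2_tr N ω =
      ∑' R, wC (ENNReal.ofReal x) R * if R.2.1 + 1 ≤ N then ((R.2.1 + 1 : ℕ) : ℝ≥0∞) else 0 := by
    refine (tsum_onR _ _).trans (tsum_congr fun R => ?_)
    change wCN x N R * (if R.2.1 + 1 ≤ N then ((R.2.1 + 1 : ℕ) : ℝ≥0∞) else 0) = _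
    split_ifs with h
    · rw [wCN, crit2_pos h, mul_one]
    · rw [mul_zero, mul_zero]
  have h4 : ∑' ω, lhsB (wC (ENNReal.ofReal x)) (ENNReal.ofReal x) .R ω * crit2_tr N ω =
      ∑' ν, wU (ENNReal.ofReal x) ν * ((2 * ν.1 : ℕ) : ℝ≥0∞) *
        if ν.2.1 ≤ N then (ν.2.1 : ℝ≥0∞) else 0 := tsum_onU _ _
  have h5 : ∑' R, wCN x N R = _ := h2
  rw [h3, h1, h4, h5, mul_add, mul_add, add_assoc]
  refine add_le_add (le_of_eq ?_) ?_
  · split_ifs with h
    · rw [crit2_pos h, Nat.cast_one]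
    · rw [crit2_neg h]
  · rw [← ENNReal.tsum_mul_left, ← ENNReal.tsum_mul_left, ← ENNReal.tsum_add]
    refine ENNReal.tsum_le_tsum fun ν => ?_
    by_cases h0 : wU (ENNReal.ofReal x) ν = 0
    · simp [h0]
    have h6 : (ν.2.1 : ℝ≥0∞) ≤ 1 + ν.1 := by
      have := (wU_supp _ h0).2.1
      exact_mod_cast (by omega : ν.2.1 ≤ 1 + ν.1)
    split_ifs with h
    · rw [crit2_pos h]
      calc 2 * (wU (ENNReal.ofReal x) ν * ν.2.1 * ν.2.1)
          ≤ 2 * (wU (ENNReal.ofReal x) ν * (1 + ν.1) * ν.2.1) := by gcongr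
        _ = _ := by push_cast; ring
    · simp

theorem crit2_part {wv : RG → ℝ≥0∞} {X : ℝ≥0∞} (j : JB) (h1 : j ≠ .C) (h2 : j ≠ .G)
    (φ : Om → ℝ≥0∞) : ∑' ω, wgB wv X j ω * φ ω =
      ∑ k, if incB j k then ∑' ω, lhsB wv X k ω * φ ω else 0 := by
  simp only [partB j h1 h2, Finset.sum_mul]
  rw [Summable.tsum_finsetSum fun _ _ => ENNReal.summable]
  refine Finset.sum_congr rfl fun k _ => ?_
  split_ifs <;> simp

theorem crit2_sum_KB (a : KB → ℝ≥0∞) :
    ∑ k, a k = a .E + a .S + a .P0 + a .P1 + a .H + a .R + a .G := by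
  rw [show (Finset.univ : Finset KB) = {.E, .S, .P0, .P1, .H, .R, .G} by decide]
  simp [add_assoc]

/-- a priori bound for the truncated means -/
theorem mean_bound (hw : Wcrit w) (hT : TFacts w) : ∃ K : ℝ, ∀ x : ℝ, 0 < x → ∀ N : ℕ,
    ∑' R, wCN x N R ≤ ENNReal.ofReal (xw w) → ∀ j, j ≠ JB.G →
      ∑' ω, wB x j ω * (if sB ω ≤ N then (sB ω : ℝ≥0∞) else 0) ≤ ENNReal.ofReal K := by
  have hT0 : 0 ≤ Tw w := hT.mass.nonneg fun t => NNReal.zero_le_coe
  obtain ⟨f1, f2, f3, f4, f5⟩ := hw.facts hT0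
  have hτ : 0 < tauw w := by linarith
  have hS : 0 ≤ ∑' t, (wTw w t : ℝ) * posm t :=
    tsum_nonneg fun t => mul_nonneg NNReal.zero_le_coe (Nat.cast_nonneg _)
  obtain ⟨K, hK⟩ := crit2_real (Tz := (∑' t, (wTw w t : ℝ) * posm t) / tauw w)
    (Tx := (∑' t, (wTw w t : ℝ) * posm t) / xw w) f3 f1 f2 (by positivity) (by positivity)
    (le_of_eq (by field_simp)) hT.sub
  refine ⟨K, fun x hx N hN => ?_⟩
  obtain ⟨m1, m2, m3, m4⟩ := massB_le (x := ENNReal.ofReal x) hw hT hN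
  let M : JB → ℝ≥0∞ := fun j => match j with
    | .C => ENNReal.ofReal (xw w)
    | .D => ENNReal.ofReal (tauw w)
    | .nS => ENNReal.ofReal (tauw w / (1 + xw w * tauw w))
    | .J => ENNReal.ofReal (Sw w + Tw w)
    | .Dt => ENNReal.ofReal ((1 + tauw w) / 2 - 1)
    | .G => ⊤
  have hM : ∀ j, ∑' ω, wgB (wCN x N) (ENNReal.ofReal x) j ω ≤ M j := by
    intro j
    cases j
    · have := tsum_onR (wCN x N) fun _ => 1
      simp only [mul_one] at this
      exact this.le.trans hN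
    · exact m1
    · rw [f5] at m2; exact m2
    · exact m3
    · exact m4
    · exact le_top
  let u : JB → ℝ≥0∞ := fun j => ∑' ω, wgB (wCN x N) (ENNReal.ofReal x) j ω * crit2_tr N ω
  have hu : ∀ j, ∑' ω, wgB (wCN x N) (ENNReal.ofReal x) j ω * crit2_tr N ω ≤ u j := fun _ => le_rfl
  have hfin : ∀ j, j ≠ .G → u j = ENNReal.ofReal (u j).toReal := by
    intro j hj
    refine (ENNReal.ofReal_toReal (ne_top_of_le_ne_top (b := M j * N) ?_ ?_)).symm
    · refine ENNReal.mul_ne_top ?_ (ENNReal.natCast_ne_top N)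
      cases j <;> first | exact ENNReal.ofReal_ne_top | exact absurd rfl hj
    · refine le_trans ?_ (mul_le_mul_left (hM j) _)
      rw [← ENNReal.tsum_mul_right]
      refine ENNReal.tsum_le_tsum fun ω => mul_le_mul_right ?_ _
      unfold crit2_tr
      split_ifs with h
      · exact Nat.cast_le.2 h
      · exact zero_le
  obtain ⟨uC, c0, eC⟩ : ∃ a, 0 ≤ a ∧ u .C = ENNReal.ofReal a :=
    ⟨_, ENNReal.toReal_nonneg, hfin _ (by decide)⟩
  obtain ⟨uD, d0, eD⟩ : ∃ a, 0 ≤ a ∧ u .D = ENNReal.ofReal a :=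
    ⟨_, ENNReal.toReal_nonneg, hfin _ (by decide)⟩
  obtain ⟨uS, s0, eS⟩ : ∃ a, 0 ≤ a ∧ u .nS = ENNReal.ofReal a :=
    ⟨_, ENNReal.toReal_nonneg, hfin _ (by decide)⟩
  obtain ⟨uJ, j0, eJ⟩ : ∃ a, 0 ≤ a ∧ u .J = ENNReal.ofReal a :=
    ⟨_, ENNReal.toReal_nonneg, hfin _ (by decide)⟩
  obtain ⟨uT, t0, eT⟩ : ∃ a, 0 ≤ a ∧ u .Dt = ENNReal.ofReal a :=
    ⟨_, ENNReal.toReal_nonneg, hfin _ (by decide)⟩
  have q0 : 0 ≤ tauw w / (1 + xw w * tauw w) := by positivity
  have r0 : 0 ≤ (1 + tauw w) / 2 - 1 := by linarith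
  obtain ⟨sU, es⟩ : ∃ a, a = xw w * tauw w * uS + xw w * (tauw w / (1 + xw w * tauw w)) * uD +
    tauw w / (1 + xw w * tauw w) * tauw w * uC := ⟨_, rfl⟩
  obtain ⟨hU, eh⟩ : ∃ a, a = (∑' t, (wTw w t : ℝ) * posm t) / tauw w * uD +
    (∑' t, (wTw w t : ℝ) * posm t) / xw w * uC := ⟨_, rfl⟩
  have sU0 : 0 ≤ sU := by rw [es]; positivity
  have hU0 : 0 ≤ hU := by rw [eh]; positivity
  have vE := crit2_E hM hu
  have vS : ∑' ω, lhsB (wCN x N) (ENNReal.ofReal x) .S ω * crit2_tr N ω ≤ ENNReal.ofReal sU := by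
    refine (crit2_S hM hu).trans (le_of_eq ?_)
    simp only [M]
    rw [eC, eD, eS, ← ENNReal.ofReal_mul hτ.le, ← ENNReal.ofReal_mul q0, ← ENNReal.ofReal_mul q0,
      ← ENNReal.ofReal_mul s0, ← ENNReal.ofReal_mul d0, ← ENNReal.ofReal_mul c0,
      ← ENNReal.ofReal_add (by positivity) (by positivity),
      ← ENNReal.ofReal_add (by positivity) (by positivity), es]
    congr 1
    ring
  have v0 := crit2_P0 hM hu j0 (by linarith) eJ rfl
  have v1 := crit2_P1 hM hu j0 (by linarith) eJ rfl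
  rw [← hw.2] at v0 v1
  have vH := crit2_H hT f3 hτ hM hu d0 c0 eD eC rfl rfl
  rw [← eh] at vH
  have p0 : 0 ≤ uJ * ((1 + tauw w) / 2 - 1) := mul_nonneg j0 r0
  have p1 : 0 ≤ uJ * ((1 + tauw w) / 2) := by positivity
  have iD : uD ≤ sU + tauw w * uJ + hU := by
    rw [← ENNReal.ofReal_le_ofReal_iff (by positivity), ← eD,
      show sU + tauw w * uJ + hU =
        sU + uJ * ((1 + tauw w) / 2 - 1) + uJ * ((1 + tauw w) / 2) + hU by ring,
      ENNReal.ofReal_add (by positivity) hU0, ENNReal.ofReal_add (by positivity) p1,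
      ENNReal.ofReal_add sU0 p0]
    refine (crit2_part .D (by decide) (by decide) _).le.trans ?_
    simp only [crit2_sum_KB, incB, if_true, Bool.false_eq_true, if_false, add_zero]
    refine le_trans (add_le_add (add_le_add (add_le_add (add_le_add vE vS) v0) v1) vH) ?_
    rw [zero_add]
  have iS : uS ≤ tauw w * uJ + hU := by
    rw [← ENNReal.ofReal_le_ofReal_iff (by positivity), ← eS,
      show tauw w * uJ + hU = uJ * ((1 + tauw w) / 2 - 1) + uJ * ((1 + tauw w) / 2) + hU by ring,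
      ENNReal.ofReal_add (by positivity) hU0, ENNReal.ofReal_add p0 p1]
    refine (crit2_part .nS (by decide) (by decide) _).le.trans ?_
    simp only [crit2_sum_KB, incB, if_true, Bool.false_eq_true, if_false, add_zero]
    refine le_trans (add_le_add (add_le_add (add_le_add vE v0) v1) vH) ?_
    rw [zero_add]
  have iJ : uJ ≤ sU + hU := by
    rw [← ENNReal.ofReal_le_ofReal_iff (by positivity), ← eJ, ENNReal.ofReal_add sU0 hU0]
    refine (crit2_part .J (by decide) (by decide) _).le.trans ?_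
    simp only [crit2_sum_KB, incB, if_true, Bool.false_eq_true, if_false, add_zero, zero_add]
    exact add_le_add vS vH
  have iT : uT ≤ sU + ((1 + tauw w) / 2 - 1) * uJ + hU := by
    rw [← ENNReal.ofReal_le_ofReal_iff (by positivity), ← eT, mul_comm _ uJ,
      ENNReal.ofReal_add (by positivity) hU0, ENNReal.ofReal_add sU0 p0]
    refine (crit2_part .Dt (by decide) (by decide) _).le.trans ?_
    simp only [crit2_sum_KB, incB, if_true, Bool.false_eq_true, if_false, add_zero, zero_add]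
    exact add_le_add (add_le_add vS v0) vH
  have iC : uC ≤ xw w + (xw w * ((1 + tauw w) / 2) * uC + xw w ^ 2 * uT / 2) := by
    have h1 := (crit2_C x N).trans (add_le_add (mul_le_mul_right hN 2) (crit2_R hM hu))
    change 2 * u .C ≤ _ at h1
    simp only [M] at h1
    rw [eC, eT, ← ENNReal.ofReal_mul c0, ← ENNReal.ofReal_mul f3.le, ← ENNReal.ofReal_mul r0,
      ← ENNReal.ofReal_mul t0, ← ENNReal.ofReal_mul c0,
      ← ENNReal.ofReal_add (by positivity) (by positivity),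
      ← ENNReal.ofReal_add (by positivity) (by positivity),
      ← ENNReal.ofReal_add (by positivity) (by positivity),
      ← ENNReal.ofReal_add (by positivity) (by positivity), ← ENNReal.ofReal_ofNat 2,
      ← ENNReal.ofReal_mul (by norm_num), ← ENNReal.ofReal_mul (by norm_num),
      ← ENNReal.ofReal_add (by positivity) (by positivity),
      ENNReal.ofReal_le_ofReal_iff (by positivity)] at h1
    linarith
  obtain ⟨k1, k2, k3, k4, k5⟩ := hK uC uD uS uJ uT sU hU es eh iC iD iS iJ iT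
  intro j hj
  have h1 : ∑' ω, wB x j ω * (if sB ω ≤ N then (sB ω : ℝ≥0∞) else 0) ≤ u j := by
    refine ENNReal.tsum_le_tsum fun ω => ?_
    unfold crit2_tr
    split_ifs with h
    · exact mul_le_mul_left (crit2_wCN_le x N j ω h) _
    · simp
  refine h1.trans ?_
  cases j
  · rw [eC]; exact ENNReal.ofReal_le_ofReal k1
  · rw [eD]; exact ENNReal.ofReal_le_ofReal k2
  · rw [eS]; exact ENNReal.ofReal_le_ofReal k3
  · rw [eJ]; exact ENNReal.ofReal_le_ofReal k4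
  · rw [eT]; exact ENNReal.ofReal_le_ofReal k5
  · exact absurd rfl hj

/-- coefficients of the generating function of rooted connected planar graphs -/
noncomputable def crit2_c (n : ℕ) : ℝ≥0∞ := ∑' R, wC 1 R * ind (R.2.1 + 1 = n)

theorem crit2_wC (X : ℝ≥0∞) (R : RG) : wC X R = wC 1 R * X ^ (R.2.1 + 1) := by
  rw [wC, wC, one_pow, mul_one]

theorem crit2_series (X : ℝ≥0∞) (φ : ℕ → ℝ≥0∞) :
    ∑' R, wC X R * φ (R.2.1 + 1) = ∑' n, crit2_c n * X ^ n * φ n := by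
  simp only [crit2_c, ← ENNReal.tsum_mul_right]
  rw [ENNReal.tsum_comm]
  refine tsum_congr fun R => ?_
  rw [tsum_eq_single (R.2.1 + 1) fun n hn => by rw [crit2_neg hn.symm]; simp,
    crit2_pos rfl, mul_one, crit2_wC X]

theorem crit2_trunc (X : ℝ≥0∞) (φ : ℕ → ℝ≥0∞) (N : ℕ) :
    ∑' R, wC X R * (if R.2.1 + 1 ≤ N then φ (R.2.1 + 1) else 0) =
      ∑ n ∈ Finset.range (N + 1), crit2_c n * X ^ n * φ n := by
  rw [crit2_series X fun n => if n ≤ N then φ n else 0,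
    tsum_eq_sum (s := Finset.range (N + 1)) fun n hn => by
      rw [if_neg (by simpa using hn), mul_zero]]
  exact Finset.sum_congr rfl fun n hn => by rw [if_pos (by simpa [Nat.lt_succ_iff] using hn)]

theorem crit2_mono {Ω : Type} (c : Ω → ℝ≥0∞) (s : Ω → ℕ) (φ : Ω → ℝ≥0∞) {K : ℝ≥0∞}
    (h : ∀ N : ℕ, ∑' ω, c ω * (if s ω ≤ N then φ ω else 0) ≤ K) : ∑' ω, c ω * φ ω ≤ K := by
  rw [ENNReal.tsum_eq_iSup_sum]
  refine iSup_le fun A => le_trans ?_ (h (A.sup s))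
  refine le_trans (le_of_eq ?_) (ENNReal.sum_le_tsum A)
  exact Finset.sum_congr rfl fun ω hω => by rw [if_pos (Finset.le_sup hω)]

theorem crit2_G {X : ℝ≥0∞} (hX : ∑' R, wC X R ≤ 2⁻¹) : ∑' ν, wG X ν ≤ 2 := by
  obtain ⟨ν₀, a1, a2, a3⟩ := atom_G (x := X)
  have step : ∀ N : ℕ, ∑' ν, wG X ν * (if ν.2.1 ≤ N then 1 else 0) ≤
      1 + ∑' ν, wG X ν * ν.2.1 * (if ν.2.1 ≤ N then 1 else 0) := by
    intro N
    refine le_trans ?_ (add_le_add_left (tsum_ite_eq ν₀ fun _ => (1 : ℝ≥0∞)).le _)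
    rw [← ENNReal.tsum_add]
    refine ENNReal.tsum_le_tsum fun ν => ?_
    by_cases h0 : ν.2.1 = 0
    · rw [a3 ν h0, if_pos rfl, a1, a2]; simp
    · refine le_add_left ?_
      have : (1 : ℝ≥0∞) ≤ ν.2.1 := by exact_mod_cast Nat.pos_of_ne_zero h0
      calc wG X ν * (if ν.2.1 ≤ N then 1 else 0) = wG X ν * 1 * (if ν.2.1 ≤ N then 1 else 0) := by
            rw [mul_one]
        _ ≤ _ := by gcongr
  have eqn : ∀ N : ℕ, ∑' ν, wG X ν * ν.2.1 * (if ν.2.1 ≤ N + 1 then 1 else 0) ≤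
      2⁻¹ * ∑' ν, wG X ν * (if ν.2.1 ≤ N then 1 else 0) := by
    intro N
    have h1 := eqnB_G X (fun _ => 0) 0 0 0 fun p => if p.1 ≤ N + 1 then 1 else 0
    have h2 : ∑' ν, wG X ν * ν.2.1 * (if ν.2.1 ≤ N + 1 then 1 else 0) =
        ∑' ω, lhsB (wC X) X .G ω * (if sB ω ≤ N + 1 then 1 else 0) :=
      (tsum_onU (fun ν => wG X ν * ν.2.1) fun ω => if sB ω ≤ N + 1 then 1 else 0).symm
    rw [h2, h1]
    refine (crit2_unit _).le.trans ?_
    refine (one_mul _).le.trans ?_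
    refine (tsum_fin_two (fun i => wgB (wC X) X (![JB.C, JB.G] i))
      fun ω => if 0 + ∑ i, sB (ω i) ≤ N + 1 then 1 else 0).le.trans ?_
    refine (tsum_onR _ _).le.trans ?_
    refine le_trans ?_ (mul_le_mul_left hX _)
    rw [← ENNReal.tsum_mul_right]
    refine ENNReal.tsum_le_tsum fun R => mul_le_mul_right ?_ _
    refine (tsum_onU _ _).le.trans (ENNReal.tsum_le_tsum fun ν => mul_le_mul_right ?_ _)
    simp only [Fin.sum_univ_two, Matrix.cons_val_zero, Matrix.cons_val_one, zero_add]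
    change (if R.2.1 + 1 + ν.2.1 ≤ N + 1 then (1 : ℝ≥0∞) else 0) ≤ _
    split_ifs with h h'
    · exact le_rfl
    · omega
    · exact zero_le
    · exact le_rfl
  have bd : ∀ N : ℕ, ∑' ν, wG X ν * (if ν.2.1 ≤ N then 1 else 0) ≤ 2 := by
    intro N
    induction N with
    | zero =>
      refine (step 0).trans ?_
      rw [ENNReal.tsum_eq_zero.2 fun ν => by
        split_ifs with h
        · rw [Nat.le_zero.1 h]; simp
        · simp]
      norm_num
    | succ N ih =>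
      refine (step _).trans ((add_le_add_right ((eqn N).trans (mul_le_mul_right ih _)) _).trans ?_)
      rw [ENNReal.inv_mul_cancel (by norm_num) (by norm_num), one_add_one_eq_two]
  simpa using crit2_mono (wG X) (fun ν => ν.2.1) (fun _ => 1) bd

theorem exists_bcrit (hw : Wcrit w) (hT : TFacts w) : ∃ x, BCrit w x := by
  have hw0 : 0 < w := by linarith [hw.1]
  obtain ⟨c1, c2, c3, -, -, -, -, c4, -⟩ := crit_pos hw0
  have hT0 : 0 ≤ Tw w := hT.mass.nonneg fun t => NNReal.zero_le_coe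
  obtain ⟨f1, f2, -, -, -⟩ := hw.facts hT0
  obtain ⟨K, hK⟩ := mean_bound hw hT
  have ser : ∀ X, ∑' R, wC X R = ∑' n, crit2_c n * X ^ n := fun X => by
    simpa using crit2_series X fun _ => 1
  have hs : ∑' n, crit2_c n * ENNReal.ofReal (xw w * yw w ^ 3 / 2) ^ n ≤ ENNReal.ofReal (xw w) := by
    rw [← ser, ENNReal.ofReal_div_of_pos (by norm_num), ENNReal.ofReal_mul c1.le,
      ENNReal.ofReal_pow c2.le, ENNReal.ofReal_ofNat, div_eq_mul_inv]
    calc ∑' R, wC (ENNReal.ofReal (xw w) * ENNReal.ofReal (yw w) ^ 3 * 2⁻¹) R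
        ≤ ∑' R, ENNReal.ofReal (xw w) * wM (ENNReal.ofReal (xw w)) (ENNReal.ofReal (yw w)) R * 2⁻¹ := by
          refine ENNReal.tsum_le_tsum fun R => ?_
          rw [crit2_wC, mul_pow, ← mul_assoc, ← crit2_wC]
          exact mul_le_mul' (wC_le_wM _ _ (ENNReal.ofReal_le_one.2 c3.le) R)
            (pow_le_of_le_one zero_le (by norm_num) (by omega))
      _ = ENNReal.ofReal (xw w) * (ENNReal.ofReal (Mw w) * 2⁻¹) := by
          rw [ENNReal.tsum_mul_right, ENNReal.tsum_mul_left, mass_M hw0, mul_assoc]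
      _ ≤ ENNReal.ofReal (xw w) * (2 * 2⁻¹) := by
          gcongr
          rw [← ENNReal.ofReal_ofNat]
          exact ENNReal.ofReal_le_ofReal c4.le
      _ = _ := by rw [ENNReal.mul_inv_cancel (by norm_num) (by norm_num), mul_one]
  have hx0 : 0 < xw w * yw w ^ 3 / 2 := by positivity
  have hwcn : ∀ (x : ℝ) (N : ℕ), ∑' R, wCN x N R =
      ∑ n ∈ Finset.range (N + 1), crit2_c n * ENNReal.ofReal x ^ n := by
    intro x N
    have := crit2_trunc (ENNReal.ofReal x) (fun _ => 1) N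
    simp only [mul_one] at this
    rw [← this]
    refine tsum_congr fun R => ?_
    unfold wCN ind
    congr
  obtain ⟨x, hx, hmass⟩ := exists_level crit2_c (a := xw w) (K := K)
    (fun n h => by
      have h1 := (ENNReal.le_tsum n).trans hs
      rw [h, ENNReal.top_mul (pow_ne_zero _ (by simpa using hx0))] at h1
      exact ENNReal.ofReal_ne_top (top_le_iff.1 h1))
    (ENNReal.tsum_eq_zero.2 fun R => by rw [crit2_neg (Nat.succ_ne_zero _), mul_zero])
    (le_trans (by rw [wC_triv, crit2_pos (p := triv.2.1 + 1 = 1) rfl, mul_one]) (ENNReal.le_tsum triv))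
    c1 ⟨_, hx0, hs⟩
    (fun x hx N hN => by
      have h1 := hK x hx N (by rwa [hwcn]) .C (by decide)
      rw [← crit2_trunc (ENNReal.ofReal x) (fun n => n) N]
      exact le_trans (tsum_onR (wC (ENNReal.ofReal x))
        fun ω => if sB ω ≤ N then (sB ω : ℝ≥0∞) else 0).ge h1)
  rw [← ser] at hmass
  have mC : ∑' ω, wB x .C ω = ENNReal.ofReal (xw w) := by
    have := tsum_onR (wC (ENNReal.ofReal x)) fun _ => 1
    simp only [mul_one] at this
    exact this.trans hmass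
  obtain ⟨m1, m2, m3, m4⟩ := massB_le (x := ENNReal.ofReal x) hw hT hmass.le
  have mG : ∑' ω, wB x .G ω ≤ 2 := by
    have := tsum_onU (wG (ENNReal.ofReal x)) fun _ => 1
    simp only [mul_one] at this
    refine this.le.trans (crit2_G (hmass.le.trans ?_))
    rw [← ENNReal.ofReal_ofNat, ← ENNReal.ofReal_inv_of_pos (by norm_num)]
    exact ENNReal.ofReal_le_ofReal (by nlinarith)
  refine ⟨x, hw, hx, hmass, fun j => ?_⟩
  simp only [mul_add, mul_one]
  rw [ENNReal.tsum_add]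
  refine ENNReal.add_ne_top.2 ⟨?_, ?_⟩
  · by_cases hj : j = .G
    · subst hj
      have h1 := (eqnB_G (ENNReal.ofReal x) (fun _ => 0) 0 0 0).mass
      have h2 : ∑' ω, wB x .G ω * sB ω = ∑' ω, lhsB (wC (ENNReal.ofReal x)) (ENNReal.ofReal x) .G ω := by
        refine tsum_congr fun ω => ?_
        rcases ω with R | D | ν
        · exact zero_mul _
        · exact zero_mul _
        · rfl
      rw [h2, h1]
      refine ne_top_of_le_ne_top (b := ENNReal.ofReal (xw w) * 2)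
        (ENNReal.mul_ne_top ENNReal.ofReal_ne_top (by norm_num)) ?_
      refine (crit2_unit _).le.trans ?_
      refine (one_mul _).le.trans ((Fin.prod_univ_two _).le.trans ?_)
      exact mul_le_mul' mC.le mG
    · refine ne_top_of_le_ne_top (b := ENNReal.ofReal K) ENNReal.ofReal_ne_top ?_
      refine crit2_mono _ sB _ fun N => hK x hx N (le_trans ?_ hmass.le) j hj
      refine ENNReal.tsum_le_tsum fun R => ?_
      unfold wCN ind
      split_ifs <;> simp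
  · cases j
    · rw [mC]; exact ENNReal.ofReal_ne_top
    · exact ne_top_of_le_ne_top ENNReal.ofReal_ne_top m1
    · exact ne_top_of_le_ne_top ENNReal.ofReal_ne_top m2
    · exact ne_top_of_le_ne_top ENNReal.ofReal_ne_top m3
    · exact ne_top_of_le_ne_top ENNReal.ofReal_ne_top m4
    · exact ne_top_of_le_ne_top (by norm_num) mG

end Pool.Agent.Lib.MP_77dff5_pr
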