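import Mathlib

/-! Definitions used in the statement: planar graphs, the uniform law, degree counts. -/

set_option autoImplicit false

namespace Pool.Agent.Lib.MP_77dff5_pr

open MeasureTheory ProbabilityTheory

/-- A graph is planar if it can be drawn in the plane without crossings: the vertices are distinct
points, every edge is a simple arc between its ends whose interior contains no vertex, and the
interior of an edge meets no other edge. -/
def Drawable {V : Type} (G : SimpleGraph V) : Prop :=
  ∃ (p : V → ℝ × ℝ) (γ : V → V → unitInterval → ℝ × ℝ), Function.Injective p ∧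
    (∀ u v, G.Adj u v → Continuous (γ u v) ∧ Function.Injective (γ u v) ∧
      γ u v 0 = p u ∧ γ u v 1 = p v ∧ (∀ t, γ v u t = γ u v (unitInterval.symm t)) ∧
      ∀ t w, γ u v t = p w → t = 0 ∨ t = 1) ∧
    ∀ u v x y, G.Adj u v → G.Adj x y → s(u, v) ≠ s(x, y) →
      ∀ s t, γ u v s = γ x y t → s = 0 ∨ s = 1

/-- The uniform law on the planar graphs with vertex set `Fin n`. -/
noncomputable def planarLaw (n : ℕ) : Measure (SimpleGraph (Fin n)) := uniformOn {G | Drawable G}

/-- The number of vertices of degree `k`. -/
noncomputable def degNum (k n : ℕ) (G : SimpleGraph (Fin n)) : ℝ :=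
  {v | (G.neighborSet v).ncard = k}.ncard

theorem drawable_bot (n : ℕ) : Drawable (⊥ : SimpleGraph (Fin n)) :=
  ⟨fun i => (((i : ℕ) : ℝ), 0), fun _ _ _ => 0,
    fun _ _ h => Fin.ext (Nat.cast_injective (R := ℝ) (congrArg Prod.fst h)),
    fun _ _ h => h.elim, fun _ _ _ _ h => h.elim⟩

theorem measurableSet_graphs {n : ℕ} (s : Set (SimpleGraph (Fin n))) : MeasurableSet s :=
  ⟨SimpleGraph.Adj '' s, MeasurableSet.of_discrete,
    Set.preimage_image_eq s SimpleGraph.adj_injective⟩

instance isProbabilityMeasure_planarLaw (n : ℕ) : IsProbabilityMeasure (planarLaw n) :=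
  isProbabilityMeasure_uniformOn' (Set.toFinite _) ⟨⊥, drawable_bot n⟩ (measurableSet_graphs _)

end Pool.Agent.Lib.MP_77dff5_pr
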