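import Pool.Agent.Lib.MP_77dff5_pr.Stmt

/-! The mean is linear, with a positive constant. -/

set_option autoImplicit false

namespace Pool.Agent.Lib.MP_77dff5_pr

open MeasureTheory ProbabilityTheory Filter Topology

theorem gauss_cdf_pos : 0 < cdf (gaussianReal 0 1) (-1) := by
  rw [cdf_eq_real, measureReal_def]
  refine ENNReal.toReal_pos (fun h => ?_) (measure_ne_top _ _)
  simpa using gaussianReal_absolutelyContinuous' 0 one_ne_zero h

theorem mean_linear (k : ℕ) {mu σ2 : ℝ} (hσ : 0 < σ2)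
    (h0 : Tendsto (fun n : ℕ => (meanX k n - mu * n) / √n) atTop (𝓝 0))
    (h1 : Tendsto (fun n : ℕ => varX k n / n) atTop (𝓝 σ2))
    (h2 : ∀ a : ℝ, Tendsto (fun n => cdfX k n a) atTop (𝓝 (cdf (gaussianReal 0 1) a))) :
    0 < mu ∧ Tendsto (fun n : ℕ => meanX k n / n) atTop (𝓝 mu) := by
  have hs : Tendsto (fun n : ℕ => (√n : ℝ)⁻¹) atTop (𝓝 0) :=
    (Real.tendsto_sqrt_atTop.comp tendsto_natCast_atTop_atTop).inv_tendsto_atTop
  constructor
  · by_contra! hmu
    refine absurd (le_of_tendsto_of_tendsto h1.sqrt h0 ?_) (not_le.2 (Real.sqrt_pos.2 hσ))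
    filter_upwards [(h2 (-1)).eventually (lt_mem_nhds gauss_cdf_pos),
      h1.eventually (lt_mem_nhds hσ), eventually_gt_atTop 0] with n h3 h4 h5
    have hn : (0 : ℝ) < n := by exact_mod_cast h5
    have hv : 0 < √(varX k n) := Real.sqrt_pos.2 ((div_pos_iff_of_pos_right hn).1 h4)
    obtain ⟨G, hG⟩ : {G : PlanarGraph n |
        (degCount k G - meanX k n) / √(varX k n) ≤ -1}.Nonempty := by
      by_contra e
      rw [cdfX, Set.not_nonempty_iff_eq_empty.1 e] at h3
      simp at h3
    have h6 : degCount k G - meanX k n ≤ -1 * √(varX k n) := (div_le_iff₀ hv).1 hG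
    have h7 : 0 ≤ degCount k G := Nat.cast_nonneg _
    rw [Real.sqrt_div' _ hn.le]
    exact div_le_div_of_nonneg_right (by nlinarith) (Real.sqrt_nonneg _)
  · have h3 := (h0.mul hs).add_const mu
    rw [mul_zero, zero_add] at h3
    refine h3.congr' ?_
    filter_upwards [eventually_gt_atTop 0] with n h5
    have hn : (0 : ℝ) < n := by exact_mod_cast h5
    rw [← div_eq_mul_inv, div_div, Real.mul_self_sqrt hn.le]
    field_simp
    ring

end Pool.Agent.Lib.MP_77dff5_pr
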