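import Pool.Agent.Lib.MP_77dff5_pr.Main
import Pool.Agent.Lib.MP_77dff5_pr.Bridge
import Pool.Agent.Lib.MP_77dff5_pr.MeanPos

/-! The number of vertices of degree `k` in a uniform random labelled planar graph is
asymptotically normal, with linear mean and variance. -/

open MeasureTheory ProbabilityTheory Filter Topology Pool.Agent.Lib.MP_77dff5_pr

theorem Pool.Agent.Lib.MP_77dff5_pr.degree_clt (k : ℕ) (hk : 1 ≤ k) :
    (∀ᶠ n in atTop, 0 < Var[degNum k n; planarLaw n]) ∧
      TendstoInDistribution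
        (fun n G => (degNum k n G - ∫ H, degNum k n H ∂planarLaw n) /
          √(Var[degNum k n; planarLaw n]))
        atTop id planarLaw (gaussianReal 0 1) ∧
      ∃ d v : ℝ, 0 < d ∧ 0 < v ∧
        Tendsto (fun n : ℕ => (∫ H, degNum k n H ∂planarLaw n) / n) atTop (𝓝 d) ∧
        Tendsto (fun n : ℕ => Var[degNum k n; planarLaw n] / n) atTop (𝓝 v) := by
  obtain ⟨mu, σ2, h0, hm, h1, h2⟩ := main k hk
  obtain ⟨h3, h4⟩ := mean_linear k h0 hm h1 h2
  obtain ⟨h5, h6⟩ := bridge_final k h0 h1 h2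
  exact ⟨h5, h6, mu, σ2, h3, h0, by simpa only [bridge_mean] using h4,
    by simpa only [bridge_var] using h1⟩
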