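import Pool.Agent.Lib.MP_77dff5_pr.Net
import Pool.Agent.Lib.MP_77dff5_pr.PermB

/-! The number of planar embeddings is multiplicative along Tutte's decomposition. -/

set_option autoImplicit false

namespace Pool.Agent.Lib.MP_77dff5_pr

/-- the complement of the edge `i` of the core is a single bridge at the ends of `i` -/
def OneBridge {I W : Type} (t : I × Bool → Bool ⊕ W) (i : I) : Prop :=
  ∀ X : Set (Option I), X.Nonempty → some i ∉ X →
    bd (clo t) X ⊆ {t (i, true), t (i, false)} → X = {some i}ᶜ

private theorem embA_pair_le {A : Type} (a b : A) : ({a, b} : Set A).ncard ≤ 2 :=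
  (Set.ncard_insert_le _ _).trans (by rw [Set.ncard_singleton])

theorem Core3.oneBridge {I W : Type} [Finite I] [Finite W] {t : I × Bool → Bool ⊕ W}
    (ht : Core3 t) (i : I) : OneBridge t i := by
  intro X hX hi hb
  have hle : (bd (clo t) X).ncard ≤ 2 :=
    (Set.ncard_le_ncard hb (Set.toFinite _)).trans (embA_pair_le _ _)
  by_cases h1 : 2 ≤ Xᶜ.ncard
  · exfalso
    have h2 : ¬2 ≤ X.ncard := fun h2 => by
      have := ht.2.2 X h2 h1
      omega
    have h3 : X.ncard = 1 := by
      have := (Set.ncard_pos (Set.toFinite X)).2 hX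
      omega
    obtain ⟨e, rfl⟩ := Set.ncard_eq_one.1 h3
    have h4 : 2 ≤ (bd (clo t) {e}).ncard := ht.1.2.2 _ hX ⟨some i, hi⟩
    have hb' : bd (clo t) {e} ⊆ {clo t (e, true), clo t (e, false)} := by
      rintro v ⟨⟨⟨e', b⟩, hx, rfl⟩, -⟩
      obtain rfl : e' = e := hx
      cases b <;> simp
    have e1 : bd (clo t) {e} = {t (i, true), t (i, false)} :=
      Set.eq_of_subset_of_ncard_le hb ((embA_pair_le _ _).trans h4) (Set.toFinite _)
    have e2 : bd (clo t) {e} = {clo t (e, true), clo t (e, false)} :=
      Set.eq_of_subset_of_ncard_le hb' ((embA_pair_le _ _).trans h4) (Set.toFinite _)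
    have hs := ht.simple
    have hne : e ≠ some i := fun h => hi (h ▸ rfl)
    rcases Set.pair_eq_pair_iff.1 (e2.symm.trans e1) with ⟨a, b⟩ | ⟨a, b⟩
    · exact hne (congrArg Prod.fst (hs.2 (e, true) (some i, true) a b))
    · exact hne (congrArg Prod.fst (hs.2 (e, true) (some i, false) a b))
  · have h2 : Xᶜ = {some i} := by
      symm
      refine Set.eq_of_subset_of_ncard_le (Set.singleton_subset_iff.2 hi) ?_ (Set.toFinite _)
      rw [Set.ncard_singleton]
      omega
    rw [← h2, compl_compl]

theorem oneBridge_tri (i : Fin 2) : OneBridge tri i := by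
  intro X hX hi hb
  have key : ∀ (x y : Option (Fin 2) × Bool), x.1 ∈ X → y.1 ∉ X → clo tri x = clo tri y →
      clo tri x = tri (i, true) ∨ clo tri x = tri (i, false) := fun x y hx hy h =>
    hb ⟨⟨x, hx, rfl⟩, y, hy, h.symm⟩
  have hall : ∀ o : Option (Fin 2), o = none ∨ o = some 0 ∨ o = some 1 := by decide
  fin_cases i
  · have hiff : none ∈ X ↔ some 1 ∈ X := by
      constructor
      · intro h
        by_contra h'
        exact absurd (key (none, false) (some 1, false) h h' (by decide)) (by decide)
      · intro h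
        by_contra h'
        exact absurd (key (some 1, false) (none, false) h h' (by decide)) (by decide)
    have h0 : none ∈ X := by
      obtain ⟨o, ho⟩ := hX
      rcases hall o with rfl | rfl | rfl
      · exact ho
      · exact absurd ho hi
      · exact hiff.2 ho
    ext o
    rcases hall o with rfl | rfl | rfl
    · simpa using h0
    · simpa using hi
    · simpa using hiff.1 h0
  · have hiff : none ∈ X ↔ some 0 ∈ X := by
      constructor
      · intro h
        by_contra h'
        exact absurd (key (none, true) (some 0, true) h h' (by decide)) (by decide)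
      · intro h
        by_contra h'
        exact absurd (key (some 0, true) (none, true) h h' (by decide)) (by decide)
    have h0 : none ∈ X := by
      obtain ⟨o, ho⟩ := hX
      rcases hall o with rfl | rfl | rfl
      · exact ho
      · exact hiff.2 ho
      · exact absurd ho hi
    ext o
    rcases hall o with rfl | rfl | rfl
    · simpa using h0
    · simpa using hiff.1 h0
    · simpa using hi

/-- the other dart at the same vertex of the triangle -/
private def embA_tf (x : Option (Fin 2) × Bool) : Option (Fin 2) × Bool :=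
  if x = (none, true) then (some 0, true) else if x = (some 0, true) then (none, true)
  else if x = (none, false) then (some 1, false) else if x = (some 1, false) then (none, false)
  else if x = (some 0, false) then (some 1, true) else (some 0, false)

private def embA_tau : Equiv.Perm (Option (Fin 2) × Bool) :=
  ⟨embA_tf, embA_tf, by decide, by decide⟩

/-- the two faces of the triangle -/
private def embA_face (x : Option (Fin 2) × Bool) : Bool :=
  if x.1 = none then !x.2 else x.2

theorem emb_tri : emb (clo tri) (flp _) = 1 := by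
  have h1 : ∀ x y, clo tri x = clo tri y ↔ y = x ∨ y = embA_tau x := by decide
  have h2 : ∀ x, embA_tau x ≠ x := by decide
  have hr : IsRot (clo tri) embA_tau := by
    intro x y
    revert x y
    decide
  have hf : IsRot embA_face (embA_tau * flp _) := by
    intro x y
    revert x y
    decide
  have hg : Gen0 embA_tau (flp (Option (Fin 2))) := by
    unfold Gen0
    rw [ncyc_of_isRot hr, ncyc_of_isRot hf, ncyc_flp,
      Set.range_eq_univ.2 (show Function.Surjective (clo tri) by decide),
      Set.range_eq_univ.2 (show Function.Surjective embA_face by decide)]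
    simp [Set.ncard_univ]
  unfold emb
  rw [Nat.card_eq_one_iff_exists]
  refine ⟨⟨embA_tau, hr, hg⟩, ?_⟩
  rintro ⟨σ, hσ, h0⟩
  refine Subtype.ext (Equiv.ext fun x => ?_)
  rcases (h1 x (σ x)).1 ((hσ x (σ x)).1 ⟨1, by simp⟩) with h | h
  · exact absurd (((hσ x (embA_tau x)).2 ((h1 _ _).2 (Or.inr rfl))).eq_of_left h).symm (h2 x)
  · exact h

private theorem embA_card_cyc (j : ℕ) :
    Nat.card {π : Equiv.Perm (Option (Fin j)) // ∀ x y, π.SameCycle x y} = j.factorial := by
  classical
  rcases Nat.eq_zero_or_pos j with rfl | hj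
  · rw [Nat.factorial_zero, Nat.card_eq_one_iff_exists]
    have hs : ∀ x y : Option (Fin 0), x = y := by decide
    exact ⟨⟨1, fun x y => hs x y ▸ Equiv.Perm.SameCycle.refl _ _⟩,
      fun π => Subtype.ext (Equiv.ext fun x => hs _ _)⟩
  · have hc : Fintype.card (Option (Fin j)) = j + 1 := by simp
    have h := Equiv.Perm.card_of_cycleType_singleton (α := Option (Fin j)) (n := j + 1)
      (by omega) hc.ge
    rw [hc, Nat.choose_self, mul_one, Nat.add_sub_cancel] at h
    rw [← h, Nat.card_eq_fintype_card, Fintype.card_subtype]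
    congr 1
    ext π
    simp only [Finset.mem_filter, Finset.mem_univ, true_and]
    constructor
    · intro hπ
      have hne : ∀ x, π x ≠ x := by
        intro x hx
        have h1 := (hπ x none).eq_of_left hx
        have h2 := (hπ x (some ⟨0, hj⟩)).eq_of_left hx
        exact absurd (h1.symm.trans h2) (by simp)
      have hcyc : π.IsCycle := ⟨none, hne _, fun y _ => hπ _ _⟩
      rw [hcyc.cycleType]
      have : π.support = Finset.univ := Finset.eq_univ_of_forall fun x =>
        Equiv.Perm.mem_support.2 (hne x)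
      rw [this, Finset.card_univ, hc]
    · intro hπ x y
      have hcyc : π.IsCycle := Equiv.Perm.card_cycleType_eq_one.1 (by rw [hπ]; rfl)
      have hs : π.support = Finset.univ := by
        apply Finset.eq_univ_of_card
        rw [← Equiv.Perm.sum_cycleType, hπ, hc, Multiset.sum_singleton]
      exact hcyc.sameCycle (Equiv.Perm.mem_support.1 (hs ▸ Finset.mem_univ _))
        (Equiv.Perm.mem_support.1 (hs ▸ Finset.mem_univ _))

/-- a permutation of the darts given by one permutation for each end -/
private def embA_two {E : Type} (π ρ : Equiv.Perm E) : Equiv.Perm (E × Bool) :=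
  Equiv.prodCongrLeft fun b => if b = true then π else ρ

private theorem embA_two_true {E : Type} (π ρ : Equiv.Perm E) (e : E) :
    embA_two π ρ (e, true) = (π e, true) := rfl

private theorem embA_two_false {E : Type} (π ρ : Equiv.Perm E) (e : E) :
    embA_two π ρ (e, false) = (ρ e, false) := rfl

private theorem embA_two_pow {E : Type} (π ρ : Equiv.Perm E) (n : ℕ) (e : E) (b : Bool) :
    (embA_two π ρ ^ n) (e, b) = (((if b = true then π else ρ) ^ n) e, b) := by
  induction n with
  | zero => rfl
  | succ n ih =>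
    rw [pow_succ', Equiv.Perm.mul_apply, ih, pow_succ', Equiv.Perm.mul_apply]
    cases b <;> rfl

private theorem embA_two_same {E : Type} [Finite E] (π ρ : Equiv.Perm E) (e e' : E) (b b' : Bool) :
    (embA_two π ρ).SameCycle (e, b) (e', b') ↔
      b = b' ∧ (if b = true then π else ρ).SameCycle e e' := by
  constructor
  · intro h
    obtain ⟨n, hn⟩ := h.exists_nat_pow_eq
    rw [embA_two_pow, Prod.mk.injEq] at hn
    exact ⟨hn.2, n, by rw [zpow_natCast]; exact hn.1⟩
  · rintro ⟨rfl, h⟩
    obtain ⟨n, hn⟩ := h.exists_nat_pow_eq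
    exact ⟨n, by rw [zpow_natCast, embA_two_pow, hn]⟩

private theorem embA_exists_two {E : Type} [Finite E] (σ : Equiv.Perm (E × Bool))
    (h : ∀ x, (σ x).2 = x.2) : ∃ π ρ, σ = embA_two π ρ := by
  have hinj : ∀ b, Function.Injective fun e => (σ (e, b)).1 := by
    intro b e e' hee
    have : σ (e, b) = σ (e', b) := Prod.ext hee ((h _).trans (h (e', b)).symm)
    exact congrArg Prod.fst (σ.injective this)
  refine ⟨Equiv.ofBijective _ (Finite.injective_iff_bijective.1 (hinj true)),
    Equiv.ofBijective _ (Finite.injective_iff_bijective.1 (hinj false)), Equiv.ext ?_⟩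
  rintro ⟨e, b⟩
  cases b
  · exact Prod.ext rfl (h _)
  · exact Prod.ext rfl (h _)

private theorem embA_faces {E : Type} [Finite E] (π ρ : Equiv.Perm E) :
    ncyc (embA_two π ρ * flp E) = Nat.card E ↔ ρ = π⁻¹ := by
  constructor
  · intro h
    let φ := embA_two π ρ * flp E
    have ht : ∀ e, φ (e, true) = (ρ e, false) := fun e => rfl
    have hf : ∀ e, φ (e, false) = (π e, true) := fun e => rfl
    let q : E → Quotient (Equiv.Perm.SameCycle.setoid φ) := fun e => Quotient.mk _ (e, true)
    have hq : Function.Surjective q := by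
      intro c
      induction c using Quotient.inductionOn with
      | h x =>
        obtain ⟨e, b⟩ := x
        cases b
        · refine ⟨π e, Quotient.sound ?_⟩
          show φ.SameCycle _ _
          rw [← hf]
          exact Equiv.Perm.SameCycle.symm ⟨1, by simp⟩
        · exact ⟨e, rfl⟩
    have hb : Function.Bijective q := (Nat.bijective_iff_surjective_and_card q).2 ⟨hq, h.symm⟩
    refine eq_inv_of_mul_eq_one_right (Equiv.ext fun e => hb.1 (Quotient.sound ?_))
    show φ.SameCycle _ _
    refine Equiv.Perm.SameCycle.symm ⟨2, ?_⟩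
    rw [zpow_ofNat, pow_two, Equiv.Perm.mul_apply, ht, hf]
    rfl
  · rintro rfl
    have : embA_two π π⁻¹ * flp E = (embA_two 1 π⁻¹).permCongr (flp E) := by
      refine Equiv.ext fun x => ?_
      obtain ⟨y, rfl⟩ := (embA_two 1 π⁻¹).surjective x
      rw [Equiv.permCongr_apply, Equiv.symm_apply_apply]
      obtain ⟨e, b⟩ := y
      cases b
      · show (π (π⁻¹ e), true) = (e, true)
        simp
      · rfl
    rw [this, ncyc_permCongr, ncyc_flp]

theorem emb_bond (j : ℕ) : emb (clo (bond j)) (flp _) = j.factorial := by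
  have hν : ∀ x : Option (Fin j) × Bool, clo (bond j) x = Sum.inl x.2 := by
    rintro ⟨_ | e, b⟩ <;> rfl
  have hrot : ∀ π ρ : Equiv.Perm (Option (Fin j)), IsRot (clo (bond j)) (embA_two π ρ) ↔
      (∀ x y, π.SameCycle x y) ∧ ∀ x y, ρ.SameCycle x y := by
    intro π ρ
    constructor
    · intro h
      refine ⟨fun x y => ?_, fun x y => ?_⟩
      · exact ((embA_two_same π ρ x y true true).1 ((h _ _).2 (by rw [hν, hν]))).2
      · exact ((embA_two_same π ρ x y false false).1 ((h _ _).2 (by rw [hν, hν]))).2
    · rintro ⟨h1, h2⟩ ⟨e, b⟩ ⟨e', b'⟩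
      rw [embA_two_same, hν, hν, Sum.inl.injEq]
      refine ⟨fun h => h.1, fun h => ⟨h, ?_⟩⟩
      cases b
      · exact h2 _ _
      · exact h1 _ _
  have hgen : ∀ π ρ : Equiv.Perm (Option (Fin j)), IsRot (clo (bond j)) (embA_two π ρ) →
      (Gen0 (embA_two π ρ) (flp _) ↔ ρ = π⁻¹) := by
    intro π ρ h
    rw [← embA_faces]
    unfold Gen0
    have hs : Function.Surjective (clo (bond j)) := by
      rintro (b | w)
      · exact ⟨(none, b), rfl⟩
      · exact w.elim
    rw [ncyc_of_isRot h, ncyc_flp, Set.range_eq_univ.2 hs, Set.ncard_univ, Nat.card_prod]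
    simp only [Nat.card_eq_fintype_card, Fintype.card_sum, Fintype.card_bool,
      Fintype.card_empty, Fintype.card_option, Fintype.card_fin]
    omega
  rw [← embA_card_cyc]
  symm
  refine Nat.card_congr (Equiv.ofBijective (fun π => ⟨embA_two π.1 π.1⁻¹, ?_, ?_⟩) ⟨?_, ?_⟩)
  · exact (hrot _ _).2 ⟨π.2, fun x y => (π.2 x y).inv⟩
  · exact (hgen _ _ ((hrot _ _).2 ⟨π.2, fun x y => (π.2 x y).inv⟩)).2 rfl
  · intro π π' h
    refine Subtype.ext (Equiv.ext fun e => ?_)
    have h1 : embA_two π.1 π.1⁻¹ = embA_two π'.1 π'.1⁻¹ := congrArg Subtype.val h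
    have h2 := congrArg (fun s : Equiv.Perm (Option (Fin j) × Bool) => (s (e, true)).1) h1
    exact h2
  · rintro ⟨σ, hσ, h0⟩
    obtain ⟨π, ρ, rfl⟩ := embA_exists_two σ fun x => by
      have := (hσ x (σ x)).1 ⟨1, by simp⟩
      rw [hν, hν, Sum.inl.injEq] at this
      exact this.symm
    obtain rfl := (hgen _ _ hσ).1 h0
    exact ⟨⟨π, ((hrot _ _).1 hσ).1⟩, rfl⟩

theorem emb_edgeN : emb (clo edgeN) (flp _) = 1 := by
  refine Eq.trans ?_ (emb_bond 1)
  refine emb_congr (Equiv.refl _) (fun _ => rfl) ?_
  rintro ⟨_ | e, b⟩ ⟨_ | e', b'⟩ <;> simp [clo, edgeN, bond]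

theorem emb_empty {E V : Type} [IsEmpty E] (N : E × Bool → Bool ⊕ V) :
    emb (clo N) (flp _) = 1 := by
  refine Eq.trans ?_ (emb_bond 0)
  refine emb_congr (Equiv.prodCongr (Equiv.equivOfIsEmpty (Fin 0) E).optionCongr (Equiv.refl _))
    (fun _ => rfl) ?_
  rintro ⟨_ | e, b⟩ ⟨_ | e', b'⟩
  · simp [clo]
  · exact e'.elim0
  · exact e.elim0
  · exact e.elim0

private def embA_sw {E : Type} (x : Option E × Bool) : Option E × Bool :=
  (x.1, x.1.elim (!x.2) fun _ => x.2)

theorem emb_swapP {E V : Type} [Finite E] (N : E × Bool → Bool ⊕ V) :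
    emb (clo (swapP N)) (flp _) = emb (clo N) (flp _) := by
  have hi : Function.Involutive (embA_sw (E := E)) := by
    rintro ⟨_ | e, b⟩ <;> simp [embA_sw]
  have hm : ∀ x, clo (swapP N) (embA_sw x) = (clo N x).map not id := by
    rintro ⟨_ | e, b⟩ <;> rfl
  refine emb_congr hi.toPerm ?_ fun x y => ?_
  · rintro ⟨_ | e, b⟩ <;> rfl
  · show clo (swapP N) (embA_sw x) = clo (swapP N) (embA_sw y) ↔ _
    rw [hm, hm]
    exact (Sum.map_injective.2 ⟨Bool.not_injective, Function.injective_id⟩).eq_iff

end Pool.Agent.Lib.MP_77dff5_pr
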