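import Pool.Agent.Lib.MP_77dff5_pr.PermC

/-! Joining two rotation systems along two poles. -/

set_option autoImplicit false

namespace Pool.Agent.Lib.MP_77dff5_pr

open Equiv Sum
open scoped Classical

section sums
variable {A B : Type}

lemma embB_zpow (π : Perm A) (ρ : Perm B) (n : ℤ) :
    (Perm.sumCongr π ρ) ^ n = Perm.sumCongr (π ^ n) (ρ ^ n) :=
  (map_zpow (Perm.sumCongrHom A B) (π, ρ) n).symm

lemma embB_sc_ll (π : Perm A) (ρ : Perm B) (x y : A) :
    (Perm.sumCongr π ρ).SameCycle (inl x) (inl y) ↔ π.SameCycle x y := by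
  simp [Perm.SameCycle, embB_zpow]

lemma embB_sc_rr (π : Perm A) (ρ : Perm B) (x y : B) :
    (Perm.sumCongr π ρ).SameCycle (inr x) (inr y) ↔ ρ.SameCycle x y := by
  simp [Perm.SameCycle, embB_zpow]

lemma embB_sc_lr (π : Perm A) (ρ : Perm B) (x : A) (y : B) :
    ¬(Perm.sumCongr π ρ).SameCycle (inl x) (inr y) := by
  simp [Perm.SameCycle, embB_zpow]

lemma embB_sc_rl (π : Perm A) (ρ : Perm B) (x : B) (y : A) :
    ¬(Perm.sumCongr π ρ).SameCycle (inr x) (inl y) := by
  simp [Perm.SameCycle, embB_zpow]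

end sums

lemma embB_eq_of_sameCycle {D V : Type} [Finite D] {ν : D → V} {π : Perm D}
    (h : ∀ x, ν (π x) = ν x) {x y : D} (hxy : π.SameCycle x y) : ν x = ν y := by
  obtain ⟨n, -, rfl⟩ := hxy.exists_pow_eq'
  clear hxy
  induction n with
  | zero => rfl
  | succ n ih => rw [pow_succ', Perm.mul_apply, h, ← ih]

lemma IsRot.embB_apply {D V : Type} {ν : D → V} {σ : Perm D} (h : IsRot ν σ) (x : D) :
    ν (σ x) = ν x :=
  ((h x (σ x)).1 (Perm.sameCycle_apply_right.2 (Perm.SameCycle.refl _ _))).symm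

lemma embB_exit {D : Type} [Finite D] {σ : Perm D} {S : Set D} {x y : D} (h : σ.SameCycle x y)
    (hx : x ∈ S) (hy : y ∉ S) : ∃ z ∈ S, σ z ∉ S ∧ σ.SameCycle x z := by
  by_contra hc
  push Not at hc
  obtain ⟨n, -, rfl⟩ := h.exists_pow_eq'
  apply hy
  clear hy h
  induction n with
  | zero => exact hx
  | succ n ih =>
    rw [pow_succ', Perm.mul_apply]
    by_contra h2
    exact hc _ ih h2 ⟨n, by simp⟩

section join
variable {A B V : Type}

/-- join two rotation systems after the darts `lA c` and `lB c` -/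
noncomputable def embBJoin (γA : Perm A) (lA : Bool → A) (γB : Perm B) (lB : Bool → B) :
    Perm (A ⊕ B) :=
  Perm.sumCongr γA γB * swap (inl (lA true)) (inr (lB true)) *
    swap (inl (lA false)) (inr (lB false))

variable {γA : Perm A} {lA : Bool → A} {γB : Perm B} {lB : Bool → B}

lemma embBJoin_last (hA : lA true ≠ lA false) (hB : lB true ≠ lB false) (c : Bool) :
    embBJoin γA lA γB lB (inl (lA c)) = inr (γB (lB c)) := by
  cases c
  · simp [embBJoin, swap_apply_def, hB.symm]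
  · simp [embBJoin, swap_apply_def, hA]

lemma embBJoin_last' (hA : lA true ≠ lA false) (hB : lB true ≠ lB false) (c : Bool) :
    embBJoin γA lA γB lB (inr (lB c)) = inl (γA (lA c)) := by
  cases c
  · simp [embBJoin, swap_apply_def, hA.symm]
  · simp [embBJoin, swap_apply_def, hB]

lemma embBJoin_inl {a : A} (h : ∀ c, a ≠ lA c) : embBJoin γA lA γB lB (inl a) = inl (γA a) := by
  simp [embBJoin, swap_apply_def, h]

lemma embBJoin_inr {b : B} (h : ∀ c, b ≠ lB c) : embBJoin γA lA γB lB (inr b) = inr (γB b) := by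
  simp [embBJoin, swap_apply_def, h]

variable [Finite A] [Finite B]

lemma embB_one (π : Perm A) (ρ : Perm B) (a : A) (b : B) (x y : A ⊕ B) :
    (Perm.sumCongr π ρ * swap (inl a) (inr b)).SameCycle x y ↔
      (Perm.sumCongr π ρ).SameCycle x y ∨
      ((Perm.sumCongr π ρ).SameCycle x (inl a) ∧ (Perm.sumCongr π ρ).SameCycle y (inr b)) ∨
      ((Perm.sumCongr π ρ).SameCycle x (inr b) ∧ (Perm.sumCongr π ρ).SameCycle y (inl a)) :=
  sameCycle_mul_swap_of_not _ (embB_sc_lr π ρ a b) x y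

lemma embB_one_lr (π : Perm A) (ρ : Perm B) (a : A) (b : B) (x : A) (y : B) :
    (Perm.sumCongr π ρ * swap (inl a) (inr b)).SameCycle (inl x) (inr y) ↔
      π.SameCycle x a ∧ ρ.SameCycle y b := by
  simp [embB_one, embB_sc_ll, embB_sc_rr, embB_sc_lr, embB_sc_rl]

lemma embB_two (hA : ¬γA.SameCycle (lA true) (lA false)) :
    ¬(Perm.sumCongr γA γB * swap (inl (lA true)) (inr (lB true))).SameCycle
      (inl (lA false)) (inr (lB false)) := by
  rw [embB_one_lr]
  exact fun h => hA h.1.symm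

lemma embBJoin_ll (hA : ¬γA.SameCycle (lA true) (lA false))
    (hB : ¬γB.SameCycle (lB true) (lB false)) (x y : A) :
    (embBJoin γA lA γB lB).SameCycle (inl x) (inl y) ↔ γA.SameCycle x y := by
  have hB' : ¬γB.SameCycle (lB false) (lB true) := fun h => hB h.symm
  rw [embBJoin, sameCycle_mul_swap_of_not _ (embB_two hA)]
  simp [embB_one, embB_sc_ll, embB_sc_rr, embB_sc_lr, embB_sc_rl, hB']

lemma embBJoin_rr (hA : ¬γA.SameCycle (lA true) (lA false)) (x y : B) :
    (embBJoin γA lA γB lB).SameCycle (inr x) (inr y) ↔ γB.SameCycle x y := by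
  have hA' : ¬γA.SameCycle (lA false) (lA true) := fun h => hA h.symm
  rw [embBJoin, sameCycle_mul_swap_of_not _ (embB_two hA)]
  simp [embB_one, embB_sc_ll, embB_sc_rr, embB_sc_lr, embB_sc_rl, hA']

lemma embBJoin_lr (hA : ¬γA.SameCycle (lA true) (lA false)) (c : Bool) {x : A} {y : B}
    (hx : γA.SameCycle x (lA c)) (hy : γB.SameCycle y (lB c)) :
    (embBJoin γA lA γB lB).SameCycle (inl x) (inr y) := by
  rw [embBJoin, sameCycle_mul_swap_of_not _ (embB_two hA)]
  cases c
  · right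
    left
    exact ⟨(embB_one _ _ _ _ _ _).2 (Or.inl ((embB_sc_ll _ _ _ _).2 hx)),
      (embB_one _ _ _ _ _ _).2 (Or.inl ((embB_sc_rr _ _ _ _).2 hy))⟩
  · left
    exact (embB_one_lr _ _ _ _ _ _).2 ⟨hx, hy⟩

lemma embBJoin_ncyc (hA : ¬γA.SameCycle (lA true) (lA false)) :
    ncyc (embBJoin γA lA γB lB) + 2 = ncyc γA + ncyc γB := by
  have h1 := ncyc_mul_swap_of_not _ (embB_sc_lr γA γB (lA true) (lB true))
  have h2 := ncyc_mul_swap_of_not _ (embB_two (γB := γB) (lB := lB) hA)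
  rw [ncyc_sumCongr] at h1
  unfold embBJoin
  omega

omit [Finite A] [Finite B] in
lemma embBJoin_mul (αA : Perm A) (αB : Perm B) :
    embBJoin γA lA γB lB * Perm.sumCongr αA αB =
      embBJoin (γA * αA) (fun c => αA⁻¹ (lA c)) (γB * αB) (fun c => αB⁻¹ (lB c)) := by
  unfold embBJoin
  rw [mul_assoc, swap_mul_eq_mul_swap, ← mul_assoc, mul_assoc (Perm.sumCongr γA γB),
    swap_mul_eq_mul_swap, ← mul_assoc, Perm.sumCongr_mul]
  rfl

/-- Euler's relation for the join. -/
lemma embBJoin_gen0 {αA : Perm A} {αB : Perm B} (hA : ¬γA.SameCycle (lA true) (lA false))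
    (cA : Trans2 γA αA) (cB : Trans2 γB αB) :
    Gen0 (embBJoin γA lA γB lB) (Perm.sumCongr αA αB) ↔
      (Gen0 γA αA ∧ (γA * αA).SameCycle (αA⁻¹ (lA true)) (αA⁻¹ (lA false))) ∧
      (Gen0 γB αB ∧ (γB * αB).SameCycle (αB⁻¹ (lB true)) (αB⁻¹ (lB false))) := by
  have e1 := embBJoin_ncyc (γB := γB) (lB := lB) hA
  have e2 := euler_le_of_trans2 cA
  have e3 := euler_le_of_trans2 cB
  have e4 := ncyc_mul_swap_of_not _
    (embB_sc_lr (γA * αA) (γB * αB) (αA⁻¹ (lA true)) (αB⁻¹ (lB true)))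
  rw [ncyc_sumCongr] at e4
  unfold Gen0
  rw [embBJoin_mul, ncyc_sumCongr, Nat.card_sum]
  by_cases h : (Perm.sumCongr (γA * αA) (γB * αB) *
      swap (inl (αA⁻¹ (lA true))) (inr (αB⁻¹ (lB true)))).SameCycle
      (inl (αA⁻¹ (lA false))) (inr (αB⁻¹ (lB false)))
  · have e5 := ncyc_mul_swap_of_same _ h inl_ne_inr
    rw [embB_one_lr] at h
    simp only [embBJoin] at e1 ⊢
    constructor
    · intro h0
      exact ⟨⟨by omega, h.1.symm⟩, by omega, h.2.symm⟩
    · rintro ⟨⟨h1, -⟩, h2, -⟩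
      omega
  · have e5 := ncyc_mul_swap_of_not _ h
    rw [embB_one_lr] at h
    simp only [embBJoin] at e1 ⊢
    constructor
    · intro h0
      omega
    · rintro ⟨⟨-, h1⟩, -, h2⟩
      exact absurd ⟨h1.symm, h2.symm⟩ h

variable {νA : A → V} {νB : B → V} {u : Bool → V}

omit [Finite A] in
lemma embB_ne (hu : u true ≠ u false) (hl : ∀ c, νA (lA c) = u c) : lA true ≠ lA false :=
  fun h => hu (by rw [← hl, ← hl, h])

lemma embB_pole_eq (hu : u true ≠ u false) {c c' : Bool} (h : u c = u c') : c = c' := by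
  cases c <;> cases c'
  · rfl
  · exact absurd h.symm hu
  · exact absurd h hu
  · rfl

lemma embBJoin_isRot (hu : u true ≠ u false)
    (sep : ∀ a b, νA a = νB b → ∃ c, νA a = u c) (rA : IsRot νA γA) (rB : IsRot νB γB)
    (hlA : ∀ c, νA (lA c) = u c) (hlB : ∀ c, νB (lB c) = u c) :
    IsRot (Sum.elim νA νB) (embBJoin γA lA γB lB) := by
  have hA : ¬γA.SameCycle (lA true) (lA false) := by rw [rA, hlA, hlA]; exact hu
  have hB : ¬γB.SameCycle (lB true) (lB false) := by rw [rB, hlB, hlB]; exact hu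
  have hpres : ∀ x, Sum.elim νA νB (embBJoin γA lA γB lB x) = Sum.elim νA νB x := by
    rintro (a | b)
    · by_cases h : ∀ c, a ≠ lA c
      · rw [embBJoin_inl h]
        exact rA.embB_apply a
      · push Not at h
        obtain ⟨c, rfl⟩ := h
        rw [embBJoin_last (embB_ne hu hlA) (embB_ne hu hlB)]
        simp only [elim_inl, elim_inr, rB.embB_apply, hlA, hlB]
    · by_cases h : ∀ c, b ≠ lB c
      · rw [embBJoin_inr h]
        exact rB.embB_apply b
      · push Not at h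
        obtain ⟨c, rfl⟩ := h
        rw [embBJoin_last' (embB_ne hu hlA) (embB_ne hu hlB)]
        simp only [elim_inl, elim_inr, rA.embB_apply, hlA, hlB]
  have hlr : ∀ a b, νA a = νB b → (embBJoin γA lA γB lB).SameCycle (inl a) (inr b) := by
    intro a b h
    obtain ⟨c, hc⟩ := sep a b h
    exact embBJoin_lr hA c ((rA _ _).2 (by rw [hc, hlA])) ((rB _ _).2 (by rw [← h, hc, hlB]))
  intro x y
  refine ⟨embB_eq_of_sameCycle hpres, ?_⟩
  rcases x with a | b <;> rcases y with a' | b'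
  · exact fun h => (embBJoin_ll hA hB _ _).2 ((rA _ _).2 h)
  · exact hlr a b'
  · exact fun h => (hlr a' b h.symm).symm
  · exact fun h => (embBJoin_rr hA _ _).2 ((rB _ _).2 h)

omit [Finite A] [Finite B] in
lemma embBJoin_inj (hu : u true ≠ u false) {γA' : Perm A} {lA' : Bool → A} {γB' : Perm B}
    {lB' : Bool → B} (hlA : ∀ c, νA (lA c) = u c) (hlB : ∀ c, νB (lB c) = u c)
    (hlA' : ∀ c, νA (lA' c) = u c) (hlB' : ∀ c, νB (lB' c) = u c)
    (h : embBJoin γA lA γB lB = embBJoin γA' lA' γB' lB') :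
    (γA, lA) = (γA', lA') ∧ (γB, lB) = (γB', lB') := by
  have h1 : lA = lA' := by
    funext c
    by_contra hne
    have h2 : ∀ c', lA c ≠ lA' c' := by
      intro c' h3
      have h4 : c = c' := embB_pole_eq hu (by rw [← hlA, h3, hlA'])
      exact hne (h4 ▸ h3)
    have h3 := embBJoin_last (γA := γA) (γB := γB) (embB_ne hu hlA) (embB_ne hu hlB) c
    rw [h, embBJoin_inl h2] at h3
    exact inl_ne_inr h3
  have h2 : lB = lB' := by
    funext c
    by_contra hne
    have h2 : ∀ c', lB c ≠ lB' c' := by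
      intro c' h3
      have h4 : c = c' := embB_pole_eq hu (by rw [← hlB, h3, hlB'])
      exact hne (h4 ▸ h3)
    have h3 := embBJoin_last' (γA := γA) (γB := γB) (embB_ne hu hlA) (embB_ne hu hlB) c
    rw [h, embBJoin_inr h2] at h3
    exact inr_ne_inl h3
  subst h1 h2
  unfold embBJoin at h
  have h3 : (γA, γB) = (γA', γB') :=
    Perm.sumCongrHom_injective (mul_right_cancel (mul_right_cancel h))
  obtain ⟨rfl, rfl⟩ := Prod.mk.inj h3
  exact ⟨rfl, rfl⟩

/-- A rotation system with unique exits is a join. -/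
lemma embBJoin_surj (hu : u true ≠ u false) (sep : ∀ a b, νA a = νB b → ∃ c, νA a = u c)
    (metA : ∀ c, ∃ a, νA a = u c) (metB : ∀ c, ∃ b, νB b = u c) {σ : Perm (A ⊕ B)}
    (hσ : IsRot (Sum.elim νA νB) σ)
    (huniq : (∀ a a' b b', νA a = νA a' → σ (inl a) = inr b → σ (inl a') = inr b' → a = a') ∨
      ∀ b b' a a', νB b = νB b' → σ (inr b) = inl a → σ (inr b') = inl a' → b = b') :
    ∃ γA lA γB lB, IsRot νA γA ∧ IsRot νB γB ∧ (∀ c, νA (lA c) = u c) ∧ (∀ c, νB (lB c) = u c) ∧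
      σ = embBJoin γA lA γB lB := by
  have exA : ∀ c, ∃ a, νA a = u c ∧ ∃ b, σ (inl a) = inr b := by
    intro c
    obtain ⟨a, ha⟩ := metA c
    obtain ⟨b, hb⟩ := metB c
    obtain ⟨z, ⟨a', rfl⟩, h1, h2⟩ := embB_exit (S := Set.range inl)
      ((hσ (inl a) (inr b)).2 (ha.trans hb.symm)) ⟨a, rfl⟩ (by simp)
    refine ⟨a', ((hσ _ _).1 h2).symm.trans ha, ?_⟩
    rcases h3 : σ (inl a') with a'' | b'
    · exact absurd ⟨a'', h3.symm⟩ h1
    · exact ⟨b', rfl⟩
  have exB : ∀ c, ∃ b, νB b = u c ∧ ∃ a, σ (inr b) = inl a := by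
    intro c
    obtain ⟨a, ha⟩ := metA c
    obtain ⟨b, hb⟩ := metB c
    obtain ⟨z, ⟨b', rfl⟩, h1, h2⟩ := embB_exit (S := Set.range inr)
      ((hσ (inr b) (inl a)).2 (hb.trans ha.symm)) ⟨b, rfl⟩ (by simp)
    refine ⟨b', ((hσ _ _).1 h2).symm.trans hb, ?_⟩
    rcases h3 : σ (inr b') with a' | b''
    · exact ⟨a', rfl⟩
    · exact absurd ⟨b'', h3.symm⟩ h1
  choose lA hlA nA hnA using exA
  choose lB hlB nB hnB using exB
  have hA := embB_ne hu hlA
  have hB := embB_ne hu hlB
  set g : Perm (A ⊕ B) := σ * swap (inl (lA false)) (inr (lB false)) *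
    swap (inl (lA true)) (inr (lB true)) with hg
  have g1 : ∀ c, g (inl (lA c)) = σ (inr (lB c)) := by
    intro c
    cases c
    · simp [hg, swap_apply_def, hA.symm]
    · simp [hg, swap_apply_def, hB]
  have g2 : ∀ c, g (inr (lB c)) = σ (inl (lA c)) := by
    intro c
    cases c
    · simp [hg, swap_apply_def, hB.symm]
    · simp [hg, swap_apply_def, hA]
  have g3 : ∀ a, (∀ c, a ≠ lA c) → g (inl a) = σ (inl a) := by
    intro a h
    simp [hg, swap_apply_def, h]
  have g4 : ∀ b, (∀ c, b ≠ lB c) → g (inr b) = σ (inr b) := by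
    intro b h
    simp [hg, swap_apply_def, h]
  have hmap : Set.MapsTo g (Set.range inl) (Set.range inl) := by
    rcases huniq with h | h
    · rintro _ ⟨a, rfl⟩
      by_cases ha : ∀ c, a ≠ lA c
      · rw [g3 a ha]
        rcases h3 : σ (inl a) with a' | b
        · exact ⟨a', rfl⟩
        · have h4 := hσ.embB_apply (inl a)
          rw [h3] at h4
          obtain ⟨c, hc⟩ := sep a b h4.symm
          exact absurd (h a (lA c) b _ (hc.trans (hlA c).symm) h3 (hnA c)) (ha c)
      · push Not at ha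
        obtain ⟨c, rfl⟩ := ha
        rw [g1, hnB]
        exact ⟨_, rfl⟩
    · rw [Perm.perm_mapsTo_inl_iff_mapsTo_inr]
      rintro _ ⟨b, rfl⟩
      by_cases hb : ∀ c, b ≠ lB c
      · rw [g4 b hb]
        rcases h3 : σ (inr b) with a | b'
        · have h4 := hσ.embB_apply (inr b)
          rw [h3] at h4
          obtain ⟨c, hc⟩ := sep a b h4
          exact absurd (h b (lB c) a _ ((h4.symm.trans hc).trans (hlB c).symm) h3 (hnB c)) (hb c)
        · exact ⟨b', rfl⟩
      · push Not at hb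
        obtain ⟨c, rfl⟩ := hb
        rw [g2, hnA]
        exact ⟨_, rfl⟩
  obtain ⟨⟨γA, γB⟩, hγ⟩ := Perm.mem_sumCongrHom_range_of_perm_mapsTo_inl hmap
  have hγ' : Perm.sumCongr γA γB = g := hγ
  have hj : σ = embBJoin γA lA γB lB := by
    unfold embBJoin
    rw [hγ', hg]
    simp [mul_assoc]
  have pA : ∀ a, νA (γA a) = νA a := by
    intro a
    have h1 : Sum.elim νA νB (g (inl a)) = νA a := by
      by_cases ha : ∀ c, a ≠ lA c
      · rw [g3 a ha, hσ.embB_apply]
        rfl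
      · push Not at ha
        obtain ⟨c, rfl⟩ := ha
        rw [g1, hσ.embB_apply, elim_inr, hlA, hlB]
    rwa [← hγ'] at h1
  have pB : ∀ b, νB (γB b) = νB b := by
    intro b
    have h1 : Sum.elim νA νB (g (inr b)) = νB b := by
      by_cases hb : ∀ c, b ≠ lB c
      · rw [g4 b hb, hσ.embB_apply]
        rfl
      · push Not at hb
        obtain ⟨c, rfl⟩ := hb
        rw [g2, hσ.embB_apply, elim_inl, hlA, hlB]
    rwa [← hγ'] at h1
  have nA' : ¬γA.SameCycle (lA true) (lA false) := fun h =>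
    hu (by rw [← hlA, ← hlA]; exact embB_eq_of_sameCycle pA h)
  have nB' : ¬γB.SameCycle (lB true) (lB false) := fun h =>
    hu (by rw [← hlB, ← hlB]; exact embB_eq_of_sameCycle pB h)
  refine ⟨γA, lA, γB, lB, fun x y => ?_, fun x y => ?_, hlA, hlB, hj⟩
  · rw [← embBJoin_ll nA' nB', ← hj, hσ]
    rfl
  · rw [← embBJoin_rr (lB := lB) nA', ← hj, hσ]
    rfl

end join

end Pool.Agent.Lib.MP_77dff5_pr
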