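import Pool.Agent.Lib.MP_77dff5_pr.UDefs

/-! Sums over fillings by elements of one summand of the common space. -/

set_option autoImplicit false

namespace Pool.Agent.Lib.MP_77dff5_pr

open scoped ENNReal NNReal Classical

theorem eqOm_inj {α β : Type} (j : α → β) (hj : Function.Injective j) (g : β → ℝ≥0∞)
    (h : ∀ b, g b ≠ 0 → ∃ a, j a = b) : ∑' b, g b = ∑' a, g (j a) :=
  (hj.tsum_eq (f := g) fun b hb => h b hb).symm

theorem eqOm_onR {w : RG → ℝ≥0∞} {ω : Om} (h : onR w ω ≠ 0) : ∃ R, Sum.inl R = ω := by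
  rcases ω with R | D | ν
  · exact ⟨R, rfl⟩
  · exact absurd rfl h
  · exact absurd rfl h

theorem eqOm_onD {w : DG → ℝ≥0∞} {ω : Om} (h : onD w ω ≠ 0) :
    ∃ D, Sum.inr (Sum.inl D) = ω := by
  rcases ω with R | D | ν
  · exact absurd rfl h
  · exact ⟨D, rfl⟩
  · exact absurd rfl h

theorem eqOm_onU {w : UG → ℝ≥0∞} {ω : Om} (h : onU w ω ≠ 0) :
    ∃ ν, Sum.inr (Sum.inr ν) = ω := by
  rcases ω with R | D | ν
  · exact absurd rfl h
  · exact absurd rfl h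
  · exact ⟨ν, rfl⟩

theorem tsum_onR (w : RG → ℝ≥0∞) (F : Om → ℝ≥0∞) :
    ∑' ω, onR w ω * F ω = ∑' R, w R * F (.inl R) :=
  eqOm_inj (fun R : RG => (Sum.inl R : Om)) Sum.inl_injective (fun ω => onR w ω * F ω)
    fun _ h => eqOm_onR (left_ne_zero_of_mul h)

theorem tsum_onD (w : DG → ℝ≥0∞) (F : Om → ℝ≥0∞) :
    ∑' ω, onD w ω * F ω = ∑' D, w D * F (.inr (.inl D)) :=
  eqOm_inj (fun D : DG => (Sum.inr (Sum.inl D) : Om))
    (Sum.inr_injective.comp Sum.inl_injective) (fun ω => onD w ω * F ω)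
    fun _ h => eqOm_onD (left_ne_zero_of_mul h)

theorem tsum_onU (w : UG → ℝ≥0∞) (F : Om → ℝ≥0∞) :
    ∑' ω, onU w ω * F ω = ∑' ν, w ν * F (.inr (.inr ν)) :=
  eqOm_inj (fun ν : UG => (Sum.inr (Sum.inr ν) : Om))
    (Sum.inr_injective.comp Sum.inr_injective) (fun ω => onU w ω * F ω)
    fun _ h => eqOm_onU (left_ne_zero_of_mul h)

theorem tsum_pi_onD {I : Type} [Fintype I] (w : I → DG → ℝ≥0∞) (F : (I → Om) → ℝ≥0∞) :
    ∑' ω : I → Om, (∏ i, onD (w i) (ω i)) * F ω =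
      ∑' Ds : I → DG, (∏ i, w i (Ds i)) * F fun i => .inr (.inl (Ds i)) := by
  refine eqOm_inj (fun (Ds : I → DG) (i : I) => (Sum.inr (Sum.inl (Ds i)) : Om)) ?_
    (fun ω => (∏ i, onD (w i) (ω i)) * F ω) fun ω h => ?_
  · intro Ds Ds' h
    funext i
    exact Sum.inl_injective (Sum.inr_injective (congrFun h i))
  · have h1 := Finset.prod_ne_zero_iff.1 (left_ne_zero_of_mul h)
    choose Ds hDs using fun i => eqOm_onD (h1 i (Finset.mem_univ i))
    exact ⟨Ds, funext hDs⟩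

theorem tsum_pi_sum {I I' : Type} [Fintype I] [Fintype I'] (w : DG → ℝ≥0∞) (w' : RG → ℝ≥0∞)
    (F : (I ⊕ I' → Om) → ℝ≥0∞) :
    ∑' ω : I ⊕ I' → Om, (∏ i, Sum.elim (fun _ => onD w) (fun _ => onR w') i (ω i)) * F ω =
      ∑' Ds : I → DG, ∑' b : I' → RG, (∏ i, w (Ds i)) * (∏ v, w' (b v)) *
        F (Sum.elim (fun i => .inr (.inl (Ds i))) fun v => .inl (b v)) := by
  rw [eqOm_inj (fun p : (I → DG) × (I' → RG) =>
      (Sum.elim (fun i => .inr (.inl (p.1 i))) fun v => .inl (p.2 v) : I ⊕ I' → Om)) ?_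
    (fun ω => (∏ i, Sum.elim (fun _ => onD w) (fun _ => onR w') i (ω i)) * F ω) fun ω h => ?_,
    ENNReal.tsum_prod']
  · refine tsum_congr fun Ds => tsum_congr fun b => ?_
    rw [Fintype.prod_sum_type]
    rfl
  · intro p p' h
    refine Prod.ext (funext fun i => ?_) (funext fun v => ?_)
    · exact Sum.inl_injective (Sum.inr_injective (congrFun h (.inl i)))
    · exact Sum.inl_injective (congrFun h (.inr v))
  · have h1 := Finset.prod_ne_zero_iff.1 (left_ne_zero_of_mul h)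
    choose Ds hDs using fun i => eqOm_onD (w := w) (h1 (.inl i) (Finset.mem_univ _))
    choose b hb using fun v => eqOm_onR (w := w') (h1 (.inr v) (Finset.mem_univ _))
    refine ⟨(Ds, b), funext fun i => ?_⟩
    rcases i with i | v
    · exact hDs i
    · exact hb v

theorem tsum_fin_two (w : Fin 2 → Om → ℝ≥0∞) (F : (Fin 2 → Om) → ℝ≥0∞) :
    ∑' ω : Fin 2 → Om, (∏ i, w i (ω i)) * F ω =
      ∑' ω₀, w 0 ω₀ * ∑' ω₁, w 1 ω₁ * F ![ω₀, ω₁] := by
  rw [eqOm_inj (fun p : Om × Om => (![p.1, p.2] : Fin 2 → Om)) ?_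
    (fun ω => (∏ i, w i (ω i)) * F ω) fun ω _ => ?_, ENNReal.tsum_prod']
  · refine tsum_congr fun a => ?_
    rw [← ENNReal.tsum_mul_left]
    refine tsum_congr fun b => ?_
    rw [Fin.prod_univ_two, mul_assoc]
    rfl
  · intro p p' h
    exact Prod.ext (congrFun h 0) (congrFun h 1)
  · refine ⟨(ω 0, ω 1), funext fun i => ?_⟩
    fin_cases i <;> rfl

theorem tsum_fin_three (w : Fin 3 → Om → ℝ≥0∞) (F : (Fin 3 → Om) → ℝ≥0∞) :
    ∑' ω : Fin 3 → Om, (∏ i, w i (ω i)) * F ω =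
      ∑' ω₀, w 0 ω₀ * ∑' ω₁, w 1 ω₁ * ∑' ω₂, w 2 ω₂ * F ![ω₀, ω₁, ω₂] := by
  rw [eqOm_inj (fun p : Om × Om × Om => (![p.1, p.2.1, p.2.2] : Fin 3 → Om)) ?_
    (fun ω => (∏ i, w i (ω i)) * F ω) fun ω _ => ?_, ENNReal.tsum_prod']
  · refine tsum_congr fun a => ?_
    rw [← ENNReal.tsum_mul_left, ENNReal.tsum_prod']
    refine tsum_congr fun b => ?_
    rw [← ENNReal.tsum_mul_left, ← ENNReal.tsum_mul_left]
    refine tsum_congr fun c => ?_
    rw [Fin.prod_univ_three, mul_assoc, mul_assoc]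
    rfl
  · intro p p' h
    exact Prod.ext (congrFun h 0) (Prod.ext (congrFun h 1) (congrFun h 2))
  · refine ⟨(ω 0, ω 1, ω 2), funext fun i => ?_⟩
    fin_cases i <;> rfl

theorem eqOm_wTriv_triv (c : ℝ≥0∞) : wTriv c triv = c := by simp [wTriv, ind]

theorem eqOm_wTriv_ne (c : ℝ≥0∞) {R : RG} (h : R ≠ triv) : wTriv c R = 0 := by
  simp [wTriv, ind, h]

theorem tsum_wTriv (c : ℝ≥0∞) (F : RG → ℝ≥0∞) : ∑' R, wTriv c R * F R = c * F triv := by
  rw [tsum_eq_single triv fun R hR => by rw [eqOm_wTriv_ne c hR, zero_mul], eqOm_wTriv_triv]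

theorem tsum_pi_wTriv {I : Type} [Fintype I] (c : ℝ≥0∞) (F : (I → RG) → ℝ≥0∞) :
    ∑' a : I → RG, (∏ i, wTriv c (a i)) * F a = c ^ Fintype.card I * F fun _ => triv := by
  rw [tsum_eq_single (fun _ => triv) fun a ha => ?_]
  · simp only [eqOm_wTriv_triv, Finset.prod_const, Finset.card_univ]
  · obtain ⟨i, hi⟩ := Function.ne_iff.1 ha
    rw [Finset.prod_eq_zero (Finset.mem_univ i) (eqOm_wTriv_ne c hi), zero_mul]

theorem rc_triv : rc triv = 0 := by
  unfold rc deg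
  have : IsEmpty {x // triv.2.2 x = none} := ⟨fun x => x.1.1.elim0⟩
  exact Nat.card_of_isEmpty

theorem rF_triv (f : ℕ → ℝ) : rF f triv = 0 :=
  Finset.sum_eq_zero fun v _ => v.elim0

/-- the mass of a decorated class only depends on the masses of the decorations -/
theorem mass_wDec (wN : NG → ℝ≥0∞) (wd wv : RG → ℝ≥0∞) :
    ∑' D, wDec wN wd wv D = ∑' N, wN N * (∑' R, wd R) ^ (2 * N.1) * (∑' R, wv R) ^ N.2.1 := by
  rw [ENNReal.tsum_sigma']
  refine tsum_congr fun N => ?_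
  have h1 := tsum_pi_prod (I := Fin N.1 × Bool) fun _ => wd
  have h2 := tsum_pi_prod (I := Fin N.2.1) fun _ => wv
  rw [Finset.prod_const, Finset.card_univ, Fintype.card_prod, Fintype.card_fin,
    Fintype.card_bool, mul_comm N.1 2] at h1
  rw [Finset.prod_const, Finset.card_univ, Fintype.card_fin] at h2
  rw [ENNReal.tsum_prod', ← h1, ← h2, ← ENNReal.tsum_mul_left (a := wN N),
    ← ENNReal.tsum_mul_right]
  refine tsum_congr fun a => ?_
  rw [← ENNReal.tsum_mul_left]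
  rfl

end Pool.Agent.Lib.MP_77dff5_pr
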