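import Pool.Agent.Lib.MP_77dff5_pr.Net
import Pool.Agent.Lib.MP_77dff5_pr.Perm

/-! Whitney's theorem: a 3-connected planar graph has exactly two planar rotation systems. -/

set_option autoImplicit false

namespace Pool.Agent.Lib.MP_77dff5_pr

open Equiv

section aux
variable {E V : Type}

theorem wh_ff (x : E × Bool) : flp E (flp E x) = x := by
  rcases x with ⟨e, b⟩
  cases b <;> rfl

theorem wh_fst (x : E × Bool) : (flp E x).1 = x.1 := rfl

theorem wh_inv : (flp E)⁻¹ = flp E := by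
  refine inv_eq_of_mul_eq_one_right (Equiv.ext fun x => wh_ff x)

theorem wh_edge {x y : E × Bool} (h : y.1 = x.1) : y = x ∨ y = flp E x := by
  rcases x with ⟨e, b⟩
  rcases y with ⟨e', b'⟩
  obtain rfl : e' = e := h
  cases b <;> cases b' <;> simp [flp]

theorem wh_pair {D : Type} (a b : D) : ({a, b} : Set D).ncard ≤ 2 :=
  (Set.ncard_insert_le _ _).trans (by rw [Set.ncard_singleton])

/-- Walking along a cycle. -/
theorem wh_walk {D : Type} [Finite D] (π : Perm D) (B : Set D) (R : D → D → Prop) (s : D)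
    (hr : R s s) (ht : ∀ y z, R s y → R y z → R s z)
    (h : ∀ z, π.SameCycle s z → π z ∉ B → π z = s ∨ (z ∉ B ∧ R z (π z))) {z : D}
    (hz : π.SameCycle s z) (hB : z ∉ B) : R s z := by
  obtain ⟨n, rfl⟩ := hz.exists_nat_pow_eq
  induction n with
  | zero => exact hr
  | succ n ih =>
    have h1 : π.SameCycle s ((π ^ n) s) := ⟨n, by simp⟩
    rw [pow_succ', Perm.mul_apply] at hB ⊢
    rcases h _ h1 hB with h2 | ⟨h2, h3⟩
    · rw [h2]; exact hr
    · exact ht _ _ (ih h1 h2) h3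

theorem wh_rot {D : Type} {ν : D → V} {σ : Perm D} (h : IsRot ν σ) (x : D) : ν (σ x) = ν x :=
  ((h x (σ x)).1 ⟨1, by simp⟩).symm

theorem wh_rot' {D : Type} {ν : D → V} {σ : Perm D} (h : IsRot ν σ) (x : D) : ν (σ⁻¹ x) = ν x := by
  rw [← wh_rot h (σ⁻¹ x)]; simp

theorem wh_deg {D : Type} [Finite D] {ν : D → V} {σ : Perm D} (h : IsRot ν σ) {x : D}
    (hd : 3 ≤ deg ν (ν x)) : σ (σ x) ≠ x := by
  intro h2
  have h1 : ∀ y, ν y = ν x → y = x ∨ y = σ x := by
    intro y hy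
    refine wh_walk σ ∅ (fun _ z => z = x ∨ z = σ x) x (Or.inl rfl) (fun _ _ _ h => h) ?_
      ((h x y).2 hy.symm) (Set.notMem_empty _)
    intro z hz _
    obtain ⟨n, rfl⟩ := hz.exists_nat_pow_eq
    refine Or.inr ⟨Set.notMem_empty _, ?_⟩
    induction n with
    | zero => exact Or.inr rfl
    | succ n ih =>
      rw [pow_succ', Perm.mul_apply]
      rcases ih ⟨n, by simp⟩ (Set.notMem_empty _) with h3 | h3
      · rw [h3]; exact Or.inr rfl
      · rw [h3, h2]; exact Or.inl rfl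
  have h3 : deg ν (ν x) ≤ 2 := by
    have h4 : {y | ν y = ν x} ⊆ {x, σ x} := fun y hy => h1 y hy
    exact (Set.ncard_le_ncard h4 (Set.toFinite _)).trans (wh_pair _ _)
  omega

/-- The edges linked to a dart have their boundary where `ρ` differs from `σ`. -/
theorem wh_bd [Finite E] {ν : E × Bool → V} {σ ρ : Perm (E × Bool)} (hσ : IsRot ν σ) (S : Set V)
    (hρ : ∀ x, ν x ∉ S → ρ x = σ x) (c : E × Bool) :
    ∃ X : Set E, (∀ x, x.1 ∈ X ↔ Relation.EqvGen (fun x y => y = ρ x ∨ y = flp E x) c x) ∧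
      bd ν X ⊆ S := by
  have hX : ∀ x : E × Bool, Relation.EqvGen (fun x y => y = ρ x ∨ y = flp E x) c (x.1, true) ↔
      Relation.EqvGen (fun x y => y = ρ x ∨ y = flp E x) c x := by
    intro x
    rcases wh_edge (x := x) (y := (x.1, true)) rfl with h | h
    · rw [h]
    · rw [h]
      exact ⟨fun H => .trans _ _ _ H (.symm _ _ (.rel _ _ (Or.inr rfl))),
        fun H => .trans _ _ _ H (.rel _ _ (Or.inr rfl))⟩
  refine ⟨{e | Relation.EqvGen (fun x y => y = ρ x ∨ y = flp E x) c (e, true)}, hX, ?_⟩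
  rintro w ⟨⟨x, hx, hxw⟩, y, hy, hyw⟩
  by_contra hw
  refine hy ((hX y).2 (.trans _ _ _ ((hX x).1 hx) ?_))
  refine wh_walk σ ∅ (Relation.EqvGen fun x y => y = ρ x ∨ y = flp E x) x (.refl _)
    (fun _ _ h h' => .trans _ _ _ h h') ?_ ((hσ x y).2 (hxw.trans hyw.symm)) (Set.notMem_empty _)
  intro z hz _
  refine Or.inr ⟨Set.notMem_empty _, .rel _ _ (Or.inl (hρ z ?_).symm)⟩
  rwa [← (hσ x z).1 hz, hxw]

/-- The hypotheses on a 3-connected graph. -/
structure WH (ν : E × Bool → V) : Prop where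
  simple : Simple ν
  conn : Conn ν (flp E)
  nonsep : Nonsep ν
  three : ∀ X : Set E, 2 ≤ X.ncard → 2 ≤ Xᶜ.ncard → 3 ≤ (bd ν X).ncard
  deg : ∀ x, 3 ≤ deg ν (ν x)

variable [Finite E] [Finite V] {ν : E × Bool → V} {σ : Perm (E × Bool)}

omit [Finite V] in
theorem WH.ne (H : WH ν) (hσ : IsRot ν σ) (x : E × Bool) : σ x ≠ x := fun h =>
  wh_deg hσ (H.deg x) (by rw [h, h])

/-- A face visits a vertex at most once. -/
theorem WH.f1 (H : WH ν) (hσ : IsRot ν σ) (h0 : Gen0 σ (flp E)) {a b : E × Bool}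
    (hab : ν a = ν b) (hf : (σ * flp E).SameCycle (flp E a) (flp E b)) : a = b := by
  classical
  by_contra hne
  have h1 := split_disconnect ((conn_iff_trans2 hσ _).1 H.conn) h0 hne ((hσ a b).2 hab)
    (by rwa [wh_inv])
  obtain ⟨X, hX, hbd⟩ := wh_bd hσ {ν a} (ρ := σ * swap a b) (fun x hx => by
    rw [Perm.mul_apply, swap_apply_of_ne_of_ne]
    · rintro rfl; exact hx rfl
    · rintro rfl; exact hx hab.symm) a
  have h2 := H.nonsep X ⟨a.1, (hX a).2 (.refl _)⟩ ⟨b.1, fun h => h1 ((hX b).1 h)⟩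
  have h3 := Set.ncard_le_ncard hbd (Set.toFinite _)
  rw [Set.ncard_singleton] at h3
  omega

omit [Finite V] in
theorem WH.f2_aux [DecidableEq (E × Bool)] (H : WH ν) (hσ : IsRot ν σ) {a b c d : E × Bool}
    (hab : ν a = ν b) (hcd : ν c = ν d) (hfg : ¬(σ * flp E).SameCycle (flp E a) (flp E d))
    (h1 : (σ d).1 = c.1) (h2 : ((σ * swap a b) (flp E c)).1 = c.1) :
    flp E c = b ∧ σ a = b ∧ σ d = c := by
  have hl := H.simple.1
  have h3 : σ d = c := by
    rcases wh_edge h1 with h | h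
    · exact h
    · exact absurd (by rw [← h, wh_rot hσ, hcd]) (hl c)
  have h4 : ν ((σ * swap a b) (flp E c)) = ν (flp E c) := by
    rw [Perm.mul_apply, wh_rot hσ, swap_apply_def]
    split_ifs with h5 h6
    · rw [h5, hab]
    · rw [h6, hab]
    · rfl
  have h5 : (σ * swap a b) (flp E c) = flp E c := by
    rcases wh_edge h2 with h | h
    · exact absurd (by rw [← h4, h]) (hl c)
    · exact h
  rw [Perm.mul_apply, swap_apply_def] at h5
  split_ifs at h5 with h6 h7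
  · refine absurd ?_ hfg
    rw [← h6, wh_ff, ← h3]
    refine Perm.SameCycle.symm ⟨1, ?_⟩
    simp [wh_ff]
  · exact ⟨h7, h5.trans h7, h3⟩
  · exact absurd h5 (H.ne hσ _)

/-- Two faces with two common vertices share an edge. -/
theorem WH.f2 (H : WH ν) (hσ : IsRot ν σ) (h0 : Gen0 σ (flp E)) {a b c d : E × Bool}
    (hab : ν a = ν b) (hcd : ν c = ν d) (hac : ν a ≠ ν c)
    (hf : (σ * flp E).SameCycle (flp E a) (flp E c))
    (hg : (σ * flp E).SameCycle (flp E b) (flp E d))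
    (hfg : ¬(σ * flp E).SameCycle (flp E a) (flp E b)) :
    (flp E c = b ∧ σ a = b ∧ σ d = c) ∨ (flp E d = a ∧ σ b = a ∧ σ c = d) := by
  classical
  have hne : a ≠ b := by rintro rfl; exact hfg (Perm.SameCycle.refl _ _)
  have hne' : c ≠ d := by rintro rfl; exact hfg (hf.trans hg.symm)
  have hmul : σ * swap a b * flp E = σ * flp E * swap (flp E a) (flp E b) := by
    rw [mul_assoc, mul_assoc, mul_swap_eq_swap_mul, wh_ff, wh_ff]
  have hoff : ∀ x, ν x ≠ ν a → (σ * swap a b) x = σ x := by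
    intro x hx
    rw [Perm.mul_apply, swap_apply_of_ne_of_ne]
    · rintro rfl; exact hx rfl
    · rintro rfl; exact hx hab.symm
  have hG : Gen0 (σ * swap a b) (flp E) := by
    unfold Gen0 at h0 ⊢
    have h1 := ncyc_mul_swap_of_same σ ((hσ a b).2 hab) hne
    have h2 := ncyc_mul_swap_of_not (σ * flp E) hfg
    rw [hmul]
    omega
  have hface : ∀ x y, (σ * swap a b * flp E).SameCycle x y →
      Relation.EqvGen (fun x y => y = (σ * swap a b) x ∨ y = flp E x) x y := by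
    intro x y hxy
    refine wh_walk _ ∅ (Relation.EqvGen fun x y => y = (σ * swap a b) x ∨ y = flp E x) x (.refl _)
      (fun _ _ h h' => .trans _ _ _ h h') ?_ hxy (Set.notMem_empty _)
    intro z _ _
    exact Or.inr ⟨Set.notMem_empty _,
      .trans _ (flp E z) _ (.rel _ _ (Or.inr rfl)) (.rel _ _ (Or.inl rfl))⟩
  have hlab : Relation.EqvGen (fun x y => y = (σ * swap a b) x ∨ y = flp E x) a b := by
    have h1 := hface (flp E a) (flp E b) (by
      rw [hmul, sameCycle_mul_swap_of_not _ hfg]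
      exact Or.inr (Or.inl ⟨Perm.SameCycle.refl _ _, Perm.SameCycle.refl _ _⟩))
    exact .trans _ _ _ (.rel _ _ (Or.inr rfl))
      (.trans _ _ _ h1 (.symm _ _ (.rel _ _ (Or.inr rfl))))
  have hT : Trans2 (σ * swap a b) (flp E) := by
    intro x y
    have h1 := (conn_iff_trans2 hσ _).1 H.conn x y
    induction h1 with
    | refl => exact .refl _
    | symm _ _ _ ih => exact .symm _ _ ih
    | trans _ _ _ _ _ ih ih' => exact .trans _ _ _ ih ih'
    | rel x y h =>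
      rcases h with rfl | rfl
      · by_cases h1 : x = a
        · rw [h1]
          exact .trans _ _ _ hlab (.rel _ _ (Or.inl (by simp)))
        · by_cases h2 : x = b
          · rw [h2]
            exact .trans _ _ _ (.symm _ _ hlab) (.rel _ _ (Or.inl (by simp)))
          · exact .rel _ _ (Or.inl (by rw [Perm.mul_apply, swap_apply_of_ne_of_ne h1 h2]))
      · exact .rel _ _ (Or.inr rfl)
  have hcd1 : (σ * swap a b).SameCycle c d := by
    refine wh_walk σ ∅ (σ * swap a b).SameCycle c (Perm.SameCycle.refl _ _)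
      (fun _ _ h h' => h.trans h') ?_ ((hσ c d).2 hcd) (Set.notMem_empty _)
    intro z hz _
    refine Or.inr ⟨Set.notMem_empty _, 1, ?_⟩
    rw [zpow_one, hoff z (by rw [← (hσ c z).1 hz]; exact hac.symm)]
  have h1 := split_disconnect hT hG hne' hcd1 (by
    rw [wh_inv, hmul, sameCycle_mul_swap_of_not _ hfg]
    exact Or.inr (Or.inl ⟨hf.symm, hg.symm⟩))
  have hoff2 : ∀ x, ν x ≠ ν c → (σ * swap a b * swap c d) x = (σ * swap a b) x := by
    intro x hx
    rw [Perm.mul_apply, swap_apply_of_ne_of_ne]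
    · rintro rfl; exact hx rfl
    · rintro rfl; exact hx hcd.symm
  obtain ⟨X, hX, hbd⟩ := wh_bd hσ {ν a, ν c} (ρ := σ * swap a b * swap c d) (fun x hx => by
    rw [hoff2 x fun h => hx (Or.inr h), hoff x fun h => hx (Or.inl h)]) c
  have hcX : c.1 ∈ X := (hX c).2 (.refl _)
  have hdX : d.1 ∉ X := fun h => h1 ((hX d).1 h)
  have hstep : ∀ x, ((σ * swap a b * swap c d) x).1 ∈ X ↔ x.1 ∈ X := by
    intro x
    rw [hX, hX]
    exact ⟨fun h => .trans _ _ _ h (.symm _ _ (.rel _ _ (Or.inl rfl))),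
      fun h => .trans _ _ _ h (.rel _ _ (Or.inl rfl))⟩
  have h3 := (Set.ncard_le_ncard hbd (Set.toFinite _)).trans (wh_pair _ _)
  have h4 : X.ncard ≤ 1 ∨ Xᶜ.ncard ≤ 1 := by
    by_contra h
    have := H.three X (by omega) (by omega)
    omega
  have hl := H.simple.1
  rcases h4 with h4 | h4
  · left
    have h5 := (Set.ncard_le_one (Set.toFinite _)).1 h4
    refine H.f2_aux hσ hab hcd (fun h => hfg (h.trans hg.symm)) ?_ ?_
    · refine h5 _ ?_ _ hcX
      have := (hstep c).2 hcX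
      rwa [Perm.mul_apply, swap_apply_left, hoff d (by rw [← hcd]; exact hac.symm)] at this
    · refine h5 _ ?_ _ hcX
      have := (hstep (flp E c)).2 hcX
      rwa [hoff2 _ (hl c)] at this
  · right
    have h5 := (Set.ncard_le_one (Set.toFinite _)).1 h4
    refine H.f2_aux hσ hab.symm hcd.symm (fun h => hfg (hf.trans h.symm)) ?_ ?_
    · refine h5 _ ?_ _ hdX
      have := mt (hstep d).1 hdX
      rwa [Perm.mul_apply, swap_apply_right, hoff c hac.symm] at this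
    · refine h5 _ ?_ _ hdX
      have := mt (hstep (flp E d)).1 hdX
      rwa [hoff2 _ (by rw [hcd]; exact hl d), swap_comm] at this

/-- The darts of the edges of the face through `x`. -/
def whC (σ : Perm (E × Bool)) (x : E × Bool) : Set (E × Bool) :=
  {z | (σ * flp E).SameCycle x z ∨ (σ * flp E).SameCycle x (flp E z)}

omit [Finite E] [Finite V] in
theorem whC_flp {x z : E × Bool} : flp E z ∈ whC σ x ↔ z ∈ whC σ x := by
  simp only [whC, Set.mem_ofPred_eq, wh_ff]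
  exact or_comm

omit [Finite E] [Finite V] in
theorem wh_prev {x z : E × Bool} (h : (σ * flp E).SameCycle x z) :
    (σ * flp E).SameCycle x (flp E (σ⁻¹ z)) :=
  h.trans (Perm.SameCycle.symm ⟨1, by simp [wh_ff]⟩)

omit [Finite E] [Finite V] in
theorem wh_next {x z : E × Bool} (h : (σ * flp E).SameCycle x (flp E z)) :
    (σ * flp E).SameCycle x (σ z) :=
  h.trans ⟨1, by simp [wh_ff]⟩

omit [Finite E] [Finite V] in
theorem whC_corner (hσ : IsRot ν σ) {x : E × Bool} {v : V} (h : v ∈ ν '' whC σ x) :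
    ∃ c, ν c = v ∧ (σ * flp E).SameCycle x (flp E c) := by
  obtain ⟨z, hz | hz, rfl⟩ := h
  · exact ⟨σ⁻¹ z, wh_rot' hσ z, wh_prev hz⟩
  · exact ⟨z, rfl, hz⟩

theorem WH.memC (H : WH ν) (hσ : IsRot ν σ) (h0 : Gen0 σ (flp E)) {x a z : E × Bool}
    (ha : (σ * flp E).SameCycle x (flp E a)) (hz : z ∈ whC σ x) (hv : ν z = ν a) :
    z = a ∨ z = σ a := by
  rcases hz with hz | hz
  · right
    rw [← H.f1 hσ h0 ((wh_rot' hσ z).trans hv) ((wh_prev hz).symm.trans ha)]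
    simp
  · exact Or.inl (H.f1 hσ h0 hv (hz.symm.trans ha))

/-- The two darts of a corner are linked around the face. -/
theorem WH.around (H : WH ν) (hσ : IsRot ν σ) (h0 : Gen0 σ (flp E)) (a : E × Bool)
    (A : Set (E × Bool)) (U : Set V) (hA : ∀ z ∈ whC σ (flp E a), z ∈ A)
    (hU : ∀ z ∈ whC σ (flp E a), ν z ≠ ν a → ν z ∈ U) : Lk ν (flp E) A U a (σ a) := by
  have h1 : (σ * flp E).SameCycle (flp E a) (σ a) := wh_next (Perm.SameCycle.refl _ _)
  have h2 : Lk ν (flp E) A U (σ a) (flp E a) := by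
    refine wh_walk (σ * flp E) ∅ (Lk ν (flp E) A U) (σ a) (.refl _)
      (fun _ _ h h' => .trans _ _ _ h h') ?_ h1.symm (Set.notMem_empty _)
    intro z hz _
    have hz' := h1.trans hz
    by_cases hza : flp E z = a
    · left; rw [Perm.mul_apply, hza]
    · have h3 : z ∈ whC σ (flp E a) := Or.inl hz'
      have h4 : (σ * flp E) z ∈ whC σ (flp E a) := Or.inl (hz'.trans ⟨1, by simp⟩)
      refine Or.inr ⟨Set.notMem_empty _, .trans _ (flp E z) _
        (.rel _ _ ⟨hA _ h3, hA _ (whC_flp.2 h3), Or.inl rfl⟩)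
        (.rel _ _ ⟨hA _ (whC_flp.2 h3), hA _ h4, Or.inr ⟨(wh_rot hσ _).symm, ?_⟩⟩)⟩
      refine hU _ (whC_flp.2 h3) fun h5 => hza (H.f1 hσ h0 h5 ?_)
      rw [wh_ff]; exact hz'.symm
  have h5 : flp E a ∈ whC σ (flp E a) := Or.inl (Perm.SameCycle.refl _ _)
  exact .symm _ _ (.trans _ _ _ h2 (.rel _ _ ⟨hA _ h5, hA _ (whC_flp.1 h5), Or.inl (wh_ff a).symm⟩))

/-- The darts at a vertex of a face that are not on the face are linked off the face. -/
theorem WH.l1 (H : WH ν) (hσ : IsRot ν σ) (h0 : Gen0 σ (flp E)) (a : E × Bool) {y : E × Bool}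
    (hy : ν y = ν a) (hC : y ∉ whC σ (flp E a)) :
    Lk ν (flp E) (whC σ (flp E a))ᶜ (ν '' whC σ (flp E a))ᶜ (σ (σ a)) y := by
  have ha : a ∈ whC σ (flp E a) := Or.inr (Perm.SameCycle.refl _ _)
  have ha' : σ a ∈ whC σ (flp E a) := Or.inl (wh_next (Perm.SameCycle.refl _ _))
  refine wh_walk σ (whC σ (flp E a)) (Lk ν (flp E) (whC σ (flp E a))ᶜ (ν '' whC σ (flp E a))ᶜ)
    (σ (σ a)) (.refl _) (fun _ _ h h' => .trans _ _ _ h h') ?_
    ((hσ _ _).2 (by rw [wh_rot hσ, wh_rot hσ, hy])) hC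
  intro z hz hz1
  have hzv : ν z = ν a := by rw [← (hσ _ _).1 hz, wh_rot hσ, wh_rot hσ]
  by_cases hz2 : z ∈ whC σ (flp E a)
  · left
    rcases H.memC hσ h0 (Perm.SameCycle.refl _ _) hz2 hzv with h | h
    · exact absurd (h ▸ ha') hz1
    · rw [h]
  · refine Or.inr ⟨hz2, ?_⟩
    have hU : ∀ w ∈ whC σ (flp E z), ν w ≠ ν z → ν w ∉ ν '' whC σ (flp E a) := by
      intro w hw hwz hwa
      obtain ⟨c, hc, hc'⟩ := whC_corner hσ hwa
      obtain ⟨d, hd, hd'⟩ := whC_corner hσ ⟨w, hw, rfl⟩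
      rcases H.f2 hσ h0 hzv.symm (hc.trans hd.symm) (by rw [← hzv, hc]; exact hwz.symm) hc' hd'
        (fun h => hz2 (Or.inr h)) with h | h
      · exact hz2 (h.2.1 ▸ ha')
      · exact hz1 (h.2.1 ▸ ha)
    refine H.around hσ h0 z _ _ (fun w hw hwa => ?_) hU
    have h1 : ν w = ν z := by
      by_contra h; exact hU w hw h ⟨w, hwa, rfl⟩
    have h2 : ν (flp E w) = ν z := by
      by_contra h; exact hU _ (whC_flp.2 hw) h ⟨_, whC_flp.2 hwa, rfl⟩
    exact H.simple.1 w (h2.trans h1.symm)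

/-- The next darts at the two ends of an edge of a face are linked off the face. -/
theorem WH.l2 (H : WH ν) (hσ : IsRot ν σ) (h0 : Gen0 σ (flp E)) (x : E × Bool) :
    Lk ν (flp E) (whC σ x)ᶜ (ν '' whC σ x)ᶜ (σ x) (σ⁻¹ (flp E x)) := by
  have hl := H.simple.1
  have hfg : ¬(σ * flp E).SameCycle x (flp E x) := by
    intro h
    have h1 := H.f1 hσ h0 (wh_rot' hσ (flp E x)) ((wh_prev h).symm.trans (by rw [wh_ff]))
    exact H.ne hσ (flp E x) (by conv_lhs => rw [← h1]; simp)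
  have ha : (σ * flp E).SameCycle x (flp E (σ⁻¹ x)) := wh_prev (Perm.SameCycle.refl _ _)
  have hU : ∀ d, (σ * flp E).SameCycle (flp E x) (flp E d) → ν d ∈ ν '' whC σ x →
      ν d = ν x ∨ ν d = ν (flp E x) := by
    intro d hd hdx
    obtain ⟨c, hc, hc'⟩ := whC_corner hσ hdx
    by_contra h
    rw [not_or] at h
    rcases H.f2 hσ h0 (wh_rot' hσ x) hc (by rw [wh_rot' hσ, hc]; exact (Ne.symm h.1))
      (ha.symm.trans hc') hd (fun h => hfg (ha.trans h)) with h1 | h1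
    · exact h.2 (by rw [← h1.1, wh_ff, hc])
    · exact wh_deg hσ (H.deg x) (by rw [h1.2.1]; simp)
  have hA : ∀ z, (σ * flp E).SameCycle (flp E x) z → z ≠ flp E x → z ∉ whC σ x := by
    intro z hz hzx hzC
    have h1 := hU (σ⁻¹ z) (wh_prev hz) ⟨z, hzC, (wh_rot' hσ z).symm⟩
    have h2 := hU (flp E z) (by rwa [wh_ff]) ⟨_, whC_flp.2 hzC, rfl⟩
    rw [wh_rot' hσ] at h1
    rcases h1 with h1 | h1 <;> rcases h2 with h2 | h2
    · exact hl z (h2.trans h1.symm)
    · exact hfg ((H.simple.2 z x h1 h2) ▸ hz).symm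
    · exact hzx (H.simple.2 z (flp E x) h1 (by rwa [wh_ff]))
    · exact hl z (h2.trans h1.symm)
  have h1 : (σ * flp E).SameCycle (flp E x) (σ x) := wh_next (Perm.SameCycle.refl _ _)
  have h2 : (σ * flp E).SameCycle (flp E x) (flp E (σ⁻¹ (flp E x))) :=
    wh_prev (Perm.SameCycle.refl _ _)
  have h3 : flp E (σ⁻¹ (flp E x)) ≠ flp E x := fun h =>
    hl x (by rw [← wh_rot' hσ, (flp E).injective h])
  have h4 : Lk ν (flp E) (whC σ x)ᶜ (ν '' whC σ x)ᶜ (σ x) (flp E (σ⁻¹ (flp E x))) := by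
    refine wh_walk (σ * flp E) {flp E x} (Lk ν (flp E) (whC σ x)ᶜ (ν '' whC σ x)ᶜ) (σ x) (.refl _)
      (fun _ _ h h' => .trans _ _ _ h h') ?_ (h1.symm.trans h2) h3
    intro z hz hz1
    have hz' := h1.trans hz
    by_cases hzx : z = flp E x
    · left; rw [Perm.mul_apply, hzx, wh_ff]
    · have h5 := hA z hz' hzx
      have h6 := hA _ (hz'.trans ⟨1, by simp⟩) hz1
      refine Or.inr ⟨hzx, .trans _ (flp E z) _ (.rel _ _ ⟨h5, mt whC_flp.1 h5, Or.inl rfl⟩)
        (.rel _ _ ⟨mt whC_flp.1 h5, h6, Or.inr ⟨(wh_rot hσ _).symm, fun h7 => ?_⟩⟩)⟩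
      rcases hU (flp E z) (by rwa [wh_ff]) h7 with h8 | h8
      · exact hzx (by rw [← H.f1 hσ h0 h8 (by rw [wh_ff]; exact hz'.symm), wh_ff])
      · apply hz1
        rw [Perm.mul_apply, H.f1 hσ h0 (h8.trans (wh_rot' hσ _).symm)
          (by rw [wh_ff]; exact hz'.symm.trans h2)]
        simp
  have h5 := hA _ h2 h3
  exact .trans _ _ _ h4 (.rel _ _ ⟨h5, mt whC_flp.2 h5, Or.inl (wh_ff _).symm⟩)

variable {σ' : Perm (E × Bool)}

theorem WH.angle (H : WH ν) (hσ : IsRot ν σ) (h0 : Gen0 σ (flp E)) (hσ' : IsRot ν σ')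
    (h0' : Gen0 σ' (flp E)) (a : E × Bool) : σ' a = σ a ∨ σ (σ' a) = a := by
  by_contra h
  rw [not_or] at h
  have ha : a ∈ whC σ' (flp E a) := Or.inr (Perm.SameCycle.refl _ _)
  have h1 := H.around hσ' h0' a (whC σ' (flp E a)) (ν '' whC σ' (flp E a) \ {ν a}) (fun _ h => h)
    (fun z hz hza => ⟨⟨z, hz, rfl⟩, hza⟩)
  refine crossing (A' := (whC σ' (flp E a))ᶜ) (U := ν '' whC σ' (flp E a) \ {ν a})
    (U' := (ν '' whC σ' (flp E a))ᶜ) wh_ff hσ H.conn h0
    disjoint_compl_right (disjoint_compl_right.mono_left Set.sdiff_subset) (H.ne hσ' a).symm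
    (wh_rot hσ' a).symm (fun h => h.2 rfl) (fun h => h ⟨a, ha, rfl⟩) h1 ?_
  refine .trans _ _ _ (.symm _ _ (H.l1 hσ' h0' a (wh_rot hσ a) fun h2 => ?_))
    (H.l1 hσ' h0' a ((wh_rot hσ _).trans (wh_rot hσ' a)) fun h2 => ?_)
  · rcases H.memC hσ' h0' (Perm.SameCycle.refl _ _) h2 (wh_rot hσ a) with h3 | h3
    · exact H.ne hσ a h3
    · exact h.1 h3.symm
  · rcases H.memC hσ' h0' (Perm.SameCycle.refl _ _) h2
      ((wh_rot hσ _).trans (wh_rot hσ' a)) with h3 | h3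
    · exact h.2 h3
    · exact H.ne hσ _ h3

theorem WH.vertex (H : WH ν) (hσ : IsRot ν σ) (h0 : Gen0 σ (flp E)) (hσ' : IsRot ν σ')
    (h0' : Gen0 σ' (flp E)) {a b : E × Bool} (hab : ν a = ν b) (ha : σ' a = σ a) :
    σ' b = σ b := by
  obtain ⟨n, rfl⟩ := ((hσ a b).2 hab).exists_nat_pow_eq
  clear hab
  induction n with
  | zero => exact ha
  | succ n ih =>
    rw [pow_succ', Perm.mul_apply]
    rcases H.angle hσ h0 hσ' h0' (σ ((σ ^ n) a)) with h | h
    · exact h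
    · exact absurd (by rw [ih]; exact σ.injective h) (wh_deg hσ' (H.deg ((σ ^ n) a)))

theorem WH.edge (H : WH ν) (hσ : IsRot ν σ) (h0 : Gen0 σ (flp E)) (hσ' : IsRot ν σ')
    (h0' : Gen0 σ' (flp E)) {x : E × Bool} (hx : σ' x = σ x) : σ' (flp E x) = σ (flp E x) := by
  by_contra hy
  have h1 : σ (flp E x) = σ'⁻¹ (flp E x) := by
    rcases H.angle hσ h0 hσ' h0' (σ'⁻¹ (flp E x)) with h | h
    · exact absurd (H.vertex hσ h0 hσ' h0' (wh_rot' hσ' _) h) hy
    · simpa using h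
  have ha : (σ' * flp E).SameCycle x (flp E (σ'⁻¹ x)) := wh_prev (Perm.SameCycle.refl _ _)
  have hC : ∀ z ∈ whC σ' (flp E (σ'⁻¹ x)), z ∈ whC σ' x := fun z hz =>
    hz.imp (fun h => ha.trans h) fun h => ha.trans h
  have h2 := H.around hσ' h0' (σ'⁻¹ x) (whC σ' x) (ν '' whC σ' x \ {ν (σ'⁻¹ x)}) hC
    (fun z hz hza => ⟨⟨z, hC z hz, rfl⟩, hza⟩)
  obtain ⟨c, χ, hc1, -, hc2, -, hχ1, hχ2⟩ := chain_colouring wh_ff hσ H.conn h0
    (H.ne hσ' _).symm (wh_rot hσ' _).symm (fun h => h.2 rfl) h2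
  have hc0 : ∀ z, z ∉ whC σ' x → c z = 0 := fun z hz => by
    by_contra h; exact hz (hc1 z h)
  have hχ : ∀ y z, Lk ν (flp E) (whC σ' x)ᶜ (ν '' whC σ' x)ᶜ y z → χ y = χ z := by
    intro y z h
    induction h with
    | refl => rfl
    | symm _ _ _ ih => exact ih.symm
    | trans _ _ _ _ _ ih ih' => exact ih.trans ih'
    | rel y z h =>
      obtain ⟨h3, -, rfl | ⟨h4, h5⟩⟩ := h
      · rw [hχ2, hc0 y h3, add_zero]
      · refine wh_walk σ ∅ (fun y z => χ y = χ z) y rfl (fun _ _ h h' => h.trans h') ?_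
          ((hσ y z).2 h4) (Set.notMem_empty _)
        intro w hw _
        refine Or.inr ⟨Set.notMem_empty _, ?_⟩
        rw [hχ1, hc0 w fun h6 => h5 ⟨w, h6, ((hσ y w).1 hw).symm⟩, add_zero]
  have h3 := hχ _ _ (H.l2 hσ' h0' x)
  have hcx : c x = 1 := by simpa using hc2
  have h4 := hχ2 (flp E x)
  rw [wh_ff] at h4
  rw [hx, ← h1, hχ1, hχ1, ← h4, hcx] at h3
  exact absurd (add_eq_left.1 h3) (by decide)

theorem WH.two (H : WH ν) (hσ : IsRot ν σ) (h0 : Gen0 σ (flp E)) (hσ' : IsRot ν σ')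
    (h0' : Gen0 σ' (flp E)) : σ' = σ ∨ σ' = σ⁻¹ := by
  have h1 : ∀ x y, (σ' x = σ x ↔ σ' y = σ y) := by
    intro x y
    have h := H.conn x y
    induction h with
    | refl => rfl
    | symm _ _ _ ih => exact ih.symm
    | trans _ _ _ _ _ ih ih' => exact ih.trans ih'
    | rel x y h =>
      rcases h with h | rfl
      · exact ⟨H.vertex hσ h0 hσ' h0' h, H.vertex hσ h0 hσ' h0' h.symm⟩
      · refine ⟨H.edge hσ h0 hσ' h0', fun h => ?_⟩
        have := H.edge hσ h0 hσ' h0' h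
        rwa [wh_ff] at this
  by_cases h : ∃ x, σ' x = σ x
  · obtain ⟨x, hx⟩ := h
    exact Or.inl (Equiv.ext fun y => (h1 x y).1 hx)
  · refine Or.inr (Equiv.ext fun y => ?_)
    rcases H.angle hσ h0 hσ' h0' y with h2 | h2
    · exact absurd ⟨y, h2⟩ h
    · exact Perm.eq_inv_iff_eq.2 h2

theorem WH.emb_two [Nonempty E] (H : WH ν) (h : emb ν (flp E) ≠ 0) : emb ν (flp E) = 2 := by
  obtain ⟨⟨σ, hσ, h0⟩⟩ := (Nat.card_ne_zero.1 h).1
  have hσ' : IsRot ν σ⁻¹ := fun x y => Perm.sameCycle_inv.trans (hσ x y)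
  have h0' : Gen0 σ⁻¹ (flp E) := by
    unfold Gen0 at h0 ⊢
    rw [ncyc_inv, ← ncyc_inv (σ⁻¹ * flp E), mul_inv_rev, inv_inv, wh_inv, ncyc_mul_comm]
    exact h0
  refine Nat.card_eq_two_iff.2 ⟨⟨σ, hσ, h0⟩, ⟨σ⁻¹, hσ', h0'⟩, fun h1 => ?_, ?_⟩
  · have h2 : σ = σ⁻¹ := congrArg Subtype.val h1
    obtain ⟨e⟩ := ‹Nonempty E›
    refine wh_deg hσ (H.deg (e, true)) ?_
    nth_rewrite 1 [h2]
    simp
  · refine Set.eq_univ_of_forall fun τ => ?_
    rcases H.two hσ h0 τ.2.1 τ.2.2 with h1 | h1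
    · exact Or.inl (Subtype.ext h1)
    · exact Or.inr (Subtype.ext h1)

end aux

theorem whitney {E V : Type} [Finite E] [Finite V] {t : E × Bool → Bool ⊕ V} (ht : Core3 t)
    (h : emb (clo t) (flp _) ≠ 0) : emb (clo t) (flp _) = 2 :=
  WH.emb_two ⟨ht.simple, ht.1.sconn.2, ht.1.2.2, ht.2.2, fun _ => ht.three_le_deg _⟩ h

end Pool.Agent.Lib.MP_77dff5_pr
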