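import Pool.Agent.Lib.MP_77dff5_pr.Dec
import Pool.Agent.Lib.MP_77dff5_pr.EqOm
import Pool.Agent.Lib.MP_77dff5_pr.Emb
import Pool.Agent.Lib.MP_77dff5_pr.Whitney
import Pool.Agent.Lib.MP_77dff5_pr.RootA

/-! Equations of model A: 3-connected core. -/

set_option autoImplicit false

namespace Pool.Agent.Lib.MP_77dff5_pr

open scoped ENNReal NNReal Classical

/-- weight of an embedded network -/
noncomputable def eqA2θ (y : ℝ≥0∞) : NFun :=
  fun E _ _ _ N => (emb (clo N) (flp _) : ℝ≥0∞) * y ^ Fintype.card E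

theorem eqA2_inv (y : ℝ≥0∞) : NInv (eqA2θ y) := by
  intro E V E' V' _ _ _ _ u e N N' h
  simp only [eqA2θ]
  rw [emb_clo_congr u e h, Fintype.card_congr u.edge]

theorem eqA2_wDec (y : ℝ≥0∞) (P : NG → Prop) (wd wv : RG → ℝ≥0∞) (D : DG) :
    wDec (wNA y P) wd wv D = wDP wd wv P D * eqA2θ y _ _ D.1.2.2 := by
  simp only [wDP, wDec, wNA, eqA2θ, Fintype.card_fin]
  ring

theorem eqA2_ind {p : Prop} (h : ind p ≠ 0) : p := by
  by_contra hp
  exact h (if_neg hp)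

theorem eqA2_triv {c : ℝ≥0∞} {R : RG} (h : wTriv c R ≠ 0) : R = triv :=
  eqA2_ind (left_ne_zero_of_mul h)

theorem eqA2_supp {x y : ℝ≥0∞} {P : NG → Prop} {D : DG}
    (h : wDP (wM x y) (wTriv x) P D ≠ 0) :
    IsNet D.1.2.2 ∧ nv (.inr (.inl D)) < ne (.inr (.inl D)) := by
  simp only [wDP, wDec] at h
  have h1 : IsNet D.1.2.2 :=
    (eqA2_ind (right_ne_zero_of_mul (left_ne_zero_of_mul (left_ne_zero_of_mul h)))).1
  have h2 := Finset.prod_ne_zero_iff.1 (right_ne_zero_of_mul (left_ne_zero_of_mul h))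
  have h3 := Finset.prod_ne_zero_iff.1 (right_ne_zero_of_mul h)
  refine ⟨h1, ?_⟩
  have e1 := h1.card_lt
  simp only [Nat.card_eq_fintype_card, Fintype.card_fin] at e1
  have e2 : ∑ z, (D.2.1 z).2.1 ≤ ∑ z, (D.2.1 z).1 := Finset.sum_le_sum fun z hz => by
    have h4 := h2 z hz
    simp only [wM, w0] at h4
    have h5 := (eqA2_ind (right_ne_zero_of_mul (left_ne_zero_of_mul
      (left_ne_zero_of_mul (left_ne_zero_of_mul h4))))).card_le
    simpa only [Nat.card_eq_fintype_card, Fintype.card_fin] using h5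
  have e3 : ∑ v, (D.2.2 v).2.1 ≤ ∑ v, (D.2.2 v).1 := Finset.sum_le_sum fun v hv => by
    rw [eqA2_triv (h3 v hv)]
    exact le_rfl
  simp only [nv, ne]
  omega

theorem eqA2_pole {D : DG} (h : IsNet D.1.2.2) (c : Bool) : 1 ≤ dDeg D (.inl c) := by
  obtain ⟨z, hz⟩ := netA_pole h c
  have := Finset.single_le_sum (f := fun z => if D.1.2.2 z = .inl c then 1 + rc (D.2.1 z) else 0)
    (fun _ _ => Nat.zero_le _) (Finset.mem_univ z)
  rw [if_pos hz] at this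
  simp only [dDeg]
  omega

theorem eqA2_g {f : ℕ → ℝ} {k0 : ℕ} (hf : EvC f k0) (t : NG) (Ds : Fin t.1 → DG)
    (hD : ∀ i, IsNet (Ds i).1.2.2) (b : Fin t.2.1 → RG) (v : Fin t.2.1) :
    (if deg t.2.2 (.inr v) ≤ k0 then f (rc (b v) + poleSum aO bO t
        (Sum.elim (fun i => .inr (.inl (Ds i))) fun v => .inl (b v)) (.inr v)) else f (k0 + 1))
      = f ((∑ z, if t.2.2 z = .inr v then dDeg (Ds z.1) (.inl z.2) else 0) + rc (b v)) := by
  split_ifs with h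
  · rw [add_comm]
    congr 2
    refine Finset.sum_congr rfl fun z _ => ?_
    obtain ⟨e, c⟩ := z
    cases c <;> rfl
  · refine (hf _ ?_).symm
    have e1 : deg t.2.2 (.inr v) = ∑ z, if t.2.2 z = .inr v then 1 else 0 := by
      rw [deg, Nat.card_eq_fintype_card, Fintype.card_subtype, Finset.card_filter]
    have e2 : (∑ z, if t.2.2 z = .inr v then 1 else 0) ≤
        ∑ z, if t.2.2 z = .inr v then dDeg (Ds z.1) (.inl z.2) else 0 :=
      Finset.sum_le_sum fun z _ => by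
        split_ifs
        · exact eqA2_pole (hD _) _
        · exact le_rfl
    omega

/-- the test function in terms of edges, vertices and the degree statistic -/
noncomputable def eqA2ψ (lam mu : ℝ) (ψ : ℕ × ℝ → ℝ≥0∞) (p : ℕ × ℕ × ℝ) : ℝ≥0∞ :=
  ψ (p.1 - p.2.1 - 1, p.2.2 + lam * p.1 - mu * (p.1 - p.2.1 - 1 : ℕ))

theorem eqA2_stat {f : ℕ → ℝ} {k0 : ℕ} (hf : EvC f k0) (lam mu : ℝ) (ψ : ℕ × ℝ → ℝ≥0∞) (t : NG)
    (ht : t.2.1 < t.1) (Ds : Fin t.1 → DG) (hD : ∀ i, IsNet (Ds i).1.2.2)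
    (hlt : ∀ i, nv (.inr (.inl (Ds i))) < ne (.inr (.inl (Ds i)))) :
    eqA2ψ lam mu ψ (gStat f (glue t.2.2 fun i => (Ds i).1.2.2) (glueD Ds)
        (glueV (fun _ => triv) Ds)) =
      ψ ((Tcore aO bO cO JA.D JA.V f k0 t (t.1 - t.2.1 - 1) (-(mu * (t.1 - t.2.1 - 1 : ℕ)))).S sA
          (Sum.elim (fun i => .inr (.inl (Ds i))) fun _ => .inl triv),
        (Tcore aO bO cO JA.D JA.V f k0 t (t.1 - t.2.1 - 1) (-(mu * (t.1 - t.2.1 - 1 : ℕ)))).Z
          (zz sA f lam mu) (Sum.elim (fun i => .inr (.inl (Ds i))) fun _ => .inl triv)) := by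
  have e0 : ∑ i, sA (.inr (.inl (Ds i))) + ∑ i, nv (.inr (.inl (Ds i))) + t.1
      = ∑ i, ne (.inr (.inl (Ds i))) := by
    have h0 : ∑ i, (sA (.inr (.inl (Ds i))) + nv (.inr (.inl (Ds i))) + 1)
        = ∑ i, ne (.inr (.inl (Ds i))) := by
      refine Finset.sum_congr rfl fun i _ => ?_
      have h1 := hlt i
      have h2 : sA (.inr (.inl (Ds i)))
          = ne (.inr (.inl (Ds i))) - nv (.inr (.inl (Ds i))) - 1 := rfl
      omega
    simpa only [Finset.sum_add_distrib, Finset.sum_const, Finset.card_univ, Fintype.card_fin,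
      smul_eq_mul, mul_one] using h0
  have e1 : ∑ i, ne (.inr (.inl (Ds i))) - (t.2.1 + ∑ i, nv (.inr (.inl (Ds i)))) - 1
      = t.1 - t.2.1 - 1 + ∑ i, sA (.inr (.inl (Ds i))) := by omega
  have e2 : sA (.inl triv) = 0 := rfl
  have e3 : zz sA f lam mu (.inl triv) = 0 := by
    have h1 : ne (.inl triv) = 0 := rfl
    have h2 : FO f (.inl triv) = 0 := rF_triv f
    rw [zz, e2, h1, h2]
    simp
  have e4 : triv.1 = 0 := rfl
  have e5 : triv.2.1 = 0 := rfl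
  rw [gStat_glue, eqA2ψ]
  simp only [e4, e5, Finset.sum_const_zero, add_zero, Fintype.card_fin, e1, rF_triv]
  congr 1
  refine Prod.ext ?_ ?_
  · show _ = t.1 - t.2.1 - 1 + ∑ i : Fin t.1 ⊕ Fin t.2.1, sA _
    rw [Fintype.sum_sum_type]
    simp only [Sum.elim_inl, Sum.elim_inr, e2, Finset.sum_const_zero, add_zero]
  · show _ = -(mu * (t.1 - t.2.1 - 1 : ℕ)) + ∑ i : Fin t.1 ⊕ Fin t.2.1, zz sA f lam mu _ +
      ∑ v : Fin t.2.1, (if deg t.2.2 (.inr v) ≤ k0 then f (rc triv + poleSum aO bO t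
        (Sum.elim (fun i => .inr (.inl (Ds i))) fun _ => .inl triv) (.inr v)) else f (k0 + 1))
    have key : ∀ G G' : ℝ, G = G' → G + ∑ i, FO f (.inr (.inl (Ds i))) +
        lam * (∑ i, ne (.inr (.inl (Ds i))) : ℕ) -
        mu * (t.1 - t.2.1 - 1 + ∑ i, sA (.inr (.inl (Ds i))) : ℕ) =
        -(mu * (t.1 - t.2.1 - 1 : ℕ)) + ∑ i, zz sA f lam mu (.inr (.inl (Ds i))) + G' := by
      rintro G _ rfl
      simp only [zz, Finset.sum_sub_distrib, Finset.sum_add_distrib, ← Finset.mul_sum]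
      push_cast
      ring
    rw [Fintype.sum_sum_type]
    simp only [Sum.elim_inl, Sum.elim_inr, e3, Finset.sum_const_zero, add_zero]
    refine key _ _ (Finset.sum_congr rfl fun v _ => ?_)
    convert (eqA2_g hf t Ds hD (fun _ => triv) v).symm

theorem eqA2_glue (y : ℝ≥0∞) (t : NG) (ht : Core3 t.2.2) (Ds : Fin t.1 → DG)
    (hD : ∀ i, IsNet (Ds i).1.2.2) :
    eqA2θ y _ _ (glue t.2.2 fun i => (Ds i).1.2.2) =
      (emb (clo t.2.2) (flp _) : ℝ≥0∞) * ∏ i, eqA2θ y _ _ (Ds i).1.2.2 := by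
  simp only [eqA2θ]
  rw [emb_glue ht.1 hD fun i => Or.inr (ht.oneBridge i), Fintype.card_sigma,
    Finset.prod_mul_distrib, Finset.prod_pow_eq_pow_sum]
  push_cast
  ring

variable (x y : ℝ≥0∞) (f : ℕ → ℝ) (k0 : ℕ) (lam mu : ℝ)

theorem eqnA_H (hf : EvC f k0) :
    (ufA x y f k0 lam mu .H).Eqn (lhsA x y .H) (wgA x y) sA (zz sA f lam mu) := by
  intro ψ
  have hL : ∑' ω, lhsA x y .H ω * ψ (sA ω, zz sA f lam mu ω) =
      ∑' D : DG, wDP (wM x y) (wTriv x) (fun N => IsT N.2.2) D *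
        (eqA2θ y _ _ D.1.2.2 * eqA2ψ lam mu ψ (gStat f D.1.2.2 D.2.1 D.2.2)) := by
    refine (tsum_onD _ fun ω => ψ (sA ω, zz sA f lam mu ω)).trans (tsum_congr fun D => ?_)
    rw [eqA2_wDec, gStat_eq, mul_assoc]
    rfl
  rw [hL, dec_T (wM x y) (wTriv x) _ (decInv_gStat f _ (eqA2_inv y) (eqA2ψ lam mu ψ))]
  refine Eq.trans (tsum_congr fun t => ?_) (tsum_subtype
    {t : NG | Core3 t.2.2 ∧ emb (clo t.2.2) (flp _) ≠ 0} fun t => 2 * wt t.1 t.2.1 *
      (Tcore aO bO cO JA.D JA.V f k0 t (t.1 - t.2.1 - 1) (-(mu * (t.1 - t.2.1 - 1 : ℕ)))).tlaw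
        (wgA x y) sA (zz sA f lam mu) ψ).symm
  by_cases ht : Core3 t.2.2
  swap
  · rw [Set.indicator_of_notMem (fun h => ht h.1), ind, if_neg ht, mul_zero, zero_mul]
  have hlt : t.2.1 < t.1 := by
    simpa only [Nat.card_eq_fintype_card, Fintype.card_fin] using ht.1.card_lt
  have key : ∀ (Ds : Fin t.1 → DG) (b : Fin t.2.1 → RG),
      (∏ i, wDP (wM x y) (wTriv x) (fun _ => True) (Ds i)) * (∏ v, wTriv x (b v)) *
        (eqA2θ y _ _ (glue t.2.2 fun i => (Ds i).1.2.2) * eqA2ψ lam mu ψ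
          (gStat f (glue t.2.2 fun i => (Ds i).1.2.2) (glueD Ds) (glueV b Ds))) =
      (emb (clo t.2.2) (flp _) : ℝ≥0∞) *
        ((∏ i, wDec (wNA y fun _ => True) (wM x y) (wTriv x) (Ds i)) * (∏ v, wTriv x (b v)) *
        ψ ((Tcore aO bO cO JA.D JA.V f k0 t (t.1 - t.2.1 - 1) (-(mu * (t.1 - t.2.1 - 1 : ℕ)))).S sA
          (Sum.elim (fun i => .inr (.inl (Ds i))) fun v => .inl (b v)),
        (Tcore aO bO cO JA.D JA.V f k0 t (t.1 - t.2.1 - 1) (-(mu * (t.1 - t.2.1 - 1 : ℕ)))).Z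
          (zz sA f lam mu) (Sum.elim (fun i => .inr (.inl (Ds i))) fun v => .inl (b v)))) := by
    intro Ds b
    simp only [eqA2_wDec, Finset.prod_mul_distrib]
    by_cases h1 : ∏ i, wDP (wM x y) (wTriv x) (fun _ => True) (Ds i) = 0
    · simp only [h1, zero_mul, mul_zero]
    by_cases h2 : ∏ v, wTriv x (b v) = 0
    · simp only [h2, zero_mul, mul_zero]
    have h3 := fun i => eqA2_supp (Finset.prod_ne_zero_iff.1 h1 i (Finset.mem_univ _))
    obtain rfl : b = fun _ => triv :=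
      funext fun v => eqA2_triv (Finset.prod_ne_zero_iff.1 h2 v (Finset.mem_univ _))
    rw [eqA2_glue y t ht Ds fun i => (h3 i).1,
      eqA2_stat hf lam mu ψ t hlt Ds (fun i => (h3 i).1) fun i => (h3 i).2]
    ring
  simp only [key, ENNReal.tsum_mul_left]
  by_cases he : emb (clo t.2.2) (flp _) = 0
  · rw [Set.indicator_of_notMem (fun h => h.2 he), he, Nat.cast_zero, zero_mul, mul_zero]
  rw [Set.indicator_of_mem (show t ∈ {t : NG | Core3 t.2.2 ∧ emb (clo t.2.2) (flp _) ≠ 0} from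
    ⟨ht, he⟩), whitney ht he, ind, if_pos ht, ← tsum_pi_sum _ _ fun ω =>
      ψ ((Tcore aO bO cO JA.D JA.V f k0 t (t.1 - t.2.1 - 1) (-(mu * (t.1 - t.2.1 - 1 : ℕ)))).S sA ω,
        (Tcore aO bO cO JA.D JA.V f k0 t (t.1 - t.2.1 - 1) (-(mu * (t.1 - t.2.1 - 1 : ℕ)))).Z
          (zz sA f lam mu) ω)]
  have e1 : ∀ ω : Fin t.1 ⊕ Fin t.2.1 → Om,
      ∏ i, Sum.elim (fun _ => onD (wDec (wNA y fun _ => True) (wM x y) (wTriv x)))
        (fun _ => onR (wTriv x)) i (ω i) =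
      ∏ i, wgA x y (Sum.elim (fun _ => JA.D) (fun _ => JA.V) i) (ω i) := fun ω =>
    Finset.prod_congr rfl fun i _ => by cases i <;> rfl
  simp only [e1]
  rw [mul_one, ← mul_assoc, mul_comm (wt _ _)]
  rfl

end Pool.Agent.Lib.MP_77dff5_pr
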