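import Pool.Agent.Lib.MP_77dff5_pr.Dec
import Pool.Agent.Lib.MP_77dff5_pr.EqOm
import Pool.Agent.Lib.MP_77dff5_pr.Emb
import Pool.Agent.Lib.MP_77dff5_pr.Block
import Pool.Agent.Lib.MP_77dff5_pr.Root
import Pool.Agent.Lib.MP_77dff5_pr.MDefsEq

/-! Equations of model A: the root edge of a map. -/

set_option autoImplicit false

namespace Pool.Agent.Lib.MP_77dff5_pr

open scoped ENNReal NNReal Classical

variable (x y : ℝ≥0∞) (f : ℕ → ℝ) (k0 : ℕ) (lam mu : ℝ)

/-- the two poles alone, on labels -/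
def eqM_empty : NG := ⟨0, 0, fun x => x.1.elim0⟩

theorem eqM_eq_empty {N : NG} (hE : IsEmpty (Fin N.1)) (hV : IsEmpty (Fin N.2.1)) :
    N = eqM_empty := by
  obtain ⟨m, n, N⟩ := N
  have hm : m = 0 := by
    by_contra h
    exact hE.false ⟨0, Nat.pos_of_ne_zero h⟩
  have hn : n = 0 := by
    by_contra h
    exact hV.false ⟨0, Nat.pos_of_ne_zero h⟩
  subst hm hn
  have : N = fun x => x.1.elim0 := funext fun x => x.1.elim0
  subst this
  rfl

/-- maps whose root edge is a link, through the block of the root edge -/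
theorem link_sum (Ψ : NFun) (hΨ : NInv Ψ) :
    ∑' G : NG, wt G.1 G.2.1 * ind (SConn (clo G.2.2)) * emb (clo G.2.2) (flp _) * Ψ _ _ G.2.2 =
      ∑' R : Option (Fin 0) × Bool → RG, (∏ i, w0 (R i)) *
          Ψ _ _ (attach (bond 0) (clo (bond 0)) fun i => (R i).2.2) +
        ∑' N : NG, wt N.1 N.2.1 * ind (IsNet N.2.2) * emb (clo N.2.2) (flp _) *
          ∑' R : Option (Fin N.1) × Bool → RG, (∏ i, w0 (R i)) *
            Ψ _ _ (attach N.2.2 (clo N.2.2) fun i => (R i).2.2) := by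
  rw [block_D Ψ hΨ]
  have h0 : ∑' R : Option (Fin 0) × Bool → RG, (∏ i, w0 (R i)) *
          Ψ _ _ (attach (bond 0) (clo (bond 0)) fun i => (R i).2.2) =
      ∑' N : NG, if N = eqM_empty then ∑' R : Option (Fin 0) × Bool → RG, (∏ i, w0 (R i)) *
          Ψ _ _ (attach (bond 0) (clo (bond 0)) fun i => (R i).2.2) else 0 := by
    rw [tsum_ite_eq]
  rw [h0, ← ENNReal.tsum_add]
  refine tsum_congr fun N => ?_
  by_cases hN : N = eqM_empty
  · subst hN
    have hb : IsBlock eqM_empty.2.2 :=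
      Or.inl ⟨inferInstanceAs (IsEmpty (Fin 0)), inferInstanceAs (IsEmpty (Fin 0))⟩
    have hn : ¬IsNet eqM_empty.2.2 := fun h => by
      obtain ⟨e⟩ := h.1
      exact e.elim0
    have he : emb (clo eqM_empty.2.2) (flp _) = 1 :=
      @emb_empty _ _ (inferInstanceAs (IsEmpty (Fin 0))) _
    have hw : wt eqM_empty.1 eqM_empty.2.1 = 1 := by simp [wt, eqM_empty]
    rw [if_pos rfl, he, hw, ind, if_pos hb, ind, if_neg hn]
    simp only [mul_zero, zero_mul, add_zero, Nat.cast_one, one_mul]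
    refine tsum_congr fun R => ?_
    refine congrArg _ ?_
    refine hΨ _ _ _ _ ⟨Equiv.refl _, fun _ => rfl⟩
      (Equiv.sumCongr (Equiv.equivOfIsEmpty Empty (Fin 0)) (Equiv.refl _)) _ _ ?_
    rintro ⟨e | ⟨⟨i, b⟩, e⟩, c⟩
    · exact e.elim0
    · cases i with
      | some i => exact i.elim0
      | none =>
        change Option.elim ((R (none, b)).2.2 (e, c)) _ _ =
          Sum.map id _ (Option.elim ((R (none, b)).2.2 (e, c)) _ _)
        generalize (R (none, b)).2.2 (e, c) = o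
        cases o with
        | none => rfl
        | some v => rfl
  · rw [if_neg hN, zero_add]
    have hb : IsBlock N.2.2 ↔ IsNet N.2.2 :=
      ⟨fun h => h.elim (fun h' => absurd (eqM_eq_empty h'.1 h'.2) hN) id, Or.inr⟩
    rw [hb]

section att
variable {E₀ V₀ I : Type} {E V : I → Type} [Fintype E₀] [Fintype I] [∀ i, Fintype (E i)]

theorem eqM_deg_attach_core (N : E₀ × Bool → Bool ⊕ V₀) (pos : I → Bool ⊕ V₀)
    (R : ∀ i, E i × Bool → Option (V i)) (u : Bool ⊕ V₀) :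
    deg (attach N pos R) (u.map id Sum.inl) =
      deg N u + ∑ i, if pos i = u then deg (R i) none else 0 := by
  have hinj : Function.Injective
      (Sum.map id Sum.inl : Bool ⊕ V₀ → Bool ⊕ (V₀ ⊕ Σ i, V i)) :=
    Sum.map_injective.2 ⟨Function.injective_id, Sum.inl_injective⟩
  rw [rootD_deg_eq, rootD_deg_eq, Fintype.sum_prod_type, Fintype.sum_sum_type,
    Fintype.sum_prod_type, Fintype.sum_sigma]
  congr 1
  · refine Finset.sum_congr rfl fun e _ => Finset.sum_congr rfl fun c _ => ?_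
    refine congrArg _ (propext ?_)
    exact hinj.eq_iff
  · refine Finset.sum_congr rfl fun i _ => ?_
    have h : ∀ (e : E i) (c : Bool),
        (attach N pos R (Sum.inr ⟨i, e⟩, c) = u.map id Sum.inl) ↔
          (pos i = u ∧ R i (e, c) = none) := by
      intro e c
      change Option.elim (R i (e, c)) _ _ = _ ↔ _
      cases R i (e, c) with
      | none => simpa using hinj.eq_iff
      | some v => cases u <;> simp
    simp only [h]
    split_ifs with hp
    · rw [rootD_deg_eq, Fintype.sum_prod_type]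
      simp [hp]
    · simp [hp, rootD_i_false]

theorem eqM_deg_attach_inner (N : E₀ × Bool → Bool ⊕ V₀) (pos : I → Bool ⊕ V₀)
    (R : ∀ i, E i × Bool → Option (V i)) (i : I) (v : V i) :
    deg (attach N pos R) (Sum.inr (Sum.inr ⟨i, v⟩)) = deg (R i) (some v) := by
  rw [rootD_deg_eq, rootD_deg_eq, Fintype.sum_prod_type, Fintype.sum_sum_type,
    Fintype.sum_prod_type, Fintype.sum_sigma]
  have h1 : ∀ (e : E₀) (c : Bool),
      (attach N pos R (Sum.inl e, c) = Sum.inr (Sum.inr ⟨i, v⟩)) ↔ False := by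
    intro e c
    change Sum.map id Sum.inl (N (e, c)) = _ ↔ _
    cases N (e, c) <;> simp
  have h2 : ∀ (j : I) (e : E j) (c : Bool), j ≠ i →
      ((attach N pos R (Sum.inr ⟨j, e⟩, c) = Sum.inr (Sum.inr ⟨i, v⟩)) ↔ False) := by
    intro j e c hj
    change Option.elim (R j (e, c)) (Sum.map id Sum.inl (pos j)) _ = _ ↔ _
    cases R j (e, c) with
    | none => cases pos j <;> simp
    | some w => simp [hj]
  have h3 : ∀ (e : E i) (c : Bool),
      (attach N pos R (Sum.inr ⟨i, e⟩, c) = Sum.inr (Sum.inr ⟨i, v⟩)) ↔ R i (e, c) = some v := by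
    intro e c
    change Option.elim (R i (e, c)) (Sum.map id Sum.inl (pos i)) _ = _ ↔ _
    cases R i (e, c) with
    | none => cases pos i <;> simp
    | some w => simp
  simp only [h1, rootD_i_false, Finset.sum_const_zero, zero_add]
  rw [Finset.sum_eq_single i]
  · simp only [h3]
  · intro j _ hj
    simp only [h2 j _ _ hj, rootD_i_false, Finset.sum_const_zero]
  · intro h
    exact absurd (Finset.mem_univ i) h

end att

/-- weight and test function in terms of edges, non-root vertices and the degree statistic -/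
noncomputable def eqM_G (ψ : ℕ × ℝ → ℝ≥0∞) (m n : ℕ) (F : ℝ) : ℝ≥0∞ :=
  x ^ n * y ^ m * ψ (m - n, F + lam * m - mu * ((m - n : ℕ) : ℝ))

/-- degree statistic of the vertices other than `v` -/
noncomputable def eqM_F {E V : Type} [Fintype V] (ν : E × Bool → V) (v : V) : ℝ :=
  ∑ u, if u = v then 0 else f (deg ν u)

theorem eqM_F_none {E V : Type} [Fintype V] (R : E × Bool → Option V) :
    eqM_F f R none = ∑ v, f (deg R (some v)) := by
  simp [eqM_F, Fintype.sum_option]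

theorem eqM_F_congr {E V E' V' : Type} [Finite E] [Fintype V] [Fintype V'] (u : DIso E E')
    (e : V ≃ V') {ν : E × Bool → V} {ν' : E' × Bool → V'} (h : ∀ x, ν' (u.1 x) = e (ν x))
    (v : V) : eqM_F f ν' (e v) = eqM_F f ν v := by
  rw [eqM_F, eqM_F, ← e.sum_comp]
  refine Finset.sum_congr rfl fun w _ => ?_
  rw [deg_congr u e h]
  simp

theorem eqM_F_clo {E V : Type} [Fintype E] [Fintype V] (N : E × Bool → Bool ⊕ V) :
    eqM_F f (clo N) (Sum.inl true) =
      f (deg N (Sum.inl false) + 1) + ∑ v, f (deg N (Sum.inr v)) := by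
  simp [eqM_F, Fintype.sum_sum_type, rootD_deg_clo_inl, rootD_deg_clo_inr]

/-- the functional of the link case -/
noncomputable def eqM_Psi (ψ : ℕ × ℝ → ℝ≥0∞) : NFun := fun E V _ _ N =>
  eqM_G x y lam mu ψ (Nat.card E + 1) (Nat.card V + 1)
    (f (deg N (Sum.inl false) + 1) + ∑ v, f (deg N (Sum.inr v)))

theorem eqM_Psi_inv (ψ : ℕ × ℝ → ℝ≥0∞) : NInv (eqM_Psi x y f lam mu ψ) := by
  intro E V E' V' _ _ _ _ u e N N' h
  have h' : ∀ z, N' (u.1 z) = (Equiv.sumCongr (Equiv.refl Bool) e) (N z) := fun z => by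
    rw [h]; rfl
  have h1 : deg N' (Sum.inl false) = deg N (Sum.inl false) :=
    deg_congr u _ h' (Sum.inl false)
  have h2 : ∀ v, deg N' (Sum.inr (e v)) = deg N (Sum.inr v) := fun v =>
    deg_congr u _ h' (Sum.inr v)
  simp only [eqM_Psi]
  rw [rootD_card u, Nat.card_congr e.symm, h1, ← e.sum_comp]
  simp only [h2]

theorem eqM_sum_opt {α M : Type} [Fintype α] [AddCommMonoid M] (g : Option α × Bool → M) :
    ∑ i, g i = ∑ z : α × Bool, g (some z.1, z.2) + g (none, true) + g (none, false) := by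
  simp only [Fintype.sum_prod_type, Fintype.sum_option, Fintype.sum_bool]
  abel

theorem eqM_prod_opt {α M : Type} [Fintype α] [CommMonoid M] (g : Option α × Bool → M) :
    ∏ i, g i = (∏ z : α × Bool, g (some z.1, z.2)) * g (none, true) * g (none, false) := by
  simp only [Fintype.prod_prod_type, Fintype.prod_option, Fintype.prod_bool]
  rw [mul_comm, mul_assoc]

theorem eqM_gDeg {E V : Type} [Fintype E] (N : E × Bool → Bool ⊕ V) (a : E × Bool → RG)
    (u : Bool ⊕ V) :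
    gDeg N a (fun _ => triv) u = deg N u + ∑ z, if N z = u then rc (a z) else 0 := by
  rw [gDeg, rootD_deg_eq, ← Finset.sum_add_distrib]
  have : (u.elim (fun _ => 0) fun _ => rc triv) = 0 := by
    cases u
    · rfl
    · exact rc_triv
  rw [this, add_zero]
  refine Finset.sum_congr rfl fun z _ => ?_
  by_cases h : N z = u
  · simp [h, rootD_i_true]
  · simp [h, rootD_i_false]

theorem eqM_Psi_attach (ψ : ℕ × ℝ → ℝ≥0∞) {E₀ V₀ : Type} [Fintype E₀] [Fintype V₀]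
    (N : E₀ × Bool → Bool ⊕ V₀) (R : Option E₀ × Bool → RG) :
    eqM_Psi x y f lam mu ψ _ _ (attach N (clo N) fun i => (R i).2.2) =
      eqM_G x y lam mu ψ
        (Fintype.card E₀ + ∑ z : E₀ × Bool, (R (some z.1, z.2)).1 + (R (none, true)).1 +
          (R (none, false)).1 + 1)
        (Fintype.card V₀ + ∑ z : E₀ × Bool, (R (some z.1, z.2)).2.1 + (R (none, true)).2.1 +
          (R (none, false)).2.1 + 1)
        (f (1 + gDeg N (fun z => R (some z.1, z.2)) (fun _ => triv) (Sum.inl false) +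
            rc (R (none, false))) +
          (∑ v, f (gDeg N (fun z => R (some z.1, z.2)) (fun _ => triv) (Sum.inr v)) +
            ∑ z : E₀ × Bool, rF f (R (some z.1, z.2))) + rF f (R (none, true)) +
            rF f (R (none, false))) := by
  have h1 : deg (attach N (clo N) fun i => (R i).2.2) (Sum.inl false) + 1 =
      1 + gDeg N (fun z => R (some z.1, z.2)) (fun _ => triv) (Sum.inl false) +
        rc (R (none, false)) := by
    have := eqM_deg_attach_core N (clo N) (fun i => (R i).2.2) (Sum.inl false)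
    rw [eqM_sum_opt] at this
    rw [eqM_gDeg]
    change deg _ (Sum.inl false) = _ at this
    rw [this]
    simp only [clo, rc, Option.elim_some, Option.elim_none, Prod.mk.eta]
    simp
    omega
  have h2 : ∀ v, deg (attach N (clo N) fun i => (R i).2.2) (Sum.inr (Sum.inl v)) =
      gDeg N (fun z => R (some z.1, z.2)) (fun _ => triv) (Sum.inr v) := by
    intro v
    have := eqM_deg_attach_core N (clo N) (fun i => (R i).2.2) (Sum.inr v)
    rw [eqM_sum_opt] at this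
    rw [eqM_gDeg]
    change deg _ (Sum.inr (Sum.inl v)) = _ at this
    rw [this]
    simp only [clo, rc, Option.elim_some, Option.elim_none, Prod.mk.eta]
    simp
  simp only [eqM_Psi]
  rw [h1, Fintype.sum_sum_type, Fintype.sum_sigma]
  simp only [h2, eqM_deg_attach_inner, Nat.card_eq_fintype_card, Fintype.card_sum,
    Fintype.card_sigma, Fintype.card_fin]
  rw [eqM_sum_opt (fun i => (R i).1), eqM_sum_opt (fun i => (R i).2.1),
    eqM_sum_opt (fun i => ∑ v, f (deg (R i).2.2 (some v)))]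
  simp only [rF, add_assoc]

/-- corners of the root edge and the other corners -/
def eqM_split (α β : Type) : (α × Bool → β) × β × β ≃ (Option α × Bool → β) where
  toFun p := fun i => i.1.elim (cond i.2 p.2.1 p.2.2) fun e => p.1 (e, i.2)
  invFun R := (fun z => R (some z.1, z.2), R (none, true), R (none, false))
  left_inv _ := rfl
  right_inv R := by
    funext ⟨i, b⟩
    cases i with
    | none => cases b <;> rfl
    | some e => rfl

theorem eqM_w0_le {R : RG} (h : w0 R ≠ 0) : R.2.1 ≤ R.1 := by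
  have hc : RConn R.2.2 := by
    by_contra hc
    exact h (by simp [w0, ind, hc])
  simpa using hc.card_le

theorem eqM_att_sum (ψ : ℕ × ℝ → ℝ≥0∞) {E₀ V₀ : Type} [Fintype E₀] [Fintype V₀]
    (N : E₀ × Bool → Bool ⊕ V₀) :
    ∑' R : Option E₀ × Bool → RG, (∏ i, w0 (R i)) *
        eqM_Psi x y f lam mu ψ _ _ (attach N (clo N) fun i => (R i).2.2) =
      ∑' a : E₀ × Bool → RG, ∑' R₁ : RG, ∑' R₂ : RG, (∏ z, w0 (a z)) * w0 R₁ * w0 R₂ *
        eqM_G x y lam mu ψ (Fintype.card E₀ + ∑ z, (a z).1 + R₁.1 + R₂.1 + 1)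
          (Fintype.card V₀ + ∑ z, (a z).2.1 + R₁.2.1 + R₂.2.1 + 1)
          (f (1 + gDeg N a (fun _ => triv) (Sum.inl false) + rc R₂) +
            (∑ v, f (gDeg N a (fun _ => triv) (Sum.inr v)) + ∑ z, rF f (a z)) + rF f R₁ +
              rF f R₂) := by
  simp only [eqM_Psi_attach, eqM_prod_opt]
  rw [← (eqM_split E₀ RG).tsum_eq, ENNReal.tsum_prod']
  refine tsum_congr fun a => ?_
  rw [ENNReal.tsum_prod']
  rfl

theorem eqM_core0 (ψ : ℕ × ℝ → ℝ≥0∞) :
    (Core.free Empty Empty.elim 0 0 : Core Om JA).tlaw (wgA x y) sA (zz sA f lam mu) ψ =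
      ψ (0, 0) := by
  change ∑' ω : Empty → Om, (∏ i : Empty, wgA x y i.elim (ω i)) *
    ψ (0 + ∑ i : Empty, sA (ω i), 0 + ∑ i : Empty, zz sA f lam mu (ω i) +
      ∑ v : Empty, (v.elim : (Empty → Om) → ℝ) ω) = _
  simp

theorem eqM_zz_R (R : RG) :
    zz sA f lam mu (.inl R) = rF f R + lam * R.1 - mu * ((R.1 - R.2.1 : ℕ) : ℝ) := rfl

theorem eqM_core1 (ψ : ℕ × ℝ → ℝ≥0∞) :
    y * (Core.small 2 ![.M, .M] 1 (lam - mu) fun _ => 0 : Core Om JA).tlaw (wgA x y) sA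
        (zz sA f lam mu) ψ =
      ∑' R₁ : RG, ∑' R₂ : RG, w0 R₁ * w0 R₂ *
        eqM_G x y lam mu ψ (R₁.1 + R₂.1 + 1) (R₁.2.1 + R₂.2.1) (rF f R₁ + rF f R₂) := by
  change y * ∑' ω : Fin 2 → Om, (∏ i, (fun i => wgA x y (![JA.M, JA.M] i)) i (ω i)) *
    (fun ω : Fin 2 → Om => ψ (1 + ∑ i, sA (ω i), (lam - mu) + ∑ i, zz sA f lam mu (ω i) +
      ∑ _v : Unit, (0 : ℝ))) ω = _
  rw [tsum_fin_two]
  change y * ∑' ω₀, onR (wM x y) ω₀ * ∑' ω₁, onR (wM x y) ω₁ * _ = _
  simp only [tsum_onR]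
  rw [← ENNReal.tsum_mul_left]
  refine tsum_congr fun R₁ => ?_
  rw [← ENNReal.tsum_mul_left, ← ENNReal.tsum_mul_left]
  refine tsum_congr fun R₂ => ?_
  by_cases h1 : w0 R₁ = 0
  · simp [wM, h1]
  by_cases h2 : w0 R₂ = 0
  · simp [wM, h2]
  have l1 := eqM_w0_le h1
  have l2 := eqM_w0_le h2
  have e1 : R₁.1 + R₂.1 + 1 - (R₁.2.1 + R₂.2.1) = 1 + ((R₁.1 - R₁.2.1) + (R₂.1 - R₂.2.1)) := by
    omega
  simp only [Fin.sum_univ_two, Matrix.cons_val_zero, Matrix.cons_val_one, eqM_zz_R, eqM_G, wM,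
    e1, sA, Finset.sum_const_zero]
  have e2 : lam - mu + (rF f R₁ + lam * R₁.1 - mu * ((R₁.1 - R₁.2.1 : ℕ) : ℝ) +
      (rF f R₂ + lam * R₂.1 - mu * ((R₂.1 - R₂.2.1 : ℕ) : ℝ))) + 0 =
      rF f R₁ + rF f R₂ + lam * ((R₁.1 + R₂.1 + 1 : ℕ) : ℝ) -
        mu * ((1 + ((R₁.1 - R₁.2.1) + (R₂.1 - R₂.2.1)) : ℕ) : ℝ) := by
    simp only [Nat.cast_add, Nat.cast_one]
    ring
  rw [e2]
  ring

theorem eqM_core2 (ψ : ℕ × ℝ → ℝ≥0∞) :
    x * y * (Core.small 2 ![.M, .M] 0 lam fun ω => f (1 + cO (ω 1)) : Core Om JA).tlaw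
        (wgA x y) sA (zz sA f lam mu) ψ =
      ∑' R : Option (Fin 0) × Bool → RG, (∏ i, w0 (R i)) *
        eqM_Psi x y f lam mu ψ _ _ (attach (bond 0) (clo (bond 0)) fun i => (R i).2.2) := by
  rw [eqM_att_sum, tsum_fintype, Fintype.sum_unique]
  change x * y * ∑' ω : Fin 2 → Om, (∏ i, (fun i => wgA x y (![JA.M, JA.M] i)) i (ω i)) *
    (fun ω : Fin 2 → Om => ψ (0 + ∑ i, sA (ω i), lam + ∑ i, zz sA f lam mu (ω i) +
      ∑ _v : Unit, f (1 + cO (ω 1)))) ω = _
  rw [tsum_fin_two]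
  change x * y * ∑' ω₀, onR (wM x y) ω₀ * ∑' ω₁, onR (wM x y) ω₁ * _ = _
  simp only [tsum_onR]
  rw [← ENNReal.tsum_mul_left]
  refine tsum_congr fun R₁ => ?_
  rw [← ENNReal.tsum_mul_left, ← ENNReal.tsum_mul_left]
  refine tsum_congr fun R₂ => ?_
  by_cases h1 : w0 R₁ = 0
  · simp [wM, h1]
  by_cases h2 : w0 R₂ = 0
  · simp [wM, h2]
  have l1 := eqM_w0_le h1
  have l2 := eqM_w0_le h2
  have e1 : R₁.1 + R₂.1 + 1 - (R₁.2.1 + R₂.2.1 + 1) = (R₁.1 - R₁.2.1) + (R₂.1 - R₂.2.1) := by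
    omega
  have g0 : ∀ a : Fin 0 × Bool → RG, gDeg (bond 0) a (fun _ => triv) (Sum.inl false) = 0 := by
    intro a
    simp [gDeg]
  simp only [Fin.sum_univ_two, Matrix.cons_val_zero, Matrix.cons_val_one, eqM_zz_R, eqM_G, wM,
    sA, cO, g0, Finset.univ_eq_empty, Finset.sum_empty, Finset.prod_empty, Fintype.card_eq_zero,
    zero_add, add_zero, one_mul, e1, Finset.univ_unique, Finset.sum_singleton]
  have e2 : lam + (rF f R₁ + lam * R₁.1 - mu * ((R₁.1 - R₁.2.1 : ℕ) : ℝ) +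
      (rF f R₂ + lam * R₂.1 - mu * ((R₂.1 - R₂.2.1 : ℕ) : ℝ))) + f (1 + rc R₂) =
      f (1 + rc R₂) + rF f R₁ + rF f R₂ + lam * ((R₁.1 + R₂.1 + 1 : ℕ) : ℝ) -
        mu * (((R₁.1 - R₁.2.1) + (R₂.1 - R₂.2.1) : ℕ) : ℝ) := by
    simp only [Nat.cast_add, Nat.cast_one]
    ring
  rw [e2]
  ring

theorem eqM_core3 (ψ : ℕ × ℝ → ℝ≥0∞) :
    x * y * (Core.small 3 ![.D, .M, .M] 1 (lam - mu)
        fun ω => f (1 + bO (ω 0) + cO (ω 2)) : Core Om JA).tlaw (wgA x y) sA (zz sA f lam mu) ψ =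
      ∑' N : NG, wt N.1 N.2.1 * ind (IsNet N.2.2) * emb (clo N.2.2) (flp _) *
        ∑' R : Option (Fin N.1) × Bool → RG, (∏ i, w0 (R i)) *
          eqM_Psi x y f lam mu ψ _ _ (attach N.2.2 (clo N.2.2) fun i => (R i).2.2) := by
  simp only [eqM_att_sum]
  change x * y * ∑' ω : Fin 3 → Om, (∏ i, (fun i => wgA x y (![JA.D, JA.M, JA.M] i)) i (ω i)) *
    (fun ω : Fin 3 → Om => ψ (1 + ∑ i, sA (ω i), (lam - mu) + ∑ i, zz sA f lam mu (ω i) +
      ∑ _v : Unit, f (1 + bO (ω 0) + cO (ω 2)))) ω = _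
  rw [tsum_fin_three]
  change x * y * ∑' ω₀, onD (wDec (wNA y fun _ => True) (wM x y) (wTriv x)) ω₀ *
    ∑' ω₁, onR (wM x y) ω₁ * ∑' ω₂, onR (wM x y) ω₂ * _ = _
  simp only [tsum_onR, tsum_onD]
  rw [ENNReal.tsum_sigma', ← ENNReal.tsum_mul_left]
  refine tsum_congr fun N => ?_
  rw [ENNReal.tsum_prod', ← ENNReal.tsum_mul_left, ← ENNReal.tsum_mul_left]
  refine tsum_congr fun a => ?_
  have hb : ∀ F : (Fin N.2.1 → RG) → ℝ≥0∞,
      ∑' b : Fin N.2.1 → RG, wDec (wNA y fun _ => True) (wM x y) (wTriv x) ⟨N, a, b⟩ * F b =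
        wNA y (fun _ => True) N * (∏ z, wM x y (a z)) * (x ^ N.2.1 * F fun _ => triv) := by
    intro F
    have := tsum_pi_wTriv x F
    rw [Fintype.card_fin] at this
    rw [← this, ← ENNReal.tsum_mul_left]
    refine tsum_congr fun b => ?_
    simp only [wDec, mul_assoc]
  rw [hb]
  simp only [← ENNReal.tsum_mul_left]
  refine tsum_congr fun R₁ => tsum_congr fun R₂ => ?_
  by_cases hN : IsNet N.2.2
  swap
  · simp [wNA, ind, hN]
  by_cases h0 : ∏ z, w0 (a z) = 0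
  · simp [wM, Finset.prod_mul_distrib, h0]
  by_cases h1 : w0 R₁ = 0
  · simp [wM, h1]
  by_cases h2 : w0 R₂ = 0
  · simp [wM, h2]
  have l0 : ∑ z, (a z).2.1 ≤ ∑ z, (a z).1 :=
    Finset.sum_le_sum fun z _ => eqM_w0_le (Finset.prod_ne_zero_iff.1 h0 z (Finset.mem_univ z))
  have l1 := eqM_w0_le h1
  have l2 := eqM_w0_le h2
  have l3 : N.2.1 < N.1 := by simpa using hN.card_lt
  have t1 : ∑ _v : Fin N.2.1, triv.1 = 0 := Finset.sum_eq_zero fun _ _ => rfl
  have t2 : ∑ _v : Fin N.2.1, triv.2.1 = 0 := Finset.sum_eq_zero fun _ _ => rfl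
  have s0 : sA (.inr (.inl ⟨N, a, fun _ => triv⟩)) =
      N.1 + ∑ z, (a z).1 - (N.2.1 + ∑ z, (a z).2.1) - 1 := by
    change N.1 + ∑ z, (a z).1 + ∑ _v : Fin N.2.1, triv.1 -
      (N.2.1 + ∑ z, (a z).2.1 + ∑ _v : Fin N.2.1, triv.2.1) - 1 = _
    rw [t1, t2, add_zero, add_zero]
  have z0 : zz sA f lam mu (.inr (.inl ⟨N, a, fun _ => triv⟩)) =
      (∑ v, f (gDeg N.2.2 a (fun _ => triv) (Sum.inr v)) + ∑ z, rF f (a z)) +
        lam * ((N.1 + ∑ z, (a z).1 : ℕ) : ℝ) -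
        mu * ((N.1 + ∑ z, (a z).1 - (N.2.1 + ∑ z, (a z).2.1) - 1 : ℕ) : ℝ) := by
    rw [zz, s0]
    have n0 : ne (.inr (.inl ⟨N, a, fun _ => triv⟩)) = N.1 + ∑ z, (a z).1 := by
      change N.1 + ∑ z, (a z).1 + ∑ _v : Fin N.2.1, triv.1 = _
      rw [t1, add_zero]
    have f0 : FO f (.inr (.inl ⟨N, a, fun _ => triv⟩)) =
        ∑ v, f (gDeg N.2.2 a (fun _ => triv) (Sum.inr v)) + ∑ z, rF f (a z) := by
      change ∑ v, f (dDeg ⟨N, a, fun _ => triv⟩ (.inr v)) + ∑ z, rF f (a z) +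
        ∑ _v : Fin N.2.1, rF f triv = _
      simp only [rF_triv, Finset.sum_const_zero, add_zero, ← gDeg_eq]
    rw [n0, f0]
  have b0 : bO (.inr (.inl ⟨N, a, fun _ => triv⟩)) =
      gDeg N.2.2 a (fun _ => triv) (Sum.inl false) := (gDeg_eq ⟨N, a, fun _ => triv⟩ _).symm
  have e1 : N.1 + ∑ z, (a z).1 + R₁.1 + R₂.1 + 1 - (N.2.1 + ∑ z, (a z).2.1 + R₁.2.1 + R₂.2.1 + 1) =
      1 + ((N.1 + ∑ z, (a z).1 - (N.2.1 + ∑ z, (a z).2.1) - 1) + (R₁.1 - R₁.2.1) +
        (R₂.1 - R₂.2.1)) := by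
    omega
  have sR : ∀ R : RG, sA (.inl R) = R.1 - R.2.1 := fun _ => rfl
  have cR : ∀ R : RG, cO (.inl R) = rc R := fun _ => rfl
  simp only [Fin.sum_univ_three, Matrix.cons_val_zero, Matrix.cons_val_one, Matrix.cons_val,
    eqM_zz_R, eqM_G, wM, wNA, s0, z0, b0, sR, cR, e1, Finset.univ_unique, Finset.sum_singleton,
    Fintype.card_fin, and_true, Finset.prod_mul_distrib, Finset.prod_pow_eq_pow_sum]
  have e2 : lam - mu + ((∑ v, f (gDeg N.2.2 a (fun _ => triv) (Sum.inr v)) + ∑ z, rF f (a z)) +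
        lam * ((N.1 + ∑ z, (a z).1 : ℕ) : ℝ) -
        mu * ((N.1 + ∑ z, (a z).1 - (N.2.1 + ∑ z, (a z).2.1) - 1 : ℕ) : ℝ) +
      (rF f R₁ + lam * R₁.1 - mu * ((R₁.1 - R₁.2.1 : ℕ) : ℝ)) +
      (rF f R₂ + lam * R₂.1 - mu * ((R₂.1 - R₂.2.1 : ℕ) : ℝ))) +
      f (1 + gDeg N.2.2 a (fun _ => triv) (Sum.inl false) + rc R₂) =
      f (1 + gDeg N.2.2 a (fun _ => triv) (Sum.inl false) + rc R₂) +
        (∑ v, f (gDeg N.2.2 a (fun _ => triv) (Sum.inr v)) + ∑ z, rF f (a z)) + rF f R₁ +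
        rF f R₂ + lam * ((N.1 + ∑ z, (a z).1 + R₁.1 + R₂.1 + 1 : ℕ) : ℝ) -
        mu * ((1 + ((N.1 + ∑ z, (a z).1 - (N.2.1 + ∑ z, (a z).2.1) - 1) + (R₁.1 - R₁.2.1) +
          (R₂.1 - R₂.2.1)) : ℕ) : ℝ) := by
    simp only [Nat.cast_add, Nat.cast_one]
    ring
  rw [e2]
  ring

theorem eqnA_M : (ufA x y f k0 lam mu .M).Eqn (lhsA x y .M) (wgA x y) sA (zz sA f lam mu) := by
  intro ψ
  change ∑' ω, onR (wM x y) ω * ψ (sA ω, zz sA f lam mu ω) =
    ∑' t : Fin 4, (famAM f lam mu x y).w t *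
      ((famAM f lam mu x y).core t).tlaw (wgA x y) sA (zz sA f lam mu) ψ
  have h4 : ∀ g : Fin 4 → ℝ≥0∞, ∑' t, g t = g 0 + g 1 + g 2 + g 3 := fun g => by
    rw [tsum_fintype, Fin.sum_univ_four]
  rw [tsum_onR, h4]
  have c0 := eqM_core0 x y f lam mu ψ
  have c1 := eqM_core1 x y f lam mu ψ
  have c2 := eqM_core2 x y f lam mu ψ
  have c3 := eqM_core3 x y f lam mu ψ
  change _ = 1 * (Core.free Empty Empty.elim 0 0 : Core Om JA).tlaw (wgA x y) sA
      (zz sA f lam mu) ψ +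
    y * (Core.small 2 ![.M, .M] 1 (lam - mu) fun _ => 0 : Core Om JA).tlaw (wgA x y) sA
        (zz sA f lam mu) ψ +
    x * y * (Core.small 2 ![.M, .M] 0 lam fun ω => f (1 + cO (ω 1)) : Core Om JA).tlaw
        (wgA x y) sA (zz sA f lam mu) ψ +
    x * y * (Core.small 3 ![.D, .M, .M] 1 (lam - mu)
        fun ω => f (1 + bO (ω 0) + cO (ω 2)) : Core Om JA).tlaw (wgA x y) sA (zz sA f lam mu) ψ
  rw [c0, c1, c2, c3, one_mul]
  have h1 : VInv (fun E V _ _ ν v =>
      eqM_G x y lam mu ψ (Nat.card E) (Nat.card V - 1) (eqM_F f ν v)) := by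
    intro E V E' V' _ _ _ _ u e N N' v h
    simp only [rootD_card u, Nat.card_congr e.symm, eqM_F_congr f u e h]
  have h2 : DInv (fun E V _ _ ν z => ind (SConn ν) * emb ν (flp E) *
      eqM_G x y lam mu ψ (Nat.card E) (Nat.card V - 1) (eqM_F f ν (ν z))) := by
    intro E V E' V' _ _ _ _ u e N N' z h
    simp only [sconn_congr u e h, emb_flp_congr u e h, h z, rootD_card u, Nat.card_congr e.symm,
      eqM_F_congr f u e h]
  have h3 : RInv (fun E V _ _ R =>
      eqM_G x y lam mu ψ (Nat.card E + 1) (Nat.card V) (eqM_F f R none)) := by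
    intro E V E' V' _ _ _ _ u e N N' h
    have h' : ∀ z, N' (u.1 z) = e.optionCongr (N z) := fun z => by rw [h]; rfl
    have := eqM_F_congr f u e.optionCongr h' none
    change eqM_F f N' none = _ at this
    simp only [rootD_card u, Nat.card_congr e.symm, this]
  have k1 := root_sum _ h1
  have k2 := mark_dart _ h2
  have k3 := loop_split _ h3
  have k4 := link_sum _ (eqM_Psi_inv x y f lam mu ψ)
  have e1 : ∀ {E V : Type} (N : E × Bool → Bool ⊕ V), clo N (none, true) = Sum.inl true :=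
    fun _ => rfl
  have e2 : ∀ {E V : Type} (R : E × Bool → Option V), cloL R (none, true) = none := fun _ => rfl
  have e3 : eqM_G x y lam mu ψ (Nat.card (Fin triv.1)) (Nat.card (Option (Fin triv.2.1)) - 1)
      (eqM_F f triv.2.2 none) = ψ (0, 0) := by
    have : eqM_F f triv.2.2 none = 0 := by
      rw [eqM_F_none]
      exact rF_triv f
    rw [this]
    simp [eqM_G, triv]
  have e4 : ∀ G : NG, eqM_G x y lam mu ψ (Nat.card (Option (Fin G.1)))
      (Nat.card (Bool ⊕ Fin G.2.1) - 1) (eqM_F f (clo G.2.2) (Sum.inl true)) =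
      eqM_Psi x y f lam mu ψ _ _ G.2.2 := by
    intro G
    have : 2 + G.2.1 - 1 = G.2.1 + 1 := by omega
    simp only [eqM_Psi, eqM_F_clo, Nat.card_eq_fintype_card, Fintype.card_option,
      Fintype.card_sum, Fintype.card_bool, Fintype.card_fin, this]
  have e5 : ∀ R : RG, eqM_G x y lam mu ψ (Nat.card (Option (Fin R.1)))
      (Nat.card (Option (Fin R.2.1)) - 1) (eqM_F f (cloL R.2.2) none) =
      eqM_G x y lam mu ψ (Nat.card (Fin R.1) + 1) (Nat.card (Fin R.2.1))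
        (eqM_F f R.2.2 none) := by
    intro R
    simp only [eqM_F_none, rootD_deg_cloL_some, Nat.card_eq_fintype_card, Fintype.card_option,
      Fintype.card_fin, Nat.add_sub_cancel]
  have e6 : ∀ R₁ R₂ : RG, eqM_G x y lam mu ψ (Nat.card (Fin R₁.1 ⊕ Fin R₂.1) + 1)
      (Nat.card (Fin R₁.2.1 ⊕ Fin R₂.2.1)) (eqM_F f (merge R₁.2.2 R₂.2.2) none) =
      eqM_G x y lam mu ψ (R₁.1 + R₂.1 + 1) (R₁.2.1 + R₂.2.1) (rF f R₁ + rF f R₂) := by
    intro R₁ R₂
    simp only [eqM_F_none, Fintype.sum_sum_type, rootD_deg_merge_inl, rootD_deg_merge_inr,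
      Nat.card_eq_fintype_card, Fintype.card_sum, Fintype.card_fin, rF]
  have e7 : ∀ R : RG, wM x y R * ψ (sA (.inl R), zz sA f lam mu (.inl R)) =
      w0 R * eqM_G x y lam mu ψ (Nat.card (Fin R.1)) (Nat.card (Option (Fin R.2.1)) - 1)
        (eqM_F f R.2.2 none) := by
    intro R
    simp only [eqM_F_none, Nat.card_eq_fintype_card, Fintype.card_option, Fintype.card_fin,
      Nat.add_sub_cancel, eqM_G, wM, eqM_zz_R, rF, mul_assoc]
    rfl
  simp only [← Finset.mul_sum, ← mul_assoc, e1, e2, e4, e5] at k2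
  simp only [e6] at k3
  simp only [e7]
  rw [k1, e3, k2, k3, k4]
  ring

end Pool.Agent.Lib.MP_77dff5_pr
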