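import Pool.Agent.Lib.MP_77dff5_pr.EqA1
import Pool.Agent.Lib.MP_77dff5_pr.EqA2
import Pool.Agent.Lib.MP_77dff5_pr.EqM

/-! All equations of model A. -/

set_option autoImplicit false

namespace Pool.Agent.Lib.MP_77dff5_pr

open scoped ENNReal NNReal Classical

variable (x y : ℝ≥0∞) (f : ℕ → ℝ) (k0 : ℕ) (lam mu : ℝ)

theorem eqnA (hf : EvC f k0) (k : KA) :
    (ufA x y f k0 lam mu k).Eqn (lhsA x y k) (wgA x y) sA (zz sA f lam mu) := by
  cases k
  · exact eqnA_M x y f k0 lam mu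
  · exact eqnA_E x y f k0 lam mu
  · exact eqnA_S x y f k0 lam mu
  · exact eqnA_P x y f k0 lam mu
  · exact eqnA_H x y f k0 lam mu hf

end Pool.Agent.Lib.MP_77dff5_pr
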