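import Pool.Agent.Lib.MP_77dff5_pr.Dec
import Pool.Agent.Lib.MP_77dff5_pr.EqOm
import Pool.Agent.Lib.MP_77dff5_pr.Emb
import Pool.Agent.Lib.MP_77dff5_pr.RootA
import Pool.Agent.Lib.MP_77dff5_pr.MDefsEq

/-! Equations of model A: edge, series, parallel. -/

set_option autoImplicit false

namespace Pool.Agent.Lib.MP_77dff5_pr

open scoped ENNReal NNReal Classical

/-- embeddings and edge weights -/
noncomputable def eqA1Th (y : ℝ≥0∞) : NFun :=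
  fun E _ _ _ N => (emb (clo N) (flp _) : ℝ≥0∞) * y ^ Fintype.card E

theorem eqA1_ninv (y : ℝ≥0∞) : NInv (eqA1Th y) := by
  intro E V E' V' _ _ _ _ u e N N' h
  unfold eqA1Th
  rw [emb_clo_congr u e h, Fintype.card_congr u.edge]

/-- the test function in terms of edges, vertices and the degree statistic -/
noncomputable def eqA1Ps (lam mu : ℝ) (ψ : ℕ × ℝ → ℝ≥0∞) (p : ℕ × ℕ × ℝ) : ℝ≥0∞ :=
  ψ (p.1 - p.2.1 - 1, p.2.2 + lam * p.1 - mu * (p.1 - p.2.1 - 1 : ℕ))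

/-- the weight of a decorated network of model A -/
noncomputable def eqA1W (x y : ℝ≥0∞) (P : NG → Prop) (D : DG) : ℝ≥0∞ :=
  wDP (wM x y) (wTriv x) P D * ((emb (clo D.1.2.2) (flp _) : ℝ≥0∞) * y ^ D.1.1)

theorem eqA1_cls (x y : ℝ≥0∞) (P : NG → Prop) : clsA x y P = onD (eqA1W x y P) := by
  unfold clsA
  congr 1
  funext D
  simp only [eqA1W, wDP, wDec, wNA]
  ring

theorem eqA1_lhs (x y : ℝ≥0∞) (f : ℕ → ℝ) (lam mu : ℝ) (P : NG → Prop) (ψ : ℕ × ℝ → ℝ≥0∞) :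
    ∑' ω, clsA x y P ω * ψ (sA ω, zz sA f lam mu ω) =
      ∑' D : DG, wDP (wM x y) (wTriv x) P D *
        (eqA1Th y _ _ D.1.2.2 * eqA1Ps lam mu ψ (gStat f D.1.2.2 D.2.1 D.2.2)) := by
  rw [eqA1_cls, tsum_onD]
  refine tsum_congr fun D => ?_
  rw [gStat_eq, eqA1W, mul_assoc]
  simp only [eqA1Th, Fintype.card_fin]
  rfl

theorem eqA1_ind {p : Prop} (h : ind p ≠ 0) : p := by
  by_contra hp
  exact h (by simp [ind, hp])

theorem eqA1_wM {x y : ℝ≥0∞} {R : RG} (h : wM x y R ≠ 0) : R.2.1 ≤ R.1 := by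
  have h1 : ind (RConn R.2.2) ≠ 0 := by
    intro h0
    exact h (by simp [wM, w0, h0])
  simpa using (eqA1_ind h1).card_le

theorem eqA1_wTriv {x : ℝ≥0∞} {R : RG} (h : wTriv x R ≠ 0) : R = triv := by
  refine eqA1_ind fun h0 => h ?_
  simp [wTriv, h0]

theorem eqA1_supp {x y : ℝ≥0∞} {P : NG → Prop} {D : DG}
    (h : wDP (wM x y) (wTriv x) P D ≠ 0) :
    IsNet D.1.2.2 ∧ P D.1 ∧ nv (.inr (.inl D)) + 1 ≤ ne (.inr (.inl D)) := by
  simp only [wDP, wDec, ne_eq, mul_eq_zero, not_or, Finset.prod_eq_zero_iff, Finset.mem_univ,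
    true_and, not_exists] at h
  obtain ⟨⟨⟨-, h1⟩, h2⟩, h3⟩ := h
  obtain ⟨h4, h5⟩ := eqA1_ind h1
  refine ⟨h4, h5, ?_⟩
  have h6 : D.1.2.1 < D.1.1 := by simpa using h4.card_lt
  have h7 : ∑ a, (D.2.1 a).2.1 ≤ ∑ a, (D.2.1 a).1 :=
    Finset.sum_le_sum fun a _ => eqA1_wM (h2 a)
  have h8 : ∑ v, (D.2.2 v).2.1 ≤ ∑ v, (D.2.2 v).1 :=
    Finset.sum_le_sum fun v _ => by rw [eqA1_wTriv (h3 v)]; rfl
  simp only [ne, nv]
  omega

/-- the two corners of the single edge -/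
def eqA1Two : RG × RG ≃ (Fin 1 × Bool → RG) where
  toFun p := fun a => if a.2 then p.1 else p.2
  invFun a := (a (0, true), a (0, false))
  left_inv p := rfl
  right_inv a := by
    funext ⟨e, b⟩
    obtain rfl : e = 0 := Subsingleton.elim _ _
    cases b <;> rfl

variable (x y : ℝ≥0∞) (f : ℕ → ℝ) (k0 : ℕ) (lam mu : ℝ)

theorem eqnA_E : (ufA x y f k0 lam mu .E).Eqn (lhsA x y .E) (wgA x y) sA (zz sA f lam mu) := by
  intro ψ
  have h1 := dec_E (wM x y) (wTriv x) _ (decInv_gStat f _ (eqA1_ninv y) (eqA1Ps lam mu ψ))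
  have h2 := tsum_fin_two (fun _ => onR (wM x y))
    fun ω => ψ (0 + ∑ i, sA (ω i), lam + ∑ i, zz sA f lam mu (ω i) + ∑ _v : Unit, (0 : ℝ))
  have h3 : (∑' t : Unit, y * ∑' ω : Fin 2 → Om, (∏ i, wgA x y (![JA.M, JA.M] i) (ω i)) *
      ψ (0 + ∑ i, sA (ω i), lam + ∑ i, zz sA f lam mu (ω i) + ∑ _v : Unit, (0 : ℝ))) =
      y * ∑' ω : Fin 2 → Om, (∏ i, onR (wM x y) (ω i)) *
      ψ (0 + ∑ i, sA (ω i), lam + ∑ i, zz sA f lam mu (ω i) + ∑ _v : Unit, (0 : ℝ)) := by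
    rw [tsum_fintype, Finset.univ_unique, Finset.sum_singleton]
    simp only [Fin.prod_univ_two]
    rfl
  refine Eq.trans ?_ h3.symm
  rw [h2]
  refine (eqA1_lhs x y f lam mu _ ψ).trans (h1.trans ?_)
  rw [← eqA1Two.tsum_eq, ENNReal.tsum_prod', tsum_onR, ← ENNReal.tsum_mul_left]
  refine tsum_congr fun R₀ => ?_
  rw [tsum_onR, ← ENNReal.tsum_mul_left, ← ENNReal.tsum_mul_left]
  refine tsum_congr fun R₁ => ?_
  have e1 : ∏ a, wM x y (eqA1Two (R₀, R₁) a) = wM x y R₀ * wM x y R₁ := by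
    simp [Fintype.prod_prod_type, eqA1Two]
  rw [e1]
  by_cases h0 : wM x y R₀ = 0
  · simp [h0]
  by_cases h0' : wM x y R₁ = 0
  · simp [h0']
  have l0 := eqA1_wM h0
  have l1 := eqA1_wM h0'
  have e2 : gStat f edgeN (eqA1Two (R₀, R₁)) Fin.elim0 =
      (1 + (R₀.1 + R₁.1), R₀.2.1 + R₁.2.1, rF f R₀ + rF f R₁) := by
    simp [gStat, Fintype.sum_prod_type, eqA1Two]
  rw [e2]
  have e3 : 1 + (R₀.1 + R₁.1) - (R₀.2.1 + R₁.2.1) - 1 = (R₀.1 - R₀.2.1) + (R₁.1 - R₁.2.1) := by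
    omega
  simp only [eqA1Th, emb_edgeN, eqA1Ps, e3, Fin.sum_univ_two, Matrix.cons_val_zero,
    Matrix.cons_val_one, zz, sA, FO, ne, Fintype.card_fin, Finset.sum_const_zero]
  have e4 : rF f R₀ + rF f R₁ + lam * ((1 + (R₀.1 + R₁.1) : ℕ) : ℝ) -
      mu * ((R₀.1 - R₀.2.1 + (R₁.1 - R₁.2.1) : ℕ) : ℝ) =
      lam + (rF f R₀ + lam * (R₀.1 : ℝ) - mu * ((R₀.1 - R₀.2.1 : ℕ) : ℝ) +
        (rF f R₁ + lam * (R₁.1 : ℝ) - mu * ((R₁.1 - R₁.2.1 : ℕ) : ℝ))) + 0 := by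
    simp only [Nat.cast_add, Nat.cast_one]
    ring
  rw [e4, zero_add]
  simp only [Nat.cast_one, pow_one, one_mul]
  ring

theorem eqA1_sA_D (D : DG) :
    sA (.inr (.inl D)) = ne (.inr (.inl D)) - nv (.inr (.inl D)) - 1 := rfl

theorem eqnA_S : (ufA x y f k0 lam mu .S).Eqn (lhsA x y .S) (wgA x y) sA (zz sA f lam mu) := by
  intro ψ
  have h1 := dec_S (wM x y) (wTriv x) _ (decInv_gStat f _ (eqA1_ninv y) (eqA1Ps lam mu ψ))
  have h2 := tsum_fin_three (fun i => wgA x y (![JA.nS, JA.D, JA.V] i))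
    fun ω => ψ (0 + ∑ i, sA (ω i), 0 + ∑ i, zz sA f lam mu (ω i) +
      ∑ _v : Unit, f (cO (ω 2) + bO (ω 0) + aO (ω 1)))
  have h3 : (∑' t : Unit, 1 * ∑' ω : Fin 3 → Om, (∏ i, wgA x y (![JA.nS, JA.D, JA.V] i) (ω i)) *
      ψ (0 + ∑ i, sA (ω i), 0 + ∑ i, zz sA f lam mu (ω i) +
        ∑ _v : Unit, f (cO (ω 2) + bO (ω 0) + aO (ω 1)))) =
      ∑' ω : Fin 3 → Om, (∏ i, wgA x y (![JA.nS, JA.D, JA.V] i) (ω i)) *
      ψ (0 + ∑ i, sA (ω i), 0 + ∑ i, zz sA f lam mu (ω i) +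
        ∑ _v : Unit, f (cO (ω 2) + bO (ω 0) + aO (ω 1))) := by
    rw [tsum_fintype, Finset.univ_unique, Finset.sum_singleton, one_mul]
  refine Eq.trans ?_ h3.symm
  rw [h2]
  refine (eqA1_lhs x y f lam mu _ ψ).trans (h1.trans ?_)
  have c0 : wgA x y (![JA.nS, JA.D, JA.V] 0) = onD (eqA1W x y fun N => ¬IsS N.2.2) :=
    eqA1_cls x y _
  have c1 : wgA x y (![JA.nS, JA.D, JA.V] 1) = onD (eqA1W x y fun _ => True) :=
    eqA1_cls x y _
  have c2 : wgA x y (![JA.nS, JA.D, JA.V] 2) = onR (wTriv x) := rfl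
  rw [c0, c1, c2, ← (piFinTwoEquiv fun _ => DG).symm.tsum_eq, ENNReal.tsum_prod', tsum_onD]
  refine tsum_congr fun D₀ => ?_
  rw [tsum_onD, ← ENNReal.tsum_mul_left]
  refine tsum_congr fun D₁ => ?_
  rw [tsum_onR, ← (Equiv.funUnique Unit RG).symm.tsum_eq, ← ENNReal.tsum_mul_left,
    ← ENNReal.tsum_mul_left]
  refine tsum_congr fun R => ?_
  generalize hDs : (piFinTwoEquiv fun _ => DG).symm (D₀, D₁) = Ds
  obtain rfl : D₀ = Ds 0 := by rw [← hDs]; rfl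
  obtain rfl : D₁ = Ds 1 := by rw [← hDs]; rfl
  generalize hb : (Equiv.funUnique Unit RG).symm R = b
  obtain rfl : R = b () := by rw [← hb]; rfl
  clear hDs hb
  unfold eqA1W
  by_cases h0 : wDP (wM x y) (wTriv x) (fun N => ¬IsS N.2.2) (Ds 0) = 0
  · simp [h0]
  by_cases h0' : wDP (wM x y) (wTriv x) (fun _ => True) (Ds 1) = 0
  · simp [h0']
  by_cases h0'' : wTriv x (b ()) = 0
  · simp [h0'']
  obtain ⟨n0, -, l0⟩ := eqA1_supp h0
  obtain ⟨n1, -, l1⟩ := eqA1_supp h0'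
  obtain rfl : b = fun _ => triv := funext fun _ => eqA1_wTriv h0''
  have hN : ∀ i, IsNet (Ds i).1.2.2 := Fin.forall_fin_two.2 ⟨n0, n1⟩
  have e1 : eqA1Th y _ _ (glue tri fun i => (Ds i).1.2.2) =
      ((emb (clo (Ds 0).1.2.2) (flp _) : ℝ≥0∞) * y ^ (Ds 0).1.1) *
        ((emb (clo (Ds 1).1.2.2) (flp _) : ℝ≥0∞) * y ^ (Ds 1).1.1) := by
    unfold eqA1Th
    rw [emb_glue isNet_tri hN fun i => Or.inr (oneBridge_tri i), emb_tri, Fin.prod_univ_two,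
      Fintype.card_sigma, Fin.sum_univ_two]
    simp only [Fintype.card_fin, Nat.cast_mul, one_mul, pow_add]
    ring
  have t1 : triv.1 = 0 := rfl
  have t2 : triv.2.1 = 0 := rfl
  have e2 : gStat f (glue tri fun i => (Ds i).1.2.2) (glueD Ds) (glueV (fun _ => triv) Ds) =
      (ne (.inr (.inl (Ds 0))) + ne (.inr (.inl (Ds 1))),
        1 + (nv (.inr (.inl (Ds 0))) + nv (.inr (.inl (Ds 1)))),
        f (dDeg (Ds 0) (.inl false) + dDeg (Ds 1) (.inl true)) +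
          (FO f (.inr (.inl (Ds 0))) + FO f (.inr (.inl (Ds 1))))) := by
    rw [gStat_glue]
    simp [Fintype.sum_prod_type, Fin.sum_univ_two, tri, rc_triv, rF_triv, t1, t2]
  rw [e1, e2]
  simp only [Finset.univ_unique, Finset.sum_singleton, Fin.sum_univ_three,
    Matrix.cons_val_zero, Matrix.cons_val_one, Matrix.cons_val_two, Matrix.head_cons,
    Matrix.tail_cons, eqA1Ps, zz, eqA1_sA_D]
  have t3 : sA (.inl triv) = 0 := rfl
  have t4 : ne (.inl triv) = 0 := rfl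
  have t5 : FO f (.inl triv) = 0 := rF_triv f
  have t6 : cO (.inl triv) = 0 := rc_triv
  have t7 : bO (.inr (.inl (Ds 0))) = dDeg (Ds 0) (.inl false) := rfl
  have t8 : aO (.inr (.inl (Ds 1))) = dDeg (Ds 1) (.inl true) := rfl
  rw [t3, t4, t5, t6, t7, t8]
  generalize ne (.inr (.inl (Ds 0))) = m0 at *
  generalize ne (.inr (.inl (Ds 1))) = m1 at *
  generalize nv (.inr (.inl (Ds 0))) = v0 at *
  generalize nv (.inr (.inl (Ds 1))) = v1 at *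
  have e3 : m0 + m1 - (1 + (v0 + v1)) - 1 = (m0 - v0 - 1) + (m1 - v1 - 1) := by omega
  rw [e3]
  simp only [zero_add, add_zero, Nat.cast_add, Nat.cast_zero, mul_zero, sub_zero]
  have e4 : ∀ F F0 F1 : ℝ, F + (F0 + F1) + lam * ((m0 : ℝ) + m1) -
      mu * (((m0 - v0 - 1 : ℕ) : ℝ) + ((m1 - v1 - 1 : ℕ) : ℝ)) =
      F0 + lam * m0 - mu * ((m0 - v0 - 1 : ℕ) : ℝ) +
        (F1 + lam * m1 - mu * ((m1 - v1 - 1 : ℕ) : ℝ)) + F := by
    intro F F0 F1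
    ring
  rw [e4]
  ring

theorem eqA1_sub {k : ℕ} (a b : Fin (k + 2) → ℕ) (h : ∀ i, b i + 1 ≤ a i) :
    ∑ i, a i - ∑ i, b i - 1 = k + 1 + ∑ i, (a i - b i - 1) := by
  have h1 : ∑ i, a i = ∑ i, ((a i - b i - 1) + b i + 1) :=
    Finset.sum_congr rfl fun i _ => by have := h i; omega
  rw [Finset.sum_add_distrib, Finset.sum_add_distrib] at h1
  simp only [Finset.sum_const, Finset.card_univ, Fintype.card_fin, smul_eq_mul, mul_one] at h1
  omega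

theorem eqnA_P : (ufA x y f k0 lam mu .P).Eqn (lhsA x y .P) (wgA x y) sA (zz sA f lam mu) := by
  intro ψ
  have h1 := dec_P (wM x y) (wTriv x) _ (decInv_gStat f _ (eqA1_ninv y) (eqA1Ps lam mu ψ))
  refine (eqA1_lhs x y f lam mu _ ψ).trans (h1.trans ?_)
  refine tsum_congr fun j : ℕ => ?_
  have h2 := tsum_pi_onD (fun _ : Fin (j + 2) => eqA1W x y fun N => ¬IsP N.2.2)
    fun ω => ψ (j + 1 + ∑ i, sA (ω i), -(mu * (j + 1)) + ∑ i, zz sA f lam mu (ω i) +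
      ∑ v : Empty, (v.elim : (Fin (j + 2) → Om) → ℝ) ω)
  rw [← eqA1_cls] at h2
  refine Eq.trans ?_ ((one_mul _).trans h2).symm
  rw [← ENNReal.tsum_mul_left]
  refine tsum_congr fun Ds => ?_
  unfold eqA1W
  rw [Finset.prod_mul_distrib]
  by_cases h0 : ∏ i, wDP (wM x y) (wTriv x) (fun N => ¬IsP N.2.2) (Ds i) = 0
  · simp [h0]
  have hs := fun i => eqA1_supp (Finset.prod_ne_zero_iff.1 h0 i (Finset.mem_univ i))
  have e1 : eqA1Th y _ _ (glue (bond (j + 2)) fun i => (Ds i).1.2.2) =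
      (((j + 2).factorial : ℕ) : ℝ≥0∞) *
        ∏ i, ((emb (clo (Ds i).1.2.2) (flp _) : ℝ≥0∞) * y ^ (Ds i).1.1) := by
    unfold eqA1Th
    rw [emb_glue (isNet_bond (by omega)) (fun i => (hs i).1) fun i => Or.inl (hs i).2.1, emb_bond,
      Fintype.card_sigma, Finset.prod_mul_distrib, Finset.prod_pow_eq_pow_sum]
    simp only [Fintype.card_fin, Nat.cast_mul, Nat.cast_prod, mul_assoc]
  have e2 := eqA1_sub (fun i => ne (.inr (.inl (Ds i)))) (fun i => nv (.inr (.inl (Ds i))))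
    fun i => (hs i).2.2
  rw [e1, gStat_glue]
  simp only [Finset.univ_eq_empty, Finset.sum_empty, add_zero, zero_add, Fintype.card_eq_zero,
    eqA1Ps, zz, eqA1_sA_D, e2]
  have e3 : (∑ i, FO f (.inr (.inl (Ds i)))) + lam * ((∑ i, ne (.inr (.inl (Ds i))) : ℕ) : ℝ) -
      mu * ((j + 1 + ∑ i, (ne (.inr (.inl (Ds i))) - nv (.inr (.inl (Ds i))) - 1) : ℕ) : ℝ) =
      -(mu * (j + 1)) + ∑ i, (FO f (.inr (.inl (Ds i))) + lam * (ne (.inr (.inl (Ds i))) : ℝ) -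
        mu * ((ne (.inr (.inl (Ds i))) - nv (.inr (.inl (Ds i))) - 1 : ℕ) : ℝ)) := by
    rw [Finset.sum_sub_distrib, Finset.sum_add_distrib, ← Finset.mul_sum, ← Finset.mul_sum]
    simp only [Nat.cast_add, Nat.cast_sum, Nat.cast_one]
    ring
  rw [e3]
  have e4 : (((j + 2).factorial : ℕ) : ℝ≥0∞)⁻¹ * (((j + 2).factorial : ℕ) : ℝ≥0∞) = 1 :=
    ENNReal.inv_mul_cancel (by exact_mod_cast (Nat.factorial_pos _).ne') (ENNReal.natCast_ne_top _)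
  calc _ = ((((j + 2).factorial : ℕ) : ℝ≥0∞)⁻¹ * (((j + 2).factorial : ℕ) : ℝ≥0∞)) * _ := ?_
    _ = _ := by rw [e4, one_mul]
  ring

end Pool.Agent.Lib.MP_77dff5_pr
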