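import Pool.Agent.Lib.MP_77dff5_pr.Dec
import Pool.Agent.Lib.MP_77dff5_pr.EqOm
import Pool.Agent.Lib.MP_77dff5_pr.Emb
import Pool.Agent.Lib.MP_77dff5_pr.MDefsEq

/-! Equations of model B: parallel networks. -/

set_option autoImplicit false

namespace Pool.Agent.Lib.MP_77dff5_pr

open scoped ENNReal NNReal Classical

private theorem eqB2_ind_congr {p q : Prop} (h : p ↔ q) : ind p = ind q := by rw [propext h]

private theorem eqB2_ind_and (p q : Prop) : ind (p ∧ q) = ind p * ind q := by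
  by_cases hp : p <;> by_cases hq : q <;> simp [ind, hp, hq]

private theorem eqB2_ind_prod {I : Type} [Fintype I] (p : I → Prop) :
    ∏ i, ind (p i) = ind (∀ i, p i) := by
  by_cases h : ∀ i, p i
  · simp [ind, h]
  · obtain ⟨i, hi⟩ := not_forall.mp h
    rw [Finset.prod_eq_zero (Finset.mem_univ i) (by simp [ind, hi])]
    simp [ind, h]

private theorem eqB2_ind_sum {I : Type} [Fintype I] (p : I → Prop)
    (h : ∀ i i', p i → p i' → i = i') : ∑ i, ind (p i) = ind (∃ i, p i) := by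
  by_cases hp : ∃ i, p i
  · obtain ⟨i, hi⟩ := hp
    have h1 : ind (∃ i, p i) = 1 := if_pos ⟨i, hi⟩
    rw [h1]
    exact (Finset.sum_eq_single (f := fun i => ind (p i)) i
      (fun k _ hk => if_neg fun hk' => hk (h _ _ hk' hi))
      (fun hn => absurd (Finset.mem_univ i) hn)).trans (if_pos hi)
  · have h1 : ind (∃ i, p i) = 0 := if_neg hp
    rw [h1]
    exact Finset.sum_eq_zero fun i _ => if_neg fun hi => hp ⟨i, hi⟩

/-- simple and planar after closing -/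
private def eqB2SP {E V : Type} (N : E × Bool → Bool ⊕ V) : Prop :=
  Simple N ∧ emb (clo N) (flp _) ≠ 0

/-- the weight of a decorated network without the indicator -/
private noncomputable def eqB2c (wv : RG → ℝ≥0∞) (D : DG) : ℝ≥0∞ :=
  wt D.1.1 D.1.2.1 * (∏ x, wTriv 1 (D.2.1 x)) * ∏ v, wv (D.2.2 v)

private theorem eqB2_wDec (wv : RG → ℝ≥0∞) (P : NG → Prop) (D : DG) :
    wDec (wNB P) (wTriv 1) wv D = eqB2c wv D * ind (IsNet D.1.2.2 ∧ P D.1 ∧ eqB2SP D.1.2.2) := by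
  simp only [wDec, wNB, eqB2c, eqB2SP]
  ring

private theorem eqB2_wDP (wv : RG → ℝ≥0∞) (P : NG → Prop) (D : DG) :
    wDP (wTriv 1) wv P D = eqB2c wv D * ind (IsNet D.1.2.2 ∧ P D.1) := by
  simp only [wDP, wDec, eqB2c]
  ring

/-- edges, vertices and degree statistic of a decorated network -/
private noncomputable def eqB2st (f : ℕ → ℝ) (D : DG) : ℕ × ℕ × ℝ :=
  (ne (.inr (.inl D)), nv (.inr (.inl D)), FO f (.inr (.inl D)))

private theorem eqB2_stat_glue (f : ℕ → ℝ) {j : ℕ} (Ds : Fin j → DG) :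
    gStat f (glue (bond j) fun i => (Ds i).1.2.2) (glueD Ds) (glueV Empty.elim Ds) =
      ∑ i, eqB2st f (Ds i) := by
  rw [gStat_glue]
  refine Prod.ext ?_ (Prod.ext ?_ ?_)
  · simp [Prod.fst_sum, eqB2st]
  · simp [Prod.fst_sum, Prod.snd_sum, eqB2st]
  · simp [Prod.snd_sum, eqB2st]

private theorem eqB2_sp_congr {E V E' V' : Type} [Finite E] [Finite V] (u : DIso E E') (e : V ≃ V')
    {N : E × Bool → Bool ⊕ V} {N' : E' × Bool → Bool ⊕ V'}
    (h : ∀ x, N' (u.1 x) = (N x).map id e) : eqB2SP N' ↔ eqB2SP N := by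
  rw [eqB2SP, eqB2SP, emb_clo_congr u e h,
    simple_congr u ((Equiv.refl Bool).sumCongr e) (ν := N) (fun x => (h x).trans (by simp))]

private theorem eqB2_sp_glue {j : ℕ} (Ds : Fin (j + 2) → DG)
    (hN : ∀ i, IsNet (Ds i).1.2.2 ∧ ¬IsP (Ds i).1.2.2) :
    eqB2SP (glue (bond (j + 2)) fun i => (Ds i).1.2.2) ↔ (∀ i, eqB2SP (Ds i).1.2.2) ∧
      ∀ i i', IsE (Ds i).1.2.2 → IsE (Ds i').1.2.2 → i = i' := by
  rw [eqB2SP, simple_glue_bond hN,
    emb_glue (isNet_bond (by omega)) (fun i => (hN i).1) (fun i => Or.inl (hN i).2), emb_bond,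
    mul_ne_zero_iff, Finset.prod_ne_zero_iff]
  constructor
  · rintro ⟨⟨h1, h2⟩, -, h3⟩
    exact ⟨fun i => ⟨h1 i, h3 i (Finset.mem_univ i)⟩, h2⟩
  · rintro ⟨h1, h2⟩
    exact ⟨⟨fun i => (h1 i).1, h2⟩, Nat.factorial_ne_zero _, fun i _ => (h1 i).2⟩

/-- the decomposition of parallel networks, with a condition `NoDir N ↔ c` -/
private theorem eqB2_dec (wv : RG → ℝ≥0∞) (f : ℕ → ℝ) (c : Prop) (P : NG → Prop)
    (hP : ∀ N, P N ↔ IsP N.2.2 ∧ (NoDir N.2.2 ↔ c)) (φ : ℕ × ℕ × ℝ → ℝ≥0∞) :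
    ∑' D, wDec (wNB P) (wTriv 1) wv D * φ (eqB2st f D) =
      ∑' j : ℕ, (((j + 2).factorial : ℕ) : ℝ≥0∞)⁻¹ * ∑' Ds : Fin (j + 2) → DG,
        (∏ i, eqB2c wv (Ds i)) *
          ind ((∀ i, IsNet (Ds i).1.2.2 ∧ ¬IsP (Ds i).1.2.2 ∧ eqB2SP (Ds i).1.2.2) ∧
            ((∀ i, ¬IsE (Ds i).1.2.2) ↔ c) ∧
            ∀ i i', IsE (Ds i).1.2.2 → IsE (Ds i').1.2.2 → i = i') *
          φ (∑ i, eqB2st f (Ds i)) := by
  have hθ : NInv fun _ _ _ _ N => ind ((NoDir N ↔ c) ∧ eqB2SP N) :=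
    fun E V E' V' _ _ _ _ u e N N' h =>
      eqB2_ind_congr (by rw [noDir_congr u e h, eqB2_sp_congr u e h])
  have key := dec_P (wTriv 1) wv _ (decInv_gStat f _ hθ φ)
  refine Eq.trans (tsum_congr fun D => ?_) (key.trans (tsum_congr fun j => ?_))
  · rw [eqB2_wDec, eqB2_wDP, gStat_eq,
      eqB2_ind_congr (show IsNet D.1.2.2 ∧ P D.1 ∧ eqB2SP D.1.2.2 ↔
        (IsNet D.1.2.2 ∧ IsP D.1.2.2) ∧ (NoDir D.1.2.2 ↔ c) ∧ eqB2SP D.1.2.2 by
          rw [hP]; tauto), eqB2_ind_and (_ ∧ _), eqB2st]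
    ring
  · congr 1
    refine tsum_congr fun Ds => ?_
    simp only [eqB2_wDP]
    rw [Finset.prod_mul_distrib, eqB2_ind_prod, eqB2_stat_glue, ← mul_assoc,
      mul_assoc (∏ i, eqB2c wv (Ds i)), ← eqB2_ind_and]
    congr 2
    refine eqB2_ind_congr ⟨fun ⟨h1, h2, h3⟩ => ?_, fun ⟨h1, h2, h3⟩ => ?_⟩
    · rw [noDir_glue_bond h1] at h2
      rw [eqB2_sp_glue Ds h1] at h3
      exact ⟨fun i => ⟨(h1 i).1, (h1 i).2, h3.1 i⟩, h2, h3.2⟩
    · have h4 : ∀ i, IsNet (Ds i).1.2.2 ∧ ¬IsP (Ds i).1.2.2 := fun i => ⟨(h1 i).1, (h1 i).2.1⟩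
      rw [noDir_glue_bond h4, eqB2_sp_glue Ds h4]
      exact ⟨h4, h2, fun i => (h1 i).2.2, h3⟩

/-- the class of the single edge -/
private theorem eqB2_edge (wv : RG → ℝ≥0∞) (f : ℕ → ℝ) (φ : ℕ × ℕ × ℝ → ℝ≥0∞) :
    ∑' D, wDec (wNB fun N => IsE N.2.2) (wTriv 1) wv D * φ (eqB2st f D) = φ (1, 0, 0) := by
  have hθ : NInv fun _ _ _ _ N => ind (eqB2SP N) :=
    fun E V E' V' _ _ _ _ u e N N' h => eqB2_ind_congr (eqB2_sp_congr u e h)
  have key := dec_E (wTriv 1) wv _ (decInv_gStat f _ hθ φ)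
  refine Eq.trans (tsum_congr fun D => ?_) (key.trans ?_)
  · rw [eqB2_wDec, eqB2_wDP, gStat_eq, ← and_assoc, eqB2_ind_and (_ ∧ _), eqB2st]
    ring
  · have h1 : ind (eqB2SP edgeN) = 1 := if_pos ⟨isNet_edgeN.2.2, by rw [emb_edgeN]; simp⟩
    rw [tsum_pi_wTriv 1 fun a : Fin 1 × Bool → RG =>
      ind (eqB2SP edgeN) * φ (gStat f edgeN a Fin.elim0), h1, one_pow, one_mul, one_mul]
    congr 1
    have h2 : triv.1 = 0 := rfl
    have h3 : triv.2.1 = 0 := rfl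
    simp [gStat, rF_triv, h2, h3]

variable (wv : RG → ℝ≥0∞) (x : ℝ≥0∞) (f : ℕ → ℝ) (k0 : ℕ) (lam mu : ℝ)

/-- size and value from the three statistics -/
private noncomputable def eqB2sz (lam mu : ℝ) (p : ℕ × ℕ × ℝ) : ℕ × ℝ :=
  (p.2.1, p.2.2 + lam * p.1 - mu * p.2.1)

private theorem eqB2_tlaw (r : ℕ) (z0 : ℝ) (ψ : ℕ × ℝ → ℝ≥0∞) :
    (Core.free (Ω := Om) (Fin r) (fun _ => JB.J) 0 z0).tlaw (wgB wv x) sB (zz sB f lam mu) ψ =
      ∑' Ds : Fin r → DG,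
        (∏ i, wDec (wNB fun N => ¬IsP N.2.2 ∧ ¬IsE N.2.2) (wTriv 1) wv (Ds i)) *
          ψ ((0, z0) + eqB2sz lam mu (∑ i, eqB2st f (Ds i))) := by
  refine (tsum_pi_onD (I := Fin r)
    (fun _ => wDec (wNB fun N => ¬IsP N.2.2 ∧ ¬IsE N.2.2) (wTriv 1) wv) _).trans
    (tsum_congr fun Ds => ?_)
  congr 2
  refine Prod.ext ?_ ?_
  · simp [Core.S, Core.free, eqB2sz, eqB2st, Prod.fst_sum, Prod.snd_sum, sB]
    rfl
  · simp [Core.Z, Core.free, eqB2sz, eqB2st, Prod.fst_sum, Prod.snd_sum, sB, zz,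
      Finset.sum_add_distrib, Finset.sum_sub_distrib, Finset.mul_sum]
    rfl

theorem eqnB_P0 : (ufB f k0 lam .P0).Eqn (lhsB wv x .P0) (wgB wv x) sB (zz sB f lam mu) := by
  intro ψ
  refine (tsum_onD _ _).trans ((eqB2_dec wv f True (fun N => IsP N.2.2 ∧ NoDir N.2.2)
    (fun N => by simp) fun p => ψ (eqB2sz lam mu p)).trans (tsum_congr fun j => ?_))
  refine congrArg _ (Eq.trans (tsum_congr fun Ds => ?_) (eqB2_tlaw wv x f lam mu _ 0 ψ).symm)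
  simp only [eqB2_wDec]
  rw [Finset.prod_mul_distrib, eqB2_ind_prod, Prod.mk_zero_zero, zero_add]
  congr 2
  refine eqB2_ind_congr ⟨fun ⟨h1, h2, _⟩ i => ?_, fun h => ?_⟩
  · exact ⟨(h1 i).1, ⟨(h1 i).2.1, h2.mpr trivial i⟩, (h1 i).2.2⟩
  · exact ⟨fun i => ⟨(h i).1, (h i).2.1.1, (h i).2.2⟩, iff_true_intro fun i => (h i).2.1.2,
      fun i _ hi _ => absurd hi (h i).2.1.2⟩

theorem eqnB_P1 : (ufB f k0 lam .P1).Eqn (lhsB wv x .P1) (wgB wv x) sB (zz sB f lam mu) := by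
  intro ψ
  refine (tsum_onD _ _).trans ((eqB2_dec wv f False (fun N => IsP N.2.2 ∧ ¬NoDir N.2.2)
    (fun N => by simp) fun p => ψ (eqB2sz lam mu p)).trans (tsum_congr fun j => ?_))
  change _ = (((j + 1).factorial : ℕ) : ℝ≥0∞)⁻¹ *
    (Core.free (Ω := Om) (Fin (j + 1)) (fun _ => JB.J) 0 lam).tlaw (wgB wv x) sB
      (zz sB f lam mu) ψ
  rw [eqB2_tlaw]
  set wE := wDec (wNB fun N => IsE N.2.2) (wTriv 1) wv with hwE
  set wJ := wDec (wNB fun N => ¬IsP N.2.2 ∧ ¬IsE N.2.2) (wTriv 1) wv with hwJ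
  have h1 : ∀ Ds : Fin (j + 2) → DG, (∏ i, eqB2c wv (Ds i)) *
      ind ((∀ i, IsNet (Ds i).1.2.2 ∧ ¬IsP (Ds i).1.2.2 ∧ eqB2SP (Ds i).1.2.2) ∧
        ((∀ i, ¬IsE (Ds i).1.2.2) ↔ False) ∧
        ∀ i i', IsE (Ds i).1.2.2 → IsE (Ds i').1.2.2 → i = i') =
      ∑ k : Fin (j + 2), wE (Ds k) * ∏ i, wJ (Ds (k.succAbove i)) := by
    intro Ds
    have h2 : ∀ k : Fin (j + 2), wE (Ds k) * ∏ i, wJ (Ds (k.succAbove i)) =
        (∏ i, eqB2c wv (Ds i)) * ind ((IsNet (Ds k).1.2.2 ∧ IsE (Ds k).1.2.2 ∧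
          eqB2SP (Ds k).1.2.2) ∧ ∀ i, IsNet (Ds (k.succAbove i)).1.2.2 ∧
            (¬IsP (Ds (k.succAbove i)).1.2.2 ∧ ¬IsE (Ds (k.succAbove i)).1.2.2) ∧
              eqB2SP (Ds (k.succAbove i)).1.2.2) := by
      intro k
      simp only [hwE, hwJ, eqB2_wDec]
      rw [Finset.prod_mul_distrib, eqB2_ind_prod, eqB2_ind_and _ (∀ _, _),
        Fin.prod_univ_succAbove _ k]
      ring
    simp only [h2]
    rw [← Finset.mul_sum, eqB2_ind_sum]
    · congr 1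
      refine eqB2_ind_congr ⟨fun ⟨a1, a2, a3⟩ => ?_, fun ⟨k, a1, a2⟩ => ?_⟩
      · obtain ⟨k, hk⟩ := not_forall.mp a2.mp
        rw [not_not] at hk
        exact ⟨k, ⟨(a1 k).1, hk, (a1 k).2.2⟩, fun i => ⟨(a1 _).1,
          ⟨(a1 _).2.1, fun hi => Fin.succAbove_ne k i (a3 _ _ hi hk)⟩, (a1 _).2.2⟩⟩
      · have a3 : ∀ i, IsE (Ds i).1.2.2 → i = k := fun i hi => by
          by_contra hne
          obtain ⟨l, rfl⟩ := Fin.exists_succAbove_eq hne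
          exact (a2 l).2.1.2 hi
        refine ⟨fun i => ?_, ⟨fun h => h k a1.2.1, False.elim⟩,
          fun i i' hi hi' => (a3 i hi).trans (a3 i' hi').symm⟩
        by_cases hne : i = k
        · subst hne
          exact ⟨a1.1, a1.1.not_P_of_E a1.2.1, a1.2.2⟩
        · obtain ⟨l, rfl⟩ := Fin.exists_succAbove_eq hne
          exact ⟨(a2 l).1, (a2 l).2.1.1, (a2 l).2.2⟩
    · intro k k' a a'
      by_contra hne
      obtain ⟨l, rfl⟩ := Fin.exists_succAbove_eq hne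
      exact (a'.2 l).2.1.2 a.1.2.1
  have h3 : ∀ k : Fin (j + 2), ∑' Ds : Fin (j + 2) → DG,
      (wE (Ds k) * ∏ i, wJ (Ds (k.succAbove i))) * ψ (eqB2sz lam mu (∑ i, eqB2st f (Ds i))) =
      ∑' Ds : Fin (j + 1) → DG, (∏ i, wJ (Ds i)) *
        ψ ((0, lam) + eqB2sz lam mu (∑ i, eqB2st f (Ds i))) := by
    intro k
    rw [← (Fin.insertNthEquiv (fun _ => DG) k).tsum_eq, ENNReal.tsum_prod', ENNReal.tsum_comm]
    refine tsum_congr fun Ds => ?_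
    have h4 := eqB2_edge wv f fun p => ψ (eqB2sz lam mu (p + ∑ i, eqB2st f (Ds i)))
    have h5 : eqB2sz lam mu ((1, 0, 0) + ∑ i, eqB2st f (Ds i)) =
        (0, lam) + eqB2sz lam mu (∑ i, eqB2st f (Ds i)) := by
      refine Prod.ext (by simp [eqB2sz]) ?_
      simp only [eqB2sz, Prod.fst_add, Prod.snd_add]
      push_cast
      ring
    rw [← h5, ← h4, ← ENNReal.tsum_mul_left]
    refine tsum_congr fun D => ?_
    rw [Fin.sum_univ_succAbove _ k]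
    simp only [Fin.insertNthEquiv_apply, Fin.insertNth_apply_same, Fin.insertNth_apply_succAbove]
    ring
  simp only [h1, Finset.sum_mul]
  rw [Summable.tsum_finsetSum (fun _ _ => ENNReal.summable)]
  simp only [h3]
  rw [Finset.sum_const, Finset.card_univ, Fintype.card_fin, nsmul_eq_mul, ← mul_assoc]
  congr 1
  rw [Nat.factorial_succ (j + 1), Nat.cast_mul,
    ENNReal.mul_inv (Or.inr (ENNReal.natCast_ne_top _)) (Or.inl (ENNReal.natCast_ne_top _)),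
    mul_right_comm, ENNReal.inv_mul_cancel (by simp) (ENNReal.natCast_ne_top _), one_mul]

end Pool.Agent.Lib.MP_77dff5_pr
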