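import Pool.Agent.Lib.MP_77dff5_pr.RootA
import Pool.Agent.Lib.MP_77dff5_pr.PermD

/-! The component of the root, and the passage to labelled simple graphs. -/

set_option autoImplicit false

namespace Pool.Agent.Lib.MP_77dff5_pr

open scoped ENNReal Classical

section
variable {E E' V : Type}

theorem topB_flp_flp (x : E × Bool) : flp E (flp E x) = x := by
  obtain ⟨a, b⟩ := x
  cases b <;> rfl

theorem topB_card_DIso [Finite E] : Nat.card (DIso E E') = Nat.card (E ≃ E') * 2 ^ Nat.card E := by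
  have h : Nat.card ((E ≃ E') × (E → Bool)) = Nat.card (E ≃ E') * 2 ^ Nat.card E := by
    rw [Nat.card_prod, Nat.card_fun, Nat.card_eq_fintype_card (α := Bool), Fintype.card_bool]
  rw [← h]
  refine Nat.card_eq_of_bijective (fun u => (u.edge, fun a => (u.1 (a, true)).2)) ⟨?_, ?_⟩
  · intro u v huv
    have h1 : ∀ a, u.1 (a, true) = v.1 (a, true) := fun a =>
      Prod.ext (congrArg (fun p : (E ≃ E') × (E → Bool) => p.1 a) huv)
        (congrArg (fun p : (E ≃ E') × (E → Bool) => p.2 a) huv)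
    refine Subtype.ext (Equiv.ext ?_)
    rintro ⟨a, _ | _⟩
    · exact (u.2 (a, true)).trans ((congrArg _ (h1 a)).trans (v.2 (a, true)).symm)
    · exact h1 a
  · rintro ⟨ε, o⟩
    refine ⟨⟨Equiv.prodShear ε fun a => if o a then Equiv.refl _ else Equiv.boolNot, ?_⟩, ?_⟩
    · rintro ⟨a, b⟩
      refine Prod.ext rfl ?_
      change (if o a then Equiv.refl _ else Equiv.boolNot) (!b) =
        !(if o a then Equiv.refl _ else Equiv.boolNot) b
      split_ifs <;> rfl
    · refine Prod.ext (Equiv.ext fun _ => rfl) (funext fun a => ?_)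
      change (if o a then Equiv.refl _ else Equiv.boolNot) true = o a
      cases o a <;> rfl

/-- `ν` is a labelling of the darts of `G`. -/
def TopBRep (ν : E × Bool → V) (G : SimpleGraph V) : Prop :=
  Simple ν ∧ ∀ u v, G.Adj u v ↔ ∃ x, ν x = u ∧ ν (flp E x) = v

variable {ν : E × Bool → V} {G : SimpleGraph V}

theorem topB_exists (h : Simple ν) : ∃ G, TopBRep ν G :=
  ⟨{ Adj := fun u v => ∃ x, ν x = u ∧ ν (flp E x) = v
     symm := ⟨by
       rintro _ _ ⟨x, rfl, rfl⟩
       exact ⟨flp E x, rfl, by rw [topB_flp_flp]⟩⟩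
     loopless := ⟨by
       rintro _ ⟨x, rfl, e⟩
       exact h.1 x e⟩ }, h, fun _ _ => Iff.rfl⟩

theorem TopBRep.unique {G' : SimpleGraph V} (h : TopBRep ν G) (h' : TopBRep ν G') : G = G' := by
  ext u v
  rw [h.2, h'.2]

/-- the darts of the graph -/
noncomputable def TopBRep.dart (h : TopBRep ν G) : E × Bool ≃ G.Dart :=
  Equiv.ofBijective (fun x => ⟨(ν x, ν (flp E x)), (h.2 _ _).2 ⟨x, rfl, rfl⟩⟩)
    ⟨fun x y e => h.1.2 x y (congrArg (fun d : G.Dart => d.fst) e)
      (congrArg (fun d : G.Dart => d.snd) e), fun d => by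
      obtain ⟨x, h1, h2⟩ := (h.2 _ _).1 d.adj
      exact ⟨x, SimpleGraph.Dart.ext _ _ (Prod.ext h1 h2)⟩⟩

theorem TopBRep.dart_flp (h : TopBRep ν G) (x : E × Bool) :
    h.dart (flp E x) = (h.dart x).symm :=
  SimpleGraph.Dart.ext _ _ (Prod.ext rfl (congrArg ν (topB_flp_flp x)))

theorem topB_rep_of (u : E × Bool ≃ G.Dart) (hu : ∀ x, u (flp E x) = (u x).symm) :
    TopBRep (fun x => (u x).fst) G := by
  refine ⟨⟨fun x => ?_, fun x y h1 h2 => ?_⟩, fun a b => ⟨fun h => ?_, ?_⟩⟩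
  · simp [hu]
  · simp only [hu] at h2
    exact u.injective (SimpleGraph.Dart.ext _ _ (Prod.ext h1 h2))
  · exact ⟨u.symm ⟨(a, b), h⟩, by simp, by simp [hu]⟩
  · rintro ⟨x, rfl, rfl⟩
    simp only [hu]
    exact (u x).adj

theorem topB_orient (G : SimpleGraph V) :
    ∃ u : G.edgeSet × Bool ≃ G.Dart, ∀ x, u (flp _ x) = (u x).symm := by
  have h : ∀ e : G.edgeSet, ∃ d : G.Dart, d.edge = e := by
    rintro ⟨e, he⟩
    induction e using Sym2.ind with
    | h a b => exact ⟨⟨(a, b), he⟩, rfl⟩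
  choose d hd using h
  have hD : ∀ x : G.edgeSet × Bool, (if x.2 then d x.1 else (d x.1).symm).edge = x.1 := by
    intro x
    split_ifs
    · exact hd _
    · rw [SimpleGraph.Dart.edge_symm, hd]
  refine ⟨Equiv.ofBijective (fun x => if x.2 then d x.1 else (d x.1).symm) ⟨?_, fun a => ?_⟩, ?_⟩
  · rintro ⟨a, b⟩ ⟨a', b'⟩ e
    obtain rfl : a = a' := Subtype.ext ((hD (a, b)).symm.trans
      ((congrArg SimpleGraph.Dart.edge e).trans (hD (a', b'))))
    cases b <;> cases b'
    · rfl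
    · exact absurd e (d a).symm_ne
    · exact absurd e (d a).symm_ne.symm
    · rfl
  · rcases (SimpleGraph.dart_edge_eq_iff _ _).1 (hd ⟨a.edge, a.edge_mem⟩).symm with e | e
    · exact ⟨(_, true), e.symm⟩
    · exact ⟨(_, false), e.symm⟩
  · rintro ⟨a, _ | _⟩
    · exact (d a).symm_symm.symm
    · rfl

theorem topB_card_rep (E : Type) (G : SimpleGraph V) :
    Nat.card {ν : E × Bool → V // TopBRep ν G} = Nat.card (DIso E G.edgeSet) := by
  obtain ⟨w, hw⟩ := topB_orient G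
  refine (Nat.card_eq_of_bijective (fun u : DIso E G.edgeSet =>
    (⟨_, topB_rep_of (u.1.trans w) fun x => by rw [Equiv.trans_apply, u.2, hw]; rfl⟩ :
      {ν : E × Bool → V // TopBRep ν G})) ⟨fun u v e => ?_, fun ν => ?_⟩).symm
  · have h1 : ∀ x, (w (u.1 x)).fst = (w (v.1 x)).fst := congrFun (congrArg Subtype.val e)
    refine Subtype.ext (Equiv.ext fun x => w.injective ?_)
    have h2 := h1 (flp E x)
    rw [u.2, v.2, hw, hw] at h2
    exact SimpleGraph.Dart.ext _ _ (Prod.ext (h1 x) h2)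
  · refine ⟨⟨ν.2.dart.trans w.symm, fun x => w.injective ?_⟩, Subtype.ext (funext fun x => ?_)⟩
    · simp [hw, ν.2.dart_flp]
    · simp only [Equiv.trans_apply, Equiv.apply_symm_apply]
      rfl

theorem TopBRep.card (h : TopBRep ν G) : G.edgeSet.ncard = Nat.card E := by
  obtain ⟨w, hw⟩ := topB_orient G
  exact (Nat.card_congr (DIso.edge ⟨h.dart.trans w.symm, fun x =>
    w.injective (by simp [hw, h.dart_flp])⟩)).symm

theorem TopBRep.deg (h : TopBRep ν G) (v : V) : (G.neighborSet v).ncard = deg ν v := by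
  refine (Nat.card_eq_of_bijective (fun x : {x // ν x = v} =>
    (⟨ν (flp E x.1), (h.2 _ _).2 ⟨x.1, x.2, rfl⟩⟩ : G.neighborSet v)) ⟨fun x y e => ?_, ?_⟩).symm
  · exact Subtype.ext (h.1.2 _ _ (x.2.trans y.2.symm) (congrArg Subtype.val e))
  · rintro ⟨w, hw⟩
    obtain ⟨x, h1, h2⟩ := (h.2 _ _).1 hw
    exact ⟨⟨x, h1⟩, Subtype.ext h2⟩

theorem TopBRep.comps (h : TopBRep ν G) : Nat.card G.ConnectedComponent = comps ν := by
  refine (Nat.card_eq_of_bijective
    (Quot.map id fun u v huv => ((h.2 u v).2 huv).reachable) ⟨?_, ?_⟩).symm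
  · rintro ⟨u⟩ ⟨v⟩ e
    obtain ⟨p⟩ : G.Reachable u v := SimpleGraph.ConnectedComponent.exact e
    clear e
    induction p with
    | nil => rfl
    | cons h1 _ ih => exact (Quot.sound ((h.2 _ _).1 h1)).trans ih
  · rintro ⟨u⟩
    exact ⟨Quot.mk _ u, rfl⟩

theorem TopBRep.planar [Finite E] (h : TopBRep ν G) : IsPlanar G ↔ PlanarU ν := by
  have := Finite.of_equiv _ h.dart
  have e1 : {v | ∀ w, ¬G.Adj v w} = (Set.range ν)ᶜ := by
    ext v
    exact ⟨fun hv ⟨x, hx⟩ => hv _ ((h.2 _ _).2 ⟨x, hx, rfl⟩),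
      fun hv w hw => ((h.2 _ _).1 hw).elim fun x hx => hv ⟨x, hx.1⟩⟩
  have e2 : ∀ σ, h.dart.permCongr σ * rev G = h.dart.permCongr (σ * flp E) := by
    intro σ
    refine Equiv.ext fun d => ?_
    obtain ⟨x, rfl⟩ := h.dart.surjective d
    have : rev G (h.dart x) = h.dart (flp E x) := (h.dart_flp x).symm
    simp [this]
  unfold IsPlanar PlanarU
  rw [h.dart.permCongr.surjective.exists, e1, h.card, h.comps]
  refine exists_congr fun σ => ?_
  rw [e2, ncyc_permCongr, h.dart.surjective.forall₂]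
  refine and_congr_left' (forall₂_congr fun x y => ?_)
  exact iff_congr (permD_same h.dart.toEmbedding (by simp) x y).symm Iff.rfl

end

theorem topB_sum_ind {A : Type} [Fintype A] (p : A → Prop) :
    ∑ a, ind (p a) = Nat.card {a // p a} := by
  simp [ind, Nat.card_eq_fintype_card, Fintype.card_subtype]

theorem topB_one {V : Type} [Fintype V] (G : SimpleGraph V) :
    ∑' m : ℕ, ∑ ν : Fin m × Bool → V,
      ((m.factorial * 2 ^ m : ℕ) : ℝ≥0∞)⁻¹ * ind (TopBRep ν G) = 1 := by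
  simp only [← Finset.mul_sum, topB_sum_ind, topB_card_rep, topB_card_DIso]
  rw [tsum_eq_single (Nat.card G.edgeSet)]
  · rw [Nat.card_congr (Equiv.equivCongr (Equiv.refl _) (Finite.equivFin G.edgeSet)),
      show Nat.card (Fin (Nat.card G.edgeSet) ≃ Fin (Nat.card G.edgeSet)) = _ from Nat.card_perm,
      Nat.card_fin]
    exact ENNReal.inv_mul_cancel (by positivity) (ENNReal.natCast_ne_top _)
  · intro m hm
    have : IsEmpty (Fin m ≃ G.edgeSet) := ⟨fun e => hm (by rw [← Nat.card_congr e, Nat.card_fin])⟩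
    simp

theorem planar_graph_sum (n : ℕ) (ψ : (Fin n → ℕ) → ℝ≥0∞) :
    ∑' G : PlanarGraph n, ψ (fun v => (G.1.neighborSet v).ncard) =
      ∑' m : ℕ, ∑ ν : Fin m × Bool → Fin n,
        ((m.factorial * 2 ^ m : ℕ) : ℝ≥0∞)⁻¹ * ind (Simple ν ∧ PlanarU ν) * ψ (deg ν) := by
  have key : ∀ (m : ℕ) (ν : Fin m × Bool → Fin n), ind (Simple ν ∧ PlanarU ν) * ψ (deg ν) =
      ∑' G : PlanarGraph n, ind (TopBRep ν G.1) * ψ fun v => (G.1.neighborSet v).ncard := by
    intro m ν
    by_cases h : Simple ν ∧ PlanarU ν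
    · obtain ⟨G, hG⟩ := topB_exists h.1
      rw [tsum_eq_single (⟨G, hG.planar.2 h.2⟩ : PlanarGraph n)]
      · simp only [ind, h, hG, and_self, if_true, hG.deg]
      · intro G' h'
        rw [ind, if_neg fun h'' => h' (Subtype.ext (h''.unique hG)), zero_mul]
    · rw [ind, if_neg h, zero_mul, eq_comm, ENNReal.tsum_eq_zero]
      intro G
      rw [ind, if_neg fun h' => h ⟨h'.1, h'.planar.1 G.2⟩, zero_mul]
  simp only [mul_assoc, key, ← ENNReal.tsum_mul_left]
  simp only [← Summable.tsum_finsetSum fun _ _ => ENNReal.summable]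
  rw [ENNReal.tsum_comm]
  refine tsum_congr fun G => ?_
  simp only [← mul_assoc, ← Finset.sum_mul]
  rw [ENNReal.tsum_mul_right, topB_one, one_mul]

end Pool.Agent.Lib.MP_77dff5_pr
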