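import Pool.Agent.Lib.MP_77dff5_pr.EqOm
import Pool.Agent.Lib.MP_77dff5_pr.Top
import Pool.Agent.Lib.MP_77dff5_pr.MDefsEq

/-! Equations of model B: all graphs, unrooting, labelled planar graphs. -/

set_option autoImplicit false

namespace Pool.Agent.Lib.MP_77dff5_pr

open scoped ENNReal NNReal Classical

/-- natural number indicator -/
noncomputable def eqG_i (p : Prop) : ℕ := if p then 1 else 0

theorem eqG_i_false : eqG_i False = 0 := if_neg id

theorem eqG_deg_eq {D V : Type} [Fintype D] (ν : D → V) (v : V) :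
    deg ν v = ∑ x, eqG_i (ν x = v) := by
  rw [deg, Nat.card_eq_fintype_card, Fintype.card_subtype, Finset.card_filter]
  rfl

section union
variable {E V E₂ V₂ : Type} [Fintype E] [Fintype E₂] (R : E × Bool → Option V)
  (ν : E₂ × Bool → V₂)

theorem eqG_deg_none : deg (union R ν) none = deg R none := by
  simp [eqG_deg_eq, Fintype.sum_prod_type, Fintype.sum_sum_type, union, eqG_i_false]

theorem eqG_deg_inl (v : V) : deg (union R ν) (some (Sum.inl v)) = deg R (some v) := by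
  simp [eqG_deg_eq, Fintype.sum_prod_type, Fintype.sum_sum_type, union, eqG_i_false]

theorem eqG_deg_inr (v : V₂) : deg (union R ν) (some (Sum.inr v)) = deg ν v := by
  simp [eqG_deg_eq, Fintype.sum_prod_type, Fintype.sum_sum_type, union, eqG_i_false]

end union

theorem eqG_ind_and (p q : Prop) : ind (p ∧ q) = ind p * ind q := by
  unfold ind
  by_cases hp : p <;> by_cases hq : q <;> simp [hp, hq]

theorem eqG_stat {E V E' V' : Type} [Fintype V] [Fintype V'] (f : ℕ → ℝ) (u : DIso E E')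
    (e : V ≃ V') {ν : E × Bool → V} {ν' : E' × Bool → V'} [Finite E]
    (h : ∀ x, ν' (u.1 x) = e (ν x)) : ∑ v, f (deg ν' v) = ∑ v, f (deg ν v) := by
  rw [← e.sum_comp]
  simp only [deg_congr u e h]

variable (wv : RG → ℝ≥0∞) (x : ℝ≥0∞) (f : ℕ → ℝ) (k0 : ℕ) (lam mu : ℝ)

theorem eqnB_G : (ufB f k0 lam .G).Eqn (lhsB (wC x) x .G) (wgB (wC x) x) sB (zz sB f lam mu) := by
  intro ψ
  obtain ⟨Θ, hΘ⟩ : ∃ Θ : VFun, Θ = fun (E V : Type) [Fintype E] [Fintype V] ν _ =>
      ind (Simple ν ∧ PlanarU ν) *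
      x ^ Nat.card V * ψ (Nat.card V, ∑ v, f (deg ν v) + lam * Nat.card E - mu * Nat.card V) :=
    ⟨_, rfl⟩
  have hinv : VInv Θ := by
    intro E V E' V' _ _ _ _ u e N N' v h
    simp only [hΘ, simple_congr u e h, planarU_congr u e h, eqG_stat f u e h,
      Nat.card_congr e.symm, Nat.card_congr u.edge.symm]
  have hinv' : RInv fun E V _ _ R => Θ E (Option V) R none := by
    intro E V E' V' _ _ _ _ u e N N' h
    exact hinv E (Option V) E' (Option V') u e.optionCongr N N' none h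
  have h1 := mark_vertex Θ hinv
  rw [comp_sum _ hinv'] at h1
  have h2 : ∑' ω, lhsB (wC x) x .G ω * ψ (sB ω, zz sB f lam mu ω) =
      ∑' ν : UG, wt ν.1 ν.2.1 * ∑ v, Θ _ _ ν.2.2 v := by
    rw [lhsB, tsum_onU]
    refine tsum_congr fun ν => ?_
    simp only [hΘ, Finset.sum_const, Finset.card_univ, Fintype.card_fin, nsmul_eq_mul, wG, zz, sB,
      nv, ne, FO, Nat.card_eq_fintype_card]
    ring
  rw [h2, h1]
  show _ = ∑' _ : Unit, 1 * ∑' ω : Fin 2 → Om, (∏ i, wgB (wC x) x (![JB.C, JB.G] i) (ω i)) *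
    ψ (0 + ∑ i, sB (ω i), 0 + ∑ i, zz sB f lam mu (ω i) + ∑ _ : Unit, f (cO (ω 0)))
  rw [tsum_fintype (β := Unit), Fintype.sum_unique, one_mul,
    tsum_fin_two fun i => wgB (wC x) x (![JB.C, JB.G] i)]
  simp only [Matrix.cons_val_zero, Matrix.cons_val_one, wgB, tsum_onR, tsum_onU]
  refine tsum_congr fun R => ?_
  rw [← ENNReal.tsum_mul_left]
  refine tsum_congr fun ν => ?_
  by_cases hc : RConn R.2.2
  · simp only [hΘ, simple_union, planarU_union hc, eqG_ind_and, wC, wG, Fintype.sum_option,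
      Fintype.sum_sum_type, eqG_deg_none, eqG_deg_inl, eqG_deg_inr, Nat.card_eq_fintype_card,
      Fintype.card_option, Fintype.card_sum, Fintype.card_fin, Fin.sum_univ_two, zero_add,
      Matrix.cons_val_zero, Matrix.cons_val_one, Fintype.sum_unique, zz, sB, nv, ne, FO, cO, rF, rc]
    have e1 : R.2.1 + ν.2.1 + 1 = R.2.1 + 1 + ν.2.1 := by ring
    have e2 : f (deg R.2.2 none) + (∑ v, f (deg R.2.2 (some v)) + ∑ v, f (deg ν.2.2 v)) +
        lam * ((R.1 + ν.1 : ℕ) : ℝ) - mu * ((R.2.1 + 1 + ν.2.1 : ℕ) : ℝ) =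
        ∑ v, f (deg R.2.2 (some v)) + lam * R.1 - mu * ((R.2.1 + 1 : ℕ) : ℝ) +
          (∑ v, f (deg ν.2.2 v) + lam * ν.1 - mu * ν.2.1) + f (deg R.2.2 none) := by
      push_cast
      ring
    rw [e1, e2]
    ring
  · simp [wC, ind, hc]

/-- a rooted connected graph is trivial, or a connected graph with a marked vertex -/
theorem unroot_C (ψ : ℕ × ℕ × ℝ → ℝ≥0∞) :
    ∑' R, wC x R * ψ (R.1, R.2.1 + 1, rF f R + f (rc R)) =
      x * ψ (0, 1, f 0) + ∑' ν, wU x ν * ν.2.1 * ψ (ν.1, ν.2.1, FO f (.inr (.inr ν))) := by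
  obtain ⟨Θ, hΘ⟩ : ∃ Θ : VFun, Θ = fun (E V : Type) [Fintype E] [Fintype V] ν _ =>
      ind (SConn ν ∧ Simple ν ∧ emb ν (flp E) ≠ 0) *
        x ^ Nat.card V * ψ (Nat.card E, Nat.card V, ∑ v, f (deg ν v)) := ⟨_, rfl⟩
  have hinv : VInv Θ := by
    intro E V E' V' _ _ _ _ u e N N' v h
    simp only [hΘ, simple_congr u e h, sconn_congr u e h, emb_flp_congr u e h, eqG_stat f u e h,
      Nat.card_congr e.symm, Nat.card_congr u.edge.symm]
  have h1 := mark_vertex Θ hinv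
  have h2 : ∑' ν : UG, wU x ν * ν.2.1 * ψ (ν.1, ν.2.1, FO f (.inr (.inr ν))) =
      ∑' ν : UG, wt ν.1 ν.2.1 * ∑ v, Θ _ _ ν.2.2 v := by
    refine tsum_congr fun ν => ?_
    simp only [hΘ, Finset.sum_const, Finset.card_univ, Fintype.card_fin, nsmul_eq_mul, wU, FO,
      Nat.card_eq_fintype_card]
    ring
  have h0 : x * ψ (0, 1, f 0) = ∑' R : RG, if R = triv then x * ψ (0, 1, f 0) else 0 := by
    rw [tsum_ite_eq]
  rw [h2, h1, h0, ← ENNReal.tsum_add]
  refine tsum_congr fun R => ?_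
  rcases Nat.eq_zero_or_pos (deg R.2.2 none) with hd | hd
  · have hs : ¬SConn R.2.2 := by
      intro h
      obtain ⟨y, hy⟩ := h.1 none
      have : Nonempty {y // R.2.2 y = none} := ⟨⟨y, hy⟩⟩
      exact Nat.card_pos.ne' hd
    have h3 : Θ _ _ R.2.2 none = 0 := by simp [hΘ, ind, hs]
    rw [h3, mul_zero, add_zero]
    by_cases hc : RConn R.2.2
    · obtain rfl := eq_triv hc hd
      rw [if_pos rfl, rF_triv, rc_triv, zero_add, wC, ind,
        if_pos ⟨rconn_triv.1, rconn_triv.2.2, by rw [rconn_triv.2.1]; exact one_ne_zero⟩]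
      simp [triv, wt]
    · have hne : R ≠ triv := by
        rintro rfl
        exact hc rconn_triv.1
      simp [hne, wC, ind, hc]
  · have hne : R ≠ triv := by
      rintro rfl
      exact hd.ne' rc_triv
    rw [if_neg hne, zero_add, wC, rconn_iff hd, embS_eq hd]
    simp only [hΘ, ne_eq, mul_eq_zero, hd.ne', false_or, Nat.card_eq_fintype_card,
      Fintype.card_option, Fintype.card_fin, Fintype.sum_option, rF, rc, add_comm (f _)]
    ring

theorem wU_supp {ν : UG} (h : wU x ν ≠ 0) : 2 ≤ ν.2.1 ∧ ν.2.1 ≤ ν.1 + 1 ∧ ν.1 ≤ 3 * ν.2.1 := by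
  have h1 : SConn ν.2.2 ∧ Simple ν.2.2 ∧ emb ν.2.2 (flp _) ≠ 0 := by
    by_contra hn
    exact h (by rw [wU, ind, if_neg hn, mul_zero, zero_mul])
  obtain ⟨hc, hs, hp⟩ := h1
  have h2 := hc.card_le
  have h3 := card_le_three_mul hc hs hp
  simp only [Nat.card_eq_fintype_card, Fintype.card_fin] at h2 h3
  refine ⟨?_, h2, h3⟩
  have h4 : Nonempty (Fin ν.1 × Bool) := by
    by_contra hn
    rw [not_nonempty_iff] at hn
    obtain ⟨⟨σ, -, hσ⟩⟩ := (Nat.card_ne_zero.1 hp).1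
    have h0 : ∀ π : Equiv.Perm (Fin ν.1 × Bool), ncyc π = 0 := fun π =>
      Nat.card_eq_zero.2 (Or.inl ⟨fun q => Quotient.inductionOn q fun y => hn.elim y⟩)
    rw [Gen0, h0, h0, h0] at hσ
    omega
  obtain ⟨y⟩ := h4
  have h5 : Nontrivial (Fin ν.2.1) := ⟨_, _, hs.1 y⟩
  have h6 := Fintype.one_lt_card (α := Fin ν.2.1)
  rwa [Fintype.card_fin] at h6

/-- the weights of graphs with `n` vertices are uniform on labelled planar graphs -/
theorem graph_sum (n k : ℕ) (ψ : ℝ → ℝ≥0∞) :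
    ∑' ν, wG x ν * ind (ν.2.1 = n) * ψ (FO (fun d => if d = k then 1 else 0) (.inr (.inr ν))) =
      x ^ n * ((n.factorial : ℕ) : ℝ≥0∞)⁻¹ * ∑' G : PlanarGraph n, ψ (degCount k G) := by
  have h1 : ∀ G : PlanarGraph n, degCount k G =
      ∑ v, if (G.1.neighborSet v).ncard = k then (1 : ℝ) else 0 := by
    intro G
    rw [degCount, Finset.sum_boole, ← Set.ncard_coe_finset]
    simp
  simp only [h1]
  rw [planar_graph_sum n fun d => ψ (∑ v, if d v = k then 1 else 0), ENNReal.tsum_sigma',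
    ← ENNReal.tsum_mul_left]
  refine tsum_congr fun m => ?_
  rw [ENNReal.tsum_sigma', tsum_eq_single n, tsum_fintype, Finset.mul_sum]
  · refine Finset.sum_congr rfl fun ν _ => ?_
    have h2 : ((m.factorial * 2 ^ m : ℕ) : ℝ≥0∞)⁻¹ = ((m.factorial : ℕ) : ℝ≥0∞)⁻¹ * 2⁻¹ ^ m := by
      rw [Nat.cast_mul,
        ENNReal.mul_inv (Or.inr (ENNReal.natCast_ne_top _)) (Or.inl (ENNReal.natCast_ne_top _)),
        Nat.cast_pow, Nat.cast_ofNat, ENNReal.inv_pow]
    simp only [wG, FO, labelA_wt, h2]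
    rw [show ind True = 1 from if_pos trivial]
    ring
  · intro n' hn
    simp [ind, hn]

end Pool.Agent.Lib.MP_77dff5_pr
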