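import Pool.Agent.Lib.MP_77dff5_pr.Dec
import Pool.Agent.Lib.MP_77dff5_pr.EqOm
import Pool.Agent.Lib.MP_77dff5_pr.Emb
import Pool.Agent.Lib.MP_77dff5_pr.Block
import Pool.Agent.Lib.MP_77dff5_pr.Root
import Pool.Agent.Lib.MP_77dff5_pr.MDefsEq

/-! Equations of model B: connected graphs rooted at a dart. -/

set_option autoImplicit false

namespace Pool.Agent.Lib.MP_77dff5_pr

open scoped ENNReal NNReal Classical

section degs
variable {E₀ V₀ : Type} {E V : Bool ⊕ V₀ → Type} [Fintype E₀] [Fintype V₀] [∀ i, Fintype (E i)]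
  (N : E₀ × Bool → Bool ⊕ V₀) (R : ∀ i, E i × Bool → Option (V i))

theorem eqR_deg_sum (u : Bool ⊕ (V₀ ⊕ Σ i, V i)) :
    deg (attach N id R) u = (∑ x, rootD_i ((N x).map id Sum.inl = u)) +
      ∑ i, ∑ x, rootD_i (blockVg V i (R i x) = u) := by
  rw [rootD_deg_eq, Fintype.sum_prod_type, Fintype.sum_sum_type, Fintype.sum_sigma,
    Fintype.sum_prod_type]
  congr 1
  refine Finset.sum_congr rfl fun i _ => ?_
  rw [Fintype.sum_prod_type]
  rfl

theorem eqR_deg_core (u : Bool ⊕ V₀) :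
    deg (attach N id R) (u.map id Sum.inl) = deg N u + deg (R u) none := by
  rw [eqR_deg_sum, rootD_deg_eq, rootD_deg_eq]
  congr 1
  · refine Finset.sum_congr rfl fun x _ => congrArg _ (propext ?_)
    exact blockV_inl_inj.eq_iff
  · rw [Finset.sum_eq_single u]
    · refine Finset.sum_congr rfl fun x _ => congrArg _ (propext ⟨fun h => ?_, fun h => ?_⟩)
      · exact blockV_g_none h.symm
      · rw [h]; rfl
    · intro i _ hi
      refine Finset.sum_eq_zero fun x _ => if_neg fun h => hi ?_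
      exact blockV_g_idx (o' := none) h
    · simp

theorem eqR_deg_inner (v : Σ i, V i) :
    deg (attach N id R) (Sum.inr (Sum.inr v)) = deg (R v.1) (some v.2) := by
  rw [eqR_deg_sum, rootD_deg_eq]
  have h0 : ∑ x, rootD_i (((N x).map id Sum.inl : Bool ⊕ (V₀ ⊕ Σ i, V i)) =
      Sum.inr (Sum.inr v)) = 0 :=
    Finset.sum_eq_zero fun x _ => if_neg (blockV_inl_ne _ _)
  rw [h0, zero_add, Finset.sum_eq_single v.1]
  · refine Finset.sum_congr rfl fun x _ => congrArg _ (propext ⟨fun h => ?_, fun h => ?_⟩)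
    · exact blockV_g_inj (o' := some v.2) h
    · rw [h]; rfl
  · intro i _ hi
    refine Finset.sum_eq_zero fun x _ => if_neg fun h => hi ?_
    exact blockV_g_idx (o' := some v.2) h
  · simp

theorem eqR_sum_deg [∀ i, Fintype (V i)] (f : ℕ → ℝ) :
    ∑ u, f (deg (clo (attach N id R)) u) =
      ∑ u, f (deg (clo N) u + deg (R u) none) + ∑ u, ∑ v, f (deg (R u) (some v)) := by
  rw [Fintype.sum_sum_type, Fintype.sum_sum_type, Fintype.sum_sigma,
    Fintype.sum_sum_type (f := fun u => f (deg (clo N) u + deg (R u) none)), add_assoc]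
  congr 1
  · refine Finset.sum_congr rfl fun b _ => ?_
    rw [rootD_deg_clo_inl, rootD_deg_clo_inl]
    have := eqR_deg_core N R (Sum.inl b)
    rw [Sum.map_inl, id] at this
    rw [this]
    congr 1
    omega
  congr 1
  · refine Finset.sum_congr rfl fun v _ => ?_
    rw [rootD_deg_clo_inr, rootD_deg_clo_inr]
    exact congrArg f (eqR_deg_core N R (Sum.inr v))
  · refine Finset.sum_congr rfl fun i _ => Finset.sum_congr rfl fun v _ => ?_
    rw [rootD_deg_clo_inr, eqR_deg_inner]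

end degs

/-- the functional of a connected graph -/
noncomputable def eqRTh (f : ℕ → ℝ) (ψ : ℕ × ℕ × ℝ → ℝ≥0∞) (E V : Type) [Fintype E] [Fintype V]
    (ν : E × Bool → V) : ℝ≥0∞ :=
  ind (Simple ν ∧ emb ν (flp _) ≠ 0) * ψ (Fintype.card E, Fintype.card V, ∑ v, f (deg ν v))

theorem eqRTh_congr (f : ℕ → ℝ) (ψ : ℕ × ℕ × ℝ → ℝ≥0∞) {E V E' V' : Type} [Fintype E] [Fintype V]
    [Fintype E'] [Fintype V'] (u : DIso E E') (e : V ≃ V') {ν : E × Bool → V}
    {ν' : E' × Bool → V'} (h : ∀ x, ν' (u.1 x) = e (ν x)) :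
    eqRTh f ψ E' V' ν' = eqRTh f ψ E V ν := by
  rw [eqRTh, eqRTh, simple_congr u e h, emb_flp_congr u e h, Fintype.card_congr u.edge,
    Fintype.card_congr e, ← e.sum_comp]
  simp only [deg_congr u e h]

theorem eqR_mark (f : ℕ → ℝ) (ψ : ℕ × ℕ × ℝ → ℝ≥0∞) :
    ∑' ν : UG, wt ν.1 ν.2.1 * ((2 * ν.1 : ℕ) * (ind (SConn ν.2.2) * eqRTh f ψ _ _ ν.2.2)) =
      ∑' N : NG, wt N.1 N.2.1 * ind (IsBlock N.2.2) * ∑' R : Bool ⊕ Fin N.2.1 → RG,
        (∏ i, wt (R i).1 (R i).2.1 * ind (RConn (R i).2.2)) *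
          eqRTh f ψ _ _ (clo (attach N.2.2 id fun i => (R i).2.2)) := by
  have h1 := mark_dart (fun E V _ _ ν _ => ind (SConn ν) * eqRTh f ψ E V ν)
    (fun E V E' V' _ _ _ _ u e ν ν' _ h => by
      show ind (SConn ν') * eqRTh f ψ E' V' ν' = ind (SConn ν) * eqRTh f ψ E V ν
      rw [sconn_congr u e h, eqRTh_congr f ψ u e h])
  have h2 := block_V (fun E V _ _ N => eqRTh f ψ _ _ (clo N))
    (fun E V E' V' _ _ _ _ u e N N' h => eqRTh_congr f ψ u.opt _ (netB_clo u e h))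
  have h3 : ∑' R : RG, wt R.1 R.2.1 * (ind (SConn (cloL R.2.2)) * eqRTh f ψ _ _ (cloL R.2.2)) =
      0 := by
    refine ENNReal.tsum_eq_zero.2 fun R => ?_
    rw [eqRTh, blockV_ind_neg (p := Simple (cloL R.2.2) ∧ _) fun h => h.1.1 (none, true) rfl]
    simp
  rw [h3, add_zero] at h1
  rw [← h2]
  simp only [mul_assoc]
  rw [← h1]
  refine tsum_congr fun ν => ?_
  rw [Finset.sum_const, nsmul_eq_mul, Finset.card_univ, Fintype.card_prod, Fintype.card_fin,
    Fintype.card_bool, mul_comm ν.1 2]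

theorem eqR_ind_prod {I : Type} [Fintype I] (p : I → Prop) :
    ∏ i, ind (p i) = ind (∀ i, p i) := by
  have := blockV_ind_and True True p
  simpa [blockV_ind_pos trivial] using this

theorem eqR_ind_and (p q : Prop) : ind (p ∧ q) = ind p * ind q := by
  by_cases hp : p <;> by_cases hq : q <;> simp [ind, hp, hq]

/-- the statistic of a block with rooted graphs attached at its vertices -/
noncomputable def eqRSt (f : ℕ → ℝ) (lam mu : ℝ) (N : NG) (R : Bool ⊕ Fin N.2.1 → RG) : ℕ × ℝ :=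
  (∑ i, ((R i).2.1 + 1), ∑ i, f (deg (clo N.2.2) i + rc (R i)) + ∑ i, rF f (R i) +
    lam * ((N.1 + ∑ i, (R i).1 + 1 : ℕ) : ℝ) - mu * ((∑ i, ((R i).2.1 + 1) : ℕ) : ℝ))

theorem eqR_term (x : ℝ≥0∞) (f : ℕ → ℝ) (lam mu : ℝ) (ψ : ℕ × ℝ → ℝ≥0∞) (N : NG)
    (hN : IsBlock N.2.2) (R : Bool ⊕ Fin N.2.1 → RG) :
    (∏ i, wt (R i).1 (R i).2.1 * ind (RConn (R i).2.2)) *
        eqRTh f (fun p => x ^ p.2.1 * ψ (p.2.1, p.2.2 + lam * p.1 - mu * p.2.1)) _ _
          (clo (attach N.2.2 id fun i => (R i).2.2)) =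
      ind (Simple (clo N.2.2) ∧ emb (clo N.2.2) (flp _) ≠ 0) *
        ((∏ i, wC x (R i)) * ψ (eqRSt f lam mu N R)) := by
  by_cases hR : ∀ i, RConn (R i).2.2
  swap
  · obtain ⟨i, hi⟩ := not_forall.1 hR
    rw [Finset.prod_eq_zero (Finset.mem_univ i), Finset.prod_eq_zero (Finset.mem_univ i)]
    · simp
    · rw [wC, blockV_ind_neg fun h => hi h.1]; simp
    · rw [blockV_ind_neg hi, mul_zero]
  have hV : Fintype.card (Bool ⊕ (Fin N.2.1 ⊕ Σ i, Fin (R i).2.1)) = ∑ i, ((R i).2.1 + 1) := by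
    simp only [Fintype.card_sum, Fintype.card_sigma, Fintype.card_fin, Finset.sum_add_distrib,
      Finset.sum_const, Finset.card_univ, smul_eq_mul, mul_one]
    omega
  have hE : Fintype.card (Option (Fin N.1 ⊕ Σ i, Fin (R i).1)) = N.1 + ∑ i, (R i).1 + 1 := by
    simp only [Fintype.card_option, Fintype.card_sum, Fintype.card_sigma, Fintype.card_fin]
  rw [eqRTh, simple_attach, planar_attach hN hR, hV, hE, eqR_sum_deg]
  simp only [wC, Finset.prod_mul_distrib, eqR_ind_prod, Finset.prod_pow_eq_pow_sum, forall_and,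
    eqR_ind_and, eqRSt, rc, rF]
  ring

theorem eqR_pi (n : ℕ) (w : RG → ℝ≥0∞) (F : (Bool ⊕ Fin n → RG) → ℝ≥0∞) :
    ∑' R : Bool ⊕ Fin n → RG, (∏ i, w (R i)) * F R =
      ∑' b : Fin n → RG, (∏ v, w (b v)) * ∑' R₁, w R₁ * ∑' R₂, w R₂ *
        F (Sum.elim (fun c => bif c then R₁ else R₂) b) := by
  let e : (Fin n → RG) × RG × RG ≃ (Bool ⊕ Fin n → RG) :=
    { toFun := fun p => Sum.elim (fun c => bif c then p.2.1 else p.2.2) p.1
      invFun := fun R => (fun v => R (.inr v), R (.inl true), R (.inl false))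
      left_inv := fun _ => rfl
      right_inv := fun R => by
        funext i
        rcases i with (_ | _) | v <;> rfl }
  rw [← e.tsum_eq, ENNReal.tsum_prod']
  refine tsum_congr fun b => ?_
  rw [ENNReal.tsum_prod', ← ENNReal.tsum_mul_left]
  refine tsum_congr fun R₁ => ?_
  rw [← ENNReal.tsum_mul_left, ← ENNReal.tsum_mul_left]
  refine tsum_congr fun R₂ => ?_
  rw [Fintype.prod_sum_type, Fintype.prod_bool]
  simp only [e, Equiv.coe_fn_mk, Sum.elim_inl, Sum.elim_inr, cond_true, cond_false]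
  ring

/-- the two poles alone -/
def eqRN0 : NG := ⟨0, 0, fun x => x.1.elim0⟩

theorem eqR_split (N : NG) :
    ind (IsBlock N.2.2) * ind (Simple (clo N.2.2) ∧ emb (clo N.2.2) (flp _) ≠ 0) =
      ind (N = eqRN0) +
        ind (IsNet N.2.2 ∧ NoDir N.2.2 ∧ Simple N.2.2 ∧ emb (clo N.2.2) (flp _) ≠ 0) := by
  by_cases h0 : N = eqRN0
  · subst h0
    have : IsEmpty (Fin eqRN0.1) := Fin.isEmpty
    have : IsEmpty (Fin eqRN0.2.1) := Fin.isEmpty
    rw [blockV_ind_pos (p := IsBlock _) (Or.inl ⟨inferInstance, inferInstance⟩), blockV_ind_pos rfl,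
      blockV_ind_neg (p := IsNet _ ∧ _) fun h => not_nonempty_iff.2 inferInstance h.1.1,
      blockV_ind_pos, one_mul, add_zero]
    refine ⟨simple_clo_iff.2 ⟨⟨fun x => isEmptyElim x.1, fun x => isEmptyElim x.1⟩,
      fun x => isEmptyElim x.1⟩, ?_⟩
    rw [emb_empty]
    exact one_ne_zero
  · rw [blockV_ind_neg h0, zero_add, ← eqR_ind_and]
    refine congrArg ind (propext ?_)
    rw [simple_clo_iff, IsBlock]
    have : ¬(IsEmpty (Fin N.1) ∧ IsEmpty (Fin N.2.1)) := by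
      rintro ⟨h1, h2⟩
      obtain ⟨m, n, N⟩ := N
      obtain rfl : m = 0 := (Fintype.card_fin m).symm.trans (Fintype.card_eq_zero_iff.2 h1)
      obtain rfl : n = 0 := (Fintype.card_fin n).symm.trans (Fintype.card_eq_zero_iff.2 h2)
      exact h0 (congrArg (fun N => (⟨0, 0, N⟩ : NG)) (funext fun x => x.1.elim0))
    tauto

variable (wv : RG → ℝ≥0∞) (x : ℝ≥0∞) (f : ℕ → ℝ) (k0 : ℕ) (lam mu : ℝ)

theorem eqR_left (ψ : ℕ × ℝ → ℝ≥0∞) :
    ∑' ω, lhsB (wC x) x .R ω * ψ (sB ω, zz sB f lam mu ω) =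
      (∑' R : Bool ⊕ Fin eqRN0.2.1 → RG, (∏ i, wC x (R i)) * ψ (eqRSt f lam mu eqRN0 R)) +
        ∑' N : NG, wNB (fun N => NoDir N.2.2) N *
          ∑' R : Bool ⊕ Fin N.2.1 → RG, (∏ i, wC x (R i)) * ψ (eqRSt f lam mu N R) := by
  have h := eqR_mark f fun p => x ^ p.2.1 * ψ (p.2.1, p.2.2 + lam * p.1 - mu * p.2.1)
  rw [lhsB, tsum_onU]
  refine Eq.trans (tsum_congr fun ν => ?_) (h.trans ?_)
  · simp only [wU, eqRTh, eqR_ind_and, Fintype.card_fin, sB, zz, nv, ne, FO]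
    ring
  have h2 : ∀ N : NG, wt N.1 N.2.1 * ind (IsBlock N.2.2) * ∑' R : Bool ⊕ Fin N.2.1 → RG,
        (∏ i, wt (R i).1 (R i).2.1 * ind (RConn (R i).2.2)) *
          eqRTh f (fun p => x ^ p.2.1 * ψ (p.2.1, p.2.2 + lam * p.1 - mu * p.2.1)) _ _
            (clo (attach N.2.2 id fun i => (R i).2.2)) =
      ind (N = eqRN0) * (wt N.1 N.2.1 *
        ∑' R : Bool ⊕ Fin N.2.1 → RG, (∏ i, wC x (R i)) * ψ (eqRSt f lam mu N R)) +
      wNB (fun N => NoDir N.2.2) N *
          ∑' R : Bool ⊕ Fin N.2.1 → RG, (∏ i, wC x (R i)) * ψ (eqRSt f lam mu N R) := by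
    intro N
    rw [wNB, mul_left_comm, mul_assoc (wt _ _) (ind (IsNet _ ∧ _)), ← mul_add, ← add_mul,
      ← eqR_split, mul_assoc, mul_assoc]
    by_cases hN : IsBlock N.2.2
    · simp only [eqR_term x f lam mu ψ N hN, ENNReal.tsum_mul_left]
    · rw [blockV_ind_neg hN, zero_mul, zero_mul]
  rw [tsum_congr h2, ENNReal.tsum_add, tsum_eq_single eqRN0]
  · rw [blockV_ind_pos rfl, one_mul]
    simp [wt, eqRN0]
  · intro N hN
    rw [blockV_ind_neg hN, zero_mul]

theorem eqR_dDeg (N : NG) (b : Fin N.2.1 → RG) (u : Bool ⊕ Fin N.2.1) :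
    dDeg ⟨N, fun _ => triv, b⟩ u = deg N.2.2 u + u.elim (fun _ => 0) fun v => rc (b v) := by
  rw [dDeg, rootD_deg_eq]
  simp only [rc_triv, add_zero, rootD_i]
  congr 1
  exact Finset.sum_congr rfl fun x _ => by congr

theorem eqR_two (F : Fin 2 → ℝ≥0∞) : ∑' t, F t = F 0 + F 1 := by
  rw [tsum_fintype, Fin.sum_univ_two]

theorem eqnB_R : (ufB f k0 lam .R).Eqn (lhsB (wC x) x .R) (wgB (wC x) x) sB (zz sB f lam mu) := by
  intro ψ
  rw [eqR_left]
  refine Eq.trans ?_ (eqR_two _).symm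
  congr 1
  · refine Eq.trans ?_ ((one_mul _).trans (tsum_fin_two
      (fun i => wgB (wC x) x (![JB.C, JB.C] i)) _)).symm
    rw [eqR_pi]
    have : IsEmpty (Fin eqRN0.1) := Fin.isEmpty
    have : IsEmpty (Fin eqRN0.2.1) := Fin.isEmpty
    rw [tsum_eq_single isEmptyElim fun b hb => absurd (Subsingleton.elim _ _) hb]
    simp only [Matrix.cons_val_zero, Matrix.cons_val_one, wgB, tsum_onR, Finset.univ_eq_empty,
      Finset.prod_empty, one_mul]
    refine tsum_congr fun R₁ => congrArg _ (tsum_congr fun R₂ => congrArg _ (congrArg ψ ?_))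
    have hd : ∀ c, deg (clo eqRN0.2.2) (Sum.inl c) = 1 := fun c => by
      rw [rootD_deg_clo_inl, rootD_deg_eq, Finset.univ_eq_empty, Finset.sum_empty]
    have h0 : eqRN0.1 = 0 := rfl
    show _ = ((0 + ∑ i : Fin 2, sB (![Sum.inl R₁, Sum.inl R₂] i) : ℕ),
      lam + ∑ i : Fin 2, zz sB f lam mu (![Sum.inl R₁, Sum.inl R₂] i) +
        ∑ _v : Unit, (f (1 + rc R₁) + f (1 + rc R₂)))
    simp only [eqRSt, Fintype.sum_sum_type, Fintype.sum_bool, Finset.univ_eq_empty,
      Finset.sum_empty, Sum.elim_inl, cond_true, cond_false, hd, Fin.sum_univ_two,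
      Matrix.cons_val_zero, Matrix.cons_val_one, sB, zz, FO, ne, Finset.univ_unique,
      Finset.sum_singleton, h0, Prod.mk.injEq]
    refine ⟨by ring, ?_⟩
    push_cast
    ring
  · refine Eq.trans ?_ ((one_mul _).trans (tsum_fin_three
      (fun i => wgB (wC x) x (![JB.Dt, JB.C, JB.C] i)) _)).symm
    simp only [Matrix.cons_val_zero, Matrix.cons_val_one, Matrix.cons_val, wgB, clsB, tsum_onR,
      tsum_onD]
    refine Eq.trans (tsum_congr fun N => ?_) (ENNReal.tsum_sigma' _).symm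
    rw [eqR_pi, ENNReal.tsum_prod']
    simp only [wDec, mul_assoc, ENNReal.tsum_mul_left]
    refine congrArg _ (Eq.trans ?_ ((tsum_congr fun a => ENNReal.tsum_mul_left).trans
      (tsum_pi_wTriv 1 _)).symm)
    rw [one_pow, one_mul]
    refine tsum_congr fun b => congrArg _ (tsum_congr fun R₁ => congrArg _
      (tsum_congr fun R₂ => congrArg _ (congrArg ψ ?_)))
    show _ = ((0 + ∑ i : Fin 3,
        sB (![Sum.inr (Sum.inl ⟨N, fun _ => triv, b⟩), Sum.inl R₁, Sum.inl R₂] i) : ℕ),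
      lam + ∑ i : Fin 3, zz sB f lam mu
          (![Sum.inr (Sum.inl ⟨N, fun _ => triv, b⟩), Sum.inl R₁, Sum.inl R₂] i) +
        ∑ _v : Unit, (f (1 + dDeg ⟨N, fun _ => triv, b⟩ (.inl true) + rc R₁) +
          f (1 + dDeg ⟨N, fun _ => triv, b⟩ (.inl false) + rc R₂)))
    have t1 : triv.1 = 0 := rfl
    have t2 : triv.2.1 = 0 := rfl
    simp only [eqRSt, Fintype.sum_sum_type, Fintype.sum_bool, Sum.elim_inl, Sum.elim_inr,
      cond_true, cond_false, Fin.sum_univ_three, rootD_deg_clo_inl, rootD_deg_clo_inr,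
      Matrix.cons_val_zero, Matrix.cons_val_one, Matrix.cons_val, sB, zz, FO, ne, nv,
      Finset.univ_unique, Finset.sum_singleton, Prod.mk.injEq, eqR_dDeg, rF_triv, t1, t2,
      Finset.sum_const_zero, add_zero, Finset.sum_add_distrib, Finset.sum_const, Finset.card_univ,
      Fintype.card_fin, smul_eq_mul, mul_one, add_comm 1, Fintype.card_sum, Fintype.card_bool,
      Finset.card_singleton, one_smul]
    refine ⟨by ring, ?_⟩
    push_cast
    ring

end Pool.Agent.Lib.MP_77dff5_pr
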