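import Pool.Agent.Lib.MP_77dff5_pr.EqB1
import Pool.Agent.Lib.MP_77dff5_pr.EqB2
import Pool.Agent.Lib.MP_77dff5_pr.EqR
import Pool.Agent.Lib.MP_77dff5_pr.EqG

/-! All equations of model B. -/

set_option autoImplicit false

namespace Pool.Agent.Lib.MP_77dff5_pr

open scoped ENNReal NNReal Classical

variable (wv : RG → ℝ≥0∞) (x : ℝ≥0∞) (f : ℕ → ℝ) (k0 : ℕ) (lam mu : ℝ)

theorem eqnB_net (hf : EvC f k0) (k : KB) (h1 : k ≠ .R) (h2 : k ≠ .G) :
    (ufB f k0 lam k).Eqn (lhsB wv x k) (wgB wv x) sB (zz sB f lam mu) := by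
  cases k
  · exact eqnB_E wv x f k0 lam mu
  · exact eqnB_S wv x f k0 lam mu
  · exact eqnB_P0 wv x f k0 lam mu
  · exact eqnB_P1 wv x f k0 lam mu
  · exact eqnB_H wv x f k0 lam mu hf
  · exact absurd rfl h1
  · exact absurd rfl h2

theorem eqnB (hf : EvC f k0) (k : KB) :
    (ufB f k0 lam k).Eqn (lhsB (wC x) x k) (wgB (wC x) x) sB (zz sB f lam mu) := by
  by_cases h1 : k = .R
  · subst h1; exact eqnB_R x f k0 lam mu
  by_cases h2 : k = .G
  · subst h2; exact eqnB_G x f k0 lam mu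
  exact eqnB_net _ x f k0 lam mu hf k h1 h2

end Pool.Agent.Lib.MP_77dff5_pr
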