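import Pool.Agent.Lib.MP_77dff5_pr.Dec
import Pool.Agent.Lib.MP_77dff5_pr.EqOm
import Pool.Agent.Lib.MP_77dff5_pr.Emb

/-! Equations of model B: edge, series, 3-connected core. -/

set_option autoImplicit false

namespace Pool.Agent.Lib.MP_77dff5_pr

open scoped ENNReal NNReal Classical

theorem eqB1_ind_pos {p : Prop} (h : p) : ind p = 1 := if_pos h

theorem eqB1_ind_neg {p : Prop} (h : ¬p) : ind p = 0 := if_neg h

theorem eqB1_ind_congr {p q : Prop} (h : p ↔ q) : ind p = ind q := by rw [propext h]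

theorem eqB1_ind_and (p q : Prop) : ind (p ∧ q) = ind p * ind q := by
  by_cases hp : p <;> by_cases hq : q <;> simp [ind, hp, hq]

theorem eqB1_ind_all {I : Type} [Fintype I] (r : I → Prop) : ind (∀ i, r i) = ∏ i, ind (r i) := by
  by_cases h : ∀ i, r i
  · rw [eqB1_ind_pos h]
    exact (Finset.prod_eq_one fun i _ => eqB1_ind_pos (h i)).symm
  · rw [eqB1_ind_neg h]
    obtain ⟨i, hi⟩ := not_forall.1 h
    exact (Finset.prod_eq_zero (Finset.mem_univ i) (eqB1_ind_neg hi)).symm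

/-- indicator of: simple and planar -/
noncomputable def eqB1Th : NFun := fun _ _ _ _ N => ind (Simple N ∧ emb (clo N) (flp _) ≠ 0)

theorem eqB1_inv : NInv eqB1Th := by
  intro E V E' V' _ _ _ _ u e N N' h
  refine eqB1_ind_congr (and_congr ?_ ?_)
  · exact simple_congr u ((Equiv.refl Bool).sumCongr e) h
  · rw [emb_clo_congr u e h]

/-- the test function in terms of the three statistics -/
noncomputable def eqB1Psi (lam mu : ℝ) (ψ : ℕ × ℝ → ℝ≥0∞) (p : ℕ × ℕ × ℝ) : ℝ≥0∞ :=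
  ψ (p.2.1, p.2.2 + lam * (p.1 : ℕ) - mu * (p.2.1 : ℕ))

theorem eqB1_wDec (wv : RG → ℝ≥0∞) (P : NG → Prop) (D : DG) :
    wDec (wNB P) (wTriv 1) wv D = wDP (wTriv 1) wv P D * eqB1Th _ _ D.1.2.2 := by
  have h : ind (IsNet D.1.2.2 ∧ P D.1 ∧ Simple D.1.2.2 ∧ emb (clo D.1.2.2) (flp _) ≠ 0) =
      ind (IsNet D.1.2.2 ∧ P D.1) * ind (Simple D.1.2.2 ∧ emb (clo D.1.2.2) (flp _) ≠ 0) := by
    rw [← eqB1_ind_and]
    exact eqB1_ind_congr and_assoc.symm
  simp only [wDP, wDec, wNB, eqB1Th, h]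
  ring

theorem eqB1_net {wd wv : RG → ℝ≥0∞} {P : NG → Prop} {D : DG} (h : wDP wd wv P D ≠ 0) :
    IsNet D.1.2.2 := by
  by_contra hn
  apply h
  simp only [wDP, wDec]
  rw [eqB1_ind_neg fun h' => hn h'.1]
  simp

theorem eqB1_lhs (wv : RG → ℝ≥0∞) (f : ℕ → ℝ) (lam mu : ℝ) (P : NG → Prop)
    (ψ : ℕ × ℝ → ℝ≥0∞) :
    ∑' ω, clsB wv P ω * ψ (sB ω, zz sB f lam mu ω) =
      ∑' D : DG, wDP (wTriv 1) wv P D *
        (eqB1Th _ _ D.1.2.2 * eqB1Psi lam mu ψ (gStat f D.1.2.2 D.2.1 D.2.2)) := by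
  rw [clsB, tsum_onD]
  refine tsum_congr fun D => ?_
  rw [eqB1_wDec, gStat_eq, mul_assoc]
  rfl

theorem eqB1_glue {I W : Type} {E V : I → Type} [Fintype I] [Fintype W] [∀ i, Fintype (E i)]
    [∀ i, Fintype (V i)] {t : I × Bool → Bool ⊕ W} {N : ∀ i, E i × Bool → Bool ⊕ V i}
    (ht : IsNet t) (hs : Simple t) (hb : ∀ i, OneBridge t i) (hN : ∀ i, IsNet (N i)) :
    eqB1Th _ _ (glue t N) = ind (emb (clo t) (flp _) ≠ 0) * ∏ i, eqB1Th _ _ (N i) := by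
  simp only [eqB1Th]
  rw [← eqB1_ind_all, ← eqB1_ind_and, emb_glue ht hN fun i => Or.inr (hb i), simple_glue hs hN]
  refine eqB1_ind_congr ?_
  simp only [mul_ne_zero_iff, Finset.prod_ne_zero_iff, Finset.mem_univ, forall_true_left,
    forall_and]
  tauto

theorem eqB1_deg_le (D : DG) (u : Bool ⊕ Fin D.1.2.1) : deg D.1.2.2 u ≤ dDeg D u := by
  have h : deg D.1.2.2 u = ∑ x, if D.1.2.2 x = u then 1 else 0 := by
    rw [deg, Nat.card_eq_fintype_card, Fintype.card_subtype, Finset.card_filter]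
  rw [h, dDeg]
  refine le_trans (Finset.sum_le_sum fun x _ => ?_) (Nat.le_add_right _ _)
  split_ifs
  · exact Nat.le_add_right _ _
  · exact le_rfl

/-- sum of the pole degrees of the parts at a vertex of the core -/
noncomputable def eqB1Sum {I W : Type} [Fintype I] (t : I × Bool → Bool ⊕ W) (Ds : I → DG)
    (u : Bool ⊕ W) : ℕ := ∑ x, if t x = u then dDeg (Ds x.1) (.inl x.2) else 0

theorem eqB1_gStat {I W : Type} [Fintype I] [Fintype W] (t : I × Bool → Bool ⊕ W) (Ds : I → DG)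
    (b : W → RG) (f : ℕ → ℝ) :
    gStat f (glue t fun i => (Ds i).1.2.2) (glueD Ds) (glueV b Ds) =
      (∑ i, ne (.inr (.inl (Ds i))) + ∑ v, (b v).1,
        Fintype.card W + ∑ i, nv (.inr (.inl (Ds i))) + ∑ v, (b v).2.1,
        ∑ v, f (eqB1Sum t Ds (.inr v) + rc (b v)) +
          ∑ i, FO f (.inr (.inl (Ds i))) + ∑ v, rF f (b v)) := gStat_glue t Ds b f

theorem eqB1_deg_core {I W : Type} [Fintype I] (t : I × Bool → Bool ⊕ W) (Ds : I → DG)
    (hN : ∀ i, IsNet (Ds i).1.2.2) (u : Bool ⊕ W) : deg t u ≤ eqB1Sum t Ds u := by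
  have h : deg t u = ∑ x, if t x = u then 1 else 0 := by
    rw [deg, Nat.card_eq_fintype_card, Fintype.card_subtype, Finset.card_filter]
  rw [h]
  refine Finset.sum_le_sum fun x _ => ?_
  split_ifs
  · exact ((hN x.1).deg_pole x.2).trans (eqB1_deg_le _ _)
  · exact le_rfl

theorem eqB1_tsum_unique {T : Type} [Unique T] (F : T → ℝ≥0∞) : ∑' t, F t = F default := by
  rw [tsum_fintype, Fintype.sum_unique]

theorem eqB1_tsum_sub {T : Type} (p : T → Prop) (F : T → ℝ≥0∞) :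
    ∑' t : {t // p t}, F t = ∑' t, ind (p t) * F t := by
  refine (tsum_subtype {t | p t} F).trans (tsum_congr fun t => ?_)
  by_cases h : p t
  · rw [eqB1_ind_pos h, one_mul, Set.indicator_of_mem (show t ∈ {t | p t} from h)]
  · rw [eqB1_ind_neg h, zero_mul, Set.indicator_of_notMem (show t ∉ {t | p t} from h)]

theorem eqB1_tri (Ds : Fin 2 → DG) :
    eqB1Sum tri Ds (.inr ()) = dDeg (Ds 0) (.inl false) + dDeg (Ds 1) (.inl true) := by
  simp [eqB1Sum, Fintype.sum_prod_type, Fin.sum_univ_two, tri, add_comm]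

variable (wv : RG → ℝ≥0∞) (x : ℝ≥0∞) (f : ℕ → ℝ) (k0 : ℕ) (lam mu : ℝ)

theorem eqnB_E : (ufB f k0 lam .E).Eqn (lhsB wv x .E) (wgB wv x) sB (zz sB f lam mu) := by
  intro ψ
  have h1 := dec_E (wTriv 1) wv _ (decInv_gStat f eqB1Th eqB1_inv (eqB1Psi lam mu ψ))
  have h2 := tsum_pi_wTriv (I := Fin 1 × Bool) 1
    fun a => eqB1Th _ _ edgeN * eqB1Psi lam mu ψ (gStat f edgeN a Fin.elim0)
  have h3 : eqB1Th _ _ edgeN = 1 :=
    eqB1_ind_pos ⟨isNet_edgeN.2.2, by rw [emb_edgeN]; exact one_ne_zero⟩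
  refine (eqB1_lhs wv f lam mu _ ψ).trans (h1.trans (h2.trans ?_))
  rw [h3]
  show _ = ∑' _t : Unit, 1 * ∑' ω : Empty → Om, (∏ i : Empty, wgB wv x i.elim (ω i)) *
    ψ (0 + ∑ i, sB (ω i), lam + ∑ i, zz sB f lam mu (ω i) + ∑ v : Empty, v.elim)
  rw [eqB1_tsum_unique, eqB1_tsum_unique]
  have h4 : triv.1 = 0 := rfl
  have h5 : triv.2.1 = 0 := rfl
  simp [eqB1Psi, gStat, rF_triv, h4, h5]

theorem eqnB_S : (ufB f k0 lam .S).Eqn (lhsB wv x .S) (wgB wv x) sB (zz sB f lam mu) := by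
  intro ψ
  have h1 := dec_S (wTriv 1) wv _ (decInv_gStat f eqB1Th eqB1_inv (eqB1Psi lam mu ψ))
  refine (eqB1_lhs wv f lam mu _ ψ).trans (h1.trans ?_)
  show _ = ∑' _t : Unit, 1 * ∑' ω : Fin 3 → Om,
    (∏ i, wgB wv x ((![.nS, .D, .C] : Fin 3 → JB) i) (ω i)) *
      ψ (0 + ∑ i, sB (ω i), 0 + ∑ i, zz sB f lam mu (ω i) +
        ∑ _v : Unit, f (cO (ω 2) + bO (ω 0) + aO (ω 1)))
  rw [eqB1_tsum_unique fun _t : Unit => _, one_mul,
    tsum_fin_three (fun i => wgB wv x ((![.nS, .D, .C] : Fin 3 → JB) i))]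
  show _ = ∑' ω₀, onD (wDec (wNB fun N => ¬IsS N.2.2) (wTriv 1) wv) ω₀ *
    ∑' ω₁, onD (wDec (wNB fun _ => True) (wTriv 1) wv) ω₁ * ∑' ω₂, onR wv ω₂ * _
  rw [tsum_onD, ← (finTwoArrowEquiv DG).symm.tsum_eq, ENNReal.tsum_prod']
  refine tsum_congr fun D₀ => ?_
  rw [tsum_onD, ← ENNReal.tsum_mul_left]
  refine tsum_congr fun D₁ => ?_
  rw [tsum_onR, ← ENNReal.tsum_mul_left, ← ENNReal.tsum_mul_left,
    ← (Equiv.funUnique Unit RG).symm.tsum_eq]
  refine tsum_congr fun R => ?_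
  rw [eqB1_wDec, eqB1_wDec]
  show wDP (wTriv 1) wv (fun N => ¬IsS N.2.2) D₀ * wDP (wTriv 1) wv (fun _ => True) D₁ * wv R *
    (eqB1Th _ _ (glue tri fun i => ((![D₀, D₁] : Fin 2 → DG) i).1.2.2) *
      eqB1Psi lam mu ψ (gStat f (glue tri fun i => ((![D₀, D₁] : Fin 2 → DG) i).1.2.2)
        (glueD ![D₀, D₁]) (glueV (fun _ => R) ![D₀, D₁]))) = _
  by_cases a0 : wDP (wTriv 1) wv (fun N => ¬IsS N.2.2) D₀ = 0
  · simp [a0]
  by_cases a1 : wDP (wTriv 1) wv (fun _ => True) D₁ = 0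
  · simp [a1]
  have hN : ∀ i, IsNet ((![D₀, D₁] : Fin 2 → DG) i).1.2.2 :=
    Fin.forall_fin_two.2 ⟨eqB1_net a0, eqB1_net a1⟩
  rw [eqB1_glue isNet_tri (simple_clo_iff.1 simple_clo_tri).1 oneBridge_tri hN, emb_tri,
    eqB1_ind_pos one_ne_zero, one_mul, eqB1_gStat, Fin.prod_univ_two]
  have key : eqB1Psi lam mu ψ
      (∑ i, ne (.inr (.inl ((![D₀, D₁] : Fin 2 → DG) i))) + ∑ _v : Unit, R.1,
        Fintype.card Unit + ∑ i, nv (.inr (.inl ((![D₀, D₁] : Fin 2 → DG) i))) +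
          ∑ _v : Unit, R.2.1,
        ∑ v : Unit, f (eqB1Sum tri ![D₀, D₁] (.inr v) + rc R) +
          ∑ i, FO f (.inr (.inl ((![D₀, D₁] : Fin 2 → DG) i))) + ∑ _v : Unit, rF f R) =
      ψ (0 + ∑ i, sB ((![.inr (.inl D₀), .inr (.inl D₁), .inl R] : Fin 3 → Om) i),
        0 + ∑ i, zz sB f lam mu ((![.inr (.inl D₀), .inr (.inl D₁), .inl R] : Fin 3 → Om) i) +
          ∑ _v : Unit, f (rc R + dDeg D₀ (.inl false) + dDeg D₁ (.inl true))) := by
    have e1 : eqB1Sum tri ![D₀, D₁] (.inr ()) + rc R =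
        rc R + dDeg D₀ (.inl false) + dDeg D₁ (.inl true) := by
      rw [eqB1_tri]
      show dDeg D₀ (.inl false) + dDeg D₁ (.inl true) + rc R = _
      ring
    have s0 : sB (.inr (.inl D₀)) = nv (.inr (.inl D₀)) := rfl
    have s1 : sB (.inr (.inl D₁)) = nv (.inr (.inl D₁)) := rfl
    have s2 : sB (.inl R) = R.2.1 + 1 := rfl
    have s3 : FO f (.inl R) = rF f R := rfl
    have s4 : ne (.inl R) = R.1 := rfl
    simp only [eqB1Psi, Fintype.sum_unique, Fin.sum_univ_two, Fin.sum_univ_three, zz,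
      Matrix.cons_val_zero, Matrix.cons_val_one, Matrix.cons_val_two, Matrix.tail_cons,
      Matrix.head_cons, Matrix.cons_val_fin_one, s0, s1, s2, s3, s4, Fintype.card_unique,
      e1]
    congr 2
    · ring
    · push_cast
      ring
  rw [key]
  show _ * (eqB1Th _ _ D₀.1.2.2 * eqB1Th _ _ D₁.1.2.2 * _) =
    wDP (wTriv 1) wv (fun N => ¬IsS N.2.2) D₀ * eqB1Th _ _ D₀.1.2.2 *
      (wDP (wTriv 1) wv (fun _ => True) D₁ * eqB1Th _ _ D₁.1.2.2 * (wv R *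
        ψ (0 + ∑ i, sB ((![.inr (.inl D₀), .inr (.inl D₁), .inl R] : Fin 3 → Om) i),
        0 + ∑ i, zz sB f lam mu ((![.inr (.inl D₀), .inr (.inl D₁), .inl R] : Fin 3 → Om) i) +
          ∑ _v : Unit, f (rc R + dDeg D₀ (.inl false) + dDeg D₁ (.inl true)))))
  ring

theorem eqnB_H (hf : EvC f k0) :
    (ufB f k0 lam .H).Eqn (lhsB wv x .H) (wgB wv x) sB (zz sB f lam mu) := by
  intro ψ
  have h1 := dec_T (wTriv 1) wv _ (decInv_gStat f eqB1Th eqB1_inv (eqB1Psi lam mu ψ))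
  refine (eqB1_lhs wv f lam mu _ ψ).trans (h1.trans ?_)
  refine Eq.trans ?_ (eqB1_tsum_sub (fun t : NG => Core3 t.2.2 ∧ emb (clo t.2.2) (flp _) ≠ 0)
    fun t : NG => wt t.1 t.2.1 *
      (Tcore aO bO cO JB.D JB.C f k0 t 0 0).tlaw (wgB wv x) sB (zz sB f lam mu) ψ).symm
  refine tsum_congr fun t => ?_
  by_cases h3 : Core3 t.2.2
  swap
  · rw [eqB1_ind_neg h3, eqB1_ind_neg fun h => h3 h.1]
    simp
  rw [eqB1_ind_and, eqB1_ind_pos h3, mul_one, one_mul, mul_left_comm]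
  congr 1
  have h4 : (Tcore aO bO cO JB.D JB.C f k0 t 0 0).tlaw (wgB wv x) sB (zz sB f lam mu) ψ =
      ∑' ω : Fin t.1 ⊕ Fin t.2.1 → Om, (∏ i, Sum.elim
        (fun _ => onD (wDec (wNB fun _ => True) (wTriv 1) wv)) (fun _ => onR wv) i (ω i)) *
        ψ (0 + ∑ i, sB (ω i), 0 + ∑ i, zz sB f lam mu (ω i) +
          ∑ v, if deg t.2.2 (.inr v) ≤ k0 then
            f (cO (ω (.inr v)) + poleSum aO bO t ω (.inr v)) else f (k0 + 1)) := by
    refine tsum_congr fun ω => ?_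
    congr 1
    refine Finset.prod_congr rfl fun i _ => ?_
    rcases i with i | i <;> rfl
  rw [h4, tsum_pi_sum, ← ENNReal.tsum_mul_left]
  refine tsum_congr fun Ds => ?_
  rw [← ENNReal.tsum_mul_left]
  refine tsum_congr fun b => ?_
  simp only [eqB1_wDec, Finset.prod_mul_distrib]
  by_cases a0 : ∏ i, wDP (wTriv 1) wv (fun _ => True) (Ds i) = 0
  · simp [a0]
  have hN : ∀ i, IsNet (Ds i).1.2.2 := fun i =>
    eqB1_net (Finset.prod_ne_zero_iff.1 a0 i (Finset.mem_univ i))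
  rw [eqB1_glue h3.1 (simple_clo_iff.1 h3.simple).1 h3.oneBridge hN, eqB1_gStat]
  have e1 : ∀ v : Fin t.2.1,
      f (eqB1Sum t.2.2 Ds (.inr v) + rc (b v)) =
      if deg t.2.2 (.inr v) ≤ k0 then f (rc (b v) + poleSum aO bO t
        (Sum.elim (fun i => .inr (.inl (Ds i))) fun v => .inl (b v)) (.inr v)) else f (k0 + 1) := by
    intro v
    split_ifs with hv
    · rw [add_comm]
      congr 2
      refine Finset.sum_congr rfl fun x _ => ?_
      by_cases hx : t.2.2 x = .inr v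
      · rw [if_pos hx, if_pos hx]
        rcases x with ⟨i, _ | _⟩ <;> rfl
      · rw [if_neg hx, if_neg hx]
    · exact hf _ (lt_of_lt_of_le (not_le.1 hv)
        ((eqB1_deg_core _ Ds hN _).trans (Nat.le_add_right _ _)))
  have s0 : ∀ D : DG, sB (.inr (.inl D)) = nv (.inr (.inl D)) := fun _ => rfl
  have s2 : ∀ R : RG, sB (.inl R) = R.2.1 + 1 := fun _ => rfl
  have s3 : ∀ R : RG, FO f (.inl R) = rF f R := fun _ => rfl
  have s4 : ∀ R : RG, ne (.inl R) = R.1 := fun _ => rfl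
  have s5 : ∀ R : RG, cO (.inl R) = rc R := fun _ => rfl
  simp only [eqB1Psi, e1, Fintype.sum_sum_type, Sum.elim_inl, Sum.elim_inr, zz, s0, s2, s3, s4, s5]
  have k1 : Fintype.card (Fin t.2.1) + ∑ i, nv (.inr (.inl (Ds i))) + ∑ v, (b v).2.1 =
      0 + (∑ i, nv (.inr (.inl (Ds i))) + ∑ v, ((b v).2.1 + 1)) := by
    rw [Finset.sum_add_distrib, Finset.sum_const, Finset.card_univ, smul_eq_mul]
    ring
  rw [k1]
  have k2 : ∀ A : ℝ, A + ∑ i, FO f (.inr (.inl (Ds i))) + ∑ v, rF f (b v) +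
      lam * ((∑ i, ne (.inr (.inl (Ds i))) + ∑ v, (b v).1 : ℕ) : ℝ) -
      mu * ((0 + (∑ i, nv (.inr (.inl (Ds i))) + ∑ v, ((b v).2.1 + 1)) : ℕ) : ℝ) =
      0 + (∑ i, (FO f (.inr (.inl (Ds i))) + lam * (ne (.inr (.inl (Ds i))) : ℕ) -
          mu * (nv (.inr (.inl (Ds i))) : ℕ)) +
        ∑ v, (rF f (b v) + lam * ((b v).1 : ℕ) - mu * (((b v).2.1 + 1 : ℕ) : ℝ))) + A := by
    intro A
    simp only [Finset.sum_sub_distrib, Finset.sum_add_distrib, ← Finset.mul_sum, Nat.cast_add,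
      Nat.cast_sum, Nat.cast_zero]
    ring
  rw [k2]
  generalize ψ _ = A
  ring

end Pool.Agent.Lib.MP_77dff5_pr
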