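import Pool.Agent.Lib.MP_77dff5_pr.Lin

/-! From local asymptotics to the standardised central limit theorem. -/

set_option autoImplicit false

namespace Pool.Agent.Lib.MP_77dff5_pr

open MeasureTheory ProbabilityTheory Filter Topology

theorem norm_psi_nonneg (K u : ℝ) : 0 ≤ psi K u := sq_nonneg _

theorem norm_psi_continuous (K : ℝ) : Continuous (psi K) := by
  unfold psi
  fun_prop

theorem norm_psi_anti {K K' : ℝ} (h : K ≤ K') (u : ℝ) : psi K' u ≤ psi K u := by
  unfold psi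
  exact pow_le_pow_left₀ (le_max_right _ _) (max_le_max (by linarith) le_rfl) 2

theorem norm_psi_le (K u : ℝ) : psi K u ≤ 2 * u ^ 2 + 2 * K ^ 2 := by
  unfold psi
  rcases le_total (|u| - K) 0 with h | h
  · rw [max_eq_right h]; nlinarith [sq_nonneg u, sq_nonneg K]
  · rw [max_eq_left h]
    have : |u| ^ 2 = u ^ 2 := sq_abs u
    nlinarith [sq_nonneg (|u| + K)]

theorem norm_psi_integrable {μ : Measure ℝ} [IsFiniteMeasure μ] (h : MemLp id 2 μ) (K : ℝ) :
    Integrable (psi K) μ := by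
  have h1 : Integrable (fun u : ℝ => u ^ 2) μ := by
    simpa using h.integrable_sq
  refine Integrable.mono' ((h1.const_mul 2).add (integrable_const (2 * K ^ 2)))
    (norm_psi_continuous K).aestronglyMeasurable (ae_of_all _ fun u => ?_)
  rw [Real.norm_eq_abs, abs_of_nonneg (norm_psi_nonneg K u)]
  exact norm_psi_le K u

theorem norm_psi_tendsto {μ : Measure ℝ} [IsFiniteMeasure μ] (h : MemLp id 2 μ) :
    Tendsto (fun K : ℝ => ∫ u, psi K u ∂μ) atTop (𝓝 0) := by
  have h0 : (0 : ℝ) = ∫ _u : ℝ, (0 : ℝ) ∂μ := by simp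
  rw [h0]
  refine tendsto_integral_filter_of_dominated_convergence (psi 0)
    (Eventually.of_forall fun K => (norm_psi_continuous K).aestronglyMeasurable) ?_
    (norm_psi_integrable h 0) (ae_of_all _ fun u => ?_)
  · filter_upwards [eventually_ge_atTop (0 : ℝ)] with K hK
    refine ae_of_all _ fun u => ?_
    rw [Real.norm_eq_abs, abs_of_nonneg (norm_psi_nonneg K u)]
    exact norm_psi_anti hK u
  · refine tendsto_const_nhds.congr' ?_
    filter_upwards [eventually_ge_atTop |u|] with K hK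
    unfold psi
    rw [max_eq_right (by linarith)]
    simp

theorem norm_approx {μ : Measure ℝ} [IsFiniteMeasure μ] (h : MemLp id 2 μ) {f : ℝ → ℝ}
    (hf : Continuous f) (g : BoundedContinuousFunction ℝ ℝ) {K : ℝ}
    (hg : ∀ u, |f u - g u| ≤ 4 * psi K u) :
    |∫ u, f u ∂μ - ∫ u, g u ∂μ| ≤ 4 * ∫ u, psi K u ∂μ := by
  have hgi : Integrable g μ := g.integrable μ
  have hd : Integrable (fun u => f u - g u) μ :=
    Integrable.mono' ((norm_psi_integrable h K).const_mul 4)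
      (hf.sub g.continuous).aestronglyMeasurable (ae_of_all _ fun u => hg u)
  have hfi : Integrable f μ := by
    refine (hd.add hgi).congr (ae_of_all _ fun u => ?_)
    simp
  rw [← integral_sub hfi hgi, ← integral_const_mul]
  exact (abs_integral_le_integral_abs).trans
    (integral_mono hd.abs ((norm_psi_integrable h K).const_mul 4) hg)

theorem norm_ui {Q : ℕ → ProbabilityMeasure ℝ} {G : ProbabilityMeasure ℝ}
    (hQ : Tendsto Q atTop (𝓝 G)) (h2 : ∀ n, MemLp id 2 (Q n : Measure ℝ))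
    (hG : MemLp id 2 (G : Measure ℝ))
    (hui : ∀ ε : ℝ, 0 < ε → ∃ K : ℝ, ∀ᶠ n : ℕ in atTop, ∫ x, psi K x ∂(Q n : Measure ℝ) ≤ ε)
    {f : ℝ → ℝ} (hf : Continuous f)
    (hg : ∀ K : ℝ, 0 ≤ K → ∃ g : BoundedContinuousFunction ℝ ℝ, ∀ u, |f u - g u| ≤ 4 * psi K u) :
    Tendsto (fun n => ∫ u, f u ∂(Q n : Measure ℝ)) atTop (𝓝 (∫ u, f u ∂(G : Measure ℝ))) := by
  rw [Metric.tendsto_nhds]
  intro ε hε
  obtain ⟨K1, hK1⟩ := hui (ε / 16) (by positivity)
  have hK2 := (norm_psi_tendsto hG).eventually (gt_mem_nhds (show (0 : ℝ) < ε / 16 by positivity))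
  obtain ⟨K, ⟨hKa, hKb⟩, hKc⟩ :=
    (((eventually_ge_atTop K1).and (eventually_ge_atTop 0)).and hK2).exists
  obtain ⟨g, hgK⟩ := hg K hKb
  have h3 := (ProbabilityMeasure.tendsto_iff_forall_integral_tendsto.1 hQ) g
  rw [Metric.tendsto_nhds] at h3
  filter_upwards [hK1, h3 (ε / 4) (by positivity)] with n hn1 hn2
  have ha := norm_approx (h2 n) hf g hgK
  have hb := norm_approx hG hf g hgK
  have hc : ∫ x, psi K x ∂(Q n : Measure ℝ) ≤ ∫ x, psi K1 x ∂(Q n : Measure ℝ) :=
    integral_mono (norm_psi_integrable (h2 n) K) (norm_psi_integrable (h2 n) K1)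
      (norm_psi_anti hKa)
  rw [Real.dist_eq] at hn2 ⊢
  rw [abs_le] at ha hb
  rw [abs_lt] at hn2 ⊢
  constructor <;> linarith [ha.1, ha.2, hb.1, hb.2, hn2.1, hn2.2]

theorem norm_trunc_id (K : ℝ) (hK : 0 ≤ K) :
    ∃ g : BoundedContinuousFunction ℝ ℝ, ∀ u, |u - g u| ≤ 4 * psi K u := by
  refine ⟨BoundedContinuousFunction.ofNormedAddCommGroup
    (fun u : ℝ => max (-(K + 1)) (min u (K + 1))) (by fun_prop) (K + 1) fun u => ?_, fun u => ?_⟩
  · rw [Real.norm_eq_abs, abs_le]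
    exact ⟨le_max_left _ _, max_le (by linarith) (min_le_right _ _)⟩
  · change |u - max (-(K + 1)) (min u (K + 1))| ≤ 4 * psi K u
    have h0 := norm_psi_nonneg K u
    rcases le_total u (K + 1) with h1 | h1
    · rw [min_eq_left h1]
      rcases le_total (-(K + 1)) u with h2 | h2
      · rw [max_eq_right h2]; simpa using h0
      · rw [max_eq_left h2, abs_of_nonpos (by linarith)]
        unfold psi
        rw [abs_of_nonpos (by linarith), max_eq_left (by linarith)]
        nlinarith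
    · rw [min_eq_right h1, max_eq_right (by linarith), abs_of_nonneg (by linarith)]
      unfold psi
      rw [abs_of_nonneg (by linarith), max_eq_left (by linarith)]
      nlinarith

theorem norm_trunc_sq (K : ℝ) (hK : 0 ≤ K) :
    ∃ g : BoundedContinuousFunction ℝ ℝ, ∀ u, |u ^ 2 - g u| ≤ 4 * psi K u := by
  refine ⟨BoundedContinuousFunction.ofNormedAddCommGroup
    (fun u : ℝ => min (u ^ 2) (4 * K ^ 2)) (by fun_prop) (4 * K ^ 2) fun u => ?_, fun u => ?_⟩
  · rw [Real.norm_eq_abs, abs_of_nonneg (le_min (by positivity) (by positivity))]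
    exact min_le_right _ _
  · change |u ^ 2 - min (u ^ 2) (4 * K ^ 2)| ≤ 4 * psi K u
    have h0 := norm_psi_nonneg K u
    rcases le_total (u ^ 2) (4 * K ^ 2) with h1 | h1
    · rw [min_eq_left h1]; simpa using h0
    · rw [min_eq_right h1, abs_of_nonneg (by linarith)]
      have h2 : 2 * K ≤ |u| := by
        refine abs_le_of_sq_le_sq' ?_ (abs_nonneg u) |>.2
        rw [sq_abs]; linarith
      unfold psi
      rw [max_eq_left (by linarith)]
      have : |u| ^ 2 = u ^ 2 := sq_abs u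
      nlinarith [abs_nonneg u]

/-- the law of an affine image -/
noncomputable def normAff (μ : Measure ℝ) [IsProbabilityMeasure μ] (m s : ℝ) :
    ProbabilityMeasure ℝ :=
  ⟨μ.map fun x => (x - m) / s, Measure.isProbabilityMeasure_map (by fun_prop)⟩

theorem norm_charFun (μ : Measure ℝ) [IsProbabilityMeasure μ] (m s t : ℝ) :
    charFun (normAff μ m s : Measure ℝ) t =
      Complex.exp (-(Complex.I * ((t * (m / s) : ℝ) : ℂ))) *
        ∫ x, Complex.exp (Complex.I * ((t / s * x : ℝ) : ℂ)) ∂μ := by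
  change charFun (μ.map fun x => (x - m) / s) t = _
  rw [charFun_apply_real, integral_map (by fun_prop) (by fun_prop), ← integral_const_mul]
  refine integral_congr_ae (ae_of_all _ fun x => ?_)
  simp only
  rw [← Complex.exp_add]
  congr 1
  push_cast
  ring

theorem norm_levy (P : ℕ → Measure ℝ) [∀ n, IsProbabilityMeasure (P n)] {σ2 : ℝ}
    (hch : ∀ θ : ℝ, Tendsto (fun p : ℕ × ℝ =>
      ∫ x, Complex.exp (Complex.I * ((p.2 * x : ℝ) : ℂ)) ∂P p.1) (FF θ)
      (𝓝 ((Real.exp (-(σ2 * θ ^ 2 / 2)) : ℝ) : ℂ)))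
    (m s : ℕ → ℝ) {c : ℝ} (hm : Tendsto (fun n => m n / s n) atTop (𝓝 0))
    (hs : Tendsto (fun n : ℕ => √n / s n) atTop (𝓝 c)) (v : NNReal) (hv : (v : ℝ) = σ2 * c ^ 2) :
    Tendsto (fun n => normAff (P n) (m n) (s n)) atTop
      (𝓝 (⟨gaussianReal 0 v, inferInstance⟩ : ProbabilityMeasure ℝ)) := by
  refine ProbabilityMeasure.tendsto_of_tendsto_charFun fun t => ?_
  simp only [norm_charFun]
  have h1 : Tendsto (fun n : ℕ => (n, t / s n)) atTop (FF (t * c)) := by
    refine tendsto_FF (n := fun n : ℕ => n) tendsto_id ?_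
    refine (hs.const_mul t).congr fun n => ?_
    ring
  have h2 := (hch (t * c)).comp h1
  have h3 : Tendsto (fun n => Complex.exp (-(Complex.I * ((t * (m n / s n) : ℝ) : ℂ)))) atTop
      (𝓝 (Complex.exp (-(Complex.I * ((t * 0 : ℝ) : ℂ))))) := by
    have hc : Continuous fun y : ℝ => Complex.exp (-(Complex.I * ((t * y : ℝ) : ℂ))) := by
      fun_prop
    exact (hc.tendsto 0).comp hm
  have h4 := h3.mul h2
  refine Tendsto.mono_right h4 (le_of_eq (congrArg _ ?_))
  symm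
  change charFun (gaussianReal 0 v) t = _
  rw [charFun_gaussianReal]
  have hv' : ((v : ℝ) : ℂ) = σ2 * c ^ 2 := by rw [hv]; push_cast; ring
  simp only [mul_zero, Complex.ofReal_zero, neg_zero, Complex.exp_zero, one_mul, zero_mul,
    zero_sub, hv']
  push_cast
  congr 1
  ring

theorem norm_main (P : ℕ → Measure ℝ) [∀ n, IsProbabilityMeasure (P n)]
    (h2 : ∀ n, MemLp id 2 (P n)) {σ2 : ℝ} (hσ : 0 < σ2)
    (hch : ∀ θ : ℝ, Tendsto (fun p : ℕ × ℝ =>
      ∫ x, Complex.exp (Complex.I * ((p.2 * x : ℝ) : ℂ)) ∂P p.1) (FF θ)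
      (𝓝 ((Real.exp (-(σ2 * θ ^ 2 / 2)) : ℝ) : ℂ)))
    (hui : ∀ ε : ℝ, 0 < ε → ∃ K : ℝ, ∀ᶠ n : ℕ in atTop, ∫ x, psi K (x / √n) ∂P n ≤ ε) :
    Tendsto (fun n : ℕ => (∫ x, x ∂P n) / √n) atTop (𝓝 0) ∧
    Tendsto (fun n : ℕ => Var[id; P n] / n) atTop (𝓝 σ2) ∧
    ∀ a : ℝ, Tendsto (fun n : ℕ => (P n).real {x | (x - ∫ y, y ∂P n) / √(Var[id; P n]) ≤ a}) atTop
      (𝓝 (cdf (gaussianReal 0 1) a)) := by
  have hsq : ∀ᶠ n : ℕ in atTop, 0 < √(n : ℝ) := by
    filter_upwards [eventually_gt_atTop 0] with n hn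
    exact Real.sqrt_pos.2 (by exact_mod_cast hn)
  have hQ := norm_levy P hch (fun _ => 0) (fun n => √n) (c := 1) (by simp)
    (tendsto_const_nhds.congr' (by
      filter_upwards [hsq] with n hn
      rw [div_self hn.ne'])) σ2.toNNReal (by simp [hσ.le])
  have hint : ∀ n : ℕ, ∀ f : ℝ → ℝ, Continuous f →
      ∫ u, f u ∂(normAff (P n) 0 √n : Measure ℝ) = ∫ x, f (x / √n) ∂P n := by
    intro n f hf
    change ∫ u, f u ∂((P n).map fun x => (x - 0) / √n) = _
    rw [integral_map (by fun_prop) hf.aestronglyMeasurable]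
    simp
  have hQ2 : ∀ n : ℕ, MemLp id 2 (normAff (P n) 0 √n : Measure ℝ) := by
    intro n
    change MemLp id 2 ((P n).map fun x => (x - 0) / √n)
    rw [memLp_map_measure_iff (by fun_prop) (by fun_prop)]
    have := (h2 n).mul_const (√n)⁻¹
    refine this.ae_eq (ae_of_all _ fun x => ?_)
    simp [div_eq_mul_inv]
  have hui' : ∀ ε : ℝ, 0 < ε → ∃ K : ℝ, ∀ᶠ n : ℕ in atTop,
      ∫ x, psi K x ∂(normAff (P n) 0 √n : Measure ℝ) ≤ ε := by
    intro ε hε
    obtain ⟨K, hK⟩ := hui ε hε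
    exact ⟨K, hK.mono fun n hn => by rw [hint n _ (norm_psi_continuous K)]; exact hn⟩
  have hG : MemLp id 2 (gaussianReal 0 σ2.toNNReal) := memLp_id_gaussianReal' 2 (by simp)
  have hm1 := norm_ui hQ hQ2 hG hui' (f := fun u => u) continuous_id norm_trunc_id
  have hm2 := norm_ui hQ hQ2 hG hui' (f := fun u => u ^ 2) (by fun_prop) norm_trunc_sq
  have hg1 : ∫ u, u ∂gaussianReal 0 σ2.toNNReal = 0 := integral_id_gaussianReal
  have hg2 : ∫ u, u ^ 2 ∂gaussianReal 0 σ2.toNNReal = σ2 := by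
    have := variance_eq_sub hG
    rw [variance_id_gaussianReal] at this
    simp only [id, Pi.pow_apply, hg1] at this
    rw [Real.coe_toNNReal _ hσ.le] at this
    linarith
  have hA : Tendsto (fun n : ℕ => (∫ x, x ∂P n) / √n) atTop (𝓝 0) := by
    have : Tendsto (fun n : ℕ => ∫ u, u ∂(normAff (P n) 0 √n : Measure ℝ)) atTop (𝓝 0) := by
      exact hm1.mono_right (le_of_eq (congrArg _ hg1))
    refine this.congr fun n => ?_
    rw [hint n (fun u => u) continuous_id, integral_div]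
  have hB : Tendsto (fun n : ℕ => Var[id; P n] / n) atTop (𝓝 σ2) := by
    have h1 : Tendsto (fun n : ℕ => ∫ u, u ^ 2 ∂(normAff (P n) 0 √n : Measure ℝ)) atTop
        (𝓝 σ2) := by
      exact hm2.mono_right (le_of_eq (congrArg _ hg2))
    have h3 := h1.sub (hA.pow 2)
    rw [show σ2 - (0 : ℝ) ^ 2 = σ2 by ring] at h3
    refine h3.congr fun n => ?_
    rw [hint n (fun u => u ^ 2) (by fun_prop), variance_eq_sub (h2 n)]
    simp only [div_pow, Real.sq_sqrt (Nat.cast_nonneg n), integral_div, id, Pi.pow_apply]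
    ring
  refine ⟨hA, hB, fun a => ?_⟩
  have hs : Tendsto (fun n : ℕ => √n / √(Var[id; P n])) atTop (𝓝 (√σ2)⁻¹) := by
    have := hB.sqrt.inv₀ (Real.sqrt_pos.2 hσ).ne'
    refine this.congr fun n => ?_
    rw [Real.sqrt_div' _ (Nat.cast_nonneg n), inv_div]
  have hm : Tendsto (fun n : ℕ => (∫ x, x ∂P n) / √(Var[id; P n])) atTop (𝓝 0) := by
    have := hA.mul hs
    rw [zero_mul] at this
    refine this.congr' ?_
    filter_upwards [hsq] with n hn
    field_simp
  have hR := norm_levy P hch (fun n => ∫ x, x ∂P n) (fun n => √(Var[id; P n])) hm hs 1 (by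
    rw [inv_pow, Real.sq_sqrt hσ.le, mul_inv_cancel₀ hσ.ne']; simp)
  have hnull : (gaussianReal 0 1) (frontier (Set.Iic a)) = 0 := by
    have := nullSingletonClass_gaussianReal (μ := 0) (v := 1) one_ne_zero
    rw [frontier_Iic]
    exact measure_singleton a
  have h5 := ProbabilityMeasure.tendsto_measure_of_null_frontier_of_tendsto' hR hnull
  have h6 := (ENNReal.tendsto_toReal (measure_ne_top (gaussianReal 0 1) (Set.Iic a))).comp h5
  rw [cdf_eq_real]
  refine h6.congr fun n => ?_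
  change (((P n).map fun x => (x - ∫ x, x ∂P n) / √(Var[id; P n])) (Set.Iic a)).toReal = _
  rw [Measure.map_apply (by fun_prop) measurableSet_Iic]
  rfl

theorem standardise (P : ℕ → Measure ℝ) (hP : ∀ᶠ n in atTop, IsProbabilityMeasure (P n))
    (h2 : ∀ n, MemLp id 2 (P n)) {σ2 : ℝ} (hσ : 0 < σ2)
    (hch : ∀ θ : ℝ, Tendsto (fun p : ℕ × ℝ =>
      ∫ x, Complex.exp (Complex.I * ((p.2 * x : ℝ) : ℂ)) ∂P p.1) (FF θ)
      (𝓝 ((Real.exp (-(σ2 * θ ^ 2 / 2)) : ℝ) : ℂ)))
    (hui : ∀ ε : ℝ, 0 < ε → ∃ K : ℝ, ∀ᶠ n : ℕ in atTop, ∫ x, psi K (x / √n) ∂P n ≤ ε) :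
    Tendsto (fun n : ℕ => (∫ x, x ∂P n) / √n) atTop (𝓝 0) ∧
    Tendsto (fun n : ℕ => Var[id; P n] / n) atTop (𝓝 σ2) ∧
    ∀ a : ℝ, Tendsto (fun n : ℕ => (P n).real {x | (x - ∫ y, y ∂P n) / √(Var[id; P n]) ≤ a}) atTop
      (𝓝 (cdf (gaussianReal 0 1) a)) := by
  classical
  set P' : ℕ → Measure ℝ := fun n => if IsProbabilityMeasure (P n) then P n else Measure.dirac 0
    with hP'
  have : ∀ n, IsProbabilityMeasure (P' n) := fun n => by
    simp only [hP']
    split_ifs with h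
    · exact h
    · infer_instance
  have he : ∀ᶠ n in atTop, P' n = P n := hP.mono fun n hn => by simp only [hP', if_pos hn]
  have h2' : ∀ n, MemLp id 2 (P' n) := fun n => by
    simp only [hP']
    split_ifs with h
    · exact h2 n
    · exact (memLp_const (0 : ℝ)).ae_eq (by
        rw [Filter.EventuallyEq, ae_dirac_eq]; simp)
  obtain ⟨hA, hB, hC⟩ := norm_main P' h2' hσ (fun θ => (hch θ).congr' (by
      filter_upwards [(FF_fst θ).eventually he] with p hp
      rw [hp]))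
    (fun ε hε => by
      obtain ⟨K, hK⟩ := hui ε hε
      refine ⟨K, ?_⟩
      filter_upwards [hK, he] with n hn hn'
      rw [hn']; exact hn)
  refine ⟨hA.congr' ?_, hB.congr' ?_, fun a => (hC a).congr' ?_⟩ <;>
  · filter_upwards [he] with n hn
    rw [hn]

end Pool.Agent.Lib.MP_77dff5_pr
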