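import Pool.Agent.Lib.MP_77dff5_pr.EqG
import Pool.Agent.Lib.MP_77dff5_pr.Norm
import Pool.Agent.Lib.MP_77dff5_pr.FamA

/-! From the local theorem to uniform labelled planar graphs. -/

set_option autoImplicit false

namespace Pool.Agent.Lib.MP_77dff5_pr

open MeasureTheory ProbabilityTheory Filter Topology
open scoped ENNReal NNReal

/-- the law of `X` under the uniform measure of a finite type -/
noncomputable def finalU {T : Type} [Fintype T] (X : T → ℝ) : Measure ℝ :=
  ((Fintype.card T : ℕ) : ℝ≥0∞)⁻¹ • ∑ t, Measure.dirac (X t)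

section unif
variable {T : Type} [Fintype T] (X : T → ℝ)

theorem finalU_lintegral (ψ : ℝ → ℝ≥0∞) :
    ∫⁻ u, ψ u ∂finalU X = ((Fintype.card T : ℕ) : ℝ≥0∞)⁻¹ * ∑ t, ψ (X t) := by
  rw [finalU, lintegral_smul_measure, lintegral_finsetSum_measure, smul_eq_mul]
  simp only [lintegral_dirac]

theorem finalU_card_mul (ψ : ℝ → ℝ≥0∞) :
    ((Fintype.card T : ℕ) : ℝ≥0∞) * ∫⁻ u, ψ u ∂finalU X = ∑ t, ψ (X t) := by
  rw [finalU_lintegral]
  rcases isEmpty_or_nonempty T with h | h
  · simp
  · rw [← mul_assoc, ENNReal.mul_inv_cancel (by simp) (by simp), one_mul]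

theorem finalU_prob [Nonempty T] : IsProbabilityMeasure (finalU X) := by
  refine ⟨?_⟩
  rw [← lintegral_one, finalU_lintegral]
  simp only [Finset.sum_const, Finset.card_univ, nsmul_eq_mul, mul_one]
  exact ENNReal.inv_mul_cancel (by simp) (by simp)

theorem finalU_integrable {E : Type} [NormedAddCommGroup E] (f : ℝ → E) :
    Integrable f (finalU X) := by
  rcases isEmpty_or_nonempty T with h | h
  · simp [finalU]
  · refine Integrable.smul_measure ?_ (by simp)
    rw [integrable_finsetSum_measure]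
    exact fun t _ => integrable_dirac (by simp)

theorem finalU_integral (f : ℝ → ℝ) :
    ∫ u, f u ∂finalU X = (∑ t, f (X t)) / Fintype.card T := by
  rw [finalU, integral_smul_measure,
    integral_finsetSum_measure fun t _ => integrable_dirac (by simp)]
  simp only [integral_dirac, smul_eq_mul, ENNReal.toReal_inv, ENNReal.toReal_natCast]
  rw [div_eq_inv_mul]

theorem finalU_memLp : MemLp id 2 (finalU X) := by
  rw [memLp_two_iff_integrable_sq_norm aestronglyMeasurable_id]
  exact finalU_integrable X _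

theorem finalU_real {S : Set ℝ} (hS : MeasurableSet S) :
    (finalU X).real S = ({t | X t ∈ S}.ncard : ℝ) / Fintype.card T := by
  classical
  rw [← integral_indicator_one hS, finalU_integral]
  congr 1
  rw [Set.ncard_eq_toFinset_card', Set.toFinset_ofPred, Finset.card_filter]
  push_cast
  refine Finset.sum_congr rfl fun t _ => ?_
  by_cases h : X t ∈ S <;> simp [h]

end unif

noncomputable instance finalFintype (n : ℕ) : Fintype (PlanarGraph n) := Fintype.ofFinite _

/-- the law of the centred number of vertices of degree `k` -/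
noncomputable def finalP (k : ℕ) (mu : ℝ) (n : ℕ) : Measure ℝ :=
  finalU fun G : PlanarGraph n => degCount k G - mu * n

/-- the mass at size `n` -/
noncomputable def finalA (x : ℝ) (n : ℕ) : ℝ≥0∞ :=
  n * (ENNReal.ofReal x ^ n * ((n.factorial : ℕ) : ℝ≥0∞)⁻¹) * Fintype.card (PlanarGraph n)

theorem finalA_ne_top (x : ℝ) (n : ℕ) : finalA x n ≠ ⊤ := by
  unfold finalA
  refine ENNReal.mul_ne_top (ENNReal.mul_ne_top (by simp) (ENNReal.mul_ne_top
    (ENNReal.pow_ne_top ENNReal.ofReal_ne_top) ?_)) (by simp)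
  simp [Nat.factorial_ne_zero]

theorem final_restrict (x mu : ℝ) (k n : ℕ) :
    (slaw (meas (lhsB (wC (ENNReal.ofReal x)) (ENNReal.ofReal x) .G)) sB
      (zz sB (fun d => if d = k then 1 else 0) 0 mu)).restrict {p | p.1 = n} =
      finalA x n • (finalP k mu n).map fun u => (n, u) := by
  classical
  have hS : MeasurableSet {p : ℕ × ℝ | p.1 = n} := measurable_fst (measurableSet_singleton n)
  have hm : Measurable fun u : ℝ => (n, u) := by fun_prop
  refine Measure.ext_of_lintegral _ fun ψ hψ => ?_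
  rw [← lintegral_indicator hS, slaw, lintegral_map (hψ.indicator hS) (measurable_of_countable _),
    lintegral_meas, lintegral_smul_measure, lintegral_map hψ hm, smul_eq_mul, finalA, mul_assoc,
    finalP, finalU_card_mul]
  change ∑' ω, onU (fun ν => wG (ENNReal.ofReal x) ν * (ν.2.1 : ℝ≥0∞)) ω * _ = _
  rw [tsum_onU, mul_assoc]
  have h := graph_sum (ENNReal.ofReal x) n k fun u => ψ (n, u - mu * n)
  rw [tsum_fintype (β := PlanarGraph n)] at h
  rw [← h, ← ENNReal.tsum_mul_left]
  refine tsum_congr fun ν => ?_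
  by_cases hν : ν.2.1 = n
  · have h1 : sB (.inr (.inr ν)) = n := hν
    rw [Set.indicator_of_mem (by exact h1)]
    simp only [zz, h1, ind, if_pos hν, zero_mul, add_zero, mul_one]
    rw [hν]
    ring
  · have h1 : sB (.inr (.inr ν)) ≠ n := hν
    rw [Set.indicator_of_notMem (by exact h1)]
    simp only [ind, if_neg hν, mul_zero, zero_mul]

theorem final_ch (x mu : ℝ) (k n : ℕ) (θ : ℝ) :
    ch (slaw (meas (lhsB (wC (ENNReal.ofReal x)) (ENNReal.ofReal x) .G)) sB
      (zz sB (fun d => if d = k then 1 else 0) 0 mu)) n θ =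
      ((finalA x n).toReal : ℂ) *
        ∫ u, Complex.exp (Complex.I * ((θ * u : ℝ) : ℂ)) ∂finalP k mu n := by
  rw [ch, final_restrict, integral_smul_measure, integral_map (by fun_prop) (by fun_prop),
    Complex.real_smul]

theorem final_m2 (x mu : ℝ) (k n : ℕ) (K : ℝ) :
    m2 (slaw (meas (lhsB (wC (ENNReal.ofReal x)) (ENNReal.ofReal x) .G)) sB
      (zz sB (fun d => if d = k then 1 else 0) 0 mu)) n K =
      ENNReal.ofReal ((finalA x n).toReal * ∫ u, psi K (u / √n) ∂finalP k mu n) := by
  have hc := norm_psi_continuous K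
  rw [m2, final_restrict, lintegral_smul_measure, lintegral_map (by fun_prop) (by fun_prop),
    smul_eq_mul, ENNReal.ofReal_mul ENNReal.toReal_nonneg,
    ENNReal.ofReal_toReal (finalA_ne_top x n), finalP,
    ofReal_integral_eq_lintegral_ofReal (finalU_integrable _ _)
      (ae_of_all _ fun u => norm_psi_nonneg K (u / √n))]

theorem final_avg (n : ℕ) (X : PlanarGraph n → ℝ) :
    avg n X = (∑ G, X G) / Fintype.card (PlanarGraph n) := by
  rw [avg, finsum_eq_sum_of_fintype, Nat.card_eq_fintype_card]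

theorem final_mean (k : ℕ) (mu : ℝ) (n : ℕ) [Nonempty (PlanarGraph n)] :
    ∫ u, u ∂finalP k mu n = meanX k n - mu * n := by
  have h0 : (Fintype.card (PlanarGraph n) : ℝ) ≠ 0 := by simp
  rw [finalP, finalU_integral, meanX, final_avg, Finset.sum_sub_distrib, Finset.sum_const,
    Finset.card_univ, nsmul_eq_mul]
  field_simp

theorem final_var (k : ℕ) (mu : ℝ) (n : ℕ) [Nonempty (PlanarGraph n)] :
    Var[id; finalP k mu n] = varX k n := by
  rw [variance_eq_integral aemeasurable_id]
  change ∫ u, (u - ∫ u, u ∂finalP k mu n) ^ 2 ∂finalP k mu n = _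
  rw [final_mean, finalP, finalU_integral, varX, final_avg]
  congr 1
  refine Finset.sum_congr rfl fun G _ => ?_
  ring

theorem final_cdf (k : ℕ) (mu : ℝ) (n : ℕ) [Nonempty (PlanarGraph n)] (a : ℝ) :
    (finalP k mu n).real {u | (u - ∫ y, y ∂finalP k mu n) / √(Var[id; finalP k mu n]) ≤ a} =
      cdfX k n a := by
  rw [final_var, final_mean, finalP,
    finalU_real _ (measurableSet_le (by fun_prop) measurable_const), cdfX,
    Nat.card_eq_fintype_card]
  congr 3
  ext G
  simp only [Set.mem_ofPred_eq, sub_sub_sub_cancel_right]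

theorem final_step {x mu c σ2 : ℝ} (hx : 0 < x) (hc : 0 < c) (hσ : 0 < σ2) (k : ℕ)
    (h1 : Lim (slaw (meas (lhsB (wC (ENNReal.ofReal x)) (ENNReal.ofReal x) .G)) sB
      (zz sB (fun d => if d = k then 1 else 0) 0 mu)) c σ2)
    (h2 : UIB (slaw (meas (lhsB (wC (ENNReal.ofReal x)) (ENNReal.ofReal x) .G)) sB
      (zz sB (fun d => if d = k then 1 else 0) 0 mu))) :
    Tendsto (fun n : ℕ => (meanX k n - mu * n) / √n) atTop (𝓝 0) ∧
    Tendsto (fun n : ℕ => varX k n / n) atTop (𝓝 σ2) ∧
      ∀ a : ℝ, Tendsto (fun n => cdfX k n a) atTop (𝓝 (cdf (gaussianReal 0 1) a)) := by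
  have _ := hx
  have hz : Tendsto (fun n : ℕ => ((n, 0) : ℕ × ℝ)) atTop (FF 0) := by
    rw [FF, tendsto_comap_iff]
    refine tendsto_id.prodMk ?_
    simp only [zero_mul]
    exact tendsto_const_nhds
  have h0 := (h1 0).comp hz
  simp only [Function.comp_def, final_ch, zero_mul, Complex.ofReal_zero, mul_zero,
    Complex.exp_zero, integral_const, ne_eq, OfNat.ofNat_ne_zero, not_false_eq_true, zero_pow,
    zero_div, neg_zero, Real.exp_zero, mul_one] at h0
  have hne : ∀ᶠ n : ℕ in atTop, Nonempty (PlanarGraph n) := by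
    have hc' : (c : ℂ) ≠ 0 := by exact_mod_cast hc.ne'
    filter_upwards [h0.eventually_ne hc'] with n hn
    by_contra hE
    rw [not_nonempty_iff] at hE
    apply hn
    simp [finalA]
  have hP : ∀ᶠ n : ℕ in atTop, IsProbabilityMeasure (finalP k mu n) :=
    hne.mono fun n hn => finalU_prob _
  have hA : Tendsto (fun n : ℕ => (n : ℝ) ^ (5 / 2 : ℝ) * (finalA x n).toReal) atTop (𝓝 c) := by
    have h3 := (Complex.continuous_re.tendsto _).comp h0
    refine h3.congr' ?_
    filter_upwards [hP] with n hn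
    simp only [Function.comp_def, probReal_univ, one_smul, mul_one, ← Complex.ofReal_mul,
      Complex.ofReal_re]
  obtain ⟨hM, hB, hC⟩ := standardise (finalP k mu) hP (fun n => finalU_memLp _) hσ
    (fun θ => by
      have h3 := h1 θ
      simp only [final_ch] at h3
      have h4 := (Complex.continuous_ofReal.tendsto c).comp (hA.comp (FF_fst θ))
      have hc' : (c : ℂ) ≠ 0 := by exact_mod_cast hc.ne'
      have h5 := h3.div h4 hc'
      rw [Complex.ofReal_mul, mul_div_cancel_left₀ _ hc'] at h5
      refine h5.congr' ?_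
      filter_upwards [h4.eventually_ne hc'] with p hp
      simp only [Function.comp_def, Pi.div_apply] at hp ⊢
      rw [← mul_assoc, ← Complex.ofReal_mul, mul_div_cancel_left₀ _ hp])
    (fun ε hε => by
      obtain ⟨K, -, hK⟩ := h2 (ε * (c / 2)) (by positivity)
      refine ⟨K, ?_⟩
      filter_upwards [hK, hA.eventually (lt_mem_nhds (half_lt_self hc)), eventually_ge_atTop 1]
        with n hn hn' hn1
      have hn0 : (0 : ℝ) < n := by exact_mod_cast hn1
      have hp : (0 : ℝ) < (n : ℝ) ^ (5 / 2 : ℝ) := Real.rpow_pos_of_pos hn0 _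
      rw [final_m2, ENNReal.ofReal_le_ofReal_iff (by positivity), Real.rpow_neg hn0.le,
        ← div_eq_mul_inv, le_div_iff₀ hp] at hn
      have hI : 0 ≤ ∫ u, psi K (u / √n) ∂finalP k mu n :=
        integral_nonneg fun u => norm_psi_nonneg K _
      have h6 : c / 2 * ∫ u, psi K (u / √n) ∂finalP k mu n ≤ c / 2 * ε := by nlinarith
      exact le_of_mul_le_mul_left h6 (half_pos hc))
  refine ⟨hM.congr' ?_, hB.congr' ?_, fun a => (hC a).congr' ?_⟩
  · filter_upwards [hne] with n hn
    rw [final_mean]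
  · filter_upwards [hne] with n hn
    rw [final_var]
  · filter_upwards [hne] with n hn
    rw [final_cdf]

end Pool.Agent.Lib.MP_77dff5_pr
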