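import Pool.Agent.Lib.MP_77dff5_pr.Stmt

/-! Multigraphs as maps `E × Bool → V` from darts to vertices, rotation systems, networks. -/

set_option autoImplicit false

namespace Pool.Agent.Lib.MP_77dff5_pr

open scoped ENNReal

/-- the other end of an edge -/
def flp (E : Type) : Equiv.Perm (E × Bool) := Equiv.prodCongr (Equiv.refl E) Equiv.boolNot

/-- `σ` is a rotation system for the vertex map `ν` -/
def IsRot {D V : Type} (ν : D → V) (σ : Equiv.Perm D) : Prop :=
  ∀ x y, σ.SameCycle x y ↔ ν x = ν y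

/-- Euler's relation for a connected hypermap -/
def Gen0 {D : Type} (σ α : Equiv.Perm D) : Prop :=
  ncyc σ + ncyc α + ncyc (σ * α) = Nat.card D + 2

/-- number of genus zero rotation systems -/
noncomputable def emb {D V : Type} (ν : D → V) (α : Equiv.Perm D) : ℕ :=
  Nat.card {σ : Equiv.Perm D // IsRot ν σ ∧ Gen0 σ α}

/-- all darts are connected -/
def Conn {D V : Type} (ν : D → V) (α : Equiv.Perm D) : Prop :=
  ∀ x y, Relation.EqvGen (fun a b => ν a = ν b ∨ b = α a) x y

/-- the group generated by `σ` and `α` is transitive -/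
def Trans2 {D : Type} (σ α : Equiv.Perm D) : Prop :=
  ∀ x y, Relation.EqvGen (fun a b => b = σ a ∨ b = α a) x y

/-- number of orbits of the group generated by `σ` and `α` -/
noncomputable def ncomp {D : Type} (σ α : Equiv.Perm D) : ℕ :=
  Nat.card (Quot fun a b : D => b = σ a ∨ b = α a)

/-- degree of a vertex -/
noncomputable def deg {D V : Type} (ν : D → V) (v : V) : ℕ := Nat.card {x // ν x = v}

/-- no loops and no parallel edges -/
def Simple {E V : Type} (ν : E × Bool → V) : Prop :=
  (∀ x, ν (flp E x) ≠ ν x) ∧ ∀ x y, ν x = ν y → ν (flp E x) = ν (flp E y) → x = y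

/-- surjective and connected -/
def SConn {E V : Type} (ν : E × Bool → V) : Prop := Function.Surjective ν ∧ Conn ν (flp E)

/-- number of connected components of a multigraph, isolated vertices included -/
noncomputable def comps {E V : Type} (ν : E × Bool → V) : ℕ :=
  Nat.card (Quot fun u v : V => ∃ x, ν x = u ∧ ν (flp E x) = v)

/-- planarity of a possibly disconnected multigraph -/
def PlanarU {E V : Type} (ν : E × Bool → V) : Prop :=
  ∃ σ, IsRot ν σ ∧
    Nat.card V + (ncyc (σ * flp E) + (Set.range ν)ᶜ.ncard) = Nat.card E + 2 * comps ν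

/-! Rooted graphs `E × Bool → Option V`, the root vertex is `none`. -/

/-- add a stem at the root vertex -/
def stem {E V : Type} (R : E × Bool → Option V) : Option (E × Bool) → Option V := fun o => o.bind R

/-- rooted and connected (the one-vertex graph included) -/
def RConn {E V : Type} (R : E × Bool → Option V) : Prop :=
  Function.Surjective (stem R) ∧ Conn (stem R) (flp E).optionCongr

/-- number of planar embeddings with a marked corner at the root -/
noncomputable def embS {E V : Type} (R : E × Bool → Option V) : ℕ :=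
  emb (stem R) (flp E).optionCongr

/-- add a loop at the root -/
def cloL {E V : Type} (R : E × Bool → Option V) : Option E × Bool → Option V :=
  fun x => x.1.bind fun e => R (e, x.2)

/-- glue two rooted graphs at their roots -/
def merge {E₁ V₁ E₂ V₂ : Type} (R₁ : E₁ × Bool → Option V₁) (R₂ : E₂ × Bool → Option V₂) :
    (E₁ ⊕ E₂) × Bool → Option (V₁ ⊕ V₂) :=
  fun x => x.1.elim (fun e => (R₁ (e, x.2)).map Sum.inl) fun e => (R₂ (e, x.2)).map Sum.inr

/-- disjoint union of a rooted graph and a graph -/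
def union {E₁ V₁ E₂ V₂ : Type} (R : E₁ × Bool → Option V₁) (ν : E₂ × Bool → V₂) :
    (E₁ ⊕ E₂) × Bool → Option (V₁ ⊕ V₂) :=
  fun x => x.1.elim (fun e => (R (e, x.2)).map Sum.inl) fun e => some (Sum.inr (ν (e, x.2)))

/-! Graphs with two poles `E × Bool → Bool ⊕ V`. -/

/-- add the root edge between the poles -/
def clo {E V : Type} (N : E × Bool → Bool ⊕ V) : Option E × Bool → Bool ⊕ V :=
  fun x => x.1.elim (Sum.inl x.2) fun e => N (e, x.2)

/-- identify the two poles -/
def contract {E V : Type} (N : E × Bool → Bool ⊕ V) : E × Bool → Option V :=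
  fun x => (N x).elim (fun _ => none) some

/-- exchange the two poles -/
def swapP {E V : Type} (N : E × Bool → Bool ⊕ V) : E × Bool → Bool ⊕ V :=
  fun x => (N x).map not id

/-- vertices met both by `X` and by its complement -/
def bd {E V : Type} (ν : E × Bool → V) (X : Set E) : Set V :=
  {v | (∃ x, x.1 ∈ X ∧ ν x = v) ∧ ∃ x, x.1 ∉ X ∧ ν x = v}

/-- nonseparable -/
def Nonsep {E V : Type} (ν : E × Bool → V) : Prop :=
  ∀ X : Set E, X.Nonempty → Xᶜ.Nonempty → 2 ≤ (bd ν X).ncard

/-- network: nonseparable after adding the root edge -/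
def IsNet {E V : Type} (N : E × Bool → Bool ⊕ V) : Prop :=
  Nonempty E ∧ Function.Surjective (clo N) ∧ Nonsep (clo N)

/-- a network, or the two poles alone -/
def IsBlock {E V : Type} (N : E × Bool → Bool ⊕ V) : Prop := (IsEmpty E ∧ IsEmpty V) ∨ IsNet N

/-- single edge -/
def IsE {E V : Type} (_N : E × Bool → Bool ⊕ V) : Prop := Nat.card E = 1

/-- parallel -/
def IsP {E V : Type} (N : E × Bool → Bool ⊕ V) : Prop :=
  ∃ X : Set E, X.Nonempty ∧ Xᶜ.Nonempty ∧ bd (clo N) (some '' X) ⊆ Set.range Sum.inl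

/-- series -/
def IsS {E V : Type} (N : E × Bool → Bool ⊕ V) : Prop :=
  ∃ X : Set E, (∀ x, N x = Sum.inl true → x.1 ∈ X) ∧ (∀ x, N x = Sum.inl false → x.1 ∉ X) ∧
    (bd (clo N) (some '' X)).ncard ≤ 2

/-- neither an edge, nor parallel, nor series -/
def IsT {E V : Type} (N : E × Bool → Bool ⊕ V) : Prop := ¬IsE N ∧ ¬IsP N ∧ ¬IsS N

/-- no edge joins the two poles -/
def NoDir {E V : Type} (N : E × Bool → Bool ⊕ V) : Prop :=
  ∀ x, ¬(N x = Sum.inl true ∧ N (flp E x) = Sum.inl false)

/-- 3-connected after adding the root edge -/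
def Core3 {E V : Type} (t : E × Bool → Bool ⊕ V) : Prop :=
  IsNet t ∧ 3 ≤ Nat.card E ∧
    ∀ X : Set (Option E), 2 ≤ X.ncard → 2 ≤ Xᶜ.ncard → 3 ≤ (bd (clo t) X).ncard

/-- substitute the networks `N i` for the edges of `t` -/
def glue {I W : Type} {E V : I → Type} (t : I × Bool → Bool ⊕ W)
    (N : ∀ i, E i × Bool → Bool ⊕ V i) : (Σ i, E i) × Bool → Bool ⊕ (W ⊕ Σ i, V i) :=
  fun x => (N x.1.1 (x.1.2, x.2)).elim (fun c => (t (x.1.1, c)).map id Sum.inl)
    fun v => Sum.inr (Sum.inr ⟨x.1.1, v⟩)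

/-- attach the rooted graphs `R i` at the vertices `pos i` of `N` -/
def attach {E₀ V₀ I : Type} {E V : I → Type} (N : E₀ × Bool → Bool ⊕ V₀) (pos : I → Bool ⊕ V₀)
    (R : ∀ i, E i × Bool → Option (V i)) :
    (E₀ ⊕ Σ i, E i) × Bool → Bool ⊕ (V₀ ⊕ Σ i, V i) :=
  fun x => x.1.elim (fun e => (N (e, x.2)).map id Sum.inl) fun e =>
    (R e.1 (e.2, x.2)).elim ((pos e.1).map id Sum.inl) fun v => Sum.inr (Sum.inr ⟨e.1, v⟩)

/-- the single edge network -/
def edgeN : Fin 1 × Bool → Bool ⊕ Fin 0 := fun x => Sum.inl x.2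

/-- two edges in series -/
def tri : Fin 2 × Bool → Bool ⊕ Unit :=
  fun x => if x = (0, true) then Sum.inl true else if x = (1, false) then Sum.inl false
    else Sum.inr ()

/-- `j` edges in parallel -/
def bond (j : ℕ) : Fin j × Bool → Bool ⊕ Empty := fun x => Sum.inl x.2

/-! Labelled sums. -/

/-- rooted graphs -/
abbrev RG : Type := Σ m : ℕ, Σ n : ℕ, Fin m × Bool → Option (Fin n)

/-- graphs with two poles -/
abbrev NG : Type := Σ m : ℕ, Σ n : ℕ, Fin m × Bool → Bool ⊕ Fin n

/-- graphs -/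
abbrev UG : Type := Σ m : ℕ, Σ n : ℕ, Fin m × Bool → Fin n

/-- normalisation of the labels -/
noncomputable def wt (m n : ℕ) : ℝ≥0∞ := ((m.factorial * 2 ^ m * n.factorial : ℕ) : ℝ≥0∞)⁻¹

open Classical in
/-- indicator -/
noncomputable def ind (p : Prop) : ℝ≥0∞ := if p then 1 else 0

/-- the one-vertex rooted graph -/
def triv : RG := ⟨0, 0, fun x => x.1.elim0⟩

/-- weight of rooted planar maps with a marked root corner -/
noncomputable def w0 (R : RG) : ℝ≥0∞ := wt R.1 R.2.1 * ind (RConn R.2.2) * embS R.2.2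

/-- bijections of darts that respect edges -/
def DIso (E E' : Type) : Type :=
  {u : E × Bool ≃ E' × Bool // ∀ x, u (flp E x) = flp E' (u x)}

/-- functionals of graphs with two poles -/
abbrev NFun : Type 1 := ∀ (E V : Type) [Fintype E] [Fintype V], (E × Bool → Bool ⊕ V) → ℝ≥0∞

/-- functionals of rooted graphs -/
abbrev RFun : Type 1 := ∀ (E V : Type) [Fintype E] [Fintype V], (E × Bool → Option V) → ℝ≥0∞

/-- functionals of graphs with a marked vertex -/
abbrev VFun : Type 1 := ∀ (E V : Type) [Fintype E] [Fintype V], (E × Bool → V) → V → ℝ≥0∞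

/-- functionals of graphs with a marked dart -/
abbrev DFun : Type 1 :=
  ∀ (E V : Type) [Fintype E] [Fintype V], (E × Bool → V) → E × Bool → ℝ≥0∞

def NInv (Ψ : NFun) : Prop :=
  ∀ (E V E' V' : Type) [Fintype E] [Fintype V] [Fintype E'] [Fintype V'] (u : DIso E E')
    (e : V ≃ V') (N : E × Bool → Bool ⊕ V) (N' : E' × Bool → Bool ⊕ V'),
    (∀ x, N' (u.1 x) = (N x).map id e) → Ψ E' V' N' = Ψ E V N

def RInv (Ψ : RFun) : Prop :=
  ∀ (E V E' V' : Type) [Fintype E] [Fintype V] [Fintype E'] [Fintype V'] (u : DIso E E')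
    (e : V ≃ V') (N : E × Bool → Option V) (N' : E' × Bool → Option V'),
    (∀ x, N' (u.1 x) = (N x).map e) → Ψ E' V' N' = Ψ E V N

def VInv (Ψ : VFun) : Prop :=
  ∀ (E V E' V' : Type) [Fintype E] [Fintype V] [Fintype E'] [Fintype V'] (u : DIso E E')
    (e : V ≃ V') (N : E × Bool → V) (N' : E' × Bool → V') (v : V),
    (∀ x, N' (u.1 x) = e (N x)) → Ψ E' V' N' (e v) = Ψ E V N v

def DInv (Ψ : DFun) : Prop :=
  ∀ (E V E' V' : Type) [Fintype E] [Fintype V] [Fintype E'] [Fintype V'] (u : DIso E E')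
    (e : V ≃ V') (N : E × Bool → V) (N' : E' × Bool → V') (y : E × Bool),
    (∀ x, N' (u.1 x) = e (N x)) → Ψ E' V' N' (u.1 y) = Ψ E V N y

/-- degree counts of the non-root vertices -/
noncomputable def zeta {E V : Type} [Fintype V] (R : E × Bool → Option V) : ℕ →₀ ℕ :=
  ∑ v, Finsupp.single (deg R (some v)) 1

/-- number of non-loop darts from a vertex of degree `i` to a vertex of degree `j`, degrees being
given by `d` -/
noncomputable def pairC {E V : Type} (ν : E × Bool → V) (d : V → ℕ) (i j : ℕ) : ℕ :=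
  Nat.card {x // ν (flp E x) ≠ ν x ∧ d (ν x) = i ∧ d (ν (flp E x)) = j}

end Pool.Agent.Lib.MP_77dff5_pr
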