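import Pool.Agent.Lib.MP_77dff5_pr.BCLT

/-! The local central limit theorem for a general degree statistic. -/

set_option autoImplicit false

namespace Pool.Agent.Lib.MP_77dff5_pr

open MeasureTheory ProbabilityTheory Filter Topology
open scoped ENNReal NNReal

/-- a star and a path with different statistics -/
theorem joint_atoms {x : ℝ≥0∞} (hx : x ≠ 0) {k : ℕ} {f : ℕ → ℝ} (hn : ∃ d, 1 ≤ d ∧ f d ≠ f 1)
    (hf : EvC f k) : ∃ R R' : RG, wC x R ≠ 0 ∧ wC x R' ≠ 0 ∧ rc R = rc R' ∧ R.2.1 = R'.2.1 ∧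
      rF f R ≠ rF f R' := by
  obtain ⟨a, ha⟩ : ∃ a : ℕ, f (a + 1) + a * f 1 ≠ a * f 2 + f 1 := by
    by_contra! h
    obtain ⟨d, h1, h2⟩ := hn
    obtain ⟨d, rfl⟩ : ∃ e, d = e + 1 := ⟨d - 1, by omega⟩
    have a1 := h k
    have a2 := h (k + 1)
    have a3 := h d
    rw [hf (k + 1 + 1) (by omega)] at a2
    push_cast at a2
    have a4 : f 2 = f 1 := by linarith
    rw [a4] at a3
    exact h2 (by linarith)
  refine ⟨⟨a + 1, a + 1, atoms_T (atoms_star _)⟩, ⟨a + 1, a + 1, atoms_T (atoms_path _)⟩,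
    atoms_T_w hx (atoms_star_lt _), atoms_T_w hx (atoms_path_lt _), ?_, rfl, ?_⟩
  · change deg (atoms_T (atoms_star _)) none = deg (atoms_T (atoms_path _)) none
    rw [atoms_T_deg, atoms_T_deg, Fin.sum_univ_succ, Fin.sum_univ_succ (f := fun e =>
      if atoms_path _ e = none then 1 else 0)]
    simp [atoms_star, atoms_path]
  · rwa [atoms_star_rF, atoms_path_rF]

variable {w x : ℝ}

/-- the conditional variance of the cores is linear with a positive slope -/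
theorem joint_q_pos (h : BCrit w x) (hT : TFacts w) (hC : CT (xw w).toNNReal (tauw w).toNNReal)
    {k : ℕ} {f : ℕ → ℝ} (hn : ∃ d, 1 ≤ d ∧ f d ≠ f 1) (hf : EvC f k)
    {mu q c' : ℝ} (hs : Slots (nuB x) sB (zz sB f 0 mu))
    (hQ : WinLLN ((FB x f k 0 .H).pos (nuB x) sB) (fun t => (FB x f k 0 .H).w t)
      (fun t => ((FB x f k 0 .H).core t).Q (nuB x) (zz sB f 0 mu)) q) (hc' : 0 < c')
    (hl : ∀ᶠ y : ℝ in atTop, ENNReal.ofReal (c' * y ^ (-(11 / 6) : ℝ)) ≤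
      ∑' t : {t // y ≤ (FB x f k 0 .H).pos (nuB x) sB t ∧
        (FB x f k 0 .H).pos (nuB x) sB t ≤ y + y ^ (2 / 3 : ℝ)}, ((FB x f k 0 .H).w t : ℝ≥0∞)) :
    0 < q := by
  obtain ⟨-, -, b, C, hb, hbC⟩ := h.win hT hC f k 0
  obtain ⟨R, R', hR, hR', e1, e3, e4⟩ :=
    joint_atoms (x := ENNReal.ofReal x) (by simpa using h.pos) hn hf
  have a1 : nuB x .C {(Sum.inl R : Om)} ≠ 0 :=
    nrm_ne_zero (h.mass_ne .C).2 (ω := .inl R) hR (Set.mem_singleton _)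
  have a2 : nuB x .C {(Sum.inl R' : Om)} ≠ 0 :=
    nrm_ne_zero (h.mass_ne .C).2 (ω := .inl R') hR' (Set.mem_singleton _)
  have a3 : zz sB f 0 mu (.inl R) ≠ zz sB f 0 mu (.inl R') := by
    intro hz
    apply e4
    simp only [zz, FO, sB, e3, zero_mul, add_zero, sub_left_inj] at hz
    exact hz
  obtain ⟨v0, hv0, hle⟩ := tcore_le_Q (a := aO) (b := bO) (c := cO) (jD := JB.D) (jV := JB.C)
    hs hf a1 a2 e1 a3
  have hq : v0 * b ≤ q := by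
    refine hQ.le_of_le (C := v0 * C) hc' hl fun t => ?_
    have k1 := hle (t : TT).1 0 0
    have k2 := mul_le_mul_of_nonneg_left (hbC t) hv0.le
    change _ ≤ (Tcore aO bO cO JB.D JB.C f k (t : TT).1 0 0).Q (nuB x) (zz sB f 0 mu)
    linarith
  exact lt_of_lt_of_le (mul_pos hv0 hb) hq

theorem BCrit.joint_clt (h : BCrit w x) (hT : TFacts w) (hC : CT (xw w).toNNReal (tauw w).toNNReal)
    {k : ℕ} {f : ℕ → ℝ} (hn : ∃ d, 1 ≤ d ∧ f d ≠ f 1) (hf : EvC f k) : ∃ mu c σ2 : ℝ, 0 < c ∧ 0 < σ2 ∧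
      Lim (slaw (meas (lhsB (wC (ENNReal.ofReal x)) (ENNReal.ofReal x) .G)) sB
        (zz sB f 0 mu)) c σ2 ∧
      UIB (slaw (meas (lhsB (wC (ENNReal.ofReal x)) (ENNReal.ofReal x) .G)) sB
        (zz sB f 0 mu)) := by
  have hf0 : EvC (0 : ℕ → ℝ) 0 := fun _ _ => rfl
  obtain ⟨mu, P⟩ := h.prior hT hC hf 0
  obtain ⟨κ, P0⟩ := h.prior hT hC hf0 1
  have hm : (1 : ℝ) ≤ max κ 1 := le_max_right _ _
  have hρ0 : 0 < (2 * max κ 1)⁻¹.toNNReal := Real.toNNReal_pos.2 (by positivity)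
  have hρ1 : (2 * max κ 1)⁻¹.toNNReal ≤ 1 / 2 := by
    rw [Real.toNNReal_le_iff_le_coe]
    push_cast
    rw [one_div]
    exact inv_anti₀ (by norm_num) (by linarith)
  obtain ⟨η₀, -, hly⟩ := h.lyap hT
  obtain ⟨Δ, B, hg, hl, hH⟩ := h.good hT hf 0
  obtain ⟨hw, ⟨r, hr0, hr⟩, -⟩ := h.win hT hC f k 0
  have H : SysOK (nuB x) sB (zz sB f 0 mu) (FB x f k 0) (cB x (2 * max κ 1)⁻¹.toNNReal 0)
      .H .D Δ B := ⟨P.slots.toSlots1, hg, hl, hH, hw, hly f k 0 _ 0 hρ1 zero_le⟩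
  obtain ⟨A, h1⟩ := P.t1
  obtain ⟨c₀, hc₀, h4⟩ := P.t4
  obtain ⟨q, hQ⟩ := h.q_lln hT hC hf 0 mu P.slots
  obtain ⟨c, σ2, hc, hclt⟩ := P.clt
  obtain ⟨β, hβ0, hβ, hlim⟩ := H.lim P.slots
    (h.asym hT hf mu (P0.pmK .R) (P0.m2K .R) (P0.pmK .G)) P.pmJ h1 hc₀ h4 hQ
  have hb := h.beta_pos hT f k 0 hρ0 hβ0 hβ
  have hs : Summable fun t => ((FB x f k 0 .H).w t : ℝ) := by
    rw [h.H_w hT]
    exact hT.mass.summable
  obtain ⟨hσ, c', hc', hlow⟩ := hclt.lower hc hs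
  have hq : 0 < q := joint_q_pos h hT hC hn hf P.slots hQ hc' (hlow.mono fun _ g => g.1)
  refine ⟨mu, (∑ j, (FB x f k 0 .G).acoef j * β j) * c, σ2 + q, mul_pos hb hc, by linarith, ?_, ?_⟩
  · rw [h.law_fam hT hf 0 mu .G]
    intro θ
    have t1 := (hlim θ).2 .G
    rw [if_neg (by decide), add_zero] at t1
    have t2 := Fam.forward P.slots h1 hc₀ h4 hH hw hQ hclt r hr hr0 θ
    have t3 := t1.add (t2.const_mul ((∑ j, (FB x f k 0 .G).acoef j * β j : ℝ) : ℂ))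
    rw [zero_add, ← Complex.ofReal_mul, ← mul_assoc] at t3
    refine t3.congr fun p => ?_
    ring
  · rw [h.law_fam hT hf 0 mu .G]
    exact P.uiK .G

end Pool.Agent.Lib.MP_77dff5_pr
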