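import Pool.Agent.Lib.MP_77dff5_pr.Final
import Pool.Agent.Lib.MP_77dff5_pr.BCLT
import Pool.Agent.Lib.MP_77dff5_pr.ACLT

/-! The theorem. -/

set_option autoImplicit false

namespace Pool.Agent.Lib.MP_77dff5_pr

open MeasureTheory ProbabilityTheory Filter Topology
open scoped ENNReal NNReal

theorem main (k : ℕ) (hk : 1 ≤ k) : ∃ mu σ2 : ℝ, 0 < σ2 ∧
    Tendsto (fun n : ℕ => (meanX k n - mu * n) / √n) atTop (𝓝 0) ∧
    Tendsto (fun n : ℕ => varX k n / n) atTop (𝓝 σ2) ∧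
      ∀ a : ℝ, Tendsto (fun n => cdfX k n a) atTop (𝓝 (cdf (gaussianReal 0 1) a)) := by
  obtain ⟨w, hw⟩ := exists_wcrit
  have hw0 : 0 < w := lt_of_lt_of_le one_pos hw.1
  obtain ⟨x, hx⟩ := exists_bcrit hw (tfacts hw0)
  obtain ⟨mu, c, σ2, hc, hσ, h1, h2⟩ := hx.clt (tfacts hw0) (coreT hw0) hk
  exact ⟨mu, σ2, hσ, final_step hx.pos hc hσ k h1 h2⟩

end Pool.Agent.Lib.MP_77dff5_pr
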