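import Pool.Agent.Lib.MP_77dff5_pr.JointA
import Pool.Agent.Lib.MP_77dff5_pr.Main
import Pool.Agent.Lib.MP_77dff5_pr.Bridge

/-! From the local theorem to uniform labelled planar graphs, for a general degree statistic. -/

set_option autoImplicit false

namespace Pool.Agent.Lib.MP_77dff5_pr

open MeasureTheory ProbabilityTheory Filter Topology
open scoped ENNReal NNReal

/-- the sum of `f` over the degrees -/
noncomputable def jointF (f : ℕ → ℝ) (n : ℕ) (G : SimpleGraph (Fin n)) : ℝ :=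
  ∑ v, f (G.neighborSet v).ncard

/-- the law of the centred statistic -/
noncomputable def jointP (f : ℕ → ℝ) (mu : ℝ) (n : ℕ) : Measure ℝ :=
  finalU fun G : PlanarGraph n => jointF f n G.1 - mu * n

/-- the weights of graphs with `n` vertices are uniform on labelled planar graphs -/
theorem joint_graph_sum (x : ℝ≥0∞) (n : ℕ) (f : ℕ → ℝ) (ψ : ℝ → ℝ≥0∞) :
    ∑' ν, wG x ν * ind (ν.2.1 = n) * ψ (FO f (.inr (.inr ν))) =
      x ^ n * ((n.factorial : ℕ) : ℝ≥0∞)⁻¹ * ∑' G : PlanarGraph n, ψ (jointF f n G.1) := by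
  simp only [jointF]
  rw [planar_graph_sum n fun d => ψ (∑ v, f (d v)), ENNReal.tsum_sigma',
    ← ENNReal.tsum_mul_left]
  refine tsum_congr fun m => ?_
  rw [ENNReal.tsum_sigma', tsum_eq_single n, tsum_fintype, Finset.mul_sum]
  · refine Finset.sum_congr rfl fun ν _ => ?_
    have h2 : ((m.factorial * 2 ^ m : ℕ) : ℝ≥0∞)⁻¹ = ((m.factorial : ℕ) : ℝ≥0∞)⁻¹ * 2⁻¹ ^ m := by
      rw [Nat.cast_mul,
        ENNReal.mul_inv (Or.inr (ENNReal.natCast_ne_top _)) (Or.inl (ENNReal.natCast_ne_top _)),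
        Nat.cast_pow, Nat.cast_ofNat, ENNReal.inv_pow]
    simp only [wG, FO, labelA_wt, h2]
    rw [show ind True = 1 from if_pos trivial]
    ring
  · intro n' hn
    simp [ind, hn]

theorem joint_restrict (x mu : ℝ) (f : ℕ → ℝ) (n : ℕ) :
    (slaw (meas (lhsB (wC (ENNReal.ofReal x)) (ENNReal.ofReal x) .G)) sB
      (zz sB f 0 mu)).restrict {p | p.1 = n} =
      finalA x n • (jointP f mu n).map fun u => (n, u) := by
  classical
  have hS : MeasurableSet {p : ℕ × ℝ | p.1 = n} := measurable_fst (measurableSet_singleton n)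
  have hm : Measurable fun u : ℝ => (n, u) := by fun_prop
  refine Measure.ext_of_lintegral _ fun ψ hψ => ?_
  rw [← lintegral_indicator hS, slaw, lintegral_map (hψ.indicator hS) (measurable_of_countable _),
    lintegral_meas, lintegral_smul_measure, lintegral_map hψ hm, smul_eq_mul, finalA, mul_assoc,
    jointP, finalU_card_mul]
  change ∑' ω, onU (fun ν => wG (ENNReal.ofReal x) ν * (ν.2.1 : ℝ≥0∞)) ω * _ = _
  rw [tsum_onU, mul_assoc]
  have h := joint_graph_sum (ENNReal.ofReal x) n f fun u => ψ (n, u - mu * n)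
  rw [tsum_fintype (β := PlanarGraph n)] at h
  rw [← h, ← ENNReal.tsum_mul_left]
  refine tsum_congr fun ν => ?_
  by_cases hν : ν.2.1 = n
  · have h1 : sB (.inr (.inr ν)) = n := hν
    rw [Set.indicator_of_mem (by exact h1)]
    simp only [zz, h1, ind, if_pos hν, zero_mul, add_zero, mul_one]
    rw [hν]
    ring
  · have h1 : sB (.inr (.inr ν)) ≠ n := hν
    rw [Set.indicator_of_notMem (by exact h1)]
    simp only [ind, if_neg hν, mul_zero, zero_mul]

theorem joint_ch (x mu : ℝ) (f : ℕ → ℝ) (n : ℕ) (θ : ℝ) :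
    ch (slaw (meas (lhsB (wC (ENNReal.ofReal x)) (ENNReal.ofReal x) .G)) sB
      (zz sB f 0 mu)) n θ =
      ((finalA x n).toReal : ℂ) *
        ∫ u, Complex.exp (Complex.I * ((θ * u : ℝ) : ℂ)) ∂jointP f mu n := by
  rw [ch, joint_restrict, integral_smul_measure, integral_map (by fun_prop) (by fun_prop),
    Complex.real_smul]

theorem joint_m2 (x mu : ℝ) (f : ℕ → ℝ) (n : ℕ) (K : ℝ) :
    m2 (slaw (meas (lhsB (wC (ENNReal.ofReal x)) (ENNReal.ofReal x) .G)) sB
      (zz sB f 0 mu)) n K =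
      ENNReal.ofReal ((finalA x n).toReal * ∫ u, psi K (u / √n) ∂jointP f mu n) := by
  have hc := norm_psi_continuous K
  rw [m2, joint_restrict, lintegral_smul_measure, lintegral_map (by fun_prop) (by fun_prop),
    smul_eq_mul, ENNReal.ofReal_mul ENNReal.toReal_nonneg,
    ENNReal.ofReal_toReal (finalA_ne_top x n), jointP,
    ofReal_integral_eq_lintegral_ofReal (finalU_integrable _ _)
      (ae_of_all _ fun u => norm_psi_nonneg K (u / √n))]

theorem joint_step {x mu c σ2 : ℝ} (hx : 0 < x) (hc : 0 < c) (hσ : 0 < σ2) (f : ℕ → ℝ)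
    (h1 : Lim (slaw (meas (lhsB (wC (ENNReal.ofReal x)) (ENNReal.ofReal x) .G)) sB
      (zz sB f 0 mu)) c σ2)
    (h2 : UIB (slaw (meas (lhsB (wC (ENNReal.ofReal x)) (ENNReal.ofReal x) .G)) sB
      (zz sB f 0 mu))) :
    Tendsto (fun n : ℕ => (∫ u, u ∂jointP f mu n) / √n) atTop (𝓝 0) ∧
    Tendsto (fun n : ℕ => Var[id; jointP f mu n] / n) atTop (𝓝 σ2) ∧
      Tendsto (fun n : ℕ => ∫ u, Complex.exp (Complex.I * (((√n)⁻¹ * u : ℝ) : ℂ)) ∂jointP f mu n)
        atTop (𝓝 ((Real.exp (-(σ2 * 1 ^ 2 / 2)) : ℝ) : ℂ)) := by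
  have _ := hx
  have hz : Tendsto (fun n : ℕ => ((n, 0) : ℕ × ℝ)) atTop (FF 0) := by
    rw [FF, tendsto_comap_iff]
    refine tendsto_id.prodMk ?_
    simp only [zero_mul]
    exact tendsto_const_nhds
  have h0 := (h1 0).comp hz
  simp only [Function.comp_def, joint_ch, zero_mul, Complex.ofReal_zero, mul_zero,
    Complex.exp_zero, integral_const, ne_eq, OfNat.ofNat_ne_zero, not_false_eq_true, zero_pow,
    zero_div, neg_zero, Real.exp_zero, mul_one] at h0
  have hne : ∀ᶠ n : ℕ in atTop, Nonempty (PlanarGraph n) := by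
    have hc' : (c : ℂ) ≠ 0 := by exact_mod_cast hc.ne'
    filter_upwards [h0.eventually_ne hc'] with n hn
    by_contra hE
    rw [not_nonempty_iff] at hE
    apply hn
    simp [finalA]
  have hP : ∀ᶠ n : ℕ in atTop, IsProbabilityMeasure (jointP f mu n) :=
    hne.mono fun n hn => finalU_prob _
  have hA : Tendsto (fun n : ℕ => (n : ℝ) ^ (5 / 2 : ℝ) * (finalA x n).toReal) atTop (𝓝 c) := by
    have h3 := (Complex.continuous_re.tendsto _).comp h0
    refine h3.congr' ?_
    filter_upwards [hP] with n hn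
    simp only [Function.comp_def, probReal_univ, one_smul, mul_one, ← Complex.ofReal_mul,
      Complex.ofReal_re]
  have hch : ∀ θ : ℝ, Tendsto (fun p : ℕ × ℝ =>
      ∫ u, Complex.exp (Complex.I * ((p.2 * u : ℝ) : ℂ)) ∂jointP f mu p.1) (FF θ)
      (𝓝 ((Real.exp (-(σ2 * θ ^ 2 / 2)) : ℝ) : ℂ)) := fun θ => by
    have h3 := h1 θ
    simp only [joint_ch] at h3
    have h4 := (Complex.continuous_ofReal.tendsto c).comp (hA.comp (FF_fst θ))
    have hc' : (c : ℂ) ≠ 0 := by exact_mod_cast hc.ne'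
    have h5 := h3.div h4 hc'
    rw [Complex.ofReal_mul, mul_div_cancel_left₀ _ hc'] at h5
    refine h5.congr' ?_
    filter_upwards [h4.eventually_ne hc'] with p hp
    simp only [Function.comp_def, Pi.div_apply] at hp ⊢
    rw [← mul_assoc, ← Complex.ofReal_mul, mul_div_cancel_left₀ _ hp]
  obtain ⟨hM, hB, -⟩ := standardise (jointP f mu) hP (fun n => finalU_memLp _) hσ hch
    (fun ε hε => by
      obtain ⟨K, -, hK⟩ := h2 (ε * (c / 2)) (by positivity)
      refine ⟨K, ?_⟩
      filter_upwards [hK, hA.eventually (lt_mem_nhds (half_lt_self hc)), eventually_ge_atTop 1]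
        with n hn hn' hn1
      have hn0 : (0 : ℝ) < n := by exact_mod_cast hn1
      have hp : (0 : ℝ) < (n : ℝ) ^ (5 / 2 : ℝ) := Real.rpow_pos_of_pos hn0 _
      rw [joint_m2, ENNReal.ofReal_le_ofReal_iff (by positivity), Real.rpow_neg hn0.le,
        ← div_eq_mul_inv, le_div_iff₀ hp] at hn
      have hI : 0 ≤ ∫ u, psi K (u / √n) ∂jointP f mu n :=
        integral_nonneg fun u => norm_psi_nonneg K _
      have h6 : c / 2 * ∫ u, psi K (u / √n) ∂jointP f mu n ≤ c / 2 * ε := by nlinarith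
      exact le_of_mul_le_mul_left h6 (half_pos hc))
  have h1 : Tendsto (fun n : ℕ => ((n, (√n)⁻¹) : ℕ × ℝ)) atTop (FF 1) := by
    rw [FF, tendsto_comap_iff]
    refine tendsto_id.prodMk (tendsto_const_nhds.congr' ?_)
    filter_upwards [eventually_gt_atTop 0] with n hn
    exact (inv_mul_cancel₀ (Real.sqrt_pos.2 (by exact_mod_cast hn)).ne').symm
  have h7 := (hch 1).comp h1
  simp only [Function.comp_def] at h7
  exact ⟨hM, hB, h7⟩

theorem joint_integral (f : ℕ → ℝ) (mu : ℝ) (n : ℕ) (g : ℝ → ℝ) :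
    ∫ u, g u ∂jointP f mu n = ∫ G, g (jointF f n G - mu * n) ∂planarLaw n := by
  rw [jointP, finalU_integral, bridge_integral, final_avg]

theorem joint_law (f : ℕ → ℝ) (mu : ℝ) (n : ℕ) :
    jointP f mu n = (planarLaw n).map fun G => jointF f n G - mu * n := by
  have := bridge_discrete n
  have : Nonempty (PlanarGraph n) := ⟨⟨⊥, drawable_iff_isPlanar.1 (drawable_bot n)⟩⟩
  refine Measure.ext fun s hs => ?_
  have : IsProbabilityMeasure (jointP f mu n) := finalU_prob _
  rw [← ofReal_measureReal, ← ofReal_measureReal (μ := Measure.map _ _),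
    map_measureReal_apply Measurable.of_discrete hs, bridge_real, jointP, finalU_real _ hs,
    Nat.card_eq_fintype_card]
  rfl

theorem joint_main {k : ℕ} {f : ℕ → ℝ} (hn : ∃ d, 1 ≤ d ∧ f d ≠ f 1) (hf : EvC f k) :
    ∃ σ2 : ℝ, 0 < σ2 ∧ Tendsto (fun n : ℕ => Var[jointF f n; planarLaw n] / n) atTop (𝓝 σ2) ∧
      Tendsto (fun n : ℕ => ∫ G, Complex.exp ((((jointF f n G - ∫ H, jointF f n H ∂planarLaw n) /
        √n : ℝ) : ℂ) * Complex.I) ∂planarLaw n) atTop (𝓝 (Complex.exp (-(σ2 : ℂ) / 2))) := by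
  obtain ⟨w, hw⟩ := exists_wcrit
  have hw0 : 0 < w := lt_of_lt_of_le one_pos hw.1
  obtain ⟨x, hx⟩ := exists_bcrit hw (tfacts hw0)
  obtain ⟨mu, c, σ2, hc, hσ, h1, h2⟩ := hx.joint_clt (tfacts hw0) (coreT hw0) hn hf
  obtain ⟨a1, a2, a3⟩ := joint_step hx.pos hc hσ f h1 h2
  refine ⟨σ2, hσ, a2.congr fun n => ?_, ?_⟩
  · have := bridge_discrete n
    rw [joint_law, variance_map aemeasurable_id Measurable.of_discrete.aemeasurable]
    exact congrArg (· / (n : ℝ)) (variance_sub_const AEStronglyMeasurable.of_discrete _)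
  · have a4 := ((Complex.continuous_exp.tendsto _).comp (((Complex.continuous_ofReal.tendsto _).comp
      a1.neg).mul_const Complex.I)).mul a3
    rw [show Complex.exp (((-0 : ℝ) : ℂ) * Complex.I) * ((Real.exp (-(σ2 * 1 ^ 2 / 2)) : ℝ) : ℂ) =
      Complex.exp (-(σ2 : ℂ) / 2) by simp [neg_div]] at a4
    refine a4.congr fun n => ?_
    have := bridge_discrete n
    have e : ∫ u, u ∂jointP f mu n = ∫ H, jointF f n H ∂planarLaw n - mu * n := by
      rw [joint_integral f mu n fun u => u, integral_sub .of_finite .of_finite]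
      simp
    rw [Function.comp_apply, Function.comp_apply, e, joint_law,
      integral_map Measurable.of_discrete.aemeasurable (by fun_prop), ← integral_const_mul]
    refine integral_congr_ae (ae_of_all _ fun G => ?_)
    simp only
    rw [← Complex.exp_add]
    congr 1
    push_cast
    ring

end Pool.Agent.Lib.MP_77dff5_pr
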