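import Pool.Agent.Lib.MP_77dff5_pr.JointB

/-! The joint law of the degree counts. -/

set_option autoImplicit false

namespace Pool.Agent.Lib.MP_77dff5_pr

open MeasureTheory ProbabilityTheory Filter Topology Matrix

theorem joint_lin {K : ℕ} (t : Fin K → ℝ) (n : ℕ) :
    jointF (fun d => ∑ i : Fin K, if d = i + 1 then t i else 0) n =
      fun G => ∑ i : Fin K, t i * degNum (i + 1) n G := by
  classical
  funext G
  rw [jointF, Finset.sum_comm]
  refine Finset.sum_congr rfl fun i _ => ?_
  rw [← Finset.sum_filter, Finset.sum_const, nsmul_eq_mul, mul_comm, degNum,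
    ← Set.ncard_coe_finset]
  simp

theorem joint_comb {K : ℕ} {t : Fin K → ℝ} (ht : t ≠ 0) : ∃ σ2 : ℝ, 0 < σ2 ∧
    Tendsto (fun n : ℕ => ∑ i : Fin K, ∑ j : Fin K, t i * t j *
      (cov[degNum (i + 1) n, degNum (j + 1) n; planarLaw n] / n)) atTop (𝓝 σ2) ∧
    Tendsto (fun n : ℕ => ∫ G, Complex.exp (((∑ i : Fin K, t i * ((degNum (i + 1) n G -
      ∫ H, degNum (i + 1) n H ∂planarLaw n) / √n) : ℝ) : ℂ) * Complex.I) ∂planarLaw n) atTop
      (𝓝 (Complex.exp (-(σ2 : ℂ) / 2))) := by
  have h0 : ∀ d, K < d → (∑ i : Fin K, if d = i + 1 then t i else 0) = 0 := fun d hd =>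
    Finset.sum_eq_zero fun i _ => if_neg (by omega)
  obtain ⟨σ2, a1, a2, a3⟩ := joint_main (k := K)
    (f := fun d => ∑ i : Fin K, if d = i + 1 then t i else 0) (by
      by_contra! h
      obtain ⟨i, hi⟩ := Function.ne_iff.1 ht
      have b1 := h (i + 1) (by omega)
      rw [← h (K + 1) (by omega), h0 (K + 1) (by omega), Finset.sum_eq_single i (fun j _ e =>
        if_neg fun k => e (Fin.ext (by omega))) (by simp), if_pos rfl] at b1
      exact hi b1) fun d hd => (h0 d hd).trans (h0 _ (by omega)).symm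
  refine ⟨σ2, a1, a2.congr fun n => ?_, a3.congr fun n => ?_⟩
  · have := bridge_discrete n
    rw [joint_lin, variance_fun_sum fun _ => MemLp.of_discrete, Finset.sum_div]
    refine Finset.sum_congr rfl fun i _ => ?_
    rw [Finset.sum_div]
    refine Finset.sum_congr rfl fun j _ => ?_
    rw [covariance_const_mul_left, covariance_const_mul_right]
    ring
  · have := bridge_discrete n
    rw [joint_lin, integral_finsetSum _ fun _ _ => .of_finite]
    simp only [integral_const_mul, ← Finset.sum_sub_distrib, Finset.sum_div, ← mul_sub,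
      mul_div_assoc]

theorem joint_cov {K : ℕ} (i j : Fin K) : ∃ s : ℝ, Tendsto (fun n : ℕ =>
    cov[degNum (i + 1) n, degNum (j + 1) n; planarLaw n] / n) atTop (𝓝 s) := by
  have h1 : ∀ i : Fin K, ∃ s : ℝ, Tendsto (fun n : ℕ =>
      cov[degNum (i + 1) n, degNum (i + 1) n; planarLaw n] / n) atTop (𝓝 s) := fun i => by
    obtain ⟨s, -, h, -⟩ := joint_comb (t := Pi.single i (1 : ℝ)) (by simp)
    exact ⟨s, by simpa [Pi.single_apply, ite_mul] using h⟩
  obtain ⟨s, -, h, -⟩ := joint_comb (t := Pi.single i (1 : ℝ) + Pi.single j 1) (fun e => by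
    have := congrFun e i
    simp only [Pi.add_apply, Pi.single_eq_same, Pi.single_apply, Pi.zero_apply] at this
    split_ifs at this <;> linarith)
  obtain ⟨a, ha⟩ := h1 i
  obtain ⟨b, hb⟩ := h1 j
  refine ⟨_, (((h.sub ha).sub hb).div_const 2).congr fun n => ?_⟩
  simp only [Pi.add_apply, Pi.single_apply, add_mul, mul_add, ite_mul, mul_ite, one_mul, zero_mul,
    mul_one, mul_zero, Finset.sum_add_distrib, Finset.sum_ite_eq', Finset.mem_univ, if_true]
  rw [covariance_comm (X := degNum (j + 1) n) (Y := degNum (i + 1) n)]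
  ring

theorem joint_vec (K : ℕ) : ∃ S : Matrix (Fin K) (Fin K) ℝ, S.PosDef ∧
    (∀ i j : Fin K, Tendsto (fun n : ℕ =>
      cov[degNum (i + 1) n, degNum (j + 1) n; planarLaw n] / n) atTop (𝓝 (S i j))) ∧
    TendstoInDistribution (fun n G => (WithLp.toLp 2 fun i : Fin K =>
        (degNum (i + 1) n G - ∫ H, degNum (i + 1) n H ∂planarLaw n) / √n :
          EuclideanSpace ℝ (Fin K)))
      atTop id planarLaw (multivariateGaussian 0 S) := by
  choose S hS using joint_cov (K := K)
  have hq : ∀ t : Fin K → ℝ, Tendsto (fun n : ℕ => ∑ i : Fin K, ∑ j : Fin K, t i * t j *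
      (cov[degNum (i + 1) n, degNum (j + 1) n; planarLaw n] / n)) atTop
      (𝓝 (t ⬝ᵥ (Matrix.of S) *ᵥ t)) := fun t => by
    have := tendsto_finsetSum Finset.univ fun i _ => tendsto_finsetSum Finset.univ fun j _ =>
      (hS i j).const_mul (t i * t j)
    rwa [show ∑ i, ∑ j, t i * t j * S i j = t ⬝ᵥ (Matrix.of S) *ᵥ t by
      simp only [dotProduct, mulVec, of_apply, Finset.mul_sum]
      exact Finset.sum_congr rfl fun i _ => Finset.sum_congr rfl fun j _ => by ring] at this
  have hP : (Matrix.of S).PosDef := by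
    refine Matrix.PosDef.of_dotProduct_mulVec_pos ?_ fun t ht => ?_
    · refine Matrix.IsHermitian.ext fun i j => ?_
      exact tendsto_nhds_unique (hS j i) ((hS i j).congr fun n => by rw [covariance_comm])
    · obtain ⟨s, a1, a2, -⟩ := joint_comb ht
      rwa [star_trivial, ← tendsto_nhds_unique a2 (hq t)]
  have hm : ∀ n, Measurable fun G => (WithLp.toLp 2 fun i : Fin K =>
      (degNum (i + 1) n G - ∫ H, degNum (i + 1) n H ∂planarLaw n) / √n :
        EuclideanSpace ℝ (Fin K)) := fun n => by
    have := bridge_discrete n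
    exact Measurable.of_discrete
  refine ⟨Matrix.of S, hP, hS, fun n => (hm n).aemeasurable, measurable_id.aemeasurable,
    ProbabilityMeasure.tendsto_of_tendsto_charFun fun t => ?_⟩
  simp only [ProbabilityMeasure.coe_mk, Measure.map_id]
  by_cases ht : t = 0
  · subst ht
    simp [charFun_zero, map_measureReal_apply (hm _)]
  · obtain ⟨s, -, a2, a3⟩ := joint_comb (t := t.ofLp) (by simpa using ht)
    rw [charFun_multivariateGaussian hP.posSemidef, ← tendsto_nhds_unique a2 (hq _)]
    simp only [inner_zero_right, Complex.ofReal_zero, zero_mul, zero_sub, ← neg_div]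
    refine a3.congr fun n => ?_
    rw [charFun_apply, integral_map (hm n).aemeasurable (by fun_prop)]
    simp only [PiLp.inner_apply, RCLike.inner_apply, conj_trivial]

end Pool.Agent.Lib.MP_77dff5_pr
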