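import Pool.Agent.Lib.MP_77dff5_pr.JointC
import Pool.Agent.Lib.MP_77dff5_pr.DegreeOld

/-! The number of vertices of degree `k` in a uniform random labelled planar graph is
asymptotically normal, with linear mean and variance; the numbers for `k = 1, …, K` are jointly
asymptotically normal, with a positive definite limit covariance matrix. -/

open MeasureTheory ProbabilityTheory Filter Topology Pool.Agent.Lib.MP_77dff5_pr

theorem Pool.Agent.Lib.MP_77dff5_pr.degree_and_joint :
    (∀ k : ℕ, 1 ≤ k → (∀ᶠ n in atTop, 0 < Var[degNum k n; planarLaw n]) ∧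
      TendstoInDistribution
        (fun n G => (degNum k n G - ∫ H, degNum k n H ∂planarLaw n) /
          √(Var[degNum k n; planarLaw n]))
        atTop id planarLaw (gaussianReal 0 1) ∧
      ∃ d v : ℝ, 0 < d ∧ 0 < v ∧
        Tendsto (fun n : ℕ => (∫ H, degNum k n H ∂planarLaw n) / n) atTop (𝓝 d) ∧
        Tendsto (fun n : ℕ => Var[degNum k n; planarLaw n] / n) atTop (𝓝 v)) ∧
    ∀ K : ℕ, ∃ S : Matrix (Fin K) (Fin K) ℝ, S.PosDef ∧
      (∀ i j : Fin K, Tendsto (fun n : ℕ =>
        cov[degNum (i + 1) n, degNum (j + 1) n; planarLaw n] / n) atTop (𝓝 (S i j))) ∧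
      TendstoInDistribution (fun n G => (WithLp.toLp 2 fun i : Fin K =>
          (degNum (i + 1) n G - ∫ H, degNum (i + 1) n H ∂planarLaw n) / √n :
            EuclideanSpace ℝ (Fin K)))
        atTop id planarLaw (multivariateGaussian 0 S) :=
  ⟨degree_clt, joint_vec⟩
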