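import Pool.Agent.Lib.MP_77dff5_pr.JumpAAux1

/-! One big jump: cores with few slots. -/

set_option autoImplicit false

namespace Pool.Agent.Lib.MP_77dff5_pr

open MeasureTheory ProbabilityTheory Filter Topology
open scoped ENNReal NNReal

variable {Ω J : Type} [Countable Ω] [MeasurableSpace Ω] [DiscreteMeasurableSpace Ω] [Fintype J]
  {ν : J → Measure Ω} {s : Ω → ℕ} {z : Ω → ℝ} {F : Fam Ω J} {Δ : ℕ} {B : ℝ}

/-- a bound for the value without slot `i` -/
noncomputable def jumpA_Y {Ω J : Type} (c : Core Ω J) (z : Ω → ℝ) (B : ℝ) (i : c.I)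
    (ω : c.I → Ω) : ℝ :=
  |c.z0| + ∑ i' ∈ Finset.univ.erase i, |z (ω i')| + Fintype.card c.W * |B|

/-- the error density -/
noncomputable def jumpA_H {Ω J : Type} (c : Core Ω J) (s : Ω → ℕ) (z : Ω → ℝ) (B Θ : ℝ) (n : ℕ)
    (i : c.I) (ω : c.I → Ω) : ℝ :=
  min 2 (|Θ| / √n * jumpA_Y c z B i ω) + (if n ≤ 2 * c.Sx s i ω then 1 else 0) +
    (if c.k ^ 10 ≤ n ^ 9 then 0 else 1)

section pointwise
omit [Countable Ω] [MeasurableSpace Ω] [DiscreteMeasurableSpace Ω] [Fintype J]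

theorem jumpA_Y_nonneg (c : Core Ω J) (i : c.I) (ω : c.I → Ω) : 0 ≤ jumpA_Y c z B i ω := by
  unfold jumpA_Y
  positivity

theorem jumpA_abs_le {c : Core Ω J} (hc : c.Good Δ B) (i : c.I) (ω : c.I → Ω) :
    |c.Z z ω - z (ω i)| ≤ jumpA_Y c z B i ω := by
  have h1 : c.Z z ω - z (ω i) = c.z0 + ∑ i' ∈ Finset.univ.erase i, z (ω i') + ∑ v, c.g v ω := by
    unfold Core.Z
    rw [← Finset.add_sum_erase _ _ (Finset.mem_univ i)]
    ring
  have h2 : |∑ v, c.g v ω| ≤ Fintype.card c.W * |B| := by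
    refine (Finset.abs_sum_le_sum_abs _ _).trans ?_
    refine (Finset.sum_le_sum fun v _ => (hc.bd v ω).trans (le_abs_self B)).trans ?_
    simp
  have h3 := Finset.abs_sum_le_sum_abs (fun i' => z (ω i')) (Finset.univ.erase i)
  rw [h1]
  unfold jumpA_Y
  have h4 := abs_add_three c.z0 (∑ i' ∈ Finset.univ.erase i, z (ω i')) (∑ v, c.g v ω)
  linarith

theorem jumpA_H_mem (c : Core Ω J) (Θ : ℝ) (n : ℕ) (i : c.I) (ω : c.I → Ω) :
    0 ≤ jumpA_H c s z B Θ n i ω ∧ jumpA_H c s z B Θ n i ω ≤ 4 := by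
  have h0 : 0 ≤ min 2 (|Θ| / √n * jumpA_Y c z B i ω) :=
    le_min (by norm_num) (mul_nonneg (by positivity) (jumpA_Y_nonneg c i ω))
  have h1 := min_le_left 2 (|Θ| / √n * jumpA_Y c z B i ω)
  unfold jumpA_H
  constructor <;> split_ifs <;> linarith

theorem jumpA_H_update (c : Core Ω J) (Θ : ℝ) (n : ℕ) (i : c.I) (ω : c.I → Ω) (η : Ω) :
    jumpA_H c s z B Θ n i (Function.update ω i η) = jumpA_H c s z B Θ n i ω := by
  unfold jumpA_H jumpA_Y
  rw [jumpA_Sx_update, jumpA_sum_update (fun η => |z η|)]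

theorem jumpA_H_tendsto (c : Core Ω J) (Θ : ℝ) (i : c.I) (ω : c.I → Ω) :
    Tendsto (fun n : ℕ => jumpA_H c s z B Θ n i ω) atTop (𝓝 0) := by
  have h1 : Tendsto (fun n : ℕ => |Θ| / √n * jumpA_Y c z B i ω) atTop (𝓝 0) := by
    have := ((Real.tendsto_sqrt_atTop.comp tendsto_natCast_atTop_atTop).const_div_atTop
      |Θ|).mul_const (jumpA_Y c z B i ω)
    simpa using this
  have h2 : Tendsto (fun n : ℕ => min 2 (|Θ| / √n * jumpA_Y c z B i ω)) atTop (𝓝 0) := by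
    have := (tendsto_const_nhds (x := (2 : ℝ))).min h1
    simpa using this
  refine h2.congr' ?_
  filter_upwards [eventually_gt_atTop (2 * c.Sx s i ω), eventually_ge_atTop (c.k ^ 10),
    eventually_ge_atTop 1] with n hn1 hn2 hn3
  have h3 : c.k ^ 10 ≤ n ^ 9 := hn2.trans (Nat.le_self_pow (by norm_num) n)
  unfold jumpA_H
  rw [if_neg (by omega), if_pos h3]
  ring

theorem jumpA_exp_sub (a b : ℝ) :
    ‖Complex.exp (Complex.I * (a : ℂ)) - Complex.exp (Complex.I * (b : ℂ))‖ ≤ min 2 |a - b| := by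
  refine le_min ?_ ?_
  · refine (norm_sub_le _ _).trans ?_
    rw [Complex.norm_exp_I_mul_ofReal, Complex.norm_exp_I_mul_ofReal]
    norm_num
  · have h1 : Complex.exp (Complex.I * (a : ℂ)) - Complex.exp (Complex.I * (b : ℂ)) =
        Complex.exp (Complex.I * (b : ℂ)) * (Complex.exp (Complex.I * ((a - b : ℝ) : ℂ)) - 1) := by
      rw [mul_sub, ← Complex.exp_add]
      push_cast
      ring_nf
    rw [h1, norm_mul, Complex.norm_exp_I_mul_ofReal, one_mul]
    exact Real.norm_exp_I_mul_ofReal_sub_one_le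

theorem jumpA_pointwise {c : Core Ω J} (hc : c.Good Δ B) {Θ θ : ℝ} {n : ℕ} (hθ : |θ| ≤ Θ / √n)
    (ω : c.I → Ω) :
    ‖(if c.k ^ 10 ≤ n ^ 9 then
        (if c.S s ω = n then Complex.exp (Complex.I * ((θ * c.Z z ω : ℝ) : ℂ)) else 0) else 0) -
      ∑ i, (if c.S s ω = n ∧ 2 * c.Sx s i ω < n then
        Complex.exp (Complex.I * ((θ * z (ω i) : ℝ) : ℂ)) else 0)‖ ≤
      ∑ i, (if c.S s ω = n ∧ n < 100 * s (ω i) then jumpA_H c s z B Θ n i ω else 0) +
      (if c.k ^ 10 ≤ n ^ 9 then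
        (if c.S s ω = n ∧ ∀ i, 100 * s (ω i) ≤ n then (1 : ℝ) else 0) else 0) := by
  have hnn : ∀ i ∈ (Finset.univ : Finset c.I),
      0 ≤ (if c.S s ω = n ∧ n < 100 * s (ω i) then jumpA_H c s z B Θ n i ω else 0) := by
    intro i _
    split_ifs
    · exact (jumpA_H_mem c Θ n i ω).1
    · exact le_rfl
  have hlast : 0 ≤ (if c.k ^ 10 ≤ n ^ 9 then
        (if c.S s ω = n ∧ ∀ i, 100 * s (ω i) ≤ n then (1 : ℝ) else 0) else 0) := by
    split_ifs <;> simp
  by_cases hS : c.S s ω = n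
  swap
  · simp only [hS, false_and, if_false, ite_self, Finset.sum_const_zero, sub_zero, norm_zero,
      add_zero, le_refl]
  by_cases hex : ∃ i, 2 * c.Sx s i ω < n
  · obtain ⟨i, hi⟩ := hex
    have hSi := jumpA_S_eq c s i ω
    have huniq : ∀ i', i' ≠ i → ¬ 2 * c.Sx s i' ω < n := by
      intro i' hne hi'
      have h1 : s (ω i) ≤ c.Sx s i' ω := by
        unfold Core.Sx
        exact (Finset.single_le_sum (f := fun i => s (ω i)) (fun _ _ => Nat.zero_le _)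
          (Finset.mem_erase.2 ⟨hne.symm, Finset.mem_univ i⟩)).trans (Nat.le_add_left _ _)
      omega
    rw [Finset.sum_eq_single i (fun i' _ hne => if_neg fun hh => huniq i' hne hh.2)
      (fun hh => absurd (Finset.mem_univ i) hh), if_pos hS, if_pos (And.intro hS hi)]
    have h2 := Finset.single_le_sum hnn (Finset.mem_univ i)
    rw [if_pos ⟨hS, by omega⟩] at h2
    refine le_trans ?_ (le_add_of_le_of_nonneg h2 hlast)
    have h0 : 0 ≤ min 2 (|Θ| / √n * jumpA_Y c z B i ω) :=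
      le_min (by norm_num) (mul_nonneg (by positivity) (jumpA_Y_nonneg c i ω))
    unfold jumpA_H
    rw [if_neg (show ¬ n ≤ 2 * c.Sx s i ω by omega)]
    split_ifs
    · refine (jumpA_exp_sub _ _).trans ?_
      rw [add_zero, add_zero]
      refine min_le_min le_rfl ?_
      rw [← mul_sub, abs_mul]
      refine mul_le_mul (hθ.trans ?_) (jumpA_abs_le hc i ω) (abs_nonneg _) (by positivity)
      exact div_le_div_of_nonneg_right (le_abs_self Θ) (Real.sqrt_nonneg _)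
    · rw [zero_sub, norm_neg, Complex.norm_exp_I_mul_ofReal]
      linarith
  · rw [Finset.sum_eq_zero (fun i _ => if_neg fun hh => hex ⟨i, hh.2⟩), sub_zero, if_pos hS]
    by_cases hk : c.k ^ 10 ≤ n ^ 9
    swap
    · rw [if_neg hk, norm_zero]
      exact add_nonneg (Finset.sum_nonneg hnn) hlast
    rw [if_pos hk, Complex.norm_exp_I_mul_ofReal]
    by_cases hall : ∀ i, 100 * s (ω i) ≤ n
    · rw [if_pos hk, if_pos ⟨hS, hall⟩]
      exact le_add_of_nonneg_left (Finset.sum_nonneg hnn)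
    · obtain ⟨i, hi⟩ := not_forall.1 hall
      have h2 := Finset.single_le_sum hnn (Finset.mem_univ i)
      rw [if_pos ⟨hS, by omega⟩] at h2
      refine le_trans ?_ (le_add_of_le_of_nonneg h2 hlast)
      have h0 : 0 ≤ min 2 (|Θ| / √n * jumpA_Y c z B i ω) :=
        le_min (by norm_num) (mul_nonneg (by positivity) (jumpA_Y_nonneg c i ω))
      have h3 : n ≤ 2 * c.Sx s i ω := not_lt.1 fun hh => hex ⟨i, hh⟩
      unfold jumpA_H
      rw [if_pos h3, if_pos hk]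
      linarith

end pointwise

/-- the integrated error -/
noncomputable def jumpA_D {Ω J : Type} [MeasurableSpace Ω] (c : Core Ω J) (ν : J → Measure Ω)
    (s : Ω → ℕ) (z : Ω → ℝ) (B Θ : ℝ) (n : ℕ) : ℝ :=
  ∑ i, ∫ ω, jumpA_H c s z B Θ n i ω ∂c.P ν

omit [Fintype J] in
theorem jumpA_D_mem (hν : ∀ j, IsProbabilityMeasure (ν j)) (c : Core Ω J) (Θ : ℝ) (n : ℕ) :
    0 ≤ jumpA_D c ν s z B Θ n ∧ jumpA_D c ν s z B Θ n ≤ 4 * c.k := by
  have := Core.isProb hν c
  refine ⟨Finset.sum_nonneg fun i _ => integral_nonneg fun ω => (jumpA_H_mem c Θ n i ω).1, ?_⟩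
  have h1 : ∀ i ∈ (Finset.univ : Finset c.I), ∫ ω, jumpA_H c s z B Θ n i ω ∂c.P ν ≤ 4 := by
    intro i _
    have := integral_mono_of_nonneg (μ := c.P ν)
      (ae_of_all _ fun ω => (jumpA_H_mem (s := s) (z := z) (B := B) c Θ n i ω).1)
      (integrable_const (4 : ℝ)) (ae_of_all _ fun ω => (jumpA_H_mem c Θ n i ω).2)
    simpa using this
  refine (Finset.sum_le_sum h1).trans ?_
  simp [Core.k, mul_comm]

omit [Fintype J] in
theorem jumpA_D_tendsto (hν : ∀ j, IsProbabilityMeasure (ν j)) (c : Core Ω J) (Θ : ℝ) :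
    Tendsto (fun n : ℕ => jumpA_D c ν s z B Θ n) atTop (𝓝 0) := by
  have := Core.isProb hν c
  have h1 : ∀ i ∈ (Finset.univ : Finset c.I),
      Tendsto (fun n : ℕ => ∫ ω, jumpA_H c s z B Θ n i ω ∂c.P ν) atTop (𝓝 0) := by
    intro i _
    have := tendsto_integral_of_dominated_convergence (μ := c.P ν)
      (F := fun n ω => jumpA_H c s z B Θ n i ω) (f := fun _ => (0 : ℝ)) (fun _ => (4 : ℝ))
      (fun _ => AEStronglyMeasurable.of_discrete) (integrable_const _)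
      (fun n => ae_of_all _ fun ω => by
        rw [Real.norm_of_nonneg (jumpA_H_mem c Θ n i ω).1]; exact (jumpA_H_mem c Θ n i ω).2)
      (ae_of_all _ fun ω => jumpA_H_tendsto c Θ i ω)
    simpa using this
  simpa [jumpA_D] using tendsto_finsetSum _ h1

omit [Fintype J] in
/-- the estimate for one core -/
theorem jumpA_core (hν : ∀ j, IsProbabilityMeasure (ν j)) {c : Core Ω J} (hc : c.Good Δ B)
    {Θ θ : ℝ} {n : ℕ} (hθ : |θ| ≤ Θ / √n) {M : ℝ} (hM0 : 0 ≤ M)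
    (hM : ∀ j, ∀ m : ℕ, n < 100 * m → m ≤ n → (ν j).real {η | s η = m} ≤ M) {E : ℝ} (hE0 : 0 ≤ E)
    (hE : c.k ^ 10 ≤ n ^ 9 →
      ∫ ω, (if c.S s ω = n ∧ ∀ i, 100 * s (ω i) ≤ n then (1 : ℝ) else 0) ∂c.P ν ≤ E) :
    ‖(if c.k ^ 10 ≤ n ^ 9 then ch (c.law ν s z) n θ else 0) -
      ∑ i, ∑ l ∈ Finset.range ((n + 1) / 2), (((c.P ν).real {ω | c.Sx s i ω = l} : ℝ) : ℂ) *
        ch (slaw (ν (c.cls i)) s z) (n - l) θ‖ ≤ M * jumpA_D c ν s z B Θ n + E := by
  have := Core.isProb hν c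
  have h1 : (if c.k ^ 10 ≤ n ^ 9 then ch (c.law ν s z) n θ else 0) =
      ∫ ω, (if c.k ^ 10 ≤ n ^ 9 then
        (if c.S s ω = n then Complex.exp (Complex.I * ((θ * c.Z z ω : ℝ) : ℂ)) else 0) else 0)
        ∂c.P ν := by
    split_ifs
    · exact jumpA_ch_map _ _ _ _ _
    · simp
  have i1 : Integrable (fun ω => if c.k ^ 10 ≤ n ^ 9 then
        (if c.S s ω = n then Complex.exp (Complex.I * ((θ * c.Z z ω : ℝ) : ℂ)) else 0) else 0)
        (c.P ν) := jumpA_int _ _ 1 fun ω => by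
    split_ifs
    · rw [Complex.norm_exp_I_mul_ofReal]
    · simp
    · simp
  have i2 : ∀ i ∈ (Finset.univ : Finset c.I), Integrable (fun ω =>
      if c.S s ω = n ∧ 2 * c.Sx s i ω < n then
        Complex.exp (Complex.I * ((θ * z (ω i) : ℝ) : ℂ)) else 0) (c.P ν) :=
    fun i _ => jumpA_int _ _ 1 fun ω => by
      split_ifs
      · rw [Complex.norm_exp_I_mul_ofReal]
      · simp
  have i3 : ∀ i ∈ (Finset.univ : Finset c.I), Integrable (fun ω =>
      if c.S s ω = n ∧ n < 100 * s (ω i) then jumpA_H c s z B Θ n i ω else 0) (c.P ν) :=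
    fun i _ => jumpA_int _ _ 4 fun ω => by
      split_ifs
      · rw [Real.norm_of_nonneg (jumpA_H_mem c Θ n i ω).1]; exact (jumpA_H_mem c Θ n i ω).2
      · simp
  have i4 : Integrable (fun ω => if c.k ^ 10 ≤ n ^ 9 then
        (if c.S s ω = n ∧ ∀ i, 100 * s (ω i) ≤ n then (1 : ℝ) else 0) else 0) (c.P ν) :=
    jumpA_int _ _ 1 fun ω => by split_ifs <;> simp
  simp only [jumpA_main hν]
  rw [h1, ← integral_finsetSum _ i2, ← integral_sub i1 (integrable_finsetSum _ i2)]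
  refine (norm_integral_le_of_norm_le ((integrable_finsetSum _ i3).add i4)
    (ae_of_all _ fun ω => jumpA_pointwise hc hθ ω)).trans ?_
  rw [integral_add' (integrable_finsetSum _ i3) i4, integral_finsetSum _ i3]
  refine add_le_add ?_ ?_
  · unfold jumpA_D
    rw [Finset.mul_sum]
    exact Finset.sum_le_sum fun i _ => jumpA_bound hν c i n hM0 (hM _) _
      (fun ω => (jumpA_H_mem c Θ n i ω).1) 4 (fun ω => (jumpA_H_mem c Θ n i ω).2)
      (jumpA_H_update c Θ n i)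
  · split_ifs with hk
    · exact hE hk
    · simpa using hE0

/-- the Chernoff bound is `e * n ^ (-5)` -/
theorem jumpA_chernoff_ev (h : Slots1 ν s z) (Δ : ℕ) :
    ∀ᶠ n : ℕ in atTop, ∀ c : Core Ω J, c.s0 ≤ Δ * (c.k + 1) → c.k ^ 10 ≤ n ^ 9 →
      ∫ ω, (if c.S s ω = n ∧ ∀ i, 100 * s (ω i) ≤ n then (1 : ℝ) else 0) ∂c.P ν ≤
        Real.exp 1 * (n : ℝ) ^ (-5 : ℝ) := by
  set M : ℝ := ∑ j, ∫ η, (s η : ℝ) ∂ν j with hMdef
  have hj0 : ∀ j, 0 ≤ ∫ η, (s η : ℝ) ∂ν j := fun j => integral_nonneg fun η => Nat.cast_nonneg _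
  have hM : ∀ j, ∫ η, (s η : ℝ) ∂ν j ≤ M := fun j =>
    Finset.single_le_sum (f := fun j => ∫ η, (s η : ℝ) ∂ν j) (fun j _ => hj0 j)
      (Finset.mem_univ j)
  have hM0 : 0 ≤ M := Finset.sum_nonneg fun j _ => hj0 j
  have ht : Tendsto (fun n : ℕ => 200 * (2 * Δ + M) * (n : ℝ) ^ (-(1 / 40) : ℝ)) atTop (𝓝 0) := by
    have := ((tendsto_rpow_neg_atTop (y := 1 / 40) (by norm_num)).comp
      tendsto_natCast_atTop_atTop).const_mul (200 * (2 * Δ + M))
    simpa using this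
  filter_upwards [ht.eventually (ge_mem_nhds one_pos), eventually_ge_atTop 1] with n hn hn1
  intro c hs0 hk
  have hx1 : (1 : ℝ) ≤ n := by exact_mod_cast hn1
  have hx : (0 : ℝ) < n := by linarith
  have hlog : 0 ≤ Real.log n := Real.log_nonneg hx1
  refine (jumpA_chernoff h c n (l := 5 * Real.log n / n) (by positivity) hM).trans ?_
  rw [Real.rpow_def_of_pos hx, ← Real.exp_add]
  refine Real.exp_le_exp.2 ?_
  have e1 : Real.exp (5 * Real.log n / n * n / 100) = (n : ℝ) ^ (1 / 20 : ℝ) := by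
    rw [Real.rpow_def_of_pos hx]
    congr 1
    field_simp
    ring
  have hk' : (c.k : ℝ) ≤ (n : ℝ) ^ (9 / 10 : ℝ) := by
    have h1 : (c.k : ℝ) ^ 10 ≤ ((n : ℝ) ^ (9 / 10 : ℝ)) ^ 10 := by
      rw [← Real.rpow_natCast ((n : ℝ) ^ (9 / 10 : ℝ)), ← Real.rpow_mul hx.le]
      have : (9 / 10 : ℝ) * ((10 : ℕ) : ℝ) = ((9 : ℕ) : ℝ) := by norm_num
      rw [this, Real.rpow_natCast]
      exact_mod_cast hk
    exact le_of_pow_le_pow_left₀ (by norm_num) (by positivity) h1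
  have ha : (n : ℝ) ^ (9 / 10 : ℝ) ≤ (n : ℝ) ^ (19 / 20 : ℝ) :=
    Real.rpow_le_rpow_of_exponent_le hx1 (by norm_num)
  have hb : (1 : ℝ) ≤ (n : ℝ) ^ (19 / 20 : ℝ) := Real.one_le_rpow hx1 (by norm_num)
  have hc : (n : ℝ) ^ (9 / 10 : ℝ) * (n : ℝ) ^ (1 / 20 : ℝ) = (n : ℝ) ^ (19 / 20 : ℝ) := by
    rw [← Real.rpow_add hx]; norm_num
  have hd : Real.log n ≤ (n : ℝ) ^ (1 / 40 : ℝ) / (1 / 40) :=
    Real.log_le_rpow_div hx.le (by norm_num)
  have he : (n : ℝ) ^ (1 / 40 : ℝ) * (n : ℝ) ^ (19 / 20 : ℝ) = (n : ℝ) ^ (-(1 / 40) : ℝ) * n := by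
    rw [← Real.rpow_add hx, ← Real.rpow_add_one hx.ne']; norm_num
  have hs0' : (c.s0 : ℝ) ≤ Δ * (c.k + 1) := by exact_mod_cast hs0
  have hΔ : (0 : ℝ) ≤ Δ := Nat.cast_nonneg _
  have h20 : 0 ≤ (n : ℝ) ^ (1 / 20 : ℝ) := by positivity
  have hf : (c.s0 : ℝ) + c.k * (n : ℝ) ^ (1 / 20 : ℝ) * M ≤
      (2 * Δ + M) * (n : ℝ) ^ (19 / 20 : ℝ) := by
    have h1 : (Δ : ℝ) * (c.k + 1) ≤ Δ * (2 * (n : ℝ) ^ (19 / 20 : ℝ)) :=
      mul_le_mul_of_nonneg_left (by linarith) hΔ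
    have h2 : c.k * (n : ℝ) ^ (1 / 20 : ℝ) ≤ (n : ℝ) ^ (19 / 20 : ℝ) := by
      rw [← hc]; exact mul_le_mul_of_nonneg_right hk' h20
    have h3 := mul_le_mul_of_nonneg_right h2 hM0
    linarith
  have hg : 5 * Real.log n / n * ((c.s0 : ℝ) + c.k * (n : ℝ) ^ (1 / 20 : ℝ) * M) ≤ 1 := by
    calc 5 * Real.log n / n * ((c.s0 : ℝ) + c.k * (n : ℝ) ^ (1 / 20 : ℝ) * M)
        ≤ 200 * (n : ℝ) ^ (1 / 40 : ℝ) / n * ((2 * Δ + M) * (n : ℝ) ^ (19 / 20 : ℝ)) := by
          refine mul_le_mul (div_le_div_of_nonneg_right (by linarith) hx.le) hf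
            (by positivity) (by positivity)
      _ = 200 * (2 * Δ + M) * ((n : ℝ) ^ (1 / 40 : ℝ) * (n : ℝ) ^ (19 / 20 : ℝ)) / n := by ring
      _ = 200 * (2 * Δ + M) * (n : ℝ) ^ (-(1 / 40) : ℝ) := by rw [he]; field_simp
      _ ≤ 1 := hn
  rw [e1]
  have hh : 5 * Real.log n / n * (c.s0 - n) +
      c.k * (5 * Real.log n / n * (n : ℝ) ^ (1 / 20 : ℝ) * M) =
      5 * Real.log n / n * ((c.s0 : ℝ) + c.k * (n : ℝ) ^ (1 / 20 : ℝ) * M) +
        Real.log n * (-5) := by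
    field_simp
    ring
  rw [hh]
  linarith

/-- the main terms, summed over the family -/
theorem jumpA_hasSum (hν : ∀ j, IsProbabilityMeasure (ν j)) (hF : F.Good Δ B) (R : Finset ℕ)
    (x : J → ℕ → ℂ) :
    HasSum (fun t => ((F.w t : ℝ) : ℂ) * ∑ i, ∑ l ∈ R,
        ((((F.core t).P ν).real {ω | (F.core t).Sx s i ω = l} : ℝ) : ℂ) * x ((F.core t).cls i) l)
      (∑ j, ∑ l ∈ R, (F.aa ν s j l : ℂ) * x j l) := by
  classical
  have h1 : ∀ j l, HasSum (fun t => (F.w t : ℝ) * ∑ i : (F.core t).I,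
      if (F.core t).cls i = j then ((F.core t).P ν).real {ω | (F.core t).Sx s i ω = l} else 0)
      (F.aa ν s j l) := by
    intro j l
    have hs : Summable (fun t => (F.w t : ℝ) * ∑ i : (F.core t).I,
      if (F.core t).cls i = j then ((F.core t).P ν).real {ω | (F.core t).Sx s i ω = l} else 0) := by
      refine Summable.of_nonneg_of_le (fun t => mul_nonneg (F.w t).2
        (Finset.sum_nonneg fun i _ => ?_)) (fun t => mul_le_mul_of_nonneg_left ?_ (F.w t).2) hF.sum1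
      · split_ifs
        · exact measureReal_nonneg
        · exact le_rfl
      · have := Core.isProb hν (F.core t)
        have h2 : ∀ i ∈ (Finset.univ : Finset (F.core t).I), (if (F.core t).cls i = j then
            ((F.core t).P ν).real {ω | (F.core t).Sx s i ω = l} else 0) ≤ 1 := by
          intro i _
          split_ifs
          · exact measureReal_le_one
          · exact zero_le_one
        refine (Finset.sum_le_sum h2).trans ?_
        simp [Core.k]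
    have := hs.hasSum
    unfold Fam.aa
    convert this
  have h2 := hasSum_sum (s := Finset.univ) fun j _ => hasSum_sum (s := R) fun l _ =>
    (Complex.hasSum_ofReal.2 (h1 j l)).mul_right (x j l)
  refine (congrArg (fun f => HasSum f _) (funext fun t => ?_)).mp h2
  rw [Finset.sum_comm, Finset.sum_comm (s := Finset.univ) (t := R), Finset.mul_sum]
  refine Finset.sum_congr rfl fun l _ => ?_
  push_cast
  simp only [mul_assoc, ← Finset.mul_sum]
  congr 1
  simp only [Finset.sum_mul]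
  rw [Finset.sum_comm]
  refine Finset.sum_congr rfl fun i _ => ?_
  rw [Finset.sum_eq_single ((F.core t).cls i) (fun j _ hj => by rw [if_neg (Ne.symm hj)]; simp)
    (fun hh => absurd (Finset.mem_univ _) hh), if_pos rfl]

theorem Fam.jump_ch (h : Slots1 ν s z) (hF : F.Good Δ B) (Θ : ℝ) {ε : ℝ} (hε : 0 < ε) :
    ∀ᶠ n : ℕ in atTop, ∀ K : ℝ, 0 ≤ K →
      (∀ j, ∀ l : ℕ, 1 ≤ l → l ≤ n → pm (slaw (ν j) s z) l ≤ K * (l : ℝ) ^ (-(5 / 2) : ℝ)) →
      ∀ θ : ℝ, |θ| ≤ Θ / √n →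
        ‖ch (F.lawOn (F.small n) ν s z) n θ - ∑ j, ∑ l ∈ Finset.range ((n + 1) / 2),
          (F.aa ν s j l : ℂ) * ch (slaw (ν j) s z) (n - l) θ‖ ≤
          ε * (1 + K) * (n : ℝ) ^ (-(5 / 2) : ℝ) := by
  have hw0 : ∀ t, (0 : ℝ) ≤ F.w t := fun t => (F.w t).2
  have hk0 : ∀ t, (0 : ℝ) ≤ (F.core t).k := fun t => Nat.cast_nonneg _
  have hw : Summable fun t => (F.w t : ℝ) :=
    Summable.of_nonneg_of_le hw0 (fun t => by nlinarith [hw0 t, hk0 t]) hF.sum1
  have hDb : ∀ n t, ‖(F.w t : ℝ) * jumpA_D (F.core t) ν s z B Θ n‖ ≤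
      4 * ((F.w t : ℝ) * ((F.core t).k + 1)) := by
    intro n t
    obtain ⟨h1, h2⟩ := jumpA_D_mem (s := s) (z := z) (B := B) h.prob (F.core t) Θ n
    rw [Real.norm_of_nonneg (mul_nonneg (hw0 t) h1)]
    nlinarith [hw0 t, mul_le_mul_of_nonneg_left h2 (hw0 t)]
  have hD : Tendsto (fun n : ℕ => ∑' t, (F.w t : ℝ) * jumpA_D (F.core t) ν s z B Θ n) atTop
      (𝓝 0) := by
    have := tendsto_tsum_of_dominated_convergence (𝓕 := atTop)
      (f := fun (n : ℕ) t => (F.w t : ℝ) * jumpA_D (F.core t) ν s z B Θ n) (g := fun _ => 0)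
      (hF.sum1.mul_left 4)
      (fun t => by simpa using (jumpA_D_tendsto h.prob (F.core t) Θ).const_mul (F.w t : ℝ))
      (Eventually.of_forall hDb)
    simpa using this
  have hE : Tendsto (fun n : ℕ => Real.exp 1 * (∑' t, (F.w t : ℝ)) * (n : ℝ) ^ (-(5 / 2) : ℝ))
      atTop (𝓝 0) := by
    have := ((tendsto_rpow_neg_atTop (y := 5 / 2) (by norm_num)).comp
      tendsto_natCast_atTop_atTop).const_mul (Real.exp 1 * (∑' t, (F.w t : ℝ)))
    simpa using this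
  filter_upwards [hD.eventually (ge_mem_nhds (show (0 : ℝ) < ε / 100000 by positivity)),
    hE.eventually (ge_mem_nhds hε), jumpA_chernoff_ev h Δ, eventually_ge_atTop 1]
    with n hn1 hn2 hn3 hn4
  intro K hK hpm θ hθ
  have hx : (0 : ℝ) < n := by exact_mod_cast hn4
  set M : ℝ := K * (100000 * (n : ℝ) ^ (-(5 / 2) : ℝ)) with hMdef
  have hM0 : 0 ≤ M := by positivity
  have hM : ∀ j, ∀ m : ℕ, n < 100 * m → m ≤ n → (ν j).real {η | s η = m} ≤ M := by
    intro j m hm1 hm2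
    have h1 := hpm j m (by omega) hm2
    unfold slaw at h1
    rw [jumpA_pm_map] at h1
    refine h1.trans (mul_le_mul_of_nonneg_left ?_ hK)
    have h2 : (n : ℝ) / 100 ≤ m := by
      have : (n : ℝ) < 100 * m := by exact_mod_cast hm1
      linarith
    refine (Real.rpow_le_rpow_of_nonpos (by positivity) h2 (by norm_num)).trans (le_of_eq ?_)
    have h3 : (100 : ℝ) ^ (-(5 / 2) : ℝ) = 1 / 100000 := by
      rw [show (100 : ℝ) = 10 ^ (2 : ℝ) by norm_num, ← Real.rpow_mul (by norm_num)]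
      norm_num
    rw [Real.div_rpow hx.le (by norm_num), h3]
    ring
  have s1 : HasSum ((F.small n).indicator
      (fun t => ((F.w t : ℝ) : ℂ) * ch ((F.core t).law ν s z) n θ))
      (ch (F.lawOn (F.small n) ν s z) n θ) :=
    hasSum_subtype_iff_indicator.1 (Fam.ch_lawOn (s := s) (z := z) h.prob hF (F.small n) n θ)
  have s2 := jumpA_hasSum (s := s) h.prob hF (Finset.range ((n + 1) / 2))
    (fun j l => ch (slaw (ν j) s z) (n - l) θ)
  have s3 : HasSum (fun t => M * ((F.w t : ℝ) * jumpA_D (F.core t) ν s z B Θ n) +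
      Real.exp 1 * (n : ℝ) ^ (-5 : ℝ) * F.w t)
      (M * ∑' t, (F.w t : ℝ) * jumpA_D (F.core t) ν s z B Θ n +
        Real.exp 1 * (n : ℝ) ^ (-5 : ℝ) * ∑' t, (F.w t : ℝ)) :=
    ((Summable.of_norm_bounded (hF.sum1.mul_left 4) (hDb n)).hasSum.mul_left M).add
      (hw.hasSum.mul_left _)
  refine ((s1.sub s2).norm_le_of_bounded s3 fun t => ?_).trans ?_
  · have h1 := jumpA_core (z := z) h.prob (hF.good t) hθ hM0 hM
      (E := Real.exp 1 * (n : ℝ) ^ (-5 : ℝ)) (by positivity) (hn3 _ (hF.good t).s0_le)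
    have h2 : (F.small n).indicator
        (fun t => ((F.w t : ℝ) : ℂ) * ch ((F.core t).law ν s z) n θ) t =
        ((F.w t : ℝ) : ℂ) *
          (if (F.core t).k ^ 10 ≤ n ^ 9 then ch ((F.core t).law ν s z) n θ else 0) := by
      split_ifs with hk
      · exact Set.indicator_of_mem (show t ∈ F.small n from hk) _
      · rw [Set.indicator_of_notMem (show t ∉ F.small n from hk), mul_zero]
    rw [h2, ← mul_sub, norm_mul, Complex.norm_real, Real.norm_of_nonneg (hw0 t)]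
    refine (mul_le_mul_of_nonneg_left h1 (hw0 t)).trans (le_of_eq ?_)
    ring
  · have h1 : (n : ℝ) ^ (-5 : ℝ) = (n : ℝ) ^ (-(5 / 2) : ℝ) * (n : ℝ) ^ (-(5 / 2) : ℝ) := by
      rw [← Real.rpow_add hx]; norm_num
    have h2 : 0 ≤ (n : ℝ) ^ (-(5 / 2) : ℝ) := by positivity
    have h3 := mul_le_mul_of_nonneg_left hn1 hM0
    have h4 := mul_le_mul_of_nonneg_right hn2 h2
    rw [h1]
    have h5 : M * (ε / 100000) = ε * K * (n : ℝ) ^ (-(5 / 2) : ℝ) := by rw [hMdef]; ring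
    linarith

end Pool.Agent.Lib.MP_77dff5_pr
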