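import Pool.Agent.Lib.MP_77dff5_pr.FamA

/-! One big jump: estimates for one core. -/

set_option autoImplicit false

namespace Pool.Agent.Lib.MP_77dff5_pr

open MeasureTheory ProbabilityTheory Filter Topology
open scoped ENNReal NNReal

theorem jumpA_int {X E : Type} [MeasurableSpace X] [Countable X] [MeasurableSingletonClass X]
    [NormedAddCommGroup E] (μ : Measure X) [IsFiniteMeasure μ] (f : X → E) (C : ℝ)
    (hf : ∀ x, ‖f x‖ ≤ C) : Integrable f μ :=
  Integrable.of_bound AEStronglyMeasurable.of_discrete C (ae_of_all _ hf)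

theorem jumpA_ch_map {X : Type} [MeasurableSpace X] [Countable X] [MeasurableSingletonClass X]
    (μ : Measure X) (a : X → ℕ) (b : X → ℝ) (n : ℕ) (θ : ℝ) :
    ch (μ.map fun x => (a x, b x)) n θ =
      ∫ x, (if a x = n then Complex.exp (Complex.I * ((θ * b x : ℝ) : ℂ)) else 0) ∂μ := by
  have hs : MeasurableSet {p : ℕ × ℝ | p.1 = n} := measurable_fst (measurableSet_singleton n)
  have hc : Continuous fun p : ℕ × ℝ => Complex.exp (Complex.I * ((θ * p.2 : ℝ) : ℂ)) := by
    fun_prop
  unfold ch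
  rw [setIntegral_map hs hc.aestronglyMeasurable Measurable.of_discrete.aemeasurable,
    ← integral_indicator MeasurableSet.of_discrete]
  refine integral_congr_ae (ae_of_all _ fun x => ?_)
  simp only [Set.indicator, Set.mem_preimage, Set.mem_ofPred_eq]

theorem jumpA_pm_map {X : Type} [MeasurableSpace X] [Countable X] [MeasurableSingletonClass X]
    (μ : Measure X) (a : X → ℕ) (b : X → ℝ) (n : ℕ) :
    pm (μ.map fun x => (a x, b x)) n = μ.real {x | a x = n} := by
  have hs : MeasurableSet {p : ℕ × ℝ | p.1 = n} := measurable_fst (measurableSet_singleton n)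
  unfold pm
  rw [map_measureReal_apply Measurable.of_discrete hs]
  rfl

theorem jumpA_int_ite {X E : Type} [MeasurableSpace X] [Countable X] [MeasurableSingletonClass X]
    [NormedAddCommGroup E] [NormedSpace ℝ E] [CompleteSpace E] (μ : Measure X) (p : X → Prop)
    [DecidablePred p] (e : E) :
    ∫ x, (if p x then e else 0) ∂μ = μ.real {x | p x} • e := by
  rw [← integral_indicator_const e (MeasurableSet.of_discrete (s := {x | p x}))]
  refine integral_congr_ae (ae_of_all _ fun x => ?_)
  by_cases h : p x <;> simp [Set.indicator, h]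

variable {Ω J : Type} [Countable Ω] [MeasurableSpace Ω] [DiscreteMeasurableSpace Ω]
  {ν : J → Measure Ω} {s : Ω → ℕ} {z : Ω → ℝ} {Δ : ℕ} {B : ℝ}

theorem jumpA_fubini {E : Type} [NormedAddCommGroup E] [NormedSpace ℝ E]
    (hν : ∀ j, IsProbabilityMeasure (ν j)) (c : Core Ω J) (i : c.I) (f : (c.I → Ω) → E) (C : ℝ)
    (hf : ∀ ω, ‖f ω‖ ≤ C) :
    ∫ ω, f ω ∂c.P ν = ∫ ω, ∫ η, f (Function.update ω i η) ∂ν (c.cls i) ∂c.P ν := by
  have hmp := measurePreserving_update (fun i => ν (c.cls i)) i
  calc ∫ ω, f ω ∂c.P ν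
      = ∫ ω, f ω ∂(Measure.map (fun p : Ω × (c.I → Ω) => Function.update p.2 i p.1)
        ((ν (c.cls i)).prod (Measure.pi fun i => ν (c.cls i)))) := by rw [hmp.map_eq]; rfl
    _ = ∫ p, f (Function.update p.2 i p.1)
          ∂((ν (c.cls i)).prod (Measure.pi fun i => ν (c.cls i))) :=
        integral_map hmp.measurable.aemeasurable AEStronglyMeasurable.of_discrete
    _ = _ := integral_prod_symm _ (jumpA_int _ _ C fun p => hf _)

omit [Countable Ω] [MeasurableSpace Ω] [DiscreteMeasurableSpace Ω] in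
theorem jumpA_S_eq (c : Core Ω J) (s : Ω → ℕ) (i : c.I) (ω : c.I → Ω) :
    c.S s ω = s (ω i) + c.Sx s i ω := by
  unfold Core.S Core.Sx
  rw [← Finset.add_sum_erase _ _ (Finset.mem_univ i)]
  ring

omit [Countable Ω] [MeasurableSpace Ω] [DiscreteMeasurableSpace Ω] in
theorem jumpA_sum_update {M : Type} [AddCommMonoid M] {I : Type} [Fintype I] [DecidableEq I]
    (f : Ω → M) (i : I) (ω : I → Ω) (η : Ω) :
    ∑ i' ∈ Finset.univ.erase i, f (Function.update ω i η i') =
      ∑ i' ∈ Finset.univ.erase i, f (ω i') :=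
  Finset.sum_congr rfl fun i' hi' => by
    rw [Function.update_of_ne (Finset.ne_of_mem_erase hi')]

omit [Countable Ω] [MeasurableSpace Ω] [DiscreteMeasurableSpace Ω] in
theorem jumpA_Sx_update (c : Core Ω J) (s : Ω → ℕ) (i : c.I) (ω : c.I → Ω) (η : Ω) :
    c.Sx s i (Function.update ω i η) = c.Sx s i ω := by
  unfold Core.Sx
  rw [jumpA_sum_update]

/-- a big slot costs the supremum of its point masses -/
theorem jumpA_bound (hν : ∀ j, IsProbabilityMeasure (ν j)) (c : Core Ω J) (i : c.I) (n : ℕ)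
    {M : ℝ} (hM0 : 0 ≤ M)
    (hM : ∀ m : ℕ, n < 100 * m → m ≤ n → (ν (c.cls i)).real {η | s η = m} ≤ M)
    (h : (c.I → Ω) → ℝ) (h0 : ∀ ω, 0 ≤ h ω) (C : ℝ) (hC : ∀ ω, h ω ≤ C)
    (hinv : ∀ ω η, h (Function.update ω i η) = h ω) :
    ∫ ω, (if c.S s ω = n ∧ n < 100 * s (ω i) then h ω else 0) ∂c.P ν ≤ M * ∫ ω, h ω ∂c.P ν := by
  have := Core.isProb hν c
  have hb : ∀ ω, ‖(if c.S s ω = n ∧ n < 100 * s (ω i) then h ω else 0)‖ ≤ C := by
    intro ω
    split_ifs
    · rw [Real.norm_of_nonneg (h0 ω)]; exact hC ω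
    · simpa using (h0 ω).trans (hC ω)
  rw [jumpA_fubini hν c i _ C hb, ← integral_const_mul]
  refine integral_mono_of_nonneg (ae_of_all _ fun ω => ?_) ?_ (ae_of_all _ fun ω => ?_)
  · refine integral_nonneg fun η => ?_
    dsimp only
    split_ifs
    · exact h0 _
    · exact le_rfl
  · refine (jumpA_int _ _ C fun ω => ?_).const_mul M
    rw [Real.norm_of_nonneg (h0 ω)]; exact hC ω
  · dsimp only
    simp only [hinv, jumpA_S_eq c s i, jumpA_Sx_update, Function.update_self]
    rw [jumpA_int_ite, smul_eq_mul]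
    refine mul_le_mul_of_nonneg_right ?_ (h0 ω)
    by_cases hx : n < 100 * (n - c.Sx s i ω)
    · refine le_trans (measureReal_mono ?_) (hM (n - c.Sx s i ω) hx (Nat.sub_le _ _))
      intro η hη
      simp only [Set.mem_ofPred_eq] at hη ⊢
      omega
    · have : {η | s η + c.Sx s i ω = n ∧ n < 100 * s η} = ∅ := by
        ext η
        simp only [Set.mem_ofPred_eq, Set.mem_empty_iff_false, iff_false]
        omega
      rw [this]
      simpa using hM0

/-- the main term -/
theorem jumpA_main (hν : ∀ j, IsProbabilityMeasure (ν j)) (c : Core Ω J) (i : c.I) (n : ℕ)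
    (θ : ℝ) :
    ∑ l ∈ Finset.range ((n + 1) / 2), (((c.P ν).real {ω | c.Sx s i ω = l} : ℝ) : ℂ) *
        ch (slaw (ν (c.cls i)) s z) (n - l) θ =
      ∫ ω, (if c.S s ω = n ∧ 2 * c.Sx s i ω < n then
        Complex.exp (Complex.I * ((θ * z (ω i) : ℝ) : ℂ)) else 0) ∂c.P ν := by
  have := Core.isProb hν c
  have hb : ∀ ω, ‖(if c.S s ω = n ∧ 2 * c.Sx s i ω < n then
        Complex.exp (Complex.I * ((θ * z (ω i) : ℝ) : ℂ)) else 0)‖ ≤ 1 := by
    intro ω
    split_ifs
    · rw [Complex.norm_exp_I_mul_ofReal]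
    · simp
  rw [jumpA_fubini hν c i _ 1 hb]
  simp only [jumpA_S_eq c s i, jumpA_Sx_update, Function.update_self]
  have h1 : ∀ l, (((c.P ν).real {ω | c.Sx s i ω = l} : ℝ) : ℂ) *
        ch (slaw (ν (c.cls i)) s z) (n - l) θ =
      ∫ ω, (if c.Sx s i ω = l then ch (slaw (ν (c.cls i)) s z) (n - l) θ else 0) ∂c.P ν := by
    intro l
    rw [jumpA_int_ite, Complex.real_smul]
  simp only [h1]
  rw [← integral_finsetSum]
  · refine integral_congr_ae (ae_of_all _ fun ω => ?_)
    dsimp only
    rw [Finset.sum_ite_eq]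
    unfold slaw
    rw [jumpA_ch_map]
    by_cases hx : 2 * c.Sx s i ω < n
    · rw [if_pos (Finset.mem_range.2 (by omega))]
      refine integral_congr_ae (ae_of_all _ fun η => ?_)
      dsimp only
      refine if_congr ?_ rfl rfl
      omega
    · rw [if_neg (fun hh => hx (by have := Finset.mem_range.1 hh; omega))]
      simp [hx]
  · intro l _
    refine jumpA_int _ _ ‖ch (slaw (ν (c.cls i)) s z) (n - l) θ‖ fun ω => ?_
    split_ifs
    · exact le_rfl
    · simp

/-- Chernoff bound when all slots are small -/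
theorem jumpA_chernoff (h : Slots1 ν s z) (c : Core Ω J) (n : ℕ) {l : ℝ} (hl : 0 ≤ l) {M : ℝ}
    (hM : ∀ j, ∫ η, (s η : ℝ) ∂ν j ≤ M) :
    ∫ ω, (if c.S s ω = n ∧ ∀ i, 100 * s (ω i) ≤ n then (1 : ℝ) else 0) ∂c.P ν ≤
      Real.exp (l * (c.s0 - n) + c.k * (l * Real.exp (l * n / 100) * M)) := by
  have := h.prob
  have := Core.isProb h.prob c
  set f : Ω → ℝ := fun η => if 100 * s η ≤ n then Real.exp (l * s η) else 0 with hf
  have hf0 : ∀ η, 0 ≤ f η := fun η => by
    simp only [hf]; split_ifs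
    · exact (Real.exp_pos _).le
    · exact le_rfl
  have hle : ∀ η, 100 * s η ≤ n → l * s η ≤ l * n / 100 := fun η hη => by
    have : (100 : ℝ) * s η ≤ n := by exact_mod_cast hη
    nlinarith
  have hfC : ∀ η, f η ≤ Real.exp (l * n / 100) := fun η => by
    simp only [hf]; split_ifs with hη
    · exact Real.exp_le_exp.2 (hle η hη)
    · exact (Real.exp_pos _).le
  have hf1 : ∀ η, f η ≤ 1 + l * Real.exp (l * n / 100) * s η := fun η => by
    have hs : (0 : ℝ) ≤ s η := Nat.cast_nonneg _
    simp only [hf]; split_ifs with hη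
    · have h1 : Real.exp (l * s η) ≤ Real.exp (l * n / 100) := Real.exp_le_exp.2 (hle η hη)
      have h2 : 1 - l * s η ≤ Real.exp (-(l * s η)) := by
        have := Real.add_one_le_exp (-(l * s η)); linarith
      have h3 : Real.exp (-(l * s η)) * Real.exp (l * s η) = 1 := by
        rw [← Real.exp_add]; simp
      have h4 : (1 - l * s η) * Real.exp (l * s η) ≤ 1 := by
        exact (mul_le_mul_of_nonneg_right h2 (Real.exp_pos _).le).trans h3.le
      have h5 : l * s η * Real.exp (l * s η) ≤ l * s η * Real.exp (l * n / 100) :=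
        mul_le_mul_of_nonneg_left h1 (mul_nonneg hl hs)
      nlinarith
    · positivity
  have hint : ∀ j, ∫ η, f η ∂ν j ≤ Real.exp (l * Real.exp (l * n / 100) * M) := fun j => by
    have h1 : ∫ η, f η ∂ν j ≤ ∫ η, (1 + l * Real.exp (l * n / 100) * s η) ∂ν j :=
      integral_mono_of_nonneg (ae_of_all _ hf0)
        ((integrable_const _).add ((h.int_s j).const_mul _)) (ae_of_all _ hf1)
    rw [integral_add (integrable_const _) ((h.int_s j).const_mul _), integral_const_mul] at h1
    simp only [integral_const, probReal_univ, smul_eq_mul, mul_one] at h1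
    have h2 : l * Real.exp (l * n / 100) * ∫ η, (s η : ℝ) ∂ν j ≤
        l * Real.exp (l * n / 100) * M := mul_le_mul_of_nonneg_left (hM j) (by positivity)
    have := Real.add_one_le_exp (l * Real.exp (l * n / 100) * M)
    linarith
  calc ∫ ω, (if c.S s ω = n ∧ ∀ i, 100 * s (ω i) ≤ n then (1 : ℝ) else 0) ∂c.P ν
      ≤ ∫ ω, Real.exp (l * (c.s0 - n)) * ∏ i, f (ω i) ∂c.P ν := by
        refine integral_mono_of_nonneg (ae_of_all _ fun ω => ?_) ?_ (ae_of_all _ fun ω => ?_)
        · dsimp only; split_ifs <;> simp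
        · refine (jumpA_int _ _ (∏ _i : c.I, Real.exp (l * n / 100)) fun ω => ?_).const_mul _
          rw [Real.norm_of_nonneg (Finset.prod_nonneg fun i _ => hf0 _)]
          exact Finset.prod_le_prod (fun i _ => hf0 _) fun i _ => hfC _
        · dsimp only
          split_ifs with hω
          · have h1 : ∏ i, f (ω i) = ∏ i, Real.exp (l * s (ω i)) :=
              Finset.prod_congr rfl fun i _ => by simp only [hf]; rw [if_pos (hω.2 i)]
            rw [h1, ← Real.exp_sum, ← Real.exp_add, ← Finset.mul_sum]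
            have h2 : (c.s0 : ℝ) + ∑ i, (s (ω i) : ℝ) = n := by
              have := hω.1
              unfold Core.S at this
              exact_mod_cast this
            have h3 : l * (c.s0 - n) + l * ∑ i, (s (ω i) : ℝ) = 0 := by rw [← h2]; ring
            rw [h3, Real.exp_zero]
          · exact mul_nonneg (Real.exp_pos _).le (Finset.prod_nonneg fun i _ => hf0 _)
    _ = Real.exp (l * (c.s0 - n)) * ∏ i, ∫ η, f η ∂ν (c.cls i) := by
        rw [integral_const_mul]
        unfold Core.P
        rw [integral_fintype_prod_eq_prod (fun _ : c.I => f)]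
    _ ≤ Real.exp (l * (c.s0 - n)) * ∏ _i : c.I, Real.exp (l * Real.exp (l * n / 100) * M) := by
        refine mul_le_mul_of_nonneg_left ?_ (Real.exp_pos _).le
        exact Finset.prod_le_prod (fun i _ => integral_nonneg hf0) fun i _ => hint _
    _ = _ := by
        rw [Finset.prod_const, Finset.card_univ, ← Real.exp_nat_mul, ← Real.exp_add]
        rfl

end Pool.Agent.Lib.MP_77dff5_pr
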