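import Pool.Agent.Lib.MP_77dff5_pr.FamA

/-! One big jump, second moments: elementary inequalities and conditioning on one slot. -/

set_option autoImplicit false

namespace Pool.Agent.Lib.MP_77dff5_pr

open MeasureTheory ProbabilityTheory Filter Topology
open scoped ENNReal NNReal

theorem jumpB_psi_nonneg (κ u : ℝ) : 0 ≤ psi κ u := sq_nonneg _

theorem jumpB_psi_mono {κ u v : ℝ} (h : |u| ≤ |v|) : psi κ u ≤ psi κ v := by
  unfold psi
  exact pow_le_pow_left₀ (le_max_right _ _) (max_le_max (by linarith) le_rfl) 2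

theorem jumpB_psi_zero (u : ℝ) : psi 0 u = u ^ 2 := by
  unfold psi
  rw [sub_zero, max_eq_left (abs_nonneg u), sq_abs]

theorem jumpB_psi_le_sq {κ : ℝ} (hκ : 0 ≤ κ) (u : ℝ) : psi κ u ≤ u ^ 2 := by
  unfold psi
  rw [← sq_abs u]
  exact pow_le_pow_left₀ (le_max_right _ _) (max_le (by linarith) (abs_nonneg u)) 2

theorem jumpB_psi_add {ε : ℝ} (hε : 0 < ε) (κ a b : ℝ) :
    psi κ (a + b) ≤ (1 + ε) * psi κ a + (1 + 1 / ε) * b ^ 2 := by
  unfold psi
  have h1 : max (|a + b| - κ) 0 ≤ max (|a| - κ) 0 + |b| := by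
    refine max_le ?_ (add_nonneg (le_max_right _ _) (abs_nonneg b))
    have := abs_add_le a b
    have := le_max_left (|a| - κ) 0
    linarith
  refine (pow_le_pow_left₀ (le_max_right _ _) h1 2).trans ?_
  rw [← sq_abs b]
  generalize max (|a| - κ) 0 = x
  generalize |b| = y
  have h2 : 0 ≤ (ε * x - y) ^ 2 / ε := by positivity
  have h3 : (ε * x - y) ^ 2 / ε = ε * x ^ 2 - 2 * x * y + 1 / ε * y ^ 2 := by
    field_simp
    ring
  nlinarith

variable {Ω J : Type} [Countable Ω] [MeasurableSpace Ω] [DiscreteMeasurableSpace Ω]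
  {ν : J → Measure Ω} {s : Ω → ℕ} {z : Ω → ℝ} {Δ : ℕ} {B : ℝ}

theorem jumpB_cond (hν : ∀ j, IsProbabilityMeasure (ν j)) (c : Core Ω J) (i : c.I)
    (Φ : (c.I → Ω) → Ω → ℝ≥0∞) (hΦ : ∀ ω η, Φ (Function.update ω i η) = Φ ω) :
    ∫⁻ ω, Φ ω (ω i) ∂c.P ν = ∫⁻ ω, ∫⁻ η, Φ ω η ∂ν (c.cls i) ∂c.P ν := by
  unfold Core.P
  rw [← (measurePreserving_update (fun i => ν (c.cls i)) i).lintegral_comp Measurable.of_discrete,
    lintegral_prod_symm' _ Measurable.of_discrete]
  simp [hΦ]

omit [Countable Ω] in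
theorem jumpB_m2_slaw (μ : Measure Ω) (l : ℕ) (κ : ℝ) :
    m2 (slaw μ s z) l κ = ∫⁻ η, (if s η = l then ENNReal.ofReal (psi κ (z η / √l)) else 0) ∂μ := by
  unfold m2 slaw
  have hm : MeasurableSet {p : ℕ × ℝ | p.1 = l} := measurable_fst (measurableSet_singleton l)
  have hp : Measurable fun p : ℕ × ℝ => ENNReal.ofReal (psi κ (p.2 / √l)) := by
    unfold psi
    fun_prop
  rw [← lintegral_indicator hm, lintegral_map (hp.indicator hm) Measurable.of_discrete]
  refine lintegral_congr fun η => ?_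
  simp [Set.indicator_apply]

omit [Countable Ω] in
theorem jumpB_pm_slaw (μ : Measure Ω) (l : ℕ) :
    pm (slaw μ s z) l = μ.real {η | s η = l} := by
  unfold pm slaw
  have hm : MeasurableSet {p : ℕ × ℝ | p.1 = l} := measurable_fst (measurableSet_singleton l)
  rw [map_measureReal_apply Measurable.of_discrete hm]
  rfl

omit [Countable Ω] [MeasurableSpace Ω] [DiscreteMeasurableSpace Ω] in
theorem jumpB_S_eq (c : Core Ω J) (i : c.I) (ω : c.I → Ω) :
    c.S s ω = c.Sx s i ω + s (ω i) := by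
  unfold Core.S Core.Sx
  rw [add_assoc, Finset.sum_erase_add _ _ (Finset.mem_univ i)]

omit [Countable Ω] [MeasurableSpace Ω] [DiscreteMeasurableSpace Ω] in
theorem jumpB_sum_update {M : Type} [AddCommMonoid M] (c : Core Ω J) (f : Ω → M) (i : c.I)
    (ω : c.I → Ω) (η : Ω) :
    ∑ i' ∈ Finset.univ.erase i, f (Function.update ω i η i') =
      ∑ i' ∈ Finset.univ.erase i, f (ω i') := by
  refine Finset.sum_congr rfl fun i' hi' => ?_
  rw [Function.update_of_ne (Finset.ne_of_mem_erase hi')]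

omit [Countable Ω] [MeasurableSpace Ω] [DiscreteMeasurableSpace Ω] in
theorem jumpB_Sx_update (c : Core Ω J) (i : c.I) (ω : c.I → Ω) (η : Ω) :
    c.Sx s i (Function.update ω i η) = c.Sx s i ω := by
  unfold Core.Sx
  rw [jumpB_sum_update c s]

/-- main term -/
theorem jumpB_T1 (hν : ∀ j, IsProbabilityMeasure (ν j)) (c : Core Ω J) (i : c.I) (n : ℕ) (κ : ℝ) :
    ∫⁻ ω, (if c.S s ω = n ∧ 2 * c.Sx s i ω < n then
        ENNReal.ofReal (psi κ (z (ω i) / √n)) else 0) ∂c.P ν ≤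
      ∑ l ∈ Finset.range ((n + 1) / 2),
        c.P ν {ω | c.Sx s i ω = l} * m2 (slaw (ν (c.cls i)) s z) (n - l) κ := by
  have h := jumpB_cond hν c i (fun ω η => if c.Sx s i ω + s η = n ∧ 2 * c.Sx s i ω < n then
        ENNReal.ofReal (psi κ (z η / √n)) else 0) (fun ω η => by simp only [jumpB_Sx_update])
  simp only [jumpB_S_eq c i]
  rw [h]
  have h2 : ∀ l ∈ Finset.range ((n + 1) / 2),
      c.P ν {ω | c.Sx s i ω = l} * m2 (slaw (ν (c.cls i)) s z) (n - l) κ =
        ∫⁻ ω, (if c.Sx s i ω = l then m2 (slaw (ν (c.cls i)) s z) (n - l) κ else 0) ∂c.P ν := by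
    intro l _
    rw [mul_comm, ← lintegral_indicator_const MeasurableSet.of_discrete]
    refine lintegral_congr fun ω => ?_
    simp [Set.indicator_apply]
  rw [Finset.sum_congr rfl h2, ← lintegral_finsetSum _ fun _ _ => Measurable.of_discrete]
  refine lintegral_mono fun ω => ?_
  by_cases hω : 2 * c.Sx s i ω < n
  · rw [Finset.sum_ite_eq, if_pos (Finset.mem_range.2 (by omega)), jumpB_m2_slaw]
    refine lintegral_mono fun η => ?_
    by_cases h3 : c.Sx s i ω + s η = n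
    · rw [if_pos ⟨h3, hω⟩, if_pos (by omega)]
      refine ENNReal.ofReal_le_ofReal (jumpB_psi_mono ?_)
      rw [abs_div, abs_div, abs_of_nonneg (Real.sqrt_nonneg _), abs_of_nonneg (Real.sqrt_nonneg _)]
      refine div_le_div_of_nonneg_left (abs_nonneg _) (Real.sqrt_pos.2 ?_)
        (Real.sqrt_le_sqrt (Nat.cast_le.2 (Nat.sub_le _ _)))
      exact Nat.cast_pos.2 (by omega)
    · rw [if_neg fun h4 => h3 h4.1]
      exact zero_le
  · simp [hω]

/-- a medium jump, the value of the jumping slot -/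
theorem jumpB_T2 (hν : ∀ j, IsProbabilityMeasure (ν j)) (c : Core Ω J) (i : c.I) (n : ℕ)
    (b : ℝ≥0∞) (f : Ω → ℝ≥0∞)
    (hb : ∀ l, n < 100 * l → l ≤ n → ∫⁻ η, (if s η = l then f η else 0) ∂ν (c.cls i) ≤ b) :
    ∫⁻ ω, (if c.S s ω = n ∧ n ≤ 2 * c.Sx s i ω ∧ n < 100 * s (ω i) then f (ω i) else 0) ∂c.P ν ≤
      b * c.P ν {ω | n ≤ 2 * c.S s ω} := by
  have h := jumpB_cond hν c i (fun ω η => if c.Sx s i ω + s η = n ∧ n ≤ 2 * c.Sx s i ω ∧
        n < 100 * s η then f η else 0) (fun ω η => by simp only [jumpB_Sx_update])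
  simp only [jumpB_S_eq c i]
  rw [h, ← lintegral_indicator_const MeasurableSet.of_discrete]
  refine lintegral_mono fun ω => ?_
  by_cases hω : n ≤ 2 * c.Sx s i ω ∧ c.Sx s i ω ≤ n ∧ n < 100 * (n - c.Sx s i ω)
  · rw [Set.indicator_of_mem (by simp only [Set.mem_ofPred_eq]; omega)]
    refine le_trans (lintegral_mono fun η => ?_) (hb (n - c.Sx s i ω) hω.2.2 (Nat.sub_le _ _))
    by_cases h3 : c.Sx s i ω + s η = n ∧ n ≤ 2 * c.Sx s i ω ∧ n < 100 * s η
    · rw [if_pos h3, if_pos (by omega)]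
    · rw [if_neg h3]
      exact zero_le
  · refine le_trans (le_of_eq ?_) zero_le
    rw [lintegral_eq_zero_iff Measurable.of_discrete]
    refine Eventually.of_forall fun η => ?_
    simp only [Pi.zero_apply]
    rw [if_neg]
    intro h3
    apply hω
    omega

/-- a jump, the part of the value that does not depend on the jumping slot -/
theorem jumpB_T3 (hν : ∀ j, IsProbabilityMeasure (ν j)) (c : Core Ω J) (i : c.I) (n : ℕ)
    (a : ℝ≥0∞) (G : (c.I → Ω) → ℝ≥0∞) (hG : ∀ ω η, G (Function.update ω i η) = G ω)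
    (ha : ∀ l, n < 100 * l → l ≤ n → ν (c.cls i) {η | s η = l} ≤ a) :
    ∫⁻ ω, (if c.S s ω = n ∧ n < 100 * s (ω i) then G ω else 0) ∂c.P ν ≤ a * ∫⁻ ω, G ω ∂c.P ν := by
  have h := jumpB_cond hν c i (fun ω η => if c.Sx s i ω + s η = n ∧
        n < 100 * s η then G ω else 0) (fun ω η => by simp only [jumpB_Sx_update, hG])
  simp only [jumpB_S_eq c i]
  rw [h, ← lintegral_const_mul _ Measurable.of_discrete]
  refine lintegral_mono fun ω => ?_
  by_cases hω : c.Sx s i ω ≤ n ∧ n < 100 * (n - c.Sx s i ω)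
  · refine le_trans ?_ (mul_le_mul_left (ha (n - c.Sx s i ω) hω.2 (Nat.sub_le _ _)) _)
    rw [mul_comm, ← lintegral_indicator_const MeasurableSet.of_discrete]
    refine lintegral_mono fun η => ?_
    by_cases h3 : c.Sx s i ω + s η = n ∧ n < 100 * s η
    · rw [if_pos h3, Set.indicator_of_mem (by simp only [Set.mem_ofPred_eq]; omega)]
    · rw [if_neg h3]
      exact zero_le
  · refine le_trans (le_of_eq ?_) zero_le
    rw [lintegral_eq_zero_iff Measurable.of_discrete]
    refine Eventually.of_forall fun η => ?_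
    simp only [Pi.zero_apply]
    rw [if_neg]
    intro h3
    apply hω
    omega

end Pool.Agent.Lib.MP_77dff5_pr
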