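import Pool.Agent.Lib.MP_77dff5_pr.JumpBAux1

/-! One big jump, second moments: all slots small (Chernoff bound), and remainder terms. -/

set_option autoImplicit false

namespace Pool.Agent.Lib.MP_77dff5_pr

open MeasureTheory ProbabilityTheory Filter Topology
open scoped ENNReal NNReal

theorem jumpB_k_le {k n : ℕ} (h : k ^ 10 ≤ n ^ 9) : (k : ℝ) ≤ (n : ℝ) ^ (9 / 10 : ℝ) := by
  have h1 : ((k : ℝ)) ^ 10 ≤ ((n : ℝ) ^ (9 / 10 : ℝ)) ^ 10 := by
    rw [← Real.rpow_natCast ((n : ℝ) ^ (9 / 10 : ℝ)), ← Real.rpow_mul (Nat.cast_nonneg n)]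
    norm_num
    exact_mod_cast h
  exact (pow_le_pow_iff_left₀ (Nat.cast_nonneg k) (by positivity) (by norm_num)).1 h1

theorem jumpB_exp_le (x : ℝ) : Real.exp x ≤ 1 + x * Real.exp x := by
  have h1 := Real.add_one_le_exp (-x)
  have h2 : Real.exp (-x) * Real.exp x = 1 := by rw [← Real.exp_add]; simp
  have h3 := Real.exp_pos x
  nlinarith

theorem jumpB_num {k n : ℕ} (hn : 1 ≤ n) (h : k ^ 10 ≤ n ^ 9) :
    (k : ℝ) * (6 * Real.log n / n * Real.exp (6 * Real.log n / n * (n / 100))) ≤ 150 := by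
  have hn' : (0 : ℝ) < n := Nat.cast_pos.2 hn
  have h1 := jumpB_k_le h
  have h2 : Real.log n ≤ (n : ℝ) ^ (1 / 25 : ℝ) / (1 / 25) := Real.log_le_rpow_div hn'.le (by norm_num)
  have h3 : Real.exp (6 * Real.log n / n * (n / 100)) = (n : ℝ) ^ (3 / 50 : ℝ) := by
    rw [Real.rpow_def_of_pos hn']
    congr 1
    field_simp
    ring
  have h4 : 0 ≤ Real.log n := Real.log_nonneg (by exact_mod_cast hn)
  have h5 : (n : ℝ) ^ (9 / 10 : ℝ) * (n : ℝ) ^ (1 / 25 : ℝ) * (n : ℝ) ^ (3 / 50 : ℝ) = n := by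
    rw [← Real.rpow_add hn', ← Real.rpow_add hn']
    norm_num
  rw [h3]
  calc (k : ℝ) * (6 * Real.log n / n * (n : ℝ) ^ (3 / 50 : ℝ))
      ≤ (n : ℝ) ^ (9 / 10 : ℝ) * (6 * ((n : ℝ) ^ (1 / 25 : ℝ) / (1 / 25)) / n *
          (n : ℝ) ^ (3 / 50 : ℝ)) := by gcongr
    _ = 150 * (((n : ℝ) ^ (9 / 10 : ℝ) * (n : ℝ) ^ (1 / 25 : ℝ) * (n : ℝ) ^ (3 / 50 : ℝ)) / n) := by
        ring
    _ = 150 := by rw [h5, div_self hn'.ne', mul_one]

variable {Ω J : Type} [Countable Ω] [MeasurableSpace Ω] [DiscreteMeasurableSpace Ω] [Fintype J]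
  {ν : J → Measure Ω} {s : Ω → ℕ} {z : Ω → ℝ} {Δ : ℕ} {B : ℝ}

/-- truncated size -/
def jumpB_tr {Ω : Type} (s : Ω → ℕ) (n : ℕ) (η : Ω) : ℕ := if 100 * s η ≤ n then s η else 0

omit [Countable Ω] [Fintype J] in
theorem jumpB_mgf_le (h : Slots1 ν s z) (j : J) (n : ℕ) {l : ℝ} (hl : 0 ≤ l) :
    Integrable (fun η => Real.exp (l * jumpB_tr s n η)) (ν j) ∧
    ∫ η, Real.exp (l * jumpB_tr s n η) ∂ν j ≤
      Real.exp (l * Real.exp (l * (n / 100)) * ∫ η, (s η : ℝ) ∂ν j) := by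
  have := h.prob j
  have h1 : ∀ η, Real.exp (l * jumpB_tr s n η) ≤ 1 + l * Real.exp (l * (n / 100)) * s η := by
    intro η
    unfold jumpB_tr
    split_ifs with h2
    · refine (jumpB_exp_le _).trans ?_
      have h3 : (s η : ℝ) ≤ n / 100 := by
        have : (100 * s η : ℝ) ≤ n := by exact_mod_cast h2
        linarith
      have h4 : Real.exp (l * s η) ≤ Real.exp (l * (n / 100)) := by gcongr
      have h5 : 0 ≤ l * s η := by positivity
      nlinarith
    · simp only [Nat.cast_zero, mul_zero, Real.exp_zero, le_add_iff_nonneg_right]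
      positivity
  have h2 : Integrable (fun η => 1 + l * Real.exp (l * (n / 100)) * s η) (ν j) :=
    (integrable_const _).add ((h.int_s j).const_mul _)
  have h3 : Integrable (fun η => Real.exp (l * jumpB_tr s n η)) (ν j) := by
    refine h2.mono' Measurable.of_discrete.aestronglyMeasurable (Eventually.of_forall fun η => ?_)
    rw [Real.norm_eq_abs, abs_of_pos (Real.exp_pos _)]
    exact h1 η
  refine ⟨h3, (integral_mono h3 h2 h1).trans ?_⟩
  rw [integral_add (integrable_const _) ((h.int_s j).const_mul _), integral_const_mul]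
  simp only [integral_const, probReal_univ, smul_eq_mul, mul_one]
  rw [add_comm]
  exact Real.add_one_le_exp _

theorem jumpB_chern (h : Slots1 ν s z) : ∃ C : ℝ, 0 ≤ C ∧ ∀ n : ℕ, 1 ≤ n → ∀ c : Core Ω J,
    c.k ^ 10 ≤ n ^ 9 → c.P ν {ω | n ≤ 2 * ∑ i, jumpB_tr s n (ω i)} ≤
      ENNReal.ofReal (C * (n : ℝ) ^ (-3 : ℝ)) := by
  set m : ℝ := ∑ j, ∫ η, (s η : ℝ) ∂ν j with hm
  have hm0 : ∀ j, 0 ≤ ∫ η, (s η : ℝ) ∂ν j := fun j => integral_nonneg fun η => Nat.cast_nonneg _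
  have hm1 : ∀ j, ∫ η, (s η : ℝ) ∂ν j ≤ m := fun j =>
    Finset.single_le_sum (f := fun j => ∫ η, (s η : ℝ) ∂ν j) (fun j _ => hm0 j) (Finset.mem_univ j)
  have hm2 : 0 ≤ m := Finset.sum_nonneg fun j _ => hm0 j
  refine ⟨Real.exp (150 * m), (Real.exp_pos _).le, fun n hn c hk => ?_⟩
  have := h.prob
  have := Core.isProb h.prob c
  have hn' : (0 : ℝ) < n := Nat.cast_pos.2 hn
  set l : ℝ := 6 * Real.log n / n with hl
  have hl0 : 0 ≤ l := by
    have : 0 ≤ Real.log n := Real.log_nonneg (by exact_mod_cast hn)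
    positivity
  have e1 : ∀ ω : c.I → Ω, Real.exp (l * ∑ i, (jumpB_tr s n (ω i) : ℝ)) =
      ∏ i, Real.exp (l * jumpB_tr s n (ω i)) := by
    intro ω
    rw [Finset.mul_sum, Real.exp_sum]
  have hint : Integrable (fun ω : c.I → Ω => Real.exp (l * ∑ i, (jumpB_tr s n (ω i) : ℝ)))
      (c.P ν) := by
    simp only [e1]
    exact Integrable.fintype_prod (f := fun i η => Real.exp (l * jumpB_tr s n η))
      fun i => (jumpB_mgf_le h (c.cls i) n hl0).1
  have h1 := measure_ge_le_exp_mul_mgf (μ := c.P ν)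
    (X := fun ω => ∑ i, (jumpB_tr s n (ω i) : ℝ)) (t := l) (n / 2) hl0 hint
  have h2 : mgf (fun ω => ∑ i, (jumpB_tr s n (ω i) : ℝ)) (c.P ν) l ≤ Real.exp (150 * m) := by
    unfold mgf
    simp only [e1]
    unfold Core.P
    rw [integral_fintype_prod_eq_prod (fun i η => Real.exp (l * jumpB_tr s n η))]
    calc ∏ i, ∫ η, Real.exp (l * jumpB_tr s n η) ∂ν (c.cls i)
        ≤ ∏ _i : c.I, Real.exp (l * Real.exp (l * (n / 100)) * m) := by
          refine Finset.prod_le_prod (fun i _ => integral_nonneg fun η => (Real.exp_pos _).le)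
            fun i _ => (jumpB_mgf_le h (c.cls i) n hl0).2.trans ?_
          gcongr
          exact hm1 _
      _ = Real.exp (c.k * (l * Real.exp (l * (n / 100))) * m) := by
          rw [Finset.prod_const, ← Real.exp_nat_mul, Finset.card_univ]
          congr 1
          unfold Core.k
          ring
      _ ≤ Real.exp (150 * m) := by
          gcongr
          exact jumpB_num hn hk
  have h3 : Real.exp (-l * (n / 2)) = (n : ℝ) ^ (-3 : ℝ) := by
    rw [Real.rpow_def_of_pos hn', hl]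
    congr 1
    field_simp
    ring
  have h4 : {ω : c.I → Ω | n ≤ 2 * ∑ i, jumpB_tr s n (ω i)} =
      {ω | (n : ℝ) / 2 ≤ ∑ i, (jumpB_tr s n (ω i) : ℝ)} := by
    ext ω
    simp only [Set.mem_ofPred_eq]
    rw [div_le_iff₀ two_pos, mul_comm _ (2 : ℝ)]
    norm_cast
  rw [h4, ← ENNReal.ofReal_toReal (measure_ne_top (c.P ν) _)]
  refine ENNReal.ofReal_le_ofReal (h1.trans ?_)
  rw [h3, mul_comm]
  gcongr

omit [Countable Ω] [DiscreteMeasurableSpace Ω] in
theorem jumpB_M2 (h : Slots ν s z) : ∃ M : ℝ, 0 ≤ M ∧ ∀ j,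
    ∫⁻ η, ENNReal.ofReal (z η ^ 2) ∂ν j ≤ ENNReal.ofReal M := by
  have h0 : ∀ j, 0 ≤ ∫ η, z η ^ 2 ∂ν j := fun j => integral_nonneg fun η => sq_nonneg _
  refine ⟨∑ j, ∫ η, z η ^ 2 ∂ν j, Finset.sum_nonneg fun j _ => h0 j, fun j => ?_⟩
  rw [← ofReal_integral_eq_lintegral_ofReal (h.mem_z j).integrable_sq
    (Eventually.of_forall fun η => sq_nonneg _)]
  exact ENNReal.ofReal_le_ofReal (Finset.single_le_sum (f := fun j => ∫ η, z η ^ 2 ∂ν j)
    (fun j _ => h0 j) (Finset.mem_univ j))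

omit [Countable Ω] [MeasurableSpace Ω] [DiscreteMeasurableSpace Ω] [Fintype J] in
theorem jumpB_B_nonneg {c : Core Ω J} (hc : c.Good Δ B) : 0 ≤ B := by
  have h1 := (abs_nonneg _).trans hc.z0_le
  exact nonneg_of_mul_nonneg_left h1 (by positivity)

omit [Countable Ω] [MeasurableSpace Ω] [DiscreteMeasurableSpace Ω] [Fintype J] in
theorem jumpB_Z_sq_le {c : Core Ω J} (hc : c.Good Δ B) (ω : c.I → Ω) :
    c.Z z ω ^ 2 ≤ 3 * (B ^ 2 + (Δ * B) ^ 2) * (c.k + 1) ^ 2 + ∑ i, 3 * c.k * z (ω i) ^ 2 := by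
  have hB := jumpB_B_nonneg hc
  have h1 : c.z0 ^ 2 ≤ (B * (c.k + 1)) ^ 2 := by
    rw [← sq_abs]
    exact pow_le_pow_left₀ (abs_nonneg _) hc.z0_le 2
  have h2 : |∑ v, c.g v ω| ≤ Δ * (c.k + 1) * B := by
    refine (Finset.abs_sum_le_sum_abs _ _).trans ((Finset.sum_le_sum fun v _ => hc.bd v ω).trans ?_)
    rw [Finset.sum_const, Finset.card_univ, nsmul_eq_mul]
    gcongr
    exact_mod_cast hc.W_card
  have h3 : (∑ v, c.g v ω) ^ 2 ≤ (Δ * (c.k + 1) * B) ^ 2 := by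
    rw [← sq_abs]
    exact pow_le_pow_left₀ (abs_nonneg _) h2 2
  have h4 : (∑ i, z (ω i)) ^ 2 ≤ c.k * ∑ i, z (ω i) ^ 2 := by
    have := sq_sum_le_card_mul_sum_sq (s := Finset.univ) (f := fun i => z (ω i))
    rwa [Finset.card_univ] at this
  rw [← Finset.mul_sum]
  unfold Core.Z
  generalize ∑ v, c.g v ω = x at *
  generalize ∑ i, z (ω i) = y at *
  nlinarith [sq_nonneg (c.z0 - y), sq_nonneg (c.z0 - x), sq_nonneg (x - y)]

/-- all slots are small -/
theorem jumpB_T4 (h : Slots ν s z) (Δ : ℕ) (B : ℝ) : ∃ C : ℝ, 0 ≤ C ∧ ∀ n : ℕ, 1 ≤ n →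
    ∀ c : Core Ω J, c.Good Δ B → c.k ^ 10 ≤ n ^ 9 → 100 * c.s0 ≤ n →
      ∫⁻ ω, (if c.S s ω = n ∧ ∀ i, 100 * s (ω i) ≤ n then ENNReal.ofReal (c.Z z ω ^ 2) else 0)
        ∂c.P ν ≤ ENNReal.ofReal (C * (c.k + 1) ^ 2 * (n : ℝ) ^ (-3 : ℝ)) := by
  obtain ⟨C, hC, hch⟩ := jumpB_chern h.toSlots1
  obtain ⟨M, hM, hz⟩ := jumpB_M2 h
  refine ⟨(3 * (B ^ 2 + (Δ * B) ^ 2) + 3 * M) * C, by positivity, fun n hn c hc hk hs => ?_⟩
  set c1 : ℝ := 3 * (B ^ 2 + (Δ * B) ^ 2) * (c.k + 1) ^ 2 with hc1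
  have hc10 : 0 ≤ c1 := by positivity
  set A : Set (c.I → Ω) := {ω | n ≤ 2 * ∑ i, jumpB_tr s n (ω i)} with hA
  have hpt : ∀ ω : c.I → Ω,
      (if c.S s ω = n ∧ ∀ i, 100 * s (ω i) ≤ n then ENNReal.ofReal (c.Z z ω ^ 2) else 0) ≤
        A.indicator (fun _ => ENNReal.ofReal c1) ω + ∑ i, ENNReal.ofReal (3 * c.k) *
          (if n ≤ 2 * ∑ i' ∈ Finset.univ.erase i, jumpB_tr s n (ω i') then
            ENNReal.ofReal (z (ω i) ^ 2) else 0) := by
    intro ω
    split_ifs with h1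
    · have h2 : ∀ i, jumpB_tr s n (ω i) = s (ω i) := fun i => if_pos (h1.2 i)
      have h3 : ω ∈ A := by
        have := h1.1
        unfold Core.S at this
        simp only [hA, Set.mem_ofPred_eq, h2]
        omega
      have h4 : ∀ i, n ≤ 2 * ∑ i' ∈ Finset.univ.erase i, jumpB_tr s n (ω i') := by
        intro i
        have h5 := h1.1
        rw [jumpB_S_eq c i] at h5
        unfold Core.Sx at h5
        have h6 := h1.2 i
        simp only [h2]
        omega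
      rw [Set.indicator_of_mem h3]
      simp only [h4, if_true]
      refine (ENNReal.ofReal_le_ofReal (jumpB_Z_sq_le hc ω)).trans (le_of_eq ?_)
      rw [ENNReal.ofReal_add hc10 (Finset.sum_nonneg fun i _ => by positivity),
        ENNReal.ofReal_sum_of_nonneg fun i _ => by positivity]
      congr 1
      refine Finset.sum_congr rfl fun i _ => ?_
      rw [ENNReal.ofReal_mul (by positivity)]
    · exact zero_le
  have hi : ∀ i, ∫⁻ ω, (if n ≤ 2 * ∑ i' ∈ Finset.univ.erase i, jumpB_tr s n (ω i') then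
      ENNReal.ofReal (z (ω i) ^ 2) else 0) ∂c.P ν ≤ ENNReal.ofReal M * c.P ν A := by
    intro i
    rw [jumpB_cond h.prob c i (fun ω η => if n ≤ 2 * ∑ i' ∈ Finset.univ.erase i,
      jumpB_tr s n (ω i') then ENNReal.ofReal (z η ^ 2) else 0)
      (fun ω η => by simp only [jumpB_sum_update c (jumpB_tr s n)]),
      ← lintegral_indicator_const MeasurableSet.of_discrete]
    refine lintegral_mono fun ω => ?_
    by_cases h1 : n ≤ 2 * ∑ i' ∈ Finset.univ.erase i, jumpB_tr s n (ω i')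
    · have h3 : ω ∈ A := by
        simp only [hA, Set.mem_ofPred_eq]
        rw [← Finset.sum_erase_add _ _ (Finset.mem_univ i)]
        omega
      rw [Set.indicator_of_mem h3]
      simp only [h1, if_true]
      exact hz _
    · simp [h1]
  refine (lintegral_mono hpt).trans ?_
  rw [lintegral_add_left Measurable.of_discrete, lintegral_indicator_const MeasurableSet.of_discrete,
    lintegral_finsetSum _ fun _ _ => Measurable.of_discrete]
  simp only [lintegral_const_mul _ Measurable.of_discrete]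
  have hP := hch n hn c hk
  have hr : 0 ≤ (n : ℝ) ^ (-3 : ℝ) := by positivity
  calc ENNReal.ofReal c1 * c.P ν A + ∑ i, ENNReal.ofReal (3 * c.k) *
        ∫⁻ ω, (if n ≤ 2 * ∑ i' ∈ Finset.univ.erase i, jumpB_tr s n (ω i') then
          ENNReal.ofReal (z (ω i) ^ 2) else 0) ∂c.P ν
      ≤ ENNReal.ofReal c1 * ENNReal.ofReal (C * (n : ℝ) ^ (-3 : ℝ)) +
          ∑ _i : c.I, ENNReal.ofReal (3 * c.k) *
            (ENNReal.ofReal M * ENNReal.ofReal (C * (n : ℝ) ^ (-3 : ℝ))) := by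
        gcongr with i
        exact (hi i).trans (by gcongr)
    _ = ENNReal.ofReal (c1 * (C * (n : ℝ) ^ (-3 : ℝ)) +
          c.k * (3 * c.k * (M * (C * (n : ℝ) ^ (-3 : ℝ))))) := by
        rw [Finset.sum_const, Finset.card_univ, nsmul_eq_mul,
          ENNReal.ofReal_add (by positivity) (by positivity), ENNReal.ofReal_mul hc10,
          ENNReal.ofReal_mul (Nat.cast_nonneg _), ENNReal.ofReal_mul (by positivity : (0 : ℝ) ≤ 3 * c.k),
          ENNReal.ofReal_mul hM, ENNReal.ofReal_natCast]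
        rfl
    _ ≤ _ := by
        refine ENNReal.ofReal_le_ofReal ?_
        have h1 : (c.k : ℝ) * c.k ≤ (c.k + 1) ^ 2 := by nlinarith [(Nat.cast_nonneg c.k : (0 : ℝ) ≤ c.k)]
        have h2 : 0 ≤ M * (C * (n : ℝ) ^ (-3 : ℝ)) := by positivity
        rw [hc1]
        nlinarith

end Pool.Agent.Lib.MP_77dff5_pr
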