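import Pool.Agent.Lib.MP_77dff5_pr.PDefs

/-! The singular expansion of a characteristic function from local asymptotics. -/

set_option autoImplicit false

namespace Pool.Agent.Lib.MP_77dff5_pr

open MeasureTheory ProbabilityTheory Filter Topology Set
open scoped ENNReal NNReal

/-- `exp (i u) - 1 - i u` -/
noncomputable def kernelC_G (u : ℝ) : ℂ :=
  Complex.exp (Complex.I * (u : ℂ)) - 1 - Complex.I * (u : ℂ)

theorem kernelC_G_cont : Continuous kernelC_G := by
  unfold kernelC_G; fun_prop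

theorem kernelC_G_zero : kernelC_G 0 = 0 := by simp [kernelC_G]

theorem kernelC_G_neg (u : ℝ) : kernelC_G (-u) = (starRingEnd ℂ) (kernelC_G u) := by
  simp [kernelC_G, ← Complex.exp_conj]

theorem kernelC_G_le_lin (u : ℝ) : ‖kernelC_G u‖ ≤ 2 * |u| := by
  have h1 : ‖Complex.exp (Complex.I * (u : ℂ)) - 1‖ ≤ ‖u‖ := Real.norm_exp_I_mul_ofReal_sub_one_le
  have h2 : ‖Complex.I * (u : ℂ)‖ = |u| := by simp
  have := norm_sub_le (Complex.exp (Complex.I * (u : ℂ)) - 1) (Complex.I * (u : ℂ))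
  rw [Real.norm_eq_abs] at h1
  unfold kernelC_G
  linarith

theorem kernelC_G_le_sq (u : ℝ) : ‖kernelC_G u‖ ≤ 2 * u ^ 2 := by
  have h2 : ‖Complex.I * (u : ℂ)‖ = |u| := by simp
  rcases le_total |u| 1 with h | h
  · have := Complex.norm_exp_sub_one_sub_id_le (x := Complex.I * (u : ℂ)) (by rwa [h2])
    rw [h2, sq_abs] at this
    unfold kernelC_G
    nlinarith [sq_nonneg u]
  · have := kernelC_G_le_lin u
    have h3 : |u| ≤ u ^ 2 := by rw [← sq_abs]; nlinarith [abs_nonneg u]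
    linarith

/-- the dominating function -/
noncomputable def kernelC_h (u : ℝ) : ℝ := 2 * min (u ^ (-(1 / 2) : ℝ)) (u ^ (-(3 / 2) : ℝ))

theorem kernelC_h_anti {u v : ℝ} (hu : 0 < u) (huv : u ≤ v) : kernelC_h v ≤ kernelC_h u := by
  unfold kernelC_h
  gcongr 2 * min ?_ ?_
  · exact Real.rpow_le_rpow_of_nonpos hu huv (by norm_num)
  · exact Real.rpow_le_rpow_of_nonpos hu huv (by norm_num)

theorem kernelC_h_bound {u : ℝ} (hu : 0 < u) :
    u ^ (-(5 / 2) : ℝ) * ‖kernelC_G u‖ ≤ kernelC_h u := by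
  have h0 : 0 ≤ u ^ (-(5 / 2) : ℝ) := Real.rpow_nonneg hu.le _
  unfold kernelC_h
  rw [mul_min_of_nonneg _ _ (by norm_num : (0 : ℝ) ≤ 2)]
  refine le_min ?_ ?_
  · calc _ ≤ u ^ (-(5 / 2) : ℝ) * (2 * u ^ 2) := mul_le_mul_of_nonneg_left (kernelC_G_le_sq u) h0
      _ = 2 * (u ^ (-(5 / 2) : ℝ) * u ^ (2 : ℝ)) := by rw [Real.rpow_two]; ring
      _ = _ := by rw [← Real.rpow_add hu]; norm_num
  · calc _ ≤ u ^ (-(5 / 2) : ℝ) * (2 * |u|) := mul_le_mul_of_nonneg_left (kernelC_G_le_lin u) h0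
      _ = 2 * (u ^ (-(5 / 2) : ℝ) * u ^ (1 : ℝ)) := by rw [Real.rpow_one, abs_of_pos hu]; ring
      _ = _ := by rw [← Real.rpow_add hu]; norm_num

theorem kernelC_h_meas : Measurable kernelC_h := by
  unfold kernelC_h; fun_prop

theorem kernelC_h_int : IntegrableOn kernelC_h (Ioi 0) := by
  have e : Ioi (0 : ℝ) = Ioc 0 1 ∪ Ioi 1 := (Ioc_union_Ioi_eq_Ioi zero_le_one).symm
  have hn : ∀ u : ℝ, 0 < u → ‖kernelC_h u‖ = kernelC_h u := fun u hu =>
    Real.norm_of_nonneg (mul_nonneg (by norm_num)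
      (le_min (Real.rpow_nonneg hu.le _) (Real.rpow_nonneg hu.le _)))
  rw [e]
  refine IntegrableOn.union ?_ ?_
  · have h1 : IntegrableOn (fun u : ℝ => u ^ (-(1 / 2) : ℝ)) (Ioc 0 1) :=
      (intervalIntegral.intervalIntegrable_rpow' (a := 0) (b := 1) (by norm_num)).1
    refine Integrable.mono' (h1.const_mul 2) kernelC_h_meas.aestronglyMeasurable ?_
    refine (ae_restrict_iff' measurableSet_Ioc).2 (Eventually.of_forall fun u hu => ?_)
    rw [hn u hu.1]
    exact mul_le_mul_of_nonneg_left (min_le_left _ _) (by norm_num)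
  · have h1 : IntegrableOn (fun u : ℝ => u ^ (-(3 / 2) : ℝ)) (Ioi 1) :=
      integrableOn_Ioi_rpow_of_lt (by norm_num) zero_lt_one
    refine Integrable.mono' (h1.const_mul 2) kernelC_h_meas.aestronglyMeasurable ?_
    refine (ae_restrict_iff' measurableSet_Ioi).2 (Eventually.of_forall fun u hu => ?_)
    rw [hn u (zero_lt_one.trans hu)]
    exact mul_le_mul_of_nonneg_left (min_le_right _ _) (by norm_num)

/-- the limiting constant -/
noncomputable def kernelC_I : ℂ := ∫ u in Ioi (0 : ℝ), ((u ^ (-(5 / 2) : ℝ) : ℝ) : ℂ) * kernelC_G u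

theorem kernelC_I_int :
    IntegrableOn (fun u : ℝ => ((u ^ (-(5 / 2) : ℝ) : ℝ) : ℂ) * kernelC_G u) (Ioi 0) := by
  refine Integrable.mono' kernelC_h_int ?_ ?_
  · exact (Measurable.mul (by fun_prop) kernelC_G_cont.measurable).aestronglyMeasurable
  · refine (ae_restrict_iff' measurableSet_Ioi).2 (Eventually.of_forall fun u hu => ?_)
    rw [norm_mul, Complex.norm_real, Real.norm_of_nonneg (Real.rpow_nonneg (le_of_lt hu) _)]
    exact kernelC_h_bound hu

theorem kernelC_I_re : 0 < -kernelC_I.re := by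
  have h1 : -kernelC_I.re = ∫ u in Ioi (0 : ℝ), u ^ (-(5 / 2) : ℝ) * (1 - Real.cos u) := by
    have := integral_re kernelC_I_int
    rw [RCLike.re_to_complex] at this
    rw [kernelC_I, ← this, ← integral_neg]
    refine integral_congr_ae (Eventually.of_forall fun u => ?_)
    simp only [RCLike.re_to_complex, Complex.re_ofReal_mul, kernelC_G, Complex.sub_re,
      Complex.one_re, Complex.mul_re, Complex.I_re, Complex.I_im, Complex.ofReal_re,
      Complex.ofReal_im, mul_comm Complex.I (u : ℂ), Complex.exp_ofReal_mul_I_re]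
    ring
  have h2 : IntegrableOn (fun u : ℝ => u ^ (-(5 / 2) : ℝ) * (1 - Real.cos u)) (Ioi 0) := by
    refine (kernelC_I_int.re.neg).congr (Eventually.of_forall fun u => ?_)
    simp only [Pi.neg_apply, RCLike.re_to_complex, Complex.re_ofReal_mul, kernelC_G,
      Complex.sub_re, Complex.one_re, Complex.mul_re, Complex.I_re, Complex.I_im,
      Complex.ofReal_re, Complex.ofReal_im, mul_comm Complex.I (u : ℂ),
      Complex.exp_ofReal_mul_I_re]
    ring
  rw [h1, setIntegral_pos_iff_support_of_nonneg_ae _ h2]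
  · have : Ioo (0 : ℝ) 1 ⊆ Function.support (fun u : ℝ => u ^ (-(5 / 2) : ℝ) * (1 - Real.cos u))
        ∩ Ioi 0 := by
      intro u hu
      refine ⟨mul_ne_zero (Real.rpow_pos_of_pos hu.1 _).ne' ?_, hu.1⟩
      have h3 : Real.cos u < Real.cos 0 :=
        Real.cos_lt_cos_of_nonneg_of_le_pi le_rfl (by linarith [hu.2, Real.pi_gt_three]) hu.1
      rw [Real.cos_zero] at h3
      linarith
    refine lt_of_lt_of_le ?_ (measure_mono this)
    simp
  · refine (ae_restrict_iff' measurableSet_Ioi).2 (Eventually.of_forall fun u hu => ?_)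
    exact mul_nonneg (Real.rpow_nonneg (le_of_lt hu) _) (by linarith [Real.cos_le_one u])

theorem kernelC_integral_nat (ρ : Measure ℕ) (hρ : ∀ n, ρ {n} ≠ ⊤) (f : ℕ → ℂ) :
    ∫ n, f n ∂ρ = ∑' n, (ρ.real {n} : ℂ) * f n := by
  conv_lhs => rw [← Measure.sum_smul_dirac ρ]
  rw [integral_sum_dirac hρ]
  simp only [Complex.real_smul, measureReal_def]

theorem kernelC_step {t : ℝ} (ht : 0 < t) (F : ℕ → ℂ) (h0 : F 0 = 0) :
    ∫ u in Ioi (0 : ℝ), F ⌈u / t⌉₊ = ∑' n, (t : ℂ) * F n := by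
  have hm : Measurable fun u : ℝ => ⌈u / t⌉₊ := by fun_prop
  have key : ∀ n : ℕ, (Measure.map (fun u : ℝ => ⌈u / t⌉₊) (volume.restrict (Ioi 0))) {n + 1} =
      ENNReal.ofReal t := by
    intro n
    rw [Measure.map_apply hm (measurableSet_singleton _), Measure.restrict_apply (hm (measurableSet_singleton _))]
    have : (fun u : ℝ => ⌈u / t⌉₊) ⁻¹' {n + 1} ∩ Ioi 0 = Ioc (n * t) ((n + 1) * t) := by
      ext u
      simp only [mem_inter_iff, mem_preimage, mem_singleton_iff, mem_Ioi, mem_Ioc,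
        Nat.ceil_eq_iff (Nat.succ_ne_zero n), Nat.add_sub_cancel, lt_div_iff₀ ht, div_le_iff₀ ht]
      push_cast
      constructor
      · exact fun h => h.1
      · exact fun h => ⟨h, lt_of_le_of_lt (by positivity) h.1⟩
    rw [this, Real.volume_Ioc]
    congr 1; ring
  have key0 : (Measure.map (fun u : ℝ => ⌈u / t⌉₊) (volume.restrict (Ioi 0))) {0} = 0 := by
    rw [Measure.map_apply hm (measurableSet_singleton _), Measure.restrict_apply (hm (measurableSet_singleton _))]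
    have : (fun u : ℝ => ⌈u / t⌉₊) ⁻¹' {0} ∩ Ioi 0 = ∅ := by
      ext u
      simp only [mem_inter_iff, mem_preimage, mem_singleton_iff, mem_Ioi, Nat.ceil_eq_zero,
        mem_empty_iff_false, iff_false, not_and, not_lt, div_le_iff₀ ht, zero_mul]
      exact id
    rw [this, measure_empty]
  rw [← integral_map hm.aemeasurable (measurable_from_top (f := F)).aestronglyMeasurable,
    kernelC_integral_nat]
  · refine tsum_congr fun n => ?_
    cases n with
    | zero => simp [h0]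
    | succ n => rw [measureReal_def, key, ENNReal.toReal_ofReal ht.le]
  · intro n
    cases n with
    | zero => rw [key0]; exact ENNReal.zero_ne_top
    | succ n => rw [key]; exact ENNReal.ofReal_ne_top

theorem kernelC_RF_eq (μ : Measure (ℕ × ℝ)) [IsFiniteMeasure μ] (t : ℝ) :
    RF μ t = ∑' n : ℕ, (pm μ n : ℂ) * kernelC_G (t * n) := by
  have : RF μ t = ∫ n, kernelC_G (t * n) ∂(μ.map Prod.fst) := by
    rw [integral_map measurable_fst.aemeasurable
      (measurable_from_top (f := fun n : ℕ => kernelC_G (t * n))).aestronglyMeasurable]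
    rfl
  rw [this, kernelC_integral_nat _ (fun n => measure_ne_top _ _)]
  refine tsum_congr fun n => ?_
  rw [map_measureReal_apply measurable_fst (measurableSet_singleton _)]
  rfl

theorem kernelC_RF_neg (μ : Measure (ℕ × ℝ)) (t : ℝ) :
    RF μ (-t) = (starRingEnd ℂ) (RF μ t) := by
  unfold RF
  rw [← integral_conj]
  refine integral_congr_ae (Eventually.of_forall fun p => ?_)
  have := kernelC_G_neg (t * p.1)
  simp only [kernelC_G] at this
  simpa using this

theorem kernelC_scale {t : ℝ} (ht : 0 < t) {n : ℕ} (hn : 0 < n) (p : ℝ) :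
    t ^ (-(5 / 2) : ℝ) * p = ((n : ℝ) ^ (5 / 2 : ℝ) * p) * (t * n) ^ (-(5 / 2) : ℝ) := by
  have hn' : (0 : ℝ) < n := by exact_mod_cast hn
  have : (n : ℝ) ^ (5 / 2 : ℝ) * (n : ℝ) ^ (-(5 / 2) : ℝ) = 1 := by
    rw [← Real.rpow_add hn']; simp
  rw [Real.mul_rpow ht.le hn'.le]
  linear_combination (-(t ^ (-(5 / 2) : ℝ) * p)) * this

theorem kernelC_lim (μ : Measure (ℕ × ℝ)) [IsFiniteMeasure μ] {c : ℝ}
    (h : Tendsto (fun n : ℕ => (n : ℝ) ^ (5 / 2 : ℝ) * pm μ n) atTop (𝓝 c)) :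
    Tendsto (fun t : ℝ => ((t ^ (-(3 / 2) : ℝ) : ℝ) : ℂ) * RF μ t) (𝓝[>] 0)
      (𝓝 (c * kernelC_I)) := by
  obtain ⟨K, hK⟩ : ∃ K : ℝ, ∀ n : ℕ, ‖(n : ℝ) ^ (5 / 2 : ℝ) * pm μ n‖ ≤ K := by
    obtain ⟨K, hK⟩ := h.norm.bddAbove_range
    exact ⟨K, fun n => hK ⟨n, rfl⟩⟩
  have hK0 : 0 ≤ K := (norm_nonneg _).trans (hK 0)
  set F : ℝ → ℕ → ℂ := fun t n => ((t ^ (-(5 / 2) : ℝ) * pm μ n : ℝ) : ℂ) * kernelC_G (t * n)
    with hF
  have e1 : ∀ᶠ t : ℝ in 𝓝[>] 0, ∫ u in Ioi (0 : ℝ), F t ⌈u / t⌉₊ =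
      ((t ^ (-(3 / 2) : ℝ) : ℝ) : ℂ) * RF μ t := by
    filter_upwards [self_mem_nhdsWithin] with t ht
    have ht' : 0 < t := ht
    rw [kernelC_step ht' (F t) (by simp [hF, kernelC_G_zero]), kernelC_RF_eq, ← tsum_mul_left]
    refine tsum_congr fun n => ?_
    have : t ^ (-(3 / 2) : ℝ) = t * t ^ (-(5 / 2) : ℝ) := by
      rw [← Real.rpow_one_add' ht'.le (by norm_num)]; norm_num
    rw [this]
    simp only [hF]
    push_cast
    ring
  have hpos : ∀ {t u : ℝ}, 0 < t → 0 < u → 0 < ⌈u / t⌉₊ := fun ht hu =>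
    Nat.ceil_pos.2 (div_pos hu ht)
  have hge : ∀ {t u : ℝ}, 0 < t → u ≤ t * ⌈u / t⌉₊ := fun {t u} ht => by
    have := Nat.le_ceil (u / t)
    rwa [div_le_iff₀' ht] at this
  refine Tendsto.congr' e1 ?_
  rw [kernelC_I, ← integral_const_mul]
  refine tendsto_integral_filter_of_dominated_convergence (fun u => K * kernelC_h u) ?_ ?_
    (kernelC_h_int.const_mul K) ?_
  · refine Eventually.of_forall fun t => Measurable.aestronglyMeasurable ?_
    exact (measurable_from_top (f := F t)).comp (by fun_prop)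
  · filter_upwards [self_mem_nhdsWithin] with t ht
    have ht' : 0 < t := ht
    refine (ae_restrict_iff' measurableSet_Ioi).2 (Eventually.of_forall fun u hu => ?_)
    have hu' : 0 < u := hu
    have hv : 0 < t * ⌈u / t⌉₊ := lt_of_lt_of_le hu' (hge ht')
    simp only [hF]
    rw [kernelC_scale ht' (hpos ht' hu'), norm_mul, Complex.norm_real, norm_mul, mul_assoc,
      Real.norm_of_nonneg (Real.rpow_nonneg hv.le _)]
    exact mul_le_mul (hK _) ((kernelC_h_bound hv).trans (kernelC_h_anti hu' (hge ht')))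
      (mul_nonneg (Real.rpow_nonneg hv.le _) (norm_nonneg _)) hK0
  · refine (ae_restrict_iff' measurableSet_Ioi).2 (Eventually.of_forall fun u hu => ?_)
    have hu' : 0 < u := hu
    have t1 : Tendsto (fun t : ℝ => ⌈u / t⌉₊) (𝓝[>] 0) atTop := by
      have : Tendsto (fun t : ℝ => u / t) (𝓝[>] 0) atTop := by
        simp only [div_eq_mul_inv]
        exact tendsto_inv_nhdsGT_zero.const_mul_atTop hu'
      exact tendsto_nat_ceil_atTop.comp this
    have t2 : Tendsto (fun t : ℝ => t * ⌈u / t⌉₊) (𝓝[>] 0) (𝓝 u) := by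
      have t3 : Tendsto (fun t : ℝ => u + t) (𝓝[>] 0) (𝓝 u) := by
        have : Tendsto (fun t : ℝ => u + t) (𝓝 0) (𝓝 (u + 0)) := by
          exact (continuous_const.add continuous_id).tendsto 0
        rw [add_zero] at this
        exact this.mono_left nhdsWithin_le_nhds
      refine tendsto_of_tendsto_of_tendsto_of_le_of_le' tendsto_const_nhds t3 ?_ ?_
      · filter_upwards [self_mem_nhdsWithin] with t ht using hge ht
      · filter_upwards [self_mem_nhdsWithin] with t ht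
        have ht' : 0 < t := ht
        have := (Nat.ceil_lt_add_one (div_pos hu' ht').le).le
        calc t * ⌈u / t⌉₊ ≤ t * (u / t + 1) := mul_le_mul_of_nonneg_left this ht'.le
          _ = u + t := by field_simp
    have t4 : Tendsto (fun t : ℝ => ((((⌈u / t⌉₊ : ℕ) : ℝ) ^ (5 / 2 : ℝ) * pm μ ⌈u / t⌉₊ *
        (t * ⌈u / t⌉₊) ^ (-(5 / 2) : ℝ) : ℝ) : ℂ) * kernelC_G (t * ⌈u / t⌉₊)) (𝓝[>] 0)
        (𝓝 (((c * u ^ (-(5 / 2) : ℝ) : ℝ) : ℂ) * kernelC_G u)) :=
      (((h.comp t1).mul (t2.rpow_const (Or.inl hu'.ne'))).ofReal).mul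
        ((kernelC_G_cont.tendsto u).comp t2)
    rw [Complex.ofReal_mul, mul_assoc] at t4
    refine Tendsto.congr' ?_ t4
    filter_upwards [self_mem_nhdsWithin] with t ht
    simp only [hF]
    rw [kernelC_scale ht (hpos ht hu')]

theorem kernelC_psi_pos (γ₁ γ₂ : ℝ) {t : ℝ} (ht : 0 < t) :
    psiS γ₁ γ₂ t = ((t ^ (3 / 2 : ℝ) : ℝ) : ℂ) * (γ₁ + Complex.I * γ₂) := by
  have : t ^ (3 / 2 : ℝ) = t * t ^ (1 / 2 : ℝ) := by
    rw [← Real.rpow_one_add' ht.le (by norm_num)]; norm_num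
  rw [psiS, abs_of_pos ht, this]
  push_cast
  ring

theorem kernelC_psi_neg (γ₁ γ₂ t : ℝ) :
    psiS γ₁ γ₂ (-t) = (starRingEnd ℂ) (psiS γ₁ γ₂ t) := by
  simp only [psiS, abs_neg, map_add, map_mul, Complex.conj_ofReal, Complex.conj_I]
  push_cast
  ring

theorem kernelC_RF_expansion (μ : Measure (ℕ × ℝ)) [IsFiniteMeasure μ] (c : ℝ)
    (h : Tendsto (fun n : ℕ => (n : ℝ) ^ (5 / 2 : ℝ) * pm μ n) atTop (𝓝 c)) :
    (fun t : ℝ => RF μ t + c * psiS (-kernelC_I.re) (-kernelC_I.im) t) =o[𝓝 0]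
      fun t : ℝ => |t| ^ (3 / 2 : ℝ) := by
  have hp : (fun t : ℝ => RF μ t + c * psiS (-kernelC_I.re) (-kernelC_I.im) t) =o[𝓝[>] 0]
      fun t : ℝ => |t| ^ (3 / 2 : ℝ) := by
    have h1 := (kernelC_lim μ h).sub_const (c * kernelC_I)
    rw [sub_self] at h1
    rw [Asymptotics.isLittleO_iff]
    intro ε hε
    have h2 := (NormedAddGroup.tendsto_nhds_zero.1 h1) ε hε
    filter_upwards [h2, self_mem_nhdsWithin] with t h3 ht
    have ht' : 0 < t := ht
    have h4 : 0 < t ^ (3 / 2 : ℝ) := Real.rpow_pos_of_pos ht' _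
    have h5 : t ^ (3 / 2 : ℝ) * t ^ (-(3 / 2) : ℝ) = 1 := by rw [← Real.rpow_add ht']; simp
    have h6 : RF μ t + c * psiS (-kernelC_I.re) (-kernelC_I.im) t = ((t ^ (3 / 2 : ℝ) : ℝ) : ℂ) *
        (((t ^ (-(3 / 2) : ℝ) : ℝ) : ℂ) * RF μ t - c * kernelC_I) := by
      rw [kernelC_psi_pos _ _ ht', mul_sub, ← mul_assoc ((t ^ (3 / 2 : ℝ) : ℝ) : ℂ) _ (RF μ t),
        ← Complex.ofReal_mul, h5]
      have := Complex.re_add_im kernelC_I
      push_cast
      linear_combination (-(c : ℂ) * ((t ^ (3 / 2 : ℝ) : ℝ) : ℂ)) * this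
    rw [h6, norm_mul, Complex.norm_real, abs_of_pos ht', mul_comm ε]
    exact mul_le_mul_of_nonneg_left h3.le (norm_nonneg _)
  have hn : (fun t : ℝ => RF μ t + c * psiS (-kernelC_I.re) (-kernelC_I.im) t) =o[𝓝[<] 0]
      fun t : ℝ => |t| ^ (3 / 2 : ℝ) := by
    have t1 : Tendsto (fun t : ℝ => -t) (𝓝[<] 0) (𝓝[>] 0) := by
      simpa using tendsto_neg_nhdsLT (a := (0 : ℝ))
    have h1 := hp.comp_tendsto t1
    rw [Asymptotics.isLittleO_iff] at h1 ⊢
    intro ε hε
    filter_upwards [h1 hε] with t ht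
    simp only [Function.comp_apply, kernelC_RF_neg, kernelC_psi_neg, abs_neg] at ht
    rwa [← Complex.conj_ofReal c, ← map_mul, ← map_add, Complex.norm_conj] at ht
  have h0 : (fun t : ℝ => RF μ t + c * psiS (-kernelC_I.re) (-kernelC_I.im) t) =o[pure 0]
      fun t : ℝ => |t| ^ (3 / 2 : ℝ) := by
    rw [Asymptotics.isLittleO_pure]
    simp [RF, psiS]
  rw [← nhdsNE_sup_pure, ← nhdsLT_sup_nhdsGT]
  exact (hn.sup hp).sup h0

end Pool.Agent.Lib.MP_77dff5_pr
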