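import Pool.Agent.Lib.MP_77dff5_pr.LLTAAux2

/-! The limit of the rescaled Fourier integral. -/

set_option autoImplicit false

namespace Pool.Agent.Lib.MP_77dff5_pr

open MeasureTheory ProbabilityTheory Filter Topology
open scoped ENNReal NNReal

theorem lltA_FF_snd (θ : ℝ) : Tendsto (fun q : ℕ × ℝ => q.2 * √q.1) (FF θ) (𝓝 θ) :=
  tendsto_snd.comp (tendsto_comap (f := fun p : ℕ × ℝ => (p.1, p.2 * √p.1))
    (x := atTop ×ˢ 𝓝 θ))

theorem lltA_FF_sqrt (θ : ℝ) : Tendsto (fun q : ℕ × ℝ => √(q.1 : ℝ)) (FF θ) atTop :=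
  Real.tendsto_sqrt_atTop.comp (tendsto_natCast_atTop_atTop.comp (FF_fst θ))

theorem lltA_FF_zero (θ : ℝ) : Tendsto (fun q : ℕ × ℝ => q.2) (FF θ) (𝓝 0) := by
  have h1 := (lltA_FF_snd θ).mul (tendsto_inv_atTop_zero.comp (lltA_FF_sqrt θ))
  rw [mul_zero] at h1
  refine h1.congr' ?_
  filter_upwards [(lltA_FF_sqrt θ).eventually_gt_atTop 0] with q hq
  simp only [Function.comp]
  field_simp

theorem lltA_rescale (f : ℝ → ℂ) {s : ℝ} (hs : 0 < s) :
    (s : ℂ) * ∫ t in (-Real.pi)..Real.pi, f t =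
      ∫ u : ℝ, (Set.Ioc (-Real.pi * s) (Real.pi * s)).indicator (fun u => f (u / s)) u := by
  have hle : -Real.pi * s ≤ Real.pi * s := by
    have := mul_pos Real.pi_pos hs
    linarith
  rw [integral_indicator measurableSet_Ioc, ← intervalIntegral.integral_of_le hle,
    intervalIntegral.integral_comp_div _ hs.ne', mul_div_cancel_right₀ _ hs.ne',
    mul_div_cancel_right₀ _ hs.ne']
  simp

theorem lltA_gauss {v : ℝ} (hv : 0 < v) (V Cv θ m : ℝ) :
    ∫ u : ℝ, (m : ℂ) * Complex.exp (-(((θ ^ 2 * V + 2 * θ * u * Cv + u ^ 2 * v) / 2 : ℝ) : ℂ)) =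
      ((m * √(Real.pi / (v / 2)) * Real.exp (-((V - Cv ^ 2 / v) * θ ^ 2 / 2)) : ℝ) : ℂ) := by
  have e : ∀ u : ℝ, (m : ℂ) * Complex.exp (-(((θ ^ 2 * V + 2 * θ * u * Cv + u ^ 2 * v) / 2 : ℝ) : ℂ)) =
      ((m * Real.exp (-((V - Cv ^ 2 / v) * θ ^ 2 / 2)) *
        Real.exp (-(v / 2) * (u + θ * Cv / v) ^ 2) : ℝ) : ℂ) := by
    intro u
    rw [mul_assoc m, ← Real.exp_add, ← Complex.ofReal_neg, ← Complex.ofReal_exp,
      ← Complex.ofReal_mul]
    congr 3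
    field_simp
    ring
  simp_rw [e]
  rw [integral_complex_ofReal, integral_const_mul,
    integral_add_right_eq_self (fun u : ℝ => Real.exp (-(v / 2) * u ^ 2)), integral_gaussian]
  congr 1
  ring

variable {Γ : Type} [MeasurableSpace Γ] [DiscreteMeasurableSpace Γ]
  {p h : Measure Γ} {F G R : Γ → ℝ} {ρ : Γ → ℕ} {η : ℝ}

theorem lltA_point [IsProbabilityMeasure p] (hη : 0 < η)
    (hp : Integrable (fun γ => Real.exp (η * (|G γ| + |R γ|))) p)
    (hG : ∫ γ, G γ ∂p = 0) (hR : ∫ γ, R γ ∂p = 0) (θ u : ℝ) :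
    Tendsto (fun q : ℕ × ℝ => lltPsi p G R (Complex.I * q.2) (u / √q.1) ^ q.1) (FF θ)
      (𝓝 (Complex.exp (-(((θ ^ 2 * ∫ γ, G γ ^ 2 ∂p + 2 * θ * u * ∫ γ, G γ * R γ ∂p +
        u ^ 2 * ∫ γ, R γ ^ 2 ∂p) / 2 : ℝ) : ℂ)))) := by
  set V := ∫ γ, G γ ^ 2 ∂p
  set Cv := ∫ γ, G γ * R γ ∂p
  set v := ∫ γ, R γ ^ 2 ∂p
  refine lltA_tendsto_pow (FF_fst θ) (fun q => ?_) ?_
  · simpa using lltPsi_I_norm_le (ν := p) (G := G) (R := R) q.2 (u / √q.1)
  have hs := lltA_FF_sqrt θ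
  have h2 := lltA_FF_snd θ
  have hu : Tendsto (fun q : ℕ × ℝ => u / √q.1) (FF θ) (𝓝 0) := tendsto_const_nhds.div_atTop hs
  have hm : Tendsto (fun q : ℕ × ℝ => |q.2| + |u / √q.1|) (FF θ) (𝓝 0) := by
    simpa using (lltA_FF_zero θ).abs.add hu.abs
  have hA : Tendsto (fun q : ℕ × ℝ => -((((q.2 * √q.1) ^ 2 * V + 2 * (q.2 * √q.1) * u * Cv +
      u ^ 2 * v) / 2 : ℝ) : ℂ)) (FF θ)
      (𝓝 (-(((θ ^ 2 * V + 2 * θ * u * Cv + u ^ 2 * v) / 2 : ℝ) : ℂ))) := by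
    have hc : Continuous fun x : ℝ => -(((x ^ 2 * V + 2 * x * u * Cv + u ^ 2 * v) / 2 : ℝ) : ℂ) := by
      fun_prop
    exact (hc.tendsto θ).comp h2
  have hB : Tendsto (fun q : ℕ × ℝ => (q.1 : ℂ) * (lltPsi p G R (Complex.I * q.2) (u / √q.1) - 1) -
      -((((q.2 * √q.1) ^ 2 * V + 2 * (q.2 * √q.1) * u * Cv + u ^ 2 * v) / 2 : ℝ) : ℂ)) (FF θ)
      (𝓝 0) := by
    have h3 : Tendsto (fun q : ℕ × ℝ => (|q.2 * √q.1| + |u|) ^ 2 * (|q.2| + |u / √q.1|) *
        ((6 * (2 / η) ^ 3) * lltM p G R η)) (FF θ)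
        (𝓝 ((|θ| + |u|) ^ 2 * 0 * ((6 * (2 / η) ^ 3) * lltM p G R η))) :=
      (((h2.abs.add_const _).pow 2).mul hm).mul_const _
    rw [mul_zero, zero_mul] at h3
    refine squeeze_zero_norm' ?_ h3
    filter_upwards [hm.eventually (ge_mem_nhds (half_pos hη)), hs.eventually_gt_atTop 0]
      with q hq hs0
    have h4 := lltPsi_taylor hη hp hG hR hq
    have hsq : √(q.1 : ℝ) ^ 2 = q.1 := Real.sq_sqrt (Nat.cast_nonneg _)
    have e1 : ((q.2 * √q.1) ^ 2 * V + 2 * (q.2 * √q.1) * u * Cv + u ^ 2 * v) / 2 =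
        q.1 * ((q.2 ^ 2 * V + 2 * q.2 * (u / √q.1) * Cv + (u / √q.1) ^ 2 * v) / 2) := by
      nth_rewrite 3 [← hsq]
      field_simp
    have e2 : (|q.2 * √q.1| + |u|) ^ 2 = q.1 * (|q.2| + |u / √q.1|) ^ 2 := by
      rw [abs_mul, abs_div, abs_of_pos hs0]
      nth_rewrite 2 [← hsq]
      field_simp
    rw [e1, e2, Complex.ofReal_mul, sub_neg_eq_add, Complex.ofReal_natCast, ← mul_add, norm_mul,
      Complex.norm_natCast]
    refine (mul_le_mul_of_nonneg_left h4 (Nat.cast_nonneg _)).trans (le_of_eq ?_)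
    ring
  have := hB.add hA
  simpa using this

theorem lltA_limit [IsProbabilityMeasure p] [IsFiniteMeasure h]
    (h0 : p {γ | ρ γ = 0} ≠ 0) (h1 : p {γ | ρ γ = 1} ≠ 0) (hη : 0 < η)
    (hh : Integrable (fun γ => Real.exp (η * (|F γ| + |R γ|))) h)
    (hp : Integrable (fun γ => Real.exp (η * (|G γ| + |(ρ γ : ℝ) - 1|))) p)
    (hG : ∫ γ, G γ ∂p = 0) (hR : ∫ γ, ((ρ γ : ℝ) - 1) ∂p = 0) (θ : ℝ) :
    Tendsto (fun q : ℕ × ℝ => ((√q.1 : ℝ) : ℂ) * ∫ t in (-Real.pi)..Real.pi,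
        lltPsi h F R (Complex.I * q.2) t *
          lltPsi p G (fun γ => (ρ γ : ℝ) - 1) (Complex.I * q.2) t ^ q.1) (FF θ)
      (𝓝 (∫ u : ℝ, ((h.real Set.univ : ℝ) : ℂ) * Complex.exp (-(((θ ^ 2 * ∫ γ, G γ ^ 2 ∂p +
        2 * θ * u * ∫ γ, G γ * ((ρ γ : ℝ) - 1) ∂p +
        u ^ 2 * ∫ γ, ((ρ γ : ℝ) - 1) ^ 2 ∂p) / 2 : ℝ) : ℂ)))) := by
  obtain ⟨c, C, hc, hC, hdom⟩ := lltPsi_dom h0 h1 hη hp hG
  have := FF_countablyGenerated θ
  have hs := lltA_FF_sqrt θ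
  have h2 := lltA_FF_snd θ
  have hz := lltA_FF_zero θ
  have hn : ∀ x : ℝ, ‖Complex.I * (x : ℂ)‖ = |x| := fun x => by simp
  refine Tendsto.congr' (f₁ := fun q : ℕ × ℝ => ∫ u : ℝ,
    (Set.Ioc (-Real.pi * √q.1) (Real.pi * √q.1)).indicator (fun u =>
      lltPsi h F R (Complex.I * q.2) (u / √q.1) *
        lltPsi p G (fun γ => (ρ γ : ℝ) - 1) (Complex.I * q.2) (u / √q.1) ^ q.1) u) ?_ ?_
  · filter_upwards [hs.eventually_gt_atTop 0] with q hq
    exact (lltA_rescale (fun t => lltPsi h F R (Complex.I * q.2) t *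
          lltPsi p G (fun γ => (ρ γ : ℝ) - 1) (Complex.I * q.2) t ^ q.1) hq).symm
  refine tendsto_integral_filter_of_dominated_convergence
    (fun u => h.real Set.univ * Real.exp (C * (|θ| + 1) ^ 2) * Real.exp (-c * u ^ 2))
    (Eventually.of_forall fun q => ?_) ?_ ((integrable_exp_neg_mul_sq hc).const_mul _)
    (Eventually.of_forall fun u => ?_)
  · refine AEStronglyMeasurable.indicator (Continuous.aestronglyMeasurable ?_) measurableSet_Ioc
    have c1 := lltPsi_I_continuous (ν := h) (G := F) (R := R) q.2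
    have c2 := lltPsi_I_continuous (ν := p) (G := G) (R := fun γ => (ρ γ : ℝ) - 1) q.2
    have c3 : Continuous fun u : ℝ => u / √q.1 := continuous_id.div_const _
    exact (c1.comp c3).mul ((c2.comp c3).pow _)
  · filter_upwards [hs.eventually_gt_atTop 0, hz.abs.eventually (ge_mem_nhds
      (show |(0 : ℝ)| < η / 2 by simpa using half_pos hη)), h2.abs.eventually (ge_mem_nhds
      (lt_add_one |θ|))] with q hs0 hq2 hq3
    refine Eventually.of_forall fun u => ?_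
    by_cases hu : u ∈ Set.Ioc (-Real.pi * √q.1) (Real.pi * √q.1)
    · rw [Set.indicator_of_mem hu, norm_mul, norm_pow, mul_assoc]
      have ht : |u / √q.1| ≤ Real.pi := by
        rw [abs_div, abs_of_pos hs0, div_le_iff₀ hs0, abs_le]
        exact ⟨by linarith [hu.1], hu.2⟩
      have h3 := hdom (Complex.I * q.2) (by rw [hn]; exact hq2) _ ht
      have h4 := pow_le_pow_left₀ (norm_nonneg _) h3 q.1
      rw [← Real.exp_nat_mul, hn] at h4
      refine mul_le_mul (lltPsi_I_norm_le _ _) (h4.trans ?_) (by positivity) measureReal_nonneg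
      rw [← Real.exp_add, Real.exp_le_exp]
      have hsq : √(q.1 : ℝ) ^ 2 = q.1 := Real.sq_sqrt (Nat.cast_nonneg _)
      have e1 : (q.1 : ℝ) * (-c * (u / √q.1) ^ 2 + C * |q.2| ^ 2) =
          C * |q.2 * √q.1| ^ 2 + -c * u ^ 2 := by
        rw [sq_abs, sq_abs]
        nth_rewrite 1 [← hsq]
        field_simp
        ring
      rw [e1]
      have h5 := pow_le_pow_left₀ (abs_nonneg _) hq3 2
      have h6 := mul_le_mul_of_nonneg_left h5 hC
      linarith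
    · rw [Set.indicator_of_notMem hu, norm_zero]
      have := measureReal_nonneg (μ := h) (s := Set.univ)
      positivity
  · have hu : Tendsto (fun q : ℕ × ℝ => u / √q.1) (FF θ) (𝓝 0) := tendsto_const_nhds.div_atTop hs
    have hm : Tendsto (fun q : ℕ × ℝ => |q.2| + |u / √q.1|) (FF θ) (𝓝 0) := by
      simpa using hz.abs.add hu.abs
    have hA : Tendsto (fun q : ℕ × ℝ => lltPsi h F R (Complex.I * q.2) (u / √q.1)) (FF θ)
        (𝓝 ((h.real Set.univ : ℝ) : ℂ)) := by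
      rw [← tendsto_sub_nhds_zero_iff]
      have h3 := (hm.mul_const (2 / η)).mul_const (lltM h F R η)
      rw [zero_mul, zero_mul] at h3
      refine squeeze_zero_norm' ?_ h3
      filter_upwards [hm.eventually (ge_mem_nhds (half_pos hη))] with q hq
      have := lltPsi_sub_mass hη hh (a := Complex.I * q.2) (t := u / √q.1) (by rw [hn]; exact hq)
      rwa [hn] at this
    refine (hA.mul (lltA_point hη hp hG hR θ u)).congr' ?_
    filter_upwards [(hs.const_mul_atTop Real.pi_pos).eventually_gt_atTop |u|] with q hq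
    have hu : u ∈ Set.Ioc (-Real.pi * √q.1) (Real.pi * √q.1) := by
      have := abs_lt.1 hq
      exact ⟨by linarith [this.1], this.2.le⟩
    rw [Set.indicator_of_mem hu]

end Pool.Agent.Lib.MP_77dff5_pr
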