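import Pool.Agent.Lib.MP_77dff5_pr.KernelA
import Pool.Agent.Lib.MP_77dff5_pr.LinA
import Pool.Agent.Lib.MP_77dff5_pr.LLTAAux3

/-! A local central limit theorem for conditioned sums with exponential moments. -/

set_option autoImplicit false

namespace Pool.Agent.Lib.MP_77dff5_pr

open MeasureTheory ProbabilityTheory Filter Topology
open scoped ENNReal NNReal

/-- a critical aperiodic step law `p` and an initial law `h`, with exponential moments -/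
structure Steps {Γ : Type} [MeasurableSpace Γ] (p h : Measure Γ) (ρ N : Γ → ℕ) : Prop where
  prob : IsProbabilityMeasure p
  fin : IsFiniteMeasure h
  ne : h ≠ 0
  exp : ∃ δ : ℝ, 0 < δ ∧ Integrable (fun γ => Real.exp (δ * (ρ γ + N γ))) p ∧
    Integrable (fun γ => Real.exp (δ * (ρ γ + N γ))) h
  mean : ∫ γ, (ρ γ : ℝ) ∂p = 1
  at0 : p {γ | ρ γ = 0} ≠ 0
  at1 : p {γ | ρ γ = 1} ≠ 0

/-- the law of the centred sum on the event that the walk ends at `n - 1` -/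
noncomputable def brid {Γ : Type} [MeasurableSpace Γ] (p h : Measure Γ) (ρ : Γ → ℕ) (F : Γ → ℝ)
    (mu : ℝ) (n : ℕ) : Measure ℝ :=
  ((h.prod (Measure.pi fun _ : Fin n => p)).restrict
    {x | ρ x.1 + ∑ i, ρ (x.2 i) = n - 1}).map fun x => F x.1 + ∑ i, F (x.2 i) - mu * n

variable {Γ : Type} [Countable Γ] [MeasurableSpace Γ] [DiscreteMeasurableSpace Γ]
  {p h : Measure Γ} {ρ N : Γ → ℕ}

omit [Countable Γ] in
theorem lltA_mom {ν : Measure Γ} {δ B K : ℝ} (hδ : 0 < δ) (G R : Γ → ℝ)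
    (hi : Integrable (fun γ => Real.exp (δ * (ρ γ + N γ))) ν)
    (hb : ∀ γ, |G γ| + |R γ| ≤ |B| * N γ + ρ γ + K) :
    Integrable (fun γ => Real.exp (δ / (|B| + 1) * (|G γ| + |R γ|))) ν := by
  have hB : 0 < |B| + 1 := by positivity
  refine Integrable.mono' (hi.const_mul (Real.exp (δ / (|B| + 1) * K)))
    Measurable.of_discrete.aestronglyMeasurable (Eventually.of_forall fun γ => ?_)
  rw [Real.norm_eq_abs, abs_of_pos (Real.exp_pos _), ← Real.exp_add, Real.exp_le_exp]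
  have h1 := mul_le_mul_of_nonneg_left (hb γ) (div_pos hδ hB).le
  have h2 : |B| * N γ + ρ γ ≤ (|B| + 1) * (ρ γ + N γ) := by
    have h3 : (0 : ℝ) ≤ N γ := Nat.cast_nonneg _
    have h4 : (0 : ℝ) ≤ |B| * ρ γ := by positivity
    nlinarith
  have h5 := mul_le_mul_of_nonneg_left h2 (div_pos hδ hB).le
  have h6 : δ / (|B| + 1) * ((|B| + 1) * (ρ γ + N γ)) = δ * (ρ γ + N γ) := by field_simp
  rw [h6] at h5
  nlinarith

omit [Countable Γ] in
theorem Steps.lltA_data (H : Steps p h ρ N) (F : Γ → ℝ) (B : ℝ) (hF : ∀ γ, |F γ| ≤ B * N γ) :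
    ∃ η : ℝ, 0 < η ∧ Integrable (fun γ => Real.exp (η * (|F γ| + |(ρ γ : ℝ) + 1|))) h ∧
      Integrable (fun γ => Real.exp (η * (|F γ - ∫ γ, F γ ∂p| + |(ρ γ : ℝ) - 1|))) p ∧
      ∫ γ, (F γ - ∫ γ, F γ ∂p) ∂p = 0 ∧ ∫ γ, ((ρ γ : ℝ) - 1) ∂p = 0 := by
  have := H.prob
  obtain ⟨δ, hδ, hp, hh⟩ := H.exp
  have hF' : ∀ γ, |F γ| ≤ |B| * N γ := fun γ =>
    (hF γ).trans (mul_le_mul_of_nonneg_right (le_abs_self B) (Nat.cast_nonneg _))
  have hη : 0 < δ / (|B| + 1) := by positivity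
  have i1 := lltA_mom (B := B) (K := 1) hδ F (fun γ => (ρ γ : ℝ) + 1) hh fun γ => by
    have := hF' γ
    rw [abs_of_nonneg (show (0 : ℝ) ≤ (ρ γ : ℝ) + 1 by positivity)]
    linarith
  have i2 := lltA_mom (B := B) (K := |∫ γ, F γ ∂p| + 1) hδ (fun γ => F γ - ∫ γ, F γ ∂p)
    (fun γ => (ρ γ : ℝ) - 1) hp fun γ => by
      have h1 := hF' γ
      have h2 := abs_sub (F γ) (∫ γ, F γ ∂p)
      have h3 := abs_sub (ρ γ : ℝ) 1
      rw [abs_one, Nat.abs_cast] at h3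
      linarith
  have i3 := lltA_mom (B := B) (K := 0) hδ F (fun γ => (ρ γ : ℝ)) hp fun γ => by
    have := hF' γ
    rw [Nat.abs_cast]
    linarith
  have iF : Integrable F p := lltA_int_pow hη i3 F 1 fun γ => by
    have := abs_nonneg (ρ γ : ℝ); rw [pow_one]; linarith
  have iρ : Integrable (fun γ => (ρ γ : ℝ)) p := lltA_int_pow hη i3 _ 1 fun γ => by
    have := abs_nonneg (F γ); rw [pow_one]; linarith
  refine ⟨_, hη, i1, i2, ?_, ?_⟩
  · rw [integral_sub iF (integrable_const _)]; simp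
  · rw [integral_sub iρ (integrable_const _), H.mean]; simp

theorem lltA_brid (hp1 : IsProbabilityMeasure p) (hh1 : IsFiniteMeasure h)
    {F : Γ → ℝ} {mu η : ℝ} (hη : 0 < η)
    (hh : Integrable (fun γ => Real.exp (η * (|F γ| + |(ρ γ : ℝ) + 1|))) h)
    (hp : Integrable (fun γ => Real.exp (η * (|F γ - mu| + |(ρ γ : ℝ) - 1|))) p)
    {a : ℂ} (ha : ‖a‖ ≤ η) {n : ℕ} (hn : 1 ≤ n) :
    Integrable (fun x : ℝ => Complex.exp (a * x)) (brid p h ρ F mu n) ∧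
    ∫ x : ℝ, Complex.exp (a * x) ∂brid p h ρ F mu n =
      (2 * Real.pi : ℂ)⁻¹ * ∫ t in (-Real.pi)..Real.pi,
        lltPsi h F (fun γ => (ρ γ : ℝ) + 1) a t *
          lltPsi p (fun γ => F γ - mu) (fun γ => (ρ γ : ℝ) - 1) a t ^ n := by
  obtain ⟨h1, h2⟩ := lltA_fourier hη hh hp ha hn
  have hm : Measurable fun x : Γ × (Fin n → Γ) => F x.1 + ∑ i, F (x.2 i) - mu * n :=
    measurable_of_countable _
  have hc : Continuous fun x : ℝ => Complex.exp (a * x) := by fun_prop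
  constructor
  · rw [brid, integrable_map_measure hc.aestronglyMeasurable hm.aemeasurable]
    exact h1.integrableOn
  · rw [brid, integral_map hm.aemeasurable hc.aestronglyMeasurable]
    exact h2

omit [Countable Γ] in
theorem Steps.lltA_var_pos (H : Steps p h ρ N) : 0 < ∫ γ, ((ρ γ : ℝ) - 1) ^ 2 ∂p := by
  have := H.prob
  obtain ⟨η, hη, -, hp, -, -⟩ := H.lltA_data (fun _ => 0) 0 (fun γ => by simp)
  have i1 : Integrable (fun γ => ((ρ γ : ℝ) - 1) ^ 2) p := lltA_int_pow hη hp _ 2 fun γ => by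
    simp
  rw [integral_pos_iff_support_of_nonneg (fun γ => sq_nonneg _) i1]
  refine lt_of_lt_of_le (pos_iff_ne_zero.2 H.at0) (measure_mono fun γ hγ => ?_)
  simp only [Set.mem_ofPred_eq] at hγ
  simp [hγ]

theorem Steps.llt (H : Steps p h ρ N) : ∃ c : ℝ, 0 < c ∧ ∀ (F : Γ → ℝ) (B : ℝ),
    (∀ γ, |F γ| ≤ B * N γ) → ∃ σ2 : ℝ, ∀ θ : ℝ,
      Tendsto (fun q : ℕ × ℝ => ((√q.1 : ℝ) : ℂ) *
          ∫ x, Complex.exp (Complex.I * ((q.2 * x : ℝ) : ℂ)) ∂brid p h ρ F (∫ γ, F γ ∂p) q.1)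
        (FF θ) (𝓝 ((c * Real.exp (-(σ2 * θ ^ 2 / 2)) : ℝ) : ℂ)) := by
  have hp1 := H.prob
  have hh1 := H.fin
  have hv := H.lltA_var_pos
  set v := ∫ γ, ((ρ γ : ℝ) - 1) ^ 2 ∂p with hv0
  have hm : 0 < h.real Set.univ :=
    ENNReal.toReal_pos (by simpa using H.ne) (measure_ne_top _ _)
  have hpi := Real.pi_pos
  refine ⟨(2 * Real.pi)⁻¹ * (h.real Set.univ * √(Real.pi / (v / 2))), by positivity,
    fun F B hF => ?_⟩
  obtain ⟨η, hη, hh, hp, hG, hR⟩ := H.lltA_data F B hF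
  set mu := ∫ γ, F γ ∂p
  refine ⟨∫ γ, (F γ - mu) ^ 2 ∂p - (∫ γ, (F γ - mu) * ((ρ γ : ℝ) - 1) ∂p) ^ 2 / v, fun θ => ?_⟩
  have h1 := (lltA_limit (F := F) (R := fun γ => (ρ γ : ℝ) + 1) (G := fun γ => F γ - mu)
    H.at0 H.at1 hη hh hp hG hR θ).const_mul (2 * Real.pi : ℂ)⁻¹
  rw [lltA_gauss hv] at h1
  have e : (2 * Real.pi : ℂ)⁻¹ * ((h.real Set.univ * √(Real.pi / (v / 2)) *
      Real.exp (-((∫ γ, (F γ - mu) ^ 2 ∂p - (∫ γ, (F γ - mu) * ((ρ γ : ℝ) - 1) ∂p) ^ 2 / v) *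
        θ ^ 2 / 2)) : ℝ) : ℂ) =
      (((2 * Real.pi)⁻¹ * (h.real Set.univ * √(Real.pi / (v / 2))) *
      Real.exp (-((∫ γ, (F γ - mu) ^ 2 ∂p - (∫ γ, (F γ - mu) * ((ρ γ : ℝ) - 1) ∂p) ^ 2 / v) *
        θ ^ 2 / 2)) : ℝ) : ℂ) := by
    rw [mul_assoc (2 * Real.pi)⁻¹, Complex.ofReal_mul (2 * Real.pi)⁻¹]
    congr 1
    push_cast
    rfl
  rw [e] at h1
  refine h1.congr' ?_
  filter_upwards [(FF_fst θ).eventually_ge_atTop 1, (lltA_FF_zero θ).abs.eventually (ge_mem_nhds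
    (show |(0 : ℝ)| < η by simpa using hη))] with q hq1 hq2
  have h2 := (lltA_brid hp1 hh1 hη hh hp (a := Complex.I * q.2) (by simpa using hq2) hq1).2
  have e2 : ∀ x : ℝ, Complex.I * ((q.2 * x : ℝ) : ℂ) = Complex.I * q.2 * x := fun x => by
    push_cast; ring
  simp_rw [e2]
  rw [h2]
  ring

end Pool.Agent.Lib.MP_77dff5_pr
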