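import Pool.Agent.Lib.MP_77dff5_pr.KernelA
import Pool.Agent.Lib.MP_77dff5_pr.LinA

/-! Joint transforms of two variables with an exponential moment. -/

set_option autoImplicit false

namespace Pool.Agent.Lib.MP_77dff5_pr

open MeasureTheory ProbabilityTheory Filter Topology
open scoped ENNReal NNReal

theorem lltA_pow_sub_pow (a b : ℂ) (ha : ‖a‖ ≤ 1) (hb : ‖b‖ ≤ 1) (n : ℕ) :
    ‖a ^ n - b ^ n‖ ≤ n * ‖a - b‖ := by
  induction n with
  | zero => simp
  | succ n ih =>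
    have e : a ^ (n + 1) - b ^ (n + 1) = a * (a ^ n - b ^ n) + (a - b) * b ^ n := by ring
    have h1 : ‖a * (a ^ n - b ^ n)‖ ≤ n * ‖a - b‖ := by
      rw [norm_mul]
      calc ‖a‖ * ‖a ^ n - b ^ n‖ ≤ 1 * (n * ‖a - b‖) :=
            mul_le_mul ha ih (norm_nonneg _) zero_le_one
        _ = n * ‖a - b‖ := one_mul _
    have h2 : ‖(a - b) * b ^ n‖ ≤ ‖a - b‖ := by
      rw [norm_mul, norm_pow]
      exact mul_le_of_le_one_right (norm_nonneg _) (pow_le_one₀ (norm_nonneg _) hb)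
    rw [e]
    have h3 := norm_add_le (a * (a ^ n - b ^ n)) ((a - b) * b ^ n)
    push_cast
    linarith

theorem lltA_tendsto_pow {ι : Type} {l : Filter ι} {n : ι → ℕ} {ψ : ι → ℂ} {w : ℂ}
    (hn : Tendsto n l atTop) (h1 : ∀ i, ‖ψ i‖ ≤ 1)
    (hw : Tendsto (fun i => (n i : ℂ) * (ψ i - 1)) l (𝓝 w)) :
    Tendsto (fun i => ψ i ^ n i) l (𝓝 (Complex.exp w)) := by
  have hinv : Tendsto (fun i => ((n i : ℝ))⁻¹) l (𝓝 0) :=
    tendsto_inv_atTop_zero.comp (tendsto_natCast_atTop_atTop.comp hn)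
  have hg : Tendsto (fun i => ‖ψ i - 1‖) l (𝓝 0) := by
    have h2 := hw.norm.mul hinv
    rw [mul_zero] at h2
    refine h2.congr' ?_
    filter_upwards [hn.eventually_ge_atTop 1] with i hi
    have : (n i : ℝ) ≠ 0 := by
      have : (1 : ℝ) ≤ n i := by exact_mod_cast hi
      linarith
    rw [norm_mul, Complex.norm_natCast]
    field_simp
  have hA : Tendsto (fun i => Complex.exp ((n i : ℂ) * (ψ i - 1))) l (𝓝 (Complex.exp w)) :=
    (Complex.continuous_exp.tendsto w).comp hw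
  have hB : Tendsto (fun i => ψ i ^ n i - Complex.exp ((n i : ℂ) * (ψ i - 1))) l (𝓝 0) := by
    have h3 := hw.norm.mul hg
    rw [mul_zero] at h3
    refine squeeze_zero_norm' ?_ h3
    filter_upwards [hg.eventually (ge_mem_nhds zero_lt_one)] with i hi
    rw [Complex.exp_nat_mul]
    have hb : ‖Complex.exp (ψ i - 1)‖ ≤ 1 := by
      rw [Complex.norm_exp, Real.exp_le_one_iff]
      have := (Complex.re_le_norm (ψ i)).trans (h1 i)
      simp only [Complex.sub_re, Complex.one_re]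
      linarith
    refine (lltA_pow_sub_pow _ _ (h1 i) hb _).trans ?_
    have h4 := Complex.norm_exp_sub_one_sub_id_le hi
    have e : ψ i - Complex.exp (ψ i - 1) = -(Complex.exp (ψ i - 1) - 1 - (ψ i - 1)) := by ring
    rw [e, norm_neg, norm_mul, Complex.norm_natCast, mul_assoc]
    refine mul_le_mul_of_nonneg_left ?_ (Nat.cast_nonneg _)
    nlinarith
  have := hB.add hA
  simpa using this

theorem lltA_pow_le {η W : ℝ} (hη : 0 < η) (hW : 0 ≤ W) (k : ℕ) :
    W ^ k * Real.exp (η / 2 * W) ≤ k.factorial * (2 / η) ^ k * Real.exp (η * W) := by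
  have h1 := Real.pow_div_factorial_le_exp (η / 2 * W) (by positivity) k
  have hk : (0 : ℝ) < k.factorial := by exact_mod_cast Nat.factorial_pos k
  rw [div_le_iff₀ hk] at h1
  have e1 : W ^ k = (2 / η) ^ k * (η / 2 * W) ^ k := by
    rw [← mul_pow]; congr 1; field_simp
  have e2 : Real.exp (η * W) = Real.exp (η / 2 * W) * Real.exp (η / 2 * W) := by
    rw [← Real.exp_add]; congr 1; ring
  rw [e1, e2]
  have h2 : 0 ≤ (2 / η) ^ k * Real.exp (η / 2 * W) := by positivity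
  have := mul_le_mul_of_nonneg_left h1 h2
  nlinarith

theorem lltA_pow_le' {η W : ℝ} (hη : 0 < η) (hW : 0 ≤ W) (k : ℕ) :
    W ^ k ≤ k.factorial * (2 / η) ^ k * Real.exp (η * W) := by
  refine le_trans ?_ (lltA_pow_le hη hW k)
  exact le_mul_of_one_le_right (by positivity) (Real.one_le_exp (by positivity))

theorem lltA_rem {η W m : ℝ} (hη : 0 < η) (hW : 0 ≤ W) (hm0 : 0 ≤ m) (hm : m ≤ η / 2) (z : ℂ)
    (hz : ‖z‖ ≤ m * W) (k : ℕ) :
    ‖Complex.exp z - ∑ j ∈ Finset.range k, z ^ j / j.factorial‖ ≤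
      m ^ k * (k.factorial * (2 / η) ^ k) * Real.exp (η * W) := by
  refine (Complex.norm_exp_sub_sum_le_norm_mul_exp z k).trans ?_
  have h1 : ‖z‖ ^ k ≤ m ^ k * W ^ k := by
    rw [← mul_pow]; exact pow_le_pow_left₀ (norm_nonneg _) hz k
  have h2 : Real.exp ‖z‖ ≤ Real.exp (η / 2 * W) :=
    Real.exp_le_exp.2 (hz.trans (mul_le_mul_of_nonneg_right hm hW))
  calc ‖z‖ ^ k * Real.exp ‖z‖ ≤ (m ^ k * W ^ k) * Real.exp (η / 2 * W) :=
        mul_le_mul h1 h2 (Real.exp_pos _).le (by positivity)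
    _ = m ^ k * (W ^ k * Real.exp (η / 2 * W)) := by ring
    _ ≤ m ^ k * (k.factorial * (2 / η) ^ k * Real.exp (η * W)) :=
        mul_le_mul_of_nonneg_left (lltA_pow_le hη hW k) (by positivity)
    _ = _ := by ring

/-- joint transform of two real variables -/
noncomputable def lltPsi {Γ : Type} [MeasurableSpace Γ] (ν : Measure Γ) (G R : Γ → ℝ) (a : ℂ)
    (t : ℝ) : ℂ :=
  ∫ γ, Complex.exp (a * G γ + Complex.I * ((t * R γ : ℝ) : ℂ)) ∂ν

/-- exponential moment -/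
noncomputable def lltM {Γ : Type} [MeasurableSpace Γ] (ν : Measure Γ) (G R : Γ → ℝ) (η : ℝ) : ℝ :=
  ∫ γ, Real.exp (η * (|G γ| + |R γ|)) ∂ν

variable {Γ : Type} [MeasurableSpace Γ] [DiscreteMeasurableSpace Γ]
  {ν : Measure Γ} {G R : Γ → ℝ} {η : ℝ}

omit [MeasurableSpace Γ] [DiscreteMeasurableSpace Γ] in
theorem lltA_norm_exp_le (hη : 0 < η) {a : ℂ} (ha : ‖a‖ ≤ η) (t : ℝ) (γ : Γ) :
    ‖Complex.exp (a * G γ + Complex.I * ((t * R γ : ℝ) : ℂ))‖ ≤
      Real.exp (η * (|G γ| + |R γ|)) := by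
  rw [Complex.norm_exp, Real.exp_le_exp]
  have h1 : (a * G γ + Complex.I * ((t * R γ : ℝ) : ℂ)).re = (a * G γ).re := by
    simp
  have h2 := Complex.re_le_norm (a * G γ)
  rw [norm_mul, Complex.norm_real, Real.norm_eq_abs] at h2
  have h3 : ‖a‖ * |G γ| ≤ η * |G γ| := mul_le_mul_of_nonneg_right ha (abs_nonneg _)
  have h4 : 0 ≤ η * |R γ| := by positivity
  rw [h1]
  linarith

omit [MeasurableSpace Γ] [DiscreteMeasurableSpace Γ] in
theorem lltA_norm_arg_le (a : ℂ) (t : ℝ) (γ : Γ) :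
    ‖a * G γ + Complex.I * ((t * R γ : ℝ) : ℂ)‖ ≤ (‖a‖ + |t|) * (|G γ| + |R γ|) := by
  refine (norm_add_le _ _).trans ?_
  rw [norm_mul, norm_mul, Complex.norm_I, Complex.norm_real, Complex.norm_real, Real.norm_eq_abs,
    Real.norm_eq_abs, abs_mul]
  have h1 : 0 ≤ ‖a‖ * |R γ| := by positivity
  have h2 : 0 ≤ |t| * |G γ| := by positivity
  nlinarith

theorem lltA_int_of_le (hW : Integrable (fun γ => Real.exp (η * (|G γ| + |R γ|))) ν)
    {E : Type} [NormedAddCommGroup E] [MeasurableSpace E] [BorelSpace E]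
    [SecondCountableTopology E] (f : Γ → E) (K : ℝ)
    (hf : ∀ γ, ‖f γ‖ ≤ K * Real.exp (η * (|G γ| + |R γ|))) : Integrable f ν :=
  Integrable.mono' (hW.const_mul K) Measurable.of_discrete.aestronglyMeasurable
    (Eventually.of_forall hf)

omit [DiscreteMeasurableSpace Γ] in
theorem lltA_norm_int_le (hW : Integrable (fun γ => Real.exp (η * (|G γ| + |R γ|))) ν)
    (f : Γ → ℂ) (K : ℝ) (hf : ∀ γ, ‖f γ‖ ≤ K * Real.exp (η * (|G γ| + |R γ|))) :
    ‖∫ γ, f γ ∂ν‖ ≤ K * lltM ν G R η := by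
  have := norm_integral_le_of_norm_le (hW.const_mul K) (Eventually.of_forall hf)
  rwa [integral_const_mul] at this

theorem lltA_int_exp (hη : 0 < η) (hW : Integrable (fun γ => Real.exp (η * (|G γ| + |R γ|))) ν)
    {a : ℂ} (ha : ‖a‖ ≤ η) (t : ℝ) :
    Integrable (fun γ => Complex.exp (a * G γ + Complex.I * ((t * R γ : ℝ) : ℂ))) ν :=
  lltA_int_of_le hW _ 1 fun γ => by rw [one_mul]; exact lltA_norm_exp_le hη ha t γ

theorem lltA_int_pow (hη : 0 < η) (hW : Integrable (fun γ => Real.exp (η * (|G γ| + |R γ|))) ν)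
    (f : Γ → ℝ) (k : ℕ) (hf : ∀ γ, |f γ| ≤ (|G γ| + |R γ|) ^ k) : Integrable f ν :=
  lltA_int_of_le hW _ (k.factorial * (2 / η) ^ k) fun γ =>
    (hf γ).trans (lltA_pow_le' hη (by positivity) k)

omit [DiscreteMeasurableSpace Γ] in
theorem lltPsi_norm_le (hη : 0 < η) (hW : Integrable (fun γ => Real.exp (η * (|G γ| + |R γ|))) ν)
    {a : ℂ} (ha : ‖a‖ ≤ η) (t : ℝ) : ‖lltPsi ν G R a t‖ ≤ lltM ν G R η := by
  have := lltA_norm_int_le hW _ 1 fun γ => by rw [one_mul]; exact lltA_norm_exp_le hη ha t γ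
  rwa [one_mul] at this

theorem lltPsi_sub_mass [IsFiniteMeasure ν] (hη : 0 < η)
    (hW : Integrable (fun γ => Real.exp (η * (|G γ| + |R γ|))) ν)
    {a : ℂ} {t : ℝ} (ha : ‖a‖ + |t| ≤ η / 2) :
    ‖lltPsi ν G R a t - (ν.real Set.univ : ℝ)‖ ≤ (‖a‖ + |t|) * (2 / η) * lltM ν G R η := by
  have ha' : ‖a‖ ≤ η := by have := abs_nonneg t; linarith
  have e : lltPsi ν G R a t - (ν.real Set.univ : ℝ) =
      ∫ γ, (Complex.exp (a * G γ + Complex.I * ((t * R γ : ℝ) : ℂ)) - 1) ∂ν := by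
    rw [integral_sub (lltA_int_exp hη hW ha' t) (integrable_const _), integral_const]
    simp [lltPsi]
  rw [e]
  refine lltA_norm_int_le hW _ _ fun γ => ?_
  have := lltA_rem hη (by positivity) (by positivity) ha _ (lltA_norm_arg_le (G := G) (R := R) a t γ) 1
  simpa using this

omit [DiscreteMeasurableSpace Γ] in
theorem lltPsi_I_norm_le [IsFiniteMeasure ν] (θ t : ℝ) :
    ‖lltPsi ν G R (Complex.I * θ) t‖ ≤ ν.real Set.univ := by
  have := norm_integral_le_of_norm_le_const (μ := ν) (C := 1)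
    (f := fun γ => Complex.exp (Complex.I * θ * G γ + Complex.I * ((t * R γ : ℝ) : ℂ)))
    (Eventually.of_forall fun γ => by
      rw [Complex.norm_exp]; simp)
  rwa [one_mul] at this

theorem lltPsi_I_continuous [IsFiniteMeasure ν] (θ : ℝ) :
    Continuous fun t => lltPsi ν G R (Complex.I * θ) t := by
  refine continuous_of_dominated (bound := fun _ => 1)
    (fun _ => Measurable.of_discrete.aestronglyMeasurable) (fun t => Eventually.of_forall fun γ => ?_)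
    (integrable_const _) (Eventually.of_forall fun γ => by fun_prop)
  rw [Complex.norm_exp]; simp

theorem lltPsi_taylor [IsProbabilityMeasure ν] (hη : 0 < η)
    (hW : Integrable (fun γ => Real.exp (η * (|G γ| + |R γ|))) ν)
    (hG : ∫ γ, G γ ∂ν = 0) (hR : ∫ γ, R γ ∂ν = 0) {θ t : ℝ} (ha : |θ| + |t| ≤ η / 2) :
    ‖lltPsi ν G R (Complex.I * θ) t - 1 + (((θ ^ 2 * ∫ γ, G γ ^ 2 ∂ν + 2 * θ * t * ∫ γ, G γ * R γ ∂ν +
        t ^ 2 * ∫ γ, R γ ^ 2 ∂ν) / 2 : ℝ) : ℂ)‖ ≤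
      (|θ| + |t|) ^ 3 * (6 * (2 / η) ^ 3) * lltM ν G R η := by
  have hn : ‖Complex.I * (θ : ℂ)‖ = |θ| := by simp
  have ha' : ‖Complex.I * (θ : ℂ)‖ ≤ η := by have := abs_nonneg t; rw [hn]; linarith
  have iG : Integrable G ν := lltA_int_pow hη hW G 1 fun γ => by
    have := abs_nonneg (R γ); rw [pow_one]; linarith
  have iR : Integrable R ν := lltA_int_pow hη hW R 1 fun γ => by
    have := abs_nonneg (G γ); rw [pow_one]; linarith
  have iGG : Integrable (fun γ => G γ ^ 2) ν := lltA_int_pow hη hW _ 2 fun γ => by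
    rw [abs_pow]; have := abs_nonneg (R γ); have := abs_nonneg (G γ); nlinarith
  have iRR : Integrable (fun γ => R γ ^ 2) ν := lltA_int_pow hη hW _ 2 fun γ => by
    rw [abs_pow]; have := abs_nonneg (R γ); have := abs_nonneg (G γ); nlinarith
  have iGR : Integrable (fun γ => G γ * R γ) ν := lltA_int_pow hη hW _ 2 fun γ => by
    rw [abs_mul]; have := abs_nonneg (R γ); have := abs_nonneg (G γ); nlinarith
  have i1 : Integrable (fun γ => θ * G γ + t * R γ) ν := (iG.const_mul θ).add (iR.const_mul t)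
  have i2 : Integrable (fun γ => (θ ^ 2 * G γ ^ 2 + 2 * θ * t * (G γ * R γ) + t ^ 2 * R γ ^ 2) / 2) ν :=
    (((iGG.const_mul _).add (iGR.const_mul _)).add (iRR.const_mul _)).div_const 2
  have e1 : ∫ γ, (θ * G γ + t * R γ) ∂ν = 0 := by
    rw [integral_add (iG.const_mul θ) (iR.const_mul t), integral_const_mul, integral_const_mul, hG, hR]
    simp
  have e2 : ∫ γ, (θ ^ 2 * G γ ^ 2 + 2 * θ * t * (G γ * R γ) + t ^ 2 * R γ ^ 2) / 2 ∂ν =
      (θ ^ 2 * ∫ γ, G γ ^ 2 ∂ν + 2 * θ * t * ∫ γ, G γ * R γ ∂ν + t ^ 2 * ∫ γ, R γ ^ 2 ∂ν) / 2 := by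
    have i3 : Integrable (fun γ => θ ^ 2 * G γ ^ 2 + 2 * θ * t * (G γ * R γ)) ν :=
      (iGG.const_mul _).add (iGR.const_mul _)
    rw [integral_div, integral_add i3 (iRR.const_mul _),
      integral_add (iGG.const_mul _) (iGR.const_mul _), integral_const_mul, integral_const_mul,
      integral_const_mul]
  have j0 := lltA_int_exp hη hW ha' t
  have j1 : Integrable (fun γ => Complex.I * ((θ * G γ + t * R γ : ℝ) : ℂ)) ν :=
    i1.ofReal.const_mul _
  have j2 : Integrable (fun γ => (((θ ^ 2 * G γ ^ 2 + 2 * θ * t * (G γ * R γ) +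
      t ^ 2 * R γ ^ 2) / 2 : ℝ) : ℂ)) ν := i2.ofReal
  have e : lltPsi ν G R (Complex.I * θ) t - 1 + (((θ ^ 2 * ∫ γ, G γ ^ 2 ∂ν +
      2 * θ * t * ∫ γ, G γ * R γ ∂ν + t ^ 2 * ∫ γ, R γ ^ 2 ∂ν) / 2 : ℝ) : ℂ) =
      ∫ γ, (Complex.exp (Complex.I * θ * G γ + Complex.I * ((t * R γ : ℝ) : ℂ)) - 1 -
        Complex.I * ((θ * G γ + t * R γ : ℝ) : ℂ) + (((θ ^ 2 * G γ ^ 2 + 2 * θ * t * (G γ * R γ) +
      t ^ 2 * R γ ^ 2) / 2 : ℝ) : ℂ)) ∂ν := by
    have j3 : Integrable (fun γ => Complex.exp (Complex.I * θ * G γ +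
        Complex.I * ((t * R γ : ℝ) : ℂ)) - 1) ν := j0.sub (integrable_const _)
    have j4 : Integrable (fun γ => Complex.exp (Complex.I * θ * G γ +
        Complex.I * ((t * R γ : ℝ) : ℂ)) - 1 - Complex.I * ((θ * G γ + t * R γ : ℝ) : ℂ)) ν :=
      j3.sub j1
    rw [integral_add j4 j2, integral_sub j3 j1, integral_sub j0 (integrable_const _),
      integral_const_mul, integral_complex_ofReal, integral_complex_ofReal, e1, e2]
    simp [lltPsi]
  rw [e]
  refine lltA_norm_int_le hW _ _ fun γ => ?_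
  have h3 := lltA_rem hη (by positivity) (by positivity) (hn ▸ ha) _
    (lltA_norm_arg_le (G := G) (R := R) (Complex.I * θ) t γ) 3
  rw [hn] at h3
  have e3 : Complex.exp (Complex.I * θ * G γ + Complex.I * ((t * R γ : ℝ) : ℂ)) - 1 -
        Complex.I * ((θ * G γ + t * R γ : ℝ) : ℂ) + (((θ ^ 2 * G γ ^ 2 + 2 * θ * t * (G γ * R γ) +
      t ^ 2 * R γ ^ 2) / 2 : ℝ) : ℂ) =
      Complex.exp (Complex.I * θ * G γ + Complex.I * ((t * R γ : ℝ) : ℂ)) -
        ∑ j ∈ Finset.range 3, (Complex.I * θ * G γ + Complex.I * ((t * R γ : ℝ) : ℂ)) ^ j /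
          j.factorial := by
    simp only [Finset.sum_range_succ, Finset.sum_range_zero, Nat.factorial]
    push_cast
    linear_combination (((θ : ℂ) * G γ + t * R γ) ^ 2 / 2) * Complex.I_sq
  rw [e3]
  refine h3.trans (le_of_eq ?_)
  simp [Nat.factorial]

theorem lltPsi_sub_zero (hη : 0 < η)
    (hW : Integrable (fun γ => Real.exp (η * (|G γ| + |R γ|))) ν)
    (hG : ∫ γ, G γ ∂ν = 0) {a : ℂ} (ha : ‖a‖ ≤ η / 2) (t : ℝ) :
    ‖lltPsi ν G R a t - lltPsi ν G R 0 t‖ ≤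
      (‖a‖ ^ 2 + ‖a‖ * |t|) * (2 * (2 / η) ^ 2) * lltM ν G R η := by
  have ha' : ‖a‖ ≤ η := by linarith
  have iG : Integrable G ν := lltA_int_pow hη hW G 1 fun γ => by
    have := abs_nonneg (R γ); rw [pow_one]; linarith
  have j0 := lltA_int_exp hη hW ha' t
  have j1 := lltA_int_exp hη hW (a := 0) (by simpa using hη.le) t
  have j2 : Integrable (fun γ => a * (G γ : ℂ)) ν := iG.ofReal.const_mul _
  have e : lltPsi ν G R a t - lltPsi ν G R 0 t =
      ∫ γ, (Complex.exp (a * G γ + Complex.I * ((t * R γ : ℝ) : ℂ)) -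
        Complex.exp (0 * G γ + Complex.I * ((t * R γ : ℝ) : ℂ)) - a * (G γ : ℂ)) ∂ν := by
    have j3 : Integrable (fun γ => Complex.exp (a * G γ + Complex.I * ((t * R γ : ℝ) : ℂ)) -
        Complex.exp (0 * G γ + Complex.I * ((t * R γ : ℝ) : ℂ))) ν := j0.sub j1
    rw [integral_sub j3 j2, integral_sub j0 j1, integral_const_mul,
      integral_complex_ofReal, hG]
    simp [lltPsi]
  rw [e]
  refine lltA_norm_int_le hW _ _ fun γ => ?_
  have e3 : Complex.exp (a * G γ + Complex.I * ((t * R γ : ℝ) : ℂ)) -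
        Complex.exp (0 * G γ + Complex.I * ((t * R γ : ℝ) : ℂ)) - a * (G γ : ℂ) =
      (Complex.exp (a * G γ) - ∑ j ∈ Finset.range 2, (a * G γ) ^ j / j.factorial) *
        Complex.exp (Complex.I * ((t * R γ : ℝ) : ℂ)) +
      a * G γ * (Complex.exp (Complex.I * ((t * R γ : ℝ) : ℂ)) - 1) := by
    rw [Complex.exp_add, zero_mul, zero_add]
    simp only [Finset.sum_range_succ, Finset.sum_range_zero, Nat.factorial]
    push_cast
    ring
  have hz : ‖a * G γ‖ ≤ ‖a‖ * (|G γ| + |R γ|) := by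
    rw [norm_mul, Complex.norm_real, Real.norm_eq_abs]
    exact mul_le_mul_of_nonneg_left (by have := abs_nonneg (R γ); linarith) (norm_nonneg _)
  have h3 := lltA_rem hη (by positivity) (norm_nonneg _) ha _ hz 2
  have h4 : ‖Complex.exp (Complex.I * ((t * R γ : ℝ) : ℂ))‖ = 1 := by
    rw [Complex.norm_exp]; simp
  have h5 := Real.norm_exp_I_mul_ofReal_sub_one_le (x := t * R γ)
  rw [Real.norm_eq_abs, abs_mul] at h5
  have h6 := lltA_pow_le' hη (W := |G γ| + |R γ|) (by positivity) 2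
  have h7 : ‖a * G γ * (Complex.exp (Complex.I * ((t * R γ : ℝ) : ℂ)) - 1)‖ ≤
      ‖a‖ * |t| * (|G γ| + |R γ|) ^ 2 := by
    rw [norm_mul]
    calc ‖a * G γ‖ * ‖Complex.exp (Complex.I * ((t * R γ : ℝ) : ℂ)) - 1‖
        ≤ (‖a‖ * (|G γ| + |R γ|)) * (|t| * (|G γ| + |R γ|)) := by
          refine mul_le_mul hz (h5.trans ?_) (norm_nonneg _) (by positivity)
          exact mul_le_mul_of_nonneg_left (by have := abs_nonneg (G γ); linarith) (abs_nonneg _)
      _ = _ := by ring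
  have h8 := mul_le_mul_of_nonneg_left h6 (show 0 ≤ ‖a‖ * |t| by positivity)
  rw [e3]
  refine (norm_add_le _ _).trans ?_
  rw [norm_mul, h4, mul_one]
  have e4 : ((Nat.factorial 2 : ℕ) : ℝ) = 2 := by simp [Nat.factorial]
  rw [e4] at h3 h8
  nlinarith

end Pool.Agent.Lib.MP_77dff5_pr
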