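import Pool.Agent.Lib.MP_77dff5_pr.LLTAAux1

/-! Domination of the joint transform, and the Fourier formula for a conditioned sum. -/

set_option autoImplicit false

namespace Pool.Agent.Lib.MP_77dff5_pr

open MeasureTheory ProbabilityTheory Filter Topology
open scoped ENNReal NNReal

private theorem le_of_sq_le_sq_aux {x y : ℝ} (h : x ^ 2 ≤ y ^ 2) (hy : 0 ≤ y) : x ≤ y :=
  (abs_le_of_sq_le_sq' h hy).2

theorem lltA_two_atoms {a b t : ℝ} (ha : 0 ≤ a) (hb : 0 ≤ b) (hab : a + b ≤ 1) :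
    ‖(a : ℂ) * Complex.exp (Complex.I * ((-t : ℝ) : ℂ)) + b‖ ≤ a + b - a * b * (1 - Real.cos t) := by
  have hc1 := Real.cos_le_one t
  have hc2 := Real.neg_one_le_cos t
  have hab0 : 0 ≤ a * b := mul_nonneg ha hb
  have hx0 : 0 ≤ a * b * (1 - Real.cos t) := mul_nonneg hab0 (by linarith)
  have hx1 : a * b * (1 - Real.cos t) ≤ a + b := by
    have : a * b * (1 - Real.cos t) ≤ a * b * 2 := mul_le_mul_of_nonneg_left (by linarith) hab0
    nlinarith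
  have hsq : ‖(a : ℂ) * Complex.exp (Complex.I * ((-t : ℝ) : ℂ)) + b‖ ^ 2 =
      (a + b) ^ 2 - 2 * (a * b * (1 - Real.cos t)) := by
    rw [Complex.sq_norm, Complex.normSq_apply, mul_comm Complex.I]
    simp only [Complex.add_re, Complex.add_im, Complex.re_ofReal_mul, Complex.im_ofReal_mul,
      Complex.exp_ofReal_mul_I_re, Complex.exp_ofReal_mul_I_im, Complex.ofReal_re,
      Complex.ofReal_im, Real.cos_neg, Real.sin_neg]
    have := Real.sin_sq_add_cos_sq t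
    linear_combination a ^ 2 * this
  refine le_of_sq_le_sq_aux ?_ (by linarith)
  rw [hsq]
  nlinarith

variable {Γ : Type} [MeasurableSpace Γ] [DiscreteMeasurableSpace Γ]
  {ν : Measure Γ} {G : Γ → ℝ} {ρ : Γ → ℕ} {η : ℝ}

theorem lltPsi_zero_le [IsProbabilityMeasure ν] (h0 : ν {γ | ρ γ = 0} ≠ 0) (h1 : ν {γ | ρ γ = 1} ≠ 0) :
    ∃ c : ℝ, 0 < c ∧ ∀ t : ℝ, |t| ≤ Real.pi →
      ‖lltPsi ν G (fun γ => (ρ γ : ℝ) - 1) 0 t‖ ≤ 1 - c * t ^ 2 := by
  set A0 : Set Γ := {γ | ρ γ = 0} with hA0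
  set A1 : Set Γ := {γ | ρ γ = 1} with hA1
  have p0 : 0 < ν.real A0 := ENNReal.toReal_pos h0 (measure_ne_top _ _)
  have p1 : 0 < ν.real A1 := ENNReal.toReal_pos h1 (measure_ne_top _ _)
  have hd : Disjoint A0 A1 := by
    rw [Set.disjoint_left]
    intro γ h h'
    simp only [hA0, hA1, Set.mem_ofPred_eq] at h h'
    omega
  have hu : ν.real (A0 ∪ A1) = ν.real A0 + ν.real A1 :=
    measureReal_union hd MeasurableSet.of_discrete
  have hc : ν.real (A0 ∪ A1)ᶜ = 1 - (ν.real A0 + ν.real A1) := by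
    rw [measureReal_compl MeasurableSet.of_discrete, hu]; simp
  have hle : ν.real A0 + ν.real A1 ≤ 1 := by
    have := measureReal_nonneg (μ := ν) (s := (A0 ∪ A1)ᶜ)
    linarith
  refine ⟨ν.real A0 * ν.real A1 * (2 / Real.pi ^ 2), by positivity, fun t ht => ?_⟩
  set f : Γ → ℂ := fun γ => Complex.exp (0 * G γ + Complex.I * ((t * ((ρ γ : ℝ) - 1) : ℝ) : ℂ))
    with hf
  have hn : ∀ γ, ‖f γ‖ ≤ 1 := fun γ => by
    simp only [hf]
    rw [Complex.norm_exp]; simp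
  have hi : Integrable f ν := Integrable.mono' (integrable_const 1)
    Measurable.of_discrete.aestronglyMeasurable (Eventually.of_forall hn)
  have e0 : ∫ γ in A0, f γ ∂ν = (ν.real A0 : ℝ) * Complex.exp (Complex.I * ((-t : ℝ) : ℂ)) := by
    rw [setIntegral_congr_fun (g := fun _ => Complex.exp (Complex.I * ((-t : ℝ) : ℂ)))
      MeasurableSet.of_discrete]
    · rw [setIntegral_const]; simp
    · intro γ hγ
      simp only [hA0, Set.mem_ofPred_eq] at hγ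
      simp [hf, hγ]
  have e1 : ∫ γ in A1, f γ ∂ν = (ν.real A1 : ℝ) := by
    rw [setIntegral_congr_fun (g := fun _ => (1 : ℂ)) MeasurableSet.of_discrete]
    · rw [setIntegral_const]; simp
    · intro γ hγ
      simp only [hA1, Set.mem_ofPred_eq] at hγ
      simp [hf, hγ]
  have e2 : ‖∫ γ in (A0 ∪ A1)ᶜ, f γ ∂ν‖ ≤ 1 * ν.real (A0 ∪ A1)ᶜ :=
    norm_setIntegral_le_of_norm_le_const (measure_lt_top _ _) fun γ _ => hn γ
  have e3 : lltPsi ν G (fun γ => (ρ γ : ℝ) - 1) 0 t =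
      (∫ γ in A0, f γ ∂ν + ∫ γ in A1, f γ ∂ν) + ∫ γ in (A0 ∪ A1)ᶜ, f γ ∂ν := by
    rw [← setIntegral_union hd MeasurableSet.of_discrete hi.integrableOn hi.integrableOn,
      integral_add_compl MeasurableSet.of_discrete hi]
    rfl
  rw [e3, e0, e1]
  refine (norm_add_le _ _).trans ?_
  have h4 := lltA_two_atoms (t := t) p0.le p1.le hle
  have h5 := Real.cos_le_one_sub_mul_cos_sq ht
  have h6 : ν.real A0 * ν.real A1 * (2 / Real.pi ^ 2 * t ^ 2) ≤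
      ν.real A0 * ν.real A1 * (1 - Real.cos t) :=
    mul_le_mul_of_nonneg_left (by linarith) (by positivity)
  rw [hc] at e2
  nlinarith

theorem lltPsi_dom [IsProbabilityMeasure ν] (h0 : ν {γ | ρ γ = 0} ≠ 0) (h1 : ν {γ | ρ γ = 1} ≠ 0)
    (hη : 0 < η) (hW : Integrable (fun γ => Real.exp (η * (|G γ| + |(ρ γ : ℝ) - 1|))) ν)
    (hG : ∫ γ, G γ ∂ν = 0) :
    ∃ c C : ℝ, 0 < c ∧ 0 ≤ C ∧ ∀ a : ℂ, ‖a‖ ≤ η / 2 → ∀ t : ℝ, |t| ≤ Real.pi →
      ‖lltPsi ν G (fun γ => (ρ γ : ℝ) - 1) a t‖ ≤ Real.exp (-c * t ^ 2 + C * ‖a‖ ^ 2) := by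
  obtain ⟨c, hc, hb⟩ := lltPsi_zero_le (G := G) h0 h1
  set K : ℝ := (2 * (2 / η) ^ 2) * lltM ν G (fun γ => (ρ γ : ℝ) - 1) η with hK
  have hK0 : 0 ≤ K := by
    have : 0 ≤ lltM ν G (fun γ => (ρ γ : ℝ) - 1) η := integral_nonneg fun γ => (Real.exp_pos _).le
    positivity
  refine ⟨c / 2, K + K ^ 2 / (2 * c), by positivity, by positivity, fun a ha t ht => ?_⟩
  have h2 := lltPsi_sub_zero (R := fun γ => (ρ γ : ℝ) - 1) hη hW hG ha t
  rw [mul_assoc, ← hK] at h2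
  have h3 := hb t ht
  have h4 := norm_le_insert' (lltPsi ν G (fun γ => (ρ γ : ℝ) - 1) a t)
    (lltPsi ν G (fun γ => (ρ γ : ℝ) - 1) 0 t)
  have h5 : ‖a‖ * |t| * K ≤ c / 2 * t ^ 2 + K ^ 2 / (2 * c) * ‖a‖ ^ 2 := by
    have h6 : 0 ≤ (c * |t| - K * ‖a‖) ^ 2 / (2 * c) := by positivity
    have h7 : (c * |t| - K * ‖a‖) ^ 2 / (2 * c) =
        c / 2 * |t| ^ 2 + K ^ 2 / (2 * c) * ‖a‖ ^ 2 - ‖a‖ * |t| * K := by
      field_simp; ring
    rw [h7, sq_abs] at h6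
    linarith
  have h8 := Real.add_one_le_exp (-(c / 2) * t ^ 2 + (K + K ^ 2 / (2 * c)) * ‖a‖ ^ 2)
  nlinarith

variable [Countable Γ]

theorem lltA_fourier {p h : Measure Γ} [IsProbabilityMeasure p] [IsFiniteMeasure h]
    {F : Γ → ℝ} {mu : ℝ} (hη : 0 < η)
    (hh : Integrable (fun γ => Real.exp (η * (|F γ| + |(ρ γ : ℝ) + 1|))) h)
    (hp : Integrable (fun γ => Real.exp (η * (|F γ - mu| + |(ρ γ : ℝ) - 1|))) p)
    {a : ℂ} (ha : ‖a‖ ≤ η) {n : ℕ} (hn : 1 ≤ n) :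
    Integrable (fun x : Γ × (Fin n → Γ) =>
      Complex.exp (a * ((F x.1 + ∑ i, F (x.2 i) - mu * n : ℝ) : ℂ)))
      (h.prod (Measure.pi fun _ : Fin n => p)) ∧
    ∫ x in {x : Γ × (Fin n → Γ) | ρ x.1 + ∑ i, ρ (x.2 i) = n - 1},
      Complex.exp (a * ((F x.1 + ∑ i, F (x.2 i) - mu * n : ℝ) : ℂ))
        ∂(h.prod (Measure.pi fun _ : Fin n => p)) =
      (2 * Real.pi : ℂ)⁻¹ * ∫ t in (-Real.pi)..Real.pi,
        lltPsi h F (fun γ => (ρ γ : ℝ) + 1) a t *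
          lltPsi p (fun γ => F γ - mu) (fun γ => (ρ γ : ℝ) - 1) a t ^ n := by
  have key : ∀ (t : ℝ) (x : Γ × (Fin n → Γ)),
      Complex.exp (-(Complex.I * ((t * (((n : ℤ) - 1 : ℤ) : ℝ) : ℝ) : ℂ))) *
        (Complex.exp (a * ((F x.1 + ∑ i, F (x.2 i) - mu * n : ℝ) : ℂ)) *
          Complex.exp (Complex.I * ((t * ((ρ x.1 + ∑ i, ρ (x.2 i) : ℕ) : ℝ) : ℝ) : ℂ))) =
      Complex.exp (a * F x.1 + Complex.I * ((t * ((ρ x.1 : ℝ) + 1) : ℝ) : ℂ)) *
        ∏ i, Complex.exp (a * ((F (x.2 i) - mu : ℝ) : ℂ) +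
          Complex.I * ((t * ((ρ (x.2 i) : ℝ) - 1) : ℝ) : ℂ)) := by
    intro t x
    rw [← Complex.exp_sum, ← Complex.exp_add, ← Complex.exp_add, ← Complex.exp_add]
    congr 1
    push_cast
    simp only [Finset.sum_add_distrib, ← Finset.mul_sum, Finset.sum_sub_distrib, Finset.sum_const,
      Finset.card_univ, Fintype.card_fin, nsmul_eq_mul]
    ring
  have hint : Integrable (fun x : Γ × (Fin n → Γ) =>
      Complex.exp (a * ((F x.1 + ∑ i, F (x.2 i) - mu * n : ℝ) : ℂ)))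
      (h.prod (Measure.pi fun _ : Fin n => p)) := by
    have i1 := lltA_int_exp (R := fun γ => (ρ γ : ℝ) + 1) hη hh ha 0
    have i2 := lltA_int_exp (G := fun γ => F γ - mu) (R := fun γ => (ρ γ : ℝ) - 1) hη hp ha 0
    have i3 := i1.mul_prod (Integrable.fintype_prod (ι := Fin n) fun _ => i2)
    refine i3.congr (Eventually.of_forall fun x => ?_)
    have := key 0 x
    simp only [zero_mul, Complex.ofReal_zero, mul_zero, neg_zero, Complex.exp_zero, one_mul,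
      mul_one] at this
    simp only [zero_mul, Complex.ofReal_zero, mul_zero]
    exact this.symm
  refine ⟨hint, ?_⟩
  have hset : {x : Γ × (Fin n → Γ) | ρ x.1 + ∑ i, ρ (x.2 i) = n - 1} =
      {x : Γ × (Fin n → Γ) | ((ρ x.1 + ∑ i, ρ (x.2 i) : ℕ) : ℤ) = (n : ℤ) - 1} := by
    ext x
    simp only [Set.mem_ofPred_eq]
    omega
  rw [hset, setIntegral_eq_fourier _ (fun x : Γ × (Fin n → Γ) => ρ x.1 + ∑ i, ρ (x.2 i))
    (measurable_of_countable _) _ hint]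
  congr 1
  refine intervalIntegral.integral_congr fun t _ => ?_
  rw [← integral_const_mul]
  simp_rw [key t]
  rw [integral_prod_mul (fun γ => Complex.exp (a * F γ + Complex.I * ((t * ((ρ γ : ℝ) + 1) : ℝ) : ℂ)))
    (fun ω : Fin n → Γ => ∏ i, Complex.exp (a * ((F (ω i) - mu : ℝ) : ℂ) +
          Complex.I * ((t * ((ρ (ω i) : ℝ) - 1) : ℝ) : ℂ))),
    integral_fintype_prod_eq_pow (fun γ => Complex.exp (a * ((F γ - mu : ℝ) : ℂ) +
          Complex.I * ((t * ((ρ γ : ℝ) - 1) : ℝ) : ℂ))), Fintype.card_fin]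
  rfl

end Pool.Agent.Lib.MP_77dff5_pr
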