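import Pool.Agent.Lib.MP_77dff5_pr.LabelA

/-! Labelled products: the exponential formula, shared by LabelB, LabelC, LabelD. -/

set_option autoImplicit false

namespace Pool.Agent.Lib.MP_77dff5_pr

open scoped ENNReal Classical

/-- weight of a label set -/
noncomputable def labW (c : ℝ≥0∞) (n : ℕ) : ℝ≥0∞ := ((n.factorial : ℕ) : ℝ≥0∞)⁻¹ * c ^ n

theorem lab_wt (m n : ℕ) : wt m n = labW 2⁻¹ m * labW 1 n := by
  unfold wt labW
  have h : ∀ k : ℕ, ((k.factorial : ℕ) : ℝ≥0∞) ≠ 0 := fun k => by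
    exact_mod_cast k.factorial_ne_zero
  push_cast
  rw [ENNReal.mul_inv (Or.inr (ENNReal.natCast_ne_top _)) (Or.inr (h n)),
    ENNReal.mul_inv (Or.inl (h m)) (Or.inl (ENNReal.natCast_ne_top _)), ENNReal.inv_pow, one_pow,
    mul_one]

theorem lab_w1 (n : ℕ) : ((n.factorial : ℕ) : ℝ≥0∞)⁻¹ = labW 1 n := by simp [labW]

theorem lab_fin {β : Type} [Fintype β] (f : β → ℝ≥0∞) : ∑ b, f b = ∑' b, f b :=
  (tsum_fintype f).symm

theorem lab_exp {J : Type} [Fintype J] (c : ℝ≥0∞) (Φ : (J → Type) → ℝ≥0∞)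
    (hΦ : ∀ Y Y' : J → Type, (∀ i, Y i ≃ Y' i) → Φ Y = Φ Y') :
    ∑' l : J → ℕ, (∏ i, labW c (l i)) * Φ (fun i => Fin (l i)) =
      ∑' m : ℕ, labW c m * ∑' f : Fin m → J, Φ (fun i => {x // f x = i}) := by
  have h1 : ∀ m : ℕ, ∑' f : Fin m → J, Φ (fun i => {x // f x = i}) =
      ∑' l : J → ℕ, (∏ i, (((l i).factorial : ℕ) : ℝ≥0∞)⁻¹) *
        ∑ _e : (Σ i, Fin (l i)) ≃ Fin m, Φ (fun i => Fin (l i)) := by
    intro m
    have h := LP (X := Fin m) (fun Y _ _ => Φ Y) (fun Y Y' _ _ u _ => hΦ Y Y' u)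
    simp only [lab_fin] at h ⊢
    exact h.symm
  simp only [h1, ← ENNReal.tsum_mul_left]
  rw [ENNReal.tsum_comm]
  refine tsum_congr fun l => ?_
  rw [tsum_eq_single (∑ i, l i)]
  · have e : (Σ i, Fin (l i)) ≃ Fin (∑ i, l i) := Fintype.equivFinOfCardEq (by simp)
    have h : (((∑ i, l i).factorial : ℕ) : ℝ≥0∞) ≠ 0 := by
      exact_mod_cast Nat.factorial_ne_zero _
    rw [Finset.sum_const, Finset.card_univ, Fintype.card_equiv e, nsmul_eq_mul]
    simp only [labW, Finset.prod_mul_distrib, Finset.prod_pow_eq_pow_sum, Fintype.card_sigma,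
      Fintype.card_fin]
    calc _ = ((((∑ i, l i).factorial : ℕ) : ℝ≥0∞)⁻¹ * ((∑ i, l i).factorial : ℕ)) *
          ((∏ i, (((l i).factorial : ℕ) : ℝ≥0∞)⁻¹) * c ^ (∑ i, l i) * Φ fun i => Fin (l i)) := by
          rw [ENNReal.inv_mul_cancel h (ENNReal.natCast_ne_top _), one_mul]
      _ = _ := by ring
  · intro m hm
    have : IsEmpty ((Σ i, Fin (l i)) ≃ Fin m) := ⟨fun e => hm (by
      simpa using (Fintype.card_congr e).symm)⟩
    simp

theorem lab_exp2 {J K : Type} [Fintype J] [Fintype K] (Φ : (J → Type) → (K → Type) → ℝ≥0∞)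
    (hΦ : ∀ (Y Y' : J → Type) (Z Z' : K → Type), (∀ i, Y i ≃ Y' i) → (∀ i, Z i ≃ Z' i) →
      Φ Y Z = Φ Y' Z') :
    ∑' l : J → ℕ, ∑' k : K → ℕ, (∏ i, labW 2⁻¹ (l i)) * ((∏ i, labW 1 (k i)) *
        Φ (fun i => Fin (l i)) (fun i => Fin (k i))) =
      ∑' m : ℕ, ∑' p : ℕ, ∑' f : Fin m → J, ∑' g : Fin p → K,
        wt m p * Φ (fun i => {x // f x = i}) (fun i => {x // g x = i}) := by
  simp only [ENNReal.tsum_mul_left]
  have h1 : ∀ Y, ∑' k : K → ℕ, (∏ i, labW 1 (k i)) * Φ Y (fun i => Fin (k i)) =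
      ∑' p : ℕ, labW 1 p * ∑' g : Fin p → K, Φ Y (fun i => {x // g x = i}) := fun Y =>
    lab_exp 1 (Φ Y) fun Z Z' u => hΦ Y Y Z Z' (fun _ => Equiv.refl _) u
  simp only [h1]
  rw [lab_exp 2⁻¹ (fun Y => ∑' p : ℕ, labW 1 p * ∑' g : Fin p → K, Φ Y (fun i => {x // g x = i}))
    fun Y Y' u => by simp only [hΦ Y Y' _ _ u fun _ => Equiv.refl _]]
  refine tsum_congr fun m => ?_
  rw [ENNReal.tsum_comm, ← ENNReal.tsum_mul_left]
  refine tsum_congr fun p => ?_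
  rw [ENNReal.tsum_mul_left, lab_wt, mul_assoc]

theorem lab_expII {I : Type} [Fintype I] (Φ : (I → Type) → (I → Type) → ℝ≥0∞)
    (hΦ : ∀ (Y Y' Z Z' : I → Type), (∀ i, Y i ≃ Y' i) → (∀ i, Z i ≃ Z' i) → Φ Y Z = Φ Y' Z') :
    ∑' l : I → ℕ, ∑' k : I → ℕ, (∏ i, wt (l i) (k i)) *
        Φ (fun i => Fin (l i)) (fun i => Fin (k i)) =
      ∑' m : ℕ, ∑' p : ℕ, ∑' f : Fin m → I, ∑' g : Fin p → I,
        wt m p * Φ (fun i => {x // f x = i}) (fun i => {x // g x = i}) := by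
  rw [← lab_exp2 Φ hΦ]
  simp only [lab_wt, Finset.prod_mul_distrib, mul_assoc]

theorem lab_expIO {I : Type} [Fintype I] (Φ : Type → (I → Type) → (I → Type) → ℝ≥0∞)
    (hΦ : ∀ (W W' : Type) (Y Y' Z Z' : I → Type), W ≃ W' → (∀ i, Y i ≃ Y' i) → (∀ i, Z i ≃ Z' i) →
      Φ W Y Z = Φ W' Y' Z') :
    ∑' n : ℕ, ∑' l : I → ℕ, ∑' k : I → ℕ, labW 1 n * ((∏ i, wt (l i) (k i)) *
        Φ (Fin n) (fun i => Fin (l i)) (fun i => Fin (k i))) =
      ∑' m : ℕ, ∑' p : ℕ, ∑' f : Fin m → I, ∑' g : Fin p → Option I,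
        wt m p * Φ {x // g x = none} (fun i => {x // f x = i}) (fun i => {x // g x = some i}) := by
  rw [← lab_exp2 (K := Option I) (fun Y Z => Φ (Z none) Y fun i => Z (some i))
    fun Y Y' Z Z' u v => hΦ _ _ _ _ _ _ (v none) u fun i => v (some i), ENNReal.tsum_comm]
  refine tsum_congr fun l => ?_
  rw [← (Equiv.piOptionEquivProd (β := fun _ : Option I => ℕ)).symm.tsum_eq, ENNReal.tsum_prod']
  refine tsum_congr fun n => tsum_congr fun k => ?_
  simp only [lab_wt, Finset.prod_mul_distrib, Fintype.prod_option]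
  change _ = _ * (labW 1 n * (∏ i, labW 1 (k i)) *
    Φ (Fin n) (fun i => Fin (l i)) (fun i => Fin (k i)))
  ring

theorem lab_bool (F : (Bool → ℕ) → ℝ≥0∞) :
    ∑' l, F l = ∑' a : ℕ, ∑' b : ℕ, F fun i => cond i a b := by
  let e : ℕ × ℕ ≃ (Bool → ℕ) :=
    ⟨fun p i => cond i p.1 p.2, fun l => (l true, l false), fun _ => rfl,
      fun l => funext fun i => by cases i <;> rfl⟩
  rw [← e.tsum_eq, ENNReal.tsum_prod']
  rfl

theorem lab_exp22 (Φ : Type → Type → Type → Type → ℝ≥0∞)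
    (hΦ : ∀ A A' C C' B B' D D' : Type, A ≃ A' → C ≃ C' → B ≃ B' → D ≃ D' →
      Φ A C B D = Φ A' C' B' D') :
    ∑' a : ℕ, ∑' c : ℕ, ∑' b : ℕ, ∑' d : ℕ, wt a c * (wt b d * Φ (Fin a) (Fin c) (Fin b) (Fin d)) =
      ∑' m : ℕ, ∑' p : ℕ, ∑' f : Fin m → Bool, ∑' g : Fin p → Bool,
        wt m p * Φ {x // f x = true} {x // g x = true} {x // ¬f x = true} {x // ¬g x = true} := by
  have h := lab_expII (I := Bool) (fun Y Z => Φ (Y true) (Z true) (Y false) (Z false))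
    fun Y Y' Z Z' u v => hΦ _ _ _ _ _ _ _ _ (u true) (v true) (u false) (v false)
  have h1 : ∀ (m p : ℕ) (f : Fin m → Bool) (g : Fin p → Bool),
      Φ {x // f x = true} {x // g x = true} {x // ¬f x = true} {x // ¬g x = true} =
      Φ {x // f x = true} {x // g x = true} {x // f x = false} {x // g x = false} :=
    fun m p f g => hΦ _ _ _ _ _ _ _ _ (Equiv.refl _) (Equiv.refl _)
      (Equiv.subtypeEquivRight fun x => by simp) (Equiv.subtypeEquivRight fun x => by simp)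
  simp only [h1]
  rw [← h, lab_bool]
  refine tsum_congr fun a => ?_
  rw [ENNReal.tsum_comm]
  refine tsum_congr fun b => ?_
  rw [lab_bool]
  refine tsum_congr fun c => tsum_congr fun d => ?_
  rw [Fintype.prod_bool, mul_assoc]
  rfl

/-- families of labelled structures -/
def labPi (I : Type) (T : ℕ → ℕ → Type) :
    (Σ l : I → ℕ, Σ k : I → ℕ, ∀ i, T (l i) (k i)) ≃ (I → Σ m, Σ n, T m n) where
  toFun p i := ⟨p.1 i, p.2.1 i, p.2.2 i⟩
  invFun N := ⟨fun i => (N i).1, fun i => (N i).2.1, fun i => (N i).2.2⟩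
  left_inv _ := rfl
  right_inv _ := rfl

theorem lab_pi {I : Type} {T : ℕ → ℕ → Type} (F : (I → Σ m, Σ n, T m n) → ℝ≥0∞) :
    ∑' N, F N = ∑' l : I → ℕ, ∑' k : I → ℕ, ∑' x : ∀ i, T (l i) (k i),
      F fun i => ⟨l i, k i, x i⟩ := by
  rw [← (labPi I T).tsum_eq, ENNReal.tsum_sigma']
  refine tsum_congr fun l => ?_
  rw [ENNReal.tsum_sigma']
  rfl

theorem lab_sig {T : ℕ → ℕ → Type} (F : (Σ m, Σ n, T m n) → ℝ≥0∞) :
    ∑' N, F N = ∑' m : ℕ, ∑' n : ℕ, ∑' x : T m n, F ⟨m, n, x⟩ := by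
  rw [ENNReal.tsum_sigma']
  exact tsum_congr fun l => ENNReal.tsum_sigma' _

theorem lab_sw {G X : Type} (c : G → ℝ≥0∞) (H : G → X → ℝ≥0∞) :
    ∑' g, c g * ∑' x, H g x = ∑' x, ∑' g, c g * H g x := by
  simp only [← ENNReal.tsum_mul_left]
  exact ENNReal.tsum_comm

theorem lab_ind {G : Type} (c : G → ℝ≥0∞) (θ : ℝ≥0∞) (g₀ : G) :
    ∑' g, c g * (θ * ind (g₀ = g)) = c g₀ * θ := by
  rw [tsum_eq_single g₀]
  · simp [ind]
  · intro g hg
    simp [ind, hg.symm]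

/-- a functional without instance arguments -/
noncomputable def labN (Ψ : NFun) (E V : Type) (N : E × Bool → Bool ⊕ V) : ℝ≥0∞ :=
  if h : Finite E ∧ Finite V then @Ψ E V (@Fintype.ofFinite E h.1) (@Fintype.ofFinite V h.2) N
  else 0

/-- a functional without instance arguments -/
noncomputable def labR (Ψ : RFun) (E V : Type) (N : E × Bool → Option V) : ℝ≥0∞ :=
  if h : Finite E ∧ Finite V then @Ψ E V (@Fintype.ofFinite E h.1) (@Fintype.ofFinite V h.2) N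
  else 0

theorem labN_eq (Ψ : NFun) (E V : Type) [Fintype E] [Fintype V] (N : E × Bool → Bool ⊕ V) :
    Ψ E V N = labN Ψ E V N := by
  rw [labN, dif_pos ⟨inferInstance, inferInstance⟩]
  congr <;> exact Subsingleton.elim _ _

theorem labR_eq (Ψ : RFun) (E V : Type) [Fintype E] [Fintype V] (N : E × Bool → Option V) :
    Ψ E V N = labR Ψ E V N := by
  rw [labR, dif_pos ⟨inferInstance, inferInstance⟩]
  congr <;> exact Subsingleton.elim _ _

theorem labN_congr {Ψ : NFun} (hΨ : NInv Ψ) {E V E' V' : Type} (u : E ≃ E') (e : V ≃ V')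
    {N : E × Bool → Bool ⊕ V} {N' : E' × Bool → Bool ⊕ V'}
    (h : ∀ x b, N' (u x, b) = (N (x, b)).map id e) : labN Ψ E V N = labN Ψ E' V' N' := by
  unfold labN
  by_cases h1 : Finite E ∧ Finite V
  · rw [dif_pos h1, dif_pos ⟨u.finite_iff.1 h1.1, e.finite_iff.1 h1.2⟩]
    exact (@hΨ E V E' V' (_) (_) (_) (_) ⟨u.prodCongr (Equiv.refl _), fun _ => rfl⟩ e N N'
      fun x => h x.1 x.2).symm
  · rw [dif_neg h1, dif_neg fun h2 => h1 ⟨u.finite_iff.2 h2.1, e.finite_iff.2 h2.2⟩]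

theorem labR_congr {Ψ : RFun} (hΨ : RInv Ψ) {E V E' V' : Type} (u : E ≃ E') (e : V ≃ V')
    {N : E × Bool → Option V} {N' : E' × Bool → Option V'}
    (h : ∀ x b, N' (u x, b) = (N (x, b)).map e) : labR Ψ E V N = labR Ψ E' V' N' := by
  unfold labR
  by_cases h1 : Finite E ∧ Finite V
  · rw [dif_pos h1, dif_pos ⟨u.finite_iff.1 h1.1, e.finite_iff.1 h1.2⟩]
    exact (@hΨ E V E' V' (_) (_) (_) (_) ⟨u.prodCongr (Equiv.refl _), fun _ => rfl⟩ e N N'
      fun x => h x.1 x.2).symm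
  · rw [dif_neg h1, dif_neg fun h2 => h1 ⟨u.finite_iff.2 h2.1, e.finite_iff.2 h2.2⟩]

/-- transport of graphs -/
def labT {E E' V V' : Type} (u : E ≃ E') (e : V ≃ V') : (E × Bool → V) ≃ (E' × Bool → V') :=
  (u.prodCongr (Equiv.refl Bool)).arrowCongr e

theorem labT_apply {E E' V V' : Type} (u : E ≃ E') (e : V ≃ V') (N : E × Bool → V) (x : E)
    (b : Bool) : labT u e N (u x, b) = e (N (x, b)) := by
  simp [labT, Equiv.arrowCongr_apply]

theorem lab_tsum {A B : Type} (e : A ≃ B) {F : A → ℝ≥0∞} {F' : B → ℝ≥0∞}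
    (h : ∀ a, F a = F' (e a)) : ∑' a, F a = ∑' b, F' b := by
  rw [← e.tsum_eq]
  exact tsum_congr h

end Pool.Agent.Lib.MP_77dff5_pr
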