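import Pool.Agent.Lib.MP_77dff5_pr.Local2AAux2

/-! Local second moment bounds for a filled core. -/

set_option autoImplicit false

namespace Pool.Agent.Lib.MP_77dff5_pr

open MeasureTheory ProbabilityTheory Filter Topology
open scoped ENNReal NNReal

theorem l2a_four_rpow : (4 : ℝ) ^ (-(3 / 2) : ℝ) = 1 / 8 ∧ (4 : ℝ) ^ (-(1 / 2) : ℝ) = 1 / 2 := by
  have h : (4 : ℝ) = 2 ^ (2 : ℝ) := by norm_num
  constructor
  · rw [h, ← Real.rpow_mul (by norm_num)]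
    norm_num
  · rw [h, ← Real.rpow_mul (by norm_num)]
    norm_num

theorem l2a_num0 {k : ℝ} (hk : 1 ≤ k) : k ^ (-(2 / 3) : ℝ) * k = k ^ (1 / 3 : ℝ) := by
  have hk0 : 0 < k := by linarith
  rw [← Real.rpow_add_one hk0.ne']
  norm_num

theorem l2a_num1 {k d : ℝ} (hk : 1 ≤ k) (hd0 : 0 ≤ d) (hd : d ≤ 3 * k ^ (2 / 3 : ℝ)) :
    k ^ (-(2 / 3) : ℝ) * k ≤ 8 * (k ^ (1 / 3 : ℝ) * ((1 + d / k ^ (2 / 3 : ℝ)) ^ (-(3 / 2) : ℝ) +
      (1 + d) ^ (-(1 / 2) : ℝ))) := by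
  have hk0 : 0 < k := by linarith
  have hK : 0 < k ^ (2 / 3 : ℝ) := Real.rpow_pos_of_pos hk0 _
  have h1 : 1 + d / k ^ (2 / 3 : ℝ) ≤ 4 := by
    have : d / k ^ (2 / 3 : ℝ) ≤ 3 := (div_le_iff₀ hK).2 hd
    linarith
  have h2 := Real.rpow_le_rpow_of_nonpos (by positivity) h1 (by norm_num : (-(3 / 2) : ℝ) ≤ 0)
  rw [l2a_four_rpow.1] at h2
  have h3 : 0 ≤ (1 + d) ^ (-(1 / 2) : ℝ) := by positivity
  have h4 : 0 ≤ k ^ (1 / 3 : ℝ) := by positivity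
  rw [l2a_num0 hk]
  nlinarith

theorem l2a_num2 {k x : ℝ} (hk : 1 ≤ k) (hx : k ^ (2 / 3 : ℝ) ≤ x) :
    k ^ (-(2 / 3) : ℝ) * (k ^ 2 * x ^ (-(3 / 2) : ℝ) + k * x ^ (-(1 / 2) : ℝ)) ≤
      8 * (k ^ (1 / 3 : ℝ) * ((1 + 3 * x / k ^ (2 / 3 : ℝ)) ^ (-(3 / 2) : ℝ) +
        (1 + 3 * x) ^ (-(1 / 2) : ℝ))) := by
  have hk0 : 0 < k := by linarith
  have hK : 1 ≤ k ^ (2 / 3 : ℝ) := Real.one_le_rpow hk (by norm_num)
  have hK0 : 0 < k ^ (2 / 3 : ℝ) := by linarith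
  have hx1 : 1 ≤ x := hK.trans hx
  have hx0 : 0 < x := by linarith
  have h1 : 1 + 3 * x / k ^ (2 / 3 : ℝ) ≤ 4 * (x / k ^ (2 / 3 : ℝ)) := by
    have : 1 ≤ x / k ^ (2 / 3 : ℝ) := (one_le_div hK0).2 hx
    rw [mul_div_assoc]; linarith
  have h2 := Real.rpow_le_rpow_of_nonpos (by positivity) h1 (by norm_num : (-(3 / 2) : ℝ) ≤ 0)
  rw [Real.mul_rpow (by norm_num) (by positivity), l2a_four_rpow.1,
    Real.div_rpow hx0.le hK0.le, ← Real.rpow_mul hk0.le,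
    show (2 / 3 * -(3 / 2) : ℝ) = -1 by norm_num, Real.rpow_neg_one, div_inv_eq_mul] at h2
  have h3 : 1 + 3 * x ≤ 4 * x := by linarith
  have h4 := Real.rpow_le_rpow_of_nonpos (by positivity) h3 (by norm_num : (-(1 / 2) : ℝ) ≤ 0)
  rw [Real.mul_rpow (by norm_num) hx0.le, l2a_four_rpow.2] at h4
  have e : k ^ (-(2 / 3) : ℝ) * (k ^ 2 * x ^ (-(3 / 2) : ℝ) + k * x ^ (-(1 / 2) : ℝ)) =
      k ^ (1 / 3 : ℝ) * (x ^ (-(3 / 2) : ℝ) * k + x ^ (-(1 / 2) : ℝ)) := by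
    rw [← l2a_num0 hk]; ring
  rw [e, mul_left_comm]
  refine mul_le_mul_of_nonneg_left ?_ (by positivity)
  have : 0 ≤ x ^ (-(1 / 2) : ℝ) := by positivity
  linarith

variable {Ω J : Type} [Countable Ω] [MeasurableSpace Ω] [DiscreteMeasurableSpace Ω] [Fintype J]
  {ν : J → Measure Ω} {s : Ω → ℕ} {z : Ω → ℝ} {A c₀ : ℝ} {j₀ : J}

theorem local_sq (h : Slots ν s z) (h1 : T1 ν s A) (h2 : T2 ν s z A) (hc : 0 < c₀)
    (h4 : T4 (ν j₀) s c₀) (Δ : ℕ) (B : ℝ) :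
    ∃ (C : ℝ) (k0 : ℕ), ∀ c : Core Ω J, c.Good Δ B → c.k ≤ Δ * c.cnt j₀ → k0 ≤ c.k → ∀ n : ℕ,
      ∫ ω in {ω | c.S s ω = n}, (c.Z z ω - c.L ν z) ^ 2 ∂c.P ν ≤ C * (c.k : ℝ) ^ (1 / 3 : ℝ) *
        ((1 + |n - c.mean ν s| / (c.k : ℝ) ^ (2 / 3 : ℝ)) ^ (-(3 / 2) : ℝ) +
          (1 + |n - c.mean ν s|) ^ (-(1 / 2) : ℝ)) := by
  classical
  have hA : 0 ≤ A := by
    have g := h1 j₀ 1 le_rfl
    rw [Real.one_rpow, mul_one] at g
    exact (integral_nonneg fun ω => le_min (sq_nonneg _) (by positivity)).trans g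
  obtain ⟨C1, hC1⟩ := conc_le (s := s) hc
  obtain ⟨C2, hC20, hC2⟩ := l2a_piece h h1 h2 hA Δ B
  set N := Δ + 3 with hN
  set D : ℝ := max C1 0 * ((2 * Δ * N : ℕ) : ℝ) ^ (2 / 3 : ℝ) with hD
  have hD0 : 0 ≤ D := mul_nonneg (le_max_right _ _) (by positivity)
  set P := {p : Fin N × Fin N // p.1 ≠ p.2}
  refine ⟨(Fintype.card P : ℝ) ^ 2 * (D * C2 * 8), Δ * N + 1, fun c hg hcnt hk0 n => ?_⟩
  have : ∀ i : c.I, IsProbabilityMeasure (ν (c.cls i)) := fun i => h.prob _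
  have := c.isProb h.prob
  have hk1 : (1 : ℝ) ≤ c.k := by exact_mod_cast (by omega : 1 ≤ c.k)
  have hk0' : (0 : ℝ) < c.k := by linarith
  set m := c.cnt j₀ / N with hm
  have hNpos : 0 < N := by omega
  have hcN : N ≤ c.cnt j₀ := by
    by_contra hlt
    have := Nat.mul_le_mul_left Δ (not_le.1 hlt).le
    omega
  have hm1 : 1 ≤ m := (Nat.one_le_div_iff hNpos).2 hcN
  have hkm : c.k ≤ 2 * Δ * N * m := by
    have e1 : c.cnt j₀ < N * (m + 1) := by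
      rw [hm]; exact Nat.lt_mul_div_succ _ hNpos
    have e2 : N * (m + 1) ≤ N * (2 * m) := Nat.mul_le_mul_left _ (by omega)
    have e3 := Nat.mul_le_mul_left Δ (e1.le.trans e2)
    calc c.k ≤ Δ * (N * (2 * m)) := hcnt.trans e3
      _ = 2 * Δ * N * m := by ring
  obtain ⟨G, hGc, hGj, hGd⟩ := l2a_groups (fun i => c.cls i = j₀) N m (Nat.mul_div_le _ _)
  set κ : ℝ := D * (c.k : ℝ) ^ (-(2 / 3) : ℝ) with hκ
  have hconc : ∀ a, ∀ l : ℕ, (c.P ν).real {ω | ∑ i ∈ G a, s (ω i) = l} ≤ κ := fun a l => by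
    refine (hC1 c.I (fun i => ν (c.cls i)) (G a) (fun i hi => by rw [hGj a i hi]; exact h4)
      (Finset.card_pos.1 (by rw [hGc]; omega)) (G a) subset_rfl l).trans ?_
    rw [hGc, hκ, hD, mul_assoc]
    have hm0 : (0 : ℝ) < m := by exact_mod_cast hm1
    refine (mul_le_mul_of_nonneg_right (le_max_left C1 0) (by positivity)).trans
      (mul_le_mul_of_nonneg_left ?_ (le_max_right _ _))
    have e1 : (c.k : ℝ) ≤ ((2 * Δ * N : ℕ) : ℝ) * m := by exact_mod_cast hkm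
    have e0 : (0 : ℝ) < ((2 * Δ * N : ℕ) : ℝ) := by
      by_contra h0
      push Not at h0
      nlinarith
    have e2 := Real.rpow_le_rpow_of_nonpos hk0' e1 (by norm_num : (-(2 / 3) : ℝ) ≤ 0)
    rw [Real.mul_rpow e0.le hm0.le, Real.rpow_neg e0.le] at e2
    have e3 : 0 < ((2 * Δ * N : ℕ) : ℝ) ^ (2 / 3 : ℝ) := Real.rpow_pos_of_pos e0 _
    exact (inv_mul_le_iff₀ e3).1 e2
  choose pI hpI using fun i : c.I => l2a_avoid G hGd {i} (by rw [Finset.card_singleton]; omega)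
  choose pW hpW using fun v : c.W => l2a_avoid G hGd (c.dep v) (by have := hg.dep_card v; omega)
  set K : P → Finset c.I := fun p => Finset.univ.filter fun i => pI i = p with hK
  set U : P → Finset c.W := fun p => Finset.univ.filter fun v => pW v = p with hU
  have hZ : ∀ ω, c.Z z ω = c.z0 + ∑ p, c.Y z (K p) (U p) ω := fun ω => by
    unfold Core.Z Core.Y
    rw [Finset.sum_add_distrib, Finset.sum_fiberwise, Finset.sum_fiberwise, add_assoc]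
  obtain ⟨Cv, hCv⟩ := Core.var_Y_le h Δ B
  have hint : ∀ p, Integrable (c.Y z (K p) (U p)) (c.P ν) := fun p =>
    (hCv c hg (K p) (U p)).1.integrable one_le_two
  have hL : c.L ν z = c.z0 + ∑ p, ∫ ω, c.Y z (K p) (U p) ω ∂c.P ν := by
    unfold Core.L
    simp only [hZ]
    rw [integral_add (integrable_const _) (integrable_finsetSum _ fun p _ => hint p),
      integral_finsetSum _ fun p _ => hint p]
    simp
  have hp := fun p : P => hC2 c hg (K p) (U p) (G p.1.1) (G p.1.2) (hGd _ _ p.2)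
    (l2a_Y_indep c _ _ _ (fun i hi => (Finset.mem_filter.1 hi).2 ▸ (hpI i).1)
      fun v hv => (Finset.mem_filter.1 hv).2 ▸ (hpW v).1)
    (l2a_Y_indep c _ _ _ (fun i hi => (Finset.mem_filter.1 hi).2 ▸ (hpI i).2)
      fun v hv => (Finset.mem_filter.1 hv).2 ▸ (hpW v).2) κ (hconc _) (hconc _) n
  set d : ℝ := |n - c.mean ν s| with hd
  set E : ℝ := (c.k : ℝ) ^ (1 / 3 : ℝ) * ((1 + d / (c.k : ℝ) ^ (2 / 3 : ℝ)) ^ (-(3 / 2) : ℝ) +
    (1 + d) ^ (-(1 / 2) : ℝ)) with hE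
  have hq : ∀ p : P, l2aIB (c.P ν) (fun ω => (c.Y z (K p) (U p) ω -
      ∫ ω', c.Y z (K p) (U p) ω' ∂c.P ν) ^ 2 * if c.S s ω = n then 1 else 0)
      (D * C2 * 8 * E) := fun p => by
    rcases le_total d (3 * (c.k : ℝ) ^ (2 / 3 : ℝ)) with hle | hle
    · refine (hp p).1.le ?_
      have := mul_le_mul_of_nonneg_left (l2a_num1 hk1 (abs_nonneg _) hle) (mul_nonneg hD0 hC20)
      rw [hκ]
      calc _ = D * C2 * ((c.k : ℝ) ^ (-(2 / 3) : ℝ) * c.k) := by ring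
        _ ≤ _ := this
        _ = _ := by rw [hE]; ring
    · have hx : (c.k : ℝ) ^ (2 / 3 : ℝ) ≤ d / 3 := by linarith
      have hK1 : 1 ≤ (c.k : ℝ) ^ (2 / 3 : ℝ) := Real.one_le_rpow hk1 (by norm_num)
      refine ((hp p).2 (d / 3) (hK1.trans hx) (by linarith)).le ?_
      have := mul_le_mul_of_nonneg_left (l2a_num2 hk1 hx) (mul_nonneg hD0 hC20)
      rw [show 3 * (d / 3) = d by ring] at this
      rw [hκ]
      calc _ = D * C2 * ((c.k : ℝ) ^ (-(2 / 3) : ℝ) * ((c.k : ℝ) ^ 2 * (d / 3) ^ (-(3 / 2) : ℝ) +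
            c.k * (d / 3) ^ (-(1 / 2) : ℝ))) := by ring
        _ ≤ _ := this
        _ = _ := by rw [hE]; ring
  have hs := (l2aIB.sum Finset.univ fun p _ => hq p).cmul
    (c := (Fintype.card P : ℝ)) (Nat.cast_nonneg _)
  have hfin := hs.mono (G := {ω | c.S s ω = n}.indicator fun ω => (c.Z z ω - c.L ν z) ^ 2)
    (fun ω => Set.indicator_nonneg (fun _ _ => sq_nonneg _) _) fun ω => by
      by_cases hn : c.S s ω = n
      · rw [Set.indicator_of_mem (by exact hn)]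
        simp only [if_pos hn, mul_one]
        rw [hZ, hL, add_sub_add_left_eq_sub, ← Finset.sum_sub_distrib]
        exact sq_sum_le_card_mul_sum_sq
      · rw [Set.indicator_of_notMem (by exact hn)]
        simp only [if_neg hn, mul_zero, Finset.sum_const_zero, le_refl]
  rw [← integral_indicator (DiscreteMeasurableSpace.forall_measurableSet _)]
  refine hfin.2.trans (le_of_eq ?_)
  rw [Finset.sum_const, Finset.card_univ, nsmul_eq_mul, hE]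
  ring

end Pool.Agent.Lib.MP_77dff5_pr
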