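import Pool.Agent.Lib.MP_77dff5_pr.KernelA

/-! Integrable functions with a bound on the integral; weighted deviation estimate. -/

set_option autoImplicit false

namespace Pool.Agent.Lib.MP_77dff5_pr

open MeasureTheory ProbabilityTheory Filter Topology
open scoped ENNReal NNReal

/-- `F` is integrable with integral at most `a`. -/
def l2aIB {X : Type} [MeasurableSpace X] (μ : Measure X) (F : X → ℝ) (a : ℝ) : Prop :=
  Integrable F μ ∧ ∫ x, F x ∂μ ≤ a

namespace l2aIB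

variable {X : Type} [MeasurableSpace X] {μ : Measure X} {F G : X → ℝ} {a b : ℝ}

theorem add (hF : l2aIB μ F a) (hG : l2aIB μ G b) : l2aIB μ (fun x => F x + G x) (a + b) :=
  ⟨hF.1.add hG.1, by rw [integral_add hF.1 hG.1]; exact add_le_add hF.2 hG.2⟩

theorem cmul (hF : l2aIB μ F a) {c : ℝ} (hc : 0 ≤ c) : l2aIB μ (fun x => c * F x) (c * a) :=
  ⟨hF.1.const_mul c, by rw [integral_const_mul]; exact mul_le_mul_of_nonneg_left hF.2 hc⟩

theorem le (hF : l2aIB μ F a) (h : a ≤ b) : l2aIB μ F b := ⟨hF.1, hF.2.trans h⟩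

theorem nonneg (hF : l2aIB μ F a) (h0 : ∀ x, 0 ≤ F x) : 0 ≤ a :=
  (integral_nonneg h0).trans hF.2

theorem mono [DiscreteMeasurableSpace X] (hF : l2aIB μ F a) (h0 : ∀ x, 0 ≤ G x)
    (h : ∀ x, G x ≤ F x) : l2aIB μ G a := by
  have hG : Integrable G μ := by
    refine hF.1.mono' (Measurable.of_discrete (f := G)).aestronglyMeasurable ?_
    exact Filter.Eventually.of_forall fun x => by
      rw [Real.norm_eq_abs, abs_of_nonneg (h0 x)]; exact h x
  exact ⟨hG, (integral_mono hG hF.1 h).trans hF.2⟩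

theorem sum {ι : Type} (R : Finset ι) {F : ι → X → ℝ} {a : ι → ℝ}
    (h : ∀ i ∈ R, l2aIB μ (F i) (a i)) : l2aIB μ (fun x => ∑ i ∈ R, F i x) (∑ i ∈ R, a i) :=
  ⟨integrable_finsetSum R fun i hi => (h i hi).1, by
    rw [integral_finsetSum R fun i hi => (h i hi).1]
    exact Finset.sum_le_sum fun i hi => (h i hi).2⟩

theorem const [IsProbabilityMeasure μ] (a : ℝ) : l2aIB μ (fun _ => a) a :=
  ⟨integrable_const a, by simp⟩

theorem prod {X' : Type} [MeasurableSpace X'] {μ' : Measure X'} [SFinite μ] [SFinite μ']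
    {G : X' → ℝ} (hF : l2aIB μ F a) (hG : l2aIB μ' G b) (hF0 : ∀ x, 0 ≤ F x)
    (hG0 : ∀ x, 0 ≤ G x) : l2aIB (μ.prod μ') (fun p => F p.1 * G p.2) (a * b) :=
  ⟨hF.1.mul_prod hG.1, by
    rw [integral_prod_mul]
    exact mul_le_mul hF.2 hG.2 (integral_nonneg hG0) (hF.nonneg hF0)⟩

theorem of_mp {X' : Type} [MeasurableSpace X'] [DiscreteMeasurableSpace X'] {μ' : Measure X'}
    {f : X → X'} (hf : MeasurePreserving f μ μ') {G : X' → ℝ}
    (h : l2aIB μ (fun x => G (f x)) a) : l2aIB μ' G a := by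
  have hm : AEStronglyMeasurable G μ' := (Measurable.of_discrete (f := G)).aestronglyMeasurable
  refine ⟨(hf.integrable_comp hm).1 h.1, ?_⟩
  rw [← hf.map_eq, integral_map hf.measurable.aemeasurable (by rw [hf.map_eq]; exact hm)]
  exact h.2

theorem eval {Ω I : Type} [MeasurableSpace Ω] [Fintype I] {ν : I → Measure Ω}
    [∀ i, IsProbabilityMeasure (ν i)] {i : I} {φ : Ω → ℝ} (h : l2aIB (ν i) φ a) :
    l2aIB (Measure.pi ν) (fun ω => φ (ω i)) a :=
  ⟨integrable_comp_eval (μ := ν) h.1, by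
    rw [integral_comp_eval (μ := ν) h.1.aestronglyMeasurable]; exact h.2⟩

theorem iter {X' : Type} [MeasurableSpace X'] {μ' : Measure X'} [SFinite μ] [SFinite μ']
    {H : X × X' → ℝ} (h : l2aIB (μ.prod μ') H a) : ∫ y, ∫ x, H (x, y) ∂μ ∂μ' ≤ a := by
  rw [← integral_prod_symm _ h.1]; exact h.2

end l2aIB

section general
variable {Ω I : Type} [Countable Ω] [MeasurableSpace Ω] [DiscreteMeasurableSpace Ω] [Fintype I]
  [DecidableEq I] {μ : I → Measure Ω} [∀ i, IsProbabilityMeasure (μ i)]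

/-- decoupling of `F ^ 2` from one coordinate -/
theorem l2a_decouple {F : (I → Ω) → ℝ} {f φ : Ω → ℝ} {i : I} {V a b M : ℝ}
    (hd : ∀ ω η, |F (Function.update ω i η) - F ω| ≤ f η + f (ω i))
    (hφ0 : ∀ η, 0 ≤ φ η) (hF : l2aIB (Measure.pi μ) (fun ω => F ω ^ 2) V)
    (hφ : l2aIB (μ i) φ a) (hfφ : l2aIB (μ i) (fun η => f η ^ 2 * φ η) b)
    (hf : l2aIB (μ i) (fun η => f η ^ 2) M) :
    l2aIB (Measure.pi μ) (fun ω => F ω ^ 2 * φ (ω i)) (3 * (a * V) + 3 * b + 3 * (a * M)) := by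
  refine l2aIB.of_mp (measurePreserving_update μ i) ?_
  have h1 := (hφ.prod hF hφ0 fun _ => sq_nonneg _).cmul (c := 3) (by norm_num)
  have h2 := (hfφ.prod (l2aIB.const (μ := Measure.pi μ) 1)
    (fun η => mul_nonneg (sq_nonneg _) (hφ0 η)) fun _ => zero_le_one).cmul (c := 3) (by norm_num)
  have h3 := (hφ.prod hf.eval hφ0 fun _ => sq_nonneg _).cmul (c := 3) (by norm_num)
  refine (((h1.add h2).add h3).mono (fun p => mul_nonneg (sq_nonneg _) (hφ0 _)) fun p => ?_).le
    (by rw [mul_one])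
  rw [Function.update_self]
  have h := hd p.2 p.1
  set x := F (Function.update p.2 i p.1)
  set y := F p.2
  set u := f p.1
  set v := f (p.2 i)
  have hx : x ^ 2 ≤ 3 * y ^ 2 + 3 * u ^ 2 + 3 * v ^ 2 := by
    have h0 : 0 ≤ u + v := (abs_nonneg _).trans h
    have h4 : (x - y) ^ 2 ≤ (u + v) ^ 2 := by
      rw [← sq_abs]; exact pow_le_pow_left₀ (abs_nonneg _) h 2
    nlinarith [sq_nonneg (x - y - 2 * y), sq_nonneg (u - v)]
  have := mul_le_mul_of_nonneg_right hx (hφ0 p.1)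
  nlinarith

/-- second moment from Efron-Stein -/
theorem l2a_es {G : (I → Ω) → ℝ} (hG : MemLp G 2 (Measure.pi μ)) {a : I → ℝ}
    (h : ∀ i, l2aIB ((μ i).prod (Measure.pi μ))
      (fun p => (G p.2 - G (Function.update p.2 i p.1)) ^ 2) (a i)) :
    l2aIB (Measure.pi μ) (fun ω => G ω ^ 2)
      (1 / 2 * ∑ i, a i + (∫ ω, G ω ∂Measure.pi μ) ^ 2) := by
  refine ⟨hG.integrable_sq, ?_⟩
  have h1 := efron_stein μ G hG
  rw [variance_eq_sub hG] at h1
  have h2 : ∑ i, ∫ ω, ∫ η, (G ω - G (Function.update ω i η)) ^ 2 ∂μ i ∂Measure.pi μ ≤ ∑ i, a i :=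
    Finset.sum_le_sum fun i _ => (h i).iter
  have h3 : ∫ ω, (G ^ 2) ω ∂Measure.pi μ = ∫ ω, G ω ^ 2 ∂Measure.pi μ := rfl
  rw [h3] at h1
  linarith

/-- Cauchy-Schwarz -/
theorem l2a_cs {X : Type} [MeasurableSpace X] {m : Measure X} {F G : X → ℝ} {a b : ℝ}
    (hF : l2aIB m (fun x => F x ^ 2) a) (hG : l2aIB m (fun x => G x ^ 2) b)
    (hFG : Integrable (fun x => F x * G x) m) : (∫ x, F x * G x ∂m) ^ 2 ≤ a * b := by
  have h : ∀ t : ℝ, 0 ≤ a * (t * t) + (2 * ∫ x, F x * G x ∂m) * t + b := fun t => by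
    have h1 : 0 ≤ ∫ x, (t * t * F x ^ 2 + 2 * t * (F x * G x) + G x ^ 2) ∂m :=
      integral_nonneg fun x => by
        have := sq_nonneg (t * F x + G x)
        simp only [Pi.zero_apply]; nlinarith
    have i1 : Integrable (fun x => t * t * F x ^ 2) m := hF.1.const_mul _
    have i2 : Integrable (fun x => 2 * t * (F x * G x)) m := hFG.const_mul _
    have i3 : Integrable (fun x => t * t * F x ^ 2 + 2 * t * (F x * G x)) m := i1.add i2
    rw [integral_add i3 hG.1, integral_add i1 i2, integral_const_mul, integral_const_mul] at h1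
    have := mul_le_mul_of_nonneg_left hF.2 (mul_self_nonneg t)
    have := hG.2
    nlinarith
  have := discrim_le_zero h
  unfold discrim at this
  nlinarith

/-- the centred truncated sum -/
noncomputable def l2aT (μ : I → Measure Ω) (u : Ω → ℝ) (R : Finset I) (ω : I → Ω) : ℝ :=
  ∑ i ∈ R, (u (ω i) - ∫ η, u η ∂μ i)

omit [Countable Ω] [DiscreteMeasurableSpace Ω] [Fintype I] [∀ i, IsProbabilityMeasure (μ i)] in
theorem l2aT_update (u : Ω → ℝ) (hu0 : ∀ η, 0 ≤ u η) (R : Finset I) (ω : I → Ω) (i : I) (η : Ω) :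
    |l2aT μ u R (Function.update ω i η) - l2aT μ u R ω| ≤ u η + u (ω i) ∧
    (l2aT μ u R (Function.update ω i η) - l2aT μ u R ω) ^ 2 ≤ u η ^ 2 + u (ω i) ^ 2 := by
  have e : l2aT μ u R (Function.update ω i η) - l2aT μ u R ω =
      if i ∈ R then u η - u (ω i) else 0 := by
    unfold l2aT
    rw [← Finset.sum_sub_distrib, ← Finset.sum_ite_eq R i fun _ => u η - u (ω i)]
    refine Finset.sum_congr rfl fun j _ => ?_
    by_cases hj : i = j
    · subst hj; simp
    · rw [if_neg hj, Function.update_of_ne (Ne.symm hj)]; ring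
  rw [e]
  have h1 := hu0 η
  have h2 := hu0 (ω i)
  split_ifs
  · refine ⟨abs_le.2 ⟨by linarith, by linarith⟩, by nlinarith⟩
  · refine ⟨by simp only [abs_zero]; linarith, by nlinarith⟩

omit [Countable Ω] [Fintype I] [DecidableEq I] in
theorem l2aT_bdd (u : Ω → ℝ) (hu0 : ∀ η, 0 ≤ u η) (hu1 : ∀ η, u η ≤ 1) (R : Finset I)
    (ω : I → Ω) : |l2aT μ u R ω| ≤ R.card := by
  unfold l2aT
  refine (Finset.abs_sum_le_sum_abs _ _).trans ?_
  rw [Finset.card_eq_sum_ones, Nat.cast_sum]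
  refine Finset.sum_le_sum fun i _ => ?_
  have h1 : 0 ≤ ∫ η, u η ∂μ i := integral_nonneg hu0
  have h2 : ∫ η, u η ∂μ i ≤ 1 := ((l2aIB.const (μ := μ i) 1).mono hu0 hu1).2
  have := hu0 (ω i)
  have := hu1 (ω i)
  rw [Nat.cast_one]
  exact abs_le.2 ⟨by linarith, by linarith⟩

theorem l2aT_sq (u : Ω → ℝ) (hu0 : ∀ η, 0 ≤ u η) (hu1 : ∀ η, u η ≤ 1) (R : Finset I) {a1 : ℝ}
    (h1 : ∀ i, l2aIB (μ i) (fun η => u η ^ 2) a1) :
    l2aIB (Measure.pi μ) (fun ω => l2aT μ u R ω ^ 2) (Fintype.card I * a1) := by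
  have hm : MemLp (l2aT μ u R) 2 (Measure.pi μ) :=
    MemLp.of_bound (Measurable.of_discrete).aestronglyMeasurable (R.card)
      (Filter.Eventually.of_forall fun ω => l2aT_bdd u hu0 hu1 R ω)
  have hi : ∀ i, Integrable u (μ i) := fun i => ((l2aIB.const (μ := μ i) 1).mono hu0 hu1).1
  have h0 : ∫ ω, l2aT μ u R ω ∂Measure.pi μ = 0 := by
    unfold l2aT
    rw [integral_finsetSum (f := fun i (ω : I → Ω) => u (ω i) - ∫ η, u η ∂μ i) _ fun i _ =>
      (integrable_comp_eval (μ := μ) (hi i)).sub (integrable_const _)]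
    refine Finset.sum_eq_zero fun i _ => ?_
    rw [integral_sub (integrable_comp_eval (μ := μ) (hi i)) (integrable_const _),
      integral_comp_eval (μ := μ) (hi i).aestronglyMeasurable]
    simp
  refine (l2a_es hm (a := fun _ => a1 * 1 + 1 * a1) fun i => ?_).le ?_
  · have e1 := (h1 i).prod (l2aIB.const (μ := Measure.pi μ) 1) (fun _ => sq_nonneg _)
      fun _ => zero_le_one
    have e2 := (l2aIB.const (μ := μ i) 1).prod (h1 i).eval (fun _ => zero_le_one)
      fun _ => sq_nonneg _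
    refine (e1.add e2).mono (fun _ => sq_nonneg _) fun p => ?_
    have := (l2aT_update (μ := μ) u hu0 R p.2 i p.1).2
    nlinarith
  · rw [h0, Finset.sum_const, Finset.card_univ, nsmul_eq_mul]; ring_nf; rfl

theorem l2aYT_sq (u : Ω → ℝ) (hu0 : ∀ η, 0 ≤ u η) (hu1 : ∀ η, u η ≤ 1) (R : Finset I)
    {Y : (I → Ω) → ℝ} {f : Ω → ℝ} {a1 a2 M V : ℝ}
    (hd : ∀ ω i η, |Y (Function.update ω i η) - Y ω| ≤ f η + f (ω i))
    (hY : MemLp Y 2 (Measure.pi μ)) (hV : ∫ ω, Y ω ^ 2 ∂Measure.pi μ ≤ V)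
    (h1 : ∀ i, l2aIB (μ i) (fun η => u η ^ 2) a1)
    (h2 : ∀ i, l2aIB (μ i) (fun η => f η ^ 2 * u η ^ 2) a2)
    (hM : ∀ i, l2aIB (μ i) (fun η => f η ^ 2) M) :
    l2aIB (Measure.pi μ) (fun ω => (Y ω * l2aT μ u R ω) ^ 2)
      (Fintype.card I * (12 * (Fintype.card I * a1 * M) + 39 / 2 * (a1 * M) + 39 / 2 * a2 +
        7 * (a1 * V))) := by
  set k : ℝ := (Fintype.card I : ℝ) with hk
  have hYb : l2aIB (Measure.pi μ) (fun ω => Y ω ^ 2) V := ⟨hY.integrable_sq, hV⟩
  have hT := l2aT_sq (μ := μ) u hu0 hu1 R h1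
  have hTm : AEStronglyMeasurable (l2aT μ u R) (Measure.pi μ) :=
    (Measurable.of_discrete).aestronglyMeasurable
  have hG : MemLp (fun ω => Y ω * l2aT μ u R ω) 2 (Measure.pi μ) := by
    refine MemLp.of_le_mul (c := R.card) hY (Measurable.of_discrete).aestronglyMeasurable
      (Filter.Eventually.of_forall fun ω => ?_)
    rw [norm_mul, mul_comm]
    exact mul_le_mul_of_nonneg_right (l2aT_bdd u hu0 hu1 R ω) (norm_nonneg _)
  have hcs := l2a_cs hYb hT (hG.integrable one_le_two)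
  refine (l2a_es hG (a := fun _ => 24 * (k * a1 * M) + 39 * (a1 * M) + 39 * a2 + 12 * (a1 * V))
    fun i => ?_).le ?_
  · have dT := l2a_decouple (μ := μ) (i := i) (F := l2aT μ u R) (f := u) (φ := fun η => f η ^ 2)
      (fun ω η => (l2aT_update (μ := μ) u hu0 R ω i η).1) (fun _ => sq_nonneg _) hT (hM i)
      ((h2 i).mono (fun _ => by positivity) fun η => (mul_comm _ _).le) (h1 i)
    have dY := l2a_decouple (μ := μ) (i := i) (F := Y) (f := f) (φ := fun η => u η ^ 2)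
      (fun ω η => hd ω i η) (fun _ => sq_nonneg _) hYb (h1 i) (h2 i) (hM i)
    have p0 := ((dT.cmul (c := 6) (by norm_num)).add ((h2 i).eval.cmul (c := 6) (by norm_num))).add
      (dY.cmul (c := 3) (by norm_num))
    have p1 := (hT.cmul (c := 6) (by norm_num)).add ((h1 i).eval.cmul (c := 6) (by norm_num))
    have p2 := ((hM i).eval.cmul (c := 6) (by norm_num)).add (hYb.cmul (c := 3) (by norm_num))
    have q0 := (l2aIB.const (μ := μ i) 1).prod p0 (fun _ => zero_le_one) fun _ => by positivity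
    have q1 := (hM i).prod p1 (fun _ => sq_nonneg _) fun _ => by positivity
    have q2 := (h1 i).prod p2 (fun _ => sq_nonneg _) fun _ => by positivity
    have q3 := (h2 i).prod (l2aIB.const (μ := Measure.pi μ) 6) (fun _ => by positivity)
      fun _ => by norm_num
    refine ((((q0.add q1).add q2).add q3).mono (fun _ => sq_nonneg _) fun p => ?_).le
      (le_of_eq (by ring))
    have ha := hd p.2 i p.1
    have hb := (l2aT_update (μ := μ) u hu0 R p.2 i p.1).2
    set y := Y p.2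
    set y' := Y (Function.update p.2 i p.1)
    set t := l2aT μ u R p.2
    set t' := l2aT μ u R (Function.update p.2 i p.1)
    set f1 := f p.1
    set f2 := f (p.2 i)
    set u1 := u p.1
    set u2 := u (p.2 i)
    have ha2 : (y' - y) ^ 2 ≤ 2 * f1 ^ 2 + 2 * f2 ^ 2 := by
      have h4 : (y' - y) ^ 2 ≤ (f1 + f2) ^ 2 := by
        rw [← sq_abs]; exact pow_le_pow_left₀ (abs_nonneg _) ha 2
      nlinarith [sq_nonneg (f1 - f2)]
    have e : y * t - y' * t' = -((y' - y) * t + (y' - y) * (t' - t) + y * (t' - t)) := by ring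
    have h3 : ∀ a b c : ℝ, (-(a + b + c)) ^ 2 ≤ 3 * a ^ 2 + 3 * b ^ 2 + 3 * c ^ 2 := fun a b c => by
      nlinarith [sq_nonneg (a - b), sq_nonneg (a - c), sq_nonneg (b - c)]
    rw [e]
    refine (h3 _ _ _).trans ?_
    rw [mul_pow, mul_pow, mul_pow]
    have k1 := mul_le_mul_of_nonneg_right ha2 (sq_nonneg t)
    have k2 := mul_le_mul ha2 hb (sq_nonneg _) (by positivity)
    have k3 := mul_le_mul_of_nonneg_left hb (sq_nonneg y)
    nlinarith
  · rw [Finset.sum_const, Finset.card_univ, nsmul_eq_mul, ← hk]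
    nlinarith

/-- weighted deviation estimate -/
theorem l2a_dev (r : Ω → ℝ) (hr0 : ∀ η, 0 ≤ r η) (hr : ∀ i, Integrable r (μ i)) (R : Finset I)
    {Y : (I → Ω) → ℝ} {f : Ω → ℝ} {a1 a2 M V : ℝ}
    (hd : ∀ ω i η, |Y (Function.update ω i η) - Y ω| ≤ f η + f (ω i))
    (hY : MemLp Y 2 (Measure.pi μ)) (hV : ∫ ω, Y ω ^ 2 ∂Measure.pi μ ≤ V)
    (h1 : ∀ i, ∫ η, min (r η ^ 2) (r η) ∂μ i ≤ a1)
    (h2 : ∀ i, l2aIB (μ i) (fun η => f η ^ 2 * min 1 (r η)) a2)
    (hM : ∀ i, l2aIB (μ i) (fun η => f η ^ 2) M) (ha1 : 0 ≤ a1) (ha2 : 0 ≤ a2) (hM0 : 0 ≤ M) :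
    l2aIB (Measure.pi μ) (fun ω => Y ω ^ 2 *
      if 1 ≤ |∑ i ∈ R, (r (ω i) - ∫ η, r η ∂μ i)| then 1 else 0)
      (Fintype.card I * (48 * (Fintype.card I * a1 * M) + 81 * (a1 * M) + 81 * a2 +
        31 * (a1 * V))) := by
  set k : ℝ := (Fintype.card I : ℝ) with hk
  have hk0 : 0 ≤ k := Nat.cast_nonneg _
  have hYb : l2aIB (Measure.pi μ) (fun ω => Y ω ^ 2) V := ⟨hY.integrable_sq, hV⟩
  have hV0 : 0 ≤ V := hYb.nonneg fun _ => sq_nonneg _
  have hnn : ∀ ω : I → Ω, 0 ≤ Y ω ^ 2 *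
      (if 1 ≤ |∑ i ∈ R, (r (ω i) - ∫ η, r η ∂μ i)| then (1 : ℝ) else 0) := fun ω => by
    split_ifs <;> positivity
  by_cases hbig : 1 / 2 < k * a1
  · refine (hYb.mono hnn fun ω => ?_).le ?_
    · split_ifs
      · rw [mul_one]
      · rw [mul_zero]; exact sq_nonneg _
    · have : 0 ≤ k * (k * a1 * M) := by positivity
      have : 0 ≤ k * (a1 * M) := by positivity
      have : 0 ≤ k * a2 := by positivity
      nlinarith
  push Not at hbig
  set u : Ω → ℝ := fun η => min 1 (r η) with hu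
  have hu0 : ∀ η, 0 ≤ u η := fun η => le_min zero_le_one (hr0 η)
  have hu1 : ∀ η, u η ≤ 1 := fun η => min_le_left _ _
  have hur : ∀ η, u η ≤ r η := fun η => min_le_right _ _
  have h1' : ∀ i, l2aIB (μ i) (fun η => min (r η ^ 2) (r η)) a1 := fun i =>
    ⟨(l2aIB.mono (F := r) ⟨hr i, le_rfl⟩ (fun η => le_min (sq_nonneg _) (hr0 η))
      fun η => min_le_right _ _).1, h1 i⟩
  have g1 : ∀ i, l2aIB (μ i) (fun η => u η ^ 2) a1 := fun i =>
    (h1' i).mono (fun _ => sq_nonneg _) fun η => by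
      refine le_min (pow_le_pow_left₀ (hu0 η) (hur η) 2) ?_
      have := hu0 η; have := hu1 η; have := hur η
      nlinarith
  have g2 : ∀ i, l2aIB (μ i) (fun η => f η ^ 2 * u η ^ 2) a2 := fun i =>
    (h2 i).mono (fun _ => by positivity) fun η => by
      refine mul_le_mul_of_nonneg_left ?_ (sq_nonneg _)
      have := hu0 η; have := hu1 η
      change u η ^ 2 ≤ u η
      nlinarith
  have g3 : ∀ i, l2aIB (μ i) (fun η => r η - u η) a1 := fun i =>
    (h1' i).mono (fun η => sub_nonneg.2 (hur η)) fun η => by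
      have := hu0 η
      refine le_min ?_ (by linarith)
      rcases le_total 1 (r η) with h | h
      · nlinarith
      · have : u η = r η := min_eq_right h
        rw [this, sub_self]; exact sq_nonneg _
  have hiu : ∀ i, Integrable u (μ i) := fun i => ((l2aIB.const (μ := μ i) 1).mono hu0 hu1).1
  have hYT := l2aYT_sq u hu0 hu1 R hd hY hV g1 g2 hM
  have hs := l2aIB.sum (Finset.univ : Finset I) fun i _ =>
    l2a_decouple (μ := μ) (i := i) (F := Y) (f := f) (φ := fun η => u η ^ 2)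
      (fun ω η => hd ω i η) (fun _ => sq_nonneg _) hYb (g1 i) (g2 i) (hM i)
  refine ((hs.add (hYT.cmul (c := 4) (by norm_num))).mono hnn fun ω => ?_).le ?_
  · split_ifs with hdev
    swap
    · rw [mul_zero]
      exact add_nonneg (Finset.sum_nonneg fun _ _ => by positivity) (by positivity)
    rw [← Finset.mul_sum, mul_pow]
    suffices h : 1 ≤ ∑ i, u (ω i) ^ 2 + 4 * l2aT μ u R ω ^ 2 by
      have := mul_le_mul_of_nonneg_left h (sq_nonneg (Y ω))
      nlinarith
    by_cases hall : ∃ i, 1 ≤ r (ω i)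
    · obtain ⟨i, hi⟩ := hall
      have e : u (ω i) = 1 := min_eq_left hi
      have := Finset.single_le_sum (f := fun i => u (ω i) ^ 2) (fun _ _ => sq_nonneg _)
        (Finset.mem_univ i)
      simp only [e] at this
      nlinarith [sq_nonneg (l2aT μ u R ω)]
    · push Not at hall
      have e : ∑ i ∈ R, (r (ω i) - ∫ η, r η ∂μ i) =
          l2aT μ u R ω - ∑ i ∈ R, ∫ η, (r η - u η) ∂μ i := by
        unfold l2aT
        rw [← Finset.sum_sub_distrib]
        refine Finset.sum_congr rfl fun i _ => ?_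
        have : u (ω i) = r (ω i) := min_eq_right (hall i).le
        rw [integral_sub (hr i) (hiu i), this]; ring
      have b0 : 0 ≤ ∑ i ∈ R, ∫ η, (r η - u η) ∂μ i :=
        Finset.sum_nonneg fun i _ => integral_nonneg fun η => sub_nonneg.2 (hur η)
      have b1 : ∑ i ∈ R, ∫ η, (r η - u η) ∂μ i ≤ k * a1 := by
        refine (Finset.sum_le_sum fun i _ => (g3 i).2).trans ?_
        rw [Finset.sum_const, nsmul_eq_mul]
        exact mul_le_mul_of_nonneg_right (Nat.cast_le.2 (Finset.card_le_univ R)) ha1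
      rw [e] at hdev
      have hT : 1 / 2 ≤ |l2aT μ u R ω| := by
        have := abs_sub (l2aT μ u R ω) (∑ i ∈ R, ∫ η, (r η - u η) ∂μ i)
        rw [abs_of_nonneg b0] at this
        linarith
      have := pow_le_pow_left₀ (by norm_num) hT 2
      rw [sq_abs] at this
      have : 0 ≤ ∑ i, u (ω i) ^ 2 := Finset.sum_nonneg fun _ _ => sq_nonneg _
      linarith
  · rw [Finset.sum_const, Finset.card_univ, nsmul_eq_mul, ← hk]
    exact le_of_eq (by ring)

end general

end Pool.Agent.Lib.MP_77dff5_pr
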