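import Pool.Agent.Lib.MP_77dff5_pr.Local2AAux1

/-! Conditioning on the slots outside a group; the estimate for one part of the value. -/

set_option autoImplicit false

namespace Pool.Agent.Lib.MP_77dff5_pr

open MeasureTheory ProbabilityTheory Filter Topology
open scoped ENNReal NNReal

section general
variable {Ω I : Type} [Countable Ω] [MeasurableSpace Ω] [DiscreteMeasurableSpace Ω] [Fintype I]
  [DecidableEq I] {μ : I → Measure Ω} [∀ i, IsProbabilityMeasure (μ i)]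

theorem l2a_cond (s : Ω → ℕ) (G : Finset I) {F : (I → Ω) → ℝ} {a κ : ℝ} (hF0 : ∀ ω, 0 ≤ F ω)
    (hF : l2aIB (Measure.pi μ) F a) (hG : ∀ ω ω', F (G.piecewise ω' ω) = F ω)
    (hκ : ∀ m : ℕ, (Measure.pi μ).real {ω | ∑ i ∈ G, s (ω i) = m} ≤ κ) (s0 n : ℕ) :
    l2aIB (Measure.pi μ) (fun ω => F ω * if s0 + ∑ i, s (ω i) = n then 1 else 0) (κ * a) := by
  have hκ0 : 0 ≤ κ := measureReal_nonneg.trans (hκ 0)
  refine l2aIB.of_mp (measurePreserving_piecewise μ G) ?_
  have hint : Integrable (fun p : (I → Ω) × (I → Ω) => F (G.piecewise p.1 p.2) *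
      if s0 + ∑ i, s (G.piecewise p.1 p.2 i) = n then (1 : ℝ) else 0)
      ((Measure.pi μ).prod (Measure.pi μ)) := by
    refine (((l2aIB.const (μ := Measure.pi μ) 1).prod hF (fun _ => zero_le_one) hF0).mono
      (fun p => ?_) fun p => ?_).1
    · have := hF0 (G.piecewise p.1 p.2)
      split_ifs <;> positivity
    · rw [hG]
      have := hF0 p.2
      split_ifs <;> linarith
  refine ⟨hint, ?_⟩
  rw [integral_prod_symm _ hint]
  refine ((hF.cmul hκ0).mono (fun y => integral_nonneg fun x => ?_) fun y => ?_).2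
  · have := hF0 (G.piecewise x y)
    simp only [Pi.zero_apply]
    split_ifs <;> positivity
  · simp only [hG]
    rw [integral_const_mul, mul_comm]
    refine mul_le_mul_of_nonneg_right ?_ (hF0 y)
    refine le_trans ?_ (hκ (n - (s0 + ∑ i ∈ Gᶜ, s (y i))))
    rw [← integral_indicator_one (DiscreteMeasurableSpace.forall_measurableSet _)]
    refine integral_mono_of_nonneg (Filter.Eventually.of_forall fun x => ?_)
      ((integrable_const (1 : ℝ)).indicator (DiscreteMeasurableSpace.forall_measurableSet _))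
      (Filter.Eventually.of_forall fun x => ?_)
    · simp only [Pi.zero_apply]
      split_ifs <;> norm_num
    · simp only
      split_ifs with hx
      · rw [Set.indicator_of_mem]
        · rfl
        · rw [← Finset.sum_add_sum_compl G] at hx
          have e1 : ∑ i ∈ G, s (G.piecewise x y i) = ∑ i ∈ G, s (x i) :=
            Finset.sum_congr rfl fun i hi => by rw [Finset.piecewise_eq_of_mem _ _ _ hi]
          have e2 : ∑ i ∈ Gᶜ, s (G.piecewise x y i) = ∑ i ∈ Gᶜ, s (y i) :=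
            Finset.sum_congr rfl fun i hi => by
              rw [Finset.piecewise_eq_of_notMem _ _ _ (Finset.mem_compl.1 hi)]
          rw [e1, e2] at hx
          simp only [Set.mem_ofPred_eq]
          omega
      · exact Set.indicator_nonneg (fun _ _ => zero_le_one) _

end general

theorem l2a_groups {I : Type} [Fintype I] [DecidableEq I] (p : I → Prop) (N m : ℕ)
    (h : N * m ≤ Nat.card {i // p i}) : ∃ G : Fin N → Finset I, (∀ a, (G a).card = m) ∧
      (∀ a, ∀ i ∈ G a, p i) ∧ ∀ a b, a ≠ b → Disjoint (G a) (G b) := by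
  classical
  obtain ⟨e⟩ : Nonempty (Fin N × Fin m ↪ {i // p i}) :=
    Function.Embedding.nonempty_of_card_le (by
      rw [Fintype.card_prod, Fintype.card_fin, Fintype.card_fin, ← Nat.card_eq_fintype_card]
      exact h)
  refine ⟨fun a => Finset.univ.image fun r => (e (a, r)).1, fun a => ?_, fun a i hi => ?_,
    fun a b hab => ?_⟩
  · rw [Finset.card_image_of_injective, Finset.card_univ, Fintype.card_fin]
    intro r r' hr
    exact (Prod.ext_iff.1 (e.injective (Subtype.ext hr))).2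
  · obtain ⟨r, -, rfl⟩ := Finset.mem_image.1 hi
    exact (e (a, r)).2
  · rw [Finset.disjoint_left]
    intro i hi hi'
    obtain ⟨r, -, rfl⟩ := Finset.mem_image.1 hi
    obtain ⟨r', -, hr⟩ := Finset.mem_image.1 hi'
    exact hab (Prod.ext_iff.1 (e.injective (Subtype.ext hr))).1.symm

theorem l2a_avoid {I : Type} [DecidableEq I] {N : ℕ} (G : Fin N → Finset I)
    (hG : ∀ a b, a ≠ b → Disjoint (G a) (G b)) (D : Finset I) (hD : D.card + 2 ≤ N) :
    ∃ p : {p : Fin N × Fin N // p.1 ≠ p.2}, Disjoint (G p.1.1) D ∧ Disjoint (G p.1.2) D := by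
  classical
  set T := Finset.univ.filter fun a => ¬ Disjoint (G a) D with hT
  have h1 : T.card ≤ D.card := by
    have hex : ∀ a ∈ T, ∃ i, i ∈ G a ∧ i ∈ D := fun a ha =>
      Finset.not_disjoint_iff.1 (Finset.mem_filter.1 ha).2
    choose φ hφ using hex
    rw [← Finset.card_attach]
    refine Finset.card_le_card_of_injOn (fun a => φ a.1 a.2) (fun a _ => (hφ a.1 a.2).2)
      fun a _ b _ hab => ?_
    by_contra hne
    have hab' : φ a.1 a.2 = φ b.1 b.2 := hab
    exact Finset.disjoint_left.1 (hG a.1 b.1 fun h => hne (Subtype.ext h)) (hφ a.1 a.2).1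
      (hab' ▸ (hφ b.1 b.2).1)
  have h2 : 1 < (Finset.univ.filter fun a => Disjoint (G a) D).card := by
    have := Finset.card_filter_add_card_filter_not (s := (Finset.univ : Finset (Fin N)))
      fun a => Disjoint (G a) D
    rw [Finset.card_univ, Fintype.card_fin, ← hT] at this
    omega
  obtain ⟨a, ha, b, hb, hab⟩ := Finset.one_lt_card.1 h2
  exact ⟨⟨(a, b), hab⟩, (Finset.mem_filter.1 ha).2, (Finset.mem_filter.1 hb).2⟩

variable {Ω J : Type} [Countable Ω] [MeasurableSpace Ω] [DiscreteMeasurableSpace Ω] [Fintype J]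
  {ν : J → Measure Ω} {s : Ω → ℕ} {z : Ω → ℝ} {A : ℝ} {Δ : ℕ} {B : ℝ}

omit [Countable Ω] [MeasurableSpace Ω] [DiscreteMeasurableSpace Ω] [Fintype J] in
theorem l2a_Y_indep (c : Core Ω J) (K : Finset c.I) (U : Finset c.W) (G : Finset c.I)
    (hK : ∀ i ∈ K, Disjoint G {i}) (hU : ∀ v ∈ U, Disjoint G (c.dep v)) (ω ω' : c.I → Ω) :
    c.Y z K U (G.piecewise ω' ω) = c.Y z K U ω := by
  unfold Core.Y
  congr 1
  · refine Finset.sum_congr rfl fun i hi => ?_
    rw [Finset.piecewise_eq_of_notMem _ _ _ (Finset.disjoint_singleton_right.1 (hK i hi))]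
  · refine Finset.sum_congr rfl fun v hv => c.g_dep v _ _ fun i hi => ?_
    rw [Finset.piecewise_eq_of_notMem _ _ _ (Finset.disjoint_right.1 (hU v hv) hi)]

omit [Countable Ω] [MeasurableSpace Ω] [DiscreteMeasurableSpace Ω] [Fintype J] in
theorem l2a_B_nonneg {c : Core Ω J} (hc : c.Good Δ B) : 0 ≤ B := by
  have h := (abs_nonneg _).trans hc.z0_le
  by_contra hB
  push Not at hB
  have : (0 : ℝ) < c.k + 1 := by positivity
  nlinarith

omit [Countable Ω] [MeasurableSpace Ω] [DiscreteMeasurableSpace Ω] [Fintype J] in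
theorem l2a_Y_diff {c : Core Ω J} (hc : c.Good Δ B) (K : Finset c.I) (U : Finset c.W)
    (ω : c.I → Ω) (i : c.I) (η : Ω) :
    |c.Y z K U (Function.update ω i η) - c.Y z K U ω| ≤
      (|z η| + Δ * B) + (|z (ω i)| + Δ * B) := by
  classical
  have hB := l2a_B_nonneg hc
  have e1 : |∑ j ∈ K, z (Function.update ω i η j) - ∑ j ∈ K, z (ω j)| ≤ |z η| + |z (ω i)| := by
    have e : ∑ j ∈ K, z (Function.update ω i η j) - ∑ j ∈ K, z (ω j) =
        if i ∈ K then z η - z (ω i) else 0 := by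
      rw [← Finset.sum_sub_distrib, ← Finset.sum_ite_eq K i fun _ => z η - z (ω i)]
      refine Finset.sum_congr rfl fun j _ => ?_
      by_cases hj : i = j
      · subst hj; simp
      · rw [if_neg hj, Function.update_of_ne (Ne.symm hj)]; ring
    rw [e]
    split_ifs
    · exact abs_sub _ _
    · rw [abs_zero]; positivity
  have e2 : |∑ v ∈ U, c.g v (Function.update ω i η) - ∑ v ∈ U, c.g v ω| ≤ Δ * (2 * B) := by
    rw [← Finset.sum_sub_distrib]
    refine (Finset.abs_sum_le_sum_abs _ _).trans ?_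
    have h1 : ∀ v ∈ U, |c.g v (Function.update ω i η) - c.g v ω| ≤
        if i ∈ c.dep v then 2 * B else 0 := fun v _ => by
      split_ifs with hv
      · have := abs_sub (c.g v (Function.update ω i η)) (c.g v ω)
        have := hc.bd v (Function.update ω i η)
        have := hc.bd v ω
        linarith
      · rw [c.g_dep v (Function.update ω i η) ω fun j hj =>
          Function.update_of_ne (fun h : j = i => hv (h ▸ hj)) _ _, sub_self, abs_zero]
    refine (Finset.sum_le_sum h1).trans ?_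
    rw [← Finset.sum_filter, Finset.sum_const, nsmul_eq_mul]
    refine mul_le_mul_of_nonneg_right (Nat.cast_le.2 ?_) (by linarith)
    refine le_trans ?_ (hc.dep_mult i)
    rw [Nat.card_eq_fintype_card, Fintype.card_subtype]
    exact Finset.card_le_card fun v hv =>
      Finset.mem_filter.2 ⟨Finset.mem_univ _, (Finset.mem_filter.1 hv).2⟩
  unfold Core.Y
  have e3 : ∑ j ∈ K, z (Function.update ω i η j) + ∑ v ∈ U, c.g v (Function.update ω i η) -
      (∑ j ∈ K, z (ω j) + ∑ v ∈ U, c.g v ω) =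
      (∑ j ∈ K, z (Function.update ω i η j) - ∑ j ∈ K, z (ω j)) +
      (∑ v ∈ U, c.g v (Function.update ω i η) - ∑ v ∈ U, c.g v ω) := by ring
  rw [e3]
  refine (abs_add_le _ _).trans ?_
  linarith

theorem l2a_piece (h : Slots ν s z) (h1 : T1 ν s A) (h2 : T2 ν s z A) (hA : 0 ≤ A) (Δ : ℕ)
    (B : ℝ) : ∃ C : ℝ, 0 ≤ C ∧ ∀ c : Core Ω J, c.Good Δ B → ∀ (K : Finset c.I) (U : Finset c.W)
      (G1 G2 : Finset c.I), Disjoint G1 G2 →
      (∀ ω ω', c.Y z K U (G1.piecewise ω' ω) = c.Y z K U ω) →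
      (∀ ω ω', c.Y z K U (G2.piecewise ω' ω) = c.Y z K U ω) → ∀ κ : ℝ,
      (∀ m : ℕ, (c.P ν).real {ω | ∑ i ∈ G1, s (ω i) = m} ≤ κ) →
      (∀ m : ℕ, (c.P ν).real {ω | ∑ i ∈ G2, s (ω i) = m} ≤ κ) → ∀ n : ℕ,
      l2aIB (c.P ν) (fun ω => (c.Y z K U ω - ∫ ω', c.Y z K U ω' ∂c.P ν) ^ 2 *
        if c.S s ω = n then 1 else 0) (κ * (C * c.k)) ∧
      ∀ x : ℝ, 1 ≤ x → 3 * x ≤ |n - c.mean ν s| →
        l2aIB (c.P ν) (fun ω => (c.Y z K U ω - ∫ ω', c.Y z K U ω' ∂c.P ν) ^ 2 *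
          if c.S s ω = n then 1 else 0)
          (κ * (C * ((c.k : ℝ) ^ 2 * x ^ (-(3 / 2) : ℝ) + c.k * x ^ (-(1 / 2) : ℝ)))) := by
  obtain ⟨Cv, hCv⟩ := Core.var_Y_le h Δ B
  set Cf : ℝ := 2 + 2 * (Δ * B) ^ 2 with hCf
  have hCf0 : 0 ≤ Cf := by positivity
  set M : ℝ := Cf * (1 + ∑ j, ∫ η, z η ^ 2 ∂ν j) with hM
  have hz0 : ∀ j, 0 ≤ ∫ η, z η ^ 2 ∂ν j := fun j => integral_nonneg fun _ => sq_nonneg _
  have hM0 : 0 ≤ M := mul_nonneg hCf0 (add_nonneg zero_le_one (Finset.sum_nonneg fun j _ => hz0 j))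
  set V0 : ℝ := max Cv 0 with hV0
  have hV00 : 0 ≤ V0 := le_max_right _ _
  refine ⟨V0 + 3 * (129 * (A * M) + 31 * (A * V0) + 81 * (Cf * A)), by positivity,
    fun c hc K U G1 G2 hG12 hG1 hG2 κ hκ1 hκ2 n => ?_⟩
  have : ∀ i : c.I, IsProbabilityMeasure (ν (c.cls i)) := fun i => h.prob _
  have := c.isProb h.prob
  have hκ0 : 0 ≤ κ := measureReal_nonneg.trans (hκ1 0)
  have hk0 : (0 : ℝ) ≤ c.k := Nat.cast_nonneg _
  set Y : (c.I → Ω) → ℝ := fun ω => c.Y z K U ω - ∫ ω', c.Y z K U ω' ∂c.P ν with hY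
  obtain ⟨hm, hv⟩ := hCv c hc K U
  have hYm : MemLp Y 2 (Measure.pi fun i => ν (c.cls i)) := hm.sub (memLp_const _)
  have hV : ∫ ω, Y ω ^ 2 ∂(Measure.pi fun i => ν (c.cls i)) ≤ V0 * c.k := by
    rw [variance_eq_integral hm.aemeasurable] at hv
    exact hv.trans (mul_le_mul_of_nonneg_right (le_max_left _ _) hk0)
  have hYb : l2aIB (Measure.pi fun i => ν (c.cls i)) (fun ω => Y ω ^ 2) (V0 * c.k) :=
    ⟨hYm.integrable_sq, hV⟩
  have hY1 : ∀ ω ω', Y (G1.piecewise ω' ω) = Y ω := fun ω ω' => by simp only [hY, hG1]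
  have hY2 : ∀ ω ω', Y (G2.piecewise ω' ω) = Y ω := fun ω ω' => by simp only [hY, hG2]
  refine ⟨(l2a_cond s G1 (fun _ => sq_nonneg _) hYb (fun ω ω' => by rw [hY1]) hκ1 c.s0 n).le ?_,
    fun x hx hd => ?_⟩
  · refine mul_le_mul_of_nonneg_left (mul_le_mul_of_nonneg_right ?_ hk0) hκ0
    have : 0 ≤ 3 * (129 * (A * M) + 31 * (A * V0) + 81 * (Cf * A)) := by positivity
    linarith
  have hx0 : 0 < x := by linarith
  set f : Ω → ℝ := fun η => |z η| + Δ * B with hf
  have hf2 : ∀ η, f η ^ 2 ≤ Cf * (1 + z η ^ 2) := fun η => by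
    have e : z η ^ 2 = |z η| ^ 2 := (sq_abs _).symm
    simp only [hf, hCf]
    rw [e]
    nlinarith [sq_nonneg (|z η| - Δ * B), mul_nonneg (sq_nonneg ((Δ : ℝ) * B)) (sq_nonneg |z η|)]
  set r : Ω → ℝ := fun η => s η / x with hr
  have hr0 : ∀ η, 0 ≤ r η := fun η => div_nonneg (Nat.cast_nonneg _) hx0.le
  have hri : ∀ j, Integrable r (ν j) := fun j => (h.int_s j).div_const x
  have hz1 : ∀ j, l2aIB (ν j) (fun η => 1 + z η ^ 2) (1 + ∑ j, ∫ η, z η ^ 2 ∂ν j) := fun j => by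
    have := h.prob j
    exact (l2aIB.const 1).add ⟨(h.mem_z j).integrable_sq,
      Finset.single_le_sum (fun j _ => hz0 j) (Finset.mem_univ j)⟩
  have hMb : ∀ j, l2aIB (ν j) (fun η => f η ^ 2) M := fun j =>
    ((hz1 j).cmul hCf0).mono (fun _ => sq_nonneg _) hf2
  have hmin0 : ∀ η, 0 ≤ min 1 (r η) := fun η => le_min zero_le_one (hr0 η)
  have ha2 : ∀ j, l2aIB (ν j) (fun η => f η ^ 2 * min 1 (r η)) (Cf * (A * x ^ (-(1 / 2) : ℝ))) :=
    fun j => by
    have g : l2aIB (ν j) (fun η => (1 + z η ^ 2) * min 1 (r η)) (A * x ^ (-(1 / 2) : ℝ)) :=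
      ⟨((hz1 j).mono (fun η => mul_nonneg (by positivity) (hmin0 η)) fun η =>
        mul_le_of_le_one_right (by positivity) (min_le_left _ _)).1, h2 j x hx⟩
    refine (g.cmul hCf0).mono (fun η => mul_nonneg (sq_nonneg _) (hmin0 η)) fun η => ?_
    rw [← mul_assoc]
    exact mul_le_mul_of_nonneg_right (hf2 η) (hmin0 η)
  have hx1 : 0 ≤ x ^ (-(3 / 2) : ℝ) := Real.rpow_nonneg hx0.le _
  have hx2 : 0 ≤ x ^ (-(1 / 2) : ℝ) := Real.rpow_nonneg hx0.le _
  have hdev := fun R : Finset c.I => l2a_dev (μ := fun i => ν (c.cls i)) r hr0 (fun i => hri _) R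
    (Y := Y) (f := f) (fun ω i η => by
      have := l2a_Y_diff (z := z) hc K U ω i η
      simpa only [hY, sub_sub_sub_cancel_right] using this) hYm hV (fun i => h1 _ x hx)
    (fun i => ha2 _) (fun i => hMb _) (mul_nonneg hA hx1) (by positivity) hM0
  have hcond : ∀ R G : Finset c.I, Disjoint G R → (∀ ω ω', Y (G.piecewise ω' ω) = Y ω) →
      (∀ m : ℕ, (c.P ν).real {ω | ∑ i ∈ G, s (ω i) = m} ≤ κ) → _ := fun R G hGR hG hκ =>
    l2a_cond s G (fun ω => by split_ifs <;> positivity) (hdev R) (fun ω ω' => by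
      have e : ∑ i ∈ R, (r (G.piecewise ω' ω i) - ∫ η, r η ∂ν (c.cls i)) =
          ∑ i ∈ R, (r (ω i) - ∫ η, r η ∂ν (c.cls i)) :=
        Finset.sum_congr rfl fun i hi => by
          rw [Finset.piecewise_eq_of_notMem _ _ _ (Finset.disjoint_right.1 hGR hi)]
      rw [hG, e]) hκ c.s0 n
  have c1 := hcond G1 G2 hG12.symm hY2 hκ2
  have c2 := hcond G2 G1 hG12 hY1 hκ1
  have c3 := hcond (G1 ∪ G2)ᶜ G1
    (Finset.disjoint_left.2 fun i hi hi' =>
      Finset.mem_compl.1 hi' (Finset.mem_union_left _ hi)) hY1 hκ1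
  refine (((c1.add c2).add c3).mono (fun ω => by split_ifs <;> positivity) fun ω => ?_).le ?_
  · change Y ω ^ 2 * (if c.s0 + ∑ i, s (ω i) = n then 1 else 0) ≤ _
    by_cases hn : c.s0 + ∑ i, s (ω i) = n
    swap
    · simp only [if_neg hn, mul_zero, add_zero, le_refl]
    simp only [if_pos hn, mul_one]
    have e : (n : ℝ) - c.mean ν s = x * (∑ i ∈ G1, (r (ω i) - ∫ η, r η ∂ν (c.cls i)) +
        ∑ i ∈ G2, (r (ω i) - ∫ η, r η ∂ν (c.cls i)) +
        ∑ i ∈ (G1 ∪ G2)ᶜ, (r (ω i) - ∫ η, r η ∂ν (c.cls i))) := by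
      rw [← Finset.sum_union hG12, Finset.sum_add_sum_compl, Finset.mul_sum, ← hn]
      unfold Core.mean
      push_cast
      rw [add_sub_add_left_eq_sub, ← Finset.sum_sub_distrib]
      refine Finset.sum_congr rfl fun i _ => ?_
      simp only [hr]
      rw [integral_div]
      field_simp
    rw [e, abs_mul, abs_of_pos hx0] at hd
    set d1 := ∑ i ∈ G1, (r (ω i) - ∫ η, r η ∂ν (c.cls i))
    set d2 := ∑ i ∈ G2, (r (ω i) - ∫ η, r η ∂ν (c.cls i))
    set d3 := ∑ i ∈ (G1 ∪ G2)ᶜ, (r (ω i) - ∫ η, r η ∂ν (c.cls i))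
    have h3 : 3 ≤ |d1 + d2 + d3| := le_of_mul_le_mul_left (by linarith) hx0
    have h4 := abs_add_three d1 d2 d3
    have hy := sq_nonneg (Y ω)
    split_ifs <;> linarith
  · have hk : (Fintype.card c.I : ℝ) = c.k := rfl
    rw [hk, ← mul_add, ← mul_add]
    refine mul_le_mul_of_nonneg_left ?_ hκ0
    have hkk : (c.k : ℝ) ≤ (c.k : ℝ) ^ 2 := by exact_mod_cast Nat.le_self_pow two_ne_zero c.k
    set k : ℝ := (c.k : ℝ)
    set p := x ^ (-(3 / 2) : ℝ)
    set q := x ^ (-(1 / 2) : ℝ)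
    have t1 : k * (A * M * p) ≤ k ^ 2 * (A * M * p) :=
      mul_le_mul_of_nonneg_right hkk (by positivity)
    have t2 : 0 ≤ V0 * (k ^ 2 * p + k * q) := by positivity
    have t3 : 0 ≤ A * M * (k * q) := by positivity
    have t4 : 0 ≤ A * V0 * (k * q) := by positivity
    have t5 : 0 ≤ Cf * A * (k ^ 2 * p) := by positivity
    nlinarith

end Pool.Agent.Lib.MP_77dff5_pr
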