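import Pool.Agent.Lib.MP_77dff5_pr.KernelA

/-! The conditional local central limit theorem for a filled core. -/

set_option autoImplicit false

namespace Pool.Agent.Lib.MP_77dff5_pr

open MeasureTheory ProbabilityTheory Filter Topology
open scoped ENNReal NNReal

variable {Ω J : Type} [Countable Ω] [MeasurableSpace Ω] [DiscreteMeasurableSpace Ω] [Fintype J]
  {ν : J → Measure Ω} {s : Ω → ℕ} {z : Ω → ℝ} {A c₀ : ℝ} {j₀ : J}

theorem localA_sub_one_le (u : ℝ) : ‖Complex.exp (Complex.I * (u : ℂ)) - 1‖ ≤ 2 := by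
  refine (norm_sub_le _ _).trans ?_
  rw [kernelA_norm_exp, norm_one]; norm_num

theorem localA_sq_le (u : ℝ) :
    ‖Complex.exp (Complex.I * (u : ℂ)) - 1‖ ^ 2 ≤ 2 * min (u ^ 2) |u| := by
  have h1 := Real.norm_exp_I_mul_ofReal_sub_one_le (x := u)
  rw [Real.norm_eq_abs] at h1
  have h2 := localA_sub_one_le u
  have h3 := norm_nonneg (Complex.exp (Complex.I * (u : ℂ)) - 1)
  rcases le_total (u ^ 2) |u| with h | h
  · rw [min_eq_left h, ← sq_abs u]; nlinarith
  · rw [min_eq_right h]; nlinarith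

omit [Fintype J] in
theorem localA_int_sq (h : Slots1 ν s z) (h1 : T1 ν s A) (j : J) (t : ℝ) :
    Integrable (fun ω => ‖Complex.exp (Complex.I * ((t * s ω : ℝ) : ℂ)) - 1‖ ^ 2) (ν j) ∧
    ∫ ω, ‖Complex.exp (Complex.I * ((t * s ω : ℝ) : ℂ)) - 1‖ ^ 2 ∂ν j ≤
      (2 * |A| + 4) * |t| ^ (3 / 2 : ℝ) := by
  have := h.prob j
  have hb : ∀ ω, ‖Complex.exp (Complex.I * ((t * s ω : ℝ) : ℂ)) - 1‖ ^ 2 ≤ 4 := fun ω => by
    nlinarith [localA_sub_one_le (t * s ω),
      norm_nonneg (Complex.exp (Complex.I * ((t * s ω : ℝ) : ℂ)) - 1)]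
  have hi : Integrable (fun ω => ‖Complex.exp (Complex.I * ((t * s ω : ℝ) : ℂ)) - 1‖ ^ 2) (ν j) :=
    (integrable_const (4 : ℝ)).mono' (measurable_of_countable _).aestronglyMeasurable
      (Eventually.of_forall fun ω => by rw [Real.norm_of_nonneg (sq_nonneg _)]; exact hb ω)
  refine ⟨hi, ?_⟩
  have hp : 0 ≤ |t| ^ (3 / 2 : ℝ) := by positivity
  have hA := mul_le_mul_of_nonneg_right (le_abs_self A) hp
  have hA' := mul_nonneg (abs_nonneg A) hp
  rcases le_total |t| 1 with ht | ht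
  · obtain ⟨i1, i2⟩ := kernelA_T1 h h1 j ht
    have := integral_mono hi (i1.const_mul 2) fun ω => localA_sq_le _
    rw [integral_const_mul] at this
    nlinarith
  · have e1 : 1 ≤ |t| ^ (3 / 2 : ℝ) := Real.one_le_rpow ht (by norm_num)
    have := integral_mono hi (integrable_const (4 : ℝ)) hb
    simp only [integral_const, probReal_univ, smul_eq_mul, one_mul] at this
    nlinarith

omit [Fintype J] in
/-- the contribution of one slot -/
theorem localA_slot (h : Slots ν s z) (h1 : T1 ν s A) (hc : 0 < c₀) (h4 : T4 (ν j₀) s c₀)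
    (B : ℝ) : ∃ C : ℝ, 0 ≤ C ∧ ∀ b : Ω → ℝ, (∀ x, |b x| ≤ B) → ∀ θ t : ℝ, |t| ≤ Real.pi →
      ‖∫ x, Complex.exp (Complex.I * ((θ * (z x + b x) + t * s x : ℝ) : ℂ)) ∂ν j₀‖ ≤
        Real.exp (-(c₀ / 2 * |t| ^ (3 / 2 : ℝ)) + C * θ ^ 2) := by
  have := h.prob j₀
  set ε := c₀ / (2 * (2 * |A| + 4)) with hε
  have hε0 : 0 < ε := by positivity
  set M := ∫ x, |z x| ∂ν j₀ + B with hM
  set V := 3 * ∫ x, z x ^ 2 ∂ν j₀ + (3 * B ^ 2 + 3 * M ^ 2) with hV
  have hz2 : Integrable (fun x => z x ^ 2) (ν j₀) := (h.mem_z j₀).integrable_sq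
  have hV0 : 0 ≤ V := by
    have : 0 ≤ ∫ x, z x ^ 2 ∂ν j₀ := integral_nonneg fun x => sq_nonneg _
    positivity
  refine ⟨(2 + 1 / ε) * V, by positivity, fun b hb θ t ht => ?_⟩
  have hbi : Integrable b (ν j₀) :=
    (integrable_const B).mono' (measurable_of_countable _).aestronglyMeasurable
      (Eventually.of_forall hb)
  have hzb : Integrable (fun x => z x + b x) (ν j₀) := (h.int_z j₀).add hbi
  set m := ∫ x, (z x + b x) ∂ν j₀ with hm
  have hmM : |m| ≤ M := by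
    refine abs_integral_le_integral_abs.trans ?_
    have := integral_mono hzb.abs ((h.int_z j₀).abs.add (integrable_const B)) fun x =>
      (abs_add_le _ _).trans (add_le_add le_rfl (hb x))
    refine this.trans_eq ?_
    rw [integral_add' (h.int_z j₀).abs (integrable_const B)]
    simp [hM]
  set g : Ω → ℝ := fun x => z x + b x - m with hg
  have hgi : Integrable g (ν j₀) := hzb.sub (integrable_const m)
  have hg0 : ∫ x, g x ∂ν j₀ = 0 := by
    rw [hg, integral_sub hzb (integrable_const m)]; simp [hm]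
  have hg2 : ∀ x, g x ^ 2 ≤ 3 * z x ^ 2 + (3 * B ^ 2 + 3 * M ^ 2) := by
    intro x
    have a1 : b x ^ 2 ≤ B ^ 2 := by rw [← sq_abs]; exact pow_le_pow_left₀ (abs_nonneg _) (hb x) 2
    have a2 : m ^ 2 ≤ M ^ 2 := by rw [← sq_abs]; exact pow_le_pow_left₀ (abs_nonneg _) hmM 2
    simp only [hg]
    nlinarith [sq_nonneg (z x - b x), sq_nonneg (z x + m), sq_nonneg (b x + m)]
  obtain ⟨hei, hele⟩ := localA_int_sq h.toSlots1 h1 j₀ t
  set e : Ω → ℂ := fun x => Complex.exp (Complex.I * ((t * s x : ℝ) : ℂ)) with he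
  set R : Ω → ℂ := fun x => (Complex.exp (Complex.I * ((θ * g x : ℝ) : ℂ)) - 1 -
    Complex.I * ((θ * g x : ℝ) : ℂ)) * e x + Complex.I * ((θ * g x : ℝ) : ℂ) * (e x - 1) with hR
  set W : Ω → ℝ := fun x => (2 + 1 / ε) * θ ^ 2 * (3 * z x ^ 2 + (3 * B ^ 2 + 3 * M ^ 2)) +
    ε * ‖e x - 1‖ ^ 2 with hW
  have hW1 : Integrable (fun x => 3 * z x ^ 2 + (3 * B ^ 2 + 3 * M ^ 2)) (ν j₀) :=
    (hz2.const_mul 3).add (integrable_const _)
  have hWi : Integrable W (ν j₀) := (hW1.const_mul _).add (hei.const_mul ε)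
  have hRW : ∀ x, ‖R x‖ ≤ W x := by
    intro x
    have a1 := (kernelA_taylor (θ * g x)).trans
      (mul_le_mul_of_nonneg_left (min_le_left _ _) (by norm_num))
    have a2 : ‖Complex.I * ((θ * g x : ℝ) : ℂ)‖ = |θ * g x| := by
      rw [norm_mul, Complex.norm_I, one_mul, Complex.norm_real, Real.norm_eq_abs]
    have a3 : |θ * g x| * ‖e x - 1‖ ≤ 1 / ε * (θ * g x) ^ 2 + ε * ‖e x - 1‖ ^ 2 := by
      rw [← sq_abs (θ * g x)]
      have b1 : 0 ≤ 1 / ε * (|θ * g x| - ε * ‖e x - 1‖) ^ 2 := by positivity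
      have b2 : 1 / ε * (|θ * g x| - ε * ‖e x - 1‖) ^ 2 = 1 / ε * |θ * g x| ^ 2 -
          2 * (|θ * g x| * ‖e x - 1‖) + ε * ‖e x - 1‖ ^ 2 := by field_simp; ring
      have b3 : 0 ≤ |θ * g x| * ‖e x - 1‖ := by positivity
      linarith
    have a4 : (2 + 1 / ε) * (θ * g x) ^ 2 ≤
        (2 + 1 / ε) * θ ^ 2 * (3 * z x ^ 2 + (3 * B ^ 2 + 3 * M ^ 2)) := by
      rw [mul_pow, ← mul_assoc]
      exact mul_le_mul_of_nonneg_left (hg2 x) (by positivity)
    refine (norm_add_le _ _).trans ?_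
    rw [norm_mul, norm_mul _ (e x - 1), a2, he, kernelA_norm_exp, mul_one]
    simp only [hW, he] at a3 ⊢
    linarith
  have hRi : Integrable R (ν j₀) :=
    hWi.mono' (measurable_of_countable _).aestronglyMeasurable (Eventually.of_forall hRW)
  have hei' : Integrable e (ν j₀) := kernelA_integrable_exp _ _
  have hIg : Integrable (fun x => Complex.I * ((θ * g x : ℝ) : ℂ)) (ν j₀) :=
    ((hgi.const_mul θ).ofReal).const_mul _
  have hdec : ∀ x, Complex.exp (Complex.I * ((θ * (z x + b x) + t * s x : ℝ) : ℂ)) =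
      Complex.exp (Complex.I * ((θ * m : ℝ) : ℂ)) *
        (e x + R x + Complex.I * ((θ * g x : ℝ) : ℂ)) := by
    intro x
    have : e x + R x + Complex.I * ((θ * g x : ℝ) : ℂ) =
        Complex.exp (Complex.I * ((θ * g x : ℝ) : ℂ)) * e x := by
      simp only [hR]; ring
    rw [this, he, ← Complex.exp_add, ← Complex.exp_add]
    congr 1
    simp only [hg]
    push_cast; ring
  simp_rw [hdec]
  have heR : Integrable (fun x => e x + R x) (ν j₀) := hei'.add hRi
  rw [integral_const_mul, norm_mul, kernelA_norm_exp, one_mul, integral_add heR hIg,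
    integral_add hei' hRi, integral_const_mul, integral_complex_ofReal, integral_const_mul, hg0]
  simp only [mul_zero, Complex.ofReal_zero, add_zero]
  have b1 : ‖∫ x, e x ∂ν j₀‖ ≤ 1 - c₀ * |t| ^ (3 / 2 : ℝ) := h4 t ht
  have b2 := norm_integral_le_of_norm_le hWi (Eventually.of_forall hRW)
  have b3 : ∫ x, W x ∂ν j₀ = (2 + 1 / ε) * θ ^ 2 * V + ε * ∫ x, ‖e x - 1‖ ^ 2 ∂ν j₀ := by
    rw [hW, integral_add (hW1.const_mul _) (hei.const_mul ε), integral_const_mul,
      integral_const_mul, integral_add (hz2.const_mul 3) (integrable_const _), integral_const_mul]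
    simp only [hV, he, integral_const, probReal_univ, smul_eq_mul, one_mul]
  have b4 : ε * ∫ x, ‖e x - 1‖ ^ 2 ∂ν j₀ ≤ c₀ / 2 * |t| ^ (3 / 2 : ℝ) := by
    refine (mul_le_mul_of_nonneg_left hele hε0.le).trans_eq ?_
    rw [hε]; field_simp
  refine (norm_add_le _ _).trans (le_trans ?_ (Real.add_one_le_exp _))
  nlinarith

theorem localA_char {I : Type} [Fintype I] (ν : I → Measure Ω) [∀ i, IsProbabilityMeasure (ν i)]
    (f : I → Ω → ℝ) (K : Finset I) :
    ∫ ω, Complex.exp (Complex.I * ((∑ i ∈ K, f i (ω i) : ℝ) : ℂ)) ∂Measure.pi ν =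
      ∏ i ∈ K, ∫ x, Complex.exp (Complex.I * ((f i x : ℝ) : ℂ)) ∂ν i := by
  classical
  have h1 : ∀ ω : I → Ω, Complex.exp (Complex.I * ((∑ i ∈ K, f i (ω i) : ℝ) : ℂ)) =
      ∏ i, (fun i x => if i ∈ K then Complex.exp (Complex.I * ((f i x : ℝ) : ℂ)) else 1) i (ω i) := by
    intro ω
    rw [← Finset.prod_filter, Finset.filter_mem_eq_inter, Finset.univ_inter, ← Complex.exp_sum]
    congr 1
    push_cast
    rw [Finset.mul_sum]
  simp_rw [h1]
  rw [integral_fintype_prod_eq_prod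
    (fun i x => if i ∈ K then Complex.exp (Complex.I * ((f i x : ℝ) : ℂ)) else 1)]
  have h2 : ∀ i, ∫ x, (if i ∈ K then Complex.exp (Complex.I * ((f i x : ℝ) : ℂ)) else 1) ∂ν i =
      if i ∈ K then ∫ x, Complex.exp (Complex.I * ((f i x : ℝ) : ℂ)) ∂ν i else 1 := by
    intro i
    split_ifs
    · rfl
    · simp
  simp_rw [h2]
  rw [← Finset.prod_filter, Finset.filter_mem_eq_inter, Finset.univ_inter]

omit [Countable Ω] [MeasurableSpace Ω] [DiscreteMeasurableSpace Ω] [Fintype J] in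
theorem localA_update (c : Core Ω J) {v : c.W} {i : c.I} (hi : i ∉ c.dep v) (ξ : c.I → Ω) (x : Ω) :
    c.g v (Function.update ξ i x) = c.g v ξ :=
  c.g_dep v _ _ fun i' hi' => Function.update_of_ne (fun e : i' = i => hi (e ▸ hi')) _ _

omit [Countable Ω] [MeasurableSpace Ω] [DiscreteMeasurableSpace Ω] [Fintype J] in
/-- local terms are additive over slots that do not interact -/
theorem localA_g (c : Core Ω J) (K : Finset c.I)
    (hK : ∀ v, ∀ i ∈ K, ∀ i' ∈ K, i ∈ c.dep v → i' ∈ c.dep v → i = i') (η ξ : c.I → Ω) (v : c.W) :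
    c.g v (K.piecewise η ξ) =
      c.g v ξ + ∑ i ∈ K, (c.g v (Function.update ξ i (η i)) - c.g v ξ) := by
  by_cases hex : ∃ i ∈ K, i ∈ c.dep v
  · obtain ⟨i, hiK, hiv⟩ := hex
    rw [Finset.sum_eq_single i (fun i' hi' hne => by
      rw [localA_update c (fun hh => hne (hK v i' hi' i hiK hh hiv)), sub_self])
      (fun hh => absurd hiK hh), add_sub_cancel]
    refine c.g_dep v _ _ fun i' hi' => ?_
    by_cases hi'K : i' ∈ K
    · have := hK v i' hi'K i hiK hi' hiv
      subst this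
      rw [Finset.piecewise_eq_of_mem _ _ _ hi'K, Function.update_self]
    · rw [Finset.piecewise_eq_of_notMem _ _ _ hi'K,
        Function.update_of_ne (fun e : i' = i => hi'K (e ▸ hiK))]
  · push Not at hex
    rw [Finset.sum_eq_zero fun i hi => by rw [localA_update c (hex i hi), sub_self], add_zero]
    exact c.g_dep v _ _ fun i' hi' =>
      Finset.piecewise_eq_of_notMem _ _ _ fun hh => hex i' hh hi'

omit [Countable Ω] [MeasurableSpace Ω] [DiscreteMeasurableSpace Ω] [Fintype J] in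
theorem localA_bdd {Δ : ℕ} {B : ℝ} {c : Core Ω J} (hc : c.Good Δ B) (ξ : c.I → Ω) (i : c.I) (x : Ω) :
    |∑ v, (c.g v (Function.update ξ i x) - c.g v ξ)| ≤ Δ * (2 * |B|) := by
  classical
  rw [← Finset.sum_filter_of_ne (p := fun v => i ∈ c.dep v) fun v _ hv => by
    by_contra hh
    exact hv (by rw [localA_update c hh, sub_self])]
  refine (Finset.abs_sum_le_sum_abs _ _).trans ?_
  refine (Finset.sum_le_card_nsmul _ _ (2 * |B|) fun v _ => ?_).trans ?_
  · have a1 := (hc.bd v (Function.update ξ i x)).trans (le_abs_self B)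
    have a2 := (hc.bd v ξ).trans (le_abs_self B)
    exact (abs_sub _ _).trans (by linarith)
  · rw [nsmul_eq_mul]
    refine mul_le_mul_of_nonneg_right ?_ (by positivity)
    have := hc.dep_mult i
    rw [Nat.card_eq_fintype_card, Fintype.card_subtype] at this
    exact_mod_cast this

/-- domination of the joint characteristic function -/
theorem joint_bound (h : Slots ν s z) (h1 : T1 ν s A) (hc : 0 < c₀) (h4 : T4 (ν j₀) s c₀) (Δ : ℕ)
    (B Θ : ℝ) : ∃ C c' : ℝ, 0 < c' ∧ ∀ c : Core Ω J, c.Good Δ B → c.k ≤ Δ * c.cnt j₀ →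
      ∀ θ t : ℝ, |θ| ≤ Θ / √c.k → |t| ≤ Real.pi →
        ‖∫ ω, Complex.exp (Complex.I * ((θ * c.Z z ω + t * c.S s ω : ℝ) : ℂ)) ∂c.P ν‖ ≤
          C * Real.exp (-(c' * c.k * |t| ^ (3 / 2 : ℝ))) := by
  classical
  have := h.prob
  obtain ⟨C, hC0, hC⟩ := localA_slot h h1 hc h4 (Δ * (2 * |B|))
  refine ⟨Real.exp (C * Θ ^ 2), c₀ / (2 * ((Δ + 1) * (Δ * Δ + 1))), by positivity,
    fun c hg hk θ t hθ ht => ?_⟩
  have := Core.isProb h.prob c
  obtain ⟨col, hcol⟩ := Core.exists_colouring hg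
  set F : Finset c.I := Finset.univ.filter fun i => c.cls i = j₀ with hF
  have hFc : F.card = c.cnt j₀ := by
    rw [Core.cnt, Nat.card_eq_fintype_card, Fintype.card_subtype]
  obtain ⟨a, -, ha⟩ := Finset.exists_max_image Finset.univ
    (fun a : Fin (Δ * Δ + 1) => (F.filter fun i => col i = a).card) Finset.univ_nonempty
  set K := F.filter fun i => col i = a with hKdef
  have hKcard : c.cnt j₀ ≤ (Δ * Δ + 1) * K.card := by
    rw [← hFc, Finset.card_eq_sum_card_fiberwise (f := col) (t := Finset.univ)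
      fun _ _ => Finset.mem_coe.2 (Finset.mem_univ _)]
    refine (Finset.sum_le_card_nsmul _ _ _ ha).trans_eq ?_
    simp
  have hK : ∀ v, ∀ i ∈ K, ∀ i' ∈ K, i ∈ c.dep v → i' ∈ c.dep v → i = i' :=
    fun v i hi i' hi' hv hv' => hcol v i hv i' hv'
      ((Finset.mem_filter.1 hi).2.trans (Finset.mem_filter.1 hi').2.symm)
  have hKj : ∀ i ∈ K, c.cls i = j₀ := fun i hi =>
    (Finset.mem_filter.1 (Finset.mem_filter.1 hi).1).2
  have hmp : MeasurePreserving (fun p : (c.I → Ω) × (c.I → Ω) => K.piecewise p.1 p.2)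
      ((c.P ν).prod (c.P ν)) (c.P ν) := measurePreserving_piecewise (fun i => ν (c.cls i)) K
  rw [← hmp.map_eq, integral_map hmp.measurable.aemeasurable
    (measurable_of_countable _).aestronglyMeasurable,
    integral_prod_symm _ (kernelA_integrable_exp _ _)]
  refine (norm_integral_le_of_norm_le_const (C := Real.exp (C * Θ ^ 2) *
    Real.exp (-(c₀ / (2 * ((Δ + 1) * (Δ * Δ + 1))) * c.k * |t| ^ (3 / 2 : ℝ))))
    (Eventually.of_forall fun ξ => ?_)).trans_eq (by simp)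
  set b : c.I → Ω → ℝ := fun i x => ∑ v, (c.g v (Function.update ξ i x) - c.g v ξ) with hb
  have hdec : ∀ η : c.I → Ω, Complex.exp (Complex.I *
      ((θ * c.Z z (K.piecewise η ξ) + t * c.S s (K.piecewise η ξ) : ℝ) : ℂ)) =
      Complex.exp (Complex.I * ((θ * (c.z0 + ∑ i ∈ Kᶜ, z (ξ i) + ∑ v, c.g v ξ) +
        t * (c.s0 + ∑ i ∈ Kᶜ, (s (ξ i) : ℝ)) : ℝ) : ℂ)) *
      Complex.exp (Complex.I *
        ((∑ i ∈ K, (θ * (z (η i) + b i (η i)) + t * s (η i)) : ℝ) : ℂ)) := by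
    intro η
    rw [← Complex.exp_add, ← mul_add, ← Complex.ofReal_add]
    congr 3
    have e1 : ∀ f : Ω → ℝ, ∑ i, f (K.piecewise η ξ i) = ∑ i ∈ K, f (η i) + ∑ i ∈ Kᶜ, f (ξ i) := by
      intro f
      rw [← Finset.sum_add_sum_compl K]
      congr 1
      · exact Finset.sum_congr rfl fun i hi => by rw [Finset.piecewise_eq_of_mem _ _ _ hi]
      · exact Finset.sum_congr rfl fun i hi => by
          rw [Finset.piecewise_eq_of_notMem _ _ _ (Finset.mem_compl.1 hi)]
    have e2 : ∑ v, c.g v (K.piecewise η ξ) = ∑ v, c.g v ξ + ∑ i ∈ K, b i (η i) := by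
      simp_rw [localA_g c K hK η ξ]
      rw [Finset.sum_add_distrib, Finset.sum_comm]
    rw [Core.Z, Core.S, e1 z, e2]
    push_cast
    rw [e1 fun x => (s x : ℝ), Finset.sum_add_distrib, ← Finset.mul_sum, ← Finset.mul_sum,
      Finset.sum_add_distrib]
    ring
  simp_rw [hdec]
  rw [integral_const_mul, norm_mul, kernelA_norm_exp, one_mul, Core.P,
    localA_char (fun i => ν (c.cls i)) (fun i x => θ * (z x + b i x) + t * s x) K, norm_prod]
  refine (Finset.prod_le_prod (g := fun _ => Real.exp (-(c₀ / 2 * |t| ^ (3 / 2 : ℝ)) + C * θ ^ 2))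
    (fun _ _ => norm_nonneg _) fun i hi => by
      rw [hKj i hi]; exact hC (b i) (localA_bdd hg ξ i) θ t ht).trans ?_
  rw [Finset.prod_const, ← Real.exp_nat_mul, ← Real.exp_add]
  refine Real.exp_le_exp.2 ?_
  have hKk : (K.card : ℝ) ≤ c.k := by exact_mod_cast Finset.card_le_univ K
  have a1 : (K.card : ℝ) * θ ^ 2 ≤ Θ ^ 2 := by
    rcases Nat.eq_zero_or_pos c.k with hk0 | hk0
    · have : (K.card : ℝ) = 0 := le_antisymm (by rw [hk0] at hKk; exact_mod_cast hKk)
        (Nat.cast_nonneg _)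
      rw [this, zero_mul]; positivity
    · have hk0' : (0 : ℝ) < c.k := by exact_mod_cast hk0
      have b1 := pow_le_pow_left₀ (abs_nonneg _) hθ 2
      rw [sq_abs, div_pow, Real.sq_sqrt hk0'.le, le_div_iff₀ hk0'] at b1
      nlinarith [sq_nonneg θ]
  have a2 : (c.k : ℝ) ≤ (Δ + 1) * (Δ * Δ + 1) * K.card := by
    have : c.k ≤ (Δ + 1) * (Δ * Δ + 1) * K.card := by
      calc c.k ≤ Δ * ((Δ * Δ + 1) * K.card) := hk.trans (Nat.mul_le_mul_left _ hKcard)
        _ ≤ (Δ + 1) * ((Δ * Δ + 1) * K.card) := Nat.mul_le_mul_right _ (Nat.le_succ _)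
        _ = _ := by ring
    exact_mod_cast this
  have a3 : c₀ / (2 * ((Δ + 1) * (Δ * Δ + 1))) * c.k ≤ c₀ / 2 * K.card := by
    refine (mul_le_mul_of_nonneg_left a2 (by positivity)).trans_eq ?_
    field_simp
  have a4 := mul_le_mul_of_nonneg_right a3 (show 0 ≤ |t| ^ (3 / 2 : ℝ) by positivity)
  have a5 := mul_le_mul_of_nonneg_left a1 hC0
  nlinarith

end Pool.Agent.Lib.MP_77dff5_pr
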