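import Pool.Agent.Lib.MP_77dff5_pr.VarA

/-! Stein identity for sums of bounded local terms. -/

set_option autoImplicit false

namespace Pool.Agent.Lib.MP_77dff5_pr

open MeasureTheory ProbabilityTheory Filter Topology
open scoped ENNReal NNReal

theorem localB_norm_exp (x : ℝ) : ‖Complex.exp (Complex.I * (x : ℂ))‖ = 1 := by
  rw [mul_comm]; exact Complex.norm_exp_ofReal_mul_I x

theorem localB_exp_one (x : ℝ) : ‖Complex.exp (Complex.I * (x : ℂ)) - 1‖ ≤ |x| :=
  Real.norm_exp_I_mul_ofReal_sub_one_le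

theorem localB_exp_two (x : ℝ) :
    ‖Complex.exp (Complex.I * (x : ℂ)) - 1 - Complex.I * x‖ ≤ 2 * x ^ 2 := by
  have hn : ‖Complex.I * (x : ℂ)‖ = |x| := by simp
  by_cases hx : |x| ≤ 1
  · have := Complex.norm_exp_sub_one_sub_id_le (x := Complex.I * x) (by rw [hn]; exact hx)
    rw [hn, sq_abs] at this
    nlinarith [sq_nonneg x]
  · have h1 := norm_sub_le (Complex.exp (Complex.I * (x : ℂ)) - 1) (Complex.I * x)
    have h2 := localB_exp_one x
    rw [hn] at h1
    have h3 : |x| ≤ x ^ 2 := by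
      rw [← sq_abs]; nlinarith [abs_nonneg x]
    linarith

theorem localB_point (ξ u y w : ℝ) :
    ‖(ξ : ℂ) * Complex.exp (Complex.I * (u : ℂ)) -
        Complex.I * ((ξ * y : ℝ) : ℂ) * Complex.exp (Complex.I * (u : ℂ)) -
        ξ * Complex.exp (Complex.I * ((u - y - w : ℝ) : ℂ))‖ ≤ |ξ| * (2 * y ^ 2 + |w|) := by
  have e : (ξ : ℂ) * Complex.exp (Complex.I * (u : ℂ)) -
        Complex.I * ((ξ * y : ℝ) : ℂ) * Complex.exp (Complex.I * (u : ℂ)) -
        ξ * Complex.exp (Complex.I * ((u - y - w : ℝ) : ℂ)) =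
      -(ξ * Complex.exp (Complex.I * (u : ℂ))) *
        ((Complex.exp (Complex.I * ((-y : ℝ) : ℂ)) - 1 - Complex.I * ((-y : ℝ) : ℂ)) +
          Complex.exp (Complex.I * ((-y : ℝ) : ℂ)) *
            (Complex.exp (Complex.I * ((-w : ℝ) : ℂ)) - 1)) := by
    have e2 : Complex.exp (Complex.I * ((u - y - w : ℝ) : ℂ)) =
        Complex.exp (Complex.I * (u : ℂ)) * Complex.exp (Complex.I * ((-y : ℝ) : ℂ)) *
          Complex.exp (Complex.I * ((-w : ℝ) : ℂ)) := by
      rw [← Complex.exp_add, ← Complex.exp_add]; congr 1; push_cast; ring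
    rw [e2]; push_cast; ring
  rw [e, norm_mul, norm_neg, norm_mul, localB_norm_exp, mul_one, Complex.norm_real,
    Real.norm_eq_abs]
  refine mul_le_mul_of_nonneg_left ((norm_add_le _ _).trans ?_) (abs_nonneg _)
  have h1 := localB_exp_two (-y)
  have h2 := localB_exp_one (-w)
  rw [norm_mul, localB_norm_exp, one_mul]
  rw [abs_neg] at h2
  rw [neg_sq] at h1
  linarith

/-- the differential inequality for the characteristic function -/
theorem localB_ode {α : Type} [MeasurableSpace α] (P : Measure α) [IsProbabilityMeasure P]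
    (X T : α → ℝ) (hX : Measurable X) (hT : Measurable T) {K : ℝ} (hK : ∀ ω, |X ω| ≤ K)
    {Q E θ : ℝ} (hQ : 0 ≤ Q)
    (h : ∀ u : ℝ, |u| ≤ |θ| →
      ‖∫ ω, (X ω : ℂ) * Complex.exp (Complex.I * ((u * X ω + T ω : ℝ) : ℂ)) ∂P -
        Complex.I * ((u * Q : ℝ) : ℂ) *
          ∫ ω, Complex.exp (Complex.I * ((u * X ω + T ω : ℝ) : ℂ)) ∂P‖ ≤ E) :
    ‖∫ ω, Complex.exp (Complex.I * ((θ * X ω + T ω : ℝ) : ℂ)) ∂P -
      ((Real.exp (-(θ ^ 2 * Q / 2)) : ℝ) : ℂ) *
        ∫ ω, Complex.exp (Complex.I * ((T ω : ℝ) : ℂ)) ∂P‖ ≤ E * |θ| := by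
  set f : ℝ → ℂ := fun u => ∫ ω, Complex.exp (Complex.I * ((u * X ω + T ω : ℝ) : ℂ)) ∂P with hf
  set f' : ℝ → ℂ := fun u =>
    ∫ ω, (X ω : ℂ) * Complex.exp (Complex.I * ((u * X ω + T ω : ℝ) : ℂ)) ∂P with hf'
  have hm : ∀ u : ℝ, Measurable fun ω => Complex.exp (Complex.I * ((u * X ω + T ω : ℝ) : ℂ)) := by
    intro u; fun_prop
  have hd : ∀ u : ℝ, HasDerivAt f (Complex.I * f' u) u := by
    intro u
    have := (hasDerivAt_integral_of_dominated_loc_of_deriv_le (μ := P) (x₀ := u) (s := Set.univ)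
      (F := fun (u : ℝ) ω => Complex.exp (Complex.I * ((u * X ω + T ω : ℝ) : ℂ)))
      (F' := fun (u : ℝ) ω => Complex.I *
        ((X ω : ℂ) * Complex.exp (Complex.I * ((u * X ω + T ω : ℝ) : ℂ))))
      (bound := fun _ => K) univ_mem (Eventually.of_forall fun u => (hm u).aestronglyMeasurable)
      (Integrable.of_bound (hm u).aestronglyMeasurable 1
        (Eventually.of_forall fun ω => (localB_norm_exp _).le))
      (Measurable.aestronglyMeasurable (by fun_prop))
      (Eventually.of_forall fun ω x _ => by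
        rw [norm_mul, norm_mul, localB_norm_exp, Complex.norm_I, Complex.norm_real, one_mul,
          mul_one]
        exact hK ω)
      (integrable_const K)
      (Eventually.of_forall fun ω x _ => by
        have h1 : HasDerivAt (fun u : ℝ => u * X ω + T ω) (X ω) x := by
          simpa using ((hasDerivAt_id x).mul_const (X ω)).add_const (T ω)
        have h2 := (h1.ofReal_comp.const_mul Complex.I).cexp
        refine h2.congr_deriv ?_
        ring)).2
    rw [integral_const_mul] at this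
    exact this
  have hE : 0 ≤ E := le_trans (norm_nonneg _) (h 0 (by simp))
  have hg : ∀ u : ℝ, HasDerivAt (fun u : ℝ => ((Real.exp (u ^ 2 * Q / 2) : ℝ) : ℂ) * f u)
      (((Real.exp (u ^ 2 * Q / 2) : ℝ) : ℂ) * (Complex.I *
        (f' u - Complex.I * ((u * Q : ℝ) : ℂ) * f u))) u := by
    intro u
    have h1 : HasDerivAt (fun u : ℝ => u ^ 2 * Q / 2) (u * Q) u := by
      have := ((hasDerivAt_pow 2 u).mul_const Q).div_const 2
      refine this.congr_deriv ?_
      simp; ring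
    have h2 := (h1.exp.ofReal_comp).mul (hd u)
    refine h2.congr_deriv ?_
    push_cast
    linear_combination (Complex.exp (u ^ 2 * Q / 2) * u * Q * f u) * Complex.I_mul_I
  have hb := (convex_Icc (-|θ|) |θ|).norm_image_sub_le_of_norm_hasDerivWithin_le
    (C := Real.exp (θ ^ 2 * Q / 2) * E) (fun u _ => (hg u).hasDerivWithinAt)
    (fun u hu => by
      have hu' : |u| ≤ |θ| := abs_le.2 hu
      rw [norm_mul, norm_mul, Complex.norm_I, one_mul, Complex.norm_real, Real.norm_eq_abs,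
        abs_of_pos (Real.exp_pos _)]
      refine mul_le_mul ?_ (h u hu') (norm_nonneg _) (Real.exp_pos _).le
      apply Real.exp_le_exp.2
      have : u ^ 2 ≤ θ ^ 2 := sq_le_sq.2 hu'
      have := mul_le_mul_of_nonneg_right this hQ
      linarith)
    (x := 0) (y := θ) ⟨by simp, abs_nonneg _⟩ ⟨neg_abs_le _, le_abs_self _⟩
  have e0 : f 0 = ∫ ω, Complex.exp (Complex.I * ((T ω : ℝ) : ℂ)) ∂P := by simp [hf]
  rw [← e0]
  have e1 : f θ - ((Real.exp (-(θ ^ 2 * Q / 2)) : ℝ) : ℂ) * f 0 =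
      ((Real.exp (-(θ ^ 2 * Q / 2)) : ℝ) : ℂ) * (((Real.exp (θ ^ 2 * Q / 2) : ℝ) : ℂ) * f θ -
        ((Real.exp (0 ^ 2 * Q / 2) : ℝ) : ℂ) * f 0) := by
    have e2 : ((Real.exp (-(θ ^ 2 * Q / 2)) : ℝ) : ℂ) * ((Real.exp (θ ^ 2 * Q / 2) : ℝ) : ℂ) = 1 := by
      rw [← Complex.ofReal_mul, ← Real.exp_add]; simp
    have e3 : ((Real.exp (0 ^ 2 * Q / 2) : ℝ) : ℂ) = 1 := by simp
    rw [e3]
    linear_combination -(f θ) * e2
  show ‖f θ - _‖ ≤ _
  rw [e1, norm_mul, Complex.norm_real, Real.norm_eq_abs, abs_of_pos (Real.exp_pos _)]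
  rw [sub_zero, Real.norm_eq_abs] at hb
  have h3 := mul_le_mul_of_nonneg_left hb (Real.exp_pos (-(θ ^ 2 * Q / 2))).le
  have e4 : Real.exp (-(θ ^ 2 * Q / 2)) * (Real.exp (θ ^ 2 * Q / 2) * E * |θ|) = E * |θ| := by
    rw [← mul_assoc, ← mul_assoc, ← Real.exp_add]; simp
  rw [e4] at h3
  exact h3

section general
variable {Ω I W : Type} [Countable Ω] [MeasurableSpace Ω] [DiscreteMeasurableSpace Ω] [Fintype I]
  [DecidableEq I] [Fintype W] (ν : I → Measure Ω) [∀ i, IsProbabilityMeasure (ν i)]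

theorem localB_indep (A : Finset I) (f F : (I → Ω) → ℂ)
    (hf : ∀ ω ω', (∀ i ∈ A, ω i = ω' i) → f ω = f ω')
    (hF : ∀ ω ω', (∀ i ∉ A, ω i = ω' i) → F ω = F ω') :
    ∫ ω, f ω * F ω ∂Measure.pi ν = (∫ ω, f ω ∂Measure.pi ν) * ∫ ω, F ω ∂Measure.pi ν := by
  have hp := measurePreserving_piecewise ν A
  rw [← integral_prod_mul]
  conv_lhs => rw [← hp.map_eq]
  rw [integral_map hp.measurable.aemeasurable AEStronglyMeasurable.of_discrete]
  refine integral_congr_ae (Eventually.of_forall fun p => ?_)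
  simp only
  rw [hf (A.piecewise p.1 p.2) p.1 (fun i hi => Finset.piecewise_eq_of_mem _ _ _ hi),
    hF (A.piecewise p.1 p.2) p.2 (fun i hi => Finset.piecewise_eq_of_notMem _ _ _ hi)]

omit [Countable Ω] [MeasurableSpace Ω] [DiscreteMeasurableSpace Ω] [Fintype I] in
/-- the neighbourhood of a local term -/
noncomputable def localB_N (dep : W → Finset I) (a : W) : Finset W :=
  Finset.univ.filter fun b => ¬ Disjoint (dep a) (dep b)

omit [Fintype I] in
theorem localB_N_symm (dep : W → Finset I) (a b : W) :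
    b ∈ localB_N dep a ↔ a ∈ localB_N dep b := by
  simp only [localB_N, Finset.mem_filter, Finset.mem_univ, true_and, disjoint_comm]

omit [Fintype I] in
theorem localB_N_card (dep : W → Finset I) {D : ℕ} (hc : ∀ a, (dep a).card ≤ D)
    (hm : ∀ i, (Finset.univ.filter fun a => i ∈ dep a).card ≤ D) (a : W) :
    (localB_N dep a).card ≤ D * D := by
  classical
  have hsub : localB_N dep a ⊆ (dep a).biUnion fun i => Finset.univ.filter fun b => i ∈ dep b := by
    intro b hb
    simp only [localB_N, Finset.mem_filter, Finset.mem_univ, true_and,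
      Finset.not_disjoint_iff] at hb
    obtain ⟨i, h1, h2⟩ := hb
    exact Finset.mem_biUnion.2 ⟨i, h1, Finset.mem_filter.2 ⟨Finset.mem_univ _, h2⟩⟩
  refine (Finset.card_le_card hsub).trans (Finset.card_biUnion_le.trans ?_)
  refine (Finset.sum_le_card_nsmul _ _ D fun i _ => hm i).trans ?_
  rw [smul_eq_mul]
  exact Nat.mul_le_mul_right _ (hc a)

end general

end Pool.Agent.Lib.MP_77dff5_pr
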