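import Pool.Agent.Lib.MP_77dff5_pr.Net
import Pool.Agent.Lib.MP_77dff5_pr.LabelB

/-! Tutte's decomposition of networks as identities between labelled sums. -/

set_option autoImplicit false

namespace Pool.Agent.Lib.MP_77dff5_pr

open scoped ENNReal Classical

theorem netS_flp {E : Type} (e : E) (b : Bool) : flp E (e, b) = (e, !b) := rfl

theorem netS_ind_pos {p : Prop} (h : p) : ind p = 1 := if_pos h

theorem netS_ind_neg {p : Prop} (h : ¬p) : ind p = 0 := if_neg h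

theorem netS_ind_mul (p q : Prop) : ind p * ind q = ind (p ∧ q) := by
  by_cases hp : p <;> by_cases hq : q <;> simp [ind, hp, hq]

/-- the reversed edge -/
def netSRev : Fin 1 × Bool → Bool ⊕ Fin 0 := fun x => Sum.inl !x.2

theorem net_E (Ψ : NFun) (hΨ : NInv Ψ) :
    ∑' G : NG, wt G.1 G.2.1 * ind (IsNet G.2.2 ∧ IsE G.2.2) * Ψ _ _ G.2.2 = Ψ _ _ edgeN := by
  have hu : ∀ x, netSRev (flp (Fin 1) x) = (edgeN x).map id (Equiv.refl _) := by
    rintro ⟨e, _ | _⟩ <;> rfl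
  have h1 : IsNet netSRev := (isNet_congr ⟨flp _, fun _ => rfl⟩ _ hu).2 isNet_edgeN.1
  have h2 : Ψ _ _ netSRev = Ψ _ _ edgeN := hΨ _ _ _ _ ⟨flp _, fun _ => rfl⟩ _ _ _ hu
  have h3 : (⟨1, 0, edgeN⟩ : NG) ≠ ⟨1, 0, netSRev⟩ := by
    intro h
    simp only [Sigma.mk.injEq, heq_eq_eq, true_and] at h
    exact Bool.noConfusion (Sum.inl_injective (congrFun h (0, true)))
  have h4 : wt 1 0 = 2⁻¹ := by simp [wt]
  rw [tsum_eq_sum (s := {⟨1, 0, edgeN⟩, ⟨1, 0, netSRev⟩}), Finset.sum_pair h3]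
  · dsimp only
    rw [netS_ind_pos ⟨isNet_edgeN.1, isNet_edgeN.2.1⟩, netS_ind_pos ⟨h1, isNet_edgeN.2.1⟩, h2, h4,
      ← add_mul, mul_one, ENNReal.inv_two_add_inv_two, one_mul]
  · rintro ⟨m, n, g⟩ hG
    rw [netS_ind_neg, mul_zero, zero_mul]
    rintro ⟨hN, hE⟩
    obtain rfl : m = 1 := by simpa [IsE] using hE
    obtain rfl : n = 0 := by simpa using hN.card_lt
    have h5 : g (0, false) ≠ g (0, true) := hN.no_loop (some 0, true)
    apply hG
    rw [Finset.mem_insert, Finset.mem_singleton]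
    rcases h6 : g (0, false) with c | v
    swap
    · exact v.elim0
    rcases h7 : g (0, true) with d | v
    swap
    · exact v.elim0
    rw [h6, h7] at h5
    have h8 : ∀ g' : Fin 1 × Bool → Bool ⊕ Fin 0, g' (0, false) = Sum.inl c →
        g' (0, true) = Sum.inl d → (⟨1, 0, g⟩ : NG) = ⟨1, 0, g'⟩ := by
      intro g' a1 a2
      obtain rfl : g = g' := by
        funext ⟨e, b⟩
        obtain rfl : e = 0 := Subsingleton.elim _ _
        cases b
        · rw [h6, a1]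
        · rw [h7, a2]
      rfl
    cases c <;> cases d
    · exact absurd rfl h5
    · exact Or.inl (h8 _ rfl rfl)
    · exact Or.inr (h8 _ rfl rfl)
    · exact absurd rfl h5

section part
variable {I E V : Type} {fE : E → I} {fV : V → Option I}

/-- the vertex map of a part -/
def netSPhi (fV : V → Option I) (t : I × Bool → Bool ⊕ {v // fV v = none}) (i : I) :
    Bool ⊕ {v // fV v = some i} → Bool ⊕ V :=
  fun z => z.elim (fun c => (t (i, c)).map id Subtype.val) fun v => Sum.inr v.1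

variable {t : I × Bool → Bool ⊕ {v // fV v = none}}
  {N : ∀ i, {e // fE e = i} × Bool → Bool ⊕ {v // fV v = some i}}

theorem netS_glueF {i : I} (e : {e // fE e = i}) (b : Bool) :
    glueF fE fV t N (e.1, b) = netSPhi fV t i (N i (e, b)) := by
  obtain ⟨e, rfl⟩ := e
  rfl

theorem netS_phi_ne {i : I} (c : Bool) {v : V} (hv : fV v ≠ none) :
    netSPhi fV t i (Sum.inl c) ≠ Sum.inr v := by
  change (t (i, c)).map id Subtype.val ≠ _
  rcases t (i, c) with d | w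
  · exact Sum.inl_ne_inr
  · intro h
    exact hv (Sum.inr_injective h ▸ w.2)

theorem netS_phi_inj {i : I} (h : t (i, false) ≠ t (i, true)) :
    Function.Injective (netSPhi fV t i) := by
  have hm : Function.Injective (Sum.map id Subtype.val : Bool ⊕ {v // fV v = none} → Bool ⊕ V) :=
    Function.injective_id.sumMap Subtype.val_injective
  rintro (c | v) (d | w) e
  · cases c <;> cases d
    · rfl
    · exact absurd (hm e) h
    · exact absurd (hm e).symm h
    · rfl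
  · exact absurd e (netS_phi_ne c (by simp [w.2]))
  · exact absurd e.symm (netS_phi_ne d (by simp [v.2]))
  · exact congrArg _ (Subtype.ext (Sum.inr_injective e))

theorem netS_inner {x : E × Bool} {v : V} (h : glueF fE fV t N x = Sum.inr v) :
    fV v = none ∨ fV v = some (fE x.1) := by
  rw [or_iff_not_imp_left]
  intro hv
  have := netS_glueF (t := t) (N := N) ⟨x.1, rfl⟩ x.2
  rw [h] at this
  rcases h1 : N (fE x.1) (⟨x.1, rfl⟩, x.2) with c | w
  · exact absurd (h1 ▸ this).symm (netS_phi_ne c hv)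
  · exact (Sum.inr_injective (h1 ▸ this) : v = w.1) ▸ w.2

theorem netS_bd_compl {D W : Type} (ν : D × Bool → W) (X : Set D) : bd ν Xᶜ = bd ν X := by
  ext v
  simp only [bd, Set.mem_ofPred_eq, Set.mem_compl_iff, not_not, and_comm]

/-- the parts of a glued network are networks -/
theorem netS_part [Finite V] (hG : IsNet (glueF fE fV t N)) {i : I}
    (h : t (i, false) ≠ t (i, true)) (hne : Nonempty {e // fE e = i}) : IsNet (N i) := by
  have hφ := netS_phi_inj h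
  have key : ∀ (y : Option E × Bool) (v : {v // fV v = some i}),
      clo (glueF fE fV t N) y = Sum.inr v.1 →
      ∃ e : {e // fE e = i}, y.1 = some e.1 ∧ N i (e, y.2) = Sum.inr v := by
    rintro ⟨_ | e, b⟩ v hy
    · exact absurd hy Sum.inl_ne_inr
    · have h1 := (netS_inner hy).resolve_left (by simp [v.2])
      have h2 : fE e = i := Option.some_injective _ (h1.symm.trans v.2)
      exact ⟨⟨e, h2⟩, rfl, hφ ((netS_glueF ⟨e, h2⟩ b).symm.trans hy)⟩
  refine ⟨hne, ?_, ?_⟩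
  · rintro (c | v)
    · exact ⟨(none, c), rfl⟩
    · obtain ⟨y, hy⟩ := hG.2.1 (Sum.inr v.1)
      obtain ⟨e, -, he⟩ := key y v hy
      exact ⟨(some e, y.2), he⟩
  · have main : ∀ X : Set (Option {e // fE e = i}), X.Nonempty → none ∉ X →
        2 ≤ (bd (clo (N i)) X).ncard := by
      intro X hX h0
      have h1 := hG.2.2 (Option.map Subtype.val '' X) (hX.image _) ⟨none, by
        rintro ⟨_ | e, he, h⟩
        · exact h0 he
        · exact absurd h (by simp)⟩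
      refine h1.trans ((Set.ncard_le_ncard ?_).trans (Set.ncard_image_le (f := netSPhi fV t i)))
      rintro z ⟨⟨⟨_, b⟩, ⟨_ | e, he, rfl⟩, rfl⟩, y, hy, hz⟩
      · exact absurd he h0
      refine ⟨N i (e, b), ⟨⟨(some e, b), he, rfl⟩, ?_⟩, (netS_glueF e b).symm⟩
      rcases h2 : N i (e, b) with c | v
      · exact ⟨(none, c), h0, rfl⟩
      · obtain ⟨e', a1, a2⟩ := key y v (hz.trans ((netS_glueF e b).trans (h2 ▸ rfl)))
        exact ⟨(some e', y.2), fun h => hy ⟨_, h, a1.symm⟩, a2⟩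
    intro X h1 h2
    by_cases h0 : none ∈ X
    · exact netS_bd_compl _ X ▸ main Xᶜ h2 (not_not.2 h0)
    · exact main X h1 h0

theorem netS_glue [Finite I] [Finite E] [Finite V] (ht : IsNet t) (hN : ∀ i, IsNet (N i)) :
    IsNet (glueF fE fV t N) := by
  let f : {v // fV v = none} ⊕ (Σ i, {v // fV v = some i}) → V :=
    Sum.elim Subtype.val fun s => s.2.1
  have hf : Function.Bijective f := by
    constructor
    · rintro (⟨v, hv⟩ | ⟨i, v, hv⟩) (⟨w, hw⟩ | ⟨j, w, hw⟩) h <;> obtain rfl : v = w := h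
      · rfl
      · exact absurd (hv.symm.trans hw) (by simp)
      · exact absurd (hv.symm.trans hw) (by simp)
      · obtain rfl : i = j := Option.some_injective _ (hv.symm.trans hw)
        rfl
    · intro v
      rcases h : fV v with _ | i
      · exact ⟨Sum.inl ⟨v, h⟩, rfl⟩
      · exact ⟨Sum.inr ⟨i, v, h⟩, rfl⟩
  refine (isNet_congr ⟨(Equiv.sigmaFiberEquiv fE).prodCongr (Equiv.refl _), fun _ => rfl⟩
    (Equiv.ofBijective f hf) ?_).2 (isNet_glue ht hN)
  rintro ⟨⟨i, e⟩, b⟩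
  refine (netS_glueF e b).trans ?_
  unfold glue netSPhi
  dsimp only
  rcases N i (e, b) with c | v
  · dsimp only [Sum.elim_inl]
    rcases t (i, c) with d | w <;> rfl
  · rfl

end part

section ser
variable {E V : Type} {G : E × Bool → Bool ⊕ V}

/-- `X` is a series set with cut vertex `z` -/
def netSSer (G : E × Bool → Bool ⊕ V) (X : Set E) (z : Bool ⊕ V) : Prop :=
  (∀ x, G x = Sum.inl true → x.1 ∈ X) ∧ (∀ x, G x = Sum.inl false → x.1 ∉ X) ∧
    ∀ x y, x.1 ∈ X → y.1 ∉ X → G x = G y → G x = z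

theorem netS_mem_bd {X : Set E} {z : Bool ⊕ V} : z ∈ bd (clo G) (some '' X) ↔
    (∃ x, x.1 ∈ X ∧ G x = z) ∧ ((∃ b, Sum.inl b = z) ∨ ∃ y, y.1 ∉ X ∧ G y = z) := by
  refine and_congr ⟨?_, ?_⟩ ⟨?_, ?_⟩
  · rintro ⟨⟨_, b⟩, ⟨e, he, rfl⟩, h⟩
    exact ⟨(e, b), he, h⟩
  · rintro ⟨x, hx, h⟩
    exact ⟨(some x.1, x.2), ⟨_, hx, rfl⟩, h⟩
  · rintro ⟨⟨_ | e, b⟩, h1, h2⟩
    · exact Or.inl ⟨b, h2⟩
    · exact Or.inr ⟨(e, b), fun h => h1 ⟨e, h, rfl⟩, h2⟩
  · rintro (⟨b, h⟩ | ⟨y, h1, h2⟩)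
    · exact ⟨(none, b), by simp, h⟩
    · exact ⟨(some y.1, y.2), by simpa using h1, h2⟩

theorem netS_two (hG : IsNet G) {X : Set E} (hX : X.Nonempty) :
    2 ≤ (bd (clo G) (some '' X)).ncard := hG.2.2 _ (hX.image _) ⟨none, by simp⟩

theorem netS_not_sub (hG : IsNet G) {X : Set E} (hX : X.Nonempty) (z : Bool ⊕ V) :
    ¬bd (clo G) (some '' X) ⊆ {z} := fun h => by
  have := (netS_two hG hX).trans (Set.ncard_le_ncard h)
  simp at this

theorem netS_pole [Finite E] [Finite V] (hG : IsNet G) (b : Bool) : ∃ x, G x = Sum.inl b := by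
  obtain ⟨x, hx⟩ := (Nat.card_pos_iff.1 (hG.deg_pole b)).1
  exact ⟨x, hx⟩

theorem netSSer.card {X : Set E} {z : Bool ⊕ V} (h : netSSer G X z) :
    (bd (clo G) (some '' X)).ncard ≤ 2 := by
  refine (Set.ncard_le_ncard (t := {Sum.inl true, z}) ?_).trans
    ((Set.ncard_insert_le _ _).trans_eq (by simp))
  intro u hu
  obtain ⟨⟨x, hx, rfl⟩, ⟨_ | _, hb⟩ | ⟨y, hy, e⟩⟩ := netS_mem_bd.1 hu
  · exact absurd hx (h.2.1 x hb.symm)
  · exact Or.inl hb.symm
  · exact Or.inr (h.2.2 x y hx hy e.symm)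

theorem netSSer.isS {X : Set E} {z : Bool ⊕ V} (h : netSSer G X z) : IsS G :=
  ⟨X, h.1, h.2.1, h.card⟩

variable [Finite E] [Finite V]

theorem netS_ser (hG : IsNet G) {X : Set E} (h1 : ∀ x, G x = Sum.inl true → x.1 ∈ X)
    (h2 : ∀ x, G x = Sum.inl false → x.1 ∉ X) (h3 : (bd (clo G) (some '' X)).ncard ≤ 2) :
    ∃ c, netSSer G X (Sum.inr c) := by
  obtain ⟨x0, hx0⟩ := netS_pole hG true
  have a1 : Sum.inl true ∈ bd (clo G) (some '' X) :=
    netS_mem_bd.2 ⟨⟨x0, h1 x0 hx0, hx0⟩, Or.inl ⟨true, rfl⟩⟩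
  obtain ⟨z, hz, a2⟩ := Set.not_subset.1 (netS_not_sub hG ⟨_, h1 x0 hx0⟩ (Sum.inl true))
  have a3 : {Sum.inl true, z} = bd (clo G) (some '' X) :=
    Set.eq_of_subset_of_ncard_le (Set.insert_subset a1 (Set.singleton_subset_iff.2 hz))
      (h3.trans_eq (Set.ncard_pair (Ne.symm a2)).symm)
  rcases z with (_ | _) | c
  · obtain ⟨⟨x, hx, e⟩, -⟩ := netS_mem_bd.1 hz
    exact absurd hx (h2 x e)
  · exact absurd rfl a2
  · refine ⟨c, h1, h2, fun x y hx hy e => ?_⟩
    have a4 : G x ∈ bd (clo G) (some '' X) :=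
      netS_mem_bd.2 ⟨⟨x, hx, rfl⟩, Or.inr ⟨y, hy, e.symm⟩⟩
    rw [← a3] at a4
    exact a4.resolve_left fun e' => hy (h1 y (e.symm.trans e'))

theorem netSSer.both (hG : IsNet G) {X : Set E} {z : Bool ⊕ V} (h : netSSer G X z) :
    (∃ x, x.1 ∈ X ∧ G x = z) ∧ ∃ y, y.1 ∉ X ∧ G y = z := by
  obtain ⟨x0, hx0⟩ := netS_pole hG true
  obtain ⟨u, hu, a2⟩ := Set.not_subset.1 (netS_not_sub hG ⟨_, h.1 x0 hx0⟩ (Sum.inl true))
  obtain ⟨⟨x, hx, rfl⟩, ⟨_ | _, hb⟩ | ⟨y, hy, e⟩⟩ := netS_mem_bd.1 hu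
  · exact absurd hx (h.2.1 x hb.symm)
  · exact absurd hb.symm a2
  · have := h.2.2 x y hx hy e.symm
    exact ⟨⟨x, hx, this⟩, y, hy, e.trans this⟩

theorem netSSer.inter (hG : IsNet G) {X Y : Set E} {z z' : Bool ⊕ V} (h : netSSer G X z)
    (h' : netSSer G Y z') : ∃ c, netSSer G (X ∩ Y) (Sum.inr c) := by
  refine netS_ser hG (fun x hx => ⟨h.1 x hx, h'.1 x hx⟩) (fun x hx hx' => h.2.1 x hx hx'.1) ?_
  obtain ⟨x0, hx0⟩ := netS_pole hG true
  have a1 := bd_submod (clo G) (some '' X) (some '' Y)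
  have a2 := netS_two hG (X := X ∪ Y) ⟨_, Or.inl (h.1 x0 hx0)⟩
  have a3 := h.card
  have a4 := h'.card
  rw [← Set.image_union, ← Set.image_inter (Option.some_injective _)] at a1
  omega

omit [Finite E] [Finite V] in
theorem netSSer.ne (hG : IsNet G) {X Y : Set E} {z : Bool ⊕ V} (h : netSSer G X z)
    (h' : netSSer G Y z) : X ⊆ Y := by
  by_contra hXY
  refine netS_not_sub hG (X := X \ Y) (Set.sdiff_nonempty.2 hXY) z fun u hu => ?_
  obtain ⟨⟨x, hx, rfl⟩, ⟨_ | _, hb⟩ | ⟨y, hy, e⟩⟩ := netS_mem_bd.1 hu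
  · exact absurd hx.1 (h.2.1 x hb.symm)
  · exact absurd (h'.1 x hb.symm) hx.2
  · by_cases hyX : y.1 ∈ X
    · exact e.symm.trans (h'.2.2 y x (not_not.1 fun hyY => hy ⟨hyX, hyY⟩) hx.2 e)
    · exact h.2.2 x y hx.1 hyX e.symm

end ser

/-- two edges in series through `w` -/
def netST {W : Type} (w : W) : Fin 2 × Bool → Bool ⊕ W := fun x => (tri x).map id fun _ => w

theorem netST_ne {W : Type} (w : W) (i : Fin 2) : netST w (i, false) ≠ netST w (i, true) := by
  fin_cases i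
  · exact Sum.inr_ne_inl
  · exact Sum.inl_ne_inr

theorem netST_net {W : Type} (w : W) (hw : ∀ w', w' = w) : IsNet (netST w) :=
  (isNet_congr ⟨Equiv.refl _, fun _ => rfl⟩
    ⟨fun _ => w, fun _ => (), fun _ => rfl, fun w' => (hw w').symm⟩ fun _ => rfl).2 isNet_tri

section tri
variable {E V : Type} {fE : E → Fin 2} {fV : V → Option (Fin 2)} {w : {v // fV v = none}}
  {N : ∀ i, {e // fE e = i} × Bool → Bool ⊕ {v // fV v = some i}}

theorem netS_tri_ser (hw : ∀ w', w' = w) :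
    netSSer (glueF fE fV (netST w) N) {e | fE e = 0} (Sum.inr w.1) := by
  have a1 : ∀ (i : Fin 2) (z) (c : Bool), netSPhi fV (netST w) i z = Sum.inl c →
      (i = 0 ↔ c = true) := by
    intro i z c h
    fin_cases i <;> rcases z with (_ | _) | v <;> cases h <;> simp
  have a2 : ∀ x c, glueF fE fV (netST w) N x = Sum.inl c → (fE x.1 = 0 ↔ c = true) :=
    fun x c h => a1 _ _ c ((netS_glueF ⟨x.1, rfl⟩ x.2).symm.trans h)
  refine ⟨fun x h => (a2 x _ h).2 rfl, fun x h h' => Bool.noConfusion ((a2 x _ h).1 h'), ?_⟩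
  intro x y hx hy e
  rcases h : glueF fE fV (netST w) N x with c | v
  · exact absurd ((a2 y c (e.symm.trans h)).2 ((a2 x c h).1 hx)) hy
  · rcases netS_inner h with h1 | h1
    · exact congrArg _ (congrArg Subtype.val (hw ⟨v, h1⟩))
    · rcases netS_inner (e.symm.trans h) with h2 | h2
      · exact congrArg _ (congrArg Subtype.val (hw ⟨v, h2⟩))
      · exact absurd ((Option.some_injective _ (h2.symm.trans h1)).trans hx) hy

variable [Finite E] [Finite V]

/-- a smaller series set gives a series set of the first part -/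
theorem netS_min (hw : ∀ w', w' = w) (hG : IsNet (glueF fE fV (netST w) N)) (h0 : ¬IsS (N 0))
    {Y : Set E} {z : Bool ⊕ V} (hY : netSSer (glueF fE fV (netST w) N) Y z) :
    {e | fE e = 0} ⊆ Y := by
  have hX := netS_tri_ser (N := N) hw
  have hφ := netS_phi_inj (netST_ne w 0)
  obtain ⟨d, hd⟩ := hX.inter hG hY
  by_cases e : (Sum.inr d : Bool ⊕ V) = Sum.inr w.1
  · exact (hX.ne hG (e ▸ hd)).trans Set.inter_subset_right
  obtain ⟨⟨x0, hx0, e0⟩, -⟩ := hd.both hG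
  obtain ⟨-, y0, hy0, e1⟩ := hX.both hG
  refine absurd (netSSer.isS (X := Subtype.val ⁻¹' ({e | fE e = 0} ∩ Y))
    (z := N 0 (⟨x0.1, hx0.1⟩, x0.2)) ⟨fun x h => ?_, fun x h h' => ?_, fun x y hx hy h => ?_⟩) h0
  · exact hd.1 (x.1.1, x.2) ((netS_glueF x.1 x.2).trans (h ▸ rfl))
  · have a1 : glueF fE fV (netST w) N (x.1.1, x.2) = Sum.inr w.1 :=
      (netS_glueF x.1 x.2).trans (h ▸ rfl)
    exact e ((hd.2.2 (x.1.1, x.2) y0 h' (fun hh => hy0 hh.1) (a1.trans e1.symm)).symm.trans a1)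
  · have a1 := hd.2.2 (x.1.1, x.2) (y.1.1, y.2) hx hy
      ((netS_glueF x.1 x.2).trans (h ▸ (netS_glueF y.1 y.2).symm))
    exact hφ ((netS_glueF x.1 x.2).symm.trans (a1.trans (e0.symm.trans
      (netS_glueF ⟨x0.1, hx0.1⟩ x0.2))))

/-- a series set of the first part is a smaller series set -/
theorem netS_lift (hw : ∀ w', w' = w) (h0 : IsNet (N 0)) (hS : IsS (N 0)) :
    ∃ Y c, netSSer (glueF fE fV (netST w) N) Y (Sum.inr c) ∧ Y ⊂ {e | fE e = 0} := by
  have hX := netS_tri_ser (N := N) hw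
  have hφ := netS_phi_inj (netST_ne w 0)
  obtain ⟨Y, h1, h2, h3⟩ := hS
  obtain ⟨c, -, -, h4⟩ := netS_ser h0 h1 h2 h3
  have hs : Subtype.val '' Y ⊆ {e | fE e = 0} := by
    rintro _ ⟨e, -, rfl⟩
    exact e.2
  refine ⟨Subtype.val '' Y, c.1, ⟨fun x h => ?_, fun x h h' => hX.2.1 x h (hs h'), ?_⟩, hs, ?_⟩
  · exact ⟨⟨x.1, hX.1 x h⟩, h1 (_, x.2)
      (hφ ((netS_glueF ⟨x.1, hX.1 x h⟩ x.2).symm.trans h)), rfl⟩
  · rintro ⟨_, b⟩ y ⟨e, he, rfl⟩ hy h
    by_cases hy0 : fE y.1 = 0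
    · have := h4 (e, b) (⟨y.1, hy0⟩, y.2) he (fun hh => hy ⟨_, hh, rfl⟩)
        (hφ ((netS_glueF e b).symm.trans (h.trans (netS_glueF ⟨y.1, hy0⟩ y.2))))
      exact (netS_glueF e b).trans (this ▸ rfl)
    · exact absurd he (h2 (e, b) (hφ ((netS_glueF e b).symm.trans (hX.2.2 _ y e.2 hy0 h))))
  · obtain ⟨x, hx⟩ := netS_pole h0 false
    intro h
    obtain ⟨e, he, e1⟩ := h x.1.2
    exact h2 x hx (Subtype.ext e1 ▸ he)

end tri

/-- the condition on a decomposition -/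
def netSOk {W : Type} {E V : Fin 2 → Type} (t : Fin 2 × Bool → Bool ⊕ W)
    (N : ∀ i, E i × Bool → Bool ⊕ V i) : Prop :=
  (∃ w, (∀ w', w' = w) ∧ t = netST w) ∧ (∀ i, Finite (E i) ∧ Finite (V i)) ∧
    (IsNet (N 0) ∧ ¬IsS (N 0)) ∧ IsNet (N 1)

section count
variable {E V : Type} [Finite E] [Finite V]

theorem netS_sound {fE : E → Fin 2} {fV : V → Option (Fin 2)}
    {t : Fin 2 × Bool → Bool ⊕ {v // fV v = none}}
    {N : ∀ i, {e // fE e = i} × Bool → Bool ⊕ {v // fV v = some i}} (h : netSOk t N) :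
    IsNet (glueF fE fV t N) ∧ IsS (glueF fE fV t N) := by
  obtain ⟨⟨w, hw, rfl⟩, -, ⟨h0, -⟩, h1⟩ := h
  exact ⟨netS_glue (netST_net w hw) (Fin.forall_fin_two.2 ⟨h0, h1⟩), (netS_tri_ser hw).isS⟩

theorem netS_uniq {fE fE' : E → Fin 2} {fV fV' : V → Option (Fin 2)}
    {t : Fin 2 × Bool → Bool ⊕ {v // fV v = none}}
    {N : ∀ i, {e // fE e = i} × Bool → Bool ⊕ {v // fV v = some i}}
    {t' : Fin 2 × Bool → Bool ⊕ {v // fV' v = none}}
    {N' : ∀ i, {e // fE' e = i} × Bool → Bool ⊕ {v // fV' v = some i}} (h : netSOk t N)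
    (h' : netSOk t' N') (e : glueF fE fV t N = glueF fE' fV' t' N') : fE = fE' ∧ fV = fV' := by
  have hG := (netS_sound h).1
  have hG' := (netS_sound h').1
  obtain ⟨⟨w, hw, rfl⟩, -, ⟨-, h0⟩, -⟩ := h
  obtain ⟨⟨w', hw', rfl⟩, -, ⟨-, h0'⟩, -⟩ := h'
  have hX := netS_tri_ser (N := N) hw
  have hX' := netS_tri_ser (N := N') hw'
  have a1 := netS_min hw hG h0 (e ▸ hX')
  have a2 := netS_min hw' hG' h0' (e ▸ hX)
  obtain rfl : fE = fE' := by
    funext x
    have b1 : fE x = 0 → fE' x = 0 := @a1 x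
    have b2 : fE' x = 0 → fE x = 0 := @a2 x
    omega
  obtain ⟨⟨x0, hx0, e0⟩, y0, hy0, e1⟩ := hX.both hG
  have a3 : w.1 = w'.1 :=
    Sum.inr_injective (e0.symm.trans ((e ▸ hX').2.2 x0 y0 hx0 hy0 (e0.trans e1.symm)))
  refine ⟨rfl, funext fun v => ?_⟩
  by_cases hv : v = w.1
  · rw [hv, w.2, a3, w'.2]
  obtain ⟨⟨_ | x, b⟩, hx⟩ := hG.2.1 (Sum.inr v)
  · exact absurd hx Sum.inl_ne_inr
  have hx1 : glueF fE fV (netST w) N (x, b) = Sum.inr v := hx
  rw [(netS_inner hx1).resolve_left fun h => hv (congrArg Subtype.val (hw ⟨v, h⟩)),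
    (netS_inner (e ▸ hx1)).resolve_left fun h =>
      hv ((congrArg Subtype.val (hw' ⟨v, h⟩)).trans a3.symm)]

omit [Finite E] [Finite V] in
theorem netS_uniq' {fE : E → Fin 2} {fV : V → Option (Fin 2)}
    {t t' : Fin 2 × Bool → Bool ⊕ {v // fV v = none}}
    {N N' : ∀ i, {e // fE e = i} × Bool → Bool ⊕ {v // fV v = some i}} (h : netSOk t N)
    (h' : netSOk t' N') (e : glueF fE fV t N = glueF fE fV t' N') : t = t' ∧ N = N' := by
  obtain ⟨⟨w, hw, rfl⟩, -⟩ := h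
  obtain ⟨⟨w', -, rfl⟩, -⟩ := h'
  obtain rfl := hw w'
  refine ⟨rfl, funext fun i => funext fun x => netS_phi_inj (netST_ne w' i) ?_⟩
  exact (netS_glueF x.1 x.2).symm.trans ((congrFun e _).trans (netS_glueF x.1 x.2))

theorem netS_exists {G : E × Bool → Bool ⊕ V} (hG : IsNet G) (hS : IsS G) :
    ∃ (fE : E → Fin 2) (fV : V → Option (Fin 2)) (t : Fin 2 × Bool → Bool ⊕ {v // fV v = none})
      (N : ∀ i, {e // fE e = i} × Bool → Bool ⊕ {v // fV v = some i}),
      netSOk t N ∧ glueF fE fV t N = G := by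
  obtain ⟨X, ⟨c, hX⟩, hmin⟩ := exists_minimal_of_wellFoundedLT
    (fun X : Set E => ∃ c, netSSer G X (Sum.inr c)) (by
      obtain ⟨X, h1, h2, h3⟩ := hS
      exact ⟨X, netS_ser hG h1 h2 h3⟩)
  let fE : E → Fin 2 := fun e => if e ∈ X then 0 else 1
  let fV : V → Option (Fin 2) := fun v =>
    if v = c then none else if ∃ x, x.1 ∈ X ∧ G x = Sum.inr v then some 0 else some 1
  let w : {v // fV v = none} := ⟨c, if_pos rfl⟩
  have hw : ∀ w', w' = w := by
    rintro ⟨v, hv⟩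
    refine Subtype.ext (by_contra fun (h : ¬v = c) => ?_)
    simp only [fV, if_neg h] at hv
    split_ifs at hv
  have hE : {e | fE e = 0} = X := by
    ext e
    by_cases h : e ∈ X <;> simp [fE, h]
  have hz : ∀ (i : Fin 2) (x : {e // fE e = i} × Bool), ∃ z,
      netSPhi fV (netST w) i z = G (x.1.1, x.2) := by
    rintro _ ⟨⟨e, rfl⟩, b⟩
    dsimp only
    by_cases he : e ∈ X
    · rw [show fE e = 0 from if_pos he]
      rcases h : G (e, b) with (_ | _) | v
      · exact absurd he (hX.2.1 _ h)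
      · exact ⟨Sum.inl true, rfl⟩
      · by_cases hv : v = c
        · exact ⟨Sum.inl false, hv ▸ rfl⟩
        · exact ⟨Sum.inr ⟨v, (if_neg hv).trans (if_pos ⟨_, he, h⟩)⟩, rfl⟩
    · rw [show fE e = 1 from if_neg he]
      rcases h : G (e, b) with (_ | _) | v
      · exact ⟨Sum.inl false, rfl⟩
      · exact absurd (hX.1 _ h) he
      · by_cases hv : v = c
        · exact ⟨Sum.inl true, hv ▸ rfl⟩
        · refine ⟨Sum.inr ⟨v, (if_neg hv).trans (if_neg ?_)⟩, rfl⟩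
          rintro ⟨x, hx, h1⟩
          exact hv (Sum.inr_injective (h1.symm.trans (hX.2.2 x (e, b) hx he (h1.trans h.symm))))
  choose N hN using hz
  have hg : glueF fE fV (netST w) N = G :=
    funext fun x => (netS_glueF ⟨x.1, rfl⟩ x.2).trans (hN _ (⟨x.1, rfl⟩, x.2))
  obtain ⟨⟨x0, hx0, -⟩, y0, hy0, -⟩ := hX.both hG
  have h0 : IsNet (N 0) := netS_part (hg ▸ hG) (netST_ne w 0) ⟨⟨x0.1, if_pos hx0⟩⟩
  have h1 : IsNet (N 1) := netS_part (hg ▸ hG) (netST_ne w 1) ⟨⟨y0.1, if_neg hy0⟩⟩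
  refine ⟨fE, fV, netST w, N, ⟨⟨w, hw, rfl⟩, fun _ => ⟨inferInstance, inferInstance⟩,
    ⟨h0, fun hS0 => ?_⟩, h1⟩, hg⟩
  obtain ⟨Y, d, hY, hlt⟩ := netS_lift hw h0 hS0
  rw [hg] at hY
  rw [hE] at hlt
  exact hlt.2 (hmin ⟨d, hY⟩ hlt.1)

end count

theorem netS_count {m n : ℕ} (G : Fin m × Bool → Bool ⊕ Fin n) :
    ∑ fE : Fin m → Fin 2, ∑ fV : Fin n → Option (Fin 2),
      ∑ t : Fin 2 × Bool → Bool ⊕ {v // fV v = none},
        ∑ N : ∀ i, {e // fE e = i} × Bool → Bool ⊕ {v // fV v = some i},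
          ind (netSOk t N) * ind (glueF fE fV t N = G) = ind (IsNet G ∧ IsS G) := by
  simp only [netS_ind_mul]
  by_cases h : IsNet G ∧ IsS G
  · obtain ⟨fE, fV, t, N, h1, rfl⟩ := netS_exists h.1 h.2
    rw [netS_ind_pos h, Fintype.sum_eq_single fE, Fintype.sum_eq_single fV,
      Fintype.sum_eq_single t, Fintype.sum_eq_single N, netS_ind_pos ⟨h1, rfl⟩]
    · exact fun N' hN => netS_ind_neg fun h2 => hN (netS_uniq' h2.1 h1 h2.2).2
    · exact fun t' ht => Finset.sum_eq_zero fun N' _ =>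
        netS_ind_neg fun h2 => ht (netS_uniq' h2.1 h1 h2.2).1
    · exact fun fV' hV => Finset.sum_eq_zero fun t' _ => Finset.sum_eq_zero fun N' _ =>
        netS_ind_neg fun h2 => hV (netS_uniq h2.1 h1 h2.2).2
    · exact fun fE' hE => Finset.sum_eq_zero fun fV' _ => Finset.sum_eq_zero fun t' _ =>
        Finset.sum_eq_zero fun N' _ => netS_ind_neg fun h2 => hE (netS_uniq h2.1 h1 h2.2).1
  · rw [netS_ind_neg h]
    exact Finset.sum_eq_zero fun fE _ => Finset.sum_eq_zero fun fV _ =>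
      Finset.sum_eq_zero fun t _ => Finset.sum_eq_zero fun N _ =>
        netS_ind_neg fun h2 => h (h2.2 ▸ netS_sound h2.1)

theorem netS_ok_imp {W W' : Type} {E V E' V' : Fin 2 → Type} (w : W ≃ W') (e : ∀ i, E i ≃ E' i)
    (v : ∀ i, V i ≃ V' i) (t : Fin 2 × Bool → Bool ⊕ W) (N : ∀ i, E i × Bool → Bool ⊕ V i)
    (N' : ∀ i, E' i × Bool → Bool ⊕ V' i)
    (h : ∀ i x, N' i (e i x.1, x.2) = (N i x).map id (v i)) :
    netSOk (fun x => (t x).map id w) N' ↔ netSOk t N := by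
  refine and_congr ⟨?_, ?_⟩ ?_
  · rintro ⟨c, h1, h2⟩
    refine ⟨w.symm c, fun c' => w.eq_symm_apply.2 (h1 _), funext fun x => ?_⟩
    have h3 := congrFun h2 x
    unfold netST at h3 ⊢
    generalize t x = a, tri x = b at h3
    rcases a with a | a <;> rcases b with b | b <;> cases h3
    · rfl
    · exact congrArg _ (w.symm_apply_apply a).symm
  · rintro ⟨c, h1, rfl⟩
    refine ⟨w c, fun c' => w.symm_apply_eq.1 (h1 _), funext fun x => ?_⟩
    unfold netST
    rcases tri x with b | b <;> rfl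
  · refine and_congr_left' (forall_congr' fun i => and_congr (e i).finite_iff.symm
      (v i).finite_iff.symm) |>.trans (and_congr_right fun hf => ?_)
    have := fun i => (hf i).1
    have := fun i => (hf i).2
    have u : ∀ i, ∃ u : DIso (E i) (E' i), ∀ x, N' i (u.1 x) = (N i x).map id (v i) := fun i =>
      ⟨⟨(e i).prodCongr (Equiv.refl _), fun _ => rfl⟩, h i⟩
    choose u hu using u
    rw [isNet_congr _ _ (hu 0), isNet_congr _ _ (hu 1), isS_congr _ _ (hu 0)]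

theorem net_S (Ψ : NFun) (hΨ : NInv Ψ) :
    ∑' G : NG, wt G.1 G.2.1 * ind (IsNet G.2.2 ∧ IsS G.2.2) * Ψ _ _ G.2.2 =
      ∑' N : Fin 2 → NG, (∏ i, wt (N i).1 (N i).2.1) *
        ind ((IsNet (N 0).2.2 ∧ ¬IsS (N 0).2.2) ∧ IsNet (N 1).2.2) *
          Ψ _ _ (glue tri fun i => (N i).2.2) := by
  have h := glue_LP (Fin 2) Ψ hΨ (fun _ _ _ t N => ind (netSOk t N))
    fun W W' E V E' V' w e v t N N' h => congrArg ind (propext (netS_ok_imp w e v t N N' h))
  refine (tsum_congr fun G => ?_).trans (h.symm.trans ?_)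
  · rw [mul_right_comm]
    congr 1
    rw [← netS_count G.2.2]
    refine Finset.sum_congr (by ext; simp) fun fE _ => ?_
    refine Finset.sum_congr (by ext; simp) fun fV _ => ?_
    refine Finset.sum_congr (by ext; simp) fun t _ => ?_
    exact Finset.sum_congr (by ext; simp) fun N _ => rfl
  rw [tsum_eq_single 1, Finset.sum_eq_single_of_mem (netST (0 : Fin 1)), Nat.factorial_one,
    Nat.cast_one, inv_one, one_mul]
  · refine tsum_congr fun N => ?_
    congr 1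
    · congr 2
      exact propext ⟨fun h => h.2.2, fun h => ⟨⟨0, fun _ => Subsingleton.elim _ _, rfl⟩,
        fun _ => ⟨inferInstance, inferInstance⟩, h⟩⟩
    · refine hΨ _ _ _ _ ⟨Equiv.refl _, fun _ => rfl⟩
        ((Equiv.ofUnique Unit (Fin 1)).sumCongr (Equiv.refl _)) _ _ ?_
      rintro ⟨⟨i, e⟩, b⟩
      unfold glue netST
      dsimp only [Equiv.refl_apply]
      rcases (N i).2.2 (e, b) with c | v
      · dsimp only [Sum.elim_inl]
        rcases tri (i, c) with d | w <;> rfl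
      · rfl
  · exact @Finset.mem_univ _ (_) _
  · intro t _ ht
    refine (tsum_congr fun N => ?_).trans tsum_zero
    rw [netS_ind_neg, mul_zero, zero_mul]
    rintro ⟨⟨w, -, rfl⟩, -⟩
    exact ht (congrArg netST (Subsingleton.elim _ _))
  · intro n hn
    rw [Finset.sum_eq_zero, mul_zero]
    intro t _
    refine (tsum_congr fun N => ?_).trans tsum_zero
    rw [netS_ind_neg, mul_zero, zero_mul]
    rintro ⟨⟨w, hw, -⟩, -⟩
    exact hn (by simpa using Fintype.card_eq_one_iff.2 ⟨w, hw⟩)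

end Pool.Agent.Lib.MP_77dff5_pr
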