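import Pool.Agent.Lib.MP_77dff5_pr.Net

/-! Boundaries of edge sets of a network; maximal proper 2-separated sets. -/

set_option autoImplicit false

namespace Pool.Agent.Lib.MP_77dff5_pr

open scoped Classical

/-- boundary of a set of non-root edges in the closure -/
def netTb {E V : Type} (G : E × Bool → Bool ⊕ V) (X : Set E) : Set (Bool ⊕ V) :=
  bd (clo G) (some '' X)

/-- maximal proper 2-separated set -/
def netTMax {E V : Type} (G : E × Bool → Bool ⊕ V) (X : Set E) : Prop :=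
  X.Nonempty ∧ (netTb G X).ncard ≤ 2 ∧ X ≠ Set.univ ∧
    ∀ Y : Set E, (netTb G Y).ncard ≤ 2 → Y ≠ Set.univ → X ⊆ Y → Y = X

section
variable {E V : Type} {G : E × Bool → Bool ⊕ V}

theorem netT_mem_b {X : Set E} {v : Bool ⊕ V} :
    v ∈ netTb G X ↔ (∃ e ∈ X, ∃ b, G (e, b) = v) ∧
      ((∃ b, v = Sum.inl b) ∨ ∃ e, e ∉ X ∧ ∃ b, G (e, b) = v) := by
  unfold netTb bd
  simp only [Set.mem_ofPred_eq]
  constructor
  · rintro ⟨⟨⟨o, b⟩, ⟨e, he, rfl⟩, h⟩, ⟨⟨o', b'⟩, h1, h2⟩⟩
    refine ⟨⟨e, he, b, h⟩, ?_⟩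
    cases o' with
    | none => exact Or.inl ⟨b', h2.symm⟩
    | some e' => exact Or.inr ⟨e', fun h' => h1 ⟨e', h', rfl⟩, b', h2⟩
  · rintro ⟨⟨e, he, b, h⟩, h'⟩
    refine ⟨⟨(some e, b), ⟨e, he, rfl⟩, h⟩, ?_⟩
    rcases h' with ⟨b', rfl⟩ | ⟨e', he', b', h'⟩
    · exact ⟨(none, b'), by simp, rfl⟩
    · exact ⟨(some e', b'), by simpa using he', h'⟩

theorem netT_bd_compl {E' V' : Type} (ν : E' × Bool → V') (X : Set E') : bd ν Xᶜ = bd ν X := by
  ext v
  simp only [bd, Set.mem_ofPred_eq, Set.mem_compl_iff, not_not]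
  exact and_comm

theorem netT_image_preimage {X : Set (Option E)} (h : none ∉ X) : some '' (some ⁻¹' X) = X := by
  ext o
  cases o with
  | none => simpa using h
  | some e => simp

theorem netT_two_le (hG : IsNet G) {X : Set E} (hX : X.Nonempty) : 2 ≤ (netTb G X).ncard :=
  hG.2.2 _ (hX.image _) ⟨none, by simp⟩

theorem netT_nonsep_of (h : ∀ X : Set E, X.Nonempty → 2 ≤ (netTb G X).ncard) :
    Nonsep (clo G) := by
  have key : ∀ X : Set (Option E), X.Nonempty → none ∉ X → 2 ≤ (bd (clo G) X).ncard := by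
    intro X hX hn
    rw [← netT_image_preimage hn]
    apply h
    obtain ⟨o, ho⟩ := hX
    cases o with
    | none => exact absurd ho hn
    | some e => exact ⟨e, ho⟩
  intro X hX hXc
  by_cases hn : none ∈ X
  · rw [← netT_bd_compl]
    exact key _ hXc (by simpa using hn)
  · exact key _ hX hn

theorem netT_core_le [Finite E] (h : Core3 G) {J : Set E} (h2 : 2 ≤ J.ncard)
    (hJ : J ≠ Set.univ) : 3 ≤ (netTb G J).ncard := by
  apply h.2.2
  · rwa [Set.ncard_image_of_injective _ (Option.some_injective _)]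
  · obtain ⟨k, hk⟩ := (Set.ne_univ_iff_exists_notMem _).1 hJ
    have : ({none, some k} : Set (Option E)) ⊆ (some '' J)ᶜ := by
      intro o ho
      rcases ho with rfl | rfl
      · simp
      · simpa using hk
    have h3 := Set.ncard_le_ncard this (Set.toFinite _)
    rwa [Set.ncard_pair (by simp)] at h3

theorem netT_core_of [Finite E]
    (h : ∀ J : Set E, 2 ≤ J.ncard → J ≠ Set.univ → 3 ≤ (netTb G J).ncard)
    (X : Set (Option E)) (h1 : 2 ≤ X.ncard) (h2 : 2 ≤ Xᶜ.ncard) : 3 ≤ (bd (clo G) X).ncard := by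
  have key : ∀ X : Set (Option E), 2 ≤ X.ncard → 2 ≤ Xᶜ.ncard → none ∉ X →
      3 ≤ (bd (clo G) X).ncard := by
    intro X h1 h2 hn
    rw [← netT_image_preimage hn]
    apply h
    · rw [← Set.ncard_image_of_injective _ (Option.some_injective _), netT_image_preimage hn]
      exact h1
    · intro hu
      have : Xᶜ ⊆ {none} := by
        intro o ho
        cases o with
        | none => rfl
        | some e =>
          have : e ∈ (some ⁻¹' X : Set E) := by rw [hu]; trivial
          exact absurd this ho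
      have h3 := Set.ncard_le_ncard this (Set.toFinite _)
      rw [Set.ncard_singleton] at h3
      omega
  by_cases hn : none ∈ X
  · rw [← netT_bd_compl]
    exact key _ h2 (by rwa [compl_compl]) (by simpa using hn)
  · exact key _ h1 h2 hn

theorem netT_pair_le {α : Type} (a b : α) : ({a, b} : Set α).ncard ≤ 2 :=
  (Set.ncard_insert_le _ _).trans (by rw [Set.ncard_singleton])

theorem netT_poles_card : (Set.range (Sum.inl : Bool → Bool ⊕ V)).ncard = 2 := by
  rw [Set.ncard_range_of_injective Sum.inl_injective]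
  simp

variable [Finite E] [Finite V]

theorem netT_pole (hG : IsNet G) (c : Bool) : ∃ e b, G (e, b) = Sum.inl c := by
  have h := hG.deg_pole c
  unfold deg at h
  have : Nonempty {x // G x = Sum.inl c} := by
    by_contra hn
    rw [not_nonempty_iff] at hn
    rw [Nat.card_of_isEmpty] at h
    omega
  obtain ⟨⟨⟨e, b⟩, hx⟩⟩ := this
  exact ⟨e, b, hx⟩

theorem netT_ends_ne (hG : IsNet G) (e : E) : G (e, true) ≠ G (e, false) :=
  hG.no_loop (some e, false)

theorem netT_union_le (hG : IsNet G) {X Y : Set E} (hX : (netTb G X).ncard ≤ 2)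
    (hY : (netTb G Y).ncard ≤ 2) (h : (X ∩ Y).Nonempty) : (netTb G (X ∪ Y)).ncard ≤ 2 := by
  have h1 := bd_submod (clo G) (some '' X) (some '' Y)
  rw [← Set.image_union, ← Set.image_inter (Option.some_injective _)] at h1
  have h2 := netT_two_le hG h
  unfold netTb at *
  omega

theorem netT_diff_le (hG : IsNet G) {X Y : Set E} (hX : (netTb G X).ncard ≤ 2)
    (hY : (netTb G Y).ncard ≤ 2) (h : (Y \ X).Nonempty) : (netTb G (X \ Y)).ncard ≤ 2 := by
  have h1 := bd_submod (clo G) (some '' X)ᶜ (some '' Y)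
  have e1 : (some '' X)ᶜ ∪ some '' Y = (some '' (X \ Y))ᶜ := by
    ext o
    cases o with
    | none => simp
    | some e => simp; tauto
  have e2 : (some '' X)ᶜ ∩ some '' Y = some '' (Y \ X) := by
    ext o
    cases o with
    | none => simp
    | some e => simp; tauto
  rw [e1, e2, netT_bd_compl, netT_bd_compl] at h1
  have h2 := netT_two_le hG h
  unfold netTb at *
  omega

omit [Finite E] in
theorem netT_single_le (e : E) : (netTb G {e}).ncard ≤ 2 := by
  have : netTb G {e} ⊆ {G (e, true), G (e, false)} := by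
    intro v hv
    obtain ⟨⟨e', he', b, rfl⟩, -⟩ := netT_mem_b.1 hv
    rw [Set.mem_singleton_iff.1 he']
    cases b <;> simp
  exact (Set.ncard_le_ncard this (Set.toFinite _)).trans (netT_pair_le _ _)

omit [Finite E] in
/-- a proper nonempty 2-separated set that touches both poles gives a parallel network -/
theorem netT_isP_of {X : Set E} (hX : (netTb G X).ncard ≤ 2) (hu : X ≠ Set.univ)
    (h : ∀ c, ∃ e ∈ X, ∃ b, G (e, b) = Sum.inl c) : IsP G := by
  obtain ⟨e, he, -⟩ := h true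
  refine ⟨X, ⟨e, he⟩, Set.nonempty_compl.2 hu, ?_⟩
  have h1 : Set.range (Sum.inl : Bool → Bool ⊕ V) ⊆ netTb G X := by
    rintro _ ⟨c, rfl⟩
    exact netT_mem_b.2 ⟨h c, Or.inl ⟨c, rfl⟩⟩
  have h2 := Set.eq_of_subset_of_ncard_le h1 (by rw [netT_poles_card]; exact hX)
  exact h2.symm.subset

theorem netT_cover (hG : IsNet G) (hT : IsT G) {X Y : Set E} (hX : (netTb G X).ncard ≤ 2)
    (hY : (netTb G Y).ncard ≤ 2) (hXu : X ≠ Set.univ) (hYu : Y ≠ Set.univ) :
    X ∪ Y ≠ Set.univ := by
  intro hu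
  have hmem : ∀ e, e ∈ X ∨ e ∈ Y := fun e => by
    have : e ∈ X ∪ Y := by rw [hu]; trivial
    exact this
  have h1 : ∃ c, ∀ e ∈ X, ∀ b, G (e, b) ≠ Sum.inl c := by
    by_contra hc
    push Not at hc
    exact hT.2.1 (netT_isP_of hX hXu hc)
  have h2 : ∃ c, ∀ e ∈ Y, ∀ b, G (e, b) ≠ Sum.inl c := by
    by_contra hc
    push Not at hc
    exact hT.2.1 (netT_isP_of hY hYu hc)
  obtain ⟨c, hc⟩ := h1
  obtain ⟨d, hd⟩ := h2
  have hcd : c ≠ d := by
    rintro rfl
    obtain ⟨e, b, h⟩ := netT_pole hG c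
    rcases hmem e with he | he
    · exact hc e he b h
    · exact hd e he b h
  apply hT.2.2
  cases c <;> cases d
  · exact absurd rfl hcd
  · refine ⟨X, fun x hx => ?_, fun x hx hxX => hc x.1 hxX x.2 hx, hX⟩
    rcases hmem x.1 with he | he
    · exact he
    · exact absurd hx (hd x.1 he x.2)
  · refine ⟨Y, fun x hx => ?_, fun x hx hxX => hd x.1 hxX x.2 hx, hY⟩
    rcases hmem x.1 with he | he
    · exact absurd hx (hc x.1 he x.2)
    · exact he
  · exact absurd rfl hcd

theorem netT_max_unique (hG : IsNet G) (hT : IsT G) {X Y : Set E} (hX : netTMax G X)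
    (hY : netTMax G Y) (h : (X ∩ Y).Nonempty) : X = Y := by
  have h1 := netT_union_le hG hX.2.1 hY.2.1 h
  have h2 := netT_cover hG hT hX.2.1 hY.2.1 hX.2.2.1 hY.2.2.1
  rw [← hX.2.2.2 _ h1 h2 Set.subset_union_left, hY.2.2.2 _ h1 h2 Set.subset_union_right]

theorem netT_max_exists (hT : IsT G) (e : E) : ∃ X, netTMax G X ∧ e ∈ X := by
  have hne : ({e} : Set E) ≠ Set.univ := by
    intro hu
    apply hT.1
    unfold IsE
    rw [← Set.ncard_univ, ← hu, Set.ncard_singleton]
  obtain ⟨X, hX, hmax⟩ := Set.Finite.exists_le_maximal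
    (s := {Y : Set E | (netTb G Y).ncard ≤ 2 ∧ Y ≠ Set.univ}) (Set.toFinite _)
    (a := {e}) ⟨netT_single_le e, hne⟩
  have heX : e ∈ X := hX rfl
  refine ⟨X, ⟨⟨e, heX⟩, hmax.1.1, hmax.1.2, fun Y h1 h2 h3 => ?_⟩, heX⟩
  exact Set.Subset.antisymm (hmax.2 ⟨h1, h2⟩ h3) h3

/-- rounding a 2-separated set to a union of parts -/
theorem netT_round {I : Type} [Finite I] (hG : IsNet G) (fE : E → I)
    (hF : ∀ i, (netTb G (fE ⁻¹' {i})).ncard ≤ 2) {X : Set E} (hX : (netTb G X).ncard ≤ 2)
    (J : Set I) (h1 : ∀ i ∈ J, ∃ e ∈ X, fE e = i) (h2 : ∀ i, i ∉ J → ∃ e, e ∉ X ∧ fE e = i) :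
    (netTb G (fE ⁻¹' J)).ncard ≤ 2 := by
  have key : ∀ S : Finset I,
      (netTb G {e | (fE e ∈ S ∧ fE e ∈ J) ∨ (fE e ∉ S ∧ e ∈ X)}).ncard ≤ 2 := by
    intro S
    induction S using Finset.induction_on with
    | empty => simpa using hX
    | insert k S hk ih =>
      by_cases hkJ : k ∈ J
      · obtain ⟨e, he, rfl⟩ := h1 k hkJ
        have := netT_union_le hG ih (hF (fE e)) ⟨e, Or.inr ⟨hk, he⟩, rfl⟩
        refine le_of_eq_of_le ?_ this
        congr 2
        ext e'
        simp only [Finset.mem_insert, Set.mem_ofPred_eq, Set.mem_union, Set.mem_preimage,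
          Set.mem_singleton_iff]
        by_cases h : fE e' = fE e
        · simp [h, hkJ]
        · simp [h]
      · obtain ⟨e, he, rfl⟩ := h2 k hkJ
        have := netT_diff_le hG ih (hF (fE e)) ⟨e, rfl, by simp [hk, he]⟩
        refine le_of_eq_of_le ?_ this
        congr 2
        ext e'
        simp only [Finset.mem_insert, Set.mem_ofPred_eq, Set.mem_sdiff, Set.mem_preimage,
          Set.mem_singleton_iff]
        by_cases h : fE e' = fE e
        · simp [h, hkJ]
        · simp [h]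
  have := Fintype.ofFinite I
  have h := key Finset.univ
  refine le_of_eq_of_le ?_ h
  congr 2
  ext e
  simp

end

end Pool.Agent.Lib.MP_77dff5_pr
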