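import Pool.Agent.Lib.MP_77dff5_pr.NetTAux1

/-! Decompositions of a network along a core, on fixed labels. -/

set_option autoImplicit false

namespace Pool.Agent.Lib.MP_77dff5_pr

open scoped Classical

section
variable {I E V : Type} {fE : E → I} {fV : V → Option I}

/-- vertices of a part, seen in the glued network -/
def netTtau (t : I × Bool → Bool ⊕ {v // fV v = none}) (i : I) :
    Bool ⊕ {v // fV v = some i} → Bool ⊕ V :=
  Sum.elim (fun c => (t (i, c)).map id Subtype.val) fun v => Sum.inr v.1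

variable {t : I × Bool → Bool ⊕ {v // fV v = none}}
  {N : ∀ i, {e // fE e = i} × Bool → Bool ⊕ {v // fV v = some i}}

theorem netT_glueF_apply {i : I} (e : {e // fE e = i}) (b : Bool) :
    glueF fE fV t N (e.1, b) = netTtau t i (N i (e, b)) := by
  obtain ⟨e, rfl⟩ := e
  rfl

theorem netT_val_inj {p : V → Prop} :
    Function.Injective (Sum.map id Subtype.val : Bool ⊕ {v // p v} → Bool ⊕ V) :=
  Function.Injective.sumMap Function.injective_id Subtype.val_injective

theorem netT_core_ne {i : I} (y : Bool ⊕ {v // fV v = none}) (w : {v // fV v = some i}) :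
    y.map id Subtype.val ≠ Sum.inr w.1 := by
  intro h
  cases y with
  | inl c => simp at h
  | inr v =>
    have h1 : v.1 = w.1 := by simpa using h
    have h2 := v.2
    rw [h1, w.2] at h2
    simp at h2

theorem netT_tau_inj {i : I} (h : t (i, true) ≠ t (i, false)) :
    Function.Injective (netTtau t i) := by
  intro x y hxy
  cases x with
  | inl c =>
    cases y with
    | inl d =>
      have h1 : t (i, c) = t (i, d) := netT_val_inj hxy
      cases c <;> cases d
      · rfl
      · exact absurd h1.symm h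
      · exact absurd h1 h
      · rfl
    | inr w => exact absurd hxy (netT_core_ne _ _)
  | inr v =>
    cases y with
    | inl d => exact absurd hxy.symm (netT_core_ne _ _)
    | inr w =>
      have h1 : v.1 = w.1 := by simpa [netTtau] using hxy
      rw [Subtype.ext h1]

/-- an inner vertex of part `i` is met only by edges of part `i` -/
theorem netT_inner {i : I} {e : E} {b : Bool} {w : {v // fV v = some i}}
    (h : glueF fE fV t N (e, b) = Sum.inr w.1) :
    ∃ he : fE e = i, N i (⟨e, he⟩, b) = Sum.inr w := by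
  have h1 := netT_glueF_apply (t := t) (N := N) (⟨e, rfl⟩ : {e' // fE e' = fE e}) b
  rw [h] at h1
  cases hN : N (fE e) (⟨e, rfl⟩, b) with
  | inl c =>
    rw [hN] at h1
    exact absurd h1.symm (netT_core_ne _ _)
  | inr v =>
    rw [hN] at h1
    have h2 : w.1 = v.1 := by simpa [netTtau] using h1
    have h3 : fE e = i := by
      have h4 := w.2
      rw [h2, v.2] at h4
      exact Option.some_injective _ h4
    subst h3
    exact ⟨rfl, by rw [hN, Subtype.ext h2]⟩

/-- a core vertex met by an edge is an end of the core edge -/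
theorem netT_outer {e : E} {b : Bool} {y : Bool ⊕ {v // fV v = none}}
    (h : glueF fE fV t N (e, b) = y.map id Subtype.val) : ∃ c, t (fE e, c) = y := by
  have h1 := netT_glueF_apply (t := t) (N := N) (⟨e, rfl⟩ : {e' // fE e' = fE e}) b
  rw [h] at h1
  cases hN : N (fE e) (⟨e, rfl⟩, b) with
  | inl c =>
    rw [hN] at h1
    exact ⟨c, (netT_val_inj h1).symm⟩
  | inr v =>
    rw [hN] at h1
    exact absurd h1 (netT_core_ne _ _)

theorem netT_vertex_cases (x : Bool ⊕ V) :
    (∃ y : Bool ⊕ {v // fV v = none}, x = y.map id Subtype.val) ∨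
      ∃ i, ∃ w : {v // fV v = some i}, x = Sum.inr w.1 := by
  cases x with
  | inl c => exact Or.inl ⟨Sum.inl c, rfl⟩
  | inr v =>
    cases h : fV v with
    | none => exact Or.inl ⟨Sum.inr ⟨v, h⟩, rfl⟩
    | some i => exact Or.inr ⟨i, ⟨v, h⟩, rfl⟩

theorem netT_b_sub_core (J : Set I) :
    netTb (glueF fE fV t N) (fE ⁻¹' J) ⊆ Sum.map id Subtype.val '' netTb t J := by
  intro x hx
  obtain ⟨⟨e, he, b, h1⟩, h2⟩ := netT_mem_b.1 hx
  rcases netT_vertex_cases (fV := fV) x with ⟨y, rfl⟩ | ⟨i, w, rfl⟩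
  · refine ⟨y, netT_mem_b.2 ⟨⟨fE e, he, netT_outer h1⟩, ?_⟩, rfl⟩
    rcases h2 with ⟨c, hc⟩ | ⟨e', he', b', h2⟩
    · exact Or.inl ⟨c, netT_val_inj hc⟩
    · exact Or.inr ⟨fE e', he', netT_outer h2⟩
  · exfalso
    rcases h2 with ⟨c, hc⟩ | ⟨e', he', b', h2⟩
    · simp at hc
    · obtain ⟨h3, -⟩ := netT_inner h1
      obtain ⟨h4, -⟩ := netT_inner h2
      apply he'
      show fE e' ∈ J
      rw [h4, ← h3]
      exact he

theorem netT_b_sub_part {i : I} (X : Set {e // fE e = i}) :
    netTb (glueF fE fV t N) (Subtype.val '' X) ⊆ netTtau t i '' netTb (N i) X := by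
  intro x hx
  obtain ⟨⟨_, ⟨e, he, rfl⟩, b, h1⟩, h2⟩ := netT_mem_b.1 hx
  have h3 := netT_glueF_apply (t := t) (N := N) e b
  refine ⟨N i (e, b), netT_mem_b.2 ⟨⟨e, he, b, rfl⟩, ?_⟩, by rw [← h3, h1]⟩
  cases hN : N i (e, b) with
  | inl c => exact Or.inl ⟨c, rfl⟩
  | inr w =>
    rw [hN, h1] at h3
    right
    rcases h2 with ⟨c, hc⟩ | ⟨e', he', b', h2⟩
    · rw [h3] at hc
      simp [netTtau] at hc
    · rw [h3] at h2
      obtain ⟨h4, h5⟩ := netT_inner h2
      exact ⟨⟨e', h4⟩, fun h => he' ⟨_, h, rfl⟩, b', h5⟩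

theorem netT_b_fibre_sub (i : I) : netTb (glueF fE fV t N) (fE ⁻¹' {i}) ⊆
    Set.range fun c => (t (i, c)).map id Subtype.val := by
  intro x hx
  obtain ⟨y, hy, rfl⟩ := netT_b_sub_core {i} hx
  obtain ⟨⟨j, hj, c, rfl⟩, -⟩ := netT_mem_b.1 hy
  rw [Set.mem_singleton_iff.1 hj]
  exact ⟨c, rfl⟩

theorem netT_range_bool_le {α : Type} (p : Bool → α) : (Set.range p).ncard ≤ 2 := by
  have : Set.range p = {p true, p false} := by
    ext x
    simp [or_comm]
  rw [this]
  exact netT_pair_le _ _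

variable [Finite E] [Finite V]

theorem netT_touch (hN : ∀ i, IsNet (N i)) (i : I) (c : Bool) :
    ∃ e b, fE e = i ∧ glueF fE fV t N (e, b) = (t (i, c)).map id Subtype.val := by
  obtain ⟨e, b, h⟩ := netT_pole (hN i) c
  exact ⟨e.1, b, e.2, by rw [netT_glueF_apply, h]; rfl⟩

theorem netT_core_sub_b (hN : ∀ i, IsNet (N i)) (J : Set I) :
    Sum.map id Subtype.val '' netTb t J ⊆ netTb (glueF fE fV t N) (fE ⁻¹' J) := by
  rintro _ ⟨y, hy, rfl⟩
  obtain ⟨⟨j, hj, c, h1⟩, h2⟩ := netT_mem_b.1 hy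
  refine netT_mem_b.2 ⟨?_, ?_⟩
  · obtain ⟨e, b, he, h⟩ := netT_touch (t := t) hN j c
    exact ⟨e, by rw [Set.mem_preimage, he]; exact hj, b, by rw [h, h1]⟩
  · rcases h2 with ⟨d, rfl⟩ | ⟨k, hk, d, h2⟩
    · exact Or.inl ⟨d, rfl⟩
    · obtain ⟨e, b, he, h⟩ := netT_touch (t := t) hN k d
      exact Or.inr ⟨e, by rw [Set.mem_preimage, he]; exact hk, b, by rw [h, h2]⟩

theorem netT_isNet_glueF [Finite I] (ht : IsNet t) (hN : ∀ i, IsNet (N i)) :
    IsNet (glueF fE fV t N) := by
  let u : DIso (Σ i, {e // fE e = i}) E :=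
    ⟨Equiv.prodCongr (Equiv.sigmaFiberEquiv fE) (Equiv.refl Bool), fun _ => rfl⟩
  let f : {v // fV v = none} ⊕ (Σ i, {v // fV v = some i}) → V :=
    Sum.elim Subtype.val fun w => w.2.1
  have hf : Function.Bijective f := by
    constructor
    · rintro (v | ⟨i, v⟩) (w | ⟨j, w⟩) h
      · rw [Subtype.ext (show v.1 = w.1 from h)]
      · have h1 : v.1 = w.1 := h
        have h2 := v.2
        rw [h1, w.2] at h2
        simp at h2
      · have h1 : v.1 = w.1 := h
        have h2 := v.2
        rw [h1, w.2] at h2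
        simp at h2
      · have h1 : v.1 = w.1 := h
        have h2 := v.2
        rw [h1, w.2] at h2
        obtain rfl := Option.some_injective _ h2
        rw [Subtype.ext h1]
    · intro v
      cases h : fV v with
      | none => exact ⟨Sum.inl ⟨v, h⟩, rfl⟩
      | some i => exact ⟨Sum.inr ⟨i, ⟨v, h⟩⟩, rfl⟩
  refine (isNet_congr u (Equiv.ofBijective f hf) ?_).2 (isNet_glue ht hN)
  rintro ⟨⟨i, e⟩, b⟩
  show glueF fE fV t N (e.1, b) = _
  rw [netT_glueF_apply]
  unfold glue
  dsimp only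
  cases N i (e, b) with
  | inl c =>
    show (t (i, c)).map id Subtype.val = ((t (i, c)).map id Sum.inl).map id f
    cases t (i, c) <;> rfl
  | inr w => rfl

end

end Pool.Agent.Lib.MP_77dff5_pr
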