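import Pool.Agent.Lib.MP_77dff5_pr.NetTAux2

/-! The parts of a decomposition along a 3-connected core are the maximal proper 2-separated
sets. -/

set_option autoImplicit false

namespace Pool.Agent.Lib.MP_77dff5_pr

open scoped Classical

section
variable {I E V : Type} [Finite I] [Finite E] [Finite V] {fE : E → I} {fV : V → Option I}
  {t : I × Bool → Bool ⊕ {v // fV v = none}}
  {N : ∀ i, {e // fE e = i} × Bool → Bool ⊕ {v // fV v = some i}}

omit [Finite I] [Finite E] [Finite V] in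
theorem netT_fE_surj (hN : ∀ i, IsNet (N i)) (i : I) : ∃ e, fE e = i := by
  obtain ⟨e⟩ := (hN i).1
  exact ⟨e.1, e.2⟩

omit [Finite I] [Finite E] [Finite V] in
theorem netT_fibre_le (i : I) : (netTb (glueF fE fV t N) (fE ⁻¹' {i})).ncard ≤ 2 :=
  (Set.ncard_le_ncard (netT_b_fibre_sub i) (Set.toFinite _)).trans (netT_range_bool_le _)

theorem netT_union_three (ht : Core3 t) (hN : ∀ i, IsNet (N i)) {J : Set I} (h2 : 2 ≤ J.ncard)
    (hJ : J ≠ Set.univ) : 3 ≤ (netTb (glueF fE fV t N) (fE ⁻¹' J)).ncard := by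
  have h1 := netT_core_le ht h2 hJ
  rw [← Set.ncard_image_of_injective _ netT_val_inj] at h1
  exact h1.trans (Set.ncard_le_ncard (netT_core_sub_b hN J) (Set.toFinite _))

omit [Finite E] [Finite V] in
theorem netT_third (h : 3 ≤ Nat.card I) (i j : I) : ∃ k, k ≠ i ∧ k ≠ j := by
  by_contra hc
  push Not at hc
  have : (Set.univ : Set I) ⊆ {i, j} := by
    intro k _
    by_cases hk : k = i
    · exact Or.inl hk
    · exact Or.inr (hc k hk)
  have h1 := (Set.ncard_le_ncard this (Set.toFinite _)).trans (netT_pair_le i j)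
  rw [Set.ncard_univ] at h1
  omega

/-- a proper 2-separated set lies in one part -/
theorem netT_sub_part (ht : Core3 t) (hN : ∀ i, IsNet (N i)) {X : Set E}
    (hX : (netTb (glueF fE fV t N) X).ncard ≤ 2) (hu : X ≠ Set.univ) :
    ∃ i, X ⊆ fE ⁻¹' {i} := by
  have hG : IsNet (glueF fE fV t N) := netT_isNet_glueF ht.1 hN
  by_contra hc
  push Not at hc
  obtain ⟨i₀⟩ := ht.1.1
  obtain ⟨e₁, he₁, -⟩ := Set.not_subset.1 (hc i₀)
  obtain ⟨e₂, he₂, hne⟩ := Set.not_subset.1 (hc (fE e₁))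
  have hne' : fE e₂ ≠ fE e₁ := hne
  have hall : fE '' X = Set.univ := by
    by_contra hne2
    have h1 := netT_round hG fE netT_fibre_le hX (fE '' X) (fun i hi => hi) (fun i hi => by
      obtain ⟨e, he⟩ := netT_fE_surj hN i
      exact ⟨e, fun h => hi ⟨e, h, he⟩, he⟩)
    have h2 : 2 ≤ (fE '' X).ncard := by
      have : ({fE e₂, fE e₁} : Set I) ⊆ fE '' X := by
        rintro i (rfl | rfl)
        · exact ⟨e₂, he₂, rfl⟩
        · exact ⟨e₁, he₁, rfl⟩
      have h3 := Set.ncard_le_ncard this (Set.toFinite _)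
      rwa [Set.ncard_pair hne'] at h3
    have h3 := netT_union_three ht hN h2 hne2
    omega
  obtain ⟨e₀, he₀⟩ := (Set.ne_univ_iff_exists_notMem _).1 hu
  have h1 := netT_round hG fE netT_fibre_le hX {fE e₀}ᶜ (fun i _ => by
    have : i ∈ fE '' X := by rw [hall]; trivial
    exact this) (fun i hi => ⟨e₀, he₀, by simpa [eq_comm] using hi⟩)
  have h2 : 2 ≤ ({fE e₀}ᶜ : Set I).ncard := by
    obtain ⟨k, hk, -⟩ := netT_third ht.2.1 (fE e₀) (fE e₀)
    obtain ⟨l, hl, hl'⟩ := netT_third ht.2.1 (fE e₀) k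
    have : ({l, k} : Set I) ⊆ {fE e₀}ᶜ := by
      rintro i (rfl | rfl)
      · exact hl
      · exact hk
    have h3 := Set.ncard_le_ncard this (Set.toFinite _)
    rwa [Set.ncard_pair hl'] at h3
  have h3 := netT_union_three ht hN h2 (by
    intro h
    have : fE e₀ ∈ ({fE e₀}ᶜ : Set I) := by rw [h]; trivial
    exact this rfl)
  omega

theorem netT_fibre_max (ht : Core3 t) (hN : ∀ i, IsNet (N i)) (i : I) :
    netTMax (glueF fE fV t N) (fE ⁻¹' {i}) := by
  obtain ⟨e, he⟩ := netT_fE_surj hN i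
  refine ⟨⟨e, he⟩, netT_fibre_le i, ?_, fun Y h1 h2 h3 => ?_⟩
  · intro hu
    obtain ⟨k, hk, -⟩ := netT_third ht.2.1 i i
    obtain ⟨e', he'⟩ := netT_fE_surj hN k
    have : e' ∈ fE ⁻¹' {i} := by rw [hu]; trivial
    exact hk (he'.symm.trans this)
  · obtain ⟨j, hj⟩ := netT_sub_part ht hN h1 h2
    have : fE e = j := hj (h3 he)
    rw [he] at this
    subst this
    exact Set.Subset.antisymm hj h3

theorem netT_not_two (ht : Core3 t) (hN : ∀ i, IsNet (N i)) {X : Set E}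
    (hX : (netTb (glueF fE fV t N) X).ncard ≤ 2) (hX' : (netTb (glueF fE fV t N) Xᶜ).ncard ≤ 2)
    (h1 : X.Nonempty) (h2 : Xᶜ.Nonempty) : False := by
  obtain ⟨i, hi⟩ := netT_sub_part ht hN hX (Set.nonempty_compl.1 h2)
  obtain ⟨j, hj⟩ := netT_sub_part ht hN hX' (Set.compl_ne_univ.2 h1)
  obtain ⟨k, hki, hkj⟩ := netT_third ht.2.1 i j
  obtain ⟨e, he⟩ := netT_fE_surj hN k
  by_cases h : e ∈ X
  · exact hki (he.symm.trans (hi h))
  · exact hkj (he.symm.trans (hj h))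

theorem netT_isT_glueF (ht : Core3 t) (hN : ∀ i, IsNet (N i)) : IsT (glueF fE fV t N) := by
  have hG : IsNet (glueF fE fV t N) := netT_isNet_glueF ht.1 hN
  refine ⟨fun h => ?_, fun h => ?_, fun h => ?_⟩
  · have h1 := Nat.card_le_card_of_surjective fE (netT_fE_surj hN)
    have h2 := ht.2.1
    unfold IsE at h
    omega
  · obtain ⟨X, h1, h2, h3⟩ := h
    refine netT_not_two ht hN ?_ ?_ h1 h2
    · exact (Set.ncard_le_ncard h3 (Set.toFinite _)).trans netT_poles_card.le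
    · refine (Set.ncard_le_ncard (fun x hx => ?_) (Set.toFinite _)).trans netT_poles_card.le
      obtain ⟨⟨e, he, hx1⟩, ⟨c, rfl⟩ | ⟨e', he', hx2⟩⟩ := netT_mem_b.1 hx
      · exact ⟨c, rfl⟩
      · exact h3 (netT_mem_b.2 ⟨⟨e', not_not.1 he', hx2⟩, Or.inr ⟨e, he, hx1⟩⟩)
  · obtain ⟨X, h1, h2, h3⟩ := h
    obtain ⟨e₁, b₁, he₁⟩ := netT_pole hG true
    obtain ⟨e₂, b₂, he₂⟩ := netT_pole hG false
    refine netT_not_two ht hN h3 ?_ ⟨e₁, h1 _ he₁⟩ ⟨e₂, h2 _ he₂⟩
    have hmem : Sum.inl true ∈ netTb (glueF fE fV t N) X :=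
      netT_mem_b.2 ⟨⟨e₁, h1 _ he₁, b₁, he₁⟩, Or.inl ⟨true, rfl⟩⟩
    have hsub : netTb (glueF fE fV t N) Xᶜ ⊆
        insert (Sum.inl false) (netTb (glueF fE fV t N) X \ {Sum.inl true}) := by
      intro x hx
      obtain ⟨⟨e, he, b, hx1⟩, hx2⟩ := netT_mem_b.1 hx
      have hxt : x ≠ Sum.inl true := fun h => he (h1 (e, b) (hx1.trans h))
      rcases hx2 with ⟨c, rfl⟩ | ⟨e', he', hx2⟩
      · cases c
        · exact Or.inl rfl
        · exact absurd rfl hxt
      · exact Or.inr ⟨netT_mem_b.2 ⟨⟨e', not_not.1 he', hx2⟩, Or.inr ⟨e, he, b, hx1⟩⟩, hxt⟩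
    have h4 := (Set.ncard_le_ncard hsub (Set.toFinite _)).trans (Set.ncard_insert_le _ _)
    have h5 := Set.ncard_sdiff_singleton_add_one hmem (Set.toFinite _)
    unfold netTb at *
    omega

/-- converse: a decomposition whose parts are maximal has a 3-connected core -/
theorem netT_good_of (hG : IsNet (glueF fE fV t N)) (hT : IsT (glueF fE fV t N))
    (hmax : ∀ i, netTMax (glueF fE fV t N) (fE ⁻¹' {i}))
    (hsurj : ∀ w : {v // fV v = none}, ∃ x, t x = Sum.inr w) :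
    Core3 t ∧ ∀ i, IsNet (N i) := by
  have hle : ∀ J : Set I,
      (netTb (glueF fE fV t N) (fE ⁻¹' J)).ncard ≤ (netTb t J).ncard := fun J =>
    (Set.ncard_le_ncard (netT_b_sub_core J) (Set.toFinite _)).trans
      (Set.ncard_image_le (Set.toFinite _))
  have hs : ∀ i, ∃ e, fE e = i := fun i => (hmax i).1
  refine ⟨⟨⟨?_, ?_, ?_⟩, ?_, ?_⟩, fun i => ⟨?_, ?_, ?_⟩⟩
  · obtain ⟨e⟩ := hG.1
    exact ⟨fE e⟩
  · rintro (c | w)
    · exact ⟨(none, c), rfl⟩
    · obtain ⟨⟨i, c⟩, h⟩ := hsurj w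
      exact ⟨(some i, c), h⟩
  · refine netT_nonsep_of fun J ⟨j, hj⟩ => (netT_two_le hG ?_).trans (hle J)
    obtain ⟨e, rfl⟩ := hs j
    exact ⟨e, hj⟩
  · by_contra hc
    obtain ⟨e⟩ := hG.1
    obtain ⟨e', he'⟩ := (Set.ne_univ_iff_exists_notMem _).1 (hmax (fE e)).2.2.1
    have hne : fE e' ≠ fE e := he'
    apply netT_cover hG hT (hmax (fE e)).2.1 (hmax (fE e')).2.1 (hmax _).2.2.1 (hmax _).2.2.1
    rw [Set.eq_univ_iff_forall]
    intro e''
    by_contra h
    have h1 : fE e'' ≠ fE e := fun h' => h (Or.inl h')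
    have h2 : fE e'' ≠ fE e' := fun h' => h (Or.inr h')
    have h3 : ({fE e'', fE e', fE e} : Set I).ncard = 3 :=
      Set.ncard_eq_three.2 ⟨_, _, _, h2, h1, hne, rfl⟩
    have h4 := Set.ncard_le_ncard (Set.subset_univ ({fE e'', fE e', fE e} : Set I))
      (Set.toFinite _)
    rw [Set.ncard_univ] at h4
    omega
  · refine netT_core_of fun J h2 hJ => le_trans ?_ (hle J)
    by_contra hc
    obtain ⟨i, hi, j, hj, hij⟩ := (Set.one_lt_ncard (Set.toFinite J)).1 h2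
    obtain ⟨k, hk⟩ := (Set.ne_univ_iff_exists_notMem _).1 hJ
    obtain ⟨e, rfl⟩ := hs k
    obtain ⟨e', rfl⟩ := hs j
    have h3 := (hmax i).2.2.2 (fE ⁻¹' J) (by omega)
      ((Set.ne_univ_iff_exists_notMem _).2 ⟨e, hk⟩)
      (Set.preimage_mono (Set.singleton_subset_iff.2 hi))
    have h4 : e' ∈ fE ⁻¹' {i} := by rw [← h3]; exact hj
    exact hij h4.symm
  · obtain ⟨e, he⟩ := hs i
    exact ⟨⟨e, he⟩⟩
  · rintro (c | w)
    · exact ⟨(none, c), rfl⟩
    · obtain ⟨⟨o, b⟩, h⟩ := hG.2.1 (Sum.inr w.1)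
      cases o with
      | none => simp [clo] at h
      | some e =>
        obtain ⟨he, h1⟩ := netT_inner (show glueF fE fV t N (e, b) = Sum.inr w.1 from h)
        exact ⟨(some ⟨e, he⟩, b), h1⟩
  · refine netT_nonsep_of fun X hX => (netT_two_le hG (hX.image Subtype.val)).trans ?_
    exact (Set.ncard_le_ncard (netT_b_sub_part X) (Set.toFinite _)).trans
      (Set.ncard_image_le (Set.toFinite _))

end

end Pool.Agent.Lib.MP_77dff5_pr
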