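import Pool.Agent.Lib.MP_77dff5_pr.PairR
import Pool.Agent.Lib.MP_77dff5_pr.ABase

/-! Law of large numbers for pair counts of maps with a given number of faces. -/

set_option autoImplicit false

namespace Pool.Agent.Lib.MP_77dff5_pr

open MeasureTheory ProbabilityTheory Filter Topology
open scoped ENNReal NNReal

/-- weighted sum of the positive part -/
noncomputable def pairA_L {T : Type} (M : T → ℝ≥0∞) (h : T → ℝ) : ℝ≥0∞ :=
  ∑' t, M t * ENNReal.ofReal (h t)

theorem pairA_mono {T : Type} (M : T → ℝ≥0∞) {h h' : T → ℝ} (H : ∀ t, h t ≤ h' t) :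
    pairA_L M h ≤ pairA_L M h' :=
  ENNReal.tsum_le_tsum fun t => mul_le_mul_right (ENNReal.ofReal_le_ofReal (H t)) _

theorem pairA_sub {T : Type} (M : T → ℝ≥0∞) {h h₁ h₂ : T → ℝ} (H : ∀ t, h t ≤ h₁ t + h₂ t) :
    pairA_L M h ≤ pairA_L M h₁ + pairA_L M h₂ := by
  unfold pairA_L
  rw [← ENNReal.tsum_add]
  refine ENNReal.tsum_le_tsum fun t => ?_
  rw [← mul_add]
  exact mul_le_mul_right ((ENNReal.ofReal_le_ofReal (H t)).trans ENNReal.ofReal_add_le) _

theorem pairA_sup {T : Type} (M : T → ℝ≥0∞) {h h₁ h₂ : T → ℝ} (p1 : ∀ t, 0 ≤ h₁ t)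
    (p2 : ∀ t, 0 ≤ h₂ t) (H : ∀ t, h₁ t + h₂ t ≤ h t) :
    pairA_L M h₁ + pairA_L M h₂ ≤ pairA_L M h := by
  unfold pairA_L
  rw [← ENNReal.tsum_add]
  refine ENNReal.tsum_le_tsum fun t => ?_
  rw [← mul_add, ← ENNReal.ofReal_add (p1 t) (p2 t)]
  exact mul_le_mul_right (ENNReal.ofReal_le_ofReal (H t)) _

theorem pairA_smul {T : Type} (M : T → ℝ≥0∞) (h : T → ℝ) {r : ℝ} (hr : 0 ≤ r) :
    pairA_L M (fun t => r * h t) = ENNReal.ofReal r * pairA_L M h := by
  unfold pairA_L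
  rw [← ENNReal.tsum_mul_left]
  refine tsum_congr fun t => ?_
  rw [ENNReal.ofReal_mul hr, mul_left_comm]

/-- truncation to the unit interval -/
noncomputable def pairA_cl (u : ℝ) : ℝ := min 1 (max 0 u)

theorem pairA_cl_nonneg (u : ℝ) : 0 ≤ pairA_cl u := le_min zero_le_one (le_max_left _ _)

theorem pairA_cl_le (u : ℝ) : pairA_cl u ≤ 1 := min_le_left _ _

theorem pairA_cl_lip {u v r : ℝ} (hr : 0 ≤ r) (h : u ≤ v + r) : pairA_cl u ≤ pairA_cl v + r := by
  unfold pairA_cl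
  simp only [min_def, max_def]
  split_ifs <;> linarith

theorem pairA_cl_one {u : ℝ} (h : 1 ≤ u) : pairA_cl u = 1 :=
  min_eq_left (h.trans (le_max_right _ _))

theorem pairA_cl_mul {η v : ℝ} (hη : 0 < η) : 0 ≤ v * pairA_cl (v / η) := by
  rcases le_total 0 v with h | h
  · exact mul_nonneg h (pairA_cl_nonneg _)
  · have : pairA_cl (v / η) = 0 := by
      rw [pairA_cl, max_eq_left (div_nonpos_of_nonpos_of_nonneg h hη.le), min_eq_right zero_le_one]
    rw [this, mul_zero]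

/-- concentration from an approximate size-bias identity -/
theorem pairA_core {T : Type} (M : T → ℝ≥0∞) (X : T → ℕ) (N : T → ℝ) (c : ℕ) {a η s : ℝ}
    (hN : ∀ t, 0 ≤ N t) (ha : 0 ≤ a) (hη : 0 < η) (hs0 : 0 ≤ s) (hs1 : s ≤ 1)
    (hfin : pairA_L M (fun _ => a) ≠ ⊤)
    (H1 : ∀ φ φ' : ℕ → ℝ, (∀ p q : ℕ, p ≤ q + c → q ≤ p + c → φ p ≤ φ' q) →
      pairA_L M (fun t => X t * φ (X t)) ≤ pairA_L M fun t => (1 + s) * (N t * φ' (X t)))
    (H2 : ∀ φ φ' : ℕ → ℝ, (∀ p q : ℕ, p ≤ q + c → q ≤ p + c → φ p ≤ φ' q) →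
      pairA_L M (fun t => N t * φ (X t)) ≤ pairA_L M fun t => X t * φ' (X t)) :
    pairA_L M (fun t => if 2 * η < |X t - a| then η else 0) ≤
      pairA_L M fun t => 2 * (|N t - a| + (s + 2 * (c / η)) * N t) := by
  set φ : ℕ → ℝ := fun p => pairA_cl ((p - a - η) / η) with hφ
  set ψ : ℕ → ℝ := fun p => pairA_cl ((a - η - p) / η) with hψ
  set r : ℝ := c / η with hr
  have hr0 : 0 ≤ r := by positivity
  have φ0 : ∀ p, 0 ≤ φ p := fun p => pairA_cl_nonneg _
  have φ1 : ∀ p, φ p ≤ 1 := fun p => pairA_cl_le _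
  have ψ0 : ∀ p, 0 ≤ ψ p := fun p => pairA_cl_nonneg _
  have ψ1 : ∀ p, ψ p ≤ 1 := fun p => pairA_cl_le _
  have φm : ∀ p : ℕ, 0 ≤ (p - a - η) * φ p := fun p => pairA_cl_mul hη
  have ψm : ∀ p : ℕ, 0 ≤ (a - η - p) * ψ p := fun p => pairA_cl_mul hη
  have φl : ∀ p q : ℕ, p ≤ q + c → q ≤ p + c → φ p ≤ φ q + r := fun p q h _ => by
    refine pairA_cl_lip hr0 ?_
    have h' : (p : ℝ) ≤ q + c := by exact_mod_cast h
    rw [hr, ← add_div]
    exact div_le_div_of_nonneg_right (by linarith) hη.le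
  have ψl : ∀ p q : ℕ, p ≤ q + c → q ≤ p + c → ψ p ≤ ψ q + r := fun p q _ h => by
    refine pairA_cl_lip hr0 ?_
    have h' : (q : ℝ) ≤ p + c := by exact_mod_cast h
    rw [hr, ← add_div]
    exact div_le_div_of_nonneg_right (by linarith) hη.le
  set B : T → ℝ := fun t => |N t - a| + (s + 2 * r) * N t with hB
  have B0 : ∀ t, 0 ≤ B t := fun t => by
    have := hN t
    positivity
  have up : pairA_L M (fun t => η * φ (X t)) ≤ pairA_L M B := by
    have f1 : pairA_L M (fun t => a * φ (X t)) ≠ ⊤ :=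
      ne_top_of_le_ne_top hfin (pairA_mono M fun t => mul_le_of_le_one_right ha (φ1 _))
    refine (ENNReal.add_le_add_iff_left f1).1 ?_
    refine (pairA_sup M (fun t => mul_nonneg ha (φ0 _)) (fun t => mul_nonneg hη.le (φ0 _))
      fun t => ?_).trans ((H1 φ (fun q => φ q + r) φl).trans (pairA_sub M fun t => ?_))
    · have := φm (X t)
      linarith
    · have a1 := le_abs_self (N t - a)
      have a2 := abs_nonneg (N t - a)
      have a3 := mul_le_mul_of_nonneg_right a1 (φ0 (X t))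
      have a4 := mul_le_of_le_one_right a2 (φ1 (X t))
      have a5 := mul_le_of_le_one_right (mul_nonneg hs0 (hN t)) (φ1 (X t))
      have a6 := mul_le_of_le_one_left (mul_nonneg (hN t) hr0) hs1
      simp only [hB]
      linarith
  have lo : pairA_L M (fun t => η * ψ (X t)) ≤ pairA_L M B := by
    have f1 : pairA_L M (fun t => X t * ψ (X t)) ≠ ⊤ := by
      refine ne_top_of_le_ne_top hfin (pairA_mono M fun t => ?_)
      have a1 := ψm (X t)
      have a2 := mul_le_of_le_one_right ha (ψ1 (X t))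
      have a3 := mul_nonneg hη.le (ψ0 (X t))
      linarith
    refine (ENNReal.add_le_add_iff_left f1).1 ?_
    have s1 : pairA_L M (fun t => X t * ψ (X t)) + pairA_L M (fun t => η * ψ (X t)) ≤
        pairA_L M (fun t => N t * ψ (X t)) + pairA_L M fun t => |N t - a| := by
      refine (pairA_sup M (h := fun t => a * ψ (X t))
        (fun t => mul_nonneg (Nat.cast_nonneg _) (ψ0 _)) (fun t => mul_nonneg hη.le (ψ0 _))
        fun t => ?_).trans (pairA_sub M fun t => ?_)
      · have := ψm (X t)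
        linarith
      · have a1 := neg_le_abs (N t - a)
        have a2 := abs_nonneg (N t - a)
        have a3 := mul_le_mul_of_nonneg_right a1 (ψ0 (X t))
        have a4 := mul_le_of_le_one_right a2 (ψ1 (X t))
        linarith
    have s2 : pairA_L M (fun t => N t * ψ (X t)) ≤
        pairA_L M (fun t => X t * ψ (X t)) + pairA_L M fun t => X t * r :=
      (H2 ψ (fun q => ψ q + r) ψl).trans (pairA_sub M fun t => (mul_add _ _ _).le)
    have s3 := H1 (fun _ => r) (fun _ => r) fun _ _ _ _ => le_rfl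
    refine s1.trans ((add_le_add_left (s2.trans (add_le_add_right s3 _)) _).trans ?_)
    rw [add_assoc]
    refine add_le_add_right (pairA_sup M (fun t => ?_) (fun t => abs_nonneg _) fun t => ?_) _
    · have := hN t
      positivity
    · have a5 := mul_nonneg hs0 (hN t)
      have a6 := mul_le_of_le_one_left (mul_nonneg (hN t) hr0) hs1
      simp only [hB]
      linarith
  refine (pairA_sub M fun t => ?_).trans ((add_le_add up lo).trans
    (pairA_sup M B0 B0 fun t => ?_))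
  · have a1 := mul_nonneg hη.le (φ0 (X t))
    have a2 := mul_nonneg hη.le (ψ0 (X t))
    split_ifs with h
    · rcases lt_abs.1 h with h | h
      · have : φ (X t) = 1 := pairA_cl_one ((one_le_div hη).2 (by linarith))
        rw [this]
        linarith
      · have : ψ (X t) = 1 := pairA_cl_one ((one_le_div hη).2 (by linarith))
        rw [this]
        linarith
    · linarith
  · simp only [hB]
    linarith

/-- maps with `n` inner faces -/
noncomputable def pairA_M (x y : ℝ≥0∞) (n : ℕ) (R : RG) : ℝ≥0∞ := wM x y R * ind (R.1 - R.2.1 = n)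

/-- weight of edges and vertices -/
noncomputable def pairA_g (x y : ℝ≥0∞) (n e v : ℕ) : ℝ≥0∞ :=
  ((2 * e : ℕ) : ℝ≥0∞) * (x ^ (v - 1) * y ^ e * ind (e - (v - 1) = n))

theorem pairA_unroot (x y : ℝ≥0∞) {n : ℕ} (hn : 1 ≤ n) (i j d : ℕ) (F : ℕ → ℕ → ℝ≥0∞) :
    ∑' R, pairA_M x y n R * F (rpair i j R (rc R)) (Nat.card {v // deg R.2.2 v = d}) =
      ∑' ν, wMap ν * (pairA_g x y n ν.1 ν.2.1 * F (Xu i j ν) (Nd d ν)) := by
  have := unroot_M i j d (fun p => x ^ (p.2.1 - 1) * y ^ p.1 * ind (p.1 - (p.2.1 - 1) = n) *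
    F p.2.2.1 p.2.2.2) fun a b c => by
      rw [tree5_ind_neg (by simp only; omega), mul_zero, zero_mul]
  simp only [Nat.add_sub_cancel] at this
  refine Eq.trans (tsum_congr fun R => ?_) (this.trans (tsum_congr fun ν => ?_))
  · simp only [pairA_M, wM, mul_assoc]
  · simp only [pairA_g, mul_assoc]

theorem pairA_shift (x y : ℝ≥0∞) {n : ℕ} (hn : 1 ≤ n) (e : ℕ) {v : ℕ} (hv : 1 ≤ v) :
    x * y * pairA_g x y n e v ≤ pairA_g x y n (e + 1) (v + 1) ∧
      pairA_g x y n (e + 1) (v + 1) ≤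
        ENNReal.ofReal (1 + 1 / (n : ℝ)) * (x * y * pairA_g x y n e v) := by
  obtain ⟨k, rfl⟩ : ∃ k, v = k + 1 := ⟨v - 1, by omega⟩
  have e1 : pairA_g x y n (e + 1) (k + 1 + 1) =
      ((2 * (e + 1) : ℕ) : ℝ≥0∞) * (x * y * (x ^ k * y ^ e * ind (e - k = n))) := by
    simp only [pairA_g, Nat.add_sub_cancel, Nat.add_sub_add_right]
    ring
  have e2 : x * y * pairA_g x y n e (k + 1) =
      ((2 * e : ℕ) : ℝ≥0∞) * (x * y * (x ^ k * y ^ e * ind (e - k = n))) := by
    simp only [pairA_g, Nat.add_sub_cancel]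
    ring
  rw [e1, e2]
  have e3 : ((2 * e : ℕ) : ℝ≥0∞) ≤ ((2 * (e + 1) : ℕ) : ℝ≥0∞) := Nat.cast_le.2 (by omega)
  refine ⟨mul_le_mul' e3 le_rfl, ?_⟩
  by_cases h : e - k = n
  · rw [← mul_assoc (ENNReal.ofReal (1 + 1 / (n : ℝ)))]
    refine mul_le_mul' ?_ le_rfl
    have h0 : (0 : ℝ) < n := by exact_mod_cast hn
    have h1 : (n : ℝ) ≤ e := by exact_mod_cast (by omega : n ≤ e)
    rw [← ENNReal.ofReal_natCast, ← ENNReal.ofReal_natCast (2 * e),
      ← ENNReal.ofReal_mul (by positivity)]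
    refine ENNReal.ofReal_le_ofReal ?_
    have h2 : 1 ≤ 1 / (n : ℝ) * e := by
      rw [one_div_mul_eq_div]
      exact (one_le_div h0).2 h1
    push_cast
    linarith
  · simp only [tree5_ind_neg h, mul_zero, le_refl]

theorem pairA_bias {x y : ℝ} (hx : 0 ≤ x) (hy : 0 ≤ y) {n : ℕ} (hn : 1 ≤ n) {i j : ℕ} (hi : 1 ≤ i)
    (hj : 1 ≤ j) (hij : 3 ≤ i + j) (φ φ' : ℕ → ℝ)
    (h : ∀ p q : ℕ, p ≤ q + 2 * (i + j) → q ≤ p + 2 * (i + j) → φ p ≤ φ' q) :
    (pairA_L (pairA_M (ENNReal.ofReal x) (ENNReal.ofReal y) n)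
        (fun R => rpair i j R (rc R) * φ (rpair i j R (rc R))) ≤
      pairA_L (pairA_M (ENNReal.ofReal x) (ENNReal.ofReal y) n) fun R => (1 + 1 / (n : ℝ)) *
        (x * y * ((i + j - 2 : ℕ) * Nat.card {v // deg R.2.2 v = i + j - 2}) *
          φ' (rpair i j R (rc R)))) ∧
    (pairA_L (pairA_M (ENNReal.ofReal x) (ENNReal.ofReal y) n)
        (fun R => x * y * ((i + j - 2 : ℕ) * Nat.card {v // deg R.2.2 v = i + j - 2}) *
          φ (rpair i j R (rc R))) ≤
      pairA_L (pairA_M (ENNReal.ofReal x) (ENNReal.ofReal y) n)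
        fun R => rpair i j R (rc R) * φ' (rpair i j R (rc R))) := by
  set X := ENNReal.ofReal x with hX
  set Y := ENNReal.ofReal y with hY
  obtain ⟨r1, r2⟩ := reroot i j hi hj hij
    (fun p => pairA_g X Y n p.1 p.2.1 * ENNReal.ofReal (φ p.2.2))
    (fun p => pairA_g X Y n p.1 p.2.1 * ENNReal.ofReal (φ' p.2.2))
    fun e v a b h1 h2 => mul_le_mul_right (ENNReal.ofReal_le_ofReal (h a b h1 h2)) _
  set d := i + j - 2 with hd
  have u1 : ∀ χ : ℕ → ℝ, pairA_L (pairA_M X Y n)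
      (fun R => rpair i j R (rc R) * χ (rpair i j R (rc R))) =
      ∑' ν, wMap ν * Xu i j ν * (pairA_g X Y n ν.1 ν.2.1 * ENNReal.ofReal (χ (Xu i j ν))) := by
    intro χ
    refine (pairA_unroot X Y hn i j d fun a _ => ENNReal.ofReal (a * χ a)).trans
      (tsum_congr fun ν => ?_)
    rw [ENNReal.ofReal_mul (Nat.cast_nonneg _), ENNReal.ofReal_natCast]
    ring
  have u2 : ∀ χ : ℕ → ℝ, pairA_L (pairA_M X Y n)
      (fun R => x * y * (d * Nat.card {v // deg R.2.2 v = d}) * χ (rpair i j R (rc R))) =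
      ∑' ν, wMap ν * ((d * Nd d ν : ℕ) : ℝ≥0∞) *
        (X * Y * pairA_g X Y n ν.1 ν.2.1 * ENNReal.ofReal (χ (Xu i j ν))) := by
    intro χ
    refine (pairA_unroot X Y hn i j d fun a b => ENNReal.ofReal (x * y * (d * b) * χ a)).trans
      (tsum_congr fun ν => ?_)
    rw [ENNReal.ofReal_mul (by positivity), ENNReal.ofReal_mul (by positivity),
      ENNReal.ofReal_mul hx, ← Nat.cast_mul, ENNReal.ofReal_natCast]
    ring
  have key : ∀ (ν : UG) (a b : ℝ≥0∞), (1 ≤ ν.2.1 → a ≤ b) →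
      wMap ν * ((d * Nd d ν : ℕ) : ℝ≥0∞) * a ≤ wMap ν * ((d * Nd d ν : ℕ) : ℝ≥0∞) * b := by
    intro ν a b hab
    by_cases h0 : wMap ν = 0
    · simp only [h0, zero_mul, le_refl]
    · exact mul_le_mul_right (hab (wMap_supp h0 0 0).2.1) _
  rw [pairA_smul _ _ (by positivity), u1, u1, u2, u2, ← ENNReal.tsum_mul_left]
  refine ⟨r1.trans (ENNReal.tsum_le_tsum fun ν => ?_),
    le_trans (ENNReal.tsum_le_tsum fun ν => key ν _ _ fun hv => ?_) r2⟩
  · rw [mul_left_comm (ENNReal.ofReal (1 + 1 / (n : ℝ)))]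
    refine key ν _ _ fun hv => ?_
    rw [← mul_assoc]
    exact mul_le_mul_left (pairA_shift X Y hn ν.1 hv).2 _
  · exact mul_le_mul_left (pairA_shift X Y hn ν.1 hv).1 _

theorem pairA_card (d : ℕ) (R : RG) :
    |(Nat.card {v // deg R.2.2 v = d} : ℝ) - rF (fun k => if k = d then 1 else 0) R| ≤ 1 := by
  classical
  rw [Nat.card_eq_fintype_card, Fintype.card_subtype, Finset.card_filter, Fintype.sum_option, rF]
  push_cast
  rw [add_sub_cancel_right]
  split_ifs <;> simp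

theorem pairA_sqrt {n : ℕ} (hn : 1 ≤ n) (z : ℝ) :
    (|z| + 1) * (n : ℝ) ^ 3 ≤ 2 * √n * ((n : ℝ) ^ 3 + z ^ 6) := by
  have h1 : (1 : ℝ) ≤ n := by exact_mod_cast hn
  obtain ⟨s, hs, hs2⟩ : ∃ s : ℝ, s = √n ∧ s ^ 2 = n := ⟨_, rfl, Real.sq_sqrt (by linarith)⟩
  have h2 : 1 ≤ s := hs ▸ Real.one_le_sqrt.2 h1
  have h3 : z ^ 6 = |z| ^ 6 := (Even.pow_abs (by decide) z).symm
  rw [← hs, ← hs2, h3, ← pow_mul]
  have h0 := abs_nonneg z
  generalize |z| = u at h0
  have a1 : 0 ≤ s ^ 6 := by positivity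
  have a2 : 0 ≤ s * u ^ 6 := by positivity
  have a3 := mul_le_mul_of_nonneg_right h2 a1
  have a4 : u * s ^ 6 ≤ s * s ^ 6 + s * u ^ 6 := by
    rcases le_total u s with h | h
    · have := mul_le_mul_of_nonneg_right h a1
      linarith
    · have b1 : s ^ 5 ≤ u ^ 5 := pow_le_pow_left₀ (by linarith) h 5
      have b2 := mul_le_mul_of_nonneg_left b1 (by positivity : 0 ≤ u * s)
      have b3 : 0 ≤ s * s ^ 6 := by positivity
      linarith
  norm_num
  linarith

theorem pair_maps {w : ℝ} (hw : 0 < w) (i j : ℕ) : ∃ ξ : ℝ, ∀ ε δ : ℝ, 0 < ε → 0 < δ →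
    ∀ᶠ n : ℕ in atTop, ∑' R, wM (ENNReal.ofReal (xw w)) (ENNReal.ofReal (yw w)) R *
      ind (R.1 - R.2.1 = n ∧ ε * n < |(rpair i j R (rc R) : ℝ) - ξ * n|) ≤
        ENNReal.ofReal (δ * (n : ℝ) ^ (-(5 / 2) : ℝ)) := by
  have hx := tree5_xpos hw
  have hy := tree5_ypos hw
  set x := xw w with hxd
  set y := yw w with hyd
  by_cases hdeg : i = 0 ∨ j = 0 ∨ i + j = 2
  · refine ⟨0, fun ε δ hε _ => (eventually_ge_atTop 1).mono fun n hn => ?_⟩
    have := pairA_unroot (ENNReal.ofReal x) (ENNReal.ofReal y) hn i j 0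
      fun a _ => ind (ε * n < |(a : ℝ) - 0 * n|)
    simp only [pairA_M, mul_assoc, ← rootB_ind_and] at this
    rw [this]
    refine le_of_eq_of_le (ENNReal.tsum_eq_zero.2 fun ν => ?_) zero_le
    by_cases h0 : wMap ν = 0
    · rw [h0, zero_mul]
    by_cases h1 : ν.1 - (ν.2.1 - 1) = n
    · rw [Xu_eq_zero hdeg h0 (by omega), tree5_ind_neg, mul_zero, mul_zero]
      have : 0 ≤ ε * n := by positivity
      simpa using this
    · rw [pairA_g, tree5_ind_neg h1]
      simp only [mul_zero, zero_mul]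
  have hi : 1 ≤ i := by omega
  have hj : 1 ≤ j := by omega
  have hij : 3 ≤ i + j := by omega
  set d := i + j - 2 with hd
  set f : ℕ → ℝ := fun k => if k = d then 1 else 0 with hf
  obtain ⟨_, -, H⟩ := maps_clt hw
  obtain ⟨mu, _, C, -, hC⟩ := H f d fun k hk => by
    simp only [hf, if_neg hk.ne', if_neg (Nat.succ_ne_self d)]
  rw [← hxd, ← hyd] at hC
  set l : ℝ := x * y * d with hl
  have l0 : 0 ≤ l := by positivity
  set m : ℝ := max mu 0 with hm
  have m0 : 0 ≤ m := le_max_right _ _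
  refine ⟨l * m, fun ε δ hε hδ => ?_⟩
  set c : ℕ := 2 * (i + j) with hc
  set κ : ℝ := 1 + 4 * c / ε with hκ
  have κ0 : 0 ≤ κ := by positivity
  set A : ℝ := 2 * (l + κ * (l * m + l)) with hA
  have A0 : 0 ≤ A := by positivity
  have hev : ∀ᶠ n : ℕ in atTop, 4 * A * C / (ε * δ) ≤ √(n : ℝ) :=
    (Real.tendsto_sqrt_atTop.comp tendsto_natCast_atTop_atTop).eventually_ge_atTop _
  filter_upwards [hev, eventually_ge_atTop 1] with n hn2 hn
  have n1 : (1 : ℝ) ≤ n := by exact_mod_cast hn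
  have n0 : (0 : ℝ) < n := by linarith
  set M := pairA_M (ENNReal.ofReal x) (ENNReal.ofReal y) n with hM
  have six : pairA_L M (fun R => (n : ℝ) ^ 3 + (rF f R - mu * n) ^ 6) ≤
      ENNReal.ofReal (C * √n) := by
    have := hC n hn
    simp only [mul_assoc] at this
    rw [tree5_onR, (tree5_rpow hn).2] at this
    refine le_of_eq_of_le (tsum_congr fun R => ?_) this
    by_cases h : R.1 - R.2.1 = n
    · simp only [hM, pairA_M, mul_assoc, zz, sA, FO, h, zero_mul, add_zero]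
    · simp only [hM, pairA_M, sA, tree5_ind_neg h, zero_mul, mul_zero]
  have hη : 0 < ε * n / 2 := by positivity
  have core := pairA_core M (fun R => rpair i j R (rc R))
    (fun R => x * y * (d * Nat.card {v // deg R.2.2 v = d})) c (a := l * m * n) (s := 1 / n)
    (fun R => by positivity) (by positivity) hη (by positivity) ((div_le_one n0).2 n1)
    (by
      refine ne_top_of_le_ne_top ?_ (pairA_mono M (h' := fun R => l * m * n *
        ((n : ℝ) ^ 3 + (rF f R - mu * n) ^ 6)) fun R => le_mul_of_one_le_right (by positivity) ?_)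
      · rw [pairA_smul _ _ (by positivity)]
        exact ENNReal.mul_ne_top ENNReal.ofReal_ne_top
          (ne_top_of_le_ne_top ENNReal.ofReal_ne_top six)
      · have a1 : 1 ≤ (n : ℝ) ^ 3 := one_le_pow₀ n1
        have a2 : 0 ≤ (rF f R - mu * n) ^ 6 := by positivity
        linarith)
    (fun φ φ' h => (pairA_bias hx.le hy.le hn hi hj hij φ φ' h).1)
    (fun φ φ' h => (pairA_bias hx.le hy.le hn hi hj hij φ φ' h).2)
  have pt : ∀ R : RG, 2 * (|x * y * (d * Nat.card {v // deg R.2.2 v = d}) - l * m * n| +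
      (1 / n + 2 * (c / (ε * n / 2))) * (x * y * (d * Nat.card {v // deg R.2.2 v = d}))) ≤
      2 * A * √n / n ^ 3 * ((n : ℝ) ^ 3 + (rF f R - mu * n) ^ 6) := by
    intro R
    have a1 := pairA_card d R
    have a2 := pairA_sqrt hn (rF f R - mu * n)
    rw [← hf] at a1
    have a0 : (0 : ℝ) ≤ Nat.card {v // deg R.2.2 v = d} := Nat.cast_nonneg _
    generalize (Nat.card {v // deg R.2.2 v = d} : ℝ) = K at a1 a0 ⊢
    have b1 : |K - m * n| ≤ |rF f R - mu * n| + 1 := by
      have c1 := abs_le.1 a1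
      have c2 := le_abs_self (rF f R - mu * n)
      have c3 := neg_le_abs (rF f R - mu * n)
      have c4 := abs_nonneg (rF f R - mu * n)
      have c5 := mul_le_mul_of_nonneg_right (le_max_left mu 0) n0.le
      rw [← hm] at c5
      refine abs_le.2 ⟨?_, by linarith⟩
      rcases le_total mu 0 with h | h
      · rw [hm, max_eq_right h]
        linarith
      · rw [hm, max_eq_left h]
        linarith
    have b0 := abs_nonneg (rF f R - mu * n)
    generalize |rF f R - mu * n| = u at a2 b1 b0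
    have e1 : x * y * (d * K) = l * K := by rw [hl]; ring
    have e2 : 1 / (n : ℝ) + 2 * (c / (ε * n / 2)) = κ / n := by
      rw [hκ]
      field_simp
      ring
    have e3 : |l * K - l * m * n| ≤ l * (u + 1) := by
      rw [mul_assoc l m, ← mul_sub, abs_mul, abs_of_nonneg l0]
      exact mul_le_mul_of_nonneg_left b1 l0
    have e4 : K / n ≤ (m + 1) * (u + 1) := by
      rw [div_le_iff₀ n0]
      have c1 := le_abs_self (K - m * n)
      have c2 : 0 ≤ m * u * n := by positivity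
      have c3 := mul_le_mul_of_nonneg_left n1 (by linarith : 0 ≤ u + 1)
      linarith
    have e5 := mul_le_mul_of_nonneg_left e4 (mul_nonneg κ0 l0)
    have e6 : u + 1 ≤ 2 * √n / n ^ 3 * ((n : ℝ) ^ 3 + (rF f R - mu * n) ^ 6) := by
      rw [div_mul_eq_mul_div, le_div_iff₀ (by positivity)]
      exact a2
    have e7 := mul_le_mul_of_nonneg_left e6 A0
    have e8 : κ / n * (l * K) = κ * l * (K / n) := by ring
    rw [e1, e2, e8]
    refine le_trans ?_ (e7.trans_eq (by ring))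
    rw [hA]
    linarith
  have fin := core.trans ((pairA_mono M pt).trans ((pairA_smul M _ (by positivity)).le.trans
    (mul_le_mul_right six _)))
  refine (ENNReal.mul_le_mul_iff_right (ENNReal.ofReal_pos.2 hη).ne' ENNReal.ofReal_ne_top).1 ?_
  rw [← ENNReal.ofReal_mul hη.le, ← ENNReal.tsum_mul_left]
  rw [← ENNReal.ofReal_mul (by positivity)] at fin
  refine le_trans (ENNReal.tsum_le_tsum fun R => ?_) (fin.trans (ENNReal.ofReal_le_ofReal ?_))
  · by_cases h : R.1 - R.2.1 = n ∧ ε * n < |(rpair i j R (rc R) : ℝ) - l * m * n|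
    · beta_reduce
      rw [tree5_ind_pos h, if_pos (by linarith [h.2]), hM, pairA_M, tree5_ind_pos h.1, mul_comm]
    · rw [tree5_ind_neg h, mul_zero, mul_zero]
      exact zero_le
  · have s0 : 0 < √(n : ℝ) := Real.sqrt_pos.2 n0
    have s2 : √(n : ℝ) * √n = n := Real.mul_self_sqrt n0.le
    rw [Real.rpow_neg n0.le, (tree5_rpow hn).1]
    rw [div_le_iff₀ (by positivity)] at hn2
    generalize √(n : ℝ) = s at s0 s2 hn2
    rw [← s2]
    have e : ε * (s * s) / 2 * (δ * ((s * s) ^ 2 * s)⁻¹) - 2 * A * s / (s * s) ^ 3 * (C * s) =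
        (s * (ε * δ) - 4 * A * C) / (2 * s ^ 4) := by
      field_simp
      ring
    have : 0 ≤ (s * (ε * δ) - 4 * A * C) / (2 * s ^ 4) := div_nonneg (by linarith) (by positivity)
    linarith

end Pool.Agent.Lib.MP_77dff5_pr
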