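import Pool.Agent.Lib.MP_77dff5_pr.Dec
import Pool.Agent.Lib.MP_77dff5_pr.EqOm

/-! Pair counts as sums over darts; pair counts of glued and attached graphs. -/

set_option autoImplicit false

namespace Pool.Agent.Lib.MP_77dff5_pr

open scoped ENNReal NNReal Classical

theorem pairB_card_sum {D : Type} [Fintype D] (p : D → Prop) :
    Nat.card {x // p x} = ∑ x, if p x then 1 else 0 := by
  rw [Nat.card_eq_fintype_card, Fintype.card_subtype, Finset.card_filter]

theorem pairB_deg_sum {D V : Type} [Fintype D] (ν : D → V) (v : V) :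
    deg ν v = ∑ x, if ν x = v then 1 else 0 := by
  unfold deg
  rw [pairB_card_sum]

theorem pairB_sum {E V : Type} [Fintype E] (ν : E × Bool → V) (d : V → ℕ) (i j : ℕ) :
    pairC ν d i j =
      ∑ x, if ν (flp E x) ≠ ν x ∧ d (ν x) = i ∧ d (ν (flp E x)) = j then 1 else 0 := by
  unfold pairC
  rw [pairB_card_sum]
  refine Finset.sum_congr rfl fun x _ => ?_
  congr

theorem pairB_le {E V : Type} [Fintype E] (ν : E × Bool → V) (d : V → ℕ) (i j : ℕ) :
    pairC ν d i j ≤ 2 * Fintype.card E := by
  unfold pairC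
  refine (Finite.card_subtype_le _).trans ?_
  rw [Nat.card_eq_fintype_card, Fintype.card_prod, Fintype.card_bool, mul_comm]

theorem pairB_map {E V V' : Type} {φ : V → V'} (hφ : Function.Injective φ) (ν : E × Bool → V)
    (d : V' → ℕ) (i j : ℕ) :
    pairC (fun x => φ (ν x)) d i j = pairC ν (fun v => d (φ v)) i j := by
  unfold pairC
  simp only [ne_eq, hφ.eq_iff]

theorem pairB_congr {E V : Type} (ν : E × Bool → V) {d d' : V → ℕ} {i j : ℕ}
    (h : ∀ v, (d v = i ↔ d' v = i) ∧ (d v = j ↔ d' v = j)) : pairC ν d i j = pairC ν d' i j := by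
  unfold pairC
  simp only [(h _).1, (h _).2]

theorem pairB_sigma {I V : Type} {E : I → Type} [Fintype I] [∀ i, Fintype (E i)]
    (μ : (Σ i, E i) × Bool → V) (d : V → ℕ) (i j : ℕ) :
    pairC μ d i j = ∑ k, pairC (fun x : E k × Bool => μ (⟨k, x.1⟩, x.2)) d i j := by
  simp only [pairB_sum, Fintype.sum_prod_type, Fintype.sum_sigma]
  rfl

theorem pairB_sumtype {E₁ E₂ V : Type} [Fintype E₁] [Fintype E₂]
    (μ : (E₁ ⊕ E₂) × Bool → V) (d : V → ℕ) (i j : ℕ) :
    pairC μ d i j = pairC (fun x : E₁ × Bool => μ (.inl x.1, x.2)) d i j +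
      pairC (fun x : E₂ × Bool => μ (.inr x.1, x.2)) d i j := by
  simp only [pairB_sum, Fintype.sum_prod_type, Fintype.sum_sum_type]
  rfl

theorem pairB_option {E V : Type} [Fintype E] (μ : Option E × Bool → V) (d : V → ℕ) (i j : ℕ) :
    pairC (fun x : E × Bool => μ (some x.1, x.2)) d i j ≤ pairC μ d i j ∧
      pairC μ d i j ≤ pairC (fun x : E × Bool => μ (some x.1, x.2)) d i j + 2 := by
  have h : ∃ c ≤ 2, pairC μ d i j = c + pairC (fun x : E × Bool => μ (some x.1, x.2)) d i j := by
    refine ⟨∑ b : Bool, if μ (flp _ (none, b)) ≠ μ (none, b) ∧ d (μ (none, b)) = i ∧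
      d (μ (flp _ (none, b))) = j then 1 else 0, ?_, ?_⟩
    · rw [Fintype.sum_bool]
      split_ifs <;> omega
    · simp only [pairB_sum, Fintype.sum_prod_type, Fintype.sum_option]
      rfl
  obtain ⟨c, hc, h⟩ := h
  omega

theorem pairB_deg_sigma {I V : Type} {E : I → Type} [Fintype I] [∀ i, Fintype (E i)]
    (μ : (Σ i, E i) × Bool → V) (v : V) :
    deg μ v = ∑ k, deg (fun x : E k × Bool => μ (⟨k, x.1⟩, x.2)) v := by
  simp only [pairB_deg_sum, Fintype.sum_prod_type, Fintype.sum_sigma]

theorem pairB_deg_sumtype {E₁ E₂ V : Type} [Fintype E₁] [Fintype E₂]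
    (μ : (E₁ ⊕ E₂) × Bool → V) (v : V) :
    deg μ v = deg (fun x : E₁ × Bool => μ (.inl x.1, x.2)) v +
      deg (fun x : E₂ × Bool => μ (.inr x.1, x.2)) v := by
  simp only [pairB_deg_sum, Fintype.sum_prod_type, Fintype.sum_sum_type]

theorem pairB_deg_option {E V : Type} [Fintype E] (μ : Option E × Bool → V) (v : V) :
    deg μ v = (∑ b : Bool, if μ (none, b) = v then 1 else 0) +
      deg (fun x : E × Bool => μ (some x.1, x.2)) v := by
  simp only [pairB_deg_sum, Fintype.sum_prod_type, Fintype.sum_option]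

theorem pairB_deg_map {D V V' : Type} {φ : V → V'} (hφ : Function.Injective φ) (ν : D → V)
    (v : V) : deg (fun x => φ (ν x)) (φ v) = deg ν v := by
  unfold deg
  simp only [hφ.eq_iff]

theorem pairB_deg_zero {D V : Type} (ν : D → V) {v : V} (h : ∀ x, ν x ≠ v) : deg ν v = 0 := by
  unfold deg
  have : IsEmpty {x // ν x = v} := ⟨fun x => h x.1 x.2⟩
  exact Nat.card_of_isEmpty

theorem pairB_rpair_triv (i j d : ℕ) : rpair i j triv d = 0 := by
  unfold rpair pairC
  have : IsEmpty (Fin triv.1 × Bool) := ⟨fun x => x.1.elim0⟩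
  exact Nat.card_of_isEmpty

theorem pairB_rpair_congr {i j : ℕ} (R : RG) {d d' : ℕ}
    (h : (d = i ↔ d' = i) ∧ (d = j ↔ d' = j)) : rpair i j R d = rpair i j R d' := by
  unfold rpair
  refine pairB_congr _ fun v => ?_
  cases v with
  | none => exact h
  | some v => exact ⟨Iff.rfl, Iff.rfl⟩

theorem pairB_rpair_rc (i j : ℕ) (R : RG) :
    rpair i j R (rc R) = pairC R.2.2 (deg R.2.2) i j := by
  unfold rpair
  congr 1
  funext o
  cases o <;> rfl

/-- final degrees with prescribed pole degrees, for arbitrary label types -/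
noncomputable def gDeg' {E V : Type} [Fintype E] (N : E × Bool → Bool ⊕ V) (a : E × Bool → RG)
    (b : V → RG) (d d' : ℕ) (u : Bool ⊕ V) : ℕ :=
  u.elim (fun c => if c then d else d') fun v => gDeg N a b (.inr v)

/-- pair count of a decorated graph with two poles, for arbitrary label types -/
noncomputable def gEps (i j : ℕ) {E V : Type} [Fintype E] [Fintype V] (N : E × Bool → Bool ⊕ V)
    (a : E × Bool → RG) (b : V → RG) (d d' : ℕ) : ℕ :=
  pairC N (gDeg' N a b d d') i j + ∑ x, rpair i j (a x) (gDeg' N a b d d' (N x)) +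
    ∑ v, rpair i j (b v) (gDeg' N a b d d' (.inr v))

theorem gDeg'_eq (D : DG) (d d' : ℕ) : gDeg' D.1.2.2 D.2.1 D.2.2 d d' = dDeg' D d d' := by
  funext u
  cases u with
  | inl c => rfl
  | inr v => exact gDeg_eq D (.inr v)

theorem gEps_eq (i j : ℕ) (D : DG) (d d' : ℕ) :
    gEps i j D.1.2.2 D.2.1 D.2.2 d d' = epsO i j (.inr (.inl D)) d d' := by
  unfold gEps
  rw [gDeg'_eq]
  rfl

theorem gEps_congr (i j : ℕ) {E V E' V' : Type} [Fintype E] [Fintype E'] [Fintype V] [Fintype V']
    (u : DIso E E') (e : V ≃ V') {N : E × Bool → Bool ⊕ V} {N' : E' × Bool → Bool ⊕ V'}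
    (a' : E' × Bool → RG) (b' : V' → RG) (h : ∀ x, N' (u.1 x) = (N x).map id e) (d d' : ℕ) :
    gEps i j N' a' b' d d' = gEps i j N (fun x => a' (u.1 x)) (fun v => b' (e v)) d d' := by
  have hd : ∀ w : Bool ⊕ V, gDeg' N' a' b' d d' (w.map id e) =
      gDeg' N (fun x => a' (u.1 x)) (fun v => b' (e v)) d d' w := by
    intro w
    cases w with
    | inl c => rfl
    | inr v => exact gDeg_congr u e a' b' h (.inr v)
  unfold gEps
  congr 1
  · congr 1
    · exact pairC_congr u ((Equiv.refl Bool).sumCongr e) (fun x => h x) _ _ (fun w => hd w) i j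
    · rw [← u.1.sum_comp]
      refine Finset.sum_congr rfl fun x _ => ?_
      rw [h, hd]
  · rw [← e.sum_comp]
    refine Finset.sum_congr rfl fun v _ => ?_
    exact congrArg _ (hd (.inr v))

section glue
variable {I W : Type} [Fintype I] [Fintype W] (t : I × Bool → Bool ⊕ W) (Ds : I → DG)

/-- additivity of the pair count under gluing -/
theorem gEps_glue (i j : ℕ) (ht : ∀ x, t (flp I x) ≠ t x) (d d' : ℕ) :
    gEps i j (glue t fun k => (Ds k).1.2.2) (glueD Ds) (glueV (fun _ => triv) Ds) d d' =
      ∑ k, epsO i j (.inr (.inl (Ds k)))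
        (gDeg' (glue t fun k => (Ds k).1.2.2) (glueD Ds) (glueV (fun _ => triv) Ds) d d'
          ((t (k, true)).map id Sum.inl))
        (gDeg' (glue t fun k => (Ds k).1.2.2) (glueD Ds) (glueV (fun _ => triv) Ds) d d'
          ((t (k, false)).map id Sum.inl)) := by
  set δ := gDeg' (glue t fun k => (Ds k).1.2.2) (glueD Ds) (glueV (fun _ => triv) Ds) d d' with hδ
  have key : ∀ k, (fun w => δ (netC_phi (fun k => Fin (Ds k).1.2.1) t k w)) =
      dDeg' (Ds k) (δ ((t (k, true)).map id Sum.inl)) (δ ((t (k, false)).map id Sum.inl)) := by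
    intro k
    funext w
    rcases w with c | v
    · cases c <;> rfl
    · exact gDeg_glue_inner t Ds _ ⟨k, v⟩
  unfold gEps
  rw [← hδ, pairB_sigma, Fintype.sum_sum_type, Fintype.sum_prod_type, Fintype.sum_sigma,
    Fintype.sum_sigma]
  have h0 : ∑ v : W, rpair i j (glueV (fun _ => triv) Ds (.inl v)) (δ (.inr (.inl v))) = 0 :=
    Finset.sum_eq_zero fun v _ => pairB_rpair_triv _ _ _
  rw [h0, zero_add, ← Finset.sum_add_distrib, ← Finset.sum_add_distrib]
  refine Finset.sum_congr rfl fun k _ => ?_
  unfold epsO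
  simp only
  rw [← key k]
  congr 1
  congr 1
  · exact pairB_map (netC_phi_inj ht k) (Ds k).1.2.2 δ i j
  · rw [Fintype.sum_prod_type]
    rfl

end glue

section attach
variable {E V : Type} [Fintype E] [Fintype V] (N : E × Bool → Bool ⊕ V) (a : E × Bool → RG)

/-- decorations of the corners, trivial at the root edge -/
def pairB_ext : Option E × Bool → RG := fun p => p.1.elim triv fun e => a (e, p.2)

omit [Fintype E] in
theorem pairB_ext_inj : Function.Injective (pairB_ext : (E × Bool → RG) → _) := by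
  intro a a' h
  funext x
  exact congrFun h (some x.1, x.2)

/-- the vertices of an attached graph -/
def pairB_psi (p : Option E × Bool) (o : Option (Fin (pairB_ext a p).2.1)) :
    Bool ⊕ (V ⊕ Σ p, Fin (pairB_ext a p).2.1) :=
  o.elim ((clo N p).map id Sum.inl) fun v => .inr (.inr ⟨p, v⟩)

omit [Fintype E] [Fintype V] in
theorem pairB_psi_inj (p : Option E × Bool) : Function.Injective (pairB_psi N a p) := by
  rintro (_ | v) (_ | v') h
  · rfl
  · exact absurd h (netC_iota_ne _ _)
  · exact absurd h.symm (netC_iota_ne _ _)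
  · have h' : (⟨p, v⟩ : Σ p, Fin (pairB_ext a p).2.1) = ⟨p, v'⟩ := Sum.inr.inj (Sum.inr.inj h)
    rw [sigma_mk_injective h']

/-- the map with block `N` and corner decorations `a` -/
def pairB_att := clo (attach N (clo N) fun p => (pairB_ext a p).2.2)

omit [Fintype V] in
theorem pairB_att_deg (w) : deg (pairB_att N a) w =
    (∑ b : Bool, if Sum.inl b = w then 1 else 0) +
      (deg (fun x => (N x).map id Sum.inl) w +
        ∑ p, deg (fun x => pairB_psi N a p ((pairB_ext a p).2.2 x)) w) := by
  rw [pairB_deg_option, pairB_deg_sumtype, pairB_deg_sigma]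
  congr 1
  refine Finset.sum_congr rfl fun b _ => ?_
  by_cases hb : Sum.inl b = w
  · rw [if_pos hb, if_pos (show pairB_att N a (none, b) = w from hb)]
  · rw [if_neg hb, if_neg (show ¬pairB_att N a (none, b) = w from hb)]

omit [Fintype V] in
theorem pairB_att_inner (p : Option E × Bool) (v : Fin (pairB_ext a p).2.1) :
    deg (pairB_att N a) (.inr (.inr ⟨p, v⟩)) = deg (pairB_ext a p).2.2 (some v) := by
  rw [pairB_att_deg, pairB_deg_zero _ fun x => netC_iota_ne _ _, Finset.sum_eq_single p]
  · simp only [reduceCtorEq, if_false, Finset.sum_const_zero, zero_add]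
    exact pairB_deg_map (pairB_psi_inj N a p) _ (some v)
  · intro q _ hq
    refine pairB_deg_zero _ fun x => ?_
    generalize (pairB_ext a q).2.2 x = o
    cases o with
    | none => exact netC_iota_ne _ _
    | some v' =>
      intro h
      exact hq (congrArg Sigma.fst (Sum.inr.inj (Sum.inr.inj h)))
  · intro h
    exact absurd (Finset.mem_univ p) h

omit [Fintype V] in
theorem pairB_att_core (u : Bool ⊕ V) :
    deg (pairB_att N a) (u.map id Sum.inl) =
      gDeg N a (fun _ => triv) u + u.elim (fun _ => 1) fun _ => 0 := by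
  have h1 : (∑ b : Bool, if (Sum.inl b : Bool ⊕ (V ⊕ Σ p, Fin (pairB_ext a p).2.1)) =
      u.map id Sum.inl then 1 else 0) = u.elim (fun _ => 1) fun _ => 0 := by
    rcases u with c | v
    · cases c <;> simp
    · simp
  have h2 : ∀ p, deg (fun x => pairB_psi N a p ((pairB_ext a p).2.2 x)) (u.map id Sum.inl) =
      if clo N p = u then rc (pairB_ext a p) else 0 := by
    intro p
    split_ifs with hp
    · subst hp
      exact pairB_deg_map (pairB_psi_inj N a p) _ none
    · refine pairB_deg_zero _ fun x => ?_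
      generalize (pairB_ext a p).2.2 x = o
      cases o with
      | none => exact fun h => hp (netC_iota_inj h)
      | some v' => exact (netC_iota_ne _ _).symm
  have h3 : u.elim (fun _ => 0) (fun _ : V => rc triv) = 0 := by
    cases u with
    | inl c => rfl
    | inr v => exact rc_triv
  rw [pairB_att_deg, h1, pairB_deg_map netC_iota_inj, pairB_deg_sum, add_comm]
  simp only [h2]
  unfold gDeg
  rw [h3, add_zero, Fintype.sum_prod_type (f := fun p : Option E × Bool =>
    if clo N p = u then rc (pairB_ext a p) else 0), Fintype.sum_option]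
  have h4 : (∑ b : Bool, if clo N (none, b) = u then rc (pairB_ext a (none, b)) else 0) = 0 :=
    Finset.sum_eq_zero fun b _ => by
      split_ifs
      · exact rc_triv
      · rfl
  rw [h4, zero_add, ← Fintype.sum_prod_type (f := fun x : E × Bool =>
    if clo N (some x.1, x.2) = u then rc (pairB_ext a (some x.1, x.2)) else 0),
    ← Finset.sum_add_distrib]
  congr 1
  refine Finset.sum_congr rfl fun x _ => ?_
  by_cases hx : N x = u
  · rw [if_pos hx, if_pos hx, if_pos (show clo N (some x.1, x.2) = u from hx)]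
    rfl
  · rw [if_neg hx, if_neg hx, if_neg (show ¬clo N (some x.1, x.2) = u from hx)]

/-- the pair count of the attached map -/
theorem pairB_att_pair (i j : ℕ) :
    gEps i j N a (fun _ => triv) (gDeg N a (fun _ => triv) (.inl true) + 1)
        (gDeg N a (fun _ => triv) (.inl false) + 1) ≤
      pairC (pairB_att N a) (deg (pairB_att N a)) i j ∧
    pairC (pairB_att N a) (deg (pairB_att N a)) i j ≤
      gEps i j N a (fun _ => triv) (gDeg N a (fun _ => triv) (.inl true) + 1)
        (gDeg N a (fun _ => triv) (.inl false) + 1) + 2 := by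
  set δ := deg (pairB_att N a) with hδ
  have hc : (fun u : Bool ⊕ V => δ (u.map id Sum.inl)) =
      gDeg' N a (fun _ => triv) (gDeg N a (fun _ => triv) (.inl true) + 1)
        (gDeg N a (fun _ => triv) (.inl false) + 1) := by
    funext u
    rw [hδ, pairB_att_core]
    rcases u with c | v
    · cases c <;> rfl
    · rfl
  have key : pairC (fun x => pairB_att N a (some x.1, x.2)) δ i j =
      gEps i j N a (fun _ => triv) (gDeg N a (fun _ => triv) (.inl true) + 1)
        (gDeg N a (fun _ => triv) (.inl false) + 1) := by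
    unfold gEps
    rw [pairB_sumtype, pairB_sigma, ← hc]
    have h0 : ∑ v : V, rpair i j triv (δ (Sum.map id Sum.inl (Sum.inr v : Bool ⊕ V))) = 0 :=
      Finset.sum_eq_zero fun v _ => pairB_rpair_triv _ _ _
    have h1 : ∀ p : Option E × Bool,
        pairC (fun x => pairB_psi N a p ((pairB_ext a p).2.2 x)) δ i j =
          rpair i j (pairB_ext a p) (δ ((clo N p).map id Sum.inl)) := by
      intro p
      rw [pairB_map (pairB_psi_inj N a p)]
      unfold rpair
      congr 1
      funext o
      cases o with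
      | none => rfl
      | some v => exact pairB_att_inner N a p v
    rw [h0, add_zero]
    congr 1
    · exact pairB_map netC_iota_inj N δ i j
    · refine (Finset.sum_congr rfl fun p _ => h1 p).trans ?_
      rw [Fintype.sum_prod_type, Fintype.sum_option]
      have h4 : (∑ b : Bool, rpair i j (pairB_ext a (none, b))
          (δ ((clo N (none, b)).map id Sum.inl))) = 0 :=
        Finset.sum_eq_zero fun b _ => pairB_rpair_triv _ _ _
      rw [h4, zero_add, Fintype.sum_prod_type]
      rfl
  rw [← key]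
  exact pairB_option _ _ _ _

end attach

end Pool.Agent.Lib.MP_77dff5_pr
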