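import Pool.Agent.Lib.MP_77dff5_pr.EqA
import Pool.Agent.Lib.MP_77dff5_pr.PartA
import Pool.Agent.Lib.MP_77dff5_pr.PairBAux1

/-! Maps whose root edge lies in a network: comparison with decorated networks. -/

set_option autoImplicit false

namespace Pool.Agent.Lib.MP_77dff5_pr

open scoped ENNReal NNReal Classical

/-- the functional of rooted maps -/
noncomputable def pairB_Th (x y : ℝ≥0∞) (i j : ℕ) (g' : ℕ × ℕ → ℝ≥0∞) : VFun :=
  fun E V _ _ ν _ => x ^ (Fintype.card V - 1) * y ^ Fintype.card E *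
    g' (Fintype.card E - (Fintype.card V - 1), pairC ν (deg ν) i j)

/-- the functional of decorated networks -/
noncomputable def pairB_Phi (y : ℝ≥0∞) (i j : ℕ) (g : ℕ × ℕ → ℝ≥0∞) : DecF :=
  fun E _ _ _ N a b => emb (clo N) (flp _) * y ^ Fintype.card E *
    g ((gStat (fun _ => 0) N a b).1 - (gStat (fun _ => 0) N a b).2.1 - 1,
      gEps i j N a b (gDeg N a b (.inl true) + 1) (gDeg N a b (.inl false) + 1))

variable (x y : ℝ≥0∞) (i j : ℕ) (g g' : ℕ × ℕ → ℝ≥0∞)

theorem pairB_Th_inv : VInv (pairB_Th x y i j g') := by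
  intro E V E' V' _ _ _ _ u e N N' v h
  unfold pairB_Th
  rw [← Fintype.card_congr e, ← Fintype.card_congr u.edge,
    pairC_congr u e h (deg N) (deg N') (deg_congr u e h)]

theorem pairB_Phi_inv : DecInv (pairB_Phi y i j g) := by
  intro E V E' V' _ _ _ _ u e N N' a' b' h
  unfold pairB_Phi
  have h1 := gDeg_congr u e a' b' h (.inl true)
  have h2 := gDeg_congr u e a' b' h (.inl false)
  simp only [Sum.map_inl, id] at h1 h2
  rw [emb_clo_congr u e h, gEps_congr i j u e a' b' h, h1, h2, ← Fintype.card_congr u.edge]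
  simp only [gStat]
  rw [← Fintype.card_congr u.edge, ← Fintype.card_congr e, ← u.1.sum_comp, ← u.1.sum_comp
    (fun x => (a' x).2.1), ← e.sum_comp, ← e.sum_comp (fun x => (b' x).2.1)]

theorem pairB_w0_triv : w0 triv = 1 := by
  unfold w0 ind
  rw [rconn_triv.2.1, if_pos rconn_triv.1]
  simp [wt, triv]

theorem pairB_w0_supp {R : RG} (h : w0 R ≠ 0) : R.2.1 ≤ R.1 := by
  have hc : RConn R.2.2 := by
    by_contra hc
    exact h (by simp [w0, ind, hc])
  simpa using hc.card_le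

/-- maps whose root edge lies in a network and has trivial corners -/
theorem pairB_link :
    ∑' N : NG, wt N.1 N.2.1 * ind (IsNet N.2.2) * emb (clo N.2.2) (flp _) *
      ∑' a : Fin N.1 × Bool → RG, (∏ z, w0 (a z)) *
        pairB_Th x y i j g' _ _ (pairB_att N.2.2 a) (.inl true) ≤
      ∑' R, wM x y R * g' (R.1 - R.2.1, rpair i j R (rc R)) := by
  have hT := pairB_Th_inv x y i j g'
  have e1 : ∑' R, wM x y R * g' (R.1 - R.2.1, rpair i j R (rc R)) =
      ∑' R : RG, w0 R * pairB_Th x y i j g' _ _ R.2.2 none := by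
    refine tsum_congr fun R => ?_
    unfold wM pairB_Th
    rw [pairB_rpair_rc]
    simp only [Fintype.card_option, Fintype.card_fin, Nat.add_sub_cancel, mul_assoc]
  have hD : DInv fun E V _ _ ν z =>
      ind (SConn ν) * emb ν (flp E) * pairB_Th x y i j g' E V ν (ν z) := by
    intro E V E' V' _ _ _ _ u e N N' z h
    simp only [sconn_congr u e h, emb_flp_congr u e h, h z, hT E V E' V' u e N N' (N z) h]
  have hN : NInv fun E V _ _ N => pairB_Th x y i j g' _ _ (clo N) (.inl true) := by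
    intro E V E' V' _ _ _ _ u e N N' h
    exact hT _ _ _ _ u.opt ((Equiv.refl Bool).sumCongr e) (clo N) (clo N') (.inl true)
      (netB_clo u e h)
  have e2 := mark_dart _ hD
  have e3 := link_sum _ hN
  rw [e1, root_sum _ hT]
  refine le_trans ?_ le_add_self
  have e4 : ∑' ν : UG, wt ν.1 ν.2.1 * ind (SConn ν.2.2) * emb ν.2.2 (flp _) *
      ∑ z, pairB_Th x y i j g' _ _ ν.2.2 (ν.2.2 z) =
      ∑' ν : UG, wt ν.1 ν.2.1 * ∑ z, ind (SConn ν.2.2) * emb ν.2.2 (flp _) *
        pairB_Th x y i j g' _ _ ν.2.2 (ν.2.2 z) := by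
    refine tsum_congr fun ν => ?_
    rw [← Finset.mul_sum]
    simp only [mul_assoc]
  rw [e4, e2]
  refine le_trans ?_ le_self_add
  have e5 : ∑' G : NG, wt G.1 G.2.1 * (ind (SConn (clo G.2.2)) * emb (clo G.2.2) (flp _) *
      pairB_Th x y i j g' _ _ (clo G.2.2) (clo G.2.2 (none, true))) =
      ∑' G : NG, wt G.1 G.2.1 * ind (SConn (clo G.2.2)) * emb (clo G.2.2) (flp _) *
        pairB_Th x y i j g' _ _ (clo G.2.2) (.inl true) := by
    refine tsum_congr fun G => ?_
    simp only [mul_assoc]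
    rfl
  rw [e5, e3]
  refine le_trans (ENNReal.tsum_le_tsum fun N => ?_) le_add_self
  refine mul_le_mul_right ?_ _
  refine le_trans (ENNReal.tsum_le_tsum fun a => le_of_eq ?_)
    (ENNReal.tsum_comp_le_tsum_of_injective pairB_ext_inj _)
  congr 1
  rw [Fintype.prod_prod_type (f := fun p => w0 (pairB_ext a p)), Fintype.prod_option,
    Fintype.prod_prod_type]
  have : ∏ b : Bool, w0 (pairB_ext a (none, b)) = 1 :=
    Finset.prod_eq_one fun b _ => pairB_w0_triv
  rw [this, one_mul]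
  rfl

theorem pairB_card_ext {E : Type} [Fintype E] (a : E × Bool → RG) (c : RG → ℕ) (hc : c triv = 0) :
    ∑ p, c (pairB_ext a p) = ∑ z, c (a z) := by
  rw [Fintype.sum_prod_type, Fintype.sum_option, Fintype.sum_prod_type]
  have : ∑ b : Bool, c (pairB_ext a (none, b)) = 0 := Finset.sum_eq_zero fun b _ => hc
  rw [this, zero_add]
  rfl

variable {g g'}

theorem pairB_term (h : ∀ s a b : ℕ, a ≤ b → b ≤ a + 2 → g (s, a) ≤ g' (s + 1, b)) (N : NG)
    (hN : IsNet N.2.2) (a : Fin N.1 × Bool → RG) :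
    x * y * ((∏ z, wM x y (a z)) * (x ^ N.2.1 * pairB_Phi y i j g _ _ N.2.2 a fun _ => triv)) ≤
      emb (clo N.2.2) (flp _) * ((∏ z, w0 (a z)) *
        pairB_Th x y i j g' _ _ (pairB_att N.2.2 a) (.inl true)) := by
  by_cases h0 : ∏ z, w0 (a z) = 0
  · simp only [wM, Finset.prod_mul_distrib, h0, zero_mul, mul_zero, le_refl]
  have hs : ∑ z, (a z).2.1 ≤ ∑ z, (a z).1 :=
    Finset.sum_le_sum fun z _ => pairB_w0_supp fun hz =>
      h0 (Finset.prod_eq_zero (Finset.mem_univ z) hz)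
  have hlt : N.2.1 < N.1 := by simpa using hN.card_lt
  have cE : Fintype.card (Option (Fin N.1 ⊕ Σ p, Fin (pairB_ext a p).1)) =
      N.1 + ∑ z, (a z).1 + 1 := by
    simp only [Fintype.card_option, Fintype.card_sum, Fintype.card_sigma, Fintype.card_fin]
    rw [pairB_card_ext a (fun R => R.1) rfl]
  have cV : Fintype.card (Bool ⊕ (Fin N.2.1 ⊕ Σ p, Fin (pairB_ext a p).2.1)) - 1 =
      N.2.1 + ∑ z, (a z).2.1 + 1 := by
    simp only [Fintype.card_bool, Fintype.card_sum, Fintype.card_sigma, Fintype.card_fin]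
    rw [pairB_card_ext a (fun R => R.2.1) rfl]
    omega
  have hp := pairB_att_pair N.2.2 a i j
  have hg := h ((gStat (fun _ => 0) N.2.2 a fun _ => triv).1 -
    (gStat (fun _ => 0) N.2.2 a fun _ => triv).2.1 - 1) _ _ hp.1 hp.2
  have hsz : (gStat (fun _ => 0) N.2.2 a fun _ => triv).1 -
      (gStat (fun _ => 0) N.2.2 a fun _ => triv).2.1 - 1 + 1 =
      N.1 + ∑ z, (a z).1 + 1 - (N.2.1 + ∑ z, (a z).2.1 + 1) := by
    simp only [gStat, triv, Fintype.card_fin, Finset.sum_const_zero, add_zero]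
    omega
  rw [hsz] at hg
  unfold pairB_Th pairB_Phi
  rw [cV, cE]
  simp only [wM, Finset.prod_mul_distrib, Finset.prod_pow_eq_pow_sum, Fintype.card_fin]
  refine le_trans (le_of_eq ?_) (mul_le_mul_right (mul_le_mul_right (mul_le_mul_right hg _) _) _)
  ring

theorem pairB_upper (h : ∀ s a b : ℕ, a ≤ b → b ≤ a + 2 → g (s, a) ≤ g' (s + 1, b)) :
    x * y * ∑' D : DG, wDP (wM x y) (wTriv x) (fun N => IsT N.2.2) D *
      pairB_Phi y i j g _ _ D.1.2.2 D.2.1 D.2.2 ≤
      ∑' R, wM x y R * g' (R.1 - R.2.1, rpair i j R (rc R)) := by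
  refine le_trans ?_ (pairB_link x y i j g')
  rw [ENNReal.tsum_sigma', ← ENNReal.tsum_mul_left]
  refine ENNReal.tsum_le_tsum fun N => ?_
  by_cases hN : IsNet N.2.2
  swap
  · simp [wDP, wDec, ind, hN]
  rw [ENNReal.tsum_prod', ← ENNReal.tsum_mul_left, ← ENNReal.tsum_mul_left]
  refine ENNReal.tsum_le_tsum fun a => ?_
  have e1 : ∑' b : Fin N.2.1 → RG, wDP (wM x y) (wTriv x) (fun N => IsT N.2.2) ⟨N, a, b⟩ *
      pairB_Phi y i j g _ _ N.2.2 a b =
      wt N.1 N.2.1 * ind (IsNet N.2.2 ∧ IsT N.2.2) * ((∏ z, wM x y (a z)) *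
        (x ^ N.2.1 * pairB_Phi y i j g _ _ N.2.2 a fun _ => triv)) := by
    have := tsum_pi_wTriv x fun b : Fin N.2.1 → RG => pairB_Phi y i j g _ _ N.2.2 a b
    rw [Fintype.card_fin] at this
    rw [← this, ← ENNReal.tsum_mul_left, ← ENNReal.tsum_mul_left]
    refine tsum_congr fun b => ?_
    simp only [wDP, wDec, mul_assoc]
  have hi : ind (IsNet N.2.2 ∧ IsT N.2.2) ≤ ind (IsNet N.2.2) := by
    unfold ind
    rw [if_pos hN]
    split_ifs <;> simp
  refine (le_of_eq (congrArg _ e1)).trans ?_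
  calc _ = wt N.1 N.2.1 * ind (IsNet N.2.2 ∧ IsT N.2.2) * (x * y * ((∏ z, wM x y (a z)) *
        (x ^ N.2.1 * pairB_Phi y i j g _ _ N.2.2 a fun _ => triv))) := by ring
    _ ≤ wt N.1 N.2.1 * ind (IsNet N.2.2) * (emb (clo N.2.2) (flp _) * ((∏ z, w0 (a z)) *
        pairB_Th x y i j g' _ _ (pairB_att N.2.2 a) (.inl true))) :=
      mul_le_mul' (mul_le_mul_right hi _) (pairB_term x y i j h N hN a)
    _ = _ := by ring

end Pool.Agent.Lib.MP_77dff5_pr
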