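import Pool.Agent.Lib.MP_77dff5_pr.EqA
import Pool.Agent.Lib.MP_77dff5_pr.PartA
import Pool.Agent.Lib.MP_77dff5_pr.PairBAux2

/-! Pair counts of maps with a 3-connected core. -/

set_option autoImplicit false

namespace Pool.Agent.Lib.MP_77dff5_pr

open scoped ENNReal NNReal Classical

theorem pairB_glue_term (x y : ℝ≥0∞) (f : ℕ → ℝ) (k0 : ℕ) (mu : ℝ) (i j : ℕ) (g : ℕ × ℕ → ℝ≥0∞)
    (t : TT) (Ds : Fin t.1.1 → DG) :
    2 * ((∏ k, wDec (wNA y fun _ => True) (wM x y) (wTriv x) (Ds k)) *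
      g (((famAH f k0 mu).core t).S sA (Sum.elim (fun k => .inr (.inl (Ds k))) fun _ => .inl triv),
        Xhat aO bO (epsO i j) t.1 (Sum.elim (fun k => .inr (.inl (Ds k))) fun _ => .inl triv))) =
      (∏ k, wDP (wM x y) (wTriv x) (fun _ => True) (Ds k)) *
        pairB_Phi y i j g _ _ (glue t.1.2.2 fun k => (Ds k).1.2.2) (glueD Ds)
          (glueV (fun _ => triv) Ds) := by
  have hw : ∀ D : DG, wDec (wNA y fun _ => True) (wM x y) (wTriv x) D =
      wDP (wM x y) (wTriv x) (fun _ => True) D * (emb (clo D.1.2.2) (flp _) * y ^ D.1.1) := by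
    intro D
    simp only [wDec, wNA, wDP]
    ring
  have ht := t.2.1.1
  by_cases hN : ∀ k, IsNet (Ds k).1.2.2
  swap
  · obtain ⟨k, hk⟩ := not_forall.1 hN
    have h0 : ∏ k, wDP (wM x y) (wTriv x) (fun _ => True) (Ds k) = 0 :=
      Finset.prod_eq_zero (Finset.mem_univ k) (by simp [wDP, wDec, ind, hk])
    simp only [hw, Finset.prod_mul_distrib, h0, zero_mul, mul_zero]
  have hemb := emb_glue ht hN fun k => Or.inr (t.2.1.oneBridge k)
  rw [whitney t.2.1 t.2.2] at hemb
  have hpow : y ^ Fintype.card (Σ k, Fin (Ds k).1.1) = ∏ k, y ^ (Ds k).1.1 := by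
    rw [Finset.prod_pow_eq_pow_sum, Fintype.card_sigma]
    simp only [Fintype.card_fin]
  by_cases h0 : ∏ k, wDec (wNA y fun _ => True) (wM x y) (wTriv x) (Ds k) = 0
  · rw [h0, zero_mul, mul_zero]
    unfold pairB_Phi
    rw [hemb, hpow]
    simp only [hw, Finset.prod_mul_distrib] at h0
    push_cast
    generalize g _ = c
    calc (0 : ℝ≥0∞) = 2 * 0 * c := by rw [mul_zero, zero_mul]
      _ = _ := by rw [← h0]; ring
  have hs : ∀ k, ne (.inr (.inl (Ds k))) = sA (.inr (.inl (Ds k))) + nv (.inr (.inl (Ds k))) + 1 :=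
    fun k => (suppA (x := x) (y := y) (P := fun _ => True) (ω := .inr (.inl (Ds k)))
      fun hk => h0 (Finset.prod_eq_zero (Finset.mem_univ k) hk)).2.2.1
  have hlt : t.1.2.1 < t.1.1 := by simpa using ht.card_lt
  have hS : ((famAH f k0 mu).core t).S sA
      (Sum.elim (fun k => .inr (.inl (Ds k))) fun _ => .inl triv) =
      (gStat (fun _ => 0) (glue t.1.2.2 fun k => (Ds k).1.2.2) (glueD Ds)
        (glueV (fun _ => triv) Ds)).1 -
      (gStat (fun _ => 0) (glue t.1.2.2 fun k => (Ds k).1.2.2) (glueD Ds)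
        (glueV (fun _ => triv) Ds)).2.1 - 1 := by
    rw [gStat_glue]
    have e1 : ((famAH f k0 mu).core t).S sA
        (Sum.elim (fun k => .inr (.inl (Ds k))) fun _ => .inl triv) =
        t.1.1 - t.1.2.1 - 1 + ∑ u : Fin t.1.1 ⊕ Fin t.1.2.1,
          sA (Sum.elim (fun k => .inr (.inl (Ds k))) (fun _ => .inl triv) u) := rfl
    have e2 : sA (.inl triv) = 0 := rfl
    have e3 : triv.1 = 0 := rfl
    have e4 : triv.2.1 = 0 := rfl
    rw [e1, Fintype.sum_sum_type]
    simp only [Sum.elim_inl, Sum.elim_inr, e2, e3, e4, Finset.sum_const_zero, add_zero,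
      Fintype.card_fin, hs, Finset.sum_add_distrib, Finset.sum_const, Finset.card_univ,
      smul_eq_mul, mul_one]
    omega
  have hH : ∀ u : Bool ⊕ Fin t.1.2.1,
      hatDeg aO bO t.1 (Sum.elim (fun k => .inr (.inl (Ds k))) fun _ => .inl triv) u =
      gDeg (glue t.1.2.2 fun k => (Ds k).1.2.2) (glueD Ds) (glueV (fun _ => triv) Ds)
        (u.map id Sum.inl) + u.elim (fun _ => 1) fun _ => 0 := by
    intro u
    have h3 : u.elim (fun _ => 0) (fun _ => rc triv) = 0 := by
      cases u with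
      | inl c => rfl
      | inr v => exact rc_triv
    rw [gDeg_glue_core, h3, add_zero]
    unfold hatDeg poleSum
    congr 1
    refine Finset.sum_congr rfl fun z _ => ?_
    by_cases hz : t.1.2.2 z = u
    · rw [if_pos hz, if_pos hz]
      obtain ⟨k, c⟩ := z
      cases c <;> rfl
    · rw [if_neg hz, if_neg hz]
  have hX : Xhat aO bO (epsO i j) t.1 (Sum.elim (fun k => .inr (.inl (Ds k))) fun _ => .inl triv) =
      gEps i j (glue t.1.2.2 fun k => (Ds k).1.2.2) (glueD Ds) (glueV (fun _ => triv) Ds)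
        (gDeg (glue t.1.2.2 fun k => (Ds k).1.2.2) (glueD Ds) (glueV (fun _ => triv) Ds)
          (.inl true) + 1)
        (gDeg (glue t.1.2.2 fun k => (Ds k).1.2.2) (glueD Ds) (glueV (fun _ => triv) Ds)
          (.inl false) + 1) := by
    rw [gEps_glue _ _ _ _ fun z => ht.no_loop (some z.1, z.2)]
    unfold Xhat
    refine Finset.sum_congr rfl fun k _ => ?_
    have hd : ∀ u : Bool ⊕ Fin t.1.2.1,
        hatDeg aO bO t.1 (Sum.elim (fun k => .inr (.inl (Ds k))) fun _ => .inl triv) u =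
        gDeg' (glue t.1.2.2 fun k => (Ds k).1.2.2) (glueD Ds) (glueV (fun _ => triv) Ds)
          (gDeg (glue t.1.2.2 fun k => (Ds k).1.2.2) (glueD Ds) (glueV (fun _ => triv) Ds)
            (.inl true) + 1)
          (gDeg (glue t.1.2.2 fun k => (Ds k).1.2.2) (glueD Ds) (glueV (fun _ => triv) Ds)
            (.inl false) + 1) (u.map id Sum.inl) := by
      intro u
      rw [hH]
      rcases u with c | v
      · cases c <;> rfl
      · rfl
    rw [hd, hd]
    rfl
  rw [hS, hX]
  unfold pairB_Phi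
  rw [hemb, hpow]
  simp only [hw, Finset.prod_mul_distrib]
  push_cast
  ring

theorem pair_core (x y : ℝ≥0∞) (f : ℕ → ℝ) (k0 : ℕ) (mu : ℝ) (i j : ℕ) (g g' : ℕ × ℕ → ℝ≥0∞)
    (h : ∀ s a b : ℕ, a ≤ b → b ≤ a + 2 → g (s, a) ≤ g' (s + 1, b)) :
    x * y * ∑' t : TT, (famAH f k0 mu).w t * ∑' ω : Fin t.1.1 ⊕ Fin t.1.2.1 → Om,
        (∏ u, wgA x y (((famAH f k0 mu).core t).cls u) (ω u)) *
          g (((famAH f k0 mu).core t).S sA ω, Xhat aO bO (epsO i j) t.1 ω) ≤
      ∑' R, wM x y R * g' (R.1 - R.2.1, rpair i j R (rc R)) := by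
  refine le_trans (mul_le_mul_right ?_ _) (pairB_upper x y i j h)
  rw [dec_T _ _ _ (pairB_Phi_inv y i j g)]
  refine le_trans (ENNReal.tsum_le_tsum fun t => le_of_eq ?_)
    (ENNReal.tsum_comp_le_tsum_of_injective (Subtype.val_injective (p := fun t : NG =>
      Core3 t.2.2 ∧ emb (clo t.2.2) (flp _) ≠ 0)) _)
  have e0 : ∀ ω : Fin t.1.1 ⊕ Fin t.1.2.1 → Om,
      ∏ u, wgA x y (((famAH f k0 mu).core t).cls u) (ω u) =
        ∏ u, Sum.elim (fun _ => onD (wDec (wNA y fun _ => True) (wM x y) (wTriv x)))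
          (fun _ => onR (wTriv x)) u (ω u) := by
    intro ω
    refine Finset.prod_congr rfl fun u _ => ?_
    cases u <;> rfl
  simp only [e0]
  rw [tsum_pi_sum]
  have hi : ind (Core3 t.1.2.2) = 1 := if_pos t.2.1
  have hw : (famAH f k0 mu).w t = wt t.1.1 t.1.2.1 * 2 := mul_comm _ _
  rw [hi, mul_one, hw, mul_assoc, ← ENNReal.tsum_mul_left]
  congr 1
  refine tsum_congr fun Ds => ?_
  simp only [mul_assoc]
  rw [ENNReal.tsum_mul_left, ENNReal.tsum_mul_left, tsum_pi_wTriv, tsum_pi_wTriv]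
  have := pairB_glue_term x y f k0 mu i j g t Ds
  rw [mul_left_comm _ (x ^ _), mul_left_comm _ (x ^ _), mul_left_comm _ (x ^ _)]
  exact congrArg _ this

theorem epsO_le (i j : ℕ) (ω : Om) (d d' : ℕ) : epsO i j ω d d' ≤ 2 * ne ω := by
  rcases ω with R | D | ν
  · exact Nat.zero_le _
  · have hr : ∀ (R : RG) (e : ℕ), rpair i j R e ≤ 2 * R.1 := fun R e => by
      simpa [rpair] using pairB_le R.2.2 (fun o => o.elim e fun v => deg R.2.2 (some v)) i j
    have h1 : pairC D.1.2.2 (dDeg' D d d') i j ≤ 2 * D.1.1 := by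
      simpa using pairB_le D.1.2.2 (dDeg' D d d') i j
    show pairC _ _ i j + _ + _ ≤ 2 * (D.1.1 + ∑ x, (D.2.1 x).1 + ∑ v, (D.2.2 v).1)
    rw [mul_add, mul_add, Finset.mul_sum, Finset.mul_sum]
    exact add_le_add (add_le_add h1 (Finset.sum_le_sum fun x _ => hr _ _))
      (Finset.sum_le_sum fun v _ => hr _ _)
  · exact Nat.zero_le _

theorem epsO_swapO (i j : ℕ) (ω : Om) (d d' : ℕ) :
    epsO i j (swapO ω) d d' = epsO i j ω d' d := by
  rcases ω with R | D | ν
  · rfl
  · have hd : ∀ u, dDeg' ⟨⟨D.1.1, D.1.2.1, swapP D.1.2.2⟩, D.2⟩ d d' (Sum.map not id u) =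
        dDeg' D d' d u := by
      rintro (c | v)
      · cases c <;> rfl
      · show dDeg _ (.inr v) = dDeg D (.inr v)
        unfold dDeg
        congr 1
        refine Finset.sum_congr rfl fun z _ => if_congr ?_ rfl rfl
        show Sum.map not id (D.1.2.2 z) = .inr v ↔ _
        cases D.1.2.2 z <;> simp
    have hinj : Function.Injective (Sum.map not id : Bool ⊕ Fin D.1.2.1 → Bool ⊕ Fin D.1.2.1) :=
      Sum.map_injective.2 ⟨Bool.not_injective, Function.injective_id⟩
    show pairC (fun z => Sum.map not id (D.1.2.2 z)) _ i j + _ + _ = pairC _ _ i j + _ + _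
    rw [pairB_map hinj]
    simp only [hd]
    congr 1
    · congr 1
      exact Finset.sum_congr rfl fun z _ => congrArg _ (hd _)
    · exact Finset.sum_congr rfl fun v _ => congrArg _ (hd (.inr v))
  · rfl

theorem epsO_min (i j : ℕ) (ω : Om) (d d' : ℕ) :
    epsO i j ω d d' = epsO i j ω (min d (max i j + 1)) (min d' (max i j + 1)) := by
  rcases ω with R | D | ν
  · rfl
  · have hd : ∀ u, (dDeg' D d d' u = i ↔
        dDeg' D (min d (max i j + 1)) (min d' (max i j + 1)) u = i) ∧ (dDeg' D d d' u = j ↔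
        dDeg' D (min d (max i j + 1)) (min d' (max i j + 1)) u = j) := by
      rintro (c | v)
      · have hm : ∀ e : ℕ, (e = i ↔ min e (max i j + 1) = i) ∧
            (e = j ↔ min e (max i j + 1) = j) := fun e => by
          constructor <;> constructor <;> intro he <;> omega
        cases c
        · exact hm d'
        · exact hm d
      · exact ⟨Iff.rfl, Iff.rfl⟩
    show pairC _ _ i j + _ + _ = pairC _ _ i j + _ + _
    rw [pairB_congr _ hd]
    congr 1
    congr 1
    exact Finset.sum_congr rfl fun z _ => pairB_rpair_congr _ (hd _)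
  · rfl

theorem epsO_mixed (i j : ℕ) (ω : Om) (d d' : ℕ) :
    epsO i j ω d d' + epsO i j ω (max i j + 1) (max i j + 1) =
      epsO i j ω d (max i j + 1) + epsO i j ω (max i j + 1) d' +
        dirO ω * ((if d = i ∧ d' = j then 1 else 0) + if d = j ∧ d' = i then 1 else 0) := by
  rcases ω with R | D | ν
  · simp [epsO, dirO]
  · set K := max i j + 1 with hK
    have hKi : K ≠ i := by omega
    have hKj : K ≠ j := by omega
    have hdir : dirO (.inr (.inl D)) = ∑ z, if D.1.2.2 z = .inl true ∧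
        D.1.2.2 (flp _ z) = .inl false then 1 else 0 := by
      unfold dirO
      simp only
      rw [pairB_card_sum]
      exact Finset.sum_congr rfl fun z _ => by congr
    have hdir' : dirO (.inr (.inl D)) = ∑ z, if D.1.2.2 z = .inl false ∧
        D.1.2.2 (flp _ z) = .inl true then 1 else 0 := by
      rw [hdir, ← Equiv.sum_comp (flp _)]
      refine Finset.sum_congr rfl fun z _ => if_congr ?_ rfl rfl
      rw [netA_flp_flp, and_comm]
    have h1 : pairC D.1.2.2 (dDeg' D d d') i j + pairC D.1.2.2 (dDeg' D K K) i j =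
        pairC D.1.2.2 (dDeg' D d K) i j + pairC D.1.2.2 (dDeg' D K d') i j +
          dirO (.inr (.inl D)) *
            ((if d = i ∧ d' = j then 1 else 0) + if d = j ∧ d' = i then 1 else 0) := by
      rw [mul_add]
      nth_rewrite 1 [hdir]
      rw [hdir']
      simp only [pairB_sum, Finset.sum_mul, ← Finset.sum_add_distrib]
      refine Finset.sum_congr rfl fun z _ => ?_
      generalize D.1.2.2 z = u
      generalize D.1.2.2 (flp _ z) = u'
      rcases u with (_ | _) | v <;> rcases u' with (_ | _) | v' <;>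
        simp [dDeg', hKi, hKj, and_comm]
    have h2 : ∀ (R : RG) (u : Bool ⊕ Fin D.1.2.1),
        rpair i j R (dDeg' D d d' u) + rpair i j R (dDeg' D K K u) =
          rpair i j R (dDeg' D d K u) + rpair i j R (dDeg' D K d' u) := by
      rintro R ((_ | _) | v)
      · exact add_comm _ _
      · rfl
      · rfl
    have h3 := Finset.sum_congr (s₁ := Finset.univ) rfl fun z _ => h2 (D.2.1 z) (D.1.2.2 z)
    have h4 := Finset.sum_congr (s₁ := Finset.univ) rfl fun v _ => h2 (D.2.2 v) (.inr v)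
    simp only [Finset.sum_add_distrib] at h3 h4
    simp only [epsO]
    omega
  · simp [epsO, dirO]

end Pool.Agent.Lib.MP_77dff5_pr
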