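import Pool.Agent.Lib.MP_77dff5_pr.TCoreA

/-! Mean of the pair count given the core. -/

set_option autoImplicit false

namespace Pool.Agent.Lib.MP_77dff5_pr

open MeasureTheory ProbabilityTheory Filter Topology
open scoped ENNReal NNReal

variable {Ω J : Type} [Countable Ω] [MeasurableSpace Ω] [DiscreteMeasurableSpace Ω]
  {ν : J → Measure Ω} {a b c Y dir : Ω → ℕ} {eps : Ω → ℕ → ℕ → ℕ} {jD jV : J} {i j : ℕ}

/-- what is used about the pair count of a decorated network -/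
structure EpsOK (μ : Measure Ω) (a b Y dir : Ω → ℕ) (eps : Ω → ℕ → ℕ → ℕ) (i j : ℕ) : Prop where
  sym : ∃ sw : Ω → Ω, μ.map sw = μ ∧ (∀ ω, a (sw ω) = b ω) ∧ (∀ ω, b (sw ω) = a ω) ∧
    (∀ ω, dir (sw ω) = dir ω) ∧ ∀ ω d d', eps (sw ω) d d' = eps ω d' d
  one_le : ∀ᵐ ω ∂μ, 1 ≤ a ω ∧ 1 ≤ b ω ∧ dir ω ≤ Y ω
  int : Integrable (fun ω => (Y ω : ℝ)) μ
  le : ∀ ω d d', eps ω d d' ≤ Y ω
  min : ∀ ω d d', eps ω d d' = eps ω (min d (max i j + 1)) (min d' (max i j + 1))
  mixed : ∀ ω d d', eps ω d d' + eps ω (max i j + 1) (max i j + 1) =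
    eps ω d (max i j + 1) + eps ω (max i j + 1) d' +
      dir ω * ((if d = i ∧ d' = j then 1 else 0) + if d = j ∧ d' = i then 1 else 0)
  atom : μ {ω | a ω = 1 ∧ b ω = 1 ∧ dir ω = 1} ≠ 0

/-- the slot of the edge of a dart, seen from that dart -/
def pairCOr (sw : Ω → Ω) {m n : ℕ} (x : Fin m × Bool) (ω : Fin m ⊕ Fin n → Ω) : Ω :=
  if x.2 then ω (.inl x.1) else sw (ω (.inl x.1))

/-- the law of the slots -/
noncomputable def pairCP (ν : J → Measure Ω) (jD jV : J) (m n : ℕ) : Measure (Fin m ⊕ Fin n → Ω) :=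
  Measure.pi fun k => ν (Sum.elim (fun _ => jD) (fun _ => jV) k)

omit [Countable Ω] [DiscreteMeasurableSpace Ω] in
theorem pairC_prob (hν : ∀ j, IsProbabilityMeasure (ν j)) (m n : ℕ) :
    IsProbabilityMeasure (pairCP ν jD jV m n) := by
  unfold pairCP
  infer_instance

omit [Countable Ω] in
theorem pairC_mp1 (hν : ∀ j, IsProbabilityMeasure (ν j)) {sw : Ω → Ω} (hsw : (ν jD).map sw = ν jD)
    {m n : ℕ} (x : Fin m × Bool) :
    MeasurePreserving (pairCOr sw x) (pairCP ν jD jV m n) (ν jD) := by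
  have h1 : MeasurePreserving (fun ω : Fin m ⊕ Fin n → Ω => ω (.inl x.1)) (pairCP ν jD jV m n)
      (ν jD) :=
    measurePreserving_eval (fun k : Fin m ⊕ Fin n => ν (Sum.elim (fun _ => jD) (fun _ => jV) k))
      (.inl x.1)
  have h2 : MeasurePreserving sw (ν jD) (ν jD) := ⟨Measurable.of_discrete, hsw⟩
  obtain ⟨e, s⟩ := x
  cases s
  · exact h2.comp h1
  · exact h1

omit [Countable Ω] in
theorem pairC_mp (hν : ∀ j, IsProbabilityMeasure (ν j)) {sw : Ω → Ω} (hsw : (ν jD).map sw = ν jD)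
    {m n : ℕ} {L : Type} [Fintype L] (ψ : L → Fin m × Bool)
    (hψ : Function.Injective fun l => (ψ l).1) :
    MeasurePreserving (fun ω l => pairCOr sw (ψ l) ω) (pairCP ν jD jV m n)
      (Measure.pi fun _ : L => ν jD) := by
  have := pairC_prob (jD := jD) (jV := jV) hν m n
  have h0 : iIndepFun (fun (k : Fin m ⊕ Fin n) (ω : Fin m ⊕ Fin n → Ω) => ω k)
      (pairCP ν jD jV m n) :=
    iIndepFun_pi (X := fun _ ω => ω) fun _ => aemeasurable_id
  have h1 := h0.precomp (g := fun l : L => (Sum.inl (ψ l).1 : Fin m ⊕ Fin n))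
    (Sum.inl_injective.comp hψ)
  have h2 := h1.comp (fun l ω => if (ψ l).2 then ω else sw ω) fun _ => Measurable.of_discrete
  have h3 : iIndepFun (fun l ω => pairCOr sw (ψ l) ω) (pairCP ν jD jV m n) := h2
  refine ⟨measurable_pi_lambda _
    fun l => (pairC_mp1 (jV := jV) (n := n) hν hsw (ψ l)).measurable, ?_⟩
  rw [(iIndepFun_iff_map_fun_eq_pi_map
    fun l => (pairC_mp1 (jV := jV) (n := n) hν hsw (ψ l)).measurable.aemeasurable).1 h3]
  congr 1
  funext l
  exact (pairC_mp1 hν hsw (ψ l)).map_eq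

theorem pairC_deg {D V : Type} [Fintype D] [DecidableEq V] (N : D → V) (u : V) :
    deg N u = (Finset.univ.filter fun x => N x = u).card := by
  rw [deg, Nat.card_eq_fintype_card, Fintype.card_subtype]

theorem pairC_fiber {D V : Type} [Fintype D] [Fintype V] [DecidableEq V] (N : D → V) (F : V → ℝ) :
    ∑ x, F (N x) = ∑ u, deg N u * F u := by
  rw [← Finset.sum_fiberwise Finset.univ N]
  refine Finset.sum_congr rfl fun u _ => ?_
  rw [Finset.sum_congr rfl (g := fun _ => F u) fun x hx => by rw [(Finset.mem_filter.1 hx).2],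
    Finset.sum_const, pairC_deg, nsmul_eq_mul]

theorem pairC_enum {D V : Type} [Fintype D] [DecidableEq D] [DecidableEq V] (N : D → V) (x : D) :
    ∃ e : Fin (deg N (N x) - 1) → D, Function.Injective e ∧ (∀ k, N (e k) = N x ∧ e k ≠ x) ∧
      ∀ F : D → ℕ, (∑ y, if N y = N x then F y else 0) = F x + ∑ k, F (e k) := by
  set S := (Finset.univ.filter fun y => N y = N x).erase x with hS
  have hx : x ∈ Finset.univ.filter fun y => N y = N x := by simp
  have hc : S.card = deg N (N x) - 1 := by rw [hS, Finset.card_erase_of_mem hx, pairC_deg]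
  let e := (Finset.equivFinOfCardEq hc).symm
  refine ⟨fun k => e k, Subtype.val_injective.comp e.injective, fun k => ?_, fun F => ?_⟩
  · have := Finset.mem_erase.1 (e k).2
    exact ⟨(Finset.mem_filter.1 this.2).2, this.1⟩
  · rw [← Finset.sum_filter, ← Finset.add_sum_erase _ _ hx, Equiv.sum_comp e fun y => F y,
      Finset.sum_coe_sort]

omit [Countable Ω] [MeasurableSpace Ω] [DiscreteMeasurableSpace Ω] in
theorem pairC_hat {sw : Ω → Ω} (ha : ∀ ω, a (sw ω) = b ω) (t : NG) (ω : Fin t.1 ⊕ Fin t.2.1 → Ω)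
    (u : Bool ⊕ Fin t.2.1) :
    hatDeg a b t ω u = (∑ y, if t.2.2 y = u then a (pairCOr sw y ω) else 0) +
      u.elim (fun _ => 1) fun _ => 0 := by
  unfold hatDeg poleSum
  congr 1
  refine Finset.sum_congr rfl fun y _ => ?_
  unfold pairCOr
  split_ifs
  · rfl
  · rw [ha]
  · rfl

omit [Countable Ω] [MeasurableSpace Ω] [DiscreteMeasurableSpace Ω] in
theorem pairC_hat_ge {sw : Ω → Ω} (ha : ∀ ω, a (sw ω) = b ω) (t : NG)
    {ω : Fin t.1 ⊕ Fin t.2.1 → Ω} (hω : ∀ y, 1 ≤ a (pairCOr sw y ω)) (u : Bool ⊕ Fin t.2.1) :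
    deg t.2.2 u ≤ hatDeg a b t ω u := by
  rw [pairC_hat ha, pairC_deg, Finset.card_filter]
  refine le_trans (Finset.sum_le_sum fun y _ => ?_) (Nat.le_add_right _ _)
  split_ifs
  · exact hω y
  · exact le_rfl

omit [Countable Ω] [MeasurableSpace Ω] [DiscreteMeasurableSpace Ω] in
theorem pairC_flp {sw : Ω → Ω} (ha : ∀ ω, a (sw ω) = b ω) (hb : ∀ ω, b (sw ω) = a ω) {m n : ℕ}
    (x : Fin m × Bool) (ω : Fin m ⊕ Fin n → Ω) :
    a (pairCOr sw (flp _ x) ω) = b (pairCOr sw x ω) := by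
  obtain ⟨e, s⟩ := x
  cases s
  · exact (hb _).symm
  · exact ha _

theorem pairC_edge {E : Type} {x y : E × Bool} (h : y.1 = x.1) : y = x ∨ y = flp E x := by
  obtain ⟨e, s⟩ := x
  obtain ⟨e', s'⟩ := y
  obtain rfl : e' = e := h
  cases s <;> cases s' <;> simp [flp]

theorem pairC_flp_flp {E : Type} (x : E × Bool) : flp E (flp E x) = x := by
  obtain ⟨e, s⟩ := x
  cases s <;> rfl

/-- the part of the pair count that depends on one end -/
noncomputable def pairCG (eps : Ω → ℕ → ℕ → ℕ) (K : ℕ) (ω : Ω) (d : ℕ) : ℝ :=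
  (eps ω d K : ℝ) - eps ω K K

/-- the part of the pair count that depends on both ends -/
noncomputable def pairCH (dir : Ω → ℕ) (i j : ℕ) (ω : Ω) (d d' : ℕ) : ℝ :=
  if d = i ∧ d' = j then (dir ω : ℝ) else 0

/-- mean of the one-end part -/
noncomputable def pairCGam (μ : Measure Ω) (a : Ω → ℕ) (eps : Ω → ℕ → ℕ → ℕ) (K d : ℕ) : ℝ :=
  if d < K then ∫ ξ : Option (Fin (d - 1)) → Ω,
    pairCG eps K (ξ none) (a (ξ none) + ∑ k, a (ξ (some k))) ∂Measure.pi fun _ => μ
  else 0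

/-- mean of the two-ends part -/
noncomputable def pairCPi (μ : Measure Ω) (a b dir : Ω → ℕ) (i j p q : ℕ) : ℝ :=
  ∫ ξ : Option (Fin (p - 1) ⊕ Fin (q - 1)) → Ω,
    pairCH dir i j (ξ none) (a (ξ none) + ∑ k, a (ξ (some (.inl k))))
      (b (ξ none) + ∑ k, a (ξ (some (.inr k)))) ∂Measure.pi fun _ => μ

/-- weight of the poles of small degree -/
noncomputable def pairCW (K : ℕ) (t : NG) (u : Bool ⊕ Fin t.2.1) : ℝ :=
  u.elim (fun s => if deg t.2.2 (.inl s) < K then 1 else 0) fun _ => 0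

theorem pairC_W_nonneg (K : ℕ) (t : NG) (u : Bool ⊕ Fin t.2.1) : 0 ≤ pairCW K t u := by
  rcases u with s | v
  · simp only [pairCW, Sum.elim_inl]
    split_ifs <;> norm_num
  · exact le_rfl

theorem pairC_W_sum (K : ℕ) (t : NG) : ∑ x, pairCW K t (t.2.2 x) ≤ 2 * K := by
  rw [pairC_fiber, Fintype.sum_sum_type]
  have h : ∀ s : Bool, (deg t.2.2 (.inl s) : ℝ) * pairCW K t (.inl s) ≤ K := by
    intro s
    simp only [pairCW, Sum.elim_inl]
    split_ifs with h
    · rw [mul_one]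
      exact_mod_cast h.le
    · simp
  have h1 := h true
  have h2 := h false
  simp only [pairCW, Sum.elim_inr, mul_zero, Finset.sum_const_zero, add_zero,
    Fintype.sum_bool] at h1 h2 ⊢
  linarith

omit [Countable Ω] [DiscreteMeasurableSpace Ω] in
theorem pairC_G_le {μ : Measure Ω} (h : EpsOK μ a b Y dir eps i j) (K : ℕ) (ω : Ω) (d : ℕ) :
    |pairCG eps K ω d| ≤ Y ω := by
  have h1 : (eps ω d K : ℝ) ≤ Y ω := by exact_mod_cast h.le ω d K
  have h2 : (eps ω K K : ℝ) ≤ Y ω := by exact_mod_cast h.le ω K K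
  have h3 : (0 : ℝ) ≤ eps ω d K := Nat.cast_nonneg _
  have h4 : (0 : ℝ) ≤ eps ω K K := Nat.cast_nonneg _
  rw [pairCG, abs_le]
  constructor <;> linarith

omit [Countable Ω] [DiscreteMeasurableSpace Ω] in
theorem pairC_G_zero {μ : Measure Ω} (h : EpsOK μ a b Y dir eps i j) (ω : Ω) {d : ℕ}
    (hd : max i j + 1 ≤ d) : pairCG eps (max i j + 1) ω d = 0 := by
  rw [pairCG, h.min ω d, min_eq_right hd, min_self, sub_self]

omit [Countable Ω] [MeasurableSpace Ω] [DiscreteMeasurableSpace Ω] in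
theorem pairC_H_le {ω : Ω} (h : dir ω ≤ Y ω) (d d' : ℕ) : |pairCH dir i j ω d d'| ≤ Y ω := by
  unfold pairCH
  split_ifs
  · rw [abs_of_nonneg (Nat.cast_nonneg _)]
    exact_mod_cast h
  · simp

omit [Countable Ω] [DiscreteMeasurableSpace Ω] in
theorem pairC_split {μ : Measure Ω} (h : EpsOK μ a b Y dir eps i j) {sw : Ω → Ω}
    (hd : ∀ ω, dir (sw ω) = dir ω) (he : ∀ ω d d', eps (sw ω) d d' = eps ω d' d) (t : NG)
    (ω : Fin t.1 ⊕ Fin t.2.1 → Ω) :
    (Xhat a b eps t ω : ℝ) =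
      ∑ e : Fin t.1, (eps (pairCOr sw (e, true) ω) (max i j + 1) (max i j + 1) : ℝ) +
      ∑ x, pairCG eps (max i j + 1) (pairCOr sw x ω) (hatDeg a b t ω (t.2.2 x)) +
      ∑ x, pairCH dir i j (pairCOr sw x ω) (hatDeg a b t ω (t.2.2 x))
        (hatDeg a b t ω (t.2.2 (flp _ x))) := by
  rw [Fintype.sum_prod_type, Fintype.sum_prod_type, ← Finset.sum_add_distrib,
    ← Finset.sum_add_distrib, Xhat, Nat.cast_sum]
  refine Finset.sum_congr rfl fun e _ => ?_
  have h1 := congrArg (Nat.cast : ℕ → ℝ)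
    (h.mixed (ω (.inl e)) (hatDeg a b t ω (t.2.2 (e, true))) (hatDeg a b t ω (t.2.2 (e, false))))
  have h2 : flp (Fin t.1) (e, true) = (e, false) := rfl
  have h3 : flp (Fin t.1) (e, false) = (e, true) := rfl
  simp only [Fintype.sum_bool, pairCG, pairCH, pairCOr, h2, h3, if_true, Bool.false_eq_true,
    if_false, hd, he]
  push_cast at h1
  simp only [and_comm (a := hatDeg a b t ω (t.2.2 (e, false)) = i)]
  split_ifs at h1 ⊢ <;> linarith

section
variable (hν : ∀ j, IsProbabilityMeasure (ν j)) (h : EpsOK (ν jD) a b Y dir eps i j)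
  {sw : Ω → Ω} (hsw : (ν jD).map sw = ν jD) (ha : ∀ ω, a (sw ω) = b ω) (hb : ∀ ω, b (sw ω) = a ω)
include hν h hsw

omit [Countable Ω] in
theorem pairC_ae (m n : ℕ) : ∀ᵐ ω ∂pairCP ν jD jV m n, ∀ x : Fin m × Bool,
    1 ≤ a (pairCOr sw x ω) ∧ dir (pairCOr sw x ω) ≤ Y (pairCOr sw x ω) := by
  rw [ae_all_iff]
  intro x
  have h' : ∀ᵐ ω ∂ν jD, 1 ≤ a ω ∧ dir ω ≤ Y ω := h.one_le.mono fun ω h => ⟨h.1, h.2.2⟩
  exact (pairC_mp1 (jV := jV) (n := n) hν hsw x).quasiMeasurePreserving.ae h'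

theorem pairC_int {m n : ℕ} (x : Fin m × Bool) {F : (Fin m ⊕ Fin n → Ω) → ℝ}
    (hF : ∀ᵐ ω ∂pairCP ν jD jV m n, |F ω| ≤ Y (pairCOr sw x ω)) :
    Integrable F (pairCP ν jD jV m n) ∧ |∫ ω, F ω ∂pairCP ν jD jV m n| ≤ ∫ ω, (Y ω : ℝ) ∂ν jD := by
  have h1 : Integrable (fun ω => (Y (pairCOr sw x ω) : ℝ)) (pairCP ν jD jV m n) :=
    (pairC_mp1 hν hsw x).integrable_comp_of_integrable h.int
  have h2 : Integrable F (pairCP ν jD jV m n) :=
    h1.mono' Measurable.of_discrete.aestronglyMeasurable hF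
  refine ⟨h2, abs_integral_le_integral_abs.trans ((integral_mono_ae h2.abs h1 hF).trans ?_)⟩
  have hm := pairC_mp1 (jV := jV) (n := n) hν hsw x
  conv_rhs => rw [← hm.map_eq]
  rw [integral_map hm.measurable.aemeasurable Measurable.of_discrete.aestronglyMeasurable]

include ha in
theorem pairC_T2 (t : NG) (ht : Simple t.2.2) (x : Fin t.1 × Bool) :
    |∫ ω, pairCG eps (max i j + 1) (pairCOr sw x ω) (hatDeg a b t ω (t.2.2 x))
        ∂pairCP ν jD jV t.1 t.2.1 -
      (t.2.2 x).elim (fun _ => 0)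
        fun v => pairCGam (ν jD) a eps (max i j + 1) (deg t.2.2 (.inr v))| ≤
      (∫ ω, (Y ω : ℝ) ∂ν jD) * pairCW (max i j + 1) t (t.2.2 x) := by
  have hz : max i j + 1 ≤ deg t.2.2 (t.2.2 x) →
      ∫ ω, pairCG eps (max i j + 1) (pairCOr sw x ω) (hatDeg a b t ω (t.2.2 x))
        ∂pairCP ν jD jV t.1 t.2.1 = 0 := by
    intro hd
    refine integral_eq_zero_of_ae ?_
    filter_upwards [pairC_ae (jV := jV) hν h hsw t.1 t.2.1] with ω hω
    exact pairC_G_zero h _ (hd.trans (pairC_hat_ge ha t (fun y => (hω y).1) _))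
  rcases hu : t.2.2 x with s | v
  · rw [hu] at hz
    simp only [Sum.elim_inl, sub_zero, pairCW]
    split_ifs with hd
    · rw [mul_one]
      exact (pairC_int hν h hsw x (ae_of_all _ fun ω => pairC_G_le h _ _ _)).2
    · rw [hz (not_lt.1 hd)]
      simp
  · simp only [Sum.elim_inr, pairCW, mul_zero, abs_nonpos_iff, sub_eq_zero, pairCGam]
    split_ifs with hd
    · obtain ⟨e, he1, he2, he3⟩ := pairC_enum t.2.2 x
      rw [← hu]
      have hψ : Function.Injective fun l : Option (Fin (deg t.2.2 (t.2.2 x) - 1)) =>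
          (l.elim x e).1 := by
        have key : ∀ y y', t.2.2 y = t.2.2 x → t.2.2 y' = t.2.2 x → y.1 = y'.1 → y = y' := by
          intro y y' h1 h2 h3
          rcases pairC_edge h3 with h4 | h4
          · exact h4
          · exact absurd (by rw [← h4, h1, h2]) (ht.1 y')
        rintro (_ | k) (_ | k') hk
        · rfl
        · exact absurd (key _ _ rfl (he2 k').1 hk).symm (he2 k').2
        · exact absurd (key _ _ (he2 k).1 rfl hk) (he2 k).2
        · rw [he1 (key _ _ (he2 k).1 (he2 k').1 hk)]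
      have hm := pairC_mp (jV := jV) (n := t.2.1) hν hsw
        (fun l : Option (Fin (deg t.2.2 (t.2.2 x) - 1)) => l.elim x e) hψ
      rw [← hm.map_eq, integral_map hm.measurable.aemeasurable
        Measurable.of_discrete.aestronglyMeasurable]
      refine integral_congr_ae (ae_of_all _ fun ω => ?_)
      simp only [Option.elim]
      have h0 : (t.2.2 x).elim (fun _ => 1) (fun _ => 0) = 0 := by rw [hu]; rfl
      rw [pairC_hat ha, he3 fun y => a (pairCOr sw y ω), h0, add_zero]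
    · rw [hu] at hz
      exact hz (not_lt.1 hd)

omit h in
include ha hb in
theorem pairC_T3_inner (t : NG) (ht : Simple t.2.2) (x : Fin t.1 × Bool) {v v' : Fin t.2.1}
    (hu : t.2.2 x = .inr v) (hu' : t.2.2 (flp _ x) = .inr v') :
    ∫ ω, pairCH dir i j (pairCOr sw x ω) (hatDeg a b t ω (t.2.2 x))
        (hatDeg a b t ω (t.2.2 (flp _ x))) ∂pairCP ν jD jV t.1 t.2.1 =
      pairCPi (ν jD) a b dir i j (deg t.2.2 (t.2.2 x)) (deg t.2.2 (t.2.2 (flp _ x))) := by
  obtain ⟨e, he1, he2, he3⟩ := pairC_enum t.2.2 x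
  obtain ⟨e', he1', he2', he3'⟩ := pairC_enum t.2.2 (flp _ x)
  have key : ∀ y y', t.2.2 y = t.2.2 y' → y.1 = y'.1 → y = y' := by
    intro y y' h1 h3
    rcases pairC_edge h3 with h4 | h4
    · exact h4
    · exact absurd (by rw [← h4, h1]) (ht.1 y')
  have key2 : ∀ k k', (e k).1 ≠ (e' k').1 := by
    intro k k' hk
    rcases pairC_edge hk with h4 | h4
    · exact ht.1 x (by rw [← (he2' k').1, ← h4, (he2 k).1])
    · refine (he2 k).2 (ht.2 _ _ (he2 k).1 ?_)
      rw [h4, pairC_flp_flp, (he2' k').1]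
  have key3 : ∀ k', x.1 ≠ (e' k').1 := by
    intro k' hk
    exact (he2' k').2 (key _ _ (he2' k').1 hk.symm)
  have hψ : Function.Injective fun l : Option (Fin (deg t.2.2 (t.2.2 x) - 1) ⊕
      Fin (deg t.2.2 (t.2.2 (flp _ x)) - 1)) => (l.elim x (Sum.elim e e')).1 := by
    rintro (_ | k | k) (_ | k' | k') hk
    · rfl
    · exact absurd (key _ _ (he2 k').1 hk.symm) (he2 k').2
    · exact absurd hk (key3 k')
    · exact absurd (key _ _ (he2 k).1 hk) (he2 k).2
    · rw [he1 (key _ _ ((he2 k).1.trans (he2 k').1.symm) hk)]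
    · exact absurd hk (key2 k k')
    · exact absurd hk.symm (key3 k)
    · exact absurd hk.symm (key2 k' k)
    · rw [he1' (key _ _ ((he2' k).1.trans (he2' k').1.symm) hk)]
  have hm := pairC_mp (jV := jV) (n := t.2.1) hν hsw
    (fun l : Option (Fin (deg t.2.2 (t.2.2 x) - 1) ⊕ Fin (deg t.2.2 (t.2.2 (flp _ x)) - 1)) =>
      l.elim x (Sum.elim e e')) hψ
  rw [pairCPi, ← hm.map_eq, integral_map hm.measurable.aemeasurable
    Measurable.of_discrete.aestronglyMeasurable]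
  refine integral_congr_ae (ae_of_all _ fun ω => ?_)
  simp only [Option.elim, Sum.elim_inl, Sum.elim_inr]
  have h0 : (t.2.2 x).elim (fun _ => 1) (fun _ => 0) = 0 := by rw [hu]; rfl
  have h0' : (t.2.2 (flp _ x)).elim (fun _ => 1) (fun _ => 0) = 0 := by rw [hu']; rfl
  rw [pairC_hat ha, pairC_hat ha, he3 fun y => a (pairCOr sw y ω),
    he3' fun y => a (pairCOr sw y ω), pairC_flp ha hb, h0, h0', add_zero, add_zero]

omit [Countable Ω] in
include ha in
theorem pairC_T3_zero (t : NG) (x : Fin t.1 × Bool)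
    (hd : i < deg t.2.2 (t.2.2 x) ∨ j < deg t.2.2 (t.2.2 (flp _ x))) :
    ∫ ω, pairCH dir i j (pairCOr sw x ω) (hatDeg a b t ω (t.2.2 x))
        (hatDeg a b t ω (t.2.2 (flp _ x))) ∂pairCP ν jD jV t.1 t.2.1 = 0 := by
  refine integral_eq_zero_of_ae ?_
  filter_upwards [pairC_ae (jV := jV) hν h hsw t.1 t.2.1] with ω hω
  have h1 := pairC_hat_ge ha t (fun y => (hω y).1) (t.2.2 x)
  have h2 := pairC_hat_ge ha t (fun y => (hω y).1) (t.2.2 (flp _ x))
  rw [pairCH, if_neg (by omega)]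
  rfl

open Classical in
include ha hb in
theorem pairC_T3 (t : NG) (ht : Simple t.2.2) (x : Fin t.1 × Bool) :
    |∫ ω, pairCH dir i j (pairCOr sw x ω) (hatDeg a b t ω (t.2.2 x))
        (hatDeg a b t ω (t.2.2 (flp _ x))) ∂pairCP ν jD jV t.1 t.2.1 -
      ∑ p ∈ Finset.range (i + 1), ∑ q ∈ Finset.range (j + 1), pairCPi (ν jD) a b dir i j p q *
        if ∃ v v', t.2.2 x = .inr v ∧ t.2.2 (flp _ x) = .inr v' ∧
          deg t.2.2 (.inr v) = p ∧ deg t.2.2 (.inr v') = q then 1 else 0| ≤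
      (∫ ω, (Y ω : ℝ) ∂ν jD) *
        (pairCW (max i j + 1) t (t.2.2 x) + pairCW (max i j + 1) t (t.2.2 (flp _ x))) := by
  have hY : 0 ≤ ∫ ω, (Y ω : ℝ) ∂ν jD := integral_nonneg fun _ => Nat.cast_nonneg _
  have hb1 := (pairC_int (jV := jV) hν h hsw x (F := fun ω => pairCH dir i j (pairCOr sw x ω)
    (hatDeg a b t ω (t.2.2 x)) (hatDeg a b t ω (t.2.2 (flp _ x))))
    ((pairC_ae (jV := jV) hν h hsw t.1 t.2.1).mono fun ω hω => pairC_H_le (hω x).2 _ _)).2
  have hz := pairC_T3_zero (jV := jV) hν h hsw ha t x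
  have hw1 := pairC_W_nonneg (max i j + 1) t (t.2.2 x)
  have hw2 := pairC_W_nonneg (max i j + 1) t (t.2.2 (flp _ x))
  by_cases hin : ∃ v v', t.2.2 x = .inr v ∧ t.2.2 (flp _ x) = .inr v'
  · obtain ⟨v, v', hu, hu'⟩ := hin
    refine le_trans (le_of_eq ?_) (mul_nonneg hY (add_nonneg hw1 hw2))
    rw [abs_eq_zero, sub_eq_zero]
    have hiff : ∀ p q, (∃ w w', t.2.2 x = .inr w ∧ t.2.2 (flp _ x) = .inr w' ∧
        deg t.2.2 (.inr w) = p ∧ deg t.2.2 (.inr w') = q) ↔
        (deg t.2.2 (t.2.2 x) = p ∧ deg t.2.2 (t.2.2 (flp _ x)) = q) := by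
      intro p q
      constructor
      · rintro ⟨w, w', h1, h2, h3, h4⟩
        rw [h1, h2]
        exact ⟨h3, h4⟩
      · rintro ⟨h3, h4⟩
        exact ⟨v, v', hu, hu', hu ▸ h3, hu' ▸ h4⟩
    simp only [hiff]
    by_cases hd : i < deg t.2.2 (t.2.2 x) ∨ j < deg t.2.2 (t.2.2 (flp _ x))
    · rw [hz hd]
      symm
      refine Finset.sum_eq_zero fun p hp => Finset.sum_eq_zero fun q hq => ?_
      rw [Finset.mem_range] at hp hq
      rw [if_neg (by omega), mul_zero]
    · rw [pairC_T3_inner hν hsw ha hb t ht x hu hu',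
        Finset.sum_eq_single_of_mem (deg t.2.2 (t.2.2 x)) (Finset.mem_range.2 (by omega)),
        Finset.sum_eq_single_of_mem (deg t.2.2 (t.2.2 (flp _ x))) (Finset.mem_range.2 (by omega)),
        if_pos ⟨rfl, rfl⟩, mul_one]
      · intro q _ hq
        rw [if_neg fun h' => hq h'.2.symm, mul_zero]
      · intro p _ hp
        refine Finset.sum_eq_zero fun q _ => ?_
        rw [if_neg fun h' => hp h'.1.symm, mul_zero]
  · rw [Finset.sum_eq_zero fun p _ => Finset.sum_eq_zero fun q _ => by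
      rw [if_neg fun ⟨v, v', h1, h2, _⟩ => hin ⟨v, v', h1, h2⟩, mul_zero], sub_zero]
    by_cases hd : i < deg t.2.2 (t.2.2 x) ∨ j < deg t.2.2 (t.2.2 (flp _ x))
    · rw [hz hd, abs_zero]
      exact mul_nonneg hY (add_nonneg hw1 hw2)
    · refine hb1.trans (le_mul_of_one_le_right hY ?_)
      rcases hu : t.2.2 x with s | v
      · rw [hu] at hd
        have : pairCW (max i j + 1) t (.inl s) = 1 := by
          simp only [pairCW, Sum.elim_inl]
          rw [if_pos (by omega)]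
        linarith
      · rcases hu' : t.2.2 (flp _ x) with s | v'
        · rw [hu'] at hd
          have : pairCW (max i j + 1) t (.inl s) = 1 := by
            simp only [pairCW, Sum.elim_inl]
            rw [if_pos (by omega)]
          rw [hu] at hw1
          linarith
        · exact absurd ⟨v, v', hu, hu'⟩ hin

end

theorem pairC_pi_pos {μ : Measure Ω} [IsProbabilityMeasure μ] (h : EpsOK μ a b Y dir eps i j)
    (hi : 1 ≤ i) (hj : 1 ≤ j) : 0 < pairCPi μ a b dir i j i j := by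
  have hm := measurePreserving_eval (fun _ : Option (Fin (i - 1) ⊕ Fin (j - 1)) => μ) none
  rw [pairCPi, integral_pos_iff_support_of_nonneg]
  · refine lt_of_lt_of_le ?_ (measure_mono (s := Set.pi Set.univ
      fun _ => {ω | a ω = 1 ∧ b ω = 1 ∧ dir ω = 1}) fun ξ hξ => ?_)
    · rw [Measure.pi_pi, pos_iff_ne_zero]
      exact Finset.prod_ne_zero_iff.2 fun _ _ => h.atom
    · have h1 : ∀ l, a (ξ l) = 1 ∧ b (ξ l) = 1 ∧ dir (ξ l) = 1 := fun l => hξ l trivial
      rw [Function.mem_support, pairCH, if_pos, (h1 none).2.2]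
      · simp
      · simp only [(h1 _).1, (h1 _).2.1, Finset.sum_const, Finset.card_univ, Fintype.card_fin,
          smul_eq_mul, mul_one]
        omega
  · intro ξ
    simp only [pairCH, Pi.zero_apply]
    split_ifs
    · exact Nat.cast_nonneg _
    · exact le_rfl
  · refine (hm.integrable_comp_of_integrable h.int).mono'
      Measurable.of_discrete.aestronglyMeasurable ?_
    filter_upwards [hm.quasiMeasurePreserving.ae h.one_le] with ξ hξ
    exact pairC_H_le hξ.2.2 _ _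

theorem xhat_mean (hν : ∀ j, IsProbabilityMeasure (ν j)) (h : EpsOK (ν jD) a b Y dir eps i j)
    (hi : 1 ≤ i) (hj : 1 ≤ j) :
    ∃ (c0 C : ℝ) (β : ℕ → ℝ) (π : ℕ → ℕ → ℝ), EvC β (max i j) ∧ 0 < π i j ∧
      ∀ t : NG, Simple t.2.2 → ∀ (f : ℕ → ℝ) (k0 s0 : ℕ) (z0 : ℝ),
        |∫ ω, (Xhat a b eps t ω : ℝ) ∂(Tcore a b c jD jV f k0 t s0 z0).P ν -
          (c0 * t.1 + Fl β t + ∑ p ∈ Finset.range (i + 1), ∑ q ∈ Finset.range (j + 1),
            π p q * Epq p q t)| ≤ C := by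
  classical
  obtain ⟨sw, hsw, ha, hb, hd, he⟩ := h.sym
  set K := max i j + 1 with hK
  set EY := ∫ ω, (Y ω : ℝ) ∂ν jD with hEY
  have hY : 0 ≤ EY := integral_nonneg fun _ => Nat.cast_nonneg _
  refine ⟨∫ ω, (eps ω K K : ℝ) ∂ν jD, EY * (6 * K), fun d => d * pairCGam (ν jD) a eps K d,
    pairCPi (ν jD) a b dir i j, fun d hd => ?_, pairC_pi_pos h hi hj, fun t ht f k0 s0 z0 => ?_⟩
  · simp only [pairCGam]
    rw [if_neg (by omega), if_neg (by omega), mul_zero, mul_zero]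
  change |∫ ω, (Xhat a b eps t ω : ℝ) ∂pairCP ν jD jV t.1 t.2.1 - _| ≤ _
  have hae := pairC_ae (jV := jV) hν h hsw t.1 t.2.1
  have i1 : ∀ e : Fin t.1, Integrable (fun ω => (eps (pairCOr sw (e, true) ω) K K : ℝ))
      (pairCP ν jD jV t.1 t.2.1) := fun e =>
    (pairC_int hν h hsw (e, true) (ae_of_all _ fun ω => by
      rw [abs_of_nonneg (Nat.cast_nonneg _)]
      exact_mod_cast h.le _ _ _)).1
  have i2 : ∀ x, Integrable (fun ω => pairCG eps K (pairCOr sw x ω) (hatDeg a b t ω (t.2.2 x)))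
      (pairCP ν jD jV t.1 t.2.1) := fun x =>
    (pairC_int hν h hsw x (ae_of_all _ fun ω => pairC_G_le h _ _ _)).1
  have i3 : ∀ x, Integrable (fun ω => pairCH dir i j (pairCOr sw x ω) (hatDeg a b t ω (t.2.2 x))
      (hatDeg a b t ω (t.2.2 (flp _ x)))) (pairCP ν jD jV t.1 t.2.1) := fun x =>
    (pairC_int hν h hsw x (hae.mono fun ω hω => pairC_H_le (hω x).2 _ _)).1
  have j1 := integrable_finsetSum Finset.univ fun e _ => i1 e
  have j2 := integrable_finsetSum Finset.univ fun e _ => i2 e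
  have j3 := integrable_finsetSum Finset.univ fun e _ => i3 e
  have j12 : Integrable (fun ω => ∑ e : Fin t.1, (eps (pairCOr sw (e, true) ω) K K : ℝ) +
      ∑ x, pairCG eps K (pairCOr sw x ω) (hatDeg a b t ω (t.2.2 x))) _ := j1.add j2
  simp only [pairC_split h hd he t, ← hK]
  rw [integral_add j12 j3, integral_add j1 j2,
    integral_finsetSum _ fun e _ => i1 e, integral_finsetSum _ fun x _ => i2 x,
    integral_finsetSum _ fun x _ => i3 x]
  have e1 : ∑ e : Fin t.1, ∫ ω, (eps (pairCOr sw (e, true) ω) K K : ℝ) ∂pairCP ν jD jV t.1 t.2.1 =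
      (∫ ω, (eps ω K K : ℝ) ∂ν jD) * t.1 := by
    rw [Finset.sum_congr rfl (g := fun _ => ∫ ω, (eps ω K K : ℝ) ∂ν jD) fun e _ => ?_]
    · simp [mul_comm]
    · have hm := pairC_mp1 (jV := jV) (n := t.2.1) hν hsw (e, true)
      conv_rhs => rw [← hm.map_eq]
      rw [integral_map hm.measurable.aemeasurable Measurable.of_discrete.aestronglyMeasurable]
  have e2 : Fl (fun d => d * pairCGam (ν jD) a eps K d) t = ∑ x, (t.2.2 x).elim (fun _ => (0 : ℝ))
      fun v => pairCGam (ν jD) a eps K (deg t.2.2 (.inr v)) := by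
    rw [pairC_fiber t.2.2 fun u => u.elim (fun _ => (0 : ℝ))
      fun v => pairCGam (ν jD) a eps K (deg t.2.2 (.inr v)), Fintype.sum_sum_type]
    simp [Fl]
  have e3 : ∑ p ∈ Finset.range (i + 1), ∑ q ∈ Finset.range (j + 1),
      pairCPi (ν jD) a b dir i j p q * Epq p q t =
      ∑ x, ∑ p ∈ Finset.range (i + 1), ∑ q ∈ Finset.range (j + 1),
        pairCPi (ν jD) a b dir i j p q *
        if ∃ v v', t.2.2 x = .inr v ∧ t.2.2 (flp _ x) = .inr v' ∧
          deg t.2.2 (.inr v) = p ∧ deg t.2.2 (.inr v') = q then 1 else 0 := by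
    symm
    rw [Finset.sum_comm]
    refine Finset.sum_congr rfl fun p _ => ?_
    rw [Finset.sum_comm]
    refine Finset.sum_congr rfl fun q _ => ?_
    rw [← Finset.mul_sum, Epq, Nat.card_eq_fintype_card, Fintype.card_subtype, Finset.card_filter]
    push_cast
    rfl
  have w1 := pairC_W_sum K t
  have w2 : ∑ x, pairCW K t (t.2.2 (flp _ x)) ≤ 2 * K := by
    rw [Equiv.sum_comp (flp _) fun x => pairCW K t (t.2.2 x)]
    exact w1
  have b2 := (Finset.abs_sum_le_sum_abs _ _).trans (Finset.sum_le_sum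
    fun x (_ : x ∈ Finset.univ) => pairC_T2 (jV := jV) hν h hsw ha t ht x)
  have b3 := (Finset.abs_sum_le_sum_abs _ _).trans (Finset.sum_le_sum
    fun x (_ : x ∈ Finset.univ) => pairC_T3 (jV := jV) hν h hsw ha hb t ht x)
  rw [Finset.sum_sub_distrib, ← Finset.mul_sum] at b2 b3
  rw [Finset.sum_add_distrib] at b3
  rw [e1, e2, e3]
  have b2' := b2.trans (mul_le_mul_of_nonneg_left w1 hY)
  have b3' := b3.trans (mul_le_mul_of_nonneg_left (add_le_add w1 w2) hY)
  rw [abs_le] at b2' b3' ⊢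
  constructor <;> linarith [b2'.1, b2'.2, b3'.1, b3'.2]

end Pool.Agent.Lib.MP_77dff5_pr
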