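import Pool.Agent.Lib.MP_77dff5_pr.PDefs

/-! Variance tools on finite products: averaging, Efron-Stein, uniform integrability. -/

set_option autoImplicit false

namespace Pool.Agent.Lib.MP_77dff5_pr

open MeasureTheory ProbabilityTheory Filter Topology
open scoped ENNReal NNReal

section general
variable {Ω I : Type} [Countable Ω] [MeasurableSpace Ω] [DiscreteMeasurableSpace Ω] [Fintype I]
  [DecidableEq I] (ν : I → Measure Ω) [∀ i, IsProbabilityMeasure (ν i)]

/-- exchanging the coordinates in `A` of two independent samples -/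
theorem varA_swap (A : Finset I) :
    MeasurePreserving
      (fun p : (I → Ω) × (I → Ω) => (A.piecewise p.2 p.1, A.piecewise p.1 p.2))
      ((Measure.pi ν).prod (Measure.pi ν)) ((Measure.pi ν).prod (Measure.pi ν)) := by
  refine ⟨Measurable.of_discrete, Measure.ext_of_singleton fun q => ?_⟩
  rw [Measure.map_apply Measurable.of_discrete MeasurableSet.of_discrete]
  have h1 : (fun p : (I → Ω) × (I → Ω) => (A.piecewise p.2 p.1, A.piecewise p.1 p.2)) ⁻¹' {q} =
      ({A.piecewise q.2 q.1} : Set (I → Ω)) ×ˢ ({A.piecewise q.1 q.2} : Set (I → Ω)) := by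
    ext p
    simp only [Set.mem_preimage, Set.mem_singleton_iff, Set.mem_prod]
    constructor
    · rintro rfl
      constructor <;> funext i <;> by_cases hi : i ∈ A <;> simp [Finset.piecewise, hi]
    · rintro ⟨h1, h2⟩
      rw [h1, h2]
      refine Prod.ext ?_ ?_ <;> funext i <;> by_cases hi : i ∈ A <;> simp [Finset.piecewise, hi]
  have h2 : ({q} : Set ((I → Ω) × (I → Ω))) =
      ({q.1} : Set (I → Ω)) ×ˢ ({q.2} : Set (I → Ω)) := by
    rw [Set.singleton_prod_singleton]
  rw [h1, h2, Measure.prod_prod, Measure.prod_prod]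
  simp only [Measure.pi_singleton]
  rw [← Finset.prod_mul_distrib, ← Finset.prod_mul_distrib]
  refine Finset.prod_congr rfl fun i _ => ?_
  by_cases hi : i ∈ A
  · simp only [Finset.piecewise, hi, if_true]
    exact mul_comm _ _
  · simp only [Finset.piecewise, hi, if_false]

theorem measurePreserving_piecewise (A : Finset I) :
    MeasurePreserving (fun p : (I → Ω) × (I → Ω) => A.piecewise p.1 p.2)
      ((Measure.pi ν).prod (Measure.pi ν)) (Measure.pi ν) :=
  measurePreserving_snd.comp (varA_swap ν A)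

theorem measurePreserving_update (i : I) :
    MeasurePreserving (fun p : Ω × (I → Ω) => Function.update p.2 i p.1)
      ((ν i).prod (Measure.pi ν)) (Measure.pi ν) := by
  have h1 : MeasurePreserving (Prod.map (Function.eval i) id : (I → Ω) × (I → Ω) → Ω × (I → Ω))
      ((Measure.pi ν).prod (Measure.pi ν)) ((ν i).prod (Measure.pi ν)) :=
    (measurePreserving_eval ν i).prod (MeasurePreserving.id _)
  refine ⟨Measurable.of_discrete, ?_⟩
  rw [← h1.map_eq, Measure.map_map Measurable.of_discrete Measurable.of_discrete]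
  refine Eq.trans ?_ (measurePreserving_piecewise ν {i}).map_eq
  congr 1
  funext p
  simp [Finset.piecewise_singleton]

omit [Fintype I] [DecidableEq I] in
theorem varA_integral_comp {X Y : Type} [MeasurableSpace X] [MeasurableSpace Y]
    [DiscreteMeasurableSpace Y] {μ : Measure X} {μ' : Measure Y} {f : X → Y}
    (h : MeasurePreserving f μ μ') (g : Y → ℝ) : ∫ x, g (f x) ∂μ = ∫ y, g y ∂μ' := by
  rw [← h.map_eq, integral_map h.measurable.aemeasurable
    (Measurable.of_discrete.aestronglyMeasurable)]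

theorem varA_step (G : (I → Ω) → ℝ) (hG : MemLp G 2 (Measure.pi ν)) (A : Finset I) (i : I)
    (hi : i ∉ A) :
    ∫ p, G p.1 * (G (A.piecewise p.2 p.1) - G ((insert i A).piecewise p.2 p.1))
        ∂(Measure.pi ν).prod (Measure.pi ν) ≤
      1 / 2 * ∫ p, (G p.1 - G (Function.update p.1 i (p.2 i))) ^ 2
        ∂(Measure.pi ν).prod (Measure.pi ν) := by
  set P := Measure.pi ν with hP
  have hpw : ∀ B : Finset I, MemLp (fun p : (I → Ω) × (I → Ω) => G (B.piecewise p.2 p.1)) 2
      (P.prod P) := fun B =>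
    hG.comp_measurePreserving (measurePreserving_fst.comp (varA_swap ν B))
  have h1 : MemLp (fun p : (I → Ω) × (I → Ω) => G p.1) 2 (P.prod P) :=
    hG.comp_measurePreserving measurePreserving_fst
  have hu : MemLp (fun p : (I → Ω) × (I → Ω) => G (Function.update p.1 i (p.2 i))) 2
      (P.prod P) := by
    simpa only [Finset.piecewise_singleton] using hpw {i}
  set U : (I → Ω) × (I → Ω) → ℝ := fun p =>
    G (A.piecewise p.2 p.1) - G ((insert i A).piecewise p.2 p.1) with hU
  set V : (I → Ω) × (I → Ω) → ℝ := fun p => G p.1 - G (Function.update p.1 i (p.2 i)) with hV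
  have hU2 : MemLp U 2 (P.prod P) := (hpw A).sub (hpw _)
  have hV2 : MemLp V 2 (P.prod P) := h1.sub hu
  have e1 : ∫ p, G p.1 * U p ∂P.prod P =
      ∫ p, -(G (Function.update p.1 i (p.2 i)) * U p) ∂P.prod P := by
    rw [← varA_integral_comp (varA_swap ν {i}) (fun p => G p.1 * U p)]
    refine integral_congr_ae (Eventually.of_forall fun p => ?_)
    have a1 : A.piecewise (({i} : Finset I).piecewise p.1 p.2) (({i} : Finset I).piecewise p.2 p.1) =
        (insert i A).piecewise p.2 p.1 := by
      funext j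
      by_cases hj : j = i
      · subst hj; simp [Finset.piecewise, hi]
      · by_cases hA : j ∈ A <;> simp [Finset.piecewise, hj, hA]
    have a2 : (insert i A).piecewise (({i} : Finset I).piecewise p.1 p.2)
        (({i} : Finset I).piecewise p.2 p.1) = A.piecewise p.2 p.1 := by
      funext j
      by_cases hj : j = i
      · subst hj; simp [Finset.piecewise, hi]
      · by_cases hA : j ∈ A <;> simp [Finset.piecewise, hj, hA]
    simp only [hU, a1, a2]
    rw [Finset.piecewise_singleton]
    ring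
  have e2 : ∫ p, U p ^ 2 ∂P.prod P = ∫ p, V p ^ 2 ∂P.prod P := by
    rw [← varA_integral_comp (varA_swap ν A) (fun p => V p ^ 2)]
    refine integral_congr_ae (Eventually.of_forall fun p => ?_)
    have a1 : Function.update (A.piecewise p.2 p.1) i (A.piecewise p.1 p.2 i) =
        (insert i A).piecewise p.2 p.1 := by
      funext j
      by_cases hj : j = i
      · subst hj; simp [Finset.piecewise, hi]
      · simp [Finset.piecewise, hj]
    simp only [hU, hV, a1]
  have i1 : Integrable (fun p : (I → Ω) × (I → Ω) => G p.1 * U p) (P.prod P) :=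
    h1.integrable_mul hU2
  have i2 : Integrable (fun p : (I → Ω) × (I → Ω) => G (Function.update p.1 i (p.2 i)) * U p)
      (P.prod P) := hu.integrable_mul hU2
  have i3 : Integrable (fun p => U p ^ 2) (P.prod P) := hU2.integrable_sq
  have i4 : Integrable (fun p => V p ^ 2) (P.prod P) := hV2.integrable_sq
  have e3 : ∫ p, (G p.1 * U p - G (Function.update p.1 i (p.2 i)) * U p) ∂P.prod P ≤
      ∫ p, (1 / 2 * U p ^ 2 + 1 / 2 * V p ^ 2) ∂P.prod P := by
    refine integral_mono (i1.sub i2) ((i3.const_mul _).add (i4.const_mul _)) fun p => ?_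
    have : G p.1 * U p - G (Function.update p.1 i (p.2 i)) * U p = V p * U p := by
      simp only [hV]; ring
    simp only [this]
    nlinarith [sq_nonneg (U p - V p)]
  rw [integral_sub i1 i2, integral_add (i3.const_mul _) (i4.const_mul _), integral_const_mul,
    integral_const_mul, e2] at e3
  rw [integral_neg] at e1
  change ∫ p, G p.1 * U p ∂P.prod P ≤ 1 / 2 * ∫ p, V p ^ 2 ∂P.prod P
  linarith

/-- Efron-Stein inequality -/
theorem efron_stein (G : (I → Ω) → ℝ) (hG : MemLp G 2 (Measure.pi ν)) :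
    Var[G; Measure.pi ν] ≤
      1 / 2 * ∑ i, ∫ ω, ∫ η, (G ω - G (Function.update ω i η)) ^ 2 ∂ν i ∂Measure.pi ν := by
  set P := Measure.pi ν with hP
  have hpw : ∀ B : Finset I, MemLp (fun p : (I → Ω) × (I → Ω) => G (B.piecewise p.2 p.1)) 2
      (P.prod P) := fun B =>
    hG.comp_measurePreserving (measurePreserving_fst.comp (varA_swap ν B))
  have h1 : MemLp (fun p : (I → Ω) × (I → Ω) => G p.1) 2 (P.prod P) :=
    hG.comp_measurePreserving measurePreserving_fst
  have key : ∀ A : Finset I, ∫ p, G p.1 * (G p.1 - G (A.piecewise p.2 p.1)) ∂P.prod P ≤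
      1 / 2 * ∑ i ∈ A, ∫ p, (G p.1 - G (Function.update p.1 i (p.2 i))) ^ 2 ∂P.prod P := by
    intro A
    induction A using Finset.induction_on with
    | empty => simp
    | insert i A hi ih =>
      rw [Finset.sum_insert hi]
      have s := varA_step ν G hG A i hi
      have i1 : Integrable (fun p : (I → Ω) × (I → Ω) =>
          G p.1 * (G p.1 - G (A.piecewise p.2 p.1))) (P.prod P) :=
        h1.integrable_mul (h1.sub (hpw A))
      have i2 : Integrable (fun p : (I → Ω) × (I → Ω) =>
          G p.1 * (G (A.piecewise p.2 p.1) - G ((insert i A).piecewise p.2 p.1))) (P.prod P) :=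
        h1.integrable_mul ((hpw A).sub (hpw _))
      have e : ∫ p, G p.1 * (G p.1 - G ((insert i A).piecewise p.2 p.1)) ∂P.prod P =
          ∫ p, G p.1 * (G p.1 - G (A.piecewise p.2 p.1)) ∂P.prod P +
          ∫ p, G p.1 * (G (A.piecewise p.2 p.1) - G ((insert i A).piecewise p.2 p.1))
            ∂P.prod P := by
        rw [← integral_add i1 i2]
        refine integral_congr_ae (Eventually.of_forall fun p => ?_)
        ring
      rw [e]
      linarith
  have k := key Finset.univ
  have e1 : ∫ p, G p.1 * (G p.1 - G ((Finset.univ : Finset I).piecewise p.2 p.1)) ∂P.prod P =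
      Var[G; P] := by
    have h2 : MemLp (fun p : (I → Ω) × (I → Ω) => G p.2) 2 (P.prod P) :=
      hG.comp_measurePreserving measurePreserving_snd
    have : ∀ p : (I → Ω) × (I → Ω),
        G p.1 * (G p.1 - G ((Finset.univ : Finset I).piecewise p.2 p.1)) =
          G p.1 ^ 2 - G p.1 * G p.2 := fun p => by
      rw [Finset.piecewise_univ]; ring
    simp only [this]
    have i2 : Integrable (fun p : (I → Ω) × (I → Ω) => G p.1 * G p.2) (P.prod P) :=
      h1.integrable_mul h2
    rw [integral_sub h1.integrable_sq i2, integral_prod_mul,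
      varA_integral_comp measurePreserving_fst (fun ω => G ω ^ 2), variance_eq_sub hG]
    simp only [Pi.pow_apply]
    ring
  have e2 : ∀ i, ∫ p, (G p.1 - G (Function.update p.1 i (p.2 i))) ^ 2 ∂P.prod P =
      ∫ ω, ∫ η, (G ω - G (Function.update ω i η)) ^ 2 ∂ν i ∂P := by
    intro i
    have m1 : MeasurePreserving (Prod.map id (Function.eval i) :
        (I → Ω) × (I → Ω) → (I → Ω) × Ω) (P.prod P) (P.prod (ν i)) :=
      (MeasurePreserving.id _).prod (measurePreserving_eval ν i)
    have hu : MemLp (fun p : (I → Ω) × Ω => G (Function.update p.1 i p.2)) 2 (P.prod (ν i)) :=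
      hG.comp_measurePreserving ((measurePreserving_update ν i).comp Measure.measurePreserving_swap)
    have h3 : MemLp (fun p : (I → Ω) × Ω => G p.1) 2 (P.prod (ν i)) :=
      hG.comp_measurePreserving measurePreserving_fst
    rw [← integral_prod (fun p : (I → Ω) × Ω => (G p.1 - G (Function.update p.1 i p.2)) ^ 2)
      (h3.sub hu).integrable_sq,
      ← varA_integral_comp m1 (fun p => (G p.1 - G (Function.update p.1 i p.2)) ^ 2)]
    rfl
  rw [e1] at k
  simpa only [e2] using k

omit [Countable Ω] [MeasurableSpace Ω] [DiscreteMeasurableSpace Ω] in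
theorem varA_bdd (G : (I → Ω) → ℝ) (c : ℝ)
    (h : ∀ ω i η, |G ω - G (Function.update ω i η)| ≤ c) (ω ω' : I → Ω) :
    |G ω - G ω'| ≤ Fintype.card I * c := by
  have key : ∀ A : Finset I, |G ω - G (A.piecewise ω' ω)| ≤ A.card * c := by
    intro A
    induction A using Finset.induction_on with
    | empty => simp
    | insert i A hi ih =>
      rw [Finset.card_insert_of_notMem hi, Finset.piecewise_insert]
      have := h (A.piecewise ω' ω) i (ω' i)
      have t := abs_sub_le (G ω) (G (A.piecewise ω' ω))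
        (G (Function.update (A.piecewise ω' ω) i (ω' i)))
      push_cast
      linarith
  simpa [Finset.piecewise_univ] using key Finset.univ

theorem varA_memLp (G : (I → Ω) → ℝ) (c : ℝ)
    (h : ∀ ω i η, |G ω - G (Function.update ω i η)| ≤ c) (p : ℝ≥0∞) :
    MemLp G p (Measure.pi ν) := by
  obtain ⟨ω0⟩ : Nonempty (I → Ω) := (Measure.pi ν).nonempty_of_neZero
  refine MemLp.of_bound Measurable.of_discrete.aestronglyMeasurable
    (|G ω0| + Fintype.card I * c) (Eventually.of_forall fun ω => ?_)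
  have := varA_bdd G c h ω ω0
  have t := abs_sub_abs_le_abs_sub (G ω) (G ω0)
  rw [Real.norm_eq_abs]
  linarith

theorem varA_var (G : (I → Ω) → ℝ) (hG : MemLp G 2 (Measure.pi ν)) (D : (I → Ω) → ℝ)
    (hD : Integrable D (Measure.pi ν))
    (h : ∀ ω i η, (G ω - G (Function.update ω i η)) ^ 2 ≤ D ω) :
    Var[G; Measure.pi ν] ≤ Fintype.card I * (∫ ω, D ω ∂Measure.pi ν) / 2 := by
  refine (efron_stein ν G hG).trans ?_
  have : ∀ i, ∫ ω, ∫ η, (G ω - G (Function.update ω i η)) ^ 2 ∂ν i ∂Measure.pi ν ≤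
      ∫ ω, D ω ∂Measure.pi ν := by
    intro i
    refine integral_mono_of_nonneg (Eventually.of_forall fun ω => ?_) hD
      (Eventually.of_forall fun ω => ?_)
    · exact integral_nonneg fun η => sq_nonneg _
    · have := integral_mono_of_nonneg (μ := ν i)
        (f := fun η => (G ω - G (Function.update ω i η)) ^ 2) (g := fun _ => D ω)
        (Eventually.of_forall fun η => sq_nonneg _) (integrable_const _)
        (Eventually.of_forall fun η => h ω i η)
      simpa using this
  have s := Finset.sum_le_sum (s := Finset.univ) fun i _ => this i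
  rw [Finset.sum_const, Finset.card_univ, nsmul_eq_mul] at s
  linarith

theorem variance_le_of_bdd_diff (G : (I → Ω) → ℝ) (c : ℝ)
    (h : ∀ ω i η, |G ω - G (Function.update ω i η)| ≤ c) :
    MemLp G 4 (Measure.pi ν) ∧ Var[G; Measure.pi ν] ≤ Fintype.card I * c ^ 2 / 2 ∧
      ∫ ω, (G ω - ∫ ω', G ω' ∂Measure.pi ν) ^ 4 ∂Measure.pi ν ≤
        4 * (Fintype.card I : ℝ) ^ 2 * c ^ 4 := by
  set P := Measure.pi ν with hP
  have hsq : ∀ ω i η, (G ω - G (Function.update ω i η)) ^ 2 ≤ c ^ 2 := fun ω i η => by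
    have := h ω i η
    rw [← sq_abs]
    exact pow_le_pow_left₀ (abs_nonneg _) this 2
  have hv : Var[G; P] ≤ Fintype.card I * c ^ 2 / 2 := by
    simpa using varA_var ν G (varA_memLp ν G c h 2) (fun _ => c ^ 2) (integrable_const _) hsq
  refine ⟨varA_memLp ν G c h 4, hv, ?_⟩
  set m := ∫ ω', G ω' ∂P with hm
  set F : (I → Ω) → ℝ := fun ω => G ω - m with hF
  have hFd : ∀ ω i η, |F ω - F (Function.update ω i η)| ≤ c := fun ω i η => by
    simpa [hF] using h ω i η
  have hF2 : MemLp F 2 P := varA_memLp ν F c hFd 2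
  have hF4 : MemLp (fun ω => F ω ^ 2) 2 P := by
    have h4 : MemLp F 4 P := varA_memLp ν F c hFd 4
    have : ENNReal.HolderTriple 4 4 2 := ⟨by
      rw [← two_mul, show (4 : ℝ≥0∞) = 2 * 2 by norm_num,
        ENNReal.mul_inv (by simp) (by simp), ← mul_assoc,
        ENNReal.mul_inv_cancel (by simp) (by simp), one_mul]⟩
    have := h4.mul' (r := 2) h4
    simpa only [sq] using this
  have e1 : ∫ ω, F ω ^ 2 ∂P = Var[G; P] :=
    (variance_eq_integral Measurable.of_discrete.aemeasurable).symm
  have hv2 : Var[fun ω => F ω ^ 2; P] ≤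
      Fintype.card I * (∫ ω, c ^ 2 * (8 * F ω ^ 2 + 2 * c ^ 2) ∂P) / 2 := by
    refine varA_var ν _ hF4 _
      (((hF2.integrable_sq.const_mul 8).add (integrable_const _)).const_mul _) fun ω i η => ?_
    have a := hsq ω i η
    have b : F (Function.update ω i η) = F ω - (G ω - G (Function.update ω i η)) := by
      simp only [hF]; ring
    rw [b]
    set d := G ω - G (Function.update ω i η)
    have e : (F ω ^ 2 - (F ω - d) ^ 2) ^ 2 = d ^ 2 * (2 * F ω - d) ^ 2 := by ring
    rw [e]
    refine mul_le_mul a ?_ (sq_nonneg _) (sq_nonneg _)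
    nlinarith [sq_nonneg (2 * F ω + d)]
  rw [integral_const_mul, integral_add (hF2.integrable_sq.const_mul 8) (integrable_const _),
    integral_const_mul, e1, variance_eq_sub hF4] at hv2
  simp only [Pi.pow_apply, integral_const, probReal_univ, smul_eq_mul, one_mul, e1] at hv2
  have e4 : ∫ ω, (G ω - m) ^ 4 ∂P = ∫ ω, (F ω ^ 2) ^ 2 ∂P :=
    integral_congr_ae (Eventually.of_forall fun ω => by simp only [hF]; ring)
  rw [e4]
  have v0 : 0 ≤ Var[G; P] := variance_nonneg _ _
  have n0 : (0 : ℝ) ≤ Fintype.card I := Nat.cast_nonneg _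
  have n1 : (Fintype.card I : ℝ) ≤ (Fintype.card I : ℝ) ^ 2 := by
    exact_mod_cast Nat.le_self_pow two_ne_zero _
  set n : ℝ := ((Fintype.card I : ℕ) : ℝ)
  have c0 : 0 ≤ c ^ 2 := sq_nonneg c
  have a1 : Var[G; P] ^ 2 ≤ (n * c ^ 2 / 2) ^ 2 := pow_le_pow_left₀ v0 hv 2
  have a2 : n * (c ^ 2 * (8 * Var[G; P] + 2 * c ^ 2)) ≤
      n * (c ^ 2 * (8 * (n * c ^ 2 / 2) + 2 * c ^ 2)) := by gcongr
  have a3 : n * (c ^ 2) ^ 2 ≤ n ^ 2 * (c ^ 2) ^ 2 := by gcongr
  have a4 : 0 ≤ n ^ 2 * (c ^ 2) ^ 2 := by positivity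
  nlinarith

omit [Countable Ω] in
theorem varA_tail (μ : Finset (Measure Ω)) (Y : Ω → ℝ) (hY : ∀ m ∈ μ, Integrable Y m) {δ : ℝ}
    (hδ : 0 < δ) : ∃ M : ℝ, 0 < M ∧ ∀ m ∈ μ, IsProbabilityMeasure m →
      ∫ ω, max (Y ω - M) 0 ∂m ≤ δ := by
  have key : ∀ m ∈ μ, ∀ᶠ M : ℕ in atTop, ∫ ω, max (Y ω - M) 0 ∂m ≤ δ := by
    intro m hm
    have t : Tendsto (fun M : ℕ => ∫ ω, max (Y ω - M) 0 ∂m) atTop (𝓝 (∫ _ω, (0 : ℝ) ∂m)) := by
      refine tendsto_integral_of_dominated_convergence (fun ω => |Y ω|)
        (fun M => Measurable.of_discrete.aestronglyMeasurable) (hY m hm).abs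
        (fun M => Eventually.of_forall fun ω => ?_) (Eventually.of_forall fun ω => ?_)
      · rw [Real.norm_eq_abs, abs_of_nonneg (le_max_right _ _)]
        have : (0 : ℝ) ≤ M := Nat.cast_nonneg _
        exact max_le (by linarith [le_abs_self (Y ω)]) (abs_nonneg _)
      · refine tendsto_const_nhds.congr' ?_
        filter_upwards [tendsto_natCast_atTop_atTop.eventually_ge_atTop (Y ω)] with M hM
        exact (max_eq_right (by linarith)).symm
    rw [integral_zero] at t
    exact t.eventually (ge_mem_nhds hδ)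
  obtain ⟨M, hM⟩ := (((Filter.eventually_all_finset μ).2 key).and (eventually_ge_atTop 1)).exists
  exact ⟨M, by exact_mod_cast hM.2, fun m hm _ => hM.1 m hm⟩

/-- law of large numbers with integrable increments -/
theorem lln_of_diff (μ : Finset (Measure Ω)) (Y : Ω → ℝ) (hY : ∀ m ∈ μ, Integrable Y m) (c ε : ℝ)
    (hε : 0 < ε) : ∃ k0 : ℕ, ∀ (I : Type) [Fintype I] [DecidableEq I] (ν : I → Measure Ω)
      [∀ i, IsProbabilityMeasure (ν i)], (∀ i, ν i ∈ μ) → k0 ≤ Fintype.card I →
      ∀ (G : I → (I → Ω) → ℝ), (∀ i ω, |G i ω| ≤ Y (ω i)) →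
        (∀ j, (Nat.card {i // ∃ ω η, G i ω ≠ G i (Function.update ω j η)} : ℝ) ≤ c) →
        (Measure.pi ν).real {ω | ε * Fintype.card I <
          |∑ i, G i ω - ∑ i, ∫ ω', G i ω' ∂Measure.pi ν|} ≤ ε := by
  have hδ : 0 < min (ε ^ 2 / 8) (ε / 4) := by positivity
  obtain ⟨M, hM, hMδ⟩ := varA_tail μ Y hY hδ
  set δ := min (ε ^ 2 / 8) (ε / 4) with hδd
  obtain ⟨k0, hk0⟩ := exists_nat_ge (16 * c ^ 2 * M ^ 2 / ε ^ 3)
  refine ⟨k0 + 1, fun I _ _ ν _ hν hk G hG hc => ?_⟩
  classical
  set P := Measure.pi ν with hP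
  set n : ℝ := ((Fintype.card I : ℕ) : ℝ) with hn
  have n1 : (k0 : ℝ) + 1 ≤ n := by rw [hn]; exact_mod_cast hk
  have n0 : 0 < n := by have : (0 : ℝ) ≤ k0 := Nat.cast_nonneg _; linarith
  set H : I → (I → Ω) → ℝ := fun i ω => max (-M) (min M (G i ω)) with hH
  set T : I → (I → Ω) → ℝ := fun i ω => max (Y (ω i) - M) 0 with hT
  have hHb : ∀ i ω, |H i ω| ≤ M := fun i ω =>
    abs_le.2 ⟨le_max_left _ _, max_le (by linarith) (min_le_left _ _)⟩
  have hGH : ∀ i ω, |G i ω - H i ω| ≤ T i ω := fun i ω => by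
    have a := abs_le.1 (hG i ω)
    have b1 : Y (ω i) - M ≤ T i ω := le_max_left _ _
    have b2 : 0 ≤ T i ω := le_max_right _ _
    simp only [hH]
    rcases le_total M (G i ω) with h1 | h1
    · rw [min_eq_left h1, max_eq_right (by linarith), abs_of_nonneg (by linarith)]
      linarith [a.2]
    · rw [min_eq_right h1]
      rcases le_total (-M) (G i ω) with h2 | h2
      · rw [max_eq_right h2]; simpa using b2
      · rw [max_eq_left h2, abs_of_nonpos (by linarith)]
        linarith [a.1]
  have hYi : ∀ i, Integrable (fun ω : I → Ω => Y (ω i)) P := fun i =>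
    (measurePreserving_eval ν i).integrable_comp_of_integrable (hY _ (hν i))
  have hGi : ∀ i, Integrable (G i) P := fun i =>
    (hYi i).mono' Measurable.of_discrete.aestronglyMeasurable (Eventually.of_forall (hG i))
  have hHi : ∀ i, Integrable (H i) P := fun i =>
    (integrable_const M).mono' Measurable.of_discrete.aestronglyMeasurable
      (Eventually.of_forall (hHb i))
  have hTi : ∀ i, Integrable (T i) P := fun i =>
    ((hYi i).sub (integrable_const M)).pos_part
  have hTe : ∀ i, ∫ ω, T i ω ∂P ≤ δ := fun i => by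
    have := varA_integral_comp (measurePreserving_eval ν i) (fun η => max (Y η - M) 0)
    exact this.le.trans (hMδ _ (hν i) inferInstance)
  have hd : ∀ ω j η, |∑ i, H i ω - ∑ i, H i (Function.update ω j η)| ≤ 2 * M * c := by
    intro ω j η
    set D := Finset.univ.filter fun i => ∃ ω η, G i ω ≠ G i (Function.update ω j η) with hD
    have cD : (D.card : ℝ) ≤ c := by
      have := hc j
      rwa [Nat.card_eq_fintype_card, Fintype.card_subtype] at this
    rw [← Finset.sum_sub_distrib, ← Finset.sum_subset (Finset.subset_univ D)]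
    · refine (Finset.abs_sum_le_sum_abs _ _).trans ?_
      refine (Finset.sum_le_card_nsmul _ _ (2 * M) fun i _ => ?_).trans ?_
      · have := abs_sub (H i ω) (H i (Function.update ω j η))
        linarith [hHb i ω, hHb i (Function.update ω j η)]
      · rw [nsmul_eq_mul]; nlinarith
    · intro i _ hi
      have : G i ω = G i (Function.update ω j η) := by
        by_contra hne
        exact hi (Finset.mem_filter.2 ⟨Finset.mem_univ _, ω, η, hne⟩)
      simp only [hH, this, sub_self]
  have hv := (variance_le_of_bdd_diff ν (fun ω => ∑ i, H i ω) (2 * M * c) hd).2.1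
  have ch := meas_ge_le_variance_div_sq (μ := P) (varA_memLp ν (fun ω => ∑ i, H i ω) _ hd 2)
    (c := ε * n / 2) (by positivity)
  have ch' : P.real {ω | ε * n / 2 ≤ |∑ i, H i ω - ∫ ω', ∑ i, H i ω' ∂P|} ≤ ε / 2 := by
    refine (ENNReal.toReal_le_of_le_ofReal 
      (div_nonneg (variance_nonneg _ _) (sq_nonneg _)) ch).trans ?_
    rw [div_le_iff₀ (by positivity)]
    refine hv.trans ?_
    have : 16 * c ^ 2 * M ^ 2 ≤ n * ε ^ 3 := by
      rw [div_le_iff₀ (by positivity)] at hk0
      have : (k0 : ℝ) * ε ^ 3 ≤ n * ε ^ 3 := by gcongr; linarith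
      linarith
    have e : ε / 2 * (ε * n / 2) ^ 2 = n * (n * ε ^ 3) / 8 := by ring
    rw [e, ← hn]
    nlinarith
  have mk := mul_meas_ge_le_integral_of_nonneg (μ := P) (f := fun ω => ∑ i, T i ω)
    (Eventually.of_forall fun ω => Finset.sum_nonneg fun i _ => le_max_right _ _)
    (integrable_finsetSum _ fun i _ => hTi i) (ε * n / 4)
  have hs : ∑ i, ∫ ω, T i ω ∂P ≤ n * δ := by
    have := Finset.sum_le_card_nsmul Finset.univ _ δ fun i _ => hTe i
    rwa [Finset.card_univ, nsmul_eq_mul] at this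
  rw [integral_finsetSum _ fun i _ => hTi i] at mk
  have mk' : P.real {ω | ε * n / 4 ≤ ∑ i, T i ω} ≤ ε / 2 := by
    have a : n * δ ≤ n * (ε ^ 2 / 8) := by gcongr; exact min_le_left _ _
    have b : ε * n / 4 * P.real {ω | ε * n / 4 ≤ ∑ i, T i ω} ≤ ε * n / 4 * (ε / 2) := by
      nlinarith
    exact le_of_mul_le_mul_left b (by positivity)
  have hE : |∑ i, ∫ ω', G i ω' ∂P - ∫ ω', ∑ i, H i ω' ∂P| ≤ ε * n / 4 := by
    rw [integral_finsetSum _ fun i _ => hHi i, ← Finset.sum_sub_distrib]
    refine (Finset.abs_sum_le_sum_abs _ _).trans ?_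
    have a : ∑ i, |∫ ω', G i ω' ∂P - ∫ ω', H i ω' ∂P| ≤ ∑ i, ∫ ω, T i ω ∂P := by
      refine Finset.sum_le_sum fun i _ => ?_
      rw [← integral_sub (hGi i) (hHi i)]
      refine abs_integral_le_integral_abs.trans ?_
      exact integral_mono ((hGi i).sub (hHi i)).abs (hTi i) fun ω => hGH i ω
    have b : n * δ ≤ n * (ε / 4) := by gcongr; exact min_le_right _ _
    linarith
  have sub : {ω | ε * n < |∑ i, G i ω - ∑ i, ∫ ω', G i ω' ∂P|} ⊆
      {ω | ε * n / 2 ≤ |∑ i, H i ω - ∫ ω', ∑ i, H i ω' ∂P|} ∪ {ω | ε * n / 4 ≤ ∑ i, T i ω} := by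
    intro ω hω
    by_contra hcon
    simp only [Set.mem_union, Set.mem_ofPred_eq, not_or, not_le] at hcon hω
    have a : |∑ i, G i ω - ∑ i, H i ω| ≤ ∑ i, T i ω := by
      rw [← Finset.sum_sub_distrib]
      exact (Finset.abs_sum_le_sum_abs _ _).trans (Finset.sum_le_sum fun i _ => hGH i ω)
    have a1 := abs_le.1 a
    have a2 := abs_lt.1 hcon.1
    have a3 := abs_le.1 hE
    have : |∑ i, G i ω - ∑ i, ∫ ω', G i ω' ∂P| ≤ ε * n :=
      abs_le.2 ⟨by linarith [hcon.2], by linarith [hcon.2]⟩
    linarith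
  refine (measureReal_mono sub).trans ((measureReal_union_le _ _).trans ?_)
  linarith

end general

variable {Ω J : Type} [Countable Ω] [MeasurableSpace Ω] [DiscreteMeasurableSpace Ω] [Fintype J]
  {ν : J → Measure Ω} {s : Ω → ℕ} {z : Ω → ℝ} {Δ : ℕ} {B : ℝ}

end Pool.Agent.Lib.MP_77dff5_pr
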