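import Pool.Agent.Lib.MP_77dff5_pr.PairC
import Pool.Agent.Lib.MP_77dff5_pr.VarA

/-! Concentration of the pair count given the core. -/

set_option autoImplicit false

namespace Pool.Agent.Lib.MP_77dff5_pr

open MeasureTheory ProbabilityTheory Filter Topology
open scoped ENNReal NNReal

variable {Ω J : Type} [Countable Ω] [MeasurableSpace Ω] [DiscreteMeasurableSpace Ω]
  {ν : J → Measure Ω} {a b c Y dir : Ω → ℕ} {eps : Ω → ℕ → ℕ → ℕ} {jD jV : J} {i j : ℕ}

/-- final degree, replaced by `K` at vertices of degree at least `K` -/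
noncomputable def pairD_hd {Ω : Type} (a b : Ω → ℕ) (K : ℕ) (t : NG)
    (ω : Fin t.1 ⊕ Fin t.2.1 → Ω) (u : Bool ⊕ Fin t.2.1) : ℕ :=
  if deg t.2.2 u < K then hatDeg a b t ω u else K

/-- the local terms -/
noncomputable def pairD_G {Ω : Type} (a b : Ω → ℕ) (eps : Ω → ℕ → ℕ → ℕ) (K : ℕ) (t : NG) :
    Fin t.1 ⊕ Fin t.2.1 → (Fin t.1 ⊕ Fin t.2.1 → Ω) → ℝ
  | .inl e, ω => (eps (ω (.inl e)) (pairD_hd a b K t ω (t.2.2 (e, true)))
      (pairD_hd a b K t ω (t.2.2 (e, false))) : ℝ)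
  | .inr _, _ => 0

theorem pairD_deg_eq {D V : Type} [Fintype D] [DecidableEq V] (μ : D → V) (u : V) :
    deg μ u = (Finset.univ.filter fun x => μ x = u).card := by
  classical
  rw [deg, Nat.card_eq_fintype_card, Fintype.card_subtype]

theorem pairD_deg_le {Ω : Type} (a b : Ω → ℕ) (t : NG) (ω : Fin t.1 ⊕ Fin t.2.1 → Ω)
    (hω : ∀ e, 1 ≤ a (ω (.inl e)) ∧ 1 ≤ b (ω (.inl e))) (u : Bool ⊕ Fin t.2.1) :
    deg t.2.2 u ≤ hatDeg a b t ω u := by
  rw [pairD_deg_eq, Finset.card_filter, hatDeg, poleSum]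
  refine le_trans (Finset.sum_le_sum fun x _ => ?_) (Nat.le_add_right _ _)
  split_ifs with h1 h2
  · exact (hω x.1).1
  · exact (hω x.1).2
  · exact le_rfl

theorem pairD_min {Ω : Type} (a b : Ω → ℕ) (K : ℕ) (t : NG) (ω : Fin t.1 ⊕ Fin t.2.1 → Ω)
    (hω : ∀ e, 1 ≤ a (ω (.inl e)) ∧ 1 ≤ b (ω (.inl e))) (u : Bool ⊕ Fin t.2.1) :
    min (pairD_hd a b K t ω u) K = min (hatDeg a b t ω u) K := by
  unfold pairD_hd
  split_ifs with h
  · rfl
  · have := pairD_deg_le a b t ω hω u
    omega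

theorem pairD_hd_congr {Ω : Type} (a b : Ω → ℕ) (K : ℕ) (t : NG)
    (ω ω' : Fin t.1 ⊕ Fin t.2.1 → Ω) (u : Bool ⊕ Fin t.2.1)
    (h : deg t.2.2 u < K → ∀ x, t.2.2 x = u → ω (.inl x.1) = ω' (.inl x.1)) :
    pairD_hd a b K t ω u = pairD_hd a b K t ω' u := by
  unfold pairD_hd
  split_ifs with hu
  · unfold hatDeg poleSum
    congr 1
    refine Finset.sum_congr rfl fun x _ => ?_
    by_cases hx : t.2.2 x = u
    · rw [h hu x hx]
    · rw [if_neg hx, if_neg hx]
  · rfl

/-- the slots whose term may depend on the slot of an edge end at `u` -/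
noncomputable def pairD_near (K : ℕ) (t : NG) (u : Bool ⊕ Fin t.2.1) :
    Finset (Fin t.1 ⊕ Fin t.2.1) :=
  if deg t.2.2 u < K then (Finset.univ.filter fun x => t.2.2 x = u).image fun x => .inl x.1
  else ∅

theorem pairD_near_card (K : ℕ) (t : NG) (u : Bool ⊕ Fin t.2.1) :
    (pairD_near K t u).card ≤ K := by
  unfold pairD_near
  split_ifs with h
  · refine Finset.card_image_le.trans ?_
    rw [← pairD_deg_eq]
    exact h.le
  · simp

theorem pairD_dep {Ω : Type} (a b : Ω → ℕ) (eps : Ω → ℕ → ℕ → ℕ) (K : ℕ) (t : NG)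
    (j0 : Fin t.1 ⊕ Fin t.2.1) :
    Nat.card {i // ∃ ω η, pairD_G a b eps K t i ω ≠
      pairD_G a b eps K t i (Function.update ω j0 η)} ≤ 2 * K + 1 := by
  classical
  rcases j0 with e0 | v0
  · set S : Finset (Fin t.1 ⊕ Fin t.2.1) := insert (.inl e0)
      (pairD_near K t (t.2.2 (e0, true)) ∪ pairD_near K t (t.2.2 (e0, false))) with hS
    have hcard : S.card ≤ 2 * K + 1 := by
      refine (Finset.card_insert_le _ _).trans ?_
      have h1 := Finset.card_union_le (pairD_near K t (t.2.2 (e0, true)))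
        (pairD_near K t (t.2.2 (e0, false)))
      have h2 := pairD_near_card K t (t.2.2 (e0, true))
      have h3 := pairD_near_card K t (t.2.2 (e0, false))
      omega
    refine le_trans ?_ hcard
    rw [Nat.card_eq_fintype_card, Fintype.card_subtype]
    refine Finset.card_le_card fun i hi => ?_
    obtain ⟨ω, η, hne⟩ := (Finset.mem_filter.1 hi).2
    by_contra hiS
    apply hne
    rcases i with e | v
    · have he : e ≠ e0 := fun h => hiS (by rw [h, hS]; exact Finset.mem_insert_self _ _)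
      have key : ∀ d, pairD_hd a b K t ω (t.2.2 (e, d)) =
          pairD_hd a b K t (Function.update ω (.inl e0) η) (t.2.2 (e, d)) := by
        intro d
        refine pairD_hd_congr a b K t _ _ _ fun hu x hx => ?_
        rw [Function.update_of_ne]
        intro hx0
        have hx1 : x.1 = e0 := Sum.inl_injective hx0
        apply hiS
        rw [hS]
        refine Finset.mem_insert_of_mem ?_
        have hmem : (Sum.inl e : Fin t.1 ⊕ Fin t.2.1) ∈ pairD_near K t (t.2.2 x) := by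
          unfold pairD_near
          rw [hx, if_pos hu]
          exact Finset.mem_image.2 ⟨(e, d), Finset.mem_filter.2 ⟨Finset.mem_univ _, rfl⟩, rfl⟩
        obtain ⟨x1, x2⟩ := x
        have hx1' : x1 = e0 := hx1
        subst hx1'
        cases x2
        · exact Finset.mem_union_right _ hmem
        · exact Finset.mem_union_left _ hmem
      simp only [pairD_G]
      rw [key true, key false, Function.update_of_ne fun h => he (Sum.inl_injective h)]
    · rfl
  · have : IsEmpty {i // ∃ ω η, pairD_G a b eps K t i ω ≠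
        pairD_G a b eps K t i (Function.update ω (.inr v0) η)} := by
      refine ⟨fun ⟨i, ω, η, hne⟩ => hne ?_⟩
      rcases i with e | v
      · have key : ∀ u, pairD_hd a b K t ω u =
            pairD_hd a b K t (Function.update ω (.inr v0) η) u := fun u =>
          pairD_hd_congr a b K t _ _ _ fun _ x _ => by
            rw [Function.update_of_ne Sum.inl_ne_inr]
        simp only [pairD_G]
        rw [key, key, Function.update_of_ne Sum.inl_ne_inr]
      · rfl
    rw [Nat.card_of_isEmpty]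
    exact Nat.zero_le _

theorem xhat_lln [Fintype J] (hν : ∀ j, IsProbabilityMeasure (ν j))
    (h : EpsOK (ν jD) a b Y dir eps i j) (hV : Integrable (fun ω => (Y ω : ℝ)) (ν jV)) {ε : ℝ}
    (hε : 0 < ε) :
    ∃ m0 : ℕ, ∀ t : NG, m0 ≤ t.1 → ∀ (f : ℕ → ℝ) (k0 s0 : ℕ) (z0 : ℝ),
      ((Tcore a b c jD jV f k0 t s0 z0).P ν).real {ω | ε * (t.1 + t.2.1) <
        |(Xhat a b eps t ω : ℝ) -
          ∫ ω', (Xhat a b eps t ω' : ℝ) ∂(Tcore a b c jD jV f k0 t s0 z0).P ν|} ≤ ε := by
  classical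
  set K := max i j + 1 with hK
  obtain ⟨m0, hm0⟩ := lln_of_diff ({ν jD, ν jV} : Finset (Measure Ω)) (fun ω => (Y ω : ℝ))
    (fun m hm => by
      rcases Finset.mem_insert.1 hm with rfl | hm
      · exact h.int
      · rw [Finset.mem_singleton.1 hm]; exact hV) ((2 * K + 1 : ℕ) : ℝ) ε hε
  refine ⟨m0, fun t ht f k0 s0 z0 => ?_⟩
  set ρ : Fin t.1 ⊕ Fin t.2.1 → Measure Ω :=
    fun i => ν (Sum.elim (fun _ => jD) (fun _ => jV) i) with hρ
  haveI : ∀ i, IsProbabilityMeasure (ρ i) := fun i => hν _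
  have hbd : ∀ i ω, |pairD_G a b eps K t i ω| ≤ (Y (ω i) : ℝ) := by
    rintro (e | v) ω
    · simp only [pairD_G]
      rw [abs_of_nonneg (Nat.cast_nonneg _)]
      exact_mod_cast h.le _ _ _
    · simp only [pairD_G, abs_zero]
      exact Nat.cast_nonneg _
  have hmain := hm0 (Fin t.1 ⊕ Fin t.2.1) ρ
    (by rintro (e | v) <;> simp [hρ])
    (by rw [Fintype.card_sum, Fintype.card_fin]; omega) (pairD_G a b eps K t) hbd
    (fun j0 => by exact_mod_cast pairD_dep a b eps K t j0)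
  have hYint : ∀ i, Integrable (fun ω => (Y ω : ℝ)) (ρ i) := by
    rintro (e | v)
    · exact h.int
    · exact hV
  have hGint : ∀ i, Integrable (pairD_G a b eps K t i) (Measure.pi ρ) := fun i => by
    have h1 : Integrable (fun ω : Fin t.1 ⊕ Fin t.2.1 → Ω => (Y (ω i) : ℝ)) (Measure.pi ρ) :=
      (measurePreserving_eval ρ i).integrable_comp_of_integrable (hYint i)
    exact h1.mono' Measurable.of_discrete.aestronglyMeasurable
      (Eventually.of_forall fun ω => hbd i ω)
  have hae : ∀ᵐ ω ∂Measure.pi ρ, ∀ e, 1 ≤ a (ω (.inl e)) ∧ 1 ≤ b (ω (.inl e)) := by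
    rw [ae_all_iff]
    intro e
    have h1 : ∀ᵐ x ∂ρ (.inl e), 1 ≤ a x ∧ 1 ≤ b x :=
      h.one_le.mono fun x hx => ⟨hx.1, hx.2.1⟩
    exact (measurePreserving_eval ρ (.inl e)).quasiMeasurePreserving.ae h1
  have heq : ∀ᵐ ω ∂Measure.pi ρ, (Xhat a b eps t ω : ℝ) = ∑ i, pairD_G a b eps K t i ω := by
    refine hae.mono fun ω hω => ?_
    rw [Fintype.sum_sum_type]
    simp only [pairD_G, Finset.sum_const_zero, add_zero, Xhat]
    rw [Nat.cast_sum]
    refine Finset.sum_congr rfl fun e _ => ?_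
    rw [h.min _ (hatDeg a b t ω _), h.min _ (pairD_hd a b K t ω _), ← hK,
      pairD_min a b K t ω hω, pairD_min a b K t ω hω]
  have hint : ∫ ω', (Xhat a b eps t ω' : ℝ) ∂Measure.pi ρ =
      ∑ i, ∫ ω', pairD_G a b eps K t i ω' ∂Measure.pi ρ := by
    rw [integral_congr_ae heq, integral_finset_sum _ fun i _ => hGint i]
  change (Measure.pi ρ).real {ω | ε * (t.1 + t.2.1) <
        |(Xhat a b eps t ω : ℝ) - ∫ ω', (Xhat a b eps t ω' : ℝ) ∂Measure.pi ρ|} ≤ ε
  refine le_trans (le_of_eq ?_) hmain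
  refine measureReal_congr ?_
  refine heq.mono fun ω hω => ?_
  change (ε * (t.1 + t.2.1) < |(Xhat a b eps t ω : ℝ) -
      ∫ ω', (Xhat a b eps t ω' : ℝ) ∂Measure.pi ρ|) =
    (ε * Fintype.card (Fin t.1 ⊕ Fin t.2.1) < |∑ i, pairD_G a b eps K t i ω -
      ∑ i, ∫ ω', pairD_G a b eps K t i ω' ∂Measure.pi ρ|)
  rw [hω, hint, Fintype.card_sum, Fintype.card_fin, Fintype.card_fin, Nat.cast_add]

end Pool.Agent.Lib.MP_77dff5_pr
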