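import Pool.Agent.Lib.MP_77dff5_pr.PairA
import Pool.Agent.Lib.MP_77dff5_pr.PairB
import Pool.Agent.Lib.MP_77dff5_pr.PairD
import Pool.Agent.Lib.MP_77dff5_pr.AWin

/-! Law of large numbers for pair counts of cores. -/

set_option autoImplicit false

namespace Pool.Agent.Lib.MP_77dff5_pr

open MeasureTheory ProbabilityTheory Filter Topology
open scoped ENNReal NNReal

theorem pairE_evc : EvC (fun _ => (0 : ℝ)) 0 := fun _ _ => rfl

theorem pairE_int_ne {w : ℝ} (hw : 0 < w) (j : JA) :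
    Integrable (fun ω => ((2 * ne ω : ℕ) : ℝ)) (nuA w j) := by
  have h := ((slots1_A hw pairE_evc 1 0).int_z j).const_mul 2
  refine h.congr (Eventually.of_forall fun ω => ?_)
  simp only [zz, FO_const]
  push_cast
  ring

theorem pairE_epsOK {w : ℝ} (hw : 0 < w) (i j : ℕ) :
    EpsOK (nuA w .D) aO bO (fun ω => 2 * ne ω) dirO (epsO i j) i j where
  sym := ⟨swapO, map_nrm_swapO fun ω => wgA_swapO ω,
    fun ω => (swapO_stat (fun _ => 0) ω).1, fun ω => (swapO_stat (fun _ => 0) ω).2.1,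
    fun ω => (swapO_stat (fun _ => 0) ω).2.2.2.2.2.2.2, epsO_swapO i j⟩
  one_le := ae_nrm fun ω hω => by
    obtain ⟨h1, h2, -, h4⟩ := suppA (P := fun _ => True) hω
    exact ⟨h1, h2, by omega⟩
  int := pairE_int_ne hw .D
  le := epsO_le i j
  min := epsO_min i j
  mixed := epsO_mixed i j
  atom := by
    have hy : ENNReal.ofReal (yw w) ≠ 0 := by
      simpa using (crit_pos hw).2.1
    obtain ⟨ω, h0, h1, h2, h3, -⟩ := atomA_E (x := ENNReal.ofReal (xw w)) hy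
    refine nrm_ne_zero (massA_ne hw .D).2 (ω := ω) ?_ ⟨h1, h2, h3⟩
    intro h
    rw [wA, partA .D (by decide), Finset.sum_eq_zero_iff] at h
    exact h0 (by simpa [incA] using h .E (Finset.mem_univ _))

/-- the mean pair count given the core -/
noncomputable def pairE_E (w : ℝ) (i j : ℕ) (t : TT) : ℝ :=
  ∫ ω, (Xhat aO bO (epsO i j) t.1 ω : ℝ) ∂((FA w (fun _ => 0) 0 0 0 .H).core t).P (nuA w)

theorem pairE_ind {Ω J : Type} [Countable Ω] [MeasurableSpace Ω] [DiscreteMeasurableSpace Ω]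
    (c : Core Ω J) (ν : J → Measure Ω) (A : Set (c.I → Ω)) :
    ∫⁻ ω, ind (ω ∈ A) ∂c.P ν = c.P ν A := by
  rw [← lintegral_indicator_one MeasurableSet.of_discrete]
  refine lintegral_congr fun ω => ?_
  by_cases hω : ω ∈ A
  · simp [ind, hω]
  · simp [ind, hω]

theorem pairE_weight {w : ℝ} (hw : 0 < w) (t : TT)
    (A : Set (((FA w (fun _ => 0) 0 0 0 .H).core t).I → Om)) :
    ((FA w (fun _ => 0) 0 0 0 .H).w t : ℝ≥0∞) *
        ((FA w (fun _ => 0) 0 0 0 .H).core t).P (nuA w) A =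
      (famAH (fun _ => 0) 0 0).w t * ∑' ω : Fin t.1.1 ⊕ Fin t.1.2.1 → Om,
        (∏ u, wgA (ENNReal.ofReal (xw w)) (ENNReal.ofReal (yw w))
          (((famAH (fun _ => 0) 0 0).core t).cls u) (ω u)) * ind (ω ∈ A) := by
  have h := Core.tlaw_eq ((FA w (fun _ => 0) 0 0 0 .H).core t) (wg := wA w)
    (fun j => (massA_ne hw j).1) (fun j => (massA_ne hw j).2) (fun ω => ind (ω ∈ A))
  rw [pairE_ind] at h
  have h3 : ((FA w (fun _ => 0) 0 0 0 .H).w t : ℝ≥0∞) = (famAH (fun _ => 0) 0 0).w t *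
      ∏ u, ∑' ω, wA w (((FA w (fun _ => 0) 0 0 0 .H).core t).cls u) ω := by
    refine ENNReal.coe_toNNReal (ENNReal.mul_ne_top ?_
      (ENNReal.prod_ne_top fun u _ => (massA_ne hw _).2))
    refine ENNReal.mul_ne_top (by simp) (ENNReal.inv_ne_top.2 ?_)
    exact_mod_cast (by positivity :
      t.1.1.factorial * 2 ^ t.1.1 * t.1.2.1.factorial ≠ 0)
  rw [h3, mul_assoc]
  exact congrArg _ h.symm

theorem pairE_local {w : ℝ} (hw : 0 < w) (i j : ℕ) : ∃ ξ : ℝ, ∀ ε δ : ℝ, 0 < ε → 0 < δ →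
    ∀ᶠ n : ℕ in atTop, ∑' t, ((FA w (fun _ => 0) 0 0 0 .H).w t : ℝ≥0∞) *
      ((FA w (fun _ => 0) 0 0 0 .H).core t).P (nuA w)
        {ω | ((FA w (fun _ => 0) 0 0 0 .H).core t).S sA ω = n ∧
          ε * n < |(Xhat aO bO (epsO i j) (t : TT).1 ω : ℝ) - ξ * n|} ≤
        ENNReal.ofReal (δ * (n : ℝ) ^ (-(5 / 2) : ℝ)) := by
  obtain ⟨ξ, hξ⟩ := pair_maps hw i j
  refine ⟨ξ, fun ε δ hε hδ => ?_⟩
  have hx := (crit_pos hw).1
  have hy := (crit_pos hw).2.1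
  have h1 := (tendsto_add_atTop_nat 1).eventually
    (hξ (ε / 2) (xw w * yw w * δ) (by positivity) (by positivity))
  have h2 : ∀ᶠ n : ℕ in atTop, (2 + |ξ| + ε / 2) / (ε / 2) ≤ (n : ℝ) :=
    tendsto_natCast_atTop_atTop.eventually (eventually_ge_atTop _)
  filter_upwards [h1, h2, eventually_ge_atTop 1] with n hn1 hn2 hn3
  rw [div_le_iff₀ (by positivity)] at hn2
  have h3 := pair_core (ENNReal.ofReal (xw w)) (ENNReal.ofReal (yw w)) (fun _ => 0) 0 0 i j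
    (fun p => ind (p.1 = n ∧ ε * n < |(p.2 : ℝ) - ξ * n|))
    (fun p => ind (p.1 = n + 1 ∧ ε / 2 * (n + 1 : ℕ) < |(p.2 : ℝ) - ξ * (n + 1 : ℕ)|))
    (fun s a b hab hba => by
      by_cases hc : s = n ∧ ε * n < |(a : ℝ) - ξ * n|
      · have hab' : (a : ℝ) ≤ b := by exact_mod_cast hab
        have hba' : (b : ℝ) ≤ a + 2 := by exact_mod_cast hba
        have h4 : s + 1 = n + 1 ∧ ε / 2 * (n + 1 : ℕ) < |(b : ℝ) - ξ * (n + 1 : ℕ)| := by
          refine ⟨by rw [hc.1], ?_⟩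
          push_cast
          have e1 : (a : ℝ) - ξ * n = (b - ξ * (n + 1)) + ((a - b) + ξ) := by ring
          have e2 := abs_add_le ((b : ℝ) - ξ * (n + 1)) ((a - b) + ξ)
          have e3 := abs_add_le ((a : ℝ) - b) ξ
          have e4 : |(a : ℝ) - b| ≤ 2 := abs_le.2 ⟨by linarith, by linarith⟩
          have e5 := hc.2
          rw [e1] at e5
          linarith
        simp only [ind, if_pos hc, if_pos h4, le_refl]
      · simp only [ind, if_neg hc, zero_le])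
  have h5 := h3.trans hn1
  have h6 : ENNReal.ofReal (xw w * yw w * δ * ((n + 1 : ℕ) : ℝ) ^ (-(5 / 2) : ℝ)) ≤
      ENNReal.ofReal (xw w) * ENNReal.ofReal (yw w) *
        ENNReal.ofReal (δ * (n : ℝ) ^ (-(5 / 2) : ℝ)) := by
    rw [← ENNReal.ofReal_mul hx.le, ← ENNReal.ofReal_mul (by positivity), mul_assoc _ δ]
    refine ENNReal.ofReal_le_ofReal ?_
    have hn0 : (0 : ℝ) < n := by exact_mod_cast hn3
    have h7 : ((n + 1 : ℕ) : ℝ) ^ (-(5 / 2) : ℝ) ≤ (n : ℝ) ^ (-(5 / 2) : ℝ) :=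
      Real.rpow_le_rpow_of_nonpos hn0 (by push_cast; linarith) (by norm_num)
    gcongr
  have h8 : ENNReal.ofReal (xw w) * ENNReal.ofReal (yw w) ≠ 0 :=
    mul_ne_zero (by simpa using hx) (by simpa using hy)
  have h9 := (ENNReal.mul_le_mul_iff_right h8
    (ENNReal.mul_ne_top ENNReal.ofReal_ne_top ENNReal.ofReal_ne_top)).1 (h5.trans h6)
  refine le_trans (le_of_eq (tsum_congr fun t => ?_)) h9
  rw [pairE_weight hw]
  rfl

theorem pairE_lln {w : ℝ} (hw : 0 < w) (i j : ℕ) :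
    ∃ e : ℝ, WinLLN posm (fun t => wTw w t) (pairE_E w i j) e := by
  obtain ⟨mu, -, -, hmu⟩ := mdata hw
  obtain ⟨c, σ2, hM⟩ := hmu _ 0 pairE_evc
  obtain ⟨-, A, hT1, -⟩ := hM.slots hw pairE_evc
  obtain ⟨Δ, B, -, -, hH⟩ := goodA hw pairE_evc 0 0
  obtain ⟨U, α, C, hS, -⟩ := scaleA hw
  obtain ⟨ξ, hξ⟩ := pairE_local hw i j
  have hs := slots1_A hw pairE_evc 0 0
  have hpos := pos_FA hw (fun _ => 0) 0 0 0
  have h1 := Fam.winLLN_of_local hs hT1 hH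
    (by
      rw [hpos]
      exact hS.hw.mono 2 (fun t => by rw [FA_H_w hw]; exact le_of_eq (ENNReal.coe_mul _ _)) le_rfl)
    (fun t ω => (Xhat aO bO (epsO i j) (t : TT).1 ω : ℝ)) (pairE_E w i j) ξ
    (fun ε hε => by
      obtain ⟨m0, hm0⟩ := xhat_lln (c := cO) hs.prob (pairE_epsOK hw i j) (pairE_int_ne hw .V) hε
      refine ⟨2 * m0, fun t ht => ?_⟩
      have hk : ((FA w (fun _ => 0) 0 0 0 .H).core t).k = (t : TT).1.1 + (t : TT).1.2.1 := by
        change Fintype.card (Fin (t : TT).1.1 ⊕ Fin (t : TT).1.2.1) = _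
        simp
      have h2 := (TT_facts t).2.1
      rw [hk] at ht ⊢
      push_cast
      exact hm0 (t : TT).1 (by omega) _ _ _ _)
    hξ
  rw [hpos] at h1
  have h2 : WinLLN (posA w) (fun t => wTw w t) (pairE_E w i j) ξ :=
    WinLLN.mono h1 1 fun t => by
      rw [FA_H_w hw, ENNReal.coe_one, one_mul, ENNReal.coe_le_coe, two_mul]
      exact le_self_add
  exact ⟨_, WinLLN.scale hS.hα hS.h1 hS.h2 hS.h3 hS.h4 hS.hw hS.hU h2⟩

theorem pairE_zero {p q : ℕ} (h : p = 0 ∨ q = 0) (t : NG) : Epq p q t = 0 := by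
  have hd : ∀ (x : Fin t.1 × Bool) (u : Bool ⊕ Fin t.2.1), t.2.2 x = u → deg t.2.2 u ≠ 0 := by
    intro x u hx
    have : Nonempty {x // t.2.2 x = u} := ⟨⟨x, hx⟩⟩
    exact Nat.card_pos.ne'
  rw [Epq, Nat.card_eq_zero]
  refine Or.inl ⟨?_⟩
  rintro ⟨x, v, v', h1, h2, h3, h4⟩
  rcases h with rfl | rfl
  · exact hd _ _ h1 h3
  · exact hd _ _ h2 h4

theorem pair_lln {w : ℝ} (hw : 0 < w) (p q : ℕ) :
    ∃ e : ℝ, WinLLN posm (fun t => wTw w t) (fun t => Epq p q t.1) e := by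
  induction hN : p + q using Nat.strong_induction_on generalizing p q with
  | _ N ih =>
  by_cases h0 : p = 0 ∨ q = 0
  · refine ⟨_, ((WinLLN.self (pos := posm) (fun t => (wTw w t : ℝ≥0∞))).add
      (WinLLN.self _) 0 0).of_close (C := 0) fun t => ?_⟩
    simp [pairE_zero h0]
  have hp : 1 ≤ p := by omega
  have hq : 1 ≤ q := by omega
  have hs := slots1_A hw pairE_evc 0 0
  obtain ⟨c0, C, β, π, hβ, hπ, hm⟩ := xhat_mean (c := cO) (jV := JA.V) hs.prob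
    (pairE_epsOK hw p q) hp hq
  obtain ⟨e1, he1⟩ := pairE_lln hw p q
  obtain ⟨e2, he2⟩ := winA_stat hw hβ
  set I : Finset (ℕ × ℕ) := (Finset.range (p + 1) ×ˢ Finset.range (q + 1)).erase (p, q) with hI
  have h1 : ∀ r : ℕ × ℕ, ∃ e : ℝ, r ∈ I →
      WinLLN posm (fun t => wTw w t) (fun t => Epq r.1 r.2 t.1) e := by
    intro r
    by_cases hr : r ∈ I
    · have h2 := hr
      simp only [hI, Finset.mem_erase, Finset.mem_product, Finset.mem_range, ne_eq,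
        Prod.ext_iff] at h2
      obtain ⟨e, he⟩ := ih (r.1 + r.2) (by omega) r.1 r.2 rfl
      exact ⟨e, fun _ => he⟩
    · exact ⟨0, fun h => absurd h hr⟩
  choose e3 he3 using h1
  have h3 := WinLLN.sum I (fun r => π r.1 r.2) he3
  have h4 := ((he1.add (WinLLN.self _) 1 (-c0)).add (he2.add h3 1 1) (π p q)⁻¹ (-(π p q)⁻¹))
  refine ⟨_, h4.of_close (C := (π p q)⁻¹ * C) fun t => ?_⟩
  have h5 := hm t.1 (TT_facts t).1 (fun _ => 0) 0 (t.1.1 - t.1.2.1 - 1)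
    (-(0 * (t.1.1 - t.1.2.1 - 1 : ℕ)))
  have h6 : ∑ a ∈ Finset.range (p + 1), ∑ b ∈ Finset.range (q + 1), π a b * Epq a b t.1 =
      π p q * Epq p q t.1 + ∑ r ∈ I, π r.1 r.2 * Epq r.1 r.2 t.1 := by
    rw [← Finset.sum_product' (f := fun a b => π a b * (Epq a b t.1 : ℝ)), hI]
    exact (Finset.add_sum_erase _ (fun r : ℕ × ℕ => π r.1 r.2 * (Epq r.1 r.2 t.1 : ℝ))
      (a := (p, q)) (by simp)).symm
  rw [h6] at h5
  change |pairE_E w p q t - _| ≤ C at h5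
  have h7 : (π p q)⁻¹ * (1 * pairE_E w p q t + -c0 * posm t) +
      -(π p q)⁻¹ * (1 * Fl β t.1 + 1 * ∑ r ∈ I, π r.1 r.2 * (Epq r.1 r.2 t.1 : ℝ)) -
      (Epq p q t.1 : ℝ) = (π p q)⁻¹ * (pairE_E w p q t - (c0 * t.1.1 + Fl β t.1 +
        (π p q * Epq p q t.1 + ∑ r ∈ I, π r.1 r.2 * (Epq r.1 r.2 t.1 : ℝ)))) := by
    rw [posm]
    field_simp
    ring
  rw [h7, abs_mul, abs_of_pos (inv_pos.2 hπ)]
  exact mul_le_mul_of_nonneg_left h5 (inv_pos.2 hπ).le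

end Pool.Agent.Lib.MP_77dff5_pr
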