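import Pool.Agent.Lib.MP_77dff5_pr.MDefs
import Pool.Agent.Lib.MP_77dff5_pr.Root

/-! Rerooting: edges between vertices of given degrees, through contraction. -/

set_option autoImplicit false

namespace Pool.Agent.Lib.MP_77dff5_pr

open scoped ENNReal NNReal Classical

/-- unrooted planar maps -/
noncomputable def wMap (ν : UG) : ℝ≥0∞ := wt ν.1 ν.2.1 * ind (SConn ν.2.2) * emb ν.2.2 (flp _)

/-- number of darts from a vertex of degree `i` to another vertex of degree `j` -/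
noncomputable def Xu (i j : ℕ) (ν : UG) : ℕ := pairC ν.2.2 (deg ν.2.2) i j

/-- number of vertices of degree `d` -/
noncomputable def Nd (d : ℕ) (ν : UG) : ℕ := Nat.card {v // deg ν.2.2 v = d}

theorem pairR_sconn {ν : UG} (h : wMap ν ≠ 0) : SConn ν.2.2 ∧ emb ν.2.2 (flp _) ≠ 0 := by
  refine ⟨?_, fun h0 => h ?_⟩
  · by_contra hc
    exact h (by rw [wMap, rootB_ind_neg hc, mul_zero, zero_mul])
  · rw [wMap, h0, Nat.cast_zero, mul_zero]

theorem pairR_sub_le {X : Type} [Finite X] (p : X → Prop) : Nat.card {x // p x} ≤ Nat.card X :=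
  Nat.card_le_card_of_injective Subtype.val Subtype.val_injective

theorem pairR_ncyc_le {D : Type} [Finite D] (π : Equiv.Perm D) : ncyc π ≤ Nat.card D :=
  Nat.card_le_card_of_surjective _ Quotient.mk_surjective

theorem wMap_supp {ν : UG} (h : wMap ν ≠ 0) (i j : ℕ) :
    1 ≤ ν.1 ∧ 1 ≤ ν.2.1 ∧ ν.2.1 ≤ ν.1 + 1 ∧ Xu i j ν ≤ 2 * ν.1 ∧ Nd i ν ≤ ν.2.1 := by
  obtain ⟨hc, he⟩ := pairR_sconn h
  obtain ⟨σ, -, h0⟩ := (Nat.card_pos_iff.1 (Nat.pos_of_ne_zero he)).1
  have h1 : 1 ≤ ν.1 := by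
    have a1 := pairR_ncyc_le σ
    have a2 := pairR_ncyc_le (flp (Fin ν.1))
    have a3 := pairR_ncyc_le (σ * flp (Fin ν.1))
    unfold Gen0 at h0
    rw [rootA_card_dart, Nat.card_eq_fintype_card, Fintype.card_fin] at h0 a1 a2 a3
    omega
  refine ⟨h1, (ν.2.2 (⟨0, h1⟩, true)).pos, by simpa using hc.card_le, ?_, ?_⟩
  · have := pairR_sub_le fun x => ν.2.2 (flp _ x) ≠ ν.2.2 x ∧ deg ν.2.2 (ν.2.2 x) = i ∧
      deg ν.2.2 (ν.2.2 (flp _ x)) = j
    rwa [rootA_card_dart, Nat.card_eq_fintype_card (α := Fin ν.1), Fintype.card_fin] at this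
  · have := pairR_sub_le fun v => deg ν.2.2 v = i
    rwa [Nat.card_eq_fintype_card (α := Fin ν.2.1), Fintype.card_fin] at this

theorem pairR_rpair (i j : ℕ) (R : RG) : rpair i j R (rc R) = pairC R.2.2 (deg R.2.2) i j := by
  unfold rpair
  congr 1
  funext o
  cases o <;> rfl

theorem pairR_nd_congr {E V E' V' : Type} [Finite E] (u : DIso E E') (e : V ≃ V')
    {ν : E × Bool → V} {ν' : E' × Bool → V'} (h : ∀ x, ν' (u.1 x) = e (ν x)) (d : ℕ) :
    Nat.card {v // deg ν' v = d} = Nat.card {v // deg ν v = d} :=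
  Nat.card_congr (e.subtypeEquiv fun v => by rw [deg_congr u e h]).symm

/-- forgetting the root corner; arguments: edges, vertices, pair count, degree count -/
theorem unroot_M (i j d : ℕ) (ψ : ℕ × ℕ × ℕ × ℕ → ℝ≥0∞) (h0 : ∀ a b c, ψ (0, a, b, c) = 0) :
    ∑' R, w0 R * ψ (R.1, R.2.1 + 1, rpair i j R (rc R), Nat.card {v // deg R.2.2 v = d}) =
      ∑' ν, wMap ν * ((2 * ν.1 : ℕ) : ℝ≥0∞) * ψ (ν.1, ν.2.1, Xu i j ν, Nd d ν) := by
  have h1 : VInv (fun E V _ _ ν _ => ψ (Nat.card E, Nat.card V, pairC ν (deg ν) i j,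
      Nat.card {v // deg ν v = d})) := by
    intro E V E' V' _ _ _ _ u e N N' v h
    simp only [rootD_card u, Nat.card_congr e.symm, pairR_nd_congr u e h,
      pairC_congr u e h _ _ (deg_congr u e h)]
  have k1 := root_sum _ h1
  have e4 : Nat.card (Fin triv.1) = 0 := by simp [triv]
  rw [e4, h0, zero_add] at k1
  simp only [Finset.sum_const, Finset.card_univ, nsmul_eq_mul, Fintype.card_prod,
    Fintype.card_bool, Nat.card_eq_fintype_card (α := Fin _), Finite.card_option,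
    Fintype.card_fin] at k1
  simp only [pairR_rpair]
  rw [k1]
  refine tsum_congr fun ν => ?_
  rw [wMap, Xu, Nd, mul_comm 2, mul_assoc (_ * _ * _)]

theorem pairR_eq {E V : Type} [Fintype E] (ν : E × Bool → V) (d : V → ℕ) (i j : ℕ) :
    pairC ν d i j = ∑ x, rootD_i (ν (flp E x) ≠ ν x ∧ d (ν x) = i ∧ d (ν (flp E x)) = j) := by
  rw [pairC, Nat.card_eq_fintype_card, Fintype.card_subtype, Finset.card_filter]
  exact Finset.sum_congr rfl fun x _ => by unfold rootD_i; congr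

theorem pairR_i_le (p : Prop) : rootD_i p ≤ 1 := by
  unfold rootD_i
  split_ifs <;> omega

/-- number of ends of the edge of a dart at the poles -/
noncomputable def pairR_b {E V : Type} (N : E × Bool → Bool ⊕ V) (x : E × Bool) : ℕ :=
  rootD_i (N x = Sum.inl true) + rootD_i (N x = Sum.inl false) +
    (rootD_i (N (flp E x) = Sum.inl true) + rootD_i (N (flp E x) = Sum.inl false))

theorem pairR_b_sum {E V : Type} [Fintype E] (N : E × Bool → Bool ⊕ V) :
    ∑ x, pairR_b N x = 2 * (deg N (Sum.inl true) + deg N (Sum.inl false)) := by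
  simp only [pairR_b, Finset.sum_add_distrib]
  rw [Equiv.sum_comp (flp E) fun x => rootD_i (N x = Sum.inl true),
    Equiv.sum_comp (flp E) fun x => rootD_i (N x = Sum.inl false), ← rootD_deg_eq, ← rootD_deg_eq]
  ring

theorem pairR_b_cases {E V : Type} (N : E × Bool → Bool ⊕ V) (x : E × Bool) :
    1 ≤ pairR_b N x ∨ ∃ v w, N x = Sum.inr v ∧ N (flp E x) = Sum.inr w := by
  unfold pairR_b
  rcases N x with (_ | _) | v <;> rcases N (flp E x) with (_ | _) | w <;>
    simp [rootD_i_true, rootD_i_false]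

theorem pairR_close {E V : Type} [Fintype E] (N : E × Bool → Bool ⊕ V) (i j : ℕ) :
    pairC (clo N) (deg (clo N)) i j ≤ pairC (contract N) (deg (contract N)) i j +
        (2 * (deg N (Sum.inl true) + deg N (Sum.inl false)) + 2) ∧
      pairC (contract N) (deg (contract N)) i j ≤ pairC (clo N) (deg (clo N)) i j +
        (2 * (deg N (Sum.inl true) + deg N (Sum.inl false)) + 2) := by
  rw [pairR_eq, pairR_eq, ← pairR_b_sum]
  set A : Option E × Bool → ℕ := fun x => rootD_i (clo N (flp _ x) ≠ clo N x ∧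
    deg (clo N) (clo N x) = i ∧ deg (clo N) (clo N (flp _ x)) = j) with hA
  set B : E × Bool → ℕ := fun x => rootD_i (contract N (flp _ x) ≠ contract N x ∧
    deg (contract N) (contract N x) = i ∧ deg (contract N) (contract N (flp _ x)) = j) with hB
  have h1 : ∑ x, A x = A (none, true) + A (none, false) + ∑ x : E × Bool, A (some x.1, x.2) := by
    simp only [Fintype.sum_prod_type, Fintype.sum_option, Fintype.sum_bool]
  have h2 : ∀ x : E × Bool, A (some x.1, x.2) ≤ B x + pairR_b N x ∧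
      B x ≤ A (some x.1, x.2) + pairR_b N x := by
    intro x
    have a1 : A (some x.1, x.2) ≤ 1 := pairR_i_le _
    have a2 : B x ≤ 1 := pairR_i_le _
    rcases pairR_b_cases N x with h | ⟨v, w, hv, hw⟩
    · omega
    · have e1 : clo N (some x.1, x.2) = Sum.inr v := hv
      have e2 : clo N (flp _ (some x.1, x.2)) = Sum.inr w := hw
      have e3 : contract N x = some v := by rw [contract, hv]; rfl
      have e4 : contract N (flp _ x) = some w := by rw [contract, hw]; rfl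
      have e : A (some x.1, x.2) = B x := by
        simp only [hA, hB, e1, e2, e3, e4, rootD_deg_clo_inr, rootD_deg_contract_some, ne_eq,
          Sum.inr.injEq, Option.some.injEq]
      omega
  have h3 := Finset.sum_le_sum fun x (_ : x ∈ Finset.univ) => (h2 x).1
  have h4 := Finset.sum_le_sum fun x (_ : x ∈ Finset.univ) => (h2 x).2
  rw [Finset.sum_add_distrib] at h3 h4
  have a1 : A (none, true) ≤ 1 := pairR_i_le _
  have a2 : A (none, false) ≤ 1 := pairR_i_le _
  show ∑ x, A x ≤ ∑ x, B x + _ ∧ ∑ x, B x ≤ ∑ x, A x + _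
  omega

/-- weight of planar maps with a marked non-loop dart whose ends have degrees `i` and `j` -/
noncomputable def pairR_W (i j : ℕ) (G : NG) : ℝ≥0∞ :=
  wt G.1 G.2.1 * ind (SConn (clo G.2.2)) * emb (clo G.2.2) (flp _) *
    ind (deg G.2.2 (Sum.inl true) + 1 = i ∧ deg G.2.2 (Sum.inl false) + 1 = j)

theorem pairR_left (i j : ℕ) (g : ℕ × ℕ × ℕ → ℝ≥0∞) :
    ∑' ν, wMap ν * Xu i j ν * g (ν.1, ν.2.1, Xu i j ν) =
      ∑' G : NG, pairR_W i j G *
        g (G.1 + 1, G.2.1 + 2, pairC (clo G.2.2) (deg (clo G.2.2)) i j) := by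
  have h2 : DInv (fun E V _ _ ν x => ind (SConn ν) * emb ν (flp E) *
      (ind (ν (flp E x) ≠ ν x ∧ deg ν (ν x) = i ∧ deg ν (ν (flp E x)) = j) *
        g (Nat.card E, Nat.card V, pairC ν (deg ν) i j))) := by
    intro E V E' V' _ _ _ _ u e N N' y h
    simp only [sconn_congr u e h, emb_flp_congr u e h, ← u.2, h, rootD_card u, deg_congr u e h,
      Nat.card_congr e.symm, pairC_congr u e h _ _ (deg_congr u e h), ne_eq, e.apply_eq_iff_eq]
  have k2 := mark_dart _ h2
  have e1 : ∀ {E V : Type} (N : E × Bool → Bool ⊕ V), clo N (none, true) = Sum.inl true :=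
    fun _ => rfl
  have e2 : ∀ {E V : Type} (N : E × Bool → Bool ⊕ V),
      clo N (flp _ (none, true)) = Sum.inl false := fun _ => rfl
  have e3 : ∀ {E V : Type} (R : E × Bool → Option V), cloL R (none, true) = none := fun _ => rfl
  have e4 : ∀ {E V : Type} (R : E × Bool → Option V), cloL R (flp _ (none, true)) = none :=
    fun _ => rfl
  simp only [← Finset.mul_sum, ← Finset.sum_mul, ← rootB_card_eq_sum, e1, e2, e3, e4, ne_eq,
    not_true_eq_false, false_and, rootB_ind_neg not_false, zero_mul, mul_zero, tsum_zero, add_zero,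
    rootD_deg_clo_inl, Nat.card_eq_fintype_card (α := Fin _), Finite.card_option, Nat.card_sum,
    Fintype.card_fin, Nat.card_eq_fintype_card (α := Bool), Fintype.card_bool, Sum.inl.injEq,
    Bool.false_eq_true, not_false_eq_true, true_and] at k2
  refine Eq.trans (tsum_congr fun ν => ?_) (k2.trans (tsum_congr fun G => ?_))
  · simp only [wMap, Xu, pairC, ne_eq, mul_assoc]
  · simp only [pairR_W, mul_assoc, add_comm 2]

theorem pairR_right (i j : ℕ) (hi : 1 ≤ i) (hj : 1 ≤ j) (hij : 3 ≤ i + j)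
    (g : ℕ × ℕ × ℕ → ℝ≥0∞) :
    ∑' ν, wMap ν * (((i + j - 2) * Nd (i + j - 2) ν : ℕ) : ℝ≥0∞) *
        g (ν.1 + 1, ν.2.1 + 1, Xu i j ν) =
      ∑' G : NG, pairR_W i j G *
        g (G.1 + 1, G.2.1 + 2, pairC (contract G.2.2) (deg (contract G.2.2)) i j) := by
  have h1 : VInv (fun E V _ _ ν v => ind (deg ν v = i + j - 2) *
      g (Nat.card E + 1, Nat.card V + 1, pairC ν (deg ν) i j)) := by
    intro E V E' V' _ _ _ _ u e N N' v h
    simp only [rootD_card u, Nat.card_congr e.symm, deg_congr u e h,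
      pairC_congr u e h _ _ (deg_congr u e h)]
  have h4 : ∀ k : ℕ, RInv (fun E V _ _ R => ind (k + 1 = i) * (ind (deg R none = i + j - 2) *
      g (Nat.card E + 1, Nat.card (Option V) + 1, pairC R (deg R) i j))) := by
    intro k E V E' V' _ _ _ _ u e N N' h
    have h' : ∀ x, N' (u.1 x) = e.optionCongr (N x) := fun x => by rw [h]; rfl
    simp only [rootD_card u, Nat.card_congr e.optionCongr.symm, (rootD_rinv u e h).1,
      pairC_congr u e.optionCongr h' _ _ (deg_congr u e.optionCongr h')]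
  have k1 := root_sum _ h1
  have k4 := contract_sum _ h4
  beta_reduce at k1 k4
  rw [rootD_deg_triv, rootB_ind_neg (by omega), zero_mul, zero_add] at k1
  refine Eq.trans (tsum_congr fun ν => ?_) (k1.symm.trans (Eq.trans (tsum_congr fun R => ?_)
    (k4.symm.trans (tsum_congr fun G => ?_))))
  · rw [← Finset.sum_mul, ← rootD_sum_deg ν.2.2 fun v => ind (deg ν.2.2 v = i + j - 2), wMap,
      mul_assoc (_ * _ * _), Nat.cast_mul, Nd, rootB_card_eq_sum, Finset.mul_sum]
    simp only [Nat.card_eq_fintype_card (α := Fin _), Fintype.card_fin, Xu]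
    congr 2
    refine Finset.sum_congr rfl fun v _ => ?_
    by_cases hv : deg ν.2.2 v = i + j - 2
    · rw [hv]
    · rw [rootB_ind_neg hv, mul_zero, mul_zero]
  · congr 1
    rw [← Finset.sum_mul]
    by_cases hd : deg R.2.2 none = i + j - 2
    · rw [Finset.sum_eq_single (i - 1), rootB_ind_pos (by omega : i - 1 + 1 = i), one_mul]
      · intro b _ hb
        exact rootB_ind_neg (by omega)
      · intro hb
        exact absurd (Finset.mem_range.2 (by omega)) hb
    · rw [rootB_ind_neg hd, zero_mul, mul_zero]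
  · rw [pairR_W, mul_assoc (_ * _ * _), ← mul_assoc (ind _), ← rootB_ind_and,
      rootD_deg_contract_none]
    simp only [Nat.card_eq_fintype_card (α := Fin _), Finite.card_option, Fintype.card_fin]
    congr 3
    exact propext ⟨fun h => by omega, fun h => by omega⟩

theorem reroot (i j : ℕ) (hi : 1 ≤ i) (hj : 1 ≤ j) (hij : 3 ≤ i + j) (g g' : ℕ × ℕ × ℕ → ℝ≥0∞)
    (h : ∀ e v a b : ℕ, a ≤ b + 2 * (i + j) → b ≤ a + 2 * (i + j) → g (e, v, a) ≤ g' (e, v, b)) :
    ∑' ν, wMap ν * Xu i j ν * g (ν.1, ν.2.1, Xu i j ν) ≤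
      ∑' ν, wMap ν * (((i + j - 2) * Nd (i + j - 2) ν : ℕ) : ℝ≥0∞) *
        g' (ν.1 + 1, ν.2.1 + 1, Xu i j ν) ∧
    ∑' ν, wMap ν * (((i + j - 2) * Nd (i + j - 2) ν : ℕ) : ℝ≥0∞) *
        g (ν.1 + 1, ν.2.1 + 1, Xu i j ν) ≤
      ∑' ν, wMap ν * Xu i j ν * g' (ν.1, ν.2.1, Xu i j ν) := by
  rw [pairR_left, pairR_left, pairR_right i j hi hj hij, pairR_right i j hi hj hij]
  have key : ∀ (G : NG) (a b : ℝ≥0∞), (deg G.2.2 (Sum.inl true) + 1 = i →
      deg G.2.2 (Sum.inl false) + 1 = j → a ≤ b) → pairR_W i j G * a ≤ pairR_W i j G * b := by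
    intro G a b hab
    by_cases hG : deg G.2.2 (Sum.inl true) + 1 = i ∧ deg G.2.2 (Sum.inl false) + 1 = j
    · exact mul_le_mul_right (hab hG.1 hG.2) _
    · rw [pairR_W, rootB_ind_neg hG, mul_zero, zero_mul, zero_mul]
  refine ⟨ENNReal.tsum_le_tsum fun G => key G _ _ fun h1 h2 => ?_,
    ENNReal.tsum_le_tsum fun G => key G _ _ fun h1 h2 => ?_⟩
  · obtain ⟨a1, a2⟩ := pairR_close G.2.2 i j
    exact h _ _ _ _ (by omega) (by omega)
  · obtain ⟨a1, a2⟩ := pairR_close G.2.2 i j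
    exact h _ _ _ _ (by omega) (by omega)

theorem pairR_deg_pos {D V : Type} [Finite D] (ν : D → V) (x : D) : 1 ≤ deg ν (ν x) :=
  Nat.card_pos_iff.2 ⟨⟨⟨x, rfl⟩⟩, inferInstance⟩

theorem pairR_deg_one {D V : Type} {ν : D → V} {x y : D} (h : deg ν (ν x) = 1) (hy : ν x = ν y) :
    y = x :=
  congrArg Subtype.val ((Nat.card_eq_one_iff_unique.1 h).1.elim
    (⟨y, hy.symm⟩ : {z // ν z = ν x}) ⟨x, rfl⟩)

theorem Xu_eq_zero {i j : ℕ} (h : i = 0 ∨ j = 0 ∨ i + j = 2) {ν : UG} (hν : wMap ν ≠ 0)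
    (h2 : ν.2.1 ≤ ν.1) : Xu i j ν = 0 := by
  obtain ⟨hc, -⟩ := pairR_sconn hν
  refine Nat.card_eq_zero.2 (Or.inl ⟨fun ⟨x, hx, hxi, hxj⟩ => ?_⟩)
  have a1 := pairR_deg_pos ν.2.2 x
  have a2 := pairR_deg_pos ν.2.2 (flp _ x)
  have b1 : deg ν.2.2 (ν.2.2 x) = 1 := by omega
  have b2 : deg ν.2.2 (ν.2.2 (flp _ x)) = 1 := by omega
  have c1 : ∀ y : Fin ν.1 × Bool, y.1 = x.1 → y = x ∨ y = flp _ x := by
    obtain ⟨e, b⟩ := x
    rintro ⟨e', b'⟩ rfl
    cases b <;> cases b' <;> simp [flp]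
  have c2 : ∀ a b : Fin ν.1 × Bool, ν.2.2 a = ν.2.2 b → a.1 = x.1 → b.1 = x.1 := by
    intro a b hab ha
    rcases c1 a ha with rfl | rfl
    · rw [pairR_deg_one b1 hab]
    · rw [pairR_deg_one b2 hab]
      rfl
  have c3 : ∀ y : Fin ν.1 × Bool, y.1 = x.1 := fun y =>
    (rootA_eqv_inv (fun z : Fin ν.1 × Bool => z.1 = x.1) (fun a b hab => by
      rcases hab with hab | rfl
      · exact ⟨c2 a b hab, c2 b a hab.symm⟩
      · exact Iff.rfl) (hc.2 x y)).1 rfl
  have d1 : Fintype.card (Fin ν.1) ≤ 1 :=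
    Fintype.card_le_one_iff.2 fun a b => (c3 (a, true)).trans (c3 (b, true)).symm
  have d2 : 1 < Fintype.card (Fin ν.2.1) := Fintype.one_lt_card_iff.2 ⟨_, _, hx⟩
  rw [Fintype.card_fin] at d1 d2
  omega

end Pool.Agent.Lib.MP_77dff5_pr
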