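import Pool.Agent.Lib.MP_77dff5_pr.Perm

/-! Local operations preserving Euler defect zero. -/

set_option autoImplicit false

namespace Pool.Agent.Lib.MP_77dff5_pr

open Equiv

variable {D D' V : Type}

/-- Euler defect zero -/
def Def0 (σ α : Perm D) : Prop :=
  ncyc σ + ncyc α + ncyc (σ * α) = Nat.card D + 2 * ncomp σ α

variable [Finite D] {σ α : Perm D}

theorem plG_of_le (h : Nat.card D + 2 * ncomp σ α ≤ ncyc σ + ncyc α + ncyc (σ * α)) : Def0 σ α :=
  le_antisymm (euler_le σ α) h

theorem plG_left {x y : D} (h : σ.SameCycle x y) :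
    Relation.EqvGen (fun a b => b = σ a ∨ b = α a) x y :=
  permB_sc h (fun z => Relation.EqvGen (fun a b => b = σ a ∨ b = α a) x z)
    (Relation.EqvGen.refl x) fun z hz => hz.trans _ _ _ (Relation.EqvGen.rel _ _ (Or.inl rfl))

theorem plG_right {x y : D} (h : α.SameCycle x y) :
    Relation.EqvGen (fun a b => b = σ a ∨ b = α a) x y :=
  permB_sc h (fun z => Relation.EqvGen (fun a b => b = σ a ∨ b = α a) x z)
    (Relation.EqvGen.refl x) fun z hz => hz.trans _ _ _ (Relation.EqvGen.rel _ _ (Or.inr rfl))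

omit [Finite D] in
theorem plG_swap [DecidableEq D] {r : D → D → Prop} {p q : D} (h : Relation.EqvGen r p q) (x : D) :
    Relation.EqvGen r x (swap p q x) := by
  by_cases h1 : x = p
  · rw [h1, swap_apply_left]
    exact h
  · by_cases h2 : x = q
    · rw [h2, swap_apply_right]
      exact h.symm _ _
    · rw [swap_apply_of_ne_of_ne h1 h2]
      exact Relation.EqvGen.refl x

omit [Finite D] in
theorem plG_not_same {π : Perm D} {p q : D} (hp : π p = p) (hpq : p ≠ q) : ¬π.SameCycle p q :=
  fun h => hpq (h.eq_of_left hp)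

theorem plG_merge [DecidableEq D] {π : Perm D} {a b : D} (h : ¬π.SameCycle a b) (x : D) :
    (π * swap a b).SameCycle x (π x) :=
  (sameCycle_mul_swap_of_not π h x (π x)).2
    (Or.inl (Perm.sameCycle_apply_right.2 Perm.SameCycle.rfl))

theorem Def0.via [Finite D'] (h : Def0 σ α) (j : D ↪ D') :
    Def0 (σ.viaEmbedding j) (α.viaEmbedding j) := by
  have key : ∀ π : Perm D,
      ncyc (π.viaEmbedding j) = ncyc π + Nat.card {y // y ∉ Set.range j} := fun π =>
    permD_ncyc j (fun x => Perm.viaEmbedding_apply π j x)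
      fun y hy => Perm.viaEmbedding_apply_of_notMem π j y hy
  have hm : σ.viaEmbedding j * α.viaEmbedding j = (σ * α).viaEmbedding j :=
    (map_mul (Perm.viaEmbeddingHom j) σ α).symm
  have h1 : Nat.card D' = Nat.card D + Nat.card {y // y ∉ Set.range j} := by
    have := permD_ncyc (π := 1) (π' := 1) j (fun _ => rfl) fun _ _ => rfl
    rwa [ncyc_one, ncyc_one] at this
  have h2 : ncomp (σ.viaEmbedding j) (α.viaEmbedding j) ≤
      ncomp σ α + Nat.card {y // y ∉ Set.range j} := by
    unfold ncomp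
    rw [← Nat.card_sum]
    refine Nat.card_le_card_of_surjective
      (Sum.elim (Quot.lift (fun x => Quot.mk _ (j x)) ?_) fun y => Quot.mk _ y.1) ?_
    · rintro a _ (rfl | rfl)
      · exact Quot.sound (Or.inl (Perm.viaEmbedding_apply σ j a).symm)
      · exact Quot.sound (Or.inr (Perm.viaEmbedding_apply α j a).symm)
    · rintro ⟨y⟩
      by_cases hy : y ∈ Set.range j
      · obtain ⟨x, rfl⟩ := hy
        exact ⟨Sum.inl (Quot.mk _ x), rfl⟩
      · exact ⟨Sum.inr ⟨y, hy⟩, rfl⟩
  refine plG_of_le ?_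
  rw [hm, key, key, key]
  unfold Def0 at h
  omega

theorem Def0.pendant [DecidableEq D] (h : Def0 σ α) {a p : D} (hσ : σ p = p) (hα : α p = p)
    (hap : a ≠ p) : Def0 (σ * swap a p) α := by
  have n1 : ¬σ.SameCycle a p := fun hc => plG_not_same hσ hap.symm hc.symm
  have e1 := ncyc_mul_swap_of_not σ n1
  have hp' : α⁻¹ p = p := by rw [Perm.inv_eq_iff_eq, hα]
  have hm : σ * swap a p * α = σ * α * swap (α⁻¹ a) p := by
    rw [mul_assoc, mul_assoc, swap_mul_eq_mul_swap, hp']
  have hne : p ≠ α⁻¹ a := fun e => hap (by rw [← hα, e]; simp)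
  have n2 : ¬(σ * α).SameCycle (α⁻¹ a) p := fun hc =>
    plG_not_same (by rw [Perm.mul_apply, hα, hσ]) hne hc.symm
  have e2 := ncyc_mul_swap_of_not (σ * α) n2
  have e3 : ncomp (σ * swap a p) α < ncomp σ α := by
    unfold ncomp
    let f : (Quot fun x y : D => y = σ x ∨ y = α x) →
        (Quot fun x y : D => y = (σ * swap a p) x ∨ y = α x) :=
      Quot.lift (Quot.mk _) (by
        rintro x _ (rfl | rfl)
        · exact Quot.eqvGen_sound (plG_left (plG_merge n1 x))
        · exact Quot.sound (Or.inr rfl))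
    have hs : Function.Surjective f := by
      rintro ⟨x⟩
      exact ⟨Quot.mk _ x, rfl⟩
    refine lt_of_le_of_ne (Nat.card_le_card_of_surjective f hs) fun e => ?_
    have hb := hs.bijective_of_nat_card_le e.ge
    have q1 : f (Quot.mk _ a) = f (Quot.mk _ p) :=
      Quot.sound (Or.inl (by rw [Perm.mul_apply, swap_apply_left, hσ]))
    have q2 : (Quot.mk (fun x y : D => y = σ x ∨ y = α x) a) = Quot.mk _ p :=
      Function.Injective.eq_iff hb.injective |>.1 q1
    let g : (Quot fun x y : D => y = σ x ∨ y = α x) → Prop :=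
      Quot.lift (fun x => x = p) (by
        rintro x _ (rfl | rfl)
        · exact propext ⟨fun e => by rw [e, hσ], fun e => σ.injective (e.trans hσ.symm)⟩
        · exact propext ⟨fun e => by rw [e, hα], fun e => α.injective (e.trans hα.symm)⟩)
    have q3 : (a = p) = (p = p) := congrArg g q2
    exact hap (q3.mpr rfl)
  refine plG_of_le ?_
  rw [hm]
  unfold Def0 at h
  omega

theorem Def0.chord [DecidableEq D] (h : Def0 σ α) {p q : D} (hp : α p = p) (hpq : p ≠ q)
    (hf : (σ * α).SameCycle p q) : Def0 σ (α * swap p q) := by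
  have n1 := plG_not_same hp hpq
  have e1 := ncyc_mul_swap_of_not α n1
  have e2 := ncyc_mul_swap_of_same (σ * α) hf hpq
  have e3 : ncomp σ (α * swap p q) ≤ ncomp σ α :=
    permB_ncomp_le (fun x => Relation.EqvGen.rel _ _ (Or.inl rfl))
      fun x => plG_right (plG_merge n1 x)
  refine plG_of_le ?_
  rw [← mul_assoc]
  unfold Def0 at h
  omega

theorem Def0.split [DecidableEq D] (h : Def0 σ α) {p q : D} (hp : α p = p) (hq : α q = q)
    (hpq : p ≠ q) (hs : σ.SameCycle p q) : Def0 (σ * swap p q) (α * swap p q) := by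
  have n1 := plG_not_same hp hpq
  have e1 := ncyc_mul_swap_of_not α n1
  have e2 := ncyc_mul_swap_of_same σ hs hpq
  have hm : σ * swap p q * (α * swap p q) = σ * α := by
    rw [mul_swap_eq_swap_mul α, hp, hq, mul_assoc, swap_mul_self_mul]
  have hpq' : Relation.EqvGen (fun a b => b = (σ * swap p q) a ∨ b = (α * swap p q) a) p q :=
    Relation.EqvGen.rel _ _ (Or.inr (by rw [Perm.mul_apply, swap_apply_left, hq]))
  have e3 : ncomp (σ * swap p q) (α * swap p q) ≤ ncomp σ α :=
    permB_ncomp_le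
      (fun x => (plG_swap hpq' x).trans _ _ _ (Relation.EqvGen.rel _ _
        (Or.inl (by rw [Perm.mul_apply, swap_apply_self]))))
      fun x => plG_right (plG_merge n1 x)
  refine plG_of_le ?_
  rw [hm]
  unfold Def0 at h
  omega

theorem Def0.contract [DecidableEq D] (h : Def0 σ α) {p q : D} (hp : α p = q) (hq : α q = p)
    (hs : ¬σ.SameCycle p q) : Def0 (σ * swap p q) (α * swap p q) := by
  have hpq : p ≠ q := fun e => hs (e.sameCycle σ)
  have e1 := ncyc_mul_swap_of_not σ hs
  have e2 := ncyc_mul_swap_of_same α (a := p) (b := q)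
    (by rw [← hp]; exact Perm.sameCycle_apply_right.2 Perm.SameCycle.rfl) hpq
  have hm : σ * swap p q * (α * swap p q) = σ * α := by
    rw [mul_swap_eq_swap_mul α, hp, hq, swap_comm q p, mul_assoc, swap_mul_self_mul]
  have hpq' : Relation.EqvGen (fun a b => b = (σ * swap p q) a ∨ b = (α * swap p q) a) p q :=
    plG_left (permA_sameCycle_swap σ hs).symm
  have e3 : ncomp (σ * swap p q) (α * swap p q) ≤ ncomp σ α :=
    permB_ncomp_le (fun x => plG_left (plG_merge hs x))
      fun x => (plG_swap hpq' x).trans _ _ _ (Relation.EqvGen.rel _ _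
        (Or.inr (by rw [Perm.mul_apply, swap_apply_self])))
  refine plG_of_le ?_
  rw [hm]
  unfold Def0 at h
  omega

theorem Def0.gen0 [Nonempty D] (h : Def0 σ α) (hc : Trans2 σ α) : Gen0 σ α := by
  unfold Def0 at h
  rw [(ncomp_eq_one_iff σ α).2 ⟨inferInstance, hc⟩] at h
  exact h

theorem isRot_of_ncyc {ν : D → V} (h1 : ∀ x, ν (σ x) = ν x) (h2 : ncyc σ ≤ (Set.range ν).ncard) :
    IsRot ν σ := by
  let f : Quotient (Perm.SameCycle.setoid σ) → Set.range ν :=
    Quotient.lift (Set.rangeFactorization ν) fun x y hxy => Subtype.ext (permA_inv ν h1 hxy)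
  have hs : Function.Surjective f := by
    rintro ⟨_, x, rfl⟩
    exact ⟨Quotient.mk _ x, rfl⟩
  have hb := hs.bijective_of_nat_card_le h2
  intro x y
  refine ⟨permA_inv ν h1, fun e => permA_mk_eq.1 (hb.1 ?_)⟩
  exact Subtype.ext e

theorem mul_ncyc_le (π : Perm D) (m : ℕ) (h : ∀ x i, 0 < i → i < m → (π ^ i) x ≠ x) :
    m * ncyc π ≤ Nat.card D := by
  have e : Nat.card (Fin m × Quotient (Perm.SameCycle.setoid π)) = m * ncyc π := by
    rw [Nat.card_prod, Nat.card_fin]
    rfl
  rw [← e]
  have aux : ∀ (x : D) (i j : Fin m), i < j → (π ^ (i : ℕ)) x ≠ (π ^ (j : ℕ)) x := by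
    intro x i j hij hc
    have hij' : (i : ℕ) < j := hij
    refine h ((π ^ (i : ℕ)) x) (j - i) (by omega) (by have := j.2; omega) ?_
    rw [← Perm.mul_apply, ← pow_add, Nat.sub_add_cancel hij'.le, hc]
  refine Nat.card_le_card_of_injective (fun z => (π ^ (z.1 : ℕ)) z.2.out) ?_
  rintro ⟨i, c⟩ ⟨j, c'⟩ hz
  simp only at hz
  have hc : c = c' := by
    rw [← c.out_eq, ← c'.out_eq, permA_mk_eq]
    have s1 : π.SameCycle c.out ((π ^ (i : ℕ)) c.out) :=
      Perm.sameCycle_pow_right.2 Perm.SameCycle.rfl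
    have s2 : π.SameCycle c'.out ((π ^ (j : ℕ)) c'.out) :=
      Perm.sameCycle_pow_right.2 Perm.SameCycle.rfl
    rw [hz] at s1
    exact s1.trans s2.symm
  subst hc
  rcases lt_trichotomy i j with hij | hij | hij
  · exact absurd hz (aux _ i j hij)
  · rw [hij]
  · exact absurd hz.symm (aux _ j i hij)

theorem card_le_ncyc {Q : Type} {π : Perm D} (f : D → Q) (hs : Function.Surjective f)
    (h : ∀ x, f (π x) = f x) : Nat.card Q ≤ ncyc π := by
  refine Nat.card_le_card_of_surjective
    (Quotient.lift (s := Perm.SameCycle.setoid π) f fun x y hxy => permA_inv f h hxy) fun q => ?_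
  obtain ⟨x, rfl⟩ := hs q
  exact ⟨Quotient.mk _ x, rfl⟩

end Pool.Agent.Lib.MP_77dff5_pr
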