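import Pool.Agent.Lib.Common.Planar.Basic
import Pool.Agent.Lib.MP_77dff5_pr.PlG

/-! Planar rotation systems of simple graphs. -/

set_option autoImplicit false

namespace Pool.Agent.Lib.MP_77dff5_pr

open Equiv SimpleGraph
open Pool.Agent.Lib.Common

variable {V W : Type}

/-- a rotation system with Euler defect zero -/
def ZR (G : SimpleGraph V) (σ : Perm G.Dart) : Prop :=
  IsRot (fun d : G.Dart => d.fst) σ ∧ Def0 σ (rev G)

/-- combinatorial planarity -/
def ZD (G : SimpleGraph V) : Prop := ∃ σ, ZR G σ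

theorem plA_range (G : SimpleGraph V) : Set.range (fun d : G.Dart => d.fst) = G.support := by
  ext v
  constructor
  · rintro ⟨d, rfl⟩
    exact ⟨d.snd, d.adj⟩
  · rintro ⟨w, h⟩
    exact ⟨⟨(v, w), h⟩, rfl⟩

theorem plA_iso (G : SimpleGraph V) : {v | ∀ w, ¬G.Adj v w} = G.supportᶜ := by
  ext v
  exact ⟨fun h ⟨w, hw⟩ => h w hw, fun h w hw => h ⟨w, hw⟩⟩

theorem plA_invol (G : SimpleGraph V) : Function.Involutive (rev G) := fun d => d.symm_symm

theorem plA_finite [Finite V] (G : SimpleGraph V) : Finite G.Dart :=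
  Finite.of_injective _ (Dart.toProd_injective (G := G))

theorem plA_ncyc_rev (G : SimpleGraph V) : ncyc (rev G) = G.edgeSet.ncard := by
  refine permA_ncyc_eq (fun d : G.Dart => (⟨d.edge, d.edge_mem⟩ : G.edgeSet)) ?_ fun x y =>
    ⟨permA_inv (fun d : G.Dart => (⟨d.edge, d.edge_mem⟩ : G.edgeSet))
      fun d => Subtype.ext d.edge_symm, fun h => ?_⟩
  · rintro ⟨e, he⟩
    induction e using Sym2.ind with
    | h a b => exact ⟨⟨(a, b), he⟩, rfl⟩
  · rcases (dart_edge_eq_iff _ _).1 (congrArg Subtype.val h) with e | e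
    · rw [e]
    · rw [e]
      exact (Perm.SameCycle.refl (rev G) y).apply_left

theorem plA_card_dart [Finite V] (G : SimpleGraph V) :
    Nat.card G.Dart = 2 * G.edgeSet.ncard := by
  classical
  have := Fintype.ofFinite V
  rw [Nat.card_eq_fintype_card, dart_card_eq_twice_card_edges, ← coe_edgeFinset,
    Set.ncard_coe_finset]

theorem plA_eq_of_reach {G : SimpleGraph V} {u v : V} (hu : u ∉ G.support)
    (h : G.Reachable u v) : u = v := by
  obtain ⟨p⟩ := h
  cases p with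
  | nil => rfl
  | cons h _ => exact absurd ⟨_, h⟩ hu

theorem plA_comps [Finite V] {G : SimpleGraph V} {σ : Perm G.Dart}
    (h : IsRot (fun d : G.Dart => d.fst) σ) :
    Nat.card G.ConnectedComponent = ncomp σ (rev G) + G.supportᶜ.ncard := by
  have := plA_finite G
  have hσ : ∀ d : G.Dart, (σ d).fst = d.fst := fun d =>
    (h _ _).1 (Perm.SameCycle.refl σ d).apply_left
  let q : G.Dart → Quot fun a b : G.Dart => b = σ a ∨ b = rev G a := Quot.mk _
  have q0 : ∀ d e : G.Dart, e = σ d ∨ e = rev G d → q d = q e := fun d e hde => Quot.sound hde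
  have q1 : ∀ d e : G.Dart, d.fst = e.fst → q d = q e := fun d e hde =>
    permA_inv q (fun x => (q0 _ _ (Or.inl rfl)).symm) ((h d e).2 hde)
  have q2 : ∀ (u v : V) (p : G.Walk u v) (d e : G.Dart), d.fst = u → e.fst = v → q d = q e := by
    intro u v p
    induction p with
    | nil => exact fun d e h1 h2 => q1 d e (h1.trans h2.symm)
    | @cons a b c hab _ ih =>
      intro d e h1 h2
      exact (q1 d ⟨(a, b), hab⟩ h1).trans
        ((q0 _ _ (Or.inr rfl)).trans (ih (rev G ⟨(a, b), hab⟩) e rfl h2))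
  unfold ncomp
  rw [← Nat.card_coe_set_eq, ← Nat.card_sum]
  refine (Nat.card_eq_of_bijective (Sum.elim
    (Quot.lift (fun d : G.Dart => G.connectedComponentMk d.fst) ?_)
    fun v : ↥G.supportᶜ => G.connectedComponentMk v.1) ⟨?_, ?_⟩).symm
  · rintro a _ (rfl | rfl)
    · exact congrArg _ (hσ a).symm
    · exact ConnectedComponent.sound a.adj.reachable
  · rintro (⟨⟨d⟩⟩ | u) (⟨⟨e⟩⟩ | v) huv
    · obtain ⟨p⟩ := ConnectedComponent.exact (v := d.fst) (w := e.fst) huv
      exact congrArg Sum.inl (q2 _ _ p d e rfl rfl)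
    · have := plA_eq_of_reach v.2 (ConnectedComponent.exact (v := d.fst) (w := v.1) huv).symm
      exact absurd (this ▸ (⟨d.snd, d.adj⟩ : d.fst ∈ G.support)) v.2
    · have := plA_eq_of_reach u.2 (ConnectedComponent.exact (v := u.1) (w := e.fst) huv)
      exact absurd (this ▸ (⟨e.snd, e.adj⟩ : e.fst ∈ G.support)) u.2
    · exact congrArg Sum.inr (Subtype.ext (plA_eq_of_reach u.2 (ConnectedComponent.exact huv)))
  · rintro ⟨v⟩
    by_cases hv : v ∈ G.support
    · obtain ⟨w, hw⟩ := hv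
      exact ⟨Sum.inl (q ⟨(v, w), hw⟩), rfl⟩
    · exact ⟨Sum.inr ⟨v, hv⟩, rfl⟩

theorem isPlanar_iff_zd [Finite V] (G : SimpleGraph V) : IsPlanar G ↔ ZD G := by
  have := plA_finite G
  refine exists_congr fun σ => and_congr_right fun h => ?_
  have e1 := Set.ncard_add_ncard_compl G.support
  unfold Def0
  rw [plA_comps h, ncyc_of_isRot h, plA_range, plA_iso, plA_ncyc_rev, plA_card_dart]
  omega

theorem ZD.of_injOn [Finite W] {G : SimpleGraph V} {H : SimpleGraph W} (h : ZD H) (f : V → W)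
    (hf : Set.InjOn f G.support) (hadj : ∀ a b, G.Adj a b → H.Adj (f a) (f b)) : ZD G := by
  have := plA_finite H
  obtain ⟨σ, h1, h2⟩ := h
  have m1 : ∀ d : G.Dart, d.fst ∈ G.support := fun d => ⟨d.snd, d.adj⟩
  have m2 : ∀ d : G.Dart, d.snd ∈ G.support := fun d => ⟨d.fst, d.adj.symm⟩
  exact sub_planar (plA_invol H) (plA_invol G)
    ⟨fun d : G.Dart => (⟨(f d.fst, f d.snd), hadj _ _ d.adj⟩ : H.Dart), fun d e hde =>
      Dart.ext _ _ (Prod.ext (hf (m1 d) (m1 e) (congrArg (fun x : H.Dart => x.fst) hde))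
        (hf (m2 d) (m2 e) (congrArg (fun x : H.Dart => x.snd) hde)))⟩
    (fun _ => Or.inr rfl) (fun d e => ⟨congrArg f, hf (m1 d) (m1 e)⟩) h1 h2

theorem plA_card_pairs (G : SimpleGraph V) :
    Nat.card G.Dart = Nat.card {p : V × V // G.Adj p.1 p.2} :=
  Nat.card_congr ⟨fun d => ⟨d.toProd, d.adj⟩, fun p => ⟨p.1, p.2⟩, fun _ => rfl, fun _ => rfl⟩

theorem plA_top [Nontrivial V] : (⊤ : SimpleGraph V).support = Set.univ :=
  Set.eq_univ_of_forall fun v => (exists_ne v).imp fun _ h => h.symm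

/-- the rotation table of the tetrahedron -/
def plA_t : Fin 4 → Fin 4 → Fin 4 :=
  ![![0, 2, 3, 1], ![3, 1, 0, 2], ![1, 3, 2, 0], ![2, 0, 1, 3]]

theorem plA_t1 : ∀ a b : Fin 4, a ≠ b → a ≠ plA_t a b := by decide

theorem plA_t2 : ∀ a b : Fin 4, plA_t a (plA_t a (plA_t a b)) = b := by decide

theorem plA_t3 : ∀ a b c : Fin 4, a ≠ b → a ≠ c →
    c = b ∨ c = plA_t a b ∨ c = plA_t a (plA_t a b) := by decide

theorem plA_t4 : ∀ a b : Fin 4, a ≠ b →
    plA_t (plA_t b a) (plA_t (plA_t b a) b) = plA_t b (plA_t b a) := by decide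

theorem plA_t5 : ∀ c : Fin 4, ∃ a b : Fin 4, a ≠ b ∧ plA_t b (plA_t b a) = c := by decide

/-- the rotation system of the tetrahedron -/
def plA_s : Perm (⊤ : SimpleGraph (Fin 4)).Dart where
  toFun d := ⟨(d.fst, plA_t d.fst d.snd), plA_t1 _ _ d.adj⟩
  invFun d := ⟨(d.fst, plA_t d.fst (plA_t d.fst d.snd)), plA_t1 _ _ (plA_t1 _ _ d.adj)⟩
  left_inv _ := Dart.ext _ _ (Prod.ext rfl (plA_t2 _ _))
  right_inv _ := Dart.ext _ _ (Prod.ext rfl (plA_t2 _ _))

theorem plA_K4 : ZD (⊤ : SimpleGraph (Fin 4)) := by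
  have h : IsRot (fun d : (⊤ : SimpleGraph (Fin 4)).Dart => d.fst) plA_s := by
    refine fun d e => ⟨permA_inv (fun d : (⊤ : SimpleGraph (Fin 4)).Dart => d.fst) fun _ => rfl,
      fun hde => ?_⟩
    have he : d.fst ≠ e.snd := fun e' => e.adj.ne (hde.symm.trans e')
    rcases plA_t3 _ _ _ d.adj he with h | h | h
    · rw [show e = d from Dart.ext _ _ (Prod.ext hde.symm h)]
    · rw [show e = plA_s d from Dart.ext _ _ (Prod.ext hde.symm h)]
      exact (Perm.SameCycle.refl _ d).apply_right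
    · rw [show e = plA_s (plA_s d) from Dart.ext _ _ (Prod.ext hde.symm h)]
      exact (Perm.SameCycle.refl _ d).apply_right.apply_right
  refine ⟨plA_s, h, le_antisymm (euler_le _ _) ?_⟩
  have e1 := plA_comps h
  have e2 : Nat.card (⊤ : SimpleGraph (Fin 4)).ConnectedComponent ≤ 1 :=
    Finite.card_le_one_iff_subsingleton.2 preconnected_top.subsingleton_connectedComponent
  have e3 : Nat.card (⊤ : SimpleGraph (Fin 4)).Dart = 12 := by
    rw [plA_card_pairs, Nat.card_eq_fintype_card]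
    decide
  have e4 := plA_card_dart (⊤ : SimpleGraph (Fin 4))
  have e5 : Nat.card (Fin 4) ≤ ncyc (plA_s * rev ⊤) :=
    card_le_ncyc (fun d => plA_t d.snd (plA_t d.snd d.fst))
      (fun c => by
        obtain ⟨a, b, h1, h2⟩ := plA_t5 c
        exact ⟨⟨(a, b), h1⟩, h2⟩) fun d => plA_t4 _ _ d.adj
  rw [Nat.card_fin] at e5
  rw [ncyc_of_isRot h, plA_range, plA_top, Set.ncard_univ, Nat.card_fin, plA_ncyc_rev]
  omega

theorem zd_of_ncard_support_le [Finite V] {G : SimpleGraph V} (h : G.support.ncard ≤ 4) :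
    ZD G := by
  classical
  have := Fintype.ofFinite G.support
  obtain ⟨g⟩ : Nonempty (G.support ↪ Fin 4) := Function.Embedding.nonempty_of_card_le (by
    rw [← Nat.card_eq_fintype_card, Nat.card_coe_set_eq, Fintype.card_fin]
    exact h)
  have hf : Set.InjOn (fun v => if hv : v ∈ G.support then g ⟨v, hv⟩ else 0) G.support := by
    intro a ha b hb e
    simp only [dif_pos ha, dif_pos hb] at e
    exact congrArg Subtype.val (g.injective e)
  exact plA_K4.of_injOn _ hf fun a b hab e => hab.ne (hf ⟨b, hab⟩ ⟨a, hab.symm⟩ e)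

theorem plA_fst {G : SimpleGraph V} {σ : Perm G.Dart} (h : IsRot (fun d : G.Dart => d.fst) σ)
    (d : G.Dart) : ((σ * rev G) d).fst = d.snd :=
  (h _ _).1 (Perm.SameCycle.refl σ d.symm).apply_left

theorem plA_one {G : SimpleGraph V} {σ : Perm G.Dart} (h : IsRot (fun d : G.Dart => d.fst) σ)
    (d : G.Dart) : (σ * rev G) d ≠ d := fun e =>
  d.adj.ne ((congrArg (fun x : G.Dart => x.fst) e).symm.trans (plA_fst h d))

theorem plA_two {G : SimpleGraph V} {σ : Perm G.Dart} (h : IsRot (fun d : G.Dart => d.fst) σ)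
    (hG : ∀ a b, G.Adj a b → ∃ c, G.Adj a c ∧ c ≠ b) (d : G.Dart) :
    (σ * rev G) ((σ * rev G) d) ≠ d := by
  intro e
  have e1 : σ d.symm = d.symm := Dart.ext _ _ (Prod.ext (plA_fst h d)
    ((plA_fst h _).symm.trans (congrArg (fun x : G.Dart => x.fst) e)))
  obtain ⟨c, h1, h2⟩ := hG _ _ d.adj.symm
  exact h2 (congrArg (fun x : G.Dart => x.snd)
    (((h d.symm ⟨(d.snd, c), h1⟩).2 rfl).eq_of_left e1)).symm

theorem plA_count [Finite V] {G : SimpleGraph V} {σ : Perm G.Dart} (h : ZR G σ)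
    [Nonempty G.Dart] (hs : G.support = Set.univ) :
    Nat.card G.Dart + 4 ≤ 2 * Nat.card V + 2 * ncyc (σ * rev G) := by
  have := plA_finite G
  have e1 := h.2
  have e2 := plA_card_dart G
  have e3 : 0 < ncomp σ (rev G) := by
    have : Nonempty (Quot fun a b : G.Dart => b = σ a ∨ b = rev G a) :=
      ⟨Quot.mk _ (Classical.arbitrary _)⟩
    exact Nat.card_pos
  unfold Def0 at e1
  rw [ncyc_of_isRot h.1, plA_range, hs, Set.ncard_univ, plA_ncyc_rev] at e1
  omega

theorem not_zd_K5 : ¬ZD Pl.K5 := by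
  rintro ⟨σ, h⟩
  have : Nonempty Pl.K5.Dart := ⟨⟨(0, 1), by decide⟩⟩
  have e1 := plA_count h plA_top
  have e2 := mul_ncyc_le (σ * rev Pl.K5) 3 fun x i h1 h2 => by
    obtain rfl | rfl : i = 1 ∨ i = 2 := by omega
    · exact plA_one h.1 x
    · exact plA_two h.1 (by decide) x
  have e3 : Nat.card Pl.K5.Dart = 20 := by
    rw [plA_card_pairs, Nat.card_eq_fintype_card]
    decide
  rw [Nat.card_fin] at e1
  omega

theorem plA_adj33 : ∀ a b, Pl.K33.Adj a b ↔ a.isLeft = !b.isLeft := by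
  rintro (a | a) (b | b) <;> simp

theorem not_zd_K33 : ¬ZD Pl.K33 := by
  rintro ⟨σ, h⟩
  have := plA_finite Pl.K33
  have : Nonempty Pl.K33.Dart := ⟨⟨(Sum.inl 0, Sum.inr 0), by simp⟩⟩
  have e1 := plA_count h (Set.eq_univ_of_forall (by
    simp only [mem_support, plA_adj33]
    decide))
  have e0 : ∀ d : Pl.K33.Dart, d.fst.isLeft = !((σ * rev Pl.K33) d).fst.isLeft := fun d => by
    rw [plA_fst h.1]
    exact (plA_adj33 _ _).1 d.adj
  have e2 := mul_ncyc_le (σ * rev Pl.K33) 4 fun x i h1 h2 => by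
    obtain rfl | rfl | rfl : i = 1 ∨ i = 2 ∨ i = 3 := by omega
    · exact plA_one h.1 x
    · refine plA_two h.1 ?_ x
      simp only [plA_adj33]
      decide
    · intro e
      have e' : (σ * rev Pl.K33) ((σ * rev Pl.K33) ((σ * rev Pl.K33) x)) = x := e
      have := e0 x
      rw [e0 ((σ * rev Pl.K33) x), e0 ((σ * rev Pl.K33) ((σ * rev Pl.K33) x)), e'] at this
      revert this
      cases x.fst.isLeft <;> decide
  have e3 : Nat.card Pl.K33.Dart = 18 := by
    rw [plA_card_pairs]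
    simp only [plA_adj33]
    rw [Nat.card_eq_fintype_card]
    decide
  have e4 : Nat.card (Fin 3 ⊕ Fin 3) = 6 := by simp
  omega

end Pool.Agent.Lib.MP_77dff5_pr
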