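import Pool.Agent.Lib.MP_77dff5_pr.PlA

/-! Combinatorial planarity is closed under minors. -/

set_option autoImplicit false

namespace Pool.Agent.Lib.MP_77dff5_pr

open Equiv SimpleGraph
open Pool.Agent.Lib.Common

variable {V W : Type}

/-- Contraction of all edges inside the classes of `b`. -/
theorem plB_contract {D Q : Type} [Finite D] (b : D → Q) (σ α : Perm D)
    (hα : Function.Involutive α) (h0 : Def0 σ α) (hb : ∀ x, b (σ x) = b x)
    (hl : ∀ x y, b x = b y →
      Relation.EqvGen (fun p q => σ.SameCycle p q ∨ (q = α p ∧ b p = b q)) x y) :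
    ∃ σ' α' : Perm D, IsRot b σ' ∧ Function.Involutive α' ∧
      (∀ x, b x ≠ b (α x) → α' x = α x) ∧ Def0 σ' α' := by
  classical
  induction hk : ncyc σ using Nat.strong_induction_on generalizing σ α with
  | _ k ih =>
  by_cases hp : ∃ p, b p = b (α p) ∧ ¬σ.SameCycle p (α p)
  · obtain ⟨p, hp1, hp2⟩ := hp
    obtain ⟨q, hq⟩ : ∃ q, q = α p := ⟨_, rfl⟩
    have hq' : α q = p := by rw [hq, hα]
    rw [← hq] at hp1 hp2
    have e1 : (α * swap p q) p = p := by rw [Perm.mul_apply, swap_apply_left, hq']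
    have e2 : (α * swap p q) q = q := by rw [Perm.mul_apply, swap_apply_right, hq]
    have e3 : ∀ x, x ≠ p → x ≠ q → (α * swap p q) x = α x := fun x h1 h2 => by
      rw [Perm.mul_apply, swap_apply_of_ne_of_ne h1 h2]
    have hlt := ncyc_mul_swap_of_not σ hp2
    have hs := sameCycle_mul_swap_of_not σ hp2
    obtain ⟨σ', α', r1, r2, r3, r4⟩ := ih _ (by omega) (σ * swap p q) (α * swap p q)
      (fun x => by
        by_cases h1 : x = p
        · rw [h1, e1, e1]
        by_cases h2 : x = q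
        · rw [h2, e2, e2]
        rw [e3 x h1 h2, e3 _ (fun e => h2 (by rw [hq, ← e, hα])) fun e => h1 (by
          rw [← hq', ← e, hα]), hα])
      (h0.contract hq.symm hq' hp2)
      (fun x => by
        rw [Perm.mul_apply, hb]
        by_cases h1 : x = p
        · rw [h1, swap_apply_left, hp1]
        by_cases h2 : x = q
        · rw [h2, swap_apply_right, hp1]
        rw [swap_apply_of_ne_of_ne h1 h2])
      (fun x y hxy => by
        refine permA_eqv id ?_ (hl x y hxy)
        rintro u v (h | ⟨h1, h2⟩)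
        · exact .rel _ _ (Or.inl ((hs _ _).2 (Or.inl h)))
        by_cases h3 : u = p
        · refine .rel _ _ (Or.inl ((hs _ _).2 (Or.inr (Or.inl ⟨?_, ?_⟩))))
          · exact h3.sameCycle σ
          · exact (by rw [h1, h3, hq] : v = q).sameCycle σ
        by_cases h4 : u = q
        · refine .rel _ _ (Or.inl ((hs _ _).2 (Or.inr (Or.inr ⟨?_, ?_⟩))))
          · exact h4.sameCycle σ
          · exact (by rw [h1, h4, hq'] : v = p).sameCycle σ
        exact .rel _ _ (Or.inr ⟨h1.trans (e3 u h3 h4).symm, h2⟩))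
      rfl
    refine ⟨σ', α', r1, r2, fun x hx => ?_, r4⟩
    have h1 : x ≠ p := fun e => hx (by rw [e, ← hq, hp1])
    have h2 : x ≠ q := fun e => hx (by rw [e, hq', hp1])
    rw [← e3 x h1 h2] at hx ⊢
    exact r3 x hx
  · refine ⟨σ, α, fun x y => ⟨permA_inv b hb, fun h => ?_⟩, hα, fun _ _ => rfl, h0⟩
    have h' := hl x y h
    clear h
    induction h' with
    | rel u v h =>
      rcases h with h | ⟨rfl, h⟩
      · exact h
      · by_contra hn
        exact hp ⟨u, h, hn⟩
    | refl u => exact Perm.SameCycle.rfl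
    | symm u v _ ih => exact ih.symm
    | trans u v w _ _ ih1 ih2 => exact ih1.trans ih2

/-- Darts at the two ends of a walk along which `β` is constant are linked. -/
theorem plB_walk {Q : Type} {G : SimpleGraph V} {σ : Perm G.Dart}
    (hσ : IsRot (fun d : G.Dart => d.fst) σ) (β : V → Q) (c : Q) {u v : V} (w : G.Walk u v)
    (hw : ∀ z ∈ w.support, β z = c) (x y : G.Dart) (hx : x.fst = u) (hy : y.fst = v) :
    Relation.EqvGen (fun p q => σ.SameCycle p q ∨ (q = rev G p ∧ β p.fst = β q.fst)) x y := by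
  induction w generalizing x with
  | nil => exact .rel _ _ (Or.inl ((hσ x y).2 (hx.trans hy.symm)))
  | @cons a a' _ h p ih =>
    refine .trans _ ⟨(a, a'), h⟩ _ (.rel _ _ (Or.inl ((hσ _ _).2 hx)))
      (.trans _ ⟨(a', a), h.symm⟩ _ (.rel _ _ (Or.inr ⟨rfl, ?_⟩))
        (ih (fun z hz => hw z (by simp [hz])) _ rfl hy))
    exact (hw a (by simp)).trans (hw a' (by simp)).symm

theorem ZD.of_hasMinor [Finite V] {G : SimpleGraph V} {F : SimpleGraph W} (h : ZD G)
    (hF : Pl.HasMinor F G) : ZD F := by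
  classical
  obtain ⟨σ, hσ, h0⟩ := h
  obtain ⟨B, hB1, hB2, hB3⟩ := hF
  have huniq : ∀ {v w w'}, v ∈ B w → v ∈ B w' → w = w' := fun h1 h2 => by
    by_contra hne
    exact Set.disjoint_left.1 (hB2 _ _ hne) h1 h2
  obtain ⟨β, hβ1, hβ2⟩ : ∃ β : V → W ⊕ V, (∀ v w, v ∈ B w → β v = Sum.inl w) ∧
      ∀ v, (¬∃ w, v ∈ B w) → β v = Sum.inr v :=
    ⟨fun v => if h : ∃ w, v ∈ B w then Sum.inl h.choose else Sum.inr v,
      fun v w hv => by
        have h : ∃ w, v ∈ B w := ⟨w, hv⟩
        simp only [dif_pos h, huniq h.choose_spec hv],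
      fun v hv => dif_neg hv⟩
  have : Finite G.Dart := Finite.of_injective _ Dart.toProd_injective
  have hrev : ∀ {X : Type} (H : SimpleGraph X), Function.Involutive (rev H) :=
    fun _ => Dart.symm_involutive
  obtain ⟨σ', α', r1, r2, r3, r4⟩ := plB_contract (fun d : G.Dart => β d.fst) σ (rev G) (hrev G) h0
    (fun x => congrArg β ((hσ _ _).1 (Perm.SameCycle.rfl.apply_left)))
    (fun x y hxy => by
      by_cases hx : ∃ w, x.fst ∈ B w
      · obtain ⟨w, hw⟩ := hx
        have hy : y.fst ∈ B w := by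
          by_cases hy : ∃ w, y.fst ∈ B w
          · obtain ⟨w', hw'⟩ := hy
            rw [hβ1 _ _ hw, hβ1 _ _ hw'] at hxy
            exact Sum.inl_injective hxy ▸ hw'
          · rw [hβ1 _ _ hw, hβ2 _ hy] at hxy
            cases hxy
        obtain ⟨p, hp⟩ := (hB1 w).2 _ hw _ hy
        exact plB_walk hσ β _ p (fun z hz => hβ1 z w (hp z hz)) x y rfl rfl
      · refine .rel _ _ (Or.inl ((hσ x y).2 ?_))
        by_cases hy : ∃ w, y.fst ∈ B w
        · obtain ⟨w', hw'⟩ := hy
          rw [hβ2 _ hx, hβ1 _ _ hw'] at hxy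
          cases hxy
        · rw [hβ2 _ hx, hβ2 _ hy] at hxy
          exact Sum.inr_injective hxy)
  have hg : ∀ d : F.Dart, ∃ e : G.Dart, e.fst ∈ B d.fst ∧ e.snd ∈ B d.snd := fun d => by
    obtain ⟨a, ha, a', ha', h⟩ := hB3 _ _ d.adj
    exact ⟨⟨(a, a'), h⟩, ha, ha'⟩
  choose g hg1 hg2 using hg
  let _ : LinearOrder W := linearOrderOfSTO WellOrderingRel
  obtain ⟨j, j1, j2, j3⟩ : ∃ j : F.Dart → G.Dart, (∀ d, (j d).fst ∈ B d.fst) ∧
      (∀ d, (j d).snd ∈ B d.snd) ∧ ∀ d, j d.symm = (j d).symm := by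
    refine ⟨fun d => if d.fst < d.snd then g d else (g d.symm).symm, fun d => ?_, fun d => ?_,
      fun d => ?_⟩
    · beta_reduce
      split_ifs
      · exact hg1 d
      · exact hg2 d.symm
    · beta_reduce
      split_ifs
      · exact hg2 d
      · exact hg1 d.symm
    · rcases lt_or_gt_of_ne d.adj.ne with h | h
      · beta_reduce
        rw [if_pos h, if_neg (by exact h.not_gt), Dart.symm_symm]
      · beta_reduce
        rw [if_neg h.not_gt, if_pos (by exact h), Dart.symm_symm]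
  have ji : Function.Injective j := fun d d' e =>
    Dart.ext _ _ (Prod.ext (huniq (j1 d) (e ▸ j1 d')) (huniq (j2 d) (e ▸ j2 d')))
  have : Finite F.Dart := Finite.of_injective j ji
  refine sub_planar r2 (hrev F) ⟨j, ji⟩ (fun d => Or.inr ?_) (fun d d' => ?_) r1 r4
  · refine (j3 d).trans (r3 (j d) ?_).symm
    change β (j d).fst ≠ β (j d).snd
    rw [hβ1 _ _ (j1 d), hβ1 _ _ (j2 d)]
    exact fun e => d.adj.ne (Sum.inl_injective e)
  · change _ ↔ β (j d).fst = β (j d').fst
    rw [hβ1 _ _ (j1 d), hβ1 _ _ (j1 d'), Sum.inl.injEq]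

theorem ZD.planar [Finite V] {G : SimpleGraph V} (h : ZD G) : Pl.Planar G :=
  ⟨fun hm => not_zd_K5 (h.of_hasMinor hm), fun hm => not_zd_K33 (h.of_hasMinor hm)⟩

end Pool.Agent.Lib.MP_77dff5_pr
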