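import Pool.Agent.Lib.MP_77dff5_pr.PlA

/-! The rotation at a contracted edge. -/

set_option autoImplicit false

namespace Pool.Agent.Lib.MP_77dff5_pr

open Equiv SimpleGraph
open Pool.Agent.Lib.Common

variable {V : Type} [Finite V] {G : SimpleGraph V} {x y : V}

/-- the darts from `du` to `dv` lead to neighbours of `x`, those from `dv` to `du` to neighbours
of `y` -/
structure Arcs (G : SimpleGraph V) (x y u v : V) (σ : Perm (G.map (Pl.contr {x, y} x)).Dart) :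
    Prop where
  ex : ∃ (du dv : (G.map (Pl.contr {x, y} x)).Dart) (k l : ℕ), du.toProd = (x, u) ∧
    dv.toProd = (x, v) ∧ (σ ^ k) du = dv ∧ (σ ^ l) dv = du ∧
    (∀ i, 0 < i → i < k → G.Adj x ((σ ^ i) du).snd ∧ ¬G.Adj y ((σ ^ i) du).snd) ∧
    ∀ i, 0 < i → i < l → G.Adj y ((σ ^ i) dv).snd ∧ ¬G.Adj x ((σ ^ i) dv).snd

theorem plC_comb {X Y : ℕ → Prop} {k n : ℕ} (hk : 0 < k) (hkn : k < n) (x0 : X 0) (y0 : Y 0)
    (xk : X k) (yk : Y k) (ho : ∀ i, 0 < i → i < n → i ≠ k → (X i ↔ ¬Y i))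
    (h1 : ∀ a b c d, a < b → b < c → c < d → d < n → X a → Y b → X c → Y d → False)
    (h2 : ∀ a b c d, a < b → b < c → c < d → d < n → Y a → X b → Y c → X d → False) :
    ((∀ i, 0 < i → i < k → X i ∧ ¬Y i) ∧ ∀ i, k < i → i < n → Y i ∧ ¬X i) ∨
      ((∀ i, 0 < i → i < k → Y i ∧ ¬X i) ∧ ∀ i, k < i → i < n → X i ∧ ¬Y i) := by
  have a1 : ∀ i j, 0 < i → i < k → 0 < j → j < k → X i → Y j → False := by
    intro i j i0 ik j0 jk xi yj
    rcases lt_trichotomy i j with h | rfl | h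
    · exact h2 0 i j k i0 h jk hkn y0 xi yj xk
    · exact (ho i i0 (by omega) (by omega)).1 xi yj
    · exact h1 0 j i k j0 h ik hkn x0 yj xi yk
  have a2 : ∀ i j, k < i → i < n → k < j → j < n → X i → Y j → False := by
    intro i j i0 ik j0 jk xi yj
    rcases lt_trichotomy i j with h | rfl | h
    · exact h1 0 k i j hk i0 h jk x0 yk xi yj
    · exact (ho i (by omega) (by omega) (by omega)).1 xi yj
    · exact h2 0 k j i hk j0 h ik y0 xk yj xi
  have a3 : ∀ i j, 0 < i → i < k → k < j → j < n → X i → X j → False :=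
    fun i j i0 ik j0 jk xi xj => h2 0 i k j i0 ik j0 jk y0 xi yk xj
  have a4 : ∀ i j, 0 < i → i < k → k < j → j < n → Y i → Y j → False :=
    fun i j i0 ik j0 jk xi xj => h1 0 i k j i0 ik j0 jk x0 xi xk xj
  have b1 : ∀ i, 0 < i → i < n → i ≠ k → ¬Y i → X i ∧ ¬Y i :=
    fun i h h' h'' hy => ⟨(ho i h h' h'').2 hy, hy⟩
  have b2 : ∀ i, 0 < i → i < n → i ≠ k → ¬X i → Y i ∧ ¬X i :=
    fun i h h' h'' hx => ⟨by_contra fun hy => hx ((ho i h h' h'').2 hy), hx⟩
  by_cases h : (∃ i, 0 < i ∧ i < k ∧ X i) ∨ ∃ j, k < j ∧ j < n ∧ Y j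
  · left
    rcases h with ⟨i, i0, ik, xi⟩ | ⟨j, j0, jk, yj⟩
    · exact ⟨fun j j0 jk => b1 j j0 (by omega) (by omega) (a1 i j i0 ik j0 jk xi),
        fun j j0 jk => b2 j (by omega) jk (by omega) (a3 i j i0 ik j0 jk xi)⟩
    · exact ⟨fun i i0 ik => b1 i i0 (by omega) (by omega) fun yi => a4 i j i0 ik j0 jk yi yj,
        fun i i0 ik => b2 i (by omega) ik (by omega) fun xi => a2 i j i0 ik j0 jk xi yj⟩
  · right
    rw [not_or] at h
    exact ⟨fun i i0 ik => b2 i i0 (by omega) (by omega) fun xi => h.1 ⟨i, i0, ik, xi⟩,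
      fun j j0 jk => b1 j (by omega) jk (by omega) fun yj => h.2 ⟨j, j0, jk, yj⟩⟩

omit [Finite V] in
theorem plC_rev (H : SimpleGraph V) (d : H.Dart) : rev H d = d.symm := rfl

omit [Finite V] in
theorem plC_conn {H : SimpleGraph V} {S : Set V} (hS : Pl.ConnSet H S) (hs : H.support ⊆ S) :
    Conn (fun d : H.Dart => d.fst) (rev H) := by
  intro e e'
  have h := hS.rIn (hs ⟨_, e.adj⟩ : e.fst ∈ S) (hs ⟨_, e'.adj⟩ : e'.fst ∈ S)
  refine h.induction (P := fun w => ∀ z : H.Dart, z.fst = w → Relation.EqvGen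
    (fun a b : H.Dart => a.fst = b.fst ∨ b = rev H a) e z) ?_ ?_ e' rfl
  · intro z hz
    exact .rel _ _ (Or.inl hz.symm)
  · intro a b _ _ hab ih z hz
    have h1 := ih ⟨(a, b), hab⟩ rfl
    refine (h1.trans _ _ _ (.rel _ (rev H ⟨(a, b), hab⟩) (Or.inr rfl))).trans _ _ _
      (.rel _ _ (Or.inl ?_))
    exact hz.symm

theorem plC_fin (H : SimpleGraph V) : Finite H.Dart :=
  Finite.of_injective _ Dart.toProd_injective

theorem plC_alt {H : SimpleGraph V} {σ : Perm H.Dart} (hσ : ZR H σ)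
    (hc : Conn (fun d : H.Dart => d.fst) (rev H)) {A B : Set V} (hAB : Disjoint A B)
    (d : ℕ → H.Dart) (hd : ∀ i, d (i + 1) = σ (d i)) {n : ℕ}
    (hinj : ∀ i j, i < n → j < n → d i = d j → i = j) (hx : ∀ i, (d i).fst = x) (hxA : x ∉ A)
    (hxB : x ∉ B) {a b c e : ℕ} (hab : a < b) (hbc : b < c) (hce : c < e) (hen : e < n)
    (hA : Pl.RIn H A (d a).snd (d c).snd) (hB : Pl.RIn H B (d b).snd (d e).snd) : False := by
  have : Nonempty H.Dart := ⟨d 0⟩
  have := plC_fin H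
  have hinv : Function.Involutive (rev H) := SimpleGraph.Dart.symm_involutive
  have h0 : Gen0 σ (rev H) := hσ.2.gen0 ((conn_iff_trans2 hσ.1 _).1 hc)
  set S : Set H.Dart := {z | (z.fst ∈ A ∨ z.fst = x) ∧ (z.snd ∈ A ∨ z.snd = x)} with hS
  have hrev : ∀ z ∈ S, rev H z ∈ S := fun z hz => ⟨hz.2, hz.1⟩
  have haS : d a ∈ S := ⟨Or.inr (hx a), Or.inl hA.left_mem⟩
  have hcS : d c ∈ S := ⟨Or.inr (hx c), Or.inl hA.right_mem⟩
  have hL : Lk (fun d : H.Dart => d.fst) (rev H) S A (d a) (d c) := by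
    have l1 : ∀ z ∈ S, Lk (fun d : H.Dart => d.fst) (rev H) S A z (rev H z) :=
      fun z hz => .rel _ _ ⟨hz, hrev z hz, Or.inl rfl⟩
    have l2 := hA.induction (P := fun w => ∀ z ∈ S, z.fst = w →
      Lk (fun d : H.Dart => d.fst) (rev H) S A (d a) z) (fun z hz e1 =>
        (l1 _ haS).trans _ _ _ (.rel _ _ ⟨hrev _ haS, hz, Or.inr ⟨e1.symm, hA.left_mem⟩⟩))
      (fun p q hp hq hpq ih z hz e1 => by
        have hm : (⟨(p, q), hpq⟩ : H.Dart) ∈ S := ⟨Or.inl hp, Or.inl hq⟩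
        exact ((ih _ hm rfl).trans _ _ _ (l1 _ hm)).trans _ _ _
          (.rel _ _ ⟨hrev _ hm, hz, Or.inr ⟨e1.symm, hq⟩⟩))
    exact (l2 _ (hrev _ hcS) rfl).trans _ _ _ (l1 _ hcS).symm
  have hac : d a ≠ d c := fun h => by have := hinj a c (by omega) (by omega) h; omega
  obtain ⟨w, χ, c1, c2, c3, c4, c5, c6⟩ := chain_colouring hinv hσ.1 hc h0 hac
    ((hx a).trans (hx c).symm) (by rw [hx a]; exact hxA) hL
  have hz : ∀ i, i < n → i ≠ a → i ≠ c → w (d i) = 0 := fun i hi h1 h2 =>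
    c4 _ (by rw [hx i]; exact hxA) (fun h => h1 (hinj _ _ hi (by omega) h))
      (fun h => h2 (hinj _ _ hi (by omega) h))
  have hst : ∀ i j, i ≤ j → j < n → (∀ t, i ≤ t → t < j → t ≠ a ∧ t ≠ c) → χ (d j) = χ (d i) := by
    intro i j hij
    induction j, hij using Nat.le_induction with
    | base => intro _ _; rfl
    | succ j hij ih =>
      intro hj ht
      rw [hd, c5, hz j (by omega) (ht j hij (by omega)).1 (ht j hij (by omega)).2, add_zero]
      exact ih (by omega) fun t h1 h2 => ht t h1 (by omega)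
  have e1 : χ (d c) = χ (d b) := hst b c hbc.le (by omega) fun t h1 h2 => by omega
  have e2 : χ (d e) = χ (d (c + 1)) := hst (c + 1) e hce hen fun t h1 h2 => by omega
  rw [hd, c5, c3, e1] at e2
  have hnB : ∀ p ∈ B, ¬(p ∈ A ∨ p = x) := by
    rintro p hp (h | rfl)
    · exact Set.disjoint_left.1 hAB h hp
    · exact hxB hp
  have z1 : ∀ z : H.Dart, z.fst ∈ B → w z = 0 :=
    fun z h => by_contra fun h' => hnB _ h (c1 z h').1
  have z2 : ∀ z : H.Dart, z.snd ∈ B → w z = 0 :=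
    fun z h => by_contra fun h' => hnB _ h (c1 z h').2
  have z3 : ∀ z z' : H.Dart, z.fst ∈ B → z.fst = z'.fst → χ z' = χ z := by
    intro z z' h h'
    refine (permB_sc ((hσ.1 z z').2 h') (fun t => t.fst = z.fst ∧ χ t = χ z) ⟨rfl, rfl⟩ ?_).2
    rintro t ⟨t1, t2⟩
    refine ⟨((hσ.1 _ _).1 Perm.SameCycle.rfl.apply_left).trans t1, ?_⟩
    rw [c5, z1 t (t1 ▸ h), add_zero, t2]
  have l3 := hB.induction (P := fun p => ∀ z : H.Dart, z.fst = p → χ z = χ (d b))
    (fun z e1 => by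
      rw [z3 (rev H (d b)) z hB.left_mem e1.symm, c6, z2 _ hB.left_mem, add_zero])
    (fun p q hp hq hpq ih z e1 => by
      rw [z3 (rev H ⟨(p, q), hpq⟩) z hq e1.symm, c6, z1 _ hp, add_zero]
      exact ih _ rfl)
  have e3 := l3 (rev H (d e)) rfl
  rw [c6, z2 _ hB.right_mem, add_zero, e2] at e3
  simp at e3

theorem exists_arcs (hxy : G.Adj x y) {u v : V} (huv : u ≠ v)
    (hc : ∀ a, G.Adj x a ∧ G.Adj y a ↔ a = u ∨ a = v) (hconn : Pl.ConnSet G G.support)
    (hrect : ∀ a a' b b', G.Adj x a → G.Adj x a' → G.Adj y b → G.Adj y b' →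
      a ≠ y → a' ≠ y → b ≠ x → b' ≠ x → a ≠ a' → b ≠ b' → a ≠ b → a ≠ b' → a' ≠ b → a' ≠ b' →
      ∃ A B : Set V, Disjoint A B ∧ x ∉ A ∧ y ∉ A ∧ x ∉ B ∧ y ∉ B ∧
        Pl.RIn G A a a' ∧ Pl.RIn G B b b')
    {σ : Perm (G.map (Pl.contr {x, y} x)).Dart} (hσ : ZR _ σ) :
    Arcs G x y u v σ ∨ Arcs G x y v u σ := by
  have := plC_fin (G.map (Pl.contr {x, y} x))
  have fx : Pl.contr {x, y} x x = x := Pl.contr_of_mem (by simp)
  have fy : Pl.contr {x, y} x y = x := Pl.contr_of_mem (by simp)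
  have fo : ∀ a, a ≠ x → a ≠ y → Pl.contr {x, y} x a = a :=
    fun a h1 h2 => Pl.contr_of_notMem (by simp [h1, h2])
  have hconn' : Conn (fun d : (G.map (Pl.contr {x, y} x)).Dart => d.fst) (rev _) :=
    plC_conn (hconn.graph_map _) (by
      rintro a ⟨b, -, a', b', h, rfl, rfl⟩
      exact ⟨a', ⟨b', h⟩, rfl⟩)
  have hadj : ∀ a, G.Adj x a → G.Adj y a → (G.map (Pl.contr {x, y} x)).Adj x a := fun a h1 h2 =>
    ⟨h1.ne, x, a, h1, fx, fo a h1.ne' h2.ne'⟩
  have hnb : ∀ a, (G.map (Pl.contr {x, y} x)).Adj x a →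
      a ≠ x ∧ a ≠ y ∧ (G.Adj x a ∨ G.Adj y a) := by
    rintro a ⟨hne, a', b', h, e1, e2⟩
    have hb1 : b' ≠ x := by rintro rfl; exact hne (fx.symm.trans e2)
    have hb2 : b' ≠ y := by rintro rfl; exact hne (fy.symm.trans e2)
    rw [fo b' hb1 hb2] at e2
    subst e2
    refine ⟨hb1, hb2, ?_⟩
    by_cases h1 : a' = x
    · exact Or.inl (h1 ▸ h)
    by_cases h2 : a' = y
    · exact Or.inr (h2 ▸ h)
    exact absurd ((fo a' h1 h2).symm.trans e1) h1
  have hmono : ∀ {A : Set V} {a b : V}, x ∉ A → y ∉ A → Pl.RIn G A a b →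
      Pl.RIn (G.map (Pl.contr {x, y} x)) A a b := fun {A a b} h1 h2 h =>
    h.mono' le_rfl fun p q hp hq hpq => ⟨hpq.ne, p, q, hpq,
      fo p (fun e => h1 (e ▸ hp)) (fun e => h2 (e ▸ hp)),
      fo q (fun e => h1 (e ▸ hq)) (fun e => h2 (e ▸ hq))⟩
  have hu := (hc u).2 (Or.inl rfl)
  have hv := (hc v).2 (Or.inr rfl)
  let du : (G.map (Pl.contr {x, y} x)).Dart := ⟨(x, u), hadj u hu.1 hu.2⟩
  let dv : (G.map (Pl.contr {x, y} x)).Dart := ⟨(x, v), hadj v hv.1 hv.2⟩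
  let d : ℕ → (G.map (Pl.contr {x, y} x)).Dart := fun i => (σ ^ i) du
  have hd : ∀ i, d (i + 1) = σ (d i) := fun i => by simp only [d, pow_succ', Perm.mul_apply]
  set n := Function.minimalPeriod σ du with hn
  have hn0 : 0 < n := Function.minimalPeriod_pos_of_mem_periodicPts
    (σ.injective.mem_periodicPts du)
  have hinj : ∀ i j, i < n → j < n → d i = d j → i = j := fun i j hi hj h =>
    Function.iterate_injOn_Iio_minimalPeriod hi hj h
  have hdn : d n = du := Function.iterate_minimalPeriod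
  have hx : ∀ i, (d i).fst = x := fun i =>
    ((hσ.1 du (d i)).1 ⟨i, by simp only [d, zpow_natCast]⟩).symm
  obtain ⟨k0, hk0⟩ := ((hσ.1 du dv).2 rfl).exists_nat_pow_eq
  obtain ⟨k, hkn, hk⟩ : ∃ k, k < n ∧ d k = dv :=
    ⟨k0 % n, Nat.mod_lt _ hn0, Function.iterate_mod_minimalPeriod_eq.trans hk0⟩
  have hd0 : d 0 = du := rfl
  have hk1 : 0 < k := by
    rcases Nat.eq_zero_or_pos k with rfl | h
    · exact absurd (congrArg (fun z => z.snd) hk) huv
    · exact h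
  have hsnd : ∀ i j, i < n → j < n → (d i).snd = (d j).snd → i = j := fun i j hi hj h =>
    hinj i j hi hj (Dart.ext _ _ (Prod.ext ((hx i).trans (hx j).symm) h))
  have hne : ∀ i j, i < n → j < n → i ≠ j → (d i).snd ≠ (d j).snd :=
    fun i j hi hj h h' => h (hsnd i j hi hj h')
  have hs : ∀ i, (d i).snd ≠ x ∧ (d i).snd ≠ y ∧ (G.Adj x (d i).snd ∨ G.Adj y (d i).snd) :=
    fun i => hnb _ (by have := (d i).adj; rwa [hx i] at this)
  have hkv : (d k).snd = v := by rw [hk]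
  have hsh : ∀ i, (σ ^ i) dv = d (k + i) := fun i => by
    rw [← hk]
    simp only [d]
    rw [add_comm, pow_add, Perm.mul_apply]
  have key := plC_comb (X := fun i => G.Adj x (d i).snd) (Y := fun i => G.Adj y (d i).snd) hk1 hkn
    hu.1 hu.2 (by simp only [hkv]; exact hv.1) (by simp only [hkv]; exact hv.2)
    (fun i i0 hi ik => by
      constructor
      · intro h1 h2
        rcases (hc _).1 ⟨h1, h2⟩ with h | h
        · exact hne i 0 hi hn0 (by omega) h
        · exact hne i k hi hkn ik (h.trans hkv.symm)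
      · intro h
        exact (hs i).2.2.resolve_right h)
    (fun a b c e hab hbc hce hen xa yb xc ye => by
      obtain ⟨A, B, h1, h2, h3, h4, h5, h6, h7⟩ := hrect _ _ _ _ xa xc yb ye (hs a).2.1 (hs c).2.1
        (hs b).1 (hs e).1 (hne _ _ (by omega) (by omega) (by omega))
        (hne _ _ (by omega) (by omega) (by omega)) (hne _ _ (by omega) (by omega) (by omega))
        (hne _ _ (by omega) (by omega) (by omega)) (hne _ _ (by omega) (by omega) (by omega))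
        (hne _ _ (by omega) (by omega) (by omega))
      exact plC_alt hσ hconn' h1 d hd hinj hx h2 h4 hab hbc hce hen (hmono h2 h3 h6)
        (hmono h4 h5 h7))
    (fun a b c e hab hbc hce hen ya xb yc xe => by
      obtain ⟨A, B, h1, h2, h3, h4, h5, h6, h7⟩ := hrect _ _ _ _ xb xe ya yc (hs b).2.1 (hs e).2.1
        (hs a).1 (hs c).1 (hne _ _ (by omega) (by omega) (by omega))
        (hne _ _ (by omega) (by omega) (by omega)) (hne _ _ (by omega) (by omega) (by omega))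
        (hne _ _ (by omega) (by omega) (by omega)) (hne _ _ (by omega) (by omega) (by omega))
        (hne _ _ (by omega) (by omega) (by omega))
      exact plC_alt hσ hconn' h1.symm d hd hinj hx h4 h2 hab hbc hce hen (hmono h4 h5 h7)
        (hmono h2 h3 h6))
  have hl : (σ ^ (n - k)) dv = du := by rw [hsh, Nat.add_sub_cancel' hkn.le, hdn]
  rcases key with ⟨k1, k2⟩ | ⟨k1, k2⟩
  · exact Or.inl ⟨du, dv, k, n - k, rfl, rfl, hk, hl, k1,
      fun i i0 hi => by rw [hsh]; exact k2 _ (by omega) (by omega)⟩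
  · exact Or.inr ⟨dv, du, n - k, k, rfl, rfl, hl, hk,
      fun i i0 hi => by rw [hsh]; exact k2 _ (by omega) (by omega), k1⟩

end Pool.Agent.Lib.MP_77dff5_pr
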