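import Pool.Agent.Lib.MP_77dff5_pr.PlC

/-! Splitting a vertex. -/

set_option autoImplicit false

namespace Pool.Agent.Lib.MP_77dff5_pr

open Equiv SimpleGraph
open Pool.Agent.Lib.Common

section Abstract

variable {D V : Type} [Finite D] [DecidableEq D]

omit [Finite D] in
theorem plD_inv {π : Perm D} {ν : D → V} (h : ∀ z, ν (π z) = ν z) {a b : D} (hab : ν a = ν b)
    (z : D) : ν ((π * swap a b) z) = ν z := by
  rw [Perm.mul_apply, h]
  by_cases h1 : z = a
  · rw [h1, swap_apply_left, hab]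
  · by_cases h2 : z = b
    · rw [h2, swap_apply_right, hab]
    · rw [swap_apply_of_ne_of_ne h1 h2]

/-- Insert the new dart `n` right after `a`. -/
theorem plD_after (ν : D → V) {π α : Perm D} (h : Def0 π α) {a n : D} (hn : π n = n)
    (hα : α n = n) (ha : a ≠ n) :
    ∃ ρ : Perm D, Def0 ρ α ∧ ncyc ρ + 1 = ncyc π ∧ ρ a = n ∧ ρ n = π a ∧
      (∀ z, z ≠ a → z ≠ n → ρ z = π z) ∧ (∀ x y, π.SameCycle x y → ρ.SameCycle x y) ∧
      ((∀ z, ν (π z) = ν z) → ν a = ν n → ∀ z, ν (ρ z) = ν z) := by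
  have hns : ¬π.SameCycle a n := fun h' => ha (h'.symm.eq_of_left hn).symm
  refine ⟨π * swap a n, h.pendant hn hα ha, ncyc_mul_swap_of_not π hns, by simp [hn], by simp,
    fun z h1 h2 => by rw [Perm.mul_apply, swap_apply_of_ne_of_ne h1 h2],
    fun x y hxy => (sameCycle_mul_swap_of_not π hns x y).2 (Or.inl hxy),
    fun h1 h2 => plD_inv h1 h2⟩

/-- Insert the new dart `n` right before `c`. -/
theorem plD_before (ν : D → V) {π α : Perm D} (h : Def0 π α) {c n : D} (hn : π n = n)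
    (hα : α n = n) (hc : c ≠ n) :
    ∃ ρ : Perm D, Def0 ρ α ∧ ncyc ρ + 1 = ncyc π ∧ ρ n = c ∧ (∀ z, π z = c → ρ z = n) ∧
      (∀ z, π z ≠ c → z ≠ n → ρ z = π z) ∧ (∀ x y, π.SameCycle x y → ρ.SameCycle x y) ∧
      ((∀ z, ν (π z) = ν z) → ν c = ν n → ∀ z, ν (ρ z) = ν z) := by
  obtain ⟨a, rfl⟩ := π.surjective c
  have ha : a ≠ n := fun e => hc (by rw [e, hn])
  obtain ⟨ρ, h1, h2, h3, h4, h5, h6, h7⟩ := plD_after ν h hn hα ha
  refine ⟨ρ, h1, h2, h4, fun z hz => by rw [π.injective hz, h3],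
    fun z hz hzn => h5 z (fun e => hz (by rw [e])) hzn, h6,
    fun hν hc => h7 hν (by rw [← hc, hν])⟩

theorem plD_abs (ν : D → V) {π α : Perm D} (h0 : Def0 π α) {p q r s t w U W A B : D}
    (hnd : [p, q, r, s, t, w, U, W, A, B].Nodup)
    (πp : π p = p) (πq : π q = q) (πr : π r = r) (πs : π s = s) (πt : π t = t) (πw : π w = w)
    (αp : α p = p) (αq : α q = q) (αr : α r = r) (αs : α s = s) (αt : α t = t) (αw : α w = w)
    (αA : α A = W) (αU : α U = B) (hUW : π.SameCycle U W)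
    (νp : ν p = ν U) (νW : ν W = ν U) (νr : ν q = ν r) (νt : ν q = ν t) (νs : ν A = ν s)
    (νw : ν B = ν w)
    (ha : ∀ z, z ≠ W → π z ≠ U → ν (π z) = ν z) (hb : π W ≠ U → ν (π W) = ν q)
    (hc : ∀ z, π z = U → z ≠ W → ν z = ν q) :
    ∃ τ : Perm D, Def0 τ (α * swap p q * swap r s * swap t w) ∧ (∀ z, ν (τ z) = ν z) ∧
      ncyc τ + 5 = ncyc π := by
  simp only [List.nodup_cons, List.mem_cons, List.not_mem_nil, or_false, not_or,
    List.nodup_nil, and_true, not_false_eq_true] at hnd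
  obtain ⟨⟨pq, pr, ps, pt, pw, pU, pW, pA, pB⟩, ⟨qr, qs, qt, qw, qU, qW, qA, qB⟩,
    ⟨rs, rt, rw', rU, rW, rA, rB⟩, ⟨st, sw, sU, sW, sA, sB⟩, ⟨tw, tU, tW, tA, tB⟩,
    ⟨wU, wW, wA, wB⟩, ⟨UW, UA, UB⟩, ⟨WA, WB⟩, AB⟩ := hnd
  -- insert `p` after `W`
  obtain ⟨σ1, d1, n1, a1, b1, c1, s1, -⟩ := plD_after ν h0 πp αp (Ne.symm pW)
  have q1 : σ1 q = q := by rw [c1 q qW (Ne.symm pq), πq]
  -- insert `q` before `U`
  obtain ⟨σ2, d2, n2, a2, b2, c2, s2, -⟩ := plD_before ν d1 q1 αq (Ne.symm qU)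
  have hpq : σ2.SameCycle p q := by
    have e1 : σ1.SameCycle W p := ⟨1, by simpa using a1⟩
    have e2 : σ2.SameCycle q U := ⟨1, by simpa using a2⟩
    exact (e2.trans ((s2 _ _ (s1 _ _ hUW)).trans (s2 _ _ e1))).symm
  -- split
  have d3 := d2.split αp αq pq hpq
  have n3 := ncyc_mul_swap_of_same σ2 hpq pq
  obtain ⟨σ3, hσ3⟩ : ∃ σ3, σ3 = σ2 * swap p q := ⟨_, rfl⟩
  rw [← hσ3] at d3 n3
  have a3 : σ3 p = U := by rw [hσ3, Perm.mul_apply, swap_apply_left, a2]
  have b3 : σ3 q = σ2 p := by rw [hσ3, Perm.mul_apply, swap_apply_right]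
  have c3 : ∀ z, z ≠ p → z ≠ q → σ3 z = σ2 z := fun z h1 h2 => by
    rw [hσ3, Perm.mul_apply, swap_apply_of_ne_of_ne h1 h2]
  have W3 : σ3 W = p := by
    rw [c3 W (Ne.symm pW) (Ne.symm qW), c2 W (by rw [a1]; exact pU) (Ne.symm qW), a1]
  have fix3 : ∀ z, π z = z → z ≠ p → z ≠ q → z ≠ U → z ≠ W → σ3 z = z := fun z h h1 h2 h3 h4 => by
    have e : σ1 z = z := by rw [c1 z h4 h1, h]
    rw [c3 z h1 h2, c2 z (by rw [e]; exact h3) h2, e]
  have i3 : ∀ z, ν (σ3 z) = ν z := by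
    intro z
    by_cases h1 : z = p
    · rw [h1, a3, νp]
    by_cases h2 : z = q
    · rw [h2, b3]
      by_cases h3 : σ1 p = U
      · rw [b2 p h3]
      · rw [c2 p h3 pq, b1, hb (by rwa [b1] at h3)]
    by_cases h3 : z = W
    · rw [h3, W3, νp, νW]
    rw [c3 z h1 h2]
    by_cases h4 : σ1 z = U
    · rw [b2 z h4, hc z (by rwa [c1 z h3 h1] at h4) h3]
    · rw [c2 z h4 h2, c1 z h3 h1]
      exact ha z h3 (by rwa [c1 z h3 h1] at h4)
  obtain ⟨α1, hα1⟩ : ∃ α1, α1 = α * swap p q := ⟨_, rfl⟩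
  rw [← hα1] at d3 ⊢
  have α1p : α1 p = q := by rw [hα1, Perm.mul_apply, swap_apply_left, αq]
  have α1q : α1 q = p := by rw [hα1, Perm.mul_apply, swap_apply_right, αp]
  have α1z : ∀ z, z ≠ p → z ≠ q → α1 z = α z := fun z h1 h2 => by
    rw [hα1, Perm.mul_apply, swap_apply_of_ne_of_ne h1 h2]
  have α1r : α1 r = r := by rw [α1z r (Ne.symm pr) (Ne.symm qr), αr]
  have α1s : α1 s = s := by rw [α1z s (Ne.symm ps) (Ne.symm qs), αs]
  have r3 := fix3 r πr (Ne.symm pr) (Ne.symm qr) rU rW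
  have s3 := fix3 s πs (Ne.symm ps) (Ne.symm qs) sU sW
  have t3 := fix3 t πt (Ne.symm pt) (Ne.symm qt) tU tW
  have w3 := fix3 w πw (Ne.symm pw) (Ne.symm qw) wU wW
  -- insert `r` after `q`
  obtain ⟨σ4, d4, n4, a4, -, c4, -, i4⟩ := plD_after ν d3 r3 α1r qr
  replace i4 := i4 i3 νr
  have s4 : σ4 s = s := by rw [c4 s (Ne.symm qs) (Ne.symm rs), s3]
  have t4 : σ4 t = t := by rw [c4 t (Ne.symm qt) (Ne.symm rt), t3]
  have w4 : σ4 w = w := by rw [c4 w (Ne.symm qw) (Ne.symm rw'), w3]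
  have p4 : σ4 p = U := by rw [c4 p pq pr, a3]
  have W4 : σ4 W = p := by rw [c4 W (Ne.symm qW) (Ne.symm rW), W3]
  -- insert `s` before `A`
  obtain ⟨σ5, d5, n5, a5, -, c5, -, i5⟩ := plD_before ν d4 s4 α1s (Ne.symm sA)
  replace i5 := i5 i4 νs
  have t5 : σ5 t = t := by rw [c5 t (by rw [t4]; exact tA) (Ne.symm st), t4]
  have w5 : σ5 w = w := by rw [c5 w (by rw [w4]; exact wA) (Ne.symm sw), w4]
  have p5 : σ5 p = U := by rw [c5 p (by rw [p4]; exact UA) ps, p4]
  have W5 : σ5 W = p := by rw [c5 W (by rw [W4]; exact pA) (Ne.symm sW), W4]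
  have q5 : σ5 q = r := by rw [c5 q (by rw [a4]; exact rA) qs, a4]
  have hrs : (σ5 * α1).SameCycle r s := by
    have e1 : (σ5 * α1) s = A := by rw [Perm.mul_apply, α1s, a5]
    have e2 : (σ5 * α1) A = p := by
      rw [Perm.mul_apply, α1z A (Ne.symm pA) (Ne.symm qA), αA, W5]
    have e3 : (σ5 * α1) p = r := by rw [Perm.mul_apply, α1p, q5]
    rw [← e3, ← e2, ← e1]
    exact (Perm.SameCycle.refl _ s).apply_left.apply_left.apply_left
  have d5' := d5.chord α1r rs hrs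
  obtain ⟨α2, hα2⟩ : ∃ α2, α2 = α1 * swap r s := ⟨_, rfl⟩
  rw [← hα2] at d5' ⊢
  have α2z : ∀ z, z ≠ r → z ≠ s → α2 z = α1 z := fun z h1 h2 => by
    rw [hα2, Perm.mul_apply, swap_apply_of_ne_of_ne h1 h2]
  have α2t : α2 t = t := by
    rw [α2z t (Ne.symm rt) (Ne.symm st), α1z t (Ne.symm pt) (Ne.symm qt), αt]
  have α2w : α2 w = w := by
    rw [α2z w (Ne.symm rw') (Ne.symm sw), α1z w (Ne.symm pw) (Ne.symm qw), αw]
  -- insert `t` before `q`
  obtain ⟨σ6, d6, n6, a6, -, c6, -, i6⟩ := plD_before ν d5' t5 α2t qt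
  replace i6 := i6 i5 νt
  have w6 : σ6 w = w := by rw [c6 w (by rw [w5]; exact Ne.symm qw) (Ne.symm tw), w5]
  have p6 : σ6 p = U := by rw [c6 p (by rw [p5]; exact Ne.symm qU) pt, p5]
  -- insert `w` after `B`
  obtain ⟨σ7, d7, n7, a7, -, c7, -, i7⟩ := plD_after ν d6 w6 α2w (Ne.symm wB)
  replace i7 := i7 i6 νw
  have htw : (σ7 * α2).SameCycle t w := by
    have e1 : (σ7 * α2) t = q := by rw [Perm.mul_apply, α2t, c7 t tB tw, a6]
    have e2 : (σ7 * α2) q = U := by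
      rw [Perm.mul_apply, α2z q qr qs, α1q, c7 p pB pw, p6]
    have e3 : (σ7 * α2) U = w := by
      rw [Perm.mul_apply, α2z U (Ne.symm rU) (Ne.symm sU), α1z U (Ne.symm pU) (Ne.symm qU), αU,
        a7]
    rw [← e3, ← e2, ← e1]
    exact (Perm.SameCycle.refl _ t).apply_right.apply_right.apply_right
  exact ⟨σ7, d7.chord α2t tw htw, i7, by omega⟩

end Abstract

variable {V : Type} [Finite V] {G : SimpleGraph V} {x y : V}

open Classical in
/-- The end point in `G` of a dart of the contracted graph. -/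
noncomputable def plD_f (G : SimpleGraph V) (x y a b : V) : V :=
  if a = x ∧ ¬G.Adj x b then y else a

omit [Finite V] in
theorem plD_c_x : Pl.contr {x, y} x x = x := Pl.contr_of_mem (by simp)

omit [Finite V] in
theorem plD_c_y : Pl.contr {x, y} x y = x := Pl.contr_of_mem (by simp)

omit [Finite V] in
theorem plD_c_ne {a : V} (h : a ≠ y) : Pl.contr {x, y} x a = a := by
  by_cases h' : a = x
  · rw [h', plD_c_x]
  · exact Pl.contr_of_notMem (by simp [h, h'])

omit [Finite V] in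
theorem plD_c_ne_y (hxy : G.Adj x y) (a : V) : Pl.contr {x, y} x a ≠ y := by
  by_cases h : a = y
  · rw [h, plD_c_y]; exact hxy.ne
  · rw [plD_c_ne h]; exact h

omit [Finite V] in
theorem plD_f_pos {b : V} (h : ¬G.Adj x b) : plD_f G x y x b = y := if_pos ⟨rfl, h⟩

omit [Finite V] in
theorem plD_f_adj {a b : V} (h : G.Adj x b) : plD_f G x y a b = a := if_neg fun h' => h'.2 h

omit [Finite V] in
theorem plD_f_ne {a b : V} (h : a ≠ x) : plD_f G x y a b = a := if_neg fun h' => h h'.1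

omit [Finite V] in
theorem plD_c_f {a b : V} (h : a ≠ y) : Pl.contr {x, y} x (plD_f G x y a b) = a := by
  unfold plD_f
  split_ifs with h'
  · rw [plD_c_y, h'.1]
  · exact plD_c_ne h

omit [Finite V] in
theorem plD_ne_y (hxy : G.Adj x y) {a b : V} (h : (G.map (Pl.contr {x, y} x)).Adj a b) :
    a ≠ y := by
  obtain ⟨-, a', b', -, rfl, -⟩ := h
  exact plD_c_ne_y hxy a'

omit [Finite V] in
theorem plD_adj (hxy : G.Adj x y) {a b : V} (h : (G.map (Pl.contr {x, y} x)).Adj a b) :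
    G.Adj (plD_f G x y a b) (plD_f G x y b a) := by
  obtain ⟨hne, a', b', hab, rfl, rfl⟩ := h
  by_cases ha : a' = y
  · subst ha
    have hb : b' ≠ a' := hab.ne'
    rw [plD_c_y, plD_c_ne hb] at hne ⊢
    rw [plD_f_ne (Ne.symm hne)]
    by_cases h1 : G.Adj x b'
    · rw [plD_f_adj h1]; exact h1
    · rw [plD_f_pos h1]; exact hab
  by_cases hb : b' = y
  · subst hb
    rw [plD_c_y, plD_c_ne ha] at hne ⊢
    rw [plD_f_ne hne]
    by_cases h1 : G.Adj x a'
    · rw [plD_f_adj h1]; exact h1.symm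
    · rw [plD_f_pos h1]; exact hab
  rw [plD_c_ne ha, plD_c_ne hb]
  have e1 : plD_f G x y a' b' = a' := if_neg fun h' => h'.2 (h'.1 ▸ hab)
  have e2 : plD_f G x y b' a' = b' := if_neg fun h' => h'.2 (h'.1 ▸ hab.symm)
  rw [e1, e2]
  exact hab

/-- The darts of the contracted graph as darts of `G`. -/
noncomputable def plD_j (hxy : G.Adj x y) : (G.map (Pl.contr {x, y} x)).Dart ↪ G.Dart where
  toFun d := ⟨(plD_f G x y d.fst d.snd, plD_f G x y d.snd d.fst), plD_adj hxy d.adj⟩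
  inj' d e h := by
    have h1 := congrArg (fun z : G.Dart => Pl.contr {x, y} x z.fst) h
    have h2 := congrArg (fun z : G.Dart => Pl.contr {x, y} x z.snd) h
    simp only [plD_c_f (plD_ne_y hxy d.adj), plD_c_f (plD_ne_y hxy e.adj),
      plD_c_f (plD_ne_y hxy d.adj.symm), plD_c_f (plD_ne_y hxy e.adj.symm)] at h1 h2
    exact Dart.ext _ _ (Prod.ext h1 h2)

omit [Finite V] in
theorem plD_j_fst (hxy : G.Adj x y) (d : (G.map (Pl.contr {x, y} x)).Dart) :
    (plD_j hxy d).fst = plD_f G x y d.fst d.snd := rfl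

omit [Finite V] in
theorem plD_j_snd (hxy : G.Adj x y) (d : (G.map (Pl.contr {x, y} x)).Dart) :
    (plD_j hxy d).snd = plD_f G x y d.snd d.fst := rfl

omit [Finite V] in
theorem plD_j_symm (hxy : G.Adj x y) (d : (G.map (Pl.contr {x, y} x)).Dart) :
    plD_j hxy d.symm = (plD_j hxy d).symm := rfl

omit [Finite V] in
theorem plD_notMem (hxy : G.Adj x y) {z : G.Dart} (h1 : z.fst = y)
    (h2 : z.snd = x ∨ G.Adj x z.snd) : z ∉ Set.range (plD_j hxy) := by
  rintro ⟨d, rfl⟩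
  have e1 := plD_c_f (G := G) (x := x) (b := d.snd) (plD_ne_y hxy d.adj)
  have e2 := plD_c_f (G := G) (x := x) (b := d.fst) (plD_ne_y hxy d.adj.symm)
  rw [plD_j_fst] at h1
  rw [plD_j_snd] at h2
  rw [h1, plD_c_y] at e1
  have hs : d.snd ≠ x := fun h => d.adj.ne (e1.symm.trans h.symm)
  rw [plD_f_ne hs] at h2
  rw [plD_f_adj (h2.resolve_left hs), ← e1] at h1
  exact hxy.ne h1

omit [Finite V] in
theorem plD_notMem' (hxy : G.Adj x y) {z : G.Dart} (h : z ∉ Set.range (plD_j hxy)) :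
    z.symm ∉ Set.range (plD_j hxy) := by
  rintro ⟨d, hd⟩
  exact h ⟨d.symm, by rw [plD_j_symm, hd, Dart.symm_symm]⟩

omit [Finite V] in
theorem plD_f_c {a b : V} (hab : G.Adj a b) (h1 : a = y → b ≠ x ∧ ¬G.Adj x b)
    (h2 : b = y → a ≠ x) :
    plD_f G x y (Pl.contr {x, y} x a) (Pl.contr {x, y} x b) = a := by
  by_cases ha : a = y
  · subst ha
    rw [plD_c_y, plD_c_ne hab.ne', plD_f_pos (h1 rfl).2]
  · rw [plD_c_ne ha]
    by_cases hx : a = x
    · subst hx
      rw [plD_c_ne (fun h => h2 h rfl), plD_f_adj hab]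
    · exact plD_f_ne hx

omit [Finite V] in
theorem plD_mem (hxy : G.Adj x y) {z : G.Dart} (h1 : z.fst = y → z.snd ≠ x ∧ ¬G.Adj x z.snd)
    (h2 : z.snd = y → z.fst ≠ x ∧ ¬G.Adj x z.fst) : z ∈ Set.range (plD_j hxy) := by
  have hne : Pl.contr {x, y} x z.fst ≠ Pl.contr {x, y} x z.snd := by
    by_cases ha : z.fst = y
    · rw [ha, plD_c_y, plD_c_ne (fun h => z.adj.ne (ha.trans h.symm))]
      exact (h1 ha).1.symm
    · by_cases hb : z.snd = y
      · rw [hb, plD_c_y, plD_c_ne ha]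
        exact (h2 hb).1
      · rw [plD_c_ne ha, plD_c_ne hb]
        exact z.adj.ne
  refine ⟨⟨(_, _), map_adj_apply' z.adj hne⟩, Dart.ext _ _ (Prod.ext ?_ ?_)⟩
  · exact plD_f_c z.adj h1 fun h => (h2 h).1
  · exact plD_f_c z.adj.symm h2 fun h => (h1 h).1

theorem zd_of_arcs (hxy : G.Adj x y) {u v : V} (huv : u ≠ v)
    (hc : ∀ a, G.Adj x a ∧ G.Adj y a ↔ a = u ∨ a = v) (hconn : Pl.ConnSet G G.support)
    {σ : Perm (G.map (Pl.contr {x, y} x)).Dart} (hσ : ZR _ σ) (h : Arcs G x y u v σ) : ZD G := by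
  classical
  have _ := hconn
  obtain ⟨du, dv, k, l, hdu, hdv, hk, hl, arc1, arc2⟩ := h.ex
  obtain ⟨xu, yu⟩ := (hc u).2 (Or.inl rfl)
  obtain ⟨xv, yv⟩ := (hc v).2 (Or.inr rfl)
  have fG : Finite G.Dart := Finite.of_injective _ Dart.toProd_injective
  have fG' : Finite (G.map (Pl.contr {x, y} x)).Dart :=
    Finite.of_injective _ Dart.toProd_injective
  have du1 : du.fst = x := congrArg Prod.fst hdu
  have du2 : du.snd = u := congrArg Prod.snd hdu
  have dv1 : dv.fst = x := congrArg Prod.fst hdv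
  have dv2 : dv.snd = v := congrArg Prod.snd hdv
  have hne : du ≠ dv := fun e => huv (by rw [← du2, ← dv2, e])
  have k0 : 0 < k := Nat.pos_of_ne_zero fun e => hne (by rw [← hk, e]; rfl)
  have l0 : 0 < l := Nat.pos_of_ne_zero fun e => hne (by rw [← hl, e]; rfl)
  have hfst : ∀ d, (σ d).fst = d.fst := fun d =>
    (hσ.1 _ _).1 (Perm.SameCycle.refl σ d).apply_left
  have hstep : ∀ (i : ℕ) d, σ ((σ ^ i) d) = (σ ^ (i + 1)) d := fun i d => by
    rw [pow_succ', Perm.mul_apply]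
  have hall : ∀ d, d.fst = x → (∃ i < k, d = (σ ^ i) du) ∨ ∃ i < l, d = (σ ^ i) dv := by
    intro d hd
    refine permA_ind (fun d => (∃ i < k, d = (σ ^ i) du) ∨ ∃ i < l, d = (σ ^ i) dv) ?_
      ((hσ.1 du d).2 (du1.trans hd.symm)) (Or.inl ⟨0, k0, rfl⟩)
    rintro _ (⟨i, hi, rfl⟩ | ⟨i, hi, rfl⟩)
    · rw [hstep]
      rcases Nat.lt_or_eq_of_le (Nat.succ_le_of_lt hi) with h | h
      · exact Or.inl ⟨i + 1, h, rfl⟩
      · exact Or.inr ⟨0, l0, by rw [show i + 1 = k from h, hk]; rfl⟩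
    · rw [hstep]
      rcases Nat.lt_or_eq_of_le (Nat.succ_le_of_lt hi) with h | h
      · exact Or.inr ⟨i + 1, h, rfl⟩
      · exact Or.inl ⟨0, k0, by rw [show i + 1 = l from h, hl]; rfl⟩
  have arc1' : ∀ i ≤ k, G.Adj x ((σ ^ i) du).snd := by
    intro i hi
    rcases Nat.eq_zero_or_pos i with h | h
    · rw [h]; exact du2 ▸ xu
    · rcases Nat.lt_or_eq_of_le hi with h' | h'
      · exact (arc1 i h h').1
      · rw [h', hk, dv2]; exact xv
  have hy : ∀ d, d.fst = x → ¬G.Adj x d.snd → (plD_j hxy d).fst = y := fun d h1 h2 => by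
    rw [plD_j_fst, h1, plD_f_pos h2]
  let j := plD_j hxy
  let p : G.Dart := ⟨(x, y), hxy⟩
  let r : G.Dart := ⟨(y, v), yv⟩
  let t : G.Dart := ⟨(y, u), yu⟩
  have nq : p.symm ∉ Set.range j := plD_notMem hxy rfl (Or.inl rfl)
  have np : p ∉ Set.range j := plD_notMem' hxy nq
  have nr : r ∉ Set.range j := plD_notMem hxy rfl (Or.inr xv)
  have ns : r.symm ∉ Set.range j := plD_notMem' hxy nr
  have nt : t ∉ Set.range j := plD_notMem hxy rfl (Or.inr xu)
  have nw : t.symm ∉ Set.range j := plD_notMem' hxy nt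
  have hsix : ∀ z, z ∉ Set.range j →
      z = p ∨ z = p.symm ∨ z = r ∨ z = r.symm ∨ z = t ∨ z = t.symm := by
    intro z hz
    by_contra hcon
    simp only [not_or, Dart.ext_iff, Prod.ext_iff] at hcon
    obtain ⟨c1, c2, c3, c4, c5, c6⟩ := hcon
    refine hz (plD_mem hxy (fun h => ⟨fun h' => c2 ⟨h, h'⟩, fun h' => ?_⟩)
      fun h => ⟨fun h' => c1 ⟨h', h⟩, fun h' => ?_⟩)
    · rcases (hc z.snd).1 ⟨h', h ▸ z.adj⟩ with e | e
      · exact c5 ⟨h, e⟩
      · exact c3 ⟨h, e⟩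
    · rcases (hc z.fst).1 ⟨h', h ▸ z.adj.symm⟩ with e | e
      · exact c6 ⟨e, h⟩
      · exact c4 ⟨e, h⟩
  have jU : (j du).toProd = (x, u) :=
    Prod.ext (by rw [plD_j_fst, plD_f_adj (du2 ▸ xu), du1])
      (by rw [plD_j_snd, plD_f_ne (du2 ▸ xu.ne'), du2])
  have jW : (j dv).toProd = (x, v) :=
    Prod.ext (by rw [plD_j_fst, plD_f_adj (dv2 ▸ xv), dv1])
      (by rw [plD_j_snd, plD_f_ne (dv2 ▸ xv.ne'), dv2])
  have hnd : [p, p.symm, r, r.symm, t, t.symm, j du, j dv, (j dv).symm, (j du).symm].Nodup := by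
    refine List.Nodup.of_map Dart.toProd ?_
    have e1 : (j dv).symm.toProd = (v, x) := congrArg Prod.swap jW
    have e2 : (j du).symm.toProd = (u, x) := congrArg Prod.swap jU
    simp only [List.map_cons, List.map_nil, jU, jW, e1, e2]
    have := hxy.ne; have := hxy.ne'; have := xu.ne; have := xu.ne'; have := xv.ne
    have := xv.ne'; have := yu.ne; have := yu.ne'; have := yv.ne; have := yv.ne'
    have := huv.symm
    simp [p, r, t, *]
  have πj : ∀ d, σ.viaEmbedding j (j d) = j (σ d) := Perm.viaEmbedding_apply σ j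
  have πn := Perm.viaEmbedding_apply_of_notMem σ j
  have αj : ∀ d, (rev _).viaEmbedding j (j d) = (j d).symm := Perm.viaEmbedding_apply (rev _) j
  have αn := Perm.viaEmbedding_apply_of_notMem (rev _) j
  obtain ⟨τ, d0, hν, hn⟩ := plD_abs (fun d : G.Dart => d.fst) (hσ.2.via j) hnd
    (πn _ np) (πn _ nq) (πn _ nr) (πn _ ns) (πn _ nt) (πn _ nw)
    (αn _ np) (αn _ nq) (αn _ nr) (αn _ ns) (αn _ nt) (αn _ nw)
    (αj dv.symm) (αj du) ((permD_same j πj du dv).1 ⟨(k : ℤ), by rw [zpow_natCast, hk]⟩)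
    (congrArg Prod.fst jU).symm ((congrArg Prod.fst jW).trans (congrArg Prod.fst jU).symm)
    rfl rfl (congrArg Prod.snd jW) (congrArg Prod.snd jU)
    (by
      intro z h1 h2
      by_cases hz : z ∈ Set.range j
      · obtain ⟨d, rfl⟩ := hz
        rw [πj] at h2 ⊢
        by_cases hd : d.fst = x
        · rcases hall d hd with ⟨i, hi, rfl⟩ | ⟨i, hi, rfl⟩
          · rw [plD_j_fst, plD_j_fst, hfst, plD_f_adj (arc1' i hi.le), hstep,
              plD_f_adj (arc1' (i + 1) hi)]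
          · have i0 : 0 < i := Nat.pos_of_ne_zero fun e => h1 (by rw [e]; rfl)
            have il : i + 1 < l := lt_of_le_of_ne hi fun e => h2 (by rw [hstep, e, hl])
            rw [hy _ hd (arc2 i i0 hi).2, hy _ ((hfst _).trans hd)]
            rw [hstep]
            exact (arc2 (i + 1) i.succ_pos il).2
        · rw [plD_j_fst, plD_j_fst, plD_f_ne hd, plD_f_ne (by rw [hfst]; exact hd), hfst]
      · rw [πn z hz])
    (by
      intro h1
      rw [πj] at h1 ⊢
      have il : 1 < l := lt_of_le_of_ne l0 fun e => h1 (by rw [← hl, ← e, pow_one])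
      exact hy _ ((hfst _).trans dv1) (by simpa using (arc2 1 one_pos il).2))
    (by
      intro z h1 h2
      have hz : z ∈ Set.range j := by
        by_contra hz
        rw [πn z hz] at h1
        exact hz ⟨du, h1.symm⟩
      obtain ⟨d, rfl⟩ := hz
      rw [πj] at h1
      replace h1 := j.injective h1
      have hd : d.fst = x := by rw [← hfst, h1, du1]
      rcases hall d hd with ⟨i, hi, rfl⟩ | ⟨i, hi, rfl⟩
      · exfalso
        rw [hstep] at h1
        rcases Nat.lt_or_eq_of_le (Nat.succ_le_of_lt hi) with h | h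
        · exact (arc1 (i + 1) i.succ_pos h).2 (by rw [h1, du2]; exact yu)
        · exact hne (by rw [← h1, show i + 1 = k from h, hk])
      · have i0 : 0 < i := Nat.pos_of_ne_zero fun e => h2 (by rw [e]; rfl)
        exact hy _ hd (arc2 i i0 hi).2)
  have hrev : (rev _).viaEmbedding j * swap p p.symm * swap r r.symm * swap t t.symm = rev G := by
    simp only [List.nodup_cons, List.mem_cons, List.not_mem_nil, or_false, not_or,
      List.nodup_nil, and_true, not_false_eq_true] at hnd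
    obtain ⟨⟨-, pr, ps, pt, pw, -⟩, ⟨qr, qs, qt, qw, -⟩, ⟨-, rt, rw', -⟩, ⟨st, sw, -⟩, -⟩ := hnd
    ext1 z
    change _ = z.symm
    simp only [Perm.mul_apply]
    by_cases hz : z ∈ Set.range j
    · have hzn : ∀ n, n ∉ Set.range j → z ≠ n := fun n hn e => hn (e ▸ hz)
      rw [swap_apply_of_ne_of_ne (hzn _ nt) (hzn _ nw), swap_apply_of_ne_of_ne (hzn _ nr) (hzn _ ns),
        swap_apply_of_ne_of_ne (hzn _ np) (hzn _ nq)]
      obtain ⟨d, rfl⟩ := hz
      exact αj d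
    · rcases hsix z hz with rfl | rfl | rfl | rfl | rfl | rfl
      · rw [swap_apply_of_ne_of_ne pt pw, swap_apply_of_ne_of_ne pr ps, swap_apply_left, αn _ nq]
      · rw [swap_apply_of_ne_of_ne qt qw, swap_apply_of_ne_of_ne qr qs, swap_apply_right, αn _ np,
          Dart.symm_symm]
      · rw [swap_apply_of_ne_of_ne rt rw', swap_apply_left,
          swap_apply_of_ne_of_ne (Ne.symm ps) (Ne.symm qs), αn _ ns]
      · rw [swap_apply_of_ne_of_ne st sw, swap_apply_right,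
          swap_apply_of_ne_of_ne (Ne.symm pr) (Ne.symm qr), αn _ nr, Dart.symm_symm]
      · rw [swap_apply_left, swap_apply_of_ne_of_ne (Ne.symm rw') (Ne.symm sw),
          swap_apply_of_ne_of_ne (Ne.symm pw) (Ne.symm qw), αn _ nw]
      · rw [swap_apply_right, swap_apply_of_ne_of_ne (Ne.symm rt) (Ne.symm st),
          swap_apply_of_ne_of_ne (Ne.symm pt) (Ne.symm qt), αn _ nt, Dart.symm_symm]
  rw [hrev] at d0
  refine ⟨τ, isRot_of_ncyc hν ?_, d0⟩
  have e1 := permD_ncyc j πj πn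
  have e2 : Nat.card {z // z ∉ Set.range j} ≤ 6 := by
    have : Nat.card {z // z ∉ Set.range j} ≤
        ({p, p.symm, r, r.symm, t, t.symm} : Finset G.Dart).card := by
      rw [← Nat.card_eq_finsetCard]
      refine Nat.card_le_card_of_injective
        (fun z => ⟨z.1, by simpa using hsix z.1 z.2⟩) fun a b e => Subtype.ext ?_
      exact congrArg (fun z => z.1) e
    exact this.trans Finset.card_le_six
  have e3 := ncyc_of_isRot hσ.1
  have e4 : (Set.range fun d : (G.map (Pl.contr {x, y} x)).Dart => d.fst).ncard + 1 ≤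
      (Set.range fun d : G.Dart => d.fst).ncard := by
    rw [← Set.ncard_insert_of_notMem (a := y)]
    · refine Set.ncard_le_ncard ?_
      rintro _ (rfl | ⟨d, rfl⟩)
      · exact ⟨p.symm, rfl⟩
      · by_cases hd : d.fst = x
        · exact ⟨p, hd.symm⟩
        · exact ⟨j d, plD_f_ne hd⟩
    · rintro ⟨d, hd⟩
      exact plD_ne_y hxy d.adj hd
  omega

end Pool.Agent.Lib.MP_77dff5_pr
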