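import Pool.Agent.Lib.Common.Planar.Draw
import Pool.Agent.Lib.Common.Planar.Wind
import Pool.Agent.Lib.MP_77dff5_pr.PlB
import Pool.Agent.Lib.MP_77dff5_pr.PlD
import Pool.Agent.Lib.MP_77dff5_pr.Defs

/-! Drawings, excluded minors and rotation systems. -/

set_option autoImplicit false

namespace Pool.Agent.Lib.MP_77dff5_pr

open Equiv SimpleGraph
open Pool.Agent.Lib.Common

variable {V : Type} [Finite V] {G : SimpleGraph V}

omit [Finite V] in
theorem plE_rect (h : Pl.Planar G) {x y : V} (hxy : G.Adj x y) (C : Pl.Cyc G)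
    (hC : Disjoint C.verts {x, y}) (hbd : Pl.bd G {x, y} ⊆ C.verts) :
    ∀ a a' b b', G.Adj x a → G.Adj x a' → G.Adj y b → G.Adj y b' →
      a ≠ y → a' ≠ y → b ≠ x → b' ≠ x → a ≠ a' → b ≠ b' → a ≠ b → a ≠ b' → a' ≠ b → a' ≠ b' →
      ∃ A B : Set V, Disjoint A B ∧ x ∉ A ∧ y ∉ A ∧ x ∉ B ∧ y ∉ B ∧
        Pl.RIn G A a a' ∧ Pl.RIn G B b b' := by
  have hx : x ∉ C.verts := fun hx => Set.disjoint_left.1 hC hx (Or.inl rfl)
  have hy : y ∉ C.verts := fun hy => Set.disjoint_left.1 hC hy (Or.inr rfl)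
  have hX : ∀ a, G.Adj x a → a ≠ y → a ∈ C.verts := fun a ha hay =>
    hbd ⟨fun h => h.elim ha.ne' hay, x, Or.inl rfl, ha.symm⟩
  have hY : ∀ a, G.Adj y a → a ≠ x → a ∈ C.verts := fun a ha hax =>
    hbd ⟨fun h => h.elim hax ha.ne', y, Or.inr rfl, ha.symm⟩
  have hxa : ∀ s t, x ∉ C.arc s t := fun s t h => hx (C.arc_subset_verts _ _ h)
  have hya : ∀ s t, y ∉ C.arc s t := fun s t h => hy (C.arc_subset_verts _ _ h)
  intro a a' b b' ha ha' hb hb' hay hay' hbx hbx' haa hbb hab hab' hab2 hab2'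
  obtain ⟨i, rfl⟩ := hX a ha hay
  obtain ⟨j, hj1, hj2, rfl⟩ := C.exists_pos (hX a' ha' hay') i
  obtain ⟨k, hk1, hk2, rfl⟩ := C.exists_pos (hY b hb hbx) i
  obtain ⟨l, hl1, hl2, rfl⟩ := C.exists_pos (hY b' hb' hbx') i
  have hij : i ≠ j := fun e => haa (by rw [e])
  have hik : i ≠ k := fun e => hab (by rw [e])
  have hil : i ≠ l := fun e => hab' (by rw [e])
  have hjk : j ≠ k := fun e => hab2 (by rw [e])
  have hjl : j ≠ l := fun e => hab2' (by rw [e])
  by_cases hk : k < j <;> by_cases hl : l < j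
  · refine ⟨C.arc j (i + C.n), C.arc (i + 1) (j - 1),
      (C.disjoint_arc (by omega) (by omega)).symm, hxa _ _, hya _ _, hxa _ _, hya _ _, ?_, ?_⟩
    · refine (C.connSet_arc (by omega)).rIn ?_ (C.c_mem_arc le_rfl (by omega))
      rw [← C.per i]
      exact C.c_mem_arc (by omega) le_rfl
    · exact (C.connSet_arc (by omega)).rIn (C.c_mem_arc (by omega) (by omega))
        (C.c_mem_arc (by omega) (by omega))
  · exact absurd h (Pl.wagner_not_planar_alt C (i := i) (k := k) (j := j) (l := l) (by omega) hk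
      (by omega) hl2 hxy hx hy ha ha' hb hb')
  · exact absurd h (Pl.wagner_not_planar_alt C (i := i) (k := l) (j := j) (l := k) (by omega) hl
      (by omega) hk2 hxy hx hy ha ha' hb' hb)
  · refine ⟨C.arc i j, C.arc (j + 1) (i + C.n - 1),
      C.disjoint_arc (by omega) (by omega), hxa _ _, hya _ _, hxa _ _, hya _ _,
      C.rIn_arc hj1, ?_⟩
    exact (C.connSet_arc (by omega)).rIn (C.c_mem_arc (by omega) (by omega))
      (C.c_mem_arc (by omega) (by omega))

omit [Finite V] in
theorem plE_three (h : Pl.Planar G) {x y : V} (hxy : G.Adj x y) (C : Pl.Cyc G)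
    (hC : Disjoint C.verts {x, y}) (hbd : Pl.bd G {x, y} ⊆ C.verts) {a b c : V}
    (hxa : G.Adj x a) (hya : G.Adj y a) (hxb : G.Adj x b) (hyb : G.Adj y b) (hxc : G.Adj x c)
    (hyc : G.Adj y c) (hab : a ≠ b) (hac : a ≠ c) (hbc : b ≠ c) : False := by
  have hx : x ∉ C.verts := fun hx => Set.disjoint_left.1 hC hx (Or.inl rfl)
  have hy : y ∉ C.verts := fun hy => Set.disjoint_left.1 hC hy (Or.inr rfl)
  have hX : ∀ a, G.Adj x a → a ≠ y → a ∈ C.verts := fun a ha hay =>
    hbd ⟨fun h => h.elim ha.ne' hay, x, Or.inl rfl, ha.symm⟩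
  obtain ⟨i, rfl⟩ := hX a hxa hya.ne'
  obtain ⟨j, hj1, hj2, rfl⟩ := C.exists_pos (hX b hxb hyb.ne') i
  obtain ⟨k, hk1, hk2, rfl⟩ := C.exists_pos (hX c hxc hyc.ne') i
  have hij : i ≠ j := fun e => hab (by rw [e])
  have hik : i ≠ k := fun e => hac (by rw [e])
  have hjk : j ≠ k := fun e => hbc (by rw [e])
  rcases lt_or_gt_of_ne hjk with hlt | hlt
  · exact Pl.wagner_not_planar_three C (by omega) hlt hk2 hxy hx hy hxa hxb hxc hya hyb hyc h
  · exact Pl.wagner_not_planar_three C (by omega) hlt hj2 hxy hx hy hxa hxc hxb hya hyc hyb h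

theorem zd_of_planar (h : Pl.Planar G) : ZD G := by
  induction hn : G.support.ncard using Nat.strong_induction_on generalizing G with
  | _ n ih =>
  by_cases h4 : G.support.ncard ≤ 4
  · exact zd_of_ncard_support_le h4
  have h5 : 5 ≤ G.support.ncard := by omega
  obtain ⟨H, hGH, hH⟩ := h.exists_maxOn (S := G.support) le_rfl
  have hsup : H.support = G.support := Set.Subset.antisymm hH.2.1 (support_mono hGH)
  refine ZD.of_injOn (H := H) ?_ id (Set.injOn_id _) fun a b hab => hGH hab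
  have h3 := hH.threeConnOn (by omega)
  obtain ⟨x, y, hxy, hc⟩ := Pl.exists_contractible hH.2.1 h5 h3
  obtain ⟨C, hC, hbd⟩ := Pl.exists_link_cyc hH.1 hH.2.1 (Pl.connSet_pair hxy) (by
    have h6 := Set.ncard_insert_le x ({y} : Set V)
    rw [Set.ncard_singleton] at h6
    have h7 := Set.le_ncard_sdiff ({x, y} : Set V) G.support
    omega) hc
  obtain ⟨L, hL⟩ := hH.exists_link (by omega) (hH.2.1 hxy.mem_support_right)
  have hxL : x ∈ L.verts := by rw [hL]; exact hxy.symm
  obtain ⟨i, hi⟩ := hxL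
  have hn3 := L.three_le
  have hyL : ∀ j, H.Adj y (L.c j) := fun j => by
    have := L.c_mem_verts j
    rw [hL] at this
    exact this
  have hxu : H.Adj x (L.c (i + 1)) := hi ▸ L.adj i
  have hxv : H.Adj x (L.c (i + L.n - 1)) := by
    have := L.adj (i + L.n - 1)
    rw [Nat.sub_add_cancel (by omega), L.per, hi] at this
    exact this.symm
  have huv : L.c (i + 1) ≠ L.c (i + L.n - 1) := fun e => by
    have := L.inj' e (by omega) (by omega)
    omega
  set u := L.c (i + 1) with hu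
  set v := L.c (i + L.n - 1) with hv
  have hyu : H.Adj y u := hyL _
  have hyv : H.Adj y v := hyL _
  have hcm : ∀ a, H.Adj x a ∧ H.Adj y a ↔ a = u ∨ a = v := by
    intro a
    constructor
    · rintro ⟨h1, h2⟩
      by_contra hcon
      push Not at hcon
      exact plE_three hH.1 hxy C hC hbd h1 h2 hxu hyu hxv hyv hcon.1 hcon.2 huv
    · rintro (rfl | rfl)
      exacts [⟨hxu, hyu⟩, ⟨hxv, hyv⟩]
  have hconn : Pl.ConnSet H H.support := by
    have huS : u ∈ G.support \ {x, y} :=
      ⟨hH.2.1 hxu.mem_support_right, fun e => e.elim hxu.ne' hyu.ne'⟩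
    have k := ((h3 x y).insert huS hxu.symm).insert (Or.inr huS) hyu.symm
    have e : insert y (insert x (G.support \ {x, y})) = H.support := by
      rw [hsup]
      ext t
      simp only [Set.mem_insert_iff, Set.mem_sdiff, Set.mem_singleton_iff]
      constructor
      · rintro (rfl | rfl | ht)
        exacts [hH.2.1 hxy.mem_support_right, hH.2.1 hxy.mem_support_left, ht.1]
      · intro ht
        by_cases h1 : t = y
        · exact Or.inl h1
        by_cases h2 : t = x
        · exact Or.inr (Or.inl h2)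
        exact Or.inr (Or.inr ⟨ht, fun e => e.elim h2 h1⟩)
    rwa [e] at k
  have hlt : (H.map (Pl.contr {x, y} x)).support.ncard < n := by
    rw [← hn, ← hsup]
    refine Set.ncard_lt_ncard ⟨?_, fun hs => ?_⟩
    · rintro _ ⟨_, -, a, b, hab, rfl, rfl⟩
      by_cases ha : a ∈ ({x, y} : Set V)
      · rw [Pl.contr_of_mem ha]; exact hxy.mem_support_left
      · rw [Pl.contr_of_notMem ha]; exact hab.mem_support_left
    · obtain ⟨_, -, a, b, -, ha', rfl⟩ := hs hxy.mem_support_right
      by_cases ha : a ∈ ({x, y} : Set V)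
      · rw [Pl.contr_of_mem ha] at ha'; exact hxy.ne ha'
      · rw [Pl.contr_of_notMem ha] at ha'; exact ha (Or.inr ha')
  obtain ⟨σ, hσ⟩ := ih _ hlt (hH.1.map_contr (Pl.connSet_pair hxy) (Or.inl rfl)) rfl
  rcases exists_arcs hxy huv hcm hconn (plE_rect hH.1 hxy C hC hbd) hσ with hA | hA
  · exact zd_of_arcs hxy huv hcm hconn hσ hA
  · exact zd_of_arcs hxy huv.symm (fun a => (hcm a).trans or_comm) hconn hσ hA

omit [Finite V] in
theorem plE_planar_of_drawable (h : Drawable G) : Pl.Planar G := by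
  classical
  obtain ⟨p, γ, hp, h1, h2⟩ := h
  have hend : ∀ u v w, G.Adj u v → ∀ t, γ u v t = p w → w = u ∨ w = v := by
    intro u v w huv t ht
    obtain ⟨-, -, k0, k1, -, k⟩ := h1 u v huv
    rcases k t w ht with rfl | rfl
    · exact Or.inl (hp (ht.symm.trans k0))
    · exact Or.inr (hp (ht.symm.trans k1))
  refine (Pl.isVK_of_weakDrawing G p hp
    (fun x y => if G.Adj x y then Set.range (γ x y) else ∅) ?_ ?_ ?_ ?_).planar
  · intro x y
    by_cases hxy : G.Adj x y
    · rw [if_pos hxy, if_pos hxy.symm]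
      obtain ⟨-, -, -, -, k, -⟩ := h1 x y hxy
      ext q
      constructor
      · rintro ⟨t, rfl⟩
        exact ⟨unitInterval.symm t, by rw [k, unitInterval.symm_symm]⟩
      · rintro ⟨t, rfl⟩
        exact ⟨unitInterval.symm t, (k t).symm⟩
    · rw [if_neg hxy, if_neg fun h => hxy h.symm]
  · intro x y hxy
    rw [if_pos hxy]
    obtain ⟨kc, -, k0, k1, -, -⟩ := h1 x y hxy
    exact ⟨⟨⟨γ x y, kc⟩, k0, k1⟩, fun t => ⟨t, rfl⟩⟩
  · intro x y z hxy hzx hzy
    rw [if_pos hxy]
    rintro ⟨t, ht⟩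
    exact (hend x y z hxy t ht).elim hzx hzy
  · intro x y u v hxy huv hux huy hvx hvy
    rw [if_pos hxy, if_pos huv, Set.disjoint_left]
    rintro _ ⟨s, rfl⟩ ⟨t, ht⟩
    have hne : s(x, y) ≠ s(u, v) := by
      intro e
      rcases Sym2.eq_iff.1 e with ⟨e1, -⟩ | ⟨e1, -⟩
      exacts [hux e1.symm, hvx e1.symm]
    obtain ⟨-, -, k0, k1, -, -⟩ := h1 x y hxy
    rcases h2 x y u v hxy huv hne s t ht.symm with rfl | rfl
    · exact (hend u v x huv t (ht.trans k0)).elim (fun e => hux e.symm) fun e => hvx e.symm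
    · exact (hend u v y huv t (ht.trans k1)).elim (fun e => huy e.symm) fun e => hvy e.symm

theorem plE_drawable_of_planar (h : Pl.Planar G) : Drawable G := by
  obtain ⟨pos, hinj, hav, hcr⟩ := h.exists_straight
  have hseg : ∀ (u v : V) (t : unitInterval),
      AffineMap.lineMap (pos u) (pos v) (t : ℝ) ∈ segment ℝ (pos u) (pos v) := by
    intro u v t
    rw [segment_eq_image_lineMap]
    exact ⟨t, t.2, rfl⟩
  have hi : ∀ u v, G.Adj u v → Function.Injective
      fun t : unitInterval => AffineMap.lineMap (pos u) (pos v) (t : ℝ) := fun u v huv =>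
    (AffineMap.lineMap_injective ℝ fun e => huv.ne (hinj e)).comp Subtype.val_injective
  have hend : ∀ u v, G.Adj u v → ∀ (t : unitInterval) w,
      AffineMap.lineMap (pos u) (pos v) (t : ℝ) = pos w → t = 0 ∨ t = 1 := by
    intro u v huv t w ht
    by_cases h1 : w = u
    · left
      apply hi u v huv
      simp [ht, h1]
    by_cases h2 : w = v
    · right
      apply hi u v huv
      simp [ht, h2]
    exact absurd (ht ▸ hseg u v t) (hav u v w huv h1 h2)
  refine ⟨pos, fun u v t => AffineMap.lineMap (pos u) (pos v) (t : ℝ), hinj,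
    fun u v huv => ⟨?_, hi u v huv, by simp, by simp, fun t => ?_, hend u v huv⟩, ?_⟩
  · exact AffineMap.lineMap_continuous.comp continuous_subtype_val
  · simp only [unitInterval.coe_symm_eq, AffineMap.lineMap_apply_one_sub]
  · intro u v x y huv hxy hne s t hst
    obtain ⟨w, hw⟩ := hcr u v x y huv hxy hne _ (hseg u v s) (by
      have := hseg x y t
      dsimp only at hst
      rwa [← hst] at this)
    exact hend u v huv s w hw.symm

theorem drawable_iff_planar : Drawable G ↔ Pl.Planar G :=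
  ⟨plE_planar_of_drawable, plE_drawable_of_planar⟩

theorem drawable_iff_isPlanar : Drawable G ↔ IsPlanar G := by
  rw [drawable_iff_planar, isPlanar_iff_zd]
  exact ⟨zd_of_planar, ZD.planar⟩

end Pool.Agent.Lib.MP_77dff5_pr
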