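import Pool.Agent.Lib.MP_77dff5_pr.PermB

/-! Joining two stemmed maps along their stems. -/

set_option autoImplicit false

namespace Pool.Agent.Lib.MP_77dff5_pr

open Equiv Sum

section
variable {D D₁ D₂ : Type}

theorem rootB_sc_permCongr (u : D₁ ≃ D) (π : Perm D₁) (x y : D₁) :
    (u.permCongr π).SameCycle (u x) (u y) ↔ π.SameCycle x y := by
  have h : ∀ k : ℤ, (u.permCongr π) ^ k = u.permCongr (π ^ k) := fun k =>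
    (map_zpow u.permCongrHom π k).symm
  unfold Perm.SameCycle
  simp only [h, Equiv.permCongr_apply, Equiv.symm_apply_apply, EmbeddingLike.apply_eq_iff_eq]

theorem rootB_sum_zpow (π : Perm D₁) (ρ : Perm D₂) (k : ℤ) :
    (Perm.sumCongr π ρ) ^ k = Perm.sumCongr (π ^ k) (ρ ^ k) := by
  have h := map_zpow (Perm.sumCongrHom D₁ D₂) (π, ρ) k
  simpa using h.symm

theorem rootB_sc_ll (π : Perm D₁) (ρ : Perm D₂) (x y : D₁) :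
    (Perm.sumCongr π ρ).SameCycle (inl x) (inl y) ↔ π.SameCycle x y := by
  unfold Perm.SameCycle
  simp [rootB_sum_zpow]

theorem rootB_sc_rr (π : Perm D₁) (ρ : Perm D₂) (x y : D₂) :
    (Perm.sumCongr π ρ).SameCycle (inr x) (inr y) ↔ ρ.SameCycle x y := by
  unfold Perm.SameCycle
  simp [rootB_sum_zpow]

theorem rootB_sc_lr (π : Perm D₁) (ρ : Perm D₂) (x : D₁) (y : D₂) :
    ¬(Perm.sumCongr π ρ).SameCycle (inl x) (inr y) := by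
  unfold Perm.SameCycle
  simp [rootB_sum_zpow]

theorem rootB_sc_rl (π : Perm D₁) (ρ : Perm D₂) (x : D₂) (y : D₁) :
    ¬(Perm.sumCongr π ρ).SameCycle (inr x) (inl y) := fun h => rootB_sc_lr π ρ y x h.symm

/-- the join of two permutations along two points -/
def rootB_join [DecidableEq D] (u : D₁ ⊕ D₂ ≃ D) (s₁ : D₁) (s₂ : D₂) (σ₁ : Perm D₁)
    (σ₂ : Perm D₂) : Perm D :=
  u.permCongr (Perm.sumCongr σ₁ σ₂) * swap (u (inl s₁)) (u (inr s₂))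

variable [Finite D] [Finite D₁] [Finite D₂] [DecidableEq D] (u : D₁ ⊕ D₂ ≃ D) (s₁ : D₁) (s₂ : D₂)

omit [Finite D] [Finite D₁] [Finite D₂] [DecidableEq D] in
theorem rootB_not_sc (σ₁ : Perm D₁) (σ₂ : Perm D₂) :
    ¬(u.permCongr (Perm.sumCongr σ₁ σ₂)).SameCycle (u (inl s₁)) (u (inr s₂)) := by
  rw [rootB_sc_permCongr]; exact rootB_sc_lr _ _ _ _

omit [Finite D₁] [Finite D₂] in
theorem rootB_join_ll (σ₁ : Perm D₁) (σ₂ : Perm D₂) (x y : D₁) :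
    (rootB_join u s₁ s₂ σ₁ σ₂).SameCycle (u (inl x)) (u (inl y)) ↔ σ₁.SameCycle x y := by
  unfold rootB_join
  rw [sameCycle_mul_swap_of_not _ (rootB_not_sc u s₁ s₂ σ₁ σ₂)]
  simp only [rootB_sc_permCongr, rootB_sc_ll, rootB_sc_lr, and_false, false_and, or_false]

omit [Finite D₁] [Finite D₂] in
theorem rootB_join_rr (σ₁ : Perm D₁) (σ₂ : Perm D₂) (x y : D₂) :
    (rootB_join u s₁ s₂ σ₁ σ₂).SameCycle (u (inr x)) (u (inr y)) ↔ σ₂.SameCycle x y := by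
  unfold rootB_join
  rw [sameCycle_mul_swap_of_not _ (rootB_not_sc u s₁ s₂ σ₁ σ₂)]
  simp only [rootB_sc_permCongr, rootB_sc_rr, rootB_sc_rl, and_false, false_and, or_false]

omit [Finite D₁] [Finite D₂] in
theorem rootB_join_lr (σ₁ : Perm D₁) (σ₂ : Perm D₂) (x : D₁) (y : D₂) :
    (rootB_join u s₁ s₂ σ₁ σ₂).SameCycle (u (inl x)) (u (inr y)) ↔
      σ₁.SameCycle x s₁ ∧ σ₂.SameCycle y s₂ := by
  unfold rootB_join
  rw [sameCycle_mul_swap_of_not _ (rootB_not_sc u s₁ s₂ σ₁ σ₂)]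
  simp only [rootB_sc_permCongr, rootB_sc_ll, rootB_sc_rr, rootB_sc_lr, false_and,
    or_false, false_or]

theorem rootB_join_ncyc (σ₁ : Perm D₁) (σ₂ : Perm D₂) :
    ncyc (rootB_join u s₁ s₂ σ₁ σ₂) + 1 = ncyc σ₁ + ncyc σ₂ := by
  unfold rootB_join
  rw [ncyc_mul_swap_of_not _ (rootB_not_sc u s₁ s₂ σ₁ σ₂), ncyc_permCongr, ncyc_sumCongr]

omit [Finite D] [Finite D₁] [Finite D₂] in
theorem rootB_join_mul (σ₁ α₁ : Perm D₁) (σ₂ α₂ : Perm D₂) (h₁ : α₁ s₁ = s₁) (h₂ : α₂ s₂ = s₂) :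
    rootB_join u s₁ s₂ σ₁ σ₂ * rootB_join u s₁ s₂ α₁ α₂ =
      u.permCongr (Perm.sumCongr (σ₁ * α₁) (σ₂ * α₂)) := by
  unfold rootB_join
  have h : u.permCongr (Perm.sumCongr α₁ α₂) * swap (u (inl s₁)) (u (inr s₂)) =
      swap (u (inl s₁)) (u (inr s₂)) * u.permCongr (Perm.sumCongr α₁ α₂) := by
    rw [Equiv.mul_swap_eq_swap_mul]
    simp [h₁, h₂]
  rw [h, mul_assoc, ← mul_assoc (swap _ _), swap_mul_self, one_mul, ← Perm.sumCongr_mul]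
  exact (map_mul u.permCongrHom _ _).symm

variable {W W₁ W₂ : Type} {ν : D → W} {ν₁ : D₁ → W₁} {ν₂ : D₂ → W₂}

omit [Finite D₁] [Finite D₂] in
theorem rootB_isRot_iff
    (h11 : ∀ x y, ν (u (inl x)) = ν (u (inl y)) ↔ ν₁ x = ν₁ y)
    (h22 : ∀ x y, ν (u (inr x)) = ν (u (inr y)) ↔ ν₂ x = ν₂ y)
    (h12 : ∀ x y, ν (u (inl x)) = ν (u (inr y)) ↔ ν₁ x = ν₁ s₁ ∧ ν₂ y = ν₂ s₂)
    (σ₁ : Perm D₁) (σ₂ : Perm D₂) :
    IsRot ν (rootB_join u s₁ s₂ σ₁ σ₂) ↔ IsRot ν₁ σ₁ ∧ IsRot ν₂ σ₂ := by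
  constructor
  · intro h
    refine ⟨fun x y => ?_, fun x y => ?_⟩
    · rw [← h11, ← h, rootB_join_ll]
    · rw [← h22, ← h, rootB_join_rr]
  · rintro ⟨h1, h2⟩ x y
    obtain ⟨x, rfl⟩ := u.surjective x
    obtain ⟨y, rfl⟩ := u.surjective y
    rcases x with x | x <;> rcases y with y | y
    · rw [rootB_join_ll, h11, h1]
    · rw [rootB_join_lr, h12, h1, h2]
    · rw [Perm.sameCycle_comm, eq_comm, rootB_join_lr, h12, h1, h2]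
    · rw [rootB_join_rr, h22, h2]

theorem rootB_gen0_iff {σ₁ α₁ : Perm D₁} {σ₂ α₂ : Perm D₂} (h₁ : α₁ s₁ = s₁) (h₂ : α₂ s₂ = s₂)
    (t₁ : Trans2 σ₁ α₁) (t₂ : Trans2 σ₂ α₂) :
    Gen0 (rootB_join u s₁ s₂ σ₁ σ₂) (rootB_join u s₁ s₂ α₁ α₂) ↔ Gen0 σ₁ α₁ ∧ Gen0 σ₂ α₂ := by
  have e1 := euler_le_of_trans2 t₁
  have e2 := euler_le_of_trans2 t₂
  have e3 := rootB_join_ncyc u s₁ s₂ σ₁ σ₂
  have e4 := rootB_join_ncyc u s₁ s₂ α₁ α₂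
  have e5 : Nat.card D = Nat.card D₁ + Nat.card D₂ := by
    rw [← Nat.card_congr u, Nat.card_sum]
  unfold Gen0
  rw [rootB_join_mul u s₁ s₂ _ _ _ _ h₁ h₂, ncyc_permCongr, ncyc_sumCongr]
  omega

theorem rootB_count {α₁ : Perm D₁} {α₂ : Perm D₂}
    (h11 : ∀ x y, ν (u (inl x)) = ν (u (inl y)) ↔ ν₁ x = ν₁ y)
    (h22 : ∀ x y, ν (u (inr x)) = ν (u (inr y)) ↔ ν₂ x = ν₂ y)
    (h12 : ∀ x y, ν (u (inl x)) = ν (u (inr y)) ↔ ν₁ x = ν₁ s₁ ∧ ν₂ y = ν₂ s₂)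
    (h₁ : α₁ s₁ = s₁) (h₂ : α₂ s₂ = s₂) (c₁ : Conn ν₁ α₁) (c₂ : Conn ν₂ α₂) :
    emb ν₁ α₁ * emb ν₂ α₂ =
      Nat.card {σ : Perm D // (IsRot ν σ ∧ Gen0 σ (rootB_join u s₁ s₂ α₁ α₂)) ∧
        ∀ x, (u.symm ((σ * swap (u (inl s₁)) (u (inr s₂))) x)).isLeft = (u.symm x).isLeft} := by
  unfold emb
  rw [← Nat.card_prod]
  have key : ∀ (σ₁ : Perm D₁) (σ₂ : Perm D₂),
      (IsRot ν (rootB_join u s₁ s₂ σ₁ σ₂) ∧
        Gen0 (rootB_join u s₁ s₂ σ₁ σ₂) (rootB_join u s₁ s₂ α₁ α₂)) ↔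
      (IsRot ν₁ σ₁ ∧ Gen0 σ₁ α₁) ∧ (IsRot ν₂ σ₂ ∧ Gen0 σ₂ α₂) := by
    intro σ₁ σ₂
    rw [rootB_isRot_iff u s₁ s₂ h11 h22 h12]
    constructor
    · rintro ⟨⟨r1, r2⟩, g⟩
      rw [rootB_gen0_iff u s₁ s₂ h₁ h₂ ((conn_iff_trans2 r1 _).1 c₁)
        ((conn_iff_trans2 r2 _).1 c₂)] at g
      exact ⟨⟨r1, g.1⟩, r2, g.2⟩
    · rintro ⟨⟨r1, g1⟩, r2, g2⟩
      exact ⟨⟨r1, r2⟩, (rootB_gen0_iff u s₁ s₂ h₁ h₂ ((conn_iff_trans2 r1 _).1 c₁)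
        ((conn_iff_trans2 r2 _).1 c₂)).2 ⟨g1, g2⟩⟩
  have hj : ∀ (σ₁ : Perm D₁) (σ₂ : Perm D₂), rootB_join u s₁ s₂ σ₁ σ₂ *
      swap (u (inl s₁)) (u (inr s₂)) = u.permCongr (Perm.sumCongr σ₁ σ₂) := by
    intro σ₁ σ₂
    unfold rootB_join
    rw [mul_assoc, swap_mul_self, mul_one]
  refine Nat.card_congr (Equiv.ofBijective (fun p => ⟨rootB_join u s₁ s₂ p.1.1 p.2.1,
    (key _ _).2 ⟨p.1.2, p.2.2⟩, ?_⟩) ⟨?_, ?_⟩)
  · intro x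
    obtain ⟨x, rfl⟩ := u.surjective x
    rw [hj]
    rcases x with x | x <;> simp
  · rintro ⟨⟨σ₁, p₁⟩, σ₂, p₂⟩ ⟨⟨τ₁, q₁⟩, τ₂, q₂⟩ h
    have h1 : rootB_join u s₁ s₂ σ₁ σ₂ = rootB_join u s₁ s₂ τ₁ τ₂ := congrArg Subtype.val h
    have h2 : u.permCongr (Perm.sumCongr σ₁ σ₂) = u.permCongr (Perm.sumCongr τ₁ τ₂) := by
      rw [← hj, ← hj, h1]
    have h3 := u.permCongr.injective h2
    have h4 : (σ₁, σ₂) = (τ₁, τ₂) := Perm.sumCongrHom_injective h3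
    obtain ⟨rfl, rfl⟩ := Prod.mk.inj h4
    rfl
  · rintro ⟨σ, hσ, hp⟩
    have hm : Set.MapsTo (u.symm.permCongr (σ * swap (u (inl s₁)) (u (inr s₂))))
        (Set.range inl) (Set.range inl) := by
      rintro _ ⟨x, rfl⟩
      have := hp (u (inl x))
      rw [Equiv.symm_apply_apply, Sum.isLeft_inl, Sum.isLeft_iff] at this
      obtain ⟨y, hy⟩ := this
      exact ⟨y, by rw [← hy]; simp⟩
    obtain ⟨⟨σ₁, σ₂⟩, h⟩ := Perm.mem_sumCongrHom_range_of_perm_mapsTo_inl hm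
    have h' : rootB_join u s₁ s₂ σ₁ σ₂ = σ := by
      have h1 : Perm.sumCongr σ₁ σ₂ =
          u.symm.permCongr (σ * swap (u (inl s₁)) (u (inr s₂))) := h
      unfold rootB_join
      rw [h1, ← Equiv.permCongr_symm, Equiv.apply_symm_apply, mul_assoc, swap_mul_self, mul_one]
    have hk := (key σ₁ σ₂).1 (by rw [h']; exact hσ)
    exact ⟨(⟨σ₁, hk.1⟩, ⟨σ₂, hk.2⟩), Subtype.ext h'⟩

end

end Pool.Agent.Lib.MP_77dff5_pr
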