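import Mathlib

/-! Definitions used in the statement: planar graphs (genus zero rotation systems) and the number
of vertices of a given degree. -/

set_option autoImplicit false

namespace Pool.Agent.Lib.MP_77dff5_pr

/-- The number of cycles (orbits, fixed points included) of a permutation. -/
noncomputable def ncyc {D : Type} (π : Equiv.Perm D) : ℕ :=
  Nat.card (Quotient (Equiv.Perm.SameCycle.setoid π))

/-- Reversal of the darts (oriented edges) of a graph. -/
def rev {V : Type} (G : SimpleGraph V) : Equiv.Perm G.Dart :=
  (SimpleGraph.Dart.symm_involutive (G := G)).toPerm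

/-- A finite graph is planar if it has a rotation system (a permutation `σ` of the darts whose
cycles are the sets of darts leaving a common vertex) of genus zero: the faces are the cycles of
`σ ∘ rev`, an isolated vertex has one face, and Euler's relation `V - E + F = 2` holds for every
connected component, that is, `V - E + F = 2 C` in total. -/
def IsPlanar {V : Type} (G : SimpleGraph V) : Prop :=
  ∃ σ : Equiv.Perm G.Dart, (∀ x y, σ.SameCycle x y ↔ x.fst = y.fst) ∧
    Nat.card V + (ncyc (σ * rev G) + {v | ∀ w, ¬G.Adj v w}.ncard) =
      G.edgeSet.ncard + 2 * Nat.card G.ConnectedComponent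

/-- The labelled planar graphs on `n` vertices. -/
abbrev PlanarGraph (n : ℕ) : Type := {G : SimpleGraph (Fin n) // IsPlanar G}

/-- The number of vertices of degree `k`. -/
noncomputable def degCount {n : ℕ} (k : ℕ) (G : PlanarGraph n) : ℝ :=
  {v | (G.1.neighborSet v).ncard = k}.ncard

/-- Expectation under the uniform law on labelled planar graphs with `n` vertices. -/
noncomputable def avg (n : ℕ) (X : PlanarGraph n → ℝ) : ℝ :=
  (∑ᶠ G, X G) / Nat.card (PlanarGraph n)

/-- Mean of the number of vertices of degree `k`. -/
noncomputable def meanX (k n : ℕ) : ℝ := avg n (degCount k)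

/-- Variance of the number of vertices of degree `k`. -/
noncomputable def varX (k n : ℕ) : ℝ := avg n fun G => (degCount k G - meanX k n) ^ 2

/-- Probability that the standardised number of vertices of degree `k` is at most `a`. -/
noncomputable def cdfX (k n : ℕ) (a : ℝ) : ℝ :=
  ({G : PlanarGraph n | (degCount k G - meanX k n) / √(varX k n) ≤ a}.ncard : ℝ) /
    Nat.card (PlanarGraph n)

end Pool.Agent.Lib.MP_77dff5_pr
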