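import Pool.Agent.Lib.MP_77dff5_pr.SumsA

/-! Good and bad points for the change of scale. -/

set_option autoImplicit false

namespace Pool.Agent.Lib.MP_77dff5_pr

open MeasureTheory Filter Topology
open scoped ENNReal NNReal

variable {T : Type} {pos pos' : T → ℝ}

theorem sumsB_ev (K : ℝ) {a : ℝ} (ha : 0 < a) : ∀ᶠ y : ℝ in atTop, K ≤ y ^ a :=
  (tendsto_rpow_atTop ha).eventually_ge_atTop K

theorem sumsB_ev2 (K : ℝ) {δ a b : ℝ} (hδ : 0 < δ) (hab : a < b) :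
    ∀ᶠ y : ℝ in atTop, K * y ^ a ≤ δ * y ^ b := by
  filter_upwards [sumsB_ev (K / δ) (sub_pos.2 hab), eventually_gt_atTop 0] with y h hy
  rw [div_le_iff₀ hδ] at h
  have e : y ^ b = y ^ (b - a) * y ^ a := by rw [← Real.rpow_add hy, sub_add_cancel]
  rw [e, ← mul_assoc]
  exact mul_le_mul_of_nonneg_right (by linarith) (Real.rpow_nonneg hy.le _)

theorem sumsB_ev3 (K : ℝ) {δ : ℝ} (hδ : 0 < δ) :
    ∀ᶠ y : ℝ in atTop, K * y ^ (2 / 3 : ℝ) ≤ δ * y := by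
  simpa using sumsB_ev2 K hδ (a := 2 / 3) (b := 1) (by norm_num)

theorem sumsB_pow (y : ℝ) (hy : 0 ≤ y) (a : ℝ) (n : ℕ) : (y ^ a) ^ n = y ^ (a * n) := by
  rw [← Real.rpow_natCast, ← Real.rpow_mul hy]

theorem sumsB_good {c : T → ℝ≥0∞} {e α : ℝ} (h : WinB pos c e) (hα : 0 < α) {K : ℝ}
    (hK : 0 ≤ K) : ∃ A : ℝ, 0 ≤ A ∧ ∀ᶠ y : ℝ in atTop,
      ∑' t : {t | |α * pos t - y| ≤ K * y ^ (2 / 3 : ℝ)}, c t ≤ ENNReal.ofReal (A * y ^ e) := by
  obtain ⟨A, hA⟩ := h.near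
  refine ⟨|A / α ^ e * (1 + 2 * K / α * α ^ (2 / 3 : ℝ))|, abs_nonneg _, ?_⟩
  filter_upwards [sumsB_ev3 K (δ := 1 / 2) (by norm_num), eventually_ge_atTop (2 * α)]
    with y h1 h2
  have hy : 0 < y := by linarith
  have hs : 0 < y ^ (2 / 3 : ℝ) := Real.rpow_pos_of_pos hy _
  have hKs : 0 ≤ K * y ^ (2 / 3 : ℝ) := by positivity
  have := hA (y / α) (by rw [le_div_iff₀ hα]; exact h2) ((y - K * y ^ (2 / 3 : ℝ)) / α)
    ((y + K * y ^ (2 / 3 : ℝ)) / α)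
    (by rw [div_right_comm]; exact div_le_div_of_nonneg_right (by linarith) hα.le)
    (div_le_div_of_nonneg_right (by linarith) hα.le)
    (by rw [← mul_div_assoc]; exact div_le_div_of_nonneg_right (by linarith) hα.le)
  refine le_trans (ENNReal.tsum_mono_subtype c (t := {t | (y - K * y ^ (2 / 3 : ℝ)) / α ≤ pos t ∧
    pos t ≤ (y + K * y ^ (2 / 3 : ℝ)) / α}) fun t ht => ?_) (this.trans
      (ENNReal.ofReal_le_ofReal ?_))
  · have := abs_le.1 (show |α * pos t - y| ≤ K * y ^ (2 / 3 : ℝ) from ht)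
    constructor
    · rw [div_le_iff₀ hα]; linarith [this.1]
    · rw [le_div_iff₀ hα]; linarith [this.2]
  · refine le_trans (le_of_eq ?_) (mul_le_mul_of_nonneg_right (le_abs_self _)
      (Real.rpow_nonneg hy.le e))
    have h3 : 0 < α ^ (2 / 3 : ℝ) := Real.rpow_pos_of_pos hα _
    have h4 : 0 < α ^ e := Real.rpow_pos_of_pos hα _
    rw [Real.div_rpow hy.le hα.le, Real.div_rpow hy.le hα.le]
    field_simp
    ring

theorem sumsB_bad {w : T → ℝ≥0∞} {U : T → ℝ} (h1 : ∀ t, 1 ≤ pos t)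
    (hU : DyB pos (fun t => w t * ENNReal.ofReal (U t ^ 6)) (3 / 2)) {K δ : ℝ} (hK : 1 ≤ K)
    (hδ : 0 < δ) : ∃ A : ℝ, 0 ≤ A ∧ ∀ y : ℝ, 1 ≤ y →
      ∑' t : {t | pos t ≤ K * y ∧ δ * y ^ (2 / 3 : ℝ) < |U t|}, w t
        ≤ ENNReal.ofReal (A * y ^ (-(5 / 2) : ℝ)) := by
  obtain ⟨A, hA⟩ := hU.head (by norm_num)
  refine ⟨|A| * K ^ (3 / 2 : ℝ) / δ ^ 6, by positivity, fun y hy => ?_⟩
  have hy0 : 0 < y := by linarith
  have hs : 0 < δ * y ^ (2 / 3 : ℝ) := by positivity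
  have h2 := hA (K * y) (by nlinarith)
  calc _ ≤ ∑' t : {t | pos t ≤ K * y ∧ δ * y ^ (2 / 3 : ℝ) < |U t|},
        ENNReal.ofReal (((δ * y ^ (2 / 3 : ℝ)) ^ 6)⁻¹) * (w t * ENNReal.ofReal (U t ^ 6)) := by
        refine ENNReal.tsum_le_tsum fun t => ?_
        rw [mul_left_comm, ← ENNReal.ofReal_mul (by positivity)]
        refine le_mul_of_one_le_right' (ENNReal.one_le_ofReal.2 ?_)
        rw [← div_eq_inv_mul, one_le_div (by positivity)]
        calc _ ≤ |U t| ^ 6 := pow_le_pow_left₀ hs.le t.2.2.le 6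
          _ = _ := Even.pow_abs (by decide) _
    _ ≤ ENNReal.ofReal (((δ * y ^ (2 / 3 : ℝ)) ^ 6)⁻¹) *
          ENNReal.ofReal (A * (K * y) ^ (3 / 2 : ℝ)) := by
        rw [ENNReal.tsum_mul_left]
        gcongr
        exact le_trans (ENNReal.tsum_mono_subtype (fun t => w t * ENNReal.ofReal (U t ^ 6))
          (t := {t | 1 ≤ pos t ∧ pos t ≤ K * y}) fun t ht => ⟨h1 t, ht.1⟩) h2
    _ ≤ _ := by
        rw [← ENNReal.ofReal_mul (by positivity)]
        refine ENNReal.ofReal_le_ofReal ?_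
        have e1 : y ^ (-(5 / 2) : ℝ) = y ^ (3 / 2 : ℝ) / (y ^ (2 / 3 : ℝ)) ^ 6 := by
          rw [sumsB_pow y hy0.le, ← Real.rpow_sub hy0]
          norm_num
        rw [e1, Real.mul_rpow (by linarith) hy0.le]
        calc _ ≤ ((δ * y ^ (2 / 3 : ℝ)) ^ 6)⁻¹ * (|A| * (K ^ (3 / 2 : ℝ) * y ^ (3 / 2 : ℝ))) := by
              gcongr
              exact le_abs_self A
          _ = _ := by field_simp

theorem sumsB_of_ev {c : T → ℝ≥0∞} {e A : ℝ} (h : DyB pos c (e + 1 / 3))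
    (h' : ∀ᶠ y : ℝ in atTop, ∑' t : {t | y ≤ pos t ∧ pos t ≤ y + y ^ (2 / 3 : ℝ)}, c t
      ≤ ENNReal.ofReal (A * y ^ e)) : WinB pos c e := by
  obtain ⟨B, hB⟩ := h
  obtain ⟨y0, hy0⟩ := eventually_atTop.1 h'
  refine ⟨max A (|B| * |y0| ^ (1 / 3 : ℝ)), fun y hy => ?_⟩
  have hy' : 0 < y := by linarith
  have he : 0 ≤ y ^ e := Real.rpow_nonneg hy'.le e
  by_cases a : y0 ≤ y
  · exact (hy0 y a).trans (ENNReal.ofReal_le_ofReal
      (mul_le_mul_of_nonneg_right (le_max_left _ _) he))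
  · have h3 : y ^ (2 / 3 : ℝ) ≤ y := by
      simpa using Real.rpow_le_rpow_of_exponent_le hy (by norm_num : (2 / 3 : ℝ) ≤ 1)
    refine le_trans (ENNReal.tsum_mono_subtype c (t := {t | y ≤ pos t ∧ pos t ≤ 2 * y})
      fun t ht => ⟨ht.1, by linarith [ht.2]⟩) ((hB y hy).trans (ENNReal.ofReal_le_ofReal ?_))
    refine le_trans ?_ (mul_le_mul_of_nonneg_right (le_max_right _ _) he)
    rw [Real.rpow_add hy', mul_assoc, mul_comm (y ^ e)]
    have h4 : y ^ (1 / 3 : ℝ) ≤ |y0| ^ (1 / 3 : ℝ) :=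
      Real.rpow_le_rpow hy'.le (by linarith [le_abs_self y0]) (by norm_num)
    gcongr
    exact le_abs_self B

theorem sumsB_goodLLN {w : T → ℝ≥0∞} {X : T → ℝ} {e α : ℝ} (h : WinLLN pos w X e) (hα : 0 < α)
    {K ε δ : ℝ} (hK : 0 ≤ K) (hε : 0 < ε) (hδ : 0 < δ) : ∀ᶠ y : ℝ in atTop,
      ∑' t : {t | |α * pos t - y| ≤ K * y ^ (2 / 3 : ℝ) ∧ ε * y < |X t - e * pos t|}, w t
        ≤ ENNReal.ofReal (δ * y ^ (-(11 / 6) : ℝ)) := by
  have hβ : 0 < (2 * α) ^ (2 / 3 : ℝ) := by positivity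
  have hγ : 0 < (2 * α) ^ (-(11 / 6) : ℝ) := by positivity
  obtain ⟨N, hN⟩ := exists_nat_gt (2 * K / α * (2 * α) ^ (2 / 3 : ℝ))
  have hN0 : (0 : ℝ) < N := lt_of_le_of_lt (by positivity) hN
  obtain ⟨y0, hy0⟩ := eventually_atTop.1 (h (ε * α / 2) (δ * (2 * α) ^ (-(11 / 6) : ℝ) / N)
    (by positivity) (by positivity))
  filter_upwards [sumsB_ev3 K (δ := 1 / 2) (by norm_num), eventually_ge_atTop (2 * α * y0),
    eventually_gt_atTop 0, sumsB_ev3 (N / (2 * α) ^ (2 / 3 : ℝ)) (δ := 1 / α) (by positivity)]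
    with y h1 h2 hy h3
  have hs : 0 < y ^ (2 / 3 : ℝ) := Real.rpow_pos_of_pos hy _
  have hKs : 0 ≤ K * y ^ (2 / 3 : ℝ) := by positivity
  obtain ⟨a, ha⟩ : ∃ a, a = (y - K * y ^ (2 / 3 : ℝ)) / α := ⟨_, rfl⟩
  obtain ⟨b, hb⟩ : ∃ b, b = (y / (2 * α)) ^ (2 / 3 : ℝ) := ⟨_, rfl⟩
  have hb0 : 0 < b := by rw [hb]; positivity
  have hb1 : b = y ^ (2 / 3 : ℝ) / (2 * α) ^ (2 / 3 : ℝ) := by
    rw [hb, Real.div_rpow hy.le (by positivity)]
  have ha1 : y / (2 * α) ≤ a := by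
    rw [ha, ← div_div]
    exact div_le_div_of_nonneg_right (by linarith) hα.le
  have ha2 : a ≤ y / α := by
    rw [ha]
    exact div_le_div_of_nonneg_right (by linarith) hα.le
  have hNb : N * b ≤ y / α := by
    rw [hb1]
    calc _ = N / (2 * α) ^ (2 / 3 : ℝ) * y ^ (2 / 3 : ℝ) := by ring
      _ ≤ _ := h3
      _ = _ := by ring
  have hNb2 : 2 * K * y ^ (2 / 3 : ℝ) / α < N * b := by
    rw [hb1]
    calc _ = 2 * K / α * (2 * α) ^ (2 / 3 : ℝ) * (y ^ (2 / 3 : ℝ) / (2 * α) ^ (2 / 3 : ℝ)) := by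
          field_simp
      _ < _ := mul_lt_mul_of_pos_right hN (by positivity)
  have hz : ∀ j : ℕ, y / (2 * α) ≤ a + j * b := fun j => by
    have : 0 ≤ j * b := by positivity
    linarith
  have hy2 : 0 < y / (2 * α) := by positivity
  calc _ ≤ ∑' t : ⋃ j ∈ Finset.range N, {t | a + j * b ≤ pos t ∧
          pos t ≤ a + j * b + (a + j * b) ^ (2 / 3 : ℝ) ∧
          ε * α / 2 * (a + j * b) < |X t - e * pos t|}, w t := by
        refine ENNReal.tsum_mono_subtype w fun t ht => ?_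
        obtain ⟨p1, p2⟩ := ht
        have p3 := abs_le.1 p1
        have q1 : a ≤ pos t := by rw [ha, div_le_iff₀ hα]; linarith [p3.1]
        have q2 : pos t - a ≤ 2 * K * y ^ (2 / 3 : ℝ) / α := by
          rw [ha, le_div_iff₀ hα, sub_mul, div_mul_cancel₀ _ hα.ne']; linarith [p3.2]
        have q3 : 0 ≤ (pos t - a) / b := div_nonneg (by linarith) hb0.le
        have q4 := Nat.floor_le q3
        have q5 := Nat.lt_floor_add_one ((pos t - a) / b)
        rw [le_div_iff₀ hb0] at q4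
        rw [div_lt_iff₀ hb0] at q5
        have q6 : (⌊(pos t - a) / b⌋₊ : ℝ) < N := lt_of_mul_lt_mul_right (by linarith) hb0.le
        have q7 : b ≤ (a + ⌊(pos t - a) / b⌋₊ * b) ^ (2 / 3 : ℝ) :=
          hb.le.trans (Real.rpow_le_rpow hy2.le (hz _) (by norm_num))
        have q8 : (⌊(pos t - a) / b⌋₊ : ℝ) * b ≤ N * b := mul_le_mul_of_nonneg_right q6.le hb0.le
        simp only [Set.mem_iUnion, Finset.mem_range, Set.mem_ofPred_eq]
        refine ⟨⌊(pos t - a) / b⌋₊, by exact_mod_cast q6, by linarith, by linarith,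
          lt_of_le_of_lt ?_ p2⟩
        calc _ ≤ ε * α / 2 * (2 * (y / α)) := mul_le_mul_of_nonneg_left (by linarith)
              (by positivity)
          _ = _ := by field_simp
    _ ≤ ∑ _j ∈ Finset.range N, ENNReal.ofReal (δ * y ^ (-(11 / 6) : ℝ) / N) := by
        refine (ENNReal.tsum_biUnion_le w _ _).trans (Finset.sum_le_sum fun j _ => ?_)
        refine (hy0 (a + j * b) (le_trans (by rw [le_div_iff₀ (by positivity)]; linarith)
          (hz j))).trans (ENNReal.ofReal_le_ofReal ?_)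
        have := Real.rpow_le_rpow_of_nonpos hy2 (hz j) (by norm_num : (-(11 / 6) : ℝ) ≤ 0)
        rw [Real.div_rpow hy.le (by positivity)] at this
        calc _ ≤ δ * (2 * α) ^ (-(11 / 6) : ℝ) / N *
              (y ^ (-(11 / 6) : ℝ) / (2 * α) ^ (-(11 / 6) : ℝ)) :=
              mul_le_mul_of_nonneg_left this (by positivity)
          _ = _ := by field_simp
    _ = _ := by
        rw [Finset.sum_const, Finset.card_range, nsmul_eq_mul, ← ENNReal.ofReal_natCast,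
          ← ENNReal.ofReal_mul hN0.le]
        congr 1
        field_simp

end Pool.Agent.Lib.MP_77dff5_pr
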