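import Pool.Agent.Lib.MP_77dff5_pr.UDefs
import Pool.Agent.Lib.MP_77dff5_pr.Jump
import Pool.Agent.Lib.MP_77dff5_pr.Family
import Pool.Agent.Lib.MP_77dff5_pr.WinC
import Pool.Agent.Lib.MP_77dff5_pr.WinH
import Pool.Agent.Lib.MP_77dff5_pr.LinA

/-! Systems: local bounds. -/

set_option autoImplicit false

namespace Pool.Agent.Lib.MP_77dff5_pr

open MeasureTheory ProbabilityTheory Filter Topology
open scoped ENNReal NNReal

theorem sysC_ch_zero (μ : Measure (ℕ × ℝ)) (n : ℕ) : ch μ n 0 = (pm μ n : ℂ) := by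
  simp [ch, pm]

theorem sysC_pm_nonneg (μ : Measure (ℕ × ℝ)) (n : ℕ) : 0 ≤ pm μ n := measureReal_nonneg

theorem sysC_pm_add (μ μ' : Measure (ℕ × ℝ)) [IsFiniteMeasure μ] [IsFiniteMeasure μ'] (n : ℕ) :
    pm (μ + μ') n = pm μ n + pm μ' n := by
  unfold pm
  exact measureReal_add_apply (measure_ne_top _ _) (measure_ne_top _ _)

theorem sysC_m2_add (μ μ' : Measure (ℕ × ℝ)) (n : ℕ) (κ : ℝ) :
    m2 (μ + μ') n κ = m2 μ n κ + m2 μ' n κ := by
  unfold m2
  rw [Measure.restrict_add, lintegral_add_measure]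

theorem sysC_psi_nonneg (κ u : ℝ) : 0 ≤ psi κ u := sq_nonneg _

theorem sysC_psi_zero (u : ℝ) : psi 0 u = u ^ 2 := by
  unfold psi
  rw [sub_zero, max_eq_left (abs_nonneg u), sq_abs]

theorem sysC_psi_meas (κ : ℝ) : Measurable (psi κ) := by
  unfold psi
  fun_prop

theorem sysC_psi_le (n : ℕ) (u : ℝ) : psi 0 (u / √n) ≤ u ^ 2 := by
  rw [sysC_psi_zero, div_pow, Real.sq_sqrt (Nat.cast_nonneg n)]
  rcases Nat.eq_zero_or_pos n with rfl | hn
  · simpa using sq_nonneg u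
  · exact div_le_self (sq_nonneg u) (by exact_mod_cast hn)

theorem sysC_m2_ne_top {μ : Measure (ℕ × ℝ)} (h : MemLp (fun p => p.2) 2 μ) (n : ℕ) :
    m2 μ n 0 ≠ ⊤ := by
  have h1 := h.integrable_sq.2
  rw [hasFiniteIntegral_iff_ofReal (Eventually.of_forall fun p => sq_nonneg _)] at h1
  refine ne_top_of_le_ne_top h1.ne ?_
  unfold m2
  refine le_trans (lintegral_mono fun p => ENNReal.ofReal_le_ofReal (sysC_psi_le n p.2)) ?_
  exact setLIntegral_le_lintegral _ _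

theorem sysC_sq_add {η : ℝ} (hη : 0 < η) (u b : ℝ) :
    (u + b) ^ 2 ≤ (1 + η) * u ^ 2 + (1 + η⁻¹) * b ^ 2 := by
  have h1 : 0 ≤ (η * u - b) ^ 2 / η := by positivity
  have h2 : (η * u - b) ^ 2 / η = η * u ^ 2 - 2 * u * b + η⁻¹ * b ^ 2 := by
    field_simp
    ring
  nlinarith

theorem sysC_sub_pos {n l : ℕ} (hn : 1 ≤ n) (hl : l ∈ Finset.range ((n + 1) / 2)) :
    1 ≤ n - l := by
  have := Finset.mem_range.1 hl
  omega

variable {Ω J K : Type} [Countable Ω] [MeasurableSpace Ω] [DiscreteMeasurableSpace Ω] [Fintype J]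
  [Fintype K] {ν : J → Measure Ω} {s : Ω → ℕ} {z : Ω → ℝ} {F : K → Fam Ω J} {c : J → K → ℝ≥0}
  {k₀ : K} {j₀ : J} {Δ : ℕ} {B A c₀ : ℝ}

omit [Fintype J] in
theorem sysC_slaw_mem (h : Slots ν s z) (j : J) : MemLp (fun p => p.2) 2 (slaw (ν j) s z) := by
  unfold slaw
  rw [memLp_map_measure_iff measurable_snd.aestronglyMeasurable
    (measurable_of_countable _).aemeasurable]
  exact h.mem_z j

/-- the convolution of a family against a bounded sequence -/
theorem sysC_conv (hν : ∀ j, IsProbabilityMeasure (ν j)) {G : Fam Ω J} (hG : G.Good Δ B)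
    {u : J → ℕ → ℝ} {M : ℝ} (hM : 0 ≤ M)
    (hu : ∀ j, ∀ n : ℕ, 1 ≤ n → u j n ≤ M * (n : ℝ) ^ (-(5 / 2) : ℝ)) :
    ∀ᶠ n : ℕ in atTop, ∑ j, ∑ l ∈ Finset.range ((n + 1) / 2), G.aa ν s j l * u j (n - l) ≤
      (M * ∑ j, (G.acoef j + 1)) * (n : ℝ) ^ (-(5 / 2) : ℝ) := by
  have h1 : ∀ᶠ n : ℕ in atTop, ∀ j, ∑ l ∈ Finset.range ((n + 1) / 2),
      G.aa ν s j l * ((n - l : ℕ) : ℝ) ^ (-(5 / 2) : ℝ) ≤
        (G.acoef j + 1) * (n : ℝ) ^ (-(5 / 2) : ℝ) :=
    eventually_all.2 fun j =>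
      conv_le (Fam.hasSum_aa (s := s) hν hG j).1 (Fam.hasSum_aa (s := s) hν hG j).2 one_pos
  filter_upwards [h1, eventually_ge_atTop 1] with n hn hn1
  rw [mul_assoc, Finset.sum_mul, Finset.mul_sum]
  refine Finset.sum_le_sum fun j _ => ?_
  refine le_trans ?_ (mul_le_mul_of_nonneg_left (hn j) hM)
  rw [Finset.mul_sum]
  refine Finset.sum_le_sum fun l hl => ?_
  have h2 := hu j (n - l) (sysC_sub_pos hn1 hl)
  have h3 := (Fam.hasSum_aa (s := s) hν hG j).1 l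
  calc G.aa ν s j l * u j (n - l)
      ≤ G.aa ν s j l * (M * ((n - l : ℕ) : ℝ) ^ (-(5 / 2) : ℝ)) :=
        mul_le_mul_of_nonneg_left h2 h3
    _ = _ := by ring

omit [Countable Ω] [DiscreteMeasurableSpace Ω] in
theorem sysC_swap (i : J) (u : J → ℕ → ℝ) (R : Finset ℕ) :
    ∑ k, (c i k : ℝ) * ∑ j, ∑ l ∈ R, (F k).aa ν s j l * u j l =
      ∑ j, ∑ l ∈ R, (∑ k, (c i k : ℝ) * (F k).aa ν s j l) * u j l := by
  simp only [Finset.mul_sum, Finset.sum_mul]
  rw [Finset.sum_comm]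
  refine Finset.sum_congr rfl fun j _ => ?_
  rw [Finset.sum_comm]
  refine Finset.sum_congr rfl fun l _ => Finset.sum_congr rfl fun k _ => by ring

/-- the abstract closing step -/
theorem sysC_close (H : SysOK ν s z F c k₀ j₀ Δ B) (u : J → ℕ → ℝ) (hu0 : ∀ j n, 0 ≤ u j n)
    (v : K → ℕ → ℝ)
    (hD : ∀ ε : ℝ, 0 < ε → ∃ b : ℝ, ∀ᶠ n : ℕ in atTop, ∀ i,
      u i n ≤ (1 + ε) * ∑ k, (c i k : ℝ) * v k n + b * (n : ℝ) ^ (-(5 / 2) : ℝ))
    (hv : ∀ ε : ℝ, 0 < ε → ∃ b : ℝ, ∀ᶠ n : ℕ in atTop, ∀ k, ∀ M : ℝ, 0 ≤ M →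
      (∀ j, ∀ l : ℕ, 1 ≤ l → l ≤ n → u j l ≤ M * (l : ℝ) ^ (-(5 / 2) : ℝ)) →
      v k n ≤ (1 + ε) * ∑ j, ∑ l ∈ Finset.range ((n + 1) / 2), (F k).aa ν s j l * u j (n - l) +
        (b + ε * M) * (n : ℝ) ^ (-(5 / 2) : ℝ)) :
    (∃ M : ℝ, 0 ≤ M ∧ ∀ j, ∀ n : ℕ, 1 ≤ n → u j n ≤ M * (n : ℝ) ^ (-(5 / 2) : ℝ)) ∧
      ∀ k, ∃ M : ℝ, ∀ n : ℕ, 1 ≤ n → v k n ≤ M * (n : ℝ) ^ (-(5 / 2) : ℝ) := by
  classical
  have hν := H.slots.prob
  have haa := fun k j => Fam.hasSum_aa (s := s) hν (H.good k) j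
  have main : ∃ M : ℝ, 0 ≤ M ∧ ∀ j, ∀ n : ℕ, 1 ≤ n → u j n ≤ M * (n : ℝ) ^ (-(5 / 2) : ℝ) := by
    obtain ⟨m, hm, hl⟩ := H.lyap
    obtain ⟨ε, hε, hb⟩ := lin_bound (sysA F c) (fun i j l => ∑ k, (c i k : ℝ) * (F k).aa ν s j l)
      (fun i j l => Finset.sum_nonneg fun k _ => mul_nonneg (c i k).coe_nonneg ((haa k j).1 l))
      (fun i j => hasSum_sum fun k _ => (haa k j).2.mul_left _) m hm hl
    obtain ⟨C, hC⟩ : ∃ C : ℝ, C = 1 + ∑ i, ∑ k, (c i k : ℝ) := ⟨_, rfl⟩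
    have hCi : ∀ i, ∑ k, (c i k : ℝ) ≤ C - 1 := fun i => by
      have := Finset.single_le_sum (f := fun i => ∑ k, (c i k : ℝ))
        (fun i _ => Finset.sum_nonneg fun k _ => (c i k).coe_nonneg) (Finset.mem_univ i)
      linarith
    have hC1 : 1 ≤ C := by
      have : 0 ≤ ∑ i, ∑ k, (c i k : ℝ) :=
        Finset.sum_nonneg fun i _ => Finset.sum_nonneg fun k _ => (c i k).coe_nonneg
      linarith
    obtain ⟨η, hη0, hη1, hη2, hη3⟩ : ∃ η : ℝ, 0 < η ∧ η ≤ 1 ∧ (1 + η) * (1 + η) ≤ 1 + ε ∧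
        2 * C * η ≤ ε := by
      refine ⟨min 1 (ε / (3 * C)), lt_min one_pos (by positivity), min_le_left _ _, ?_, ?_⟩
      · have a1 : min 1 (ε / (3 * C)) ≤ 1 := min_le_left _ _
        have a2 : min 1 (ε / (3 * C)) ≤ ε / (3 * C) := min_le_right _ _
        have a3 : ε / (3 * C) ≤ ε / 3 := div_le_div_of_nonneg_left hε.le (by norm_num) (by linarith)
        have a4 : 0 < min 1 (ε / (3 * C)) := lt_min one_pos (by positivity)
        nlinarith
      · have a2 : min 1 (ε / (3 * C)) ≤ ε / (3 * C) := min_le_right _ _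
        have a5 : 2 * C * (ε / (3 * C)) = 2 * ε / 3 := by field_simp
        have a6 := mul_le_mul_of_nonneg_left a2 (by positivity : (0 : ℝ) ≤ 2 * C)
        linarith
    obtain ⟨b1, hb1⟩ := hD η hη0
    obtain ⟨b2, hb2⟩ := hv η hη0
    obtain ⟨M, hM⟩ := hb u (b1 + 2 * C * |b2|) hu0 (by
      filter_upwards [hb1, hb2] with n h1 h2 M hM0 hM i
      have hp : 0 ≤ (n : ℝ) ^ (-(5 / 2) : ℝ) := by positivity
      obtain ⟨S, hS⟩ : ∃ S : K → ℝ, S = fun k =>
        ∑ j, ∑ l ∈ Finset.range ((n + 1) / 2), (F k).aa ν s j l * u j (n - l) := ⟨_, rfl⟩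
      have e1 := sysC_swap (ν := ν) (s := s) (F := F) (c := c) i (fun j l => u j (n - l))
        (Finset.range ((n + 1) / 2))
      rw [← e1]
      have hS0 : ∀ k, 0 ≤ S k := fun k => by
        rw [hS]
        exact Finset.sum_nonneg fun j _ => Finset.sum_nonneg fun l _ =>
          mul_nonneg ((haa k j).1 l) (hu0 _ _)
      have e2 : ∑ k, (c i k : ℝ) * ∑ j, ∑ l ∈ Finset.range ((n + 1) / 2),
          (F k).aa ν s j l * u j (n - l) = ∑ k, (c i k : ℝ) * S k := by rw [hS]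
      rw [e2]
      have hT0 : 0 ≤ ∑ k, (c i k : ℝ) * S k :=
        Finset.sum_nonneg fun k _ => mul_nonneg (c i k).coe_nonneg (hS0 k)
      have hE0 : 0 ≤ (|b2| + η * M) * (n : ℝ) ^ (-(5 / 2) : ℝ) := by positivity
      have h3 : ∑ k, (c i k : ℝ) * v k n ≤ (1 + η) * ∑ k, (c i k : ℝ) * S k +
          C * ((|b2| + η * M) * (n : ℝ) ^ (-(5 / 2) : ℝ)) := by
        calc ∑ k, (c i k : ℝ) * v k n
            ≤ ∑ k, (c i k : ℝ) * ((1 + η) * S k + (|b2| + η * M) * (n : ℝ) ^ (-(5 / 2) : ℝ)) := by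
              refine Finset.sum_le_sum fun k _ => mul_le_mul_of_nonneg_left ?_ (c i k).coe_nonneg
              have h4 := h2 k M hM0 hM
              have h5 : (b2 + η * M) * (n : ℝ) ^ (-(5 / 2) : ℝ) ≤
                  (|b2| + η * M) * (n : ℝ) ^ (-(5 / 2) : ℝ) :=
                mul_le_mul_of_nonneg_right (by linarith [le_abs_self b2]) hp
              rw [hS]
              linarith
          _ = (1 + η) * ∑ k, (c i k : ℝ) * S k +
              (∑ k, (c i k : ℝ)) * ((|b2| + η * M) * (n : ℝ) ^ (-(5 / 2) : ℝ)) := by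
              rw [Finset.mul_sum, Finset.sum_mul, ← Finset.sum_add_distrib]
              exact Finset.sum_congr rfl fun k _ => by ring
          _ ≤ _ := by
              have := mul_le_mul_of_nonneg_right (show ∑ k, (c i k : ℝ) ≤ C by linarith [hCi i]) hE0
              linarith
      have h6 := mul_le_mul_of_nonneg_left h3 (by linarith : (0 : ℝ) ≤ 1 + η)
      have h7 := mul_le_mul_of_nonneg_right hη2 hT0
      have h8 : (1 + η) * (C * ((|b2| + η * M) * (n : ℝ) ^ (-(5 / 2) : ℝ))) ≤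
          2 * (C * ((|b2| + η * M) * (n : ℝ) ^ (-(5 / 2) : ℝ))) :=
        mul_le_mul_of_nonneg_right (by linarith) (by positivity)
      have h9 : 2 * C * η * (M * (n : ℝ) ^ (-(5 / 2) : ℝ)) ≤ ε * (M * (n : ℝ) ^ (-(5 / 2) : ℝ)) :=
        mul_le_mul_of_nonneg_right hη3 (by positivity)
      have h10 := h1 i
      nlinarith)
    refine ⟨max M 0, le_max_right _ _, fun j n hn => (hM j n hn).trans ?_⟩
    exact mul_le_mul_of_nonneg_right (le_max_left _ _) (by positivity)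
  refine ⟨main, fun k => ?_⟩
  obtain ⟨M, hM0, hM⟩ := main
  obtain ⟨b, hb⟩ := hv 1 one_pos
  refine winC_all_of_eventually _
    (C := 2 * (M * ∑ j, ((F k).acoef j + 1)) + (b + M)) ?_
  filter_upwards [hb, sysC_conv (s := s) hν (H.good k) hM0 hM] with n h1 h2
  have h3 := h1 k M hM0 fun j l hl _ => hM j l hl
  nlinarith

theorem sysC_large_pm (H : SysOK ν s z F c k₀ j₀ Δ B) (h : Slots ν s z) (h1 : T1 ν s A)
    (hc : 0 < c₀) (h4 : T4 (ν j₀) s c₀) :
    ∃ b : ℝ, ∀ᶠ n : ℕ in atTop, ∀ k,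
      pm ((F k).lawOn ((F k).small n)ᶜ ν s z) n ≤ b * (n : ℝ) ^ (-(5 / 2) : ℝ) := by
  obtain ⟨C, hC⟩ := Fam.large_pm h h1 hc h4 H.heavy H.win
  refine ⟨max C 1, eventually_all.2 fun k => ?_⟩
  by_cases hk : k = k₀
  · subst hk
    filter_upwards [eventually_ge_atTop 1] with n hn
    exact (hC n hn).trans (mul_le_mul_of_nonneg_right (le_max_left _ _) (by positivity))
  · filter_upwards [Fam.large_light h (H.good k) (H.light k hk) one_pos] with n hn
    have := Fam.isFinite_lawOn (s := s) (z := z) h.prob (H.good k) ((F k).small n)ᶜ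
    refine le_trans (measureReal_mono (Set.subset_univ _)) (hn.1.trans ?_)
    exact mul_le_mul_of_nonneg_right (le_max_right _ _) (by positivity)

theorem sysC_src_pm (H : SysOK ν s z F c k₀ j₀ Δ B) (i : J) (n : ℕ) :
    src F c ν s z i {p | p.1 = n} = ENNReal.ofReal (∑ k, (c i k : ℝ) * pm ((F k).law ν s z) n) := by
  unfold src
  rw [Measure.finsetSum_apply, ENNReal.ofReal_sum_of_nonneg
    fun k _ => mul_nonneg (c i k).coe_nonneg (sysC_pm_nonneg _ _)]
  refine Finset.sum_congr rfl fun k _ => ?_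
  have := Fam.isFinite_law (s := s) (z := z) H.slots.prob (H.good k)
  rw [Measure.coe_nnreal_smul_apply, ENNReal.ofReal_mul (c i k).coe_nonneg, ENNReal.ofReal_coe_nnreal, pm,
    ofReal_measureReal]

omit [Countable Ω] [DiscreteMeasurableSpace Ω] [Fintype J] in
theorem sysC_src_m2 (i : J) (n : ℕ) (κ : ℝ) :
    m2 (src F c ν s z i) n κ = ∑ k, (c i k : ℝ≥0∞) * m2 ((F k).law ν s z) n κ := by
  unfold src m2
  have hm : MeasurableSet {p : ℕ × ℝ | p.1 = n} := measurable_fst (measurableSet_singleton n)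
  rw [← lintegral_indicator hm, lintegral_finsetSum_measure]
  refine Finset.sum_congr rfl fun k _ => ?_
  rw [lintegral_smul_measure, lintegral_indicator hm]
  rfl

theorem sysC_pm (H : SysOK ν s z F c k₀ j₀ Δ B) (h : Slots ν s z)
    (hD : ∀ j, Dom (slaw (ν j) s z) (src F c ν s z j)) (h1 : T1 ν s A) (hc : 0 < c₀)
    (h4 : T4 (ν j₀) s c₀) :
    (∃ M : ℝ, 0 ≤ M ∧ ∀ j, ∀ n : ℕ, 1 ≤ n →
      pm (slaw (ν j) s z) n ≤ M * (n : ℝ) ^ (-(5 / 2) : ℝ)) ∧ ∀ k, PmB ((F k).law ν s z) := by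
  refine sysC_close H (fun j n => pm (slaw (ν j) s z) n) (fun j n => sysC_pm_nonneg _ _)
    (fun k n => pm ((F k).law ν s z) n) (fun ε hε => ⟨0, eventually_all.2 fun i => ?_⟩)
    (fun ε hε => ?_)
  · obtain ⟨B', hB'⟩ := hD i
    filter_upwards [hB' ε hε] with n hn
    have h2 := hn (fun _ => 1) (fun _ => 1) measurable_const measurable_const fun _ _ _ => le_rfl
    rw [setLIntegral_one, setLIntegral_one, sysC_src_pm H, ← ENNReal.ofReal_mul (by linarith)] at h2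
    rw [zero_mul, add_zero]
    refine ENNReal.toReal_le_of_le_ofReal (mul_nonneg (by linarith) ?_) h2
    exact Finset.sum_nonneg fun k _ => mul_nonneg (c i k).coe_nonneg (sysC_pm_nonneg _ _)
  · obtain ⟨b, hb⟩ := sysC_large_pm H h h1 hc h4
    refine ⟨b + ε, ?_⟩
    have hj := eventually_all.2 fun k => Fam.jump_ch H.slots (H.good k) 0 hε
    filter_upwards [hb, hj] with n h2 h3 k M hM0 hM
    have h5 := h3 k M hM0 hM 0 (by simp)
    have := Fam.isFinite_lawOn (s := s) (z := z) h.prob (H.good k) ((F k).small n)ᶜ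
    have := Fam.isFinite_lawOn (s := s) (z := z) h.prob (H.good k) ((F k).small n)
    rw [Fam.law_split h.prob ((F k).small n), sysC_pm_add]
    simp only [sysC_ch_zero] at h5
    have h6 : ((pm ((F k).lawOn ((F k).small n) ν s z) n : ℝ) : ℂ) -
        ∑ j, ∑ l ∈ Finset.range ((n + 1) / 2),
          ((F k).aa ν s j l : ℂ) * (pm (slaw (ν j) s z) (n - l) : ℂ) =
        ((pm ((F k).lawOn ((F k).small n) ν s z) n - ∑ j, ∑ l ∈ Finset.range ((n + 1) / 2),
          (F k).aa ν s j l * pm (slaw (ν j) s z) (n - l) : ℝ) : ℂ) := by push_cast; rfl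
    rw [h6, Complex.norm_real, Real.norm_eq_abs] at h5
    have h7 := (le_abs_self _).trans h5
    have h8 : 0 ≤ ∑ j, ∑ l ∈ Finset.range ((n + 1) / 2),
        (F k).aa ν s j l * pm (slaw (ν j) s z) (n - l) :=
      Finset.sum_nonneg fun j _ => Finset.sum_nonneg fun l _ =>
        mul_nonneg ((Fam.hasSum_aa (s := s) h.prob (H.good k) j).1 l) (sysC_pm_nonneg _ _)
    have h9 := h2 k
    nlinarith

theorem SysOK.pmB (H : SysOK ν s z F c k₀ j₀ Δ B) (h : Slots ν s z)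
    (hD : ∀ j, Dom (slaw (ν j) s z) (src F c ν s z j)) (h1 : T1 ν s A) (hc : 0 < c₀)
    (h4 : T4 (ν j₀) s c₀) :
    (∀ j, PmB (slaw (ν j) s z)) ∧ ∀ k, PmB ((F k).law ν s z) := by
  obtain ⟨⟨M, -, hM⟩, h5⟩ := sysC_pm H h hD h1 hc h4
  exact ⟨fun j => ⟨M, hM j⟩, h5⟩

/-- the hypotheses on the means of the cores, for every family of the system -/
theorem sysC_hyp (H : SysOK ν s z F c k₀ j₀ Δ B)
    (hL : WinB ((F k₀).pos ν s)
      (fun t => (F k₀).w t * ENNReal.ofReal (((F k₀).core t).L ν z ^ 4)) (1 / 6)) (k : K) :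
    (Summable fun t => ((F k).w t : ℝ) * ((F k).core t).L ν z ^ 2) ∧
    ∃ A : ℝ, ∀ M : ℕ, 1 ≤ M → ∑' t : {t // ((F k).core t).k ≤ M}, ((F k).w t : ℝ≥0∞) *
      ENNReal.ofReal (((F k).core t).k * (((F k).core t).L ν z ^ 2 + ((F k).core t).k)) ≤
        ENNReal.ofReal (A * M) := by
  by_cases hk : k = k₀
  · subst hk
    obtain ⟨a1, a2, -⟩ := Fam.heavy_sums H.slots H.heavy H.win hL
    exact ⟨a1, a2⟩
  · refine ⟨?_, Fam.light_hyp H.slots (H.good k) (H.light k hk)⟩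
    obtain ⟨C, hC⟩ := Core.abs_L_le H.slots Δ B
    refine Summable.of_nonneg_of_le (fun t => mul_nonneg ((F k).w t).coe_nonneg (sq_nonneg _)) (fun t => ?_)
      ((((H.light k hk).mul_left 4).add (H.good k).sum1).mul_left (C ^ 2))
    have h1 := (hC _ ((H.good k).good t)).1
    have h2 : ((F k).core t).L ν z ^ 2 ≤ (C * (((F k).core t).k + 1)) ^ 2 := by
      rw [← sq_abs]
      exact pow_le_pow_left₀ (abs_nonneg _) h1 2
    have h3 : ((((F k).core t).k : ℝ) + 1) ^ 2 ≤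
        4 * (((F k).core t).k : ℝ) ^ 6 + (((F k).core t).k + 1) := by
      have h4 : (((F k).core t).k + 1) ^ 2 ≤ 4 * ((F k).core t).k ^ 6 + (((F k).core t).k + 1) := by
        generalize ((F k).core t).k = m
        rcases Nat.eq_zero_or_pos m with rfl | hm
        · norm_num
        · have : m ^ 2 ≤ m ^ 6 := Nat.pow_le_pow_right hm (by norm_num)
          nlinarith
      exact_mod_cast h4
    have h5 := mul_le_mul_of_nonneg_left h3 (sq_nonneg C)
    have h6 : ((F k).core t).L ν z ^ 2 ≤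
        C ^ 2 * (4 * (((F k).core t).k : ℝ) ^ 6 + (((F k).core t).k + 1)) := by
      rw [mul_pow] at h2
      linarith
    have h7 := mul_le_mul_of_nonneg_left h6 ((F k).w t).coe_nonneg
    calc ((F k).w t : ℝ) * ((F k).core t).L ν z ^ 2
        ≤ ((F k).w t : ℝ) * (C ^ 2 * (4 * (((F k).core t).k : ℝ) ^ 6 + (((F k).core t).k + 1))) := h7
      _ = _ := by ring

theorem sysC_law_ne_top (H : SysOK ν s z F c k₀ j₀ Δ B) (h : Slots ν s z)
    (hL : WinB ((F k₀).pos ν s)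
      (fun t => (F k₀).w t * ENNReal.ofReal (((F k₀).core t).L ν z ^ 4)) (1 / 6)) (k : K) (n : ℕ) :
    m2 ((F k).law ν s z) n 0 ≠ ⊤ :=
  sysC_m2_ne_top (Fam.R2_law h (H.good k) (sysC_hyp H hL k).1 one_pos).1 n

theorem sysC_large_m2 (H : SysOK ν s z F c k₀ j₀ Δ B) (h : Slots ν s z) (h1 : T1 ν s A)
    (h2 : T2 ν s z A) (hc : 0 < c₀) (h4 : T4 (ν j₀) s c₀)
    (hL : WinB ((F k₀).pos ν s)
      (fun t => (F k₀).w t * ENNReal.ofReal (((F k₀).core t).L ν z ^ 4)) (1 / 6)) :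
    ∃ b : ℝ, 0 ≤ b ∧ ∀ᶠ n : ℕ in atTop, ∀ k, m2 ((F k).lawOn ((F k).small n)ᶜ ν s z) n 0 ≤
      ENNReal.ofReal (b * (n : ℝ) ^ (-(5 / 2) : ℝ)) := by
  obtain ⟨C, hC⟩ := (Fam.large_m2 h h1 hc h4 H.heavy H.win h2 hL).1
  refine ⟨max C 1, le_max_of_le_right zero_le_one, eventually_all.2 fun k => ?_⟩
  by_cases hk : k = k₀
  · subst hk
    filter_upwards [hC] with n hn
    exact hn.trans (ENNReal.ofReal_le_ofReal
      (mul_le_mul_of_nonneg_right (le_max_left _ _) (by positivity)))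
  · filter_upwards [Fam.large_light h (H.good k) (H.light k hk) one_pos] with n hn
    exact hn.2.trans (ENNReal.ofReal_le_ofReal
      (mul_le_mul_of_nonneg_right (le_max_right _ _) (by positivity)))

theorem SysOK.m2B (H : SysOK ν s z F c k₀ j₀ Δ B) (h : Slots ν s z)
    (hD : ∀ j, Dom (slaw (ν j) s z) (src F c ν s z j)) (h1 : T1 ν s A) (h2 : T2 ν s z A)
    (hc : 0 < c₀) (h4 : T4 (ν j₀) s c₀)
    (hL : WinB ((F k₀).pos ν s)
      (fun t => (F k₀).w t * ENNReal.ofReal (((F k₀).core t).L ν z ^ 4)) (1 / 6)) :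
    (∀ j, M2B (slaw (ν j) s z)) ∧ ∀ k, M2B ((F k).law ν s z) := by
  obtain ⟨⟨M, hM0, hM⟩, hP⟩ := sysC_pm H h hD h1 hc h4
  choose P hP using hP
  have f1 : ∀ j n, m2 (slaw (ν j) s z) n 0 ≠ ⊤ := fun j n => sysC_m2_ne_top (sysC_slaw_mem h j) n
  have f2 := sysC_law_ne_top H h hL
  have key := sysC_close H (fun j n => (m2 (slaw (ν j) s z) n 0).toReal)
    (fun j n => ENNReal.toReal_nonneg) (fun k n => (m2 ((F k).law ν s z) n 0).toReal)
    (fun ε hε => ?_) (fun ε hε => ?_)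
  · obtain ⟨⟨M2, -, hM2⟩, h5⟩ := key
    refine ⟨fun j => ⟨M2, fun n hn => ?_⟩, fun k => ?_⟩
    · rw [← ENNReal.ofReal_toReal (f1 j n)]
      exact ENNReal.ofReal_le_ofReal (hM2 j n hn)
    · obtain ⟨M3, hM3⟩ := h5 k
      refine ⟨M3, fun n hn => ?_⟩
      rw [← ENNReal.ofReal_toReal (f2 k n)]
      exact ENNReal.ofReal_le_ofReal (hM3 n hn)
  · choose B' hB' using hD
    obtain ⟨η, hη0, hη1, hη2⟩ : ∃ η : ℝ, 0 < η ∧ η ≤ 1 ∧ (1 + η) * (1 + η) ≤ 1 + ε := by
      refine ⟨min 1 (ε / 3), lt_min one_pos (by positivity), min_le_left _ _, ?_⟩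
      have a1 : min 1 (ε / 3) ≤ 1 := min_le_left _ _
      have a2 : min 1 (ε / 3) ≤ ε / 3 := min_le_right _ _
      have a4 : 0 < min 1 (ε / 3) := lt_min one_pos (by positivity)
      nlinarith
    refine ⟨∑ i, 2 * ((1 + η⁻¹) * B' i ^ 2 * ∑ k, (c i k : ℝ) * |P k|),
      eventually_all.2 fun i => ?_⟩
    filter_upwards [hB' i η hη0, eventually_ge_atTop 1] with n hn hn1
    have hn0 : (1 : ℝ) ≤ n := by exact_mod_cast hn1
    have hp : 0 ≤ (n : ℝ) ^ (-(5 / 2) : ℝ) := by positivity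
    obtain ⟨E, hE⟩ : ∃ E : ℝ, E = (1 + η⁻¹) * B' i ^ 2 := ⟨_, rfl⟩
    have hE0 : 0 ≤ E := by rw [hE]; positivity
    have hm : Measurable fun u : ℝ => ENNReal.ofReal (psi 0 (u / √n)) :=
      ((sysC_psi_meas 0).comp (measurable_id.div_const _)).ennreal_ofReal
    have h5 := hn (fun u => ENNReal.ofReal (psi 0 (u / √n)))
      (fun u => ENNReal.ofReal (1 + η) * ENNReal.ofReal (psi 0 (u / √n)) + ENNReal.ofReal E) hm
      ((hm.const_mul _).add_const _) (fun u b hb => by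
        rw [← ENNReal.ofReal_mul (by linarith),
          ← ENNReal.ofReal_add (mul_nonneg (by linarith) (sysC_psi_nonneg _ _)) hE0]
        refine ENNReal.ofReal_le_ofReal ?_
        have a1 := sysC_psi_le n b
        rw [sysC_psi_zero] at a1 ⊢
        rw [sysC_psi_zero, add_div, hE]
        have a2 : b ^ 2 ≤ B' i ^ 2 := by
          rw [← sq_abs]
          exact pow_le_pow_left₀ (abs_nonneg _) hb 2
        have a3 := mul_le_mul_of_nonneg_left (a1.trans a2) (by positivity : (0 : ℝ) ≤ 1 + η⁻¹)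
        linarith [sysC_sq_add hη0 (u / √n) (b / √n)])
    rw [lintegral_add_right _ measurable_const, lintegral_const_mul' _ _ ENNReal.ofReal_ne_top,
      setLIntegral_const, sysC_src_pm H] at h5
    have h6 : m2 (slaw (ν i) s z) n 0 ≤ ENNReal.ofReal (1 + η) *
        (ENNReal.ofReal (1 + η) * m2 (src F c ν s z i) n 0 + ENNReal.ofReal E *
          ENNReal.ofReal (∑ k, (c i k : ℝ) * pm ((F k).law ν s z) n)) := h5
    have hT0 : 0 ≤ ∑ k, (c i k : ℝ) * (m2 ((F k).law ν s z) n 0).toReal :=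
      Finset.sum_nonneg fun k _ => mul_nonneg (c i k).coe_nonneg ENNReal.toReal_nonneg
    have hU0 : 0 ≤ ∑ k, (c i k : ℝ) * pm ((F k).law ν s z) n :=
      Finset.sum_nonneg fun k _ => mul_nonneg (c i k).coe_nonneg (sysC_pm_nonneg _ _)
    have e1 : m2 (src F c ν s z i) n 0 =
        ENNReal.ofReal (∑ k, (c i k : ℝ) * (m2 ((F k).law ν s z) n 0).toReal) := by
      rw [sysC_src_m2, ENNReal.ofReal_sum_of_nonneg
        fun k _ => mul_nonneg (c i k).coe_nonneg ENNReal.toReal_nonneg]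
      refine Finset.sum_congr rfl fun k _ => ?_
      rw [ENNReal.ofReal_mul (c i k).coe_nonneg, ENNReal.ofReal_coe_nnreal, ENNReal.ofReal_toReal (f2 k n)]
    rw [e1, ← ENNReal.ofReal_mul (by linarith), ← ENNReal.ofReal_mul hE0,
      ← ENNReal.ofReal_add (mul_nonneg (by linarith) hT0) (mul_nonneg hE0 hU0),
      ← ENNReal.ofReal_mul (by linarith)] at h6
    have h7 := ENNReal.toReal_le_of_le_ofReal
      (mul_nonneg (by linarith) (add_nonneg (mul_nonneg (by linarith) hT0) (mul_nonneg hE0 hU0))) h6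
    have h8 : ∑ k, (c i k : ℝ) * pm ((F k).law ν s z) n ≤
        (∑ k, (c i k : ℝ) * |P k|) * (n : ℝ) ^ (-(5 / 2) : ℝ) := by
      rw [Finset.sum_mul]
      refine Finset.sum_le_sum fun k _ => ?_
      rw [mul_assoc]
      exact mul_le_mul_of_nonneg_left
        ((hP k n hn1).trans (mul_le_mul_of_nonneg_right (le_abs_self _) hp)) (c i k).coe_nonneg
    have h9 : 2 * ((1 + η⁻¹) * B' i ^ 2 * ∑ k, (c i k : ℝ) * |P k|) ≤
        ∑ i, 2 * ((1 + η⁻¹) * B' i ^ 2 * ∑ k, (c i k : ℝ) * |P k|) :=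
      Finset.single_le_sum (f := fun i => 2 * ((1 + η⁻¹) * B' i ^ 2 * ∑ k, (c i k : ℝ) * |P k|))
        (fun i _ => mul_nonneg (by norm_num) (mul_nonneg (by positivity)
          (Finset.sum_nonneg fun k _ => mul_nonneg (c i k).coe_nonneg (abs_nonneg _)))) (Finset.mem_univ i)
    have h10 := mul_le_mul_of_nonneg_right h9 hp
    have h11 := mul_le_mul_of_nonneg_left h8 hE0
    have h12 := mul_le_mul_of_nonneg_right hη2 hT0
    have h13 : (1 + η) * (E * ∑ k, (c i k : ℝ) * pm ((F k).law ν s z) n) ≤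
        2 * (E * ∑ k, (c i k : ℝ) * pm ((F k).law ν s z) n) :=
      mul_le_mul_of_nonneg_right (by linarith) (mul_nonneg hE0 hU0)
    rw [← hE] at h10
    nlinarith
  · obtain ⟨b, hb0, hb⟩ := sysC_large_m2 H h h1 h2 hc h4 hL
    refine ⟨b + ε * (1 + M), ?_⟩
    have hj := eventually_all.2 fun k =>
      Fam.jump_m2 h (H.good k) (sysC_hyp H hL k).2.choose_spec hε
    filter_upwards [hb, hj] with n h3 h5 k M2 hM20 hM2
    have hp : 0 ≤ (n : ℝ) ^ (-(5 / 2) : ℝ) := by positivity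
    have h6 := h5 k M hM0 (fun j l hl _ => hM j l hl) M2 hM20 (fun j l hl hl' => by
      rw [← ENNReal.ofReal_toReal (f1 j l)]
      exact ENNReal.ofReal_le_ofReal (hM2 j l hl hl')) 0 le_rfl
    have haa := fun j l => (Fam.hasSum_aa (s := s) h.prob (H.good k) j).1 l
    have hS0 : 0 ≤ ∑ j, ∑ l ∈ Finset.range ((n + 1) / 2),
        (F k).aa ν s j l * (m2 (slaw (ν j) s z) (n - l) 0).toReal :=
      Finset.sum_nonneg fun j _ => Finset.sum_nonneg fun l _ =>
        mul_nonneg (haa j l) ENNReal.toReal_nonneg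
    have e1 : ∑ j, ∑ l ∈ Finset.range ((n + 1) / 2),
        ENNReal.ofReal ((F k).aa ν s j l) * m2 (slaw (ν j) s z) (n - l) 0 =
        ENNReal.ofReal (∑ j, ∑ l ∈ Finset.range ((n + 1) / 2),
          (F k).aa ν s j l * (m2 (slaw (ν j) s z) (n - l) 0).toReal) := by
      rw [ENNReal.ofReal_sum_of_nonneg fun j _ => Finset.sum_nonneg fun l _ =>
        mul_nonneg (haa j l) ENNReal.toReal_nonneg]
      refine Finset.sum_congr rfl fun j _ => ?_
      rw [ENNReal.ofReal_sum_of_nonneg fun l _ => mul_nonneg (haa j l) ENNReal.toReal_nonneg]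
      refine Finset.sum_congr rfl fun l _ => ?_
      rw [ENNReal.ofReal_mul (haa j l), ENNReal.ofReal_toReal (f1 j _)]
    have h7 := add_le_add h6 (h3 k)
    rw [← sysC_m2_add, ← Fam.law_split h.prob, e1, ← ENNReal.ofReal_mul (by linarith),
      ← ENNReal.ofReal_add (mul_nonneg (by linarith) hS0) (by positivity),
      ← ENNReal.ofReal_add (add_nonneg (mul_nonneg (by linarith) hS0) (by positivity))
        (by positivity)] at h7
    have h8 := ENNReal.toReal_le_of_le_ofReal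
      (add_nonneg (add_nonneg (mul_nonneg (by linarith) hS0) (by positivity)) (by positivity)) h7
    refine h8.trans (le_of_eq ?_)
    ring

end Pool.Agent.Lib.MP_77dff5_pr
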