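import Mathlib

/-! Motzkin polynomials and the positive system behind Tutte's equation. -/

set_option autoImplicit false

namespace Pool.Agent.Lib.MP_77dff5_pr

open scoped ENNReal NNReal

section
variable {R : Type} [CommSemiring R]

/-- `mot r s l m` is the coefficient of `ω ^ m` in `(ω + s + r / ω) ^ l`. -/
def mot (r s : R) : ℕ → ℤ → R
  | 0, m => if m = 0 then 1 else 0
  | l + 1, m => mot r s l (m - 1) + s * mot r s l m + r * mot r s l (m + 1)

/-- coefficient of `ω ^ m` in `∑ g (k + 1) z ^ k` -/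
def Aj (g : ℕ → R) (K : ℕ) (r s : R) (m : ℤ) : R := ∑ k ∈ Finset.range K, g (k + 1) * mot r s k m

/-- Tutte's equation -/
def TutteEq (g : ℕ → R) (K : ℕ) (y t : R) (W : ℕ → R) : Prop :=
  W 0 = t ∧ ∀ l, W (l + 1) =
    y * (∑ i ∈ Finset.range l, W i * W (l - 1 - i) + ∑ k ∈ Finset.range K, g (k + 1) * W (l + k))

/-- the linearised equation -/
def TutteLin (g : ℕ → R) (K : ℕ) (y : R) (W P : ℕ → R) : Prop :=
  P 0 = 1 ∧ ∀ l, P (l + 1) = y * (2 * ∑ i ∈ Finset.range l, W i * P (l - 1 - i) +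
    ∑ k ∈ Finset.range K, g (k + 1) * P (l + k))

/-- iterates for `σ = y A₀ (r, σ)` -/
def sigIt (g : ℕ → R) (K : ℕ) (y r : R) : ℕ → R
  | 0 => 0
  | j + 1 => y * Aj g K r (sigIt g K y r j) 0

/-- truncation of `1 / (1 - y A₁)` -/
def phiIt (g : ℕ → R) (K : ℕ) (y r : R) (j : ℕ) : R :=
  ∑ i ∈ Finset.range (j + 1), (y * Aj g K r (sigIt g K y r j) 1) ^ i

end

/-- exponents of `ρ`, of `y` and of the degree variables -/
abbrev Gam : Type := ℕ × ℕ × (ℕ →₀ ℕ)

/-- polynomials in `ρ`, `y` and the degree variables with nonnegative coefficients -/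
abbrev PR : Type := Polynomial (Polynomial (MvPolynomial ℕ ℝ≥0))

noncomputable def coef (p : PR) (γ : Gam) : ℝ≥0 := ((p.coeff γ.1).coeff γ.2.1).coeff γ.2.2

noncomputable def gP (k : ℕ) : PR := Polynomial.C (Polynomial.C (MvPolynomial.X k))

noncomputable def yP : PR := Polynomial.C Polynomial.X

noncomputable def sigP (j : ℕ) : PR := sigIt gP j yP Polynomial.X j

noncomputable def phiP (j : ℕ) : PR := phiIt gP j yP Polynomial.X j

noncomputable def hP (j : ℕ) : PR := Polynomial.derivative (sigP j ^ 2 + 2 * Polynomial.X)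

/-- weights of a step -/
noncomputable def pW (γ : Gam) : ℝ≥0∞ := ⨆ j, (coef (phiP j) γ : ℝ≥0∞)

/-- weights of the initial step -/
noncomputable def hW (γ : Gam) : ℝ≥0∞ := ⨆ j, (coef (hP j) γ : ℝ≥0∞)

/-- evaluation of a monomial -/
noncomputable def ev (r y x : ℝ) (γ : Gam) : ℝ≥0∞ :=
  ENNReal.ofReal (r ^ γ.1 * y ^ γ.2.1 * x ^ (γ.2.2.sum fun _ k => k))

end Pool.Agent.Lib.MP_77dff5_pr
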