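import Pool.Agent.Lib.MP_77dff5_pr.PDefs

/-! Decay and inversion for the Fourier transforms of `exp (-δ ξ ^ 2 - psiS ξ)`. -/

set_option autoImplicit false

namespace Pool.Agent.Lib.MP_77dff5_pr

open MeasureTheory Filter Topology Set

/-- the character `e^{-iux}` -/
noncomputable def taubCh (u x : ℝ) : ℂ := Complex.exp (-(Complex.I * ((u * x : ℝ) : ℂ)))

theorem taubCh_norm (u x : ℝ) : ‖taubCh u x‖ = 1 := by
  unfold taubCh
  rw [Complex.norm_exp]
  simp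

theorem taubCh_cont : Continuous fun p : ℝ × ℝ => taubCh p.1 p.2 := by
  unfold taubCh
  fun_prop

theorem taubCh_cont' (u : ℝ) : Continuous (taubCh u) :=
  taubCh_cont.comp (continuous_const.prodMk continuous_id)

theorem taubCh_deriv (u x : ℝ) :
    HasDerivAt (taubCh u) (-(Complex.I * u) * taubCh u x) x := by
  unfold taubCh
  have h1 : HasDerivAt (fun x : ℝ => -(Complex.I * ((u * x : ℝ) : ℂ))) (-(Complex.I * u)) x := by
    have h0 : HasDerivAt (fun x : ℝ => ((u * x : ℝ) : ℂ)) (u : ℂ) x := by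
      simpa using ((hasDerivAt_id x).const_mul u).ofReal_comp
    exact (h0.const_mul Complex.I).neg
  have := h1.cexp
  convert this using 1
  ring

theorem taubCh_mul_int {f : ℝ → ℂ} {μ : Measure ℝ} (hf : Integrable f μ) (u : ℝ) :
    Integrable (fun x => taubCh u x * f x) μ :=
  hf.bdd_mul (c := 1) (taubCh_cont' u).aestronglyMeasurable
    (Eventually.of_forall fun x => (taubCh_norm u x).le)

theorem taub_half {f f' : ℝ → ℂ} {a : ℂ} (u : ℝ) (hd : ∀ x ∈ Ioi (0 : ℝ), HasDerivAt f (f' x) x)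
    (hf : IntegrableOn f (Ioi 0)) (hf' : IntegrableOn f' (Ioi 0))
    (h0 : Tendsto f (𝓝[>] 0) (𝓝 a)) :
    (Complex.I * u) * ∫ x in Ioi (0 : ℝ), taubCh u x * f x =
      a + ∫ x in Ioi (0 : ℝ), taubCh u x * f' x := by
  have hinf : Tendsto f atTop (𝓝 0) := tendsto_zero_of_hasDerivAt_of_integrableOn_Ioi hd hf' hf
  have h1 : IntegrableOn (taubCh u * f') (Ioi 0) := taubCh_mul_int hf' u
  have h2 : IntegrableOn ((fun x => -(Complex.I * u) * taubCh u x) * f) (Ioi 0) := by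
    have := (taubCh_mul_int hf u).const_mul (-(Complex.I * u))
    refine this.congr (Eventually.of_forall fun x => ?_)
    simp only [Pi.mul_apply]
    ring
  have h3 : Tendsto (taubCh u * f) (𝓝[>] 0) (𝓝 a) := by
    have h4 : Tendsto (taubCh u) (𝓝[>] 0) (𝓝 1) := by
      have := ((taubCh_cont' u).tendsto 0).mono_left (nhdsWithin_le_nhds (s := Ioi 0))
      simpa [taubCh] using this
    have h5 := h4.mul h0
    rw [one_mul] at h5
    exact h5
  have h5 : Tendsto (taubCh u * f) atTop (𝓝 0) := by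
    rw [tendsto_zero_iff_norm_tendsto_zero] at hinf ⊢
    refine hinf.congr fun x => ?_
    simp [taubCh_norm]
  have := integral_Ioi_mul_deriv_eq_deriv_mul (fun x _ => taubCh_deriv u x) hd h1 h2 h3 h5
  rw [this]
  have h6 : ∫ x in Ioi (0 : ℝ), -(Complex.I * u) * taubCh u x * f x =
      -(Complex.I * u) * ∫ x in Ioi (0 : ℝ), taubCh u x * f x := by
    rw [← integral_const_mul]
    congr 1
    ext x
    ring
  rw [h6]
  ring

/-- data for two integrations by parts on the positive half line -/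
def TaubC2 (f : ℝ → ℂ) : Prop :=
  ∃ f' f'' : ℝ → ℂ, (∀ x ∈ Ioi (0 : ℝ), HasDerivAt f (f' x) x) ∧
    (∀ x ∈ Ioi (0 : ℝ), HasDerivAt f' (f'' x) x) ∧ IntegrableOn f (Ioi 0) ∧
    IntegrableOn f' (Ioi 0) ∧ IntegrableOn f'' (Ioi 0) ∧ Tendsto f (𝓝[>] 0) (𝓝 1) ∧
    Tendsto f' (𝓝[>] 0) (𝓝 0)

theorem TaubC2.bound {f : ℝ → ℂ} (h : TaubC2 f) : ∃ C : ℝ, ∀ u : ℝ,
    ‖(Complex.I * u) ^ 2 * (∫ x in Ioi (0 : ℝ), taubCh u x * f x) - Complex.I * u‖ ≤ C := by
  obtain ⟨f', f'', h1, h2, h3, h4, h5, h6, h7⟩ := h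
  refine ⟨∫ x in Ioi (0 : ℝ), ‖f'' x‖, fun u => ?_⟩
  have e1 := taub_half u h1 h3 h4 h6
  have e2 := taub_half u h2 h4 h5 h7
  have e3 : (Complex.I * u) ^ 2 * (∫ x in Ioi (0 : ℝ), taubCh u x * f x) - Complex.I * u =
      ∫ x in Ioi (0 : ℝ), taubCh u x * f'' x := by
    rw [sq, mul_assoc, e1, mul_add, e2]
    ring
  rw [e3]
  refine (norm_integral_le_integral_norm _).trans (le_of_eq ?_)
  congr 1
  ext x
  simp [taubCh_norm]

theorem taub_decay {E p q : ℝ → ℂ} (hp : TaubC2 p) (hq : TaubC2 q)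
    (h1 : ∀ x, 0 < x → E x = p x) (h2 : ∀ x, 0 < x → E (-x) = q x) :
    Integrable E ∧ ∃ C : ℝ, ∀ u : ℝ, ‖∫ x, taubCh u x * E x‖ ≤ C * (1 + |u|) ^ (-2 : ℝ) := by
  obtain ⟨Cp, hCp⟩ := hp.bound
  obtain ⟨Cq, hCq⟩ := hq.bound
  have ip : IntegrableOn p (Ioi 0) := by
    obtain ⟨_, _, _, _, h, _⟩ := hp
    exact h
  have iq : IntegrableOn q (Ioi 0) := by
    obtain ⟨_, _, _, _, h, _⟩ := hq
    exact h
  have i1 : IntegrableOn E (Ioi 0) :=
    ip.congr_fun (fun x hx => (h1 x hx).symm) measurableSet_Ioi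
  have i2 : IntegrableOn E (Iic 0) := by
    rw [integrableOn_Iic_iff_integrableOn_Iio]
    have : IntegrableOn (fun x => E (-x)) (Ioi 0) :=
      iq.congr_fun (fun x hx => (h2 x hx).symm) measurableSet_Ioi
    have h3 := this.comp_neg
    simpa using h3
  have iE : Integrable E := by
    rw [← integrableOn_univ, ← Iic_union_Ioi (a := (0 : ℝ))]
    exact i2.union i1
  refine ⟨iE, ?_⟩
  have key : ∀ u : ℝ, ∫ x, taubCh u x * E x =
      (∫ x in Ioi (0 : ℝ), taubCh u x * p x) + ∫ x in Ioi (0 : ℝ), taubCh (-u) x * q x := by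
    intro u
    rw [← intervalIntegral.integral_Iic_add_Ioi (b := 0) (taubCh_mul_int i2 u)
      (taubCh_mul_int i1 u), add_comm]
    congr 1
    · exact setIntegral_congr_fun measurableSet_Ioi fun x hx => by simp only [h1 x hx]
    · have := integral_comp_neg_Ioi (0 : ℝ) (fun x => taubCh u x * E x)
      rw [neg_zero] at this
      rw [← this]
      refine setIntegral_congr_fun measurableSet_Ioi fun x hx => ?_
      simp only [h2 x hx]
      congr 1
      simp [taubCh]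
  have b1 : ∀ u : ℝ, u ^ 2 * ‖∫ x, taubCh u x * E x‖ ≤ Cp + Cq := by
    intro u
    have e : (Complex.I * u) ^ 2 * ∫ x, taubCh u x * E x =
        ((Complex.I * u) ^ 2 * (∫ x in Ioi (0 : ℝ), taubCh u x * p x) - Complex.I * u) +
        ((Complex.I * ((-u : ℝ) : ℂ)) ^ 2 * (∫ x in Ioi (0 : ℝ), taubCh (-u) x * q x) -
          Complex.I * ((-u : ℝ) : ℂ)) := by
      rw [key]
      push_cast
      ring
    have := (norm_add_le _ _).trans (add_le_add (hCp u) (hCq (-u)))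
    rw [← e] at this
    simpa using this
  have b2 : ∀ u : ℝ, ‖∫ x, taubCh u x * E x‖ ≤ ∫ x, ‖E x‖ := by
    intro u
    refine (norm_integral_le_integral_norm _).trans (le_of_eq ?_)
    congr 1
    ext x
    simp [taubCh_norm]
  refine ⟨2 * (Cp + Cq) + 2 * ∫ x, ‖E x‖, fun u => ?_⟩
  have hpos : 0 < 1 + |u| := by positivity
  rw [Real.rpow_neg hpos.le, ← div_eq_mul_inv, le_div_iff₀ (by positivity)]
  have e2 : (1 + |u|) ^ (2 : ℝ) ≤ 2 * u ^ 2 + 2 := by
    rw [Real.rpow_two]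
    nlinarith [sq_abs u, sq_nonneg (|u| - 1)]
  have h0 := norm_nonneg (∫ x, taubCh u x * E x)
  nlinarith [b1 u, b2 u, mul_le_mul_of_nonneg_left e2 h0]

/-- the exponent grows at least linearly -/
def TaubOk (δ γ : ℝ) : Prop := ∃ C : ℝ, ∀ x : ℝ, 0 < x → x - C ≤ δ * x ^ 2 + γ * x ^ (3 / 2 : ℝ)

theorem taub_sqrt {x : ℝ} (hx : 0 < x) :
    ∃ t : ℝ, 0 < t ∧ x = t ^ 2 ∧ x ^ (3 / 2 : ℝ) = t ^ 3 := by
  refine ⟨x ^ (1 / 2 : ℝ), Real.rpow_pos_of_pos hx _, ?_, ?_⟩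
  · rw [← Real.rpow_natCast, ← Real.rpow_mul hx.le]
    norm_num
  · rw [← Real.rpow_natCast, ← Real.rpow_mul hx.le]
    norm_num

theorem taubOk_zero {γ : ℝ} (hγ : 0 < γ) : TaubOk 0 γ := by
  refine ⟨(1 / γ) ^ 2, fun x hx => ?_⟩
  obtain ⟨t, ht, h1, h2⟩ := taub_sqrt hx
  rw [h2, h1]
  by_cases h : t ≤ 1 / γ
  · have : t ^ 2 ≤ (1 / γ) ^ 2 := pow_le_pow_left₀ ht.le h 2
    have : 0 ≤ γ * t ^ 3 := by positivity
    linarith
  · push Not at h
    rw [div_lt_iff₀ hγ] at h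
    have : t ^ 2 ≤ γ * t ^ 3 := by nlinarith [sq_nonneg t]
    have : 0 ≤ (1 / γ) ^ 2 := by positivity
    linarith

theorem taubOk_pos {δ : ℝ} (hδ : 0 < δ) (γ : ℝ) : TaubOk δ γ := by
  set T := (|γ| + 1) / δ + 1 with hT
  have hT0 : 0 ≤ (|γ| + 1) / δ := by positivity
  refine ⟨T ^ 2 + |γ| * T ^ 3, fun x hx => ?_⟩
  obtain ⟨t, ht, h1, h2⟩ := taub_sqrt hx
  rw [h2, h1]
  have hg : -|γ| * t ^ 3 ≤ γ * t ^ 3 :=
    mul_le_mul_of_nonneg_right (neg_abs_le γ) (by positivity)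
  by_cases h : t ≤ T
  · have h3 : t ^ 2 ≤ T ^ 2 := pow_le_pow_left₀ ht.le h 2
    have h4 : |γ| * t ^ 3 ≤ |γ| * T ^ 3 :=
      mul_le_mul_of_nonneg_left (pow_le_pow_left₀ ht.le h 3) (abs_nonneg γ)
    have : 0 ≤ δ * (t ^ 2) ^ 2 := by positivity
    linarith
  · push Not at h
    have h3 : (|γ| + 1) / δ ≤ t := by linarith
    rw [div_le_iff₀ hδ] at h3
    have h4 : 1 ≤ t := by linarith
    have h5 : (|γ| + 1) * t ^ 3 ≤ t * δ * t ^ 3 := mul_le_mul_of_nonneg_right h3 (by positivity)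
    have h6 : t ^ 2 ≤ t ^ 3 := pow_le_pow_right₀ h4 (by norm_num)
    have : 0 ≤ T ^ 2 + |γ| * T ^ 3 := by positivity
    nlinarith

/-- the function on the half line -/
noncomputable def taubG (δ : ℝ) (z : ℂ) (x : ℝ) : ℂ :=
  Complex.exp (-((δ : ℂ) * (x : ℂ) ^ 2 + z * ((x ^ (3 / 2 : ℝ) : ℝ) : ℂ)))

theorem taubG_cont (δ : ℝ) (z : ℂ) : Continuous (taubG δ z) := by
  unfold taubG
  have : Continuous fun x : ℝ => x ^ (3 / 2 : ℝ) := Real.continuous_rpow_const (by norm_num)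
  fun_prop

theorem taubG_norm (δ : ℝ) (z : ℂ) (x : ℝ) :
    ‖taubG δ z x‖ = Real.exp (-(δ * x ^ 2 + z.re * x ^ (3 / 2 : ℝ))) := by
  unfold taubG
  rw [Complex.norm_exp]
  congr 1
  simp [← Complex.ofReal_pow]

theorem taubG_int {δ : ℝ} {z : ℂ} (h : TaubOk δ z.re) {s : ℝ} (hs : -1 < s) :
    IntegrableOn (fun x : ℝ => ((x ^ s : ℝ) : ℂ) * taubG δ z x) (Ioi 0) := by
  obtain ⟨C, hC⟩ := h
  have h1 := (Real.GammaIntegral_convergent (s := s + 1) (by linarith)).const_mul (Real.exp C)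
  refine h1.mono' ?_ ?_
  · refine ContinuousOn.aestronglyMeasurable ?_ measurableSet_Ioi
    refine ContinuousOn.mul ?_ (taubG_cont δ z).continuousOn
    refine Complex.continuous_ofReal.comp_continuousOn ?_
    exact continuousOn_id.rpow_const fun x hx => Or.inl (ne_of_gt hx)
  · refine (ae_restrict_iff' measurableSet_Ioi).mpr (Eventually.of_forall fun x hx => ?_)
    have hx' : 0 < x := hx
    rw [norm_mul, taubG_norm, Complex.norm_real, Real.norm_of_nonneg (Real.rpow_nonneg hx'.le _),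
      add_sub_cancel_right, ← mul_assoc, ← Real.exp_add, mul_comm]
    refine mul_le_mul_of_nonneg_right (Real.exp_le_exp.mpr ?_) (Real.rpow_nonneg hx'.le _)
    linarith [hC x hx']

theorem taub_rpow_deriv (s : ℝ) {x : ℝ} (hx : 0 < x) :
    HasDerivAt (fun x : ℝ => ((x ^ s : ℝ) : ℂ)) ((s : ℂ) * ((x ^ (s - 1) : ℝ) : ℂ)) x := by
  have := (Real.hasDerivAt_rpow_const (p := s) (Or.inl hx.ne')).ofReal_comp
  simpa using this

theorem taubG_c2 {δ : ℝ} {z : ℂ} (h : TaubOk δ z.re) : TaubC2 (taubG δ z) := by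
  let a : ℝ → ℂ := fun x => -(2 * δ * ((x ^ (1 : ℝ) : ℝ) : ℂ) + 3 / 2 * z * ((x ^ (1 / 2 : ℝ) : ℝ) : ℂ))
  let a' : ℝ → ℂ := fun x =>
    -(2 * δ * ((x ^ (0 : ℝ) : ℝ) : ℂ) + 3 / 4 * z * ((x ^ (-(1 / 2) : ℝ) : ℝ) : ℂ))
  have d1 : ∀ x ∈ Ioi (0 : ℝ), HasDerivAt (taubG δ z) (a x * taubG δ z x) x := by
    intro x hx
    have h1 : HasDerivAt (fun x : ℝ => (x : ℂ) ^ 2) (2 * x) x := by
      have := (hasDerivAt_pow 2 x).ofReal_comp
      simpa using this
    have h2 := ((h1.const_mul (δ : ℂ)).add ((taub_rpow_deriv (3 / 2) hx).const_mul z)).neg.cexp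
    refine HasDerivAt.congr_deriv h2 ?_
    simp only [a, taubG, Real.rpow_one, show (3 / 2 : ℝ) - 1 = 1 / 2 by norm_num, Pi.neg_apply,
      Pi.add_apply]
    push_cast
    ring
  have d2 : ∀ x ∈ Ioi (0 : ℝ), HasDerivAt a (a' x) x := by
    intro x hx
    have h2 := (((taub_rpow_deriv 1 hx).const_mul (2 * δ : ℂ)).add
      ((taub_rpow_deriv (1 / 2) hx).const_mul (3 / 2 * z))).neg
    refine HasDerivAt.congr_deriv h2 ?_
    simp only [a', show (1 / 2 : ℝ) - 1 = -(1 / 2) by norm_num, sub_self]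
    push_cast
    ring
  refine ⟨fun x => a x * taubG δ z x, fun x => a' x * taubG δ z x + a x * (a x * taubG δ z x),
    d1, fun x hx => (d2 x hx).mul (d1 x hx), ?_, ?_, ?_, ?_, ?_⟩
  · refine (taubG_int h (s := 0) (by norm_num)).congr_fun (fun x _ => ?_) measurableSet_Ioi
    simp
  · refine (((taubG_int h (s := 1) (by norm_num)).const_mul (-(2 * δ))).add
      ((taubG_int h (s := 1 / 2) (by norm_num)).const_mul (-(3 / 2 * z)))).congr ?_
    refine Eventually.of_forall fun x => ?_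
    simp only [a, Pi.add_apply]
    ring
  · have i0 := (taubG_int h (s := 0) (by norm_num)).const_mul (-(2 * δ))
    have i1 := (taubG_int h (s := -(1 / 2)) (by norm_num)).const_mul (-(3 / 4 * z))
    have i2 := (taubG_int h (s := 2) (by norm_num)).const_mul (4 * δ ^ 2)
    have i3 := (taubG_int h (s := 3 / 2) (by norm_num)).const_mul (6 * δ * z)
    have i4 := (taubG_int h (s := 1) (by norm_num)).const_mul (9 / 4 * z ^ 2)
    refine ((((i0.add i1).add i2).add i3).add i4).congr ?_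
    refine (ae_restrict_iff' measurableSet_Ioi).mpr (Eventually.of_forall fun x hx => ?_)
    have hx' : 0 < x := hx
    have e1 : ((x ^ (2 : ℝ) : ℝ) : ℂ) = ((x ^ (1 : ℝ) : ℝ) : ℂ) * ((x ^ (1 : ℝ) : ℝ) : ℂ) := by
      rw [← Complex.ofReal_mul, ← Real.rpow_add hx']
      norm_num
    have e2 : ((x ^ (3 / 2 : ℝ) : ℝ) : ℂ) =
        ((x ^ (1 : ℝ) : ℝ) : ℂ) * ((x ^ (1 / 2 : ℝ) : ℝ) : ℂ) := by
      rw [← Complex.ofReal_mul, ← Real.rpow_add hx']
      norm_num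
    have e3 : ((x ^ (1 / 2 : ℝ) : ℝ) : ℂ) ^ 2 = ((x ^ (1 : ℝ) : ℝ) : ℂ) := by
      rw [sq, ← Complex.ofReal_mul, ← Real.rpow_add hx']
      norm_num
    simp only [a, a', Pi.add_apply]
    rw [e1, e2]
    linear_combination (-(9 / 4) * z ^ 2 * taubG δ z x) * e3
  · have := ((taubG_cont δ z).tendsto 0).mono_left (nhdsWithin_le_nhds (s := Ioi 0))
    simpa [taubG] using this
  · have hc : Continuous fun x => a x * taubG δ z x := by
      refine Continuous.mul ?_ (taubG_cont δ z)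
      have h1 : Continuous fun x : ℝ => x ^ (1 / 2 : ℝ) := Real.continuous_rpow_const (by norm_num)
      have h2 : Continuous fun x : ℝ => x ^ (1 : ℝ) := Real.continuous_rpow_const (by norm_num)
      simp only [a]
      fun_prop
    have := (hc.tendsto 0).mono_left (nhdsWithin_le_nhds (s := Ioi 0))
    simpa [a] using this

/-- the function on the line -/
noncomputable def taubE (δ γ₁ γ₂ ξ : ℝ) : ℂ :=
  Complex.exp (-((δ : ℂ) * (ξ : ℂ) ^ 2 + psiS γ₁ γ₂ ξ))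

/-- its Fourier transform -/
noncomputable def taubB (δ γ₁ γ₂ u : ℝ) : ℂ :=
  (2 * Real.pi : ℂ)⁻¹ * ∫ ξ : ℝ, taubCh u ξ * taubE δ γ₁ γ₂ ξ

theorem aS_eq_taubB (γ₁ γ₂ : ℝ) : aS γ₁ γ₂ = taubB 0 γ₁ γ₂ := by
  ext u
  simp [aS, taubB, taubCh, taubE]

theorem taubE_cont (δ γ₁ γ₂ : ℝ) : Continuous (taubE δ γ₁ γ₂) := by
  unfold taubE psiS
  have h1 : Continuous fun x : ℝ => |x| ^ (3 / 2 : ℝ) :=
    (Real.continuous_rpow_const (by norm_num)).comp continuous_abs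
  have h2 : Continuous fun x : ℝ => |x| ^ (1 / 2 : ℝ) :=
    (Real.continuous_rpow_const (by norm_num)).comp continuous_abs
  fun_prop

theorem taubE_decay {δ γ₁ : ℝ} (h : TaubOk δ γ₁) (γ₂ : ℝ) :
    Integrable (taubE δ γ₁ γ₂) ∧
      ∃ C : ℝ, ∀ u : ℝ, ‖∫ x, taubCh u x * taubE δ γ₁ γ₂ x‖ ≤ C * (1 + |u|) ^ (-2 : ℝ) := by
  have e : ∀ x : ℝ, 0 < x → x ^ (3 / 2 : ℝ) = x * x ^ (1 / 2 : ℝ) := by
    intro x hx
    rw [show (3 / 2 : ℝ) = 1 + 1 / 2 by norm_num, Real.rpow_add hx, Real.rpow_one]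
  refine taub_decay (p := taubG δ (γ₁ + Complex.I * γ₂)) (q := taubG δ (γ₁ - Complex.I * γ₂))
    (taubG_c2 (by simpa using h)) (taubG_c2 (by simpa using h)) ?_ ?_
  · intro x hx
    unfold taubE taubG psiS
    rw [abs_of_pos hx, e x hx]
    congr 1
    push_cast
    ring
  · intro x hx
    unfold taubE taubG psiS
    rw [abs_neg, abs_of_pos hx, e x hx]
    congr 1
    push_cast
    ring

theorem taubB_bound {δ γ₁ : ℝ} (h : TaubOk δ γ₁) (γ₂ : ℝ) :
    ∃ C : ℝ, 0 ≤ C ∧ ∀ u : ℝ, ‖taubB δ γ₁ γ₂ u‖ ≤ C * (1 + |u|) ^ (-(3 / 2) : ℝ) := by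
  obtain ⟨C, hC⟩ := (taubE_decay h γ₂).2
  have hC0 : 0 ≤ C := by
    have := (norm_nonneg _).trans (hC 0)
    simpa using this
  refine ⟨‖(2 * Real.pi : ℂ)⁻¹‖ * C, by positivity, fun u => ?_⟩
  unfold taubB
  rw [norm_mul, mul_assoc]
  refine mul_le_mul_of_nonneg_left ((hC u).trans ?_) (norm_nonneg _)
  refine mul_le_mul_of_nonneg_left ?_ hC0
  exact Real.rpow_le_rpow_of_exponent_le (by linarith [abs_nonneg u]) (by norm_num)

theorem taubB_cont {δ γ₁ : ℝ} (h : TaubOk δ γ₁) (γ₂ : ℝ) : Continuous (taubB δ γ₁ γ₂) := by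
  unfold taubB
  refine continuous_const.mul ?_
  refine continuous_of_dominated (bound := fun ξ => ‖taubE δ γ₁ γ₂ ξ‖) ?_ ?_
    (taubE_decay h γ₂).1.norm ?_
  · exact fun u => (taubCh_mul_int (taubE_decay h γ₂).1 u).aestronglyMeasurable
  · exact fun u => Eventually.of_forall fun ξ => by simp [taubCh_norm]
  · exact Eventually.of_forall fun ξ =>
      (taubCh_cont.comp (continuous_id.prodMk continuous_const)).mul continuous_const

theorem taub_weight_int {p : ℝ} (hp : 1 < p) : Integrable fun x : ℝ => (1 + |x|) ^ (-p) := by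
  have := integrable_one_add_norm (E := ℝ) (μ := volume) (r := p) (by simpa using hp)
  simpa using this

theorem taubB_int {δ γ₁ : ℝ} (h : TaubOk δ γ₁) (γ₂ : ℝ) : Integrable (taubB δ γ₁ γ₂) := by
  obtain ⟨C, -, hC⟩ := taubB_bound h γ₂
  exact ((taub_weight_int (p := 3 / 2) (by norm_num)).const_mul C).mono'
    (taubB_cont h γ₂).aestronglyMeasurable (Eventually.of_forall hC)

open scoped FourierTransform in
theorem taubB_inv {δ γ₁ : ℝ} (h : TaubOk δ γ₁) (γ₂ ξ : ℝ) :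
    ∫ u, taubCh u (-ξ) * taubB δ γ₁ γ₂ u = taubE δ γ₁ γ₂ ξ := by
  have hpi : (0 : ℝ) < 2 * Real.pi := by positivity
  have hF : ∀ w, 𝓕 (taubE δ γ₁ γ₂) w = (2 * Real.pi : ℂ) * taubB δ γ₁ γ₂ (2 * Real.pi * w) := by
    intro w
    unfold taubB
    rw [← mul_assoc, mul_inv_cancel₀ (by exact_mod_cast hpi.ne'), one_mul,
      Real.fourier_real_eq_integral_exp_smul]
    congr 1
    ext v
    unfold taubCh
    rw [smul_eq_mul]
    congr 2
    push_cast
    ring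
  have hI : Integrable (𝓕 (taubE δ γ₁ γ₂)) := by
    rw [funext hF]
    exact ((taubB_int h γ₂).comp_mul_left' hpi.ne').const_mul _
  have := (taubE_decay h γ₂).1.fourierInv_fourier_eq hI (v := ξ) (taubE_cont δ γ₁ γ₂).continuousAt
  rw [← this, Real.fourierInv_eq_fourier_neg, Real.fourier_real_eq_integral_exp_smul]
  have e := Measure.integral_comp_mul_left
    (fun u => taubCh u (-ξ) * taubB δ γ₁ γ₂ u) (2 * Real.pi)
  rw [abs_of_pos (inv_pos.mpr hpi)] at e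
  have e2 : ∫ u, taubCh u (-ξ) * taubB δ γ₁ γ₂ u = (2 * Real.pi : ℂ) *
      ∫ w, taubCh (2 * Real.pi * w) (-ξ) * taubB δ γ₁ γ₂ (2 * Real.pi * w) := by
    rw [e, Complex.real_smul, ← mul_assoc]
    push_cast
    rw [mul_inv_cancel₀ (by exact_mod_cast hpi.ne'), one_mul]
  rw [e2, ← integral_const_mul]
  congr 1
  ext w
  rw [hF, smul_eq_mul]
  unfold taubCh
  rw [mul_left_comm]
  congr 3
  push_cast
  ring

theorem taubB_integral {δ γ₁ : ℝ} (h : TaubOk δ γ₁) (γ₂ : ℝ) : ∫ u, taubB δ γ₁ γ₂ u = 1 := by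
  have := taubB_inv h γ₂ 0
  simpa [taubCh, taubE, psiS] using this

end Pool.Agent.Lib.MP_77dff5_pr
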