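import Pool.Agent.Lib.MP_77dff5_pr.TaubAAux1

/-! Weighted sums against locally bounded point masses. -/

set_option autoImplicit false

namespace Pool.Agent.Lib.MP_77dff5_pr

open MeasureTheory Filter Topology Set

theorem taub_w_le_one {p : ℝ} (hp : 0 ≤ p) (x : ℝ) : (1 + |x|) ^ (-p) ≤ 1 :=
  Real.rpow_le_one_of_one_le_of_nonpos (by linarith [abs_nonneg x]) (by linarith)

theorem taub_w_pos (p x : ℝ) : 0 < (1 + |x|) ^ (-p) := Real.rpow_pos_of_pos (by positivity) _

theorem taub_w_summable {p : ℝ} (hp : 1 < p) : Summable fun k : ℤ => (1 + |(k : ℝ)|) ^ (-p) := by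
  have h : Summable fun n : ℕ => (1 + (n : ℝ)) ^ (-p) := by
    have := (summable_nat_add_iff 1).mpr (Real.summable_nat_rpow.mpr (by linarith : -p < -1))
    refine this.congr fun n => ?_
    push_cast
    rw [add_comm]
  refine summable_int_iff_summable_nat_and_neg.mpr ⟨h.congr fun n => ?_, h.congr fun n => ?_⟩
  · simp
  · simp

theorem taub_wsum_summable {p : ℝ} (hp : 0 ≤ p) {T : Type} {c : T → ℂ}
    (hc : Summable fun t => ‖c t‖) (v : T → ℝ) :
    Summable fun t => ‖c t‖ * (1 + |v t|) ^ (-p) :=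
  hc.of_nonneg_of_le (fun t => mul_nonneg (norm_nonneg _) (taub_w_pos _ _).le)
    fun t => mul_le_of_le_one_right (norm_nonneg _) (taub_w_le_one hp _)

theorem taub_sum_bound {p : ℝ} (hp : 1 < p) : ∃ C₀ : ℝ, 0 ≤ C₀ ∧
    ∀ (T : Type) (u : T → ℝ) (c : T → ℂ) (A : ℝ), Summable (fun t => ‖c t‖) →
      (∀ y : ℝ, ∑' t : {t // y ≤ u t ∧ u t ≤ y + 1}, ‖c t‖ ≤ A) →
      ∀ s : ℝ, ∑' t, ‖c t‖ * (1 + |s - u t|) ^ (-p) ≤ C₀ * A := by
  refine ⟨2 ^ p * ∑' k : ℤ, (1 + |(k : ℝ)|) ^ (-p),
    mul_nonneg (by positivity) (tsum_nonneg fun k => (taub_w_pos _ _).le), ?_⟩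
  intro T u c A hc hA s
  let g : T → ℤ := fun t => ⌊u t - s⌋
  have hs := (taub_wsum_summable (p := p) (by linarith) hc fun t => s - u t).hasSum
  have hf := hs.tsum_fiberwise g
  have hw := ((taub_w_summable hp).mul_left (2 ^ p)).mul_right A
  refine (hasSum_le (fun k => ?_) hf hw.hasSum).trans (le_of_eq ?_)
  swap
  · rw [tsum_mul_right, tsum_mul_left]
  have h1 := hA (s + k)
  have e1 := tsum_subtype {t | s + k ≤ u t ∧ u t ≤ s + k + 1} fun t => ‖c t‖
  have e2 := tsum_subtype (g ⁻¹' {k}) fun t => ‖c t‖ * (1 + |s - u t|) ^ (-p)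
  rw [e2]
  have h2 : ∑' t, {t | s + k ≤ u t ∧ u t ≤ s + k + 1}.indicator (fun t => ‖c t‖) t ≤ A := by
    rw [← e1]
    exact h1
  refine le_trans ?_ (mul_le_mul_of_nonneg_left h2
    (mul_nonneg (by positivity) (taub_w_pos _ _).le))
  rw [← tsum_mul_left]
  refine Summable.tsum_le_tsum (fun t => ?_) (hs.summable.indicator _) ((hc.indicator _).mul_left _)
  by_cases ht : t ∈ g ⁻¹' {k}
  · have hk : ⌊u t - s⌋ = k := ht
    have a1 := Int.floor_le (u t - s)
    have a2 := Int.lt_floor_add_one (u t - s)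
    rw [hk] at a1 a2
    rw [indicator_of_mem ht, indicator_of_mem (by constructor <;> linarith), mul_comm]
    refine mul_le_mul_of_nonneg_right ?_ (norm_nonneg _)
    have a3 : 1 + |(k : ℝ)| ≤ 2 * (1 + |s - u t|) := by
      have : |(k : ℝ)| ≤ |s - u t| + 1 := by
        rw [abs_le]
        constructor
        · linarith [le_abs_self (s - u t)]
        · linarith [neg_abs_le (s - u t)]
      linarith [abs_nonneg (s - u t)]
    have a4 := Real.rpow_le_rpow_of_nonpos (by positivity) a3 (by linarith : -p ≤ 0)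
    rw [Real.mul_rpow (by norm_num) (by positivity)] at a4
    have a5 : (2 : ℝ) ^ p * 2 ^ (-p) = 1 := by
      rw [← Real.rpow_add (by norm_num)]
      simp
    calc (1 + |s - u t|) ^ (-p) = 2 ^ p * (2 ^ (-p) * (1 + |s - u t|) ^ (-p)) := by
          rw [← mul_assoc, a5, one_mul]
      _ ≤ _ := mul_le_mul_of_nonneg_left a4 (by positivity)
  · rw [indicator_of_notMem ht]
    exact mul_nonneg (mul_nonneg (by positivity) (taub_w_pos _ _).le)
      (indicator_nonneg (fun _ _ => norm_nonneg _) _)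

theorem taub_summable {p : ℝ} (hp : 0 ≤ p) {T : Type} {c : T → ℂ}
    (hc : Summable fun t => ‖c t‖) {g : T → ℂ} {v : T → ℝ} {η : ℝ}
    (hg : ∀ t, ‖g t‖ ≤ η * (1 + |v t|) ^ (-p)) : Summable fun t => c t * g t := by
  refine ((taub_wsum_summable hp hc v).mul_left η).of_norm_bounded fun t => ?_
  rw [norm_mul, mul_left_comm]
  exact mul_le_mul_of_nonneg_left (hg t) (norm_nonneg _)

theorem taub_norm_le {p : ℝ} (hp : 0 ≤ p) {T : Type} {c : T → ℂ}
    (hc : Summable fun t => ‖c t‖) {g : T → ℂ} {v : T → ℝ} {η B : ℝ} (hη : 0 ≤ η)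
    (hg : ∀ t, ‖g t‖ ≤ η * (1 + |v t|) ^ (-p)) (hB : ∑' t, ‖c t‖ * (1 + |v t|) ^ (-p) ≤ B) :
    ‖∑' t, c t * g t‖ ≤ η * B := by
  refine le_trans (tsum_of_norm_bounded ((taub_wsum_summable hp hc v).mul_left η).hasSum
    fun t => ?_) ?_
  · rw [norm_mul, mul_left_comm]
    exact mul_le_mul_of_nonneg_left (hg t) (norm_nonneg _)
  · rw [tsum_mul_left]
    exact mul_le_mul_of_nonneg_left hB hη

theorem taub_swap {T : Type} {c : T → ℂ} (hc : Summable fun t => ‖c t‖) {F : T → ℝ → ℂ}
    (hF : ∀ t, Integrable (F t)) {M : ℝ} (hM : ∀ t, ∫ s, ‖F t s‖ ≤ M) :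
    ∑' t, c t * ∫ s, F t s = ∫ s, ∑' t, c t * F t s := by
  have hS : (Function.support c).Countable := hc.of_norm.countable_support
  have : Countable (Function.support c) := hS.to_subtype
  have e : ∀ X : T → ℂ, ∑' t, c t * X t = ∑' t : Function.support c, c t * X t := by
    intro X
    refine (tsum_subtype_eq_of_support_subset (f := fun t => c t * X t) fun t ht => ?_).symm
    exact left_ne_zero_of_mul ht
  rw [e]
  simp_rw [e fun t => F t _]
  rw [← integral_tsum_of_summable_integral_norm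
    (fun t : Function.support c => (hF t).const_mul (c t))]
  · simp_rw [integral_const_mul]
  · refine ((hc.subtype _).mul_right M).of_nonneg_of_le
      (fun t => integral_nonneg fun s => norm_nonneg _) fun t => ?_
    simp_rw [norm_mul, integral_const_mul]
    exact mul_le_mul_of_nonneg_left (hM t) (norm_nonneg _)

theorem taub_mix {ι T : Type} {l : Filter ι} [l.IsCountablyGenerated]
    (u : ι → T → ℝ) (c : ι → T → ℂ) (hc : ∀ i, Summable fun t => ‖c i t‖) {A : ℝ}
    (hA : ∀ᶠ i in l, ∀ y : ℝ, ∑' t : {t // y ≤ u i t ∧ u i t ≤ y + 1}, ‖c i t‖ ≤ A) {L : ℂ}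
    {a : ℝ → ℂ} (ha : Continuous a) {C : ℝ} (hC : 0 ≤ C)
    (hb : ∀ x, ‖a x‖ ≤ C * (1 + |x|) ^ (-(3 / 2) : ℝ))
    (h : ∀ s : ℝ, Tendsto (fun i => ∑' t, c i t * a (s - u i t)) l (𝓝 L))
    {k : ℝ → ℂ} (hk : Integrable k) :
    Tendsto (fun i => ∑' t, c i t * ∫ s, k s * a (s - u i t)) l (𝓝 (L * ∫ s, k s)) := by
  obtain ⟨C₀, -, hC₀⟩ := taub_sum_bound (p := 3 / 2) (by norm_num)
  have hb' : ∀ x, ‖a x‖ ≤ C := fun x =>
    (hb x).trans (mul_le_of_le_one_right hC (taub_w_le_one (by norm_num) x))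
  have e : ∀ i, ∑' t, c i t * ∫ s, k s * a (s - u i t) =
      ∫ s, k s * ∑' t, c i t * a (s - u i t) := by
    intro i
    have hint : ∀ t, Integrable fun s => k s * a (s - u i t) := fun t =>
      hk.mul_bdd (c := C) (ha.comp (continuous_id.sub continuous_const)).aestronglyMeasurable
        (Eventually.of_forall fun s => hb' _)
    rw [taub_swap (hc i) hint (M := ∫ s, ‖k s‖ * C)]
    · congr 1
      ext s
      rw [← tsum_mul_left]
      congr 1
      ext t
      ring
    · intro t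
      refine integral_mono (hint t).norm (hk.norm.mul_const C) fun s => ?_
      simp only [norm_mul]
      exact mul_le_mul_of_nonneg_left (hb' _) (norm_nonneg _)
  simp_rw [e]
  rw [mul_comm L, ← integral_mul_const]
  refine tendsto_integral_filter_of_dominated_convergence (fun s => ‖k s‖ * (C * (C₀ * A))) ?_ ?_
    (hk.norm.mul_const _) (Eventually.of_forall fun s => (h s).const_mul _)
  · refine Eventually.of_forall fun i => hk.aestronglyMeasurable.mul ?_
    refine Continuous.aestronglyMeasurable ?_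
    refine continuous_tsum (fun t => ?_) ((hc i).mul_right C) fun t s => ?_
    · exact continuous_const.mul (ha.comp (continuous_id.sub continuous_const))
    · rw [norm_mul]
      exact mul_le_mul_of_nonneg_left (hb' _) (norm_nonneg _)
  · filter_upwards [hA] with i hi
    refine Eventually.of_forall fun s => ?_
    rw [norm_mul]
    refine mul_le_mul_of_nonneg_left ?_ (norm_nonneg _)
    exact taub_norm_le (p := 3 / 2) (by norm_num) (hc i) hC (fun t => hb _) (hC₀ T _ _ A (hc i) hi s)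

end Pool.Agent.Lib.MP_77dff5_pr
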