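import Pool.Agent.Lib.MP_77dff5_pr.Tree1A

/-! The solution of Tutte's equation, and Lagrange inversion, in a commutative ring. -/

set_option autoImplicit false

namespace Pool.Agent.Lib.MP_77dff5_pr

open Polynomial

variable {R : Type} [CommRing R]

theorem tree1B_eq_of_dvd {N : ℕ} {y a b : R} (hy : y ^ N = 0) (h : y ^ N ∣ a - b) : a = b := by
  rw [hy, zero_dvd_iff, sub_eq_zero] at h
  exact h

theorem tree1B_pow_zero {N j : ℕ} {y : R} (hy : y ^ N = 0) (hj : N ≤ j) : y ^ j = 0 := by
  obtain ⟨k, rfl⟩ := Nat.exists_eq_add_of_le hj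
  rw [pow_add, hy, zero_mul]

theorem tree1B_dvd_mul {d a a' b b' : R} (ha : d ∣ a - a') (hb : d ∣ b - b') :
    d ∣ a * b - a' * b' := by
  have e : a * b - a' * b' = (a - a') * b + a' * (b - b') := by ring
  rw [e]
  exact dvd_add (ha.mul_right _) (hb.mul_left _)

theorem tree1B_dvd_add {d a a' b b' : R} (ha : d ∣ a - a') (hb : d ∣ b - b') :
    d ∣ (a + b) - (a' + b') := by
  have e : (a + b) - (a' + b') = (a - a') + (b - b') := by ring
  rw [e]
  exact dvd_add ha hb

theorem tree1B_dvd_self (d a : R) : d ∣ a - a := by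
  rw [sub_self]
  exact dvd_zero d

theorem tree1B_dvd_sum {d : R} (s : Finset ℕ) {f f' : ℕ → R} (h : ∀ i, d ∣ f i - f' i) :
    d ∣ ∑ i ∈ s, f i - ∑ i ∈ s, f' i := by
  rw [← Finset.sum_sub_distrib]
  exact Finset.dvd_sum fun i _ => h i

theorem tree1B_dvd_step {y a b : R} {j : ℕ} (h : y ^ j ∣ a - b) :
    y ^ (j + 1) ∣ y * a - y * b := by
  rw [← mul_sub, pow_succ']
  exact mul_dvd_mul_left y h

theorem tutte_unique {g : ℕ → R} {K N : ℕ} {y t : R} (hy : y ^ N = 0) {W W' : ℕ → R}
    (h : TutteEq g K y t W) (h' : TutteEq g K y t W') : W = W' := by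
  have key : ∀ j l, y ^ j ∣ W l - W' l := by
    intro j
    induction j with
    | zero => intro l; simp
    | succ j ih =>
      intro l
      rcases l with _ | l
      · rw [h.1, h'.1]
        exact tree1B_dvd_self _ _
      · rw [h.2, h'.2]
        exact tree1B_dvd_step (tree1B_dvd_add
          (tree1B_dvd_sum _ fun i => tree1B_dvd_mul (ih _) (ih _))
          (tree1B_dvd_sum _ fun k => tree1B_dvd_mul (tree1B_dvd_self _ _) (ih _)))
  funext l
  exact tree1B_eq_of_dvd hy (key N l)

theorem tutteLin_unique {g : ℕ → R} {K N : ℕ} {y : R} (hy : y ^ N = 0) {W P P' : ℕ → R}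
    (h : TutteLin g K y W P) (h' : TutteLin g K y W P') : P = P' := by
  have key : ∀ j l, y ^ j ∣ P l - P' l := by
    intro j
    induction j with
    | zero => intro l; simp
    | succ j ih =>
      intro l
      rcases l with _ | l
      · rw [h.1, h'.1]
        exact tree1B_dvd_self _ _
      · rw [h.2, h'.2]
        exact tree1B_dvd_step (tree1B_dvd_add
          (tree1B_dvd_mul (tree1B_dvd_self _ _)
            (tree1B_dvd_sum _ fun i => tree1B_dvd_mul (tree1B_dvd_self _ _) (ih _)))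
          (tree1B_dvd_sum _ fun k => tree1B_dvd_mul (tree1B_dvd_self _ _) (ih _)))
  funext l
  exact tree1B_eq_of_dvd hy (key N l)

theorem tree1B_dvd_mot {d r s s' : R} (h : d ∣ s - s') (l : ℕ) (m : ℤ) :
    d ∣ mot r s l m - mot r s' l m := by
  induction l generalizing m with
  | zero => exact tree1B_dvd_self _ _
  | succ l ih =>
    exact tree1B_dvd_add (tree1B_dvd_add (ih _) (tree1B_dvd_mul h (ih _)))
      (tree1B_dvd_mul (tree1B_dvd_self _ _) (ih _))

theorem tree1B_dvd_Aj {d r s s' : R} (h : d ∣ s - s') (g : ℕ → R) (K : ℕ) (m : ℤ) :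
    d ∣ Aj g K r s m - Aj g K r s' m :=
  tree1B_dvd_sum _ fun _ => tree1B_dvd_mul (tree1B_dvd_self _ _) (tree1B_dvd_mot h _ _)

theorem tree1B_sigIt_dvd (g : ℕ → R) (K : ℕ) (y r : R) (j : ℕ) :
    y ^ j ∣ sigIt g K y r j - sigIt g K y r (j + 1) := by
  induction j with
  | zero => simp
  | succ j ih => exact tree1B_dvd_step (tree1B_dvd_Aj ih g K 0)

/-- the iterates are stationary when `y` is nilpotent -/
theorem sigIt_fix {g : ℕ → R} {K N : ℕ} {y : R} (hy : y ^ N = 0) (r : R) {j : ℕ} (hj : N ≤ j) :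
    sigIt g K y r j = y * Aj g K r (sigIt g K y r j) 0 :=
  tree1B_eq_of_dvd (tree1B_pow_zero hy hj) (tree1B_sigIt_dvd g K y r j)

theorem phiIt_mul {g : ℕ → R} {K N : ℕ} {y : R} (hy : y ^ N = 0) (r : R) {j : ℕ} (hj : N ≤ j) :
    phiIt g K y r j * (1 - y * Aj g K r (sigIt g K y r j) 1) = 1 := by
  unfold phiIt
  rw [geom_sum_mul_neg, mul_pow, tree1B_pow_zero hy (hj.trans (Nat.le_succ j)), zero_mul, sub_zero]

theorem exists_fix {N : ℕ} {y : R} (hy : y ^ N = 0) (G : R[X]) : ∃ r, r = y * G.eval r := by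
  have key : ∀ j : ℕ, ∃ r : R, y ^ j ∣ r - y * G.eval r := by
    intro j
    induction j with
    | zero => exact ⟨0, by simp⟩
    | succ j ih =>
      obtain ⟨r, hr⟩ := ih
      exact ⟨y * G.eval r, tree1B_dvd_step (hr.trans (sub_dvd_eval_sub r (y * G.eval r) G))⟩
  obtain ⟨r, hr⟩ := key N
  exact ⟨r, tree1B_eq_of_dvd hy hr⟩

/-- the functional behind Lagrange inversion -/
noncomputable def tree1B_lam (N : ℕ) (F H : R[X]) : R :=
  ∑ a ∈ Finset.range N, (H * F ^ a).coeff a

theorem tree1B_lam_add (N : ℕ) (F H H' : R[X]) :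
    tree1B_lam N F (H + H') = tree1B_lam N F H + tree1B_lam N F H' := by
  unfold tree1B_lam
  rw [← Finset.sum_add_distrib]
  refine Finset.sum_congr rfl fun a _ => ?_
  rw [add_mul, coeff_add]

theorem tree1B_lam_C_mul (N : ℕ) (F H : R[X]) (c : R) :
    tree1B_lam N F (C c * H) = c * tree1B_lam N F H := by
  unfold tree1B_lam
  rw [Finset.mul_sum]
  refine Finset.sum_congr rfl fun a _ => ?_
  rw [mul_assoc, coeff_C_mul]

theorem tree1B_lam_succ {N : ℕ} {F : R[X]} (hF : F ^ N = 0) (H : R[X]) :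
    tree1B_lam N F H =
      ∑ a ∈ Finset.range N, (H * F ^ (a + 1)).coeff (a + 1) + H.coeff 0 := by
  have h1 := Finset.sum_range_succ (fun a => (H * F ^ a).coeff a) N
  have h2 := Finset.sum_range_succ' (fun a => (H * F ^ a).coeff a) N
  rw [hF, mul_zero, coeff_zero, add_zero] at h1
  rw [pow_zero, mul_one] at h2
  unfold tree1B_lam
  rw [← h1, h2]

theorem tree1B_lam_X_sub {N : ℕ} {F : R[X]} (hF : F ^ N = 0) (H : R[X]) :
    tree1B_lam N F ((X - F) * H) = 0 := by
  have h1 : tree1B_lam N F (X * H) = tree1B_lam N F (F * H) := by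
    rw [tree1B_lam_succ hF, coeff_X_mul_zero, add_zero]
    unfold tree1B_lam
    refine Finset.sum_congr rfl fun a _ => ?_
    rw [mul_assoc, coeff_X_mul]
    exact congrArg (fun p : R[X] => p.coeff a) (by ring)
  have h2 := tree1B_lam_add N F ((X - F) * H) (F * H)
  rw [show (X - F) * H + F * H = X * H by ring, h1] at h2
  exact left_eq_add.mp (h2.trans (add_comm _ _))

/-- the two-variable system has a solution when `y` is nilpotent -/
theorem lagrange [Algebra ℚ R] {N : ℕ} {y : R} (hy : y ^ N = 0) (G H : R[X]) {r : R}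
    (hr : r = y * G.eval r) :
    (∑ a ∈ Finset.range N, (H * (C y * G) ^ a).coeff a) * (1 - y * (derivative G).eval r) =
      H.eval r := by
  have hF : (C y * G) ^ N = 0 := by rw [mul_pow, ← C_pow, hy, C_0, zero_mul]
  obtain ⟨G1, hG1⟩ := X_sub_C_dvd_sub_C_eval (p := G) (a := r)
  have hQ : (C y * G1) ^ N = 0 := by rw [mul_pow, ← C_pow, hy, C_0, zero_mul]
  have hfac : X - C y * G = (X - C r) * (1 - C y * G1) := by
    have e : C r = C y * C (G.eval r) := by rw [← C_mul, ← hr]
    have e2 : G = C (G.eval r) + (X - C r) * G1 := by rw [← hG1]; ring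
    calc X - C y * G = X - C y * (C (G.eval r) + (X - C r) * G1) := by rw [← e2]
      _ = X - C y * C (G.eval r) - C y * ((X - C r) * G1) := by ring
      _ = (X - C r) * (1 - C y * G1) := by rw [← e]; ring
  have hinv : (1 - C y * G1) * ∑ i ∈ Finset.range N, (C y * G1) ^ i = 1 := by
    rw [mul_neg_geom_sum, hQ, sub_zero]
  have hzero : ∀ P : R[X], tree1B_lam N (C y * G) ((X - C r) * P) = 0 := by
    intro P
    have e : (X - C r) * P =
        (X - C y * G) * ((∑ i ∈ Finset.range N, (C y * G1) ^ i) * P) := by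
      rw [hfac, mul_assoc, ← mul_assoc (1 - C y * G1), hinv, one_mul]
    rw [e]
    exact tree1B_lam_X_sub hF _
  have heval : ∀ P : R[X],
      tree1B_lam N (C y * G) P = P.eval r * tree1B_lam N (C y * G) 1 := by
    intro P
    obtain ⟨P1, hP1⟩ := X_sub_C_dvd_sub_C_eval (p := P) (a := r)
    have e : P = C (P.eval r) * 1 + (X - C r) * P1 := by rw [← hP1]; ring
    calc tree1B_lam N (C y * G) P
        = tree1B_lam N (C y * G) (C (P.eval r) * 1 + (X - C r) * P1) := by rw [← e]
      _ = P.eval r * tree1B_lam N (C y * G) 1 := by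
        rw [tree1B_lam_add, tree1B_lam_C_mul, hzero, add_zero]
  have hder : ∀ (F : R[X]) (a : ℕ),
      (derivative F * F ^ a).coeff a = (1 * F ^ (a + 1)).coeff (a + 1) := by
    intro F a
    have hu : IsUnit ((a : R) + 1) := by
      have h := (IsUnit.mk0 ((a : ℚ) + 1) (by positivity)).map (algebraMap ℚ R)
      rwa [map_add, map_natCast, map_one] at h
    have h1 := coeff_derivative (F ^ (a + 1)) a
    rw [derivative_pow_succ, mul_assoc, coeff_C_mul] at h1
    refine hu.mul_left_cancel ?_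
    rw [one_mul, mul_comm (derivative F), h1, mul_comm]
  have hone : tree1B_lam N (C y * G) 1 =
      tree1B_lam N (C y * G) (derivative (C y * G)) + 1 := by
    rw [tree1B_lam_succ hF 1, coeff_one_zero]
    unfold tree1B_lam
    exact congrArg (· + 1) (Finset.sum_congr rfl fun a _ => (hder _ a).symm)
  have h2 := heval (derivative (C y * G))
  rw [derivative_C_mul, eval_mul, eval_C, ← derivative_C_mul] at h2
  have h3 : tree1B_lam N (C y * G) 1 * (1 - y * (derivative G).eval r) = 1 := by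
    rw [h2] at hone
    linear_combination hone
  change tree1B_lam N (C y * G) H * _ = _
  rw [heval H, mul_assoc, h3, mul_one]

end Pool.Agent.Lib.MP_77dff5_pr
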