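import Pool.Agent.Lib.MP_77dff5_pr.TDefs

/-! Laurent polynomials for the solution of Tutte's equation. -/

set_option autoImplicit false

namespace Pool.Agent.Lib.MP_77dff5_pr

open LaurentPolynomial

variable {R : Type} [CommRing R]

/-- coefficient functional -/
noncomputable def t1c (m : ℤ) : LaurentPolynomial R →ₗ[R] R where
  toFun F := F.coeff m
  map_add' F G := by simp
  map_smul' a F := by simp

theorem t1c_C_mul (m : ℤ) (a : R) (F : LaurentPolynomial R) : t1c m (C a * F) = a * t1c m F := by
  rw [← smul_eq_C_mul, map_smul, smul_eq_mul]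

theorem t1c_T_mul (m n : ℤ) (F : LaurentPolynomial R) : t1c m (T n * F) = t1c (m - n) F := by
  have := AddMonoidAlgebra.coeff_single_mul_eq_mul_coeff (x := F) (r := (1 : R)) (m := n)
    (m₁ := m) (m - n) (fun m' _ => by omega)
  rw [one_mul] at this
  exact this

theorem t1c_one (m : ℤ) : t1c m (1 : LaurentPolynomial R) = if m = 0 then 1 else 0 := by
  have := C_apply (1 : R) m
  rwa [map_one] at this

theorem t1c_C (m : ℤ) (a : R) : t1c m (C a) = if m = 0 then a else 0 := C_apply a m

theorem t1c_T (m n : ℤ) : t1c m (T n : LaurentPolynomial R) = if n = m then 1 else 0 :=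
  T_apply m n

theorem t1_TT : (T 1 : LaurentPolynomial R) * T (-1) = 1 := by
  rw [← T_add]
  rfl

/-- the step polynomial -/
noncomputable def t1z (r s : R) : LaurentPolynomial R := T 1 + C s + C r * T (-1)

/-- a polynomial in `ω` -/
noncomputable def t1P : Polynomial R →ₐ[R] LaurentPolynomial R := Polynomial.aeval (T 1)

/-- a polynomial in `r / ω` -/
noncomputable def t1I (r : R) : Polynomial R →ₐ[R] LaurentPolynomial R :=
  Polynomial.aeval (C r * T (-1))

theorem t1P_X : (t1P : Polynomial R →ₐ[R] _) Polynomial.X = T 1 := Polynomial.aeval_X _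

theorem t1I_X (r : R) : t1I r Polynomial.X = C r * T (-1) := Polynomial.aeval_X _

theorem t1P_C (a : R) : t1P (Polynomial.C a) = C a := Polynomial.aeval_C _ _

theorem t1I_C (r a : R) : t1I r (Polynomial.C a) = C a := Polynomial.aeval_C _ _

theorem t1P_monomial (n : ℕ) (a : R) : t1P (Polynomial.monomial n a) = C a * T n := by
  rw [← Polynomial.C_mul_X_pow_eq_monomial, map_mul, map_pow, t1P_C, t1P_X, T_pow, mul_one]

theorem t1I_monomial (r : R) (n : ℕ) (a : R) :
    t1I r (Polynomial.monomial n a) = C (a * r ^ n) * T (-n) := by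
  rw [← Polynomial.C_mul_X_pow_eq_monomial, map_mul, map_pow, t1I_C, t1I_X, mul_pow, T_pow,
    map_mul, map_pow, mul_assoc, mul_neg, mul_one]

theorem t1c_mul_CT (m n : ℤ) (a : R) (F : LaurentPolynomial R) :
    t1c m (F * (C a * T n)) = a * t1c (m - n) F := by
  rw [mul_comm F, mul_assoc, t1c_C_mul, t1c_T_mul]

theorem t1c_z_mul (r s : R) (m : ℤ) (F : LaurentPolynomial R) :
    t1c m (t1z r s * F) = t1c (m - 1) F + s * t1c m F + r * t1c (m + 1) F := by
  rw [t1z, add_mul, add_mul, map_add, map_add, mul_assoc, t1c_C_mul, t1c_C_mul, t1c_T_mul,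
    t1c_T_mul, sub_neg_eq_add]

theorem t1c_z_pow (r s : R) (l : ℕ) (m : ℤ) : t1c m (t1z r s ^ l) = mot r s l m := by
  induction l generalizing m with
  | zero => rw [pow_zero, t1c_one, mot]
  | succ l ih => rw [pow_succ', t1c_z_mul, ih, ih, ih, mot]

/-- symmetric Laurent polynomials -/
def t1Sym (r : R) (F : LaurentPolynomial R) : Prop :=
  ∀ m : ℕ, t1c (-(m : ℤ)) F = r ^ m * t1c m F

theorem t1Sym.add {r : R} {F G : LaurentPolynomial R} (hF : t1Sym r F) (hG : t1Sym r G) :
    t1Sym r (F + G) := fun m => by rw [map_add, map_add, hF, hG, mul_add]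

theorem t1Sym.C_mul {r : R} {F : LaurentPolynomial R} (hF : t1Sym r F) (a : R) :
    t1Sym r (C a * F) := fun m => by rw [t1c_C_mul, t1c_C_mul, hF, mul_left_comm]

theorem t1Sym_C (r a : R) : t1Sym r (C a) := fun m => by
  rw [t1c_C, t1c_C]
  rcases m with _ | m
  · simp
  · rw [if_neg (by omega), if_neg (by omega), mul_zero]

theorem t1Sym.z_mul {r : R} {F : LaurentPolynomial R} (hF : t1Sym r F) (s : R) :
    t1Sym r (t1z r s * F) := fun m => by
  rcases m with _ | m
  · simp
  · have h1 := hF m
    have h2 := hF (m + 1)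
    have h3 := hF (m + 2)
    have e1 : (-((m + 1 : ℕ) : ℤ)) - 1 = -((m + 2 : ℕ) : ℤ) := by push_cast; ring
    have e2 : (-((m + 1 : ℕ) : ℤ)) + 1 = -(m : ℤ) := by push_cast; ring
    have e3 : ((m + 1 : ℕ) : ℤ) - 1 = (m : ℤ) := by push_cast; ring
    have e4 : ((m + 1 : ℕ) : ℤ) + 1 = ((m + 2 : ℕ) : ℤ) := by push_cast; ring
    rw [t1c_z_mul, t1c_z_mul, e1, e2, e3, e4, h1, h2, h3]
    ring

theorem t1Sym.z_pow_mul {r : R} {F : LaurentPolynomial R} (hF : t1Sym r F) (s : R) (l : ℕ) :
    t1Sym r (t1z r s ^ l * F) := by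
  induction l with
  | zero => rwa [pow_zero, one_mul]
  | succ l ih =>
    rw [pow_succ', mul_assoc]
    exact ih.z_mul s

theorem t1Sym_z_pow (r s : R) (l : ℕ) : t1Sym r (t1z r s ^ l) := by
  have := (t1Sym_C r 1).z_pow_mul s l
  rwa [map_one, mul_one] at this

theorem t1Sym_pair (r : R) (d : ℕ) : t1Sym r (T d + C (r ^ d) * T (-d)) := fun m => by
  rw [map_add, map_add, t1c_C_mul, t1c_C_mul, t1c_T, t1c_T, t1c_T, t1c_T]
  by_cases h : d = m
  · subst h
    rcases d with _ | d
    · simp
    · rw [if_neg (by omega), if_pos rfl, if_pos rfl, if_neg (by omega)]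
      ring
  · rw [if_neg (by omega), if_neg (by omega), if_neg (by omega), if_neg (by omega)]
    ring

theorem t1Sym_mono (r a b : R) (i d : ℕ) :
    t1Sym r (t1P (Polynomial.monomial (i + d) a) * t1I r (Polynomial.monomial i b) +
      t1P (Polynomial.monomial i b) * t1I r (Polynomial.monomial (i + d) a)) := by
  have h1 : (T ((i + d : ℕ) : ℤ) : LaurentPolynomial R) * T (-(i : ℤ)) = T d := by
    rw [← T_add]
    congr 1
    push_cast
    ring
  have h2 : (T (i : ℤ) : LaurentPolynomial R) * T (-((i + d : ℕ) : ℤ)) = T (-d) := by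
    rw [← T_add]
    congr 1
    push_cast
    ring
  have e : t1P (Polynomial.monomial (i + d) a) * t1I r (Polynomial.monomial i b) +
      t1P (Polynomial.monomial i b) * t1I r (Polynomial.monomial (i + d) a) =
      C (a * b * r ^ i) * (T d + C (r ^ d) * T (-d)) := by
    rw [t1P_monomial, t1P_monomial, t1I_monomial, t1I_monomial, ← h1, ← h2]
    simp only [map_mul, map_pow]
    ring
  rw [e]
  exact (t1Sym_pair r d).C_mul _

theorem t1Sym_cross (r : R) (p q : Polynomial R) :
    t1Sym r (t1P p * t1I r q + t1P q * t1I r p) := by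
  induction p using Polynomial.induction_on' with
  | add p p' hp hp' =>
    have := hp.add hp'
    convert this using 1
    simp only [map_add]
    ring
  | monomial n a =>
    induction q using Polynomial.induction_on' with
    | add q q' hq hq' =>
      have := hq.add hq'
      convert this using 1
      simp only [map_add]
      ring
    | monomial k b =>
      rcases le_total k n with h | h
      · obtain ⟨d, rfl⟩ := Nat.exists_eq_add_of_le h
        exact t1Sym_mono r a b k d
      · obtain ⟨d, rfl⟩ := Nat.exists_eq_add_of_le h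
        rw [add_comm]
        exact t1Sym_mono r b a n d

theorem t1Sym_sq (r : R) (p : Polynomial R) : t1Sym r (t1P p * t1I r p) := by
  induction p using Polynomial.induction_on' with
  | add p q hp hq =>
    have := (hp.add hq).add (t1Sym_cross r p q)
    convert this using 1
    simp only [map_add]
    ring
  | monomial n a =>
    have h1 : (T (n : ℤ) : LaurentPolynomial R) * T (-(n : ℤ)) = 1 := by
      rw [← T_add, add_neg_cancel, T_zero]
    have e : t1P (Polynomial.monomial n a) * t1I r (Polynomial.monomial n a) =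
        C (a * (a * r ^ n)) := by
      rw [t1P_monomial, t1I_monomial, mul_mul_mul_comm, h1, mul_one, ← map_mul]
    rw [e]
    exact t1Sym_C r _

theorem t1Sym.zero_coeff {r : R} {F : LaurentPolynomial R} (hF : t1Sym r F) (p : Polynomial R) :
    t1c 0 (F * t1P p) = t1c 0 (F * t1I r p) := by
  induction p using Polynomial.induction_on' with
  | add p q hp hq => simp only [map_add, mul_add, hp, hq]
  | monomial n a =>
    rw [t1P_monomial, t1I_monomial, t1c_mul_CT, t1c_mul_CT, zero_sub, zero_sub, neg_neg, hF,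
      mul_assoc]

/-- only powers below `N` -/
def t1Lt (N : ℤ) (F : LaurentPolynomial R) : Prop := ∀ m, N ≤ m → t1c m F = 0

/-- only powers above `N` -/
def t1Gt (N : ℤ) (F : LaurentPolynomial R) : Prop := ∀ m, m ≤ N → t1c m F = 0

theorem t1Lt.mul_I {N : ℤ} {F : LaurentPolynomial R} (hF : t1Lt N F) (r : R) (p : Polynomial R) :
    t1Lt N (F * t1I r p) := fun m hm => by
  induction p using Polynomial.induction_on' with
  | add p q hp hq => rw [map_add, mul_add, map_add, hp, hq, add_zero]
  | monomial n a => rw [t1I_monomial, t1c_mul_CT, hF _ (by omega), mul_zero]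

theorem t1Gt.mul_P {N : ℤ} {F : LaurentPolynomial R} (hF : t1Gt N F) (p : Polynomial R) :
    t1Gt N (F * t1P p) := fun m hm => by
  induction p using Polynomial.induction_on' with
  | add p q hp hq => rw [map_add, mul_add, map_add, hp, hq, add_zero]
  | monomial n a => rw [t1P_monomial, t1c_mul_CT, hF _ (by omega), mul_zero]

theorem t1Lt.mul_CT {N : ℤ} {F : LaurentPolynomial R} (hF : t1Lt N F) (a : R) (n : ℤ) :
    t1Lt (N + n) (F * (C a * T n)) := fun m hm => by
  rw [t1c_mul_CT, hF _ (by omega), mul_zero]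

/-- Every combination of powers of the step polynomial has the symmetric normal form. -/
theorem t1_dec_pow (r s : R) (l : ℕ) : ∃ (a : R) (q : Polynomial R),
    t1z r s ^ l = C a + t1P (Polynomial.X * q) + t1I r (Polynomial.X * q) := by
  induction l with
  | zero => exact ⟨1, 0, by simp⟩
  | succ l ih =>
    obtain ⟨a, q, h⟩ := ih
    refine ⟨s * a + 2 * r * q.coeff 0, Polynomial.C a + Polynomial.C s * q + Polynomial.X * q +
      Polynomial.C r * q.divX, ?_⟩
    have hq : q = Polynomial.X * q.divX + Polynomial.C (q.coeff 0) := (q.X_mul_divX_add).symm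
    generalize q.divX = q1 at hq ⊢
    generalize q.coeff 0 = q0 at hq ⊢
    subst hq
    rw [pow_succ', h, t1z]
    simp only [map_add, map_mul, t1P_X, t1I_X, t1P_C, t1I_C, map_ofNat]
    linear_combination (C r * (T 1 * t1P q1 + C q0) + C r * (C r * T (-1) * t1I r q1 + C q0)) *
      (t1_TT (R := R))

theorem t1_dec_sum (g : ℕ → R) (r s : R) (K : ℕ) : ∃ (a : R) (q : Polynomial R),
    ∑ k ∈ Finset.range K, C (g (k + 1)) * t1z r s ^ k =
      C a + t1P (Polynomial.X * q) + t1I r (Polynomial.X * q) := by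
  induction K with
  | zero => exact ⟨0, 0, by simp⟩
  | succ K ih =>
    obtain ⟨a, q, h⟩ := ih
    obtain ⟨b, p, h'⟩ := t1_dec_pow r s K
    refine ⟨a + g (K + 1) * b, q + Polynomial.C (g (K + 1)) * p, ?_⟩
    rw [Finset.sum_range_succ, h, h']
    simp only [map_add, map_mul, t1P_C, t1I_C]
    ring

/-- the residue of `F dz` -/
noncomputable def t1res (r : R) : LaurentPolynomial R →ₗ[R] R := t1c (-1) - r • t1c 1

theorem t1res_apply (r : R) (F : LaurentPolynomial R) :
    t1res r F = t1c (-1) F - r * t1c 1 F := rfl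

theorem t1Sym.res {r : R} {F : LaurentPolynomial R} (hF : t1Sym r F) : t1res r F = 0 := by
  have := hF 1
  rw [Nat.cast_one, pow_one] at this
  rw [t1res_apply, this, sub_self]

theorem t1Lt.shift {F : LaurentPolynomial R} (hF : t1Lt 0 F) (r s : R) :
    t1Lt 0 (t1z r s * F - C (t1c (-1) F)) := fun m hm => by
  rw [map_sub, t1c_z_mul, t1c_C, hF m hm, hF (m + 1) (by omega)]
  split_ifs with h
  · subst h
    simp
  · rw [hF (m - 1) (by omega)]
    simp

/-- The convolution identity. -/
theorem t1_conv (r s : R) (Λ : LaurentPolynomial R →ₗ[R] R) (V : LaurentPolynomial R)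
    (hΛ : ∀ F, t1Lt 0 F → Λ (F * V) = 0) (l : ℕ) :
    ∀ U, t1Lt 0 U → Λ (t1z r s ^ l * U * V) =
      ∑ i ∈ Finset.range l, t1res r (t1z r s ^ i * U) * Λ (t1z r s ^ (l - 1 - i) * V) := by
  induction l with
  | zero =>
    intro U hU
    rw [pow_zero, one_mul, hΛ U hU, Finset.sum_range_zero]
  | succ l ih =>
    intro U hU
    have e : t1z r s ^ (l + 1) * U * V = t1z r s ^ l * (t1z r s * U - C (t1c (-1) U)) * V +
        t1c (-1) U • (t1z r s ^ l * V) := by
      rw [smul_eq_C_mul]
      ring
    rw [e, map_add, map_smul, ih _ (hU.shift r s), Finset.sum_range_succ', smul_eq_mul]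
    congr 1
    · refine Finset.sum_congr rfl fun i _ => ?_
      have e1 : l + 1 - 1 - (i + 1) = l - 1 - i := by omega
      rw [e1, mul_sub, map_sub, ← mul_assoc, ← pow_succ, mul_comm _ (C _),
        ((t1Sym_z_pow r s i).C_mul _).res, sub_zero]
    · rw [pow_zero, one_mul, t1res_apply, hU 1 (by omega), mul_zero, sub_zero]
      rfl

end Pool.Agent.Lib.MP_77dff5_pr
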