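import Pool.Agent.Lib.MP_77dff5_pr.TDefs
import Pool.Agent.Lib.MP_77dff5_pr.Tree1AAux1

/-! The solution of Tutte's equation, and Lagrange inversion, in a commutative ring. -/

set_option autoImplicit false

namespace Pool.Agent.Lib.MP_77dff5_pr

open Polynomial

theorem map_mot {R S : Type} [CommSemiring R] [CommSemiring S] (φ : R →+* S) (r s : R) (l : ℕ)
    (m : ℤ) : φ (mot r s l m) = mot (φ r) (φ s) l m := by
  induction l generalizing m with
  | zero =>
    simp only [mot]
    split_ifs <;> simp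
  | succ l ih => simp only [mot, map_add, map_mul, ih]

theorem map_Aj {R S : Type} [CommSemiring R] [CommSemiring S] (φ : R →+* S) (g : ℕ → R) (K : ℕ)
    (r s : R) (m : ℤ) : φ (Aj g K r s m) = Aj (fun k => φ (g k)) K (φ r) (φ s) m := by
  simp only [Aj, map_sum, map_mul, map_mot]

theorem map_sigIt {R S : Type} [CommSemiring R] [CommSemiring S] (φ : R →+* S) (g : ℕ → R)
    (K : ℕ) (y r : R) (j : ℕ) :
    φ (sigIt g K y r j) = sigIt (fun k => φ (g k)) K (φ y) (φ r) j := by
  induction j with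
  | zero => simp only [sigIt, map_zero]
  | succ j ih => simp only [sigIt, map_mul, map_Aj, ih]

theorem map_phiIt {R S : Type} [CommSemiring R] [CommSemiring S] (φ : R →+* S) (g : ℕ → R)
    (K : ℕ) (y r : R) (j : ℕ) :
    φ (phiIt g K y r j) = phiIt (fun k => φ (g k)) K (φ y) (φ r) j := by
  simp only [phiIt, map_sum, map_pow, map_mul, map_Aj, map_sigIt]

theorem mot_neg {R : Type} [CommSemiring R] (r s : R) (l m : ℕ) :
    mot r s l (-(m : ℤ)) = r ^ m * mot r s l m := by
  induction l generalizing m with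
  | zero =>
    simp only [mot]
    rcases m with _ | m
    · simp
    · rw [if_neg (by omega), if_neg (by omega), mul_zero]
  | succ l ih =>
    rcases m with _ | m
    · simp
    · have e1 : (-((m + 1 : ℕ) : ℤ)) - 1 = -((m + 2 : ℕ) : ℤ) := by push_cast; ring
      have e2 : (-((m + 1 : ℕ) : ℤ)) + 1 = -(m : ℤ) := by push_cast; ring
      have e3 : ((m + 1 : ℕ) : ℤ) - 1 = (m : ℤ) := by push_cast; ring
      have e4 : ((m + 1 : ℕ) : ℤ) + 1 = ((m + 2 : ℕ) : ℤ) := by push_cast; ring
      rw [mot, mot, e1, e2, e3, e4, ih, ih, ih]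
      ring

variable {R : Type} [CommRing R]

theorem tutte_sol (g : ℕ → R) (K : ℕ) (y t r s : R) (hs : s = y * Aj g K r s 0)
    (hr : r = y * (t + Aj g K r s (-1))) :
    ∃ W : ℕ → R, TutteEq g K y t W ∧
      W 2 + 2 * s * Aj g K r s (-2) + Aj g K r s (-3) = t * (s ^ 2 + r) ∧
      TutteLin g K y W fun l => mot r s l 0 := by
  obtain ⟨a, q, hA⟩ := t1_dec_sum g r s K
  have hq : q = X * q.divX + C (q.coeff 0) := (q.X_mul_divX_add).symm
  generalize q.divX = q1 at hq
  generalize q.coeff 0 = a1 at hq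
  subst hq
  set z := t1z r s with hz
  set A := ∑ k ∈ Finset.range K, LaurentPolynomial.C (g (k + 1)) * z ^ k with hAdef
  have hAj : ∀ m, Aj g K r s m = t1c m A := fun m => by
    rw [hAdef, map_sum, Aj]
    exact Finset.sum_congr rfl fun k _ => by rw [t1c_C_mul, hz, t1c_z_pow]
  have hsum : ∀ (Λ : LaurentPolynomial R →ₗ[R] R) (V : LaurentPolynomial R) (l : ℕ),
      ∑ k ∈ Finset.range K, g (k + 1) * Λ (z ^ (l + k) * V) = Λ (z ^ l * A * V) := by
    intro Λ V l
    rw [hAdef, Finset.mul_sum, Finset.sum_mul, map_sum]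
    refine Finset.sum_congr rfl fun k _ => ?_
    rw [← smul_eq_mul, ← map_smul, LaurentPolynomial.smul_eq_C_mul]
    congr 1
    ring
  have h1L : t1Lt 1 (1 : LaurentPolynomial R) := fun m hm => by
    rw [t1c_one, if_neg (by omega)]
  have hIQ : ∀ {N : ℤ} {F : LaurentPolynomial R}, t1Lt N F →
      t1Lt (N + -1 + -1) (F * t1I r (X * X * q1)) := fun {N F} hF => by
    have := ((hF.mul_CT r (-1)).mul_CT r (-1)).mul_I r q1
    simpa only [map_mul, t1I_X, mul_assoc] using this
  have hPQ : t1Gt 1 (t1P (X * X * q1)) := by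
    have h0 : t1Gt 1 (LaurentPolynomial.T 1 * LaurentPolynomial.T 1 : LaurentPolynomial R) :=
      fun m hm => by rw [t1c_T_mul, t1c_T, if_neg (by omega)]
    simpa only [map_mul, t1P_X] using h0.mul_P q1
  have hIQ1 := hIQ h1L
  rw [one_mul] at hIQ1
  have hA' : A = LaurentPolynomial.C a + LaurentPolynomial.C a1 * LaurentPolynomial.T 1 +
      LaurentPolynomial.C (a1 * r) * LaurentPolynomial.T (-1) + t1P (X * X * q1) +
      t1I r (X * X * q1) := by
    rw [hA]
    simp only [map_add, map_mul, t1P_X, t1I_X, t1P_C, t1I_C]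
    ring
  generalize X * X * q1 = Q at hA' hIQ hPQ hIQ1
  have cA : ∀ m, m ≤ 1 → t1c m A = (if m = 0 then a else 0) + a1 * (if 1 = m then 1 else 0) +
      a1 * r * (if -1 = m then 1 else 0) + t1c m (t1I r Q) := fun m hm => by
    rw [hA']
    simp only [map_add, t1c_C_mul, t1c_C, t1c_T, hPQ m hm, add_zero]
  have c0 : Aj g K r s 0 = a := by
    rw [hAj, cA 0 (by omega), hIQ1 0 (by omega)]
    simp
  have c1 : Aj g K r s (-1) = a1 * r := by
    rw [hAj, cA (-1) (by omega), hIQ1 (-1) (by omega)]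
    simp
  have c2 : Aj g K r s (-2) = t1c (-2) (t1I r Q) := by
    rw [hAj, cA (-2) (by omega)]
    simp
  have c3 : Aj g K r s (-3) = t1c (-3) (t1I r Q) := by
    rw [hAj, cA (-3) (by omega)]
    simp
  rw [c0] at hs
  rw [c1] at hr
  have hsC := congrArg (LaurentPolynomial.C (R := R)) hs
  have hrC := congrArg (LaurentPolynomial.C (R := R)) hr
  simp only [map_mul, map_add] at hsC hrC
  set U := LaurentPolynomial.C t * LaurentPolynomial.T (-1) - t1I r Q with hU
  set p := C (1 - y * a1) * X - C y * Q with hp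
  have hUL : ∀ {N : ℤ} {F : LaurentPolynomial R}, t1Lt N F → t1Lt (N + -1) (F * U) :=
    fun {N F} hF m hm => by
      rw [hU, mul_sub, map_sub, hF.mul_CT t (-1) m hm, hIQ hF m (by omega), sub_zero]
  have hU0 : t1Lt 0 U := by
    have := hUL h1L
    rwa [one_mul] at this
  have cU : ∀ m, t1c m U = t * (if -1 = m then 1 else 0) - t1c m (t1I r Q) := fun m => by
    rw [hU, map_sub, t1c_C_mul, t1c_T]
  have hdec : z = LaurentPolynomial.C y * A + LaurentPolynomial.C y * U + t1P p := by
    rw [hz, t1z, hA', hU, hp]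
    simp only [map_sub, map_mul, map_one, t1P_X, t1P_C]
    linear_combination hsC + LaurentPolynomial.T (-1) * hrC
  have hIp : t1I r p = LaurentPolynomial.C y * U := by
    rw [hU, hp]
    simp only [map_sub, map_mul, map_one, t1I_X, t1I_C]
    linear_combination LaurentPolynomial.T (-1) * hrC
  have hsym : t1Sym r (t1P p * U) := by
    have h1 := ((t1Sym_C r (t * (1 - y * a1))).add
      ((t1Sym_cross r X Q).C_mul (-(1 - y * a1)))).add ((t1Sym_sq r Q).C_mul y)
    convert h1 using 1
    rw [hU, hp]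
    simp only [map_sub, map_mul, map_one, map_neg, t1P_X, t1P_C, t1I_X]
    linear_combination (LaurentPolynomial.C t * (1 - LaurentPolynomial.C y * LaurentPolynomial.C a1)) *
      (t1_TT (R := R)) + t1P Q * LaurentPolynomial.T (-1) * hrC
  refine ⟨fun l => t1res r (z ^ l * U), ⟨?_, fun l => ?_⟩, ?_, ?_, fun l => ?_⟩
  · show t1res r (z ^ 0 * U) = t
    rw [pow_zero, one_mul, t1res_apply, hU0 1 (by omega), cU, hIQ1 (-1) (by omega)]
    simp
  · have e : z ^ (l + 1) * U = y • (z ^ l * U * U) + y • (z ^ l * A * U) +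
        z ^ l * (t1P p * U) := by
      rw [LaurentPolynomial.smul_eq_C_mul, LaurentPolynomial.smul_eq_C_mul]
      linear_combination z ^ l * U * hdec
    have h2 := t1_conv r s (t1res r) U (fun F hF => by
      rw [t1res_apply, hUL hF (-1) (by omega), hUL hF 1 (by omega), mul_zero, sub_zero]) l U hU0
    show t1res r (z ^ (l + 1) * U) = _
    rw [e, map_add, map_add, map_smul, map_smul, (hsym.z_pow_mul s l).res, hsum, ← hz] at *
    rw [← h2, smul_eq_mul, smul_eq_mul]
    ring
  · show t1res r (z ^ 2 * U) + _ + _ = _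
    rw [c2, c3, pow_two z, mul_assoc, t1res_apply, hz]
    simp only [t1c_z_mul]
    norm_num
    rw [hU0 0 (by omega), hU0 1 (by omega), hU0 2 (by omega), hU0 3 (by omega), cU (-1), cU (-2),
      cU (-3), hIQ1 (-1) (by omega)]
    norm_num
    ring
  · simp [mot]
  · have e : z ^ (l + 1) = y • (z ^ l * U * 1) + y • (z ^ l * A * 1) + z ^ l * t1P p := by
      rw [LaurentPolynomial.smul_eq_C_mul, LaurentPolynomial.smul_eq_C_mul]
      linear_combination z ^ l * hdec
    have h2 := t1_conv r s (t1c 0) 1 (fun F hF => by rw [mul_one, hF 0 le_rfl]) l U hU0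
    have h3 := (t1Sym_z_pow r s l).zero_coeff p
    rw [hIp, mul_left_comm, t1c_C_mul, ← hz] at h3
    have h4 := hsum (t1c 0) 1 l
    simp only [← t1c_z_pow, ← hz]
    rw [e, map_add, map_add, map_smul, map_smul, h3, ← h4, ← hz] at *
    simp only [mul_one] at h2 ⊢
    rw [← h2, smul_eq_mul, smul_eq_mul]
    ring

end Pool.Agent.Lib.MP_77dff5_pr
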