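import Pool.Agent.Lib.MP_77dff5_pr.Tree2Aux2
import Pool.Agent.Lib.MP_77dff5_pr.Root

/-! Planar maps with `s + 1` faces, two of them marked, as a conditioned sum of `s` steps. -/

set_option autoImplicit false

namespace Pool.Agent.Lib.MP_77dff5_pr

open scoped ENNReal

namespace T2

/-- faces, edges and degree counts of a rooted map -/
noncomputable def gam (R : RG) : Gam := (R.1 - R.2.1 + 1, R.1, zeta R.2.2)

/-- sum over the maps of root degree `l` -/
noncomputable def Msum (l : ℕ) (φ : Gam → ℝ≥0∞) : ℝ≥0∞ :=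
  ∑' R : RG, w0 R * (ind (deg R.2.2 none = l) * φ (gam R))

theorem degree_zeta (R : RG) : (zeta R.2.2).degree = R.2.1 := by
  simp [zeta, map_sum]

theorem rconn_of_w0 {R : RG} (h : w0 R ≠ 0) : RConn R.2.2 := by
  by_contra h'
  exact h (by rw [w0, ind_false h', mul_zero, zero_mul])

theorem le_of_w0 {R : RG} (h : w0 R ≠ 0) : R.2.1 ≤ R.1 := by
  simpa using (rconn_of_w0 h).card_le

theorem deg_le_two_mul (R : RG) : deg R.2.2 none ≤ 2 * R.1 := by
  have := Finite.card_subtype_le fun x => R.2.2 x = none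
  rw [Nat.card_prod, Nat.card_eq_fintype_card (α := Fin R.1), Nat.card_eq_fintype_card (α := Bool),
    Fintype.card_fin, Fintype.card_bool] at this
  unfold deg
  omega

theorem tree2_tsum_sum {α : Type} (n : ℕ) (f : ℕ → α → ℝ≥0∞) :
    ∑' a, ∑ i ∈ Finset.range n, f i a = ∑ i ∈ Finset.range n, ∑' a, f i a :=
  Summable.tsum_finsetSum fun _ _ => ENNReal.summable

theorem Msum_tutte (l : ℕ) (φ : Gam → ℝ≥0∞) :
    Msum l φ = ind (0 = l) * φ (1, 0, 0) +
      ∑' R₁ : RG, ∑' R₂ : RG, w0 R₁ * w0 R₂ * (ind (deg R₁.2.2 none + deg R₂.2.2 none + 2 = l) *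
        φ ((0, 1, 0) + (gam R₁ + gam R₂))) +
      ∑' R : RG, w0 R * ∑ i ∈ Finset.range (deg R.2.2 none + 1), ind (i + 1 = l) *
        φ ((0, 1, 0) + ((0, 0, Finsupp.single (deg R.2.2 none - i + 1) 1) + gam R)) := by
  have h := tutte fun x => ind (x.2.1 = l) * φ (x.1 - x.2.2.degree + 1, x.1, x.2.2)
  simp only [map_add, degree_zeta, Finsupp.degree_single, map_zero] at h
  refine Eq.trans h ?_
  congr 1
  · congr 1
    refine tsum_congr fun R₁ => tsum_congr fun R₂ => ?_
    by_cases h1 : w0 R₁ = 0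
    · rw [h1, zero_mul, zero_mul, zero_mul]
    by_cases h2 : w0 R₂ = 0
    · rw [h2, mul_zero, zero_mul, zero_mul]
    have a1 := le_of_w0 h1
    have a2 := le_of_w0 h2
    congr 3
    simp only [gam, Prod.mk_add_mk, Prod.mk.injEq, zero_add, and_true]
    omega
  · refine tsum_congr fun R => ?_
    congr 1
    refine Finset.sum_congr rfl fun i _ => ?_
    congr 2
    simp only [gam, Prod.mk_add_mk, Prod.mk.injEq, zero_add]
    refine ⟨by omega, by omega, add_comm _ _⟩

theorem Msum_zero (φ : Gam → ℝ≥0∞) : Msum 0 φ = φ (1, 0, 0) := by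
  rw [Msum_tutte]
  simp [ind_true, ind_false]

theorem ind_split (d d' l : ℕ) : ind (d + d' + 2 = l + 1) =
    ∑ i ∈ Finset.range l, ind (d = i) * ind (d' = l - 1 - i) := by
  by_cases h : d + d' + 2 = l + 1
  · rw [ind_true h, Finset.sum_eq_single d (fun i _ hi => by rw [ind_false (Ne.symm hi), zero_mul])
      (fun hd => absurd (Finset.mem_range.2 (by omega)) hd), ind_true rfl, ind_true (by omega),
      mul_one]
  · rw [ind_false h]
    refine (Finset.sum_eq_zero fun i hi => ?_).symm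
    rw [Finset.mem_range] at hi
    by_cases h1 : d = i
    · rw [ind_false (p := d' = l - 1 - i) (by omega), mul_zero]
    · rw [ind_false h1, zero_mul]

theorem ind_shift {d l K : ℕ} (F : ℕ → ℝ≥0∞) (hF : d < K ∨ ∀ k, F k = 0) :
    ∑ i ∈ Finset.range (d + 1), ind (i + 1 = l + 1) * F (d - i + 1) =
      ∑ k ∈ Finset.range K, ind (d = l + k) * F (k + 1) := by
  rcases hF with hK | hF
  · by_cases h : l ≤ d
    · rw [Finset.sum_eq_single l (fun i _ hi => by rw [ind_false (by omega), zero_mul])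
        (fun hd => absurd (Finset.mem_range.2 (by omega)) hd),
        Finset.sum_eq_single (d - l) (fun i _ hi => by rw [ind_false (by omega), zero_mul])
        (fun hd => absurd (Finset.mem_range.2 (by omega)) hd), ind_true rfl, ind_true (by omega)]
    · rw [Finset.sum_eq_zero fun i hi => by
        rw [ind_false (by have := Finset.mem_range.1 hi; omega), zero_mul],
        Finset.sum_eq_zero fun i _ => by rw [ind_false (by omega), zero_mul]]
  · simp [hF]

theorem Msum_succ {j K : ℕ} (hK : 2 * (j + 1) ≤ K) (l : ℕ) {φ : Gam → ℝ≥0∞}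
    (hφ : ∀ γ : Gam, j + 1 ≤ γ.2.1 → φ γ = 0) :
    Msum (l + 1) φ =
      ∑ i ∈ Finset.range l, Msum i (fun γ => Msum (l - 1 - i) fun δ => φ ((0, 1, 0) + (γ + δ))) +
      ∑ k ∈ Finset.range K, Msum (l + k)
        fun γ => φ ((0, 1, 0) + ((0, 0, Finsupp.single (k + 1) 1) + γ)) := by
  rw [Msum_tutte, ind_false (by omega), zero_mul, zero_add]
  congr 1
  · simp only [Msum, ← tree2_tsum_sum, ← ENNReal.tsum_mul_left]
    refine tsum_congr fun R₁ => tsum_congr fun R₂ => ?_
    rw [ind_split, Finset.sum_mul, Finset.mul_sum]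
    refine Finset.sum_congr rfl fun i _ => ?_
    ring
  · simp only [Msum, ← tree2_tsum_sum, ← Finset.mul_sum]
    refine tsum_congr fun R => ?_
    congr 1
    refine ind_shift (fun k => φ ((0, 1, 0) + ((0, 0, Finsupp.single k 1) + gam R))) ?_
    have := deg_le_two_mul R
    by_cases h : R.1 < j
    · exact Or.inl (by omega)
    · refine Or.inr fun k => hφ _ ?_
      simp only [gam, Prod.mk_add_mk]
      omega

theorem Msum_eq_pair {K : ℕ} (j : ℕ) (hK : 2 * j ≤ K) (l : ℕ) {φ : Gam → ℝ≥0∞}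
    (hφ : ∀ γ : Gam, j ≤ γ.2.1 → φ γ = 0) : Msum l φ = pair (Wit K j l) φ := by
  induction j generalizing l φ with
  | zero =>
    have : φ = fun _ => 0 := funext fun γ => hφ γ (Nat.zero_le _)
    simp [this, Msum, pair]
  | succ j ih =>
    cases l with
    | zero => rw [Msum_zero, Wit, X_eq_mon, pair_mon, ENNReal.coe_one, one_mul]
    | succ l =>
      rw [Msum_succ hK l hφ, Wit, yP_eq_mon, pair_mon_mul, pair_add, pair_sum, pair_sum]
      congr 1
      · refine Finset.sum_congr rfl fun i _ => ?_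
        rw [pair_mul, ← ih (by omega)]
        · congr 1
          funext γ
          refine ih (by omega) _ fun δ hδ => hφ _ ?_
          simp only [Prod.snd_add, Prod.fst_add]
          omega
        · intro γ hγ
          have : (fun δ => φ ((0, 1, 0) + (γ + δ))) = fun _ => 0 := funext fun δ => hφ _ (by
            simp only [Prod.snd_add, Prod.fst_add]
            omega)
          rw [this]
          simp [pair]
      · refine Finset.sum_congr rfl fun k _ => ?_
        rw [gP_eq_mon, pair_mon_mul]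
        refine ih (by omega) _ fun δ hδ => hφ _ ?_
        simp only [Prod.snd_add, Prod.fst_add]
        omega

theorem Wit_stat {N K : ℕ} (hK : 2 * (N + 1) ≤ K) (l : ℕ) (γ : Gam) (h : γ.2.1 < N) :
    coef (Wit K N l) γ = coef (Wit K (N + 1) l) γ := by
  have h1 := Msum_eq_pair (K := K) N (by omega) l (φ := fun δ => ind (δ = γ))
    fun δ hδ => ind_false (by rintro rfl; omega)
  have h2 := Msum_eq_pair (K := K) (N + 1) hK l (φ := fun δ => ind (δ = γ))
    fun δ hδ => ind_false (by rintro rfl; omega)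
  rw [pair_ind] at h1 h2
  exact ENNReal.coe_injective (h1.symm.trans h2)

theorem tree2_left {N K a : ℕ} (hK : 2 * (N + 1) ≤ K) {ψ : ℕ × (ℕ →₀ ℕ) → ℝ≥0∞}
    (hψ : ∀ x, N ≤ x.1 → ψ x = 0) :
    ∑' R : RG, w0 R * ind (R.1 - R.2.1 = a + 1) * (((a + 1 + 1) * (a + 1) : ℕ) : ℝ≥0∞) *
        ψ (R.1, zeta R.2.2 + Finsupp.single (deg R.2.2 none) 1) + ind (a + 1 = 1) * 2 * ψ (0, 0) =
      pair (Polynomial.X * Polynomial.X + ∑ k ∈ Finset.range K, gP (k + 1) * Wit K N (1 + k))
        fun γ => ind (γ.1 = a + 2) * ((((a + 2) * (a + 1) : ℕ) : ℝ≥0∞) * ψ γ.2) := by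
  rw [pair_add, add_comm, pair_sum]
  congr 1
  · rw [X_eq_mon, mon_mul, pair_mon]
    by_cases h : a = 0
    · subst h
      simp [ind_true]
    · rw [ind_false (by omega), ind_false (by simp; omega)]
      simp
  · have h1 : ∀ k, pair (gP (k + 1) * Wit K N (1 + k))
        (fun γ => ind (γ.1 = a + 2) * ((((a + 2) * (a + 1) : ℕ) : ℝ≥0∞) * ψ γ.2)) =
        Msum (1 + k) fun γ => ind (γ.1 = a + 2) * ((((a + 2) * (a + 1) : ℕ) : ℝ≥0∞) *
          ψ (γ.2.1, γ.2.2 + Finsupp.single (k + 1) 1)) := by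
      intro k
      rw [gP_eq_mon, pair_mon_mul, Msum_eq_pair (K := K) N (by omega) _
        fun δ hδ => by
          rw [hψ (δ.2.1, δ.2.2 + Finsupp.single (k + 1) 1) hδ, mul_zero, mul_zero]]
      congr 1
      funext δ
      obtain ⟨d1, d2, d3⟩ := δ
      simp only [Prod.mk_add_mk, zero_add, add_comm d3]
    simp only [h1, Msum, ← tree2_tsum_sum, ← Finset.mul_sum]
    refine tsum_congr fun R => ?_
    by_cases hw : w0 R = 0
    · simp [hw]
    rw [mul_assoc, mul_assoc]
    congr 1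
    have hd := deg_le_two_mul R
    by_cases hN : N ≤ R.1
    · rw [hψ (R.1, zeta R.2.2 + Finsupp.single (deg R.2.2 none) 1) hN]
      simp only [mul_zero]
      refine (Finset.sum_eq_zero fun k _ => ?_).symm
      rw [hψ ((gam R).2.1, (gam R).2.2 + Finsupp.single (k + 1) 1) hN]
      simp only [mul_zero]
    by_cases h0 : deg R.2.2 none = 0
    · rw [Finset.sum_eq_zero fun k _ => by rw [ind_false (by omega), zero_mul], ind_false, zero_mul]
      rw [eq_triv (rconn_of_w0 hw) h0]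
      simp [triv]
    · obtain ⟨d, hd'⟩ : ∃ d, deg R.2.2 none = d + 1 := ⟨deg R.2.2 none - 1, by omega⟩
      rw [Finset.sum_eq_single d (fun i _ hi => by rw [ind_false (by omega), zero_mul])
        (fun hd => absurd (Finset.mem_range.2 (by omega)) hd),
        ind_true (p := deg R.2.2 none = 1 + d) (by omega), one_mul, hd']
      congr 2
      simp only [gam, eq_iff_iff]
      omega

theorem tree2_trunc (a N : ℕ) {ψ : ℕ × (ℕ →₀ ℕ) → ℝ≥0∞} (hψ : ∀ x, N ≤ x.1 + 1 → ψ x = 0) :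
    ∑' R : RG, w0 R * ind (R.1 - R.2.1 = a + 1) * (((a + 1 + 1) * (a + 1) : ℕ) : ℝ≥0∞) *
        ψ (R.1, zeta R.2.2 + Finsupp.single (deg R.2.2 none) 1) + ind (a + 1 = 1) * 2 * ψ (0, 0) =
      ∑' γ₀ : Gam, ∑' γ : Fin (a + 1) → Gam, hW γ₀ * (∏ i, pW (γ i)) *
        ind (γ₀.1 + ∑ i, (γ i).1 = a) *
          ψ (γ₀.2.1 + ∑ i, (γ i).2.1 + a, γ₀.2.2 + ∑ i, (γ i).2.2) := by
  have hw := walk_eq_iSup (a + 1) fun γ => ind (γ.1 = a) * ψ (γ.2.1 + a, γ.2.2)
  simp only [Prod.fst_add, Prod.snd_add, Prod.fst_sum, Prod.snd_sum, ← mul_assoc] at hw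
  rw [hw]
  have hmono : Monotone fun j => pair (hP j * phiP j ^ (a + 1))
      fun γ => ind (γ.1 = a) * ψ (γ.2.1 + a, γ.2.2) :=
    monotone_nat_of_le_succ fun j => ENNReal.tsum_le_tsum fun γ =>
      mul_le_mul' (((lec_hP j).mul ((lec_phiP j).pow _)).coef_le γ) le_rfl
  generalize hL : _ + ind (a + 1 = 1) * 2 * ψ (0, 0) = L
  have hj : ∀ j, 2 * (N + 1) ≤ j → L = pair (hP j * phiP j ^ (a + 1))
      fun γ => ind (γ.1 = a) * ψ (γ.2.1 + a, γ.2.2) := by
    intro j hj
    have h1 := tree2_left (a := a) hj (ψ := ψ) fun x hx => hψ x (by omega)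
    refine (hL.symm.trans h1).trans ?_
    have h2 : yP ^ a = mon (0, a, 0) 1 := by
      simp [yP, mon, ← Polynomial.C_pow, Polynomial.X_pow_eq_monomial]
    have h3 : pair (yP ^ a * (hP j * phiP j ^ (a + 1))) (fun γ => ind (γ.1 = a) * ψ γ.2) =
        pair (hP j * phiP j ^ (a + 1)) fun γ => ind (γ.1 = a) * ψ (γ.2.1 + a, γ.2.2) := by
      rw [h2, pair_mon_mul]
      congr 1
      funext δ
      obtain ⟨d1, d2, d3⟩ := δ
      simp only [Prod.mk_add_mk, zero_add, add_comm d2]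
    rw [← h3, pair_fst, pair_fst _ _ fun x => (((a + 2) * (a + 1) : ℕ) : ℝ≥0∞) * ψ x]
    refine tsum_congr fun x => ?_
    by_cases hx : N ≤ x.1 + 1
    · simp [hψ x hx]
    · rw [← tree2_coef (N := N) (by omega) (Wit_stat hj) a x.1 (by omega) x.2, ENNReal.coe_mul,
        ENNReal.coe_natCast]
      ring
  refine le_antisymm (le_iSup_of_le (2 * (N + 1)) (hj _ le_rfl).le) (iSup_le fun j => ?_)
  rw [hj (max j (2 * (N + 1))) (le_max_right _ _)]
  exact hmono (le_max_left _ _)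

end T2

open T2 in
theorem tree_id (s : ℕ) (hs : 1 ≤ s) (ψ : ℕ × (ℕ →₀ ℕ) → ℝ≥0∞) :
    ∑' R : RG, w0 R * ind (R.1 - R.2.1 = s) * (((s + 1) * s : ℕ) : ℝ≥0∞) *
        ψ (R.1, zeta R.2.2 + Finsupp.single (deg R.2.2 none) 1) + ind (s = 1) * 2 * ψ (0, 0) =
      ∑' γ₀ : Gam, ∑' γ : Fin s → Gam, hW γ₀ * (∏ i, pW (γ i)) *
        ind (γ₀.1 + ∑ i, (γ i).1 = s - 1) *
          ψ (γ₀.2.1 + ∑ i, (γ i).2.1 + (s - 1), γ₀.2.2 + ∑ i, (γ i).2.2) := by
  obtain ⟨a, rfl⟩ : ∃ a, s = a + 1 := ⟨s - 1, by omega⟩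
  have hψ : ∀ (n : ℕ) (c : ℝ≥0∞), ∑' e : ℕ, ind (n = e) * c = c := fun n c => by
    rw [tsum_eq_single n fun e he => by rw [ind_false (Ne.symm he), zero_mul], ind_true rfl,
      one_mul]
  have h := tsum_congr (L := SummationFilter.unconditional ℕ) fun e : ℕ => tree2_trunc a (e + 2)
    (ψ := fun x => ind (x.1 = e) * ψ x) fun x hx => by rw [ind_false (by omega), zero_mul]
  rw [ENNReal.tsum_add, ENNReal.tsum_comm, ENNReal.tsum_mul_left, hψ,
    ENNReal.tsum_comm (f := fun e (γ₀ : Gam) => _)] at h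
  simp only [ENNReal.tsum_mul_left, hψ] at h
  rw [Nat.add_sub_cancel, h]
  refine tsum_congr fun γ₀ => ?_
  rw [ENNReal.tsum_comm]
  simp only [ENNReal.tsum_mul_left, hψ]

end Pool.Agent.Lib.MP_77dff5_pr
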