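import Pool.Agent.Lib.MP_77dff5_pr.Tree1

/-! The second derivative of the solution of Tutte's equation in the face variable. -/

set_option autoImplicit false

namespace Pool.Agent.Lib.MP_77dff5_pr.T2

open Polynomial

theorem tree2_mot_two {R : Type} [CommSemiring R] (r s : R) : mot r s 2 0 = s ^ 2 + 2 * r := by
  simp [mot]
  ring

theorem tree2_Aj_neg_one {R : Type} [CommSemiring R] (g : ℕ → R) (K : ℕ) (r s : R) :
    Aj g K r s (-1) = r * Aj g K r s 1 := by
  unfold Aj
  rw [Finset.mul_sum]
  refine Finset.sum_congr rfl fun k _ => ?_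
  have := mot_neg r s k 1
  simp only [Nat.cast_one, pow_one] at this
  rw [this]
  ring

theorem tree2_lin {S : Type} [CommRing S] {g : ℕ → S} {K : ℕ} {y : S} {W : ℕ → S[X]}
    (hW : TutteEq (fun k => C (g k)) K (C y) X W) :
    TutteLin (fun k => C (g k)) K (C y) W fun l => derivative (W l) := by
  refine ⟨by simp only [hW.1, derivative_X], fun l => ?_⟩
  have h1 : ∑ i ∈ Finset.range l, derivative (W i) * W (l - 1 - i) =
      ∑ i ∈ Finset.range l, W i * derivative (W (l - 1 - i)) := by
    rw [← Finset.sum_range_reflect]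
    refine Finset.sum_congr rfl fun i hi => ?_
    rw [Finset.mem_range] at hi
    rw [show l - 1 - (l - 1 - i) = i by omega, mul_comm]
  simp only [hW.2 l, derivative_mul, derivative_C, zero_mul, zero_add, derivative_add,
    derivative_sum, Finset.sum_add_distrib, h1, two_mul]

theorem tree2_alg {S : Type} [CommRing S] [Algebra ℚ S] {g : ℕ → S} {K N j : ℕ} {y : S}
    (hy : y ^ N = 0) (hj : N ≤ j) {W : ℕ → S[X]} (hW : TutteEq (fun k => C (g k)) K (C y) X W)
    (a : ℕ) :
    (derivative (derivative (W 2))).coeff a = y ^ (a + 1) *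
      (derivative (sigIt (fun k => C (g k)) K (C y) X j ^ 2 + 2 * X) *
        phiIt (fun k => C (g k)) K (C y) X j ^ (a + 1)).coeff a := by
  set σ := sigIt (fun k => C (g k)) K (C y) X j with hσ
  set Φ := phiIt (fun k => C (g k)) K (C y) X j with hΦ
  set h := derivative (σ ^ 2 + 2 * X) with hh
  have hCy : (C y : S[X]) ^ N = 0 := by rw [← C_pow, hy, C_0]
  have hy' : (X * C y : S[X]) ^ N = 0 := by rw [mul_pow, hCy, mul_zero]
  obtain ⟨r, hr⟩ := exists_fix hy' (Φ.map C)
  have hev : ∀ p : S[X], (p.map C).eval r = p.comp r := fun p => by rw [eval_map]; rfl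
  have hs1 : σ.comp r = sigIt (fun k => C (g k)) K (C y) r j := by
    have := map_sigIt (compRingHom r) (fun k => C (g k)) K (C y) X j
    simpa only [coe_compRingHom_apply, C_comp, X_comp] using this
  have hΦ1 : Φ.comp r = phiIt (fun k => C (g k)) K (C y) r j := by
    have := map_phiIt (compRingHom r) (fun k => C (g k)) K (C y) X j
    simpa only [coe_compRingHom_apply, C_comp, X_comp] using this
  have hfix := sigIt_fix (g := fun k => C (g k)) (K := K) hCy r hj
  have hmul := phiIt_mul (g := fun k => C (g k)) (K := K) hCy r hj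
  rw [← hs1] at hfix
  rw [← hs1, ← hΦ1] at hmul
  have hr2 := hr
  rw [hev] at hr2
  have hr' : r = C y * (X + Aj (fun k => C (g k)) K r (σ.comp r) (-1)) := by
    rw [tree2_Aj_neg_one]
    linear_combination (1 - C y * Aj (fun k => C (g k)) K r (σ.comp r) 1) * hr2 +
      X * C y * hmul
  obtain ⟨W', hW', -, hlin⟩ := tutte_sol (fun k => C (g k)) K (C y) X r (σ.comp r) hfix hr'
  obtain rfl := tutte_unique hCy hW hW'
  have hP := congrFun (tutteLin_unique hCy (tree2_lin hW) hlin) 2
  simp only [tree2_mot_two] at hP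
  have hD : derivative (derivative (W 2)) = derivative r * h.comp r := by
    rw [hP, hh, ← derivative_comp]
    simp
  have hdr : derivative r * (1 - X * C y * (derivative Φ).comp r) = C y * Φ.comp r := by
    have := congrArg derivative hr2
    simp only [derivative_mul, derivative_X, derivative_C, derivative_comp] at this
    linear_combination this
  have hlag := lagrange hy' (Φ.map C) ((h * C y * Φ).map C) hr
  rw [derivative_map, hev, hev] at hlag
  have hu : IsUnit (1 - X * C y * (derivative Φ).comp r) :=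
    IsNilpotent.isUnit_one_sub ⟨N, by rw [mul_pow, hy', zero_mul]⟩
  have hΛ : derivative (derivative (W 2)) = ∑ b ∈ Finset.range N,
      ((h * C y * Φ).map C * (C (X * C y) * Φ.map C) ^ b).coeff b := by
    refine hu.mul_right_cancel ?_
    rw [hlag, hD, mul_comp, mul_comp, C_comp]
    linear_combination h.comp r * hdr
  have hterm : ∀ b, ((h * C y * Φ).map C * (C (X * C y) * Φ.map C) ^ b).coeff b =
      monomial b (y ^ (b + 1) * (h * Φ ^ (b + 1)).coeff b) := fun b => by
    have e1 : (h * C y * Φ).map C * (C (X * C y) * Φ.map C) ^ b =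
        C ((X * C y) ^ b * C y) * (h * Φ ^ (b + 1)).map (C : S →+* S[X]) := by
      simp only [Polynomial.map_mul, Polynomial.map_pow, map_C, C_mul, C_pow]
      ring
    rw [e1, coeff_C_mul, coeff_map, ← C_mul_X_pow_eq_monomial]
    simp only [C_mul, C_pow]
    ring
  rw [hΛ, finset_sum_coeff]
  simp only [hterm, coeff_monomial, Finset.sum_ite_eq', Finset.mem_range]
  split_ifs with ha
  · rfl
  · rw [show a + 1 = N + (a + 1 - N) by omega, pow_add, hy, zero_mul, zero_mul]

/-- coefficientwise order -/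
def Lec {R : Type} [CommSemiring R] (p q : R) : Prop := ∃ d, q = p + d

section
variable {R : Type} [CommSemiring R]

theorem Lec.refl (p : R) : Lec p p := ⟨0, (add_zero p).symm⟩

theorem Lec.zero (p : R) : Lec 0 p := ⟨p, (zero_add p).symm⟩

theorem Lec.trans {p q r : R} (h : Lec p q) (h' : Lec q r) : Lec p r := by
  obtain ⟨d, rfl⟩ := h
  obtain ⟨d', rfl⟩ := h'
  exact ⟨d + d', add_assoc _ _ _⟩

theorem Lec.add {p q p' q' : R} (h : Lec p q) (h' : Lec p' q') : Lec (p + p') (q + q') := by
  obtain ⟨d, rfl⟩ := h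
  obtain ⟨d', rfl⟩ := h'
  exact ⟨d + d', by ring⟩

theorem Lec.mul {p q p' q' : R} (h : Lec p q) (h' : Lec p' q') : Lec (p * p') (q * q') := by
  obtain ⟨d, rfl⟩ := h
  obtain ⟨d', rfl⟩ := h'
  exact ⟨p * d' + d * p' + d * d', by ring⟩

theorem Lec.pow {p q : R} (h : Lec p q) (n : ℕ) : Lec (p ^ n) (q ^ n) := by
  induction n with
  | zero => simpa using Lec.refl 1
  | succ n ih => simpa only [pow_succ] using ih.mul h

theorem Lec.sum {f f' : ℕ → R} (h : ∀ i, Lec (f i) (f' i)) {n n' : ℕ} (hn : n ≤ n') :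
    Lec (∑ i ∈ Finset.range n, f i) (∑ i ∈ Finset.range n', f' i) := by
  induction hn with
  | refl =>
    induction n with
    | zero => exact Lec.refl _
    | succ n ih => simpa only [Finset.sum_range_succ] using ih.add (h n)
  | step _ ih => exact ih.trans ⟨_, Finset.sum_range_succ _ _⟩

theorem Lec.mot {s s' : R} (h : Lec s s') (r : R) (l : ℕ) (m : ℤ) :
    Lec (mot r s l m) (mot r s' l m) := by
  induction l generalizing m with
  | zero => exact Lec.refl _
  | succ l ih => exact ((ih _).add (h.mul (ih _))).add ((Lec.refl r).mul (ih _))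

theorem Lec.Aj {s s' : R} (h : Lec s s') (g : ℕ → R) {K K' : ℕ} (hK : K ≤ K') (r : R) (m : ℤ) :
    Lec (Aj g K r s m) (Aj g K' r s' m) :=
  Lec.sum (fun _ => (Lec.refl _).mul (h.mot r _ m)) hK

theorem lec_sigIt (g : ℕ → R) {K K' : ℕ} (hK : K ≤ K') (y r : R) (j : ℕ) :
    Lec (sigIt g K y r j) (sigIt g K' y r (j + 1)) := by
  induction j with
  | zero => exact Lec.zero _
  | succ j ih => exact (Lec.refl y).mul (ih.Aj g hK r 0)

theorem lec_phiIt (g : ℕ → R) {K K' : ℕ} (hK : K ≤ K') (y r : R) (j : ℕ) :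
    Lec (phiIt g K y r j) (phiIt g K' y r (j + 1)) :=
  Lec.sum (fun i => ((Lec.refl y).mul ((lec_sigIt g hK y r j).Aj g hK r 1)).pow i) (Nat.le_succ _)

theorem Lec.derivative {p q : R[X]} (h : Lec p q) : Lec (derivative p) (derivative q) := by
  obtain ⟨d, rfl⟩ := h
  exact ⟨_, derivative_add⟩

end

theorem lec_phiP (j : ℕ) : Lec (phiP j) (phiP (j + 1)) := lec_phiIt _ (Nat.le_succ j) _ _ j

theorem lec_hP (j : ℕ) : Lec (hP j) (hP (j + 1)) :=
  (((lec_sigIt _ (Nat.le_succ j) _ _ j).pow 2).add (Lec.refl _)).derivative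

end Pool.Agent.Lib.MP_77dff5_pr.T2
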