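import Pool.Agent.Lib.MP_77dff5_pr.Tree2Aux1
import Pool.Agent.Lib.MP_77dff5_pr.GDefs

/-! Pairing of polynomials with test functions, and truncation in the edge variable. -/

set_option autoImplicit false

namespace Pool.Agent.Lib.MP_77dff5_pr.T2

open Polynomial
open scoped ENNReal NNReal

/-- sum of the coefficients of `p` against `φ` -/
noncomputable def pair (p : PR) (φ : Gam → ℝ≥0∞) : ℝ≥0∞ := ∑' γ, (coef p γ : ℝ≥0∞) * φ γ

/-- monomials -/
noncomputable def mon (γ : Gam) (c : ℝ≥0) : PR :=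
  monomial γ.1 (monomial γ.2.1 (MvPolynomial.monomial γ.2.2 c))

theorem coef_add (p q : PR) (γ : Gam) : coef (p + q) γ = coef p γ + coef q γ := by
  simp [coef]

theorem coef_mon (γ δ : Gam) (c : ℝ≥0) : coef (mon γ c) δ = if δ = γ then c else 0 := by
  classical
  obtain ⟨a, e, z⟩ := γ
  obtain ⟨a', e', z'⟩ := δ
  simp only [coef, mon, coeff_monomial, Prod.mk.injEq]
  by_cases h1 : a = a'
  · by_cases h2 : e = e'
    · subst h1 h2
      simp [MvPolynomial.coeff_monomial, eq_comm]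
    · simp [h1, coeff_monomial, h2, Ne.symm h2]
  · simp [h1, Ne.symm h1]

theorem mon_mul (γ δ : Gam) (c d : ℝ≥0) : mon γ c * mon δ d = mon (γ + δ) (c * d) := by
  simp only [mon, monomial_mul_monomial, MvPolynomial.monomial_mul, Prod.fst_add, Prod.snd_add]

theorem PR_ind {P : PR → Prop} (h1 : ∀ γ c, P (mon γ c)) (h2 : ∀ p q, P p → P q → P (p + q))
    (p : PR) : P p := by
  induction p using Polynomial.induction_on' with
  | add p q hp hq => exact h2 p q hp hq
  | monomial a u =>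
    induction u using Polynomial.induction_on' with
    | add p q hp hq => rw [map_add]; exact h2 _ _ hp hq
    | monomial e v =>
      induction v using MvPolynomial.induction_on' with
      | monomial z c => exact h1 (a, e, z) c
      | add p q hp hq => rw [map_add, map_add]; exact h2 _ _ hp hq

theorem pair_add (p q : PR) (φ : Gam → ℝ≥0∞) : pair (p + q) φ = pair p φ + pair q φ := by
  simp only [pair, coef_add, ENNReal.coe_add, add_mul, ENNReal.tsum_add]

theorem pair_zero (φ : Gam → ℝ≥0∞) : pair 0 φ = 0 := by simp [pair, coef]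

theorem pair_sum {ι : Type} (s : Finset ι) (p : ι → PR) (φ : Gam → ℝ≥0∞) :
    pair (∑ i ∈ s, p i) φ = ∑ i ∈ s, pair (p i) φ := by
  classical
  induction s using Finset.induction_on with
  | empty => simp [pair_zero]
  | insert a s ha ih => rw [Finset.sum_insert ha, Finset.sum_insert ha, pair_add, ih]

theorem pair_mon (γ : Gam) (c : ℝ≥0) (φ : Gam → ℝ≥0∞) : pair (mon γ c) φ = c * φ γ := by
  rw [pair, tsum_eq_single γ fun δ h => by simp [coef_mon, h]]
  simp [coef_mon]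

theorem pair_mul (p q : PR) (φ : Gam → ℝ≥0∞) :
    pair (p * q) φ = pair p fun γ => pair q fun δ => φ (γ + δ) := by
  induction p using PR_ind with
  | h2 p p' hp hp' => rw [add_mul, pair_add, pair_add, hp, hp']
  | h1 γ c =>
    rw [pair_mon]
    induction q using PR_ind with
    | h2 q q' hq hq' => rw [mul_add, pair_add, pair_add, hq, hq', mul_add]
    | h1 δ d => rw [mon_mul, pair_mon, pair_mon, ENNReal.coe_mul, mul_assoc]

theorem X_eq_mon : (X : PR) = mon (1, 0, 0) 1 := rfl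

theorem one_eq_mon : (1 : PR) = mon 0 1 := rfl

theorem yP_eq_mon : yP = mon (0, 1, 0) 1 := rfl

theorem gP_eq_mon (k : ℕ) : gP k = mon (0, 0, Finsupp.single k 1) 1 := rfl

theorem pair_mon_mul (γ : Gam) (q : PR) (φ : Gam → ℝ≥0∞) :
    pair (mon γ 1 * q) φ = pair q fun δ => φ (γ + δ) := by
  rw [pair_mul, pair_mon, ENNReal.coe_one, one_mul]

theorem pair_pow (s : ℕ) (p : PR) (φ : Gam → ℝ≥0∞) :
    pair (p ^ s) φ = ∑' γ : Fin s → Gam, (∏ i, (coef p (γ i) : ℝ≥0∞)) * φ (∑ i, γ i) := by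
  induction s generalizing φ with
  | zero => simp [one_eq_mon, pair_mon]
  | succ s ih =>
    rw [pow_succ', pair_mul, ← (Fin.consEquiv fun _ : Fin (s + 1) => Gam).tsum_eq,
      ENNReal.tsum_prod', pair]
    refine tsum_congr fun γ => ?_
    rw [ih, ← ENNReal.tsum_mul_left]
    refine tsum_congr fun δ => ?_
    simp [Fin.consEquiv, Fin.prod_univ_succ, Fin.sum_univ_succ, mul_assoc]

theorem ind_true {p : Prop} (h : p) : ind p = 1 := if_pos h

theorem ind_false {p : Prop} (h : ¬ p) : ind p = 0 := if_neg h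

theorem pair_ind (p : PR) (γ : Gam) : pair p (fun δ => ind (δ = γ)) = coef p γ := by
  rw [pair, tsum_eq_single γ fun δ h => by rw [ind_false h, mul_zero], ind_true rfl, mul_one]

theorem pair_fst (p : PR) (a : ℕ) (ψ : ℕ × (ℕ →₀ ℕ) → ℝ≥0∞) :
    pair p (fun γ => ind (γ.1 = a) * ψ γ.2) = ∑' x, (coef p (a, x) : ℝ≥0∞) * ψ x := by
  rw [pair, ENNReal.tsum_prod', tsum_eq_single a fun b h => by simp [ind_false h]]
  simp [ind_true]

theorem Lec.coef_le {p q : PR} (h : Lec p q) (γ : Gam) : (coef p γ : ℝ≥0∞) ≤ coef q γ := by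
  obtain ⟨d, rfl⟩ := h
  rw [coef_add, ENNReal.coe_add]
  exact le_self_add

theorem tree2_tsum_iSup {α : Type} (f : ℕ → α → ℝ≥0∞) (hf : ∀ a, Monotone fun j => f j a) :
    ∑' a, ⨆ j, f j a = ⨆ j, ∑' a, f j a := by
  simp only [ENNReal.tsum_eq_iSup_sum]
  rw [iSup_comm]
  exact iSup_congr fun s => ENNReal.finsetSum_iSup_of_monotone (f := fun a j => f j a) hf

theorem tree2_iSup_mul {f g : ℕ → ℝ≥0∞} (hf : Monotone f) (hg : Monotone g) :
    (⨆ j, f j) * (⨆ j, g j) = ⨆ j, f j * g j := by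
  refine le_antisymm ?_ (iSup_le fun j => mul_le_mul' (le_iSup f j) (le_iSup g j))
  rw [ENNReal.iSup_mul]
  refine iSup_le fun i => ?_
  rw [ENNReal.mul_iSup]
  exact iSup_le fun j => le_iSup_of_le (max i j)
    (mul_le_mul' (hf (le_max_left i j)) (hg (le_max_right i j)))

theorem tree2_iSup_prod {ι : Type} (s : Finset ι) {f : ι → ℕ → ℝ≥0∞} (hf : ∀ i, Monotone (f i)) :
    ∏ i ∈ s, ⨆ j, f i j = ⨆ j, ∏ i ∈ s, f i j := by
  classical
  induction s using Finset.induction_on with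
  | empty => simp
  | insert a s ha ih =>
    simp only [Finset.prod_insert ha]
    rw [ih, tree2_iSup_mul (hf a) fun j j' h => Finset.prod_le_prod' fun i _ => hf i h]

/-- The weights of the walk are limits of coefficients of polynomials. -/
theorem walk_eq_iSup (s : ℕ) (φ : Gam → ℝ≥0∞) :
    ∑' γ₀ : Gam, ∑' γ : Fin s → Gam, hW γ₀ * (∏ i, pW (γ i)) * φ (γ₀ + ∑ i, γ i) =
      ⨆ j, pair (hP j * phiP j ^ s) φ := by
  have h1 : ∀ γ, Monotone fun j => (coef (hP j) γ : ℝ≥0∞) := fun γ =>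
    monotone_nat_of_le_succ fun j => (lec_hP j).coef_le γ
  have h2 : ∀ γ, Monotone fun j => (coef (phiP j) γ : ℝ≥0∞) := fun γ =>
    monotone_nat_of_le_succ fun j => (lec_phiP j).coef_le γ
  have h3 : ∀ γ : Fin s → Gam, Monotone fun j => ∏ i, (coef (phiP j) (γ i) : ℝ≥0∞) :=
    fun γ j j' h => Finset.prod_le_prod' fun i _ => h2 _ h
  have h4 : ∀ (γ₀ : Gam) (γ : Fin s → Gam), Monotone fun j => (coef (hP j) γ₀ : ℝ≥0∞) *
      (∏ i, (coef (phiP j) (γ i) : ℝ≥0∞)) * φ (γ₀ + ∑ i, γ i) :=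
    fun γ₀ γ j j' h => mul_le_mul' (mul_le_mul' (h1 γ₀ h) (h3 γ h)) le_rfl
  have h5 : ∀ j, pair (hP j * phiP j ^ s) φ = ∑' γ₀ : Gam, ∑' γ : Fin s → Gam,
      (coef (hP j) γ₀ : ℝ≥0∞) * (∏ i, (coef (phiP j) (γ i) : ℝ≥0∞)) * φ (γ₀ + ∑ i, γ i) := by
    intro j
    rw [pair_mul, pair]
    refine tsum_congr fun γ₀ => ?_
    rw [pair_pow, ← ENNReal.tsum_mul_left]
    simp only [mul_assoc]
  simp only [h5]
  rw [← tree2_tsum_iSup _ fun γ₀ j j' h => ENNReal.tsum_le_tsum fun γ => h4 γ₀ γ h]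
  refine tsum_congr fun γ₀ => ?_
  rw [← tree2_tsum_iSup _ (h4 γ₀)]
  refine tsum_congr fun γ => ?_
  rw [← ENNReal.iSup_mul, ← tree2_iSup_mul (h1 γ₀) (h3 γ),
    ← tree2_iSup_prod _ fun i => h2 (γ i)]
  rfl

/-- the ring in which `y ^ N = 0` -/
abbrev TS (N : ℕ) : Type := AdjoinRoot (X ^ N : (MvPolynomial ℕ ℝ)[X])

/-- truncation in the edge variable -/
noncomputable def thS (N : ℕ) : (MvPolynomial ℕ ℝ≥0)[X] →+* TS N :=
  (AdjoinRoot.mk _).comp (mapRingHom (MvPolynomial.map NNReal.toRealHom))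

theorem thS_X_pow (N : ℕ) : thS N X ^ N = 0 := by
  rw [← map_pow]
  simp [thS]

theorem thS_eq_iff {N : ℕ} {p q : (MvPolynomial ℕ ℝ≥0)[X]} :
    thS N p = thS N q ↔ ∀ e < N, p.coeff e = q.coeff e := by
  simp only [thS, RingHom.comp_apply, AdjoinRoot.mk_eq_mk, X_pow_dvd_iff, coe_mapRingHom,
    coeff_sub, coeff_map, sub_eq_zero]
  refine forall₂_congr fun e _ => ?_
  exact (MvPolynomial.map_injective _ NNReal.coe_injective).eq_iff

theorem map_thS_eq {N : ℕ} {p q : PR} (h : ∀ γ : Gam, γ.2.1 < N → coef p γ = coef q γ) :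
    p.map (thS N) = q.map (thS N) := by
  ext a : 1
  rw [coeff_map, coeff_map, thS_eq_iff]
  intro e he
  ext z : 1
  exact h (a, e, z) he

/-- iterates of Tutte's equation -/
noncomputable def Wit (K : ℕ) : ℕ → ℕ → PR
  | 0, _ => 0
  | _ + 1, 0 => X
  | j + 1, l + 1 => yP * (∑ i ∈ Finset.range l, Wit K j i * Wit K j (l - 1 - i) +
      ∑ k ∈ Finset.range K, gP (k + 1) * Wit K j (l + k))

/-- The coefficient identity behind `tree_id`. -/
theorem tree2_coef {N j : ℕ} (hj : N ≤ j)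
    (hst : ∀ l (γ : Gam), γ.2.1 < N → coef (Wit j N l) γ = coef (Wit j (N + 1) l) γ)
    (a e : ℕ) (he : e + 1 < N) (z : ℕ →₀ ℕ) :
    ((a + 2) * (a + 1) : ℕ) *
      coef (X * X + ∑ k ∈ Finset.range j, gP (k + 1) * Wit j N (1 + k)) (a + 2, e, z) =
      coef (yP ^ a * (hP j * phiP j ^ (a + 1))) (a, e, z) := by
  let Θ : PR →+* (TS N)[X] := mapRingHom (thS N)
  have hy : Θ yP = C (thS N X) := map_C _
  have hg : ∀ k, Θ (gP k) = C (thS N (C (MvPolynomial.X k))) := fun k => map_C _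
  have hX : Θ X = X := map_X _
  have hst' : ∀ l, Θ (Wit j N l) = Θ (Wit j (N + 1) l) := fun l => map_thS_eq (hst l)
  have hW : TutteEq (fun k => C (thS N (C (MvPolynomial.X k)))) j (C (thS N X)) X
      fun l => Θ (Wit j (N + 1) l) := by
    refine ⟨hX, fun l => ?_⟩
    simp only [Wit, map_mul, map_add, map_sum, hy, hg, hst']
  have key := tree2_alg (thS_X_pow N) hj hW a
  have h1 : sigIt (fun k => C (thS N (C (MvPolynomial.X k)))) j (C (thS N X)) X j =
      Θ (sigP j) := by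
    have := map_sigIt Θ gP j yP X j
    simp only [hg, hy, hX] at this
    exact this.symm
  have h2 : phiIt (fun k => C (thS N (C (MvPolynomial.X k)))) j (C (thS N X)) X j =
      Θ (phiP j) := by
    have := map_phiIt Θ gP j yP X j
    simp only [hg, hy, hX] at this
    exact this.symm
  have hd : ∀ p, derivative (Θ p) = Θ (derivative p) := fun p => derivative_map p _
  have h3 : derivative (Θ (sigP j) ^ 2 + 2 * X) = Θ (hP j) := by
    rw [hP, ← hd, map_add Θ, map_pow Θ, map_mul Θ, hX, map_ofNat Θ]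
  rw [h1, h2, h3, hd, hd, ← map_pow Θ, ← map_mul Θ] at key
  have h4 : ∀ p : PR, (Θ p).coeff a = thS N (p.coeff a) := fun p => coeff_map _ _
  rw [h4, h4, ← map_pow (thS N), ← map_mul (thS N), thS_eq_iff] at key
  have h5 := key (e + 1) he
  set M := X * X + ∑ k ∈ Finset.range j, gP (k + 1) * Wit j N (1 + k) with hM
  have h6 : Wit j (N + 1) 2 = C X * M := by
    cases N with
    | zero => omega
    | succ N => simp [Wit, hM, yP]
  rw [h6, derivative_C_mul, derivative_C_mul, coeff_C_mul, coeff_X_mul, pow_succ', mul_assoc,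
    coeff_X_mul] at h5
  have h7 : (yP ^ a * (hP j * phiP j ^ (a + 1))).coeff a =
      X ^ a * (hP j * phiP j ^ (a + 1)).coeff a := by
    rw [yP, ← C_pow, coeff_C_mul]
  rw [coef, coef, h7, ← h5, coeff_derivative, coeff_derivative, mul_assoc]
  have h8 : ((((a + 1 : ℕ) : (MvPolynomial ℕ ℝ≥0)[X]) + 1) * ((a : (MvPolynomial ℕ ℝ≥0)[X]) + 1)) =
      (((a + 2) * (a + 1) : ℕ) : (MvPolynomial ℕ ℝ≥0)[X]) := by
    push_cast
    ring
  rw [h8, mul_comm (M.coeff (a + 1 + 1)), ← nsmul_eq_mul, ← nsmul_eq_mul, coeff_smul,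
    MvPolynomial.coeff_smul]

end Pool.Agent.Lib.MP_77dff5_pr.T2
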