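import Pool.Agent.Lib.MP_77dff5_pr.Tree1
import Pool.Agent.Lib.MP_77dff5_pr.MDefs

/-! The step law at the critical point. -/

set_option autoImplicit false

namespace Pool.Agent.Lib.MP_77dff5_pr

open scoped ENNReal

theorem tree3A_nonneg {r s : ℝ} (hr : 0 ≤ r) (hs : 0 ≤ s) (l : ℕ) (m : ℤ) : 0 ≤ mot r s l m := by
  induction l generalizing m with
  | zero => simp only [mot]; split <;> norm_num
  | succ l ih =>
    simp only [mot]
    have := ih (m - 1)
    have := ih m
    have := ih (m + 1)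
    positivity

theorem tree3A_hasSum {r s w C : ℝ} (hr : 0 ≤ r) (hs : 0 ≤ s) (hw : 0 < w)
    (hz : w + s + r / w < 1) (T : ℤ → ℝ)
    (hT : ∀ m, T m = (if m = 0 then 1 else 0) + (T (m - 1) + s * T m + r * T (m + 1)))
    (hb : ∀ m, |T m| ≤ C * w ^ (-m)) (m : ℤ) : HasSum (fun l => mot r s l m) (T m) := by
  have key : ∀ N : ℕ, ∀ m : ℤ,
      |T m - ∑ l ∈ Finset.range N, mot r s l m| ≤ (w + s + r / w) ^ N * (C * w ^ (-m)) := by
    intro N
    induction N with
    | zero => intro m; simpa using hb m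
    | succ N ih =>
      intro m
      have e : T m - ∑ l ∈ Finset.range (N + 1), mot r s l m =
          (T (m - 1) - ∑ l ∈ Finset.range N, mot r s l (m - 1)) +
          s * (T m - ∑ l ∈ Finset.range N, mot r s l m) +
          r * (T (m + 1) - ∑ l ∈ Finset.range N, mot r s l (m + 1)) := by
        rw [Finset.sum_range_succ']
        simp only [mot, Finset.sum_add_distrib, ← Finset.mul_sum]
        linear_combination hT m
      have e1 : w ^ (-(m - 1)) = w ^ (-m) * w := by
        rw [← zpow_add_one₀ hw.ne']; congr 1; ring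
      have e2 : w ^ (-(m + 1)) = w ^ (-m) * w⁻¹ := by
        rw [← zpow_sub_one₀ hw.ne']; congr 1; ring
      have h1 := ih (m - 1)
      have h2 := mul_le_mul_of_nonneg_left (ih m) hs
      have h3 := mul_le_mul_of_nonneg_left (ih (m + 1)) hr
      rw [e1] at h1
      rw [e2] at h3
      rw [e]
      refine (abs_add_three _ _ _).trans ?_
      rw [abs_mul, abs_mul, abs_of_nonneg hs, abs_of_nonneg hr]
      refine (add_le_add (add_le_add h1 h2) h3).trans (le_of_eq ?_)
      rw [pow_succ, div_eq_mul_inv]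
      ring
  rw [hasSum_iff_tendsto_nat_of_nonneg (fun l => tree3A_nonneg hr hs l m),
    tendsto_iff_dist_tendsto_zero]
  have h0 : 0 ≤ w + s + r / w := by positivity
  have ht := (tendsto_pow_atTop_nhds_zero_of_lt_one h0 hz).mul_const (C * w ^ (-m))
  rw [zero_mul] at ht
  refine squeeze_zero (fun _ => dist_nonneg) (fun N => ?_) ht
  rw [dist_comm, Real.dist_eq]
  exact key N m

/-- `∑ l, z ^ l = 1 / (1 - z)` for `z = ω + p + r / ω`, `r = q (1 - p - q)`. -/
theorem hasSum_mot {p q : ℝ} (hp : 0 ≤ p) (hq : 0 ≤ q) (h : p + 2 * q < 1) (m : ℕ) :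
    HasSum (fun l => mot (q * (1 - p - q)) p l (-(m : ℤ))) (q ^ m / (1 - p - 2 * q)) ∧
      HasSum (fun l => mot (q * (1 - p - q)) p l m) (((1 - p - q) ^ m * (1 - p - 2 * q))⁻¹) := by
  obtain ⟨a, ha⟩ : ∃ a, a = 1 - p - q := ⟨_, rfl⟩
  obtain ⟨d, hd⟩ : ∃ d, d = 1 - p - 2 * q := ⟨_, rfl⟩
  rw [← ha, ← hd]
  have hd0 : 0 < d := by linarith
  have ha0 : 0 < a := by linarith
  have hw : 0 < (a + q) / 2 := by positivity
  let T : ℤ → ℝ := fun m => if 0 ≤ m then (a ^ m.toNat * d)⁻¹ else q ^ (-m).toNat / d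
  have T1 : ∀ n : ℕ, T n = (a ^ n * d)⁻¹ := fun n => by simp [T]
  have T2 : ∀ n : ℕ, T (-(n : ℤ)) = q ^ n / d := by
    intro n
    rcases n with _ | n
    · simp [T]
    · have : ¬ (0 : ℤ) ≤ -((n + 1 : ℕ) : ℤ) := by omega
      simp only [T, if_neg this, neg_neg, Int.toNat_natCast]
  have hp' : p = 1 - a - q := by linarith
  have hd' : d = a - q := by linarith
  have key := tree3A_hasSum (r := q * a) (s := p) (w := (a + q) / 2) (C := d⁻¹) (by positivity) hp
    hw (by
      have : q * a / ((a + q) / 2) < (a + q) / 2 := by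
        rw [div_lt_iff₀ hw]; nlinarith
      linarith) T (by
      intro m
      rcases lt_trichotomy m 0 with hm | hm | hm
      · obtain ⟨n, rfl⟩ : ∃ n : ℕ, m = -((n + 1 : ℕ) : ℤ) := ⟨(-m - 1).toNat, by omega⟩
        have e1 : -((n + 1 : ℕ) : ℤ) - 1 = -((n + 2 : ℕ) : ℤ) := by omega
        have e2 : -((n + 1 : ℕ) : ℤ) + 1 = -(n : ℤ) := by omega
        rw [e1, e2, T2, T2, T2, if_neg hm.ne, hp']
        field_simp
        ring
      · subst hm
        have e1 : (0 : ℤ) - 1 = -((1 : ℕ) : ℤ) := by omega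
        have e2 : (0 : ℤ) + 1 = ((1 : ℕ) : ℤ) := by omega
        have e3 : T 0 = (a ^ 0 * d)⁻¹ := T1 0
        rw [e1, e2, T2, T1, e3, if_pos rfl, hp']
        field_simp
        rw [hd']
        ring
      · obtain ⟨n, rfl⟩ : ∃ n : ℕ, m = ((n + 1 : ℕ) : ℤ) := ⟨(m - 1).toNat, by omega⟩
        have e1 : ((n + 1 : ℕ) : ℤ) - 1 = (n : ℤ) := by omega
        have e2 : ((n + 1 : ℕ) : ℤ) + 1 = ((n + 2 : ℕ) : ℤ) := by omega
        rw [e1, e2, T1, T1, T1, if_neg hm.ne', hp']
        field_simp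
        ring) (by
      intro m
      rcases le_total 0 m with hm | hm
      · obtain ⟨n, rfl⟩ : ∃ n : ℕ, m = n := ⟨m.toNat, by omega⟩
        rw [T1, abs_of_nonneg (by positivity), zpow_neg, zpow_natCast, mul_inv, mul_comm]
        refine mul_le_mul_of_nonneg_left ?_ (by positivity)
        exact inv_anti₀ (by positivity) (pow_le_pow_left₀ hw.le (by linarith) n)
      · obtain ⟨n, rfl⟩ : ∃ n : ℕ, m = -(n : ℤ) := ⟨(-m).toNat, by omega⟩
        rw [T2, abs_of_nonneg (by positivity), neg_neg, zpow_natCast, div_eq_inv_mul]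
        refine mul_le_mul_of_nonneg_left ?_ (by positivity)
        exact pow_le_pow_left₀ hq (by linarith) n)
  exact ⟨T2 m ▸ key _, T1 m ▸ key _⟩

end Pool.Agent.Lib.MP_77dff5_pr
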