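import Pool.Agent.Lib.MP_77dff5_pr.Tree1

/-! Tutte's equation with constant vertex weight, in a ring where `y` is nilpotent. -/

set_option autoImplicit false

namespace Pool.Agent.Lib.MP_77dff5_pr

variable {R : Type} [CommRing R]

theorem tree4_dvd_mot {y r s : R} (hr : y ∣ r) (hs : y ∣ s) :
    ∀ (l j : ℕ) (m : ℤ), 2 * (j : ℤ) ≤ l - m → y ^ j ∣ mot r s l m := by
  intro l
  induction l with
  | zero =>
    intro j m h
    by_cases hm : m = 0
    · have : j = 0 := by omega
      subst this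
      simp
    · simp [mot, hm]
  | succ l ih =>
    intro j m h
    rcases j with _ | j
    · simp
    · rw [mot]
      refine dvd_add (dvd_add (ih _ _ (by push_cast at h ⊢; omega)) ?_) ?_
      · rw [pow_succ']
        exact mul_dvd_mul hs (ih _ _ (by push_cast at h ⊢; omega))
      · rw [pow_succ']
        exact mul_dvd_mul hr (ih _ _ (by push_cast at h ⊢; omega))

/-- partial sums of the Motzkin polynomials -/
def tree4_B (r s : R) (K : ℕ) (m : ℤ) : R := ∑ k ∈ Finset.range K, mot r s k m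

theorem tree4_B_rec (r s : R) (K : ℕ) (m : ℤ) :
    tree4_B r s K m + mot r s K m = (if m = 0 then 1 else 0) + tree4_B r s K (m - 1) +
      s * tree4_B r s K m + r * tree4_B r s K (m + 1) := by
  have h1 : tree4_B r s K m + mot r s K m = ∑ k ∈ Finset.range (K + 1), mot r s k m := by
    rw [Finset.sum_range_succ, tree4_B]
  rw [h1, Finset.sum_range_succ']
  simp only [mot, tree4_B, Finset.sum_add_distrib, Finset.mul_sum]
  ring

theorem tree4_Aj (x r s : R) (K : ℕ) (m : ℤ) :
    Aj (fun _ => x) K r s m = x * tree4_B r s K m := by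
  simp only [Aj, tree4_B, Finset.mul_sum]

theorem tree4_B_closed {N K : ℕ} {y P Q : R} (hy : y ^ N = 0) (hK : 2 * N ≤ K) (hP : y ∣ P)
    (hQ : y ∣ Q) :
    (∀ m : ℕ, tree4_B (Q * (1 - P - Q)) P K (-((m + 1 : ℕ) : ℤ)) =
      Q * tree4_B (Q * (1 - P - Q)) P K (-(m : ℤ))) ∧
      tree4_B (Q * (1 - P - Q)) P K 0 * (1 - P - 2 * Q) = 1 := by
  set r := Q * (1 - P - Q) with hr
  have hyr : y ∣ r := Dvd.dvd.mul_right hQ _
  have hz : ∀ (l : ℕ) (m : ℤ), 2 * (N : ℤ) ≤ l - m → mot r P l m = 0 := fun l m h => by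
    have := tree4_dvd_mot hyr hP l N m h
    rwa [hy, zero_dvd_iff] at this
  set C : ℕ → R := fun m => tree4_B r P K (-(m : ℤ)) with hC
  have hC0 : ∀ m : ℕ, 2 * N ≤ m → C m = 0 := fun m hm =>
    Finset.sum_eq_zero fun k _ => hz k _ (by omega)
  have hrec : ∀ m : ℕ, C (m + 2) - Q * C (m + 1) = (1 - P - Q) * (C (m + 1) - Q * C m) := by
    intro m
    have h := tree4_B_rec r P K (-((m + 1 : ℕ) : ℤ))
    rw [hz K _ (by omega), if_neg (by omega)] at h
    have e1 : (-((m + 1 : ℕ) : ℤ) - 1) = -((m + 2 : ℕ) : ℤ) := by push_cast; ring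
    have e2 : (-((m + 1 : ℕ) : ℤ) + 1) = -(m : ℤ) := by push_cast; ring
    rw [e1, e2] at h
    change C (m + 1) + 0 = 0 + C (m + 2) + P * C (m + 1) + r * C m at h
    linear_combination (-1 : R) * h - C m * hr
  have hpow : ∀ m j : ℕ, C (m + j + 1) - Q * C (m + j) =
      (1 - P - Q) ^ j * (C (m + 1) - Q * C m) := by
    intro m j
    induction j with
    | zero => simp
    | succ j ih =>
      rw [pow_succ', mul_assoc, ← ih]
      exact hrec (m + j)
  have hu : IsUnit (1 - P - Q) := by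
    have hn : IsNilpotent (P + Q) := by
      obtain ⟨c, hc⟩ := dvd_add hP hQ
      exact ⟨N, by rw [hc, mul_pow, hy, zero_mul]⟩
    have := hn.isUnit_one_sub
    rwa [← sub_sub] at this
  have hD : ∀ m : ℕ, C (m + 1) = Q * C m := by
    intro m
    have h := hpow m (2 * N)
    rw [hC0 _ (by omega), hC0 _ (by omega), mul_zero, sub_zero] at h
    exact sub_eq_zero.1 (((hu.pow _).mul_right_eq_zero).1 h.symm)
  refine ⟨hD, ?_⟩
  have h := tree4_B_rec r P K 0
  rw [hz K _ (by omega), if_pos rfl] at h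
  have h1 : r * tree4_B r P K (0 + 1) = C 1 := by
    simp only [hC, tree4_B, Finset.mul_sum]
    refine Finset.sum_congr rfl fun k _ => ?_
    rw [mot_neg]
    simp
  have h2 : tree4_B r P K (0 - 1) = C 1 := by simp [hC]
  have h3 : tree4_B r P K 0 = C 0 := by simp [hC]
  rw [h1, h2, h3, hD 0] at h
  rw [h3]
  linear_combination h

theorem tree4_alg {N K : ℕ} {x y P Q : R} (hy : y ^ N = 0) (hK : 2 * N ≤ K) (hyP : y ∣ P)
    (hyQ : y ∣ Q) (hP : P = x * y + P * P + 2 * (P * Q)) (hQ : Q = y + Q * Q + 2 * (P * Q))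
    {W : ℕ → R} (hW : TutteEq (fun _ => x) K y 1 W) :
    x * y * y * (∑ k ∈ Finset.range (K + 1), W k) + 2 * (P * (P * Q)) + 2 * (Q * (P * Q)) =
      P * Q := by
  obtain ⟨hD, h0⟩ := tree4_B_closed hy hK hyP hyQ
  set r := Q * (1 - P - Q) with hr
  set B := tree4_B r P K 0 with hB
  have b1 : tree4_B r P K (-1) = Q * B := by simpa using hD 0
  have b2 : tree4_B r P K (-2) = Q * (Q * B) := by
    have := hD 1
    rw [← b1]
    simpa using this
  have b3 : tree4_B r P K (-3) = Q * (Q * (Q * B)) := by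
    have := hD 2
    rw [← b2]
    simpa using this
  have hxy : x * y * B = P := by linear_combination P * h0 - B * hP
  obtain ⟨W', hW', h2, -⟩ := tutte_sol (fun _ => x) K y 1 r P
    (by rw [tree4_Aj, ← hB]; linear_combination (-1 : R) * hxy)
    (by rw [tree4_Aj, b1]; linear_combination hr + hQ - Q * hxy)
  obtain rfl : W = W' := tutte_unique hy hW hW'
  rw [tree4_Aj, tree4_Aj, b2, b3] at h2
  have w2 := hW.2 1
  simp only [Finset.range_one, Finset.sum_singleton, hW.1, ← Finset.mul_sum] at w2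
  rw [Finset.sum_range_succ', hW.1]
  have e : ∑ k ∈ Finset.range K, W (k + 1) = ∑ k ∈ Finset.range K, W (1 + k) :=
    Finset.sum_congr rfl fun k _ => by rw [add_comm]
  rw [e]
  set S := ∑ k ∈ Finset.range K, W (1 + k)
  change W 2 = y * (1 * 1 + x * S) at w2
  have hyv : y = Q - Q * Q - 2 * (P * Q) := by linear_combination (-1 : R) * hQ
  have huv : x * y = P - P * P - 2 * (P * Q) := by linear_combination (-1 : R) * hP
  have k1 : y * W 2 + 2 * P * P * Q * Q + P * Q * Q * Q = y * (P ^ 2 + r) := by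
    linear_combination y * h2 - (2 * P * Q * Q + Q * Q * Q) * hxy
  have k2 : x * y * y * S = y * (P ^ 2 + r) - y * y - 2 * P * P * Q * Q - P * Q * Q * Q := by
    linear_combination k1 - y * w2
  have k3 : x * y * y * (S + 1) = y * (P ^ 2 + r - y + x * y) - 2 * P * P * Q * Q -
      P * Q * Q * Q := by linear_combination k2
  rw [k3, huv, hr]
  linear_combination (P ^ 2 + Q * (1 - P - Q) + (P - P * P - 2 * (P * Q)) - y -
    (Q - Q * Q - 2 * (P * Q))) * hyv

end Pool.Agent.Lib.MP_77dff5_pr
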