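import Pool.Agent.Lib.MP_77dff5_pr.MDefs
import Pool.Agent.Lib.MP_77dff5_pr.WinA

/-! Systems of families; the concrete systems of the two models. -/

set_option autoImplicit false

namespace Pool.Agent.Lib.MP_77dff5_pr

open MeasureTheory ProbabilityTheory Filter Topology
open scoped ENNReal NNReal

/-- at large sizes `lam` is dominated by `mu`, up to a bounded shift of the value -/
def Dom (lam mu : Measure (ℕ × ℝ)) : Prop :=
  ∃ B : ℝ, ∀ ε : ℝ, 0 < ε → ∀ᶠ n : ℕ in atTop, ∀ ψ ψ' : ℝ → ℝ≥0∞, Measurable ψ → Measurable ψ' →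
    (∀ u b : ℝ, |b| ≤ B → ψ (u + b) ≤ ψ' u) →
    ∫⁻ p in {p | p.1 = n}, ψ p.2 ∂lam ≤
      ENNReal.ofReal (1 + ε) * ∫⁻ p in {p | p.1 = n}, ψ' p.2 ∂mu

/-- same local characteristic functions at the scale `n ^ (-5/2)` -/
def Asym (lam mu : Measure (ℕ × ℝ)) : Prop :=
  ∀ θ : ℝ, Tendsto (fun p : ℕ × ℝ => (((p.1 : ℝ) ^ (5 / 2 : ℝ) : ℝ) : ℂ) *
    (ch lam p.1 p.2 - ch mu p.1 p.2)) (FF θ) (𝓝 0)

/-- local bound -/
def PmB (μ : Measure (ℕ × ℝ)) : Prop :=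
  ∃ K : ℝ, ∀ n : ℕ, 1 ≤ n → pm μ n ≤ K * (n : ℝ) ^ (-(5 / 2) : ℝ)

/-- local second moment bound -/
def M2B (μ : Measure (ℕ × ℝ)) : Prop :=
  ∃ K : ℝ, ∀ n : ℕ, 1 ≤ n → m2 μ n 0 ≤ ENNReal.ofReal (K * (n : ℝ) ^ (-(5 / 2) : ℝ))

/-- local uniform integrability -/
def UIB (μ : Measure (ℕ × ℝ)) : Prop :=
  ∀ ε : ℝ, 0 < ε → ∃ κ : ℝ, 0 ≤ κ ∧ ∀ᶠ n : ℕ in atTop,
    m2 μ n κ ≤ ENNReal.ofReal (ε * (n : ℝ) ^ (-(5 / 2) : ℝ))

/-- local sixth moment bound -/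
def SixB (μ : Measure (ℕ × ℝ)) : Prop :=
  ∃ C : ℝ, ∀ n : ℕ, 1 ≤ n → ∫⁻ p in {p | p.1 = n}, ENNReal.ofReal ((n : ℝ) ^ 3 + p.2 ^ 6) ∂μ ≤
    ENNReal.ofReal (C * (n : ℝ) ^ (1 / 2 : ℝ))

/-- local central limit theorem -/
def Lim (μ : Measure (ℕ × ℝ)) (c σ2 : ℝ) : Prop :=
  ∀ θ : ℝ, Tendsto (fun p : ℕ × ℝ => (((p.1 : ℝ) ^ (5 / 2 : ℝ) : ℝ) : ℂ) * ch μ p.1 p.2) (FF θ)
    (𝓝 ((c * Real.exp (-(σ2 * θ ^ 2 / 2)) : ℝ) : ℂ))

section sys
variable {Ω J K : Type} [MeasurableSpace Ω] [Fintype J] [Fintype K]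

/-- the right-hand side of the equation of class `j` -/
noncomputable def src (F : K → Fam Ω J) (c : J → K → ℝ≥0) (ν : J → Measure Ω) (s : Ω → ℕ)
    (z : Ω → ℝ) (j : J) : Measure (ℕ × ℝ) := ∑ k, c j k • (F k).law ν s z

/-- the mean matrix -/
noncomputable def sysA (F : K → Fam Ω J) (c : J → K → ℝ≥0) (i j : J) : ℝ :=
  ∑ k, (c i k : ℝ) * (F k).acoef j

/-- a subcritical system with one heavy family `k₀` -/
structure SysOK (ν : J → Measure Ω) (s : Ω → ℕ) (z : Ω → ℝ) (F : K → Fam Ω J) (c : J → K → ℝ≥0)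
    (k₀ : K) (j₀ : J) (Δ : ℕ) (B : ℝ) : Prop where
  slots : Slots1 ν s z
  good : ∀ k, (F k).Good Δ B
  light : ∀ k, k ≠ k₀ → Summable fun t => ((F k).w t : ℝ) * (((F k).core t).k : ℝ) ^ 6
  heavy : (F k₀).Heavy ν s j₀ Δ B
  win : WinB ((F k₀).pos ν s) (fun t => (F k₀).w t) (-(11 / 6))
  lyap : ∃ m : J → ℝ, (∀ i, 0 < m i) ∧ ∀ i, ∑ j, sysA F c i j * m j < m i

end sys

/-- the pole degrees and the value are exchangeable under the exchange of the poles -/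
def SymD {Ω : Type} [MeasurableSpace Ω] (μ : Measure Ω) (a b : Ω → ℕ) (z : Ω → ℝ) : Prop :=
  ∃ sw : Ω → Ω, μ.map sw = μ ∧ (∀ ω, a (sw ω) = b ω) ∧ (∀ ω, b (sw ω) = a ω) ∧ ∀ ω, z (sw ω) = z ω

/-- mean of `f` at the final degree of a core vertex of degree `d` -/
noncomputable def ell {Ω : Type} [MeasurableSpace Ω] (μD μV : Measure Ω) (a c : Ω → ℕ) (f : ℕ → ℝ)
    (k0 d : ℕ) : ℝ :=
  if d ≤ k0 then ∫ p : Ω × (Fin d → Ω), f (c p.1 + ∑ i, a (p.2 i)) ∂μV.prod (Measure.pi fun _ => μD)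
  else f (k0 + 1)

/-- number of edges of a core -/
def posm (t : TT) : ℝ := t.1.1

/-- what is transported from maps to graphs: the statistics of 3-connected cores -/
structure CT (x τ : ℝ≥0) : Prop where
  win : WinB posm (fun t => wT x τ t) (-(11 / 6))
  lln : ∀ p q : ℕ, ∃ e : ℝ, WinLLN posm (fun t => wT x τ t) (fun t => Epq p q t.1) e
  clt : ∀ (l : ℕ → ℝ) (k0 : ℕ), EvC l k0 → ∃ cen c σ2 : ℝ, 0 < c ∧
    WinB posm (fun t => wT x τ t * ENNReal.ofReal ((Fl l t.1 - cen * posm t) ^ 4)) (1 / 6) ∧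
    DyB posm (fun t => wT x τ t * ENNReal.ofReal ((Fl l t.1 - cen * posm t) ^ 6)) (3 / 2) ∧
    WinCLT posm (wT x τ) (fun t => Fl l t.1 - cen * posm t) c σ2

/-! Model A. -/

inductive KA | M | E | S | P | H
  deriving DecidableEq, Fintype

noncomputable def ufA (x y : ℝ≥0∞) (f : ℕ → ℝ) (k0 : ℕ) (lam mu : ℝ) : KA → UFam Om JA
  | .M => famAM f lam mu x y
  | .E => famAE lam y
  | .S => famS f .nS .D .V
  | .P => famAP mu
  | .H => famAH f k0 mu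

noncomputable def lhsA (x y : ℝ≥0∞) : KA → Om → ℝ≥0∞
  | .M => onR (wM x y)
  | .E => clsA x y fun N => IsE N.2.2
  | .S => clsA x y fun N => IsS N.2.2
  | .P => clsA x y fun N => IsP N.2.2
  | .H => clsA x y fun N => IsT N.2.2

def incA : JA → KA → Bool
  | .M, .M => true
  | .D, .E => true
  | .D, .S => true
  | .D, .P => true
  | .D, .H => true
  | .nS, .E => true
  | .nS, .P => true
  | .nS, .H => true
  | .nP, .E => true
  | .nP, .S => true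
  | .nP, .H => true
  | _, _ => false

/-- critical weights of model A -/
noncomputable def wA (w : ℝ) : JA → Om → ℝ≥0∞ := wgA (ENNReal.ofReal (xw w)) (ENNReal.ofReal (yw w))

noncomputable def nuA (w : ℝ) (j : JA) : Measure Om := nrm (wA w j)

noncomputable def FA (w : ℝ) (f : ℕ → ℝ) (k0 : ℕ) (lam mu : ℝ) (k : KA) : Fam Om JA :=
  (ufA (ENNReal.ofReal (xw w)) (ENNReal.ofReal (yw w)) f k0 lam mu k).toFam (wA w)

noncomputable def cA (w : ℝ) (j : JA) (k : KA) : ℝ≥0 :=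
  if incA j k then (∑' ω, wA w j ω)⁻¹.toNNReal else 0

/-- critical weights of the cores -/
noncomputable def wTw (w : ℝ) : TT → ℝ≥0 := wT (xw w).toNNReal (tauw w).toNNReal

/-- mass and subcriticality of the cores -/
structure TFacts (w : ℝ) : Prop where
  mass : HasSum (fun t => (wTw w t : ℝ)) (Tw w)
  sum1 : Summable fun t => (wTw w t : ℝ) * posm t
  sub : (1 + tauw w) ^ 2 * ((2 * xw w * tauw w + xw w ^ 2 * tauw w ^ 2) / (1 + xw w * tauw w) ^ 2 +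
    2 * ((∑' t, (wTw w t : ℝ) * posm t) / tauw w)) < 1

/-- the output of the local limit theorem for maps -/
structure MData (w : ℝ) (f : ℕ → ℝ) (mu c σ2 : ℝ) : Prop where
  pos : 0 < c
  lim : Lim (slaw (meas (wA w .M)) sA (zz sA f 0 mu)) c σ2
  six : SixB (slaw (meas (wA w .M)) sA (zz sA f 0 mu))

/-! Model B. -/

inductive KB | E | S | P0 | P1 | H | R | G
  deriving DecidableEq, Fintype

noncomputable def ufB (f : ℕ → ℝ) (k0 : ℕ) (lam : ℝ) : KB → UFam Om JB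
  | .E => famBE lam
  | .S => famS f .nS .D .C
  | .P0 => famBP0
  | .P1 => famBP1 lam
  | .H => famBH f k0
  | .R => famBR f lam
  | .G => famBG f

noncomputable def lhsB (wv : RG → ℝ≥0∞) (x : ℝ≥0∞) : KB → Om → ℝ≥0∞
  | .E => clsB wv fun N => IsE N.2.2
  | .S => clsB wv fun N => IsS N.2.2
  | .P0 => clsB wv fun N => IsP N.2.2 ∧ NoDir N.2.2
  | .P1 => clsB wv fun N => IsP N.2.2 ∧ ¬NoDir N.2.2
  | .H => clsB wv fun N => IsT N.2.2
  | .R => onU fun ν => wU x ν * ((2 * ν.1 : ℕ) : ℝ≥0∞)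
  | .G => onU fun ν => wG x ν * (ν.2.1 : ℝ≥0∞)

def incB : JB → KB → Bool
  | .D, .E => true
  | .D, .S => true
  | .D, .P0 => true
  | .D, .P1 => true
  | .D, .H => true
  | .nS, .E => true
  | .nS, .P0 => true
  | .nS, .P1 => true
  | .nS, .H => true
  | .J, .S => true
  | .J, .H => true
  | .Dt, .S => true
  | .Dt, .P0 => true
  | .Dt, .H => true
  | _, _ => false

/-- weights of model B -/
noncomputable def wB (x : ℝ) : JB → Om → ℝ≥0∞ := wgB (wC (ENNReal.ofReal x)) (ENNReal.ofReal x)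

noncomputable def nuB (x : ℝ) (j : JB) : Measure Om := nrm (wB x j)

noncomputable def FB (x : ℝ) (f : ℕ → ℝ) (k0 : ℕ) (lam : ℝ) (k : KB) : Fam Om JB :=
  (ufB f k0 lam k).toFam (wB x)

/-- coefficients; `ρ` for unrooting connected graphs, `η` for all graphs -/
noncomputable def cB (x : ℝ) (ρ η : ℝ≥0) (j : JB) (k : KB) : ℝ≥0 :=
  (if incB j k then 1 else if j = .C ∧ k = .R then ρ else if j = .G ∧ k = .G then η else 0) *
    (∑' ω, wB x j ω)⁻¹.toNNReal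

/-- the point of the critical curve that corresponds to planar graphs -/
def Wcrit (w : ℝ) : Prop := 1 ≤ w ∧ (1 + tauw w) / 2 = Real.exp (Sw w + Tw w)

/-- the critical weight per vertex for planar graphs -/
structure BCrit (w x : ℝ) : Prop where
  crit : Wcrit w
  pos : 0 < x
  massC : ∑' R, wC (ENNReal.ofReal x) R = ENNReal.ofReal (xw w)
  fin : ∀ j, ∑' ω, wB x j ω * (sB ω + 1) ≠ ⊤

end Pool.Agent.Lib.MP_77dff5_pr
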