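import Pool.Agent.Lib.MP_77dff5_pr.VarB

/-! Variance tools on finite products: partial averages, Efron-Stein, uniform integrability. -/

set_option autoImplicit false

namespace Pool.Agent.Lib.MP_77dff5_pr

open MeasureTheory ProbabilityTheory Filter Topology
open scoped ENNReal NNReal

section general
variable {Ω I : Type} [Countable Ω] [MeasurableSpace Ω] [DiscreteMeasurableSpace Ω] [Fintype I]
  [DecidableEq I] (ν : I → Measure Ω) [∀ i, IsProbabilityMeasure (ν i)]

omit [Countable Ω] [DiscreteMeasurableSpace Ω] [DecidableEq I] in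
theorem varC_int_sum (X : I → Ω → ℝ) (hX : ∀ i, Integrable (X i) (ν i)) :
    Integrable (fun ω : I → Ω => ∑ i, X i (ω i)) (Measure.pi ν) ∧
      ∫ ω : I → Ω, ∑ i, X i (ω i) ∂Measure.pi ν = ∑ i, ∫ η, X i η ∂ν i := by
  refine ⟨integrable_finsetSum _ fun i _ => integrable_comp_eval (hX i), ?_⟩
  rw [integral_finsetSum _ fun i _ => integrable_comp_eval (hX i)]
  exact Finset.sum_congr rfl fun i _ => integral_comp_eval (hX i).aestronglyMeasurable

omit [Countable Ω] [DiscreteMeasurableSpace Ω] [DecidableEq I] in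
theorem varC_sum_sq (X : I → Ω → ℝ) (hX : ∀ i, MemLp (X i) 2 (ν i)) :
    Integrable (fun ω : I → Ω => (∑ i, X i (ω i) - ∑ i, ∫ η, X i η ∂ν i) ^ 2) (Measure.pi ν) ∧
      ∫ ω : I → Ω, (∑ i, X i (ω i) - ∑ i, ∫ η, X i η ∂ν i) ^ 2 ∂Measure.pi ν ≤
        ∑ i, ∫ η, X i η ^ 2 ∂ν i := by
  have h1 : MemLp (fun ω : I → Ω => ∑ i, X i (ω i)) 2 (Measure.pi ν) :=
    memLp_finsetSum _ fun i _ => (hX i).comp_measurePreserving (measurePreserving_eval ν i)
  refine ⟨(h1.sub (memLp_const _)).integrable_sq, ?_⟩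
  have h2 := variance_sum_pi (μ := ν) hX
  have h3 : (∑ i, fun ω : I → Ω => X i (ω i)) = fun ω : I → Ω => ∑ i, X i (ω i) := by
    ext ω
    simp
  rw [h3, variance_eq_integral h1.aemeasurable,
    (varC_int_sum ν X fun i => (hX i).integrable one_le_two).2] at h2
  rw [h2]
  exact Finset.sum_le_sum fun i _ => variance_le_expectation_sq (hX i).aestronglyMeasurable

omit [Countable Ω] [DiscreteMeasurableSpace Ω] [DecidableEq I] in
theorem varC_sum_abs (X : I → Ω → ℝ) (hX : ∀ i, Integrable (X i) (ν i)) (h0 : ∀ i η, 0 ≤ X i η) :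
    Integrable (fun ω : I → Ω => |∑ i, X i (ω i) - ∑ i, ∫ η, X i η ∂ν i|) (Measure.pi ν) ∧
      ∫ ω : I → Ω, |∑ i, X i (ω i) - ∑ i, ∫ η, X i η ∂ν i| ∂Measure.pi ν ≤
        2 * ∑ i, ∫ η, X i η ∂ν i := by
  obtain ⟨h1, h2⟩ := varC_int_sum ν X hX
  have h3 : Integrable (fun ω : I → Ω => |∑ i, X i (ω i) - ∑ i, ∫ η, X i η ∂ν i|)
      (Measure.pi ν) := (h1.sub (integrable_const _)).abs
  refine ⟨h3, ?_⟩
  have h4 : 0 ≤ ∑ i, ∫ η, X i η ∂ν i :=
    Finset.sum_nonneg fun i _ => integral_nonneg fun η => h0 i η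
  calc ∫ ω : I → Ω, |∑ i, X i (ω i) - ∑ i, ∫ η, X i η ∂ν i| ∂Measure.pi ν
      ≤ ∫ ω : I → Ω, (∑ i, X i (ω i) + ∑ i, ∫ η, X i η ∂ν i) ∂Measure.pi ν := by
        refine integral_mono h3 (h1.add (integrable_const _)) fun ω => ?_
        have h5 : 0 ≤ ∑ i, X i (ω i) := Finset.sum_nonneg fun i _ => h0 i _
        rw [abs_le]
        constructor <;> linarith
    _ = 2 * ∑ i, ∫ η, X i η ∂ν i := by
        rw [integral_add h1 (integrable_const _), h2]
        simp only [integral_const, probReal_univ, smul_eq_mul, one_mul]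
        ring

end general

theorem varC_psi_add (K a b : ℝ) : psi K (a + b) ≤ 2 * psi K a + 2 * b ^ 2 := by
  unfold psi
  have h1 : max (|a + b| - K) 0 ≤ max (|a| - K) 0 + |b| := by
    have h2 := abs_add_le a b
    have h3 := le_max_left (|a| - K) 0
    have h4 := le_max_right (|a| - K) 0
    have h5 := abs_nonneg b
    exact max_le (by linarith) (by linarith)
  have h6 : max (|a + b| - K) 0 ^ 2 ≤ (max (|a| - K) 0 + |b|) ^ 2 :=
    pow_le_pow_left₀ (le_max_right _ _) h1 2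
  have h7 : |b| ^ 2 = b ^ 2 := sq_abs b
  nlinarith [sq_nonneg (max (|a| - K) 0 - |b|)]

theorem varC_psi_le {K : ℝ} (hK : 0 < K) (u : ℝ) : psi K u ≤ u ^ 4 / K ^ 2 := by
  unfold psi
  rcases le_total |u| K with h | h
  · rw [max_eq_right (by linarith)]
    have : 0 ≤ u ^ 4 / K ^ 2 := by positivity
    simpa using this
  · rw [max_eq_left (by linarith), le_div_iff₀ (by positivity)]
    have h1 : (|u| - K) ^ 2 ≤ |u| ^ 2 := pow_le_pow_left₀ (by linarith) (by linarith) 2
    have h2 : K ^ 2 ≤ |u| ^ 2 := pow_le_pow_left₀ hK.le h 2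
    have h3 : |u| ^ 2 = u ^ 2 := sq_abs u
    calc (|u| - K) ^ 2 * K ^ 2 ≤ |u| ^ 2 * |u| ^ 2 :=
          mul_le_mul h1 h2 (by positivity) (by positivity)
      _ = u ^ 4 := by rw [h3]; ring

variable {Ω J : Type} [Countable Ω] [MeasurableSpace Ω] [DiscreteMeasurableSpace Ω] [Fintype J]
  {ν : J → Measure Ω} {s : Ω → ℕ} {z : Ω → ℝ} {Δ : ℕ} {B : ℝ}

theorem varC_trunc (h : Slots ν s z) {δ : ℝ} (hδ : 0 < δ) :
    ∃ M : ℝ, 0 ≤ M ∧ ∀ j, ∫ η, (if |z η| ≤ M then 0 else z η) ^ 2 ∂ν j ≤ δ := by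
  have h1 : ∀ j, ∀ᶠ M : ℕ in atTop, ∫ η, (if |z η| ≤ (M : ℝ) then 0 else z η) ^ 2 ∂ν j ≤ δ := by
    intro j
    have h2 : Tendsto (fun M : ℕ => ∫ η, (if |z η| ≤ (M : ℝ) then 0 else z η) ^ 2 ∂ν j) atTop
        (𝓝 (∫ _η, (0 : ℝ) ∂ν j)) := by
      refine tendsto_integral_of_dominated_convergence (fun η => z η ^ 2)
        (fun _ => (measurable_of_countable _).aestronglyMeasurable) (h.mem_z j).integrable_sq
        (fun M => Eventually.of_forall fun η => ?_) (Eventually.of_forall fun η => ?_)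
      · rw [Real.norm_eq_abs, abs_of_nonneg (sq_nonneg _)]
        split_ifs
        · simpa using sq_nonneg (z η)
        · exact le_rfl
      · refine tendsto_const_nhds.congr' ?_
        filter_upwards [eventually_ge_atTop ⌈|z η|⌉₊] with M hM
        rw [if_pos ((Nat.le_ceil _).trans (Nat.cast_le.mpr hM))]
        simp
    rw [integral_zero] at h2
    exact h2.eventually (ge_mem_nhds hδ)
  obtain ⟨M, hM⟩ := (eventually_all.mpr h1).exists
  exact ⟨M, Nat.cast_nonneg M, hM⟩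

omit [Countable Ω] [MeasurableSpace Ω] [DiscreteMeasurableSpace Ω] [Fintype J] in
theorem varC_g_diff {c : Core Ω J} (hc : c.Good Δ B) (U : Finset c.W) (ω : c.I → Ω) (i : c.I)
    (η : Ω) : |∑ v ∈ U, c.g v ω - ∑ v ∈ U, c.g v (Function.update ω i η)| ≤ Δ * (2 * |B|) := by
  classical
  rw [← Finset.sum_sub_distrib]
  refine (Finset.abs_sum_le_sum_abs _ _).trans ?_
  have h1 : ∀ v ∈ U, |c.g v ω - c.g v (Function.update ω i η)| ≤
      if i ∈ c.dep v then 2 * |B| else 0 := by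
    intro v _
    split_ifs with hi
    · have h2 := hc.bd v ω
      have h3 := hc.bd v (Function.update ω i η)
      have h4 := le_abs_self B
      refine (abs_sub _ _).trans ?_
      linarith
    · rw [c.g_dep v ω (Function.update ω i η) fun i' hi' => by
        rw [Function.update_of_ne (fun e : i' = i => hi (e ▸ hi'))]]
      simp
  refine (Finset.sum_le_sum h1).trans ?_
  rw [← Finset.sum_filter, Finset.sum_const, nsmul_eq_mul]
  refine mul_le_mul_of_nonneg_right ?_ (by positivity)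
  have h5 := hc.dep_mult i
  rw [Nat.card_eq_fintype_card, Fintype.card_subtype] at h5
  have h6 : (U.filter fun v => i ∈ c.dep v).card ≤ Δ :=
    (Finset.card_le_card (Finset.filter_subset_filter _ (Finset.subset_univ U))).trans h5
  exact_mod_cast h6

theorem Core.psi_Y_le (h : Slots ν s z) (Δ : ℕ) (B : ℝ) {ε : ℝ} (hε : 0 < ε) :
    ∃ K : ℝ, 0 ≤ K ∧ ∀ c : Core Ω J, c.Good Δ B → ∀ A U, ∀ x : ℝ, c.k ≤ x →
      ∫ ω, psi K ((c.Y z A U ω - ∫ ω', c.Y z A U ω' ∂c.P ν) / √x) ∂c.P ν ≤ ε := by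
  obtain ⟨M, hM0, hM⟩ := varC_trunc h (δ := ε / 4) (by positivity)
  obtain ⟨c0, hc0⟩ : ∃ c0 : ℝ, c0 = 2 * M + Δ * (2 * |B|) := ⟨_, rfl⟩
  obtain ⟨K, hK⟩ : ∃ K : ℝ, K = 16 * c0 ^ 4 / ε + 1 := ⟨_, rfl⟩
  have hK1 : 1 ≤ K := by
    have : 0 ≤ 16 * c0 ^ 4 / ε := by positivity
    linarith
  have hK0 : 0 < K := by linarith
  have hK2 : 8 * c0 ^ 4 / K ^ 2 ≤ ε / 2 := by
    rw [div_le_iff₀ (by positivity)]
    have h1 : 16 * c0 ^ 4 / ε * ε = 16 * c0 ^ 4 := by field_simp
    have h2 : K ≤ K ^ 2 := by nlinarith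
    have h3 : 16 * c0 ^ 4 ≤ K * ε := by
      rw [hK, add_mul, h1]
      linarith
    have h4 : K * ε ≤ K ^ 2 * ε := mul_le_mul_of_nonneg_right h2 hε.le
    linarith
  refine ⟨K, hK0.le, fun c hc A U x hx => ?_⟩
  have hx0 : 0 ≤ x := (Nat.cast_nonneg _).trans hx
  rcases hx0.eq_or_lt with rfl | hx0
  · simp [psi, hK0.le, hε.le]
  have hP : ∀ i, IsProbabilityMeasure (ν (c.cls i)) := fun i => h.prob _
  let X : c.I → Ω → ℝ := fun i η => if i ∈ A then (if |z η| ≤ M then 0 else z η) else 0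
  let G : (c.I → Ω) → ℝ := fun ω =>
    ∑ i ∈ A, (if |z (ω i)| ≤ M then z (ω i) else 0) + ∑ v ∈ U, c.g v ω
  have hYG : ∀ ω, c.Y z A U ω = G ω + ∑ i, X i (ω i) := by
    intro ω
    simp only [Core.Y, G, X]
    rw [Finset.sum_ite_mem, Finset.univ_inter, add_right_comm, ← Finset.sum_add_distrib]
    congr 1
    refine Finset.sum_congr rfl fun i _ => ?_
    split_ifs <;> simp
  have hX : ∀ i, MemLp (X i) 2 (ν (c.cls i)) := by
    intro i
    refine (h.mem_z (c.cls i)).of_le (measurable_of_countable _).aestronglyMeasurable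
      (Eventually.of_forall fun η => ?_)
    simp only [X]
    split_ifs <;> simp
  have hG : ∀ ω i η, |G ω - G (Function.update ω i η)| ≤ c0 := by
    intro ω i η
    have h1 := varC_g_diff hc U ω i η
    have h2 : |∑ i' ∈ A, (if |z (ω i')| ≤ M then z (ω i') else 0) -
        ∑ i' ∈ A, (if |z (Function.update ω i η i')| ≤ M then z (Function.update ω i η i')
          else 0)| ≤ 2 * M := by
      rw [← Finset.sum_sub_distrib]
      refine (Finset.abs_sum_le_sum_abs _ _).trans ?_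
      have h3 : ∀ i' ∈ A, |(if |z (ω i')| ≤ M then z (ω i') else 0) -
          (if |z (Function.update ω i η i')| ≤ M then z (Function.update ω i η i') else 0)| ≤
          if i' = i then 2 * M else 0 := by
        intro i' _
        by_cases hi : i' = i
        · rw [if_pos hi]
          refine (abs_sub _ _).trans ?_
          have h4 : ∀ y : ℝ, |if |y| ≤ M then y else 0| ≤ M := by
            intro y
            split_ifs with hy
            · exact hy
            · simpa using hM0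
          have h5 := h4 (z (ω i'))
          have h6 := h4 (z (Function.update ω i η i'))
          linarith
        · rw [if_neg hi, Function.update_of_ne hi]
          simp
      refine (Finset.sum_le_sum h3).trans ?_
      rw [Finset.sum_ite_eq']
      split_ifs
      · exact le_rfl
      · positivity
    simp only [G]
    rw [add_sub_add_comm, hc0]
    exact (abs_add_le _ _).trans (add_le_add h2 h1)
  obtain ⟨hG4, -, hG5⟩ := variance_le_of_bdd_diff (fun i => ν (c.cls i)) G c0 hG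
  obtain ⟨hX1, hX2⟩ := varC_sum_sq (fun i => ν (c.cls i)) X hX
  obtain ⟨hX3, hX4⟩ := varC_int_sum (fun i => ν (c.cls i)) X
    fun i => (hX i).integrable one_le_two
  have hGi : Integrable G (Measure.pi fun i => ν (c.cls i)) := hG4.integrable (by norm_num)
  have hG6 : Integrable (fun ω => (G ω - ∫ ω', G ω' ∂Measure.pi fun i => ν (c.cls i)) ^ 4)
      (Measure.pi fun i => ν (c.cls i)) := by
    have h1 : MemLp (fun ω => G ω - ∫ ω', G ω' ∂Measure.pi fun i => ν (c.cls i)) ((4 : ℕ) : ℝ≥0∞)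
        (Measure.pi fun i => ν (c.cls i)) := hG4.sub (memLp_const _)
    refine (h1.integrable_norm_pow (by norm_num)).congr (Eventually.of_forall fun ω => ?_)
    simp only [Real.norm_eq_abs]
    exact Even.pow_abs ⟨2, rfl⟩ _
  have hXs : ∑ i, ∫ η, X i η ^ 2 ∂ν (c.cls i) ≤ x * (ε / 4) := by
    have h1 : ∀ i ∈ (Finset.univ : Finset c.I), ∫ η, X i η ^ 2 ∂ν (c.cls i) ≤ ε / 4 := by
      intro i _
      by_cases hi : i ∈ A
      · simp only [X, if_pos hi]
        exact hM _
      · simp only [X, if_neg hi]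
        simp only [ne_eq, OfNat.ofNat_ne_zero, not_false_eq_true, zero_pow, integral_zero]
        positivity
    refine (Finset.sum_le_card_nsmul _ _ _ h1).trans ?_
    rw [nsmul_eq_mul, Finset.card_univ]
    exact mul_le_mul_of_nonneg_right hx (by positivity)
  unfold Core.P
  simp_rw [hYG]
  rw [integral_add hGi hX3, hX4]
  obtain ⟨m1, hm1⟩ : ∃ m1, m1 = ∫ ω', G ω' ∂Measure.pi fun i => ν (c.cls i) := ⟨_, rfl⟩
  obtain ⟨m2, hm2⟩ : ∃ m2, m2 = ∑ i, ∫ η, X i η ∂ν (c.cls i) := ⟨_, rfl⟩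
  rw [← hm1] at hG5 hG6 ⊢
  rw [← hm2] at hX1 hX2 ⊢
  have hsq : √x ^ 2 = x := Real.sq_sqrt hx0.le
  have hsx : 0 < √x := Real.sqrt_pos.mpr hx0
  calc ∫ ω, psi K ((G ω + ∑ i, X i (ω i) - (m1 + m2)) / √x) ∂(Measure.pi fun i => ν (c.cls i))
      ≤ ∫ ω, (2 / (x ^ 2 * K ^ 2) * (G ω - m1) ^ 4 + 2 / x * (∑ i, X i (ω i) - m2) ^ 2)
          ∂(Measure.pi fun i => ν (c.cls i)) := by
        refine integral_mono_of_nonneg (Eventually.of_forall fun ω => sq_nonneg _)
          ((hG6.const_mul _).add (hX1.const_mul _)) (Eventually.of_forall fun ω => ?_)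
        have h1 : (G ω + ∑ i, X i (ω i) - (m1 + m2)) / √x =
            (G ω - m1) / √x + (∑ i, X i (ω i) - m2) / √x := by ring
        have h2 := varC_psi_add K ((G ω - m1) / √x) ((∑ i, X i (ω i) - m2) / √x)
        have h3 := varC_psi_le hK0 ((G ω - m1) / √x)
        have h4 : ((G ω - m1) / √x) ^ 4 / K ^ 2 = 1 / (x ^ 2 * K ^ 2) * (G ω - m1) ^ 4 := by
          rw [div_pow, show √x ^ 4 = x ^ 2 by rw [show (4 : ℕ) = 2 * 2 from rfl, pow_mul, hsq]]
          field_simp
        have h5 : ((∑ i, X i (ω i) - m2) / √x) ^ 2 = 1 / x * (∑ i, X i (ω i) - m2) ^ 2 := by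
          rw [div_pow, hsq]
          field_simp
        simp only
        rw [h1]
        refine h2.trans ?_
        rw [h5]
        rw [h4] at h3
        have h6 : 2 / (x ^ 2 * K ^ 2) * (G ω - m1) ^ 4 =
            2 * (1 / (x ^ 2 * K ^ 2) * (G ω - m1) ^ 4) := by ring
        have h7 : 2 / x * (∑ i, X i (ω i) - m2) ^ 2 =
            2 * (1 / x * (∑ i, X i (ω i) - m2) ^ 2) := by ring
        rw [h6, h7]
        linarith
    _ = 2 / (x ^ 2 * K ^ 2) * ∫ ω, (G ω - m1) ^ 4 ∂(Measure.pi fun i => ν (c.cls i)) +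
          2 / x * ∫ ω, (∑ i, X i (ω i) - m2) ^ 2 ∂(Measure.pi fun i => ν (c.cls i)) := by
        rw [integral_add (hG6.const_mul _) (hX1.const_mul _), integral_const_mul,
          integral_const_mul]
    _ ≤ 2 / (x ^ 2 * K ^ 2) * (4 * x ^ 2 * c0 ^ 4) + 2 / x * (x * (ε / 4)) := by
        have h1 : 4 * (Fintype.card c.I : ℝ) ^ 2 * c0 ^ 4 ≤ 4 * x ^ 2 * c0 ^ 4 := by
          have h2 : (Fintype.card c.I : ℝ) ≤ x := hx
          have h3 : 0 ≤ c0 ^ 4 := by positivity
          gcongr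
        gcongr
        · exact hG5.trans h1
        · exact hX2.trans hXs
    _ = 8 * c0 ^ 4 / K ^ 2 + ε / 2 := by
        field_simp
        ring
    _ ≤ ε := by linarith

/-- uniform integrability of the squared fluctuations -/
theorem Core.psi_le (h : Slots ν s z) (Δ : ℕ) (B : ℝ) {ε : ℝ} (hε : 0 < ε) :
    ∃ K : ℝ, ∀ c : Core Ω J, c.Good Δ B → ∀ x : ℝ, c.k ≤ x →
      ∫ ω, psi K ((c.Z z ω - c.L ν z) / √x) ∂c.P ν ≤ ε := by
  obtain ⟨K, -, hK⟩ := Core.psi_Y_le h Δ B hε
  refine ⟨K, fun c hc x hx => ?_⟩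
  have hP := Core.isProb h.prob c
  have h1 := hK c hc Finset.univ Finset.univ x hx
  have h2 : ∀ ω, c.Y z Finset.univ Finset.univ ω = c.Z z ω - c.z0 := by
    intro ω
    simp only [Core.Y, Core.Z]
    ring
  simp_rw [h2] at h1
  rw [integral_sub (Core.integrable_Z h.toSlots1 hc) (integrable_const _)] at h1
  simp only [integral_const, probReal_univ, smul_eq_mul, one_mul, sub_sub_sub_cancel_right] at h1
  exact h1

/-- deviations of the size -/
theorem Core.dev_le (h : Slots1 ν s z) {A : ℝ} (h1 : T1 ν s A) :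
    ∃ C : ℝ, ∀ c : Core Ω J, ∀ x : ℝ, 1 ≤ x →
      (c.P ν).real {ω | x ≤ |(c.S s ω : ℝ) - c.mean ν s|} ≤ C * c.k * x ^ (-(3 / 2) : ℝ) := by
  refine ⟨4 * A, fun c x hx => ?_⟩
  have hx0 : 0 < x := by linarith
  have hP : ∀ i, IsProbabilityMeasure (ν (c.cls i)) := fun i => h.prob _
  let u1 : Ω → ℝ := fun η => if (s η : ℝ) ≤ x then s η / x else 0
  let u2 : Ω → ℝ := fun η => if (s η : ℝ) ≤ x then 0 else s η / x
  have hu : ∀ η, u1 η + u2 η = s η / x := by
    intro η
    simp only [u1, u2]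
    split_ifs <;> simp
  have hu' : ∀ η, u1 η ^ 2 + u2 η = min ((s η / x) ^ 2) (s η / x) := by
    intro η
    have h2 : 0 ≤ (s η : ℝ) / x := by positivity
    simp only [u1, u2]
    split_ifs with hs
    · have h3 : (s η : ℝ) / x ≤ 1 := (div_le_one hx0).mpr hs
      rw [min_eq_left (by nlinarith), add_zero]
    · have h3 : 1 ≤ (s η : ℝ) / x := (one_le_div hx0).mpr (not_le.mp hs).le
      rw [min_eq_right (by nlinarith)]
      simp
  have hu20 : ∀ η, 0 ≤ u2 η := by
    intro η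
    simp only [u2]
    split_ifs
    · exact le_rfl
    · positivity
  have hm1 : ∀ j, MemLp u1 2 (ν j) := by
    intro j
    have := h.prob j
    refine MemLp.of_bound (measurable_of_countable _).aestronglyMeasurable 1
      (Eventually.of_forall fun η => ?_)
    simp only [u1]
    split_ifs with hs
    · rw [Real.norm_eq_abs, abs_of_nonneg (by positivity)]
      exact (div_le_one hx0).mpr hs
    · simp
  have hi1 : ∀ j, Integrable u1 (ν j) := fun j => by
    have := h.prob j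
    exact (hm1 j).integrable one_le_two
  have hi2 : ∀ j, Integrable u2 (ν j) := by
    intro j
    refine (((h.int_s j).div_const x).sub (hi1 j)).congr (Eventually.of_forall fun η => ?_)
    simp only [Pi.sub_apply]
    rw [← hu η]
    ring
  obtain ⟨a1, a2⟩ := varC_sum_sq (fun i => ν (c.cls i)) (fun _ => u1) fun i => hm1 _
  obtain ⟨b1, b2⟩ := varC_sum_abs (fun i => ν (c.cls i)) (fun _ => u2) (fun i => hi2 _)
    fun _ => hu20
  obtain ⟨m1, hm1'⟩ : ∃ m1, m1 = ∑ i, ∫ η, u1 η ∂ν (c.cls i) := ⟨_, rfl⟩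
  obtain ⟨m2, hm2'⟩ : ∃ m2, m2 = ∑ i, ∫ η, u2 η ∂ν (c.cls i) := ⟨_, rfl⟩
  have hdec : ∀ ω : c.I → Ω, ((c.S s ω : ℝ) - c.mean ν s) / x =
      (∑ i, u1 (ω i) - m1) + (∑ i, u2 (ω i) - m2) := by
    intro ω
    have e1 : m1 + m2 = (∑ i, ∫ η, (s η : ℝ) ∂ν (c.cls i)) / x := by
      rw [hm1', hm2', ← Finset.sum_add_distrib, Finset.sum_div]
      refine Finset.sum_congr rfl fun i _ => ?_
      rw [← integral_add (hi1 _) (hi2 _), ← integral_div]
      exact integral_congr_ae (Eventually.of_forall hu)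
    have e2 : ∑ i, u1 (ω i) + ∑ i, u2 (ω i) = (∑ i, (s (ω i) : ℝ)) / x := by
      rw [← Finset.sum_add_distrib, Finset.sum_div]
      exact Finset.sum_congr rfl fun i _ => hu _
    rw [← add_sub_add_comm, e1, e2]
    simp only [Core.S, Core.mean]
    push_cast
    ring
  rw [← hm1'] at a1 a2
  rw [← hm2'] at b1 b2
  unfold Core.P
  rw [← integral_indicator_one (MeasurableSet.of_discrete)]
  calc ∫ ω, Set.indicator {ω | x ≤ |(c.S s ω : ℝ) - c.mean ν s|} 1 ω
        ∂(Measure.pi fun i => ν (c.cls i))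
      ≤ ∫ ω, (4 * (∑ i, u1 (ω i) - m1) ^ 2 + 2 * |∑ i, u2 (ω i) - m2|)
          ∂(Measure.pi fun i => ν (c.cls i)) := by
        refine integral_mono_of_nonneg
          (Eventually.of_forall fun ω => Set.indicator_nonneg (fun _ _ => zero_le_one) ω)
          ((a1.const_mul _).add (b1.const_mul _)) (Eventually.of_forall fun ω => ?_)
        refine Set.indicator_apply_le' (fun hω => ?_) (fun _ => by positivity)
        have h2 : 1 ≤ |((c.S s ω : ℝ) - c.mean ν s) / x| := by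
          rw [abs_div, abs_of_pos hx0, one_le_div hx0]
          exact hω
        rw [hdec ω] at h2
        have h3 := h2.trans (abs_add_le _ _)
        have h4 := abs_nonneg (∑ i, u2 (ω i) - m2)
        have h5 := sq_abs (∑ i, u1 (ω i) - m1)
        simp only [Pi.one_apply]
        nlinarith [sq_nonneg (2 * |∑ i, u1 (ω i) - m1| - 1), abs_nonneg (∑ i, u1 (ω i) - m1)]
    _ = 4 * ∫ ω, (∑ i, u1 (ω i) - m1) ^ 2 ∂(Measure.pi fun i => ν (c.cls i)) +
          2 * ∫ ω, |∑ i, u2 (ω i) - m2| ∂(Measure.pi fun i => ν (c.cls i)) := by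
        rw [integral_add (a1.const_mul _) (b1.const_mul _), integral_const_mul,
          integral_const_mul]
    _ ≤ 4 * ∑ i, ∫ η, u1 η ^ 2 ∂ν (c.cls i) + 2 * (2 * m2) := by gcongr
    _ = 4 * ∑ i, ∫ η, min ((s η / x) ^ 2) (s η / x) ∂ν (c.cls i) := by
        rw [hm2', ← mul_assoc, show (2 : ℝ) * 2 = 4 by norm_num, ← mul_add,
          ← Finset.sum_add_distrib]
        congr 1
        refine Finset.sum_congr rfl fun i _ => ?_
        rw [← integral_add (hm1 _).integrable_sq (hi2 _)]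
        exact integral_congr_ae (Eventually.of_forall hu')
    _ ≤ 4 * (c.k * (A * x ^ (-(3 / 2) : ℝ))) := by
        refine mul_le_mul_of_nonneg_left ?_ (by norm_num)
        refine (Finset.sum_le_card_nsmul _ _ _ fun i _ => h1 (c.cls i) x hx).trans ?_
        rw [nsmul_eq_mul, Finset.card_univ]
        exact le_rfl
    _ = 4 * A * c.k * x ^ (-(3 / 2) : ℝ) := by ring

end Pool.Agent.Lib.MP_77dff5_pr
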