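import Pool.Agent.Lib.MP_77dff5_pr.SumsA

/-! Summation lemmas and real inequalities for the estimates of the large part. -/

set_option autoImplicit false

namespace Pool.Agent.Lib.MP_77dff5_pr

open MeasureTheory Filter Topology
open scoped ENNReal NNReal

/-- a summable profile on the range `[x / 2, 2 x]` -/
noncomputable def winC_gm (x p : ℝ) : ℝ :=
  if x / 2 ≤ p ∧ p ≤ 2 * x then (1 + |x - p| / x ^ (2 / 3 : ℝ)) ^ (-(5 / 4) : ℝ) else 0

theorem winC_gm_nonneg {x : ℝ} (hx : 0 ≤ x) (p : ℝ) : 0 ≤ winC_gm x p := by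
  unfold winC_gm
  split_ifs
  · positivity
  · exact le_rfl

/-- the bound that is summed over the cores -/
noncomputable def winC_b (e η C x p : ℝ) : ℝ :=
  η * x ^ (-(5 / 2) - e) * winC_gm x p + C * x ^ (-(12 / 5) : ℝ) * p ^ (-(1 / 2) - e)

theorem winC_b_nonneg {e η C x p : ℝ} (hη : 0 ≤ η) (hC : 0 ≤ C) (hx : 0 ≤ x) (hp : 0 ≤ p) :
    0 ≤ winC_b e η C x p := by
  unfold winC_b
  have := winC_gm_nonneg hx p
  positivity

variable {T : Type} {pos : T → ℝ}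

theorem winC_sum_gm {c : T → ℝ≥0∞} {e : ℝ} (h : WinB pos c e) :
    ∃ A : ℝ, 0 ≤ A ∧ ∀ x : ℝ, 2 ≤ x →
      ∑' t, c t * ENNReal.ofReal (winC_gm x (pos t)) ≤ ENNReal.ofReal (A * x ^ e) := by
  obtain ⟨A, hA⟩ := h.near
  set r : ℝ := (2 : ℝ) ^ (-(1 / 4) : ℝ) with hr
  have hr0 : 0 ≤ r := by positivity
  have hr1 : r < 1 := Real.rpow_lt_one_of_one_lt_of_neg (by norm_num) (by norm_num)
  refine ⟨5 * max A 0 * (1 - r)⁻¹, by have : 0 < 1 - r := by linarith
                                      positivity, fun x hx => ?_⟩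
  have hx0 : 0 < x := by linarith
  have hx23 : 0 < x ^ (2 / 3 : ℝ) := by positivity
  let a : ℕ → ℝ := fun i => max (x / 2) (x - 2 ^ (i + 1) * x ^ (2 / 3 : ℝ))
  let b : ℕ → ℝ := fun i => min (2 * x) (x + 2 ^ (i + 1) * x ^ (2 / 3 : ℝ))
  let S : ℕ → Set T := fun i => {t | a i ≤ pos t ∧ pos t ≤ b i}
  have h1 : ∀ t, c t * ENNReal.ofReal (winC_gm x (pos t)) ≤
      ∑' i : ℕ, ENNReal.ofReal (((2 : ℝ) ^ i) ^ (-(5 / 4) : ℝ)) * (S i).indicator c t := by
    intro t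
    unfold winC_gm
    split_ifs with hm
    · have hu : 1 ≤ 1 + |x - pos t| / x ^ (2 / 3 : ℝ) := by
        have : 0 ≤ |x - pos t| / x ^ (2 / 3 : ℝ) := by positivity
        linarith
      obtain ⟨i, hi1, hi2⟩ := exists_nat_pow_near hu (by norm_num : (1 : ℝ) < 2)
      refine le_trans ?_ (ENNReal.le_tsum i)
      have hd : |x - pos t| ≤ 2 ^ (i + 1) * x ^ (2 / 3 : ℝ) := by
        rw [← div_le_iff₀ hx23]
        linarith
      have hS : t ∈ S i := by
        have := abs_le.1 hd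
        refine ⟨max_le hm.1 (by linarith), le_min hm.2 (by linarith)⟩
      rw [Set.indicator_of_mem hS, mul_comm]
      exact mul_le_mul_left (ENNReal.ofReal_le_ofReal
        (Real.rpow_le_rpow_of_nonpos (by positivity) hi1 (by norm_num))) _
    · simp
  refine (ENNReal.tsum_le_tsum h1).trans ?_
  rw [ENNReal.tsum_comm]
  have h2 : ∀ i : ℕ, ∑' t, ENNReal.ofReal (((2 : ℝ) ^ i) ^ (-(5 / 4) : ℝ)) * (S i).indicator c t ≤
      ENNReal.ofReal (5 * max A 0 * x ^ e * r ^ i) := by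
    intro i
    rw [ENNReal.tsum_mul_left, ← tsum_subtype]
    have hp : 0 ≤ (2 : ℝ) ^ (i + 1) * x ^ (2 / 3 : ℝ) := by positivity
    have hab : a i ≤ b i := by
      refine le_trans (max_le (by linarith) (by linarith) : a i ≤ x)
        (le_min (by linarith) (by linarith))
    have h3 := hA x hx (a i) (b i) (le_max_left _ _) hab (min_le_left _ _)
    have h4 : (b i - a i) / x ^ (2 / 3 : ℝ) ≤ 4 * 2 ^ i := by
      rw [div_le_iff₀ hx23]
      have e1 : b i ≤ x + 2 ^ (i + 1) * x ^ (2 / 3 : ℝ) := min_le_right _ _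
      have e2 : x - 2 ^ (i + 1) * x ^ (2 / 3 : ℝ) ≤ a i := le_max_right _ _
      have e3 : (2 : ℝ) ^ (i + 1) = 2 * 2 ^ i := by ring
      rw [e3] at e1 e2
      nlinarith
    have h5 : (1 : ℝ) ≤ 2 ^ i := one_le_pow₀ (by norm_num)
    have h6 : A * x ^ e * (1 + (b i - a i) / x ^ (2 / 3 : ℝ)) ≤ max A 0 * x ^ e * (5 * 2 ^ i) := by
      have : 0 ≤ (b i - a i) / x ^ (2 / 3 : ℝ) := div_nonneg (by linarith) hx23.le
      calc A * x ^ e * (1 + (b i - a i) / x ^ (2 / 3 : ℝ))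
          ≤ max A 0 * x ^ e * (1 + (b i - a i) / x ^ (2 / 3 : ℝ)) := by
            gcongr
            exact le_max_left _ _
        _ ≤ max A 0 * x ^ e * (5 * 2 ^ i) := by
            gcongr
            linarith
    refine le_trans (mul_le_mul_right (h3.trans (ENNReal.ofReal_le_ofReal h6)) _) ?_
    rw [← ENNReal.ofReal_mul (by positivity)]
    refine ENNReal.ofReal_le_ofReal (le_of_eq ?_)
    have h7 : r ^ i = ((2 : ℝ) ^ i) ^ (-(5 / 4) : ℝ) * 2 ^ i := by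
      have : ((2 : ℝ) ^ i) ^ (-(5 / 4) : ℝ) * 2 ^ i = ((2 : ℝ) ^ i) ^ (-(1 / 4) : ℝ) := by
        rw [← Real.rpow_add_one (by positivity)]
        norm_num
      rw [this, hr, ← Real.rpow_natCast, ← Real.rpow_natCast, ← Real.rpow_mul (by norm_num),
        ← Real.rpow_mul (by norm_num), mul_comm]
    rw [h7]
    ring
  refine (ENNReal.tsum_le_tsum h2).trans (le_of_eq ?_)
  have hs : Summable fun i : ℕ => 5 * max A 0 * x ^ e * r ^ i :=
    (summable_geometric_of_lt_one hr0 hr1).mul_left _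
  rw [← ENNReal.ofReal_tsum_of_nonneg (fun i => by positivity) hs, tsum_mul_left,
    tsum_geometric_of_lt_one hr0 hr1]
  congr 1
  ring

theorem winC_sum_b {c : T → ℝ≥0∞} {e : ℝ} (h : WinB pos c e) {D : ℝ} (hD : 0 < D) :
    ∃ A : ℝ, 0 ≤ A ∧ ∀ C δ : ℝ, 0 ≤ C → 0 < δ → ∀ᶠ n : ℕ in atTop, ∀ η : ℝ, 0 ≤ η →
      ∀ S : Set T, (∀ t ∈ S, (n : ℝ) ^ (9 / 10 : ℝ) ≤ D * pos t) →
        ∑' t : S, c t * ENNReal.ofReal (winC_b e η C n (pos t)) ≤
          ENNReal.ofReal ((η * A + δ) * (n : ℝ) ^ (-(5 / 2) : ℝ)) := by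
  obtain ⟨A, hA0, hA⟩ := winC_sum_gm h
  obtain ⟨A', hA'⟩ := (h.dyB.mul_rpow (-(1 / 2) - e)).tail (by linarith)
  refine ⟨A, hA0, fun C δ hC hδ => ?_⟩
  have ht : Tendsto (fun n : ℕ => (n : ℝ) ^ (9 / 10 : ℝ) / D) atTop atTop :=
    ((tendsto_rpow_atTop (by norm_num)).comp tendsto_natCast_atTop_atTop).atTop_div_const hD
  have ht2 : Tendsto (fun n : ℕ => C * max A' 0 * D ^ (1 / 6 : ℝ) * (n : ℝ) ^ (-(1 / 20) : ℝ))
      atTop (𝓝 0) := by
    have := ((tendsto_rpow_neg_atTop (by norm_num : (0 : ℝ) < 1 / 20)).comp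
      tendsto_natCast_atTop_atTop).const_mul (C * max A' 0 * D ^ (1 / 6 : ℝ))
    simpa using this
  filter_upwards [ht.eventually_ge_atTop 1, ht2.eventually (ge_mem_nhds hδ),
    eventually_ge_atTop 2] with n hn1 hn2 hn3 η hη S hS
  have hx : (2 : ℝ) ≤ n := by exact_mod_cast hn3
  set x : ℝ := (n : ℝ) with hxdef
  have hx0 : 0 < x := by linarith
  set y0 : ℝ := x ^ (9 / 10 : ℝ) / D with hy0
  have hS' : ∀ t ∈ S, y0 ≤ pos t := fun t ht => by
    rw [hy0, div_le_iff₀ hD, mul_comm]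
    exact hS t ht
  have e1 : ∀ t : S, c t * ENNReal.ofReal (winC_b e η C x (pos t)) =
      ENNReal.ofReal (η * x ^ (-(5 / 2) - e)) * (c t * ENNReal.ofReal (winC_gm x (pos t))) +
      ENNReal.ofReal (C * x ^ (-(12 / 5) : ℝ)) *
        (c t * ENNReal.ofReal (pos t ^ (-(1 / 2) - e))) := by
    intro t
    have hp : 0 ≤ pos t := by linarith [hS' t t.2]
    have := winC_gm_nonneg hx0.le (pos t)
    unfold winC_b
    rw [ENNReal.ofReal_add (by positivity) (by positivity), ENNReal.ofReal_mul (by positivity),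
      ENNReal.ofReal_mul (p := C * x ^ (-(12 / 5) : ℝ)) (by positivity)]
    ring
  rw [tsum_congr e1, ENNReal.tsum_add, ENNReal.tsum_mul_left, ENNReal.tsum_mul_left]
  have e2 : ∑' t : S, c t * ENNReal.ofReal (winC_gm x (pos t)) ≤ ENNReal.ofReal (A * x ^ e) :=
    le_trans (ENNReal.tsum_comp_le_tsum_of_injective Subtype.val_injective
      (fun t => c t * ENNReal.ofReal (winC_gm x (pos t)))) (hA x hx)
  have e3 : ∑' t : S, c t * ENNReal.ofReal (pos t ^ (-(1 / 2) - e)) ≤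
      ENNReal.ofReal (max A' 0 * y0 ^ (-(1 / 6) : ℝ)) := by
    have hsub : S ⊆ {t | y0 ≤ pos t} := hS'
    refine le_trans (ENNReal.tsum_mono_subtype
      (fun t => c t * ENNReal.ofReal (pos t ^ (-(1 / 2) - e))) hsub) ?_
    refine (hA' y0 hn1).trans (ENNReal.ofReal_le_ofReal ?_)
    have : e + 1 / 3 + (-(1 / 2) - e) = -(1 / 6) := by ring
    rw [this]
    have : 0 ≤ y0 ^ (-(1 / 6) : ℝ) := by positivity
    gcongr
    exact le_max_left _ _
  refine le_trans (add_le_add (mul_le_mul_right e2 _) (mul_le_mul_right e3 _)) ?_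
  rw [← ENNReal.ofReal_mul (by positivity), ← ENNReal.ofReal_mul (by positivity),
    ← ENNReal.ofReal_add (by positivity) (by positivity)]
  refine ENNReal.ofReal_le_ofReal ?_
  have e4 : x ^ (-(5 / 2) - e) * x ^ e = x ^ (-(5 / 2) : ℝ) := by
    rw [← Real.rpow_add hx0]
    congr 1
    ring
  have e5 : y0 ^ (-(1 / 6) : ℝ) = x ^ (-(3 / 20) : ℝ) * D ^ (1 / 6 : ℝ) := by
    rw [hy0, Real.div_rpow (by positivity) hD.le, ← Real.rpow_mul hx0.le, Real.rpow_neg hD.le,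
      div_inv_eq_mul]
    norm_num
  have e6 : x ^ (-(12 / 5) : ℝ) * x ^ (-(3 / 20) : ℝ) =
      x ^ (-(1 / 20) : ℝ) * x ^ (-(5 / 2) : ℝ) := by
    rw [← Real.rpow_add hx0, ← Real.rpow_add hx0]
    norm_num
  have e7 : 0 ≤ x ^ (-(5 / 2) : ℝ) := by positivity
  calc η * x ^ (-(5 / 2) - e) * (A * x ^ e) +
        C * x ^ (-(12 / 5) : ℝ) * (max A' 0 * y0 ^ (-(1 / 6) : ℝ))
      = η * A * (x ^ (-(5 / 2) - e) * x ^ e) +
        C * max A' 0 * D ^ (1 / 6 : ℝ) * (x ^ (-(12 / 5) : ℝ) * x ^ (-(3 / 20) : ℝ)) := by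
        rw [e5]; ring
    _ = η * A * x ^ (-(5 / 2) : ℝ) +
        C * max A' 0 * D ^ (1 / 6 : ℝ) * x ^ (-(1 / 20) : ℝ) * x ^ (-(5 / 2) : ℝ) := by
        rw [e4, e6]; ring
    _ ≤ η * A * x ^ (-(5 / 2) : ℝ) + δ * x ^ (-(5 / 2) : ℝ) := by gcongr
    _ = (η * A + δ) * x ^ (-(5 / 2) : ℝ) := by ring

end Pool.Agent.Lib.MP_77dff5_pr
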