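import Pool.Agent.Lib.MP_77dff5_pr.SumsA

/-! Sums over windows of length `n ^ (2/3)`. -/

set_option autoImplicit false

namespace Pool.Agent.Lib.MP_77dff5_pr

open MeasureTheory ProbabilityTheory Filter Topology Set
open scoped ENNReal NNReal

/-- masses bounded on unit windows can be summed against `(1 + |u|) ^ (-5/4)` -/
theorem winE_sum : ∃ S : ℝ≥0∞, S ≠ ⊤ ∧ ∀ (T : Type) (u : T → ℝ) (m : T → ℝ≥0∞) (A : ℝ≥0∞),
    (∀ y : ℝ, ∑' t : {t // y ≤ u t ∧ u t ≤ y + 1}, m t ≤ A) →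
      ∑' t, m t * ENNReal.ofReal ((1 + |u t|) ^ (-(5 / 4) : ℝ)) ≤ A * S := by
  set β : ℤ → ℝ := fun j => |(j : ℝ)| ^ (-(5 / 4) : ℝ) + if j = 0 then 1 else 0 with hβ
  have h0 : ∀ j, 0 ≤ β j := fun j =>
    add_nonneg (Real.rpow_nonneg (abs_nonneg _) _) (by split_ifs <;> norm_num)
  have hs : Summable β :=
    (Real.summable_abs_int_rpow (by norm_num)).add (hasSum_ite_eq (0 : ℤ) (1 : ℝ)).summable
  refine ⟨∑' j, ENNReal.ofReal (β j), ?_, fun T u m A hA => ?_⟩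
  · rw [← ENNReal.ofReal_tsum_of_nonneg h0 hs]; exact ENNReal.ofReal_ne_top
  rw [← ENNReal.tsum_fiberwise _ (fun t => ⌊u t⌋), ← ENNReal.tsum_mul_left]
  refine ENNReal.tsum_le_tsum fun j => ?_
  calc _ ≤ ∑' t : (fun t => ⌊u t⌋) ⁻¹' {j}, m t * ENNReal.ofReal (β j) := by
        refine ENNReal.tsum_le_tsum fun t => mul_le_mul_right (ENNReal.ofReal_le_ofReal ?_) _
        have ht : ⌊u t⌋ = j := t.2
        have h1 := Int.floor_le (u t)
        have h2 := Int.lt_floor_add_one (u t)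
        rw [ht] at h1 h2
        have h3 := abs_nonneg (u t)
        by_cases hj : j = 0
        · have : (1 + |u t|) ^ (-(5 / 4) : ℝ) ≤ 1 :=
            Real.rpow_le_one_of_one_le_of_nonpos (by linarith) (by norm_num)
          simp only [hβ, if_pos hj]
          linarith [Real.rpow_nonneg (abs_nonneg (j : ℝ)) (-(5 / 4) : ℝ)]
        · simp only [hβ, if_neg hj, add_zero]
          refine Real.rpow_le_rpow_of_nonpos (abs_pos.2 (by exact_mod_cast hj)) ?_ (by norm_num)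
          rw [abs_le]
          constructor <;> linarith [le_abs_self (u t), neg_abs_le (u t)]
    _ = (∑' t : (fun t => ⌊u t⌋) ⁻¹' {j}, m t) * ENNReal.ofReal (β j) := ENNReal.tsum_mul_right
    _ ≤ _ := by
        refine mul_le_mul_left (le_trans ?_ (hA j)) _
        refine ENNReal.tsum_mono_subtype m (t := {t | (j : ℝ) ≤ u t ∧ u t ≤ j + 1}) fun t ht => ?_
        have ht' : ⌊u t⌋ = j := ht
        rw [← ht']
        exact ⟨Int.floor_le _, (Int.lt_floor_add_one _).le⟩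

theorem winE_min {K δ : ℝ} (hδ : 0 < δ) : ∃ ε : ℝ, 0 < ε ∧ ∀ v d : ℝ, 1 ≤ v → d ≤ ε * v →
    d ≤ K * v ^ (-(3 / 2) : ℝ) → d ≤ δ * v ^ (-(5 / 4) : ℝ) := by
  have t1 : Tendsto (fun v : ℝ => K * v ^ (-(1 / 4) : ℝ)) atTop (𝓝 (K * 0)) :=
    (tendsto_rpow_neg_atTop (by norm_num)).const_mul K
  rw [mul_zero] at t1
  obtain ⟨R, hR⟩ := eventually_atTop.1 ((t1.eventually (ge_mem_nhds hδ)).and
    (eventually_ge_atTop 1))
  have hR1 : 1 ≤ R := (hR R le_rfl).2
  refine ⟨δ * R ^ (-(9 / 4) : ℝ), by positivity, fun v d hv h1 h2 => ?_⟩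
  have hv0 : 0 < v := by linarith
  rcases le_total R v with h | h
  · refine h2.trans ?_
    rw [show (-(3 / 2) : ℝ) = -(1 / 4) + -(5 / 4) by norm_num, Real.rpow_add hv0, ← mul_assoc]
    exact mul_le_mul_of_nonneg_right (hR v h).1 (by positivity)
  · refine h1.trans ?_
    rw [show (-(5 / 4) : ℝ) = -(9 / 4) + 1 by norm_num, Real.rpow_add hv0, Real.rpow_one,
      ← mul_assoc]
    gcongr δ * ?_ * v
    exact Real.rpow_le_rpow_of_nonpos hv0 h (by norm_num)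

theorem winE_half {n y : ℝ} (hn : 0 < n) (hy : n / 2 ≤ y) :
    n ^ (2 / 3 : ℝ) / 2 ≤ y ^ (2 / 3 : ℝ) ∧ y ^ (-(11 / 6) : ℝ) ≤ 4 * n ^ (-(11 / 6) : ℝ) := by
  constructor
  · refine le_trans ?_ (Real.rpow_le_rpow (by positivity) hy (by norm_num))
    rw [Real.div_rpow hn.le (by norm_num)]
    gcongr
    calc (2 : ℝ) ^ (2 / 3 : ℝ) ≤ 2 ^ (1 : ℝ) :=
          Real.rpow_le_rpow_of_exponent_le (by norm_num) (by norm_num)
      _ = 2 := Real.rpow_one 2
  · refine (Real.rpow_le_rpow_of_nonpos (by positivity) hy (by norm_num)).trans ?_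
    rw [Real.div_rpow hn.le (by norm_num), div_eq_mul_inv, ← Real.rpow_neg (by norm_num), mul_comm]
    gcongr
    calc (2 : ℝ) ^ (- -(11 / 6) : ℝ) ≤ 2 ^ (2 : ℝ) :=
          Real.rpow_le_rpow_of_exponent_le (by norm_num) (by norm_num)
      _ = 4 := by norm_num

theorem winE_lln {T : Type} {pos X : T → ℝ} {w : T → ℝ≥0∞} {e : ℝ} (h : WinLLN pos w X e)
    {ε δ : ℝ} (hε : 0 < ε) (hδ : 0 < δ) : ∀ᶠ n : ℝ in atTop, ∀ b : ℝ,
      ∑' t : {t | (n / 2 ≤ pos t ∧ pos t ≤ 2 * n) ∧ (b ≤ pos t ∧ pos t ≤ b + n ^ (2 / 3 : ℝ)) ∧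
        ε * n < |X t - e * pos t|}, w t ≤ ENNReal.ofReal (δ * n ^ (-(11 / 6) : ℝ)) := by
  obtain ⟨Y, hY⟩ := eventually_atTop.1 (h (ε / 2) (δ / 8) (by positivity) (by positivity))
  filter_upwards [eventually_ge_atTop (2 * Y), eventually_gt_atTop 0] with n hn hn0 b
  have ha : 0 < n ^ (2 / 3 : ℝ) := Real.rpow_pos_of_pos hn0 _
  have key : ∀ y : ℝ, n / 2 ≤ y → ∑' t : {t | y ≤ pos t ∧ pos t ≤ y + y ^ (2 / 3 : ℝ) ∧
      ε / 2 * y < |X t - e * pos t|}, w t ≤ ENNReal.ofReal (δ / 2 * n ^ (-(11 / 6) : ℝ)) := by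
    intro y hy
    refine (hY y (by linarith)).trans (ENNReal.ofReal_le_ofReal ?_)
    have := (winE_half hn0 hy).2
    nlinarith
  have h1 : n / 2 ≤ max b (n / 2) := le_max_right _ _
  have h2 : n / 2 ≤ max b (n / 2) + n ^ (2 / 3 : ℝ) / 2 := by linarith
  refine le_trans (ENNReal.tsum_mono_subtype w fun t ht => ?_)
    ((ENNReal.tsum_union_le w _ _).trans ((add_le_add (key _ h1) (key _ h2)).trans ?_))
  · obtain ⟨⟨p1, p2⟩, ⟨p3, p4⟩, p5⟩ := ht
    have p6 : max b (n / 2) ≤ pos t := max_le p3 p1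
    have p7 := le_max_left b (n / 2)
    rcases le_total (pos t) (max b (n / 2) + n ^ (2 / 3 : ℝ) / 2) with h3 | h3
    · exact Or.inl ⟨p6, by linarith [(winE_half hn0 h1).1], by nlinarith⟩
    · exact Or.inr ⟨h3, by linarith [(winE_half hn0 h2).1], by nlinarith⟩
  · rw [← ENNReal.ofReal_add (by positivity) (by positivity)]
    exact ENNReal.ofReal_le_ofReal (le_of_eq (by ring))

theorem winE_near {T : Type} {pos : T → ℝ} {w : T → ℝ≥0∞} (h : WinB pos w (-(11 / 6))) :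
    ∃ A : ℝ, 0 ≤ A ∧ ∀ n : ℝ, 2 ≤ n → ∀ b : ℝ,
      ∑' t : {t | (n / 2 ≤ pos t ∧ pos t ≤ 2 * n) ∧ (b ≤ pos t ∧ pos t ≤ b + n ^ (2 / 3 : ℝ))}, w t
        ≤ ENNReal.ofReal (A * n ^ (-(11 / 6) : ℝ)) := by
  obtain ⟨A, hA⟩ := h.near
  refine ⟨2 * |A|, by positivity, fun n hn b => ?_⟩
  have hn0 : 0 < n := by linarith
  have ha : 0 < n ^ (2 / 3 : ℝ) := Real.rpow_pos_of_pos hn0 _
  by_cases hab : max b (n / 2) ≤ min (b + n ^ (2 / 3 : ℝ)) (2 * n)
  · refine le_trans (ENNReal.tsum_mono_subtype w fun t ht => ?_)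
      ((hA n hn _ _ (le_max_right _ _) hab (min_le_right _ _)).trans (ENNReal.ofReal_le_ofReal ?_))
    · exact ⟨max_le ht.2.1 ht.1.1, le_min ht.2.2 ht.1.2⟩
    · have h1 : (min (b + n ^ (2 / 3 : ℝ)) (2 * n) - max b (n / 2)) / n ^ (2 / 3 : ℝ) ≤ 1 := by
        rw [div_le_one ha]
        linarith [min_le_left (b + n ^ (2 / 3 : ℝ)) (2 * n), le_max_left b (n / 2)]
      have h2 : 0 ≤ (min (b + n ^ (2 / 3 : ℝ)) (2 * n) - max b (n / 2)) / n ^ (2 / 3 : ℝ) :=
        div_nonneg (sub_nonneg.2 hab) ha.le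
      have h3 : 0 < n ^ (-(11 / 6) : ℝ) := Real.rpow_pos_of_pos hn0 _
      calc _ ≤ |A| * n ^ (-(11 / 6) : ℝ) * (1 + 1) := by
            gcongr
            exact le_abs_self A
        _ = _ := by ring
  · have : {t | (n / 2 ≤ pos t ∧ pos t ≤ 2 * n) ∧ (b ≤ pos t ∧ pos t ≤ b + n ^ (2 / 3 : ℝ))} = ∅ := by
      ext t
      simp only [mem_setOf_eq, mem_empty_iff_false, iff_false]
      exact fun ht => hab ((max_le ht.2.1 ht.1.1).trans (le_min ht.2.2 ht.1.2))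
    rw [this]
    simp

/-- the profile of an integer valued variable has total mass one -/
theorem winE_int {X : Type} [MeasurableSpace X] (P : Measure X) [IsProbabilityMeasure P]
    (S : X → ℤ) (hS : Measurable S) (m : ℝ) {a : ℝ} (ha : 0 < a) :
    Integrable (fun x : ℝ => a * P.real {ω | S ω = ⌊m - x * a⌋}) ∧
      ∫ x : ℝ, a * P.real {ω | S ω = ⌊m - x * a⌋} = 1 := by
  have hf : Measurable fun x : ℝ => ⌊m - x * a⌋ := by fun_prop
  have hE : MeasurableSet {p : ℝ × X | S p.2 = ⌊m - p.1 * a⌋} :=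
    measurableSet_eq_fun (hS.comp measurable_snd) (hf.comp measurable_fst)
  have h1 : ∫⁻ x : ℝ, P {ω | S ω = ⌊m - x * a⌋} = ENNReal.ofReal a⁻¹ := by
    have e1 := Measure.prod_apply (μ := (volume : Measure ℝ)) (ν := P) hE
    have e2 := Measure.prod_apply_symm (μ := (volume : Measure ℝ)) (ν := P) hE
    have e3 : ∀ ω, (volume : Measure ℝ) ((fun x => (x, ω)) ⁻¹' {p : ℝ × X | S p.2 = ⌊m - p.1 * a⌋})
        = ENNReal.ofReal a⁻¹ := by
      intro ω
      have : ((fun x => (x, ω)) ⁻¹' {p : ℝ × X | S p.2 = ⌊m - p.1 * a⌋}) =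
          Ioc ((m - S ω - 1) / a) ((m - S ω) / a) := by
        ext x
        simp only [mem_preimage, mem_setOf_eq, mem_Ioc, div_lt_iff₀ ha, le_div_iff₀ ha]
        rw [eq_comm, Int.floor_eq_iff]
        constructor <;> rintro ⟨h1, h2⟩ <;> constructor <;> linarith
      rw [this, Real.volume_Ioc]
      congr 1
      field_simp
      ring
    simp only [e3, lintegral_const, measure_univ, mul_one] at e2
    rw [← e2, e1]
    rfl
  have hm : Measurable fun x : ℝ => P {ω | S ω = ⌊m - x * a⌋} :=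
    (measurable_from_top (f := fun j : ℤ => P {ω | S ω = j})).comp hf
  have h2 : ∀ᵐ x : ℝ, P {ω | S ω = ⌊m - x * a⌋} < ⊤ :=
    Eventually.of_forall fun x => measure_lt_top _ _
  refine ⟨(integrable_toReal_of_lintegral_ne_top hm.aemeasurable ?_).const_mul a, ?_⟩
  · rw [h1]; exact ENNReal.ofReal_ne_top
  · simp only [measureReal_def]
    rw [integral_const_mul, integral_toReal hm.aemeasurable h2, h1,
      ENNReal.toReal_ofReal (by positivity), mul_inv_cancel₀ ha.ne']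

end Pool.Agent.Lib.MP_77dff5_pr
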